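import Pool.Agent.MP_5168f5_an.AN.GADef

/-! Kakeya sets in all dimensions: negligible sequences, bilinearity of the bracket. -/

namespace Pool.Agent.MP_5168f5_an.AN.GA

open H19 H17S H17F G39 Filter H61Z

section Neg

variable {M M' : ℕ → ℕ} {u v : ℕ → ℝ}

theorem Neg.os (h : Neg M u) : OS M u := ⟨1, one_pos, h 1⟩

theorem Neg.ob (h : Neg M u) : OB M u := fun c _ => (h (-c)).mono fun n a => by
  rwa [dl_inv, show Real.exp (c * M n) = dl M (-c) n by unfold dl; congr 1; ring]

theorem Neg.mono (h : Neg M u) (e : ∀ᶠ n in UF, |v n| ≤ |u n|) : Neg M v := fun K =>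
  ((h K).and e).mono fun _ a => a.2.trans a.1

theorem Neg.congr (h : Neg M u) (e : ∀ᶠ n in UF, v n = u n) : Neg M v :=
  h.mono (e.mono fun _ a => by rw [a])

theorem neg_ev (e : ∀ᶠ n in UF, u n = 0) : Neg M u := fun K =>
  e.mono fun n a => by rw [a, abs_zero]; exact (dl_pos M K n).le

theorem neg_zero : Neg M fun _ => 0 := neg_ev (Eventually.of_forall fun _ => rfl)

theorem Neg.neg (h : Neg M u) : Neg M fun n => -u n :=
  h.mono (Eventually.of_forall fun n => by rw [abs_neg])

theorem Neg.add (hM : Big M) (h : Neg M u) (h' : Neg M v) : Neg M fun n => u n + v n := fun K => by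
  filter_upwards [h (K + 1), h' (K + 1), dl_lt hM (K := 1 / 2) (c := 1) (by norm_num) one_pos]
    with n a b e
  rw [dl_add] at a b
  nlinarith [abs_add_le (u n) (v n), dl_pos M K n]

theorem Neg.sub (hM : Big M) (h : Neg M u) (h' : Neg M v) : Neg M fun n => u n - v n :=
  (h.add hM h'.neg).congr (Eventually.of_forall fun _ => sub_eq_add_neg _ _)

/-- A factor of exponential size does not matter. -/
theorem Neg.mul_exp (h : Neg M u) {C : ℝ} (e : ∀ᶠ n in UF, |v n| ≤ Real.exp (C * M n)) :
    Neg M fun n => u n * v n := fun K => by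
  filter_upwards [h (K + C), e] with n a b
  rw [abs_mul]
  refine (mul_le_mul a b (abs_nonneg _) (dl_pos _ _ _).le).trans_eq ?_
  unfold dl; rw [← Real.exp_add]; congr 1; ring

theorem Neg.mul (h : Neg M u) (h' : OB M v) : Neg M fun n => u n * v n :=
  h.mul_exp (C := 1) ((h' 1 one_pos).mono fun n a => by rwa [dl_inv] at a)

theorem Neg.mul' (h : Neg M u) (h' : OB M v) : Neg M fun n => v n * u n :=
  (h.mul h').congr (Eventually.of_forall fun _ => mul_comm _ _)

theorem Neg.sum (hM : Big M) {J : Type} (T : Finset J) {f : J → ℕ → ℝ}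
    (h : ∀ j ∈ T, Neg M (f j)) : Neg M fun n => ∑ j ∈ T, f j n := by
  classical
  induction T using Finset.induction_on with
  | empty => simpa using neg_zero
  | insert a s ha ih =>
    simp only [Finset.sum_insert ha]
    exact (h a (Finset.mem_insert_self _ _)).add hM
      (ih fun j hj => h j (Finset.mem_insert_of_mem hj))

theorem Neg.up (h : Neg M u) {C : ℝ} (e : ∀ᶠ n in UF, (M' n : ℝ) ≤ C * M n) : Neg M' u :=
  fun K => by
    filter_upwards [h (max K 0 * C), e] with n a b
    refine a.trans (Real.exp_le_exp.2 (neg_le_neg ?_))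
    have h1 : K * M' n ≤ max K 0 * M' n :=
      mul_le_mul_of_nonneg_right (le_max_left _ _) (Nat.cast_nonneg _)
    have h2 := mul_le_mul_of_nonneg_left b (le_max_right K 0)
    linarith

/-- Power small is negligible in a much smaller unit. -/
theorem neg_of_os (h : OS M u) (e : Sm M fun n => (M' n : ℝ)) : Neg M' u := fun K => by
  obtain ⟨c, hc, h⟩ := h
  have hK : 0 < max K 1 := lt_max_of_lt_right one_pos
  filter_upwards [h, e (c / max K 1) (by positivity)] with n a b
  refine a.trans (Real.exp_le_exp.2 (neg_le_neg ?_))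
  have h1 : K * M' n ≤ max K 1 * M' n :=
    mul_le_mul_of_nonneg_right (le_max_left _ _) (Nat.cast_nonneg _)
  have h2 := mul_le_mul_of_nonneg_left b hK.le
  have h3 : max K 1 * (0 + c / max K 1 * M n) = c * M n := by field_simp; ring
  linarith

theorem ob_mul (hM : Big M) (h : OB M u) (h' : OB M v) : OB M fun n => u n * v n :=
  (OO hM).mul_mem h h'

theorem ob_add (hM : Big M) (h : OB M u) (h' : OB M v) : OB M fun n => u n + v n :=
  (OO hM).add_mem h h'

theorem ob_neg (hM : Big M) (h : OB M u) : OB M fun n => -u n := (OO hM).neg_mem h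

theorem ob_const (hM : Big M) (x : ℝ) : OB M fun _ => x := fun _ hc => big_dl hM _ hc

theorem ob_congr (h : OB M u) (e : ∀ᶠ n in UF, |v n| ≤ |u n|) : OB M v := fun c hc =>
  ((h c hc).and e).mono fun _ a => a.2.trans a.1

theorem ob_sum (hM : Big M) {J : Type} (T : Finset J) {f : J → ℕ → ℝ}
    (h : ∀ j ∈ T, OB M (f j)) : OB M fun n => ∑ j ∈ T, f j n := by
  have := (OO hM).sum_mem (t := T) (f := f) h
  rwa [show ∑ j ∈ T, f j = fun n => ∑ j ∈ T, f j n from funext fun n => Finset.sum_apply _ _ _]
    at this

/-- A common subexponential bound for finitely many sequences. -/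
theorem ob_bound (hM : Big M) {J : Type} [Fintype J] {f : J → ℕ → ℝ} (h : ∀ j, OB M (f j)) :
    ∃ L, Sub M L ∧ ∀ n j, |f j n| ≤ L n := by
  have h0 : ∀ n, 0 ≤ ∑ j, |f j n| := fun n => Finset.sum_nonneg fun j _ => abs_nonneg _
  have h1 : OB M fun n => 1 + ∑ j, |f j n| := ob_add hM (ob_const hM 1)
    (ob_sum hM _ fun j _ => ob_congr (h j) (Eventually.of_forall fun n => by rw [abs_abs]))
  refine ⟨fun n => 1 + ∑ j, |f j n|, ⟨fun n => by linarith [h0 n], fun ε hε => ?_⟩, fun n j => ?_⟩
  · exact (h1 ε hε).mono fun n a => by rw [dl_inv] at a; exact (le_abs_self _).trans a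
  · have := Finset.single_le_sum (f := fun j => |f j n|) (fun j _ => abs_nonneg _)
      (Finset.mem_univ j)
    linarith

/-- The ideal of the negligible sequences. -/
def ng (hM : Big M) : Ideal (OO hM) where
  carrier := {a | Neg M a.1}
  add_mem' := fun h h' => Neg.add hM h h'
  zero_mem' := neg_zero
  smul_mem' := fun a _ h => Neg.mul' h a.2

theorem sub_box (hM : Big M) {L : ℕ → ℝ} (h : Sub M L) {K : ℕ} (hK : 1 ≤ K) :
    Sub M fun n => (K * L n) ^ K := (h.const_mul hM (by exact_mod_cast hK)).pow K

end Neg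

section Br

variable {κ R : Type} [Fintype κ] [CommRing R] (c : κ → κ → κ → R)

theorem br_add_left (s s' t : κ → R) : br c (s + s') t = br c s t + br c s' t := by
  funext e; simp only [br, Pi.add_apply, mul_add, add_mul, Finset.sum_add_distrib]

theorem br_add_right (s t t' : κ → R) : br c s (t + t') = br c s t + br c s t' := by
  funext e; simp only [br, Pi.add_apply, mul_add, Finset.sum_add_distrib]

theorem br_smul_left (x : R) (s t : κ → R) : br c (x • s) t = x • br c s t := by
  funext e
  simp only [br, Pi.smul_apply, smul_eq_mul, Finset.mul_sum]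
  exact Finset.sum_congr rfl fun a _ => Finset.sum_congr rfl fun b _ => by ring

theorem br_smul_right (x : R) (s t : κ → R) : br c s (x • t) = x • br c s t := by
  funext e
  simp only [br, Pi.smul_apply, smul_eq_mul, Finset.mul_sum]
  exact Finset.sum_congr rfl fun a _ => Finset.sum_congr rfl fun b _ => by ring

theorem br_zero_left (t : κ → R) : br c 0 t = 0 := by funext e; simp [br]

theorem br_zero_right (s : κ → R) : br c s 0 = 0 := by funext e; simp [br]

theorem br_neg_left (s t : κ → R) : br c (-s) t = -br c s t := by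
  rw [← neg_one_smul R s, br_smul_left, neg_one_smul]

theorem br_neg_right (s t : κ → R) : br c s (-t) = -br c s t := by
  rw [← neg_one_smul R t, br_smul_right, neg_one_smul]

theorem br_sub_left (s s' t : κ → R) : br c (s - s') t = br c s t - br c s' t := by
  rw [sub_eq_add_neg, br_add_left, br_neg_left, sub_eq_add_neg]

theorem br_sub_right (s t t' : κ → R) : br c s (t - t') = br c s t - br c s t' := by
  rw [sub_eq_add_neg, br_add_right, br_neg_right, sub_eq_add_neg]

theorem br_single [DecidableEq κ] (a b : κ) : br c (Pi.single a 1) (Pi.single b 1) = c a b := by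
  funext e
  simp [br, Pi.single_apply, Finset.sum_ite_eq']

variable {c}

theorem br_anti (h : ∀ a b e, c a b e = -c b a e) (s t : κ → R) : br c s t = -br c t s := by
  funext e
  simp only [br, Pi.neg_apply, ← Finset.sum_neg_distrib]
  rw [Finset.sum_comm]
  exact Finset.sum_congr rfl fun a _ => Finset.sum_congr rfl fun b _ => by rw [h]; ring

theorem br_self [Algebra ℚ R] (h : ∀ a b e, c a b e = -c b a e) (s : κ → R) : br c s s = 0 := by
  have h1 : br c s s + br c s s = 0 := by nth_rw 1 [br_anti h]; exact neg_add_cancel _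
  have : br c s s = (1 / 2 : ℚ) • (br c s s + br c s s) := by
    rw [← two_smul ℚ, smul_smul]; norm_num
  rw [this, h1, smul_zero]

end Br

end Pool.Agent.MP_5168f5_an.AN.GA
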