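import Pool.Agent.MP_5168f5_an.AN.GASpec

/-! Estimates for the group law on boxes. -/

namespace Pool.Agent.MP_5168f5_an.AN.GA

namespace GABoxA

variable {κ α : Type} [Fintype κ] {c : κ → κ → κ → ℝ} {r r' s t : κ → ℝ} {L X Y η : ℝ} {k : ℕ}

omit [Fintype κ] in
theorem mono (h : Bx r X s) (hr : ∀ a, 0 ≤ r a) (e : X ≤ Y) : Bx r Y s := fun a =>
  (h a).trans (mul_le_mul_of_nonneg_right e (hr a))

theorem bx (hk : Fintype.card κ ≤ k) (hL : 0 ≤ L) (hX : 0 ≤ X) (hY : 0 ≤ Y) (hr : ∀ a, 0 ≤ r' a)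
    (h : Idl c r r' L) (hs : Bx r X s) (ht : Bx r' Y t) :
    Bx r' (k ^ 2 * L * (X * Y)) (br c s t) := fun e => by
  have h0 : 0 ≤ X * Y * (L * r' e) := by have := hr e; positivity
  have h1 : ∀ a b, |c a b e * s a * t b| ≤ X * Y * (L * r' e) := fun a b => by
    rw [abs_mul, abs_mul]
    refine (mul_le_mul (mul_le_mul_of_nonneg_left (hs a) (abs_nonneg _)) (ht b) (abs_nonneg _)
      (mul_nonneg (abs_nonneg _) ((abs_nonneg _).trans (hs a)))).trans ?_
    exact le_of_eq_of_le (by ring) (mul_le_mul_of_nonneg_left (h a b e) (mul_nonneg hX hY))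
  have h2 : ∀ (f : κ → ℝ) (Z : ℝ), 0 ≤ Z → (∀ a, |f a| ≤ Z) → |∑ a, f a| ≤ k * Z :=
    fun f Z z hf => (Finset.abs_sum_le_sum_abs _ _).trans ((Finset.sum_le_card_nsmul _ _ Z
      fun a _ => hf a).trans (by
        rw [nsmul_eq_mul]
        exact mul_le_mul_of_nonneg_right (by exact_mod_cast hk) z))
  exact (h2 _ _ (by positivity) fun a => h2 _ _ h0 (h1 a)).trans_eq (by ring)

theorem len_pos (w : Wd α) : 1 ≤ w.len := by
  induction w with
  | of _ => exact le_rfl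
  | br u v a _ => exact a.trans (Nat.le_add_right _ _)

theorem pw (Λ : ℝ) (u v : Wd α) :
    Λ ^ (2 * (Wd.br u v).len - 1) = Λ * (Λ ^ (2 * u.len - 1) * Λ ^ (2 * v.len - 1)) := by
  rw [← pow_add, ← pow_succ']
  have := len_pos u
  have := len_pos v
  exact congrArg _ (by simp only [Wd.len]; omega)

theorem w1 (hk : Fintype.card κ ≤ k) (hL : 1 ≤ L) (hr : ∀ a, 0 ≤ r a) (h : Idl c r r L)
    {f : α → κ → ℝ} (hf : ∀ i, Bx r L (f i)) (w : Wd α) :
    Bx r (((2 * k ^ 2 + 2) * L) ^ (2 * w.len - 1)) (w.ev (br c) f) := by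
  have h0 : (0 : ℝ) ≤ k ^ 2 * L := by positivity
  induction w with
  | of i => exact mono (hf i) hr (by show _ ≤ _ ^ 1; rw [pow_one]; nlinarith)
  | br u v a b =>
    rw [pw]
    exact mono (bx hk (by positivity) (by positivity) (by positivity) hr h a b) hr
      (mul_le_mul_of_nonneg_right (by nlinarith) (by positivity))

theorem w2 (hk : Fintype.card κ ≤ k) (hL : 1 ≤ L) (hη : 0 ≤ η) (hr : ∀ a, 0 ≤ r a ∧ 0 ≤ r' a)
    (ha : ∀ a b e, c a b e = -c b a e) (h : Idl c r r L) (h' : Idl c r r' L) {f f' : α → κ → ℝ}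
    (hf : ∀ i, Bx r L (f i)) (hf' : ∀ i, Bx r L (f' i)) (hd : ∀ i, Bx r' η (f i - f' i))
    (w : Wd α) : Bx r' (((2 * k ^ 2 + 2) * L) ^ (2 * w.len - 1) * η)
      (w.ev (br c) f - w.ev (br c) f') := by
  have h0 : (0 : ℝ) ≤ k ^ 2 * L := by positivity
  induction w with
  | of i =>
    exact mono (hd i) (fun a => (hr a).2) (le_mul_of_one_le_left hη (one_le_pow₀ (by nlinarith)))
  | br u v a b =>
    have a1 := bx hk (by positivity) (by positivity) (by positivity) (fun a => (hr a).2) h'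
      (w1 hk hL (fun a => (hr a).1) h hf v) a
    have a2 := bx hk (by positivity) (by positivity) (by positivity) (fun a => (hr a).2) h'
      (w1 hk hL (fun a => (hr a).1) h hf' u) b
    intro e
    have a3 := a1 e
    have a4 := a2 e
    rw [br_sub_right, br_anti ha (v.ev _ f), br_anti ha (v.ev _ f)] at a3
    rw [br_sub_right] at a4
    rw [pw]
    simp only [Wd.ev, Pi.sub_apply, Pi.neg_apply] at a3 a4 ⊢
    have a5 : 0 ≤ L * (((2 * k ^ 2 + 2) * L) ^ (2 * u.len - 1) *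
      ((2 * k ^ 2 + 2) * L) ^ (2 * v.len - 1)) * η * r' e := by have := (hr e).2; positivity
    rw [abs_le] at a3 a4 ⊢
    constructor <;> linarith [a3.1, a3.2, a4.1, a4.2]

omit [Fintype κ] in
theorem lin (l : Wd Bool →₀ ℚ) (F : Wd Bool → κ → ℝ) (hX : 0 ≤ X) (hr : ∀ a, 0 ≤ r a)
    (h : ∀ w, w.len ≤ l.support.sup Wd.len + 2 → Bx r X (F w)) :
    Bx r ((3 + ∑ w ∈ l.support, |(l w : ℝ)|) * X) (F (.of true) + F (.of false) +
      (1 / 2 : ℚ) • F (.br (.of true) (.of false)) + l.sum fun w q => q • F w) := fun e => by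
  have a1 := abs_le.1 (h (.of true) (by simp [Wd.len]) e)
  have a2 := abs_le.1 (h (.of false) (by simp [Wd.len]) e)
  have a3 := abs_le.1 (h (.br (.of true) (.of false)) (by simp [Wd.len]) e)
  have a4 : |∑ w ∈ l.support, (l w : ℝ) * F w e| ≤ (∑ w ∈ l.support, |(l w : ℝ)|) * (X * r e) := by
    rw [Finset.sum_mul]
    refine (Finset.abs_sum_le_sum_abs _ _).trans (Finset.sum_le_sum fun w hw => ?_)
    rw [abs_mul]
    exact mul_le_mul_of_nonneg_left (h w ((Finset.le_sup hw).trans (Nat.le_add_right _ _)) e)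
      (abs_nonneg _)
  have a5 := mul_nonneg hX (hr e)
  simp only [Finsupp.sum, Pi.add_apply, Finset.sum_apply, Pi.smul_apply, Rat.smul_def]
  push_cast
  rw [abs_le] at a4 ⊢
  constructor <;> linarith [a1.1, a1.2, a2.1, a2.2, a3.1, a3.2, a4.1, a4.2]

end GABoxA

open GABoxA

theorem gaBox : SBox := by
  intro N k
  obtain ⟨m, hm⟩ : ∃ m, m = (BL N).support.sup Wd.len + 2 := ⟨_, rfl⟩
  obtain ⟨Q, hQ⟩ : ∃ Q, Q = 3 + ∑ w ∈ (BL N).support, |(BL N w : ℝ)| := ⟨_, rfl⟩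
  obtain ⟨K, k1, k2, k3⟩ : ∃ K : ℕ, 2 * k ^ 2 + 2 ≤ K ∧ ⌈Q⌉₊ ≤ K ∧ 2 * m + 1 ≤ K :=
    ⟨2 * k ^ 2 + 2 + ⌈Q⌉₊ + (2 * m + 1), by omega, by omega, by omega⟩
  refine ⟨K, by omega, fun κ _ c r r' L η s t s' t' hk hL hη hr ha h h' hs ht hs' ht' => ?_⟩
  have k4 : (2 * k ^ 2 + 2 : ℝ) ≤ K := by exact_mod_cast k1
  have k5 : (1 : ℝ) ≤ (2 * k ^ 2 + 2) * L :=
    one_le_mul_of_one_le_of_one_le (by nlinarith [sq_nonneg (k : ℝ)]) hL
  have k6 : (2 * k ^ 2 + 2) * L ≤ K * L := mul_le_mul_of_nonneg_right k4 (by positivity)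
  have k7 : Q * ((2 * k ^ 2 + 2) * L) ^ (2 * m) ≤ (K * L) ^ K := by
    refine le_trans ?_ (pow_le_pow_right₀ (k5.trans k6) k3)
    rw [pow_succ' (K * L : ℝ)]
    exact mul_le_mul ((Nat.ceil_le.1 k2).trans (le_mul_of_one_le_right (by positivity) hL))
      (pow_le_pow_left₀ (by positivity) k6 _) (by positivity) (by positivity)
  have k8 : ∀ w : Wd Bool, w.len ≤ (BL N).support.sup Wd.len + 2 →
      ((2 * k ^ 2 + 2) * L) ^ (2 * w.len - 1) ≤ ((2 * k ^ 2 + 2) * L) ^ (2 * m) := fun w e =>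
    pow_le_pow_right₀ k5 (by omega)
  have f1 : ∀ i : Bool, Bx r L (bif i then s else t) := fun i => by cases i <;> assumption
  refine ⟨mono (lin (BL N) (fun w => w.ev (br c) fun i => bif i then s else t) (by positivity)
    (fun a => (hr a).1) fun w e => mono (w1 hk hL (fun a => (hr a).1) h f1 w) (fun a => (hr a).1)
      (k8 w e)) (fun a => (hr a).1) (hQ ▸ k7), fun d1 d2 => ?_⟩
  have a1 := lin (BL N) (fun w => (w.ev (br c) fun i => bif i then s else t) -
    w.ev (br c) fun i => bif i then s' else t') (by positivity) (fun a => (hr a).2) fun w e =>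
      mono (w2 hk hL hη hr ha h h' f1 (fun i => by cases i <;> assumption)
        (fun i => by cases i <;> assumption) w) (fun a => (hr a).2)
        (mul_le_mul_of_nonneg_right (k8 w e) hη)
  rw [← hQ, ← mul_assoc] at a1
  refine (congrArg _ ?_).mp (mono a1 (fun a => (hr a).2) (mul_le_mul_of_nonneg_right k7 hη))
  simp only [bch, ser, Wd.ev, Finsupp.sum, smul_sub, Finset.sum_sub_distrib, cond_true, cond_false]
  abel

end Pool.Agent.MP_5168f5_an.AN.GA
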