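import Pool.Agent.MP_5168f5_an.AN.GASpec

/-! Kakeya sets in all dimensions: cells, and the number of small cells in a box. -/

namespace Pool.Agent.MP_5168f5_an.AN.GA

open H19 H17S H17F G39 Filter H61Z

namespace GACellA

theorem le_box {K : ℕ} (hK : 1 ≤ K) {L : ℝ} (hL : 1 ≤ L) : L ≤ (K * L) ^ K := by
  have k : (1 : ℝ) ≤ K := by exact_mod_cast hK
  have h : L ≤ K * L := by nlinarith
  exact h.trans (le_self_pow₀ (hL.trans h) (by omega))

theorem idl_mono {κ : Type} {c : κ → κ → κ → ℝ} {r r' : κ → ℝ} {L L' : ℝ} (h : Idl c r r' L)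
    (e : L ≤ L') (h0 : ∀ a, 0 ≤ r' a) : Idl c r r' L' := fun a b f =>
  (h a b f).trans (mul_le_mul_of_nonneg_right e (h0 f))

theorem card_Icc {m : ℝ} (hm : 0 ≤ m) : ((Finset.Icc ⌊-m⌋ ⌊m⌋).card : ℝ) ≤ 2 * m + 2 := by
  have h : ⌊-m⌋ ≤ ⌊m⌋ + 1 := by
    have := Int.floor_mono (show -m ≤ m by linarith); omega
  have e := congrArg (Int.cast : ℤ → ℝ) (Int.card_Icc_of_le _ _ h)
  push_cast at e
  linarith [Int.floor_le m, Int.lt_floor_add_one (-m)]

theorem big (K0 k : ℕ) (h0 : 1 ≤ K0) : ∃ K : ℕ, 1 ≤ K ∧ ∀ (L : ℝ) (j : ℕ), 1 ≤ L → j ≤ k →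
    (4 * ((K0 * L) ^ K0 * (K0 * (K0 * L) ^ K0) ^ K0)) ^ j ≤ (K * L) ^ K := by
  obtain ⟨K, h4, h1, h2⟩ : ∃ K : ℕ, 4 ≤ K ∧ K0 ≤ K ∧ (1 + (K0 + (1 + K0) * K0)) * k ≤ K :=
    ⟨4 + K0 + _, by omega, by omega, Nat.le_add_left _ _⟩
  refine ⟨K, by omega, fun L j hL hj => ?_⟩
  have a4 : (4 : ℝ) ≤ K := by exact_mod_cast h4
  have a1 : (K0 : ℝ) ≤ K := by exact_mod_cast h1
  have a0 : (0 : ℝ) ≤ K0 := Nat.cast_nonneg _
  have b0 : (K : ℝ) ≤ K * L := by nlinarith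
  have b1 : (K0 * L) ^ K0 ≤ (K * L) ^ K0 := by gcongr
  have b2 : (K0 * (K0 * L) ^ K0) ^ K0 ≤ (K * L) ^ ((1 + K0) * K0) := by
    rw [pow_mul, pow_add, pow_one]; gcongr; linarith
  calc _ ≤ ((K * L) ^ (1 + (K0 + (1 + K0) * K0))) ^ j := by
        rw [pow_add, pow_add, pow_one]; gcongr; linarith
    _ ≤ _ := by
        rw [← pow_mul]
        exact pow_le_pow_right₀ (by linarith) ((Nat.mul_le_mul_left _ hj).trans h2)

end GACellA

open GACellA

theorem gaCell : OfCell := by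
  intro hM hN hS N k
  obtain ⟨K0, k0, H⟩ := hN N k
  obtain ⟨K, hK, HK⟩ := big K0 k k0
  refine ⟨K, hK, fun ι κ _ _ _ Φ B c r r' L e hk hF hL hr => ?_⟩
  classical
  have m := hM ι κ Φ B c hF
  have sy : ∀ x y, Nr B r' 1 x y → Nr B r' 1 y x := by
    rintro x y ⟨t, h, rfl⟩
    exact ⟨-t, fun a => by rw [Pi.neg_apply, abs_neg]; exact h a,
      by rw [mul_assoc, (m.neg t).2, mul_one]⟩
  obtain ⟨n1, n2⟩ := hS _ (Nr B r' 1)
    (fun x => ⟨0, fun a => by simpa using (hr a).1.le, by rw [m.zero, mul_one]⟩) sy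
  refine ⟨n1, fun i1 i2 y hy => ?_⟩
  have r0 : ∀ a, 0 < r a := fun a =>
    (mul_pos_iff_of_pos_left (by linarith)).1 ((hr a).1.trans_le (hr a).2)
  have hr' : ∀ a, 0 ≤ r a ∧ 0 ≤ r' a := fun a => ⟨(r0 a).le, (hr a).1.le⟩
  have HK := HK L _ hL hk
  have l1 := le_box k0 hL
  have nr : ∀ x, Nr B r L y x → Nr B r ((K0 * L) ^ K0) y (cell B r' x) := fun x hx => by
    obtain ⟨t, h, e'⟩ := sy _ _ (n1 x)
    exact (H ι κ Φ B c r r' L 0 y x _ e hk hF hL le_rfl hr' i1 i2).2.1 hx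
      ⟨t, fun a => (h a).trans (by rw [one_mul]; exact (hr a).2), e'⟩
  generalize (K0 * L) ^ K0 = A at HK l1 nr
  have hA : 1 ≤ A := hL.trans l1
  have l2 := le_box k0 hA
  have H2 := fun p q => H ι κ Φ B c r r' A ((K0 * A) ^ K0)⁻¹ y p q e hk hF hA (by positivity) hr'
    (idl_mono i1 l1 fun a => (hr' a).1) (idl_mono i2 l1 fun a => (hr' a).2)
  generalize (K0 * A) ^ K0 = D at HK l2 H2
  have hD : 0 < D := by linarith
  let F : Mt ι → κ → ℤ := fun p a => ⌊lg B y p a / (D⁻¹ * r' a)⌋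
  let G := Fintype.piFinset fun a =>
    Finset.Icc ⌊-(A * D * (r a / r' a))⌋ ⌊A * D * (r a / r' a)⌋
  let S : Set (Mt ι) := {p | ∃ x, Nr B r L y x ∧ cell B r' x = p}
  have mt : Set.MapsTo F S G := by
    rintro _ ⟨x, hx, rfl⟩
    refine Finset.mem_coe.2 (Fintype.mem_piFinset.2 fun a => ?_)
    have h0 := (hr a).1
    have h : |lg B y (cell B r' x) a / (D⁻¹ * r' a)| ≤ A * D * (r a / r' a) := by
      rw [abs_div, abs_of_pos (show 0 < D⁻¹ * r' a by positivity), div_le_iff₀ (by positivity)]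
      exact (((H2 _ y).2.2.1 hy (nr x hx)).2 a).trans_eq (by field_simp)
    exact Finset.mem_Icc.2 ⟨Int.floor_mono (abs_le.1 h).1, Int.floor_mono (abs_le.1 h).2⟩
  have ij : Set.InjOn F S := by
    rintro _ ⟨x, hx, rfl⟩ _ ⟨z, hz, rfl⟩ h
    have := (H2 (cell B r' x) (cell B r' z)).2.2.2.1 hy (nr x hx) (nr z hz) fun a => by
      have h0 := (hr a).1
      have := Int.abs_sub_lt_one_of_floor_eq_floor (congrFun h a).symm
      rw [← sub_div, abs_div, abs_of_pos (show 0 < D⁻¹ * r' a by positivity),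
        div_lt_one (by positivity)] at this
      exact this.le
    rw [mul_inv_cancel₀ hD.ne'] at this
    exact n2 x z this
  have fin := Set.Finite.of_injOn mt ij G.finite_toSet
  refine ⟨fin.toFinset, ?_, fun x hx => fin.mem_toFinset.2 ⟨x, hx, rfl⟩⟩
  have c1 : fin.toFinset.card ≤ G.card := Finset.card_le_card_of_injOn F
    (by rwa [fin.coe_toFinset]) (by rwa [fin.coe_toFinset])
  have q0 : ∀ a, 0 < r a / r' a := fun a => div_pos (r0 a) (hr a).1
  calc _ ≤ (G.card : ℝ) := by exact_mod_cast c1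
    _ ≤ ∏ a, 4 * (A * D) * (r a / r' a) := by
      rw [Fintype.card_piFinset, Nat.cast_prod]
      refine Finset.prod_le_prod (fun _ _ => Nat.cast_nonneg _) fun a _ => ?_
      have h1 : 1 ≤ L * (r a / r' a) := by
        rw [← mul_div_assoc, one_le_div (hr a).1]; exact (hr a).2
      have h2 : L * (r a / r' a) ≤ A * D * (r a / r' a) :=
        mul_le_mul_of_nonneg_right (by nlinarith) (q0 a).le
      exact (card_Icc (by linarith)).trans (by linarith)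
    _ ≤ _ := by
      rw [Finset.prod_mul_distrib, Finset.prod_const, Finset.card_univ]
      exact mul_le_mul_of_nonneg_right HK (Finset.prod_nonneg fun a _ => (q0 a).le)

end Pool.Agent.MP_5168f5_an.AN.GA
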