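import Pool.Agent.MP_5168f5_an.AN.GASpec

/-! Kakeya sets in all dimensions: change of basis inside the weight spaces. -/

namespace Pool.Agent.MP_5168f5_an.AN.GA

open H19 H17S H17F G39 Filter H61Z Matrix

namespace GAChgA

variable {κ : Type} [Fintype κ]

theorem mC_eq (A A' : Matrix κ κ ℝ) (c : κ → κ → κ → ℝ) (a b e : κ) :
    mC A A' c a b e = ∑ e', (∑ a', ∑ b', c a' b' e' * A a a' * A b b') * A' e' e := rfl

theorem pair (L Y : Matrix κ κ ℝ) : ∑ a, ∑ b, L a b * Y a b = trace (Lᵀ * Y) := by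
  rw [Finset.sum_comm]; rfl

theorem ident [DecidableEq κ] {A A' : Matrix κ κ ℝ} (h : A' * A = 1) (c : κ → κ → κ → ℝ)
    (L : Matrix κ κ ℝ) (e : κ) : ∑ a, ∑ b, (A'ᵀ * L * A') a b * mC A A' c a b e =
      ∑ e', (∑ a, ∑ b, L a b * c a b e') * A' e' e := by
  have h1 : ∀ e', ∑ a, ∑ b, (A'ᵀ * L * A') a b * ∑ a', ∑ b', c a' b' e' * A a a' * A b b' =
      ∑ a, ∑ b, L a b * c a b e' := fun e' => by
    have h2 : ∀ a b, ∑ a', ∑ b', c a' b' e' * A a a' * A b b' =
        (A * of (fun a b => c a b e') * Aᵀ) a b := fun a b => by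
      rw [Finset.sum_comm]
      simp only [mul_apply, Finset.sum_mul, of_apply, transpose_apply]
      exact Finset.sum_congr rfl fun _ _ => Finset.sum_congr rfl fun _ _ => by ring
    simp only [h2]
    refine (pair _ _).trans (Eq.trans ?_ (pair L (of fun a b => c a b e')).symm)
    rw [transpose_mul, transpose_mul, transpose_transpose, Matrix.mul_assoc, trace_mul_comm]
    simp only [Matrix.mul_assoc]
    rw [← transpose_mul, h, transpose_one, Matrix.mul_one, ← Matrix.mul_assoc A', h,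
      Matrix.one_mul]
  simp only [← h1, mC_eq]
  generalize A'ᵀ * L * A' = L'
  refine Eq.trans ?_ (Finset.sum_congr rfl fun e' _ => (Finset.sum_mul _ _ _).symm)
  refine Eq.trans (Finset.sum_congr rfl fun a _ => ?_) Finset.sum_comm
  refine Eq.trans ?_ (Finset.sum_congr rfl fun e' _ => (Finset.sum_mul _ _ _).symm)
  refine Eq.trans (Finset.sum_congr rfl fun b _ => ?_) Finset.sum_comm
  rw [Finset.mul_sum]
  exact Finset.sum_congr rfl fun _ _ => (mul_assoc _ _ _).symm

variable {M : ℕ → ℕ} {c : ℕ → κ → κ → κ → ℝ} {A A' : ℕ → Matrix κ κ ℝ} {om : κ → ℝ × ℝ}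

theorem term (hM : Big M) (hc : ∀ a b e, OB M fun n => c n a b e)
    (hA : ∀ a e, OB M (fun n => A n a e) ∧ OB M fun n => A' n a e) {a b e : κ}
    (h : ∀ a' b' e', Neg M (fun n => c n a' b' e') ∨ Neg M (fun n => A n a a') ∨
      Neg M (fun n => A n b b') ∨ Neg M fun n => A' n e' e) :
    Neg M fun n => mC (A n) (A' n) (c n) a b e := by
  simp only [mC_eq, Finset.sum_mul]
  refine Neg.sum hM _ fun e' _ => Neg.sum hM _ fun a' _ => Neg.sum hM _ fun b' _ => ?_
  rcases h a' b' e' with k | k | k | k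
  · exact ((k.mul (hA _ _).1).mul (hA _ _).1).mul (hA _ _).2
  · exact ((k.mul' (hc _ _ _)).mul (hA _ _).1).mul (hA _ _).2
  · exact (k.mul' (ob_mul hM (hc _ _ _) (hA _ _).1)).mul (hA _ _).2
  · exact k.mul' (ob_mul hM (ob_mul hM (hc _ _ _) (hA _ _).1) (hA _ _).1)

theorem homp (hM : Big M) {lam : ℕ → κ → κ → ℝ} (hl : ∀ a b, OB M fun n => lam n a b) {e : κ}
    (h : ∀ a b, ¬Hm om a b e → Neg M fun n => c n a b e) :
    Neg M fun n => ∑ a, ∑ b, lam n a b * cH om (c n) a b e - ∑ a, ∑ b, lam n a b * c n a b e := by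
  simp only [← Finset.sum_sub_distrib, ← mul_sub]
  refine Neg.sum hM _ fun a _ => Neg.sum hM _ fun b _ => Neg.mul' ?_ (hl a b)
  by_cases k : Hm om a b e
  · exact neg_ev (Eventually.of_forall fun n => by simp [cH, k])
  · exact (h a b k).neg.congr (Eventually.of_forall fun n => by simp [cH, k])

end GAChgA

open GAChgA in
theorem gaChg : OfChg := by
  intro hF ι κ _ _ _ _ M Φ om pos B c A A' h h1 hA hz
  have hM := h.big
  have hom : ∀ a b e, om e ≠ 0 → ¬Hm om a b e → Neg M fun n => mC (A n) (A' n) (c n) a b e :=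
    fun a b e he k => term hM h.ob hA fun a' b' e' => by
      by_cases ha : om a = om a'
      · by_cases hb : om b = om b'
        · by_cases h' : om e' = om e
          · exact Or.inl (h.hom a' b' e' (h' ▸ he) fun k' => k (by
              rw [Hm, ha, hb, ← h']; exact k'))
          · exact Or.inr (Or.inr (Or.inr (hz e' e (Or.inl h')).2))
        · exact Or.inr (Or.inr (Or.inl (hz b b' (Or.inl hb)).1))
      · exact Or.inr (Or.inl (hz a a' (Or.inl ha)).1)
  refine ⟨hM, (h.fr.and h1).mono fun n k => ((hF ι κ Φ (B n) (c n)).2 _ _ k.2).1 k.1, h.wt,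
    h.live, fun a b e => ob_sum hM _ fun e' _ => ob_mul hM (ob_sum hM _ fun a' _ =>
      ob_sum hM _ fun b' _ => ob_mul hM (ob_mul hM (h.ob _ _ _) (hA _ _).1) (hA _ _).1)
      (hA _ _).2, hom, fun a b e ha hb he => term hM h.ob hA fun a' b' e' => ?_, fun e he => ?_⟩
  · by_cases ha' : pos a'
    · exact Or.inr (Or.inl (hz a a' (Or.inr ⟨ha, ha'⟩)).1)
    · by_cases hb' : pos b'
      · exact Or.inr (Or.inr (Or.inl (hz b b' (Or.inr ⟨hb, hb'⟩)).1))
      · by_cases he' : pos e'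
        · exact Or.inl (h.sub a' b' e' ha' hb' he')
        · exact Or.inr (Or.inr (Or.inr (hz e' e (Or.inr ⟨he', he⟩)).2))
  have e0 : om e ≠ 0 := fun k => he.1.ne' (by rw [k]; rfl)
  have ex : ∀ f, ∃ lam : ℕ → κ → κ → ℝ, (∀ a b, OB M fun n => lam n a b) ∧ (om f = om e →
      ∀ e', om e' = om e → Neg M fun n =>
        ∑ a, ∑ b, lam n a b * c n a b e' - (1 : Matrix κ κ ℝ) f e') := fun f => by
    by_cases k : om f = om e
    · obtain ⟨lam, l1, l2⟩ := h.gen f (by rw [Mx, k]; exact he)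
      refine ⟨lam, l1, fun _ e' k' => ((l2 e' (k'.trans k.symm)).sub hM
        (homp hM l1 fun a b => h.hom a b e' (k' ▸ e0))).congr (Eventually.of_forall fun n => ?_)⟩
      by_cases j : e' = f
      · subst j; simp
      · simp [j, Ne.symm j]
    · exact ⟨fun _ _ _ => 0, fun _ _ => ob_const hM 0, fun k' => absurd k' k⟩
  choose lam l1 l2 using ex
  have ol : ∀ a b, OB M fun n =>
      ((A' n)ᵀ * (of fun a b => ∑ f, A n e f * lam f n a b) * A' n) a b := fun a b =>
    ob_sum hM _ fun b' _ => ob_mul hM (ob_sum hM _ fun a' _ => ob_mul hM (hA _ _).2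
      (ob_sum hM _ fun f _ => ob_mul hM (hA _ _).1 (l1 _ _ _))) (hA _ _).2
  refine ⟨_, ol, fun e' he' => ?_⟩
  have k1 : Neg M fun n => ∑ f, ∑ g, A n e f *
      (∑ a, ∑ b, lam f n a b * c n a b g - (1 : Matrix κ κ ℝ) f g) * A' n g e' := by
    refine Neg.sum hM _ fun f _ => Neg.sum hM _ fun g _ => ?_
    have o : OB M fun n => ∑ a, ∑ b, lam f n a b * c n a b g - (1 : Matrix κ κ ℝ) f g := by
      simp only [sub_eq_add_neg]
      exact ob_add hM (ob_sum hM _ fun a _ => ob_sum hM _ fun b _ =>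
        ob_mul hM (l1 _ _ _) (h.ob _ _ _)) (ob_const hM _)
    by_cases hf : om e = om f
    · by_cases hg : om g = om e'
      · exact ((l2 f hf.symm g (hg.trans he')).mul' (hA _ _).1).mul (hA _ _).2
      · exact (hz g e' (Or.inl hg)).2.mul' (ob_mul hM (hA _ _).1 o)
    · exact ((hz e f (Or.inl hf)).1.mul o).mul (hA _ _).2
  refine ((homp hM ol fun a b => hom a b e' (he' ▸ e0)).add hM k1).congr (h1.mono fun n k => ?_)
  have k2 : ∑ f, ∑ g, A n e f * (1 : Matrix κ κ ℝ) f g * A' n g e' = (1 : Matrix κ κ ℝ) e e' := by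
    rw [Finset.sum_comm]
    simp only [← Finset.sum_mul, ← mul_apply, Matrix.mul_one, k]
  have k3 : ∑ f, ∑ g, A n e f * (∑ a, ∑ b, lam f n a b * c n a b g) * A' n g e' =
      ∑ g, (∑ a, ∑ b, (∑ f, A n e f * lam f n a b) * c n a b g) * A' n g e' := by
    rw [Finset.sum_comm]
    refine Finset.sum_congr rfl fun g _ => ?_
    rw [← Finset.sum_mul]
    simp only [Finset.sum_mul, Finset.mul_sum, mul_assoc]
    exact (Finset.sum_comm.trans (Finset.sum_congr rfl fun a _ => Finset.sum_comm))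
  simp only [mul_sub, sub_mul, Finset.sum_sub_distrib]
  rw [k2, k3, ident (mul_eq_one_comm.1 k)]
  by_cases j : e' = e
  · subst j; simp
  · simp [j, Ne.symm j]

end Pool.Agent.MP_5168f5_an.AN.GA
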