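import Pool.Agent.MP_5168f5_an.AN.GASpec

/-! Kakeya sets in all dimensions: counting and rounding of cells for an ideal. -/

namespace Pool.Agent.MP_5168f5_an.AN.GA

open H19 H17S H17F G39 Filter H61Z IsNilpotent

namespace GACntA

variable {ι κ : Type} [Fintype ι] [DecidableEq ι] [Fintype κ] {B : κ → Mt ι}
  {c : κ → κ → κ → ℝ} {r r' : κ → ℝ} {L L' : ℝ} {x y : Mt ι}

theorem nr_mono (h : Nr B r L x y) (e : ∀ a, L * r a ≤ L' * r' a) : Nr B r' L' x y :=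
  h.imp fun _ k => ⟨fun a => (k.1 a).trans (e a), k.2⟩

theorem nr_unit (h : Nr B r L x y) (u : IsUnit y) : IsUnit x := by
  obtain ⟨t, -, rfl⟩ := h
  rw [Matrix.isUnit_iff_isUnit_det] at u ⊢
  exact isUnit_of_mul_isUnit_left (Matrix.det_mul x _ ▸ u)

omit [Fintype κ] in
theorem idl_mono (h : Idl c r r' L) (h0 : ∀ a, 0 < r' a) (e : L ≤ L') : Idl c r r' L' :=
  fun a b k => (h a b k).trans (mul_le_mul_of_nonneg_right e (h0 k).le)

theorem le_box {K : ℕ} (hK : 1 ≤ K) (hL : 1 ≤ L) : L ≤ (K * L) ^ K :=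
  have k : (1 : ℝ) ≤ K := by exact_mod_cast hK
  (le_mul_of_one_le_left (by linarith) k).trans
    (le_self_pow₀ (one_le_mul_of_one_le_of_one_le k hL) (by omega))

theorem det4 (hm : SMul) (hN : SNr) (hC : SCell) (Φ : Filt (Mt ι)) :
    ∃ K K' : ℕ, 1 ≤ K ∧ 1 ≤ K' ∧ ∀ (B : κ → Mt ι) (c : κ → κ → κ → ℝ) (r r' : κ → ℝ) (L : ℝ)
      (Ω : Type) (P : FP Ω) (j : Ω → Mt ι), IsFr Φ B c → (∀ ω ∈ P.S, IsUnit (j ω)) → 1 ≤ L →
      (∀ a, 0 < r' a ∧ r' a ≤ L * r a) → Idl c r r L → Idl c r r' L → Idl c r' r' L →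
      Det P (fun ω => cell B r' (j ω)) (fun ω => cell B r (j ω))
        ((K' * L) ^ K' * ∏ a, r a / r' a) ∧
      Det P (fun ω => cell B r (j ω)) (fun ω => cell B r' (j ω)) ((K' * L) ^ K') ∧
      Det P (fun ω => cell B r' (j ω)) (fun ω => rnd B r r' (j ω))
        ((K' * (K * (2 * L)) ^ K) ^ K') ∧
      ∀ a ∈ P.S, ∀ b ∈ P.S,
        (cell B r (j a), cell B r' (j a)) = (cell B r (j b), cell B r' (j b)) →
        ‖(fun e => lg B (cell B r (j a)) (j a) e / r' e) -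
          fun e => lg B (cell B r (j b)) (j b) e / r' e‖ ≤ 2 * (K * (K * L) ^ K) ^ K / 2 ^ 0 := by
  obtain ⟨K, k1, hN⟩ := hN Φ.N (Fintype.card κ)
  obtain ⟨K', k2, hC⟩ := hC Φ.N (Fintype.card κ)
  refine ⟨K, K', k1, k2, fun B c r r' L Ω P j fr un l1 hr i1 i2 i3 => ?_⟩
  have p' : ∀ a, 0 < r' a := fun a => (hr a).1
  have p : ∀ a, 0 < r a := fun a =>
    (mul_pos_iff_of_pos_left (one_pos.trans_le l1)).1 ((p' a).trans_le (hr a).2)
  have N := fun L' x y z (l : L ≤ L') => hN ι κ Φ B c r r' L' 1 x y z rfl le_rfl fr (l1.trans l)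
    zero_le_one (fun a => ⟨(p a).le, (p' a).le⟩) (idl_mono i1 p l) (idl_mono i2 p' l)
  have C : ∀ (ρ : κ → ℝ) (L' : ℝ), (∀ a, 0 < ρ a) → 1 ≤ L' → (∀ x, Nr B ρ 1 (cell B ρ x) x) ∧
      (Idl c ρ ρ L' → ∀ y, IsUnit y → ∃ T : Finset (Mt ι), (T.card : ℝ) ≤ (K' * L') ^ K' ∧
        ∀ x, Nr B ρ L' y x → cell B ρ x ∈ T) := fun ρ L' h l => by
    obtain ⟨u, v⟩ := hC ι κ Φ B c ρ ρ L' rfl le_rfl fr l fun a =>
      ⟨h a, le_mul_of_one_le_left (h a).le l⟩
    exact ⟨u, fun i y k => by simpa [(h _).ne'] using v i i y k⟩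
  have c1 : ∀ {L'}, L ≤ L' → ∀ x, Nr B r L' (cell B r x) x := fun l x =>
    nr_mono ((C r 1 p le_rfl).1 x) fun a => mul_le_mul_of_nonneg_right (l1.trans l) (p a).le
  have c2 := (C r' 1 p' le_rfl).1
  have c3 : ∀ {L'}, L ≤ L' → ∀ x, Nr B r L' (cell B r' x) x := fun l x => nr_mono (c2 x) fun a =>
    (one_mul _).trans_le ((hr a).2.trans (mul_le_mul_of_nonneg_right l (p a).le))
  refine ⟨fun a ha => ?_, fun a ha => ?_, fun a ha => ?_, fun a ha b hb e => ?_⟩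
  · exact ((hC ι κ Φ B c r r' L rfl le_rfl fr l1 hr).2 i1 i2 _
      (nr_unit (c1 le_rfl _) (un a ha))).imp fun T h => ⟨h.1, fun b _ e =>
        h.2 _ ((show cell B r (j b) = cell B r (j a) from e) ▸ c1 le_rfl _)⟩
  · exact ((C r L p l1).2 i1 _ (nr_unit (c2 _) (un a ha))).imp fun T h => ⟨h.1, fun b _ e =>
      h.2 _ ((show cell B r' (j b) = cell B r' (j a) from e) ▸ c3 le_rfl _)⟩
  · have m := hm ι κ Φ B c fr
    have l2 : L ≤ 2 * L := by linarith
    have l3 := l2.trans (le_box k1 (l1.trans l2))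
    have u := nr_unit (c1 le_rfl _) (un a ha)
    have f : ∀ (s : ℝ) (e), |s - r' e * ⌊s / r' e⌋| ≤ 1 * r' e := fun s e => by
      have h1 := (le_div_iff₀ (p' e)).1 (Int.floor_le (s / r' e))
      have h2 := (div_lt_iff₀ (p' e)).1 (Int.lt_floor_add_one (s / r' e))
      rw [abs_le]
      constructor <;> linarith [p' e]
    obtain ⟨t, ht⟩ : ∃ t : κ → ℝ, t = fun e => r' e * (rnd B r r' (j a)).2 e := ⟨_, rfl⟩
    have t1 : Nr B r (2 * L) (cell B r (j a)) (cell B r (j a) * ex B t) := ⟨t, fun e => by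
      have h1 := ((N L _ _ (j a) le_rfl).2.2.1 u (c1 le_rfl _)).2 e
      have h2 := f (lg B (cell B r (j a)) (j a) e) e
      rw [ht]
      exact (abs_sub_abs_le_abs_sub _ _ |>.trans ((abs_sub_comm _ _).trans_le h2) |>
        sub_le_iff_le_add.1).trans (by linarith [(hr e).2]), rfl⟩
    refine ((C r' _ p' (l1.trans l3)).2 (idl_mono i3 p' l3) (cell B r (j a) * ex B t)
      (u.mul ⟨⟨_, _, (m.neg t).2, (m.neg t).1⟩, rfl⟩)).imp fun T h => ⟨h.1, fun b _ e => h.2 _ ?_⟩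
    have e1 : cell B r (j b) = cell B r (j a) := congrArg Prod.fst e
    refine mul_one ((K * (2 * L)) ^ K) ▸ (N _ _ _ _ l2).2.2.2.1 u t1 (e1 ▸ c1 l2 _) fun k => ?_
    rw [m.lg _ _ u, ht, ← show rnd B r r' (j b) = rnd B r r' (j a) from e, ← e1]
    exact f _ k
  · have l2 := le_box k1 l1
    have g : ∀ x, IsUnit x → Bx r' ((K * (K * L) ^ K) ^ K * 1)
        (lg B (cell B r x) x - lg B (cell B r x) (cell B r' x)) := fun x u =>
      (N _ _ _ _ l2).2.2.2.2 (nr_unit (c1 le_rfl _) u)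
        ((N L _ x _ le_rfl).2.1 (c1 le_rfl _) ((N L _ _ x le_rfl).1 (c3 le_rfl _))) (c3 l2 _) (c2 _)
    obtain ⟨e1, e2⟩ := Prod.mk.inj e
    refine (pi_norm_le_iff_of_nonneg (by positivity)).2 fun k => ?_
    have u := abs_le.1 (g _ (un a ha) k)
    have v := abs_le.1 (g _ (un b hb) k)
    rw [← e1, ← e2] at v
    simp only [Pi.sub_apply] at u v
    rw [Pi.sub_apply, ← sub_div, Real.norm_eq_abs, abs_div, abs_of_pos (p' k), div_le_iff₀ (p' k),
      ← e1, abs_le]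
    constructor <;> linarith [u.1, u.2, v.1, v.2]

end GACntA

open GACntA in
theorem gaCnt : OfCnt := by
  rintro hm hN hC ι κ _ _ _ M Φ B c Ω P j r r' hM fr un ⟨L1, s1, i1⟩ ⟨L2, s2, i2⟩
  obtain ⟨K, K', k1, k2, h⟩ := det4 (κ := κ) hm hN hC Φ
  have s := s1.mul s2
  have key := ((fr.and un).and (i1.and i2)).mono fun n a =>
    have l1 : L1 n ≤ L1 n * L2 n := le_mul_of_one_le_right (s1.pos n).le (s2.1 n)
    have p' : ∀ e, 0 < r' n e := fun e => (a.2.1.1 e).1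
    have p : ∀ e, 0 < r n e := fun e =>
      (mul_pos_iff_of_pos_left (s1.pos n)).1 ((p' e).trans_le (a.2.1.1 e).2)
    And.intro (fun e => div_pos (p e) (p' e)) (h (B n) (c n) (r n) (r' n) _ _ (P n) (j n) a.1.1
      a.1.2 (s.1 n) (fun e => ⟨p' e, (a.2.1.1 e).2.trans (mul_le_mul_of_nonneg_right l1 (p e).le)⟩)
      (idl_mono a.2.1.2.1 p l1) (idl_mono a.2.1.2.2 p' l1)
      (idl_mono a.2.2.2.1 p' (le_mul_of_one_le_left (s2.pos n).le (s1.1 n))))
  have h2 := (sub_box hM s k2).log.mono (key.mono fun n a => ch_det a.2.2.1)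
  refine ⟨Le.of_sub (sub_box hM s k2).log (key.mono fun n a => ?_), h2,
    (sub_box hM (sub_box hM (s.const_mul hM one_le_two) k1) k2).log.mono
      (key.mono fun n a => ch_det a.2.2.2.1),
    (h2.add (Sm.near (j := fun _ => 0) hM ((sub_box hM (sub_box hM s k1) k1).const_mul hM
      one_le_two) (key.mono fun n a => a.2.2.2.2))).mono (Eventually.of_forall fun n => ?_)⟩
  · have := ch_det a.2.1
    rw [Real.log_mul ((sub_box hM s k2).pos n).ne' (Finset.prod_pos fun e _ => a.1 e).ne',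
      Real.log_prod fun e _ => (a.1 e).ne'] at this
    linarith
  · refine (ch_chain _ _ _).le.trans_eq ?_
    congr 2
    funext ω e
    simp [flv, fl1]

end Pool.Agent.MP_5168f5_an.AN.GA
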