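import Pool.Agent.MP_5168f5_an.AN.GASpec

/-! Counting for two good depths. -/

namespace Pool.Agent.MP_5168f5_an.AN.GA

open H19 H17S H17F G39 Filter H61Z

namespace GACntWA

variable {ι κ : Type} [Fintype ι] [DecidableEq ι] [Fintype κ] [DecidableEq κ] {M : ℕ → ℕ}
  {Φ : Filt (Mt ι)} {om : κ → ℝ × ℝ} {pos : κ → Prop} {B : ℕ → κ → Mt ι}
  {c : ℕ → κ → κ → κ → ℝ} {d d' : κ → ℝ} {f : κ}

theorem step (h : Alg M Φ om pos B c) (h1 : Id M c d d) (h2 : Id M c d' d')
    (hle : ∀ a, d a ≤ Function.update d f (d' f) a) (h0 : om f ≠ 0)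
    (hm : ∀ a, d a ≠ d' a → (om f).1 + (om f).2 ≤ (om a).1 + (om a).2) :
    Id M c d (Function.update d f (d' f)) := by
  intro a b e k
  by_cases he : e = f
  · subst he
    by_cases hh : Hm om a b e
    · have p : ∀ x, om x ≠ 0 → 0 < (om x).1 + (om x).2 := fun x hx => by
        refine (add_nonneg (h.wt x).1 (h.wt x).2).lt_of_ne fun u =>
          hx (Prod.ext (?_ : _ = (0 : ℝ)) (?_ : _ = (0 : ℝ))) <;> linarith [(h.wt x).1, (h.wt x).2]
      have pa := p a hh.1
      have pb := p b hh.2.1
      have e1 : (om e).1 = (om a).1 + (om b).1 := congrArg Prod.fst hh.2.2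
      have e2 : (om e).2 = (om a).2 + (om b).2 := congrArg Prod.snd hh.2.2
      have ea : d a = d' a := by_contra fun u => by linarith [hm a u]
      have eb : d b = d' b := by_contra fun u => by linarith [hm b u]
      rw [Function.update_self] at k
      exact h2 a b e (by linarith [hle b])
    · exact h.hom a b e h0 hh
  · rw [Function.update_of_ne he] at k
    exact h1 a b e (by linarith [hle b])

end GACntWA

open GACntWA in
theorem gaCntW : OfCntW := by
  classical
  intro hI hC ι κ _ _ _ M Φ om pos B c Ω P j d d' h hj h1 h2 hle h0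
  induction hn : (Finset.univ.filter fun a => d a ≠ d' a).card generalizing d with
  | zero =>
    obtain rfl : d = d' := funext fun a => by_contra fun u =>
      Finset.card_ne_zero_of_mem (Finset.mem_filter.2 ⟨Finset.mem_univ a, u⟩) hn
    exact ⟨Le.of_le fun n => by simp [ch_zero (Fn.rfl _)],
      Le.of_le fun n => (ch_zero (Fn.rfl _)).le⟩
  | succ k ih =>
    obtain ⟨f, hf, hm⟩ := Finset.exists_min_image _ (fun a => (om a).1 + (om a).2)
      (Finset.card_pos.1 (k.succ_pos.trans_eq hn.symm))
    have l1 : ∀ a, d a ≤ Function.update d f (d' f) a := le_update_self_iff.2 (hle f)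
    have l2 : ∀ a, Function.update d f (d' f) a ≤ d' a := update_le_iff.2 ⟨le_rfl, fun a _ => hle a⟩
    have i1 := step h h1 h2 l1 (mt (h0 f) (Finset.mem_filter.1 hf).2) fun a u =>
      hm a (Finset.mem_filter.2 ⟨Finset.mem_univ a, u⟩)
    have hk : (Finset.univ.filter fun a => Function.update d f (d' f) a ≠ d' a).card = k := by
      rw [← Nat.add_one_sub_one k, ← hn, ← Finset.card_erase_of_mem hf]
      refine congrArg _ (Finset.ext fun a => ?_)
      by_cases u : a = f <;> simp [u]
    generalize Function.update d f (d' f) = d1 at l1 l2 i1 hk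
    have i2 : Id M c d1 d1 := fun a b e u => i1 a b e (by linarith [l1 a])
    obtain ⟨a1, a2⟩ := ih d1 i2 l2 (fun a u => (l2 a).antisymm ((h0 a u).ge.trans (l1 a))) hk
    obtain ⟨b1, b2, -⟩ := hC ι κ M Φ B c Ω P j _ _ h.big h.fr hj
      (hI κ M c d d1 h.big h.ob h1 i1 l1) (hI κ M c d1 d1 h.big h.ob i2 i2 fun _ => le_rfl)
    refine ⟨a1.of2 b1 (Eventually.of_forall fun n => ?_),
      (b2.add a2).mono (Eventually.of_forall fun n => ch_tri' _ _ _)⟩
    have e : ∑ a, Real.log (rad M d n a / rad M d1 n a) = (∑ a, (d1 a - d a)) * M n := by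
      rw [Finset.sum_mul]
      refine Finset.sum_congr rfl fun a _ => ?_
      rw [rad, rad, dl, dl, ← Real.exp_sub, Real.log_exp]
      ring
    have t := ch_tri' (P := P n) (fun ω => cl M B d' n (j n ω)) (fun ω => cl M B d n (j n ω))
      fun ω => cl M B d1 n (j n ω)
    simp only [e, Finset.sum_sub_distrib, cl] at t ⊢
    linarith

end Pool.Agent.MP_5168f5_an.AN.GA
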