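import Pool.Agent.MP_5168f5_an.AN.GASpec

/-! A variable that locates the group element in a box determines its cell. -/

namespace Pool.Agent.MP_5168f5_an.AN.GA

open H19 H17S H17F G39 Filter H61Z IsNilpotent

namespace GADetA

theorem two {Ω α β : Type} {P : FP Ω} {F : Ω → α} {Y : Ω → β} (G : Ω → Prop) {A D : ℝ}
    (hA : 0 < A)
    (h0 : ∀ a ∈ P.S, G a → ∃ T : Finset α, (T.card : ℝ) ≤ A ∧
      ∀ b ∈ P.S, Y b = Y a → G b → F b ∈ T)
    (h1 : ∀ a ∈ P.S, ∃ T : Finset α, (T.card : ℝ) ≤ A * Real.exp D ∧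
      ∀ b ∈ P.S, Y b = Y a → F b ∈ T) :
    ch P F Y ≤ Real.log 2 + Real.log A + D * pb P fun ω => ¬G ω := by
  classical
  have h := ch_scale (P := P) (F := F) (G := Y) (ι := fun ω => if ¬G ω then 1 else 0) (I := 1)
    (fun ω _ => by split_ifs <;> simp) (fun i => A * Real.exp (D * i)) fun a ha => by
      by_cases g : G a
      · obtain ⟨T, t1, t2⟩ := h0 a ha g
        refine ⟨T, by simpa [g] using t1, fun b hb e e' => t2 b hb e ?_⟩
        by_contra k
        simp [g, k] at e'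
      · obtain ⟨T, t1, t2⟩ := h1 a ha
        exact ⟨T, by simpa [g] using t1, fun b hb e _ => t2 b hb e⟩
  have e : P.E (fun ω => Real.log (A * Real.exp (D * ((if ¬G ω then 1 else 0 : ℕ) : ℝ)))) =
      Real.log A + D * pb P fun ω => ¬G ω := by
    unfold pb
    rw [← FP.E_mul, ← P.E_const (Real.log A), ← FP.E_add]
    refine P.E_congr fun ω _ => ?_
    rw [Real.log_mul hA.ne' (Real.exp_pos _).ne', Real.log_exp]
    by_cases g : G ω <;> simp [g]
  rw [e] at h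
  norm_num at h ⊢
  linarith

variable {ι κ : Type} [Fintype ι] [DecidableEq ι] [Fintype κ]

theorem nr_mono {B : κ → Mt ι} {r : κ → ℝ} {L L' : ℝ} {x y : Mt ι} (hr : ∀ a, 0 < r a)
    (hL : L ≤ L') (h : Nr B r L x y) : Nr B r L' x y :=
  h.imp fun _ t => ⟨fun a => (t.1 a).trans (mul_le_mul_of_nonneg_right hL (hr a).le), t.2⟩

theorem unit_ex {Φ : Filt (Mt ι)} {B : κ → Mt ι} {c : κ → κ → κ → ℝ} (h : Mul Φ B c)
    (t : κ → ℝ) : IsUnit (ex B t) := ⟨⟨ex B t, ex B (-t), (h.neg t).2, (h.neg t).1⟩, rfl⟩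

end GADetA

theorem gaDet : OfDet := by
  intro mul _ cel ι κ _ _ _ M Φ B c Ω β P j0 j Y rp r L hM fr ⟨L0, hL0, id⟩ ⟨C, hC, su⟩ fn hL whp
  obtain ⟨K, hK, cel⟩ := cel Φ.N (Fintype.card κ)
  have s1 := (hM.sm (Real.log 2)).add (sub_box hM (hL.mul hL0) hK).log
  have s2 : Sm M fun n => K * (C * M n) * pb (P n) fun ω =>
      ¬Nr (B n) (r n) (L n) (rp n (Y n ω)) (j n ω) := fun ε hε => by
    filter_upwards [whp (ε / (K * C + 1)) (by positivity)] with n a
    have h0 : (0 : ℝ) ≤ K * (C * M n) := by positivity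
    refine (mul_le_mul_of_nonneg_left a h0).trans ?_
    rw [zero_add, ← mul_div_assoc, div_le_iff₀ (by positivity)]
    nlinarith [mul_nonneg hε.le (Nat.cast_nonneg (α := ℝ) (M n))]
  refine (s1.add s2).mono ?_
  filter_upwards [fr, id, su, fn] with n fr ⟨hr, id, _⟩ su fn
  have m := mul ι κ Φ (B n) (c n) fr
  have h1 := hL.1 n
  have h2 := hL0.1 n
  have h3 : 1 ≤ L n * L0 n := one_le_mul_of_one_le_of_one_le h1 h2
  have key : ∀ L' : ℝ, L0 n ≤ L' → ∀ y, IsUnit y → ∃ T : Finset (Mt ι),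
      (T.card : ℝ) ≤ (K * L') ^ K ∧ ∀ x, Nr (B n) (r n) L' y x → cell (B n) (r n) x ∈ T := by
    intro L' hL' y hy
    have i : Idl (c n) (r n) (r n) L' := fun a b e =>
      (id a b e).trans (mul_le_mul_of_nonneg_right hL' (hr e).1.le)
    obtain ⟨T, t1, t2⟩ := (cel ι κ Φ (B n) (c n) (r n) (r n) L' rfl le_rfl fr (h2.trans hL')
      fun a => ⟨(hr a).1, (hr a).2.trans (mul_le_mul_of_nonneg_right hL' (hr a).1.le)⟩).2 i i y hy
    refine ⟨T, ?_, t2⟩
    rwa [Finset.prod_eq_one fun a _ => div_self (hr a).1.ne', mul_one] at t1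
  have hK' : (0 : ℝ) < K := by exact_mod_cast hK
  refine GADetA.two _ (by positivity) (fun a ha g => ?_) fun a ha => ?_
  · obtain ⟨t, -, e⟩ := g
    obtain ⟨u, t0, -, e0⟩ := su a ha
    have hj : IsUnit (j n a) := e0 ▸ u.mul (GADetA.unit_ex m t0)
    have hy : rp n (Y n a) = j n a * ex (B n) (-t) := by
      rw [e, mul_assoc, (m.neg t).2, mul_one]
    obtain ⟨T, t1, t2⟩ := key (L n * L0 n) (by nlinarith) (rp n (Y n a))
      (hy ▸ hj.mul (GADetA.unit_ex m _))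
    exact ⟨T, t1, fun b _ e' g => t2 _
      (GADetA.nr_mono (fun a => (hr a).1) (by nlinarith) (e' ▸ g))⟩
  · have x1 : 1 ≤ Real.exp (C * M n) := Real.one_le_exp (by positivity)
    obtain ⟨T, t1, t2⟩ := key (L n * L0 n * Real.exp (C * M n)) (by nlinarith) (j0 n a) (su a ha).1
    refine ⟨T, t1.trans_eq ?_, fun b hb e => t2 _
      (GADetA.nr_mono (fun a => (hr a).1) (by nlinarith) (fn b hb a ha e ▸ (su b hb).2))⟩
    rw [← mul_assoc, mul_pow, Real.exp_nat_mul]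

end Pool.Agent.MP_5168f5_an.AN.GA
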