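import Pool.Agent.MP_5168f5_an.AN.GASpec

/-! Kakeya sets in all dimensions: associativity over any real algebra. -/

namespace Pool.Agent.MP_5168f5_an.AN.GA

open MvPolynomial

namespace GAExtA

theorem left (hM : SMap) {κ R S : Type} [Fintype κ] [CommRing R] [CommRing S] [Algebra ℚ R]
    [Algebra ℚ S] (f : R →+* S) (N : ℕ) (c : κ → κ → κ → R) (s t u : κ → R) (e : κ) :
    f (bch N c (bch N c s t) u e) = bch N (fun a b e => f (c a b e))
      (bch N (fun a b e => f (c a b e)) (fun a => f (s a)) fun a => f (t a)) (fun a => f (u a)) e := by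
  rw [(hM κ R S f N c _ u).2.1, funext (hM κ R S f N c s t).2.1]

theorem right (hM : SMap) {κ R S : Type} [Fintype κ] [CommRing R] [CommRing S] [Algebra ℚ R]
    [Algebra ℚ S] (f : R →+* S) (N : ℕ) (c : κ → κ → κ → R) (s t u : κ → R) (e : κ) :
    f (bch N c s (bch N c t u) e) = bch N (fun a b e => f (c a b e)) (fun a => f (s a))
      (bch N (fun a b e => f (c a b e)) (fun a => f (t a)) fun a => f (u a)) e := by
  rw [(hM κ R S f N c s _).2.1, funext (hM κ R S f N c t u).2.1]

end GAExtA

open GAExtA in
theorem gaExt : OfExt := by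
  intro hM hG ι κ S _ _ _ _ _ f Φ B c hF s t u
  funext e
  have key : bch Φ.N (fun a b e => (C (c a b e) : MvPolynomial (Fin 3 × κ) ℝ))
      (bch Φ.N (fun a b e => C (c a b e)) (fun a => X (0, a)) fun a => X (1, a))
        (fun a => X (2, a)) e =
      bch Φ.N (fun a b e => C (c a b e)) (fun a => X (0, a))
        (bch Φ.N (fun a b e => C (c a b e)) (fun a => X (1, a)) fun a => X (2, a)) e := by
    refine MvPolynomial.funext fun x => ?_
    rw [left hM, right hM]
    simp only [eval_C, eval_X]
    exact congrFun ((hG ι κ Φ B c hF).assoc _ _ _) e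
  have h := congrArg (eval₂Hom f fun p : Fin 3 × κ => ![s, t, u] p.1 p.2) key
  rw [left hM, right hM] at h
  simpa only [eval₂Hom_C, eval₂Hom_X', Matrix.cons_val_zero, Matrix.cons_val_one,
    Matrix.cons_val_two, Matrix.head_cons, Matrix.tail_cons] using h

end Pool.Agent.MP_5168f5_an.AN.GA
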