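import Pool.Agent.MP_5168f5_an.AN.GASpec

/-! Kakeya sets in all dimensions: identities and filtration estimates for the series. -/

namespace Pool.Agent.MP_5168f5_an.AN.GA

namespace GAFilA

theorem words {α L : Type} (b : L → L → L) (f : α → L) (A B : ℕ → L → Prop)
    (a0 : ∀ i, A 1 (f i)) (aa : ∀ m n x y, A m x → A n y → A (m + n) (b x y))
    (b0 : ∀ i j, B 2 (b (f i) (f j)))
    (ba : ∀ m n x y, B m x → A n y → B (m + n) (b x y) ∧ B (n + m) (b y x)) (w : Wd α) :
    A w.len (w.ev b f) ∧ ((∃ i, w = .of i) ∨ B w.len (w.ev b f)) := by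
  induction w with
  | of i => exact ⟨a0 i, Or.inl ⟨i, rfl⟩⟩
  | br u v hu hv =>
    refine ⟨aa _ _ _ _ hu.1 hv.1, Or.inr ?_⟩
    rcases hu.2 with ⟨i, rfl⟩ | h
    · rcases hv.2 with ⟨j, rfl⟩ | h
      · exact b0 i j
      · exact (ba _ _ _ _ h hu.1).2
    · exact (ba _ _ _ _ h hv.1).1

theorem long {α : Type} {w : Wd α} {q : Prop} (h : 3 ≤ w.len) (h' : (∃ i, w = .of i) ∨ q) : q :=
  h'.resolve_left fun ⟨i, e⟩ => by rw [e] at h; exact absurd h (by simp [Wd.len])

end GAFilA

open GAFilA in
theorem gaFil : OfFil := by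
  intro hB κ R _ _ _ N c h
  have h1 : ∀ s t, br c s t = 0 → bch N c s t = s + t := fun s t e => by
    rw [bch, ser, e, smul_zero, add_zero, add_eq_left]
    refine Finset.sum_eq_zero fun w hw => ?_
    have := long ((hB N).1 w hw) (words (br c) (fun i => bif i then s else t) (fun _ _ => True)
      (fun _ x => x = 0) (fun _ => trivial) (fun _ _ _ _ _ _ => trivial) (fun i j => by
        cases i <;> cases j <;> simp [br_self h, e, br_anti h t s])
      (fun _ _ _ y k _ => by rw [k]; exact ⟨br_zero_left c y, br_zero_right c y⟩) w).2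
    simp only [this, smul_zero]
  refine ⟨h1, fun y u v => ?_, fun V μ σ τ s t hV hb h0 hs ht ms mt => ?_⟩
  · rw [h1, add_smul]
    rw [br_smul_left, br_smul_right, br_self h, smul_zero, smul_zero]
  · rw [bch, ser, sub_sub, sub_sub, ← add_assoc, add_sub_cancel_left]
    refine sum_mem fun w hw => Submodule.smul_mem _ _ ?_
    have h3 : (3 : ℝ) ≤ w.len := by exact_mod_cast (hB N).1 w hw
    refine hV (show σ + τ + μ ≤ σ + τ + μ * (w.len - 2) by nlinarith) (long ((hB N).1 w hw)
      (words (br c) (fun i => bif i then s else t) (fun m x => x ∈ V (μ * m))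
        (fun m x => x ∈ V (σ + τ + μ * (m - 2))) (fun i => ?_) (fun m n x y a b => ?_)
        (fun i j => ?_) (fun m n x y a b => ⟨?_, ?_⟩) w).2)
    · cases i
      exacts [hV (by simpa using ht) mt, hV (by simpa using hs) ms]
    · simpa only [Nat.cast_add, mul_add] using hb _ _ x a y b
    · have := hb _ _ s ms t mt
      cases i <;> cases j <;> simp [br_self h, this, br_anti h t s]
    · exact hV (le_of_eq (by push_cast; ring)) (hb _ _ x a y b)
    · exact hV (le_of_eq (by push_cast; ring)) (hb _ _ y b x a)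

end Pool.Agent.MP_5168f5_an.AN.GA
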