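import Pool.Agent.MP_5168f5_an.AN.GASpec

/-! Boxes for a rescaled or changed basis. -/

namespace Pool.Agent.MP_5168f5_an.AN.GA

open Matrix

namespace GAFrA

variable {ι κ : Type} [Fintype ι] [DecidableEq ι] [Fintype κ] {B : κ → Mt ι} {ρ : κ → ℝ}

omit [Fintype ι] [DecidableEq ι] in
theorem vec_sB (t : κ → ℝ) : vec (sB ρ B) t = vec B fun a => ρ a * t a := by
  simp only [vec, sB, smul_smul, mul_comm]

omit [Fintype ι] [DecidableEq ι] in
theorem vec_mB (A : Matrix κ κ ℝ) (t : κ → ℝ) : vec (mB A B) t = vec B (t ᵥ* A) := by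
  simp only [vec, mB, Finset.smul_sum, smul_smul, vecMul, dotProduct, Finset.sum_smul]
  exact Finset.sum_comm

theorem ex_sB (t : κ → ℝ) : ex (sB ρ B) t = ex B fun a => ρ a * t a := by rw [ex, vec_sB, ex]

theorem ex_div (h : ∀ a, 0 < ρ a) (t : κ → ℝ) : ex B t = ex (sB ρ B) fun a => t a / ρ a := by
  rw [ex_sB]
  congr 1
  funext a
  rw [mul_div_cancel₀ _ (h a).ne']

theorem fr_sB {Φ : H61Z.Filt (Mt ι)} {c : κ → κ → κ → ℝ} (h : ∀ a, 0 < ρ a) (k : IsFr Φ B c) :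
    IsFr Φ (sB ρ B) (sC ρ c) := by
  refine ⟨fun t => vec_sB t ▸ k.mem _, fun t e => funext fun a => ?_, fun a b => ?_⟩
  · rw [vec_sB] at e
    exact (mul_eq_zero.1 (congrFun (k.inj _ e) a)).resolve_left (h a).ne'
  · have e : cm (sB ρ B a) (sB ρ B b) = (ρ a * ρ b) • cm (B a) (B b) := by
      simp only [cm, sB, smul_mul_smul_comm, smul_sub, mul_comm (ρ b)]
    rw [e, k.br, vec_sB]
    simp only [vec, Finset.smul_sum, smul_smul, sC]
    refine Finset.sum_congr rfl fun i _ => ?_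
    rw [mul_div_cancel₀ _ (h i).ne']
    congr 1
    ring

theorem nr_sB (h : ∀ a, 0 < ρ a) (r : κ → ℝ) (L : ℝ) :
    Nr (sB ρ B) r L = Nr B (fun a => ρ a * r a) L := by
  funext x y
  refine propext ⟨fun ⟨t, h1, h2⟩ => ⟨_, fun a => ?_, h2.trans (by rw [ex_sB])⟩,
    fun ⟨t, h1, h2⟩ => ⟨_, fun a => ?_, h2.trans (by rw [ex_div h])⟩⟩
  · rw [abs_mul, abs_of_pos (h a), mul_left_comm]
    exact mul_le_mul_of_nonneg_left (h1 a) (h a).le
  · rw [abs_div, abs_of_pos (h a), div_le_iff₀ (h a), mul_assoc, mul_comm (r a)]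
    exact h1 a

end GAFrA

open GAFrA in
theorem gaFr : OfFr := by
  intro hM ι κ _ _ _ _ Φ B c
  refine ⟨fun ρ r h => ⟨fr_sB h, nr_sB h r, congrArg netc (nr_sB h r 1), fun k x t hx a => ?_⟩,
    fun A A' h => ⟨fun k => ⟨fun t => vec_mB A t ▸ k.mem _, fun t e => ?_, fun a b => ?_⟩, ?_,
      fun t => by rw [ex, vec_mB, ex], fun r r' L L' x y hL hA ⟨t, h1, h2⟩ =>
        ⟨t ᵥ* A, fun e => ?_, h2.trans (by rw [ex, vec_mB, ex])⟩⟩⟩
  · rw [(hM _ _ Φ B c k).lg x t hx, ex_div h, (hM _ _ Φ _ _ (fr_sB h k)).lg x _ hx]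
  · rw [vec_mB] at e
    have := congrArg (· ᵥ* A') (k.inj _ e)
    simpa only [vecMul_vecMul, h, vecMul_one, zero_vecMul] using this
  · rw [vec_mB, mC, vecMul_vecMul, mul_eq_one_comm.1 h, vecMul_one, (hM _ _ Φ B c k).vbr]
    rfl
  · funext a
    have e : A' a ᵥ* A = Pi.single a 1 := by
      funext e
      have : (A' * A) a e = if a = e then 1 else 0 := by rw [mul_eq_one_comm.1 h, one_apply]
      rw [Pi.single_apply, if_congr eq_comm rfl rfl, ← this]
      rfl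
    rw [mB, vec_mB, e]
    simp [vec, Pi.single_apply]
  · refine (Finset.abs_sum_le_sum_abs _ _).trans ((Finset.sum_le_card_nsmul _ _ (L * (L' * r e))
      fun a _ => ?_).trans (le_of_eq ?_))
    · rw [abs_mul]
      refine (mul_le_mul_of_nonneg_right (h1 a) (abs_nonneg _)).trans ?_
      rw [mul_assoc, mul_comm (r' a)]
      exact mul_le_mul_of_nonneg_left (hA a e) hL
    · simp [mul_assoc]

end Pool.Agent.MP_5168f5_an.AN.GA
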