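import Pool.Agent.MP_5168f5_an.AN.GASpec

/-! The natural depths and their standard modifications are good. -/

namespace Pool.Agent.MP_5168f5_an.AN.GA

open H19 H17S H17F G39 Filter H61Z

theorem gaGood : SGood := by
  intro ι κ _ _ _ M Φ om pos B c h
  have h1 : ∀ d d' : κ → ℝ, (∀ a, 0 ≤ d a ∧ 0 ≤ d' a) → (∀ a, om a = 0 → d' a = 0) →
      (∀ a b e, Hm om a b e → d' e ≤ d a + d' b) → Id M c d d' := fun d d' h0 hz hm a b e k =>
    h.hom a b e (fun z => by linarith [hz e z, (h0 a).1, (h0 b).2])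
      fun z => (hm a b e z).not_gt k
  refine ⟨h1, fun x hx hy => ?_, fun d d' r hd hr hp hn a b e k => ?_, fun d d' hd hd' a b e k => ?_⟩
  · have h0 : ∀ a, 0 ≤ dep om x a := fun a =>
      add_nonneg (mul_nonneg (h.wt a).1 hx) (mul_nonneg (h.wt a).2 hy)
    refine h1 _ _ (fun a => ⟨h0 a, h0 a⟩) (fun a z => by simp [dep, z]) fun a b e z => le_of_eq ?_
    simp only [dep, z.2.2, Prod.fst_add, Prod.snd_add]
    ring
  · have h0 : ∀ a, d a ≤ d' a ∧ d' a ≤ d a + r := fun a => by
      by_cases z : pos a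
      · rw [hp a z]; exact ⟨by linarith, le_rfl⟩
      · rw [hn a z]; exact ⟨le_rfl, by linarith⟩
    rcases lt_or_ge (d a + d b) (d e) with z | z
    · exact hd a b e z
    · refine h.sub a b e (fun p => ?_) (fun p => ?_) (by_contra fun p => ?_)
      · linarith [hp a p, (h0 b).1, (h0 e).2]
      · linarith [hp b p, (h0 a).1, (h0 e).2]
      · linarith [hn e p, (h0 a).1, (h0 b).1]
  · rcases lt_max_iff.1 k with z | z
    · exact hd a b e ((add_le_add (le_max_left _ _) (le_max_left _ _)).trans_lt z)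
    · exact hd' a b e ((add_le_add (le_max_right _ _) (le_max_right _ _)).trans_lt z)

end Pool.Agent.MP_5168f5_an.AN.GA
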