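import Pool.Agent.MP_5168f5_an.AN.GASpec

/-! A linear map that respects the brackets respects the series. -/

namespace Pool.Agent.MP_5168f5_an.AN.GA

theorem gaHom : SHom := by
  intro κ κ' R _ _ _ _ N c c' φ S I h1 h2 h3 s hs t ht
  have key : ∀ w : Wd Bool, w.ev (br c) (fun i => bif i then s else t) ∈ S ∧
      φ (w.ev (br c) fun i => bif i then s else t) -
        w.ev (br c') (fun i => bif i then φ s else φ t) ∈ I := by
    intro w
    induction w with
    | of i => cases i <;> simp [Wd.ev, hs, ht]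
    | br u v hu hv =>
      simp only [Wd.ev]
      generalize u.ev (br c) _ = x, v.ev (br c) _ = y, u.ev (br c') _ = x',
        v.ev (br c') _ = y' at hu hv ⊢
      refine ⟨(h1 x hu.1 y hv.1).1, ?_⟩
      have e : φ (br c x y) - br c' x' y' = φ (br c x y) - br c' (φ x) (φ y) +
          br c' (φ x) (φ y - y') + br c' (φ x - x') (φ y) - br c' (φ x - x') (φ y - y') := by
        simp only [br_sub_left, br_sub_right]; abel
      rw [e]
      exact I.sub_mem (I.add_mem (I.add_mem (h1 x hu.1 y hv.1).2 (h2 x hu.1 _ hv.2).1)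
        (h2 y hv.1 _ hu.2).2) (h3 _ hu.2 _ hv.2)
  unfold bch ser Finsupp.sum
  refine ⟨S.add_mem (S.add_mem (S.add_mem hs ht) (S.smul_mem _ (h1 s hs t ht).1))
    (S.sum_mem fun w _ => S.smul_mem _ (key w).1), ?_⟩
  rw [map_add, map_add, map_add, map_smul, map_sum, add_sub_add_comm, add_sub_add_left_eq_sub,
    ← smul_sub, ← Finset.sum_sub_distrib]
  refine I.add_mem (I.smul_mem _ (h1 s hs t ht).2) (I.sum_mem fun w _ => ?_)
  rw [map_smul, ← smul_sub]
  exact I.smul_mem _ (key w).2

end Pool.Agent.MP_5168f5_an.AN.GA
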