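import Pool.Agent.MP_5168f5_an.AN.GASpec

/-! Kakeya sets in all dimensions: good depths give ideals. -/

namespace Pool.Agent.MP_5168f5_an.AN.GA

open H19 H17S H17F G39 Filter H61Z

namespace GAIdRA

theorem idl {κ : Type} [Fintype κ] {M : ℕ → ℕ} {c : ℕ → κ → κ → κ → ℝ} {d d' : κ → ℝ} {L : ℕ → ℝ}
    (h1 : ∀ n, 1 ≤ L n) (hL : ∀ n a b e, |c n a b e| ≤ L n) (h : Id M c d d') :
    ∀ᶠ n in UF, Idl (c n) (rad M d n) (rad M d' n) (L n) := by
  refine eventually_all.2 fun a => eventually_all.2 fun b => eventually_all.2 fun e => ?_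
  simp only [rad, mul_assoc, ← dl_add]
  by_cases k : d a + d' b < d' e
  · filter_upwards [h a b e k (d' e - (d a + d' b))] with n u
    refine (mul_le_mul_of_nonneg_right u (dl_pos _ _ _).le).trans ?_
    rw [← dl_add, sub_add_cancel]
    exact le_mul_of_one_le_left (dl_pos _ _ _).le (h1 n)
  · exact Eventually.of_forall fun n => mul_le_mul (hL n a b e) (dl_anti M (not_lt.1 k) n)
      (dl_pos _ _ _).le (zero_le_one.trans (h1 n))

end GAIdRA

theorem gaIdR : SIdR := by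
  intro κ _ M c d d' hM hc h h' e
  obtain ⟨L, s, hL⟩ := ob_bound hM (J := κ × κ × κ) (f := fun j n => c n j.1 j.2.1 j.2.2)
    fun j => hc _ _ _
  refine ⟨L, s, ?_⟩
  filter_upwards [GAIdRA.idl s.1 (fun n a b e => hL n (a, b, e)) h,
    GAIdRA.idl s.1 (fun n a b e => hL n (a, b, e)) h'] with n u v
  exact ⟨fun a => ⟨dl_pos _ _ _, (dl_anti M (e a) n).trans
    (le_mul_of_one_le_left (dl_pos _ _ _).le (s.1 n))⟩, u, v⟩

end Pool.Agent.MP_5168f5_an.AN.GA
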