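import Pool.Agent.MP_5168f5_an.AN.GASpec

/-! The bracket series commutes with ring maps. -/

namespace Pool.Agent.MP_5168f5_an.AN.GA

theorem gaMap : SMap := by
  intro κ R S _ _ _ _ _ f N c s t
  have h1 : ∀ (s t : κ → R) (e : κ), f (br c s t e) =
      br (fun a b e => f (c a b e)) (fun a => f (s a)) (fun a => f (t a)) e := fun s t e => by
    simp only [br, map_sum, map_mul]
  have h3 : ∀ (α : Type) (w : Wd α) (g : α → κ → R) (e : κ), f (w.ev (br c) g e) =
      w.ev (br fun a b e => f (c a b e)) (fun i a => f (g i a)) e := fun α w g => by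
    induction w with
    | of a => exact fun _ => rfl
    | br u v hu hv => exact fun e => by simp only [Wd.ev, h1, hu, hv]
  refine ⟨h1 s t, fun e => ?_, h3⟩
  have h4 : (fun i a => f ((bif i then s else t) a)) =
      fun i => bif i then fun a => f (s a) else fun a => f (t a) := funext fun i => by
    cases i <;> rfl
  simp only [bch, ser, Finsupp.sum, Pi.add_apply, Pi.smul_apply, Finset.sum_apply, map_add, map_sum,
    map_rat_smul, h1, h3, h4]

end Pool.Agent.MP_5168f5_an.AN.GA
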