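import Pool.Agent.MP_5168f5_an.AN.GASpec

/-! The group law in logarithmic coordinates. -/

namespace Pool.Agent.MP_5168f5_an.AN.GA

open H61Z IsNilpotent

namespace GAMulA

variable {ι κ : Type} [Fintype ι] [DecidableEq ι] [Fintype κ] {Φ : Filt (Mt ι)}
  {B : κ → Mt ι} {c : κ → κ → κ → ℝ}

/-- The linear map given by the basis. -/
noncomputable def vl (B : κ → Mt ι) : (κ → ℝ) →ₗ[ℝ] Mt ι := Fintype.linearCombination ℝ B

omit [Fintype ι] [DecidableEq ι] in
theorem vl_eq (B : κ → Mt ι) (t : κ → ℝ) : vec B t = vl B t := rfl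

theorem inj (h : IsFr Φ B c) {s t : κ → ℝ} (e : vl B s = vl B t) : s = t :=
  sub_eq_zero.1 (h.inj _ (by rw [vl_eq, map_sub, e, sub_self]))

theorem vbr (h : IsFr Φ B c) (s t : κ → ℝ) : vl B (br c s t) = cm (vl B s) (vl B t) := by
  have e : br c s t = ∑ a, ∑ b, (s a * t b) • c a b := by
    funext e
    simp only [br, Finset.sum_apply, Pi.smul_apply, smul_eq_mul]
    exact Finset.sum_congr rfl fun a _ => Finset.sum_congr rfl fun b _ => by ring
  have e2 : cm (vl B s) (vl B t) = ∑ a, ∑ b, (s a * t b) • cm (B a) (B b) := by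
    simp only [← vl_eq, vec, cm, Finset.sum_mul_sum, smul_sub, Finset.sum_sub_distrib,
      smul_mul_smul_comm]
    rw [Finset.sum_comm (f := fun b a => (t b * s a) • (B b * B a))]
    simp only [mul_comm]
  simp only [e, e2, map_sum, map_smul, h.br, vl_eq]

theorem ev (h : IsFr Φ B c) {α : Type} (f : α → κ → ℝ) (w : Wd α) :
    vl B (w.ev (br c) f) = w.ev cm fun a => vl B (f a) := by
  induction w with
  | of a => rfl
  | br u v a b => rw [Wd.ev, Wd.ev, vbr h, a, b]

theorem ser_eq (h : IsFr Φ B c) (l : Wd Bool →₀ ℚ) (s t : κ → ℝ) :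
    vl B (ser l (br c) s t) = ser l cm (vl B s) (vl B t) := by
  have e : (fun i => vl B (bif i then s else t)) = fun i => bif i then vl B s else vl B t :=
    funext fun i => by cases i <;> rfl
  simp only [ser, Finsupp.sum, map_add, map_sum, map_rat_smul, vbr h, ev h, e]

end GAMulA

open GAMulA in
theorem gaMul : OfMul := by
  intro hb ι κ _ _ _ Φ B c h
  have mul : ∀ s t, ex B s * ex B t = ex B (bch Φ.N c s t) := fun s t =>
    ((hb Φ.N).2 (Mt ι) Φ le_rfl _ (h.mem s) _ (h.mem t)).trans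
      (congrArg exp (ser_eq h _ s t).symm)
  have zero : ex B 0 = 1 := by rw [ex, vl_eq, map_zero, exp_zero]
  have neg : ∀ t, ex B (-t) * ex B t = 1 ∧ ex B t * ex B (-t) = 1 := fun t => by
    rw [ex, vl_eq, map_neg]
    exact ⟨exp_neg_mul_exp_self (Φ.nil (h.mem t)), exp_mul_exp_neg_self (Φ.nil (h.mem t))⟩
  have ij : ∀ s t, ex B s = ex B t → s = t := fun s t e =>
    inj h (Φ.exp_inj (h.mem s) (h.mem t) e)
  refine ⟨vbr h, mul, zero, neg, ij, fun x t hx => ij _ _ (hx.mul_left_cancel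
    (Classical.epsilon_spec (p := fun s => x * ex B t = x * ex B s) ⟨t, rfl⟩)).symm,
    fun a b => congrFun (inj h (s := c a b) (t := -c b a) ?_), fun s t u => inj h ?_,
    fun s t u => ij _ _ (by rw [← mul, ← mul, ← mul, ← mul, mul_assoc]),
    fun t => ⟨ij _ _ (by rw [← mul, zero, mul_one]), ij _ _ (by rw [← mul, zero, one_mul])⟩,
    fun t => ⟨ij _ _ (by rw [← mul, zero, (neg t).1]), ij _ _ (by rw [← mul, zero, (neg t).2])⟩⟩
  · rw [map_neg, ← vl_eq, ← vl_eq, ← h.br, ← h.br, cm, cm, neg_sub]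
  · simp only [map_sub, vbr h, cm]
    noncomm_ring

end Pool.Agent.MP_5168f5_an.AN.GA
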