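import Pool.Agent.MP_5168f5_an.AN.GASpec

/-! Nets of a reflexive symmetric relation. -/

namespace Pool.Agent.MP_5168f5_an.AN.GA

namespace GANetA

theorem ex_net {A : Type} (R : A → A → Prop) (h1 : ∀ x, R x x) (h2 : ∀ x y, R x y → R y x) :
    ∃ S : Set A, (∀ x ∈ S, ∀ y ∈ S, R x y → x = y) ∧ ∀ x, ∃ p ∈ S, R p x := by
  obtain ⟨S, hS⟩ := zorn_subset {S : Set A | ∀ x ∈ S, ∀ y ∈ S, R x y → x = y} fun c hc ch =>
    ⟨⋃₀ c, fun x ⟨s, hs, xs⟩ y ⟨t, ht, yt⟩ => (ch.total hs ht).elim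
      (fun e => hc ht x (e xs) y yt) fun e => hc hs x xs y (e yt),
      fun s hs => Set.subset_sUnion_of_mem hs⟩
  refine ⟨S, hS.prop, fun x => ?_⟩
  by_contra h
  refine h ⟨x, hS.le_of_ge (y := insert x S) ?_ (Set.subset_insert x S) (Set.mem_insert x S), h1 x⟩
  rintro a (rfl | ha) b (rfl | hb) r
  exacts [rfl, absurd ⟨b, hb, h2 _ _ r⟩ h, absurd ⟨a, ha, r⟩ h, hS.prop a ha b hb r]

end GANetA

theorem gaNet : SNet := by
  intro A R h1 h2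
  have h : (∀ x ∈ net R, ∀ y ∈ net R, R x y → x = y) ∧ ∀ x, ∃ p ∈ net R, R p x :=
    Classical.epsilon_spec (GANetA.ex_net R h1 h2)
  have k : ∀ x, netc R x ∈ net R ∧ R (netc R x) x := fun x => Classical.epsilon_spec (h.2 x)
  exact ⟨fun x => (k x).2, fun x y => h.1 _ (k x).1 _ (k y).1⟩

end Pool.Agent.MP_5168f5_an.AN.GA
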