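import Pool.Agent.MP_5168f5_an.AN.GASpec

/-! Boxes in the group. -/

namespace Pool.Agent.MP_5168f5_an.AN.GA

namespace GANrA

variable {κ : Type} {r : κ → ℝ} {L : ℝ} {t : κ → ℝ}

theorem neg (h : Bx r L t) : Bx r L (-t) := fun a => (abs_neg (t a)).trans_le (h a)

theorem zero (hL : 0 ≤ L) (h : ∀ a, 0 ≤ r a) : Bx r L 0 := fun a =>
  abs_zero.trans_le (mul_nonneg hL (h a))

end GANrA

open GANrA in
theorem gaNr : OfNr := fun hm hb N k => by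
  obtain ⟨K, hK, hb⟩ := hb N k
  refine ⟨K, hK, fun ι κ _ _ _ Φ B c r r' L η x y z hN hk fr hL hη hr i₁ i₂ => ?_⟩
  subst hN
  have m := hm ι κ Φ B c fr
  have b := fun s t s' t' => hb κ c r r' L η s t s' t' hk hL hη hr m.anti i₁ i₂
  have z₁ : Bx r L 0 := zero (zero_le_one.trans hL) fun a => (hr a).1
  have z₂ : ∀ s, Bx r' η (s - s) := fun s => (sub_self s).symm ▸ zero hη fun a => (hr a).2
  refine ⟨?_, ?_, ?_, ?_, ?_⟩
  · rintro ⟨t, ht, rfl⟩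
    exact ⟨-t, neg ht, by rw [mul_assoc, (m.neg t).2, mul_one]⟩
  · rintro ⟨s, hs, rfl⟩ ⟨t, ht, rfl⟩
    exact ⟨_, (b s t s t hs ht hs ht).1, by rw [mul_assoc, m.mul]⟩
  · rintro hx ⟨t, ht, rfl⟩
    rw [m.lg x t hx]
    exact ⟨rfl, ht⟩
  · rintro hx ⟨s, hs, rfl⟩ ⟨t, ht, rfl⟩ h
    rw [m.lg x s hx, m.lg x t hx] at h
    have := (b (-s) t (-s) s (neg hs) ht (neg hs) hs).2 (z₂ _) h
    rw [(m.inv s).1, sub_zero] at this
    exact ⟨_, this, by rw [← m.mul, mul_assoc, ← mul_assoc (ex B s), (m.neg s).2, one_mul]⟩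
  · rintro hx ⟨s, hs, rfl⟩ ⟨t, ht, rfl⟩ ⟨u, hu, e⟩
    have hy : IsUnit (x * ex B s) := hx.mul ⟨⟨_, _, (m.neg s).2, (m.neg s).1⟩, rfl⟩
    obtain rfl := m.inj _ _ (hy.mul_left_cancel e)
    have := (b s t s 0 hs ht hs z₁).2 (z₂ _) ((sub_zero t).symm ▸ hu)
    rw [mul_assoc x, m.mul, m.lg x _ hx, m.lg x s hx]
    rwa [(m.one s).1] at this

end Pool.Agent.MP_5168f5_an.AN.GA
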