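import Pool.Agent.MP_5168f5_an.AN.GASpec

/-! Kakeya sets in all dimensions: central indices and quotients. -/

namespace Pool.Agent.MP_5168f5_an.AN.GA

open H19 H17S H17F G39 Filter H61Z IsNilpotent

namespace GAQuotA

variable {ι κ : Type} [Fintype ι] [DecidableEq ι] [Fintype κ] {M : ℕ → ℕ} {Φ : Filt (Mt ι)}
  {om om' : κ → ℝ × ℝ} {pos : κ → Prop} {B : ℕ → κ → Mt ι} {c : ℕ → κ → κ → κ → ℝ} {f : κ}

theorem swap (H : SMul) (h : Alg M Φ om pos B c) {a b e : κ} (k : Neg M fun n => c n a b e) :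
    Neg M fun n => c n b a e :=
  k.neg.congr (h.fr.mono fun _ u => (H _ _ _ _ _ u).anti b a e)

theorem diag (H : SMul) (h : Alg M Φ om pos B c) (a e : κ) : Neg M fun n => c n a a e :=
  neg_ev (h.fr.mono fun _ u => by linarith [(H _ _ _ _ _ u).anti a a e])

theorem lt_of_hm (h : Alg M Φ om pos B c) {a b e : κ} (k : Hm om a b e) :
    (om a).1 + (om a).2 < (om e).1 + (om e).2 := by
  rw [k.2.2, Prod.fst_add, Prod.snd_add]
  have h1 := (h.wt b).1
  have h2 := (h.wt b).2
  by_contra q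
  exact k.2.1 (Prod.ext (by simp only [Prod.fst_zero]; linarith)
    (by simp only [Prod.snd_zero]; linarith))

theorem cen (h : Alg M Φ om pos B c) (hf : Mx om f)
    (hm : ∀ a, Mx om a → (om a).1 + (om a).2 ≤ (om f).1 + (om f).2) : Cen M om c f := by
  intro b e he
  refine h.hom f b e he fun k => (lt_of_hm h k).not_ge (hm e ⟨?_, ?_⟩)
  · rw [k.2.2, Prod.fst_add]; linarith [hf.1, (h.wt b).1]
  · rw [k.2.2, Prod.snd_add]; linarith [hf.2, (h.wt b).2]

theorem side (H : SMul) (h : Alg M Φ om pos B c) (hc : Cen M om c f) {a b e : κ} (he : om e ≠ 0)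
    (k : a = f ∨ b = f) : Neg M fun n => c n a b e := by
  rcases k with rfl | rfl
  · exact hc b e he
  · exact swap H h (hc a e he)

omit [Fintype κ] in
theorem abs_cH (om : κ → ℝ × ℝ) (c : κ → κ → κ → ℝ) (a b e : κ) :
    |cH om c a b e| ≤ |c a b e| := by
  unfold cH
  split_ifs
  · exact le_rfl
  · rw [abs_zero]; exact abs_nonneg _

theorem quot (H : SMul) (h : Alg M Φ om pos B c) (hc : Cen M om c f) (h0 : om' f = 0)
    (h1 : ∀ a, a ≠ f → om' a = om a) : Alg M Φ om' (fun a => pos a ∧ a ≠ f) B c := by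
  have ne : ∀ e, om' e ≠ 0 → e ≠ f := fun e he q => he (q ▸ h0)
  have hm : ∀ a b e, a ≠ f → b ≠ f → e ≠ f → (Hm om' a b e ↔ Hm om a b e) := fun a b e u v w => by
    unfold Hm; rw [h1 a u, h1 b v, h1 e w]
  refine ⟨h.big, h.fr, fun a => ?_, fun a u => ?_, h.ob, fun a b e he k => ?_,
    fun a b e u v w => ?_, fun e he => ?_⟩
  · by_cases q : a = f
    · rw [q, h0]; exact ⟨le_rfl, le_rfl⟩
    · rw [h1 a q]; exact h.wt a
  · rw [h1 a u.2]; exact h.live a u.1
  · have he' : om e ≠ 0 := h1 e (ne e he) ▸ he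
    by_cases q : a = f ∨ b = f
    · exact side H h hc he' q
    · rw [not_or] at q
      exact h.hom a b e he' fun k' => k ((hm a b e q.1 q.2 (ne e he)).2 k')
  · by_cases q : a = f ∨ b = f
    · exact side H h hc (h.live e w.1) q
    · rw [not_or] at q
      exact h.sub a b e (fun k => u ⟨k, q.1⟩) (fun k => v ⟨k, q.2⟩) w.1
  · have e0 : om' e ≠ 0 := fun q => by have := he.1; rw [q] at this; exact lt_irrefl _ this
    have ef := ne e e0
    obtain ⟨lam, l1, l2⟩ := h.gen e (by unfold Mx at he ⊢; rwa [h1 e ef] at he)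
    refine ⟨lam, l1, fun e' q => ?_⟩
    have e0' : om' e' ≠ 0 := q ▸ e0
    have ef' := ne e' e0'
    have k1 := l2 e' (by rw [← h1 e' ef', q, h1 e ef])
    have k2 : Neg M fun n => ∑ a, ∑ b, lam n a b * (cH om' (c n) a b e' - cH om (c n) a b e') := by
      refine Neg.sum h.big _ fun a _ => Neg.sum h.big _ fun b _ => Neg.mul' ?_ (l1 a b)
      by_cases w : a = f ∨ b = f
      · have k := side H h hc (e := e') (h1 e' ef' ▸ e0') w
        exact (k.mono (Eventually.of_forall fun n => abs_cH om' (c n) a b e')).sub h.big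
          (k.mono (Eventually.of_forall fun n => abs_cH om (c n) a b e'))
      · rw [not_or] at w
        refine neg_ev (Eventually.of_forall fun n => ?_)
        unfold cH
        rw [hm a b e' w.1 w.2 ef', sub_self]
    refine (k1.add h.big k2).congr (Eventually.of_forall fun n => ?_)
    simp only [mul_sub, Finset.sum_sub_distrib]
    ring

theorem move (H : SMul) (h : Alg M Φ om pos B c)
    (k : ∀ a e, ¬pos a → pos e → e ≠ f → Neg M fun n => c n f a e) :
    Alg M Φ om (fun a => pos a ∧ a ≠ f) B c := by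
  refine ⟨h.big, h.fr, h.wt, fun a u => h.live a u.1, h.ob, h.hom, fun a b e u v w => ?_, h.gen⟩
  by_cases p : a = f
  · subst p
    by_cases q : b = a
    · subst q; exact diag H h _ _
    · exact k b e (fun z => v ⟨z, q⟩) w.1 w.2
  · by_cases q : b = f
    · subst q; exact swap H h (k a e (fun z => u ⟨z, p⟩) w.1 w.2)
    · exact h.sub a b e (fun z => u ⟨z, p⟩) (fun z => v ⟨z, q⟩) w.1

end GAQuotA

open GAQuotA in
theorem gaQuot : OfQuot := fun H _ _ _ _ _ _ _ _ _ _ _ f h =>
  ⟨cen h, fun hc => quot H h hc (by simp) fun a u => by simp [u], move H h,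
    fun _ hm a e he => h.hom f a e (h.live e he) fun k => (lt_of_hm h k).not_ge (hm e he)⟩

end Pool.Agent.MP_5168f5_an.AN.GA
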