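import Pool.Agent.MP_5168f5_an.AN.GABch
import Pool.Agent.MP_5168f5_an.AN.GAMap
import Pool.Agent.MP_5168f5_an.AN.GAMul
import Pool.Agent.MP_5168f5_an.AN.GABox
import Pool.Agent.MP_5168f5_an.AN.GANr
import Pool.Agent.MP_5168f5_an.AN.GANet
import Pool.Agent.MP_5168f5_an.AN.GACell
import Pool.Agent.MP_5168f5_an.AN.GAIdR
import Pool.Agent.MP_5168f5_an.AN.GADet
import Pool.Agent.MP_5168f5_an.AN.GACnt
import Pool.Agent.MP_5168f5_an.AN.GACntW
import Pool.Agent.MP_5168f5_an.AN.GAFr
import Pool.Agent.MP_5168f5_an.AN.GAThr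
import Pool.Agent.MP_5168f5_an.AN.GAQuot
import Pool.Agent.MP_5168f5_an.AN.GAChg
import Pool.Agent.MP_5168f5_an.AN.GAGood
import Pool.Agent.MP_5168f5_an.AN.GAFil
import Pool.Agent.MP_5168f5_an.AN.GAHom
import Pool.Agent.MP_5168f5_an.AN.GAExt

/-! Kakeya sets in all dimensions: framed nilpotent groups and their cells, results. -/

namespace Pool.Agent.MP_5168f5_an.AN.GA

theorem sBch : SBch := gaBch
theorem sMap : SMap := gaMap
theorem sMul : SMul := gaMul sBch
theorem sBox : SBox := gaBox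
theorem sNr : SNr := gaNr sMul sBox
theorem sNet : SNet := gaNet
theorem sCell : SCell := gaCell sMul sNr sNet
theorem sIdR : SIdR := gaIdR
theorem sDet : SDet := gaDet sMul sNr sCell
theorem sCnt : SCnt := gaCnt sMul sNr sCell
theorem sCntW : SCntW := gaCntW sIdR sCnt
theorem sFr : SFr := gaFr sMul
theorem sThr : SThr := gaThr sFr
theorem sQuot : SQuot := gaQuot sMul
theorem sChg : SChg := gaChg sFr
theorem sGood : SGood := gaGood
theorem sFil : SFil := gaFil sBch
theorem sHom : SHom := gaHom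
theorem sExt : SExt := gaExt sMap sMul

end Pool.Agent.MP_5168f5_an.AN.GA
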