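import Pool.Agent.MP_5168f5_an.AN.TGSpec
import Pool.Agent.MP_5168f5_an.AN.GAAll

/-! Kakeya sets in all dimensions: the extended adjoint action is almost a representation. -/

namespace Pool.Agent.MP_5168f5_an.AN.TG

open H19 H17S H17F G39 GA Filter H61Z IsNilpotent

namespace Rp

section Ring

variable {κ R S : Type} [Fintype κ] [CommRing R] [CommRing S]

open Classical in
/-- The extended adjoint action over a ring. -/
noncomputable def rm (om : κ → ℝ × ℝ) (c : κ → κ → κ → R) (φ : ℝ →+* R) (a : κ) :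
    Matrix (Option κ) (Option κ) R := fun p q =>
  match p, q with
  | some e, some b => cH om c a b e
  | some e, none => if e = a then φ (om a).2 else 0
  | none, _ => 0

/-- The total weight. -/
def wt (om : κ → ℝ × ℝ) : Option κ → ℝ
  | some e => (om e).1 + (om e).2
  | none => 0

open Classical in
/-- The number of indices of smaller weight. -/
noncomputable def rk (om : κ → ℝ × ℝ) (p : Option κ) : ℕ :=
  (Finset.univ.filter fun q => wt om q < wt om p).card

theorem rk_lt {om : κ → ℝ × ℝ} {p q : Option κ} (h : wt om q < wt om p) : rk om q < rk om p := by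
  classical
  refine Finset.card_lt_card ⟨fun u hu => ?_, fun k => ?_⟩
  · simp only [Finset.mem_filter, Finset.mem_univ, true_and] at hu ⊢
    exact hu.trans h
  · have := @k q (by simpa using h)
    simp at this

open Classical in
/-- The filtration by the distance from the diagonal. -/
noncomputable def fl (om : κ → ℝ × ℝ) (R : Type) [CommRing R] [Algebra ℚ R] (N : ℕ) :
    Filt (Matrix (Option κ) (Option κ) R) where
  F k :=
    { carrier := {m | ∀ p q, rk om p ≤ rk om q + k → m p q = 0}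
      add_mem' := fun h h' p q e => by rw [Matrix.add_apply, h p q e, h' p q e, add_zero]
      zero_mem' := fun _ _ _ => rfl
      smul_mem' := fun a _ h p q e => by rw [Matrix.smul_apply, h p q e, smul_zero] }
  N := N + Fintype.card (Option κ)
  anti := fun _ _ h p q e => h p q (by omega)
  mul_l := fun _ x y h h' p q e => by
    rw [Matrix.mul_apply]
    refine Finset.sum_eq_zero fun u _ => ?_
    by_cases k : rk om p ≤ rk om u + 0
    · rw [h p u k, zero_mul]
    · rw [h' u q (by omega), mul_zero]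
  mul_r := fun n x y h h' p q e => by
    rw [Matrix.mul_apply]
    refine Finset.sum_eq_zero fun u _ => ?_
    by_cases k : rk om p ≤ rk om u + n
    · rw [h p u k, zero_mul]
    · rw [h' u q (by omega), mul_zero]
  bot := fun x h => by
    ext p q
    have : rk om p ≤ Fintype.card (Option κ) := Finset.card_le_univ _
    exact h p q (by omega)

variable {om : κ → ℝ × ℝ}

theorem wt_pos (hw : ∀ a, 0 ≤ (om a).1 ∧ 0 ≤ (om a).2) {a : κ} (h : om a ≠ 0) :
    0 < (om a).1 + (om a).2 := by
  by_contra k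
  have := hw a
  exact h (Prod.ext (by simp only [Prod.fst_zero]; linarith) (by simp only [Prod.snd_zero]; linarith))

theorem hm_live (hw : ∀ a, 0 ≤ (om a).1 ∧ 0 ≤ (om a).2) {a b e : κ} (h : Hm om a b e) :
    om e ≠ 0 := fun k => by
  have h1 := wt_pos hw h.1
  have h2 := wt_pos hw h.2.1
  have h3 := h.2.2
  rw [k] at h3
  have h4 := congrArg Prod.fst h3
  have h5 := congrArg Prod.snd h3
  simp only [Prod.fst_zero, Prod.snd_zero, Prod.fst_add, Prod.snd_add] at h4 h5
  linarith

open Classical in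
theorem rm_mem [Algebra ℚ R] (hw : ∀ a, 0 ≤ (om a).1 ∧ 0 ≤ (om a).2) (c : κ → κ → κ → R)
    (φ : ℝ →+* R) (N : ℕ) (a : κ) : rm om c φ a ∈ (fl om R N).F 0 := fun p q e => by
  by_contra k
  refine absurd (rk_lt (om := om) (p := p) (q := q) ?_) (by omega)
  rcases p with _ | p
  · exact absurd rfl k
  rcases q with _ | q
  · have h : p = a := by_contra fun h => k (if_neg h)
    subst h
    refine wt_pos hw fun h => k ?_
    simp [rm, h]
  · have h : Hm om a q p := by_contra fun h => k (if_neg h)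
    have h1 := wt_pos hw h.1
    simp only [wt, h.2.2, Prod.fst_add, Prod.snd_add]
    linarith

theorem prod_mem {A : Type} [Ring A] [Algebra ℚ A] (Φ : Filt A) :
    ∀ (k : ℕ) (w : List A), (∀ x ∈ w, x ∈ Φ.F 0) → w.length = k + 1 → w.prod ∈ Φ.F k
  | _, [], _, h => by simp at h
  | 0, [x], h, _ => by simpa using h
  | 0, _ :: _ :: _, _, h => by simp at h
  | k + 1, x :: w, h, e => by
    rw [List.prod_cons]
    exact Φ.mul_l _ _ _ (h x (by simp))
      (prod_mem Φ k w (fun y hy => h y (by simp [hy])) (by simpa using e))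

open Classical in
/-- The linear extension. -/
noncomputable def rv (om : κ → ℝ × ℝ) (c : κ → κ → κ → R) (φ : ℝ →+* R) (z : κ → R) :
    Matrix (Option κ) (Option κ) R := ∑ a, z a • rm om c φ a

open Classical in
theorem rv_mem [Algebra ℚ R] (hw : ∀ a, 0 ≤ (om a).1 ∧ 0 ≤ (om a).2) (c : κ → κ → κ → R)
    (φ : ℝ →+* R) (N : ℕ) (z : κ → R) : rv om c φ z ∈ (fl om R N).F 0 :=
  Submodule.sum_mem _ fun a _ p q e => by
    rw [Matrix.smul_apply, rm_mem hw c φ N a p q e, smul_zero]

open Classical in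
theorem rm_map (f : R →+* S) (c : κ → κ → κ → R) (φ : ℝ →+* R) (a : κ) :
    f.mapMatrix (rm om c φ a) = rm om (fun a b e => f (c a b e)) (f.comp φ) a := by
  ext p q
  rcases p with _ | p
  · simp [rm]
  rcases q with _ | q
  · simp only [RingHom.mapMatrix_apply, Matrix.map_apply, rm]
    split_ifs <;> simp
  · simp only [RingHom.mapMatrix_apply, Matrix.map_apply, rm, cH]
    split_ifs <;> simp

open Classical in
theorem sm_map (f : R →+* S) (x : R) (m : Matrix (Option κ) (Option κ) R) :
    f.mapMatrix (x • m) = f x • f.mapMatrix m := by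
  ext p q; simp

open Classical in
theorem rv_map (f : R →+* S) (c : κ → κ → κ → R) (φ : ℝ →+* R) (z : κ → R) :
    f.mapMatrix (rv om c φ z) = rv om (fun a b e => f (c a b e)) (f.comp φ) fun a => f (z a) := by
  simp only [rv, map_sum, sm_map, rm_map]

/-- The exact relations. -/
structure Ex (om : κ → ℝ × ℝ) (c : κ → κ → κ → R) : Prop where
  hom : ∀ a b e, om e ≠ 0 → ¬Hm om a b e → c a b e = 0
  anti : ∀ a b e, c a b e = -c b a e
  jac : ∀ a b g f, ∑ e, c a b e * c e g f = ∑ h, c a h f * c b g h - ∑ h, c b h f * c a g h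

open Classical in
theorem comm (hw : ∀ a, 0 ≤ (om a).1 ∧ 0 ≤ (om a).2) {c : κ → κ → κ → R} (h : Ex om c)
    (φ : ℝ →+* R) (a b : κ) :
    rm om c φ a * rm om c φ b - rm om c φ b * rm om c φ a = ∑ e, c a b e • rm om c φ e := by
  have h1 : ∀ a b e, om e ≠ 0 → cH om c a b e = c a b e := fun a b e k => by
    unfold cH; split_ifs with k'
    exacts [rfl, (h.hom a b e k k').symm]
  have h2 : ∀ a b e, om e = 0 → cH om c a b e = 0 := fun a b e k =>
    if_neg fun k' => hm_live hw k' k
  have h3 : ∀ a b g u f, om f ≠ 0 → cH om c a u f * cH om c b g u = c a u f * c b g u :=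
    fun a b g u f k => by
      rw [h1 _ _ _ k]
      by_cases k' : om u = 0
      · rw [h.hom a u f k fun e => e.2.1 k', zero_mul, zero_mul]
      · rw [h1 _ _ _ k']
  ext p q
  rcases p with _ | p
  · simp [rm, Matrix.mul_apply, Matrix.sum_apply]
  rcases q with _ | q
  · simp only [Matrix.sub_apply, Matrix.mul_apply, Matrix.sum_apply, Matrix.smul_apply,
      Fintype.sum_option, rm, mul_zero, zero_add, mul_ite, Finset.sum_ite_eq', Finset.mem_univ,
      if_true, smul_eq_mul, Finset.sum_ite_eq]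
    by_cases k : Hm om a b p
    · rw [h1 _ _ _ (hm_live hw k), h1 _ _ _ (hm_live hw k), h.anti b a, k.2.2, Prod.snd_add,
        map_add]
      ring
    · rw [show cH om c a b p = 0 from if_neg k, show cH om c b a p = 0 from
        if_neg fun e => k ⟨e.2.1, e.1, by rw [e.2.2, add_comm]⟩]
      by_cases k' : om p = 0
      · simp [k']
      · simp [h.hom a b p k' k]
  · simp only [Matrix.sub_apply, Matrix.mul_apply, Matrix.sum_apply, Matrix.smul_apply,
      Fintype.sum_option, rm, mul_zero, zero_add, smul_eq_mul]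
    by_cases k : om p = 0
    · simp [h2 _ _ _ k]
    · simp only [h3 _ _ _ _ _ k]
      simp only [h1 _ _ _ k, h.jac]

open Classical in
theorem rv_br (hw : ∀ a, 0 ≤ (om a).1 ∧ 0 ≤ (om a).2) {c : κ → κ → κ → R} (h : Ex om c)
    (φ : ℝ →+* R) (s t : κ → R) : rv om c φ (br c s t) = cm (rv om c φ s) (rv om c φ t) := by
  have e : cm (rv om c φ s) (rv om c φ t) = ∑ a, ∑ b, (s a * t b) •
      (rm om c φ a * rm om c φ b - rm om c φ b * rm om c φ a) := by
    simp only [cm, rv, Finset.sum_mul, Finset.mul_sum, smul_sub, Finset.sum_sub_distrib,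
      smul_mul_smul_comm]
    congr 1
    · exact Finset.sum_comm
    · exact Finset.sum_congr rfl fun a _ => Finset.sum_congr rfl fun b _ => by rw [mul_comm]
  rw [e]
  simp only [comm hw h, rv, br, Finset.sum_smul, Finset.smul_sum, smul_smul]
  rw [Finset.sum_comm]
  refine Finset.sum_congr rfl fun a _ => ?_
  rw [Finset.sum_comm]
  exact Finset.sum_congr rfl fun b _ => Finset.sum_congr rfl fun e _ => by congr 1; ring

open Classical in
/-- The linear extension as a linear map. -/
noncomputable def rl [Algebra ℚ R] (om : κ → ℝ × ℝ) (c : κ → κ → κ → R) (φ : ℝ →+* R) :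
    (κ → R) →ₗ[ℚ] Matrix (Option κ) (Option κ) R where
  toFun := rv om c φ
  map_add' := fun s t => by simp only [rv, Pi.add_apply, add_smul, Finset.sum_add_distrib]
  map_smul' := fun x s => by
    simp only [rv, Pi.smul_apply, smul_assoc, Finset.smul_sum, RingHom.id_apply]

open Classical in
theorem rep [Algebra ℚ R] (hw : ∀ a, 0 ≤ (om a).1 ∧ 0 ≤ (om a).2) {c : κ → κ → κ → R}
    (h : Ex om c) (φ : ℝ →+* R) (N : ℕ) (s t : κ → R) :
    exp (rv om c φ (bch (N + Fintype.card (Option κ)) c s t)) =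
      exp (rv om c φ s) * exp (rv om c φ t) := by
  rw [(sBch (N + Fintype.card (Option κ))).2 _ (fl om R N) le_rfl _ (rv_mem hw c φ N s) _
    (rv_mem hw c φ N t)]
  have e : ∀ w : Wd Bool, rl om c φ (w.ev (br c) fun i => bif i then s else t) =
      w.ev cm fun i => bif i then rv om c φ s else rv om c φ t := fun w => by
    induction w with
    | of a => cases a <;> rfl
    | br u v hu hv => rw [Wd.ev, Wd.ev, ← hu, ← hv]; exact rv_br hw h φ _ _
  congr 1
  change rl om c φ _ = _
  simp only [bch, GA.ser, Finsupp.sum, map_add, map_smul, map_sum, e]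
  rw [← rv_br hw h]
  rfl

end Ring

theorem ev_all {α : ℕ → Type} [∀ n, Nonempty (α n)] {p : ∀ n, α n → Prop}
    (h : ∀ s : ∀ n, α n, ∀ᶠ n in UF, p n (s n)) : ∀ᶠ n in UF, ∀ a, p n a :=
  (h fun n => Classical.epsilon fun a => ¬p n a).mono fun n hn a =>
    by_contra fun k => Classical.epsilon_spec (p := fun a => ¬p n a) ⟨a, k⟩ hn

variable {M : ℕ → ℕ}

/-- Constant sequences. -/
def cs (hM : Big M) : ℝ →+* OO hM := (Pi.constRingHom ℕ ℝ).codRestrict _ fun x => ob_const hM x

/-- Evaluation. -/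
def ev (hM : Big M) (n : ℕ) : OO hM →+* ℝ := (Pi.evalRingHom (fun _ => ℝ) n).comp (OO hM).subtype

theorem bch_eq {ι κ : Type} [Fintype ι] [DecidableEq ι] [Fintype κ] {Φ : Filt (Mt ι)}
    {B : κ → Mt ι} {c : κ → κ → κ → ℝ} (h : IsFr Φ B c) (k : ℕ) (s t : κ → ℝ) :
    bch Φ.N c s t = bch (Φ.N + k) c s t := by
  have h' := sMul ι κ ⟨Φ.F, Φ.N + k, Φ.anti, Φ.mul_l, Φ.mul_r,
    fun x hx => Φ.bot x (Φ.mono (Nat.le_add_right _ _) hx)⟩ B c ⟨h.mem, h.inj, h.br⟩
  exact h'.inj _ _ (by rw [← (sMul _ _ Φ B c h).mul, h'.mul])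

open Classical in
theorem core {ι κ : Type} [Fintype ι] [DecidableEq ι] [Fintype κ] {Φ : Filt (Mt ι)}
    {om : κ → ℝ × ℝ} {pos : κ → Prop} {B : ℕ → κ → Mt ι} {c : ℕ → κ → κ → κ → ℝ}
    (h : Alg M Φ om pos B c) :
    (∀ a b p q, Neg M fun n => (Rm om (c n) a * Rm om (c n) b - Rm om (c n) b * Rm om (c n) a -
      ∑ e, c n a b e • Rm om (c n) e) p q) ∧
    ∀ s u : ℕ → κ → ℝ, (∀ a, OB M (fun n => s n a) ∧ OB M fun n => u n a) → ∀ p q,
      Neg M fun n => (Em om (c n) (bch Φ.N (c n) (s n) (u n)) -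
        Em om (c n) (s n) * Em om (c n) (u n)) p q := by
  have hM := h.big
  let _ : Algebra ℚ (OO hM) := ((cs hM).comp (algebraMap ℚ ℝ)).toAlgebra
  let C : κ → κ → κ → OO hM := fun a b e => ⟨fun n => c n a b e, h.ob a b e⟩
  let π : OO hM →+* OO hM ⧸ ng hM := Ideal.Quotient.mk _
  have hz : ∀ x : OO hM, π x = 0 ↔ Neg M x.1 := fun x => Ideal.Quotient.eq_zero_iff_mem
  have hq : ∀ x y : OO hM, (∀ᶠ n in UF, ev hM n x = ev hM n y) → π x = π y := fun x y e => by
    rw [← sub_eq_zero, ← map_sub, hz]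
    exact neg_ev (e.mono fun n k => sub_eq_zero.2 k)
  have hm := h.fr.mono fun n k => sMul _ _ Φ _ _ k
  have hx : Ex om fun a b e => π (C a b e) := by
    refine ⟨fun a b e k k' => (hz _).2 (h.hom a b e k k'), fun a b e => ?_, fun a b g f => ?_⟩
    · rw [← map_neg]
      exact hq _ _ (hm.mono fun n k => by rw [map_neg]; exact k.anti a b e)
    · simp only [← map_mul, ← map_sum, ← map_sub]
      refine hq _ _ (hm.mono fun n k => ?_)
      have := congrFun (k.jac (Pi.single a 1) (Pi.single b 1) (Pi.single g 1)) f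
      simp only [br_single] at this
      simp only [br, Pi.single_apply, Pi.sub_apply, mul_ite, mul_one, mul_zero, ite_mul, zero_mul,
        Finset.sum_ite_eq', Finset.mem_univ, if_true, Finset.sum_ite_irrel, Finset.sum_const_zero]
        at this
      simp only [map_sum, map_sub, map_mul]
      change ∑ e, c n a b e * c n e g f = ∑ u, c n a u f * c n b g u - ∑ u, c n b u f * c n a g u
      rw [← this]
      exact Finset.sum_congr rfl fun e _ => mul_comm _ _
  have ht : ∀ (X : Matrix (Option κ) (Option κ) (OO hM)) (Y : ℕ → Matrix (Option κ) (Option κ) ℝ),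
      π.mapMatrix X = 0 → (∀ᶠ n in UF, Y n = (ev hM n).mapMatrix X) → ∀ p q,
      Neg M fun n => Y n p q := fun X Y e e' p q =>
    ((hz (X p q)).1 (congrFun (congrFun e p) q)).congr (e'.mono fun n k => by rw [k]; rfl)
  have hr : ∀ n a, (ev hM n).mapMatrix (rm om C (cs hM) a) = Rm om (c n) a := fun n a => by
    rw [rm_map]; rfl
  have hn : ∀ z, IsNilpotent (rv om C (cs hM) z) := fun z =>
    (fl om _ 0).nil (rv_mem h.wt C _ 0 z)
  have he : ∀ n z, (ev hM n).mapMatrix (exp (rv om C (cs hM) z)) =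
      Em om (c n) fun a => ev hM n (z a) := fun n z => by
    rw [(hn z).map_exp, rv_map]; rfl
  refine ⟨fun a b => ht (rm om C (cs hM) a * rm om C (cs hM) b - rm om C (cs hM) b *
    rm om C (cs hM) a - ∑ e, C a b e • rm om C (cs hM) e) _ ?_
    (Eventually.of_forall fun n => ?_), fun s u hs => ?_⟩
  · simp only [map_sub, map_mul, map_sum, sm_map, rm_map]
    rw [comm h.wt hx, sub_self]
  · simp only [map_sub, map_mul, map_sum, sm_map, hr]
    rfl
  · let s' : κ → OO hM := fun a => ⟨fun n => s n a, (hs a).1⟩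
    let u' : κ → OO hM := fun a => ⟨fun n => u n a, (hs a).2⟩
    refine ht (exp (rv om C (cs hM) (bch (Φ.N + Fintype.card (Option κ)) C s' u')) -
      exp (rv om C (cs hM) s') * exp (rv om C (cs hM) u')) _ ?_ (h.fr.mono fun n k => ?_)
    · simp only [map_sub, map_mul, (hn _).map_exp, rv_map, (sMap κ _ _ π _ C s' u').2.1]
      exact sub_eq_zero.2 (rep h.wt hx _ Φ.N _ _)
    · simp only [map_sub, map_mul, he, (sMap κ _ _ (ev hM n) _ C s' u').2.1]
      rw [bch_eq k (Fintype.card (Option κ))]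
      rfl

end Rp

open Rp in
theorem tgRep : SRep := by
  classical
  intro ι κ _ _ _ Φ om pos x h
  have hw := h.alg.wt
  have hM := h.alg.big
  refine ⟨Fintype.card (Option κ) + 1, by omega, fun c w hl => ?_, fun t L K h1 h2 hL => ?_⟩
  · refine (fl om ℝ 0).bot _ ((fl om ℝ 0).mono (n := w.length - 1) ?_ (prod_mem _ _ _ ?_ ?_))
    · change 0 + Fintype.card (Option κ) ≤ _
      omega
    · intro m hm
      obtain ⟨a, _, rfl⟩ := List.mem_map.1 hm
      exact rm_mem hw c (RingHom.id ℝ) 0 a
    · rw [List.length_map]; omega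
  obtain ⟨M0, hM0, hT⟩ := sThr _ _ _ Φ om pos _ _ h.alg
  have hd : ∀ n, (fun a => Real.exp (-dep om (t.1 * (x n).M, t.2 * (x n).M) a)) =
      rA (sc (x n).M (dep om t)) := fun n => by
    funext a; simp only [rA, sc, dep]; congr 1; ring
  have hA := (hT (un x) (fun n => (t.1 * (x n).M, t.2 * (x n).M)) (1 + t.1 + t.2) hM hM0
    (Eventually.of_forall fun n => by
      have : (0 : ℝ) ≤ (x n).M := Nat.cast_nonneg _
      refine ⟨?_, by positivity, ?_, by positivity, ?_⟩ <;> simp only [un] <;> nlinarith)).1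
  simp only [hd] at hA
  have hR : ∀ n, Rm om (sC (rA (sc (x n).M (dep om t))) (x n).c) = Rm om (x n).c := fun n => by
    funext a p q
    rcases p with _ | p
    · rfl
    rcases q with _ | q
    · rfl
    simp only [Rm, cH]
    split_ifs with k
    · simp only [sC, rA, sc, dep, k.2.2, Prod.fst_add, Prod.snd_add]
      rw [mul_assoc, ← Real.exp_add, mul_div_assoc, ← Real.exp_sub]
      convert mul_one _
      rw [← Real.exp_zero]; congr 1; ring
    · rfl
  obtain ⟨c1, c2⟩ := core hA
  simp only [Em, hR] at c1 c2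
  have : ∀ n, Nonempty {z : (κ → ℝ) × (κ → ℝ) // ∀ a, |z.1 a| ≤ L n ∧ |z.2 a| ≤ L n} :=
    fun n => ⟨⟨0, fun a => by simp [(zero_le_one.trans (hL.1 n))]⟩⟩
  have hb : ∀ v : ℕ → ℝ, (∀ n, |v n| ≤ L n) → OB (un x) v := fun v hv ε hε =>
    (hL.2 ε hε).mono fun n k => by rw [dl_inv]; exact (hv n).trans k
  have c3 := ev_all
    (α := fun n => {z : (κ → ℝ) × (κ → ℝ) // ∀ a, |z.1 a| ≤ L n ∧ |z.2 a| ≤ L n})
    (p := fun n z => ∀ p q, |(Em om (x n).c (bch Φ.N (sC (rA (sc (x n).M (dep om t))) (x n).c)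
      z.1.1 z.1.2) - Em om (x n).c z.1.1 * Em om (x n).c z.1.2) p q| ≤ dl (un x) K n)
    fun z => eventually_all.2 fun p => eventually_all.2 fun q =>
      c2 (fun n => (z n).1.1) (fun n => (z n).1.2)
        (fun a => ⟨hb _ fun n => ((z n).2 a).1, hb _ fun n => ((z n).2 a).2⟩) p q K
  filter_upwards [c3, eventually_all.2 fun a => eventually_all.2 fun b =>
    eventually_all.2 fun p => eventually_all.2 fun q => c1 a b p q K] with n k3 k1
  exact ⟨k1, fun s u hs => k3 ⟨(s, u), hs⟩⟩

end Pool.Agent.MP_5168f5_an.AN.TG
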