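import Pool.Agent.MP_5168f5_an.AN.LWin
import Pool.Agent.MP_5168f5_an.AN.GAApi

/-! Kakeya sets in all dimensions: closure properties of the light class, uniform forms. -/

namespace Pool.Agent.MP_5168f5_an.AN.LC

open H19 H17S H17F R4 Filter MvPolynomial
open G39 (dl OB)
open Pk (cn)
open Nc (Pl ev)
open GA (Mt Nr IsFr vec Neg)
open S20 (dn mem_cv)

/-! ### Properties of one fibre -/

section Fib

variable {m : ℕ} {κ Ω : Type}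

/-- The index of a geometric condition: curve, spread, cover, hypersurface, projection. -/
abbrev Ix : Type := ℕ × ℕ × ℕ × ℕ

/-- The kind of the atoms of a geometric condition. -/
def kd (ι : Ix) : Bool := decide (ι.1 ≤ 1)

/-- The geometric conditions for the law `Q` and the position `y`, with loss `u` and range `w`. -/
def Ps (σ : St m κ) (ι : Ix) (Q : FP Ω) (y : Ω → V m) (u w : ℝ) : Prop :=
  match ι with
  | (0, _) => ∃ τ : Fin m → Polynomial ℝ, (∀ p, (τ p).natDegree ≤ σ.D) ∧ ∀ v ∈ Q.S,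
      ∃ t : ℝ, ∀ p, |y v p - (τ p).eval t| ≤ Real.exp (-w)
  | (1, _) => ∀ h : ℝ, h ≤ w → ∀ q : V m,
      pb Q (fun v => ‖y v - q‖ ≤ Real.exp (-h)) ≤ Real.exp (u - h)
  | (2, _) => ∀ h : ℝ, 0 ≤ h → h ≤ w → ∃ T : Finset (V m),
      (T.card : ℝ) ≤ Real.exp (u + (σ.d + 1 - σ.cc) * h) ∧
        ∀ v ∈ Q.S, ∃ q ∈ T, ‖y v - q‖ ≤ Real.exp (-h)
  | (3, E, _) => ∀ h : ℝ, h ≤ w → ∀ s : Fin m → Pl σ.d, (∀ p, (s p).totalDegree ≤ E) →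
      pb Q (fun v => ∃ q, ‖y v - ev s q‖ ≤ Real.exp (-((σ.mb E + 1) * h))) ≤ Real.exp (u - h)
  | (_ + 4, k, E, i) => k ≠ σ.d + 1 → ∀ h : ℝ, h ≤ w →
      ∀ W : Fin k → Pl m, (∀ l, (W l).totalDegree ≤ E ∧ cn (W l) ≤ 1) →
      (∀ H : Pl k, H.totalDegree ≤ σ.mg k E i → cn H = 1 →
        Real.exp (u - h / (σ.mg k E i + 1)) ≤ pb Q fun v =>
          Real.exp (u - h / (σ.mg k E i + 1)) ≤ |eval (ev W (y v)) H|) →
      ∀ T : Finset (V k), (T.card : ℝ) ≤ Real.exp ((k - 1 / (i + 1 : ℝ)) * h - u) →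
        pb Q (fun v => ∃ q ∈ T, ‖ev W (y v) - q‖ ≤ Real.exp (-h - u)) ≤
          Real.exp (u - h / (σ.mg k E i + 1))

/-- The same on a good set `G`, with the constant `Γ`, at the single depth `ρ`. -/
def Wf (σ : St m κ) (ι : Ix) (Q : FP Ω) (y : Ω → V m) (G : Ω → Prop) (Γ ρ : ℝ) : Prop :=
  match ι with
  | (0, _) => ∃ τ : Fin m → Polynomial ℝ, (∀ p, (τ p).natDegree ≤ σ.D) ∧ ∀ v ∈ Q.S, G v →
      ∃ t : ℝ, ∀ p, |y v p - (τ p).eval t| ≤ Real.exp (-ρ)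
  | (1, _) => ∀ q : V m,
      pb Q (fun v => G v ∧ ‖y v - q‖ ≤ Real.exp (-ρ)) ≤ Γ * Real.exp (-ρ)
  | (2, _) => ∃ T : Finset (V m), (T.card : ℝ) ≤ Γ * Real.exp ((σ.d + 1 - σ.cc) * ρ) ∧
        ∀ v ∈ Q.S, G v → ∃ q ∈ T, ‖y v - q‖ ≤ Γ * Real.exp (-ρ)
  | (3, E, _) => ∀ s : Fin m → Pl σ.d, (∀ p, (s p).totalDegree ≤ E) →
      pb Q (fun v => G v ∧ ∃ q, ‖y v - ev s q‖ ≤ Real.exp (-((σ.mb E + 1) * ρ))) ≤
        Γ * Real.exp (-ρ)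
  | (_ + 4, k, E, i) => k ≠ σ.d + 1 →
      ∀ W : Fin k → Pl m, (∀ l, (W l).totalDegree ≤ E ∧ cn (W l) ≤ 1) →
      (∀ H : Pl k, H.totalDegree ≤ σ.mg k E i → cn H = 1 →
        Γ * Real.exp (-(ρ / (σ.mg k E i + 1))) ≤ pb Q fun v => G v ∧
          Γ * Real.exp (-(ρ / (σ.mg k E i + 1))) ≤ |eval (ev W (y v)) H|) →
      ∀ T : Finset (V k), Γ * T.card ≤ Real.exp ((k - 1 / (i + 1 : ℝ)) * ρ) →
        pb Q (fun v => G v ∧ ∃ q ∈ T, Γ * ‖ev W (y v) - q‖ ≤ Real.exp (-ρ)) ≤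
          Γ * Real.exp (-(ρ / (σ.mg k E i + 1)))

/-- The law of `y'` under `Q'` is dominated by the law of `y` under `Q`, up to `δ`. -/
def Dom (Q' : FP Ω) (y' : Ω → V m) (Q : FP Ω) (y : Ω → V m) (Γ δ : ℝ) : Prop :=
  ∀ F : V m → Prop, pb Q' (fun v => F (y' v)) ≤ Γ * pb Q fun v => ∃ z, F z ∧ ‖z - y v‖ ≤ δ

/-- Weaker for a larger loss and a smaller range. -/
def Mo (ψ : ℝ → ℝ → Prop) : Prop := ∀ u u' w w', u ≤ u' → w' ≤ w → ψ u w → ψ u' w'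

theorem ex_le {a b : ℝ} (h : a ≤ b) : Real.exp a ≤ Real.exp b := Real.exp_le_exp.2 h

theorem mo_ps (σ : St m κ) (ι : Ix) (Q : FP Ω) (y : Ω → V m) : Mo (Ps σ ι Q y) := by
  intro u u' w w' a b
  obtain ⟨_ | _ | _ | _ | n, k, E, i⟩ := ι
  · exact fun ⟨τ, c, d⟩ => ⟨τ, c, fun v hv => (d v hv).imp fun t e p =>
      (e p).trans (ex_le (by linarith))⟩
  · exact fun c h e q => (c h (e.trans b) q).trans (ex_le (by linarith))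
  · exact fun c h e e' => (c h e (e'.trans b)).imp fun T d =>
      ⟨d.1.trans (ex_le (by linarith)), d.2⟩
  · exact fun c h e s d => (c h (e.trans b) s d).trans (ex_le (by linarith))
  · intro c hk h e W hW hH T hT
    have f : Real.exp (u - h / (σ.mg k E i + 1)) ≤ Real.exp (u' - h / (σ.mg k E i + 1)) :=
      ex_le (by linarith)
    refine (pb_mono fun v _ g => ?_).trans ((c hk h (e.trans b) W hW (fun H d d' =>
      f.trans ((hH H d d').trans (pb_mono fun v _ g => f.trans g))) T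
      (hT.trans (ex_le (by linarith)))).trans f)
    exact g.imp fun q g => ⟨g.1, g.2.trans (ex_le (by linarith))⟩

theorem Dom.ex {Q Q' : FP Ω} {y y' : Ω → V m} {Γ δ : ℝ} (h : Dom Q' y' Q y Γ δ) {v : Ω}
    (hv : v ∈ Q'.S) : ∃ v' ∈ Q.S, ‖y' v - y v'‖ ≤ δ := by
  by_contra c
  have h1 := h fun z => z = y' v
  rw [pb_zero (P := Q) fun v' a ⟨z, b, d⟩ => c ⟨v', a, b ▸ d⟩, mul_zero] at h1
  exact absurd (pb_pos Q' (E := fun v' => y' v' = y' v) ⟨v, hv, rfl⟩) (not_lt.2 h1)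

end Fib

/-! ### Uniform forms -/

namespace Dt

variable {m : ℕ} {κ Ω Λ : Type} [Fintype κ] (σ : St m κ) (X : Dt m κ Ω Λ)

def BdU (u : ℝ) : Prop := (∀ a p q, |X.B a p q| ≤ Real.exp u) ∧
  ∀ t a, |t a| ≤ Real.exp u * ∑ p, ∑ q, |vec X.B t p q|

def IncU (S : Finset κ) (k : Bool) (a : ℚ≥0) (u w : ℝ) : Prop :=
  ∀ ω ∈ X.P.S, ∀ v ∈ X.P.S, X.O k a ω = X.O k a v →
    Nr X.B (rd σ.wt S (X.lv a) (Real.exp (-w))) (Real.exp u) (X.j ω) (X.j v)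

def Geo (ι : Ix) (a : ℚ≥0) (u w : ℝ) : Prop :=
  ∀ ω ∈ X.P.S, Ps σ ι (X.fb (kd ι) a ω) (X.ps σ a ω) u w

def GeoW (ι : Ix) (a : ℚ≥0) (ρ : ℝ) (G : Ω → Prop) (Γ : ℝ) : Prop :=
  ∀ ω ∈ X.P.S, G ω → Wf σ ι (X.fb (kd ι) a ω) (X.ps σ a ω) G Γ ρ

def AcU (S : Finset κ) (L : ℝ) (k : Bool) (a : ℚ≥0) (u w : ℝ) : Prop :=
  ∀ ω ∈ X.P.S, ∀ h : ℝ, h ≤ w → ∀ (l : κ → ℝ) (c₀ : ℝ), (∀ b, b ∉ S → l b = 0) →
    ∑ b, |l b| = 1 → (∀ b ∈ S, ∀ b' ∈ S, |∑ e, l e * X.c b b' e| ≤ Real.exp (-h)) →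
    pb (X.fb k a ω) (fun v => |∑ b, l b * (Real.exp (σ.wt b * X.lv a) *
      GA.lg X.B (X.j ω) (X.j v) b) - c₀| ≤ Real.exp (-h)) ≤ Real.exp (u - h / L)

theorem mo_bd : Mo fun u _ => X.BdU u := fun _ _ _ _ a _ c =>
  ⟨fun b p q => (c.1 b p q).trans (ex_le a), fun t b => (c.2 t b).trans
    (mul_le_mul_of_nonneg_right (ex_le a) (by positivity))⟩

omit [Fintype κ] in
theorem rd_nonneg (wt : κ → ℝ) (S : Finset κ) (s : ℝ) {τ : ℝ} (h : 0 ≤ τ) (a : κ) :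
    0 ≤ rd wt S s τ a := by
  unfold rd
  split_ifs <;> positivity

omit [Fintype κ] in
theorem rd_mono (wt : κ → ℝ) (S : Finset κ) (s : ℝ) {τ τ' : ℝ} (h : τ ≤ τ') (a : κ) :
    rd wt S s τ a ≤ rd wt S s τ' a := by
  unfold rd
  split_ifs
  · exact le_rfl
  · exact mul_le_mul_of_nonneg_left h (Real.exp_pos _).le

theorem mo_inc (S : Finset κ) (k : Bool) (a : ℚ≥0) : Mo (X.IncU σ S k a) :=
  fun _ _ _ _ b c d ω hω v hv e => (d ω hω v hv e).imp fun _ f => ⟨fun i => (f.1 i).trans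
    (mul_le_mul (ex_le b) (rd_mono _ _ _ (ex_le (neg_le_neg c)) _)
      (rd_nonneg _ _ _ (Real.exp_pos _).le _) (Real.exp_pos _).le), f.2⟩

omit [Fintype κ] in
theorem mo_geo (ι : Ix) (a : ℚ≥0) : Mo (X.Geo σ ι a) :=
  fun _ _ _ _ b c d ω hω => mo_ps σ ι _ _ _ _ _ _ b c (d ω hω)

theorem mo_ac (S : Finset κ) (L : ℝ) (k : Bool) (a : ℚ≥0) : Mo (X.AcU σ S L k a) :=
  fun _ _ _ _ b c d ω hω h e l c₀ f g i =>
    (d ω hω h (e.trans c) l c₀ f g i).trans (ex_le (by linarith))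

end Dt

section Seq

variable {m : ℕ} {κ : Type} [Fintype κ] {Ω Λ : ℕ → Type}

/-- Eventually, for every loss `c M` and every range `T M`. -/
def Au (M : ℕ → ℕ) (ψ : ℕ → ℝ → ℝ → Prop) : Prop :=
  ∀ c : ℝ, 0 < c → ∀ T : ℝ, ∀ᶠ n in UF, ψ n (c * M n) (T * M n)

theorem al_iff {M : ℕ → ℕ} {ψ : ℕ → ℝ → ℝ → Prop} (h : ∀ n, Mo (ψ n)) :
    (∀ ε : ℝ, 0 < ε → ∀ᶠ n in UF, ψ n (ε * M n) (M n / ε)) ↔ Au M ψ := by
  refine ⟨fun a c hc T => ?_, fun a ε hε => (a ε hε ε⁻¹).mono fun n b => ?_⟩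
  · have e : 0 < min c (1 / (|T| + 1)) := by positivity
    refine (a _ e).mono fun n => h n _ _ _ _
      (mul_le_mul_of_nonneg_right (min_le_left _ _) (Nat.cast_nonneg _)) ?_
    rw [le_div_iff₀ e, mul_right_comm]
    refine mul_le_of_le_one_left (Nat.cast_nonneg _) ((mul_le_mul (le_abs_self T)
      (min_le_right _ _) e.le (abs_nonneg _)).trans ?_)
    rw [mul_one_div, div_le_one (by positivity)]
    linarith
  · rwa [div_eq_inv_mul]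

/-- The algebraic part of the light class. -/
structure L0 (σ : St m κ) (S : Bool → Finset κ) (X : ∀ n, Dt m κ (Ω n) (Λ n)) : Prop where
  cc : 0 < σ.cc
  lo : σ.la σ.o = 0
  lp : ∀ p, p ≠ σ.o → 0 < σ.la p
  wp : ∀ a, 0 < σ.wt a
  ss : S true ⊆ S false
  big : Big (sM X)
  lv : ∀ a : ℚ≥0, Eqv (sM X) (fun n => (X n).lv a - (X n).lv 0) fun n => (a : ℝ) * (X n).M
  fr : ∀ᶠ n in UF, (X n).Fr σ
  bd : Au (sM X) fun n u _ => (X n).BdU u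
  sub : ∀ k, ∀ a ∈ S k, ∀ b ∈ S k, ∀ e, e ∉ S k → Neg (sM X) fun n => (X n).c a b e
  nest : ∀ k a a', a ≤ a' → FnE (sP X) (sO X k a) (sO X k a')
  com : ∀ a, FnE (sP X) (sO X false a) (sO X true a)

/-- The light class in uniform form. -/
structure LU (σ : St m κ) (S : Bool → Finset κ) (X : ∀ n, Dt m κ (Ω n) (Λ n)) : Prop
    extends L0 σ S X where
  inc : ∀ k a, Au (sM X) fun n => (X n).IncU σ (S k) k a
  geo : ∀ ι a, Au (sM X) fun n => (X n).Geo σ ι a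

variable {σ : St m κ} {S : Bool → Finset κ} {X : ∀ n, Dt m κ (Ω n) (Λ n)}

theorem lu_iff : L σ S X ↔ LU σ S X := by
  have g : ∀ ι a, _ ↔ Au (sM X) fun n => (X n).Geo σ ι a := fun ι a =>
    al_iff fun n => (X n).mo_geo σ ι a
  refine ⟨fun h => ⟨⟨h.cc, h.lo, h.lp, h.wp, h.ss, h.big, h.lv, h.fr,
    (al_iff fun n => (X n).mo_bd).1 h.bd, h.sub, h.nest, h.com⟩,
    fun k a => (al_iff fun n => (X n).mo_inc σ _ k a).1 (h.inc k a), fun ι a => (g ι a).1 ?_⟩,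
    fun h => ⟨h.cc, h.lo, h.lp, h.wp, h.ss, h.big, h.lv, h.fr,
    (al_iff fun n => (X n).mo_bd).2 h.bd, h.sub, h.nest, h.com,
    fun k a => (al_iff fun n => (X n).mo_inc σ _ k a).2 (h.inc k a), fun a ε hε => ?_,
    fun a => (g (1, 0, 0, 0) a).2 (h.geo _ a), fun a ε hε => ?_,
    fun E a => (g (3, E, 0, 0) a).2 (h.geo _ a), fun k hk E i a ε hε => ?_⟩⟩
  · obtain ⟨_ | _ | _ | _ | n, k, E, i⟩ := ι
    · exact fun ε hε => (h.crv a ε hε).mono fun n b ω hω => (b ω hω).imp fun τ c =>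
        ⟨c.1, fun v hv => c.2 v ((mem_cv hω v).1 hv).1 ((mem_cv hω v).1 hv).2⟩
    · exact h.spr a
    · exact fun ε hε => (h.ngv a ε hε).mono fun n b ω hω t c d => (b ω hω t c d).imp fun T c =>
        ⟨c.1, fun v hv => c.2 v ((mem_cv hω v).1 hv).1 ((mem_cv hω v).1 hv).2⟩
    · exact h.bg k a
    · intro ε hε
      by_cases hk : k = σ.d + 1
      · exact Eventually.of_forall fun n ω _ c => absurd hk c
      · exact (h.gs k hk E i a ε hε).mono fun n b ω hω _ => b ω hω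
  · exact ((g (0, 0, 0, 0) a).2 (h.geo _ a) ε hε).mono fun n b ω hω => (b ω hω).imp fun τ c =>
      ⟨c.1, fun v hv e => c.2 v ((mem_cv hω v).2 ⟨hv, e⟩)⟩
  · exact ((g (2, 0, 0, 0) a).2 (h.geo _ a) ε hε).mono fun n b ω hω t c d =>
      (b ω hω t c d).imp fun T c => ⟨c.1, fun v hv e => c.2 v ((mem_cv hω v).2 ⟨hv, e⟩)⟩
  · exact ((g (4, k, E, i) a).2 (h.geo _ a) ε hε).mono fun n b ω hω => b ω hω hk

theorem ac_iff {L₀ : ℝ} :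
    AC σ S L₀ X ↔ ∀ k a, Au (sM X) fun n => (X n).AcU σ (S k) L₀ k a :=
  forall₂_congr fun k a => al_iff fun n => (X n).mo_ac σ _ L₀ k a

/-- A smaller support and new units. -/
theorem L0.chg (h : L0 σ S X) {P : ∀ n, FP (Ω n)} {j : ∀ n, Ω n → Mt (Fin m)}
    (e : ∀ᶠ n in UF, ∀ ω ∈ (P n).S, ω ∈ (X n).P.S ∧ IsUnit (j n ω)) :
    L0 σ S fun n => (X n).chg (P n) (j n) :=
  ⟨h.cc, h.lo, h.lp, h.wp, h.ss, h.big, h.lv,
    (h.fr.and e).mono fun _ a => ⟨a.1.1, a.1.2.1, fun ω hω => (a.2 ω hω).2⟩, h.bd, h.sub,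
    fun k a a' b => ((h.nest k a a' b).and e).mono fun _ c u hu v hv =>
      c.1 u (c.2 u hu).1 v (c.2 v hv).1,
    fun a => ((h.com a).and e).mono fun _ c u hu v hv => c.1 u (c.2 u hu).1 v (c.2 v hv).1⟩

theorem Lw.l0 (h : Lw σ X) : L0 σ (fun _ => Finset.univ) X :=
  ⟨h.cc, h.lo, h.lp, h.wp, subset_rfl, h.big, h.lv, h.fr, (al_iff fun n => (X n).mo_bd).1 h.bd,
    fun _ _ _ _ _ e a => absurd (Finset.mem_univ e) a, h.nest, h.com⟩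

theorem Lw.geo (h : Lw σ X) (ι : Ix) (a r : ℚ≥0) :
    Gd (sP X) (sM X) fun n => (X n).GeoW σ ι a (r * (X n).M) := by
  obtain ⟨_ | _ | _ | _ | n, k, E, i⟩ := ι
  · exact (h.crv a r).mono (Eventually.of_forall fun n G Γ _ b ω hω g => (b ω hω g).imp fun τ c =>
      ⟨c.1, fun v hv g' => c.2 v ((mem_cv hω v).1 hv).1 g' ((mem_cv hω v).1 hv).2⟩)
  · exact h.spr a r
  · exact (h.ngv a r).mono (Eventually.of_forall fun n G Γ _ b ω hω g => (b ω hω g).imp fun T c =>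
      ⟨c.1, fun v hv g' => c.2 v ((mem_cv hω v).1 hv).1 g' ((mem_cv hω v).1 hv).2⟩)
  · exact h.bg k a r
  · by_cases hk : k = σ.d + 1
    · exact ⟨fun _ _ => True, _, Whp.of_ev (Eventually.of_forall fun _ _ _ => trivial), sub_one _,
        Eventually.of_forall fun n ω _ _ c => absurd hk c⟩
    · exact (h.gs k hk E i a r).mono (Eventually.of_forall fun n G Γ _ b ω hω g _ => b ω hω g)

end Seq

/-! ### Statements on one space -/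

/-- Weighted trimming. -/
def STrim : Prop := ∀ (Ω ι Λ : Type) (P : FP Ω) (I : Finset ι) (π : ι → Ω → Λ) (u : ι → Ω → ℝ)
  (G : Ω → Prop) (δ : ℝ), (∀ i ∈ I, (∀ ω ∈ P.S, 0 ≤ u i ω) ∧ Fn P (u i) (π i) ∧
    P.E (fun ω => G39.ind (∃ v ∈ P.S, G v ∧ π i v = π i ω) * u i ω) ≤ δ) →
  ∃ G' : Ω → Prop, (∀ ω, G' ω → G ω) ∧ pb P G - I.card * δ ≤ pb P G' ∧
    ∀ i ∈ I, ∀ ω ∈ P.S, G' ω → u i ω ≤ pb (cv P (π i) (π i ω)) G'

/-- Stability of the condition `ι` under domination. -/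
def Stab (p : Ix → Prop) : Prop := ∀ (m : ℕ) (κ : Type) (σ : St m κ) (ι : Ix), p ι →
  ∃ C : ℝ, 1 ≤ C ∧ ∀ (Ω : Type) (Q Q' : FP Ω) (y y' : Ω → V m) (u w : ℝ), 1 ≤ u → 0 ≤ w →
    (∀ v ∈ Q.S, ‖y v‖ ≤ Real.exp u) → Dom Q' y' Q y (Real.exp u) (Real.exp (-(C * (u + w)))) →
    Ps σ ι Q y u (w + C * u) → Ps σ ι Q' y' (C * u) w

def SStabA : Prop := Stab fun ι => ι.1 ≤ 3

def SStabB : Prop := Stab fun ι => 4 ≤ ι.1

/-- From a grid of depths and good sets to all depths. -/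
def SGrid : Prop := ∀ (m : ℕ) (κ : Type) (σ : St m κ) (ι : Ix),
  ∃ C : ℝ, 1 ≤ C ∧ ∀ (Ω : Type) (Q : FP Ω) (y : Ω → V m) (G' : Ω → Prop) (u w : ℝ), 0 < u →
    0 ≤ w → Real.exp (-u) ≤ pb Q G' → (∀ j : ℕ, j * u ≤ w + 3 * u → ∃ (G : Ω → Prop) (Γ : ℝ),
      (∀ v ∈ Q.S, G' v → G v) ∧ 1 ≤ Γ ∧ Γ ≤ Real.exp u ∧ Wf σ ι Q y G Γ (j * u)) →
    Ps σ ι (cE Q G') y (C * u) w

/-- The basis is homogeneous. -/
def Hom {m : ℕ} {κ : Type} (σ : St m κ) (B : κ → Mt (Fin m)) : Prop :=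
  ∀ a p q, B a p q ≠ 0 → σ.la p = σ.la q + σ.wt a

/-- Size and perturbation of positions. -/
def SPs : Prop := ∀ (m : ℕ) (κ : Type) [Fintype κ] (σ : St m κ), σ.la σ.o = 0 →
  ∃ K : ℕ, 1 ≤ K ∧ ∀ (B : κ → Mt (Fin m)) (c : κ → κ → κ → ℝ) (s L η : ℝ)
    (x y x' y' : Mt (Fin m)), IsFr σ.Φ B c → Hom σ B → (∀ a p q, |B a p q| ≤ L) → 1 ≤ L →
    0 ≤ η → η ≤ 1 → IsUnit x → Nr B (fun a => Real.exp (-(σ.wt a * s))) L x y →
    ‖nv σ.la σ.o s x y‖ ≤ (K * L) ^ K ∧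
    (Nr B (fun a => Real.exp (-(σ.wt a * s))) η x x' →
      Nr B (fun a => Real.exp (-(σ.wt a * s))) η y y' →
      ‖nv σ.la σ.o s x' y' - nv σ.la σ.o s x y‖ ≤ (K * L) ^ K * η)

/-- Perturbation of increments. -/
def SIn2 : Prop := ∀ (m : ℕ) (κ : Type) [Fintype κ] (σ : St m κ),
  ∃ K : ℕ, 1 ≤ K ∧ ∀ (S : Finset κ) (B : κ → Mt (Fin m)) (c : κ → κ → κ → ℝ) (s τ L : ℝ)
    (x y x' y' : Mt (Fin m)), IsFr σ.Φ B c → Hom σ B → (∀ a p q, |B a p q| ≤ L) →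
    (∀ t a, |t a| ≤ L * ∑ p, ∑ q, |vec B t p q|) → 1 ≤ L → 0 ≤ τ → τ ≤ 1 →
    (∀ a ∈ S, ∀ b ∈ S, ∀ e, e ∉ S → |c a b e| ≤ τ) → Nr B (rd σ.wt S s τ) L x y →
    Nr B (rd σ.wt S s τ) L x x' → Nr B (rd σ.wt S s τ) L y y' →
    Nr B (rd σ.wt S s τ) ((K * L) ^ K) x' y'

/-- Freezing on one space. -/
def SFrzF : Prop := ∀ (Ω ι Λ β : Type) (P : FP Ω) (I : Finset ι) (k : ι → Bool) (π : ι → Ω → Λ)
  (A₀ C₀ C₁ : Ω → Λ) (be : Ω → β) (G : Ω → Prop) (γ : ℝ), 1 ≤ γ → 1 / 2 ≤ pb P G →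
  (∀ ω ∈ P.S, G ω → 1 ≤ γ * dn P be A₀ ω ∧ dn P be C₁ ω ≤ γ * dn P be C₀ ω) →
  (∀ i ∈ I, (k i = true → Fn P A₀ (π i)) ∧ (k i = false → Fn P C₀ (π i) ∧ Fn P (π i) C₁)) →
  ∃ (b : β) (G' : Ω → Prop), (∃ ω ∈ P.S, G' ω) ∧ (∀ ω, G' ω → G ω ∧ be ω = b) ∧
    ∀ i ∈ I, ∀ ω ∈ P.S, G' ω → ∀ F : Ω → Prop, Fn P F C₁ →
      pb (cv (cE P G') (π i) (π i ω)) F ≤ 4 * (I.card + 1) * γ * pb (cv P (π i) (π i ω)) F

def OfFrzF : Prop := STrim → SFrzF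

/-! ### Statements on sequences -/

/-- Trimming for all atoms. -/
def STrimS : Prop := ∀ (Ω Λ : ℕ → Type) (P : ∀ n, FP (Ω n)) (M : ℕ → ℕ)
  (O : Bool → ℚ≥0 → ∀ n, Ω n → Λ n) (G : ∀ n, Ω n → Prop), Big M →
  (∀ c : ℝ, 0 < c → ∀ᶠ n in UF, dl M c n ≤ pb (P n) (G n)) →
  ∃ G' : ∀ n, Ω n → Prop, (∀ n ω, G' n ω → G n ω) ∧
    (∀ᶠ n in UF, pb (P n) (G n) ≤ 2 * pb (P n) (G' n)) ∧
    ∀ k a (c : ℝ), 0 < c → ∀ᶠ n in UF, ∀ ω ∈ (P n).S, G' n ω →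
      dl M c n ≤ pb (cv (P n) (O k a n) (O k a n ω)) (G' n)

def OfTrimS : Prop := STrim → STrimS

/-- Positions inside atoms are bounded, and negligible changes of the group element. -/
def SPert : Prop := ∀ (m : ℕ) (κ : Type) [Fintype κ] (Ω Λ : ℕ → Type) (σ : St m κ)
  (S : Bool → Finset κ) (X : ∀ n, Dt m κ (Ω n) (Λ n)), LU σ S X →
  (∀ k a (c : ℝ), 0 < c → ∀ᶠ n in UF, ∀ ω ∈ (X n).P.S, ∀ v ∈ ((X n).fb k a ω).S,
    ‖(X n).ps σ a ω v‖ ≤ Real.exp (c * (X n).M)) ∧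
  ∀ j : ∀ n, Ω n → Mt (Fin m), Cls σ X (sP X) j →
    (∀ᶠ n in UF, ∀ ω ∈ (X n).P.S, IsUnit (j n ω)) ∧
    (∀ k a, Au (sM X) fun n => ((X n).chg (X n).P (j n)).IncU σ (S k) k a) ∧
    ∀ k a (T : ℝ), ∀ᶠ n in UF, ∀ ω ∈ (X n).P.S, ∀ v ∈ ((X n).fb k a ω).S,
      ‖((X n).chg (X n).P (j n)).ps σ a ω v - (X n).ps σ a ω v‖ ≤ dl (sM X) T n

def OfPert : Prop := SPs → SIn2 → SPert

/-- Transfer along a domination. -/
def STr : Prop := ∀ (m : ℕ) (κ : Type) [Fintype κ] (Ω Λ : ℕ → Type) (σ : St m κ)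
  (S : Bool → Finset κ) (X : ∀ n, Dt m κ (Ω n) (Λ n)) (P : ∀ n, FP (Ω n))
  (j : ∀ n, Ω n → Mt (Fin m)), LU σ S X →
  (∀ᶠ n in UF, ∀ ω ∈ (P n).S, ω ∈ (X n).P.S ∧ IsUnit (j n ω)) →
  (∀ k a, Au (sM X) fun n => ((X n).chg (X n).P (j n)).IncU σ (S k) k a) →
  (∀ k a, Au (sM X) fun n u w => ∀ ω ∈ (P n).S,
    Dom (((X n).chg (P n) (j n)).fb k a ω) (((X n).chg (P n) (j n)).ps σ a ω)
      ((X n).fb k a ω) ((X n).ps σ a ω) (Real.exp u) (Real.exp (-w))) →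
  LU σ S fun n => (X n).chg (P n) (j n)

def OfTr : Prop := SStabA → SStabB → SPert → STr

def OfRes : Prop := STrimS → STr → SRes

def OfFrz : Prop := SFrzF → SPert → STr → SFrz

def OfWhp : Prop := STrimS → SGrid → SWhp

end Pool.Agent.MP_5168f5_an.AN.LC
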