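import Pool.Agent.MP_5168f5_an.AN.A1

/-! The noise floor and minimal labels without a cap. -/

namespace Pool.Agent.MP_5168f5_an.AN.A1

open H19 H17S H17F Matrix MvPolynomial Filter
open G39 (nu dl dl_lt dl_add dl_anti dl_pos dl_half sub_dl)
open Pk (cn kc)
open Nc (Pl)

section One

variable {Ω α β Φ : Type}

theorem pb_tower (P : FP Ω) (Y : Ω → β) (S : β → Ω → Prop) :
    pb P (fun ω => S (Y ω) ω) = P.E fun ω => pb (cv P Y (Y ω)) (S (Y ω)) := by
  classical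
  exact KEA.exp P Y fun z ω => if S z ω then 1 else 0

theorem cheb (P : FP Ω) {f : Ω → ℝ} {s : ℝ} (h : 2 * nu P f < s) : 3 / 4 ≤ pb P fun ω => |f ω| < s := by
  have h0 := nu_nonneg P f
  have h1 := markov P (u := fun ω => f ω ^ 2) (fun _ _ => sq_nonneg _) (s ^ 2)
  rw [← nu_sq] at h1
  have h2 : pb P (fun ω => ¬|f ω| < s) ≤ pb P fun ω => s ^ 2 ≤ f ω ^ 2 := pb_mono fun ω _ k => by
    rw [← sq_abs (f ω)]; exact pow_le_pow_left₀ (by linarith) (not_lt.1 k) 2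
  rw [pb_not] at h2
  have h3 : 0 < s ^ 2 := by have : 0 < s := by linarith
                            positivity
  by_contra k
  nlinarith

/-- A small ball bound given `Y` gives lower bounds for the means given labels read from `Y`. -/
theorem flr (P : FP Ω) (G Gd : Ω → Prop) (A : Ω → α) (Y : Ω → β) (f : Φ → Ω → ℝ) (s : Φ → ℝ)
    (ok : Φ → Prop) {κ : ℝ} (hκ : 0 ≤ κ) (fn : Fn (cE P G) A Y)
    (h : ∀ ω ∈ P.S, ∀ F, ok F → pb (cv P Y (Y ω)) (fun v => Gd v ∧ |f F v| < s F) ≤ κ) :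
    pb P G * pb (cE P G) (fun ω => ¬∀ F, ok F → s F ≤ 2 * nu (cv (cE P G) A (A ω)) (f F)) ≤
      2 * (κ + pb P fun ω => ¬Gd ω) := by
  classical
  set Q := cE P G with hQ
  let Bad : α → Prop := fun a => ¬∀ F, ok F → s F ≤ 2 * nu (cv Q A a) (f F)
  have e : ∀ a, ∃ S : Ω → Prop, (Bad a → 3 / 4 ≤ pb (cv Q A a) S) ∧
      ∀ ω ∈ P.S, pb (cv P Y (Y ω)) (fun v => Gd v ∧ S v) ≤ κ := fun a => by
    by_cases k : Bad a
    · simp only [Bad, not_forall, not_le] at k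
      obtain ⟨F, k1, k2⟩ := k
      exact ⟨_, fun _ => cheb _ k2, fun ω hω => h ω hω F k1⟩
    · exact ⟨fun _ => False, fun u => absurd u k, fun ω _ => (pb_zero fun _ _ u => u.2).trans_le hκ⟩
  choose S h1 h2 using e
  have e' : ∀ y, ∃ S' : Ω → Prop, (∀ ω ∈ Q.S, Y ω = y → S' = S (A ω)) ∧
      ∀ ω ∈ P.S, pb (cv P Y (Y ω)) (fun v => Gd v ∧ S' v) ≤ κ := fun y => by
    by_cases k : ∃ ω ∈ Q.S, Y ω = y
    · obtain ⟨v, hv, rfl⟩ := k
      exact ⟨S (A v), fun ω hω u => by rw [fn ω hω v hv u], h2 _⟩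
    · exact ⟨fun _ => False, fun ω hω u => absurd ⟨ω, hω, u⟩ k,
        fun ω _ => (pb_zero fun _ _ u => u.2).trans_le hκ⟩
  choose S' h3 h4 using e'
  have h5 : 3 / 4 * pb Q (fun ω => Bad (A ω)) ≤ pb Q fun ω => S (A ω) ω := by
    rw [pb_tower Q A S, pb, ← Q.E_mul]
    refine Q.E_mono fun ω _ => ?_
    split_ifs with k
    · simpa using h1 _ k
    · simpa using pb_nonneg _ _
  have h6 : pb Q (fun ω => S (A ω) ω) = pb Q fun ω => S' (Y ω) ω :=
    pb_congr fun ω hω => by rw [h3 _ ω hω rfl]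
  have h7 : pb P (fun ω => Gd ω ∧ S' (Y ω) ω) ≤ κ := by
    rw [pb_tower P Y fun y ω => Gd ω ∧ S' y ω]
    exact (P.E_mono fun ω hω => h4 _ ω hω).trans_eq (P.E_const κ)
  have h8 : pb P G * pb Q (fun ω => S' (Y ω) ω) ≤ κ + pb P fun ω => ¬Gd ω := by
    rw [hQ, pb_cE]
    refine le_trans (pb_mono fun ω _ k => ?_) ((pb_or P _ _).trans (add_le_add h7 le_rfl))
    by_cases u : Gd ω
    · exact Or.inl ⟨u, k.2⟩
    · exact Or.inr u
  have h9 := mul_le_mul_of_nonneg_left (h5.trans_eq h6) (pb_nonneg P G)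
  have := pb_nonneg P fun ω => ¬Gd ω
  change pb P G * pb Q (fun ω => Bad (A ω)) ≤ _
  linarith

end One

variable {Ω α γ τ : ℕ → Type} {d : ℕ}

/-- Given `Y`, polynomials are rarely below a fixed power times their coefficient norm. -/
def Floor (P : ∀ n, FP (Ω n)) (M : ℕ → ℕ) (x : ∀ n, Ω n → V d) (Y : ∀ n, Ω n → γ n) : Prop :=
  ∀ E : ℕ, ∃ (B c : ℝ) (Gd : ∀ n, Ω n → Prop), 0 < c ∧ Whp P Gd ∧ ∀ᶠ n in UF, ∀ ω ∈ (P n).S,
    ∀ F : Pl d, F.totalDegree ≤ E →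
      pb (cv (P n) (Y n) (Y n ω)) (fun v => Gd n v ∧ |eval (x n v) F| < dl M B n * cn F) ≤ dl M c n

variable {P : ∀ n, FP (Ω n)} {x : ∀ n, Ω n → V d} {M : ℕ → ℕ}

theorem NTc.nt {β : Bool → ℕ → Type} {Z : ∀ b n, Ω n → β b n} {A : ∀ n, Ω n → α n}
    (h : NTc P M x Z A) (h' : Fat P M x A) : NT P M x Z fun n => nc (P n) (x n) (A n) :=
  fun E c F hc hF => by
    obtain ⟨B, hB⟩ := h' E
    exact ((h B E c F hc hF).and hB).mono (Eventually.of_forall fun n ω _ k u =>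
      k.1 ⟨u.1, by simpa only [if_pos (k.2 _ (hF _ _ _))] using u.2⟩)

/-- Countably many sequences that tend to infinity have a common minorant. -/
theorem minorant {J : Type} [Countable J] {L : J → ℕ → ℝ} (h : ∀ j, Tendsto (L j) UF atTop) :
    ∃ L' : ℕ → ℝ, Tendsto L' UF atTop ∧ ∀ j, ∀ᶠ n in UF, L' n ≤ L j n := by
  obtain ⟨e, he⟩ := Countable.exists_injective_nat J
  obtain ⟨k, hk, h1⟩ := KSA.spill (fun k n => ∀ j, e j ≤ k → (k : ℝ) ≤ L j n) fun k =>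
    (eventually_all_finite ((Set.finite_Iic k).preimage he.injOn)).2 fun j _ =>
      (h j).eventually_ge_atTop _
  exact ⟨fun n => k n, tendsto_atTop.2 hk.ev, fun j => (h1.and (hk.ev (e j))).mono fun n u =>
    u.1 _ le_rfl j (by exact_mod_cast u.2)⟩

/-- Countably many events of high probability keep high probability on slowly shrinking events. -/
theorem slow {J : Type} [Countable J] {Gd : J → ∀ n, Ω n → Prop} (h : ∀ j, Whp P (Gd j)) :
    ∃ L : ℕ → ℕ, Big L ∧ ∀ j (ε : ℝ), 0 < ε → ∀ᶠ n in UF, L n * pb (P n) (fun ω => ¬Gd j n ω) ≤ ε := by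
  obtain ⟨e, he⟩ := Countable.exists_injective_nat J
  obtain ⟨L, hL, h1⟩ := KSA.spill (fun k n => ∀ j, e j ≤ k → pb (P n) (fun ω => ¬Gd j n ω) ≤
    (1 / (k + 1 : ℝ)) ^ 2) fun k => (eventually_all_finite
      ((Set.finite_Iic k).preimage he.injOn)).2 fun j _ => h j _ (by positivity)
  refine ⟨L, hL, fun j ε hε => ?_⟩
  filter_upwards [h1, hL.ev (e j), R4.K31.small hε hL] with n k1 k2 k3
  refine (mul_le_mul_of_nonneg_left (k1 _ le_rfl j (by exact_mod_cast k2)) (Nat.cast_nonneg _)).trans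
    (le_trans ?_ k3)
  rw [pow_two, ← mul_assoc]
  exact mul_le_of_le_one_left (by positivity) (by
    rw [mul_one_div]; exact div_le_one_of_le₀ (by linarith) (by positivity))

/-- The floor survives slowly shrinking events. -/
theorem Floor.fat {Y : ∀ n, Ω n → γ n} (h : Floor P M x Y) (hM : Big M) : ∃ L : ℕ → ℝ,
    Tendsto L UF atTop ∧ ∀ (α : ℕ → Type) (G : ∀ n, Ω n → Prop) (A : ∀ n, Ω n → α n),
      (∀ᶠ n in UF, 1 ≤ L n * pb (P n) (G n)) → FnE (fun n => cE (P n) (G n)) A Y →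
      Fat (fun n => cE (P n) (G n)) M x A := by
  choose B c Gd hc h1 h2 using h
  obtain ⟨L, hL, h3⟩ := slow h1
  refine ⟨fun n => min (L n) (M n), tendsto_atTop.2 fun b => ((hL.ev b).and (hM.ev b)).mono
    fun n k => le_min k.1 k.2, fun α G A hG fn E => ⟨B E + 1, fun ε hε => ?_⟩⟩
  filter_upwards [hG, h2 E, h3 E (ε / 4) (by positivity), dl_lt hM (K := 1 / 2) (by norm_num) one_pos,
    sub_dl (Sub.nat hM) (half_pos (hc E)), dl_lt hM (K := ε / 4) (by positivity) (half_pos (hc E)),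
    fn] with n k1 k2 k3 k4 k5 k6 fn
  have k7 := flr (P n) (G n) (Gd E n) (A n) (Y n) (fun F v => eval (x n v) F)
    (fun F => dl M (B E) n * cn F) (fun F => F.totalDegree ≤ E) (dl_pos M (c E) n).le fn k2
  refine le_trans (pb_mono (F := fun ω => ¬∀ F :
    MvPolynomial (Fin d) ℝ, F.totalDegree ≤ E → dl M (B E) n * cn F ≤
      2 * nu (cv (cE (P n) (G n)) (A n) (A n ω)) fun v => eval (x n v) F)
      fun ω _ u v => u fun F hF => ?_) ?_
  · have := v F hF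
    rw [dl_add, nc]
    nlinarith [mul_nonneg (dl_pos M (B E) n).le (kc.nonneg F)]
  have m0 : (0 : ℝ) ≤ min (L n : ℝ) (M n) := le_min (Nat.cast_nonneg _) (Nat.cast_nonneg _)
  have k8 : min (L n : ℝ) (M n) * dl M (c E) n ≤ ε / 4 := by
    have u := dl_pos M (c E / 2) n
    rw [le_inv_comm₀ (by positivity) u, ← one_div, le_div_iff₀ (by positivity)] at k5
    rw [dl_half]
    nlinarith [min_le_right (L n : ℝ) (M n), mul_nonneg m0 u.le]
  have k9 := (mul_le_mul_of_nonneg_right (min_le_left (L n : ℝ) (M n))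
    (pb_nonneg (P n) fun ω => ¬Gd E n ω)).trans k3
  have := mul_le_mul_of_nonneg_left k7 m0
  nlinarith [mul_le_mul_of_nonneg_right k1 (pb_nonneg (cE (P n) (G n)) fun ω => ¬∀ F :
    MvPolynomial (Fin d) ℝ, F.totalDegree ≤ E → dl M (B E) n * cn F ≤
      2 * nu (cv (cE (P n) (G n)) (A n) (A n ω)) fun v => eval (x n v) F)]

/-- Minimal nested labels exist on an event of probability at least `1 / L`. -/
theorem a1 {I : Type} [Countable I] [Preorder I] {β : Bool → I → ℕ → Type} (P : ∀ n, FP (Ω n))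
    {M : ℕ → ℕ} (x : ∀ n, Ω n → V d) (Z : ∀ b i n, Ω n → β b i n) (T : I → ∀ n, Ω n → τ n)
    {L : ℕ → ℝ} {K : ℝ} (hM : Big M) (hL : Tendsto L UF atTop)
    (bd : Whp P fun n ω => ‖x n ω‖ ≤ (dl M K n)⁻¹)
    (fil : ∀ b i i', i ≤ i' → FnE P (Z b i) (Z b i')) (com : ∀ i, Com P (fun b => Z b i) (T i))
    (nest : ∀ i i', i ≤ i' → FnE P (T i) (T i')) (fl : ∀ i, ∃ b, Floor P M x (Z b i)) :
    ∃ (α : ℕ → Type) (G : ∀ n, Ω n → Prop) (A : I → ∀ n, Ω n → α n),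
      (∀ᶠ n in UF, 1 ≤ L n * pb (P n) (G n)) ∧
      (∀ i i', i ≤ i' → FnE (fun n => cE (P n) (G n)) (A i) (A i')) ∧
      ∀ i, FnE (fun n => cE (P n) (G n)) (T i) (A i) ∧
        CM (fun n => cE (P n) (G n)) M x (fun b => Z b i) (A i) ∧
        Fat (fun n => cE (P n) (G n)) M x (A i) := by
  choose b fl using fl
  choose L' h1 h2 using fun i => (fl i).fat hM
  obtain ⟨L₀, h3, h4⟩ := minorant (L := fun o : Option I => o.elim L L') (by rintro (_ | i); exacts [hL, h1 i])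
  obtain ⟨α, G, A, k1, k2, k3⟩ := a1c P x Z T hM h3 bd fil com nest
  have k4 : ∀ o : Option I, ∀ᶠ n in UF, 1 ≤ o.elim L L' n * pb (P n) (G n) := fun o =>
    (k1.and (h4 o)).mono fun n k => k.1.trans (mul_le_mul_of_nonneg_right k.2 (pb_nonneg _ _))
  have k5 := fun i => h2 i α G (A i) (k4 (some i)) ((k3 i).2.1 (b i))
  exact ⟨α, G, A, k4 none, k2, fun i => ⟨(k3 i).1, ⟨(k3 i).2.1, (k3 i).2.2.nt (k5 i)⟩, k5 i⟩⟩

end Pool.Agent.MP_5168f5_an.AN.A1
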