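import Pool.Agent.MP_5168f5_an.AN.G39Defs

/-! Rows Onb and Cheb: orthonormal bases for the quadratic mean. -/

namespace Pool.Agent.MP_5168f5_an.AN.G39

open H19 H17S H17F Filter MvPolynomial

namespace G39OnbA

variable {Ω : Type} (P : FP Ω)

/-- The weighted vector of values. -/
noncomputable def T : (Ω → ℝ) →ₗ[ℝ] EuclideanSpace ℝ P.S where
  toFun f := WithLp.toLp 2 fun w => √(P.p w) * f w
  map_add' f g := by ext w; simp [mul_add]
  map_smul' c f := by ext w; simp [mul_left_comm]

theorem T_sq (f : Ω → ℝ) (w : P.S) : T P f w ^ 2 = P.p w * f w ^ 2 := by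
  change (√(P.p w) * f w) ^ 2 = _
  rw [mul_pow, Real.sq_sqrt (P.pos _ w.2).le]

theorem norm_T (f : Ω → ℝ) : ‖T P f‖ = nu P f := by
  rw [EuclideanSpace.norm_eq, nu, FP.E, ← Finset.sum_coe_sort P.S]
  simp only [Real.norm_eq_abs, sq_abs, T_sq]

end G39OnbA

open G39OnbA

theorem rOnb : Onb := by
  intro Ω P N v h
  have e : ∀ (c : Fin N → ℝ) (u : Fin N → Ω → ℝ),
      (fun ω => ∑ a, c a * u a ω) = ∑ a, c a • u a := fun c u => by
    funext ω
    simp [Finset.sum_apply]
  let U := T P ∘ₗ Fintype.linearCombination ℝ v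
  have hU : Function.Injective U := (injective_iff_map_eq_zero U).2 fun c hc => by
    by_contra h0
    have := h c h0
    rw [← norm_T, e, norm_pos_iff] at this
    exact this hc
  let b := (stdOrthonormalBasis ℝ (LinearMap.range U)).reindex
    (finCongr ((LinearMap.finrank_range_of_inj hU).trans (by simp : _ = N)))
  choose A hA using fun a => (b a).2
  refine ⟨A, fun c => ?_⟩
  have h1 := congrArg (fun y : LinearMap.range U => ‖(y : EuclideanSpace ℝ P.S)‖)
    (b.sum_repr_symm (WithLp.toLp 2 c))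
  simp only [Submodule.coe_sum, Submodule.coe_smul, ← hA] at h1
  rw [← norm_T, e c fun a ω => ∑ a', A a a' * v a' ω, map_sum]
  simp only [e, map_smul]
  refine h1.trans ?_
  rw [← Submodule.coe_norm, LinearIsometryEquiv.norm_map, EuclideanSpace.norm_eq]
  simp

theorem rCheb : Cheb := by
  intro Ω P d E x L hL
  classical
  let g := fun m : Fin d → Fin (E + 1) => T P fun ω => ∏ i, x ω i ^ (m i : ℕ)
  let b := stdOrthonormalBasis ℝ (Submodule.span ℝ (Set.range g))
  have hr : (Module.finrank ℝ (Submodule.span ℝ (Set.range g)) : ℝ) ≤ (E + 1) ^ d := by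
    have := finrank_range_le_card (R := ℝ) g
    rw [Fintype.card_fun, Fintype.card_fin, Fintype.card_fin] at this
    exact_mod_cast this
  have key : ∀ w : P.S, ¬CG P x E L w → P.p w ≤ (∑ i, (b i).1 w ^ 2) / L ^ 2 := fun w hw => by
    simp only [CG, not_forall, not_le] at hw
    obtain ⟨f, ⟨F, hF, hf⟩, hw⟩ := hw
    have hm : T P f ∈ Submodule.span ℝ (Set.range g) := by
      have : f = ∑ m ∈ F.support, coeff m F • fun ω => ∏ i, x ω i ^ m i := by
        funext ω
        simp [hf, eval_eq', Finset.sum_apply]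
      rw [this, map_sum]
      refine sum_mem fun m hm => ?_
      rw [map_smul]
      exact Submodule.smul_mem _ _ (Submodule.subset_span ⟨fun i => ⟨m i, Nat.lt_succ_of_le
        (((monomial_le_degreeOf i hm).trans (degreeOf_le_totalDegree F i)).trans hF)⟩, rfl⟩)
    have h1 : T P f w = ∑ i, b.repr ⟨_, hm⟩ i * (b i).1 w := by
      have := congrArg (fun y => y.1 w) (b.sum_repr ⟨_, hm⟩)
      simpa using this.symm
    have h2 := T_sq P f w
    have h3 := Finset.sum_mul_sq_le_sq_mul_sq Finset.univ (b.repr ⟨_, hm⟩) fun i => (b i).1 w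
    rw [← h1, h2, ← EuclideanSpace.real_norm_sq_eq, LinearIsometryEquiv.norm_map,
      Submodule.coe_norm, norm_T] at h3
    have n0 : 0 ≤ nu P f := Real.sqrt_nonneg _
    have h4 := mul_lt_mul_of_pos_left (pow_lt_pow_left₀ hw (by positivity) two_ne_zero)
      (P.pos _ w.2)
    rw [sq_abs] at h4
    rw [le_div_iff₀ (by positivity)]
    exact (lt_of_mul_lt_mul_left (((by ring : _ = _).trans_lt h4).trans_le h3) (sq_nonneg _)).le
  rw [pb, FP.E, ← Finset.sum_coe_sort P.S]
  refine (Finset.sum_le_sum (g := fun w : P.S => (∑ i, (b i).1 w ^ 2) / L ^ 2) fun w _ => ?_).trans ?_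
  · split_ifs with h
    · rw [mul_zero]
      positivity
    · rw [mul_one]
      exact key w h
  · rw [← Finset.sum_div, Finset.sum_comm]
    refine div_le_div_of_nonneg_right (le_trans (le_of_eq ?_) hr) (sq_nonneg _)
    simp only [← EuclideanSpace.real_norm_sq_eq, ← Submodule.coe_norm, b.orthonormal.1]
    simp

end Pool.Agent.MP_5168f5_an.AN.G39
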