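import Pool.Agent.MP_5168f5_an.AN.G39Res
import Pool.Agent.MP_5168f5_an.AN.G39Onb

/-! The size of polynomials at typical points; the quadratic mean is almost multiplicative. -/

namespace Pool.Agent.MP_5168f5_an.AN.Pk

open H19 H17S H17F Filter MvPolynomial G39

section One

variable {Ω : Type} {d : ℕ} {P : FP Ω} {x : Ω → Fin d → ℝ} {E E' : ℕ} {f g : Ω → ℝ}

theorem PM.nu_nn (P : FP Ω) (f : Ω → ℝ) : 0 ≤ nu P f := Real.sqrt_nonneg _

theorem nu_add (P : FP Ω) (f g : Ω → ℝ) : nu P (fun ω => f ω + g ω) ≤ nu P f + nu P g := by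
  simp only [← G39OnbA.norm_T]
  exact ((congrArg norm (map_add (G39OnbA.T P) f g)).trans_le (norm_add_le _ _))

theorem PM.nu_smul (P : FP Ω) (c : ℝ) (f : Ω → ℝ) : nu P (fun ω => c * f ω) = |c| * nu P f := by
  simp only [← G39OnbA.norm_T]
  exact (congrArg norm (map_smul (G39OnbA.T P) c f)).trans (norm_smul _ _)

theorem nu_mono (h : ∀ ω ∈ P.S, |f ω| ≤ |g ω|) : nu P f ≤ nu P g :=
  Real.sqrt_le_sqrt (P.E_mono fun ω hω => sq_le_sq.2 (h ω hω))

theorem nu_const (P : FP Ω) (c : ℝ) : nu P (fun _ => c) = |c| := by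
  rw [nu, P.E_const, Real.sqrt_sq_eq_abs]

theorem nu_le {θ : ℝ} (h : ∀ ω ∈ P.S, |f ω| ≤ θ) (h0 : 0 ≤ θ) : nu P f ≤ θ :=
  (nu_mono (g := fun _ => θ) fun ω hω => (h ω hω).trans (le_abs_self _)).trans_eq
    ((nu_const P θ).trans (abs_of_nonneg h0))

theorem nu_sum {ι : Type} (P : FP Ω) (T : Finset ι) (f : ι → Ω → ℝ) :
    nu P (fun ω => ∑ i ∈ T, f i ω) ≤ ∑ i ∈ T, nu P (f i) := by
  classical
  induction T using Finset.induction_on with
  | empty => simp [nu_const]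
  | insert a T ha ih =>
    simp only [Finset.sum_insert ha]
    exact (nu_add P _ _).trans (add_le_add le_rfl ih)

theorem pl_mono (h : Pl x E f) (e : E ≤ E') : Pl x E' f :=
  let ⟨F, a, b⟩ := h; ⟨F, a.trans e, b⟩

theorem PM.pl_const (x : Ω → Fin d → ℝ) (E : ℕ) (c : ℝ) : Pl x E fun _ => c :=
  ⟨C c, by simp, fun _ => by simp⟩

theorem pl_add (h : Pl x E f) (h' : Pl x E g) : Pl x E fun ω => f ω + g ω :=
  let ⟨F, a, b⟩ := h; let ⟨G, a', b'⟩ := h'
  ⟨F + G, (totalDegree_add _ _).trans (max_le a a'), fun ω => by simp [b, b']⟩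

theorem pl_mul (h : Pl x E f) (h' : Pl x E' g) : Pl x (E + E') fun ω => f ω * g ω :=
  let ⟨F, a, b⟩ := h; let ⟨G, a', b'⟩ := h'
  ⟨F * G, (totalDegree_mul _ _).trans (add_le_add a a'), fun ω => by simp [b, b']⟩

theorem pl_smul (c : ℝ) (h : Pl x E f) : Pl x E fun ω => c * f ω := by
  simpa using pl_mul (PM.pl_const x 0 c) h

theorem pl_sub (h : Pl x E f) (h' : Pl x E g) : Pl x E fun ω => f ω - g ω := by
  simpa [sub_eq_add_neg] using pl_add h (pl_smul (-1) h')

theorem PM.pl_sum {ι : Type} (T : Finset ι) {f : ι → Ω → ℝ} (h : ∀ i ∈ T, Pl x E (f i)) :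
    Pl x E fun ω => ∑ i ∈ T, f i ω := by
  classical
  induction T using Finset.induction_on with
  | empty => simpa using PM.pl_const x E 0
  | insert a T ha ih =>
    simp only [Finset.sum_insert ha]
    exact pl_add (h a (by simp)) (ih fun i hi => h i (by simp [hi]))

theorem PM.pl_prod {ι : Type} (T : Finset ι) {f : ι → Ω → ℝ} (h : ∀ i ∈ T, Pl x E (f i)) :
    Pl x (T.card * E) fun ω => ∏ i ∈ T, f i ω := by
  classical
  induction T using Finset.induction_on with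
  | empty => simpa using PM.pl_const x 0 1
  | insert a T ha ih =>
    simp only [Finset.prod_insert ha, Finset.card_insert_of_notMem ha]
    exact pl_mono (pl_mul (h a (by simp)) (ih fun i hi => h i (by simp [hi]))) (by
      rw [add_mul, one_mul, add_comm])

theorem pl_pow (h : Pl x E f) (k : ℕ) : Pl x (k * E) fun ω => f ω ^ k := by
  simpa using PM.pl_prod (Finset.range k) (f := fun _ => f) fun _ _ => h

theorem PM.pl_ev {σ : Type} {φ : σ → Ω → ℝ} (h : ∀ i, Pl x E (φ i)) {H : MvPolynomial σ ℝ}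
    (e : H.totalDegree ≤ E') : Pl x (E' * E) (ev φ H) := by
  have : ev φ H = fun ω => ∑ m ∈ H.support, coeff m H * ∏ i ∈ m.support, φ i ω ^ m i := by
    funext ω; rw [ev, eval_eq]
  rw [this]
  refine PM.pl_sum _ fun m hm => pl_smul _ ?_
  choose F a b using h
  refine ⟨∏ i ∈ m.support, F i ^ m i, (totalDegree_finsetProd _ _).trans ?_, fun ω => by simp [b]⟩
  refine (Finset.sum_le_sum fun i _ => (totalDegree_pow _ _).trans
    (Nat.mul_le_mul_left _ (a i))).trans ?_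
  rw [← Finset.sum_mul]
  exact Nat.mul_le_mul_right _ ((le_totalDegree hm).trans e)

theorem cg_mono {L L' : ℝ} {ω : Ω} (h : CG P x E L ω) (e : E' ≤ E) (e' : L ≤ L') :
    CG P x E' L' ω := fun f hf =>
  (h f (pl_mono hf e)).trans (mul_le_mul_of_nonneg_right e' (PM.nu_nn _ _))

protected theorem nu_nn (P : FP Ω) (f : Ω → ℝ) : 0 ≤ nu P f := PM.nu_nn P f

protected theorem nu_smul (P : FP Ω) (c : ℝ) (f : Ω → ℝ) :
    nu P (fun ω => c * f ω) = |c| * nu P f := PM.nu_smul P c f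

protected theorem pl_const (x : Ω → Fin d → ℝ) (E : ℕ) (c : ℝ) : Pl x E fun _ => c :=
  PM.pl_const x E c

protected theorem pl_sum {ι : Type} (T : Finset ι) {f : ι → Ω → ℝ} (h : ∀ i ∈ T, Pl x E (f i)) :
    Pl x E fun ω => ∑ i ∈ T, f i ω := PM.pl_sum T h

protected theorem pl_prod {ι : Type} (T : Finset ι) {f : ι → Ω → ℝ}
    (h : ∀ i ∈ T, Pl x E (f i)) : Pl x (T.card * E) fun ω => ∏ i ∈ T, f i ω := PM.pl_prod T h

protected theorem pl_ev {σ : Type} {φ : σ → Ω → ℝ} (h : ∀ i, Pl x E (φ i))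
    {H : MvPolynomial σ ℝ} (e : H.totalDegree ≤ E') : Pl x (E' * E) (ev φ H) := PM.pl_ev h e

end One

variable {Ω β : ℕ → Type} {d : ℕ} {P : ∀ n, FP (Ω n)} {x : ∀ n, Ω n → Fin d → ℝ} {M : ℕ → ℕ}
  {Z : Bool → ∀ n, Ω n → β n} {c : ℝ}

variable (P x) in
/-- The upper bound, for all polynomials at once. -/
theorem g1_up (E : ℕ) {L : ℕ → ℝ} (hL : ∀ K : ℝ, ∀ᶠ n in UF, K ≤ L n) :
    Whp P fun n ω => CG (P n) (x n) E (L n) ω := fun ε hε => by
  filter_upwards [hL 1, hL ((E + 1) ^ d / ε)] with n a b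
  refine (rCheb _ _ d E _ _ (one_pos.trans_le a)).trans ?_
  rw [div_le_iff₀ hε] at b
  rw [div_le_iff₀ (by positivity)]
  nlinarith [mul_nonneg (mul_nonneg hε.le (zero_le_one.trans a)) (sub_nonneg.2 a)]

variable (P x) in
theorem g1_sub (hM : Big M) (E : ℕ) :
    ∃ L, Sub M L ∧ Whp P fun n ω => CG (P n) (x n) E (L n) ω :=
  ⟨_, Sub.nat hM, g1_up P x E fun K => (hM.ev K).mono fun _ a => by linarith⟩

variable (P x) in
theorem g1_dl (hM : Big M) (E : ℕ) (hc : 0 < c) :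
    Whp P fun n ω => CG (P n) (x n) E (dl M c n)⁻¹ ω := g1_up P x E fun K => big_dl hM K hc

/-- The lower bound, for one sequence of polynomials. -/
theorem g1_seq (h : NL P x M Z) {E : ℕ} {f : ∀ n, Ω n → ℝ} (hf : ∀ n, Pl (x n) E (f n))
    (hc : 0 < c) : Whp P fun n ω => dl M c n * nu (P n) (f n) ≤ |f n ω| :=
  (h E c (fun _ n _ => f n) hc fun _ n _ => hf n).mono (Eventually.of_forall fun n ω _ k => by
    rcases (PM.nu_nn (P n) (f n)).eq_or_lt with e | e
    · rw [← e, mul_zero]; exact abs_nonneg _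
    · exact (not_le.1 fun k' => k ⟨rfl, e, k'⟩).le)

/-- The lower bound, uniformly in the polynomial. -/
theorem g1_lo (h : NL P x M Z) (E : ℕ) (hc : 0 < c) {ε : ℝ} (hε : 0 < ε) :
    ∀ᶠ n in UF, ∀ f, Pl (x n) E f →
      pb (P n) (fun ω => ¬dl M c n * nu (P n) f ≤ |f ω|) ≤ ε :=
  R4.unif' (fun n => ⟨_, PM.pl_const (x n) E 0⟩) fun _ hf => g1_seq h hf hc ε hε

/-- A point of a given event at which finitely many polynomials have their typical size. -/
theorem g1_pt (hM : Big M) (h : NL P x M Z) (E N : ℕ) (hc : 0 < c) {κ : ℝ} (hκ : 0 < κ) :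
    ∀ᶠ n in UF, ∀ (ι : Type) (T : Finset ι) (f : ι → Ω n → ℝ) (A : Ω n → Prop), T.card ≤ N →
      (∀ i ∈ T, Pl (x n) E (f i)) → κ ≤ pb (P n) A → ∃ ω ∈ (P n).S, A ω ∧
        CG (P n) (x n) E (dl M c n)⁻¹ ω ∧ ∀ i ∈ T, dl M c n * nu (P n) (f i) ≤ |f i ω| := by
  have p : 0 < κ / (N + 2) := by positivity
  filter_upwards [g1_dl P x hM E hc _ p, g1_lo h E hc p] with n a b ι T f A hT hf hA
  have h1 : ∀ T : Finset ι, (∀ i ∈ T, Pl (x n) E (f i)) →
      pb (P n) (fun ω => ¬∀ i ∈ T, dl M c n * nu (P n) (f i) ≤ |f i ω|) ≤ T.card * (κ / (N + 2)) := by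
    classical
    intro T
    induction T using Finset.induction_on with
    | empty => exact fun _ => (pb_zero fun ω _ k => k (by simp)).trans_le (by simp)
    | insert i T hi ih =>
      intro hf
      rw [Finset.card_insert_of_notMem hi, Nat.cast_succ, add_mul, one_mul, add_comm]
      refine le_trans (pb_mono fun ω _ k => ?_) ((pb_or _ _ _).trans
        (add_le_add (b _ (hf i (by simp))) (ih fun j hj => hf j (by simp [hj]))))
      rwa [Finset.forall_mem_insert, not_and_or] at k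
  by_contra k
  have h2 := hA.trans ((pb_mono fun ω hω (e : A ω) =>
    not_and_or.1 fun e' => k ⟨ω, hω, e, e'⟩).trans (pb_or _ _ _))
  have h3 : (T.card : ℝ) * (κ / (N + 2)) ≤ N * (κ / (N + 2)) := by gcongr
  have h4 : κ = (N + 2) * (κ / (N + 2)) := by field_simp
  linarith [h1 T hf]

/-- Products. -/
theorem mult_prod (hM : Big M) (h : NL P x M Z) (E N : ℕ) (hc : 0 < c) :
    ∀ᶠ n in UF, ∀ (ι : Type) (T : Finset ι) (f : ι → Ω n → ℝ), T.card ≤ N →
      (∀ i ∈ T, Pl (x n) E (f i)) →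
      dl M c n * ∏ i ∈ T, nu (P n) (f i) ≤ nu (P n) (fun ω => ∏ i ∈ T, f i ω) ∧
      dl M c n * nu (P n) (fun ω => ∏ i ∈ T, f i ω) ≤ ∏ i ∈ T, nu (P n) (f i) := by
  have p : 0 < c / (N + 1) := by positivity
  filter_upwards [g1_pt hM h ((N + 1) * E) (N + 1) p one_pos] with n a ι T f hT hf
  have hp : Pl (x n) ((N + 1) * E) fun ω => ∏ i ∈ T, f i ω :=
    pl_mono (PM.pl_prod T hf) (Nat.mul_le_mul_right _ (by omega))
  have hf' : ∀ i ∈ T, Pl (x n) ((N + 1) * E) (f i) := fun i hi =>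
    pl_mono (hf i hi) (Nat.le_mul_of_pos_left _ (by omega))
  set q := dl M (c / (N + 1)) n with hq
  have q0 : 0 < q := dl_pos _ _ _
  have e : dl M c n ≤ q ^ T.card * q := by
    rw [← pow_succ, hq, dl_pow]
    refine dl_anti M ?_ n
    rw [← mul_div_assoc, div_le_iff₀ (by positivity), mul_comm]
    have : (T.card : ℝ) ≤ N := by exact_mod_cast hT
    push_cast
    gcongr
  constructor
  · obtain ⟨ω, -, -, u, v⟩ := a ι T f (fun _ => True) (by omega) hf' (pb_true _).ge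
    have h1 := u _ hp
    have h2 : ∏ i ∈ T, q * nu (P n) (f i) ≤ ∏ i ∈ T, |f i ω| :=
      Finset.prod_le_prod (fun i _ => mul_nonneg q0.le (PM.nu_nn _ _)) v
    rw [Finset.prod_mul_distrib, Finset.prod_const, ← Finset.abs_prod] at h2
    rw [inv_mul_eq_div, le_div_iff₀ q0] at h1
    have h3 := Finset.prod_nonneg fun i (_ : i ∈ T) => PM.nu_nn (P n) (f i)
    nlinarith [mul_le_mul_of_nonneg_right e h3, mul_le_mul_of_nonneg_right h2 q0.le]
  · obtain ⟨ω, -, -, u, v⟩ := a Unit {()} (fun _ ω => ∏ i ∈ T, f i ω) (fun _ => True) (by simp)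
      (fun _ _ => hp) (pb_true _).ge
    have h1 := v () (by simp)
    have h2 : ∏ i ∈ T, q * |f i ω| ≤ ∏ i ∈ T, nu (P n) (f i) :=
      Finset.prod_le_prod (fun i _ => by positivity) fun i hi => by
        have := u _ (hf' i hi)
        rwa [inv_mul_eq_div, le_div_iff₀ q0, mul_comm] at this
    rw [Finset.prod_mul_distrib, Finset.prod_const, ← Finset.abs_prod] at h2
    have h3 := PM.nu_nn (P n) fun ω => ∏ i ∈ T, f i ω
    nlinarith [mul_le_mul_of_nonneg_right e h3,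
      mul_le_mul_of_nonneg_left h1 (pow_pos q0 T.card).le]

/-- Two factors. -/
theorem mult (hM : Big M) (h : NL P x M Z) (E : ℕ) (hc : 0 < c) :
    ∀ᶠ n in UF, ∀ f g, Pl (x n) E f → Pl (x n) E g →
      dl M c n * (nu (P n) f * nu (P n) g) ≤ nu (P n) (fun ω => f ω * g ω) ∧
      dl M c n * nu (P n) (fun ω => f ω * g ω) ≤ nu (P n) f * nu (P n) g :=
  (mult_prod hM h E 2 hc).mono fun n a f g hf hg => by
    simpa using a Bool Finset.univ (fun b => cond b f g) (by simp) fun b _ => by cases b <;> assumption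

/-- Powers. -/
theorem mult_pow (hM : Big M) (h : NL P x M Z) (E N : ℕ) (hc : 0 < c) :
    ∀ᶠ n in UF, ∀ f, ∀ k ≤ N, Pl (x n) E f →
      dl M c n * nu (P n) f ^ k ≤ nu (P n) (fun ω => f ω ^ k) ∧
      dl M c n * nu (P n) (fun ω => f ω ^ k) ≤ nu (P n) f ^ k :=
  (mult_prod hM h E N hc).mono fun n a f k hk hf => by
    simpa using a ℕ (Finset.range k) (fun _ => f) (by simpa using hk) fun _ _ => hf

end Pool.Agent.MP_5168f5_an.AN.Pk
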