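import Pool.Agent.MP_5168f5_an.AN.S20LF
import Pool.Agent.MP_5168f5_an.AN.A1Flr
import Pool.Agent.MP_5168f5_an.AN.PMul

/-! Kakeya sets in all dimensions: independent noise, one space. -/

namespace Pool.Agent.MP_5168f5_an.AN.S20

open H19 H17S H17F R4 Filter MvPolynomial
open G39 (nu RG dl ind pb_ind)
open Pk (cn kc mons)
open Nc (Pl)

section Prod

variable {Ω Ω' β : Type} {P : FP Ω} {Q : FP Ω'}

theorem mem_prod (v : Ω × Ω') : v ∈ (prod P Q).S ↔ v.1 ∈ P.S ∧ v.2 ∈ Q.S := mem_bind _ _ v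

theorem E_prod (P : FP Ω) (Q : FP Ω') (F : Ω × Ω' → ℝ) :
    (prod P Q).E F = P.E fun a => Q.E fun t => F (a, t) := E_bind _ _ F

theorem E_swap (P : FP Ω) (Q : FP Ω') (F : Ω → Ω' → ℝ) :
    P.E (fun a => Q.E (F a)) = Q.E fun t => P.E fun a => F a t := by
  simp only [FP.E, Finset.mul_sum]
  rw [Finset.sum_comm]
  exact Finset.sum_congr rfl fun _ _ => Finset.sum_congr rfl fun _ _ => by ring

theorem law_fst (P : FP Ω) (Q : FP Ω') : Law (prod P Q) Prod.fst P id := fun F => by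
  rw [E_prod]
  simp only [FP.E_const, id]

theorem law_snd (P : FP Ω) (Q : FP Ω') : Law (prod P Q) Prod.snd Q id := fun F => by
  rw [E_prod]
  exact P.E_const (Q.E F)

theorem pb_prod (P : FP Ω) (Q : FP Ω') (E : Ω × Ω' → Prop) :
    pb (prod P Q) E = P.E fun a => pb Q fun t => E (a, t) := E_prod P Q _

theorem pb_prod' (P : FP Ω) (Q : FP Ω') (E : Ω × Ω' → Prop) :
    pb (prod P Q) E = Q.E fun t => pb P fun a => E (a, t) :=
  (E_prod P Q _).trans (E_swap P Q fun a t => ind (E (a, t)))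

theorem cE_prod {E : Ω → Prop} (h : ∃ ω ∈ P.S, E ω) (Q : FP Ω') :
    cE (prod P Q) (fun v => E v.1) = prod (cE P E) Q := by
  obtain ⟨t, ht, -⟩ := ex_of_pb (P := Q) (E := fun _ => True) (by rw [pb_true]; exact one_pos)
  have h' : ∃ v ∈ (prod P Q).S, E v.1 :=
    let ⟨ω, a, b⟩ := h
    ⟨(ω, t), (mem_prod _).2 ⟨a, ht⟩, b⟩
  refine FP.ext' (Finset.ext fun v => ?_) ?_
  · rw [mem_cE h', mem_prod, mem_prod, mem_cE h]
    tauto
  · rw [cE_p h', (law_fst P Q).pb_eq E]
    funext v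
    change P.p v.1 * Q.p v.2 / _ = (cE P E).p v.1 * Q.p v.2
    rw [cE_p h, div_mul_eq_mul_div]
    rfl

theorem cv_prod {ω : Ω} (h : ω ∈ P.S) (Q : FP Ω') (A : Ω → β) :
    cv (prod P Q) (fun v => A v.1) (A ω) = prod (cv P A (A ω)) Q :=
  cE_prod (E := fun v => A v = A ω) ⟨ω, h, rfl⟩ Q

theorem pb_cv_fst {ω : Ω} (h : ω ∈ P.S) (Q : FP Ω') (E : Ω × Ω' → Prop) :
    pb (cv (prod P Q) Prod.fst ω) E = pb Q fun t => E (ω, t) := by
  rw [show cv (prod P Q) Prod.fst ω = _ from cv_prod h Q id, pb_prod]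
  refine (FP.E_congr _ fun a ha => ?_).trans (FP.E_const _ _)
  rw [show a = ω from ((mem_cv (A := id) h a).1 ha).2]

theorem nu_up {f : Ω × Ω' → ℝ} {B : Ω → ℝ} (h : ∀ a ∈ P.S, ∀ t, |f (a, t)| ≤ |B a|) :
    nu (prod P Q) f ≤ nu P B :=
  (Pk.nu_mono (g := fun v => B v.1) fun v hv => h v.1 ((mem_prod v).1 hv).1 v.2).trans_eq
    (congrArg _ (law_fst P Q fun a => B a ^ 2))

theorem nu_low {f : Ω × Ω' → ℝ} {B : Ω → ℝ} {C : ℝ} (h0 : 0 ≤ C)
    (h : ∀ a ∈ P.S, |B a| ≤ C * nu Q fun t => f (a, t)) : nu P B ≤ C * nu (prod P Q) f := by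
  rw [← abs_of_nonneg h0, ← Pk.PM.nu_smul]
  refine Real.sqrt_le_sqrt ?_
  rw [E_prod]
  refine P.E_mono fun a ha => ?_
  simp only [mul_pow, FP.E_mul]
  rw [← A1.nu_sq, ← mul_pow, ← sq_abs]
  exact pow_le_pow_left₀ (abs_nonneg _) (h a ha) 2

end Prod

section Grid

variable {N J : ℕ}

theorem gp_box (a : Fin N → Fin (2 ^ J)) (i : Fin N) : 0 ≤ gp a i ∧ gp a i < 1 :=
  ⟨by unfold gp; positivity, (div_lt_one (by positivity)).2 (by exact_mod_cast (a i).2)⟩

theorem gp_norm (a : Fin N → Fin (2 ^ J)) : ‖gp a‖ ≤ 1 := norm_le_one_of_box (gp_box a)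

theorem gp_abs (a : Fin N → Fin (2 ^ J)) (i : Fin N) : |gp a i| ≤ 1 :=
  (norm_le_pi_norm (gp a) i).trans (gp_norm a)

theorem fl_gp (a : Fin N → Fin (2 ^ J)) (i : Fin N) : fl1 J (gp a i) = (a i : ℕ) := by
  rw [fl1, gp, mul_div_cancel₀ _ (by positivity), Int.floor_natCast]

theorem pb_grid (N J : ℕ) (c : Fin N → ℤ) :
    pb (grid N J) (fun a => True ∧ flv J (gp a) = c) ≤ 1 / (2 ^ J) ^ N := by
  classical
  rw [pb_eq]
  refine (Finset.sum_le_card_nsmul _ _ (1 / (2 ^ J) ^ N) fun a _ => le_of_eq ?_).trans ?_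
  · simp [grid, FP.unif]
  · rw [nsmul_eq_mul]
    refine mul_le_of_le_one_left (by positivity) ?_
    exact_mod_cast Finset.card_le_one.2 fun a ha b hb => funext fun i => Fin.ext (by
      simp only [Finset.mem_filter] at ha hb
      have := congrFun (ha.2.2.trans hb.2.2.symm) i
      simp only [flv, fl_gp] at this
      exact_mod_cast this)

/-- Inequalities for polynomials on the grid. -/
theorem grid_poly (N E : ℕ) : ∃ C : ℝ, 1 ≤ C ∧ ∀ (J : ℕ) (g : Pl N), g.totalDegree ≤ E →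
    (∀ θ κ : ℝ, 0 < κ → C * (C / κ) ^ (N * E) ≤ 2 ^ J →
      κ ≤ pb (grid N J) (fun a => |eval (gp a) g| ≤ θ) → cn g ≤ C * (C / κ) ^ (N * E) * θ) ∧
    (∀ μ : ℝ, 0 < μ → C ≤ μ ^ (N * E) * 2 ^ J →
      pb (grid N J) (fun a => C * |eval (gp a) g| < μ ^ (N * E) * cn g) ≤ C * μ) ∧
    (C * (2 * C) ^ (N * E) ≤ 2 ^ J →
      cn g ≤ 2 * C * (2 * C) ^ (N * E) * nu (grid N J) fun a => eval (gp a) g) := by
  obtain ⟨C, c1, r⟩ := Pk.remD N E
  obtain ⟨C', c2, s⟩ := Pk.subP N E
  have l1 := le_max_left C C'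
  have l2 := le_max_right C C'
  have k : ∀ (J : ℕ) (g : Pl N), g.totalDegree ≤ E → ∀ θ κ : ℝ, 0 < κ →
      max C C' * (max C C' / κ) ^ (N * E) ≤ 2 ^ J →
      κ ≤ pb (grid N J) (fun a => |eval (gp a) g| ≤ θ) →
      cn g ≤ max C C' * (max C C' / κ) ^ (N * E) * θ := fun J g hg θ κ k0 k1 k2 => by
    obtain ⟨a, -, ha⟩ := ex_of_pb (k0.trans_le k2)
    have t0 := (abs_nonneg _).trans ha
    have m : C * (C / κ) ^ (N * E) ≤ max C C' * (max C C' / κ) ^ (N * E) := by gcongr
    refine le_trans ?_ (mul_le_mul_of_nonneg_right m t0)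
    simpa using r (grid N J) gp (fun _ => True) g 1 1 θ κ J hg le_rfl le_rfl
      (fun a _ _ => gp_norm a) (pb_grid N J) k0 (by simpa using m.trans k1) (by simpa using k2)
  refine ⟨max C C', c1.trans l1, fun J g hg => ⟨k J g hg, fun μ m0 m1 => ?_, fun m1 => ?_⟩⟩
  · have := s (grid N J) gp (fun _ => True) g 1 1 μ J hg le_rfl zero_le_one
      (fun a _ _ => gp_norm a) (pb_grid N J) m0 (by simpa using l2.trans m1)
    simp only [true_and, mul_one, one_pow] at this
    exact (pb_mono fun a _ e => (mul_le_mul_of_nonneg_right l2 (abs_nonneg _)).trans_lt e).trans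
      (this.trans (mul_le_mul_of_nonneg_right l2 m0.le))
  · have c0 : 0 < max C C' * (2 * max C C') ^ (N * E) := by positivity
    have e : max C C' / (1 / 2) = 2 * max C C' := by ring
    rw [show ∀ a b c : ℝ, 2 * a * b * c = a * b * (2 * c) from fun _ _ _ => by ring,
      ← div_le_iff₀' c0]
    refine le_of_forall_gt_imp_ge_of_dense fun s hs => ?_
    rw [div_le_iff₀' c0, ← e]
    exact k J g hg s (1 / 2) one_half_pos (e ▸ m1)
      (le_trans (by norm_num) ((A1.cheb _ hs).trans (pb_mono fun _ _ u => u.le)))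

end Grid

section Shift

variable {N E : ℕ} (t : ℝ) (y : V N) (F : Pl N)

/-- The polynomial `F (y + t ξ)` of `ξ`. -/
noncomputable def shA : Pl N := aeval (fun i => C (y i) + C t * X i) F

/-- The polynomial `F (y + t ξ)` of `ξ` with coefficients that are polynomials of `y`. -/
noncomputable def shP : MvPolynomial (Fin N) (Pl N) := aeval (fun i => C (X i) + C (C t) * X i) F

theorem eval_shA (ξ : V N) : eval ξ (shA t y F) = eval (y + t • ξ) F := by
  rw [shA, Nc.eval_aeval]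
  congr 2
  funext i
  simp [Nc.ev]

theorem map_shP : map (eval y) (shP t F) = shA t y F := by
  unfold shP shA
  induction F using MvPolynomial.induction_on with
  | C c => simp [MvPolynomial.algebraMap_apply]
  | add p q hp hq => simp only [map_add, hp, hq]
  | mul_X p i hp => simp only [map_mul, hp, aeval_X, map_add, map_C, map_X, eval_X, eval_C]

theorem coeff_shA (α : Fin N →₀ ℕ) : coeff α (shA t y F) = eval y (coeff α (shP t F)) := by
  rw [← map_shP, coeff_map]

theorem pderiv_shA (i : Fin N) : pderiv i (shA t y F) = C t * shA t y (pderiv i F) := by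
  classical
  unfold shA
  induction F using MvPolynomial.induction_on with
  | C c => simp
  | add p q hp hq => simp only [map_add, hp, hq, mul_add]
  | mul_X p l hp =>
    simp only [map_mul, aeval_X, Derivation.leibniz, hp, smul_eq_mul, map_add, pderiv_C,
      pderiv_X, Pi.single_apply]
    split_ifs <;> simp <;> ring

variable {F}

theorem deg_shA (hF : F.totalDegree ≤ E) : (shA t y F).totalDegree ≤ E := by
  exact (kc.deg (fun i => C (y i) + C t * X i) F E 1 hF fun i => (totalDegree_add _ _).trans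
    (max_le (by simp) ((totalDegree_mul _ _).trans (by simp)))).trans_eq (mul_one E)

theorem deg_shP (hF : F.totalDegree ≤ E) (α : Fin N →₀ ℕ) :
    (coeff α (shP t F)).totalDegree ≤ E := by
  classical
  let D : ℕ → MvPolynomial (Fin N) (Pl N) → Prop := fun e G => ∀ α, (coeff α G).totalDegree ≤ e
  have dm : ∀ e e' G G', D e G → D e' G' → D (e + e') (G * G') := fun e e' G G' a b α => by
    rw [coeff_mul]
    exact totalDegree_finsetSum_le fun p _ => (totalDegree_mul _ _).trans (add_le_add (a _) (b _))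
  have dc : ∀ e (c : Pl N), c.totalDegree ≤ e → D e (C c) := fun e c h α => by
    rw [coeff_C]
    split_ifs <;> simp [h]
  have d1 : ∀ i, D 1 (C (X i) + C (C t) * X i) := fun i α => by
    rw [coeff_add, coeff_C_mul, coeff_X]
    refine (totalDegree_add _ _).trans (max_le (dc 1 _ (by simp) α) ?_)
    split_ifs <;> simp
  have dp : ∀ (i : Fin N) (k : ℕ), D k ((C (X i) + C (C t) * X i) ^ k) := by
    intro i k
    induction k with
    | zero => simpa using dc 0 1 (by simp)
    | succ k ih =>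
      rw [pow_succ]
      exact dm _ _ _ _ ih (d1 i)
  have dq : ∀ (s : Fin N →₀ ℕ) (T : Finset (Fin N)),
      D (∑ i ∈ T, s i) (∏ i ∈ T, (C (X i) + C (C t) * X i) ^ s i) := fun s T => by
    induction T using Finset.induction_on with
    | empty => simpa using dc 0 1 (by simp)
    | insert i T hi ih =>
      rw [Finset.sum_insert hi, Finset.prod_insert hi]
      exact dm _ _ _ _ (dp _ _) ih
  rw [shP, aeval_def, eval₂_eq, coeff_sum]
  refine totalDegree_finsetSum_le fun s hs => ?_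
  exact (dm 0 _ _ _ (dc 0 (C (coeff s F)) (by simp)) (dq s s.support) α).trans
    ((zero_add _).le.trans ((le_totalDegree hs).trans hF))

theorem cn_shA (hF : F.totalDegree ≤ E) :
    cn (shA t y F) = ∑ α ∈ mons (Fin N) E, |eval y (coeff α (shP t F))| := by
  rw [kc.sup _ _ ((Pk.pCnt.sup E _).1 (deg_shA t y hF))]
  simp only [coeff_shA]

theorem val_shA (hF : F.totalDegree ≤ E) {ξ : V N} (h : ∀ i, |ξ i| ≤ 1) :
    |eval (y + t • ξ) F| ≤ cn (shA t y F) := by
  simpa [eval_shA] using kc.val _ E 1 ξ (deg_shA t y hF) le_rfl h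

theorem val_shA0 (hF : F.totalDegree ≤ E) : |eval y F| ≤ cn (shA t y F) := by
  simpa using val_shA t y hF (ξ := 0) (by simp)

theorem der_shA (hF : F.totalDegree ≤ E) (i : Fin N) :
    |t| * cn (shA t y (pderiv i F)) ≤ E * cn (shA t y F) := by
  rw [← kc.smul, smul_eq_C_mul, ← pderiv_shA]
  exact (kc.der _ E i (deg_shA t y hF)).1

/-- The coefficients are bounded by derivatives. -/
theorem nu_coeff {Ω : Type} (μ : FP Ω) (x : Ω → V N) {Γ : ℝ} (hΓ : 0 ≤ Γ)
    (h : ∀ G : Pl N, G.totalDegree ≤ E → ∀ i,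
      |t| * nu μ (fun v => eval (x v) (pderiv i G)) ≤ Γ * nu μ fun v => eval (x v) G) :
    ∀ (k : ℕ) (α : Fin N →₀ ℕ), α.degree = k → ∀ G : Pl N, G.totalDegree ≤ E →
      nu μ (fun v => coeff α (shA t (x v) G)) ≤ Γ ^ k * nu μ fun v => eval (x v) G := by
  intro k
  induction k with
  | zero =>
    intro α hα G _
    rw [(Finsupp.degree_eq_zero_iff α).1 hα, pow_zero, one_mul]
    refine le_of_eq (congrArg _ (funext fun v => ?_))
    simpa [constantCoeff_eq] using eval_shA t (x v) G 0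
  | succ k ih =>
    intro α hα G hG
    obtain ⟨i, hi⟩ : ∃ i, α i ≠ 0 := Finsupp.ne_iff.1 fun e : α = 0 => by simp [e] at hα
    obtain ⟨α, rfl⟩ : ∃ α', α = α' + Finsupp.single i 1 :=
      ⟨α - Finsupp.single i 1, (tsub_add_cancel_of_le
        (Finsupp.single_le_iff.2 (Nat.one_le_iff_ne_zero.2 hi))).symm⟩
    have h1 := ih α (by simpa using hα) _ ((kc.der G E i hG).2.trans (Nat.sub_le _ _))
    have h2 := mul_le_mul_of_nonneg_left (h G hG i) (pow_nonneg hΓ k)
    have h3 : nu μ (fun v => coeff (α + Finsupp.single i 1) (shA t (x v) G)) ≤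
        nu μ fun v => t * coeff α (shA t (x v) (pderiv i G)) := Pk.nu_mono fun v _ => by
      rw [← coeff_C_mul, ← pderiv_shA, coeff_pderiv, abs_mul]
      exact le_mul_of_one_le_right (abs_nonneg _) (le_trans (by simp) (le_abs_self _))
    rw [Pk.PM.nu_smul] at h3
    rw [pow_succ]
    nlinarith [mul_le_mul_of_nonneg_left h1 (abs_nonneg t)]

end Shift

end Pool.Agent.MP_5168f5_an.AN.S20
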