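import Pool.Agent.MP_5168f5_an.AN.GAAll

/-! Kakeya sets in all dimensions: estimates for the orbit of the base vector. -/

namespace Pool.Agent.MP_5168f5_an.AN.N6

open H19 H17S H17F G39 Filter H61Z GA IsNilpotent Finset

/-- Functions of polynomial growth. -/
def PG (f : ℝ → ℝ) : Prop := (∀ L, 1 ≤ L → 1 ≤ f L) ∧
  ∀ (M : ℕ → ℕ) (L : ℕ → ℝ), Big M → Sub M L → Sub M fun n => f (L n)

section PG

variable {f g : ℝ → ℝ}

theorem pg_id : PG fun L => L := ⟨fun _ h => h, fun _ _ _ h => h⟩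

theorem pg_const {C : ℝ} (h : 1 ≤ C) : PG fun _ => C := ⟨fun _ _ => h, fun _ _ a _ => a.sub h⟩

theorem pg_nat (k : ℕ) : PG fun _ => (k + 1 : ℝ) := pg_const (by simp)

theorem PG.mul (h : PG f) (h' : PG g) : PG fun L => f L * g L :=
  ⟨fun L a => one_le_mul_of_one_le_of_one_le (h.1 L a) (h'.1 L a),
    fun M L a b => (h.2 M L a b).mul (h'.2 M L a b)⟩

theorem PG.add (h : PG f) (h' : PG g) : PG fun L => f L + g L :=
  ⟨fun L a => by linarith [h.1 L a, h'.1 L a],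
    fun M L a b => (h.2 M L a b).add (h'.2 M L a b) a⟩

theorem PG.pow (h : PG f) (k : ℕ) : PG fun L => f L ^ k :=
  ⟨fun L a => one_le_pow₀ (h.1 L a), fun M L a b => (h.2 M L a b).pow k⟩

theorem PG.comp (h : PG f) (h' : PG g) : PG fun L => f (g L) :=
  ⟨fun L a => h.1 _ (h'.1 L a), fun M L a b => h.2 M _ a (h'.2 M L a b)⟩

theorem pg_box {K : ℕ} (hK : 1 ≤ K) : PG fun L => (K * L) ^ K :=
  ((pg_const (by exact_mod_cast hK)).mul pg_id).pow K

theorem PG.nn (h : PG f) {L : ℝ} (a : 1 ≤ L) : 0 ≤ f L := zero_le_one.trans (h.1 L a)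

end PG

variable {m : ℕ} {κ : Type} [Fintype κ]

/-- The column `o` is bounded by `θ`. -/
def Cb (o : Fin m) (θ : ℝ) (X : Mt (Fin m)) : Prop := ∀ p, |X p o| ≤ θ

/-- All entries are bounded by `L`. -/
def Eb (L : ℝ) (X : Mt (Fin m)) : Prop := ∀ o, Cb o L X

/-- The orbit map. -/
noncomputable def ob (B : κ → Mt (Fin m)) (o : Fin m) (t : κ → ℝ) : V m := fun p => ex B t p o

/-- A graded frame. -/
structure Gr (la : Fin m → ℝ) (wt : κ → ℝ) (B : κ → Mt (Fin m)) (c : κ → κ → κ → ℝ) : Prop where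
  hB : ∀ a p q, B a p q ≠ 0 → la p = la q + wt a
  hc : ∀ a b e, c a b e ≠ 0 → wt e = wt a + wt b

variable {o : Fin m} {θ θ' L : ℝ} {X Y : Mt (Fin m)}

theorem Cb.mono (h : Cb o θ X) (e : θ ≤ θ') : Cb o θ' X := fun p => (h p).trans e

theorem Cb.add (h : Cb o θ X) (h' : Cb o θ' Y) : Cb o (θ + θ') (X + Y) := fun p =>
  (abs_add_le _ _).trans (add_le_add (h p) (h' p))

theorem Cb.neg (h : Cb o θ X) : Cb o θ (-X) := fun p => by
  rw [Matrix.neg_apply, abs_neg]; exact h p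

theorem Cb.mul (h : Eb L X) (h' : Cb o θ Y) (hL : 0 ≤ L) (hθ : 0 ≤ θ) :
    Cb o ((m + 1) * L * θ) (X * Y) := fun p => by
  rw [Matrix.mul_apply]
  refine (abs_sum_le_sum_abs _ _).trans ((sum_le_card_nsmul _ _ (L * θ) fun r _ => ?_).trans ?_)
  · rw [abs_mul]; exact mul_le_mul (h r p) (h' r) (abs_nonneg _) hL
  · simp only [card_univ, Fintype.card_fin, nsmul_eq_mul]
    nlinarith [mul_nonneg hL hθ]

theorem eb_one : Eb 1 (1 : Mt (Fin m)) := fun q p => by
  rw [Matrix.one_apply]; split_ifs <;> simp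

theorem Eb.pow (h : Eb L X) (hL : 1 ≤ L) (i : ℕ) : Eb (((m + 1) * L) ^ i) (X ^ i) := by
  induction i with
  | zero => simpa using eb_one
  | succ i ih =>
    intro q
    rw [pow_succ', pow_succ']
    exact Cb.mul h (ih q) (by linarith) (by positivity)

theorem cb_vec {B : κ → Mt (Fin m)} {t : κ → ℝ} (hθ : 0 ≤ θ) (h : ∀ a p, |t a * B a p o| ≤ θ) :
    Cb o ((Fintype.card κ + 1) * θ) (vec B t) := fun p => by
  rw [vec, Matrix.sum_apply]
  refine (abs_sum_le_sum_abs _ _).trans ((sum_le_card_nsmul _ _ θ fun a _ => h a p).trans ?_)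
  simp only [card_univ, nsmul_eq_mul]; linarith

theorem iter {g : ℝ → ℝ} (hg : PG g) (m k : ℕ) : ∃ f, PG f ∧ ∀ (o : Fin m) (X ψ : Mt (Fin m))
    (L θ : ℝ), 1 ≤ L → 0 ≤ θ → Eb (g L) ψ → Cb o θ (X + ψ * X) →
    Cb o (f L * θ) (X - (-ψ) ^ k * X) := by
  induction k with
  | zero => exact ⟨fun _ => 1, pg_const le_rfl, fun o X ψ L θ _ h _ _ p => by simpa using h⟩
  | succ k ih =>
    obtain ⟨f, hf, ih⟩ := ih
    refine ⟨fun L => 1 + (m + 1) * g L * f L, (pg_const le_rfl).add (((pg_nat m).mul hg).mul hf),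
      fun o X ψ L θ a b c d => ?_⟩
    have e : X - (-ψ) ^ (k + 1) * X = (X + ψ * X) + (-ψ) * (X - (-ψ) ^ k * X) := by
      rw [pow_succ']; noncomm_ring
    rw [e]
    exact (d.add (Cb.mul (fun q => (c q).neg) (ih o X ψ L θ a b c d) (hg.nn a)
      (mul_nonneg (hf.nn a) b))).mono (le_of_eq (by ring))

/-- The exponential moves the base vector as little as its logarithm. -/
theorem exp_est (N m : ℕ) : ∃ f, PG f ∧ ∀ (Φ : Filt (Mt (Fin m))) (X : Mt (Fin m)) (L : ℝ),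
    Φ.N = N → X ∈ Φ.F 0 → 1 ≤ L → Eb L X → Eb (f L) (exp X) ∧ ∀ (o : Fin m) (θ : ℝ), 0 ≤ θ →
      (Cb o θ X → Cb o (f L * θ) (exp X - 1)) ∧ (Cb o θ (exp X - 1) → Cb o (f L * θ) X) := by
  have hg : PG fun L => (N + 1) * ((m + 1) * L) ^ N := (pg_nat N).mul (((pg_nat m).mul pg_id).pow N)
  obtain ⟨f, hf, h⟩ := iter hg m (N + 1)
  have h1 : PG fun L => 1 + (m + 1) * ((N + 1) * ((m + 1) * L) ^ N) :=
    (pg_const le_rfl).add ((pg_nat m).mul hg)
  refine ⟨fun L => (1 + (1 + (m + 1) * ((N + 1) * ((m + 1) * L) ^ N)) * L) + f L,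
    ((pg_const le_rfl).add (h1.mul pg_id)).add hf, fun Φ X L hN hX hL hE => ?_⟩
  subst hN
  set ψ := ∑ i ∈ range Φ.N, (((i + 2).factorial : ℚ))⁻¹ • X ^ (i + 1) with hψ
  have e : exp X - 1 = X + ψ * X := by
    rw [Φ.exp_split hX, hψ, sum_mul]
    simp only [smul_mul_assoc, ← _root_.pow_succ]
    abel
  have m0 : ψ ∈ Φ.F 0 :=
    Submodule.sum_mem _ fun i _ => Submodule.smul_mem _ _ (Φ.le0 _ (Φ.pow_mem hX i))
  have b1 : (1 : ℝ) ≤ (m + 1) * L := one_le_mul_of_one_le_of_one_le (by simp) hL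
  have eψ : Eb ((Φ.N + 1) * ((m + 1) * L) ^ Φ.N) ψ := fun q p => by
    rw [hψ, Matrix.sum_apply]
    refine (abs_sum_le_sum_abs _ _).trans ((sum_le_card_nsmul _ _ (((m + 1) * L) ^ Φ.N)
      fun i hi => ?_).trans ?_)
    · rw [Matrix.smul_apply, Rat.smul_def, abs_mul]
      refine (mul_le_of_le_one_left (abs_nonneg _) ?_).trans ((hE.pow hL (i + 1) q p).trans
        (pow_le_pow_right₀ b1 (mem_range.1 hi)))
      rw [abs_of_nonneg (by positivity)]
      push_cast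
      exact inv_le_one_of_one_le₀ (by exact_mod_cast Nat.factorial_pos _)
    · simp only [card_range, nsmul_eq_mul]
      nlinarith [pow_pos (one_pos.trans_le b1) Φ.N]
  have k1 : ∀ (o : Fin m) (θ : ℝ), 0 ≤ θ → Cb o θ X →
      Cb o ((1 + (m + 1) * ((Φ.N + 1) * ((m + 1) * L) ^ Φ.N)) * θ) (exp X - 1) := fun o θ a b => by
    rw [e]; exact (b.add (Cb.mul eψ b (hg.nn hL) a)).mono (le_of_eq (by ring))
  have p1 := h1.nn hL
  have p2 := hf.nn hL
  refine ⟨fun q => ?_, fun o θ a => ⟨fun b => (k1 o θ a b).mono ?_, fun b => ?_⟩⟩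
  · have := (eb_one q).add (k1 q L (by linarith) (hE q))
    rw [add_sub_cancel] at this
    exact this.mono (by linarith)
  · exact mul_le_mul_of_nonneg_right (by nlinarith) a
  · have := h o X ψ L θ hL a eψ (e ▸ b)
    rw [Φ.pow_zero' (neg_mem m0), zero_mul, sub_zero] at this
    exact this.mono (mul_le_mul_of_nonneg_right (by nlinarith) a)

/-- The orbit map: bounds, right multiplication by small elements, and the converse. -/
theorem ob_est (N m k : ℕ) : ∃ f, PG f ∧ ∀ (κ : Type) [Fintype κ] (Φ : Filt (Mt (Fin m)))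
    (B : κ → Mt (Fin m)) (c : κ → κ → κ → ℝ) (o : Fin m) (L θ : ℝ) (s t : κ → ℝ), Φ.N = N →
    Fintype.card κ = k → IsFr Φ B c → 1 ≤ L → 0 ≤ θ → (∀ a, Eb L (B a)) → (∀ a, |s a| ≤ L) →
    (∀ a, |t a| ≤ L) → ‖ob B o s‖ ≤ f L ∧
      ((∀ a p, |t a * B a p o| ≤ θ) → ‖ob B o (bch N c s t) - ob B o s‖ ≤ f L * θ) ∧
      (‖ob B o (bch N c s t) - ob B o s‖ ≤ θ → Cb o (f L * θ) (vec B t)) := by
  obtain ⟨f, hf, h⟩ := exp_est N m
  have hg : PG fun L => (k + 1) * (L * L) := (pg_nat k).mul (pg_id.mul pg_id)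
  have hF := hf.comp hg
  refine ⟨fun L => (m + 1) * f ((k + 1) * (L * L)) * (f ((k + 1) * (L * L)) * (k + 1)),
    ((pg_nat m).mul hF).mul (hF.mul (pg_nat k)), fun κ _ Φ B c o L θ s t hN hk hB hL hθ eB hs ht => ?_⟩
  have hM := sMul _ _ Φ B c hB
  have v : ∀ u : κ → ℝ, (∀ a, |u a| ≤ L) → Eb ((k + 1) * (L * L)) (vec B u) := fun u hu q =>
    hk ▸ cb_vec (by positivity) fun a p => by
      rw [abs_mul]; exact mul_le_mul (hu a) (eB a q p) (abs_nonneg _) (by linarith)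
  have g1 := hg.1 L hL
  have f1 := hF.1 L hL
  set F := f ((k + 1) * (L * L))
  have a1 := h Φ _ _ hN (hB.mem s) g1 (v s hs)
  have a2 := h Φ _ _ hN (hB.mem t) g1 (v t ht)
  have a3 := h Φ _ _ hN (hB.mem (-s)) g1 (v (-s) fun a => by simpa using hs a)
  have k0 : (1 : ℝ) ≤ k + 1 := by simp
  have m0 : (1 : ℝ) ≤ m + 1 := by simp
  have e : ∀ p, (ob B o (bch N c s t) - ob B o s) p = (ex B s * (ex B t - 1)) p o := fun p => by
    rw [mul_sub, hM.mul, hN, mul_one]; rfl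
  refine ⟨(pi_norm_le_iff_of_nonneg (by positivity)).2 fun p => (a1.1 o p).trans ?_,
    fun b => (pi_norm_le_iff_of_nonneg (by positivity)).2 fun p => ?_, fun b => ?_⟩
  · exact (le_mul_of_one_le_left (by linarith) m0).trans (le_mul_of_one_le_right (by positivity)
      (one_le_mul_of_one_le_of_one_le f1 k0))
  · rw [e]
    exact (Cb.mul a1.1 ((a2.2 o _ (by positivity)).1 (hk ▸ cb_vec hθ b)) (by linarith)
      (by positivity) p).trans (le_of_eq (by ring))
  · have b1 : Cb o θ (ex B s * (ex B t - 1)) := fun p => e p ▸ (norm_le_pi_norm _ p).trans b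
    have b2 := Cb.mul a3.1 b1 (by linarith) hθ
    rw [show exp (vec B (-s)) = ex B (-s) from rfl, ← mul_assoc, (hM.neg s).1, one_mul] at b2
    refine ((a2.2 o _ (by positivity)).2 b2).mono ?_
    have : F * ((m + 1) * F * θ) * 1 ≤ F * ((m + 1) * F * θ) * (k + 1) :=
      mul_le_mul_of_nonneg_left k0 (by positivity)
    linarith

/-- Dilation of a graded frame is a conjugation. -/
theorem conj {la : Fin m → ℝ} {wt : κ → ℝ} {B : κ → Mt (Fin m)} {c : κ → κ → κ → ℝ}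
    {Φ : Filt (Mt (Fin m))} (hB : IsFr Φ B c) (hG : Gr la wt B c) (s : ℝ) (t : κ → ℝ) (p q : Fin m) :
    ex (sB (fun a => Real.exp (-(wt a * s))) B) t p q =
      Real.exp (-((la p - la q) * s)) * ex B t p q := by
  let D : Mt (Fin m) := Matrix.diagonal fun p => Real.exp (-(la p * s))
  let D' : Mt (Fin m) := Matrix.diagonal fun p => Real.exp (la p * s)
  have h1 : D' * D = 1 := by
    simp only [D, D', Matrix.diagonal_mul_diagonal, ← Real.exp_add, add_neg_cancel, Real.exp_zero,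
      Matrix.diagonal_one]
  have h2 : D * D' = 1 := mul_eq_one_comm.1 h1
  let φ : Mt (Fin m) →+* Mt (Fin m) :=
    { toFun := fun Y => D * Y * D'
      map_one' := by rw [mul_one, h2]
      map_mul' := fun Y Z => by
        calc D * (Y * Z) * D' = D * Y * (D' * D) * Z * D' := by rw [h1]; noncomm_ring
          _ = _ := by noncomm_ring
      map_zero' := by simp
      map_add' := fun Y Z => by noncomm_ring }
  have h3 : ∀ (Y : Mt (Fin m)) p q, φ Y p q = Real.exp (-((la p - la q) * s)) * Y p q :=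
    fun Y p q => by
      show (D * Y * D') p q = _
      simp only [D, D', Matrix.mul_diagonal, Matrix.diagonal_mul]
      rw [mul_right_comm, ← Real.exp_add]
      congr 2; ring
  have h4 : vec (sB (fun a => Real.exp (-(wt a * s))) B) t = φ (vec B t) := by
    ext p q
    rw [h3, vec, vec, Matrix.sum_apply, Matrix.sum_apply, mul_sum]
    refine sum_congr rfl fun a _ => ?_
    simp only [sB, Matrix.smul_apply, smul_eq_mul]
    by_cases x : B a p q = 0
    · simp [x]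
    · rw [hG.hB a p q x]; ring_nf
  rw [ex, h4, ← map_exp (Φ.nil (hB.mem t)) φ, h3, ex]

end Pool.Agent.MP_5168f5_an.AN.N6
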