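import Pool.Agent.MP_5168f5_an.AN.G39Res

/-! Chains of conditionally independent copies. -/

namespace Pool.Agent.MP_5168f5_an.AN.G39

open H19 H17S H17F Filter MvPolynomial

section One

variable {Ω β : Type} {d : ℕ}

open Classical in
/-- The indicator. -/
noncomputable def ind (p : Prop) : ℝ := if p then 1 else 0

theorem ind_pos {p : Prop} (h : p) : ind p = 1 := if_pos h

theorem ind_neg {p : Prop} (h : ¬p) : ind p = 0 := if_neg h

theorem ind_nn (p : Prop) : 0 ≤ ind p := by unfold ind; split_ifs <;> norm_num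

theorem ind_le (p : Prop) : ind p ≤ 1 := by unfold ind; split_ifs <;> norm_num

theorem pb_ind (P : FP Ω) (S : Ω → Prop) : pb P S = P.E fun ω => ind (S ω) := rfl

theorem markov (P : FP Ω) {u : Ω → ℝ} (h : ∀ ω ∈ P.S, 0 ≤ u ω) (η : ℝ) :
    η * pb P (fun ω => η ≤ u ω) ≤ P.E u := by
  rw [pb_ind, ← P.E_mul]
  refine P.E_mono fun ω hω => ?_
  by_cases e : η ≤ u ω
  · rwa [ind_pos e, mul_one]
  · rw [ind_neg e, mul_zero]; exact h ω hω

theorem rev_markov (P : FP Ω) {u : Ω → ℝ} (h : ∀ ω ∈ P.S, u ω ≤ 1) {κ : ℝ} (h0 : 0 ≤ κ)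
    (e : κ ≤ P.E u) : κ / 2 ≤ pb P fun ω => κ / 2 ≤ u ω := by
  have : P.E u ≤ P.E fun ω => ind (κ / 2 ≤ u ω) + κ / 2 := P.E_mono fun ω hω => by
    by_cases k : κ / 2 ≤ u ω
    · rw [ind_pos k]; linarith [h ω hω]
    · rw [ind_neg k]; linarith [not_le.1 k]
  rw [P.E_add, P.E_const, ← pb_ind] at this
  linarith

theorem E_cv (P : FP Ω) (Y : Ω → β) (g : Ω → ℝ) (A : β → ℝ) :
    P.E (fun ω => g ω * A (Y ω)) = P.E fun ω => (cv P Y (Y ω)).E g * A (Y ω) := by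
  rw [KEA.exp P Y fun z ω => g ω * A z]
  refine P.E_congr fun ω _ => ?_
  rw [mul_comm, ← FP.E_mul]
  exact FP.E_congr _ fun _ _ => mul_comm _ _

theorem E_adj (P : FP Ω) (Y : Ω → β) (g h : Ω → ℝ) :
    P.E (fun ω => g ω * (cv P Y (Y ω)).E h) = P.E fun ω => (cv P Y (Y ω)).E g * h ω := by
  rw [E_cv P Y g fun z => (cv P Y z).E h]
  have := E_cv P Y h fun z => (cv P Y z).E g
  simp only [mul_comm] at this ⊢
  exact this.symm

theorem pb_fib (P : FP Ω) (Y : Ω → β) (A : β → Prop) (B : β → Ω → Prop) {κ : ℝ}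
    (h : ∀ ω ∈ P.S, A (Y ω) → κ ≤ pb (cv P Y (Y ω)) (B (Y ω))) :
    κ * pb P (fun ω => A (Y ω)) ≤ pb P fun ω => A (Y ω) ∧ B (Y ω) ω := by
  rw [pb_ind, pb_ind, KEA.exp P Y fun z ω => ind (A z ∧ B z ω), ← P.E_mul]
  refine P.E_mono fun ω hω => ?_
  by_cases e : A (Y ω)
  · rw [ind_pos e, mul_one]
    exact (h ω hω e).trans (pb_mono fun v _ k => ⟨e, k⟩)
  · rw [ind_neg e, mul_zero]; exact FP.E_nonneg _ fun _ _ => ind_nn _

/-- Trajectories. -/
def Tr (Ω : Type) : List Bool → Type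
  | [] => Unit
  | _ :: w => Ω × Tr Ω w

variable (P : FP Ω) (Z : Bool → Ω → β)

/-- The law of the chain that starts at `ω`. -/
noncomputable def ker : (w : List Bool) → Ω → FP (Tr Ω w)
  | [], _ => ⟨{()}, fun _ => 1, fun _ _ => one_pos, Finset.sum_singleton _ _⟩
  | a :: w, ω => H17F.bind (cv P (Z a) (Z a ω)) (ker w)

/-- The end point. -/
def en : (w : List Bool) → Ω → Tr Ω w → Ω
  | [], ω, _ => ω
  | _ :: w, _, t => en w t.1 t.2

/-- The probability that the chain ends in `S`. -/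
noncomputable def tp (w : List Bool) (S : Ω → Prop) (ω : Ω) : ℝ :=
  pb (ker P Z w ω) fun t => S (en w ω t)

theorem tp_nil (S : Ω → Prop) (ω : Ω) : tp P Z [] S ω = ind (S ω) :=
  (ker P Z [] ω).E_const (ind (S ω))

theorem tp_cons (a : Bool) (w : List Bool) (S : Ω → Prop) (ω : Ω) :
    tp P Z (a :: w) S ω = (cv P (Z a) (Z a ω)).E (tp P Z w S) := E_bind _ _ _

variable {P Z}

theorem en_mem : ∀ (w : List Bool) {ω : Ω}, ω ∈ P.S → ∀ t ∈ (ker P Z w ω).S, en w ω t ∈ P.S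
  | [], _, h, _, _ => h
  | _ :: w, _, _, t, ht => en_mem w (cE_sub ((mem_bind _ _ t).1 ht).1) _ ((mem_bind _ _ t).1 ht).2

theorem E_tp (S : Ω → Prop) : ∀ w : List Bool, P.E (tp P Z w S) = pb P S
  | [] => P.E_congr fun ω _ => tp_nil P Z S ω
  | a :: w => by
    rw [← E_tp S w, KEA.exp P (Z a) fun _ => tp P Z w S]
    exact P.E_congr fun ω _ => tp_cons P Z a w S ω

theorem tp_mono (w : List Bool) {S S' : Ω → Prop} {ω : Ω} (hω : ω ∈ P.S)
    (h : ∀ v ∈ P.S, S v → S' v) : tp P Z w S ω ≤ tp P Z w S' ω :=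
  pb_mono fun t ht => h _ (en_mem w hω t ht)

variable {x : Ω → Fin d → ℝ} {G : Ω → Prop} {E C : ℕ} {Γ k0 : ℝ}

theorem RG.mono {Y : Ω → β} {G' : Ω → Prop} {Γ' : ℝ} (h : RG P x Y G E C Γ k0) (h0 : 0 < k0)
    (e : ∀ ω, G' ω → G ω) (e' : Γ ≤ Γ') : RG P x Y G' E C Γ' k0 := fun ω hω g f hf θ κ a b => by
  obtain ⟨v, -, hv⟩ := ex_of_pb ((h0.trans_le a).trans_le b)
  have h1 := (abs_nonneg _).trans hv.2
  have h2 := h0.trans_le a
  exact (h ω hω (e ω g) f hf θ κ a (b.trans (pb_mono fun v _ k => ⟨e v k.1, k.2⟩))).trans (by gcongr)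

variable (P Z G) in
/-- The expected number of visits to the bad set. -/
noncomputable def esc : List Bool → Ω → ℝ
  | [] => fun _ => 0
  | a :: w => fun ω => (cv P (Z a) (Z a ω)).E fun v => ind (¬G v) + esc w v

theorem esc_nn : ∀ (w : List Bool) (ω : Ω), 0 ≤ esc P Z G w ω
  | [], _ => le_rfl
  | _ :: w, _ => FP.E_nonneg _ fun v _ => add_nonneg (ind_nn _) (esc_nn w v)

theorem E_esc : ∀ w : List Bool, P.E (esc P Z G w) = w.length * pb P fun ω => ¬G ω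
  | [] => by simpa [esc] using P.E_const 0
  | a :: w => by
    have := KEA.exp P (Z a) fun _ v => ind (¬G v) + esc P Z G w v
    rw [P.E_add, E_esc w, ← pb_ind] at this
    rw [List.length_cons, Nat.cast_succ, add_mul, one_mul, add_comm, this]
    rfl

theorem fwd (hR : ∀ a, RG P x (Z a) G E C Γ k0) {f : Ω → ℝ} (hf : Pl x E f) {η : ℝ} (h0 : 0 ≤ η)
    (hη : k0 ≤ η) : ∀ (w : List Bool) (g : Ω → ℝ) (θ : ℝ), (∀ ω, 0 ≤ g ω ∧ g ω ≤ 1) →
    P.E (fun ω => g ω * tp P Z w (fun v => ¬|f v| ≤ (Γ * η⁻¹ ^ (C * E)) ^ w.length * θ) ω) ≤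
      P.E (fun ω => g ω * ind (¬(G ω ∧ |f ω| ≤ θ))) + w.length * η +
        P.E fun ω => g ω * esc P Z G w ω
  | [], g, θ, hg => by
    simp only [List.length_nil, pow_zero, one_mul, Nat.cast_zero, zero_mul, add_zero, esc, mul_zero,
      FP.E_const, tp_nil]
    refine P.E_mono fun ω _ => mul_le_mul_of_nonneg_left ?_ (hg ω).1
    by_cases e : |f ω| ≤ θ
    · rw [ind_neg (not_not.2 e)]; exact ind_nn _
    · rw [ind_pos e, ind_pos fun k => e k.2]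
  | a :: w, g, θ, hg => by
    set q := Γ * η⁻¹ ^ (C * E) with hq
    set g' : Ω → ℝ := fun ω => (cv P (Z a) (Z a ω)).E g with hg'
    have b : ∀ ω, 0 ≤ g' ω ∧ g' ω ≤ 1 := fun ω => ⟨FP.E_nonneg _ fun v _ => (hg v).1,
      (FP.E_mono _ fun v _ => (hg v).2).trans_eq (FP.E_const _ 1)⟩
    have ih := fwd hR hf h0 hη w g' (q * θ) b
    set A : β → ℝ := fun z => ind (pb (cv P (Z a) z) (fun v => G v ∧ |f v| ≤ θ) < η) with hA
    have h1 : P.E (fun ω => g' ω * ind (¬(G ω ∧ |f ω| ≤ q * θ))) ≤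
        P.E fun ω => g' ω * ind (¬G ω) + g' ω * A (Z a ω) := P.E_mono fun ω hω => by
      rw [← mul_add]
      refine mul_le_mul_of_nonneg_left ?_ (b ω).1
      by_cases e : G ω
      · by_cases e' : pb (cv P (Z a) (Z a ω)) (fun v => G v ∧ |f v| ≤ θ) < η
        · linarith [ind_le (¬(G ω ∧ |f ω| ≤ q * θ)), ind_nn (¬G ω), show A (Z a ω) = 1 from ind_pos e']
        · rw [ind_neg (not_not.2 ⟨e, hR a ω hω e f hf θ η hη (not_lt.1 e')⟩)]
          exact add_nonneg (ind_nn _) (ind_nn _)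
      · linarith [ind_le (¬(G ω ∧ |f ω| ≤ q * θ)), ind_pos e, (ind_nn _ : 0 ≤ A (Z a ω))]
    have h2 : P.E (fun ω => g ω * A (Z a ω)) ≤
        P.E fun ω => g ω * ind (¬(G ω ∧ |f ω| ≤ θ)) + ind (G ω ∧ |f ω| ≤ θ) * A (Z a ω) :=
      P.E_mono fun ω _ => by
        have u := hg ω
        have v : 0 ≤ A (Z a ω) ∧ A (Z a ω) ≤ 1 := ⟨ind_nn _, ind_le _⟩
        by_cases e : G ω ∧ |f ω| ≤ θ
        · rw [ind_pos e, ind_neg (not_not.2 e)]; nlinarith
        · rw [ind_neg e, ind_pos e]; nlinarith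
    have h3 : P.E (fun ω => ind (G ω ∧ |f ω| ≤ θ) * A (Z a ω)) ≤ η := by
      rw [E_cv, ← P.E_const η]
      refine P.E_mono fun ω _ => ?_
      by_cases e' : pb (cv P (Z a) (Z a ω)) (fun v => G v ∧ |f v| ≤ θ) < η
      · rw [show A (Z a ω) = 1 from ind_pos e', mul_one]; exact e'.le
      · rw [show A (Z a ω) = 0 from ind_neg e', mul_zero]; exact h0
    have h4 := E_adj P (Z a) g fun v => ind (¬G v) + esc P Z G w v
    simp only [mul_add] at h4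
    rw [P.E_add] at h1 h2 h4
    rw [← E_cv P (Z a) g A] at h1
    simp only [tp_cons, List.length_cons, Nat.cast_succ, pow_succ, mul_assoc _ q θ]
    rw [E_adj]
    have h5 : (P.E fun ω => g ω * esc P Z G (a :: w) ω) = _ := h4
    linarith

theorem fwd1 (hR : ∀ a, RG P x (Z a) G E C Γ k0) {f : Ω → ℝ} (hf : Pl x E f) {η θ : ℝ} (h0 : 0 < η)
    (hη : k0 ≤ η) (w : List Bool) {S : Ω → Prop}
    (hS : ∀ ω ∈ P.S, S ω → G ω ∧ |f ω| ≤ θ ∧ esc P Z G w ω ≤ 1 / 8)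
    (hp : 8 * (w.length + 1) * η ≤ pb P S) : ∃ ω ∈ P.S, S ω ∧
      1 / 2 ≤ tp P Z w (fun v => |f v| ≤ (Γ * η⁻¹ ^ (C * E)) ^ w.length * θ) ω := by
  by_contra k
  push Not at k
  have h1 := fwd hR hf h0.le hη w (fun ω => ind (S ω)) θ fun _ => ⟨ind_nn _, ind_le _⟩
  have h2 : P.E (fun ω => 1 / 2 * ind (S ω)) ≤ P.E fun ω => ind (S ω) *
      tp P Z w (fun v => ¬|f v| ≤ (Γ * η⁻¹ ^ (C * E)) ^ w.length * θ) ω := P.E_mono fun ω hω => by
    by_cases e : S ω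
    · have := k ω hω e
      rw [ind_pos e, tp, pb_not]; unfold tp at this; linarith
    · rw [ind_neg e]; simp
  have h3 : P.E (fun ω => ind (S ω) * ind (¬(G ω ∧ |f ω| ≤ θ))) ≤ P.E fun _ => 0 :=
    P.E_mono fun ω hω => by
      by_cases e : S ω
      · rw [ind_neg (not_not.2 ⟨(hS ω hω e).1, (hS ω hω e).2.1⟩), mul_zero]
      · rw [ind_neg e, zero_mul]
  have h4 : P.E (fun ω => ind (S ω) * esc P Z G w ω) ≤ P.E fun ω => 1 / 8 * ind (S ω) :=
    P.E_mono fun ω hω => by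
      by_cases e : S ω
      · rw [ind_pos e, one_mul, mul_one]; exact (hS ω hω e).2.2
      · rw [ind_neg e]; simp
  rw [P.E_mul, ← pb_ind] at h2 h4
  rw [P.E_const] at h3
  have : (0 : ℝ) ≤ w.length * η := by positivity
  nlinarith

end One

variable {Ω β : ℕ → Type} {d C : ℕ} {P : ∀ n, FP (Ω n)} {x : ∀ n, Ω n → Fin d → ℝ} {M : ℕ → ℕ}
  {Z : Bool → ∀ n, Ω n → β n} {K : ℝ}

theorem whp_mark {u : ∀ n, Ω n → ℝ} (h0 : ∀ n ω, 0 ≤ u n ω)
    (h : ∀ ε : ℝ, 0 < ε → ∀ᶠ n in UF, (P n).E (u n) ≤ ε) {η : ℝ} (hη : 0 < η) :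
    Whp P fun n ω => u n ω ≤ η := fun ε hε => (h (η * ε) (by positivity)).mono fun n e => by
  have h1 := markov (P n) (fun ω _ => h0 n ω) η
  have h2 : pb (P n) (fun ω => ¬u n ω ≤ η) ≤ pb (P n) fun ω => η ≤ u n ω :=
    pb_mono fun ω _ k => (not_le.1 k).le
  exact h2.trans (le_of_mul_le_mul_left (h1.trans e) hη)

theorem whp_tp {G : ∀ n, Ω n → Prop} (h : Whp P G) (w : List Bool) {η : ℝ} (hη : 0 < η) :
    Whp P fun n ω => tp (P n) (fun a => Z a n) w (fun v => ¬G n v) ω ≤ η :=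
  whp_mark (fun _ _ => pb_nonneg _ _) (fun ε hε => (h ε hε).mono fun _ e => (E_tp _ w).trans_le e) hη

theorem whp_esc {G : ∀ n, Ω n → Prop} (h : Whp P G) (w : List Bool) :
    Whp P fun n ω => esc (P n) (fun a => Z a n) (G n) w ω ≤ 1 / 8 :=
  whp_mark (fun _ => esc_nn w) (fun ε hε => (h (ε / (w.length + 1)) (by positivity)).mono
    fun n e => by
      rw [E_esc]
      rw [le_div_iff₀ (by positivity)] at e
      nlinarith [pb_nonneg (P n) fun ω => ¬G n ω]) (by norm_num)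

theorem whp_diag {G : ℕ → ∀ n, Ω n → Prop} (h : ∀ j, Whp P (G j)) :
    ∃ k : ℕ → ℕ, Big k ∧ Whp P fun n ω => ∀ j ≤ k n, G j n ω := by
  have h1 : ∀ i : ℕ, Whp P fun n ω => ∀ j ≤ i, G j n ω := fun i =>
    (Whp.all fun j : Fin (i + 1) => h j).mono (Eventually.of_forall fun _ _ _ e j hj =>
      e ⟨j, Nat.lt_succ_of_le hj⟩)
  obtain ⟨k, hk, e⟩ := R4.ks.spill _ fun i => h1 i (1 / (i + 1 : ℝ)) (by positivity)
  refine ⟨k, hk, fun ε hε => ?_⟩
  filter_upwards [e, R4.K31.small hε hk] with n a b using (a _ le_rfl).trans b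

theorem Cell.rem2 (h : Cell P x M Z C K) (E : ℕ) : ∃ (G : ∀ n, Ω n → Prop) (Γ : ℕ → ℝ), Whp P G ∧
    Sub M Γ ∧ ∀ᶠ n in UF, ∀ a, RG (P n) (x n) (Z a n) (G n) E C (Γ n) (dl M K n) := by
  obtain ⟨G, Γ, a, b, c⟩ := h.rem true E
  obtain ⟨G', Γ', a', b', c'⟩ := h.rem false E
  refine ⟨_, _, a.and a', b.mul b', ?_⟩
  filter_upwards [c, c'] with n u v a
  cases a
  · exact v.mono (dl_pos _ _ _) (fun _ k => k.2) (le_mul_of_one_le_left (b'.pos n).le (b.1 n))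
  · exact u.mono (dl_pos _ _ _) (fun _ k => k.1) (le_mul_of_one_le_right (b.pos n).le (b'.1 n))

theorem Cell.back (h : Cell P x M Z C K) (E : ℕ) : ∀ (w : List Bool) (κ : ℝ), 0 < κ →
    ∃ Γ, Sub M Γ ∧ Whp P fun n ω => ∀ f, Pl (x n) E f → ∀ θ : ℝ,
      κ ≤ tp (P n) (fun a => Z a n) w (fun v => |f v| ≤ θ) ω → |f ω| ≤ Γ n * θ
  | [], κ, hκ => ⟨_, h.big.sub le_rfl, Whp.of_ev (Eventually.of_forall fun n ω _ f _ θ e => by
      by_contra k
      rw [tp_nil, ind_neg (by simpa using k)] at e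
      linarith)⟩
  | a :: w, κ, hκ => by
    obtain ⟨Γ', s', w'⟩ := h.back E w (κ / 2) (half_pos hκ)
    obtain ⟨G, Γ, g1, g2, g3⟩ := h.rem a E
    refine ⟨_, (g2.mul (h.big.sub (le_max_right ((κ / 4)⁻¹ ^ (C * E)) 1))).mul s', ?_⟩
    refine (g1.and (whp_tp (Z := Z) (g1.and w') [a] (η := κ / 4) (by positivity))).mono ?_
    filter_upwards [g3, dl_lt h.big (K := κ / 4) (by positivity) h.pos] with n r r' ω hω u f hf θ e
    rw [tp_cons] at e
    have h1 := rev_markov _ (fun v _ => pb_le_one _ _) hκ.le e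
    have h2 := u.2
    rw [tp_cons, FP.E_congr _ fun v _ => tp_nil _ _ _ v, ← pb_ind] at h2
    have h3 := pb_or (cv (P n) (Z a n) (Z a n ω)) (fun v => G n v ∧ |f v| ≤ Γ' n * θ) fun v =>
      ¬(G n v ∧ ∀ f, Pl (x n) E f → ∀ θ : ℝ,
        κ / 2 ≤ tp (P n) (fun a => Z a n) w (fun v => |f v| ≤ θ) v → |f v| ≤ Γ' n * θ)
    have h4 : κ / 4 ≤ pb (cv (P n) (Z a n) (Z a n ω)) fun v => G n v ∧ |f v| ≤ Γ' n * θ := by
      have := h1.trans ((pb_mono fun v _ k => or_iff_not_imp_right.2 fun k' =>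
        ⟨(not_not.1 k').1, (not_not.1 k').2 f hf θ k⟩).trans h3)
      linarith
    obtain ⟨v, -, hv⟩ := ex_of_pb ((by positivity : 0 < κ / 4).trans_le h4)
    have h5 := (abs_nonneg _).trans hv.2
    have h6 := (g2.pos n).le
    refine (r ω hω u.1 f hf _ _ r'.le h4).trans ?_
    rw [mul_assoc _ (Γ' n)]
    gcongr
    exact le_max_left _ _

end Pool.Agent.MP_5168f5_an.AN.G39
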