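import Pool.Agent.MP_5168f5_an.AN.SpecV
import Pool.Agent.MP_5168f5_an.AN.G39Ch

/-! Kakeya sets in all dimensions: typical sequences of sample points and contexts. -/

namespace Pool.Agent.MP_5168f5_an.AN.Cx

open H19 H17S H17F Filter R4 Vo

universe u v

/-! ### One law -/

section One

variable {Ω β γ : Type} {P : FP Ω}

theorem ex_mem (P : FP Ω) : ∃ ω, ω ∈ P.S :=
  (ex_of_pb (P := P) (E := fun _ => True) (by rw [pb_true]; exact one_pos)).imp fun _ h => h.1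

theorem mem_cv {Q : Ω → γ} {ω : Ω} (h : ω ∈ P.S) (v : Ω) :
    v ∈ (cv P Q (Q ω)).S ↔ v ∈ P.S ∧ Q v = Q ω :=
  mem_cE (E := fun v => Q v = Q ω) ⟨ω, h, rfl⟩ v

theorem pb_exp (P : FP Ω) (Q : Ω → γ) (B : γ → Ω → Prop) :
    pb P (fun ω => B (Q ω) ω) = P.E fun ω => pb (cv P Q (Q ω)) (B (Q ω)) :=
  KEA.exp P Q fun q ω => G39.ind (B q ω)

theorem E_le_pb {u : Ω → ℝ} {η : ℝ} (h0 : 0 ≤ η) (h : ∀ ω ∈ P.S, u ω ≤ 1) :
    P.E u ≤ η + pb P fun ω => ¬u ω ≤ η := by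
  rw [G39.pb_ind, ← P.E_const η, ← P.E_add]
  refine P.E_mono fun ω hω => ?_
  simp only [FP.E_const]
  by_cases e : u ω ≤ η
  · rw [G39.ind_neg (not_not.2 e)]; linarith
  · rw [G39.ind_pos e]; linarith [h ω hω]

/-- An event is not thin in the context of most of its points. -/
theorem pb_thin (P : FP Ω) (Q : Ω → γ) (B : γ → Ω → Prop) {η : ℝ} (h0 : 0 ≤ η) :
    pb P (fun ω => B (Q ω) ω ∧ pb (cv P Q (Q ω)) (B (Q ω)) ≤ η) ≤ η := by
  rw [pb_exp P Q fun q ω => B q ω ∧ pb (cv P Q q) (B q) ≤ η, ← P.E_const η]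
  refine P.E_mono fun ω _ => ?_
  simp only [FP.E_const]
  by_cases e : pb (cv P Q (Q ω)) (B (Q ω)) ≤ η
  · exact (pb_mono fun _ _ k => k.1).trans e
  · exact (pb_zero fun _ _ k => e k.2).trans_le h0

theorem pb_geo (P : FP Ω) (G : ℕ → Ω → Prop) (ε : ℝ) : ∀ k : ℕ,
    (∀ j < k, pb P (fun ω => ¬G j ω) ≤ ε / 2 ^ (j + 1)) →
    pb P (fun ω => ¬∀ j < k, G j ω) ≤ ε - ε / 2 ^ k
  | 0, _ => (pb_zero fun _ _ h => h fun _ a => absurd a (Nat.not_lt_zero _)).trans_le (by simp)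
  | k + 1, h => by
    have h1 := pb_geo P G ε k fun j a => h j (a.trans k.lt_succ_self)
    have h2 := pb_or P (fun ω => ¬∀ j < k, G j ω) fun ω => ¬G k ω
    have h3 := h k k.lt_succ_self
    have h4 : ε / 2 ^ k = 2 * (ε / 2 ^ (k + 1)) := by field_simp; ring
    refine (pb_mono fun ω _ a => not_and_or.1 fun b => a fun j c => ?_).trans
      (h2.trans (by linarith))
    exact (Nat.lt_succ_iff_lt_or_eq.1 c).elim (b.1 j) fun e => e ▸ b.2

theorem cv_cE {Q : Ω → γ} {G : Ω → Prop} {ω : Ω} (h : ω ∈ P.S) (g : G ω) :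
    cv (cE P G) Q (Q ω) = cE (cv P Q (Q ω)) G := by
  unfold cv
  rw [cE_cE, cE_cE]
  exacts [cE_congr fun _ _ => and_comm, ⟨ω, h, rfl, g⟩, ⟨ω, h, g, rfl⟩]

theorem cv_cE' {Q : Ω → γ} {g : γ → Prop} {ω : Ω} (h : ω ∈ P.S) (e : g (Q ω)) :
    cv (cE P fun v => g (Q v)) Q (Q ω) = cv P Q (Q ω) := by
  unfold cv
  rw [cE_cE]
  exacts [cE_congr fun _ _ => ⟨fun k => k.2, fun k => ⟨k ▸ e, k⟩⟩, ⟨ω, h, e, rfl⟩]

theorem cv_cv {Q : Ω → γ} {T : Ω → β} {ω : Ω} (h : ω ∈ P.S) :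
    cv (cv P T (T ω)) Q (Q ω) = cv P (fun v => (Q v, T v)) (Q ω, T ω) := by
  unfold cv
  rw [cE_cE]
  exacts [cE_congr fun _ _ => by rw [Prod.mk.injEq, and_comm], ⟨ω, h, rfl, rfl⟩]

theorem cv_congr {Q : Ω → γ} {T : Ω → β} {ω : Ω} (h : ω ∈ P.S) (a : Fn P Q T) (b : Fn P T Q) :
    cv P Q (Q ω) = cv P T (T ω) :=
  cE_congr fun v hv => ⟨b v hv ω h, a v hv ω h⟩

theorem cv_fn {Q : Ω → γ} {T : Ω → β} {ω : Ω} (h : ω ∈ P.S) (a : Fn P T Q) :
    cv (cv P T (T ω)) Q (Q ω) = cv P Q (Q ω) :=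
  (cv_cv h).trans (cv_congr (Q := fun v => (Q v, T v)) h
    (fun x hx y hy e => Prod.ext e (a x hx y hy e)) fun _ _ _ _ e => congrArg Prod.fst e)

theorem cv_unit (P : FP Ω) : cv P (fun _ => ()) () = P :=
  (cE_congr fun _ _ => ⟨fun _ => trivial, fun _ => rfl⟩).trans (cE_true P)

end One

/-! ### Countable conditions -/

section CF

variable {S : ℕ → Type u} {A : ℕ → Type v}

theorem cf_congr {K : (∀ n, S n) → Prop} (h : CF K) {x y : ∀ n, S n} (e : ∀ᶠ n in UF, x n = y n)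
    (a : K x) : K y := by
  obtain ⟨p, hp⟩ := h
  refine (hp y).2 fun j => ?_
  filter_upwards [(hp x).1 a j, e] with n b c using c ▸ b

/-- A witness can be read from the value of the label. -/
theorem cf_choose [∀ n, Nonempty (A n)] {K : (∀ n, S n × A n) → Prop} (h : CF K) :
    ∃ a : ∀ n, S n → A n, ∀ (q : ∀ n, S n) (b : ∀ n, A n), K (fun n => (q n, b n)) →
      K fun n => (q n, a n (q n)) := by
  classical
  obtain ⟨p, hp⟩ := h
  have e : ∀ n (q : S n), ∃ a : A n, ∀ k ≤ n, (∃ b, ∀ i < k, p i n (q, b)) →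
      ∀ i < k, p i n (q, a) := fun n q => by
    obtain ⟨a, ha⟩ := Nat.findGreatest_spec (P := fun k => ∃ b, ∀ i < k, p i n (q, b))
      (Nat.zero_le n) ⟨Classical.arbitrary _, fun _ c => absurd c (Nat.not_lt_zero _)⟩
    exact ⟨a, fun k hk c i hi => ha i (hi.trans_le (Nat.le_findGreatest hk c))⟩
  choose a ha using e
  refine ⟨a, fun q b k => (hp _).2 fun j => ?_⟩
  filter_upwards [(eventually_all_finite (Set.finite_lt_nat (j + 1))).2 fun i _ => (hp _).1 k i,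
    ev_ge (j + 1)] with n c d using ha n (q n) _ d ⟨b n, c⟩ j j.lt_succ_self

theorem cf_ex [∀ n, Nonempty (A n)] {K : (∀ n, S n × A n) → Prop} (h : CF K) :
    CF fun q : ∀ n, S n => ∃ b : ∀ n, A n, K fun n => (q n, b n) :=
  (cf_choose h).elim fun a ha => (h.comp fun n q => (q, a n q)).congr fun q =>
    ⟨fun ⟨b, k⟩ => ha q b k, fun k => ⟨_, k⟩⟩

theorem cf_imp (g : ∀ n, S n → Prop) {K : (∀ n, S n) → Prop} (h : CF K) :
    CF fun x => (∀ᶠ n in UF, g n (x n)) → K x := by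
  obtain ⟨p, hp⟩ := h
  refine ⟨fun j n x => g n x → p j n x, fun x => ⟨fun a j => ?_, fun a b => (hp x).2 fun j => ?_⟩⟩
  · rcases ev_em fun n => g n (x n) with e | e
    · exact ((hp x).1 (a e) j).mono fun _ c _ => c
    · exact e.mono fun _ c d => absurd d c
  · filter_upwards [a j, b] with n c d using c d

theorem cf_forall [∀ n, Nonempty (A n)] {K : (∀ n, S n × A n) → Prop} (h : CF K) :
    CF fun q : ∀ n, S n => ∀ b : ∀ n, A n, K fun n => (q n, b n) := by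
  obtain ⟨p, hp⟩ := h
  refine ⟨fun j n q => ∀ b, p j n (q, b), fun q => ⟨fun a j => ?_, fun a b => (hp _).2 fun j =>
    (a j).mono fun n c => c _⟩⟩
  exact (unif (h := fun _ _ => True) (p := fun n b => p j n (q n, b))
    fun b _ => (hp _).1 (a b) j).mono fun n c b => c b trivial

theorem cf_or {K K' : (∀ n, S n) → Prop} (h : CF K) (h' : CF K') : CF fun x => K x ∨ K' x := by
  obtain ⟨p, hp⟩ := h
  obtain ⟨p', hp'⟩ := h'
  refine ⟨fun j n x => p j.unpair.1 n x ∨ p' j.unpair.2 n x, fun x => ⟨fun a j => ?_, fun a => ?_⟩⟩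
  · exact a.elim (fun b => ((hp x).1 b _).mono fun _ => Or.inl) fun b =>
      ((hp' x).1 b _).mono fun _ => Or.inr
  · refine or_iff_not_imp_left.2 fun b => (hp' x).2 fun j => ?_
    obtain ⟨i, hi⟩ := not_forall.1 fun c => b ((hp x).2 c)
    filter_upwards [a (Nat.pair i j), not_ev.1 hi] with n c d
    simp only [Nat.unpair_pair] at c
    exact c.resolve_left d

/-- Conditions for all positive reals that get weaker as the parameter grows. -/
theorem cf_pos {K : ℝ → (∀ n, S n) → Prop} (h : ∀ c, 0 < c → CF (K c))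
    (hm : ∀ c c' x, 0 < c → c ≤ c' → K c x → K c' x) : CF fun x => ∀ c, 0 < c → K c x :=
  (cf_all fun j : ℕ => h (1 / (j + 1 : ℝ)) (by positivity)).congr fun x =>
    ⟨fun a j => a _ (by positivity), fun a c hc => (exists_nat_one_div_lt hc).elim fun m e =>
      hm _ _ x (by positivity) e.le (a m)⟩

theorem ex_le (M : ℕ → ℕ) {c c' : ℝ} (h : c ≤ c') (n : ℕ) :
    Real.exp (c * M n) ≤ Real.exp (c' * M n) :=
  Real.exp_le_exp.2 (mul_le_mul_of_nonneg_right h (Nat.cast_nonneg _))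

theorem cf_Ev (M : ℕ → ℕ) {p : ∀ n, S n → ℝ → Prop}
    (hm : ∀ n x L L', 1 ≤ L → L ≤ L' → p n x L → p n x L') :
    CF fun x : ∀ n, S n => Ev M fun n L => p n (x n) L :=
  cf_eps (p := fun c n x => p n x (Real.exp (c * M n))) fun _ _ n x a b =>
    hm n x _ _ (one_le_ex M a n) (ex_le M b n)

theorem cf_Wp (M : ℕ → ℕ) {W : ∀ n, S n → Type} (Q : ∀ n x, FP (W n x))
    {p : ∀ n x, ℝ → W n x → Prop}
    (hm : ∀ n x L L', ∀ ω ∈ (Q n x).S, 1 ≤ L → L ≤ L' → p n x L ω → p n x L' ω) :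
    CF fun x : ∀ n, S n => Wp (fun n => Q n (x n)) M fun n L => p n (x n) L :=
  cf_pos (fun c _ => cf_whp Q fun n x => p n x (Real.exp (c * M n))) fun _ _ _ a b k =>
    k.mono (Eventually.of_forall fun n ω hω => hm n _ _ _ ω hω (one_le_ex M a n) (ex_le M b n))

end CF

/-! ### The filter of typical sequences -/

variable {Ω Ω' γ : ℕ → Type}

/-- Properties of typical sequences of sample points. -/
def lo (P : ∀ n, FP (Ω n)) : Filter (∀ n, Ω n) where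
  sets := {K | ∀ ε : ℝ, 0 < ε → ∃ G : ∀ n, Ω n → Prop,
    (∀ᶠ n in UF, pb (P n) (fun ω => ¬G n ω) ≤ ε) ∧
      ∀ w : ∀ n, Ω n, (∀ᶠ n in UF, w n ∈ (P n).S ∧ G n (w n)) → w ∈ K}
  univ_sets := fun ε hε => ⟨fun _ _ => True, Eventually.of_forall fun _ =>
    (pb_zero fun _ _ h => h trivial).trans_le hε.le, fun _ _ => trivial⟩
  sets_of_superset := fun h e ε hε => (h ε hε).imp fun _ k => ⟨k.1, fun w hw => e (k.2 w hw)⟩
  inter_sets := fun h h' ε hε => by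
    obtain ⟨G, a, b⟩ := h _ (half_pos hε)
    obtain ⟨G', a', b'⟩ := h' _ (half_pos hε)
    refine ⟨fun n ω => G n ω ∧ G' n ω, ?_, fun w hw => ⟨b w (hw.mono fun _ k => ⟨k.1, k.2.1⟩),
      b' w (hw.mono fun _ k => ⟨k.1, k.2.2⟩)⟩⟩
    filter_upwards [a, a'] with n u v
    exact (pb_mono fun ω _ k => not_and_or.1 k).trans ((pb_or (P n) (fun ω => ¬G n ω)
      fun ω => ¬G' n ω).trans (by linarith))

/-- The laws given the value of the label `Q` along the sequence `w`. -/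
noncomputable abbrev cq (P : ∀ n, FP (Ω n)) (Q : ∀ n, Ω n → γ n) (w : ∀ n, Ω n) (n : ℕ) :
    FP (Ω n) := cv (P n) (Q n) (Q n (w n))

variable {P : ∀ n, FP (Ω n)} {P' : ∀ n, FP (Ω' n)} {Q : ∀ n, Ω n → γ n} {G : ∀ n, Ω n → Prop}
  {K : (∀ n, Ω n) → Prop} {M : ℕ → ℕ}

theorem lo_iff : (∀ᶠ w in lo P, K w) ↔ ∀ ε : ℝ, 0 < ε → ∃ G : ∀ n, Ω n → Prop,
    (∀ᶠ n in UF, pb (P n) (fun ω => ¬G n ω) ≤ ε) ∧
      ∀ w : ∀ n, Ω n, (∀ᶠ n in UF, w n ∈ (P n).S ∧ G n (w n)) → K w := Iff.rfl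

theorem nonempty (P : ∀ n, FP (Ω n)) (n : ℕ) : Nonempty (Ω n) := (ex_mem (P n)).nonempty

theorem ex_seq (h : ∀ᶠ n in UF, ∃ ω ∈ (P n).S, G n ω) :
    ∃ w : ∀ n, Ω n, ∀ᶠ n in UF, w n ∈ (P n).S ∧ G n (w n) := by
  have := nonempty P
  exact ⟨fun n => Classical.epsilon fun ω => ω ∈ (P n).S ∧ G n ω,
    h.mono fun n a => Classical.epsilon_spec a⟩

theorem lo_ev : (∀ᶠ w in lo P, ∀ᶠ n in UF, G n (w n)) ↔ Whp P G := by
  have := nonempty P
  refine ⟨fun h ε hε => ?_, fun h ε hε => ⟨G, h ε hε, fun _ a => a.mono fun _ b => b.2⟩⟩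
  obtain ⟨G', a, b⟩ := h ε hε
  filter_upwards [a, unif (h := fun n ω => ω ∈ (P n).S ∧ G' n ω) b] with n c d
  exact (pb_mono fun ω hω k e => k (d ω ⟨hω, e⟩)).trans c

theorem lo_mem (P : ∀ n, FP (Ω n)) : ∀ᶠ w in lo P, ∀ᶠ n in UF, w n ∈ (P n).S :=
  lo_ev.2 (Whp.of_ev (Eventually.of_forall fun _ _ h => h))

theorem lo_all {K : ℕ → (∀ n, Ω n) → Prop} (h : ∀ j, ∀ᶠ w in lo P, K j w) :
    ∀ᶠ w in lo P, ∀ j, K j w := fun ε hε => by
  choose G a b using fun j => h j (ε / 2 ^ (j + 1)) (by positivity)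
  obtain ⟨k, hk, e⟩ := ks.spill _ a
  refine ⟨fun n ω => ∀ j < k n, G j n ω, e.mono fun n c => ?_, fun w hw j => b j w ?_⟩
  · exact (pb_geo (P n) (fun j => G j n) ε _ fun j d => c j d.le).trans
      (sub_le_self _ (by positivity))
  · filter_upwards [hw, hk.eventually_gt_atTop j] with n c d using ⟨c.1, c.2 j d⟩

instance (P : ∀ n, FP (Ω n)) : CountableInterFilter (lo P) := ⟨fun T hT h => by
  rcases T.eq_empty_or_nonempty with e | e
  · simp [e]
  · obtain ⟨f, rfl⟩ := hT.exists_eq_range e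
    exact (lo_all fun j => h _ ⟨j, rfl⟩).mono fun w a => Set.mem_sInter.2 fun _ ⟨j, b⟩ => b ▸ a j⟩

/-- A property that holds on an event of positive probability is not exceptional. -/
theorem fr_of_pos (h : Pos P G)
    (e : ∀ w : ∀ n, Ω n, (∀ᶠ n in UF, w n ∈ (P n).S ∧ G n (w n)) → K w) : ∃ᶠ w in lo P, K w := by
  obtain ⟨κ, hκ, h⟩ := h
  intro k
  obtain ⟨G', a, b⟩ := k _ (half_pos hκ)
  obtain ⟨w, hw⟩ := ex_seq (P := P) (G := fun n ω => G n ω ∧ G' n ω) (by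
    filter_upwards [h, a] with n c d
    have h1 := pb_split (P n) (G n) (G' n)
    have h2 : pb (P n) (fun ω => G n ω ∧ ¬G' n ω) ≤ _ := (pb_mono fun _ _ u => u.2).trans d
    exact ex_of_pb (by linarith))
  exact b w (hw.mono fun _ u => ⟨u.1, u.2.2⟩) (e w (hw.mono fun _ u => ⟨u.1, u.2.1⟩))

instance (P : ∀ n, FP (Ω n)) : (lo P).NeBot :=
  (frequently_true_iff_neBot _).1 (fr_of_pos pos_true fun _ _ => trivial)

theorem fr_ev : (∃ᶠ w in lo P, ∀ᶠ n in UF, G n (w n)) ↔ Pos P G :=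
  ⟨fun h => (not_whp fun k => h ((lo_ev.2 k).mono fun _ => not_ev.2)).mono
    (Eventually.of_forall fun _ _ _ => not_not.1),
    fun h => fr_of_pos h fun _ a => a.mono fun _ b => b.2⟩

theorem fr_ex {J : Type} [Countable J] {K : J → (∀ n, Ω n) → Prop}
    (h : ∃ᶠ w in lo P, ∃ j, K j w) : ∃ j, ∃ᶠ w in lo P, K j w := by
  by_contra k
  exact h ((eventually_countable_forall.2 fun j => not_frequently.1 (not_exists.1 k j)).mono
    fun _ => not_exists.2)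

theorem lo_eps {K : ℝ → (∀ n, Ω n) → Prop} (h : ∀ c, 0 < c → ∀ᶠ w in lo P, K c w)
    (hm : ∀ c c' w, 0 < c → c ≤ c' → K c w → K c' w) : ∀ᶠ w in lo P, ∀ c, 0 < c → K c w :=
  (lo_all fun j : ℕ => h (1 / (j + 1 : ℝ)) (by positivity)).mono fun w a c hc =>
    (exists_nat_one_div_lt hc).elim fun m e => hm _ _ w (by positivity) e.le (a m)

/-- A countable condition on the label holds typically or fails on an event of the label. -/
theorem lo_or {K : (∀ n, γ n) → Prop} (h : CF K) (P : ∀ n, FP (Ω n)) (Q : ∀ n, Ω n → γ n) :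
    (∀ᶠ w in lo P, K fun n => Q n (w n)) ∨ ∃ g : ∀ n, γ n → Prop,
      Pos P (fun n ω => g n (Q n ω)) ∧ ∀ q : ∀ n, γ n, (∀ᶠ n in UF, g n (q n)) → ¬K q := by
  obtain ⟨p, hp⟩ := h
  by_cases e : ∀ j, Whp P fun n ω => p j n (Q n ω)
  · exact Or.inl ((lo_all fun j => lo_ev.2 (e j)).mono fun w a => (hp _).2 a)
  · obtain ⟨j, e⟩ := not_forall.1 e
    exact Or.inr ⟨fun n q => ¬p j n q, not_whp e, fun q a b => not_ev.2 a ((hp q).1 b j)⟩

/-- A countable condition that is not exceptional holds on an event of the label. -/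
theorem lo_fr {K : (∀ n, γ n) → Prop} (h : CF K) (e : ∃ᶠ w in lo P, K fun n => Q n (w n)) :
    ∃ g : ∀ n, γ n → Prop, Pos P (fun n ω => g n (Q n ω)) ∧
      ∀ q : ∀ n, γ n, (∀ᶠ n in UF, g n (q n)) → K q := by
  obtain ⟨p, hp⟩ := h
  have e1 : ¬∀ ε : ℝ, 0 < ε → _ := e
  obtain ⟨ε, e1⟩ := not_forall.1 e1
  obtain ⟨hε, e1⟩ := Classical.not_imp.1 e1
  obtain ⟨k, hk, c⟩ := ks.spill (fun i n => ε ≤ pb (P n) fun ω => ∀ j < i, p j n (Q n ω)) fun i => by
    by_contra d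
    refine e1 ⟨fun n ω => ¬∀ j < i, p j n (Q n ω), (not_ev.1 d).mono fun n a =>
      (pb_mono fun _ _ => not_not.1).trans (not_le.1 a).le, fun w a b => ?_⟩
    exact not_ev.2 (a.mono fun _ u => u.2)
      ((eventually_all_finite (Set.finite_lt_nat i)).2 fun j _ => (hp _).1 b j)
  refine ⟨fun n q => ∀ j < k n, p j n q, ⟨ε, hε, c.mono fun n a => a _ le_rfl⟩,
    fun q a => (hp q).2 fun j => ?_⟩
  filter_upwards [a, hk.eventually_gt_atTop j] with n b d using b j d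

/-! ### Conditioning on an event -/

theorem lo_cE (h : Pos P G) (e : ∀ᶠ w in lo P, K w) :
    ∀ᶠ w in lo fun n => cE (P n) (G n), K w := fun ε hε => by
  obtain ⟨κ, hκ, h⟩ := h
  obtain ⟨G', a, b⟩ := e (κ * ε) (by positivity)
  refine ⟨G', ?_, fun w c => b w (c.mono fun _ d => ⟨cE_sub d.1, d.2⟩)⟩
  filter_upwards [h, a] with n u v
  have h1 := pb_cE (P n) (G n) fun ω => ¬G' n ω
  have h2 : pb (P n) (fun ω => G n ω ∧ ¬G' n ω) ≤ _ := (pb_mono fun _ _ u => u.2).trans v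
  have h3 := pb_nonneg (cE (P n) (G n)) fun ω => ¬G' n ω
  exact le_of_mul_le_mul_left (by nlinarith) hκ

theorem lo_sure (h : Pos P G) :
    ∀ᶠ w in lo fun n => cE (P n) (G n), ∀ᶠ n in UF, w n ∈ (P n).S ∧ G n (w n) :=
  lo_ev.2 (Whp.of_ev h.sure)

theorem lo_of_cE (e : ∀ᶠ w in lo fun n => cE (P n) (G n), K w) :
    ∀ᶠ w in lo P, (∀ᶠ n in UF, G n (w n)) → K w := fun ε hε => by
  obtain ⟨G', a, b⟩ := e ε hε
  refine ⟨fun n ω => G n ω → G' n ω, a.mono fun n u => ?_, fun w c d => b w ?_⟩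
  · have h1 := pb_cE (P n) (G n) fun ω => ¬G' n ω
    have h2 := pb_le_one (P n) (G n)
    have h3 := pb_nonneg (cE (P n) (G n)) fun ω => ¬G' n ω
    exact (pb_mono fun _ _ => Classical.not_imp.1).trans (by nlinarith)
  · filter_upwards [c, d] with n x y using ⟨(mem_cE ⟨_, x.1, y⟩ _).2 ⟨x.1, y⟩, x.2 y⟩

/-! ### Contexts -/

theorem lo_whp {G : ∀ n, γ n → Ω n → Prop} : (∀ᶠ w in lo P, Whp (cq P Q w)
    fun n => G n (Q n (w n))) ↔ Whp P fun n ω => G n (Q n ω) ω := by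
  have e := fun n => pb_exp (P n) (Q n) fun q ω => ¬G n q ω
  refine ⟨fun h ε hε => ?_, fun h => lo_eps (fun η hη => lo_ev.2 (G39.whp_mark
    (u := fun n ω => pb (cv (P n) (Q n) (Q n ω)) fun v => ¬G n (Q n ω) v)
    (fun _ _ => pb_nonneg _ _) (fun ε hε => (h ε hε).mono fun n a => (e n).ge.trans a) hη))
    fun _ _ _ _ a b => b.mono fun _ c => c.trans a⟩
  filter_upwards [(lo_ev (G := fun n ω => pb (cv (P n) (Q n) (Q n ω)) (fun v => ¬G n (Q n ω) v) ≤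
    ε / 2)).1 (h.mono fun _ a => a _ (half_pos hε)) _ (half_pos hε)] with n a
  exact (e n).le.trans ((E_le_pb (half_pos hε).le fun _ _ => pb_le_one _ _).trans (by linarith))

theorem lo_whp' (h : Whp P G) (Q : ∀ n, Ω n → γ n) : ∀ᶠ w in lo P, Whp (cq P Q w) G :=
  (lo_whp (G := fun n _ => G n)).2 h

/-- An event has positive probability in the context of a typical one of its points. -/
theorem lo_pos (P : ∀ n, FP (Ω n)) (Q : ∀ n, Ω n → γ n) (G : ∀ n, γ n → Ω n → Prop) :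
    ∀ᶠ w in lo P, (∀ᶠ n in UF, G n (Q n (w n)) (w n)) →
      Pos (cq P Q w) fun n => G n (Q n (w n)) := fun ε hε =>
  ⟨fun n ω => ¬(G n (Q n ω) ω ∧ pb (cv (P n) (Q n) (Q n ω)) (G n (Q n ω)) ≤ ε),
    Eventually.of_forall fun n => (pb_mono fun _ _ => not_not.1).trans (pb_thin _ _ _ hε.le),
    fun w a b => ⟨ε, hε, by
      filter_upwards [a, b] with n c d using (not_le.1 fun k => c.2 ⟨d, k⟩).le⟩⟩

/-- Contexts after conditioning on an event. -/
theorem lo_cq (h : Pos P G) (Q : ∀ n, Ω n → γ n) : ∀ᶠ w in lo fun n => cE (P n) (G n),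
    Pos (cq P Q w) G ∧ ∀ᶠ n in UF, cq (fun n => cE (P n) (G n)) Q w n = cE (cq P Q w n) (G n) := by
  filter_upwards [lo_cE h (lo_pos P Q fun n _ => G n), lo_sure h] with w a b
  exact ⟨a (b.mono fun _ c => c.2), b.mono fun _ c => cv_cE c.1 c.2⟩

theorem lo_cq' {g : ∀ n, γ n → Prop} (h : Pos P fun n ω => g n (Q n ω)) :
    ∀ᶠ w in lo fun n => cE (P n) fun ω => g n (Q n ω), (∀ᶠ n in UF, g n (Q n (w n))) ∧
      ∀ᶠ n in UF, cq (fun n => cE (P n) fun ω => g n (Q n ω)) Q w n = cq P Q w n :=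
  (lo_sure h).mono fun _ b => ⟨b.mono fun _ c => c.2, b.mono fun _ c => cv_cE' c.1 c.2⟩

theorem lo_same (P : ∀ n, FP (Ω n)) (Q : ∀ n, Ω n → γ n) : ∀ᶠ w in lo P, ∀ᶠ v in lo (cq P Q w),
    ∀ᶠ n in UF, v n ∈ (P n).S ∧ Q n (v n) = Q n (w n) :=
  (lo_mem P).mono fun _ a => lo_ev.2 (Whp.of_ev (a.mono fun _ b v => (mem_cv b v).1))

theorem lo_fub (h : ∀ᶠ v in lo P, K v) (Q : ∀ n, Ω n → γ n) :
    ∀ᶠ w in lo P, ∀ᶠ v in lo (cq P Q w), K v := by
  refine lo_eps (fun η hη ε hε => ?_) fun _ _ _ _ a b => b.imp fun _ c =>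
    ⟨c.1.mono fun _ d => d.trans a, c.2⟩
  obtain ⟨G, a, b⟩ := h (η * ε) (by positivity)
  refine ⟨fun n ω => pb (cv (P n) (Q n) (Q n ω)) (fun v => ¬G n v) ≤ η, a.mono fun n c => ?_,
    fun w c => ⟨G, c.mono fun _ d => d.2, fun v d => b v (d.mono fun _ x => ⟨cE_sub x.1, x.2⟩)⟩⟩
  have h1 := G39.markov (P n) (u := fun ω => pb (cv (P n) (Q n) (Q n ω)) fun v => ¬G n v)
    (fun _ _ => pb_nonneg _ _) η
  rw [← pb_exp (P n) (Q n) fun _ v => ¬G n v] at h1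
  exact (pb_mono fun _ _ k => (not_le.1 k).le).trans (le_of_mul_le_mul_left (h1.trans c) hη)

theorem lo_cf {S : ℕ → Type} {K : (∀ n, S n) → Prop} {p : ℕ → ∀ n, S n → Prop}
    (hp : ∀ x, K x ↔ K31.Cls p x) (f : ∀ n, Ω n → S n) :
    (∀ᶠ w in lo P, K fun n => f n (w n)) ↔ ∀ j, Whp P fun n ω => p j n (f n ω) := by
  simp only [hp, K31.Cls, eventually_countable_forall]
  exact forall_congr' fun j => lo_ev (G := fun n ω => p j n (f n ω))

theorem lo_fub' {S : ℕ → Type} {K : (∀ n, S n) → Prop} (h : CF K) (f : ∀ n, γ n → Ω n → S n) :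
    (∀ᶠ w in lo P, ∀ᶠ v in lo (cq P Q w), K fun n => f n (Q n (w n)) (v n)) ↔
      ∀ᶠ v in lo P, K fun n => f n (Q n (v n)) (v n) := by
  obtain ⟨p, hp⟩ := h
  rw [lo_cf hp fun n ω => f n (Q n ω) ω]
  simp only [fun w => lo_cf (P := cq P Q w) hp fun n => f n (Q n (w n)),
    eventually_countable_forall]
  exact forall_congr' fun j => lo_whp (G := fun n q ω => p j n (f n q ω))

/-! ### Change of the sample space -/

theorem lo_law {f : ∀ n, Ω' n → Ω n} (h : ∀ᶠ n in UF, Law (P' n) (f n) (P n) id)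
    (e : ∀ᶠ w in lo P, K w) : ∀ᶠ v in lo P', K fun n => f n (v n) := fun ε hε => by
  obtain ⟨G, a, b⟩ := e ε hε
  refine ⟨fun n v => G n (f n v), ?_, fun v c => b _ ?_⟩
  · filter_upwards [h, a] with n x y using (x.pb_eq fun ω => ¬G n ω).trans_le y
  · filter_upwards [h, c] with n x y using ⟨x.mem y.1, y.2⟩

theorem lo_law' {S : ℕ → Type} {K : (∀ n, S n) → Prop} (hK : CF K) {f : ∀ n, Ω n → S n}
    {f' : ∀ n, Ω' n → S n} (h : ∀ᶠ n in UF, Law (P' n) (f' n) (P n) (f n))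
    (e : ∀ᶠ w in lo P, K fun n => f n (w n)) : ∀ᶠ v in lo P', K fun n => f' n (v n) := by
  obtain ⟨p, hp⟩ := hK
  refine (lo_cf hp f').2 fun j ε hε => ?_
  filter_upwards [h, (lo_cf hp f).1 e j ε hε] with n x y
  exact (x.pb_eq fun s => ¬p j n s).trans_le y

theorem lo_bind {k : ∀ n, Ω n → FP (Ω' n)} {G : ∀ n, Ω n × Ω' n → Prop} :
    (∀ᶠ w in lo P, Whp (fun n => k n (w n)) fun n v => G n (w n, v)) ↔
      Whp (fun n => H17F.bind (P n) (k n)) G := by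
  have e : ∀ n, pb (H17F.bind (P n) (k n)) (fun v => ¬G n v) =
      (P n).E fun ω => pb (k n ω) fun v => ¬G n (ω, v) := fun n => E_bind _ _ _
  refine ⟨fun h ε hε => ?_, fun h => lo_eps (fun η hη => lo_ev.2 (G39.whp_mark
    (u := fun n ω => pb (k n ω) fun v => ¬G n (ω, v))
    (fun _ _ => pb_nonneg _ _) (fun ε hε => (h ε hε).mono fun n a => (e n).ge.trans a) hη))
    fun _ _ _ _ a b => b.mono fun _ c => c.trans a⟩
  filter_upwards [(lo_ev (G := fun n ω => pb (k n ω) (fun v => ¬G n (ω, v)) ≤ ε / 2)).1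
    (h.mono fun _ a => a _ (half_pos hε)) _ (half_pos hε)] with n a
  exact (e n).le.trans ((E_le_pb (half_pos hε).le fun _ _ => pb_le_one _ _).trans (by linarith))

/-! ### Uniform losses -/

theorem Wp.sub {p : ∀ n, ℝ → Ω n → Prop} (h : Wp P M p) :
    ∃ L, Sub M L ∧ Whp P fun n => p n (L n) :=
  ks.wsub P (fun n ω L => p n L ω) M fun c hc _ => h c hc

theorem Ev.sub {p : ℕ → ℝ → Prop} (h : Ev M p) : ∃ L, Sub M L ∧ ∀ᶠ n in UF, p n (L n) :=
  sub_iff.2 fun c hc => (h c hc).mono fun n a => ⟨_, one_le_ex M hc n, le_rfl, a⟩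

theorem wp_of_sub {p : ∀ n, ℝ → Ω n → Prop} {L : ℕ → ℝ} (hL : Sub M L)
    (h : Whp P fun n => p n (L n))
    (hm : ∀ n L L', ∀ ω ∈ (P n).S, 1 ≤ L → L ≤ L' → p n L ω → p n L' ω) : Wp P M p :=
  fun c hc => h.mono ((hL.2 c hc).mono fun n a ω hω => hm n _ _ ω hω (hL.1 n) a)

theorem lo_Ev {p : ∀ n, ℝ → Ω n → Prop}
    (hm : ∀ n L L' ω, 1 ≤ L → L ≤ L' → p n L ω → p n L' ω) :
    (∀ᶠ w in lo P, Ev M fun n L => p n L (w n)) ↔ Wp P M p :=
  ⟨fun h c hc => lo_ev.1 (h.mono fun _ a => a c hc), fun h => lo_eps (fun c hc => lo_ev.2 (h c hc))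
    fun _ _ _ a b k => k.mono fun n => hm n _ _ _ (one_le_ex M a n) (ex_le M b n)⟩

theorem wp_of_lo {p : ∀ n, ℝ → Ω n → Prop} (h : ∀ᶠ w in lo P, Ev M fun n L => p n L (w n)) :
    Wp P M p := fun c hc => lo_ev.1 (h.mono fun _ a => a c hc)

theorem lo_Wp {p : ∀ n, γ n → ℝ → Ω n → Prop}
    (hm : ∀ n q L L' ω, 1 ≤ L → L ≤ L' → p n q L ω → p n q L' ω) :
    (∀ᶠ w in lo P, Wp (cq P Q w) M fun n => p n (Q n (w n))) ↔
      Wp P M fun n L ω => p n (Q n ω) L ω :=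
  ⟨fun h c hc => (lo_whp (G := fun n q => p n q (Real.exp (c * M n)))).1 (h.mono fun _ a => a c hc),
    fun h => lo_eps (fun c hc => (lo_whp (G := fun n q => p n q (Real.exp (c * M n)))).2 (h c hc))
      fun _ _ _ a b k => k.mono (Eventually.of_forall fun n _ _ =>
        hm n _ _ _ _ (one_le_ex M a n) (ex_le M b n))⟩

theorem wp_of_cq {p : ∀ n, γ n → ℝ → Ω n → Prop}
    (h : ∀ᶠ w in lo P, Wp (cq P Q w) M fun n => p n (Q n (w n))) :
    Wp P M fun n L ω => p n (Q n ω) L ω := fun c hc =>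
  (lo_whp (G := fun n q => p n q (Real.exp (c * M n)))).1 (h.mono fun _ a => a c hc)

/-- Averages of typical inequalities. -/
theorem le_glue {f g : ∀ n, Ω n → ℝ} {C : ℝ}
    (hb : ∀ᶠ n in UF, ∀ ω ∈ (P n).S, f n ω - g n ω ≤ C * M n)
    (h : ∀ᶠ w in lo P, Le M (fun n => f n (w n)) fun n => g n (w n)) :
    Le M (fun n => (P n).E (f n)) fun n => (P n).E (g n) := fun ε hε => by
  have h0 : 0 < ε / 2 / (|C| + 1) := by positivity
  filter_upwards [(lo_ev (G := fun n ω => f n ω ≤ g n ω + ε / 2 * M n)).1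
    (h.mono fun _ a => a _ (half_pos hε)) _ h0, hb] with n a b
  have m : (0 : ℝ) ≤ M n := Nat.cast_nonneg _
  have h1 : (P n).E (f n) ≤ (P n).E fun ω => g n ω + ε / 2 * M n + (|C| + 1) * M n *
      G39.ind (¬f n ω ≤ g n ω + ε / 2 * M n) := (P n).E_mono fun ω hω => by
    by_cases e : f n ω ≤ g n ω + ε / 2 * M n
    · rw [G39.ind_neg (not_not.2 e)]; linarith
    · rw [G39.ind_pos e]; nlinarith [b ω hω, le_abs_self C]
  rw [FP.E_add, FP.E_add, FP.E_const, FP.E_mul, ← G39.pb_ind] at h1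
  rw [le_div_iff₀ (by positivity)] at a
  nlinarith

/-- Equality of the averages forces typical equality. -/
theorem lo_tight {f g : ∀ n, Ω n → ℝ} {C : ℝ} (hM : Big M)
    (hb : ∀ᶠ n in UF, ∀ ω ∈ (P n).S, g n ω - f n ω ≤ C * M n)
    (h : ∀ᶠ w in lo P, Le M (fun n => g n (w n)) fun n => f n (w n))
    (e : Le M (fun n => (P n).E (f n)) fun n => (P n).E (g n)) :
    ∀ᶠ w in lo P, Le M (fun n => f n (w n)) fun n => g n (w n) := by
  have h1 := le_glue (f := fun n ω => max (g n ω - f n ω) 0) (g := fun _ _ => 0) (C := |C|)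
    (hb.mono fun n a ω hω => by
      have m : (0 : ℝ) ≤ M n := Nat.cast_nonneg _
      rw [sub_zero]
      exact max_le (by nlinarith [a ω hω, le_abs_self C]) (by positivity))
    (h.mono fun w a ε hε => (a ε hε).mono fun n b => max_le (by linarith) (by positivity))
  refine lo_eps (fun ε hε => (lo_ev (G := fun n ω => f n ω ≤ g n ω + ε * M n)).2
    ((ks.mark P (fun n ω => max (f n ω - g n ω) 0) M ε hM hε
    (Eventually.of_forall fun _ _ _ => le_max_right _ _) ((e.add h1).of_sub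
    (Eventually.of_forall fun n => ?_))).mono (Eventually.of_forall fun n ω _ a => by
      linarith [le_max_left (f n ω - g n ω) 0]))) fun _ _ _ _ a b => b.mono fun n c => c.trans
        (add_le_add le_rfl (mul_le_mul_of_nonneg_right a (Nat.cast_nonneg _)))
  rw [FP.E_const, add_zero, sub_zero, ← FP.E_add, ← FP.E_sub]
  refine (P n).E_mono fun ω _ => max_le ?_ ?_
  · linarith [le_max_right (g n ω - f n ω) 0]
  · linarith [le_max_left (g n ω - f n ω) 0]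

end Pool.Agent.MP_5168f5_an.AN.Cx
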