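import Mathlib

/-! A subadditive Lipschitz function of two points is linear along a direction at small scales
around almost every point. -/

namespace Pool.Agent.MP_5168f5_an.AN.C1

open MeasureTheory Measure Set Filter Topology Metric
open scoped NNReal

variable {E : Type} [NormedAddCommGroup E] [NormedSpace ℝ E] [FiniteDimensional ℝ E]
  [MeasurableSpace E] [BorelSpace E] (μ : Measure E) [IsAddHaarMeasure μ]

namespace C1AddA

omit [NormedSpace ℝ E] [FiniteDimensional ℝ E] in
theorem shift (F : E → ℝ) (p w : E) (ρ : ℝ) :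
    ∫ y in closedBall p ρ, F (y + w) ∂μ = ∫ y in closedBall (p + w) ρ, F y ∂μ := by
  rw [← integral_indicator measurableSet_closedBall, ← integral_indicator measurableSet_closedBall,
    ← integral_add_right_eq_self ((closedBall (p + w) ρ).indicator F) w]
  congr 1
  funext y
  simp only [indicator, mem_closedBall, dist_add_right]

theorem up {φ : E → ℝ} {C : ℝ≥0} (hφ : LipschitzWith C φ) (v p : E) {ρ h c : ℝ} (hρ : 0 < ρ)
    (hh : 0 ≤ h) (hc : ∀ t ∈ Ico 0 h, ∫ y in closedBall (p + t • v) ρ, lineDeriv ℝ φ y v ∂μ ≤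
      c * μ.real (closedBall p ρ)) : φ (p + h • v) - φ p ≤ c * h + 2 * C * ρ := by
  have fin : μ (closedBall p ρ) < ⊤ := measure_closedBall_lt_top
  have pos : 0 < μ.real (closedBall p ρ) :=
    ENNReal.toReal_pos (measure_closedBall_pos μ p hρ).ne' fin.ne
  have int : ∀ w, IntegrableOn (fun y => φ (y + w)) (closedBall p ρ) μ := fun w =>
    (hφ.continuous.comp (continuous_add_const w)).continuousOn.integrableOn_compact
      (isCompact_closedBall p ρ)
  set Ψ : ℝ → ℝ := fun t => ∫ y in closedBall p ρ, φ (y + t • v) ∂μ with hΨ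
  have nr : ∀ (w : E) (z b : ℝ), (∀ y ∈ closedBall p ρ, |φ (y + w) - z| ≤ b) →
      |∫ y in closedBall p ρ, φ (y + w) ∂μ - z * μ.real (closedBall p ρ)| ≤
        b * μ.real (closedBall p ρ) := fun w z b k => by
    have := norm_setIntegral_le_of_norm_le_const (f := fun y => φ (y + w) - z) fin k
    rwa [integral_sub (int w) (integrableOn_const fin.ne), setIntegral_const, smul_eq_mul,
      mul_comm _ z] at this
  have ct : Continuous Ψ := continuous_parametric_integral_of_continuous
    (f := fun (t : ℝ) y => φ (y + t • v)) (hφ.continuous.comp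
      (f := fun q : ℝ × E => q.2 + q.1 • v) (by fun_prop)) (isCompact_closedBall p ρ)
  have mv := image_le_of_liminf_slope_right_le_deriv_boundary (f := Ψ) (a := 0) (b := h)
    ct.continuousOn (B := fun t => Ψ 0 + c * μ.real (closedBall p ρ) * t)
    (B' := fun _ => c * μ.real (closedBall p ρ)) (by simp) (by fun_prop)
    (fun t _ => by
      simpa using (((hasDerivAt_id t).const_mul
        (c * μ.real (closedBall p ρ))).const_add (Ψ 0)).hasDerivWithinAt)
    (fun t ht r hr => by
      have l : LipschitzWith C fun y => φ (y + t • v) := by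
        simpa [Function.comp_def] using hφ.comp (isometry_add_right (t • v)).lipschitz
      have k := l.integral_inv_smul_sub_mul_tendsto_integral_lineDeriv_mul (μ := μ)
        (g := (closedBall p ρ).indicator 1)
        ((integrable_indicator_iff measurableSet_closedBall).2 (integrableOn_const fin.ne)) v
      have e : ∀ F : E → ℝ, ∫ y, F y * (closedBall p ρ).indicator 1 y ∂μ =
          ∫ y in closedBall p ρ, F y ∂μ := fun F => by
        rw [← integral_indicator measurableSet_closedBall]
        congr 1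
        funext y
        by_cases m : y ∈ closedBall p ρ <;> simp [m]
      simp only [e] at k
      have e2 : ∫ y in closedBall p ρ, lineDeriv ℝ (fun y => φ (y + t • v)) y v ∂μ =
          ∫ y in closedBall (p + t • v) ρ, lineDeriv ℝ φ y v ∂μ := by
        rw [← shift]
        simp only [lineDeriv, add_right_comm]
      have s : Tendsto (fun z => z - t) (𝓝[>] t) (𝓝[>] 0) :=
        tendsto_nhdsWithin_iff.2 ⟨by
          simpa using ((continuous_sub_right t).tendsto t).mono_left nhdsWithin_le_nhds,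
          eventually_mem_nhdsWithin.mono fun z hz => mem_Ioi.2 (sub_pos.2 hz)⟩
      refine ((k.comp s).eventually_lt_const (e2 ▸ (hc t ht).trans_lt hr)).frequently.mono
        fun z hz => lt_of_eq_of_lt ?_ hz
      simp only [Function.comp, slope_def_field, hΨ, smul_eq_mul, add_assoc, ← add_smul,
        sub_add_cancel]
      rw [integral_const_mul, integral_sub (int _) (int _), div_eq_inv_mul])
    (right_mem_Icc.2 hh)
  have b : ∀ w, ∀ y ∈ closedBall p ρ, |φ (y + w) - φ (p + w)| ≤ C * ρ := fun w y hy =>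
    (hφ.dist_le_mul _ _).trans (mul_le_mul_of_nonneg_left (by rwa [dist_add_right]) C.2)
  have b1 := (abs_le.1 (nr _ _ _ (b (h • v)))).1
  have b2 := (abs_le.1 (nr _ _ _ (b ((0 : ℝ) • v)))).2
  simp only [hΨ] at mv
  rw [zero_smul, add_zero p] at b2
  rw [zero_smul] at mv
  exact le_of_mul_le_mul_right (by linarith) pos

end C1AddA

open C1AddA

/-- Differentiation of a subadditive function in the direction `v`. -/
theorem add_dir {ι : Type} [Countable ι] (x : ι → E) (a : ι → ι → ℝ) {K : ℝ} (hK : 0 ≤ K)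
    (sub : ∀ i j k, a i k ≤ a i j + a j k) (lip : ∀ i j, a i j ≤ K * ‖x i - x j‖) (v : E) :
    ∀ᵐ s ∂μ, ∃ W : ℝ, ∀ η : ℝ, 0 < η → ∃ δ : ℝ, 0 < δ ∧ ∀ r, 0 < r → r ≤ δ → ∀ i j h, 0 ≤ h →
      h ≤ r → ‖x i - s‖ ≤ r → ‖x j - s‖ ≤ r →
        |a i j - W * h| ≤ η * r + K * ‖x j - x i - h • v‖ := by
  rcases isEmpty_or_nonempty ι with _ | _
  · exact Eventually.of_forall fun s => ⟨0, fun _ _ => ⟨1, one_pos, fun _ _ _ i => isEmptyElim i⟩⟩
  lift K to ℝ≥0 using hK
  have ex : ∀ n, ∃ φ : E → ℝ, LipschitzWith K φ ∧ ∀ j, φ (x j) = a n j := fun n => by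
    have bd : ∀ y, BddBelow (range fun i => a n i + K * dist y (x i)) := fun y =>
      ⟨a n n - K * dist y (x n), by
        rintro _ ⟨i, rfl⟩
        have := mul_le_mul_of_nonneg_left (dist_triangle_left (x i) (x n) y) K.2
        rw [dist_eq_norm] at this
        have := sub n i n
        have := lip i n
        simp only [NNReal.val_eq_coe] at *
        linarith⟩
    refine ⟨fun y => ⨅ i, (a n i + K * dist y (x i)), LipschitzWith.of_le_add_mul K fun y z => ?_,
      fun j => le_antisymm ((ciInf_le (bd _) j).trans (by simp)) (le_ciInf fun i => ?_)⟩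
    · rw [← _root_.sub_le_iff_le_add]
      refine le_ciInf fun i => ?_
      have := mul_le_mul_of_nonneg_left (dist_triangle y z (x i)) K.2
      have := ciInf_le (bd y) i
      simp only [NNReal.val_eq_coe] at *
      linarith
    · rw [dist_comm, dist_eq_norm]
      linarith [sub n i j, lip i j]
  choose φ φ1 φ2 using ex
  have bl : ∀ n y, |lineDeriv ℝ (φ n) y v| ≤ K * ‖v‖ := fun n y =>
    norm_lineDeriv_le_of_lipschitz ℝ (φ1 n)
  have bm : ∀ y, BddAbove (range fun n => lineDeriv ℝ (φ n) y v) := fun y =>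
    ⟨_, by rintro _ ⟨n, rfl⟩; exact (le_abs_self _).trans (bl n y)⟩
  set m : E → ℝ := fun y => ⨆ n, lineDeriv ℝ (φ n) y v with hm
  have li : LocallyIntegrable m μ := (memLp_top_of_bound
    (Measurable.iSup fun n => measurable_lineDeriv (φ1 n).continuous).aestronglyMeasurable
    (K * ‖v‖) (Eventually.of_forall fun y => abs_le.2
      ⟨(abs_le.1 (bl (Classical.arbitrary ι) y)).1.trans (le_ciSup (bm y) _),
        ciSup_le fun n => (abs_le.1 (bl n y)).2⟩)).locallyIntegrable le_top
  filter_upwards [ae_all_iff.2 fun n => (φ1 n).ae_differentiableAt (μ := μ),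
    ae_all_iff.2 fun N : ℕ => IsUnifLocDoublingMeasure.ae_tendsto_average_norm_sub μ li N]
    with s hd hL
  refine ⟨m s, fun η hη => ?_⟩
  obtain ⟨θ, t0, t1⟩ : ∃ θ : ℝ, 0 < θ ∧ 2 * K * θ ≤ η / 2 :=
    ⟨η / (4 * K + 4), by positivity, by
      rw [← mul_div_assoc, div_le_iff₀ (by positivity)]; nlinarith⟩
  obtain ⟨N, hN⟩ := exists_nat_ge ((1 + ‖v‖) / θ)
  rw [div_le_iff₀ t0] at hN
  have l1 := (hL N (l := comap Prod.snd (𝓝[>] 0) ⊓ 𝓟 {q : E × ℝ | s ∈ closedBall q.1 (N * q.2)})
    Prod.fst Prod.snd (tendsto_comap.mono_left inf_le_left)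
    (mem_inf_of_right (mem_principal_self _))).eventually_lt_const (half_pos hη)
  rw [eventually_inf_principal, eventually_comap, (nhdsGT_basis 0).eventually_iff] at l1
  obtain ⟨δ1, d1, l1⟩ := l1
  obtain ⟨n, hn⟩ := exists_lt_of_lt_ciSup (show m s - η / 2 < m s by linarith)
  have l2 := (hd n).hasFDerivAt.isLittleO.def (show 0 < η / 4 by positivity)
  obtain ⟨δ2, d2, l2⟩ := nhds_basis_closedBall.eventually_iff.1 l2
  refine ⟨min (δ1 / (2 * θ)) δ2, lt_min (by positivity) d2, fun r r0 r1 i j h h0 h1 hi hj => ?_⟩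
  have r2 : θ * r < δ1 := by
    have := (le_div_iff₀ (by positivity)).1 (r1.trans (min_le_left _ _))
    nlinarith
  rw [abs_le]
  constructor
  · have e1 := l2 (mem_closedBall_iff_norm.2 (hi.trans (r1.trans (min_le_right _ _))))
    have e2 := l2 (mem_closedBall_iff_norm.2 (hj.trans (r1.trans (min_le_right _ _))))
    rw [(hd n).lineDeriv_eq_fderiv] at hn
    have e3 := (fderiv ℝ (φ n) s).le_of_opNorm_le (norm_fderiv_le_of_lipschitz ℝ (φ1 n))
      (x j - x i - h • v)
    rw [φ2, Real.norm_eq_abs, abs_le, map_sub] at e1 e2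
    rw [Real.norm_eq_abs, abs_le, map_sub, map_sub, map_smul, smul_eq_mul] at e3
    nlinarith [sub n i j]
  · have u := up μ (φ1 i) v (x i) (c := m s + η / 2) (mul_pos t0 r0) h0 fun t ht => by
      have fin : μ (closedBall (x i + t • v) (θ * r)) < ⊤ := measure_closedBall_lt_top
      have pos : 0 < μ.real (closedBall (x i + t • v) (θ * r)) :=
        ENNReal.toReal_pos (measure_closedBall_pos μ _ (mul_pos t0 r0)).ne' fin.ne
      have k := l1 ⟨mul_pos t0 r0, r2⟩ (x i + t • v, θ * r) rfl (by
        rw [mem_ofPred, mem_closedBall_iff_norm', add_sub_right_comm]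
        refine (norm_add_le _ _).trans ?_
        rw [norm_smul, Real.norm_of_nonneg ht.1]
        nlinarith [mul_le_mul_of_nonneg_right (ht.2.le.trans h1) (norm_nonneg v)])
      rw [setAverage_eq, smul_eq_mul, inv_mul_lt_iff₀ pos] at k
      have i1 := li.integrableOn_isCompact (isCompact_closedBall (x i + t • v) (θ * r))
      have i2 : IntegrableOn (fun _ => m s) (closedBall (x i + t • v) (θ * r)) μ :=
        integrableOn_const fin.ne
      have k2 := setIntegral_mono (((φ1 i).locallyIntegrable_lineDeriv v).integrableOn_isCompact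
        (isCompact_closedBall _ _)) ((i1.sub i2).norm.add i2) fun y => by
          have := le_ciSup (bm y) i
          have := le_abs_self (m y - m s)
          simp only [Pi.add_apply, Pi.sub_apply, Real.norm_eq_abs]
          linarith
      rw [integral_add' (i1.sub i2).norm i2, setIntegral_const, smul_eq_mul] at k2
      have e : μ.real (closedBall (x i) (θ * r)) = μ.real (closedBall (x i + t • v) (θ * r)) := by
        simp only [Measure.real, addHaar_closedBall_center]
      rw [e]
      simp only [Pi.sub_apply] at k2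
      linarith
    have w := (le_abs_self _).trans ((φ1 i).dist_le_mul (x j) (x i + h • v))
    rw [dist_eq_norm, ← sub_sub, φ2] at w
    rw [φ2] at u
    have z := lip i i
    rw [sub_self, norm_zero, mul_zero] at z
    nlinarith

/-- One parameter, with a monotone bound instead of a Lipschitz bound. -/
theorem add_mono {ι : Type} [Countable ι] (x : ι → ℝ) (a : ι → ι → ℝ) {V : ℝ → ℝ}
    (hV : Monotone V) (sub : ∀ i j k, a i k ≤ a i j + a j k)
    (bd : ∀ i j, a i j ≤ |V (x i) - V (x j)|) :
    ∀ᵐ s : ℝ, ∃ W : ℝ, ∀ η : ℝ, 0 < η → ∃ δ : ℝ, 0 < δ ∧ ∀ r, 0 < r → r ≤ δ → ∀ i j, x i ≤ x j →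
      |x i - s| ≤ r → |x j - s| ≤ r → |a i j - W * (x j - x i)| ≤ η * r := by
  have ab : ∀ s t, |s + V s - (t + V t)| = |s - t| + |V s - V t| := fun s t => by
    rcases le_total s t with h | h
    · rw [abs_of_nonpos (sub_nonpos.2 h), abs_of_nonpos (sub_nonpos.2 (hV h)),
        abs_of_nonpos (by linarith [hV h])]
      ring
    · rw [abs_of_nonneg (sub_nonneg.2 h), abs_of_nonneg (sub_nonneg.2 (hV h)),
        abs_of_nonneg (by linarith [hV h])]
      ring
  have h1 := add_dir volume (fun i => x i + V (x i)) a zero_le_one sub (fun i j => by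
    rw [one_mul, Real.norm_eq_abs, ab]; linarith [bd i j, abs_nonneg (x i - x j)]) 1
  have an : AntilipschitzWith 1 fun s => s + V s := AntilipschitzWith.of_le_mul_dist fun s t => by
    rw [Real.dist_eq, Real.dist_eq, ab]; simp
  have h2 := an.hausdorffMeasure_preimage_le zero_le_one
  rw [hausdorffMeasure_real] at h2
  have h3 := (h2 _).trans_eq (by rw [ae_iff.1 h1, mul_zero])
  filter_upwards [measure_eq_zero_iff_ae_notMem.1 (nonpos_iff_eq_zero.1 h3),
    hV.ae_differentiableAt] with s hs hd
  obtain ⟨W, hW⟩ := not_not.1 hs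
  obtain ⟨D, D0, hD⟩ : ∃ D, 0 ≤ D ∧ HasDerivAt V D s := ⟨_, hV.deriv_nonneg, hd.hasDerivAt⟩
  refine ⟨W * (1 + D), fun η hη => ?_⟩
  obtain ⟨ε, e0, e1, e2⟩ : ∃ ε : ℝ, 0 < ε ∧ ε ≤ 1 ∧ ε * (2 * (2 + D) + 2 * |W|) ≤ η :=
    ⟨min 1 (η / (2 * (2 + D) + 2 * |W|)), lt_min one_pos (by positivity), min_le_left _ _,
      (le_div_iff₀ (by positivity)).1 (min_le_right _ _)⟩
  obtain ⟨δ1, d1, l1⟩ := hW ε e0
  obtain ⟨δ2, d2, l2⟩ := nhds_basis_closedBall.eventually_iff.1 (hD.isLittleO.def e0)
  refine ⟨min (δ1 / (2 * (2 + D))) δ2, lt_min (by positivity) d2, fun r r0 r1 i j h hi hj => ?_⟩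
  have k : ∀ y, |y - s| ≤ r → |V y - V s - (y - s) * D| ≤ ε * r := fun y hy =>
    (l2 (mem_closedBall_iff_norm.2 (hy.trans (r1.trans (min_le_right _ _))))).trans
      (mul_le_mul_of_nonneg_left hy e0.le)
  have k' : ∀ y, |y - s| ≤ r → |y + V y - (s + V s)| ≤ (2 + D) * r := fun y hy => by
    have := abs_le.1 (k y hy)
    have := abs_le.1 hy
    rw [abs_le]
    constructor <;> nlinarith
  have r2 := (le_div_iff₀ (by positivity)).1 (r1.trans (min_le_left _ _))
  have p : 0 < (2 + D) * r := by positivity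
  have q := l1 (2 * (2 + D) * r) (by positivity) (by linarith) i j
    (x j + V (x j) - (x i + V (x i))) (by linarith [hV h])
    (by linarith [abs_le.1 (k' _ hi), abs_le.1 (k' _ hj)]) ((k' _ hi).trans (by linarith))
    ((k' _ hj).trans (by linarith))
  rw [smul_eq_mul, mul_one, sub_self, norm_zero, mul_zero, add_zero] at q
  have u : |W * (x j + V (x j) - (x i + V (x i))) - W * (1 + D) * (x j - x i)| ≤
      |W| * (2 * (ε * r)) := by
    rw [mul_assoc, ← mul_sub, abs_mul]
    refine mul_le_mul_of_nonneg_left (abs_le.2 ⟨?_, ?_⟩) (abs_nonneg W) <;>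
      linarith [abs_le.1 (k _ hi), abs_le.1 (k _ hj)]
  refine (abs_sub_le _ _ _).trans ((add_le_add q u).trans ?_)
  nlinarith

end Pool.Agent.MP_5168f5_an.AN.C1
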