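import Pool.Agent.MP_5168f5_an.AN.NcTay

/-! Nice points of a polynomial frame. -/

namespace Pool.Agent.MP_5168f5_an.AN.Nc

open MvPolynomial Finset H83 Metric Filter Topology Matrix

variable {n : ℕ}

/-- The bound for the derivatives of order `k` on a ball of radius `r`. -/
noncomputable def bd (r : ℝ) (k : ℕ) : ℝ := 2 * (8 / r) ^ k

theorem bd_pos {r : ℝ} (hr : 0 < r) (k : ℕ) : 0 < bd r k := by unfold bd; positivity

/-- A sheet through `y₀` over the ball of radius `r` with bounds up to order `K`. -/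
structure Nice {ι : Type} (Φ : Fin n → Pl n) (F : ι → Pl n) (K : ℕ) (r R : ℝ) (y₀ : V n)
    (σ : V n → V n) : Prop where
  sheet : Sheet Φ (ball (ev Φ y₀) r) σ
  base : σ (ev Φ y₀) = y₀
  norm : ∀ u ∈ ball (ev Φ y₀) r, ‖σ u‖ ≤ 2 * R
  der : ∀ a, ∀ k ≤ K, ∀ w, ∀ u ∈ ball (ev Φ y₀) r, |dW Φ (F a) k w (σ u)| ≤ bd r k

/-- The polynomial that compares a derivative with its bound. -/
noncomputable def cmp (Φ : Fin n → Pl n) (F : Pl n) (r : ℝ) (k : ℕ) (w : Fin k → Fin n) : Pl n :=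
  num Φ F k w ^ 2 - C (bd r k ^ 2) * (jac Φ ^ (2 * k)) ^ 2

theorem cmp_neg {Φ : Fin n → Pl n} {F : Pl n} {r : ℝ} (hr : 0 < r) {k : ℕ} {w : Fin k → Fin n}
    {y : V n} (h : eval y (jac Φ) ≠ 0) :
    eval y (cmp Φ F r k w) < 0 ↔ |dW Φ F k w y| < bd r k := by
  have h1 : 0 < (eval y (jac Φ) ^ (2 * k)) ^ 2 := by positivity
  rw [← sq_lt_sq₀ (abs_nonneg _) (bd_pos hr k).le, sq_abs, dW, div_pow, div_lt_iff₀ h1]
  simp [cmp]

theorem deg_cmp {D E : ℕ} {Φ : Fin n → Pl n} (hΦ : ∀ i, (Φ i).totalDegree ≤ D) {F : Pl n}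
    (hF : F.totalDegree ≤ E) (r : ℝ) {k K : ℕ} (hk : k ≤ K) (w : Fin k → Fin n) :
    (cmp Φ F r k w).totalDegree ≤ 2 * (E + K * (2 * (n * D))) := by
  have h0 : k * (2 * (n * D)) ≤ K * (2 * (n * D)) := Nat.mul_le_mul_right _ hk
  refine (totalDegree_sub _ _).trans (max_le ((totalDegree_pow _ _).trans ?_)
    ((totalDegree_mul _ _).trans ?_))
  · have := deg_num hΦ hF k w
    omega
  · have h1 := (totalDegree_pow (jac Φ ^ (2 * k)) 2).trans (Nat.mul_le_mul_left 2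
      ((totalDegree_pow _ _).trans (Nat.mul_le_mul_left (2 * k) (deg_jac hΦ))))
    have h2 : 2 * k * (n * D) = k * (2 * (n * D)) := by ring
    rw [totalDegree_C]
    omega

theorem Sheet.bound {Φ : Fin n → Pl n} {F : Pl n} {r : ℝ} {u₀ : V n} {σ : V n → V n} {K : ℕ}
    (h : Sheet Φ (ball u₀ r) σ) (hr : 0 < r) (h0 : |eval (σ u₀) F| ≤ 1)
    (hc : ∀ k ≤ K, ∀ w, cmp Φ F r k w ≠ 0 → ∀ u ∈ ball u₀ r, eval (σ u) (cmp Φ F r k w) ≠ 0) :
    ∀ k ≤ K, ∀ w, ∀ u ∈ ball u₀ r, |dW Φ F k w (σ u)| ≤ bd r k := by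
  have key : ∀ k ≤ K, ∀ w, (∃ v ∈ ball u₀ r, |dW Φ F k w (σ v)| < bd r k) →
      ∀ u ∈ ball u₀ r, |dW Φ F k w (σ u)| ≤ bd r k := by
    rintro k hk w ⟨v, hv, e⟩ u hu
    have h1 := (cmp_neg hr (h.jac v hv)).2 e
    exact ((cmp_neg hr (h.jac u hu)).1 (h.neg (convex_ball _ _).isPreconnected
      (hc k hk w fun z => by simp [z] at h1) hv h1 u hu)).le
  intro k
  induction k with
  | zero => exact fun hk w => key 0 hk w ⟨u₀, mem_ball_self hr, by simp [bd]; linarith⟩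
  | succ k ih =>
    intro hk w
    obtain ⟨v, hv, e⟩ := (h.tower isOpen_ball F).small hr w (ih (by omega) _)
    refine key _ hk w ⟨v, hv, e.trans_lt ?_⟩
    have := bd_pos hr k
    have e1 : bd r (k + 1) = 8 * bd r k / r := by unfold bd; ring
    rw [e1]
    exact div_lt_div_of_pos_right (by linarith) hr

/-- Points whose frame coordinates are far from the zeros of one polynomial are nice. -/
theorem nice (n D E K m : ℕ) : ∃ L : ℕ, ∀ (ι : Type) [Fintype ι] (Φ : Fin n → Pl n) (F : ι → Pl n)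
    (r R : ℝ), Fintype.card ι ≤ m → 0 < r → 0 < R → (∀ i, (Φ i).totalDegree ≤ D) →
    (∀ a, (F a).totalDegree ≤ E) → jac Φ ≠ 0 → ∃ H : Pl n, H ≠ 0 ∧ H.totalDegree ≤ L ∧
      (∀ u, eval u H ≠ 0 → ∃ T : Finset (V n), T.card ≤ ord n D ^ n ∧ ∀ y, ev Φ y = u → y ∈ T) ∧
      ∀ y₀, ‖y₀‖ ≤ R → (∀ a, |eval y₀ (F a)| ≤ 1) → (∀ u ∈ ball (ev Φ y₀) r, eval u H ≠ 0) →
        ∃ σ, Nice Φ F K r R y₀ σ := by
  classical
  let W := (k : Fin (K + 1)) × (Fin k → Fin n)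
  refine ⟨n * (n * ord n D) + n * (ord n D * (n * D)) + n * (n * (ord n D * 2)) +
    m * Fintype.card W * (n * (ord n D * (2 * (E + K * (2 * (n * D)))))), ?_⟩
  intro ι _ Φ F r R hm hr hR hΦ hF hj
  obtain ⟨H₁, a₁, b₁, c₁⟩ := fibre Φ hΦ
  obtain ⟨H₂, a₂, b₂, c₂⟩ := elim' Φ hΦ (deg_jac hΦ) hj
  obtain ⟨H₃, a₃, b₃, c₃⟩ := elim_fam (E := 2) Φ (fun i : Fin n => X i ^ 2 - C ((2 * R) ^ 2)) hΦ
    fun i => (totalDegree_sub _ _).trans (by rw [totalDegree_X_pow, totalDegree_C]; simp)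
  obtain ⟨H₄, a₄, b₄, c₄⟩ := elim_fam Φ (fun p : ι × W => cmp Φ (F p.1) r p.2.1 p.2.2) hΦ
    fun p => deg_cmp hΦ (hF p.1) r (Nat.lt_succ_iff.1 p.2.1.2) p.2.2
  have hs : ∀ u, eval u (H₁ * H₂ * H₃ * H₄) ≠ 0 →
      eval u H₁ ≠ 0 ∧ eval u H₂ ≠ 0 ∧ eval u H₃ ≠ 0 ∧ eval u H₄ ≠ 0 := fun u hu => by
    simpa only [map_mul, mul_ne_zero_iff, and_assoc] using hu
  refine ⟨H₁ * H₂ * H₃ * H₄, mul_ne_zero (mul_ne_zero (mul_ne_zero a₁ a₂) a₃) a₄, ?_,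
    fun u hu => c₁ u (hs u hu).1, fun y₀ hy h1 hH => ?_⟩
  · rw [Fintype.card_fin] at b₃
    rw [Fintype.card_prod] at b₄
    exact (totalDegree_mul _ _).trans (add_le_add ((totalDegree_mul _ _).trans (add_le_add
      ((totalDegree_mul _ _).trans (add_le_add b₁ b₂)) b₃))
      (b₄.trans (Nat.mul_le_mul_right _ (Nat.mul_le_mul_right _ hm))))
  obtain ⟨σ, s₁, s₂, s₃⟩ := exists_sheet Φ (convex_ball (ev Φ y₀) r) isOpen_ball (R := 2 * R)
    (y₀ := y₀) (by linarith) (mem_ball_self hr) fun y k₁ k₂ => by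
      refine ⟨(pi_norm_lt_iff (by linarith)).2 fun i => ?_, c₂ y (hs _ (hH _ k₂)).2.1⟩
      refine lt_of_le_of_ne ((norm_le_pi_norm y i).trans k₁) fun e => ?_
      refine c₃ y (hs _ (hH _ k₂)).2.2.1 i (fun z => ?_) ?_
      · have := congrArg (eval 0) z
        simp [hR.ne'] at this
      · simp [← e]
  refine ⟨σ, s₁, s₂, s₃, fun a => s₁.bound hr (by rw [s₂]; exact h1 a) fun k hk w z u hu => ?_⟩
  exact c₄ (σ u) (by rw [s₁.inv u hu]; exact (hs _ (hH u hu)).2.2.2)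
    (a, ⟨⟨k, Nat.lt_succ_iff.2 hk⟩, w⟩) z

section

variable {ι : Type} {Φ : Fin n → Pl n} {F : ι → Pl n} {K : ℕ} {r R : ℝ} {y₀ : V n}
  {σ : V n → V n}

theorem Nice.jac (h : Nice Φ F K r R y₀ σ) (hr : 0 < r) : eval y₀ (jac Φ) ≠ 0 :=
  h.base ▸ h.sheet.jac _ (mem_ball_self hr)

/-- Bounds at the base point. -/
theorem Nice.der₀ (h : Nice Φ F K r R y₀ σ) (hr : 0 < r) (a : ι) {k : ℕ} (hk : k ≤ K)
    (w : Fin k → Fin n) : |dW Φ (F a) k w y₀| ≤ bd r k :=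
  h.base ▸ h.der a k hk w _ (mem_ball_self hr)

/-- The Taylor formula on a nice sheet. -/
theorem Nice.taylor (h : Nice Φ F K r R y₀ σ) (a : ι) {k : ℕ} (hk : k + 1 ≤ K) {u u' : V n}
    (hu : u ∈ ball (ev Φ y₀) r) (hu' : u' ∈ ball (ev Φ y₀) r) :
    |eval (σ u') (F a) - eval u' (tay (fun k w => dW Φ (F a) k w (σ u)) u k)| ≤
      bd r (k + 1) * (n * ‖u' - u‖) ^ (k + 1) := by
  simpa only [dW_zero] using (h.sheet.tower isOpen_ball (F a)).taylor (convex_ball _ _) hu hu' k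
    (h.der a (k + 1) hk) default

/-- The Lipschitz bound on a nice sheet. -/
theorem Nice.lip (h : Nice Φ F K r R y₀ σ) (a : ι) (hk : 1 ≤ K) {u u' : V n}
    (hu : u ∈ ball (ev Φ y₀) r) (hu' : u' ∈ ball (ev Φ y₀) r) :
    |eval (σ u') (F a) - eval (σ u) (F a)| ≤ 16 / r * (n * ‖u' - u‖) := by
  have := h.taylor a (k := 0) hk hu hu'
  rw [eval_tay] at this
  have e : bd r (0 + 1) = 16 / r := by unfold bd; ring
  simpa [e] using this

/-- Two nice points over a common convex set lie on the same sheet when their sheets meet. -/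
theorem Nice.same {y₁ c : V n} {τ : V n → V n} (h : Nice Φ F K r R y₀ σ) (h' : Nice Φ F K r R y₁ τ)
    (hr : 0 < r) (hc : c ∈ ball (ev Φ y₀) r) (hc' : c ∈ ball (ev Φ y₁) r) (e : σ c = τ c)
    (hy : ev Φ y₁ ∈ ball (ev Φ y₀) r) : σ (ev Φ y₁) = y₁ :=
  (Sheet.unique (h.sheet.mono Set.inter_subset_left) (h'.sheet.mono Set.inter_subset_right)
    ((convex_ball _ _).inter (convex_ball _ _)).isPreconnected ⟨hc, hc'⟩ e _
    ⟨hy, mem_ball_self hr⟩).trans h'.base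

end

end Pool.Agent.MP_5168f5_an.AN.Nc
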