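import Pool.Agent.MP_5168f5_an.R4.Defs

/-! Kakeya sets in all dimensions: the polynomial kit, definitions and statements. -/

namespace Pool.Agent.MP_5168f5_an.AN.Pk

open H19 H17S H17F MvPolynomial MeasureTheory

/-- The sum of the absolute values of the coefficients. -/
noncomputable def cn {σ : Type} (F : MvPolynomial σ ℝ) : ℝ := ∑ α ∈ F.support, |F.coeff α|

/-- The exponents of total degree at most `E`. -/
noncomputable def mons (σ : Type) [Fintype σ] [DecidableEq σ] (E : ℕ) : Finset (σ →₀ ℕ) :=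
  (Finset.range (E + 1)).biUnion fun r => Finset.finsuppAntidiag Finset.univ r

/-- A polynomial of degree at most `E` in each variable separately. -/
def SP {σ : Type} [DecidableEq σ] (E : ℕ) (F : (σ → ℝ) → ℝ) : Prop :=
  ∀ x i, ∃ q : Polynomial ℝ, q.natDegree ≤ E ∧ ∀ s, F (Function.update x i s) = q.eval s

/-- The first `k` coordinates of `x` followed by the other coordinates of `y`. -/
def mix {n : ℕ} (x y : Fin n → ℝ) (k : ℕ) : Fin n → ℝ := fun j => if (j : ℕ) < k then x j else y j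

/-- The coefficient norm, first part. -/
structure Cn1 : Prop where
  nonneg : ∀ {σ : Type} (F : MvPolynomial σ ℝ), 0 ≤ cn F
  zero : ∀ {σ : Type} (F : MvPolynomial σ ℝ), cn F = 0 ↔ F = 0
  coeff : ∀ {σ : Type} (F : MvPolynomial σ ℝ) (α : σ →₀ ℕ), |F.coeff α| ≤ cn F
  sup : ∀ {σ : Type} (F : MvPolynomial σ ℝ) (S : Finset (σ →₀ ℕ)), F.support ⊆ S →
    cn F = ∑ α ∈ S, |F.coeff α|
  mono : ∀ {σ : Type} (α : σ →₀ ℕ) (c : ℝ), cn (monomial α c) = |c|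
  const : ∀ {σ : Type} (c : ℝ), cn (C c : MvPolynomial σ ℝ) = |c|
  var : ∀ {σ : Type} (i : σ), cn (X i : MvPolynomial σ ℝ) = 1
  add : ∀ {σ : Type} (F G : MvPolynomial σ ℝ), cn (F + G) ≤ cn F + cn G
  sub : ∀ {σ : Type} (F G : MvPolynomial σ ℝ), cn (F - G) ≤ cn F + cn G
  smul : ∀ {σ : Type} (c : ℝ) (F : MvPolynomial σ ℝ), cn (c • F) = |c| * cn F
  sum : ∀ {σ ι : Type} (S : Finset ι) (F : ι → MvPolynomial σ ℝ),
    cn (∑ a ∈ S, F a) ≤ ∑ a ∈ S, cn (F a)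
  mul : ∀ {σ : Type} (F G : MvPolynomial σ ℝ), cn (F * G) ≤ cn F * cn G
  pow : ∀ {σ : Type} (F : MvPolynomial σ ℝ) (k : ℕ), cn (F ^ k) ≤ cn F ^ k
  prod : ∀ {σ ι : Type} (S : Finset ι) (F : ι → MvPolynomial σ ℝ),
    cn (∏ a ∈ S, F a) ≤ ∏ a ∈ S, cn (F a)

/-- The coefficient norm. -/
structure Cn : Prop extends Cn1 where
  der : ∀ {σ : Type} (F : MvPolynomial σ ℝ) (E : ℕ) (i : σ), F.totalDegree ≤ E →
    cn (pderiv i F) ≤ E * cn F ∧ (pderiv i F).totalDegree ≤ E - 1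
  ren : ∀ {σ τ : Type} (f : σ → τ) (F : MvPolynomial σ ℝ), Function.Injective f →
    cn (rename f F) = cn F
  comp : ∀ {σ τ : Type} (Φ : σ → MvPolynomial τ ℝ) (F : MvPolynomial σ ℝ) (E : ℕ) (B : ℝ),
    F.totalDegree ≤ E → 1 ≤ B → (∀ i, cn (Φ i) ≤ B) → cn (aeval Φ F) ≤ cn F * B ^ E
  deg : ∀ {σ τ : Type} (Φ : σ → MvPolynomial τ ℝ) (F : MvPolynomial σ ℝ) (E D : ℕ),
    F.totalDegree ≤ E → (∀ i, (Φ i).totalDegree ≤ D) → (aeval Φ F).totalDegree ≤ E * D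
  val : ∀ {σ : Type} (F : MvPolynomial σ ℝ) (E : ℕ) (K : ℝ) (x : σ → ℝ), F.totalDegree ≤ E →
    1 ≤ K → (∀ i, |x i| ≤ K) → |eval x F| ≤ cn F * K ^ E
  lip : ∀ {σ : Type} (F : MvPolynomial σ ℝ) (E : ℕ) (K ε : ℝ) (x y : σ → ℝ), F.totalDegree ≤ E →
    1 ≤ K → 0 ≤ ε → (∀ i, |x i| ≤ K ∧ |y i| ≤ K ∧ |x i - y i| ≤ ε) →
    |eval x F - eval y F| ≤ E * cn F * K ^ E * ε

/-- Counting monomials; restriction to lines. -/
structure Cnt : Prop where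
  mem : ∀ {σ : Type} [Fintype σ] [DecidableEq σ] (E : ℕ) (α : σ →₀ ℕ),
    α ∈ mons σ E ↔ ∑ j, α j ≤ E
  sup : ∀ {σ : Type} [Fintype σ] [DecidableEq σ] (E : ℕ) (F : MvPolynomial σ ℝ),
    F.totalDegree ≤ E ↔ F.support ⊆ mons σ E
  card : ∀ {σ : Type} [Fintype σ] [DecidableEq σ] (E : ℕ),
    (mons σ E).card = (E + Fintype.card σ).choose (Fintype.card σ)
  val : ∀ {σ : Type} [Fintype σ] [DecidableEq σ] (E : ℕ) (F : MvPolynomial σ ℝ) (x : σ → ℝ),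
    F.totalDegree ≤ E → eval x F = ∑ α : mons σ E, F.coeff α.1 * ∏ j, x j ^ α.1 j
  ex : ∀ {σ : Type} [Fintype σ] [DecidableEq σ] (E : ℕ) (c : mons σ E → ℝ),
    ∃ F : MvPolynomial σ ℝ, F.totalDegree ≤ E ∧ ∀ α : mons σ E, F.coeff α.1 = c α
  sp : ∀ {σ : Type} [DecidableEq σ] (E : ℕ) (F : MvPolynomial σ ℝ), F.totalDegree ≤ E →
    SP E fun x => eval x F
  line : ∀ {σ : Type} (E : ℕ) (F : MvPolynomial σ ℝ) (a v : σ → ℝ), F.totalDegree ≤ E →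
    ∃ q : Polynomial ℝ, q.natDegree ≤ E ∧ ∀ s : ℝ, eval (a + s • v) F = q.eval s

/-- One variable: a sublevel set is covered by `E` intervals; the walk from `y` to `x`. -/
structure Lag : Prop where
  cov : ∀ (q : Polynomial ℝ) (E : ℕ) (y R μ : ℝ), q.natDegree ≤ E → 0 < μ →
    ∃ T : Finset ℝ, T.card ≤ E ∧ ∀ s, |s - y| ≤ R →
      (E + 1) * R ^ E * |q.eval s| < μ ^ E * |q.eval y| → ∃ c ∈ T, |s - c| < μ
  walk : ∀ {n : ℕ} (F : (Fin n → ℝ) → ℝ) (x y : Fin n → ℝ) (A B : ℝ), 0 ≤ A → 0 ≤ B →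
    A ^ n * |F x| < B ^ n * |F y| →
    ∃ i : Fin n, A * |F (Function.update (mix x y i) i (x i))| <
      B * |F (Function.update (mix x y i) i (y i))|

/-- Sublevel sets have small volume. -/
def SubV : Prop := ∀ (n E : ℕ) (F : (Fin n → ℝ) → ℝ) (x₀ y : Fin n → ℝ) (r R μ : ℝ), SP E F →
  Measurable F → 0 < μ → 0 ≤ r → ‖y - x₀‖ + r ≤ R →
  volume {x | ‖x - x₀‖ ≤ r ∧ ((E + 1) * R ^ E) ^ n * |F x| < (μ ^ E) ^ n * |F y|} ≤
    ENNReal.ofReal (n * (2 * E * μ) * (2 * r) ^ (n - 1))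

/-- Sublevel sets have small probability if every coordinate is spread given the previous ones;
the function and the reference point may depend on the context. -/
def SubC : Prop := ∀ {Ω Γ : Type} (P : FP Ω) (n E : ℕ) (F : Ω → (Fin n → ℝ) → ℝ)
  (x y : Ω → Fin n → ℝ) (G : Fin n → Ω → Γ) (R μ b : ℝ), (∀ ω ∈ P.S, SP E (F ω)) → 0 < μ →
  (∀ ω ∈ P.S, ‖x ω - y ω‖ ≤ R) →
  (∀ i : Fin n, Fn P (fun ω => (F ω, mix (x ω) (y ω) i)) (G i) ∧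
    ∀ a ∈ P.S, ∀ c : ℝ, pb (cv P (G i) (G i a)) (fun ω => |x ω i - c| < μ) ≤ b) →
  pb P (fun ω => ((E + 1) * R ^ E) ^ n * |F ω (x ω)| < (μ ^ E) ^ n * |F ω (y ω)|) ≤ n * E * b

/-- Comparison of norms, dilation and the inequality of Markov. -/
def Neq : Prop := ∀ n E : ℕ, ∃ C : ℝ, 1 ≤ C ∧ ∀ F : MvPolynomial (Fin n) ℝ, F.totalDegree ≤ E →
  (∃ y : Fin n → ℝ, ‖y‖ ≤ 1 ∧ cn F ≤ C * |eval y F|) ∧
  ∀ (x₀ : Fin n → ℝ) (r R θ : ℝ), 0 < r → r ≤ R → (∀ x, ‖x - x₀‖ ≤ r → |eval x F| ≤ θ) →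
    (1 ≤ R → ‖x₀‖ ≤ R → cn F ≤ C * (R / r) ^ E * θ) ∧ ∀ z, ‖z - x₀‖ ≤ R →
      |eval z F| ≤ C * (R / r) ^ E * θ ∧ ∀ i, r * |eval z (pderiv i F)| ≤ C * (R / r) ^ E * θ

/-- Sublevel sets have small probability under a density bound for dyadic cells. -/
def SubP : Prop := ∀ n E : ℕ, ∃ C : ℝ, 1 ≤ C ∧ ∀ {Ω : Type} (P : FP Ω) (x : Ω → Fin n → ℝ)
  (G : Ω → Prop) (F : MvPolynomial (Fin n) ℝ) (K D μ : ℝ) (j : ℕ), F.totalDegree ≤ E → 1 ≤ K →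
  0 ≤ D → (∀ ω ∈ P.S, G ω → ‖x ω‖ ≤ K) →
  (∀ c, pb P (fun ω => G ω ∧ flv j (x ω) = c) ≤ D / (2 ^ j) ^ n) → 0 < μ →
  C * K ^ E ≤ μ ^ (n * E) * 2 ^ j →
  pb P (fun ω => G ω ∧ C * |eval (x ω) F| < μ ^ (n * E) * cn F) ≤ C * D * K ^ n * μ

/-- The coefficient norm is almost multiplicative. -/
def Gel : Prop := ∀ n E : ℕ, ∃ C : ℝ, 1 ≤ C ∧ ∀ F G : MvPolynomial (Fin n) ℝ,
  F.totalDegree ≤ E → G.totalDegree ≤ E → cn F * cn G ≤ C * cn (F * G)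

/-- The inequality of Remez under a density bound for dyadic cells. -/
def RemD : Prop := ∀ n E : ℕ, ∃ C : ℝ, 1 ≤ C ∧ ∀ {Ω : Type} (P : FP Ω) (x : Ω → Fin n → ℝ)
  (G : Ω → Prop) (F : MvPolynomial (Fin n) ℝ) (K D θ κ : ℝ) (j : ℕ), F.totalDegree ≤ E → 1 ≤ K →
  1 ≤ D → (∀ ω ∈ P.S, G ω → ‖x ω‖ ≤ K) →
  (∀ c, pb P (fun ω => G ω ∧ flv j (x ω) = c) ≤ D / (2 ^ j) ^ n) → 0 < κ →
  C * K ^ E * (C * D * K ^ n / κ) ^ (n * E) ≤ 2 ^ j →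
  κ ≤ pb P (fun ω => G ω ∧ |eval (x ω) F| ≤ θ) → cn F ≤ C * (C * D * K ^ n / κ) ^ (n * E) * θ

def OfCn : Prop := Cn1 → Cn
def OfSubV : Prop := Lag → SubV
def OfSubC : Prop := Lag → SubC
def OfNeq : Prop := Cn → Cnt → Neq
def OfSubP : Prop := Cn → Cnt → Neq → SubV → SubP
def OfGel : Prop := Cn → Cnt → Neq → SubV → Gel
def OfRemD : Prop := SubP → RemD

end Pool.Agent.MP_5168f5_an.AN.Pk
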