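import Pool.Agent.MP_5168f5_an.AN.G39Defs
import Pool.Agent.MP_5168f5_an.AN.SpecP
import Pool.Agent.MP_5168f5_an.AN.Nice

/-! Kakeya sets in all dimensions: kinds, systems, cells, the theorem. -/

namespace Pool.Agent.MP_5168f5_an.AN

open H19 H17S H17F R4 Filter MvPolynomial
open G39 (nu RG dl REM)
open Pk (cn)
open Nc (Pl ev jac)

/-! ### One space -/

/-- A kind: the label `Z`, the chart index `W` and the parameter `p`. -/
structure Kd (k : ℕ) (Ω : Type) : Type 1 where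
  T : Type
  Z : Ω → T
  W : Ω → ℕ
  p : Ω → V k

namespace Kd

variable {k N : ℕ} {Ω Ω' : Type} (κ : Kd k Ω)

/-- The piece of level `t`. -/
noncomputable def pc (t : ℕ) (ω : Ω) : κ.T × ℕ × H17S.Z k := (κ.Z ω, κ.W ω, fl t (κ.p ω))

/-- Pull back. -/
abbrev pull (f : Ω' → Ω) : Kd k Ω' :=
  ⟨κ.T, fun v => κ.Z (f v), fun v => κ.W (f v), fun v => κ.p (f v)⟩

/-- Add a context. -/
abbrev ctx {K : Type} (β : Ω → K) : Kd k Ω := ⟨K × κ.T, fun ω => (β ω, κ.Z ω), κ.W, κ.p⟩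

/-- Zoom into the piece of level `t`. -/
noncomputable abbrev zm (t : ℕ) : Kd k Ω :=
  ⟨κ.T × ℕ × H17S.Z k, κ.pc t, fun _ => 0, fun ω => fr t (κ.p ω)⟩

/-- Add the noise `ξ` to the parameters. -/
abbrev nz (ξ : Ω → V N) : Kd (k + N) Ω := ⟨κ.T, κ.Z, κ.W, fun ω => Fin.append (κ.p ω) (ξ ω)⟩

/-- Jets of order `j + 1` for the point `x` as a function of the parameter, with a long minor
of size `m`. -/
def Wh (P : FP Ω) (x : Ω → V N) (m j : ℕ) (G : Ω → Prop) (Γ : ℝ) : Prop :=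
  ∃ τ : Ω → Fin N → Pl k, ∀ ω ∈ P.S, G ω →
    (∀ i, (τ ω i).totalDegree ≤ j + 1 ∧ cn (τ ω i) ≤ Γ) ∧
    (∃ (r : Fin m → Fin N) (c : Fin m → Fin k),
      Γ⁻¹ ≤ |(Matrix.of fun a b => coeff (Finsupp.single (c b) 1) (τ ω (r a))).det|) ∧
    ∀ v ∈ P.S, G v → κ.Z v = κ.Z ω → κ.W v = κ.W ω →
      ‖x v - ev (τ ω) (κ.p v - κ.p ω)‖ ≤ Γ * ‖κ.p v - κ.p ω‖ ^ (j + 2)

end Kd

/-- Two kinds. -/
abbrev Sy (k : Bool → ℕ) (Ω : Type) : Type 1 := ∀ b, Kd (k b) Ω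

/-- The system of two given kinds. -/
abbrev two {k₁ k₂ : ℕ} {Ω : Type} (κ₁ : Kd k₁ Ω) (κ₂ : Kd k₂ Ω) :
    Sy (fun b => cond b k₁ k₂) Ω :=
  fun b => Bool.rec (motive := fun b => Kd (cond b k₁ k₂) Ω) κ₂ κ₁ b

section One

variable {N N' : ℕ} {Ω Λ : Type}

/-- The point kind. -/
abbrev ptK (y : Ω → Λ) : Kd 0 Ω := ⟨Λ, y, fun _ => 0, fun _ => 0⟩

/-- The point in the chart `Θ`. -/
noncomputable def cht (Θ : Ω → Fin N' → Pl N) (x : Ω → V N) (ω : Ω) : V N' := ev (Θ ω) (x ω)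

/-- The norm of the cell of `ω`. -/
noncomputable def nc (P : FP Ω) (x : Ω → V N) (A : Ω → Λ) (ω : Ω) (F : Pl N) : ℝ :=
  nu (cv P A (A ω)) fun v => eval (x v) F

/-- Density bound for `y` given `A` at resolution `2^{-j}`. -/
def Dens (P : FP Ω) (y : Ω → V N) (A : Ω → Λ) (j : ℕ) (G : Ω → Prop) (Γ : ℝ) : Prop :=
  ∀ ω ∈ P.S, ∀ c, pb (cv P A (A ω)) (fun v => G v ∧ fl j (y v) = c) ≤ Γ / (2 ^ j) ^ N

/-- The uniform law on the grid of side `2^{-J}` in the unit cube. -/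
noncomputable def grid (N J : ℕ) : FP (Fin N → Fin (2 ^ J)) :=
  FP.unif Finset.univ ⟨fun _ => ⟨0, by positivity⟩, Finset.mem_univ _⟩

/-- The grid point. -/
noncomputable def gp {J : ℕ} (a : Fin N → Fin (2 ^ J)) : V N := fun i => (a i : ℕ) / 2 ^ J

/-- The point with noise of size `2^{-h}`. -/
noncomputable def blur (x ξ : Ω → V N) (h : ℕ) (ω : Ω) : V N := x ω + ((2 : ℝ) ^ h)⁻¹ • ξ ω

end One

/-! ### Sequences -/

section Seq

variable {N N' k : ℕ} {Ω Λ : ℕ → Type} (P : ∀ n, FP (Ω n)) (M : ℕ → ℕ)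

/-- A property of a good set and a subexponential constant. -/
def Gd (q : ∀ n, (Ω n → Prop) → ℝ → Prop) : Prop :=
  ∃ (G : ∀ n, Ω n → Prop) (Γ : ℕ → ℝ), Whp P G ∧ Sub M Γ ∧ ∀ᶠ n in UF, q n (G n) (Γ n)

/-- A pointwise property of good points. -/
def Gp (q : ∀ n, Ω n → ℝ → Prop) : Prop := Gd P M fun n G Γ => ∀ ω ∈ (P n).S, G ω → q n ω Γ

/-- A property of all sequences of typical points. -/
def Typ (K : (∀ n, Ω n) → Prop) : Prop := ∃ G : ∀ n, Ω n → Prop, Whp P G ∧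
  ∀ ω : ∀ n, Ω n, (∀ᶠ n in UF, ω n ∈ (P n).S ∧ G n (ω n)) → K ω

/-- The laws in the cells of a sequence of points. -/
noncomputable abbrev fib (A : ∀ n, Ω n → Λ n) (ω : ∀ n, Ω n) : ∀ n, FP (Ω n) :=
  fun n => cv (P n) (A n) (A n (ω n))

/-- `F` is eventually a function of `G`. -/
def FnE {α β : ℕ → Type} (F : ∀ n, Ω n → α n) (G : ∀ n, Ω n → β n) : Prop :=
  ∀ᶠ n in UF, Fn (P n) (F n) (G n)

/-- Bounded vectors. -/
def Bdd (y : ∀ n, Ω n → V N) : Prop := Gp P M fun n ω Γ => ‖y n ω‖ ≤ Γ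

/-- Indices with few values. -/
def Few (c : ℝ) (β : ∀ n, Ω n → ℕ) : Prop :=
  Gp P M fun n ω Γ => (β n ω : ℝ) ≤ Γ * Real.exp (c * M n)

/-- `y` has bounded density given `A` at resolution `2^{-j}`. -/
def FullAt (y : ∀ n, Ω n → V N) (A : ∀ n, Ω n → Λ n) (j : ℕ → ℕ) : Prop :=
  Gd P M fun n => Dens (P n) (y n) (A n) (j n)

/-- `y` has bounded density given `A` at all resolutions. -/
def Full (y : ∀ n, Ω n → V N) (A : ∀ n, Ω n → Λ n) : Prop :=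
  ∀ K : ℕ, FullAt P M y A fun n => K * M n

/-- The class of kinds for the point `x`. -/
structure Kind (x : ∀ n, Ω n → V N) (κ : ∀ n, Kd k (Ω n)) (C m : ℕ) : Prop where
  bd : Bdd P M fun n => (κ n).p
  few : Few P M 0 fun n => (κ n).W
  rem : ∀ K : ℕ, REM P x M (fun n => (κ n).Z) C K
  den : Full P M (fun n => (κ n).p) fun n => (κ n).Z
  wh : ∀ j, Gd P M fun n => (κ n).Wh (P n) (x n) m j

/-- The class of systems. -/
structure Sys {k : Bool → ℕ} (x : ∀ n, Ω n → V N) (s : ∀ n, Sy k (Ω n)) (C : ℕ) (m : Bool → ℕ) :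
    Prop where
  big : Big M
  bd : Bdd P M x
  kd : ∀ b, Kind P M x (fun n => s n b) C (m b)

variable {β : Bool → ℕ → Type}

/-- A common function of the two variables. -/
def Com (Z : ∀ b n, Ω n → β b n) (A : ∀ n, Ω n → Λ n) : Prop := ∀ b, FnE P A (Z b)

/-- No common polynomial is thin relative to the size `ν`. -/
def NT (x : ∀ n, Ω n → V N) (Z : ∀ b n, Ω n → β b n) (ν : ∀ n, Ω n → Pl N → ℝ) : Prop :=
  ∀ (E : ℕ) (c : ℝ) (F : ∀ b n, β b n → Pl N), 0 < c → (∀ b n z, (F b n z).totalDegree ≤ E) →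
    Whp P fun n ω => ¬(F true n (Z true n ω) = F false n (Z false n ω) ∧
      |eval (x n ω) (F true n (Z true n ω))| < dl M c n * ν n ω (F true n (Z true n ω)))

/-- The coordinates are a frame of a minimal cell. -/
def MIN (x : ∀ n, Ω n → V N) (Z : ∀ b n, Ω n → β b n) : Prop := NT P M x Z fun _ _ => cn

/-- `A` is a minimal label. -/
structure CM (x : ∀ n, Ω n → V N) (Z : ∀ b n, Ω n → β b n) (A : ∀ n, Ω n → Λ n) : Prop where
  com : Com P Z A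
  nt : NT P M x Z fun n => nc (P n) (x n) (A n)

/-- `Θ` is a family of independent bounded polynomials read from `A`. -/
structure Frm (x : ∀ n, Ω n → V N) (Z : ∀ b n, Ω n → β b n) (A : ∀ n, Ω n → Λ n)
    (Θ : ∀ n, Ω n → Fin N' → Pl N) (D : ℕ) : Prop where
  fn : FnE P Θ A
  deg : ∀ n ω i, (Θ n ω i).totalDegree ≤ D
  bd : Bdd P M fun n => cht (Θ n) (x n)
  min : MIN P M (fun n => cht (Θ n) (x n)) Z

/-- A minimal cell with a frame. -/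
structure Cel (x : ∀ n, Ω n → V N) (Z : ∀ b n, Ω n → β b n) (A : ∀ n, Ω n → Λ n)
    (Θ : ∀ n, Ω n → Fin N → Pl N) (D : ℕ) : Prop where
  cm : CM P M x Z A
  frm : Frm P M x Z A Θ D

/-- No nonzero polynomial vanishes on a typical cell. -/
def NZ (x : ∀ n, Ω n → V N) (A : ∀ n, Ω n → Λ n) : Prop := ∀ E : ℕ,
  Whp P fun n ω => ∀ F : Pl N, F.totalDegree ≤ E → F ≠ 0 → 0 < nc (P n) (x n) (A n) ω F

/-- The cells of `A` are at most power thin. -/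
def Fat (x : ∀ n, Ω n → V N) (A : ∀ n, Ω n → Λ n) : Prop := ∀ E : ℕ, ∃ B : ℝ,
  Whp P fun n ω => ∀ F : Pl N, F.totalDegree ≤ E → dl M B n * cn F ≤ nc (P n) (x n) (A n) ω F

/-- The depth of the cells of `A` is at most `g`. -/
def DLe (x : ∀ n, Ω n → V N) (A : ∀ n, Ω n → Λ n) (g : ℕ → ℕ) : Prop := ∀ E : ℕ,
  Gp P M fun n ω Γ => ∀ F : Pl N, F.totalDegree ≤ E → ∀ i,
    nc (P n) (x n) (A n) ω (pderiv i F) ≤ Γ * 2 ^ g n * nc (P n) (x n) (A n) ω F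

/-- The depth of the cells of `A` is at least `g`, seen in degree `E`. -/
def DGe (x : ∀ n, Ω n → V N) (A : ∀ n, Ω n → Λ n) (E : ℕ) (g : ℕ → ℕ) : Prop :=
  Gp P M fun n ω Γ => ∃ (F : Pl N) (i : Fin N), F.totalDegree ≤ E ∧
    0 < nc (P n) (x n) (A n) ω F ∧
    2 ^ g n * nc (P n) (x n) (A n) ω F ≤ Γ * nc (P n) (x n) (A n) ω (pderiv i F)

/-- The Jacobian of `Θ` has size `exp v`. -/
def Vol (x : ∀ n, Ω n → V N) (Θ : ∀ n, Ω n → Fin N → Pl N) (v : ℕ → ℝ) : Prop :=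
  Gp P M fun n ω Γ => Real.exp (v n) ≤ Γ * |eval (x n ω) (jac (Θ n ω))| ∧
    |eval (x n ω) (jac (Θ n ω))| ≤ Γ * Real.exp (v n)

/-- On the whole support, `y` meets at most `exp (-η M) 2^{N j}` cells in each fibre of `A`. -/
def Poor (y : ∀ n, Ω n → V N) (A : ∀ n, Ω n → Λ n) (j : ℕ → ℕ) (η : ℝ) : Prop :=
  ∀ᶠ n in UF, Det (P n) (fun ω => fl (j n) (y n ω)) (A n) (dl M η n * (2 ^ j n) ^ N)

end Seq

/-- The labels of a sequence of systems. -/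
abbrev lab {k : Bool → ℕ} {Ω : ℕ → Type} (s : ∀ n, Sy k (Ω n)) :
    ∀ b n, Ω n → (s n b).T := fun b n => (s n b).Z

/-- The pieces of level `t`. -/
noncomputable abbrev pcs {k : Bool → ℕ} {Ω : ℕ → Type} (s : ∀ n, Sy k (Ω n)) (t : Bool → ℕ → ℕ) :
    ∀ b n, Ω n → (s n b).T × ℕ × H17S.Z (k b) := fun b n => (s n b).pc (t b n)

/-- The zoomed systems. -/
noncomputable abbrev zms {k : Bool → ℕ} {Ω : ℕ → Type} (s : ∀ n, Sy k (Ω n)) (t : Bool → ℕ → ℕ) :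
    ∀ n, Sy k (Ω n) := fun n b => (s n b).zm (t b n)

/-- Nested minimal cells `S a` with frames `Θ a` for the pieces of level `ℓ a`. -/
structure Chn {N : ℕ} {Ω Λ : ℕ → Type} {k : Bool → ℕ} {I : Type} [Preorder I]
    (P : ∀ n, FP (Ω n)) (M : ℕ → ℕ) (x : ∀ n, Ω n → V N) (s : ∀ n, Sy k (Ω n))
    (ℓ : I → Bool → ℕ → ℕ) (S : I → ∀ n, Ω n → Λ n) (Θ : I → ∀ n, Ω n → Fin N → Pl N) (D : ℕ) :
    Prop where
  mono : ∀ a a', a ≤ a' → ∀ b, ∀ᶠ n in UF, ℓ a b n ≤ ℓ a' b n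
  nest : ∀ a a', a ≤ a' → FnE P (S a) (S a')
  cel : ∀ a, Cel P M x (pcs s (ℓ a)) (S a) (Θ a) D

/-- The levels `ℓ a` are `a M` up to `o(M)`. -/
def Lv (M : ℕ → ℕ) (ℓ : ℚ≥0 → Bool → ℕ → ℕ) : Prop :=
  ∀ a b, Eqv M (fun n => ℓ a b n) fun n => (a : ℝ) * M n

/-- The theorem in dimension `N` for at least `mm` long axes. -/
def THM (N mm : ℕ) : Prop := ∀ (Ω Λ : ℕ → Type) (k m : Bool → ℕ) (C : ℕ) (P : ∀ n, FP (Ω n))
  (M : ℕ → ℕ) (x : ∀ n, Ω n → V N) (s : ∀ n, Sy k (Ω n)) (A : ∀ n, Ω n → Λ n),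
  mm ≤ m true + m false → Sys P M x s C m → MIN P M x (lab s) → Com P (lab s) A → Full P M x A

/-- The theorem in all dimensions below `N`. -/
def Low (N : ℕ) : Prop := ∀ d < N, THM d 0

end Pool.Agent.MP_5168f5_an.AN
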