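import Pool.Agent.MP_5168f5_an.AN.G39Defs

/-! The residue field of the sequences of subexponential size. -/

namespace Pool.Agent.MP_5168f5_an.AN.G39

open H19 H17S H17F Filter MvPolynomial

variable {M : ℕ → ℕ}

theorem dl_pos (M : ℕ → ℕ) (c : ℝ) (n : ℕ) : 0 < dl M c n := Real.exp_pos _

theorem dl_add (M : ℕ → ℕ) (a b : ℝ) (n : ℕ) : dl M (a + b) n = dl M a n * dl M b n := by
  unfold dl; rw [← Real.exp_add]; congr 1; ring

theorem dl_half (M : ℕ → ℕ) (c : ℝ) (n : ℕ) : dl M c n = dl M (c / 2) n * dl M (c / 2) n := by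
  rw [← dl_add, add_halves]

theorem dl_anti (M : ℕ → ℕ) {a b : ℝ} (h : a ≤ b) (n : ℕ) : dl M b n ≤ dl M a n :=
  Real.exp_le_exp.2 (neg_le_neg (mul_le_mul_of_nonneg_right h (Nat.cast_nonneg _)))

theorem dl_pow (M : ℕ → ℕ) (c : ℝ) (k n : ℕ) : dl M c n ^ k = dl M (k * c) n := by
  unfold dl; rw [← Real.exp_nat_mul]; congr 1; ring

theorem dl_inv (M : ℕ → ℕ) (c : ℝ) (n : ℕ) : (dl M c n)⁻¹ = Real.exp (c * M n) := by
  unfold dl; rw [Real.exp_neg, inv_inv]

theorem sub_dl {L : ℕ → ℝ} (h : Sub M L) {c : ℝ} (hc : 0 < c) :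
    ∀ᶠ n in UF, L n ≤ (dl M c n)⁻¹ := (h.2 c hc).mono fun n a => by rwa [dl_inv]

theorem big_dl (hM : Big M) (K : ℝ) {c : ℝ} (hc : 0 < c) : ∀ᶠ n in UF, K ≤ (dl M c n)⁻¹ :=
  (sub_dl (hM.sub (le_max_right K 1)) hc).mono fun _ a => (le_max_left _ _).trans a

theorem dl_lt (hM : Big M) {K c : ℝ} (hK : 0 < K) (hc : 0 < c) : ∀ᶠ n in UF, dl M c n < K :=
  (big_dl hM (2 / K) hc).mono fun n a => by
    have h := dl_pos M c n
    rw [le_inv_comm₀ (by positivity) h, inv_div] at a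
    linarith

section Num

variable {a b c : ℝ} {n : ℕ}

theorem mulB (h : |a| ≤ (dl M (c / 2) n)⁻¹) (h' : |b| ≤ (dl M (c / 2) n)⁻¹) :
    |a * b| ≤ (dl M c n)⁻¹ := by
  rw [abs_mul, dl_half M c, mul_inv]
  exact mul_le_mul h h' (abs_nonneg _) ((abs_nonneg _).trans h)

theorem addB (h : |a| ≤ (dl M (c / 2) n)⁻¹) (h' : |b| ≤ (dl M (c / 2) n)⁻¹)
    (e : 2 ≤ (dl M (c / 2) n)⁻¹) : |a + b| ≤ (dl M c n)⁻¹ := by
  rw [dl_half M c, mul_inv]
  nlinarith [abs_add_le a b]

theorem mulS (h : |a| ≤ (dl M (c / 2) n)⁻¹) (h' : |b| ≤ dl M c n) : |a * b| ≤ dl M (c / 2) n := by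
  have p := dl_pos M (c / 2) n
  rw [abs_mul]
  refine (mul_le_mul h h' (abs_nonneg _) ((abs_nonneg _).trans h)).trans_eq ?_
  rw [dl_half M c]; field_simp

theorem addS {c' : ℝ} (h : |a| ≤ dl M c n) (h' : |b| ≤ dl M c' n)
    (e : dl M (min c c' / 2) n < 1 / 2) : |a + b| ≤ dl M (min c c' / 2) n := by
  have h1 := h.trans (dl_anti M (min_le_left c c') n)
  have h2 := h'.trans (dl_anti M (min_le_right c c') n)
  rw [dl_half] at h1 h2
  nlinarith [abs_add_le a b, dl_pos M (min c c' / 2) n]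

end Num

/-- The ring of the sequences of size `exp (o(M))`. -/
def OO (hM : Big M) : Subring (ℕ → ℝ) where
  carrier := {a | OB M a}
  mul_mem' := fun h h' c hc => by
    filter_upwards [h _ (half_pos hc), h' _ (half_pos hc)] with n u v using mulB u v
  one_mem' := fun c hc => (big_dl hM 1 hc).mono fun n u => by simpa using u
  add_mem' := fun h h' c hc => by
    filter_upwards [h _ (half_pos hc), h' _ (half_pos hc), big_dl hM 2 (half_pos hc)] with n u v w
      using addB u v w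
  zero_mem' := fun c hc => (big_dl hM 0 hc).mono fun n u => by simpa using u
  neg_mem' := fun h c hc => (h c hc).mono fun n u => by simpa using u

/-- The ideal of the power small sequences. -/
def mm (hM : Big M) : Ideal (OO hM) where
  carrier := {a | OS M a.1}
  add_mem' := fun ⟨c, hc, h⟩ ⟨c', hc', h'⟩ => ⟨min c c' / 2, by positivity, by
    filter_upwards [h, h', dl_lt hM (K := 1 / 2) (c := min c c' / 2) (by norm_num) (by positivity)]
      with n u v w using addS u v w⟩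
  zero_mem' := ⟨1, one_pos, Eventually.of_forall fun n => by simpa using (dl_pos M 1 n).le⟩
  smul_mem' := fun a _ ⟨c, hc, h⟩ => ⟨c / 2, half_pos hc, by
    filter_upwards [a.2 _ (half_pos hc), h] with n u v using mulS u v⟩

variable {hM : Big M}

theorem ob_of_le {a : ℕ → ℝ} {L : ℕ → ℝ} (hL : Sub M L) (h : ∀ᶠ n in UF, |a n| ≤ L n) : OB M a :=
  fun _ hc => by filter_upwards [h, sub_dl hL hc] with n u v using u.trans v

theorem not_mm {a : OO hM} (h : a ∉ mm hM) {c : ℝ} (hc : 0 < c) :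
    ∀ᶠ n in UF, dl M c n < |a.1 n| :=
  (not_ev.1 fun k => h ⟨c, hc, k⟩).mono fun _ u => not_le.1 u

theorem exists_inv {a : OO hM} (h : a ∉ mm hM) : ∃ b : OO hM, ∀ᶠ n in UF, b.1 n * a.1 n = 1 :=
  ⟨⟨fun n => (a.1 n)⁻¹, fun c hc => (not_mm h hc).mono fun n u => by
      rw [abs_inv]; exact inv_anti₀ (dl_pos M c n) u.le⟩,
    (not_mm h one_pos).mono fun n u => inv_mul_cancel₀ (abs_pos.1 ((dl_pos M 1 n).trans u))⟩

theorem mm_of_ev {a : OO hM} (h : ∀ᶠ n in UF, a.1 n = 0) : a ∈ mm hM :=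
  ⟨1, one_pos, h.mono fun n u => by rw [u, abs_zero]; exact (dl_pos M 1 n).le⟩

theorem not_mem_mm {a : OO hM} {K : ℝ} (hK : 0 < K) (h : ∀ᶠ n in UF, K ≤ |a.1 n|) : a ∉ mm hM :=
  fun ⟨_, hc, k⟩ => by
    obtain ⟨n, u, v, w⟩ := (h.and (k.and (dl_lt hM hK hc))).exists
    linarith

instance : (mm hM).IsMaximal := Ideal.isMaximal_iff.2 ⟨
  not_mem_mm one_pos (Eventually.of_forall fun n => by simp), fun J a hJ ha ha' => by
    obtain ⟨b, hb⟩ := exists_inv ha
    have : 1 - b * a ∈ mm hM := mm_of_ev (hb.mono fun n u => by simpa [sub_eq_zero] using u.symm)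
    simpa using J.add_mem (hJ this) (J.mul_mem_left b ha')⟩

/-- The residue field. -/
def kk (hM : Big M) : Type := OO hM ⧸ mm hM

noncomputable instance : Field (kk hM) := Ideal.Quotient.field (mm hM)

/-- The residue map. -/
def rd (hM : Big M) : OO hM →+* kk hM := Ideal.Quotient.mk (mm hM)

theorem rd_surj : Function.Surjective (rd hM) := Ideal.Quotient.mk_surjective

theorem rd_eq {a : OO hM} : rd hM a = 0 ↔ a ∈ mm hM := Ideal.Quotient.eq_zero_iff_mem

instance : CharZero (kk hM) := charZero_of_inj_zero fun k h => by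
  by_contra e
  rw [← map_natCast (rd hM), rd_eq] at h
  refine not_mem_mm one_pos (Eventually.of_forall fun n => ?_) h
  simpa using Nat.one_le_iff_ne_zero.2 e

/-- The term of index `n`. -/
def tm (hM : Big M) (n : ℕ) : OO hM →+* ℝ := (Pi.evalRingHom (fun _ => ℝ) n).comp (OO hM).subtype

theorem tm_apply (n : ℕ) (a : OO hM) : tm hM n a = a.1 n := rfl

theorem deg_map {R S σ : Type} [CommRing R] [CommRing S] (f : R →+* S) (Q : MvPolynomial σ R) :
    (map f Q).totalDegree ≤ Q.totalDegree :=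
  Finset.sup_mono (support_map_subset f Q)

/-- The exponents of degree at most `E`. -/
noncomputable def TT (σ : Type) [Finite σ] (E : ℕ) : Finset (σ →₀ ℕ) :=
  (Finsupp.finite_of_degree_le (σ := σ) E).toFinset

theorem mem_TT {σ : Type} [Finite σ] {E : ℕ} {m : σ →₀ ℕ} :
    m ∈ TT σ E ↔ (m.sum fun _ e => e) ≤ E := by
  rw [TT, Set.Finite.mem_toFinset]; rfl

/-- The polynomial with given coefficients on `T`. -/
noncomputable def ofc {R σ : Type} [CommRing R] (T : Finset (σ →₀ ℕ)) (c : (σ →₀ ℕ) → R) :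
    MvPolynomial σ R := ∑ m ∈ T, monomial m (c m)

open Classical in
theorem coeff_ofc {R σ : Type} [CommRing R] (T : Finset (σ →₀ ℕ)) (c : (σ →₀ ℕ) → R) (m : σ →₀ ℕ) :
    coeff m (ofc T c) = if m ∈ T then c m else 0 := by
  simp [ofc, coeff_sum, coeff_monomial]

theorem deg_ofc {R σ : Type} [CommRing R] {T : Finset (σ →₀ ℕ)} (c : (σ →₀ ℕ) → R) {E : ℕ}
    (h : ∀ m ∈ T, (m.sum fun _ e => e) ≤ E) : (ofc T c).totalDegree ≤ E :=
  totalDegree_finsetSum_le fun m hm => (totalDegree_monomial_le _ _).trans (h m hm)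

theorem coeff_zero_of {R σ : Type} [CommRing R] [Finite σ] {H : MvPolynomial σ R} {E : ℕ}
    (h : H.totalDegree ≤ E) {m : σ →₀ ℕ} (hm : m ∉ TT σ E) : coeff m H = 0 := by
  by_contra k
  exact hm (mem_TT.2 ((le_totalDegree (mem_support_iff.2 k)).trans h))

/-- A sequence of polynomials of bounded degree as one polynomial. -/
theorem lift_seq {σ : Type} [Finite σ] (H : ℕ → MvPolynomial σ ℝ) {E : ℕ}
    (h : ∀ n, (H n).totalDegree ≤ E) (hb : ∀ m, OB M fun n => coeff m (H n)) :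
    ∃ Q : MvPolynomial σ (OO hM), Q.totalDegree ≤ E ∧ ∀ n, map (tm hM n) Q = H n := by
  refine ⟨ofc (TT σ E) fun m => ⟨_, hb m⟩, deg_ofc _ fun m => mem_TT.1, fun n => ?_⟩
  ext m
  rw [coeff_map, coeff_ofc]
  split_ifs with e
  · rfl
  · rw [map_zero, coeff_zero_of (h n) e]

theorem lift_rd {σ : Type} (G : MvPolynomial σ (kk hM)) :
    ∃ Q : MvPolynomial σ (OO hM), Q.totalDegree ≤ G.totalDegree ∧ map (rd hM) Q = G := by
  choose s hs using rd_surj (hM := hM)
  refine ⟨ofc G.support fun m => s (coeff m G), deg_ofc _ fun m => le_totalDegree, ?_⟩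
  ext m
  rw [coeff_map, coeff_ofc]
  split_ifs with e
  · exact hs _
  · rw [map_zero, notMem_support_iff.1 e]

theorem rd_ne {σ : Type} {Q : MvPolynomial σ (OO hM)} :
    map (rd hM) Q ≠ 0 ↔ ∃ m, coeff m Q ∉ mm hM := by
  simp only [ne_eq, MvPolynomial.ext_iff, coeff_map, coeff_zero, rd_eq, not_forall]

/-! ### Random sequences -/

variable {T : ℕ → Type} (μ : ∀ n, FP (T n))

/-- Random sequences of size `exp (o(M))`. -/
def BB (hM : Big M) : Subring (∀ n, T n → ℝ) where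
  carrier := {f | ∀ c : ℝ, 0 < c → Whp μ fun n t => |f n t| ≤ (dl M c n)⁻¹}
  mul_mem' := fun h h' c hc => ((h _ (half_pos hc)).and (h' _ (half_pos hc))).mono
    (Eventually.of_forall fun _ _ _ u => mulB u.1 u.2)
  one_mem' := fun c hc => Whp.of_ev ((big_dl hM 1 hc).mono fun n u _ _ => by simpa using u)
  add_mem' := fun h h' c hc => ((h _ (half_pos hc)).and (h' _ (half_pos hc))).mono
    ((big_dl hM 2 (half_pos hc)).mono fun _ w _ _ u => addB u.1 u.2 w)
  zero_mem' := fun c hc => Whp.of_ev ((big_dl hM 0 hc).mono fun n u _ _ => by simpa using u)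
  neg_mem' := fun h c hc => (h c hc).mono (Eventually.of_forall fun _ _ _ u => by simpa using u)

/-- Power small random sequences. -/
def NN (hM : Big M) : Ideal (BB μ hM) where
  carrier := {f | ∃ c : ℝ, 0 < c ∧ Whp μ fun n t => |f.1 n t| ≤ dl M c n}
  add_mem' := fun ⟨c, hc, h⟩ ⟨c', hc', h'⟩ => ⟨min c c' / 2, by positivity, (h.and h').mono
    ((dl_lt hM (K := 1 / 2) (c := min c c' / 2) (by norm_num) (by positivity)).mono
      fun _ w _ _ u => addS u.1 u.2 w)⟩
  zero_mem' := ⟨1, one_pos, Whp.of_ev (Eventually.of_forall fun n _ _ => by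
    simpa using (dl_pos M 1 n).le)⟩
  smul_mem' := fun a _ ⟨c, hc, h⟩ => ⟨c / 2, half_pos hc, ((a.2 _ (half_pos hc)).and h).mono
    (Eventually.of_forall fun _ _ _ u => mulS u.1 u.2)⟩

/-- Constants. -/
def cst (hM : Big M) : OO hM →+* BB μ hM where
  toFun a := ⟨fun n _ => a.1 n, fun c hc => Whp.of_ev ((a.2 c hc).mono fun _ u _ _ => u)⟩
  map_one' := rfl
  map_mul' _ _ := rfl
  map_zero' := rfl
  map_add' _ _ := rfl

variable {μ}

/-- A polynomial in random sequences. -/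
noncomputable def evB {σ : Type} (φ : σ → BB μ hM) : MvPolynomial σ (OO hM) →+* BB μ hM :=
  eval₂Hom (cst μ hM) φ

theorem evB_apply {σ : Type} (φ : σ → BB μ hM) (Q : MvPolynomial σ (OO hM)) (n : ℕ) :
    (evB φ Q).1 n = ev (fun i => (φ i).1 n) (map (tm hM n) Q) := by
  funext t
  induction Q using MvPolynomial.induction_on with
  | C a => simp [evB, ev]; rfl
  | add p q hp hq => simp only [map_add, ev] at *; rw [← hp, ← hq]; rfl
  | mul_X p i hp =>
    simp only [map_mul, ev, map_X, eval_X] at *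
    rw [← hp]; simp [evB]

theorem evB_ker {σ : Type} (φ : σ → BB μ hM) {Q : MvPolynomial σ (OO hM)}
    (h : map (rd hM) Q = 0) : evB φ Q ∈ NN μ hM := by
  rw [Q.as_sum, map_sum]
  refine Ideal.sum_mem _ fun m _ => ?_
  have : coeff m Q ∈ mm hM := by
    by_contra k
    exact rd_ne.2 ⟨m, k⟩ h
  obtain ⟨c, hc, e⟩ := this
  rw [evB, eval₂Hom_monomial]
  exact Ideal.mul_mem_right _ _ ⟨c, hc, Whp.of_ev (e.mono fun _ u _ _ => u)⟩

end Pool.Agent.MP_5168f5_an.AN.G39
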