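import Pool.Agent.MP_5168f5_an.AN.K3List
import Pool.Agent.MP_5168f5_an.AN.G39Onb
import Pool.Agent.MP_5168f5_an.AN.G39Res

/-! Kakeya sets in all dimensions: close subspaces and comparable norms give thin labels. -/

namespace Pool.Agent.MP_5168f5_an.AN.K3

open H19 H17S H17F G39 Filter MvPolynomial Module

/-- Pigeonhole in one probability space. -/
theorem pig_fin {Ω J : Type} [Fintype J] [Nonempty J] (P : FP Ω) (Q : J → Ω → Prop) :
    ∃ j, pb P (fun ω => ∃ j, Q j ω) ≤ Fintype.card J * pb P (Q j) := by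
  classical
  obtain ⟨j, hj⟩ := Finite.exists_max fun j => pb P (Q j)
  have k : ∀ T : Finset J, pb P (fun ω => ∃ i ∈ T, Q i ω) ≤ T.card * pb P (Q j) := fun T => by
    induction T using Finset.induction_on with
    | empty => simp [pb_zero]
    | insert a T ha ih =>
      rw [Finset.card_insert_of_notMem ha]
      simp only [Finset.mem_insert, exists_eq_or_imp]
      push_cast
      linarith [pb_or P (Q a) fun ω => ∃ i ∈ T, Q i ω, hj a]
  exact ⟨j, by simpa using k Finset.univ⟩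

/-- Pigeonhole for finitely many events. -/
theorem pig_pos {Ω : ℕ → Type} {P : ∀ n, FP (Ω n)} {J : Type} [Finite J]
    (Q : J → ∀ n, Ω n → Prop) (h : Pos P fun n ω => ∃ j, Q j n ω) : ∃ j, Pos P (Q j) := by
  have := Fintype.ofFinite J
  obtain ⟨n, ω, -, j0, -⟩ := h.ex.exists
  have : Nonempty J := ⟨j0⟩
  obtain ⟨κ, a, b⟩ := h
  have c : (0 : ℝ) < Fintype.card J := by exact_mod_cast Fintype.card_pos
  obtain ⟨j, hj⟩ := ev_ex (p := fun j n => κ / Fintype.card J ≤ pb (P n) (Q j n))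
    (b.mono fun n u => (pig_fin (P n) fun j => Q j n).imp fun j v => by
      rw [div_le_iff₀ c]; linarith)
  exact ⟨j, _, div_pos a c, hj⟩

section Gen

variable {Ω β β' X : ℕ → Type} [∀ n, AddCommGroup (X n)] [∀ n, Module ℝ (X n)]
  (P : ∀ n, FP (Ω n)) (Z : ∀ n, Ω n → β n) (Z' : ∀ n, Ω n → β' n) (D : ℕ)
  (ν : ∀ n, β n → X n → ℝ) (ν' : ∀ n, β' n → X n → ℝ) (V : ∀ n, β n → Submodule ℝ (X n))
  (V' : ∀ n, β' n → Submodule ℝ (X n)) (A : ∀ n, Ω n → Prop)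

/-- Close subspaces read from the two sides give a common element. -/
theorem k3s (W : ∀ n, β n → Submodule ℝ (X n)) (W' : ∀ n, β' n → Submodule ℝ (X n)) (ε : ℕ → ℝ)
    (h : Pos P fun n ω => A n ω ∧ ν n (Z n ω) = ν' n (Z' n ω) ∧ V n (Z n ω) = V' n (Z' n ω) ∧
      NearS D (ε n) (ν n (Z n ω)) (V n (Z n ω)) (W n (Z n ω)) (W' n (Z' n ω))) :
    ∃ (F : ∀ n, β n → X n) (F' : ∀ n, β' n → X n), (∀ n z, F n z ∈ V n z) ∧
      (∀ n z, F' n z ∈ V' n z) ∧ Pos P fun n ω => A n ω ∧ F n (Z n ω) = F' n (Z' n ω) ∧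
        OutS D (ε n) (ν n (Z n ω)) (W n (Z n ω)) (F n (Z n ω)) := by
  choose F F1 F2 using fun n => listS (X n) D
  obtain ⟨i, hi⟩ := pig_pos (fun i n ω => A n ω ∧
      F n i (ε n) (ν n (Z n ω)) (V n (Z n ω)) (W n (Z n ω)) =
        F n i (ε n) (ν' n (Z' n ω)) (V' n (Z' n ω)) (W' n (Z' n ω)) ∧
      OutS D (ε n) (ν n (Z n ω)) (W n (Z n ω))
        (F n i (ε n) (ν n (Z n ω)) (V n (Z n ω)) (W n (Z n ω))))
    (h.mono (Eventually.of_forall fun n ω _ ⟨a, b, c, e⟩ =>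
      (F2 n _ _ _ _ _ e).imp fun i k => ⟨a, b ▸ c ▸ k.1, k.2⟩))
  exact ⟨fun n z => F n i (ε n) (ν n z) (V n z) (W n z),
    fun n z => F n i (ε n) (ν' n z) (V' n z) (W' n z), fun n z => F1 .., fun n z => F1 .., hi⟩

/-- Comparable norms read from the two sides give a common thin element. -/
theorem k3n (N : ∀ n, β n → X n → ℝ) (N' : ∀ n, β' n → X n → ℝ) (Λ τ : ℕ → ℝ)
    (h : Pos P fun n ω => A n ω ∧ ν n (Z n ω) = ν' n (Z' n ω) ∧ V n (Z n ω) = V' n (Z' n ω) ∧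
      NearN D (Λ n) (τ n) (ν n (Z n ω)) (V n (Z n ω)) (N n (Z n ω)) (N' n (Z' n ω))) :
    ∃ (F : ∀ n, β n → X n) (F' : ∀ n, β' n → X n), (∀ n z, F n z ∈ V n z) ∧
      (∀ n z, F' n z ∈ V' n z) ∧ Pos P fun n ω => A n ω ∧ F n (Z n ω) = F' n (Z' n ω) ∧
        OutN D (Λ n) (τ n) (ν n (Z n ω)) (V n (Z n ω)) (N n (Z n ω)) (F n (Z n ω)) := by
  choose F F' F1 F2 using fun n => listN (X n) D
  obtain ⟨i, hi⟩ := pig_pos (fun i n ω => A n ω ∧
      F n i (Λ n) (τ n) (ν n (Z n ω)) (V n (Z n ω)) (N n (Z n ω)) =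
        F' n i (Λ n) (τ n) (ν' n (Z' n ω)) (V' n (Z' n ω)) (N' n (Z' n ω)) ∧
      OutN D (Λ n) (τ n) (ν n (Z n ω)) (V n (Z n ω)) (N n (Z n ω))
        (F n i (Λ n) (τ n) (ν n (Z n ω)) (V n (Z n ω)) (N n (Z n ω))))
    (h.mono (Eventually.of_forall fun n ω _ ⟨a, b, c, e⟩ =>
      (F2 n _ _ _ _ _ _ e).imp fun i k => ⟨a, b ▸ c ▸ k.1, k.2⟩))
  exact ⟨fun n z => F n i (Λ n) (τ n) (ν n z) (V n z) (N n z),
    fun n z => F' n i (Λ n) (τ n) (ν' n z) (V' n z) (N' n z), fun n z => (F1 ..).1,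
    fun n z => (F1 ..).2, hi⟩

end Gen

section Pol

variable {Ω β : Type} {d : ℕ}

theorem eu_nu (P : FP Ω) : Eu (nu P) :=
  ⟨P.S, inferInstance, G39OnbA.T P, fun f => (G39OnbA.norm_T P f).symm⟩

theorem sn_nu (P : FP Ω) : Sn (nu P) := (eu_nu P).sn

theorem rk_deg (d E : ℕ) : finrank ℝ (restrictTotalDegree (Fin d) ℝ E) ≤ (E + 1) ^ d := by
  let g := fun m : Fin d → Fin (E + 1) =>
    monomial (Finsupp.equivFunOnFinite.symm fun i => (m i : ℕ)) (1 : ℝ)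
  have a := finrank_range_le_card (R := ℝ) g
  rw [Fintype.card_fun, Fintype.card_fin, Fintype.card_fin] at a
  have : FiniteDimensional ℝ (Submodule.span ℝ (Set.range g)) :=
    FiniteDimensional.span_of_finite ℝ (Set.finite_range g)
  refine (Submodule.finrank_mono fun F hF => ?_).trans a
  rw [F.as_sum]
  refine sum_mem fun m hm => ?_
  rw [← mul_one (coeff m F), ← smul_eq_mul, ← smul_monomial]
  refine Submodule.smul_mem _ _ (Submodule.subset_span ⟨fun i => ⟨m i, Nat.lt_succ_of_le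
    (((monomial_le_degreeOf i hm).trans (degreeOf_le_totalDegree F i)).trans
      ((mem_restrictTotalDegree _ _ _).1 hF))⟩, ?_⟩)
  simp [g]

/-- The function of a polynomial. -/
noncomputable def evL (x : Ω → Fin d → ℝ) : MvPolynomial (Fin d) ℝ →ₗ[ℝ] Ω → ℝ where
  toFun F ω := eval (x ω) F
  map_add' F G := by ext ω; simp
  map_smul' c F := by ext ω; simp

/-- The polynomial functions of degree at most `E`. -/
noncomputable def PE (x : Ω → Fin d → ℝ) (E : ℕ) : Submodule ℝ (Ω → ℝ) :=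
  (restrictTotalDegree (Fin d) ℝ E).map (evL x)

theorem mem_PE {x : Ω → Fin d → ℝ} {E : ℕ} {f : Ω → ℝ} : f ∈ PE x E ↔ Pl x E f := by
  simp only [PE, Submodule.mem_map, mem_restrictTotalDegree, Pl]
  refine exists_congr fun F => and_congr_right fun _ => ?_
  rw [eq_comm, funext_iff]
  rfl

theorem ref_PE (Q : FP Ω) (x : Ω → Fin d → ℝ) (E : ℕ) : Ref ((E + 1) ^ d) (nu Q) (PE x E) :=
  ⟨eu_nu Q, by unfold PE; infer_instance, (Submodule.finrank_map_le _ _).trans (rk_deg d E)⟩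

theorem ref_deg (Q : FP Ω) (x : Ω → Fin d → ℝ) (E : ℕ) :
    Ref ((E + 1) ^ d) (fun F => nu Q (evL x F)) (restrictTotalDegree (Fin d) ℝ E) :=
  ⟨(eu_nu Q).comp _, inferInstance, rk_deg d E⟩

theorem pb_exp (P : FP Ω) (Y : Ω → β) (S : β → Ω → Prop) :
    pb P (fun ω => S (Y ω) ω) = P.E fun ω => pb (cv P Y (Y ω)) (S (Y ω)) :=
  KEA.exp P Y fun z ω => @ite _ (S z ω) (Classical.propDecidable _) 1 0

/-- The inequality of Chebyshev for the laws given a variable. -/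
theorem cheb_cv (P : FP Ω) (Y : Ω → β) (x : β → Ω → Fin d → ℝ) (E : ℕ) {L : ℝ} (hL : 0 < L) :
    pb P (fun ω => ¬CG (cv P Y (Y ω)) (x (Y ω)) E L ω) ≤ (E + 1) ^ d / L ^ 2 :=
  (pb_exp P Y fun z ω => ¬CG (cv P Y z) (x z) E L ω).trans_le
    ((P.E_mono fun _ _ => rCheb Ω _ d E _ L hL).trans (P.E_const _).le)

end Pol

section Seq

variable {Ω β : ℕ → Type} {d : ℕ} {P : ∀ n, FP (Ω n)} {x : ∀ n, Ω n → Fin d → ℝ} {M : ℕ → ℕ}

theorem cheb_ev (hM : Big M) (D : ℝ) {c ε : ℝ} (hc : 0 < c) (hε : 0 < ε) :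
    ∀ᶠ n in UF, D / (dl M c n)⁻¹ ^ 2 ≤ ε := by
  filter_upwards [big_dl hM (D / ε) hc, big_dl hM 1 hc] with n a b
  rw [div_le_iff₀ hε] at a
  rw [div_le_iff₀ (by positivity)]
  nlinarith [mul_le_mul_of_nonneg_left b (mul_pos hε (one_pos.trans_le b)).le]

theorem whp_cg (hM : Big M) (E : ℕ) {c : ℝ} (hc : 0 < c) :
    Whp P fun n ω => CG (P n) (x n) E (dl M c n)⁻¹ ω := fun _ hε =>
  (cheb_ev hM _ hc hε).mono fun n a => (rCheb _ _ d E _ _ (inv_pos.2 (dl_pos M c n))).trans a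

theorem whp_cg_cv (hM : Big M) (Y : ∀ n, Ω n → β n) (x : ∀ n, β n → Ω n → Fin d → ℝ) (E : ℕ)
    {c : ℝ} (hc : 0 < c) :
    Whp P fun n ω => CG (cv (P n) (Y n) (Y n ω)) (x n (Y n ω)) E (dl M c n)⁻¹ ω := fun _ hε =>
  (cheb_ev hM _ hc hε).mono fun n a => (cheb_cv _ _ _ E (inv_pos.2 (dl_pos M c n))).trans a

variable {Z : Bool → ∀ n, Ω n → β n}

/-- The label form, for two separate functions. -/
theorem nl_two (h : NL P x M Z) {E : ℕ} {c : ℝ} (hc : 0 < c) {F F' : ∀ n, β n → Ω n → ℝ}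
    (h1 : ∀ n z, F n z ∈ PE (x n) E) (h2 : ∀ n z, F' n z ∈ PE (x n) E) :
    ¬Pos P fun n ω => F n (Z true n ω) = F' n (Z false n ω) ∧ 0 < nu (P n) (F n (Z true n ω)) ∧
      |F n (Z true n ω) ω| ≤ dl M c n * nu (P n) (F n (Z true n ω)) := fun k =>
  k.not_whp (h E c (fun a => match a with | true => F | false => F') hc fun a n z => by
    cases a
    · exact mem_PE.1 (h2 n z)
    · exact mem_PE.1 (h1 n z))

theorem dl_sm (hM : Big M) (K : ℝ) {c : ℝ} (hc : 0 < c) : ∀ᶠ n in UF, K * dl M c n ≤ 1 :=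
  (big_dl hM K hc).mono fun n a => by
    have := mul_le_mul_of_nonneg_right a (dl_pos M c n).le
    rwa [inv_mul_cancel₀ (dl_pos M c n).ne'] at this

theorem dl_le_one (M : ℕ → ℕ) {c : ℝ} (hc : 0 ≤ c) (n : ℕ) : dl M c n ≤ 1 :=
  Real.exp_le_one_iff.2 (neg_nonpos.2 (by positivity))

/-- Metric form of minimality, for subspaces. -/
theorem nl_sub (h : NL P x M Z) (hM : Big M) (E : ℕ) {c : ℝ} (hc : 0 < c)
    (W : Bool → ∀ n, β n → Submodule ℝ (Ω n → ℝ)) :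
    ¬Pos P fun n ω => (∀ f ∈ W true n (Z true n ω), Pl (x n) E f ∧
        |f ω| ≤ dl M c n * nu (P n) f) ∧
      Cl (nu (P n)) (dl M c n) (W true n (Z true n ω)) (W false n (Z false n ω)) ∧
      Cl (nu (P n)) (dl M c n) (W false n (Z false n ω)) (W true n (Z true n ω)) ∧
      ∃ f ∈ W true n (Z true n ω), 0 < nu (P n) f := fun k => by
  have c3 : 0 < c / 3 := by positivity
  have sm := dl_sm hM (16 * (((E + 1) ^ d : ℕ) : ℝ) ^ 2) hc
  obtain ⟨F, F', h1, h2, h3⟩ := k3s P (Z true) (Z false) ((E + 1) ^ d) (fun n _ => nu (P n))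
    (fun n _ => nu (P n)) (fun n _ => PE (x n) E) (fun n _ => PE (x n) E)
    (fun n ω => ∀ f ∈ W true n (Z true n ω), Pl (x n) E f ∧ |f ω| ≤ dl M c n * nu (P n) f)
    (W true) (W false) (dl M c) (k.mono (sm.mono fun n a ω _ b => ⟨b.1, rfl, rfl, ref_PE ..,
      dl_pos .., a, fun f hf => mem_PE.2 (b.1 f hf).1, b.2.1, b.2.2.1, b.2.2.2⟩))
  refine nl_two h c3 h1 h2 ((h3.and (whp_cg (x := x) hM E c3)).mono ?_)
  filter_upwards [dl_sm hM (16 * (((E + 1) ^ d : ℕ) : ℝ) ^ 2 + 2) c3, sm] with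
    n a a' ω _ ⟨⟨b1, b2, b3⟩, b4⟩
  refine ⟨b2, b3.1, (b3.ev (y := fun f => |f ω|) (sn_nu _) (h1 n _)
    (fun f hf => mem_PE.2 (b1 f hf).1) a' (dl_pos ..).le (inv_pos.2 (dl_pos ..)).le
    (fun f g => abs_add_le _ _) (fun f hf => (b1 f hf).2) fun f hf => b4 f (mem_PE.1 hf)).trans
    (mul_le_mul_of_nonneg_right ?_ b3.1.le)⟩
  have p := dl_pos M (c / 3) n
  have q := dl_le_one M c3.le n
  have e1 : dl M c n = dl M (c / 3) n ^ 3 := by rw [dl_pow]; congr 1; push_cast; ring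
  rw [e1]
  generalize dl M (c / 3) n = y at *
  generalize (((E + 1) ^ d : ℕ) : ℝ) ^ 2 = K at *
  have e3 : 16 * K * y ^ 3 * y⁻¹ = 16 * K * y ^ 2 := by field_simp
  rw [e3]
  nlinarith [mul_le_mul_of_nonneg_right a p.le, mul_le_mul_of_nonneg_right q (sq_nonneg y)]

/-- Metric form of minimality, for norms. -/
theorem nl_norm (h : NL P x M Z) (hM : Big M) (E : ℕ) {lam sg : ℝ} (hs : 0 ≤ sg)
    (hl : 2 * sg * (E + 1) ^ d < lam) (N : Bool → ∀ n, β n → (Ω n → ℝ) → ℝ)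
    (hN : ∀ a n z, Sn (N a n z)) :
    ¬Pos P fun n ω => (∀ f, Pl (x n) E f →
        N true n (Z true n ω) f ≤ (dl M sg n)⁻¹ * N false n (Z false n ω) f ∧
        N false n (Z false n ω) f ≤ (dl M sg n)⁻¹ * N true n (Z true n ω) f ∧
        |f ω| ≤ (dl M sg n)⁻¹ * N true n (Z true n ω) f) ∧
      ∃ f, Pl (x n) E f ∧ 0 < nu (P n) f ∧ N true n (Z true n ω) f ≤ dl M lam n * nu (P n) f :=
  fun k => by
  have d0 : (0 : ℝ) < (E + 1) ^ d := by positivity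
  obtain ⟨c, hc⟩ : ∃ c : ℝ, c = (lam / (E + 1) ^ d - 2 * sg) / 3 := ⟨_, rfl⟩
  have c0 : 0 < c := by
    rw [← lt_div_iff₀ d0] at hl
    linarith
  have e1 : ∀ n, dl M (lam / (E + 1) ^ d) n = dl M c n ^ 3 * dl M sg n ^ 2 := fun n => by
    rw [dl_pow, dl_pow, ← dl_add, hc]; congr 1; push_cast; ring
  have e2 : ∀ n, dl M (lam / (E + 1) ^ d) n ^ (E + 1) ^ d = dl M lam n := fun n => by
    rw [dl_pow]; congr 1; push_cast; field_simp
  have e3 : ∀ n, (dl M sg n)⁻¹ ^ 2 * dl M (lam / (E + 1) ^ d) n = dl M c n ^ 3 := fun n => by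
    have := (dl_pos M sg n).ne'
    rw [e1]; field_simp
  have sm := dl_sm hM (64 * (((E + 1) ^ d : ℕ) : ℝ) ^ 2 + 2) c0
  obtain ⟨F, F', h1, h2, h3⟩ := k3n P (Z true) (Z false) ((E + 1) ^ d) (fun n _ => nu (P n))
    (fun n _ => nu (P n)) (fun n _ => PE (x n) E) (fun n _ => PE (x n) E)
    (fun n ω => ∀ f, Pl (x n) E f → |f ω| ≤ (dl M sg n)⁻¹ * N true n (Z true n ω) f)
    (N true) (N false) (fun n => (dl M sg n)⁻¹) (dl M (lam / (E + 1) ^ d))
    (k.mono (sm.mono fun n a ω _ ⟨b, f, f1, f2, f3⟩ => ⟨fun g hg => (b g hg).2.2, rfl, rfl,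
      ref_PE .., hN .., hN .., (one_le_inv₀ (dl_pos ..)).2 (dl_le_one M hs n), dl_pos .., by
        have p := dl_pos M c n
        have q := dl_le_one M c0.le n
        rw [mul_assoc, e3]
        have := pow_le_of_le_one p.le q three_ne_zero
        nlinarith [sq_nonneg (((E + 1) ^ d : ℕ) : ℝ)],
      fun g hg => ⟨(b g (mem_PE.1 hg)).1, (b g (mem_PE.1 hg)).2.1⟩,
      f, mem_PE.2 f1, f2, by rwa [e2]⟩))
  refine nl_two h c0 h1 h2 ((h3.and (whp_cg (x := x) hM E c0)).mono ?_)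
  filter_upwards [sm] with n a ω _ ⟨⟨b1, b2, b3⟩, b4⟩
  refine ⟨b2, b3.1, (b3.ev (y := fun f => |f ω|) (h1 n _) (inv_pos.2 (dl_pos ..)).le
    (inv_pos.2 (dl_pos ..)).le (fun f g => abs_add_le _ _) (fun f hf => b1 f (mem_PE.1 hf))
    fun f hf => b4 f (mem_PE.1 hf)).trans (mul_le_mul_of_nonneg_right ?_ b3.1.le)⟩
  have p := dl_pos M c n
  have q := dl_le_one M c0.le n
  have p' := dl_pos M sg n
  have q' := dl_le_one M hs n
  rw [e1]
  generalize dl M c n = y at *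
  generalize dl M sg n = s at *
  generalize (((E + 1) ^ d : ℕ) : ℝ) ^ 2 = K at *
  have e4 : (2 * s⁻¹ + 64 * K * s⁻¹ ^ 2 * y⁻¹) * (y ^ 3 * s ^ 2) =
      2 * (y * s) * y ^ 2 + 64 * K * y ^ 2 := by field_simp
  rw [e4]
  nlinarith [mul_le_mul_of_nonneg_right a p.le,
    mul_le_mul_of_nonneg_right (mul_le_one₀ q p'.le q') (sq_nonneg y)]

/-- The form used in steep windows: both pieces, smoothed at depth `lam`, are comparable with one
norm `R` that has a thin element. -/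
theorem nl_steep (h : NL P x M Z) (hM : Big M) (E : ℕ) {lam sg : ℝ} (hs : 0 ≤ sg)
    (hl : (4 * (E + 1) ^ d + 1) * sg < lam) (R : ∀ n, Ω n → (Ω n → ℝ) → ℝ) :
    ¬Pos P fun n ω => (∀ a f, Pl (x n) E f →
        R n ω f + dl M lam n * nu (P n) f ≤ (dl M sg n)⁻¹ *
          (nu (cv (P n) (Z a n) (Z a n ω)) f + dl M lam n * nu (P n) f) ∧
        nu (cv (P n) (Z a n) (Z a n ω)) f + dl M lam n * nu (P n) f ≤ (dl M sg n)⁻¹ *
          (R n ω f + dl M lam n * nu (P n) f)) ∧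
      ∃ f, Pl (x n) E f ∧ 0 < nu (P n) f ∧ R n ω f ≤ dl M lam n * nu (P n) f := fun k => by
  have d0 : (0 : ℝ) < (E + 1) ^ d := by positivity
  obtain ⟨c, hc⟩ : ∃ c : ℝ, c = (lam - (4 * (E + 1) ^ d + 1) * sg) / (2 * (E + 1) ^ d + 2) :=
    ⟨_, rfl⟩
  have c0 : 0 < c := hc ▸ div_pos (by linarith) (by positivity)
  have c1 : c * (2 * (E + 1) ^ d + 2) = lam - (4 * (E + 1) ^ d + 1) * sg := by
    rw [hc]; field_simp
  refine nl_norm h hM E (sg := 2 * sg + c) (lam := lam - sg - c) (by positivity) (by nlinarith)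
    (fun a n z f => nu (cv (P n) (Z a n) z) f + dl M lam n * nu (P n) f)
    (fun a n z => (sn_nu _).add ((sn_nu _).mul (dl_pos ..).le))
    ((k.and (whp_cg_cv hM (Z true) (fun n _ => x n) E c0)).mono ?_)
  filter_upwards [big_dl hM 2 c0] with n a ω _ ⟨⟨b, f, f1, f2, f3⟩, b4⟩
  have p := inv_pos.2 (dl_pos M sg n)
  have q := (one_le_inv₀ (dl_pos ..)).2 (dl_le_one M hs n)
  have e1 : (dl M (2 * sg + c) n)⁻¹ = (dl M sg n)⁻¹ * (dl M sg n)⁻¹ * (dl M c n)⁻¹ := by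
    rw [two_mul, dl_add, dl_add, mul_inv, mul_inv]
  have e2 : dl M (lam - sg - c) n = (dl M sg n)⁻¹ * (dl M c n)⁻¹ * dl M lam n := by
    have := (dl_pos M sg n).ne'
    have := (dl_pos M c n).ne'
    rw [show lam = lam - sg - c + sg + c by ring, dl_add, dl_add]
    field_simp
    congr 1; ring
  have nn : ∀ a g, 0 ≤ nu (cv (P n) (Z a n) (Z a n ω)) g + dl M lam n * nu (P n) g := fun a g =>
    add_nonneg ((sn_nu _).nonneg g) (mul_nonneg (dl_pos ..).le ((sn_nu _).nonneg g))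
  have two : ∀ a a' g, Pl (x n) E g →
      nu (cv (P n) (Z a n) (Z a n ω)) g + dl M lam n * nu (P n) g ≤ (dl M (2 * sg + c) n)⁻¹ *
        (nu (cv (P n) (Z a' n) (Z a' n ω)) g + dl M lam n * nu (P n) g) := fun a1 a2 g hg => by
    refine ((b a1 g hg).2.trans (mul_le_mul_of_nonneg_left (b a2 g hg).1 p.le)).trans ?_
    rw [e1, ← mul_assoc]
    exact mul_le_mul_of_nonneg_right (le_mul_of_one_le_right (by positivity) (by linarith)) (nn _ _)
  refine ⟨fun g hg => ⟨two _ _ g hg, two _ _ g hg, (b4 g hg).trans (mul_le_mul ?_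
    (le_add_of_nonneg_right (mul_nonneg (dl_pos ..).le ((sn_nu _).nonneg g))) ((sn_nu _).nonneg g)
    (inv_pos.2 (dl_pos ..)).le)⟩, f, f1, f2, (b true f f1).2.trans ?_⟩
  · rw [e1]
    exact le_mul_of_one_le_left (by linarith) (one_le_mul_of_one_le_of_one_le q q)
  · rw [e2, mul_assoc, mul_assoc]
    refine mul_le_mul_of_nonneg_left ?_ p.le
    nlinarith [mul_pos (dl_pos M lam n) f2]

end Seq

end Pool.Agent.MP_5168f5_an.AN.K3
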