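import Pool.Agent.MP_5168f5_an.AN.C1Rho
import Pool.Agent.MP_5168f5_an.AN.C1Add
import Pool.Agent.MP_5168f5_an.AN.K3
import Pool.Agent.MP_5168f5_an.AN.Defs

/-! Random norms: deterministic profiles, linear profiles after a blow up, one basis. -/

namespace Pool.Agent.MP_5168f5_an.AN.C1

open H19 H17S H17F R4 Filter

theorem ev_ch {α : ℕ → Type} [∀ n, Nonempty (α n)] {p : ∀ n, α n → Prop}
    (h : ∀ᶠ n in UF, ∃ a, p n a) : ∃ a : ∀ n, α n, ∀ᶠ n in UF, p n (a n) :=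
  ⟨fun n => Classical.epsilon (p n), h.mono fun _ k => Classical.epsilon_spec k⟩

/-- A diagonal that works for all slower sequences. -/
theorem slow {J : Type} [Countable J] (p : J → ℕ → ℕ → Prop)
    (h : ∀ j, ∀ᶠ i in atTop, ∀ᶠ n in UF, p j i n) : ∃ i0, Big i0 ∧
      ∀ i : ℕ → ℕ, Big i → (∀ᶠ n in UF, i n ≤ i0 n) → ∀ j, ∀ᶠ n in UF, p j (i n) n := by
  obtain ⟨e, he⟩ := Countable.exists_injective_nat J
  choose t ht using fun j => eventually_atTop.1 (h j)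
  obtain ⟨k, k1, k2⟩ := ks.spill (fun i n => ∀ j ∈ e ⁻¹' Set.Iic i, t j ≤ i → p j i n) fun i =>
    (eventually_all_finite ((Set.finite_Iic i).preimage he.injOn)).2 fun j _ =>
      eventually_imp_distrib_left.2 (ht j i)
  refine ⟨k, k1, fun i a b j => ?_⟩
  filter_upwards [k2, b, tendsto_atTop.1 a (e j), tendsto_atTop.1 a (t j)] with n u v w y
  exact u _ v j w y

/-- Countably many likely events hold together along a slowly growing family. -/
theorem slow_whp {Ω : ℕ → Type} {P : ∀ n, FP (Ω n)} {J : Type} [Countable J]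
    (E : J → ∀ n, Ω n → Prop) (q : J → ℕ → Prop) (h : ∀ j, Whp P (E j))
    (h' : ∀ j, ∀ᶠ n in UF, q j n) : ∃ I : ℕ → Finset J, (∀ j, ∀ᶠ n in UF, j ∈ I n) ∧
      (∀ᶠ n in UF, ∀ j ∈ I n, q j n) ∧ Whp P fun n ω => ∀ j ∈ I n, E j n ω := by
  obtain ⟨e, he⟩ := Countable.exists_injective_nat J
  let I : ℕ → Finset J := fun i => (Finset.range i).preimage e he.injOn
  obtain ⟨k, k1, k2⟩ := ks.spill (fun i n => (∀ j ∈ I i, q j n) ∧
      pb (P n) (fun ω => ¬∀ j : I i, E j n ω) ≤ 1 / (i + 1 : ℝ)) fun i =>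
    ((eventually_all_finset _).2 fun j _ => h' j).and
      (Whp.all (fun j : I i => h j) _ (by positivity))
  refine ⟨fun n => I (k n), fun j => (tendsto_atTop.1 k1 (e j + 1)).mono fun n a => ?_,
    k2.mono fun n a => (a _ le_rfl).1, fun ε hε => ?_⟩
  · exact Finset.mem_preimage.2 (Finset.mem_range.2 a)
  · filter_upwards [k2, k1.ev (1 / ε)] with n a b
    refine ((pb_mono fun ω _ c d => c fun j hj => d ⟨j, hj⟩).trans (a _ le_rfl).2).trans ?_
    rw [div_le_iff₀ hε] at b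
    rw [div_le_iff₀ (by positivity)]
    linarith

section Cv

variable {Ω : ℕ → Type} (P : ∀ n, FP (Ω n)) (M : ℕ → ℕ)

/-- `f = c M + o(M)` with high probability. -/
def Cv (f : ∀ n, Ω n → ℝ) (c : ℝ) : Prop :=
  ∀ ε : ℝ, 0 < ε → Whp P fun n ω => |f n ω - c * M n| ≤ ε * M n

variable {P M} {f g : ∀ n, Ω n → ℝ} {c c' : ℝ}

theorem Cv.add (h : Cv P M f c) (h' : Cv P M g c') :
    Cv P M (fun n ω => f n ω + g n ω) (c + c') := fun ε hε =>
  ((h _ (half_pos hε)).and (h' _ (half_pos hε))).mono (Eventually.of_forall fun n ω _ k => by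
    rw [abs_le]; constructor <;> linarith [abs_le.1 k.1, abs_le.1 k.2])

theorem Cv.zero : Cv P M (fun _ _ => 0) 0 := fun ε hε =>
  Whp.of_ev (Eventually.of_forall fun n ω _ => by simp; positivity)

theorem Cv.le (hM : Big M) (h : Cv P M f c) (h' : Cv P M g c')
    (e : ∀ ε : ℝ, 0 < ε → Whp P fun n ω => f n ω ≤ g n ω + ε * M n) : c ≤ c' := by
  refine le_of_forall_pos_le_add fun ε hε => ?_
  have p : 0 < ε / 3 := by positivity
  obtain ⟨n, ⟨ω, -, ⟨a, b⟩, d⟩, u⟩ :=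
    ((((h _ p).and (h' _ p)).and (e _ p)).pos.ex.and (hM.ev 1)).exists
  exact le_of_mul_le_mul_right (a := (M n : ℝ)) (by linarith [abs_le.1 a, abs_le.1 b]) (by linarith)

theorem Cv.le' (hM : Big M) (h : Cv P M f c) (h' : Cv P M g c')
    (e : Whp P fun n ω => f n ω ≤ g n ω) : c ≤ c' := h.le hM h' fun ε hε =>
  e.mono (Eventually.of_forall fun n ω _ k => k.trans (le_add_of_nonneg_right (by positivity)))

/-- A change of order `o(M)`. -/
theorem Cv.near (h : Cv P M f c)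
    (e : ∀ ε : ℝ, 0 < ε → Whp P fun n ω => |g n ω - f n ω| ≤ ε * M n) : Cv P M g c := fun ε hε =>
  ((h _ (half_pos hε)).and (e _ (half_pos hε))).mono (Eventually.of_forall fun n ω _ k => by
    rw [abs_le]; constructor <;> linarith [abs_le.1 k.1, abs_le.1 k.2])

theorem gp_log (hM : Big M) {q : ∀ n, Ω n → ℝ → Prop} (h : Gp P M q) (C : ℝ) (k : ℕ) {ε : ℝ}
    (hε : 0 < ε) : Whp P fun n ω => ∃ Γ, 1 ≤ Γ ∧ C * Γ ^ k ≤ Real.exp (ε * M n) ∧ q n ω Γ := by
  obtain ⟨G, Γ, a, b, c⟩ := h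
  refine a.mono ?_
  filter_upwards [c, ((b.pow k).const_mul hM (le_max_right C 1)).2 ε hε] with n u v ω hω g
  exact ⟨Γ n, b.1 n, (mul_le_mul_of_nonneg_right (le_max_left _ _)
    (pow_nonneg (b.pos n).le k)).trans v, u ω hω g⟩

/-- Countably many bounded variables are deterministic on an event of slowly decaying mass. -/
theorem det {ι : Type} [Countable ι] (f : ι → ∀ n, Ω n → ℝ) {L : ℕ → ℝ} (hM : Big M)
    (hL : Tendsto L UF atTop) (bd : ∀ i, ∃ B : ℝ, Whp P fun n ω => |f i n ω| ≤ B * M n) :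
    ∃ (G : ∀ n, Ω n → Prop) (c : ι → ℝ), (∀ᶠ n in UF, 1 ≤ L n * pb (P n) (G n)) ∧
      ∀ i, ∀ ε : ℝ, 0 < ε → ∀ᶠ n in UF, ∀ ω ∈ (P n).S, G n ω → |f i n ω - c i * M n| ≤ ε * M n := by
  classical
  choose B hB using bd
  obtain ⟨e, he⟩ := Countable.exists_injective_nat ι
  let I : ℕ → Finset ι := fun i => (Finset.range i).preimage e he.injOn
  have key : ∀ j : ℕ, ∀ᶠ n in UF, ∃ (G : Ω n → Prop) (y : ι → ℝ), 1 ≤ L n * pb (P n) G ∧
      ∀ i ∈ I j, |y i| ≤ |B i| + 1 ∧ ∀ ω, G ω → |f i n ω - y i * M n| ≤ 1 / (j + 1 : ℝ) * M n :=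
    fun j => by
    let T : I j → Finset ℤ := fun i => Finset.Icc ⌊-(|B i| * (j + 1))⌋ ⌊|B i| * (j + 1)⌋
    have : Nonempty (∀ i : I j, T i) := ⟨fun i => ⟨_, Finset.mem_Icc.2 ⟨le_rfl,
      Int.floor_le_floor (neg_le_self (by positivity))⟩⟩⟩
    filter_upwards [Whp.all (fun i : I j => hB i) _ one_half_pos, hM.ev 1,
      tendsto_atTop.1 hL (2 * Fintype.card (∀ i : I j, T i))] with n a b c
    have m0 : (0 : ℝ) < M n := by linarith
    obtain ⟨z, hz⟩ := K3.pig_fin (P n) fun (z : ∀ i : I j, T i) ω =>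
      ∀ i : I j, ⌊f i n ω / M n * (j + 1)⌋ = z i
    refine ⟨_, fun i => if h : i ∈ I j then (z ⟨i, h⟩ : ℤ) / (j + 1 : ℝ) else 0, le_trans ?_
      (mul_le_mul_of_nonneg_right c (pb_nonneg (P n) fun ω =>
        ∀ i : I j, ⌊f i n ω / M n * (j + 1)⌋ = z i)), fun i hi => ⟨?_, fun ω k => ?_⟩⟩
    · rw [pb_not] at a
      refine le_trans ?_ ((mul_le_mul_of_nonneg_left (le_trans (pb_mono
        (E := fun ω => ∀ i : I j, |f i n ω| ≤ B i * M n) fun ω _ k =>
          ⟨fun i => ⟨⌊f i n ω / M n * (j + 1)⌋, ?_⟩, fun _ => rfl⟩) hz) zero_le_two).trans_eq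
          (by ring))
      · linarith
      have u : |f i n ω / M n| ≤ |B i| := by
        rw [abs_div, abs_of_pos m0, div_le_iff₀ m0]
        exact (k i).trans (mul_le_mul_of_nonneg_right (le_abs_self _) m0.le)
      rw [abs_le] at u
      exact Finset.mem_Icc.2 ⟨Int.floor_le_floor (by nlinarith), Int.floor_le_floor (by nlinarith)⟩
    · obtain ⟨u, v⟩ := Finset.mem_Icc.1 (z ⟨i, hi⟩).2
      have u' : (⌊-(|B i| * (j + 1))⌋ : ℝ) ≤ (z ⟨i, hi⟩ : ℤ) := by exact_mod_cast u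
      have v' : ((z ⟨i, hi⟩ : ℤ) : ℝ) ≤ ⌊|B i| * (j + 1)⌋ := by exact_mod_cast v
      beta_reduce
      rw [dif_pos hi, abs_div, abs_of_pos (by positivity : (0 : ℝ) < j + 1),
        div_le_iff₀ (by positivity), abs_le]
      constructor <;> linarith [Int.floor_le (|B i| * (j + 1)),
        Int.lt_floor_add_one (-(|B i| * (j + 1))), Nat.cast_nonneg (α := ℝ) j, abs_nonneg (B i)]
    · beta_reduce
      rw [dif_pos hi, ← k ⟨i, hi⟩]
      have u := Int.floor_le (f i n ω / M n * (j + 1))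
      have v := Int.lt_floor_add_one (f i n ω / M n * (j + 1))
      have w : f i n ω - ⌊f i n ω / M n * (j + 1)⌋ / (j + 1 : ℝ) * M n =
          (f i n ω / M n * (j + 1) - ⌊f i n ω / M n * (j + 1)⌋) * (1 / (j + 1 : ℝ) * M n) := by
        field_simp
      rw [w, abs_of_nonneg (mul_nonneg (by linarith) (by positivity))]
      exact mul_le_of_le_one_left (by positivity) (by linarith)
  obtain ⟨k, k1, k2⟩ := ks.spill _ key
  have k3 := k2.mono fun n a => a _ le_rfl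
  obtain ⟨G, hG⟩ := ev_ch k3
  obtain ⟨y, hy⟩ := ev_ch hG
  have mem : ∀ i, ∀ᶠ n in UF, i ∈ I (k n) := fun i => (tendsto_atTop.1 k1 (e i + 1)).mono
    fun n a => Finset.mem_preimage.2 (Finset.mem_range.2 a)
  refine ⟨G, fun i => ul fun n => y n i, hy.mono fun n a => a.1, fun i ε hε => ?_⟩
  have t := tendsto_ul (f := fun n => y n i) ((hy.and (mem i)).mono fun n a => (a.1.2 i a.2).1)
  filter_upwards [hy, mem i, Metric.tendsto_nhds.1 t _ (half_pos hε), k1.ev (2 / ε)] with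
    n a b c d ω _ g
  have u := (a.2 i b).2 ω g
  have v : 1 / (k n + 1 : ℝ) ≤ ε / 2 := by
    rw [div_le_iff₀ hε] at d
    rw [div_le_iff₀ (by positivity)]
    linarith
  have m0 : (0 : ℝ) ≤ M n := Nat.cast_nonneg _
  rw [Real.dist_eq, abs_lt] at c
  rw [abs_le] at u ⊢
  constructor <;> nlinarith

end Cv

section Prof

variable {Ω : ℕ → Type} {V ι : Type} [AddCommGroup V] [Module ℝ V] {m : ℕ}

/-- The sum of the first `k` entries. -/
noncomputable def sk (lam : Fin m → ℝ) (k : ℕ) : ℝ :=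
  ∑ i ∈ Finset.univ.filter fun i : Fin m => i.val < k, lam i

theorem sk_tel (W : ℕ → ℝ) : ∀ k ≤ m, sk (fun i : Fin m => W (i + 1) - W i) k = W k - W 0 := by
  intro k hk
  rw [← Finset.sum_range_sub, sk, Finset.sum_filter,
    Fin.sum_univ_eq_sum_range (fun i => if i < k then W (i + 1) - W i else 0), ← Finset.sum_filter]
  congr 1
  ext i
  simp only [Finset.mem_filter, Finset.mem_range]
  omega

/-- The relative volumes of the random norms `ν a` have the limits `A`. -/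
def Prf (P : ∀ n, FP (Ω n)) (M : ℕ → ℕ) (m : ℕ) (ν : ι → ∀ n, Ω n → V → ℝ) (A : ℕ → ι → ι → ℝ) :
    Prop := ∀ k ≤ m, ∀ a a', Cv P M (fun n ω => Real.log (rho k (ν a n ω) (ν a' n ω))) (A k a a')

/-- The relative volumes of the random norms `ν a` are linear in the levels. -/
def LinP (P : ∀ n, FP (Ω n)) (M : ℕ → ℕ) (lv : ι → ℝ) (ν : ι → ∀ n, Ω n → V → ℝ)
    (lam : Fin m → ℝ) : Prop := ∀ k ≤ m, ∀ a a', lv a ≤ lv a' →
  Cv P M (fun n ω => Real.log (rho k (ν a n ω) (ν a' n ω))) (sk lam k * (lv a' - lv a))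

/-- The profiles `A` are linear at small scales around `s`. -/
def LinAt (lv : ι → ℝ) (A : ℕ → ι → ι → ℝ) (s : ℝ) (lam : Fin m → ℝ) : Prop :=
  ∀ η : ℝ, 0 < η → ∃ δ : ℝ, 0 < δ ∧ ∀ r, 0 < r → r ≤ δ → ∀ k ≤ m, ∀ a a', lv a ≤ lv a' →
    |lv a - s| ≤ r → |lv a' - s| ≤ r → |A k a a' - sk lam k * (lv a' - lv a)| ≤ η * r

variable {P : ∀ n, FP (Ω n)} {M : ℕ → ℕ} {lv : ι → ℝ} {ν ν' : ι → ∀ n, Ω n → V → ℝ}
  {A : ℕ → ι → ι → ℝ} {lam : Fin m → ℝ} {s : ℝ}

/-- One window of the blow up. -/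
theorem blow0 (hA : Prf P M m ν A) (hs : LinAt lv A s lam) {ι' : Type}
    (lv' : ι' → ℝ) (φ : ℕ → ι' → ι) (σ ε : ℕ → ℝ) (M' : ℕ → ℕ → ℕ) (e0 : ∀ i, 0 < ε i)
    (e1 : Tendsto ε atTop (nhds 0)) (hσ : ∀ i, |σ i - s| ≤ ε i)
    (hφ : ∀ a, ∀ᶠ i in atTop, lv (φ i a) = σ i + ε i * lv' a)
    (hM' : ∀ i, Eqv M (fun n => M' i n) fun n => ε i * M n) {k : ℕ} (hk : k ≤ m) {a a' : ι'}
    (h : lv' a ≤ lv' a') {η : ℝ} (hη : 0 < η) : ∀ᶠ i in atTop, Whp P fun n ω =>
      |Real.log (rho k (ν (φ i a) n ω) (ν (φ i a') n ω)) - sk lam k * (lv' a' - lv' a) * M' i n| ≤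
        η * M' i n := by
  obtain ⟨R, R0, R1, R2⟩ : ∃ R, 0 < R ∧ 1 + |lv' a| ≤ R ∧ 1 + |lv' a'| ≤ R :=
    ⟨1 + |lv' a| + |lv' a'|, by positivity, by linarith [abs_nonneg (lv' a')],
      by linarith [abs_nonneg (lv' a)]⟩
  obtain ⟨δ, d0, hδ⟩ := hs (η / 4 / R) (by positivity)
  filter_upwards [hφ a, hφ a', e1.eventually_le_const (div_pos d0 R0)] with i u u' v
  have p := e0 i
  have nr : ∀ y, 1 + |y| ≤ R → |σ i + ε i * y - s| ≤ ε i * R := fun y hy => by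
    rw [add_sub_right_comm]
    refine (abs_add_le _ _).trans ?_
    rw [abs_mul, abs_of_pos p]
    nlinarith [hσ i]
  have w := hδ (ε i * R) (by positivity) ((le_div_iff₀ R0).1 v) k hk (φ i a) (φ i a')
    (by rw [u, u']; nlinarith) (u ▸ nr _ R1) (u' ▸ nr _ R2)
  rw [u, u', show η / 4 / R * (ε i * R) = η / 4 * ε i by field_simp,
    show σ i + ε i * lv' a' - (σ i + ε i * lv' a) = ε i * (lv' a' - lv' a) by ring] at w
  set c := sk lam k * (lv' a' - lv' a) with hc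
  obtain ⟨θ, t0, t1⟩ : ∃ θ, 0 < θ ∧ θ * (|c| + η) ≤ η / 4 * ε i :=
    ⟨η / 4 * ε i / (|c| + η), by positivity, (div_mul_cancel₀ _ (by positivity)).le⟩
  refine (hA k hk (φ i a) (φ i a') (η / 4 * ε i) (by positivity)).mono ?_
  filter_upwards [(hM' i).1 θ t0, (hM' i).2 θ t0] with n b b' ω _ z
  have m0 : (0 : ℝ) ≤ M n := Nat.cast_nonneg _
  have y : |c * (ε i * M n - M' i n)| ≤ |c| * (θ * M n) := by
    rw [abs_mul]
    exact mul_le_mul_of_nonneg_left (abs_le.2 ⟨by linarith, by linarith⟩) (abs_nonneg c)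
  have w' := mul_le_mul_of_nonneg_right w m0
  rw [← abs_of_nonneg m0, ← abs_mul, abs_of_nonneg m0, mul_left_comm (sk lam k), ← hc] at w'
  have t2 := mul_le_mul_of_nonneg_right t1 m0
  have t3 := mul_le_mul_of_nonneg_left b' hη.le
  rw [abs_le] at y w' z ⊢
  constructor <;> nlinarith [mul_nonneg (mul_pos hη p).le m0]

/-- A slow blow up has linear profiles. -/
theorem blow (hA : Prf P M m ν A) (hs : LinAt lv A s lam) {ι' : Type} [Countable ι']
    (lv' : ι' → ℝ) (φ : ℕ → ι' → ι) (σ ε : ℕ → ℝ) (M' : ℕ → ℕ → ℕ) (e0 : ∀ i, 0 < ε i)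
    (e1 : Tendsto ε atTop (nhds 0)) (hσ : ∀ i, |σ i - s| ≤ ε i)
    (hφ : ∀ a, ∀ᶠ i in atTop, lv (φ i a) = σ i + ε i * lv' a)
    (hM' : ∀ i, Eqv M (fun n => M' i n) fun n => ε i * M n) : ∃ i0, Big i0 ∧
      ∀ i : ℕ → ℕ, Big i → (∀ᶠ n in UF, i n ≤ i0 n) →
        LinP P (fun n => M' (i n) n) lv' (fun a n => ν (φ (i n) a) n) lam := by
  obtain ⟨i0, a, b⟩ := slow (J := ℕ × ι' × ι' × ℕ) (fun j i n => j.1 ≤ m → lv' j.2.1 ≤ lv' j.2.2.1 →
      pb (P n) (fun ω => ¬|Real.log (rho j.1 (ν (φ i j.2.1) n ω) (ν (φ i j.2.2.1) n ω)) -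
        sk lam j.1 * (lv' j.2.2.1 - lv' j.2.1) * M' i n| ≤ 1 / (j.2.2.2 + 1 : ℝ) * M' i n) ≤
        1 / (j.2.2.2 + 1 : ℝ)) fun ⟨k, a, a', j⟩ => by
    simp only [eventually_imp_distrib_left]
    exact fun hk h => (blow0 hA hs lv' φ σ ε M' e0 e1 hσ hφ hM' hk h
      (η := 1 / (j + 1 : ℝ)) (by positivity)).mono fun i u => u _ (by positivity)
  refine ⟨i0, a, fun i c d k hk a a' h η hη η' hη' => ?_⟩
  obtain ⟨j, hj⟩ := exists_nat_one_div_lt (lt_min hη hη')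
  refine (b i c d (k, a, a', j)).mono fun n u => ((pb_mono fun ω _ v w => v (w.trans ?_)).trans
    (u hk h)).trans (hj.le.trans (min_le_right _ _))
  exact mul_le_mul_of_nonneg_right (hj.le.trans (min_le_left _ _)) (Nat.cast_nonneg _)

variable [FiniteDimensional ℝ V]

/-- Comparable norms have the same profiles. -/
theorem cv_cmp (hM : Big M) (hb : ∀ a, Whp P fun n ω => Hb (ν a n ω) ∧ Hb (ν' a n ω))
    (cmp : ∀ a, Gp P M fun n ω Γ => ∀ v, ν a n ω v ≤ Γ * ν' a n ω v ∧ ν' a n ω v ≤ Γ * ν a n ω v)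
    (rk : Module.finrank ℝ V = m) {k : ℕ} (hk : k ≤ m) {a a' : ι} {c : ℝ}
    (h : Cv P M (fun n ω => Real.log (rho k (ν a n ω) (ν a' n ω))) c) :
    Cv P M (fun n ω => Real.log (rho k (ν' a n ω) (ν' a' n ω))) c := h.near fun ε hε => by
  refine ((((hb a).and (hb a')).and (gp_log hM (cmp a) 1 k (half_pos hε))).and
    (gp_log hM (cmp a') 1 k (half_pos hε))).mono (Eventually.of_forall ?_)
  rintro n ω - ⟨⟨⟨⟨h1, h2⟩, h3, h4⟩, Γ, g1, g2, g3⟩, Γ', g1', g2', g3'⟩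
  have key : ∀ α α' β β' : V → ℝ, Hb α → Hb α' → Hb β → Hb β' → (∀ v, α' v ≤ Γ * α v) →
      (∀ v, β v ≤ Γ' * β' v) → Real.log (rho k α' β') ≤ Real.log (rho k α β) + ε * M n :=
    fun α α' β β' a1 a2 a3 a4 c1 c2 => by
    have p := ((rMul V α' α β' k a2 a1 a4).2.2 Γ (by linarith) c1).2.1
    have q := ((rMul V β β' α k a3 a4 a1).2.2 Γ' (by linarith) c2).2.2
    have r := rho_pos a1 a3 rk hk
    rw [← Real.log_exp (ε * M n), ← Real.log_mul r.ne' (Real.exp_pos _).ne']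
    refine Real.log_le_log (rho_pos a2 a4 rk hk) (p.trans ((mul_le_mul_of_nonneg_left q
      (by positivity)).trans ?_))
    rw [← mul_assoc, mul_comm, ← add_halves ε, add_mul, Real.exp_add]
    rw [one_mul] at g2 g2'
    gcongr
  rw [abs_le]
  constructor
  · linarith [key _ _ _ _ h2 h1 h4 h3 (fun v => (g3 v).1) fun v => (g3' v).2]
  · linarith [key _ _ _ _ h1 h2 h3 h4 (fun v => (g3 v).2) fun v => (g3' v).1]

/-- The profiles of a decreasing family of norms are linear at almost every point. -/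
theorem prof [Countable ι] (rk : Module.finrank ℝ V = m) (hM : Big M)
    (hb : ∀ a, Whp P fun n ω => Hb (ν a n ω))
    (mono : ∀ a a', lv a ≤ lv a' → Gp P M fun n ω Γ => ∀ v, ν a' n ω v ≤ Γ * ν a n ω v)
    (hA : Prf P M m ν A) :
    ∀ᵐ s : ℝ, ∀ a1 a2, lv a1 < s → s < lv a2 → ∃ lam : Fin m → ℝ, LinAt lv A s lam := by
  have h3 : ∀ a b c, Whp P fun n ω => (Hb (ν a n ω) ∧ Hb (ν b n ω)) ∧ Hb (ν c n ω) := fun a b c =>
    ((hb a).and (hb b)).and (hb c)
  have sub : ∀ k ≤ m, ∀ a b c, A k a c ≤ A k a b + A k b c := fun k hk a b c =>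
    (hA k hk a c).le' hM ((hA k hk a b).add (hA k hk b c)) ((h3 a b c).mono
      (Eventually.of_forall fun n ω _ ⟨⟨x, y⟩, z⟩ => by
        rw [← Real.log_mul (rho_pos x y rk hk).ne' (rho_pos y z rk hk).ne']
        exact Real.log_le_log (rho_pos x z rk hk) (rMul V _ _ _ k x y z).1))
  have add : ∀ a b c, A m a c = A m a b + A m b c := fun a b c => le_antisymm (sub m le_rfl a b c)
    (((hA m le_rfl a b).add (hA m le_rfl b c)).le' hM (hA m le_rfl a c) ((h3 a b c).mono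
      (Eventually.of_forall fun n ω _ ⟨⟨x, y⟩, z⟩ => by
        rw [← Real.log_mul (rho_pos x y rk le_rfl).ne' (rho_pos y z rk le_rfl).ne',
          rho_add x y z rk])))
  have z0 : ∀ a b, A 0 a b = 0 := fun a b => by
    have := (h3 a b b).mono (F := fun n ω => Real.log (rho 0 (ν a n ω) (ν b n ω)) = 0)
      (Eventually.of_forall fun n ω _ k => by rw [rho_zero k.1.1 k.2, Real.log_one])
    exact le_antisymm ((hA 0 m.zero_le a b).le' hM Cv.zero (this.mono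
      (Eventually.of_forall fun _ _ _ k => k.le))) (Cv.zero.le' hM (hA 0 m.zero_le a b)
      (this.mono (Eventually.of_forall fun _ _ _ k => k.ge)))
  obtain ⟨C, C0, hC⟩ := rho_le_top m
  have up : ∀ k ≤ m, ∀ a b, lv a ≤ lv b → A k a b ≤ A m a b := fun k hk a b h =>
    (hA k hk a b).le hM (hA m le_rfl a b) fun ε hε =>
      ((h3 a b b).and (gp_log hM (mono a b h) C m hε)).mono (Eventually.of_forall
        fun n ω _ ⟨⟨⟨x, y⟩, _⟩, Γ, g1, g2, g3⟩ => by
        have r := rho_pos x y rk le_rfl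
        rw [← Real.log_exp (ε * M n), ← Real.log_mul r.ne' (Real.exp_pos _).ne', mul_comm]
        exact Real.log_le_log (rho_pos x y rk hk) ((hC V _ _ Γ x y rk g1 g3 k hk).trans
          (mul_le_mul_of_nonneg_right g2 r.le)))
  have dn : ∀ k ≤ m, ∀ a b, lv b ≤ lv a → A k a b ≤ 0 := fun k hk a b h =>
    (hA k hk a b).le hM Cv.zero fun ε hε =>
      ((h3 a b b).and (gp_log hM (mono b a h) 1 k hε)).mono (Eventually.of_forall
        fun n ω _ ⟨⟨⟨x, y⟩, _⟩, Γ, g1, g2, g3⟩ => by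
        rw [zero_add, Real.log_le_iff_le_exp (rho_pos x y rk hk)]
        exact ((rMul V _ _ _ k x y y).2.2 Γ (by linarith) g3).1.trans (by rwa [one_mul] at g2))
  have nn : ∀ a b, lv a ≤ lv b → 0 ≤ A m a b := fun a b h => z0 a b ▸ up 0 m.zero_le a b h
  refine MeasureTheory.ae_all_iff.2 fun a1 => MeasureTheory.ae_all_iff.2 fun a2 => ?_
  let T : ℝ → Set ℝ := fun s =>
    insert 0 {y | ∃ a, lv a1 ≤ lv a ∧ lv a ≤ lv a2 ∧ lv a ≤ s ∧ y = A m a1 a}
  have ub : ∀ s b, lv a1 ≤ lv b → (∀ a, lv a ≤ lv a2 → lv a ≤ s → lv a ≤ lv b) →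
      A m a1 b ∈ upperBounds (T s) := by
    rintro s b hb h y (rfl | ⟨a, -, c, d, rfl⟩)
    · exact nn _ _ hb
    · linarith [add a1 a b, nn a b (h a c d)]
  by_cases o : lv a1 ≤ lv a2
  swap
  · exact Eventually.of_forall fun s u v => absurd (u.trans v).le o
  have bd : ∀ s, BddAbove (T s) := fun s => ⟨_, ub s a2 o fun _ c _ => c⟩
  have mo : Monotone fun s => sSup (T s) := fun s t h => csSup_le_csSup (bd t)
    (Set.insert_nonempty _ _) (Set.insert_subset_insert fun y ⟨a, b, c, d, e⟩ =>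
      ⟨a, b, c, d.trans h, e⟩)
  have vl : ∀ a : {a // lv a1 ≤ lv a ∧ lv a ≤ lv a2}, sSup (T (lv a)) = A m a1 a := fun a =>
    IsGreatest.csSup_eq ⟨Or.inr ⟨a, a.2.1, a.2.2, le_rfl, rfl⟩, ub _ a a.2.1 fun _ _ d => d⟩
  filter_upwards [MeasureTheory.ae_all_iff.2 fun k : Fin (m + 1) =>
    add_mono (ι := {a // lv a1 ≤ lv a ∧ lv a ≤ lv a2}) (fun a => lv a) (fun a b => A k a b) mo
      (fun a b c => sub k k.is_le a b c) fun a b => by
        rw [vl, vl]
        rcases le_total (lv a) (lv b) with h | h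
        · linarith [up k k.is_le a b h, add a1 a b, neg_abs_le (A m a1 a - A m a1 b)]
        · exact (dn k k.is_le a b h).trans (abs_nonneg _)] with s hs u v
  choose W hW using hs
  let W' : ℕ → ℝ := fun k => if h : 0 < k ∧ k ≤ m then W ⟨k, Nat.lt_succ_of_le h.2⟩ else 0
  refine ⟨fun i => W' (i + 1) - W' i, fun η hη => ?_⟩
  choose δ d0 hδ using fun k => hW k η hη
  obtain ⟨k0, hk0⟩ := Finite.exists_min δ
  refine ⟨min (δ k0) (min (s - lv a1) (lv a2 - s)), lt_min (d0 _) (lt_min (by linarith)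
    (by linarith)), fun r r0 r1 k hk a a' h c c' => ?_⟩
  rw [le_min_iff, le_min_iff] at r1
  rw [sk_tel W' k hk, show W' 0 = 0 from dif_neg (by simp), sub_zero]
  rcases k.eq_zero_or_pos with rfl | k1
  · rw [z0, show W' 0 = 0 from dif_neg (by simp)]
    simp only [zero_mul, sub_self, abs_zero]
    positivity
  · rw [show W' k = _ from dif_pos ⟨k1, hk⟩]
    have c1 := abs_le.1 c
    have c2 := abs_le.1 c'
    exact hδ ⟨k, Nat.lt_succ_of_le hk⟩ r r0 (r1.1.trans (hk0 _)) ⟨a, by linarith, by linarith⟩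
      ⟨a', by linarith, by linarith⟩ h c c'

end Prof

end Pool.Agent.MP_5168f5_an.AN.C1
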