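import Pool.Agent.MP_5168f5_an.AN.LCSpec

/-! Weighted trimming. -/

namespace Pool.Agent.MP_5168f5_an.AN.LC

open H19 H17S H17F R4 Filter MvPolynomial
open G39 (ind ind_pos ind_neg ind_nn pb_ind)

namespace LCTrimA

variable {Ω Λ : Type}

/-- The weight of the atoms that meet `T`. -/
noncomputable def wt (P : FP Ω) (π : Ω → Λ) (u : Ω → ℝ) (T : Finset Ω) : ℝ :=
  P.E fun ω => ind (∃ v ∈ T, π v = π ω) * u ω

variable {P : FP Ω} {π : Ω → Λ} {u : Ω → ℝ} {T T' : Finset Ω}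

theorem wt_nonneg (h : ∀ ω ∈ P.S, 0 ≤ u ω) : 0 ≤ wt P π u T :=
  P.E_nonneg fun ω hω => mul_nonneg (ind_nn _) (h ω hω)

theorem ind_mono {p q : Prop} (h : p → q) : ind p ≤ ind q := by
  by_cases e : p
  · rw [ind_pos e, ind_pos (h e)]
  · rw [ind_neg e]; exact ind_nn _

theorem wt_mono (h : ∀ ω ∈ P.S, 0 ≤ u ω) (e : T' ⊆ T) : wt P π u T' ≤ wt P π u T :=
  P.E_mono fun ω hω => mul_le_mul_of_nonneg_right
    (ind_mono fun ⟨v, a, b⟩ => ⟨v, e a, b⟩) (h ω hω)

theorem wt_drop (h : ∀ ω ∈ P.S, 0 ≤ u ω) (hf : Fn P u π) (e : T' ⊆ T) {a : Ω} (ha : a ∈ P.S)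
    (haT : a ∈ T) (hn : ∀ v ∈ T', π v ≠ π a) :
    wt P π u T' + u a * pb P (fun v => π v = π a) ≤ wt P π u T := by
  rw [wt, pb_ind, ← P.E_mul, ← P.E_add]
  refine P.E_mono fun ω hω => ?_
  by_cases k : π ω = π a
  · rw [ind_neg fun ⟨v, x, y⟩ => hn v x (y.trans k), ind_pos k, ind_pos ⟨a, haT, k.symm⟩,
      hf ω hω a ha k]
    simp
  · rw [ind_neg k, mul_zero, add_zero]
    exact mul_le_mul_of_nonneg_right (ind_mono fun ⟨v, x, y⟩ => ⟨v, e x, y⟩) (h ω hω)

end LCTrimA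

open LCTrimA in
theorem lcTrim : STrim := by
  classical
  intro Ω ι Λ P I π u G δ h
  obtain ⟨T, hT, hm⟩ := (P.S.filter G).powerset.exists_max_image
    (fun T => pb P (· ∈ T) - ∑ i ∈ I, wt P (π i) (u i) T) ⟨_, Finset.empty_mem_powerset _⟩
  rw [Finset.mem_powerset] at hT
  refine ⟨(· ∈ T), fun ω a => (Finset.mem_filter.1 (hT a)).2, ?_, fun i hi a ha haT => ?_⟩
  · have h1 := hm _ (Finset.mem_powerset_self _)
    have h2 : pb P G ≤ pb P (· ∈ P.S.filter G) := pb_mono fun ω a b => Finset.mem_filter.2 ⟨a, b⟩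
    have h3 : ∑ i ∈ I, wt P (π i) (u i) (P.S.filter G) ≤ I.card * δ := by
      rw [← nsmul_eq_mul]
      refine Finset.sum_le_card_nsmul _ _ _ fun i hi => le_trans (le_of_eq ?_) (h i hi).2.2
      simp only [wt, Finset.mem_filter, and_assoc]
    have h4 : 0 ≤ ∑ i ∈ I, wt P (π i) (u i) T := Finset.sum_nonneg fun i hi => wt_nonneg (h i hi).1
    linarith
  · have s := Finset.filter_subset (fun v => π i v ≠ π i a) T
    have h1 := hm _ (Finset.mem_powerset.2 (s.trans hT))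
    have h2 := wt_drop (h i hi).1 (h i hi).2.1 s ha haT fun v hv => (Finset.mem_filter.1 hv).2
    have h3 := Finset.single_le_sum (s := I) (f := fun j => wt P (π j) (u j) T -
      wt P (π j) (u j) (T.filter fun v => π i v ≠ π i a))
      (fun j hj => sub_nonneg.2 (wt_mono (h j hj).1 s)) hi
    have h4 := pb_split P (· ∈ T) fun v => π i v = π i a
    have h5 : pb P (· ∈ T.filter fun v => π i v ≠ π i a) = pb P fun v => v ∈ T ∧ ¬π i v = π i a :=
      pb_congr fun v _ => Finset.mem_filter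
    have h6 : pb P (fun v => v ∈ T ∧ π i v = π i a) = pb P fun v => π i v = π i a ∧ v ∈ T :=
      pb_congr fun v _ => and_comm
    rw [Finset.sum_sub_distrib] at h3
    rw [S20.pb_cv' ha, le_div_iff₀ (S20.pb_val ha _)]
    linarith

end Pool.Agent.MP_5168f5_an.AN.LC
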