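import Pool.Agent.MP_5168f5_an.AN.LCSpec

/-! Trimming for all atoms along a sequence. -/

namespace Pool.Agent.MP_5168f5_an.AN.LC

open H19 H17S H17F R4 Filter MvPolynomial
open G39 (dl OB)

theorem lcTrimS : OfTrimS := by
  intro h Ω Λ P M O G hM hG
  obtain ⟨f, hf⟩ := exists_surjective_nat (Bool × ℚ≥0)
  have p : ∀ n, 0 ≤ pb (P n) (G n) / (2 * (M n + 1)) := fun n =>
    div_nonneg (pb_nonneg _ _) (by positivity)
  choose G' g1 g2 g3 using fun n => h (Ω n) ℕ (Λ n) (P n) (Finset.range (M n))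
    (fun i => O (f i).1 (f i).2 n) (fun _ _ => pb (P n) (G n) / (2 * (M n + 1))) (G n)
    (pb (P n) (G n) / (2 * (M n + 1))) fun i _ => ⟨fun _ _ => p n, fun _ _ _ _ _ => rfl,
      ((P n).E_mono fun ω _ => mul_le_of_le_one_left (p n) (G39.ind_le _)).trans
        ((P n).E_const _).le⟩
  refine ⟨G', g1, Eventually.of_forall fun n => ?_, fun k a c hc => ?_⟩
  · have e : pb (P n) (G n) = 2 * (M n + 1) * (pb (P n) (G n) / (2 * (M n + 1))) := by field_simp
    have := g2 n
    rw [Finset.card_range] at this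
    linarith [p n]
  · obtain ⟨i, hi⟩ := hf (k, a)
    filter_upwards [hG _ (half_pos hc), hM.eventually_gt_atTop i,
      G39.sub_dl ((Sub.nat hM).const_mul hM one_le_two) (half_pos hc)] with n b d e ω hω g
    have := g3 n i (Finset.mem_range.2 d) ω hω g
    rw [hi] at this
    refine le_trans ?_ this
    rw [G39.dl_half, div_eq_mul_inv]
    exact mul_le_mul b ((le_inv_comm₀ (by positivity) (G39.dl_pos ..)).1 e) (G39.dl_pos ..).le
      (pb_nonneg _ _)

end Pool.Agent.MP_5168f5_an.AN.LC
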