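import Pool.Agent.MP_5168f5_an.AN.N3Spec

/-! Kakeya sets in all dimensions: one weight of a form wins. -/

namespace Pool.Agent.MP_5168f5_an.AN.N3

open H19 H17S H17F R4 Filter LC Finset
open G39 (dl)
open N6 (At gr_of atom_co)

section One

variable {κ : Type} {wt x : κ → ℝ} {s g W : ℝ} {f : κ}

open Classical in
/-- The index `f` wins at the time `s`, with the margin `g` over the other weights. -/
def Wn (wt x : κ → ℝ) (s g : ℝ) (f : κ) : Prop := ∀ b, |x b| * Real.exp (-(wt b * s)) ≤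
  |x f| * Real.exp (-(wt f * s)) * if wt b = wt f then 1 else Real.exp (-g)

open Classical in
/-- The part of `x` of the weight of `f`, normalised. -/
noncomputable def pt (wt x : κ → ℝ) (f b : κ) : ℝ := if wt b = wt f then x b / x f else 0

theorem two {u w p q s s' g : ℝ} (hw : 0 ≤ w) (a : u * Real.exp (-(p * s)) ≤ w * Real.exp (-(q * s)))
    (b : w * Real.exp (-(q * s')) * Real.exp (-g) < u * Real.exp (-(p * s'))) :
    (q - p) * (s - s') < g := by
  have h1 := mul_lt_mul_of_pos_right b (Real.exp_pos (-(p * s)))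
  have h2 := mul_le_mul_of_nonneg_right a (Real.exp_pos (-(p * s'))).le
  have h3 := h1.trans_le ((mul_right_comm _ _ _).le.trans h2)
  simp only [mul_assoc, ← Real.exp_add] at h3
  have := Real.exp_lt_exp.1 (lt_of_mul_lt_mul_left h3 hw)
  linarith

variable [Fintype κ]

theorem ex_wn [Nonempty κ] (wt x : κ → ℝ) {ρ t : ℝ} (ht : 0 ≤ t)
    (h : ∀ b b', wt b ≠ wt b' → ρ ≤ |wt b - wt b'|) :
    ∃ j : Fin (Fintype.card (κ × κ) + 1) × κ, Wn wt x (j.1 * t) (ρ * t) j.2 := by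
  by_contra c
  choose f hf using fun i : Fin (Fintype.card (κ × κ) + 1) =>
    Finite.exists_max fun b => |x b| * Real.exp (-(wt b * (i * t)))
  have h1 : ∀ i, ∃ b, wt b ≠ wt (f i) ∧ |x (f i)| * Real.exp (-(wt (f i) * (i * t))) *
      Real.exp (-(ρ * t)) < |x b| * Real.exp (-(wt b * (i * t))) := fun i => by
    by_contra k
    push Not at k
    refine c ⟨(i, f i), fun b => ?_⟩
    split_ifs with e
    exacts [(hf i b).trans_eq (mul_one _).symm, k b e]
  choose b hb using h1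
  obtain ⟨i, j, ne, e⟩ := Fintype.exists_ne_map_eq_of_card_lt (fun i => (f i, b i)) (by simp)
  obtain ⟨e1, e2⟩ := Prod.mk.inj e
  have h2 := two (abs_nonneg _) (hf i (b i)) (e1 ▸ e2 ▸ (hb j).2)
  have h3 := two (abs_nonneg _) (e1 ▸ hf j (b i)) (hb i).2
  have h4 : (1 : ℝ) ≤ |((i : ℕ) : ℝ) - (j : ℕ)| := by
    have : (1 : ℤ) ≤ |((i : ℕ) : ℤ) - (j : ℕ)| :=
      Int.one_le_abs (sub_ne_zero.2 (by exact_mod_cast Fin.val_ne_iff.2 ne))
    exact_mod_cast this
  have h5 : |(wt (f i) - wt (b i)) * (i * t - j * t)| < ρ * t := abs_lt.2 ⟨by linarith, h2⟩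
  rw [← sub_mul, abs_mul, abs_mul, abs_of_nonneg ht] at h5
  exact absurd h5 (not_lt.2 (mul_le_mul (h _ _ (hb i).1.symm) (le_mul_of_one_le_left ht h4) ht
    (abs_nonneg _)))

theorem Wn.low (h : Wn wt x s g f) (hg : 0 ≤ g) (hs : 0 ≤ s) (hW : ∀ b, wt b ≤ W)
    (e : ∑ b, |x b| = 1) :
    1 ≤ Fintype.card κ * Real.exp (W * s) * (|x f| * Real.exp (-(wt f * s))) := by
  rw [← e, mul_assoc, ← nsmul_eq_mul]
  refine sum_le_card_nsmul _ _ _ fun b _ => ?_
  have h1 : |x b| * Real.exp (-(wt b * s)) ≤ |x f| * Real.exp (-(wt f * s)) :=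
    (h b).trans (mul_le_of_le_one_right (by positivity) (by
      split_ifs
      exacts [le_rfl, Real.exp_le_one_iff.2 (neg_nonpos.2 hg)]))
  refine le_trans ?_ (mul_le_mul_of_nonneg_left h1 (Real.exp_pos _).le)
  rw [mul_left_comm, ← Real.exp_add]
  exact le_mul_of_one_le_right (abs_nonneg _) (Real.one_le_exp (by nlinarith [hW b]))

omit [Fintype κ] in
theorem Wn.pt_le (h : Wn wt x s g f) (b : κ) : |pt wt x f b| ≤ 1 := by
  unfold pt
  split_ifs with e
  · have := h b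
    rw [if_pos e, mul_one, e] at this
    rw [abs_div]
    exact div_le_one_of_le₀ (le_of_mul_le_mul_right this (Real.exp_pos _)) (abs_nonneg _)
  · simp

theorem pt_br (hf : x f ≠ 0) {c : κ → ℝ} {w : ℝ} (hc : ∀ e, c e ≠ 0 → wt e = w) :
    |x f| * |∑ e, pt wt x f e * c e| ≤ |∑ e, x e * c e| := by
  rw [← abs_mul, mul_sum]
  by_cases k : w = wt f
  · refine le_of_eq (congrArg _ (sum_congr rfl fun e _ => ?_))
    by_cases z : c e = 0
    · simp [z]
    · rw [pt, if_pos ((hc e z).trans k)]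
      field_simp
  · rw [sum_eq_zero fun e _ => ?_, abs_zero]
    · exact abs_nonneg _
    · by_cases z : c e = 0
      · simp [z]
      · rw [pt, if_neg fun y => k ((hc e z).symm.trans y), zero_mul, mul_zero]

theorem Wn.hy (h : Wn wt x s g f) (hg : 0 ≤ g) (hs : 0 ≤ s) (h0 : ∀ b, 0 ≤ wt b)
    (hW : ∀ b, wt b ≤ W) (e : ∑ b, |x b| = 1) {y : κ → ℝ} {Δ r L θ : ℝ} (hr : |Δ - s| ≤ r)
    (hL : ∀ b, |y b| ≤ L) (hθ : |∑ b, x b * (Real.exp (-(wt b * Δ)) * y b)| ≤ θ) :
    |∑ b, pt wt x f b * y b| ≤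
      Fintype.card κ * (Real.exp (W * s + W * r) * θ + Real.exp (W * r - g) * L) := by
  classical
  have lo := h.low hg hs hW e
  have hf : x f ≠ 0 := fun z => by simp [z] at lo; linarith
  have A0 : 0 < |x f| * Real.exp (-(wt f * Δ)) := mul_pos (abs_pos.2 hf) (Real.exp_pos _)
  have ab : ∀ p : ℝ, |p| ≤ W → p * (Δ - s) ≤ W * r := fun p hp => (le_abs_self _).trans
    ((abs_mul _ _).trans_le (mul_le_mul hp hr (abs_nonneg _) ((abs_nonneg _).trans hp)))
  have h1 : θ ≤ |x f| * Real.exp (-(wt f * Δ)) *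
      (Fintype.card κ * (Real.exp (W * s + W * r) * θ)) := by
    have θ0 := (abs_nonneg _).trans hθ
    have k : Real.exp (W * s) * Real.exp (-(wt f * s)) ≤
        Real.exp (-(wt f * Δ)) * Real.exp (W * s + W * r) := by
      rw [← Real.exp_add, ← Real.exp_add]
      exact ex_le (by linarith [ab (wt f) (abs_le.2 ⟨by linarith [h0 f, hW f], hW f⟩)])
    have := mul_le_mul_of_nonneg_left k (show 0 ≤ Fintype.card κ * |x f| * θ by positivity)
    nlinarith
  have h2 : x f * Real.exp (-(wt f * Δ)) * ∑ b, pt wt x f b * y b =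
      ∑ b, x b * (Real.exp (-(wt b * Δ)) * y b) -
        ∑ b, if wt b = wt f then 0 else x b * (Real.exp (-(wt b * Δ)) * y b) := by
    rw [mul_sum, ← sum_sub_distrib]
    refine sum_congr rfl fun b _ => ?_
    unfold pt
    split_ifs with z
    · rw [z]
      field_simp
      ring
    · ring
  have h3 : |∑ b, if wt b = wt f then 0 else x b * (Real.exp (-(wt b * Δ)) * y b)| ≤
      |x f| * Real.exp (-(wt f * Δ)) * (Fintype.card κ * (Real.exp (W * r - g) * L)) := by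
    rw [mul_left_comm, ← nsmul_eq_mul]
    refine (abs_sum_le_sum_abs _ _).trans (sum_le_card_nsmul _ _ _ fun b _ => ?_)
    have L0 := (abs_nonneg _).trans (hL b)
    split_ifs with z
    · rw [abs_zero]
      positivity
    · have k := mul_le_mul_of_nonneg_right (h b) (Real.exp_pos (-(wt b * (Δ - s)))).le
      rw [if_neg z] at k
      simp only [mul_assoc, ← Real.exp_add] at k
      rw [← mul_assoc, abs_mul, abs_mul, abs_of_pos (Real.exp_pos _), ← mul_assoc,
        mul_assoc |x f|, ← Real.exp_add]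
      refine mul_le_mul ((le_of_eq ?_).trans (k.trans (mul_le_mul_of_nonneg_left (ex_le ?_)
        (abs_nonneg _)))) (hL b) (abs_nonneg _) (by positivity)
      · congr 2
        ring
      · linarith [ab (wt f - wt b) (abs_le.2 ⟨by linarith [h0 f, hW b], by linarith [h0 b, hW f]⟩)]
  have h4 := congrArg abs h2
  rw [abs_mul, abs_mul, abs_of_pos (Real.exp_pos _)] at h4
  refine le_of_mul_le_mul_left (h4.trans_le ((abs_sub _ _).trans ?_)) A0
  linarith

end One

theorem ex_q {x : ℝ} (h : 0 < x) : ∃ q : ℚ≥0, 0 < q ∧ (q : ℝ) ≤ x := by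
  obtain ⟨n, e⟩ := exists_nat_one_div_lt h
  exact ⟨1 / (n + 1), by positivity, by push_cast; exact e.le⟩

theorem ex_pt {Ω : Type} (P : FP Ω) : ∃ ω, ω ∈ P.S :=
  (ex_of_pb (P := P) (E := fun _ => True) (by rw [pb_true]; exact one_pos)).imp fun _ a => a.1

theorem num {K L M M' γ u v w : ℝ} (K0 : 0 ≤ K) (L1 : 1 ≤ L) (a : M' ≤ M) (g0 : 0 ≤ γ)
    (b : 2 * K * L ≤ Real.exp (γ / 4 * M)) (c : u + w ≤ -(γ / 2 * M)) (d : v ≤ -(γ / 2 * M)) :
    K * (Real.exp u * Real.exp w + Real.exp v * L) ≤ Real.exp (-(γ / 4 * M')) := by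
  have h1 := ex_le c
  have h2 := mul_le_mul_of_nonneg_right (ex_le d) (zero_le_one.trans L1)
  have h3 := mul_le_mul_of_nonneg_right b (Real.exp_pos (-(γ / 2 * M))).le
  have h4 := le_mul_of_one_le_right (Real.exp_pos (-(γ / 2 * M))).le L1
  rw [← Real.exp_add] at h3 ⊢
  refine (mul_le_mul_of_nonneg_left (add_le_add (h1.trans h4) h2) K0).trans
    (le_trans (le_of_eq (by ring)) (h3.trans (ex_le (by nlinarith))))

theorem n3WIN : OfWIN := fun hR m κ _ Ω Λ σ S X hX k l r => by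
  classical
  have : Nonempty κ := by
    by_contra c
    rw [not_nonempty_iff] at c
    obtain ⟨n, a⟩ := r.fm.exists
    obtain ⟨ω, b⟩ := ex_pt (X n).P
    simpa using (a ω b).2
  have w0 := fun b => (hX.wp b).le
  obtain ⟨W, W1, hW⟩ : ∃ W : ℝ, 1 ≤ W ∧ ∀ b, σ.wt b ≤ W := ⟨∑ b, σ.wt b + 1,
    le_add_of_nonneg_left (sum_nonneg fun b _ => w0 b),
    fun b => (single_le_sum (fun b _ => w0 b) (mem_univ b)).trans (lt_add_one _).le⟩
  obtain ⟨ρ, ρ0, ρ1, hρ⟩ : ∃ ρ : ℝ, 0 < ρ ∧ ρ ≤ 1 ∧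
      ∀ b b', σ.wt b ≠ σ.wt b' → ρ ≤ |σ.wt b - σ.wt b'| := by
    obtain ⟨p, hp⟩ := Finite.exists_min fun p : κ × κ =>
      if σ.wt p.1 = σ.wt p.2 then 1 else |σ.wt p.1 - σ.wt p.2|
    refine ⟨_, ?_, by simpa using hp (p.1, p.1), fun b b' e => (hp (b, b')).trans_eq (if_neg e)⟩
    split_ifs with e
    exacts [one_pos, abs_pos.2 (sub_ne_zero.2 e)]
  obtain ⟨δ, δ0, hδ⟩ := ex_q (x := 1 / (8 * W * (Fintype.card (κ × κ) + 1))) (by positivity)
  have δ1 : (0 : ℝ) < δ := by exact_mod_cast δ0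
  obtain ⟨e, e0, he⟩ := ex_q (x := ρ * δ / (4 * W)) (by positivity)
  have e1 : (0 : ℝ) < e := by exact_mod_cast e0
  rw [le_div_iff₀ (by positivity)] at hδ he
  choose ι hι using fun n ω => ex_wn σ.wt (l n ω) (t := δ * (X n).M) (by positivity) hρ
  obtain ⟨⟨i, f⟩, p, p0, hp⟩ :=
    KSA.pig (sP X) (fun _ _ => True) ι ⟨1, one_pos, .of_forall fun n => (pb_true _).ge⟩
  obtain ⟨G, g1, g2, -, hL, -⟩ := hR m κ Ω Λ σ S X _ hX fun c hc =>
    ((G39.dl_lt hX.big p0 hc).and hp).mono fun n a => a.1.le.trans a.2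
  have c0 : (0 : ℝ) ≤ Fintype.card (κ × κ) := Nat.cast_nonneg _
  have i0 : (0 : ℝ) ≤ (i : ℕ) := Nat.cast_nonneg _
  have i1 : ((i : ℕ) : ℝ) ≤ Fintype.card (κ × κ) + 1 := by exact_mod_cast i.2.le
  have i2 : W * (i * δ) ≤ 1 / 8 := by nlinarith [mul_le_mul_of_nonneg_left i1 (mul_pos δ1 (one_pos.trans_le W1)).le]
  have δ2 : (δ : ℝ) ≤ 1 / 8 := by nlinarith [mul_nonneg δ1.le (mul_nonneg (zero_le_one.trans W1) c0)]
  have γ0 : 0 < ρ * δ := mul_pos ρ0 δ1
  have γ1 : ρ * δ ≤ 1 / 8 := by nlinarith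
  have K1 : (1 : ℝ) ≤ 2 * Fintype.card κ := by
    have : (1 : ℝ) ≤ Fintype.card κ := by exact_mod_cast Fintype.card_pos
    linarith
  have fl : ∀ n, ((⌊(e : ℝ) * (X n).M⌋₊ : ℕ) : ℝ) ≤ (X n).M := fun n =>
    (Nat.floor_le (by positivity)).trans (mul_le_of_le_one_left (Nat.cast_nonneg _) (by nlinarith))
  have key : ∀ᶠ n in UF, ∀ ω ∈ (cE (X n).P (G n)).S,
      Wn σ.wt (l n ω) (i * (δ * (X n).M)) (ρ * (δ * (X n).M)) f ∧
      Fm (X n).c (S k) (dl (sM X) 1 n) (l n ω) ∧ ∑ b, |l n ω b| = 1 ∧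
      1 ≤ Fintype.card κ * Real.exp (W * (i * (δ * (X n).M))) * |l n ω f| := by
    filter_upwards [hp, g2, r.fm] with n a b c ω hω
    have h1 := (mem_cE (ex_of_pb (by linarith)) ω).1 hω
    have h2 := hι n ω
    rw [(g1 n ω h1.2).2] at h2
    refine ⟨h2, (c ω h1.1).1, (c ω h1.1).2, (h2.low (by positivity) (by positivity) hW
      (c ω h1.1).2).trans (mul_le_mul_of_nonneg_left (mul_le_of_le_one_right (abs_nonneg _)
        (Real.exp_le_one_iff.2 (neg_nonpos.2 (mul_nonneg (w0 f) (by positivity))))) (by positivity))⟩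
  have nz : ∀ {K y : ℝ}, 1 ≤ K * |y| → y ≠ 0 := fun a z => by simp [z] at a; linarith
  refine ⟨fun n => ((X n).chg (cE (X n).P (G n)) (X n).j).idx (i * δ) e, f, ρ * δ / 4,
    fun n ω => pt σ.wt (l n ω) f, (idx_all _ e0 hL).1, by positivity, ?_, ?_, ?_,
    fun c hc => key.mono fun n a ω hω b => ((a ω hω).1.pt_le b).trans
      (Real.one_le_exp (by positivity)), fun a a1 => ?_⟩
  · obtain ⟨n, a⟩ := key.exists
    obtain ⟨ω, b⟩ := ex_pt (cE (X n).P (G n))
    exact by_contra fun z => nz (a ω b).2.2.2 ((a ω b).2.1.1 f z)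
  · have h1 : FnE (sP X) l (sO X true (i * δ + e * 0)) := by
      have := r.fn.trans (hX.nest k 0 (i * δ + e * 0) zero_le)
      cases k
      exacts [this.trans (hX.com _), this]
    exact (h1.cE G).mono fun n a u hu v hv z => congrArg (pt σ.wt · f) (a u hu v hv z)
  · filter_upwards [key, hX.fr, (hX.big.sub K1).2 _ (show 0 < ρ * δ / 4 by positivity)]
      with n a b c ω hω
    obtain ⟨-, h2, -, h4⟩ := a ω hω
    have m0 : (0 : ℝ) ≤ (X n).M := Nat.cast_nonneg _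
    refine ⟨⟨fun y hy => by simp [pt, h2.1 y hy], fun y hy z hz => ?_⟩, by simp [pt, nz h4],
      fun y hy => if_neg hy⟩
    have h5 := (pt_br (nz h4) ((gr_of b).hc y z)).trans (h2.2 y hy z hz)
    refine (le_mul_of_one_le_left (abs_nonneg _) h4).trans (((mul_assoc _ _ _).trans_le
      (mul_le_mul_of_nonneg_left h5 (by positivity))).trans (le_trans ?_
      (num (u := W * (i * (δ * (X n).M))) (w := -(1 * (X n).M)) (v := -(ρ * δ / 2 * (X n).M))
        (Nat.cast_nonneg _) le_rfl (fl n) γ0.le (by rwa [mul_one]) (by nlinarith) le_rfl)))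
    rw [mul_assoc]
    exact mul_le_mul_of_nonneg_left (le_add_of_nonneg_right (by positivity)) (Nat.cast_nonneg _)
  · obtain ⟨L, hL', h⟩ := atom_co hX.big hX.fr hX.lo (hX.inc k (i * δ + e * a))
    have a2 : (a : ℝ) ≤ 1 := by exact_mod_cast a1
    have a0 : (0 : ℝ) ≤ a := by positivity
    filter_upwards [key, h 0, r.hy, hX.nest k 0 (i * δ + e * a) zero_le,
      (hX.lv (i * δ + e * a)).1 e e1, (hX.lv (i * δ + e * a)).2 e e1,
      (hL'.const_mul hX.big K1).2 _ (show 0 < ρ * δ / 4 by positivity)]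
      with n b c d y z z' w ω v x
    have x1 : At (X n) k (i * δ + e * a) ω v := ⟨cE_sub x.1, cE_sub x.2.1, x.2.2⟩
    have m0 : (0 : ℝ) ≤ (X n).M := Nat.cast_nonneg _
    have m1 := mul_nonneg e1.le m0
    push_cast at z z'
    refine ((b ω x.1).1.hy (Δ := (X n).lv (i * δ + e * a) - (X n).lv 0) (r := 2 * e * (X n).M)
      (θ := Real.exp (-(1 / 2 * (X n).M))) (by positivity) (by positivity) w0 hW (b ω x.1).2.2.1
      (abs_le.2 ⟨by nlinarith, by nlinarith⟩) (c ω v x1).2.2.1 (le_trans (le_of_eq ?_)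
        (d ω v ⟨x1.1, x1.2.1, y ω x1.1 v x1.2.1 x1.2.2⟩))).trans
      (num (Nat.cast_nonneg _) (hL'.1 n) (fl n) γ0.le w (by nlinarith) (by nlinarith))
    refine congrArg _ (sum_congr rfl fun t _ => ?_)
    rw [N6.co, N6.co, ← mul_assoc (Real.exp _), ← Real.exp_add]
    congr 3
    ring

end Pool.Agent.MP_5168f5_an.AN.N3
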