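import Pool.Agent.MP_5168f5_an.AN.LCSpec

/-! Kakeya sets in all dimensions: transfer and restriction for the light class. -/

namespace Pool.Agent.MP_5168f5_an.AN.LC

open H19 H17S H17F R4 Filter
open G39 (dl)
open S20 (pb_cv_cE mem_cv)

theorem lcTr : OfTr := by
  intro hA hB hP m κ _ Ω Λ σ S X P j h e hi hd
  refine ⟨h.toL0.chg e, fun k a c hc T => ?_, fun ι a c hc T => ?_⟩
  · filter_upwards [hi k a c hc T, e] with n x y ω hω v hv using x ω (y ω hω).1 v (y v hv).1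
  · obtain ⟨C, hC, s⟩ := (Nat.lt_or_ge 3 ι.1).elim (hB m κ σ ι) (hA m κ σ ι)
    have c0 : 0 < c / C := by positivity
    filter_upwards [e, h.big.ev (C / c), (hP m κ Ω Λ σ S X h).1 (kd ι) a _ c0,
      hd (kd ι) a _ c0 (C * (c / C + |T|)), h.geo ι a _ c0 (|T| + c)] with n x y z d g ω hω
    have e1 : C * (c / C * (X n).M) = c * (X n).M := by field_simp
    have m0 : (0 : ℝ) ≤ (X n).M := Nat.cast_nonneg _
    refine mo_ps σ ι _ _ _ _ _ _ e1.le (mul_le_mul_of_nonneg_right (le_abs_self T) m0)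
      (s _ _ _ _ _ _ _ ?_ (by positivity) (z ω (x ω hω).1) ?_ ?_)
    · rwa [div_le_iff₀' hc, ← one_le_div (by positivity), ← div_mul_eq_mul_div] at y
    · have := d ω hω
      rwa [mul_assoc, add_mul] at this
    · have := g ω (x ω hω).1
      rwa [add_mul, ← e1] at this

/-- Conditioning on an event that is not rare in the atom. -/
theorem pb_res {Ω Λ : Type} {P : FP Ω} {G : Ω → Prop} {A : Ω → Λ} {ω : Ω} {u : ℝ}
    (h : ω ∈ P.S) (g : G ω) (e : Real.exp (-u) ≤ pb (cv P A (A ω)) G) (F : Ω → Prop) :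
    pb (cv (cE P G) A (A ω)) F ≤ Real.exp u * pb (cv P A (A ω)) F := by
  rw [← inv_mul_le_iff₀ (Real.exp_pos u), ← Real.exp_neg]
  exact (mul_le_mul_of_nonneg_right e (pb_nonneg _ _)).trans
    ((pb_cv_cE h g A F).trans_le (pb_mono fun _ _ k => k.2))

theorem lcRes : OfRes := by
  intro hT hR m κ _ Ω Λ σ S X G hX hG
  have h := lu_iff.1 hX
  obtain ⟨G', g1, g2, g3⟩ := hT Ω Λ (sP X) (sM X) (sO X) G h.big hG
  have s : ∀ᶠ n in UF, ∀ ω ∈ (cE (X n).P (G' n)).S, ω ∈ (X n).P.S ∧ G' n ω := by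
    filter_upwards [g2, hG 1 one_pos] with n a b ω
    exact (mem_cE (ex_of_pb (by linarith [G39.dl_pos (sM X) 1 n])) ω).1
  refine ⟨G', g1, g2, g3, lu_iff.2 (hR m κ Ω Λ σ S X _ _ h ?_ h.inc fun k a c hc T => ?_),
    fun L₀ g => ac_iff.2 fun k a c hc T => ?_⟩
  · filter_upwards [s, h.fr] with n a b ω hω using ⟨(a ω hω).1, b.2.2 ω (a ω hω).1⟩
  · filter_upwards [s, g3 k a c hc] with n x y ω hω F
    exact (pb_res (x ω hω).1 (x ω hω).2 (y ω (x ω hω).1 (x ω hω).2) _).trans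
      (mul_le_mul_of_nonneg_left (pb_mono fun v _ f => ⟨_, f, by
        simpa [Dt.ps] using (Real.exp_pos _).le⟩) (Real.exp_pos _).le)
  · filter_upwards [s, g3 k a _ (half_pos hc), ac_iff.1 g k a _ (half_pos hc) T]
      with n x y z ω hω t ht l c₀ l1 l2 l3
    refine (pb_res (x ω hω).1 (x ω hω).2 (y ω (x ω hω).1 (x ω hω).2) _).trans
      ((mul_le_mul_of_nonneg_left (z ω (x ω hω).1 t ht l c₀ l1 l2 l3) (Real.exp_pos _).le).trans ?_)
    rw [← Real.exp_add]
    exact ex_le (by linarith)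

end Pool.Agent.MP_5168f5_an.AN.LC
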