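import Pool.Agent.MP_5168f5_an.AN.LCSpec

/-! Kakeya sets in all dimensions: freezing a context in the light class. -/

namespace Pool.Agent.MP_5168f5_an.AN.LC

open H19 H17S H17F R4 Filter
open G39 (dl)
open S20 (dn mem_cv)

theorem ex_rep {Ω Λ : Type} (P : FP Ω) (A : Ω → Λ) :
    ∃ r : Λ → Ω, ∀ v ∈ P.S, r (A v) ∈ P.S ∧ A (r (A v)) = A v := by
  obtain ⟨a, -, -⟩ := ex_of_pb (P := P) (E := fun _ => True) (by rw [pb_true]; exact one_pos)
  have : Nonempty Ω := ⟨a⟩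
  exact ⟨fun z => Classical.epsilon fun v => v ∈ P.S ∧ A v = z, fun v hv =>
    Classical.epsilon_spec (p := fun u => u ∈ P.S ∧ A u = A v) ⟨v, hv, rfl⟩⟩

theorem lcFrz : OfFrz := by
  classical
  intro hF hP hR m κ _ Ω Λ β σ S X be G hX hG h1 h2
  have h := lu_iff.1 hX
  obtain ⟨f, hf⟩ := exists_surjective_nat (Bool × ℚ≥0)
  let G₁ : ℕ → ∀ n, Ω n → Prop := fun k n ω => G n ω ∧
    dl (sM X) (1 / (k + 1)) n ≤ dn (X n).P (be n) (sO X true 0 n) ω ∧ dl (sM X) (1 / (k + 1)) n *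
      dn (X n).P (be n) (sO X false k n) ω ≤ dn (X n).P (be n) (sO X false 0 n) ω
  obtain ⟨k, hk, e⟩ := KSA.spill (fun k n =>
      (X n).IncU σ (S false) false k (1 * (X n).M) (0 * (X n).M) ∧
      ((k : ℚ≥0) : ℝ) * (X n).M ≤ (X n).lv k - (X n).lv 0 + 1 * (X n).M ∧
      pb (X n).P (fun ω => ¬G₁ k n ω) ≤ 1 / 2 ∧
      (∀ i ∈ Finset.range (k + 1), Fn (X n).P ((X n).O (f i).1 0) ((X n).O (f i).1 (f i).2) ∧
        ((f i).2 ≤ k → Fn (X n).P ((X n).O false (f i).2) ((X n).O false k))) ∧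
      4 * (k + 2 : ℝ) * (k + 1) ≤ (X n).M) fun k => (h.inc false k 1 one_pos 0).and
    (((h.lv k).2 1 one_pos).and (((hG.and ((h1 _ (by positivity)).and (h2 k _ (by positivity)))) _
      one_half_pos).and (((eventually_all_finset _).2 fun i _ => (h.nest _ _ _ zero_le).and
        (eventually_imp_distrib_left.2 (h.nest false _ _))).and (h.big.ev _))))
  replace e := e.mono fun n a => a _ le_rfl
  choose r hr using fun n => ex_rep (X n).P ((X n).O false (k n))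
  let j : ∀ n, Ω n → GA.Mt (Fin m) := fun n v => (X n).j (r n ((X n).O false (k n) v))
  let I : ℕ → Finset ℕ := fun n => (Finset.range (k n + 1)).filter fun i => (f i).2 ≤ k n
  have cl : Cls σ X (sP X) j := fun T => by
    filter_upwards [e, eventually_all.2 fun a => hk.ev ((T + 1) / σ.wt a + 1)] with n a b ω hω
    obtain ⟨t, t1, t2⟩ := a.1 ω hω _ (hr n ω hω).1 (hr n ω hω).2.symm
    refine ⟨t, fun i => (t1 i).trans ?_, t2⟩
    have b1 := b i
    have a2 := a.2.1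
    rw [← le_sub_iff_add_le, div_le_iff₀ (h.wp i)] at b1
    have : rd σ.wt (S false) ((X n).lv (k n)) (Real.exp (-(0 * (X n).M))) i =
        Real.exp (-(σ.wt i * (X n).lv (k n))) := by simp [rd]
    rw [this, dl, ← Real.exp_add, ← Real.exp_add]
    push_cast at a2
    have := mul_le_mul_of_nonneg_left a2 (h.wp i).le
    have := mul_le_mul_of_nonneg_right b1 (Nat.cast_nonneg (α := ℝ) (X n).M)
    exact ex_le (by simp only [sM]; linarith)
  obtain ⟨p1, p2, p3⟩ := (hP m κ Ω Λ σ S X h).2 j cl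
  have key : ∀ᶠ n in UF, ∃ z : β n × (Ω n → Prop), (∃ ω ∈ (X n).P.S, z.2 ω) ∧
      (∀ ω, z.2 ω → G₁ (k n) n ω ∧ be n ω = z.1) ∧ ∀ i ∈ I n, ∀ ω ∈ (X n).P.S, z.2 ω →
      ∀ F : Ω n → Prop, Fn (X n).P F ((X n).O false (k n)) →
        pb (cv (cE (X n).P z.2) ((X n).O (f i).1 (f i).2) ((X n).O (f i).1 (f i).2 ω)) F ≤
          4 * ((I n).card + 1) * Real.exp (1 / (k n + 1) * (X n).M) *
            pb ((X n).fb (f i).1 (f i).2 ω) F := e.mono fun n a => by
    obtain ⟨b, G', c⟩ := hF (Ω n) ℕ (Λ n) (β n) (X n).P (I n) (fun i => (f i).1)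
      (fun i => (X n).O (f i).1 (f i).2) ((X n).O true 0) ((X n).O false 0) ((X n).O false (k n))
      (be n) (G₁ (k n) n) (Real.exp (1 / (k n + 1) * (X n).M)) (Real.one_le_exp (by positivity))
      (by linarith [a.2.2.1, pb_not (X n).P (G₁ (k n) n)]) (fun ω _ g => by
        rw [← inv_mul_le_iff₀ (Real.exp_pos _), ← inv_mul_le_iff₀ (Real.exp_pos _),
          ← Real.exp_neg, mul_one]
        exact g.2) fun i hi => by
        obtain ⟨i1, i2⟩ := Finset.mem_filter.1 hi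
        have := a.2.2.2.1 i i1
        exact ⟨fun c => c ▸ this.1, fun c => ⟨c ▸ this.1, c ▸ this.2 i2⟩⟩
    exact ⟨(b, G'), c⟩
  have : ∀ n, Nonempty (β n × (Ω n → Prop)) := fun n =>
    ⟨(be n (r n ((X n).O false 0 (ex_of_pb (P := (X n).P) (E := fun _ => True)
      (by rw [pb_true]; exact one_pos)).choose)), fun _ => True)⟩
  obtain ⟨z, hz⟩ := Filter.skolem.1 key
  have s : ∀ᶠ n in UF, ∀ ω ∈ (cE (X n).P (z n).2).S, ω ∈ (X n).P.S ∧ (z n).2 ω :=
    hz.mono fun n a ω => (mem_cE a.1 ω).1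
  refine ⟨fun n => cE (X n).P (z n).2, j, fun n => (z n).1, ?_,
    fun T => (cl T).mono fun n a ω hω => a ω (cE_sub hω),
    lu_iff.2 (hR m κ Ω Λ σ S X _ _ h ?_ p2 fun b a c hc T => ?_)⟩
  · filter_upwards [s, hz] with n a b ω hω
    exact ⟨(a ω hω).1, (b.2.1 ω (a ω hω).2).1.1, (b.2.1 ω (a ω hω).2).2⟩
  · filter_upwards [p1] with n a ω hω using ⟨cE_sub hω, a ω (cE_sub hω)⟩
  · obtain ⟨i, hi⟩ := hf (b, a)
    filter_upwards [s, hz, e, p3 b a T, hk.ev i, hk.ev a, K31.small (half_pos hc) hk]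
      with n x y q d k1 k2 k3 ω hω F
    have := y.2.2 i (Finset.mem_filter.2 ⟨Finset.mem_range.2 (Nat.lt_succ_of_le
      (by exact_mod_cast k1)), by rw [hi]; exact_mod_cast k2⟩) ω (x ω hω).1 (x ω hω).2
      (fun v => F (((X n).chg (X n).P (j n)).ps σ a ω v)) fun u _ v _ c => by
        simp only [Dt.ps, j, c]
    rw [hi] at this
    refine this.trans (mul_le_mul ?_ (pb_mono fun v hv g => ⟨_, g, d ω (x ω hω).1 v hv⟩)
      (pb_nonneg _ _) (Real.exp_pos _).le)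
    have c1 : ((I n).card : ℝ) ≤ k n + 1 := by
      exact_mod_cast (Finset.card_filter_le _ _).trans (Finset.card_range _).le
    have c2 : 4 * (k n + 2 : ℝ) ≤ 1 / (k n + 1) * (X n).M := by
      rw [one_div, le_inv_mul_iff₀' (by positivity)]
      exact q.2.2.2.2
    have c3 := Real.add_one_le_exp (1 / (k n + 1) * (X n).M)
    have c4 := mul_le_mul_of_nonneg_right k3 (Nat.cast_nonneg (α := ℝ) (X n).M)
    have c5 : 4 * ((I n).card + 1 : ℝ) ≤ Real.exp (1 / (k n + 1) * (X n).M) := by linarith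
    refine (mul_le_mul_of_nonneg_right c5 (Real.exp_pos _).le).trans ?_
    rw [← Real.exp_add]
    exact ex_le (by simp only [sM]; linarith)

end Pool.Agent.MP_5168f5_an.AN.LC
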