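import Pool.Agent.MP_5168f5_an.AN.LCSpec

/-! Kakeya sets in all dimensions: freezing on one space. -/

namespace Pool.Agent.MP_5168f5_an.AN.LC

open H19 H17S H17F
open G39 (ind ind_pos ind_neg ind_le ind_nn pb_ind)
open S20

namespace LCFrzFA

variable {Ω Λ β : Type} {P : FP Ω} {π A C₀ C₁ : Ω → Λ} {be : Ω → β} {G F : Ω → Prop} {γ : ℝ}
  {ω : Ω}

theorem bud {u : Ω → ℝ} {θ : ℝ} (A : Ω → Λ) (E : Ω → Prop)
    (h : ∀ ω ∈ P.S, u ω ≤ θ * pb (cv P A (A ω)) E) : P.E u ≤ θ * pb P E := by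
  rw [pb_tot P A fun _ => E, ← P.E_mul]
  exact P.E_mono h

theorem dom (hω : ω ∈ P.S) (h0 : 0 ≤ γ) (f0 : Fn P C₀ π) (f1 : Fn P π C₁) (fF : Fn P F C₁)
    (h : ∀ v ∈ P.S, G v → be v = be ω ∧ dn P be C₁ v ≤ γ * dn P be C₀ v) :
    pb (cv P π (π ω)) (fun v => G v ∧ F v) ≤ γ * dn P be C₀ ω * pb (cv P π (π ω)) F := by
  rw [pb_tot _ C₁ fun _ v => G v ∧ F v, pb_ind _ F, ← FP.E_mul]
  refine FP.E_mono _ fun b hb => ?_
  obtain ⟨b1, b2⟩ := (mem_cv hω b).1 hb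
  have : cv (cv P π (π ω)) C₁ (C₁ b) = cv P C₁ (C₁ b) := by
    unfold cv
    rw [cE_cE (E := fun v => π v = π ω) (E' := fun v => C₁ v = C₁ b) ⟨b, b1, b2, rfl⟩]
    exact cE_congr fun v hv => ⟨fun k => k.2, fun k => ⟨(f1 v hv b b1 k).trans b2, k⟩⟩
  rw [this]
  by_cases c : ∃ v ∈ (cv P C₁ (C₁ b)).S, G v ∧ F v
  · obtain ⟨v, hv, g, f⟩ := c
    obtain ⟨v1, v2⟩ := (mem_cv b1 v).1 hv
    obtain ⟨e1, e2⟩ := h v v1 g
    rw [ind_pos (fF v v1 b b1 v2 ▸ f), mul_one,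
      ← dn_rel (f0 v v1 ω hω ((f1 v v1 b b1 v2).trans b2)) e1, ← v2]
    exact (pb_mono fun w hw k => (h w (cE_sub hw) k.1).1.trans e1.symm).trans e2
  · exact (pb_zero fun v hv k => c ⟨v, hv, k⟩).trans_le
      (mul_nonneg (mul_nonneg h0 (dn_pos hω _ _).le) (ind_nn _))

end LCFrzFA

open LCFrzFA in
theorem lcFrzF : OfFrzF := by
  intro tr Ω ι Λ β P I k π A₀ C₀ C₁ be G γ hγ hG hd hf
  obtain ⟨a, ha, hm⟩ := P.S.exists_max_image (fun a => pb (cv P be (be a)) G)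
    ((ex_of_pb (lt_of_lt_of_le (by norm_num) hG)).imp fun _ h => h.1)
  have h1 := hG.trans (pb_tot_le be hm)
  have h2 := pb_cv P be (be a) G
  have p0 := pb_val ha be
  obtain ⟨θ, hθ⟩ : ∃ θ : ℝ, θ = 1 / (4 * (I.card + 1)) := ⟨_, rfl⟩
  have t0 : 0 < θ := by rw [hθ]; positivity
  have t1 : θ * (4 * (I.card + 1)) = 1 := by rw [hθ]; field_simp
  have g0 : 0 < γ := by linarith
  obtain ⟨G', s1, s2, s3⟩ := tr Ω ι Λ P I π
    (fun i ω => if k i = true then θ / γ else θ * pb (cv P C₀ (C₀ ω)) fun v => be v = be a)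
    (fun v => be v = be a ∧ G v) (θ * pb P fun v => be v = be a) fun i hi => by
      obtain ⟨f1, f2⟩ := hf i hi
      cases e : k i
      · simp only [Bool.false_eq_true, if_false]
        refine ⟨fun ω _ => mul_nonneg t0.le (pb_nonneg _ _), fun u hu v hv c => ?_,
          bud C₀ _ fun ω _ => mul_le_of_le_one_left (mul_nonneg t0.le (pb_nonneg _ _)) (ind_le _)⟩
        simp only [(f2 e).1 u hu v hv c]
      · simp only [if_true]
        refine ⟨fun ω _ => by positivity, fun _ _ _ _ _ => rfl, bud A₀ _ fun ω hω => ?_⟩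
        by_cases c : ∃ v ∈ P.S, (be v = be a ∧ G v) ∧ π i v = π i ω
        · rw [ind_pos c, one_mul, div_le_iff₀ g0, mul_assoc, mul_comm _ γ]
          obtain ⟨v, hv, ⟨c1, c2⟩, c3⟩ := c
          rw [← f1 e v hv ω hω c3, ← c1]
          exact le_mul_of_one_le_right t0.le (hd v hv c2).1
        · rw [ind_neg c, zero_mul]
          exact mul_nonneg t0.le (pb_nonneg _ _)
  refine ⟨be a, G', ex_of_pb (lt_of_lt_of_le ?_ s2), fun ω h => (s1 ω h).symm,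
    fun i hi ω hω g F hF => ?_⟩
  · have := mul_le_mul_of_nonneg_left h1 p0.le
    have := mul_pos t0 p0
    have : (I.card : ℝ) * θ ≤ 1 / 4 := by linarith
    nlinarith
  have h3 := pb_cv_cE hω g (π i) F
  have h4 := mul_le_mul_of_nonneg_right (s3 i hi ω hω g)
    (pb_nonneg (cv (cE P G') (π i) (π i ω)) F)
  rw [h3] at h4
  refine le_of_mul_le_mul_left ?_ t0
  rw [← mul_assoc, ← mul_assoc, t1, one_mul]
  cases e : k i
  · simp only [e, Bool.false_eq_true, if_false, ← (s1 ω g).1] at h4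
    have h5 := h4.trans (dom hω g0.le ((hf i hi).2 e).1 ((hf i hi).2 e).2 hF fun v hv c =>
      ⟨(s1 v c).1.trans (s1 ω g).1.symm, (hd v hv (s1 v c).2).2⟩)
    refine le_of_mul_le_mul_left ?_ (dn_pos hω be C₀)
    unfold dn at h5 ⊢
    linarith
  · simp only [e, if_true] at h4
    rw [div_mul_eq_mul_div, div_le_iff₀ g0, mul_comm _ γ] at h4
    exact h4.trans (mul_le_mul_of_nonneg_left (pb_mono fun _ _ c => c.2) g0.le)

end Pool.Agent.MP_5168f5_an.AN.LC
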