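import Pool.Agent.MP_5168f5_an.AN.LCSpec

/-! Kakeya sets in all dimensions: from a grid of depths and good sets to all depths. -/

namespace Pool.Agent.MP_5168f5_an.AN.LC

open H19 H17S H17F R4 Filter MvPolynomial
open Pk (cn)
open Nc (Pl ev)

namespace LCGridA

variable {Ω : Type} {Q : FP Ω} {G G' F F' : Ω → Prop} {u h Γ a b : ℝ}

theorem ex (hp : Real.exp (-u) ≤ pb Q G') : ∃ ω ∈ Q.S, G' ω := by
  by_contra c
  rw [pb_zero fun v x y => c ⟨v, x, y⟩] at hp
  exact absurd (Real.exp_pos _) (not_lt.2 hp)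

theorem lo (hp : Real.exp (-u) ≤ pb Q G') (hG : ∀ v ∈ Q.S, G' v → G v)
    (hF : ∀ v, F v → F' v) :
    Real.exp (-u) * pb (cE Q G') F ≤ pb Q fun v => G v ∧ F' v :=
  (mul_le_mul_of_nonneg_right hp (pb_nonneg _ _)).trans
    ((pb_cE Q G' F).le.trans (pb_mono fun v x y => ⟨hG v x y.1, hF v y.2⟩))

theorem up (hp : Real.exp (-u) ≤ pb Q G') (hG : ∀ v ∈ Q.S, G' v → G v)
    (hF : ∀ v, F v → F' v) (hΓ : Γ ≤ Real.exp u)
    (hb : (pb Q fun v => G v ∧ F' v) ≤ Γ * Real.exp a) (e : 2 * u + a ≤ b) :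
    pb (cE Q G') F ≤ Real.exp b := by
  have := (lo hp hG hF).trans (hb.trans (mul_le_mul_of_nonneg_right hΓ (Real.exp_pos _).le))
  refine le_of_mul_le_mul_left (this.trans ?_) (Real.exp_pos (-u))
  rw [← Real.exp_add, ← Real.exp_add]
  exact ex_le (by linarith)

theorem gm (hΓ : Γ ≤ Real.exp u) (e : u + a ≤ b) : Γ * Real.exp a ≤ Real.exp b :=
  (mul_le_mul_of_nonneg_right hΓ (Real.exp_pos _).le).trans
    (by rw [← Real.exp_add]; exact ex_le e)

theorem fl (hu : 0 < u) (hh : 0 ≤ h) : ∃ j : ℕ, j * u ≤ h ∧ h ≤ j * u + u := by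
  refine ⟨⌊h / u⌋₊, (le_div_iff₀ hu).1 (Nat.floor_le (div_nonneg hh hu.le)), ?_⟩
  have := (div_lt_iff₀ hu).1 (Nat.lt_floor_add_one (h / u))
  linarith

theorem one (P : FP Ω) (F : Ω → Prop) (e : 0 ≤ b) : pb P F ≤ Real.exp b :=
  (pb_le_one P F).trans (Real.one_le_exp e)

end LCGridA

open LCGridA in
theorem lcGrid : SGrid := by
  intro m κ σ ι
  obtain ⟨_ | _ | _ | _ | n, k, E, i⟩ := ι
  · refine ⟨1, le_rfl, fun Ω Q y G' u w hu hw hp H => ?_⟩
    obtain ⟨j, j1, j2⟩ := fl hu (add_nonneg hw hu.le)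
    obtain ⟨G, Γ, hG, -, -, τ, t1, t2⟩ := H j (by linarith)
    refine ⟨τ, t1, fun v hv => ?_⟩
    have := (mem_cE (ex hp) v).1 hv
    exact (t2 v this.1 (hG v this.1 this.2)).imp fun t e p => (e p).trans (ex_le (by linarith))
  · refine ⟨3, by norm_num, fun Ω Q y G' u w hu hw hp H h hh q => ?_⟩
    rcases le_total h 0 with z | z
    · exact one _ _ (by linarith)
    obtain ⟨j, j1, j2⟩ := fl hu z
    obtain ⟨G, Γ, hG, -, hΓ, t⟩ := H j (by linarith)
    exact up hp hG (fun v e => e.trans (ex_le (by linarith))) hΓ (t q) (by linarith)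
  · refine ⟨1 + 2 * |(σ.d : ℝ) + 1 - σ.cc|, by linarith [abs_nonneg ((σ.d : ℝ) + 1 - σ.cc)],
      fun Ω Q y G' u w hu hw hp H h z hh => ?_⟩
    obtain ⟨j, j1, j2⟩ := fl hu (by linarith : 0 ≤ h + 2 * u)
    obtain ⟨G, Γ, hG, -, hΓ, T, t1, t2⟩ := H j (by linarith)
    refine ⟨T, t1.trans (gm hΓ ?_), fun v hv => ?_⟩
    · have := mul_le_mul (le_abs_self ((σ.d : ℝ) + 1 - σ.cc)) (by linarith : j * u - h ≤ 2 * u)
        (by linarith) (abs_nonneg _)
      linarith
    · have := (mem_cE (ex hp) v).1 hv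
      exact (t2 v this.1 (hG v this.1 this.2)).imp fun q e => ⟨e.1, e.2.trans (gm hΓ (by linarith))⟩
  · refine ⟨3, by norm_num, fun Ω Q y G' u w hu hw hp H h hh s hs => ?_⟩
    rcases le_total h 0 with z | z
    · exact one _ _ (by linarith)
    obtain ⟨j, j1, j2⟩ := fl hu z
    obtain ⟨G, Γ, hG, -, hΓ, t⟩ := H j (by linarith)
    exact up hp hG (fun v e => e.imp fun q e => e.trans (ex_le (neg_le_neg
      (mul_le_mul_of_nonneg_left j1 (by positivity))))) hΓ (t s hs) (by linarith)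
  · obtain ⟨A, hA⟩ : ∃ A : ℝ, A = |k - 1 / (i + 1 : ℝ)| := ⟨_, rfl⟩
    have a0 : 0 ≤ A := hA ▸ abs_nonneg _
    refine ⟨3 + A, by linarith, fun Ω Q y G' u w hu hw hp H hk h hh W hW hH T hT => ?_⟩
    have g1 : (1 : ℝ) ≤ σ.mg k E i + 1 := le_add_of_nonneg_left (Nat.cast_nonneg _)
    have au := mul_nonneg a0 hu.le
    rcases le_total h 0 with z | z
    · exact one _ _ (by linarith [div_nonpos_of_nonpos_of_nonneg z (zero_le_one.trans g1)])
    obtain ⟨j, j1, j2⟩ := fl hu z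
    obtain ⟨G, Γ, hG, g0, hΓ, t⟩ := H j (by linarith)
    have d : h / (σ.mg k E i + 1) - j * u / (σ.mg k E i + 1) ≤ u := by
      rw [← sub_div]
      exact (div_le_self (by linarith) g1).trans (by linarith)
    refine up hp hG (fun v e => e.imp fun q e => ⟨e.1, (mul_le_mul_of_nonneg_left e.2
      (zero_le_one.trans g0)).trans (gm hΓ (by linarith))⟩) hΓ
      (t hk W hW (fun K c c' => ?_) T ?_) (by linarith)
    · refine le_trans ?_ (lo hp hG fun v (e : Real.exp ((3 + A) * u - h / (σ.mg k E i + 1)) ≤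
        |eval (ev W (y v)) K|) => (gm hΓ (by linarith)).trans e)
      refine le_trans ?_ (mul_le_mul_of_nonneg_left (hH K c c') (Real.exp_pos _).le)
      rw [← Real.exp_add]
      exact gm hΓ (by linarith)
    · refine (mul_le_mul_of_nonneg_left hT (zero_le_one.trans g0)).trans (gm hΓ ?_)
      have := mul_le_mul ((le_abs_self _).trans hA.ge) (by linarith : h - j * u ≤ u)
        (by linarith) a0
      linarith

end Pool.Agent.MP_5168f5_an.AN.LC
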