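import Pool.Agent.MP_5168f5_an.AN.LCSpec
import Pool.Agent.MP_5168f5_an.AN.GAAll

/-! Kakeya sets in all dimensions: perturbation of increments. -/

namespace Pool.Agent.MP_5168f5_an.AN.LC

open H19 H17S H17F R4 Filter
open GA (Mt Nr IsFr vec Idl cm sNr)

namespace LCIn2A

variable {m : ℕ} {κ : Type} [Fintype κ] {σ : St m κ} {B : κ → Mt (Fin m)} {c : κ → κ → κ → ℝ}

theorem vec_ap (t : κ → ℝ) (p q : Fin m) : vec B t p q = ∑ e, t e * B e p q := by
  simp [vec, Matrix.sum_apply]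

/-- The constants of a homogeneous frame are graded. -/
theorem gr (h : IsFr σ.Φ B c) (hH : Hom σ B) {a b e : κ} (k : σ.wt e ≠ σ.wt a + σ.wt b) :
    c a b e = 0 := by
  classical
  have z : ∀ a b p q, σ.la p ≠ σ.la q + (σ.wt a + σ.wt b) → (B a * B b) p q = 0 :=
    fun a b p q d => Matrix.mul_apply.trans <| Finset.sum_eq_zero fun r _ => by
      by_contra x
      exact d (by linarith [hH a p r (left_ne_zero_of_mul x), hH b r q (right_ne_zero_of_mul x)])
  have := h.inj (fun e => if σ.wt e = σ.wt a + σ.wt b then 0 else c a b e) (by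
    ext p q
    rw [vec_ap, Matrix.zero_apply]
    by_cases d : σ.la p = σ.la q + (σ.wt a + σ.wt b)
    · refine Finset.sum_eq_zero fun e _ => ?_
      split_ifs with f
      · exact zero_mul _
      · exact mul_eq_zero_of_right _ (by_contra fun x => f (by linarith [hH e p q x]))
    · have y : vec B (c a b) p q = 0 := by
        rw [← h.br, cm, Matrix.sub_apply, z a b p q d, z b a p q (by rwa [add_comm (σ.wt b)]),
          sub_zero]
      rw [← y, vec_ap]
      refine Finset.sum_congr rfl fun e _ => ?_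
      split_ifs with f
      · rw [show B e p q = 0 from by_contra fun x => d (by linarith [hH e p q x]), mul_zero,
          mul_zero]
      · rfl)
  simpa [k] using congrFun this e

theorem sz {L : ℝ} (h : IsFr σ.Φ B c) (hB : ∀ a p q, |B a p q| ≤ L)
    (hi : ∀ t a, |t a| ≤ L * ∑ p, ∑ q, |vec B t p q|) (hL : 1 ≤ L) (a b e : κ) :
    |c a b e| ≤ (2 * m ^ 3 + 1 : ℕ) * L ^ 3 := by
  have l0 : 0 ≤ L := by linarith
  have s : ∀ (f : Fin m → ℝ) (C : ℝ), (∀ p, f p ≤ C) → ∑ p, f p ≤ m * C := fun f C k => by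
    simpa using Finset.sum_le_card_nsmul Finset.univ f C fun p _ => k p
  have z : ∀ a b p q, |(B a * B b) p q| ≤ m * (L * L) := fun a b p q =>
    (Finset.abs_sum_le_sum_abs _ _).trans (s _ _ fun r => by
      rw [abs_mul]; exact mul_le_mul (hB _ _ _) (hB _ _ _) (abs_nonneg _) l0)
  refine (hi _ e).trans ((mul_le_mul_of_nonneg_left (s _ _ fun p =>
    s _ (m * (L * L) + m * (L * L)) fun q => ?_) l0).trans ?_)
  · rw [← h.br]
    exact (abs_sub _ _).trans (add_le_add (z a b p q) (z b a p q))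
  · push_cast
    linarith [pow_nonneg l0 3]

theorem idl {S : Finset κ} {s τ L : ℝ} (h : IsFr σ.Φ B c) (hH : Hom σ B)
    (hc : ∀ a b e, |c a b e| ≤ L) (hL : 1 ≤ L) (h0 : 0 ≤ τ) (h1 : τ ≤ 1)
    (hS : ∀ a ∈ S, ∀ b ∈ S, ∀ e, e ∉ S → |c a b e| ≤ τ) :
    Idl c (rd σ.wt S s τ) (rd σ.wt S s τ) L := fun a b e => by
  by_cases k : σ.wt e = σ.wt a + σ.wt b
  swap
  · rw [gr h hH k, abs_zero, zero_mul, zero_mul]
    exact mul_nonneg (by linarith) (Dt.rd_nonneg _ _ _ h0 _)
  have x := hc a b e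
  have y := abs_nonneg (c a b e)
  have t := mul_le_mul_of_nonneg_right x h0
  have u := mul_le_of_le_one_right (mul_nonneg y h0) h1
  have v := mul_le_of_le_one_right y h1
  unfold rd
  rw [k, add_mul, neg_add, Real.exp_add, mul_left_comm L, mul_assoc, mul_mul_mul_comm,
    mul_left_comm]
  refine mul_le_mul_of_nonneg_left ?_ (by positivity)
  split_ifs with ha hb he he hb he he
  all_goals try nlinarith
  linarith [hS a ha b hb e he, le_mul_of_one_le_left h0 hL]

theorem mono {r : κ → ℝ} {L L' : ℝ} {x y : Mt (Fin m)} (h : Nr B r L x y) (hr : ∀ a, 0 ≤ r a)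
    (e : L ≤ L') : Nr B r L' x y :=
  h.imp fun _ k => ⟨fun a => (k.1 a).trans (mul_le_mul_of_nonneg_right e (hr a)), k.2⟩

end LCIn2A

open LCIn2A in
theorem lcIn2 : SIn2 := by
  intro m κ _ σ
  obtain ⟨K, hK, h⟩ := sNr σ.Φ.N (Fintype.card κ)
  obtain ⟨C, hC, e⟩ : ∃ C : ℕ, 1 ≤ C ∧ C = 2 * m ^ 3 + 1 := ⟨_, by omega, rfl⟩
  have p : 1 ≤ K * C := Nat.mul_pos hK hC
  refine ⟨K * C * (3 * K + 1), Nat.mul_pos p (by omega),
    fun S B c s τ L x y x' y' hB hH eB hi hL h0 h1 hS a b d => ?_⟩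
  have hr := Dt.rd_nonneg σ.wt S s h0
  have k1 : (1 : ℝ) ≤ K := by exact_mod_cast hK
  have c1 : (1 : ℝ) ≤ C := by exact_mod_cast hC
  have l1 : L ≤ C * L ^ 3 :=
    (le_self_pow₀ hL three_ne_zero).trans (le_mul_of_one_le_left (by positivity) c1)
  have l2 : C * L ^ 3 ≤ (K * (C * L ^ 3)) ^ K :=
    (le_mul_of_one_le_left (by positivity) k1).trans
      (le_self_pow₀ (one_le_mul_of_one_le_of_one_le k1 (hL.trans l1)) (by omega))
  have f := fun (L' : ℝ) (u : C * L ^ 3 ≤ L') (x y z : Mt (Fin m)) =>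
    have i := idl (s := s) hB hH (fun a b k => (e ▸ sz hB eB hi hL a b k).trans u)
      (hL.trans (l1.trans u)) h0 h1 hS
    h _ κ σ.Φ B c _ _ L' 0 x y z rfl le_rfl hB (hL.trans (l1.trans u)) le_rfl
      (fun a => ⟨hr a, hr a⟩) i i
  refine mono ((f _ l2 x' y y').2.1 ((f _ le_rfl x' x y).2.1 ((f _ le_rfl x x' y).1 (mono b hr l1))
    (mono a hr l1)) (mono d hr (l1.trans l2))) hr ?_
  have q : (1 : ℝ) ≤ K * C := one_le_mul_of_one_le_of_one_le k1 c1
  have q1 : (1 : ℝ) ≤ K * C * L := one_le_mul_of_one_le_of_one_le q hL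
  have q2 : K * C * L ≤ (K * C * (3 * K + 1) : ℕ) * L := by
    push_cast
    exact mul_le_mul_of_nonneg_right (le_mul_of_one_le_right (by positivity) (by linarith))
      (by positivity)
  calc (K * (K * (C * L ^ 3)) ^ K : ℝ) ^ K ≤ (K * C * L * ((K * C * L) ^ 3) ^ K) ^ K := by
        gcongr
        · rw [mul_assoc]
          exact le_mul_of_one_le_right (by positivity) (one_le_mul_of_one_le_of_one_le c1 hL)
        · rw [mul_pow, ← mul_assoc]
          exact mul_le_mul_of_nonneg_right (le_self_pow₀ q three_ne_zero) (by positivity)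
    _ = (K * C * L) ^ (K * (3 * K + 1)) := by ring
    _ ≤ _ := (pow_le_pow_left₀ (by positivity) q2 _).trans (pow_le_pow_right₀ (q1.trans q2)
        (Nat.mul_le_mul_right _ (Nat.le_mul_of_pos_right _ hC)))

end Pool.Agent.MP_5168f5_an.AN.LC
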