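import Pool.Agent.MP_5168f5_an.AN.N2Defs

/-! The linear model: algebra. -/

namespace Pool.Agent.MP_5168f5_an.AN.N2

open MvPolynomial Finset IsNilpotent
open Nc (Pl)
open C1 (Dg)
open GA (Mt)

variable {N m D : ℕ} {la : Fin m → ℝ} {u v : Mt (Fin m)}

/-! ### Unipotent matrices -/

theorem rk_lt {p q : Fin m} : rk la q < rk la p ↔ la q < la p := by
  refine ⟨fun h => not_le.1 fun k => not_le.2 h (card_le_card fun r hr => ?_),
    fun h => card_lt_card ⟨fun r hr => ?_, fun k => ?_⟩⟩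
  · simpa using (by simpa using hr : la r < la p).trans_le k
  · simpa using (by simpa using hr : la r < la q).trans h
  · simpa using k (show q ∈ univ.filter fun r => la r < la p by simpa using h)

theorem mem_F0 : u ∈ (tri la).F 0 ↔ ∀ p q, ¬la q < la p → u p q = 0 := by
  change (∀ p q, ¬rk la q + 0 < rk la p → u p q = 0) ↔ _
  simp only [add_zero, rk_lt]

theorem uni_iff : Uni la u ↔ u - 1 ∈ (tri la).F 0 := by
  simp only [mem_F0, Uni, Matrix.sub_apply, sub_eq_zero]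

theorem uni_one : Uni la 1 := fun _ _ _ => rfl

theorem Uni.mul (h : Uni la u) (h' : Uni la v) : Uni la (u * v) :=
  uni_iff.2 ((tri la).mul_sub_one' (uni_iff.1 h) (uni_iff.1 h'))

theorem Uni.ex (h : Uni la u) : ∃ w, Uni la w ∧ u * w = 1 := by
  obtain ⟨Z, hZ, rfl⟩ := (tri la).exp_surj (uni_iff.1 h)
  exact ⟨exp (-Z), uni_iff.2 ((tri la).exp_sub_one (neg_mem hZ)),
    exp_mul_exp_neg_self ((tri la).nil hZ)⟩

theorem Uni.det (h : Uni la u) : IsUnit u.det :=
  h.ex.elim fun _ k => Matrix.isUnit_det_of_right_inverse k.2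

theorem Uni.inv (h : Uni la u) : Uni la u⁻¹ :=
  h.ex.elim fun _ k => (Matrix.inv_eq_right_inv k.2).symm ▸ k.1

theorem vec_eB (t : El la → ℝ) (a : El la) : GA.vec (eB la) t a.1.1 a.1.2 = t a := by
  rw [GA.vec, Matrix.sum_apply, sum_eq_single a (fun b _ h => ?_) (by simp)]
  · simp [eB]
  · rw [Matrix.smul_apply, eB, Matrix.single_apply_of_ne, smul_zero]
    exact fun k => h (Subtype.ext (Prod.ext k.1 k.2))

theorem vec_mem (t : El la → ℝ) : GA.vec (eB la) t ∈ (tri la).F 0 := mem_F0.2 fun p q h => by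
  rw [GA.vec, Matrix.sum_apply]
  refine sum_eq_zero fun b _ => ?_
  rw [Matrix.smul_apply, eB, Matrix.single_apply_of_ne, smul_zero]
  exact fun k => h (k.1 ▸ k.2 ▸ b.2)

theorem vec_of (h : u ∈ (tri la).F 0) : GA.vec (eB la) (fun a => u a.1.1 a.1.2) = u := by
  ext p q
  by_cases e : la q < la p
  · exact vec_eB _ ⟨(p, q), e⟩
  · rw [mem_F0.1 h p q e, mem_F0.1 (vec_mem _) p q e]

theorem eB_mem (a : El la) : eB la a ∈ (tri la).F 0 := mem_F0.2 fun p q h => by
  rw [eB, Matrix.single_apply_of_ne]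
  exact fun k => h (k.1 ▸ k.2 ▸ a.2)

/-- The elementary matrices are a frame. -/
theorem isFr (la : Fin m → ℝ) : GA.IsFr (tri la) (eB la) (eC la) :=
  ⟨vec_mem, fun t h => funext fun a => by rw [← vec_eB t a, h]; rfl, fun a b =>
    (vec_of (sub_mem ((tri la).anti 0 ((tri la).mul_l 0 _ _ (eB_mem a) (eB_mem b)))
      ((tri la).anti 0 ((tri la).mul_l 0 _ _ (eB_mem b) (eB_mem a))))).symm⟩

/-- Graded bound of the entries. -/
def Bd (ρ : Fin m → ℝ) (c : ℝ) (u : Mt (Fin m)) : Prop := ∀ p q, |u p q| ≤ c * (ρ p / ρ q)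

section Bd

variable {ρ : Fin m → ℝ} {c c' : ℝ}

theorem Bd.mono (h : Bd ρ c u) (h0 : ∀ p, 0 < ρ p) (e : c ≤ c') : Bd ρ c' u := fun p q =>
  (h p q).trans (mul_le_mul_of_nonneg_right e (div_pos (h0 p) (h0 q)).le)

theorem Bd.add (h : Bd ρ c u) (h' : Bd ρ c' v) : Bd ρ (c + c') (u + v) := fun p q =>
  (abs_add_le _ _).trans ((add_le_add (h p q) (h' p q)).trans_eq (add_mul _ _ _).symm)

theorem Bd.sub (h : Bd ρ c u) (h' : Bd ρ c' v) : Bd ρ (c + c') (u - v) := fun p q =>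
  (abs_sub _ _).trans ((add_le_add (h p q) (h' p q)).trans_eq (add_mul _ _ _).symm)

theorem Bd.mul (h : Bd ρ c u) (h' : Bd ρ c' v) (h0 : ∀ p, 0 < ρ p) :
    Bd ρ (m * c * c') (u * v) := fun p q => by
  rw [Matrix.mul_apply]
  refine (abs_sum_le_sum_abs _ _).trans ((sum_le_card_nsmul _ _ (c * c' * (ρ p / ρ q))
    fun r _ => ?_).trans_eq (by simp [mul_assoc]))
  rw [abs_mul]
  refine (mul_le_mul (h p r) (h' r q) (abs_nonneg _) ((abs_nonneg _).trans (h p r))).trans_eq ?_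
  have := (h0 r).ne'
  field_simp

theorem bd_one (h0 : ∀ p, 0 < ρ p) : Bd ρ 1 (1 : Mt (Fin m)) := fun p q => by
  by_cases e : p = q
  · subst e; simp [(h0 p).ne']
  · rw [Matrix.one_apply_ne e, abs_zero, one_mul]; exact (div_pos (h0 p) (h0 q)).le

theorem Bd.pow (h : Bd ρ c u) (h0 : ∀ p, 0 < ρ p) (i : ℕ) : Bd ρ ((m * c) ^ i) (u ^ i) := by
  induction i with
  | zero => simpa using bd_one h0
  | succ i ih => simpa only [pow_succ', mul_assoc] using h.mul ih h0

theorem Bd.exp (h : Bd ρ c u) (h0 : ∀ p, 0 < ρ p) (hc : 1 ≤ c) (hu : u ∈ (tri la).F 0) :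
    Bd ρ ((m + 1 : ℕ) * ((m + 1) * c) ^ m) (exp u) := fun p q => by
  rw [exp_eq_sum ((tri la).pow_zero' hu), Matrix.sum_apply]
  refine (abs_sum_le_sum_abs _ _).trans ((sum_le_card_nsmul _ _
    (((m + 1) * c) ^ m * (ρ p / ρ q)) fun i hi => ?_).trans_eq (by simp [tri, mul_assoc]))
  have m0 : (0 : ℝ) ≤ m := Nat.cast_nonneg _
  have h1 : (m * c) ^ i ≤ ((m + 1) * c) ^ m :=
    (pow_le_pow_left₀ (by positivity) (by nlinarith) i).trans
      (pow_le_pow_right₀ (by nlinarith) (Nat.lt_succ_iff.1 (mem_range.1 hi)))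
  have h2 : |((i.factorial : ℚ)⁻¹ : ℚ) • (u ^ i) p q| ≤ |(u ^ i) p q| := by
    rw [Rat.smul_def, abs_mul]
    refine mul_le_of_le_one_left (abs_nonneg _) ?_
    rw [Rat.cast_inv, abs_inv, Rat.cast_natCast, Nat.abs_cast]
    exact inv_le_one_of_one_le₀ (by exact_mod_cast i.factorial_pos)
  exact h2.trans (((h.pow h0 i).mono h0 h1) p q)

end Bd

theorem exLog : ExLog := fun m => by
  have key : ∀ n, ∃ (C : ℝ) (e : ℕ), 1 ≤ C ∧ ∀ (la ρ : Fin m → ℝ) (v : Mt (Fin m)) (L : ℝ),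
      1 ≤ L → (∀ p, 0 < ρ p) → Uni la v → Bd ρ L v →
      ∃ Z ∈ (tri la).F 0, Bd ρ (C * L ^ e) Z ∧ v - exp Z ∈ (tri la).F n := fun n => by
    induction n with
    | zero => exact ⟨1, 0, le_rfl, fun la ρ v L _ h0 hv _ => ⟨0, zero_mem _, fun p q => by
        simpa using (div_pos (h0 p) (h0 q)).le, by simpa using uni_iff.1 hv⟩⟩
    | succ n ih =>
      obtain ⟨C, e, hC, ih⟩ := ih
      have m0 : (0 : ℝ) ≤ m := Nat.cast_nonneg _
      refine ⟨C + (1 + (m + 1 : ℕ) * ((m + 1) * C) ^ m), e + 1 + e * m,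
        le_add_of_le_of_nonneg hC (by positivity), fun la ρ v L hL h0 hv hb => ?_⟩
      obtain ⟨Z, z0, zb, zn⟩ := ih la ρ v L hL h0 hv hb
      have pw : ∀ i ≤ e + 1 + e * m, L ^ i ≤ L ^ (e + 1 + e * m) := fun i =>
        pow_le_pow_right₀ hL
      refine ⟨Z + (v - exp Z), add_mem z0 ((tri la).le0 n zn), (zb.add (hb.sub (zb.exp h0
        (one_le_mul_of_one_le_of_one_le hC (one_le_pow₀ hL)) z0))).mono h0 ?_, ?_⟩
      · rw [add_mul C, add_mul 1, ← mul_assoc _ C, mul_pow _ (L ^ e), ← pow_mul, ← mul_assoc]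
        have := pw 1 (by omega)
        rw [pow_one] at this
        refine add_le_add (mul_le_mul_of_nonneg_left (pw _ (by omega)) (by linarith))
          (add_le_add (by linarith) (mul_le_mul_of_nonneg_left (pw _ (by omega)) (by positivity)))
      · have := neg_mem ((tri la).exp_add_sub z0 zn)
        rwa [show -(exp (Z + (v - exp Z)) - exp Z - (v - exp Z)) = v - exp (Z + (v - exp Z)) by
          abel] at this
  obtain ⟨C, e, hC, h⟩ := key m
  refine ⟨C, e, hC, fun la ρ r j L hL h0 hr hj hb => ?_⟩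
  obtain ⟨Z, z0, zb, zn⟩ := h la ρ _ L hL h0 (hr.inv.mul hj) hb
  refine ⟨fun a => Z a.1.1 a.1.2, fun a => zb _ _, ?_⟩
  rw [GA.ex, vec_of z0, ← sub_eq_zero.1 ((tri la).bot _ zn),
    Matrix.mul_nonsing_inv_cancel_left _ _ hr.det]

/-! ### Families -/

variable {e f : Fin m → Pl N} {ν : Pl N → ℝ} {l l' : Fin m → ℝ} {L L' A : ℝ}

theorem sum_act (c : Fin m → ℝ) (u : Mt (Fin m)) (f : Fin m → Pl N) :
    ∑ p, c p • act u f p = ∑ q, Matrix.vecMul c u q • f q := by
  simp only [act, smul_sum, smul_smul, Matrix.vecMul, dotProduct, sum_smul]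
  exact sum_comm

theorem act_mul (u v : Mt (Fin m)) (f : Fin m → Pl N) : act (u * v) f = act u (act v f) :=
  funext fun p => (sum_act (u p) v f).symm

theorem act_one (f : Fin m → Pl N) : act 1 f = f := funext fun p => by
  simp [act, Matrix.one_apply]

theorem deg_act (h : ∀ i, (f i).totalDegree ≤ D) (u : Mt (Fin m)) (p : Fin m) :
    (act u f p).totalDegree ≤ D :=
  totalDegree_finsetSum_le fun q _ => (totalDegree_smul_le _ _).trans (h q)

theorem Sp.act (h : Sp D f) (hu : IsUnit u.det) : Sp D (act u f) :=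
  ⟨deg_act h.1 u, fun F hF => (h.2 F hF).elim fun c k => ⟨Matrix.vecMul c u⁻¹, by
    rw [sum_act, Matrix.vecMul_vecMul, Matrix.nonsing_inv_mul _ hu, Matrix.vecMul_one, k]⟩⟩

theorem Sp.ex (h : Sp D f) (h' : ∀ i, (e i).totalDegree ≤ D) : ∃ g, e = N2.act g f := by
  choose c hc using fun i => h.2 _ (h' i)
  exact ⟨Matrix.of c, funext hc⟩

theorem Sp.smul (h : Sp D f) (h0 : ∀ p, 0 < l p) : Sp D fun p => (l p)⁻¹ • f p :=
  ⟨fun p => (totalDegree_smul_le _ _).trans (h.1 p), fun F hF => (h.2 F hF).elim fun c k =>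
    ⟨fun p => c p * l p, k.trans (sum_congr rfl fun p _ => by
      rw [smul_smul, mul_inv_cancel_right₀ (h0 p).ne'])⟩⟩

theorem act_min (h : Uni la u) {o : Fin m} (ho : ∀ q, ¬la q < la o) (f : Fin m → Pl N) :
    act u f o = f o := by
  rw [← congrFun (act_one f) o]
  exact sum_congr rfl fun q _ => by rw [h o q (ho q)]

/-- A seminorm. -/
structure Sn (ν : Pl N → ℝ) : Prop where
  add : ∀ F G, ν (F + G) ≤ ν F + ν G
  smul : ∀ (c : ℝ) F, ν (c • F) = |c| * ν F

theorem Sn.zero (s : Sn ν) : ν 0 = 0 := by simpa using s.smul 0 0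

theorem Sn.neg (s : Sn ν) (F : Pl N) : ν (-F) = ν F := by simpa using s.smul (-1) F

theorem Sn.nn (s : Sn ν) (F : Pl N) : 0 ≤ ν F := by
  have := s.add F (-F)
  rw [add_neg_cancel, s.zero, s.neg] at this
  linarith

theorem Sn.sub (s : Sn ν) (F G : Pl N) : ν (F - G) ≤ ν F + ν G := by
  rw [sub_eq_add_neg, ← s.neg G]; exact s.add _ _

theorem Sn.sum (s : Sn ν) (c : Fin m → ℝ) (f : Fin m → Pl N) {b : ℝ}
    (h : ∀ p, |c p| * ν (f p) ≤ b) : ν (∑ p, c p • f p) ≤ m * b := by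
  refine (le_sum_of_subadditive ν s.zero.le s.add _ _).trans ((sum_le_card_nsmul _ _ b
    fun p _ => (s.smul _ _).trans_le (h p)).trans_eq (by simp))

theorem dg_mono (s : Sn ν) (h : Dg ν e l L) (h0 : ∀ p, 0 < l p) (k : L ≤ L') : Dg ν e l L' :=
  ⟨fun i => (h.1 i).trans (mul_le_mul_of_nonneg_right k (h0 i).le),
    fun c i => (h.2 c i).trans (mul_le_mul_of_nonneg_right k (s.nn _))⟩

theorem dg_ent (h : Dg ν e l L) (h' : Dg ν (act u e) l' L') (hL : 0 ≤ L) (p q : Fin m) :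
    |u p q| * l q ≤ L * L' * l' p :=
  (h.2 (u p) q).trans ((mul_le_mul_of_nonneg_left (h'.1 p) hL).trans_eq (mul_assoc _ _ _).symm)

theorem dg_scale (s : Sn ν) (h : Dg ν e l L) (h0 : ∀ p, 0 < l p) :
    Dg ν (fun p => (l p)⁻¹ • e p) (fun _ => 1) L := by
  refine ⟨fun p => ?_, fun c p => ?_⟩
  · rw [s.smul, abs_of_pos (inv_pos.2 (h0 p)), inv_mul_le_iff₀ (h0 p), mul_one, mul_comm]
    exact h.1 p
  · have := h.2 (fun q => c q * (l q)⁻¹) p
    rw [abs_mul, abs_of_pos (inv_pos.2 (h0 p)), inv_mul_cancel_right₀ (h0 p).ne'] at this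
    simpa only [smul_smul, mul_one] using this

theorem dg_pert (s : Sn ν) (h : Dg ν e l L) (hL : 1 ≤ L) (h0 : ∀ p, 0 < l p)
    (k : ∀ p, 2 * (m + 1) * L * ν (e p - f p) ≤ l p) : Dg ν f l (2 * L) := by
  have m0 : (0 : ℝ) ≤ m := Nat.cast_nonneg _
  refine ⟨fun p => ?_, fun c p => ?_⟩
  · have h1 := s.sub (e p) (e p - f p)
    rw [sub_sub_cancel] at h1
    have h2 : 1 * ν (e p - f p) ≤ 2 * (m + 1) * L * ν (e p - f p) :=
      mul_le_mul_of_nonneg_right (by nlinarith) (s.nn _)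
    nlinarith [h.1 p, k p, h0 p]
  · obtain ⟨q, -, hq⟩ := exists_max_image univ (fun q => |c q| * l q) ⟨p, mem_univ p⟩
    have h1 := s.sum c (fun p => e p - f p) (b := |c q| * l q / (2 * (m + 1) * L)) fun r => by
      rw [le_div_iff₀ (by positivity)]
      nlinarith [hq r (mem_univ r), mul_le_mul_of_nonneg_left (k r) (abs_nonneg (c r))]
    have h2 := s.add (∑ p, c p • f p) (∑ p, c p • (e p - f p))
    rw [← sum_add_distrib] at h2
    simp only [smul_sub, add_sub_cancel] at h1 h2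
    have h3 := h.2 c q
    have h4 : 0 ≤ |c q| * l q := mul_nonneg (abs_nonneg _) (h0 q).le
    have h5 : L * (m * (|c q| * l q / (2 * (m + 1) * L))) ≤ |c q| * l q / 2 := by
      rw [← mul_div_assoc, ← mul_div_assoc, div_le_div_iff₀ (by positivity) (by positivity)]
      nlinarith [mul_nonneg h4 (zero_le_one.trans hL)]
    nlinarith [hq p (mem_univ p), mul_le_mul_of_nonneg_left (h2.trans (add_le_add le_rfl h1))
      (zero_le_one.trans hL)]

theorem dg_act (s : Sn ν) (h : Dg ν e l L) (hL : 0 ≤ L) (hA : 0 ≤ A) (k : u * v = 1)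
    (hu : ∀ p q, |u p q| * l q ≤ A * l p) (hv : ∀ p q, |v p q| * l q ≤ A * l p) :
    Dg ν (act u e) l (m * A * L) := by
  refine ⟨fun p => (s.sum _ _ (b := A * L * l p) fun q => ?_).trans_eq (by ring), fun c p => ?_⟩
  · nlinarith [mul_le_mul_of_nonneg_left (h.1 q) (abs_nonneg (u p q)),
      mul_le_mul_of_nonneg_left (hu p q) hL]
  · have e1 : c p = ∑ q, Matrix.vecMul c u q * v q p := by
      change _ = Matrix.vecMul (Matrix.vecMul c u) v p
      rw [Matrix.vecMul_vecMul, k, Matrix.vecMul_one]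
    by_cases l0 : 0 ≤ l p
    · rw [sum_act, e1]
      refine (mul_le_mul_of_nonneg_right (abs_sum_le_sum_abs _ _) l0).trans ?_
      rw [sum_mul]
      refine (sum_le_card_nsmul _ _ (A * L * ν (∑ q, Matrix.vecMul c u q • e q))
        fun q _ => ?_).trans_eq (by simp [mul_assoc])
      rw [abs_mul]
      nlinarith [mul_le_mul_of_nonneg_left (hv q p) (abs_nonneg (Matrix.vecMul c u q)),
        mul_le_mul_of_nonneg_left (h.2 (Matrix.vecMul c u) q) hA]
    · exact (mul_nonpos_of_nonneg_of_nonpos (abs_nonneg _) (not_le.1 l0).le).trans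
        (mul_nonneg (by positivity) (s.nn _))

theorem dg_unit (s : Sn ν) (h : Dg ν (act u e) l L) (h0 : ∀ p, 0 < l p) : IsUnit u.det := by
  rw [← Matrix.isUnit_iff_isUnit_det, ← Matrix.vecMul_injective_iff_isUnit]
  refine (injective_iff_map_eq_zero u.vecMulLinear).2 fun c k => funext fun p => ?_
  have h1 := h.2 c p
  rw [sum_act, show Matrix.vecMul c u = 0 from k] at h1
  simp only [Pi.zero_apply, zero_smul, sum_const_zero, s.zero, mul_zero] at h1
  exact abs_nonpos_iff.1 (nonpos_of_mul_nonpos_left h1 (h0 p))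

end Pool.Agent.MP_5168f5_an.AN.N2
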