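import Pool.Agent.MP_5168f5_an.AN.LCSpec
import Pool.Agent.MP_5168f5_an.AN.N2Alg
import Pool.Agent.MP_5168f5_an.AN.GAAll

/-! Kakeya sets in all dimensions: size and perturbation of positions. -/

namespace Pool.Agent.MP_5168f5_an.AN.LC

open H19 H17S H17F R4 Filter Finset IsNilpotent
open GA (Mt Nr IsFr vec ex Bx)
open N2 (Bd bd_one)

namespace LCPs2A

variable {m : ℕ} {κ : Type} [Fintype κ] {σ : St m κ} {B : κ → Mt (Fin m)} {ρ : Fin m → ℝ}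

theorem exp1 (Φ : H61Z.Filt (Mt (Fin m))) {u : Mt (Fin m)} {c η : ℝ} (h : Bd ρ (c * η) u)
    (h0 : ∀ p, 0 < ρ p) (hc : 1 ≤ c) (e0 : 0 ≤ η) (e1 : η ≤ 1) (hu : u ∈ Φ.F 0) :
    Bd ρ (Φ.N * ((m + 1) * c) ^ Φ.N * η) (exp u - 1) := fun p q => by
  rw [exp_eq_sum (Φ.pow_zero' hu), sum_range_succ', pow_zero, Nat.factorial_zero, Nat.cast_one,
    inv_one, one_smul, add_sub_cancel_right, Matrix.sum_apply]
  refine (abs_sum_le_sum_abs _ _).trans ((sum_le_card_nsmul _ _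
    (((m + 1) * c) ^ Φ.N * η * (ρ p / ρ q)) fun i hi => ?_).trans_eq (by simp [mul_assoc]))
  have m0 : (0 : ℝ) ≤ m := Nat.cast_nonneg _
  have h1 : (m * (c * η)) ^ (i + 1) ≤ ((m + 1) * c) ^ Φ.N * η := by
    rw [← mul_assoc, mul_pow]
    exact mul_le_mul ((pow_le_pow_left₀ (by positivity) (by nlinarith) _).trans
      (pow_le_pow_right₀ (by nlinarith) (mem_range.1 hi)))
      (pow_le_of_le_one e0 e1 i.succ_ne_zero) (by positivity) (by positivity)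
  have h2 : |(((i + 1).factorial : ℚ)⁻¹ : ℚ) • (u ^ (i + 1)) p q| ≤ |(u ^ (i + 1)) p q| := by
    rw [Rat.smul_def, abs_mul]
    refine mul_le_of_le_one_left (abs_nonneg _) ?_
    rw [Rat.cast_inv, abs_inv, Rat.cast_natCast, Nat.abs_cast]
    exact inv_le_one_of_one_le₀ (by exact_mod_cast (i + 1).factorial_pos)
  exact h2.trans (((h.pow h0 _).mono h0 h1) p q)

theorem bdv (hB : Hom σ B) {L η s : ℝ} (hL : ∀ a p q, |B a p q| ≤ L) (e0 : 0 ≤ η) (l0 : 0 ≤ L)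
    {t : κ → ℝ} (h : Bx (fun a => Real.exp (-(σ.wt a * s))) η t) :
    Bd (fun p => Real.exp (-(σ.la p * s))) (Fintype.card κ * L * η) (vec B t) := fun p q => by
  rw [vec, Matrix.sum_apply]
  refine (abs_sum_le_sum_abs _ _).trans ((sum_le_card_nsmul _ _ (L * η *
    (Real.exp (-(σ.la p * s)) / Real.exp (-(σ.la q * s)))) fun a _ => ?_).trans_eq
      (by simp [mul_assoc]))
  by_cases z : B a p q = 0
  · rw [Matrix.smul_apply, z, smul_zero, abs_zero]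
    positivity
  · rw [Matrix.smul_apply, smul_eq_mul, abs_mul, ← Real.exp_sub, hB a p q z,
      show -((σ.la q + σ.wt a) * s) - -(σ.la q * s) = -(σ.wt a * s) by ring, mul_assoc, mul_comm L]
    exact mul_le_mul (h a) (hL a p q) (abs_nonneg _) (by positivity)

omit [Fintype κ] in
theorem nv_le (ho : σ.la σ.o = 0) {s c : ℝ} {g : Mt (Fin m)}
    (h : Bd (fun p => Real.exp (-(σ.la p * s))) c g) (hc : 0 ≤ c) :
    ‖fun p => Real.exp (σ.la p * s) * g p σ.o‖ ≤ c :=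
  (pi_norm_le_iff_of_nonneg hc).2 fun p => by
    have := h p σ.o
    simp only [ho, zero_mul, neg_zero, Real.exp_zero, div_one, Real.exp_neg] at this
    rwa [Real.norm_eq_abs, abs_mul, abs_of_pos (Real.exp_pos _), ← le_div_iff₀' (Real.exp_pos _),
      div_eq_mul_inv]

end LCPs2A

open LCPs2A in
theorem lcPs2 : SPs := by
  intro m κ _ σ ho
  obtain ⟨A, hA⟩ : ∃ A : ℕ, A = (σ.Φ.N + 1) * ((m + 1) * (Fintype.card κ + 1)) ^ σ.Φ.N := ⟨_, rfl⟩
  have A1 : 1 ≤ A := hA ▸ Nat.succ_le_of_lt (by positivity)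
  refine ⟨2 * (m + 1) ^ 2 * A ^ 3 + 6 * σ.Φ.N, le_add_right (Nat.succ_le_of_lt (by positivity)),
    fun B c s L η x y x' y' fr hB hL l1 e0 e1 hx ⟨t, t1, t2⟩ => ?_⟩
  have mu := GA.sMul _ _ _ _ _ fr
  have h0 : ∀ p, 0 < Real.exp (-(σ.la p * s)) := fun p => Real.exp_pos _
  have k0 : (0 : ℝ) ≤ Fintype.card κ := Nat.cast_nonneg _
  have m0 : (0 : ℝ) ≤ m := Nat.cast_nonneg _
  have n0 : (0 : ℝ) ≤ σ.Φ.N := Nat.cast_nonneg _
  have a1 : (1 : ℝ) ≤ A := by exact_mod_cast A1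
  obtain ⟨Z, hZ⟩ : ∃ Z : ℝ, Z = ((m + 1) * ((Fintype.card κ + 1) * L ^ 2)) ^ σ.Φ.N := ⟨_, rfl⟩
  have c1 : 1 ≤ (Fintype.card κ + 1) * L ^ 2 := by nlinarith
  have z1 : 1 ≤ Z := hZ ▸ one_le_pow₀ (by nlinarith)
  have z2 : (σ.Φ.N + 1) * Z = A * L ^ (2 * σ.Φ.N) := by
    rw [hZ, hA]
    push_cast
    rw [← mul_assoc (m + 1 : ℝ), mul_pow _ (L ^ 2), pow_mul, mul_assoc]
  have key : ∀ {θ θ' : ℝ} {r : κ → ℝ}, 0 ≤ θ' → θ' ≤ 1 → 0 ≤ θ → θ ≤ L * θ' →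
      Bx (fun a => Real.exp (-(σ.wt a * s))) θ r →
      Bd (fun p => Real.exp (-(σ.la p * s))) (A * L ^ (2 * σ.Φ.N) * θ') (ex B r - 1) ∧
      Bd (fun p => Real.exp (-(σ.la p * s))) (A * L ^ (2 * σ.Φ.N)) (ex B r) :=
    fun {θ θ' r} a b d e f => by
      have q1 := mul_le_mul_of_nonneg_left e (mul_nonneg k0 (zero_le_one.trans l1))
      have q2 := mul_nonneg (sq_nonneg L) a
      have g := exp1 σ.Φ ((bdv hB hL d (by linarith) f).mono h0
        (c' := (Fintype.card κ + 1) * L ^ 2 * θ') (by nlinarith)) h0 c1 a b (fr.mem r)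
      rw [← hZ] at g
      refine ⟨g.mono h0 (by rw [← z2]; gcongr; linarith), ?_⟩
      have := (g.add (bd_one h0)).mono h0 (c' := A * L ^ (2 * σ.Φ.N)) (by
        rw [← z2]; nlinarith [mul_le_mul_of_nonneg_left b (mul_nonneg n0 (zero_le_one.trans z1))])
      rwa [sub_add_cancel] at this
  obtain ⟨Y, hY⟩ : ∃ Y : ℝ, Y = A * L ^ (2 * σ.Φ.N) := ⟨_, rfl⟩
  rw [← hY] at key
  have y1 : 1 ≤ Y := hY ▸ one_le_mul_of_one_le_of_one_le a1 (one_le_pow₀ l1)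
  have big : 2 * (m + 1) ^ 2 * Y ^ 3 ≤ (((2 * (m + 1) ^ 2 * A ^ 3 + 6 * σ.Φ.N : ℕ) : ℝ) * L) ^
      (2 * (m + 1) ^ 2 * A ^ 3 + 6 * σ.Φ.N) := by
    have p1 : 1 ≤ 2 * (m + 1) ^ 2 * A ^ 3 := Nat.succ_le_of_lt (by positivity)
    rw [mul_pow, hY, mul_pow, ← pow_mul, ← mul_assoc]
    refine mul_le_mul (le_trans ?_ (le_self_pow₀ (by exact_mod_cast le_add_right p1) (by omega)))
      (pow_le_pow_right₀ l1 (by omega)) (by positivity) (by positivity)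
    push_cast
    linarith
  have ix : x⁻¹ * x = 1 := Matrix.nonsing_inv_mul _ ((Matrix.isUnit_iff_isUnit_det _).1 hx)
  have g0 := (key zero_le_one le_rfl (by linarith) (by linarith) t1).2
  have e : x⁻¹ * y = ex B t := by rw [t2, ← mul_assoc, ix, one_mul]
  have y3 : Y ≤ Y ^ 2 ∧ Y ^ 2 ≤ Y ^ 3 :=
    ⟨le_self_pow₀ y1 two_ne_zero, pow_le_pow_right₀ y1 (by norm_num)⟩
  have y4 : Y ≤ 2 * (m + 1) ^ 2 * Y ^ 3 := (y3.1.trans y3.2).trans
    (le_mul_of_one_le_left (by positivity) (by nlinarith))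
  refine ⟨(nv_le ho (e ▸ g0) (by linarith)).trans (y4.trans big),
    fun ⟨r, r1, r2⟩ ⟨r', r3, r4⟩ => ?_⟩
  have g1 := (key e0 e1 e0 (by nlinarith) (r := -r) fun a => (abs_neg (r a)).trans_le (r1 a)).1
  have g2 := key e0 e1 e0 (by nlinarith) r3
  have e' : x'⁻¹ * y' - x⁻¹ * y = (ex B (-r) - 1) * ex B t * ex B r' + ex B t * (ex B r' - 1) := by
    rw [r2, r4, Matrix.mul_inv_rev, Matrix.inv_eq_left_inv (mu.neg r).1, mul_assoc, ← mul_assoc x⁻¹,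
      e]
    noncomm_ring
  have g3 := nv_le ho (e' ▸ ((g1.mul g0 h0).mul g2.2 h0).add (g0.mul g2.1 h0)) (by positivity)
  refine le_trans (le_of_eq (congrArg _ (funext fun p => by
    simp only [nv, Pi.sub_apply, Matrix.sub_apply, mul_sub]))) (g3.trans (le_trans ?_
      (mul_le_mul_of_nonneg_right big e0)))
  have := mul_le_mul_of_nonneg_left y3.2 m0
  have := mul_nonneg m0 (pow_nonneg (zero_le_one.trans y1) 3)
  have := mul_nonneg (sq_nonneg (m : ℝ)) (pow_nonneg (zero_le_one.trans y1) 3)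
  have := pow_nonneg (zero_le_one.trans y1) 3
  have f : m * (m * Y * Y) * Y + m * Y * Y ≤ 2 * (m + 1) ^ 2 * Y ^ 3 := by nlinarith
  nlinarith [mul_le_mul_of_nonneg_right f e0]

end Pool.Agent.MP_5168f5_an.AN.LC
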