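import Pool.Agent.MP_5168f5_an.AN.SpecP

/-! The coefficient norm: derivatives, substitution, values. -/

namespace Pool.Agent.MP_5168f5_an.AN.Pk

open MvPolynomial Finset

namespace PCnA

variable {σ : Type}

theorem deg_le {F : MvPolynomial σ ℝ} {E : ℕ} (h : F.totalDegree ≤ E) {α : σ →₀ ℕ}
    (hα : α ∈ F.support) : ∑ i ∈ α.support, α i ≤ E := (le_totalDegree hα).trans h

theorem abs_prod_le {K : ℝ} {x : σ → ℝ} (h : ∀ i, |x i| ≤ K) (S : Finset σ) (a : σ → ℕ) :
    |∏ i ∈ S, x i ^ a i| ≤ K ^ ∑ i ∈ S, a i := by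
  rw [abs_prod, ← prod_pow_eq_pow_sum]
  exact prod_le_prod (fun _ _ => abs_nonneg _) fun i _ => by
    rw [abs_pow]; exact pow_le_pow_left₀ (abs_nonneg _) (h i) _

theorem lip_prod {K ε : ℝ} {x y : σ → ℝ} (hK : 1 ≤ K) (hε : 0 ≤ ε)
    (h : ∀ i, |x i| ≤ K ∧ |y i| ≤ K ∧ |x i - y i| ≤ ε) (S : Finset σ) (a : σ → ℕ) :
    |∏ i ∈ S, x i ^ a i - ∏ i ∈ S, y i ^ a i| ≤
      (∑ i ∈ S, a i : ℕ) * K ^ (∑ i ∈ S, a i) * ε := by
  classical
  induction S using Finset.induction_on with
  | empty => simp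
  | insert i S hi ih =>
    have k0 : 0 ≤ K := by linarith
    rw [prod_insert hi, prod_insert hi, sum_insert hi]
    have h1 : |x i ^ a i - y i ^ a i| ≤ ε * a i * K ^ a i :=
      (abs_pow_sub_pow_le _ _ _).trans (mul_le_mul (by gcongr; exact (h i).2.2)
        ((pow_le_pow_left₀ (le_max_of_le_left (abs_nonneg _)) (max_le (h i).1 (h i).2.1) _).trans
          (pow_le_pow_right₀ hK (Nat.sub_le _ _))) (by positivity) (by positivity))
    have h2 : |x i ^ a i| ≤ K ^ a i := by
      rw [abs_pow]; exact pow_le_pow_left₀ (abs_nonneg _) (h i).1 _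
    have h3 := abs_prod_le (fun i => (h i).2.1) S a
    calc _ = |x i ^ a i * (∏ i ∈ S, x i ^ a i - ∏ i ∈ S, y i ^ a i) +
          (x i ^ a i - y i ^ a i) * ∏ i ∈ S, y i ^ a i| := by congr 1; ring
      _ ≤ K ^ a i * ((∑ i ∈ S, a i : ℕ) * K ^ (∑ i ∈ S, a i) * ε) +
          ε * a i * K ^ a i * K ^ ∑ i ∈ S, a i := by
          refine (abs_add_le _ _).trans ?_
          rw [abs_mul, abs_mul]
          gcongr
      _ = _ := by rw [Nat.cast_add, pow_add]; ring

theorem der_eq (F : MvPolynomial σ ℝ) (i : σ) : pderiv i F =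
    ∑ α ∈ F.support, monomial (α - Finsupp.single i 1) (F.coeff α * α i) := by
  conv_lhs => rw [F.as_sum, map_sum]
  simp only [pderiv_monomial]

end PCnA

open PCnA in
theorem pCn : OfCn := by
  intro h
  refine ⟨h, fun F E i hE => ⟨?_, ?_⟩, fun f F hf => ?_, fun Φ F E B hE hB hΦ => ?_,
    fun Φ F E D hE hΦ => ?_, fun F E K x hE hK hx => ?_, fun F E K ε x y hE hK hε hx => ?_⟩
  · rw [der_eq]
    refine (h.sum _ _).trans ?_
    rw [cn, mul_sum]
    refine sum_le_sum fun α hα => ?_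
    rw [h.mono, abs_mul, mul_comm, Nat.abs_cast]
    refine mul_le_mul_of_nonneg_right (Nat.cast_le.2 ?_) (abs_nonneg _)
    exact ((monomial_le_degreeOf i hα).trans (degreeOf_le_totalDegree F i)).trans hE
  · rw [der_eq]
    refine totalDegree_finsetSum_le fun α hα => ?_
    by_cases e : α i = 0
    · simp [e]
    · refine (totalDegree_monomial_le _ _).trans ?_
      have h1 := (le_totalDegree hα).trans hE
      rw [← Finsupp.sub_add_single_one_cancel e, Finsupp.sum_add_index' (fun _ => rfl)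
        (fun _ _ _ => rfl), Finsupp.sum_single_index rfl] at h1
      exact Nat.le_sub_one_of_lt h1
  · classical
    rw [cn, cn, support_rename_of_injective hf,
      sum_image fun _ _ _ _ e => Finsupp.mapDomain_injective hf e]
    simp only [coeff_rename_mapDomain f hf]
  · rw [aeval_def, eval₂_eq]
    refine (h.sum _ _).trans ?_
    rw [cn, sum_mul]
    refine sum_le_sum fun α hα => (h.mul _ _).trans ?_
    rw [algebraMap_eq, h.const]
    refine mul_le_mul_of_nonneg_left ((h.prod _ _).trans (le_trans ?_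
      (pow_le_pow_right₀ hB (deg_le hE hα)))) (abs_nonneg _)
    rw [← prod_pow_eq_pow_sum]
    exact prod_le_prod (fun _ _ => h.nonneg _) fun i _ =>
      (h.pow _ _).trans (pow_le_pow_left₀ (h.nonneg _) (hΦ i) _)
  · rw [aeval_def, eval₂_eq]
    refine totalDegree_finsetSum_le fun α hα => (totalDegree_mul _ _).trans ?_
    rw [algebraMap_eq, totalDegree_C, zero_add]
    refine (totalDegree_finsetProd _ _).trans (le_trans ?_
      (Nat.mul_le_mul_right D (deg_le hE hα)))
    rw [sum_mul]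
    exact sum_le_sum fun i _ => (totalDegree_pow _ _).trans (Nat.mul_le_mul_left _ (hΦ i))
  · rw [eval_eq, cn, sum_mul]
    refine (abs_sum_le_sum_abs _ _).trans (sum_le_sum fun α hα => ?_)
    rw [abs_mul]
    exact mul_le_mul_of_nonneg_left ((abs_prod_le hx _ _).trans
      (pow_le_pow_right₀ hK (deg_le hE hα))) (abs_nonneg _)
  · rw [eval_eq, eval_eq, ← sum_sub_distrib, cn, mul_sum, sum_mul, sum_mul]
    refine (abs_sum_le_sum_abs _ _).trans (sum_le_sum fun α hα => ?_)
    rw [← mul_sub, abs_mul]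
    have h1 := deg_le hE hα
    calc _ ≤ |F.coeff α| * (E * K ^ E * ε) := by
          refine mul_le_mul_of_nonneg_left ((lip_prod hK hε hx _ _).trans ?_) (abs_nonneg _)
          gcongr
      _ = _ := by ring

end Pool.Agent.MP_5168f5_an.AN.Pk
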