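import Pool.Agent.MP_5168f5_an.AN.SpecP

/-! Counting monomials; restriction of polynomials to lines. -/

namespace Pool.Agent.MP_5168f5_an.AN.Pk

open MvPolynomial

namespace PCntA

section

variable {σ : Type} [Fintype σ] [DecidableEq σ] (E : ℕ)

theorem mem (α : σ →₀ ℕ) : α ∈ mons σ E ↔ ∑ j, α j ≤ E := by
  simp [mons, Finset.mem_finsuppAntidiag]

theorem sup (F : MvPolynomial σ ℝ) : F.totalDegree ≤ E ↔ F.support ⊆ mons σ E := by
  rw [totalDegree, Finset.sup_le_iff]
  refine forall₂_congr fun α _ => ?_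
  rw [mem, Finsupp.sum_fintype _ _ fun _ => rfl]

theorem card : (mons σ E).card = (E + Fintype.card σ).choose (Fintype.card σ) := by
  rw [mons, Finset.card_biUnion, ← Nat.sum_range_multichoose]
  · exact Finset.sum_congr rfl fun r _ => by
      rw [Finset.card_finsuppAntidiag_nat_eq_multichoose, Finset.card_univ]
  · intro r _ s _ h
    refine Finset.disjoint_left.2 fun α a b => h ?_
    rw [Finset.mem_finsuppAntidiag] at a b
    exact a.1.symm.trans b.1

theorem val (F : MvPolynomial σ ℝ) (x : σ → ℝ) (h : F.totalDegree ≤ E) :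
    eval x F = ∑ α : mons σ E, F.coeff α.1 * ∏ j, x j ^ α.1 j := by
  rw [eval_eq', Finset.sum_coe_sort (mons σ E) fun α => F.coeff α * ∏ j, x j ^ α j]
  refine Finset.sum_subset ((sup E F).1 h) fun α _ hα => ?_
  rw [notMem_support_iff.1 hα, zero_mul]

theorem ex (c : mons σ E → ℝ) :
    ∃ F : MvPolynomial σ ℝ, F.totalDegree ≤ E ∧ ∀ α : mons σ E, F.coeff α.1 = c α := by
  refine ⟨∑ α : mons σ E, monomial α.1 (c α), totalDegree_finsetSum_le fun α _ =>
    (totalDegree_monomial_le _ _).trans ?_, fun α => ?_⟩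
  · rw [Finsupp.sum_fintype _ _ fun _ => rfl]
    exact (mem E _).1 α.2
  · rw [coeff_sum, Finset.sum_eq_single α]
    · simp
    · intro β _ hβ
      rw [coeff_monomial, if_neg fun e => hβ (Subtype.ext e)]
    · simp

end

theorem line {σ : Type} (E : ℕ) (F : MvPolynomial σ ℝ) (a v : σ → ℝ) (h : F.totalDegree ≤ E) :
    ∃ q : Polynomial ℝ, q.natDegree ≤ E ∧ ∀ s : ℝ, eval (a + s • v) F = q.eval s := by
  refine ⟨aeval (fun i => Polynomial.C (v i) * Polynomial.X + Polynomial.C (a i)) F, ?_,
    fun s => ?_⟩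
  · simpa using aeval_natDegree_le F h
      (fun i => Polynomial.C (v i) * Polynomial.X + Polynomial.C (a i))
      fun _ => Polynomial.natDegree_linear_le
  · clear h
    induction F using MvPolynomial.induction_on with
    | C c => simp
    | add p q hp hq => simp [hp, hq]
    | mul_X p i hp =>
      simp only [map_mul, hp, eval_X, aeval_X, Polynomial.eval_mul, Polynomial.eval_add,
        Polynomial.eval_C, Polynomial.eval_X, Pi.add_apply, Pi.smul_apply, smul_eq_mul]
      ring

theorem sp {σ : Type} [DecidableEq σ] (E : ℕ) (F : MvPolynomial σ ℝ) (h : F.totalDegree ≤ E) :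
    SP E fun x => eval x F := fun x i => by
  obtain ⟨q, a, b⟩ := line E F (Function.update x i 0) (Pi.single i 1) h
  refine ⟨q, a, fun s => Eq.trans ?_ (b s)⟩
  congr 2
  funext j
  by_cases e : j = i
  · subst e
    simp
  · simp [e]

end PCntA

theorem pCnt : Cnt :=
  ⟨PCntA.mem, PCntA.sup, PCntA.card, PCntA.val, PCntA.ex, PCntA.sp, PCntA.line⟩

end Pool.Agent.MP_5168f5_an.AN.Pk
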