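import Pool.Agent.MP_5168f5_an.AN.SpecP

/-! Row Gel: the coefficient norm is almost multiplicative. -/

namespace Pool.Agent.MP_5168f5_an.AN.Pk

open MvPolynomial MeasureTheory

theorem pGel : OfGel := by
  intro hC hN hE hV n E
  obtain ⟨C, h1, h⟩ := hE n E
  obtain ⟨μ, hμ⟩ : ∃ μ : ℝ, μ = 1 / (4 * (n * E + 1)) := ⟨_, rfl⟩
  have μ0 : 0 < μ := by rw [hμ]; positivity
  obtain ⟨A, hA⟩ : ∃ A : ℝ, A = ((E + 1) * 2 ^ E) ^ n := ⟨_, rfl⟩
  obtain ⟨B, hB⟩ : ∃ B : ℝ, B = (μ ^ E) ^ n := ⟨_, rfl⟩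
  have B0 : 0 < B := by rw [hB]; positivity
  refine ⟨max 1 ((C * (A / B)) ^ 2), le_max_left _ _, fun F G hF hG => ?_⟩
  have k : ∀ F : MvPolynomial (Fin n) ℝ, F.totalDegree ≤ E → ∃ S : Set (Fin n → ℝ),
      volume S ≤ ENNReal.ofReal (n * (2 * E * μ) * (2 * 1) ^ (n - 1)) ∧
        ∀ x, ‖x‖ ≤ 1 → x ∉ S → cn F ≤ C * (A / B) * |eval x F| := fun F hF => by
    obtain ⟨⟨y, hy, e⟩, -⟩ := h F hF
    refine ⟨_, hV n E _ 0 y 1 2 μ (hN.sp E F hF) (continuous_eval F).measurable μ0 zero_le_one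
      (by rw [sub_zero]; linarith), fun x hx c => e.trans ?_⟩
    rw [mul_assoc, div_mul_eq_mul_div]
    refine mul_le_mul_of_nonneg_left ((le_div_iff₀' B0).2 (not_lt.1 fun d => c ?_)) (by linarith)
    exact ⟨by rwa [sub_zero], hA ▸ hB ▸ d⟩
  obtain ⟨S, s1, s2⟩ := k F hF
  obtain ⟨T, t1, t2⟩ := k G hG
  obtain ⟨x, hx, c⟩ : ∃ x ∈ Metric.closedBall (0 : Fin n → ℝ) 1, x ∉ S ∪ T := by
    refine Set.not_subset.1 fun c => ?_
    have h2 := (measure_mono c).trans ((measure_union_le S T).trans (add_le_add s1 t1))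
    rw [Real.volume_pi_closedBall _ zero_le_one, ← ENNReal.ofReal_add (by positivity)
      (by positivity), ENNReal.ofReal_le_ofReal_iff (by positivity), Fintype.card_fin] at h2
    have h3 : ((2 : ℝ) * 1) ^ (n - 1) ≤ (2 * 1) ^ n :=
      pow_le_pow_right₀ (by norm_num) (Nat.sub_le _ _)
    have h4 : 4 * (n * E + 1) * μ = 1 := by rw [hμ]; field_simp
    have h5 : (0 : ℝ) < μ * (2 * 1) ^ (n - 1) := by positivity
    have h6 := congrArg (· * ((2 : ℝ) * 1) ^ (n - 1)) h4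
    linarith
  have h2 := mem_closedBall_zero_iff.1 hx
  have h3 := hC.val (F * G) _ 1 x le_rfl le_rfl fun i => (norm_le_pi_norm x i).trans h2
  rw [one_pow, mul_one, map_mul, abs_mul] at h3
  have h4 := s2 x h2 fun d => c (Or.inl d)
  refine (mul_le_mul h4 (t2 x h2 fun d => c (Or.inr d)) (hC.nonneg G)
    ((hC.nonneg F).trans h4)).trans ?_
  rw [mul_mul_mul_comm, ← sq]
  exact mul_le_mul (le_max_right _ _) h3 (by positivity) (by positivity)

end Pool.Agent.MP_5168f5_an.AN.Pk
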