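import Pool.Agent.MP_5168f5_an.AN.SpecP

/-! Sublevel sets in one variable and the walk between two points. -/

namespace Pool.Agent.MP_5168f5_an.AN.Pk

namespace PLagA

open Polynomial

theorem lagr (q : ℝ[X]) {E : ℕ} {y R μ : ℝ} (hq : q.natDegree ≤ E) (hμ : 0 < μ) (T : Finset ℝ)
    (hT : T.card = E + 1) (h1 : ∀ s ∈ T, |s - y| ≤ R)
    (h2 : ∀ a ∈ T, ∀ b ∈ T, a ≠ b → μ ≤ |a - b|) :
    μ ^ E * |q.eval y| ≤ ∑ s ∈ T, R ^ E * |q.eval s| := by
  have e := Lagrange.eq_interpolate (s := T) (v := id) (f := q) (Set.injOn_id _)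
    (degree_le_natDegree.trans_lt (by rw [hT]; exact_mod_cast Nat.lt_succ_of_le hq))
  have e1 := congrArg (eval y) e
  rw [Lagrange.interpolate_apply, eval_finsetSum] at e1
  rw [e1]
  refine (mul_le_mul_of_nonneg_left (Finset.abs_sum_le_sum_abs _ _) (by positivity)).trans ?_
  rw [Finset.mul_sum]
  refine Finset.sum_le_sum fun s hs => ?_
  have k : μ ^ E * |eval y (Lagrange.basis T id s)| ≤ R ^ E := by
    have c : (T.erase s).card = E := by rw [Finset.card_erase_of_mem hs, hT]; rfl
    rw [Lagrange.basis, eval_prod, Finset.abs_prod, ← c, ← Finset.prod_const, ← Finset.prod_const,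
      ← Finset.prod_mul_distrib]
    refine Finset.prod_le_prod (fun _ _ => by positivity) fun b hb => ?_
    have hb' := Finset.mem_erase.1 hb
    have a1 := h2 s hs b hb'.2 hb'.1.symm
    have a2 := h1 b hb'.2
    simp only [Lagrange.basisDivisor, id, eval_mul, eval_C, eval_sub, eval_X, abs_mul, abs_inv]
    rw [abs_sub_comm y, ← mul_assoc, ← div_eq_mul_inv]
    exact (mul_le_of_le_one_left (abs_nonneg _) (div_le_one_of_le₀ a1 (abs_nonneg _))).trans a2
  rw [eval_mul, eval_C, abs_mul, mul_left_comm, mul_comm]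
  exact mul_le_mul_of_nonneg_right k (abs_nonneg _)

theorem up1 {n : ℕ} (x y : Fin n → ℝ) (i : Fin n) :
    Function.update (mix x y i) i (x i) = mix x y (i + 1) := by
  funext j
  rcases eq_or_ne j i with rfl | h
  · simp [mix]
  · have : (j : ℕ) ≠ i := fun e => h (Fin.ext e)
    rw [Function.update_of_ne h, mix, mix]
    exact if_congr (by omega) rfl rfl

theorem up2 {n : ℕ} (x y : Fin n → ℝ) (i : Fin n) :
    Function.update (mix x y i) i (y i) = mix x y i := by
  funext j
  rcases eq_or_ne j i with rfl | h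
  · simp [mix]
  · rw [Function.update_of_ne h]

end PLagA

open PLagA

theorem pLag : Lag := by
  classical
  refine ⟨fun q E y R μ hq hμ => ?_, fun {n} F x y A B hA hB h => ?_⟩
  · let p : ℕ → Prop := fun k => ∃ T : Finset ℝ, T.card = k ∧ (∀ s ∈ T, |s - y| ≤ R ∧
      (E + 1) * R ^ E * |q.eval s| < μ ^ E * |q.eval y|) ∧ ∀ a ∈ T, ∀ b ∈ T, a ≠ b → μ ≤ |a - b|
    obtain ⟨T, c, h1, h2⟩ : p (Nat.findGreatest p E) :=
      Nat.findGreatest_spec (Nat.zero_le E) ⟨∅, rfl, by simp, by simp⟩
    have hc : T.card ≤ E := c.le.trans (Nat.findGreatest_le E)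
    refine ⟨T, hc, fun s s1 s2 => ?_⟩
    by_contra hn
    push Not at hn
    have hs : s ∉ T := fun e => by simpa using (hn s e).trans_lt' hμ
    have k : p (T.card + 1) := by
      refine ⟨insert s T, Finset.card_insert_of_notMem hs, by simpa using ⟨⟨s1, s2⟩, h1⟩, ?_⟩
      simp only [Finset.forall_mem_insert]
      exact ⟨⟨fun e => absurd rfl e, fun b hb _ => hn b hb⟩,
        fun a ha => ⟨fun _ => by rw [abs_sub_comm]; exact hn a ha, h2 a ha⟩⟩
    rcases hc.eq_or_lt with e | e
    · obtain ⟨U, u0, u1, u2⟩ := k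
      rw [e] at u0
      have a1 := lagr q hq hμ U u0 (fun s hs => (u1 s hs).1) u2
      have a2 := Finset.sum_lt_sum_of_nonempty (Finset.card_pos.1 (by omega) : U.Nonempty)
        fun s hs => (u1 s hs).2
      simp only [mul_assoc] at a2
      rw [← Finset.mul_sum, Finset.sum_const, u0, nsmul_eq_mul, Nat.cast_succ] at a2
      exact absurd (lt_of_mul_lt_mul_left a2 (by positivity)) (not_lt.2 a1)
    · have := Nat.le_findGreatest (P := p) e k
      omega
  · by_contra hn
    push Not at hn
    simp only [up1, up2] at hn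
    have k : ∀ k, k ≤ n → B ^ k * |F y| ≤ A ^ k * |F (mix x y k)| := fun k => by
      induction k with
      | zero => exact fun _ => by rw [show mix x y 0 = y from funext fun j => by simp [mix]]; simp
      | succ k ih =>
        intro hk
        have a1 := mul_le_mul_of_nonneg_left (ih (by omega)) hB
        have a2 := mul_le_mul_of_nonneg_left (hn ⟨k, hk⟩) (pow_nonneg hA k)
        simp only [pow_succ] at a2 ⊢
        linarith
    have := k n le_rfl
    rw [show mix x y n = x from funext fun j => by simp [mix]] at this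
    exact absurd h (not_lt.2 this)

end Pool.Agent.MP_5168f5_an.AN.Pk
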