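import Pool.Agent.MP_5168f5_an.AN.SpecP

/-! Comparison of norms on polynomials of bounded degree. -/

namespace Pool.Agent.MP_5168f5_an.AN.Pk

open MvPolynomial

namespace PNeqA

theorem one (h : Cn) (t : Cnt) (n E : ℕ) : ∃ C : ℝ, 1 ≤ C ∧ ∀ F : MvPolynomial (Fin n) ℝ,
    F.totalDegree ≤ E → ∃ y : Fin n → ℝ, ‖y‖ ≤ 1 ∧ cn F ≤ C * |eval y F| := by
  let g : (Fin n → Fin (E + 1)) → Fin n → ℝ := fun k j => (k j : ℕ) / (E + 1)
  let L : (mons (Fin n) E → ℝ) →ₗ[ℝ] ((Fin n → Fin (E + 1)) → ℝ) :=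
    { toFun := fun c k => ∑ α, c α * ∏ j, g k j ^ α.1 j
      map_add' := fun c d => funext fun k => by simp [add_mul, Finset.sum_add_distrib]
      map_smul' := fun a c => funext fun k => by simp [Finset.mul_sum, mul_assoc] }
  have e1 : (0 : ℝ) < E + 1 := by positivity
  have hL : LinearMap.ker L = ⊥ := by
    refine LinearMap.ker_eq_bot'.2 fun c hc => ?_
    obtain ⟨F, f1, f2⟩ := t.ex E c
    have : F = 0 := by
      refine eq_zero_of_eval_zero_at_prod_finset F
        (fun _ => Finset.univ.image fun k : Fin (E + 1) => ((k : ℕ) : ℝ) / (E + 1))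
        (fun i => ?_) fun x hx => ?_
      · rw [Finset.card_image_of_injective _ fun a b e => Fin.ext
          (Nat.cast_injective (R := ℝ) ((div_left_inj' e1.ne').1 e))]
        simpa using Nat.lt_succ_of_le ((degreeOf_le_totalDegree F i).trans f1)
      · choose k _ hk using fun i => Finset.mem_image.1 (hx i)
        have : x = g k := funext fun i => (hk i).symm
        rw [this, t.val E F _ f1]
        simp only [f2]
        exact congrFun hc k
    exact funext fun α => by rw [← f2, this]; simp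
  obtain ⟨K, -, hK⟩ := L.exists_antilipschitzWith hL
  refine ⟨1 + (mons (Fin n) E).card * K, le_add_of_nonneg_right (by positivity), fun F f => ?_⟩
  obtain ⟨k, hk⟩ := Finite.exists_max fun k => |eval (g k) F|
  refine ⟨g k, (pi_norm_le_iff_of_nonneg zero_le_one).2 fun j => ?_, ?_⟩
  · rw [Real.norm_eq_abs, abs_of_nonneg (by positivity), div_le_one e1]
    exact_mod_cast (k j).2.le
  · have a1 := hK.le_mul_norm L.map_zero fun α => F.coeff α.1
    have a2 : ‖L fun α => F.coeff α.1‖ ≤ |eval (g k) F| :=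
      (pi_norm_le_iff_of_nonneg (abs_nonneg _)).2 fun k' => by
        refine le_trans (le_of_eq ?_) (hk k')
        rw [t.val E F _ f]; rfl
    have a3 : cn F ≤ (mons (Fin n) E).card * ‖fun α : mons (Fin n) E => F.coeff α.1‖ := by
      rw [h.sup F _ ((t.sup E F).1 f), ← nsmul_eq_mul]
      exact Finset.sum_le_card_nsmul _ _ _ fun α hα =>
        norm_le_pi_norm (fun α : mons (Fin n) E => F.coeff α.1) ⟨α, hα⟩
    have a4 := mul_le_mul_of_nonneg_left (a1.trans (mul_le_mul_of_nonneg_left a2 K.2))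
      (Nat.cast_nonneg (α := ℝ) (mons (Fin n) E).card)
    have a5 := abs_nonneg (eval (g k) F)
    linarith

theorem ev {n : ℕ} (F : MvPolynomial (Fin n) ℝ) (x₀ u : Fin n → ℝ) (r : ℝ) :
    eval u (aeval (fun i => C (x₀ i) + C r * X i : Fin n → MvPolynomial (Fin n) ℝ) F) =
      eval (x₀ + r • u) F ∧ ∀ i,
    eval u (pderiv i (aeval (fun i => C (x₀ i) + C r * X i : Fin n → MvPolynomial (Fin n) ℝ) F)) =
      r * eval (x₀ + r • u) (pderiv i F) := by
  induction F using MvPolynomial.induction_on with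
  | C a => simp
  | add p q hp hq => simp [hp.1, hp.2, hq.1, hq.2, mul_add, -aeval_eq_bind₁]
  | mul_X p j hp =>
    refine ⟨by simp [hp.1, -aeval_eq_bind₁], fun i => ?_⟩
    by_cases e : j = i <;> simp [hp.1, hp.2, e, pderiv_X, -aeval_eq_bind₁] <;> ring

theorem back {n : ℕ} (F : MvPolynomial (Fin n) ℝ) (x₀ : Fin n → ℝ) {r : ℝ} (hr : r ≠ 0) :
    aeval (fun i => r⁻¹ • (X i - C (x₀ i)) : Fin n → MvPolynomial (Fin n) ℝ)
      (aeval (fun i => C (x₀ i) + C r * X i : Fin n → MvPolynomial (Fin n) ℝ) F) = F := by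
  induction F using MvPolynomial.induction_on with
  | C a => simp
  | add p q hp hq => simp [hp, hq, -aeval_eq_bind₁]
  | mul_X p j hp =>
    rw [map_mul, map_mul, hp]
    simp [← smul_eq_C_mul, smul_smul, hr]

end PNeqA

open PNeqA in
theorem pNeq : OfNeq := by
  intro h t n E
  obtain ⟨C₀, c1, hC⟩ := one h t n E
  have p2 : (1 : ℝ) ≤ 2 ^ E := one_le_pow₀ one_le_two
  have e0 : (0 : ℝ) ≤ E := Nat.cast_nonneg E
  have c2 : C₀ * 2 ^ E ≤ C₀ * 2 ^ E * (E + 1) :=
    le_mul_of_one_le_right (by positivity) (by linarith)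
  have c3 : C₀ * (E + 1) ≤ C₀ * 2 ^ E * (E + 1) :=
    mul_le_mul_of_nonneg_right (le_mul_of_one_le_right (by positivity) p2) (by positivity)
  have c4 : C₀ ≤ C₀ * 2 ^ E * (E + 1) := by nlinarith
  refine ⟨C₀ * 2 ^ E * (E + 1), c1.trans c4, fun F f => ⟨?_, fun x₀ r R θ r0 rR hθ => ?_⟩⟩
  · obtain ⟨y, y1, y2⟩ := hC F f
    exact ⟨y, y1, y2.trans (mul_le_mul_of_nonneg_right c4 (abs_nonneg _))⟩
  have θ0 : 0 ≤ θ := (abs_nonneg _).trans (hθ x₀ (by simpa using r0.le))
  have q1 : 1 ≤ R / r := (one_le_div r0).2 rR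
  have q2 : 0 ≤ (R / r) ^ E * θ := by positivity
  set G := aeval (fun i => C (x₀ i) + C r * X i : Fin n → MvPolynomial (Fin n) ℝ) F with hG
  have g1 : G.totalDegree ≤ E := (h.deg _ F E 1 f fun i =>
    (totalDegree_add _ _).trans (max_le (by simp) ((totalDegree_mul _ _).trans (by simp)))).trans
      (by simp)
  have g2 : cn G ≤ C₀ * θ := by
    obtain ⟨y, y1, y2⟩ := hC G g1
    refine y2.trans (mul_le_mul_of_nonneg_left ?_ (by linarith))
    rw [(ev F x₀ y r).1]
    refine hθ _ ?_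
    rw [add_sub_cancel_left, norm_smul, Real.norm_eq_abs, abs_of_pos r0]
    exact mul_le_of_le_one_right r0.le y1
  refine ⟨fun R1 x1 => ?_, fun z hz => ?_⟩
  · have := h.comp (fun i => r⁻¹ • (X i - C (x₀ i)) : Fin n → MvPolynomial (Fin n) ℝ) G E
      (2 * (R / r)) g1 (by linarith) fun i => by
        have a1 := h.sub (X i : MvPolynomial (Fin n) ℝ) (C (x₀ i))
        have a2 : |x₀ i| ≤ R := (norm_le_pi_norm x₀ i).trans x1
        rw [h.var, h.const] at a1
        rw [h.smul, abs_of_pos (inv_pos.2 r0), inv_mul_le_iff₀ r0, mul_left_comm,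
          mul_div_cancel₀ _ r0.ne']
        linarith
    rw [hG, back F x₀ r0.ne', mul_pow] at this
    have a3 := mul_le_mul_of_nonneg_right g2 (by positivity : 0 ≤ 2 ^ E * (R / r) ^ E)
    have a4 := mul_le_mul_of_nonneg_right c2 q2
    linarith
  · have u1 : ∀ i, |(r⁻¹ • (z - x₀)) i| ≤ R / r := fun i => by
      rw [Pi.smul_apply, smul_eq_mul, abs_mul, abs_of_pos (inv_pos.2 r0), inv_mul_eq_div]
      exact div_le_div_of_nonneg_right ((norm_le_pi_norm (z - x₀) i).trans hz) r0.le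
    obtain ⟨v1, v2⟩ := ev F x₀ (r⁻¹ • (z - x₀)) r
    rw [smul_smul, mul_inv_cancel₀ r0.ne', one_smul, add_sub_cancel] at v1 v2
    have q3 : 0 ≤ (R / r) ^ E := by positivity
    refine ⟨?_, fun i => ?_⟩
    · have a1 := h.val G E _ _ g1 q1 u1
      have a3 := mul_le_mul_of_nonneg_right g2 q3
      have a4 := mul_le_mul_of_nonneg_right c4 q2
      rw [v1] at a1
      linarith
    · obtain ⟨d1, d2⟩ := h.der G E i g1
      have a1 := h.val _ E _ _ (d2.trans (Nat.sub_le _ _)) q1 u1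
      have a3 := mul_le_mul_of_nonneg_right (d1.trans (mul_le_mul_of_nonneg_left g2 e0)) q3
      have a4 := mul_le_mul_of_nonneg_right c3 q2
      have a5 := mul_nonneg (zero_le_one.trans c1) q2
      rw [v2, abs_mul, abs_of_pos r0] at a1
      linarith

end Pool.Agent.MP_5168f5_an.AN.Pk
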