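import Pool.Agent.MP_5168f5_an.AN.SpecP

/-! The inequality of Remez under a density bound. -/

namespace Pool.Agent.MP_5168f5_an.AN.Pk

open H19 H17S H17F MvPolynomial

theorem pRemD : OfRemD := by
  intro h n E
  obtain ⟨C, hC, h⟩ := h n E
  refine ⟨2 * C, by linarith, fun P x G F K D θ κ j hF hK hD hx hd hκ hj hp => ?_⟩
  have p0 : 0 < 2 * C * D * K ^ n := by positivity
  have e : (κ / (2 * C * D * K ^ n)) ^ (n * E) * (2 * C * D * K ^ n / κ) ^ (n * E) = 1 := by
    rw [← mul_pow, div_mul_div_comm, mul_comm κ, div_self (by positivity), one_pow]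
  have q0 : 0 < (κ / (2 * C * D * K ^ n)) ^ (n * E) := by positivity
  have q1 : 0 < (2 * C * D * K ^ n / κ) ^ (n * E) := by positivity
  have h1 := h P x G F K D (κ / (2 * C * D * K ^ n)) j hF hK (by linarith) hx hd (by positivity) (by
    have := mul_le_mul_of_nonneg_left hj q0.le
    have k0 : 0 < C * K ^ E := by positivity
    nlinarith)
  have h2 : C * D * K ^ n * (κ / (2 * C * D * K ^ n)) = κ / 2 := by field_simp
  by_contra hn
  have h3 := pb_mono (P := P) (E := fun ω => G ω ∧ |eval (x ω) F| ≤ θ)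
    (F := fun ω => G ω ∧ C * |eval (x ω) F| < (κ / (2 * C * D * K ^ n)) ^ (n * E) * cn F)
    fun ω _ hω => ⟨hω.1, by
      have a1 := mul_lt_mul_of_pos_left (not_le.1 hn) q0
      have a2 := mul_le_mul_of_nonneg_left hω.2 (show 0 ≤ C by linarith)
      have a3 : 0 ≤ C * |eval (x ω) F| := by positivity
      have a4 : (κ / (2 * C * D * K ^ n)) ^ (n * E) *
          (2 * C * (2 * C * D * K ^ n / κ) ^ (n * E) * θ) = 2 * (C * θ) := by
        linear_combination 2 * C * θ * e
      linarith⟩
  linarith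

end Pool.Agent.MP_5168f5_an.AN.Pk
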