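import Pool.Agent.MP_5168f5_an.AN.SpecP

/-! Sublevel sets have small probability if the coordinates are spread. -/

namespace Pool.Agent.MP_5168f5_an.AN.Pk

open H19 H17S H17F

namespace PSubCA

theorem pb_ex {Ω ι : Type} (P : FP Ω) (T : Finset ι) (B : ι → Ω → Prop) {b : ℝ}
    (h : ∀ i ∈ T, pb P (B i) ≤ b) : pb P (fun ω => ∃ i ∈ T, B i ω) ≤ T.card * b := by
  classical
  induction T using Finset.induction_on with
  | empty => simp [pb_zero]
  | insert i T hi ih =>
    have h1 := ih fun j hj => h j (Finset.mem_insert_of_mem hj)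
    have h2 := h i (Finset.mem_insert_self _ _)
    have h3 := pb_or P (B i) fun ω => ∃ i ∈ T, B i ω
    rw [Finset.card_insert_of_notMem hi, pb_congr fun ω _ => Finset.exists_mem_insert i T _]
    push_cast
    linarith

end PSubCA

open PSubCA Classical in
theorem pSubC : OfSubC := by
  intro lag Ω Γ P n E F x y G R μ b hF hμ hR hG
  obtain ⟨B, hB⟩ : ∃ B : Fin n → Ω → Prop, ∀ i ω, B i ω ↔
      (E + 1) * R ^ E * |F ω (Function.update (mix (x ω) (y ω) i) i (x ω i))| <
        μ ^ E * |F ω (Function.update (mix (x ω) (y ω) i) i (y ω i))| := ⟨_, fun _ _ => Iff.rfl⟩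
  have h1 : ∀ i, pb P (B i) ≤ E * b := by
    intro i
    have e := R4.ke.exp P (G i) fun _ ω => if B i ω then 1 else 0
    refine e.trans_le ((P.E_mono fun a ha => ?_).trans_eq (P.E_const _))
    obtain ⟨q, hq, he⟩ := hF a ha (mix (x a) (y a) i) i
    obtain ⟨T, hT, hc⟩ := lag.cov q E (y a i) R μ hq hμ
    have hb : 0 ≤ b := (pb_nonneg _ _).trans ((hG i).2 a ha 0)
    refine le_trans (pb_mono (F := fun ω => ∃ c ∈ T, |x ω i - c| < μ) fun ω hω hb => ?_)
      ((pb_ex _ T _ fun c _ => (hG i).2 a ha c).trans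
        (mul_le_mul_of_nonneg_right (by exact_mod_cast hT) hb))
    obtain ⟨h2, h3⟩ := (mem_cE (E := fun v => G i v = G i a) ⟨a, ha, rfl⟩ ω).1 hω
    obtain ⟨h4, h5⟩ := Prod.mk.inj ((hG i).1 ω h2 a ha h3)
    have h6 : y ω i = y a i := by simpa [mix] using congrFun h5 i
    rw [hB, h4, h5, he, he, h6] at hb
    refine hc _ ?_ hb
    rw [← h6]
    exact (norm_le_pi_norm (x ω - y ω) i).trans (hR ω h2)
  refine le_trans (pb_mono (F := fun ω => ∃ i ∈ Finset.univ, B i ω) fun ω hω h => ?_)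
    ((pb_ex P _ B fun i _ => h1 i).trans_eq (by simp [mul_assoc]))
  have h0 : 0 ≤ R := (norm_nonneg _).trans (hR ω hω)
  obtain ⟨i, hi⟩ := lag.walk (F ω) (x ω) (y ω) _ _ (by positivity) (by positivity) h
  exact ⟨i, Finset.mem_univ _, (hB i ω).2 hi⟩

end Pool.Agent.MP_5168f5_an.AN.Pk
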