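import Pool.Agent.MP_5168f5_an.AN.SpecP

/-! The polynomial kit: sublevel sets have small probability under a density bound. -/

namespace Pool.Agent.MP_5168f5_an.AN.Pk

open H19 H17S H17F MvPolynomial MeasureTheory

namespace PSubPA

theorem un {Ω α : Type} (P : FP Ω) (T : Finset α) (E : α → Ω → Prop) {b : ℝ}
    (h : ∀ c, pb P (E c) ≤ b) : pb P (fun ω => ∃ c ∈ T, E c ω) ≤ T.card * b := by
  classical
  induction T using Finset.induction_on with
  | empty => simpa using (pb_zero (P := P) (E := fun _ => False) fun _ _ => id).le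
  | insert c T hc ih =>
    have h1 := pb_or P (E c) fun ω => ∃ c ∈ T, E c ω
    have h2 := h c
    simp only [Finset.mem_insert, exists_eq_or_imp, Finset.card_insert_of_notMem hc]
    push_cast
    linarith

theorem cell {n : ℕ} (j : ℕ) (c : Fin n → ℤ) : {x : Fin n → ℝ | flv j x = c} =
    Set.pi Set.univ fun i => Set.Ico ((c i : ℝ) / 2 ^ j) ((c i + 1) / 2 ^ j) := by
  ext x
  have h : (0 : ℝ) < 2 ^ j := by positivity
  simp only [Set.mem_ofPred_eq, funext_iff, flv, fl1, Int.floor_eq_iff, Set.mem_pi, Set.mem_univ,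
    true_imp_iff, Set.mem_Ico, div_le_iff₀' h, lt_div_iff₀' h]

theorem cnt {n : ℕ} (j : ℕ) (T : Finset (Fin n → ℤ)) {A : Set (Fin n → ℝ)} {v : ℝ} (hv : 0 ≤ v)
    (h : ∀ x, flv j x ∈ T → x ∈ A) (hA : volume A ≤ ENNReal.ofReal v) :
    T.card * ((2 ^ j) ^ n : ℝ)⁻¹ ≤ v := by
  have h1 : volume (⋃ c ∈ T, {x : Fin n → ℝ | flv j x = c}) =
      ∑ c ∈ T, volume {x : Fin n → ℝ | flv j x = c} :=
    measure_biUnion_finset (fun c _ d _ e => Set.disjoint_left.2 fun x h1 h2 =>
      e (Eq.trans (Eq.symm h1) h2)) fun c _ => by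
      rw [cell]; exact MeasurableSet.univ_pi fun _ => measurableSet_Ico
  have h2 : ∀ c ∈ T, volume {x : Fin n → ℝ | flv j x = c} =
      ENNReal.ofReal ((2 ^ j) ^ n : ℝ)⁻¹ := fun c _ => by
    have e : ∀ i, ((c i : ℝ) + 1) / 2 ^ j - c i / 2 ^ j = (2 ^ j)⁻¹ := fun i => by ring
    rw [cell, Real.volume_pi_Ico]
    simp only [e, Finset.prod_const, Finset.card_univ, Fintype.card_fin]
    rw [← ENNReal.ofReal_pow (by positivity), inv_pow]
  rw [Finset.sum_congr rfl h2, Finset.sum_const, nsmul_eq_mul, ← ENNReal.ofReal_natCast,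
    ← ENNReal.ofReal_mul (by positivity)] at h1
  refine (ENNReal.ofReal_le_ofReal_iff hv).1 (h1.ge.trans (le_trans (measure_mono ?_) hA))
  exact Set.iUnion₂_subset fun c hc x hx => h x (by rw [show flv j x = c from hx]; exact hc)

end PSubPA

open PSubPA in
theorem pSubP : OfSubP := by
  classical
  intro hC hT hN hV n E
  obtain ⟨C0, c1, hN⟩ := hN n E
  have w1 : (1 : ℝ) ≤ 1 + E * 2 ^ E := le_add_of_nonneg_right (by positivity)
  have e1 : (1 : ℝ) ≤ (E + 1) ^ n := one_le_pow₀ (by simp)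
  have c2 := one_le_mul_of_one_le_of_one_le e1 (one_le_mul_of_one_le_of_one_le c1 w1)
  have c3 : (0 : ℝ) ≤ 6 * n * E * 4 ^ (n - 1) := by positivity
  obtain ⟨C, k1, k2⟩ : ∃ C : ℝ, (E + 1) ^ n * (C0 * (1 + E * 2 ^ E)) ≤ C ∧
      6 * n * E * 4 ^ (n - 1) ≤ C := ⟨_, le_add_of_nonneg_right c3, le_add_of_nonneg_left (by linarith)⟩
  refine ⟨C, c2.trans k1, fun {Ω} P x G F K D μ j hF hK hD hx hd hμ hr => ?_⟩
  obtain ⟨y, y1, y2⟩ := (hN F hF).1
  have hv := hV n E (fun x => eval x F) 0 y (2 * K) (3 * K) (3 * K * μ) (hT.sp E F hF)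
    (continuous_eval F).measurable (by positivity) (by positivity) (by rw [sub_zero]; linarith)
  have p2 : (0 : ℝ) < 2 ^ j := by positivity
  have m0 : 0 < μ ^ (n * E) := by positivity
  have h1 := cnt j ((P.S.filter fun ω => G ω ∧ C * |eval (x ω) F| < μ ^ (n * E) * cn F).image
    fun ω => flv j (x ω)) (by positivity) (fun z hz => ?_) hv
  · refine (pb_mono (F := fun ω => ∃ c ∈ (P.S.filter fun ω => G ω ∧
      C * |eval (x ω) F| < μ ^ (n * E) * cn F).image fun ω => flv j (x ω),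
        G ω ∧ flv j (x ω) = c) fun ω hω h => ⟨_, Finset.mem_image_of_mem _
          (Finset.mem_filter.2 ⟨hω, h⟩), h.1, rfl⟩).trans ((un P _ _ hd).trans ?_)
    rw [div_eq_inv_mul, ← mul_assoc]
    refine (mul_le_mul_of_nonneg_right h1 hD).trans ?_
    have e : n * (2 * E * (3 * K * μ)) * (2 * (2 * K)) ^ (n - 1) * D =
        6 * n * E * 4 ^ (n - 1) * D * K ^ n * μ := by
      rcases n with _ | n
      · simp
      · rw [show 2 * (2 * K) = 4 * K by ring, Nat.add_sub_cancel, mul_pow]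
        ring
    rw [e]
    gcongr
  · obtain ⟨ω, hω, e⟩ := Finset.mem_image.1 hz
    obtain ⟨hω, g, b⟩ := Finset.mem_filter.1 hω
    have a1 := (norm_sub_lt_of_flv_eq e.symm).le
    have a2 : ((2 : ℝ) ^ j)⁻¹ ≤ 1 := inv_le_one_of_one_le₀ (one_le_pow₀ one_le_two)
    have a3 := hx ω hω g
    have a4 : ‖z‖ ≤ 2 * K := by linarith [norm_le_norm_add_norm_sub' z (x ω)]
    have a5 := hC.lip F E (2 * K) ((2 : ℝ) ^ j)⁻¹ z (x ω) hF (by linarith) (by positivity) fun i =>
      ⟨(norm_le_pi_norm z i).trans a4, (norm_le_pi_norm (x ω) i).trans (by linarith),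
        (norm_le_pi_norm (z - x ω) i).trans a1⟩
    have a6 : C * K ^ E * ((2 : ℝ) ^ j)⁻¹ ≤ μ ^ (n * E) := (mul_inv_le_iff₀ p2).2 hr
    have n0 := hC.nonneg F
    have a7 : C * |eval z F| < μ ^ (n * E) * cn F * (1 + E * 2 ^ E) := by
      have t1 : |eval z F| ≤ |eval (x ω) F| + |eval z F - eval (x ω) F| := by
        linarith [abs_sub_abs_le_abs_sub (eval z F) (eval (x ω) F)]
      have t2 := mul_le_mul_of_nonneg_left (t1.trans (add_le_add le_rfl a5))
        (show 0 ≤ C by linarith)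
      have t3 := mul_le_mul_of_nonneg_left a6 (show 0 ≤ E * cn F * 2 ^ E by positivity)
      rw [mul_pow] at t2
      nlinarith
    have a8 : (E + 1) ^ n * |eval z F| < μ ^ (n * E) * |eval y F| := by
      refine lt_of_mul_lt_mul_left (a := C0 * (1 + E * 2 ^ E)) ?_ (by positivity)
      have t1 := mul_le_mul_of_nonneg_right k1 (abs_nonneg (eval z F))
      have t2 := mul_le_mul_of_nonneg_right (mul_le_mul_of_nonneg_left y2 m0.le)
        (zero_le_one.trans w1)
      nlinarith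
    refine ⟨by rwa [sub_zero], ?_⟩
    have a9 := mul_lt_mul_of_pos_left a8 (show 0 < ((3 * K) ^ E) ^ n by positivity)
    rw [mul_pow (E + 1 : ℝ), mul_pow (3 * K) μ, mul_pow _ (μ ^ E), ← pow_mul μ, mul_comm E n]
    linarith

end Pool.Agent.MP_5168f5_an.AN.Pk
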