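import Pool.Agent.MP_5168f5_an.AN.SpecP

/-! Sublevel sets of separately polynomial functions have small volume. -/

namespace Pool.Agent.MP_5168f5_an.AN.Pk

open MeasureTheory Function

namespace PSubVA

theorem fub {m : ℕ} (i : Fin (m + 1)) {B : Set (Fin (m + 1) → ℝ)} (hB : MeasurableSet B)
    {x₀ : Fin (m + 1) → ℝ} {r : ℝ} (hr : 0 ≤ r) (h : ∀ x ∈ B, ‖x - x₀‖ ≤ r) {c : ENNReal}
    (hc : ∀ w : Fin m → ℝ, volume {s : ℝ | i.insertNth s w ∈ B} ≤ c) :
    volume B ≤ c * ENNReal.ofReal ((2 * r) ^ m) := by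
  have p := (volume_preserving_piFinSuccAbove (fun _ : Fin (m + 1) => ℝ) i).symm
  rw [← p.measure_preimage hB.nullMeasurableSet, Measure.volume_eq_prod,
    Measure.prod_apply_symm (p.measurable hB)]
  refine (lintegral_mono (g := (Metric.closedBall (i.removeNth x₀) r).indicator fun _ => c)
    fun w => ?_).trans_eq ?_
  · by_cases k : w ∈ Metric.closedBall (i.removeNth x₀) r
    · rw [Set.indicator_of_mem k]
      exact hc w
    · refine (measure_mono_null (fun s hs => k ?_) measure_empty).trans_le zero_le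
      refine (dist_pi_le_iff hr).2 fun j => ?_
      simpa [Fin.removeNth, Real.dist_eq] using (norm_le_pi_norm _ (i.succAbove j)).trans (h _ hs)
  · rw [lintegral_indicator_const Metric.isClosed_closedBall.measurableSet,
      Real.volume_pi_closedBall _ hr, Fintype.card_fin]

theorem meas {n : ℕ} (y : Fin n → ℝ) (i : Fin n) {f : (Fin n → ℝ) → ℝ} (hf : Measurable f) :
    Measurable fun x => update (mix x y i) i (f x) := by
  refine measurable_pi_lambda _ fun j => ?_
  simp only [update_apply, mix]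
  split_ifs
  exacts [hf, measurable_pi_apply j, measurable_const]

theorem mix_ins {m : ℕ} (i : Fin (m + 1)) (y : Fin (m + 1) → ℝ) (s : ℝ) (w : Fin m → ℝ) :
    mix (i.insertNth s w) y i = mix (i.insertNth 0 w) y i := by
  funext j
  unfold mix
  split_ifs with h
  · obtain ⟨k, rfl⟩ := Fin.exists_succAbove_eq (Fin.ne_of_lt h)
    simp
  · rfl

end PSubVA

open PSubVA in
theorem pSubV : OfSubV := by
  intro hL n E F x₀ y r R μ hF hm μ0 r0 hR
  have R0 : 0 ≤ R := le_trans (by positivity) hR
  refine (measure_mono (t := ⋃ i : Fin n, {x | ‖x - x₀‖ ≤ r ∧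
    (E + 1) * R ^ E * |F (update (mix x y i) i (x i))| < μ ^ E * |F (update (mix x y i) i (y i))|})
    fun x hx => ?_).trans ((measure_iUnion_fintype_le _ _).trans ?_)
  · obtain ⟨i, h⟩ := hL.walk F x y _ _ (by positivity) (by positivity) hx.2
    exact Set.mem_iUnion.2 ⟨i, hx.1, h⟩
  obtain _ | m := n
  · simp
  refine (Finset.sum_le_card_nsmul _ _ (ENNReal.ofReal (2 * E * μ) * ENNReal.ofReal ((2 * r) ^ m))
    fun i _ => fub i ?_ r0 (fun x hx => hx.1) fun w => ?_).trans_eq ?_
  · exact (measurableSet_le (measurable_id.sub_const x₀).norm measurable_const).inter (measurableSet_lt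
      (((hm.comp (meas y i (measurable_pi_apply i))).abs).const_mul _)
      (((hm.comp (meas y i measurable_const)).abs).const_mul _))
  · obtain ⟨q, q1, q2⟩ := hF (mix (i.insertNth 0 w) y i) i
    obtain ⟨T, t1, t2⟩ := hL.cov q E (y i) R μ q1 μ0
    refine (measure_mono (t := ⋃ c ∈ T, Metric.ball c μ) fun s hs => ?_).trans
      ((measure_biUnion_finset_le _ _).trans ?_)
    · obtain ⟨h1, h2⟩ := hs
      rw [mix_ins, q2, q2, Fin.insertNth_apply_same] at h2
      have a := (norm_le_pi_norm _ i).trans h1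
      have b := norm_le_pi_norm (y - x₀) i
      simp only [Pi.sub_apply, Fin.insertNth_apply_same, Real.norm_eq_abs] at a b
      obtain ⟨c, h3, h4⟩ :=
        t2 s (by linarith [abs_sub_le s (x₀ i) (y i), abs_sub_comm (x₀ i) (y i)]) h2
      exact Set.mem_biUnion h3 h4
    · simp only [Real.volume_ball, Finset.sum_const, nsmul_eq_mul]
      rw [← ENNReal.ofReal_natCast, ← ENNReal.ofReal_mul (by positivity)]
      refine ENNReal.ofReal_le_ofReal ?_
      have : (T.card : ℝ) ≤ E := Nat.cast_le.2 t1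
      nlinarith
  · rw [Finset.card_univ, Fintype.card_fin, nsmul_eq_mul, ← ENNReal.ofReal_natCast,
      ← ENNReal.ofReal_mul (by positivity), ← ENNReal.ofReal_mul (by positivity), Nat.add_sub_cancel]
    congr 1
    ring

end Pool.Agent.MP_5168f5_an.AN.Pk
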