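import Pool.Agent.MP_5168f5_an.AN.PCn1
import Pool.Agent.MP_5168f5_an.AN.PCn
import Pool.Agent.MP_5168f5_an.AN.PCnt
import Pool.Agent.MP_5168f5_an.AN.PLag
import Pool.Agent.MP_5168f5_an.AN.PSubV
import Pool.Agent.MP_5168f5_an.AN.PSubC
import Pool.Agent.MP_5168f5_an.AN.PNeq
import Pool.Agent.MP_5168f5_an.AN.PSubP
import Pool.Agent.MP_5168f5_an.AN.PGel
import Pool.Agent.MP_5168f5_an.AN.PRemD

/-! The polynomial kit: the exports. -/

namespace Pool.Agent.MP_5168f5_an.AN.Pk

theorem kc : Cn := pCn pCn1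
theorem subV : SubV := pSubV pLag
theorem subC : SubC := pSubC pLag
theorem neq : Neq := pNeq kc pCnt
theorem subP : SubP := pSubP kc pCnt neq subV
theorem gel : Gel := pGel kc pCnt neq subV
theorem remD : RemD := pRemD subP

end Pool.Agent.MP_5168f5_an.AN.Pk
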