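import Pool.Agent.MP_5168f5_an.AN.LCSpec
import Pool.Agent.MP_5168f5_an.AN.PAll

/-! Kakeya sets in all dimensions: the projection condition is stable under domination. -/

namespace Pool.Agent.MP_5168f5_an.AN.LC

open H19 H17S H17F R4 Filter MvPolynomial
open Pk (cn)
open Nc (Pl ev)

namespace LCStabBA

theorem lipE {m : ℕ} {F : Pl m} {E : ℕ} (hF : F.totalDegree ≤ E) (hc : cn F ≤ 1) {a ε : ℝ}
    (ha : 0 ≤ a) {x y : V m} (hx : ‖x‖ ≤ Real.exp a) (hy : ‖y‖ ≤ Real.exp a) (e : ‖x - y‖ ≤ ε) :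
    |eval x F| ≤ Real.exp (E * a) ∧ |eval x F - eval y F| ≤ Real.exp (E + E * a) * ε := by
  have h1 := Real.one_le_exp ha
  have h0 := (norm_nonneg _).trans e
  have p : Real.exp a ^ E = Real.exp (E * a) := (Real.exp_nat_mul a E).symm
  have c0 := Pk.kc.nonneg F
  have hx' : ∀ i, |x i| ≤ Real.exp a := fun i => (norm_le_pi_norm x i).trans hx
  refine ⟨(Pk.kc.val F E _ x hF h1 hx').trans ?_, (Pk.kc.lip F E _ ε x y hF h1 h0 fun i =>
    ⟨hx' i, (norm_le_pi_norm y i).trans hy, (norm_le_pi_norm (x - y) i).trans e⟩).trans ?_⟩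
  · rw [p]
    exact mul_le_of_le_one_left (Real.exp_pos _).le hc
  · rw [p, Real.exp_add]
    refine mul_le_mul_of_nonneg_right (mul_le_mul_of_nonneg_right ?_ (Real.exp_pos _).le) h0
    exact (mul_le_of_le_one_right (Nat.cast_nonneg _) hc).trans
      (by linarith [Real.add_one_le_exp (E : ℝ)])

theorem lipV {m k : ℕ} {W : Fin k → Pl m} {E : ℕ} (hW : ∀ l, (W l).totalDegree ≤ E ∧ cn (W l) ≤ 1)
    {a ε : ℝ} (ha : 0 ≤ a) {x y : V m} (hx : ‖x‖ ≤ Real.exp a) (hy : ‖y‖ ≤ Real.exp a)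
    (e : ‖x - y‖ ≤ ε) :
    ‖ev W x‖ ≤ Real.exp (E * a) ∧ ‖ev W x - ev W y‖ ≤ Real.exp (E + E * a) * ε :=
  ⟨(pi_norm_le_iff_of_nonneg (Real.exp_pos _).le).2 fun l => (lipE (hW l).1 (hW l).2 ha hx hy e).1,
    (pi_norm_le_iff_of_nonneg (mul_nonneg (Real.exp_pos _).le ((norm_nonneg _).trans e))).2 fun l =>
      (lipE (hW l).1 (hW l).2 ha hx hy e).2⟩

theorem ex2 {a b c : ℝ} (h : a + 1 ≤ c) (h' : b + 1 ≤ c) :
    Real.exp a + Real.exp b ≤ Real.exp c := by
  have h1 : Real.exp a ≤ Real.exp (c - 1) := ex_le (by linarith)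
  have h2 : Real.exp b ≤ Real.exp (c - 1) := ex_le (by linarith)
  have h3 : Real.exp c = Real.exp (c - 1) * Real.exp 1 := by rw [← Real.exp_add]; ring_nf
  nlinarith [Real.add_one_le_exp (1 : ℝ), Real.exp_pos (c - 1)]

/-- A small move of the point moves the projection and the polynomial of it by a small amount. -/
theorem key {m k E G : ℕ} {W : Fin k → Pl m} (hW : ∀ l, (W l).totalDegree ≤ E ∧ cn (W l) ≤ 1)
    {u w : ℝ} (hu : 1 ≤ u) (hw : 0 ≤ w) {y z : V m} (hy : ‖y‖ ≤ Real.exp u)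
    (e : ‖z - y‖ ≤ Real.exp (-((G + 2 * G * E + 3 * E + 3) * (u + w)))) :
    ‖ev W z - ev W y‖ ≤ Real.exp (-(3 * u) - w) ∧ ∀ H : Pl k, H.totalDegree ≤ G → cn H = 1 →
      |eval (ev W z) H - eval (ev W y) H| ≤ Real.exp (-(3 * u) - w) := by
  have g0 : (0 : ℝ) ≤ G := Nat.cast_nonneg _
  have e0 : (0 : ℝ) ≤ E := Nat.cast_nonneg _
  have ge := mul_nonneg g0 e0
  have h2 : 0 ≤ 2 * u := by linarith
  have hy' : ‖y‖ ≤ Real.exp (2 * u) := hy.trans (ex_le (by linarith))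
  have hz : ‖z‖ ≤ Real.exp (2 * u) := by
    have e1 : ‖z - y‖ ≤ Real.exp 0 := e.trans (ex_le (neg_nonpos.2 (by positivity)))
    refine (norm_le_norm_add_norm_sub' z y).trans ((add_le_add hy e1).trans ?_)
    exact ex2 (by linarith) (by linarith)
  have a := lipV hW h2 hz hy' e
  have b := lipV hW h2 hy' hy' (le_refl _)
  have p1 := mul_nonneg g0 hw
  have p2 := mul_nonneg e0 hw
  have p3 := mul_nonneg ge hw
  have p4 := mul_le_mul_of_nonneg_left hu g0
  have p5 := mul_le_mul_of_nonneg_left hu e0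
  have p6 := mul_nonneg ge h2
  rw [← Real.exp_add] at a
  refine ⟨a.2.trans (ex_le (by nlinarith)), fun H hH hc => ?_⟩
  refine (lipE hH hc.le (mul_nonneg e0 h2) a.1 b.1 a.2).2.trans ?_
  rw [← Real.exp_add]
  exact ex_le (by nlinarith)

end LCStabBA

open LCStabBA in
theorem lcStabB : SStabB := by
  intro m κ σ ι hι
  obtain ⟨n, k, E, i⟩ := ι
  obtain ⟨n, rfl⟩ : ∃ n', n = n' + 4 := ⟨n - 4, by have : 4 ≤ n := hι; omega⟩
  have c3 : (3 : ℝ) ≤ σ.mg k E i + 2 * σ.mg k E i * E + 3 * E + 3 :=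
    le_add_of_nonneg_left (by positivity)
  refine ⟨σ.mg k E i + 2 * σ.mg k E i * E + 3 * E + 3, by linarith, ?_⟩
  intro Ω Q Q' y y' u w hu hw hy hD c hk h e W hW hH T hT
  have ky := fun v hv z => key (G := σ.mg k E i) (z := z) hW hu hw (hy v hv)
  generalize (σ.mg k E i + 2 * σ.mg k E i * E + 3 * E + 3 : ℝ) = C at *
  have cu : 3 * u ≤ C * u := mul_le_mul_of_nonneg_right c3 (by linarith)
  have hg : h / (σ.mg k E i + 1) ≤ w := by
    rw [div_le_iff₀ (by positivity)]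
    nlinarith [mul_nonneg hw (Nat.cast_nonneg (α := ℝ) (σ.mg k E i))]
  have c' := c hk h (by linarith) W hW (fun H d d' => ?_) T (hT.trans (ex_le (by linarith)))
  · refine (hD fun z => ∃ q ∈ T, ‖ev W z - q‖ ≤ Real.exp (-h - C * u)).trans
      ((mul_le_mul_of_nonneg_left ((pb_mono fun v hv g => ?_).trans c')
        (Real.exp_pos _).le).trans ?_)
    · obtain ⟨z, ⟨q, hq, g1⟩, g2⟩ := g
      refine ⟨q, hq, (norm_sub_le_norm_sub_add_norm_sub _ (ev W z) _).trans ?_⟩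
      rw [norm_sub_rev]
      exact (add_le_add (ky v hv z g2).1 g1).trans (ex2 (by linarith) (by linarith))
    · rw [← Real.exp_add]
      exact ex_le (by linarith)
  · have h1 := (hH H d d').trans ((hD fun z =>
      Real.exp (C * u - h / (σ.mg k E i + 1)) ≤ |eval (ev W z) H|).trans
        (mul_le_mul_of_nonneg_left (pb_mono (F := fun v =>
          Real.exp (u - h / (σ.mg k E i + 1)) ≤ |eval (ev W (y v)) H|) fun v hv g => ?_)
          (Real.exp_pos _).le))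
    · refine le_of_mul_le_mul_left (le_trans ?_ h1) (Real.exp_pos u)
      rw [← Real.exp_add]
      exact ex_le (by linarith)
    · obtain ⟨z, g1, g2⟩ := g
      have h2 := (abs_sub_abs_le_abs_sub _ _).trans ((ky v hv z g2).2 H d d')
      have h3 := ex2 (a := u - h / (σ.mg k E i + 1)) (b := -(3 * u) - w)
        (c := C * u - h / (σ.mg k E i + 1)) (by linarith) (by linarith)
      linarith

end Pool.Agent.MP_5168f5_an.AN.LC
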