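import Pool.Agent.MP_5168f5_an.AN.LCSpec

/-! Kakeya sets in all dimensions: stability of the first four conditions. -/

namespace Pool.Agent.MP_5168f5_an.AN.LC

open H19 H17S H17F R4 Filter

namespace LCStabCA

theorem tw2 {a b c : ℝ} (h : a + 1 ≤ c) (h' : b + 1 ≤ c) : Real.exp a + Real.exp b ≤ Real.exp c := by
  have := ex_le h
  have := ex_le h'
  rw [Real.exp_add] at *
  nlinarith [Real.add_one_le_exp 1, Real.exp_pos a, Real.exp_pos b]

theorem tr3 {m : ℕ} {z y q : V m} {a b : ℝ} (h : ‖z - q‖ ≤ a) (h' : ‖z - y‖ ≤ b) :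
    ‖y - q‖ ≤ a + b := by
  have := norm_sub_le_norm_sub_add_norm_sub y z q
  rw [norm_sub_rev y z] at this
  linarith

end LCStabCA

open LCStabCA in
theorem lcStabC : SStabA := by
  intro m κ σ ι hι
  obtain ⟨_ | _ | _ | _ | n, k, E, i⟩ := ι
  · refine ⟨1, le_rfl, fun Ω Q Q' y y' u w hu hw _ d ⟨τ, t1, t2⟩ => ⟨τ, t1, fun v hv => ?_⟩⟩
    obtain ⟨v', a, b⟩ := d.ex hv
    refine (t2 v' a).imp fun t e p => (abs_sub_le _ (y v' p) _).trans ((add_le_add
      ((norm_le_pi_norm (y' v - y v') p).trans b) (e p)).trans (tw2 ?_ ?_)) <;> linarith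
  · refine ⟨3, by norm_num, fun Ω Q Q' y y' u w hu hw _ d p h hh q => ?_⟩
    refine (d fun z => ‖z - q‖ ≤ Real.exp (-h)).trans ((mul_le_mul_of_nonneg_left
      ((pb_mono fun v _ ⟨z, a, b⟩ => (tr3 a b).trans (tw2 (by linarith) (by linarith))).trans
        (p (h - 1) (by linarith) q)) (Real.exp_pos _).le).trans ?_)
    rw [← Real.exp_add]
    exact ex_le (by linarith)
  · have g0 := abs_nonneg (σ.d + 1 - σ.cc : ℝ)
    refine ⟨1 + |σ.d + 1 - σ.cc|, by linarith, fun Ω Q Q' y y' u w hu hw _ d p h h0 hh => ?_⟩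
    have g1 := mul_le_mul_of_nonneg_left hu g0
    have g2 := mul_nonneg g0 hw
    obtain ⟨T, t1, t2⟩ := p (h + 1) (by linarith) (by nlinarith)
    refine ⟨T, t1.trans (ex_le (by nlinarith [le_abs_self (σ.d + 1 - σ.cc : ℝ)])), fun v hv => ?_⟩
    obtain ⟨v', a, b⟩ := d.ex hv
    obtain ⟨q, c, e⟩ := t2 v' a
    exact ⟨q, c, (tr3 e ((norm_sub_rev _ _).trans_le b)).trans (tw2 (by linarith) (by nlinarith))⟩
  · have g0 := Nat.cast_nonneg (α := ℝ) (σ.mb k)
    refine ⟨σ.mb k + 3, by linarith, fun Ω Q Q' y y' u w hu hw _ d p h hh s hs => ?_⟩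
    have g1 := mul_le_mul_of_nonneg_left hu g0
    have g2 := mul_le_mul_of_nonneg_left hh g0
    refine (d fun z => ∃ q, ‖z - Nc.ev s q‖ ≤ Real.exp (-((σ.mb k + 1) * h))).trans
      ((mul_le_mul_of_nonneg_left ((pb_mono fun v _ ⟨z, ⟨q, a⟩, b⟩ =>
        ⟨q, (tr3 a b).trans (tw2 (by linarith) (by nlinarith))⟩).trans
        (p (h - 1) (by nlinarith) s hs)) (Real.exp_pos _).le).trans ?_)
    rw [← Real.exp_add]
    exact ex_le (by nlinarith)
  · exact absurd hι (by simp)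

end Pool.Agent.MP_5168f5_an.AN.LC
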