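import Pool.Agent.MP_5168f5_an.AN.LCSpec

/-! Kakeya sets in all dimensions: good sets can be removed from the light class. -/

namespace Pool.Agent.MP_5168f5_an.AN.LC

open H19 H17S H17F R4 Filter MvPolynomial
open G39 (dl OB)

namespace LCWhpA

/-- One large event inside countably many likely events. -/
theorem cnt {Ω : ℕ → Type} {P : ∀ n, FP (Ω n)} {J : Type} [Countable J] [Nonempty J]
    {G : J → ∀ n, Ω n → Prop} (h : ∀ j, Whp P (G j)) : ∃ E : ∀ n, Ω n → Prop,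
    (∀ᶠ n in UF, 1 / 2 ≤ pb (P n) (E n)) ∧ ∀ j, ∀ᶠ n in UF, ∀ ω, E n ω → G j n ω := by
  obtain ⟨f, hf⟩ := exists_surjective_nat J
  obtain ⟨k, a, b⟩ := KSA.spill
    (fun k n => pb (P n) (fun ω => ¬∀ i : Fin (k + 1), G (f i) n ω) ≤ 1 / 2)
    fun k => Whp.all (fun i : Fin (k + 1) => h (f i)) _ one_half_pos
  refine ⟨fun n ω => ∀ i : Fin (k n + 1), G (f i) n ω, b.mono fun n c => ?_, fun j => ?_⟩
  · have := c _ le_rfl
    rw [pb_not] at this
    linarith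
  · obtain ⟨i, rfl⟩ := hf j
    exact (a.eventually_ge_atTop i).mono fun n c ω e => e ⟨i, Nat.lt_succ_of_le c⟩

theorem cv_cE {Ω β : Type} {P : FP Ω} {G : Ω → Prop} {ω : Ω} (h : ω ∈ P.S) (hG : G ω)
    (A : Ω → β) : cv (cE P G) A (A ω) = cE (cv P A (A ω)) G := by
  unfold cv
  rw [cE_cE (E := G) (E' := fun v => A v = A ω) ⟨ω, h, hG, rfl⟩,
    cE_cE (E := fun v => A v = A ω) (E' := G) ⟨ω, h, rfl, hG⟩]
  exact cE_congr fun _ _ => and_comm

end LCWhpA

open LCWhpA in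
theorem lcWhp : OfWhp := by
  intro tr gr m κ _ Ω Λ σ X h
  choose G₁ Γ₁ a₁ b₁ c₁ using h.inc
  choose G₂ Γ₂ a₂ b₂ c₂ using h.geo
  obtain ⟨E, e0, e1⟩ := cnt (P := sP X) (J := (Bool × ℚ≥0) ⊕ (Ix × ℚ≥0 × ℚ≥0))
    (G := Sum.elim (fun p => G₁ p.1 p.2) fun p => G₂ p.1 p.2.1 p.2.2)
    fun j => by rcases j with p | p; exacts [a₁ _ _, a₂ _ _ _]
  obtain ⟨G', g1, g2, g3⟩ := tr Ω Λ (sP X) (sM X) (sO X) E h.big fun c hc => by
    filter_upwards [e0, h.big.ev (1 / c)] with n a b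
    rw [div_le_iff₀ hc] at b
    refine le_trans ?_ a
    rw [dl, Real.exp_neg, ← one_div]
    exact one_div_le_one_div_of_le two_pos (by linarith [Real.add_one_le_exp (c * sM X n)])
  have hs := Pos.sure (P := sP X) (E := G')
    ⟨1 / 4, by norm_num, (e0.and g2).mono fun n a => by linarith [a.1, a.2]⟩
  refine ⟨fun n => (X n).chg (cE (X n).P (G' n)) (X n).j, lu_iff.2 ⟨h.l0.chg
    ((hs.and h.fr).mono fun n a ω hω => ⟨(a.1 ω hω).1, a.2.2.2 ω (a.1 ω hω).1⟩),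
    fun k a c hc T => ?_, fun ι a c hc T => ?_⟩⟩
  · filter_upwards [hs, e1 (.inl (k, a)), c₁ k a, (b₁ k a).2 c hc] with n s e d b ω hω v hv o
    refine (d ω (s ω hω).1 (e ω (g1 n ω (s ω hω).2)) v (s v hv).1 (e v (g1 n v (s v hv).2))
      o).imp fun t f => ⟨fun i => (f.1 i).trans ?_, f.2⟩
    rw [rd, if_pos (Finset.mem_univ i), mul_one]
    exact mul_le_mul_of_nonneg_right b (Real.exp_pos _).le
  · obtain ⟨C, C1, hC⟩ := gr m κ σ ι
    obtain ⟨q, q0, q1⟩ := exists_rat_btwn (div_pos hc (one_pos.trans_le C1))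
    lift q to ℚ≥0 using (by exact_mod_cast q0.le) with η
    rw [Rat.cast_nnratCast] at q0 q1
    rw [lt_div_iff₀ (one_pos.trans_le C1)] at q1
    filter_upwards [hs, h.big.ev 1, g3 (kd ι) a η q0,
      (eventually_all_finite (Set.finite_Iic ⌈max T 0 / η + 3⌉₊)).2 fun j _ =>
        (e1 (.inr (ι, a, j * η))).and ((c₂ ι a (j * η)).and ((b₂ ι a (j * η)).2 η q0))]
      with n s M1 g d ω hω
    obtain ⟨o1, o2⟩ := s ω hω
    have M0 : (0 : ℝ) < (X n).M := one_pos.trans_le M1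
    have k := hC _ ((X n).fb (kd ι) a ω) ((X n).ps σ a ω) (G' n) (η * (X n).M)
      (max T 0 * (X n).M) (mul_pos q0 M0) (mul_nonneg (le_max_right _ _) M0.le) (g ω o1 o2)
      fun j hj => by
        have hj' : (j : ℝ) ≤ max T 0 / η + 3 := by
          rw [div_add' _ _ _ q0.ne', le_div_iff₀ q0]
          exact le_of_mul_le_mul_right (by linarith) M0
        obtain ⟨d1, d2, d3⟩ := d j (Nat.cast_le.1 (hj'.trans (Nat.le_ceil _)))
        refine ⟨_, _, fun v _ hv => d1 v (g1 n v hv), (b₂ ι a (j * η)).1 n, d3, ?_⟩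
        have := d2 ω o1 (d1 ω (g1 n ω o2))
        rwa [NNRat.cast_mul, NNRat.cast_natCast, mul_assoc] at this
    rw [Dt.fb, ← cv_cE o1 o2] at k
    exact mo_ps σ ι _ _ _ _ _ _ (by nlinarith)
      (mul_le_mul_of_nonneg_right (le_max_left _ _) M0.le) k

end Pool.Agent.MP_5168f5_an.AN.LC
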