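import Pool.Agent.MP_5168f5_an.AN.LC1
import Pool.Agent.MP_5168f5_an.AN.LC2
import Pool.Agent.MP_5168f5_an.AN.LC3
import Pool.Agent.MP_5168f5_an.AN.LCTrim
import Pool.Agent.MP_5168f5_an.AN.LCTrimS
import Pool.Agent.MP_5168f5_an.AN.LCStabC
import Pool.Agent.MP_5168f5_an.AN.LCStabB
import Pool.Agent.MP_5168f5_an.AN.LCGrid
import Pool.Agent.MP_5168f5_an.AN.LCPs2
import Pool.Agent.MP_5168f5_an.AN.LCIn2
import Pool.Agent.MP_5168f5_an.AN.LCFrzF
import Pool.Agent.MP_5168f5_an.AN.LCPert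
import Pool.Agent.MP_5168f5_an.AN.LCWhp

/-! Kakeya sets in all dimensions: the closure properties of the light class. -/

namespace Pool.Agent.MP_5168f5_an.AN.LC

theorem sTrimS : STrimS := lcTrimS lcTrim

theorem sPert : SPert := lcPert lcPs2 lcIn2

theorem sTr : STr := lcTr lcStabC lcStabB sPert

theorem sRes : SRes := lcRes sTrimS sTr

theorem sFrz : SFrz := lcFrz (lcFrzF lcTrim) sPert sTr

theorem sWhp : SWhp := lcWhp sTrimS lcGrid

end Pool.Agent.MP_5168f5_an.AN.LC
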