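import Pool.Agent.MP_5168f5_an.AN.LPDef
import Pool.Agent.MP_5168f5_an.AN.LCAll

/-! The light class with one abstract extra condition: limits, zoom, moves, restriction. -/

namespace Pool.Agent.MP_5168f5_an.AN.LP

open H19 H17S H17F R4 Filter LC
open G39 (dl)
open GA (Mt Nr)
open S20 (mem_cv pb_cv_cE)

section

variable {m : ℕ} {κ : Type} [Fintype κ] {Ω Λ : ℕ → Type} {σ : St m κ} {S : Bool → Finset κ}
  {X : ∀ n, Dt m κ (Ω n) (Λ n)}

theorem cf_li (σ : St m κ) (S : Bool → Finset κ) : CF (LI (Ω := Ω) (Λ := Λ) σ S) :=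
  ((cf_l0 σ S).and (cf_all fun k => cf_all fun a => cf_au (S := fun n => Dt m κ (Ω n) (Λ n))
    (fun _ x => x.M) (fun _ x => x.IncU σ (S k) k a) fun _ x => x.mo_inc σ _ k a)).congr
    fun _ => lu_iff.trans ⟨fun h => ⟨h.toL0, h.inc⟩, fun h => ⟨h.1, h.2⟩⟩

omit [Fintype κ] in
theorem cmp_idx (h : Big (sM X)) (a : ℚ≥0) {e : ℚ≥0} (he : 0 < e) :
    Cmp (sM X) (sM fun n => (X n).idx a e) :=
  cmp_of h (by exact_mod_cast he) (eqv_floor h (by exact_mod_cast he))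

theorem LI.idx (hX : LI σ S X) (a : ℚ≥0) {e : ℚ≥0} (he : 0 < e) :
    LI σ S fun n => (X n).idx a e := by
  have h := lu_iff.1 hX
  have q := eqv_floor h.big (show (0 : ℝ) < e by exact_mod_cast he)
  have c := cmp_idx h.big a he
  obtain ⟨C, hC⟩ := id c
  refine lu_iff.2 ⟨⟨h.cc, h.lo, h.lp, h.wp, h.ss, c.big h.big, fun b => ?_, h.fr,
    h.bd.unit c fun n => (X n).mo_bd, fun k x hx y hy z hz => (h.sub k x hx y hy z hz).up (C := C)
      (hC.mono fun n d => by exact_mod_cast d.2), fun k b b' d => h.nest k _ _ (by gcongr),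
    fun b => h.com _⟩, fun k b => (h.inc k _).unit c fun n => (X n).mo_inc σ _ k _⟩
  have b0 : (0 : ℝ) ≤ b := by positivity
  have h1 := h.lv (a + e * b)
  have h2 := h.lv (a + e * 0)
  refine ⟨c.le (((h1.1.add h2.2).add (q.2.smul b0)).of_sub (Eventually.of_forall fun n => ?_)),
    c.le (((h1.2.add h2.1).add (q.1.smul b0)).of_sub (Eventually.of_forall fun n => ?_))⟩ <;>
  · simp only [Dt.idx, un]
    push_cast
    linarith

theorem cls_rfl (h : LI σ S X) : Cls σ X (sP X) fun n => (X n).j := fun T =>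
  h.fr.mono fun n f ω _ => ⟨0, fun a => by
    rw [Pi.zero_apply, abs_zero]
    exact mul_nonneg (G39.dl_pos _ _ _).le (Real.exp_pos _).le, by
    rw [(GA.sMul _ _ _ _ _ f.1).zero, mul_one]⟩

theorem cls_lv (h : LU σ S X) {j : ∀ n, Ω n → Mt (Fin m)} (hj : Cls σ X (sP X) j) (a : ℚ≥0)
    (T : ℝ) : ∀ᶠ n in UF, ∀ ω ∈ (X n).P.S, Nr (X n).B
      (fun b => Real.exp (-(σ.wt b * (X n).lv a))) (Real.exp (-(T * (X n).M)))
      ((X n).j ω) (j n ω) := by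
  filter_upwards [hj (T + (∑ b, σ.wt b) * (a + 1)), (h.lv a).1 1 one_pos] with n e f ω hω
  refine LCPertA.nr_mono (e ω hω) fun b => ?_
  have g : σ.wt b ≤ ∑ b, σ.wt b :=
    Finset.single_le_sum (fun b _ => (h.wp b).le) (Finset.mem_univ b)
  have i : (0 : ℝ) ≤ ((a : ℝ) + 1) * (X n).M := by positivity
  have f1 := mul_le_mul_of_nonneg_left f (h.wp b).le
  have f2 := mul_le_mul_of_nonneg_right g i
  unfold dl
  rw [← Real.exp_add, ← Real.exp_add]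
  refine ex_le ?_
  dsimp only [sM] at f1 ⊢
  linarith

open LCPertA in
/-- Positions inside atoms are bounded; negligible changes of the group element. -/
theorem pert (hX : LI σ S X) :
    (∀ k a (c : ℝ), 0 < c → ∀ᶠ n in UF, ∀ ω ∈ (X n).P.S, ∀ v ∈ ((X n).fb k a ω).S,
      ‖(X n).ps σ a ω v‖ ≤ Real.exp (c * (X n).M)) ∧
    ∀ j : ∀ n, Ω n → Mt (Fin m), Cls σ X (sP X) j →
      (∀ᶠ n in UF, ∀ ω ∈ (X n).P.S, IsUnit (j n ω)) ∧
      (∀ k a, Au (sM X) fun n => ((X n).chg (X n).P (j n)).IncU σ (S k) k a) ∧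
      ∀ k a (T : ℝ), ∀ᶠ n in UF, ∀ ω ∈ (X n).P.S, ∀ v ∈ ((X n).fb k a ω).S,
        ‖((X n).chg (X n).P (j n)).ps σ a ω v - (X n).ps σ a ω v‖ ≤ dl (sM X) T n := by
  have h := lu_iff.1 hX
  obtain ⟨K, hK, h1⟩ := lcPs2 m κ σ h.lo
  obtain ⟨K', hK', h2⟩ := lcIn2 m κ σ
  have k : (0 : ℝ) < K := by exact_mod_cast hK
  have k' : (0 : ℝ) < K' := by exact_mod_cast hK'
  have one : ∀ (c : ℝ) (n : ℕ), 0 ≤ c → 1 ≤ Real.exp (c * (X n).M) := fun c n hc =>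
    Real.one_le_exp (by positivity)
  have le : ∀ (c : ℝ) (n : ℕ), 0 ≤ c → Real.exp (-(c * (X n).M)) ≤ 1 := fun c n hc =>
    Real.exp_le_one_iff.2 (neg_nonpos.2 (by positivity))
  refine ⟨fun k a c hc => ?_, fun j hj => ⟨?_, fun k a c hc T => ?_, fun k a T => ?_⟩⟩
  · have e : 0 < c / (2 * K) := by positivity
    filter_upwards [h.inc k a _ e 0, h.bd _ e 0, h.fr, pw h.big hK hc] with n i b f p ω hω v hv
    obtain ⟨hv, o⟩ := (mem_cv hω v).1 hv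
    exact (h1 _ _ _ _ 0 _ _ 0 0 f.1 f.2.1 b.1 (one _ n e.le) le_rfl zero_le_one (f.2.2 ω hω)
      (of_rd (le 0 n le_rfl) (Real.exp_pos _).le (i ω hω v hv o.symm))).1.trans p
  · filter_upwards [hj 0, h.fr] with n e f ω hω
    obtain ⟨t, -, e⟩ := e ω hω
    have g := (GA.sMul _ _ _ _ _ f.1).neg t
    exact e ▸ (f.2.2 ω hω).mul ⟨⟨_, _, g.2, g.1⟩, rfl⟩
  · have e : 0 < c / (2 * K') := by positivity
    have s : ∀ᶠ n in UF, ∀ b b' d, b ∈ S k → b' ∈ S k → d ∉ S k →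
        |(X n).c b b' d| ≤ dl (sM X) |T| n := by
      refine eventually_all.2 fun b => eventually_all.2 fun b' => eventually_all.2 fun d => ?_
      by_cases g : b ∈ S k ∧ b' ∈ S k ∧ d ∉ S k
      · exact (h.sub k b g.1 b' g.2.1 d g.2.2 |T|).mono fun n i _ _ _ => i
      · exact Eventually.of_forall fun n x y z => absurd ⟨x, y, z⟩ g
    filter_upwards [h.inc k a _ e |T|, h.bd _ e 0, h.fr, pw h.big hK' hc, s, cls_lv h hj a |T|]
      with n i b f p s q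
    refine Dt.mo_inc σ _ _ k a _ _ _ _ le_rfl
      (mul_le_mul_of_nonneg_right (le_abs_self T) (Nat.cast_nonneg _)) fun ω hω v hv o => ?_
    have t := le |T| n (abs_nonneg T)
    have r := fun ω hω => to_rd (S k) (Real.exp_pos _).le t (one _ n e.le) (q ω hω)
    exact nr_mono (h2 _ _ _ _ _ _ _ _ _ _ f.1 f.2.1 b.1 b.2 (one _ n e.le) (Real.exp_pos _).le t
      (fun x hx y hy z hz => s x y z hx hy hz) (i ω hω v hv o) (r ω hω) (r v hv)) fun b =>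
      mul_le_mul_of_nonneg_right p (Dt.rd_nonneg _ _ _ (Real.exp_pos _).le _)
  · have e : 0 < 1 / (2 * (K : ℝ)) := by positivity
    filter_upwards [h.inc k a _ e 0, h.bd _ e 0, h.fr, pw h.big hK one_pos,
      cls_lv h hj a (|T| + 1)] with n i b f p q ω hω v hv
    obtain ⟨hv, o⟩ := (mem_cv hω v).1 hv
    refine ((h1 _ _ _ _ _ _ _ _ _ f.1 f.2.1 b.1 (one _ n e.le) (Real.exp_pos _).le
      (le (|T| + 1) n (by positivity)) (f.2.2 ω hω)
      (of_rd (le 0 n le_rfl) (Real.exp_pos _).le (i ω hω v hv o.symm))).2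
      (q ω hω) (q v hv)).trans
      ((mul_le_mul_of_nonneg_right p (Real.exp_pos _).le).trans ?_)
    unfold dl
    rw [← Real.exp_add]
    refine ex_le ?_
    have := mul_le_mul_of_nonneg_right (le_abs_self T) (Nat.cast_nonneg (α := ℝ) (X n).M)
    dsimp only [sM]
    linarith


variable {G : ∀ n, Ω n → Prop} {j : ∀ n, Ω n → Mt (Fin m)} {w : ∀ n, Ω n → ℝ}

theorem Mv.sup (h : Mv σ X G j w) :
    ∀ᶠ n in UF, ∀ ω, ω ∈ (cE (X n).P (G n)).S ↔ ω ∈ (X n).P.S ∧ G n ω :=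
  h.ne.mono fun _ a ω => mem_cE a ω

/-- The base class is stable under moves. -/
theorem LI.chg (hX : LI σ S X) (hj : Cls σ X (sP X) j) (G : ∀ n, Ω n → Prop) :
    LI σ S fun n => (X n).chg (cE (X n).P (G n)) (j n) :=
  lu_iff.2 ⟨(lu_iff.1 hX).toL0.chg ((((pert hX).2 j hj).1).mono fun _ a ω hω =>
    ⟨cE_sub hω, a ω (cE_sub hω)⟩), fun k a c hc T => ((((pert hX).2 j hj).2.1) k a c hc T).mono
      fun _ x ω hω v hv => x ω (cE_sub hω) v (cE_sub hv)⟩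

/-- Trimming for countably many partitions. -/
theorem trim {J : Type} [Countable J] [Nonempty J] {Λ : ℕ → Type} (P : ∀ n, FP (Ω n))
    {M : ℕ → ℕ} (O : J → ∀ n, Ω n → Λ n) (G : ∀ n, Ω n → Prop) (hM : Big M)
    (hG : ∀ c : ℝ, 0 < c → ∀ᶠ n in UF, dl M c n ≤ pb (P n) (G n)) :
    ∃ G' : ∀ n, Ω n → Prop, (∀ n ω, G' n ω → G n ω) ∧
      (∀ᶠ n in UF, pb (P n) (G n) ≤ 2 * pb (P n) (G' n)) ∧
      ∀ i (c : ℝ), 0 < c → ∀ᶠ n in UF, ∀ ω ∈ (P n).S, G' n ω →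
        dl M c n ≤ pb (cv (P n) (O i n) (O i n ω)) (G' n) := by
  obtain ⟨f, hf⟩ := exists_surjective_nat J
  obtain ⟨G', a, b, c⟩ := sTrimS Ω Λ P M (fun _ q => O (f ⌊q⌋₊)) G hM hG
  refine ⟨G', a, b, fun i => ?_⟩
  obtain ⟨k, rfl⟩ := hf i
  simpa only [Nat.floor_natCast] using c true k

/-- Restriction is a move. -/
theorem LI.res (h : LI σ S X) (G : ∀ n, Ω n → Prop)
    (hG : ∀ c : ℝ, 0 < c → ∀ᶠ n in UF, dl (sM X) c n ≤ pb (X n).P (G n)) :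
    ∃ G' : ∀ n, Ω n → Prop, (∀ n ω, G' n ω → G n ω) ∧
      (∀ᶠ n in UF, pb (X n).P (G n) ≤ 2 * pb (X n).P (G' n)) ∧
      (∀ k a (c : ℝ), 0 < c → ∀ᶠ n in UF, ∀ ω ∈ (X n).P.S, G' n ω →
        dl (sM X) c n ≤ pb ((X n).fb k a ω) (G' n)) ∧
      Mv σ X G' (fun n => (X n).j) fun _ _ => 1 := by
  obtain ⟨G', g1, g2, g3⟩ := trim (sP X) (fun (i : Bool × Bool × ℚ≥0 × ℚ≥0) n ω =>
    ((X n).O i.1 i.2.2.1 ω, (X n).O i.2.1 i.2.2.2 ω)) G h.big hG
  have g4 : ∀ k a (c : ℝ), 0 < c → ∀ᶠ n in UF, ∀ ω ∈ (X n).P.S, G' n ω →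
      dl (sM X) c n ≤ pb ((X n).fb k a ω) (G' n) := fun k a c hc =>
    (g3 (k, k, a, a) c hc).mono fun n x ω hω g => (x ω hω g).trans_eq
      (congrArg (pb · _) (cE_congr fun _ _ => by simp))
  refine ⟨G', g1, g2, g4, ?_, cls_rfl h, fun _ _ _ => ⟨one_pos, le_rfl⟩,
    fun a a' => g3 (true, false, a, a'),
    fun a c hc => (g4 false a c hc).mono fun n x ω hω g => (mul_one _).trans_le (x ω hω g),
    fun a a' c hc => Eventually.of_forall fun n ω _ _ F _ => mul_le_mul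
      (Real.exp_le_one_iff.2 (neg_nonpos.2 (by positivity))) (pb_mono fun _ _ k => k.2)
      (pb_nonneg _ _) zero_le_one⟩
  filter_upwards [g2, hG 1 one_pos] with n a b
  exact ex_of_pb (by linarith [G39.dl_pos (sM X) 1 n])

variable [Ex m κ Ω Λ]

theorem cf_l (σ : St m κ) (S : Bool → Finset κ) : CF (L (Ω := Ω) (Λ := Λ) σ S) :=
  ((cf_li σ S).and (Ex.cf σ)).congr fun _ => ⟨fun h => ⟨h.1, h.2⟩, fun h => ⟨h.1, h.2⟩⟩

theorem L.mv (hX : L σ S X) (h : Mv σ X G j w) :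
    L σ S fun n => (X n).chg (cE (X n).P (G n)) (j n) :=
  ⟨hX.toLI.chg h.cls G, Ex.mv σ S X G j w hX.toLI h hX.ex⟩

/-- Shift and zoom by any fixed amounts. -/
theorem idx_all (a : ℚ≥0) {e : ℚ≥0} (he : 0 < e) (hX : L σ S X) :
    L σ S (fun n => (X n).idx a e) ∧
      ∀ L₀, AC σ S L₀ X → AC σ S L₀ fun n => (X n).idx a e :=
  ⟨⟨hX.toLI.idx a he, Ex.idx σ S X a e he hX.toLI hX.ex⟩, fun L₀ g => ac_iff.2 fun k _ =>
    (ac_iff.1 g k _).unit (cmp_idx hX.big a he) fun n => (X n).mo_ac σ _ L₀ k _⟩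

end

theorem sCF (m : ℕ) (κ : Type) [Fintype κ] (Ω Λ : ℕ → Type) [Ex m κ Ω Λ] (σ : St m κ)
    (S : Bool → Finset κ) (L₀ : ℝ) :
    CF (L (Ω := Ω) (Λ := Λ) σ S) ∧ CF (AC (Ω := Ω) (Λ := Λ) σ S L₀) :=
  ⟨cf_l σ S, (LC.sCF m κ Ω Λ σ S L₀).2⟩

theorem sZoom : SZoom := fun m κ _ Ω Λ _ σ S X M₀ L₀ hX h0 => by
  have hM := hX.big
  let e : ℕ → ℚ≥0 := fun k => 1 / (k + 1)
  have e0 : ∀ k, 0 < e k := fun k => by positivity
  have e1 : ∀ k, (e k : ℝ) = 1 / (k + 1 : ℝ) := fun k => by simp [e]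
  let T := fun n => Dt m κ (Ω n) (Λ n) × ℝ
  obtain ⟨k, hk, h⟩ := cf_diag (K := fun _ (Y : ∀ n, T n) =>
      L σ S (fun n => (Y n).1) ∧ (∀ _ : AC σ S L₀ X, AC σ S L₀ fun n => (Y n).1) ∧
        Sm (fun n => (Y n).1.M) fun n => (Y n).2)
    (fun _ => (((sCF m κ Ω Λ σ S L₀).1.comp (S' := T) fun _ y => y.1).and ((cf_all fun _ =>
      (sCF m κ Ω Λ σ S L₀).2.comp (S' := T) fun _ y => y.1).and
        (cf_sm (S := T) (fun _ y => y.1.M) fun _ y => y.2))))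
    (fun k n => ((X n).idx 0 (e k), M₀ n)) fun k _ _ => ⟨(idx_all 0 (e0 k) hX).1,
      (idx_all 0 (e0 k) hX).2 L₀, (cmp_of hM (by exact_mod_cast e0 k)
        (eqv_floor hM (by exact_mod_cast e0 k))).le h0⟩
  refine ⟨fun n => e (k n), (h 0).1, (h 0).2.1, fun ε hε => ?_, (h 0).2.2⟩
  filter_upwards [K31.small hε hk] with n a
  rw [zero_add, ← e1] at *
  exact (Nat.floor_le (by positivity)).trans (mul_le_mul_of_nonneg_right a (Nat.cast_nonneg _))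

theorem sRes : SRes := by
  intro m κ _ Ω Λ _ σ S X G h hG
  obtain ⟨G', g1, g2, g3, g4⟩ := h.toLI.res G hG
  refine ⟨G', g1, g2, g3, h.mv g4, fun L₀ g => ac_iff.2 fun k a c hc T => ?_⟩
  filter_upwards [g4.sup, g3 k a _ (half_pos hc), ac_iff.1 g k a _ (half_pos hc) T]
    with n x y z ω hω t ht l c₀ l1 l2 l3
  obtain ⟨o1, o2⟩ := (x ω).1 hω
  refine (pb_res o1 o2 (y ω o1 o2) _).trans
    ((mul_le_mul_of_nonneg_left (z ω o1 t ht l c₀ l1 l2 l3) (Real.exp_pos _).le).trans ?_)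
  rw [← Real.exp_add]
  exact ex_le (by linarith)

end Pool.Agent.MP_5168f5_an.AN.LP
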