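import Pool.Agent.MP_5168f5_an.AN.LCSpec

/-! Kakeya sets in all dimensions: diagonal limits, shift and zoom of the light class. -/

namespace Pool.Agent.MP_5168f5_an.AN.LC

open H19 H17S H17F R4 Filter
open G39 (dl)
open GA (Neg)

theorem cf_au {S : ℕ → Type} (M : ∀ n, S n → ℕ) (ψ : ∀ n, S n → ℝ → ℝ → Prop)
    (h : ∀ n x, Mo (ψ n x)) : CF fun x : ∀ n, S n => Au (fun n => M n (x n)) fun n => ψ n (x n) :=
  (cf_eps (p := fun ε n x => ψ n x (ε * M n x) (M n x / ε)) fun _ _ n x a b => h n x _ _ _ _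
    (mul_le_mul_of_nonneg_right b (Nat.cast_nonneg _))
    (div_le_div_of_nonneg_left (Nat.cast_nonneg _) a b)).congr fun x =>
      (al_iff fun n => h n (x n)).symm

theorem neg_iff {M : ℕ → ℕ} {a : ℕ → ℝ} : Neg M a ↔ Au M fun n _ w => |a n| ≤ Real.exp (-w) :=
  ⟨fun h _ _ T => h T, fun h T => h 1 one_pos T⟩

theorem Au.unit {M M' : ℕ → ℕ} {ψ : ℕ → ℝ → ℝ → Prop} (e : Au M ψ) (h : Cmp M M')
    (hm : ∀ n, Mo (ψ n)) : Au M' ψ := fun c hc T => by
  obtain ⟨c', hc', k⟩ := h.dl hc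
  obtain ⟨T', k'⟩ := h.symm.dl' T
  filter_upwards [e c' hc' T', k, k'] with n a b d
  exact hm n _ _ _ _ (neg_le_neg_iff.1 (Real.exp_le_exp.1 b))
    (neg_le_neg_iff.1 (Real.exp_le_exp.1 d)) a

section

variable {m : ℕ} {κ : Type} [Fintype κ] {Ω Λ : ℕ → Type} (σ : St m κ) (S : Bool → Finset κ)

theorem cf_l0 : CF (L0 (Ω := Ω) (Λ := Λ) σ S) := by
  let T := fun n => Dt m κ (Ω n) (Λ n)
  have h1 := cf_const (S := T) (0 < σ.cc ∧ σ.la σ.o = 0 ∧ (∀ p, p ≠ σ.o → 0 < σ.la p) ∧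
    (∀ a, 0 < σ.wt a) ∧ S true ⊆ S false)
  have h2 := cf_big (S := T) fun _ x => x.M
  have h3 := cf_all fun a : ℚ≥0 =>
    (cf_le (S := T) (fun _ x => x.M) (fun _ x => x.lv a - x.lv 0) fun _ x => (a : ℝ) * x.M).and
      (cf_le (S := T) (fun _ x => x.M) (fun _ x => (a : ℝ) * x.M) fun _ x => x.lv a - x.lv 0)
  have h4 := cf_ev (S := T) fun _ x => x.Fr σ
  have h5 := cf_au (S := T) (fun _ x => x.M) (fun _ x u _ => x.BdU u) fun _ x => x.mo_bd
  have h6 := cf_all fun k => cf_all fun a => cf_all fun _ : a ∈ S k => cf_all fun b =>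
    cf_all fun _ : b ∈ S k => cf_all fun e => cf_all fun _ : e ∉ S k =>
      cf_au (S := T) (fun _ x => x.M) (fun _ x _ w => |x.c a b e| ≤ Real.exp (-w))
        fun _ _ _ _ _ _ _ c d => d.trans (ex_le (neg_le_neg c))
  have h7 := cf_all fun k => cf_all fun a => cf_all fun a' => cf_all fun _ : a ≤ a' =>
    cf_ev (S := T) fun _ x => Fn x.P (x.O k a) (x.O k a')
  have h8 := cf_all fun a => cf_ev (S := T) fun _ x => Fn x.P (x.O false a) (x.O true a)
  exact (h1.and (h2.and (h3.and (h4.and (h5.and (h6.and (h7.and h8))))))).congr fun X =>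
    ⟨fun h => ⟨⟨h.cc, h.lo, h.lp, h.wp, h.ss⟩, h.big, h.lv, h.fr, h.bd,
      fun k a x b y e z => neg_iff.1 (h.sub k a x b y e z), h.nest, h.com⟩,
    fun ⟨⟨a, b, c, d, e⟩, f, g, i, j, k, l, p⟩ => ⟨a, b, c, d, e, f, g, i, j,
      fun s a x b y e z => neg_iff.2 (k s a x b y e z), l, p⟩⟩

end

theorem sCF : SCF := fun m κ _ Ω Λ σ S L₀ => by
  let T := fun n => Dt m κ (Ω n) (Λ n)
  refine ⟨((cf_l0 σ S).and ((cf_all fun k => cf_all fun a => cf_au (S := T) (fun _ x => x.M)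
    (fun _ x => x.IncU σ (S k) k a) fun _ x => x.mo_inc σ _ k a).and
    (cf_all fun ι => cf_all fun a => cf_au (S := T) (fun _ x => x.M)
    (fun _ x => x.Geo σ ι a) fun _ x => x.mo_geo σ ι a))).congr fun X => lu_iff.trans
      ⟨fun h => ⟨h.toL0, h.inc, h.geo⟩, fun h => ⟨h.1, h.2.1, h.2.2⟩⟩,
    (cf_all fun k => cf_all fun a => cf_au (S := T) (fun _ x => x.M)
    (fun _ x => x.AcU σ (S k) L₀ k a) fun _ x => x.mo_ac σ _ L₀ k a).congr fun X => ac_iff⟩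

theorem eqv_floor {M : ℕ → ℕ} (h : Big M) {e : ℝ} (he : 0 < e) :
    Eqv M (fun n => (⌊e * M n⌋₊ : ℝ)) (un M e) :=
  ⟨Le.of_le fun n => Nat.floor_le (by positivity), fun ε hε => (h.ev (1 / ε)).mono fun n a => by
    rw [div_le_iff₀' hε] at a
    have := Nat.lt_floor_add_one (e * M n)
    simp only [un]
    linarith⟩

/-- Shift and zoom by any fixed amounts. -/
theorem idx_all {m : ℕ} {κ : Type} [Fintype κ] {Ω Λ : ℕ → Type} {σ : St m κ}
    {S : Bool → Finset κ} {X : ∀ n, Dt m κ (Ω n) (Λ n)} (a : ℚ≥0) {e : ℚ≥0} (he : 0 < e)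
    (hX : L σ S X) : L σ S (fun n => (X n).idx a e) ∧
      ∀ L₀, AC σ S L₀ X → AC σ S L₀ fun n => (X n).idx a e := by
  have h := lu_iff.1 hX
  have e0 : (0 : ℝ) < e := by exact_mod_cast he
  have q := eqv_floor h.big e0
  have c : Cmp (sM X) (sM fun n => (X n).idx a e) := cmp_of h.big e0 q
  obtain ⟨C, hC⟩ := id c
  refine ⟨lu_iff.2 ⟨⟨h.cc, h.lo, h.lp, h.wp, h.ss, c.big h.big, fun b => ?_, h.fr,
    h.bd.unit c fun n => (X n).mo_bd, fun k x hx y hy z hz => (h.sub k x hx y hy z hz).up (C := C)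
      (hC.mono fun n d => by exact_mod_cast d.2), fun k b b' d => h.nest k _ _ (by gcongr),
    fun b => h.com _⟩, fun k b => (h.inc k _).unit c fun n => (X n).mo_inc σ _ k _,
    fun ι b => (h.geo ι _).unit c fun n => (X n).mo_geo σ ι _⟩,
    fun L₀ g => ac_iff.2 fun k b => (ac_iff.1 g k _).unit c fun n => (X n).mo_ac σ _ L₀ k _⟩
  have b0 : (0 : ℝ) ≤ b := by positivity
  have h1 := h.lv (a + e * b)
  have h2 := h.lv (a + e * 0)
  refine ⟨c.le (((h1.1.add h2.2).add (q.2.smul b0)).of_sub (Eventually.of_forall fun n => ?_)),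
    c.le (((h1.2.add h2.1).add (q.1.smul b0)).of_sub (Eventually.of_forall fun n => ?_))⟩ <;>
  · simp only [Dt.idx, un]
    push_cast
    linarith

theorem sIdx : SIdx := fun _ _ _ _ _ _ _ _ a _ he _ h => idx_all a he h

theorem sZoom : SZoom := fun m κ _ Ω Λ σ S X M₀ L₀ hX h0 => by
  have hM := hX.big
  let e : ℕ → ℚ≥0 := fun k => 1 / (k + 1)
  have e0 : ∀ k, 0 < e k := fun k => by positivity
  have e1 : ∀ k, (e k : ℝ) = 1 / (k + 1 : ℝ) := fun k => by simp [e]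
  let T := fun n => Dt m κ (Ω n) (Λ n) × ℝ
  obtain ⟨k, hk, h⟩ := cf_diag (K := fun _ (Y : ∀ n, T n) =>
      L σ S (fun n => (Y n).1) ∧ (∀ _ : AC σ S L₀ X, AC σ S L₀ fun n => (Y n).1) ∧
        Sm (fun n => (Y n).1.M) fun n => (Y n).2)
    (fun _ => (((sCF m κ Ω Λ σ S L₀).1.comp (S' := T) fun _ y => y.1).and ((cf_all fun _ =>
      (sCF m κ Ω Λ σ S L₀).2.comp (S' := T) fun _ y => y.1).and
        (cf_sm (S := T) (fun _ y => y.1.M) fun _ y => y.2))))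
    (fun k n => ((X n).idx 0 (e k), M₀ n)) fun k _ _ => ⟨(idx_all 0 (e0 k) hX).1,
      (idx_all 0 (e0 k) hX).2 L₀, (cmp_of hM (by exact_mod_cast e0 k)
        (eqv_floor hM (by exact_mod_cast e0 k))).le h0⟩
  refine ⟨fun n => e (k n), (h 0).1, (h 0).2.1, fun ε hε => ?_, (h 0).2.2⟩
  filter_upwards [K31.small hε hk] with n a
  rw [zero_add, ← e1] at *
  exact (Nat.floor_le (by positivity)).trans (mul_le_mul_of_nonneg_right a (Nat.cast_nonneg _))

end Pool.Agent.MP_5168f5_an.AN.LC
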