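import Pool.Agent.MP_5168f5_an.AN.S20Dn
import Pool.Agent.MP_5168f5_an.AN.Defs

/-! Kakeya sets in all dimensions: conditional densities and lists along sequences. -/

namespace Pool.Agent.MP_5168f5_an.AN.S20

open H19 H17S H17F R4 Filter G39

section One

variable {Ω α β : Type} {P : FP Ω} {Y : Ω → α} {A : Ω → β} {G : Ω → Prop} {N : ℝ}

/-- A likely event is likely in most contexts. -/
theorem half (P : FP Ω) (A : Ω → β) (G : Ω → Prop) :
    pb P (fun ω => ¬1 / 2 ≤ pb (cv P A (A ω)) G) ≤ 2 * pb P fun v => ¬G v := by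
  have k := pb_fib P A (fun z => ¬1 / 2 ≤ pb (cv P A z) G) (fun _ v => ¬G v) (κ := 1 / 2)
    fun ω _ e => by
      rw [pb_not]
      linarith [not_le.1 e]
  linarith [k.trans (pb_mono (F := fun v => ¬G v) fun _ _ e => e.2)]

theorem dn_mul {ω : Ω} (h : ω ∈ P.S) (G : Ω → Prop) :
    dn P Y A ω * pb (cv P (fun v => (Y v, A v)) (Y ω, A ω)) G =
      pb (cv P A (A ω)) fun v => G v ∧ Y v = Y ω := by
  have h2 := pb_val h fun v => (Y v, A v)
  have e1 : pb P (fun v => A v = A ω ∧ Y v = Y ω) = pb P fun v => (Y v, A v) = (Y ω, A ω) :=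
    pb_congr fun v _ => by simp [and_comm]
  have e2 : pb P (fun v => A v = A ω ∧ G v ∧ Y v = Y ω) =
      pb P fun v => (Y v, A v) = (Y ω, A ω) ∧ G v :=
    pb_congr fun v _ => by simp only [Prod.mk.injEq]; tauto
  rw [dn_eq h, pb_cv' h fun v => (Y v, A v), pb_cv' h, e1, e2]
  field_simp

theorem few_of_det (h0 : 0 ≤ N) (h : (∃ ω ∈ P.S, G ω) → Det (cE P G) Y A N) : Few P Y A G N :=
  fun a _ => by
  by_cases c : ∃ b ∈ P.S, A b = A a ∧ G b
  · obtain ⟨b, b1, b2, b3⟩ := c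
    have ex : ∃ ω ∈ P.S, G ω := ⟨b, b1, b3⟩
    obtain ⟨T, t1, t2⟩ := h ex b ((mem_cE ex b).2 ⟨b1, b3⟩)
    exact ⟨T, t1, fun v hv e g => t2 v ((mem_cE ex v).2 ⟨hv, g⟩) (e.trans b2.symm)⟩
  · exact ⟨∅, by simpa using h0, fun v hv e g => (c ⟨v, hv, e, g⟩).elim⟩

theorem Few.det (h : Few P Y A G N) (ex : ∃ ω ∈ P.S, G ω) : Det (H17F.cE P G) Y A N :=
  fun a ha => (h a (cE_sub ha)).imp fun _ k =>
    ⟨k.1, fun v hv e => k.2 v (cE_sub hv) e ((mem_cE ex v).1 hv).2⟩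

end One

section Gp

variable {Ω : ℕ → Type} {P : ∀ n, FP (Ω n)} {M : ℕ → ℕ} {q q' : ∀ n, Ω n → ℝ → Prop}
  {E : ∀ n, Ω n → Prop}

theorem gp_iff : Gp P M q ↔ ∃ Γ, Sub M Γ ∧ Whp P fun n ω => q n ω (Γ n) :=
  ⟨fun ⟨_, Γ, a, b, c⟩ => ⟨Γ, b, a.mono c⟩,
    fun ⟨Γ, a, b⟩ => ⟨_, Γ, b, a, Eventually.of_forall fun _ _ _ k => k⟩⟩

theorem gp_of_wp (h : ∀ c : ℝ, 0 < c → Whp P fun n ω => q n ω (Real.exp (c * M n))) : Gp P M q :=
  gp_iff.2 (ks.wsub P q M fun c hc _ => h c hc)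

theorem not_gp (h : ¬Gp P M q) :
    ∃ c : ℝ, 0 < c ∧ Pos P fun n ω => ¬q n ω (Real.exp (c * M n)) := by
  by_contra k
  exact h (gp_of_wp fun c hc => by_contra fun e => k ⟨c, hc, not_whp e⟩)

theorem sub_slow (hM : Big M) : ∃ L, Sub M L ∧ ∀ K : ℝ, ∀ᶠ n in UF, K ≤ L n :=
  ⟨_, Sub.nat hM, fun K => (hM.ev K).mono fun _ a => by linarith⟩

theorem whp_of_le {L : ℕ → ℝ} (hL : ∀ K : ℝ, ∀ᶠ n in UF, K ≤ L n)
    (h : ∀ᶠ n in UF, pb (P n) (fun ω => ¬E n ω) ≤ (L n)⁻¹) : Whp P E := fun ε hε => by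
  filter_upwards [h, hL ε⁻¹] with n a b
  exact a.trans (inv_le_of_inv_le₀ hε b)

theorem whp_half {β : ℕ → Type} (h : Whp P E) (A : ∀ n, Ω n → β n) :
    Whp P fun n ω => 1 / 2 ≤ pb (cv (P n) (A n) (A n ω)) (E n) := fun ε hε =>
  (h _ (half_pos hε)).mono fun n a => (half _ _ _).trans (by linarith)

theorem whp_pull {W : ℕ → Type} {Q : ∀ n, FP (W n)} {ρ : ∀ n, W n → Ω n} (h : Whp P E)
    (e : ∀ᶠ n in UF, Law (Q n) (ρ n) (P n) id) : Whp Q fun n v => E n (ρ n v) := fun ε hε => by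
  filter_upwards [h ε hε, e] with n a b
  exact (b.pb_eq fun ω => ¬E n ω).trans_le a

theorem whp_push {W : ℕ → Type} {Q : ∀ n, FP (W n)} {ρ : ∀ n, W n → Ω n}
    (h : Whp Q fun n v => E n (ρ n v)) (e : ∀ᶠ n in UF, Law (Q n) (ρ n) (P n) id) : Whp P E :=
  fun ε hε => by
  filter_upwards [h ε hε, e] with n a b
  exact (b.pb_eq fun ω => ¬E n ω).symm.trans_le a

/-- On an event of bounded below probability, the event is likely in its own context. -/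
theorem whp_ctx {β : ℕ → Type} (h : Pos P E) (A : ∀ n, Ω n → β n) {L : ℕ → ℝ}
    (hL : ∀ K : ℝ, ∀ᶠ n in UF, K ≤ L n) :
    Whp (fun n => cE (P n) (E n)) fun n ω => (L n)⁻¹ ≤ pb (cv (P n) (A n) (A n ω)) (E n) :=
  fun ε hε => by
  obtain ⟨κ, k0, k1⟩ := h
  filter_upwards [k1, hL (κ * ε)⁻¹, hL 1] with n a b c
  have h1 := pb_cE (P n) (E n) fun ω => ¬(L n)⁻¹ ≤ pb (cv (P n) (A n) (A n ω)) (E n)
  have h2 := (pb_mono (P := P n) (E := fun ω => E n ω ∧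
    ¬(L n)⁻¹ ≤ pb (cv (P n) (A n) (A n ω)) (E n)) fun _ _ k => ⟨k.1, (not_le.1 k.2).le⟩).trans
    (rare (P n) (A n) (E n) (θ := (L n)⁻¹) (by positivity))
  have h3 := inv_le_of_inv_le₀ (by positivity) b
  have h4 := pb_nonneg (cE (P n) (E n)) fun ω => ¬(L n)⁻¹ ≤ pb (cv (P n) (A n) (A n ω)) (E n)
  by_contra k
  nlinarith [not_le.1 k]

end Gp

section Seq

variable {Ω α α' β β' γ : ℕ → Type}

/-- The density of the cell `Y` given `A` is at most `V`, up to a subexponential factor. -/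
def DS (P : ∀ n, FP (Ω n)) (M : ℕ → ℕ) (Y : ∀ n, Ω n → α n) (A : ∀ n, Ω n → β n)
    (V : ∀ n, Ω n → ℝ) : Prop := Gp P M fun n ω Γ => dn (P n) (Y n) (A n) ω ≤ Γ * V n ω

/-- On a good set, `Y` has at most `N` values given `A`, up to a subexponential factor. -/
def FS (P : ∀ n, FP (Ω n)) (M : ℕ → ℕ) (Y : ∀ n, Ω n → α n) (A : ∀ n, Ω n → β n)
    (N : ∀ n, Ω n → ℝ) : Prop := Gd P M fun n G Γ => ∀ a ∈ (P n).S, G a → ∃ T : Finset (α n),
      (T.card : ℝ) ≤ Γ * N n a ∧ ∀ v ∈ (P n).S, A n v = A n a → G v → Y n v ∈ T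

variable {P : ∀ n, FP (Ω n)} {M : ℕ → ℕ} {Y : ∀ n, Ω n → α n} {Y' : ∀ n, Ω n → α' n}
  {A : ∀ n, Ω n → β n} {A' : ∀ n, Ω n → β' n} {B : ∀ n, Ω n → γ n} {V V' N : ∀ n, Ω n → ℝ}
  {G E : ∀ n, Ω n → Prop}

theorem fnE_const {δ : ℕ → Type} (c : ∀ n, δ n) : FnE P (fun n _ => c n) A :=
  Eventually.of_forall fun _ _ _ _ _ _ => rfl

theorem pos_of_le {n : ℕ} {ω : Ω n} {Γ v : ℝ} (h : ω ∈ (P n).S) (hΓ : 0 < Γ)
    (e : dn (P n) (Y n) (A n) ω ≤ Γ * v) : 0 < v :=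
  (mul_pos_iff_of_pos_left hΓ).1 ((dn_pos h _ _).trans_le e)

/-- A bound on a good set is enough. -/
theorem ds_of_good (hM : Big M) (h : Gd P M fun n G Γ => ∀ ω ∈ (P n).S, G ω →
    pb (cv (P n) (A n) (A n ω)) (fun v => G v ∧ Y n v = Y n ω) ≤ Γ * V n ω) : DS P M Y A V := by
  obtain ⟨G, Γ, a, b, c⟩ := h
  refine gp_iff.2 ⟨_, b.const_mul hM one_le_two,
    (a.and (whp_half a fun n v => (Y n v, A n v))).mono (c.mono fun n c ω hω k => ?_)⟩
  have h1 := dn_mul (Y := Y n) (A := A n) hω (G n)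
  nlinarith [c ω hω k.1, k.2, dn_pos hω (Y n) (A n)]

theorem DS.mono (h : DS P M Y A V) (e : Gp P M fun n ω Γ => V n ω ≤ Γ * V' n ω) :
    DS P M Y A V' := by
  obtain ⟨Γ, a, b⟩ := gp_iff.1 h
  obtain ⟨Γ', a', b'⟩ := gp_iff.1 e
  exact gp_iff.2 ⟨_, a.mul a', (b.and b').mono (Eventually.of_forall fun n ω _ k =>
    k.1.trans ((mul_le_mul_of_nonneg_left k.2 (a.pos n).le).trans_eq (mul_assoc _ _ _).symm))⟩

theorem DS.le (h : DS P M Y A V) (e : ∀ᶠ n in UF, ∀ ω ∈ (P n).S, V n ω ≤ V' n ω) :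
    DS P M Y A V' := by
  obtain ⟨Γ, a, b⟩ := gp_iff.1 h
  exact gp_iff.2 ⟨_, a, b.mono (e.mono fun n e ω hω k =>
    k.trans (mul_le_mul_of_nonneg_left (e ω hω) (a.pos n).le))⟩

/-- A finer cell, an equivalent context. -/
theorem DS.fine (h : DS P M Y A V) (hA : FnE P A A') (hA' : FnE P A' A)
    (hY : FnE P Y fun n v => (Y' n v, A' n v)) : DS P M Y' A' V := by
  obtain ⟨Γ, a, b⟩ := gp_iff.1 h
  refine gp_iff.2 ⟨_, a, b.mono ?_⟩
  filter_upwards [hA, hA', hY] with n c d e ω hω k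
  exact (dn_mono hω e).trans ((dn_congr hω d c (Fn.fst _ _) (Fn.fst _ _)).trans_le k)

theorem DS.chain (h : DS P M Y A V) (h' : DS P M Y' (fun n v => (Y n v, A n v)) V') :
    DS P M (fun n v => (Y n v, Y' n v)) A fun n ω => V n ω * V' n ω := by
  obtain ⟨Γ, a, b⟩ := gp_iff.1 h
  obtain ⟨Γ', a', b'⟩ := gp_iff.1 h'
  refine gp_iff.2 ⟨_, a.mul a', (b.and b').mono (Eventually.of_forall fun n ω hω k => ?_)⟩
  rw [dn_chain hω]
  exact (mul_le_mul k.1 k.2 (dn_pos hω _ _).le ((dn_pos hω _ _).le.trans k.1)).trans_eq (by ring)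

/-- The canonical good set. -/
theorem pb_canon {n : ℕ} {ω : Ω n} (hω : ω ∈ (P n).S) {Γ D : ℝ} (h0 : 0 ≤ D) (c : α n)
    (e : ∀ v ∈ (P n).S, A n v = A n ω → Y n v = c → Γ * V n v ≤ D) :
    pb (cv (P n) (A n) (A n ω)) (fun v => dn (P n) (Y n) (A n) v ≤ Γ * V n v ∧ Y n v = c) ≤ D :=
  (pb_mono fun v hv k => ⟨k.1.trans (e v (cE_sub hv) ((mem_cv hω v).1 hv).2 k.2), k.2⟩).trans
    (db_dn (P n) (Y n) (A n) h0 ω hω c)

/-- A coarser context. -/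
theorem DS.ctx (h : DS P M Y A' V) (hM : Big M) (hA : FnE P A A')
    (hV : FnE P V fun n v => (Y n v, A n v)) : DS P M Y A V := by
  obtain ⟨Γ, a, b⟩ := gp_iff.1 h
  refine ds_of_good hM ⟨_, Γ, b, a, ?_⟩
  filter_upwards [hA, hV] with n c d ω hω k
  have h0 := (dn_pos hω _ _).le.trans k
  refine (pb_mono fun v hv k => ⟨k.1.trans_eq ?_, k.2⟩).trans
    ((db_dn (P n) (Y n) (A' n) h0).ctx c ω hω (Y n ω))
  rw [d v (cE_sub hv) ω hω (Prod.ext k.2 ((mem_cv hω v).1 hv).2)]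

/-- Every cell of `Y'` meets few cells of `Y`. -/
theorem DS.cover (h : DS P M Y A V) (hM : Big M) (hV : FnE P V A)
    (e : FS P M Y (fun n v => (Y' n v, A n v)) N) : DS P M Y' A fun n ω => N n ω * V n ω := by
  obtain ⟨Γ, a, b⟩ := gp_iff.1 h
  obtain ⟨G, Γ', c, a', d⟩ := e
  refine ds_of_good hM ⟨_, _, b.and c, a'.mul a, ?_⟩
  filter_upwards [hV, d] with n f d ω hω k
  have h0 := (dn_pos hω _ _).le.trans k.1
  obtain ⟨T, t1, t2⟩ := d ω hω k.2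
  refine (pb_mono fun v hv k => ⟨k.1.1, t2 v (cE_sub hv)
    (Prod.ext k.2 ((mem_cv hω v).1 hv).2) k.1.2⟩).trans ((pb_mem _ (Y n) _ T fun c _ =>
      pb_canon hω h0 c fun v hv e _ => by rw [f v hv ω hω e]).trans ?_)
  exact (mul_le_mul_of_nonneg_right t1 h0).trans_eq (by ring)

/-- A variable with few values has a large probability. -/
theorem FS.low (e : FS P M B A N) (hM : Big M) (hN : FnE P N A) :
    Gp P M fun n ω Γ => 1 ≤ Γ * N n ω * dn (P n) (B n) (A n) ω := by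
  obtain ⟨G, Γ, a, b, c⟩ := e
  obtain ⟨L, l1, l2⟩ := sub_slow hM
  have k : Whp P fun n ω => ¬(G n ω ∧ L n * Γ n * N n ω * dn (P n) (B n) (A n) ω < 1) := by
    refine whp_of_le l2 ?_
    filter_upwards [c, hN] with n c d
    simp only [not_not]
    refine pb_tot_le (A n) fun ω hω => ?_
    by_cases ex : ∃ v ∈ (cv (P n) (A n) (A n ω)).S, G n v
    · obtain ⟨v, hv, g⟩ := ex
      obtain ⟨v1, v2⟩ := (mem_cv hω v).1 hv
      obtain ⟨T, t1, t2⟩ := c v v1 g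
      have n0 : 0 < Γ n * N n v := lt_of_lt_of_le
        (by exact_mod_cast Finset.card_pos.2 ⟨_, t2 v v1 rfl g⟩) t1
      have l0 := l1.pos n
      refine (pb_mono fun w hw k => ⟨?_, t2 w (cE_sub hw) (((mem_cv hω w).1 hw).2.trans v2.symm)
        k.1⟩).trans ((pb_mem _ (B n) _ T fun c _ => db_dn (P n) (B n) (A n)
          (D := (L n * (Γ n * N n v))⁻¹) (by positivity) ω hω c).trans ?_)
      · refine (mul_le_mul_of_nonneg_right t1 (by positivity)).trans_eq ?_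
        rw [mul_inv, mul_left_comm, mul_inv_cancel₀ n0.ne', mul_one]
      · rw [← one_div, le_div_iff₀ (by positivity),
          ← d w (cE_sub hw) v v1 (((mem_cv hω w).1 hw).2.trans v2.symm)]
        linarith [k.2]
    · exact (pb_zero fun v hv k => ex ⟨v, hv, k.1⟩).trans_le (inv_pos.2 (l1.pos n)).le
  exact gp_iff.2 ⟨_, l1.mul b, (a.and k).mono (Eventually.of_forall fun n ω _ k =>
    not_lt.1 fun e => k.2 ⟨k.1, e⟩)⟩

/-- Side information with few values. -/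
theorem DS.side (h : DS P M Y A V) (hM : Big M) (e : FS P M B A N) (hN : FnE P N A) :
    DS P M Y (fun n v => (B n v, A n v)) fun n ω => N n ω * V n ω := by
  obtain ⟨Γ, a, b⟩ := gp_iff.1 h
  obtain ⟨Γ', a', b'⟩ := gp_iff.1 (e.low hM hN)
  refine gp_iff.2 ⟨_, a'.mul a, (b.and b').mono (Eventually.of_forall fun n ω hω k => ?_)⟩
  have h1 := (dn_side hω (Y n) (B n) (A n)).trans k.1
  have h2 := dn_pos hω (Y n) fun v => (B n v, A n v)
  have h3 : 0 < Γ' n * N n ω :=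
    (mul_pos_iff_of_pos_right (dn_pos hω _ _)).1 (one_pos.trans_le k.2)
  nlinarith [mul_le_mul_of_nonneg_left h1 h3.le, mul_le_mul_of_nonneg_right k.2 h2.le]

/-- An event of bounded below probability. -/
theorem DS.cE (h : DS P M Y A V) (hM : Big M) (hE : Pos P E) :
    DS (fun n => cE (P n) (E n)) M Y A V := by
  obtain ⟨Γ, a, b⟩ := gp_iff.1 h
  obtain ⟨L, l1, l2⟩ := sub_slow hM
  refine gp_iff.2 ⟨_, l1.mul a, ((b.cE hE).and (whp_ctx hE A l2)).mono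
    (hE.sure.mono fun n s ω hω k => ?_)⟩
  have h1 := (dn_cE (s ω hω).1 (s ω hω).2 (Y n) (A n)).trans k.1
  have h2 := mul_le_mul_of_nonneg_right k.2 (dn_pos hω (Y n) (A n)).le
  rw [mul_assoc, ← inv_mul_le_iff₀ (l1.pos n)]
  exact h2.trans h1

theorem DS.pull {W : ℕ → Type} {Q : ∀ n, FP (W n)} {ρ : ∀ n, W n → Ω n} (h : DS P M Y A V)
    (e : ∀ᶠ n in UF, Law (Q n) (ρ n) (P n) id) : DS Q M (fun n v => Y n (ρ n v))
      (fun n v => A n (ρ n v)) fun n v => V n (ρ n v) := by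
  obtain ⟨Γ, a, b⟩ := gp_iff.1 h
  exact gp_iff.2 ⟨Γ, a, (whp_pull b e).mono (e.mono fun n e v _ k => (dn_pull e _ _ v).trans_le k)⟩

theorem DS.push {W : ℕ → Type} {Q : ∀ n, FP (W n)} {ρ : ∀ n, W n → Ω n}
    (h : DS Q M (fun n v => Y n (ρ n v)) (fun n v => A n (ρ n v)) fun n v => V n (ρ n v))
    (e : ∀ᶠ n in UF, Law (Q n) (ρ n) (P n) id) : DS P M Y A V := by
  obtain ⟨Γ, a, b⟩ := gp_iff.1 h
  exact gp_iff.2 ⟨Γ, a, whp_push (E := fun n ω => dn (P n) (Y n) (A n) ω ≤ Γ n * V n ω)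
    (b.mono (e.mono fun n e v _ k => (dn_pull e _ _ v).symm.trans_le k)) e⟩

/-- Lists and densities compare. -/
theorem DS.count (h : DS P M Y A V) (hM : Big M) (e : FS P M Y A N) (hN : FnE P N A) :
    Gp P M fun n ω Γ => 1 ≤ Γ * (N n ω * V n ω) := by
  obtain ⟨Γ, a, b⟩ := gp_iff.1 h
  obtain ⟨Γ', a', b'⟩ := gp_iff.1 (e.low hM hN)
  refine gp_iff.2 ⟨_, a'.mul a, (b.and b').mono (Eventually.of_forall fun n ω hω k => ?_)⟩
  have h3 : 0 < Γ' n * N n ω :=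
    (mul_pos_iff_of_pos_right (dn_pos hω _ _)).1 (one_pos.trans_le k.2)
  exact k.2.trans ((mul_le_mul_of_nonneg_left k.1 h3.le).trans_eq (by ring))

/-- If the density is not bounded, there is an event with few cells. -/
theorem not_ds {v : ℕ → ℝ} (hv : ∀ n, 0 < v n) (h : ¬DS P M Y A fun n _ => v n) :
    ∃ c : ℝ, 0 < c ∧ ∃ E, Pos P E ∧ ∀ n, Few (P n) (Y n) (A n) (E n) (dl M c n / v n) := by
  obtain ⟨c, hc, k⟩ := not_gp h
  refine ⟨c, hc, _, k, fun n => (few_dn (P n) (Y n) (A n) (θ := Real.exp (c * M n) * v n)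
    (mul_pos (Real.exp_pos _) (hv n))).mono (fun _ _ k => (not_le.1 k).le) (le_of_eq ?_)⟩
  rw [mul_inv, dl, Real.exp_neg, div_eq_mul_inv]

theorem fs_of_few {v : ℕ → ℝ} (h : Gd P M fun n G Γ => Few (P n) (Y n) (A n) G (Γ * v n)) :
    FS P M Y A fun n _ => v n :=
  let ⟨G, Γ, a, b, c⟩ := h
  ⟨G, Γ, a, b, c.mono fun _ c ω hω _ => c ω hω⟩

theorem FS.few {v : ℕ → ℝ} (hv : ∀ n, 0 ≤ v n) (h : FS P M Y A fun n _ => v n) :
    Gd P M fun n G Γ => Few (P n) (Y n) (A n) G (Γ * v n) := by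
  obtain ⟨G, Γ, a, b, c⟩ := h
  refine ⟨G, Γ, a, b, c.mono fun n c ω hω => ?_⟩
  by_cases ex : ∃ w ∈ (P n).S, A n w = A n ω ∧ G n w
  · obtain ⟨w, w1, w2, w3⟩ := ex
    exact (c w w1 w3).imp fun T k => ⟨k.1, fun u hu e => k.2 u hu (e.trans w2.symm)⟩
  · exact ⟨∅, by simpa using mul_nonneg (b.pos n).le (hv n), fun u hu e g =>
      (ex ⟨u, hu, e, g⟩).elim⟩

/-- Indices with few values. -/
theorem fs_idx {c : ℝ} {b : ∀ n, Ω n → ℕ} (h : AN.Few P M c b) (hM : Big M) (hc : 0 ≤ c)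
    (A : ∀ n, Ω n → β n) : FS P M b A fun n _ => Real.exp (c * M n) := by
  obtain ⟨Γ, a, w⟩ := gp_iff.1 h
  refine ⟨_, _, w, a.const_mul hM one_le_two, Eventually.of_forall fun n ω _ _ =>
    ⟨Finset.range (⌊Γ n * Real.exp (c * M n)⌋₊ + 1), ?_, fun v _ _ k =>
      Finset.mem_range.2 (Nat.lt_succ_of_le (Nat.le_floor k))⟩⟩
  have h1 : 1 ≤ Γ n * Real.exp (c * M n) :=
    one_le_mul_of_one_le_of_one_le (a.1 n) (Real.one_le_exp (by positivity))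
  have h2 := Nat.floor_le (zero_le_one.trans h1)
  rw [Finset.card_range]
  push_cast
  linarith

/-- A density bound gives entropy. -/
theorem DS.ent {v : ℕ → ℝ} {C : ℝ} (h : DS P M Y A fun n _ => v n)
    (hv : ∀ᶠ n in UF, 0 < v n ∧ -Real.log (v n) ≤ C * M n) :
    Le M (fun n => -Real.log (v n)) fun n => ch (P n) (Y n) (A n) := fun ε hε => by
  obtain ⟨Γ, a, b⟩ := gp_iff.1 h
  filter_upwards [hv, a.log _ (half_pos hε), b (ε / 2 / (|C| + 1)) (by positivity)] with n c d e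
  have h1 := le_ch (P n) (Y n) (A n) (Γ n * v n)
  have h2 := ch_nonneg (P := P n) (Y n) (A n)
  have h3 := Real.log_nonneg (a.1 n)
  have h4 := pb_le_one (P n) fun ω => dn (P n) (Y n) (A n) ω ≤ Γ n * v n
  have h5 := pb_nonneg (P n) fun ω => dn (P n) (Y n) (A n) ω ≤ Γ n * v n
  have m0 : (0 : ℝ) ≤ M n := Nat.cast_nonneg _
  rw [pb_not, le_div_iff₀ (by positivity)] at e
  rw [Real.log_mul (a.pos n).ne' c.1.ne'] at h1
  have h6 : C * M n ≤ (|C| + 1) * M n :=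
    mul_le_mul_of_nonneg_right (by linarith [le_abs_self C]) m0
  have h7 := mul_le_mul_of_nonneg_left (c.2.trans h6) (sub_nonneg.2 h4)
  have h8 := mul_le_mul_of_nonneg_right e m0
  nlinarith [mul_le_mul_of_nonneg_left h4 h3]

/-- Full entropy gives a density bound. -/
theorem ds_of_ent {v L : ℕ → ℝ} (hM : Big M) (hL : Sub M L) (hv : ∀ n, 0 < v n)
    (h : Le M (fun n => -Real.log (v n)) fun n => ch (P n) (Y n) (A n))
    (hD : ∀ᶠ n in UF, Det (P n) (Y n) (A n) (L n / v n)) : DS P M Y A fun n _ => v n := by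
  by_contra k
  obtain ⟨c, hc, E, e1, e2⟩ := not_ds hv k
  refine e1.not_whp (ks.spw P E Y A M (fun n => (v n)⁻¹) L c hM hL hc
    (by simpa only [Real.log_inv] using h) (hD.mono fun n d => ⟨inv_pos.2 (hv n), d, fun a ha =>
      (e2 n a ha).imp fun T t => ⟨t.1.trans ?_, t.2⟩⟩))
  have := mul_le_mul_of_nonneg_right (hL.1 n) (div_pos (dl_pos M c n) (hv n)).le
  rw [one_mul] at this
  exact this.trans_eq (by unfold dl; ring)

end Seq

end Pool.Agent.MP_5168f5_an.AN.S20
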