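import Pool.Agent.MP_5168f5_an.AN.Spec
import Pool.Agent.MP_5168f5_an.AN.S20Ds

/-! Good sets: calculus, countable form, change of the unit, exchange of the kinds. -/

namespace Pool.Agent.MP_5168f5_an.AN

open H19 H17S H17F R4 Filter MvPolynomial
open G39 (nu RG dl REM dl_anti dl_pos)
open Pk (cn)
open Nc (Pl ev jac)
open S20 (dn gp_iff)

universe u

section Calc

variable {Ω : ℕ → Type} {P : ∀ n, FP (Ω n)} {M M' : ℕ → ℕ} {q q' : ∀ n, (Ω n → Prop) → ℝ → Prop}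
  {p p' : ∀ n, Ω n → ℝ → Prop}

theorem gd_iff : Gd P M q ↔ ∀ ε : ℝ, 0 < ε → ∀ᶠ n in UF, ∃ (G : Ω n → Prop) (Γ : ℝ),
    pb (P n) (fun ω => ¬G ω) ≤ ε ∧ 1 ≤ Γ ∧ Γ ≤ Real.exp (ε * M n) ∧ q n G Γ := by
  refine ⟨fun ⟨G, Γ, a, b, c⟩ ε hε => ?_, fun h => ?_⟩
  · filter_upwards [a ε hε, b.2 ε hε, c] with n x y z using ⟨_, _, x, b.1 n, y, z⟩
  · obtain ⟨k, hk, e⟩ := ks.spill (fun k n => ∃ (G : Ω n → Prop) (Γ : ℝ),
      pb (P n) (fun ω => ¬G ω) ≤ 1 / (k + 1 : ℝ) ∧ 1 ≤ Γ ∧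
        Γ ≤ Real.exp (1 / (k + 1 : ℝ) * M n) ∧ q n G Γ) fun k => h _ (by positivity)
    have e1 : ∀ n, ∃ (G : Ω n → Prop) (Γ : ℝ), 1 ≤ Γ ∧ ((∃ (G : Ω n → Prop) (Γ : ℝ),
        pb (P n) (fun ω => ¬G ω) ≤ 1 / (k n + 1 : ℝ) ∧ 1 ≤ Γ ∧
          Γ ≤ Real.exp (1 / (k n + 1 : ℝ) * M n) ∧ q n G Γ) →
        pb (P n) (fun ω => ¬G ω) ≤ 1 / (k n + 1 : ℝ) ∧
          Γ ≤ Real.exp (1 / (k n + 1 : ℝ) * M n) ∧ q n G Γ) := fun n => by
      by_cases c : ∃ (G : Ω n → Prop) (Γ : ℝ), pb (P n) (fun ω => ¬G ω) ≤ 1 / (k n + 1 : ℝ) ∧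
          1 ≤ Γ ∧ Γ ≤ Real.exp (1 / (k n + 1 : ℝ) * M n) ∧ q n G Γ
      · obtain ⟨G, Γ, a, b, c⟩ := c
        exact ⟨G, Γ, b, fun _ => ⟨a, c⟩⟩
      · exact ⟨fun _ => True, 1, le_rfl, fun d => absurd d c⟩
    choose G Γ h1 h2 using e1
    refine ⟨G, Γ, fun ε hε => ?_, ⟨h1, fun ε hε => ?_⟩, e.mono fun n a => (h2 n (a _ le_rfl)).2.2⟩
    · filter_upwards [e, K31.small hε hk] with n a b using (h2 n (a _ le_rfl)).1.trans b
    · filter_upwards [e, K31.small hε hk] with n a b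
      exact (h2 n (a _ le_rfl)).2.1.trans (Real.exp_le_exp.2
        (mul_le_mul_of_nonneg_right b (Nat.cast_nonneg _)))

theorem Gd.mono (h : Gd P M q) (e : ∀ᶠ n in UF, ∀ G Γ, 1 ≤ Γ → q n G Γ → q' n G Γ) : Gd P M q' := by
  obtain ⟨G, Γ, a, b, c⟩ := h
  exact ⟨G, Γ, a, b, (c.and e).mono fun n d => d.2 _ _ (b.1 n) d.1⟩

theorem Gp.mono (h : Gp P M p) (e : ∀ᶠ n in UF, ∀ ω ∈ (P n).S, ∀ Γ, 1 ≤ Γ → p n ω Γ → p' n ω Γ) :
    Gp P M p' := Gd.mono h (e.mono fun _ a _ Γ b c ω hω g => a ω hω Γ b (c ω hω g))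

/-- Polynomial losses are free. -/
theorem Gp.poly (h : Gp P M p) (hM : Big M) {A : ℝ} (hA : 1 ≤ A) (k : ℕ)
    (e : ∀ᶠ n in UF, ∀ ω ∈ (P n).S, ∀ Γ, 1 ≤ Γ → p n ω Γ → p' n ω (A * Γ ^ k)) : Gp P M p' := by
  obtain ⟨Γ, a, b⟩ := gp_iff.1 h
  exact gp_iff.2 ⟨_, (a.pow k).const_mul hM hA, b.mono (e.mono fun n c ω hω => c ω hω _ (a.1 n))⟩

/-- Two properties; the conclusion holds with the product of the constants. -/
theorem Gp.mul {r : ∀ n, Ω n → ℝ → Prop} (h : Gp P M p) (h' : Gp P M p')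
    (e : ∀ᶠ n in UF, ∀ ω ∈ (P n).S, ∀ Γ Γ', 1 ≤ Γ → 1 ≤ Γ' → p n ω Γ → p' n ω Γ' →
      r n ω (Γ * Γ')) : Gp P M r := by
  obtain ⟨Γ, a, b⟩ := gp_iff.1 h
  obtain ⟨Γ', a', b'⟩ := gp_iff.1 h'
  exact gp_iff.2 ⟨_, a.mul a', (b.and b').mono
    (e.mono fun n c ω hω d => c ω hω _ _ (a.1 n) (a'.1 n) d.1 d.2)⟩

/-- Two properties that are monotone in the constant. -/
theorem Gp.and (h : Gp P M p) (h' : Gp P M p') (m : ∀ n ω Γ Γ', 1 ≤ Γ → Γ ≤ Γ' → p n ω Γ → p n ω Γ')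
    (m' : ∀ n ω Γ Γ', 1 ≤ Γ → Γ ≤ Γ' → p' n ω Γ → p' n ω Γ') :
    Gp P M fun n ω Γ => p n ω Γ ∧ p' n ω Γ :=
  h.mul h' (Eventually.of_forall fun n ω _ _ _ a b c d =>
    ⟨m n ω _ _ a (le_mul_of_one_le_right (by linarith) b) c,
      m' n ω _ _ b (le_mul_of_one_le_left (by linarith) a) d⟩)

theorem Gp.whp {E : ∀ n, Ω n → Prop} (h : Gp P M p) (h' : Whp P E) :
    Gp P M fun n ω Γ => p n ω Γ ∧ E n ω := by
  obtain ⟨Γ, a, b⟩ := gp_iff.1 h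
  exact gp_iff.2 ⟨Γ, a, b.and h'⟩

theorem sub_one (M : ℕ → ℕ) : Sub M fun _ => 1 :=
  ⟨fun _ => le_rfl, fun ε hε => Eventually.of_forall fun n => Real.one_le_exp (by positivity)⟩

theorem gp_of_whp (h : Whp P fun n ω => p n ω 1) : Gp P M p := gp_iff.2 ⟨_, sub_one M, h⟩

theorem gp_of_sub {Γ : ℕ → ℝ} (a : Sub M Γ) (h : ∀ᶠ n in UF, ∀ ω ∈ (P n).S, p n ω (Γ n)) :
    Gp P M p := gp_iff.2 ⟨Γ, a, Whp.of_ev h⟩

theorem Gp.ex (h : Gp P M p) : ∃ Γ, Sub M Γ ∧ ∀ᶠ n in UF, ∃ ω ∈ (P n).S, p n ω (Γ n) :=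
  (gp_iff.1 h).imp fun _ a => ⟨a.1, a.2.pos.ex⟩

/-- An inequality between exponentials up to a subexponential factor. -/
theorem le_of_gp {u v : ℕ → ℝ} (h : Gp P M fun n _ Γ => Real.exp (u n) ≤ Γ * Real.exp (v n)) :
    Le M u v := by
  obtain ⟨Γ, a, b⟩ := h.ex
  refine a.log.of_sub (b.mono fun n ⟨_, _, c⟩ => ?_)
  have := Real.log_le_log (Real.exp_pos _) c
  rw [Real.log_exp, Real.log_mul (a.pos n).ne' (Real.exp_pos _).ne', Real.log_exp] at this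
  linarith

theorem sub_of_le {u v : ℕ → ℝ} (h : Le M u v) :
    ∃ Γ, Sub M Γ ∧ ∀ n, Real.exp (u n) ≤ Γ n * Real.exp (v n) :=
  ⟨fun n => Real.exp (max (u n - v n) 0), Sub.exp (fun ε hε => (h ε hε).mono fun n a =>
    max_le (by linarith) (by positivity)) fun _ => le_max_right _ _, fun n => by
    rw [← Real.exp_add]; exact Real.exp_le_exp.2 (by linarith [le_max_left (u n - v n) 0])⟩

theorem nt_iff {β : Bool → ℕ → Type} {N : ℕ} {x : ∀ n, Ω n → V N} {Z : ∀ b n, Ω n → β b n}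
    {ν : ∀ n, Ω n → Pl N → ℝ} : NT P M x Z ν ↔ ∀ (E : ℕ) (c : ℝ), 0 < c → ∀ ε : ℝ, 0 < ε →
      ∀ᶠ n in UF, ∀ F : ∀ b, β b n → Pl N, (∀ b z, (F b z).totalDegree ≤ E) →
        pb (P n) (fun ω => ¬¬(F true (Z true n ω) = F false (Z false n ω) ∧
          |eval (x n ω) (F true (Z true n ω))| < dl M c n * ν n ω (F true (Z true n ω)))) ≤ ε :=
  ⟨fun h E c hc ε hε => unif' (A := fun n => ∀ b, β b n → Pl N)
      (h := fun _ F => ∀ b z, (F b z).totalDegree ≤ E) (fun _ => ⟨fun _ _ => 0, fun _ _ => by simp⟩)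
      fun F hF => h E c (fun b n => F n b) hc (fun b n z => hF n b z) ε hε,
    fun h E c F hc hF ε hε => (h E c hc ε hε).mono fun n a => a (fun b => F b n) fun b => hF b n⟩

end Calc

/-! ### Countable form -/

section CF

variable {S : ℕ → Type u} {W Λ : ∀ n, S n → Type} (Q : ∀ n s, FP (W n s)) (m : ∀ n, S n → ℕ)
  {N N' k : ℕ}

theorem cf_gd (q : ∀ n s, (W n s → Prop) → ℝ → Prop) : CF fun s : ∀ n, S n =>
    Gd (fun n => Q n (s n)) (fun n => m n (s n)) fun n => q n (s n) :=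
  (cf_eps (p := fun ε n s => ∃ (G : W n s → Prop) (Γ : ℝ), pb (Q n s) (fun ω => ¬G ω) ≤ ε ∧ 1 ≤ Γ ∧
    Γ ≤ Real.exp (ε * m n s) ∧ q n s G Γ) fun _ _ _ _ _ a ⟨G, Γ, b, c, d, e⟩ =>
      ⟨G, Γ, b.trans a, c, d.trans (Real.exp_le_exp.2
        (mul_le_mul_of_nonneg_right a (Nat.cast_nonneg _))), e⟩).congr fun _ => gd_iff

theorem cf_gp (q : ∀ n s, W n s → ℝ → Prop) : CF fun s : ∀ n, S n =>
    Gp (fun n => Q n (s n)) (fun n => m n (s n)) fun n => q n (s n) :=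
  cf_gd Q m fun n s G Γ => ∀ ω ∈ (Q n s).S, G ω → q n s ω Γ

theorem cf_fnE {α : ∀ n, S n → Type} (F : ∀ n s, W n s → α n s) (A : ∀ n s, W n s → Λ n s) :
    CF fun s : ∀ n, S n => FnE (fun n => Q n (s n)) (fun n => F n (s n)) fun n => A n (s n) :=
  cf_ev fun n s => Fn (Q n s) (F n s) (A n s)

theorem cf_bdd (y : ∀ n s, W n s → V N) : CF fun s : ∀ n, S n =>
    Bdd (fun n => Q n (s n)) (fun n => m n (s n)) fun n => y n (s n) :=
  cf_gp Q m fun n s ω Γ => ‖y n s ω‖ ≤ Γ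

theorem cf_few (c : ℝ) (be : ∀ n s, W n s → ℕ) : CF fun s : ∀ n, S n =>
    Few (fun n => Q n (s n)) (fun n => m n (s n)) c fun n => be n (s n) :=
  cf_gp Q m fun n s ω Γ => (be n s ω : ℝ) ≤ Γ * Real.exp (c * m n s)

theorem cf_fullAt (y : ∀ n s, W n s → V N) (A : ∀ n s, W n s → Λ n s) (j : ∀ n, S n → ℕ) :
    CF fun s : ∀ n, S n => FullAt (fun n => Q n (s n)) (fun n => m n (s n)) (fun n => y n (s n))
      (fun n => A n (s n)) fun n => j n (s n) :=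
  cf_gd Q m fun n s => Dens (Q n s) (y n s) (A n s) (j n s)

theorem cf_full (y : ∀ n s, W n s → V N) (A : ∀ n s, W n s → Λ n s) :
    CF fun s : ∀ n, S n => Full (fun n => Q n (s n)) (fun n => m n (s n)) (fun n => y n (s n))
      fun n => A n (s n) := cf_all fun K : ℕ => cf_fullAt Q m y A fun n s => K * m n s

theorem cf_rem (x : ∀ n s, W n s → V N) (A : ∀ n s, W n s → Λ n s) (C : ℕ) :
    CF fun s : ∀ n, S n => ∀ K : ℕ, REM (fun n => Q n (s n)) (fun n => x n (s n))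
      (fun n => m n (s n)) (fun n => A n (s n)) C K :=
  cf_all fun K : ℕ => cf_all fun E : ℕ => cf_gd Q m fun n s G Γ =>
    RG (Q n s) (x n s) (A n s) G E C Γ (Real.exp (-((K : ℝ) * m n s)))

theorem cf_kind (x : ∀ n s, W n s → V N) (κ : ∀ n s, Kd k (W n s)) (C l : ℕ) :
    CF fun s : ∀ n, S n => Kind (fun n => Q n (s n)) (fun n => m n (s n)) (fun n => x n (s n))
      (fun n => κ n (s n)) C l :=
  ((cf_bdd Q m fun n s => (κ n s).p).and ((cf_few Q m 0 fun n s => (κ n s).W).and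
    ((cf_rem Q m x (fun n s => (κ n s).Z) C).and ((cf_full Q m (fun n s => (κ n s).p)
      fun n s => (κ n s).Z).and (cf_all fun j : ℕ =>
        cf_gd Q m fun n s => (κ n s).Wh (Q n s) (x n s) l j))))).congr fun _ =>
    ⟨fun h => ⟨h.1, h.2, h.3, h.4, h.5⟩, fun h => ⟨h.1, h.2.1, h.2.2.1, h.2.2.2.1, h.2.2.2.2⟩⟩

theorem cf_kindS (x : ∀ n s, W n s → V N) (κ : ∀ n s, Kd k (W n s)) (C l : ℕ) (t : ∀ n, S n → ℕ) :
    CF fun s : ∀ n, S n => KindS (fun n => Q n (s n)) (fun n => m n (s n)) (fun n => x n (s n))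
      (fun n => κ n (s n)) C l fun n => t n (s n) :=
  ((cf_kind Q m x κ C 0).and (cf_all fun j : ℕ =>
    cf_gd Q m fun n s => (κ n s).WhS (Q n s) (x n s) l (t n s) j)).congr fun _ =>
    ⟨fun h => ⟨h.1, h.2⟩, fun h => ⟨h.1, h.2⟩⟩

theorem cf_sys {k : Bool → ℕ} (x : ∀ n s, W n s → V N) (y : ∀ n s, Sy k (W n s)) (C : ℕ)
    (l : Bool → ℕ) : CF fun s : ∀ n, S n => Sys (fun n => Q n (s n)) (fun n => m n (s n))
      (fun n => x n (s n)) (fun n => y n (s n)) C l :=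
  ((cf_big m).and ((cf_bdd Q m x).and (cf_all fun b : Bool =>
    cf_kind Q m x (fun n s => y n s b) C (l b)))).congr fun _ =>
    ⟨fun h => ⟨h.1, h.2, h.3⟩, fun h => ⟨h.1, h.2.1, h.2.2⟩⟩

variable {β : Bool → ∀ n, S n → Type}

theorem cf_com (Z : ∀ b n s, W n s → β b n s) (A : ∀ n s, W n s → Λ n s) :
    CF fun s : ∀ n, S n => Com (β := fun b n => β b n (s n)) (fun n => Q n (s n))
      (fun b n => Z b n (s n)) fun n => A n (s n) := cf_all fun b : Bool => cf_fnE Q A (Z b)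

theorem cf_nt (x : ∀ n s, W n s → V N) (Z : ∀ b n s, W n s → β b n s)
    (ν : ∀ n s, W n s → Pl N → ℝ) : CF fun s : ∀ n, S n => NT (β := fun b n => β b n (s n))
      (fun n => Q n (s n)) (fun n => m n (s n)) (fun n => x n (s n)) (fun b n => Z b n (s n))
      fun n => ν n (s n) := by
  have key : ∀ (E : ℕ) (c : ℝ), CF fun s : ∀ n, S n => ∀ ε : ℝ, 0 < ε →
      ∀ᶠ n in UF, ∀ F : ∀ b, β b n (s n) → Pl N, (∀ b z, (F b z).totalDegree ≤ E) →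
        pb (Q n (s n)) (fun ω => ¬¬(F true (Z true n (s n) ω) = F false (Z false n (s n) ω) ∧
          |eval (x n (s n) ω) (F true (Z true n (s n) ω))| < Real.exp (-(c * m n (s n))) *
            ν n (s n) ω (F true (Z true n (s n) ω)))) ≤ ε := fun E c =>
    cf_eps (p := fun ε n s => ∀ F : ∀ b, β b n s → Pl N, (∀ b z, (F b z).totalDegree ≤ E) →
      pb (Q n s) (fun ω => ¬¬(F true (Z true n s ω) = F false (Z false n s ω) ∧
        |eval (x n s ω) (F true (Z true n s ω))| < Real.exp (-(c * m n s)) *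
          ν n s ω (F true (Z true n s ω)))) ≤ ε) fun _ _ _ _ _ a b F hF => (b F hF).trans a
  refine (cf_all fun E : ℕ => cf_all fun j : ℕ => key E (1 / (j + 1 : ℝ))).congr fun s =>
    nt_iff.trans (forall_congr' fun E => ⟨fun h j => h _ (by positivity), fun h c hc ε hε => ?_⟩)
  obtain ⟨j, hj⟩ := exists_nat_one_div_lt hc
  refine (h j ε hε).mono fun n a F hF => le_trans (pb_mono fun ω _ b => ?_) (a F hF)
  have e := not_not.1 b
  refine not_not.2 ⟨e.1, ?_⟩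
  have h0 : 0 < ν n (s n) ω (F true (Z true n (s n) ω)) :=
    (mul_pos_iff_of_pos_left (dl_pos _ _ _)).1 ((abs_nonneg _).trans_lt e.2)
  exact e.2.trans_le (mul_le_mul_of_nonneg_right (dl_anti (fun n => m n (s n)) hj.le n) h0.le)

theorem cf_min (x : ∀ n s, W n s → V N) (Z : ∀ b n s, W n s → β b n s) :
    CF fun s : ∀ n, S n => MIN (β := fun b n => β b n (s n)) (fun n => Q n (s n))
      (fun n => m n (s n)) (fun n => x n (s n)) fun b n => Z b n (s n) :=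
  cf_nt Q m x Z fun _ _ _ => cn

theorem cf_cm (x : ∀ n s, W n s → V N) (Z : ∀ b n s, W n s → β b n s)
    (A : ∀ n s, W n s → Λ n s) : CF fun s : ∀ n, S n => CM (β := fun b n => β b n (s n))
      (fun n => Q n (s n)) (fun n => m n (s n)) (fun n => x n (s n)) (fun b n => Z b n (s n))
      fun n => A n (s n) :=
  ((cf_com Q Z A).and (cf_nt Q m x Z fun n s => nc (Q n s) (x n s) (A n s))).congr fun _ =>
    ⟨fun h => ⟨h.1, h.2⟩, fun h => ⟨h.1, h.2⟩⟩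

theorem cf_dle (x : ∀ n s, W n s → V N) (A : ∀ n s, W n s → Λ n s) (g : ∀ n, S n → ℕ) :
    CF fun s : ∀ n, S n => DLe (fun n => Q n (s n)) (fun n => m n (s n)) (fun n => x n (s n))
      (fun n => A n (s n)) fun n => g n (s n) :=
  cf_all fun E : ℕ => cf_gp Q m fun n s ω Γ => ∀ F : Pl N, F.totalDegree ≤ E → ∀ i,
    nc (Q n s) (x n s) (A n s) ω (pderiv i F) ≤ Γ * 2 ^ g n s * nc (Q n s) (x n s) (A n s) ω F

theorem cf_dge (x : ∀ n s, W n s → V N) (A : ∀ n s, W n s → Λ n s) (E : ℕ) (g : ∀ n, S n → ℕ) :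
    CF fun s : ∀ n, S n => DGe (fun n => Q n (s n)) (fun n => m n (s n)) (fun n => x n (s n))
      (fun n => A n (s n)) E fun n => g n (s n) :=
  cf_gp Q m fun n s ω Γ => ∃ (F : Pl N) (i : Fin N), F.totalDegree ≤ E ∧
    0 < nc (Q n s) (x n s) (A n s) ω F ∧
    2 ^ g n s * nc (Q n s) (x n s) (A n s) ω F ≤ Γ * nc (Q n s) (x n s) (A n s) ω (pderiv i F)

theorem cf_nz (x : ∀ n s, W n s → V N) (A : ∀ n s, W n s → Λ n s) :
    CF fun s : ∀ n, S n => NZ (fun n => Q n (s n)) (fun n => x n (s n)) fun n => A n (s n) :=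
  cf_all fun E : ℕ => cf_whp Q fun n s ω => ∀ F : Pl N, F.totalDegree ≤ E → F ≠ 0 →
    0 < nc (Q n s) (x n s) (A n s) ω F

theorem cf_poor (y : ∀ n s, W n s → V N) (A : ∀ n s, W n s → Λ n s) (j : ∀ n, S n → ℕ) (η : ℝ) :
    CF fun s : ∀ n, S n => Poor (fun n => Q n (s n)) (fun n => m n (s n)) (fun n => y n (s n))
      (fun n => A n (s n)) (fun n => j n (s n)) η :=
  cf_ev fun n s => Det (Q n s) (fun ω => fl (j n s) (y n s ω)) (A n s)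
    (Real.exp (-(η * m n s)) * (2 ^ j n s) ^ N)

theorem cf_heavy (y : ∀ n s, W n s → V N) (A : ∀ n s, W n s → Λ n s) (j : ∀ n, S n → ℕ)
    (v : ∀ n, S n → ℝ) : CF fun s : ∀ n, S n => Heavy (fun n => Q n (s n)) (fun n => m n (s n))
      (fun n => y n (s n)) (fun n => A n (s n)) (fun n => j n (s n)) fun n => v n (s n) :=
  cf_gp Q m fun n s ω Γ => Real.exp (v n s) / (2 ^ j n s) ^ N ≤
    Γ * dn (Q n s) (fun u => fl (j n s) (y n s u)) (A n s) ω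

theorem cf_light (y : ∀ n s, W n s → V N) (A : ∀ n s, W n s → Λ n s) (j : ∀ n, S n → ℕ)
    (v : ∀ n, S n → ℝ) : CF fun s : ∀ n, S n => Light (fun n => Q n (s n)) (fun n => m n (s n))
      (fun n => y n (s n)) (fun n => A n (s n)) (fun n => j n (s n)) fun n => v n (s n) :=
  cf_gp Q m fun n s ω Γ => dn (Q n s) (fun u => fl (j n s) (y n s u)) (A n s) ω ≤
    Γ * (Real.exp (v n s) / (2 ^ j n s) ^ N)

theorem cf_sure (x : ∀ n s, W n s → V N) : CF fun s : ∀ n, S n =>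
    Sure (fun n => Q n (s n)) (fun n => m n (s n)) fun n => x n (s n) :=
  cf_sub m fun n s Γ => ∀ ω ∈ (Q n s).S, ‖x n s ω‖ ≤ Γ

theorem cf_nse (x ξ : ∀ n s, W n s → V N) (κ : ∀ n s, Kd k (W n s)) (C : ℕ) :
    CF fun s : ∀ n, S n => Nse (fun n => Q n (s n)) (fun n => m n (s n)) (fun n => x n (s n))
      (fun n => ξ n (s n)) (fun n => κ n (s n)) C :=
  ((cf_kind Q m x κ C 0).and ((cf_bdd Q m ξ).and (cf_full Q m
    (fun n s => ((κ n s).nz (ξ n s)).p) fun n s => (κ n s).Z))).congr fun _ =>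
    ⟨fun h => ⟨h.1, h.2, h.3⟩, fun h => ⟨h.1, h.2.1, h.2.2⟩⟩

/-- The frame conditions without the bound for the degree. -/
theorem cf_frm (x : ∀ n s, W n s → V N) (Z : ∀ b n s, W n s → β b n s) (A : ∀ n s, W n s → Λ n s)
    (Θ : ∀ n s, W n s → Fin N' → Pl N) (D : ℕ) (h : ∀ n s ω i, (Θ n s ω i).totalDegree ≤ D) :
    CF fun s : ∀ n, S n => Frm (β := fun b n => β b n (s n)) (fun n => Q n (s n))
      (fun n => m n (s n)) (fun n => x n (s n)) (fun b n => Z b n (s n)) (fun n => A n (s n))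
      (fun n => Θ n (s n)) D :=
  ((cf_fnE Q Θ A).and ((cf_bdd Q m fun n s => cht (Θ n s) (x n s)).and
    (cf_min Q m (fun n s => cht (Θ n s) (x n s)) Z))).congr fun s =>
    ⟨fun h => ⟨h.1, h.3, h.4⟩, fun e => ⟨e.1, fun n => h n (s n), e.2.1, e.2.2⟩⟩

theorem cf_cel (x : ∀ n s, W n s → V N) (Z : ∀ b n s, W n s → β b n s) (A : ∀ n s, W n s → Λ n s)
    (Θ : ∀ n s, W n s → Fin N → Pl N) (D : ℕ) (h : ∀ n s ω i, (Θ n s ω i).totalDegree ≤ D) :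
    CF fun s : ∀ n, S n => Cel (β := fun b n => β b n (s n)) (fun n => Q n (s n))
      (fun n => m n (s n)) (fun n => x n (s n)) (fun b n => Z b n (s n)) (fun n => A n (s n))
      (fun n => Θ n (s n)) D :=
  ((cf_cm Q m x Z A).and (cf_frm Q m x Z A Θ D h)).congr fun _ =>
    ⟨fun h => ⟨h.1, h.2⟩, fun h => ⟨h.1, h.2⟩⟩

theorem ra_iff {Ω : ℕ → Type} {P : ∀ n, FP (Ω n)} {M : ℕ → ℕ} {x : ∀ n, Ω n → V N}
    {κ : ∀ n, Kd k (Ω n)} {C : ℕ} : RA P M x κ C ↔ ∀ (R K E : ℕ) (ε : ℝ), 0 < ε → ∀ᶠ n in UF,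
      ∀ t ≤ R * M n, ∃ (G : Ω n → Prop) (Γ : ℝ), pb (P n) (fun ω => ¬G ω) ≤ ε ∧ 1 ≤ Γ ∧
        Γ ≤ Real.exp (ε * M n) ∧ RG (P n) (x n) ((κ n).pc t) G E C Γ (dl M K n) :=
  ⟨fun h R K E ε hε => unif (A := fun _ => ℕ) (h := fun n t => t ≤ R * M n) fun t ht =>
      (gd_iff (q := fun n G Γ => RG (P n) (x n) ((κ n).pc (t n)) G E C Γ (dl M K n))).1
        (h t ⟨R, ht⟩ K E) ε hε,
    fun h t ⟨R, ht⟩ K E =>
      (gd_iff (q := fun n G Γ => RG (P n) (x n) ((κ n).pc (t n)) G E C Γ (dl M K n))).2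
        fun ε hε => ((h R K E ε hε).and ht).mono fun _ a => a.1 _ a.2⟩

theorem cf_ra (x : ∀ n s, W n s → V N) (κ : ∀ n s, Kd k (W n s)) (C : ℕ) :
    CF fun s : ∀ n, S n => RA (fun n => Q n (s n)) (fun n => m n (s n)) (fun n => x n (s n))
      (fun n => κ n (s n)) C :=
  (cf_all fun R : ℕ => cf_all fun K : ℕ => cf_all fun E : ℕ =>
    cf_eps (p := fun ε n s => ∀ t ≤ R * m n s, ∃ (G : W n s → Prop) (Γ : ℝ),
      pb (Q n s) (fun ω => ¬G ω) ≤ ε ∧ 1 ≤ Γ ∧ Γ ≤ Real.exp (ε * m n s) ∧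
        RG (Q n s) (x n s) ((κ n s).pc t) G E C Γ (Real.exp (-((K : ℝ) * m n s))))
      fun _ _ _ _ _ a h t ht => (h t ht).elim fun G ⟨Γ, b, c, d, e⟩ => ⟨G, Γ, b.trans a, c,
        d.trans (Real.exp_le_exp.2 (mul_le_mul_of_nonneg_right a (Nat.cast_nonneg _))), e⟩).congr
    fun _ => ra_iff

end CF

end Pool.Agent.MP_5168f5_an.AN
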