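import Pool.Agent.MP_5168f5_an.H83.AREA

/-! Algebraic relations between `n + 1` polynomials in `n` variables. -/

namespace Pool.Agent.MP_5168f5_an.AN.Nc

open MvPolynomial Finset H83

/-- Real polynomials in `n` variables. -/
abbrev Pl (n : ℕ) : Type := MvPolynomial (Fin n) ℝ

variable {n : ℕ}

/-- The map given by a tuple of polynomials. -/
noncomputable def ev {k : ℕ} (Φ : Fin k → Pl n) (y : V n) : V k := fun i => eval y (Φ i)

theorem eval_aeval {k : ℕ} (Φ : Fin k → Pl n) (H : Pl k) (y : V n) :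
    eval y (aeval Φ H) = eval (ev Φ y) H := by
  induction H using MvPolynomial.induction_on with
  | C a => simp
  | add p q hp hq => simp only [map_add, hp, hq]
  | mul_X p i hp => simp only [map_mul, hp, aeval_X, eval_X, ev]

/-- The order of the relation. -/
def ord (n D : ℕ) : ℕ := (n * D + 1) ^ n

theorem ord_pos (n D : ℕ) : 0 < ord n D := by unfold ord; positivity

theorem rel {D E : ℕ} (Φ : Fin n → Pl n) (G : Pl n) (hΦ : ∀ i, (Φ i).totalDegree ≤ D)
    (hG : G.totalDegree ≤ E) : ∃ r : Fin (ord n D + 1) → Pl n, (∃ j, r j ≠ 0) ∧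
      (∀ j, (r j).totalDegree ≤ n * (ord n D * E)) ∧ ∑ j, aeval Φ (r j) * G ^ (j : ℕ) = 0 := by
  classical
  set s := ord n D with hs
  have h1 : ∀ a : Fin (s + 1) × (Fin n → Fin (s * E + 1)), IsPoly (n * (s * E * D) + s * E)
      fun x : V n => (∏ i, eval x (Φ i) ^ (a.2 i : ℕ)) * eval x G ^ (a.1 : ℕ) := by
    intro a
    have h2 := IsPoly.prod univ (d := fun _ : Fin n => s * E * D)
      (f := fun i x => eval x (Φ i) ^ (a.2 i : ℕ)) fun i _ =>
        (IsPoly.pow ⟨Φ i, hΦ i, fun _ => rfl⟩ (a.2 i)).mono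
          (Nat.mul_le_mul_right _ (Nat.lt_succ_iff.1 (a.2 i).2))
    refine (h2.mul (IsPoly.pow ⟨G, hG, fun _ => rfl⟩ a.1)).mono ?_
    simp only [sum_const, card_univ, Fintype.card_fin, smul_eq_mul]
    exact Nat.add_le_add_left (Nat.mul_le_mul_right _ (Nat.lt_succ_iff.1 a.1.2)) _
  obtain ⟨c, h2, h3⟩ := AREA.dep h1 (by
    have h4 : n * (s * E * D) + s * E + 1 ≤ (n * D + 1) * (s * E + 1) := by
      nlinarith [Nat.zero_le (n * D)]
    refine (Nat.pow_le_pow_left h4 n).trans_lt ?_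
    rw [mul_pow]
    simp only [Fintype.card_prod, Fintype.card_fin, Fintype.card_fun]
    exact Nat.mul_lt_mul_of_pos_right (Nat.lt_succ_self s) (by positivity))
  obtain ⟨⟨j₀, a₀⟩, h4⟩ := Function.ne_iff.1 h2
  have he : ∀ (j : Fin (s + 1)) (y : V n), eval y (∑ a : Fin n → Fin (s * E + 1),
      C (c (j, a)) * ∏ i, (X i : Pl n) ^ (a i : ℕ)) = ∑ a, c (j, a) * ∏ i, y i ^ (a i : ℕ) :=
    fun j y => by simp
  refine ⟨fun j => ∑ a : Fin n → Fin (s * E + 1), C (c (j, a)) * ∏ i, X i ^ (a i : ℕ), ⟨j₀, ?_⟩,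
    fun j => ?_, ?_⟩
  · obtain ⟨y, hy⟩ := AREA.indep (c := fun a => c (j₀, a)) h4
    intro h
    beta_reduce at h
    exact hy (by rw [← he, h, map_zero])
  · refine totalDegree_finsetSum_le fun a _ => (totalDegree_mul _ _).trans ?_
    rw [totalDegree_C, zero_add]
    refine (totalDegree_finsetProd _ _).trans ?_
    refine (sum_le_card_nsmul _ _ (s * E) fun i _ => ?_).trans (by simp)
    rw [totalDegree_X_pow]
    exact Nat.lt_succ_iff.1 (a i).2
  · refine MvPolynomial.funext fun y => ?_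
    rw [map_zero, ← h3 y, Fintype.sum_prod_type, map_sum]
    refine sum_congr rfl fun j _ => ?_
    rw [map_mul, eval_aeval, he, sum_mul, map_pow]
    exact sum_congr rfl fun a _ => by simp only [ev, mul_assoc]

/-- A nonzero multiple of `G` that is a polynomial in `Φ`. -/
theorem elim {D E : ℕ} (Φ : Fin n → Pl n) {G : Pl n} (hΦ : ∀ i, (Φ i).totalDegree ≤ D)
    (hG : G.totalDegree ≤ E) (h0 : G ≠ 0) :
    ∃ H : Pl n, H ≠ 0 ∧ H.totalDegree ≤ n * (ord n D * E) ∧ G ∣ aeval Φ H := by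
  classical
  obtain ⟨r, hj, hd, h⟩ := rel Φ G hΦ hG
  let S := univ.filter fun j => r j ≠ 0
  have hS : S.Nonempty := hj.imp fun j h => by simpa [S] using h
  let j₀ := S.min' hS
  refine ⟨r j₀, (mem_filter.1 (S.min'_mem hS)).2, hd j₀, ?_⟩
  have h1 : G ^ (j₀ : ℕ) * G ∣ ∑ j ∈ univ.erase j₀, aeval Φ (r j) * G ^ (j : ℕ) := by
    refine dvd_sum fun j hj => ?_
    by_cases h2 : r j = 0
    · simp [h2]
    · have h3 : j₀ < j := lt_of_le_of_ne (S.min'_le j (by simpa [S] using h2))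
        (ne_of_mem_erase hj).symm
      rw [← pow_succ]
      exact (pow_dvd_pow G h3).mul_left _
  rw [← add_sum_erase _ _ (mem_univ j₀), ← eq_neg_iff_add_eq_zero] at h
  rw [← dvd_neg, ← h, mul_comm (aeval Φ _)] at h1
  exact (mul_dvd_mul_iff_left (pow_ne_zero _ h0)).1 h1

/-- Pointwise form. -/
theorem elim' {D E : ℕ} (Φ : Fin n → Pl n) {G : Pl n} (hΦ : ∀ i, (Φ i).totalDegree ≤ D)
    (hG : G.totalDegree ≤ E) (h0 : G ≠ 0) : ∃ H : Pl n, H ≠ 0 ∧
      H.totalDegree ≤ n * (ord n D * E) ∧ ∀ y, eval (ev Φ y) H ≠ 0 → eval y G ≠ 0 := by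
  obtain ⟨H, h1, h2, K, h3⟩ := elim Φ hΦ hG h0
  refine ⟨H, h1, h2, fun y hy h => hy ?_⟩
  rw [← eval_aeval, h3, map_mul, h, zero_mul]

/-- The same for a finite family; zero members are ignored. -/
theorem elim_fam {ι : Type} [Fintype ι] {D E : ℕ} (Φ : Fin n → Pl n) (G : ι → Pl n)
    (hΦ : ∀ i, (Φ i).totalDegree ≤ D) (hG : ∀ a, (G a).totalDegree ≤ E) : ∃ H : Pl n, H ≠ 0 ∧
      H.totalDegree ≤ Fintype.card ι * (n * (ord n D * E)) ∧
      ∀ y, eval (ev Φ y) H ≠ 0 → ∀ a, G a ≠ 0 → eval y (G a) ≠ 0 := by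
  classical
  have : ∀ a, ∃ H : Pl n, H ≠ 0 ∧ H.totalDegree ≤ n * (ord n D * E) ∧
      ∀ y, eval (ev Φ y) H ≠ 0 → G a ≠ 0 → eval y (G a) ≠ 0 := fun a => by
    by_cases h : G a = 0
    · exact ⟨1, one_ne_zero, by simp, fun _ _ k => absurd h k⟩
    · obtain ⟨H, h1, h2, h3⟩ := elim' Φ hΦ (hG a) h
      exact ⟨H, h1, h2, fun y hy _ => h3 y hy⟩
  choose H h1 h2 h3 using this
  refine ⟨∏ a, H a, prod_ne_zero_iff.2 fun a _ => h1 a, (totalDegree_finsetProd _ _).trans
    ((sum_le_card_nsmul _ _ _ fun a _ => h2 a).trans (by simp)), fun y hy a => h3 a y ?_⟩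
  rw [map_prod] at hy
  exact prod_ne_zero_iff.1 hy a (mem_univ a)

/-- A polynomial takes few values on a generic fibre. -/
theorem vals {D E : ℕ} (Φ : Fin n → Pl n) (G : Pl n) (hΦ : ∀ i, (Φ i).totalDegree ≤ D)
    (hG : G.totalDegree ≤ E) : ∃ H : Pl n, H ≠ 0 ∧ H.totalDegree ≤ n * (ord n D * E) ∧
      ∀ u, eval u H ≠ 0 → ∃ R : Finset ℝ, R.card ≤ ord n D ∧ ∀ y, ev Φ y = u → eval y G ∈ R := by
  classical
  obtain ⟨r, ⟨j₀, hj⟩, hd, h⟩ := rel Φ G hΦ hG
  refine ⟨r j₀, hj, hd j₀, fun u hu => ?_⟩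
  let q : Polynomial ℝ := ∑ j : Fin (ord n D + 1), Polynomial.monomial j (eval u (r j))
  have h6 : q ≠ 0 := by
    intro h7
    have h8 := congrArg (fun p => Polynomial.coeff p j₀) h7
    simp only [q, Polynomial.finsetSum_coeff, Polynomial.coeff_zero] at h8
    rw [sum_eq_single j₀] at h8
    · exact hu (by simpa using h8)
    · intro b _ hb
      rw [Polynomial.coeff_monomial, if_neg fun h9 => hb (Fin.ext h9)]
    · simp
  have h7 : q.natDegree ≤ ord n D := Polynomial.natDegree_sum_le_of_forall_le _ _ fun j _ =>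
    (Polynomial.natDegree_monomial_le _).trans (Nat.lt_succ_iff.1 j.2)
  refine ⟨q.roots.toFinset, (Multiset.toFinset_card_le _).trans
    ((Polynomial.card_roots' q).trans h7), fun y e => ?_⟩
  rw [Multiset.mem_toFinset, Polynomial.mem_roots h6, Polynomial.IsRoot.def]
  have h8 := congrArg (eval y) h
  simp only [map_sum, map_mul, map_pow, eval_aeval, e, map_zero] at h8
  simpa only [q, Polynomial.eval_finsetSum, Polynomial.eval_monomial] using h8

/-- Generic fibres are small. -/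
theorem fibre {D : ℕ} (Φ : Fin n → Pl n) (hΦ : ∀ i, (Φ i).totalDegree ≤ D) :
    ∃ H : Pl n, H ≠ 0 ∧ H.totalDegree ≤ n * (n * ord n D) ∧
      ∀ u, eval u H ≠ 0 → ∃ R : Finset (V n), R.card ≤ ord n D ^ n ∧ ∀ y, ev Φ y = u → y ∈ R := by
  classical
  choose H h1 h2 h3 using fun k : Fin n => vals Φ (X k) hΦ (E := 1) (by simp)
  refine ⟨∏ a, H a, prod_ne_zero_iff.2 fun a _ => h1 a, (totalDegree_finsetProd _ _).trans
    ((sum_le_card_nsmul _ _ _ fun a _ => h2 a).trans (by simp)), fun u hu => ?_⟩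
  rw [map_prod] at hu
  choose R k1 k2 using fun k => h3 k u (prod_ne_zero_iff.1 hu k (mem_univ k))
  refine ⟨Fintype.piFinset R, ?_, fun y e => Fintype.mem_piFinset.2 fun k => by
    simpa using k2 k y e⟩
  rw [Fintype.card_piFinset]
  simpa using prod_le_pow_card univ (fun k => (R k).card) _ fun k _ => k1 k

end Pool.Agent.MP_5168f5_an.AN.Nc
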