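import Pool.Agent.MP_5168f5_an.AN.S20Nz1
import Pool.Agent.MP_5168f5_an.AN.Api
import Pool.Agent.MP_5168f5_an.AN.NcRel

/-! Fresh noise: the floor, minimality, and the norms of the cells. -/

namespace Pool.Agent.MP_5168f5_an.AN.Nz

open H19 H17S H17F R4 Filter MvPolynomial
open G39 (nu dl dl_pos dl_add dl_anti dl_pow dl_inv dl_lt dl_half)
open Pk (cn kc subP mons)
open Nc (Pl)
open A1 (Floor)
open S20 (shA eval_shA deg_shA gp_norm fl_gp mem_prod pb_prod)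

section One

variable {Ω Ω' β : Type} {N J : ℕ}

theorem pb_prod_and (P : FP Ω) (R : FP Ω') (E : Ω → Prop) (S : Ω' → Prop) :
    pb (prod P R) (fun v => E v.1 ∧ S v.2) = pb P E * pb R S := by
  rw [pb_prod, mul_comm]
  refine Eq.trans (P.E_congr fun ω _ => ?_) (P.E_mul _ _)
  by_cases h : E ω <;> simp [h, pb_zero]

/-- The law given the first coordinate and a function of the second. -/
theorem pb_cv_prod {P : FP Ω} {R : FP Ω'} (B : Ω' → β) {u : Ω × Ω'} (h : u ∈ (prod P R).S)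
    (E : Ω × Ω' → Prop) : pb (cv (prod P R) (fun v => (v.1, B v.2)) (u.1, B u.2)) E =
      pb (cv R B (B u.2)) fun a => E (u.1, a) := by
  rw [S20.pb_cv' h (fun v => (v.1, B v.2)), S20.pb_cv' ((mem_prod u).1 h).2,
    pb_congr (F := fun v => v.1 = u.1 ∧ (B v.2 = B u.2 ∧ E (u.1, v.2))) fun v _ => by
      rw [Prod.mk.injEq, and_assoc]
      exact and_congr_right fun e => by rw [← e],
    pb_congr (E := fun v : Ω × Ω' => (v.1, B v.2) = (u.1, B u.2))
      (F := fun v => v.1 = u.1 ∧ B v.2 = B u.2) fun v _ => Prod.mk.injEq _ _ _ _ ▸ Iff.rfl,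
    pb_prod_and P R (· = u.1) fun a => B a = B u.2 ∧ E (u.1, a),
    pb_prod_and P R (· = u.1) fun a => B a = B u.2,
    mul_div_mul_left _ _ (pb_pos P (E := fun x => x = u.1) ⟨_, ((mem_prod u).1 h).1, rfl⟩).ne']

open Classical in
theorem pb_grid (E : (Fin N → Fin (2 ^ J)) → Prop) :
    pb (grid N J) E = (Finset.univ.filter E).card / (2 ^ J) ^ N := by
  rw [pb_eq]
  simp [grid, FP.unif, div_eq_mul_inv]

theorem grid_cell {t : ℕ} (h : t ≤ J) (a : Fin N → Fin (2 ^ J)) :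
    1 / (2 ^ t) ^ N ≤ pb (grid N J) fun b => fl t (gp b) = fl t (gp a) := by
  classical
  have p : 0 < 2 ^ (J - t) := by positivity
  have lt : ∀ i (r : Fin (2 ^ (J - t))),
      (a i : ℕ) / 2 ^ (J - t) * 2 ^ (J - t) + (r : ℕ) < 2 ^ J := fun i r => by
    have e : 2 ^ J = 2 ^ t * 2 ^ (J - t) := by rw [← pow_add, Nat.add_sub_cancel' h]
    have : (a i : ℕ) / 2 ^ (J - t) < 2 ^ t := (Nat.div_lt_iff_lt_mul p).2 ((a i).2.trans_eq e)
    nlinarith [r.2]
  have := Finset.card_le_card_of_injOn (s := Finset.univ)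
    (t := Finset.univ.filter fun b : Fin N → Fin (2 ^ J) => fl t (gp b) = fl t (gp a))
    (fun (r : Fin N → Fin (2 ^ (J - t))) i => (⟨_, lt i (r i)⟩ : Fin (2 ^ J))) (fun r _ => by
      refine Finset.mem_coe.2 (Finset.mem_filter.2 ⟨Finset.mem_univ _, ?_⟩)
      funext i
      rw [fl_apply, fl_apply, fl1_nest h, fl1_nest h, fl_gp, fl_gp]
      norm_cast
      change (_ + _) / _ = _
      rw [add_comm, Nat.add_mul_div_right _ _ p, Nat.div_eq_of_lt (r i).2, zero_add])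
    fun r _ r' _ e => funext fun i => Fin.ext (by simpa using congrFun e i)
  rw [pb_grid, div_le_div_iff₀ (by positivity) (by positivity), one_mul]
  simp only [Finset.card_univ, Fintype.card_pi, Fintype.card_fin, Finset.prod_const] at this
  calc ((2 : ℝ) ^ J) ^ N = ((2 ^ (J - t)) ^ N : ℕ) * (2 ^ t) ^ N := by
        push_cast; rw [← mul_pow, ← pow_add, Nat.sub_add_cancel h]
    _ ≤ _ := mul_le_mul_of_nonneg_right (Nat.cast_le.2 (by convert this)) (by positivity)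

theorem cn_sh (x : V N) {r B : ℝ} (hr : 0 < r) {F : Pl N} {E : ℕ} (h : F.totalDegree ≤ E)
    (h1 : 1 ≤ B) (h2 : (‖x‖ + 1) / r ≤ B) : cn F ≤ cn (shA r x F) * B ^ E := by
  have e : F = shA r⁻¹ (-r⁻¹ • x) (shA r x F) := MvPolynomial.funext fun w => by
    rw [eval_shA, eval_shA]; congr 2; funext i; simp; field_simp; ring
  conv_lhs => rw [e]
  refine kc.comp _ _ E B (deg_shA r x h) h1 fun i => (kc.add _ _).trans (le_trans ?_ h2)
  rw [kc.const, C_mul', kc.smul, kc.var, add_div, mul_one, abs_of_pos (inv_pos.2 hr), one_div]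
  refine add_le_add ?_ le_rfl
  rw [Pi.smul_apply, smul_eq_mul, abs_mul, abs_neg, abs_of_pos (inv_pos.2 hr), div_eq_inv_mul]
  exact mul_le_mul_of_nonneg_left (norm_le_pi_norm x i) (inv_pos.2 hr).le

/-- Sublevel sets in a cell of the grid. -/
theorem grid_sub (N E : ℕ) : ∃ C : ℝ, 1 ≤ C ∧ ∀ (J t : ℕ) (a : Fin N → Fin (2 ^ J)) (F : Pl N)
    (μ : ℝ), t ≤ J → F.totalDegree ≤ E → 0 < μ → C ≤ μ ^ (N * E) * 2 ^ J →
    pb (cv (grid N J) (fun b => fl t (gp b)) (fl t (gp a)))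
      (fun b => C * |eval (gp b) F| < μ ^ (N * E) * cn F) ≤ C * (2 ^ t) ^ N * μ := by
  obtain ⟨C, hC, h⟩ := subP N E
  refine ⟨C, hC, fun J t a F μ ht hF hμ e => ?_⟩
  simpa using h (cv (grid N J) (fun b => fl t (gp b)) (fl t (gp a))) gp (fun _ => True) F 1
    ((2 ^ t) ^ N) μ J hF le_rfl (by positivity) (fun b _ _ => gp_norm b) (fun c => by
      rw [S20.pb_cv' (Finset.mem_univ a), div_le_iff₀ (S20.pb_val (Finset.mem_univ a) _)]
      refine ((pb_mono fun _ _ k => k.2).trans (S20.pb_grid N J c)).trans (le_trans (le_of_eq ?_)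
        (mul_le_mul_of_nonneg_left (grid_cell ht a) (by positivity)))
      field_simp) hμ (by simpa using e)

end One

theorem two_pow_le {M t : ℕ → ℕ} {R n : ℕ} (h : t n ≤ R * M n) : (2 : ℝ) ^ t n ≤ (dl M R n)⁻¹ := by
  rw [dl_inv]
  exact (two_pow_le_exp _).trans (Real.exp_le_exp.2 (by exact_mod_cast h))

theorem fine_ev {M J : ℕ → ℕ} (hM : Big M) (hJ : Fine M J) (C a : ℝ) :
    ∀ᶠ n in UF, C ≤ dl M a n * 2 ^ J n := by
  obtain ⟨R, hR⟩ := exists_nat_ge (2 * (a + 1))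
  filter_upwards [hJ R, G39.big_dl hM C one_pos] with n u v
  refine v.trans (le_trans ?_ (mul_le_mul_of_nonneg_left (exp_le_two_pow _) (dl_pos _ _ _).le))
  rw [dl_inv, dl, ← Real.exp_add, Real.exp_le_exp]
  have : (R : ℝ) * M n ≤ J n := by exact_mod_cast u
  nlinarith [Nat.cast_nonneg (α := ℝ) (M n)]

theorem fine_big {M J : ℕ → ℕ} (hM : Big M) (hJ : Fine M J) (C : ℝ) : ∀ᶠ n in UF, C ≤ 2 ^ J n :=
  (fine_ev hM hJ C 0).mono fun n a => by simpa [dl] using a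

/-- The floor of the noise. -/
theorem nz_flr {Ω : ℕ → Type} {N : ℕ} {P : ∀ n, FP (Ω n)} {M J h t : ℕ → ℕ} {x : ∀ n, Ω n → V N}
    (hM : Big M) (hJ : Fine M J) (hh : Lin M h) (ht : Lin M t) (bd : Bdd P M x) :
    Floor (NP P N J) M (blurs (pl (Nπ Ω N J) x) (Nξ Ω N J) h)
      fun n v => (v.1, fl (t n) (Nξ Ω N J n v)) := fun E => by
  obtain ⟨R, hR⟩ := hh
  obtain ⟨T, hT⟩ := ht
  obtain ⟨C, hC, h1⟩ := grid_sub N E
  obtain ⟨Γ, g1, g2⟩ := S20.gp_iff.1 bd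
  refine ⟨E * (R + 2) + (N * E : ℕ) * (N * T + 2) + 1, 1, fun n v => ‖x n v.1‖ ≤ Γ n, one_pos,
    S20.whp_pull g2 (Eventually.of_forall fun n => S20.law_fst _ _), ?_⟩
  filter_upwards [hR, hT, hJ T, fine_ev hM hJ C ((N * E : ℕ) * (N * T + 2)), G39.sub_dl g1 one_pos,
    G39.big_dl hM C one_pos, G39.big_dl hM 2 one_pos] with n k1 k2 k3 k4 k5 k6 k7 u hu F hF
  rw [← dl_pow] at k4
  have d1 := dl_pos M 1 n
  rw [pb_cv_prod (fun a => fl (t n) (gp a)) hu]
  refine (pb_mono fun b _ k => ?_).trans ((h1 (J n) (t n) u.2 (shA (2 ^ h n)⁻¹ (x n u.1) F) _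
    (k2.trans k3) (deg_shA _ _ hF) (dl_pos _ _ _) k4).trans ?_)
  · have c1 := cn_sh (x n u.1) (r := (2 ^ h n)⁻¹) (B := (dl M (R + 2) n)⁻¹) (by positivity) hF
      (by rw [dl_inv]; exact Real.one_le_exp (by positivity)) (by
        rw [div_inv_eq_mul, add_comm (R : ℝ), dl_add, mul_inv, show (2 : ℝ) = 1 + 1 by norm_num,
          dl_add, mul_inv, one_add_one_eq_two]
        exact mul_le_mul (by nlinarith [k.1, g1.1 n]) (two_pow_le k1) (by positivity) (by positivity))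
    have c2 := k.2
    rw [eval_shA, dl_pow]
    rw [inv_pow, dl_pow, ← div_eq_mul_inv, le_div_iff₀ (dl_pos _ _ _)] at c1
    rw [dl_add, dl_add] at c2
    rw [le_inv_comm₀ (by linarith) d1, ← one_div, le_div_iff₀ (by linarith)] at k6
    refine (mul_lt_mul_of_pos_left c2 (by linarith)).trans_le ?_
    have c3 := dl_pos M ((N * E : ℕ) * (N * T + 2)) n
    have c4 := mul_nonneg (kc.nonneg F) (dl_pos M (E * (R + 2)) n).le
    nlinarith [mul_le_mul_of_nonneg_left c1 c3.le, mul_le_mul_of_nonneg_left k6 (mul_nonneg c4 c3.le)]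
  · have c1 := pow_le_pow_left₀ (by positivity) (two_pow_le k2) N
    rw [inv_pow, dl_pow, ← one_div, le_div_iff₀ (dl_pos _ _ _)] at c1
    rw [le_inv_comm₀ (by linarith) d1, ← one_div, le_div_iff₀ (by linarith)] at k6
    rw [dl_add, show (2 : ℝ) = 1 + 1 by norm_num, dl_add, one_add_one_eq_two]
    calc _ = (2 ^ t n) ^ N * dl M (N * T) n * (dl M 1 n * C) * dl M 1 n := by ring
      _ ≤ 1 * 1 * dl M 1 n := by gcongr
      _ = _ := by ring

/-- The noise keeps minimality. -/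
theorem nz_min {Ω : ℕ → Type} {β : Bool → ℕ → Type} {N N' D : ℕ} {P : ∀ n, FP (Ω n)}
    {M J h : ℕ → ℕ} {x : ∀ n, Ω n → V N} {Z : ∀ b n, Ω n → β b n}
    {Θ : ∀ n, Ω n → Fin N' → Pl N} {ν : ∀ n, Ω n → Pl N' → ℝ} (hM : Big M) (hJ : Fine M J)
    (hΘ : ∀ n ω i, (Θ n ω i).totalDegree ≤ D) (H : NT P M (chs Θ x) Z ν) : NT (NP P N J) M
      (chs (pl (Nπ Ω N J) Θ) (blurs (pl (Nπ Ω N J) x) (Nξ Ω N J) h)) (pl2 (Nπ Ω N J) Z)
      (pl (Nπ Ω N J) ν) := fun E c F hc hF ε hε => by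
  obtain ⟨C, hC, h1⟩ := S20.grid_poly N (E * D)
  have m0 : 0 < ε / 2 / C := by positivity
  filter_upwards [S20.whp_pull (H E (c / 2) F (half_pos hc) hF) (Eventually.of_forall fun n =>
    S20.law_fst (P n) (grid N (J n))) _ (half_pos hε),
    fine_big hM hJ (C / (ε / 2 / C) ^ (N * (E * D))),
    dl_lt hM (K := (ε / 2 / C) ^ (N * (E * D)) / C) (by positivity) (half_pos hc)] with n k1 k2 k3
  rw [div_le_iff₀' (by positivity)] at k2
  rw [lt_div_iff₀' (by positivity)] at k3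
  let g : Ω n → Pl N := fun ω => shA (2 ^ h n)⁻¹ (x n ω) (aeval (Θ n ω) (F true n (Z true n ω)))
  have dg : ∀ ω, (aeval (Θ n ω) (F true n (Z true n ω))).totalDegree ≤ E * D := fun ω =>
    kc.deg _ _ _ _ (hF _ _ _) (hΘ n ω)
  have k4 : pb (NP P N J n) (fun v => C * |eval (gp v.2) (g v.1)| <
      (ε / 2 / C) ^ (N * (E * D)) * cn (g v.1)) ≤ ε / 2 := by
    rw [pb_prod]
    refine ((P n).E_mono fun ω _ => ((h1 (J n) (g ω) (deg_shA _ _ (dg ω))).2.1 _ m0 k2).trans_eq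
      ?_).trans_eq ((P n).E_const _)
    field_simp
  refine le_trans (pb_mono fun v _ u => ?_) ((pb_or _ _ _).trans
    ((add_le_add k1 k4).trans_eq (add_halves ε)))
  have u := not_not.1 u
  refine or_iff_not_imp_left.2 fun w => ?_
  have w1 := not_lt.1 fun a => not_not.1 w ⟨u.1, a⟩
  have w2 := S20.val_shA0 (2 ^ h n)⁻¹ (x n v.1) (dg v.1)
  have w3 := u.2
  rw [Nc.eval_aeval] at w2
  rw [dl_half] at w3
  simp only [g]
  rw [eval_shA, Nc.eval_aeval]
  refine (mul_lt_mul_of_pos_left w3 (by linarith)).trans_le ?_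
  have d := dl_pos M (c / 2) n
  have w4 := mul_le_mul_of_nonneg_left (w1.trans w2) (mul_pos (by linarith : 0 < C) d).le
  have w5 := mul_le_mul_of_nonneg_right k3.le (kc.nonneg (g v.1))
  exact le_trans (by linarith) w5

/-- The noise keeps the norms of the cells. -/
theorem nz_nu {Ω Λ : ℕ → Type} {N : ℕ} {P : ∀ n, FP (Ω n)} {M J h : ℕ → ℕ} {x : ∀ n, Ω n → V N}
    {A : ∀ n, Ω n → Λ n} (hM : Big M) (hJ : Fine M J) (H : DLe P M x A h) :
    NuEq (NP P N J) M (pl (Nπ Ω N J) fun n => nc (P n) (x n) (A n)) fun n =>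
      nc (NP P N J n) (blurs (pl (Nπ Ω N J) x) (Nξ Ω N J) h n) (pl (Nπ Ω N J) A n) := fun E => by
  obtain ⟨C, hC, h1⟩ := S20.grid_poly N E
  obtain ⟨Γ, g1, g2⟩ := S20.gp_iff.1 (H E)
  have c0 : 1 ≤ 2 * C * (2 * C) ^ (N * E) :=
    one_le_mul_of_one_le_of_one_le (by linarith) (one_le_pow₀ (by linarith))
  have c1 : (0 : ℝ) ≤ (mons (Fin N) E).card := Nat.cast_nonneg _
  refine S20.gp_iff.2 ⟨_, (g1.pow E).const_mul hM (C := 2 * C * (2 * C) ^ (N * E) +
    (mons (Fin N) E).card) (by linarith), (S20.whp_pull g2 (Eventually.of_forall fun n =>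
      S20.law_fst (P n) (grid N (J n)))).mono ?_⟩
  filter_upwards [fine_big hM hJ (C * (2 * C) ^ (N * E))] with n k1 v hv k F hF
  have a1 := g1.1 n
  have a2 : 1 ≤ Γ n ^ E := one_le_pow₀ a1
  simp only [nc]
  rw [S20.cv_prod ((mem_prod v).1 hv).1]
  set μ := cv (P n) (A n) (A n v.1)
  refine ⟨(S20.nu_low (zero_le_one.trans c0) fun a _ => (S20.val_shA0 (2 ^ h n)⁻¹ (x n a) hF).trans
    (((h1 (J n) _ (deg_shA _ _ hF)).2.2 k1).trans_eq ?_)).trans
      (mul_le_mul_of_nonneg_right (by nlinarith) (Pk.PM.nu_nn _ _)), ?_⟩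
  · simp only [eval_shA]
    rfl
  refine (S20.nu_up (B := fun a => ∑ α ∈ mons (Fin N) E, |coeff α (shA (2 ^ h n)⁻¹ (x n a) F)|)
    fun a _ t => ?_).trans ((Pk.nu_sum _ _ _).trans ?_)
  · rw [← kc.sup _ _ ((Pk.pCnt.sup E _).1 (deg_shA _ _ hF))]
    exact (S20.val_shA _ _ hF (S20.gp_abs t)).trans (le_abs_self _)
  have b0 := Pk.PM.nu_nn μ fun v => eval (x n v) F
  refine (Finset.sum_le_card_nsmul _ _ (Γ n ^ E * nu μ fun v => eval (x n v) F) fun α hα => ?_).trans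
    (by rw [nsmul_eq_mul, mul_assoc]
        exact mul_le_mul_of_nonneg_right (by linarith) (mul_nonneg (zero_le_one.trans a2) b0))
  refine (Pk.nu_mono fun _ _ => (abs_abs _).le).trans ((S20.nu_coeff (2 ^ h n)⁻¹ μ (x n)
    (by linarith) (fun G hG i => ?_) _ α rfl F hF).trans (mul_le_mul_of_nonneg_right
      (pow_le_pow_right₀ a1 ?_) b0))
  · rw [abs_of_pos (by positivity), inv_mul_le_iff₀ (by positivity), ← mul_assoc, mul_comm _ (Γ n)]
    exact k G hG i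
  · rw [Finsupp.degree_eq_sum]
    exact (Pk.pCnt.mem E α).1 hα

end Pool.Agent.MP_5168f5_an.AN.Nz
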