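import Mathlib

/-! Monotone profiles: a point of positive deficiency rate. -/

namespace Pool.Agent.MP_5168f5_an.AN

open MeasureTheory Set Filter Topology

/-- A function with a one sided Lipschitz bound and positive increment has positive derivative on
a set of positive measure. -/
theorem a2core {G : ℝ → ℝ} {a b K : ℝ} (hab : a < b)
    (lip : ∀ s t, a ≤ s → s < t → t ≤ b → G t - G s ≤ K * (t - s)) (gap : G a < G b)
    {p : ℝ → Prop} (hp : ∀ᵐ x, p x) :
    ∃ s ∈ Ioo a b, p s ∧ DifferentiableAt ℝ G s ∧ 0 < deriv G s := by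
  set f : ℝ → ℝ := fun x => K * x - G x with hf
  have hm : MonotoneOn f (uIcc a b) := by
    rw [uIcc_of_le hab.le]
    intro s hs t ht hst
    rcases hst.eq_or_lt with rfl | h
    · exact le_rfl
    · have := lip s t hs.1 h ht.2
      simp only [hf]; linarith
  have h1 := hm.intervalIntegrable_deriv
  have h2 := hm.intervalIntegral_deriv_mem_uIcc
  have hfab : f a ≤ f b := hm left_mem_uIcc right_mem_uIcc hab.le
  rw [uIcc_of_le (by linarith)] at h2
  by_contra hn
  push Not at hn
  have hd := hm.ae_differentiableWithinAt_of_mem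
  have key : ∀ᵐ x ∂(volume.restrict (Icc a b)), K ≤ deriv f x := by
    rw [ae_restrict_iff' measurableSet_Icc]
    have na : ∀ᵐ x : ℝ, x ≠ a := by simp [ae_iff]
    have nb : ∀ᵐ x : ℝ, x ≠ b := by simp [ae_iff]
    filter_upwards [hd, hp, na, nb] with x h1 h2 h3 h4 hx
    have hx' : x ∈ Ioo a b := ⟨lt_of_le_of_ne hx.1 (Ne.symm h3), lt_of_le_of_ne hx.2 h4⟩
    have d1 := (h1 (by rw [uIcc_of_le hab.le]; exact hx)).differentiableAt
      (by rw [uIcc_of_le hab.le]; exact Icc_mem_nhds hx'.1 hx'.2)
    have e : G = fun x => K * x - f x := by funext y; simp [hf]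
    have d0 : HasDerivAt (fun x : ℝ => K * x) K x := by simpa using (hasDerivAt_id x).const_mul K
    have d2 : HasDerivAt G (K - deriv f x) x := by rw [e]; exact d0.sub d1.hasDerivAt
    have := hn x hx' h2 d2.differentiableAt
    rw [d2.deriv] at this
    linarith
  have h3 := intervalIntegral.integral_mono_ae_restrict hab.le
    (intervalIntegrable_const (c := K)) h1 key
  simp only [intervalIntegral.integral_const, smul_eq_mul] at h3
  have := h2.2
  simp only [hf] at this h3
  nlinarith

/-- If steep windows have small deficiency and the total deficiency is not small, there is a point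
where all profiles are differentiable and the deficiency has positive rate. -/
theorem a2 {ι : Type*} [Countable ι] {V H : ℝ → ℝ} {φ : ι → ℝ → ℝ} (hV : Monotone V)
    (hH : Monotone H) (hφ : ∀ i, Monotone (φ i)) {a b κ K : ℝ} (hab : a < b) (hκ : 0 ≤ κ)
    (hK : 0 ≤ K)
    (steep : ∀ s t, a ≤ s → s < t → t ≤ b → K * (t - s) ≤ V t - V s →
      V t - V s - (H t - H s) ≤ κ * (V t - V s))
    (gap : κ * (V b - V a) < V b - V a - (H b - H a)) :
    ∃ s ∈ Ioo a b, DifferentiableAt ℝ V s ∧ DifferentiableAt ℝ H s ∧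
      (∀ i, DifferentiableAt ℝ (φ i) s) ∧ 0 ≤ deriv H s ∧
      κ * deriv V s < deriv V s - deriv H s := by
  have hp : ∀ᵐ x, DifferentiableAt ℝ V x ∧ DifferentiableAt ℝ H x ∧
      ∀ i, DifferentiableAt ℝ (φ i) x := by
    filter_upwards [hV.ae_differentiableAt, hH.ae_differentiableAt,
      ae_all_iff.2 fun i => (hφ i).ae_differentiableAt] with x a b c using ⟨a, b, c⟩
  obtain ⟨s, hs, ⟨d1, d2, d3⟩, -, d5⟩ := a2core (G := fun x => V x - H x - κ * V x) (K := K) hab
    (fun s t h1 h2 h3 => by
      have v := hV h2.le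
      have h := hH h2.le
      by_cases c : K * (t - s) ≤ V t - V s
      · have := steep s t h1 h2 h3 c
        nlinarith [mul_nonneg hK (sub_pos.2 h2).le]
      · push Not at c
        nlinarith [mul_nonneg hκ (sub_nonneg.2 v)]) (by linarith) hp
  have e : HasDerivAt (fun x => V x - H x - κ * V x) (deriv V s - deriv H s - κ * deriv V s) s :=
    (d1.hasDerivAt.sub d2.hasDerivAt).sub (d1.hasDerivAt.const_mul κ)
  rw [e.deriv] at d5
  exact ⟨s, hs, d1, d2, d3, hH.deriv_nonneg, by linarith⟩

end Pool.Agent.MP_5168f5_an.AN
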