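import Pool.Agent.MP_5168f5_an.AN.N2Tri
import Pool.Agent.MP_5168f5_an.AN.S20Ds
import Pool.Agent.MP_5168f5_an.AN.K3
import Pool.Agent.MP_5168f5_an.AN.PMul

/-! The linear model exists. -/

namespace Pool.Agent.MP_5168f5_an.AN.N2

open H19 H17S H17F R4 Filter MvPolynomial Finset
open G39 (dl dl_pos dl_add dl_anti dl_inv)
open Nc (Pl)
open C1 (Dg)
open GA (Mt)
open S20 (gp_iff gp_of_wp)

section One

variable {N : ℕ} {Ω Λ : Type} (P : FP Ω) (x : Ω → V N) (A : Ω → Λ)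

theorem sn_nc (ω : Ω) : Sn (nc P x A ω) :=
  ⟨fun F G => by simpa only [nc, map_add] using Pk.nu_add _ _ _,
    fun c F => by simpa only [nc, smul_eval] using Pk.nu_smul _ c _⟩

theorem nc_one (ω : Ω) : nc P x A ω 1 = 1 := by simp [nc, Pk.nu_const]

theorem nc_congr {ω ω' : Ω} (h : A ω = A ω') : nc P x A ω = nc P x A ω' := by
  unfold nc; rw [h]

theorem ne (P : FP Ω) : Nonempty Ω := by
  by_contra h
  have := P.sum_one
  rw [eq_empty_of_forall_notMem fun ω (_ : ω ∈ P.S) => h ⟨ω⟩, sum_empty] at this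
  exact zero_ne_one this

/-- A good point with the same label. -/
noncomputable def rep (G : Ω → Prop) (ω : Ω) : Ω :=
  haveI := ne P
  Classical.epsilon fun v => v ∈ P.S ∧ G v ∧ A v = A ω

variable {P A} {G : Ω → Prop} {ω ω' : Ω}

theorem rep_spec (h : ω ∈ P.S) (g : G ω) :
    rep P A G ω ∈ P.S ∧ G (rep P A G ω) ∧ A (rep P A G ω) = A ω :=
  Classical.epsilon_spec (p := fun v => v ∈ P.S ∧ G v ∧ A v = A ω) ⟨ω, h, g, rfl⟩

theorem rep_congr (h : A ω = A ω') : rep P A G ω = rep P A G ω' := by unfold rep; rw [h]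

end One

variable {N m D : ℕ} {Ω Λ : ℕ → Type} {P : ∀ n, FP (Ω n)} {M : ℕ → ℕ} {x : ∀ n, Ω n → V N}
  {S : ℚ → ∀ n, Ω n → Λ n} {σ : ℝ} {la : Fin m → ℝ} {o : Fin m} {Γ : ℕ → ℝ}

theorem dl_zero (M : ℕ → ℕ) (n : ℕ) : dl M 0 n = 1 := by simp [dl]

theorem dl_neg (M : ℕ → ℕ) (c : ℝ) (n : ℕ) : dl M (-c) n = (dl M c n)⁻¹ := by
  rw [dl_inv, dl]; congr 1; ring

theorem dl_sub (M : ℕ → ℕ) (a b : ℝ) (n : ℕ) : dl M (a - b) n = dl M a n / dl M b n := by
  rw [sub_eq_add_neg, dl_add, dl_neg, div_eq_mul_inv]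

theorem small (hM : Big M) (h : Sub M Γ) (A : ℝ) (k : ℕ) {c : ℝ} (hc : 0 < c) :
    ∀ᶠ n in UF, A * Γ n ^ k * dl M c n < 1 := by
  filter_upwards [G39.sub_dl ((h.pow k).const_mul hM (C := |A| + 1) (by simp)) hc] with n a
  rw [← one_div, le_div_iff₀ (dl_pos _ _ _)] at a
  have := mul_pos (pow_pos (h.pos n) k) (dl_pos M c n)
  nlinarith [le_abs_self A]

theorem ex_pos {ι : Type} [Finite ι] (f : ι → ℝ) (h : ∀ i, 0 < f i) :
    ∃ c : ℝ, 0 < c ∧ ∀ i, c ≤ f i := by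
  obtain ⟨B, hB⟩ := Finite.exists_le fun i => (f i)⁻¹
  exact ⟨(max B 1)⁻¹, by positivity, fun i =>
    inv_le_of_inv_le₀ (h i) ((hB i).trans (le_max_left _ _))⟩

theorem gp_diag {q : ℕ → ∀ n, Ω n → ℝ → Prop} (h : ∀ i, Gp P M (q i)) :
    ∃ k, Big k ∧ Gp P M fun n => q (k n) n := by
  choose Γ a b using fun i => gp_iff.1 (h i)
  obtain ⟨k, hk, e⟩ := ks.spill (fun i n => Γ i n ≤ Real.exp (1 / (i + 1 : ℝ) * M n) ∧
    pb (P n) (fun ω => ¬q i n ω (Γ i n)) ≤ 1 / (i + 1 : ℝ)) fun i =>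
    ((a i).2 _ (by positivity)).and (b i _ (by positivity))
  refine ⟨k, hk, gp_iff.2 ⟨fun n => Γ (k n) n, ⟨fun n => (a _).1 n, fun ε hε => ?_⟩,
    fun ε hε => ?_⟩⟩
  · filter_upwards [e, K31.small hε hk] with n u v
    exact (u _ le_rfl).1.trans (Real.exp_le_exp.2
      (mul_le_mul_of_nonneg_right v (Nat.cast_nonneg _)))
  · filter_upwards [e, K31.small hε hk] with n u v using (u _ le_rfl).2.trans v

theorem gp_cheb (P : ∀ n, FP (Ω n)) (x : ∀ n, Ω n → V N) (hM : Big M) (A : ∀ n, Ω n → Λ n)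
    (E : ℕ) : Gp P M fun n ω Γ => ∀ F : Pl N, F.totalDegree ≤ E →
      |eval (x n ω) F| ≤ Γ * nc (P n) (x n) (A n) ω F :=
  gp_of_wp fun c hc => (K3.whp_cg_cv hM A (fun n _ => x n) E hc).mono
    (Eventually.of_forall fun n ω _ k F hF => by
      simpa only [dl_inv, nc] using k _ ⟨F, hF, fun _ => rfl⟩)

theorem coef {ν : Pl N → ℝ} {f : Fin m → Pl N} {l c : Fin m → ℝ} {L a b : ℝ} {n : ℕ} {i : Fin m}
    (h : Dg ν f l L) (hc : ∑ i, c i • f i = 1) (h1 : ν 1 = 1) (e : l i = dl M a n) (k : a ≤ -b) :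
    |c i| ≤ L * dl M b n := by
  have h2 := h.2 c i
  rw [hc, h1, mul_one, e] at h2
  have h3 := mul_le_mul_of_nonneg_left (dl_anti M k n) (abs_nonneg (c i))
  rw [dl_neg, ← div_eq_mul_inv] at h3
  exact (div_le_iff₀ (dl_pos _ _ _)).1 (h3.trans h2)

theorem dg_zero {ν : Pl N → ℝ} {f : Fin m → Pl N} {L : ℝ} {n : ℕ}
    (h : Dg ν f (fun i => dl M (la i * (0 : ℚ)) n) L) : Dg ν f (fun _ => 1) L := by
  simpa only [Rat.cast_zero, mul_zero, dl_zero] using h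

theorem weights (hM : Big M) (hσ : 0 < σ) (h : Lin P M x S D la)
    (sl : Slope P M x (S 0) (S 1) D σ) : ∃ o, la o = 0 ∧ ∀ p, p ≠ o → σ ≤ la p := by
  obtain ⟨Γ, a, b⟩ := gp_iff.1 (h {-1, 0, 1})
  obtain ⟨Γ', a', b'⟩ := gp_iff.1 sl
  have ex := (b.and b').pos.ex
  have z : ∃ o, la o = 0 := by
    by_contra k
    obtain ⟨c, hc, k⟩ := ex_pos (fun i => |la i|) fun i => abs_pos.2 (not_exists.1 k i)
    obtain ⟨n, ⟨ω, -, ⟨f, sp, d⟩, -⟩, u⟩ := (ex.and (small hM a m 2 hc)).exists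
    obtain ⟨w, hw⟩ := sp.2 1 (by simp)
    have := one_le (sn_nc _ _ _ ω) (dg_zero (d 0 (by simp))) hw.symm (nc_one _ _ _ ω)
      (η := Γ n * dl M c n) fun i => (le_abs.1 (k i)).elim
        (fun e => coef (d (-1) (by simp)) hw.symm (nc_one _ _ _ ω) rfl (by push_cast; linarith))
        fun e => coef (d 1 (by simp)) hw.symm (nc_one _ _ _ ω) rfl (by push_cast; linarith)
    nlinarith
  obtain ⟨o, ho⟩ := z
  refine ⟨o, ho, fun p hp => not_lt.1 fun k => ?_⟩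
  have t : 0 < σ - max (la p) 0 := sub_pos.2 (max_lt k hσ)
  obtain ⟨n, ⟨ω, -, ⟨f, sp, d⟩, s⟩, u⟩ := (ex.and (small hM ((a.pow 2).mul a') 2 1 t)).exists
  have g0 := a.pos n
  have g1 := a'.pos n
  have e : ∀ i, la i ≤ max (la p) 0 → ¬dl M (la i * (1 : ℚ)) n ≤
      Γ n * (2 * (Γ' n * dl M σ n) * Γ n) := fun i hi k => by
    rw [Rat.cast_one, mul_one] at k
    rw [dl_sub, ← mul_div_assoc, div_lt_one (dl_pos _ _ _)] at u
    nlinarith [dl_anti M hi n]
  exact (two_small (sn_nc _ _ _ ω) (dg_zero (d 0 (by simp))) (d 1 (by simp)) g0.le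
    (mul_pos g1 (dl_pos _ _ _)).le sp.1 s hp).elim (e p (le_max_left _ _))
      (e o (ho.trans_le (le_max_right _ _)))

theorem lin_one (hM : Big M) (hσ : 0 < σ) (h : Lin P M x S D la) (wo : la o = 0)
    (wp : ∀ p, p ≠ o → σ ≤ la p) (T : Finset ℚ) : Gp P M fun n ω Γ => ∃ f : Fin m → Pl N,
      Sp D f ∧ f o = 1 ∧
        ∀ a ∈ T, Dg (nc (P n) (x n) (S a n) ω) f (fun i => dl M (la i * a) n) Γ := by
  obtain ⟨Γ, a, b⟩ := gp_iff.1 (h (insert 0 (insert (-1) T)))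
  refine gp_iff.2 ⟨fun n => Γ n + 2 * Γ n * Γ n * Γ n, a.add (((a.const_mul hM one_le_two).mul
    a).mul a) hM, b.mono ?_⟩
  filter_upwards [small hM a (2 * m) 2 hσ] with n u ω _ ⟨f, sp, d⟩
  obtain ⟨w, hw⟩ := sp.2 1 (by simp)
  have g := a.1 n
  have h1 := one_le' (sn_nc _ _ _ ω) (dg_zero (d 0 (by simp))) hw.symm (nc_one _ _ _ ω)
    (o := o) (η := Γ n * dl M σ n) (mul_pos (a.pos n) (dl_pos _ _ _)).le fun i hi =>
      coef (d (-1) (by simp)) hw.symm (nc_one _ _ _ ω) rfl (by push_cast; linarith [wp i hi])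
  have key := fun a' ha' => dg_one (o := o) (A := 2 * Γ n) (d a' ha') g (fun _ => dl_pos _ _ _)
    hw.symm (nc_one _ _ _ ω) (by simp only [wo, zero_mul, dl_zero]) (by nlinarith) (by linarith)
  exact ⟨_, sp.act (dg_unit (sn_nc _ _ _ ω) (key 0 (by simp)) fun _ => dl_pos _ _ _),
    act_row hw.symm, fun a' ha' => key a' (by simp [ha'])⟩

theorem exMod : ExMod := by
  classical
  intro N m D Ω Λ P M x S σ la hM hσ nest h sl
  obtain ⟨o, wo, wp⟩ := weights hM hσ h sl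
  have mo : ∀ q, ¬la q < la o := fun q k => by
    by_cases e : q = o
    · rw [e] at k; exact lt_irrefl _ k
    · linarith [wp q e]
  have l0 : ∀ q, 0 ≤ la q := fun q => wo.ge.trans (not_lt.1 (mo q))
  obtain ⟨k, hk, h1⟩ := gp_diag fun i =>
    lin_one hM hσ h wo wp ((range (i + 1)).image (Denumerable.ofNat ℚ))
  obtain ⟨Γ, hΓ, hG⟩ := gp_iff.1 h1
  set G : ∀ n, Ω n → Prop := fun n ω => ∃ f : Fin m → Pl N, Sp D f ∧ f o = 1 ∧
    ∀ a ∈ (range (k n + 1)).image (Denumerable.ofNat ℚ),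
      Dg (nc (P n) (x n) (S a n) ω) f (fun i => dl M (la i * a) n) (Γ n) with hGd
  have ef : ∀ n ω, ∃ f : Fin m → Pl N, (f o = 1 ∧ ∀ i, (f i).totalDegree ≤ D) ∧ (G n ω →
      Sp D f ∧ ∀ a ∈ (range (k n + 1)).image (Denumerable.ofNat ℚ),
        Dg (nc (P n) (x n) (S a n) ω) f (fun i => dl M (la i * a) n) (Γ n)) := fun n ω => by
    by_cases c : G n ω
    · obtain ⟨f, a, b, d⟩ := c
      exact ⟨f, ⟨b, a.1⟩, fun _ => ⟨a, d⟩⟩
    · exact ⟨fun _ => 1, ⟨rfl, fun _ => by simp⟩, fun d => absurd d c⟩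
  choose f f1 f2 using ef
  have fd : ∀ a : ℚ, ∀ᶠ n in UF, ∀ ω, G n ω →
      Dg (nc (P n) (x n) (S a n) ω) (f n ω) (fun i => dl M (la i * a) n) (Γ n) := fun a =>
    (hk.eventually_ge_atTop (@Encodable.encode ℚ Denumerable.toEncodable a)).mono fun n u ω g => (f2 n ω g).2 a
      (mem_image.2 ⟨_, mem_range.2 (Nat.lt_succ_of_le u), Denumerable.ofNat_encode a⟩)
  set eb : ∀ n, Ω n → Fin m → Pl N := fun n ω => f n (rep (P n) (S 0 n) (G n) ω) with heb
  set u : ∀ n, Ω n → Mt (Fin m) := fun n ω =>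
    un la (Classical.epsilon fun g => f n ω = act g (eb n ω)) with hu
  have uu : ∀ n ω, Uni la (u n ω) := fun _ _ => uni_un
  set L : ℕ → ℝ := fun n => (m + 1) * (2 * Γ n * Γ n) * (2 * Γ n) with hL
  have sL : Sub M L := ((((hΓ.const_mul hM one_le_two).mul hΓ).const_mul hM (C := m + 1)
    (by simp)).mul (hΓ.const_mul hM one_le_two))
  have gL : ∀ n, Γ n ≤ L n := fun n => by
    have a := hΓ.1 n
    have : (1 : ℝ) * 1 ≤ (m + 1) * (2 * Γ n * Γ n) :=
      mul_le_mul (by simp) (by nlinarith) zero_le_one (by positivity)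
    simp only [hL]; nlinarith
  obtain ⟨Λ, hΛ⟩ := Finite.exists_le la
  have Λ0 : 0 ≤ Λ := (l0 o).trans (hΛ o)
  obtain ⟨γ, hγ, gap⟩ := ex_pos (fun a : El la => la a.1.1 - la a.1.2) fun a => sub_pos.2 a.2
  have key : ∀ a : ℚ, 0 ≤ a → ∀ᶠ n in UF, ∀ ω ∈ (P n).S, G n ω → Sp D (eb n ω) ∧
      Dg (nc (P n) (x n) (S 0 n) ω) (eb n ω) (fun i => dl M (la i * (0 : ℚ)) n) (Γ n) ∧
      Dg (nc (P n) (x n) (S a n) ω) (act (u n ω) (eb n ω)) (fun i => dl M (la i * a) n)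
        (L n) := fun a ha => by
    have a0 : (0 : ℝ) ≤ a := by exact_mod_cast ha
    obtain ⟨R, hR⟩ := exists_nat_ge ((Λ * a + 1) / γ)
    rw [div_le_iff₀ hγ] at hR
    filter_upwards [fd 0, fd a, fd (-R), nest (-R) 0 (by simp),
      small hM hΓ (2 * (m + 1) * m * m) 6 one_pos] with n d0 da dR nR sm ω hω g
    obtain ⟨r1, r2, r3⟩ := rep_spec (A := S 0 n) hω g
    have sp := (f2 n _ r2).1
    have e0 := d0 _ r2
    have eR := dR _ r2
    rw [nc_congr _ _ _ r3] at e0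
    rw [nc_congr _ _ _ (nR _ r1 _ hω r3)] at eR
    have k1 : f n ω = act _ (eb n ω) :=
      Classical.epsilon_spec (p := fun g => f n ω = act g (eb n ω)) (sp.ex (f1 n ω).2)
    have g0 := hΓ.pos n
    refine ⟨sp, e0, dg_mono (sn_nc _ _ _ ω) (dg_un (ε := Γ n * Γ n * dl M (Λ * a + 1) n) (B := 1)
      (sn_nc _ _ _ ω) (sn_nc _ _ _ ω) (hΓ.1 n) (by have := dl_pos M (Λ * a + 1) n; positivity)
      le_rfl (k1 ▸ (f2 n ω g).1) sp.1 (k1 ▸ dg_zero (d0 ω g)) (dg_zero e0) (k1 ▸ dR ω g) eR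
      (fun _ => dl_pos _ _ _) (fun p q e => ?_) (k1 ▸ da ω g) (fun _ => dl_pos _ _ _)
      (fun p q e => by rw [e]) (fun r => ?_) fun p => ?_) (fun _ => dl_pos _ _ _) ?_⟩
    · rw [mul_assoc (Γ n * Γ n), ← dl_add]
      refine mul_le_mul_of_nonneg_left (dl_anti M ?_ n) (by positivity)
      have := gap ⟨(q, p), e⟩
      push_cast
      nlinarith [Nat.cast_nonneg (α := ℝ) R]
    · exact (dl_anti M (mul_nonneg (l0 r) a0) n).trans_eq (dl_zero M n)
    · have h2 : dl M (Λ * a) n ≤ min 1 (dl M (la p * a) n) :=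
        le_min ((dl_anti M (mul_nonneg Λ0 a0) n).trans_eq (dl_zero M n))
          (dl_anti M (mul_le_mul_of_nonneg_right (hΛ p) a0) n)
      rw [dl_add]
      nlinarith [mul_le_mul_of_nonneg_right sm.le (dl_pos M (Λ * a) n).le]
    · simp only [hL]; gcongr; linarith
  set jr : ℚ → ∀ n, Ω n → Mt (Fin m) := fun a n ω =>
    if a = 0 then 1 else (u n (rep (P n) (S a n) (G n) ω))⁻¹ with hjr
  have ur : ∀ a n ω, Uni la (jr a n ω) := fun a n ω => by
    simp only [hjr]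
    split_ifs
    exacts [uni_one, (uu _ _).inv]
  have ref : ∀ a : ℚ, 0 ≤ a → ∀ᶠ n in UF, ∀ ω ∈ (P n).S, G n ω →
      Dg (nc (P n) (x n) (S a n) ω) (act (jr a n ω)⁻¹ (eb n ω)) (fun i => dl M (la i * a) n)
        (L n) := fun a ha => by
    filter_upwards [key a ha, nest 0 a ha] with n c n0 ω hω g
    by_cases z : a = 0
    · subst z
      simp only [hjr, if_true, inv_one, act_one]
      exact dg_mono (sn_nc _ _ _ ω) (c ω hω g).2.1 (fun _ => dl_pos _ _ _) (gL n)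
    · obtain ⟨r1, r2, r3⟩ := rep_spec (A := S a n) hω g
      have := (c _ r1 r2).2.2
      rw [nc_congr _ _ _ r3, show eb n (rep (P n) (S a n) (G n) ω) = eb n ω from
        congrArg (f n) (rep_congr (n0 _ r1 _ hω r3))] at this
      simp only [hjr, if_neg z]
      rwa [Matrix.nonsing_inv_nonsing_inv _ (uu _ _).det]
  have split : ∀ a n ω, act (jr a n ω)⁻¹ (eb n ω) =
      act ((jr a n ω)⁻¹ * (u n ω)⁻¹) (act (u n ω) (eb n ω)) := fun a n ω => by
    rw [← act_mul, Matrix.nonsing_inv_mul_cancel_right _ _ (uu _ _).det]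
  have inc : ∀ a : ℚ, 0 ≤ a → ∀ᶠ n in UF, ∀ ω ∈ (P n).S, G n ω → ∀ p q,
      |((jr a n ω)⁻¹ * (u n ω)⁻¹) p q| * dl M (la q * a) n ≤ L n * L n * dl M (la p * a) n :=
    fun a ha => by
      filter_upwards [key a ha, ref a ha] with n c r ω hω g
      exact dg_ent (c ω hω g).2.2 (split a n ω ▸ r ω hω g) (sL.pos n).le
  have pos : ∀ (a : ℚ) (K : ℝ), 0 ≤ a → Whp P fun n ω => ∀ p,
      |eval (x n ω) (nf M la a n (jr a n ω) (eb n ω) p) -
        ny M la o a n (jr a n ω) (u n ω)⁻¹ p| ≤ dl M K n := fun a K ha => by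
    have a0 : (0 : ℝ) ≤ a := by exact_mod_cast ha
    obtain ⟨b, hb⟩ := exists_nat_ge ((Λ * a + K + 1) / σ)
    rw [div_le_iff₀ hσ] at hb
    obtain ⟨Γ', s', c'⟩ := gp_iff.1 (gp_cheb P x hM (S b) D)
    refine (hG.and c').mono ?_
    filter_upwards [key b (Nat.cast_nonneg b), inc a ha, small hM ((sL.pow 3).mul s') m 1 one_pos]
      with n c r sm ω hω ⟨g, ch⟩ p
    obtain ⟨sp, -, db⟩ := c ω hω g
    have e1 : act (u n ω) (eb n ω) o = 1 := (act_min (uu n ω) mo _).trans (f1 n _).1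
    have p0 := dl_pos M (la p * a) n
    have L0 := sL.pos n
    have Γ0 := s'.pos n
    rw [nf, ny, split, smul_eval, ← mul_sub, act, map_sum, ← add_sum_erase _ _ (mem_univ o),
      smul_eval, e1, map_one, mul_one, add_sub_cancel_left, abs_mul, abs_of_pos (inv_pos.2 p0),
      inv_mul_le_iff₀ p0]
    refine (abs_sum_le_sum_abs _ _).trans ((sum_le_card_nsmul _ _ (L n ^ 3 * Γ' n *
      dl M (K + 1) n * dl M (la p * a) n) fun q hq => ?_).trans ?_)
    · have h2 := (ch _ (deg_act sp.1 (u n ω) q)).trans (mul_le_mul_of_nonneg_left (db.1 q) Γ0.le)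
      have h3 : dl M (la q * (b : ℚ)) n ≤ dl M (K + 1) n * dl M (la q * a) n := by
        rw [← dl_add]
        refine dl_anti M ?_ n
        push_cast
        nlinarith [mul_le_mul_of_nonneg_right (wp q (ne_of_mem_erase hq))
          (Nat.cast_nonneg (α := ℝ) b), mul_le_mul_of_nonneg_right (hΛ q) a0]
      have h4 := dl_pos M (K + 1) n
      rw [smul_eval, abs_mul]
      calc _ ≤ |((jr a n ω)⁻¹ * (u n ω)⁻¹) p q| *
            (Γ' n * (L n * (dl M (K + 1) n * dl M (la q * a) n))) := by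
            gcongr; exact h2.trans (by gcongr)
        _ = Γ' n * L n * dl M (K + 1) n *
            (|((jr a n ω)⁻¹ * (u n ω)⁻¹) p q| * dl M (la q * a) n) := by ring
        _ ≤ Γ' n * L n * dl M (K + 1) n * (L n * L n * dl M (la p * a) n) :=
          mul_le_mul_of_nonneg_left (r ω hω g p q) (by positivity)
        _ = _ := by ring
    · have h5 : ((univ.erase o).card : ℝ) ≤ m := by
        exact_mod_cast card_erase_le.trans_eq (by simp)
      have h6 := dl_pos M K n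
      have h7 := dl_pos M 1 n
      rw [nsmul_eq_mul, dl_add]
      calc _ ≤ (m : ℝ) * _ := mul_le_mul_of_nonneg_right h5 (by positivity)
        _ = m * (L n ^ 3 * Γ' n) ^ 1 * dl M 1 n * (dl M (la p * a) n * dl M K n) := by ring
        _ ≤ _ := mul_le_of_le_one_left (by positivity) sm.le
  refine ⟨o, eb, fun n ω => (u n ω)⁻¹, jr, wo, wp,
    Eventually.of_forall fun n a _ b _ e => congrArg (f n) (rep_congr e),
    fun a _ => Eventually.of_forall fun n v _ w _ e => by simp only [hjr, rep_congr e],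
    fun n ω => (uu n ω).inv, ur, fun n ω => if_pos rfl, fun n ω => (f1 n _).1,
    fun n ω => (f1 n _).2, fun K => ?_, fun a ha => gp_iff.2 ⟨_, sL.mul sL, hG.mono ?_⟩,
    fun a ha => gp_iff.2 ⟨_, sL, hG.mono ?_⟩, pos⟩
  · simpa [nf, ny, hjr, dl_zero, act_one] using pos 0 K le_rfl
  · filter_upwards [inc a ha] with n r ω hω g p q
    rw [sub_mul, dl_sub, ← mul_div_assoc, le_div_iff₀ (dl_pos _ _ _)]
    exact r ω hω g p q
  · filter_upwards [key a ha, ref a ha] with n c r ω hω g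
    exact ⟨((c ω hω g).1.act (ur a n ω).inv.det).smul fun _ => dl_pos _ _ _,
      dg_scale (sn_nc _ _ _ ω) (r ω hω g) fun _ => dl_pos _ _ _⟩

end Pool.Agent.MP_5168f5_an.AN.N2
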