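import Pool.Agent.MP_5168f5_an.AN.GADef

/-! A basis adapted to a grading, a flag of coordinate subspaces and the filtration by words. -/

namespace Pool.Agent.MP_5168f5_an.AN.GF

open Matrix Finset GA

variable {κ k W I : Type} [Fintype κ] [DecidableEq κ]

/-- The constants in the basis given by the rows of `A`; `B` is the inverse of `A`. -/
def nc {R : Type} [CommRing R] (c : κ → κ → κ → R) (A B : Matrix κ κ R) (a b : κ) : κ → R :=
  br c (A a) (A b) ᵥ* B

/-- The matrix respects the weights and the flag. -/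
def Pat {R : Type} [Zero R] (om : κ → W) (lv : κ → ℕ) (A : Matrix κ κ R) : Prop :=
  ∀ a e, A a e ≠ 0 → om e = om a ∧ lv e ≤ lv a

section Ring

variable {R : Type} [CommRing R] {om : κ → W} {lv : κ → ℕ}

theorem pat_one : Pat om lv (1 : Matrix κ κ R) := fun a e h => by
  by_cases x : a = e
  · subst x; exact ⟨rfl, le_rfl⟩
  · exact absurd (Matrix.one_apply_ne x) h

theorem Pat.mul {A B : Matrix κ κ R} (h : Pat om lv A) (h' : Pat om lv B) : Pat om lv (A * B) :=
  fun a e x => by
    rw [Matrix.mul_apply] at x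
    obtain ⟨b, -, y⟩ := exists_ne_zero_of_sum_ne_zero x
    have u := h a b (left_ne_zero_of_mul y)
    have v := h' b e (right_ne_zero_of_mul y)
    exact ⟨v.1.trans u.1, v.2.trans u.2⟩

theorem vm_sum (x : κ → R) (A : Matrix κ κ R) : x ᵥ* A = ∑ a, x a • A a := by
  funext e; simp [Matrix.vecMul, dotProduct, Finset.sum_apply]

theorem upd_mul (a0 : κ) (l : κ → R) (A : Matrix κ κ R) :
    (1 : Matrix κ κ R).updateRow a0 l * A = A.updateRow a0 (l ᵥ* A) := by
  ext a e
  by_cases x : a = a0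
  · subst x; simp [Matrix.mul_apply, Matrix.vecMul, dotProduct]
  · simp [Matrix.mul_apply, Matrix.updateRow_ne x, Matrix.one_apply]

theorem pat_upd {a0 : κ} {l : κ → R} (h : ∀ e, l e ≠ 0 → om e = om a0 ∧ lv e ≤ lv a0) :
    Pat om lv ((1 : Matrix κ κ R).updateRow a0 l) := fun a e x => by
  by_cases y : a = a0
  · subst y; exact h e (by simpa using x)
  · rw [Matrix.updateRow_ne y] at x; exact pat_one a e x

theorem br_sum (c : κ → κ → κ → R) (x y : κ → R) :
    br c x y = ∑ a, ∑ b, (x a * y b) • c a b := by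
  funext e
  simp only [br, Finset.sum_apply, Pi.smul_apply, smul_eq_mul]
  exact sum_congr rfl fun a _ => sum_congr rfl fun b _ => by ring

/-- The bracket as a bilinear map. -/
def brL (c : κ → κ → κ → R) : (κ → R) →ₗ[R] (κ → R) →ₗ[R] κ → R :=
  LinearMap.mk₂ R (br c)
    (fun x x' y => by simp [br_sum, add_mul, add_smul, sum_add_distrib])
    (fun r x y => by simp [br_sum, smul_sum, mul_smul])
    (fun x y y' => by simp [br_sum, mul_add, add_smul, sum_add_distrib])
    (fun r x y => by simp [br_sum, smul_sum, smul_smul, mul_left_comm])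

theorem br_eq (c : κ → κ → κ → R) (x y : κ → R) : br c x y = brL c x y := rfl

theorem br_single (c : κ → κ → κ → R) (a b : κ) :
    br c (Pi.single a 1) (Pi.single b 1) = c a b := by
  simp [br_sum, Pi.single_apply, ite_and]

theorem br_vm (c : κ → κ → κ → R) (A B : Matrix κ κ R) (u v : κ → R) :
    br c (u ᵥ* A) (v ᵥ* A) ᵥ* B = br (nc c A B) u v := by
  rw [br_eq, vm_sum u, vm_sum v, br_sum]
  simp only [map_sum, map_smul, LinearMap.sum_apply, LinearMap.smul_apply, Matrix.sum_vecMul,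
    Matrix.smul_vecMul, smul_sum, smul_smul]
  rw [sum_comm]
  refine sum_congr rfl fun a _ => sum_congr rfl fun b _ => ?_
  rw [mul_comm]; rfl

theorem br_ne {c : κ → κ → κ → R} {x y : κ → R} {e : κ} (h : br c x y e ≠ 0) :
    ∃ a b, x a ≠ 0 ∧ y b ≠ 0 ∧ c a b e ≠ 0 := by
  obtain ⟨a, -, h⟩ := exists_ne_zero_of_sum_ne_zero h
  obtain ⟨b, -, h⟩ := exists_ne_zero_of_sum_ne_zero h
  exact ⟨a, b, right_ne_zero_of_mul (left_ne_zero_of_mul h), right_ne_zero_of_mul h,
    left_ne_zero_of_mul (left_ne_zero_of_mul h)⟩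

theorem vm_ne {x : κ → R} {A : Matrix κ κ R} {e : κ} (h : (x ᵥ* A) e ≠ 0) :
    ∃ a, x a ≠ 0 ∧ A a e ≠ 0 := by
  obtain ⟨a, -, h⟩ := exists_ne_zero_of_sum_ne_zero h
  exact ⟨a, left_ne_zero_of_mul h, right_ne_zero_of_mul h⟩

open Classical in
/-- The projection onto one weight. -/
noncomputable def pj (om : κ → W) (w : W) : (κ → R) →ₗ[R] κ → R where
  toFun v e := if om e = w then v e else 0
  map_add' x y := by funext e; by_cases h : om e = w <;> simp [h]
  map_smul' r x := by funext e; by_cases h : om e = w <;> simp [h]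

open Classical in
theorem pj_apply (w : W) (v : κ → R) (e : κ) : pj om w v e = if om e = w then v e else 0 := rfl

theorem pj_self {w : W} {v : κ → R} (h : ∀ e, v e ≠ 0 → om e = w) : pj om w v = v := by
  funext e; rw [pj_apply]; split_ifs with x
  · rfl
  · by_contra y; exact x (h e (Ne.symm y))

theorem pj_ne {w w' : W} {v : κ → R} (h : ∀ e, v e ≠ 0 → om e = w') (x : w' ≠ w) :
    pj om w v = 0 := by
  funext e; rw [pj_apply]; split_ifs with y
  · by_contra z; exact x ((h e z).symm.trans y)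
  · rfl

end Ring

variable [Field k] {om : κ → W} {lv : κ → ℕ}

theorem upd_inv (a0 : κ) (l : κ → k) (h : l a0 ≠ 0) :
    (1 : Matrix κ κ k).updateRow a0 l *
      (1 : Matrix κ κ k).updateRow a0 (fun e => if e = a0 then (l a0)⁻¹ else -(l a0)⁻¹ * l e) = 1 := by
  rw [upd_mul]
  ext a e
  by_cases x : a = a0
  · subst x
    rw [Matrix.updateRow_self, vm_sum, Finset.sum_apply, ← add_sum_erase _ _ (mem_univ a)]
    rw [sum_congr rfl (g := fun b => if b = e then l e else 0) fun b hb => by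
      simp [Matrix.updateRow_ne (ne_of_mem_erase hb), Matrix.one_apply]
      split_ifs with y
      · rw [y]
      · rfl]
    by_cases y : e = a
    · subst y; simp [h]
    · simp [y, Matrix.one_apply_ne (Ne.symm y)]; field_simp; ring
  · simp [Matrix.updateRow_ne x]

/-- A basis that respects the weights and the flag and is adapted to a graded filtration. -/
theorem adapt (om : κ → W) (lv : κ → ℕ) (G : ℝ → Submodule k (κ → k)) (hG : Antitone G)
    (S : Finset ℝ) (s0 : ℝ) (h0 : s0 ∈ S) (ht : G s0 = ⊤)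
    (gr : ∀ s w v, v ∈ G s → pj om w v ∈ G s) :
    ∃ (A B : Matrix κ κ k) (t : κ → ℝ), A * B = 1 ∧ Pat om lv A ∧ Pat om lv B ∧
      (∀ a, t a ∈ S ∧ A a ∈ G (t a)) ∧
      ∀ s ∈ S, ∀ v ∈ G s, ∀ a, (v ᵥ* B) a ≠ 0 → s ≤ t a := by
  classical
  let ψ : Matrix κ κ k × Matrix κ κ k → ℕ := fun p => ∑ a, (S.filter fun s => p.1 a ∉ G s).card
  obtain ⟨⟨A, B⟩, ⟨hi, hA, hB⟩, hm⟩ := (InvImage.wf ψ Nat.lt_wfRel.wf).has_min
    {p | p.1 * p.2 = 1 ∧ Pat om lv p.1 ∧ Pat om lv p.2} ⟨(1, 1), mul_one _, pat_one, pat_one⟩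
  dsimp only at hi hA hB
  have ne : ∀ a, (S.filter fun s => A a ∈ G s).Nonempty := fun a =>
    ⟨s0, mem_filter.2 ⟨h0, ht ▸ Submodule.mem_top⟩⟩
  refine ⟨A, B, fun a => max' _ (ne a), hi, hA, hB, fun a => mem_filter.1 (max'_mem _ (ne a)),
    fun s hs v hv a1 h1 => ?_⟩
  by_contra hc
  have n1 : A a1 ∉ G s := fun x => hc (le_max' _ _ (mem_filter.2 ⟨hs, x⟩))
  set u := v ᵥ* B with hu
  let l : κ → k := fun a => if om a = om a1 ∧ A a ∉ G s then u a else 0
  have hl : l ᵥ* A ∈ G s := by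
    have e1 : v = u ᵥ* A := by rw [hu, Matrix.vecMul_vecMul, mul_eq_one_comm.1 hi, vecMul_one]
    have e2 : l ᵥ* A = pj om (om a1) v -
        ∑ a, (if om a = om a1 ∧ A a ∈ G s then u a else 0) • A a := by
      rw [e1, vm_sum u, vm_sum l, map_sum, ← sum_sub_distrib]
      refine sum_congr rfl fun a _ => ?_
      rw [map_smul]
      by_cases x : om a = om a1
      · rw [pj_self fun e y => (hA a e y).1.trans x]
        by_cases y : A a ∈ G s <;> simp [l, x, y]
      · rw [pj_ne (fun e y => (hA a e y).1) x]; simp [l, x]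
    rw [e2]
    refine (G s).sub_mem (gr _ _ _ hv) ((G s).sum_mem fun a _ => ?_)
    split_ifs with x
    · exact (G s).smul_mem _ x.2
    · simp
  obtain ⟨a0, m0, hx⟩ := exists_max_image (univ.filter fun a => l a ≠ 0) lv
    ⟨a1, by simpa [l, n1] using h1⟩
  have l0 : l a0 ≠ 0 := (mem_filter.1 m0).2
  have sp : ∀ a, l a ≠ 0 → om a = om a1 ∧ A a ∉ G s := fun a x => by
    by_contra y; exact x (if_neg y)
  have sq : ∀ a, l a ≠ 0 → om a = om a0 ∧ lv a ≤ lv a0 := fun a x =>
    ⟨(sp a x).1.trans (sp a0 l0).1.symm, hx a (mem_filter.2 ⟨mem_univ _, x⟩)⟩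
  refine hm ((1 : Matrix κ κ k).updateRow a0 l * A, B * (1 : Matrix κ κ k).updateRow a0
    fun e => if e = a0 then (l a0)⁻¹ else -(l a0)⁻¹ * l e) ⟨?_, (pat_upd sq).mul hA,
      hB.mul (pat_upd fun e x => ?_)⟩ ?_
  · dsimp only
    rw [Matrix.mul_assoc, ← Matrix.mul_assoc A, hi, Matrix.one_mul, upd_inv a0 l l0]
  · split_ifs at x with y
    · rw [y]; exact ⟨rfl, le_rfl⟩
    · exact sq e (right_ne_zero_of_mul x)
  · change ψ _ < ψ _
    simp only [ψ, upd_mul]
    have ss : (S.filter fun s' => l ᵥ* A ∉ G s') ⊂ S.filter fun s' => A a0 ∉ G s' := by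
      refine ⟨fun s' x => ?_, fun x => ?_⟩
      · rw [mem_filter] at x ⊢
        refine ⟨x.1, fun y => ?_⟩
        rcases le_total s s' with z | z
        · exact (sp a0 l0).2 (hG z y)
        · exact x.2 (hG z hl)
      · exact (mem_filter.1 (x (mem_filter.2 ⟨hs, (sp a0 l0).2⟩))).2 hl
    refine sum_lt_sum (fun a _ => ?_) ⟨a0, mem_univ _, ?_⟩
    · by_cases x : a = a0
      · subst x; rw [Matrix.updateRow_self]; exact card_le_card ss.1
      · rw [Matrix.updateRow_ne x]
    · rw [Matrix.updateRow_self]; exact card_lt_card ss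

/-! ### Words -/

section Words

variable [Fintype I] [DecidableEq I] (c : κ → κ → κ → k) (Lt : I → Submodule k (κ → k))
  (ls : I → ℝ)

/-- `x` is the value of a word with `m i` letters in `Lt i`. -/
inductive Wv : (I → ℕ) → (κ → k) → Prop
  | of (i : I) (x : κ → k) : x ∈ Lt i → Wv (Pi.single i 1) x
  | br {m m' : I → ℕ} {x y : κ → k} : Wv m x → Wv m' y → Wv (m + m') (br c x y)

/-- The total saving. -/
def sv (m : I → ℕ) : ℝ := ∑ i, m i * ls i

/-- The span of the words with saving at least `s`. -/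
def Fl (s : ℝ) : Submodule k (κ → k) := Submodule.span k {x | ∃ m, s ≤ sv ls m ∧ Wv c Lt m x}

open Classical in
/-- The symbol of order `s` in the new coordinates. -/
noncomputable def sym (B : Matrix κ κ k) (t : κ → ℝ) (s : ℝ) (v : κ → k) : κ → k :=
  pj t s (v ᵥ* B)

open Classical in
/-- The constants of the graded algebra. -/
noncomputable def cg (c' : κ → κ → κ → k) (t : κ → ℝ) (a b e : κ) : k :=
  if 0 ≤ t a ∧ 0 ≤ t b ∧ t e = t a + t b then c' a b e else 0

variable {c Lt ls}

theorem sv_add (m m' : I → ℕ) : sv ls (m + m') = sv ls m + sv ls m' := by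
  simp [sv, add_mul, sum_add_distrib]

theorem sv_single (i : I) : sv ls (Pi.single i 1) = ls i := by
  simp [sv, Pi.single_apply]

theorem Fl_anti : Antitone (Fl c Lt ls) := fun _ _ h =>
  Submodule.span_mono fun _ ⟨m, a, b⟩ => ⟨m, h.trans a, b⟩

theorem Fl_lt (i : I) : Lt i ≤ Fl c Lt ls (ls i) := fun x hx =>
  Submodule.subset_span ⟨_, (sv_single i).ge, Wv.of i x hx⟩

theorem Fl_br {s s' : ℝ} {x y : κ → k} (hx : x ∈ Fl c Lt ls s) (hy : y ∈ Fl c Lt ls s') :
    br c x y ∈ Fl c Lt ls (s + s') := by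
  have : Submodule.map₂ (brL c) (Fl c Lt ls s) (Fl c Lt ls s') ≤ Fl c Lt ls (s + s') := by
    rw [Fl, Fl, Submodule.map₂_span_span]
    refine Submodule.span_mono ?_
    rintro _ ⟨x, ⟨m, a, b⟩, y, ⟨m', a', b'⟩, rfl⟩
    exact ⟨m + m', by rw [sv_add]; exact add_le_add a a', b.br b'⟩
  exact this (Submodule.apply_mem_map₂ _ hx hy)

variable [AddCommMonoid W] {lw : I → W}

theorem Wv.wt (hc : ∀ a b e, c a b e ≠ 0 → om e = om a + om b)
    (hL : ∀ i, ∀ x ∈ Lt i, ∀ e, x e ≠ 0 → om e = lw i) {m : I → ℕ} {x : κ → k}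
    (h : Wv c Lt m x) : ∀ e, x e ≠ 0 → om e = ∑ i, m i • lw i := by
  induction h with
  | of i x hx => intro e he; simp [Pi.single_apply, hL i x hx e he]
  | br _ _ h1 h2 =>
    intro e he
    obtain ⟨a, b, u, v, w⟩ := br_ne he
    simp [hc a b e w, h1 a u, h2 b v, add_smul, sum_add_distrib]

/-- The output: `A` has the new basis as rows, `t` is the saving, `t a < 0` at dead indices. -/
structure Adp (c : κ → κ → κ → k) (Lt : I → Submodule k (κ → k)) (ls : I → ℝ) (lw : I → W)
    (om : κ → W) (lv : κ → ℕ) (A B : Matrix κ κ k) (t : κ → ℝ) : Prop where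
  inv : A * B = 1
  pA : Pat om lv A
  pB : Pat om lv B
  mem : ∀ a, 0 ≤ t a → A a ∈ Fl c Lt ls (t a)
  low : ∀ s, ∀ v ∈ Fl c Lt ls s, ∀ a, (v ᵥ* B) a ≠ 0 → s ≤ t a
  fil : ∀ a b e, nc c A B a b e ≠ 0 → 0 ≤ t a → 0 ≤ t b → t a + t b ≤ t e
  top : ∀ a s, A a ∈ Fl c Lt ls s → s ≤ t a
  wt : ∀ a, 0 ≤ t a → ∃ m : I → ℕ, om a = ∑ i, m i • lw i ∧ t a ≤ sv ls m
  gen : ∀ U : Submodule k (κ → k), (∀ i, ∀ x ∈ Lt i, sym B t (ls i) x ∈ U) →
    (∀ x ∈ U, ∀ y ∈ U, br (cg (nc c A B) t) x y ∈ U) → ∀ a, 0 ≤ t a → Pi.single a 1 ∈ U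

theorem exists_adp (c : κ → κ → κ → k) (Lt : I → Submodule k (κ → k)) (ls : I → ℝ) (lw : I → W)
    (om : κ → W) (lv : κ → ℕ) (nm : W →+ ℝ) (hc : ∀ a b e, c a b e ≠ 0 → om e = om a + om b)
    (hL : ∀ i, ∀ x ∈ Lt i, ∀ e, x e ≠ 0 → om e = lw i) (h0 : ∀ i, 0 ≤ ls i)
    (hn : ∀ i, 0 < nm (lw i)) : ∃ A B t, Adp c Lt ls lw om lv A B t := by
  classical
  obtain ⟨N, hN⟩ : ∃ N : ℕ, ∀ e i, nm (om e) / nm (lw i) ≤ N := by
    obtain ⟨C, hC⟩ := (Set.finite_range fun p : κ × I => nm (om p.1) / nm (lw p.2)).bddAbove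
    exact ⟨⌈C⌉₊, fun e i => (hC ⟨(e, i), rfl⟩).trans (Nat.le_ceil _)⟩
  have s0 : ∀ m, 0 ≤ sv ls m := fun m => sum_nonneg fun i _ => mul_nonneg (Nat.cast_nonneg _) (h0 i)
  have gr : ∀ s w v, v ∈ Fl c Lt ls s → pj om w v ∈ Fl c Lt ls s := fun s w v hv => by
    refine (Submodule.map_span_le (pj om w) _ _).2 ?_ (Submodule.mem_map_of_mem hv)
    rintro x ⟨m, a, b⟩
    by_cases y : ∑ i, m i • lw i = w
    · rw [pj_self fun e z => (b.wt hc hL e z).trans y]; exact Submodule.subset_span ⟨m, a, b⟩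
    · rw [pj_ne (b.wt hc hL) y]; exact zero_mem _
  let S := insert (-1 : ℝ) ((Fintype.piFinset fun _ : I => range (N + 1)).image (sv ls))
  have hS : ∀ m x, Wv c Lt m x → x ≠ 0 → sv ls m ∈ S := fun m x h hx => by
    obtain ⟨e, he⟩ := Function.ne_iff.1 hx
    refine mem_insert_of_mem (mem_image_of_mem _ (Fintype.mem_piFinset.2 fun i => ?_))
    have e1 := congrArg nm (h.wt hc hL e he)
    rw [map_sum] at e1
    have e2 := single_le_sum (f := fun i => nm (m i • lw i))
      (fun j _ => by rw [map_nsmul]; exact nsmul_nonneg (hn j).le _) (mem_univ i)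
    have e3 := hN e i
    rw [div_le_iff₀ (hn i), e1] at e3
    simp only [map_nsmul, nsmul_eq_mul] at e2 e3
    have : (m i : ℝ) ≤ N := le_of_mul_le_mul_right (e2.trans e3) (hn i)
    exact mem_range.2 (Nat.lt_succ_of_le (by exact_mod_cast this))
  obtain ⟨A, B, t, hi, hA, hB, ht, hl⟩ := adapt om lv
    (fun s => if s < 0 then ⊤ else Fl c Lt ls s) (fun s s' h => by
      dsimp only
      split_ifs with x y y
      exacts [le_rfl, absurd (h.trans_lt x) y, le_top, Fl_anti h]) S (-1) (mem_insert_self _ _)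
    (if_pos (by norm_num)) (fun s w v hv => by
      split_ifs at hv ⊢
      exacts [trivial, gr _ _ _ hv])
  have mem : ∀ a, 0 ≤ t a → A a ∈ Fl c Lt ls (t a) := fun a h => by
    simpa [not_lt.2 h] using (ht a).2
  have lw1 : ∀ m x, Wv c Lt m x → ∀ a, (x ᵥ* B) a ≠ 0 → sv ls m ≤ t a := fun m x h a y =>
    hl _ (hS m x h (by rintro rfl; simp at y)) x (by
      rw [if_neg (not_lt.2 (s0 m))]; exact Submodule.subset_span ⟨m, le_rfl, h⟩) a y
  have low : ∀ s, ∀ v ∈ Fl c Lt ls s, ∀ a, (v ᵥ* B) a ≠ 0 → s ≤ t a := fun s v hv a => by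
    induction hv using Submodule.span_induction with
    | mem x h => exact h.elim fun m u y => u.1.trans (lw1 m x u.2 a y)
    | zero => simp
    | add x y _ _ u v =>
      intro z
      by_contra w
      apply z
      rw [Matrix.add_vecMul, Pi.add_apply, not_not.1 (mt u w), not_not.1 (mt v w), add_zero]
    | smul r x _ u =>
      intro z
      rw [Matrix.smul_vecMul] at z
      exact u (right_ne_zero_of_mul z)
  have row : ∀ a, A a ᵥ* B = Pi.single a 1 := fun a => by
    funext e
    have := congrFun (congrFun hi a) e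
    rw [Matrix.one_apply, Matrix.mul_apply] at this
    rw [Pi.single_apply]
    simpa [Matrix.vecMul, dotProduct, eq_comm] using this
  have fil : ∀ a b e, nc c A B a b e ≠ 0 → 0 ≤ t a → 0 ≤ t b → t a + t b ≤ t e :=
    fun a b e h x y => low _ _ (Fl_br (mem a x) (mem b y)) e h
  refine ⟨A, B, t, hi, hA, hB, mem, low, fil, fun a s h => low s _ h a (by simp [row]),
    fun a h => ?_, fun U hU hb a h => ?_⟩
  · by_contra x
    push Not at x
    have : Fl c Lt ls (t a) ≤ LinearMap.ker (pj om (om a)) := Submodule.span_le.2 fun v ⟨m, y, z⟩ =>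
      pj_ne (z.wt hc hL) fun w => absurd y (not_le.2 (x m w.symm))
    have e := this (mem a h)
    rw [LinearMap.mem_ker, pj_self fun e y => (hA a e y).1] at e
    have := row a
    rw [e, Matrix.zero_vecMul] at this
    simpa using congrFun this a
  · have w1 : ∀ m x, Wv c Lt m x → sym B t (sv ls m) x ∈ U := fun m x hx => by
      induction hx with
      | of i x hx => rw [sv_single]; exact hU i x hx
      | @br m m' x y hx hy u v =>
        have ex : ∀ z : κ → k, z = z ᵥ* B ᵥ* A := fun z => by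
          rw [Matrix.vecMul_vecMul, mul_eq_one_comm.1 hi, vecMul_one]
        convert hb _ u _ v using 1
        funext e
        rw [sym, ex x, ex y, br_vm, ← ex x, ← ex y, pj_apply, sv_add]
        simp only [br, sym, pj_apply, cg]
        have key : ∀ a b, (if t e = sv ls m + sv ls m' then
            nc c A B a b e * (x ᵥ* B) a * (y ᵥ* B) b else 0) =
            (if 0 ≤ t a ∧ 0 ≤ t b ∧ t e = t a + t b then nc c A B a b e else 0) *
              (if t a = sv ls m then (x ᵥ* B) a else 0) *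
              (if t b = sv ls m' then (y ᵥ* B) b else 0) := fun a b => by
          by_cases p : (x ᵥ* B) a = 0
          · simp [p]
          by_cases q : (y ᵥ* B) b = 0
          · simp [q]
          by_cases r : nc c A B a b e = 0
          · simp [r]
          have p1 := lw1 m x hx a p
          have q1 := lw1 m' y hy b q
          have p2 := (s0 m).trans p1
          have q2 := (s0 m').trans q1
          have r1 := fil a b e r p2 q2
          by_cases z : t e = sv ls m + sv ls m'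
          · have p3 : t a = sv ls m := by linarith
            have q3 : t b = sv ls m' := by linarith
            rw [if_pos z, if_pos p3, if_pos q3, if_pos ⟨p2, q2, by linarith⟩]
          · rw [if_neg z]
            by_cases p3 : t a = sv ls m
            · by_cases q3 : t b = sv ls m'
              · rw [if_neg fun w => z (by linarith [w.2.2])]; simp
              · simp [q3]
            · simp [p3]
        simp only [← key]
        split_ifs <;> simp
    have w2 : ∀ v ∈ Fl c Lt ls (t a), sym B t (t a) v ∈ U := fun v hv => by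
      refine (Submodule.map_span_le (pj t (t a) ∘ₗ B.vecMulLinear) _ U).2 ?_
        (Submodule.mem_map_of_mem hv)
      rintro x ⟨m, y, z⟩
      rcases y.eq_or_lt with y | y
      · rw [y]; exact w1 m x z
      · have : pj t (t a) (x ᵥ* B) = 0 := by
          funext e; rw [pj_apply]; split_ifs with q
          · by_contra p; exact absurd (lw1 m x z e p) (not_le.2 (q ▸ y))
          · rfl
        exact this ▸ U.zero_mem
    have := w2 _ (mem a h)
    rwa [sym, row, pj_self fun e y => by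
      by_contra z; exact y (Pi.single_eq_of_ne (fun w => z (congrArg t w)) _)] at this

end Words

end Pool.Agent.MP_5168f5_an.AN.GF
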