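import Pool.Agent.MP_5168f5_an.AN.G39Ch

/-! Kakeya sets in all dimensions: conditional densities of cells, one space. -/

namespace Pool.Agent.MP_5168f5_an.AN.S20

open H19 H17S H17F Filter G39

variable {Ω Ω' α α' β β' γ : Type}

/-- The probability of the value of `Y` given the value of `A`. -/
noncomputable def dn (P : FP Ω) (Y : Ω → α) (A : Ω → β) (ω : Ω) : ℝ :=
  pb (cv P A (A ω)) fun v => Y v = Y ω

/-- On the event `G` every value of `Y` has probability at most `D` given `A`. -/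
def DB (P : FP Ω) (Y : Ω → α) (A : Ω → β) (G : Ω → Prop) (D : ℝ) : Prop :=
  ∀ a ∈ P.S, ∀ c, pb (cv P A (A a)) (fun v => G v ∧ Y v = c) ≤ D

/-- On the event `G` the variable `Y` has at most `N` values given `A`. -/
def Few (P : FP Ω) (Y : Ω → α) (A : Ω → β) (G : Ω → Prop) (N : ℝ) : Prop :=
  ∀ a ∈ P.S, ∃ T : Finset α, (T.card : ℝ) ≤ N ∧ ∀ v ∈ P.S, A v = A a → G v → Y v ∈ T

variable {P : FP Ω} {Y : Ω → α} {Y' : Ω → α'} {A : Ω → β} {A' : Ω → β'} {B : Ω → γ}
  {G G' : Ω → Prop} {D D' N θ : ℝ} {ω : Ω}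

theorem mem_cv (h : ω ∈ P.S) (v : Ω) : v ∈ (cv P A (A ω)).S ↔ v ∈ P.S ∧ A v = A ω :=
  mem_cE (E := fun v => A v = A ω) ⟨ω, h, rfl⟩ v

theorem pb_cv (P : FP Ω) (A : Ω → β) (s : β) (E : Ω → Prop) :
    pb P (fun v => A v = s) * pb (cv P A s) E = pb P fun v => A v = s ∧ E v := pb_cE _ _ _

theorem pb_val (h : ω ∈ P.S) (A : Ω → β) : 0 < pb P fun v => A v = A ω := pb_pos P ⟨ω, h, rfl⟩

theorem pb_cv' (h : ω ∈ P.S) (A : Ω → β) (E : Ω → Prop) : pb (cv P A (A ω)) E =
    pb P (fun v => A v = A ω ∧ E v) / pb P fun v => A v = A ω := by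
  rw [← pb_cv, mul_div_cancel_left₀ _ (pb_val h A).ne']

theorem pb_tot (P : FP Ω) (A : Ω → β) (S : β → Ω → Prop) :
    pb P (fun ω => S (A ω) ω) = P.E fun ω => pb (cv P A (A ω)) (S (A ω)) :=
  KEA.exp P A fun z ω => ind (S z ω)

theorem pb_tot_le {E : Ω → Prop} (A : Ω → β) (h : ∀ a ∈ P.S, pb (cv P A (A a)) E ≤ D) :
    pb P E ≤ D :=
  (pb_tot P A fun _ => E).trans_le ((P.E_mono h).trans (P.E_const D).le)

theorem pb_mem (P : FP Ω) (Y : Ω → α) (G : Ω → Prop) (T : Finset α)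
    (h : ∀ c ∈ T, pb P (fun v => G v ∧ Y v = c) ≤ D) :
    pb P (fun v => G v ∧ Y v ∈ T) ≤ T.card * D := by
  classical
  induction T using Finset.induction_on with
  | empty => simpa using (pb_zero fun _ _ k => k).le
  | insert c T hc ih =>
    have h1 := ih fun c' k => h c' (Finset.mem_insert_of_mem k)
    have h2 := h c (Finset.mem_insert_self _ _)
    have h3 := pb_or P (fun v => G v ∧ Y v = c) fun v => G v ∧ Y v ∈ T
    rw [Finset.card_insert_of_notMem hc]
    push_cast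
    refine (pb_mono fun v _ k => ?_).trans (h3.trans (by linarith))
    exact (Finset.mem_insert.1 k.2).imp (fun e => ⟨k.1, e⟩) fun e => ⟨k.1, e⟩

theorem dn_pos (h : ω ∈ P.S) (Y : Ω → α) (A : Ω → β) : 0 < dn P Y A ω :=
  pb_pos _ ⟨ω, (mem_cv h ω).2 ⟨h, rfl⟩, rfl⟩

theorem dn_le_one (P : FP Ω) (Y : Ω → α) (A : Ω → β) (ω : Ω) : dn P Y A ω ≤ 1 := pb_le_one _ _

theorem dn_rel {v : Ω} (h : A v = A ω) (h' : Y v = Y ω) : dn P Y A v = dn P Y A ω := by
  simp only [dn, h, h']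

theorem dn_eq (h : ω ∈ P.S) (Y : Ω → α) (A : Ω → β) : dn P Y A ω =
    pb P (fun v => A v = A ω ∧ Y v = Y ω) / pb P fun v => A v = A ω := pb_cv' h A _

/-- Equivalent contexts and cells. -/
theorem dn_congr (h : ω ∈ P.S) (hA : Fn P A A') (hA' : Fn P A' A)
    (hY : Fn P Y fun v => (Y' v, A v)) (hY' : Fn P Y' fun v => (Y v, A v)) :
    dn P Y A ω = dn P Y' A' ω := by
  rw [dn_eq h, dn_eq h]
  congr 1
  · exact pb_congr fun v hv => ⟨fun k => ⟨hA' v hv ω h k.1, hY' v hv ω h (Prod.ext k.2 k.1)⟩,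
      fun k => ⟨hA v hv ω h k.1, hY v hv ω h (Prod.ext k.2 (hA v hv ω h k.1))⟩⟩
  · exact pb_congr fun v hv => ⟨hA' v hv ω h, hA v hv ω h⟩

/-- A finer cell has a smaller probability. -/
theorem dn_mono (h : ω ∈ P.S) (hY : Fn P Y fun v => (Y' v, A v)) : dn P Y' A ω ≤ dn P Y A ω :=
  pb_mono fun v hv k => hY v (cE_sub hv) ω h (Prod.ext k ((mem_cv h v).1 hv).2)

/-- The chain rule. -/
theorem dn_chain (h : ω ∈ P.S) (Y : Ω → α) (Y' : Ω → α') (A : Ω → β) :
    dn P (fun v => (Y v, Y' v)) A ω = dn P Y A ω * dn P Y' (fun v => (Y v, A v)) ω := by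
  have h1 := pb_val h fun v => (Y v, A v)
  have e : pb P (fun v => A v = A ω ∧ Y v = Y ω) = pb P fun v => (Y v, A v) = (Y ω, A ω) :=
    pb_congr fun v _ => by simp [and_comm]
  rw [dn_eq h, dn_eq h, dn_eq h, e, div_mul_div_comm, mul_comm (pb P fun v => A v = A ω),
    mul_div_mul_left _ _ h1.ne']
  congr 1
  exact pb_congr fun v _ => by simp only [Prod.mk.injEq]; tauto

/-- Side information costs its own probability. -/
theorem dn_side (h : ω ∈ P.S) (Y : Ω → α) (B : Ω → γ) (A : Ω → β) :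
    dn P B A ω * dn P Y (fun v => (B v, A v)) ω ≤ dn P Y A ω := by
  rw [← dn_chain h]
  exact dn_mono h fun _ _ _ _ e => congrArg (·.1.2) e

/-- Conditioning on an event. -/
theorem pb_cv_cE (h : ω ∈ P.S) (hG : G ω) (A : Ω → β) (E : Ω → Prop) :
    pb (cv P A (A ω)) G * pb (cv (cE P G) A (A ω)) E =
      pb (cv P A (A ω)) fun v => G v ∧ E v := by
  have e : cv (cE P G) A (A ω) = cE (cv P A (A ω)) G := by
    unfold cv
    rw [cE_cE (E := G) (E' := fun v => A v = A ω) ⟨ω, h, hG, rfl⟩,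
      cE_cE (E := fun v => A v = A ω) (E' := G) ⟨ω, h, rfl, hG⟩]
    exact cE_congr fun _ _ => and_comm
  rw [e, pb_cE]

theorem dn_cE (h : ω ∈ P.S) (hG : G ω) (Y : Ω → α) (A : Ω → β) :
    pb (cv P A (A ω)) G * dn (cE P G) Y A ω ≤ dn P Y A ω :=
  (pb_cv_cE h hG A _).trans_le (pb_mono fun _ _ k => k.2)

/-- An event is rarely rare in its context. -/
theorem rare (P : FP Ω) (A : Ω → β) (G : Ω → Prop) (h0 : 0 ≤ θ) :
    pb P (fun ω => G ω ∧ pb (cv P A (A ω)) G ≤ θ) ≤ θ := by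
  refine pb_tot_le A fun a ha => ?_
  by_cases c : pb (cv P A (A a)) G ≤ θ
  · exact (pb_mono fun _ _ k => k.1).trans c
  · refine (pb_zero fun v hv k => c ?_).trans_le h0
    rw [← ((mem_cv ha v).1 hv).2]
    exact k.2

theorem DB.mono (h : DB P Y A G D) (e : ∀ v ∈ P.S, G' v → G v) (e' : D ≤ D') : DB P Y A G' D' :=
  fun a ha c => (pb_mono fun v hv k => ⟨e v (cE_sub hv) k.1, k.2⟩).trans ((h a ha c).trans e')

theorem DB.nonneg (h : DB P Y A G D) : 0 ≤ D := by
  obtain ⟨a, ha, -⟩ := ex_of_pb (P := P) (E := fun _ => True) (by rw [pb_true]; exact one_pos)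
  exact (pb_nonneg _ _).trans (h a ha (Y a))

/-- The canonical good set. -/
theorem db_dn (P : FP Ω) (Y : Ω → α) (A : Ω → β) (h0 : 0 ≤ D) :
    DB P Y A (fun v => dn P Y A v ≤ D) D := fun a ha c => by
  by_cases k : ∃ v ∈ (cv P A (A a)).S, dn P Y A v ≤ D ∧ Y v = c
  · obtain ⟨v, hv, k1, k2⟩ := k
    refine (pb_mono fun _ _ e => e.2.trans k2.symm).trans ?_
    rw [← ((mem_cv ha v).1 hv).2]
    exact k1
  · exact (pb_zero fun v hv e => k ⟨v, hv, e⟩).trans_le h0

/-- The canonical good set is large. -/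
theorem DB.meas (h : DB P Y A G D) :
    pb P (fun v => ¬dn P Y A v ≤ 2 * D) ≤ 2 * pb P fun v => ¬G v := by
  have k := pb_fib P (fun v => (Y v, A v))
    (fun z => 2 * D < pb (cv P A z.2) fun v => Y v = z.1) (fun _ v => ¬G v) (κ := 1 / 2)
    fun ω hω e => by
      have h1 := pb_val hω A
      have h2 := pb_val hω fun v => (Y v, A v)
      have h3 := h ω hω (Y ω)
      have e1 : pb P (fun v => A v = A ω ∧ Y v = Y ω) = pb P fun v => (Y v, A v) = (Y ω, A ω) :=
        pb_congr fun v _ => by simp [and_comm]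
      have e2 : pb P (fun v => A v = A ω ∧ G v ∧ Y v = Y ω) =
          pb P fun v => (Y v, A v) = (Y ω, A ω) ∧ G v :=
        pb_congr fun v _ => by simp only [Prod.mk.injEq]; tauto
      simp only at e
      rw [pb_cv' hω, e1, lt_div_iff₀ h1] at e
      rw [pb_cv' hω, e2, div_le_iff₀ h1] at h3
      rw [pb_cv' hω fun v => (Y v, A v), le_div_iff₀ h2]
      have := pb_split P (fun v => (Y v, A v) = (Y ω, A ω)) G
      linarith
  have k2 : pb P (fun v => ¬dn P Y A v ≤ 2 * D) = pb P fun v =>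
    2 * D < pb (cv P A (A v)) fun w => Y w = Y v := pb_congr fun v _ => not_le
  have k3 := k.trans (pb_mono (F := fun v => ¬G v) fun _ _ e => e.2)
  rw [k2]
  linarith

/-- A coarser context. -/
theorem DB.ctx (h : DB P Y A' G D) (e : Fn P A A') : DB P Y A G D := fun a ha c => by
  refine pb_tot_le A' fun b hb => ?_
  obtain ⟨b1, b2⟩ := (mem_cv ha b).1 hb
  have : cv (cv P A (A a)) A' (A' b) = cv P A' (A' b) := by
    unfold cv
    rw [cE_cE (E := fun v => A v = A a) (E' := fun v => A' v = A' b) ⟨b, b1, b2, rfl⟩]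
    exact cE_congr fun v hv => ⟨fun k => k.2, fun k => ⟨(e v hv b b1 k).trans b2, k⟩⟩
  rw [this]
  exact h b b1 c

/-- Every cell of `Y'` meets few cells of `Y`. -/
theorem DB.cover (h : DB P Y A G D) (e : Few P Y (fun v => (Y' v, A v)) G' N) :
    DB P Y' A (fun v => G v ∧ G' v) (N * D) := fun a ha c => by
  by_cases k : ∃ v ∈ (cv P A (A a)).S, Y' v = c
  · obtain ⟨v, hv, k1⟩ := k
    obtain ⟨v1, v2⟩ := (mem_cv ha v).1 hv
    obtain ⟨T, t1, t2⟩ := e v v1
    refine (pb_mono fun w hw k => ⟨k.1.1, ?_⟩).trans ((pb_mem _ Y G T fun c _ => h a ha c).trans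
      (mul_le_mul_of_nonneg_right t1 h.nonneg))
    obtain ⟨w1, w2⟩ := (mem_cv ha w).1 hw
    exact t2 w w1 (Prod.ext (k.2.trans k1.symm) (w2.trans v2.symm)) k.1.2
  · obtain ⟨T, t1, -⟩ := e a ha
    exact (pb_zero fun v hv e => k ⟨v, hv, e.2⟩).trans_le
      (mul_nonneg ((Nat.cast_nonneg _).trans t1) h.nonneg)

/-- An event with few values is small in every context. -/
theorem DB.few_cv (h : DB P Y A G D) (e : Few P Y A G' N) (hω : ω ∈ P.S) :
    pb (cv P A (A ω)) (fun v => G v ∧ G' v) ≤ N * D := by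
  obtain ⟨T, t1, t2⟩ := e ω hω
  refine (pb_mono fun w hw k => ⟨k.1, ?_⟩).trans ((pb_mem _ Y G T fun c _ => h ω hω c).trans
    (mul_le_mul_of_nonneg_right t1 h.nonneg))
  exact t2 w (cE_sub hw) ((mem_cv hω w).1 hw).2 k.2

theorem DB.few (h : DB P Y A G D) (e : Few P Y A G' N) : pb P (fun v => G v ∧ G' v) ≤ N * D :=
  pb_tot_le A fun _ ha => h.few_cv e ha

/-- A variable with few values has a large probability. -/
theorem Few.low (e : Few P Y A G N) (h0 : 0 ≤ θ) :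
    pb P (fun v => dn P Y A v ≤ θ ∧ G v) ≤ N * θ := (db_dn P Y A h0).few e

/-- There are few likely values. -/
theorem few_dn (P : FP Ω) (Y : Ω → α) (A : Ω → β) (h0 : 0 < θ) :
    Few P Y A (fun v => θ ≤ dn P Y A v) θ⁻¹ := fun a ha => by
  classical
  refine ⟨((cv P A (A a)).S.filter fun v => θ ≤ dn P Y A v).image Y, ?_, fun v hv e k =>
    Finset.mem_image_of_mem _ (Finset.mem_filter.2 ⟨(mem_cv ha v).2 ⟨hv, e⟩, k⟩)⟩
  set T := ((cv P A (A a)).S.filter fun v => θ ≤ dn P Y A v).image Y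
  have h1 : ∑ c ∈ T, pb (cv P A (A a)) (fun v => Y v = c) ≤ 1 := by
    simp only [pb_ind]
    rw [← FP.E_sum]
    refine (FP.E_mono _ fun v _ => ?_).trans (FP.E_const _ 1).le
    unfold ind
    rw [Finset.sum_ite_eq]
    split_ifs <;> norm_num
  have h2 : T.card • θ ≤ ∑ c ∈ T, pb (cv P A (A a)) (fun v => Y v = c) :=
    Finset.card_nsmul_le_sum _ _ _ fun c hc => by
      obtain ⟨v, hv, rfl⟩ := Finset.mem_image.1 hc
      obtain ⟨v1, v2⟩ := Finset.mem_filter.1 hv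
      rw [← ((mem_cv ha v).1 v1).2]
      exact v2
  rw [nsmul_eq_mul] at h2
  rw [← one_div, le_div_iff₀ h0]
  exact h2.trans h1

theorem Few.mono {N' : ℝ} (e : Few P Y A G N) (h : ∀ v ∈ P.S, G' v → G v) (h' : N ≤ N') :
    Few P Y A G' N' := fun a ha =>
  (e a ha).imp fun _ k => ⟨k.1.trans h', fun v hv a b => k.2 v hv a (h v hv b)⟩

theorem Few.ctx (e : Few P Y A G N) (h : Fn P A A') : Few P Y A' G N := fun a ha =>
  (e a ha).imp fun _ k => ⟨k.1, fun v hv b => k.2 v hv (h v hv a ha b)⟩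

theorem Few.cE (e : Few P Y A G N) (E : Ω → Prop) : Few (cE P E) Y A G N := fun a ha =>
  (e a (cE_sub ha)).imp fun _ k => ⟨k.1, fun v hv => k.2 v (cE_sub hv)⟩

/-- A function of the cell and of the context. -/
theorem Few.fn (e : Few P Y A G N) (h : Fn P Y' fun v => (Y v, A v)) : Few P Y' A G N :=
  fun a ha => by
  classical
  obtain ⟨T, t1, t2⟩ := e a ha
  refine ⟨T.image fun c => if k : ∃ v ∈ P.S, Y v = c ∧ A v = A a then Y' k.choose else Y' a,
    le_trans (by exact_mod_cast Finset.card_image_le) t1, fun v hv b g =>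
      Finset.mem_image.2 ⟨Y v, t2 v hv b g, ?_⟩⟩
  have k : ∃ w ∈ P.S, Y w = Y v ∧ A w = A a := ⟨v, hv, rfl, b⟩
  rw [dif_pos k]
  exact h _ k.choose_spec.1 v hv (Prod.ext k.choose_spec.2.1 (k.choose_spec.2.2.trans b.symm))

/-- Lists multiply. -/
theorem Few.pair {N' : ℝ} (e : Few P Y A G N) (e' : Few P Y' (fun v => (Y v, A v)) G N') :
    Few P (fun v => (Y v, Y' v)) A G (N * N') := fun a ha => by
  classical
  obtain ⟨T, t1, t2⟩ := e a ha
  choose! U u1 u2 using e'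
  have n0 : 0 ≤ N' := (Nat.cast_nonneg _).trans (u1 a ha)
  let r : α → Ω := fun c => if k : ∃ v ∈ P.S, Y v = c ∧ A v = A a then k.choose else a
  have hr : ∀ c, r c ∈ P.S := fun c => by
    simp only [r]
    split_ifs with k
    exacts [k.choose_spec.1, ha]
  refine ⟨T.biUnion fun c => (U (r c)).image fun y => (c, y), ?_, fun v hv b g =>
    Finset.mem_biUnion.2 ⟨Y v, t2 v hv b g, Finset.mem_image_of_mem _ (u2 _ (hr _) v hv ?_ g)⟩⟩
  · refine le_trans (Nat.cast_le.2 Finset.card_biUnion_le) ?_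
    push_cast
    refine (Finset.sum_le_card_nsmul _ _ N' fun c _ => le_trans ?_ (u1 _ (hr c))).trans ?_
    · exact_mod_cast Finset.card_image_le
    · rw [nsmul_eq_mul]
      exact mul_le_mul_of_nonneg_right t1 n0
  · have k : ∃ w ∈ P.S, Y w = Y v ∧ A w = A a := ⟨v, hv, rfl, b⟩
    simp only [r, dif_pos k]
    exact Prod.ext k.choose_spec.2.1.symm (b.trans k.choose_spec.2.2.symm)

/-- Invariance under a map that preserves the law. -/
theorem dn_pull {Q : FP Ω'} {ρ : Ω' → Ω} (h : Law Q ρ P id) (Y : Ω → α) (A : Ω → β) (v : Ω') :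
    dn Q (fun w => Y (ρ w)) (fun w => A (ρ w)) v = dn P Y A (ρ v) :=
  (KEA.law Q P ρ id (fun ω => A ω = A (ρ v)) h).pb_eq fun ω => Y ω = Y (ρ v)

/-- The conditional entropy is the mean of the logarithm. -/
theorem ch_dn (P : FP Ω) (Y : Ω → α) (A : Ω → β) :
    ch P Y A = P.E fun ω => -Real.log (dn P Y A ω) := by
  unfold ch hh FP.H
  rw [← FP.E_sub]
  refine P.E_congr fun ω hω => ?_
  have e1 : P.pr (Setoid.ker A) ω = pb P fun v => A v = A ω := P.E_congr fun _ _ => by congr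
  have e2 : P.pr (Setoid.ker fun v => (Y v, A v)) ω = pb P fun v => (Y v, A v) = (Y ω, A ω) :=
    P.E_congr fun _ _ => by congr
  have e3 : pb P (fun v => A v = A ω ∧ Y v = Y ω) = pb P fun v => (Y v, A v) = (Y ω, A ω) :=
    pb_congr fun v _ => by simp [and_comm]
  rw [e1, e2, dn_eq hω, e3, Real.log_div (pb_val hω fun v => (Y v, A v)).ne' (pb_val hω A).ne']
  ring

theorem le_ch (P : FP Ω) (Y : Ω → α) (A : Ω → β) (D : ℝ) :
    -Real.log D * pb P (fun v => dn P Y A v ≤ D) ≤ ch P Y A := by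
  rw [ch_dn, pb_ind, ← FP.E_mul]
  refine P.E_mono fun ω hω => ?_
  by_cases c : dn P Y A ω ≤ D
  · rw [ind_pos c, mul_one]
    exact neg_le_neg (Real.log_le_log (dn_pos hω Y A) c)
  · rw [ind_neg c, mul_zero]
    exact neg_nonneg.2 (Real.log_nonpos (dn_pos hω Y A).le (dn_le_one _ _ _ _))

end Pool.Agent.MP_5168f5_an.AN.S20
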