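import Pool.Agent.MP_5168f5_an.AN.GASpec2

/-! A linear form that almost kills the brackets is almost additive. -/

namespace Pool.Agent.MP_5168f5_an.AN.GA

open GABoxA

namespace GAAbelA

variable {κ α : Type} [Fintype κ] {c : κ → κ → κ → ℝ} {r l s t : κ → ℝ} {L X Y η : ℝ} {k : ℕ}

theorem lb (hk : Fintype.card κ ≤ k) (hη : 0 ≤ η) (hX : 0 ≤ X) (hY : 0 ≤ Y)
    (h : ∀ a b, |l ⬝ᵥ c a b| * r a * r b ≤ η) (hs : Bx r X s) (ht : Bx r Y t) :
    |l ⬝ᵥ br c s t| ≤ k ^ 2 * (X * Y * η) := by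
  have h1 : ∀ a b, |l ⬝ᵥ c a b * s a * t b| ≤ X * Y * η := fun a b => by
    rw [abs_mul, abs_mul]
    refine (mul_le_mul (mul_le_mul_of_nonneg_left (hs a) (abs_nonneg _)) (ht b) (abs_nonneg _)
      (mul_nonneg (abs_nonneg _) ((abs_nonneg _).trans (hs a)))).trans ?_
    exact le_of_eq_of_le (by ring) (mul_le_mul_of_nonneg_left (h a b) (mul_nonneg hX hY))
  have h2 : ∀ (f : κ → ℝ) (Z : ℝ), 0 ≤ Z → (∀ a, |f a| ≤ Z) → |∑ a, f a| ≤ k * Z :=
    fun f Z z hf => (Finset.abs_sum_le_sum_abs _ _).trans ((Finset.sum_le_card_nsmul _ _ Z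
      fun a _ => hf a).trans (by
        rw [nsmul_eq_mul]
        exact mul_le_mul_of_nonneg_right (by exact_mod_cast hk) z))
  have h3 : l ⬝ᵥ br c s t = ∑ a, ∑ b, l ⬝ᵥ c a b * s a * t b := by
    simp only [dotProduct, br, Finset.mul_sum, Finset.sum_mul, mul_assoc]
    rw [Finset.sum_comm]
    exact Finset.sum_congr rfl fun _ _ => Finset.sum_comm
  rw [h3]
  exact (h2 _ _ (by positivity) fun a => h2 _ _ (by positivity) (h1 a)).trans_eq (by ring)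

theorem w3 (hk : Fintype.card κ ≤ k) (hL : 1 ≤ L) (hr : ∀ a, 0 ≤ r a) (h : Idl c r r L)
    {f g : α → κ → ℝ} (hf : ∀ i, Bx r L (f i)) (hg : ∀ i, Bx r L (g i)) (w : Wd α) :
    Bx r (((2 * k ^ 2 + 2) * L) ^ (2 * w.len - 1)) (w.dv (br c) f g) := by
  have h0 : (0 : ℝ) ≤ k ^ 2 * L := by positivity
  induction w with
  | of i => exact mono (hg i) hr (by show _ ≤ _ ^ 1; rw [pow_one]; nlinarith)
  | br u v a b =>
    intro e
    have a1 := bx hk (by positivity) (by positivity) (by positivity) hr h a (w1 hk hL hr h hf v) e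
    have a2 := bx hk (by positivity) (by positivity) (by positivity) hr h (w1 hk hL hr h hf u) b e
    have a5 : 0 ≤ L * (((2 * k ^ 2 + 2) * L) ^ (2 * u.len - 1) *
      ((2 * k ^ 2 + 2) * L) ^ (2 * v.len - 1)) * r e := by have := hr e; positivity
    rw [pw]
    exact (abs_add_le _ _).trans (by linarith)

theorem wl (hk : Fintype.card κ ≤ k) (hL : 1 ≤ L) (hη : 0 ≤ η) (hr : ∀ a, 0 ≤ r a)
    (h : Idl c r r L) (hl : ∀ a b, |l ⬝ᵥ c a b| * r a * r b ≤ η) {f g : α → κ → ℝ}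
    (hf : ∀ i, Bx r L (f i)) (hg : ∀ i, Bx r L (g i)) (w : Wd α) (hw : 2 ≤ w.len) :
    |l ⬝ᵥ w.ev (br c) f| ≤ ((2 * k ^ 2 + 2) * L) ^ (2 * w.len - 1) * η ∧
      |l ⬝ᵥ w.dv (br c) f g| ≤ ((2 * k ^ 2 + 2) * L) ^ (2 * w.len - 1) * η := by
  rcases w with i | ⟨u, v⟩
  · simp [Wd.len] at hw
  have a0 := lb hk hη (by positivity) (by positivity) hl (w1 hk hL hr h hf u) (w1 hk hL hr h hf v)
  have a1 := lb hk hη (by positivity) (by positivity) hl (w3 hk hL hr h hf hg u)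
    (w1 hk hL hr h hf v)
  have a2 := lb hk hη (by positivity) (by positivity) hl (w1 hk hL hr h hf u)
    (w3 hk hL hr h hf hg v)
  have a3 : (2 * k ^ 2 : ℝ) ≤ (2 * k ^ 2 + 2) * L := by nlinarith [sq_nonneg (k : ℝ)]
  have a4 : 0 ≤ ((2 * k ^ 2 + 2) * L) ^ (2 * u.len - 1) *
    ((2 * k ^ 2 + 2) * L) ^ (2 * v.len - 1) * η := by positivity
  have a5 := mul_le_mul_of_nonneg_right a3 a4
  have a6 := mul_nonneg (sq_nonneg (k : ℝ)) a4
  rw [pw, Wd.ev, Wd.dv, dotProduct_add]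
  exact ⟨by linarith, (abs_add_le _ _).trans (by linarith)⟩

theorem lin {J : Type} (T : Finset J) (q : J → ℚ) (F : J → κ → ℝ) (h : ∀ j ∈ T, |l ⬝ᵥ F j| ≤ X) :
    |l ⬝ᵥ ∑ j ∈ T, q j • F j| ≤ (∑ j ∈ T, |(q j : ℝ)|) * X := by
  rw [dotProduct_sum, Finset.sum_mul]
  refine (Finset.abs_sum_le_sum_abs _ _).trans (Finset.sum_le_sum fun j hj => ?_)
  rw [dotProduct_smul, Rat.smul_def, abs_mul]
  exact mul_le_mul_of_nonneg_left (h j hj) (abs_nonneg _)

theorem itr (j : ℕ) : ∃ w : Wd Bool, w.len = j + 1 ∧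
    (br c s)^[j] t = w.ev (br c) fun i => bif i then s else t := by
  induction j with
  | zero => exact ⟨.of false, rfl, rfl⟩
  | succ j ih =>
    obtain ⟨w, h1, h2⟩ := ih
    exact ⟨.br (.of true) w, by rw [Wd.len, h1, Wd.len, add_comm],
      by rw [Function.iterate_succ_apply', h2]; rfl⟩

end GAAbelA

open GAAbelA in
theorem gaAbel : SAbel := by
  intro N k
  obtain ⟨m, hm⟩ : ∃ m, m = (BL N).support.sup Wd.len + N + 2 := ⟨_, rfl⟩
  obtain ⟨Q, hQ⟩ : ∃ Q, Q = ∑ w ∈ (BL N).support, |(BL N w : ℝ)| := ⟨_, rfl⟩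
  obtain ⟨K, k1, k2, k3⟩ : ∃ K : ℕ, 2 * k ^ 2 + 2 ≤ K ∧ ⌈1 + Q + N⌉₊ ≤ K ∧ 2 * m + 1 ≤ K :=
    ⟨2 * k ^ 2 + 2 + ⌈1 + Q + N⌉₊ + (2 * m + 1), by omega, by omega, by omega⟩
  refine ⟨K, by omega, fun κ _ c r l L η s t s' t' hk hL hη hr h hl hs ht hs' ht' => ?_⟩
  have k4 : (2 * k ^ 2 + 2 : ℝ) ≤ K := by exact_mod_cast k1
  have k5 : (1 : ℝ) ≤ (2 * k ^ 2 + 2) * L :=
    one_le_mul_of_one_le_of_one_le (by nlinarith [sq_nonneg (k : ℝ)]) hL
  have k6 : (2 * k ^ 2 + 2) * L ≤ K * L := mul_le_mul_of_nonneg_right k4 (by positivity)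
  obtain ⟨X, hX⟩ : ∃ X, X = ((2 * k ^ 2 + 2) * L) ^ (2 * m) * η := ⟨_, rfl⟩
  have k7 : (1 + Q + N) * X ≤ (K * L) ^ K * η := by
    rw [hX, ← mul_assoc]
    refine mul_le_mul_of_nonneg_right (le_trans ?_ (pow_le_pow_right₀ (k5.trans k6) k3)) hη
    rw [pow_succ' (K * L : ℝ)]
    exact mul_le_mul ((Nat.ceil_le.1 k2).trans (le_mul_of_one_le_right (by positivity) hL))
      (pow_le_pow_left₀ (by positivity) k6 _) (by positivity) (by positivity)
  have k8 : ∀ w : Wd Bool, 2 ≤ w.len → w.len ≤ m →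
      |l ⬝ᵥ w.ev (br c) fun i => bif i then s else t| ≤ X ∧
        |l ⬝ᵥ w.dv (br c) (fun i => bif i then s else t) fun i => bif i then s' else t'| ≤ X :=
    fun w e e' => by
      have a := mul_le_mul_of_nonneg_right
        (pow_le_pow_right₀ k5 (show 2 * w.len - 1 ≤ 2 * m by omega)) hη
      exact (wl hk hL hη hr h hl (fun i => by cases i <;> assumption)
        (fun i => by cases i <;> assumption) w e).imp (·.trans (hX ▸ a)) (·.trans (hX ▸ a))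
  have k9 := fun w (hw : w ∈ (BL N).support) => k8 w (le_trans (by norm_num) ((sBch N).1 w hw))
    ((Finset.le_sup hw).trans (by omega))
  have x0 : 0 ≤ X := by rw [hX]; positivity
  have q0 : 0 ≤ Q * X := mul_nonneg (hQ ▸ Finset.sum_nonneg fun _ _ => abs_nonneg _) x0
  have n0 : 0 ≤ N * X := by positivity
  obtain ⟨b1, b2⟩ := k8 (.br (.of true) (.of false)) le_rfl (by simp [Wd.len, hm])
  have b3 := lin _ (BL N) _ fun w hw => (k9 w hw).1
  have b4 := lin _ (BL N) _ fun w hw => (k9 w hw).2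
  have b5 := lin (l := l) (X := X) (Finset.range N) (fun j => (((j + 1).factorial : ℚ))⁻¹)
    (fun j => (br c s)^[j + 1] t) fun j hj => by
      obtain ⟨w, h1, h2⟩ := itr (c := c) (s := s) (t := t) (j + 1)
      rw [h2]
      exact (k8 w (by omega) (by have := Finset.mem_range.1 hj; omega)).1
  have b6 : ∑ j ∈ Finset.range N, |(((((j + 1).factorial : ℚ))⁻¹ : ℚ) : ℝ)| ≤ N := by
    refine (Finset.sum_le_card_nsmul _ _ 1 fun j _ => ?_).trans_eq (by simp)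
    push_cast
    rw [abs_of_nonneg (by positivity)]
    exact inv_le_one_of_one_le₀ (by exact_mod_cast (j + 1).factorial_pos)
  have key : ∀ u v : κ → ℝ, |l ⬝ᵥ u| ≤ X → |l ⬝ᵥ v| ≤ Q * X →
      |l ⬝ᵥ ((1 / 2 : ℚ) • u + v)| ≤ (K * L) ^ K * η := fun u v a b => by
    rw [dotProduct_add, dotProduct_smul, Rat.smul_def]
    push_cast
    rw [abs_le] at a b ⊢
    constructor <;> linarith [a.1, a.2, b.1, b.2]
  rw [← hQ] at b3 b4
  refine ⟨(congrArg (|l ⬝ᵥ ·| ≤ _) ?_).mp (key _ _ b1 b3),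
    (congrArg (|l ⬝ᵥ ·| ≤ _) ?_).mp (key _ _ b2 b4), ?_, b1.trans (by linarith)⟩
  · simp only [bch, ser, Wd.ev, Finsupp.sum, cond_true, cond_false]
    abel
  · simp only [dbch, Wd.ev, Wd.dv, Finsupp.sum, cond_true, cond_false]
    abel
  · rw [Ad, Finset.sum_range_succ', Nat.factorial_zero, Nat.cast_one, inv_one, one_smul,
      Function.iterate_zero_apply, add_sub_cancel_right]
    linarith [mul_le_mul_of_nonneg_right b6 x0]

end Pool.Agent.MP_5168f5_an.AN.GA
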