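import Pool.Agent.MP_5168f5_an.AN.GASpec2

/-! Estimates for the derivative of the series and the adjoint action on boxes. -/

namespace Pool.Agent.MP_5168f5_an.AN.GA

open GABoxA

namespace GABox2A

variable {κ α : Type} [Fintype κ] {c : κ → κ → κ → ℝ} {r r' s t : κ → ℝ} {L η : ℝ} {k : ℕ}

theorem w3 (hk : Fintype.card κ ≤ k) (hL : 1 ≤ L) (hη : 0 ≤ η) (hr : ∀ a, 0 ≤ r a ∧ 0 ≤ r' a)
    (ha : ∀ a b e, c a b e = -c b a e) (h : Idl c r r L) (h' : Idl c r r' L) {f g : α → κ → ℝ}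
    (hf : ∀ i, Bx r L (f i)) (hd : ∀ i, Bx r' η (g i)) (w : Wd α) :
    Bx r' (((2 * k ^ 2 + 2) * L) ^ (2 * w.len - 1) * η) (w.dv (br c) f g) := by
  have h0 : (0 : ℝ) ≤ k ^ 2 * L := by positivity
  induction w with
  | of i =>
    exact mono (hd i) (fun a => (hr a).2) (le_mul_of_one_le_left hη (one_le_pow₀ (by nlinarith)))
  | br u v a b =>
    intro e
    have a3 := bx hk (by positivity) (by positivity) (by positivity) (fun a => (hr a).2) h'
      (w1 hk hL (fun a => (hr a).1) h hf v) a e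
    have a4 := bx hk (by positivity) (by positivity) (by positivity) (fun a => (hr a).2) h'
      (w1 hk hL (fun a => (hr a).1) h hf u) b e
    rw [br_anti ha] at a3
    rw [pw]
    simp only [Wd.dv, Pi.add_apply, Pi.neg_apply] at a3 ⊢
    have a5 : 0 ≤ L * (((2 * k ^ 2 + 2) * L) ^ (2 * u.len - 1) *
      ((2 * k ^ 2 + 2) * L) ^ (2 * v.len - 1)) * η * r' e := by have := (hr e).2; positivity
    rw [abs_le] at a3 a4 ⊢
    constructor <;> linarith [a3.1, a3.2, a4.1, a4.2]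

theorem it (hk : Fintype.card κ ≤ k) (hL : 1 ≤ L) (hη : 0 ≤ η) (hr : ∀ a, 0 ≤ r' a)
    (h' : Idl c r r' L) (hs : Bx r L s) (ht : Bx r' η t) (j : ℕ) :
    Bx r' (((2 * k ^ 2 + 2) * L) ^ (2 * j) * η) ((br c s)^[j] t) := by
  induction j with
  | zero => simpa using ht
  | succ j a =>
    rw [Function.iterate_succ_apply', mul_add_one 2 j, pow_add, mul_right_comm, mul_comm]
    refine mono (bx hk (by positivity) (by positivity) (by positivity) hr h' hs a) hr ?_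
    rw [← mul_assoc]
    refine mul_le_mul_of_nonneg_right ?_ (by positivity)
    rw [mul_pow, mul_assoc, ← sq]
    exact mul_le_mul_of_nonneg_right (by nlinarith [sq_nonneg ((k : ℝ) ^ 2)]) (by positivity)

end GABox2A

open GABox2A

theorem gaBox2 : SBox2 := by
  intro N k
  obtain ⟨m, hm⟩ : ∃ m, m = (BL N).support.sup Wd.len + 2 + N := ⟨_, rfl⟩
  obtain ⟨Q, hQ⟩ : ∃ Q, Q = 3 + ∑ w ∈ (BL N).support, |(BL N w : ℝ)| := ⟨_, rfl⟩
  obtain ⟨K, k1, k2, k3⟩ : ∃ K : ℕ, 2 * k ^ 2 + 2 ≤ K ∧ ⌈Q⌉₊ ≤ K ∧ 2 * m + 1 ≤ K :=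
    ⟨2 * k ^ 2 + 2 + ⌈Q⌉₊ + (2 * m + 1), by omega, by omega, by omega⟩
  refine ⟨K, by omega, fun κ _ c r r' L η s t s' t' hk hL hη hr ha h h' hs ht hs' ht' => ?_⟩
  have k4 : (2 * k ^ 2 + 2 : ℝ) ≤ K := by exact_mod_cast k1
  have k5 : (1 : ℝ) ≤ (2 * k ^ 2 + 2) * L :=
    one_le_mul_of_one_le_of_one_le (by nlinarith [sq_nonneg (k : ℝ)]) hL
  have k6 : (2 * k ^ 2 + 2) * L ≤ K * L := mul_le_mul_of_nonneg_right k4 (by positivity)
  have k7 : ∀ Q : ℝ, Q ≤ K → Q * (((2 * k ^ 2 + 2) * L) ^ (2 * m) * η) ≤ (K * L) ^ K * η :=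
    fun Q e => by
      rw [← mul_assoc]
      refine mul_le_mul_of_nonneg_right (le_trans ?_ (pow_le_pow_right₀ (k5.trans k6) k3)) hη
      rw [pow_succ' (K * L : ℝ)]
      exact mul_le_mul (e.trans (le_mul_of_one_le_right (by positivity) hL))
        (pow_le_pow_left₀ (by positivity) k6 _) (by positivity) (by positivity)
  have k8 : ∀ j ≤ 2 * m, ((2 * k ^ 2 + 2) * L) ^ j * η ≤ ((2 * k ^ 2 + 2) * L) ^ (2 * m) * η :=
    fun j e => mul_le_mul_of_nonneg_right (pow_le_pow_right₀ k5 e) hη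
  have r2 := fun a => (hr a).2
  have a1 := fun j (e : j ≤ m) => mono (it hk hL hη r2 h' hs hs' j) r2 (k8 _ (by omega))
  refine ⟨mono (lin (BL N) (fun w => w.dv (br c) (fun i => bif i then s else t) fun i =>
    bif i then s' else t') (by positivity) r2 fun w e => mono (w3 hk hL hη hr ha h h'
      (fun i => by cases i <;> assumption) (fun i => by cases i <;> assumption) w) r2
        (k8 _ (by omega))) r2 (hQ ▸ k7 Q (Nat.ceil_le.1 k2)),
    mono (fun e => ?_) r2 (k7 (N + 1 : ℕ) (Nat.cast_le.2 (by omega))),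
    mono (a1 1 (by omega)) r2 ((one_mul _).ge.trans (k7 1 (Nat.one_le_cast.2 (by omega))))⟩
  rw [Ad, Finset.sum_apply, mul_assoc]
  refine (Finset.abs_sum_le_sum_abs _ _).trans ((Finset.sum_le_card_nsmul _ _ _ fun j hj =>
    le_trans ?_ (a1 j (by have := Finset.mem_range.1 hj; omega) e)).trans_eq
      (by rw [Finset.card_range, nsmul_eq_mul]))
  rw [Pi.smul_apply, Rat.smul_def, abs_mul]
  refine mul_le_of_le_one_left (abs_nonneg _) ?_
  push_cast
  rw [abs_of_nonneg (by positivity)]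
  exact inv_le_one_of_one_le₀ (Nat.one_le_cast.2 j.factorial_pos)

end Pool.Agent.MP_5168f5_an.AN.GA
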