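import Pool.Agent.MP_5168f5_an.AN.GASpec2

/-! Kakeya sets in all dimensions: the cocycle relation. -/

namespace Pool.Agent.MP_5168f5_an.AN.GA

namespace GACocA

theorem num {a b d : ℕ} {L : ℝ} (hd : 1 ≤ d) (hL : 1 ≤ L) :
    (d * (a * L) ^ a) ^ d * (b * L) ^ b ≤ ((((1 + a) * d + b : ℕ) : ℝ) * L) ^ ((1 + a) * d + b) := by
  have h0 : (0 : ℝ) ≤ L := by linarith
  have h1 : ∀ x : ℕ, x ≤ (1 + a) * d + b → (x : ℝ) * L ≤ (((1 + a) * d + b : ℕ) : ℝ) * L :=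
    fun x hx => mul_le_mul_of_nonneg_right (by exact_mod_cast hx) h0
  have h2 := h1 a (by nlinarith)
  have h3 := h1 b (by omega)
  have h4 : (d : ℝ) ≤ (((1 + a) * d + b : ℕ) : ℝ) * L :=
    (le_mul_of_one_le_right (Nat.cast_nonneg _) hL).trans (h1 d (by nlinarith))
  generalize (((1 + a) * d + b : ℕ) : ℝ) * L = X at h2 h3 h4 ⊢
  have hX : 0 ≤ X := (Nat.cast_nonneg _).trans h4
  rw [pow_add, pow_mul, pow_add, pow_one]
  gcongr

end GACocA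

theorem gaCoc : OfCoc := by
  intro hLin hDb hB2 hDer N k
  obtain ⟨K1, hK1, h1⟩ := sBox N k
  obtain ⟨K2, -, h2⟩ := hDer N k
  obtain ⟨K3, hK3, h3⟩ := hB2 N k
  refine ⟨(1 + K1) * K3 + K2, by nlinarith, ?_⟩
  intro ι κ _ _ _ Φ B c D r ρ L s t hN hk hF hL hr hI hI' hD hs ht
  subst hN
  have ha := (sMul ι κ Φ B c hF).anti
  have hz := (h1 κ c r ρ L 0 s t s t hk hL le_rfl hr ha hI hI' hs ht hs ht).1
  have hw := h2 κ c D r ρ L s t hk hL hr ha hI hI' hD hs ht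
  have hK : (1 : ℝ) ≤ K1 := by exact_mod_cast hK1
  have hL1 : L ≤ K1 * L := le_mul_of_one_le_left (by linarith) hK
  have hΛ : L ≤ (K1 * L) ^ K1 := hL1.trans (le_self_pow₀ (hL.trans hL1) (by omega))
  have hm : ∀ r' : κ → ℝ, (∀ a, 0 ≤ r' a) → Idl c r r' L → Idl c r r' ((K1 * L) ^ K1) :=
    fun r' h0 h a b e => (h a b e).trans (mul_le_mul_of_nonneg_right hΛ (h0 e))
  have hη : (0 : ℝ) ≤ (K2 * L) ^ K2 := by
    have : 0 ≤ L := by linarith
    positivity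
  have hb := (h3 κ c r ρ ((K1 * L) ^ K1) ((K2 * L) ^ K2) (bch Φ.N c s t) (-bch Φ.N c s t)
    (D * bch Φ.N c s t - dbch Φ.N c s t (D * s) (D * t)) 0 hk (hL.trans hΛ) hη hr ha
    (hm r (fun a => (hr a).1) hI) (hm ρ (fun a => (hr a).2) hI') hz
    (fun a => by simpa using hz a) hw
    (fun a => by simpa using mul_nonneg hη (hr a).2)).1
  obtain ⟨-, -, -, hadd, -, -⟩ := hLin κ ℝ Φ.N c
  have e1 := hadd (bch Φ.N c s t) (-bch Φ.N c s t)
    (D * bch Φ.N c s t - dbch Φ.N c s t (D * s) (D * t)) 0 (dbch Φ.N c s t (D * s) (D * t)) 0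
  have e2 := hDb ι κ Φ B c hF s t (D * s) (D * t)
  have e3 : UU Φ.N c D (bch Φ.N c s t) - UU Φ.N c D s - Ad Φ.N c s (UU Φ.N c D t) =
      dbch Φ.N c (bch Φ.N c s t) (-bch Φ.N c s t)
        (D * bch Φ.N c s t - dbch Φ.N c s t (D * s) (D * t)) 0 := by
    rw [sub_add_cancel, add_zero] at e1
    unfold UU
    rw [sub_sub, ← e2]
    unfold Ew
    rw [e1, add_sub_cancel_right]
  rw [e3]
  exact GABoxA.mono hb (fun a => (hr a).2) (GACocA.num hK3 hL)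

end Pool.Agent.MP_5168f5_an.AN.GA
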