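import Pool.Agent.MP_5168f5_an.AN.GASpec2

/-! The exact chain rule for the logarithmic derivative of the exponential. -/

namespace Pool.Agent.MP_5168f5_an.AN.GA

open H61Z IsNilpotent TrivSqZeroExt

namespace GADbA

open GAMulA

theorem snd_mul' {A : Type} [Ring A] (x y : TrivSqZeroExt A A) :
    (x * y).snd = x.fst * y.snd + x.snd * y.fst := rfl

/-- The filtration of the dual numbers. -/
def dF {A : Type} [Ring A] [Algebra ℚ A] (Φ : Filt A) : Filt (TrivSqZeroExt A A) where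
  F n :=
    { carrier := {x | x.fst ∈ Φ.F n ∧ x.snd ∈ Φ.F n}
      add_mem' := fun a b => ⟨add_mem a.1 b.1, add_mem a.2 b.2⟩
      zero_mem' := ⟨zero_mem _, zero_mem _⟩
      smul_mem' := fun q _ a => ⟨(Φ.F n).smul_mem q a.1, (Φ.F n).smul_mem q a.2⟩ }
  N := Φ.N
  anti n := fun _ a => ⟨Φ.anti n a.1, Φ.anti n a.2⟩
  mul_l n _ _ a b := ⟨Φ.mul_l n _ _ a.1 b.1, add_mem (Φ.mul_l n _ _ a.1 b.2) (Φ.mul_l n _ _ a.2 b.1)⟩
  mul_r n _ _ a b := ⟨Φ.mul_r n _ _ a.1 b.1, add_mem (Φ.mul_r n _ _ a.1 b.2) (Φ.mul_r n _ _ a.2 b.1)⟩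
  bot _ a := TrivSqZeroExt.ext (Φ.bot _ a.1) (Φ.bot _ a.2)

variable {ι κ : Type} [Fintype ι] [DecidableEq ι] [Fintype κ] {Φ : Filt (Mt ι)}
  {B : κ → Mt ι} {c : κ → κ → κ → ℝ}

/-- A point with a tangent vector. -/
noncomputable def ph (B : κ → Mt ι) (s s' : κ → ℝ) : TrivSqZeroExt (Mt ι) (Mt ι) :=
  (vl B s, vl B s')

omit [Fintype ι] [DecidableEq ι] in
theorem ph_fst (s s' : κ → ℝ) : (ph B s s').fst = vl B s := rfl

omit [Fintype ι] [DecidableEq ι] in
theorem ph_snd (s s' : κ → ℝ) : (ph B s s').snd = vl B s' := rfl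

theorem ph_br (h : IsFr Φ B c) (s t s' t' : κ → ℝ) :
    cm (ph B s s') (ph B t t') = ph B (br c s t) (br c s' t + br c s t') := by
  refine TrivSqZeroExt.ext (vbr h s t).symm ?_
  simp only [cm, snd_sub, snd_mul', ph_fst, ph_snd, map_add, vbr h]
  abel

theorem ph_ev (h : IsFr Φ B c) {α : Type} (f g : α → κ → ℝ) (w : Wd α) :
    w.ev cm (fun a => ph B (f a) (g a)) = ph B (w.ev (br c) f) (w.dv (br c) f g) := by
  induction w with
  | of a => rfl
  | br u v a b => rw [Wd.ev, Wd.ev, Wd.dv, a, b, ph_br h]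

theorem ph_ser (h : IsFr Φ B c) (N : ℕ) (s t s' t' : κ → ℝ) :
    ser (BL N) cm (ph B s s') (ph B t t') = ph B (bch N c s t) (dbch N c s t s' t') := by
  have e : (fun i => bif i then ph B s s' else ph B t t') =
      fun i => ph B (bif i then s else t) (bif i then s' else t') :=
    funext fun i => by cases i <;> rfl
  rw [ser, e, ph_br h]
  simp only [ph_ev h]
  refine TrivSqZeroExt.ext ?_ ?_
  · simp only [Finsupp.sum, fst_add, fst_smul, fst_sum, ph_fst, bch, ser, map_add, map_sum,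
      map_rat_smul]
  · simp only [Finsupp.sum, snd_add, snd_smul, snd_sum, ph_snd, dbch, map_add, map_sum,
      map_rat_smul]

theorem main (h : IsFr Φ B c) (s t s' t' : κ → ℝ) : exp (ph B s s') * exp (ph B t t') =
    exp (ph B (bch Φ.N c s t) (dbch Φ.N c s t s' t')) := by
  rw [← ph_ser h]
  exact (sBch Φ.N).2 _ (dF Φ) le_rfl (ph B s s') ⟨h.mem s, h.mem s'⟩ (ph B t t')
    ⟨h.mem t, h.mem t'⟩

theorem exp_l (h : IsFr Φ B c) (s : κ → ℝ) : exp (ph B s 0) = inl (ex B s) := by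
  have e : ph B s 0 = inlHom (Mt ι) (Mt ι) (vec B s) := TrivSqZeroExt.ext rfl (map_zero (vl B))
  rw [e, ← map_exp (Φ.nil (h.mem s))]
  rfl

theorem exp_r (w : κ → ℝ) : exp (ph B 0 w) = 1 + inr (vl B w) := by
  have e : ph B 0 w = inr (vl B w) := TrivSqZeroExt.ext (map_zero (vl B)) rfl
  rw [e, exp_eq_sum (k := 2) (by rw [pow_two, inr_mul_inr])]
  simp [Finset.sum_range_succ]

theorem key (h : IsFr Φ B c) (s s' : κ → ℝ) : (exp (ph B s s')).fst = ex B s ∧
    (exp (ph B s s')).snd = vl B (Ew Φ.N c s s') * ex B s := by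
  have m := sMul ι κ Φ B c h
  have e := main h s (-s) s' 0
  rw [(m.inv s).2, exp_l h, exp_r] at e
  have e2 : exp (ph B s s') = (1 + inr (vl B (Ew Φ.N c s s'))) * inl (ex B s) := by
    rw [Ew, ← e, mul_assoc, ← inl_mul, (m.neg s).1, inl_one, mul_one]
  rw [e2]
  exact ⟨by simp, by simp⟩

end GADbA

open GAMulA GADbA in
theorem gaDb : OfDb := by
  intro ha ι κ _ _ _ Φ B c h s t s' t'
  have m := sMul ι κ Φ B c h
  have e := congrArg TrivSqZeroExt.snd (main h s t s' t')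
  rw [snd_mul', (key h s s').1, (key h s s').2, (key h t t').1, (key h t t').2, (key h _ _).2,
    ← m.mul] at e
  refine inj h ?_
  have e2 := congrArg (· * (ex B (-t) * ex B (-s))) e
  have u : ex B s * ex B t * (ex B (-t) * ex B (-s)) = 1 := by
    rw [mul_assoc, ← mul_assoc (ex B t), (m.neg t).2, one_mul, (m.neg s).2]
  simp only [add_mul] at e2
  rw [mul_assoc (vl B _) (ex B s * ex B t), u, mul_one, mul_assoc (vl B _) (ex B s),
    mul_assoc (vl B _) (ex B s * ex B t), u, mul_one] at e2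
  rw [← e2, map_add, add_comm, ← vl_eq B (Ad _ _ _ _), (ha ι κ Φ B c h).1, vl_eq, mul_assoc,
    mul_assoc (vl B _), ← mul_assoc (ex B t), (m.neg t).2, one_mul, mul_assoc]

end Pool.Agent.MP_5168f5_an.AN.GA
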