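import Pool.Agent.MP_5168f5_an.AN.GASpec2

/-! An approximate derivation differentiates the series. -/

namespace Pool.Agent.MP_5168f5_an.AN.GA

open GABoxA

namespace GADerA

variable {κ α : Type} [Fintype κ] {c : κ → κ → κ → ℝ} {D r ρ s t : κ → ℝ} {L X Y : ℝ} {k : ℕ}

theorem bx3 (hk : Fintype.card κ ≤ k) (hL : 0 ≤ L) (hX : 0 ≤ X) (hY : 0 ≤ Y) (hr : ∀ a, 0 ≤ ρ a)
    (h : ∀ a b e, |c a b e| * r a * r b ≤ L * ρ e) (hs : Bx r X s) (ht : Bx r Y t) :
    Bx ρ (k ^ 2 * L * (X * Y)) (br c s t) := fun e => by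
  have h0 : 0 ≤ X * Y * (L * ρ e) := by have := hr e; positivity
  have h1 : ∀ a b, |c a b e * s a * t b| ≤ X * Y * (L * ρ e) := fun a b => by
    rw [abs_mul, abs_mul]
    refine (mul_le_mul (mul_le_mul_of_nonneg_left (hs a) (abs_nonneg _)) (ht b) (abs_nonneg _)
      (mul_nonneg (abs_nonneg _) ((abs_nonneg _).trans (hs a)))).trans ?_
    exact le_of_eq_of_le (by ring) (mul_le_mul_of_nonneg_left (h a b e) (mul_nonneg hX hY))
  have h2 : ∀ (f : κ → ℝ) (Z : ℝ), 0 ≤ Z → (∀ a, |f a| ≤ Z) → |∑ a, f a| ≤ k * Z :=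
    fun f Z z hf => (Finset.abs_sum_le_sum_abs _ _).trans ((Finset.sum_le_card_nsmul _ _ Z
      fun a _ => hf a).trans (by
        rw [nsmul_eq_mul]
        exact mul_le_mul_of_nonneg_right (by exact_mod_cast hk) z))
  exact (h2 _ _ (by positivity) fun a => h2 _ _ h0 (h1 a)).trans_eq (by ring)

theorem err (c : κ → κ → κ → ℝ) (D x y x' y' : κ → ℝ) :
    D * br c x y - (br c x' y + br c x y') =
      br (fun a b e => c a b e * (D e - D a - D b)) x y + br c (D * x - x') y +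
        br c x (D * y - y') := by
  funext e
  simp only [br, Pi.sub_apply, Pi.add_apply, Pi.mul_apply, Finset.mul_sum,
    ← Finset.sum_add_distrib, ← Finset.sum_sub_distrib]
  exact Finset.sum_congr rfl fun a _ => Finset.sum_congr rfl fun b _ => by ring

theorem w3 (hk : Fintype.card κ ≤ k) (hL : 1 ≤ L) (hr : ∀ a, 0 ≤ r a ∧ 0 ≤ ρ a)
    (ha : ∀ a b e, c a b e = -c b a e) (h : Idl c r r L) (h' : Idl c r ρ L)
    (hD : ∀ a b e, |c a b e * (D e - D a - D b)| * r a * r b ≤ L * ρ e) {f : α → κ → ℝ}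
    (hf : ∀ i, Bx r L (f i)) (w : Wd α) : Bx ρ (((3 * k ^ 2 + 3) * L) ^ (2 * w.len - 1))
      (D * w.ev (br c) f - w.dv (br c) f fun i => D * f i) := by
  have h0 : (0 : ℝ) ≤ k ^ 2 * L := by positivity
  have q : ∀ u : Wd α, Bx r (((3 * k ^ 2 + 3) * L) ^ (2 * u.len - 1)) (u.ev (br c) f) := fun u =>
    mono (w1 hk hL (fun a => (hr a).1) h hf u) (fun a => (hr a).1)
      (pow_le_pow_left₀ (by positivity) (by nlinarith) _)
  induction w with
  | of i =>
    intro e
    have := (hr e).2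
    simp only [Wd.ev, Wd.dv, sub_self, Pi.zero_apply, abs_zero]
    positivity
  | br u v a b =>
    intro e
    have a1 := bx hk (by positivity) (by positivity) (by positivity) (fun a => (hr a).2) h' (q v) a e
    have a2 := bx hk (by positivity) (by positivity) (by positivity) (fun a => (hr a).2) h' (q u) b e
    have a3 := bx3 hk (by positivity) (by positivity) (by positivity) (fun a => (hr a).2) hD
      (q u) (q v) e
    rw [br_anti ha] at a1
    rw [pw, Wd.ev, Wd.dv, err]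
    simp only [Pi.add_apply, Pi.neg_apply] at a1 ⊢
    have a5 : 0 ≤ L * (((3 * k ^ 2 + 3) * L) ^ (2 * u.len - 1) *
      ((3 * k ^ 2 + 3) * L) ^ (2 * v.len - 1)) * ρ e := by have := (hr e).2; positivity
    rw [abs_le] at a1 a2 a3 ⊢
    constructor <;> linarith [a1.1, a1.2, a2.1, a2.2, a3.1, a3.2]

end GADerA

open GADerA in
theorem gaDer : SDer := by
  intro N k
  obtain ⟨m, hm⟩ : ∃ m, m = (BL N).support.sup Wd.len + 2 := ⟨_, rfl⟩
  obtain ⟨Q, hQ⟩ : ∃ Q, Q = 3 + ∑ w ∈ (BL N).support, |(BL N w : ℝ)| := ⟨_, rfl⟩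
  obtain ⟨K, k1, k2, k3⟩ : ∃ K : ℕ, 3 * k ^ 2 + 3 ≤ K ∧ ⌈Q⌉₊ ≤ K ∧ 2 * m + 1 ≤ K :=
    ⟨3 * k ^ 2 + 3 + ⌈Q⌉₊ + (2 * m + 1), by omega, by omega, by omega⟩
  refine ⟨K, by omega, fun κ _ c D r ρ L s t hk hL hr ha h h' hD hs ht => ?_⟩
  have k4 : (3 * k ^ 2 + 3 : ℝ) ≤ K := by exact_mod_cast k1
  have k5 : (1 : ℝ) ≤ (3 * k ^ 2 + 3) * L :=
    one_le_mul_of_one_le_of_one_le (by nlinarith [sq_nonneg (k : ℝ)]) hL
  have k6 : (3 * k ^ 2 + 3) * L ≤ K * L := mul_le_mul_of_nonneg_right k4 (by positivity)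
  have k7 : Q * ((3 * k ^ 2 + 3) * L) ^ (2 * m) ≤ (K * L) ^ K := by
    refine le_trans ?_ (pow_le_pow_right₀ (k5.trans k6) k3)
    rw [pow_succ' (K * L : ℝ)]
    exact mul_le_mul ((Nat.ceil_le.1 k2).trans (le_mul_of_one_le_right (by positivity) hL))
      (pow_le_pow_left₀ (by positivity) k6 _) (by positivity) (by positivity)
  have a1 := lin (BL N) (fun w => D * (w.ev (br c) fun i => bif i then s else t) -
    w.dv (br c) (fun i => bif i then s else t) fun i => D * bif i then s else t)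
    (X := ((3 * k ^ 2 + 3) * L) ^ (2 * m)) (by positivity) (fun a => (hr a).2) fun w e =>
      mono (w3 hk hL hr ha h h' hD (fun i => by cases i <;> assumption) w) (fun a => (hr a).2)
        (pow_le_pow_right₀ k5 (by omega))
  have e : (fun i => D * bif i then s else t) = fun i => bif i then D * s else D * t :=
    funext fun i => by cases i <;> rfl
  rw [← hQ, e] at a1
  refine (congrArg _ ?_).mp (mono a1 (fun a => (hr a).2) k7)
  simp only [bch, dbch, ser, Wd.ev, Wd.dv, Finsupp.sum, smul_sub, Finset.sum_sub_distrib,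
    cond_true, cond_false, mul_add, Finset.mul_sum, mul_smul_comm]
  abel

end Pool.Agent.MP_5168f5_an.AN.GA
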