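import Pool.Agent.MP_5168f5_an.AN.GASpec2

/-! Linearity of the adjoint action and of the derivative of the series. -/

namespace Pool.Agent.MP_5168f5_an.AN.GA

namespace GALinA

variable {κ R α : Type} [Fintype κ] [CommRing R] (c : κ → κ → κ → R)

theorem it_add (x u v : κ → R) (k : ℕ) :
    (br c x)^[k] (u + v) = (br c x)^[k] u + (br c x)^[k] v := by
  induction k with
  | zero => rfl
  | succ k ih => simp only [Function.iterate_succ_apply', ih, br_add_right]

theorem it_smul (x : κ → R) (a : R) (u : κ → R) (k : ℕ) :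
    (br c x)^[k] (a • u) = a • (br c x)^[k] u := by
  induction k with
  | zero => rfl
  | succ k ih => simp only [Function.iterate_succ_apply', ih, br_smul_right]

theorem dv_add (f g g' : α → κ → R) (w : Wd α) :
    w.dv (br c) f (fun i => g i + g' i) = w.dv (br c) f g + w.dv (br c) f g' := by
  induction w with
  | of a => rfl
  | br u v a b => simp only [Wd.dv, a, b, br_add_left, br_add_right]; abel

theorem dv_smul (f g : α → κ → R) (a : R) (w : Wd α) :
    w.dv (br c) f (fun i => a • g i) = a • w.dv (br c) f g := by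
  induction w with
  | of a => rfl
  | br u v p q => simp only [Wd.dv, p, q, br_smul_left, br_smul_right, smul_add]

variable [Algebra ℚ R]

theorem ad_eq (N : ℕ) (x w : κ → R) : Ad N c x w - w =
    ∑ k ∈ Finset.range N, (((k + 1).factorial : ℚ))⁻¹ • (br c x)^[k + 1] w := by
  rw [Ad, Finset.sum_range_succ']
  simp

theorem ad_eq' (N : ℕ) (x w : κ → R) : Ad (N + 1) c x w - w - br c x w =
    ∑ k ∈ Finset.range N, (((k + 2).factorial : ℚ))⁻¹ • (br c x)^[k + 2] w := by
  rw [ad_eq, Finset.sum_range_succ']
  simp

variable {c}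

theorem it_mem {V : ℝ → Submodule ℚ (κ → R)} {σ τ : ℝ} {x w : κ → R}
    (h : ∀ i j, ∀ x ∈ V i, ∀ y ∈ V j, br c x y ∈ V (i + j)) (hx : x ∈ V σ) (hw : w ∈ V τ) (k : ℕ) :
    (br c x)^[k] w ∈ V (k * σ + τ) := by
  induction k with
  | zero => simpa using hw
  | succ k ih =>
    rw [Function.iterate_succ_apply', show ((k + 1 : ℕ) : ℝ) * σ + τ = σ + (k * σ + τ) by
      push_cast; ring]
    exact h _ _ _ hx _ ih

end GALinA

open GALinA in
theorem gaLin : SLin := by
  intro κ R _ _ _ N c
  refine ⟨fun x u v => ?_, fun x a u => ?_, fun w => ?_, fun s t u v u' v' => ?_,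
    fun s t a u v => ?_, fun V σ τ x w hV h hσ hx hw => ⟨?_, fun hN => ?_⟩⟩
  · simp only [Ad, it_add, smul_add, Finset.sum_add_distrib]
  · simp only [Ad, it_smul, Finset.smul_sum, smul_comm a]
  · rw [← sub_eq_zero, ad_eq]
    exact Finset.sum_eq_zero fun k _ => by rw [Function.iterate_succ_apply', br_zero_left, smul_zero]
  · have e : (fun i => bif i then u + u' else v + v') =
        fun i => (bif i then u else v) + bif i then u' else v' := funext fun i => by cases i <;> rfl
    simp only [dbch, e, dv_add, Finsupp.sum, br_add_left, br_add_right, smul_add,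
      Finset.sum_add_distrib]
    abel
  · have e : (fun i => bif i then a • u else a • v) = fun i => a • bif i then u else v :=
      funext fun i => by cases i <;> rfl
    simp only [dbch, e, dv_smul, Finsupp.sum, br_smul_left, br_smul_right, smul_add,
      Finset.smul_sum, smul_comm a]
  · rw [ad_eq]
    refine Submodule.sum_mem _ fun k _ => Submodule.smul_mem _ _ (hV ?_ (it_mem h hx hw _))
    push_cast
    nlinarith [Nat.cast_nonneg (α := ℝ) k]
  · obtain ⟨N, rfl⟩ := Nat.exists_eq_add_of_le' hN
    rw [ad_eq']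
    refine Submodule.sum_mem _ fun k _ => Submodule.smul_mem _ _ (hV ?_ (it_mem h hx hw _))
    push_cast
    nlinarith [Nat.cast_nonneg (α := ℝ) k]

end Pool.Agent.MP_5168f5_an.AN.GA
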