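import Pool.Agent.MP_5168f5_an.AN.GASpec2

/-! A linear form that almost kills the double brackets sees only the quadratic term. -/

namespace Pool.Agent.MP_5168f5_an.AN.GA

namespace GAQuadA

open GABoxA

variable {κ α : Type} [Fintype κ] {c : κ → κ → κ → ℝ} {r l u u' v : κ → ℝ} {L X Y Z η : ℝ} {k : ℕ}

theorem dot_br (w v : κ → ℝ) : l ⬝ᵥ br c w v = ∑ d, ∑ e, w e * (l ⬝ᵥ c e d) * v d := by
  simp only [dotProduct, br, Finset.mul_sum, Finset.sum_mul]
  rw [Finset.sum_comm]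
  refine (Finset.sum_congr rfl fun e _ => Finset.sum_comm).trans (Finset.sum_comm.trans ?_)
  exact Finset.sum_congr rfl fun d _ => Finset.sum_congr rfl fun e _ =>
    Finset.sum_congr rfl fun f _ => by ring

theorem dot_br2 (u u' v : κ → ℝ) : l ⬝ᵥ br c (br c u u') v =
    ∑ d, ∑ a, ∑ b, (∑ e, c a b e * (l ⬝ᵥ c e d)) * u a * u' b * v d := by
  rw [dot_br]
  refine Finset.sum_congr rfl fun d _ => ?_
  simp only [br, Finset.sum_mul]
  rw [Finset.sum_comm]
  refine Finset.sum_congr rfl fun a _ => Finset.sum_comm.trans ?_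
  exact Finset.sum_congr rfl fun b _ => Finset.sum_congr rfl fun e _ => by ring

theorem tri (hk : Fintype.card κ ≤ k) (hη : 0 ≤ η) (hX : 0 ≤ X) (hY : 0 ≤ Y) (hZ : 0 ≤ Z)
    (h : ∀ a b d, |∑ e, c a b e * (l ⬝ᵥ c e d)| * r a * r b * r d ≤ η) (h1 : Bx r X u)
    (h2 : Bx r Y u') (h3 : Bx r Z v) :
    |l ⬝ᵥ br c (br c u u') v| ≤ k ^ 3 * (X * Y * Z) * η := by
  have a1 : ∀ d a b, |(∑ e, c a b e * (l ⬝ᵥ c e d)) * u a * u' b * v d| ≤ X * Y * Z * η :=
    fun d a b => by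
      rw [abs_mul, abs_mul, abs_mul]
      have b1 := (abs_nonneg _).trans (h1 a)
      have b2 := (abs_nonneg _).trans (h2 b)
      refine (mul_le_mul (mul_le_mul (mul_le_mul_of_nonneg_left (h1 a) (abs_nonneg _)) (h2 b)
        (abs_nonneg _) (by positivity)) (h3 d) (abs_nonneg _) (by positivity)).trans ?_
      exact le_of_eq_of_le (by ring) (mul_le_mul_of_nonneg_left (h a b d) (by positivity))
  have a2 : ∀ (f : κ → ℝ) (W : ℝ), 0 ≤ W → (∀ a, |f a| ≤ W) → |∑ a, f a| ≤ k * W :=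
    fun f W z hf => (Finset.abs_sum_le_sum_abs _ _).trans ((Finset.sum_le_card_nsmul _ _ W
      fun a _ => hf a).trans (by
        rw [nsmul_eq_mul]
        exact mul_le_mul_of_nonneg_right (by exact_mod_cast hk) z))
  rw [dot_br2]
  exact (a2 _ _ (by positivity) fun d => a2 _ _ (by positivity) fun a =>
    a2 _ _ (by positivity) (a1 d a)).trans_eq (by ring)

theorem word (hk : Fintype.card κ ≤ k) (hL : 1 ≤ L) (hη : 0 ≤ η) (hr : ∀ a, 0 ≤ r a)
    (ha : ∀ a b e, c a b e = -c b a e) (hI : Idl c r r L)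
    (h : ∀ a b d, |∑ e, c a b e * (l ⬝ᵥ c e d)| * r a * r b * r d ≤ η) {f : α → κ → ℝ}
    (hf : ∀ i, Bx r L (f i)) {m : ℕ} (w : Wd α) (h3 : 3 ≤ w.len) (hm : w.len ≤ m) :
    |l ⬝ᵥ w.ev (br c) f| ≤ ((2 * k ^ 2 + 2) * L) ^ (2 * m) * η := by
  have k0 : (k : ℝ) ≤ (2 * k ^ 2 + 2) * L :=
    le_trans (by nlinarith [sq_nonneg (k - 1 : ℝ), sq_nonneg (k : ℝ)])
      (le_mul_of_one_le_right (by positivity) hL)
  have k1 : (1 : ℝ) ≤ (2 * k ^ 2 + 2) * L :=
    one_le_mul_of_one_le_of_one_le (by nlinarith [sq_nonneg (k : ℝ)]) hL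
  have key : ∀ x y z : Wd α, x.len + y.len + z.len ≤ m →
      |l ⬝ᵥ br c (br c (x.ev (br c) f) (y.ev (br c) f)) (z.ev (br c) f)| ≤
        ((2 * k ^ 2 + 2) * L) ^ (2 * m) * η := fun x y z e => by
    refine (tri hk hη (by positivity) (by positivity) (by positivity) h (w1 hk hL hr hI hf x)
      (w1 hk hL hr hI hf y) (w1 hk hL hr hI hf z)).trans (mul_le_mul_of_nonneg_right ?_ hη)
    refine (mul_le_mul_of_nonneg_right (pow_le_pow_left₀ (by positivity) k0 3)
      (by positivity)).trans ?_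
    rw [← pow_add, ← pow_add, ← pow_add]
    have := len_pos x
    have := len_pos y
    have := len_pos z
    exact pow_le_pow_right₀ k1 (by omega)
  match w, h3, hm with
  | .of _, h3, _ => exact absurd h3 (by simp [Wd.len])
  | .br (.br x y) z, _, hm => exact key x y z hm
  | .br (.of _) (.of _), h3, _ => exact absurd h3 (by simp [Wd.len])
  | .br (.of a) (.br x y), _, hm =>
    have := key x y (.of a) (by simp only [Wd.len] at hm ⊢; omega)
    rw [br_anti ha, dotProduct_neg, abs_neg] at this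
    exact this

theorem lin {J : Type} (T : Finset J) (q : J → ℚ) (F : J → κ → ℝ)
    (h : ∀ j ∈ T, |l ⬝ᵥ F j| ≤ X) : |l ⬝ᵥ ∑ j ∈ T, q j • F j| ≤ (∑ j ∈ T, |(q j : ℝ)|) * X := by
  rw [dotProduct_sum, Finset.sum_mul]
  refine (Finset.abs_sum_le_sum_abs _ _).trans (Finset.sum_le_sum fun j hj => ?_)
  rw [dotProduct_smul, Rat.smul_def, abs_mul]
  exact mul_le_mul_of_nonneg_left (h j hj) (abs_nonneg _)

/-- The iterated bracket as a word. -/
def it : ℕ → Wd Bool
  | 0 => .of false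
  | j + 1 => .br (.of true) (it j)

theorem it_len (j : ℕ) : (it j).len = j + 1 := by
  induction j with
  | zero => rfl
  | succ j e => simp only [it, Wd.len, e]; omega

theorem it_ev (s t : κ → ℝ) (j : ℕ) :
    (br c s)^[j] t = (it j).ev (br c) fun i => bif i then s else t := by
  induction j with
  | zero => rfl
  | succ j e => rw [Function.iterate_succ_apply', e]; rfl

end GAQuadA

open GAQuadA

theorem gaQuad : SQuad := by
  intro N k
  obtain ⟨m, m1, m2⟩ : ∃ m, (BL N).support.sup Wd.len ≤ m ∧ N + 1 ≤ m :=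
    ⟨_, Nat.le_add_right _ _, Nat.le_add_left _ _⟩
  obtain ⟨Q, hQ⟩ : ∃ Q, Q = ∑ w ∈ (BL N).support, |(BL N w : ℝ)| := ⟨_, rfl⟩
  obtain ⟨K, k1, k2, k3⟩ : ∃ K : ℕ, 2 * k ^ 2 + 2 ≤ K ∧ ⌈Q⌉₊ ≤ K ∧ 2 * m + 1 ≤ K :=
    ⟨2 * k ^ 2 + 2 + ⌈Q⌉₊ + (2 * m + 1), by omega, by omega, by omega⟩
  refine ⟨K, by omega, fun κ _ c r l L η s t hk hL hη hr ha hI h hs ht => ?_⟩
  have k4 : (2 * k ^ 2 + 2 : ℝ) ≤ K := by exact_mod_cast k1
  have k5 : (1 : ℝ) ≤ (2 * k ^ 2 + 2) * L :=
    one_le_mul_of_one_le_of_one_le (by nlinarith [sq_nonneg (k : ℝ)]) hL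
  have k6 : (2 * k ^ 2 + 2) * L ≤ K * L := mul_le_mul_of_nonneg_right k4 (by positivity)
  have k7 : ∀ q : ℝ, q ≤ K → q * (((2 * k ^ 2 + 2) * L) ^ (2 * m) * η) ≤ (K * L) ^ K * η :=
    fun q hq => by
      rw [← mul_assoc]
      refine mul_le_mul_of_nonneg_right (le_trans ?_ (pow_le_pow_right₀ (k5.trans k6) k3)) hη
      rw [pow_succ' (K * L : ℝ)]
      exact mul_le_mul (hq.trans (le_mul_of_one_le_right (by positivity) hL))
        (pow_le_pow_left₀ (by positivity) k6 _) (by positivity) (by positivity)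
  have f1 : ∀ i : Bool, Bx r L (bif i then s else t) := fun i => by cases i <;> assumption
  refine ⟨?_, fun hN => ?_⟩
  · have a1 := lin (BL N).support (BL N) (fun w => w.ev (br c) fun i => bif i then s else t)
      fun w hw => word hk hL hη hr ha hI h f1 w ((sBch N).1 w hw) ((Finset.le_sup hw).trans m1)
    refine le_of_eq_of_le (congrArg (fun x => |l ⬝ᵥ x|) ?_)
      (a1.trans (k7 _ (hQ ▸ Nat.ceil_le.1 k2)))
    have e : (1 / 2 : ℝ) • br c s t = (1 / 2 : ℚ) • br c s t := by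
      rw [← Rat.cast_smul_eq_qsmul ℝ]; norm_num
    rw [e]
    simp only [bch, ser, Finsupp.sum]
    abel
  · obtain ⟨n, rfl⟩ := Nat.exists_eq_add_of_le' hN
    have a1 := lin (Finset.range n) (fun j => (((j + 1 + 1).factorial : ℚ))⁻¹)
      (fun j => (br c s)^[j + 1 + 1] t) fun j hj => by
        rw [it_ev]
        have := Finset.mem_range.1 hj
        exact word (m := m) hk hL hη hr ha hI h f1 _ (by rw [it_len]; omega)
          (by rw [it_len]; omega)
    refine le_of_eq_of_le (congrArg (fun x => |l ⬝ᵥ x|) ?_) (a1.trans (k7 _ ?_))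
    · rw [Ad, Finset.sum_range_succ', Finset.sum_range_succ']
      simp
    · refine (Finset.sum_le_card_nsmul _ _ 1 fun j _ => ?_).trans ?_
      · rw [Rat.cast_inv, Rat.cast_natCast, abs_inv, Nat.abs_cast]
        exact inv_le_one_of_one_le₀ (by exact_mod_cast Nat.factorial_pos _)
      · rw [Finset.card_range, nsmul_eq_mul, mul_one]
        exact_mod_cast (by omega : n ≤ K)

end Pool.Agent.MP_5168f5_an.AN.GA
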