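import Pool.Agent.MP_5168f5_an.AN.GAAd
import Pool.Agent.MP_5168f5_an.AN.GALin
import Pool.Agent.MP_5168f5_an.AN.GADb
import Pool.Agent.MP_5168f5_an.AN.GABox2
import Pool.Agent.MP_5168f5_an.AN.GAAbel
import Pool.Agent.MP_5168f5_an.AN.GAQuad
import Pool.Agent.MP_5168f5_an.AN.GADer
import Pool.Agent.MP_5168f5_an.AN.GACoc

/-! Kakeya sets in all dimensions: adjoint action, derivative of the series, cocycle, results. -/

namespace Pool.Agent.MP_5168f5_an.AN.GA

theorem sAd : SAd := gaAd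
theorem sLin : SLin := gaLin
theorem sDb : SDb := gaDb sAd
theorem sBox2 : SBox2 := gaBox2
theorem sAbel : SAbel := gaAbel
theorem sQuad : SQuad := gaQuad
theorem sDer : SDer := gaDer
theorem sCoc : SCoc := gaCoc sLin sDb sBox2 sDer

end Pool.Agent.MP_5168f5_an.AN.GA
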