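import Pool.Agent.MP_5168f5_an.AN.TLSpec

/-! Kakeya sets in all dimensions: a basis with additive positions. -/

namespace Pool.Agent.MP_5168f5_an.AN.TL

open H19 H17S H17F G39 GA Filter H61Z Matrix

namespace TLTAdpA

variable {κ : Type} [Fintype κ] {M : ℕ → ℕ} {om : κ → ℝ × ℝ} {pos : κ → Prop}

/-- The bracket as a bilinear map. -/
def brL (c : κ → κ → κ → ℝ) : (κ → ℝ) →ₗ[ℝ] (κ → ℝ) →ₗ[ℝ] κ → ℝ :=
  LinearMap.mk₂ ℝ (br c) (br_add_left c) (br_smul_left c) (br_add_right c) (br_smul_right c)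

theorem br_mC (A A' : Matrix κ κ ℝ) (c : κ → κ → κ → ℝ) (s t : κ → ℝ) :
    br (mC A A' c) s t = br c (s ᵥ* A) (t ᵥ* A) ᵥ* A' := by
  have : br c (s ᵥ* A) (t ᵥ* A) = ∑ a, ∑ b, (s a * t b) • br c (A a) (A b) := by
    show brL c _ _ = ∑ a, ∑ b, (s a * t b) • brL c (A a) (A b)
    rw [vecMul_eq_sum s, map_sum, LinearMap.sum_apply]
    simp only [vecMul_eq_sum, map_sum, map_smul, LinearMap.smul_apply, smul_smul, mul_comm]
  rw [this]
  funext e
  simp only [sum_vecMul, smul_vecMul, Finset.sum_apply, Pi.smul_apply, smul_eq_mul]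
  exact Finset.sum_congr rfl fun a _ => Finset.sum_congr rfl fun b _ => by rw [mC]; ring

theorem mC_comp (A A' C C' : Matrix κ κ ℝ) (c : κ → κ → κ → ℝ) :
    mC C C' (mC A A' c) = mC (C * A) (A' * C') c := by
  funext x y
  rw [mC, br_mC, vecMul_vecMul]; rfl

theorem br_close (hM : Big M) {c c' : ℕ → κ → κ → κ → ℝ} {s s' t t' : ℕ → κ → ℝ} {e : κ}
    (hc : ∀ a b, OB M (fun n => c' n a b e) ∧ Neg M fun n => c n a b e - c' n a b e)
    (hs : ∀ a, OB M (fun n => s n a) ∧ Neg M fun n => s n a - s' n a)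
    (ht : ∀ a, OB M (fun n => t n a) ∧ Neg M fun n => t n a - t' n a)
    (h : Neg M fun n => br (c' n) (s' n) (t' n) e) : Neg M fun n => br (c n) (s n) (t n) e := by
  refine (h.add hM (Neg.sum hM Finset.univ fun a _ => Neg.sum hM Finset.univ fun b _ =>
    ((((hc a b).2.mul (ob_mul hM (hs a).1 (ht b).1)).add hM
      ((hs a).2.mul (ob_mul hM (hc a b).1 (ht b).1))).add hM
      ((ht b).2.mul (ob_mul hM (hc a b).1 (hs a).1))).sub hM
      ((ht b).2.mul (ob_mul hM (hc a b).1 (hs a).2.ob)))).congr (Eventually.of_forall fun n => ?_)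
  simp only [br, ← Finset.sum_add_distrib]
  exact Finset.sum_congr rfl fun a _ => Finset.sum_congr rfl fun b _ => by ring

variable (M om pos) in
/-- Bounded matrices that keep the weights and the stabiliser. -/
def Pat (A : ℕ → Matrix κ κ ℝ) : Prop := (∀ a e, OB M fun n => A n a e) ∧
  ∀ a e, om a ≠ om e ∨ (¬pos a ∧ pos e) → Neg M fun n => A n a e

theorem Pat.mul (hM : Big M) {A A' : ℕ → Matrix κ κ ℝ} (h : Pat M om pos A)
    (h' : Pat M om pos A') : Pat M om pos fun n => A n * A' n := by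
  refine ⟨fun a e => ob_sum hM Finset.univ fun f _ => ob_mul hM (h.1 a f) (h'.1 f e),
    fun a e k => Neg.sum hM Finset.univ fun f _ => ?_⟩
  by_cases u : om a ≠ om f ∨ (¬pos a ∧ pos f)
  · exact (h.2 a f u).mul (h'.1 f e)
  · refine (h'.2 f e ?_).mul' (h.1 a f)
    rw [not_or, not_not] at u
    rw [← u.1]
    tauto

variable [DecidableEq κ]

/-- The identity with a changed row. -/
def El (ν : ℝ) (a : κ) (w : κ → ℝ) : Matrix κ κ ℝ :=
  1 + ν • vecMulVec (Pi.single a 1) (w - Pi.single a 1)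

omit [Fintype κ] in
theorem El_ne (ν : ℝ) {a x : κ} (w : κ → ℝ) (h : x ≠ a) : El ν a w x = Pi.single x 1 := by
  funext e; simp [El, vecMulVec_apply, h, one_apply, Pi.single_apply, eq_comm]

omit [Fintype κ] in
theorem El_self (a : κ) (w : κ → ℝ) : El 1 a w a = w := by
  funext e; simp [El, vecMulVec_apply, one_apply, Pi.single_apply, eq_comm]

theorem El_mul {μ : ℝ} {a : κ} {w : κ → ℝ} (h : μ * w a = 1) : El 1 a w * El (-μ) a w = 1 := by
  simp only [El, one_smul, add_mul, mul_add, one_mul, mul_one, mul_smul_comm,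
    vecMulVec_mul_vecMulVec, vecMulVec_smul, dotProduct_single, Pi.sub_apply, Pi.single_eq_same,
    smul_add, smul_smul]
  rw [show -μ * (w a - 1) = μ - 1 by linear_combination -h]
  module

theorem vec_El (ν : ℝ) {a e : κ} {w : κ → ℝ} (v : κ → ℝ) (h : e ≠ a) (h' : w e = 0) :
    (v ᵥ* El ν a w) e = v e := by
  simp [El, vecMul_add, vecMul_smul, vecMul_vecMulVec, h, h']

omit [Fintype κ] in
theorem pat_El (hM : Big M) {ν : ℕ → ℝ} {a : κ} {w : ℕ → κ → ℝ} (hν : OB M ν) (ha : pos a)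
    (hw : ∀ e, OB M (fun n => w n e) ∧ (om a ≠ om e → ∀ n, w n e = 0)) :
    Pat M om pos fun n => El (ν n) a (w n) := by
  refine ⟨fun x e => ob_add hM (ob_const hM _) (ob_mul hM hν (ob_mul hM (ob_const hM _)
    (ob_add hM (hw e).1 (ob_const hM (-Pi.single (M := fun _ => ℝ) a 1 e))))),
    fun x e k => neg_ev (Eventually.of_forall fun n => ?_)⟩
  have u : x ≠ e := by rintro rfl; tauto
  by_cases v : x = a
  · subst v
    simp [El, vecMulVec_apply, u, u.symm, (hw e).2 (by tauto) n]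
  · simp [El_ne _ _ v, u.symm]

omit [Fintype κ] [DecidableEq κ] in
theorem ob_cH (hM : Big M) {c : ℕ → κ → κ → κ → ℝ} {a b e : κ} (h : OB M fun n => c n a b e) :
    OB M fun n => cH om (c n) a b e := by
  unfold cH
  split_ifs
  exacts [h, ob_const hM 0]

end TLTAdpA

open TLTAdpA in
theorem rowTAdp : OfTAdp := by
  intro _ _ hC hL ι κ _ _ _ _ M Φ om pos B c h hT
  classical
  have hM := h.big
  suffices k : ∀ (bs : Finset κ) B c, Alg M Φ om pos B c →
      (∀ a ∈ bs, pos a ∧ (P1 om a ∨ P2 om a)) → (∀ x y e, P1 om x → P2 om y → Mx om e →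
        pos x ∧ x ∉ bs ∨ pos y ∧ y ∉ bs → OS M fun n => c n x y e) →
      ∃ (A A' : ℕ → Matrix κ κ ℝ) (bs : κ → Prop), (∀ᶠ n in UF, A n * A' n = 1) ∧
        Pat M om pos A ∧ Pat M om pos A' ∧ Adb (OS M) om pos bs fun n => mC (A n) (A' n) (c n) by
    obtain ⟨A, A', bs, k1, k2, k3, k4⟩ := k (Finset.univ.filter fun a => pos a ∧
      (P1 om a ∨ P2 om a)) B c h (by simp) fun x y e u v _ w => by simp [u, v] at w
    exact ⟨A, A', bs, k1, fun a e => ⟨k2.1 a e, k3.1 a e⟩,
      fun a e u => ⟨k2.2 a e u, k3.2 a e u⟩, k4⟩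
  clear h B c
  intro bs
  induction bs using Finset.strongInduction with | _ bs ih
  intro B c h mem inv
  by_cases add : ∀ a ∈ bs, ∀ b b', OS M fun n => c n b b' a
  · have p : Pat M om pos fun _ => (1 : Matrix κ κ ℝ) := ⟨fun _ _ => ob_const hM _,
      fun a e u => neg_ev (Eventually.of_forall fun _ => one_apply_ne (by rintro rfl; tauto))⟩
    have e : ∀ n, mC 1 1 (c n) = c n := fun n => funext₂ fun x y => by
      rw [mC, vecMul_one, ← br_single (c n) x y]
      congr 1 <;> exact funext fun _ => by simp [one_apply, Pi.single_apply, eq_comm]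
    refine ⟨_, _, (· ∈ bs), Eventually.of_forall fun _ => one_mul _, p, p, ?_⟩
    simp only [e]
    refine ⟨mem, add, fun x y e u v u' v' w w' => ?_⟩
    by_cases t : pos x ∨ pos y
    · exact inv x y e u v w (t.imp (⟨·, u'⟩) (⟨·, v'⟩))
    · exact (h.sub x y e (fun s => t (.inl s)) (fun s => t (.inr s)) w').os
  push Not at add
  obtain ⟨a, ha, b, b', hn⟩ := add
  have hm : Hm om b b' a := by_contra fun k => hn (h.hom b b' a (h.live a (mem a ha).1) k).os
  obtain ⟨μ, hμ⟩ := exists_inv (hM := hM) (a := ⟨_, h.ob b b' a⟩) hn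
  obtain ⟨w, hw⟩ : ∃ w : ℕ → κ → ℝ, w = fun n => cH om (c n) b b' := ⟨_, rfl⟩
  have w1 : ∀ e, OB M (fun n => w n e) ∧ (om a ≠ om e → ∀ n, w n e = 0) := fun e =>
    hw ▸ ⟨ob_cH hM (h.ob b b' e), fun k n => if_neg fun u => k (hm.2.2.trans u.2.2.symm)⟩
  have p1' := pat_El (ν := fun _ => 1) hM (ob_const hM 1) (mem a ha).1 w1
  have p2' := pat_El hM (ob_neg hM μ.2) (mem a ha).1 w1
  have e1 : ∀ᶠ n in UF, El 1 a (w n) * El (-μ.1 n) a (w n) = 1 :=
    hμ.mono fun n u => El_mul (by rw [hw]; exact (congrArg _ (if_pos hm)).trans u)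
  have mx : ∀ e, Mx om e → om a ≠ om e ∧ om e ≠ 0 := fun e u =>
    ⟨fun k => (mem a ha).2.elim (fun v => u.2.ne' (k ▸ v.2)) fun v => u.1.ne' (k ▸ v.1),
      fun k => u.1.ne' (by rw [k]; rfl)⟩
  have cc1 : ∀ e, om e ≠ 0 → ∀ x y, OB M (fun n => cH om (c n) x y e) ∧
      Neg M fun n => c n x y e - cH om (c n) x y e := fun e u x y => ⟨ob_cH hM (h.ob x y e), by
    unfold cH
    split_ifs with k
    · simpa using neg_zero
    · simpa using h.hom x y e u k⟩
  have row : ∀ (Q : κ → Prop), (∀ f, om f = om a → Q f) → (∀ f, Q f → om f ≠ 0) → ∀ f,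
      OB M (fun n => w n f) ∧ Neg M fun n => w n f -
        if Q f then br (c n) (Pi.single b 1) (Pi.single b' 1) f else 0 := fun Q q1 q2 f => by
    refine ⟨(w1 f).1, ?_⟩
    simp only [br_single, hw]
    split_ifs with k
    · exact (cc1 f (q2 f k) b b').2.neg.congr (Eventually.of_forall fun n => by ring)
    · exact neg_ev (Eventually.of_forall fun n => by
        rw [sub_zero]; exact if_neg fun u => k (q1 f (u.2.2.trans hm.2.2.symm)))
  have un : ∀ (Q : κ → Prop) (y : κ), Q y → ∀ f,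
      OB M (fun _ => Pi.single (M := fun _ => ℝ) y 1 f) ∧ Neg M fun _ =>
        Pi.single (M := fun _ => ℝ) y 1 f - if Q f then Pi.single (M := fun _ => ℝ) y 1 f else 0 :=
    fun Q y q f => ⟨ob_const hM _, neg_ev (Eventually.of_forall fun _ => by
      by_cases k : f = y <;> simp [k, q])⟩
  have law := hL ι κ M Φ om pos B c (fun _ => 1) h hT (hM.sub le_rfl)
  have n1 : ∀ y : κ, ‖Pi.single (M := fun _ => ℝ) y 1‖ ≤ 1 := fun y => by simp [Pi.norm_single]
  obtain ⟨A, A', bs', k1, k2, k3, k4⟩ := ih (bs.erase a) (Finset.erase_ssubset ha) _ _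
    (hC ι κ M Φ om pos B c _ _ h e1 (fun x e => ⟨p1'.1 x e, p2'.1 x e⟩)
      fun x e u => ⟨p1'.2 x e u, p2'.2 x e u⟩) (fun x u => mem x (Finset.mem_of_mem_erase u))
    fun x y e u v t k => by
      have xy : x ≠ y := by rintro rfl; exact u.1.ne' v.1
      simp only [mC, vec_El _ _ (fun s : e = a => (mx e t).1 (s ▸ rfl)) ((w1 e).2 (mx e t).1 _)]
      by_cases ex : x = a
      · subst ex
        simp only [El_self, El_ne _ _ xy.symm]
        exact (br_close hM (cc1 e (mx e t).2) (row (P1 om) (fun f s => by rwa [P1, s])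
          fun f s r => s.1.ne' (by rw [r]; rfl)) (un _ y v) fun K =>
            (law K).mono fun n s => (s _ _ _ (n1 b) (n1 b') (n1 y) e t).2.2.2.1).os
      by_cases ey : y = a
      · subst ey
        simp only [El_self, El_ne _ _ xy]
        exact (br_close hM (cc1 e (mx e t).2) (un _ x u) (row (P2 om) (fun f s => by rwa [P2, s])
          fun f s r => s.2.ne' (by rw [r]; rfl)) fun K =>
            (law K).mono fun n s => (s _ _ _ (n1 b) (n1 b') (n1 x) e t).2.2.2.2).os
      simp only [El_ne _ _ ex, El_ne _ _ ey, br_single]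
      exact inv x y e u v t (by simpa [ex, ey] using k)
  refine ⟨_, _, bs', ?_, k2.mul hM p1', p2'.mul hM k3, by simpa only [mC_comp] using k4⟩
  filter_upwards [k1, e1] with n u v
  rw [mul_assoc, ← mul_assoc (El _ _ _), v, one_mul, u]

end Pool.Agent.MP_5168f5_an.AN.TL
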