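import Pool.Agent.MP_5168f5_an.AN.G39Ch
import Pool.Agent.MP_5168f5_an.AN.G39Onb

/-! The mean is a valuation on a minimal cell. -/

namespace Pool.Agent.MP_5168f5_an.AN.G39

open H19 H17S H17F Filter MvPolynomial

section One

variable {Ω σ : Type} {d E E' : ℕ} {x : Ω → Fin d → ℝ} {f g : Ω → ℝ} {P : FP Ω}

theorem pos_mul_left {a b : ℝ} (h : 0 < a) (h' : 0 < a * b) : 0 < b := (mul_pos_iff_of_pos_left h).1 h'

theorem exists_imp_of {α : Type} [Nonempty α] (p : α → Prop) : ∃ a, (∃ a, p a) → p a :=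
  ⟨Classical.epsilon p, Classical.epsilon_spec⟩

theorem Pl.mono (h : Pl x E f) (e : E ≤ E') : Pl x E' f := h.imp fun _ a => ⟨a.1.trans e, a.2⟩

theorem pl_const (c : ℝ) : Pl x E fun _ => c := ⟨C c, by simp, by simp⟩

theorem Pl.add (h : Pl x E f) (h' : Pl x E g) : Pl x E fun ω => f ω + g ω := by
  obtain ⟨F, a, b⟩ := h
  obtain ⟨G, a', b'⟩ := h'
  exact ⟨F + G, (totalDegree_add F G).trans (max_le a a'), fun ω => by rw [map_add, ← b, ← b']⟩

theorem Pl.mul (h : Pl x E f) (h' : Pl x E' g) : Pl x (E + E') fun ω => f ω * g ω := by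
  obtain ⟨F, a, b⟩ := h
  obtain ⟨G, a', b'⟩ := h'
  exact ⟨F * G, (totalDegree_mul F G).trans (add_le_add a a'), fun ω => by rw [map_mul, ← b, ← b']⟩

theorem Pl.smul (h : Pl x E f) (c : ℝ) : Pl x E fun ω => c * f ω :=
  ((pl_const (E := 0) c).mul h).mono (zero_add E).le

theorem pl_sum {ι : Type} (T : Finset ι) {f : ι → Ω → ℝ} (h : ∀ i ∈ T, Pl x E (f i)) :
    Pl x E fun ω => ∑ i ∈ T, f i ω := by
  induction T using Finset.cons_induction with
  | empty => simpa using pl_const 0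
  | cons a T ha ih =>
    simpa only [Finset.sum_cons] using
      (h a (by simp)).add (ih fun i hi => h i (by simp [hi]))

theorem pl_prod {ι : Type} (T : Finset ι) {f : ι → Ω → ℝ} {e : ι → ℕ}
    (h : ∀ i ∈ T, Pl x (e i) (f i)) : Pl x (∑ i ∈ T, e i) fun ω => ∏ i ∈ T, f i ω := by
  induction T using Finset.cons_induction with
  | empty => simpa using pl_const 1
  | cons a T ha ih =>
    simpa only [Finset.sum_cons, Finset.prod_cons] using
      (h a (by simp)).mul (ih fun i hi => h i (by simp [hi]))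

theorem Pl.pow (h : Pl x E f) (k : ℕ) : Pl x (k * E) fun ω => f ω ^ k := by
  simpa using pl_prod (Finset.range k) (e := fun _ => E) fun _ _ => h

theorem pl_ev {φ : σ → Ω → ℝ} {D : ℕ} (h : ∀ i, Pl x D (φ i)) {H : MvPolynomial σ ℝ}
    (hH : H.totalDegree ≤ E) : Pl x (E * D) (ev φ H) := by
  refine pl_sum H.support fun m hm => Pl.smul ?_ _
  refine (pl_prod m.support fun i _ => (h i).pow (m i)).mono ?_
  rw [← Finset.sum_mul]
  exact Nat.mul_le_mul_right D ((le_totalDegree hm).trans hH)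

theorem nu_nn (P : FP Ω) (f : Ω → ℝ) : 0 ≤ nu P f := Real.sqrt_nonneg _

theorem nu_smul (P : FP Ω) (c : ℝ) (f : Ω → ℝ) : nu P (fun ω => c * f ω) = |c| * nu P f := by
  unfold nu
  simp only [mul_pow]
  rw [P.E_mul, Real.sqrt_mul (sq_nonneg c), Real.sqrt_sq_eq_abs]

theorem ev_C_mul (φ : σ → Ω → ℝ) (a : ℝ) (H : MvPolynomial σ ℝ) :
    ev φ (C a * H) = fun ω => a * ev φ H ω := funext fun ω => by simp [ev]

theorem ev_rename {τ : Type} (φ : σ → Ω → ℝ) (s : τ → σ) (H : MvPolynomial τ ℝ) :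
    ev φ (rename s H) = ev (fun i => φ (s i)) H := funext fun _ => eval_rename _ _ _

theorem CG.mono {L : ℝ} {ω : Ω} (h : CG P x E' L ω) (e : E ≤ E') : CG P x E L ω :=
  fun f hf => h f (hf.mono e)

/-- A normalised polynomial. -/
def Nm (E : ℕ) (m : σ →₀ ℕ) (H : MvPolynomial σ ℝ) : Prop :=
  H.totalDegree ≤ E ∧ coeff m H = 1 ∧ ∀ m', |coeff m' H| ≤ 1

theorem deg_C_mul (a : ℝ) (H : MvPolynomial σ ℝ) : (C a * H).totalDegree ≤ H.totalDegree :=
  (totalDegree_mul _ _).trans (by simp)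

theorem exists_nm [Finite σ] {H : MvPolynomial σ ℝ} {m : σ →₀ ℕ} (h : H.totalDegree ≤ E)
    (h0 : coeff m H ≠ 0) : ∃ m' ∈ TT σ E, ∃ a : ℝ, |coeff m H| ≤ |a| ∧ Nm E m' (C a⁻¹ * H) := by
  obtain ⟨m', h1, h2⟩ := H.support.exists_max_image (fun m => |coeff m H|) ⟨m, mem_support_iff.2 h0⟩
  have h3 := mem_support_iff.1 h1
  refine ⟨m', mem_TT.2 ((le_totalDegree h1).trans h), _, h2 m (mem_support_iff.2 h0),
    (deg_C_mul _ _).trans h, by rw [coeff_C_mul, inv_mul_cancel₀ h3], fun k => ?_⟩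
  rw [coeff_C_mul, abs_mul, abs_inv, inv_mul_le_one₀ (abs_pos.2 h3)]
  by_cases e : k ∈ H.support
  · exact h2 k e
  · rw [notMem_support_iff.1 e, abs_zero]; exact abs_nonneg _

/-- A polynomial relation is small with probability `κ`. -/
def Bad (μ : FP Ω) (φ : σ → Ω → ℝ) (E : ℕ) (s κ : ℝ) : Prop :=
  ∃ (H : MvPolynomial σ ℝ) (m : σ →₀ ℕ), H.totalDegree ≤ E ∧ coeff m H = 1 ∧
    κ ≤ pb μ fun t => |ev φ H t| ≤ s

theorem Bad.mono {φ : σ → Ω → ℝ} {s s' κ κ' : ℝ} (h : Bad P φ E s κ) (e : E ≤ E') (es : s ≤ s')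
    (ek : κ' ≤ κ) : Bad P φ E' s' κ' := by
  obtain ⟨H, m, a, b, c⟩ := h
  exact ⟨H, m, a.trans e, b, ek.trans (c.trans (pb_mono fun _ _ k => k.trans es))⟩

theorem Bad.nm [Finite σ] {φ : σ → Ω → ℝ} {s κ : ℝ} (h : Bad P φ E s κ) :
    ∃ m ∈ TT σ E, ∃ H, Nm E m H ∧ κ ≤ pb P fun t => |ev φ H t| ≤ s := by
  obtain ⟨H, m, a, b, c⟩ := h
  obtain ⟨m', h1, u, h2, h3⟩ := exists_nm (m := m) a (by rw [b]; exact one_ne_zero)
  refine ⟨m', h1, _, h3, c.trans (pb_mono fun t _ k => ?_)⟩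
  rw [b, abs_one] at h2
  rw [ev_C_mul, abs_mul, abs_inv]
  exact (mul_le_of_le_one_left (abs_nonneg _) (inv_le_one_of_one_le₀ h2)).trans k

theorem not_bad0 {φ : σ → Ω → ℝ} {s κ : ℝ} (hs : s < 1) (hκ : 0 < κ) : ¬Bad P φ 0 s κ := by
  classical
  rintro ⟨H, m, a, b, c⟩
  obtain ⟨t, -, ht⟩ := ex_of_pb (hκ.trans_le c)
  rw [totalDegree_eq_zero_iff_eq_C.1 (Nat.le_zero.1 a)] at b ht
  rw [coeff_C] at b
  split_ifs at b
  · rw [b] at ht; simp [ev] at ht; linarith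
  · exact zero_ne_one b

end One

variable {M : ℕ → ℕ} {hM : Big M} {σ : Type}

theorem unifC {A : ℕ → Type} [∀ n, Nonempty (A n)] {h : ∀ n, A n → Prop} {p : ℝ → ∀ n, A n → Prop}
    (hm : ∀ c c' n a, c' ≤ c → p c n a → p c' n a)
    (H : ∀ a : ∀ n, A n, (∀ᶠ n in UF, h n (a n)) → ∃ c, 0 < c ∧ ∀ᶠ n in UF, p c n (a n)) :
    ∃ c, 0 < c ∧ ∀ᶠ n in UF, ∀ a, h n a → p c n a := by
  by_contra k
  obtain ⟨m, h1, h2⟩ := R4.ks.spill (fun j n => ¬∀ a, h n a → p (1 / (j + 1 : ℝ)) n a) fun j =>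
    not_ev.1 fun c => k ⟨_, by positivity, c⟩
  have := R4.unif (h := h) (p := fun n a => p (1 / (m n + 1 : ℝ)) n a) fun a c => by
    obtain ⟨c, h0, e⟩ := H a c
    filter_upwards [e, R4.K31.small h0 h1] with n x y using hm _ _ _ _ y x
  obtain ⟨n, x, y⟩ := (this.and h2).exists
  exact y _ le_rfl x

theorem os_fin {ι : Type} (T : Finset ι) {a : ι → ℕ → ℝ} (h : ∀ i ∈ T, OS M (a i)) :
    ∃ c, 0 < c ∧ ∀ᶠ n in UF, ∀ i ∈ T, |a i n| ≤ dl M c n := by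
  induction T using Finset.cons_induction with
  | empty => exact ⟨1, one_pos, by simp⟩
  | cons i T hi ih =>
    obtain ⟨c, a1, a2⟩ := h i (by simp)
    obtain ⟨c', b1, b2⟩ := ih fun j hj => h j (by simp [hj])
    refine ⟨min c c', lt_min a1 b1, ?_⟩
    filter_upwards [a2, b2] with n u v j hj
    rcases Finset.mem_cons.1 hj with rfl | hj
    · exact u.trans (dl_anti M (min_le_left _ _) n)
    · exact (v j hj).trans (dl_anti M (min_le_right _ _) n)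

theorem lift_nm [Finite σ] {H : ℕ → MvPolynomial σ ℝ} {E : ℕ} {m : σ →₀ ℕ}
    (h : ∀ᶠ n in UF, Nm E m (H n)) : ∃ Q : MvPolynomial σ (OO hM), Q.totalDegree ≤ E ∧
      (∀ᶠ n in UF, map (tm hM n) Q = H n) ∧ coeff m (map (rd hM) Q) = 1 := by
  classical
  obtain ⟨Q, a, b⟩ := lift_seq (hM := hM) (E := E) (fun n => if Nm E m (H n) then H n else 0)
    (fun n => by split_ifs with e; exacts [e.1, by simp]) fun m' =>
      ob_of_le (hM.sub le_rfl) (h.mono fun n e => by rw [if_pos e]; exact e.2.2 m')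
  refine ⟨Q, a, h.mono fun n e => by rw [b, if_pos e], ?_⟩
  rw [coeff_map, ← sub_eq_zero, ← map_one (rd hM), ← map_sub, rd_eq]
  refine mm_of_ev (h.mono fun n e => ?_)
  rw [← tm_apply, map_sub, map_one, ← coeff_map, b, if_pos e, e.2.1, sub_self]

variable {T : ℕ → Type} {μ : ∀ n, FP (T n)}

theorem pos_or {A B : ∀ n, T n → Prop} (h : Pos μ fun n t => A n t ∨ B n t) : Pos μ A ∨ Pos μ B := by
  by_contra k
  push Not at k
  have e : ∀ {A : ∀ n, T n → Prop}, ¬Pos μ A → Whp μ fun n t => ¬A n t := fun h => by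
    by_contra k
    exact h ((not_whp k).mono (Eventually.of_forall fun _ _ _ => not_not.1))
  exact h.not_whp (((e k.1).and (e k.2)).mono (Eventually.of_forall fun _ _ _ => not_or.2))

/-- No relation of degree at most `E`. -/
def NB (μ : ∀ n, FP (T n)) (M : ℕ → ℕ) (φ : ∀ n, σ → T n → ℝ) (E : ℕ) : Prop :=
  ∀ c κ : ℝ, 0 < c → 0 < κ → ∀ᶠ n in UF, ¬Bad (μ n) (φ n) E (dl M c n) κ

theorem NB.not_pos {φ : ∀ n, σ → T n → ℝ} {E : ℕ} (h : NB μ M φ E) {Q : MvPolynomial σ (OO hM)}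
    (hQ : Q.totalDegree ≤ E) (h0 : map (rd hM) Q ≠ 0) {c : ℝ} (hc : 0 < c) :
    ¬Pos μ fun n t => |ev (φ n) (map (tm hM n) Q) t| ≤ dl M c n := by
  rintro ⟨κ, hκ, e⟩
  obtain ⟨m, hm⟩ := rd_ne.1 h0
  obtain ⟨n, a, b, u⟩ := ((h _ κ (half_pos hc) hκ).and (e.and (not_mm hm (half_pos hc)))).exists
  have p := dl_pos M (c / 2) n
  refine a ⟨C ((coeff m Q).1 n)⁻¹ * map (tm hM n) Q, m,
    (deg_C_mul _ _).trans ((deg_map _ _).trans hQ), ?_, b.trans (pb_mono fun t _ k => ?_)⟩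
  · rw [coeff_C_mul, coeff_map, tm_apply, inv_mul_cancel₀ (abs_pos.1 (p.trans u))]
  · rw [ev_C_mul]
    exact mulS (by rw [abs_inv]; exact inv_anti₀ p u.le) k

variable {Ω β : ℕ → Type} {d C : ℕ} {P : ∀ n, FP (Ω n)} {x : ∀ n, Ω n → Fin d → ℝ}
  {Z : Bool → ∀ n, Ω n → β n} {K : ℝ}

theorem whp_CG (hM : Big M) (E : ℕ) : Whp P fun n => CG (P n) (x n) E (M n + 1) := fun ε hε =>
  (hM.ev ((E + 1) ^ d / ε)).mono fun n u => by
    have h0 : (0 : ℝ) ≤ M n := Nat.cast_nonneg _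
    refine (rCheb _ (P n) d E (x n) _ (by positivity)).trans ?_
    rw [div_le_iff₀ hε] at u
    rw [div_le_iff₀ (by positivity)]
    nlinarith [mul_nonneg hε.le (sq_nonneg (M n : ℝ)), mul_nonneg hε.le h0]

theorem Cell.nu_le (h : Cell P x M Z C K) {E : ℕ} {f : ∀ n, Ω n → ℝ} (hf : ∀ n, Pl (x n) E (f n))
    {θ : ℕ → ℝ} (e : Pos P fun n ω => |f n ω| ≤ θ n) {c : ℝ} (hc : 0 < c) :
    ∀ᶠ n in UF, nu (P n) (f n) ≤ (dl M c n)⁻¹ * θ n := by
  filter_upwards [(e.and (h.nl E c (fun _ n _ => f n) hc fun _ n _ => hf n)).ex] with n u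
  obtain ⟨ω, -, a, b⟩ := u
  have p := dl_pos M c n
  rw [le_inv_mul_iff₀ p]
  by_contra k
  have k := not_le.1 k
  exact b ⟨rfl, pos_mul_left p (((abs_nonneg _).trans a).trans_lt k), a.trans k.le⟩

theorem Cell.os (h : Cell P x M Z C K) {E : ℕ} {f : ∀ n, Ω n → ℝ} (hf : ∀ n, Pl (x n) E (f n))
    {c : ℝ} (hc : 0 < c) (e : Pos P fun n ω => |f n ω| ≤ dl M c n) :
    OS M fun n => nu (P n) (f n) := ⟨c / 2, half_pos hc, (h.nu_le hf e (half_pos hc)).mono fun n u => by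
  have p := dl_pos M (c / 2) n
  rw [abs_of_nonneg (nu_nn _ _)]
  refine u.trans_eq ?_
  rw [dl_half M c]; field_simp⟩

/-- The laws `μ` of `e` see only typical points. -/
def Dom (P : ∀ n, FP (Ω n)) (x : ∀ n, Ω n → Fin d → ℝ) (M : ℕ → ℕ) (μ : ∀ n, FP (T n))
    (e : ∀ n, T n → Ω n) : Prop := ∀ E, Whp μ fun n t => CG (P n) (x n) E (M n + 1) (e n t)

theorem dom_id (hM : Big M) : Dom P x M P fun _ ω => ω := whp_CG hM

variable {e : ∀ n, T n → Ω n}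

theorem Dom.bb (h : Dom P x M μ e) (hM : Big M) {E : ℕ} {f : ∀ n, Ω n → ℝ}
    (hf : ∀ n, Pl (x n) E (f n)) (h1 : ∀ n, nu (P n) (f n) ≤ 1) :
    (fun n t => f n (e n t)) ∈ BB μ hM := fun c hc => (h E).mono
  ((sub_dl (Sub.nat hM) hc).mono fun n u t _ k =>
    (k _ (hf n)).trans ((mul_le_of_le_one_right (by positivity) (h1 n)).trans u))

theorem Dom.small (h : Dom P x M μ e) (hM : Big M) {E : ℕ} {f : ∀ n, Ω n → ℝ}
    (hf : ∀ n, Pl (x n) E (f n)) (h1 : OS M fun n => nu (P n) (f n)) :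
    ∃ c, 0 < c ∧ Whp μ fun n t => |f n (e n t)| ≤ dl M c n := by
  obtain ⟨c, hc, a⟩ := h1
  refine ⟨c / 2, half_pos hc, (h E).mono ?_⟩
  filter_upwards [a, sub_dl (Sub.nat hM) (half_pos hc)] with n u v t _ k
  exact (k _ (hf n)).trans ((le_abs_self _).trans (mulS (by rwa [abs_of_nonneg (by positivity)]) u))

variable {φ : ∀ n, σ → Ω n → ℝ}

theorem IND.not_os (h : IND P x M φ) {Q : MvPolynomial σ (OO hM)} (h0 : map (rd hM) Q ≠ 0) :
    ¬OS M fun n => nu (P n) (ev (φ n) (map (tm hM n) Q)) := by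
  rintro ⟨c, hc, e⟩
  obtain ⟨m, hm⟩ := rd_ne.1 h0
  obtain ⟨n, a, b, u⟩ := ((h.ind Q.totalDegree _ (half_pos hc)).and
    (e.and (not_mm hm (half_pos hc)))).exists
  have h1 := a _ (deg_map (tm hM n) Q) m
  rw [coeff_map, tm_apply] at h1
  rw [dl_half M c, abs_of_nonneg (nu_nn _ _)] at b
  nlinarith [dl_pos M (c / 2) n]

theorem ind_of [Finite σ] (hM : Big M) (h1 : ∃ D, ∀ n i, Pl (x n) D (φ n i))
    (h2 : ∀ n i, nu (P n) (φ n i) ≤ 1) (h : ∀ Q : MvPolynomial σ (OO hM), map (rd hM) Q ≠ 0 →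
      ¬OS M fun n => nu (P n) (ev (φ n) (map (tm hM n) Q))) : IND P x M φ := by
  refine ⟨h1, h2, fun E c hc => ?_⟩
  by_contra k
  have e : ∀ᶠ n in UF, ∃ m : TT σ E, ∃ H, Nm E m.1 H ∧ nu (P n) (ev (φ n) H) ≤ dl M c n :=
    (not_ev.1 k).mono fun n u => by
      push Not at u
      obtain ⟨H, a, m, b⟩ := u
      have p := dl_pos M c n
      have h0 : 0 < |coeff m H| := pos_mul_left p ((nu_nn _ _).trans_lt b)
      obtain ⟨m', h1, a', h2, h3⟩ := exists_nm a (abs_pos.1 h0)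
      refine ⟨⟨m', h1⟩, _, h3, ?_⟩
      rw [ev_C_mul, nu_smul, abs_inv, inv_mul_le_iff₀ (h0.trans_le h2)]
      nlinarith
  obtain ⟨m, e⟩ := ev_ex e
  have e' : ∀ n, ∃ H, (∃ H, Nm E m.1 H ∧ nu (P n) (ev (φ n) H) ≤ dl M c n) →
      Nm E m.1 H ∧ nu (P n) (ev (φ n) H) ≤ dl M c n := fun n => exists_imp_of _
  choose H hH using e'
  obtain ⟨Q, -, b, c'⟩ := lift_nm (hM := hM) (e.mono fun n u => (hH n u).1)
  refine h Q (fun z => by simp [z] at c') ⟨c, hc, ?_⟩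
  filter_upwards [e, b] with n u v
  rw [v, abs_of_nonneg (nu_nn _ _)]
  exact (hH n u).2

theorem IND.comp (h : IND P x M φ) {τ : Type} {s : τ → σ} (hs : Function.Injective s) :
    IND P x M fun n i => φ n (s i) :=
  ⟨h.pl.imp fun _ a n i => a n _, fun n i => h.le n _, fun E c hc => (h.ind E c hc).mono
    fun n u H a m => by
      have := u (rename s H) ((totalDegree_rename_le _ _).trans a) (m.mapDomain s)
      rwa [coeff_rename_mapDomain s hs, ev_rename] at this⟩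

end Pool.Agent.MP_5168f5_an.AN.G39
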