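import Pool.Agent.MP_5168f5_an.AN.S20Ds

/-! Kakeya sets in all dimensions: points with bounded density. -/

namespace Pool.Agent.MP_5168f5_an.AN.S20

open H19 H17S H17F R4 Filter G39

section One

variable {Ω β : Type} {N : ℕ} {P : FP Ω} {y : Ω → V N} {A : Ω → β} {G : Ω → Prop}

/-- Points that are close on a good set, and in the same cell outside `T`. -/
theorem few_fl (T : Finset (Fin N)) {j : ℕ} {B : ℝ} (hB : 1 ≤ B)
    (h : ∀ a ∈ P.S, ∀ b ∈ P.S, G a → G b → A a = A b → ∀ i, |y a i - y b i| ≤ B / 2 ^ j ∧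
      (i ∉ T → fl1 j (y a i) = fl1 j (y b i))) :
    Few P (fun ω => fl j (y ω)) A G ((5 * B) ^ T.card) :=
  few_of_det (by positivity) fun ex => det_flv T hB fun a ha b hb =>
    h a (cE_sub ha) b (cE_sub hb) ((mem_cE ex a).1 ha).2 ((mem_cE ex b).1 hb).2

theorem few_near {j : ℕ} {B : ℝ} (hB : 1 ≤ B)
    (h : ∀ a ∈ P.S, ∀ b ∈ P.S, G a → G b → A a = A b → ‖y a - y b‖ ≤ B / 2 ^ j) :
    Few P (fun ω => fl j (y ω)) A G ((5 * B) ^ N) := by
  simpa using few_fl (y := y) Finset.univ hB fun a ha b hb c d e i =>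
    ⟨(norm_le_pi_norm (y a - y b) i).trans (h a ha b hb c d e), fun k => (k (by simp)).elim⟩

end One

variable {Ω β β' γ : ℕ → Type} {N N' : ℕ} {P : ∀ n, FP (Ω n)} {M j j' : ℕ → ℕ}
  {y y' : ∀ n, Ω n → V N} {A : ∀ n, Ω n → β n} {A' : ∀ n, Ω n → β' n} {E : ∀ n, Ω n → Prop}

/-- The volume of a cell. -/
noncomputable def cvol (N : ℕ) (j : ℕ → ℕ) (n : ℕ) : ℝ := ((2 ^ j n) ^ N)⁻¹

theorem cvol_pos (N : ℕ) (j : ℕ → ℕ) (n : ℕ) : 0 < cvol N j n := by unfold cvol; positivity

theorem log_cvol (N : ℕ) (j : ℕ → ℕ) (n : ℕ) : -Real.log (cvol N j n) = N * j n * lg := by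
  rw [cvol, Real.log_inv, neg_neg, Real.log_pow, log_two_pow, mul_assoc]

theorem fullAt_iff (hM : Big M) : FullAt P M y A j ↔
    DS P M (fun n ω => fl (j n) (y n ω)) A fun n _ => cvol N j n := by
  refine ⟨fun ⟨G, Γ, a, b, c⟩ => ds_of_good hM ⟨G, Γ, a, b, c.mono fun n c ω hω _ => c ω hω _⟩,
    fun h => ?_⟩
  obtain ⟨Γ, a, b⟩ := gp_iff.1 h
  exact ⟨_, Γ, b, a, Eventually.of_forall fun n =>
    db_dn (P n) _ (A n) (mul_pos (a.pos n) (cvol_pos N j n)).le⟩

/-- A vector that is known up to `Γ r / 2 ^ j`. -/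
theorem fs_near {r : ℕ → ℝ} (hM : Big M) (hr : ∀ᶠ n in UF, 1 ≤ r n)
    (h : Gd P M fun n G Γ => ∀ a ∈ (P n).S, ∀ b ∈ (P n).S, G a → G b → A n a = A n b →
      ‖y n a - y n b‖ ≤ Γ * r n / 2 ^ j n) :
    FS P M (fun n ω => fl (j n) (y n ω)) A fun n _ => r n ^ N := by
  obtain ⟨G, Γ, a, b, c⟩ := h
  refine fs_of_few ⟨G, _, a, (b.const_mul hM (C := 5) (by norm_num)).pow N, ?_⟩
  filter_upwards [c, hr] with n c d
  refine (few_near (one_le_mul_of_one_le_of_one_le (b.1 n) d) c).mono (fun _ _ k => k) ?_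
  rw [← mul_pow, mul_assoc]

/-- A bounded vector. -/
theorem fs_bdd (hM : Big M) (h : Bdd P M y) (A : ∀ n, Ω n → β n) (j : ℕ → ℕ) :
    FS P M (fun n ω => fl (j n) (y n ω)) A fun n _ => (2 ^ j n) ^ N := by
  obtain ⟨G, Γ, a, b, c⟩ := h
  refine fs_near hM (Eventually.of_forall fun n => one_le_pow₀ one_le_two)
    ⟨G, _, a, b.const_mul hM one_le_two, c.mono fun n c u hu v hv d e _ => ?_⟩
  rw [mul_div_cancel_right₀ _ (by positivity)]
  exact (norm_sub_le _ _).trans (by linarith [c u hu d, c v hv e])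

theorem fs_pair {α α' : ℕ → Type} {Y : ∀ n, Ω n → α n} {Y' : ∀ n, Ω n → α' n} {v v' : ℕ → ℝ}
    (hv : ∀ n, 0 ≤ v n) (hv' : ∀ n, 0 ≤ v' n) (h : FS P M Y A fun n _ => v n)
    (h' : FS P M Y' (fun n ω => (Y n ω, A n ω)) fun n _ => v' n) :
    FS P M (fun n ω => (Y n ω, Y' n ω)) A fun n _ => v n * v' n := by
  obtain ⟨G, Γ, a, b, c⟩ := h.few hv
  obtain ⟨G', Γ', a', b', c'⟩ := h'.few hv'
  refine fs_of_few ⟨_, _, a.and a', b.mul b', ?_⟩
  filter_upwards [c, c'] with n c c'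
  exact ((c.mono (fun _ _ k => k.1) le_rfl).pair (c'.mono (fun _ _ k => k.2) le_rfl)).mono
    (fun _ _ k => k) (le_of_eq (by ring))

theorem fs_fn {α α' : ℕ → Type} {Y : ∀ n, Ω n → α n} {Y' : ∀ n, Ω n → α' n} {v : ℕ → ℝ}
    (hv : ∀ n, 0 ≤ v n) (h : FS P M Y A fun n _ => v n) (hA : FnE P A A')
    (hY : FnE P Y' fun n ω => (Y n ω, A' n ω)) : FS P M Y' A' fun n _ => v n := by
  obtain ⟨G, Γ, a, b, c⟩ := h.few hv
  refine fs_of_few ⟨G, Γ, a, b, ?_⟩
  filter_upwards [c, hA, hY] with n c d e using (c.ctx d).fn e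

theorem fnE_rfl : FnE P A A := Eventually.of_forall fun _ => Fn.rfl _

theorem full_ctx (hM : Big M) (h : FullAt P M y A' j) (e : FnE P A A') : FullAt P M y A j :=
  (fullAt_iff hM).2 (((fullAt_iff hM).1 h).ctx hM e (fnE_const _))

/-- Side information with few values is free. -/
theorem full_side' (hM : Big M) {B : ∀ n, Ω n → γ n} (h : FullAt P M y A j)
    (e : FS P M B A fun _ _ => 1) : FullAt P M y (fun n ω => (B n ω, A n ω)) j :=
  (fullAt_iff hM).2 ((((fullAt_iff hM).1 h).side hM e (fnE_const _)).le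
    (Eventually.of_forall fun _ _ _ => (one_mul _).le))

theorem fs_idx0 (hM : Big M) {b : ∀ n, Ω n → ℕ} (e : AN.Few P M 0 b) (A : ∀ n, Ω n → β n) :
    FS P M b A fun _ _ => 1 := by simpa using fs_idx e hM le_rfl A

theorem full_side (hM : Big M) {b : ∀ n, Ω n → ℕ} (h : FullAt P M y A j) (e : AN.Few P M 0 b) :
    FullAt P M y (fun n ω => (b n ω, A n ω)) j := full_side' hM h (fs_idx0 hM e A)

theorem full_cE (hM : Big M) (h : FullAt P M y A j) (hE : Pos P E) :
    FullAt (fun n => cE (P n) (E n)) M y A j :=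
  (fullAt_iff hM).2 (((fullAt_iff hM).1 h).cE hM hE)

theorem full_pull {W : ℕ → Type} {Q : ∀ n, FP (W n)} {ρ : ∀ n, W n → Ω n} (hM : Big M)
    (h : FullAt P M y A j) (e : ∀ᶠ n in UF, Law (Q n) (ρ n) (P n) id) :
    FullAt Q M (fun n v => y n (ρ n v)) (fun n v => A n (ρ n v)) j :=
  (fullAt_iff hM).2 (((fullAt_iff hM).1 h).pull e)

theorem full_push {W : ℕ → Type} {Q : ∀ n, FP (W n)} {ρ : ∀ n, W n → Ω n} (hM : Big M)
    (h : FullAt Q M (fun n v => y n (ρ n v)) (fun n v => A n (ρ n v)) j)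
    (e : ∀ᶠ n in UF, Law (Q n) (ρ n) (P n) id) : FullAt P M y A j :=
  (fullAt_iff hM).2 (DS.push ((fullAt_iff hM).1 h) e)

/-- The cell of `y'` locates `y`. -/
theorem full_loc (hM : Big M) (h : FullAt P M y A j)
    (e : Gd P M fun n G Γ => ∀ a ∈ (P n).S, ∀ b ∈ (P n).S, G a → G b → A n a = A n b →
      fl (j n) (y' n a) = fl (j n) (y' n b) → ‖y n a - y n b‖ ≤ Γ / 2 ^ j n) :
    FullAt P M y' A j := by
  obtain ⟨G, Γ, a, b, c⟩ := e
  refine (fullAt_iff hM).2 ((((fullAt_iff hM).1 h).cover hM (fnE_const _) (fs_near (r := fun _ => 1)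
    hM (by simp) ⟨G, Γ, a, b, c.mono fun n c u hu v hv d e k => ?_⟩)).le (by simp))
  rw [mul_one]
  exact c u hu v hv d e (congrArg Prod.snd k) (congrArg Prod.fst k)

/-- A small perturbation. -/
theorem full_near (hM : Big M) (h : FullAt P M y A j)
    (e : Gp P M fun n ω Γ => ‖y' n ω - y n ω‖ ≤ Γ / 2 ^ j n) : FullAt P M y' A j := by
  obtain ⟨G, Γ, a, b, c⟩ := e
  refine full_loc hM h ⟨G, _, a, b.const_mul hM (C := 3) (by norm_num),
    c.mono fun n c u hu v hv d e _ k => ?_⟩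
  have h1 := norm_sub_lt_of_fl_eq k
  have h2 : ((2 : ℝ) ^ j n)⁻¹ ≤ Γ n / 2 ^ j n := by
    rw [← one_div]
    exact div_le_div_of_nonneg_right (b.1 n) (by positivity)
  have h3 : y n u - y n v = y' n u - y' n v - (y' n u - y n u) + (y' n v - y n v) := by abel
  rw [h3, mul_div_assoc]
  refine (norm_add_le _ _).trans ((add_le_add (norm_sub_le _ _) le_rfl).trans ?_)
  linarith [c u hu d, c v hv e]

/-- A coarser resolution, up to a subexponential factor. -/
theorem full_coarse (hM : Big M) (h : FullAt P M y A j') (e : ∀ᶠ n in UF, j n ≤ j' n) :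
    FullAt P M y A j := by
  refine (fullAt_iff hM).2 ((((fullAt_iff hM).1 h).cover hM (fnE_const _)
    (fs_near (r := fun n => 2 ^ (j' n - j n)) hM
      (Eventually.of_forall fun n => one_le_pow₀ one_le_two) ⟨fun _ _ => True, fun _ => 1,
        Whp.of_ev (by simp), hM.sub le_rfl, e.mono fun n e u _ v _ _ _ k => ?_⟩)).le
    (e.mono fun n e _ _ => le_of_eq ?_))
  · obtain ⟨d, hd⟩ := Nat.exists_eq_add_of_le e
    refine (norm_sub_lt_of_fl_eq (congrArg Prod.fst k)).le.trans_eq ?_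
    rw [hd, Nat.add_sub_cancel_left, pow_add]
    field_simp
  · obtain ⟨d, hd⟩ := Nat.exists_eq_add_of_le e
    simp only [cvol]
    rw [hd, Nat.add_sub_cancel_left, pow_add, mul_pow]
    field_simp

theorem full_at (hM : Big M) (h : Full P M y A) {K : ℕ} (e : ∀ᶠ n in UF, j n ≤ K * M n) :
    FullAt P M y A j := full_coarse hM (h K) e

/-- Some of the coordinates. -/
theorem full_proj (hM : Big M) (h : FullAt P M y A j) (hb : Bdd P M y) {e : Fin N' → Fin N}
    (he : Function.Injective e) : FullAt P M (fun n ω i => y n ω (e i)) A j := by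
  classical
  obtain ⟨G, Γ, a, b, c⟩ := hb
  have le : N' ≤ N := by simpa using Fintype.card_le_of_injective e he
  have cd : (Finset.univ.image e)ᶜ.card = N - N' := by
    rw [Finset.card_compl, Finset.card_image_of_injective _ he]
    simp
  refine (fullAt_iff hM).2 ((((fullAt_iff hM).1 h).cover hM (fnE_const _)
    (fs_of_few (v := fun n => (2 ^ j n) ^ (N - N')) ⟨G, _, a,
      (b.const_mul hM (C := 10) (by norm_num)).pow (N - N'), c.mono fun n c => ?_⟩)).le
    (Eventually.of_forall fun n _ _ => le_of_eq ?_))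
  · refine (few_fl (Finset.univ.image e)ᶜ (B := 2 * Γ n * 2 ^ j n) ?_
      fun u hu v hv d d' k i => ⟨?_, fun hi => ?_⟩).mono (fun _ _ k => k) (le_of_eq ?_)
    · nlinarith [b.1 n, one_le_pow₀ (one_le_two (α := ℝ)) (n := j n)]
    · rw [mul_div_cancel_right₀ _ (by positivity)]
      refine (abs_sub _ _).trans ?_
      linarith [(norm_le_pi_norm _ i).trans (c u hu d), (norm_le_pi_norm _ i).trans (c v hv d'),
        Real.norm_eq_abs (y n u i), Real.norm_eq_abs (y n v i)]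
    · obtain ⟨l, -, rfl⟩ := Finset.mem_image.1 (not_not.1 (mt Finset.mem_compl.2 hi))
      exact congrFun (congrArg Prod.fst k) l
    · rw [cd, ← mul_pow]
      ring
  · obtain ⟨d, rfl⟩ := Nat.exists_eq_add_of_le le
    simp only [cvol, Nat.add_sub_cancel_left, pow_add]
    field_simp

theorem fl_append (j : ℕ) (u : V N) (v : V N') :
    fl j (Fin.append u v) = Fin.append (fl j u) (fl j v) := by
  funext i
  refine Fin.addCases (fun i => ?_) (fun i => ?_) i <;> simp [fl]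

/-- The chain rule. -/
theorem full_append (hM : Big M) {z : ∀ n, Ω n → V N'} (h : FullAt P M y A j)
    (h' : FullAt P M z (fun n ω => (fl (j n) (y n ω), A n ω)) j) :
    FullAt P M (fun n ω => (Fin.append (y n ω) (z n ω) : V (N + N'))) A j := by
  refine (fullAt_iff hM).2 (((((fullAt_iff hM).1 h).chain ((fullAt_iff hM).1 h')).fine fnE_rfl
    fnE_rfl (Eventually.of_forall fun n u _ v _ k => ?_)).le
      (Eventually.of_forall fun n _ _ => le_of_eq ?_))
  · have := congrArg Prod.fst k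
    simp only [fl_append] at this
    exact Prod.ext (funext fun i => by simpa using congrFun this (Fin.castAdd _ i))
      (funext fun i => by simpa using congrFun this (Fin.natAdd _ i))
  · simp only [cvol, pow_add, mul_inv]

/-- If the density is not bounded, few cells are met on an event of bounded below probability. -/
theorem not_full (hM : Big M) (h : ¬FullAt P M y A j) :
    ∃ η : ℝ, 0 < η ∧ ∃ E, Pos P E ∧ Poor (fun n => cE (P n) (E n)) M y A j η := by
  obtain ⟨c, hc, E, e1, e2⟩ := not_ds (cvol_pos N j) (mt (fullAt_iff hM).2 h)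
  exact ⟨c, hc, E, e1, e1.ex.mono fun n ex => by
    simpa only [cvol, div_inv_eq_mul] using (e2 n).det ex⟩

theorem not_poor (hM : Big M) (h : FullAt P M y A j) {η : ℝ} (hη : 0 < η) : ¬Poor P M y A j η :=
  fun k => by
  obtain ⟨G, Γ, a, b, c⟩ := h
  obtain ⟨n, c, k, d, e, f⟩ := (c.and (k.and ((a _ one_half_pos).and
    ((sub_dl b (half_pos hη)).and (dl_lt hM one_half_pos (half_pos hη)))))).exists
  have h1 := DB.few (G' := fun _ => True) (N := dl M η n * (2 ^ j n) ^ N) c fun a ha =>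
    (k a ha).imp fun T t => ⟨t.1, fun v hv e _ => t.2 v hv e⟩
  have h2 : dl M η n * (2 ^ j n) ^ N * (Γ n / (2 ^ j n) ^ N) = dl M η n * Γ n := by field_simp
  have h3 := mul_le_mul_of_nonneg_left e (dl_pos M η n).le
  rw [dl_half M η n, mul_inv_cancel_right₀ (dl_pos M _ n).ne', ← dl_half] at h3
  rw [pb_not] at d
  simp only [and_true] at h1
  linarith

theorem poor_cE {η : ℝ} (h : Poor P M y A j η) (E : ∀ n, Ω n → Prop) :
    Poor (fun n => cE (P n) (E n)) M y A j η := h.mono fun _ k => det_cE k _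

theorem full_ent (hM : Big M) (h : FullAt P M y A j) {K : ℕ} (e : ∀ᶠ n in UF, j n ≤ K * M n) :
    Le M (fun n => N * j n * lg) fun n => ch (P n) (fun ω => fl (j n) (y n ω)) (A n) := by
  simpa only [log_cvol] using ((fullAt_iff hM).1 h).ent (C := N * K) (e.mono fun n e =>
    ⟨cvol_pos N j n, by
      have e' : (j n : ℝ) ≤ K * M n := by exact_mod_cast e
      rw [log_cvol, mul_assoc, mul_assoc]
      exact mul_le_mul_of_nonneg_left (by nlinarith [lg_lt_one, lg_pos, (j n).cast_nonneg (α := ℝ)])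
        (Nat.cast_nonneg _)⟩)

theorem full_of_ent (hM : Big M) {L : ℕ → ℝ} (hL : Sub M L)
    (hb : ∀ᶠ n in UF, ∀ ω ∈ (P n).S, ‖y n ω‖ ≤ L n)
    (h : Le M (fun n => N * j n * lg) fun n => ch (P n) (fun ω => fl (j n) (y n ω)) (A n)) :
    FullAt P M y A j := by
  refine (fullAt_iff hM).2 (ds_of_ent hM ((hL.const_mul hM (C := 10) (by norm_num)).pow N)
    (cvol_pos N j) (by simpa only [log_cvol] using h) (hb.mono fun n c a ha => ?_))
  obtain ⟨T, t1, t2⟩ := few_near (P := P n) (y := y n) (A := A n) (G := fun _ => True) (j := j n)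
    (B := 2 * L n * 2 ^ j n) (by nlinarith [hL.1 n, one_le_pow₀ (one_le_two (α := ℝ)) (n := j n)])
    (fun u hu v hv _ _ _ => by
      rw [mul_div_cancel_right₀ _ (by positivity)]
      exact (norm_sub_le _ _).trans (by linarith [c u hu, c v hv])) a ha
  refine ⟨T, t1.trans_eq ?_, fun v hv e => t2 v hv e trivial⟩
  rw [cvol, div_inv_eq_mul, ← mul_pow]
  ring

end Pool.Agent.MP_5168f5_an.AN.S20
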