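import Pool.Agent.MP_5168f5_an.AN.GCel1
import Pool.Agent.MP_5168f5_an.AN.S20Full

/-! Kakeya sets in all dimensions: depth and volume of one cell in a context. -/

namespace Pool.Agent.MP_5168f5_an.AN.Cx

open H19 H17S H17F Filter MvPolynomial R4 Vo
open Nc (Pl ev jac jm NiceAt Dv deg_jac deg_jm nuP kc eval_aeval)
open G39 (dl nu)
open Pk (cn)
open S20 (dn)

section One

variable {N N' D E K : ℕ} {Θ : Fin N' → Pl N} {y : V N}

theorem jac_X : jac (X : Fin N → Pl N) = 1 := by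
  rw [alg.tri _ fun j l h => by simpa using (Finset.mem_singleton.1 (vars_X (R := ℝ) ▸ h)).le]
  simp

theorem dv_X (j : Fin N) (F : Pl N) : Dv X j F = pderiv j F := by
  have := alg.chain X F j
  rw [jac_X, one_mul, Finset.sum_eq_single j (fun i _ e => by rw [pderiv_X_of_ne e, mul_zero])
    (by simp), pderiv_X_self, mul_one] at this
  exact this.symm

theorem dsz_nn (Θ : Fin N' → Pl N) (y : V N) : 0 ≤ dsz Θ y :=
  Finset.sum_nonneg fun _ _ => Finset.sum_nonneg fun _ _ => abs_nonneg _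

theorem le_dsz (Θ : Fin N' → Pl N) (y : V N) (i : Fin N') (j : Fin N) :
    |eval y (pderiv j (Θ i))| ≤ dsz Θ y :=
  (Finset.single_le_sum (f := fun j => |eval y (pderiv j (Θ i))|) (fun _ _ => abs_nonneg _)
    (Finset.mem_univ j)).trans (Finset.single_le_sum
      (f := fun i => ∑ j, |eval y (pderiv j (Θ i))|)
      (fun _ _ => Finset.sum_nonneg fun _ _ => abs_nonneg _) (Finset.mem_univ i))

theorem dsz_le {B : ℝ} (h : ∀ i j, |eval y (pderiv j (Θ i))| ≤ B) : dsz Θ y ≤ N' * N * B :=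
  (Finset.sum_le_card_nsmul _ _ (N * B) fun i _ => (Finset.sum_le_card_nsmul _ _ B
    fun j _ => h i j).trans_eq (by simp)).trans_eq (by simp [mul_assoc])

theorem jac_le (Φ : Fin N → Pl N) (y : V N) : |eval y (jac Φ)| ≤ N.factorial * dsz Φ y ^ N := by
  rw [jac, RingHom.map_det]
  simpa using VDerA.det_le ((eval y).mapMatrix (jm Φ)) (fun _ => dsz Φ y) fun i j => le_dsz Φ y i j

theorem one_le_nu {Φ : Fin N → Pl N} {ν : Pl N → ℝ} {L : ℝ} {σ : V N → V N}
    (h : NiceAt Φ ν D E 1 L y σ) (l : 0 < L) (i : Fin N) (hE : (Φ i).totalDegree ≤ E) :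
    1 ≤ L * ν (Φ i) := by
  have := dv_le h l le_rfl hE i
  rw [alg.upd, Function.update_eq_self] at this
  exact le_of_mul_le_mul_right (by rwa [one_mul]) (abs_pos.2 (h.jac l))

/-- Polynomials are Lipschitz at the scale of the depth. -/
theorem blur' {ν : Pl N → ℝ} {L r t : ℝ} {y' : V N} (h0 : ∀ F, 0 ≤ ν F) (z : ν 0 = 0) (l : 1 ≤ L)
    (r0 : 0 ≤ r) (hD : ∀ F : Pl N, F.totalDegree ≤ E → ∀ j, ν (pderiv j F) ≤ L * r * ν F)
    (g : Vo.Gd ν E L y) (t1 : t ≤ 1) (ht : ∀ j, r * |y' j - y j| ≤ t) (t0 : 0 ≤ t) {F : Pl N}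
    (hF : F.totalDegree ≤ E) :
    |eval y' F - eval y F| ≤ N * (N + 1) ^ E * L ^ (E + 1) * t * ν F := by
  have l0 : 0 < L := one_pos.trans_le l
  have := Vo.blur N E (fun F => L ^ F.totalDegree * ν F) (fun _ => r) y y' L t
    (fun F => mul_nonneg (by positivity) (h0 F)) (fun _ => r0) (fun F hF j => by
      have := h0 F
      rcases Nat.eq_zero_or_pos F.totalDegree with e | e
      · have e' : pderiv j F = 0 := by
          rw [totalDegree_eq_zero_iff_eq_C.1 e, pderiv_C]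
        rw [e', z, mul_zero]
        positivity
      · have a : L ^ (pderiv j F).totalDegree * L ≤ L ^ F.totalDegree := by
          rw [← pow_succ]
          exact pow_le_pow_right₀ l (by have := (kc.der F _ j le_rfl).2; omega)
        calc _ ≤ L ^ (pderiv j F).totalDegree * (L * r * ν F) := by gcongr; exact hD F hF j
          _ = L ^ (pderiv j F).totalDegree * L * (r * ν F) := by ring
          _ ≤ L ^ F.totalDegree * (r * ν F) := by gcongr
          _ = _ := by ring)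
    (fun F hF => (g F hF).trans (mul_le_mul_of_nonneg_left
      (le_mul_of_one_le_left (h0 F) (one_le_pow₀ l)) l0.le)) l0.le t1 ht F hF
  refine this.trans ?_
  have a := pow_le_pow_right₀ l hF
  have := h0 F
  calc _ ≤ N * (N + 1) ^ E * L * t * (L ^ E * ν F) := by gcongr
    _ = _ := by ring

end One

variable {Ω Λ Λ' : ℕ → Type} {β β' : Bool → ℕ → Type} {N N' D D' E : ℕ} {P : ∀ n, FP (Ω n)}
  {M g : ℕ → ℕ} {x : ∀ n, Ω n → V N} {Z : ∀ b n, Ω n → β b n} {Z' : ∀ b n, Ω n → β' b n}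
  {A : ∀ n, Ω n → Λ n} {A' : ∀ n, Ω n → Λ' n} {ν : ∀ n, Ω n → Pl N → ℝ}
  {Θ Ψ : ∀ n, Ω n → Fin N → Pl N} {v : ℕ → ℝ}

theorem dle_wp (h : DLe P M x A g) (E : ℕ) : Wp P M fun n L ω => ∀ F : Pl N, F.totalDegree ≤ E →
    ∀ i, nc (P n) (x n) (A n) ω (pderiv i F) ≤ L * 2 ^ g n * nc (P n) (x n) (A n) ω F :=
  gp_wp (h E) fun _ _ _ _ _ l k F hF i => (k F hF i).trans (mul_le_mul_of_nonneg_right
    (mul_le_mul_of_nonneg_right l (by positivity)) (nc_nn _ _ _ _ _))

namespace VH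

variable (h : VH P M x A ν Θ D)
include h

theorem lowd : Wp P M fun n L ω => ∀ i j, ν n ω (pderiv j (Θ n ω i)) ≤
    L * |eval (x n ω) (pderiv j (Θ n ω i))| :=
  wp_fin fun i => wp_fin fun j => h.low (fnE_comp h.fn fun _ s => pderiv j (s i))
    fun n ω => deg_jm (h.deg n ω) i j

theorem dle (e : DzLe P M x Θ g) (E : ℕ) : Wp P M fun n L ω => ∀ F : Pl N, F.totalDegree ≤ E →
    ∀ j, ν n ω (pderiv j F) ≤ L * 2 ^ g n * ν n ω F := by
  refine (((h.der E).and h.lowd).and (gp_wl e (Eventually.of_forall fun _ _ _ =>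
    Or.inl (dsz_nn _ _)))).of h.big N 3 (Eventually.of_forall fun n L L' l l' ω _ k F hF j => ?_)
  have a : col (ν n ω) (Θ n ω) j ≤ N * (L * (L * 2 ^ g n)) :=
    (Finset.sum_le_card_nsmul _ _ _ fun i _ => (k.1.2 i j).trans (mul_le_mul_of_nonneg_left
      ((le_dsz _ _ i j).trans k.2) (zero_le_one.trans l))).trans_eq (by simp)
  have := h.nn n ω F
  calc _ ≤ L * (N * (L * (L * 2 ^ g n))) * ν n ω F := (k.1.1.2.1 F hF j).trans (by gcongr)
    _ = N * L ^ 3 * 2 ^ g n * ν n ω F := by ring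
    _ ≤ _ := by gcongr

theorem dzle (e : Wp P M fun n L ω => ∀ F : Pl N, F.totalDegree ≤ D →
    ∀ j, ν n ω (pderiv j F) ≤ L * 2 ^ g n * ν n ω F) : DzLe P M x Θ g := by
  refine wp_gp (((e.and h.bd).and (h.gd D)).of h.big (N * N) 3
    (Eventually.of_forall fun n L L' l l' ω _ k => ?_))
  refine (dsz_le (B := L * (L * 2 ^ g n * L)) fun i j => (k.2 _ (deg_jm (h.deg n ω) i j)).trans
    (mul_le_mul_of_nonneg_left ((k.1.1 _ (h.deg n ω i) j).trans (mul_le_mul_of_nonneg_left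
      (k.1.2 i) (by positivity))) (zero_le_one.trans l))).trans ?_
  calc _ = N * N * L ^ 3 * 2 ^ g n := by ring
    _ ≤ _ := by gcongr

theorem dge (e : DzGe P M x Θ g) : Wp P M fun n L ω => ∃ (F : Pl N) (i : Fin N),
    F.totalDegree ≤ D ∧ 0 < ν n ω F ∧ 2 ^ g n * ν n ω F ≤ L * ν n ω (pderiv i F) := by
  refine ((((gp_wl e (Eventually.of_forall fun _ _ _ => Or.inr (dsz_nn _ _))).and h.bd).and
    (h.gd D)).and (h.ni D 1)).of h.big (N * N + 1) 3
    (Eventually.of_forall fun n L L' l l' ω _ ⟨⟨⟨a, b⟩, c⟩, σ, e⟩ => ?_)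
  have l0 : 0 < L := one_pos.trans_le l
  have n0 : (0 : ℝ) < N * N + 1 := by positivity
  have : ∃ i j, 2 ^ g n ≤ (N * N + 1) * L * |eval (x n ω) (pderiv j (Θ n ω i))| := by
    by_contra k
    push Not at k
    have u := dsz_le (B := 2 ^ g n / ((N * N + 1) * L)) fun i j =>
      (le_div_iff₀' (by positivity)).2 (k i j).le
    have w : L * (N * N * (2 ^ g n / ((N * N + 1) * L))) < 2 ^ g n := by
      rw [← mul_div_assoc, ← mul_div_assoc, div_lt_iff₀ (by positivity)]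
      have : (0 : ℝ) < 2 ^ g n * L := by positivity
      nlinarith
    exact (a.trans (mul_le_mul_of_nonneg_left u l0.le)).not_gt w
  obtain ⟨i, j, u⟩ := this
  refine ⟨_, j, h.deg n ω i, (pos_iff_pos_of_mul_pos (one_pos.trans_le
    (one_le_nu e l0 i (h.deg n ω i)))).1 l0, ?_⟩
  have w := c _ (deg_jm (h.deg n ω) i j)
  have := h.nn n ω (pderiv j (Θ n ω i))
  calc _ ≤ (N * N + 1) * L * (L * ν n ω (pderiv j (Θ n ω i))) * L :=
        mul_le_mul (u.trans (mul_le_mul_of_nonneg_left w (by positivity))) (b i) (h.nn _ _ _)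
          (by positivity)
    _ = (N * N + 1) * L ^ 3 * ν n ω (pderiv j (Θ n ω i)) := by ring
    _ ≤ _ := by gcongr

/-- The Jacobian of a frame is the largest one. -/
theorem jmax (hD : ∀ n ω i, (Ψ n ω i).totalDegree ≤ E)
    (hl : Wp P M fun n L ω => ∀ i, ν n ω (Ψ n ω i) ≤ L) :
    Wl P M (fun n ω => |eval (x n ω) (jac (Ψ n ω))|) fun n ω => |eval (x n ω) (jac (Θ n ω))| := by
  refine ((h.high fun n ω => deg_jac (hD n ω)).trans (((h.der E).and hl).of h.big 1 (N + 1)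
    (Eventually.of_forall fun n L L' l l' ω _ k => (k.1.2.2.1 _ (hD n ω)).trans
      (mul_le_mul_of_nonneg_right (le_trans ?_ l') (h.nn _ _ _))))).trans
    (h.low h.fnj fun n ω => deg_jac (h.deg n ω))
  rw [one_mul, pow_succ']
  exact mul_le_mul_of_nonneg_left ((Finset.prod_le_prod (fun i _ => h.nn _ _ _)
    fun i _ => k.2 i).trans_eq (by simp)) (zero_le_one.trans l)

theorem heavy (hv : Vol P M x Θ v) (e : Gp P M fun n ω Γ => ∀ F : Pl N,
    F.totalDegree ≤ (N + 1) * D → ∀ j, ν n ω (pderiv j F) ≤ Γ * 2 ^ g n * ν n ω F) :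
    Heavy P M x A g v := by
  have a := fs_lw (h.down0 (K := fun n _ _ => g n) (S20.fnE_const _) e) h.big (by
    filter_upwards [h.fnu, h.fn] with n a b u hu w hw z
    simp only [a u hu w hw z, b u hu w hw z])
  refine wp_gp (Wl.trans (wp_mono (h.vol_iff.1 hv).1 (Eventually.of_forall
    fun n L _ ω _ k => ?_)) a)
  rw [inv_div, vol_const, ← mul_div_assoc]
  exact div_le_div_of_nonneg_right k (by positivity)

end VH

theorem sure_X (hM : Big M) (h : Sure P M x) (A : ∀ n, Ω n → Λ n) :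
    Wp P M fun n L ω => ∀ i, nc (P n) (x n) (A n) ω (X i) ≤ L :=
  wp_mono (sure_nc hM h A 1) (Eventually.of_forall fun _ _ _ _ _ k i => by
    simpa only [kc.var, mul_one] using k _ (totalDegree_X i).le)

theorem cel_dv {x : ∀ n, Ω n → V (N + 1)} {Θ : ∀ n, Ω n → Fin (N + 1) → Pl (N + 1)} (hM : Big M)
    (h : Cel P M x Z A Θ D) (s : Sure P M x) : Wp P M fun n L ω => 1 ≤ L * dsz (Θ n ω) (x n ω) ∧
      dsz (Θ n ω) (x n ω) ≤ L * |eval (x n ω) (jac (Θ n ω))| ∧
      |eval (x n ω) (jac (Θ n ω))| ≤ L * dsz (Θ n ω) (x n ω) ^ (N + 1) := by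
  have w := cel_vh hM h
  have a := w.jmax (Ψ := fun _ _ => X) (fun _ _ i => (totalDegree_X i).le) (sure_X hM s A)
  have b := wp_fin fun i => wp_fin fun j => w.jmax
    (Ψ := fun n ω => Function.update X j (Θ n ω i)) (E := D + 1) (fun n ω l => by
      rw [Function.update_apply]
      split_ifs
      · exact (w.deg n ω i).trans D.le_succ
      · exact (totalDegree_X l).le.trans (by omega))
    (wp_mono (w.bd.and (sure_X hM s A)) (Eventually.of_forall fun n L _ ω _ k l => by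
      rw [Function.update_apply]
      split_ifs
      exacts [k.1 i, k.2 l]))
  refine (Wp.and a b).of hM ((N + 1).factorial * ((N + 1 : ℕ) * (N + 1 : ℕ))) 1
    (Eventually.of_forall fun n L L' l l' ω _ k => ?_)
  have f1 : (1 : ℝ) ≤ (N + 1).factorial := by exact_mod_cast (N + 1).factorial_pos
  have n1 : (1 : ℝ) ≤ (N + 1 : ℕ) * (N + 1 : ℕ) := by exact_mod_cast Nat.one_le_iff_ne_zero.2 (by simp)
  have u1 : (N + 1).factorial * L ≤ L' := le_trans (by rw [pow_one]; gcongr; nlinarith) l'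
  have u2 : (N + 1 : ℕ) * (N + 1 : ℕ) * L ≤ L' := le_trans (by
    rw [pow_one, mul_assoc ((N + 1).factorial : ℝ)]
    exact le_mul_of_one_le_left (by positivity) f1) l'
  have u3 : 1 ≤ L' := le_trans (by nlinarith) u1
  have j1 := jac_le (Θ n ω) (x n ω)
  have d0 := dsz_nn (Θ n ω) (x n ω)
  have k1 := k.1
  simp only [jac_X, map_one, abs_one] at k1
  refine ⟨?_, (dsz_le fun i j => ?_).trans (mul_assoc (_ * _ : ℝ) L _ ▸
    mul_le_mul_of_nonneg_right u2 (abs_nonneg _)), j1.trans (mul_le_mul_of_nonneg_right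
      (by nlinarith) (by positivity))⟩
  · rcases le_total 1 (dsz (Θ n ω) (x n ω)) with e | e
    · exact one_le_mul_of_one_le_of_one_le u3 e
    · have e' := pow_le_of_le_one d0 e N.succ_ne_zero
      calc 1 ≤ L * ((N + 1).factorial * dsz (Θ n ω) (x n ω)) := k1.trans (by
            gcongr; exact j1.trans (by gcongr))
        _ = (N + 1).factorial * L * dsz (Θ n ω) (x n ω) := by ring
        _ ≤ _ := by gcongr
  · have := k.2 i j
    simp only [← alg.upd, dv_X] at this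
    exact this

theorem cel_up {j : ℕ → ℕ} (hM : Big M) (h : Cel P M x Z A Θ D) (s : Sure P M x) (hj : Lin M j)
    (f : Full P M (chs Θ x) A) : Dn P M (fun n u => fl (j n) (x n u)) A fun n ω =>
      |eval (x n ω) (jac (Θ n ω))| / (2 ^ j n) ^ N := by
  obtain ⟨R, hR⟩ := hj
  have w := cel_vh hM h
  have a := w.upw (K := fun n _ _ => j n) (R := fun n => R * M n) (S20.fnE_const _)
    (wp_gp (wp_mono (sure_X hM s A) (hR.mono fun n e L l ω _ k i => ⟨0, by
      rw [C_0, sub_zero]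
      exact mul_le_mul (k i) (pow_le_pow_right₀ one_le_two e) (by positivity) (by linarith)⟩)))
  refine (ds_iff.1 (((S20.fullAt_iff hM).1 (f R)).cover hM (S20.fnE_const _) a)).weak
    (wp_mono (w.low w.fnj fun n ω => deg_jac (w.deg n ω)) (Eventually.of_forall
      fun n L _ ω _ k => ?_))
  beta_reduce
  rw [vol_const, S20.cvol, div_mul_eq_mul_div, mul_inv_cancel_right₀ (by positivity),
    ← mul_div_assoc]
  exact div_le_div_of_nonneg_right k (by positivity)

theorem cm_lip {Θ : ∀ n, Ω n → Fin N' → Pl N} (hM : Big M) (hc : CM P M x Z A) (e : FnE P Θ A)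
    (hD : ∀ n ω i, (Θ n ω i).totalDegree ≤ D) (hb : Bdd P M (chs Θ x)) (h : DLe P M x A g) :
    Wp P M fun n L ω => ∀ w : V N, 2 ^ g n * ‖w‖ ≤ 1 →
      ‖ev (Θ n ω) (x n ω + w) - ev (Θ n ω) (x n ω)‖ ≤ L * 2 ^ g n * ‖w‖ := by
  refine (((dle_wp h D).and (nc_gd hM x A D)).and (cm_le hc e hD hb)).of hM (N * (N + 1) ^ D)
    (D + 2) (Eventually.of_forall fun n L L' l l' ω _ k w hw => ?_)
  have l0 : 0 ≤ L' := le_trans (by positivity) l'
  refine (pi_norm_le_iff_of_nonneg (by positivity)).2 fun i => (blur' (nc_nn _ _ _ _)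
    (nuP_zero _ _) l (by positivity) k.1.1 k.1.2 hw (fun j => mul_le_mul_of_nonneg_left (by
      simpa using norm_le_pi_norm w j) (by positivity)) (by positivity) (hD n ω i)).trans ?_
  calc _ ≤ N * (N + 1) ^ D * L ^ (D + 1) * (2 ^ g n * ‖w‖) * L := by gcongr; exact k.2 i
    _ = N * (N + 1) ^ D * L ^ (D + 2) * 2 ^ g n * ‖w‖ := by ring
    _ ≤ _ := by gcongr

/-- A polynomial that both labels know up to `θ` is constant up to `θ` on the cell. -/
theorem cm_cst {F : ∀ n, Ω n → Pl N} {a : Bool → ∀ n, Ω n → ℝ} {θ : ℕ → ℝ} (hM : Big M)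
    (h : NT P M x Z ν) (e : ∀ b, FnE P F (Z b)) (hE : ∀ n ω, (F n ω).totalDegree ≤ E)
    (ha : ∀ b, FnE P (a b) (Z b)) (h0 : ∀ n, 0 < θ n)
    (hn : Wp P M fun n L ω => ∀ b, |eval (x n ω) (F n ω) - a b n ω| ≤ L * θ n) :
    Wp P M fun n L ω => ∃ k : ℝ, ν n ω (F n ω - C k) ≤ L * θ n := fun c hc => by
  by_contra k
  have c0 : 0 < c / 3 := by positivity
  obtain ⟨r, r', g1, g2⟩ := G39.rRnd Ω (β true) (β false) P (Z true) (Z false) Unit Finset.univ
    (fun n z _ => a true n (sec (P n) (Z true n) z))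
    (fun n z _ => a false n (sec (P n) (Z false n) z)) (fun n => 2 * (Real.exp (c / 3 * M n) * θ n))
    (fun n ω => (¬∃ k : ℝ, ν n ω (F n ω - C k) ≤ Real.exp (c * M n) * θ n) ∧
      ∀ b, |eval (x n ω) (F n ω) - a b n ω| ≤ Real.exp (c / 3 * M n) * θ n)
    (fun n => by have := h0 n; positivity) (((not_whp k).and (hn _ c0)).mono (by
      filter_upwards [ha true, ha false] with n u u' ω hω z
      refine ⟨z, fun _ _ => ?_⟩
      rw [fn_sec u hω, fn_sec u' hω]
      have e1 := abs_le.1 (z.2 true)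
      have e2 := abs_le.1 (z.2 false)
      exact abs_le.2 ⟨by linarith, by linarith⟩))
  refine g2.not_whp ((nt_fn h c0 (E := E) (F := fun b n ω => F n ω - C (bif b then
    r n (Z true n ω) () else r' n (Z false n ω) ())) (fun b => ?_)
    fun b n ω => (totalDegree_sub_C_le _ _).trans (hE n ω)).mono ?_)
  · refine (e b).mono fun n u p hp q hq z => ?_
    cases b <;> simp only [u p hp q hq z, z, cond_true, cond_false]
  filter_upwards [ha true, G39.big_dl hM 10 c0] with n u e2 ω hω e3 ⟨⟨e4, e4'⟩, e5⟩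
  have e6 := not_le.1 fun e => e4 ⟨r n (Z true n ω) (), e⟩
  have t : 0 < Real.exp (c / 3 * M n) * θ n := mul_pos (Real.exp_pos _) (h0 n)
  refine e3 ⟨by simp only [cond_true, cond_false, e5 () (Finset.mem_univ _)],
    lt_of_lt_of_le ?_ (mul_le_mul_of_nonneg_left e6.le (G39.dl_pos M (c / 3) n).le)⟩
  have e7 : dl M (c / 3) n * (Real.exp (c * M n) * θ n) =
      (dl M (c / 3) n)⁻¹ * (Real.exp (c / 3 * M n) * θ n) := by
    rw [G39.dl_inv, G39.dl, ← mul_assoc, ← mul_assoc, ← Real.exp_add, ← Real.exp_add]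
    congr 2
    ring
  have e8 := abs_le.1 (e4' true)
  have e9 := abs_le.1 (g1 n (Z true n ω) ())
  rw [fn_sec u hω] at e9
  rw [e7, cond_true, map_sub, eval_C]
  exact (abs_le.2 ⟨by linarith, by linarith⟩ : _ ≤ 9 * (Real.exp (c / 3 * M n) * θ n)).trans_lt
    (mul_lt_mul_of_pos_right (by linarith) t)

/-- The piece of level `t` knows the point up to `2^{-t}`. -/
theorem kind_near {k C m : ℕ} {κ : ∀ n, Kd k (Ω n)} (hM : Big M) (h : Kind P M x κ C m)
    (t : ℕ → ℕ) : ∃ a : ∀ n, Ω n → V N, FnE P a (fun n => (κ n).pc (t n)) ∧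
      Wp P M fun n L ω => ‖x n ω - a n ω‖ ≤ L * (2 ^ t n)⁻¹ := by
  obtain ⟨G, Γ, w, s, e⟩ := h.wh 0
  have i := nonempty P
  refine ⟨fun n ω => x n (Classical.epsilon fun u => u ∈ (P n).S ∧ G n u ∧
    (κ n).pc (t n) u = (κ n).pc (t n) ω), Eventually.of_forall fun n _ _ _ _ z => by
      simp only [z], ((wp_whp w).and (Wp.of_ev (ev_sub s))).of hM 2 1
      (e.mono fun n ⟨τ, u⟩ L L' l l' ω hω z => ?_)⟩
  obtain ⟨a1, a2, a3⟩ := Classical.epsilon_spec (p := fun u => u ∈ (P n).S ∧ G n u ∧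
    (κ n).pc (t n) u = (κ n).pc (t n) ω) ⟨ω, hω, z.1, rfl⟩
  beta_reduce
  generalize Classical.epsilon (α := Ω n) _ = o at a1 a2 a3 ⊢
  obtain ⟨b1, b2⟩ := Prod.ext_iff.1 a3
  obtain ⟨b2, b3⟩ := Prod.ext_iff.1 b2
  obtain ⟨c1, -, c3⟩ := u o a1 a2
  have d1 := c3 ω hω z.1 b1.symm b2.symm
  have d2 := c3 o a1 a2 rfl rfl
  have d3 : ‖(κ n).p ω - (κ n).p o‖ ≤ (2 ^ t n)⁻¹ := (norm_sub_lt_of_flv_eq b3.symm).le
  have d4 : ((2 : ℝ) ^ t n)⁻¹ ≤ 1 := inv_le_one_of_one_le₀ (one_le_pow₀ one_le_two)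
  have g0 := (s.pos n).le
  rw [sub_self, norm_zero, zero_pow (by omega), mul_zero, norm_le_zero_iff, sub_eq_zero] at d2
  have d5 : ‖ev (τ o) ((κ n).p ω - (κ n).p o) - ev (τ o) 0‖ ≤ Γ n * (2 ^ t n)⁻¹ :=
    (pi_norm_le_iff_of_nonneg (by positivity)).2 fun i => (kc.lip (τ o i) 1 1 (2 ^ t n)⁻¹ _ 0
      (c1 i).1 le_rfl (by positivity) fun j => by
        have := (norm_le_pi_norm _ j).trans d3
        exact ⟨this.trans d4, by simp, by simpa using this⟩).trans (by
      simpa using (c1 i).2)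
  have d6 : ‖(κ n).p ω - (κ n).p o‖ ^ (0 + 2) ≤ (2 ^ t n)⁻¹ :=
    (pow_le_of_le_one (norm_nonneg _) (d3.trans d4) (by omega)).trans d3
  rw [d2]
  refine (norm_sub_le_norm_sub_add_norm_sub _ (ev (τ o) ((κ n).p ω - (κ n).p o)) _).trans ?_
  have d7 := mul_le_mul_of_nonneg_left d6 g0
  have d8 : 2 * Γ n * (2 ^ t n)⁻¹ ≤ L' * (2 ^ t n)⁻¹ :=
    mul_le_mul_of_nonneg_right (by linarith [z.2]) (by positivity)
  exact (add_le_add (d1.trans d7) d5).trans ((le_of_eq (by ring)).trans d8)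

theorem sys_ball {k m : Bool → ℕ} {C : ℕ} {s : ∀ n, Sy k (Ω n)} {t : ℕ → ℕ} (h : Sys P M x s C m)
    (hc : NT P M x (pcs s fun _ => t) ν) :
    Wp P M fun n L ω => ∀ i, ∃ c : ℝ, ν n ω (X i - MvPolynomial.C c) ≤ L / 2 ^ t n := by
  choose a a1 a2 using fun b => kind_near h.big (h.kd b) t
  exact wp_fin fun i => cm_cst h.big hc (F := fun _ _ => X i) (a := fun b n ω => a b n ω i)
    (θ := fun n => (2 ^ t n)⁻¹) (fun _ => S20.fnE_const _) (fun _ _ => (totalDegree_X i).le)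
    (fun b => fnE_comp (a1 b) fun _ u => u i) (fun _ => by positivity)
    (wp_mono (wp_fin a2) (Eventually.of_forall fun n L _ ω _ u b => by
      rw [eval_X]; exact (norm_le_pi_norm (x n ω - a b n ω) i).trans (u b)))

end Pool.Agent.MP_5168f5_an.AN.Cx

namespace Pool.Agent.MP_5168f5_an.AN

open H19 H17S H17F Filter MvPolynomial Cx

theorem cel2 : Cel2 where
  dle hM h := ⟨⟨fun e E => wp_gp ((cel_vh hM h).dle e E),
    fun e => (cel_vh hM h).dzle (dle_wp e _)⟩, fun e => wp_gp ((cel_vh hM h).dge e)⟩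
  dv hM h s := wp_gp (cel_dv hM h s)
  vm hM h h' e := wp_gp ((cel_vh hM h').jmax h.deg (cm_le h'.cm (fnE_trans h.fn e) h.deg h.bd))
  down hM h hv e := (cel_vh hM h).heavy hv (e _)
  up hM h s hj f := wp_gp (cel_up hM h s hj f)
  lip hM hc h e := wp_gp (cm_lip hM hc h.fn h.deg h.bd e)
  ball h hc := wp_gp (sys_ball h hc.nt)

end Pool.Agent.MP_5168f5_an.AN
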