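import Pool.Agent.MP_5168f5_an.AN.SpecV

/-! Identities for Jacobians of polynomial maps. -/

namespace Pool.Agent.MP_5168f5_an.AN.Vo

open H19 H17S H17F Filter MvPolynomial Metric Nc

namespace VAlgA

variable {d : ℕ}

theorem chain (Φ : Fin d → Pl d) (F : Pl d) (j : Fin d) :
    jac Φ * pderiv j F = ∑ i, Dv Φ i F * pderiv j (Φ i) := by
  have e : ∀ l, ∑ i, jm Φ i j * (jm Φ).adjugate l i = if l = j then jac Φ else 0 := fun l => by
    have := congrFun (congrFun (Matrix.adjugate_mul (jm Φ)) l) j
    rw [Matrix.mul_apply, Matrix.smul_apply, Matrix.one_apply] at this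
    simp only [mul_comm (jm Φ _ j)]
    rw [this, jac]
    split_ifs <;> simp
  have : ∑ i, Dv Φ i F * pderiv j (Φ i) =
      ∑ l, (∑ i, jm Φ i j * (jm Φ).adjugate l i) * pderiv l F := by
    simp only [Dv, Finset.sum_mul]
    rw [Finset.sum_comm]
    exact Finset.sum_congr rfl fun l _ => Finset.sum_congr rfl fun i _ => by
      simp only [jm, Matrix.of_apply]; ring
  rw [this]
  simp [e]

theorem const {H : Pl d} (h : ∀ i, pderiv i H = 0) : H = C (coeff 0 H) := by
  classical
  ext m
  rw [coeff_C]
  split_ifs with e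
  · rw [e]
  · obtain ⟨i, hi⟩ : ∃ i, m i ≠ 0 := by
      by_contra k
      push Not at k
      exact e (Finsupp.ext fun i => (k i).symm)
    have e2 : m - Finsupp.single i 1 + Finsupp.single i 1 = m :=
      tsub_add_cancel_of_le (Finsupp.single_le_iff.2 (Nat.one_le_iff_ne_zero.2 hi))
    have := coeff_pderiv (i := i) H (m - Finsupp.single i 1)
    rw [h, coeff_zero, e2] at this
    exact (mul_eq_zero.1 this.symm).resolve_right (by positivity)

theorem ind (Φ : Fin d → Pl d) (hj : jac Φ ≠ 0) :
    ∀ (E : ℕ) (H : Pl d), H.totalDegree ≤ E → aeval Φ H = 0 → H = 0 := by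
  have fin : ∀ H : Pl d, (∀ i, pderiv i H = 0) → aeval Φ H = 0 → H = 0 := fun H h h0 => by
    rw [const h, aeval_C, algebraMap_eq, C_eq_zero] at h0
    rw [const h, h0, C_0]
  intro E
  induction E with
  | zero =>
    intro H hd
    refine fin H fun i => ?_
    rw [totalDegree_eq_zero_iff_eq_C.1 (Nat.le_zero.1 hd), pderiv_C]
  | succ E ih =>
    intro H hd h0
    have v : Matrix.vecMul (fun i => aeval Φ (pderiv i H)) (jm Φ) = 0 := by
      funext j
      have := pderiv_aeval Φ H j
      rw [h0, map_zero] at this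
      exact this.symm
    have v0 := Matrix.eq_zero_of_vecMul_eq_zero hj v
    exact fin H (fun i => ih _ (kc.der H _ i hd).2 (congrFun v0 i)) h0

theorem upd (Φ : Fin d → Pl d) (i : Fin d) (F : Pl d) :
    Dv Φ i F = jac (Function.update Φ i F) := by
  have e : jm (Function.update Φ i F) = (jm Φ).updateRow i fun j => pderiv j F := by
    ext1 a b
    by_cases h : a = i
    · subst h
      simp [jm]
    · simp [jm, h]
  rw [jac, e, ← Matrix.cramer_transpose_apply, Matrix.cramer_eq_adjugate_mulVec,
    ← Matrix.adjugate_transpose]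
  rfl

theorem tri0 (F : Pl d) (i j : Fin d) (h : ∀ l ∈ F.vars, l ≤ i) (hij : i < j) : pderiv j F = 0 :=
  pderiv_eq_zero_of_notMem_vars fun k => (h j k).not_gt hij

theorem tri (Φ : Fin d → Pl d) (h : Tri Φ) : jac Φ = ∏ i, pderiv i (Φ i) :=
  Matrix.det_of_isLowerTriangular (jm Φ) fun i j hij => tri0 _ i j (h i) hij

theorem tri2 (Φ : Fin d → Pl d) (i : Fin d) (F : Pl d) (h : Tri Φ) (hF : ∀ l ∈ F.vars, l ≤ i) :
    Dv Φ i F * pderiv i (Φ i) = jac Φ * pderiv i F := by
  have t : Tri (Function.update Φ i F) := fun j => by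
    by_cases e : j = i
    · subst e
      rwa [Function.update_self]
    · rw [Function.update_of_ne e]
      exact h j
  rw [upd, tri _ t, tri _ h, ← Finset.mul_prod_erase _ _ (Finset.mem_univ i),
    ← Finset.mul_prod_erase _ (fun i => pderiv i (Φ i)) (Finset.mem_univ i), Function.update_self,
    Finset.prod_congr rfl fun j hj => by rw [Function.update_of_ne (Finset.ne_of_mem_erase hj)]]
  ring

theorem blk (B : Fin d → Pl d) (G : Pl (d + 1)) (b : Fin (d + 1)) :
    jac (b.insertNth G fun i => rename b.succAbove (B i) : Fin (d + 1) → Pl (d + 1)) =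
      rename b.succAbove (jac B) * pderiv b G := by
  have z : ∀ p : Pl d, pderiv b (rename b.succAbove p) = 0 := fun p =>
    pderiv_eq_zero_of_notMem_vars fun k => by
      obtain ⟨a, -, e⟩ := mem_vars_rename _ _ k
      exact Fin.succAbove_ne b a e
  rw [jac, Matrix.det_succ_column _ b, Fin.sum_univ_succAbove _ b, Finset.sum_eq_zero, add_zero]
  · have e : (jm (b.insertNth G fun i => rename b.succAbove (B i) :
        Fin (d + 1) → Pl (d + 1))).submatrix b.succAbove b.succAbove =
        (jm B).map (rename b.succAbove) := by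
      ext1 i j
      simp only [jm, Matrix.submatrix_apply, Matrix.of_apply, Fin.insertNth_apply_succAbove,
        Matrix.map_apply, pderiv_rename Fin.succAbove_right_injective]
    have e2 := AlgHom.map_det (rename b.succAbove : Pl d →ₐ[ℝ] Pl (d + 1)) (jm B)
    rw [e, jac, e2, ← two_mul, pow_mul, neg_one_sq, one_pow, one_mul, mul_comm]
    simp [jm]
  · intro i _
    simp [jm, z]

end VAlgA

theorem vAlg : Alg where
  ind Φ hj H h0 e := h0 (VAlgA.ind Φ hj _ H le_rfl e)
  chain := VAlgA.chain
  cst Φ i F a := by simp [Dv]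
  sft Φ a := by simp [jac, jm]
  scl Φ a := by
    rw [jac, jac, map_prod, ← Matrix.det_mul_column]
    simp only [jm, pderiv_C_mul, Matrix.of_apply]
  aev Φ Ψ H i := by
    simp only [Dv, pderiv_aeval, Finset.mul_sum]
    rw [Finset.sum_comm]
    exact Finset.sum_congr rfl fun l _ => Finset.sum_congr rfl fun j _ => by ring
  upd := VAlgA.upd
  tri0 := VAlgA.tri0
  tri := VAlgA.tri
  tri2 := VAlgA.tri2
  blk := VAlgA.blk

end Pool.Agent.MP_5168f5_an.AN.Vo
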