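import Pool.Agent.MP_5168f5_an.AN.A1Fin
import Pool.Agent.MP_5168f5_an.AN.G39Res
import Pool.Agent.MP_5168f5_an.AN.PAll
import Pool.Agent.MP_5168f5_an.AN.Defs

/-! Minimal labels on an event of slowly decaying probability. -/

namespace Pool.Agent.MP_5168f5_an.AN.A1

open H19 H17S H17F Matrix MvPolynomial Filter
open G39 (nu dl dl_lt dl_add dl_anti dl_pos dl_pow dl_inv)
open Pk (cn mons kc pCnt)
open Nc (Pl)

variable {Ω α τ : ℕ → Type} {d : ℕ}

open Classical in
/-- No common polynomial above any power floor is thin relative to the norm of the cell. -/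
def NTc {β : Bool → ℕ → Type} (P : ∀ n, FP (Ω n)) (M : ℕ → ℕ) (x : ∀ n, Ω n → V d)
    (Z : ∀ b n, Ω n → β b n) (A : ∀ n, Ω n → α n) : Prop :=
  ∀ B : ℝ, NT P M x Z fun n ω F =>
    if dl M B n * cn F ≤ nc (P n) (x n) (A n) ω F then nc (P n) (x n) (A n) ω F else 0

theorem num {M : ℕ → ℕ} (hM : Big M) {c C η : ℝ} (a : ℝ) (hc : 0 ≤ c) (hC : 0 ≤ C) (hη : 0 < η) :
    ∃ k : ℕ, ∀ᶠ n in UF, (c * dl M η n) ^ k * (C * (dl M a n)⁻¹) < 1 := by
  obtain ⟨k, hk⟩ := exists_nat_ge ((a + 1) / η)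
  rw [div_le_iff₀ hη] at hk
  refine ⟨k, (dl_lt hM (K := (c ^ k * C + 1)⁻¹) (by positivity) one_pos).mono fun n h => ?_⟩
  have h1 : dl M (k * η) n ≤ dl M a n * dl M 1 n := by rw [← dl_add]; exact dl_anti M hk n
  have h2 := dl_pos M a n
  have h3 := dl_pos M 1 n
  rw [mul_pow, dl_pow, ← mul_assoc, mul_inv_lt_iff₀ h2]
  have h4 : 0 ≤ c ^ k * C := by positivity
  rw [← one_div, lt_div_iff₀ (by positivity)] at h
  nlinarith [mul_le_mul_of_nonneg_left h1 h4]

theorem ineq {D m j : ℕ} {ρ ε R : ℝ} (k : ℕ) (hρ : 0 ≤ ρ) (hε : 0 < ε) (h1 : ε ≤ 1) (hR : 1 ≤ R)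
    (h : ρ ^ k * ((D.factorial * (D + 1) ^ D) ^ m * ((ε⁻¹ * R ^ j) ^ D) ^ m) < 1) :
    ρ ^ k * (D.factorial * ε⁻¹ ^ D) ^ m < ((D * R ^ j + ε)⁻¹ ^ D) ^ m := by
  have h2 : 1 ≤ R ^ j := one_le_pow₀ hR
  have h3 : D * R ^ j + ε ≤ (D + 1) * R ^ j := by linarith
  have h4 : 0 < D * R ^ j + ε := by positivity
  rw [inv_pow (D * R ^ j + ε), inv_pow (_ ^ D), ← one_div (_ ^ m), lt_div_iff₀ (by positivity)]
  refine lt_of_le_of_lt ?_ h
  rw [mul_assoc, ← mul_pow, ← mul_pow]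
  refine mul_le_mul_of_nonneg_left (pow_le_pow_left₀ (by positivity) ?_ m) (pow_nonneg hρ k)
  calc _ ≤ D.factorial * ε⁻¹ ^ D * ((D + 1) * R ^ j) ^ D := by gcongr
    _ = _ := by rw [mul_pow, mul_pow]; ring

/-- Minimal nested labels exist on an event of probability at least `1 / L`. -/
theorem a1c {I : Type} [Countable I] [Preorder I] {β : Bool → I → ℕ → Type} (P : ∀ n, FP (Ω n))
    {M : ℕ → ℕ} (x : ∀ n, Ω n → V d) (Z : ∀ b i n, Ω n → β b i n) (T : I → ∀ n, Ω n → τ n)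
    {L : ℕ → ℝ} {K : ℝ} (hM : Big M) (hL : Tendsto L UF atTop)
    (bd : Whp P fun n ω => ‖x n ω‖ ≤ (dl M K n)⁻¹)
    (fil : ∀ b i i', i ≤ i' → FnE P (Z b i) (Z b i')) (com : ∀ i, Com P (fun b => Z b i) (T i))
    (nest : ∀ i i', i ≤ i' → FnE P (T i) (T i')) :
    ∃ (α : ℕ → Type) (G : ∀ n, Ω n → Prop) (A : I → ∀ n, Ω n → α n),
      (∀ᶠ n in UF, 1 ≤ L n * pb (P n) (G n)) ∧
      (∀ i i', i ≤ i' → FnE (fun n => cE (P n) (G n)) (A i) (A i')) ∧
      ∀ i, FnE (fun n => cE (P n) (G n)) (T i) (A i) ∧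
        Com (fun n => cE (P n) (G n)) (fun b => Z b i) (A i) ∧
        NTc (fun n => cE (P n) (G n)) M x (fun b => Z b i) (A i) := by
  classical
  obtain ⟨e, he⟩ := Countable.exists_injective_nat I
  let S : ℕ → Finset I := fun j => (Finset.range (j + 1)).preimage e he.injOn
  let φ : ∀ j n, Ω n → mons (Fin d) j → ℝ := fun j n ω a => ∏ i, x n ω i ^ a.1 i
  let q : ℕ → ℝ := fun j => 1 / (j + 1 : ℝ)
  have q0 : ∀ j, 0 < q j := fun j => by positivity
  have q1 : ∀ j, q j ≤ 1 := fun j => div_le_one_of_le₀ (by linarith [Nat.cast_nonneg (α := ℝ) j])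
    (by positivity)
  let T' : I → ∀ n, Ω n → Option (τ n) := fun i n ω =>
    if ∀ b, Fn (P n) (T i n) (Z b i n) then some (T i n ω) else none
  let r : ℕ → I → I → Prop := fun n i i' => (∀ b, Fn (P n) (Z b i n) (Z b i' n)) ∧
    Fn (P n) (T' i n) (T' i' n)
  have hT : ∀ i, ∀ᶠ n in UF, T' i n = fun ω => some (T i n ω) := fun i =>
    (eventually_all.2 (com i)).mono fun n h => funext fun ω => if_pos h
  have hr : ∀ i i', i ≤ i' → ∀ᶠ n in UF, r n i i' := fun i i' h => by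
    filter_upwards [eventually_all.2 fun b => fil b i i' h, hT i, hT i', nest i i' h] with n u v w z
    exact ⟨u, fun a ha b hb k => by
      rw [w] at k; rw [v]; exact congrArg some (z a ha b hb (Option.some.inj k))⟩
  let C : ∀ j n, (Ω n → Prop) × (I → Ω n → Option (τ n) × List (mons (Fin d) j → ℝ)) → Prop :=
    fun j n G => 1 ≤ L n * pb (P n) G.1 ∧ Lb (r n) (cE (P n) G.1) (fun a i => Z a i n) G.2 ∧
      (∀ i ω, (G.2 i ω).1 = T' i n ω) ∧ ∀ i ∈ S j, ∀ c, pb (cE (P n) G.1)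
        (Vi (cE (P n) G.1) (fun a => Z a i n) (G.2 i) (φ j n) (dl M (j + 1) n) (dl M (q j) n) c) ≤ q j
  have key : ∀ j, ∀ᶠ n in UF, ∃ G, C j n G := fun j => by
    set D := Fintype.card (mons (Fin d) j)
    obtain ⟨k, hk⟩ := num hM (c := rho D (S j).card (q j) 1)
      (C := (D.factorial * (D + 1) ^ D) ^ (S j).card) (η := q j)
      ((S j).card * (D * (j + 1 + j * max K 0))) (by unfold rho; have := q0 j; positivity)
      (by positivity) (q0 j)
    filter_upwards [hk, bd (1 / 2) (by norm_num),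
      hL.eventually_ge_atTop (2 * ((q j / 2) ^ k)⁻¹)] with n h1 h0 h3
    rw [pb_not] at h0
    have h0' := ex_of_pb (P := P n) (E := fun ω => ‖x n ω‖ ≤ (dl M K n)⁻¹) (by linarith)
    set Q := cE (P n) fun ω => ‖x n ω‖ ≤ (dl M K n)⁻¹ with hQ
    have R1 : 1 ≤ (dl M (max K 0) n)⁻¹ := by
      rw [dl_inv]; exact Real.one_le_exp (by positivity)
    have h4 : ∀ ω ∈ Q.S, ‖φ j n ω‖ ≤ (dl M (max K 0) n)⁻¹ ^ j := fun ω hω =>
      (pi_norm_le_iff_of_nonneg (by positivity)).2 fun a => by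
        rw [Real.norm_eq_abs, Finset.abs_prod]
        calc _ ≤ ∏ i, (dl M (max K 0) n)⁻¹ ^ a.1 i := Finset.prod_le_prod (fun _ _ => abs_nonneg _)
              fun i _ => by
                rw [abs_pow]
                exact pow_le_pow_left₀ (abs_nonneg _) ((norm_le_pi_norm (x n ω) i).trans
                  (((mem_cE h0' ω).1 hω).2.trans
                  (inv_anti₀ (dl_pos _ _ _) (dl_anti M (le_max_left _ _) n)))) _
          _ ≤ _ := by
              rw [Finset.prod_pow_eq_pow_sum]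
              exact pow_le_pow_right₀ R1 ((pCnt.mem j a.1).1 a.2)
    have h5 : rho D (S j).card (q j) (dl M (q j) n) = rho D (S j).card (q j) 1 * dl M (q j) n := by
      unfold rho; ring
    obtain ⟨G, A, k1, k2, k3, k4⟩ := fin (I := S j) (r := r n) (P := Q) (Z := fun a i => Z a i n)
      (T := fun i => T' i n) (fun i => ⟨fun _ _ _ _ _ k => k, fun _ _ _ _ k => k⟩)
      (fun _ _ _ u v => ⟨fun b a ha a' ha' k => u.1 b a ha a' ha' (v.1 b a ha a' ha' k),
        fun a ha a' ha' k => u.2 a ha a' ha' (v.2 a ha a' ha' k)⟩)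
      (dl_pos M (j + 1) n) (by positivity) (dl_pos M (q j) n) (q0 j) (q1 j) h4
      (fun a i i' e => fn_cE (e.1 a) _) ⟨fun b i => fn_cE (fun a ha a' ha' k => by
        simp only [T']
        split_ifs with u
        · rw [u b a ha a' ha' k]
        · rfl) _, fun i i' e => fn_cE e.2 _⟩ k
      (ineq k (by unfold rho; have := q0 j; have := dl_pos M (q j) n; positivity) (dl_pos _ _ _)
        (by simpa [dl] using by positivity) R1 (by
          rw [h5]
          convert h1 using 3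
          simp only [dl_inv, ← Real.exp_nat_mul, ← Real.exp_add]
          congr 1; ring))
    have k0 : 0 < (q j / 2) ^ k := by have := q0 j; positivity
    have k5 : 1 / 2 * (q j / 2) ^ k ≤ pb (P n) fun ω => ‖x n ω‖ ≤ (dl M K n)⁻¹ ∧ G ω := by
      rw [← pb_cE]
      exact mul_le_mul (by linarith) k1 k0.le (pb_nonneg _ _)
    rw [hQ, cE_cE (ex_of_pb (lt_of_lt_of_le (by positivity) k5))] at k2 k4
    refine ⟨⟨_, A⟩, ?_, k2, k3, k4⟩
    calc 1 = 2 * ((q j / 2) ^ k)⁻¹ * (1 / 2 * (q j / 2) ^ k) := by field_simp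
      _ ≤ _ := mul_le_mul h3 k5 (by positivity) (le_trans (by positivity) h3)
  obtain ⟨J, hJ, h1⟩ := KSA.spill _ key
  have h2 : ∀ n, ∃ G, (∃ G, C (J n) n G) → C (J n) n G := fun n => by
    by_cases c : ∃ G, C (J n) n G
    · exact c.imp fun _ u _ => u
    · exact ⟨⟨fun _ => True, fun _ _ => (none, [])⟩, fun k => absurd k c⟩
  choose G h4 using h2
  have h5 : ∀ᶠ n in UF, C (J n) n (G n) := h1.mono fun n h => h4 n (h _ le_rfl)
  refine ⟨_, fun n => (G n).1, fun i n => (G n).2 i, h5.mono fun n h => h.1, fun i i' h =>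
    (h5.and (hr i i' h)).mono fun n k => k.1.2.1.nest i i' k.2, fun i => ⟨?_,
      fun b => h5.mono fun n k => k.2.1.lab b i, fun B E c F hc hF η hη => ?_⟩⟩
  · filter_upwards [h5, hT i] with n k u a _ b _ v
    have := congrArg Prod.fst v
    rw [k.2.2.1, k.2.2.1, u] at this
    exact Option.some.inj this
  filter_upwards [h5, R4.K31.small hc hJ, R4.K31.small hη hJ, hJ.ev B, hJ.ev E, hJ.ev (e i)] with
    n k1 k2 k3 k4 k5 k6
  refine (pb_mono fun ω _ h => ?_).trans ((k1.2.2.2 i (by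
    simpa [S, Nat.lt_succ_iff] using k6) fun a z m => (F a n z).coeff m.1).trans k3)
  obtain ⟨u1, u4⟩ := not_not.1 h
  beta_reduce at u4
  split_ifs at u4 with u3
  swap
  · exact absurd (u4.trans_eq (mul_zero _)) (abs_nonneg _).not_gt
  have u2 := (mul_pos_iff_of_pos_left (dl_pos M c n)).1 ((abs_nonneg _).trans_lt u4)
  have ev : ∀ v, (fun m : mons (Fin d) (J n) => (F true n (Z true i n ω)).coeff m.1) ⬝ᵥ φ (J n) n v =
      eval (x n v) (F true n (Z true i n ω)) := fun v =>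
    (pCnt.val (J n) _ _ ((hF _ _ _).trans (by exact_mod_cast k5))).symm
  have th := dl_pos M (q (J n)) n
  refine ⟨by simp only [u1], ?_, ?_, ?_⟩ <;> simp only [ev]
  · exact u2
  · refine le_trans ?_ (mul_le_mul_of_nonneg_left u3 th.le)
    rw [← mul_assoc, ← dl_add]
    exact mul_le_mul (dl_anti M (by linarith [q1 (J n)]) n) ((pi_norm_le_iff_of_nonneg
      (kc.nonneg _)).2 fun m => kc.coeff _ _) (norm_nonneg _) (dl_pos _ _ _).le
  · exact u4.le.trans (mul_le_mul_of_nonneg_right (dl_anti M k2 n) u2.le)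

end Pool.Agent.MP_5168f5_an.AN.A1
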