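import Pool.Agent.MP_5168f5_an.AN.A1Flr

/-! Countably many variables become deterministic on an event of slowly decaying probability. -/

namespace Pool.Agent.MP_5168f5_an.AN.A1

open H19 H17S H17F R4 Filter Topology

variable {Ω : ℕ → Type} {P : ∀ n, FP (Ω n)} {J : Type} [Countable J] {L : ℕ → ℝ}

/-- Countably many good events become sure and countably many indices become constant. -/
theorem pig_all {κ : J → Type} [∀ j, Finite (κ j)] (ι : ∀ j n, Ω n → κ j)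
    {Gd : J → ∀ n, Ω n → Prop} (h : ∀ j, Whp P (Gd j)) (hL : Tendsto L UF atTop) :
    ∃ (G : ∀ n, Ω n → Prop) (c : ∀ j, κ j), (∀ᶠ n in UF, 1 ≤ L n * pb (P n) (G n)) ∧
      ∀ j, ∀ᶠ n in UF, ∀ ω ∈ (P n).S, G n ω → Gd j n ω ∧ ι j n ω = c j := by
  obtain ⟨e, he⟩ := Countable.exists_injective_nat J
  have key : ∀ k : ℕ, ∃ c : ∀ j : {j // e j ≤ k}, κ j, Pos P fun n ω =>
      (∀ j : {j // e j ≤ k}, Gd j n ω) ∧ (fun j : {j // e j ≤ k} => ι j n ω) = c := fun k => by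
    have : Finite {j // e j ≤ k} := ((Set.finite_Iic k).preimage he.injOn).to_subtype
    exact KSA.pig P _ _ (Whp.all fun j : {j // e j ≤ k} => h j).pos
  choose c hc using key
  obtain ⟨k, hk, h1⟩ := KSA.spill (fun k n => 1 ≤ L n * pb (P n) fun ω =>
      (∀ j : {j // e j ≤ k}, Gd j n ω) ∧ (fun j : {j // e j ≤ k} => ι j n ω) = c k) fun k => by
    obtain ⟨a, a0, ha⟩ := hc k
    filter_upwards [ha, hL.eventually_ge_atTop a⁻¹] with n u v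
    calc 1 = a⁻¹ * a := (inv_mul_cancel₀ a0.ne').symm
      _ ≤ _ := mul_le_mul v u a0.le ((inv_pos.2 a0).le.trans v)
  have h2 : ∀ j, ∃ a : κ j, ∀ᶠ n in UF, ∃ u : e j ≤ k n, c (k n) ⟨j, u⟩ = a := fun j =>
    ev_ex ((hk.ev (e j)).mono fun n u => ⟨_, by exact_mod_cast u, rfl⟩)
  choose a ha using h2
  exact ⟨_, a, h1.mono fun n u => u _ le_rfl, fun j => (ha j).mono fun n ⟨u, v⟩ ω _ w =>
    ⟨w.1 ⟨j, u⟩, (congrFun w.2 ⟨j, u⟩).trans v⟩⟩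

/-- Countably many bounded variables become deterministic. -/
theorem conc (f : J → ∀ n, Ω n → ℝ) {Gd : J → ∀ n, Ω n → Prop} (h : ∀ j, Whp P (Gd j))
    (hf : ∀ j, ∃ B, Whp P fun n ω => |f j n ω| ≤ B) (hL : Tendsto L UF atTop) :
    ∃ (G : ∀ n, Ω n → Prop) (c : J → ℝ), (∀ᶠ n in UF, 1 ≤ L n * pb (P n) (G n)) ∧
      (∀ j, ∀ᶠ n in UF, ∀ ω ∈ (P n).S, G n ω → Gd j n ω) ∧
      ∀ j (ε : ℝ), 0 < ε → ∀ᶠ n in UF, ∀ ω ∈ (P n).S, G n ω → |f j n ω - c j| ≤ ε := by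
  classical
  choose B hB using hf
  let κ : J × ℕ → Type := fun j => Option (Finset.Icc ⌊(j.2 + 1 : ℝ) * -B j.1⌋ ⌊(j.2 + 1 : ℝ) * B j.1⌋)
  let ι : ∀ j n, Ω n → κ j := fun j n ω =>
    if u : ⌊(j.2 + 1 : ℝ) * f j.1 n ω⌋ ∈ Finset.Icc ⌊(j.2 + 1 : ℝ) * -B j.1⌋ ⌊(j.2 + 1 : ℝ) * B j.1⌋
    then some ⟨_, u⟩ else none
  obtain ⟨G, c, h1, h2⟩ := pig_all ι (fun j => (h j.1).and (hB j.1)) hL
  have h3 : ∀ᶠ n in UF, ∃ ω ∈ (P n).S, G n ω := h1.mono fun n u => ex_of_pb (by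
    by_contra v
    rw [le_antisymm (not_lt.1 v) (pb_nonneg _ _), mul_zero] at u
    linarith)
  have h4 : ∀ n, ∃ ω : Ω n, (∃ ω ∈ (P n).S, G n ω) → ω ∈ (P n).S ∧ G n ω := fun n => by
    by_cases u : ∃ ω ∈ (P n).S, G n ω
    · exact u.imp fun _ v _ => v
    · obtain ⟨ω, -⟩ := ex_of_pb (P := P n) (E := fun _ => True) (by rw [pb_true]; exact one_pos)
      exact ⟨ω, fun v => absurd v u⟩
  choose w hw using h4
  refine ⟨G, fun j => ul fun n => f j n (w n), h1, fun j => (h2 (j, 0)).mono fun n u ω a b =>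
    (u ω a b).1.1, fun j ε hε => ?_⟩
  have h5 := tendsto_ul (f := fun n => f j n (w n)) (C := B j) (((h2 (j, 0)).and h3).mono fun n u =>
    (u.1 _ (hw n u.2).1 (hw n u.2).2).1.2)
  obtain ⟨k, hk⟩ := exists_nat_one_div_lt (half_pos hε)
  filter_upwards [h2 (j, k), h3, Metric.tendsto_nhds.1 h5 _ (half_pos hε)] with n u v z ω a b
  have m : ∀ ω ∈ (P n).S, G n ω → ∃ t, (⟨⌊(k + 1 : ℝ) * f j n ω⌋, t⟩ : Finset.Icc _ _) ∈ c (j, k) :=
    fun ω a b => by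
      obtain ⟨⟨-, u1⟩, u2⟩ := u ω a b
      have t : ⌊(k + 1 : ℝ) * f j n ω⌋ ∈ Finset.Icc ⌊(k + 1 : ℝ) * -B j⌋ ⌊(k + 1 : ℝ) * B j⌋ :=
        Finset.mem_Icc.2 ⟨Int.floor_mono (mul_le_mul_of_nonneg_left (abs_le.1 u1).1 (by positivity)),
          Int.floor_mono (mul_le_mul_of_nonneg_left (abs_le.1 u1).2 (by positivity))⟩
      exact ⟨t, u2.symm.trans (dif_pos t)⟩
  obtain ⟨t1, m1⟩ := m ω a b
  obtain ⟨t2, m2⟩ := m _ (hw n v).1 (hw n v).2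
  have m3 := Int.abs_sub_lt_one_of_floor_eq_floor (congrArg Subtype.val (Option.mem_unique m1 m2))
  rw [← mul_sub, abs_mul, abs_of_pos (by positivity), ← lt_div_iff₀' (by positivity)] at m3
  rw [Real.dist_eq] at z
  linarith [abs_sub_le (f j n ω) (f j n (w n)) (ul fun n => f j n (w n))]

/-- The same in the unit `M`. -/
theorem concM {M : ℕ → ℕ} (hM : Big M) (f : J → ∀ n, Ω n → ℝ) {Gd : J → ∀ n, Ω n → Prop}
    (h : ∀ j, Whp P (Gd j)) (hf : ∀ j, ∃ B : ℝ, Whp P fun n ω => |f j n ω| ≤ B * M n)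
    (hL : Tendsto L UF atTop) :
    ∃ (G : ∀ n, Ω n → Prop) (c : J → ℝ), (∀ᶠ n in UF, 1 ≤ L n * pb (P n) (G n)) ∧
      (∀ j, ∀ᶠ n in UF, ∀ ω ∈ (P n).S, G n ω → Gd j n ω) ∧
      ∀ j, ∃ Γ, Sub M Γ ∧ ∀ᶠ n in UF, ∀ ω ∈ (P n).S, G n ω →
        |f j n ω - c j * M n| ≤ Real.log (Γ n) := by
  obtain ⟨G, c, h1, h2, h3⟩ := conc (fun j n ω => f j n ω / M n) h (fun j => (hf j).imp fun B u =>
    u.mono ((hM.ev 1).mono fun n v ω _ w => by
      rwa [abs_div, abs_of_pos (a := (M n : ℝ)) (by linarith), div_le_iff₀ (by linarith)])) hL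
  refine ⟨G, c, h1, h2, fun j => (sub_iff (p := fun n Γ => ∀ ω ∈ (P n).S, G n ω →
    |f j n ω - c j * M n| ≤ Real.log Γ)).2 fun ε hε => ?_⟩
  filter_upwards [h3 j ε hε, hM.ev 1] with n u v
  refine ⟨_, Real.one_le_exp (by positivity), le_rfl, fun ω a b => ?_⟩
  have := u ω a b
  rw [div_sub' (by linarith), abs_div, abs_of_pos (a := (M n : ℝ)) (by linarith),
    div_le_iff₀ (by linarith)] at this
  rwa [Real.log_exp, mul_comm (c j)]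

end Pool.Agent.MP_5168f5_an.AN.A1
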