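import Pool.Agent.MP_5168f5_an.AN.A1Step

/-! Finite descent to labels without a thin common combination. -/

namespace Pool.Agent.MP_5168f5_an.AN.A1

open H19 H17S H17F G39 Matrix

variable {Ω α τ Λ : Type} {β : Bool → Λ → Type} {ι : Type} [Fintype ι]

/-- Nested common functions of the two filtrations. -/
structure Lb (r : Λ → Λ → Prop) (P : FP Ω) (Z : ∀ a i, Ω → β a i) (A : Λ → Ω → α) : Prop where
  lab : ∀ a i, Fn P (A i) (Z a i)
  nest : ∀ i i', r i i' → Fn P (A i) (A i')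

/-- A common combination that is thin and above the floor. -/
def Vi {β : Bool → Type} (P : FP Ω) (Z : ∀ a, Ω → β a) (A : Ω → α) (φ : Ω → ι → ℝ) (ε θ : ℝ)
    (c : ∀ a, β a → ι → ℝ) (ω : Ω) : Prop :=
  c true (Z true ω) = c false (Z false ω) ∧
    0 < nu (cv P A (A ω)) (fun v => c true (Z true ω) ⬝ᵥ φ v) ∧
    ε * ‖c true (Z true ω)‖ ≤ θ * nu (cv P A (A ω)) (fun v => c true (Z true ω) ⬝ᵥ φ v) ∧
    |c true (Z true ω) ⬝ᵥ φ ω| ≤ θ * nu (cv P A (A ω)) fun v => c true (Z true ω) ⬝ᵥ φ v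

variable [DecidableEq ι]

/-- The potential of a family of labels. -/
noncomputable def pt (P : FP Ω) (I : Finset Λ) (A : Λ → Ω → α) (φ : Ω → ι → ℝ) (ε : ℝ) (ω : Ω) : ℝ :=
  ∏ i ∈ I, pot (nv (cv P (A i) (A i ω)) φ ε)

/-- The loss in one step. -/
noncomputable def rho (d m : ℕ) (p θ : ℝ) : ℝ :=
  2 * d * θ * (2 * (2 * d * (2 * (m * d + 1) / p + 1) + 1) ^ d) ^ m

variable {r : Λ → Λ → Prop} {P : FP Ω} {Z : ∀ a i, Ω → β a i} {φ : Ω → ι → ℝ} {ε R θ p : ℝ}
  {I : Finset Λ}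

theorem step {A : Λ → Ω → τ × List (ι → ℝ)} (rf : ∀ i, r i i)
    (tr : ∀ i j k, r i j → r j k → r i k) (hε : 0 < ε) (hR : 0 ≤ R) (hθ : 0 < θ) (hp : 0 < p)
    (h : ∀ ω ∈ P.S, ‖φ ω‖ ≤ R) (fil : ∀ a i i', r i i' → Fn P (Z a i) (Z a i')) (lb : Lb r P Z A)
    {X s : ℝ} (hs : 0 ≤ s) (hX : pb P (fun ω => ¬X ≤ s * pt P I A φ ε ω) ≤ p / 2) {i₀ : Λ}
    (hi : i₀ ∈ I) {c : ∀ a, β a i₀ → ι → ℝ}
    (hv : p ≤ pb P (Vi P (fun a => Z a i₀) (A i₀) φ ε θ c)) :
    ∃ (G : Ω → Prop) (A' : Λ → Ω → τ × List (ι → ℝ)), p / 2 ≤ pb P G ∧ Lb r (cE P G) Z A' ∧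
      (∀ i ω, (A' i ω).1 = (A i ω).1) ∧ pb (cE P G) (fun ω =>
        ¬X ≤ s * rho (Fintype.card ι) I.card p θ * pt (cE P G) I A' φ ε ω) ≤ p / 2 := by
  classical
  let G : Ω → Prop := fun ω => Vi P (fun a => Z a i₀) (A i₀) φ ε θ c ω ∧ X ≤ s * pt P I A φ ε ω
  let A' : Λ → Ω → τ × List (ι → ℝ) := fun i ω =>
    ((A i ω).1, (if r i₀ i then c true (Z true i₀ ω) else 0) :: (A i ω).2)
  have hG : p / 2 ≤ pb P G := by
    have h1 := pb_split P (Vi P (fun a => Z a i₀) (A i₀) φ ε θ c) fun ω => X ≤ s * pt P I A φ ε ω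
    have h2 : pb P (fun ω => Vi P (fun a => Z a i₀) (A i₀) φ ε θ c ω ∧ ¬X ≤ s * pt P I A φ ε ω) ≤ _ :=
      (pb_mono fun _ _ h => h.2).trans hX
    linarith
  have hG' := ex_of_pb (lt_of_lt_of_le (by positivity) hG)
  have mG : ∀ ω ∈ (cE P G).S, G ω := fun ω hω => ((mem_cE hG' ω).1 hω).2
  have eA : ∀ i x y, A' i x = A' i y → A i x = A i y := fun i x y e => by
    simp only [A', Prod.mk.injEq, List.cons.injEq] at e
    exact Prod.ext e.1 e.2.2
  have eC : ∀ i x y, r i₀ i → A' i x = A' i y → c true (Z true i₀ x) = c true (Z true i₀ y) :=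
    fun i x y k e => by
      simp only [A', Prod.mk.injEq, List.cons.injEq, if_pos k] at e
      exact e.2.1
  refine ⟨G, A', hG, ⟨fun a i x hx y hy e => ?_, fun i i' k x hx y hy e => ?_⟩, fun _ _ => rfl, ?_⟩
  · have e1 := lb.lab a i x (cE_sub hx) y (cE_sub hy) e
    by_cases k : r i₀ i
    · have e2 := fil a _ _ k x (cE_sub hx) y (cE_sub hy) e
      have e3 : c true (Z true i₀ x) = c true (Z true i₀ y) := by
        cases a
        · exact (mG x hx).1.1.trans ((congrArg _ e2).trans (mG y hy).1.1.symm)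
        · rw [e2]
      simp only [A', e1, e3]
    · simp only [A', e1, if_neg k]
  · have e1 := lb.nest i i' k x (cE_sub hx) y (cE_sub hy) (eA _ _ _ e)
    by_cases k' : r i₀ i
    · simp only [A', e1, eC i' x y (tr _ _ _ k' k) e]
    · simp only [A', e1, if_neg k']
  set d := Fintype.card ι
  set t : ℝ := 2 * (I.card * d + 1) / p with ht
  have t0 : 0 < t := by positivity
  set L : ℝ := 2 * d * (t + 1) + 1 with hL
  have L1 : 1 ≤ L := by rw [hL]; exact le_add_of_nonneg_left (by positivity)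
  set Q := cE P G
  have c1 := fun i => cmp P G (A i) (A' i) hε hR h t0 fun x _ y _ e => eA i x y e
  have c2 : pb Q (fun ω => ¬X ≤ s * rho d I.card p θ * pt Q I A' φ ε ω) ≤ pb Q fun ω => ∃ i ∈ I,
      ¬∀ c, nv (cv Q (A' i) (A' i ω)) φ ε c ≤ L * nv (cv P (A i) (A i ω)) φ ε c :=
    pb_mono fun ω hω hn => by
      by_contra k
      push Not at k
      refine hn ((mG ω hω).2.trans ?_)
      rw [mul_assoc]
      refine mul_le_mul_of_nonneg_left ?_ hs
      have n1 : ∀ i, Nm (nv (cv P (A i) (A i ω)) φ ε) ε (d * R + ε) := fun i =>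
        nm_nv hε hR fun v hv => h v (cE_sub hv)
      have n2 : ∀ i, Nm (nv (cv Q (A' i) (A' i ω)) φ ε) ε (d * R + ε) := fun i =>
        nm_nv hε hR fun v hv => h v (cE_sub (cE_sub hv))
      have R0 : 0 < d * R + ε := by positivity
      obtain ⟨-, v1, v2, v3⟩ := (mG ω hω).1
      have v4 : nu (cv Q (A' i₀) (A' i₀ ω)) (fun v => c true (Z true i₀ ω) ⬝ᵥ φ v) ≤
          θ * nu (cv P (A i₀) (A i₀ ω)) fun v => c true (Z true i₀ ω) ⬝ᵥ φ v :=
        nu_le _ (by positivity) fun v hv => by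
          obtain ⟨k1, k2⟩ := (mem_cv Q _ hω).1 hv
          have := (mG v k1).1.2.2.2
          simp only [eA _ _ _ k2, eC _ _ _ (rf _) k2] at this
          exact this
      have v5 := mul_nonneg hε.le (norm_nonneg (c true (Z true i₀ ω)))
      have g := pot_gain (n1 i₀) R0 (n2 i₀) L1 (θ := 2 * θ) (by positivity) (k i₀ hi)
        (v := c true (Z true i₀ ω)) (by simp only [nv]; linarith) (by simp only [nv]; nlinarith)
      have m : ∏ i ∈ I.erase i₀, pot (nv (cv P (A i) (A i ω)) φ ε) ≤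
          ∏ i ∈ I.erase i₀, 2 * L ^ d * pot (nv (cv Q (A' i) (A' i ω)) φ ε) :=
        Finset.prod_le_prod (fun i _ => ((n1 i).pot_pos R0).le) fun i hi =>
          pot_mono (n1 i) R0 (n2 i) (by linarith) (k i (Finset.mem_of_mem_erase hi))
      rw [Finset.prod_mul_distrib, Finset.prod_const] at m
      have cI : I.card = (I.erase i₀).card + 1 := (Finset.card_erase_add_one hi).symm
      rw [pt, pt, ← Finset.mul_prod_erase _ _ hi, ← Finset.mul_prod_erase _ _ hi]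
      refine (mul_le_mul g m (Finset.prod_nonneg fun i _ => ((n1 i).pot_pos R0).le)
        (mul_nonneg (by positivity) ((n2 i₀).pot_pos R0).le)).trans_eq ?_
      rw [rho, ← ht, ← hL, cI]
      ring
  refine c2.trans ((pb_ex Q I _).trans ?_)
  have c3 : ∀ i ∈ I, pb Q (fun ω => ¬∀ c, nv (cv Q (A' i) (A' i ω)) φ ε c ≤
      L * nv (cv P (A i) (A i ω)) φ ε c) ≤ 2 / p * (d / t ^ 2) := fun i _ => by
    rw [div_mul_eq_mul_div, le_div_iff₀ hp]
    nlinarith [c1 i, pb_nonneg Q fun ω => ¬∀ c, nv (cv Q (A' i) (A' i ω)) φ ε c ≤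
      L * nv (cv P (A i) (A i ω)) φ ε c]
  refine (Finset.sum_le_sum c3).trans ?_
  rw [Finset.sum_const, nsmul_eq_mul, ht]
  have k0 : (0 : ℝ) ≤ I.card * d := by positivity
  field_simp
  nlinarith

/-- After finitely many steps no thin common combination is left. -/
theorem fin {T : Λ → Ω → τ} (rf : ∀ i, r i i) (tr : ∀ i j k, r i j → r j k → r i k)
    (hε : 0 < ε) (hR : 0 ≤ R) (hθ : 0 < θ) (hp : 0 < p) (hp1 : p ≤ 1)
    (h : ∀ ω ∈ P.S, ‖φ ω‖ ≤ R) (fil : ∀ a i i', r i i' → Fn P (Z a i) (Z a i')) (lb : Lb r P Z T)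
    (k : ℕ) (hk : rho (Fintype.card ι) I.card p θ ^ k *
      ((Fintype.card ι).factorial * ε⁻¹ ^ Fintype.card ι) ^ I.card <
      ((Fintype.card ι * R + ε)⁻¹ ^ Fintype.card ι) ^ I.card) :
    ∃ (G : Ω → Prop) (A : Λ → Ω → τ × List (ι → ℝ)), (p / 2) ^ k ≤ pb P G ∧ Lb r (cE P G) Z A ∧
      (∀ i ω, (A i ω).1 = T i ω) ∧
      ∀ i ∈ I, ∀ c, pb (cE P G) (Vi (cE P G) (fun a => Z a i) (A i) φ ε θ c) ≤ p := by
  set d := Fintype.card ι
  have r0 : 0 ≤ rho d I.card p θ := by unfold rho; positivity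
  have R0 : 0 < d * R + ε := by positivity
  have main : ∀ k : ℕ, ∃ (G : Ω → Prop) (A : Λ → Ω → τ × List (ι → ℝ)), (p / 2) ^ k ≤ pb P G ∧
      Lb r (cE P G) Z A ∧ (∀ i ω, (A i ω).1 = T i ω) ∧
      ((∀ i ∈ I, ∀ c, pb (cE P G) (Vi (cE P G) (fun a => Z a i) (A i) φ ε θ c) ≤ p) ∨
        pb (cE P G) (fun ω => ¬((d * R + ε)⁻¹ ^ d) ^ I.card ≤
          rho d I.card p θ ^ k * pt (cE P G) I A φ ε ω) ≤ p / 2) := fun k => by
    induction k with
    | zero =>
      refine ⟨fun _ => True, fun i ω => (T i ω, []), by simp [pb_true], ?_, fun _ _ => rfl, Or.inr ?_⟩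
      · rw [cE_true]
        exact ⟨fun a i x hx y hy e => by rw [lb.lab a i x hx y hy e], fun i i' k x hx y hy e => by
          rw [lb.nest i i' k x hx y hy (congrArg Prod.fst e)]⟩
      · rw [cE_true, pb_zero]
        · positivity
        intro ω _
        rw [not_not, pow_zero, one_mul, pt, ← Finset.prod_const]
        exact Finset.prod_le_prod (fun _ _ => by positivity) fun i _ =>
          (nm_nv hε hR fun v hv => h v (cE_sub hv)).pot_ge R0
    | succ k ih =>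
      obtain ⟨G, A, h1, h2, h3, h4⟩ := ih
      have h5 : (p / 2) ^ (k + 1) ≤ (p / 2) ^ k := by
        rw [pow_succ]; exact mul_le_of_le_one_right (by positivity) (by linarith)
      by_cases q : ∀ i ∈ I, ∀ c, pb (cE P G) (Vi (cE P G) (fun a => Z a i) (A i) φ ε θ c) ≤ p
      · exact ⟨G, A, h5.trans h1, h2, h3, Or.inl q⟩
      have h6 := h4.resolve_left q
      push Not at q
      obtain ⟨i, hi, c, hc⟩ := q
      obtain ⟨G', A', k1, k2, k3, k4⟩ := step rf tr hε hR hθ hp (fun ω hω => h ω (cE_sub hω))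
        (fun a i i' e => fn_cE (fil a i i' e) G) h2 (pow_nonneg r0 k) h6 hi hc.le
      have k5 : (p / 2) ^ (k + 1) ≤ pb P fun ω => G ω ∧ G' ω := by
        rw [← pb_cE, pow_succ]
        exact mul_le_mul h1 k1 (by positivity) (pb_nonneg _ _)
      rw [cE_cE (ex_of_pb (lt_of_lt_of_le (by positivity) k5))] at k2 k4
      exact ⟨_, A', k5, k2, fun i ω => (k3 i ω).trans (h3 i ω), Or.inr (by rwa [pow_succ])⟩
  obtain ⟨G, A, h1, h2, h3, h4⟩ := main k
  refine ⟨G, A, h1, h2, h3, h4.resolve_right fun h5 => ?_⟩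
  rw [pb_one] at h5
  · linarith
  intro ω _ h6
  refine (h6.trans (mul_le_mul_of_nonneg_left ?_ (pow_nonneg r0 k))).not_gt hk
  rw [pt, ← Finset.prod_const]
  exact Finset.prod_le_prod (fun i _ => ((nm_nv hε hR fun v hv => h v (cE_sub (cE_sub hv))).pot_pos
    R0).le) fun i _ => (nm_nv hε hR fun v hv => h v (cE_sub (cE_sub hv))).pot_le

end Pool.Agent.MP_5168f5_an.AN.A1
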