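import Mathlib

/-! The inverse covolume of a norm on a space of coefficient vectors. -/

namespace Pool.Agent.MP_5168f5_an.AN.A1

open Matrix

variable {ι : Type} [Fintype ι] [DecidableEq ι]

/-- A norm between two multiples of the supremum norm. -/
structure Nm (N : (ι → ℝ) → ℝ) (ε R : ℝ) : Prop where
  add : ∀ u v, N (u + v) ≤ N u + N v
  smul : ∀ (a : ℝ) u, N (a • u) = |a| * N u
  lo : ∀ u, ε * ‖u‖ ≤ N u
  hi : ∀ u, N u ≤ R * ‖u‖
  pos : 0 < ε

/-- The largest determinant of vectors in the unit ball. -/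
noncomputable def pot (N : (ι → ℝ) → ℝ) : ℝ :=
  sSup {r | ∃ b : Matrix ι ι ℝ, (∀ k, N (b k) ≤ 1) ∧ r = |b.det|}

variable {N N' : (ι → ℝ) → ℝ} {ε R ε' R' : ℝ}

theorem Nm.zero (h : Nm N ε R) : N 0 = 0 := by simpa using h.smul 0 0

theorem Nm.nonneg (h : Nm N ε R) (u : ι → ℝ) : 0 ≤ N u :=
  (mul_nonneg h.pos.le (norm_nonneg u)).trans (h.lo u)

theorem Nm.sum (h : Nm N ε R) {κ : Type} (S : Finset κ) (u : κ → ι → ℝ) :
    N (∑ k ∈ S, u k) ≤ ∑ k ∈ S, N (u k) := by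
  classical
  induction S using Finset.induction_on with
  | empty => simp [h.zero]
  | insert a S ha ih =>
    rw [Finset.sum_insert ha, Finset.sum_insert ha]
    exact (h.add _ _).trans (by linarith)

theorem Nm.det_le (h : Nm N ε R) {b : Matrix ι ι ℝ} (hb : ∀ k, N (b k) ≤ 1) :
    |b.det| ≤ (Fintype.card ι).factorial * ε⁻¹ ^ Fintype.card ι := by
  have := Matrix.det_le (A := b) (abv := AbsoluteValue.abs) (x := ε⁻¹) fun i j => by
    have h1 := (h.lo (b i)).trans (hb i)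
    have h2 : |b i j| ≤ ‖b i‖ := norm_le_pi_norm (b i) j
    show |b i j| ≤ ε⁻¹
    rw [← one_div, le_div_iff₀ h.pos]
    nlinarith [h.pos]
  simpa using this

theorem Nm.le_pot (h : Nm N ε R) {b : Matrix ι ι ℝ} (hb : ∀ k, N (b k) ≤ 1) : |b.det| ≤ pot N :=
  le_csSup ⟨_, by rintro _ ⟨c, hc, rfl⟩; exact h.det_le hc⟩ ⟨b, hb, rfl⟩

theorem Nm.pot_le (h : Nm N ε R) : pot N ≤ (Fintype.card ι).factorial * ε⁻¹ ^ Fintype.card ι :=
  csSup_le ⟨_, 0, fun k => by simp [show (0 : Matrix ι ι ℝ) k = 0 from rfl, h.zero], rfl⟩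
    (by rintro _ ⟨c, hc, rfl⟩; exact h.det_le hc)

theorem Nm.pot_ge (h : Nm N ε R) (hR : 0 < R) : R⁻¹ ^ Fintype.card ι ≤ pot N := by
  have := h.le_pot (b := R⁻¹ • (1 : Matrix ι ι ℝ)) fun k => by
    have h1 : ‖(R⁻¹ • (1 : Matrix ι ι ℝ)) k‖ ≤ R⁻¹ :=
      (pi_norm_le_iff_of_nonneg (by positivity)).2 fun j => by
        by_cases e : k = j <;> simp [one_apply, e, abs_of_pos hR, hR.le]
    refine (h.hi _).trans ((mul_le_mul_of_nonneg_left h1 hR.le).trans ?_)
    rw [mul_inv_cancel₀ hR.ne']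
  rwa [det_smul, det_one, mul_one, abs_of_pos (by positivity)] at this

theorem Nm.pot_pos (h : Nm N ε R) (hR : 0 < R) : 0 < pot N := lt_of_lt_of_le (by positivity) (h.pot_ge hR)

/-- An almost extremal basis. -/
theorem Nm.basis (h : Nm N ε R) (hR : 0 < R) : ∃ b : Matrix ι ι ℝ, (∀ k, N (b k) ≤ 1) ∧
    pot N ≤ 2 * |b.det| ∧ ∀ v, ∃ a : ι → ℝ, v = ∑ k, a k • b k ∧ ∀ k, |a k| ≤ 2 * N v := by
  have hp := h.pot_pos hR
  obtain ⟨_, ⟨b, hb, rfl⟩, h2⟩ := exists_lt_of_lt_csSup (s := {r | ∃ b : Matrix ι ι ℝ,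
    (∀ k, N (b k) ≤ 1) ∧ r = |b.det|}) ⟨_, 0, fun k => by
      simp [show (0 : Matrix ι ι ℝ) k = 0 from rfl, h.zero], rfl⟩ (show pot N / 2 < pot N by linarith)
  have hd : 0 < |b.det| := by linarith
  refine ⟨b, hb, by linarith, fun v => ?_⟩
  have hu : IsUnit b.det := (abs_pos.1 hd).isUnit
  have e : v = ∑ k, (v ᵥ* b⁻¹) k • b k := by
    rw [← vecMul_eq_sum, vecMul_vecMul, nonsing_inv_mul _ hu, vecMul_one]
  refine ⟨v ᵥ* b⁻¹, e, fun k => ?_⟩
  rcases (h.nonneg v).eq_or_lt with h0 | h0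
  · have : v = 0 := by
      have := h.lo v
      rw [← h0] at this
      exact norm_le_zero_iff.1 (by nlinarith [h.pos, norm_nonneg v])
    simp [this, h.zero]
  have h3 := h.le_pot (b := b.updateRow k ((N v)⁻¹ • v)) fun l => by
    by_cases e : l = k
    · subst e
      rw [updateRow_self, h.smul, abs_of_pos (by positivity), inv_mul_cancel₀ h0.ne']
    · rw [updateRow_ne e]; exact hb l
  rw [det_updateRow_smul] at h3
  conv at h3 => lhs; rw [e]
  rw [det_updateRow_sum, ← e, smul_eq_mul, abs_mul, abs_mul, abs_of_pos (by positivity),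
    inv_mul_le_iff₀ h0] at h3
  nlinarith [mul_pos h0 hd]

theorem scale (h' : Nm N' ε' R') {L : ℝ} (hL : 0 < L) (le : ∀ u, N' u ≤ L * N u)
    {b : Matrix ι ι ℝ} (hb : ∀ k, N (b k) ≤ 1) (k : ι) : N' ((L⁻¹ • b) k) ≤ 1 := by
  rw [show (L⁻¹ • b) k = L⁻¹ • b k from rfl, h'.smul, abs_of_pos (by positivity), inv_mul_le_iff₀ hL]
  exact (le _).trans (mul_le_mul_of_nonneg_left (hb k) hL.le)

/-- Comparable norms have comparable potentials. -/
theorem pot_mono (h : Nm N ε R) (hR : 0 < R) (h' : Nm N' ε' R') {L : ℝ} (hL : 0 < L)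
    (le : ∀ u, N' u ≤ L * N u) : pot N ≤ 2 * L ^ Fintype.card ι * pot N' := by
  obtain ⟨b, hb, h2, -⟩ := h.basis hR
  have h3 := h'.le_pot (scale h' hL le hb)
  rw [det_smul, abs_mul, abs_of_pos (by positivity), inv_pow, inv_mul_le_iff₀ (by positivity)] at h3
  linarith

/-- A thin direction increases the potential. -/
theorem pot_gain (h : Nm N ε R) (hR : 0 < R) (h' : Nm N' ε' R') {L θ : ℝ} (hL : 1 ≤ L) (hθ : 0 < θ)
    (le : ∀ u, N' u ≤ L * N u) {v : ι → ℝ} (hv : 0 < N v) (thin : N' v ≤ θ * N v) :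
    pot N ≤ 2 * Fintype.card ι * θ * L ^ Fintype.card ι * pot N' := by
  obtain ⟨b, hb, h2, h4⟩ := h.basis hR
  obtain ⟨a, e, -⟩ := h4 v
  have L0 : 0 < L := by linarith
  obtain ⟨k, hk⟩ : ∃ k, N v ≤ Fintype.card ι * |a k| := by
    rcases isEmpty_or_nonempty ι with hι | hι
    · rw [Subsingleton.elim v 0, h.zero] at hv; exact absurd hv (lt_irrefl _)
    obtain ⟨k, hk⟩ := Finite.exists_max fun k => |a k|
    refine ⟨k, ?_⟩
    calc N v ≤ ∑ l, N (a l • b l) := by conv_lhs => rw [e]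
                                        exact h.sum _ _
      _ ≤ ∑ _l : ι, |a k| := Finset.sum_le_sum fun l _ => by
          rw [h.smul]; nlinarith [hk l, hb l, abs_nonneg (a l), h.nonneg (b l)]
      _ = _ := by simp
  have h3 := h'.le_pot (b := (L⁻¹ • b).updateRow k ((θ * N v)⁻¹ • v)) fun l => by
    by_cases e : l = k
    · subst e
      rw [updateRow_self, h'.smul, abs_of_pos (by positivity), inv_mul_le_iff₀ (by positivity)]
      linarith
    · rw [updateRow_ne e]; exact scale h' L0 le hb l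
  have e' : v = ∑ l, (L * a l) • (L⁻¹ • b) l := e.trans (Finset.sum_congr rfl fun l _ => by
    rw [show (L⁻¹ • b) l = L⁻¹ • b l from rfl, smul_smul]; congr 1; field_simp)
  have e2 : ((L⁻¹ • b).updateRow k v).det = L * a k * (L⁻¹ ^ Fintype.card ι * b.det) := by
    conv_lhs => rw [e']
    rw [det_updateRow_sum, det_smul, smul_eq_mul]
  rw [det_updateRow_smul, e2, abs_mul, abs_mul, abs_mul, abs_mul, abs_of_pos (by positivity),
    abs_of_pos L0, abs_of_pos (a := L⁻¹ ^ _) (by positivity), inv_mul_le_iff₀ (by positivity),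
    inv_pow] at h3
  have hq : 0 < L ^ Fintype.card ι := by positivity
  have h5 : L * |a k| * |b.det| ≤ L ^ Fintype.card ι * (θ * N v * pot N') := by
    rw [← inv_mul_le_iff₀ hq]; linarith
  have h6 : |a k| * |b.det| ≤ L * |a k| * |b.det| := by
    nlinarith [mul_nonneg (abs_nonneg (a k)) (abs_nonneg b.det)]
  refine le_of_mul_le_mul_left ?_ hv
  have c0 : (0 : ℝ) ≤ Fintype.card ι := Nat.cast_nonneg _
  nlinarith [mul_le_mul hk h2 (h.pot_pos hR).le (by positivity), mul_le_mul_of_nonneg_left (h6.trans h5) c0]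

end Pool.Agent.MP_5168f5_an.AN.A1
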