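import Pool.Agent.MP_5168f5_an.AN.G39Onb
import Pool.Agent.MP_5168f5_an.AN.A1Pot

/-! The regularised quadratic mean under events and refinements. -/

namespace Pool.Agent.MP_5168f5_an.AN.A1

open H19 H17S H17F G39 Matrix

variable {Ω α α' β : Type} {ι : Type} [Fintype ι]

theorem nu_nonneg (P : FP Ω) (f : Ω → ℝ) : 0 ≤ nu P f := Real.sqrt_nonneg _

theorem nu_add (P : FP Ω) (f g : Ω → ℝ) : nu P (fun ω => f ω + g ω) ≤ nu P f + nu P g := by
  rw [← G39OnbA.norm_T, ← G39OnbA.norm_T, ← G39OnbA.norm_T]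
  exact (congrArg norm (map_add (G39OnbA.T P) f g)).trans_le (norm_add_le _ _)

theorem nu_smul (P : FP Ω) (a : ℝ) (f : Ω → ℝ) : nu P (fun ω => a * f ω) = |a| * nu P f := by
  rw [← G39OnbA.norm_T, ← G39OnbA.norm_T]
  exact (congrArg norm (map_smul (G39OnbA.T P) a f)).trans (norm_smul _ _)

theorem nu_le (P : FP Ω) {f : Ω → ℝ} {B : ℝ} (hB : 0 ≤ B) (h : ∀ ω ∈ P.S, |f ω| ≤ B) : nu P f ≤ B :=
  Real.sqrt_le_iff.2 ⟨hB, (P.E_mono fun ω hω => sq_le_sq' (abs_le.1 (h ω hω)).1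
    (abs_le.1 (h ω hω)).2).trans_eq (P.E_const _)⟩

theorem nu_sq (P : FP Ω) (f : Ω → ℝ) : nu P f ^ 2 = P.E fun ω => f ω ^ 2 :=
  Real.sq_sqrt (P.E_nonneg fun _ _ => sq_nonneg _)

theorem tower (P : FP Ω) (φ : Ω → β) (F : Ω → Ω → ℝ) (h : Fn P F φ) :
    P.E (fun ω => F ω ω) = P.E fun ω => (cv P φ (φ ω)).E (F ω) := by
  rw [CND.exp P φ F h]
  exact P.E_congr fun ω hω => by rw [KEA.cv_eq P φ hω]

theorem markov (P : FP Ω) {u : Ω → ℝ} (h : ∀ ω ∈ P.S, 0 ≤ u ω) (η : ℝ) :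
    η * pb P (fun ω => η ≤ u ω) ≤ P.E u := by
  unfold pb
  rw [← P.E_mul]
  refine P.E_mono fun ω hω => ?_
  by_cases e : η ≤ u ω
  · simp [e]
  · simpa [e] using h ω hω

theorem pb_ex {κ : Type} (P : FP Ω) (I : Finset κ) (E : κ → Ω → Prop) :
    pb P (fun ω => ∃ i ∈ I, E i ω) ≤ ∑ i ∈ I, pb P (E i) := by
  classical
  induction I using Finset.induction_on with
  | empty => simp [pb_zero]
  | insert a S ha ih =>
    rw [Finset.sum_insert ha]
    refine (pb_mono fun ω _ h => ?_).trans ((pb_or P (E a) _).trans (add_le_add le_rfl ih))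
    simpa using h

theorem mem_cv (P : FP Ω) (θ : Ω → β) {ω x : Ω} (h : ω ∈ P.S) :
    x ∈ (cv P θ (θ ω)).S ↔ x ∈ P.S ∧ θ x = θ ω :=
  mem_cE (E := fun x => θ x = θ ω) ⟨ω, h, rfl⟩ x

/-- The regularised quadratic mean of the combination `c` of the features `φ`. -/
noncomputable def nv (P : FP Ω) (φ : Ω → ι → ℝ) (ε : ℝ) (c : ι → ℝ) : ℝ :=
  nu P (fun ω => c ⬝ᵥ φ ω) + ε * ‖c‖

theorem nm_nv {P : FP Ω} {φ : Ω → ι → ℝ} {ε R : ℝ} (hε : 0 < ε) (hR : 0 ≤ R)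
    (h : ∀ ω ∈ P.S, ‖φ ω‖ ≤ R) : Nm (nv P φ ε) ε (Fintype.card ι * R + ε) where
  add u v := by
    have h1 := nu_add P (fun ω => u ⬝ᵥ φ ω) fun ω => v ⬝ᵥ φ ω
    have h2 := mul_le_mul_of_nonneg_left (norm_add_le u v) hε.le
    simp only [nv, add_dotProduct]
    linarith
  smul a u := by
    simp only [nv, smul_dotProduct, smul_eq_mul, nu_smul, norm_smul, Real.norm_eq_abs]
    ring
  lo u := le_add_of_nonneg_left (nu_nonneg _ _)
  hi u := by
    have := nu_le P (f := fun ω => u ⬝ᵥ φ ω) (B := Fintype.card ι * R * ‖u‖) (by positivity)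
      fun ω hω => by
        refine (Finset.abs_sum_le_sum_abs _ _).trans ((Finset.sum_le_sum (g := fun _ => R * ‖u‖)
          fun i _ => ?_).trans_eq (by simp [mul_assoc]))
        rw [abs_mul, mul_comm]
        exact mul_le_mul ((norm_le_pi_norm (φ ω) i).trans (h ω hω)) (norm_le_pi_norm u i)
          (abs_nonneg _) hR
    simp only [nv]
    linarith
  pos := hε

/-- On an event, the mean given a finer label is mostly bounded by the old mean. -/
theorem cmp [DecidableEq ι] (P : FP Ω) (G : Ω → Prop) (A : Ω → α) (A' : Ω → α')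
    {φ : Ω → ι → ℝ} {ε R t : ℝ} (hε : 0 < ε) (hR : 0 ≤ R) (h : ∀ ω ∈ P.S, ‖φ ω‖ ≤ R) (ht : 0 < t)
    (fn : Fn (cE P G) A A') :
    pb P G * pb (cE P G) (fun ω => ¬∀ c, nv (cv (cE P G) A' (A' ω)) φ ε c ≤
      (2 * Fintype.card ι * (t + 1) + 1) * nv (cv P A (A ω)) φ ε c) ≤ Fintype.card ι / t ^ 2 := by
  classical
  have nm : ∀ a, Nm (nv (cv P A a) φ ε) ε (Fintype.card ι * R + ε) := fun a =>
    nm_nv hε hR fun ω hω => h ω (cE_sub hω)
  choose b hb _ hc using fun a => (nm a).basis (by positivity)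
  set Q := cE P G with hQ
  let u : ι → Ω → ℝ := fun k ω => (cv Q A' (A' ω)).E fun v => (b (A ω) k ⬝ᵥ φ v) ^ 2
  have u0 : ∀ k ω, 0 ≤ u k ω := fun k ω => FP.E_nonneg _ fun _ _ => sq_nonneg _
  have e1 : ∀ k, pb P G * Q.E (u k) ≤ 1 := fun k => by
    rw [← tower Q A' (fun ω v => (b (A ω) k ⬝ᵥ φ v) ^ 2) fun x hx y hy e => by
      simp only [fn x hx y hy e], hQ, E_cE]
    refine (P.E_mono (G := fun ω => (b (A ω) k ⬝ᵥ φ ω) ^ 2) fun ω _ => ?_).trans ?_
    · split_ifs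
      · exact le_rfl
      · exact sq_nonneg _
    rw [KEA.exp P A fun a v => (b a k ⬝ᵥ φ v) ^ 2]
    refine (P.E_mono fun ω _ => ?_).trans_eq (P.E_const 1)
    rw [← nu_sq]
    have h1 := hb (A ω) k
    have h2 := mul_nonneg hε.le (norm_nonneg (b (A ω) k))
    have h3 := nu_nonneg (cv P A (A ω)) fun v => b (A ω) k ⬝ᵥ φ v
    simp only [nv] at h1
    nlinarith
  have e2 := markov Q (u := fun ω => ∑ k, u k ω) (fun ω _ => Finset.sum_nonneg fun k _ => u0 k ω)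
    (t ^ 2)
  rw [FP.E_sum] at e2
  have e3 : pb P G * ∑ k, Q.E (u k) ≤ Fintype.card ι := by
    rw [Finset.mul_sum]
    exact (Finset.sum_le_sum fun k _ => e1 k).trans_eq (by simp)
  have e4 : pb Q (fun ω => ¬∀ c, nv (cv Q A' (A' ω)) φ ε c ≤
      (2 * Fintype.card ι * (t + 1) + 1) * nv (cv P A (A ω)) φ ε c) ≤
      pb Q fun ω => t ^ 2 ≤ ∑ k, u k ω := pb_mono fun ω _ hn => by
    by_contra h5
    refine hn fun c => ?_
    have nm' : Nm (nv (cv Q A' (A' ω)) φ ε) ε (Fintype.card ι * R + ε) :=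
      nm_nv hε hR fun v hv => h v (cE_sub (cE_sub hv))
    have h6 : ∀ k, nv (cv Q A' (A' ω)) φ ε (b (A ω) k) ≤ t + 1 := fun k => by
      have h7 := (Finset.single_le_sum (f := fun k => u k ω) (fun k _ => u0 k ω)
        (Finset.mem_univ k)).trans (not_le.1 h5).le
      have h8 : nu (cv Q A' (A' ω)) (fun v => b (A ω) k ⬝ᵥ φ v) ≤ t := Real.sqrt_le_iff.2 ⟨ht.le, h7⟩
      have h9 := ((nm (A ω)).lo (b (A ω) k)).trans (hb _ k)
      simp only [nv]
      linarith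
    obtain ⟨a, e, ha⟩ := hc (A ω) c
    have n0 := (nm (A ω)).nonneg c
    calc _ ≤ ∑ k, nv (cv Q A' (A' ω)) φ ε (a k • b (A ω) k) := by
          conv_lhs => rw [e]
          exact nm'.sum _ _
      _ ≤ ∑ _k : ι, 2 * nv (cv P A (A ω)) φ ε c * (t + 1) := Finset.sum_le_sum fun k _ => by
          rw [nm'.smul]
          exact mul_le_mul (ha k) (h6 k) (nm'.nonneg _) (by positivity)
      _ ≤ _ := by
          rw [Finset.sum_const, Finset.card_univ, nsmul_eq_mul]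
          linarith
  rw [le_div_iff₀ (by positivity)]
  have p0 := pb_nonneg P G
  nlinarith [mul_le_mul_of_nonneg_left e2 p0, mul_le_mul_of_nonneg_left e4 (mul_nonneg p0 (sq_nonneg t))]

end Pool.Agent.MP_5168f5_an.AN.A1
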