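import Pool.Agent.MP_5168f5_an.AN.N6Ps

/-! Kakeya sets in all dimensions: the group law on the coordinates of a subalgebra. -/

namespace Pool.Agent.MP_5168f5_an.AN.N4

open H19 H17S H17F G39 Filter GA R4 LC Finset
open N6 (At co_mul atom_co ob_c)

variable {κ : Type} [Fintype κ]

theorem br_ap (c : κ → κ → κ → ℕ → ℝ) (x y : κ → ℕ → ℝ) (e : κ) :
    br c x y e = fun n => ∑ a, ∑ b, c a b e n * x a n * y b n := by
  funext n
  simp only [br, Finset.sum_apply, Pi.mul_apply]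

open Classical in
theorem sm (S : Finset κ) [Fintype {b // b ∈ S}] (f : κ → ℝ) :
    ∑ a : {b // b ∈ S}, f a = ∑ a, if a ∈ S then f a else 0 := by
  rw [← sum_subtype S (fun _ => Iff.rfl) f, sum_ite_mem, univ_inter]

theorem res {M : ℕ → ℕ} (hM : Big M) (N : ℕ) (S : Finset κ) [Fintype {b // b ∈ S}]
    {c : κ → κ → κ → ℕ → ℝ} (oc : ∀ a b e, OB M (c a b e))
    (sub : ∀ a ∈ S, ∀ b ∈ S, ∀ e, e ∉ S → Neg M (c a b e)) {s t : κ → ℕ → ℝ}
    (hs : ∀ a, OB M (s a) ∧ (a ∉ S → Neg M (s a))) (ht : ∀ a, OB M (t a) ∧ (a ∉ S → Neg M (t a)))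
    (e : {b // b ∈ S}) : Neg M fun n =>
      bch N (fun a b e => c a b e n) (fun a => s a n) (fun a => t a n) e.1 -
      bch N (fun a b e : {b // b ∈ S} => c a.1 b.1 e.1 n) (fun a => s a.1 n) (fun a => t a.1 n) e := by
  classical
  have oq : ∀ q : ℚ, OB M fun _ => (q : ℝ) := fun q => ob_const hM _
  let A : Submodule ℚ (κ → ℕ → ℝ) :=
    ⟨⟨⟨{x | ∀ a, OB M (x a) ∧ (a ∉ S → Neg M (x a))}, fun h k a =>
      ⟨ob_add hM (h a).1 (k a).1, fun z => ((h a).2 z).add hM ((k a).2 z)⟩⟩,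
      fun a => ⟨neg_zero.ob, fun _ => neg_zero⟩⟩,
      fun q x h a => ⟨ob_mul hM (oq q) (h a).1, fun z => ((h a).2 z).mul' (oq q)⟩⟩
  let I : Submodule ℚ ({b // b ∈ S} → ℕ → ℝ) :=
    ⟨⟨⟨{x | ∀ a, Neg M (x a)}, fun h k a => (h a).add hM (k a)⟩, fun a => neg_zero⟩,
      fun q x h a => (h a).mul' (oq q)⟩
  have out : ∀ x ∈ A, ∀ y ∈ A, ∀ a b e, ¬(a ∈ S ∧ b ∈ S) →
      Neg M fun n => c a b e n * x a n * y b n := fun x hx y hy a b e z => by
    rcases not_and_or.1 z with z | z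
    exacts [(((hx a).2 z).mul' (oc a b e)).mul (hy b).1,
      ((hy b).2 z).mul' (ob_mul hM (oc a b e) (hx a).1)]
  have k := (sHom κ {b // b ∈ S} (ℕ → ℝ) N c (fun a b e => c a.1 b.1 e.1)
    (LinearMap.funLeft ℚ _ Subtype.val) A I (fun x hx y hy => ⟨fun e => ?_, fun e => ?_⟩)
    (fun x hx y hy => ⟨fun e => ?_, fun e => ?_⟩) (fun x hx y hy e => ?_) s hs t ht).2 e
  · refine k.congr (.of_forall fun n => ?_)
    exact congrArg₂ _ ((sMap κ _ ℝ (Pi.evalRingHom (fun _ => ℝ) n) N c s t).2.1 e.1).symm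
      ((sMap _ _ ℝ (Pi.evalRingHom (fun _ => ℝ) n) N (fun a b e : {b // b ∈ S} => c a.1 b.1 e.1)
        (fun a => s a.1) fun a => t a.1).2.1 e).symm
  · rw [br_ap]
    refine ⟨ob_sum hM _ fun a _ => ob_sum hM _ fun b _ =>
      ob_mul hM (ob_mul hM (oc a b e) (hx a).1) (hy b).1,
      fun z => Neg.sum hM _ fun a _ => Neg.sum hM _ fun b _ => ?_⟩
    by_cases i : a ∈ S ∧ b ∈ S
    exacts [((sub a i.1 b i.2 e z).mul (hx a).1).mul (hy b).1, out x hx y hy a b e i]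
  · refine (Neg.sum hM univ fun a _ => Neg.sum hM univ (f := fun b n =>
      if a ∈ S ∧ b ∈ S then 0 else c a b e n * x a n * y b n) fun b _ => ?_).congr
      (.of_forall fun n => ?_)
    · split_ifs with i
      exacts [neg_zero, out x hx y hy a b e i]
    · simp only [Pi.sub_apply, LinearMap.funLeft_apply, br_ap]
      rw [sm S fun a => ∑ b : {b // b ∈ S}, c a b e n * x a n * y b n, ← sum_sub_distrib]
      refine sum_congr rfl fun a _ => ?_
      rw [sm S fun b => c a b e n * x a n * y b n]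
      split_ifs with i
      · rw [← sum_sub_distrib]
        exact sum_congr rfl fun b _ => by by_cases z : b ∈ S <;> simp [i, z]
      · simp [i]
  · rw [br_ap]
    exact Neg.sum hM _ fun a _ => Neg.sum hM _ fun b _ =>
      (hy b).mul' (ob_mul hM (oc _ _ _) (hx a).1)
  · rw [br_ap]
    exact Neg.sum hM _ fun a _ => Neg.sum hM _ fun b _ => ((hy a).mul' (oc _ _ _)).mul (hx b).1
  · rw [br_ap]
    exact Neg.sum hM _ fun a _ => Neg.sum hM _ fun b _ => ((hx a).mul' (oc _ _ _)).mul (hy b).ob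

/-- Inside an atom the coordinates in `S k` multiply by the law of the subalgebra. -/
theorem stepL {m : ℕ} {Ω Λ : ℕ → Type} {σ : LC.St m κ} {S : Bool → Finset κ}
    {X : ∀ n, Dt m κ (Ω n) (Λ n)} (h : L σ S X) (k : Bool) [Fintype {b // b ∈ S k}] (a : ℚ≥0)
    (K : ℝ) : ∀ᶠ n in UF, ∀ u v w, At (X n) k a u v → At (X n) k a v w → ∀ e : {b // b ∈ S k},
      |N6.co σ (X n) a u w e.1 - bch σ.Φ.N (fun x y z : {b // b ∈ S k} => (X n).c x.1 y.1 z.1)
        (fun x => N6.co σ (X n) a u v x.1) (fun x => N6.co σ (X n) a v w x.1) e| ≤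
        dl (sM X) K n := by
  obtain ⟨L, hL, co⟩ := atom_co h.big h.fr h.lo (h.inc k a)
  have : ∀ n, Nonempty (Ω n) := fun n => (ex_of_pb (P := (X n).P) (E := fun _ => True)
    (by rw [pb_true]; exact one_pos)).elim fun ω _ => ⟨ω⟩
  have g : ∀ u v : ∀ n, Ω n, (∀ᶠ n in UF, At (X n) k a (u n) (v n)) → ∀ b,
      OB (sM X) (fun n => N6.co σ (X n) a (u n) (v n) b) ∧
        (b ∉ S k → Neg (sM X) fun n => N6.co σ (X n) a (u n) (v n) b) := fun u v z b =>
    ⟨fun c hc => by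
      filter_upwards [z, co 0, sub_dl hL hc] with n z y x using ((y _ _ z).2.2.1 b).trans x,
      fun i T => (z.and (co T)).mono fun n y => (y.2 _ _ y.1).2.2.2 b i⟩
  simp only [← and_imp, ← Prod.forall']
  refine unif fun x z => ?_
  filter_upwards [eventually_all.2 fun e => res h.big σ.Φ.N (S k) (c := fun a b e n => (X n).c a b e)
    (ob_c h) (h.sub k) (g _ _ (z.mono fun _ y => y.1)) (g _ _ (z.mono fun _ y => y.2)) e K, z, co 0,
    h.fr] with n y z p q e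
  rw [co_mul q z.1.1 (p _ _ z.1).1 (p _ _ z.2).1]
  exact y e

end Pool.Agent.MP_5168f5_an.AN.N4
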