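import Pool.Agent.MP_5168f5_an.AN.N6Ps

/-! Kakeya sets in all dimensions: the end of the local step, statements and assembly. -/

namespace Pool.Agent.MP_5168f5_an.AN.N6

open H19 H17S H17F G39 Filter H61Z GA GF R4 LC S20 MvPolynomial
open Pk (cn)

section Defs

variable {m : ℕ} {κ : Type} [Fintype κ] [DecidableEq κ] {Ω Λ : ℕ → Type}

/-- No polynomial that is read from the atom is small on the coordinates in `S k`. -/
def IND (σ : St m κ) (S : Bool → Finset κ) (X : ∀ n, Dt m κ (Ω n) (Λ n)) : Prop :=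
  ∀ (k : Bool) (a : ℚ≥0) (E : ℕ) (η : ℝ) (r : ∀ n, Λ n → Ω n)
    (F : ∀ n, Λ n → MvPolynomial {b // b ∈ S k} ℝ), 0 < η → Rp X k a r →
    (∀ n z, (F n z).totalDegree ≤ E) → Whp (sP X) fun n ω =>
      dl (sM X) η n * cn (F n ((X n).O k a ω)) ≤
        |eval (fun b => co σ (X n) a (r n ((X n).O k a ω)) ω b.1) (F n ((X n).O k a ω))|

/-- A member of the class in an adapted basis. -/
structure LA (σ : St m κ) (S : Bool → Finset κ) (L₀ : ℝ) (t : κ → ℝ) (pos : κ → Prop)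
    (Lm : ℕ → κ → Fin m → ℝ) (X : ∀ n, Dt m κ (Ω n) (Λ n)) : Prop where
  l : L σ S X
  ac : AC σ S L₀ X
  one : 1 ≤ L₀
  st : ∀ a, a ∈ S true ↔ t a = σ.wt a
  sf : ∀ a, a ∈ S false ↔ 0 ≤ t a
  ad : Ad6 (Neg (sM X)) (sM X) σ.la σ.o σ.wt t pos (fun n => (X n).B) (fun n => (X n).c) Lm

/-- The same after the outer basis vectors (`t a < 0`) have been made negligibly short. -/
structure LB (σ : St m κ) (S : Bool → Finset κ) (L₀ : ℝ) (t : κ → ℝ) (pos : κ → Prop)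
    (Lm : ℕ → κ → Fin m → ℝ) (X : ∀ n, Dt m κ (Ω n) (Λ n)) : Prop where
  cc : 0 < σ.cc
  lo : σ.la σ.o = 0
  wp : ∀ a, 0 < σ.wt a
  big : Big (sM X)
  lv : ∀ a : ℚ≥0, Eqv (sM X) (fun n => (X n).lv a - (X n).lv 0) fun n => (a : ℝ) * (X n).M
  fr : ∀ᶠ n in UF, (X n).Fr σ
  oB : ∀ a p q, OB (sM X) fun n => (X n).B a p q
  oc : ∀ a b e, OB (sM X) fun n => (X n).c a b e
  nest : ∀ k a a', a ≤ a' → FnE (sP X) (sO X k a) (sO X k a')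
  com : ∀ a, FnE (sP X) (sO X false a) (sO X true a)
  inc : ∀ k a, Al (fun _ Y => Y.Inc σ (S k) k a) X
  crv : ∀ a, Al (fun _ Y => Y.Crv σ a) X
  spr : ∀ a, Al (fun _ Y => Y.Spr σ a) X
  ngv : ∀ a, Al (fun _ Y => Y.Ngv σ a) X
  bg : ∀ E a, Al (fun _ Y => Y.Bg σ E a) X
  gs : ∀ k, k ≠ σ.d + 1 → ∀ E i a, Al (fun _ Y => Y.Gs σ k E i a) X
  ac : AC σ S L₀ X
  one : 1 ≤ L₀
  st : ∀ a, a ∈ S true ↔ t a = σ.wt a
  sf : ∀ a, a ∈ S false ↔ 0 ≤ t a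
  ad : Ad6 (Neg (sM X)) (sM X) σ.la σ.o σ.wt t pos (fun n => (X n).B) (fun n => (X n).c) Lm
  ind : IND σ S X
  dead : ∀ a b e, t a < 0 ∨ t b < 0 → 0 ≤ t e → Neg (sM X) fun n => (X n).c a b e
  stab : ∀ a p, ¬pos a → Neg (sM X) fun n => (X n).B a p σ.o

/-- The polynomial orbit map `Q` and its left inverse `W` on the positions. -/
structure PW (σ : St m κ) (pos : κ → Prop) (X : ∀ n, Dt m κ (Ω n) (Λ n)) (E : ℕ) (L : ℕ → ℝ)
    (W : ℕ → κ → MvPolynomial (Fin m) ℝ) (Q : ℕ → Fin m → MvPolynomial κ ℝ) : Prop where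
  sub : Sub (sM X) L
  bd : ∀ n, (∀ a, (W n a).totalDegree ≤ E ∧ cn (W n a) ≤ L n) ∧
    ∀ p, (Q n p).totalDegree ≤ E ∧ cn (Q n p) ≤ L n
  val : ∀ᶠ n in UF, (∀ s p, eval s (Q n p) = ob (X n).B σ.o s p) ∧
    ∀ s : κ → ℝ, (∀ a, ¬pos a → s a = 0) → ∀ a, eval (ob (X n).B σ.o s) (W n a) = s a

/-- The functions `W (e i)` of the position. -/
noncomputable def wv {q : ℕ} (W : κ → MvPolynomial (Fin m) ℝ) (e : Fin q → κ) (y : V m) : V q :=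
  fun i => eval y (W (e i))

/-- The functions `W a` of the position satisfy no polynomial relation in an atom. -/
def REL (σ : St m κ) (S : Bool → Finset κ) (pos : κ → Prop) (X : ∀ n, Dt m κ (Ω n) (Λ n))
    (W : ℕ → κ → MvPolynomial (Fin m) ℝ) : Prop :=
  ∀ (k : Bool) (a : ℚ≥0) (q E : ℕ) (e : Fin q → κ) (η : ℝ) (r : ∀ n, Λ n → Ω n)
    (H : ∀ n, Λ n → MvPolynomial (Fin q) ℝ), Function.Injective e →
    (∀ i, pos (e i) ∧ e i ∈ S k) → 0 < η → Rp X k a r → (∀ n z, (H n z).totalDegree ≤ E) →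
    Whp (sP X) fun n ω => dl (sM X) η n * cn (H n ((X n).O k a ω)) ≤
      |eval (wv (W n) e ((X n).ps σ a (r n ((X n).O k a ω)) ω)) (H n ((X n).O k a ω))|

/-- They are jointly full in most cells if their number is not the dimension. -/
def GSI (σ : St m κ) (pos : κ → Prop) (X : ∀ n, Dt m κ (Ω n) (Λ n))
    (W : ℕ → κ → MvPolynomial (Fin m) ℝ) : Prop :=
  ∀ (a : ℚ≥0) (q : ℕ) (e : Fin q → κ) (δ h : ℝ) (r : ∀ n, Λ n → Ω n), Function.Injective e →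
    (∀ i, pos (e i)) → q ≠ σ.d + 1 → 0 < δ → 0 < h → Rp X false a r →
    Whp (sP X) fun n ω => ∀ T : Finset (V q), (T.card : ℝ) ≤ Real.exp ((q - δ) * h * (X n).M) →
      pb ((X n).fb false a ω) (fun v => ∃ y ∈ T,
        ‖wv (W n) e ((X n).ps σ a (r n ((X n).O false a ω)) v) - y‖ ≤ dl (sM X) (h + δ) n) ≤ δ

/-- The functions `W b` with `t b = 0` depend only on the coordinates of the same kind. -/
def INV (σ : St m κ) (t : κ → ℝ) (pos : κ → Prop) (X : ∀ n, Dt m κ (Ω n) (Λ n))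
    (W : ℕ → κ → MvPolynomial (Fin m) ℝ) : Prop :=
  ∀ (a : ℚ≥0) (r ε : ℝ), 0 ≤ r → 0 < ε → ∀ᶠ n in UF, ∀ ω v u, At (X n) false a ω v →
    At (X n) false a v u → (∀ b, pos b → t b = 0 → |co σ (X n) a v u b| ≤ dl (sM X) r n) →
    ∀ b, pos b → t b = 0 → |eval ((X n).ps σ a ω u) (W n b) - eval ((X n).ps σ a ω v) (W n b)| ≤
      dl (sM X) (r - ε) n

open Classical in
/-- The weights, zero at the outer indices. -/
noncomputable def wA (wt t : κ → ℝ) (a : κ) : ℝ := if 0 ≤ t a then wt a else 0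

/-- The savings, zero at the outer indices. -/
def tA (t : κ → ℝ) (a : κ) : ℝ := max (t a) 0

/-- The system. -/
noncomputable abbrev sy (σ : St m κ) (X : ∀ n, Dt m κ (Ω n) (Λ n)) (n : ℕ) : TG.Sy (Fin m) κ :=
  ⟨Ω n, Λ n, (X n).P, (X n).j, (X n).O false 0, Bl σ (X n) 0, (X n).c, (X n).M⟩

open Classical in
/-- The deterministic part of a system on the chamber. -/
structure CA {ι κ : Type} [Fintype ι] [DecidableEq ι] [Fintype κ] (Φ : Filt (Mt ι)) (w t : κ → ℝ)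
    (pos : κ → Prop) (y : ℕ → TG.Sy ι κ) : Prop extends TG.G0 Φ (o0 w) pos y where
  tw : ∀ a, 0 ≤ t a ∧ t a ≤ w a
  fil : ∀ a b e, Hm (o0 w) a b e → t e < t a + t b → Neg (TG.un y) fun n => (y n).c a b e
  gen : ∀ e, 0 < t e → t e < w e → ∃ lam : ℕ → κ → κ → ℝ,
    (∀ a b, OB (TG.un y) fun n => lam n a b) ∧ ∀ e', Neg (TG.un y) fun n =>
      ∑ a, ∑ b, lam n a b * GO.cG (o0 w) t (y n).c a b e' - if e' = e then 1 else 0

/-- Good depths. -/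
abbrev Gy (σ : St m κ) (t : κ → ℝ) (X : ∀ n, Dt m κ (Ω n) (Λ n)) (d : κ → ℝ) : Prop :=
  GO.Gd (o0 (wA σ.wt t)) (GO.Ng (sM X) fun n => (X n).c) d

/-- An atom determines the cells that are not deeper. -/
def ATC (σ : St m κ) (S : Bool → Finset κ) (t : κ → ℝ) (X : ∀ n, Dt m κ (Ω n) (Λ n)) : Prop :=
  ∀ (k : Bool) (a : ℚ≥0) (D : ℕ → κ → ℝ) (d : κ → ℝ), Cl (sM X) D d → Gy σ t X d →
    (∀ b ∈ S k, d b ≤ σ.wt b * a) →
    Sm (sM X) fun n => ch (X n).P ((sy σ X n).Z (D n)) ((X n).O k a)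

/-- Two points of an atom in one cell are close. -/
def CEL (σ : St m κ) (t : κ → ℝ) (X : ∀ n, Dt m κ (Ω n) (Λ n)) : Prop :=
  ∀ (k : Bool) (a : ℚ≥0) (d : κ → ℝ) (ε : ℝ), Gy σ t X d → 0 < ε → ∀ᶠ n in UF, ∀ v u,
    At (X n) k a v u → (sy σ X n).C (TG.sc (X n).M d) v = (sy σ X n).C (TG.sc (X n).M d) u →
    ∀ b, |co σ (X n) a v u b| ≤ dl (sM X) (d b - σ.wt b * a - ε) n

/-- Fullness of the pure positions. -/
def FUL (σ : St m κ) (t : κ → ℝ) (pos : κ → Prop) (X : ∀ n, Dt m κ (Ω n) (Λ n)) (k : Bool) :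
    Prop := ∀ (x : ℚ × ℚ) (r : ℚ), 0 ≤ x.1 → x.1 ≤ x.2 → 0 ≤ r →
  Gy σ t X (dep (oN (wA σ.wt t) (tA t)) (x.1, x.2)) →
  Gy σ t X (TG.up (dep (oN (wA σ.wt t) (tA t)) (x.1, x.2)) r
    fun a => pos a ∧ TG.Pu (oN (wA σ.wt t) (tA t)) k a) →
  TG.FullAt (sy σ X) (dep (oN (wA σ.wt t) (tA t)) (x.1, x.2))
    (fun a => pos a ∧ TG.Pu (oN (wA σ.wt t) (tA t)) k a) r

/-- The small ball bound. -/
def ACS (σ : St m κ) (L₀ : ℝ) (t : κ → ℝ) (X : ∀ n, Dt m κ (Ω n) (Λ n)) : Prop :=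
  ∀ (k : Bool) (x : ℚ × ℚ) (D : ℕ → κ → ℝ) (η ρ ε : ℝ), 0 ≤ x.1 → x.1 ≤ x.2 →
    Gy σ t X (dep (oN (wA σ.wt t) (tA t)) (x.1, x.2)) →
    Cl (sM X) D (dep (oN (wA σ.wt t) (tA t)) (x.1, x.2)) → 0 < η → 0 ≤ ρ → 0 < ε → ∀ᶠ n in UF,
      (sy σ X n).AC (D n) (TG.Pu (oN (wA σ.wt t) (tA t)) k) (η * (X n).M) (ρ * (X n).M)
        (L₀ * ρ / η + ε)

end Defs

/-- Polynomial independence. -/
def SInd : Prop := ∀ (m : ℕ) (κ : Type) [Fintype κ] (Ω Λ : ℕ → Type) (σ : St m κ)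
  (S : Bool → Finset κ) (X : ∀ n, Dt m κ (Ω n) (Λ n)) (L₀ : ℝ), 1 ≤ L₀ → L σ S X →
  AC σ S L₀ X → IND σ S X

/-- An admissible change of basis. -/
structure Chg {m : ℕ} {κ : Type} [Fintype κ] [DecidableEq κ] (σ : St m κ) (M : ℕ → ℕ)
    (S S' : Bool → Finset κ) (A A' : ℕ → Matrix κ κ ℝ) : Prop where
  inv : ∀ᶠ n in UF, A n * A' n = 1 ∧ Pat σ.wt 0 (A n) ∧ Pat σ.wt 0 (A' n)
  ob : ∀ a e, OB M (fun n => A n a e) ∧ OB M fun n => A' n a e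
  row : ∀ k a e, a ∈ S' k → e ∉ S k → Neg M fun n => A n a e
  col : ∀ k e a, e ∈ S k → a ∉ S' k → Neg M fun n => A' n e a
  ss : S' true ⊆ S' false

/-- The class is stable under a change of basis. -/
def CHG : Prop := ∀ (m : ℕ) (κ : Type) [Fintype κ] [DecidableEq κ] (Ω Λ : ℕ → Type) (σ : St m κ)
  (S S' : Bool → Finset κ) (X : ∀ n, Dt m κ (Ω n) (Λ n)) (A A' : ℕ → Matrix κ κ ℝ), L σ S X →
  Chg σ (sM X) S S' A A' →
  L σ S' fun n => (X n).bas (mB (A n) (X n).B) (mC (A n) (A' n) (X n).c)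

/-- So is the small ball bound. -/
def CHA : Prop := ∀ (m : ℕ) (κ : Type) [Fintype κ] [DecidableEq κ] (Ω Λ : ℕ → Type) (σ : St m κ)
  (S S' : Bool → Finset κ) (X : ∀ n, Dt m κ (Ω n) (Λ n)) (A A' : ℕ → Matrix κ κ ℝ) (L₀ : ℝ),
  L σ S X → Chg σ (sM X) S S' A A' → 1 ≤ L₀ → AC σ S L₀ X →
  AC σ S' L₀ fun n => (X n).bas (mB (A n) (X n).B) (mC (A n) (A' n) (X n).c)

def PREP : Prop := ∀ (m : ℕ) (κ : Type) [Fintype κ] [DecidableEq κ] (Ω Λ : ℕ → Type) (σ : St m κ)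
  (S : Bool → Finset κ) (X : ∀ n, Dt m κ (Ω n) (Λ n)) (L₀ : ℝ), 1 ≤ L₀ → L σ S X →
  AC σ S L₀ X → ∃ (S' : Bool → Finset κ) (t : κ → ℝ) (pos : κ → Prop) (Lm : ℕ → κ → Fin m → ℝ)
    (X' : ∀ n, Dt m κ (Ω n) (Λ n)), LA σ S' L₀ t pos Lm X'

def OfPREP : Prop := OA1 → SZoom → CHG → CHA → PREP

def RESC : Prop := ∀ (m : ℕ) (κ : Type) [Fintype κ] [DecidableEq κ] (Ω Λ : ℕ → Type) (σ : St m κ)
  (S : Bool → Finset κ) (L₀ : ℝ) (t : κ → ℝ) (pos : κ → Prop) (Lm : ℕ → κ → Fin m → ℝ)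
  (X : ∀ n, Dt m κ (Ω n) (Λ n)), LA σ S L₀ t pos Lm X → IND σ S X →
  ∃ X' : ∀ n, Dt m κ (Ω n) (Λ n), LB σ S L₀ t pos Lm X'

/-- A statement about all members of `LB` with their polynomial data. -/
def AllB (p : ∀ (m : ℕ) (κ : Type) [Fintype κ] [DecidableEq κ] (Ω Λ : ℕ → Type), St m κ →
    (Bool → Finset κ) → ℝ → (κ → ℝ) → (κ → Prop) → (∀ n, Dt m κ (Ω n) (Λ n)) →
    (ℕ → κ → MvPolynomial (Fin m) ℝ) → Prop) : Prop :=
  ∀ (m : ℕ) (κ : Type) [Fintype κ] [DecidableEq κ] (Ω Λ : ℕ → Type) (σ : St m κ)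
    (S : Bool → Finset κ) (L₀ : ℝ) (t : κ → ℝ) (pos : κ → Prop) (Lm : ℕ → κ → Fin m → ℝ)
    (X : ∀ n, Dt m κ (Ω n) (Λ n)) (E : ℕ) (L : ℕ → ℝ) (W : ℕ → κ → MvPolynomial (Fin m) ℝ)
    (Q : ℕ → Fin m → MvPolynomial κ ℝ), LB σ S L₀ t pos Lm X → PW σ pos X E L W Q →
    p m κ Ω Λ σ S L₀ t pos X W

def SRel : Prop := AllB fun _ _ _ _ _ _ σ S _ _ pos X W => REL σ S pos X W

def SGsi : Prop := AllB fun _ _ _ _ _ _ σ S _ _ pos X W => REL σ S pos X W → GSI σ pos X W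

def SInv : Prop := AllB fun _ _ _ _ _ _ σ _ _ t pos X W => INV σ t pos X W

def OfInv : Prop := DEC → SInv

/-- The curve moves. -/
def SC1 : Prop := AllB fun _ _ _ _ _ _ σ _ _ t pos _ _ => ∃ a, pos a ∧ t a = σ.wt a

/-- The curve has dimension at most one. -/
def SC2 : Prop := AllB fun _ _ _ _ _ _ σ S _ t pos X W => REL σ S pos X W →
  ∀ a b, pos a → pos b → t a = σ.wt a → t b = σ.wt b → a = b

/-- The cells are big. -/
def SC3 : Prop := AllB fun _ _ _ _ _ _ σ _ _ _ pos _ _ => (σ.d : ℝ) + 1 ≤ TG.cd pos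

def OfC3 : Prop := DEC → SC3

def SC4 : Prop := AllB fun _ _ _ _ _ _ σ _ _ _ pos X W => GSI σ pos X W → TG.cd pos ≤ σ.d + 1

def SAlg : Prop := AllB fun _ _ _ _ _ _ σ _ _ t pos X _ => CA σ.Φ (wA σ.wt t) (tA t) pos (sy σ X)

def SAtc : Prop := AllB fun _ _ _ _ _ _ σ S _ t pos X _ =>
  CA σ.Φ (wA σ.wt t) (tA t) pos (sy σ X) → ATC σ S t X ∧ CEL σ t X

def SF1 : Prop := AllB fun _ _ _ _ _ _ σ S _ t pos X _ => ATC σ S t X → CEL σ t X →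
  (∀ a b, pos a → pos b → t a = σ.wt a → t b = σ.wt b → a = b) → FUL σ t pos X true

def SF2 : Prop := AllB fun _ _ _ _ _ _ σ S _ t pos X W => ATC σ S t X → CEL σ t X →
  GSI σ pos X W → INV σ t pos X W → TG.cd (fun a => pos a ∧ t a = 0) ≠ σ.d + 1 →
  FUL σ t pos X false

def SAcs : Prop := AllB fun _ _ _ _ _ _ σ S L₀ t pos X _ =>
  CA σ.Φ (wA σ.wt t) (tA t) pos (sy σ X) → ATC σ S t X → ACS σ L₀ t X

def SFin : Prop := AllB fun _ _ _ _ _ _ σ _ _ t pos X _ =>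
  CA σ.Φ (wA σ.wt t) (tA t) pos (sy σ X) → (σ.d : ℝ) + 1 ≤ TG.cd pos → ¬TG.Full pos (sy σ X)

theorem ofEnd (hI : SInd) (hP : PREP) (hR : RESC) (hW : POL) (rel : SRel) (gsi : SGsi)
    (inv : SInv) (c1 : SC1) (c2 : SC2) (c3 : SC3) (c4 : SC4) (alg : SAlg) (atc : SAtc) (f1 : SF1)
    (f2 : SF2) (acs : SAcs) (fin : SFin) (tan : TAN) : LC.SEnd := by
  intro m κ _ Ω Λ σ S X L₀ h1 h2 h3
  classical
  obtain ⟨S, t, pos, Lm, X, a⟩ := hP m κ Ω Λ σ S X L₀ h1 h2 h3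
  obtain ⟨X, b⟩ := hR m κ Ω Λ σ S L₀ t pos Lm X a (hI m κ Ω Λ σ S X L₀ h1 a.l a.ac)
  obtain ⟨E, L, W, Q, w1, w2, w3⟩ := hW κ m (sM X) σ.Φ σ.la σ.o σ.wt pos (fun n => (X n).B)
    (fun n => (X n).c) Lm b.big b.wp ((b.fr.and b.ad.li).mono fun n z => ⟨z.1.1, gr_of z.1, z.2⟩)
    b.oB b.ad.ob
  have w : PW σ pos X E L W Q := ⟨w1, w2, w3⟩
  have rel := rel m κ Ω Λ σ S L₀ t pos Lm X E L W Q b w
  have gsi := gsi m κ Ω Λ σ S L₀ t pos Lm X E L W Q b w rel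
  have ca := alg m κ Ω Λ σ S L₀ t pos Lm X E L W Q b w
  obtain ⟨a1, a2⟩ := atc m κ Ω Λ σ S L₀ t pos Lm X E L W Q b w ca
  obtain ⟨f, p1, p2⟩ := c1 m κ Ω Λ σ S L₀ t pos Lm X E L W Q b w
  have c4 := c4 m κ Ω Λ σ S L₀ t pos Lm X E L W Q b w gsi
  have lt : TG.cd (fun a => pos a ∧ t a = 0) < TG.cd pos := by
    unfold TG.cd
    refine Nat.cast_lt.2 (Finset.card_lt_card ⟨fun a => by simp +contextual, fun z => ?_⟩)
    have := @z f (by simpa using p1)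
    simp only [Finset.mem_filter] at this
    linarith [this.2.2, b.wp f]
  have hA : GO.Ab (o0 (wA σ.wt t)) pos (GO.Ng (sM X) fun n => (X n).c) :=
    ⟨ca.alg.wt, ca.alg.live, ca.alg.hom, ca.alg.sub⟩
  have g : ∀ x : ℚ × ℚ, 0 ≤ x.1 → x.1 ≤ x.2 → Gy σ t X (dep (oN (wA σ.wt t) (tA t)) (x.1, x.2)) :=
    fun x u v => gd1 hA ca.tw ca.fil (Rat.cast_nonneg.2 u) (Rat.cast_le.2 v)
  refine fin m κ Ω Λ σ S L₀ t pos Lm X E L W Q b w ca (c3 m κ Ω Λ σ S L₀ t pos Lm X E L W Q b w)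
    (tan _ κ σ.Φ _ _ pos L₀ _ ⟨ca.toG0, h1, ca.tw, ca.fil, ca.gen, fun k x r u v z i => ?_,
      fun k x D η ρ ε u v => acs m κ Ω Λ σ S L₀ t pos Lm X E L W Q b w ca a1 k x D η ρ ε u v
        (g x u v)⟩)
  have g' : Gy σ t X (TG.up (dep (oN (wA σ.wt t) (tA t)) (x.1, x.2)) r
      fun a => pos a ∧ TG.Pu (oN (wA σ.wt t) (tA t)) k a) := by
    refine ⟨i, fun a => ?_, fun a y => ?_⟩ <;> rw [up_eq, Pi.add_apply]
    · exact add_nonneg ((g x u v).nn a) (GO.ind_nn (Rat.cast_nonneg.2 z) a)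
    · rw [(g x u v).dead a y, GO.ind_neg fun k => hA.live a k.1 y, add_zero]
  cases k
  · exact f2 m κ Ω Λ σ S L₀ t pos Lm X E L W Q b w a1 a2 gsi
      (inv m κ Ω Λ σ S L₀ t pos Lm X E L W Q b w) (lt.trans_le c4).ne x r u v z (g x u v) g'
  · exact f1 m κ Ω Λ σ S L₀ t pos Lm X E L W Q b w a1 a2
      (c2 m κ Ω Λ σ S L₀ t pos Lm X E L W Q b w rel) x r u v z (g x u v) g'

end Pool.Agent.MP_5168f5_an.AN.N6
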