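import Pool.Agent.MP_5168f5_an.AN.TGSpec
import Pool.Agent.MP_5168f5_an.AN.GAAll
import Pool.Agent.MP_5168f5_an.R4.Api

/-! Side data can be coupled through a variable. -/

namespace Pool.Agent.MP_5168f5_an.AN.TG

open H19 H17S H17F R4

theorem tgRec : SRec := by
  intro Ω W β γ δ P Q π b Y Z h
  have hl : Law Q (fun v => (Y (π v), Z (π v))) P fun ω => (Y ω, Z ω) :=
    h.comp fun ω => (Y ω, Z ω)
  have hm : ∀ u ∈ (glue Q P (fun v => (Y (π v), Z (π v))) fun ω => (Y ω, Z ω)).S,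
      u.1 ∈ Q.S ∧ u.2 ∈ P.S ∧ Y u.2 = Y (π u.1) ∧ Z u.2 = Z (π u.1) := fun u hu => by
    obtain ⟨a, b, c⟩ := (kg.mem _ _ _ _ u hl).1 hu
    exact ⟨a, b, Prod.mk.inj c⟩
  refine ⟨kg.snd _ _ _ _ hl, kg.fst _ _ _ _, hm, sub_le_sub ?_ ?_⟩
  · rw [← (kg.fst Q P (fun v => (Y (π v), Z (π v))) fun ω => (Y ω, Z ω)).ch_id b fun v => Z (π v)]
    exact ch_anti fun u hu v hv e => by
      simpa only [(hm u hu).2.2.2, (hm v hv).2.2.2] using e
  · have e := kg.mkv' Q P _ _ b (fun v => Z (π v)) id hl fun a _ b _ e => by rw [show a = b from e]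
    refine le_trans (ch_anti fun a _ b _ e => ?_) (e.symm.le.trans (ch_anti fun a _ b _ e => ?_))
    · simp only [Prod.mk.injEq] at e ⊢; tauto
    · simp only [show a.2 = b.2 from (Prod.mk.inj e).1]

end Pool.Agent.MP_5168f5_an.AN.TG
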