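import Pool.Agent.MP_5168f5_an.AN.S20Dn
import Pool.Agent.MP_5168f5_an.AN.TGRec

/-! Events that are rare in every atom cost information. -/

namespace Pool.Agent.MP_5168f5_an.AN.TG

open H19 H17S H17F G39 S20

variable {W α β γ : Type}

namespace TGAtomA

/-- Tilting a law by a function of `F`. -/
theorem tilt (R R' : FP W) (F : W → α) (X : α → ℝ) (h0 : ∀ x, 0 ≤ X x) :
    R.E (fun u => X (F u) * pb R' (fun w => F w = F u) / pb R fun w => F w = F u) ≤
      R'.E fun w => X (F w) := by
  classical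
  have e : R.E (fun u => X (F u) * pb R' (fun w => F w = F u) / pb R fun w => F w = F u) =
      R'.E fun w => X (F w) * R.E fun u =>
        if F u = F w then 1 / R.pr (Setoid.ker F) u else 0 := by
    have e1 : ∀ u, R.pr (Setoid.ker F) u = pb R fun w => F w = F u := fun u =>
      R.E_congr fun _ _ => by congr
    simp only [e1, ← FP.E_mul]
    rw [KGA.E_swap]
    refine R.E_congr fun u _ => ?_
    rw [pb_ind R', mul_div_right_comm, ← FP.E_mul]
    refine R'.E_congr fun w _ => ?_
    by_cases k : F w = F u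
    · rw [ind_pos k, if_pos k.symm, k]; ring
    · rw [ind_neg k, if_neg (Ne.symm k)]; ring
  rw [e]
  refine R'.E_mono fun w _ => mul_le_of_le_one_right (h0 _) ?_
  refine le_trans (le_of_eq ?_) (R.class_sum (Setoid.ker F) (fun u => F u = F w)
    fun x _ y _ h1 h2 => h1.trans h2.symm)
  exact R.E_congr fun u _ => by by_cases k : F u = F w <;> simp [k]

end TGAtomA

/-- If the event `A g` has probability at most `exp (-h)` in every atom of `K`, then reading
`g` from side data `G` costs information. -/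
theorem atom (Q : FP W) (F : W → α) (G : W → β) (K : W → γ) (A : β → α → Prop) (h : ℝ)
    (hA : ∀ v ∈ Q.S, pb (cv Q K (K v)) (fun u => A (G v) (F u)) ≤ Real.exp (-h)) :
    h * pb Q (fun v => A (G v) (F v)) ≤ mi Q G F K + lg := by
  set X : β → α → ℝ := fun g x => (Real.exp h * ind (A g x) + 1) / 2 with hX
  have X0 : ∀ g x, 0 < X g x := fun g x => by
    have := mul_nonneg (Real.exp_pos h).le (ind_nn (A g x))
    simp only [hX]; linarith
  have k1 : Q.E (fun v => X (G v) (F v) * dn Q F K v / dn Q F (fun u => (G u, K u)) v) ≤ 1 := by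
    have := KEA.exp Q (fun u => (G u, K u)) fun z v => X z.1 (F v) *
      pb (cv Q K z.2) (fun w => F w = F v) / pb (cv Q (fun u => (G u, K u)) z) fun w => F w = F v
    refine this.trans_le ((Q.E_mono fun v hv => ?_).trans (Q.E_const 1).le)
    refine (TGAtomA.tilt _ _ F (X (G v)) fun x => (X0 _ x).le).trans ?_
    have e : (cv Q K (K v)).E (fun w => X (G v) (F w)) =
        (Real.exp h * pb (cv Q K (K v)) (fun u => A (G v) (F u)) + 1) / 2 := by
      rw [pb_ind, ← FP.E_mul, ← (cv Q K (K v)).E_const 1, ← FP.E_add, div_eq_inv_mul, ← FP.E_mul]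
      exact FP.E_congr _ fun w _ => by simp only [hX]; ring
    have := mul_le_mul_of_nonneg_left (hA v hv) (Real.exp_pos h).le
    rw [← Real.exp_add, add_neg_cancel, Real.exp_zero] at this
    rw [e]; linarith
  have k2 : Q.E (fun v => h * ind (A (G v) (F v)) - lg - (-Real.log (dn Q F K v) -
      -Real.log (dn Q F (fun u => (G u, K u)) v))) ≤
      Q.E fun v => X (G v) (F v) * dn Q F K v / dn Q F (fun u => (G u, K u)) v - 1 := by
    refine Q.E_mono fun v hv => ?_
    have a := dn_pos hv F K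
    have b := dn_pos hv F fun u => (G u, K u)
    have c := Real.log_le_sub_one_of_pos (div_pos (mul_pos (X0 (G v) (F v)) a) b)
    rw [Real.log_div (mul_pos (X0 _ _) a).ne' b.ne', Real.log_mul (X0 _ _).ne' a.ne'] at c
    have d : h * ind (A (G v) (F v)) - lg ≤ Real.log (X (G v) (F v)) := by
      rw [Real.le_log_iff_exp_le (X0 _ _), Real.exp_sub, H17S.lg, Real.exp_log two_pos]
      by_cases k : A (G v) (F v)
      · simp only [hX, ind_pos k, mul_one]; linarith
      · simp only [hX, ind_neg k, mul_zero, Real.exp_zero, zero_add, le_refl]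
    linarith
  rw [FP.E_sub, FP.E_sub, FP.E_sub, FP.E_sub, FP.E_const, FP.E_const, FP.E_mul, ← pb_ind,
    ← ch_dn, ← ch_dn] at k2
  rw [mi_symm]
  unfold mi
  linarith

/-- The small ball bound in the atoms of a variable `O` that almost determines the cell and the
context gives the bound in the information form. -/
theorem ac_atom {ι κ Λ : Type} [Fintype ι] [DecidableEq ι] [Fintype κ] (x : Sy ι κ) (D : κ → ℝ)
    (S : κ → Prop) (η ρ h δ : ℝ) (O : x.Ω → Λ) (h0 : 0 < h) (hO : ch x.P (x.Z D) O ≤ δ)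
    (hA : ∀ ω ∈ x.P.S, ∀ (l : κ → ℝ) (c0 : ℝ), Tst x.c (rA D) S (Real.exp (-η)) l →
      pb (cv x.P O (O ω)) (fun v => |∑ a, l a * x.co D (x.C D ω) v a - c0| ≤ Real.exp (-η)) ≤
        Real.exp (-h)) : x.AC D S η ρ ((ρ + δ + lg) / h) := by
  intro W β Q π b l c0 hL hT hm
  obtain ⟨r1, r2, r3, r4⟩ := tgRec x.Ω W β _ _ x.P Q π b x.j (x.Z D) hL
  set Q' := glue Q x.P (fun v => (x.j (π v), x.Z D (π v))) fun ω => (x.j ω, x.Z D ω)
  have k := atom Q' Prod.snd (fun u => (b u.1, x.C D u.2)) (fun u => O u.2)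
    (fun g ω => |∑ a, l g.1 a * x.co D g.2 ω a - c0 g.1| ≤ Real.exp (-η)) h fun u hu => by
      have e := (KEA.law Q' x.P Prod.snd id (fun ω => O ω = O u.2) r1).pb_eq
        fun ω => |∑ a, l (b u.1) a * x.co D (x.C D u.2) ω a - c0 (b u.1)| ≤ Real.exp (-η)
      exact e.trans_le (hA _ (r3 u hu).2.1 _ _ (hT _ (r3 u hu).1))
  have e1 := r2.pb_eq fun v => |∑ a, l (b v) a * x.co D (x.C D (π v)) (π v) a - c0 (b v)| ≤
    Real.exp (-η)
  have e2 : pb Q' (fun u => |∑ a, l (b u.1) a * x.co D (x.C D u.2) u.2 a - c0 (b u.1)| ≤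
      Real.exp (-η)) = pb Q' fun u => |∑ a, l (b u.1) a * x.co D (x.C D (π u.1)) (π u.1) a -
        c0 (b u.1)| ≤ Real.exp (-η) :=
    pb_congr fun u hu => by simp only [Sy.co, Sy.C, (r3 u hu).2.2.1]
  have a1 := ch_tri' (P := Q') (fun u => (b u.1, x.C D u.2)) (fun u => O u.2) fun u => x.Z D u.2
  have a2 : ch Q' (fun u => (b u.1, x.C D u.2)) (fun u => x.Z D u.2) ≤
      ch Q' (fun u => b u.1) fun u => x.Z D u.2 :=
    ch_mono fun _ _ _ _ e => Prod.ext (congrArg (·.1) e) (congrArg (·.2.1) e)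
  have a3 : ch Q' (fun u => b u.1) (fun u => (u.2, x.Z D u.2)) ≤
      ch Q' (fun u => (b u.1, x.C D u.2)) fun u => (u.2, O u.2) :=
    ch_le (fun _ _ _ _ e => congrArg (·.1.1) e) fun _ _ _ _ e => by
      have : _ = _ := congrArg (·.1) e
      simp only at this
      rw [this]
  have a4 := r1.ch_id (x.Z D) O
  rw [le_div_iff₀ h0, mul_comm]
  simp only [id] at e1
  rw [← e1, ← e2]
  unfold mi at k r4 hm
  linarith

end Pool.Agent.MP_5168f5_an.AN.TG
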