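import Pool.Agent.MP_5168f5_an.AN.N4Law
import Pool.Agent.MP_5168f5_an.AN.N6Spec2
import Pool.Agent.MP_5168f5_an.AN.TGAtom
import Pool.Agent.MP_5168f5_an.AN.N4St

/-! Kakeya sets in all dimensions: polynomial independence in the light class. -/

namespace Pool.Agent.MP_5168f5_an.AN.N4

open H19 H17S H17F G39 Filter GA R4 LC N6 MvPolynomial
open Pk (cn)

variable {m : ℕ} {κ : Type} [Fintype κ] {Ω Λ : ℕ → Type}

/-- The group law on the coordinates in `S k`. -/
def StepL (σ : St m κ) (S : Bool → Finset κ) (X : ∀ n, Dt m κ (Ω n) (Λ n)) : Prop :=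
  ∀ (k : Bool) (a : ℚ≥0) (K : ℝ), ∀ᶠ n in UF, ∀ u v w, At (X n) k a u v → At (X n) k a v w →
    ∀ e : {b // b ∈ S k}, |co σ (X n) a u w e.1 - bch σ.Φ.N
      (fun x y z : {b // b ∈ S k} => (X n).c x.1 y.1 z.1) (fun x => co σ (X n) a u v x.1)
      (fun x => co σ (X n) a v w x.1) e| ≤ dl (sM X) K n

/-- The filtration of the atoms of `O k`. -/
noncomputable def dat (σ : St m κ) (T : Finset κ) (X : ∀ n, Dt m κ (Ω n) (Λ n)) (k : Bool)
    (r : ℚ≥0 → ∀ n, Λ n → Ω n) : Dat {b // b ∈ T} where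
  Ω := Ω
  α := Λ
  Λ := ℚ≥0
  K := ℚ≥0
  P := sP X
  M := sM X
  v := fun s => s
  sh := fun x s => x + s
  ok := fun _ => True
  O := fun x n => (X n).O k x
  t := fun x n ω b => co σ (X n) x (r x n ((X n).O k x ω)) ω b.1
  c := fun n x y z => (X n).c x.1 y.1 z.1
  m := fun n => mp σ.Φ.N fun x y z : {b // b ∈ T} => (X n).c x.1 y.1 z.1

variable {σ : St m κ} {S : Bool → Finset κ} {X : ∀ n, Dt m κ (Ω n) (Λ n)} {k : Bool}
  {r : ℚ≥0 → ∀ n, Λ n → Ω n}

theorem fil_dat (h : L σ S X) (hs : StepL σ S X) (hr : ∀ a, Rp X k a (r a)) :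
    Fil (dat σ (S k) X k r) fun b => σ.wt b.1 := by
  refine ⟨h.big, fun a b h0 hab => ?_, fun _ _ _ _ => trivial, h.fr.mono fun n f => lw_mp _
    (fun a b e => (sMul _ _ _ _ _ f.1).anti _ _ _) fun a b e => (gr_of f).hc _ _ _,
    ob_mp h.big _ fun a b e => ob_c h _ _ _, fun (x : ℚ≥0) (s : ℚ≥0) _ _ => Le.of_ev
      ((h.nest k x (x + s) le_self_add).mono fun n f => (ch_zero f).le), ?_⟩
  · obtain ⟨q, q1, q2⟩ := exists_rat_btwn hab
    have q0 : 0 ≤ q := by exact_mod_cast (h0.trans q1).le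
    have e : (((⟨q, q0⟩ : ℚ≥0) : ℚ≥0) : ℝ) = q := (Rat.cast_nnratCast _).symm
    exact ⟨⟨q, q0⟩, q1.trans_eq e.symm, e.trans_lt q2⟩
  intro (x : ℚ≥0) (s : ℚ≥0) _ (s0 : (0 : ℝ) < s) θ K hθ
  refine ⟨fun n => (X n).lv (x + s) - (X n).lv x,
    fun n z z' b => co σ (X n) x (r x n z) (r (x + s) n z') b.1, ?_, Whp.of_ev ?_⟩
  · have e : 0 < (s : ℝ) / 4 := by positivity
    filter_upwards [(h.lv x).1 _ e, (h.lv x).2 _ e, (h.lv (x + s)).1 _ e, (h.lv (x + s)).2 _ e]
      with n a b c d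
    rw [NNRat.cast_add] at c d
    exact ⟨show (s : ℝ) / 2 * (X n).M ≤ _ by linarith, show _ ≤ 3 * (s : ℝ) / 2 * (X n).M by linarith⟩
  · obtain ⟨L1, s1, b1⟩ := atom_co h.big h.fr h.lo (h.inc k x)
    obtain ⟨L2, s2, b2⟩ := atom_co h.big h.fr h.lo (h.inc k (x + s))
    filter_upwards [b1 0, b2 0, sub_dl s1 hθ, sub_dl s2 hθ, hr x, hr (x + s), hs k x K,
      h.nest k x (x + s) le_self_add] with n b1 b2 c1 c2 r1 r2 st ne ω hω e
    have a1 : At (X n) k x (r x n ((X n).O k x ω)) ω := ⟨(r1 ω hω).1, hω, (r1 ω hω).2⟩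
    have a2 : At (X n) k (x + s) (r (x + s) n ((X n).O k (x + s) ω)) ω :=
      ⟨(r2 ω hω).1, hω, (r2 ω hω).2⟩
    have a3 : At (X n) k x (r (x + s) n ((X n).O k (x + s) ω)) ω :=
      ⟨a2.1, hω, ne _ a2.1 _ hω a2.2.2⟩
    refine ⟨⟨((b1 _ _ a1).2.2.1 _).trans c1, ((b1 _ _ (a1.trans a3.symm)).2.2.1 _).trans c1,
      ((b2 _ _ a2).2.2.1 _).trans c2⟩, le_trans (le_of_eq ?_) (st _ _ _ (a1.trans a3.symm) a3 e)⟩
    simp only [dat, eval_mp]
    congr 3
    funext b
    simp only [N6.co]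
    rw [← mul_assoc, ← Real.exp_add]
    congr 2
    ring

open Classical in
theorem ac1_dat {L₀ : ℝ} (h0 : 1 ≤ L₀) (h : L σ S X) (hA : LC.AC σ S L₀ X)
    (hr : ∀ a, Rp X k a (r a)) : AC1 (dat σ (S k) X k r) (2 * L₀) := by
  intro (x : ℚ≥0) η ρ ε _ hη hρ hε
  have p0 : 0 < min (1 / η) (η / (2 * L₀)) := by positivity
  filter_upwards [hA k x _ p0, hr x, h.big.ev (2 * L₀ * lg / (η * ε) + 1)] with n a1 r1 b1
  intro (W : Type) Q (π : W → Ω n) β hL hI
  have lg0 : 0 < lg := Real.log_pos one_lt_two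
  have m0 : (0 : ℝ) < (X n).M := lt_of_lt_of_le (by positivity) b1
  have sx : ∀ (u : {b // b ∈ S k} → ℝ) (F : κ → ℝ → ℝ), (∀ b, F b 0 = 0) →
      ∑ b, F b (if e : b ∈ S k then u ⟨b, e⟩ else 0) = ∑ b : {b // b ∈ S k}, F b.1 (u b) :=
    fun u F F0 => by
      rw [← Finset.sum_subset (Finset.subset_univ (S k)) fun b _ hb => by rw [dif_neg hb, F0],
        ← Finset.sum_coe_sort (S k)]
      exact Finset.sum_congr rfl fun b _ => by rw [dif_pos b.2]
  have key := TG.atom Q π β (fun v => (X n).O k x (π v)) (fun g ω =>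
    L1 ((dat σ (S k) X k r).c n) (dl (sM X) η n) g ((dat σ (S k) X k r).t x n ω))
    (η * (X n).M / (2 * L₀)) fun v hv => by
      have hω := hL.mem hv
      obtain ⟨w1, w2⟩ := r1 _ hω
      refine ((KEA.law Q (X n).P π id (fun ω => (X n).O k x ω = (X n).O k x (π v)) hL).pb_eq
        fun ω => L1 ((dat σ (S k) X k r).c n) (dl (sM X) η n) (β v)
          ((dat σ (S k) X k r).t x n ω)).trans_le ?_
      by_cases g : ‖(β v).1‖ = 1 ∧ ∀ a b : {b // b ∈ S k},
          |∑ e : {b // b ∈ S k}, (X n).c a.1 b.1 e.1 * (β v).1 e| ≤ dl (sM X) η n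
      swap
      · exact (pb_zero fun u _ e => g ⟨e.1, e.2.1⟩).le.trans (Real.exp_pos _).le
      set s := ∑ b, |(β v).1 b| with hs
      have s1 : 1 ≤ s := g.1.symm.le.trans ((pi_norm_le_iff_of_nonneg
        (Finset.sum_nonneg fun b _ => abs_nonneg _)).2 fun b =>
          Finset.single_le_sum (f := fun b => |(β v).1 b|) (fun _ _ => abs_nonneg _) (Finset.mem_univ b))
      have s0 : 0 < s := by linarith
      have dv : ∀ z : ℝ, |z| ≤ dl (sM X) η n → |z / s| ≤ Real.exp (-(η * (X n).M)) := fun z hz => by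
        rw [abs_div, abs_of_pos s0]
        exact (div_le_self (abs_nonneg _) s1).trans hz
      have k1 := a1 _ w1 (η * (X n).M) (by
          rw [le_div_iff₀ p0]
          have := mul_le_mul_of_nonneg_left (min_le_left (1 / η) (η / (2 * L₀)))
            (by positivity : 0 ≤ η * (X n).M)
          rwa [show η * (X n).M * (1 / η) = (X n).M by field_simp] at this)
        (fun b => if e : b ∈ S k then (β v).1 ⟨b, e⟩ / s else 0) ((β v).2 / s)
        (fun b hb => dif_neg hb) (by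
          rw [sx (fun b => (β v).1 b / s) (fun _ y => |y|) fun _ => abs_zero]
          simp only [abs_div, abs_of_pos s0]
          rw [← Finset.sum_div, div_self s0.ne'])
        fun b hb b' hb' => by
          rw [sx (fun b => (β v).1 b / s) (fun e y => y * (X n).c b b' e) fun _ => zero_mul _]
          refine le_trans (le_of_eq ?_) (dv _ (g.2 ⟨b, hb⟩ ⟨b', hb'⟩))
          rw [Finset.sum_div]
          exact congrArg _ (Finset.sum_congr rfl fun e _ => by ring)
      rw [Dt.fb, w2] at k1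
      refine (pb_mono fun u hu e => ?_).trans (k1.trans (Real.exp_le_exp.2 ?_))
      · have e1 : (X n).O k x u = (X n).O k x (π v) := ((S20.mem_cv hω u).1 hu).2
        have e2 := dv _ e.2.2
        rw [sx (fun b => (β v).1 b / s) (fun b y => y * (Real.exp (σ.wt b * (X n).lv x) *
          lg (X n).B ((X n).j (r x n ((X n).O k x (π v)))) ((X n).j u) b)) fun _ => zero_mul _]
        refine le_trans (le_of_eq ?_) e2
        simp only [dat, id, N6.co, e1, sub_div, Finset.sum_div]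
        exact congrArg (fun y => |y - _|) (Finset.sum_congr rfl fun e _ => by ring)
      · have := mul_le_mul_of_nonneg_right (min_le_right (1 / η) (η / (2 * L₀))) m0.le
        have e : η * (X n).M / L₀ = 2 * (η * (X n).M / (2 * L₀)) := by field_simp
        have e' : η / (2 * L₀) * (X n).M = η * (X n).M / (2 * L₀) := by ring
        linarith
  have k2 := key.trans (add_le_add hI le_rfl)
  rw [← le_div_iff₀' (by positivity)] at k2
  refine k2.trans ?_
  rw [div_le_iff₀ (by positivity)]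
  have k3 : 2 * L₀ * H17S.lg ≤ (X n).M * (η * ε) := (div_le_iff₀ (by positivity)).1 (by linarith)
  have k4 : (2 * L₀ * ρ / η + ε) * (η * (X n).M / (2 * L₀)) =
      ρ * (X n).M + (X n).M * (η * ε) / (2 * L₀) := by field_simp
  have k5 : H17S.lg ≤ (X n).M * (η * ε) / (2 * L₀) := by rw [le_div_iff₀ (by positivity)]; linarith
  exact (add_le_add le_rfl k5).trans k4.symm.le

theorem ind_of {L₀ : ℝ} (h0 : 1 ≤ L₀) (h : L σ S X) (hA : LC.AC σ S L₀ X) (hs : StepL σ S X) :
    IND σ S X := by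
  classical
  intro k a E η r0 F hη hr0 hF ε hε
  choose r1 hr1 using ex_rp X k
  have hr : ∀ x, Rp X k x ((fun x => if x = a then r0 else r1 x) x) := fun x => by
    by_cases e : x = a
    · simpa [e] using hr0
    · simpa [e] using hr1 x
  obtain ⟨C, hC, k1⟩ := n4 (la := fun b : {b // b ∈ S k} => σ.wt b.1) (fun b => h.wp b.1) E
    (by linarith : 0 ≤ 2 * L₀)
  filter_upwards [k1 _ (fil_dat h hs hr) (ac1_dat h0 h hA hr) a η (ε / 2 * η / (C + 1)) (ε / 2)
    trivial hη (by positivity) (by positivity)] with n k2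
  have k3 := k2 (Ω n) (X n).P id (fun ω => F n ((X n).O k a ω)) (Law.rfl _) ((mi_le _ _ _).trans
    ((ch_zero fun u _ v _ e => congrArg (F n) e).le.trans (by positivity)))
  refine (pb_mono fun ω _ e => ?_).trans (k3.trans ?_)
  · exact ⟨hF _ _, by simpa [dat] using e⟩
  · have : C * (ε / 2 * η / (C + 1)) / η = ε / 2 * (C / (C + 1)) := by field_simp
    have k4 : C / (C + 1) ≤ 1 := div_le_one_of_le₀ (by linarith) (by linarith)
    nlinarith

/-- Polynomial independence in the light class. -/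
theorem sInd : SInd := fun _ _ _ _ _ _ _ _ _ h0 h hA =>
  ind_of h0 h hA fun k a K => stepL h k a K

end Pool.Agent.MP_5168f5_an.AN.N4
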