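import Pool.Agent.MP_5168f5_an.AN.AllI
import Pool.Agent.MP_5168f5_an.AN.N4L

/-! Kakeya sets in all dimensions: the entropy theorem. -/

namespace Pool.Agent.MP_5168f5_an.AN

theorem mu0 (N : ℕ) : R4.Mu0 N := mu0_ind N4.sInd N

end Pool.Agent.MP_5168f5_an.AN
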