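import Pool.Agent.MP_5168f5_an.AN.SpecE
import Pool.Agent.MP_5168f5_an.AN.PAll
import Pool.Agent.MP_5168f5_an.H83.AREA
import Pool.Agent.MP_5168f5_an.H83.JL

/-! Few directions have a tube with bounded values and a large Jacobian. -/

namespace Pool.Agent.MP_5168f5_an.AN.En

open H19 H17S H17F MvPolynomial Pk MeasureTheory

namespace EDirA

variable {N : ℕ}

/-- A slice of at most average volume. -/
theorem slice {B : Set (V (N + 1))} (hB : MeasurableSet B) (a : ℝ) {τ : ℝ} (hτ : 0 < τ) :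
    ∃ t, a ≤ t ∧ t ≤ a + τ ∧
      volume {z : V N | H83.pt t z ∈ B} ≤ volume B / ENNReal.ofReal τ := by
  have hm : MeasurableSet {p : ℝ × V N | H83.pt p.1 p.2 ∈ B} := H83.continuous_pt.measurable hB
  have h4 := (volume_preserving_piFinSuccAbove (fun _ : Fin (N + 1) => ℝ) 0).measure_preimage
    hm.nullMeasurableSet
  have h5 : volume B = ∫⁻ t, volume {z : V N | H83.pt t z ∈ B} := by
    rw [Measure.volume_eq_prod, Measure.prod_apply hm] at h4
    refine Eq.trans ?_ h4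
    congr 1
    ext z
    simp [H83.pt, MeasurableEquiv.piFinSuccAbove_apply]
  have h6 : volume (Set.Icc a (a + τ)) = ENNReal.ofReal τ := by
    rw [Real.volume_Icc, add_sub_cancel_left]
  obtain ⟨t, ht, h⟩ := exists_le_setLAverage (μ := volume) (s := Set.Icc a (a + τ))
    (f := fun t => volume {z : V N | H83.pt t z ∈ B})
    (by rw [h6]; exact (ENNReal.ofReal_pos.2 hτ).ne') (by rw [h6]; exact ENNReal.ofReal_ne_top)
    (measurable_measure_prodMk_left hm).aemeasurable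
  refine ⟨t, ht.1, ht.2, h.trans ?_⟩
  rw [setLAverage_eq, h6, h5]
  exact ENNReal.div_le_div_right (setLIntegral_le_lintegral _ _) _

/-- The cells that lie in a set of small volume. -/
theorem cells (j : ℕ) {U : Set (V N)} {W : ℝ} (hW : 0 ≤ W) (hU : volume U ≤ ENNReal.ofReal W) :
    ∃ T : Finset (Z N), (T.card : ℝ) ≤ W * (2 ^ j) ^ N ∧
      ∀ e : V N, ‖e‖ ≤ 1 → (∀ e', fl j e' = fl j e → e' ∈ U) → fl j e ∈ T := by
  classical
  have p2 : (0 : ℝ) < 2 ^ j := by positivity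
  have cell : ∀ z : Z N, fl j ⁻¹' {z} =
      Set.pi Set.univ fun i => Set.Ico ((z i : ℝ) / 2 ^ j) ((z i + 1) / 2 ^ j) := by
    intro z
    ext e
    simp only [Set.mem_preimage, Set.mem_singleton_iff, Set.mem_pi, Set.mem_univ, true_imp_iff,
      Set.mem_Ico, funext_iff, fl, Int.floor_eq_iff, div_le_iff₀ p2, lt_div_iff₀ p2, mul_comm]
  refine ⟨(Fintype.piFinset fun _ : Fin N => Finset.Icc (-(2 : ℤ) ^ j) (2 ^ j)).filter
    fun z => ∀ e', fl j e' = z → e' ∈ U, ?_, fun e he h => Finset.mem_filter.2 ⟨?_, h⟩⟩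
  · generalize hT : ((Fintype.piFinset fun _ : Fin N => Finset.Icc (-(2 : ℤ) ^ j) (2 ^ j)).filter
      fun z => ∀ e', fl j e' = z → e' ∈ U) = T
    have h1 := sum_measure_preimage_singleton (μ := volume) T (f := fl (N := N) j) fun z _ => by
      rw [cell]
      exact MeasurableSet.univ_pi fun _ => measurableSet_Ico
    have h2 : volume (fl j ⁻¹' (T : Set (Z N))) ≤ ENNReal.ofReal W := by
      refine (measure_mono fun e he => ?_).trans hU
      have : fl j e ∈ T := he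
      rw [← hT] at this
      exact (Finset.mem_filter.1 this).2 e rfl
    have h3 : ∀ z : Z N, volume (fl j ⁻¹' {z}) = ENNReal.ofReal ((1 / 2 ^ j) ^ N) := fun z => by
      rw [cell, Real.volume_pi_Ico, ENNReal.ofReal_pow (by positivity)]
      simp only [← sub_div, add_sub_cancel_left, Finset.prod_const, Finset.card_univ,
        Fintype.card_fin]
    simp only [h3, Finset.sum_const, nsmul_eq_mul] at h1
    rw [← h1, ← ENNReal.ofReal_natCast, ← ENNReal.ofReal_mul (Nat.cast_nonneg _),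
      ENNReal.ofReal_le_ofReal_iff hW, one_div, inv_pow, ← div_eq_mul_inv,
      div_le_iff₀ (by positivity)] at h2
    exact h2
  · refine Fintype.mem_piFinset.2 fun i => Finset.mem_Icc.2 ?_
    have h1 := abs_le.1 ((norm_le_pi_norm e i).trans he)
    refine ⟨Int.le_floor.2 ?_, Int.floor_le_iff.2 ?_⟩
    · push_cast
      nlinarith [h1.1]
    · push_cast
      nlinarith [h1.2]

/-- Many nodes where a polynomial is not small. -/
theorem good {d Q n : ℕ} (q : Polynomial ℝ) (hq : q.natDegree ≤ d) (hQ : d + n ≤ Q)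
    (t : Fin Q → ℝ) {τ y : ℝ} (hτ : 0 < τ) (h1 : ∀ i, |t i - y| ≤ 1)
    (h2 : ∀ i i', i ≠ i' → τ ≤ |t i - t i'|) :
    ∃ σ : Fin n → Fin Q, Function.Injective σ ∧
      ∀ i, (τ / 2) ^ d * |q.eval y| ≤ (d + 1) * |q.eval (t (σ i))| := by
  classical
  obtain ⟨T, hT, h⟩ := pLag.cov q d y 1 (τ / 2) hq (half_pos hτ)
  obtain ⟨G, hG⟩ : ∃ G : Finset (Fin Q), ∀ i, i ∈ G ↔
      (τ / 2) ^ d * |q.eval y| ≤ (d + 1) * |q.eval (t i)| :=
    ⟨Finset.univ.filter _, fun i => Finset.mem_filter.trans (and_iff_right (Finset.mem_univ _))⟩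
  have h3 : ∀ i ∈ Gᶜ, ∃ c ∈ T, |t i - c| < τ / 2 := fun i hi => h _ (h1 i) (by
    rw [one_pow, mul_one]
    exact not_le.1 fun k => Finset.mem_compl.1 hi ((hG i).2 k))
  choose! c c1 c2 using h3
  have h4 : Gᶜ.card ≤ T.card := Finset.card_le_card_of_injOn c c1 fun i hi i' hi' e => by
    by_contra k
    have k1 := abs_lt.1 (c2 i hi)
    have k2 := abs_lt.1 (c2 i' hi')
    rw [e] at k1
    exact (h2 i i' k).not_gt (abs_lt.2 ⟨by linarith [k1.1, k2.2], by linarith [k1.2, k2.1]⟩)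
  have h5 : n ≤ G.card := by
    have := Finset.card_add_card_compl G
    rw [Fintype.card_fin] at this
    omega
  exact ⟨G.orderEmbOfCardLe h5, (G.orderEmbOfCardLe h5).injective,
    fun i => (hG _).1 (G.orderEmbOfCardLe_mem h5 i)⟩

/-- The volume of a set on which the values are bounded and the Jacobian is large. -/
theorem area_le (n D : ℕ) : ∃ M : ℕ, ∀ (Φ : Fin n → MvPolynomial (Fin n) ℝ) (s : Set (V n))
    (Λ κ : ℝ), (∀ i, (Φ i).totalDegree ≤ D) → MeasurableSet s → 0 ≤ Λ → 0 < κ →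
    (∀ x ∈ s, κ ≤ |(dm Φ x).det| ∧ ∀ i, |eval x (Φ i)| ≤ Λ) →
    volume s ≤ ENNReal.ofReal (M * (2 * Λ) ^ n / κ) := by
  obtain ⟨M, hM⟩ := H83.area n D
  refine ⟨M, fun Φ s Λ κ hD hs hΛ hκ h => ?_⟩
  have h1 := hM (fun k x => eval x (Φ k)) (fun _ => 1)
    (fun x => LinearMap.toContinuousLinearMap (Matrix.toLin' (dm Φ x))) s (Metric.closedBall 0 Λ)
    (fun k => ⟨Φ k, hD k, fun _ => rfl⟩) (H83.IsPoly.const D 1) hs Metric.isClosed_closedBall.measurableSet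
    fun x hx => ⟨one_ne_zero, ?_, ?_⟩
  · simp only [LinearMap.det_toContinuousLinearMap, LinearMap.det_toLin'] at h1
    rw [Real.volume_pi_closedBall _ hΛ, Fintype.card_fin] at h1
    have h2 : ENNReal.ofReal κ * volume s ≤ _ := (setLIntegral_const s _).ge.trans
      ((setLIntegral_mono' hs fun x hx => ENNReal.ofReal_le_ofReal (h x hx).1).trans h1)
    rw [ENNReal.ofReal_div_of_pos hκ, ENNReal.ofReal_mul (Nat.cast_nonneg _),
      ENNReal.ofReal_natCast, ENNReal.le_div_iff_mul_le (Or.inl (ENNReal.ofReal_pos.2 hκ).ne')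
      (Or.inl ENNReal.ofReal_ne_top), mul_comm]
    exact h2
  · simp only [div_one]
    refine hasFDerivAt_pi'.2 fun k => (H83.IsPoly.hasFDerivAt_eval (Φ k) x).congr_fderiv ?_
    ext v
    simp [dm, Matrix.mulVec, dotProduct]
  · simp only [div_one, mem_closedBall_zero_iff]
    exact (pi_norm_le_iff_of_nonneg hΛ).2 (h x hx).2

theorem isPoly_det {n D : ℕ} {Φ : Fin n → MvPolynomial (Fin n) ℝ}
    (hD : ∀ i, (Φ i).totalDegree ≤ D) : H83.IsPoly (n * D) fun x => (dm Φ x).det := by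
  have h : ∀ σ : Equiv.Perm (Fin n), H83.IsPoly (n * D) fun x => ∏ i, dm Φ x (σ i) i := fun σ => by
    have := H83.IsPoly.prod Finset.univ (d := fun _ => D) (f := fun i x => dm Φ x (σ i) i)
      fun i _ => ⟨_, (H83.IsPoly.totalDegree_pderiv_le _ i).trans (hD (σ i)), fun _ => rfl⟩
    simpa using this
  exact (H83.IsPoly.sum Finset.univ fun σ _ =>
    (h σ).const_mul ((Equiv.Perm.sign σ : ℤ) : ℝ)).congr fun x => Matrix.det_apply' _

/-- The directions of the lines that pass through many slices. -/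
theorem dirs (N E k Q : ℕ) : ∃ C : ℝ, 0 < C ∧ ∀ (P : Fin k → V (N + 1) → ℝ) (t : Fin Q → ℝ)
    (τ R W : ℝ), (∀ l, H83.IsPoly E (P l)) → 0 < τ → 0 ≤ W →
    (∀ i i', i ≠ i' → τ ≤ |t i - t i'|) →
    (∀ s z, (∀ l, 0 < P l (H83.pt s z)) → ‖z‖ ≤ R) →
    (∀ i, volume {z : V N | ∀ l, 0 < P l (H83.pt (t i) z)} ≤ ENNReal.ofReal W) →
    volume {v : V N | ∃ σ : Fin (N + 1) → Fin Q, Function.Injective σ ∧ ∃ a : V N,
      ∀ i l, 0 < P l (H83.pt (t (σ i)) (a + t (σ i) • v))} ≤ ENNReal.ofReal (C / τ ^ N * W) := by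
  classical
  obtain ⟨C, C0, hC⟩ := H83.jl H83.area N E k
  refine ⟨((Q : ℝ) ^ (N + 1) + 1) * ((N + 1 : ℕ) * C), by positivity,
    fun P t τ R W hP hτ hW ht hR hv => ?_⟩
  have h1 : ∀ σ : Fin (N + 1) → Fin Q, volume {v : V N | Function.Injective σ ∧ ∃ a : V N,
      ∀ i l, 0 < P l (H83.pt (t (σ i)) (a + t (σ i) • v))} ≤
      ENNReal.ofReal (C / τ ^ N * ((N + 1 : ℕ) * W)) := fun σ => by
    by_cases hσ : Function.Injective σ
    · simp only [hσ, true_and]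
      refine (hC (fun i l z => P l (H83.pt (t (σ i)) z)) (fun i => t (σ i)) τ R
        (fun i l => (hP l).comp_aff (H83.isPoly_pt _)) hτ (fun i i' h => ht _ _ (hσ.ne h))
        (hR _)).trans ?_
      rw [ENNReal.ofReal_mul (by positivity), ENNReal.ofReal_mul (Nat.cast_nonneg _),
        ENNReal.ofReal_natCast]
      gcongr
      refine (Finset.sum_le_card_nsmul _ _ _ fun i _ => hv _).trans_eq ?_
      rw [Finset.card_univ, Fintype.card_fin, nsmul_eq_mul]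
    · simp [hσ]
  rw [Set.ofPred_exists]
  refine (measure_iUnion_fintype_le _ _).trans
    ((Finset.sum_le_card_nsmul _ _ _ fun σ _ => h1 σ).trans ?_)
  rw [Finset.card_univ, Fintype.card_fun, Fintype.card_fin, Fintype.card_fin, nsmul_eq_mul,
    ← ENNReal.ofReal_natCast, ← ENNReal.ofReal_mul (Nat.cast_nonneg _)]
  refine ENNReal.ofReal_le_ofReal ?_
  have : 0 ≤ C / τ ^ N * ((N + 1 : ℕ) * W) := by positivity
  calc _ ≤ ((Q : ℝ) ^ (N + 1) + 1) * (C / τ ^ N * ((N + 1 : ℕ) * W)) := by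
        push_cast at this ⊢
        nlinarith
    _ = _ := by ring

/-- The defining inequalities. -/
theorem ineq {D : ℕ} {Φ : Fin (N + 1) → MvPolynomial (Fin (N + 1)) ℝ}
    (hD : ∀ i, (Φ i).totalDegree ≤ D) {κ Λ : ℝ} (S : ℝ) (hκ : 0 ≤ κ) (hΛ : 0 < Λ) :
    ∃ P : Fin (N + 1 + 1 + 1) → V (N + 1) → ℝ, (∀ l, H83.IsPoly (2 * ((N + 1) * D + 1)) (P l)) ∧
      ∀ x, (∀ l, 0 < P l x) ↔
        κ < |(dm Φ x).det| ∧ ∑ k : Fin N, x k.succ ^ 2 < S ∧ ∀ i, |eval x (Φ i)| < Λ := by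
  refine ⟨Fin.cons (fun x => (dm Φ x).det ^ 2 - κ ^ 2) (Fin.cons
    (fun x => S - ∑ k : Fin N, x k.succ ^ 2) fun i x => Λ ^ 2 - eval x (Φ i) ^ 2), ?_, fun x => ?_⟩
  · refine Fin.cases ?_ (Fin.cases ?_ fun i => ?_)
    · exact (((isPoly_det hD).pow 2).mono (by omega)).sub (H83.IsPoly.const _ _)
    · exact (H83.IsPoly.const _ _).sub (H83.IsPoly.sum _ fun k _ =>
        ((H83.IsPoly.coord k.succ).pow 2).mono (by omega))
    · have h : H83.IsPoly D fun x => eval x (Φ i) := ⟨_, hD i, fun _ => rfl⟩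
      exact (H83.IsPoly.const _ _).sub ((h.pow 2).mono (by nlinarith [Nat.zero_le (N * D)]))
  · simp only [Fin.forall_fin_succ (n := N + 1 + 1), Fin.forall_fin_succ (n := N + 1),
      Fin.cons_zero, Fin.cons_succ, sub_pos, sq_lt_sq, abs_of_nonneg hκ, abs_of_pos hΛ]

/-- The line in a nearby direction through a point of the tube stays in the tube. -/
theorem near {j : ℕ} {a e e' ξ : V N} {y : ℝ} (h : fl j e' = fl j e) (hξ : ‖ξ‖ ≤ 4) {s : ℝ}
    (hs : |s - y| ≤ 1) : ∃ ξ' : V N, ‖ξ'‖ ≤ 5 ∧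
      a + y • (e - e') + ((2 : ℝ) ^ j)⁻¹ • ξ + s • e' = a + s • e + ((2 : ℝ) ^ j)⁻¹ • ξ' := by
  have p2 : (0 : ℝ) < 2 ^ j := by positivity
  refine ⟨ξ + ((s - y) * 2 ^ j) • (e' - e), (norm_add_le _ _).trans ?_, ?_⟩
  · have h1 : ‖e' - e‖ ≤ ((2 : ℝ) ^ j)⁻¹ := (pi_norm_le_iff_of_nonneg (by positivity)).2 fun i => by
      have h1 := Int.abs_sub_lt_one_of_floor_eq_floor (congrFun h i)
      rw [← mul_sub, abs_mul, abs_of_pos p2] at h1
      rw [← one_div, le_div_iff₀ p2, mul_comm]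
      exact h1.le
    have h2 : ‖((s - y) * 2 ^ j) • (e' - e)‖ ≤ 1 * 2 ^ j * ((2 : ℝ) ^ j)⁻¹ := by
      rw [norm_smul, Real.norm_eq_abs, abs_mul, abs_of_pos p2]
      gcongr
    rw [one_mul, mul_inv_cancel₀ p2.ne'] at h2
    linarith
  · funext i
    simp only [Pi.add_apply, Pi.smul_apply, Pi.sub_apply, smul_eq_mul]
    field_simp
    ring

end EDirA

open EDirA

theorem rowDirCnt : DirCnt := by
  intro N D
  obtain ⟨d, hd⟩ : ∃ d, d = (N + 1) * D := ⟨_, rfl⟩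
  obtain ⟨Q, hQ⟩ : ∃ Q, Q = d + (N + 1) := ⟨_, rfl⟩
  have Q0 : (0 : ℝ) < Q := by rw [hQ]; positivity
  obtain ⟨τ, hτ⟩ : ∃ τ : ℝ, τ = 1 / (2 * Q) := ⟨_, rfl⟩
  have τ0 : 0 < τ := by rw [hτ]; positivity
  have τ1 : 2 * Q * τ = 1 := by rw [hτ]; field_simp
  obtain ⟨c, hc⟩ : ∃ c : ℝ, c = (τ / 2) ^ d / (d + 1) := ⟨_, rfl⟩
  have c0 : 0 < c := by rw [hc]; positivity
  obtain ⟨M, hM⟩ := area_le (N + 1) D
  obtain ⟨C, C0, hC⟩ := dirs N (2 * ((N + 1) * D + 1)) (N + 1 + 1 + 1) Q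
  obtain ⟨K, hK⟩ : ∃ K : ℝ, K = C / τ ^ N * (M * 4 ^ (N + 1) * 2 / c / τ) := ⟨_, rfl⟩
  have K0 : 0 ≤ K := by rw [hK]; positivity
  refine ⟨1 + K, by linarith, fun Φ Λ lam j hD hΛ hl => ?_⟩
  have Λ0 : 0 < Λ := by linarith
  have κ0 : 0 < c * lam / 2 := by positivity
  obtain ⟨P, hP, hP'⟩ := ineq hD (κ := c * lam / 2) (Λ := 2 * Λ) (49 * N + 1) κ0.le (by positivity)
  have hB : MeasurableSet {x | ∀ l, 0 < P l x} := by
    rw [Set.ofPred_forall]
    exact MeasurableSet.iInter fun l => measurableSet_lt measurable_const (hP l).measurable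
  have h1 := hM Φ _ (2 * Λ) _ hD hB (by positivity) κ0 fun x hx =>
    ⟨((hP' x).1 hx).1.le, fun i => (((hP' x).1 hx).2.2 i).le⟩
  choose t t1 t2 t3 using fun k : Fin Q => slice hB (2 * (k : ℕ) * τ) τ0
  have t0 : ∀ k, 0 ≤ t k ∧ t k ≤ 1 := fun k => by
    have : ((k : ℕ) : ℝ) + 1 ≤ Q := by exact_mod_cast k.2
    exact ⟨le_trans (by positivity) (t1 k), by nlinarith [t2 k]⟩
  have t4 : ∀ i i', i < i' → τ ≤ t i' - t i := fun i i' h => by
    have : ((i : ℕ) : ℝ) + 1 ≤ (i' : ℕ) := by exact_mod_cast h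
    nlinarith [t1 i', t2 i]
  have t5 : ∀ i i', i ≠ i' → τ ≤ |t i - t i'| := fun i i' h => by
    rcases lt_or_gt_of_ne h with k | k
    · exact (t4 _ _ k).trans (by rw [abs_sub_comm]; exact le_abs_self _)
    · exact (t4 _ _ k).trans (le_abs_self _)
  have h2 := hC P t τ (49 * N + 2) (M * (2 * (2 * Λ)) ^ (N + 1) / (c * lam / 2) / τ) hP τ0
    (by positivity) t5 (fun s z h => (pi_norm_le_iff_of_nonneg (by positivity)).2 fun k => by
      have k1 := ((hP' _).1 h).2.1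
      have k2 : z k ^ 2 ≤ ∑ k : Fin N, H83.pt s z k.succ ^ 2 :=
        Finset.single_le_sum (f := fun k => z k ^ 2) (fun _ _ => sq_nonneg _) (Finset.mem_univ k)
      exact abs_le.2 ⟨by nlinarith [sq_nonneg (z k + 1)], by nlinarith [sq_nonneg (z k - 1)]⟩)
    fun i => (t3 i).trans (by
      rw [ENNReal.ofReal_div_of_pos τ0]
      exact ENNReal.div_le_div_right h1 _)
  obtain ⟨T, hT, hT'⟩ := cells j (by positivity) h2
  refine ⟨T, hT.trans (mul_le_mul_of_nonneg_right ?_ (by positivity)), ?_⟩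
  · have : C / τ ^ N * (M * (2 * (2 * Λ)) ^ (N + 1) / (c * lam / 2) / τ) =
        K * Λ ^ (N + 1) / lam := by
      rw [hK, ← mul_assoc, mul_pow, show (2 : ℝ) * 2 = 4 by norm_num]
      field_simp
    rw [this]
    gcongr
    linarith
  rintro a e ha he hb ⟨y, ξ, y0, y1, hξ, hy⟩
  refine hT' e he fun e' h => ?_
  have k0 : ∀ i, |t i - y| ≤ 1 := fun i =>
    abs_le.2 ⟨by linarith [(t0 i).1], by linarith [(t0 i).2]⟩
  obtain ⟨b, hb'⟩ : ∃ b, b = a + y • (e - e') + ((2 : ℝ) ^ j)⁻¹ • ξ := ⟨_, rfl⟩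
  obtain ⟨q, q1, q2⟩ := (isPoly_det hD).line (H83.pt 0 b) (H83.pt 1 e')
  simp only [H83.smul_pt, H83.pt_add, mul_one, zero_add] at q2
  obtain ⟨σ, σ1, σ2⟩ := good q (hd ▸ q1) hQ.ge t τ0 k0 t5
  refine ⟨σ, σ1, b, fun i => (hP' _).2 ?_⟩
  obtain ⟨ξ', x1, x2⟩ := near (a := a) h hξ (k0 (σ i))
  have k1 : lam ≤ |q.eval y| := by
    rw [← q2, hb']
    refine hy.trans_eq ?_
    congr 3
    unfold tb H83.pt
    congr 1
    rw [smul_sub]
    abel
  refine ⟨?_, ?_, fun k => ?_⟩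
  · rw [q2]
    have k2 : c * lam ≤ |q.eval (t (σ i))| := by
      rw [hc, div_mul_eq_mul_div, div_le_iff₀ (by positivity), mul_comm _ ((d : ℝ) + 1)]
      exact (mul_le_mul_of_nonneg_left k1 (by positivity)).trans (σ2 i)
    linarith
  · rw [hb', x2]
    have k2 : ‖a + t (σ i) • e + ((2 : ℝ) ^ j)⁻¹ • ξ'‖ ≤ 7 := by
      have k3 : ‖t (σ i) • e‖ ≤ 1 * 1 := by
        rw [norm_smul, Real.norm_eq_abs, abs_of_nonneg (t0 _).1]
        gcongr
        exact (t0 _).2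
      have k4 : ‖((2 : ℝ) ^ j)⁻¹ • ξ'‖ ≤ 1 * 5 := by
        rw [norm_smul, Real.norm_eq_abs, abs_of_nonneg (by positivity)]
        gcongr
        exact inv_le_one_of_one_le₀ (one_le_pow₀ one_le_two)
      linarith [norm_add₃_le (a := a) (b := t (σ i) • e) (c := ((2 : ℝ) ^ j)⁻¹ • ξ')]
    refine lt_of_le_of_lt (Finset.sum_le_card_nsmul _ _ (49 : ℝ) fun k _ => ?_) ?_
    · have k3 := abs_le.1 ((norm_le_pi_norm _ k).trans k2)
      rw [H83.pt_succ]
      nlinarith [k3.1, k3.2]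
    · rw [Finset.card_univ, Fintype.card_fin, nsmul_eq_mul]
      linarith
  · rw [hb', x2]
    exact (hb _ ξ' (t0 _).1 (t0 _).2 x1 k).trans_lt (by linarith)

end Pool.Agent.MP_5168f5_an.AN.En
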