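import Pool.Agent.MP_5168f5_an.AN.SpecP

/-! The coefficient norm, first part. -/

namespace Pool.Agent.MP_5168f5_an.AN.Pk

open MvPolynomial Finset

namespace PCn1A

variable {σ ι : Type}

theorem nonneg (F : MvPolynomial σ ℝ) : 0 ≤ cn F := sum_nonneg fun _ _ => abs_nonneg _

theorem sup (F : MvPolynomial σ ℝ) (S : Finset (σ →₀ ℕ)) (h : F.support ⊆ S) :
    cn F = ∑ α ∈ S, |F.coeff α| :=
  sum_subset h fun α _ a => by rw [notMem_support_iff.1 a, abs_zero]

theorem coe (F : MvPolynomial σ ℝ) (α : σ →₀ ℕ) : |F.coeff α| ≤ cn F := by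
  by_cases h : α ∈ F.support
  · exact single_le_sum (f := fun β => |F.coeff β|) (fun _ _ => abs_nonneg _) h
  · rw [notMem_support_iff.1 h, abs_zero]
    exact nonneg F

theorem mono (α : σ →₀ ℕ) (c : ℝ) : cn (monomial α c) = |c| := by
  classical
  rw [sup _ {α} support_monomial_subset, sum_singleton, coeff_monomial, if_pos rfl]

theorem add (F G : MvPolynomial σ ℝ) : cn (F + G) ≤ cn F + cn G := by
  classical
  rw [sup _ _ support_add, sup F _ (subset_union_left (s₂ := G.support)),
    sup G _ (subset_union_right (s₁ := F.support)), ← sum_add_distrib]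
  exact sum_le_sum fun α _ => by rw [coeff_add]; exact abs_add_le _ _

theorem smul (c : ℝ) (F : MvPolynomial σ ℝ) : cn (c • F) = |c| * cn F := by
  rw [sup _ _ support_smul, cn, mul_sum]
  exact sum_congr rfl fun α _ => by rw [coeff_smul, smul_eq_mul, abs_mul]

theorem sum (S : Finset ι) (F : ι → MvPolynomial σ ℝ) : cn (∑ a ∈ S, F a) ≤ ∑ a ∈ S, cn (F a) :=
  le_sum_of_subadditive cn (by simp [cn]) add S F

theorem mul (F G : MvPolynomial σ ℝ) : cn (F * G) ≤ cn F * cn G := by
  conv_lhs => rw [F.as_sum, G.as_sum, sum_mul_sum]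
  rw [cn.eq_1 F, cn.eq_1 G, sum_mul_sum]
  exact (sum _ _).trans (sum_le_sum fun a _ => (sum _ _).trans (sum_le_sum fun b _ => by
    rw [monomial_mul, mono, abs_mul]))

theorem prod (S : Finset ι) (F : ι → MvPolynomial σ ℝ) :
    cn (∏ a ∈ S, F a) ≤ ∏ a ∈ S, cn (F a) := by
  induction S using Finset.cons_induction with
  | empty => exact ((mono 0 1).trans abs_one).le
  | cons a S _ ih =>
    rw [prod_cons, prod_cons]
    exact (mul _ _).trans (mul_le_mul_of_nonneg_left ih (nonneg _))

end PCn1A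

open PCn1A in
theorem pCn1 : Cn1 where
  nonneg := nonneg
  zero F := ⟨fun h => MvPolynomial.ext _ _ fun α => abs_nonpos_iff.1 (h ▸ coe F α),
    fun h => by simp [h, cn]⟩
  coeff := coe
  sup := PCn1A.sup
  mono := mono
  const := mono 0
  var _ := (mono _ 1).trans abs_one
  add := add
  sub F G := by
    have := add F ((-1 : ℝ) • G)
    rwa [smul, neg_one_smul, ← sub_eq_add_neg, abs_neg, abs_one, one_mul] at this
  smul := smul
  sum := PCn1A.sum
  mul := mul
  pow F k := by simpa using PCn1A.prod (range k) fun _ => F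
  prod := PCn1A.prod

end Pool.Agent.MP_5168f5_an.AN.Pk
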