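import Pool.Agent.MP_5168f5_an.AN.SpecE2
import Pool.Agent.MP_5168f5_an.AN.PCn
import Pool.Agent.MP_5168f5_an.AN.PCn1

/-! Kakeya sets in all dimensions: the count of directions against the count of points. -/

namespace Pool.Agent.MP_5168f5_an.AN.En

open H19 H17S H17F Filter MvPolynomial Pk R4

namespace EFinA

variable {N : ℕ}

theorem norm_cons {t K : ℝ} {v : V N} (h : |t| ≤ K) (h' : ‖v‖ ≤ K) :
    ‖(Fin.cons t v : V (N + 1))‖ ≤ K :=
  (pi_norm_le_iff_of_nonneg ((abs_nonneg t).trans h)).2 fun i =>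
    Fin.cases h (fun j => (norm_le_pi_norm v j).trans h') i

theorem inv_le (m : ℕ) : 0 < ((2 : ℝ) ^ m)⁻¹ ∧ ((2 : ℝ) ^ m)⁻¹ ≤ 1 :=
  ⟨by positivity, inv_le_one_of_one_le₀ (one_le_pow₀ one_le_two)⟩

theorem norm_tb (m : ℕ) {a e ξ : V N} {t : ℝ}
    (h : ‖a‖ ≤ 1 ∧ ‖e‖ ≤ 1 ∧ 0 ≤ t ∧ t < 1 ∧ ‖ξ‖ ≤ 4) : ‖tb m a e t ξ‖ ≤ 6 := by
  obtain ⟨h1, h2, h3, h4, h5⟩ := h
  refine norm_cons (by rw [abs_of_nonneg h3]; linarith) (norm_add₃_le.trans ?_)
  rw [norm_smul, norm_smul, Real.norm_of_nonneg h3, Real.norm_of_nonneg (inv_le m).1.le]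
  nlinarith [(inv_le m).1, (inv_le m).2, norm_nonneg e, norm_nonneg ξ]

theorem norm_tb_sub (m : ℕ) {a e ξ ξ' : V N} {t t' : ℝ} (he : ‖e‖ ≤ 1) (h : ‖ξ‖ ≤ 4)
    (h' : ‖ξ'‖ ≤ 4) (k : fl1 m t = fl1 m t') :
    ‖tb m a e t ξ - tb m a e t' ξ'‖ ≤ (9 : ℕ) * ((2 : ℝ) ^ m)⁻¹ := by
  have k1 := (abs_sub_lt_of_fl1_eq k).le
  have e1 : tb m a e t ξ - tb m a e t' ξ' =
      Fin.cons (t - t') ((t - t') • e + ((2 : ℝ) ^ m)⁻¹ • (ξ - ξ')) := by
    funext i
    refine Fin.cases rfl (fun j => ?_) i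
    simp only [tb, Pi.sub_apply, Fin.cons_succ, Pi.add_apply, Pi.smul_apply, smul_eq_mul]; ring
  have h0 := (inv_le m).1
  rw [e1]
  refine norm_cons (k1.trans (by push_cast; linarith)) ((norm_add_le _ _).trans ?_)
  rw [norm_smul, norm_smul, Real.norm_eq_abs, Real.norm_of_nonneg h0.le]
  have h2 := norm_sub_le ξ ξ'
  push_cast
  nlinarith [abs_nonneg (t - t'), norm_nonneg e]

theorem det_le {Φ : Fin (N + 1) → MvPolynomial (Fin (N + 1)) ℝ} {D : ℕ} {B : ℝ} {y : V (N + 1)}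
    (h : ∀ i, (Φ i).totalDegree ≤ D ∧ cn (Φ i) ≤ B) (hy : ‖y‖ ≤ 6) :
    |(dm Φ y).det| ≤ (N + 1).factorial * (D * 6 ^ D) ^ (N + 1) * B ^ (N + 1) := by
  have k := pCn pCn1
  have h1 : ∀ i j, AbsoluteValue.abs (dm Φ y i j) ≤ D * 6 ^ D * B := fun i j => by
    obtain ⟨a, b⟩ := k.der (Φ i) D j (h i).1
    refine (k.val _ D 6 y (b.trans (Nat.sub_le _ _)) (by norm_num)
      fun l => (norm_le_pi_norm y l).trans hy).trans ?_
    rw [mul_right_comm]
    exact mul_le_mul_of_nonneg_right (a.trans (mul_le_mul_of_nonneg_left (h i).2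
      (Nat.cast_nonneg _))) (by positivity)
  have h2 := Matrix.det_le h1
  rw [Fintype.card_fin, nsmul_eq_mul, mul_pow, ← mul_assoc] at h2
  exact h2

variable {Ω Γ : Type} {Q : FP Ω} {S : Ω → Γ} {y : Ω → V (N + 1)}
  {Φ : Ω → Fin (N + 1) → MvPolynomial (Fin (N + 1)) ℝ}

theorem ch_box (hy : ∀ ω ∈ Q.S, ‖y ω‖ ≤ 6) (m : ℕ) :
    ch Q (fun ω => fl m (y ω)) S ≤ 5 * (N + 1) + (N + 1) * m * lg := by
  have h1 := ch_fl_near (P := Q) (x := y) (G := S) (j := 0) (n := 12) (by norm_num)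
    fun a ha b hb _ => (norm_sub_le _ _).trans (by norm_num; linarith [hy a ha, hy b hb])
  have h2 := ch_fl_refine (P := Q) (x := y) (j := 0) (i := m) (Fn.fst (fun ω => fl 0 (y ω)) S)
  have h3 := ch_tri (P := Q) (fun ω => fl m (y ω)) (fun ω => fl 0 (y ω)) S
  rw [zero_add] at h2
  push_cast at h1 h2
  linarith

/-- The entropy of the image against the entropy of the point. -/
theorem ch_img {D m r s b R : ℕ} {C lam : ℝ} (hC : 1 ≤ C)
    (hI : ∀ (Φ : Fin (N + 1) → MvPolynomial (Fin (N + 1)) ℝ) (lam : ℝ) (b ρ R : ℕ) (c : Z (N + 1)),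
      (∀ i, (Φ i).totalDegree ≤ D ∧ cn (Φ i) ≤ 2 ^ b) → 0 ≤ lam → R + b ≤ 2 * ρ → ρ ≤ R + b →
      ∃ T : Finset (Z (N + 1)),
        (T.card : ℝ) ≤ C * max (lam * (2 ^ R / 2 ^ ρ) ^ (N + 1)) ((2 ^ (R + b) / 2 ^ ρ) ^ N) ∧
        ∀ x : V (N + 1), ‖x‖ ≤ 6 → fl ρ x = c → |(dm Φ x).det| ≤ lam →
          fl R (fun i => eval x (Φ i)) ∈ T)
    (hR : R = m + r + s) (h1 : s + b ≤ m + r) (h2 : N * b + m ≤ s) (hl : 1 ≤ 2 ^ m * lam)
    (hΦ : Fn Q Φ S) (h : ∀ ω ∈ Q.S, (∀ i, (Φ ω i).totalDegree ≤ D ∧ cn (Φ ω i) ≤ 2 ^ b) ∧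
      ‖y ω‖ ≤ 6 ∧ |(dm (Φ ω) (y ω)).det| ≤ lam) :
    ch Q (fun ω => fl R fun i => eval (y ω) (Φ ω i)) S ≤ ch Q (fun ω => fl m (y ω)) S +
      Real.log C + Real.log lam + (N + 1) * (r + s) * lg := by
  have l0 : 0 < lam := (mul_pos_iff_of_pos_left (by positivity)).1 (one_pos.trans_le hl)
  have d : Det Q (fun ω => fl R fun i => eval (y ω) (Φ ω i)) (fun ω => (fl (m + r) (y ω), S ω))
      (C * (lam * 2 ^ (s * (N + 1)))) := fun a ha => by
    obtain ⟨T, a1, a2⟩ := hI (Φ a) lam b (m + r) R (fl (m + r) (y a)) (h a ha).1 l0.le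
      (by omega) (by omega)
    refine ⟨T, a1.trans (mul_le_mul_of_nonneg_left (max_le (le_of_eq ?_) ?_) (by linarith)),
      fun c hc e => ?_⟩
    · rw [hR, pow_add 2 (m + r), mul_div_cancel_left₀ _ (by positivity), pow_mul]
    · rw [hR, add_assoc (m + r), pow_add 2 (m + r), mul_div_cancel_left₀ _ (by positivity),
        ← pow_mul]
      calc (2 : ℝ) ^ ((s + b) * N) ≤ 2 ^ ((s + b) * N) * (2 ^ m * lam) :=
            le_mul_of_one_le_right (by positivity) hl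
        _ = lam * 2 ^ ((s + b) * N + m) := by rw [pow_add]; ring
        _ ≤ _ := mul_le_mul_of_nonneg_left (pow_le_pow_right₀ one_le_two (by nlinarith)) l0.le
    · have e1 := hΦ c hc a ha (congrArg Prod.snd e)
      have := a2 (y c) (h c hc).2.1 (congrArg Prod.fst e) (e1 ▸ (h c hc).2.2)
      simpa only [e1] using this
  have k1 := ch_det d
  rw [Real.log_mul (by positivity) (by positivity), Real.log_mul l0.ne' (by positivity),
    log_two_pow] at k1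
  have k2 := ch_tri (P := Q) (fun ω => fl R fun i => eval (y ω) (Φ ω i))
    (fun ω => fl (m + r) (y ω)) S
  have k3 := ch_tri (P := Q) (fun ω => fl (m + r) (y ω)) (fun ω => fl m (y ω)) S
  have k4 := ch_fl_refine (P := Q) (x := y) (j := m) (i := r) (Fn.fst (fun ω => fl m (y ω)) S)
  push_cast at k1 k4
  linarith

variable {a e ξ : Ω → V N} {t : Ω → ℝ} {m : ℕ}

theorem ch_dir (h : ∀ ω ∈ Q.S, ‖a ω‖ ≤ 1 ∧ ‖e ω‖ ≤ 1 ∧ 0 ≤ t ω ∧ t ω < 1 ∧ ‖ξ ω‖ ≤ 4)
    (hd : Fn Q (fun ω => (a ω, e ω)) fun ω => fl m (e ω)) :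
    ch Q (fun ω => fl m (tb m (a ω) (e ω) (t ω) (ξ ω))) (fun ω => fl m (e ω)) ≤
      m * lg + 5 * (N + 1) := by
  have k1 := ch_fl1_refine (P := Q) (x := t) (G := fun ω => fl m (e ω)) (j := fun _ => 0)
    (i := fun _ => m) (fun _ _ _ _ _ => rfl) (fun _ _ _ _ _ => rfl) fun u hu v hv _ =>
      (fl1_zero_of_box (h u hu).2.2.1 (h u hu).2.2.2.1).trans
        (fl1_zero_of_box (h v hv).2.2.1 (h v hv).2.2.2.1).symm
  have k2 := ch_fl_near (P := Q) (x := fun ω => tb m (a ω) (e ω) (t ω) (ξ ω))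
    (G := fun ω => (fl1 m (t ω), fl m (e ω))) (j := m) (n := 9) (by norm_num)
    fun u hu v hv k => by
      have e1 := Prod.mk.inj (hd u hu v hv (congrArg Prod.snd k))
      simp only [e1.1, e1.2]
      exact norm_tb_sub m (h v hv).2.1 (h u hu).2.2.2.2 (h v hv).2.2.2.2 (congrArg Prod.fst k)
  have k3 := ch_tri (P := Q) (fun ω => fl m (tb m (a ω) (e ω) (t ω) (ξ ω)))
    (fun ω => fl1 m (t ω)) fun ω => fl m (e ω)
  simp only [zero_add, FP.E_const] at k1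
  push_cast at k2
  linarith

theorem ch_swap {α β : Type} (F : Ω → α) (G : Ω → β) :
    ch Q F G + ch Q G S ≤ ch Q S G + ch Q F S + ch Q G F := by
  have k1 := ch_tri (P := Q) F S G
  have k2 := ch_symm (P := Q) F G S
  have k3 : ch Q G (fun ω => (F ω, S ω)) ≤ ch Q G F := ch_anti (Fn.fst F S)
  have k4 : ch Q F (fun ω => (S ω, G ω)) ≤ ch Q F fun ω => (G ω, S ω) :=
    ch_anti ((Fn.snd S G).pair (Fn.fst S G))
  linarith

end EFinA

open EFinA in
theorem rowEndFin : OfEndFin := by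
  intro hD hI N D b R Ω Γ P a e t ξ M S Φ Λ μ hR hT hΛ hμ hΦ hS hW h1 h2
  obtain ⟨C₁, hC₁, hD⟩ := hD N D
  obtain ⟨C₂, hC₂, hI⟩ := hI N D 6 (by norm_num)
  obtain ⟨r, s, e1, e2, e3⟩ : ∃ r s : ℕ, R = 1 + r + s ∧ s + b ≤ 1 + r ∧ N * b + 1 ≤ s := by
    have : (2 * N + 1) * b = 2 * (N * b) + b := by ring
    exact ⟨(R + b + 1) / 2 - 1, R - (R + b + 1) / 2, by omega, by omega, by omega⟩
  have hM := hT.big
  obtain ⟨lam, hl⟩ : ∃ lam : ℕ → ℕ → ℝ,
    ∀ i n, lam i n = Real.exp (i * (μ / 2) * M n) / 2 ^ M n := ⟨_, fun _ _ => rfl⟩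
  have l0 : ∀ i n, 0 < lam i n := fun i n => by rw [hl]; positivity
  have l1 : ∀ i n, Real.log (lam i n) = i * (μ / 2) * M n - M n * lg := fun i n => by
    rw [hl, Real.log_div (by positivity) (by positivity), Real.log_exp, log_two_pow]
  obtain ⟨y, hy⟩ : ∃ y : ∀ n, Ω n → V (N + 1),
    y = fun n ω => tb (M n) (a n ω) (e n ω) (t n ω) (ξ n ω) := ⟨_, rfl⟩
  have y6 : ∀ᶠ n in UF, ∀ ω ∈ (P n).S, ‖y n ω‖ ≤ 6 :=
    hT.bd.mono fun n k ω hω => by rw [hy]; exact norm_tb _ (k ω hω)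
  have tool : ∀ (i : ℕ) (E : ∀ n, Ω n → Prop), Pos P E →
      (∀ n ω, E n ω → |(dm (Φ n ω) (y n ω)).det| ≤ lam i n) →
      Le M (fun n => (N + 2) * M n * lg - i * (μ / 2) * M n) fun n =>
        ch (cE (P n) (E n)) (fun ω => fl (M n) (y n ω)) (S n) := by
    intro i E hE hJ
    refine (h2 E hE).of2 (hM.sm (Real.log C₂)) ?_
    filter_upwards [hΦ, y6, hE.sure] with n k1 k2 k3
    have k := ch_img (Q := cE (P n) (E n)) (S := S n) (y := y n) (Φ := Φ n) (m := M n)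
      (r := r * M n) (s := s * M n) (b := b * M n) (R := R * M n) (lam := lam i n) hC₂ hI
      (by rw [e1]; ring) (by nlinarith) (by nlinarith)
      (by rw [hl, mul_div_cancel₀ _ (by positivity)]; exact Real.one_le_exp (by positivity))
      (fn_cE k1.1 _) fun ω hω => ⟨k1.2 ω (k3 ω hω).1, k2 ω (k3 ω hω).1, hJ n ω (k3 ω hω).2⟩
    rw [l1] at k
    simp only [hy, e1] at k ⊢
    push_cast at k ⊢
    linarith
  have all : ∀ i : ℕ, ¬Whp P fun n ω => |(dm (Φ n ω) (y n ω)).det| ≤ lam i n := by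
    intro i
    induction i with
    | zero =>
      intro h
      refine ((tool 0 _ h.pos fun _ _ k => k).of2 (f := fun n => lg * M n) (g := fun _ => 0)
        (hM.sm (5 * (N + 1))) ?_).false hM lg_pos (Eventually.of_forall fun n => by linarith)
      filter_upwards [y6] with n k
      have := ch_box (Q := cE (P n) fun ω => |(dm (Φ n ω) (y n ω)).det| ≤ lam 0 n) (S := S n)
        (fun ω hω => k ω (cE_sub hω)) (M n)
      push_cast
      linarith
    | succ i ih =>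
      intro h
      have hE := ((not_whp ih).and h).and hW
      have hS' := (K31.dnS_cE hE).sm_ch hS
      refine ((h1 _ hE).of5 (f := fun n => μ / 2 * M n) (g := fun _ => 0)
        (tool (i + 1) _ hE fun _ _ k => k.1.2) hS' (hM.sm (Real.log C₁ + 5 * (N + 1)))
        (hΛ.log.smul (c := N + 1) (by positivity)) ?_).false hM (half_pos hμ)
        (Eventually.of_forall fun n => by linarith)
      filter_upwards [hΦ, hT.bd, hT.ds, hE.sure] with n k1 k2 k3 k4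
      generalize cE (P n) _ = Q at k4 ⊢
      have k5 := ch_dir (Q := Q) (m := M n) (fun ω hω => k2 ω (k4 ω hω).1)
        fun u hu v hv => k3 u (k4 u hu).1 v (k4 v hv).1
      have k6 : Det Q (fun ω => fl (M n) (e n ω)) (S n)
          (C₁ * Λ n ^ (N + 1) / lam i n * (2 ^ M n) ^ N) := fun u hu => by
        obtain ⟨T, a1, a2⟩ := hD (Φ n u) (Λ n) (lam i n) (M n)
          (fun j => (k1.2 u (k4 u hu).1 j).1) (hΛ.1 n) (l0 i n)
        refine ⟨T, a1, fun v hv k => ?_⟩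
        obtain ⟨b1, ⟨b2, -⟩, b3⟩ := k4 v hv
        obtain ⟨c1, c2, c3, c4, c5⟩ := k2 v b1
        rw [k1.1 v b1 u (k4 u hu).1 k] at b2 b3
        exact a2 (a n v) (e n v) c1 c2 b3 ⟨t n v, ξ n v, c3, c4.le, c5, by
          simpa only [hy] using (not_le.1 b2).le⟩
      have k7 := ch_det k6
      have p1 := hΛ.pos n
      have p2 := l0 i n
      rw [Real.log_mul (by positivity) (by positivity), Real.log_div (by positivity) p2.ne',
        Real.log_mul (by positivity) (by positivity), Real.log_pow, Real.log_pow, log_two_pow,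
        l1] at k7
      have k8 := ch_swap (Q := Q) (S := S n) (fun ω => fl (M n) (e n ω)) fun ω => fl (M n) (y n ω)
      simp only [hy, id] at k8 ⊢
      push_cast at k7 ⊢
      linarith
  refine all ⌈(b * (N + 1) + 2 : ℝ) / (μ / 2)⌉₊ (Whp.of_ev ?_)
  filter_upwards [hΦ, y6, hM.ev ((N + 1).factorial * (D * 6 ^ D) ^ (N + 1))] with n k1 k2 k3 ω hω
  refine (det_le (k1.2 ω hω) (k2 ω hω)).trans ?_
  have c1 := Nat.le_ceil ((b * (N + 1) + 2 : ℝ) / (μ / 2))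
  rw [div_le_iff₀ (half_pos hμ)] at c1
  rw [hl, le_div_iff₀ (by positivity), ← pow_mul, mul_assoc, ← pow_add]
  refine (mul_le_mul (k3.trans ((le_add_of_nonneg_right zero_le_one).trans (Real.add_one_le_exp _)))
    (two_pow_le_exp _) (by positivity) (by positivity)).trans ?_
  rw [← Real.exp_add]
  refine Real.exp_le_exp.2 (le_trans (le_of_eq ?_)
    (mul_le_mul_of_nonneg_right c1 (Nat.cast_nonneg _)))
  push_cast; ring

end Pool.Agent.MP_5168f5_an.AN.En
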