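import Pool.Agent.MP_5168f5_an.AN.SpecE2
import Pool.Agent.MP_5168f5_an.R4.XSpread

/-! Linear entropy persists on all refinements of an event. -/

namespace Pool.Agent.MP_5168f5_an.AN.En

open H19 H17S H17F Filter MvPolynomial Pk R4

namespace EHerA

open SpreadA

variable {Ω W α β : Type} {P : FP Ω} {Q : FP W} {f : W → Ω}

theorem pr_eq (Q : FP W) (g : W → β) (v : W) :
    Q.pr (Setoid.ker g) v = pb Q fun w => g w = g v :=
  Q.E_congr fun w _ => by by_cases h : g w = g v <;> simp [Setoid.ker_def, h]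

theorem cross (h : ∀ v ∈ Q.S, f v ∈ P.S) (G : Ω → β) :
    hh Q (fun v => G (f v)) ≤ Q.E fun v => -Real.log (pb P fun x => G x = G (f v)) := by
  classical
  refine Q.gibbs _ _ (fun v hv => pb_pos P ⟨f v, h v hv, rfl⟩) ?_
  have e : Q.E (fun v => (pb P fun x => G x = G (f v)) / Q.pr (Setoid.ker fun v => G (f v)) v) =
      P.E fun x => Q.E fun v =>
        if G x = G (f v) then 1 / Q.pr (Setoid.ker fun v => G (f v)) v else 0 := by
    simp only [pb, FP.E, Finset.mul_sum, Finset.sum_div]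
    rw [Finset.sum_comm]
    exact Finset.sum_congr rfl fun x _ => Finset.sum_congr rfl fun v _ => by
      split_ifs <;> ring
  rw [e]
  refine (P.E_mono fun x _ => ?_).trans_eq (P.E_const 1)
  convert Q.class_sum (Setoid.ker fun v => G (f v)) (fun v => G x = G (f v))
    fun _ _ _ _ a b => a.symm.trans b

theorem core {F : Ω → α} {G : Ω → β} {c s : ℝ} (h : K31.Dn c Q f P) (hs : 0 < s)
    (hL : ∀ v ∈ Q.S, Lt P F G s (f v)) :
    -Real.log (c * s) ≤ ch Q (fun v => F (f v)) fun v => G (f v) := by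
  have c0 : 0 < c := one_pos.trans_le h.one_le
  have h1 := cross (fun v hv => h.mem hv) G
  have h2 : Q.E (fun v => -Real.log (c * s) + -Real.log (pb P fun x => G x = G (f v))) ≤
      hh Q fun v => (F (f v), G (f v)) := Q.E_mono fun v hv => by
    rw [← neg_add, ← Real.log_mul (by positivity)
      (pb_pos P (E := fun x => G x = G (f v)) ⟨f v, h.mem hv, rfl⟩).ne']
    refine neg_le_neg (Real.log_le_log (Q.pr_pos _ hv) ?_)
    rw [pr_eq, mul_assoc]
    refine le_trans (le_of_eq (pb_congr fun w _ => Prod.mk.injEq _ _ _ _ ▸ Iff.rfl))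
      ((h.pb_le fun x => F x = F (f v) ∧ G x = G (f v)).trans ?_)
    exact mul_le_mul_of_nonneg_left (hL v hv) c0.le
  rw [FP.E_add, FP.E_const] at h2
  unfold ch
  linarith

end EHerA

open SpreadA EHerA in
theorem rowHer : Her := by
  intro Ω α β P A B M C hM hD hS
  obtain ⟨ε, hε, h⟩ := not_Le hS
  have hp : Pos P fun n => Lt (P n) (A n) (B n) (Real.exp (ε / 2 * M n))⁻¹ := by
    refine ⟨ε / 4 / (|C| + 1), by positivity, ?_⟩
    filter_upwards [h, hD, hM.sm lg (ε / 4) (by positivity), hM.ev 1] with n h1 h2 h3 h4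
    have h5 := ke.sparse (P n) _ (A n) (B n) _ _ h2 (heavy _ _ _ (Real.exp_pos (ε / 2 * M n)))
    rw [Real.log_exp, Real.log_exp, pb_not, sub_sub_cancel] at h5
    have h6 := pb_nonneg (P n) (Lt (P n) (A n) (B n) (Real.exp (ε / 2 * M n))⁻¹)
    generalize pb (P n) (Lt (P n) (A n) (B n) (Real.exp (ε / 2 * M n))⁻¹) = q at h5 h6 ⊢
    have h7 : q * C * M n ≤ q * (|C| + 1) * M n :=
      mul_le_mul_of_nonneg_right (mul_le_mul_of_nonneg_left (by linarith [le_abs_self C]) h6)
        (by linarith)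
    have h8 : 0 ≤ q * (ε / 2 * M n) := by positivity
    rw [div_le_iff₀ (by positivity)]
    exact le_of_mul_le_mul_right (a := (M n : ℝ)) (by linarith) (by linarith)
  refine ⟨ε / 4, _, by positivity, hp, fun n a _ b _ e => ?_, ?_⟩
  · simp only [Prod.mk.injEq] at e
    simp only [Lt, e.1, e.2]
  obtain ⟨κ, hκ, hp⟩ := hp
  filter_upwards [hp, hM.sm (Real.log κ⁻¹) (ε / 4) (by positivity)] with n h1 h2 W Q f c h3
  have c0 : 0 < c := one_pos.trans_le h3.one_le
  have h4 := core (h3.trans (K31.dn_cE _ hκ h1)) (by positivity) fun v hv =>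
    ((mem_cE (ex_of_pb (hκ.trans_le h1)) _).1 (h3.mem hv)).2
  rw [Real.log_mul (by positivity) (by positivity), Real.log_mul c0.ne' (by positivity),
    Real.log_inv (Real.exp _), Real.log_exp] at h4
  exact le_trans (by linarith) h4

end Pool.Agent.MP_5168f5_an.AN.En
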