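import Pool.Agent.MP_5168f5_an.AN.SpecE
import Pool.Agent.MP_5168f5_an.AN.PCn1
import Pool.Agent.MP_5168f5_an.AN.PCn
import Pool.Agent.MP_5168f5_an.H83.Basic
import Pool.Agent.MP_5168f5_an.H17S.FlApi

/-! The number of cells that meet the polynomial image of a cube. -/

namespace Pool.Agent.MP_5168f5_an.AN.En

open H19 H17S H17F MvPolynomial Pk

namespace EImgA

theorem tay {n D : ℕ} (F : MvPolynomial (Fin n) ℝ) (K ε : ℝ) (x y : V n)
    (hF : F.totalDegree ≤ D) (hK : 1 ≤ K) (hx : ‖x‖ ≤ K) (hy : ‖y‖ ≤ K) (hε : ‖x - y‖ ≤ ε) :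
    |eval x F - eval y F - ∑ k, eval y (pderiv k F) * (x - y) k| ≤
      n * (D * (D * cn F) * K ^ D * ε * ε) := by
  have kc : Cn := pCn pCn1
  have ε0 : 0 ≤ ε := (norm_nonneg _).trans hε
  have hd : ∀ s : ℝ, HasDerivAt (fun s : ℝ => eval (y + s • (x - y)) F)
      (∑ k, eval (y + s • (x - y)) (pderiv k F) * (x - y) k) s := by
    intro s
    have h1 : HasDerivAt (fun s : ℝ => y + s • (x - y)) (x - y) s := by
      simpa using ((hasDerivAt_id s).smul_const (x - y)).const_add y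
    have h2 := (H83.IsPoly.hasFDerivAt_eval F (y + s • (x - y))).comp_hasDerivAt s h1
    simpa [Function.comp_def] using h2
  obtain ⟨c, hc, e⟩ := exists_hasDerivAt_eq_slope (fun s : ℝ => eval (y + s • (x - y)) F) _
    zero_lt_one (fun s _ => (hd s).continuousAt.continuousWithinAt) (fun s _ => hd s)
  simp only [one_smul, zero_smul, add_zero, sub_zero, div_one, add_sub_cancel] at e
  rw [← e, ← Finset.sum_sub_distrib]
  refine (Finset.abs_sum_le_sum_abs _ _).trans ?_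
  refine (Finset.sum_le_card_nsmul _ _ (D * (D * cn F) * K ^ D * ε * ε) fun k _ => ?_).trans
    (by simp)
  have hk : ∀ i, |(x - y) i| ≤ ε := fun i => (norm_le_pi_norm (x - y) i).trans hε
  have hxi : ∀ i, |x i| ≤ K := fun i => (norm_le_pi_norm x i).trans hx
  have hyi : ∀ i, |y i| ≤ K := fun i => (norm_le_pi_norm y i).trans hy
  obtain ⟨d1, d2⟩ := kc.der F D k hF
  have h3 := kc.lip (pderiv k F) D K ε (y + c • (x - y)) y (d2.trans (Nat.sub_le _ _)) hK ε0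
    fun i => ⟨?_, hyi i, ?_⟩
  · rw [← sub_mul, abs_mul]
    refine mul_le_mul (h3.trans ?_) (hk k) (abs_nonneg _)
      (by have := kc.nonneg F; positivity)
    gcongr
  · have e1 : (y + c • (x - y)) i = (1 - c) * y i + c * x i := by simp; ring
    rw [e1]
    refine (abs_add_le _ _).trans ?_
    rw [abs_mul, abs_mul, abs_of_pos hc.1, abs_of_pos (sub_pos.2 hc.2)]
    nlinarith [hxi i, hyi i, hc.1, hc.2]
  · have e1 : (y + c • (x - y)) i - y i = c * (x - y) i := by simp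
    rw [e1, abs_mul, abs_of_pos hc.1]
    nlinarith [hk i, hc.1, hc.2, abs_nonneg ((x - y) i)]

end EImgA

theorem rowImgCnt : OfImgCnt := by
  intro hL n D K hK
  have kc : Cn := pCn pCn1
  have K0 : 0 ≤ K := zero_le_one.trans hK
  obtain ⟨C, hC, hL⟩ := hL n (((n + 1 : ℕ) : ℝ) * (D * D * K ^ D)) (by positivity)
  obtain ⟨b0, hb0⟩ := pow_unbounded_of_one_lt ((D : ℝ) * K ^ D) (one_lt_two (α := ℝ))
  have h1 : (1 : ℝ) ≤ (2 ^ b0) ^ n := one_le_pow₀ (one_le_pow₀ one_le_two)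
  refine ⟨C * (2 ^ b0) ^ n, one_le_mul_of_one_le_of_one_le hC h1, ?_⟩
  intro Φ lam b ρ R c hΦ hlam hR hρ
  by_cases hex : ∃ x : V (n + 1), ‖x‖ ≤ K ∧ fl ρ x = c ∧ |(dm Φ x).det| ≤ lam
  swap
  · refine ⟨∅, ?_, fun x a1 a2 a3 => absurd ⟨x, a1, a2, a3⟩ hex⟩
    rw [Finset.card_empty, Nat.cast_zero]
    exact mul_nonneg (by positivity) (le_max_of_le_right (by positivity))
  obtain ⟨y, hy, hyc, hdet⟩ := hex
  have hA : ∀ i k, |dm Φ y i k| ≤ 2 ^ (b + b0) := by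
    intro i k
    obtain ⟨d1, d2⟩ := kc.der (Φ i) D k (hΦ i).1
    have h2 := kc.val (pderiv k (Φ i)) D K y (d2.trans (Nat.sub_le _ _)) hK
      fun i => (norm_le_pi_norm y i).trans hy
    have h3 := (hΦ i).2
    calc |dm Φ y i k| ≤ cn (pderiv k (Φ i)) * K ^ D := h2
      _ ≤ (D * 2 ^ b) * K ^ D := by
        refine mul_le_mul_of_nonneg_right (d1.trans ?_) (by positivity)
        gcongr
      _ = 2 ^ b * (D * K ^ D) := by ring
      _ ≤ 2 ^ b * 2 ^ b0 := by gcongr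
      _ = _ := by rw [pow_add]
  obtain ⟨T, hT, hm⟩ := hL (dm Φ y) (fun i => eval y (Φ i)) (b + b0) ρ R hA (by omega)
  refine ⟨T, hT.trans ?_, fun x hx hxc _ => hm (x - y) _ ?_ ?_⟩
  · rw [mul_assoc]
    refine mul_le_mul_of_nonneg_left (max_le ?_ ?_) (by positivity)
    · refine le_trans ?_ (le_mul_of_one_le_left (le_max_of_le_right (by positivity)) h1)
      refine le_max_of_le_left ?_
      gcongr
    · rw [← add_assoc, pow_add (2 : ℝ) (R + b), mul_comm _ ((2 : ℝ) ^ b0), mul_div_assoc, mul_pow]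
      exact mul_le_mul_of_nonneg_left (le_max_right _ _) (by positivity)
  · rw [one_div]; exact (norm_sub_lt_of_fl_eq (hxc.trans hyc.symm)).le
  · refine (pi_norm_le_iff_of_nonneg (by positivity)).2 fun i => ?_
    have h2 := EImgA.tay (Φ i) K _ x y (hΦ i).1 hK hx hy
      (norm_sub_lt_of_fl_eq (hxc.trans hyc.symm)).le
    have h3 := (hΦ i).2
    have h4 : (2 : ℝ) ^ b * ((2 ^ ρ)⁻¹ * (2 ^ ρ)⁻¹) ≤ (2 ^ R)⁻¹ := by
      rw [← mul_inv, ← pow_add, ← div_eq_mul_inv, ← one_div, div_le_div_iff₀ (by positivity)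
        (by positivity), ← pow_add, one_mul]
      exact pow_le_pow_right₀ one_le_two (by omega)
    refine le_trans (le_of_eq ?_) (h2.trans ?_)
    · simp [dm, Matrix.mulVec, dotProduct]
    · calc _ ≤ ((n + 1 : ℕ) : ℝ) * (D * (D * 2 ^ b) * K ^ D * (2 ^ ρ)⁻¹ * (2 ^ ρ)⁻¹) := by gcongr
        _ = ((n + 1 : ℕ) : ℝ) * (D * D * K ^ D) * (2 ^ b * ((2 ^ ρ)⁻¹ * (2 ^ ρ)⁻¹)) := by ring
        _ ≤ ((n + 1 : ℕ) : ℝ) * (D * D * K ^ D) * (2 ^ R)⁻¹ := by gcongr
        _ = _ := by rw [div_eq_mul_inv]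

end Pool.Agent.MP_5168f5_an.AN.En
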