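import Pool.Agent.MP_5168f5_an.AN.SpecE

/-! The number of cells near the linear image of a cube. -/

namespace Pool.Agent.MP_5168f5_an.AN.En

open H19 H17S H17F MvPolynomial Pk MeasureTheory

namespace ELinA

theorem cell_eq {N : ℕ} (R : ℕ) (z : Z N) : {x : V N | fl R x = z} =
    Set.pi Set.univ fun i => Set.Ico ((z i : ℝ) / 2 ^ R) ((z i + 1) / 2 ^ R) := by
  ext x
  have h : (0 : ℝ) < 2 ^ R := by positivity
  simp only [Set.mem_ofPred_eq, funext_iff, fl, Int.floor_eq_iff, Set.mem_pi, Set.mem_univ,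
    true_imp_iff, Set.mem_Ico, div_le_iff₀ h, lt_div_iff₀ h, mul_comm]

theorem cnt {N : ℕ} (R : ℕ) (U : Set (V N)) (v : ℝ) (hv : 0 ≤ v)
    (hU : volume U ≤ ENNReal.ofReal v) (T : Finset (Z N)) (hT : ∀ z ∈ T, ∀ x, fl R x = z → x ∈ U) :
    (T.card : ℝ) ≤ v * (2 ^ R) ^ N := by
  have h1 : ∀ z : Z N, volume {x : V N | fl R x = z} = ENNReal.ofReal ((1 / 2 ^ R) ^ N) := by
    intro z
    rw [cell_eq, Real.volume_pi_Ico]
    have e : ∀ i, ((z i : ℝ) + 1) / 2 ^ R - z i / 2 ^ R = 1 / 2 ^ R := fun i => by ring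
    simp only [e, Finset.prod_const, Finset.card_univ, Fintype.card_fin]
    rw [ENNReal.ofReal_pow (by positivity)]
  have h2 := measure_biUnion_finset (μ := volume) (s := T) (f := fun z => {x : V N | fl R x = z})
    (fun z _ z' _ h => Set.disjoint_left.2 fun x a b => h (a.symm.trans b))
    fun z _ => cell_eq R z ▸ MeasurableSet.univ_pi fun _ => measurableSet_Ico
  have h3 := (measure_mono (Set.iUnion₂_subset hT)).trans hU
  simp only [h1, Finset.sum_const, nsmul_eq_mul] at h2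
  rw [show (⋃ z ∈ T, fun x => fl R x = z) = ⋃ z ∈ T, {x : V N | fl R x = z} from rfl, h2,
    ← ENNReal.ofReal_natCast, ← ENNReal.ofReal_mul (Nat.cast_nonneg _),
    ENNReal.ofReal_le_ofReal_iff hv, one_div, inv_pow, mul_inv_le_iff₀ (by positivity)] at h3
  exact h3

variable {n : ℕ} {K : ℝ} (hK : 0 ≤ K) (A : Matrix (Fin (n + 1)) (Fin (n + 1)) ℝ) (c : V (n + 1))
  {b ρ R : ℕ} (hA : ∀ i k, |A i k| ≤ 2 ^ b)
include hK hA

theorem one (h : ∀ v, ‖v‖ * (1 / 2 ^ R) ≤ 1 / 2 ^ ρ * ‖A.mulVec v‖) : ∃ T : Finset (Z (n + 1)),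
    (T.card : ℝ) ≤ (2 * (K + 2)) ^ (n + 1) * (|A.det| * (2 ^ R / 2 ^ ρ) ^ (n + 1)) ∧
    ∀ h x : V (n + 1), ‖h‖ ≤ 1 / 2 ^ ρ → ‖x - c - A.mulVec h‖ ≤ K / 2 ^ R → fl R x ∈ T := by
  classical
  have hs : (0 : ℝ) < 1 / 2 ^ R := by positivity
  have hr : (0 : ℝ) < 1 / 2 ^ ρ := by positivity
  have hsur : Function.Surjective (Matrix.toLin' A) := by
    refine LinearMap.injective_iff_surjective.1 ((injective_iff_map_eq_zero _).2 fun v hv => ?_)
    have h1 := h v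
    rw [← Matrix.toLin'_apply, hv, norm_zero, mul_zero] at h1
    exact norm_le_zero_iff.1 (nonpos_of_mul_nonpos_left h1 hs)
  obtain ⟨T, -, hT⟩ := cells_near R c
    (L := K + (Fintype.card (Fin (n + 1)) * 2 ^ b * (1 / 2 ^ ρ)) * 2 ^ R) (by positivity)
  obtain ⟨U, hU⟩ : ∃ U, U = (fun y => -c + y) ⁻¹'
    (Matrix.toLin' A '' Metric.closedBall 0 ((K + 2) * (1 / 2 ^ ρ))) := ⟨_, rfl⟩
  refine ⟨T.filter fun z => ∀ y, fl R y = z → y ∈ U, ?_, fun g x hg hx =>
    Finset.mem_filter.2 ⟨hT x ?_, fun y hy => ?_⟩⟩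
  · refine (cnt R U (|A.det| * (2 * ((K + 2) * (1 / 2 ^ ρ))) ^ (n + 1)) (by positivity) ?_ _
      fun z hz => (Finset.mem_filter.1 hz).2).trans_eq ?_
    · rw [hU, measure_preimage_add, Measure.addHaar_image_linearMap, LinearMap.det_toLin',
        Real.volume_pi_closedBall _ (by positivity), Fintype.card_fin,
        ENNReal.ofReal_mul (abs_nonneg _)]
    · rw [mul_assoc, ← mul_pow, mul_left_comm _ |A.det|, ← mul_pow]
      congr 2
      ring
  · have h1 := (norm_mulVec_le (by positivity) hA g).trans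
      (mul_le_mul_of_nonneg_left hg (by positivity))
    have h2 := norm_add_le (x - c - A.mulVec g) (A.mulVec g)
    rw [sub_add_cancel] at h2
    rw [add_div, mul_div_cancel_right₀ _ (by positivity)]
    linarith
  · obtain ⟨v, hv⟩ := hsur (y - c - A.mulVec g)
    have h1 := norm_add_le (y - x) (x - c - A.mulVec g)
    have h2 := (norm_sub_lt_of_fl_eq hy).le
    have h3 := h v
    rw [show y - x + (x - c - A.mulVec g) = y - c - A.mulVec g by abel, ← hv,
      Matrix.toLin'_apply] at h1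
    rw [← one_div] at h2
    rw [div_eq_mul_one_div] at hx
    have h4 : ‖v‖ ≤ (K + 1) * (1 / 2 ^ ρ) := le_of_mul_le_mul_right (by nlinarith) hs
    rw [hU]
    refine ⟨g + v, mem_closedBall_zero_iff.2 ((norm_add_le _ _).trans (by linarith)), ?_⟩
    rw [map_add, hv, Matrix.toLin'_apply]
    abel

theorem two (hb : ρ ≤ R + b) (v : V (n + 1)) (h : 1 / 2 ^ ρ * ‖A.mulVec v‖ < ‖v‖ * (1 / 2 ^ R)) :
    ∃ T : Finset (Z (n + 1)),
    (T.card : ℝ) ≤ 7 ^ n * (2 * (K + n + 2) + 3) ^ (n + 1) * (2 ^ (R + b) / 2 ^ ρ) ^ n ∧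
    ∀ h x : V (n + 1), ‖h‖ ≤ 1 / 2 ^ ρ → ‖x - c - A.mulVec h‖ ≤ K / 2 ^ R → fl R x ∈ T := by
  classical
  have hs : (0 : ℝ) < 1 / 2 ^ R := by positivity
  have hr : (0 : ℝ) < 1 / 2 ^ ρ := by positivity
  have hq : (1 : ℝ) ≤ 2 ^ (R + b) / 2 ^ ρ :=
    (one_le_div (by positivity)).2 (pow_le_pow_right₀ one_le_two hb)
  obtain ⟨i, -, hi⟩ := Finset.univ.exists_max_image (fun i => |v i|) Finset.univ_nonempty
  have h1 : ‖v‖ ≤ |v i| :=
    (pi_norm_le_iff_of_nonneg (abs_nonneg _)).2 fun j => hi j (Finset.mem_univ _)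
  have h2 : 0 < ‖v‖ :=
    (mul_pos_iff_of_pos_right hs).1 ((mul_nonneg hr.le (norm_nonneg _)).trans_lt h)
  have h3 : v i ≠ 0 := abs_pos.1 (h2.trans_le h1)
  obtain ⟨T1, c1, m1⟩ := cells_near (R + b) (0 : Fin n → ℝ) (L := 2 * (2 ^ (R + b) / 2 ^ ρ))
    (by positivity)
  choose T2 c2 m2 using fun u : Fin n → ℤ => cells_near R
    (c + A.mulVec (i.insertNth 0 fun j => (u j : ℝ) / 2 ^ (R + b))) (L := K + n + 2) (by positivity)
  rw [Fintype.card_fin] at c1 c2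
  refine ⟨T1.biUnion T2, ?_, fun g x hg hx => ?_⟩
  · have h4 : ((T1.biUnion T2).card : ℝ) ≤ ∑ u ∈ T1, ((T2 u).card : ℝ) := by
      exact_mod_cast Finset.card_biUnion_le
    refine (h4.trans (Finset.sum_le_card_nsmul _ _ _ fun u _ => c2 u)).trans ?_
    rw [nsmul_eq_mul, mul_right_comm, ← mul_pow]
    exact mul_le_mul_of_nonneg_right (c1.trans (pow_le_pow_left₀ (by positivity) (by linarith) _))
      (by positivity)
  · obtain ⟨t, ht⟩ : ∃ t, t = g i / v i := ⟨_, rfl⟩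
    have h4 : |t| * ‖v‖ ≤ 1 / 2 ^ ρ := by
      refine (mul_le_mul_of_nonneg_left h1 (abs_nonneg _)).trans ?_
      rw [← abs_mul, ht, div_mul_cancel₀ _ h3]
      exact (norm_le_pi_norm g i).trans hg
    have h5 : ‖A.mulVec (t • v)‖ ≤ 1 / 2 ^ R := by
      rw [Matrix.mulVec_smul, norm_smul, Real.norm_eq_abs]
      exact le_of_mul_le_mul_left (by nlinarith [abs_nonneg t]) hr
    obtain ⟨w, hw⟩ : ∃ w, w = g - t • v := ⟨_, rfl⟩
    have h6 : ‖w‖ ≤ 2 * (2 ^ (R + b) / 2 ^ ρ) / 2 ^ (R + b) := by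
      rw [hw]
      refine (norm_sub_le _ _).trans ?_
      rw [norm_smul, Real.norm_eq_abs,
        show 2 * (2 ^ (R + b) / 2 ^ ρ) / 2 ^ (R + b) = (1 / 2 ^ ρ + 1 / 2 ^ ρ : ℝ) by field_simp; ring]
      linarith
    refine Finset.mem_biUnion.2 ⟨flv (R + b) fun j => w (i.succAbove j), m1 _ ?_, m2 _ _ ?_⟩
    · rw [sub_zero]
      exact (pi_norm_le_iff_of_nonneg (by positivity)).2 fun j => (norm_le_pi_norm w _).trans h6
    · obtain ⟨y, hy⟩ : ∃ y : V (n + 1), y = i.insertNth 0 fun j =>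
        ((flv (R + b) fun j => w (i.succAbove j)) j : ℝ) / 2 ^ (R + b) := ⟨_, rfl⟩
      have h7 : ‖w - y‖ ≤ 1 / 2 ^ (R + b) := by
        refine (pi_norm_le_iff_of_nonneg (by positivity)).2 ((Fin.forall_iff_succAbove i).2 ⟨?_, ?_⟩)
        · simp [hy, hw, ht, h3]
        · intro j
          have a := fl1_le (R + b) (w (i.succAbove j))
          have a' := lt_fl1 (R + b) (w (i.succAbove j))
          rw [Pi.sub_apply, hy, Fin.insertNth_apply_succAbove, Real.norm_eq_abs, abs_le, flv,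
            one_div, div_eq_inv_mul]
          constructor <;> linarith [(by positivity : (0 : ℝ) < (2 ^ (R + b))⁻¹)]
      have h8 := (norm_mulVec_le (by positivity) hA (w - y)).trans
        (mul_le_mul_of_nonneg_left h7 (by positivity))
      have h9 := norm_add₃_le (a := x - c - A.mulVec g) (b := A.mulVec (t • v))
        (c := A.mulVec (w - y))
      rw [← hy, show x - (c + A.mulVec y) = x - c - A.mulVec g + A.mulVec (t • v) +
        A.mulVec (w - y) by rw [hw, Matrix.mulVec_sub, Matrix.mulVec_sub]; abel]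
      rw [Fintype.card_fin, show ((n + 1 : ℕ) : ℝ) * 2 ^ b * (1 / 2 ^ (R + b)) = (n + 1) / 2 ^ R by
        push_cast; field_simp; ring] at h8
      rw [show (K + n + 2) / 2 ^ R = K / 2 ^ R + 1 / 2 ^ R + (n + 1) / 2 ^ R by ring]
      linarith

end ELinA

open ELinA in
theorem rowLinCnt : LinCnt := by
  intro n K hK
  have h0 : (0 : ℝ) ≤ n := Nat.cast_nonneg _
  have h7 : (1 : ℝ) ≤ 7 ^ n := one_le_pow₀ (by norm_num)
  refine ⟨7 ^ n * (2 * (K + n + 2) + 3) ^ (n + 1),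
    one_le_mul_of_one_le_of_one_le h7 (one_le_pow₀ (by linarith)), fun A c b ρ R hA hb => ?_⟩
  by_cases h : ∀ v, ‖v‖ * (1 / 2 ^ R) ≤ 1 / 2 ^ ρ * ‖A.mulVec v‖
  · refine (one hK A c hA h).imp fun T hT => ⟨hT.1.trans ?_, hT.2⟩
    exact mul_le_mul ((pow_le_pow_left₀ (by positivity) (by linarith) _).trans
      (le_mul_of_one_le_left (by positivity) h7)) (le_max_left _ _) (by positivity) (by positivity)
  · obtain ⟨v, hv⟩ := not_forall.1 h
    exact (two hK A c hA hb v (not_le.1 hv)).imp fun T hT =>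
      ⟨hT.1.trans (mul_le_mul_of_nonneg_left (le_max_right _ _) (by positivity)), hT.2⟩

end Pool.Agent.MP_5168f5_an.AN.En
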