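import Pool.Agent.MP_5168f5_an.AN.SpecE2

/-! A uniform point in the cell of the point of the line. -/

namespace Pool.Agent.MP_5168f5_an.AN.En

open H19 H17S H17F Filter MvPolynomial Pk R4

namespace ENoiseA

/-- The digits of the noise. -/
abbrev K (N B : ℕ) : Type := Fin (N + 1) → Fin (2 ^ B)

/-- The uniform law of the digits. -/
noncomputable def U (N B : ℕ) : FP (K N B) := FP.unif Finset.univ ⟨fun _ => ⟨0, by positivity⟩,
  Finset.mem_univ _⟩

theorem hhU (N B : ℕ) : ch (U N B) id (fun _ => ()) = (N + 1) * B * lg := by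
  have h : hh (U N B) id = (U N B).H ⊥ :=
    (U N B).H_congr fun _ _ _ _ => by simp [Setoid.ker_def]
  rw [ch_unit, h, U, FP.H_unif, Finset.card_univ, Fintype.card_fun, Fintype.card_fin,
    Fintype.card_fin]
  push_cast
  rw [Real.log_pow, log_two_pow]
  push_cast
  ring

variable {N : ℕ} (X : Cfg N) (M B : ℕ)

/-- The noise. -/
noncomputable def ze (k : K N B) : V (N + 1) := fun i => ((k i : ℕ) : ℝ) / 2 ^ B

/-- The cell. -/
noncomputable def cc (ω : X.Ω) : Z (N + 1) := Fin.cons (fl1 M (X.z ω)) (fl M (X.pt ω))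

/-- The point. -/
noncomputable def yy (v : X.Ω × K N B) : V (N + 1) := fun i =>
  ((2 : ℝ) ^ M)⁻¹ * (cc X M v.1 i + ze B v.2 i)

/-- The offset in the tube. -/
noncomputable def xi (v : X.Ω × K N B) : V N :=
  (2 : ℝ) ^ M • (Fin.tail (yy X M B v) - X.a v.1 - yy X M B v 0 • X.e v.1)

/-- The independent coupling. -/
noncomputable abbrev Q : FP (X.Ω × K N B) := glue X.P (U N B) (fun _ => ()) fun _ => ()

theorem law : Law X.P (fun _ => ()) (U N B) fun _ => () := fun F => by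
  rw [FP.E_const, FP.E_const]

theorem mem {v : X.Ω × K N B} (h : v ∈ (Q X B).S) : v.1 ∈ X.P.S := (kg.fst _ _ _ _).mem h

theorem tb_eq (v : X.Ω × K N B) :
    tb M (X.a v.1) (X.e v.1) (yy X M B v 0) (xi X M B v) = yy X M B v := by
  rw [tb, xi, smul_smul, inv_mul_cancel₀ (by positivity), one_smul]
  conv_rhs => rw [← Fin.cons_self_tail (yy X M B v)]
  congr 1
  abel

theorem fl_yy (v : X.Ω × K N B) (i : Fin (N + 1)) : fl1 M (yy X M B v i) = cc X M v.1 i := by
  rw [fl1, yy, ← mul_assoc, mul_inv_cancel₀ (by positivity), one_mul, Int.floor_intCast_add,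
    add_eq_left, Int.floor_eq_zero_iff, ze]
  exact ⟨by positivity, (div_lt_one (by positivity)).2 (by exact_mod_cast (v.2 i).2)⟩

theorem fl_yy' (v : X.Ω × K N B) : fl M (yy X M B v) = cc X M v.1 := by
  funext i
  rw [fl_apply, fl_yy]

theorem fl_ze (k : K N B) (i : Fin (N + 1)) : fl1 B (ze B k i) = (k i : ℕ) := by
  rw [fl1, ze, mul_div_cancel₀ _ (by positivity), Int.floor_natCast]

theorem ze_inj {k k' : K N B} {i : Fin (N + 1)} (h : fl1 B (ze B k i) = fl1 B (ze B k' i)) :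
    k i = k' i := by
  rw [fl_ze, fl_ze] at h
  exact Fin.ext (by exact_mod_cast h)

theorem yy_grid (v : X.Ω × K N B) (i : Fin (N + 1)) :
    (fl1 (M + B) (yy X M B v i) : ℝ) = 2 ^ (M + B) * yy X M B v i := by
  have h : (2 : ℝ) ^ (M + B) * yy X M B v i = ((2 ^ B * cc X M v.1 i + (v.2 i : ℕ) : ℤ) : ℝ) := by
    rw [yy, ze, pow_add]; push_cast; field_simp
  rw [fl1, h, Int.floor_intCast]

theorem yy_eq {u v : X.Ω × K N B} {i : Fin (N + 1)}
    (h : fl1 (M + B) (yy X M B u i) = fl1 (M + B) (yy X M B v i)) :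
    yy X M B u i = yy X M B v i := by
  have h1 := yy_grid X M B u i
  rw [h, yy_grid] at h1
  exact (mul_left_cancel₀ (by positivity) h1).symm

theorem xi_apply (v : X.Ω × K N B) (i : Fin N) : xi X M B v i = cc X M v.1 i.succ +
    ze B v.2 i.succ - 2 ^ M * (X.a v.1 i + yy X M B v 0 * X.e v.1 i) := by
  simp only [xi, Pi.smul_apply, Pi.sub_apply, smul_eq_mul, Fin.tail, yy]
  field_simp
  ring

theorem bd (h : X.Box) {v : X.Ω × K N B} (hv : v.1 ∈ X.P.S) : ‖X.a v.1‖ ≤ 1 ∧ ‖X.e v.1‖ ≤ 1 ∧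
    0 ≤ yy X M B v 0 ∧ yy X M B v 0 < 1 ∧ ‖xi X M B v‖ ≤ 4 := by
  obtain ⟨h1, h2, h3, h4⟩ := h _ hv
  have e0 : fl1 M (yy X M B v 0) = fl1 M (X.z v.1) := fl_yy X M B v 0
  have e1 := (fl1_eq_of_le (Nat.zero_le M) e0).trans (fl1_zero_of_box h3 h4)
  rw [fl1, pow_zero, one_mul, Int.floor_eq_zero_iff] at e1
  refine ⟨norm_le_one_of_box h1, norm_le_one_of_box h2, e1.1, e1.2,
    (pi_norm_le_iff_of_nonneg (by norm_num)).2 fun i => ?_⟩
  have e2 : fl1 M (yy X M B v i.succ) = fl1 M (X.pt v.1 i) := fl_yy X M B v i.succ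
  have e3 : xi X M B v i = 2 ^ M * ((yy X M B v i.succ - X.pt v.1 i) -
      (yy X M B v 0 - X.z v.1) * X.e v.1 i) := by
    simp only [xi, Pi.smul_apply, Pi.sub_apply, smul_eq_mul, Fin.tail, Cfg.pt, Pi.add_apply]
    ring
  have e4 := mul_le_mul (abs_sub_lt_of_fl1_eq e0).le
    (show |X.e v.1 i| ≤ 1 by rw [abs_of_nonneg (h2 i).1]; exact (h2 i).2.le) (abs_nonneg _)
    (by positivity)
  rw [← abs_mul, mul_one] at e4
  have e5 := (abs_sub _ _).trans (add_le_add (abs_sub_lt_of_fl1_eq e2).le e4)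
  have e6 := mul_le_mul_of_nonneg_left e5 (show (0 : ℝ) ≤ 2 ^ M by positivity)
  rw [mul_add, mul_inv_cancel₀ (by positivity)] at e6
  rw [Real.norm_eq_abs, e3, abs_mul, abs_of_pos (show (0 : ℝ) < 2 ^ M by positivity)]
  linarith

theorem mi0 : mi (Q X B) Prod.fst (yy X M B) (fun v => fl M (yy X M B v)) = 0 := by
  refine le_antisymm ?_ (mi_nonneg _ _ _)
  have e : (fun v => fl M (yy X M B v)) = fun v => cc X M v.1 :=
    funext (fl_yy' X M B)
  have h1 := (kg.fst X.P (U N B) (fun _ => ()) fun _ => ()).ch_id id (cc X M)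
  have h2 : ch X.P id (cc X M) ≤ ch X.P id fun x => ((), cc X M x) :=
    ch_anti (Fn.pair (fun _ _ _ _ _ => rfl) (Fn.rfl _))
  have h3 := kg.mkv' X.P (U N B) (fun _ => ()) (fun _ => ()) id (cc X M) id (law X B)
    fun _ _ _ _ _ => rfl
  have h4 : ch (Q X B) Prod.fst (fun v => (v.2, cc X M v.1)) ≤
      ch (Q X B) Prod.fst fun v => (yy X M B v, cc X M v.1) := by
    refine ch_anti (Fn.pair (fun a _ b _ u => funext fun i => ?_) (Fn.snd _ _))
    obtain ⟨u1, u2⟩ := Prod.mk.inj u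
    rw [yy, yy, u1, u2]
  rw [e, mi]
  exact sub_nonpos.2 (h1.trans_le (h2.trans (h3.symm.trans_le h4)))

theorem full (hg : Fn X.P X.z fun ω => fl1 M (X.z ω)) {j : ℕ} (h2 : j ≤ B) :
    (N + 1) * j * lg + ch X.P (fun ω => fl1 M (X.z ω)) X.ln ≤ M * lg + N * Real.log 5 +
      ch (Q X B) (fun v => fl j (Fin.cons (yy X M B v 0) (xi X M B v) : V (N + 1)))
        fun v => (X.a v.1, X.e v.1) := by
  set p := fun v => fl j (Fin.cons (yy X M B v 0) (xi X M B v) : V (N + 1)) with hp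
  have a1 := ch_chain (P := Q X B) (fun v => fl1 M (X.z v.1)) Prod.snd
    fun v => (X.a v.1, X.e v.1)
  have a2 := (kg.fst X.P (U N B) (fun _ => ()) fun _ => ()).ch_id (fun ω => fl1 M (X.z ω))
    fun ω => (X.a ω, X.e ω)
  have b2 : ch X.P (fun ω => fl1 M (X.z ω)) X.ln ≤
      ch X.P (fun ω => fl1 M (X.z ω)) fun ω => (X.a ω, X.e ω) :=
    ch_anti fun _ _ _ _ u => congrArg (fun w => (w.1, w.2.1)) u
  have a3 : ch (Q X B) Prod.snd (fun v => (fl1 M (X.z v.1), X.a v.1, X.e v.1)) = _ :=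
    (kg.mk1 X.P (U N B) (fun _ => ()) (fun _ => ()) id
      (fun ω => (fl1 M (X.z ω), X.a ω, X.e ω)) (law X B) fun _ _ _ _ _ => rfl).trans (hhU N B)
  have a4 := ch_tri (P := Q X B) (fun v => (fl1 M (X.z v.1), v.2)) p fun v => (X.a v.1, X.e v.1)
  have z0 : ∀ u v : X.Ω × K N B, yy X M B u 0 = yy X M B v 0 →
      fl1 M (X.z u.1) = fl1 M (X.z v.1) := fun u v e =>
    (fl_yy X M B u 0).symm.trans ((congrArg (fl1 M) e).trans (fl_yy X M B v 0))
  have a5 : ch (Q X B) (fun v => (fl1 M (X.z v.1), v.2)) (fun v => (p v, X.a v.1, X.e v.1)) ≤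
      ch (Q X B) (fun v => (fl1 (M + B) (yy X M B v 0), flv B fun i : Fin N => ze B v.2 i.succ))
        fun v => (p v, X.a v.1, X.e v.1) := by
    refine ch_mono fun u _ v _ e => ?_
    obtain ⟨e1, e2⟩ := Prod.mk.inj (Prod.mk.inj e).1
    have e3 := yy_eq X M B e1
    refine Prod.ext (z0 u v e3) (funext fun i => ze_inj B ?_)
    rcases Fin.eq_zero_or_eq_succ i with rfl | ⟨i, rfl⟩
    · have e4 : cc X M u.1 0 = cc X M v.1 0 := z0 u v e3
      rw [yy, yy, e4] at e3
      exact congrArg (fl1 B) (add_left_cancel (mul_left_cancel₀ (by positivity) e3))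
    · exact congrFun e2 i
  obtain ⟨d, rfl⟩ := Nat.exists_eq_add_of_le h2
  have a6 := ch_fl1_refine (P := Q X (j + d)) (x := fun v => yy X M (j + d) v 0)
    (G := fun v => (p v, X.a v.1, X.e v.1)) (j := fun _ => j) (i := fun _ => M + d)
    (fun _ _ _ _ _ => rfl) (fun _ _ _ _ _ => rfl) fun u _ v _ e => congrFun (Prod.mk.inj e).1 0
  have a7 := ch_near (P := Q X (j + d)) (x := fun v (i : Fin N) => ze (j + d) v.2 i.succ)
    (G := fun v => (fl1 (M + (j + d)) (yy X M (j + d) v 0), p v, X.a v.1, X.e v.1))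
    (j := j + d) (L := 2 ^ d) (by positivity) fun u hu v hv e => by
      simp only [Prod.mk.injEq] at e
      have e3 := yy_eq X M _ e.1
      have e4 := hg _ (mem X _ hu) _ (mem X _ hv) (z0 u v e3)
      have e5 : cc X M u.1 = cc X M v.1 := by rw [cc, cc, Cfg.pt, Cfg.pt, e4, e.2.2.1, e.2.2.2]
      refine (pi_norm_le_iff_of_nonneg (by positivity)).2 fun i => ?_
      have e6 : fl1 j (xi X M (j + d) u i) = fl1 j (xi X M (j + d) v i) := congrFun e.2.1 i.succ
      have e7 := (abs_sub_lt_of_fl1_eq e6).le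
      rw [xi_apply, xi_apply, e3, e5, e.2.2.1, e.2.2.2] at e7
      rw [Real.norm_eq_abs, Pi.sub_apply,
        show (2 : ℝ) ^ d / 2 ^ (j + d) = (2 ^ j)⁻¹ by rw [pow_add]; field_simp]
      exact le_trans (le_of_eq (congrArg _ (by ring))) e7
  have a8 : Real.log (2 * 2 ^ d + 3) ≤ Real.log 5 + d * lg := by
    have : (1 : ℝ) ≤ 2 ^ d := one_le_pow₀ one_le_two
    rw [← log_two_pow, ← Real.log_mul (by norm_num) (by positivity)]
    exact Real.log_le_log (by positivity) (by linarith)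
  have a9 := mul_le_mul_of_nonneg_left a8 (Nat.cast_nonneg (α := ℝ) N)
  rw [Fintype.card_fin] at a7
  rw [FP.E_const, show j + (M + d) = M + (j + d) by ring] at a6
  rw [ch_chain (fun v => fl1 (M + (j + d)) (yy X M (j + d) v 0))] at a5
  push_cast at a3 a6
  linarith

end ENoiseA

open ENoiseA in
theorem rowNoise : Noise := by
  intro N x M h
  refine ⟨_, fun n => Q (x n) (n * M n), fun _ => Prod.fst, fun n v => yy (x n) (M n) _ v 0,
    fun n => xi (x n) (M n) _, fun n => kg.fst _ _ _ _,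
    ⟨h.big, Eventually.of_forall fun n v hv => bd _ _ _ (h.box n) (mem _ _ hv),
      Eventually.of_forall fun n u hu v hv e => congrArg (fun w => (w.1, w.2.1))
        (h.sep n _ (mem _ _ hu) _ (mem _ _ hv) e), fun A => ?_⟩, fun n => ⟨fun v => ?_, ?_⟩⟩
  · refine Le.of2 h.hgt (h.big.sm (N * Real.log 5)) ((ev_ge A).mono fun n a => ?_)
    have := full (x n) (M n) (n * M n) (h.grid n) (Nat.mul_le_mul_right _ a)
    linarith
  · rw [tb_eq]
    exact fl_yy' _ _ _ v
  · simp only [tb_eq]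
    exact mi0 _ _ _

end Pool.Agent.MP_5168f5_an.AN.En
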