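import Pool.Agent.MP_5168f5_an.AN.SpecE3

/-! A density bound gives full entropy on all events of positive probability. -/

namespace Pool.Agent.MP_5168f5_an.AN.En

open H19 H17S H17F Filter MvPolynomial R4 S20

namespace EOfFullA

theorem fin {Ω α β : Type} {P : FP Ω} {Y : Ω → α} {A : Ω → β} {G E : Ω → Prop} {D D' θ κ η : ℝ}
    (h : DB P Y A G D) (hκ : 0 < κ) (hE : κ ≤ pb P E) (hθ : 0 < θ) (hD : 2 * D ≤ θ * D')
    (hG : 2 * pb P (fun v => ¬G v) + θ ≤ κ * η) :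
    1 - η ≤ pb (cE P E) fun v => dn (cE P E) Y A v ≤ D' := by
  have h1 := pb_or P (fun v => ¬dn P Y A v ≤ 2 * D) fun v => E v ∧ pb (cv P A (A v)) E ≤ θ
  have h2 : pb P (fun v => E v ∧ ¬dn (cE P E) Y A v ≤ D') ≤
      pb P fun v => ¬dn P Y A v ≤ 2 * D ∨ E v ∧ pb (cv P A (A v)) E ≤ θ := pb_mono fun v hv k => by
    by_contra k'
    rw [not_or, not_not, not_and, not_le] at k'
    exact k.2 (le_of_mul_le_mul_left (((mul_le_mul_of_nonneg_right (k'.2 k.1).le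
      (pb_nonneg _ _)).trans (dn_cE hv k.1 Y A)).trans (k'.1.trans hD)) hθ)
  rw [← pb_cE, pb_not] at h2
  have h3 := mul_le_mul_of_nonneg_right hE
    (sub_nonneg.2 (pb_le_one (cE P E) fun v => dn (cE P E) Y A v ≤ D'))
  have h4 := le_of_mul_le_mul_left
    (h3.trans (h2.trans (h1.trans ((add_le_add h.meas (rare P A E hθ.le)).trans hG)))) hκ
  linarith

end EOfFullA

theorem rowOfFull : OfFull := by
  intro N Ω Λ P M y A K E hM ⟨G, Γ, hG, hΓ, hD⟩ ⟨κ, hκ, hE⟩ ε hε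
  obtain ⟨η, hη, e⟩ : ∃ η : ℝ, 0 < η ∧ η * (N * K) ≤ ε / 2 :=
    ⟨ε / 2 / (N * K + 1), by positivity, by
      rw [div_mul_eq_mul_div, div_le_iff₀ (by positivity)]; nlinarith⟩
  have hθ : 0 < κ * η / 2 := by positivity
  have hL := hΓ.const_mul hM (C := 1 + 2 / (κ * η / 2)) (le_add_of_nonneg_right (by positivity))
  filter_upwards [hD, hE, hG (κ * η / 4) (by positivity), hL.log (ε / 2) (half_pos hε)]
    with n h1 h2 h3 h4
  have g1 := hΓ.pos n
  have h5 := EOfFullA.fin (η := η) (Y := fun ω => fl (K * M n) (y n ω))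
    (D' := (1 + 2 / (κ * η / 2)) * Γ n / (2 ^ (K * M n)) ^ N) h1 hκ h2 hθ (by
      rw [← mul_div_assoc, ← mul_div_assoc, ← mul_assoc, mul_add, mul_div_cancel₀ _ hθ.ne']
      gcongr
      linarith) (by linarith)
  have h6 := le_ch (cE (P n) (E n)) (fun ω => fl (K * M n) (y n ω)) (A n)
    ((1 + 2 / (κ * η / 2)) * Γ n / (2 ^ (K * M n)) ^ N)
  have h7 := pb_le_one (cE (P n) (E n)) fun v => dn (cE (P n) (E n))
    (fun ω => fl (K * M n) (y n ω)) (A n) v ≤ (1 + 2 / (κ * η / 2)) * Γ n / (2 ^ (K * M n)) ^ N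
  rw [Real.log_div (hL.pos n).ne' (by positivity), Real.log_pow, log_two_pow] at h6
  have h8 := Real.log_nonneg (hL.1 n)
  have h9 : (0 : ℝ) ≤ N * K * M n := by positivity
  have h10 := mul_le_mul_of_nonneg_right e (Nat.cast_nonneg (M n) : (0 : ℝ) ≤ M n)
  have h11 := mul_le_mul_of_nonneg_left h5 (mul_nonneg h9 lg_pos.le)
  have h12 := mul_le_mul_of_nonneg_left lg_lt_one.le (mul_nonneg hη.le h9)
  have h13 := mul_le_mul_of_nonneg_left h7 h8
  push_cast at h6 ⊢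
  linarith

end Pool.Agent.MP_5168f5_an.AN.En
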