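import Pool.Agent.MP_5168f5_an.AN.SpecE3

/-! Row PKcn: coefficients and the inequality of Remez for polynomial kinds. -/

namespace Pool.Agent.MP_5168f5_an.AN.En

open H19 H17S H17F Filter MvPolynomial R4
open G39 (dl)
open Pk (cn)
open Nc (Pl ev)

namespace EPKcnA

theorem base {N k : ℕ} {Ω : ℕ → Type} {P : ∀ n, FP (Ω n)} {M : ℕ → ℕ} {x : ∀ n, Ω n → V N}
    {κ : ∀ n, Kd k (Ω n)} {Ψ : ∀ n, (κ n).T → Fin N → Pl k} {D : ℕ} (h : PK P M x κ Ψ D) (K : ℕ)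
    {G₀ : ∀ n, Ω n → Prop} (h0 : Whp P G₀) : ∃ (G : ∀ n, Ω n → Prop) (L : ℕ → ℝ), Whp P G ∧
      Sub M L ∧ (∀ n ω, G n ω → G₀ n ω) ∧ ∀ᶠ n in UF, ∀ ω ∈ (P n).S, G n ω →
        ‖(κ n).p ω‖ ≤ L n ∧ (∀ i, (Ψ n ((κ n).Z ω) i).totalDegree ≤ D ∧
          x n ω i = eval ((κ n).p ω) (Ψ n ((κ n).Z ω) i)) ∧
        ∀ c, pb (cv (P n) (κ n).Z ((κ n).Z ω)) (fun v => G n v ∧ flv (K * M n) ((κ n).p v) = c) ≤
          L n / (2 ^ (K * M n)) ^ k := by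
  obtain ⟨G1, L1, g1, l1, e1⟩ := h.bd
  obtain ⟨G2, L2, g2, l2, e2⟩ := h.den K
  refine ⟨_, _, (h0.and g1).and (g2.and h.eq), l1.add l2 h.big, fun _ _ a => a.1.1, ?_⟩
  filter_upwards [e1, e2] with n a b ω hω g
  exact ⟨(a ω hω g.1.2).trans (le_add_of_nonneg_right (l2.pos n).le),
    fun i => ⟨h.deg _ _ _, congrFun g.2.2 i⟩, fun c =>
      (pb_mono fun v _ u => ⟨u.1.2.1, u.2⟩).trans ((b ω hω c).trans
        (div_le_div_of_nonneg_right (le_add_of_nonneg_left (l1.pos n).le) (by positivity)))⟩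

end EPKcnA

open EPKcnA in
theorem rowPKcn : PKcn := by
  intro N k Ω P M x κ Ψ D h ⟨G₀, Γ, g0, hΓ, e0⟩
  have hM := h.big
  refine ⟨?_, Pk.rem_poly hM fun A => ?_⟩
  · obtain ⟨G, L, g, hL, g1, e⟩ := base h 1 g0
    obtain ⟨C, hC, r⟩ := Pk.cn_poly k D 1
    have s := ((hL.pow ((k * (k + 1) + 1) * (1 * D))).const_mul hM hC).mul
      ((Sub.nat hM).pow (k * D * 1))
    have w : Whp P fun n ω => ¬(G n ω ∧
        pb (cv (P n) (κ n).Z ((κ n).Z ω)) (G n) ≤ ((M n : ℝ) + 1)⁻¹) := fun ε hε =>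
      (hM.ev ε⁻¹).mono fun n a => (pb_mono fun _ _ => not_not.1).trans
        ((S20.rare _ _ _ (by positivity)).trans (inv_le_of_inv_le₀ hε (by linarith)))
    refine ⟨_, _, g.and w, s.mul hΓ, ?_⟩
    filter_upwards [e, e0, s.2 _ one_half_pos] with n a b c ω hω u i
    have := r (P n) (x n) (κ n).Z (G n) (κ n).p (Ψ n) (L n) ((M n : ℝ) + 1)⁻¹ (1 * M n) (hL.1 n)
      (by positivity) a (by
        rw [inv_inv, one_mul (M n)]
        exact c.trans (le_trans (by rw [one_div, ← div_eq_inv_mul]) (exp_le_two_pow _)))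
      ω hω u.1 (X i) (by simp) (Γ n) _ le_rfl
      ((not_le.1 fun z => u.2 ⟨u.1, z⟩).le.trans (pb_mono fun v hv z => ⟨z, by
        rw [eval_X]
        exact (norm_le_pi_norm (x n v) i).trans (b v (cE_sub hv) (g1 n v z))⟩))
    rw [aeval_X, inv_inv] at this
    exact (le_mul_of_one_le_right (Pk.kc.nonneg _) (one_le_pow₀ (hL.1 n))).trans this
  · obtain ⟨G, L, g, hL, -, e⟩ := base h ⌈2 * A⌉₊ g0
    refine ⟨G, fun n => (κ n).p, Ψ, L, fun n => ⌈2 * A⌉₊ * M n, g, hL, e.mono fun n a => ⟨?_, a⟩⟩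
    rw [G39.dl_inv]
    refine (Real.exp_le_exp.2 ?_).trans (exp_le_two_pow _)
    push_cast
    linarith [mul_le_mul_of_nonneg_right (Nat.le_ceil (2 * A)) (Nat.cast_nonneg (α := ℝ) (M n))]

end Pool.Agent.MP_5168f5_an.AN.En
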