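import Pool.Agent.MP_5168f5_an.AN.NcTay

/-! The Jacobian criterion with a bound for the degree. -/

namespace Pool.Agent.MP_5168f5_an.AN.Nc

open MvPolynomial Finset H83 Matrix

variable {n : ℕ}

theorem pderiv_aeval {k : ℕ} (Φ : Fin k → Pl n) (H : Pl k) (j : Fin n) :
    pderiv j (aeval Φ H) = ∑ i, aeval Φ (pderiv i H) * pderiv j (Φ i) := by
  classical
  induction H using MvPolynomial.induction_on with
  | C a => simp
  | add p q hp hq => simp only [map_add, hp, hq, add_mul, sum_add_distrib]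
  | mul_X p i hp =>
    simp only [map_mul, aeval_X, Derivation.leibniz, hp, smul_eq_mul, map_add, add_mul,
      sum_add_distrib, mul_sum, pderiv_X, Pi.single_apply]
    congr 1
    · rw [sum_eq_single i]
      · simp
      · intro b _ hb
        simp [Ne.symm hb]
      · simp
    · exact sum_congr rfl fun b _ => by ring

/-- A relation of minimal order has a nonzero derivative. -/
theorem min_rel {L : ℕ} {Φ : Fin n → Pl n} (G : Pl n)
    (hi : ∀ H : Pl n, H.totalDegree ≤ L → aeval Φ H = 0 → H = 0) : ∀ (s : ℕ) (r : ℕ → Pl n),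
    (∃ j < s, r j ≠ 0) → (∀ j, (r j).totalDegree ≤ L) →
    ∑ j ∈ range s, aeval Φ (r j) * G ^ j = 0 → ∃ (t : ℕ) (q : ℕ → Pl n),
      ∑ j ∈ range (t + 1), aeval Φ (q j) * G ^ j = 0 ∧
      ∑ j ∈ range t, aeval Φ (q (j + 1)) * (j + 1) * G ^ j ≠ 0
  | 0, _, ⟨_, h, _⟩, _, _ => absurd h (Nat.not_lt_zero _)
  | s + 1, r, ⟨j₀, h0, h1⟩, hd, h => by
    by_cases e : ∑ j ∈ range s, aeval Φ (r (j + 1)) * (j + 1) * G ^ j = 0
    · refine min_rel G hi s (fun j => C (j + 1 : ℝ) * r (j + 1)) ?_
        (fun j => (totalDegree_mul _ _).trans (by rw [totalDegree_C, zero_add]; exact hd _)) ?_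
      · by_contra k
        push Not at k
        have k1 : ∀ j < s, r (j + 1) = 0 := fun j hj => (mul_eq_zero.1 (k j hj)).resolve_left
          (by rw [C_eq_zero]; positivity)
        rw [sum_range_succ', sum_eq_zero fun j hj => by rw [k1 j (mem_range.1 hj)]; simp] at h
        rcases j₀ with _ | j₀
        · exact h1 (hi _ (hd 0) (by simpa using h))
        · exact h1 (k1 j₀ (by omega))
      · rw [← e]
        exact sum_congr rfl fun j _ => by simp [mul_comm]
    · exact ⟨s, r, h, e⟩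

/-- Polynomials without a relation of small degree have a nonzero Jacobian. -/
theorem jac_ne_zero {D : ℕ} {Φ : Fin n → Pl n} (hΦ : ∀ i, (Φ i).totalDegree ≤ D)
    (hi : ∀ H : Pl n, H.totalDegree ≤ n * ord n D → aeval Φ H = 0 → H = 0) : jac Φ ≠ 0 := by
  classical
  have key : ∀ k : Fin n, ∃ (a : Fin n → Pl n) (b : Pl n), b ≠ 0 ∧
      ∀ j, ∑ i, a i * jm Φ i j = if k = j then b else 0 := by
    intro k
    obtain ⟨r, ⟨j₀, h0⟩, hd, h⟩ := rel Φ (X k) hΦ (E := 1) (by simp)
    obtain ⟨t, q, h1, h2⟩ := min_rel (X k) hi (ord n D + 1)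
      (fun j => if hj : j < ord n D + 1 then r ⟨j, hj⟩ else 0) ⟨j₀, j₀.2, by rwa [dif_pos j₀.2]⟩
      (fun j => by
        split_ifs
        · simpa using hd _
        · simp) (by rw [sum_range]; simpa only [dif_pos (Fin.is_lt _)] using h)
    refine ⟨fun i => ∑ l ∈ range (t + 1), aeval Φ (pderiv i (q l)) * X k ^ l, -_, neg_ne_zero.2 h2,
      fun j => ?_⟩
    have h3 := congrArg (pderiv j) h1
    simp only [map_sum, Derivation.leibniz, pderiv_aeval, smul_eq_mul, map_zero, sum_add_distrib,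
      Derivation.leibniz_pow, pderiv_X] at h3
    rw [sum_range_succ'] at h3
    simp only [zero_smul, mul_zero, add_zero, Nat.add_sub_cancel] at h3
    have h4 : ∑ i, (∑ l ∈ range (t + 1), aeval Φ (pderiv i (q l)) * X k ^ l) * jm Φ i j =
        ∑ l ∈ range (t + 1), X k ^ l * ∑ i, aeval Φ (pderiv i (q l)) * pderiv j (Φ i) := by
      simp only [sum_mul, mul_sum, jm, Matrix.of_apply]
      rw [sum_comm]
      exact sum_congr rfl fun l _ => sum_congr rfl fun i _ => by ring
    rw [h4, ← neg_eq_of_add_eq_zero_right h3, Pi.single_apply]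
    split_ifs
    · exact congrArg _ (sum_congr rfl fun l _ => by simp [mul_assoc])
    · simp
  choose a b h1 h2 using key
  have e : Matrix.of a * jm Φ = Matrix.diagonal b := by
    ext1 k j
    rw [Matrix.mul_apply, Matrix.diagonal_apply]
    exact h2 k j
  intro h
  have := congrArg Matrix.det e
  rw [Matrix.det_mul, Matrix.det_diagonal, show (jm Φ).det = 0 from h, mul_zero] at this
  exact prod_ne_zero_iff.2 (fun k _ => h1 k) this.symm

/-- The Jacobian of a composition. -/
theorem jac_comp (Φ Ψ : Fin n → Pl n) :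
    jac (fun i => aeval Φ (Ψ i)) = aeval Φ (jac Ψ) * jac Φ := by
  have e : jm (fun i => aeval Φ (Ψ i)) = (jm Ψ).map (aeval Φ) * jm Φ := by
    ext1 i j
    simp only [jm, Matrix.of_apply, pderiv_aeval, Matrix.mul_apply, Matrix.map_apply]
  rw [jac, e, Matrix.det_mul, jac, jac]
  exact congrArg (· * _) (AlgHom.map_det (aeval Φ : Pl n →ₐ[ℝ] Pl n) (jm Ψ)).symm

end Pool.Agent.MP_5168f5_an.AN.Nc
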