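import Pool.Agent.MP_5168f5_an.AN.SpecE3
import Pool.Agent.MP_5168f5_an.AN.NcJac

/-! Jets of a polynomial kind. -/

namespace Pool.Agent.MP_5168f5_an.AN.En

open H19 H17S H17F Filter MvPolynomial R4
open G39 (dl)
open Pk (cn)
open Nc (Pl ev)

namespace EPKwhA

variable {k : ℕ}

/-- The polynomial in the displacement from `p`. -/
noncomputable def sh (p : V k) (F : Pl k) : Pl k := aeval (fun l => C (p l) + X l) F

/-- The terms of degree at most `j`. -/
noncomputable def tr (j : ℕ) (S : Pl k) : Pl k :=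
  ∑ m ∈ S.support.filter fun m => (m.sum fun _ e => e) ≤ j, monomial m (coeff m S)

theorem eval_sh (p q : V k) (F : Pl k) : eval (q - p) (sh p F) = eval q F := by
  rw [sh, Pk.eval_aeval]
  simp

theorem deg_sh (p : V k) {F : Pl k} {D : ℕ} (h : F.totalDegree ≤ D) : (sh p F).totalDegree ≤ D :=
  (Pk.kc.deg _ F D 1 h fun l => (totalDegree_add _ _).trans (by simp)).trans_eq (mul_one D)

theorem cn_sh {p : V k} {F : Pl k} {D : ℕ} {Γ : ℝ} (h : F.totalDegree ≤ D) (h1 : 1 ≤ Γ)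
    (hp : ‖p‖ ≤ Γ) : cn (sh p F) ≤ cn F * (2 * Γ) ^ D :=
  Pk.kc.comp _ F D _ h (by linarith) fun l => (Pk.kc.add _ _).trans (by
    rw [Pk.kc.const, Pk.kc.var]
    linarith [show |p l| ≤ ‖p‖ from norm_le_pi_norm p l])

theorem coeff_sh (p : V k) (F : Pl k) (c : Fin k) :
    coeff (Finsupp.single c 1) (sh p F) = eval p (pderiv c F) := by
  have h1 : pderiv c (sh p F) = sh p (pderiv c F) := by
    rw [sh, Nc.pderiv_aeval]
    simp [sh, Pi.single_apply]
  have h2 := coeff_pderiv (i := c) (sh p F) 0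
  rw [← eval_sh p p, sub_self, eval_zero, constantCoeff_eq, ← h1, h2]
  simp

theorem deg_tr (j : ℕ) (S : Pl k) : (tr j S).totalDegree ≤ j :=
  totalDegree_finsetSum_le fun _ hm =>
    (totalDegree_monomial_le _ _).trans (Finset.mem_filter.1 hm).2

theorem cn_tr (j : ℕ) (S : Pl k) : cn (tr j S) ≤ cn S :=
  (Pk.kc.sum _ _).trans (by
    simp only [Pk.kc.mono]
    exact Finset.sum_le_sum_of_subset_of_nonneg (Finset.filter_subset _ _)
      fun _ _ _ => abs_nonneg _)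

theorem coeff_tr (j : ℕ) (S : Pl k) (c : Fin k) :
    coeff (Finsupp.single c 1) (tr (j + 1) S) = coeff (Finsupp.single c 1) S := by
  simp only [tr, coeff_sum, coeff_monomial, Finset.sum_ite_eq', Finset.mem_filter, mem_support_iff]
  split_ifs with h
  · rfl
  · simpa [eq_comm] using h

theorem rest (j : ℕ) {S : Pl k} {D : ℕ} {B : ℝ} (h : S.totalDegree ≤ D) (h1 : 1 ≤ B) {u : V k}
    (hu : ‖u‖ ≤ B) : |eval u S - eval u (tr j S)| ≤ cn S * B ^ D * ‖u‖ ^ (j + 1) := by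
  have e : eval u S - eval u (tr j S) = ∑ m ∈ S.support.filter fun m => ¬(m.sum fun _ e => e) ≤ j,
      coeff m S * ∏ i ∈ m.support, u i ^ m i := by
    rw [eval_eq u S, ← Finset.sum_filter_add_sum_filter_not _ fun m => (m.sum fun _ e => e) ≤ j]
    simp only [tr, map_sum, eval_monomial, Finsupp.prod, add_sub_cancel_left]
  rw [e, cn, mul_assoc, Finset.sum_mul]
  refine (Finset.abs_sum_le_sum_abs _ _).trans ((Finset.sum_le_sum fun m hm => ?_).trans
    (Finset.sum_le_sum_of_subset_of_nonneg (Finset.filter_subset _ _) fun _ _ _ => by positivity))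
  obtain ⟨h2, h3⟩ := Finset.mem_filter.1 hm
  obtain ⟨r, hr⟩ := Nat.exists_eq_add_of_le' (Nat.succ_le_of_lt (not_le.1 h3))
  have h4 := (le_totalDegree h2).trans h
  rw [abs_mul, Finset.abs_prod]
  refine mul_le_mul_of_nonneg_left ((Finset.prod_le_prod (g := fun i => ‖u‖ ^ m i)
    (fun _ _ => abs_nonneg _) fun i _ => ?_).trans ?_) (abs_nonneg _)
  · rw [abs_pow]
    exact pow_le_pow_left₀ (abs_nonneg _) (norm_le_pi_norm u i) _
  · rw [Finset.prod_pow_eq_pow_sum, show ∑ i ∈ m.support, m i = _ from hr, pow_add]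
    exact mul_le_mul_of_nonneg_right ((pow_le_pow_left₀ (norm_nonneg u) hu r).trans
      (pow_le_pow_right₀ h1 (by omega))) (by positivity)

end EPKwhA

open EPKwhA in
theorem rowPKwh : PKwh := by
  rintro N k Ω P M x κ Ψ D m h ⟨G2, Γ2, w2, s2, e2⟩ ⟨G3, Γ3, w3, s3, e3⟩ j
  obtain ⟨G1, Γ1, w1, s1, e1⟩ := h.bd
  have sB := (s1.const_mul h.big one_le_two).pow D
  refine ⟨_, _, w1.and (w2.and (w3.and h.eq)), ((s2.mul sB).mul sB).add s3 h.big, ?_⟩
  filter_upwards [e1, e2, e3] with n a1 a2 a3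
  refine ⟨fun ω i => tr (j + 1) (sh ((κ n).p ω) (Ψ n ((κ n).Z ω) i)), fun ω hω g => ?_⟩
  have l2 := s2.pos n
  have l3 := s3.pos n
  have lB := sB.1 n
  have c : ∀ i, cn (sh ((κ n).p ω) (Ψ n ((κ n).Z ω) i)) ≤ Γ2 n * (2 * Γ1 n) ^ D := fun i =>
    (cn_sh (h.deg n _ i) (s1.1 n) (a1 ω hω g.1)).trans
      (mul_le_mul_of_nonneg_right (a2 ω hω g.2.1 i) (by positivity))
  refine ⟨fun i => ⟨deg_tr _ _, (cn_tr _ _).trans ((c i).trans ?_)⟩, ?_, fun v hv g' z _ => ?_⟩
  · linarith [le_mul_of_one_le_right (show 0 ≤ Γ2 n * (2 * Γ1 n) ^ D by positivity) lB]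
  · obtain ⟨r, c, e⟩ := a3 ω hω g.2.2.1
    refine ⟨r, c, ?_⟩
    simp only [coeff_tr, coeff_sh]
    exact (inv_anti₀ l3 (le_add_of_nonneg_left (by positivity))).trans e
  · refine (pi_norm_le_iff_of_nonneg (by positivity)).2 fun i => ?_
    have h1 := rest (j + 1) (deg_sh ((κ n).p ω) (h.deg n ((κ n).Z ω) i)) (B := 2 * Γ1 n)
      (by linarith [s1.1 n]) (u := (κ n).p v - (κ n).p ω)
      ((norm_sub_le _ _).trans (by linarith [a1 ω hω g.1, a1 v hv g'.1]))
    rw [eval_sh] at h1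
    rw [g'.2.2.2, z]
    exact h1.trans (mul_le_mul_of_nonneg_right ((mul_le_mul_of_nonneg_right (c i)
      (by positivity)).trans (le_add_of_nonneg_right l3.le)) (by positivity))

end Pool.Agent.MP_5168f5_an.AN.En
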