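import Pool.Agent.MP_5168f5_an.AN.SpecE3
import Pool.Agent.MP_5168f5_an.AN.PAll

/-! Tubes: algebra, and events of slowly decaying probability. -/

namespace Pool.Agent.MP_5168f5_an.AN.En

open H19 H17S H17F Filter MvPolynomial R4
open Pk (cn kc)
open Nc (Pl ev)

theorem ETSlowA.deg {N : ℕ} (j : ℕ) (a e : V N) (i : Fin (N + 1)) :
    (tbP j a e i).totalDegree ≤ 1 := by
  have k : ∀ (c : ℝ) i, (C c * X i : Pl (N + 1)).totalDegree ≤ 1 := fun c i =>
    (totalDegree_mul _ _).trans (by rw [totalDegree_C, totalDegree_X])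
  refine Fin.cases (totalDegree_X _).le (fun i => (totalDegree_add _ _).trans
    (max_le ((totalDegree_add _ _).trans (max_le ?_ (k _ _))) (k _ _))) i
  rw [totalDegree_C]
  exact zero_le_one

theorem rowTbA : TbA where
  val := fun j a e t ξ => funext fun i => by
    refine Fin.cases ?_ (fun i => ?_) i
    · simp [ev, tbP, tb]
    · simp [ev, tbP, tb, mul_comm]
  deg := ETSlowA.deg
  inv := fun {N} j E a e F ha he hF => by
    let ι : Fin (N + 1) → Pl (N + 1) :=
      Fin.cons (X 0) fun i => C ((2 : ℝ) ^ j) * (X i.succ - C (a i) - C (e i) * X 0)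
    have p : (1 : ℝ) ≤ 2 ^ j := one_le_pow₀ one_le_two
    have h1 : (fun i => aeval ι (tbP j a e i)) = X := funext fun i => by
      refine Fin.cases ?_ (fun i => ?_) i
      · simp [ι, tbP]
      · simp only [ι, tbP, Fin.cons_succ, Fin.cons_zero, map_add, map_mul, aeval_C, aeval_X,
          algebraMap_eq]
        rw [← mul_assoc, ← C_mul, inv_mul_cancel₀ (by linarith), C_1]
        ring
    have h2 : aeval ι (aeval (tbP j a e) F) = F := by
      rw [comp_aeval_apply, h1, aeval_X_left_apply]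
    refine (congrArg cn h2.symm).trans_le (kc.comp ι _ E _
      ((kc.deg _ F E 1 hF (ETSlowA.deg j a e)).trans_eq (mul_one E)) (by linarith) fun i => ?_)
    refine Fin.cases ((kc.var _).trans_le (by linarith)) (fun i => (kc.mul _ _).trans ?_) i
    have a1 : |a i| ≤ 1 := (norm_le_pi_norm a i).trans ha
    have a2 : |e i| ≤ 1 := (norm_le_pi_norm e i).trans he
    have a3 := kc.sub (X i.succ - C (a i) : Pl (N + 1)) (C (e i) * X 0)
    have a4 := kc.sub (X i.succ : Pl (N + 1)) (C (a i))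
    have a5 := kc.mul (C (e i) : Pl (N + 1)) (X 0)
    rw [kc.var, kc.const] at a4 a5
    rw [kc.const, abs_of_pos (by linarith), mul_comm]
    exact mul_le_mul_of_nonneg_right (by linarith) (by linarith)
  bd := fun {N} j a e t ξ ha he h0 h1 hξ => by
    have k : ∀ (y : V N) (c : ℝ), 1 ≤ c → ‖y‖ ≤ c → ‖(Fin.cons t y : V (N + 1))‖ ≤ c :=
      fun y c hc hy => (pi_norm_le_iff_of_nonneg (by linarith)).2 (Fin.cases
        ((abs_of_nonneg h0).trans_le (h1.le.trans hc)) fun i => (norm_le_pi_norm y i).trans hy)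
    refine ⟨k _ _ (by norm_num) ((norm_add₃_le).trans ?_), k _ _ (by norm_num) hξ⟩
    have p : ((2 : ℝ) ^ j)⁻¹ ≤ 1 := inv_le_one_of_one_le₀ (one_le_pow₀ one_le_two)
    rw [norm_smul, norm_smul, Real.norm_of_nonneg h0, Real.norm_of_nonneg (by positivity)]
    nlinarith [norm_nonneg e, norm_nonneg ξ]

theorem rowTSlow : TSlow := by
  intro N Ω P a e t ξ M h
  have b1 : ∀ j : ℕ, (N + 1) * j * lg ≤ Real.log ((2 * (8 * 2 ^ j) + 3) ^ (N + 1)) ∧
      Real.log ((2 * (8 * 2 ^ j) + 3) ^ (N + 1)) ≤ (N + 1) * j * lg + (N + 1) * Real.log 19 :=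
    fun j => by
      have p : (1 : ℝ) ≤ 2 ^ j := one_le_pow₀ one_le_two
      rw [Real.log_pow, mul_assoc, ← mul_add, ← log_two_pow,
        ← Real.log_mul (by linarith) (by norm_num)]
      push_cast
      constructor <;> gcongr <;> linarith
  obtain ⟨k, hk, hp⟩ := ks.spill (fun k n => ((k : ℝ) + 1) ^ 2 ≤ M n ∧ ∀ A ∈ Set.Iic k,
      Real.log ((2 * (8 * 2 ^ (A * M n)) + 3) ^ (N + 1)) - ch (P n) (fun ω => fl (A * M n)
        (Fin.cons (t n ω) (ξ n ω) : V (N + 1))) (fun ω => (a n ω, e n ω)) + lg ≤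
          1 / (k + 1) ^ 2 * M n) fun k => (h.big.ev _).and
    ((eventually_all_finite (Set.finite_Iic k)).2 fun A _ =>
      (((h.full A).add (h.big.sm ((N + 1) * Real.log 19 + lg))) (1 / (k + 1) ^ 2)
        (by positivity)).mono fun n u => by linarith [(b1 (A * M n)).2])
  have q : ∀ n, ((k n : ℝ) + 1) * (1 / (k n + 1) ^ 2 * M n) = 1 / (k n + 1) * M n := fun n => by
    field_simp
  refine ⟨fun n => k n + 1, tendsto_atTop_add_const_right _ _ (tendsto_natCast_atTop_atTop.comp hk),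
    fun ε hε => ?_, fun G hG => ⟨h.big, h.bd.mono fun n u ω hω => u ω (cE_sub hω),
      h.ds.mono fun n u => fn_cE u _, fun A ε hε => ?_⟩⟩
  · filter_upwards [hp, K31.small hε hk] with n u v
    rw [zero_add]
    refine le_trans ?_ (mul_le_mul_of_nonneg_right v (Nat.cast_nonneg _))
    rw [one_div, le_inv_mul_iff₀ (by positivity), ← pow_two]
    exact (u _ le_rfl).1
  · filter_upwards [hp, K31.small hε hk, hG, h.bd, hk.eventually_ge_atTop A] with n u v w b c
    have d : Det (P n) (fun ω => fl (A * M n) (Fin.cons (t n ω) (ξ n ω) : V (N + 1)))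
        (fun ω => (a n ω, e n ω)) ((2 * (8 * 2 ^ (A * M n)) + 3) ^ (N + 1)) := by
      have k := fun ω hω => (rowTbA.bd 0 _ _ _ _ (b ω hω).1 (b ω hω).2.1 (b ω hω).2.2.1
        (b ω hω).2.2.2.1 (b ω hω).2.2.2.2).2
      have := det_near (P := P n) (x := fun ω => (Fin.cons (t n ω) (ξ n ω) : V (N + 1)))
        (G := fun ω => (a n ω, e n ω)) (j := A * M n) (L := 8 * 2 ^ (A * M n)) (by positivity)
        fun x hx y hy _ => (norm_sub_le _ _).trans (by
          rw [mul_div_cancel_right₀ _ (by positivity)]; linarith [k x hx, k y hy])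
      rwa [Fintype.card_fin] at this
    have f := (K31.dn_cE (G n) (κ := ((k n : ℝ) + 1)⁻¹) (by positivity)
      (by rwa [inv_le_iff_one_le_mul₀' (by positivity)])).def_le d
    rw [inv_inv] at f
    have := mul_le_mul_of_nonneg_left ((u _ le_rfl).2 A c) (by positivity : (0 : ℝ) ≤ k n + 1)
    have := mul_le_mul_of_nonneg_right v (Nat.cast_nonneg (α := ℝ) (M n))
    simp only [id] at f
    linarith [(b1 (A * M n)).1, q n]

end Pool.Agent.MP_5168f5_an.AN.En
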