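import Pool.Agent.MP_5168f5_an.AN.SpecE3

/-! Kakeya sets in all dimensions: full entropy gives a density bound. -/

namespace Pool.Agent.MP_5168f5_an.AN.En

open H19 H17S H17F Filter R4

namespace EToFullA

theorem det {N : ℕ} {Ω Λ : Type} {P : FP Ω} {y : Ω → V N} (A : Ω → Λ) (j : ℕ) {K : ℝ}
    (h : ∀ ω ∈ P.S, ‖y ω‖ ≤ K) :
    Det P (fun ω => fl j (y ω)) A ((4 * |K| + 3) ^ N * (2 ^ j) ^ N) := by
  have h1 : (1 : ℝ) ≤ 2 ^ j := one_le_pow₀ one_le_two
  have h2 := det_near (P := P) (x := y) (G := A) (j := j) (L := 2 * |K| * 2 ^ j) (by positivity)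
    fun a ha b hb _ => by
      rw [mul_div_cancel_right₀ _ (by positivity)]
      linarith [norm_sub_le (y a) (y b), h a ha, h b hb, le_abs_self K]
  refine fun a ha => (h2 a ha).imp fun T k => ⟨k.1.trans ?_, k.2⟩
  rw [Fintype.card_fin, ← mul_pow]
  exact pow_le_pow_left₀ (by positivity) (by linarith) N

end EToFullA

theorem rowToFull : ToFull := by
  intro N Ω Λ P M y A j K hM hK h
  have hL : (1 : ℝ) ≤ (4 * |K| + 3) ^ N := one_le_pow₀ (by linarith [abs_nonneg K])
  obtain ⟨Γ, s, w⟩ := ks.wsub P (fun n ω t => S20.dn (P n) (fun ω => fl (j n) (y n ω)) (A n) ω ≤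
      t / (2 ^ j n) ^ N) M fun c hc _ => by
    refine (ks.spw P (fun n ω => ¬S20.dn (P n) (fun ω => fl (j n) (y n ω)) (A n) ω ≤
      Real.exp (c * M n) / (2 ^ j n) ^ N) (fun n ω => fl (j n) (y n ω)) A M
      (fun n => (2 ^ j n) ^ N) _ c hM (hM.sub hL) hc
      (h.congr (Eventually.of_forall fun n => ?_) (Eventually.of_forall fun _ => rfl))
      (hK.mono fun n a => ⟨by positivity, EToFullA.det _ _ a, fun ω hω => ?_⟩)).mono
      (Eventually.of_forall fun _ _ _ => not_not.1)
    · rw [Real.log_pow, log_two_pow, mul_assoc]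
    · refine (S20.few_dn (P n) (fun ω => fl (j n) (y n ω)) (A n)
        (θ := Real.exp (c * M n) / (2 ^ j n) ^ N) (by positivity) ω hω).imp fun T k =>
          ⟨k.1.trans ?_, fun b hb e u => k.2 b hb e (not_le.1 u).le⟩
      rw [inv_div, Real.exp_neg, ← div_eq_mul_inv]
      exact div_le_div_of_nonneg_right (le_mul_of_one_le_left (by positivity) hL) (by positivity)
  exact ⟨_, Γ, w, s, Eventually.of_forall fun n =>
    S20.db_dn (P n) _ (A n) (by have := s.pos n; positivity)⟩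

end Pool.Agent.MP_5168f5_an.AN.En
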