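import Pool.Agent.MP_5168f5_an.AN.EGlue
import Pool.Agent.MP_5168f5_an.AN.ENoise
import Pool.Agent.MP_5168f5_an.AN.EHer
import Pool.Agent.MP_5168f5_an.AN.EFin
import Pool.Agent.MP_5168f5_an.AN.EDir
import Pool.Agent.MP_5168f5_an.AN.ELin
import Pool.Agent.MP_5168f5_an.AN.EImg
import Pool.Agent.MP_5168f5_an.AN.EToFull
import Pool.Agent.MP_5168f5_an.AN.EOfFull
import Pool.Agent.MP_5168f5_an.AN.EPKcn
import Pool.Agent.MP_5168f5_an.AN.EPKwh
import Pool.Agent.MP_5168f5_an.AN.EPKfl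
import Pool.Agent.MP_5168f5_an.AN.ETSlow

/-! Kakeya sets in all dimensions: the last step, assembled. -/

namespace Pool.Agent.MP_5168f5_an.AN

open En

theorem En.ek : EK := ⟨rowNoise, rowHer, rowEndFin rowDirCnt (rowImgCnt rowLinCnt), rowToFull,
  rowOfFull, rowPKcn, rowPKwh, rowPKfl, rowTSlow, rowTbA⟩

theorem ofEnd (ud : UDc) : OfEnd := endOf ek ud

end Pool.Agent.MP_5168f5_an.AN
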