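import Pool.Agent.MP_5168f5_an.AN.Cx

/-! Kakeya sets in all dimensions: frames and irreducibility are countable conditions. -/

namespace Pool.Agent.MP_5168f5_an.AN.Cx

open H19 H17S H17F Filter MvPolynomial R4 Vo
open Nc (Pl nuP)

variable {S : ℕ → Type} {W : ∀ n, S n → Type} {d k : ℕ} (Q : ∀ n s, FP (W n s))
  (x : ∀ n s, W n s → V d) (M : ℕ → ℕ)

theorem cf_fr (Φ : ∀ n, S n → Fin k → Pl d) (D : ℕ) : CF fun s : ∀ n, S n =>
    Fr (fun n => Q n (s n)) (fun n => x n (s n)) M (fun n => Φ n (s n)) D :=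
  ((cf_ev fun n s => ∀ i, (Φ n s i).totalDegree ≤ D).and
    ((cf_Ev M (p := fun n s L => ∀ i, nuP (Q n s) (x n s) (Φ n s i) ≤ L)
      fun _ _ _ _ _ l a i => (a i).trans l).and (cf_all fun E : ℕ => cf_Ev M
        (p := fun n s L => ∀ H : Pl k, H.totalDegree ≤ E → ∀ m,
          |coeff m H| ≤ L * nuP (Q n s) (x n s) (aeval (Φ n s) H))
        fun _ _ _ _ _ l a H hH m => (a H hH m).trans
          (mul_le_mul_of_nonneg_right l (nuP_nonneg _ _ _))))).congr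
    fun _ => ⟨fun h => ⟨h.deg, h.le, h.ind⟩, fun h => ⟨h.1, h.2.1, h.2.2⟩⟩

theorem cf_irr : CF fun s : ∀ n, S n => Irr (fun n => Q n (s n)) (fun n => x n (s n)) M :=
  ((cf_const (Big M)).and (cf_all fun E : ℕ => cf_pos (fun ε _ => cf_Ev M
    (p := fun n s L => ∀ F : Pl d, F.totalDegree ≤ E →
      pb (Q n s) (fun ω => L * |eval (x n s ω) F| < nuP (Q n s) (x n s) F) ≤ ε)
    fun _ _ _ _ _ l a F hF => (pb_mono fun _ _ z =>
      (mul_le_mul_of_nonneg_right l (abs_nonneg _)).trans_lt z).trans (a F hF))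
    fun _ _ _ _ l a c hc => (a c hc).mono fun _ u F hF => (u F hF).trans l)).congr
    fun _ => ⟨fun h => ⟨h.big, h.low⟩, fun h => ⟨h.1, h.2⟩⟩

end Pool.Agent.MP_5168f5_an.AN.Cx
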