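import Pool.Agent.MP_5168f5_an.AN.Nice
import Pool.Agent.MP_5168f5_an.AN.PCn
import Pool.Agent.MP_5168f5_an.AN.PCn1

/-! Nice points for all polynomials of bounded degree at once. -/

namespace Pool.Agent.MP_5168f5_an.AN.Nc

open MvPolynomial Finset H83 Metric Filter Topology Matrix Pk

variable {n : ℕ}

theorem kc : Cn := pCn pCn1

theorem Dv_sum {ι : Type} (s : Finset ι) (Φ : Fin n → Pl n) (i : Fin n) (c : ι → ℝ)
    (F : ι → Pl n) : Dv Φ i (∑ a ∈ s, C (c a) * F a) = ∑ a ∈ s, C (c a) * Dv Φ i (F a) := by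
  simp only [Dv, map_sum, pderiv_C_mul, mul_sum]
  rw [sum_comm]
  exact sum_congr rfl fun a _ => sum_congr rfl fun j _ => by ring

theorem num_sum {ι : Type} (s : Finset ι) (Φ : Fin n → Pl n) (c : ι → ℝ) (F : ι → Pl n) :
    ∀ k w, num Φ (∑ a ∈ s, C (c a) * F a) k w = ∑ a ∈ s, C (c a) * num Φ (F a) k w
  | 0, _ => rfl
  | k + 1, w => by
    simp only [num, num_sum s Φ c F k, Dv_sum, mul_sum, sum_mul, ← sum_sub_distrib]
    exact sum_congr rfl fun a _ => by ring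

theorem dW_sum {ι : Type} (s : Finset ι) (Φ : Fin n → Pl n) (c : ι → ℝ) (F : ι → Pl n) (k : ℕ)
    (w : Fin k → Fin n) (y : V n) :
    dW Φ (∑ a ∈ s, C (c a) * F a) k w y = ∑ a ∈ s, c a * dW Φ (F a) k w y := by
  simp only [dW, num_sum, map_sum, map_mul, eval_C, sum_div, mul_div_assoc]

theorem dW_C_mul (Φ : Fin n → Pl n) (c : ℝ) (F : Pl n) (k : ℕ) (w : Fin k → Fin n) (y : V n) :
    dW Φ (C c * F) k w y = c * dW Φ F k w y := by
  simpa using dW_sum {()} Φ (fun _ => c) (fun _ => F) k w y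

/-- A normalised basis with small coordinates. -/
def Bas (ν : Pl n → ℝ) (E N : ℕ) : Prop := ∃ F : Fin N → Pl n,
  (∀ a, (F a).totalDegree ≤ E ∧ ν (F a) ≤ 1) ∧ ∀ G : Pl n, G.totalDegree ≤ E →
    0 ≤ ν G ∧ ∃ c : Fin N → ℝ, G = ∑ a, C (c a) * F a ∧ ∀ a, |c a| ≤ ν G

/-- A sheet through `y` over the ball of radius `Λ⁻¹` on which the derivatives up to order `K` of
all polynomials of degree at most `E` are bounded by `Λ` times the norm. -/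
structure NiceAt (Φ : Fin n → Pl n) (ν : Pl n → ℝ) (D E K : ℕ) (Λ : ℝ) (y : V n)
    (σ : V n → V n) : Prop where
  sheet : Sheet Φ (ball (ev Φ y) Λ⁻¹) σ
  base : σ (ev Φ y) = y
  nn : ∀ F : Pl n, F.totalDegree ≤ E → 0 ≤ ν F
  der : ∀ F : Pl n, F.totalDegree ≤ E → ∀ k ≤ K, ∀ w, ∀ u ∈ ball (ev Φ y) Λ⁻¹,
    |dW Φ F k w (σ u)| ≤ Λ * ν F
  fib : ∀ u ∈ ball (ev Φ y) Λ⁻¹, ∃ T : Finset (V n), T.card ≤ ord n D ^ n ∧
    ∀ y', ev Φ y' = u → y' ∈ T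

theorem nice_nu (n D E K N : ℕ) : ∃ (L c : ℕ) (A : ℝ), 1 ≤ A ∧ ∀ (Φ : Fin n → Pl n) (ν : Pl n → ℝ)
    (Λ R : ℝ), 1 ≤ Λ → (∀ i, (Φ i).totalDegree ≤ D) → jac Φ ≠ 0 → Bas ν E N →
    ∃ H : Pl n, cn H = 1 ∧ H.totalDegree ≤ L ∧ ∀ y, ‖y‖ ≤ R → ‖ev Φ y‖ ≤ Λ →
      (∀ F : Pl n, F.totalDegree ≤ E → |eval y F| ≤ Λ * ν F) → Λ⁻¹ ≤ |eval (ev Φ y) H| →
      ∃ σ, NiceAt Φ ν D E K (A * Λ ^ c) y σ := by
  obtain ⟨L, hL⟩ := nice n D E K N
  let B : ℝ := 8 * ((L + 1) * 2 ^ L)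
  have b1 : (1 : ℝ) ≤ (L + 1) * 2 ^ L :=
    one_le_mul_of_one_le_of_one_le (by simp) (one_le_pow₀ one_le_two)
  have b2 : 1 ≤ B := by simp only [B]; linarith
  refine ⟨L, (L + 1) * (K + 1) + 1, 2 * (N + 1) * B ^ (K + 1), ?_, ?_⟩
  · have : (1 : ℝ) ≤ B ^ (K + 1) := one_le_pow₀ b2
    nlinarith [Nat.cast_nonneg (α := ℝ) N]
  rintro Φ ν Λ R hΛ hΦ hj ⟨F, hF, hb⟩
  have l0 : 0 < Λ := by linarith
  have l1 : 1 ≤ Λ ^ (L + 1) := one_le_pow₀ hΛ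
  let q : ℝ := (L + 1) * 2 ^ L * Λ ^ (L + 1)
  have q1 : 1 ≤ q := one_le_mul_of_one_le_of_one_le b1 l1
  have q0 : 0 < q := by linarith
  obtain ⟨H, h0, h1, h2, h3⟩ := hL (Fin N) Φ (fun a => C Λ⁻¹ * F a) q⁻¹ (|R| + 1) (by simp)
    (by positivity) (by positivity) hΦ
    (fun a => (totalDegree_mul _ _).trans (by simpa using (hF a).1)) hj
  have c0 : 0 < cn H := lt_of_le_of_ne (kc.nonneg H) fun e => h0 ((kc.zero H).1 e.symm)
  have hd : ((cn H)⁻¹ • H).totalDegree ≤ L := (totalDegree_smul_le _ _).trans h1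
  have hc : cn ((cn H)⁻¹ • H) = 1 := by
    rw [kc.smul, abs_of_pos (inv_pos.2 c0), inv_mul_cancel₀ c0.ne']
  refine ⟨(cn H)⁻¹ • H, hc, hd, fun y k₁ k₂ k₃ k₄ => ?_⟩
  have hH : ∀ u ∈ ball (ev Φ y) q⁻¹, eval u H ≠ 0 := by
    intro u hu e
    have m1 : ‖u - ev Φ y‖ < q⁻¹ := mem_ball_iff_norm.1 hu
    have m2 : q⁻¹ ≤ 1 := inv_le_one_of_one_le₀ q1
    have m3 : ‖u‖ ≤ 2 * Λ := by linarith [norm_le_insert' u (ev Φ y)]
    have m4 := kc.lip _ L (2 * Λ) q⁻¹ (ev Φ y) u hd (by linarith) (by positivity) fun i =>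
      ⟨(norm_le_pi_norm (ev Φ y) i).trans (by linarith), (norm_le_pi_norm u i).trans m3, by
        rw [abs_sub_comm]; exact (norm_le_pi_norm (u - ev Φ y) i).trans m1.le⟩
    rw [hc, smul_eval u, e, mul_zero, sub_zero] at m4
    have m5 : (L : ℝ) * 1 * (2 * Λ) ^ L * q⁻¹ < Λ⁻¹ := by
      rw [← div_eq_mul_inv, div_lt_iff₀ q0, lt_inv_mul_iff₀ l0]
      have : 0 < (2 : ℝ) ^ L * Λ ^ (L + 1) := by positivity
      calc _ = L * (2 ^ L * Λ ^ (L + 1)) := by ring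
        _ < (L + 1) * (2 ^ L * Λ ^ (L + 1)) := by linarith
        _ = q := by ring
    linarith
  obtain ⟨σ, hσ⟩ := h3 y (k₁.trans (by linarith [le_abs_self R])) (fun a => by
    rw [map_mul, eval_C, abs_mul, abs_of_pos (inv_pos.2 l0), inv_mul_le_iff₀ l0]
    exact (k₃ _ (hF a).1).trans (mul_le_mul_of_nonneg_left (hF a).2 l0.le)) hH
  have e1 : 2 * (N + 1) * B ^ (K + 1) * Λ ^ ((L + 1) * (K + 1) + 1) =
      (N + 1) * Λ * (2 * (8 * q) ^ (K + 1)) := by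
    simp only [B, q, mul_pow, pow_succ Λ ((L + 1) * (K + 1)), pow_mul]; ring
  have p1 : ∀ k ≤ K + 1, (8 * q) ^ k ≤ (8 * q) ^ (K + 1) := fun k hk =>
    pow_le_pow_right₀ (by linarith) hk
  have n1 : (1 : ℝ) ≤ (N + 1) * Λ := one_le_mul_of_one_le_of_one_le (by simp) hΛ
  have hs : ball (ev Φ y) ((N + 1) * Λ * (2 * (8 * q) ^ (K + 1)))⁻¹ ⊆ ball (ev Φ y) q⁻¹ := by
    refine ball_subset_ball (inv_anti₀ q0 ?_)
    have := p1 1 (by omega)
    nlinarith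
  rw [e1]
  refine ⟨σ, hσ.sheet.mono hs, hσ.base, fun G hG => (hb G hG).1, fun G hG k hk w u hu => ?_,
    fun u hu => h2 u (hH u (hs hu))⟩
  obtain ⟨g0, c, g1, g2⟩ := hb G hG
  have d1 : ∀ a, |c a * dW Φ (F a) k w (σ u)| ≤ ν G * (Λ * (2 * (8 * q) ^ (K + 1))) := fun a => by
    have := hσ.der a k hk w u (hs hu)
    rw [dW_C_mul, abs_mul, abs_of_pos (inv_pos.2 l0), inv_mul_le_iff₀ l0, bd, div_inv_eq_mul] at this
    rw [abs_mul]
    refine mul_le_mul (g2 a) (this.trans ?_) (abs_nonneg _) g0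
    have := p1 k (by omega)
    gcongr
  conv_lhs => rw [g1, dW_sum]
  refine (abs_sum_le_sum_abs _ _).trans ((sum_le_card_nsmul _ _ _ fun a _ => d1 a).trans ?_)
  have : 0 ≤ ν G * (Λ * (2 * (8 * q) ^ (K + 1))) := by positivity
  simp only [card_univ, Fintype.card_fin, nsmul_eq_mul]
  nlinarith

/-- The ratio of two Jacobians. -/
theorem jac_ratio (Φ Ψ : Fin n → Pl n) {y : V n} (h : eval y (jac Φ) ≠ 0) :
    eval y (jac Ψ) = (Matrix.of fun a i => dW Φ (Ψ a) 1 (fun _ => i) y).det * eval y (jac Φ) := by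
  have e : (Matrix.of fun a i => dW Φ (Ψ a) 1 (fun _ => i) y) * (jm Φ).map (eval y) =
      (jm Ψ).map (eval y) := by
    have h1 : (Matrix.of fun a i => dW Φ (Ψ a) 1 (fun _ => i) y) =
        (eval y (jac Φ))⁻¹ • ((jm Ψ).map (eval y) * ((jm Φ).map (eval y)).adjugate) := by
      ext a i
      rw [show ((jm Φ).map (eval y)).adjugate = (jm Φ).adjugate.map (eval y) from
        (RingHom.map_adjugate (eval y) (jm Φ)).symm]
      simp only [Matrix.of_apply, dW_one _ _ _ h, Dv, map_sum, map_mul, Matrix.smul_apply,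
        Matrix.mul_apply, Matrix.map_apply, smul_eq_mul, div_eq_inv_mul]
      exact congrArg _ (sum_congr rfl fun j _ => by rw [mul_comm]; rfl)
    rw [h1, Matrix.smul_mul, Matrix.mul_assoc, Matrix.adjugate_mul, ← eval_jac, Matrix.mul_smul,
      Matrix.mul_one, smul_smul, inv_mul_cancel₀ h, one_smul]
  rw [eval_jac Ψ, ← e, Matrix.det_mul, eval_jac]

/-- The chain rule for one coordinate. -/
theorem pderiv_eq (Φ : Fin n → Pl n) (F : Pl n) {y : V n} (h : eval y (jac Φ) ≠ 0) (j : Fin n) :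
    eval y (pderiv j F) = ∑ i, dW Φ F 1 (fun _ => i) y * eval y (pderiv j (Φ i)) := by
  simp only [dW_one _ _ _ h, Dv, map_sum, map_mul, sum_div, sum_mul]
  rw [sum_comm]
  have h2 : ∀ l, ∑ i, eval y ((jm Φ).adjugate l i) * eval y (pderiv l F) / eval y (jac Φ) *
      eval y (pderiv j (Φ i)) = if l = j then eval y (pderiv l F) else 0 := fun l => by
    have h3 := congrArg (eval y) (congrFun (congrFun (Matrix.adjugate_mul (jm Φ)) l) j)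
    simp only [Matrix.mul_apply, map_sum, map_mul, Matrix.smul_apply, Matrix.one_apply,
      smul_eq_mul, mul_ite, mul_one, mul_zero, apply_ite (eval y), map_zero] at h3
    have h4 : ∑ i, eval y ((jm Φ).adjugate l i) * eval y (pderiv l F) / eval y (jac Φ) *
        eval y (pderiv j (Φ i)) = eval y (pderiv l F) / eval y (jac Φ) *
          ∑ i, eval y ((jm Φ).adjugate l i) * eval y (jm Φ i j) := by
      rw [mul_sum]
      exact sum_congr rfl fun i _ => by simp only [jm, Matrix.of_apply]; ring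
    rw [h4, h3]
    split_ifs
    · exact div_mul_cancel₀ _ h
    · exact mul_zero _
  simp [h2]

section

variable {Φ : Fin n → Pl n} {ν : Pl n → ℝ} {D E K : ℕ} {Λ : ℝ} {y : V n} {σ : V n → V n}

theorem NiceAt.mono (h : NiceAt Φ ν D E K Λ y σ) (h0 : 0 < Λ) {Λ' : ℝ} {E' K' : ℕ} (hΛ : Λ ≤ Λ')
    (hE : E' ≤ E) (hK : K' ≤ K) : NiceAt Φ ν D E' K' Λ' y σ :=
  have hs : ball (ev Φ y) Λ'⁻¹ ⊆ ball (ev Φ y) Λ⁻¹ := ball_subset_ball (inv_anti₀ h0 hΛ)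
  ⟨h.sheet.mono hs, h.base, fun F hF => h.nn F (hF.trans hE), fun F hF k hk w u hu =>
    (h.der F (hF.trans hE) k (hk.trans hK) w u (hs hu)).trans
      (mul_le_mul_of_nonneg_right hΛ (h.nn F (hF.trans hE))), fun u hu => h.fib u (hs hu)⟩

theorem NiceAt.mem (_ : NiceAt Φ ν D E K Λ y σ) (h0 : 0 < Λ) : ev Φ y ∈ ball (ev Φ y) Λ⁻¹ :=
  mem_ball_self (inv_pos.2 h0)

theorem NiceAt.jac (h : NiceAt Φ ν D E K Λ y σ) (h0 : 0 < Λ) : eval y (jac Φ) ≠ 0 :=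
  h.base ▸ h.sheet.jac _ (h.mem h0)

theorem NiceAt.der₀ (h : NiceAt Φ ν D E K Λ y σ) (h0 : 0 < Λ) {F : Pl n} (hF : F.totalDegree ≤ E)
    {k : ℕ} (hk : k ≤ K) (w : Fin k → Fin n) : |dW Φ F k w y| ≤ Λ * ν F :=
  h.base ▸ h.der F hF k hk w _ (h.mem h0)

theorem NiceAt.taylor (h : NiceAt Φ ν D E K Λ y σ) {F : Pl n} (hF : F.totalDegree ≤ E) {k : ℕ}
    (hk : k + 1 ≤ K) {u u' : V n} (hu : u ∈ ball (ev Φ y) Λ⁻¹) (hu' : u' ∈ ball (ev Φ y) Λ⁻¹) :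
    |eval (σ u') F - eval u' (tay (fun k w => dW Φ F k w (σ u)) u k)| ≤
      Λ * ν F * (n * ‖u' - u‖) ^ (k + 1) := by
  simpa only [dW_zero] using (h.sheet.tower isOpen_ball F).taylor (convex_ball _ _) hu hu' k
    (h.der F hF (k + 1) hk) default

theorem NiceAt.lip (h : NiceAt Φ ν D E K Λ y σ) {F : Pl n} (hF : F.totalDegree ≤ E) (hk : 1 ≤ K)
    {u u' : V n} (hu : u ∈ ball (ev Φ y) Λ⁻¹) (hu' : u' ∈ ball (ev Φ y) Λ⁻¹) :
    |eval (σ u') F - eval (σ u) F| ≤ Λ * ν F * (n * ‖u' - u‖) := by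
  have := h.taylor hF (k := 0) hk hu hu'
  rw [eval_tay] at this
  simpa using this

/-- Two nice points lie on the same sheet when their sheets meet. -/
theorem NiceAt.same {y₁ c : V n} {τ : V n → V n} (h : NiceAt Φ ν D E K Λ y σ)
    (h' : NiceAt Φ ν D E K Λ y₁ τ) (hc : c ∈ ball (ev Φ y) Λ⁻¹) (hc' : c ∈ ball (ev Φ y₁) Λ⁻¹)
    (e : σ c = τ c) {u : V n} (hu : u ∈ ball (ev Φ y) Λ⁻¹) (hu' : u ∈ ball (ev Φ y₁) Λ⁻¹) :
    σ u = τ u :=
  Sheet.unique (h.sheet.mono Set.inter_subset_left) (h'.sheet.mono Set.inter_subset_right)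
    ((convex_ball _ _).inter (convex_ball _ _)).isPreconnected ⟨hc, hc'⟩ e _ ⟨hu, hu'⟩

/-- The Jacobian of the frame is maximal among normalised tuples. -/
theorem NiceAt.jac_le (h : NiceAt Φ ν D E K Λ y σ) (h0 : 0 < Λ) (hk : 1 ≤ K) {Ψ : Fin n → Pl n}
    (hΨ : ∀ a, (Ψ a).totalDegree ≤ E ∧ ν (Ψ a) ≤ 1) {u : V n} (hu : u ∈ ball (ev Φ y) Λ⁻¹) :
    |eval (σ u) (Nc.jac Ψ)| ≤ n.factorial * Λ ^ n * |eval (σ u) (Nc.jac Φ)| := by
  rw [jac_ratio Φ Ψ (h.sheet.jac u hu), abs_mul]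
  refine mul_le_mul_of_nonneg_right ?_ (abs_nonneg _)
  simpa using Matrix.det_le (abv := AbsoluteValue.abs) (x := Λ)
    (A := Matrix.of fun a i => dW Φ (Ψ a) 1 (fun _ => i) (σ u)) fun a i =>
      (h.der _ (hΨ a).1 1 hk _ u hu).trans (mul_le_of_le_one_right h0.le (hΨ a).2)

end

end Pool.Agent.MP_5168f5_an.AN.Nc
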