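import Pool.Agent.MP_5168f5_an.AN.Defs
import Pool.Agent.MP_5168f5_an.AN.A1Flr
import Pool.Agent.MP_5168f5_an.AN.S20Dn
import Pool.Agent.MP_5168f5_an.AN.NcNu

/-! Kakeya sets in all dimensions: the statements of the global part. -/

namespace Pool.Agent.MP_5168f5_an.AN

open H19 H17S H17F R4 Filter MvPolynomial MeasureTheory
open G39 (nu RG dl REM)
open Pk (cn)
open Nc (Pl ev jac NiceAt)
open A1 (Floor)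
open S20 (dn)
open K31 (DnS)

/-! ### More notions -/

/-- Jets with a minor of size `m` that is long after dilation by `2^t`. -/
def Kd.WhS {k N : ℕ} {Ω : Type} (κ : Kd k Ω) (P : FP Ω) (x : Ω → V N) (m t j : ℕ) (G : Ω → Prop)
    (Γ : ℝ) : Prop :=
  ∃ τ : Ω → Fin N → Pl k, ∀ ω ∈ P.S, G ω →
    (∀ i, (τ ω i).totalDegree ≤ j + 1 ∧ cn (τ ω i) ≤ Γ) ∧
    (∃ (r : Fin m → Fin N) (c : Fin m → Fin k), Γ⁻¹ ≤ (2 ^ t) ^ m *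
      |(Matrix.of fun a b => coeff (Finsupp.single (c b) 1) (τ ω (r a))).det|) ∧
    ∀ v ∈ P.S, G v → κ.Z v = κ.Z ω → κ.W v = κ.W ω →
      ‖x v - ev (τ ω) (κ.p v - κ.p ω)‖ ≤ Γ * ‖κ.p v - κ.p ω‖ ^ (j + 2)

/-- A new chart index. -/
abbrev Kd.setW {k : ℕ} {Ω : Type} (κ : Kd k Ω) (W : Ω → ℕ) : Kd k Ω := ⟨κ.T, κ.Z, W, κ.p⟩

/-- The size of the derivative. -/
noncomputable def dsz {N N' : ℕ} (Θ : Fin N' → Pl N) (x : V N) : ℝ :=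
  ∑ i, ∑ j, |eval x (pderiv j (Θ i))|

/-- The labels with a context. -/
abbrev hat {β : Bool → ℕ → Type} {Ω : ℕ → Type} (Z : ∀ b n, Ω n → β b n)
    (be : Bool → ∀ n, Ω n → ℕ) : ∀ b n, Ω n → ℕ × β b n := fun b n ω => (be b n ω, Z b n ω)

/-- Comparable units. -/
def Cmp (M M' : ℕ → ℕ) : Prop := ∃ C : ℕ, ∀ᶠ n in UF, M n ≤ C * M' n ∧ M' n ≤ C * M n

/-- `t = O(M)`. -/
def Lin (M t : ℕ → ℕ) : Prop := ∃ R : ℕ, ∀ᶠ n in UF, t n ≤ R * M n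

/-- The real number `v` in the unit `M`. -/
def un (M : ℕ → ℕ) (v : ℝ) : ℕ → ℝ := fun n => v * M n

section Seq

variable {N N' k : ℕ} {Ω Λ : ℕ → Type} (P : ∀ n, FP (Ω n)) (M : ℕ → ℕ)

/-- A kind whose long minor is seen after dilation by `2^t`. -/
structure KindS (x : ∀ n, Ω n → V N) (κ : ∀ n, Kd k (Ω n)) (C m : ℕ) (t : ℕ → ℕ) : Prop where
  kd : Kind P M x κ C 0
  wh : ∀ j, Gd P M fun n => (κ n).WhS (P n) (x n) m (t n) j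

/-- The Remez inequality for the pieces of all levels. -/
def RA (x : ∀ n, Ω n → V N) (κ : ∀ n, Kd k (Ω n)) (C : ℕ) : Prop :=
  ∀ t, Lin M t → ∀ K : ℕ, REM P x M (fun n => (κ n).pc (t n)) C K

/-- The cell of `y` has probability at least `exp v / 2^{N j}`. -/
def Heavy (y : ∀ n, Ω n → V N) (A : ∀ n, Ω n → Λ n) (j : ℕ → ℕ) (v : ℕ → ℝ) : Prop :=
  Gp P M fun n ω Γ =>
    Real.exp (v n) / (2 ^ j n) ^ N ≤ Γ * dn (P n) (fun u => fl (j n) (y n u)) (A n) ω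

/-- The cell of `y` has probability at most `exp v / 2^{N j}`. -/
def Light (y : ∀ n, Ω n → V N) (A : ∀ n, Ω n → Λ n) (j : ℕ → ℕ) (v : ℕ → ℝ) : Prop :=
  Gp P M fun n ω Γ =>
    dn (P n) (fun u => fl (j n) (y n u)) (A n) ω ≤ Γ * (Real.exp (v n) / (2 ^ j n) ^ N)

/-- `Y` has few values given `A`. -/
def Lst {α : ℕ → Type} (Y : ∀ n, Ω n → α n) (A : ∀ n, Ω n → Λ n) : Prop :=
  Gp P M fun n ω Γ => 1 ≤ Γ * dn (P n) (Y n) (A n) ω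

/-- The derivative of `Θ` is at most `2^g`. -/
def DzLe (x : ∀ n, Ω n → V N) (Θ : ∀ n, Ω n → Fin N' → Pl N) (g : ℕ → ℕ) : Prop :=
  Gp P M fun n ω Γ => dsz (Θ n ω) (x n ω) ≤ Γ * 2 ^ g n

/-- The derivative of `Θ` is at least `2^g`. -/
def DzGe (x : ∀ n, Ω n → V N) (Θ : ∀ n, Ω n → Fin N' → Pl N) (g : ℕ → ℕ) : Prop :=
  Gp P M fun n ω Γ => 2 ^ g n ≤ Γ * dsz (Θ n ω) (x n ω)

/-- The cells lie in balls of radius `2^{-t}`. -/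
def Ball (x : ∀ n, Ω n → V N) (A : ∀ n, Ω n → Λ n) (t : ℕ → ℕ) : Prop :=
  Gp P M fun n ω Γ => ∀ i, ∃ c : ℝ, nc (P n) (x n) (A n) ω (X i - C c) ≤ Γ / 2 ^ t n

/-- The coefficients are at most a power. -/
def Pw (Θ : ∀ n, Ω n → Fin N' → Pl N) : Prop :=
  ∃ B : ℝ, Whp P fun n ω => ∀ i, dl M B n * cn (Θ n ω i) ≤ 1

/-- Two points are within `2^{-g}`. -/
def Near (y y' : ∀ n, Ω n → V N) (g : ℕ → ℕ) : Prop :=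
  Gp P M fun n ω Γ => ‖y n ω - y' n ω‖ ≤ Γ / 2 ^ g n

/-- Two sizes are comparable. -/
def NuEq (ν ν' : ∀ n, Ω n → Pl N → ℝ) : Prop := ∀ E : ℕ, Gp P M fun n ω Γ =>
  ∀ F : Pl N, F.totalDegree ≤ E → ν n ω F ≤ Γ * ν' n ω F ∧ ν' n ω F ≤ Γ * ν n ω F

/-- `ξ` is a noise for the kind `κ` of `x`. -/
structure Nse (x ξ : ∀ n, Ω n → V N) (κ : ∀ n, Kd k (Ω n)) (C : ℕ) : Prop where
  kd : Kind P M x κ C 0
  bd : Bdd P M ξ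
  den : Full P M (fun n => ((κ n).nz (ξ n)).p) fun n => (κ n).Z

/-- A sure bound. -/
def Sure (x : ∀ n, Ω n → V N) : Prop :=
  ∃ Γ, Sub M Γ ∧ ∀ᶠ n in UF, ∀ ω ∈ (P n).S, ‖x n ω‖ ≤ Γ n

end Seq

/-- The charts of a sequence. -/
noncomputable abbrev chs {N N' : ℕ} {Ω : ℕ → Type} (Θ : ∀ n, Ω n → Fin N' → Pl N)
    (x : ∀ n, Ω n → V N) : ∀ n, Ω n → V N' := fun n => cht (Θ n) (x n)

/-- The points with noise. -/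
noncomputable abbrev blurs {N : ℕ} {Ω : ℕ → Type} (x ξ : ∀ n, Ω n → V N) (h : ℕ → ℕ) :
    ∀ n, Ω n → V N := fun n => blur (x n) (ξ n) (h n)

/-- Pull back of variables. -/
abbrev pl {Ω Ω' α : ℕ → Type} (ρ : ∀ n, Ω' n → Ω n) (y : ∀ n, Ω n → α n) : ∀ n, Ω' n → α n :=
  fun n v => y n (ρ n v)

/-- Pull back of pairs of variables. -/
abbrev pl2 {Ω Ω' : ℕ → Type} {β : Bool → ℕ → Type} (ρ : ∀ n, Ω' n → Ω n)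
    (Z : ∀ b n, Ω n → β b n) : ∀ b n, Ω' n → β b n := fun b n v => Z b n (ρ n v)

/-- The spaces with fresh noise. -/
abbrev NΩ (Ω : ℕ → Type) (N : ℕ) (J : ℕ → ℕ) : ℕ → Type := fun n => Ω n × (Fin N → Fin (2 ^ J n))

/-- The laws with fresh noise. -/
noncomputable abbrev NP {Ω : ℕ → Type} (P : ∀ n, FP (Ω n)) (N : ℕ) (J : ℕ → ℕ) :
    ∀ n, FP (NΩ Ω N J n) := fun n => prod (P n) (grid N (J n))

/-- The fresh noise. -/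
noncomputable abbrev Nξ (Ω : ℕ → Type) (N : ℕ) (J : ℕ → ℕ) : ∀ n, NΩ Ω N J n → V N :=
  fun _ v => gp v.2

/-- The projection. -/
abbrev Nπ (Ω : ℕ → Type) (N : ℕ) (J : ℕ → ℕ) : ∀ n, NΩ Ω N J n → Ω n := fun _ v => v.1

/-- The grid is finer than all powers. -/
def Fine (M J : ℕ → ℕ) : Prop := ∀ R : ℕ, ∀ᶠ n in UF, R * M n ≤ J n

/-! ### The chain of the global step -/

/-- Nested cells on the levels `a M` with volumes `V` and lower bounds for the probabilities of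
the cells of the charts. -/
structure GC {N : ℕ} {Ω Λ : ℕ → Type} {k : Bool → ℕ} (P : ∀ n, FP (Ω n)) (M : ℕ → ℕ)
    (x : ∀ n, Ω n → V N) (s : ∀ n, Sy k (Ω n)) (C : ℕ) (m : Bool → ℕ) (S : ℚ≥0 → ∀ n, Ω n → Λ n)
    (Θ : ℚ≥0 → ∀ n, Ω n → Fin N → Pl N) (D : ℕ) (U H : ℝ → ℝ) (a₀ b τ : ℝ) : Prop where
  sys : Sys P M x s C m
  one : 1 ≤ m true
  sure : Sure P M x
  ra : ∀ c, RA P M x (fun n => s n c) C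
  chn : Chn P M x s (fun (a : ℚ≥0) _ => lev M a) S Θ D
  fat : ∀ a, Fat P M x (S a)
  vol : ∀ a : ℚ≥0, Vol P M x (Θ a) (un M (U a))
  mU : Monotone U
  mH : Monotone H
  pos : 0 < a₀ ∧ 0 < τ ∧ b ≤ 1
  hv : ∀ a a' g : ℚ≥0, a₀ ≤ a → a ≤ a' → (a' : ℝ) ≤ b → (g : ℝ) ≤ τ → U a' - U a ≤ g * lg →
    Heavy P M (chs (Θ a) x) (S a) (lev M g) (un M (U a' - U a - (H a' - H a)))

/-! ### The two big steps -/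

/-- Steep windows. -/
def SteepF (N mm : ℕ) : Prop := ∀ (k m : Bool → ℕ) (C E : ℕ) (η : ℝ), 0 < η → ∃ c : ℝ, 0 < c ∧
  ∀ (Ω Λ Λ' : ℕ → Type) (P : ∀ n, FP (Ω n)) (M : ℕ → ℕ) (x : ∀ n, Ω n → V N)
    (s : ∀ n, Sy k (Ω n)) (T : ∀ n, Ω n → Λ n) (Q : ∀ n, Ω n → Λ' n) (be : Bool → ∀ n, Ω n → ℕ),
    mm ≤ m true + m false → Sys P M x s C m → MIN P M x (lab s) → Com P (lab s) T →
    (∀ b, Few P M c (be b)) → CM P M x (hat (lab s) be) Q → FnE P T Q → DLe P M x Q M →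
    DGe P M x Q E M → ¬Poor P M x T M η

/-- The local step. -/
def LOC (N mm : ℕ) : Prop := ∀ (Ω Λ : ℕ → Type) (k m : Bool → ℕ) (P : ∀ n, FP (Ω n)) (M : ℕ → ℕ)
  (x : ∀ n, Ω n → V N) (s : ∀ n, Sy k (Ω n)) (C D : ℕ) (S : ℚ≥0 → ∀ n, Ω n → Λ n)
  (Θ : ℚ≥0 → ∀ n, Ω n → Fin N → Pl N) (U H : ℝ → ℝ) (a₀ b τ : ℝ), mm ≤ m true + m false →
  GC P M x s C m S Θ D U H a₀ b τ → ∀ᵐ σ : ℝ, σ ∈ Set.Ioo a₀ b → DifferentiableAt ℝ U σ →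
    DifferentiableAt ℝ H σ → deriv U σ ≤ deriv H σ

def OfSteep : Prop := ∀ d mm, Low (d + 1) → THM (d + 1) (mm + 1) → SteepF (d + 1) mm
def OfLoc : Prop := ∀ d mm, Low (d + 1) → SteepF (d + 1) mm → LOC (d + 1) mm
def OfEnd : Prop := ∀ N, THM (N + 1) 0 → R4.Mu0 N

/-! ### Closure properties -/

/-- A property of laws and units that survives refinements of bounded density and is closed under
diagonal limits is used through these two statements. -/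
def Slow : Prop := ∀ (Ω : ℕ → Type) (P : ∀ n, FP (Ω n)) (M : ℕ → ℕ) (K : (∀ n, FP (Ω n)) → Prop),
  Big M → CF K → (∀ G, Pos P G → K fun n => cE (P n) (G n)) → ∃ L : ℕ → ℝ, Tendsto L UF atTop ∧
    Sub M L ∧ ∀ G : ∀ n, Ω n → Prop, (∀ᶠ n in UF, 1 ≤ L n * pb (P n) (G n)) →
      K fun n => cE (P n) (G n)

/-- Heredity under refinements of bounded density, first part. -/
structure Her1 : Prop where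
  gp : ∀ {Ω Ω' : ℕ → Type} {P : ∀ n, FP (Ω n)} {Q : ∀ n, FP (Ω' n)} {ρ : ∀ n, Ω' n → Ω n}
    {M : ℕ → ℕ} {q : ∀ n, Ω n → ℝ → Prop}, DnS Q ρ P → Gp P M q → Gp Q M fun n v => q n (ρ n v)
  fn : ∀ {Ω Ω' α β : ℕ → Type} {P : ∀ n, FP (Ω n)} {Q : ∀ n, FP (Ω' n)} {ρ : ∀ n, Ω' n → Ω n}
    {F : ∀ n, Ω n → α n} {G : ∀ n, Ω n → β n}, DnS Q ρ P → FnE P F G → FnE Q (pl ρ F) (pl ρ G)
  full : ∀ {Ω Ω' Λ : ℕ → Type} {N : ℕ} {P : ∀ n, FP (Ω n)} {Q : ∀ n, FP (Ω' n)}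
    {ρ : ∀ n, Ω' n → Ω n} {M j : ℕ → ℕ} {y : ∀ n, Ω n → V N} {A : ∀ n, Ω n → Λ n}, DnS Q ρ P →
    Big M → FullAt P M y A j → FullAt Q M (pl ρ y) (pl ρ A) j
  poor : ∀ {Ω Ω' Λ : ℕ → Type} {N : ℕ} {P : ∀ n, FP (Ω n)} {Q : ∀ n, FP (Ω' n)}
    {ρ : ∀ n, Ω' n → Ω n} {M j : ℕ → ℕ} {y : ∀ n, Ω n → V N} {A : ∀ n, Ω n → Λ n} {η : ℝ},
    DnS Q ρ P → Poor P M y A j η → Poor Q M (pl ρ y) (pl ρ A) j η
  dn : ∀ {Ω Ω' α Λ : ℕ → Type} {P : ∀ n, FP (Ω n)} {Q : ∀ n, FP (Ω' n)} {ρ : ∀ n, Ω' n → Ω n}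
    {M : ℕ → ℕ} (Y : ∀ n, Ω n → α n) (A : ∀ n, Ω n → Λ n), DnS Q ρ P → Big M →
    Gp Q M fun n v Γ => dn (P n) (Y n) (A n) (ρ n v) ≤ Γ * dn (Q n) (pl ρ Y n) (pl ρ A n) v ∧
      dn (Q n) (pl ρ Y n) (pl ρ A n) v ≤ Γ * dn (P n) (Y n) (A n) (ρ n v)
  rem : ∀ {Ω Ω' Λ : ℕ → Type} {N : ℕ} {P : ∀ n, FP (Ω n)} {Q : ∀ n, FP (Ω' n)}
    {ρ : ∀ n, Ω' n → Ω n} {M : ℕ → ℕ} {x : ∀ n, Ω n → V N} {Z : ∀ n, Ω n → Λ n} {C : ℕ},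
    DnS Q ρ P → Big M → (∀ K : ℕ, REM P x M Z C K) → ∀ K : ℕ, REM Q (pl ρ x) M (pl ρ Z) C K
  flr : ∀ {Ω Ω' Λ : ℕ → Type} {N : ℕ} {P : ∀ n, FP (Ω n)} {Q : ∀ n, FP (Ω' n)}
    {ρ : ∀ n, Ω' n → Ω n} {M : ℕ → ℕ} {x : ∀ n, Ω n → V N} {Z : ∀ n, Ω n → Λ n},
    DnS Q ρ P → Big M → Floor P M x Z → Floor Q M (pl ρ x) (pl ρ Z)
  wh : ∀ {Ω Ω' : ℕ → Type} {N k : ℕ} {P : ∀ n, FP (Ω n)} {Q : ∀ n, FP (Ω' n)}
    {ρ : ∀ n, Ω' n → Ω n} {M t : ℕ → ℕ} {x : ∀ n, Ω n → V N} {κ : ∀ n, Kd k (Ω n)} {m j : ℕ},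
    DnS Q ρ P → (Gd P M fun n => (κ n).WhS (P n) (x n) m (t n) j) →
    Gd Q M fun n => ((κ n).pull (ρ n)).WhS (Q n) (pl ρ x n) m (t n) j

/-- Heredity, second part. -/
structure Her2 : Prop where
  nt : ∀ {Ω Ω' : ℕ → Type} {β : Bool → ℕ → Type} {N : ℕ} {P : ∀ n, FP (Ω n)} {Q : ∀ n, FP (Ω' n)}
    {ρ : ∀ n, Ω' n → Ω n} {M : ℕ → ℕ} {x : ∀ n, Ω n → V N} {Z : ∀ b n, Ω n → β b n}
    {ν : ∀ n, Ω n → Pl N → ℝ}, DnS Q ρ P → NT P M x Z ν → NT Q M (pl ρ x) (pl2 ρ Z) (pl ρ ν)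
  cm : ∀ {Ω Ω' Λ : ℕ → Type} {β : Bool → ℕ → Type} {N : ℕ} {P : ∀ n, FP (Ω n)}
    {Q : ∀ n, FP (Ω' n)} {ρ : ∀ n, Ω' n → Ω n} {M : ℕ → ℕ} {x : ∀ n, Ω n → V N}
    {Z : ∀ b n, Ω n → β b n} {A : ∀ n, Ω n → Λ n}, DnS Q ρ P → Big M → CM P M x Z A →
    CM Q M (pl ρ x) (pl2 ρ Z) (pl ρ A) ∧ NuEq Q M (pl ρ fun n => nc (P n) (x n) (A n))
      fun n => nc (Q n) (pl ρ x n) (pl ρ A n)

/-! ### Probabilities of cells -/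

structure FullApi : Prop where
  light : ∀ {Ω Λ : ℕ → Type} {N : ℕ} {P : ∀ n, FP (Ω n)} {M j : ℕ → ℕ} {y : ∀ n, Ω n → V N}
    {A : ∀ n, Ω n → Λ n}, Big M → (FullAt P M y A j ↔ Light P M y A j fun _ => 0)
  coarse : ∀ {Ω Λ Λ' : ℕ → Type} {N : ℕ} {P : ∀ n, FP (Ω n)} {M j j' : ℕ → ℕ} {y : ∀ n, Ω n → V N}
    {A : ∀ n, Ω n → Λ n} {A' : ∀ n, Ω n → Λ' n}, FullAt P M y A j → FnE P A' A →
    (∀ᶠ n in UF, j' n ≤ j n) → FullAt P M y A' j'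
  nf : ∀ {Ω Λ : ℕ → Type} {N : ℕ} {P : ∀ n, FP (Ω n)} {M j : ℕ → ℕ} {y : ∀ n, Ω n → V N}
    {A : ∀ n, Ω n → Λ n}, Big M → ¬FullAt P M y A j →
    ∃ (η : ℝ) (G : ∀ n, Ω n → Prop), 0 < η ∧ Pos P G ∧ Poor (fun n => cE (P n) (G n)) M y A j η
  ph : ∀ {Ω Λ : ℕ → Type} {N : ℕ} {P : ∀ n, FP (Ω n)} {M j : ℕ → ℕ} {y : ∀ n, Ω n → V N}
    {A : ∀ n, Ω n → Λ n} {η : ℝ}, Big M → Poor P M y A j η → Heavy P M y A j (un M η)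
  hp : ∀ {Ω Λ : ℕ → Type} {N : ℕ} {P : ∀ n, FP (Ω n)} {M j : ℕ → ℕ} {y : ∀ n, Ω n → V N}
    {A : ∀ n, Ω n → Λ n} {η η' : ℝ}, Big M → Heavy P M y A j (un M η) → η' < η →
    ∃ G, Whp P G ∧ Poor (fun n => cE (P n) (G n)) M y A j η'
  hl : ∀ {Ω Λ Λ' : ℕ → Type} {N : ℕ} {P : ∀ n, FP (Ω n)} {M j : ℕ → ℕ} {y : ∀ n, Ω n → V N}
    {A : ∀ n, Ω n → Λ n} {A' : ∀ n, Ω n → Λ' n} {u v : ℕ → ℝ}, Big M → FnE P A A' →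
    Heavy P M y A j u → Light P M y A' j v → Le M u v
  fine : ∀ {Ω Λ : ℕ → Type} {N : ℕ} {P : ∀ n, FP (Ω n)} {M j j' : ℕ → ℕ} {y : ∀ n, Ω n → V N}
    {A : ∀ n, Ω n → Λ n} {u : ℕ → ℝ}, Big M → (∀ᶠ n in UF, j n ≤ j' n) → Heavy P M y A j u →
    Heavy P M y A j' u
  near : ∀ {Ω Λ : ℕ → Type} {N : ℕ} {P : ∀ n, FP (Ω n)} {M j : ℕ → ℕ} {y y' : ∀ n, Ω n → V N}
    {A : ∀ n, Ω n → Λ n} {u : ℕ → ℝ}, Big M → Near P M y y' j → Heavy P M y A j u →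
    Heavy P M y' A j u
  box : ∀ {Ω Λ : ℕ → Type} {N : ℕ} {P : ∀ n, FP (Ω n)} {M : ℕ → ℕ} {y : ∀ n, Ω n → V N}
    (A : ∀ n, Ω n → Λ n) (j : ℕ → ℕ), Big M → Bdd P M y → Heavy P M y A j fun _ => 0
  acc : ∀ {Ω Λ Λ' : ℕ → Type} {N : ℕ} {P : ∀ n, FP (Ω n)} {M j g : ℕ → ℕ} {y z : ∀ n, Ω n → V N}
    {A : ∀ n, Ω n → Λ n} {A' : ∀ n, Ω n → Λ' n} {u u' w : ℕ → ℝ}, Big M → FnE P A A' →
    Lst P M (fun n ω => fl (g n) (z n ω)) (fun n ω => (fl (j n) (y n ω), A n ω)) →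
    Heavy P M y A j u → Light P M y A' j u' → Heavy P M z A' g w →
    Heavy P M z A g fun n => w n - (u' n - u n)

/-- Long axes give full coordinates. -/
def LF : Prop := ∀ (Ω : ℕ → Type) (N k C m : ℕ) (P : ∀ n, FP (Ω n)) (M : ℕ → ℕ)
  (x : ∀ n, Ω n → V N) (κ : ∀ n, Kd k (Ω n)), Big M → Kind P M x κ C m →
  ∃ (G : ∀ n, Ω n → Prop) (e : Fin m → Fin N), Pos P G ∧ Function.Injective e ∧
    Full (fun n => cE (P n) (G n)) M (fun n ω i => x n ω (e i)) fun n => (κ n).Z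

/-- Some axis is long. -/
def Long1 : Prop := ∀ N, THM (N + 1) 1 → THM (N + 1) 0

/-! ### Kinds -/

/-- The Remez inequality on all levels. -/
def RLf : Prop := ∀ k C : ℕ, ∃ C' : ℕ, C ≤ C' ∧ ∀ (Ω : ℕ → Type) (N : ℕ) (P : ∀ n, FP (Ω n))
  (M : ℕ → ℕ) (x : ∀ n, Ω n → V N) (κ : ∀ n, Kd k (Ω n)), Big M → Kind P M x κ C 0 →
  Floor P M x (fun n => (κ n).Z) → RA P M x κ C'

/-- Elementary operations on kinds. -/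
structure KOp : Prop where
  mono : ∀ {Ω : ℕ → Type} {N k C C' m : ℕ} {P : ∀ n, FP (Ω n)} {M : ℕ → ℕ} {x : ∀ n, Ω n → V N}
    {κ : ∀ n, Kd k (Ω n)}, Big M → Kind P M x κ C m → C ≤ C' →
    Kind P M x κ C' m ∧ Kind P M x κ C' 0
  zm : ∀ {Ω : ℕ → Type} {N k C C' m : ℕ} {P : ∀ n, FP (Ω n)} {M t : ℕ → ℕ} {x : ∀ n, Ω n → V N}
    {κ : ∀ n, Kd k (Ω n)}, Big M → Kind P M x κ C m → Lin M t →
    (∀ K : ℕ, REM P x M (fun n => (κ n).pc (t n)) C' K) →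
    KindS P M x (fun n => (κ n).zm (t n)) C' m t
  ctx : ∀ {Ω : ℕ → Type} {N k C m : ℕ} {P : ∀ n, FP (Ω n)} {M : ℕ → ℕ} {x : ∀ n, Ω n → V N}
    {κ : ∀ n, Kd k (Ω n)} {be : ∀ n, Ω n → ℕ}, Big M → Kind P M x κ C m → Few P M 0 be →
    Kind P M x (fun n => (κ n).ctx (be n)) C m
  dig : ∀ {Ω : ℕ → Type} {k : ℕ} {P : ∀ n, FP (Ω n)} {M t t' : ℕ → ℕ} {κ : ∀ n, Kd k (Ω n)}
    {c : ℝ}, Big M → (∀ᶠ n in UF, t n ≤ t' n) → Le M (fun n => (t' n : ℝ) - t n) (un M c) →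
    ∃ be : ∀ n, Ω n → ℕ, Few P M (k * lg * c) be ∧ ∀ᶠ n in UF, ∀ u v,
      (κ n).pc (t' n) u = (κ n).pc (t' n) v ↔ (be n u, (κ n).pc (t n) u) = (be n v, (κ n).pc (t n) v)
  dig0 : ∀ {Ω : ℕ → Type} {k : ℕ} {P : ∀ n, FP (Ω n)} {M t : ℕ → ℕ} {κ : ∀ n, Kd k (Ω n)}
    {c : ℝ}, Big M → Bdd P M (fun n => (κ n).p) → Few P M 0 (fun n => (κ n).W) →
    Le M (fun n => (t n : ℝ)) (un M c) → ∃ be : ∀ n, Ω n → ℕ, Few P M (k * lg * c) be ∧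
      ∀ n u v, (κ n).pc (t n) u = (κ n).pc (t n) v ↔ (be n u, (κ n).Z u) = (be n v, (κ n).Z v)

/-- A kind in a chart. -/
structure RC : Prop where
  zero : ∀ {Ω : ℕ → Type} {N N' k C D : ℕ} {P : ∀ n, FP (Ω n)} {M : ℕ → ℕ} {y : ∀ n, Ω n → V N}
    {κ : ∀ n, Kd k (Ω n)} {Θ : ∀ n, Ω n → Fin N' → Pl N}, Big M → Kind P M y κ C 0 →
    FnE P Θ (fun n => (κ n).Z) → (∀ n ω i, (Θ n ω i).totalDegree ≤ D) → Pw P M Θ →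
    Bdd P M (chs Θ y) →
    ∃ W : ∀ n, Ω n → ℕ, Kind P M (chs Θ y) (fun n => (κ n).setW (W n)) (C * D) 0
  long : ∀ {Ω Λ : ℕ → Type} {β : Bool → ℕ → Type} {N k C D m : ℕ} {P : ∀ n, FP (Ω n)}
    {M t : ℕ → ℕ} {y : ∀ n, Ω n → V N} {κ : ∀ n, Kd k (Ω n)} {Z : ∀ b n, Ω n → β b n}
    {A : ∀ n, Ω n → Λ n} {Θ : ∀ n, Ω n → Fin N → Pl N}, Big M → KindS P M y κ C m t → Lin M t →
    Cel P M y Z A Θ D → FnE P A (fun n => (κ n).Z) → Pw P M Θ → Ball P M y A t →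
    ∃ W : ∀ n, Ω n → ℕ, Kind P M (chs Θ y) (fun n => (κ n).setW (W n)) (C * D) m

/-- Fresh noise. -/
structure NZs : Prop where
  kind : ∀ {Ω : ℕ → Type} {N k C m : ℕ} {P : ∀ n, FP (Ω n)} {M J h t : ℕ → ℕ} {x : ∀ n, Ω n → V N}
    {κ : ∀ n, Kd k (Ω n)}, Big M → Fine M J → Lin M h → KindS P M x κ C m t →
    KindS (NP P N J) M (blurs (pl (Nπ Ω N J) x) (Nξ Ω N J) h)
      (fun n => ((κ n).pull (Nπ Ω N J n)).nz (Nξ Ω N J n)) (C + N) m t ∧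
    Nse (NP P N J) M (pl (Nπ Ω N J) x) (Nξ Ω N J) (fun n => (κ n).pull (Nπ Ω N J n)) C
  flr : ∀ {Ω : ℕ → Type} {N : ℕ} {P : ∀ n, FP (Ω n)} {M J h t : ℕ → ℕ} {x : ∀ n, Ω n → V N},
    Big M → Fine M J → Lin M h → Lin M t → Bdd P M x →
    Floor (NP P N J) M (blurs (pl (Nπ Ω N J) x) (Nξ Ω N J) h)
      fun n v => (v.1, fl (t n) (Nξ Ω N J n v))
  min : ∀ {Ω : ℕ → Type} {β : Bool → ℕ → Type} {N N' D : ℕ} {P : ∀ n, FP (Ω n)} {M J h : ℕ → ℕ}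
    {x : ∀ n, Ω n → V N} {Z : ∀ b n, Ω n → β b n} {Θ : ∀ n, Ω n → Fin N' → Pl N}
    {ν : ∀ n, Ω n → Pl N' → ℝ}, Big M → Fine M J → (∀ n ω i, (Θ n ω i).totalDegree ≤ D) →
    NT P M (chs Θ x) Z ν → NT (NP P N J) M
      (chs (pl (Nπ Ω N J) Θ) (blurs (pl (Nπ Ω N J) x) (Nξ Ω N J) h)) (pl2 (Nπ Ω N J) Z)
      (pl (Nπ Ω N J) ν)
  nu : ∀ {Ω Λ : ℕ → Type} {N : ℕ} {P : ∀ n, FP (Ω n)} {M J h : ℕ → ℕ} {x : ∀ n, Ω n → V N}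
    {A : ∀ n, Ω n → Λ n}, Big M → Fine M J → DLe P M x A h →
    NuEq (NP P N J) M (pl (Nπ Ω N J) fun n => nc (P n) (x n) (A n)) fun n =>
      nc (NP P N J n) (blurs (pl (Nπ Ω N J) x) (Nξ Ω N J) h n) (pl (Nπ Ω N J) A n)

/-- Consequences of a noise. -/
structure Nsy : Prop where
  dle : ∀ {Ω Λ : ℕ → Type} {β : Bool → ℕ → Type} {N k C : ℕ} {P : ∀ n, FP (Ω n)} {M h : ℕ → ℕ}
    {x ξ : ∀ n, Ω n → V N} {κ : ∀ n, Kd k (Ω n)} {Z : ∀ b n, Ω n → β b n} {A : ∀ n, Ω n → Λ n},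
    Big M → Lin M h → Nse P M x ξ κ C → CM P M (blurs x ξ h) Z A → FnE P A (fun n => (κ n).Z) →
    Fat P M (blurs x ξ h) A → DLe P M (blurs x ξ h) A h
  spr : ∀ {Ω : ℕ → Type} {d k C : ℕ} {P : ∀ n, FP (Ω n)} {M h j : ℕ → ℕ}
    {x ξ : ∀ n, Ω n → V (d + 1)} {κ : ∀ n, Kd k (Ω n)} (b : Fin (d + 1)), Big M → Lin M j →
    (∀ᶠ n in UF, h n ≤ j n) → Nse P M x ξ κ C → Gp P M fun n ω Γ =>
      dn (P n) (fun v => fl1 (j n) (blurs x ξ h n v b))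
        (fun v => ((κ n).Z v, fl (j n) fun i => blurs x ξ h n v (b.succAbove i))) ω ≤
      Γ * 2 ^ h n / 2 ^ j n
  dge : ∀ {Ω Λ Λ' : ℕ → Type} {β β' : Bool → ℕ → Type} {N E : ℕ} {P : ∀ n, FP (Ω n)}
    {M h g : ℕ → ℕ} {x ξ : ∀ n, Ω n → V N} {Z : ∀ b n, Ω n → β b n} {Z' : ∀ b n, Ω n → β' b n}
    {A : ∀ n, Ω n → Λ n} {Q : ∀ n, Ω n → Λ' n} {c : ℝ}, Big M → 0 < c →
    (∀ᶠ n in UF, g n + c * M n ≤ h n) → Bdd P M ξ → CM P M x Z A → DGe P M x A E g → FnE P A Q →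
    CM P M (blurs x ξ h) Z' Q → NZ P (blurs x ξ h) Q → DGe P M (blurs x ξ h) Q E g

/-! ### Cells -/

/-- Frames exist; a cell satisfies the Remez inequality. -/
def UDc : Prop := ∀ N C : ℕ, ∃ D : ℕ, ∀ (Ω Λ : ℕ → Type) (β : Bool → ℕ → Type)
  (P : ∀ n, FP (Ω n)) (M : ℕ → ℕ) (x : ∀ n, Ω n → V N) (Z : ∀ b n, Ω n → β b n)
  (A : ∀ n, Ω n → Λ n), Big M → (∀ b (K : ℕ), REM P x M (Z b) C K) → CM P M x Z A → NZ P x A →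
  ∃ Θ, Cel P M x Z A Θ D

/-- Properties of one cell. -/
structure Cel1 : Prop where
  irr : ∀ {Ω Λ : ℕ → Type} {β : Bool → ℕ → Type} {N E : ℕ} {P : ∀ n, FP (Ω n)} {M : ℕ → ℕ}
    {x : ∀ n, Ω n → V N} {Z : ∀ b n, Ω n → β b n} {A : ∀ n, Ω n → Λ n} {F : ∀ n, Ω n → Pl N},
    Big M → CM P M x Z A → FnE P F A → (∀ n ω, (F n ω).totalDegree ≤ E) →
    Gp P M fun n ω Γ => nc (P n) (x n) (A n) ω (F n ω) ≤ Γ * |eval (x n ω) (F n ω)|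
  up : ∀ {Ω Λ : ℕ → Type} {N : ℕ} {P : ∀ n, FP (Ω n)} {M : ℕ → ℕ} (x : ∀ n, Ω n → V N)
    (A : ∀ n, Ω n → Λ n) (E : ℕ), Big M → Gp P M fun n ω Γ => ∀ F : Pl N, F.totalDegree ≤ E →
      |eval (x n ω) F| ≤ Γ * nc (P n) (x n) (A n) ω F
  top : ∀ {Ω Λ : ℕ → Type} {β : Bool → ℕ → Type} {N : ℕ} {P : ∀ n, FP (Ω n)} {M : ℕ → ℕ}
    {x : ∀ n, Ω n → V N} {Z : ∀ b n, Ω n → β b n} {A : ∀ n, Ω n → Λ n}, Big M → Sure P M x →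
    MIN P M x Z → Com P Z A → Cel P M x Z A (fun _ _ => X) 1 ∧
      NuEq P M (fun _ _ => cn) fun n => nc (P n) (x n) (A n)
  comp : ∀ {Ω Λ : ℕ → Type} {β : Bool → ℕ → Type} {N N' D : ℕ} {P : ∀ n, FP (Ω n)} {M : ℕ → ℕ}
    {x : ∀ n, Ω n → V N} {Z : ∀ b n, Ω n → β b n} {A : ∀ n, Ω n → Λ n}
    {Θ : ∀ n, Ω n → Fin N' → Pl N}, CM P M x Z A → FnE P Θ A →
    (∀ n ω i, (Θ n ω i).totalDegree ≤ D) → CM P M (chs Θ x) Z A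
  congr : ∀ {Ω : ℕ → Type} {β β' : Bool → ℕ → Type} {N : ℕ} {P : ∀ n, FP (Ω n)} {M : ℕ → ℕ}
    {x : ∀ n, Ω n → V N} {Z : ∀ b n, Ω n → β b n} {Z' : ∀ b n, Ω n → β' b n}
    {ν : ∀ n, Ω n → Pl N → ℝ}, NT P M x Z ν → (∀ b, FnE P (Z' b) (Z b)) → NT P M x Z' ν
  pw : ∀ {Ω Λ : ℕ → Type} {β β' : Bool → ℕ → Type} {N N' D : ℕ} {P : ∀ n, FP (Ω n)} {M : ℕ → ℕ}
    {x : ∀ n, Ω n → V N} {Z : ∀ b n, Ω n → β b n} {Z' : ∀ b n, Ω n → β' b n} {A : ∀ n, Ω n → Λ n}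
    {Θ : ∀ n, Ω n → Fin N' → Pl N}, Big M → CM P M x Z A → Frm P M x Z' A Θ D → Fat P M x A →
    Pw P M Θ
  nic : ∀ {Ω Λ : ℕ → Type} {β : Bool → ℕ → Type} {N D : ℕ} {P : ∀ n, FP (Ω n)} {M : ℕ → ℕ}
    {x : ∀ n, Ω n → V N} {Z : ∀ b n, Ω n → β b n} {A : ∀ n, Ω n → Λ n}
    {Θ : ∀ n, Ω n → Fin N → Pl N}, Big M → Cel P M x Z A Θ D → ∀ E K : ℕ, Gp P M fun n ω Γ =>
      ∃ σ, NiceAt (Θ n ω) (nc (P n) (x n) (A n) ω) D E K Γ (x n ω) σ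

/-- Depth and volume. -/
structure Cel2 : Prop where
  dle : ∀ {Ω Λ : ℕ → Type} {β : Bool → ℕ → Type} {N D : ℕ} {P : ∀ n, FP (Ω n)} {M g : ℕ → ℕ}
    {x : ∀ n, Ω n → V N} {Z : ∀ b n, Ω n → β b n} {A : ∀ n, Ω n → Λ n}
    {Θ : ∀ n, Ω n → Fin N → Pl N}, Big M → Cel P M x Z A Θ D →
    (DzLe P M x Θ g ↔ DLe P M x A g) ∧ (DzGe P M x Θ g → DGe P M x A D g)
  dv : ∀ {Ω Λ : ℕ → Type} {β : Bool → ℕ → Type} {N D : ℕ} {P : ∀ n, FP (Ω n)} {M : ℕ → ℕ}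
    {x : ∀ n, Ω n → V (N + 1)} {Z : ∀ b n, Ω n → β b n} {A : ∀ n, Ω n → Λ n}
    {Θ : ∀ n, Ω n → Fin (N + 1) → Pl (N + 1)}, Big M → Cel P M x Z A Θ D → Sure P M x →
    Gp P M fun n ω Γ => 1 ≤ Γ * dsz (Θ n ω) (x n ω) ∧
      dsz (Θ n ω) (x n ω) ≤ Γ * |eval (x n ω) (jac (Θ n ω))| ∧
      |eval (x n ω) (jac (Θ n ω))| ≤ Γ * dsz (Θ n ω) (x n ω) ^ (N + 1)
  vm : ∀ {Ω Λ Λ' : ℕ → Type} {β β' : Bool → ℕ → Type} {N D D' : ℕ} {P : ∀ n, FP (Ω n)} {M : ℕ → ℕ}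
    {x : ∀ n, Ω n → V N} {Z : ∀ b n, Ω n → β b n} {Z' : ∀ b n, Ω n → β' b n} {A : ∀ n, Ω n → Λ n}
    {A' : ∀ n, Ω n → Λ' n} {Θ Θ' : ∀ n, Ω n → Fin N → Pl N}, Big M → Frm P M x Z A Θ D →
    Cel P M x Z' A' Θ' D' → FnE P A A' → Gp P M fun n ω Γ =>
      |eval (x n ω) (jac (Θ n ω))| ≤ Γ * |eval (x n ω) (jac (Θ' n ω))|
  down : ∀ {Ω Λ : ℕ → Type} {β : Bool → ℕ → Type} {N D : ℕ} {P : ∀ n, FP (Ω n)} {M g : ℕ → ℕ}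
    {x : ∀ n, Ω n → V N} {Z : ∀ b n, Ω n → β b n} {A : ∀ n, Ω n → Λ n}
    {Θ : ∀ n, Ω n → Fin N → Pl N} {v : ℕ → ℝ}, Big M → Cel P M x Z A Θ D → Vol P M x Θ v →
    DLe P M x A g → Heavy P M x A g v
  up : ∀ {Ω Λ : ℕ → Type} {β : Bool → ℕ → Type} {N D : ℕ} {P : ∀ n, FP (Ω n)} {M j : ℕ → ℕ}
    {x : ∀ n, Ω n → V N} {Z : ∀ b n, Ω n → β b n} {A : ∀ n, Ω n → Λ n}
    {Θ : ∀ n, Ω n → Fin N → Pl N}, Big M → Cel P M x Z A Θ D → Sure P M x → Lin M j →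
    Full P M (chs Θ x) A → Gp P M fun n ω Γ => dn (P n) (fun u => fl (j n) (x n u)) (A n) ω ≤
      Γ * (|eval (x n ω) (jac (Θ n ω))| / (2 ^ j n) ^ N)
  lip : ∀ {Ω Λ : ℕ → Type} {β β' : Bool → ℕ → Type} {N N' D : ℕ} {P : ∀ n, FP (Ω n)} {M h : ℕ → ℕ}
    {x : ∀ n, Ω n → V N} {Z : ∀ b n, Ω n → β b n} {Z' : ∀ b n, Ω n → β' b n} {A : ∀ n, Ω n → Λ n}
    {Θ : ∀ n, Ω n → Fin N' → Pl N}, Big M → CM P M x Z A → Frm P M x Z' A Θ D → DLe P M x A h →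
    Gp P M fun n ω Γ => ∀ w : V N, 2 ^ h n * ‖w‖ ≤ 1 →
      ‖ev (Θ n ω) (x n ω + w) - ev (Θ n ω) (x n ω)‖ ≤ Γ * 2 ^ h n * ‖w‖
  ball : ∀ {Ω Λ : ℕ → Type} {k m : Bool → ℕ} {N C : ℕ} {P : ∀ n, FP (Ω n)} {M t : ℕ → ℕ}
    {x : ∀ n, Ω n → V N} {s : ∀ n, Sy k (Ω n)} {A : ∀ n, Ω n → Λ n}, Sys P M x s C m →
    CM P M x (pcs s fun _ => t) A → Ball P M x A t

/-- A relative frame. -/
def Rel : Prop := ∀ N C D : ℕ, ∃ D' : ℕ, ∀ (Ω Λ Λ' : ℕ → Type) (β β' : Bool → ℕ → Type)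
  (P : ∀ n, FP (Ω n)) (M : ℕ → ℕ) (x : ∀ n, Ω n → V N) (Z : ∀ b n, Ω n → β b n)
  (Z' : ∀ b n, Ω n → β' b n) (A : ∀ n, Ω n → Λ n) (A' : ∀ n, Ω n → Λ' n)
  (Θ Θ' : ∀ n, Ω n → Fin N → Pl N) (v v' : ℕ → ℝ), Big M → Cel P M x Z A Θ D →
  Cel P M x Z' A' Θ' D → FnE P A A' → (∀ b (K : ℕ), REM P x M (Z' b) C K) → Vol P M x Θ v →
  Vol P M x Θ' v' → ∃ Ψ, Cel P M (chs Θ x) Z' A' Ψ D' ∧ Vol P M (chs Θ x) Ψ fun n => v' n - v n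

/-- Fewer independent functions than coordinates are full. -/
def G7 : Prop := ∀ (Ω Λ : ℕ → Type) (k m : Bool → ℕ) (N d C D : ℕ) (P : ∀ n, FP (Ω n)) (M : ℕ → ℕ)
  (x : ∀ n, Ω n → V N) (s : ∀ n, Sy k (Ω n)) (A : ∀ n, Ω n → Λ n) (w : ∀ n, Ω n → Fin d → Pl N),
  THM d 0 → Sys P M x s C m → Com P (lab s) A → Frm P M x (lab s) A w D → Pw P M w →
  Full P M (chs w x) A

/-- A filled cell on a slowly shrinking event. -/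
def FILL : Prop := ∀ N C : ℕ, THM N 0 → ∃ D : ℕ, ∀ (Ω Λ : ℕ → Type) (k m : Bool → ℕ)
  (P : ∀ n, FP (Ω n)) (M : ℕ → ℕ) (x : ∀ n, Ω n → V N) (s : ∀ n, Sy k (Ω n)) (T : ∀ n, Ω n → Λ n),
  Sys P M x s C m → Sure P M x → Com P (lab s) T → Floor P M x (lab s true) →
  ∀ L : ℕ → ℝ, Tendsto L UF atTop → ∃ (Λ' : ℕ → Type) (G : ∀ n, Ω n → Prop) (S : ∀ n, Ω n → Λ' n)
    (Θ : ∀ n, Ω n → Fin N → Pl N), (∀ᶠ n in UF, 1 ≤ L n * pb (P n) (G n)) ∧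
    Sys (fun n => cE (P n) (G n)) M x s C m ∧ FnE (fun n => cE (P n) (G n)) T S ∧
    Cel (fun n => cE (P n) (G n)) M x (lab s) S Θ D ∧ Fat (fun n => cE (P n) (G n)) M x S ∧
    Full (fun n => cE (P n) (G n)) M (chs Θ x) S

/-- A cell whose depth is close to the noise is almost filled. -/
def UL : Prop := ∀ (Ω Λ : ℕ → Type) (k m : Bool → ℕ) (d C D E : ℕ) (P : ∀ n, FP (Ω n))
  (M h g j : ℕ → ℕ) (x ξ : ∀ n, Ω n → V (d + 1)) (s : ∀ n, Sy k (Ω n)) (A : ∀ n, Ω n → Λ n)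
  (Θ : ∀ n, Ω n → Fin (d + 1) → Pl (d + 1)) (v : ℕ → ℝ) (k₀ : ℕ) (κ : ∀ n, Kd k₀ (Ω n)), THM d 0 →
  Sys P M (blurs x ξ h) s C m → Sure P M (blurs x ξ h) → Cel P M (blurs x ξ h) (lab s) A Θ D →
  Fat P M (blurs x ξ h) A → Vol P M (blurs x ξ h) Θ v → DGe P M (blurs x ξ h) A E g →
  Nse P M x ξ κ C → FnE P A (fun n => (κ n).Z) → Lin M j → (∀ᶠ n in UF, h n ≤ j n) →
  Light P M (blurs x ξ h) A j fun n => v n + ((h n : ℝ) - g n) * lg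

/-- One window of the chain. -/
def Pair (N mm : ℕ) : Prop := ∀ (k m : Bool → ℕ) (C D : ℕ) (κ : ℝ), 0 < κ → ∃ K : ℝ, 0 ≤ K ∧
  ∀ (Ω Λ Λ' : ℕ → Type) (P : ∀ n, FP (Ω n)) (M : ℕ → ℕ) (y : ∀ n, Ω n → V N) (s : ∀ n, Sy k (Ω n))
    (A : ∀ n, Ω n → Λ n) (A' : ∀ n, Ω n → Λ' n) (Θ Θ' : ∀ n, Ω n → Fin N → Pl N)
    (be : Bool → ∀ n, Ω n → ℕ) (c v v' u u' : ℝ), mm ≤ m true + m false → 0 ≤ c →
    Sys P M (chs Θ y) s C m → Cel P M y (lab s) A Θ D → (∀ b, Few P M c (be b)) →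
    Cel P M y (hat (lab s) be) A' Θ' D → FnE P A A' →
    (∀ b (K : ℕ), REM P y M (hat (lab s) be b) C K) → DLe P M y A M → DLe P M y A' M →
    Sure P M y → Vol P M y Θ (un M v) → Vol P M y Θ' (un M v') →
    Heavy P M y A (fun n => 3 * M n) (un M u) → Light P M y A' (fun n => 3 * M n) (un M u') →
    Heavy P M y A' (fun n => 3 * M n) (un M u') → Light P M y A (fun n => 3 * M n) (un M u) →
    v' - v - (u' - u) ≤ κ * (v' - v) + K * c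

def OfRel : Prop := UDc → Cel1 → Cel2 → Rel
def OfG7 : Prop := RC → KOp → G7
def OfFILL : Prop := Slow → Her1 → Her2 → UDc → Cel1 → G7 → FILL
def OfUL : Prop := Her1 → Her2 → FullApi → Nsy → Cel1 → Cel2 → G7 → UL
def OfPair : Prop := Slow → Her1 → Her2 → FullApi → Cel1 → Cel2 → Rel →
  ∀ d mm, SteepF (d + 1) mm → Pair (d + 1) mm

end Pool.Agent.MP_5168f5_an.AN
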