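import Pool.Agent.MP_5168f5_an.AN.VG
import Pool.Agent.MP_5168f5_an.AN.Spec

/-! Kakeya sets in all dimensions: properties of one cell in a context. -/

namespace Pool.Agent.MP_5168f5_an.AN.Cx

open H19 H17S H17F Filter MvPolynomial R4 Vo
open Nc (Pl ev jac NiceAt Dv deg_jac nuP kc eval_aeval)
open G39 (dl nu)
open Pk (cn)

section One

variable {Ω α β : Type} {P : FP Ω} {Z : Ω → β} {N : ℕ}

/-- A point of the support with a given label. -/
noncomputable def sec (P : FP Ω) (Z : Ω → β) (z : β) : Ω :=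
  @Classical.epsilon _ (ex_mem P).nonempty fun ω => ω ∈ P.S ∧ Z ω = z

theorem sec_spec {ω : Ω} (h : ω ∈ P.S) : sec P Z (Z ω) ∈ P.S ∧ Z (sec P Z (Z ω)) = Z ω :=
  Classical.epsilon_spec (p := fun v => v ∈ P.S ∧ Z v = Z ω) ⟨ω, h, rfl⟩

theorem fn_sec {F : Ω → α} (e : Fn P F Z) {ω : Ω} (h : ω ∈ P.S) : F (sec P Z (Z ω)) = F ω :=
  e _ (sec_spec h).1 ω h (sec_spec h).2

theorem nu_le {f : Ω → ℝ} {B : ℝ} (h : ∀ v ∈ P.S, |f v| ≤ B) : nu P f ≤ B := by
  obtain ⟨v, hv⟩ := ex_mem P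
  refine Real.sqrt_le_iff.2 ⟨(abs_nonneg _).trans (h v hv), (P.E_mono fun u hu => ?_).trans_eq
    (P.E_const _)⟩
  rw [← sq_abs]
  exact pow_le_pow_left₀ (abs_nonneg _) (h u hu) 2

theorem nc_nn (P : FP Ω) (x : Ω → V N) (Z : Ω → β) (ω : Ω) (F : Pl N) : 0 ≤ nc P x Z ω F :=
  Real.sqrt_nonneg _

theorem nc_eq (P : FP Ω) (x : Ω → V N) (Z : Ω → β) (ω : Ω) :
    nc P x Z ω = nuP (cv P Z (Z ω)) x := rfl

theorem fn_nc (P : FP Ω) (x : Ω → V N) (Z : Ω → β) : Fn P (nc P x Z) Z := fun _ _ _ _ e => by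
  rw [nc_eq, nc_eq, e]

theorem nc_cht {N' : ℕ} {x : Ω → V N} {Θ : Ω → Fin N' → Pl N} (e : Fn P Θ Z) {ω : Ω}
    (h : ω ∈ P.S) (H : Pl N') : nc P (cht Θ x) Z ω H = nc P x Z ω (aeval (Θ ω) H) := by
  refine congrArg Real.sqrt (FP.E_congr _ fun v hv => ?_)
  obtain ⟨a, b⟩ := (mem_cv h v).1 hv
  simp only [eval_aeval, cht, e v a ω h b]

theorem cn_le {E : ℕ} {H : Pl N} (hH : H.totalDegree ≤ E) {B : ℝ} (h : ∀ m, |coeff m H| ≤ B) :
    cn H ≤ (Pk.mons (Fin N) E).card * B := by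
  rw [kc.sup _ _ ((Pk.pCnt.sup E _).1 hH), ← nsmul_eq_mul]
  exact Finset.sum_le_card_nsmul _ _ _ fun m _ => h m

theorem cht_X (x : Ω → V N) : cht (fun _ => X) x = x := by
  funext ω i
  simp [cht, ev]

end One

variable {Ω Λ γ : ℕ → Type} {β β' : Bool → ℕ → Type} {N N' D E : ℕ} {P : ∀ n, FP (Ω n)}
  {M : ℕ → ℕ} {x : ∀ n, Ω n → V N} {Z : ∀ b n, Ω n → β b n} {Z' : ∀ b n, Ω n → β' b n}
  {A : ∀ n, Ω n → Λ n} {Q : ∀ n, Ω n → γ n} {ν ν' : ∀ n, Ω n → Pl N → ℝ} {F : ∀ n, Ω n → Pl N}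

theorem fnE_trans {α : ℕ → Type} {Y : ∀ n, Ω n → α n} (h : FnE P Y A) (h' : FnE P A Q) :
    FnE P Y Q := by
  filter_upwards [h, h'] with n a b using a.trans b

theorem fnE_comp {α α' : ℕ → Type} {Y : ∀ n, Ω n → α n} (h : FnE P Y A) (g : ∀ n, α n → α' n) :
    FnE P (fun n ω => g n (Y n ω)) A := h.mono fun n k u hu v hv e => congrArg (g n) (k u hu v hv e)

theorem fnE_nc (P : ∀ n, FP (Ω n)) (x : ∀ n, Ω n → V N) (A : ∀ n, Ω n → Λ n) :
    FnE P (fun n => nc (P n) (x n) (A n)) A := Eventually.of_forall fun _ => fn_nc _ _ _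

/-- The worst witness is read from the label. -/
theorem whp_all {T : ℕ → Type} (i : ∀ n, Nonempty (T n)) {p : ∀ n, Ω n → T n → Prop}
    (hf : FnE P p Q) (h : ∀ a : ∀ n, Ω n → T n, FnE P a Q → Whp P fun n ω => p n ω (a n ω)) :
    Whp P fun n ω => ∀ a, p n ω a :=
  (h (fun n ω => Classical.epsilon fun a => ¬p n ω a)
    (fnE_comp hf fun _ s => Classical.epsilon fun a => ¬s a)).mono
    (Eventually.of_forall fun n ω _ k a => by_contra fun u =>
      Classical.epsilon_spec (p := fun a => ¬p n ω a) ⟨a, u⟩ k)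

theorem nt_fn (h : NT P M x Z ν) {c : ℝ} (hc : 0 < c) {F : Bool → ∀ n, Ω n → Pl N}
    (e : ∀ b, FnE P (F b) (Z b)) (hE : ∀ b n ω, (F b n ω).totalDegree ≤ E) :
    Whp P fun n ω => ¬(F true n ω = F false n ω ∧
      |eval (x n ω) (F true n ω)| < dl M c n * ν n ω (F true n ω)) := by
  refine (h E c (fun b n z => F b n (sec (P n) (Z b n) z)) hc fun _ _ _ => hE _ _ _).mono ?_
  filter_upwards [e true, e false] with n a b ω hω k
  rwa [fn_sec a hω, fn_sec b hω] at k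

theorem nt_dn (h : NT P M x Z ν) (hA : Com P Z A) {c : ℝ} (hc : 0 < c) (e : FnE P F A)
    (hE : ∀ n ω, (F n ω).totalDegree ≤ E) :
    Whp P fun n ω => dl M c n * ν n ω (F n ω) ≤ |eval (x n ω) (F n ω)| :=
  (nt_fn h hc (F := fun _ => F) (fun b => fnE_trans e (hA b)) fun _ => hE).mono
    (Eventually.of_forall fun _ _ _ k => not_lt.1 fun u => k ⟨rfl, u⟩)

theorem nt_low (h : NT P M x Z ν) (hA : Com P Z A) (e : FnE P F A)
    (hE : ∀ n ω, (F n ω).totalDegree ≤ E) :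
    Wl P M (fun n ω => ν n ω (F n ω)) fun n ω => |eval (x n ω) (F n ω)| := fun c hc =>
  (nt_dn h hA hc e hE).mono (Eventually.of_forall fun n ω _ k => by
    rw [← G39.dl_inv]
    exact (le_inv_mul_iff₀ (G39.dl_pos M c n)).2 k)

theorem nt_mono (h : NT P M x Z ν) (e : ∀ E, Wp P M fun n L ω =>
    ∀ F : Pl N, F.totalDegree ≤ E → ν' n ω F ≤ L * ν n ω F) : NT P M x Z ν' := fun E c F hc hF => by
  refine ((h E _ F (half_pos hc) hF).and (e E _ (half_pos hc))).mono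
    (Eventually.of_forall fun n ω _ k u => k.1 ⟨u.1, u.2.trans_le ?_⟩)
  refine (mul_le_mul_of_nonneg_left (k.2 _ (hF _ _ _)) (G39.dl_pos _ _ _).le).trans_eq ?_
  rw [← mul_assoc, G39.dl, G39.dl, ← Real.exp_add]
  congr 2
  ring

theorem nc_gd (hM : Big M) (x : ∀ n, Ω n → V N) (A : ∀ n, Ω n → Λ n) (E : ℕ) :
    Wp P M fun n L ω => Vo.Gd (nc (P n) (x n) (A n) ω) E L (x n ω) := wp_cq (Q := A) (by
  filter_upwards [fn_cq (fnE_nc P x A)] with w k
  exact wp_mono (ir1.gd N Ω (cq P A w) x M hM E) (k.mono fun n u _ _ v hv z => (u v hv).2.2 ▸ z))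

theorem nc_high (hM : Big M) (A : ∀ n, Ω n → Λ n) (hE : ∀ n ω, (F n ω).totalDegree ≤ E) :
    Wl P M (fun n ω => |eval (x n ω) (F n ω)|) fun n ω => nc (P n) (x n) (A n) ω (F n ω) :=
  wp_mono (nc_gd hM x A E) (Eventually.of_forall fun n _ _ ω _ k => k _ (hE n ω))

theorem cm_low (h : CM P M x Z A) (e : FnE P F A) (hE : ∀ n ω, (F n ω).totalDegree ≤ E) :
    Wl P M (fun n ω => nc (P n) (x n) (A n) ω (F n ω)) fun n ω => |eval (x n ω) (F n ω)| :=
  nt_low h.nt h.com e hE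

/-- The cells of a minimal label are irreducible. -/
theorem cm_irr (hM : Big M) (h : CM P M x Z A) : ∀ᶠ w in lo P, Irr (cq P A w) x M := by
  refine (lo_all fun E => lo_eps (fun ε hε => lo_eps (fun c hc => ?_) ?_) ?_).mono
    fun w k => ⟨hM, k⟩
  · have h1 := whp_unif (P := P) (Q := A) (A := fun _ => {F : Pl N // F.totalDegree ≤ E})
      (fun _ => ⟨⟨0, by simp⟩⟩) (G := fun n q F v => nuP (cv (P n) (A n) q) (x n) F.1 ≤
        Real.exp (c * M n) * |eval (x n v) F.1|)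
      (fun a => cm_low h (F := fun n ω => (a n (A n ω)).1) (Eventually.of_forall
        fun _ _ _ _ _ e => by simp only [e]) (fun n ω => (a n (A n ω)).2) c hc) hε
    exact (lo_ev.2 h1).mono fun w k => k.mono fun n u F hF =>
      (pb_mono fun _ _ => not_le.2).trans (u ⟨F, hF⟩)
  · exact fun c c' w _ l k => k.mono fun n u F hF => (pb_mono fun _ _ z =>
      (mul_le_mul_of_nonneg_right (ex_le M l n) (abs_nonneg _)).trans_lt z).trans (u F hF)
  · exact fun ε ε' w _ l k c hc => (k c hc).mono fun n u F hF => (u F hF).trans l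

theorem wp_fin {J : Type} [Finite J] {p : J → ∀ n, ℝ → Ω n → Prop} (h : ∀ j, Wp P M (p j)) :
    Wp P M fun n L ω => ∀ j, p j n L ω := fun c hc => Whp.all fun j => h j c hc

theorem bdd_wp {y : ∀ n, Ω n → V N} (h : Bdd P M y) : Wp P M fun n L ω => ‖y n ω‖ ≤ L :=
  gp_wp h fun _ _ _ _ _ l k => k.trans l

variable {Θ : ∀ n, Ω n → Fin N' → Pl N}

theorem cm_le (h : CM P M x Z A) (e : FnE P Θ A) (hD : ∀ n ω i, (Θ n ω i).totalDegree ≤ D)
    (hb : Bdd P M (chs Θ x)) : Wp P M fun n L ω => ∀ i, nc (P n) (x n) (A n) ω (Θ n ω i) ≤ L :=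
  wp_sq ((wp_fin fun i => cm_low h (fnE_comp e fun _ s => s i) fun n ω => hD n ω i).and (bdd_wp hb))
    (Eventually.of_forall fun n _ l ω _ k i => (k.1 i).trans (mul_le_mul_of_nonneg_left
      ((norm_le_pi_norm (chs Θ x n ω) i).trans k.2) (zero_le_one.trans l)))

theorem frm_ind (hM : Big M) (h : Frm P M x Z A Θ D) (hA : Com P Z A) (E : ℕ) :
    Wp P M fun n L ω => ∀ H : Pl N', H.totalDegree ≤ E →
      cn H ≤ L * nc (P n) (x n) (A n) ω (aeval (Θ n ω) H) := fun c hc => by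
  refine (whp_all (Q := A) (T := fun _ => {H : Pl N' // H.totalDegree ≤ E})
    (fun _ => ⟨⟨0, by simp⟩⟩) (p := fun n ω H => cn H.1 ≤
      Real.exp (c * M n) * nc (P n) (x n) (A n) ω (aeval (Θ n ω) H.1)) ?_ fun a ha => ?_).mono
    (Eventually.of_forall fun _ _ _ k H hH => k ⟨H, hH⟩)
  · exact h.fn.mono fun n k u hu v hv e => by simp only [k u hu v hv e, fn_nc _ _ _ u hu v hv e]
  · exact (nt_low h.min hA (fnE_comp ha fun _ s => s.1) fun n ω => (a n ω).2).trans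
      (wp_mono (nc_high (x := x) hM A (F := fun n ω => aeval (Θ n ω) (a n ω).1)
        fun n ω => kc.deg _ _ _ _ (a n ω).2 (h.deg n ω))
        (Eventually.of_forall fun n _ _ ω _ k => by simp only [eval_aeval] at k; exact k)) c hc

/-- A frame is a frame of the typical cell. -/
theorem frm_fr (hM : Big M) (hc : CM P M x Z A) (h : Frm P M x Z' A Θ D) (hA : Com P Z' A) :
    ∀ᶠ w in lo P, Fr (cq P A w) x M (fun n => Θ n (w n)) D := by
  filter_upwards [(lo_Ev fun _ _ _ _ _ l k i => (k i).trans l).2 (cm_le hc h.fn h.deg h.bd),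
    lo_all fun E => (lo_Ev fun _ _ _ _ _ l k H hH => (k H hH).trans
      (mul_le_mul_of_nonneg_right l (nc_nn _ _ _ _ _))).2 (frm_ind hM h hA E)] with w a b
  exact ⟨Eventually.of_forall fun n => h.deg n _, a, fun E c hc => (b E c hc).mono
    fun n u H hH m => (kc.coeff H m).trans (u H hH)⟩

/-- Independent bounded polynomials read from a minimal label are a frame. -/
theorem frm_of (hM : Big M) (hc : CM P M x Z A) (e : FnE P Θ A)
    (hD : ∀ n ω i, (Θ n ω i).totalDegree ≤ D)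
    (hl : Wp P M fun n L ω => ∀ i, nc (P n) (x n) (A n) ω (Θ n ω i) ≤ L)
    (hi : ∀ E, Wp P M fun n L ω => ∀ H : Pl N', H.totalDegree ≤ E → ∀ m,
      |coeff m H| ≤ L * nc (P n) (x n) (A n) ω (aeval (Θ n ω) H)) : Frm P M x Z A Θ D := by
  refine ⟨e, hD, wp_gp (wp_sq ((nc_gd hM x A D).and hl) (Eventually.of_forall
    fun n L l ω _ k => (pi_norm_le_iff_of_nonneg (by positivity)).2 fun i => (k.1 _ (hD n ω i)).trans
      (mul_le_mul_of_nonneg_left (k.2 i) (zero_le_one.trans l)))), ?_⟩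
  refine nt_mono (ν := fun n ω H => nc (P n) (x n) (A n) ω (aeval (Θ n ω) H))
    (fun E c F h0 hF => ?_) fun E => (hi E).of hM (Pk.mons (Fin N') E).card 1
      (Eventually.of_forall fun n L L' _ l ω _ k H hH => (cn_le hH (k H hH)).trans (by
        rw [← mul_assoc, ← pow_one L]
        exact mul_le_mul_of_nonneg_right l (nc_nn _ _ _ _ _)))
  refine (nt_fn hc.nt h0 (F := fun b n ω => aeval (Θ n ω) (F b n (Z b n ω))) (fun b => ?_)
    fun b n ω => kc.deg _ _ _ _ (hF _ _ _) (hD n ω)).mono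
    (Eventually.of_forall fun n ω _ k u => k ⟨by rw [u.1], by rw [eval_aeval]; exact u.2⟩)
  exact (fnE_trans e (hc.com b)).mono fun n k u hu v hv z => by simp only [k u hu v hv z, z]

theorem frm_of_fr (hM : Big M) (hc : CM P M x Z A) (e : FnE P Θ A)
    (hD : ∀ n ω i, (Θ n ω i).totalDegree ≤ D)
    (h : ∀ᶠ w in lo P, Fr (cq P A w) x M (fun n => Θ n (w n)) D) : Frm P M x Z A Θ D :=
  frm_of hM hc e hD (wp_of_lo (h.mono fun _ k => k.le)) fun E =>
    wp_of_lo (h.mono fun _ k => k.ind E)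

theorem cm_comp (h : CM P M x Z A) (e : FnE P Θ A) (hD : ∀ n ω i, (Θ n ω i).totalDegree ≤ D) :
    CM P M (chs Θ x) Z A := by
  refine ⟨h.com, fun E c F h0 hF => (nt_fn h.nt h0
    (F := fun b n ω => aeval (Θ n ω) (F b n (Z b n ω))) (fun b => ?_)
    fun b n ω => kc.deg _ _ _ _ (hF _ _ _) (hD n ω)).mono (e.mono fun n f ω hω k u =>
      k ⟨by rw [u.1], by rw [eval_aeval, ← nc_cht f hω]; exact u.2⟩)⟩
  exact (fnE_trans e (h.com b)).mono fun n k u hu v hv z => by simp only [k u hu v hv z, z]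

theorem sure_nc (hM : Big M) (h : Sure P M x) (A : ∀ n, Ω n → Λ n) (E : ℕ) : Wp P M fun n L ω =>
    ∀ F : Pl N, F.totalDegree ≤ E → nc (P n) (x n) (A n) ω F ≤ L * cn F := by
  obtain ⟨Γ, s, k⟩ := h
  refine (Wp.of_ev (ev_sub s)).of hM 1 E (k.mono fun n u L L' l l' ω _ z F hF =>
    nu_le fun v hv => (kc.val F E L _ hF l fun i => (norm_le_pi_norm (x n v) i).trans
      ((u v (cE_sub hv)).trans z)).trans ?_)
  rw [mul_comm]
  exact mul_le_mul_of_nonneg_right (by linarith) (kc.nonneg F)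

theorem sure_bdd (h : Sure P M x) : Bdd P M x :=
  h.elim fun Γ k => S20.gp_iff.2 ⟨Γ, k.1, Whp.of_ev k.2⟩

variable {Φ : ∀ n, Ω n → Fin N → Pl N}

theorem cel_nice (hM : Big M) (h : Cel P M x Z A Φ D) (E K : ℕ) : Wp P M fun n L ω =>
    ∃ σ, NiceAt (Φ n ω) (nc (P n) (x n) (A n) ω) D E K L (x n ω) σ := wp_cq (Q := A) (by
  filter_upwards [cm_irr hM h.cm, frm_fr hM h.cm h.frm h.cm.com, fn_cq (fnE_nc P x A),
    fn_cq h.frm.fn] with w a b k k'
  refine wp_mono (niW N Ω (cq P A w) x M _ D a b E K) ?_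
  filter_upwards [k, k'] with n u u' L _ v hv z
  rw [(u v hv).2.2, (u' v hv).2.2]
  exact z)

/-- The point of a cell is generic for the norm of the cell. -/
theorem cel_vh (hM : Big M) (h : Cel P M x Z A Φ D) :
    VH P M x A (fun n => nc (P n) (x n) (A n)) Φ D :=
  ⟨hM, fnE_nc P x A, fun E => wp_gp (nc_gd hM x A E), fun _ _ _ hc e hE =>
    nt_dn h.cm.nt h.cm.com hc e hE, fun _ => nc_nn _ _ _, h.frm.fn, h.frm.deg,
    wp_gp (cm_le h.cm h.frm.fn h.frm.deg h.frm.bd), fun E K => wp_gp (cel_nice hM h E K)⟩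

theorem cel_nz (hM : Big M) (h : Cel P M x Z A Φ D) : NZ P x A := fun E =>
  lo_ev.1 ((frm_fr hM h.cm h.frm h.cm.com).mono fun _ k =>
    ((ir2.pos N Ω _ x M D _ k).2 E).mono fun _ u F a b => u F b a)

/-- A normalised system with a large Jacobian is a frame of the cell. -/
theorem cel_jfr (hM : Big M) (h : Cel P M x Z A Φ D) {Ψ : ∀ n, Ω n → Fin N → Pl N} {D' : ℕ}
    (e : FnE P Ψ A) (hD : ∀ n ω i, (Ψ n ω i).totalDegree ≤ D') (hb : Bdd P M (chs Ψ x))
    (hj : Wl P M (fun n ω => |eval (x n ω) (jac (Φ n ω))|) fun n ω => |eval (x n ω) (jac (Ψ n ω))|) :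
    Cel P M x Z A Ψ D' :=
  have v := cel_vh hM h
  have l := cm_le h.cm e hD hb
  ⟨h.cm, frm_of hM h.cm e hD l (v.jfr hD l (((v.low v.fnj fun n ω => deg_jac (v.deg n ω)).trans
    hj).trans (v.high fun n ω => deg_jac (hD n ω))))⟩

end Pool.Agent.MP_5168f5_an.AN.Cx

namespace Pool.Agent.MP_5168f5_an.AN

open H19 H17S H17F Filter MvPolynomial Cx

theorem cel1 : Cel1 where
  irr _ h e hE := wp_gp (cm_low h e hE)
  up x A E hM := wp_gp (nc_gd hM x A E)
  top := fun {Ω Λ β N P M x Z A} hM hs hm hc => by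
    have e : (fun n => cht (fun _ => X) (x n)) = x := funext fun n => cht_X (x n)
    have f : Frm P M x Z A (fun _ _ => X) 1 := ⟨S20.fnE_const _, fun _ _ _ => (totalDegree_X _).le,
      e.symm ▸ sure_bdd hs, e.symm ▸ hm⟩
    refine ⟨⟨⟨hc, nt_mono hm (sure_nc hM hs A)⟩, f⟩, fun E => wp_gp (wp_mono
      ((frm_ind hM f hc E).and (sure_nc hM hs A E)) (Eventually.of_forall
        fun n L _ ω _ k F hF => ⟨?_, k.2 F hF⟩))⟩
    simpa only [aeval_X_left_apply] using k.1 F hF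
  comp := cm_comp
  congr := fun {Ω β β' N P M x Z Z' ν} h e E c F hc hF =>
    nt_fn h hc (F := fun b n ω => F b n (Z' b n ω)) (fun b => fnE_comp (e b) (F b))
      fun _ _ _ => hF _ _ _
  pw := fun {Ω Λ β β' N N' D P M x Z Z' A Θ} _ hc h hf => by
    obtain ⟨B, k⟩ := hf D
    refine ⟨B + 1, (k.and (cm_le hc h.fn h.deg h.bd 1 one_pos)).mono
      (Eventually.of_forall fun n ω _ u i => ?_)⟩
    have := mul_le_mul_of_nonneg_left ((u.1 _ (h.deg n ω i)).trans (u.2 i)) (G39.dl_pos M 1 n).le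
    rwa [← G39.dl_inv, mul_inv_cancel₀ (G39.dl_pos M 1 n).ne', ← mul_assoc, ← G39.dl_add,
      add_comm] at this
  nic hM h E K := wp_gp (cel_nice hM h E K)

end Pool.Agent.MP_5168f5_an.AN
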