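import Pool.Agent.MP_5168f5_an.AN.G39Ctx
import Pool.Agent.MP_5168f5_an.AN.GCel1
import Pool.Agent.MP_5168f5_an.AN.CxF

/-! Frames given a minimal label. -/

namespace Pool.Agent.MP_5168f5_an.AN.Gc

open H19 H17S H17F Filter MvPolynomial Cx R4
open G39 (nu REM)
open Nc (Pl eval_aeval)
open Vo (Fr vIr2)
open Pk (kc)

variable {N C D k : ℕ} {Ω Λ T : ℕ → Type} {β β' : Bool → ℕ → Type} {P : ∀ n, FP (Ω n)} {M : ℕ → ℕ}
  {x : ∀ n, Ω n → V N} {Z : ∀ b n, Ω n → β b n} {Z' : ∀ b n, Ω n → β' b n} {A : ∀ n, Ω n → Λ n}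
  {Θ : ∀ n, Ω n → Fin k → Pl N}

/-- A frame of the typical cell can be read from the label. -/
theorem sel_frm (hM : Big M) (h : CM P M x Z A) {S B : ℕ → Type} [∀ n, Nonempty (B n)]
    {s : ∀ n, Ω n → S n} (hs : FnE P s A) (g : ∀ n, S n → B n → Fin k → Pl N)
    (hD : ∀ n ω b i, (g n (s n ω) b i).totalDegree ≤ D)
    (H : ∀ᶠ w in lo P, ∃ b : ∀ n, B n, Fr (cq P A w) x M (fun n => g n (s n (w n)) (b n)) D) :
    ∃ b : ∀ n, Ω n → B n, FnE P b A ∧ Frm P M x Z A (fun n ω => g n (s n ω) (b n ω)) D := by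
  obtain ⟨a, ha⟩ := cf_choose (cf_fr (S := fun n => (Λ n × S n) × B n)
    (fun n z => cv (P n) (A n) z.1.1) (fun n _ => x n) M (fun n z => g n z.1.2 z.2) D)
  refine ⟨fun n ω => a n (A n ω, s n ω), hs.mono fun n u v e v' e' y => ?_, frm_of_fr hM h
    (hs.mono fun n u v e v' e' y => ?_) (fun n ω => hD n ω _)
    (H.mono fun w ⟨b, e⟩ => ha (fun n => (A n (w n), s n (w n))) b e)⟩
  all_goals simp only [y, u v e v' e' y]

theorem fr_up {Φ Ψ : ℕ → Fin k → Pl N} {L : ℕ → ℝ} (hM : Big M) (h : Fr P x M Ψ D) (hL : Sub M L)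
    (e : ∀ᶠ n in UF, Φ n = fun i => MvPolynomial.C (L n) * Ψ n i) : Fr P x M Φ D := by
  refine ⟨?_, (h.le.and (Vo.ev_sub hL)).of hM 1 2 (e.mono fun n u l l' l1 l2 y i => ?_),
    fun E c hc => ?_⟩
  · filter_upwards [e, h.deg] with n u v i
    rw [u]
    exact (G39.deg_C_mul _ _).trans (v i)
  · rw [u, Vo.nuP_mul, abs_of_pos (hL.pos n)]
    exact (mul_le_mul y.2 (y.1 i) (Vo.nuP_nonneg _ _ _) (by linarith)).trans (by linarith)
  · filter_upwards [e, h.ind (E * 1) c hc] with n u v H hH m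
    have := v _ (kc.deg (fun i => MvPolynomial.C (L n) * X i) H E 1 hH fun i =>
      (G39.deg_C_mul _ _).trans (totalDegree_X i).le) m
    rw [Vo.VIr2A.scal, comp_aeval_apply, abs_mul, abs_pow, abs_of_pos (hL.pos n)] at this
    simp only [map_mul, aeval_C, aeval_X, algebraMap_eq, ← u] at this
    exact (le_mul_of_one_le_left (abs_nonneg _) (one_le_pow₀ (hL.1 n))).trans this

theorem ev_eq {Ω : Type} (x : Ω → V N) (y : Fin k → Pl N) (H : Pl k) :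
    (fun v => eval (x v) (aeval y H)) = G39.ev (fun j v => eval (x v) (y j)) H :=
  _root_.funext fun v => eval_aeval y H (x v)

theorem nz_cq {y : ∀ n, Ω n → Fin k → Pl N} (hy : FnE P y A)
    (h : NZ P (fun n => cht (y n) (x n)) A) : ∀ᶠ w in lo P, ∀ E, ∀ᶠ n in UF, ∀ H : Pl k, H ≠ 0 →
      H.totalDegree ≤ E →
        0 < nu (cq P A w n) (G39.ev (fun j v => eval (x n v) (y n (w n) j)) H) := by
  filter_upwards [lo_all fun E => lo_ev.2 (h E), lo_mem P] with w a b E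
  filter_upwards [a E, b, hy] with n u v o H e e'
  exact ((u H e' e).trans_eq (nc_cht o v H)).trans_eq (congrArg (nu _) (ev_eq (x n) _ H))

/-- A frame extends by a polynomial of bounded degree in any functions without exact relation. -/
theorem ext_ctx (C D k : ℕ) : ∃ D0 : ℕ, ∀ {N D1 : ℕ} {Ω Λ : ℕ → Type} {β : Bool → ℕ → Type}
    {P : ∀ n, FP (Ω n)} {M : ℕ → ℕ} {x : ∀ n, Ω n → V N} {Z : ∀ b n, Ω n → β b n}
    {A : ∀ n, Ω n → Λ n} {Θ : ∀ n, Ω n → Fin k → Pl N} {y : ∀ n, Ω n → Fin (k + 1) → Pl N}, Big M →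
    (∀ b, REM P x M (Z b) C 1) → CM P M x Z A → Frm P M x Z A Θ D1 → FnE P y A →
    (∀ n ω j, (y n ω j).totalDegree ≤ D) → NZ P (fun n => cht (y n) (x n)) A →
    ∃ Q : ∀ n, Ω n → Pl (k + 1), FnE P Q A ∧ (∀ n ω, (Q n ω).totalDegree ≤ D0) ∧
      Frm P M x Z A (fun n ω => Fin.cons (aeval (y n ω) (Q n ω)) (Θ n ω)) (max D1 (D0 * D)) := by
  obtain ⟨D0, h0⟩ := G39.ext_poly C D k
  refine ⟨D0, fun {N D1 Ω Λ β P M x Z A Θ y} hM hR h f hy hD hn => ?_⟩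
  have : Nonempty {Q : Pl (k + 1) // Q.totalDegree ≤ D0} := ⟨⟨0, by simp⟩⟩
  obtain ⟨Q, a, b⟩ := sel_frm (B := fun _ => {Q : Pl (k + 1) // Q.totalDegree ≤ D0})
    (s := fun n ω => (Θ n ω, y n ω)) (D := max D1 (D0 * D)) hM h
    (by filter_upwards [f.fn, hy] with n u v a e a' e' z using
      Prod.ext (u a e a' e' z) (v a e a' e' z))
    (fun _ s Q => Fin.cons (aeval s.2 Q.1) s.1) (fun n ω Q i => i.cases
      ((kc.deg _ _ _ _ Q.2 (hD n ω)).trans (le_max_right _ _))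
      fun i => (f.deg n ω i).trans (le_max_left _ _)) (by
      filter_upwards [cm_cell hM one_pos hR h, frm_fr hM h f h.com, nz_cq hy hn] with w a b c
      obtain ⟨L, Ψ, l1, l2, l3, l4⟩ := vIr2.dni _ _ _ _ _ _ _ _ hM b
      obtain ⟨Q, q1, q2⟩ := h0 a l4 (fun n j => ⟨_, hD n (w n) j, fun _ => rfl⟩) (c D0)
      refine ⟨fun n => ⟨MvPolynomial.C (L n) * Q n, (G39.deg_C_mul _ _).trans (q1 n)⟩, fr_up hM
        (vIr2.ind _ _ _ x M _ _ _ x (fun n => Fin.cons (aeval (y n (w n)) (Q n)) (Ψ n))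
          (Eventually.of_forall fun n i => i.cases
            ((kc.deg _ _ _ _ (q1 n) (hD n _)).trans (le_max_right _ _))
            fun i => (l3 n i).trans (le_max_left _ _)) ?_) l1
        (l2.mono fun n u => _root_.funext fun i => ?_)⟩
      · convert q2 using 3 with n i
        refine i.cases (ev_eq (x n) _ (Q n)) fun _ => rfl
      · refine i.cases (by simp) fun i => ?_
        simp only [Fin.cons_succ, u]
        rw [← mul_assoc, ← map_mul, mul_inv_cancel₀ (l1.pos n).ne', map_one, one_mul])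
  exact ⟨fun n ω => (Q n ω).1, a.mono fun n u v e v' e' z => congrArg _ (u v e v' e' z),
    fun n ω => (Q n ω).2, b⟩

/-- A triangular frame of bounded degree in any functions without exact relation. -/
theorem ud_ctx (N C D i : ℕ) : ∃ D0 : ℕ, ∀ {Ω Λ : ℕ → Type} {β : Bool → ℕ → Type}
    {P : ∀ n, FP (Ω n)} {M : ℕ → ℕ} {x : ∀ n, Ω n → V N} {Z : ∀ b n, Ω n → β b n}
    {A : ∀ n, Ω n → Λ n} {y : ∀ n, Ω n → Fin i → Pl N}, Big M →
    (∀ b, REM P x M (Z b) C 1) → CM P M x Z A → FnE P y A →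
    (∀ n ω j, (y n ω j).totalDegree ≤ D) → NZ P (fun n => cht (y n) (x n)) A →
    ∃ Φ : ∀ n, Ω n → Fin i → Pl i, FnE P Φ A ∧ (∀ n ω j, (Φ n ω j).totalDegree ≤ D0) ∧
      (∀ n ω, Vo.Tri (Φ n ω)) ∧
      Frm P M x Z A (fun n ω j => aeval (y n ω) (Φ n ω j)) (D0 * D) := by
  obtain ⟨D0, h0⟩ := G39.rUD N C D i
  refine ⟨D0, fun {Ω Λ β P M x Z A y} hM hR h hy hD hn => ?_⟩
  have : Nonempty {Φ : Fin i → Pl i // ∀ j, (Φ j).totalDegree ≤ D0 ∧ ∀ l ∈ (Φ j).vars, l ≤ j} :=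
    ⟨⟨0, by simp⟩⟩
  obtain ⟨Φ, a, b⟩ := sel_frm (B := fun _ =>
      {Φ : Fin i → Pl i // ∀ j, (Φ j).totalDegree ≤ D0 ∧ ∀ l ∈ (Φ j).vars, l ≤ j})
    (D := D0 * D) hM h hy (fun _ s Φ j => aeval s (Φ.1 j))
    (fun n ω Φ j => kc.deg _ _ _ _ (Φ.2 j).1 (hD n ω)) (by
      filter_upwards [cm_cell hM one_pos hR h, nz_cq hy hn] with w a c
      obtain ⟨Φ, q1, q2⟩ := h0 _ _ _ _ _ _ _ _ a (fun n j => ⟨_, hD n (w n) j, fun _ => rfl⟩) c
      refine ⟨fun n => ⟨Φ n, q1 n⟩, vIr2.ind _ _ _ x M _ _ _ x _ (Eventually.of_forall fun n j =>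
        kc.deg _ _ _ _ (q1 n j).1 (hD n _)) ?_⟩
      convert q2 using 3 with n j
      exact ev_eq (x n) _ (Φ n j))
  exact ⟨fun n ω => (Φ n ω).1, a.mono fun n u v e v' e' z => congrArg _ (u v e v' e' z),
    fun n ω j => ((Φ n ω).2 j).1, fun n ω j => ((Φ n ω).2 j).2, b⟩

theorem cht_X {Ω : Type} (x : Ω → V N) : cht (fun _ => X) x = x :=
  _root_.funext fun _ => _root_.funext fun _ => eval_X _

/-- A triangular frame in the coordinates. -/
theorem ud_tri (N C : ℕ) : ∃ D : ℕ, ∀ {Ω Λ : ℕ → Type} {β : Bool → ℕ → Type}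
    {P : ∀ n, FP (Ω n)} {M : ℕ → ℕ} {x : ∀ n, Ω n → V N} {Z : ∀ b n, Ω n → β b n}
    {A : ∀ n, Ω n → Λ n}, Big M → (∀ b, REM P x M (Z b) C 1) → CM P M x Z A → NZ P x A →
    ∃ Θ, (∀ n ω, Vo.Tri (Θ n ω)) ∧ Cel P M x Z A Θ D := by
  obtain ⟨D, h0⟩ := ud_ctx N C 1 N
  refine ⟨D * 1, fun hM hR h hn => ?_⟩
  obtain ⟨Φ, -, -, a, b⟩ := h0 (y := fun _ _ => X) hM hR h
    (Eventually.of_forall fun _ _ _ _ _ _ => rfl) (fun _ _ j => (totalDegree_X j).le)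
    (by simpa only [cht_X] using hn)
  exact ⟨Φ, a, h, by simpa only [aeval_X_left_apply] using b⟩

theorem udc : UDc := fun N C => (ud_tri N C).imp fun _ h _ _ _ _ _ _ _ _ hM hR a b =>
  (h hM (fun c => by simpa using hR c 1) a b).imp fun _ e => e.2

end Pool.Agent.MP_5168f5_an.AN.Gc
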