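import Pool.Agent.MP_5168f5_an.AN.Cx
import Pool.Agent.MP_5168f5_an.AN.S20Dn

/-! Kakeya sets in all dimensions: typical conditional probabilities. -/

namespace Pool.Agent.MP_5168f5_an.AN.Cx

open H19 H17S H17F Filter R4 Vo
open S20 (dn)

section One

variable {Ω α β β' γ : Type} {P : FP Ω} {Y : Ω → α} {B : Ω → β} {B' : Ω → β'}

theorem E_val (T : Finset α) (hT : ∀ v ∈ P.S, Y v ∈ T) (φ : α → ℝ) :
    P.E (fun v => φ (Y v)) = ∑ c ∈ T, φ c * pb P fun v => Y v = c := by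
  classical
  simp only [G39.pb_ind, ← FP.E_mul]
  rw [← FP.E_sum]
  refine P.E_congr fun v hv => ?_
  rw [Finset.sum_eq_single_of_mem _ (hT v hv) fun c _ e => by
    rw [G39.ind_neg e.symm, mul_zero], G39.ind_pos rfl, mul_one]

theorem E_inv_dn {N : ℝ} (h : Det P Y B N) : P.E (fun ω => (dn P Y B ω)⁻¹) ≤ N := by
  refine (KEA.exp P B fun b v => (pb (cv P B b) fun u => Y u = Y v)⁻¹).trans_le
    ((P.E_mono fun a ha => ?_).trans_eq (P.E_const N))
  obtain ⟨T, t1, t2⟩ := h a ha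
  rw [E_val T (fun v hv => t2 v ((mem_cv ha v).1 hv).1 ((mem_cv ha v).1 hv).2)
    fun c => (pb (cv P B (B a)) fun u => Y u = c)⁻¹]
  refine ((Finset.sum_le_card_nsmul _ _ 1 fun c _ => ?_).trans_eq (by simp)).trans t1
  exact inv_mul_le_one_of_le₀ le_rfl (pb_nonneg _ _)

/-- More information does not make the observed value much less likely. -/
theorem pb_more (e : Fn P B B') {θ : ℝ} (h0 : 0 ≤ θ) :
    pb P (fun ω => dn P Y B' ω ≤ θ * dn P Y B ω) ≤ θ := by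
  classical
  refine S20.pb_tot_le B' fun a ha => ?_
  have h1 := E_val (P := cv P B (B a)) (Y := Y) (P.S.image Y)
    (fun v hv => Finset.mem_image_of_mem Y (cE_sub hv)) fun _ => θ
  have h2 := E_val (P := cv P B' (B' a)) (Y := Y) (P.S.image Y)
    (fun v hv => Finset.mem_image_of_mem Y (cE_sub hv)) fun c => G39.ind
      ((pb (cv P B' (B' a)) fun u => Y u = c) ≤ θ * pb (cv P B (B a)) fun u => Y u = c)
  rw [FP.E_const] at h1
  refine (pb_congr fun v hv => ?_).trans_le (h2.trans_le ((Finset.sum_le_sum fun c _ => ?_).trans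
    h1.ge))
  · obtain ⟨b1, b2⟩ := (mem_cv ha v).1 hv
    simp only [dn, b2, e v b1 a ha b2]
  · by_cases k : (pb (cv P B' (B' a)) fun u => Y u = c) ≤ θ * pb (cv P B (B a)) fun u => Y u = c
    · rwa [G39.ind_pos k, one_mul]
    · rw [G39.ind_neg k, zero_mul]; exact mul_nonneg h0 (pb_nonneg _ _)

theorem pb_low (T : β → Finset α) (θ : β → ℝ) {η : ℝ} (h0 : ∀ a ∈ P.S, 0 ≤ θ (B a))
    (h : ∀ a ∈ P.S, (T (B a)).card * θ (B a) ≤ η) :
    pb P (fun ω => dn P Y B ω ≤ θ (B ω) ∧ Y ω ∈ T (B ω)) ≤ η :=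
  S20.pb_tot_le B fun a ha => (pb_mono fun v hv k => ((mem_cv ha v).1 hv).2 ▸ k).trans
    ((S20.pb_mem _ Y (fun v => dn P Y B v ≤ θ (B a)) (T (B a))
      fun c _ => S20.db_dn P Y B (h0 a ha) a ha c).trans (h a ha))

theorem dn_cv {Q : Ω → γ} {ω v : Ω} (h : ω ∈ P.S) (hv : v ∈ (cv P Q (Q ω)).S) :
    dn (cv P Q (Q ω)) Y B v = dn P Y (fun u => (B u, Q u)) v := by
  obtain ⟨a, b⟩ := (mem_cv h v).1 hv
  rw [← b, dn, cv_cv a]
  rfl

theorem dn_cE_ge {G : Ω → Prop} {ω : Ω} (h : ω ∈ P.S) (g : G ω) :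
    pb (cv P (fun v => (Y v, B v)) (Y ω, B ω)) G * dn P Y B ω ≤ dn (cE P G) Y B ω := by
  have h1 := S20.pb_cv_cE h g B fun v => Y v = Y ω
  have h2 := pb_cE (cv P B (B ω)) (fun v => Y v = Y ω) G
  have h3 : cE (cv P B (B ω)) (fun v => Y v = Y ω) = _ := cv_cv (Q := Y) (T := B) h
  rw [h3, pb_congr (F := fun v => G v ∧ Y v = Y ω) fun _ _ => and_comm, ← h1] at h2
  rw [mul_comm]
  exact h2.le.trans (mul_le_of_le_one_left (pb_nonneg _ _) (pb_le_one _ _))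

end One

variable {Ω Ω' α α' β β' γ : ℕ → Type}

/-- The observed value of `Y` has probability at most `a` given `B`. -/
def Dn (P : ∀ n, FP (Ω n)) (M : ℕ → ℕ) (Y : ∀ n, Ω n → α n) (B : ∀ n, Ω n → β n)
    (a : ∀ n, Ω n → ℝ) : Prop := Wp P M fun n L ω => dn (P n) (Y n) (B n) ω ≤ L * a n ω

/-- The observed value of `Y` has probability at least `a` given `B`. -/
def Lw (P : ∀ n, FP (Ω n)) (M : ℕ → ℕ) (Y : ∀ n, Ω n → α n) (B : ∀ n, Ω n → β n)
    (a : ∀ n, Ω n → ℝ) : Prop := Wp P M fun n L ω => a n ω ≤ L * dn (P n) (Y n) (B n) ω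

/-- `a` is at most `b` up to a subexponential factor, with large probability. -/
def Wl (P : ∀ n, FP (Ω n)) (M : ℕ → ℕ) (a b : ∀ n, Ω n → ℝ) : Prop :=
  Wp P M fun n L ω => a n ω ≤ L * b n ω

variable {P : ∀ n, FP (Ω n)} {P' : ∀ n, FP (Ω' n)} {M : ℕ → ℕ} {Y : ∀ n, Ω n → α n}
  {Y' : ∀ n, Ω n → α' n} {B : ∀ n, Ω n → β n} {B' : ∀ n, Ω n → β' n} {Q : ∀ n, Ω n → γ n}
  {a a' b b' : ∀ n, Ω n → ℝ} {G : ∀ n, Ω n → Prop} {p q : ∀ n, ℝ → Ω n → Prop}

theorem wp_mono (h : Wp P M p) (e : ∀ᶠ n in UF, ∀ L, 1 ≤ L → ∀ ω ∈ (P n).S, p n L ω → q n L ω) :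
    Wp P M q := fun c hc => (h c hc).mono (e.mono fun n k => k _ (one_le_ex M hc n))

theorem wp_whp (h : Whp P G) : Wp P M fun n _ => G n := fun _ _ => h

theorem wp_sq (h : Wp P M p) (e : ∀ᶠ n in UF, ∀ L, 1 ≤ L → ∀ ω ∈ (P n).S,
    p n L ω → q n (L * L) ω) : Wp P M q := fun c hc => (h _ (half_pos hc)).mono (e.mono fun n k => by
  have := k _ (one_le_ex M (half_pos hc) n)
  rwa [← Real.exp_add, ← add_mul, add_halves] at this)

theorem wp_cE (h : Wp P M p) (hG : Pos P G) : Wp (fun n => cE (P n) (G n)) M p :=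
  fun c hc => (h c hc).cE hG

theorem wp_cq (h : ∀ᶠ w in lo P, Wp (cq P Q w) M p) : Wp P M p :=
  wp_of_cq (p := fun n _ => p n) h

theorem wp_small (hM : Big M) (h : ∀ n (θ : ℝ), 0 < θ → pb (P n) (fun ω => ¬p n θ⁻¹ ω) ≤ θ) :
    Wp P M p := fun c hc ε hε => (G39.dl_lt hM hε hc).mono fun n k => by
  have := h n _ (G39.dl_pos M c n)
  rw [G39.dl_inv] at this
  exact this.trans k.le

/-! ### Comparison -/

theorem Wl.of_le (h0 : ∀ᶠ n in UF, ∀ ω ∈ (P n).S, 0 ≤ b n ω ∧ a n ω ≤ b n ω) : Wl P M a b :=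
  fun _ hc => Whp.of_ev (h0.mono fun n k ω hω => (k ω hω).2.trans
    (le_mul_of_one_le_left (k ω hω).1 (one_le_ex M hc n)))

theorem Wl.trans (h : Wl P M a b) (h' : Wl P M b b') : Wl P M a b' :=
  wp_sq (Wp.and h h') (Eventually.of_forall fun _ _ l _ _ k => k.1.trans
    ((mul_le_mul_of_nonneg_left k.2 (zero_le_one.trans l)).trans_eq (mul_assoc _ _ _).symm))

theorem Wl.mul (h : Wl P M a b) (h' : Wl P M a' b')
    (h0 : ∀ᶠ n in UF, ∀ ω ∈ (P n).S, 0 ≤ a n ω ∧ 0 ≤ a' n ω) :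
    Wl P M (fun n ω => a n ω * a' n ω) fun n ω => b n ω * b' n ω :=
  wp_sq (Wp.and h h') (h0.mono fun _ e _ _ ω hω k => (mul_le_mul k.1 k.2 (e ω hω).2
    ((e ω hω).1.trans k.1)).trans_eq (by ring))

theorem Wl.div (h : Wl P M (fun n ω => a n ω * a' n ω) b) (h' : Wl P M b' a')
    (h0 : ∀ᶠ n in UF, ∀ ω ∈ (P n).S, 0 ≤ a n ω ∧ 0 < b' n ω) :
    Wl P M a fun n ω => b n ω / b' n ω :=
  wp_sq (Wp.and h h') (h0.mono fun n e L l ω hω k => by
    rw [← mul_div_assoc, le_div_iff₀ (e ω hω).2]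
    nlinarith [mul_le_mul_of_nonneg_left k.2 (e ω hω).1,
      mul_le_mul_of_nonneg_left k.1 (zero_le_one.trans l)])

theorem Wl.div' (h : Wl P M b fun n ω => a n ω * a' n ω) (h' : Wl P M a' b')
    (h0 : ∀ᶠ n in UF, ∀ ω ∈ (P n).S, 0 ≤ a n ω ∧ 0 < a' n ω) :
    Wl P M (fun n ω => b n ω / b' n ω) a :=
  wp_sq (Wp.and h h') (h0.mono fun n e L l ω hω k => by
    have h1 : 0 < b' n ω := (pos_iff_pos_of_mul_pos ((e ω hω).2.trans_le k.2)).1 (one_pos.trans_le l)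
    rw [div_le_iff₀ h1]
    nlinarith [mul_le_mul_of_nonneg_left k.2 (mul_nonneg (zero_le_one.trans l) (e ω hω).1), k.1])

theorem Wl.false (hM : Big M) {η : ℝ} (hη : 0 < η) (h : Wl P M a b)
    (e : Pos P fun n ω => 0 < b n ω ∧ Real.exp (η * M n) * b n ω ≤ a n ω) : False := by
  obtain ⟨n, ⟨ω, -, k, k'⟩, m⟩ := ((e.and (h _ (half_pos hη))).ex.and (hM.ev 1)).exists
  have := Real.exp_le_exp.1 (le_of_mul_le_mul_right (k.2.trans k') k.1)
  nlinarith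

theorem wl_or (P : ∀ n, FP (Ω n)) (M : ℕ → ℕ) (a b : ∀ n, Ω n → ℝ) : Wl P M a b ∨
    ∃ η : ℝ, 0 < η ∧ Pos P fun n ω => Real.exp (η * M n) * b n ω < a n ω := by
  refine or_iff_not_imp_left.2 fun h => ?_
  obtain ⟨η, h⟩ := not_forall.1 h
  obtain ⟨hη, h⟩ := Classical.not_imp.1 h
  exact ⟨η, hη, (not_whp h).mono (Eventually.of_forall fun _ _ _ => not_le.1)⟩

theorem Wl.log (h : Wl P M a b) (h0 : ∀ᶠ n in UF, ∀ ω ∈ (P n).S, 0 < a n ω ∧ 0 < b n ω) :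
    ∀ᶠ w in lo P, Le M (fun n => Real.log (a n (w n))) fun n => Real.log (b n (w n)) :=
  lo_eps (fun c hc => (lo_ev (G := fun n ω => Real.log (a n ω) ≤ Real.log (b n ω) + c * M n)).2
    ((h c hc).mono (h0.mono fun n e ω hω k => by
      have := Real.log_le_log (e ω hω).1 k
      rwa [Real.log_mul (Real.exp_pos _).ne' (e ω hω).2.ne', Real.log_exp, add_comm] at this)))
    fun _ _ _ _ e k => k.mono fun n u => u.trans
      (add_le_add le_rfl (mul_le_mul_of_nonneg_right e (Nat.cast_nonneg _)))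

/-! ### The rules -/

theorem Dn.weak (h : Dn P M Y B a) (e : Wl P M a b) : Dn P M Y B b := Wl.trans h e

theorem Lw.weak (h : Lw P M Y B a) (e : Wl P M b a) : Lw P M Y B b := Wl.trans e h

theorem Dn.le_lw (h : Dn P M Y B a) (h' : Lw P M Y B b) : Wl P M b a := Wl.trans h' h

theorem wl_fn (e : ∀ᶠ n in UF, Fn (P n) (Y n) fun v => (Y' n v, B n v)) :
    Wl P M (fun n => dn (P n) (Y' n) (B n)) fun n => dn (P n) (Y n) (B n) :=
  Wl.of_le (e.mono fun _ k _ hω => ⟨(S20.dn_pos hω _ _).le, S20.dn_mono hω k⟩)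

theorem Dn.fn (h : Dn P M Y B a) (e : ∀ᶠ n in UF, Fn (P n) (Y n) fun v => (Y' n v, B n v)) :
    Dn P M Y' B a := Wl.trans (wl_fn e) h

theorem Lw.fn (h : Lw P M Y' B a) (e : ∀ᶠ n in UF, Fn (P n) (Y n) fun v => (Y' n v, B n v)) :
    Lw P M Y B a := Wl.trans h (wl_fn e)

theorem wl_more (hM : Big M) (e : ∀ᶠ n in UF, Fn (P n) (B n) (B' n)) :
    Wl P M (fun n => dn (P n) (Y n) (B n)) fun n => dn (P n) (Y n) (B' n) := fun c hc ε hε => by
  filter_upwards [e, G39.dl_lt hM hε hc] with n k l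
  refine (pb_mono fun ω _ u => ?_).trans
    ((pb_more (Y := Y n) k (G39.dl_pos M c n).le).trans l.le)
  rw [← G39.dl_inv, le_inv_mul_iff₀ (G39.dl_pos M c n), not_le] at u
  exact u.le

theorem Dn.less (h : Dn P M Y B' a) (hM : Big M) (e : ∀ᶠ n in UF, Fn (P n) (B n) (B' n)) :
    Dn P M Y B a := Wl.trans (wl_more hM e) h

theorem Lw.more (h : Lw P M Y B a) (hM : Big M) (e : ∀ᶠ n in UF, Fn (P n) (B n) (B' n)) :
    Lw P M Y B' a := Wl.trans h (wl_more hM e)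

theorem dn_pos_ev : ∀ᶠ n in UF, ∀ ω ∈ (P n).S,
    0 ≤ dn (P n) (Y n) (B n) ω ∧ 0 < dn (P n) (Y' n) (B' n) ω :=
  Eventually.of_forall fun _ _ h => ⟨(S20.dn_pos h _ _).le, S20.dn_pos h _ _⟩

theorem wl_chain : Wl P M (fun n => dn (P n) (fun v => (Y n v, Y' n v)) (B n)) fun n ω =>
    dn (P n) (Y n) (B n) ω * dn (P n) (Y' n) (fun v => (Y n v, B n v)) ω :=
  Wl.of_le (Eventually.of_forall fun _ _ h => ⟨S20.dn_chain h _ _ _ ▸ (S20.dn_pos h _ _).le,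
    (S20.dn_chain h _ _ _).le⟩)

theorem wl_chain' : Wl P M (fun n ω => dn (P n) (Y n) (B n) ω *
    dn (P n) (Y' n) (fun v => (Y n v, B n v)) ω) fun n =>
    dn (P n) (fun v => (Y n v, Y' n v)) (B n) :=
  Wl.of_le (Eventually.of_forall fun _ _ h => ⟨(S20.dn_pos h _ _).le, (S20.dn_chain h _ _ _).ge⟩)

theorem Dn.chain (h : Dn P M Y B a) (h' : Dn P M Y' (fun n v => (Y n v, B n v)) a') :
    Dn P M (fun n v => (Y n v, Y' n v)) B fun n ω => a n ω * a' n ω :=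
  Wl.trans wl_chain (Wl.mul h h' (dn_pos_ev.mono fun _ k ω hω => ⟨(k ω hω).1, (k ω hω).2.le⟩))

theorem Lw.chain (h : Lw P M Y B a) (h' : Lw P M Y' (fun n v => (Y n v, B n v)) a')
    (h0 : ∀ᶠ n in UF, ∀ ω ∈ (P n).S, 0 ≤ a n ω ∧ 0 ≤ a' n ω) :
    Lw P M (fun n v => (Y n v, Y' n v)) B fun n ω => a n ω * a' n ω :=
  Wl.trans (Wl.mul h h' h0) wl_chain'

/-- Upper bound for the first variable. -/
theorem Dn.fst (h : Dn P M (fun n v => (Y n v, Y' n v)) B a)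
    (h' : Lw P M Y' (fun n v => (Y n v, B n v)) a') (h0 : ∀ᶠ n in UF, ∀ ω ∈ (P n).S, 0 < a' n ω) :
    Dn P M Y B fun n ω => a n ω / a' n ω :=
  Wl.div (Wl.trans wl_chain' h) h' (h0.mono fun _ k ω hω => ⟨(S20.dn_pos hω _ _).le, k ω hω⟩)

/-- Upper bound for the second variable given the first. -/
theorem Dn.snd (h : Dn P M (fun n v => (Y n v, Y' n v)) B a) (h' : Lw P M Y B a')
    (h0 : ∀ᶠ n in UF, ∀ ω ∈ (P n).S, 0 < a' n ω) :
    Dn P M Y' (fun n v => (Y n v, B n v)) fun n ω => a n ω / a' n ω :=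
  Wl.div (wp_mono (Wl.trans wl_chain' h) (Eventually.of_forall fun _ _ _ _ _ k =>
    (mul_comm _ _).trans_le k)) h' (h0.mono fun _ k ω hω => ⟨(S20.dn_pos hω _ _).le, k ω hω⟩)

/-- A variable that leaves few values for a spread variable is spread. -/
theorem Dn.cover (h : Dn P M Y' B a) (h' : Lw P M Y' (fun n v => (Y n v, B n v)) a')
    (h0 : ∀ᶠ n in UF, ∀ ω ∈ (P n).S, 0 < a' n ω) : Dn P M Y B fun n ω => a n ω / a' n ω :=
  (h.fn (Eventually.of_forall fun _ _ _ _ _ e => congrArg (·.1.2) e)).fst h' h0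

theorem Lw.fst (h : Lw P M (fun n v => (Y n v, Y' n v)) B a)
    (h' : Dn P M Y' (fun n v => (Y n v, B n v)) a') : Lw P M Y B fun n ω => a n ω / a' n ω :=
  Wl.div' (Wl.trans h wl_chain) h' dn_pos_ev

theorem Lw.snd (h : Lw P M (fun n v => (Y n v, Y' n v)) B a) (h' : Dn P M Y B a') :
    Lw P M Y' (fun n v => (Y n v, B n v)) fun n ω => a n ω / a' n ω :=
  Wl.div' (wp_mono (Wl.trans h wl_chain) (Eventually.of_forall fun _ _ _ _ _ k =>
    k.trans_eq (by ring))) h' dn_pos_ev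

theorem lw_fn (e : ∀ᶠ n in UF, Fn (P n) (Y n) (B n)) : Lw P M Y B fun _ _ => 1 :=
  Wl.of_le (e.mono fun _ k ω hω => ⟨(S20.dn_pos hω _ _).le, (pb_one fun v hv =>
    k v ((mem_cv hω v).1 hv).1 ω hω ((mem_cv hω v).1 hv).2).ge⟩)

theorem dn_one : Dn P M Y B fun _ _ => 1 :=
  Wl.of_le (Eventually.of_forall fun _ _ _ => ⟨zero_le_one, S20.dn_le_one _ _ _ _⟩)

/-! ### Events, contexts, sample spaces -/

theorem wp_rare (hM : Big M) (G : ∀ n, Ω n → Prop) (Q : ∀ n, Ω n → γ n) :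
    Wp P M fun n L ω => G n ω → 1 ≤ L * pb (cv (P n) (Q n) (Q n ω)) (G n) :=
  wp_small hM fun n θ h0 => (pb_mono fun ω _ k => ⟨(Classical.not_imp.1 k).1, by
    have := not_le.1 (Classical.not_imp.1 k).2
    rw [inv_mul_lt_iff₀ h0, mul_one] at this
    exact this.le⟩).trans (S20.rare (P n) (Q n) (G n) h0.le)

theorem wp_thick (hM : Big M) (hG : Pos P G) (Q : ∀ n, Ω n → γ n) :
    Wp (fun n => cE (P n) (G n)) M fun n L ω => ω ∈ (P n).S ∧ G n ω ∧
      1 ≤ L * pb (cv (P n) (Q n) (Q n ω)) (G n) :=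
  wp_mono (wp_cE (wp_rare hM G Q) hG) (hG.sure.mono fun _ k _ _ ω hω u =>
    ⟨(k ω hω).1, (k ω hω).2, u (k ω hω).2⟩)

theorem wl_cE (hM : Big M) (hG : Pos P G) : Wl (fun n => cE (P n) (G n)) M
    (fun n => dn (cE (P n) (G n)) (Y n) (B n)) fun n => dn (P n) (Y n) (B n) :=
  wp_mono (wp_thick hM hG B) (Eventually.of_forall fun n L l ω hω k => by
    have h1 := S20.dn_cE k.1 k.2.1 (Y n) (B n)
    have h2 := (S20.dn_pos hω (Y n) (B n)).le
    nlinarith [mul_le_mul_of_nonneg_right k.2.2 h2])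

theorem wl_cE' (hM : Big M) (hG : Pos P G) : Wl (fun n => cE (P n) (G n)) M
    (fun n => dn (P n) (Y n) (B n)) fun n => dn (cE (P n) (G n)) (Y n) (B n) :=
  wp_mono (wp_thick hM hG fun n v => (Y n v, B n v)) (Eventually.of_forall fun n L l ω _ k => by
    have h1 := dn_cE_ge (Y := Y n) (B := B n) k.1 k.2.1
    have h2 := (S20.dn_pos k.1 (Y n) (B n)).le
    nlinarith [mul_le_mul_of_nonneg_right k.2.2 h2])

theorem Dn.cond (h : Dn P M Y B a) (hM : Big M) (hG : Pos P G) :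
    Dn (fun n => cE (P n) (G n)) M Y B a := Wl.trans (wl_cE hM hG) (wp_cE h hG)

theorem Lw.cond (h : Lw P M Y B a) (hM : Big M) (hG : Pos P G) :
    Lw (fun n => cE (P n) (G n)) M Y B a := Wl.trans (wp_cE h hG) (wl_cE' hM hG)

theorem lo_dn_cv (P : ∀ n, FP (Ω n)) (Q : ∀ n, Ω n → γ n) (Y : ∀ n, Ω n → α n)
    (B : ∀ n, Ω n → β n) : ∀ᶠ w in lo P, ∀ᶠ n in UF, ∀ v ∈ (cq P Q w n).S,
      dn (cq P Q w n) (Y n) (B n) v = dn (P n) (Y n) (fun u => (B n u, Q n u)) v :=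
  (lo_mem P).mono fun _ k => k.mono fun _ h _ hv => dn_cv h hv

theorem Dn.of_cq (h : ∀ᶠ w in lo P, Dn (cq P Q w) M Y B a) :
    Dn P M Y (fun n u => (B n u, Q n u)) a := wp_cq (by
  filter_upwards [h, lo_dn_cv P Q Y B] with w k e
  exact wp_mono k (e.mono fun _ u _ _ v hv z => u v hv ▸ z))

theorem Lw.of_cq (h : ∀ᶠ w in lo P, Lw (cq P Q w) M Y B a) :
    Lw P M Y (fun n u => (B n u, Q n u)) a := wp_cq (by
  filter_upwards [h, lo_dn_cv P Q Y B] with w k e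
  exact wp_mono k (e.mono fun _ u _ _ v hv z => u v hv ▸ z))

theorem Wl.to_cq (h : Wl P M a b) (h0 : ∀ᶠ n in UF, ∀ ω ∈ (P n).S, 0 ≤ a n ω) (Q : ∀ n, Ω n → γ n) :
    ∀ᶠ w in lo P, Wl (cq P Q w) M a b := by
  have h1 : Wp P M fun n L ω => 0 ≤ b n ω ∧ a n ω ≤ L * b n ω :=
    wp_mono h (h0.mono fun _ k _ l ω hω u => ⟨nonneg_of_mul_nonneg_right ((k ω hω).trans u)
      (one_pos.trans_le l), u⟩)
  exact ((lo_Wp (Q := Q) (p := fun n _ L ω => 0 ≤ b n ω ∧ a n ω ≤ L * b n ω)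
    fun _ _ _ _ _ _ l k => ⟨k.1, k.2.trans (mul_le_mul_of_nonneg_right l k.1)⟩).2 h1).mono
    fun _ k => wp_mono k (Eventually.of_forall fun _ _ _ _ _ u => u.2)

theorem Dn.to_cq (h : Dn P M Y (fun n u => (B n u, Q n u)) a) :
    ∀ᶠ w in lo P, Dn (cq P Q w) M Y B a := by
  filter_upwards [Wl.to_cq h (Eventually.of_forall fun _ _ k => (S20.dn_pos k _ _).le) Q,
    lo_dn_cv P Q Y B] with w k e
  exact wp_mono k (e.mono fun _ u _ _ v hv z => (u v hv).symm ▸ z)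

theorem Lw.to_cq (h : Lw P M Y (fun n u => (B n u, Q n u)) a)
    (h0 : ∀ᶠ n in UF, ∀ ω ∈ (P n).S, 0 ≤ a n ω) : ∀ᶠ w in lo P, Lw (cq P Q w) M Y B a := by
  filter_upwards [Wl.to_cq h h0 Q, lo_dn_cv P Q Y B] with w k e
  exact wp_mono k (e.mono fun _ u _ _ v hv z => (u v hv).symm ▸ z)

theorem wp_pull {ρ : ∀ n, Ω' n → Ω n} (e : ∀ᶠ n in UF, Law (P' n) (ρ n) (P n) id) (h : Wp P M p) :
    Wp P' M fun n L v => p n L (ρ n v) := fun c hc ε hε => by
  filter_upwards [e, h c hc ε hε] with n x y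
  exact (x.pb_eq fun ω => ¬p n (Real.exp (c * M n)) ω).trans_le y

theorem Dn.pull {ρ : ∀ n, Ω' n → Ω n} (e : ∀ᶠ n in UF, Law (P' n) (ρ n) (P n) id)
    (h : Dn P M Y B a) :
    Dn P' M (fun n v => Y n (ρ n v)) (fun n v => B n (ρ n v)) fun n v => a n (ρ n v) :=
  wp_mono (wp_pull e h) (e.mono fun _ k _ _ v _ u => (S20.dn_pull k _ _ v).symm ▸ u)

theorem Lw.pull {ρ : ∀ n, Ω' n → Ω n} (e : ∀ᶠ n in UF, Law (P' n) (ρ n) (P n) id)
    (h : Lw P M Y B a) :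
    Lw P' M (fun n v => Y n (ρ n v)) (fun n v => B n (ρ n v)) fun n v => a n (ρ n v) :=
  wp_mono (wp_pull e h) (e.mono fun _ k _ _ v _ u => (S20.dn_pull k _ _ v).symm ▸ u)

/-! ### Lists, good sets, entropy -/

theorem Lw.of_ls {s : ∀ n, β n → ℝ} (hM : Big M) (h : LS P M Y B s)
    (h0 : ∀ᶠ n in UF, ∀ ω ∈ (P n).S, 0 < s n (B n ω)) :
    Lw P M Y B fun n ω => (s n (B n ω))⁻¹ := fun c hc ε hε => by
  filter_upwards [h _ (half_pos hε) _ (half_pos hc), h0,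
    G39.dl_lt hM (half_pos hε) (half_pos hc)] with n ⟨T, t1, t2⟩ e l
  have x0 := Real.exp_pos (c * M n)
  have h1 := pb_low (P := P n) (Y := Y n) (B := B n) T
    (fun z => (Real.exp (c * M n))⁻¹ * (s n z)⁻¹) (η := ε / 2)
    (fun v hv => by have := e v hv; positivity) fun v hv => by
      have := e v hv
      refine (mul_le_mul_of_nonneg_right (t1 _) (by positivity)).trans (le_trans (le_of_eq ?_) l.le)
      rw [G39.dl, show c * M n = c / 2 * M n + c / 2 * M n by ring, Real.exp_add, Real.exp_neg]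
      field_simp
  refine (pb_mono fun ω _ k => ?_).trans ((pb_or _ _ _).trans ((add_le_add h1 t2).trans_eq
    (add_halves ε)))
  refine or_iff_not_imp_right.2 fun u => ⟨?_, not_not.1 u⟩
  rw [le_inv_mul_iff₀ x0]
  exact (not_le.1 k).le

/-- Few values on a good set. -/
theorem Lw.of_few {L s : ℕ → ℝ} (hM : Big M) (hG : Whp P G) (hL : Sub M L)
    (h : ∀ᶠ n in UF, 0 < s n ∧ S20.Few (P n) (Y n) (B n) (G n) (L n * s n)) :
    Lw P M Y B fun n _ => (s n)⁻¹ := fun c hc ε hε => by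
  filter_upwards [h, hG _ (half_pos hε), hL.2 _ (half_pos hc),
    G39.dl_lt hM (half_pos hε) (half_pos hc)] with n ⟨s0, e⟩ g l l'
  have x0 := Real.exp_pos (c * M n)
  have h1 := (e.low (θ := (Real.exp (c * M n))⁻¹ * (s n)⁻¹) (by positivity)).trans
    (show _ ≤ ε / 2 by
      refine (mul_le_mul_of_nonneg_right (mul_le_mul_of_nonneg_right l s0.le)
        (by positivity)).trans (le_trans (le_of_eq ?_) l'.le)
      rw [G39.dl, show c * M n = c / 2 * M n + c / 2 * M n by ring, Real.exp_add, Real.exp_neg]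
      field_simp)
  refine (pb_mono fun ω _ k => ?_).trans ((pb_or _ _ _).trans ((add_le_add h1 g).trans_eq
    (add_halves ε)))
  refine or_iff_not_imp_right.2 fun u => ⟨?_, not_not.1 u⟩
  rw [le_inv_mul_iff₀ x0]
  exact (not_le.1 k).le

/-- A bound on a good set. -/
theorem Dn.of_good (hM : Big M) (hG : Whp P G) (h : Wl P M (fun n ω =>
    pb (cv (P n) (B n) (B n ω)) fun v => G n v ∧ Y n v = Y n ω) a) : Dn P M Y B a := by
  refine Wl.trans (wp_mono (Wp.and (wp_whp hG) (wp_rare hM G fun n v => (Y n v, B n v)))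
    (Eventually.of_forall fun n L l ω hω k => ?_)) h
  have h2 := pb_cE (cv (P n) (B n) (B n ω)) (fun v => Y n v = Y n ω) (G n)
  have h3 : cE (cv (P n) (B n) (B n ω)) (fun v => Y n v = Y n ω) = _ :=
    cv_cv (Q := Y n) (T := B n) hω
  rw [h3, pb_congr (F := fun v => G n v ∧ Y n v = Y n ω) fun _ _ => and_comm] at h2
  beta_reduce
  rw [← h2, mul_left_comm]
  exact le_mul_of_one_le_right (S20.dn_pos hω _ _).le (k.2 k.1)

theorem Dn.ent (h : Dn P M Y B a) {C : ℝ} (hb : ∀ᶠ n in UF, ∀ ω ∈ (P n).S,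
    0 < a n ω ∧ -Real.log (a n ω) ≤ C * M n) :
    Le M (fun n => (P n).E fun ω => -Real.log (a n ω)) fun n => ch (P n) (Y n) (B n) := by
  simp only [S20.ch_dn]
  refine le_glue (C := C) (hb.mono fun n k ω hω => ?_) ((Wl.log h (hb.mono fun _ k ω hω =>
    ⟨S20.dn_pos hω _ _, (k ω hω).1⟩)).mono fun w k => k.of_sub
      (Eventually.of_forall fun _ => by linarith))
  linarith [(k ω hω).2, Real.log_nonpos (S20.dn_pos hω (Y n) (B n)).le (S20.dn_le_one _ _ _ _)]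

theorem Lw.ent (h : Lw P M Y B a) (hM : Big M) {C : ℝ} (hb : ∀ᶠ n in UF,
    Det (P n) (Y n) (B n) (Real.exp (C * M n)) ∧ ∀ ω ∈ (P n).S, 0 < a n ω ∧ a n ω ≤ 1) :
    Le M (fun n => ch (P n) (Y n) (B n)) fun n => (P n).E fun ω => -Real.log (a n ω) := by
  simp only [S20.ch_dn]
  have h1 := le_glue (f := fun n ω => -Real.log (dn (P n) (Y n) (B n) ω) -
    (Real.exp (C * M n))⁻¹ * (dn (P n) (Y n) (B n) ω)⁻¹) (g := fun n ω => -Real.log (a n ω))
    (C := C) (hb.mono fun n k ω hω => by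
      have d0 := S20.dn_pos hω (Y n) (B n)
      have := Real.log_le_sub_one_of_pos
        (show 0 < (Real.exp (C * M n))⁻¹ * (dn (P n) (Y n) (B n) ω)⁻¹ by positivity)
      rw [Real.log_mul (by positivity) (by positivity), Real.log_inv, Real.log_inv,
        Real.log_exp] at this
      linarith [Real.log_nonpos (k.2 ω hω).1.le (k.2 ω hω).2])
    (((Wl.log h (hb.mono fun _ k ω hω => ⟨(k.2 ω hω).1, S20.dn_pos hω _ _⟩)).and (lo_mem P)).mono
      fun w k => k.1.of_sub (k.2.mono fun n u => by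
        have d0 := S20.dn_pos u (Y n) (B n)
        have : 0 < (Real.exp (C * M n))⁻¹ * (dn (P n) (Y n) (B n) (w n))⁻¹ := by positivity
        linarith))
  refine (h1.add (hM.sm 1)).of_sub (hb.mono fun n k => ?_)
  have := mul_le_mul_of_nonneg_left (E_inv_dn k.1) (inv_pos.2 (Real.exp_pos (C * M n))).le
  rw [inv_mul_cancel₀ (Real.exp_pos _).ne'] at this
  rw [FP.E_sub, FP.E_mul]
  linarith

end Pool.Agent.MP_5168f5_an.AN.Cx
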