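import Pool.Agent.MP_5168f5_an.AN.VAll
import Pool.Agent.MP_5168f5_an.AN.Cd
import Pool.Agent.MP_5168f5_an.AN.S20Ds

/-! Kakeya sets in all dimensions: volumes at generic points of a context. -/

namespace Pool.Agent.MP_5168f5_an.AN.Cx

open H19 H17S H17F Filter MvPolynomial R4 Vo
open Nc (Pl ev jac NiceAt Dv deg_jac)
open S20 (dn DS FS)
open G39 (dl)

/-! ### Counting without probability -/

theorem upS (d D : ℕ) : ∃ A : ℝ, 1 ≤ A ∧ ∀ (ν : Pl d → ℝ) (Φ : Fin d → Pl d) (K : Fin d → ℕ)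
    (R : ℕ) (L : ℝ), (∀ F, 0 ≤ ν F) → 1 ≤ L → 0 < ν (jac Φ) →
    (∀ i, (Φ i).totalDegree ≤ D ∧ ν (Φ i) ≤ L) → (∀ F : Pl d, F.totalDegree ≤ (d + 1) * D →
      ∀ j, ν (pderiv j F) * 2 ^ R ≤ L * 2 ^ K j * ν F) →
    (∀ z : Z d, ∃ T : Finset (Z d),
      (T.card : ℝ) ≤ A * L ^ (5 * d + 1) * (vol K / (2 ^ R) ^ d / ν (jac Φ)) ∧
      ∀ y, Vo.Gd ν ((d + 1) * D) L y → ν (jac Φ) ≤ L * |eval y (jac Φ)| → flv R (ev Φ y) = z →
        cel K y ∈ T) ∧
    ∃ T : Finset (Z d), (T.card : ℝ) ≤ A * L ^ (5 * d + 1) * (vol K / ν (jac Φ)) ∧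
      ∀ y, Vo.Gd ν ((d + 1) * D) L y → ν (jac Φ) ≤ L * |eval y (jac Φ)| → cel K y ∈ T := by
  classical
  obtain ⟨A, hA, hU⟩ := upP d D
  refine ⟨A * (2 * A) ^ d, one_le_mul_of_one_le_of_one_le hA (one_le_pow₀ (by linarith)),
    fun ν Φ K R L h0 l1 hJ hΦ hD => ?_⟩
  obtain ⟨a, a1, a2⟩ := exists_nat_pow_near
    (one_le_mul_of_one_le_of_one_le hA (one_le_pow₀ (n := 3) l1)) one_lt_two
  have r0 : (0 : ℝ) < 2 ^ R := by positivity
  obtain ⟨u1, T, u2, u3⟩ := hU ν Φ (fun j => L * 2 ^ K j / 2 ^ R) (fun j => K j + (a + 1)) R L h0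
    (fun j => by positivity) l1 hJ hΦ (fun F hF j => by
      rw [div_mul_eq_mul_div, le_div_iff₀ r0]; exact hD F hF j) fun j => by
      have b2 := mul_le_mul_of_nonneg_right a2.le (show (0 : ℝ) ≤ 2 ^ K j by positivity)
      rw [mul_assoc, div_mul_cancel₀ _ r0.ne', pow_add (2 : ℝ) (K j)]
      linarith
  have hv : A * L ^ (2 * d + 1) * (2 ^ (a + 1)) ^ d ≤ A * (2 * A) ^ d * L ^ (5 * d + 1) := by
    have b1 : ((2 : ℝ) ^ (a + 1)) ^ d ≤ (2 * A * L ^ 3) ^ d :=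
      pow_le_pow_left₀ (by positivity) (by rw [pow_succ]; linarith) d
    refine (mul_le_mul_of_nonneg_left b1 (by positivity)).trans_eq ?_
    rw [mul_pow _ (L ^ 3)]
    ring
  have hv' : A * L * (2 ^ (a + 1)) ^ d ≤ _ := le_trans (by
    gcongr
    exact le_self_pow₀ l1 (by omega)) hv
  have v0 := vol_pos K
  let g : Z d → Z d := fun z => cel K (Classical.epsilon fun y => cel (fun j => K j + (a + 1)) y = z)
  have hg : ∀ y, g (cel (fun j => K j + (a + 1)) y) = cel K y := fun y => funext fun j =>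
    fl1_eq_of_le (Nat.le_add_right _ _) (congrFun (Classical.epsilon_spec
      (p := fun y' => cel (fun j => K j + (a + 1)) y' = cel (fun j => K j + (a + 1)) y) ⟨y, rfl⟩) j)
  have hc : ∀ T : Finset (Z d), ((T.image g).card : ℝ) ≤ T.card := fun T => by
    exact_mod_cast Finset.card_image_le
  refine ⟨fun z => (u1 z).elim fun T' k => ⟨T'.image g, (hc _).trans (k.1.trans ?_),
    fun y b c e => hg y ▸ Finset.mem_image_of_mem g (k.2 y b c e)⟩, T.image g,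
    (hc _).trans (u2.trans ?_), fun y b c => hg y ▸ Finset.mem_image_of_mem g (u3 y b c)⟩
  · rw [VUpA.vol_add, mul_div_assoc, mul_div_assoc, ← mul_assoc]
    exact mul_le_mul_of_nonneg_right hv' (by positivity)
  · rw [VUpA.vol_add, mul_div_assoc, ← mul_assoc]
    exact mul_le_mul_of_nonneg_right hv (by positivity)

theorem loS {d D : ℕ} {ν : Pl d → ℝ} {Φ : Fin d → Pl d} {K : Fin d → ℕ} {R : ℕ} {L : ℝ} (z : Z d)
    (l1 : 1 ≤ L) (j2 : 0 < ν (jac Φ)) (dg : ∀ i, (Φ i).totalDegree ≤ D)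
    (a2 : ∀ j, ∃ a : ℝ, ν (X j - C a) * 2 ^ K j ≤ L * 2 ^ R) : ∃ T : Finset (Z d),
    (T.card : ℝ) ≤ (6 * (d + 1)) ^ d * L ^ (2 * d + 1) * (ν (jac Φ) * (2 ^ R) ^ d / vol K) ∧
      ∀ y σ, NiceAt Φ ν D (d * D + 1) 1 L y σ → cel K y = z → flv R (ev Φ y) ∈ T := by
  classical
  have l0 : 0 < L := one_pos.trans_le l1
  have d0 : (0 : ℝ) ≤ d := Nat.cast_nonneg d
  obtain ⟨a, b1, b2⟩ := exists_nat_pow_near (x := 2 * ((d + 1) * L ^ 2)) (y := 2)
    (by nlinarith) one_lt_two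
  rw [pow_succ (2 : ℝ)] at b2
  have r1 : (1 : ℝ) ≤ 2 ^ R := one_le_pow₀ one_le_two
  obtain ⟨T, t1, t2⟩ := loP d D ν Φ K (R + a) L z l0
    (by rw [pow_add]; nlinarith) j2 dg fun j => (a2 j).imp fun s hs => by
      rw [mul_assoc, pow_add]
      refine (mul_le_mul_of_nonneg_left hs (by positivity)).trans ?_
      rw [← mul_assoc, mul_comm]
      exact mul_le_mul_of_nonneg_left (by nlinarith) (by positivity)
  have v0 := vol_pos K
  let g : Z d → Z d := fun z => flv R (Classical.epsilon fun u : V d => flv (R + a) u = z)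
  have hg : ∀ u : V d, g (flv (R + a) u) = flv R u := fun u =>
    flv_eq_of_le (Nat.le_add_right _ _)
      (Classical.epsilon_spec (p := fun u' : V d => flv (R + a) u' = flv (R + a) u) ⟨u, rfl⟩)
  refine ⟨T.image g, le_trans (by exact_mod_cast Finset.card_image_le) (t1.trans ?_),
    fun y σ b c => hg _ ▸ Finset.mem_image_of_mem g (t2 y σ b c)⟩
  have b3 : 3 ^ d * L * (2 ^ a) ^ d ≤ (6 * (d + 1)) ^ d * L ^ (2 * d + 1) :=
    calc 3 ^ d * L * (2 ^ a) ^ d ≤ 3 ^ d * L * (2 * ((d + 1) * L ^ 2)) ^ d := by gcongr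
      _ = _ := by
        rw [show (6 * (d + 1) : ℝ) = 3 * (2 * (d + 1)) by ring, ← mul_assoc (2 : ℝ), mul_pow,
          mul_pow (3 : ℝ), ← pow_mul, pow_succ L]
        ring
  calc _ = 3 ^ d * L * (2 ^ a) ^ d * (ν (jac Φ) * (2 ^ R) ^ d / vol K) := by
        rw [pow_add, mul_pow]
        ring
    _ ≤ _ := mul_le_mul_of_nonneg_right b3 (by positivity)

theorem pb_ex_le {Ω ι : Type} (P : FP Ω) (B : ι → Ω → Prop) {ε : ℝ} (h : ∀ a, pb P (B a) ≤ ε)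
    (s : Finset ι) : pb P (fun ω => ∃ a ∈ s, B a ω) ≤ s.card * ε := by
  classical
  induction s using Finset.induction_on with
  | empty => exact (pb_zero fun _ _ k => by simp at k).trans_le (by simp)
  | insert a s ha ih =>
    refine (pb_mono fun ω _ k => by simpa using k).trans
      ((pb_or P (B a) fun ω => ∃ a ∈ s, B a ω).trans ?_)
    rw [Finset.card_insert_of_notMem ha]
    push_cast
    linarith [h a]

/-! ### The language of good sets -/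

variable {Ω Λ α β γ : ℕ → Type} {P : ∀ n, FP (Ω n)} {M : ℕ → ℕ} {Q : ∀ n, Ω n → γ n}
  {p : ∀ n, ℝ → Ω n → Prop} {Y : ∀ n, Ω n → α n} {B : ∀ n, Ω n → β n} {a b : ∀ n, Ω n → ℝ}

theorem typ_lo {K : (∀ n, Ω n) → Prop} (h : Typ P K) : ∀ᶠ w in lo P, K w :=
  fun ε hε => h.elim fun G k => ⟨G, k.1 ε hε, k.2⟩

theorem lo_typ {K : (∀ n, Ω n) → Prop} (hK : CF K) (h : ∀ᶠ w in lo P, K w) : Typ P K := by
  obtain ⟨p, hp⟩ := hK
  obtain ⟨k, hk, e⟩ := G39.whp_diag ((lo_cf hp fun _ ω => ω).1 h)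
  refine ⟨_, e, fun w a => (hp w).2 fun j => ?_⟩
  filter_upwards [a, hk.eventually_ge_atTop j] with n b c using b.2 j c

theorem gp_wp {q : ∀ n, Ω n → ℝ → Prop} (h : Gp P M q)
    (hm : ∀ n ω L L', 1 ≤ L → L ≤ L' → q n ω L → q n ω L') : Wp P M fun n L ω => q n ω L :=
  (S20.gp_iff.1 h).elim fun _ k => wp_of_sub k.1 k.2 fun n L L' ω _ => hm n ω L L'

theorem wp_gp (h : Wp P M p) : Gp P M fun n ω L => p n L ω := S20.gp_of_wp h

theorem gp_wl (h : Gp P M fun n ω L => a n ω ≤ L * b n ω)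
    (h0 : ∀ᶠ n in UF, ∀ ω ∈ (P n).S, 0 ≤ a n ω ∨ 0 ≤ b n ω) : Wl P M a b := fun c hc => by
  obtain ⟨Γ, s, k⟩ := S20.gp_iff.1 h
  refine k.mono ?_
  filter_upwards [h0, s.2 c hc] with n e l ω hω u
  exact u.trans (mul_le_mul_of_nonneg_right l ((e ω hω).elim
    (fun v => nonneg_of_mul_nonneg_right (v.trans u) (s.pos n)) id))

theorem ds_iff : DS P M Y B a ↔ Dn P M Y B a :=
  ⟨fun h => gp_wl h (Eventually.of_forall fun _ _ k => Or.inl (S20.dn_pos k _ _).le), wp_gp⟩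

theorem fs_lw (h : FS P M Y B a) (hM : Big M) (e : FnE P a B) :
    Lw P M Y B fun n ω => (a n ω)⁻¹ := by
  obtain ⟨Γ, s, k⟩ := S20.gp_iff.1 (h.low hM e)
  refine gp_wl (S20.gp_iff.2 ⟨Γ, s, k.mono (Eventually.of_forall fun n ω hω u => ?_)⟩)
    (Eventually.of_forall fun _ _ k => Or.inr (S20.dn_pos k _ _).le)
  have h1 : 0 < a n ω := (pos_iff_pos_of_mul_pos ((pos_iff_pos_of_mul_pos
    (one_pos.trans_le u)).2 (S20.dn_pos hω _ _))).1 (s.pos n)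
  rw [inv_le_iff_one_le_mul₀' h1]
  linarith

theorem lw_fs (h : Lw P M Y B fun n ω => (a n ω)⁻¹) (e : FnE P a B)
    (h0 : ∀ᶠ n in UF, ∀ ω ∈ (P n).S, 0 < a n ω) : FS P M Y B a := by
  obtain ⟨Γ, s, k⟩ := Wp.sub h
  refine ⟨_, Γ, k, s, ?_⟩
  filter_upwards [e, h0] with n e1 e2 ω hω _
  have x := s.pos n
  have x' := e2 ω hω
  obtain ⟨T, t1, t2⟩ := S20.few_dn (P n) (Y n) (B n) (θ := (Γ n * a n ω)⁻¹) (by positivity) ω hω
  refine ⟨T, by rwa [inv_inv] at t1, fun v hv u z => t2 v hv u ?_⟩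
  rw [e1 v hv ω hω u] at z
  rwa [mul_inv, inv_mul_le_iff₀ x]

theorem fs_of_wp (hM : Big M) (h : Wp P M p) {A : ℝ} (hA : 1 ≤ A) (k : ℕ)
    (e : ∀ᶠ n in UF, ∀ L, 1 ≤ L → ∀ ω ∈ (P n).S, p n L ω → ∃ T : Finset (α n),
      (T.card : ℝ) ≤ A * L ^ k * a n ω ∧ ∀ v ∈ (P n).S, B n v = B n ω → p n L v → Y n v ∈ T) :
    FS P M Y B a :=
  (Wp.sub h).elim fun _ s => ⟨_, _, s.2, (s.1.pow k).const_mul hM hA, e.mono fun n u => u _ (s.1.1 n)⟩

theorem fs_weak (h : FS P M Y B a) (e : Wl P M a b) : FS P M Y B b := by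
  obtain ⟨G, Γ, g, s, k⟩ := h
  obtain ⟨Γ', s', k'⟩ := Wp.sub e
  refine ⟨_, _, g.and k', s.mul s', k.mono fun n u ω hω z => (u ω hω z.1).imp fun T t =>
    ⟨t.1.trans ?_, fun v hv c z' => t.2 v hv c z'.1⟩⟩
  rw [mul_assoc]
  exact mul_le_mul_of_nonneg_left z.2 (s.pos n).le

/-- The worst witness is read from the label. -/
theorem whp_unif {A : ℕ → Type} (i : ∀ n, Nonempty (A n)) {G : ∀ n, γ n → A n → Ω n → Prop}
    (h : ∀ a : ∀ n, γ n → A n, Whp P fun n ω => G n (Q n ω) (a n (Q n ω)) ω) {ε : ℝ} (hε : 0 < ε) :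
    Whp P fun n ω => ∀ a, pb (cv (P n) (Q n) (Q n ω)) (fun v => ¬G n (Q n ω) a v) ≤ ε := by
  let a : ∀ n, γ n → A n := fun n q =>
    Classical.epsilon fun a => ¬pb (cv (P n) (Q n) q) (fun v => ¬G n q a v) ≤ ε
  refine ((lo_ev (G := fun n ω => pb (cv (P n) (Q n) (Q n ω))
    (fun v => ¬G n (Q n ω) (a n (Q n ω)) v) ≤ ε)).1
    (((lo_whp (G := fun n q => G n q (a n q))).2 (h a)).mono fun _ k => k ε hε)).mono
    (Eventually.of_forall fun n ω _ k b => by_contra fun u => ?_)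
  exact Classical.epsilon_spec
    (p := fun a => ¬pb (cv (P n) (Q n) (Q n ω)) (fun v => ¬G n (Q n ω) a v) ≤ ε) ⟨b, u⟩ k

theorem lo_forall {S A : ℕ → Type} [∀ n, Nonempty (A n)] {K : (∀ n, S n) → Prop} (hK : CF K)
    (f : ∀ n, γ n → A n → S n)
    (h : ∀ a : ∀ n, γ n → A n, ∀ᶠ w in lo P, K fun n => f n (Q n (w n)) (a n (Q n (w n)))) :
    ∀ᶠ w in lo P, ∀ b : ∀ n, A n, K fun n => f n (Q n (w n)) (b n) := by
  obtain ⟨p, hp⟩ := hK
  refine (lo_all fun j => h fun n q => Classical.epsilon fun a => ¬p j n (f n q a)).mono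
    fun w k b => (hp _).2 fun j => ((hp _).1 (k j) j).mono fun n u => by_contra fun z => ?_
  exact Classical.epsilon_spec (p := fun a => ¬p j n (f n (Q n (w n)) a)) ⟨b n, z⟩ u

theorem fn_cq {F : ∀ n, Ω n → α n} (h : FnE P F Q) : ∀ᶠ w in lo P, ∀ᶠ n in UF,
    ∀ v ∈ (cq P Q w n).S, v ∈ (P n).S ∧ Q n v = Q n (w n) ∧ F n v = F n (w n) :=
  (lo_mem P).mono fun w k => by
    filter_upwards [k, h] with n x e v hv
    obtain ⟨b, c⟩ := (mem_cv x v).1 hv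
    exact ⟨b, c, e v b _ x c⟩

/-! ### Generic points with a frame -/

variable {d D : ℕ}

/-- The points `y` are generic for the norms `ν` of the context `q`, with a frame `Θ`. -/
structure VH (P : ∀ n, FP (Ω n)) (M : ℕ → ℕ) (y : ∀ n, Ω n → V d) (q : ∀ n, Ω n → Λ n)
    (ν : ∀ n, Ω n → Pl d → ℝ) (Θ : ∀ n, Ω n → Fin d → Pl d) (D : ℕ) : Prop where
  big : Big M
  fnu : FnE P ν q
  up : ∀ E, Gp P M fun n ω Γ => ∀ F : Pl d, F.totalDegree ≤ E → |eval (y n ω) F| ≤ Γ * ν n ω F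
  dn : ∀ (E : ℕ) (c : ℝ) (F : ∀ n, Ω n → Pl d), 0 < c → FnE P F q →
    (∀ n ω, (F n ω).totalDegree ≤ E) →
    Whp P fun n ω => dl M c n * ν n ω (F n ω) ≤ |eval (y n ω) (F n ω)|
  nn : ∀ n ω F, 0 ≤ ν n ω F
  fn : FnE P Θ q
  deg : ∀ n ω j, (Θ n ω j).totalDegree ≤ D
  le : Gp P M fun n ω Γ => ∀ j, ν n ω (Θ n ω j) ≤ Γ
  nice : ∀ E K, Gp P M fun n ω Γ => ∃ σ, NiceAt (Θ n ω) (ν n ω) D E K Γ (y n ω) σ

variable {y : ∀ n, Ω n → V d} {q : ∀ n, Ω n → Λ n} {ν : ∀ n, Ω n → Pl d → ℝ}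
  {Θ Ψ : ∀ n, Ω n → Fin d → Pl d}

namespace VH

variable (h : VH P M y q ν Θ D)
include h

theorem gd (E : ℕ) : Wp P M fun n L ω => Vo.Gd (ν n ω) E L (y n ω) :=
  gp_wp (h.up E) fun n ω _ _ _ l k => Vo.Gd.mono k (h.nn n ω) le_rfl l

theorem ni (E K : ℕ) : Wp P M fun n L ω => ∃ σ, NiceAt (Θ n ω) (ν n ω) D E K L (y n ω) σ :=
  gp_wp (h.nice E K) fun _ _ _ _ l1 l k => k.imp fun _ u =>
    u.mono (one_pos.trans_le l1) l le_rfl le_rfl

theorem bd : Wp P M fun n L ω => ∀ j, ν n ω (Θ n ω j) ≤ L :=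
  gp_wp h.le fun _ _ _ _ _ l k j => (k j).trans l

theorem low {F : ∀ n, Ω n → Pl d} {E : ℕ} (e : FnE P F q) (hE : ∀ n ω, (F n ω).totalDegree ≤ E) :
    Wl P M (fun n ω => ν n ω (F n ω)) fun n ω => |eval (y n ω) (F n ω)| := fun c hc =>
  (h.dn E c F hc e hE).mono (Eventually.of_forall fun n ω _ k => by
    rw [← G39.dl_inv]
    exact (le_inv_mul_iff₀ (G39.dl_pos M c n)).2 k)

theorem high {F : ∀ n, Ω n → Pl d} {E : ℕ} (hE : ∀ n ω, (F n ω).totalDegree ≤ E) :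
    Wl P M (fun n ω => |eval (y n ω) (F n ω)|) fun n ω => ν n ω (F n ω) :=
  wp_mono (h.gd E) (Eventually.of_forall fun n _ _ ω _ k => k _ (hE n ω))

theorem fnj : FnE P (fun n ω => jac (Θ n ω)) q :=
  h.fn.mono fun _ k u hu v hv e => congrArg jac (k u hu v hv e)

theorem jpos : Whp P fun n ω => 0 < ν n ω (jac (Θ n ω)) :=
  ((h.gd (d * D)).and (h.ni 0 0) 1 one_pos).mono (Eventually.of_forall fun n ω _ ⟨a, _, b⟩ =>
    (pos_iff_pos_of_mul_pos ((abs_pos.2 (b.jac (Real.exp_pos _))).trans_le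
      (a _ (deg_jac (h.deg n ω))))).1 (Real.exp_pos _))

/-- A good point of the context at which finitely many polynomials have their typical size. -/
theorem pick (hp : Wp P M p) (E : ℕ) (ι : Type) [Fintype ι] : Wp P M fun n L ω =>
    ∀ F : ι → Pl d, (∀ a, (F a).totalDegree ≤ E) → ∃ v ∈ (P n).S, q n v = q n ω ∧ p n L v ∧
      ∀ a, ν n ω (F a) ≤ L * |eval (y n v) (F a)| := fun c hc => by
  have : Nonempty {F : Pl d // F.totalDegree ≤ E} := ⟨⟨0, by simp⟩⟩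
  have k0 : (0 : ℝ) ≤ Fintype.card ι := Nat.cast_nonneg _
  have h1 := whp_unif (P := P) (Q := q) (A := fun _ => {F : Pl d // F.totalDegree ≤ E})
    (fun _ => this) (G := fun n _ F v => ν n v F.1 ≤ Real.exp (c * M n) * |eval (y n v) F.1|)
    (fun a => h.low (F := fun n ω => (a n (q n ω)).1) (Eventually.of_forall
      fun _ _ _ _ _ e => by simp only [e]) (fun n ω => (a n (q n ω)).2) c hc)
    (ε := 1 / 4 / (Fintype.card ι + 1)) (by positivity)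
  refine (h1.and (S20.whp_half (hp c hc) q)).mono (h.fnu.mono fun n e ω hω k F hF => ?_)
  have h2 := pb_ex_le _ _ (fun a => k.1 ⟨F a, hF a⟩) Finset.univ
  have h3 : (Finset.univ : Finset ι).card * (1 / 4 / (Fintype.card ι + 1) : ℝ) ≤ 1 / 4 := by
    rw [Finset.card_univ, ← mul_div_assoc, div_le_iff₀ (by positivity)]; linarith
  have h4 := pb_split (cv (P n) (q n) (q n ω)) (p n (Real.exp (c * M n))) fun v =>
    ∃ a ∈ Finset.univ, ¬ν n v (F a) ≤ Real.exp (c * M n) * |eval (y n v) (F a)|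
  have h5 := (pb_mono (E := fun v => p n (Real.exp (c * M n)) v ∧ _) fun _ _ u => u.2).trans
    (h2.trans h3)
  obtain ⟨v, hv, u, z⟩ := ex_of_pb (P := cv (P n) (q n) (q n ω)) (E := fun v =>
    p n (Real.exp (c * M n)) v ∧ ¬∃ a ∈ Finset.univ,
      ¬ν n v (F a) ≤ Real.exp (c * M n) * |eval (y n v) (F a)|) (by linarith [k.2])
  obtain ⟨b1, b2⟩ := (mem_cv hω v).1 hv
  exact ⟨v, b1, b2, u, fun a => e v b1 ω hω b2 ▸ by_contra fun x => z ⟨a, Finset.mem_univ a, x⟩⟩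

/-- Derivatives and Jacobians: the frame is optimal. -/
theorem der (E : ℕ) : Wp P M fun n L ω =>
    (∀ F : Pl d, F.totalDegree ≤ E → ∀ i, ν n ω (Dv (Θ n ω) i F) ≤
      L * ν n ω F * ν n ω (jac (Θ n ω))) ∧
    (∀ F : Pl d, F.totalDegree ≤ E → ∀ j, ν n ω (pderiv j F) ≤
      L * col (ν n ω) (Θ n ω) j * ν n ω F) ∧
    (∀ Ψ : Fin d → Pl d, (∀ i, (Ψ i).totalDegree ≤ E) → ν n ω (jac Ψ) ≤
      L * (∏ i, ν n ω (Ψ i)) * ν n ω (jac (Θ n ω))) ∧
    (Tri (Θ n ω) → ∀ (i : Fin d) (F : Pl d), F.totalDegree ≤ E → (∀ l ∈ F.vars, l ≤ i) →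
      ν n ω (pderiv i F) ≤ L * ν n ω (pderiv i (Θ n ω i)) * ν n ω F) := by
  refine (h.pick ((h.ni E 1).and (h.gd (d * D + D))) (d * D + d * E + E) Unit).of h.big
    d.factorial (d + 4) ?_
  filter_upwards [h.fnu, h.fn] with n e e' L L' l1 l2 ω hω k
  refine VDerA.pt alg (h.nn n ω) l1 l2 (h.deg n ω) fun F hF => ?_
  obtain ⟨v, hv, x, ⟨⟨σ, u⟩, u'⟩, z⟩ := k (fun _ => F) fun _ => hF
  rw [e v hv ω hω x] at u u'
  rw [e' v hv ω hω x] at u
  exact ⟨_, σ, u, u', z ()⟩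

/-- A normalised system with a large Jacobian has no approximate relation. -/
theorem jfr {D' : ℕ} (hd : ∀ n ω i, (Ψ n ω i).totalDegree ≤ D')
    (hl : Wp P M fun n L ω => ∀ i, ν n ω (Ψ n ω i) ≤ L)
    (hj : Wl P M (fun n ω => ν n ω (jac (Θ n ω))) fun n ω => ν n ω (jac (Ψ n ω))) (E : ℕ) :
    Wp P M fun n L ω => ∀ H : Pl d, H.totalDegree ≤ E → ∀ m,
      |coeff m H| ≤ L * ν n ω (aeval (Ψ n ω) H) := by
  induction E with
  | zero =>
    refine wp_mono (h.gd 0) (Eventually.of_forall fun n L l ω _ k H dH m => ?_)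
    rw [totalDegree_eq_zero_iff_eq_C.1 (Nat.le_zero.1 dH), aeval_C, algebraMap_eq, coeff_C]
    refine le_trans ?_ (k _ (totalDegree_C _).le)
    split_ifs <;> simp
  | succ E ih =>
    obtain ⟨E', hE⟩ : ∃ E', E' = (E + 1) * D' + d * D' + d * D := ⟨_, rfl⟩
    refine ((((h.pick ((h.gd E').and (h.ni E' 1)) E' (Option (Fin d))).and ih).and hl).and hj).of
      h.big (((Pk.mons (Fin d) (E + 1)).card + 1) * d.factorial) (2 * d + 6 + 2 * (E + 1)) ?_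
    filter_upwards [h.fnu, h.fn] with n f f' L L' l1 l2 ω hω ⟨⟨⟨a, b⟩, c⟩, e⟩ H dH m
    have d1 := hd n ω
    have d3 : ∀ j, (pderiv j H).totalDegree ≤ E := fun j => (Nc.kc.der H _ j dH).2
    obtain ⟨v, hv, x, ⟨g1, σ, g2⟩, g3⟩ := a
      (fun o => o.elim (jac (Ψ n ω)) fun j => aeval (Ψ n ω) (pderiv j H)) (by
        rintro (_ | j)
        · exact (deg_jac d1).trans (by omega)
        · exact (Nc.kc.deg _ _ _ _ (d3 j) d1).trans (by rw [hE, add_mul]; omega))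
    rw [f v hv ω hω x] at g1 g2
    rw [f' v hv ω hω x] at g2
    refine (VJfrA.step alg l1 g2 g1 (fun i => ⟨(d1 i).trans (by rw [hE, add_mul]; omega), c i⟩)
      ((Nc.kc.deg _ _ _ _ dH d1).trans (by omega)) ((deg_jac (h.deg n ω)).trans (by omega)) dH e
      (g3 none) (fun j m => (b _ (d3 j) m).trans ?_) m).trans
      (mul_le_mul_of_nonneg_right l2 (h.nn _ _ _))
    exact mul_le_mul_of_nonneg_left (g3 (some j)) (zero_le_one.trans l1)

theorem down_both {K : ∀ n, Ω n → Fin d → ℕ} {R : ℕ → ℕ} (hK : FnE P K q)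
    (e : Gp P M fun n ω Γ => ∀ F : Pl d, F.totalDegree ≤ (d + 1) * D → ∀ j,
      ν n ω (pderiv j F) * 2 ^ R n ≤ Γ * 2 ^ K n ω j * ν n ω F) :
    FS P M (fun n ω => cel (K n ω) (y n ω)) (fun n ω => (flv (R n) (cht (Θ n) (y n) ω), q n ω))
      (fun n ω => vol (K n ω) / (2 ^ R n) ^ d / ν n ω (jac (Θ n ω))) ∧
    FS P M (fun n ω => cel (K n ω) (y n ω)) q fun n ω => vol (K n ω) / ν n ω (jac (Θ n ω)) := by
  obtain ⟨A, hA, hU⟩ := upS d D
  have w := ((((gp_wp e fun n ω _ _ _ l k F hF j => (k F hF j).trans (mul_le_mul_of_nonneg_right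
    (mul_le_mul_of_nonneg_right l (by positivity)) (h.nn n ω F))).and h.bd).and
    (wp_whp h.jpos)).and (h.gd ((d + 1) * D))).and
    (h.low h.fnj fun n ω => deg_jac (h.deg n ω))
  constructor <;> refine fs_of_wp h.big w hA (5 * d + 1) ?_ <;>
    filter_upwards [h.fnu, h.fn, hK] with n f1 f2 f3 L l ω hω ⟨⟨⟨⟨a1, a2⟩, a3⟩, _⟩, _⟩ <;>
    obtain ⟨u1, u2⟩ := hU _ _ _ _ L (h.nn n ω) l a3 (fun i => ⟨h.deg n ω i, a2 i⟩) a1
  · refine (u1 (flv (R n) (cht (Θ n) (y n) ω))).imp fun T t => ⟨t.1, fun v hv x z => ?_⟩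
    obtain ⟨x1, x2⟩ := Prod.ext_iff.1 x
    have b1 := z.1.2
    have b2 := z.2
    simp only [cht, f1 v hv ω hω x2, f2 v hv ω hω x2, f3 v hv ω hω x2] at b1 b2 x1 ⊢
    exact t.2 _ b1 b2 x1
  · refine u2.imp fun T t => ⟨t.1, fun v hv x z => ?_⟩
    have b1 := z.1.2
    have b2 := z.2
    simp only [f1 v hv ω hω x, f2 v hv ω hω x, f3 v hv ω hω x] at b1 b2 ⊢
    exact t.2 _ b1 b2

/-- Cells of the coordinates over one cell of the frame. -/
theorem down {K : ∀ n, Ω n → Fin d → ℕ} {R : ℕ → ℕ} (hK : FnE P K q)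
    (e : Gp P M fun n ω Γ => ∀ F : Pl d, F.totalDegree ≤ (d + 1) * D → ∀ j,
      ν n ω (pderiv j F) * 2 ^ R n ≤ Γ * 2 ^ K n ω j * ν n ω F) :
    FS P M (fun n ω => cel (K n ω) (y n ω)) (fun n ω => (flv (R n) (cht (Θ n) (y n) ω), q n ω))
      fun n ω => vol (K n ω) / (2 ^ R n) ^ d / ν n ω (jac (Θ n ω)) := (h.down_both hK e).1

/-- Cells of the coordinates in one context. -/
theorem down0 {K : ∀ n, Ω n → Fin d → ℕ} (hK : FnE P K q)
    (e : Gp P M fun n ω Γ => ∀ F : Pl d, F.totalDegree ≤ (d + 1) * D → ∀ j,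
      ν n ω (pderiv j F) ≤ Γ * 2 ^ K n ω j * ν n ω F) :
    FS P M (fun n ω => cel (K n ω) (y n ω)) q fun n ω => vol (K n ω) / ν n ω (jac (Θ n ω)) :=
  (h.down_both (R := fun _ => 0) hK (by simpa only [pow_zero, mul_one] using e)).2

/-- Cells of the frame over one cell of the coordinates. -/
theorem upw {K : ∀ n, Ω n → Fin d → ℕ} {R : ℕ → ℕ} (hK : FnE P K q)
    (e : Gp P M fun n ω Γ => ∀ j, ∃ a : ℝ, ν n ω (X j - C a) * 2 ^ K n ω j ≤ Γ * 2 ^ R n) :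
    FS P M (fun n ω => flv (R n) (cht (Θ n) (y n) ω)) (fun n ω => (cel (K n ω) (y n ω), q n ω))
      fun n ω => ν n ω (jac (Θ n ω)) * (2 ^ R n) ^ d / vol (K n ω) := by
  refine fs_of_wp h.big (((gp_wp e fun n ω _ _ _ l k j => (k j).imp fun _ u => u.trans
    (mul_le_mul_of_nonneg_right l (by positivity))).and (wp_whp h.jpos)).and (h.ni (d * D + 1) 1))
    (A := (6 * (d + 1)) ^ d) (one_le_pow₀ (by linarith [Nat.cast_nonneg (α := ℝ) d])) (2 * d + 1) ?_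
  filter_upwards [h.fnu, h.fn, hK] with n f1 f2 f3 L l ω hω ⟨⟨a1, a2⟩, _⟩
  refine (loS (cel (K n ω) (y n ω)) l a2 (h.deg n ω) a1).imp fun T t => ⟨t.1, fun v hv x z => ?_⟩
  obtain ⟨x1, x2⟩ := Prod.ext_iff.1 x
  obtain ⟨σ, b1⟩ := z.2
  simp only [cht, f1 v hv ω hω x2, f2 v hv ω hω x2, f3 v hv ω hω x2] at b1 x1 ⊢
  exact t.2 _ σ b1 x1

/-- The size of the Jacobian in the norm of the context. -/
theorem vol_iff {v : ℕ → ℝ} : Vol P M y Θ v ↔
    Wl P M (fun n _ => Real.exp (v n)) (fun n ω => ν n ω (jac (Θ n ω))) ∧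
      Wl P M (fun n ω => ν n ω (jac (Θ n ω))) fun n _ => Real.exp (v n) := by
  have a := h.low h.fnj fun n ω => deg_jac (h.deg n ω)
  have b := h.high fun n ω => deg_jac (h.deg n ω)
  refine ⟨fun k => ?_, fun k => wp_gp (Wp.and (k.1.trans a) (b.trans k.2))⟩
  have k' := gp_wp k fun n ω _ _ _ l u => ⟨u.1.trans (mul_le_mul_of_nonneg_right l (abs_nonneg _)),
    u.2.trans (mul_le_mul_of_nonneg_right l (Real.exp_pos _).le)⟩
  exact ⟨Wl.trans (wp_mono k' (Eventually.of_forall fun _ _ _ _ _ u => u.1)) b,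
    a.trans (wp_mono k' (Eventually.of_forall fun _ _ _ _ _ u => u.2))⟩

end VH

end Pool.Agent.MP_5168f5_an.AN.Cx
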