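import Pool.Agent.MP_5168f5_an.AN.Api
import Pool.Agent.MP_5168f5_an.AN.S20Nz1
import Pool.Agent.MP_5168f5_an.AN.VG

/-! Heavy and light cells; long axes give full coordinates. -/

namespace Pool.Agent.MP_5168f5_an.AN

open H19 H17S H17F R4 Filter
open G39 (dl dl_pos dl_inv)
open S20 (dn dn_pos)
open Cx

namespace GFullA

/-- The exact count of the finer cells. -/
theorem few_fine {Ω β : Type} {N : ℕ} (P : FP Ω) (y : Ω → V N) (A : Ω → β) (j i : ℕ) :
    S20.Few P (fun ω => fl (j + i) (y ω)) (fun ω => (fl j (y ω), A ω)) (fun _ => True)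
      ((2 ^ i) ^ N) := fun a _ => by
  refine ⟨Fintype.piFinset fun t => Finset.Ico (2 ^ i * fl j (y a) t)
    (2 ^ i * fl j (y a) t + 2 ^ i), ?_, fun b _ e _ => Fintype.mem_piFinset.2 fun t =>
      fl1_mem_Ico (congrFun (congrArg Prod.fst e) t)⟩
  rw [Fintype.card_piFinset]
  have : ((2 : ℤ) ^ i).toNat = 2 ^ i := by
    rw [show ((2 : ℤ) ^ i) = ((2 ^ i : ℕ) : ℤ) by push_cast; rfl, Int.toNat_natCast]
  simp [this]

variable {Ω Λ α : ℕ → Type} {N : ℕ} {P : ∀ n, FP (Ω n)} {M j : ℕ → ℕ} {y : ∀ n, Ω n → V N}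
  {A : ∀ n, Ω n → Λ n} {Y : ∀ n, Ω n → α n} {u a b : ℕ → ℝ}

theorem heavy_iff : Heavy P M y A j u ↔
    Lw P M (fun n ω => fl (j n) (y n ω)) A fun n _ => Real.exp (u n) / (2 ^ j n) ^ N :=
  ⟨fun h => gp_wl h (Eventually.of_forall fun _ _ k => Or.inr (dn_pos k _ _).le), wp_gp⟩

theorem light_iff : Light P M y A j u ↔
    Dn P M (fun n ω => fl (j n) (y n ω)) A fun n _ => Real.exp (u n) / (2 ^ j n) ^ N :=
  ⟨fun h => gp_wl h (Eventually.of_forall fun _ _ k => Or.inl (dn_pos k _ _).le), wp_gp⟩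

theorem lw_eq (h : Lw P M Y A fun n _ => a n) (e : ∀ᶠ n in UF, b n = a n) :
    Lw P M Y A fun n _ => b n := wp_mono h (e.mono fun _ e _ _ _ _ k => e.trans_le k)

end GFullA

open GFullA in
theorem fullApi : FullApi where
  light hM := (S20.fullAt_iff hM).trans (by
    simp only [Light, S20.DS, S20.cvol, Real.exp_zero, one_div])
  coarse := by
    intro Ω Λ Λ' N P M j j' y A A' ⟨G, Γ, a, b, c⟩ e e'
    refine ⟨G, Γ, a, b, ?_⟩
    filter_upwards [c, e, e'] with n c e e'
    obtain ⟨d, hd⟩ := Nat.exists_eq_add_of_le e'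
    rw [hd] at c
    refine ((S20.DB.ctx c e).cover (few_fine (P n) (y n) (A' n) (j' n) d)).mono
      (fun _ _ k => ⟨k, trivial⟩) (le_of_eq ?_)
    rw [pow_add, mul_pow]
    field_simp
  nf hM h :=
    let ⟨η, a, G, b, c⟩ := S20.not_full hM h
    ⟨η, G, a, b, c⟩
  ph := by
    intro Ω Λ N P M j y A η hM h
    refine heavy_iff.2 (lw_eq (Lw.of_few (G := fun _ _ => True) (L := fun _ => 1)
      (s := fun n => dl M η n * (2 ^ j n) ^ N) hM (Whp.of_ev (by simp)) (hM.sub le_rfl)
      (h.mono fun n k => ⟨mul_pos (dl_pos _ _ _) (by positivity), fun a ha => (k a ha).imp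
        fun T t => ⟨t.1.trans_eq (one_mul _).symm, fun v hv e _ => t.2 v hv e⟩⟩))
      (Eventually.of_forall fun n => ?_))
    rw [mul_inv, dl_inv, div_eq_mul_inv, un]
  hp := by
    intro Ω Λ N P M j y A η η' hM h e
    have w : Whp P fun n ω => Real.exp (η' * M n) / (2 ^ j n) ^ N ≤
        dn (P n) (fun u => fl (j n) (y n u)) (A n) ω :=
      (heavy_iff.1 h _ (sub_pos.2 e)).mono (Eventually.of_forall fun n ω _ k => by
        refine le_of_mul_le_mul_left (le_of_eq_of_le ?_ k) (Real.exp_pos ((η - η') * M n))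
        show _ = Real.exp (η * M n) / _
        rw [← mul_div_assoc, ← Real.exp_add, ← add_mul, sub_add_cancel])
    refine ⟨_, w, w.pos.ex.mono fun n ex => ?_⟩
    have := (S20.few_dn (P n) (fun u => fl (j n) (y n u)) (A n)
      (θ := Real.exp (η' * M n) / (2 ^ j n) ^ N) (by positivity)).det ex
    rwa [inv_div, div_eq_inv_mul ((2 ^ j n : ℝ) ^ N), ← Real.exp_neg] at this
  hl := by
    intro Ω Λ Λ' N P M j y A A' u v hM e h h'
    refine le_of_gp (P := P) (wp_gp (wp_mono ((light_iff.1 h').le_lw ((heavy_iff.1 h).more hM e))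
      (Eventually.of_forall fun n L _ ω _ k => ?_)))
    rwa [← mul_div_assoc, div_le_div_iff_of_pos_right (by positivity)] at k
  fine := by
    intro Ω Λ N P M j j' y A u hM e h
    have l := Lw.of_few (Y := fun n ω => fl (j' n) (y n ω))
      (B := fun n ω => (fl (j n) (y n ω), A n ω)) (G := fun _ _ => True) (L := fun _ => 1)
      (s := fun n => (2 ^ (j' n - j n)) ^ N) hM (Whp.of_ev (P := P) (by simp)) (hM.sub le_rfl)
      (e.mono fun n k => ⟨by positivity, by
        have := few_fine (P n) (y n) (A n) (j n) (j' n - j n)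
        rwa [Nat.add_sub_cancel' k, ← one_mul ((2 ^ (j' n - j n) : ℝ) ^ N)] at this⟩)
    refine heavy_iff.2 (lw_eq (((heavy_iff.1 h).chain l (Eventually.of_forall fun n _ _ =>
      ⟨by positivity, by positivity⟩)).fn (Eventually.of_forall fun n _ _ _ _ k =>
        congrArg (·.1.2) k)) (e.mono fun n k => ?_))
    obtain ⟨d, hd⟩ := Nat.exists_eq_add_of_le k
    rw [hd, Nat.add_sub_cancel_left, pow_add, mul_pow]
    field_simp
  near := by
    intro Ω Λ N P M j y y' A u hM ⟨G, Γ, a, b, c⟩ h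
    have l := fs_lw (S20.fs_near (y := y') (j := j) (A := fun n ω => (fl (j n) (y n ω), A n ω))
      (r := fun _ => 1) hM (by simp) ⟨G, _, a, b.const_mul hM (C := 3) (by norm_num),
        c.mono fun n c s hs t ht d e k => by
          have h1 := norm_sub_lt_of_fl_eq (congrArg Prod.fst k)
          have h2 : ((2 : ℝ) ^ j n)⁻¹ ≤ Γ n / 2 ^ j n := by
            rw [← one_div]
            exact div_le_div_of_nonneg_right (b.1 n) (by positivity)
          have h3 : y' n s - y' n t = y n s - y n t - (y n s - y' n s) + (y n t - y' n t) := by abel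
          rw [h3, mul_one, mul_div_assoc]
          refine (norm_add_le _ _).trans ((add_le_add (norm_sub_le _ _) le_rfl).trans ?_)
          linarith [c s hs d, c t ht e]⟩) hM (S20.fnE_const _)
    exact heavy_iff.2 (lw_eq (((heavy_iff.1 h).chain l (Eventually.of_forall fun n _ _ =>
      ⟨by positivity, by positivity⟩)).fn (Eventually.of_forall fun n _ _ _ _ k =>
        congrArg (·.1.2) k)) (by simp))
  box := by
    intro Ω Λ N P M y A j hM h
    exact heavy_iff.2 (lw_eq (a := fun n => ((2 ^ j n) ^ N)⁻¹)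
      (fs_lw (S20.fs_bdd hM h A j) hM (S20.fnE_const _)) (by simp))
  acc := by
    intro Ω Λ Λ' N P M j g y z A A' u u' w hM e l h h' k
    have l1 : Lw P M (fun n ω => fl (g n) (z n ω)) (fun n ω => (fl (j n) (y n ω), A n ω))
        fun _ _ => 1 := gp_wl l (Eventually.of_forall fun _ _ _ => Or.inl zero_le_one)
    have l2 : Lw P M (fun n ω => (fl (g n) (z n ω), fl (j n) (y n ω))) A _ :=
      ((heavy_iff.1 h).chain l1 (Eventually.of_forall fun n _ _ =>
        ⟨by positivity, zero_le_one⟩)).fn (Eventually.of_forall fun n _ _ _ _ k =>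
          congrArg (·.1.swap) k)
    have d1 : Dn P M (fun n ω => (fl (g n) (z n ω), fl (j n) (y n ω))) A' _ :=
      (light_iff.1 h').fn (Eventually.of_forall fun n _ _ _ _ k => congrArg (·.1.2) k)
    have d2 := (d1.snd (heavy_iff.1 k) (Eventually.of_forall fun n _ _ => by positivity)).less
      (B := fun n ω => (fl (g n) (z n ω), A n ω)) hM (e.mono fun n e s hs t ht q =>
        Prod.ext (Prod.mk.inj q).1 (e s hs t ht (Prod.mk.inj q).2))
    have l3 := l2.fst d2
    refine heavy_iff.2 (lw_eq l3 (Eventually.of_forall fun n => ?_))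
    rw [Real.exp_sub, Real.exp_sub]
    field_simp

theorem lF : LF := fun _ _ _ _ _ _ _ _ _ hM h =>
  let ⟨G, a, e, b, c⟩ := S20.lf hM h
  ⟨G, e, a, b, c⟩

end Pool.Agent.MP_5168f5_an.AN
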