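import Pool.Agent.MP_5168f5_an.AN.Spec
import Pool.Agent.MP_5168f5_an.AN.S20Full

/-! Kakeya sets in all dimensions: heredity under refinements of bounded density, first part. -/

namespace Pool.Agent.MP_5168f5_an.AN

open H19 H17S H17F R4 Filter MvPolynomial
open G39 (nu RG dl REM sub_dl dl_pos dl_add dl_half)
open K31 (Dn DnS)
open S20 (gp_iff mem_cv pb_val dn_eq)

namespace HerA

section One

variable {Ω Ω' β : Type} {P : FP Ω} {Q : FP Ω'} {ρ : Ω' → Ω} {C θ : ℝ}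

/-- The ratio of the two laws of `A` is rarely small. -/
theorem rare (P : FP Ω) (Q : FP Ω') (A : Ω → β) (A' : Ω' → β) (h0 : 0 ≤ θ) :
    pb Q (fun v => ¬θ * pb P (fun x => A x = A' v) ≤ pb Q fun w => A' w = A' v) ≤ θ := by
  classical
  have e0 : ∀ v, Q.pr (Setoid.ker A') v = pb Q fun w => A' w = A' v := fun v =>
    Q.E_congr fun w _ => by by_cases h : A' w = A' v <;> simp [Setoid.ker_def, h]
  have e : Q.E (fun v => θ * ((pb P fun x => A x = A' v) / Q.pr (Setoid.ker A') v)) =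
      θ * P.E fun x => Q.E fun v => if A x = A' v then 1 / Q.pr (Setoid.ker A') v else 0 := by
    rw [FP.E_mul]
    congr 1
    simp only [pb, FP.E, Finset.mul_sum, Finset.sum_div]
    rw [Finset.sum_comm]
    exact Finset.sum_congr rfl fun x _ => Finset.sum_congr rfl fun v _ => by
      split_ifs <;> ring
  refine (Q.E_mono fun v hv => ?_).trans (e.trans_le (mul_le_of_le_one_right h0
    ((P.E_mono fun x _ => ?_).trans_eq (P.E_const 1))))
  · have h1 := pb_val hv A'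
    rw [e0, ← mul_div_assoc]
    split_ifs with k
    · exact (one_le_div h1).2 (not_le.1 k).le
    · exact div_nonneg (mul_nonneg h0 (pb_nonneg _ _)) h1.le
  · convert Q.class_sum (Setoid.ker A') (fun v => A x = A' v) fun _ _ _ _ a b => a.symm.trans b

/-- The conditional laws have bounded density. -/
theorem dn_cv (h : Dn C Q ρ P) (A : Ω → β) {v : Ω'} (hv : v ∈ Q.S) (h0 : 0 < θ)
    (k : θ * pb P (fun x => A x = A (ρ v)) ≤ pb Q fun w => A (ρ w) = A (ρ v)) :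
    Dn (C / θ) (cv Q (fun w => A (ρ w)) (A (ρ v))) ρ (cv P A (A (ρ v))) := by
  classical
  intro F hF
  have h1 := h (fun x => if A x = A (ρ v) then F x else 0) fun x => by
    split_ifs; exacts [hF x, le_rfl]
  have h2 := E_cE P (fun x => A x = A (ρ v)) F
  have h3 := E_cE Q (fun w => A (ρ w) = A (ρ v)) fun w => F (ρ w)
  have h4 := pb_val (h.mem hv) A
  have h5 : 0 ≤ (cv Q (fun w => A (ρ w)) (A (ρ v))).E fun w => F (ρ w) :=
    FP.E_nonneg _ fun _ _ => hF _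
  rw [← h2, ← h3] at h1
  rw [div_mul_eq_mul_div, le_div_iff₀ h0]
  exact le_of_mul_le_mul_left (((mul_le_mul_of_nonneg_right k h5).trans h1).trans_eq'
    (by unfold cv; ring) |>.trans_eq (by unfold cv; ring)) h4

end One

variable {Ω Ω' Λ : ℕ → Type} {P : ∀ n, FP (Ω n)} {Q : ∀ n, FP (Ω' n)} {ρ : ∀ n, Ω' n → Ω n}
  {M : ℕ → ℕ}

theorem ratio (P : ∀ n, FP (Ω n)) (Q : ∀ n, FP (Ω' n)) (A : ∀ n, Ω n → Λ n)
    (A' : ∀ n, Ω' n → Λ n) {L : ℕ → ℝ} (h0 : ∀ n, 0 < L n) (hL : ∀ K : ℝ, ∀ᶠ n in UF, K ≤ L n) :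
    Whp Q fun n v => (L n)⁻¹ * pb (P n) (fun x => A n x = A' n v) ≤
      pb (Q n) fun w => A' n w = A' n v :=
  S20.whp_of_le hL (.of_forall fun n => rare _ _ _ _ (inv_pos.2 (h0 n)).le)

/-- The laws in the cell `a`. -/
def DC (P : ∀ n, FP (Ω n)) (Q : ∀ n, FP (Ω' n)) (ρ : ∀ n, Ω' n → Ω n) (A : ∀ n, Ω n → Λ n)
    (L : ℕ → ℝ) (n : ℕ) (a : Λ n) : Prop :=
  Dn (L n) (cv (Q n) (pl ρ A n) a) (ρ n) (cv (P n) (A n) a)

/-- In most cells the conditional laws have subexponential density. -/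
theorem ctx (h : DnS Q ρ P) (hM : Big M) (A : ∀ n, Ω n → Λ n) :
    ∃ L, Sub M L ∧ Whp Q fun n v => DC P Q ρ A L n (A n (ρ n v)) := by
  obtain ⟨C, c1, c2⟩ := h
  obtain ⟨L, l1, l2⟩ := S20.sub_slow hM
  refine ⟨_, l1.const_mul hM c1, (ratio P Q A (pl ρ A) l1.pos l2).mono
    (c2.mono fun n c v hv k => ?_)⟩
  exact (dn_cv c (A n) hv (inv_pos.2 (l1.pos n)) k).mono (div_inv_eq_mul _ _).le

theorem cell {A : ∀ n, Ω n → Λ n} {L : ℕ → ℝ} {n : ℕ} {v : Ω' n} (hv : v ∈ (Q n).S) (h0 : 0 ≤ L n)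
    (G S : Ω n → Prop) : pb (cv (Q n) (pl ρ A n) (A n (ρ n v))) (fun w =>
      (G (ρ n w) ∧ DC P Q ρ A L n (A n (ρ n w))) ∧ S (ρ n w)) ≤
      L n * pb (cv (P n) (A n) (A n (ρ n v))) fun x => G x ∧ S x := by
  by_cases k : DC P Q ρ A L n (A n (ρ n v))
  · exact (pb_mono fun w _ e => ⟨e.1.1, e.2⟩).trans (Dn.pb_le k fun x => G x ∧ S x)
  · refine (pb_zero fun w hw e => k ?_).trans_le (mul_nonneg h0 (pb_nonneg _ _))
    have : A n (ρ n w) = A n (ρ n v) := ((mem_cv (A := pl ρ A n) hv w).1 hw).2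
    exact this ▸ e.1.2

theorem mem (h : DnS Q ρ P) : ∀ᶠ n in UF, ∀ v ∈ (Q n).S, ρ n v ∈ (P n).S :=
  let ⟨_, _, c⟩ := h
  c.mono fun _ c _ hv => c.mem hv

end HerA

open HerA

theorem her1 : Her1 where
  gp h := fun ⟨_, Γ, a, b, c⟩ =>
    ⟨_, Γ, h.whp a, b, (c.and (mem h)).mono fun _ k v hv => k.1 _ (k.2 v hv)⟩
  fn h k := (k.and (mem h)).mono fun _ k _ a _ b => k.1 _ (k.2 _ a) _ (k.2 _ b)
  full := fun {_ _ _ _ P Q ρ _ j y A} h hM ⟨G, Γ, a, b, c⟩ => by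
    obtain ⟨L, l1, l2⟩ := ctx h hM A
    refine ⟨_, _, (h.whp a).and l2, l1.mul b, (c.and (mem h)).mono fun n k v hv c => ?_⟩
    refine (cell hv (l1.pos n).le (G n) fun x => fl (j n) (y n x) = c).trans ?_
    rw [mul_div_assoc]
    exact mul_le_mul_of_nonneg_left (k.1 _ (k.2 v hv) c) (l1.pos n).le
  poor h k := (k.and (mem h)).mono fun _ k _ a =>
    (k.1 _ (k.2 _ a)).imp fun _ t => ⟨t.1, fun _ b => t.2 _ (k.2 _ b)⟩
  dn := fun {_ _ _ _ P Q ρ _} Y A h hM => by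
    obtain ⟨L, l1, l2⟩ := ctx h hM A
    obtain ⟨L', l3, l4⟩ := S20.sub_slow hM
    obtain ⟨C, c1, c2⟩ := h
    refine gp_iff.2 ⟨_, l1.mul (l3.const_mul hM c1), (l2.and (ratio P Q (fun n x => (A n x, Y n x))
      (fun n w => (A n (ρ n w), Y n (ρ n w))) l3.pos l4)).mono (c2.mono fun n c v hv k => ?_)⟩
    have h1 := S20.dn_pos (c.mem hv) (Y n) (A n)
    have h2 := S20.dn_pos hv (pl ρ Y n) (pl ρ A n)
    have h3 := (l3.const_mul hM c1).1 n
    constructor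
    · refine le_trans ?_ (mul_le_mul_of_nonneg_right
        (le_mul_of_one_le_left (by linarith) (l1.1 n)) h2.le)
      have h4 := c.pb_le fun x => A n x = A n (ρ n v)
      have h5 := k.2
      simp only [Prod.mk.injEq] at h5
      rw [inv_mul_le_iff₀ (l3.pos n)] at h5
      rw [dn_eq (c.mem hv), dn_eq hv, ← mul_div_assoc,
        div_le_div_iff₀ (pb_val (c.mem hv) _) (pb_val hv _)]
      exact (mul_le_mul h5 h4 (pb_nonneg _ _) ((pb_nonneg _ _).trans h5)).trans_eq (by ring)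
    · exact (Dn.pb_le k.1 fun x => Y n x = Y n (ρ n v)).trans (mul_le_mul_of_nonneg_right
        (le_mul_of_one_le_right (l1.pos n).le h3) h1.le)
  rem := fun {_ _ _ _ P Q ρ M x Z C} h hM hR K E => by
    obtain ⟨G, Γ, a, b, c⟩ := hR (K + 1) E
    obtain ⟨L, l1, l2⟩ := ctx h hM Z
    refine ⟨_, _, (h.whp a).and l2, b.mul (l1.pow (C * E)), ?_⟩
    filter_upwards [c, mem h, sub_dl l1 one_pos] with n c m e v hv g f ⟨F, hF, hf⟩ θ κ k1 k2
    have l0 := l1.pos n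
    have k3 := cell (P := P) (ρ := ρ) (A := Z) hv l0.le (G n) fun u => |eval (x n u) F| ≤ θ
    simp only [hf] at k2 ⊢
    have k4 := c _ (m v hv) g.1 _ ⟨F, hF, fun _ => rfl⟩ θ (κ / L n) (by
      push_cast
      rw [dl_add, le_div_iff₀ l0, mul_assoc]
      refine (mul_le_of_le_one_right (dl_pos _ _ _).le ?_).trans k1
      rwa [← le_inv_mul_iff₀ (dl_pos _ _ _), mul_one]) ((div_le_iff₀' l0).2 (k2.trans k3))
    refine k4.trans_eq ?_
    rw [inv_div, div_eq_mul_inv, mul_pow]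
    ring
  flr := fun {_ _ _ _ P Q ρ M x Z} h hM hF E => by
    obtain ⟨B, c, G, c0, a, b⟩ := hF E
    obtain ⟨L, l1, l2⟩ := ctx h hM Z
    refine ⟨B, c / 2, _, half_pos c0, (h.whp a).and l2, ?_⟩
    filter_upwards [b, mem h, sub_dl l1 (half_pos c0)] with n b m e v hv F hF
    refine (cell hv (l1.pos n).le (G n) fun u => |eval (x n u) F| < dl M B n * Pk.cn F).trans
      ((mul_le_mul e (b _ (m v hv) F hF) (pb_nonneg _ _) (inv_pos.2 (dl_pos _ _ _)).le).trans_eq ?_)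
    rw [dl_half M c, inv_mul_cancel_left₀ (dl_pos _ _ _).ne']
  wh := fun {_ _ _ _ _ _ ρ _ _ _ _ _ _} h ⟨_, Γ, a, b, c⟩ =>
    ⟨_, Γ, h.whp a, b, (c.and (mem h)).mono fun n ⟨⟨τ, t⟩, m⟩ => ⟨fun v => τ (ρ n v), fun v hv g =>
      ⟨(t _ (m v hv) g).1, (t _ (m v hv) g).2.1, fun w hw => (t _ (m v hv) g).2.2 _ (m w hw)⟩⟩⟩

end Pool.Agent.MP_5168f5_an.AN
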