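import Pool.Agent.MP_5168f5_an.AN.GHer1

/-! Kakeya sets in all dimensions: heredity under refinements of bounded density, second part. -/

namespace Pool.Agent.MP_5168f5_an.AN

open H19 H17S H17F R4 Filter MvPolynomial
open G39 (nu dl sub_dl dl_pos dl_half dl_inv dl_lt)
open Nc (Pl)
open K31 (Dn DnS)

namespace HerA

variable {Ω Ω' Λ : ℕ → Type} {β : Bool → ℕ → Type} {N E : ℕ} {P : ∀ n, FP (Ω n)}
  {Q : ∀ n, FP (Ω' n)} {ρ : ∀ n, Ω' n → Ω n} {M : ℕ → ℕ} {x : ∀ n, Ω n → V N}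
  {Z : ∀ b n, Ω n → β b n} {A : ∀ n, Ω n → Λ n}

theorem nu_le {W W' : Type} {P : FP W} {Q : FP W'} {ρ : W' → W} {C : ℝ} (h : Dn C Q ρ P)
    (f : W → ℝ) : nu Q (fun v => f (ρ v)) ≤ C * nu P f := by
  have h1 := h.one_le
  refine Real.sqrt_le_iff.2 ⟨mul_nonneg (by linarith) (A1.nu_nonneg _ _),
    (h _ fun _ => sq_nonneg _).trans ?_⟩
  rw [mul_pow, A1.nu_sq]
  exact mul_le_mul_of_nonneg_right (by nlinarith) (P.E_nonneg fun _ _ => sq_nonneg _)

/-- A polynomial read from a minimal label is not thin. -/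
theorem irr (h : CM P M x Z A) (F : ∀ n, Λ n → Pl N) (hF : ∀ n a, (F n a).totalDegree ≤ E) {c : ℝ}
    (hc : 0 < c) : Whp P fun n ω =>
      ¬|eval (x n ω) (F n (A n ω))| < dl M c n * nc (P n) (x n) (A n) ω (F n (A n ω)) := by
  classical
  let F' : ∀ b n, β b n → Pl N := fun b n z =>
    if k : ∃ ω ∈ (P n).S, Z b n ω = z then F n (A n k.choose) else 0
  have e : ∀ b, ∀ᶠ n in UF, ∀ ω ∈ (P n).S, F' b n (Z b n ω) = F n (A n ω) := fun b =>
    (h.com b).mono fun n f ω hω => by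
      have k : ∃ u ∈ (P n).S, Z b n u = Z b n ω := ⟨ω, hω, rfl⟩
      simp only [F', dif_pos k]
      rw [f _ k.choose_spec.1 ω hω k.choose_spec.2]
  refine (h.nt E c F' hc fun b n z => ?_).mono (((e true).and (e false)).mono
    fun n k ω hω u w => u ?_)
  · simp only [F']
    split_ifs
    exacts [hF _ _, by simp]
  · rw [k.1 ω hω, k.2 ω hω]
    exact ⟨rfl, w⟩

theorem nuEq (h : DnS Q ρ P) (hM : Big M) (k : CM P M x Z A) :
    NuEq Q M (pl ρ fun n => nc (P n) (x n) (A n)) fun n => nc (Q n) (pl ρ x n) (pl ρ A n) := by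
  intro E
  obtain ⟨L, l1, l2⟩ := ctx h hM A
  refine S20.gp_of_wp fun c hc => ?_
  have e : ∀ n (a : Λ n), ∃ F : Pl N, F.totalDegree ≤ E ∧ ∀ F' : Pl N, F'.totalDegree ≤ E →
      Real.exp (c * M n) * nu (cv (Q n) (pl ρ A n) a) (fun v => eval (x n (ρ n v)) F') <
        nu (cv (P n) (A n) a) (fun u => eval (x n u) F') →
      Real.exp (c * M n) * nu (cv (Q n) (pl ρ A n) a) (fun v => eval (x n (ρ n v)) F) <
        nu (cv (P n) (A n) a) fun u => eval (x n u) F := fun n a => by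
    by_contra z
    push Not at z
    obtain ⟨F, f1, f2, -⟩ := z 0 (by simp)
    obtain ⟨-, -, -, f3⟩ := z F f1
    exact f3.not_gt f2
  choose F f1 f2 using e
  refine (l2.and (S20.whp_half (h.whp (irr k F f1 (half_pos hc))) (pl ρ A))).mono ?_
  filter_upwards [l1.2 c hc, dl_lt hM one_half_pos (half_pos hc)] with n a b v hv u F' hF'
  refine ⟨not_lt.1 fun z => ?_, (nu_le u.1 fun u => eval (x n u) F').trans
    (mul_le_mul_of_nonneg_right a (A1.nu_nonneg _ _))⟩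
  have h1 := f2 n _ F' hF' z
  have h2 := dl_pos M (c / 2) n
  have h3 := A1.cheb (cv (Q n) (pl ρ A n) (A n (ρ n v)))
    (f := fun w => eval (x n (ρ n w)) (F n (A n (ρ n v)))) (s := dl M (c / 2) n *
      nu (cv (P n) (A n) (A n (ρ n v))) fun u => eval (x n u) (F n (A n (ρ n v)))) (by
    refine lt_of_le_of_lt ?_ (mul_lt_mul_of_pos_left h1 h2)
    rw [← mul_assoc, ← dl_inv, dl_half M c, mul_inv, mul_inv_cancel_left₀ h2.ne']
    refine mul_le_mul_of_nonneg_right ?_ (A1.nu_nonneg _ _)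
    rw [le_inv_comm₀ two_pos h2]
    linarith)
  have h4 := u.2
  rw [pb_not] at h4
  refine absurd (h3.trans (pb_mono fun w hw t => ?_)) (not_le.2 (lt_of_le_of_lt
    (le_sub_comm.1 h4) (by norm_num)))
  have : A n (ρ n w) = A n (ρ n v) := ((S20.mem_cv (A := pl ρ A n) hv w).1 hw).2
  simpa only [nc, this] using t

end HerA

open HerA

theorem her2 : Her2 where
  nt h k E c F hc hF := h.whp (k E c F hc hF)
  cm := fun {_ _ _ _ _ _ _ _ M _ _ _} h hM k => by
    refine ⟨⟨fun b => her1.fn h (k.com b), fun E c F hc hF => ?_⟩, nuEq h hM k⟩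
    obtain ⟨Γ, a, b⟩ := S20.gp_iff.1 (nuEq h hM k E)
    refine ((h.whp (k.nt E _ F (half_pos hc) hF)).and b).mono
      ((sub_dl a (half_pos hc)).mono fun n e v _ u w => u.1 ⟨w.1, w.2.trans_le ?_⟩)
    have h2 := dl_pos M (c / 2) n
    refine (mul_le_mul_of_nonneg_left ((u.2 _ (hF _ _ _)).2.trans (mul_le_mul_of_nonneg_right e
      (A1.nu_nonneg _ _))) (dl_pos _ _ _).le).trans_eq ?_
    rw [← mul_assoc, dl_half M c, mul_inv_cancel_right₀ h2.ne']

end Pool.Agent.MP_5168f5_an.AN
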