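import Pool.Agent.MP_5168f5_an.AN.S20Full
import Pool.Agent.MP_5168f5_an.AN.PAll

/-! Kakeya sets in all dimensions: long axes give full coordinates. -/

namespace Pool.Agent.MP_5168f5_an.AN.S20

open H19 H17S H17F R4 Filter G39 MvPolynomial
open Pk (cn kc)

theorem eval_lin {k : ℕ} (F : Nc.Pl k) (hF : F.totalDegree ≤ 1) (h : V k) :
    eval h F = eval 0 F + ∑ b, coeff (Finsupp.single b 1) F * h b := by
  have e : F = C (coeff 0 F) + ∑ b, monomial (Finsupp.single b 1) (coeff (Finsupp.single b 1) F) := by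
    ext m
    rw [coeff_add, coeff_C, coeff_sum]
    simp only [coeff_monomial]
    by_cases h0 : 0 = m
    · subst h0
      simp
    · rw [if_neg h0, zero_add]
      by_cases h1 : ∃ b, m = Finsupp.single b 1
      · obtain ⟨b, rfl⟩ := h1
        simp [Finsupp.single_left_inj]
      · rw [Finset.sum_eq_zero fun b _ => if_neg fun e => h1 ⟨b, e.symm⟩]
        by_contra c
        have h2 := (le_totalDegree (mem_support_iff.2 c)).trans hF
        rcases Nat.le_one_iff_eq_zero_or_eq_one.1 h2 with h3 | h3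
        · exact h0 ((Finsupp.degree_eq_zero_iff m).1 h3).symm
        · exact h1 ((Finsupp.sum_eq_one_iff m).1 h3)
  have e0 : eval 0 F = coeff 0 F := by simp [constantCoeff_eq]
  rw [e0]
  conv_lhs => rw [e]
  simp [eval_monomial]

/-- The bound for the inverse of a matrix. -/
noncomputable def Bm (m : ℕ) (Γ : ℝ) : ℝ := (m * m.factorial + 1) * Γ ^ (m + 1)

theorem inv_bound {m : ℕ} (A : Matrix (Fin m) (Fin m) ℝ) {Γ θ : ℝ} (hΓ : 1 ≤ Γ) (h0 : 0 ≤ θ)
    (hA : ∀ a b, |A a b| ≤ Γ) (hd : Γ⁻¹ ≤ |A.det|) (h : V m) (e : ∀ a, |A.mulVec h a| ≤ θ)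
    (b : Fin m) : |h b| ≤ Bm m Γ * θ := by
  have h1 : A.adjugate.mulVec (A.mulVec h) = A.det • h := by
    rw [Matrix.mulVec_mulVec, Matrix.adjugate_mul, Matrix.smul_mulVec, Matrix.one_mulVec]
  have h2 : ∀ i j, |A.adjugate i j| ≤ m.factorial * Γ ^ m := fun i j => by
    rw [Matrix.adjugate_apply]
    simpa using Matrix.det_le (abv := AbsoluteValue.abs) (x := Γ)
      (A := A.updateRow j (Pi.single i 1)) fun a b => by
        rw [Matrix.updateRow_apply]
        split_ifs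
        · rw [Pi.single_apply]
          split_ifs <;> simp [hΓ, zero_le_one.trans hΓ]
        · exact hA a b
  have h3 := abs_mulVec_le h2 e b
  rw [h1, Pi.smul_apply, smul_eq_mul, abs_mul, Fintype.card_fin] at h3
  have h4 := (mul_le_mul_of_nonneg_right hd (abs_nonneg (h b))).trans h3
  rw [inv_mul_le_iff₀ (by positivity)] at h4
  refine h4.trans ?_
  unfold Bm
  have : 0 ≤ Γ ^ (m + 1) * θ := by positivity
  rw [pow_succ] at this ⊢
  nlinarith

theorem one_le_Bm (m : ℕ) {Γ : ℝ} (hΓ : 1 ≤ Γ) : 1 ≤ Bm m Γ :=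
  one_le_mul_of_one_le_of_one_le (le_add_of_nonneg_left (by positivity)) (one_le_pow₀ hΓ)

/-- The long coordinates and the other parameters locate the parameter. -/
theorem loc {k N m : ℕ} (τ : Fin N → Nc.Pl k) (r : Fin m → Fin N) {c : Fin m → Fin k}
    (hc : Function.Injective c) {Γ ε : ℝ} (hΓ : 1 ≤ Γ) (hε : 0 ≤ ε)
    (hτ : ∀ i, (τ i).totalDegree ≤ 1 ∧ cn (τ i) ≤ Γ)
    (hd : Γ⁻¹ ≤ |(Matrix.of fun a b => coeff (Finsupp.single (c b) 1) (τ (r a))).det|)
    (h : V k) (d : V N) (e1 : ‖d - (Nc.ev τ h - Nc.ev τ 0)‖ ≤ Γ * ‖h‖ ^ 2)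
    (e2 : ∀ a, |d (r a)| ≤ ε)
    (e3 : ∀ b, b ∉ Finset.univ.image c → |h b| ≤ ε) (e4 : 2 * Bm m Γ * Γ * ‖h‖ ≤ 1) :
    ‖h‖ ≤ 2 * Bm m Γ * (2 + k * Γ) * ε := by
  have hL : ∀ i b, |coeff (Finsupp.single b 1) (τ i)| ≤ Γ := fun i b =>
    (kc.coeff _ _).trans (hτ i).2
  have b1 := one_le_Bm m hΓ
  have t0 : 0 ≤ ε + Γ * ‖h‖ ^ 2 + k * (Γ * ε) := by positivity
  have key := inv_bound _ hΓ t0 (fun a b => hL _ _) hd (fun b => h (c b)) fun a => by
    have h1 := (norm_le_pi_norm _ (r a)).trans e1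
    simp only [Pi.sub_apply, Nc.ev, Real.norm_eq_abs] at h1
    rw [eval_lin _ (hτ _).1 h, add_sub_cancel_left,
      ← Finset.sum_add_sum_compl (Finset.univ.image c),
      Finset.sum_image fun _ _ _ _ e => hc e] at h1
    have h2 : |∑ b ∈ (Finset.univ.image c)ᶜ, coeff (Finsupp.single b 1) (τ (r a)) * h b| ≤
        k * (Γ * ε) := by
      refine (Finset.abs_sum_le_sum_abs _ _).trans ((Finset.sum_le_card_nsmul _ _ (Γ * ε)
        fun b hb => ?_).trans ?_)
      · rw [abs_mul]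
        exact mul_le_mul (hL _ _) (e3 b (Finset.mem_compl.1 hb)) (abs_nonneg _) (by positivity)
      · rw [nsmul_eq_mul]
        refine mul_le_mul_of_nonneg_right ?_ (by positivity)
        exact_mod_cast (Finset.card_le_univ _).trans (by simp)
    simp only [Matrix.mulVec, dotProduct]
    have h3 := e2 a
    rw [abs_le] at h1 h2 h3 ⊢
    constructor <;> linarith [h1.1, h1.2, h2.1, h2.2, h3.1, h3.2]
  have h5 : ‖h‖ ≤ Bm m Γ * (ε + Γ * ‖h‖ ^ 2 + k * (Γ * ε)) + ε := by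
    refine (pi_norm_le_iff_of_nonneg (by positivity)).2 fun b => ?_
    by_cases hb : b ∈ Finset.univ.image c
    · obtain ⟨b, -, rfl⟩ := Finset.mem_image.1 hb
      exact (key b).trans (le_add_of_nonneg_right hε)
    · exact (e3 b hb).trans (le_add_of_nonneg_left (by positivity))
  nlinarith [mul_le_mul_of_nonneg_right e4 (norm_nonneg h), mul_le_mul_of_nonneg_right b1 hε]

variable {Ω β : ℕ → Type} {N k m C : ℕ} {P : ∀ n, FP (Ω n)} {M : ℕ → ℕ} {E : ∀ n, Ω n → Prop}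

theorem ev_choice {A : ℕ → Sort*} [∀ n, Nonempty (A n)] {p : ∀ n, A n → Prop}
    (h : ∀ᶠ n in UF, ∃ a, p n a) : ∃ a : ∀ n, A n, ∀ᶠ n in UF, p n (a n) :=
  ⟨fun n => Classical.epsilon (p n), h.mono fun _ k => Classical.epsilon_spec k⟩

theorem whp_not (h : ¬Pos P E) : Whp P fun n ω => ¬E n ω := by_contra fun k =>
  h ((not_whp k).mono (Eventually.of_forall fun _ _ _ => not_not.1))

theorem pos_ex {J : Type} [Finite J] {E : J → ∀ n, Ω n → Prop}
    (h : Pos P fun n ω => ∃ j, E j n ω) : ∃ j, Pos P (E j) := by_contra fun k =>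
  h.not_whp ((Whp.all fun j => whp_not fun e => k ⟨j, e⟩).mono
    (Eventually.of_forall fun _ _ _ => not_exists.2))

theorem gp_cE {q : ∀ n, Ω n → ℝ → Prop} (h : Gp P M q) (hE : Pos P E) :
    Gp (fun n => cE (P n) (E n)) M q :=
  let ⟨Γ, a, b⟩ := gp_iff.1 h
  gp_iff.2 ⟨Γ, a, b.cE hE⟩

theorem sub_level {Γ : ℕ → ℝ} (hM : Big M) (h : Sub M Γ) :
    ∃ s : ℕ → ℕ, (∀ n, Γ n ≤ 2 ^ s n) ∧ Sub M fun n => 2 ^ s n := by
  choose s h1 h2 using fun n => exists_nat_pow_near (h.1 n) one_lt_two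
  exact ⟨fun n => s n + 1, fun n => (h2 n).le, (h.const_mul hM one_le_two).mono
    (fun n => one_le_pow₀ one_le_two) (Eventually.of_forall fun n => by
      rw [pow_succ]; linarith [h1 n])⟩

theorem fs_sub {α : ℕ → Type} {Y : ∀ n, Ω n → α n} {A : ∀ n, Ω n → β n} {v : ℕ → ℝ}
    (h : FS P M Y A fun n _ => v n) (hv : Sub M v) : FS P M Y A fun _ _ => 1 :=
  let ⟨G, _, a, b, c⟩ := h
  ⟨G, _, a, b.mul hv, c.mono fun _ c ω hω g => (c ω hω g).imp fun _ t =>
    ⟨t.1.trans_eq (mul_one _).symm, t.2⟩⟩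

theorem sub_Bm {Γ : ℕ → ℝ} (hM : Big M) (h : Sub M Γ) (m : ℕ) : Sub M fun n => Bm m (Γ n) :=
  (h.pow _).const_mul hM (le_add_of_nonneg_left (by positivity))

/-- On an event of bounded below probability, `m` coordinates are full given the label. -/
theorem lf {x : ∀ n, Ω n → V N} {κ : ∀ n, Kd k (Ω n)} (hM : Big M) (h : Kind P M x κ C m) :
    ∃ E, Pos P E ∧ ∃ e : Fin m → Fin N, Function.Injective e ∧
      Full (fun n => cE (P n) (E n)) M (fun n ω i => x n ω (e i)) fun n => (κ n).Z := by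
  classical
  obtain ⟨G, Γ, a, b, w⟩ := h.wh 0
  obtain ⟨τ, w⟩ := ev_choice w
  obtain ⟨⟨r, c⟩, hE⟩ := pos_ex (E := fun (j : (Fin m → Fin N) × (Fin m → Fin k)) n ω =>
    G n ω ∧ (Γ n)⁻¹ ≤ |(Matrix.of fun a b =>
      coeff (Finsupp.single (j.2 b) 1) (τ n ω (j.1 a))).det|)
    (a.pos.mono (w.mono fun n w ω hω g => let ⟨r, c, e⟩ := (w ω hω g).2.1; ⟨(r, c), g, e⟩))
  obtain ⟨n₀, ω₀, -, -, d₀⟩ := hE.ex.exists
  have d1 := abs_pos.1 ((inv_pos.2 (b.pos n₀)).trans_le d₀)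
  have hr : Function.Injective r := fun i i' e => by_contra fun ne =>
    d1 (Matrix.det_zero_of_row_eq ne (funext fun l => by simp [e]))
  have hc : Function.Injective c := fun i i' e => by_contra fun ne =>
    d1 (Matrix.det_zero_of_column_eq ne fun l => by simp [e])
  have le : m ≤ k := by simpa using Fintype.card_le_of_injective c hc
  have cd : (Finset.univ.image c)ᶜ.card = k - m := by
    rw [Finset.card_compl, Finset.card_image_of_injective _ hc]
    simp
  refine ⟨_, hE, r, hr, fun K => ?_⟩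
  obtain ⟨s, s1, s2⟩ := sub_level hM (((sub_Bm hM b m).const_mul hM one_le_two).mul b)
  have bd := gp_cE h.bd hE
  have h3 := (fullAt_iff hM).1 (full_side' hM (full_side hM (full_cE hM (h.den K) hE)
    (gp_cE h.few hE)) (fs_sub (fs_bdd hM bd _ s) (s2.pow k)))
  obtain ⟨G', Γ', a', b', w'⟩ := bd
  refine full_ctx hM ((fullAt_iff hM).2 ((h3.cover hM (fnE_const _) (fs_fn
    (v := fun n => (2 ^ (K * M n)) ^ (k - m) * 1 ^ k) (fun n => by positivity) (fs_pair
      (Y := fun n ω => fl (K * M n) fun i => if i ∈ Finset.univ.image c then 0 else (κ n).p ω i)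
      (fun n => by positivity) (fun n => by positivity)
      (fs_of_few ⟨G', _, a', (b'.const_mul hM (C := 10) (by norm_num)).pow (k - m),
        w'.mono fun n w' => ?_⟩)
      (fs_near (r := fun _ => 1) hM (by simp) ⟨fun _ _ => True, _, Whp.of_ev (by simp),
        ((sub_Bm hM b m).const_mul hM one_le_two).mul ((hM.sub one_le_two).add
          (b.const_mul hM (C := k + 1) (by simp)) hM), ?_⟩)) fnE_rfl
      (Eventually.of_forall fun _ _ _ _ _ e => congrArg (·.1.2) e))).le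
    (Eventually.of_forall fun n _ _ => le_of_eq ?_)))
    (Eventually.of_forall fun _ _ _ _ _ e => congrArg (·.2.2) e)
  · refine (few_fl (Finset.univ.image c)ᶜ (B := 2 * Γ' n * 2 ^ (K * M n)) ?_
      fun u hu v hv d d' _ i => ⟨?_, fun hi => ?_⟩).mono (fun _ _ k => k) (le_of_eq ?_)
    · nlinarith [b'.1 n, one_le_pow₀ (one_le_two (α := ℝ)) (n := K * M n)]
    · rw [mul_div_cancel_right₀ _ (by positivity)]
      split_ifs
      · simpa using (b'.pos n).le
      · refine (abs_sub _ _).trans ?_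
        linarith [(norm_le_pi_norm _ i).trans (w' u hu d), (norm_le_pi_norm _ i).trans (w' v hv d'),
          Real.norm_eq_abs ((κ n).p u i), Real.norm_eq_abs ((κ n).p v i)]
    · simp only [if_pos (not_not.1 (mt Finset.mem_compl.2 hi))]
    · rw [cd, ← mul_pow]
      ring
  · filter_upwards [w, hE.sure] with n w t u hu v hv _ _ e
    simp only [Prod.mk.injEq] at e
    obtain ⟨e1, e2, e3, e4, e5⟩ := e
    obtain ⟨u1, u2, -⟩ := t u hu
    obtain ⟨v1, v2, v3⟩ := t v hv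
    obtain ⟨w1, -, w2⟩ := w v v1 v2
    have z := w2 v v1 v2 rfl rfl
    simp only [sub_self, norm_zero, ne_eq, OfNat.ofNat_ne_zero, not_false_eq_true, zero_add,
      zero_pow, mul_zero, norm_le_zero_iff, sub_eq_zero] at z
    have b1 := one_le_Bm m (b.1 n)
    have g1 := b.pos n
    refine (loc (τ n v) r hc (b.1 n) (ε := ((2 : ℝ) ^ (K * M n))⁻¹) (by positivity) w1 v3 _
      (x n u - x n v) ?_ (fun i => (abs_sub_lt_of_fl1_eq (congrFun e2 i)).le) (fun i hi => ?_)
      ?_).trans ?_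
    · rw [← z, sub_sub_sub_cancel_right]
      exact w2 u u1 u2 e5 e4
    · have := abs_sub_lt_of_fl1_eq (congrFun e1 i)
      simp only [if_neg hi] at this
      exact this.le
    · refine (mul_le_mul (s1 n) (norm_sub_lt_of_fl_eq e3).le (norm_nonneg _)
        (by positivity)).trans_eq (mul_inv_cancel₀ (by positivity))
    · rw [mul_one, div_eq_mul_inv]
      gcongr
      linarith
  · obtain ⟨d, rfl⟩ := Nat.exists_eq_add_of_le le
    simp only [cvol, Nat.add_sub_cancel_left, pow_add, one_pow]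
    field_simp

/-- A permutation of the coordinates. -/
theorem full_perm {y : ∀ n, Ω n → V N} {A : ∀ n, Ω n → β n} {j : ℕ → ℕ} (hM : Big M)
    {e : Fin N → Fin N} (h : FullAt P M (fun n ω i => y n ω (e i)) A j) : FullAt P M y A j :=
  (fullAt_iff hM).2 (((fullAt_iff hM).1 h).fine fnE_rfl fnE_rfl
    (Eventually.of_forall fun _ _ _ _ _ k => funext fun i =>
      congrFun (congrArg Prod.fst k) (e i)))

/-- Fullness can be checked inside events of bounded below probability. -/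
theorem full_of_pos {y : ∀ n, Ω n → V N} {A : ∀ n, Ω n → β n} {j : ℕ → ℕ} (hM : Big M)
    (h : ∀ E, Pos P E → ∃ E', Pos (fun n => cE (P n) (E n)) E' ∧
      FullAt (fun n => cE (cE (P n) (E n)) (E' n)) M y A j) : FullAt P M y A j := by
  by_contra k
  obtain ⟨η, hη, E, e1, e2⟩ := not_full hM k
  obtain ⟨E', -, e3⟩ := h E e1
  exact not_poor hM e3 hη (poor_cE e2 E')

/-- The inequality of Remez survives conditioning. -/
theorem rem_cE {x : ∀ n, Ω n → V N} {Z : ∀ n, Ω n → β n} {K K' : ℝ} (hM : Big M)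
    (h : REM P x M Z C K') (hK : K < K') (hE : Pos P E) :
    REM (fun n => cE (P n) (E n)) x M Z C K := fun D => by
  obtain ⟨G, Γ, a, b, c⟩ := h D
  obtain ⟨L, l1, l2⟩ := sub_slow hM
  refine ⟨_, _, (a.cE hE).and (whp_ctx hE Z l2), b.mul (l1.pow (C * D)), ?_⟩
  filter_upwards [c, hE.sure, sub_dl l1 (sub_pos.2 hK)] with n c s l ω hω g f hf θ κ k1 k2
  have l0 := l1.pos n
  have k0 := (dl_pos M K n).trans_le k1
  have h1 := pb_cv_cE (s ω hω).1 (s ω hω).2 (Z n) fun v => (G n v ∧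
    (L n)⁻¹ ≤ pb (cv (P n) (Z n) (Z n v)) (E n)) ∧ |f v| ≤ θ
  obtain ⟨v, -, -, hv⟩ := ex_of_pb (k0.trans_le k2)
  refine (c ω (s ω hω).1 g.1 f hf θ ((L n)⁻¹ * κ) ?_ ((mul_le_mul g.2 k2 k0.le
    (pb_nonneg _ _)).trans (h1.trans_le (pb_mono fun _ _ e => ⟨e.2.1.1, e.2.2⟩)))).trans_eq ?_
  · rw [show K' = K' - K + K by ring, dl_add]
    exact mul_le_mul (le_inv_of_le_inv₀ l0 l) k1 (dl_pos _ _ _).le (inv_pos.2 l0).le
  · rw [mul_inv, inv_inv, mul_pow]
    ring

/-- Kinds survive conditioning. -/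
theorem kind_cE {x : ∀ n, Ω n → V N} {κ : ∀ n, Kd k (Ω n)} (hM : Big M) (h : Kind P M x κ C m)
    (hE : Pos P E) : Kind (fun n => cE (P n) (E n)) M x κ C m where
  bd := gp_cE h.bd hE
  few := gp_cE h.few hE
  rem K := rem_cE hM (h.rem (K + 1)) (by simp) hE
  den K := full_cE hM (h.den K) hE
  wh j :=
    let ⟨G, Γ, a, b, c⟩ := h.wh j
    ⟨G, Γ, a.cE hE, b, c.mono fun _ ⟨τ, t⟩ => ⟨τ, fun ω hω g =>
      ⟨(t ω (cE_sub hω) g).1, (t ω (cE_sub hω) g).2.1,
        fun v hv => (t ω (cE_sub hω) g).2.2 v (cE_sub hv)⟩⟩⟩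

theorem kind_le {x : ∀ n, Ω n → V N} {κ : ∀ n, Kd k (Ω n)} (hM : Big M) (h : Kind P M x κ C m) :
    m ≤ N :=
  let ⟨_, _, e, he, _⟩ := lf hM h
  by simpa using Fintype.card_le_of_injective e he

/-- All axes are long. -/
theorem lf_top {x : ∀ n, Ω n → V N} {κ : ∀ n, Kd k (Ω n)} (hM : Big M) (h : Kind P M x κ C N) :
    Full P M x fun n => (κ n).Z := fun K => full_of_pos hM fun _ hE =>
  let ⟨E', a, _, _, c⟩ := lf hM (kind_cE hM h hE)
  ⟨E', a, full_perm hM (c K)⟩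

/-- The base case of the induction. -/
theorem thm_top (N mm : ℕ) (h : 2 * N ≤ mm + 1) : THM N mm := by
  intro Ω Λ k m C P M x s A h1 h2 _ h3 K
  obtain ⟨b, e⟩ : ∃ b, m b = N := by
    have h4 := kind_le h2.big (h2.kd true)
    have h5 := kind_le h2.big (h2.kd false)
    by_cases c : m true = N
    · exact ⟨true, c⟩
    · exact ⟨false, by omega⟩
  exact full_ctx h2.big (lf_top h2.big (e ▸ h2.kd b) K) (h3 b)

end Pool.Agent.MP_5168f5_an.AN.S20
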