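import Pool.Agent.MP_5168f5_an.AN.Spec
import Pool.Agent.MP_5168f5_an.AN.S20LF

/-! Kakeya sets in all dimensions: the double induction. -/

namespace Pool.Agent.MP_5168f5_an.AN

theorem ind (L : Long1) (step : ∀ d mm, 1 ≤ mm → Low (d + 1) → THM (d + 1) (mm + 1) →
    THM (d + 1) mm) (N : ℕ) : THM N 0 := by
  induction N using Nat.strong_induction_on with
  | _ N ih =>
    cases N with
    | zero => exact S20.thm_top 0 0 (by omega)
    | succ d =>
      have a : ∀ i mm, 1 ≤ mm → 2 * (d + 1) ≤ mm + 1 + i → THM (d + 1) mm := fun i => by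
        induction i with
        | zero => exact fun mm _ e => S20.thm_top _ mm e
        | succ i h => exact fun mm o e => step d mm o ih (h _ (by omega) (by omega))
      exact L d (a (2 * d) 1 le_rfl (by omega))

end Pool.Agent.MP_5168f5_an.AN
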