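import Pool.Agent.MP_5168f5_an.AN.G39Defs

/-! Overlap of typical sets and rounding. -/

namespace Pool.Agent.MP_5168f5_an.AN.G39

open H19 H17S H17F Filter

namespace G39OvlA

theorem ex_ge {Ω : Type} (P : FP Ω) (F : Ω → ℝ) (h : P.S.Nonempty) : ∃ ω ∈ P.S, P.E F ≤ F ω := by
  obtain ⟨ω, h1, h2⟩ := P.S.exists_max_image F h
  exact ⟨ω, h1, (P.E_mono h2).trans_eq (P.E_const _)⟩

theorem half {a b : ℝ} (h : |a - b| ≤ 1 / 4) (h' : ⌊a⌋ < ⌊b⌋) : ⌊a + 1 / 2⌋ = ⌊b + 1 / 2⌋ := by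
  have h1 : (⌊a⌋ : ℝ) + 1 ≤ ⌊b⌋ := by exact_mod_cast h'
  have h2 := Int.lt_floor_add_one a
  have h3 := Int.floor_le b
  obtain ⟨h4, -⟩ := abs_le.1 h
  rw [Int.floor_eq_iff.2 (⟨by linarith, by linarith⟩ : ((⌊b⌋ : ℤ) : ℝ) ≤ a + 1 / 2 ∧ _),
    Int.floor_eq_iff.2 (⟨by linarith, by linarith⟩ : ((⌊b⌋ : ℤ) : ℝ) ≤ b + 1 / 2 ∧ _)]

theorem half' {a b : ℝ} (h : |a - b| ≤ 1 / 4) (h' : ⌊a⌋ ≠ ⌊b⌋) : ⌊a + 1 / 2⌋ = ⌊b + 1 / 2⌋ :=
  h'.lt_or_gt.elim (half h) fun c => (half (by rwa [abs_sub_comm]) c).symm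

theorem near {s u c : ℝ} (hs : 0 < s) (h0 : 0 ≤ c) (h1 : c ≤ 1) :
    |4 * s * (⌊u / (4 * s) + c⌋ : ℝ) - u| ≤ 4 * s := by
  have h2 := Int.lt_floor_add_one (u / (4 * s) + c)
  have h3 := Int.floor_le (u / (4 * s) + c)
  have h4 : u = 4 * s * (u / (4 * s)) := by field_simp
  generalize u / (4 * s) = y at h2 h3 h4
  rw [h4, abs_le]
  constructor <;> nlinarith

end G39OvlA

open G39OvlA Classical in
theorem rOvl : Ovl := by
  intro Ω T Q μ g S κ hκ hS hg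
  obtain ⟨I, hI⟩ : ∃ I : Ω → T → ℝ, ∀ w t, I w t = if S w t then 1 else 0 := ⟨_, fun _ _ => rfl⟩
  obtain ⟨q, hq⟩ : ∃ q : T → ℝ, ∀ t, q t = (cE Q g).E fun w => I w t := ⟨_, fun _ => rfl⟩
  have h1 : ∀ w w', pb μ (fun t => S w t ∧ S w' t) = μ.E fun t => I w' t * I w t := fun w w' =>
    μ.E_congr fun t _ => by
      rw [hI, hI]
      by_cases a : S w t <;> by_cases b : S w' t <;> simp [a, b]
  have h2 : κ ≤ μ.E q := by
    rw [μ.E_congr fun t _ => hq t, KGA.E_swap, ← (cE Q g).E_const κ]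
    refine (cE Q g).E_mono fun w hw => ?_
    obtain ⟨a, b⟩ := (mem_cE hg w).1 hw
    exact (hS w a b).trans_eq (μ.E_congr fun t _ => (hI w t).symm)
  have h3 : ((cE Q g).E fun w' => (cE Q g).E fun w => pb μ fun t => S w t ∧ S w' t)
      = μ.E fun t => q t * q t := by
    have e : ∀ w', ((cE Q g).E fun w => pb μ fun t => S w t ∧ S w' t)
        = μ.E fun t => q t * I w' t := fun w' => by
      rw [(cE Q g).E_congr fun w _ => h1 w w', KGA.E_swap]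
      exact μ.E_congr fun t _ => by rw [FP.E_mul, ← hq, mul_comm]
    rw [(cE Q g).E_congr fun w' _ => e w', KGA.E_swap]
    exact μ.E_congr fun t _ => by rw [FP.E_mul, ← hq]
  have h4 : κ ^ 2 ≤ μ.E fun t => q t * q t := by
    have := μ.E_mono (F := fun t => 2 * κ * q t - κ ^ 2) (G := fun t => q t * q t)
      fun t _ => by nlinarith [sq_nonneg (q t - κ)]
    rw [FP.E_sub, FP.E_mul, FP.E_const] at this
    nlinarith
  obtain ⟨w', hw', h5⟩ := ex_ge (cE Q g) (fun w' => (cE Q g).E fun w => pb μ fun t => S w t ∧ S w' t)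
    (hg.imp fun w hw => (mem_cE hg w).2 hw)
  obtain ⟨a, b⟩ := (mem_cE hg w').1 hw'
  refine ⟨w', a, b, ?_⟩
  rw [← pb_cE, mul_comm]
  refine mul_le_mul_of_nonneg_left ?_ (pb_nonneg _ _)
  have h6 := (cE Q g).E_mono (F := fun w => pb μ fun t => S w t ∧ S w' t)
    (G := fun w => κ ^ 2 / 2 + if κ ^ 2 / 2 ≤ pb μ fun t => S w t ∧ S w' t then 1 else 0)
    fun w _ => by
      have := pb_le_one μ fun t => S w t ∧ S w' t
      split_ifs with c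
      · nlinarith [sq_nonneg κ]
      · linarith [not_le.1 c]
  rw [FP.E_add, FP.E_const] at h6
  have h7 : pb (cE Q g) (fun w => κ ^ 2 / 2 ≤ pb μ fun t => S w t ∧ S w' t) =
      (cE Q g).E fun w => if κ ^ 2 / 2 ≤ pb μ fun t => S w t ∧ S w' t then 1 else 0 :=
    (cE Q g).E_congr fun w _ => by split_ifs <;> rfl
  linarith

open G39OvlA Classical in
theorem rRnd : Rnd := by
  intro Ω β β' P Z Z' J T u u' s A hs h
  obtain ⟨sg, κ, hκ, h1⟩ := R4.ks.pig P _ (fun n ω (j : T) =>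
    ⌊u n (Z n ω) j / (4 * s n)⌋ = ⌊u' n (Z' n ω) j / (4 * s n)⌋) h
  obtain ⟨c, c0, c1, hc⟩ : ∃ c : J → ℝ, (∀ j, 0 ≤ c j) ∧ (∀ j, c j ≤ 1) ∧
      ∀ j : T, c j = if sg j then 0 else 1 / 2 :=
    ⟨fun j => if ∀ h : j ∈ T, sg ⟨j, h⟩ then 0 else 1 / 2, fun j => by
      beta_reduce
      split_ifs <;> norm_num, fun j => by
      beta_reduce
      split_ifs <;> norm_num, fun j => by simp⟩
  refine ⟨fun n z j => 4 * s n * (⌊u n z j / (4 * s n) + c j⌋ : ℝ),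
    fun n z j => 4 * s n * (⌊u' n z j / (4 * s n) + c j⌋ : ℝ),
    fun n z j => near (hs n) (c0 j) (c1 j), κ, hκ, h1.mono fun n hn => hn.trans ?_⟩
  refine pb_mono fun ω _ ⟨⟨a, b⟩, e⟩ => ⟨a, fun j hj => ?_⟩
  have e1 := congrFun e ⟨j, hj⟩
  have e2 := hc ⟨j, hj⟩
  beta_reduce at e1 e2 ⊢
  congr 2
  rw [e2, ← e1]
  split_ifs with d
  · simpa using d
  · refine half' ?_ d
    have := hs n
    rw [← sub_div, abs_div, abs_of_pos (by positivity : 0 < 4 * s n), div_le_iff₀ (by positivity)]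
    linarith [b j hj]

end Pool.Agent.MP_5168f5_an.AN.G39
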