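import Pool.Agent.MP_5168f5_an.AN.PZm
import Pool.Agent.MP_5168f5_an.AN.Spec
import Pool.Agent.MP_5168f5_an.AN.G39Ovl
import Pool.Agent.MP_5168f5_an.AN.NcJac

/-! Some axis is long. -/

namespace Pool.Agent.MP_5168f5_an.AN

open H19 H17S H17F R4 Filter MvPolynomial S20
open G39 (dl dl_pos dl_inv dl_half dl_anti dl_lt sub_dl)
open Pk (cn kc pc_mark pc_mass)
open Nc (Pl ev)

namespace Lg

variable {N k : ℕ}

/-- The polynomial `F (z - a)`. -/
noncomputable def sh (a : V k) (F : Pl k) : Pl k := aeval (fun i => X i - C (a i)) F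

theorem eval_sh (a z : V k) (F : Pl k) : eval z (sh a F) = eval (z - a) F := by
  rw [sh, Pk.eval_aeval]; congr 2; funext i; simp

theorem deg_sh (a : V k) {F : Pl k} {E : ℕ} (h : F.totalDegree ≤ E) : (sh a F).totalDegree ≤ E :=
  (kc.deg _ F E 1 h fun i => (totalDegree_sub _ _).trans (by simp)).trans_eq (mul_one E)

theorem der_sh (a : V k) (F : Pl k) (b : Fin k) : pderiv b (sh a F) = sh a (pderiv b F) := by
  rw [sh, Nc.pderiv_aeval, Finset.sum_eq_single b]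
  · simp [sh]
  · intro i _ h; simp [pderiv_X, h]
  · simp

theorem lin_sh (a : V k) (F : Pl k) (b : Fin k) :
    eval a (pderiv b (sh a F)) = coeff (Finsupp.single b 1) F := by
  rw [der_sh, eval_sh, sub_self, eval_zero, constantCoeff_eq, coeff_pderiv]; simp

theorem mvt (F : Pl k) {a z : V k} {B r : ℝ} (h0 : 0 ≤ B)
    (h : ∀ w, ‖w - a‖ ≤ r → ∀ i, |eval w (pderiv i F)| ≤ B) (hz : ‖z - a‖ ≤ r) :
    |eval z F - eval a F| ≤ k * B * r := by
  have r0 := (norm_nonneg _).trans hz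
  have := (convex_closedBall a r).norm_image_sub_le_of_norm_hasFDerivWithin_le (C := k * B)
    (fun w _ => (Nc.hasFDerivAt_ev (fun _ : Fin 1 => F) w).hasFDerivWithinAt)
    (fun w hw => ContinuousLinearMap.opNorm_le_bound _ (by positivity) fun v =>
      (pi_norm_le_iff_of_nonneg (by positivity)).2 fun i => by
        rw [Nc.dev_apply]
        refine (Finset.abs_sum_le_sum_abs _ _).trans ((Finset.sum_le_card_nsmul _ _ (B * ‖v‖)
          fun j _ => ?_).trans_eq (by simp [mul_assoc]))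
        rw [abs_mul]
        exact mul_le_mul (h w (mem_closedBall_iff_norm.1 hw) j) (norm_le_pi_norm v j)
          (abs_nonneg _) h0)
    (Metric.mem_closedBall_self r0) (mem_closedBall_iff_norm.2 hz)
  exact (norm_le_pi_norm (ev (fun _ : Fin 1 => F) z - ev (fun _ : Fin 1 => F) a) 0).trans
    (this.trans (by gcongr))

/-- Jets of order `j + 1`. -/
def Jt {Ω : Type} (κ : Kd k Ω) (P : FP Ω) (x : Ω → V N) (j : ℕ) (τ : Ω → Fin N → Pl k)
    (G : Ω → Prop) (Γ : ℝ) : Prop :=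
  ∀ ω ∈ P.S, G ω → (∀ i, (τ ω i).totalDegree ≤ j + 1) ∧
    ∀ v ∈ P.S, G v → κ.Z v = κ.Z ω → κ.W v = κ.W ω →
      ‖x v - ev (τ ω) (κ.p v - κ.p ω)‖ ≤ Γ * ‖κ.p v - κ.p ω‖ ^ (j + 2)

theorem pc_near {Ω : Type} {κ : Kd k Ω} {t : ℕ} {v ω : Ω} (e : κ.pc t v = κ.pc t ω) :
    ‖κ.p v - κ.p ω‖ ≤ (2 ^ t)⁻¹ := (norm_sub_lt_of_fl_eq (congrArg (·.2.2) e)).le

theorem Jt.pc {Ω : Type} {κ : Kd k Ω} {P : FP Ω} {x : Ω → V N} {j t : ℕ} {τ : Ω → Fin N → Pl k}
    {G : Ω → Prop} {Γ : ℝ} (h : Jt κ P x j τ G Γ) (h0 : 0 ≤ Γ) {ω v : Ω} (hω : ω ∈ P.S) (g : G ω)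
    (hv : v ∈ P.S) (g' : G v) (e : κ.pc t v = κ.pc t ω) (i : Fin N) :
    |x v i - eval (κ.p v) (sh (κ.p ω) (τ ω i))| ≤ Γ * (2 ^ t)⁻¹ ^ (j + 2) := by
  rw [eval_sh]
  refine (norm_le_pi_norm (x v - ev (τ ω) (κ.p v - κ.p ω)) i).trans
    (((h ω hω g).2 v hv g' (congrArg (·.1) e) (congrArg (·.2.1) e)).trans ?_)
  gcongr
  exact pc_near e

variable {Ω : ℕ → Type} {P : ∀ n, FP (Ω n)} {M : ℕ → ℕ} {x : ∀ n, Ω n → V N}
  {κ : ∀ n, Kd k (Ω n)} {C m j j' : ℕ} {τ τ' : ∀ n, Ω n → Fin N → Pl k}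

theorem ex_jt (h : Kind P M x κ C m) (j : ℕ) : ∃ τ : ∀ n, Ω n → Fin N → Pl k,
    Gd P M fun n => Jt (κ n) (P n) (x n) j (τ n) := by
  obtain ⟨G, Γ, a, b, w⟩ := h.wh j
  obtain ⟨τ, w⟩ := ev_choice w
  exact ⟨τ, G, Γ, a, b, w.mono fun n w ω hω g => ⟨fun i => ((w ω hω g).1 i).1, (w ω hω g).2.2⟩⟩

theorem jt_cE (h : Gd P M fun n => Jt (κ n) (P n) (x n) j (τ n)) {E : ∀ n, Ω n → Prop}
    (hE : Pos P E) :
    Gd (fun n => cE (P n) (E n)) M fun n => Jt (κ n) (cE (P n) (E n)) (x n) j (τ n) :=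
  let ⟨G, Γ, a, b, w⟩ := h
  ⟨G, Γ, a.cE hE, b, w.mono fun _ w ω hω g =>
    ⟨(w ω (cE_sub hω) g).1, fun v hv => (w ω (cE_sub hω) g).2 v (cE_sub hv)⟩⟩

/-- The linear parts of two jets agree. -/
theorem jet_cmp (hM : Big M) (h : Kind P M x κ C m)
    (h1 : Gd P M fun n => Jt (κ n) (P n) (x n) j (τ n))
    (h2 : Gd P M fun n => Jt (κ n) (P n) (x n) j' (τ' n)) : Gp P M fun n ω Γ => ∀ i b,
      |coeff (Finsupp.single b 1) (τ n ω i) - coeff (Finsupp.single b 1) (τ' n ω i)| ≤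
        Γ * (2 ^ M n)⁻¹ := by
  obtain ⟨G, Γ, a, b, w⟩ := h1
  obtain ⟨G', Γ', a', b', w'⟩ := h2
  obtain ⟨L, l, u⟩ := gp_iff.1 (pc_mark (t := M) (R := 1) hM h.bd h.few h.den
    (Eventually.of_forall fun n => (one_mul _).ge) (a.and a') (j + 1 + (j' + 1)))
  refine gp_iff.2 ⟨_, l.mul (b.add b' hM), ((a.and a').and u).mono ?_⟩
  filter_upwards [w, w'] with n w w' ω hω g i c
  set r : ℝ := (2 ^ M n)⁻¹ with hr
  have r0 : 0 < r := by positivity
  have r1 : r ≤ 1 := inv_le_one_of_one_le₀ (one_le_pow₀ one_le_two)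
  have := (g.2 (sh ((κ n).p ω) (τ n ω i) - sh ((κ n).p ω) (τ' n ω i))
    ((totalDegree_sub _ _).trans (max_le ((deg_sh _ ((w ω hω g.1.1).1 i)).trans (by omega))
      ((deg_sh _ ((w' ω hω g.1.2).1 i)).trans (by omega)))) ((Γ n + Γ' n) * r ^ 2)
    (fun v hv gv e => by
      have k1 := abs_le.1 ((w.pc (b.pos n).le hω g.1.1 hv gv.1 e i).trans
        (mul_le_mul_of_nonneg_left (pow_le_pow_of_le_one r0.le r1 (by omega : 2 ≤ j + 2))
          (b.pos n).le))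
      have k2 := abs_le.1 ((w'.pc (b'.pos n).le hω g.1.2 hv gv.2 e i).trans
        (mul_le_mul_of_nonneg_left (pow_le_pow_of_le_one r0.le r1 (by omega : 2 ≤ j' + 2))
          (b'.pos n).le))
      rw [map_sub]
      exact abs_le.2 ⟨by linarith, by linarith⟩) ((κ n).p ω) (by simp [r0.le])).2 c
  rw [map_sub, map_sub, lin_sh, lin_sh] at this
  exact le_of_mul_le_mul_left (this.trans_eq (by ring)) r0

/-- If the linear parts are small then the point is almost a function of the label. -/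
theorem flat (hM : Big M) (h : Kind P M x κ C m) {c : ℝ} (hc : 0 < c) (hc1 : c ≤ 1)
    (h1 : Gd P M fun n => Jt (κ n) (P n) (x n) (k * C) (τ n))
    (h2 : Whp P fun n ω => ∀ i b, |coeff (Finsupp.single b 1) (τ n ω i)| ≤ dl M c n) :
    ∃ c' : ℝ, 0 < c' ∧ ∃ u : ∀ n, (κ n).T → V N,
      Whp P fun n ω => ∀ i, |u n ((κ n).Z ω) i - x n ω i| ≤ dl M c' n := by
  classical
  obtain ⟨G, Γ, a, b, w⟩ := h1
  set σ : ℝ := c / (2 * (k * C + 1)) with hσ
  have s0 : 0 < σ := by positivity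
  have s1 : σ * (k * C + 1) = c / 2 := by rw [hσ]; field_simp
  have s2 : σ ≤ c / 2 := by nlinarith [mul_nonneg s0.le (by positivity : (0 : ℝ) ≤ k * C)]
  have ht : ∀ᶠ n in UF, lev M σ n ≤ 1 * M n :=
    Eventually.of_forall fun n => (lev_le M (by linarith) n).trans (one_mul _).ge
  obtain ⟨L1, l1, u1⟩ := gp_iff.1 (pc_mark hM h.bd h.few h.den ht a (k * C + 1))
  obtain ⟨L2, l2, u2⟩ := gp_iff.1 (pc_mark hM h.bd h.few h.den ht ((a.and h2).and u1) (k * C + 1))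
  obtain ⟨G5, L5, a5, l5, u5⟩ := h.rem (k + 1) 1
  obtain ⟨L4, l4, u4⟩ := gp_iff.1 (pc_mass hM h.bd h.few (lev M σ) (a.and a5))
  have s := (l5.mul (l4.pow C)).mul (((b.mul l1).mul l2).const_mul hM (C := 4 + 5 * k)
    (by linarith [Nat.cast_nonneg (α := ℝ) k]))
  have g := (a.and u2).and (a5.and u4)
  revert g
  generalize hG : (fun n ω => _ : ∀ n, Ω n → Prop) = G'
  intro g
  refine ⟨σ / 2 / 2, by positivity, fun n z =>
    if e : ∃ ω ∈ (P n).S, G' n ω ∧ (κ n).Z ω = z then x n e.choose else 0, g.mono ?_⟩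
  filter_upwards [w, u5, sub_dl s (c := σ / 2 / 2) (by positivity), sub_dl l4 one_pos]
    with n w u5 b1 b2 ω' hω' g' i
  have ex : ∃ ω ∈ (P n).S, G' n ω ∧ (κ n).Z ω = (κ n).Z ω' := ⟨ω', hω', g', rfl⟩
  rw [dif_pos ex]
  obtain ⟨hω, g, eZ⟩ := ex.choose_spec
  generalize ex.choose = ω at *
  subst hG
  set q : ℝ := 2 ^ lev M σ n with hq
  have q1 : 1 ≤ q := one_le_pow₀ one_le_two
  have q0 : 0 < q := one_pos.trans_le q1
  have r0 : 0 < q⁻¹ := inv_pos.2 q0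
  have p := (b.pos n).le
  have p1 := (l1.pos n).le
  have p2 := (l2.pos n).le
  have p4 := l4.pos n
  have p5 := (l5.pos n).le
  have d0 := dl_pos M c n
  have q2 : q ≤ Real.exp (σ * M n) :=
    (two_pow_le_exp _).trans (Real.exp_le_exp.2 (lev_le' M s0.le n))
  have q3 : q⁻¹ ≤ 2 * dl M (σ / 2) n := by
    have k1 := exp_le_two_pow (lev M σ n + 1)
    have k2 : (dl M (σ / 2) n)⁻¹ ≤ Real.exp ((lev M σ n + 1 : ℕ) / 2) := by
      rw [dl_inv]; exact Real.exp_le_exp.2 (by push_cast; linarith [lt_lev M σ n])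
    have k3 := k2.trans k1
    rw [pow_succ, inv_le_iff_one_le_mul₀ (dl_pos _ _ _)] at k3
    rw [inv_le_iff_one_le_mul₀ q0]
    linarith
  have q4 : q ^ (k * C) * dl M c n ≤ dl M (σ / 2) n := by
    refine (mul_le_mul_of_nonneg_right (pow_le_pow_left₀ q0.le q2 _) d0.le).trans ?_
    rw [← Real.exp_nat_mul, dl, dl, ← Real.exp_add]
    refine Real.exp_le_exp.2 ?_
    push_cast
    nlinarith [Nat.cast_nonneg (α := ℝ) (M n), mul_nonneg s0.le (Nat.cast_nonneg (α := ℝ) (M n))]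
  have q5 : dl M (k + 1 : ℕ) n ≤ (L4 n * q ^ k)⁻¹ := by
    rw [le_inv_comm₀ (dl_pos _ _ _) (by positivity), dl_inv]
    rw [dl_inv] at b2
    refine (mul_le_mul b2 (pow_le_pow_left₀ q0.le q2 k) (by positivity) (by positivity)).trans ?_
    rw [← Real.exp_nat_mul, ← Real.exp_add]
    refine Real.exp_le_exp.2 ?_
    push_cast
    nlinarith [mul_nonneg (mul_nonneg (Nat.cast_nonneg (α := ℝ) k) (Nat.cast_nonneg (α := ℝ) (M n)))
      (by linarith : 0 ≤ 1 - σ)]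
  have hd := deg_sh ((κ n).p ω) ((w ω hω g.1.1).1 i)
  set T := sh ((κ n).p ω) (τ n ω i) with hT
  have k1 : ∀ z, ‖z - (κ n).p ω‖ ≤ q⁻¹ → ∀ l, |eval z (pderiv l T)| ≤
      L2 n * (dl M c n + 2 * (Γ n * L1 n) * q⁻¹ ^ (k * C + 1)) := fun z hz l =>
    (g.1.2 _ ((kc.der T _ l hd).2.trans (by omega)) _ (fun v hv gv e => by
      have k2 := (gv.2 (T - sh ((κ n).p v) (τ n v i)) ((totalDegree_sub _ _).trans
        (max_le hd (deg_sh _ ((w v hv gv.1.1).1 i)))) (2 * Γ n * q⁻¹ ^ (k * C + 2))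
        (fun y hy gy e' => by
          have k3 := abs_le.1 (w.pc p hω g.1.1 hy gy (e'.trans e) i)
          have k4 := abs_le.1 (w.pc p hv gv.1.1 hy gy e' i)
          rw [map_sub]
          exact abs_le.2 ⟨by linarith, by linarith⟩) ((κ n).p v) (by simp [r0.le])).2 l
      rw [map_sub, map_sub, lin_sh] at k2
      have k5 := abs_le.1 (le_of_mul_le_mul_left (k2.trans_eq (by ring :
        _ = q⁻¹ * (2 * (Γ n * L1 n) * q⁻¹ ^ (k * C + 1)))) r0)
      have k6 := abs_le.1 (gv.1.2 i l)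
      exact abs_le.2 ⟨by linarith, by linarith⟩) z (by linarith)).1
  have k7 := u5 ω' hω' g'.2.1 (fun v => x n v i - x n ω i)
    ⟨X i - MvPolynomial.C (x n ω i), (totalDegree_sub _ _).trans (by simp), fun _ => by simp⟩
    (2 * Γ n * q⁻¹ ^ (k * C + 2) +
      k * (L2 n * (dl M c n + 2 * (Γ n * L1 n) * q⁻¹ ^ (k * C + 1))) * q⁻¹) _ q5
    (by
      rw [← eZ]
      refine g.2.2.trans (pb_mono fun v hv y => ⟨y.1.2, ?_⟩)
      have k8 := abs_le.1 (mvt T (by positivity) k1 (pc_near y.2))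
      have k3 := abs_le.1 (w.pc p hω g.1.1 (cE_sub hv) y.1.1 y.2 i)
      have k4 := abs_le.1 (w.pc (t := lev M σ n) p hω g.1.1 hω g.1.1 rfl i)
      exact abs_le.2 ⟨by linarith, by linarith⟩)
  rw [abs_sub_comm]
  refine k7.trans ?_
  have e1 : q ^ (k * C) * q⁻¹ ^ (k * C) = 1 := by rw [← mul_pow, mul_inv_cancel₀ q0.ne', one_pow]
  have r1 : q⁻¹ ≤ 1 := inv_le_one_of_one_le₀ q1
  have d1 := dl_pos M (σ / 2 / 2) n
  have d2 := dl_pos M (σ / 2) n
  rw [← one_div, le_div_iff₀ d1] at b1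
  have e2 : q⁻¹ * q⁻¹ ≤ 2 * dl M (σ / 2) n := (mul_le_of_le_one_left r0.le r1).trans q3
  have e3 : q ^ (k * C) * dl M c n * q⁻¹ ≤ dl M (σ / 2) n :=
    (mul_le_of_le_one_right (by positivity) r1).trans q4
  have e4 : Γ n ≤ Γ n * L1 n * L2 n :=
    (le_mul_of_one_le_right p (l1.1 n)).trans (le_mul_of_one_le_right (by positivity) (l2.1 n))
  have e5 : L2 n ≤ Γ n * L1 n * L2 n :=
    le_mul_of_one_le_left p2 (one_le_mul_of_one_le_of_one_le (b.1 n) (l1.1 n))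
  calc _ = L5 n * L4 n ^ C * (2 * Γ n * (q ^ (k * C) * q⁻¹ ^ (k * C) * (q⁻¹ * q⁻¹)) +
        k * L2 n * (q ^ (k * C) * dl M c n * q⁻¹) +
        2 * k * (Γ n * L1 n * L2 n) * (q ^ (k * C) * q⁻¹ ^ (k * C) * (q⁻¹ * q⁻¹))) := by
        rw [inv_inv, mul_one, mul_pow, ← pow_mul]; ring
    _ ≤ L5 n * L4 n ^ C * (2 * (Γ n * L1 n * L2 n) * (2 * dl M (σ / 2) n) +
        k * (Γ n * L1 n * L2 n) * dl M (σ / 2) n +
        2 * k * (Γ n * L1 n * L2 n) * (2 * dl M (σ / 2) n)) := by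
        rw [e1, one_mul]; gcongr
    _ = L5 n * L4 n ^ C * ((4 + 5 * k) * (Γ n * L1 n * L2 n)) * dl M (σ / 2 / 2) n *
        dl M (σ / 2 / 2) n := by rw [dl_half M (σ / 2)]; ring
    _ ≤ _ := mul_le_of_le_one_left d1.le b1

variable {Λ : ℕ → Type} {k m : Bool → ℕ} {s : ∀ n, Sy k (Ω n)} {E : ∀ n, Ω n → Prop}

theorem sys_cE (h : Sys P M x s C m) (hE : Pos P E) : Sys (fun n => cE (P n) (E n)) M x s C m :=
  ⟨h.big, gp_cE h.bd hE, fun b => kind_cE h.big (h.kd b) hE⟩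

theorem min_cE {β : Bool → ℕ → Type} {Z : ∀ b n, Ω n → β b n} (h : MIN P M x Z) (hE : Pos P E) :
    MIN (fun n => cE (P n) (E n)) M x Z := fun D c F a b => (h D c F a b).cE hE

theorem com_cE {β : Bool → ℕ → Type} {Z : ∀ b n, Ω n → β b n} {A : ∀ n, Ω n → Λ n}
    (h : Com P Z A) (E : ∀ n, Ω n → Prop) : Com (fun n => cE (P n) (E n)) Z A :=
  fun b => (h b).mono fun _ a => fn_cE a _

/-- On an event of bounded below probability one of the kinds has a long axis. -/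
theorem long_pos (h : Sys P M x s C m) (hm : MIN P M x (lab s)) (i0 : Fin N) :
    ∃ E, Pos P E ∧ ∃ b, Kind (fun n => cE (P n) (E n)) M x (fun n => s n b) C 1 := by
  have hM := h.big
  choose τ hτ using fun b => ex_jt (h.kd b) (k b * C)
  have key : ∀ c : ℝ, 0 < c → Whp P fun n ω => ∃ J : Σ b, Fin N × Fin (k b),
      (Real.exp (c * M n))⁻¹ ≤ |coeff (Finsupp.single J.2.2 1) (τ J.1 n ω J.2.1)| := fun c hc => by
    by_contra e
    have hE := not_whp e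
    choose c' h0 u hu using fun b => flat hM (kind_cE hM (h.kd b) hE) (lt_min hc one_pos)
      (min_le_right c 1) (jt_cE (hτ b) hE) (Whp.of_ev (hE.sure.mono fun n a ω hω i l =>
        (not_le.1 fun z => (a ω hω).2 ⟨⟨b, i, l⟩, z⟩).le.trans (by
          rw [← dl_inv, inv_inv]; exact dl_anti M (min_le_left c 1) n)))
    have c0 := lt_min (h0 true) (h0 false)
    obtain ⟨r, r', r1, r2⟩ := G39.rRnd Ω _ _ _ (lab s true) (lab s false) (Fin N) {i0} (u true)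
      (u false) (fun n => 2 * dl M (min (c' true) (c' false)) n)
      (fun n ω => |u true n ((s n true).Z ω) i0 - x n ω i0| ≤ dl M (min (c' true) (c' false)) n)
      (fun n => mul_pos two_pos (dl_pos _ _ _))
      (((hu true).and (hu false)).pos.mono (Eventually.of_forall fun n ω _ a => by
        have k1 := (a.1 i0).trans (dl_anti M (min_le_left _ (c' false)) n)
        have k2 := abs_le.1 ((a.2 i0).trans (dl_anti M (min_le_right (c' true) _) n))
        refine ⟨k1, fun j hj => ?_⟩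
        rw [Finset.mem_singleton.1 hj]
        have := abs_le.1 k1
        exact abs_le.2 ⟨by linarith, by linarith⟩))
    refine r2.not_whp ((min_cE hm hE 1 _ (fun b => Bool.rec (motive := fun b => ∀ n,
      (s n b).T → Pl N) (fun n z => X i0 - MvPolynomial.C (r' n z i0))
      (fun n z => X i0 - MvPolynomial.C (r n z i0)) b) (half_pos c0) fun b n z => by
        cases b <;> exact (totalDegree_sub _ _).trans (by simp)).mono ?_)
    filter_upwards [dl_lt hM (K := 1 / 9) (by norm_num) (half_pos c0)] with n d ω _ a z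
    refine a ⟨congrArg (fun y => X i0 - MvPolynomial.C y) (z.2 i0 (by simp)), ?_⟩
    have k1 := kc.coeff (X i0 - MvPolynomial.C (r n ((s n true).Z ω) i0) : Pl N)
      (Finsupp.single i0 1)
    rw [coeff_sub, coeff_C, if_neg (Finsupp.single_ne_zero.2 one_ne_zero).symm, sub_zero, coeff_X,
      if_pos rfl, abs_one] at k1
    have k2 := abs_le.1 (r1 n ((s n true).Z ω) i0)
    have k3 := abs_le.1 z.1
    have k4 := dl_pos M (min (c' true) (c' false) / 2) n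
    rw [dl_half] at k2 k3
    refine lt_of_lt_of_le ?_ (le_mul_of_one_le_right k4.le k1)
    simp only [map_sub, eval_X, eval_C]
    exact abs_lt.2 ⟨by nlinarith, by nlinarith⟩
  obtain ⟨Γ, a, w⟩ := gp_iff.1 (gp_of_wp (q := fun n ω Γ => ∃ J : Σ b, Fin N × Fin (k b),
    Γ⁻¹ ≤ |coeff (Finsupp.single J.2.2 1) (τ J.1 n ω J.2.1)|) key)
  obtain ⟨⟨b, i, l⟩, hE⟩ := pos_ex w.pos
  have K := kind_cE hM (h.kd b) hE
  refine ⟨_, hE, b, K.bd, K.few, K.rem, K.den, fun j => ?_⟩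
  obtain ⟨G, Γ', a', b', w'⟩ := K.wh j
  obtain ⟨τ', w'⟩ := ev_choice w'
  obtain ⟨L, l1, l2⟩ := gp_iff.1 (jet_cmp hM K (jt_cE (hτ b) hE) (τ' := τ') ⟨G, Γ', a', b',
    w'.mono fun n w ω hω g => ⟨fun i => ((w ω hω g).1 i).1, (w ω hω g).2.2⟩⟩)
  refine ⟨_, _, a'.and l2, (a.const_mul hM one_le_two).mul b', ?_⟩
  filter_upwards [w', hE.sure, ((a.const_mul hM one_le_two).mul l1).2 _ one_half_pos]
    with n w e d
  have p := a.pos n
  have p1 : Γ' n ≤ 2 * Γ n * Γ' n := le_mul_of_one_le_left (b'.pos n).le (by linarith [a.1 n])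
  refine ⟨τ' n, fun ω hω g => ⟨fun i => ⟨((w ω hω g.1).1 i).1, ((w ω hω g.1).1 i).2.trans p1⟩,
    ⟨fun _ => i, fun _ => l, ?_⟩, fun v hv g' z z' =>
      ((w ω hω g.1).2.2 v hv g'.1 z z').trans (by gcongr)⟩⟩
  rw [Matrix.det_unique, Matrix.of_apply]
  have k1 : L n * (2 ^ M n)⁻¹ ≤ (2 * Γ n)⁻¹ := by
    have := d.trans (le_trans (by rw [one_div, ← div_eq_inv_mul]) (exp_le_two_pow _))
    rw [← div_eq_mul_inv, ← one_div, div_le_div_iff₀ (by positivity) (by positivity)]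
    linarith
  have k2 := (abs_sub_abs_le_abs_sub _ _).trans ((g.2 i l).trans k1)
  have k3 : (Γ n)⁻¹ ≤ _ := (e ω hω).2
  have k4 : (2 * Γ n * Γ' n)⁻¹ ≤ (2 * Γ n)⁻¹ :=
    inv_anti₀ (by positivity) (le_mul_of_one_le_right (by positivity) (b'.1 n))
  rw [mul_inv 2] at k2 k4
  linarith

end Lg

theorem long1 : Long1 := by
  intro N h Ω Λ k m C P M x s A _ hs hm hA K
  refine full_of_pos hs.big fun E hE => ?_
  obtain ⟨E', p, b, kb⟩ := Lg.long_pos (Lg.sys_cE hs hE) (Lg.min_cE hm hE) 0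
  have h2 := Lg.sys_cE (Lg.sys_cE hs hE) p
  refine ⟨E', p, h Ω Λ k (fun c => if c = b then 1 else m c) C _ M x s A (by cases b <;> simp)
    ⟨h2.big, h2.bd, fun c => ?_⟩ (Lg.min_cE (Lg.min_cE hm hE) p) (Lg.com_cE (Lg.com_cE hA E) E') K⟩
  split_ifs with e
  · exact e ▸ kb
  · exact h2.kd c

end Pool.Agent.MP_5168f5_an.AN
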