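import Pool.Agent.MP_5168f5_an.AN.GCore
import Pool.Agent.MP_5168f5_an.AN.GInd
import Pool.Agent.MP_5168f5_an.AN.EAll
import Pool.Agent.MP_5168f5_an.AN.G39Frm
import Pool.Agent.MP_5168f5_an.AN.GLong1
import Pool.Agent.MP_5168f5_an.AN.GHer1
import Pool.Agent.MP_5168f5_an.AN.GHer2
import Pool.Agent.MP_5168f5_an.AN.GFullApi

/-! Kakeya sets in all dimensions: the entropy theorem from the five steps of the induction. -/

namespace Pool.Agent.MP_5168f5_an.AN

theorem mu0_of (st : OfSteep) (lo : OfLoc) (p2 : ∀ d mm, SteepF (d + 1) mm → Pair2 (d + 1) mm)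
    (c2 : ∀ d mm, Low (d + 1) → Pair2 (d + 1) mm → LOC (d + 1) mm → Core2 (d + 1) mm)
    (oc : ∀ d mm, Core2 (d + 1) mm → Core (d + 1) mm) (N : ℕ) : R4.Mu0 N :=
  ofEnd Gc.udc N (ind long1 (fun d mm o l t => ofCore her1 her2 fullApi _ mm o
    (oc d mm (c2 d mm l (p2 d mm (st d mm l t)) (lo d mm l (st d mm l t))))) _)

end Pool.Agent.MP_5168f5_an.AN
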