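import Pool.Agent.MP_5168f5_an.AN.MSpec
import Pool.Agent.MP_5168f5_an.AN.A2

/-! Monotone profiles on the rationals: a point of positive deficiency rate. -/

namespace Pool.Agent.MP_5168f5_an.AN

open MeasureTheory Set Filter

namespace GA2QA

theorem ext {U : ℚ≥0 → ℝ} (h : Monotone U) : ∃ U' : ℝ → ℝ, Monotone U' ∧ (∀ q : ℚ≥0, U' q = U q) ∧
    ∀ s ε : ℝ, 0 ≤ s → 0 < ε → ∃ q : ℚ≥0, (q : ℝ) ≤ s ∧ U' s - ε ≤ U q := by
  have ne : ∀ s : ℝ, (U '' {q : ℚ≥0 | (q : ℝ) ≤ max s 0}).Nonempty := fun s =>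
    ⟨_, 0, by simp, rfl⟩
  have bd : ∀ s : ℝ, BddAbove (U '' {q : ℚ≥0 | (q : ℝ) ≤ max s 0}) := fun s =>
    ⟨U (⌈max s 0⌉₊ : ℕ), by
      rintro _ ⟨q, hq, rfl⟩
      exact h (by exact_mod_cast (show (q : ℝ) ≤ _ from hq.trans (Nat.le_ceil _)))⟩
  refine ⟨fun s => sSup (U '' {q : ℚ≥0 | (q : ℝ) ≤ max s 0}), fun s t e => csSup_le_csSup (bd t)
    (ne s) (image_mono fun q hq => le_trans hq (max_le_max e le_rfl)), fun q => ?_,
    fun s ε h0 hε => ?_⟩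
  · refine IsGreatest.csSup_eq ⟨⟨q, le_max_left (q : ℝ) 0, rfl⟩, ?_⟩
    rintro _ ⟨p, hp, rfl⟩
    exact h (by exact_mod_cast (show (p : ℝ) ≤ _ from hp).trans_eq (max_eq_left q.cast_nonneg))
  · obtain ⟨_, ⟨q, hq, rfl⟩, e⟩ := exists_lt_of_lt_csSup (ne s) (sub_lt_self _ hε)
    exact ⟨q, (show (q : ℝ) ≤ _ from hq).trans_eq (max_eq_left h0), e.le⟩

theorem near {s ε : ℝ} (h0 : 0 ≤ s) (hε : 0 < ε) : ∃ q : ℚ≥0, (q : ℝ) ≤ s ∧ s - ε ≤ q := by
  by_cases c : s - ε < 0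
  · exact ⟨0, by simpa, by simpa using c.le⟩
  · obtain ⟨q, a, b⟩ := exists_rat_btwn (sub_lt_self s hε)
    have q0 : 0 ≤ q := by exact_mod_cast (not_lt.1 c).trans a.le
    exact ⟨⟨q, q0⟩, b.le, a.le⟩

end GA2QA

open GA2QA in
theorem a2q : A2Q := by
  intro U H a b κ K hU hH hab hκ lip gap
  obtain ⟨U', mU, eU, nU⟩ := ext hU
  obtain ⟨H', mH, eH, nH⟩ := ext hH
  refine ⟨U', H', mU, mH, eU, eH, fun hp => ?_⟩
  have ab : (a : ℝ) < b := by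
    rcases hab.eq_or_lt with rfl | c
    · simp at gap
    · exact_mod_cast c
  have ap : ∀ (s ε : ℝ) (p : ℚ≥0), (p : ℝ) ≤ s → 0 < ε → ∃ q : ℚ≥0, p ≤ q ∧ (q : ℝ) ≤ s ∧
      s - ε ≤ q ∧ U' s - ε ≤ U q ∧ U q ≤ U' s ∧ H' s - ε ≤ H q ∧ H q ≤ H' s := fun s ε p hp hε => by
    have s0 := (NNRat.cast_nonneg p).trans hp
    obtain ⟨q1, a1, b1⟩ := nU s ε s0 hε
    obtain ⟨q2, a2, b2⟩ := nH s ε s0 hε
    obtain ⟨q3, a3, b3⟩ := near s0 hε
    have e : ((max (max p q1) (max q2 q3) : ℚ≥0) : ℝ) ≤ s := by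
      push_cast; exact max_le (max_le hp a1) (max_le a2 a3)
    exact ⟨_, le_max_of_le_left (le_max_left _ _), e, b3.trans (by
      exact_mod_cast le_max_of_le_right (le_max_right _ _)),
      b1.trans (hU (le_max_of_le_left (le_max_right _ _))), (eU _).ge.trans (mU e),
      b2.trans (hH (le_max_of_le_right (le_max_left _ _))), (eH _).ge.trans (mH e)⟩
  obtain ⟨s, hs, ⟨p, d1, d2⟩, -, d⟩ := a2core (G := fun x => U' x - H' x - κ * U' x) (K := K) ab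
    (fun s t h1 h2 h3 => le_of_forall_pos_le_add fun δ hδ => by
      have k := abs_nonneg K
      obtain ⟨ε, hε, rfl⟩ : ∃ ε, 0 < ε ∧ δ = (2 + κ + |K|) * ε :=
        ⟨δ / (2 + κ + |K|), by positivity, by field_simp⟩
      obtain ⟨q, a1, a2, a3, a4, a5, a6, a7⟩ := ap s ε a h1 hε
      obtain ⟨r, b1, b2, b3, b4, b5, b6, b7⟩ := ap t ε q (a2.trans h2.le) hε
      have l := lip q r a1 b1 (by exact_mod_cast b2.trans h3)
      have e : K * ((r - q) - (t - s)) ≤ |K| * ε := (le_abs_self _).trans ((abs_mul _ _).trans_le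
        (mul_le_mul_of_nonneg_left (abs_le.2 ⟨by linarith, by linarith⟩) k))
      nlinarith [mul_le_mul_of_nonneg_left a4 hκ, mul_le_mul_of_nonneg_left b5 hκ])
    (by simp only [eU, eH]; linarith) (hp.and (mU.ae_differentiableAt.and mH.ae_differentiableAt))
  have e : HasDerivAt (fun x => U' x - H' x - κ * U' x)
      (deriv U' s - deriv H' s - κ * deriv U' s) s :=
    (d1.hasDerivAt.sub d2.hasDerivAt).sub (d1.hasDerivAt.const_mul κ)
  rw [e.deriv] at d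
  linarith [p hs d1 d2, mul_nonneg hκ (mU.deriv_nonneg (x := s))]

end Pool.Agent.MP_5168f5_an.AN
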