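import Pool.Agent.MP_5168f5_an.AN.MSpec
import Pool.Agent.MP_5168f5_an.AN.S20Full

/-! The probability of the cells of a chart, counted through a smaller cell. -/

namespace Pool.Agent.MP_5168f5_an.AN

open H19 H17S H17F R4 Filter MvPolynomial

theorem ofAcc : OfAcc := by
  intro hF h2 Ω Λ Λ' β β' N D D' P M h g j y Z Z' A A' Θ Ψ w u u' hM c d f c' vo dz e hv li
  refine hF.acc hM f ?_ hv li (h2.down hM c' vo ((h2.dle hM c').1.1 dz))
  obtain ⟨G, Γ, a, b, l⟩ := h2.lip hM c.cm c.frm d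
  have k := (S20.fs_near (y := chs Θ y) (A := fun n ω => (fl (j n) (y n ω), A n ω)) (j := g)
    (r := fun _ => 1) hM (by simp) ⟨G, Γ, a, b, ?_⟩).low hM (S20.fnE_const _)
  · exact k.mono (Eventually.of_forall fun n ω _ Γ _ t => by simpa using t)
  filter_upwards [l, e, c.frm.fn] with n l e fn p hp q hq _ gq t
  have t1 := (norm_sub_lt_of_fl_eq (congrArg Prod.fst t)).le
  have t2 : Θ n p = Θ n q := fn p hp q hq (congrArg Prod.snd t)
  obtain ⟨i, hi⟩ := Nat.exists_eq_add_of_le e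
  have t3 : (2 : ℝ) ^ h n * ‖y n p - y n q‖ ≤ 1 / 2 ^ g n := by
    refine (mul_le_mul_of_nonneg_left t1 (by positivity)).trans ?_
    rw [hi, pow_add, pow_add, ← div_eq_mul_inv, div_le_div_iff₀ (by positivity) (by positivity)]
    nlinarith [one_le_pow₀ (one_le_two (α := ℝ)) (n := i),
      (by positivity : (0 : ℝ) < 2 ^ h n * 2 ^ g n)]
  have t4 := l q hq gq (y n p - y n q) (t3.trans (div_le_one_of_le₀
    (one_le_pow₀ one_le_two) (by positivity)))
  rw [add_sub_cancel] at t4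
  simp only [chs, cht, t2]
  rw [mul_div_assoc]
  rw [mul_assoc] at t4
  exact t4.trans (mul_le_mul_of_nonneg_left t3 (b.pos n).le)

end Pool.Agent.MP_5168f5_an.AN
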