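import Pool.Agent.MP_5168f5_an.AN.Api
import Pool.Agent.MP_5168f5_an.AN.S20LF

/-! Change of the unit, exchange of the kinds, slowly shrinking events. -/

namespace Pool.Agent.MP_5168f5_an.AN

open H19 H17S H17F R4 Filter MvPolynomial
open G39 (nu RG dl REM dl_anti dl_pos)
open Pk (cn)
open Nc (Pl ev jac)
open S20 (dn gp_iff)
open A1 (Floor)
open K31 (DnS dnS_cE)

variable {Ω Λ : ℕ → Type} {β : Bool → ℕ → Type} {N N' k : ℕ} {P : ∀ n, FP (Ω n)} {M M' : ℕ → ℕ}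
  {x y ξ : ∀ n, Ω n → V N} {A : ∀ n, Ω n → Λ n} {Z : ∀ b n, Ω n → β b n} {κ : ∀ n, Kd k (Ω n)}
  {C D E m : ℕ} {t g j : ℕ → ℕ}

/-! ### Units -/

theorem Cmp.symm (h : Cmp M M') : Cmp M' M := h.imp fun _ a => a.mono fun _ b => b.symm

theorem Cmp.real (h : Cmp M M') : ∃ c : ℝ, 0 < c ∧ ∀ᶠ n in UF, c * M n ≤ M' n := by
  obtain ⟨C, h⟩ := h
  refine ⟨1 / (C + 1), by positivity, h.mono fun n a => ?_⟩
  have : (M n : ℝ) ≤ C * M' n := by exact_mod_cast a.1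
  rw [one_div, inv_mul_le_iff₀ (by positivity)]
  nlinarith [Nat.cast_nonneg (α := ℝ) (M' n)]

theorem Cmp.le (h : Cmp M M') {f g : ℕ → ℝ} (e : Le M f g) : Le M' f g := fun ε hε => by
  obtain ⟨c, hc, h⟩ := h.real
  filter_upwards [e (ε * c) (by positivity), h] with n a b
  nlinarith

theorem Cmp.sub (h : Cmp M M') {L : ℕ → ℝ} (e : Sub M L) : Sub M' L := ⟨e.1, fun ε hε => by
  obtain ⟨c, hc, h⟩ := h.real
  filter_upwards [e.2 (ε * c) (by positivity), h] with n a b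
  exact a.trans (Real.exp_le_exp.2 (by nlinarith))⟩

theorem Cmp.big (h : Cmp M M') (e : Big M) : Big M' := by
  obtain ⟨c, hc, h⟩ := h.real
  refine tendsto_atTop.2 fun b => ?_
  filter_upwards [h, e.ev (b / c)] with n u v
  rw [div_le_iff₀ hc] at v
  exact_mod_cast (show (b : ℝ) ≤ M' n by linarith)

theorem Cmp.lin (h : Cmp M M') (e : Lin M t) : Lin M' t := by
  obtain ⟨C, h⟩ := h
  obtain ⟨R, e⟩ := e
  exact ⟨R * C, (h.and e).mono fun n a => a.2.trans (by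
    rw [mul_assoc]; exact Nat.mul_le_mul_left _ a.1.1)⟩

/-- A small scale in one unit is a small scale in the other unit. -/
theorem Cmp.dl (h : Cmp M M') {c : ℝ} (hc : 0 < c) :
    ∃ c' : ℝ, 0 < c' ∧ ∀ᶠ n in UF, dl M' c n ≤ dl M c' n := by
  obtain ⟨a, ha, h⟩ := h.real
  exact ⟨c * a, by positivity, h.mono fun n b => Real.exp_le_exp.2 (by nlinarith)⟩

theorem Cmp.dl' (h : Cmp M M') (B : ℝ) : ∃ B' : ℕ, ∀ᶠ n in UF, G39.dl M' B' n ≤ G39.dl M B n := by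
  obtain ⟨C, h⟩ := h
  refine ⟨⌈B⌉₊ * C, h.mono fun n a => Real.exp_le_exp.2 (neg_le_neg ?_)⟩
  have h1 : (M n : ℝ) ≤ C * M' n := by exact_mod_cast a.1
  have h2 := Nat.le_ceil B
  push_cast
  calc B * M n ≤ ⌈B⌉₊ * M n := by gcongr
    _ ≤ ⌈B⌉₊ * (C * M' n) := by gcongr
    _ = _ := by ring

theorem cmp_mul (M : ℕ → ℕ) {K : ℕ} (hK : 0 < K) : Cmp M fun n => K * M n :=
  ⟨K, Eventually.of_forall fun n => ⟨by nlinarith [Nat.zero_le (M n), Nat.mul_pos hK hK], le_rfl⟩⟩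

theorem cmp_of (hM : Big M) {c : ℝ} (hc : 0 < c) (h : Eqv M (fun n => M' n) (un M c)) :
    Cmp M M' := by
  refine ⟨⌈2 / c⌉₊ + ⌈c + 1⌉₊, ?_⟩
  filter_upwards [h.1 1 one_pos, h.2 _ (half_pos hc)] with n a b
  simp only [un] at a b
  have h1 := Nat.le_ceil (2 / c)
  have h2 := Nat.le_ceil (c + 1)
  have h3 := Nat.cast_nonneg (α := ℝ) (M n)
  have h4 := Nat.cast_nonneg (α := ℝ) (M' n)
  have h5 := Nat.cast_nonneg (α := ℝ) ⌈2 / c⌉₊
  have h6 := Nat.cast_nonneg (α := ℝ) ⌈c + 1⌉₊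
  have h7 : (M n : ℝ) ≤ 2 / c * M' n := by
    rw [div_mul_eq_mul_div, le_div_iff₀ hc]; linarith
  constructor
  · exact_mod_cast (show (M n : ℝ) ≤ (⌈2 / c⌉₊ + ⌈c + 1⌉₊ : ℝ) * M' n by nlinarith)
  · exact_mod_cast (show (M' n : ℝ) ≤ (⌈2 / c⌉₊ + ⌈c + 1⌉₊ : ℝ) * M n by nlinarith)

theorem Gd.unit {q : ∀ n, (Ω n → Prop) → ℝ → Prop} (e : Gd P M q) (h : Cmp M M') : Gd P M' q :=
  let ⟨G, Γ, a, b, c⟩ := e
  ⟨G, Γ, a, h.sub b, c⟩

theorem Gp.unit {q : ∀ n, Ω n → ℝ → Prop} (e : Gp P M q) (h : Cmp M M') : Gp P M' q :=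
  Gd.unit e h

theorem Few.unit {be : ∀ n, Ω n → ℕ} {c c' : ℝ} (e : Few P M c be) (h : Cmp M M')
    (l : Le M (un M c) (un M' c')) : Few P M' c' be := by
  obtain ⟨Γ, a, b⟩ := sub_of_le l
  refine Gp.unit (Gp.mul e (gp_of_sub (p := fun n _ Γ' => Real.exp (un M c n) ≤
    Γ' * Real.exp (un M' c' n)) a (Eventually.of_forall fun n _ _ => b n))
    (Eventually.of_forall fun n ω _ Γ Γ' u v c d => c.trans ?_)) h
  rw [mul_assoc]
  exact mul_le_mul_of_nonneg_left d (by linarith)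

theorem Few.unit0 {be : ∀ n, Ω n → ℕ} (e : Few P M 0 be) (h : Cmp M M') : Few P M' 0 be :=
  e.unit h (Le.of_le fun n => by simp [un])

theorem Full.lin (hM : Big M) (e : Full P M y A) (h : Lin M j) : FullAt P M y A j :=
  h.elim fun _ a => S20.full_at hM e a

theorem lin_mul (M : ℕ → ℕ) (K : ℕ) : Lin M fun n => K * M n :=
  ⟨K, Eventually.of_forall fun _ => le_rfl⟩

theorem lin_rfl (M : ℕ → ℕ) : Lin M M := ⟨1, Eventually.of_forall fun _ => by simp⟩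

theorem lin_lev (M : ℕ → ℕ) (c : ℝ) : Lin M (lev M c) := ⟨⌈c⌉₊, Eventually.of_forall fun n =>
  (lev_mono M (Nat.le_ceil c) n).trans (by
    simp only [lev]; exact_mod_cast (Nat.floor_natCast (R := ℝ) (⌈c⌉₊ * M n)).le)⟩

theorem Lin.mono {t' : ℕ → ℕ} (h : Lin M t) (e : ∀ᶠ n in UF, t' n ≤ t n) : Lin M t' :=
  h.imp fun _ a => (a.and e).mono fun _ b => b.2.trans b.1

theorem Lin.add {t' : ℕ → ℕ} (h : Lin M t) (h' : Lin M t') : Lin M fun n => t n + t' n :=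
  let ⟨R, a⟩ := h
  let ⟨R', a'⟩ := h'
  ⟨R + R', (a.and a').mono fun n b => by rw [add_mul]; exact add_le_add b.1 b.2⟩

theorem Full.unit (hM : Big M) (e : Full P M y A) (h : Cmp M M') : Full P M' y A := fun K =>
  Gd.unit (e.lin hM (h.symm.lin (lin_mul M' K))) h

theorem rem_unit (e : ∀ K : ℕ, REM P x M A C K) (h : Cmp M M') (K : ℕ) : REM P x M' A C K :=
  fun E => by
  obtain ⟨K', hK⟩ := h.symm.dl' K
  obtain ⟨G, Γ, a, b, c⟩ := e K' E
  exact ⟨G, Γ, a, h.sub b, (c.and hK).mono fun n d ω hω g f hf θ κ u =>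
    d.1 ω hω g f hf θ κ (d.2.trans u)⟩

theorem Kind.unit (hM : Big M) (e : Kind P M x κ C m) (h : Cmp M M') : Kind P M' x κ C m :=
  ⟨Gp.unit e.bd h, e.few.unit0 h, rem_unit e.rem h, e.den.unit hM h, fun j => (e.wh j).unit h⟩

theorem KindS.unit (hM : Big M) (e : KindS P M x κ C m t) (h : Cmp M M') : KindS P M' x κ C m t :=
  ⟨e.kd.unit hM h, fun j => (e.wh j).unit h⟩

theorem Sys.unit {k m : Bool → ℕ} {s : ∀ n, Sy k (Ω n)} (e : Sys P M x s C m) (h : Cmp M M') :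
    Sys P M' x s C m := ⟨h.big e.big, Gp.unit e.bd h, fun b => (e.kd b).unit e.big h⟩

theorem NT.unit {ν : ∀ n, Ω n → Pl N → ℝ} (e : NT P M x Z ν) (h : Cmp M M') : NT P M' x Z ν :=
  fun E c F hc hF => by
  obtain ⟨c', hc', a⟩ := h.dl hc
  refine (e E c' F hc' hF).mono (a.mono fun n b ω _ d u => d ⟨u.1, u.2.trans_le ?_⟩)
  exact mul_le_mul_of_nonneg_right b
    ((mul_pos_iff_of_pos_left (dl_pos _ _ _)).1 ((abs_nonneg _).trans_lt u.2)).le

theorem CM.unit (e : CM P M x Z A) (h : Cmp M M') : CM P M' x Z A := ⟨e.com, e.nt.unit h⟩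

theorem Frm.unit {Θ : ∀ n, Ω n → Fin N' → Pl N} (e : Frm P M x Z A Θ D) (h : Cmp M M') :
    Frm P M' x Z A Θ D := ⟨e.fn, e.deg, Gp.unit e.bd h, NT.unit e.min h⟩

theorem Cel.unit {Θ : ∀ n, Ω n → Fin N → Pl N} (e : Cel P M x Z A Θ D) (h : Cmp M M') :
    Cel P M' x Z A Θ D := ⟨e.cm.unit h, e.frm.unit h⟩

theorem DLe.unit (e : DLe P M x A g) (h : Cmp M M') : DLe P M' x A g := fun E => Gp.unit (e E) h

theorem DGe.unit (e : DGe P M x A E g) (h : Cmp M M') : DGe P M' x A E g := Gp.unit e h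

theorem Poor.unit {η η' : ℝ} (e : Poor P M y A j η) (h : ∀ᶠ n in UF, η' * M' n ≤ η * M n) :
    Poor P M' y A j η' := (e.and h).mono fun n a ω hω => (a.1 ω hω).imp fun _ b =>
  ⟨b.1.trans (mul_le_mul_of_nonneg_right (Real.exp_le_exp.2 (neg_le_neg a.2)) (by positivity)), b.2⟩

theorem cn_nonneg (F : Pl N) : 0 ≤ cn F := Finset.sum_nonneg fun _ _ => abs_nonneg _

theorem Fat.unit (e : Fat P M x A) (h : Cmp M M') : Fat P M' x A := fun E => by
  obtain ⟨B, a⟩ := e E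
  obtain ⟨B', b⟩ := h.dl' B
  exact ⟨B', a.mono (b.mono fun n c ω _ d F hF =>
    (mul_le_mul_of_nonneg_right c (cn_nonneg F)).trans (d F hF))⟩

theorem RA.unit (e : RA P M x κ C) (h : Cmp M M') : RA P M' x κ C := fun t ht =>
  rem_unit (e t (h.symm.lin ht)) h

theorem Sure.unit (e : Sure P M x) (h : Cmp M M') : Sure P M' x :=
  e.imp fun _ a => ⟨h.sub a.1, a.2⟩

theorem Sure.bdd (e : Sure P M x) : Bdd P M x := e.elim fun _ a => gp_of_sub a.1 a.2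

theorem Sure.cE (e : Sure P M x) (G : ∀ n, Ω n → Prop) : Sure (fun n => cE (P n) (G n)) M x :=
  e.imp fun _ a => ⟨a.1, a.2.mono fun _ b ω hω => b ω (cE_sub hω)⟩

theorem Bdd.sure (e : Bdd P M x) : ∃ G, Whp P G ∧ Sure (fun n => cE (P n) (G n)) M x :=
  let ⟨G, Γ, a, b, c⟩ := e
  ⟨G, a, Γ, b, (c.and a.pos.sure).mono fun _ d ω hω => d.1 ω (d.2 ω hω).1 (d.2 ω hω).2⟩

/-! ### Small facts -/

theorem whS_zero {Ω : Type} {κ : Kd k Ω} {P : FP Ω} {x : Ω → V N} {j : ℕ} {G : Ω → Prop} {Γ : ℝ} :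
    κ.WhS P x m 0 j G Γ ↔ κ.Wh P x m j G Γ := by simp [Kd.WhS, Kd.Wh]

theorem Kind.zero (e : Kind P M x κ C m) : Kind P M x κ C 0 :=
  ⟨e.bd, e.few, e.rem, e.den, fun j => (e.wh j).mono (Eventually.of_forall
    fun _ _ _ a ⟨τ, b⟩ => ⟨τ, fun ω hω g => ⟨(b ω hω g).1, ⟨Fin.elim0, Fin.elim0, by
      simpa using inv_le_one_of_one_le₀ a⟩, (b ω hω g).2.2⟩⟩)⟩

theorem Kind.toS (e : Kind P M x κ C m) : KindS P M x κ C m fun _ => 0 :=
  ⟨e.zero, fun j => (e.wh j).mono (Eventually.of_forall fun _ _ _ _ => whS_zero.2)⟩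

theorem KindS.kind (e : KindS P M x κ C m fun _ => 0) : Kind P M x κ C m :=
  ⟨e.kd.bd, e.kd.few, e.kd.rem, e.kd.den,
    fun j => (e.wh j).mono (Eventually.of_forall fun _ _ _ _ => whS_zero.1)⟩

theorem FnE.trans {α γ : ℕ → Type} {F : ∀ n, Ω n → α n} {G : ∀ n, Ω n → γ n} (h : FnE P F G)
    (h' : FnE P G A) : FnE P F A :=
  (h.and h').mono fun _ a u hu v hv e => a.1 u hu v hv (a.2 u hu v hv e)

theorem FnE.cE {α : ℕ → Type} {F : ∀ n, Ω n → α n} (h : FnE P F A) (G : ∀ n, Ω n → Prop) :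
    FnE (fun n => cE (P n) (G n)) F A := h.mono fun _ a u hu v hv => a u (cE_sub hu) v (cE_sub hv)

theorem fnE_of {α : ℕ → Type} {F : ∀ n, Ω n → α n}
    (h : ∀ n u v, A n u = A n v → F n u = F n v) : FnE P F A :=
  Eventually.of_forall fun n u _ v _ => h n u v

theorem cht_X {Ω : Type} (x : Ω → V N) : cht (fun _ => X) x = x := by
  funext ω i; simp [cht, ev]

theorem chs_X (x : ∀ n, Ω n → V N) : chs (fun _ _ => X) x = x := funext fun n => cht_X (x n)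

theorem Fat.nz (hM : Fat P M x A) : NZ P x A := fun E => (hM E).elim fun B a =>
  a.mono (Eventually.of_forall fun n ω _ b F hF h0 => lt_of_lt_of_le (mul_pos (dl_pos _ _ _)
    (lt_of_le_of_ne (cn_nonneg F) fun e => h0 ((Pk.kc.zero F).1 e.symm))) (b F hF))

theorem floor_mono {γ : ℕ → Type} {Y : ∀ n, Ω n → γ n} (e : Floor P M x Y) (h : FnE P A Y) :
    Floor P M x A := fun E => by
  obtain ⟨B, c, G, a, b, d⟩ := e E
  refine ⟨B, c, G, a, b, (d.and h).mono fun n u ω hω F hF => ?_⟩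
  rw [A1.pb_tower (cv (P n) (A n) (A n ω)) (Y n) fun _ v => G n v ∧
    |eval (x n v) F| < dl M B n * cn F, ← (cv (P n) (A n) (A n ω)).E_const (dl M c n)]
  refine FP.E_mono _ fun v hv => ?_
  have h1 := (S20.mem_cv hω v).1 hv
  have h2 : cv (cv (P n) (A n) (A n ω)) (Y n) (Y n v) = cv (P n) (Y n) (Y n v) := by
    unfold cv
    rw [cE_cE (E := fun w => A n w = A n ω) (E' := fun w => Y n w = Y n v) ⟨v, h1.1, h1.2, rfl⟩]
    exact cE_congr fun w hw => ⟨fun k => k.2, fun k => ⟨(u.2 w hw v h1.1 k).trans h1.2, k⟩⟩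
  rw [h2]
  exact u.1 v h1.1 F hF

/-! ### Exchange of the kinds -/

theorem NT.swap {ν : ∀ n, Ω n → Pl N → ℝ} (e : NT P M x Z ν) :
    NT (β := fun b => β (!b)) P M x (fun b => Z (!b)) ν := fun E c F hc hF =>
  (e E c (fun b => Bool.rec (motive := fun b => ∀ n, β b n → Pl N) (F true) (F false) b) hc
    fun b => by cases b; exacts [hF true, hF false]).mono (Eventually.of_forall fun n ω _ a b =>
      a ⟨b.1.symm, by have := b.2; rw [b.1] at this; exact this⟩)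

theorem Sys.swap {k m : Bool → ℕ} {s : ∀ n, Sy k (Ω n)} (e : Sys P M x s C m) :
    Sys (k := fun b => k (!b)) P M x (fun n b => s n (!b)) C fun b => m (!b) :=
  ⟨e.big, e.bd, fun b => e.kd (!b)⟩

/-! ### Slowly shrinking events -/

theorem slow : Slow := by
  intro Ω P M K hM ⟨p, hp⟩ h
  have key : ∀ j : ℕ, ∀ᶠ n in UF, ∀ G : Ω n → Prop, 1 / (j + 1 : ℝ) ≤ pb (P n) G →
      ∀ i ≤ j, p i n (cE (P n) G) := fun j => unif (h := fun n G => 1 / (j + 1 : ℝ) ≤ pb (P n) G)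
    fun G hG => (eventually_all_finite (Set.finite_Iic j)).2 fun i _ =>
      (hp _).1 (h G ⟨_, by positivity, hG⟩) i
  obtain ⟨k, hk, e⟩ := ks.spill _ key
  refine ⟨fun n => min (k n + 1) (M n + 1), tendsto_atTop.2 fun b => ?_, (Sub.nat hM).mono
    (fun n => le_min (by linarith [Nat.cast_nonneg (α := ℝ) (k n)])
      (by linarith [Nat.cast_nonneg (α := ℝ) (M n)])) (Eventually.of_forall fun n => min_le_right _ _),
    fun G hG => (hp _).2 fun i => ?_⟩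
  · filter_upwards [hk.ev b, hM.ev b] with n u v using le_min (by linarith) (by linarith)
  · filter_upwards [e, hG, hk.ev i] with n u v w
    refine u _ le_rfl _ ?_ i (by exact_mod_cast w)
    rw [div_le_iff₀' (by positivity)]
    exact v.trans (mul_le_mul_of_nonneg_right (min_le_left _ _) (pb_nonneg _ _))

/-- `K` holds after conditioning on any event whose probability decays slowly enough. -/
def SL (P : ∀ n, FP (Ω n)) (K : (∀ n, FP (Ω n)) → Prop) : Prop :=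
  ∃ L : ℕ → ℝ, Tendsto L UF atTop ∧ ∀ G : ∀ n, Ω n → Prop,
    (∀ᶠ n in UF, 1 ≤ L n * pb (P n) (G n)) → K fun n => cE (P n) (G n)

variable {K K' : (∀ n, FP (Ω n)) → Prop}

theorem sl_cf (hM : Big M) (h : CF K) (e : ∀ G, Pos P G → K fun n => cE (P n) (G n)) : SL P K :=
  (slow Ω P M K hM h e).imp fun _ a => ⟨a.1, a.2.2⟩

theorem SL.mono (h : SL P K) (e : ∀ G : ∀ n, Ω n → Prop, K (fun n => cE (P n) (G n)) →
    K' fun n => cE (P n) (G n)) : SL P K' := h.imp fun _ a => ⟨a.1, fun G b => e G (a.2 G b)⟩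

theorem sl_all {J : Type} [Countable J] {K : J → (∀ n, FP (Ω n)) → Prop} (h : ∀ j, SL P (K j)) :
    SL P fun Q => ∀ j, K j Q := by
  choose L a b using h
  obtain ⟨L', c, d⟩ := A1.minorant a
  exact ⟨L', c, fun G e j => b j G ((e.and (d j)).mono fun n u =>
    u.1.trans (mul_le_mul_of_nonneg_right u.2 (pb_nonneg _ _)))⟩

theorem SL.and (h : SL P K) (h' : SL P K') : SL P fun Q => K Q ∧ K' Q :=
  (sl_all (J := Bool) (K := fun b => bif b then K else K') fun b => by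
    cases b <;> assumption).mono fun _ a => ⟨a true, a false⟩

theorem sl_of (h : ∀ G : ∀ n, Ω n → Prop, K fun n => cE (P n) (G n)) : SL P K :=
  ⟨fun n => n, (tendsto_natCast_atTop_atTop.comp tendsto_id).mono_left
    (Nat.hyperfilter_le_atTop), fun G _ => h G⟩

theorem SL.pos (h : SL P K) {G : ∀ n, Ω n → Prop} (e : Pos P G) : K fun n => cE (P n) (G n) := by
  obtain ⟨L, a, b⟩ := h
  obtain ⟨κ, c, d⟩ := e
  refine b G ?_
  filter_upwards [a.eventually_ge_atTop κ⁻¹, d] with n u v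
  calc (1 : ℝ) = κ⁻¹ * κ := (inv_mul_cancel₀ c.ne').symm
    _ ≤ _ := mul_le_mul u v c.le ((inv_pos.2 c).le.trans u)

end Pool.Agent.MP_5168f5_an.AN
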