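import Pool.Agent.MP_5168f5_an.AN.S20Nz1
import Pool.Agent.MP_5168f5_an.AN.Spec
import Pool.Agent.MP_5168f5_an.AN.Api

/-! Kakeya sets in all dimensions: kinds with fresh noise. -/

namespace Pool.Agent.MP_5168f5_an.AN.S20

open H19 H17S H17F R4 Filter MvPolynomial
open G39 (nu RG REM dl dl_pos dl_add dl_lt dl_inv rev_markov)
open Pk (cn kc)
open Nc (Pl ev)

section One

variable {Ω Ω' β : Type} {N k m t j : ℕ} {P : FP Ω} {x : Ω → V N} {κ : Kd k Ω} {G : Ω → Prop}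
  {Γ : ℝ}

theorem wh_iff : κ.Wh P x m j G Γ ↔ κ.WhS P x m 0 j G Γ := by simp [Kd.Wh, Kd.WhS]

theorem whs_zero (h : κ.WhS P x m t j G Γ) (h1 : 1 ≤ Γ) : κ.Wh P x 0 j G Γ :=
  h.imp fun _ a ω hω g => ⟨(a ω hω g).1, ⟨Fin.elim0, Fin.elim0, by
    simpa using inv_le_one_of_one_le₀ h1⟩, (a ω hω g).2.2⟩

theorem whs_pull {Q : FP Ω'} {ρ : Ω' → Ω} (e : ∀ v ∈ Q.S, ρ v ∈ P.S) (h : κ.WhS P x m t j G Γ) :
    (κ.pull ρ).WhS Q (fun v => x (ρ v)) m t j (fun v => G (ρ v)) Γ :=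
  let ⟨τ, a⟩ := h
  ⟨fun v => τ (ρ v), fun ω hω g => ⟨(a _ (e ω hω) g).1, (a _ (e ω hω) g).2.1,
    fun v hv => (a _ (e ω hω) g).2.2 _ (e v hv)⟩⟩

theorem norm_append {a b : ℕ} (u : V a) (v : V b) {B : ℝ} (h0 : 0 ≤ B) (hu : ‖u‖ ≤ B)
    (hv : ‖v‖ ≤ B) : ‖(Fin.append u v : V (a + b))‖ ≤ B :=
  (pi_norm_le_iff_of_nonneg h0).2 fun i => by
    refine Fin.addCases (fun i => ?_) (fun i => ?_) i
    · simpa using (norm_le_pi_norm u i).trans hu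
    · simpa using (norm_le_pi_norm v i).trans hv

/-- Jets with noise. -/
theorem whs_nz {ξ : Ω → V N} (h : ℕ) (hξ : ∀ ω ∈ P.S, G ω → ‖ξ ω‖ ≤ Γ) (h1 : 1 ≤ Γ)
    (a : κ.WhS P x m t j G Γ) : (κ.nz ξ).WhS P (blur x ξ h) m t j G (3 * Γ) := by
  classical
  obtain ⟨τ, a⟩ := a
  have s0 : (0 : ℝ) < (2 ^ h)⁻¹ := by positivity
  have s1 : ((2 : ℝ) ^ h)⁻¹ ≤ 1 := two_pow_inv_le h
  refine ⟨fun ω i => rename (Fin.castAdd N) (τ ω i) + C ((2 ^ h)⁻¹ * ξ ω i) +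
    C ((2 : ℝ) ^ h)⁻¹ * X (Fin.natAdd k i), fun ω hω g => ?_⟩
  obtain ⟨a1, ⟨r, c, a2⟩, a3⟩ := a ω hω g
  refine ⟨fun i => ⟨?_, ?_⟩, ⟨r, fun b => Fin.castAdd N (c b), ?_⟩, fun v hv g' e e' => ?_⟩
  · exact (totalDegree_add _ _).trans (max_le ((totalDegree_add _ _).trans (max_le
      ((totalDegree_rename_le _ _).trans (a1 i).1) ((totalDegree_C _).trans_le (Nat.zero_le _))))
      ((totalDegree_mul _ _).trans (by simp)))
  · have b1 := kc.add (rename (Fin.castAdd N) (τ ω i) + C ((2 ^ h)⁻¹ * ξ ω i))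
      (C ((2 : ℝ) ^ h)⁻¹ * X (Fin.natAdd k i))
    have b2 := kc.add (rename (Fin.castAdd N) (τ ω i)) (C ((2 ^ h)⁻¹ * ξ ω i))
    have b3 := kc.mul (C ((2 : ℝ) ^ h)⁻¹ : Pl (k + N)) (X (Fin.natAdd k i))
    have b4 : |ξ ω i| ≤ Γ := (norm_le_pi_norm (ξ ω) i).trans (hξ ω hω g)
    rw [kc.ren _ _ (Fin.castAdd_injective k N), kc.const, abs_mul, abs_of_pos s0] at b2
    rw [kc.const, kc.var, abs_of_pos s0] at b3
    nlinarith [(a1 i).2, abs_nonneg (ξ ω i)]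
  · refine (inv_anti₀ (by linarith) (by linarith)).trans (a2.trans_eq ?_)
    congr 3
    ext a b
    have ne : ∀ i, Fin.natAdd k i ≠ Fin.castAdd N (c b) := fun i e => by
      have := congrArg Fin.val e
      have := (c b).2
      simp only [Fin.val_natAdd, Fin.val_castAdd] at *
      omega
    simp only [Matrix.of_apply, coeff_add, coeff_C_mul, coeff_C, coeff_X]
    rw [if_neg (Finsupp.single_ne_zero.2 one_ne_zero).symm,
      if_neg fun e => ne _ ((Finsupp.single_left_inj one_ne_zero).1 e),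
      ← Finsupp.mapDomain_single (f := Fin.castAdd N),
      coeff_rename_mapDomain _ (Fin.castAdd_injective k N)]
    simp
  · have b1 : ‖κ.p v - κ.p ω‖ ≤ ‖(κ.nz ξ).p v - (κ.nz ξ).p ω‖ :=
      (pi_norm_le_iff_of_nonneg (norm_nonneg _)).2 fun i => by
        simpa using norm_le_pi_norm ((κ.nz ξ).p v - (κ.nz ξ).p ω) (Fin.castAdd N i)
    refine le_trans (le_of_eq ?_) ((a3 v hv g' e e').trans
      (mul_le_mul (by linarith) (pow_le_pow_left₀ (norm_nonneg _) b1 _) (by positivity)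
        (by linarith)))
    congr 1
    funext i
    have b2 : ((κ.nz ξ).p v - (κ.nz ξ).p ω) ∘ Fin.castAdd N = κ.p v - κ.p ω := by
      funext l
      simp
    simp only [Pi.sub_apply, ev, blur, map_add, map_mul, eval_C, eval_X, eval_rename, b2,
      Pi.add_apply, Pi.smul_apply, smul_eq_mul, Fin.append_right]
    ring

/-- The inequality of Remez with noise. -/
theorem rg_nz (N E : ℕ) : ∃ C₀ : ℝ, 1 ≤ C₀ ∧ ∀ {Ω β : Type} (P : FP Ω) (x : Ω → V N) (Z : Ω → β)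
    (G : Ω → Prop) (C J h : ℕ) (Γ k0 k1 : ℝ), RG P x Z G E C Γ k0 → 0 < k0 → 2 * k0 ≤ k1 →
    C₀ * (C₀ / k0) ^ (N * E) ≤ 2 ^ J →
    RG (prod P (grid N J)) (blur (fun v => x v.1) (fun v => gp v.2) h) (fun v => Z v.1)
      (fun v => G v.1) E (C + N) (C₀ * (2 * C₀) ^ (N * E) * 2 ^ (C * E) * Γ) k1 := by
  obtain ⟨C₀, c1, r⟩ := grid_poly N E
  refine ⟨C₀, c1, fun P x Z G C J h Γ k0 k1 a k2 k3 k4 v hv g f ⟨F, hF, hf⟩ θ κ k5 k6 => ?_⟩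
  have v1 := ((mem_prod v).1 hv).1
  have k7 : k0 ≤ κ / 2 := by linarith
  have k8 : 0 < κ := by linarith
  rw [cv_prod v1, pb_prod'] at k6
  have k9 := (r J _ (deg_shA ((2 : ℝ) ^ h)⁻¹ (x v.1) hF)).1 (Γ * (κ / 2)⁻¹ ^ (C * E) * θ) (κ / 2)
    (half_pos k8) (le_trans (by gcongr) k4) ((rev_markov _ (fun _ _ => pb_le_one _ _) k8.le
      k6).trans (pb_mono fun t _ e => by
        have := a v.1 v1 g (fun u => f (u, t)) ⟨_, deg_shA 1 (((2 : ℝ) ^ h)⁻¹ • gp t) hF,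
          fun u => (hf _).trans (by rw [eval_shA, one_smul, add_comm]; rfl)⟩ θ _ k7 e
        rw [eval_shA]
        exact (congrArg abs (hf (v.1, t))).symm.trans_le this))
  rw [hf]
  refine (val_shA _ _ hF (gp_abs v.2)).trans (k9.trans_eq ?_)
  rw [add_mul, pow_add, div_div_eq_mul_div, div_eq_mul_inv, inv_div, div_eq_mul_inv, mul_pow,
    mul_pow, mul_pow, mul_pow]
  ring

end One

variable {Ω β : ℕ → Type} {N k C m : ℕ} {P : ∀ n, FP (Ω n)} {M J h t : ℕ → ℕ}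
  {x : ∀ n, Ω n → V N} {κ : ∀ n, Kd k (Ω n)}

theorem fine_ge (hM : Big M) (hJ : Fine M J) (A c : ℝ) :
    ∀ᶠ n in UF, A * Real.exp (c * M n) ≤ 2 ^ J n := by
  obtain ⟨R, hR⟩ := exists_nat_ge (2 * (c + 1))
  filter_upwards [hJ R, G39.big_dl hM A one_pos] with n a b
  rw [dl_inv] at b
  have a' : (R : ℝ) * M n ≤ J n := by exact_mod_cast a
  refine (mul_le_mul_of_nonneg_right b (Real.exp_pos _).le).trans (le_trans ?_ (exp_le_two_pow _))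
  rw [← Real.exp_add]
  exact Real.exp_le_exp.2 (by nlinarith [Nat.cast_nonneg (α := ℝ) (M n)])

theorem law_N (P : ∀ n, FP (Ω n)) (N : ℕ) (J : ℕ → ℕ) :
    ∀ᶠ n in UF, Law (NP P N J n) (Nπ Ω N J n) (P n) id :=
  Eventually.of_forall fun _ => law_fst _ _

theorem rem_nz {Z : ∀ n, Ω n → β n} (hM : Big M) (hJ : Fine M J) (a : ∀ K : ℕ, REM P x M Z C K)
    (K : ℕ) : REM (NP P N J) (blurs (pl (Nπ Ω N J) x) (Nξ Ω N J) h) M (pl (Nπ Ω N J) Z) (C + N) K := by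
  intro E
  obtain ⟨G, Γ, g, s, a⟩ := a (K + 1) E
  obtain ⟨C₀, c1, r⟩ := rg_nz N E
  refine ⟨_, _, whp_pull g (law_N P N J), s.const_mul hM
    (C := C₀ * (2 * C₀) ^ (N * E) * 2 ^ (C * E)) (one_le_mul_of_one_le_of_one_le
      (one_le_mul_of_one_le_of_one_le c1 (one_le_pow₀ (by linarith))) (one_le_pow₀ one_le_two)), ?_⟩
  filter_upwards [a, dl_lt hM one_half_pos one_pos,
    fine_ge hM hJ (C₀ * C₀ ^ (N * E)) ((N * E : ℕ) * ((K + 1 : ℕ) : ℝ))] with n a b c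
  refine r _ _ _ _ _ _ _ _ _ _ a (dl_pos _ _ _) ?_ (le_of_eq_of_le ?_ c)
  · push_cast
    rw [dl_add]
    nlinarith [dl_pos M K n]
  · rw [div_eq_mul_inv, mul_pow, dl_inv, ← Real.exp_nat_mul, mul_assoc, mul_assoc]

theorem full_xi (hM : Big M) (hJ : Fine M J) (P : ∀ n, FP (Ω n)) (N : ℕ) :
    Full (NP P N J) M (Nξ Ω N J) (Nπ Ω N J) := fun K =>
  full_coarse hM ⟨fun _ _ => True, _, Whp.of_ev (by simp), sub_one M,
    Eventually.of_forall fun n v hv c =>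
      (pb_cv_fst ((mem_prod v).1 hv).1 _ _).trans_le (pb_grid N (J n) c)⟩ (hJ K)

theorem gp_pull {W : ℕ → Type} {Q : ∀ n, FP (W n)} {ρ : ∀ n, W n → Ω n}
    {q : ∀ n, Ω n → ℝ → Prop} (a : Gp P M q) (e : ∀ᶠ n in UF, Law (Q n) (ρ n) (P n) id) :
    Gp Q M fun n v => q n (ρ n v) :=
  let ⟨Γ, s, b⟩ := gp_iff.1 a
  gp_iff.2 ⟨Γ, s, whp_pull b e⟩

theorem fnE_pull {W α : ℕ → Type} {Q : ∀ n, FP (W n)} {ρ : ∀ n, W n → Ω n} {F : ∀ n, Ω n → α n}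
    {A : ∀ n, Ω n → β n} (a : FnE P F A) (e : ∀ᶠ n in UF, Law (Q n) (ρ n) (P n) id) :
    FnE Q (pl ρ F) (pl ρ A) := (a.and e).mono fun _ b => b.2.fn b.1

theorem rem_pull {W : ℕ → Type} {Q : ∀ n, FP (W n)} {ρ : ∀ n, W n → Ω n} {Z : ∀ n, Ω n → β n}
    {K : ℝ} (a : REM P x M Z C K) (e : ∀ᶠ n in UF, Law (Q n) (ρ n) (P n) id) :
    REM Q (pl ρ x) M (pl ρ Z) C K := fun E => by
  obtain ⟨G, Γ, g, s, a⟩ := a E
  refine ⟨_, Γ, whp_pull g e, s, (a.and e).mono fun n ⟨a, e⟩ v hv g f ⟨F, hF, hf⟩ θ κ k1 k2 => ?_⟩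
  rw [hf]
  refine a _ (e.mem hv) g (fun u => eval (x n u) F) ⟨F, hF, fun _ => rfl⟩ θ κ k1 (k2.trans_eq ?_)
  simp only [hf]
  exact (KEA.law (Q n) (P n) (ρ n) id (fun ω => Z n ω = Z n (ρ n v)) e).pb_eq
    fun ω => G n ω ∧ |eval (x n ω) F| ≤ θ

/-- Kinds pull back. -/
theorem kind_pull {W : ℕ → Type} {Q : ∀ n, FP (W n)} {ρ : ∀ n, W n → Ω n} (hM : Big M)
    (a : Kind P M x κ C m) (e : ∀ᶠ n in UF, Law (Q n) (ρ n) (P n) id) :
    Kind Q M (pl ρ x) (fun n => (κ n).pull (ρ n)) C m where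
  bd := gp_pull (q := fun n ω Γ => ‖(κ n).p ω‖ ≤ Γ) a.bd e
  few := gp_pull a.few e
  rem K := rem_pull (a.rem K) e
  den K := full_pull (ρ := ρ) hM (a.den K) e
  wh j :=
    let ⟨_, Γ, g, s, b⟩ := a.wh j
    ⟨_, Γ, whp_pull g e, s, (b.and e).mono fun _ c =>
      wh_iff.2 (whs_pull (fun _ => c.2.mem) (wh_iff.1 c.1))⟩

theorem bdd_xi (P : ∀ n, FP (Ω n)) (M : ℕ → ℕ) (N : ℕ) (J : ℕ → ℕ) :
    Bdd (NP P N J) M (Nξ Ω N J) :=
  gp_of_sub (sub_one M) (Eventually.of_forall fun _ v _ => gp_norm v.2)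

theorem gd_nz (hM : Big M) {j : ℕ} (a : Gd P M fun n => (κ n).WhS (P n) (x n) m (t n) j) :
    Gd (NP P N J) M fun n => (((κ n).pull (Nπ Ω N J n)).nz (Nξ Ω N J n)).WhS (NP P N J n)
      (blurs (pl (Nπ Ω N J) x) (Nξ Ω N J) h n) m (t n) j :=
  let ⟨_, _, g, s, b⟩ := a
  ⟨_, _, whp_pull g (law_N P N J), s.const_mul hM (C := 3) (by norm_num), b.mono fun n c =>
    whs_nz (h n) (fun v _ _ => (gp_norm v.2).trans (s.1 n)) (s.1 n)
      (whs_pull (fun v hv => ((mem_prod v).1 hv).1) c)⟩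

theorem den_nz (hM : Big M) (hJ : Fine M J) (a : Kind P M x κ C m) : Full (NP P N J) M
    (fun n => (((κ n).pull (Nπ Ω N J n)).nz (Nξ Ω N J n)).p) fun n v => (κ n).Z v.1 := fun K =>
  full_append hM (full_pull (ρ := Nπ Ω N J) hM (a.den K) (law_N P N J))
    (full_ctx hM (full_xi hM hJ P N K) (Eventually.of_forall fun n _ _ _ _ e =>
      congrArg (fun ω => (fl (K * M n) ((κ n).p ω), (κ n).Z ω)) e))

/-- A kind with fresh noise. -/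
theorem kind_nz (hM : Big M) (hJ : Fine M J) (a : Kind P M x κ C m) :
    Kind (NP P N J) M (blurs (pl (Nπ Ω N J) x) (Nξ Ω N J) h)
      (fun n => ((κ n).pull (Nπ Ω N J n)).nz (Nξ Ω N J n)) (C + N) m where
  bd := (gp_pull a.bd (law_N P N J)).mono (Eventually.of_forall fun _ v _ _ b c =>
    norm_append _ _ (zero_le_one.trans b) c ((gp_norm v.2).trans b))
  few := gp_pull a.few (law_N P N J)
  rem := rem_nz hM hJ a.rem
  den := den_nz hM hJ a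
  wh j := (gd_nz (t := fun _ => 0) hM ((a.wh j).mono
    (Eventually.of_forall fun _ _ _ _ => wh_iff.1))).mono
      (Eventually.of_forall fun _ _ _ _ => wh_iff.2)

theorem nz_kind (hM : Big M) (hJ : Fine M J) (_ : Lin M h) (a : KindS P M x κ C m t) :
    KindS (NP P N J) M (blurs (pl (Nπ Ω N J) x) (Nξ Ω N J) h)
      (fun n => ((κ n).pull (Nπ Ω N J n)).nz (Nξ Ω N J n)) (C + N) m t ∧
    Nse (NP P N J) M (pl (Nπ Ω N J) x) (Nξ Ω N J) (fun n => (κ n).pull (Nπ Ω N J n)) C :=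
  ⟨⟨kind_nz hM hJ a.kd, fun j => gd_nz hM (a.wh j)⟩,
    ⟨kind_pull hM a.kd (law_N P N J), bdd_xi P M N J, den_nz hM hJ a.kd⟩⟩

end Pool.Agent.MP_5168f5_an.AN.S20
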