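import Pool.Agent.MP_5168f5_an.AN.RlSeq
import Pool.Agent.MP_5168f5_an.AN.Api2
import Pool.Agent.MP_5168f5_an.AN.S20Nz2

/-! Kakeya sets in all dimensions: elementary operations on kinds. -/

namespace Pool.Agent.MP_5168f5_an.AN.KO

open H19 H17S H17F R4 Filter MvPolynomial Rl
open G39 (RG dl REM dl_pos dl_add sub_dl)
open Pk (cn)
open Nc (Pl ev)
open S20 (dn FS gp_iff)

variable {Ω α β : ℕ → Type} {N k C C' m : ℕ} {P : ∀ n, FP (Ω n)} {M t t' : ℕ → ℕ}
  {x : ∀ n, Ω n → V N} {κ : ∀ n, Kd k (Ω n)} {c : ℝ}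

theorem rem_mono {Z : ∀ n, Ω n → β n} {K : ℝ} (h : REM P x M Z C K) (e : C ≤ C') :
    REM P x M Z C' K := fun E => by
  obtain ⟨G, Γ, a, b, c⟩ := h E
  refine ⟨G, Γ, a, b, c.mono fun n u ω hω g f hf θ κ v w => (u ω hω g f hf θ κ v w).trans ?_⟩
  have k0 := (dl_pos _ _ _).trans_le v
  obtain ⟨y, -, z⟩ := ex_of_pb (k0.trans_le w)
  exact mul_le_mul_of_nonneg_right (mul_le_mul_of_nonneg_left (pow_le_pow_right₀
    ((one_le_inv₀ k0).2 (w.trans (pb_le_one _ _))) (Nat.mul_le_mul_right _ e)) (b.pos n).le)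
    ((abs_nonneg _).trans z.2)

theorem mono (h : Kind P M x κ C m) (e : C ≤ C') : Kind P M x κ C' m :=
  ⟨h.bd, h.few, fun K => rem_mono (h.rem K) e, h.den, h.wh⟩

/-- The jets in the zoomed parameter. -/
theorem wh_zm {Ω : Type} {P : FP Ω} {x : Ω → V N} {κ : Kd k Ω} {G : Ω → Prop} {Γ : ℝ} {j : ℕ}
    (t : ℕ) (h0 : 0 ≤ Γ) (h : κ.Wh P x m j G Γ) : (κ.zm t).WhS P x m t j G Γ := by
  obtain ⟨τ, h⟩ := h
  have r0 : (0 : ℝ) < (2 ^ t)⁻¹ := by positivity
  have r1 : ((2 : ℝ) ^ t)⁻¹ ≤ 1 := inv_le_one_of_one_le₀ (one_le_pow₀ one_le_two)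
  refine ⟨fun ω i => ts (j + 1) (2 ^ t)⁻¹ (τ ω i), fun ω hω g => ?_⟩
  obtain ⟨a, ⟨r, c, b⟩, d⟩ := h ω hω g
  refine ⟨fun i => ⟨deg_ts _ _ _, (cn_ts_le _ r0.le r1 _).trans (a i).2⟩, ⟨r, c, b.trans_eq ?_⟩,
    fun v hv g' e _ => ?_⟩
  · have : (Matrix.of fun a b => coeff (Finsupp.single (c b) 1) (ts (j + 1) (2 ^ t)⁻¹ (τ ω (r a)))) =
        ((2 : ℝ) ^ t)⁻¹ • Matrix.of fun a b => coeff (Finsupp.single (c b) 1) (τ ω (r a)) := by
      ext a b
      simp [coeff_ts_one]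
    rw [this, Matrix.det_smul, Fintype.card_fin, abs_mul, abs_of_pos (pow_pos r0 _), ← mul_assoc,
      ← mul_pow, mul_inv_cancel₀ (by positivity), one_pow, one_mul]
  · have e1 : ev (fun i => ts (j + 1) (2 ^ t)⁻¹ (τ ω i)) (ds κ t ω v) = ev (τ ω) (κ.p v - κ.p ω) :=
      funext fun i => by
        simp only [ev]
        rw [eval_ts, ts_one (a i).1, ds_inv e]
    have e2 : ‖κ.p v - κ.p ω‖ ≤ ‖ds κ t ω v‖ := by
      rw [← ds_inv e, norm_smul, Real.norm_eq_abs, abs_of_pos r0]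
      exact mul_le_of_le_one_left (norm_nonneg _) r1
    change ‖x v - ev _ (ds κ t ω v)‖ ≤ Γ * ‖ds κ t ω v‖ ^ (j + 2)
    rw [e1]
    exact (d v hv g' (pc_Z e) (pc_W e)).trans (by gcongr)

theorem zm (hM : Big M) (h : Kind P M x κ C m) (ht : Lin M t)
    (r : ∀ K : ℕ, REM P x M (fun n => (κ n).pc (t n)) C' K) :
    KindS P M x (fun n => (κ n).zm (t n)) C' m t :=
  have w : ∀ j, Gd P M fun n => ((κ n).zm (t n)).WhS (P n) (x n) m (t n) j := fun j =>
    (h.wh j).mono (Eventually.of_forall fun n _ _ a => wh_zm (t n) (zero_le_one.trans a))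
  ⟨⟨gp_of_sub (sub_one M) (Eventually.of_forall fun _ _ _ => norm_le_one_of_box (fr_box _ _)),
    gp_of_sub (sub_one M) (Eventually.of_forall fun _ _ _ => by simp), r,
    zm_full hM h.bd h.few h.den ht,
    fun j => (w j).mono (Eventually.of_forall fun _ _ _ a b => S20.whs_zero b a)⟩, w⟩

/-- A context with few values keeps the inequality of Remez. -/
theorem rem_ctx {Z : ∀ n, Ω n → β n} {be : ∀ n, Ω n → ℕ} (hM : Big M)
    (h : ∀ K : ℕ, REM P x M Z C K) (hb : Few P M 0 be) (K : ℕ) :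
    REM P x M (fun n ω => (be n ω, Z n ω)) C K := fun E => by
  obtain ⟨G, Γ, a, b, c⟩ := h (K + 1) E
  obtain ⟨L, l, d⟩ := gp_iff.1 ((S20.fs_idx0 hM hb Z).low hM (S20.fnE_const _))
  refine ⟨_, _, a.and d, b.mul (l.pow (C * E)), ?_⟩
  filter_upwards [c, sub_dl l one_pos] with n u s ω hω g f hf θ q v w
  have l0 := l.pos n
  have d0 := dl_pos M 1 n
  have q0 := (dl_pos _ _ _).trans_le v
  have g2 := g.2
  rw [mul_one] at g2
  refine (u ω hω g.1 f hf θ (q / L n) ?_ ?_).trans_eq (by rw [inv_div, div_eq_mul_inv, mul_pow]; ring)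
  · rw [le_div_iff₀ l0, Nat.cast_succ, dl_add, mul_assoc]
    refine (mul_le_of_le_one_right (dl_pos _ _ _).le ?_).trans v
    exact (mul_le_mul_of_nonneg_left s d0.le).trans_eq (mul_inv_cancel₀ d0.ne')
  · have := mul_le_mul_of_nonneg_left w (zero_le_one.trans g2)
    rw [mul_assoc (L n) _ (pb _ _), S20.dn_mul hω] at this
    exact (div_le_iff₀' l0).2 ((le_mul_of_one_le_left q0.le g2).trans (this.trans
      (mul_le_mul_of_nonneg_left (pb_mono fun y _ z => ⟨z.1.1.1, z.1.2⟩) l0.le)))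

theorem ctx {be : ∀ n, Ω n → ℕ} (hM : Big M) (h : Kind P M x κ C m) (hb : Few P M 0 be) :
    Kind P M x (fun n => (κ n).ctx (be n)) C m :=
  ⟨h.bd, h.few, rem_ctx hM h.rem hb, fun K => S20.full_side hM (h.den K) hb,
    fun j => (h.wh j).mono (Eventually.of_forall fun _ _ _ _ ⟨τ, a⟩ => ⟨τ, fun ω hω g =>
      ⟨(a ω hω g).1, (a ω hω g).2.1, fun v hv g' e =>
        (a ω hω g).2.2 v hv g' (congrArg Prod.snd e)⟩⟩)⟩

/-- A code that is small on a finite set. -/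
theorem ex_code {α : Type} [Countable α] (T : Finset α) :
    ∃ f : α → ℕ, Function.Injective f ∧ ∀ a ∈ T, f a ≤ T.card := by
  classical
  obtain ⟨g, hg⟩ := Countable.exists_injective_nat α
  refine ⟨fun a => if h : a ∈ T then (T.equivFin ⟨a, h⟩ : ℕ) else T.card + g a, fun a b e => ?_,
    fun a h => by simp only [dif_pos h]; exact (T.equivFin ⟨a, h⟩).2.le⟩
  by_cases u : a ∈ T <;> by_cases v : b ∈ T <;> simp only [u, v, dif_pos, dif_neg,
    not_false_eq_true] at e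
  · exact congrArg Subtype.val (T.equivFin.injective (Fin.ext e))
  · have := (T.equivFin ⟨a, u⟩).2
    omega
  · have := (T.equivFin ⟨b, v⟩).2
    omega
  · exact hg (by omega)

/-- Few values are coded by small numbers. -/
theorem code [∀ n, Countable (α n)] {Y : ∀ n, Ω n → α n} {A : ∀ n, Ω n → β n} {s : ℕ → ℕ}
    (h : FS P M Y A fun n _ => (2 ^ s n) ^ k) (e : Le M (fun n => (s n : ℝ)) (un M c)) :
    ∃ be : ∀ n, Ω n → ℕ, Few P M (k * lg * c) be ∧
      ∀ n u w, A n u = A n w → (be n u = be n w ↔ Y n u = Y n w) := by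
  obtain ⟨G, Γ, g, l, h⟩ := h
  have key : ∀ n z, ∃ f : α n → ℕ, Function.Injective f ∧ ((∀ a ∈ (P n).S, G n a →
      ∃ T : Finset (α n), (T.card : ℝ) ≤ Γ n * (2 ^ s n) ^ k ∧
        ∀ v ∈ (P n).S, A n v = A n a → G n v → Y n v ∈ T) →
      ∀ w ∈ (P n).S, G n w → A n w = z → (f (Y n w) : ℝ) ≤ Γ n * (2 ^ s n) ^ k) := fun n z => by
    by_cases c : ∃ T : Finset (α n), (T.card : ℝ) ≤ Γ n * (2 ^ s n) ^ k ∧
        ∀ v ∈ (P n).S, A n v = z → G n v → Y n v ∈ T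
    · obtain ⟨T, a, b⟩ := c
      obtain ⟨f, i, j⟩ := ex_code T
      exact ⟨f, i, fun _ w hw u v => le_trans (by exact_mod_cast j _ (b w hw v u)) a⟩
    · obtain ⟨f, i⟩ := Countable.exists_injective_nat (α n)
      exact ⟨f, i, fun a w hw u v => absurd (v ▸ a w hw u) c⟩
  choose f i j using key
  have l0 : (0 : ℝ) ≤ k * lg := mul_nonneg k.cast_nonneg (Real.log_nonneg one_le_two)
  obtain ⟨L, l', b⟩ := sub_of_le (e.smul l0)
  refine ⟨fun n u => f n (A n u) (Y n u), ⟨G, _, g, l.mul l', h.mono fun n a ω hω u =>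
    (j n _ a ω hω u rfl).trans ?_⟩, fun n u w z => by simp only [z]; exact (i n _).eq_iff⟩
  rw [mul_assoc]
  refine mul_le_mul_of_nonneg_left (le_trans (le_of_eq ?_) ((b n).trans_eq (by
    rw [un, mul_assoc _ c]))) (l.pos n).le
  rw [mul_right_comm, ← Nat.cast_mul, Real.exp_nat_mul, lg, Real.exp_log two_pos, ← pow_mul,
    mul_comm]

theorem dig (hM : Big M) (h : ∀ᶠ n in UF, t n ≤ t' n)
    (e : Le M (fun n => (t' n : ℝ) - t n) (un M c)) :
    ∃ be : ∀ n, Ω n → ℕ, Few P M (k * lg * c) be ∧ ∀ᶠ n in UF, ∀ u v,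
      (κ n).pc (t' n) u = (κ n).pc (t' n) v ↔
        (be n u, (κ n).pc (t n) u) = (be n v, (κ n).pc (t n) v) := by
  obtain ⟨be, a, b⟩ := code (P := P) (A := fun n => (κ n).pc (t n)) (s := fun n => t' n - t n)
    (S20.fs_near (y := fun n => (κ n).p) (j := t') hM
      (Eventually.of_forall fun n => one_le_pow₀ one_le_two)
      ⟨fun _ _ => True, _, Whp.of_ev (Eventually.of_forall fun _ _ _ => trivial), sub_one M,
        h.mono fun n u a _ b _ _ _ z => (norm_sub_lt_of_fl_eq (pc_p z)).le.trans_eq (by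
          rw [← Nat.sub_add_cancel u, Nat.add_sub_cancel, pow_add]
          field_simp)⟩)
    (e.congr (h.mono fun n u => Nat.cast_sub u) (Eventually.of_forall fun _ => rfl))
  refine ⟨be, a, h.mono fun n u v w => ⟨fun z => ?_, fun z => ?_⟩⟩
  · exact Prod.ext ((b n v w (pc_mono u z)).2 (pc_p z)) (pc_mono u z)
  · have z2 := congrArg Prod.snd z
    exact Prod.ext (pc_Z z2) (Prod.ext (pc_W z2) ((b n v w z2).1 (congrArg Prod.fst z)))

theorem dig0 (hM : Big M) (bd : Bdd P M fun n => (κ n).p) (few : Few P M 0 fun n => (κ n).W)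
    (e : Le M (fun n => (t n : ℝ)) (un M c)) : ∃ be : ∀ n, Ω n → ℕ, Few P M (k * lg * c) be ∧
      ∀ n u v, (κ n).pc (t n) u = (κ n).pc (t n) v ↔
        (be n u, (κ n).Z u) = (be n v, (κ n).Z v) := by
  obtain ⟨be, a, b⟩ := code (P := P) (Y := fun n ω => ((κ n).W ω, fl (t n) ((κ n).p ω)))
    (A := fun n => (κ n).Z) (by
      simpa only [one_mul] using S20.fs_pair (fun _ => zero_le_one) (fun n => by positivity)
        (S20.fs_idx0 hM few fun n => (κ n).Z) (S20.fs_bdd hM bd _ t)) e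
  exact ⟨be, a, fun n u v => ⟨fun z => Prod.ext ((b n u v (pc_Z z)).2 (congrArg Prod.snd z))
    (pc_Z z), fun z => Prod.ext (congrArg Prod.snd z)
      ((b n u v (congrArg Prod.snd z)).1 (congrArg Prod.fst z))⟩⟩

end Pool.Agent.MP_5168f5_an.AN.KO

namespace Pool.Agent.MP_5168f5_an.AN

theorem kOp : KOp :=
  ⟨fun _ h e => ⟨KO.mono h e, (KO.mono h e).zero⟩, KO.zm, KO.ctx, KO.dig, KO.dig0⟩

end Pool.Agent.MP_5168f5_an.AN
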