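import Pool.Agent.MP_5168f5_an.AN.MSpec2
import Pool.Agent.MP_5168f5_an.AN.GKOp

/-! Kakeya sets in all dimensions: the first noise and the chain of cells. -/

namespace Pool.Agent.MP_5168f5_an.AN

open H19 H17S H17F R4 Filter MvPolynomial
open G39 (dl sub_dl)
open Nc (Pl)
open A1 (Floor)

namespace Co2

variable {Ω Λ : ℕ → Type} {k m : Bool → ℕ} {d C : ℕ} {P : ∀ n, FP (Ω n)} {M : ℕ → ℕ}
  {y : ∀ n, Ω n → V (d + 1)} {s : ∀ n, Sy k (Ω n)} {A : ∀ n, Ω n → Λ n} {η : ℝ}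

variable (M y s C m A η) in
/-- The part of the data that does not mention the chain. -/
structure St1 (P : ∀ n, FP (Ω n)) : Prop where
  sys : Sys P M y s C m
  sure : Sure P M y
  ra : ∀ c, RA P M y (fun n => s n c) C
  min : MIN P M y (lab s)
  com : Com P (lab s) A
  hvy : Heavy P M y A M (un M η)

theorem St1.sl (h1 : Her1) (h2 : Her2) (e : St1 m C M y s A η P) : SL P (St1 m C M y s A η) :=
  have hM := e.sys.big
  ((e.sys.sl h1).and ((sl_all fun c => (e.ra c).sl h1 hM).and ((NT.sl h2 hM e.min).and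
    (e.hvy.sl h1 hM)))).mono fun E ⟨a, b, c, d⟩ =>
    ⟨a, e.sure.cE E, b, c, fun b => (e.com b).cE E, d⟩

/-- The chain exists after conditioning. -/
theorem chain (sv : SLVol) (h1 : Her1) (h2 : Her2) (hU : UDc) (e : St1 m C M y s A η P)
    (fl : ∀ a : ℚ≥0, Floor P M y (pcs s (fun _ => lev M a) true)) :
    ∃ (Λ' : ℕ → Type) (Q : ∀ n, FP (Ω n)) (S : ℚ≥0 → ∀ n, Ω n → Λ' n)
      (Θ : ℚ≥0 → ∀ n, Ω n → Fin (d + 1) → Pl (d + 1)) (D : ℕ) (U G : ℚ≥0 → ℝ),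
      St2 Q M y s C m A η S Θ D U G := by
  have hM := e.sys.big
  obtain ⟨L, l1, l2⟩ := e.sl h1 h2
  obtain ⟨Γ, g1, g2⟩ := S20.gp_iff.1 e.sys.bd
  have mo : ∀ a a' : ℚ≥0, a ≤ a' → ∀ n, lev M a n ≤ lev M a' n := fun a a' u =>
    lev_mono M (NNRat.cast_le.2 u)
  obtain ⟨Λ', G, S, a1, a2, a3⟩ := A1.a1 (I := ℚ≥0) (K := 1) P y
    (fun b a => pcs s (fun _ => lev M a) b) (fun _ => A) hM l1
    (g2.mono ((sub_dl g1 one_pos).mono fun n u ω _ v => v.trans u))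
    (fun b a a' u => fnE_of fun n p q z => Prod.ext (congrArg (·.1) z) (Prod.ext
      (congrArg (·.2.1) z) (fl_eq_of_le (mo a a' u n) (congrArg (·.2.2) z))))
    (fun a b => (e.com b).trans (fnE_of fun n p q z => congrArg (·.1) z))
    (fun _ _ _ => S20.fnE_rfl) fun a => ⟨true, fl a⟩
  have e1 := l2 G a1
  obtain ⟨D, hU⟩ := hU (d + 1) C
  choose Θ hΘ using fun a : ℚ≥0 => hU _ _ _ _ M y _ (S a) hM
    (fun b => e1.ra b _ (lin_lev M a)) (a3 a).2.1 (a3 a).2.2.nz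
  have ch : Chn (fun n => cE (P n) (G n)) M y s (fun (a : ℚ≥0) _ => lev M a) S Θ D :=
    ⟨fun a a' u _ => .of_forall (mo a a' u), a2, hΘ⟩
  obtain ⟨E, U, G', ⟨b1, b2, b3, b4⟩, b5⟩ := sv ((e1.sl h1 h2).and ((ch.sl h1 h2 hM).and
    ((sl_all fun a => (a3 a).1.sl).and (sl_all fun a => (a3 a).2.2.sl2 h2 hM (a3 a).2.1))))
    hM e1.sure hΘ fun a => (a3 a).2.2
  exact ⟨Λ', _, S, Θ, D, U, G', b1.sys, b1.sure, b1.ra, b1.min, b1.com, b1.hvy, b2, b3, b4,
    fun a => (b5 a).1, fun a => (b5 a).2.1, fun a => (b5 a).2.2⟩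

end Co2

open Co2

theorem ofCore2 (sv : SLVol) : OfCore2 := by
  intro h1 h2 hF hR hK hZ hU _ _ d mm core Ω Λ k m C P M x s A η e o hη hs su mn cm hv
  have hM := hs.big
  let J : ℕ → ℕ := fun n => M n * M n
  have hJ : Fine M J := fun R => (hM.ev R).mono fun n u =>
    Nat.mul_le_mul_right _ (by exact_mod_cast u)
  have hd := K31.dnS_law (S20.law_N P (d + 1) J)
  have kd := fun b => (hZ.kind hM hJ (lin_rfl M) (hs.kd b).toS).1.kind
  have fl := fun t ht => hZ.flr (t := t) hM hJ (lin_rfl M) ht hs.bd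
  choose C' c1 c2 using fun b => hR (k b + (d + 1)) (C + (d + 1))
  have c3 : ∀ b, C' b ≤ C' true + C' false := fun b => by cases b <;> simp
  have nr : ∀ n v, ‖blurs (pl (Nπ Ω (d + 1) J) x) (Nξ Ω (d + 1) J) M n v - x n v.1‖ ≤
      1 / 2 ^ M n := fun n v => by
    simp only [blur, add_sub_cancel_left, norm_smul, norm_inv, norm_pow, Real.norm_ofNat, one_div]
    exact mul_le_of_le_one_right (by positivity) (S20.gp_norm _)
  have s1 : Sure (NP P (d + 1) J) M (blurs (pl (Nπ Ω (d + 1) J) x) (Nξ Ω (d + 1) J) M) := by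
    obtain ⟨Γ, a, b⟩ := su.her hd
    refine ⟨_, a.const_mul hM one_le_two, b.mono fun n u v hv => (norm_le_insert' _ (x n v.1)).trans ?_⟩
    linarith [u v hv, (nr n v).trans (div_le_one_of_le₀ (one_le_pow₀ one_le_two) (by positivity)),
      a.1 n]
  obtain ⟨Λ', Q, S, Θ, D, U, G, st⟩ := chain (C := C' true + C' false) (m := m) (η := η)
    (A := pl (Nπ Ω (d + 1) J) A)
    (s := fun n b => ((s n b).pull (Nπ Ω (d + 1) J n)).nz (Nξ Ω (d + 1) J n)) sv h1 h2 hU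
    ⟨⟨hM, s1.bdd, fun b => (hK.mono hM (kd b) ((c1 b).trans (c3 b))).1⟩, s1,
      fun b t ht K => KO.rem_mono (c2 b _ _ _ M _ _ hM (kd b).zero (floor_mono
        (fl _ (lin_rfl M)) (fnE_of fun n p q z => congrArg (fun w => (s n b).Z w.1) z)) t ht K) (c3 b),
      (congrArg (NT _ M · _ _) (chs_X _)).mp (hZ.min (h := M) (Θ := fun _ _ => X) hM hJ
        (fun _ _ _ => (totalDegree_X _).le) ((congrArg (NT P M · _ _) (chs_X x)).mpr mn)),
      (cm.her h1 hd :), hF.near (y := pl (Nπ Ω (d + 1) J) x) hM (gp_of_whp (Whp.of_ev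
        (.of_forall fun n v _ => by rw [norm_sub_rev]; exact nr n v))) (hv.her h1 hd hM)⟩
    fun a => floor_mono (fl _ (lin_lev M a)) (fnE_of fun n p q z => by
      have z1 : Nπ Ω (d + 1) J n p = Nπ Ω (d + 1) J n q := congrArg (·.1) z
      have z2 := congrArg (·.2) z
      simp only [Kd.pc, S20.fl_append] at z2 ⊢
      rw [z1, z2])
  exact core _ _ _ _ m _ D Q M _ _ _ η S Θ U G e o hη st

end Pool.Agent.MP_5168f5_an.AN
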