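import Pool.Agent.MP_5168f5_an.AN.MSpec2

/-! Kakeya sets in all dimensions: the count along the chain. -/

namespace Pool.Agent.MP_5168f5_an.AN

open H19 H17S H17F R4 Filter MvPolynomial
open G39 (nu RG dl REM)
open Nc (Pl ev jac)
open S20 (gp_iff fnE_rfl)

namespace FinA

variable {Ω Λ Λ' Λ'' : ℕ → Type} {β : Bool → ℕ → Type} {d D : ℕ} {P : ∀ n, FP (Ω n)} {M : ℕ → ℕ}

theorem two_pow (a : ℕ) : (2 : ℝ) ^ a = Real.exp (a * lg) := by
  rw [Real.exp_nat_mul, lg, Real.exp_log two_pos]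

theorem cel_mono {N D' : ℕ} {x : ∀ n, Ω n → V N} {Z : ∀ b n, Ω n → β b n} {A : ∀ n, Ω n → Λ n}
    {Θ : ∀ n, Ω n → Fin N → Pl N} (e : Cel P M x Z A Θ D) (h : D ≤ D') : Cel P M x Z A Θ D' :=
  ⟨e.cm, e.frm.fn, fun n ω i => (e.frm.deg n ω i).trans h, e.frm.bd, e.frm.min⟩

theorem few_mono {c c' : ℝ} {be : ∀ n, Ω n → ℕ} (e : Few P M c be) (h : c ≤ c') : Few P M c' be :=
  Gp.mono e (Eventually.of_forall fun n _ _ Γ a b => b.trans (mul_le_mul_of_nonneg_left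
    (Real.exp_le_exp.2 (mul_le_mul_of_nonneg_right h (Nat.cast_nonneg _))) (by linarith)))

theorem jacX {N : ℕ} : jac (X : Fin N → Pl N) = 1 := by
  have : Nc.jm (X : Fin N → Pl N) = 1 := by
    ext1 i j
    by_cases h : i = j <;> simp [Nc.jm, Matrix.one_apply, pderiv_X, Pi.single_apply, h]
  rw [jac, this, Matrix.det_one]

theorem vol_X {N : ℕ} (y : ∀ n, Ω n → V N) : Vol P M y (fun _ _ => X) (un M 0) :=
  gp_of_whp (Whp.of_ev (Eventually.of_forall fun n ω _ => by simp [jacX, un]))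

theorem dz_X {N : ℕ} (hM : Big M) (y : ∀ n, Ω n → V N) (g : ℕ → ℕ) :
    DzLe P M y (fun _ _ => (X : Fin N → Pl N)) g :=
  gp_of_sub (hM.sub (C := N * N + 1) (by linarith [mul_self_nonneg (N : ℝ)]))
    (Eventually.of_forall fun n ω _ => by
      have h1 : dsz (X : Fin N → Pl N) (y n ω) ≤ ∑ _i : Fin N, ∑ _j : Fin N, (1 : ℝ) :=
        Finset.sum_le_sum fun i _ => Finset.sum_le_sum fun j _ => by
          by_cases h : i = j <;> simp [pderiv_X, h]
      have h2 : (1 : ℝ) ≤ 2 ^ g n := one_le_pow₀ one_le_two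
      simp only [Finset.sum_const, Finset.card_univ, Fintype.card_fin, nsmul_eq_mul, mul_one] at h1
      nlinarith [mul_self_nonneg (N : ℝ)])

/-- The volume of a cell of depth at most one. -/
theorem vol_le (c2 : Cel2) (hM : Big M) {y : ∀ n, Ω n → V (d + 1)} {Z : ∀ b n, Ω n → β b n}
    {A : ∀ n, Ω n → Λ n} {Θ : ∀ n, Ω n → Fin (d + 1) → Pl (d + 1)} {w : ℝ} (e : Cel P M y Z A Θ D)
    (s : Sure P M y) (l : DLe P M y A M) (v : Vol P M y Θ (un M w)) : w ≤ (d + 1) * lg := by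
  obtain ⟨a, a1, a2⟩ := gp_iff.1 (c2.dv hM e s)
  obtain ⟨b, b1, b2⟩ := gp_iff.1 ((c2.dle hM e).1.2 l)
  obtain ⟨c, c1, c2⟩ := gp_iff.1 v
  refine Le.num hM (le_of_gp (P := P) (gp_iff.2 ⟨_, c1.mul (a1.mul (b1.pow (d + 1))),
    ((a2.and b2).and c2).mono (Eventually.of_forall fun n ω _ ⟨⟨p, q⟩, r⟩ => ?_)⟩))
  have := a1.pos n
  have := c1.pos n
  have h0 : 0 ≤ dsz (Θ n ω) (y n ω) :=
    Finset.sum_nonneg fun _ _ => Finset.sum_nonneg fun _ _ => abs_nonneg _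
  have h1 : Real.exp ((d + 1) * lg * M n) = (2 ^ M n) ^ (d + 1) := by
    rw [← pow_mul, two_pow]; push_cast; ring_nf
  rw [h1]
  calc _ ≤ c n * (a n * (b n * 2 ^ M n) ^ (d + 1)) :=
        r.1.trans (mul_le_mul_of_nonneg_left (p.2.2.trans (by gcongr)) (by positivity))
    _ = _ := by rw [mul_pow]; ring

/-- A cut of the levels. -/
theorem cut (G : ℚ≥0 → ℝ) {t : ℝ} {ε : ℚ≥0} (h0 : 0 < ε) (h1 : ε ≤ 1) (h : t < G 1)
    (h' : G ε ≤ t) : ∃ b e : ℚ≥0, ε ≤ b ∧ b ≤ 1 ∧ b ≤ e ∧ e ≤ b + ε ∧ t < G e ∧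
      ∀ a, ε ≤ a → a ≤ b → G a ≤ t := by
  classical
  have ex : ∃ i : ℕ, ∃ a, ε ≤ a ∧ a ≤ (i + 1) * ε ∧ t < G a := by
    obtain ⟨i, hi⟩ := Archimedean.arch 1 h0
    exact ⟨i, 1, h1, hi.trans (by rw [nsmul_eq_mul]; gcongr; exact le_self_add), h⟩
  obtain ⟨e, e1, e2, e3⟩ := Nat.find_spec ex
  rcases hi : Nat.find ex with _ | i
  · rw [hi] at e2
    rw [le_antisymm (by simpa using e2) e1] at e3
    exact absurd h' e3.not_ge
  · have k : ∀ a, ε ≤ a → a ≤ (i + 1) * ε → G a ≤ t := fun a u v =>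
      not_lt.1 fun r => Nat.find_min ex (hi ▸ i.lt_succ_self) ⟨a, u, v, r⟩
    rw [hi] at e2
    refine ⟨(i + 1) * ε, e, le_mul_of_one_le_left h0.le le_add_self, ?_, ?_, e2.trans_eq ?_, e3, k⟩
    · exact not_lt.1 fun r => (k 1 h1 r.le).not_gt h
    · exact not_lt.1 fun r => (k e e1 r.le).not_gt e3
    · push_cast; ring

variable {k m : Bool → ℕ} {x ξ : ∀ n, Ω n → V (d + 1)} {s : ∀ n, Sy k (Ω n)} {C C' : ℕ}
  {A : ∀ n, Ω n → Λ n} {η : ℝ} {S : ℚ≥0 → ∀ n, Ω n → Λ' n}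
  {Θ : ℚ≥0 → ∀ n, Ω n → Fin (d + 1) → Pl (d + 1)} {U G H : ℚ≥0 → ℝ} {e : ℚ≥0}
  {Q : ∀ n, Ω n → Λ'' n} {Φ : ∀ n, Ω n → Fin (d + 1) → Pl (d + 1)} {w uT uQ : ℝ}

/-- At level one the depth is at least one. -/
theorem one_le (c2 : Cel2) (h : St2 P M x s C m A η S Θ D U G) : 1 ≤ G 1 := by
  have hM := h.sys.big
  have h1 := c2.ball h.sys (h.chn.cel 1).cm
  have h2 := (c2.dle hM (h.chn.cel 1)).1.1 (h.dzl 1) 1
  have h3 := le_of_gp (u := fun n => lg * M n) (v := fun n => lg * max (G 1) 0 * M n)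
    (h2.mul h1 (Eventually.of_forall fun n ω _ Γ Γ' a b p q => by
      obtain ⟨c, q⟩ := q 0
      have p := p (X 0 - MvPolynomial.C c)
        ((totalDegree_sub _ _).trans (by simp [totalDegree_X])) 0
      have r : nc (P n) (x n) (S 1 n) ω (pderiv 0 (X 0 - MvPolynomial.C c)) = 1 := by
        simp [nc, nu, FP.E_const]
      rw [r] at p
      have u := p.trans (mul_le_mul_of_nonneg_left q (by positivity))
      rw [NNRat.cast_one, lev_one, ← mul_div_assoc, one_le_div (by positivity), two_pow,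
        two_pow] at u
      have v : (lev M (G 1) n : ℝ) ≤ max (G 1) 0 * M n := le_trans
        (by exact_mod_cast lev_mono M (le_max_left _ _) n) (lev_le' M (le_max_right _ _) n)
      rw [mul_comm lg]
      refine u.trans ?_
      rw [mul_right_comm]
      exact mul_le_mul_of_nonneg_left (Real.exp_le_exp.2 (by nlinarith [lg_pos])) (by positivity)))
  have h4 := le_of_mul_le_mul_left (a := lg) (b := 1) (by simpa using Le.num hM h3) lg_pos
  exact (le_max_iff.1 h4).resolve_right (by norm_num)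

theorem monoU (c2 : Cel2) (h : St2 P M x s C m A η S Θ D U G) : Monotone U := fun a a' u => by
  have hM := h.sys.big
  refine Le.num hM (le_of_gp (P := P) (((h.vol a).mul (c2.vm hM (h.chn.cel a).frm (h.chn.cel a')
    (h.chn.nest a a' u)) (r := fun n ω Γ => Real.exp (un M (U a) n) ≤
      Γ * |eval (x n ω) (jac (Θ a' n ω))|) (Eventually.of_forall fun n ω _ Γ Γ' p _ q r => ?_)).mul
    (h.vol a') (Eventually.of_forall fun n ω _ Γ Γ' p _ q r => ?_)))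
  · rw [mul_assoc]
    exact q.1.trans (mul_le_mul_of_nonneg_left r (by linarith))
  · rw [mul_assoc]
    exact q.trans (mul_le_mul_of_nonneg_left r.2 (by linarith))

variable (h : St3 P M x ξ s C C' m A η S Θ D U G H e Q Φ w uT uQ)
include h

theorem monoH (fa : FullApi) : Monotone H := fun a a' u =>
  Le.num h.st.sys.big (fa.hl h.st.sys.big (h.st.chn.nest a a' u) (h.hS a) (h.lS a'))

theorem eta_le (fa : FullApi) : η ≤ uT := by
  have hM := h.st.sys.big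
  refine Le.num hM (fa.hl hM fnE_rfl (fa.fine hM (Eventually.of_forall fun n => ?_)
    (fa.near hM (Gp.mono h.xi (Eventually.of_forall fun n ω _ Γ _ a => ?_)) h.st.hvy)) h.lT)
  · exact Nat.le_mul_of_pos_left _ (Nat.succ_pos _)
  · simp only [blur, sub_add_cancel_left, norm_neg, norm_smul, norm_inv, norm_pow, Real.norm_ofNat]
    rw [div_eq_inv_mul]
    gcongr

/-- The cells of the charts are heavy. -/
theorem hv (fa : FullApi) (c2 : Cel2) (rel : Rel) (acc : Acc) {a a' g : ℚ≥0} (u : a ≤ a')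
    (ha : G a + g ≤ 1) (ha' : G a' ≤ 1) (g1 : (g : ℝ) ≤ 1) (v : U a' - U a ≤ g * lg) :
    Heavy P M (chs (Θ a) x) (S a) (lev M g) (un M (U a' - U a - (H a' - H a))) := by
  have hM := h.st.sys.big
  have g0 : (0 : ℝ) ≤ g := NNRat.cast_nonneg g
  have h1 : G a ≤ 1 := by linarith
  obtain ⟨D', r⟩ := rel (d + 1) C' D
  obtain ⟨Ψ, r1, r2⟩ := r _ _ _ _ _ P M _ _ _ _ _ _ _ _ _ hM (h.ncel a h1) (h.ncel a' ha')
    (h.st.chn.nest a a' u) (h.rem a') (h.nvol a h1) (h.nvol a' ha')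
  have r3 : DzLe P M (chs (Θ a) (blurs x ξ M)) Ψ (lev M g) :=
    Gp.poly ((c2.dv hM r1 (h.nsure a h1)).mul r2 (r := fun n ω Γ =>
      dsz (Ψ n ω) (chs (Θ a) (blurs x ξ M) n ω) ≤ Γ * Real.exp (un M (U a') n - un M (U a) n))
      (Eventually.of_forall fun n ω _ Γ Γ' p _ q r => by
        rw [mul_assoc]
        exact q.2.1.trans (mul_le_mul_of_nonneg_left r.2 (by linarith)))) hM one_le_two 1
      (Eventually.of_forall fun n ω _ Γ p q => q.trans (by
        rw [pow_one, mul_comm 2, mul_assoc, ← pow_succ', two_pow]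
        refine mul_le_mul_of_nonneg_left (Real.exp_le_exp.2 ?_) (by linarith)
        have := mul_le_mul_of_nonneg_right v (Nat.cast_nonneg (α := ℝ) (M n))
        simp only [un]
        push_cast
        nlinarith [lt_lev M g n, lg_pos]))
  have r4 := fa.near hM (h.nnear a g ha g1) (acc hM (h.ncel a h1) (h.ndle a h1)
    (h.st.chn.nest a a' u) r1 r2 r3 (Eventually.of_forall fun n => by
      have := lev_le M g1 n
      nlinarith [Nat.zero_le (d * M n)]) (h.hS a) (h.lS a'))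
  convert r4 using 2 with n
  simp only [un]
  ring

end FinA

open FinA

theorem ofFin : OfFin := by
  intro fa ko c1 c2 rel acc a2 d mm ex pr loc Ω Λ Λ' k m C D P M x s A η S Θ U G hm h1 hη st
  obtain ⟨C', D', hD, ex⟩ := ex C D
  have l0 := lg_pos
  have l1 := lg_lt_one
  have n0 : 0 < ((d : ℝ) + 1) * lg := by positivity
  obtain ⟨K, hK, pr⟩ := pr (fun b => k b + (d + 1)) m C' D' (η / 4 / ((d + 1) * lg)) (by positivity)
  set κ := η / 4 / ((d + 1) * lg) with hκ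
  have κ0 : 0 ≤ κ := by positivity
  set kk : ℝ := (k true + k false : ℕ) * lg
  have kk0 : 0 ≤ kk := by positivity
  have kle : ∀ b, k b * lg ≤ kk := fun b => mul_le_mul_of_nonneg_right
    (by cases b <;> simp) l0.le
  obtain ⟨ε, ε0, ε1, ε2⟩ : ∃ ε : ℚ≥0, 0 < ε ∧ ε ≤ 1 ∧ K * (kk * ε) ≤ η / 8 := by
    obtain ⟨i, hi⟩ := exists_nat_ge (K * kk / (η / 8))
    refine ⟨1 / (i + 1), by positivity, div_le_one_of_le₀ le_add_self zero_le, ?_⟩
    rw [div_le_iff₀ (by positivity)] at hi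
    push_cast
    rw [mul_one_div, ← mul_div_assoc, div_le_iff₀ (by positivity)]
    nlinarith
  set τ := min (1 / 2) (η / 4)
  have τ0 : 0 < τ := by positivity
  have τ1 : τ ≤ 1 / 2 := min_le_left _ _
  have τ2 : τ * lg ≤ η / 4 := by nlinarith [min_le_right (1 / 2) (η / 4)]
  have G1 := one_le c2 st
  obtain ⟨b, e, e1, e2⟩ : ∃ b e : ℚ≥0, 1 - τ < G e ∧ (e = ε ∨ ε ≤ b ∧ b ≤ 1 ∧ b ≤ e ∧ e ≤ b + ε ∧
      ∀ a, ε ≤ a → a ≤ b → G a ≤ 1 - τ) := by
    rcases lt_or_ge (1 - τ) (G ε) with c | c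
    · exact ⟨ε, ε, c, Or.inl rfl⟩
    · obtain ⟨b, e, a1, a2, a3, a4, a5, a6⟩ := cut G ε0 ε1 (by linarith) c
      exact ⟨b, e, a5, Or.inr ⟨a1, a2, a3, a4, a6⟩⟩
  obtain ⟨Ω, Λ'', P, x, ξ, s, A, S, Θ, H, Q, Φ, w, uT, uQ, h⟩ := ex _ _ _ k m P M x s A η S Θ U G e st
  clear st
  have hM := h.st.sys.big
  have hj : ∀ᶠ n in UF, (d + 1 + 1) * M n ≤ (d + 1 + 1) * M n := Eventually.of_forall fun _ => le_rfl
  have tc := cel_mono (c1.top hM h.sy h.tmin h.st.com).1 hD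
  have top : ∀ (L : ℕ → Type) (a : ℚ≥0) (B : ∀ n, Ω n → L n) Ψ v u,
      Cel P M (blurs x ξ M) (pcs s fun _ => lev M a) B Ψ D' → FnE P A B →
      DLe P M (blurs x ξ M) B M → Vol P M (blurs x ξ M) Ψ (un M v) →
      Light P M (blurs x ξ M) B (fun n => (d + 1 + 1) * M n) (un M u) →
      v - 0 - (u - uT) ≤ κ * (v - 0) + K * (kk * a) := fun L a B Ψ v u b1 b2 b3 b4 b5 => by
    have a0 : (0 : ℝ) ≤ a := NNRat.cast_nonneg a
    choose be f1 f2 using fun b => ko.dig0 (κ := fun n => s n b) (t := lev M a) (c := a) hM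
      (h.st.sys.kd b).bd (h.st.sys.kd b).few (Le.of_le (lev_le' M a0))
    exact pr Ω Λ L _ P M _ _ (fun n b => (s n b).nz (ξ n)) _ A B (fun _ _ => X) Ψ be _ 0 v uT u hm
      (by positivity) (by rw [chs_X]; exact h.tsys) tc
      (fun b => few_mono (f1 b) (mul_le_mul_of_nonneg_right (kle b) a0))
      (fun b => Eventually.of_forall (f2 b)) b1 b2 (h.rem a) ((c2.dle hM tc).1.1 (dz_X hM _ M)) b3
      h.sy (vol_X _) b4 hj h.hT b5
  have win : ∀ (L : ℕ → Type) (a a' : ℚ≥0) (B : ∀ n, Ω n → L n) Ψ v u, a ≤ a' → G a ≤ 1 →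
      Cel P M (blurs x ξ M) (pcs s fun _ => lev M a') B Ψ D' → FnE P (S a) B →
      DLe P M (blurs x ξ M) B M → Vol P M (blurs x ξ M) Ψ (un M v) →
      Light P M (blurs x ξ M) B (fun n => (d + 1 + 1) * M n) (un M u) →
      v - U a - (u - H a) ≤ κ * (v - U a) + K * (kk * (a' - a)) :=
    fun L a a' B Ψ v u a1 a2 b1 b2 b3 b4 b5 => by
    have a0 : (0 : ℝ) ≤ a := NNRat.cast_nonneg a
    have a3 : (a : ℝ) ≤ a' := NNRat.cast_le.2 a1
    choose be f1 f2 using fun b => ko.dig (P := P) (κ := fun n => s n b) (t := lev M a)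
      (t' := lev M a') (c := a' - a) hM (Eventually.of_forall (lev_mono M a3))
      ((hM.sm 1).of_sub (Eventually.of_forall fun n => by
        simp only [un]
        linarith [lev_le' M (a0.trans a3) n, lt_lev M a n]))
    obtain ⟨W, hW⟩ := h.nsys a a2
    exact pr Ω Λ' L _ P M _ _ _ _ (S a) B (Θ a) Ψ be _ _ v _ u hm
      (mul_nonneg kk0 (sub_nonneg.2 a3)) hW (h.ncel a a2)
      (fun b => few_mono (f1 b) (mul_le_mul_of_nonneg_right (kle b) (sub_nonneg.2 a3)))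
      f2 b1 b2 (h.rem a') (h.ndle a a2) b3 h.sy (h.nvol a a2) b4 hj (h.hS a) b5
  have w1 : κ * w ≤ η / 4 := (mul_le_mul_of_nonneg_left (vol_le c2 hM h.qcel h.sy h.qdle h.qvol)
    κ0).trans_eq (div_mul_cancel₀ _ n0.ne')
  have w2 := h.qul τ τ0 (by linarith) e1.le
  have w3 := eta_le h fa
  rcases e2 with rfl | ⟨b1, b2, b3, b4, b5⟩
  · have := top _ e Q Φ w uQ h.qcel ((h.st.top e).trans h.qfn) h.qdle h.qvol h.lQ
    linarith
  have b6 : ∀ a, ε ≤ a → a ≤ b → G a ≤ 1 := fun a u v => by linarith [b5 a u v]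
  have t1 := top _ ε (S ε) (Θ ε) _ _ (h.ncel ε (b6 ε le_rfl b1)) (h.st.top ε)
    (h.ndle ε (b6 ε le_rfl b1)) (h.nvol ε (b6 ε le_rfl b1)) (h.lS ε)
  have t2 := win _ b e Q Φ w uQ b3 (b6 b b1 le_rfl) h.qcel ((h.st.chn.nest b e b3).trans h.qfn)
    h.qdle h.qvol h.lQ
  have t3 : K * (kk * (e - b)) ≤ K * (kk * ε) := by
    have : (e : ℝ) ≤ b + ε := by exact_mod_cast b4
    gcongr
    linarith
  obtain ⟨U', H', m1, m2, q1, q2, no⟩ := a2 U H ε b κ (K * kk) (monoU c2 h.st) (monoH h fa) b1 κ0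
    (fun a a' u v r => (win _ a a' (S a') (Θ a') _ _ v (b6 a u (v.trans r))
      (h.ncel a' (b6 a' (u.trans v) r)) (h.st.chn.nest a a' v) (h.ndle a' (b6 a' (u.trans v) r))
      (h.nvol a' (b6 a' (u.trans v) r)) (h.lS a')).trans_eq (by ring)) (by linarith)
  refine no (loc Ω Λ' k m P M x s C D' S Θ U' H' ε b τ hm ⟨h.st.sys, h1, h.st.sure, h.st.ra,
    h.st.chn, h.st.fat, fun a => q1 a ▸ h.st.vol a, m1, m2, ⟨by exact_mod_cast ε0, τ0,
      by exact_mod_cast b2⟩, fun a a' g u v r p q => ?_⟩)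
  have u' : ε ≤ a := NNRat.cast_le.1 u
  have r' : a' ≤ b := NNRat.cast_le.1 r
  rw [q1, q1] at q
  rw [q1, q1, q2, q2]
  exact hv h fa c2 rel acc v (by linarith [b5 a u' (v.trans r')]) (b6 a' (u'.trans v) r')
    (by linarith) q

end Pool.Agent.MP_5168f5_an.AN
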