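import Pool.Agent.MP_5168f5_an.AN.Api2

/-! Kakeya sets in all dimensions: the statements of the main step. -/

namespace Pool.Agent.MP_5168f5_an.AN

open H19 H17S H17F R4 Filter MvPolynomial MeasureTheory
open G39 (nu RG dl REM)
open Pk (cn)
open Nc (Pl ev jac)

/-- The probability of the cells of a chart, counted through a smaller cell. -/
def Acc : Prop := ∀ {Ω Λ Λ' : ℕ → Type} {β β' : Bool → ℕ → Type} {N D D' : ℕ} {P : ∀ n, FP (Ω n)}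
  {M h g j : ℕ → ℕ} {y : ∀ n, Ω n → V N} {Z : ∀ b n, Ω n → β b n} {Z' : ∀ b n, Ω n → β' b n}
  {A : ∀ n, Ω n → Λ n} {A' : ∀ n, Ω n → Λ' n} {Θ Ψ : ∀ n, Ω n → Fin N → Pl N} {w u u' : ℕ → ℝ},
  Big M → Cel P M y Z A Θ D → DLe P M y A h → FnE P A A' → Cel P M (chs Θ y) Z' A' Ψ D' →
  Vol P M (chs Θ y) Ψ w → DzLe P M (chs Θ y) Ψ g → (∀ᶠ n in UF, g n + h n ≤ j n) →
  Heavy P M y A j u → Light P M y A' j u' → Heavy P M (chs Θ y) A g fun n => w n - (u' n - u n)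

/-- One window of the chain. -/
def Pair2 (N mm : ℕ) : Prop := ∀ (k m : Bool → ℕ) (C D : ℕ) (κ : ℝ), 0 < κ → ∃ K : ℝ, 0 ≤ K ∧
  ∀ (Ω Λ Λ' : ℕ → Type) (β' : Bool → ℕ → Type) (P : ∀ n, FP (Ω n)) (M j : ℕ → ℕ)
    (y : ∀ n, Ω n → V N) (s : ∀ n, Sy k (Ω n)) (Z' : ∀ b n, Ω n → β' b n) (A : ∀ n, Ω n → Λ n)
    (A' : ∀ n, Ω n → Λ' n) (Θ Θ' : ∀ n, Ω n → Fin N → Pl N) (be : Bool → ∀ n, Ω n → ℕ)
    (c v v' u u' : ℝ), mm ≤ m true + m false → 0 ≤ c → Sys P M (chs Θ y) s C m →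
    Cel P M y (lab s) A Θ D → (∀ b, Few P M c (be b)) →
    (∀ b, ∀ᶠ n in UF, ∀ p q, Z' b n p = Z' b n q ↔ (be b n p, (s n b).Z p) = (be b n q, (s n b).Z q)) →
    Cel P M y Z' A' Θ' D → FnE P A A' → (∀ b (K : ℕ), REM P y M (Z' b) C K) → DLe P M y A M →
    DLe P M y A' M → Sure P M y → Vol P M y Θ (un M v) → Vol P M y Θ' (un M v') →
    (∀ᶠ n in UF, (N + 1) * M n ≤ j n) → Heavy P M y A j (un M u) → Light P M y A' j (un M u') →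
    v' - v - (u' - u) ≤ κ * (v' - v) + K * c

/-- A cell that is not deeper than a fresh noise stays a cell. -/
def NCel : Prop := ∀ {Ω Λ : ℕ → Type} {β : Bool → ℕ → Type} {N D : ℕ} {P : ∀ n, FP (Ω n)}
  {M J h g : ℕ → ℕ} {x : ∀ n, Ω n → V N} {Z : ∀ b n, Ω n → β b n} {A : ∀ n, Ω n → Λ n}
  {Θ : ∀ n, Ω n → Fin N → Pl N}, Big M → Fine M J → Cel P M x Z A Θ D → DLe P M x A g →
  (∀ᶠ n in UF, g n ≤ h n) →
  Cel (NP P N J) M (blurs (pl (Nπ Ω N J) x) (Nξ Ω N J) h) (pl2 (Nπ Ω N J) Z) (pl (Nπ Ω N J) A)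
    (pl (Nπ Ω N J) Θ) D ∧
  DLe (NP P N J) M (blurs (pl (Nπ Ω N J) x) (Nξ Ω N J) h) (pl (Nπ Ω N J) A) g ∧
  (∀ v, Vol P M x Θ v →
    Vol (NP P N J) M (blurs (pl (Nπ Ω N J) x) (Nξ Ω N J) h) (pl (Nπ Ω N J) Θ) v) ∧
  (∀ t, Ball P M x A t →
    Ball (NP P N J) M (blurs (pl (Nπ Ω N J) x) (Nξ Ω N J) h) (pl (Nπ Ω N J) A) t) ∧
  ∀ j : ℕ → ℕ, (∀ᶠ n in UF, g n + j n ≤ h n) → Near (NP P N J) M
    (chs (pl (Nπ Ω N J) Θ) (blurs (pl (Nπ Ω N J) x) (Nξ Ω N J) h))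
    (chs (pl (Nπ Ω N J) Θ) (pl (Nπ Ω N J) x)) j

/-- Two monotone functions on the rationals with a gap have a common point of growth. -/
def A2Q : Prop := ∀ (U H : ℚ≥0 → ℝ) (a b : ℚ≥0) (κ K : ℝ), Monotone U → Monotone H → a ≤ b →
  0 ≤ κ → (∀ s t : ℚ≥0, a ≤ s → s ≤ t → t ≤ b →
    U t - U s - (H t - H s) ≤ κ * (U t - U s) + K * ((t : ℝ) - s)) →
  κ * (U b - U a) < U b - U a - (H b - H a) →
  ∃ U' H' : ℝ → ℝ, Monotone U' ∧ Monotone H' ∧ (∀ q : ℚ≥0, U' q = U q) ∧ (∀ q : ℚ≥0, H' q = H q) ∧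
    ¬∀ᵐ σ : ℝ, σ ∈ Set.Ioo (a : ℝ) b → DifferentiableAt ℝ U' σ → DifferentiableAt ℝ H' σ →
      deriv U' σ ≤ deriv H' σ

/-- No system is deficient at the unit level. -/
def Core (N mm : ℕ) : Prop := ∀ (Ω Λ : ℕ → Type) (k m : Bool → ℕ) (C : ℕ) (P : ∀ n, FP (Ω n))
  (M : ℕ → ℕ) (x : ∀ n, Ω n → V N) (s : ∀ n, Sy k (Ω n)) (A : ∀ n, Ω n → Λ n) (η : ℝ),
  mm ≤ m true + m false → 1 ≤ m true → 0 < η → Sys P M x s C m → Sure P M x → MIN P M x (lab s) →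
  Com P (lab s) A → ¬Heavy P M x A M (un M η)

/-- The chain of a deficient system. -/
structure St2 {N : ℕ} {Ω Λ Λ' : ℕ → Type} {k : Bool → ℕ} (P : ∀ n, FP (Ω n)) (M : ℕ → ℕ)
    (x : ∀ n, Ω n → V N) (s : ∀ n, Sy k (Ω n)) (C : ℕ) (m : Bool → ℕ) (A : ∀ n, Ω n → Λ n) (η : ℝ)
    (S : ℚ≥0 → ∀ n, Ω n → Λ' n) (Θ : ℚ≥0 → ∀ n, Ω n → Fin N → Pl N) (D : ℕ) (U G : ℚ≥0 → ℝ) :
    Prop where
  sys : Sys P M x s C m
  sure : Sure P M x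
  ra : ∀ c, RA P M x (fun n => s n c) C
  min : MIN P M x (lab s)
  com : Com P (lab s) A
  hvy : Heavy P M x A M (un M η)
  chn : Chn P M x s (fun (a : ℚ≥0) _ => lev M a) S Θ D
  top : ∀ a, FnE P A (S a)
  fat : ∀ a, Fat P M x (S a)
  vol : ∀ a, Vol P M x (Θ a) (un M (U a))
  dzl : ∀ a, DzLe P M x (Θ a) (lev M (G a))
  dzg : ∀ a, DzGe P M x (Θ a) (lev M (G a))

/-- No deficient system has a chain. -/
def Core2 (N mm : ℕ) : Prop := ∀ (Ω Λ Λ' : ℕ → Type) (k m : Bool → ℕ) (C D : ℕ)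
  (P : ∀ n, FP (Ω n)) (M : ℕ → ℕ) (x : ∀ n, Ω n → V N) (s : ∀ n, Sy k (Ω n)) (A : ∀ n, Ω n → Λ n)
  (η : ℝ) (S : ℚ≥0 → ∀ n, Ω n → Λ' n) (Θ : ℚ≥0 → ∀ n, Ω n → Fin N → Pl N) (U G : ℚ≥0 → ℝ),
  mm ≤ m true + m false → 1 ≤ m true → 0 < η → ¬St2 P M x s C m A η S Θ D U G

def OfAcc : Prop := FullApi → Cel2 → Acc
def OfPair2 : Prop := Her1 → Her2 → FullApi → Cel1 → Cel2 → Rel → Acc →
  ∀ d mm, SteepF (d + 1) mm → Pair2 (d + 1) mm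
def OfNCel : Prop := Her1 → Her2 → NZs → Cel1 → Cel2 → NCel
def OfCore : Prop := Her1 → Her2 → FullApi → ∀ N mm, 1 ≤ mm → Core N mm → THM N mm
def OfCore2 : Prop := Her1 → Her2 → FullApi → RLf → KOp → NZs → UDc → Cel1 → Cel2 →
  ∀ d mm, Core2 (d + 1) mm → Core (d + 1) mm

end Pool.Agent.MP_5168f5_an.AN
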