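import Pool.Agent.MP_5168f5_an.AN.GCel2
import Pool.Agent.MP_5168f5_an.AN.MSpec
import Pool.Agent.MP_5168f5_an.AN.S20Nz2

/-! Kakeya sets in all dimensions: a cell that is not deeper than a fresh noise stays a cell. -/

namespace Pool.Agent.MP_5168f5_an.AN.Cx

open H19 H17S H17F Filter MvPolynomial R4 Vo
open Nc (Pl ev jac deg_jac kc)

variable {Ω Λ : ℕ → Type} {β β' : Bool → ℕ → Type} {N N' D : ℕ} {P : ∀ n, FP (Ω n)}
  {M J h g j : ℕ → ℕ} {x : ∀ n, Ω n → V N} {Z : ∀ b n, Ω n → β b n} {Z' : ∀ b n, Ω n → β' b n}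
  {A : ∀ n, Ω n → Λ n} {ν ν' : ∀ n, Ω n → Pl N → ℝ}

theorem dle_mono (e : DLe P M x A g) (hg : ∀ᶠ n in UF, g n ≤ h n) : DLe P M x A h := fun E =>
  wp_gp (wp_mono (dle_wp e E) (hg.mono fun _ u _ l _ _ k F hF i => (k F hF i).trans
    (mul_le_mul_of_nonneg_right (mul_le_mul_of_nonneg_left (pow_le_pow_right₀ one_le_two u)
      (zero_le_one.trans l)) (nc_nn _ _ _ _ _))))

theorem nuEq_wp (e : NuEq P M ν ν') (h0 : ∀ n ω F, 0 ≤ ν n ω F) (h0' : ∀ n ω F, 0 ≤ ν' n ω F)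
    (E : ℕ) : Wp P M fun n L ω => ∀ F : Pl N, F.totalDegree ≤ E →
      ν n ω F ≤ L * ν' n ω F ∧ ν' n ω F ≤ L * ν n ω F :=
  gp_wp (e E) fun _ _ _ _ _ l k F hF =>
    ⟨(k F hF).1.trans (mul_le_mul_of_nonneg_right l (h0' _ _ _)),
      (k F hF).2.trans (mul_le_mul_of_nonneg_right l (h0 _ _ _))⟩

theorem wl_pull {Ω' : ℕ → Type} {Q : ∀ n, FP (Ω' n)} {ρ : ∀ n, Ω' n → Ω n} {a b : ∀ n, Ω n → ℝ}
    (e : ∀ᶠ n in UF, Law (Q n) (ρ n) (P n) id) (h : Wl P M a b) :
    Wl Q M (fun n v => a n (ρ n v)) fun n v => b n (ρ n v) :=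
  wp_pull (p := fun n L ω => a n ω ≤ L * b n ω) e h

/-- The noise moves the chart very little. -/
theorem nz_near {Θ : ∀ n, Ω n → Fin N' → Pl N} (hM : Big M) (hc : CM P M x Z A)
    (f : Frm P M x Z' A Θ D) (e : DLe P M x A g) (hj : ∀ᶠ n in UF, g n + j n ≤ h n) :
    Wp (NP P N J) M fun n L v =>
      ‖chs (pl (Nπ Ω N J) Θ) (blurs (pl (Nπ Ω N J) x) (Nξ Ω N J) h) n v -
        chs (pl (Nπ Ω N J) Θ) (pl (Nπ Ω N J) x) n v‖ ≤ L / 2 ^ j n := by
  refine wp_mono (wp_pull (S20.law_N P N J) (cm_lip hM hc f.fn f.deg f.bd e))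
    (hj.mono fun n u L l v _ k => ?_)
  have a : 2 ^ g n * ‖((2 : ℝ) ^ h n)⁻¹ • gp v.2‖ ≤ (2 ^ j n)⁻¹ := by
    rw [norm_smul, norm_inv, norm_pow, Real.norm_two, ← mul_assoc]
    refine (mul_le_of_le_one_right (by positivity) (S20.gp_norm _)).trans ?_
    rw [← div_eq_mul_inv, ← one_div, div_le_div_iff₀ (by positivity) (by positivity), one_mul,
      ← pow_add]
    exact pow_le_pow_right₀ one_le_two u
  refine (k _ (a.trans (inv_le_one_of_one_le₀ (one_le_pow₀ one_le_two)))).trans ?_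
  rw [mul_assoc]
  exact mul_le_mul_of_nonneg_left a (zero_le_one.trans l)

end Pool.Agent.MP_5168f5_an.AN.Cx

namespace Pool.Agent.MP_5168f5_an.AN

open H19 H17S H17F Filter MvPolynomial Cx Vo
open Nc (Pl ev jac deg_jac kc)

theorem ncel (hZ : NZs) : NCel := by
  intro Ω Λ β N D P M J h g x Z A Θ hM hJ hc hd hg
  have lw := S20.law_N P N J
  have e := nuEq_wp (hZ.nu hM hJ (dle_mono hd hg)) (fun _ _ => nc_nn _ _ _ _) fun _ _ =>
    nc_nn _ _ _ _
  have nr := fun j hj => nz_near (J := J) (h := h) (j := j) hM hc.cm hc.frm hd hj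
  have m := hZ.min (h := h) (Θ := fun _ _ => X) hM hJ (fun _ _ _ => (totalDegree_X _).le)
    ((congrArg (NT P M · Z _) (chs_X x)).mpr hc.cm.nt)
  have c : Cel (NP P N J) M (blurs (pl (Nπ Ω N J) x) (Nξ Ω N J) h) (pl2 (Nπ Ω N J) Z)
      (pl (Nπ Ω N J) A) (pl (Nπ Ω N J) Θ) D := by
    refine ⟨⟨fun b => S20.fnE_pull (hc.cm.com b) lw, nt_mono
      ((congrArg (NT _ M · _ _) (chs_X _)).mp m) fun E => wp_mono (e E)
        (Eventually.of_forall fun _ _ _ _ _ k F hF => (k F hF).2)⟩, S20.fnE_pull hc.frm.fn lw,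
      fun n v => hc.frm.deg n v.1, wp_gp (((nr (fun _ => 0) hg).and
        (wp_pull lw (bdd_wp hc.frm.bd))).of hM 2 1 (Eventually.of_forall
        fun n L L' _ l v _ k => ?_)), hZ.min hM hJ hc.frm.deg hc.frm.min⟩
    have u := k.1
    rw [pow_zero, div_one] at u
    exact (norm_le_insert' _ _).trans ((add_le_add k.2 u).trans (by linarith))
  refine ⟨c, fun E => wp_gp (((e E).and (wp_pull lw (dle_wp hd E))).of hM 1 3
    (Eventually.of_forall fun n L L' l l' v _ k F hF i => ?_)), fun v hv => ?_,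
    fun t ht => wp_gp (wp_sq ((e 1).and (wp_pull lw (gp_wp ht fun _ _ _ _ _ l k i => (k i).imp
      fun _ u => u.trans (div_le_div_of_nonneg_right l (by positivity))))) (Eventually.of_forall
      fun n L l v _ k i => (k.2 i).imp fun c u => ?_)), fun j hj => wp_gp (nr j hj)⟩
  · refine ((k.1 _ ((kc.der F E i hF).2.trans E.pred_le)).2.trans
      (mul_le_mul_of_nonneg_left ((k.2 F hF i).trans (mul_le_mul_of_nonneg_left (k.1 F hF).1
        (by positivity))) (by positivity))).trans ?_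
    rw [← mul_assoc, ← mul_assoc]
    refine mul_le_mul_of_nonneg_right (le_of_eq_of_le (b := 1 * L ^ 3 * 2 ^ g n) (by ring) ?_)
      (nc_nn _ _ _ _ _)
    gcongr
  · have a := (cel_vh hM hc).vol_iff.1 hv
    have b := e (N * D)
    have a1 := wl_pull lw a.1
    have a2 := wl_pull lw a.2
    refine (cel_vh hM c).vol_iff.2 ⟨a1.trans ?_, Wl.trans ?_ a2⟩
    · exact wp_mono b (Eventually.of_forall fun n _ _ v _ k =>
        (k _ (deg_jac (hc.frm.deg n v.1))).1)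
    · exact wp_mono b (Eventually.of_forall fun n _ _ v _ k =>
        (k _ (deg_jac (hc.frm.deg n v.1))).2)
  · rw [mul_div_assoc]
    exact (k.1 _ ((totalDegree_sub_C_le _ _).trans (totalDegree_X i).le)).2.trans
      (mul_le_mul_of_nonneg_left u (zero_le_one.trans l))

theorem ofNCel : OfNCel := fun _ _ hZ _ _ => ncel hZ

end Pool.Agent.MP_5168f5_an.AN
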