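import Pool.Agent.MP_5168f5_an.AN.GAcc
import Pool.Agent.MP_5168f5_an.AN.A1Con

/-! One window of the chain. -/

namespace Pool.Agent.MP_5168f5_an.AN

open H19 H17S H17F R4 Filter MvPolynomial
open G39 (REM)
open Nc (Pl jac)
open S20 (gp_iff gp_cE)
open K31 (dnS_cE)

namespace Pr2

variable {Ω Λ Λ' : ℕ → Type} {β β' : Bool → ℕ → Type} {N C D D' : ℕ} {k m : Bool → ℕ}
  {P : ∀ n, FP (Ω n)} {M j g : ℕ → ℕ} {y : ∀ n, Ω n → V N} {s : ∀ n, Sy k (Ω n)}
  {Z : ∀ b n, Ω n → β b n} {Z' : ∀ b n, Ω n → β' b n} {A : ∀ n, Ω n → Λ n} {A' : ∀ n, Ω n → Λ' n}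
  {Θ Ψ : ∀ n, Ω n → Fin N → Pl N} {be : Bool → ∀ n, Ω n → ℕ} {c w u u' : ℝ} {G : ∀ n, Ω n → Prop}

theorem cel_cE (h2 : Her2) (hM : Big M) (e : Cel P M y Z A Θ D) (g : Pos P G) :
    Cel (fun n => cE (P n) (G n)) M y Z A Θ D :=
  ⟨(h2.cm (dnS_cE g) hM e.cm).1, e.frm.fn.cE G, e.frm.deg, gp_cE e.frm.bd g,
    h2.nt (dnS_cE g) e.frm.min⟩

theorem dle_cE (h2 : Her2) (hM : Big M) (e : CM P M y Z A) (d : DLe P M y A g) (h : Pos P G) :
    DLe (fun n => cE (P n) (G n)) M y A g := fun E => by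
  obtain ⟨Γ, g1, g2⟩ := gp_iff.1 (d E)
  obtain ⟨L, l1, l2⟩ := gp_iff.1 ((show NuEq _ M (fun n => nc (P n) (y n) (A n)) fun n =>
    nc (cE (P n) (G n)) (y n) (A n) from (h2.cm (dnS_cE h) hM e).2) E)
  refine gp_iff.2 ⟨_, (l1.mul g1).mul l1, ((g2.cE h).and l2).mono
    (Eventually.of_forall fun n ω _ ⟨a, b⟩ F hF i => ?_)⟩
  have := l1.pos n
  have := g1.pos n
  exact (b _ ((Nc.kc.der F E i hF).2.trans (Nat.sub_le _ _))).2.trans
    ((mul_le_mul_of_nonneg_left ((a F hF i).trans (mul_le_mul_of_nonneg_left (b F hF).1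
      (by positivity))) (by positivity)).trans_eq (by ring))

theorem hv_cE {v : ℕ → ℝ} (h1 : Her1) (hM : Big M) (h : Heavy P M y A j v) (g : Pos P G) :
    Heavy (fun n => cE (P n) (G n)) M y A j v :=
  (gp_cE h g).mul (h1.dn (fun n u => fl (j n) (y n u)) A (dnS_cE g) hM)
    (Eventually.of_forall fun n ω _ Γ Γ' u _ v w => v.trans (by
      rw [mul_assoc]; exact mul_le_mul_of_nonneg_left w.1 (by linarith)))

theorem li_cE {v : ℕ → ℝ} (h1 : Her1) (hM : Big M) (h : Light P M y A j v) (g : Pos P G) :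
    Light (fun n => cE (P n) (G n)) M y A j v :=
  (h1.dn (fun n u => fl (j n) (y n u)) A (dnS_cE g) hM).mul (gp_cE h g)
    (Eventually.of_forall fun n ω _ Γ Γ' u _ v w => v.2.trans (by
      rw [mul_assoc]; exact mul_le_mul_of_nonneg_left w (by linarith)))

/-- A variable between `1` and a power becomes a power. -/
theorem conc {f : ∀ n, Ω n → ℝ} {L : ℕ → ℝ} (hM : Big M) (hL : Tendsto L UF atTop)
    (h : Gp P M fun n ω Γ => 1 ≤ Γ * f n ω ∧ f n ω ≤ Γ * Real.exp (un M w n)) :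
    ∃ (G : ∀ n, Ω n → Prop) (a : ℝ), (∀ᶠ n in UF, 1 ≤ L n * pb (P n) (G n)) ∧
      Gp (fun n => cE (P n) (G n)) M fun n ω Γ =>
        Real.exp (un M a n) ≤ Γ * f n ω ∧ f n ω ≤ Γ * Real.exp (un M a n) := by
  obtain ⟨Γ, a, b⟩ := gp_iff.1 h
  have p : ∀ n ω, 1 ≤ Γ n * f n ω → 0 < f n ω := fun n ω e =>
    (mul_pos_iff_of_pos_left (a.pos n)).1 (one_pos.trans_le e)
  obtain ⟨G, e, h1, h2, h3⟩ := A1.concM (J := Unit) hM (fun _ n ω => Real.log (f n ω))
    (fun _ => b) (fun _ => ⟨|w| + 1, b.mono ((a.log 1 one_pos).mono fun n l ω _ t => by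
      have t1 := Real.log_le_log one_pos t.1
      have t2 := Real.log_le_log (p n ω t.1) t.2
      rw [Real.log_mul (a.pos n).ne' (p n ω t.1).ne', Real.log_one] at t1
      rw [Real.log_mul (a.pos n).ne' (Real.exp_pos _).ne', Real.log_exp, un] at t2
      have m0 : (0 : ℝ) ≤ M n := Nat.cast_nonneg _
      have := mul_le_mul_of_nonneg_right (le_abs_self w) m0
      have := mul_nonneg (abs_nonneg w) m0
      rw [abs_le]
      constructor <;> linarith)⟩) hL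
  obtain ⟨Γ', a', h3⟩ := h3 ()
  refine ⟨G, e (), h1, gp_of_sub a' ?_⟩
  filter_upwards [h1, h2 (), h3] with n t1 t2 t3 ω hω
  have ex : ∃ ω ∈ (P n).S, G n ω := ex_of_pb (by
    by_contra v
    rw [le_antisymm (not_lt.1 v) (pb_nonneg _ _), mul_zero] at t1
    linarith)
  obtain ⟨o1, o2⟩ := (mem_cE ex ω).1 hω
  have f0 := p n ω (t2 ω o1 o2).1
  obtain ⟨t4, t5⟩ := abs_le.1 (t3 ω o1 o2)
  rw [← Real.exp_log (a'.pos n), ← Real.exp_log f0, ← Real.exp_add, ← Real.exp_add, un]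
  exact ⟨Real.exp_le_exp.2 (by linarith), Real.exp_le_exp.2 (by linarith)⟩

variable (M j y s Z' A A' Θ Ψ be C m D D' c w u u') in
/-- The data of a window. -/
structure Bd (P : ∀ n, FP (Ω n)) : Prop where
  sys : Sys P M (chs Θ y) s C m
  cel : Cel P M y (lab s) A Θ D
  few : ∀ b, Few P M c (be b)
  fn : FnE P A A'
  dle : DLe P M y A M
  hv : Heavy P M y A j (un M u)
  li : Light P M y A' j (un M u')
  cel' : Cel P M (chs Θ y) Z' A' Ψ D'
  vol : Vol P M (chs Θ y) Ψ (un M w)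

theorem Bd.sl (h1 : Her1) (h2 : Her2) (h : Bd C D D' m M j y s Z' A A' Θ Ψ be c w u u' P) :
    SL P (Bd C D D' m M j y s Z' A A' Θ Ψ be c w u u') := by
  have hM := h.sys.big
  let q : ∀ n, FP (Ω n) → FP (Ω n) := fun _ Q => Q
  let l : ∀ n, FP (Ω n) → ℕ := fun n _ => M n
  have e1 := sl_cf (P := P) hM (cf_sys q l (fun n _ => chs Θ y n) (fun n _ => s n) C m) fun G g =>
    ⟨hM, gp_cE h.sys.bd g, fun b => S20.kind_cE hM (h.sys.kd b) g⟩
  have e2 := sl_cf (P := P) hM (cf_cel q l (fun n _ => y n) (fun b n _ => lab s b n) (fun n _ => A n)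
    (fun n _ => Θ n) D fun n _ => h.cel.frm.deg n) fun _ => cel_cE h2 hM h.cel
  have e3 := sl_all fun b => sl_cf (P := P) hM (cf_few q l c fun n _ => be b n) fun _ =>
    gp_cE (h.few b)
  have e4 := sl_cf (P := P) hM (cf_dle q l (fun n _ => y n) (fun n _ => A n) l) fun _ =>
    dle_cE h2 hM h.cel.cm h.dle
  have e5 := sl_cf (P := P) hM (cf_heavy q l (fun n _ => y n) (fun n _ => A n) (fun n _ => j n)
    fun n _ => un M u n) fun _ => hv_cE h1 hM h.hv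
  have e6 := sl_cf (P := P) hM (cf_light q l (fun n _ => y n) (fun n _ => A' n) (fun n _ => j n)
    fun n _ => un M u' n) fun _ => li_cE h1 hM h.li
  have e7 := sl_cf (P := P) hM (cf_cel q l (fun n _ => chs Θ y n) (fun b n _ => Z' b n)
    (fun n _ => A' n) (fun n _ => Ψ n) D' fun n _ => h.cel'.frm.deg n) fun _ => cel_cE h2 hM h.cel'
  have e8 := sl_cf (K := fun Q => Vol Q M (chs Θ y) Ψ (un M w)) hM (cf_gp q l fun n _ => _)
    fun _ => gp_cE h.vol
  exact (e1.and (e2.and (e3.and (e4.and (e5.and (e6.and (e7.and e8))))))).mono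
    fun G ⟨u1, u2, u3, u4, u5, u6, u7, u8⟩ => ⟨u1, u2, u3, h.fn.cE G, u4, u5, u6, u7, u8⟩

theorem num (hM : Big M) {a b : ℝ}
    (h : Gp P M fun n _ Γ => Real.exp (un M a n) ≤ Γ * Real.exp (un M b n)) : a ≤ b :=
  Le.num hM (le_of_gp h)

theorem un_sub (M : ℕ → ℕ) (a b : ℝ) : (fun n => un M a n - un M b n) = un M (a - b) :=
  funext fun _ => (sub_mul _ _ _).symm

theorem exp_mul (M : ℕ → ℕ) (a : ℝ) (i n : ℕ) :
    Real.exp (un M (i * a) n) = Real.exp (un M a n) ^ i := by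
  rw [un, un, mul_assoc, Real.exp_nat_mul]

theorem exp_lg (M : ℕ → ℕ) (n : ℕ) : Real.exp (un M lg n) = 2 ^ M n := by
  rw [un, mul_comm, ← log_two_pow, Real.exp_log (by positivity)]

theorem dsz_nn {N' : ℕ} (Θ : Fin N' → Pl N) (x : V N) : 0 ≤ dsz Θ x :=
  Finset.sum_nonneg fun _ _ => Finset.sum_nonneg fun _ _ => abs_nonneg _

section Vol

variable {y : ∀ n, Ω n → V (N + 1)} {Θ : ∀ n, Ω n → Fin (N + 1) → Pl (N + 1)}

/-- The derivative and the volume. -/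
theorem dv (h2 : Cel2) (hM : Big M) (e : Cel P M y Z A Θ D) (su : Sure P M y)
    (vo : Vol P M y Θ (un M w)) : Gp P M fun n ω Γ => (1 ≤ Γ * dsz (Θ n ω) (y n ω) ∧
      dsz (Θ n ω) (y n ω) ≤ Γ * Real.exp (un M w n)) ∧
      Real.exp (un M w n) ≤ Γ * dsz (Θ n ω) (y n ω) ^ (N + 1) :=
  (h2.dv hM e su).mul vo (Eventually.of_forall fun n ω _ Γ Γ' a b t t' => by
    have := dsz_nn (Θ n ω) (y n ω)
    refine ⟨⟨t.1.trans (by gcongr; exact le_mul_of_one_le_right (by linarith) b), t.2.1.trans ?_⟩,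
      t'.1.trans ?_⟩
    · rw [mul_assoc]
      exact mul_le_mul_of_nonneg_left t'.2 (by linarith)
    · rw [mul_comm Γ, mul_assoc]
      exact mul_le_mul_of_nonneg_left t.2.2 (by linarith))

theorem vol_lo (h2 : Cel2) (hM : Big M) (e : Cel P M y Z A Θ D) (su : Sure P M y)
    (vo : Vol P M y Θ (un M w)) : 0 ≤ w :=
  num hM ((dv h2 hM e su vo).poly hM le_rfl 2 (Eventually.of_forall fun n ω _ Γ a t => by
    rw [show un M 0 n = 0 by simp [un], Real.exp_zero]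
    exact t.1.1.trans ((mul_le_mul_of_nonneg_left t.1.2 (by linarith)).trans_eq (by ring))))

theorem vol_hi {a : ℝ} (h2 : Cel2) (hM : Big M) (e : Cel P M y Z A Θ D) (su : Sure P M y)
    (vo : Vol P M y Θ (un M w))
    (h : Gp P M fun n ω Γ => dsz (Θ n ω) (y n ω) ≤ Γ * Real.exp (un M a n)) :
    w ≤ (N + 1 : ℕ) * a := by
  obtain ⟨Γ, a1, a2⟩ := gp_iff.1 (dv h2 hM e su vo)
  obtain ⟨Γ', b1, b2⟩ := gp_iff.1 h
  refine num hM (gp_iff.2 ⟨_, a1.mul (b1.pow (N + 1)), (a2.and b2).mono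
    (Eventually.of_forall fun n ω _ t => t.1.2.trans ?_)⟩)
  rw [exp_mul, mul_assoc, ← mul_pow]
  exact mul_le_mul_of_nonneg_left (pow_le_pow_left₀ (dsz_nn _ _) t.2 _) (a1.pos n).le

end Vol

theorem lev_exp (M : ℕ → ℕ) {a : ℝ} (h : 0 ≤ a) (n : ℕ) :
    (2 : ℝ) ^ lev M (a / lg) n ≤ Real.exp (un M a n) ∧
      Real.exp (un M a n) ≤ 2 * 2 ^ lev M (a / lg) n := by
  have l := lg_pos
  have e1 := lev_le' M (div_nonneg h l.le) n
  have e2 := lt_lev M (a / lg) n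
  rw [div_mul_eq_mul_div] at e1 e2
  rw [le_div_iff₀ l] at e1
  rw [div_lt_iff₀ l] at e2
  rw [← pow_succ', ← Real.exp_log (show (0 : ℝ) < 2 ^ lev M (a / lg) n by positivity),
    ← Real.exp_log (show (0 : ℝ) < 2 ^ (lev M (a / lg) n + 1) by positivity), log_two_pow,
    log_two_pow, un]
  push_cast
  exact ⟨Real.exp_le_exp.2 e1, Real.exp_le_exp.2 e2.le⟩

end Pr2

open Pr2

theorem ofPair2 : OfPair2 := by
  intro h1 h2 hF c1 c2 hR hA d mm hS k m C D κ hκ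
  have l0 := lg_pos
  obtain ⟨D', hR⟩ := hR (d + 1) C D
  obtain ⟨c0, hc0, hS⟩ := hS k m C D' (κ * lg) (by positivity)
  refine ⟨(d + 1 : ℕ) * lg / c0, by positivity, ?_⟩
  intro Ω Λ Λ' β' P M j y s Z' A A' Θ Θ' be c v v' u u' hm hc sy ce fw zz ce' fn re dl dl' su vo vo'
    hj hv li
  have hM := sy.big
  obtain ⟨Ψ, cΨ, vΨ⟩ := hR _ _ _ _ _ P M y _ _ A A' Θ Θ' _ _ hM ce ce' fn re vo vo'
  have v0 := vol_lo c2 hM ce su vo
  have v1 := vol_hi (a := lg) c2 hM ce' su vo' (by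
    simp only [exp_lg]
    exact (c2.dle hM ce').1.2 dl')
  have uu : u ≤ u' := Le.num hM (hF.hl hM fn hv li)
  have B0 : Bd C D D' m M j y s Z' A A' Θ Ψ be c (v' - v) u u' P :=
    ⟨sy, ce, fw, fn, dl, hv, li, cΨ, un_sub M v' v ▸ vΨ⟩
  obtain ⟨G1, g1, su1⟩ := sy.bd.sure
  have B1 := (B0.sl h1 h2).pos g1.pos
  obtain ⟨L, hL, sl⟩ := B1.sl h1 h2
  obtain ⟨G2, a, g2, dz⟩ := conc hM hL ((dv c2 hM B1.cel' su1 B1.vol).mono
    (Eventually.of_forall fun _ _ _ _ _ t => t.1))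
  have B2 := sl G2 g2
  have su2 := su1.cE G2
  generalize (fun n => cE (cE (P n) (G1 n)) (G2 n)) = Q at B2 su2 dz
  have d2 := dv c2 hM B2.cel' su2 B2.vol
  have a0 : 0 ≤ a := num hM (d2.mul dz (Eventually.of_forall fun n ω _ Γ Γ' p _ t t' => by
    rw [show un M 0 n = 0 by simp [un], Real.exp_zero, mul_assoc]
    exact t.1.1.trans (mul_le_mul_of_nonneg_left t'.2 (by linarith))))
  have a1 : a ≤ v' - v := num hM (dz.mul d2 (Eventually.of_forall fun n ω _ Γ Γ' p _ t t' => by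
    rw [mul_assoc]
    exact t.1.trans (mul_le_mul_of_nonneg_left t'.1.2 (by linarith))))
  have a2 := vol_hi c2 hM B2.cel' su2 B2.vol (dz.mono (Eventually.of_forall fun _ _ _ _ _ t => t.2))
  have a3 := mul_nonneg hκ.le (a0.trans a1)
  have n0 : (0 : ℝ) ≤ (d + 1 : ℕ) := Nat.cast_nonneg _
  by_cases cs : c0 * (a / lg) ≤ c
  · rw [← mul_div_assoc, div_le_iff₀ l0, ← le_div_iff₀' hc0] at cs
    have := mul_le_mul_of_nonneg_left cs n0
    have e : (d + 1 : ℕ) * lg / c0 * c = (d + 1 : ℕ) * (c * lg / c0) := by ring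
    linarith
  by_contra ct
  have g0 : 0 < a / lg := (mul_pos_iff_of_pos_left hc0).1 (hc.trans_lt (not_le.1 cs))
  have eq := lev_eqv hM g0.le
  have cp : Cmp M (lev M (a / lg)) := cmp_of hM g0 eq
  have z1 : DzLe Q M (chs Θ y) Ψ (lev M (a / lg)) := dz.poly hM one_le_two 1
    (Eventually.of_forall fun n ω _ Γ p t => t.2.trans ((mul_le_mul_of_nonneg_left
      (lev_exp M a0 n).2 (by linarith)).trans_eq (by ring)))
  have z2 : DzGe Q M (chs Θ y) Ψ (lev M (a / lg)) :=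
    dz.mono (Eventually.of_forall fun n ω _ Γ p t => (lev_exp M a0 n).1.trans t.1)
  have ac := hA hM B2.cel B2.dle B2.fn B2.cel' B2.vol z1 (hj.mono fun n t => le_trans (by
    have t1 := lev_le' M g0.le n
    have t2 : a / lg ≤ (d + 1 : ℕ) := (div_le_iff₀ l0).2 (by linarith)
    have t3 : lev M (a / lg) n ≤ (d + 1) * M n := by
      exact_mod_cast t1.trans (mul_le_mul_of_nonneg_right t2 (Nat.cast_nonneg _))
    linarith) t) B2.hv B2.li
  have K0 : 0 ≤ (d + 1 : ℕ) * lg / c0 * c := by positivity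
  obtain ⟨G3, g3, po⟩ := hF.hp (η := v' - v - (u' - u)) (η' := κ * (v' - v)) hM
    (by rw [← un_sub, ← un_sub M u']; exact ac) (by linarith [not_le.1 ct])
  have B3 := (B2.sl h1 h2).pos g3.pos
  have zf : ∀ b, FnE (fun n => cE (Q n) (G3 n)) (hat (lab s) be b) (Z' b) := fun b =>
    (zz b).mono fun n t p _ q _ e => (t p q).1 e
  have zb : ∀ b, FnE (fun n => cE (Q n) (G3 n)) (Z' b) (hat (lab s) be b) := fun b =>
    (zz b).mono fun n t p _ q _ e => (t p q).2 e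
  have de := c2.dle (g := lev M (a / lg)) hM B3.cel'
  refine hS _ _ _ _ (lev M (a / lg)) (chs Θ y) s A A' be hm (B3.sys.unit cp)
    (NT.unit B3.cel.frm.min cp) B3.cel.cm.com (fun b => (B3.few b).unit cp ?_)
    (CM.unit ⟨fun b => (B3.cel'.cm.com b).trans (zb b), c1.congr B3.cel'.cm.nt zf⟩ cp) B3.fn
    ((de.1.1 (gp_cE z1 g3.pos)).unit cp) ((de.2 (gp_cE z2 g3.pos)).unit cp)
    (po.unit (Eventually.of_forall fun n => ?_))
  · refine (eq.2.smul hc0.le).of_sub (Eventually.of_forall fun n => ?_)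
    have := mul_le_mul_of_nonneg_right (not_le.1 cs).le (Nat.cast_nonneg (α := ℝ) (M n))
    simp only [un]
    linarith
  · have t1 := lev_le' M g0.le n
    rw [div_mul_eq_mul_div, le_div_iff₀ l0] at t1
    have t2 := mul_le_mul_of_nonneg_right a1 (Nat.cast_nonneg (α := ℝ) (M n))
    rw [mul_assoc, mul_assoc, mul_comm lg]
    exact mul_le_mul_of_nonneg_left (t1.trans t2) hκ.le

end Pool.Agent.MP_5168f5_an.AN
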