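import Pool.Agent.MP_5168f5_an.AN.RlSeq

/-! The inequality of Remez on all levels. -/

namespace Pool.Agent.MP_5168f5_an.AN

open H19 H17S H17F R4 Filter MvPolynomial Rl
open Pk (cn kc)
open Nc (Pl ev)
open G39 (RG dl dl_pos dl_add dl_anti dl_pow dl_inv dl_half sub_dl dl_lt)

theorem rlf : RLf := by
  refine fun k C => ⟨(4 * k ^ 2 + 1) * C, Nat.le_mul_of_pos_left _ (Nat.succ_pos _), ?_⟩
  rintro Ω N P M x κ hM h fl t ⟨R, ht⟩ K E
  refine gd_of (q := fun n G Γ => RG (P n) (x n) ((κ n).pc (t n)) G E _ Γ (dl M K n)) fun c hc => ?_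
  have s0 : 0 < c / 2 / (4 * (k * (C * E)) + 1 : ℕ) := by positivity
  have s1 : ((4 * (k * (C * E)) : ℕ) : ℝ) * (c / 2 / (4 * (k * (C * E)) + 1 : ℕ)) ≤ c / 2 := by
    rw [← mul_div_assoc, div_le_iff₀ (by positivity), mul_comm]
    exact mul_le_mul_of_nonneg_left (by exact_mod_cast Nat.le_succ _) (by positivity)
  generalize c / 2 / (4 * (k * (C * E)) + 1 : ℕ) = σ at s0 s1
  obtain ⟨a, la, ha⟩ := ex_lev hM s0
  obtain ⟨R', la2⟩ := Lin.add la la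
  obtain ⟨B, c0, G1, c1, g1, e1⟩ := fl E
  obtain ⟨J, hJ, hJ'⟩ : ∃ J : ℕ, 2 * (2 * (k * (C * E))) ≤ J + 1 ∧ B + 1 ≤ (J + 2 : ℕ) * (σ / 2) := by
    refine ⟨2 * (2 * (k * (C * E))) + ⌈(B + 1) / (σ / 2)⌉₊, by omega, ?_⟩
    rw [← div_le_iff₀ (half_pos s0)]
    exact (Nat.le_ceil _).trans (by exact_mod_cast (by omega))
  obtain ⟨G2, Γ2, g2, s2, e2⟩ := h.rem (K + k * R + k * R' + 1) E
  obtain ⟨G3, Γ3, g3, s3, e3⟩ := h.wh J
  obtain ⟨G4, Γ4, g4, s4, e4⟩ := lr_sup hM h.bd h.few h.den la (E * (J + 1))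
  obtain ⟨G5, Γ5, g5, s5, e5⟩ := lr hM h.bd h.few h.den ⟨R, ht⟩ (2 * (2 * (k * (C * E)))) K
  obtain ⟨G6, Γ6, g6, s6, e6⟩ := pc_low hM h.bd h.few fun n => a n + a n
  obtain ⟨G7, Γ7, g7, s7, e7⟩ := pc_low hM h.bd h.few t
  obtain ⟨Γ, s, m⟩ := sub_fin hM ![Γ2, Γ3, Γ4, Γ5, Γ6, Γ7] fun i => by
    fin_cases i; exacts [s2, s3, s4, s5, s6, s7]
  have g0 := g1.and (g2.and (g3.and (g4.and g5)))
  have sY := s.mul ((s.const_mul hM one_le_two).pow (C * E))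
  refine ⟨_, (g0.and (g6.and g7)).and ((S20.whp_half g0 fun n => (κ n).Z).and
    ((S20.whp_half g0 fun n => (κ n).pc (a n)).and
      (S20.whp_half g0 fun n => (κ n).pc (a n + a n)))), ?_⟩
  filter_upwards [e1, e2, e3, e4, e5, e6, e7, ht, la2, dl_lt hM one_half_pos c1,
    sub_dl ((s.pow (E + 1)).const_mul hM (show (1 : ℝ) ≤ E + 1 by simp)) one_pos,
    sub_dl ((s.const_mul hM (show (1 : ℝ) ≤ 6 by norm_num)).mul sY) (half_pos s0),
    sub_dl (s.const_mul hM one_le_two) one_pos,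
    sub_dl ((((s.pow 2).const_mul hM (show (1 : ℝ) ≤ 12 by norm_num)).mul (sY.pow 2)).const_mul hM
      (one_le_pow₀ (show (1 : ℝ) ≤ 3 by norm_num) (n := 4 * (k * (C * E))))) (half_pos hc)]
    with n e1 e2 ⟨τ, e3⟩ e4 e5 e6 e7 ht la2 d0 d1 d2 d3 d4
  rintro ω hω ⟨⟨g, g6, g7⟩, u1, u2, u3⟩ f ⟨F, hF, hf⟩ θ q hq hp
  have p := dl_pos M
  have Γ1 := s.1 n
  have w : ∀ R₁ t₁ : ℕ, ((2 : ℝ) ^ t₁) ^ k ≤ (dl M (k * R₁) n)⁻¹ → ∀ K₁ : ℝ,
      K₁ + k * R₁ + 1 ≤ (K + k * R + k * R' + 1 : ℕ) →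
      dl M (K + k * R + k * R' + 1 : ℕ) n * (Γ n * (2 ^ t₁) ^ k) ≤ dl M K₁ n / 2 := by
    intro R₁ t₁ b1 K₁ b2
    have b3 := dl_anti M b2 n
    rw [dl_add, dl_add] at b3
    have b4 := p K₁ n
    have b5 := p (k * R₁) n
    have b6 := p 1 n
    calc _ ≤ dl M K₁ n * dl M (k * R₁) n * dl M 1 n * ((dl M 1 n)⁻¹ / 2 * (dl M (k * R₁) n)⁻¹) := by
          gcongr; linarith
      _ = _ := by field_simp
  have kR : (0 : ℝ) ≤ k * R := by positivity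
  have kR' : (0 : ℝ) ≤ k * R' := by positivity
  have low : ∀ {L y z : ℝ}, L ≤ Γ n → 0 ≤ y → 0 ≤ z → 1 ≤ L * y * z → 1 ≤ Γ n * y * z :=
    fun b1 b2 b3 b4 => b4.trans (by gcongr)
  have key := core (κ := κ n) (b := (dl M B n)⁻¹) (a := a n) (t := t n) (τ := τ ω) Γ1
    (inv_pos.2 (p _ _)).le (p K n) hω g
    (fun v hv z => (wh_bd (s3.pos n).le (fun i => ((e3 v hv z.2.2.1).1 i).2)
      ((e3 v hv z.2.2.1).2.2 v hv z.2.2.1 rfl rfl)).trans (m n 1))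
    (e2.mono (p _ _) (fun _ z => z.2.1) (m n 0))
    (fun i => ((e3 ω hω g.2.2.1).1 i).imp_right fun z => z.trans (m n 1))
    (fun v hv z z1 z2 => ((e3 ω hω g.2.2.1).2.2 v hv z.2.2.1 z1 z2).trans
      (mul_le_mul_of_nonneg_right (m n 1) (by positivity)))
    (fun F hF => by_contra fun z => by
      refine (u1.trans ((pb_mono fun v hv y => ⟨y.1, ?_⟩).trans (e1 ω hω F hF))).not_gt d0
      have hv' := (S20.mem_cv hω v).1 hv
      exact (inv_mul_lt_iff₀ (p _ _)).1 (not_le.1 fun y' => z ⟨v, hv'.1, y, hv'.2, y'⟩))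
    (fun H d θ z => by
      have y := e4 ω hω _ (fun _ z => z.2.2.2.1) u2 H d θ z
      exact y.trans (mul_le_mul_of_nonneg_right (m n 2)
        ((abs_nonneg _).trans (z ω hω g rfl))))
    u3 (low (m n 4) (by positivity) (S20.dn_pos hω _ _).le (e6 ω hω g6))
    ((e5 ω hω).mono (p _ _) (fun _ z => z.2.2.2.2) (m n 3))
    (low (m n 5) (by positivity) (S20.dn_pos hω _ _).le (e7 ω hω g7))
    (by
      have b1 := pow_le_pow_left₀ (inv_pos.2 (p _ _)).le (ha n).1 (J + 2)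
      rw [inv_pow, dl_pow] at b1
      refine le_trans ?_ ((inv_anti₀ (p _ _) (dl_anti M hJ' n)).trans b1)
      have b2 := inv_pos.2 (p B n)
      have b3 : 0 ≤ Γ n ^ (E + 1) := by positivity
      rw [dl_add, mul_inv]
      nlinarith)
    (d2.trans (ha n).1)
    ((w R' _ (two_le_dl (t := fun n => a n + a n) la2 k) 0 (by push_cast; linarith [K.cast_nonneg (α := ℝ)])).trans
      (by simp [dl]))
    ((w R _ (two_le_dl ht k) K (by push_cast; linarith)).trans (half_le_self (p _ _).le)) hJ hF hq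
    (hp.trans (pb_mono fun v _ z => ⟨z.1.1.1, hf v ▸ z.2⟩))
  obtain ⟨_, -, -, t0⟩ := ex_of_pb (((p K n).trans_le hq).trans_le hp)
  have q0 := (p K n).trans_le hq
  rw [hf]
  refine key.trans (mul_le_mul_of_nonneg_right (mul_le_mul_of_nonneg_right ?_ (by positivity))
    ((abs_nonneg _).trans t0))
  have b1 := pow_le_pow_left₀ (by positivity) (ha n).2 (4 * (k * (C * E)))
  rw [mul_pow, inv_pow, dl_pow] at b1
  have b2 := inv_anti₀ (p _ _) (dl_anti M s1 n)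
  have b3 := inv_pos.2 (p (c / 2) n)
  rw [← dl_inv, dl_half, mul_inv]
  calc _ ≤ 12 * Γ n ^ 2 * (Γ n * (2 * Γ n) ^ (C * E)) ^ 2 *
        (3 ^ (4 * (k * (C * E))) * (dl M (c / 2) n)⁻¹) :=
        mul_le_mul_of_nonneg_left (b1.trans (by gcongr)) (by positivity)
    _ = _ * (dl M (c / 2) n)⁻¹ := by rw [← mul_assoc, mul_comm _ (3 ^ _)]
    _ ≤ _ := mul_le_mul_of_nonneg_right d4 b3.le

end Pool.Agent.MP_5168f5_an.AN
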