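import Pool.Agent.MP_5168f5_an.AN.GCel2
import Pool.Agent.MP_5168f5_an.AN.G39Frm
import Pool.Agent.MP_5168f5_an.AN.NcJac

/-! Kakeya sets in all dimensions: the frame of a small cell in the chart of a large cell. -/

namespace Pool.Agent.MP_5168f5_an.AN.Cx

open H19 H17S H17F Filter MvPolynomial R4 Vo
open Nc (Pl ev jac deg_jac kc eval_aeval jac_comp)

variable {Ω Λ Λ' : ℕ → Type} {β β' : Bool → ℕ → Type} {N N' k D D' : ℕ} {P : ∀ n, FP (Ω n)}
  {M : ℕ → ℕ} {x : ∀ n, Ω n → V N} {Z : ∀ b n, Ω n → β b n} {A : ∀ n, Ω n → Λ n}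
  {A' : ∀ n, Ω n → Λ' n} {Θ : ∀ n, Ω n → Fin N' → Pl N} {v : ℕ → ℝ}

theorem chs_chs (Θ : ∀ n, Ω n → Fin N' → Pl N) (Ψ : ∀ n, Ω n → Fin k → Pl N')
    (x : ∀ n, Ω n → V N) :
    chs (fun n ω j => aeval (Θ n ω) (Ψ n ω j)) x = chs Ψ (chs Θ x) := by
  funext n ω i
  exact eval_aeval _ _ _

/-- A frame stays algebraically independent on smaller cells. -/
theorem nz_chs (hM : Big M) (h : Frm P M x Z A Θ D) (hA : Com P Z A) (e : FnE P Θ A')
    (hn : NZ P x A') : NZ P (chs Θ x) A' := fun E =>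
  ((frm_ind hM h hA E 1 one_pos).and (hn (E * D))).mono (e.mono fun n f ω hω k H hH h0 => by
    rw [nc_cht f hω]
    refine k.2 _ (kc.deg _ _ _ _ hH (h.deg n ω)) fun z => h0 ?_
    have u := k.1 H hH
    rw [z, nc_eq, nuP_zero, mul_zero] at u
    ext m
    exact abs_nonpos_iff.1 ((kc.coeff H m).trans u))

theorem vol_wl {Φ : ∀ n, Ω n → Fin N → Pl N} : Vol P M x Φ v ↔
    Wl P M (fun n _ => Real.exp (v n)) (fun n ω => |eval (x n ω) (jac (Φ n ω))|) ∧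
      Wl P M (fun n ω => |eval (x n ω) (jac (Φ n ω))|) fun n _ => Real.exp (v n) := by
  refine ⟨fun k => ?_, fun k => wp_gp (Wp.and k.1 k.2)⟩
  have k' := gp_wp k fun n ω _ _ _ l u => ⟨u.1.trans (mul_le_mul_of_nonneg_right l (abs_nonneg _)),
    u.2.trans (mul_le_mul_of_nonneg_right l (Real.exp_pos _).le)⟩
  exact ⟨wp_mono k' (Eventually.of_forall fun _ _ _ _ _ u => u.1),
    wp_mono k' (Eventually.of_forall fun _ _ _ _ _ u => u.2)⟩

/-- Two frames of a cell have the same volume. -/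
theorem vol_frm {Φ Ψ : ∀ n, Ω n → Fin N → Pl N} (hM : Big M) (h : Cel P M x Z A Φ D)
    (h' : Frm P M x Z A Ψ D') (hv : Vol P M x Φ v) : Vol P M x Ψ v :=
  vol_wl.2 ⟨(vol_wl.1 hv).1.trans ((cel_vh hM ⟨h.cm, h'⟩).jmax h.frm.deg
    (cm_le h.cm h.frm.fn h.frm.deg h.frm.bd)), Wl.trans ((cel_vh hM h).jmax h'.deg
    (cm_le h.cm h'.fn h'.deg h'.bd)) (vol_wl.1 hv).2⟩

/-- The chain rule for volumes. -/
theorem vol_comp {Φ Ψ : ∀ n, Ω n → Fin N → Pl N} {v' : ℕ → ℝ} (h : Vol P M x Φ v)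
    (h' : Vol P M x (fun n ω j => aeval (Φ n ω) (Ψ n ω j)) v') :
    Vol P M (chs Φ x) Ψ fun n => v' n - v n := by
  obtain ⟨a, b⟩ := vol_wl.1 h
  obtain ⟨a', b'⟩ := vol_wl.1 h'
  simp only [jac_comp, map_mul, abs_mul, eval_aeval] at a' b'
  refine vol_wl.2 ⟨wp_sq (Wp.and a' b) (Eventually.of_forall fun n L l ω _ k => ?_),
    wp_sq (Wp.and a b') (Eventually.of_forall fun n L l ω _ k => ?_)⟩
  · beta_reduce
    rw [Real.exp_sub, div_le_iff₀ (Real.exp_pos _)]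
    refine k.1.trans ((mul_le_mul_of_nonneg_left (mul_le_mul_of_nonneg_left k.2 (abs_nonneg _))
      (zero_le_one.trans l)).trans_eq ?_)
    simp only [cht]
    ring
  · beta_reduce
    rw [Real.exp_sub, ← mul_div_assoc, le_div_iff₀ (Real.exp_pos _), mul_assoc]
    refine (mul_le_mul_of_nonneg_left k.1 (abs_nonneg _)).trans ?_
    rw [mul_left_comm]
    exact mul_le_mul_of_nonneg_left k.2 (zero_le_one.trans l)

end Pool.Agent.MP_5168f5_an.AN.Cx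

namespace Pool.Agent.MP_5168f5_an.AN

open H19 H17S H17F Filter MvPolynomial Cx

theorem rel : Rel := fun N C D => (Gc.ud_ctx N C D N).imp fun D' H => by
  intro Ω Λ Λ' β β' P M x Z Z' A A' Θ Θ' v v' hM h h' e hR hv hv'
  have f := fnE_trans h.frm.fn e
  obtain ⟨Ψ, a, b, -, c⟩ := H hM (fun b => by simpa using hR b 1) h'.cm f h.frm.deg
    (nz_chs hM h.frm h.cm.com f (cel_nz hM h'))
  exact ⟨Ψ, ⟨cm_comp h'.cm f h.frm.deg, a, b, (congrArg (Bdd P M) (chs_chs Θ Ψ x)).mp c.bd,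
    (congrArg (MIN P M · Z') (chs_chs Θ Ψ x)).mp c.min⟩, vol_comp hv (vol_frm hM h' c hv')⟩

theorem ofRel : OfRel := fun _ _ _ => rel

end Pool.Agent.MP_5168f5_an.AN
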