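import Pool.Agent.MP_5168f5_an.AN.MSpec2

/-! Volumes, depths and probabilities of countably many cells become deterministic. -/

namespace Pool.Agent.MP_5168f5_an.AN

open H19 H17S H17F R4 Filter MvPolynomial
open G39 (dl dl_pos)
open Pk (cn)
open Nc (Pl ev jac)
open S20 (dn gp_iff)
open K31 (dnS_cE)

namespace GSLcA

theorem tw {a c Γ : ℝ} (ha : 0 < a) (hΓ : 0 < Γ) (h : |Real.log a - c| ≤ Real.log Γ) :
    Real.exp c ≤ Γ * a ∧ a ≤ Γ * Real.exp c := by
  rw [← Real.exp_log ha, ← Real.exp_log hΓ, ← Real.exp_add, ← Real.exp_add]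
  exact ⟨Real.exp_le_exp.2 (by linarith [(abs_le.1 h).1]),
    Real.exp_le_exp.2 (by linarith [(abs_le.1 h).2])⟩

theorem abs_log {a b : ℝ} (h1 : 1 ≤ Real.exp b * a) (h2 : a ≤ Real.exp b) :
    0 < a ∧ |Real.log a| ≤ b := by
  have ha : 0 < a := (mul_pos_iff_of_pos_left (Real.exp_pos b)).1 (one_pos.trans_le h1)
  have := Real.log_le_log one_pos h1
  rw [Real.log_mul (Real.exp_pos b).ne' ha.ne', Real.log_exp, Real.log_one] at this
  exact ⟨ha, abs_le.2 ⟨by linarith, (Real.log_le_iff_le_exp ha).2 h2⟩⟩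

theorem dsz_le {N D : ℕ} {Θ : Fin N → Pl N} {x : V N} {Γ c : ℝ} (h : ∀ i, (Θ i).totalDegree ≤ D)
    (h1 : 1 ≤ Γ) (hx : ‖x‖ ≤ Γ) (hc : ∀ i, cn (Θ i) ≤ c) (c0 : 0 ≤ c) :
    dsz Θ x ≤ (N * N * D + 1) * Γ ^ D * c := by
  have : ∀ i j, |eval x (pderiv j (Θ i))| ≤ D * c * Γ ^ D := fun i j =>
    (Nc.kc.val _ D Γ x (deg_pderiv (h i) j) h1 fun l => (norm_le_pi_norm x l).trans hx).trans
      (mul_le_mul_of_nonneg_right ((Nc.kc.der _ D j (h i)).1.trans
        (mul_le_mul_of_nonneg_left (hc i) (Nat.cast_nonneg _))) (by positivity))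
  refine (Finset.sum_le_sum fun i _ => Finset.sum_le_sum fun j _ => this i j).trans ?_
  simp only [Finset.sum_const, Finset.card_univ, Fintype.card_fin, nsmul_eq_mul]
  nlinarith [show 0 ≤ Γ ^ D * c by positivity]

theorem two_pow (t : ℕ) : (2 : ℝ) ^ t = Real.exp (t * lg) := by
  rw [Real.exp_nat_mul, lg, Real.exp_log two_pos]

end GSLcA

open GSLcA

theorem slVol (c1 : Cel1) (c2 : Cel2) : SLVol := by
  intro Ω Λ J _ β d D P M K x Z A Θ hK hM hs hc hf
  choose Γ g1 g2 using fun i => gp_iff.1 (c2.dv hM (hc i) hs)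
  choose B hB using fun i => c1.pw hM (hc i).cm (hc i).frm (hf i)
  obtain ⟨L, l1, l2⟩ := hs
  have key : ∀ i, Whp P fun n ω => 1 ≤ Γ i n * dsz (Θ i n ω) (x n ω) ∧
      (0 < dsz (Θ i n ω) (x n ω) ∧ |Real.log (dsz (Θ i n ω) (x n ω))| ≤ (|B i| + 1) * M n) ∧
      0 < |eval (x n ω) (jac (Θ i n ω))| ∧
        |Real.log (|eval (x n ω) (jac (Θ i n ω))|)| ≤ ((d + 1 : ℕ) * (|B i| + 1) + 2) * M n :=
    fun i => ((g2 i).and (hB i)).mono (by
      filter_upwards [l2, (g1 i).2 1 one_pos, ((l1.pow D).const_mul hM (show (1 : ℝ) ≤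
        (d + 1 : ℕ) * (d + 1 : ℕ) * D + 1 from le_add_of_nonneg_left (by positivity))).2 1 one_pos]
        with n a b c ω hω ⟨⟨e1, e2, e3⟩, e4⟩
      have m0 := Nat.cast_nonneg (α := ℝ) (M n)
      have b0 := abs_nonneg (B i)
      have g0 := (g1 i).pos n
      have z0 : 0 ≤ dsz (Θ i n ω) (x n ω) :=
        ((mul_pos_iff_of_pos_left g0).1 (one_pos.trans_le e1)).le
      have u : dsz (Θ i n ω) (x n ω) ≤ Real.exp ((|B i| + 1) * M n) := by
        refine (dsz_le (c := Real.exp (|B i| * M n)) ((hc i).frm.deg n ω) (l1.1 n) (a ω hω)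
          (fun l => ?_) (Real.exp_pos _).le).trans
          ((mul_le_mul_of_nonneg_right c (Real.exp_pos _).le).trans_eq ?_)
        · have := e4 l
          rw [mul_comm, ← le_div_iff₀ (dl_pos _ _ _), one_div, G39.dl_inv] at this
          exact this.trans (Real.exp_le_exp.2 (mul_le_mul_of_nonneg_right (le_abs_self _) m0))
        · rw [← Real.exp_add]; congr 1; ring
      refine ⟨e1, abs_log (e1.trans (mul_le_mul_of_nonneg_right
        (b.trans (Real.exp_le_exp.2 (by nlinarith))) z0)) u, abs_log ?_ ?_⟩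
      · refine e1.trans ((mul_le_mul_of_nonneg_left e2 g0.le).trans ?_)
        rw [← mul_assoc]
        refine mul_le_mul_of_nonneg_right ((mul_le_mul b b g0.le (Real.exp_pos _).le).trans ?_)
          (abs_nonneg _)
        rw [← Real.exp_add]
        exact Real.exp_le_exp.2 (by
          nlinarith [show 0 ≤ ((d + 1 : ℕ) : ℝ) * (|B i| + 1) * M n by positivity])
      · refine e3.trans ((mul_le_mul b (pow_le_pow_left₀ z0 u _) (by positivity)
          (Real.exp_pos _).le).trans ?_)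
        rw [← Real.exp_nat_mul, ← Real.exp_add]
        exact Real.exp_le_exp.2 (by nlinarith))
  obtain ⟨E, c, k, h⟩ := hK.conc hM (J := J × Bool) (fun i n ω => bif i.2 then
      Real.log |eval (x n ω) (jac (Θ i.1 n ω))| else Real.log (dsz (Θ i.1 n ω) (x n ω)))
    (fun i => key i.1) fun ⟨i, b⟩ => by
      cases b
      exacts [⟨_, (key i).mono (Eventually.of_forall fun n ω _ a => a.2.1.2)⟩,
        ⟨_, (key i).mono (Eventually.of_forall fun n ω _ a => a.2.2.2)⟩]
  refine ⟨E, fun i => c (i, true), fun i => c (i, false) / lg, k, fun i => ?_⟩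
  obtain ⟨Γ1, a1, b1⟩ := h (i, true)
  obtain ⟨Γ2, a2, b2⟩ := h (i, false)
  have l0 : 0 < lg := Real.log_pos one_lt_two
  have q : ∀ n, c (i, false) * M n = c (i, false) / lg * M n * lg := fun n => by field_simp
  refine ⟨gp_of_sub a1 (b1.mono fun n a ω hω => tw (a ω hω).1.2.2.1 (a1.pos n) (a ω hω).2),
    gp_of_sub (a2.const_mul hM one_le_two) (b2.mono fun n a ω hω => ?_),
    gp_of_sub (a2.mul (g1 i)) (b2.mono fun n a ω hω => ?_)⟩
  · refine (tw (a ω hω).1.2.1.1 (a2.pos n) (a ω hω).2).2.trans ?_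
    rw [mul_comm 2, mul_assoc, ← pow_succ', two_pow, q]
    push_cast
    exact mul_le_mul_of_nonneg_left (Real.exp_le_exp.2 (mul_le_mul_of_nonneg_right
      (lt_lev M _ n).le l0.le)) (a2.pos n).le
  · obtain ⟨⟨e1, ⟨e2, -⟩, -⟩, e3⟩ := a ω hω
    by_cases s : 0 ≤ c (i, false) / lg
    · refine le_trans ?_ ((tw e2 (a2.pos n) e3).1.trans (mul_le_mul_of_nonneg_right
        (le_mul_of_one_le_right (a2.pos n).le ((g1 i).1 n)) e2.le))
      rw [two_pow, q]
      exact Real.exp_le_exp.2 (mul_le_mul_of_nonneg_right (lev_le' M s n) l0.le)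
    · have : lev M (c (i, false) / lg) n = 0 := Nat.floor_of_nonpos
        (mul_nonpos_of_nonpos_of_nonneg (not_le.1 s).le (Nat.cast_nonneg _))
      rw [this, pow_zero]
      exact e1.trans (mul_le_mul_of_nonneg_right
        (le_mul_of_one_le_left ((g1 i).pos n).le (a2.1 n)) e2.le)

theorem slDn (h1 : Her1) (hF : FullApi) : SLDn := by
  intro Ω J _ Λ N P M j K y A hK hM hy ⟨R, hR⟩
  choose Γ g1 g2 using fun i => gp_iff.1 (hF.box (A i) j hM hy)
  have s : ∀ i, SL P fun Q => Gp Q M fun n v Γ =>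
      dn (P n) (fun u => fl (j n) (y n u)) (A i n) v ≤ Γ * dn (Q n) (fun u => fl (j n) (y n u)) (A i n) v ∧
      dn (Q n) (fun u => fl (j n) (y n u)) (A i n) v ≤ Γ * dn (P n) (fun u => fl (j n) (y n u)) (A i n) v :=
    fun i => sl_cf hM (cf_gp (fun n (Q : FP (Ω n)) => Q) (fun n _ => M n) fun n Q v Γ =>
      dn (P n) (fun u => fl (j n) (y n u)) (A i n) v ≤ Γ * dn Q (fun u => fl (j n) (y n u)) (A i n) v ∧
      dn Q (fun u => fl (j n) (y n u)) (A i n) v ≤ Γ * dn (P n) (fun u => fl (j n) (y n u)) (A i n) v)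
      fun _ a => h1.dn (fun n u => fl (j n) (y n u)) (A i) (dnS_cE a) hM
  have key : ∀ i, Whp P fun n ω => 0 < dn (P n) (fun u => fl (j n) (y n u)) (A i n) ω * (2 ^ j n) ^ N ∧
      |Real.log (dn (P n) (fun u => fl (j n) (y n u)) (A i n) ω * (2 ^ j n) ^ N)| ≤
        (N * R * lg + 1) * M n := fun i => (g2 i).mono (by
    filter_upwards [hR, (g1 i).2 1 one_pos] with n a b ω hω e
    have m0 := Nat.cast_nonneg (α := ℝ) (M n)
    have l0 : 0 < lg := Real.log_pos one_lt_two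
    have d0 := (S20.dn_pos hω (fun u => fl (j n) (y n u)) (A i n)).le
    have a' : (j n : ℝ) ≤ R * M n := by exact_mod_cast a
    rw [Real.exp_zero, div_le_iff₀ (by positivity), mul_assoc] at e
    refine abs_log (e.trans (mul_le_mul_of_nonneg_right (b.trans (Real.exp_le_exp.2 (by
      nlinarith [show 0 ≤ N * R * lg * M n by positivity]))) (by positivity)))
      ((mul_le_of_le_one_left (by positivity) (S20.dn_le_one _ _ _ _)).trans ?_)
    rw [two_pow, ← Real.exp_nat_mul]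
    exact Real.exp_le_exp.2 (by
      nlinarith [mul_le_mul_of_nonneg_left a' (show 0 ≤ N * lg by positivity)]))
  obtain ⟨E, c, ⟨k, k'⟩, h⟩ := (hK.and (sl_all s)).conc hM _ key fun i =>
    ⟨_, (key i).mono (Eventually.of_forall fun n ω _ a => a.2)⟩
  refine ⟨E, c, k, fun i => ?_⟩
  obtain ⟨Γ1, a1, b1⟩ := h i
  have t : Gp (fun n => cE (P n) (E n)) M fun n ω Γ => Real.exp (c i * M n) ≤
      Γ * (dn (P n) (fun u => fl (j n) (y n u)) (A i n) ω * (2 ^ j n) ^ N) ∧
      dn (P n) (fun u => fl (j n) (y n u)) (A i n) ω * (2 ^ j n) ^ N ≤ Γ * Real.exp (c i * M n) :=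
    gp_of_sub a1 (b1.mono fun n a ω hω => tw (a ω hω).1.1 (a1.pos n) (a ω hω).2)
  refine ⟨t.mul (k' i) (Eventually.of_forall fun n ω _ Γ Γ' u _ a b => ?_),
    (k' i).mul t (Eventually.of_forall fun n ω _ Γ Γ' u _ a b => a.2.trans ?_)⟩
  · rw [div_le_iff₀ (by positivity), mul_assoc, mul_assoc]
    exact a.1.trans (mul_le_mul_of_nonneg_left
      ((mul_le_mul_of_nonneg_right b.1 (by positivity)).trans_eq (mul_assoc _ _ _)) (by linarith))
  · rw [mul_assoc]
    refine mul_le_mul_of_nonneg_left ?_ (by linarith)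
    rw [← mul_div_assoc, le_div_iff₀ (by positivity)]
    exact b.2

end Pool.Agent.MP_5168f5_an.AN
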