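import Pool.Agent.MP_5168f5_an.AN.GNZ0
import Pool.Agent.MP_5168f5_an.AN.S20Nz2

/-! Fresh noise. -/

namespace Pool.Agent.MP_5168f5_an.AN

theorem nzs : NZs := ⟨S20.nz_kind, Nz.nz_flr, Nz.nz_min, Nz.nz_nu⟩

end Pool.Agent.MP_5168f5_an.AN
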