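import Pool.Agent.MP_5168f5_an.AN.G39Alg

/-! Kakeya sets in all dimensions: three deterministic facts for the steep window. -/

namespace Pool.Agent.MP_5168f5_an.AN.S20

open H17S MvPolynomial

/-- Bezout relation that eliminates a prescribed variable. -/
theorem algC (k : Type) [Field k] (i : ℕ) (j : Fin (i + 1))
    (H H' : MvPolynomial (Fin (i + 1)) k) (m : Fin (i + 1) →₀ ℕ) (h1 : coeff m H = 1)
    (h2 : coeff m H' = 1) (h0 : 0 < H.totalDegree) (hle : H'.totalDegree ≤ H.totalDegree)
    (hH : ∀ A B, H = A * B → H.totalDegree ≤ A.totalDegree ∨ H.totalDegree ≤ B.totalDegree) :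
    H' = H ∨ ∃ (A B : MvPolynomial (Fin (i + 1)) k) (R : MvPolynomial (Fin i) k),
      R ≠ 0 ∧ A * H + B * H' = rename j.succAbove R := by
  have n1 : H ≠ 0 := fun e => by simp [e] at h1
  have un : ∀ A : MvPolynomial (Fin (i + 1)) k, A ≠ 0 → A.totalDegree = 0 → IsUnit A :=
    fun A a b => by
      rw [totalDegree_eq_zero_iff_eq_C.1 b] at a ⊢
      exact (IsUnit.mk0 _ fun e => a (by rw [e, map_zero])).map C
  have irr : Irreducible H := ⟨fun u => h0.ne' (isUnit_iff_totalDegree_of_isReduced.1 u).2,
    fun A B e => by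
      have a := left_ne_zero_of_mul (e ▸ n1)
      have b := right_ne_zero_of_mul (e ▸ n1)
      have d := totalDegree_mul_of_isDomain a b
      rw [← e] at d
      exact (hH A B e).symm.imp (fun h => un A a (by omega)) fun h => un B b (by omega)⟩
  by_cases c : H ∣ H'
  · obtain ⟨B, rfl⟩ := c
    have b : B ≠ 0 := fun e => by simp [e] at h2
    rw [totalDegree_mul_of_isDomain n1 b] at hle
    rw [totalDegree_eq_zero_iff_eq_C.1 (show B.totalDegree = 0 by omega), mul_comm] at h2 ⊢
    rw [coeff_C_mul, h1, mul_one] at h2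
    exact Or.inl (by rw [h2, map_one, one_mul])
  · let ψ := (renameEquiv k j.cycleRange).trans (finSuccEquiv k i)
    obtain ⟨a, b, r, hr, e⟩ := G39.G39AlgA.elim
      ((MulEquiv.prime_iff ψ).2 irr.prime) (mt (map_dvd_iff ψ).1 c)
    refine Or.inr ⟨ψ.symm a, ψ.symm b, r, hr, ψ.injective ?_⟩
    have q : (j.cycleRange : Fin (i + 1) → Fin (i + 1)) ∘ j.succAbove = Fin.succ :=
      funext fun l => by simp
    have t : ψ (rename j.succAbove r) = Polynomial.C r := by
      simp only [ψ, AlgEquiv.trans_apply, renameEquiv_apply, rename_rename, q, G39.G39AlgA.succ]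
    rw [t, map_add, map_mul, map_mul, ψ.apply_symm_apply, ψ.apply_symm_apply, e]

/-- If some rows of `A` are multiples of coordinate vectors and the inverse of `A` is bounded,
then the columns of these coordinates are bounded by the other columns. -/
theorem block {n k : ℕ} (A W : Matrix (Fin n) (Fin n) ℝ) (ι r : Fin k → Fin n) (γ B L : ℝ)
    (hW : W * A = 1) (hr : ∀ t j, A (r t) j = if j = ι t then γ else 0) (hB : 0 ≤ B)
    (hA : ∀ a b, (∀ t, b ≠ ι t) → |A a b| ≤ B) (hL : ∀ j c, |W j c| ≤ L) (a : Fin n) (t : Fin k) :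
    |A a (ι t)| ≤ |γ| * (1 + n * B * L) := by
  classical
  have hA' : A * W = 1 := mul_eq_one_comm.1 hW
  have L0 : 0 ≤ L := (abs_nonneg _).trans (hL a a)
  have e1 : ∀ s c, γ * W (ι s) c = if r s = c then 1 else 0 := fun s c => by
    have := congrFun (congrFun hA' (r s)) c
    simpa [Matrix.mul_apply, hr, Matrix.one_apply] using this
  have g0 : γ ≠ 0 := fun e => by simpa [e] using e1 t (r t)
  have e2 : ∀ j, j ≠ ι t → |A a j * W j (r t)| ≤ B * L := fun j hj => by
    by_cases c : ∀ s, j ≠ ι s
    · rw [abs_mul]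
      exact mul_le_mul (hA a j c) (hL _ _) (abs_nonneg _) hB
    · push Not at c
      obtain ⟨s, rfl⟩ := c
      have : r s ≠ r t := fun e => by
        have h := hr s (ι s)
        rw [e, hr, if_neg hj, if_pos rfl] at h
        exact g0 h.symm
      have h := e1 s (r t)
      rw [if_neg this] at h
      rw [(mul_eq_zero.1 h).resolve_left g0, mul_zero, abs_zero]
      positivity
  have e3 := congrFun (congrFun hA' a) (r t)
  rw [Matrix.mul_apply, ← Finset.add_sum_erase _ _ (Finset.mem_univ (ι t))] at e3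
  have e4 : |∑ j ∈ Finset.univ.erase (ι t), A a j * W j (r t)| ≤ n * B * L := by
    refine (Finset.abs_sum_le_sum_abs _ _).trans ((Finset.sum_le_card_nsmul _ _ (B * L)
      fun j hj => e2 j (Finset.ne_of_mem_erase hj)).trans ?_)
    have : ((Finset.univ.erase (ι t)).card : ℝ) ≤ n := by
      exact_mod_cast (Finset.card_erase_le).trans (by simp)
    rw [nsmul_eq_mul, mul_assoc]
    exact mul_le_mul_of_nonneg_right this (by positivity)
  have e5 : |(1 : Matrix (Fin n) (Fin n) ℝ) a (r t)| ≤ 1 := by
    rw [Matrix.one_apply]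
    split_ifs <;> simp
  have e6 : A a (ι t) = γ * (A a (ι t) * W (ι t) (r t)) := by
    have h := e1 t (r t)
    rw [if_pos rfl] at h
    linear_combination (-A a (ι t)) * h
  rw [e6, abs_mul]
  refine mul_le_mul_of_nonneg_left ?_ (abs_nonneg _)
  rw [eq_sub_of_add_eq e3]
  exact (abs_sub _ _).trans (add_le_add e5 e4)

/-- Where the derivative is large, a thin level set lies in few short intervals. -/
theorem root (q : Polynomial ℝ) (E : ℕ) (y ε a : ℝ) (hq : q.natDegree ≤ E) (ha : 0 < a) :
    ∃ T : Finset ℝ, T.card ≤ 2 * E + 1 ∧ ∀ s, |q.eval s - y| ≤ ε →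
      a ≤ |q.derivative.eval s| → ∃ c ∈ T, |s - c| ≤ 2 * ε / a := by
  classical
  let p : Polynomial ℝ := q.derivative ^ 2 - Polynomial.C (a ^ 2)
  let R := p.roots.toFinset
  have hR : R.card ≤ 2 * E := by
    refine (Multiset.toFinset_card_le _).trans ((Polynomial.card_roots' p).trans ?_)
    refine (Polynomial.natDegree_sub_le _ _).trans (max_le ?_ (by simp))
    refine Polynomial.natDegree_pow_le.trans ?_
    have := Polynomial.natDegree_derivative_le q
    omega
  let cl : ℝ → ℕ := fun s => (R.filter (· < s)).card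
  let S : ℝ → Prop := fun s => |q.eval s - y| ≤ ε ∧ a ≤ |q.derivative.eval s|
  have key : ∀ s s', S s → S s' → s < s' → cl s = cl s' → s' - s ≤ 2 * ε / a := by
    intro s s' h h' lt e
    have eq : R.filter (· < s) = R.filter (· < s') :=
      Finset.eq_of_subset_of_card_le (fun r hr => by
        simp only [Finset.mem_filter] at hr ⊢
        exact ⟨hr.1, hr.2.trans lt⟩) e.ge
    obtain ⟨ξ, hξ, e2⟩ := exists_hasDerivAt_eq_slope (fun s => q.eval s)
      (fun s => q.derivative.eval s) lt q.continuous.continuousOn fun s _ => q.hasDerivAt s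
    have big : a ≤ |q.derivative.eval ξ| := by
      by_contra c
      push Not at c
      obtain ⟨t, ht, e3⟩ := intermediate_value_Icc' hξ.1.le
        (q.derivative.continuous.abs.continuousOn (s := Set.Icc s ξ)) ⟨c.le, h.2⟩
      have p0 : p ≠ 0 := fun e0 => by
        have := congrArg (Polynomial.eval ξ) e0
        simp only [p, Polynomial.eval_sub, Polynomial.eval_pow, Polynomial.eval_C,
          Polynomial.eval_zero] at this
        have := sq_abs (q.derivative.eval ξ)
        have := abs_nonneg (q.derivative.eval ξ)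
        nlinarith
      have m : t ∈ R.filter (· < s') := by
        refine Finset.mem_filter.2 ⟨Multiset.mem_toFinset.2 ((Polynomial.mem_roots p0).2 ?_),
          ht.2.trans_lt hξ.2⟩
        simp only [p, Polynomial.IsRoot, Polynomial.eval_sub, Polynomial.eval_pow,
          Polynomial.eval_C]
        rw [← sq_abs, show |q.derivative.eval t| = a from e3, sub_self]
      rw [← eq] at m
      exact (Finset.mem_filter.1 m).2.not_ge ht.1
    have d : 0 < s' - s := sub_pos.2 lt
    rw [e2, abs_div, abs_of_pos d, le_div_iff₀ d] at big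
    rw [le_div_iff₀ ha]
    have := abs_sub_le (q.eval s') y (q.eval s)
    rw [abs_sub_comm y] at this
    nlinarith [h.1, h'.1]
  refine ⟨(Finset.range (2 * E + 1)).image fun i =>
    if h : ∃ s, S s ∧ cl s = i then h.choose else 0,
    Finset.card_image_le.trans (by simp), fun s h1 h2 => ?_⟩
  have ex : ∃ s', S s' ∧ cl s' = cl s := ⟨s, ⟨h1, h2⟩, rfl⟩
  refine ⟨_, Finset.mem_image_of_mem _ (Finset.mem_range.2 (show cl s < 2 * E + 1 from
    Nat.lt_succ_of_le ((Finset.card_filter_le _ _).trans hR))), ?_⟩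
  rw [dif_pos ex]
  obtain ⟨h3, h4⟩ := ex.choose_spec
  rcases lt_trichotomy s ex.choose with c | c | c
  · rw [abs_sub_comm, abs_of_pos (sub_pos.2 c)]
    exact key _ _ ⟨h1, h2⟩ h3 c h4.symm
  · rw [← c, sub_self, abs_zero]
    exact div_nonneg (by linarith [abs_nonneg (q.eval s - y)]) ha.le
  · rw [abs_of_pos (sub_pos.2 c)]
    exact key _ _ h3 ⟨h1, h2⟩ c h4

end Pool.Agent.MP_5168f5_an.AN.S20
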