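import Pool.Agent.MP_5168f5_an.AN.SpecS
import Pool.Agent.MP_5168f5_an.AN.S20Det
import Pool.Agent.MP_5168f5_an.AN.G39Val
import Pool.Agent.MP_5168f5_an.AN.PCn1

/-! Kakeya sets in all dimensions: two relations that are thin on a rich set are close. -/

namespace Pool.Agent.MP_5168f5_an.AN.St

open H19 H17S H17F Filter MvPolynomial
open G39 (nu RG dl REM Nm)
open Pk (cn mons)
open Nc (Pl ev jac NiceAt Bas)

namespace StCloA

open G39 (OO mm kk rd tm)

variable {M : ℕ → ℕ} {hM : Big M} {σ : Type} {Γ : ℕ → ℝ}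

theorem tm_eval (y : σ → OO hM) (Q : MvPolynomial σ (OO hM)) (n : ℕ) :
    (eval y Q).1 n = eval (fun a => (y a).1 n) (map (tm hM n) Q) := map_eval (tm hM n) y Q

theorem ev_ker (y : σ → OO hM) {Q : MvPolynomial σ (OO hM)} (h : map (rd hM) Q = 0) :
    eval y Q ∈ mm hM := by
  rw [← G39.rd_eq, map_eval, h, map_zero]

theorem ob (hΓ : Sub M Γ) : G39.OB M Γ :=
  G39.ob_of_le hΓ (Eventually.of_forall fun n => (abs_of_pos (hΓ.pos n)).le)

theorem cn_small {Q : MvPolynomial σ (OO hM)} (h : map (rd hM) Q = 0) (hΓ : Sub M Γ) :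
    ¬∀ᶠ n in UF, 1 ≤ Γ n * cn (map (tm hM n) Q) := fun k => by
  let a : (σ →₀ ℕ) → OO hM := fun m => ⟨fun n => |(coeff m Q).1 n|, fun c hc => by
    simpa only [abs_abs] using (coeff m Q).2 c hc⟩
  have : (⟨Γ, ob hΓ⟩ : OO hM) * ∑ m ∈ Q.support, a m ∈ mm hM :=
    Ideal.mul_mem_left _ _ (Ideal.sum_mem _ fun m _ => by
      obtain ⟨c, hc, e⟩ : coeff m Q ∈ mm hM := by
        by_contra k
        exact G39.rd_ne.2 ⟨m, k⟩ h
      exact ⟨c, hc, by simpa only [a, abs_abs] using e⟩)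
  refine G39.not_mem_mm one_pos (k.mono fun n u => (u.trans_eq ?_).trans (le_abs_self _)) this
  rw [← G39.tm_apply, map_mul, map_sum, Pk.PCn1A.sup _ _ (support_map_subset _ _)]
  simp only [coeff_map]
  rfl

theorem nm0 {m : σ →₀ ℕ} {H : MvPolynomial σ ℝ} (h : Nm 0 m H) : H = 1 := by
  classical
  obtain ⟨a, b, -⟩ := h
  rw [totalDegree_eq_zero_iff_eq_C.1 (Nat.le_zero.1 a)] at b ⊢
  rw [coeff_C] at b
  split_ifs at b
  · rw [b, map_one]
  · exact absurd b zero_ne_one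

theorem no_bez {i : ℕ} {k : ℕ → ℕ} (hk : Big k) (hΓ : Sub M Γ) {c₀ : ℝ} (hc : 0 < c₀)
    {Q Q' : MvPolynomial (Fin (i + 1)) (OO hM)} {S : ℕ → Set (V (i + 1))}
    (h1 : ∀ᶠ n in UF, ∀ y ∈ S n, ‖y‖ ≤ Γ n ∧ |eval y (map (tm hM n) Q)| ≤ dl M c₀ n ∧
      |eval y (map (tm hM n) Q')| ≤ dl M c₀ n)
    (h2 : ∀ᶠ n in UF, ∀ R : Pl i, R.totalDegree ≤ k n →
      ∃ y ∈ S n, cn R ≤ Γ n * |eval (fun a => y a.succ) R|)
    {A B : MvPolynomial (Fin (i + 1)) (kk hM)} {R : MvPolynomial (Fin i) (kk hM)}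
    (e : A * map (rd hM) Q + B * map (rd hM) Q' = rename Fin.succ R) : R = 0 := by
  by_contra h0
  obtain ⟨A', -, rfl⟩ := G39.lift_rd A
  obtain ⟨B', -, rfl⟩ := G39.lift_rd B
  obtain ⟨R', -, rfl⟩ := G39.lift_rd R
  obtain ⟨m, hm⟩ := G39.rd_ne.1 h0
  choose y hy using fun n => G39.exists_imp_of fun y : V (i + 1) => y ∈ S n ∧
    cn (map (tm hM n) R') ≤ Γ n * |eval (fun a => y a.succ) (map (tm hM n) R')|
  have h3 : ∀ᶠ n in UF, y n ∈ S n ∧
      cn (map (tm hM n) R') ≤ Γ n * |eval (fun a => y n a.succ) (map (tm hM n) R')| := by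
    filter_upwards [h2, hk.ev R'.totalDegree] with n u v
    exact hy n (u _ ((G39.deg_map _ _).trans (by exact_mod_cast v)))
  let Y : Fin (i + 1) → OO hM := fun a => ⟨fun n => y n a, G39.ob_of_le hΓ (by
    filter_upwards [h1, h3] with n u v using (norm_le_pi_norm (y n) a).trans (u _ v.1).1)⟩
  have a1 : eval Y Q ∈ mm hM := ⟨c₀, hc, by
    filter_upwards [h1, h3] with n u v
    rw [tm_eval]
    exact (u _ v.1).2.1⟩
  have a2 : eval Y Q' ∈ mm hM := ⟨c₀, hc, by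
    filter_upwards [h1, h3] with n u v
    rw [tm_eval]
    exact (u _ v.1).2.2⟩
  have a3 : eval Y (rename Fin.succ R' - (A' * Q + B' * Q')) ∈ mm hM :=
    ev_ker Y (by rw [map_sub, map_add, map_mul, map_mul, e, map_rename, sub_self])
  have a4 := Ideal.add_mem _ a3 (Ideal.add_mem _ (Ideal.mul_mem_left _ (eval Y A') a1)
    (Ideal.mul_mem_left _ (eval Y B') a2))
  rw [← map_mul, ← map_mul, ← map_add, ← map_add, sub_add_cancel, eval_rename] at a4
  obtain ⟨c, hc, u⟩ := Ideal.mul_mem_left _ (⟨Γ, ob hΓ⟩ : OO hM) a4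
  refine hm ⟨c, hc, ?_⟩
  filter_upwards [u, h3] with n u v
  have := (Pk.PCn1A.coe _ m).trans v.2
  rw [coeff_map, G39.tm_apply] at this
  refine this.trans (le_trans (le_of_eq ?_) u)
  rw [← G39.tm_apply, map_mul, abs_mul, G39.tm_apply, G39.tm_apply, tm_eval,
    abs_of_pos (hΓ.pos n)]
  rfl

end StCloA

open StCloA G39 in
theorem rClo : Clo := by
  intro i E m M k Γ c₀ hM hk hΓ hc
  obtain ⟨c, h0, e⟩ := unifC (A := fun _ => Nc.Pl (i + 1) × Nc.Pl (i + 1) × Set (V (i + 1)))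
      (h := fun n a => Nm E m a.1 ∧ Nm E m a.2.1 ∧ Irr E (Γ n) a.1 ∧
        (∀ y ∈ a.2.2, ‖y‖ ≤ Γ n ∧ |eval y a.1| ≤ dl M c₀ n ∧ |eval y a.2.1| ≤ dl M c₀ n) ∧
        ∀ R : Nc.Pl i, R.totalDegree ≤ k n → ∃ y ∈ a.2.2, cn R ≤ Γ n * |eval (fun a => y a.succ) R|)
      (p := fun c n a => ∀ m', |coeff m' a.1 - coeff m' a.2.1| ≤ dl M c n)
      (fun c c' n v e u m' => (u m').trans (dl_anti M e n)) fun v hv => by
    rcases E.eq_zero_or_pos with rfl | hE
    · refine ⟨1, one_pos, hv.mono fun n u m' => ?_⟩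
      rw [nm0 u.1, nm0 u.2.1, sub_self, abs_zero]
      exact (dl_pos M 1 n).le
    obtain ⟨Q, q1, q2, q3⟩ := lift_nm (hM := hM) (hv.mono fun n u => u.1)
    obtain ⟨Q', q1', q2', q3'⟩ := lift_nm (hM := hM) (hv.mono fun n u => u.2.1)
    have i1 : ∀ A B, map (rd hM) Q = A * B → E ≤ A.totalDegree ∨ E ≤ B.totalDegree := by
      intro A B e
      by_contra z
      push Not at z
      obtain ⟨A', a1, rfl⟩ := lift_rd A
      obtain ⟨B', b1, rfl⟩ := lift_rd B
      refine cn_small (Q := Q - A' * B') (by rw [map_sub, map_mul, e, sub_self]) hΓ ?_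
      filter_upwards [hv, q2] with n u w
      rw [map_sub, map_mul, w]
      exact u.2.2.1 _ _ (((deg_map _ _).trans a1).trans_lt z.1) (((deg_map _ _).trans b1).trans_lt z.2)
    have i2 : E ≤ (map (rd hM) Q).totalDegree := (i1 _ 1 (mul_one _).symm).resolve_right (by
      rw [totalDegree_one]; omega)
    have i3 := (deg_map (rd hM) Q).trans q1
    rcases S20.algC _ _ 0 _ _ m q3 q3' (hE.trans_le i2) (((deg_map _ _).trans q1').trans i2)
      (fun A B e => (i1 A B e).imp i3.trans i3.trans) with e | ⟨A, B, R, h0, e⟩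
    · obtain ⟨c, hc, u⟩ := os_fin (M := M) (Q - Q').support
        (a := fun m' => (coeff m' (Q - Q')).1) fun m' _ => (rd_eq (hM := hM)).1 (by
          rw [← coeff_map, map_sub, e, sub_self, coeff_zero])
      refine ⟨c, hc, ?_⟩
      filter_upwards [u, q2, q2'] with n u e e' m'
      rw [← e, ← e', ← coeff_sub, ← map_sub, coeff_map, tm_apply]
      by_cases z : m' ∈ (Q - Q').support
      · exact u m' z
      · rw [notMem_support_iff.1 z]
        exact (abs_zero.trans_le (dl_pos M c n).le :)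
    · rw [Fin.succAbove_zero] at e
      refine absurd (StCloA.no_bez hk hΓ hc (S := fun n => (v n).2.2) ?_
        (hv.mono fun n u => u.2.2.2.2) e) h0
      filter_upwards [hv, q2, q2'] with n u e e'
      rw [e, e']
      exact u.2.2.2.1
  exact ⟨c, h0, e.mono fun n u H H' S a b c d f => u (H, H', S) ⟨a, b, c, d, f⟩⟩

end Pool.Agent.MP_5168f5_an.AN.St
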