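import Pool.Agent.MP_5168f5_an.AN.SpecS2
import Pool.Agent.MP_5168f5_an.AN.G39Frm

/-! The Remez inequality for a minimal label; one more member of a frame. -/

namespace Pool.Agent.MP_5168f5_an.AN.St

open H19 H17S H17F Filter MvPolynomial
open Nc (Pl)

theorem rRemQ : RemQ := fun _ _ _ _ _ _ hM hR h => Gc.remC' hM hR h

theorem rExtC : ExtC := by
  intro N k i Ω Λ β P M x Z Q Θ C D e hM hR h hn f he hk
  obtain ⟨D0, h0⟩ := Gc.ext_ctx C 1 k
  have hi : Function.Injective fun j => e (Fin.castLE hk j) := he.comp (Fin.castLE_injective hk)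
  obtain ⟨G, -, -, b⟩ := h0 (y := fun _ _ j => X (e (Fin.castLE hk j))) hM
    (fun c => by simpa using hR c 1) h f (Eventually.of_forall fun _ _ _ _ _ _ => rfl)
    (fun _ _ _ => (totalDegree_X _).le) fun E => (hn E).mono
      (Eventually.of_forall fun n ω _ u F a c => (u _ ((totalDegree_rename_le _ _).trans a)
        fun z => c (rename_injective _ hi (z.trans (map_zero _).symm))).trans_eq (by
          unfold nc cht Nc.ev
          simp only [eval_rename, eval_X, Function.comp_def]))
  refine ⟨max D (D0 * 1), fun n ω => rename (Fin.castLE hk) (G n ω), ?_⟩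
  simp only [rename_rename]
  simp only [rename_eq_aeval]
  exact b

end Pool.Agent.MP_5168f5_an.AN.St
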