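import Pool.Agent.MP_5168f5_an.AN.RlSeq
import Pool.Agent.MP_5168f5_an.AN.NcJac

/-! A kind in a chart. -/

namespace Pool.Agent.MP_5168f5_an.AN

open H19 H17S H17F R4 Filter MvPolynomial
open Pk (cn kc)
open Nc (Pl ev jac NiceAt)
open G39 (RG REM dl dl_pos dl_add dl_anti dl_pow dl_inv dl_half sub_dl dl_lt)

namespace Rl

section One

variable {Ω : Type} {k N N' m : ℕ} {P : FP Ω} {κ : Kd k Ω} {y : Ω → V N} {G : Ω → Prop} {ω : Ω}
  {a E J j : ℕ} {Γ b : ℝ}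

theorem ts_ts {L L' : ℕ} (h : L ≤ L') (r : ℝ) (T : Pl k) : ts L 1 (ts L' r T) = ts L r T := by
  ext α
  simp only [ts, coeff_wt]
  split_ifs with e e'
  · rw [one_pow, one_mul]
  · omega
  · rw [zero_mul, zero_mul]
  · rw [zero_mul, zero_mul]

/-- Jets of a polynomial in the point. -/
theorem jet {τ : Fin N → Pl k} {F : Pl N} (hΓ : 1 ≤ Γ) (hE : 1 ≤ E) (hj : j ≤ J)
    (hτ : ∀ i, (τ i).totalDegree ≤ J + 1 ∧ cn (τ i) ≤ Γ) (hF : F.totalDegree ≤ E) (cF : cn F ≤ b)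
    (bd : ∀ v ∈ P.S, G v → κ.Z v = κ.Z ω → ‖y v‖ ≤ Γ ∧ |eval (y v) F| ≤ Γ)
    (wh : ∀ v ∈ P.S, G v → κ.Z v = κ.Z ω → κ.W v = κ.W ω →
      ‖y v - ev τ (κ.p v - κ.p ω)‖ ≤ Γ * ‖κ.p v - κ.p ω‖ ^ (J + 2))
    (r1 : ∀ H : Pl k, H.totalDegree ≤ E * (J + 1) → ∀ θ, (∀ v ∈ P.S, G v → κ.pc a v = κ.pc a ω →
      |eval (ds κ a ω v) H| ≤ θ) → cn H ≤ Γ * θ) (c1 : E * b * Γ ^ (E + 1) ≤ (2 ^ a) ^ (J + 2)) :
    cn (ts (j + 1) 1 (aeval τ F)) ≤ 3 * Γ ^ 2 * (2 ^ a) ^ (j + 2) ∧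
      ∀ v ∈ P.S, G v → κ.Z v = κ.Z ω → κ.W v = κ.W ω →
        |eval (y v) F - eval (κ.p v - κ.p ω) (ts (j + 1) 1 (aeval τ F))| ≤
          3 * Γ ^ 2 * (2 ^ a) ^ (j + 2) * ‖κ.p v - κ.p ω‖ ^ (j + 2) := by
  have s1 : (1 : ℝ) ≤ 2 ^ a := one_le_pow₀ one_le_two
  have jE : j + 1 ≤ E * (J + 1) := (Nat.succ_le_succ hj).trans (Nat.le_mul_of_pos_left _ hE)
  have inv : ∀ u : V k, ((2 : ℝ) ^ a)⁻¹ • (2 : ℝ) ^ a • u = u := fun u => by
    rw [smul_smul, inv_mul_cancel₀ (by positivity), one_smul]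
  have nr : ∀ u : V k, ‖(2 : ℝ) ^ a • u‖ = 2 ^ a * ‖u‖ := fun u => by
    rw [norm_smul, Real.norm_of_nonneg (by positivity)]
  have a0 : ∀ v ∈ P.S, G v → κ.Z v = κ.Z ω → κ.W v = κ.W ω → 2 ^ a * ‖κ.p v - κ.p ω‖ ≤ 1 →
      |eval (y v) F - eval ((2 : ℝ) ^ a • (κ.p v - κ.p ω))
        (ts (E * (J + 1)) (2 ^ a)⁻¹ (aeval τ F))| ≤ (2 ^ a * ‖κ.p v - κ.p ω‖) ^ (J + 2) := by
    intro v hv g z w u
    have n2 : ‖κ.p v - κ.p ω‖ ≤ 1 := (le_mul_of_one_le_left (norm_nonneg _) s1).trans u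
    rw [eval_ts, inv, ts_one (kc.deg τ F E _ hF fun i => (hτ i).1), Nc.eval_aeval, mul_pow]
    refine (kc.lip F E Γ _ _ _ hF hΓ ((norm_nonneg _).trans (wh v hv g z w)) fun i =>
      ⟨(norm_le_pi_norm (y v) i).trans (bd v hv g z).1, (val_le n2).trans (hτ i).2,
        (norm_le_pi_norm (y v - ev τ (κ.p v - κ.p ω)) i).trans (wh v hv g z w)⟩).trans ?_
    calc _ = E * cn F * Γ ^ (E + 1) * ‖κ.p v - κ.p ω‖ ^ (J + 2) := by ring
      _ ≤ E * b * Γ ^ (E + 1) * ‖κ.p v - κ.p ω‖ ^ (J + 2) := by gcongr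
      _ ≤ _ := mul_le_mul_of_nonneg_right c1 (by positivity)
  have cT := r1 _ (deg_ts _ (2 ^ a)⁻¹ (aeval τ F)) (Γ + 1) fun v hv g e => by
    have u : 2 ^ a * ‖κ.p v - κ.p ω‖ ≤ 1 := by rw [← nr, ← ds_eq e]; exact ds_le _ _ _ _
    have := (a0 v hv g (pc_Z e) (pc_W e) u).trans (pow_le_one₀ (by positivity) u)
    rw [ds_eq e]
    rw [abs_sub_comm] at this
    linarith [(bd v hv g (pc_Z e)).2, abs_sub_abs_le_abs_sub (eval ((2 : ℝ) ^ a • (κ.p v - κ.p ω))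
      (ts (E * (J + 1)) (2 ^ a)⁻¹ (aeval τ F))) (eval (y v) F)]
  have c2 := cn_ts jE s1 (aeval τ F)
  have e1 : ∀ u : V k, eval u (ts (j + 1) 1 (aeval τ F)) = eval ((2 : ℝ) ^ a • u)
      (ts (j + 1) 1 (ts (E * (J + 1)) (2 ^ a)⁻¹ (aeval τ F))) := fun u => by
    rw [ts_ts jE, eval_ts _ (2 ^ a)⁻¹, inv]
  simp only [e1]
  generalize ts (E * (J + 1)) (2 ^ a)⁻¹ (aeval τ F) = T at *
  have g2 : Γ * (Γ + 1) + Γ ≤ 3 * Γ ^ 2 := by nlinarith
  have c0 := kc.nonneg T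
  refine ⟨c2.trans ((mul_comm _ _).trans_le (mul_le_mul (by linarith)
    (pow_le_pow_right₀ s1 (by omega)) (by positivity) (by positivity))), fun v hv g z w => ?_⟩
  rw [mul_assoc, ← mul_pow]
  have u0 : 0 ≤ (2 ^ a * ‖κ.p v - κ.p ω‖) ^ (j + 2) := by positivity
  rcases le_total (2 ^ a * ‖κ.p v - κ.p ω‖) 1 with u | u
  · have u1 := (a0 v hv g z w u).trans (pow_le_pow_of_le_one (by positivity) u
      (show j + 2 ≤ J + 2 by omega))
    have u2 := err_ts (j + 1) T (nr (κ.p v - κ.p ω)).le u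
    nlinarith [abs_sub_le (eval (y v) F) (eval ((2 : ℝ) ^ a • (κ.p v - κ.p ω)) T)
      (eval ((2 : ℝ) ^ a • (κ.p v - κ.p ω)) (ts (j + 1) 1 T))]
  · have u1 := (kc.val _ _ _ ((2 : ℝ) ^ a • (κ.p v - κ.p ω)) (deg_ts (j + 1) 1 T) u fun i =>
      (norm_le_pi_norm ((2 : ℝ) ^ a • (κ.p v - κ.p ω)) i).trans (nr _).le).trans (mul_le_mul
        ((cn_ts_le _ zero_le_one le_rfl T).trans cT)
        (pow_le_pow_right₀ u (show j + 1 ≤ j + 2 by omega))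
        (by positivity) (by positivity))
    have u2 := one_le_pow₀ u (n := j + 2)
    nlinarith [(bd v hv g z).2, abs_sub (eval (y v) F)
      (eval ((2 : ℝ) ^ a • (κ.p v - κ.p ω)) (ts (j + 1) 1 T))]

theorem rg_chart {β : Type} {Z : Ω → β} {Θ : Ω → Fin N' → Pl N} {C D : ℕ} {k0 : ℝ}
    (h : RG P y Z G (E * D) C Γ k0) (fn : Fn P Θ Z) (hd : ∀ ω i, (Θ ω i).totalDegree ≤ D) :
    RG P (cht Θ y) Z G E (C * D) Γ k0 := by
  rintro ω hω g f ⟨F, hF, hf⟩ θ q a b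
  have := h ω hω g _ ⟨aeval (Θ ω) F, kc.deg _ F E D hF (hd ω), fun _ => rfl⟩ θ q a
    (b.trans (pb_mono fun v hv z => ⟨z.1, by
      have hv' := (S20.mem_cv hω v).1 hv
      rw [Nc.eval_aeval, ← fn v hv'.1 ω hω hv'.2]
      exact hf v ▸ z.2⟩))
  rw [Nc.eval_aeval, mul_comm E, ← mul_assoc] at this
  exact hf ω ▸ this

/-- One term in the expansion of the determinant of a product is large. -/
theorem minor {n : ℕ} (r : Fin m → Fin n) (A : Fin m → Fin n → ℝ) (B : Fin n → Fin m → ℝ) {w : ℝ}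
    (h : ∀ a l, |A a l| ≤ w) : ∃ f : Fin m → Fin n, |(Matrix.of fun a b => ∑ l, A a l * B l b).det| ≤
      (n * w) ^ m * |(Matrix.of fun a b => B (f a) b).det| := by
  obtain ⟨f, -, hf⟩ := Finset.exists_max_image Finset.univ
    (fun f : Fin m → Fin n => |(Matrix.of fun a b => B (f a) b).det|) ⟨r, Finset.mem_univ _⟩
  have e : (Matrix.of fun a b => ∑ l, A a l * B l b).det =
      ∑ g : Fin m → Fin n, (∏ a, A a (g a)) * (Matrix.of fun a b => B (g a) b).det := by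
    have := (Matrix.detRowAlternating (R := ℝ) (n := Fin m)).toMultilinearMap.map_sum
      fun a l => A a l • B l
    simp only [MultilinearMap.map_smul_univ, smul_eq_mul] at this
    refine Eq.trans (congrArg Matrix.det ?_) this
    ext a b
    simp
  refine ⟨f, e ▸ (Finset.abs_sum_le_sum_abs _ _).trans ((Finset.sum_le_card_nsmul _ _
    (w ^ m * |(Matrix.of fun a b => B (f a) b).det|) fun g _ => ?_).trans_eq (by simp [mul_pow, mul_assoc]))⟩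
  have := Finset.prod_le_prod (s := Finset.univ) (fun a _ => abs_nonneg (A a (g a))) fun a _ => h a (g a)
  rw [Finset.prod_const, Finset.card_univ, Fintype.card_fin] at this
  rw [abs_mul, Finset.abs_prod]
  exact mul_le_mul this (hf g (Finset.mem_univ _)) (abs_nonneg _)
    ((Finset.prod_nonneg fun _ _ => abs_nonneg _).trans this)

theorem coeff_one (T : Pl k) (c : Fin k) : coeff (Finsupp.single c 1) T = eval 0 (pderiv c T) := by
  rw [eval_zero, constantCoeff_eq, coeff_pderiv]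
  simp

/-- The linear part in the chart determines the linear part. -/
theorem lin_eq {Θ : Fin N → Pl N} {τ : Fin N → Pl k} (h : eval (ev τ 0) (jac Θ) ≠ 0) (i : Fin N)
    (s : ℝ) (c : Fin k) : coeff (Finsupp.single c 1) (τ i) =
      ∑ l, Nc.dW Θ (X i - C s) 1 (fun _ => l) (ev τ 0) *
        coeff (Finsupp.single c 1) (aeval τ (Θ l)) := by
  simp only [coeff_one, Nc.pderiv_aeval, map_sum, map_mul, Nc.eval_aeval, Finset.mul_sum,
    ← mul_assoc]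
  rw [Finset.sum_comm]
  simp only [← Finset.sum_mul, ← Nc.pderiv_eq _ _ h]
  simp [Pi.single_apply, apply_ite (eval (ev τ 0))]

end One

variable {Ω : ℕ → Type} {N N' k C D m : ℕ} {P : ∀ n, FP (Ω n)} {M t : ℕ → ℕ} {y : ∀ n, Ω n → V N}
  {κ : ∀ n, Kd k (Ω n)} {Θ : ∀ n, Ω n → Fin N' → Pl N}

theorem chart (hM : Big M) (h : KindS P M y κ C m t) (fn : FnE P Θ fun n => (κ n).Z)
    (hd : ∀ n ω i, (Θ n ω i).totalDegree ≤ D) (pw : Pw P M Θ) (bd : Bdd P M (chs Θ y))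
    (lg : Gp P M fun n ω Γ => ∀ τ : Fin N → Pl k, ev τ 0 = y n ω → ∀ (r : Fin m → Fin N)
      (c : Fin m → Fin k), ∃ r' : Fin m → Fin N', (2 ^ t n) ^ m *
        |(Matrix.of fun a b => coeff (Finsupp.single (c b) 1) (τ (r a))).det| ≤ Γ *
        |(Matrix.of fun a b => coeff (Finsupp.single (c b) 1) (aeval τ (Θ n ω (r' a)))).det|) :
    Kind P M (chs Θ y) κ (C * D) m := by
  refine ⟨h.kd.bd, h.kd.few, fun K E => ?_, h.kd.den, fun j => gd_of fun c hc => ?_⟩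
  · obtain ⟨G, Γ, g, s, e⟩ := h.kd.rem K (E * D)
    exact ⟨G, Γ, g, s, (e.and fn).mono fun n a => rg_chart a.1 a.2 (hd n)⟩
  have s0 : 0 < c / 2 / (j + 2 : ℕ) := by positivity
  have s1 : ((j + 2 : ℕ) : ℝ) * (c / 2 / (j + 2 : ℕ)) = c / 2 := by field_simp
  generalize c / 2 / (j + 2 : ℕ) = σ at s0 s1
  obtain ⟨a, la, ha⟩ := ex_lev hM s0
  obtain ⟨B, g1⟩ := pw
  obtain ⟨J, hJ, hJ'⟩ : ∃ J : ℕ, j ≤ J ∧ B + 1 ≤ (J + 2 : ℕ) * (σ / 2) := by
    refine ⟨j + ⌈(B + 1) / (σ / 2)⌉₊, by omega, ?_⟩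
    rw [← div_le_iff₀ (half_pos s0)]
    exact (Nat.le_ceil _).trans (by exact_mod_cast (by omega))
  obtain ⟨G2, Γ2, g2, s2, e2⟩ := bd
  obtain ⟨G3, Γ3, g3, s3, e3⟩ := h.wh J
  obtain ⟨G4, Γ4, g4, s4, e4⟩ := lr_sup hM h.kd.bd h.kd.few h.kd.den la ((D + 1) * (J + 1))
  obtain ⟨G5, Γ5, g5, s5, e5⟩ := lg
  obtain ⟨Γ, s, m⟩ := sub_fin hM ![Γ2, Γ3, Γ4, Γ5] fun i => by
    fin_cases i; exacts [s2, s3, s4, s5]
  have g0 := g1.and (g2.and (g3.and (g4.and g5)))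
  refine ⟨_, g0.and (S20.whp_half g0 fun n => (κ n).pc (a n)), ?_⟩
  filter_upwards [e2, e3, e4, e5, fn,
    sub_dl ((s.pow (D + 1 + 1)).const_mul hM (show (1 : ℝ) ≤ (D + 1 : ℕ) by simp)) one_pos,
    sub_dl (((s.pow 2).const_mul hM (show (1 : ℝ) ≤ 3 by norm_num)).const_mul hM
      (one_le_pow₀ (show (1 : ℝ) ≤ 3 by norm_num) (n := j + 2))) (half_pos hc)]
    with n e2 ⟨τ, e3⟩ e4 e5 fn d1 d4
  have p := dl_pos M
  have Γ1 := s.1 n
  have s2 : (1 : ℝ) ≤ (2 ^ a n) ^ (j + 2) := one_le_pow₀ (one_le_pow₀ one_le_two)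
  have fin : 3 * Γ n ^ 2 * (2 ^ a n) ^ (j + 2) ≤ Real.exp (c * M n) := by
    have b1 := pow_le_pow_left₀ (by positivity) (ha n).2 (j + 2)
    rw [mul_pow, inv_pow, dl_pow, s1] at b1
    rw [← dl_inv, dl_half, mul_inv]
    refine (mul_le_mul_of_nonneg_left b1 (by positivity)).trans ?_
    rw [← mul_assoc, mul_comm _ (3 ^ _)]
    exact mul_le_mul_of_nonneg_right d4 (inv_pos.2 (p _ _)).le
  refine ⟨fun ω i => ts (j + 1) 1 (aeval (τ ω) (Θ n ω i)), fun ω hω ⟨g, u⟩ => ?_⟩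
  obtain ⟨t1, ⟨r, c, t2⟩, t3⟩ := e3 ω hω g.2.2.1
  have key := fun i => jet (κ := κ n) (F := Θ n ω i) (b := (dl M B n)⁻¹) (a := a n) Γ1
    (Nat.le_add_left 1 D) hJ (fun i => (t1 i).imp_right fun z => z.trans (m n 1))
    ((hd n ω i).trans (Nat.le_succ D))
    (by simpa only [mul_one] using (le_inv_mul_iff₀ (p B n)).2 (g.1 i))
    (fun v hv z z1 => ⟨(wh_bd (s3.pos n).le (fun i => ((e3 v hv z.2.2.1).1 i).2)
      ((e3 v hv z.2.2.1).2.2 v hv z.2.2.1 rfl rfl)).trans (m n 1), by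
        rw [← fn v hv ω hω z1]
        exact ((norm_le_pi_norm (chs Θ y n v) i).trans (e2 v hv z.2.1)).trans (m n 0)⟩)
    (fun v hv z z1 z2 => (t3 v hv z.2.2.1 z1 z2).trans
      (mul_le_mul_of_nonneg_right (m n 1) (by positivity)))
    (fun H d θ z => (e4 ω hω _ (fun _ z => z.2.2.2.1) u H d θ z).trans
      (mul_le_mul_of_nonneg_right (m n 2) ((abs_nonneg _).trans (z ω hω g rfl))))
    (by
      have b1 := pow_le_pow_left₀ (inv_pos.2 (p _ _)).le (ha n).1 (J + 2)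
      rw [inv_pow, dl_pow] at b1
      refine le_trans ?_ ((inv_anti₀ (p _ _) (dl_anti M hJ' n)).trans b1)
      rw [dl_add, mul_inv, mul_right_comm, mul_comm]
      exact mul_le_mul_of_nonneg_left d1 (inv_pos.2 (p B n)).le)
  refine ⟨fun i => ⟨deg_ts _ _ _, (key i).1.trans fin⟩, ?_, fun v hv z z1 z2 =>
    (pi_norm_le_iff_of_nonneg (by positivity)).2 fun i => ?_⟩
  · obtain ⟨r', t4⟩ := e5 ω hω g.2.2.2.2 (τ ω) (by
      have := t3 ω hω g.2.2.1 rfl rfl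
      rw [sub_self, norm_zero, zero_pow (by omega), mul_zero, norm_le_zero_iff, sub_eq_zero] at this
      exact this.symm) r c
    refine ⟨r', c, ?_⟩
    simp only [coeff_ts_one (Nat.le_add_left 1 j), one_mul]
    have t5 := (inv_anti₀ (s3.pos n) (m n 1)).trans (t2.trans (t4.trans
      (mul_le_mul_of_nonneg_right (m n 3) (abs_nonneg _))))
    rw [← inv_mul_le_iff₀ (s.pos n), ← mul_inv] at t5
    exact (inv_anti₀ (by positivity) (le_trans (by nlinarith) fin)).trans t5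
  · have := ((key i).2 v hv z.1 z1 z2).trans (mul_le_mul_of_nonneg_right fin (by positivity))
    have e : chs Θ y n v = ev (Θ n ω) (y n v) := by rw [← fn v hv ω hω z1]; rfl
    rw [e]
    exact this

end Rl

open Rl

/-- The first part needs no cell. -/
theorem rc_zero {Ω : ℕ → Type} {N N' k C D : ℕ} {P : ∀ n, FP (Ω n)} {M : ℕ → ℕ}
    {y : ∀ n, Ω n → V N} {κ : ∀ n, Kd k (Ω n)} {Θ : ∀ n, Ω n → Fin N' → Pl N} (hM : Big M)
    (h : Kind P M y κ C 0) (fn : FnE P Θ fun n => (κ n).Z)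
    (hd : ∀ n ω i, (Θ n ω i).totalDegree ≤ D) (pw : Pw P M Θ) (bd : Bdd P M (chs Θ y)) :
    Kind P M (chs Θ y) κ (C * D) 0 :=
  chart (t := fun _ => 0) hM ⟨h, fun j => let ⟨G, Γ, a, b, c⟩ := h.wh j
    ⟨G, Γ, a, b, c.mono fun _ ⟨τ, e⟩ => ⟨τ, by simpa only [pow_zero, one_mul] using e⟩⟩⟩ fn hd pw bd
    ⟨fun _ _ => True, _, Whp.of_ev (Eventually.of_forall fun _ _ _ => trivial), hM.sub le_rfl,
      Eventually.of_forall fun _ _ _ _ _ _ _ _ => ⟨Fin.elim0, by simp⟩⟩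

theorem rc (c1 : Cel1) : RC := by
  refine ⟨fun hM h fn hd pw bd => ⟨_, rc_zero hM h fn hd pw bd⟩, ?_⟩
  intro Ω Λ β N k C D m P M t y κ Z A Θ hM h _ cel fn pw bl
  obtain ⟨G1, Γ1, g1, s1, e1⟩ := c1.nic hM cel 1 1
  obtain ⟨G2, Γ2, g2, s2, e2⟩ := bl
  refine ⟨_, chart hM h ((cel.frm.fn.and fn).mono fun n a => a.1.trans a.2) cel.frm.deg pw cel.frm.bd
    ⟨_, _, g1.and g2, (((s1.mul s2).const_mul hM (show (1 : ℝ) ≤ N + 1 by simp)).pow m), ?_⟩⟩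
  filter_upwards [e1, e2] with n e1 e2 ω hω g τ e r c
  obtain ⟨σ, nc⟩ := e1 ω hω g.1
  choose s hs using e2 ω hω g.2
  have l1 := s1.pos n
  have l2 := s2.pos n
  obtain ⟨f, hf⟩ := minor r (fun a l => Nc.dW (Θ n ω) (X (r a) - MvPolynomial.C (s (r a))) 1 (fun _ => l) (y n ω))
    (fun l b => coeff (Finsupp.single (c b) 1) (aeval τ (Θ n ω l))) fun a l =>
      (nc.der₀ l1 ((totalDegree_sub _ _).trans (by simp)) le_rfl _).trans
        (mul_le_mul_of_nonneg_left (hs (r a)) l1.le)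
  refine ⟨f, ?_⟩
  rw [← e] at hf
  simp only [← lin_eq (e ▸ nc.jac l1)] at hf
  refine (mul_le_mul_of_nonneg_left hf (by positivity)).trans ?_
  rw [← mul_assoc, ← mul_pow]
  refine mul_le_mul_of_nonneg_right (pow_le_pow_left₀ (by positivity) ?_ _) (abs_nonneg _)
  rw [show (2 : ℝ) ^ t n * (N * (Γ1 n * (Γ2 n / 2 ^ t n))) = N * (Γ1 n * Γ2 n) by field_simp]
  exact mul_le_mul_of_nonneg_right (by simp) (by positivity)

end Pool.Agent.MP_5168f5_an.AN
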