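import Pool.Agent.MP_5168f5_an.AN.StS3

/-! Kakeya sets in all dimensions: steep windows, the new system. -/

namespace Pool.Agent.MP_5168f5_an.AN.St

open H19 H17S H17F Filter MvPolynomial
open G39 (nu RG dl REM Nm)
open Pk (cn mons)
open Nc (Pl ev jac NiceAt Bas)

variable {N d i j : ℕ} {Ω Λ Λ' : ℕ → Type} {k : Bool → ℕ} {β : Bool → ℕ → Type}
  {P : ∀ n, FP (Ω n)} {M : ℕ → ℕ} {x : ∀ n, Ω n → V N} {s : ∀ n, Sy k (Ω n)}
  {ι : Bool → ∀ n, Ω n → ℕ} {T : ∀ n, Ω n → Λ' n} {Q : ∀ n, Ω n → Λ n} {C : ℕ} {m : Bool → ℕ}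
  {c η : ℝ} {E : ℕ} {G : ∀ n, Ω n → Prop} {Z : ∀ b n, Ω n → β b n}

theorem frm0 {e : Fin j → Fin N} (hb : Bdd P M x) (h : MIN P M (sel x e) Z) :
    Frm P M x Z Q (fun _ _ a => X (e a)) 1 := by
  have e1 : (fun n => cht (fun (_ : Ω n) a => (X (e a) : Pl N)) (x n)) = sel x e := by
    funext n ω a
    exact eval_X _
  exact ⟨S20.fnE_const _, fun _ _ _ => (totalDegree_X _).le, e1 ▸ bdd_sel hb e, e1 ▸ h⟩

/-- Frames in the coordinates `e` that contain the coordinates `e ∘ e'`. -/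
theorem tow (hE : ExtC) (hM : Big M) (hr : ∀ b (K : ℕ), REM P x M (Z b) C K) (hc : CM P M x Z Q)
    (hz : NZ P x Q) {e : Fin i → Fin N} (he : Function.Injective e) {e' : Fin j → Fin i}
    (h0 : Frm P M x Z Q (fun _ _ a => X (e (e' a))) 1) (l : ℕ) (h1 : j ≤ l) : l ≤ i →
    ∃ (D : ℕ) (B : ∀ n, Ω n → Fin l → Pl i) (f : Fin j → Fin l),
      Frm P M x Z Q (fun n ω a => rename e (B n ω a)) D ∧ ∀ n ω a, B n ω (f a) = X (e' a) := by
  induction l, h1 using Nat.le_induction with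
  | base => exact fun _ => ⟨1, fun _ _ a => X (e' a), id, by simpa only [rename_X] using h0,
      fun _ _ _ => rfl⟩
  | succ l _ ih =>
    intro h
    obtain ⟨D, B, f, a, b⟩ := ih (by omega)
    obtain ⟨D', G, g⟩ := hE P M x Z Q _ C D e hM hr hc hz a he h
    refine ⟨D', fun n ω => Fin.cons (G n ω) (B n ω), fun a => (f a).succ, ?_, b⟩
    convert g using 3 with n ω
    funext a
    exact Fin.cases rfl (fun _ => rfl) a

theorem law_fst (P : ∀ n, FP (Ω n)) (Z : ∀ n, Ω n → Λ n) :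
    ∀ᶠ n in UF, Law (pr P Z n) Prod.fst (P n) id :=
  Eventually.of_forall fun _ => KGA.fst _ _ _ _

theorem law_snd (P : ∀ n, FP (Ω n)) (Z : ∀ n, Ω n → Λ n) :
    ∀ᶠ n in UF, Law (pr P Z n) Prod.snd (P n) id :=
  Eventually.of_forall fun _ => R4.kg.snd _ _ _ _ (Law.rfl _)

theorem law_cp (P : ∀ n, FP (Ω n)) (Z : ∀ b n, Ω n → β b n) (b : Bool) (n : ℕ) :
    Law (tri P Z n) (cp b) (pr P (Z b) n) id := fun F => by
  rw [E_bind, KGA.E_glue]
  refine (P n).E_congr fun ω _ => (E_bind _ _ _).trans ?_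
  cases b
  · exact FP.E_const _ ((cv (P n) (Z false n) (Z false n ω)).E fun y => F (ω, y))
  · exact FP.E_congr _ fun y _ => FP.E_const _ (F (ω, y))

theorem law_tri (P : ∀ n, FP (Ω n)) (Z : ∀ b n, Ω n → β b n) :
    ∀ᶠ n in UF, Law (tri P Z n) Prod.fst (P n) id :=
  Eventually.of_forall fun _ F => KGA.E_bind_fst _ _ F

theorem gp_pull {W : ℕ → Type} {R : ∀ n, FP (W n)} {ρ : ∀ n, W n → Ω n} {q : ∀ n, Ω n → ℝ → Prop}
    (h : Gp P M q) (e : ∀ᶠ n in UF, Law (R n) (ρ n) (P n) id) :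
    Gp R M fun n v => q n (ρ n v) :=
  let ⟨Γ, a, b⟩ := S20.gp_iff.1 h
  S20.gp_iff.2 ⟨Γ, a, S20.whp_pull b e⟩

theorem bdd_pull {W : ℕ → Type} {R : ∀ n, FP (W n)} {ρ : ∀ n, W n → Ω n} (h : Bdd P M x)
    (e : ∀ᶠ n in UF, Law (R n) (ρ n) (P n) id) : Bdd R M fun n v => x n (ρ n v) :=
  gp_pull (q := fun n ω Γ => ‖x n ω‖ ≤ Γ) h e

theorem fn_pull {W α γ : ℕ → Type} {R : ∀ n, FP (W n)} {ρ : ∀ n, W n → Ω n} {F : ∀ n, Ω n → α n}
    {A : ∀ n, Ω n → γ n} (h : FnE P F A) (e : ∀ᶠ n in UF, Law (R n) (ρ n) (P n) id) :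
    FnE R (fun n v => F n (ρ n v)) fun n v => A n (ρ n v) :=
  (h.and e).mono fun _ a => a.2.fn a.1

/-- All inputs. -/
structure In : Prop where
  her : HerQ
  remI : RemI
  remQ : RemQ
  ext : ExtC
  fat : FatD
  pull : PullK
  k2 : K2T
  s0 : S0
  lat : LAT
  blk : Blk
  last : Last
  den : Den
  fr : FR
  minP : MinP
  cl : CL
  fin3 : Fin3
  nig : NiG
  own : Own
  cop : Cop
  remP : RemP
  whG : WhG

theorem Hyp.rem (I : In) (h : Hyp P M x s ι T Q C m 0 E η) (b : Bool) (K : ℕ) :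
    REM P x M (hat (lab s) ι b) C K :=
  I.remI P M x _ _ C h.sys.big (h.sys.kd b).rem (h.few b) K

theorem Hyp.nz (I : In) (h : Hyp P M x s ι T Q C m 0 E η) : NZ P x Q :=
  (I.fat P M x _ Q h.sys.big h.sys.bd h.cm h.dle).2

/-- The new kind. -/
theorem newK (I : In) {x : ∀ n, Ω n → V (d + 1)} (hl : Low (d + 1))
    (h : Hyp P M x s ι T Q C m 0 E η) {b : Fin (d + 1)} (hs : ∀ a, Spr P M x (lab s a) b)
    {B : ∀ n, Ω n → Fin d → Pl d} {G : ∀ n, Ω n → Pl (d + 1)} {D D' E' : ℕ}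
    (f0 : Frm P M x (hat (lab s) ι) Q (bs b B) D') (f1 : Frm P M x (hat (lab s) ι) Q (fb b B G) D)
    (hn : DNu P M Q (fun n => nc (P n) (x n) (Q n)) b E') {e f : Fin j → Fin (d + 1)}
    (he : Function.Injective e) (hf : ∀ n ω a, fb b B G n ω (f a) = X (e a)) (a : Bool) :
    ∃ W : ∀ n, Ω n × Ω n → ℕ, Kind (pr P (lab s a)) M (fun n v => x n v.1)
      (fun n => ⟨Λ n, fun v => Q n v.2, W n, fun v => ev (fb b B G n v.2) (x n v.1)⟩)
      (C + (d + 1 + 1) * C) j := by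
  have hM := h.sys.big
  have g := I.cop.gp P M x (lab s a) (ι a) Q C (by simpa using (h.sys.kd a).rem 1) (h.few a)
    (h.cm.com a) (I.own.gp P M x _ Q hM h.cm)
  have fn := I.cop.fn P M (lab s a) Q _ _ D (I.own.fn P M x _ Q _ D hM ⟨h.cm, f1⟩ (h.nz I))
  obtain ⟨W, w1, w2⟩ := I.whG _ M _ _ _ _ D e f g fn (bdd_pull h.sys.bd (law_fst P _)) he
    fun n v a => hf n v.2 a
  have k1 : Bdd (pr P (lab s a)) M fun n v => ev (fb b B G n v.2) (x n v.1) :=
    Gp.mono (I.nig _ M _ _ _ _ D g fn 0 0) (Eventually.of_forall fun _ _ _ _ _ u => u.1)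
  have k2 := I.remP P M x _ (ι a) Q C _ hM (h.sys.kd a).rem
    (I.remQ P M x _ Q C hM (h.rem I) h.cm) (h.few a) (h.cm.com a)
  have k3 := I.last.der _ M _ _ _ b (fun n v => B n v.2) (fun n v => G n v.2) D E' g fn
    (I.last.pull P M (lab s a) Q _ b E' hn)
  have k4 := I.lat P M x s ι T Q C m E η _ D' hl d.lt_succ_self h f0 a
  have k5 := I.den.den (pr P (lab s a)) M (fun n v => x n v.1) (fun n v => Q n v.2)
    (fun n v => (ι a n v.2, lab s a n v.2)) b (fun n v => B n v.2) (fun n v => G n v.2) D hM fn.fn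
    (fun n v => f1.deg n v.2 0) (fn_pull (h.cm.com a) (law_snd P _))
    (I.den.spr P M x _ (ι a) b hM (h.few a) (hs a)) k3 k4
  exact ⟨W, k1, w1, k2, k5, w2⟩

/-- The new system. -/
theorem newS (I : In) {mm C' l : ℕ} (ht : THM N mm) (hj : mm ≤ j + j) (hη : 0 < η)
    (h : Hyp P M x s ι T Q C m 0 E η) {p : ∀ n, Ω n × Ω n → V l}
    (hk : ∀ a, ∃ W : ∀ n, Ω n × Ω n → ℕ, Kind (pr P (lab s a)) M (fun n v => x n v.1)
      (fun n => ⟨Λ n, fun v => Q n v.2, W n, p n⟩) C' j) : False := by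
  have hM := h.sys.big
  choose W hW using hk
  have f := ht (fun n => Ω n × Ω n × Ω n) Λ' (fun _ => l) (fun _ => j) C' (tri P (lab s)) M
    (fun n v => x n v.1)
    (fun n a => (⟨Λ n, fun v => Q n v.2, W a n, p n⟩ : Kd l (Ω n × Ω n)).pull (cp a))
    (fun n v => T n v.1) hj
    ⟨hM, bdd_pull h.sys.bd (law_tri P _), fun a =>
      I.pull _ _ (fun _ => cp a) M _ _ C' j hM (law_cp P (lab s) a) (hW a)⟩
    (I.k2 P M x (lab s) (fun _ => Q) h.min) fun a => ?_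
  · exact S20.not_poor hM (S20.full_coarse hM (S20.full_push hM (f 1) (law_tri P _))
      (Eventually.of_forall fun _ => by simp)) hη h.poor
  refine fn_pull (P := pr P (lab s a)) (F := fun n v => T n v.1) (A := fun n v => Q n v.2) ?_
    (Eventually.of_forall (law_cp P (lab s) a))
  filter_upwards [h.com a, h.fn] with n u w y hy z hz q
  obtain ⟨y1, y2, y3⟩ := (R4.kg.mem _ _ _ _ y (Law.rfl _)).1 hy
  obtain ⟨z1, z2, z3⟩ := (R4.kg.mem _ _ _ _ z (Law.rfl _)).1 hz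
  exact (u _ y2 _ y1 y3).symm.trans ((w _ y2 _ z2 q).trans (u _ z2 _ z1 z3))

theorem core (I : In) {mm : ℕ} (hl : Low N) (ht : THM N (mm + 1)) (hη : 0 < η)
    (h : Hyp P M x s ι T Q C m 0 E η) (hs : ∀ a b, Spr P M x (lab s a) b) :
    ¬Out mm P M x (hat (lab s) ι) := by
  rintro ⟨j, e, he, hj, h0⟩
  have hM := h.sys.big
  obtain ⟨D, Θ, f, t1, t2⟩ := tow I.ext hM (h.rem I) h.cm (h.nz I) Function.injective_id
    (e' := e) (frm0 h.sys.bd h0) N (by simpa using Fintype.card_le_of_injective e he) le_rfl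
  obtain ⟨a, b, b1, G, g, b2⟩ := I.blk P M x Q _ D E e f (I.own.gp P M x _ Q hM h.cm)
    (I.own.fn P M x _ Q _ D hM ⟨h.cm, t1⟩ (h.nz I)) h.sys.bd
    (fun n ω a => by rw [t2, rename_X]; rfl) h.dge
  obtain ⟨d, rfl⟩ : ∃ d, N = d + 1 := ⟨N - 1, by have := b.pos; omega⟩
  have h' := h.cE I.her g
  have hn := I.last.nu _ M x Q _ (fun n ω => rename id (Θ n ω a)) b D (I.own.gp _ M x _ Q hM h'.cm)
    ((fn_cE t1.fn G).mono fun _ u y hy z hz q => congrFun (u y hy z hz q) a)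
    (fun n ω => t1.deg n ω a) (Gp.mono (S20.gp_cE t1.bd g) (Eventually.of_forall
      fun n ω _ _ _ u => (norm_le_pi_norm (cht _ (x n) ω) a).trans u)) b2
  have e1 : ∀ a, ∃ a', b.succAbove a' = e a := fun a =>
    Fin.exists_succAbove_eq fun u => b1 ⟨a, u⟩
  choose e' e1 using e1
  have e2 : Function.Injective e' := fun u v w => he (by rw [← e1, ← e1, w])
  obtain ⟨D', B, f', u1, u2⟩ := tow I.ext hM (h'.rem I) h'.cm (h'.nz I)
    (Fin.succAbove_right_injective (p := b)) (e' := e')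
    (by simpa only [e1] using frm0 h'.sys.bd (min_cE h0 g)) d
    (by simpa using Fintype.card_le_of_injective e' e2) le_rfl
  obtain ⟨D'', G', u3⟩ := I.ext _ M x _ Q _ C D' id hM (h'.rem I) h'.cm (h'.nz I) u1
    Function.injective_id d.lt_succ_self
  exact newS I ht (hj.resolve_right fun u => b1 (u b)) hη h' (newK I hl h'
    (fun a K => (hs a b K).cE hM g) (G := fun n ω => rename id (G' n ω)) u1 u3 hn he
    (f := fun a => (f' a).succ) fun n ω a => by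
      rw [← e1, ← rename_X, ← u2 n ω a]; rfl)

theorem steepL (I : In) {mm : ℕ} (hl : Low N) (ht : THM N (mm + 1)) : SteepL N mm := by
  intro Ω Λ Λ' k P M x s ι T Q C m E η hη hm h
  obtain ⟨W, k', P', x', s', ι', T', Q', C', E', η', a, b, c⟩ := I.s0 P M x s ι T Q C m E η hη h
  exact s3 (H := fun P => Hyp P M x' s' ι' T' Q' C' m 0 E' η' ∧ ∀ b i, Spr P M x' (lab s' b) i)
    (fun P G h g => ⟨h.1.cE I.her g, fun b i K => (h.2 b i K).cE h.1.sys.big g⟩)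
    (fun _ h => h.1) (fun _ h => core I hl ht a h.1 h.2) I.fr I.minP I.cl I.fin3 hm P' ⟨b, c⟩

theorem ofSteep (I : In) (F : Fin1) : OfSteep := fun d mm hl ht k m C E η hη =>
  (F (d + 1) mm (steepL I hl ht) k m C E η hη).imp fun _ h => ⟨h.1,
    fun _ _ _ P M x s T Q ι a b1 b2 b3 b4 b5 b6 b7 b8 b9 =>
      h.2 P M x s ι T Q a ⟨b1, b2, b3, b4, b5, b6, b7, b8, b9⟩⟩

end Pool.Agent.MP_5168f5_an.AN.St
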