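import Pool.Agent.MP_5168f5_an.AN.SpecS3
import Pool.Agent.MP_5168f5_an.AN.StCore
import Pool.Agent.MP_5168f5_an.AN.GRC

/-! Kakeya sets in all dimensions: steep windows, lateral fullness from its parts. -/

namespace Pool.Agent.MP_5168f5_an.AN.St

open H19 H17S H17F R4 Filter MvPolynomial
open G39 (nu RG dl REM Nm)
open Pk (cn mons)
open Nc (Pl ev jac NiceAt Bas)

/-- All inputs. -/
structure InL : Prop where
  xa : XRa
  xb : XRb
  xt : XT
  pk : PtK
  le : LatE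
  fill : FILL
  g7 : G7
  ko : KOp
  c1 : Cel1
  nz : NZs
  own : Own
  cop : Cop
  fat : FatD

variable {d k : ℕ} {Ω Λ : ℕ → Type} {P : ∀ n, FP (Ω n)} {M h : ℕ → ℕ} {y y' : ∀ n, Ω n → V d}
  {κ : ∀ n, Kd k (Ω n)} {q : ∀ n, Ω n → Λ n} {C : ℕ} {η : ℝ}

theorem fine_sq (hM : Big M) : Fine M fun n => M n * M n := fun R =>
  (hM.eventually_ge_atTop R).mono fun _ a => Nat.mul_le_mul_right _ a

theorem cfF (M : ℕ → ℕ) (y : ∀ n, Ω n → V d) (q : ∀ n, Ω n → Λ n) :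
    CF fun R : ∀ n, FP (Ω n) => Full R M y q :=
  cf_full (S := fun n => FP (Ω n)) (W := fun n _ => Ω n) (Λ := fun n _ => Λ n) (fun _ R => R)
    (fun n _ => M n) (fun n _ => y n) fun n _ => q n

theorem latB (I : InL) (ht : THM d 0) (hM : Big M) (hl : Lin M h) (hk : Kind P M y κ C 0)
    (x1 : XR P M y y' (fun n => (κ n).Z) C) (x2 : XR P M y' y (fun n => (κ n).Z) C)
    (hf : FullAt P M y' q h) (hq : FnE P q fun n => (κ n).Z) (hs : Sure P M y) (hη : 0 < η) :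
    ¬Poor P M y q h η := fun hp => by
  have hJ := fine_sq hM
  generalize (fun n => M n * M n) = J at hJ
  have l := S20.law_N P d J
  have su : Sure (NP P d J) M (blurs (pl (Nπ Ω d J) y) (Nξ Ω d J) h) := by
    obtain ⟨Γ, a, b⟩ := hs
    refine ⟨_, a.add (sub_one M) hM, (b.and l).mono fun n u v hv => (norm_add_le _ _).trans
      (add_le_add (u.1 _ (u.2.mem hv)) ?_)⟩
    rw [norm_smul, norm_inv, norm_pow, Real.norm_two]
    exact mul_le_one₀ (inv_le_one_of_one_le₀ (one_le_pow₀ one_le_two)) (norm_nonneg _)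
      (S20.gp_norm _)
  have sy : Sys (NP P d J) M (blurs (pl (Nπ Ω d J) y) (Nξ Ω d J) h)
      (fun n => two (((κ n).pull (Nπ Ω d J n)).nz (Nξ Ω d J n)) (ptN y q J h n)) (C + d)
      fun _ => 0 := ⟨hM, su.bdd, fun b => by
    cases b
    · exact (I.ko.mono hM (I.pk.kd P M J h y q hM hJ hs.bdd) (Nat.le_add_left _ _)).1
    · exact S20.kind_nz hM hJ hk⟩
  have y1 := I.xb.nz P M J h _ _ _ C hM hJ x1
  have y2 := I.xb.nz P M J h _ _ _ C hM hJ x2
  have y3 := I.pk.full P M J h y' q hM hJ hl hf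
  obtain ⟨L, l1, l2⟩ := (sl_cf hM (I.xb.cf M _ _ _ _) fun G g => I.xb.cE _ M _ _ _ _ G hM g y1).and
    ((sl_cf hM (I.xb.cf M _ _ _ _) fun G g => I.xb.cE _ M _ _ _ _ G hM g y2).and
      (sl_cf (K := fun R => Full R M (blurs (pl (Nπ Ω d J) y') (Nξ Ω d J) h) (pl (Nπ Ω d J) q)) hM
        (cfF M _ _) fun G g K => S20.full_cE hM (y3 K) g))
  obtain ⟨D, hD⟩ := I.fill d (C + d) ht
  obtain ⟨Λ', G, S, Ψ, g1, -, fq, cel, fat, full⟩ := hD _ Λ _ _ _ M _ _ (pl (Nπ Ω d J) q) sy su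
    (fun b => by
      cases b
      exacts [Eventually.of_forall fun _ => Fn.snd _ _, S20.fnE_pull hq l])
    (floor_mono (I.nz.flr hM hJ hl hl hs.bdd) (fnE_of fun n _ _ e =>
      congrArg (fun w => (κ n).Z w.1) e)) L l1
  obtain ⟨z1, z2, z3⟩ := l2 G g1
  refine S20.not_poor hM (I.le _ M h (pl (Nπ Ω d J) y) _ _ _ _ S Ψ D hM hl cel (su.cE G) fat full
    (I.xt _ M _ _ _ S _ _ z1 z2 (cel.cm.com true) (I.own.gp _ M _ _ S hM cel.cm)) z3 fq
    (cel.cm.com false) (gp_of_sub (sub_one M) (Eventually.of_forall fun n v _ => ?_))) hη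
    (S20.poor_cE ((hp.and l).mono fun n u v hv => (u.1 _ (u.2.mem hv)).imp fun _ e =>
      ⟨e.1, fun w hw a => e.2 _ (u.2.mem hw) a⟩) G)
  simp only [blurs, blur, add_sub_cancel_left]
  rw [norm_smul, norm_inv, norm_pow, Real.norm_two, one_div]
  exact mul_le_of_le_one_right (by positivity) (S20.gp_norm _)

theorem latA (I : InL) (ht : THM d 0) (hM : Big M) (hl : Lin M h) (hk : Kind P M y κ C 0)
    (hb : Bdd P M y) (x1 : XR P M y y' (fun n => (κ n).Z) C)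
    (x2 : XR P M y' y (fun n => (κ n).Z) C) (hf : FullAt P M y' q h)
    (hq : FnE P q fun n => (κ n).Z) : FullAt P M y q h := by_contra fun hn => by
  obtain ⟨η, hη, E, e, p⟩ := S20.not_full hM hn
  obtain ⟨G, g, s⟩ := Bdd.sure (S20.gp_cE hb e)
  exact latB I ht hM hl (S20.kind_cE hM (S20.kind_cE hM hk e) g.pos)
    (I.xb.cE _ M _ _ _ _ G hM g.pos (I.xb.cE _ M _ _ _ _ E hM e x1))
    (I.xb.cE _ M _ _ _ _ G hM g.pos (I.xb.cE _ M _ _ _ _ E hM e x2))
    (S20.full_cE hM (S20.full_cE hM hf e) g.pos) ((hq.cE E).cE G) s hη (S20.poor_cE p G)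

theorem lat_of (I : InL) : LAT := by
  intro N d Ω Λ Λ' k P M x s ι T Q C m E η Θ D hl hd h f b K
  have hM := h.sys.big
  have pw := I.c1.pw hM h.cm f (I.fat P M x _ Q hM h.sys.bd h.cm h.dle).1
  have f7 := I.g7 Ω Λ k m N d C D P M x (fun n a => (s n a).ctx (ι a n)) Q Θ (hl d hd)
    ⟨hM, h.sys.bd, fun a => I.ko.ctx hM (h.sys.kd a) (h.few a)⟩ h.cm.com f pw
  have g0 := I.own.gp P M x _ Q hM h.cm
  have g := I.cop.gp P M x (lab s b) (ι b) Q C (by simpa using (h.sys.kd b).rem 1) (h.few b)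
    (h.cm.com b) g0
  have c1 : ∀ {α : ℕ → Type} {F : ∀ n, Ω n → α n}, FnE P F (hat (lab s) ι b) →
      FnE (pr P (lab s b)) (fun n v => F n v.2) fun n v => (ι b n v.2, lab s b n v.1) :=
    fun a => (fn_pull a (law_snd P _)).mono fun n e u hu v hv w => e u hu v hv (by
      rw [Prod.ext_iff] at w ⊢
      exact ⟨w.1, (((R4.kg.mem _ _ _ _ u (Law.rfl _)).1 hu).2.2.trans w.2).trans
        ((R4.kg.mem _ _ _ _ v (Law.rfl _)).1 hv).2.2.symm⟩)
  have b0 : Gp P M fun n ω Γ => ∀ i, nc (P n) (x n) (Q n) ω (Θ n ω i) ≤ Γ * |cht (Θ n) (x n) ω i| :=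
    S20.gp_of_wp fun c hc => (Whp.all fun i => g0.dn D c (fun n ω => Θ n ω i) hc
      (f.fn.mono fun _ e u hu v hv w => congrFun (e u hu v hv w) i) fun n ω => f.deg n ω i).mono
      (Eventually.of_forall fun n ω _ e i => by
        rw [← G39.dl_inv, le_inv_mul_iff₀ (G39.dl_pos M c n)]; exact e i)
  have b1 : Gp P M fun n ω Γ => ∀ i, nc (P n) (x n) (Q n) ω (Θ n ω i) ≤ Γ :=
    b0.mul f.bd (Eventually.of_forall fun n ω _ _ _ a _ u v i => (u i).trans
      (mul_le_mul_of_nonneg_left ((norm_le_pi_norm (cht (Θ n) (x n) ω) i).trans v) (by linarith)))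
  have b2 : Bdd (pr P (lab s b)) M fun n v => ev (Θ n v.2) (x n v.1) :=
    (g.up D).mul (gp_pull b1 (law_snd P _)) (Eventually.of_forall fun n v _ _ _ a a' u w =>
      (pi_norm_le_iff_of_nonneg (by positivity)).2 fun i => (u _ (f.deg n v.2 i)).trans
        (mul_le_mul_of_nonneg_left (w i) (by linarith)))
  have k0 := S20.kind_pull hM (h.sys.kd b) (law_fst P (lab s b))
  have w0 : Few (pr P (lab s b)) M 0 fun n v => ι b n v.2 :=
    gp_pull (q := fun n ω Γ => (ι b n ω : ℝ) ≤ Γ * Real.exp (0 * M n)) (h.few b)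
      (law_snd P (lab s b))
  have k1 := I.ko.ctx hM k0 w0
  have fΘ := f.fn.trans (h.cm.com b)
  have pw' : Pw (pr P (lab s b)) M fun n v => Θ n v.2 :=
    pw.imp fun _ a => S20.whp_pull a (law_snd P (lab s b))
  have k2 := rc_zero hM k1.zero (c1 fΘ) (fun n v => f.deg n v.2) pw' b2
  obtain ⟨x1, x2⟩ := I.xa P M x (lab s b) (ι b) Θ C D hM (h.sys.kd b).rem (h.few b) fΘ f.deg
  have k3 := S20.full_pull hM (f7 K) (law_snd P (lab s b))
  exact latA (y := fun n v => ev (Θ n v.2) (x n v.1)) (y' := fun n v => ev (Θ n v.2) (x n v.2))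
    (q := fun n v => Q n v.2) (κ := fun n => ((s n b).pull Prod.fst).ctx fun v => ι b n v.2)
    (P := pr P (lab s b)) (C := C * D) I (hl d hd) hM (lin_mul M K) k2 b2 x1 x2 k3
    (c1 (h.cm.com b))

end Pool.Agent.MP_5168f5_an.AN.St
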