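import Pool.Agent.MP_5168f5_an.AN.SpecS3
import Pool.Agent.MP_5168f5_an.AN.GCel1

/-! A filled cell that is read from the cell of the point. -/

namespace Pool.Agent.MP_5168f5_an.AN.St

open H19 H17S H17F R4 Filter MvPolynomial
open G39 (nu RG dl REM Nm)
open Pk (cn mons)
open Nc (Pl ev jac NiceAt Bas)
open S20 Cx Vo

namespace StLatEA

variable {d : ℕ} {Ω Λ : ℕ → Type} {P : ∀ n, FP (Ω n)} {M h : ℕ → ℕ} {y y₀ : ∀ n, Ω n → V d}
  {S : ∀ n, Ω n → Λ n}

theorem depth (hM : Big M) (hs : Sure P M y) (hf : Fat P M y S) (E : ℕ) : ∃ R : ℕ,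
    Gp P M fun n ω Γ => ∀ F : Pl d, F.totalDegree ≤ E → ∀ j,
      nc (P n) (y n) (S n) ω (pderiv j F) ≤ Γ * 2 ^ (R * M n) * nc (P n) (y n) (S n) ω F := by
  obtain ⟨B, hB⟩ := hf E
  refine ⟨⌈2 * B⌉₊, wp_gp (((sure_nc hM hs S E).and (wp_whp hB)).of hM E 1
    (Eventually.of_forall fun n L L' l l' ω _ k F hF j => ?_))⟩
  obtain ⟨a, b⟩ := Nc.kc.der F E j hF
  have h1 : Real.exp (B * M n) ≤ 2 ^ (⌈2 * B⌉₊ * M n) := by
    refine le_trans (Real.exp_le_exp.2 ?_) (exp_le_two_pow _)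
    have := mul_le_mul_of_nonneg_right (Nat.le_ceil (2 * B)) (Nat.cast_nonneg (α := ℝ) (M n))
    push_cast
    linarith
  have h2 := (le_inv_mul_iff₀ (G39.dl_pos M B n)).2 (k.2 F hF)
  rw [G39.dl_inv] at h2
  have h3 := h2.trans (mul_le_mul_of_nonneg_right h1 (nc_nn _ _ _ _ _))
  refine ((k.1 _ (b.trans (Nat.sub_le _ _))).trans
    (mul_le_mul_of_nonneg_left a (by linarith))).trans ?_
  rw [← mul_assoc, mul_assoc L']
  exact mul_le_mul (by linarith) h3 (Nc.kc.nonneg F) (le_trans (by positivity) l')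

theorem near (hM : Big M) (e : Near P M y y₀ h) : FS P M (fun n ω => fl (h n) (y n ω))
    (fun n ω => (fl (h n) (y₀ n ω), S n ω)) fun _ _ => 1 ^ d := by
  obtain ⟨G, Γ, a, b, c⟩ := e
  refine fs_near (r := fun _ => 1) hM (by simp) ⟨G, _, a, b.const_mul hM (C := 3) (by norm_num),
    c.mono fun n c u hu v hv d e k => ?_⟩
  have h1 := norm_sub_lt_of_fl_eq (congrArg Prod.fst k)
  have h2 : ((2 : ℝ) ^ h n)⁻¹ ≤ Γ n / 2 ^ h n := by
    rw [← one_div]
    exact div_le_div_of_nonneg_right (b.1 n) (by positivity)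
  have h3 : y n u - y n v = y₀ n u - y₀ n v + (y n u - y₀ n u) - (y n v - y₀ n v) := by abel
  rw [h3, mul_one, mul_div_assoc]
  refine (norm_sub_le _ _).trans ((add_le_add (norm_add_le _ _) le_rfl).trans ?_)
  linarith [c u hu d, c v hv e]

end StLatEA

theorem rLatE : OfLatE := by
  intro c2 own nig d Ω Λ Λ' β P M h y₀ y y' Z q S Ψ D hM hL hc hs hf hΨ hg hy hq hS hn
  have fn := own.fn P M y Z S Ψ D hM hc (cel_nz hM hc)
  have v : VH P M y' S (fun n => nc (P n) (y n) (S n)) Ψ D :=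
    ⟨hM, hg.fn, hg.up, hg.dn, fun _ => nc_nn _ _ _, fn.fn, fn.deg, fn.le, fun E K =>
      (nig P M y' S _ Ψ D hg fn E K).mono (Eventually.of_forall fun _ _ _ _ _ k => k.2)⟩
  obtain ⟨R, hR⟩ := StLatEA.depth hM hs hf ((d + 1) * D)
  obtain ⟨G, Γ, g1, g2, g3⟩ := v.down0 (K := fun n _ _ => R * M n) (fnE_const _) hR
  have d1 := ((fullAt_iff hM).1 (hy R)).cover hM (fnE_const _) (Y' := S)
    ⟨G, Γ, g1, g2, g3.mono fun n k a ha g => (k a ha g).imp fun T t =>
      ⟨t.1, fun u hu e => t.2 u hu (congrArg Prod.fst e)⟩⟩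
  have d2 : DS P M (fun n ω => fl (h n) (y n ω)) S fun n ω =>
      nc (P n) (y n) (S n) ω (jac (Ψ n ω)) / (2 ^ h n) ^ d :=
    DS.mono (c2.up hM hc hs hL hΨ) ((wp_gp (nc_high (x := y) hM S fun n ω =>
      Nc.deg_jac (fn.deg n ω))).mono (Eventually.of_forall fun n ω _ Γ _ k => by
        rw [← mul_div_assoc]
        exact div_le_div_of_nonneg_right k (by positivity)))
  have d3 := (d2.cover hM (by
    filter_upwards [hg.fn, fn.fn] with n a b u hu w hw e
    simp only [a u hu w hw e, b u hu w hw e]) (StLatEA.near hM hn)).fine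
    (A' := fun n v => (S n v, q n v)) (Eventually.of_forall fun n => Fn.fst _ _)
    (hq.mono fun n a => (Fn.rfl _).pair a) (Eventually.of_forall fun n => Fn.fst _ _)
  refine (fullAt_iff hM).2 (((d1.chain d3).le (Eventually.of_forall fun n ω _ => ?_)).fine
    fnE_rfl fnE_rfl (hS.mono fun n a => a.pair (Fn.fst _ _)))
  simp only [vol, Finset.prod_const, Finset.card_univ, Fintype.card_fin, cvol, one_pow, one_mul]
  by_cases e : nc (P n) (y n) (S n) ω (jac (Ψ n ω)) = 0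
  · rw [e, zero_div, mul_zero]
    positivity
  · exact le_of_eq (by field_simp)

end Pool.Agent.MP_5168f5_an.AN.St
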