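import Pool.Agent.MP_5168f5_an.AN.SpecS3

/-! Kakeya sets in all dimensions: the point kind and fullness of a point with noise. -/

namespace Pool.Agent.MP_5168f5_an.AN.St

open H19 H17S H17F R4 Filter MvPolynomial
open G39 (nu RG dl REM Nm)
open Pk (cn mons)
open Nc (Pl ev jac NiceAt Bas)

namespace StPtKA

open S20

variable {d : ℕ} {Ω Λ : ℕ → Type} {P : ∀ n, FP (Ω n)} {M J h : ℕ → ℕ} {y : ∀ n, Ω n → V d}
  {A : ∀ n, Ω n → Λ n}

theorem nz (h : ℕ) {J : ℕ} (a : Fin d → Fin (2 ^ J)) :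
    ‖((2 : ℝ) ^ h)⁻¹ • gp a‖ ≤ ((2 : ℝ) ^ h)⁻¹ := by
  rw [norm_smul, Real.norm_of_nonneg (by positivity)]
  exact mul_le_of_le_one_right (by positivity) (gp_norm a)

/-- The point with noise is an affine function of the parameter. -/
theorem pk (hM : Big M) (hJ : Fine M J) (y : ∀ n, Ω n → V d) (A : ∀ n, Ω n → Λ n) :
    En.PK (NP P d J) M (blurs (pl (Nπ Ω d J) y) (Nξ Ω d J) h) (ptN y A J h)
      (fun n z i => C ((z.1 i : ℝ) / 2 ^ h n) + C ((2 : ℝ) ^ h n)⁻¹ * X i) 1 where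
  big := hM
  bd := gp_of_sub (hM.sub one_le_two) (Eventually.of_forall fun n v _ => (norm_add_le _ _).trans
    (by linarith [norm_le_one_of_box (fr_box (h n) (y n v.1)), gp_norm v.2]))
  den K := by
    refine full_ctx hM (full_loc hM (full_xi hM hJ P d K) ⟨fun _ _ => True, fun _ => 1,
      Whp.of_ev (by simp), hM.sub le_rfl, Eventually.of_forall fun n a _ b _ _ _ e k => ?_⟩)
      (Eventually.of_forall fun n _ _ _ _ e => congrArg (fun ω => (fl (h n) (y n ω), A n ω)) e)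
    have k1 : ‖fr (h n) (y n a.1) + gp a.2 - (fr (h n) (y n b.1) + gp b.2)‖ ≤ _ :=
      (norm_sub_lt_of_fl_eq k).le
    rw [show a.1 = b.1 from e, add_sub_add_left_eq_sub] at k1
    rwa [one_div]
  deg n z i := (totalDegree_add _ _).trans
    (max_le (by simp) ((totalDegree_mul _ _).trans (by simp)))
  eq := Whp.of_ev (Eventually.of_forall fun n v _ => funext fun i => by
    simp only [blur, ev, fr, fl, Int.fract, map_add, map_mul, eval_C, eval_X, Pi.add_apply,
      Pi.smul_apply, smul_eq_mul]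
    field_simp
    ring)

theorem bd (hM : Big M) (hy : Bdd P M y) :
    Bdd (NP P d J) M (blurs (pl (Nπ Ω d J) y) (Nξ Ω d J) h) := by
  obtain ⟨Γ, a, b⟩ := gp_iff.1 (gp_pull hy (law_N P d J))
  refine gp_iff.2 ⟨_, a.const_mul hM one_le_two, b.mono (Eventually.of_forall fun n v _ k =>
    (norm_add_le _ _).trans ?_)⟩
  linarith [(nz (h n) v.2).trans (two_pow_inv_le _), a.1 n]

theorem full (hM : Big M) (hJ : Fine M J) (hy : FullAt P M y A h) (K : ℕ) :
    FullAt (NP P d J) M (blurs (pl (Nπ Ω d J) y) (Nξ Ω d J) h) (pl (Nπ Ω d J) A)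
      fun n => h n + K * M n := by
  have d1 := (fullAt_iff hM).1 (full_pull (ρ := Nπ Ω d J) hM hy (law_N P d J))
  have d2 := ((fullAt_iff hM).1 (full_xi hM hJ P d K)).cover hM (fnE_const _)
    (Y' := fun n v => fl (h n + K * M n) (blurs (pl (Nπ Ω d J) y) (Nξ Ω d J) h n v))
    (fs_near (r := fun _ => 1) hM (by simp) ⟨fun _ _ => True, fun _ => 1, Whp.of_ev (by simp),
      hM.sub le_rfl, Eventually.of_forall fun n a _ b _ _ _ k => by
        have k1 : ‖y n a.1 + ((2 : ℝ) ^ h n)⁻¹ • gp a.2 -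
            (y n b.1 + ((2 : ℝ) ^ h n)⁻¹ • gp b.2)‖ ≤ _ :=
          (norm_sub_lt_of_fl_eq (congrArg Prod.fst k)).le
        rw [show a.1 = b.1 from congrArg Prod.snd k, add_sub_add_left_eq_sub, ← smul_sub, norm_smul,
          pow_add, mul_inv, Real.norm_of_nonneg (by positivity)] at k1
        rw [mul_one, one_div]
        exact le_of_mul_le_mul_left k1 (by positivity)⟩)
  have d3 := d1.chain (d2.ctx hM (Eventually.of_forall fun n _ _ _ _ e =>
    congrArg (fun ω => (fl (h n) (y n ω), A n ω)) e) (fnE_const _))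
  have f1 := fs_near (P := NP P d J) (y := pl (Nπ Ω d J) y) (j := h) (A := fun n v =>
      (fl (h n + K * M n) (blurs (pl (Nπ Ω d J) y) (Nξ Ω d J) h n v), A n v.1))
    (r := fun _ => 1) hM (by simp) ⟨fun _ _ => True, fun _ => 3, Whp.of_ev (by simp),
      hM.sub (by norm_num), Eventually.of_forall fun n a _ b _ _ _ k => by
        have k1 := (norm_sub_lt_of_fl_eq
          (fl_eq_of_le (Nat.le_add_right _ _) (congrArg Prod.fst k))).le
        have k2 : y n a.1 - y n b.1 = y n a.1 + ((2 : ℝ) ^ h n)⁻¹ • gp a.2 -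
            (y n b.1 + ((2 : ℝ) ^ h n)⁻¹ • gp b.2) - ((2 : ℝ) ^ h n)⁻¹ • gp a.2 +
            ((2 : ℝ) ^ h n)⁻¹ • gp b.2 := by abel
        refine (congrArg norm k2).trans_le ((norm_add_le _ _).trans
          ((add_le_add (norm_sub_le _ _) le_rfl).trans ?_))
        rw [mul_one, div_eq_mul_inv]
        exact (add_le_add (add_le_add k1 (nz _ _)) (nz _ _)).trans_eq (by ring)⟩
  refine (fullAt_iff hM).2 ((d3.cover hM (fnE_const _) (fs_fn (fun _ => by positivity) f1 fnE_rfl
    (Eventually.of_forall fun n _ _ _ _ e => congrArg (fun w => (w.1, w.2.1)) e))).le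
      (Eventually.of_forall fun n _ _ => le_of_eq ?_))
  simp only [cvol, one_pow, one_mul, pow_add, mul_pow, mul_inv]

end StPtKA

open StPtKA S20

theorem rPtK : OfPtK := fun cn wh =>
  ⟨fun P M J h y A hM hJ hy =>
    have k := pk (P := P) (h := h) hM hJ y A
    have c := cn _ _ _ _ _ _ k (bd hM hy)
    ⟨k.bd, gp_iff.2 ⟨_, hM.sub le_rfl, Whp.of_ev (Eventually.of_forall fun n v _ => by simp)⟩,
      fun K => by simpa only [mul_one] using c.2 K, k.den,
      wh _ _ _ _ _ _ 0 k c.1 (gp_iff.2 ⟨_, hM.sub le_rfl, Whp.of_ev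
        (Eventually.of_forall fun n v _ => ⟨Fin.elim0, Fin.elim0, by simp⟩)⟩)⟩,
    fun _ _ _ _ _ _ hM hJ _ hy K => full_coarse hM (full hM hJ hy K)
      (Eventually.of_forall fun _ => Nat.le_add_left _ _)⟩

end Pool.Agent.MP_5168f5_an.AN.St
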