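import Pool.Agent.MP_5168f5_an.AN.SpecS
import Pool.Agent.MP_5168f5_an.AN.S20LF

/-! Kakeya sets in all dimensions: steep windows, the new system. -/

namespace Pool.Agent.MP_5168f5_an.AN.St

open H19 H17S H17F Filter MvPolynomial
open G39 (nu RG dl REM Nm)
open Pk (cn mons)
open Nc (Pl ev jac NiceAt Bas)

section Defs

variable {N d : ℕ} {Ω Λ Λ' : ℕ → Type} {β : Bool → ℕ → Type}

/-- Polynomials that do not depend on the coordinate `b`. -/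
noncomputable abbrev bs (b : Fin (d + 1)) (B : ∀ n, Ω n → Fin d → Pl d) :
    ∀ n, Ω n → Fin d → Pl (d + 1) := fun n ω j => rename b.succAbove (B n ω j)

/-- A frame in which only the first member depends on the coordinate `b`. -/
noncomputable abbrev fb (b : Fin (d + 1)) (B : ∀ n, Ω n → Fin d → Pl d)
    (G : ∀ n, Ω n → Pl (d + 1)) : ∀ n, Ω n → Fin (d + 1) → Pl (d + 1) :=
  fun n ω => Fin.cons (G n ω) (bs b B n ω)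

/-- A point and one copy for each of the two labels. -/
noncomputable abbrev tri (P : ∀ n, FP (Ω n)) (Z : ∀ b n, Ω n → β b n) :
    ∀ n, FP (Ω n × Ω n × Ω n) := fun n => H17F.bind (P n) fun ω =>
  prod (cv (P n) (Z true n) (Z true n ω)) (cv (P n) (Z false n) (Z false n ω))

/-- The point and one of the copies. -/
abbrev cp {W : Type} (b : Bool) (v : W × W × W) : W × W := (v.1, cond b v.2.1 v.2.2)

variable (P : ∀ n, FP (Ω n)) (M : ℕ → ℕ)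

/-- The coordinate `b` is spread at scale `2^{-M}`, given `A` and the other coordinates. -/
def Spr (y : ∀ n, Ω n → V N) (A : ∀ n, Ω n → Λ n) (b : Fin N) : Prop := ∀ K : ℕ,
  S20.DS P M (fun n ω => fl1 ((K + 1) * M n) (y n ω b))
    (fun n ω => (A n ω, Function.update (y n ω) b 0)) fun n _ => (2 ^ (K * M n))⁻¹

/-- A polynomial of norm one, read from `q`, with derivative of norm `2^M` in the direction `b`. -/
def DNu (q : ∀ n, Ω n → Λ n) (ν : ∀ n, Ω n → Pl N → ℝ) (b : Fin N) (E : ℕ) : Prop :=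
  ∃ F : ∀ n, Ω n → Pl N, FnE P F q ∧ (∀ n ω, (F n ω).totalDegree ≤ E) ∧
    Gp P M fun n ω Γ => ν n ω (F n ω) ≤ Γ ∧ 2 ^ M n ≤ Γ * ν n ω (pderiv b (F n ω))

/-- A steep window in which the point is poor. -/
structure Hyp {k : Bool → ℕ} (x : ∀ n, Ω n → V N) (s : ∀ n, Sy k (Ω n))
    (ι : Bool → ∀ n, Ω n → ℕ) (T : ∀ n, Ω n → Λ' n) (Q : ∀ n, Ω n → Λ n) (C : ℕ) (m : Bool → ℕ)
    (c : ℝ) (E : ℕ) (η : ℝ) : Prop where
  sys : Sys P M x s C m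
  min : MIN P M x (lab s)
  com : Com P (lab s) T
  few : ∀ b, Few P M c (ι b)
  cm : CM P M x (hat (lab s) ι) Q
  fn : FnE P T Q
  dle : DLe P M x Q M
  dge : DGe P M x Q E M
  poor : Poor P M x T M η

end Defs

/-- Steep windows with few indices are full. -/
def SteepL (N mm : ℕ) : Prop := ∀ {Ω Λ Λ' : ℕ → Type} {k : Bool → ℕ} (P : ∀ n, FP (Ω n))
  (M : ℕ → ℕ) (x : ∀ n, Ω n → V N) (s : ∀ n, Sy k (Ω n)) (ι : Bool → ∀ n, Ω n → ℕ)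
  (T : ∀ n, Ω n → Λ' n) (Q : ∀ n, Ω n → Λ n) (C : ℕ) (m : Bool → ℕ) (E : ℕ) (η : ℝ), 0 < η →
  mm ≤ m true + m false → ¬Hyp P M x s ι T Q C m 0 E η

/-- Steep windows are almost full. -/
def SteepF (N mm : ℕ) : Prop := ∀ (k m : Bool → ℕ) (C E : ℕ) (η : ℝ), 0 < η → ∃ c : ℝ, 0 < c ∧
  ∀ {Ω Λ Λ' : ℕ → Type} (P : ∀ n, FP (Ω n)) (M : ℕ → ℕ) (x : ∀ n, Ω n → V N)
    (s : ∀ n, Sy k (Ω n)) (ι : Bool → ∀ n, Ω n → ℕ) (T : ∀ n, Ω n → Λ' n) (Q : ∀ n, Ω n → Λ n),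
    mm ≤ m true + m false → ¬Hyp P M x s ι T Q C m c E η

/-- One diagonal. -/
def Fin1 : Prop := ∀ N mm, SteepL N mm → SteepF N mm

/-! ### General facts -/

/-- Minimal labels and the depth survive conditioning. -/
structure HerQ : Prop where
  cm : ∀ {N : ℕ} {Ω Λ : ℕ → Type} {β : Bool → ℕ → Type} (P : ∀ n, FP (Ω n)) (M : ℕ → ℕ)
    (x : ∀ n, Ω n → V N) (Z : ∀ b n, Ω n → β b n) (Q : ∀ n, Ω n → Λ n) (G : ∀ n, Ω n → Prop),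
    Big M → Pos P G → CM P M x Z Q → CM (fun n => cE (P n) (G n)) M x Z Q
  dle : ∀ {N : ℕ} {Ω Λ : ℕ → Type} {β : Bool → ℕ → Type} (P : ∀ n, FP (Ω n)) (M g : ℕ → ℕ)
    (x : ∀ n, Ω n → V N) (Z : ∀ b n, Ω n → β b n) (Q : ∀ n, Ω n → Λ n) (G : ∀ n, Ω n → Prop),
    Big M → Pos P G → CM P M x Z Q → DLe P M x Q g → DLe (fun n => cE (P n) (G n)) M x Q g
  dge : ∀ {N : ℕ} {Ω Λ : ℕ → Type} {β : Bool → ℕ → Type} (P : ∀ n, FP (Ω n)) (M g : ℕ → ℕ)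
    (x : ∀ n, Ω n → V N) (Z : ∀ b n, Ω n → β b n) (Q : ∀ n, Ω n → Λ n) (G : ∀ n, Ω n → Prop)
    (E : ℕ), Big M → Pos P G → CM P M x Z Q → DGe P M x Q E g →
    DGe (fun n => cE (P n) (G n)) M x Q E g

/-- The Remez inequality survives an index with few values. -/
def RemI : Prop := ∀ {N : ℕ} {Ω Λ : ℕ → Type} (P : ∀ n, FP (Ω n)) (M : ℕ → ℕ)
  (x : ∀ n, Ω n → V N) (Z : ∀ n, Ω n → Λ n) (ι : ∀ n, Ω n → ℕ) (C : ℕ), Big M →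
  (∀ K : ℕ, REM P x M Z C K) → Few P M 0 ι →
  ∀ K : ℕ, REM P x M (fun n ω => (ι n ω, Z n ω)) C K

/-- The Remez inequality for a minimal label. -/
def RemQ : Prop := ∀ {N : ℕ} {Ω Λ : ℕ → Type} {β : Bool → ℕ → Type} (P : ∀ n, FP (Ω n))
  (M : ℕ → ℕ) (x : ∀ n, Ω n → V N) (Z : ∀ b n, Ω n → β b n) (Q : ∀ n, Ω n → Λ n) (C : ℕ), Big M →
  (∀ b (K : ℕ), REM P x M (Z b) C K) → CM P M x Z Q → ∀ K : ℕ, REM P x M Q ((N + 1) * C) K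

/-- One more member of a frame, in given coordinates. -/
def ExtC : Prop := ∀ {N k i : ℕ} {Ω Λ : ℕ → Type} {β : Bool → ℕ → Type} (P : ∀ n, FP (Ω n))
  (M : ℕ → ℕ) (x : ∀ n, Ω n → V N) (Z : ∀ b n, Ω n → β b n) (Q : ∀ n, Ω n → Λ n)
  (Θ : ∀ n, Ω n → Fin k → Pl N) (C D : ℕ) (e : Fin i → Fin N), Big M →
  (∀ b (K : ℕ), REM P x M (Z b) C K) → CM P M x Z Q → NZ P x Q → Frm P M x Z Q Θ D →
  Function.Injective e → k < i → ∃ (D' : ℕ) (G : ∀ n, Ω n → Pl i),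
    Frm P M x Z Q (fun n ω => (Fin.cons (rename e (G n ω)) (Θ n ω) : Fin (k + 1) → Pl N)) D'

/-- Cells of bounded depth are fat. -/
def FatD : Prop := ∀ {N : ℕ} {Ω Λ : ℕ → Type} {β : Bool → ℕ → Type} (P : ∀ n, FP (Ω n))
  (M : ℕ → ℕ) (x : ∀ n, Ω n → V N) (Z : ∀ b n, Ω n → β b n) (Q : ∀ n, Ω n → Λ n), Big M →
  Bdd P M x → CM P M x Z Q → DLe P M x Q M → Fat P M x Q ∧ NZ P x Q

/-- Kinds pull back along maps that preserve the law. -/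
def PullK : Prop := ∀ {N k : ℕ} {Ω W : ℕ → Type} (P : ∀ n, FP (Ω n)) (R : ∀ n, FP (W n))
  (ρ : ∀ n, W n → Ω n) (M : ℕ → ℕ) (x : ∀ n, Ω n → V N) (κ : ∀ n, Kd k (Ω n)) (C m : ℕ), Big M →
  (∀ n, Law (R n) (ρ n) (P n) id) → Kind P M x κ C m →
  Kind R M (fun n v => x n (ρ n v)) (fun n => (κ n).pull (ρ n)) C m

/-- Labels read from independent copies have no thin common polynomial. -/
def K2T : Prop := ∀ {N : ℕ} {Ω : ℕ → Type} {β γ : Bool → ℕ → Type} (P : ∀ n, FP (Ω n))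
  (M : ℕ → ℕ) (x : ∀ n, Ω n → V N) (Z : ∀ b n, Ω n → β b n) (A : ∀ b n, Ω n → γ b n),
  MIN P M x Z → MIN (tri P Z) M (fun n v => x n v.1) fun b n v => A b n (cp b v).2

/-! ### The steps -/

/-- Noise at the depth of the cell. -/
def S0 : Prop := ∀ {N : ℕ} {Ω Λ Λ' : ℕ → Type} {k : Bool → ℕ} (P : ∀ n, FP (Ω n))
  (M : ℕ → ℕ) (x : ∀ n, Ω n → V N) (s : ∀ n, Sy k (Ω n)) (ι : Bool → ∀ n, Ω n → ℕ)
  (T : ∀ n, Ω n → Λ' n) (Q : ∀ n, Ω n → Λ n) (C : ℕ) (m : Bool → ℕ) (E : ℕ) (η : ℝ), 0 < η →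
  Hyp P M x s ι T Q C m 0 E η → ∃ (W : ℕ → Type) (k' : Bool → ℕ) (P' : ∀ n, FP (W n))
    (x' : ∀ n, W n → V N) (s' : ∀ n, Sy k' (W n)) (ι' : Bool → ∀ n, W n → ℕ)
    (T' : ∀ n, W n → Λ' n) (Q' : ∀ n, W n → Λ n) (C' E' : ℕ) (η' : ℝ), 0 < η' ∧
    Hyp P' M x' s' ι' T' Q' C' m 0 E' η' ∧ ∀ b i, Spr P' M x' (lab s' b) i

/-- A short frame of the cell of the copy is full. -/
def LAT : Prop := ∀ {N d : ℕ} {Ω Λ Λ' : ℕ → Type} {k : Bool → ℕ} (P : ∀ n, FP (Ω n))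
  (M : ℕ → ℕ) (x : ∀ n, Ω n → V N) (s : ∀ n, Sy k (Ω n)) (ι : Bool → ∀ n, Ω n → ℕ)
  (T : ∀ n, Ω n → Λ' n) (Q : ∀ n, Ω n → Λ n) (C : ℕ) (m : Bool → ℕ) (E : ℕ) (η : ℝ)
  (Θ : ∀ n, Ω n → Fin d → Pl N) (D : ℕ), Low N → d < N → Hyp P M x s ι T Q C m 0 E η →
  Frm P M x (hat (lab s) ι) Q Θ D → ∀ b,
    Full (pr P (lab s b)) M (fun n v => ev (Θ n v.2) (x n v.1)) fun n v => Q n v.2

/-- The depth is seen by the frame in a direction outside the independent coordinates. -/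
def Blk : Prop := ∀ {N m : ℕ} {Ω Λ : ℕ → Type} (P : ∀ n, FP (Ω n)) (M : ℕ → ℕ)
  (x : ∀ n, Ω n → V N) (Q : ∀ n, Ω n → Λ n) (Θ : ∀ n, Ω n → Fin N → Pl N) (D E : ℕ)
  (e f : Fin m → Fin N), GP P M x Q (fun n => nc (P n) (x n) (Q n)) →
  FN P M Q (fun n => nc (P n) (x n) (Q n)) Θ D → Bdd P M x → (∀ n ω a, Θ n ω (f a) = X (e a)) →
  DGe P M x Q E M → ∃ a b : Fin N, b ∉ Set.range e ∧ ∃ G : ∀ n, Ω n → Prop, Pos P G ∧
    Gp (fun n => cE (P n) (G n)) M fun n ω Γ => 2 ^ M n ≤ Γ * |eval (x n ω) (pderiv b (Θ n ω a))|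

/-- The depth is seen by the first member of the frame. -/
structure Last : Prop where
  nu : ∀ {N : ℕ} {Ω Λ : ℕ → Type} (P : ∀ n, FP (Ω n)) (M : ℕ → ℕ) (y : ∀ n, Ω n → V N)
    (q : ∀ n, Ω n → Λ n) (ν : ∀ n, Ω n → Pl N → ℝ) (F : ∀ n, Ω n → Pl N) (b : Fin N) (E : ℕ),
    GP P M y q ν → FnE P F q → (∀ n ω, (F n ω).totalDegree ≤ E) →
    (Gp P M fun n ω Γ => |eval (y n ω) (F n ω)| ≤ Γ) →
    (Gp P M fun n ω Γ => 2 ^ M n ≤ Γ * |eval (y n ω) (pderiv b (F n ω))|) → DNu P M q ν b E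
  pull : ∀ {N : ℕ} {Ω Λ Λ' : ℕ → Type} (P : ∀ n, FP (Ω n)) (M : ℕ → ℕ) (Z : ∀ n, Ω n → Λ' n)
    (q : ∀ n, Ω n → Λ n) (ν : ∀ n, Ω n → Pl N → ℝ) (b : Fin N) (E : ℕ), DNu P M q ν b E →
    DNu (pr P Z) M (fun n v => q n v.2) (fun n v => ν n v.2) b E
  der : ∀ {d : ℕ} {Ω Λ : ℕ → Type} (P : ∀ n, FP (Ω n)) (M : ℕ → ℕ) (y : ∀ n, Ω n → V (d + 1))
    (q : ∀ n, Ω n → Λ n) (ν : ∀ n, Ω n → Pl (d + 1) → ℝ) (b : Fin (d + 1))
    (B : ∀ n, Ω n → Fin d → Pl d) (G : ∀ n, Ω n → Pl (d + 1)) (D E : ℕ), GP P M y q ν →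
    FN P M q ν (fb b B G) D → DNu P M q ν b E →
    Gp P M fun n ω Γ => 2 ^ M n ≤ Γ * |eval (y n ω) (pderiv b (G n ω))|

/-- The frame is full. -/
structure Den : Prop where
  spr : ∀ {N : ℕ} {Ω Λ : ℕ → Type} (P : ∀ n, FP (Ω n)) (M : ℕ → ℕ) (x : ∀ n, Ω n → V N)
    (Z : ∀ n, Ω n → Λ n) (ι : ∀ n, Ω n → ℕ) (b : Fin N), Big M → Few P M 0 ι → Spr P M x Z b →
    Spr (pr P Z) M (fun n v => x n v.1) (fun n v => (ι n v.2, Z n v.2)) b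
  den : ∀ {d : ℕ} {Ω Λ Λ' : ℕ → Type} (P : ∀ n, FP (Ω n)) (M : ℕ → ℕ) (y : ∀ n, Ω n → V (d + 1))
    (q : ∀ n, Ω n → Λ n) (R : ∀ n, Ω n → Λ' n) (b : Fin (d + 1)) (B : ∀ n, Ω n → Fin d → Pl d)
    (G : ∀ n, Ω n → Pl (d + 1)) (D : ℕ), Big M → FnE P (fb b B G) q →
    (∀ n ω, (G n ω).totalDegree ≤ D) → FnE P q R → Spr P M y R b →
    (Gp P M fun n ω Γ => 2 ^ M n ≤ Γ * |eval (y n ω) (pderiv b (G n ω))|) →
    Full P M (fun n => cht (bs b B n) (y n)) q → Full P M (fun n => cht (fb b B G n) (y n)) q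

def OfBlk : Prop := NiG → Blk
def OfLast : Prop := NiG → Last
def OfDen : Prop := Pre → Den
def OfFatD : Prop := Own → FatD

end Pool.Agent.MP_5168f5_an.AN.St
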