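import Pool.Agent.MP_5168f5_an.AN.GNZ
import Pool.Agent.MP_5168f5_an.AN.SpecS2
import Pool.Agent.MP_5168f5_an.AN.GCel1
import Pool.Agent.MP_5168f5_an.AN.Api2

/-! Steep windows: noise at the depth of the cell. -/

namespace Pool.Agent.MP_5168f5_an.AN.St

open H19 H17S H17F R4 Filter MvPolynomial
open G39 (dl dl_pos dl_half)
open Pk (cn kc)
open Nc (Pl)
open S20 (law_N fnE_pull gp_pull gp_iff)

/-- One coordinate of the grid is uniform given the other coordinates. -/
theorem grid_one {N J g h : ℕ} (e : g ≤ J) (a : Fin N → Fin (2 ^ J)) (i : Fin N) (s : ℝ) (c : ℤ) :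
    pb (cv (grid N J) (fun b j => if j = i then 0 else gp b j) fun j => if j = i then 0 else gp a j)
      (fun b => fl1 (g + h) (s + (2 ^ h)⁻¹ * gp b i) = c) ≤ (2 ^ g)⁻¹ := by
  classical
  have p : 0 < 2 ^ (J - g) := by positivity
  have q : (2 : ℝ) ^ J = 2 ^ g * 2 ^ (J - g) := by rw [← pow_add, Nat.add_sub_cancel' e]
  rw [S20.pb_cv' (Finset.mem_univ a), div_le_iff₀ (S20.pb_val (Finset.mem_univ a) _), Nz.pb_grid,
    Nz.pb_grid, ← mul_div_assoc]
  refine div_le_div_of_nonneg_right (le_trans (b := ((2 ^ (J - g) : ℕ) : ℝ)) (Nat.cast_le.2 ?_) ?_)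
    (by positivity)
  · refine (Finset.card_le_card_of_injOn (t := Finset.range (2 ^ (J - g)))
      (fun b => (b i : ℕ) % 2 ^ (J - g)) (fun b _ => Finset.mem_coe.2 (Finset.mem_range.2
        (Nat.mod_lt _ p))) fun b hb b' hb' k => ?_).trans_eq (Finset.card_range _)
    simp only [Finset.mem_coe, Finset.mem_filter] at hb hb'
    have h1 := hb.2
    have h2 := hb'.2
    have h3 := abs_sub_lt_of_fl1_eq (h1.2.trans h2.2.symm)
    funext j
    by_cases u : j = i
    · subst u
      refine Fin.ext (Nat.ModEq.eq_of_abs_lt k ?_)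
      rw [add_sub_add_left_eq_sub, ← mul_sub, abs_mul, abs_of_pos (by positivity), pow_add, mul_inv,
        mul_comm (2 ^ g)⁻¹, mul_lt_mul_iff_right₀ (by positivity), gp, gp, ← sub_div, abs_div,
        abs_of_pos (a := (2 : ℝ) ^ J) (by positivity), div_lt_iff₀ (by positivity), q,
        inv_mul_cancel_left₀ (by positivity), abs_sub_comm] at h3
      exact_mod_cast h3
    · have := congrFun (h1.1.trans h2.1.symm) j
      simp only [if_neg u, gp] at this
      exact Fin.ext (by exact_mod_cast (div_left_inj' (by positivity)).1 this)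
  · rw [le_inv_mul_iff₀ (by positivity), Nat.cast_pow, Nat.cast_ofNat, ← q]
    have := Finset.card_le_card_of_injOn (s := Finset.univ) (t := Finset.univ.filter
      fun b : Fin N → Fin (2 ^ J) => (fun j => if j = i then 0 else gp b j) =
        fun j => if j = i then 0 else gp a j) (fun r : Fin (2 ^ J) => Function.update a i r)
      (fun r _ => Finset.mem_coe.2 (Finset.mem_filter.2 ⟨Finset.mem_univ _, funext fun j => by
        by_cases u : j = i
        · simp only [if_pos u]
        · simp only [if_neg u, gp, Function.update_of_ne u]⟩))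
      fun r _ r' _ k => by simpa using congrFun k i
    rw [Finset.card_univ, Fintype.card_fin] at this
    exact_mod_cast (by convert this)

theorem rS0 : S0 := by
  intro N Ω Λ Λ' k P M x s ι T Q C m E η hη H
  have hM := H.sys.big
  let J : ℕ → ℕ := fun n => M n * M n
  have hJ : Fine M J := fun R => (hM.ev R).mono fun n a =>
    Nat.mul_le_mul_right _ (by exact_mod_cast a)
  have lw := law_N P N J
  have ne := Nz.nz_nu hM hJ H.dle
  refine ⟨NΩ Ω N J, fun b => k b + N, NP P N J, blurs (pl (Nπ Ω N J) x) (Nξ Ω N J) M,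
    fun n b => ((s n b).pull (Nπ Ω N J n)).nz (Nξ Ω N J n), fun b => pl (Nπ Ω N J) (ι b),
    pl (Nπ Ω N J) T, pl (Nπ Ω N J) Q, C + N, E, η / 2, half_pos hη,
    ⟨⟨hM, ?_, fun b => S20.kind_nz hM hJ (H.sys.kd b)⟩, ?_, fun b => fnE_pull (H.com b) lw,
      fun b => gp_pull (H.few b) lw, ⟨fun b => fnE_pull (H.cm.com b) lw, ?_⟩, fnE_pull H.fn lw,
      fun E' => ?_, ?_, ?_⟩, fun b i K => ?_⟩
  · refine (gp_pull H.sys.bd lw).poly hM one_le_two 1 (Eventually.of_forall fun n v _ Γ a c => ?_)
    refine (norm_add_le _ _).trans ?_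
    rw [norm_smul, Real.norm_of_nonneg (by positivity)]
    have := mul_le_one₀ (two_pow_inv_le (M n)) (norm_nonneg _) (S20.gp_norm v.2)
    linarith
  · have := Nz.nz_min (h := M) (Θ := fun _ _ => X) (D := 1) hM hJ (fun _ _ _ => by simp)
      ((chs_X x).symm ▸ H.min)
    rwa [show pl (Nπ Ω N J) (fun _ _ => X) = fun _ _ => X from rfl, chs_X] at this
  · have := Nz.nz_min (h := M) (Θ := fun _ _ => X) (D := 1) (x := x)
      (ν := fun n => nc (P n) (x n) (Q n)) hM hJ (fun _ _ _ => by simp)
      (by rw [chs_X]; exact H.cm.nt)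
    rw [show pl (Nπ Ω N J) (fun _ _ => X) = fun _ _ => X from rfl, chs_X] at this
    exact Cx.nt_mono this fun E' => Cx.gp_wp ((ne E').mono (Eventually.of_forall
      fun _ _ _ _ _ a F hF => (a F hF).2)) fun n v L L' _ l a F hF =>
        (a F hF).trans (mul_le_mul_of_nonneg_right l (Real.sqrt_nonneg _))
  · obtain ⟨Γ, a1, a2⟩ := gp_iff.1 (ne E')
    obtain ⟨Γ', b1, b2⟩ := gp_iff.1 (gp_pull (H.dle E') lw)
    refine gp_iff.2 ⟨_, a1.mul (b1.mul a1), (a2.and b2).mono (Eventually.of_forall
      fun n v _ u F hF i => ?_)⟩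
    refine (u.1 _ ((kc.der F E' i hF).2.trans (Nat.sub_le _ _))).2.trans ?_
    rw [mul_assoc, mul_assoc]
    refine mul_le_mul_of_nonneg_left ((u.2 F hF i).trans ?_) (a1.pos n).le
    have := b1.pos n
    exact (mul_le_mul_of_nonneg_left (u.1 F hF).1 (by positivity)).trans_eq (by ring)
  · obtain ⟨Γ, a1, a2⟩ := gp_iff.1 (ne E)
    obtain ⟨Γ', b1, b2⟩ := gp_iff.1 (gp_pull H.dge lw)
    refine gp_iff.2 ⟨_, a1.mul (b1.mul a1), (a2.and b2).mono (Eventually.of_forall
      fun n v _ ⟨u, F, i, hF, f1, f2⟩ => ⟨F, i, hF, (mul_pos_iff_of_pos_left (a1.pos n)).1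
        (f1.trans_le (u F hF).1), ?_⟩)⟩
    refine (mul_le_mul_of_nonneg_left (u F hF).2 (by positivity)).trans ?_
    rw [mul_left_comm, mul_assoc, mul_assoc]
    exact mul_le_mul_of_nonneg_left (f2.trans (mul_le_mul_of_nonneg_left (u _ ((kc.der F E i
      hF).2.trans (Nat.sub_le _ _))).1 (b1.pos n).le)) (a1.pos n).le
  · filter_upwards [H.poor, lw, G39.big_dl hM (10 ^ N) (half_pos hη)] with n a l c v hv
    have h1 : S20.Few (NP P N J n) (fun v => fl (M n) (x n v.1)) (fun v => T n v.1) (fun _ => True)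
        (dl M η n * (2 ^ M n) ^ N) := fun u hu =>
      (K31.det_law l a u hu).imp fun _ t => ⟨t.1, fun w hw e _ => t.2 w hw e⟩
    have h2 := S20.few_near (P := NP P N J n) (y := blurs (pl (Nπ Ω N J) x) (Nξ Ω N J) M n)
      (A := fun v => (fl (M n) (x n v.1), T n v.1)) (G := fun _ => True) (j := M n) one_le_two
      fun u _ w _ _ _ e => by
        have e1 := norm_sub_lt_of_fl_eq (congrArg Prod.fst e)
        have e2 : ‖gp u.2 - gp w.2‖ ≤ 1 := (pi_norm_le_iff_of_nonneg zero_le_one).2 fun i => by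
          have := S20.gp_box u.2 i
          have := S20.gp_box w.2 i
          exact abs_le.2 ⟨by simp only [Pi.sub_apply]; linarith, by simp only [Pi.sub_apply]; linarith⟩
        refine le_trans (b := ‖(x n u.1 - x n w.1) + ((2 : ℝ) ^ M n)⁻¹ • (gp u.2 - gp w.2)‖)
          (le_of_eq (congrArg _ ?_)) ((norm_add_le _ _).trans ?_)
        · simp only [blurs, blur, smul_sub]
          abel
        · rw [norm_smul, Real.norm_of_nonneg (by positivity), div_eq_mul_inv]
          nlinarith [show (0 : ℝ) < (2 ^ M n)⁻¹ by positivity]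
    obtain ⟨t, t1, t2⟩ := (h1.pair h2).fn (Y' := fun v => fl (M n) (blurs (pl (Nπ Ω N J) x)
      (Nξ Ω N J) M n v)) (fun _ _ _ _ e => congrArg (·.1.2) e) v hv
    refine ⟨t, t1.trans ?_, fun w hw e => t2 w hw e trivial⟩
    have d := dl_pos M (η / 2) n
    rw [← one_div, le_div_iff₀ d] at c
    rw [dl_half M η, show (5 : ℝ) * 2 = 10 by norm_num]
    nlinarith [show 0 < dl M (η / 2) n * (2 ^ M n) ^ N by positivity]
  · refine S20.DS.ctx (A' := fun n v => (v.1, fun j => if j = i then 0 else gp v.2 j))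
      (S20.ds_of_good hM ⟨fun _ _ => True, _, Whp.of_ev (by simp), sub_one M, ?_⟩) hM
      (Eventually.of_forall fun n u _ v _ e => ?_) (S20.fnE_const _)
    · filter_upwards [hJ K] with n a v hv _
      rw [Nz.pb_cv_prod (fun b j => if j = i then 0 else gp b j) hv, one_mul, add_mul, one_mul]
      exact (pb_mono fun _ _ u => u.2).trans (grid_one a v.2 i (x n v.1 i) _)
    · obtain ⟨e1, e2⟩ := Prod.mk.inj e
      refine Prod.ext (congrArg (s n b).Z e1) (funext fun j => ?_)
      by_cases c : j = i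
      · simp [c]
      · have := congrFun e2 j
        simp only [if_neg c] at this
        simp [Function.update_of_ne c, blurs, blur, pl, e1, this]

end Pool.Agent.MP_5168f5_an.AN.St
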