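import Pool.Agent.MP_5168f5_an.AN.SpecS

/-! Kakeya sets in all dimensions: the Remez inequality for the cell of the copy. -/

namespace Pool.Agent.MP_5168f5_an.AN.St

open H19 H17S H17F Filter MvPolynomial
open G39 (nu RG dl REM Nm)
open Pk (cn mons)
open Nc (Pl ev jac NiceAt Bas)

namespace StRemPA

open G39 (ind ind_pos ind_neg ind_le pb_ind)

variable {Ω α β : Type} {N : ℕ}

/-- The law of a pair given the cell of the copy. -/
theorem fib (P : FP Ω) (Z : Ω → α) (Q : Ω → β) (A B : Ω → Prop) {v : Ω × Ω}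
    (hv : v ∈ (glue P P Z Z).S) :
    pb (cv (glue P P Z Z) (fun w => Q w.2) (Q v.2)) (fun w => A w.2 ∧ B w.1) =
      (cv P Q (Q v.2)).E fun ω => ind (A ω) * pb (cv P Z (Z ω)) B := by
  have h0 := S20.pb_val hv fun w => Q w.2
  have h1 : pb (glue P P Z Z) (fun w => Q w.2 = Q v.2) = pb P fun ω => Q ω = Q v.2 :=
    (R4.kg.snd P P Z Z (Law.rfl _)).pb_eq fun ω => Q ω = Q v.2
  refine mul_left_cancel₀ h0.ne' ((S20.pb_cv _ _ _ _).trans ?_)
  rw [h1, cv, E_cE]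
  refine ((R4.kg.swap P P Z Z (Law.rfl _)).pb_eq fun w => Q w.2 = Q v.2 ∧ A w.2 ∧ B w.1).trans ?_
  rw [pb_ind, KGA.E_glue]
  refine P.E_congr fun ω _ => ?_
  by_cases a : Q ω = Q v.2
  · by_cases b : A ω
    · simp only [Prod.swap, a, b, true_and, if_true, ind_pos trivial, one_mul, pb_ind]
    · simp only [Prod.swap, a, b, false_and, and_false, if_true, ind_neg not_false, zero_mul,
        FP.E_const]
  · simp only [Prod.swap, a, false_and, if_false, ind_neg not_false, FP.E_const]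

/-- The inequality in one space. -/
theorem one {P : FP Ω} {x : Ω → V N} {Z : Ω → α} {Q : Ω → β} {ι : Ω → ℕ} {R G T : Ω → Prop}
    {E C C' : ℕ} {a b c k k' : ℝ} (h0 : 0 < k) (hk : k' ≤ k / 2)
    (hR : RG P x Z R E C a k') (hG : RG P x Q G E C' b k')
    (hT : ∀ ω ∈ P.S, T ω → ∀ v ∈ P.S, T v → Z v = Z ω → ∀ (F : Pl N) (θ : ℝ),
      F.totalDegree ≤ E → (∀ u ∈ P.S, G u → Z u = Z ω → ι u = ι ω → |eval (x u) F| ≤ θ) →
      |eval (x v) F| ≤ c * θ) (hQ : Fn P Q fun ω => (ι ω, Z ω)) :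
    RG (glue P P Z Z) (fun v => x v.1) (fun v => Q v.2)
      (fun v => (R v.1 ∧ T v.1) ∧ R v.2 ∧ G v.2 ∧ T v.2) E (C + C')
      (c * b * a * 2 ^ ((C + C') * E)) k := by
  rintro v hv g f ⟨F, hF, e⟩ θ κ h1 h2
  obtain ⟨m1, m2, m3⟩ := (R4.kg.mem P P Z Z v (Law.rfl _)).1 hv
  have p : G39.Pl x E fun ω => eval (x ω) F := ⟨F, hF, fun _ => rfl⟩
  have k0 : 0 < κ := h0.trans_le h1
  have k1 : k' ≤ κ / 2 := by linarith
  have h3 := h2.trans ((pb_mono fun w _ u => ⟨⟨u.1.2.1, u.1.2.2.1⟩, u.1.1.1, e w ▸ u.2⟩).trans_eq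
    (fib P Z Q (fun ω => R ω ∧ G ω) (fun ω => R ω ∧ |eval (x ω) F| ≤ θ) hv))
  have h4 := G39.rev_markov _ (fun ω _ => mul_le_one₀ (ind_le _) (pb_nonneg _ _) (pb_le_one _ _))
    k0.le h3
  have h5 : κ / 2 ≤ pb (cv P Q (Q v.2)) fun ω =>
      G ω ∧ |eval (x ω) F| ≤ a * (κ / 2)⁻¹ ^ (C * E) * θ := h4.trans (pb_mono fun ω u w => by
    by_cases r : R ω ∧ G ω
    · rw [ind_pos r, one_mul] at w
      exact ⟨r.2, hR ω (cE_sub u) r.1 _ p θ _ k1 w⟩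
    · rw [ind_neg r, zero_mul] at w
      linarith)
  rw [e]
  refine (hT _ m2 g.2.2.2 _ m1 g.1.2 m3.symm F _ hF fun u u1 u2 u3 u4 => hG u u1 u2 _ p _ _ k1
    (by rw [hQ u u1 _ m2 (Prod.ext u4 u3)]; exact h5)).trans_eq ?_
  rw [inv_div, div_eq_mul_inv, add_mul, pow_add, pow_add, mul_pow, mul_pow]
  ring

theorem whp {Ω Ω' : ℕ → Type} {P : ∀ n, FP (Ω n)} {Q : ∀ n, FP (Ω' n)} {f : ∀ n, Ω' n → Ω n}
    (h : ∀ n, Law (Q n) (f n) (P n) id) {E : ∀ n, Ω n → Prop} (k : Whp P E) :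
    Whp Q fun n v => E n (f n v) := fun ε hε =>
  (k ε hε).mono fun n a => ((h n).pb_eq fun ω => ¬E n ω).trans_le a

end StRemPA

open StRemPA in
theorem rRemP : OfRemP := by
  intro tr N Ω Λ Λ' P M x Z ι Q C C' hM hZ hQ hι hF K E
  obtain ⟨R, a, r1, r2, r3⟩ := hZ (K + 1) E
  obtain ⟨G, b, g1, g2, g3⟩ := hQ (K + 1) E
  obtain ⟨T, c, t1, t2, t3⟩ := tr P M x Z ι G C E hM (by simpa using hZ 1) hι g1
  refine ⟨fun n v => (R n v.1 ∧ T n v.1) ∧ R n v.2 ∧ G n v.2 ∧ T n v.2,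
    fun n => c n * b n * a n * 2 ^ ((C + C') * E),
    (whp (fun n => R4.kg.fst (P n) (P n) (Z n) (Z n)) (r1.and t1)).and
      (whp (fun n => R4.kg.snd (P n) (P n) (Z n) (Z n) (Law.rfl _)) (r1.and (g1.and t1))),
    ((t2.mul g2).mul r2).mul (hM.sub (one_le_pow₀ one_le_two)), ?_⟩
  filter_upwards [r3, g3, t3, hF, G39.dl_lt hM one_half_pos one_pos] with n u1 u2 u3 u4 u5
  refine one (G39.dl_pos M K n) ?_ u1 u2 u3 u4
  rw [Nat.cast_succ, G39.dl_add]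
  linarith [mul_le_mul_of_nonneg_left u5.le (G39.dl_pos M K n).le]

end Pool.Agent.MP_5168f5_an.AN.St
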