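import Pool.Agent.MP_5168f5_an.AN.SpecS3
import Pool.Agent.MP_5168f5_an.AN.StRemP

/-! Steep windows: the Remez inequality between a point and its copy. -/

namespace Pool.Agent.MP_5168f5_an.AN.St

open H19 H17S H17F R4 Filter MvPolynomial
open G39 (nu RG dl REM Nm)
open Pk (cn mons)
open Nc (Pl ev jac NiceAt Bas)

namespace StXRaA

variable {Ω α : Type} {N d : ℕ} {P : FP Ω} {Z : Ω → α} {ι : Ω → ℕ} {v : Ω × Ω}

theorem mem (hv : v ∈ (glue P P Z Z).S) : v.1 ∈ P.S ∧ v.2 ∈ P.S ∧ Z v.2 = Z v.1 :=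
  (kg.mem P P Z Z v (Law.rfl _)).1 hv

theorem cg (hv : v ∈ (glue P P Z Z).S) :
    cv (glue P P Z Z) (fun w => (ι w.2, Z w.1)) (ι v.2, Z v.1) =
      cv (glue P P Z Z) (fun w => (ι w.2, Z w.2)) (ι v.2, Z v.2) :=
  cE_congr fun w hw => by simp only [(mem hv).2.2, (mem hw).2.2]

theorem s1 (hv : v ∈ (glue P P Z Z).S) (B : Ω → Prop) : S20.dn P ι Z v.2 *
    pb (cv (glue P P Z Z) (fun w => (ι w.2, Z w.1)) (ι v.2, Z v.1)) (fun w => B w.1) ≤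
      pb (cv P Z (Z v.2)) B := by
  have h := StRemPA.fib P Z (fun ω => (ι ω, Z ω)) (fun _ => True) B hv
  simp only [true_and, G39.ind_pos trivial, one_mul] at h
  rw [cg hv, h, FP.E_congr _ (G := fun _ => pb (cv P Z (Z v.2)) B) fun ω hω => by
    rw [show Z ω = Z v.2 from
      congrArg Prod.snd ((S20.mem_cv (A := fun ω => (ι ω, Z ω)) (mem hv).2.1 ω).1 hω).2],
    FP.E_const]
  exact mul_le_of_le_one_left (pb_nonneg _ _) (S20.dn_le_one _ _ _ _)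

theorem s2 (hv : v ∈ (glue P P Z Z).S) (B : Ω → Prop) : S20.dn P ι Z v.2 *
    pb (cv (glue P P Z Z) (fun w => (ι w.2, Z w.1)) (ι v.2, Z v.1)) (fun w => B w.2) ≤
      pb (cv P Z (Z v.2)) B := by
  rw [cg hv]
  exact (congrArg _ ((KEA.law _ P Prod.snd id (fun ω => (ι ω, Z ω) = (ι v.2, Z v.2))
    (kg.snd P P Z Z (Law.rfl _))).pb_eq B)).trans_le
    ((S20.dn_mul (mem hv).2.1 B).trans_le (pb_mono fun _ _ k => k.1))

/-- The inequality in one space. -/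
theorem one {x : Ω → V N} {Θ : Ω → Fin d → Pl N} {R : Ω → Prop} {s t : Ω × Ω → Ω} {E C D : ℕ}
    {Γ L k k' : ℝ} (h0 : 0 < k) (l0 : 0 < L) (hk : k' ≤ L⁻¹ * k) (hR : RG P x Z R (E * D) C Γ k')
    (hΘ : Fn P Θ fun ω => (ι ω, Z ω)) (hD : ∀ ω i, (Θ ω i).totalDegree ≤ D)
    (hs : ∀ v ∈ (glue P P Z Z).S, ∀ B : Ω → Prop, S20.dn P ι Z v.2 *
      pb (cv (glue P P Z Z) (fun w => (ι w.2, Z w.1)) (ι v.2, Z v.1)) (fun w => B (s w)) ≤
        pb (cv P Z (Z v.2)) B)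
    (ht : ∀ v ∈ (glue P P Z Z).S, t v ∈ P.S ∧ Z (t v) = Z v.2) :
    XG (glue P P Z Z) (fun v => ev (Θ v.2) (x (s v))) (fun v => ev (Θ v.2) (x (t v)))
      (fun v => (ι v.2, Z v.1)) E (C * D) k
      (fun v => (R (s v) ∧ R (t v)) ∧ 1 ≤ L * 1 * S20.dn P ι Z v.2) (Γ * L ^ (C * D * E)) := by
  intro v hv g F hF θ κ k1 k2
  have h2 : L⁻¹ ≤ S20.dn P ι Z v.2 := by
    rw [inv_le_iff_one_le_mul₀' l0]; simpa using g.2
  have h3 := (mul_le_mul h2 (k2.trans (pb_mono fun w hw e => ?_)) (h0.le.trans k1)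
    (pb_nonneg _ _)).trans (hs v hv fun u => R u ∧ |eval (x u) (aeval (Θ v.2) F)| ≤ θ)
  · rw [← Nc.eval_aeval]
    refine (hR _ (ht v hv).1 g.1.2 _ ⟨_, Nc.kc.deg _ _ _ _ hF (hD v.2), fun _ => rfl⟩ θ _
      (hk.trans (mul_le_mul_of_nonneg_left k1 (inv_pos.2 l0).le))
      ((ht v hv).2 ▸ h3)).trans_eq ?_
    rw [mul_inv, inv_inv, mul_pow, mul_comm E D, ← mul_assoc C]
    ring
  · obtain ⟨a, b⟩ := (S20.mem_cv (A := fun w : Ω × Ω => (ι w.2, Z w.1)) hv w).1 hw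
    rw [Nc.eval_aeval, ← hΘ _ (mem a).2.1 _ (mem hv).2.1
      (by simpa only [(mem hv).2.2, (mem a).2.2] using b)]
    exact ⟨e.1.1.1, e.2⟩

end StXRaA

open StXRaA in
theorem rXRa : XRa := by
  intro N d Ω Λ P M x Z ι Θ C D hM h hι hΘ hD
  obtain ⟨L, l1, l2⟩ := S20.gp_iff.1 ((S20.fs_idx0 hM hι Z).low hM (S20.fnE_const _))
  have f := fun n => kg.fst (P n) (P n) (Z n) (Z n)
  have s := fun n => kg.snd (P n) (P n) (Z n) (Z n) (Law.rfl _)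
  have k : ∀ K : ℕ, ∀ᶠ n in UF, dl M (K + 1 : ℕ) n ≤ (L n)⁻¹ * dl M K n := fun K =>
    (G39.sub_dl l1 one_pos).mono fun n l => by
      rw [Nat.cast_add, Nat.cast_one, add_comm, G39.dl_add]
      exact mul_le_mul_of_nonneg_right (le_inv_of_le_inv₀ (l1.pos n) l) (G39.dl_pos _ _ _).le
  constructor <;> intro K E <;> obtain ⟨G, Γ, a, b, c⟩ := h (K + 1) (E * D)
  · refine ⟨_, _, ((StRemPA.whp f a).and (StRemPA.whp s a)).and (StRemPA.whp s l2),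
      b.mul (l1.pow (C * D * E)), ?_⟩
    filter_upwards [c, k K, hΘ] with n c k e
    exact one (G39.dl_pos M K n) (l1.pos n) k c e (hD n) (fun _ => s1)
      fun v hv => ⟨(mem hv).2.1, rfl⟩
  · refine ⟨_, _, ((StRemPA.whp s a).and (StRemPA.whp f a)).and (StRemPA.whp s l2),
      b.mul (l1.pow (C * D * E)), ?_⟩
    filter_upwards [c, k K, hΘ] with n c k e
    exact one (G39.dl_pos M K n) (l1.pos n) k c e (hD n) (fun _ => s2)
      fun v hv => ⟨(mem hv).1, (mem hv).2.2.symm⟩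

end Pool.Agent.MP_5168f5_an.AN.St
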