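import Pool.Agent.MP_5168f5_an.AN.SpecS3

/-! Kakeya sets in all dimensions: the Remez inequality between two points, conditioning, noise. -/

namespace Pool.Agent.MP_5168f5_an.AN.St

open H19 H17S H17F R4 Filter MvPolynomial
open G39 (nu RG dl REM Nm)
open Pk (cn mons)
open Nc (Pl ev jac NiceAt Bas)

namespace StXRbA

open S20 G39

theorem xg_nz (N E : ℕ) : ∃ C₀ : ℝ, 1 ≤ C₀ ∧ ∀ {Ω β : Type} (P : FP Ω) (y y' : Ω → V N)
    (Z : Ω → β) (G : Ω → Prop) (C J h : ℕ) (Γ k0 k1 : ℝ), XG P y y' Z E C k0 G Γ → 0 < k0 →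
    2 * k0 ≤ k1 → C₀ * (C₀ / k0) ^ (N * E) ≤ 2 ^ J →
    XG (prod P (grid N J)) (blur (fun v => y v.1) (fun v => gp v.2) h)
      (blur (fun v => y' v.1) (fun v => gp v.2) h) (fun v => Z v.1) E (C + N) k1
      (fun v => G v.1) (C₀ * (2 * C₀) ^ (N * E) * 2 ^ (C * E) * Γ) := by
  obtain ⟨C₀, c1, r⟩ := grid_poly N E
  refine ⟨C₀, c1, fun P y y' Z G C J h Γ k0 k1 a k2 k3 k4 v hv g F hF θ κ k5 k6 => ?_⟩
  have v1 := ((mem_prod v).1 hv).1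
  have k7 : k0 ≤ κ / 2 := by linarith
  have k8 : 0 < κ := by linarith
  have e1 : ∀ (t : V N) (z : V N),
      eval z (shA 1 (((2 : ℝ) ^ h)⁻¹ • t) F) = eval (z + ((2 : ℝ) ^ h)⁻¹ • t) F := fun t z => by
    rw [eval_shA, one_smul, add_comm]
  rw [cv_prod v1, pb_prod'] at k6
  have k9 := (r J _ (deg_shA ((2 : ℝ) ^ h)⁻¹ (y' v.1) hF)).1 (Γ * (κ / 2)⁻¹ ^ (C * E) * θ) (κ / 2)
    (half_pos k8) (le_trans (by gcongr) k4) ((rev_markov _ (fun _ _ => pb_le_one _ _) k8.le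
      k6).trans (pb_mono fun t _ e => by
        have := a v.1 v1 g _ (deg_shA 1 (((2 : ℝ) ^ h)⁻¹ • gp t) hF) θ _ k7
          (e.trans (pb_mono fun u _ b => ⟨b.1, by rw [e1]; exact b.2⟩))
        rw [eval_shA, ← e1]
        exact this))
  refine (val_shA _ _ hF (gp_abs v.2)).trans (k9.trans_eq ?_)
  rw [add_mul, pow_add, div_div_eq_mul_div, div_eq_mul_inv, inv_div, div_eq_mul_inv, mul_pow,
    mul_pow, mul_pow, mul_pow]
  ring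

variable {d C : ℕ} {Ω Λ : ℕ → Type} {P : ∀ n, FP (Ω n)} {M J h : ℕ → ℕ}
  {y y' : ∀ n, Ω n → V d} {Z : ∀ n, Ω n → Λ n}

theorem xr_nz (hM : Big M) (hJ : Fine M J) (a : XR P M y y' Z C) :
    XR (NP P d J) M (blurs (pl (Nπ Ω d J) y) (Nξ Ω d J) h) (blurs (pl (Nπ Ω d J) y') (Nξ Ω d J) h)
      (pl (Nπ Ω d J) Z) (C + d) := by
  intro K E
  obtain ⟨G, Γ, g, s, a⟩ := a (K + 1) E
  obtain ⟨C₀, c1, r⟩ := xg_nz d E
  refine ⟨_, _, whp_pull g (law_N P d J), s.const_mul hM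
    (C := C₀ * (2 * C₀) ^ (d * E) * 2 ^ (C * E)) (one_le_mul_of_one_le_of_one_le
      (one_le_mul_of_one_le_of_one_le c1 (one_le_pow₀ (by linarith))) (one_le_pow₀ one_le_two)), ?_⟩
  filter_upwards [a, dl_lt hM one_half_pos one_pos,
    fine_ge hM hJ (C₀ * C₀ ^ (d * E)) ((d * E : ℕ) * ((K + 1 : ℕ) : ℝ))] with n a b c
  refine r _ _ _ _ _ _ _ _ _ _ _ a (dl_pos _ _ _) ?_ (le_of_eq_of_le ?_ c)
  · push_cast
    rw [dl_add]
    nlinarith [dl_pos M K n]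
  · rw [div_eq_mul_inv, mul_pow, dl_inv, ← Real.exp_nat_mul, mul_assoc, mul_assoc]

theorem xr_cE {E : ∀ n, Ω n → Prop} (hM : Big M) (hE : Pos P E) (h : XR P M y y' Z C) :
    XR (fun n => cE (P n) (E n)) M y y' Z C := fun K D => by
  obtain ⟨G, Γ, a, b, c⟩ := h (K + 1) D
  obtain ⟨L, l1, l2⟩ := sub_slow hM
  refine ⟨_, _, (a.cE hE).and (whp_ctx hE Z l2), b.mul (l1.pow (C * D)), ?_⟩
  filter_upwards [c, hE.sure, sub_dl l1 one_pos] with n c s l ω hω g f hf θ κ k1 k2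
  have l0 := l1.pos n
  have k0 := (dl_pos M K n).trans_le k1
  have h1 := pb_cv_cE (s ω hω).1 (s ω hω).2 (Z n) fun v => (G n v ∧
    (L n)⁻¹ ≤ pb (cv (P n) (Z n) (Z n v)) (E n)) ∧ |eval (y n v) f| ≤ θ
  refine (c ω (s ω hω).1 g.1 f hf θ ((L n)⁻¹ * κ) ?_ ((mul_le_mul g.2 k2 k0.le
    (pb_nonneg _ _)).trans (h1.trans_le (pb_mono fun _ _ e => ⟨e.2.1.1, e.2.2⟩)))).trans_eq ?_
  · rw [show ((K + 1 : ℕ) : ℝ) = 1 + K by push_cast; ring, dl_add]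
    exact mul_le_mul (le_inv_of_le_inv₀ l0 l) k1 (dl_pos _ _ _).le (inv_pos.2 l0).le
  · rw [mul_inv, inv_inv, mul_pow]
    ring

end StXRbA

theorem rXRb : XRb where
  cE _ _ _ _ _ _ _ hM hE h := StXRbA.xr_cE hM hE h
  cf := fun {_ Ω _} M y y' Z C => cf_all fun K : ℕ => cf_all fun E : ℕ =>
    cf_gd (S := fun n => FP (Ω n)) (W := fun n _ => Ω n) (fun _ s => s) (fun n _ => M n)
      fun n s => XG s (y n) (y' n) (Z n) E C (dl M K n)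
  nz _ _ _ _ _ _ _ _ hM hJ h := StXRbA.xr_nz hM hJ h

end Pool.Agent.MP_5168f5_an.AN.St
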