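import Pool.Agent.MP_5168f5_an.AN.SpecS3
import Pool.Agent.MP_5168f5_an.AN.S20LF

/-! Generic points are transferred by the two Remez inequalities. -/

namespace Pool.Agent.MP_5168f5_an.AN.St

open H19 H17S H17F R4 Filter MvPolynomial
open G39 (nu RG dl REM Nm)
open Pk (cn mons)
open Nc (Pl ev jac NiceAt Bas)

theorem rXT : XT := by
  intro d Ω Λ Λ' P M y y' Z S ν C h1 h2 hS h
  have hM := h.big
  refine ⟨hM, h.fn, fun E => ?_, fun E c F hc hF hE => ?_⟩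
  · obtain ⟨G1, Γ1, a1, b1, c1⟩ := h.up E
    obtain ⟨G2, Γ2, a2, b2, c2⟩ := h1 1 E
    refine ⟨_, _, a2.and (S20.whp_half (a1.and a2) Z),
      (b2.mul b1).const_mul hM (one_le_pow₀ one_le_two : (1 : ℝ) ≤ 2 ^ (C * E)), ?_⟩
    filter_upwards [c1, c2, hS, h.fn, G39.dl_lt hM (K := 1 / 2) (c := (1 : ℕ)) (by norm_num)
      (by norm_num)] with n c1 c2 s f l ω hω g F hF
    refine (c2 ω hω g.1 F hF (Γ1 n * ν n ω F) (1 / 2) l.le (g.2.trans (pb_mono fun v hv k => ?_))).trans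
      (le_of_eq ?_)
    · obtain ⟨v1, v2⟩ := (S20.mem_cv hω v).1 hv
      rw [← f v v1 ω hω (s v v1 ω hω v2)]
      exact ⟨k.2, c1 v v1 k.1 F hF⟩
    · rw [one_div, inv_inv]; ring
  · by_contra hn
    obtain ⟨G, Γ, a, b, e⟩ := h2 1 E
    obtain ⟨κ, k0, hk⟩ := (not_whp hn).and a
    refine Pos.not_whp (E := fun n ω => ¬dl M (c / 2) n * ν n ω (F n ω) ≤ |eval (y n ω) (F n ω)|)
      ⟨κ / 2, half_pos k0, ?_⟩ ((h.dn E (c / 2) F (half_pos hc) hF hE).mono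
        (Eventually.of_forall fun _ _ _ u => not_not.2 u))
    filter_upwards [e, hk, hS, h.fn, hF, G39.dl_lt hM (half_pos k0) (c := (1 : ℕ)) (by norm_num),
      G39.sub_dl (b.const_mul hM (C := 2 * max ((κ / 2)⁻¹ ^ (C * E)) 1)
        (by linarith [le_max_right ((κ / 2)⁻¹ ^ (C * E)) 1])) (half_pos hc)] with n e hk s f f' l m
    have r := S20.rare (P n) (Z n) (fun ω => ¬dl M c n * ν n ω (F n ω) ≤ |eval (y' n ω) (F n ω)| ∧
      G n ω) (half_pos k0).le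
    rw [pb_split _ _ fun ω => pb (cv (P n) (Z n) (Z n ω)) (fun ω => ¬dl M c n * ν n ω (F n ω) ≤
      |eval (y' n ω) (F n ω)| ∧ G n ω) ≤ κ / 2] at hk
    refine le_trans (by linarith) ((le_refl _).trans (pb_mono (P := P n) (E := fun ω =>
      (¬dl M c n * ν n ω (F n ω) ≤ |eval (y' n ω) (F n ω)| ∧ G n ω) ∧
      ¬pb (cv (P n) (Z n) (Z n ω)) (fun ω => ¬dl M c n * ν n ω (F n ω) ≤
        |eval (y' n ω) (F n ω)| ∧ G n ω) ≤ κ / 2) fun ω hω g => ?_))
    have h3 := e ω hω g.1.2 (F n ω) (hE n ω) (dl M c n * ν n ω (F n ω)) (κ / 2) l.le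
      ((not_le.1 g.2).le.trans (pb_mono fun v hv k => by
        obtain ⟨v1, v2⟩ := (S20.mem_cv hω v).1 hv
        rw [← f v v1 ω hω (s v v1 ω hω v2), ← f' v v1 ω hω (s v v1 ω hω v2)]
        exact ⟨k.2, (not_le.1 k.1).le⟩))
    have p1 := G39.dl_pos M (c / 2) n
    have p2 : 0 < ν n ω (F n ω) := (mul_pos_iff_of_pos_left (G39.dl_pos M c n)).1
      ((abs_nonneg _).trans_lt (not_le.1 g.1.1))
    rw [G39.dl_half M c n] at h3
    rw [← one_div (dl M (c / 2) n), le_div_iff₀ p1] at m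
    have p3 : Γ n * (κ / 2)⁻¹ ^ (C * E) * dl M (c / 2) n ≤ 1 / 2 := by
      have := mul_le_mul_of_nonneg_left (le_max_left ((κ / 2)⁻¹ ^ (C * E)) 1)
        (mul_pos (b.pos n) p1).le
      linarith
    have p4 := mul_le_mul_of_nonneg_right p3 (mul_pos p1 p2).le
    have p5 := mul_pos p1 p2
    exact not_le.2 (by linarith)

end Pool.Agent.MP_5168f5_an.AN.St
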