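import Pool.Agent.MP_5168f5_an.AN.StAll
import Pool.Agent.MP_5168f5_an.AN.StClo
import Pool.Agent.MP_5168f5_an.AN.StExt
import Pool.Agent.MP_5168f5_an.AN.StS0
import Pool.Agent.MP_5168f5_an.AN.StLat
import Pool.Agent.MP_5168f5_an.AN.StLatE
import Pool.Agent.MP_5168f5_an.AN.StPtK
import Pool.Agent.MP_5168f5_an.AN.StXRa
import Pool.Agent.MP_5168f5_an.AN.StXRb
import Pool.Agent.MP_5168f5_an.AN.StXT
import Pool.Agent.MP_5168f5_an.AN.GKOp
import Pool.Agent.MP_5168f5_an.AN.GG7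
import Pool.Agent.MP_5168f5_an.AN.GCel2
import Pool.Agent.MP_5168f5_an.AN.GHer2
import Pool.Agent.MP_5168f5_an.AN.GHer1
import Pool.Agent.MP_5168f5_an.AN.GNZ
import Pool.Agent.MP_5168f5_an.AN.G39Frm
import Pool.Agent.MP_5168f5_an.AN.EPKcn
import Pool.Agent.MP_5168f5_an.AN.EPKwh

/-! Kakeya sets in all dimensions: steep windows. -/

namespace Pool.Agent.MP_5168f5_an.AN

theorem St.g7 : G7 := ofG7 (rc cel1) kOp

theorem St.fill : FILL := ofFILL slow her1 her2 Gc.udc cel1 St.g7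

open St in
theorem steep0 (pk : OfPtK) : OfSteep :=
  steep_of rClo rExtC rS0 (lat_of ⟨rXRa, rXRb, rXT, pk En.rowPKcn En.rowPKwh,
    rLatE cel2 rOwn rNiG, fill, g7, kOp, cel1, nzs, rOwn, rCop rTR, rFatD rOwn⟩)

theorem ofSteep : OfSteep := steep0 St.rPtK

end Pool.Agent.MP_5168f5_an.AN
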