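import Pool.Agent.MP_5168f5_an.AN.GCel2

/-! Kakeya sets in all dimensions: a cell whose depth is close to the noise is almost filled. -/

namespace Pool.Agent.MP_5168f5_an.AN.Cx

open H19 H17S H17F Filter MvPolynomial R4 Vo
open Nc (Pl ev jac deg_jac kc eval_aeval)
open G39 (dl REM)
open S20 (dn)

variable {Ω Λ : ℕ → Type} {β : Bool → ℕ → Type} {N d C D E : ℕ} {P : ∀ n, FP (Ω n)} {M : ℕ → ℕ}
  {x : ∀ n, Ω n → V N} {Z : ∀ b n, Ω n → β b n} {A : ∀ n, Ω n → Λ n} {ν : ∀ n, Ω n → Pl N → ℝ}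
  {Θ : ∀ n, Ω n → Fin N → Pl N} {e : Fin d → Fin N}

/-- The norms are multiplicative. -/
theorem VH.mul (h : VH P M x A ν Θ D) (E : ℕ) : Wp P M fun n L ω => ∀ F G : Pl N,
    F.totalDegree ≤ E → G.totalDegree ≤ E → ν n ω F * ν n ω G ≤ L * ν n ω (F * G) := by
  refine (h.pick (h.gd (E + E)) E Bool).of h.big 1 3
    (h.fnu.mono fun n f L L' l l' ω hω k F G hF hG => ?_)
  obtain ⟨v, hv, a, b, c⟩ := k (fun o => bif o then F else G) fun o => by cases o <;> assumption
  have u := b (F * G) ((totalDegree_mul _ _).trans (add_le_add hF hG))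
  rw [f v hv ω hω a, map_mul, abs_mul] at u
  have := h.nn n ω (F * G)
  calc _ ≤ L * |eval (x n v) F| * (L * |eval (x n v) G|) :=
        mul_le_mul (c true) (c false) (h.nn _ _ _) (by positivity)
    _ = L * L * (|eval (x n v) F| * |eval (x n v) G|) := by ring
    _ ≤ L * L * (L * ν n ω (F * G)) := by gcongr
    _ = 1 * L ^ 3 * ν n ω (F * G) := by ring
    _ ≤ _ := by gcongr

theorem chs_sel (x : ∀ n, Ω n → V N) (e : Fin d → Fin N) :
    chs (fun _ _ i => X (e i)) x = fun n ω i => x n ω (e i) := by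
  funext n ω i
  simp [cht, ev]

theorem chs_ren {k : ℕ} (x : ∀ n, Ω n → V N) (e : Fin d → Fin N) (Ψ : ∀ n, Ω n → Fin k → Pl d) :
    chs (fun n ω i => rename e (Ψ n ω i)) x = chs Ψ fun n ω i => x n ω (e i) := by
  funext n ω i
  simp only [cht, ev, eval_rename]
  rfl

theorem nc_ren (P : ∀ n, FP (Ω n)) (x : ∀ n, Ω n → V N) (A : ∀ n, Ω n → Λ n) (e : Fin d → Fin N)
    (n : ℕ) (ω : Ω n) (F : Pl d) : nc (P n) (fun v i => x n v (e i)) (A n) ω F =
      nc (P n) (x n) (A n) ω (rename e F) := by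
  simp only [nc, eval_rename]
  rfl

theorem cm_sel (h : CM P M x Z A) (e : Fin d → Fin N) :
    CM P M (fun n ω i => x n ω (e i)) Z A :=
  chs_sel x e ▸ cm_comp h (S20.fnE_const _) fun _ _ _ => (totalDegree_X _).le

theorem rem_sel {K : ℝ} (h : REM P x M A C K) (e : Fin d → Fin N) :
    REM P (fun n ω i => x n ω (e i)) M A C K := fun E =>
  let ⟨G, Γ, a, b, c⟩ := h E
  ⟨G, Γ, a, b, c.mono fun _ u ω hω g f ⟨F, hF, z⟩ => u ω hω g f
    ⟨rename e F, (totalDegree_rename_le _ _).trans hF, fun v => by rw [z, eval_rename]; rfl⟩⟩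

theorem nz_sel (h : NZ P x A) (he : Function.Injective e) :
    NZ P (fun n ω i => x n ω (e i)) A := fun E =>
  (h E).mono (Eventually.of_forall fun n ω _ u F hF h0 => nc_ren P x A e n ω F ▸
    u _ ((totalDegree_rename_le _ _).trans hF) fun z =>
      h0 (rename_injective e he (z.trans (map_zero _).symm)))

theorem sure_sel (h : Sure P M x) (e : Fin d → Fin N) : Sure P M fun n ω i => x n ω (e i) :=
  h.imp fun _ k => ⟨k.1, k.2.mono fun n u ω hω => (pi_norm_le_iff_of_nonneg (k.1.pos n).le).2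
    fun i => (norm_le_pi_norm (x n ω) (e i)).trans (u ω hω)⟩

theorem frm_ren {k : ℕ} {Ψ : ∀ n, Ω n → Fin k → Pl d}
    (h : Frm P M (fun n ω i => x n ω (e i)) Z A Ψ D) :
    Frm P M x Z A (fun n ω i => rename e (Ψ n ω i)) D :=
  ⟨fnE_comp h.fn fun _ s i => rename e (s i),
    fun n ω i => (totalDegree_rename_le _ _).trans (h.deg n ω i),
    (congrArg (Bdd P M) (chs_ren x e Ψ)).mpr h.bd,
    (congrArg (MIN P M · Z) (chs_ren x e Ψ)).mpr h.min⟩

/-- The Jacobian of a frame of the other coordinates in a direction of large depth. -/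
theorem VH.base {y : ∀ n, Ω n → V (d + 1)} {ν : ∀ n, Ω n → Pl (d + 1) → ℝ}
    {Θ : ∀ n, Ω n → Fin (d + 1) → Pl (d + 1)} (h : VH P M y A ν Θ D) (b : Fin (d + 1))
    {Ψ : ∀ n, Ω n → Fin d → Pl d} {D' : ℕ} (hD : ∀ n ω i, (Ψ n ω i).totalDegree ≤ D')
    (hl : Wp P M fun n L ω => ∀ i, ν n ω (rename b.succAbove (Ψ n ω i)) ≤ L) (E : ℕ) :
    Wp P M fun n L ω => ∀ F : Pl (d + 1), F.totalDegree ≤ E →
      ν n ω (rename b.succAbove (jac (Ψ n ω))) * ν n ω (pderiv b F) ≤
        L * (ν n ω F * ν n ω (jac (Θ n ω))) := by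
  refine (((h.mul (d * D' + E)).and (h.der (D' + E))).and hl).of h.big 1 (d + 2)
    (Eventually.of_forall fun n L L' l l' ω _ ⟨⟨a, _, _, c, _⟩, u⟩ F hF => ?_)
  have a1 := a (rename b.succAbove (jac (Ψ n ω))) (pderiv b F) ((totalDegree_rename_le _ _).trans
    ((deg_jac (hD n ω)).trans (by omega))) ((kc.der F E b hF).2.trans (by omega))
  have c1 := c (b.insertNth F fun i => rename b.succAbove (Ψ n ω i)) fun i => by
    refine Fin.succAboveCases b ?_ (fun i => ?_) i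
    · rw [Fin.insertNth_apply_same]; omega
    · rw [Fin.insertNth_apply_succAbove]
      exact (totalDegree_rename_le _ _).trans ((hD n ω i).trans (by omega))
  rw [alg.blk, Fin.prod_univ_succAbove _ b] at c1
  simp only [Fin.insertNth_apply_same, Fin.insertNth_apply_succAbove] at c1
  have p1 : ∏ i, ν n ω (rename b.succAbove (Ψ n ω i)) ≤ L ^ d :=
    (Finset.prod_le_prod (fun i _ => h.nn _ _ _) fun i _ => u i).trans_eq (by simp)
  have := h.nn n ω F
  have := h.nn n ω (jac (Θ n ω))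
  calc _ ≤ L * (L * (ν n ω F * L ^ d) * ν n ω (jac (Θ n ω))) :=
        a1.trans (by gcongr; exact c1.trans (by gcongr))
    _ = 1 * L ^ (d + 2) * (ν n ω F * ν n ω (jac (Θ n ω))) := by ring
    _ ≤ _ := by gcongr

variable {y : ∀ n, Ω n → V (d + 1)} {j g : ℕ → ℕ}

theorem dn_ins {γ : ℕ → Type} {B : ∀ n, Ω n → γ n} {a a' : ∀ n, Ω n → ℝ} (hM : Big M)
    (b : Fin (d + 1)) (hA : FnE P A B)
    (h : Dn P M (fun n u => fl (j n) fun i => y n u (b.succAbove i)) A a)
    (h' : Dn P M (fun n u => fl1 (j n) (y n u b))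
      (fun n u => (B n u, fl (j n) fun i => y n u (b.succAbove i))) a') :
    Dn P M (fun n u => fl (j n) (y n u)) A fun n ω => a n ω * a' n ω :=
  (h.chain (h'.less hM (hA.mono fun _ z p hp q hq e => Prod.ext (congrArg Prod.snd e)
    (z p hp q hq (congrArg Prod.fst e))))).fn (Eventually.of_forall fun _ _ _ _ _ e =>
      Prod.ext (funext fun _ => congrFun (congrArg Prod.fst e) _) (congrFun (congrArg Prod.fst e) b))

theorem arith {L L' J f f' t e r q z T : ℝ} (l : 1 ≤ L) (l' : 1 * L ^ 5 ≤ L') (J0 : 0 ≤ J)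
    (f0 : 0 < f) (t0 : 0 < t) (e0 : 0 ≤ e) (r0 : 0 ≤ r) (c1 : q ≤ L * (z * r))
    (c2 : J * f' ≤ L * (f * T)) (c3 : z ≤ L * J) (c4 : t * f ≤ L * f') (c5 : T ≤ L * e) :
    q ≤ L' * (e / t * r) := by
  have l0 := zero_le_one.trans l
  have e1 : J * t ≤ L * L * (L * e) := by
    refine le_of_mul_le_mul_right ?_ f0
    have u1 := mul_le_mul_of_nonneg_left c4 J0
    have u2 := mul_le_mul_of_nonneg_left c2 l0
    have u3 := mul_le_mul_of_nonneg_left c5 (show 0 ≤ L * L * f by positivity)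
    linarith
  rw [← le_div_iff₀ t0] at e1
  calc _ ≤ L * (L * (L * L * (L * e) / t) * r) := c1.trans (by gcongr; exact c3.trans (by gcongr))
    _ = 1 * L ^ 5 * (e / t * r) := by ring
    _ ≤ _ := by gcongr

theorem light_of {Θ : ∀ n, Ω n → Fin (d + 1) → Pl (d + 1)} {D' : ℕ} {v r : ℕ → ℝ}
    {Ψ : Fin (d + 1) → ∀ n, Ω n → Fin d → Pl d} (hM : Big M) (hc : Cel P M y Z A Θ D)
    (hv : Vol P M y Θ v) (hg : DGe P M y A E g) (r0 : ∀ n, 0 ≤ r n)
    (f : ∀ b, Frm P M y Z A (fun n ω i => rename b.succAbove (Ψ b n ω i)) D')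
    (hD : ∀ b n ω i, (Ψ b n ω i).totalDegree ≤ D')
    (a : ∀ b, Dn P M (fun n u => fl (j n) (y n u)) A fun n ω =>
      |eval (y n ω) (rename b.succAbove (jac (Ψ b n ω)))| * r n) :
    Dn P M (fun n u => fl (j n) (y n u)) A fun n _ => Real.exp (v n) / 2 ^ g n * r n := by
  have w := cel_vh hM hc
  have b1 := wp_fin fun b => w.base b (hD b) (cm_le hc.cm (f b).fn (f b).deg (f b).bd) E
  have b3 := gp_wp hg fun _ _ _ _ _ l u => u.imp fun _ u => u.imp fun _ u => ⟨u.1, u.2.1,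
    u.2.2.trans (mul_le_mul_of_nonneg_right l (nc_nn _ _ _ _ _))⟩
  have b4 := ((((wp_fin (p := fun b n L ω => _ ≤ L * _) a).and b1).and (w.gd (d * D'))).and b3).and
    (w.vol_iff.1 hv).2
  refine b4.of hM 1 5 (Eventually.of_forall fun n L L' l l' ω _ u => ?_)
  obtain ⟨⟨⟨⟨c1, c2⟩, c3⟩, F, b, dF, F0, c4⟩, c5⟩ := u
  exact arith l l' (nc_nn _ _ _ _ _) F0 (by positivity) (Real.exp_pos _).le (r0 n) (c1 b) (c2 b F dF)
    (c3 _ ((totalDegree_rename_le _ _).trans (deg_jac (hD b n ω)))) c4 c5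

end Pool.Agent.MP_5168f5_an.AN.Cx

namespace Pool.Agent.MP_5168f5_an.AN

open H19 H17S H17F Filter MvPolynomial Cx Vo

theorem ul (hU : UDc) (hN : Nsy) (hG : G7) : UL := by
  intro Ω Λ k m d C D E P M h g j x ξ s A Θ v k₀ κ th hs su hc hf hv hg hn hA hj hh
  have hM := hs.big
  have sp := fun b => hN.spr b hM hj hh hn
  generalize blurs x ξ h = y at hs su hc hf hv hg sp ⊢
  obtain ⟨D0, hU⟩ := hU d C
  choose Ψ hΨ using fun b : Fin (d + 1) => hU Ω Λ _ P M (fun n ω i => y n ω (b.succAbove i))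
    (lab s) A hM (fun c K => rem_sel ((hs.kd c).rem K) _) (cm_sel hc.cm _)
    (nz_sel (cel_nz hM hc) Fin.succAbove_right_injective)
  have a := light_of (j := j) (r := fun n => 2 ^ h n / (2 ^ j n) ^ (d + 1)) hM hc hv hg
    (fun _ => by positivity) (fun b => frm_ren (hΨ b).frm) (fun b => (hΨ b).frm.deg) fun b => by
      have f := frm_ren (hΨ b).frm
      have u := hG Ω Λ k m _ d C D0 P M _ s A _ th hs hc.cm.com f (cel1.pw hM hc.cm f hf)
      rw [chs_ren] at u
      refine wp_mono (dn_ins (a' := fun n _ => 2 ^ h n / 2 ^ j n) hM b hA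
        (cel_up hM (hΨ b) (sure_sel su _) hj u) (gp_wl (by simpa only [mul_div_assoc] using sp b)
          (Eventually.of_forall fun _ _ _ => Or.inr (by positivity))))
        (Eventually.of_forall fun n L _ ω _ z => z.trans_eq ?_)
      simp only [eval_rename]
      rw [pow_succ, div_mul_div_comm, mul_div_assoc]
      rfl
  refine wp_gp (wp_mono a (Eventually.of_forall fun n L _ ω _ z => z.trans_eq ?_))
  rw [Real.exp_add, sub_mul, Real.exp_sub, ← log_two_pow, ← log_two_pow,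
    Real.exp_log (by positivity), Real.exp_log (by positivity)]
  ring

theorem ofUL (hU : UDc) : OfUL := fun _ _ _ hN _ _ hG => ul hU hN hG

end Pool.Agent.MP_5168f5_an.AN
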