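import Pool.Agent.MP_5168f5_an.AN.G39Ud
import Pool.Agent.MP_5168f5_an.AN.Cx
import Pool.Agent.MP_5168f5_an.AN.Defs

/-! The typical cell of a minimal label; the Remez inequality given a minimal label. -/

namespace Pool.Agent.MP_5168f5_an.AN.Gc

open H19 H17S H17F Filter MvPolynomial Cx
open G39 (nu RG dl REM NL Cell IND dl_pos dl_anti dl_lt dl_half)
open Nc (Pl)

variable {N C : ℕ} {Ω Λ T : ℕ → Type} {β : Bool → ℕ → Type} {P : ∀ n, FP (Ω n)} {M : ℕ → ℕ}
  {x : ∀ n, Ω n → V N} {Z : ∀ b n, Ω n → β b n} {A : ∀ n, Ω n → Λ n} {Y : ∀ n, Ω n → T n} {K : ℝ}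

/-- The two labels with values in one type. -/
abbrev sg (Z : ∀ b n, Ω n → β b n) : Bool → ∀ n, Ω n → Σ b, β b n := fun b n ω => ⟨b, Z b n ω⟩

theorem rem_sg {b : Bool} (h : REM P x M (Z b) C K) : REM P x M (sg Z b) C K := fun E => by
  obtain ⟨G, Γ, a, a', e⟩ := h E
  refine ⟨G, Γ, a, a', e.mono fun n u ω h1 h2 f hf θ κ h3 h4 => u ω h1 h2 f hf θ κ h3 ?_⟩
  rwa [cv_congr h1 (T := Z b n) (fun _ _ _ _ e => congrArg (Sigma.mk b) e)
    fun _ _ _ _ e => eq_of_heq (Sigma.mk.inj e).2] at h4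

/-- The Remez inequality for a finer variable holds in the typical cell. -/
theorem rem_cq (h : REM P x M Y C K) (hA : FnE P A Y) :
    ∀ᶠ w in lo P, REM (cq P A w) x M Y C K := lo_all fun E => by
  obtain ⟨G, Γ, a, a', e⟩ := h E
  filter_upwards [lo_whp' a A, lo_mem P] with w b c
  refine ⟨G, Γ, b, a', ?_⟩
  filter_upwards [e, hA, c] with n u v y ω h1 h2 f hf θ κ h3 h4
  obtain ⟨h5, h6⟩ := (mem_cv y ω).1 h1
  rw [Cx.cq, ← h6, cv_fn h5 v] at h4
  exact u ω h5 h2 f hf θ κ h3 h4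

theorem com_fn {α : ℕ → Type} {F : ∀ n, Ω n → α n} (h : FnE P F Y) :
    ∃ g : ∀ n, T n → α n, (∀ n z, ∃ ω, g n z = F n ω) ∧
      ∀ᶠ n in UF, ∀ ω ∈ (P n).S, g n (Y n ω) = F n ω := by
  have := nonempty P
  exact ⟨fun n z => F n (Classical.epsilon fun ω => ω ∈ (P n).S ∧ Y n ω = z), fun _ _ => ⟨_, rfl⟩,
    h.mono fun n u ω e => (fun k : _ ∧ _ => u _ k.1 ω e k.2)
      (Classical.epsilon_spec (p := fun v => v ∈ (P n).S ∧ Y n v = Y n ω) ⟨ω, e, rfl⟩)⟩

theorem nt_cq {ν : ∀ n, Λ n → Pl N → ℝ} (hA : Com P Z A) (h : NT P M x Z fun n ω => ν n (A n ω))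
    (E : ℕ) {c ε : ℝ} (hc : 0 < c) (hε : 0 < ε) :
    ∀ᶠ w in lo P, ∀ᶠ n in UF, ∀ F : ∀ b, β b n → Pl N, (∀ b z, (F b z).totalDegree ≤ E) →
      pb (cq P A w n) (fun v => F true (Z true n v) = F false (Z false n v) ∧
        |eval (x n v) (F true (Z true n v))| <
          dl M c n * ν n (A n (w n)) (F true (Z true n v))) ≤ ε := by
  let B : ∀ n, Λ n → (∀ b, β b n → Pl N) → Ω n → Prop := fun n a F v =>
    F true (Z true n v) = F false (Z false n v) ∧ |eval (x n v) (F true (Z true n v))| <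
      dl M c n * ν n a (F true (Z true n v))
  have : ∀ n, Nonempty {F : ∀ b, β b n → Pl N // ∀ b z, (F b z).totalDegree ≤ E} :=
    fun n => ⟨⟨fun _ _ => 0, fun _ _ => by simp⟩⟩
  choose F hF using fun n a => G39.exists_imp_of
    fun F : {F : ∀ b, β b n → Pl N // ∀ b z, (F b z).totalDegree ≤ E} =>
      ε < pb (cv (P n) (A n) a) (B n a F.1)
  choose g _ hg using fun b => com_fn (hA b)
  have h1 : Whp P fun n ω => ¬B n (A n ω) (F n (A n ω)).1 ω :=
    (h E c (fun b n z => (F n (g b n z)).1 b z) hc fun b n z => (F n _).2 b z).mono (by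
      filter_upwards [hg true, hg false] with n u v ω e k
      rwa [u ω e, v ω e] at k)
  filter_upwards [(lo_whp (G := fun n a ω => ¬B n a (F n a).1 ω)).2 h1] with w k
  refine (k ε hε).mono fun n u F' e => not_lt.1 fun z => (hF n _ ⟨⟨F', e⟩, z⟩).not_ge ?_
  exact (pb_mono fun _ _ => not_not.2).trans u

theorem nl_cq (hM : Big M) (h : CM P M x Z A) : ∀ᶠ w in lo P, NL (cq P A w) x M (sg Z) := by
  classical
  filter_upwards [lo_all fun E => lo_all fun i : ℕ => lo_all fun j : ℕ => nt_cq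
    (ν := fun n a F => nu (cv (P n) (A n) a) fun v => eval (x n v) F) h.com h.nt E (c := 1 / (i + 1))
    (ε := 1 / (j + 1)) (by positivity) (by positivity)] with w k E c F hc hF ε hε
  obtain ⟨i, hi⟩ := exists_nat_one_div_lt (half_pos hc)
  obtain ⟨j, hj⟩ := exists_nat_one_div_lt hε
  let q : ∀ n, (Ω n → ℝ) → Pl N := fun n f => if e : G39.Pl (x n) E f then e.choose else 0
  have hq : ∀ a n z, (q n (F a n z)).totalDegree ≤ E ∧
      F a n z = fun u => eval (x n u) (q n (F a n z)) := fun a n z => by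
    simp only [q, dif_pos (hF a n z)]
    exact ⟨(hF a n z).choose_spec.1, funext (hF a n z).choose_spec.2⟩
  filter_upwards [k E i j, dl_lt hM one_pos (half_pos hc)] with n u v
  refine (pb_mono fun ω _ e => ?_).trans ((u (fun b z => q n (F b n ⟨b, z⟩))
    fun b z => (hq _ _ _).1).trans hj.le)
  obtain ⟨e1, e2, e3⟩ := not_not.1 e
  refine ⟨congrArg (q n) e1, ?_⟩
  rw [← (hq _ _ _).2, ← congrFun (hq _ _ _).2 ω]
  refine e3.trans_lt (mul_lt_mul_of_pos_right (lt_of_lt_of_le ?_ (dl_anti M hi.le n)) e2)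
  rw [dl_half]
  exact mul_lt_of_lt_one_left (dl_pos _ _ _) v

/-- The typical cell of a minimal label is a minimal cell. -/
theorem cm_cell (hM : Big M) (hK : 0 < K) (hR : ∀ b, REM P x M (Z b) C K) (h : CM P M x Z A) :
    ∀ᶠ w in lo P, Cell (cq P A w) x M (sg Z) C K := by
  filter_upwards [nl_cq hM h, rem_cq (hR true) (h.com true), rem_cq (hR false) (h.com false)]
    with w a b c
  exact ⟨hM, hK, fun s => by cases s; exacts [rem_sg c, rem_sg b], a⟩

theorem rem_of_cq (h : ∀ᶠ w in lo P, REM (cq P A w) x M (fun _ _ => ()) C K) :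
    REM P x M A C K := fun E => by
  let q : ℕ → ∀ n, Λ n → (Ω n → Prop) → Prop := fun j n a G =>
    pb (cv (P n) (A n) a) (fun ω => ¬G ω) ≤ 1 / (j + 1) ∧ RG (cv (P n) (A n) a) (x n) (fun _ => ())
      G E C (Real.exp (1 / (j + 1) * M n)) (dl M K n)
  obtain ⟨k, k1, k2⟩ := G39.whp_diag (G := fun j n ω => ∃ G, q j n (A n ω) G) fun j =>
    lo_ev.1 (h.mono fun w u => by
      obtain ⟨G, Γ, a, b, c⟩ := u E
      have : (0 : ℝ) < 1 / (j + 1) := by positivity
      filter_upwards [a _ this, b.2 _ this, c] with n a b c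
      exact ⟨G n, a, c.mono (dl_pos _ _ _) (fun _ e => e) b⟩)
  choose G hG using fun n a => G39.exists_imp_of (q (k n) n a)
  have k3 := k2.mono (F := fun n ω => q (k n) n (A n ω) (G n (A n ω)))
    (Eventually.of_forall fun n ω _ u => hG n _ (u _ le_rfl))
  refine ⟨_, fun n => Real.exp (1 / (k n + 1) * M n), k3.and ((lo_whp (G := G)).1
    ((lo_ev.2 k3).mono fun w u ε hε => ?_)), ⟨fun n => Real.one_le_exp (by positivity),
    fun ε hε => (R4.K31.small hε k1).mono fun n u => ex_le M u n⟩,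
    Eventually.of_forall fun n ω h1 h2 f hf θ κ h3 h4 => h2.1.2 ω ((mem_cv h1 ω).2 ⟨h1, rfl⟩) h2.2
      f hf θ κ h3 ?_⟩
  · filter_upwards [u, R4.K31.small hε k1] with n a b using a.1.trans b
  · rw [cv_unit]
    exact h4.trans (pb_mono fun v e e' => ⟨((mem_cv h1 v).1 e).2 ▸ e'.1.2, e'.2⟩)

/-- The Remez inequality given a minimal label. -/
theorem remC {K' : ℝ} (hM : Big M) (hK : 0 < K) (hK' : K' < K) (hR : ∀ b, REM P x M (Z b) C K)
    (h : CM P M x Z A) : REM P x M A ((N + 1) * C) K' :=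
  rem_of_cq ((cm_cell hM hK hR h).mono fun _ a => G39.rRemC _ _ _ _ _ _ _ _ _ _ a hK')

theorem remC' (hM : Big M) (hR : ∀ b (K : ℕ), REM P x M (Z b) C K) (h : CM P M x Z A) (K : ℕ) :
    REM P x M A ((N + 1) * C) K :=
  remC (K := (K + 1 : ℕ)) hM (by positivity) (by simp) (fun b => hR b _) h

end Pool.Agent.MP_5168f5_an.AN.Gc
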