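import Pool.Agent.MP_5168f5_an.AN.G39Defs

/-! More than `d` polynomials in `d` variables are algebraically dependent. -/

namespace Pool.Agent.MP_5168f5_an.AN.G39

open MvPolynomial

namespace G39DepA

/-- A bounded exponent vector. -/
noncomputable def tf {k s : ℕ} (a : Fin k → Fin s) : Fin k →₀ ℕ :=
  Finsupp.equivFunOnFinite.symm fun i => (a i : ℕ)

theorem tf_inj {k s : ℕ} {a b : Fin k → Fin s} (h : tf a = tf b) : a = b :=
  funext fun i => Fin.ext (congrArg (fun m : Fin k →₀ ℕ => m i) h)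

theorem tf_sum {k s : ℕ} (a : Fin k → Fin (s + 1)) : ∑ i, (a i : ℕ) ≤ k * s := by
  refine (Finset.sum_le_card_nsmul _ _ s fun i _ => Nat.lt_succ_iff.1 (a i).2).trans ?_
  simp

theorem rel {d B : ℕ} {J : Type} [Fintype J] (G : J → MvPolynomial (Fin d) ℝ)
    (hG : ∀ a, (G a).totalDegree ≤ B) (h : (B + 1) ^ d < Fintype.card J) :
    ∃ c : J → ℝ, c ≠ 0 ∧ ∑ a, c a • G a = 0 := by
  let L : (J → ℝ) →ₗ[ℝ] (Fin d → Fin (B + 1)) → ℝ :=
    LinearMap.pi fun m => lcoeff ℝ (tf m) ∘ₗ Fintype.linearCombination ℝ G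
  obtain ⟨c, h1, h2⟩ := (Submodule.ne_bot_iff _).1 (LinearMap.ker_ne_bot_of_finrank_lt (f := L)
    (by simpa using h))
  refine ⟨c, h2, MvPolynomial.ext _ _ fun m => ?_⟩
  by_cases e : ∀ i, m i < B + 1
  · have e1 : tf (fun i => (⟨m i, e i⟩ : Fin (B + 1))) = m := Finsupp.ext fun _ => rfl
    have e2 := congrFun (LinearMap.mem_ker.1 h1) fun i => ⟨m i, e i⟩
    simpa [L, e1, Fintype.linearCombination_apply, coeff_sum] using e2
  · push Not at e
    obtain ⟨i, hi⟩ := e
    rw [coeff_sum, coeff_zero]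
    refine Finset.sum_eq_zero fun a _ => ?_
    rw [coeff_smul, coeff_eq_zero_of_totalDegree_lt, smul_zero]
    refine ((hG a).trans_lt hi).trans_le ?_
    exact Finset.single_le_sum (f := fun j => m j) (fun _ _ => Nat.zero_le _)
      (Finsupp.mem_support_iff.2 (by omega))

end G39DepA

open G39DepA in
theorem rDep : Dep := by
  intro d D
  obtain ⟨s, hs⟩ : ∃ s, s = (D * (d + 1) + 1) ^ d := ⟨_, rfl⟩
  refine ⟨(d + 1) * s, fun Ω x ψ hψ => ?_⟩
  choose F h1 h2 using hψ
  obtain ⟨c, c0, hc⟩ := rel (B := D * ((d + 1) * s))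
    (fun a : Fin (d + 1) → Fin (s + 1) => ∏ i, F i ^ (a i : ℕ)) (fun a => by
      refine (totalDegree_finsetProd _ _).trans ((Finset.sum_le_sum fun i _ =>
        (totalDegree_pow _ _).trans (Nat.mul_le_mul_left _ (h1 i))).trans ?_)
      rw [← Finset.sum_mul, mul_comm]
      exact Nat.mul_le_mul_left _ (tf_sum a)) (by
      have e1 : (D * ((d + 1) * s) + 1) ^ d ≤ ((D * (d + 1) + 1) * (s + 1)) ^ d :=
        Nat.pow_le_pow_left (by nlinarith [Nat.zero_le (D * (d + 1))]) d
      rw [mul_pow, ← hs] at e1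
      simp only [Fintype.card_fun, Fintype.card_fin]
      rw [pow_succ']
      exact e1.trans_lt (Nat.mul_lt_mul_of_pos_right (Nat.lt_succ_self s) (by positivity)))
  obtain ⟨a₀, ha⟩ := Function.ne_iff.1 c0
  refine ⟨∑ a, monomial (tf a) (c a / c a₀), tf a₀, ?_, ?_, fun ω => ?_⟩
  · refine totalDegree_finsetSum_le fun a _ => (totalDegree_monomial_le _ _).trans ?_
    rw [Finsupp.sum_fintype _ _ fun _ => rfl]
    exact tf_sum a
  · rw [coeff_sum, Finset.sum_eq_single a₀ (fun a _ e => by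
      rw [coeff_monomial, if_neg fun k => e (tf_inj k)]) (by simp), coeff_monomial, if_pos rfl]
    exact div_self ha
  · have e := congrArg (eval (x ω)) hc
    simp only [map_sum, smul_eval, map_prod, map_pow, map_zero, ← h2] at e
    simp only [ev, map_sum, eval_monomial, div_mul_eq_mul_div, ← Finset.sum_div]
    refine div_eq_zero_iff.2 (Or.inl (Eq.trans (Finset.sum_congr rfl fun a _ => ?_) e))
    rw [Finsupp.prod_fintype _ _ fun _ => pow_zero _]
    rfl

end Pool.Agent.MP_5168f5_an.AN.G39
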