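import Pool.Agent.MP_5168f5_an.AN.LWin
import Pool.Agent.MP_5168f5_an.AN.GCel1
import Pool.Agent.MP_5168f5_an.AN.G39Ctx
import Pool.Agent.MP_5168f5_an.AN.G39Dep
import Pool.Agent.MP_5168f5_an.AN.N2Alg

/-! A cell is not close to a parametrised hypersurface. -/

namespace Pool.Agent.MP_5168f5_an.AN.LC

open H19 H17S H17F R4 Filter MvPolynomial
open G39 (dl REM)
open Pk (cn)
open Nc (Pl ev kc)
open GA (Mt)
open N2 (nf ny)

/-- Small values of a polynomial on a minimal cell are rare. -/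
theorem sb_cell {Ω Λ : ℕ → Type} {β : Bool → ℕ → Type} {N C : ℕ} {K c : ℝ} {P : ∀ n, FP (Ω n)}
    {M : ℕ → ℕ} {x : ∀ n, Ω n → V N} {Z : ∀ b n, Ω n → β b n} {A : ∀ n, Ω n → Λ n}
    (cm : CM P M x Z A) (rem : REM P x M A C K) (E : ℕ) (hc : 0 < c) :
    ∃ G, Whp P G ∧ ∀ᶠ n in UF, ∀ ω ∈ (P n).S, G n ω → ∀ F : Pl N, F.totalDegree ≤ E →
      ∀ θ κ : ℝ, dl M K n ≤ κ →
        κ ≤ pb (cv (P n) (A n) (A n ω)) (fun v => G n v ∧ |eval (x n v) F| ≤ θ) →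
        nc (P n) (x n) (A n) ω F ≤ Real.exp (c * M n) ^ 2 * κ⁻¹ ^ (C * E) * θ := by
  obtain ⟨G, Γ, a, b, e⟩ := rem E
  refine ⟨_, (a.and (S20.whp_half a A)).and (Cx.whp_unif (P := P) (Q := A)
    (A := fun _ => {F : Pl N // F.totalDegree ≤ E}) (fun _ => ⟨⟨0, by simp⟩⟩)
    (G := fun n q F v => Nc.nuP (cv (P n) (A n) q) (x n) F.1 ≤
      Real.exp (c * M n) * |eval (x n v) F.1|)
    (fun a => Cx.cm_low cm (F := fun n ω => (a n (A n ω)).1) (Eventually.of_forall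
      fun _ _ _ _ _ e => by simp only [e]) (fun n ω => (a n (A n ω)).2) c hc)
    (by positivity : (0 : ℝ) < 1 / 4)), ?_⟩
  filter_upwards [e, b.2 c hc] with n e u ω hω ⟨⟨_, g1⟩, g2⟩ F hF θ κ k1 k2
  obtain ⟨v, hv, g3, g4⟩ : ∃ v ∈ (cv (P n) (A n) (A n ω)).S, G n v ∧
      nc (P n) (x n) (A n) ω F ≤ Real.exp (c * M n) * |eval (x n v) F| := by
    by_contra! h
    linarith [g1.trans ((pb_mono fun v hv k => (h v hv k).not_ge).trans (g2 ⟨F, hF⟩))]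
  obtain ⟨h1, h2⟩ := (Cx.mem_cv hω v).1 hv
  have k3 := k2.trans (pb_mono (F := fun v => G n v ∧ |eval (x n v) F| ≤ θ) fun _ _ k =>
    ⟨k.1.1.1, k.2⟩)
  have k0 := (G39.dl_pos M K n).trans_le k1
  obtain ⟨_, -, -, t⟩ := ex_of_pb (k0.trans_le k3)
  have t0 := (abs_nonneg _).trans t
  refine g4.trans ((mul_le_mul_of_nonneg_left ((e v h1 g3 _ ⟨F, hF, fun _ => rfl⟩ θ κ k1
    (h2 ▸ k3)).trans (?_ : _ ≤ Real.exp (c * M n) * κ⁻¹ ^ (C * E) * θ))
    (Real.exp_pos _).le).trans_eq (by ring))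
  gcongr

theorem bg_core {d m E E' : ℕ} (dep : ∀ (Ω : Type) (x : Ω → Fin d → ℝ) (ψ : Fin (d + 1) → Ω → ℝ),
      (∀ i, G39.Pl x E (ψ i)) → ∃ (H : Pl (d + 1)) (k : Fin (d + 1) →₀ ℕ),
        H.totalDegree ≤ E' ∧ coeff k H = 1 ∧ ∀ ω, G39.ev ψ H ω = 0)
    {F : Fin m → Pl (d + 1)} {Θ : Fin (d + 1) → Pl (d + 1)} {c : Fin (d + 1) → Fin m → ℝ}
    (hΘ : ∀ i, Θ i = ∑ p, c i p • F p) (u : Mt (Fin m)) {L δ : ℝ} (hL : 1 ≤ L)
    (hc : ∀ i p, |c i p| ≤ L ^ 2) (hu : ∀ p q, |u p q| ≤ L) (h0 : 0 ≤ δ)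
    (h1 : (m + m ^ 2) * L ^ 3 * δ ≤ 1) {s : Fin m → Pl d} (hs : ∀ p, (s p).totalDegree ≤ E) :
    ∃ H : Pl (d + 1), H.totalDegree ≤ E' ∧ 1 ≤ cn H ∧ ∀ (y : V (d + 1)) (g : V m) (q : V d),
      ‖ev Θ y‖ ≤ L → (∀ p, |eval y (F p) - ∑ l, u p l * g l| ≤ δ) → ‖g - ev s q‖ ≤ δ →
      |eval y (aeval Θ H)| ≤ E' * cn H * (2 * L) ^ E' * ((m + m ^ 2) * L ^ 3 * δ) := by
  obtain ⟨H, k, a, b, e⟩ := dep (V d) id (fun i q => ∑ p, c i p * ∑ l, u p l * ev s q l) fun i =>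
    ⟨∑ p, c i p • ∑ l, u p l • s l, totalDegree_finsetSum_le fun p _ =>
      (totalDegree_smul_le _ _).trans (totalDegree_finsetSum_le fun l _ =>
        (totalDegree_smul_le _ _).trans (hs l)), fun q => by simp [ev]⟩
  refine ⟨H, a, by simpa [b] using kc.coeff H k, fun y g q k1 k2 k3 => ?_⟩
  have l0 : 0 ≤ L := by linarith
  have key : ∀ i, |ev Θ y i - ∑ p, c i p * ∑ l, u p l * ev s q l| ≤ (m + m ^ 2) * L ^ 3 * δ :=
    fun i => by
    have w : ev Θ y i = ∑ p, c i p * eval y (F p) := by simp [ev, hΘ i]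
    rw [w, ← Finset.sum_sub_distrib]
    refine (Finset.abs_sum_le_sum_abs _ _).trans ((Finset.sum_le_card_nsmul _ _
      (L ^ 2 * (L * δ + m * (L * δ))) fun p _ => ?_).trans_eq (by simp; ring))
    rw [← mul_sub, abs_mul]
    refine mul_le_mul (hc i p) ((abs_sub_le _ _ _).trans (add_le_add ((k2 p).trans
      (le_mul_of_one_le_left h0 hL)) ?_)) (abs_nonneg _) (by positivity)
    rw [← Finset.sum_sub_distrib]
    refine (Finset.abs_sum_le_sum_abs _ _).trans ((Finset.sum_le_card_nsmul _ _ (L * δ)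
      fun l _ => ?_).trans_eq (by simp))
    rw [← mul_sub, abs_mul]
    exact mul_le_mul (hu p l) ((norm_le_pi_norm (g - ev s q) l).trans k3) (abs_nonneg _) l0
  have z := kc.lip H E' (2 * L) ((m + m ^ 2) * L ^ 3 * δ) (ev Θ y)
     (fun i => ∑ p, c i p * ∑ l, u p l * ev s q l) a (by linarith) (by positivity) fun i => by
      have t : |ev Θ y i| ≤ L := (norm_le_pi_norm _ i).trans k1
      have t' := abs_le.1 ((key i).trans h1)
      rw [abs_le] at t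
      exact ⟨abs_le.2 ⟨by linarith, by linarith⟩, abs_le.2 ⟨by linarith, by linarith⟩, key i⟩
  rwa [show eval (fun i => ∑ p, c i p * ∑ l, u p l * ev s q l) H = 0 from e q, sub_zero,
    ← Nc.eval_aeval] at z

theorem sBg : SBg := by
  intro d m Ω Λ k P M x s C C' ml t S Θ W τ J D la c w σ o eb j jr md
  choose E' dep using G39.rDep d
  refine ⟨fun E => (d + 1 + 1) * C * (E' E * D), fun Λ' O D' cc mg E a r => ?_⟩
  have hM := w.glo.big
  rcases (zero_le : 0 ≤ r).eq_or_lt with rfl | r0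
  · exact ⟨fun _ _ => True, _, Whp.of_ev (Eventually.of_forall fun _ _ _ => trivial), sub_one M,
      Eventually.of_forall fun n ω _ _ _ _ => (pb_le_one _ _).trans (by simp)⟩
  have a0 : (0 : ℚ) ≤ a := a.2
  have r1 : (0 : ℝ) < r := by exact_mod_cast r0
  have hc : 0 < (r : ℝ) / (E' E + 7 : ℕ) := by positivity
  have cl := w.cel a
  obtain ⟨G, g1, g2⟩ := sb_cell cl.cm (Gc.remC' hM (w.rem a) cl.cm ⌈(r : ℝ)⌉₊) (E' E * D) hc
  refine ⟨_, _, (((((g1.and (Cx.frm_ind hM cl.frm cl.cm.com (E' E) _ hc)).and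
    (Cx.cm_le cl.cm cl.frm.fn cl.frm.deg cl.frm.bd _ hc)).and (Cx.bdd_wp cl.frm.bd _ hc)).and
    (Cx.gp_wp (md.dg a a0) (fun n ω _ _ _ l h => ⟨h.1, h.2.mono (Cx.nc_nn _ _ _ _)
      (fun _ => zero_le_one) l⟩) _ hc)).and (Cx.gp_wp (md.inc a a0) (fun n ω _ _ _ l h p q =>
      (h p q).trans (mul_le_mul_of_nonneg_right l (G39.dl_pos _ _ _).le)) _ hc)).and
    (md.pos a ((((d + 1 + 1) * C * (E' E * D) : ℕ) + 1) * r) a0), sub_one M, ?_⟩
  filter_upwards [g2, md.fe, md.fj a a0, w.nest 0 a a0, cl.frm.fn,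
    G39.big_dl hM ((E' E + 1) * 2 ^ E' E * (m + m ^ 2) + 1) hc] with
    n g2 f1 f2 f3 f4 b ω hω ⟨⟨⟨⟨⟨⟨y0, y1⟩, y2⟩, _⟩, y4, y5⟩, y6⟩, _⟩ q hq
  rw [G39.dl_inv] at b
  have Lp : Real.exp (r / (E' E + 7 : ℕ) * M n) ^ (E' E + 7) * Real.exp (-(r * M n)) = 1 := by
    rw [← Real.exp_nat_mul, ← Real.exp_add, ← mul_assoc, mul_div_cancel₀ _ (by positivity)]
    simp
  have dp : (Real.exp (-(r * M n)))⁻¹ ^ ((d + 1 + 1) * C * (E' E * D)) *
      dl M ((((d + 1 + 1) * C * (E' E * D) : ℕ) + 1) * r) n = Real.exp (-(r * M n)) := by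
    rw [← Real.exp_neg, ← Real.exp_nat_mul, dl, ← Real.exp_add]
    congr 1
    ring
  have dl1 : dl M ((((d + 1 + 1) * C * (E' E * D) : ℕ) + 1) * r) n ≤ Real.exp (-(r * M n)) :=
    G39.dl_anti M (le_mul_of_one_le_left r1.le (le_add_of_nonneg_left (Nat.cast_nonneg _))) n
  have d0 := G39.dl_pos M ((((d + 1 + 1) * C * (E' E * D) : ℕ) + 1) * r) n
  have k0 := Real.exp_pos (-(r * M n))
  have L1 : 1 ≤ Real.exp (r / (E' E + 7 : ℕ) * M n) := Real.one_le_exp (by positivity)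
  generalize Real.exp (r / (E' E + 7 : ℕ) * M n) = L at *
  have W1 : (m + m ^ 2 : ℝ) ≤ L := by
    have : (1 : ℝ) ≤ (E' E + 1) * 2 ^ E' E := one_le_mul_of_one_le_of_one_le
      (le_add_of_nonneg_left (Nat.cast_nonneg _)) (one_le_pow₀ one_le_two)
    nlinarith [(by positivity : (0 : ℝ) ≤ m + m ^ 2)]
  choose co hco using fun i => y4.2 (Θ a n ω i) (cl.frm.deg n ω i)
  obtain ⟨H, H1, H2, H3⟩ := bg_core (dep E) hco (fun p l => (dl M (la p * (a : ℚ)) n)⁻¹ *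
    ((jr a n ω)⁻¹ * j n ω) p l * dl M (la l * (a : ℚ)) n) L1 (fun i p => by
      have := y5.2 (co i) p
      rw [mul_one, ← hco i] at this
      exact this.trans ((mul_le_mul_of_nonneg_left (y2 i) (by linarith)).trans_eq (by ring)))
    (fun p l => by
      have := mul_le_mul_of_nonneg_right (y6 p l) (G39.dl_pos M (la l * (a : ℚ)) n).le
      rw [mul_assoc, ← G39.dl_add, ← add_mul, sub_add_cancel] at this
      rwa [mul_assoc, abs_mul, abs_mul, abs_of_pos (G39.dl_pos _ _ _), abs_inv,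
        abs_of_pos (G39.dl_pos _ _ _), inv_mul_le_iff₀' (G39.dl_pos _ _ _)]) d0.le (by
      refine le_trans ?_ Lp.le
      refine mul_le_mul ((mul_le_mul_of_nonneg_right W1 (by positivity)).trans ?_) dl1 d0.le
        (by positivity)
      rw [← pow_succ']
      exact pow_le_pow_right₀ L1 (by omega)) hq
  by_contra! h
  rw [one_mul, show (mkX la P M j S O n).fb false a ω = cv (P n) (S a n) (S a n ω) from
    Cx.cv_congr hω (fun _ _ _ _ e => congrArg Sum.inl e) fun _ _ _ _ e => Sum.inl.inj e] at h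
  have z := y1 H H1
  have z' := g2 ω hω y0 _ (kc.deg _ _ _ _ H1 (cl.frm.deg n ω)) _ (Real.exp (-(r * M n)))
    (G39.dl_anti M (Nat.le_ceil _) n) (h.le.trans (pb_mono fun v hv ⟨⟨⟨⟨⟨⟨⟨v0, _⟩, _⟩, v3⟩, _⟩, _⟩, v7⟩, q', v8⟩ => ⟨v0, by
      obtain ⟨i1, i2⟩ := (Cx.mem_cv hω v).1 hv
      refine H3 (x n v) _ q' (f4 v i1 ω hω i2 ▸ v3) (fun p => ?_) (v8.trans_eq (by
        simp only [dl, mul_assoc]; rfl))
      have t := v7 p
      rw [f1 v i1 ω hω (f3 v i1 ω hω i2), f2 v i1 ω hω i2, ny, ← Matrix.mul_nonsing_inv_cancel_left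
        _ (j n v) (md.uj n ω).det, ← Matrix.mul_assoc, Matrix.mul_apply, Finset.mul_sum] at t
      refine (congrArg _ (congrArg _ (Finset.sum_congr rfl fun l _ => ?_))).trans_le t
      have e : dl M (la l * (a : ℚ)) n * Real.exp (la l * (a * M n)) = 1 := by
        rw [dl, ← Real.exp_add, Rat.cast_nnratCast, mul_assoc, neg_add_cancel, Real.exp_zero]
      change _ * (Real.exp (la l * (a * M n)) * ((j n ω)⁻¹ * j n v) l o) = _
      rw [mul_assoc, mul_assoc, ← mul_assoc (dl M _ n), e, one_mul]⟩))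
  have z1 : cn H ≤ cn H * (E' E * 2 ^ E' E * (m + m ^ 2) * L ^ (E' E + 6) *
      Real.exp (-(r * M n))) := (z.trans (mul_le_mul_of_nonneg_left z' (by linarith))).trans_eq (by
    conv_rhs => rw [← dp]
    ring)
  rw [le_mul_iff_one_le_right (by linarith), ← Lp, pow_succ' L (E' E + 6)] at z1
  have z2 := le_of_mul_le_mul_right (le_of_mul_le_mul_right z1 k0) (by positivity)
  nlinarith [(by positivity : (0 : ℝ) ≤ 2 ^ E' E * (m + m ^ 2))]

end Pool.Agent.MP_5168f5_an.AN.LC
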