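import Pool.Agent.MP_5168f5_an.AN.LECur
import Pool.Agent.MP_5168f5_an.AN.GCel2

/-! The entrance to the light class: curves. -/

namespace Pool.Agent.MP_5168f5_an.AN.N2

open H19 H17S H17F R4 Filter MvPolynomial Finset Function
open G39 (dl dl_pos dl_add dl_anti dl_inv)
open Nc (Pl)
open Pk (cn kc)
open C1 (Dg)
open GA (Mt)
open Vo (Wp)
open Cx (gp_wp nc_nn)
open S20 (gp_iff dn)

variable {N m k D J : ℕ} {Ω Λ : ℕ → Type} {P : ∀ n, FP (Ω n)} {M t t' u r : ℕ → ℕ}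
  {x : ∀ n, Ω n → V N} {S : ℚ → ∀ n, Ω n → Λ n} {σ : ℝ} {la : Fin m → ℝ} {o : Fin m}
  {eb : ∀ n, Ω n → Fin m → Pl N} {j : ∀ n, Ω n → Mt (Fin m)} {jr : ℚ → ∀ n, Ω n → Mt (Fin m)}
  {a : ℚ} {κ : ∀ n, Kd k (Ω n)} {τ : ∀ n, Ω n → Fin N → Pl k} {l : ∀ n, Ω n → Fin k}
  {A : ∀ n, Ω n → Λ n}

theorem nv_eq (M : ℕ → ℕ) (la : Fin m → ℝ) (o : Fin m) (a : ℝ) (n : ℕ) (r j : Mt (Fin m)) :
    LC.nv la o (a * M n) r j = ny M la o a n r j := funext fun p => by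
  rw [LC.nv, ny, dl_inv, mul_assoc]

theorem Mod.wb (md : Mod P M x S D σ la o eb j jr) (ha : 0 ≤ a) : Wp P M fun n L ω =>
    Bd (fun p => dl M (la p * a) n) L ((jr a n ω)⁻¹ * j n ω) :=
  gp_wp (md.bd ha) fun _ _ _ _ _ e k => k.mono (fun _ => dl_pos _ _ _) e

theorem Mod.wd (md : Mod P M x S D σ la o eb j jr) (ha : 0 ≤ a) : Wp P M fun n L ω =>
    Sp D (nf M la a n (jr a n ω) (eb n ω)) ∧
      Dg (nc (P n) (x n) (S a n) ω) (nf M la a n (jr a n ω) (eb n ω)) (fun _ => 1) L :=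
  gp_wp (md.dg a ha) fun _ ω _ _ _ e k => ⟨k.1, dg_mono (sn_nc _ _ _ ω) k.2 (fun _ => one_pos) e⟩

theorem Par.wb {K : ℝ} (h : Par P M x κ t A τ D J K) : Wp P M fun n L ω => ∀ F : Pl N,
    F.totalDegree ≤ D → cn (aeval (τ n ω) F) ≤ L * nc (P n) (x n) (A n) ω F :=
  gp_wp h.bd fun _ _ _ _ _ e k F hF =>
    (k F hF).trans (mul_le_mul_of_nonneg_right e (nc_nn _ _ _ _ _))

theorem ball_wp (h : AN.Ball P M x A t) : Wp P M fun n L ω =>
    ∀ i, ∃ c : ℝ, nc (P n) (x n) (A n) ω (X i - C c) ≤ L / 2 ^ t n :=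
  gp_wp h fun _ _ _ _ _ e k i => (k i).imp fun _ b =>
    b.trans (div_le_div_of_nonneg_right e (by positivity))

/-- The labels of the curves. -/
noncomputable abbrev cO (κ : ∀ n, Kd k (Ω n)) (t : ℕ → ℕ) (l : ∀ n, Ω n → Fin k) (u r : ℕ → ℕ)
    (n : ℕ) : Ω n → H17S.Z k × (κ n).T × ℕ × H17S.Z k :=
  cur ((κ n).pc (t n)) (fun ω => fr (t n) ((κ n).p ω)) (l n) (u n) (r n)

theorem crv (hM : Big M) (md : Mod P M x S D σ la o eb j jr)
    (par : ∀ K, Par P M x κ t (S 0) τ D J K) (com : FnE P (S 0) fun n => (κ n).pc (t n))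
    (fl : FnE P l fun n => (κ n).pc (t n)) (hu : ∀ K : ℝ, ∀ᶠ n in UF, (2 ^ u n)⁻¹ ≤ dl M K n)
    (a T : ℝ) : ∃ G, Whp P G ∧ ∀ᶠ n in UF, ∀ ω ∈ (P n).S, G n ω → ∃ θ : Fin m → Polynomial ℝ,
      (∀ p, (θ p).natDegree ≤ D * J) ∧ ∀ v ∈ (P n).S, G n v →
        cO κ t l u r n v = cO κ t l u r n ω →
        ∃ s : ℝ, ∀ p, |ny M la o a n (j n ω) (j n v) p - (θ p).eval s| ≤ dl M T n := by
  obtain ⟨B, hB⟩ := Finite.exists_le fun p => la p * a
  obtain ⟨L, sL, wL⟩ := Cx.Wp.sub (((md.wb le_rfl).and (md.wd le_rfl)).and (par 0).wb)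
  refine ⟨_, (wL.and (md.ev (T + B + 1))).and (par (T + B + 1)).err, ?_⟩
  filter_upwards [md.fe, (par 0).fn, com, fl, hu (T + B + 1),
    small hM sL (m * (2 + D * J) * ci m) (m + 2) one_pos]
    with n fe fτ fs f1 hη sm ω hω ⟨⟨⟨⟨g1, _, g2⟩, g3⟩, _⟩, _⟩
  simp only [md.r0, inv_one, one_mul, Rat.cast_zero, mul_zero, dl_zero] at g1 g2
  have g4 := g1.inv (fun _ => one_pos) (sL.1 n) (md.uj n ω)
  have g5 : ∀ q, nc (P n) (x n) (S 0 n) ω (eb n ω q) ≤ L n := fun q => by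
    simpa [nf, dl_zero, act_one] using g2.1 q
  choose θ d1 d2 using fun p => Pk.pCnt.sp (D * J) (aeval (τ n ω) (∑ q,
    ((dl M (la p * a) n)⁻¹ * (j n ω)⁻¹ p q) • eb n ω q)) (kc.deg _ _ _ _ (totalDegree_finsetSum_le
      fun q _ => (totalDegree_smul_le _ _).trans (md.deg n ω q)) ((par 0).deg n ω))
    (fr (t n) ((κ n).p ω)) (l n ω)
  refine ⟨θ, d1, fun v hv ⟨⟨_, e1⟩, e2⟩ e => ⟨fr (t n) ((κ n).p v) (l n ω), fun p => ?_⟩⟩
  obtain ⟨z1, -, z2⟩ := (cur_iff f1 hv hω).1 e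
  have z3 := fs v hv ω hω z1
  rw [fe v hv ω hω z3] at e1
  rw [nc_congr _ _ _ z3, fτ v hv ω hω z1] at e2
  have c0 := mul_pos (one_pos.trans_le (one_le_ci m)) (pow_pos (sL.pos n) m)
  have := crv_one (sn_nc _ _ _ ω) (b := (dl M B n)⁻¹ * (ci m * L n ^ m))
    (g := fun q => (dl M (la p * a) n)⁻¹ * (j n ω)⁻¹ p q) (sL.1 n) (dl_pos _ _ _).le
    (mul_pos (inv_pos.2 (dl_pos _ _ _)) c0).le (md.deg n ω) ((par 0).deg n ω) (fun q => by
      rw [abs_mul, abs_of_pos (inv_pos.2 (dl_pos _ _ _))]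
      exact mul_le_mul (inv_anti₀ (dl_pos _ _ _) (dl_anti M (hB p) n)) (by simpa using g4 p q)
        (abs_nonneg _) (inv_pos.2 (dl_pos _ _ _)).le) g5 e1 g3 e2
    (norm_le_one_of_box (fr_box _ _)) (norm_le_one_of_box (fr_box _ _))
    fun i hi => (abs_sub_lt_of_fl1_eq (z2 i hi)).le.trans hη
  rw [← d2, ny, Matrix.mul_apply, mul_sum]
  simp only [← mul_assoc]
  refine this.trans (le_trans (le_of_eq ?_) (mul_le_of_le_one_left (dl_pos M T n).le sm.le))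
  have := (dl_pos M B n).ne'
  rw [dl_add, dl_add]
  field_simp
  ring

theorem spr (hM : Big M) (hD : 1 ≤ D) (md : Mod P M x S D σ la o eb j jr) (ha : 0 ≤ a)
    (par : ∀ K, Par P M x κ t (S 0) τ D J K) (com : FnE P (S 0) fun n => (κ n).pc (t n))
    (fl : FnE P l fun n => (κ n).pc (t n)) (hu : ∀ K : ℝ, ∀ᶠ n in UF, (2 ^ u n)⁻¹ ≤ dl M K n)
    (lng : Gp P M fun n ω Γ => ∃ i, ∀ q : V k, ‖q‖ ≤ 1 →
      1 ≤ Γ * (2 ^ t n * |eval q (pderiv (l n ω) (τ n ω i))|))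
    (ful : FullAt P M (fun n ω => fr (t n) ((κ n).p ω)) (fun n => (κ n).pc (t n)) u)
    (coa : FnE P (S a) (cO κ t l u r)) (b0 : AN.Ball P M x (S 0) t) (b1 : AN.Ball P M x (S a) t')
    {R : ℝ} (hr : ∀ᶠ n in UF, t' n = t n + r n ∧ (r n : ℝ) ≤ R * M n) (ρ : ℝ) :
    Gd P M fun n G Γ => ∀ ω ∈ (P n).S, G ω → ∀ q : V m,
      pb (cv (P n) (cO κ t l u r n) (cO κ t l u r n ω))
        (fun v => G v ∧ ‖ny M la o a n (j n ω) (j n v) - q‖ ≤ dl M ρ n) ≤ Γ * dl M ρ n := by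
  have ds : Cx.Dn P M (fun n ω => H17S.fl (u n) (fr (t n) ((κ n).p ω))) (cO κ t l u r)
      fun n _ => 2 ^ r n * (2 ^ u n) ^ k / 2 ^ u n * S20.cvol k u n :=
    Cx.ds_iff.1 (((S20.fullAt_iff hM).1 ful).side hM (S20.fs_of_few ⟨fun _ _ => True, _,
      Whp.of_ev (by simp), sub_one M, fl.mono fun n f =>
        (cur_few f fun _ => fr_box _ _).mono (fun _ _ => id) (one_mul _).ge⟩) (S20.fnE_const _))
  obtain ⟨L, sL, wL⟩ := Cx.Wp.sub (((((md.wb ha).and (md.wd ha)).and (par 0).wb).and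
    ((ball_wp b0).and (ball_wp b1))).and ((gp_wp lng fun _ _ _ _ _ e k => k.imp fun _ b q hq =>
      (b q hq).trans (mul_le_mul_of_nonneg_right e (by positivity))).and ds))
  have m0 : (0 : ℝ) ≤ m := Nat.cast_nonneg _
  have j0 : (0 : ℝ) ≤ J := Nat.cast_nonneg _
  refine ⟨_, _, (wL.and (md.pos a (ρ + R) ha)).and (par (ρ + R)).err, (sL.pow 5).const_mul hM
    (C := 5 * (3 * m + 2 + J) * (2 * m + 1)) (by nlinarith [mul_nonneg m0 j0]), ?_⟩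
  filter_upwards [md.fe, md.fj a ha, (par 0).fn, com, coa, fl, hu (ρ + R), hr]
    with n fe fj fτ fs fa f1 hη ⟨r1, r2⟩ ω hω ⟨⟨⟨⟨⟨⟨g1, g2⟩, g3⟩, g4, g5⟩, ⟨i, g6⟩, _⟩, _⟩, _⟩ q
  obtain ⟨c, g4⟩ := g4 i
  obtain ⟨c', g5⟩ := g5 i
  rw [r1, pow_add] at g5
  have l1 := sL.1 n
  have t0 := dl_pos M ρ n
  have k1 : dl M (ρ + R) n * 2 ^ r n ≤ dl M ρ n := by
    rw [dl_add, mul_assoc]
    refine mul_le_of_le_one_right t0.le ?_
    rw [← le_inv_mul_iff₀ (dl_pos _ _ _), mul_one, dl_inv]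
    exact (two_pow_le_exp _).trans (Real.exp_le_exp.2 r2)
  have k2 : dl M ρ n ≤ (2 * m + 1) * L n * dl M ρ n := le_mul_of_one_le_left t0.le (by nlinarith)
  have e0 : (2 : ℝ) ^ r n * (2 ^ u n) ^ k / 2 ^ u n * S20.cvol k u n = 2 ^ r n / 2 ^ u n := by
    rw [S20.cvol]; field_simp
  refine (pb_mono fun v _ z => And.intro z.1.1.1.2.2 z).trans ((pb_cur (i := l n ω)
    (B := (3 * m + 2 + J) * L n ^ 3 * ((2 * m + 1) * L n * dl M ρ n / 2 ^ r n) * 2 ^ u n) ?_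
    (S20.db_dn (P n) _ (cO κ t l u r n) (by rw [e0]; positivity) ω hω)
    fun v hv w hw y z => ?_).trans_eq (by rw [e0]; field_simp))
  · rw [mul_assoc]
    refine one_le_mul_of_one_le_of_one_le (one_le_mul_of_one_le_of_one_le (by linarith)
      (one_le_pow₀ l1)) ?_
    rw [← inv_le_iff_one_le_mul₀ (by positivity), le_div_iff₀ (by positivity)]
    exact (mul_le_mul_of_nonneg_right hη (by positivity)).trans (k1.trans k2)
  · obtain ⟨hv, ev⟩ := (S20.mem_cv hω v).1 hv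
    obtain ⟨hw, ew⟩ := (S20.mem_cv hω w).1 hw
    obtain ⟨v1, -, v2⟩ := (cur_iff f1 hv hω).1 ev
    obtain ⟨w1, -, w2⟩ := (cur_iff f1 hw hω).1 ew
    obtain ⟨⟨⟨-, y1⟩, y2⟩, y3⟩ := y
    obtain ⟨⟨⟨-, z1⟩, z2⟩, z3⟩ := z
    rw [fj v hv ω hω (fa v hv ω hω ev), fe v hv ω hω (fs v hv ω hω v1)] at y1
    rw [fj w hw ω hω (fa w hw ω hω ew), fe w hw ω hω (fs w hw ω hω w1)] at z1
    rw [nc_congr _ _ _ (fs v hv ω hω v1), fτ v hv ω hω v1] at y2
    rw [nc_congr _ _ _ (fs w hw ω hω w1), fτ w hw ω hω w1] at z2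
    refine ⟨?_, fun i hi => (v2 i hi).trans (w2 i hi).symm⟩
    rw [mul_div_cancel_right₀ _ (by positivity)]
    refine spr_one g2.1 g2.2 hD l1 (dl_pos _ _ _).le (by positivity) (one_le_pow₀ one_le_two)
      (k1.trans k2) ((par 0).deg n ω) g4 g5 g3 y2 z2 y1 z1 (fun p => (ny_lip (θ := 2 * dl M ρ n)
        (md.uj n ω) g1 (fun p => ?_) p).trans (by nlinarith)) g6
      (norm_le_one_of_box (fr_box _ _)) (norm_le_one_of_box (fr_box _ _))
      fun i hi => (abs_sub_lt_of_fl1_eq ((w2 i hi).trans (v2 i hi).symm)).le.trans hη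
    have y4 := abs_le.1 ((norm_le_pi_norm _ p).trans y3)
    have z4 := abs_le.1 ((norm_le_pi_norm _ p).trans z3)
    simp only [Pi.sub_apply] at y4 z4
    exact abs_le.2 ⟨by linarith, by linarith⟩

/-- A frame in positive dimension is not constant. -/
theorem one_le_deg {β : Bool → ℕ → Type} {Z : ∀ b n, Ω n → β b n} {x : ∀ n, Ω n → V (N + 1)}
    {Θ : ∀ n, Ω n → Fin (N + 1) → Pl (N + 1)} (h : Cel P M x Z A Θ D) : 1 ≤ D := by
  by_contra c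
  obtain ⟨n, ω, -, e⟩ := (Cx.nt_dn h.frm.min h.cm.com one_pos (E := 1)
    (F := fun n ω => X 0 - C (coeff 0 (Θ n ω 0)))
    (Cx.fnE_comp h.frm.fn fun _ s => X 0 - C (coeff 0 (s 0)))
    fun _ _ => (totalDegree_sub_C_le _ _).trans (totalDegree_X _).le).pos.ex.exists
  have e1 := totalDegree_eq_zero_iff_eq_C.1 (show (Θ n ω 0).totalDegree = 0 by
    have := h.frm.deg n ω 0; omega)
  have e2 : cht (Θ n) (x n) ω 0 = coeff 0 (Θ n ω 0) := by
    rw [cht, Nc.ev, e1]; simp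
  have e3 := kc.coeff (X 0 - C (coeff 0 (Θ n ω 0)) : Pl (N + 1)) (Finsupp.single 0 1)
  simp only [map_sub, eval_X, eval_C, e2, sub_self, abs_zero] at e
  have e4 := mul_le_mul_of_nonneg_left e3 (dl_pos M 1 n).le
  rw [coeff_sub, coeff_X, coeff_C, if_pos rfl, if_neg (by simp [eq_comm]), sub_zero, abs_one,
    mul_one] at e4
  linarith [dl_pos M 1 n]

theorem sCrv : LC.SCrv := by
  intro d m Ω Λ k P M x s C C' ml t S Θ W τ J D la c w σ o eb j jr md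
  have hM := w.glo.big
  obtain ⟨Γ, sΓ, wΓ⟩ := gp_iff.1 (w.lng D 0)
  obtain ⟨_, _, -, _, l₀, -⟩ := wΓ.pos.ex.exists
  have : Nonempty (Fin (k true)) := ⟨l₀⟩
  set lf : ℕ → (Fin (d + 1) → Pl (k true)) → Fin (k true) := fun n θ => Classical.epsilon
    fun l => ∃ i, ∀ q : V (k true), ‖q‖ ≤ 1 → 1 ≤ Γ n * (2 ^ t 0 n * |eval q (pderiv l (θ i))|)
  have fl := Cx.fnE_comp (w.par D 0 true 0).fn lf
  obtain ⟨R, hR, hu⟩ := cf_diag (S := fun _ => ℕ) (fun _ => cf_fullAt (fun n _ => P n)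
    (fun n _ => M n) (fun n _ ω => fr (t 0 n) ((s n true).p ω)) (fun n _ => (s n true).pc (t 0 n))
    fun _ u => u) (fun i n => i * M n) fun i _ _ => w.den 0 true i
  have fine : ∀ K : ℝ, ∀ᶠ n in UF, ((2 : ℝ) ^ (R n * M n))⁻¹ ≤ dl M K n := fun K =>
    (hR.ev (K / lg)).mono fun n e => by
      rw [div_le_iff₀ lg_pos] at e
      rw [two_pow_eq, ← Real.exp_neg]
      refine Real.exp_le_exp.2 (neg_le_neg ?_)
      push_cast
      nlinarith [(M n).cast_nonneg (α := ℝ)]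
  have lev : ∀ a : ℚ≥0, ∀ᶠ n in UF, t a n = t 0 n + (t a n - t 0 n) ∧
      ((t a n - t 0 n : ℕ) : ℝ) ≤ (((a : ℚ) : ℝ) + 1) * M n := fun a => by
    filter_upwards [w.tm 0 a a.2, (w.tl a).1 1 one_pos] with n e1 e2
    exact ⟨by omega, by rw [Nat.cast_sub e1]; linarith⟩
  have com : ∀ a : ℚ≥0, FnE P (S a) (cO (fun n => s n true) (t 0) (fun n ω => lf n (τ D 0 true n ω))
      (fun n => R n * M n) fun n => t a n - t 0 n) := fun a => by
    filter_upwards [(w.cel a).cm.com true, fl, lev a, hR.ev (((a : ℚ) : ℝ) + 1)]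
      with n e f ⟨e1, e2⟩ e3 u hu v hv z
    obtain ⟨z1, z2⟩ := cur_com f (by exact_mod_cast e2.trans ((mul_le_mul_of_nonneg_right e3
      (Nat.cast_nonneg _)).trans_eq (Nat.cast_mul _ _).symm)) hu hv z
    simp only [Kd.pc, Prod.mk.injEq] at z1
    refine e u hu v hv (Prod.ext z1.1 (Prod.ext z1.2.1 ?_))
    rw [fl_fr, fl_fr, z1.2.2, ← e1] at z2
    exact funext fun i => sub_left_injective (congrFun z2 i)
  refine ⟨_, fun a => cO (fun n => s n true) (t 0) (fun n ω => lf n (τ D 0 true n ω))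
    (fun n => R n * M n) fun n => t a n - t 0 n, D * J D, fun a a' h => ?_, com,
    fun cc mb mg => ⟨fun a T => ?_, fun a ρ => ?_⟩⟩
  · filter_upwards [fl, w.tm a a' (by exact_mod_cast h)] with n f e
    exact cur_nest f (Nat.sub_le_sub_right e _)
  · obtain ⟨G, g1, g2⟩ := crv (r := fun n => t a n - t 0 n) hM md (w.par D 0 true)
      ((w.cel 0).cm.com true) fl fine a T
    refine ⟨G, _, g1, sub_one M, g2.mono fun n g ω hω e => (g ω hω e).imp fun θ h =>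
      ⟨h.1, fun v hv e' z => ?_⟩⟩
    have := h.2 v hv e' (Sum.inr.inj z)
    simp only [← nv_eq] at this
    exact this
  · refine (spr hM (one_le_deg (w.cel 0)) md a.2 (w.par D 0 true) ((w.cel 0).cm.com true) fl fine
      (gp_iff.2 ⟨Γ, sΓ, wΓ.mono (Eventually.of_forall fun n ω _ ⟨i, l, e⟩ =>
        Classical.epsilon_spec (p := fun l => ∃ i, ∀ q : V (k true), ‖q‖ ≤ 1 →
          1 ≤ Γ n * (2 ^ t 0 n * |eval q (pderiv l (τ D 0 true n ω i))|)) ⟨l, i, e⟩)⟩) (hu 0)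
      (com a) (cel2.ball w.glo (w.cel 0).cm) (cel2.ball w.glo (w.cel a).cm) (lev a) ρ).mono
      (Eventually.of_forall fun n G Γ _ h ω hω g q => ?_)
    have := h ω hω g q
    simp only [← nv_eq] at this
    refine le_trans (le_of_eq ?_) this
    exact congrArg (pb · _) (Cx.cv_congr hω (fun _ _ _ _ => congrArg Sum.inr)
      fun _ _ _ _ => Sum.inr.inj)

end Pool.Agent.MP_5168f5_an.AN.N2
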