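import Pool.Agent.MP_5168f5_an.AN.Spec
import Pool.Agent.MP_5168f5_an.AN.S20LF

/-! Kakeya sets in all dimensions: independent functions are full, filled cells. -/

namespace Pool.Agent.MP_5168f5_an.AN

open H19 H17S H17F R4 Filter MvPolynomial
open G39 (nu RG dl REM)
open Pk (cn)
open Nc (Pl ev jac)

namespace G7A

variable {Ω α β γ : ℕ → Type} {P : ∀ n, FP (Ω n)} {M : ℕ → ℕ}

theorem fnE_trans {F : ∀ n, Ω n → α n} {G : ∀ n, Ω n → β n} {H : ∀ n, Ω n → γ n}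
    (h : FnE P F G) (h' : FnE P G H) : FnE P F H := by
  filter_upwards [h, h'] with n a b u hu v hv e using a u hu v hv (b u hu v hv e)

theorem fnE_cE {F : ∀ n, Ω n → α n} {G : ∀ n, Ω n → β n} (h : FnE P F G) (E : ∀ n, Ω n → Prop) :
    FnE (fun n => cE (P n) (E n)) F G :=
  h.mono fun _ a u hu v hv => a u (cE_sub hu) v (cE_sub hv)

theorem cf_gd (M : ℕ → ℕ) (q : ∀ n, FP (Ω n) → (Ω n → Prop) → ℝ → Prop) :
    CF fun Q : ∀ n, FP (Ω n) => Gd Q M fun n => q n (Q n) := by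
  refine (cf_eps (p := fun ε n (Q : FP (Ω n)) => ∃ (G : Ω n → Prop) (Γ : ℝ),
    pb Q (fun ω => ¬G ω) ≤ ε ∧ 1 ≤ Γ ∧ Γ ≤ Real.exp (ε * M n) ∧ q n Q G Γ) fun _ _ _ _ _ a ⟨G, Γ, b, c, d, e⟩ =>
      ⟨G, Γ, b.trans a, c, d.trans (Real.exp_le_exp.2
        (mul_le_mul_of_nonneg_right a (Nat.cast_nonneg _))), e⟩).congr fun Q => ⟨?_, fun h => ?_⟩
  · rintro ⟨G, Γ, a, b, c⟩ ε hε
    filter_upwards [a ε hε, b.2 ε hε, c] with n u v w using ⟨G n, Γ n, u, b.1 n, v, w⟩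
  · obtain ⟨k, hk, e⟩ := ks.spill (fun k n => ∃ G Γ, pb (Q n) (fun ω => ¬G ω) ≤ 1 / (k + 1 : ℝ) ∧
      1 ≤ Γ ∧ Γ ≤ Real.exp (1 / (k + 1 : ℝ) * M n) ∧ q n (Q n) G Γ) fun k => h _ (by positivity)
    obtain ⟨a, ha⟩ := S20.ev_choice (A := fun n => (Ω n → Prop) × ℝ)
      (p := fun n a => pb (Q n) (fun ω => ¬a.1 ω) ≤ 1 / (k n + 1 : ℝ) ∧ 1 ≤ a.2 ∧
        a.2 ≤ Real.exp (1 / (k n + 1 : ℝ) * M n) ∧ q n (Q n) a.1 a.2)
      (e.mono fun n u => let ⟨G, Γ, v⟩ := u _ le_rfl; ⟨(G, Γ), v⟩)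
    refine ⟨fun n => (a n).1, fun n => max 1 (a n).2, fun ε hε => ?_, ⟨fun n => le_max_left _ _,
      fun ε hε => ?_⟩, ha.mono fun n u => by simpa only [max_eq_right u.2.1] using u.2.2.2⟩
    · filter_upwards [ha, K31.small hε hk] with n u v using u.1.trans v
    · filter_upwards [ha, K31.small hε hk] with n u v
      rw [max_eq_right u.2.1]
      exact u.2.2.1.trans (Real.exp_le_exp.2 (mul_le_mul_of_nonneg_right v (Nat.cast_nonneg _)))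

theorem cf_sys {N C : ℕ} {k m : Bool → ℕ} (M : ℕ → ℕ) (x : ∀ n, Ω n → V N) (s : ∀ n, Sy k (Ω n)) :
    CF fun Q : ∀ n, FP (Ω n) => Sys Q M x s C m := by
  have h : ∀ b, CF fun Q : ∀ n, FP (Ω n) => Kind Q M x (fun n => s n b) C (m b) := fun b =>
    ((cf_gd M fun n Q G Γ => ∀ ω ∈ Q.S, G ω → ‖(s n b).p ω‖ ≤ Γ).and
      ((cf_gd M fun n Q G Γ => ∀ ω ∈ Q.S, G ω → ((s n b).W ω : ℝ) ≤ Γ * Real.exp (0 * M n)).and
      ((cf_all fun K : ℕ => cf_all fun E : ℕ => cf_gd M fun n Q G Γ =>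
        RG Q (x n) (s n b).Z G E C Γ (dl M K n)).and
      ((cf_all fun K : ℕ => cf_gd M fun n Q => Dens Q (s n b).p (s n b).Z (K * M n)).and
        (cf_all fun j : ℕ => cf_gd M fun n Q => (s n b).Wh Q (x n) (m b) j))))).congr fun Q =>
      ⟨fun a => ⟨a.bd, a.few, a.rem, a.den, a.wh⟩, fun a => ⟨a.1, a.2.1, a.2.2.1, a.2.2.2.1, a.2.2.2.2⟩⟩
  exact ((cf_const (Big M)).and ((cf_gd M fun n Q G Γ => ∀ ω ∈ Q.S, G ω → ‖x n ω‖ ≤ Γ).and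
    (cf_all h))).congr fun Q => ⟨fun a => ⟨a.big, a.bd, a.kd⟩, fun a => ⟨a.1, a.2.1, a.2.2⟩⟩

theorem sys_cE {N C : ℕ} {k m : Bool → ℕ} {x : ∀ n, Ω n → V N} {s : ∀ n, Sy k (Ω n)}
    (h : Sys P M x s C m) {E : ∀ n, Ω n → Prop} (hE : Pos P E) :
    Sys (fun n => cE (P n) (E n)) M x s C m :=
  ⟨h.big, S20.gp_cE h.bd hE, fun b => S20.kind_cE h.big (h.kd b) hE⟩

theorem fat_nz {N : ℕ} {x : ∀ n, Ω n → V N} {A : ∀ n, Ω n → α n} (h : Fat P M x A) : NZ P x A :=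
  fun E => (h E).elim fun B k => k.mono (Eventually.of_forall fun n _ _ u F hF h0 =>
    (mul_pos (G39.dl_pos M B n) ((Nc.kc.nonneg F).lt_of_ne' (mt (Nc.kc.zero F).1 h0))).trans_le
      (u F hF))

end G7A

open G7A

theorem ofG7 : OfG7 := by
  intro rc ko Ω Λ k m N d C D P M x s A w th hs hc hf hp
  choose W hW using fun b => rc.zero hs.big (ko.mono hs.big (hs.kd b) le_rfl).2
    (fnE_trans hf.fn (hc b)) hf.deg hp hf.bd
  exact th Ω Λ k (fun _ => 0) (C * D) P M (chs w x) (fun n b => (s n b).setW (W b n)) A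
    (Nat.zero_le _) ⟨hs.big, hf.bd, hW⟩ hf.min hc

theorem ofFILL : OfFILL := by
  intro sl _ _ ud c1 g7 N C th
  obtain ⟨D, hD⟩ := ud N C
  refine ⟨D, fun Ω Λ k m P M x s T hs hb hc fl L hL => ?_⟩
  obtain ⟨L', l1, -, l2⟩ := sl Ω P M _ hs.big (cf_sys (C := C) (m := m) M x s) fun G => sys_cE hs
  obtain ⟨L₀, l3, l4⟩ := A1.minorant (L := fun b : Bool => bif b then L else L')
    (by rintro (_ | _); exacts [l1, hL])
  obtain ⟨Γ, g1, g2⟩ := hb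
  obtain ⟨α, G, A, a1, -, a2⟩ := A1.a1 (I := Unit) P x (fun b _ => lab s b) (fun _ => T) (K := 1)
    hs.big l3 (Whp.of_ev (by
      filter_upwards [g2, G39.sub_dl g1 one_pos] with n u v ω hω using (u ω hω).trans v))
    (fun _ _ _ _ => S20.fnE_rfl) (fun _ => hc) (fun _ _ _ => S20.fnE_rfl) fun _ => ⟨true, fl⟩
  obtain ⟨a3, a4, a5⟩ := a2 ()
  have e : ∀ b, ∀ᶠ n in UF, 1 ≤ (bif b then L else L') n * pb (P n) (G n) := fun b => by
    filter_upwards [a1, l4 b] with n u v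
    exact u.trans (mul_le_mul_of_nonneg_right v (pb_nonneg _ _))
  have hs' := l2 G (e false)
  obtain ⟨Θ, hΘ⟩ := hD Ω α _ _ M x (lab s) (A ()) hs.big (fun b => (hs'.kd b).rem) a4 (fat_nz a5)
  exact ⟨α, G, A (), Θ, e true, hs', a3, hΘ, a5, g7 Ω α k m N N C D _ M x s (A ()) Θ th hs'
    a4.com hΘ.frm (c1.pw hs.big a4 hΘ.frm a5)⟩

end Pool.Agent.MP_5168f5_an.AN
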