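import Pool.Agent.MP_5168f5_an.AN.LWin
import Pool.Agent.MP_5168f5_an.AN.GG7
import Pool.Agent.MP_5168f5_an.AN.GHer2

/-! The global chain survives slowly shrinking events. -/

namespace Pool.Agent.MP_5168f5_an.AN

open H19 H17S H17F R4 Filter
open G39 (dl)
open Pk (cn)
open Nc (Pl)
open K31 (dnS_cE)

variable {Ω Λ : ℕ → Type} {β : Bool → ℕ → Type} {N D : ℕ} {P : ∀ n, FP (Ω n)} {M j : ℕ → ℕ}
  {x : ∀ n, Ω n → V N} {A : ∀ n, Ω n → Λ n} {Z : ∀ b n, Ω n → β b n} {G : ∀ n, Ω n → Prop}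

theorem Heavy.cE {v : ℕ → ℝ} (h : Heavy P M x A j v) (hM : Big M) (g : Pos P G) :
    Heavy (fun n => cE (P n) (G n)) M x A j v :=
  (S20.gp_cE h g).mul (her1.dn (fun n u => fl (j n) (x n u)) A (dnS_cE g) hM)
    (Eventually.of_forall fun n ω _ Γ Γ' u _ v w => v.trans (by
      rw [mul_assoc]; exact mul_le_mul_of_nonneg_left w.1 (by linarith)))

theorem Cel.cE {Θ : ∀ n, Ω n → Fin N → Pl N} (e : Cel P M x Z A Θ D) (hM : Big M) (g : Pos P G) :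
    Cel (fun n => cE (P n) (G n)) M x Z A Θ D :=
  ⟨(her2.cm (dnS_cE g) hM e.cm).1, e.frm.fn.cE G, e.frm.deg, S20.gp_cE e.frm.bd g,
    her2.nt (dnS_cE g) e.frm.min⟩

theorem Fat.sl (h : Fat P M x A) (hM : Big M) (e : CM P M x Z A) : SL P fun Q => Fat Q M x A := by
  refine sl_all fun E => (h E).elim fun B hB => (sl_cf hM (cf_whp (fun n (Q : FP (Ω n)) => Q)
    fun n Q ω => ∀ F : Pl N, F.totalDegree ≤ E → dl M (1 + B) n * cn F ≤ nc Q (x n) (A n) ω F)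
    fun G g => ?_).mono fun _ u => ⟨_, u⟩
  obtain ⟨Γ, u, v⟩ := S20.gp_iff.1 ((her2.cm (dnS_cE g) hM e).2 E)
  refine (v.and (hB.cE g)).mono ((G39.sub_dl u one_pos).mono fun n w ω _ y F hF => ?_)
  rw [G39.dl_add, mul_assoc, ← le_inv_mul_iff₀ (G39.dl_pos _ _ _)]
  exact (y.2 F hF).trans ((y.1 F hF).1.trans (mul_le_mul_of_nonneg_right w (Real.sqrt_nonneg _)))

theorem LC.sGC : LC.SGC := by
  intro N Ω Λ k ml P M x s C D S Θ U H a₀ b τ gc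
  have hM := gc.sys.big
  let q : ∀ n, FP (Ω n) → FP (Ω n) := fun _ Q => Q
  let m : ∀ n, FP (Ω n) → ℕ := fun n _ => M n
  have h1 := sl_cf hM (G7A.cf_sys M x s) fun _ => G7A.sys_cE gc.sys
  have h2 := sl_all fun c => sl_cf (P := P) hM (cf_ra q m (fun n _ => x n) (fun n _ => s n c) C)
    fun G g t ht => her1.rem (dnS_cE g) hM (gc.ra c t ht)
  have h3 := sl_all fun a : ℚ≥0 => sl_cf (P := P) hM (cf_cel q m (fun n _ => x n)
    (fun c n _ => pcs s (fun _ => lev M a) c n) (fun n _ => S a n) (fun n _ => Θ a n) D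
    fun n _ => (gc.chn.cel a).frm.deg n) fun _ => (gc.chn.cel a).cE hM
  have h4 := sl_all fun a => (gc.fat a).sl hM (gc.chn.cel a).cm
  have h5 := sl_all fun a : ℚ≥0 => sl_cf (K := fun Q => Vol Q M x (Θ a) (un M (U a))) hM
    (cf_gp q m fun n _ => _) fun G => S20.gp_cE (gc.vol a)
  have h6 := sl_all fun a : {a : ℚ≥0 × ℚ≥0 × ℚ≥0 // a₀ ≤ a.1 ∧ a.1 ≤ a.2.1 ∧ (a.2.1 : ℝ) ≤ b ∧
      (a.2.2 : ℝ) ≤ τ ∧ U a.2.1 - U a.1 ≤ a.2.2 * lg} => sl_cf (P := P) hM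
    (cf_heavy q m (fun n _ => chs (Θ a.1.1) x n) (fun n _ => S a.1.1 n) (fun n _ => lev M a.1.2.2 n)
      fun n _ => un M (U a.1.2.1 - U a.1.1 - (H a.1.2.1 - H a.1.1)) n) fun _ =>
    (gc.hv _ _ _ a.2.1 a.2.2.1 a.2.2.2.1 a.2.2.2.2.1 a.2.2.2.2.2).cE hM
  exact (h1.and (h2.and (h3.and (h4.and (h5.and h6))))).mono fun G ⟨u1, u2, u3, u4, u5, u6⟩ =>
    ⟨u1, gc.one, gc.sure.cE G, u2, ⟨gc.chn.mono, fun a a' e => (gc.chn.nest a a' e).cE G, u3⟩,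
      u4, u5, gc.mU, gc.mH, gc.pos,
      fun a a' g e1 e2 e3 e4 e5 => u6 ⟨(a, a', g), e1, e2, e3, e4, e5⟩⟩

end Pool.Agent.MP_5168f5_an.AN
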