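import Pool.Agent.MP_5168f5_an.AN.LEGs0
import Pool.Agent.MP_5168f5_an.AN.G39Dep

/-! Projections in the model. -/

namespace Pool.Agent.MP_5168f5_an.AN.LC

open H19 H17S H17F R4 Filter MvPolynomial
open G39 (dl dl_pos dl_anti dl_add)
open Pk (cn kc)
open Nc (Pl ev)
open N2 (ny)

theorem near_cells {l : ℕ} (Q : Finset (V l)) (j : ℕ) : ∃ T : Finset (Z l),
    (T.card : ℝ) ≤ Q.card * 5 ^ l ∧ ∀ y, ∀ q ∈ Q, ‖y - q‖ ≤ 2 * (2 ^ j)⁻¹ → fl j y ∈ T := by
  classical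
  refine ⟨Q.biUnion fun q => Fintype.piFinset fun i =>
    Finset.Icc (fl j q i - (2 : ℕ)) (fl j q i + (2 : ℕ)), ?_, fun y q hq h => Finset.mem_biUnion.2
      ⟨q, hq, Fintype.mem_piFinset.2 fun i => fl1_mem_Icc ((norm_le_pi_norm (y - q) i).trans
        (by exact_mod_cast h))⟩⟩
  exact_mod_cast Finset.card_biUnion_le_card_mul _ _ _ fun q _ => by
    have : ∀ i, (Finset.Icc (fl j q i - 2) (fl j q i + 2)).card = 5 := fun i => by
      rw [Int.card_Icc]; omega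
    rw [Fintype.card_piFinset, Finset.prod_congr rfl fun i _ => this i]
    simp

theorem cmp {m l E E' : ℕ} {W : Fin l → Pl m} (hW : ∀ i, (W i).totalDegree ≤ E ∧ cn (W i) ≤ 1)
    {H : Pl l} (hH : H.totalDegree ≤ E') :
    (aeval W H).totalDegree ≤ E' * E + E ∧ cn (aeval W H) ≤ cn H :=
  ⟨(kc.deg _ _ _ _ hH fun i => (hW i).1).trans (Nat.le_add_right _ _),
    by simpa using kc.comp W H E' 1 hH le_rfl fun i => (hW i).2⟩

theorem ex_th (l i : ℕ) : ∃ θ : ℚ≥0, 1 / 2 ≤ (θ : ℝ) ∧ (θ : ℝ) ≤ 2 ∧ θ * lg ≤ 1 ∧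
    l * (1 - θ * lg) ≤ 1 / (2 * (i + 1)) := by
  have h1 := lg_pos
  have h2 := lg_lt_one
  have h3 : 1 / 2 ≤ lg := by have := Real.log_two_gt_d9; unfold lg; linarith
  have i0 : (0 : ℝ) ≤ i := Nat.cast_nonneg _
  have l0 : (0 : ℝ) ≤ l := Nat.cast_nonneg _
  have e0 : (0 : ℝ) < 1 / (2 * (i + 1)) / (l + 1) := by positivity
  have e1 : (1 : ℝ) / (2 * (i + 1)) / (l + 1) ≤ 1 / 2 :=
    (div_le_self (by positivity) (by linarith)).trans (by gcongr; linarith)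
  have e2 : (l : ℝ) * (1 / (2 * (i + 1)) / (l + 1)) ≤ 1 / (2 * (i + 1)) := by
    rw [← mul_div_assoc, div_le_iff₀ (by positivity)]
    nlinarith [show (0 : ℝ) < 1 / (2 * (i + 1)) by positivity]
  obtain ⟨q, a, b⟩ := exists_rat_btwn (div_lt_div_of_pos_right
    (sub_lt_self 1 e0) h1)
  rw [div_lt_iff₀ h1] at a
  rw [lt_div_iff₀ h1] at b
  have q0 : (0 : ℝ) < q := by nlinarith
  lift q to ℚ≥0 using (by exact_mod_cast q0.le)
  rw [Rat.cast_nnratCast] at a b q0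
  exact ⟨q, by nlinarith, by nlinarith, b.le, by nlinarith⟩

theorem sGs : SGs := by
  intro d m Ω Λ k P M x s C C' ml t S Θ W τ J D la c w g7 σ o eb j jr md
  have hM := w.glo.big
  suffices H : ∀ l, l ≠ d + 1 → ∀ E i : ℕ, ∃ g : ℕ, ∀ (Λ' : ℕ → Type) (O : ℚ≥0 → ∀ n, Ω n → Λ' n)
      D' cc mb (mg : ℕ → ℕ → ℕ → ℕ), mg l E i = g → ∀ a r : ℚ≥0,
      Gd P M fun n => (mkX la P M j S O n).GsW (mkS la o d D' cc mb mg) l E i a r by
    choose g hg using H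
    exact ⟨fun l E i => if h : l ≠ d + 1 then g l h E i else 0, fun Λ' O D' cc mb l hl E i =>
      hg l hl E i Λ' O D' cc mb _ (dif_pos hl)⟩
  intro l hl E i
  have br := fun (a r : ℚ≥0) (E : ℕ) => md.brg hM (w.cel a).cm (w.nest 0 a a.2) a.2 E
    (K := r) (by positivity)
  have fb : ∀ (Λ' : ℕ → Type) (O : ℚ≥0 → ∀ n, Ω n → Λ' n) (a : ℚ≥0) n, ∀ ω ∈ (P n).S,
      (mkX la P M j S O n).fb false a ω = cv (P n) (S a n) (S a n ω) := fun _ _ _ _ _ hω =>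
    Cx.cv_congr hω (fun _ _ _ _ e => congrArg Sum.inl e) fun _ _ _ _ e => Sum.inl.inj e
  have ps : ∀ (Λ' : ℕ → Type) (O : ℚ≥0 → ∀ n, Ω n → Λ' n) D' cc mb mg (a : ℚ≥0) n ω,
      (mkX la P M j S O n).ps (mkS la o d D' cc mb mg) a ω =
        fun v => ny M la o (a : ℚ) n (j n ω) (j n v) := fun _ _ _ _ _ _ a n ω => funext fun v => by
    rw [Rat.cast_nnratCast]
    exact N2.nv_eq M la o a n _ _
  have d1 : ∀ (r : ℚ≥0) (g n : ℕ), dl M r n ≤ Real.exp (-(r * M n / (g + 1))) := fun r g n =>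
    Real.exp_le_exp.2 (neg_le_neg (div_le_self (by positivity)
      (le_add_of_nonneg_left (Nat.cast_nonneg _))))
  rcases hl.lt_or_gt with hl | hl
  swap
  · obtain ⟨g, dep⟩ := G39.rDep (d + 1) (E * D)
    refine ⟨g, fun Λ' O D' cc mb mg e a r => ?_⟩
    obtain ⟨G, Γ, g1, -, g3⟩ := br a r (g * E + E)
    refine ⟨G, _, g1, hM.sub one_le_two, g3.mono fun n g3 ω hω y W hW h => ?_⟩
    exfalso
    change ω ∈ (P n).S at hω
    obtain ⟨f, f1, -, f3⟩ := g3 ω hω y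
    obtain ⟨H, α, h1, h2, h3⟩ := dep (V (d + 1)) id
      (fun b y => eval y (aeval f (W (Fin.castLE hl b)))) fun b =>
        ⟨_, kc.deg _ _ _ _ (hW _).1 f1, fun _ => rfl⟩
    have c0 : 0 < cn H := lt_of_lt_of_le (by simp [h2]) (kc.coeff H α)
    have h4 : ((cn H)⁻¹ • rename (Fin.castLE hl) H).totalDegree ≤ g :=
      (totalDegree_smul_le _ _).trans ((totalDegree_rename_le _ _).trans h1)
    have h5 : cn ((cn H)⁻¹ • rename (Fin.castLE hl) H) = 1 := by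
      rw [kc.smul, kc.ren _ _ (Fin.castLE_injective hl), abs_of_pos (inv_pos.2 c0),
        inv_mul_cancel₀ c0.ne']
    obtain ⟨v, hv, v1, v2⟩ := ex_of_pb (lt_of_lt_of_le (by positivity) (h _ (h4.trans_eq e.symm) h5))
    rw [fb _ _ _ _ _ hω, Cx.mem_cv hω] at hv
    have z := f3 v hv.1 v1 hv.2 _ (cmp hW h4).1
    have z' : eval (x n v) (aeval f (aeval W ((cn H)⁻¹ • rename (Fin.castLE hl) H))) = 0 := by
      rw [Nc.eval_aeval, Nc.eval_aeval, smul_eval, eval_rename]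
      refine mul_eq_zero_of_right _ (Eq.trans ?_ (h3 (x n v)))
      simp only [G39.ev, Nc.eval_aeval]
      rfl
    rw [z', sub_zero, Nc.eval_aeval] at z
    rw [ps] at v2
    have := mul_le_of_le_one_right (dl_pos M r n).le ((cmp hW h4).2.trans_eq h5)
    change 2 * Real.exp (-(r * M n / (mg l E i + 1))) ≤ _ at v2
    linarith [v2.trans z, d1 r (mg l E i) n, Real.exp_pos (-(r * M n / (mg l E i + 1)))]
  obtain ⟨θ, t1, t2, t3, t4⟩ := ex_th l i
  obtain ⟨ρ, E', r0, h7⟩ := g7 l hl (E * D) (1 / (4 * (i + 1))) (by positivity)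
  refine ⟨max E' ⌈4 / ρ⌉₊, fun Λ' O D' cc mb mg e a r => ?_⟩
  rcases (zero_le : 0 ≤ r).eq_or_lt with rfl | r1
  · exact ⟨fun _ _ => True, _, Whp.of_ev (Eventually.of_forall fun _ _ _ => trivial), sub_one M,
      Eventually.of_forall fun n ω _ _ _ _ _ _ _ => (pb_le_one _ _).trans (by simp)⟩
  have r2 : (0 : ℝ) < r := by exact_mod_cast r1
  have t0 : 0 < θ := by exact_mod_cast (show (0 : ℝ) < θ by linarith)
  obtain ⟨G₁, a1, a2⟩ := h7 a (θ * r) (mul_pos t0 r1)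
  obtain ⟨G, Γ, g1, g2, g3⟩ := br a r (E' * E + E)
  have p1 : (1 : ℝ) ≤ 10 ^ l := one_le_pow₀ (by norm_num)
  refine ⟨_, _, g1.and a1, hM.sub (C := 2 * 10 ^ l) (by linarith), ?_⟩
  filter_upwards [a2, g3, G39.sub_dl g2 (c := ρ * (θ * r : ℚ≥0)) (by positivity)] with
    n a2 g3 hb ω hω y W hW h Q hQ
  change ω ∈ (P n).S at hω
  obtain ⟨f, f1, f2, f3⟩ := g3 ω hω y.1
  obtain ⟨T, T1, T2⟩ := near_cells Q (lev M (θ * r : ℚ≥0) n)
  rw [fb _ _ _ _ _ hω, ps] at h ⊢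
  change (2 * 10 ^ l) * (Q.card : ℝ) ≤ Real.exp ((l - 1 / (i + 1 : ℝ)) * (r * M n)) at hQ
  have e' : (mkS la o d D' cc mb mg).mg l E i = max E' ⌈4 / ρ⌉₊ := e
  rw [e', show (mkX la P M j S O n).M = M n from rfl] at h ⊢
  have d2 := d1 r (max E' ⌈4 / ρ⌉₊) n
  have m0 : (0 : ℝ) ≤ r * M n := by positivity
  have d3 : dl M (ρ * (θ * r : ℚ≥0)) n ≤ Real.exp (-(r * M n / ((max E' ⌈4 / ρ⌉₊ : ℕ) + 1))) ^ 2 := by
    rw [← Real.exp_nat_mul, dl, Real.exp_le_exp, mul_neg, neg_le_neg_iff, ← mul_div_assoc,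
      div_le_iff₀ (by positivity)]
    have u : 4 / ρ ≤ (max E' ⌈4 / ρ⌉₊ : ℕ) :=
      (Nat.le_ceil _).trans (Nat.cast_le.2 (le_max_right _ _))
    rw [div_le_iff₀ r0] at u
    push_cast at u ⊢
    nlinarith [mul_le_mul_of_nonneg_left u m0, mul_le_mul_of_nonneg_left t1
      (show 0 ≤ r * M n * ρ * (max (E' : ℝ) ⌈4 / ρ⌉₊ + 1) by positivity), mul_nonneg m0 r0.le]
  have d4 : Real.exp (-(r * M n / ((max E' ⌈4 / ρ⌉₊ : ℕ) + 1))) ≤ 1 :=
    Real.exp_le_one_iff.2 (neg_nonpos.2 (by positivity))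
  have d5 := Real.exp_pos (-(r * M n / ((max E' ⌈4 / ρ⌉₊ : ℕ) + 1)))
  generalize Real.exp (-(r * M n / ((max E' ⌈4 / ρ⌉₊ : ℕ) + 1))) = δ at *
  have d6 := dl_pos M (ρ * (θ * r : ℚ≥0)) n
  have dW : ∀ b, (W b).totalDegree ≤ E' * E + E := fun b => (hW b).1.trans (Nat.le_add_left _ _)
  have l3 : ∀ H : Pl l, aeval (fun b => aeval f (W b)) H = aeval f (aeval W H) := fun H =>
    (AlgHom.congr_fun (comp_aeval W (aeval f)) H).symm
  refine le_trans (pb_mono fun v hv u => ⟨u.1.2, ?_⟩) ((a2 ω hω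
    (fun b => aeval f (W b)) (fun b => ⟨kc.deg _ _ _ _ (hW b).1 f1, ?_⟩) (fun H hH => ?_) T
      (T1.trans ?_)).trans (d3.trans (by nlinarith)))
  rotate_right
  · obtain ⟨v1, q, hq, v2⟩ := u
    refine T2 _ q hq ?_
    rw [Cx.mem_cv hω] at hv
    have d7 := dl_pos M r n
    have u1 : ‖ev (fun b => aeval f (W b)) (x n v) - ev W (ny M la o (a : ℚ) n (j n ω) (j n v))‖ ≤
        dl M r n := (pi_norm_le_iff_of_nonneg d7.le).2 fun b => (abs_sub_comm _ _).trans_le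
      ((f3 v hv.1 v1.1 hv.2 _ (dW b)).trans (mul_le_of_le_one_right d7.le (hW b).2))
    have u2 : dl M r n ≤ (2 ^ lev M (θ * r : ℚ≥0) n)⁻¹ := by
      have := lev_le' M (c := (θ * r : ℚ≥0)) (by positivity) n
      rw [two_pow_eq, ← Real.exp_neg, dl, Real.exp_le_exp, neg_le_neg_iff]
      push_cast at this ⊢
      nlinarith [mul_le_mul_of_nonneg_right this lg_pos.le, mul_le_mul_of_nonneg_left t3 m0]
    have u3 := (le_mul_of_one_le_left (norm_nonneg _) (by linarith)).trans v2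
    exact (norm_sub_le_norm_sub_add_norm_sub _ _ _).trans ((add_le_add u1 u3).trans
      (by rw [two_mul]; exact add_le_add u2 u2))
  · rw [← one_div, le_div_iff₀' d6] at hb
    exact (mul_le_mul_of_nonneg_left ((f2 _ (dW _)).trans (mul_le_of_le_one_right (g2.pos n).le
      (hW _).2)) d6.le).trans hb
  · rcases (kc.nonneg H).eq_or_lt with c0 | c0
    · rw [← c0, mul_zero]
      exact Cx.nc_nn _ _ _ _ _
    refine le_trans ?_ (N2.nu_ge _ (s := δ * cn H) (κ := δ) (by positivity) d5.le (le_trans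
      (by nlinarith) ((h ((cn H)⁻¹ • H) ((totalDegree_smul_le _ _).trans (hH.trans
        (le_max_left _ _))) (by rw [kc.smul, abs_of_pos (inv_pos.2 c0),
          inv_mul_cancel₀ c0.ne'])).trans (pb_mono fun v hv u => ?_))))
    · nlinarith
    rw [Cx.mem_cv hω] at hv
    have u1 := u.2
    have u2 := (f3 v hv.1 u.1.1 hv.2 _ (cmp hW hH).1).trans (mul_le_mul d2 (cmp hW hH).2
      (kc.nonneg _) d5.le)
    rw [smul_eval, abs_mul, abs_of_pos (inv_pos.2 c0), le_inv_mul_iff₀ c0, ← Nc.eval_aeval] at u1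
    rw [l3]
    nlinarith [abs_sub_abs_le_abs_sub (eval (ny M la o (a : ℚ) n (j n ω) (j n v)) (aeval W H))
      (eval (x n v) (aeval f (aeval W H))), mul_pos d5 c0]
  · have u1 := lt_lev M (θ * r : ℚ≥0) n
    have u2 : Real.exp ((l - 1 / (i + 1 : ℝ)) * (r * M n)) ≤ dl M (1 / (4 * (i + 1)) *
        (θ * r : ℚ≥0)) n * (2 ^ (lev M (θ * r : ℚ≥0) n + 1)) ^ l := by
      rw [two_pow_eq, ← Real.exp_nat_mul, dl, ← Real.exp_add, Real.exp_le_exp]
      have i1 : (1 : ℝ) / (i + 1) = 4 * (1 / (4 * (i + 1))) := by field_simp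
      have i2 : (1 : ℝ) / (2 * (i + 1)) = 2 * (1 / (4 * (i + 1))) := by field_simp; norm_num
      have i3 : (0 : ℝ) ≤ 1 / (4 * (i + 1)) := by positivity
      rw [i2] at t4
      rw [i1]
      generalize (1 : ℝ) / (4 * (i + 1)) = η at *
      push_cast at u1 ⊢
      nlinarith [mul_le_mul_of_nonneg_left u1.le (mul_nonneg (Nat.cast_nonneg l) lg_pos.le),
        mul_le_mul_of_nonneg_left t4 m0, mul_le_mul_of_nonneg_left t2 (mul_nonneg i3 m0)]
    rw [pow_succ, mul_pow, ← mul_assoc (dl M _ n)] at u2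
    rw [show (10 : ℝ) = 5 * 2 by norm_num, mul_pow] at hQ
    refine le_of_mul_le_mul_right (le_trans ?_ (hQ.trans u2)) (by positivity : (0 : ℝ) < 2 ^ l)
    nlinarith [show (0 : ℝ) ≤ Q.card * 5 ^ l * 2 ^ l by positivity]

end Pool.Agent.MP_5168f5_an.AN.LC
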