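import Pool.Agent.MP_5168f5_an.AN.LWin
import Pool.Agent.MP_5168f5_an.AN.N2Mod

/-! The entrance to the light class: the frame and the increments. -/

namespace Pool.Agent.MP_5168f5_an.AN.N2

open H19 H17S H17F R4 Filter MvPolynomial Finset
open G39 (dl dl_pos dl_add dl_anti dl_inv)
open Nc (Pl)
open GA (Mt Nr)
open S20 (gp_iff)

section One

variable {m : ℕ} {la ρ : Fin m → ℝ} {u r : Mt (Fin m)} {c : ℝ}

/-- The constant for the inverse. -/
def ci (m : ℕ) : ℝ := (m + 1) * (2 * (m + 1)) ^ m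

theorem one_le_ci (m : ℕ) : 1 ≤ ci m := by
  have m0 : (0 : ℝ) ≤ m := Nat.cast_nonneg _
  exact one_le_mul_of_one_le_of_one_le (by linarith) (one_le_pow₀ (by linarith))

theorem Bd.inv (h : Bd ρ c u) (h0 : ∀ p, 0 < ρ p) (hc : 1 ≤ c) (hu : Uni la u) :
    Bd ρ (ci m * c ^ m) u⁻¹ := fun p q => by
  have z : (1 - u) ^ (m + 1) = 0 :=
    (tri la).pow_zero' (neg_sub u 1 ▸ neg_mem (uni_iff.1 hu))
  have e : u⁻¹ = ∑ i ∈ range (m + 1), (1 - u) ^ i := Matrix.inv_eq_left_inv (by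
    have := geom_sum_mul_neg (1 - u) (m + 1)
    rwa [sub_sub_cancel, z, sub_zero] at this)
  have m0 : (0 : ℝ) ≤ m := Nat.cast_nonneg _
  rw [e, Matrix.sum_apply]
  refine (abs_sum_le_sum_abs _ _).trans ((sum_le_card_nsmul _ _
    ((2 * (m + 1) * c) ^ m * (ρ p / ρ q)) fun i hi => ?_).trans_eq (by
      simp only [ci, card_range, nsmul_eq_mul, mul_pow]; push_cast; ring))
  exact ((((bd_one h0).sub h).pow h0 i).mono h0 ((pow_le_pow_left₀ (by positivity)
    (by nlinarith) i).trans (pow_le_pow_right₀ (by nlinarith)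
      (Nat.lt_succ_iff.1 (mem_range.1 hi))))) p q

theorem rel (hr : Uni la r) (j j' : Mt (Fin m)) : (r⁻¹ * j)⁻¹ * (r⁻¹ * j') = j⁻¹ * j' := by
  rw [Matrix.mul_inv_rev, Matrix.nonsing_inv_nonsing_inv _ hr.det, mul_assoc,
    Matrix.mul_nonsing_inv_cancel_left _ _ hr.det]

end One

variable {N m D : ℕ} {Ω Λ : ℕ → Type} {P : ∀ n, FP (Ω n)} {M : ℕ → ℕ} {x : ∀ n, Ω n → V N}
  {S : ℚ → ∀ n, Ω n → Λ n} {σ : ℝ} {la : Fin m → ℝ} {o : Fin m} {eb : ∀ n, Ω n → Fin m → Pl N}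
  {j : ∀ n, Ω n → Mt (Fin m)} {jr : ℚ → ∀ n, Ω n → Mt (Fin m)} {a : ℚ}

theorem Mod.bd (md : Mod P M x S D σ la o eb j jr) (ha : 0 ≤ a) : Gp P M fun n ω Γ =>
    Bd (fun p => dl M (la p * a) n) Γ ((jr a n ω)⁻¹ * j n ω) :=
  (md.inc a ha).mono (Eventually.of_forall fun n ω _ Γ _ h p q => by
    rw [← dl_sub, ← sub_mul]; exact h p q)

/-- The entries of the increments in a cell. -/
theorem Mod.ent (md : Mod P M x S D σ la o eb j jr) (hM : Big M) (ha : 0 ≤ a) :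
    Gd P M fun n G Γ => ∀ ω ∈ (P n).S, G ω → ∀ v ∈ (P n).S, G v → S a n ω = S a n v →
      Bd (fun p => dl M (la p * a) n) Γ ((j n ω)⁻¹ * j n v) := by
  obtain ⟨Γ, s, w⟩ := gp_iff.1 (md.bd ha)
  have m0 : (0 : ℝ) ≤ m := Nat.cast_nonneg _
  have c1 := one_le_ci m
  refine ⟨_, _, w, ((s.pow m).mul s).const_mul hM (C := (m + 1) * ci m) (by nlinarith),
    (md.fj a ha).mono fun n f ω hω g v hv g' e => ?_⟩
  beta_reduce at g g'
  rw [← f ω hω v hv e] at g'
  rw [← rel (md.ur a n ω)]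
  refine ((g.inv (fun _ => dl_pos _ _ _) (s.1 n) ((md.ur a n ω).inv.mul (md.uj n ω))).mul g'
    fun _ => dl_pos _ _ _).mono (fun _ => dl_pos _ _ _) ?_
  have := mul_pos (pow_pos (s.pos n) m) (s.pos n)
  nlinarith

theorem sInc : LC.SInc := by
  intro d m Ω Λ k P M x s C C' ml t S Θ W τ J D la c w σ o eb j jr md Λ' O D' cc mb mg
  refine ⟨Eventually.of_forall fun n => ⟨isFr la, fun a p q h => ?_, fun ω _ =>
    (Matrix.isUnit_iff_isUnit_det _).2 (md.uj n ω).det⟩,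
    fun ε hε => Eventually.of_forall fun n => ?_, fun a => ?_⟩
  · change eB la a p q ≠ 0 at h
    change la p = la q + eW la a
    by_cases e : a.1.1 = p ∧ a.1.2 = q
    · rw [eW, e.1, e.2, add_sub_cancel]
    · exact absurd (Matrix.single_apply_of_ne _ _ _ _ _ e) h
  · have e1 : 1 ≤ Real.exp (ε * M n) := Real.one_le_exp (by positivity)
    refine ⟨fun a p q => le_trans ?_ e1, fun u a => le_trans ?_
      (le_mul_of_one_le_left (sum_nonneg fun _ _ => sum_nonneg fun _ _ => abs_nonneg _) e1)⟩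
    · change |eB la a p q| ≤ 1
      rw [eB, Matrix.single_apply]
      split_ifs <;> simp
    · change _ ≤ ∑ p, ∑ q, |GA.vec (eB la) u p q|
      rw [← vec_eB u a]
      exact (single_le_sum (f := fun q => |GA.vec (eB la) u a.1.1 q|) (fun _ _ => abs_nonneg _)
        (mem_univ _)).trans (single_le_sum (f := fun p => ∑ q, |GA.vec (eB la) u p q|)
          (fun _ _ => sum_nonneg fun _ _ => abs_nonneg _) (mem_univ _))
  · obtain ⟨A, e, hA, ex⟩ := exLog m
    obtain ⟨G, Γ, g, b, h⟩ := md.ent w.glo.big (a := a) a.2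
    refine ⟨G, _, g, (b.pow e).const_mul w.glo.big hA, h.mono fun n h ω hω u v hv u' z => ?_⟩
    have := ex la (fun p => dl M (la p * (a : ℚ)) n) _ _ _ (b.1 n) (fun _ => dl_pos _ _ _)
      (md.uj n ω) (md.uj n v) (h ω hω u v hv u' (Sum.inl.inj z))
    simp only [← dl_sub, ← sub_mul, Rat.cast_nnratCast] at this
    simp only [dl, mul_assoc] at this
    exact this

end Pool.Agent.MP_5168f5_an.AN.N2
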