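import Pool.Agent.MP_5168f5_an.AN.LWin
import Pool.Agent.MP_5168f5_an.AN.N2Mod
import Pool.Agent.MP_5168f5_an.AN.GCel1

/-! The covering number of a cell in the linear model. -/

namespace Pool.Agent.MP_5168f5_an.AN.LC

open H19 H17S H17F R4 Filter MvPolynomial Finset Metric
open G39 (dl dl_pos dl_inv)
open Nc (Pl ev NiceAt ord)
open GA (Mt)
open N2 (Uni Bd Mod nf ny tri bd_one)
open S20 (dn gp_iff)

namespace NgvA

variable {N m D E j : ℕ} {L c : ℝ}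

theorem cover {Φ : Fin N → Pl N} {ν : Pl N → ℝ} {Y : V N → Prop} (hL : 1 ≤ L)
    (h : ∀ y, Y y → ∃ σ, NiceAt Φ ν D E 1 L y σ) (T : Finset (Z N))
    (hT : ∀ y, Y y → fl j (ev Φ y) ∈ T) : ∃ R : Finset (V N), R.card ≤ T.card * ord N D ^ N ∧
      ∀ y, Y y → ∃ y' ∈ R, ∀ F : Pl N, F.totalDegree ≤ E →
        |eval y F - eval y' F| ≤ (N + 2) * L ^ 2 * ν F * (2 ^ j)⁻¹ := by
  classical
  have l0 : 0 < L := by linarith
  have key : ∀ z : Z N, ∃ R : Finset (V N), R.card ≤ ord N D ^ N ∧ ∀ y, Y y → fl j (ev Φ y) = z →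
      ∃ y' ∈ R, ∀ F : Pl N, F.totalDegree ≤ E →
        |eval y F - eval y' F| ≤ (N + 2) * L ^ 2 * ν F * (2 ^ j)⁻¹ := fun z => by
    by_cases e : ∃ y₀, Y y₀ ∧ fl j (ev Φ y₀) = z
    swap
    · exact ⟨∅, by simp, fun y hy k => absurd ⟨y, hy, k⟩ e⟩
    obtain ⟨y₀, h0, rfl⟩ := e
    obtain ⟨σ₀, n0⟩ := h y₀ h0
    obtain ⟨R, r1, r2⟩ := n0.fib _ (n0.mem l0)
    refine ⟨R, r1, fun y hy e => ?_⟩
    obtain ⟨σ, n1⟩ := h y hy
    have d := (norm_sub_lt_of_fl_eq e).le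
    have N0 : (0 : ℝ) ≤ N := Nat.cast_nonneg _
    by_cases k : ev Φ y₀ ∈ ball (ev Φ y) L⁻¹
    · refine ⟨σ (ev Φ y₀), r2 _ (n1.sheet.inv _ k), fun F hF => ?_⟩
      have a := n1.lip hF le_rfl k (n1.mem l0)
      have b := n1.nn F hF
      rw [n1.base] at a
      calc _ ≤ L * ν F * (N * (2 ^ j)⁻¹) := a.trans (by gcongr)
        _ = N * L * ν F * (2 ^ j)⁻¹ := by ring
        _ ≤ _ := by gcongr <;> nlinarith
    · refine ⟨y₀, r2 _ rfl, fun F hF => ?_⟩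
      have a := n1.der₀ l0 hF (Nat.zero_le _) Fin.elim0
      have a' := n0.der₀ l0 hF (Nat.zero_le _) Fin.elim0
      have b := n1.nn F hF
      rw [Nc.dW_zero] at a a'
      rw [mem_ball, dist_comm, dist_eq_norm, not_lt] at k
      have k' : 1 ≤ L * (2 ^ j)⁻¹ := (inv_le_iff_one_le_mul₀' l0).1 (k.trans d)
      calc _ ≤ 2 * (L * ν F) * 1 := (abs_sub _ _).trans (by linarith)
        _ ≤ (N + 2) * (L * ν F) * (L * (2 ^ j)⁻¹) := by gcongr; linarith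
        _ = _ := by ring
  choose R r1 r2 using key
  exact ⟨T.biUnion R, card_biUnion_le.trans ((sum_le_card_nsmul _ _ _ fun z _ => r1 z).trans_eq
    (smul_eq_mul _ _)), fun y hy => (r2 _ y hy rfl).imp fun _ a =>
      ⟨mem_biUnion.2 ⟨_, hT y hy, a.1⟩, a.2⟩⟩

theorem bd_inv {la ρ : Fin m → ℝ} {u : Mt (Fin m)} (h : Bd ρ c u) (h0 : ∀ p, 0 < ρ p) (hc : 1 ≤ c)
    (hu : Uni la u) : Bd ρ ((m + 1) * (2 * (m + 1)) ^ m * c ^ m) u⁻¹ := fun p q => by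
  have e : u * ∑ i ∈ range (m + 1), (1 - u) ^ i = 1 := by
    have := mul_neg_geom_sum (1 - u) (m + 1)
    rwa [sub_sub_cancel, show (1 - u) ^ (m + 1) = 0 from (tri la).pow_zero'
      (neg_sub u 1 ▸ neg_mem (N2.uni_iff.1 hu)), sub_zero] at this
  have m0 : (0 : ℝ) ≤ m := Nat.cast_nonneg _
  rw [Matrix.inv_eq_right_inv e, Matrix.sum_apply]
  refine (abs_sum_le_sum_abs _ _).trans ((sum_le_card_nsmul _ _
    ((2 * (m + 1) * c) ^ m * (ρ p / ρ q)) fun i hi => ?_).trans_eq (by simp [mul_pow, mul_assoc]))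
  refine ((((bd_one h0).sub h).pow h0 i).mono h0 ?_) p q
  exact (pow_le_pow_left₀ (by positivity) (by nlinarith) i).trans
    (pow_le_pow_right₀ (by nlinarith) (Nat.lt_succ_iff.1 (mem_range.1 hi)))

theorem pos {M : ℕ → ℕ} {la : Fin m → ℝ} {o : Fin m} {a : ℝ} {n : ℕ} {r u : Mt (Fin m)}
    (hr : Uni la r) (hu : Uni la u) (hc : 1 ≤ c)
    (h : ∀ p q, |(r⁻¹ * u) p q| ≤ c * dl M ((la p - la q) * a) n) :
    ∃ B : V m → V m, ∀ v w, ∀ δ : ℝ, 0 ≤ δ → (∀ p, |ny M la o a n r v p - w p| ≤ δ) →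
      ‖nv la o (a * M n) u v - B w‖ ≤ (m + 1) ^ 2 * (2 * (m + 1)) ^ m * c ^ m * δ := by
  have h0 := fun p => dl_pos M (la p * a) n
  have b := bd_inv (ρ := fun p => dl M (la p * a) n)
    (fun p q => (h p q).trans_eq (by rw [sub_mul, N2.dl_sub])) h0 hc (hr.inv.mul hu)
  refine ⟨fun w p => ∑ q, (dl M (la p * a) n)⁻¹ * (r⁻¹ * u)⁻¹ p q * dl M (la q * a) n * w q,
    fun v w δ d0 d => (pi_norm_le_iff_of_nonneg (by positivity)).2 fun p => ?_⟩
  have e : nv la o (a * M n) u v p = ∑ q, (dl M (la p * a) n)⁻¹ * (r⁻¹ * u)⁻¹ p q *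
      dl M (la q * a) n * ny M la o a n r v q := by
    have : u⁻¹ * v = (r⁻¹ * u)⁻¹ * (r⁻¹ * v) := by
      rw [Matrix.mul_inv_rev, Matrix.nonsing_inv_nonsing_inv _ hr.det, Matrix.mul_assoc,
        Matrix.mul_nonsing_inv_cancel_left _ _ hr.det]
    rw [nv, this, Matrix.mul_apply, mul_sum]
    refine sum_congr rfl fun q _ => ?_
    rw [ny, mul_assoc _ (dl M (la q * a) n), mul_inv_cancel_left₀ (h0 q).ne', dl_inv, mul_assoc,
      mul_assoc]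
  rw [Pi.sub_apply, e, ← sum_sub_distrib, Real.norm_eq_abs]
  refine (abs_sum_le_sum_abs _ _).trans ((sum_le_card_nsmul _ _
    ((m + 1) * (2 * (m + 1)) ^ m * c ^ m * δ) fun q _ => ?_).trans ?_)
  · rw [← mul_sub, abs_mul]
    refine mul_le_mul ?_ (d q) (abs_nonneg _) (by positivity)
    rw [abs_mul, abs_mul, abs_of_pos (inv_pos.2 (h0 p)), abs_of_pos (h0 q), mul_assoc,
      inv_mul_le_iff₀ (h0 p), ← le_div_iff₀ (h0 q), mul_comm, mul_div_assoc]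
    exact b p q
  · rw [card_univ, Fintype.card_fin, nsmul_eq_mul, pow_two]
    simp only [mul_assoc]
    gcongr
    linarith

theorem rate (N : ℕ) (hc : 0 < c) : ∃ θ : ℚ≥0, 1 ≤ θ * lg ∧ (N + 1) * (θ * lg - 1) < c * θ := by
  have l0 := lg_pos
  obtain ⟨q, a, b⟩ := exists_rat_btwn (show 1 / lg < (1 + c / (N + 1)) / lg by
    gcongr; exact lt_add_of_pos_right _ (by positivity))
  rw [div_lt_iff₀ l0] at a
  rw [lt_div_iff₀ l0, ← sub_lt_iff_lt_add', lt_div_iff₀' (by positivity)] at b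
  have q1 : (1 : ℝ) < q := by nlinarith [lg_lt_one]
  refine ⟨⟨q, by exact_mod_cast (zero_lt_one.trans q1).le⟩, a.le, b.trans ?_⟩
  exact lt_mul_of_one_lt_right hc q1

end NgvA

open NgvA in
theorem sNgv : SNgv := by
  intro d m Ω Λ k P M x s C C' ml t S Θ W τ J D la c w σ o eb j jr md
  classical
  obtain ⟨θ, t1, t2⟩ := rate d w.pos
  refine ⟨c * θ - (d + 1) * (θ * lg - 1), sub_pos.2 t2, fun Λ' O D' mb mg a r => ?_⟩
  have hM := w.glo.big
  have a0 : (0 : ℚ) ≤ a := a.cast_nonneg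
  obtain ⟨L₁, s1, g1⟩ := gp_iff.1 (cel1.nic hM (w.cel a) D 1)
  obtain ⟨L₂, s2, g2⟩ := gp_iff.1 (w.hv a (θ * r))
  obtain ⟨L₃, s3, g3⟩ := gp_iff.1 (md.inc a a0)
  obtain ⟨L₄, s4, g4⟩ := gp_iff.1 (md.dg a a0)
  have o1 : (1 : ℝ) ≤ ord (d + 1) D ^ (d + 1) := one_le_pow₀ (by exact_mod_cast Nc.ord_pos _ _)
  have m0 : (0 : ℝ) ≤ m := Nat.cast_nonneg _
  have d0 : (0 : ℝ) ≤ d := Nat.cast_nonneg _
  have m1 : (1 : ℝ) ≤ (m + 1) ^ 2 * (2 * (m + 1)) ^ m :=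
    one_le_mul_of_one_le_of_one_le (one_le_pow₀ (by linarith)) (one_le_pow₀ (by linarith))
  have s5 := ((s3.pow m).const_mul hM m1).mul
    (((s1.pow 2).mul s4).const_mul hM (C := 2 * (d + 3) + 1) (by linarith))
  have s6 := s2.const_mul hM o1
  refine ⟨_, _, g1.and (g2.and (g3.and (g4.and (md.pos a r a0)))), s6.mul s5, ?_⟩
  filter_upwards [(w.cel a).frm.fn, md.fe.trans (w.nest 0 a a0), md.fj a a0] with n f1 f2 f3 ω hω g
  obtain ⟨T, T1, T2⟩ := (S20.few_dn (P n) (fun u => fl (lev M (θ * r : ℚ≥0) n) (chs (Θ a) x n u))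
    (S a n) (div_pos (by positivity : 0 < Real.exp (un M (c * (θ * r : ℚ≥0)) n) /
      (2 ^ lev M (θ * r : ℚ≥0) n) ^ (d + 1)) (s2.pos n))) ω hω
  obtain ⟨R, R1, R2⟩ := cover (j := lev M (θ * r : ℚ≥0) n) (Φ := Θ a n ω) (D := D) (E := D)
    (ν := nc (P n) (x n) (S a n) ω) (Y := fun y => ∃ v ∈ (P n).S, S a n v = S a n ω ∧ x n v = y ∧
      (∃ σ, NiceAt (Θ a n v) (nc (P n) (x n) (S a n) v) D D 1 (L₁ n) (x n v) σ) ∧
      fl (lev M (θ * r : ℚ≥0) n) (chs (Θ a) x n v) ∈ T) (s1.1 n)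
    (by rintro _ ⟨v, hv, e, rfl, u, -⟩; rwa [f1 v hv ω hω e, N2.nc_congr _ _ _ e] at u) T
    (by rintro _ ⟨v, hv, e, rfl, -, u⟩; rwa [← f1 v hv ω hω e])
  obtain ⟨B, hB⟩ := pos (o := o) (md.ur a n ω) (md.uj n ω) (s3.1 n) g.2.2.1
  have r0 : (0 : ℝ) ≤ r * M n := by positivity
  have l0 := lg_pos
  have e2 : (2 : ℝ) ^ lev M (θ * r : ℚ≥0) n = Real.exp (lev M (θ * r : ℚ≥0) n * lg) := by
    rw [← log_two_pow, Real.exp_log (by positivity)]
  have e3 := lev_le' M (c := (θ * r : ℚ≥0)) (by positivity) n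
  have e4 := lt_lev M (θ * r : ℚ≥0) n
  rw [NNRat.cast_mul θ r, mul_assoc, ← NNRat.cast_mul θ r] at e3 e4
  refine ⟨R.image fun y => B (ev (nf M la (a : ℚ) n (jr a n ω) (eb n ω)) y), ?_,
    fun v hv gv e => ?_⟩
  · refine (Nat.cast_le.2 (card_image_le.trans R1)).trans ?_
    rw [Nat.cast_mul, Nat.cast_pow, mul_comm, mul_assoc, mul_assoc]
    refine mul_le_mul_of_nonneg_left (T1.trans ?_) (by positivity)
    rw [inv_div, div_div_eq_mul_div, mul_div_assoc, e2, ← Real.exp_nat_mul, ← Real.exp_sub]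
    refine mul_le_mul_of_nonneg_left ((Real.exp_le_exp.2 ?_).trans
      (le_mul_of_one_le_left (Real.exp_pos _).le (s5.1 n))) (s2.pos n).le
    generalize lev M (θ * r : ℚ≥0) n = i at e3
    simp only [un, mkS, mkD]
    push_cast
    nlinarith [mul_le_mul_of_nonneg_right e3 (by positivity : 0 ≤ (d + 1) * lg)]
  · have e : S a n v = S a n ω := Sum.inl.inj e
    obtain ⟨y, y1, y2⟩ := R2 _ ⟨v, hv, e, rfl, gv.1, T2 v hv e ((div_le_iff₀' (s2.pos n)).2 gv.2.1)⟩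
    refine ⟨_, mem_image_of_mem _ y1, (hB (j n v) _ ((2 * (d + 3) + 1) * (L₁ n ^ 2 * L₄ n) *
      Real.exp (-(r * M n))) (by have := s4.pos n; positivity) fun p => ?_).trans ?_⟩
    · have u := gv.2.2.2.2 p
      have u' := y2 _ (g.2.2.2.1.1.1 p)
      have u1 := g.2.2.2.1.2.1 p
      rw [f2 v hv ω hω e, f3 v hv ω hω e, abs_sub_comm, dl] at u
      have u2 : ((2 : ℝ) ^ lev M (θ * r : ℚ≥0) n)⁻¹ ≤ 2 * Real.exp (-(r * M n)) := by
        rw [e2, ← Real.exp_neg, ← Real.exp_log two_pos, ← Real.exp_add, Real.exp_le_exp]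
        change _ ≤ lg + _
        nlinarith [mul_le_mul_of_nonneg_right e4.le l0.le, mul_le_mul_of_nonneg_right t1 r0]
      have u3 := (s1.pow 2).mul s4 |>.1 n
      have u4 := Real.exp_pos (-(r * M n))
      have u5 := s4.pos n
      refine (abs_sub_le _ _ _).trans ((add_le_add u (u'.trans (c := (d + 3) * L₁ n ^ 2 * L₄ n *
        (2 * Real.exp (-(r * M n)))) ?_)).trans ?_)
      · rw [mul_one] at u1
        rw [Nat.cast_succ, add_assoc, show (1 : ℝ) + 2 = 3 by norm_num]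
        gcongr
      · nlinarith
    · rw [← mul_assoc]
      exact mul_le_mul_of_nonneg_right (le_mul_of_one_le_left (s5.pos n).le (s6.1 n))
        (Real.exp_pos _).le

end Pool.Agent.MP_5168f5_an.AN.LC
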