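import Pool.Agent.MP_5168f5_an.AN.Spec
import Pool.Agent.MP_5168f5_an.AN.S20LF

/-! Kakeya sets in all dimensions: a noisy point is spread in every coordinate. -/

namespace Pool.Agent.MP_5168f5_an.AN.S20

open H19 H17S H17F R4 Filter G39 MvPolynomial
open Pk (cn kc)

namespace GSprA

variable {Ω : ℕ → Type} {N k C m : ℕ} {P : ∀ n, FP (Ω n)} {M : ℕ → ℕ} {x : ∀ n, Ω n → V N}
  {κ : ∀ n, Kd k (Ω n)}

/-- The piece locates the point. -/
theorem lip (hM : Big M) (h : Kind P M x κ C m) (j : ℕ → ℕ) :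
    Gd P M fun n G Γ => ∀ a ∈ (P n).S, ∀ b ∈ (P n).S, G a → G b → (κ n).Z a = (κ n).Z b →
      (κ n).W a = (κ n).W b → fl (j n) ((κ n).p a) = fl (j n) ((κ n).p b) →
      ‖x n a - x n b‖ ≤ Γ / 2 ^ j n := by
  obtain ⟨G, Γ, a, b, w⟩ := h.wh 0
  refine ⟨G, _, a, b.const_mul hM one_le_two, w.mono fun n ⟨τ, w⟩ u hu v hv g g' e1 e2 e3 => ?_⟩
  obtain ⟨w1, -, w2⟩ := w v hv g'
  have z := w2 v hv g' rfl rfl
  simp only [sub_self, norm_zero, ne_eq, OfNat.ofNat_ne_zero, not_false_eq_true, zero_add,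
    zero_pow, mul_zero, norm_le_zero_iff, sub_eq_zero] at z
  have g0 := b.pos n
  have d1 := (norm_sub_lt_of_fl_eq e3).le
  have d2 : ((2 : ℝ) ^ j n)⁻¹ ≤ 1 := inv_le_one_of_one_le₀ (one_le_pow₀ one_le_two)
  have d3 : ‖Nc.ev (τ v) ((κ n).p u - (κ n).p v) - x n v‖ ≤ Γ n * ((2 : ℝ) ^ j n)⁻¹ := by
    rw [z]
    refine (pi_norm_le_iff_of_nonneg (by positivity)).2 fun i => ?_
    refine (kc.lip (τ v i) 1 1 ((2 : ℝ) ^ j n)⁻¹ _ 0 (w1 i).1 le_rfl (by positivity) fun l =>
      ⟨(norm_le_pi_norm _ l).trans (d1.trans d2), by simp,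
        by simpa using (norm_le_pi_norm _ l).trans d1⟩).trans ?_
    simpa using mul_le_mul_of_nonneg_right (w1 i).2 (by positivity : 0 ≤ ((2 : ℝ) ^ j n)⁻¹)
  have d4 : ‖(κ n).p u - (κ n).p v‖ ^ (0 + 2) ≤ ((2 : ℝ) ^ j n)⁻¹ := by
    nlinarith [norm_nonneg ((κ n).p u - (κ n).p v)]
  have d5 := (w2 u hu g e1 e2).trans (mul_le_mul_of_nonneg_left d4 g0.le)
  rw [div_eq_mul_inv]
  linarith [norm_sub_le_norm_sub_add_norm_sub (x n u) (Nc.ev (τ v) ((κ n).p u - (κ n).p v)) (x n v)]

end GSprA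

open GSprA in
theorem nsy_spr : ∀ {Ω : ℕ → Type} {d k C : ℕ} {P : ∀ n, FP (Ω n)} {M h j : ℕ → ℕ}
    {x ξ : ∀ n, Ω n → V (d + 1)} {κ : ∀ n, Kd k (Ω n)} (b : Fin (d + 1)), Big M → Lin M j →
    (∀ᶠ n in UF, h n ≤ j n) → Nse P M x ξ κ C → Gp P M fun n ω Γ =>
      dn (P n) (fun v => fl1 (j n) (blurs x ξ h n v b))
        (fun v => ((κ n).Z v, fl (j n) fun i => blurs x ξ h n v (b.succAbove i))) ω ≤
      Γ * 2 ^ h n / 2 ^ j n := by
  intro Ω d k C P M h j x ξ κ b hM ⟨R, hR⟩ _ hN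
  obtain ⟨G, Γ, a1, a2, a3⟩ := lip hM hN.kd j
  have bd : Bdd P M fun n ω i => ξ n ω (b.succAbove i) := by
    obtain ⟨G, Γ, a, b, c⟩ := hN.bd
    exact ⟨G, Γ, a, b, c.mono fun n c ω hω g => (pi_norm_le_iff_of_nonneg (b.pos n).le).2
      fun i => (norm_le_pi_norm _ _).trans (c ω hω g)⟩
  have h1 := ((fullAt_iff hM).1 (full_at hM hN.den hR)).side hM
    (fs_pair (fun n => zero_le_one) (fun n => by positivity) (fs_idx0 hM hN.kd.few _)
      (fs_pair (fun n => by positivity) (fun n => by positivity) (fs_bdd hM hN.kd.bd _ j)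
        (fs_bdd hM bd _ j))) (fnE_const _)
  have h2 := h1.cover (Y' := fun n v => fl1 (j n) (blurs x ξ h n v b)) hM (fnE_const _)
    (fs_of_few (v := fun n => 2 ^ h n) ⟨G, _, a1, a2.const_mul hM (C := 10) (by norm_num),
      a3.mono fun n c => by
        have g1 := a2.1 n
        have g2 : (1 : ℝ) ≤ 2 ^ h n := one_le_pow₀ one_le_two
        refine (few_fl {Fin.natAdd k b} (B := 2 * Γ n * 2 ^ h n) (by nlinarith)
          fun u hu v hv g g' e i => ?_).mono (fun _ _ e => e) (le_of_eq (by simp; ring))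
        simp only [Prod.mk.injEq] at e
        obtain ⟨e1, ⟨e2, e3, e4⟩, e5⟩ := e
        have key : ∀ s t : ℝ, fl1 (j n) s = fl1 (j n) t → |s - t| ≤ 2 * Γ n * 2 ^ h n / 2 ^ j n :=
          fun s t e => (abs_sub_lt_of_fl1_eq e).le.trans (by
            rw [← one_div]
            exact div_le_div_of_nonneg_right (by nlinarith) (by positivity))
        refine Fin.addCases (fun i => ?_) (fun i => ?_) i
        · simp only [Fin.append_left]
          exact ⟨key _ _ (congrFun e3 i), fun _ => congrFun e3 i⟩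
        · simp only [Fin.append_right]
          refine b.succAboveCases ⟨?_, fun w => (w (by simp)).elim⟩ (fun i => ?_) i
          · have k1 := (abs_sub_lt_of_fl1_eq e1).le
            have k2 := (norm_le_pi_norm _ b).trans (c u hu v hv g g' e5 e2 e3)
            have k3 : ξ n u b - ξ n v b = 2 ^ h n * (blurs x ξ h n u b - blurs x ξ h n v b -
                (x n u - x n v) b) := by
              simp only [blur, Pi.add_apply, Pi.smul_apply, Pi.sub_apply, smul_eq_mul]
              field_simp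
              ring
            have k4 : ((2 : ℝ) ^ j n)⁻¹ ≤ Γ n / 2 ^ j n := by
              rw [← one_div]
              exact div_le_div_of_nonneg_right g1 (by positivity)
            rw [k3, abs_mul, abs_of_pos (by positivity), mul_comm (2 * Γ n), mul_div_assoc,
              mul_div_assoc]
            refine mul_le_mul_of_nonneg_left ((abs_sub _ _).trans ?_) (by positivity)
            rw [Real.norm_eq_abs] at k2
            linarith
          · exact ⟨key _ _ (congrFun e4 i), fun _ => congrFun e4 i⟩⟩)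
  have h3 := (h2.side hM (fs_near (y := fun n v i => blurs x ξ h n v (b.succAbove i)) (j := j)
    (r := fun _ => 1) hM (by simp) ⟨G, _, a1, a2.const_mul hM one_le_two,
      a3.mono fun n c u hu v hv g g' e => by
        simp only [Prod.mk.injEq] at e
        obtain ⟨⟨e2, e3, e4⟩, e5⟩ := e
        have g1 := a2.1 n
        refine (pi_norm_le_iff_of_nonneg (by positivity)).2 fun i => ?_
        have k1 := (abs_sub_lt_of_fl1_eq (congrFun e4 i)).le
        have k2 := (norm_le_pi_norm _ (b.succAbove i)).trans (c u hu v hv g g' e5 e2 e3)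
        have k3 : |((2 : ℝ) ^ h n)⁻¹ * (ξ n u (b.succAbove i) - ξ n v (b.succAbove i))| ≤
            Γ n / 2 ^ j n := by
          rw [abs_mul, abs_of_pos (by positivity), div_eq_mul_inv]
          exact mul_le_mul ((inv_le_one_of_one_le₀ (one_le_pow₀ one_le_two)).trans g1) k1
            (abs_nonneg _) (by positivity)
        simp only [blur, Pi.add_apply, Pi.smul_apply, Pi.sub_apply, smul_eq_mul,
          Real.norm_eq_abs] at k2 ⊢
        rw [mul_one, mul_div_assoc]
        rw [abs_le] at k2 k3 ⊢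
        constructor <;> linarith [k2.1, k2.2, k3.1, k3.2]⟩) (fnE_const _)).ctx
    (A := fun n v => ((κ n).Z v, fl (j n) fun i => blurs x ξ h n v (b.succAbove i))) hM
    (Eventually.of_forall fun n u _ v _ e => by
      simp only [Prod.mk.injEq] at e ⊢
      exact ⟨e.2.2, e.1⟩) (fnE_const _)
  obtain ⟨Γ', b1, b2⟩ := gp_iff.1 h3
  refine gp_iff.2 ⟨Γ', b1, b2.mono (Eventually.of_forall fun n ω _ e => e.trans_eq ?_)⟩
  simp only [cvol, pow_add, pow_succ, one_pow]
  field_simp

end Pool.Agent.MP_5168f5_an.AN.S20
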