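import Pool.Agent.MP_5168f5_an.AN.PRem
import Pool.Agent.MP_5168f5_an.AN.S20LF

/-! The inequalities of Remez and Markov on the pieces of a kind. -/

namespace Pool.Agent.MP_5168f5_an.AN.Pk

open H19 H17S H17F R4 Filter MvPolynomial S20
open G39 (dl dl_pos dl_inv dl_add dl_pow dl_lt sub_dl)
open Nc (Pl ev)

variable {N k : ℕ} {Ω β : ℕ → Type} {P : ∀ n, FP (Ω n)} {M : ℕ → ℕ} {y : ∀ n, Ω n → V k}
  {A : ∀ n, Ω n → β n} {G₀ : ∀ n, Ω n → Prop}

/-- A sublevel set of mass `κ` in a fibre controls the coefficients. -/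
theorem full_cn (hM : Big M) (hb : Bdd P M y) (hf : Full P M y A) (E K : ℕ) :
    Gd P M fun n G Γ => ∀ ω ∈ (P n).S, G ω → ∀ D : Pl k, D.totalDegree ≤ E → ∀ θ κ : ℝ,
      dl M K n ≤ κ → κ ≤ pb (cv (P n) (A n) (A n ω)) (fun v => G v ∧ |eval (y n v) D| ≤ θ) →
      cn D ≤ Γ * κ⁻¹ ^ (k * E) * θ := by
  obtain ⟨G1, L1, g1, l1, e1⟩ := hb
  obtain ⟨G2, L2, g2, l2, e2⟩ := hf (2 * (1 + k * E * K))
  obtain ⟨C, hC, r⟩ := cn_poly k 1 E
  have l := l1.add l2 hM
  have s := (l.pow ((k * (k + 1) + 1) * (E * 1))).const_mul hM hC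
  refine ⟨_, _, g1.and g2, s, ?_⟩
  filter_upwards [e1, e2, sub_dl s one_pos] with n a b c ω hω g D hD θ κ u v
  have := r (P n) (y n) (A n) (fun ω => G1 n ω ∧ G2 n ω) (y n) (fun _ => X) (L1 n + L2 n) (dl M K n)
    (2 * (1 + k * E * K) * M n) (l.1 n) (dl_pos _ _ _) (fun ω hω g =>
      ⟨(a ω hω g.1).trans (le_add_of_nonneg_right (l2.pos n).le), fun i => ⟨by simp, by simp⟩,
        fun c => (pb_mono fun v _ u => ⟨u.1.2, u.2⟩).trans ((b ω hω c).trans
          (div_le_div_of_nonneg_right (le_add_of_nonneg_left (l1.pos n).le) (by positivity)))⟩)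
    (by
      refine (mul_le_mul_of_nonneg_right c (pow_pos (inv_pos.2 (dl_pos _ _ _)) _).le).trans
        (le_trans (le_of_eq ?_) (exp_le_two_pow _))
      rw [inv_pow, dl_pow, ← mul_inv, ← dl_add, dl_inv]
      congr 1
      push_cast
      ring) ω hω g D hD θ κ u v
  rw [aeval_X_left_apply, mul_one k] at this
  exact (le_mul_of_one_le_right (kc.nonneg _) (one_le_pow₀ (l.1 n))).trans this

/-- A bound on the good points of a fibre controls the coefficients. -/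
theorem full_sup (hM : Big M) (hb : Bdd P M y) (hf : Full P M y A) (h0 : Whp P G₀) (E : ℕ) :
    Gp P M fun n ω Γ => ∀ D : Pl k, D.totalDegree ≤ E → ∀ θ : ℝ,
      (∀ v ∈ (P n).S, G₀ n v → A n v = A n ω → |eval (y n v) D| ≤ θ) → cn D ≤ Γ * θ := by
  obtain ⟨G, Γ, g, l, e⟩ := full_cn hM hb hf E 1
  refine ⟨_, _, g.and (whp_half (g.and h0) A),
    l.mul (hM.sub (one_le_pow₀ (by norm_num : (1 : ℝ) ≤ (1 / 2)⁻¹) (n := k * E))), ?_⟩
  filter_upwards [e, dl_lt hM one_half_pos (c := (1 : ℕ)) (by simp)] with n a b ω hω u D hD θ h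
  exact a ω hω u.1 D hD θ _ b.le (u.2.trans (pb_mono fun v hv z =>
    ⟨z.1, h v (cE_sub hv) z.2 ((mem_cv hω v).1 hv).2⟩))

variable {κ : ∀ n, Kd k (Ω n)} {t : ℕ → ℕ} {R : ℕ}

theorem fs_pc (hM : Big M) (hb : Bdd P M fun n => (κ n).p) (hw : AN.Few P M 0 fun n => (κ n).W)
    (t : ℕ → ℕ) : FS P M (fun n ω => ((κ n).W ω, fl (t n) ((κ n).p ω))) (fun n => (κ n).Z)
      fun n _ => 1 * (2 ^ t n) ^ k :=
  fs_pair (v := fun _ => 1) (fun _ => zero_le_one) (fun _ => by positivity) (fs_idx0 hM hw _)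
    (fs_bdd hM hb _ t)

/-- The zoomed parameter is full given the piece. -/
theorem zm_full (hM : Big M) (hb : Bdd P M fun n => (κ n).p) (hw : AN.Few P M 0 fun n => (κ n).W)
    (hf : Full P M (fun n => (κ n).p) fun n => (κ n).Z) (ht : ∀ᶠ n in UF, t n ≤ R * M n) :
    Full P M (fun n ω => fr (t n) ((κ n).p ω)) fun n => (κ n).pc (t n) := fun K => by
  have h1 := (fullAt_iff hM).1 (full_at (j := fun n => t n + K * M n) (K := R + K) hM hf
    (ht.mono fun n a => by rw [add_mul]; omega))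
  refine (fullAt_iff hM).2 (((h1.side hM (fs_pc hM hb hw t) (fnE_const _)).fine ?_ ?_ ?_).le ?_)
  · exact Eventually.of_forall fun n u _ v _ e =>
      Prod.ext (congrArg Prod.snd e) (congrArg Prod.fst e)
  · exact Eventually.of_forall fun n u _ v _ e =>
      Prod.ext (congrArg Prod.snd e) (congrArg Prod.fst e)
  · refine Eventually.of_forall fun n u _ v _ e => ?_
    have e1 := congrArg Prod.fst e
    have e2 : fl (t n) ((κ n).p u) = fl (t n) ((κ n).p v) := congrArg (·.2.2.2) e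
    simp only [fl_fr, e2] at e1
    exact funext fun i => sub_left_inj.1 (congrFun e1 i)
  · refine Eventually.of_forall fun n ω _ => le_of_eq ?_
    simp only [cvol, pow_add, mul_pow]
    field_simp

theorem zm_bdd (hM : Big M) (y : ∀ n, Ω n → V k) (t : ℕ → ℕ) :
    Bdd P M fun n ω => fr (t n) (y n ω) :=
  gp_iff.2 ⟨_, hM.sub le_rfl, Whp.of_ev (Eventually.of_forall fun n ω _ =>
    (pi_norm_le_iff_of_nonneg zero_le_one).2 fun i => abs_le.2
      ⟨by linarith [(fr_box (t n) (y n ω) i).1], (fr_box (t n) _ i).2.le⟩)⟩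

/-- The good part of a piece is not too light in its fibre. -/
theorem pc_mass (hM : Big M) (hb : Bdd P M fun n => (κ n).p) (hw : AN.Few P M 0 fun n => (κ n).W)
    (t : ℕ → ℕ) (h0 : Whp P G₀) : Gp P M fun n ω Γ => (Γ * (2 ^ t n) ^ k)⁻¹ ≤
      pb (cv (P n) (κ n).Z ((κ n).Z ω)) fun v => G₀ n v ∧ (κ n).pc (t n) v = (κ n).pc (t n) ω := by
  obtain ⟨Γ, a, b⟩ := gp_iff.1 ((fs_pc hM hb hw t).low hM (fnE_const _))
  refine gp_iff.2 ⟨_, a.const_mul hM one_le_two, (b.and (whp_half h0 fun n v =>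
    (((κ n).W v, fl (t n) ((κ n).p v)), (κ n).Z v))).mono
      (Eventually.of_forall fun n ω hω u => ?_)⟩
  have h1 := dn_mul (Y := fun v => ((κ n).W v, fl (t n) ((κ n).p v))) (A := (κ n).Z) hω (G₀ n)
  have h2 := dn_pos hω (fun v => ((κ n).W v, fl (t n) ((κ n).p v))) (κ n).Z
  have h3 := a.pos n
  refine le_trans ?_ (h1.le.trans (pb_mono fun v hv z =>
    ⟨z.1, Prod.ext ((mem_cv hω v).1 hv).2 z.2⟩))
  rw [inv_le_iff_one_le_mul₀ (by positivity)]
  nlinarith [u.1, mul_le_mul_of_nonneg_left u.2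
    (by positivity : 0 ≤ 2 * Γ n * (2 ^ t n) ^ k * dn (P n) _ (κ n).Z ω)]

/-- The inequality of Markov on a piece. -/
theorem pc_mark (hM : Big M) (hb : Bdd P M fun n => (κ n).p) (hw : AN.Few P M 0 fun n => (κ n).W)
    (hf : Full P M (fun n => (κ n).p) fun n => (κ n).Z) (ht : ∀ᶠ n in UF, t n ≤ R * M n)
    (h0 : Whp P G₀) (E : ℕ) : Gp P M fun n ω Γ => ∀ D : Pl k, D.totalDegree ≤ E → ∀ θ : ℝ,
      (∀ v ∈ (P n).S, G₀ n v → (κ n).pc (t n) v = (κ n).pc (t n) ω → |eval ((κ n).p v) D| ≤ θ) →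
      ∀ z, ‖z - (κ n).p ω‖ ≤ 2 * (2 ^ t n)⁻¹ →
        |eval z D| ≤ Γ * θ ∧ ∀ i, (2 ^ t n)⁻¹ * |eval z (pderiv i D)| ≤ Γ * θ := by
  obtain ⟨Γ, a, b⟩ := gp_iff.1 (full_sup hM (zm_bdd hM _ t) (zm_full hM hb hw hf ht) h0 (E * 1))
  obtain ⟨C0, hC, q⟩ := neq k E
  refine gp_iff.2 ⟨_, (a.mul (hM.sub (one_le_pow₀ (by norm_num : (1 : ℝ) ≤ 3) (n := E * 1)))).const_mul
    hM hC, b.mono (Eventually.of_forall fun n ω hω u D hD θ h z hz => ?_)⟩
  set r : ℝ := (2 ^ t n)⁻¹ with hr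
  have r0 : 0 < r := by positivity
  have r1 : r * 2 ^ t n = 1 := inv_mul_cancel₀ (by positivity)
  set Φ : Fin k → Pl k := fun i => C r * (X i + C (fl (t n) ((κ n).p ω) i : ℝ)) with hΦ
  have hd := kc.deg Φ D E 1 hD fun i => (totalDegree_mul _ _).trans (by
    rw [totalDegree_C, zero_add]
    exact (totalDegree_add _ _).trans (by rw [totalDegree_C]; simp))
  have e : ∀ x : V k, eval x D =
      eval (fun i => 2 ^ t n * x i - fl (t n) ((κ n).p ω) i) (aeval Φ D) := fun x => by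
    rw [eval_aeval]
    congr 2
    funext i
    simp [hΦ, ← mul_assoc, r1]
  have h1 := u _ hd θ fun v hv g c => by
    have := h v hv g c
    have c' : fl (t n) ((κ n).p v) = fl (t n) ((κ n).p ω) := congrArg (·.2.2) c
    rw [fr_eq, c']
    exact (congrArg abs (e _)).symm.trans_le this
  have h2 := ((q D hD).2 ((κ n).p ω) (2 * r) (2 * r) (Γ n * θ * 3 ^ (E * 1)) (by positivity) le_rfl
    fun x hx => by
      rw [e]
      refine (kc.val _ _ 3 _ hd (by norm_num) fun i => ?_).trans (by gcongr)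
      have k1 := (norm_le_pi_norm (x - (κ n).p ω) i).trans hx
      have k2 := fr_box (t n) ((κ n).p ω) i
      rw [fr_eq] at k2
      simp only [Pi.sub_apply, Pi.smul_apply, smul_eq_mul, Real.norm_eq_abs] at k1 k2
      have k3 := abs_le.1 k1
      have k4 : (0 : ℝ) < 2 ^ t n := by positivity
      exact abs_le.2 ⟨by nlinarith, by nlinarith⟩).2 z hz
  rw [div_self (by positivity), one_pow, mul_one] at h2
  refine ⟨h2.1.trans_eq (by ring), fun i => le_trans ?_ ((h2.2 i).trans_eq (by ring))⟩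
  nlinarith [mul_nonneg r0.le (abs_nonneg (eval z (pderiv i D)))]

end Pool.Agent.MP_5168f5_an.AN.Pk
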