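import Pool.Agent.MP_5168f5_an.AN.RlCore
import Pool.Agent.MP_5168f5_an.AN.Spec
import Pool.Agent.MP_5168f5_an.AN.G39Ch

/-! Pieces of a kind: mass, density and the inequality of Remez around a base point. -/

namespace Pool.Agent.MP_5168f5_an.AN.Rl

open H19 H17S H17F R4 Filter MvPolynomial
open Pk (cn kc)
open Nc (Pl ev)
open G39 (RG dl dl_pos dl_add dl_anti dl_pow dl_inv sub_dl dl_lt)
open S20 (dn FS)

variable {Ω : ℕ → Type} {k N : ℕ} {P : ∀ n, FP (Ω n)} {M t : ℕ → ℕ} {κ : ∀ n, Kd k (Ω n)}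

/-- Every exponential loss is enough. -/
theorem gd_of {q : ∀ n, (Ω n → Prop) → ℝ → Prop} (h : ∀ c : ℝ, 0 < c → ∃ G, Whp P G ∧
    ∀ᶠ n in UF, q n (G n) (Real.exp (c * M n))) : Gd P M q := by
  choose G h1 h2 using fun j : ℕ => h (1 / (j + 1 : ℝ)) (by positivity)
  obtain ⟨j, hj, e⟩ := ks.spill (fun j n => pb (P n) (fun ω => ¬G j n ω) ≤ 1 / (j + 1 : ℝ) ∧
    q n (G j n) (Real.exp (1 / (j + 1 : ℝ) * M n))) fun j => (h1 j _ (by positivity)).and (h2 j)
  refine ⟨fun n => G (j n) n, _, fun ε hε => ?_, ⟨fun n => Real.one_le_exp (by positivity),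
    fun ε hε => ?_⟩, e.mono fun n a => (a _ le_rfl).2⟩
  · filter_upwards [e, K31.small hε hj] with n a b using (a _ le_rfl).1.trans b
  · filter_upwards [K31.small hε hj] with n b
    exact Real.exp_le_exp.2 (mul_le_mul_of_nonneg_right b (Nat.cast_nonneg _))

/-- A common majorant. -/
theorem sub_fin (hM : Big M) {r : ℕ} (L : Fin r → ℕ → ℝ) (h : ∀ i, Sub M (L i)) :
    ∃ Γ, Sub M Γ ∧ ∀ n i, L i n ≤ Γ n := by
  have k : ∀ s : Finset (Fin r), Sub M fun n => 1 + ∑ i ∈ s, L i n := fun s => by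
    induction s using Finset.induction_on with
    | empty => simpa using hM.sub le_rfl
    | insert a s ha ih => simpa only [Finset.sum_insert ha, add_left_comm] using (h a).add ih hM
  exact ⟨_, k Finset.univ, fun n i => (Finset.single_le_sum (f := fun i => L i n)
    (fun i _ => ((h i).pos n).le) (Finset.mem_univ i)).trans (by linarith)⟩

theorem two_le_dl {R n : ℕ} (h : t n ≤ R * M n) (k : ℕ) :
    ((2 : ℝ) ^ t n) ^ k ≤ (dl M (k * R) n)⁻¹ := by
  rw [← dl_pow, ← inv_pow, dl_inv]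
  exact pow_le_pow_left₀ (by positivity) ((two_pow_le_exp _).trans
    (Real.exp_le_exp.2 (by exact_mod_cast h))) _

theorem dl_le_two (M : ℕ → ℕ) (A : ℝ) (n : ℕ) : (dl M A n)⁻¹ ≤ 2 ^ (⌈2 * A⌉₊ * M n) := by
  rw [dl_inv]
  refine (Real.exp_le_exp.2 ?_).trans (exp_le_two_pow _)
  push_cast
  linarith [mul_le_mul_of_nonneg_right (Nat.le_ceil (2 * A)) (Nat.cast_nonneg (α := ℝ) (M n))]

/-- A small level. -/
theorem ex_lev (hM : Big M) {σ : ℝ} (h : 0 < σ) : ∃ a : ℕ → ℕ, Lin M a ∧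
    ∀ n, (dl M (σ / 2) n)⁻¹ ≤ 2 ^ a n ∧ (2 : ℝ) ^ a n ≤ 3 * (dl M σ n)⁻¹ := by
  have e := fun n => (Nat.ceil_lt_add_one (show 0 ≤ σ * M n by positivity)).le
  refine ⟨fun n => ⌈σ * M n⌉₊, ⟨⌈σ⌉₊ + 1, (hM.ev 1).mono fun n a => ?_⟩, fun n => ⟨?_, ?_⟩⟩
  · have : (⌈σ * M n⌉₊ : ℝ) ≤ (⌈σ⌉₊ + 1) * M n := by nlinarith [e n, Nat.le_ceil σ]
    exact_mod_cast this
  · rw [dl_inv]
    exact (Real.exp_le_exp.2 (by linarith [Nat.le_ceil (σ * M n)])).trans (exp_le_two_pow _)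
  · rw [dl_inv]
    refine (two_pow_le_exp _).trans ((Real.exp_le_exp.2 (e n)).trans ?_)
    rw [Real.exp_add, mul_comm]
    exact mul_le_mul_of_nonneg_right (by linarith [Real.exp_one_lt_d9]) (Real.exp_pos _).le

theorem Lin.add {a : ℕ → ℕ} (h : Lin M t) (h' : Lin M a) : Lin M fun n => t n + a n :=
  let ⟨R, e⟩ := h
  let ⟨R', e'⟩ := h'
  ⟨R + R', (e.and e').mono fun _ u => by rw [add_mul]; exact add_le_add u.1 u.2⟩

theorem pc_fs (hM : Big M) (bd : Bdd P M fun n => (κ n).p) (few : Few P M 0 fun n => (κ n).W)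
    (t : ℕ → ℕ) : FS P M (fun n => (κ n).pc (t n)) (fun n => (κ n).Z) fun n _ => (2 ^ t n) ^ k := by
  simpa only [one_mul] using S20.fs_fn (Y' := fun n => (κ n).pc (t n)) (fun n => by positivity)
    (S20.fs_pair (fun _ => zero_le_one) (fun n => by positivity)
      (S20.fs_idx0 hM few fun n => (κ n).Z) (S20.fs_bdd hM bd _ t)) S20.fnE_rfl
    (Eventually.of_forall fun n u _ v _ e => Prod.ext (congrArg (·.2) e) (congrArg (·.1) e))

/-- Pieces have large mass. -/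
theorem pc_low (hM : Big M) (bd : Bdd P M fun n => (κ n).p) (few : Few P M 0 fun n => (κ n).W)
    (t : ℕ → ℕ) : Gp P M fun n ω Γ => 1 ≤ Γ * (2 ^ t n) ^ k * dn (P n) ((κ n).pc (t n)) (κ n).Z ω :=
  (pc_fs hM bd few t).low hM (S20.fnE_const _)

/-- The parameter is full in the piece. -/
theorem zm_full (hM : Big M) (bd : Bdd P M fun n => (κ n).p) (few : Few P M 0 fun n => (κ n).W)
    (den : Full P M (fun n => (κ n).p) fun n => (κ n).Z) (ht : Lin M t) :
    Full P M (fun n ω => fr (t n) ((κ n).p ω)) fun n => (κ n).pc (t n) := fun K => by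
  obtain ⟨R, hR⟩ := Lin.add ht (⟨K, Eventually.of_forall fun _ => le_rfl⟩ : Lin M fun n => K * M n)
  refine (S20.fullAt_iff hM).2 (((((S20.fullAt_iff hM).1 (S20.full_at hM den hR)).side hM
    (pc_fs hM bd few t) (S20.fnE_const _)).fine
    (Eventually.of_forall fun n u _ v _ e => Prod.ext e (pc_Z e))
    (Eventually.of_forall fun n u _ v _ e => congrArg (·.1) e)
    (Eventually.of_forall fun n u _ v _ e => funext fun i => ?_)).le
    (Eventually.of_forall fun n _ _ => le_of_eq ?_))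
  · have e1 := congrFun (congrArg (·.1) e) i
    simpa only [fl_fr, pc_p (congrArg (·.2) e), sub_left_inj] using e1
  · rw [S20.cvol, S20.cvol, pow_add, mul_pow]
    field_simp

/-- The inequality of Remez for polynomials in the displacement. -/
theorem lr (hM : Big M) (bd : Bdd P M fun n => (κ n).p) (few : Few P M 0 fun n => (κ n).W)
    (den : Full P M (fun n => (κ n).p) fun n => (κ n).Z) (ht : Lin M t) (L : ℕ) (K : ℝ) :
    Gd P M fun n G A => ∀ ω ∈ (P n).S, RM (cv (P n) ((κ n).pc (t n)) ((κ n).pc (t n) ω))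
      (ds (κ n) (t n) ω) G L A (dl M K n) := by
  obtain ⟨C, hC, r⟩ := rm k L
  obtain ⟨G, D, g, s, e⟩ := zm_full hM bd few den ht ⌈2 * (1 + (k * L : ℕ) * K)⌉₊
  have s' := (s.pow (k * L)).const_mul hM hC
  refine ⟨G, _, g, s', ?_⟩
  filter_upwards [e, sub_dl s' one_pos] with n a b ω hω
  refine r _ _ _ _ _ _ _ (s.1 n) (dl_pos _ _ _) (fun v => norm_le_one_of_box (fr_box _ _))
    (norm_le_one_of_box (fr_box _ _)) (a ω hω) (le_trans ?_ (dl_le_two M _ n))
  rw [dl_add, mul_inv, ← dl_pow, inv_pow]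
  exact mul_le_mul_of_nonneg_right b (inv_pos.2 (pow_pos (dl_pos _ _ _) _)).le

/-- Coefficients are bounded by the values on the good points of the piece. -/
theorem lr_sup (hM : Big M) (bd : Bdd P M fun n => (κ n).p) (few : Few P M 0 fun n => (κ n).W)
    (den : Full P M (fun n => (κ n).p) fun n => (κ n).Z) (ht : Lin M t) (L : ℕ) :
    Gd P M fun n G A => ∀ ω ∈ (P n).S, ∀ G' : Ω n → Prop, (∀ v, G' v → G v) →
      1 / 2 ≤ pb (cv (P n) ((κ n).pc (t n)) ((κ n).pc (t n) ω)) G' → ∀ H : Pl k, H.totalDegree ≤ L →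
      ∀ θ, (∀ v ∈ (P n).S, G' v → (κ n).pc (t n) v = (κ n).pc (t n) ω →
        |eval (ds (κ n) (t n) ω v) H| ≤ θ) → cn H ≤ A * θ := by
  obtain ⟨G, A, g, s, e⟩ := lr hM bd few den ht L 1
  refine ⟨G, _, g, s.const_mul hM (one_le_pow₀ (one_le_two (α := ℝ)) (n := k * L)), ?_⟩
  filter_upwards [e, dl_lt hM one_half_pos one_pos] with n a b ω hω G' i h H d θ u
  refine (a ω hω H d θ _ b.le (h.trans (pb_mono fun v hv z => ?_))).trans_eq
    (by rw [one_div, inv_inv, mul_comm (A n)])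
  have hv' := (S20.mem_cv hω v).1 hv
  exact ⟨i v z, u v hv'.1 z hv'.2⟩

theorem wh_bd {Ω : Type} {κ : Kd k Ω} {x : Ω → V N} {ω : Ω} {τ : Fin N → Pl k} {Γ : ℝ} {j : ℕ}
    (h0 : 0 ≤ Γ) (h : ∀ i, cn (τ i) ≤ Γ)
    (e : ‖x ω - ev τ (κ.p ω - κ.p ω)‖ ≤ Γ * ‖κ.p ω - κ.p ω‖ ^ (j + 2)) : ‖x ω‖ ≤ Γ := by
  rw [sub_self, norm_zero, zero_pow (by omega), mul_zero, norm_le_zero_iff, sub_eq_zero] at e
  rw [e]
  exact (pi_norm_le_iff_of_nonneg h0).2 fun i => (val_le (by simp)).trans (h i)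

end Pool.Agent.MP_5168f5_an.AN.Rl
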