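import Pool.Agent.MP_5168f5_an.AN.GCel2
import Pool.Agent.MP_5168f5_an.AN.GSpr
import Pool.Agent.MP_5168f5_an.AN.PZm
import Pool.Agent.MP_5168f5_an.AN.RlSeq
import Pool.Agent.MP_5168f5_an.AN.S20Nz1

/-! Kakeya sets in all dimensions: the depth of a cell of a noisy point. -/

namespace Pool.Agent.MP_5168f5_an.AN.Ny

open H19 H17S H17F Filter MvPolynomial R4 Vo Cx
open Nc (Pl kc)
open G39 (dl dl_pos sub_dl)
open Pk (cn)
open S20 (gp_iff shA)

variable {Ω Λ Λ' : ℕ → Type} {β β' : Bool → ℕ → Type} {N k C E : ℕ} {P : ∀ n, FP (Ω n)}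
  {M h g : ℕ → ℕ} {x ξ : ∀ n, Ω n → V N} {κ : ∀ n, Kd k (Ω n)} {Z : ∀ b n, Ω n → β b n}
  {Z' : ∀ b n, Ω n → β' b n} {A : ∀ n, Ω n → Λ n} {Q : ∀ n, Ω n → Λ' n} {c : ℝ}

theorem kind_bdd {m : ℕ} (h : Kind P M x κ C m) : Bdd P M x :=
  (h.wh 0).elim fun G ⟨Γ, a, b, e⟩ => ⟨G, Γ, a, b, e.mono fun n ⟨_, w⟩ ω hω g =>
    Rl.wh_bd (b.pos n).le (fun i => ((w ω hω g).1 i).2) ((w ω hω g).2.2 ω hω g rfl rfl)⟩

/-- The noise is full in the pieces. -/
theorem xi_full (hM : Big M) (hN : Nse P M x ξ κ C) (R : ℕ) :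
    Full P M ξ fun n ω => (((κ n).W ω, fl (R * M n) ((κ n).p ω)), (κ n).Z ω) := fun K => by
  have h1 := ((S20.fullAt_iff hM).1 (hN.den (R + K))).side hM
    (Pk.fs_pc hM hN.kd.bd hN.kd.few fun n => R * M n) (S20.fnE_const _)
  have h2 := h1.cover (Y' := fun n v => fl ((R + K) * M n) (ξ n v)) hM (S20.fnE_const _)
    (S20.fs_fn (fun n => by positivity) (S20.fs_near (y := fun n => (κ n).p)
      (j := fun n => (R + K) * M n) (r := fun n => 2 ^ (K * M n))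
      (A := fun n v => fl (R * M n) ((κ n).p v)) hM
      (Eventually.of_forall fun n => one_le_pow₀ one_le_two)
      ⟨fun _ _ => True, _, Whp.of_ev (Eventually.of_forall fun _ _ _ => trivial), hM.sub le_rfl,
        Eventually.of_forall fun n a _ b _ _ _ z => (norm_sub_lt_of_fl_eq z).le.trans_eq (by
          rw [add_mul, pow_add]
          field_simp)⟩)
      (Eventually.of_forall fun n u _ v _ e => congrArg (·.2.1.2) e)
      (Eventually.of_forall fun n u _ v _ e => by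
        simp only [Prod.mk.injEq] at e
        simp only [S20.fl_append, e.1, e.2.1]))
  refine S20.full_coarse (j' := fun n => (R + K) * M n) hM ((S20.fullAt_iff hM).2 (h2.le
    (Eventually.of_forall fun n _ _ => le_of_eq ?_)))
    (Eventually.of_forall fun n => Nat.mul_le_mul_right _ (Nat.le_add_left _ _))
  simp only [S20.cvol, add_mul, pow_add, mul_pow]
  field_simp

/-- The derivative at the noisy point. -/
theorem der_pt (hM : Big M) (hN : Nse P M x ξ κ C) (hA : FnE P A fun n => (κ n).Z)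
    (hf : Fat P M (blurs x ξ h) A) (E : ℕ) : Gp P M fun n ω Γ => ∀ F : Pl N, F.totalDegree ≤ E →
      ∀ i, |eval (blurs x ξ h n ω) (pderiv i F)| ≤
        Γ * 2 ^ h n * nc (P n) (blurs x ξ h n) (A n) ω F := by
  obtain ⟨B, f⟩ := hf E
  obtain ⟨G, Γ, a1, a2, a3⟩ := S20.GSprA.lip hM hN.kd fun n => ⌈2 * B⌉₊ * M n
  obtain ⟨L, l, w⟩ := Cx.Wp.sub ((bdd_wp (kind_bdd hN.kd)).and ((bdd_wp hN.bd).and
    (nc_gd hM (blurs x ξ h) A E)))
  obtain ⟨T, t, u⟩ := gp_iff.1 (Pk.full_sup hM hN.bd (xi_full hM hN ⌈2 * B⌉₊) (a1.and w) E)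
  have e1 : (1 : ℝ) ≤ E + 1 := by linarith [E.cast_nonneg (α := ℝ)]
  have s := (l.const_mul hM one_le_two).pow E
  refine gp_iff.2 ⟨_, (s.const_mul hM e1).mul (t.mul (l.add ((s.const_mul hM e1).mul a2) hM)),
    ((u.and f).and (a1.and w)).mono ?_⟩
  filter_upwards [a3, hA] with n b e ω hω ⟨⟨u, f⟩, g⟩ F hF i
  have l1 := l.1 n
  have g1 := a2.1 n
  have t1 := t.1 n
  have r0 : (0 : ℝ) < (2 ^ h n)⁻¹ := by positivity
  have r1 : ((2 : ℝ) ^ h n)⁻¹ ≤ 1 := inv_le_one_of_one_le₀ (one_le_pow₀ one_le_two)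
  have n0 := nc_nn (P n) (blurs x ξ h n) (A n) ω F
  have bd : ∀ {y z : V N}, ‖y‖ ≤ L n → ‖z‖ ≤ L n → ∀ i, |(y + ((2 : ℝ) ^ h n)⁻¹ • z) i| ≤ 2 * L n :=
    fun {y z} a b i => (norm_le_pi_norm (y + ((2 : ℝ) ^ h n)⁻¹ • z) i).trans
      ((norm_add_le _ _).trans (by
      rw [norm_smul, Real.norm_eq_abs, abs_of_pos r0]
      linarith [mul_le_of_le_one_left (norm_nonneg z) r1]))
  have k1 := u _ (S20.deg_shA (2 ^ h n)⁻¹ (x n ω) hF) ((L n + (E + 1) * (2 * L n) ^ E * Γ n) *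
      nc (P n) (blurs x ξ h n) (A n) ω F) fun v hv g' z => by
    simp only [Prod.mk.injEq] at z
    have m1 := g'.2.2.2 F hF
    rw [fn_nc _ _ _ v hv ω hω (e v hv ω hω z.2)] at m1
    have m2 := b ω hω v hv g.1 g'.1 z.2.symm z.1.1.symm z.1.2.symm
    have m3 := kc.lip F E (2 * L n) (Γ n / 2 ^ (⌈2 * B⌉₊ * M n)) _ _ hF (by linarith) (by positivity)
      fun i => ⟨bd g.2.1 g'.2.2.1 i, bd g'.2.1 g'.2.2.1 i, by
        simpa using (norm_le_pi_norm _ i).trans m2⟩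
    have m4 : cn F / 2 ^ (⌈2 * B⌉₊ * M n) ≤ nc (P n) (blurs x ξ h n) (A n) ω F := by
      refine le_trans ?_ (f F hF)
      rw [div_eq_inv_mul]
      exact mul_le_mul_of_nonneg_right ((inv_le_comm₀ (by positivity) (dl_pos _ _ _)).2
        (Rl.dl_le_two M B n)) (kc.nonneg F)
    have m5 : E * cn F * (2 * L n) ^ E * (Γ n / 2 ^ (⌈2 * B⌉₊ * M n)) ≤
        (E + 1) * (2 * L n) ^ E * Γ n * nc (P n) (blurs x ξ h n) (A n) ω F := by
      calc _ = E * (2 * L n) ^ E * Γ n * (cn F / 2 ^ (⌈2 * B⌉₊ * M n)) := by ring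
        _ ≤ _ := by have := kc.nonneg F; gcongr; linarith
    rw [S20.eval_shA]
    have m6 := abs_sub_abs_le_abs_sub (eval (x n ω + ((2 : ℝ) ^ h n)⁻¹ • ξ n v) F)
      (eval (blurs x ξ h n v) F)
    exact le_trans (by linarith [m6.trans (m3.trans m5)]) (add_mul _ _ _).ge
  have k2 := S20.der_shA (2 ^ h n)⁻¹ (x n ω) hF i
  rw [abs_of_pos r0, inv_mul_le_iff₀ (by positivity)] at k2
  have k3 := kc.val _ E (2 * L n) (ξ n ω) (S20.deg_shA (2 ^ h n)⁻¹ (x n ω)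
    ((kc.der F E i hF).2.trans (Nat.sub_le _ _))) (by linarith)
    fun i => ((norm_le_pi_norm _ i).trans g.2.2.1).trans (by linarith)
  rw [S20.eval_shA] at k3
  have c0 := kc.nonneg (shA (2 ^ h n)⁻¹ (x n ω) F)
  calc _ ≤ 2 ^ h n * ((E + 1) * (T n * ((L n + (E + 1) * (2 * L n) ^ E * Γ n) *
        nc (P n) (blurs x ξ h n) (A n) ω F))) * (2 * L n) ^ E :=
        k3.trans (mul_le_mul_of_nonneg_right (k2.trans (by gcongr; linarith)) (by positivity))
    _ = _ := by ring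

theorem dle (hM : Big M) (_ : Lin M h) (hN : Nse P M x ξ κ C) (hc : CM P M (blurs x ξ h) Z A)
    (hA : FnE P A fun n => (κ n).Z) (hf : Fat P M (blurs x ξ h) A) :
    DLe P M (blurs x ξ h) A h := fun E => wp_gp (p := fun n L ω => ∀ F : Pl N, F.totalDegree ≤ E →
      ∀ i, nc (P n) (blurs x ξ h n) (A n) ω (pderiv i F) ≤
        L * 2 ^ h n * nc (P n) (blurs x ξ h n) (A n) ω F) fun c c0 => by
  refine (whp_all (Q := A) (T := fun _ => {F : Pl N // F.totalDegree ≤ E})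
    (fun _ => ⟨⟨0, by simp⟩⟩) (p := fun n ω F => ∀ i,
      nc (P n) (blurs x ξ h n) (A n) ω (pderiv i F.1) ≤
        Real.exp (c * M n) * 2 ^ h n * nc (P n) (blurs x ξ h n) (A n) ω F.1) ?_ fun a ha => ?_).mono
    (Eventually.of_forall fun _ _ _ k H hH => k ⟨H, hH⟩)
  · exact Eventually.of_forall fun n u hu v hv e => by simp only [fn_nc _ _ _ u hu v hv e]
  · refine wp_sq (q := fun n L ω => ∀ i, nc (P n) (blurs x ξ h n) (A n) ω (pderiv i (a n ω).1) ≤
      L * 2 ^ h n * nc (P n) (blurs x ξ h n) (A n) ω (a n ω).1) ((wp_fin fun i => cm_low hc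
      (fnE_comp ha fun _ s => pderiv i s.1) fun n ω => (kc.der _ E i (a n ω).2).2).and
      (gp_wp (der_pt hM hN hA hf E) fun _ _ _ _ _ l k F hF i => (k F hF i).trans
        (mul_le_mul_of_nonneg_right (mul_le_mul_of_nonneg_right l (by positivity))
          (nc_nn _ _ _ _ _)))) (Eventually.of_forall fun n L l ω _ k i => ?_) c c0
    exact ((k.1 i).trans (mul_le_mul_of_nonneg_left (k.2 _ (a n ω).2 i)
      (zero_le_one.trans l))).trans_eq (by ring)

theorem dge (hM : Big M) (hc : 0 < c) (hg : ∀ᶠ n in UF, g n + c * M n ≤ h n) (bd : Bdd P M ξ)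
    (h1 : CM P M x Z A) (d : DGe P M x A E g) (e : FnE P A Q) (h2 : CM P M (blurs x ξ h) Z' Q)
    (nz : NZ P (blurs x ξ h) Q) : DGe P M (blurs x ξ h) Q E g := by
  obtain ⟨Γ, s, d⟩ := gp_iff.1 d
  have i0 : Nonempty {F : Pl N // F.totalDegree ≤ E} := ⟨⟨0, by simp⟩⟩
  let q : ℕ → (Pl N → ℝ) → {F : Pl N // F.totalDegree ≤ E} → Prop := fun n ν F =>
    ∃ i, 0 < ν F.1 ∧ 2 ^ g n * ν F.1 ≤ Γ n * ν (pderiv i F.1)
  let a : ∀ n, Ω n → {F : Pl N // F.totalDegree ≤ E} := fun n ω =>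
    Classical.epsilon (q n (nc (P n) (x n) (A n) ω))
  have ha : FnE P a A := fnE_comp (fnE_nc P x A) fun n ν => Classical.epsilon (q n ν)
  obtain ⟨L, l, w⟩ := Cx.Wp.sub (((nc_gd hM x A E).and (nc_gd hM (blurs x ξ h) Q E)).and
    ((bdd_wp bd).and ((wp_fin fun i => cm_low h1 (fnE_comp ha fun _ s => pderiv i s.1)
      fun n ω => (kc.der _ E i (a n ω).2).2).and
    (cm_low h2 (fnE_trans (fnE_comp ha fun _ s => s.1) e) fun n ω => (a n ω).2))))
  have n1 : (1 : ℝ) ≤ 2 * (N + 1) ^ (E + 1) :=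
    one_le_mul_of_one_le_of_one_le one_le_two (one_le_pow₀ (by linarith [N.cast_nonneg (α := ℝ)]))
  refine gp_iff.2 ⟨_, (s.mul (l.pow 4)).const_mul hM (by norm_num : (1 : ℝ) ≤ 4),
    ((d.and w).and (nz E)).mono ?_⟩
  filter_upwards [hg, sub_dl ((l.pow (E + 3)).const_mul hM n1) (half_pos hc)] with n b1 b2 ω hω
    ⟨⟨⟨F, i, d1, d2⟩, ⟨w1, w2⟩, w3, w4, w5⟩, z⟩
  have l1 := l.1 n
  have s1 := s.1 n
  set ν := nc (P n) (blurs x ξ h n) (Q n) ω
  have ν0 : ∀ F, 0 ≤ ν F := nc_nn _ _ _ _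
  have νz : ν 0 = 0 := nuP_zero _ _
  by_cases hD : ∀ F : Pl N, F.totalDegree ≤ E → ∀ j, ν (pderiv j F) ≤ L n * 2 ^ g n * ν F
  swap
  · push Not at hD
    obtain ⟨F, u1, j, u2⟩ := hD
    refine ⟨F, j, u1, z F u1 fun u => ?_, ?_⟩
    · rw [u, map_zero, νz, mul_zero] at u2
      exact u2.false
    · refine le_trans ?_ (u2.le.trans (le_mul_of_one_le_left (ν0 _) ?_))
      · rw [mul_assoc]
        exact le_mul_of_one_le_left (mul_nonneg (by positivity) (ν0 _)) l1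
      · nlinarith [one_le_mul_of_one_le_of_one_le s1 (one_le_pow₀ l1 (n := 4))]
  obtain ⟨j, u1, u2⟩ : q n _ (a n ω) := Classical.epsilon_spec (p := q n _) ⟨⟨F, d1⟩, i, d2⟩
  have t1 : 2 * (N + 1) ^ (E + 1) * L n ^ (E + 3) * (2 ^ g n * (2 ^ h n)⁻¹) ≤ 1 := by
    have v1 : g n ≤ h n := by
      have : (g n : ℝ) ≤ h n := by linarith [mul_nonneg hc.le (M n).cast_nonneg]
      exact_mod_cast this
    have v2 : (dl M (c / 2) n)⁻¹ ≤ 2 ^ (h n - g n) := by
      rw [G39.dl_inv]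
      refine (Real.exp_le_exp.2 ?_).trans (exp_le_two_pow _)
      rw [Nat.cast_sub v1]
      linarith
    rw [← Nat.sub_add_cancel v1, pow_add 2 _ (g n), mul_inv, mul_left_comm (2 ^ g n : ℝ),
      mul_inv_cancel₀ (by positivity), mul_one, ← div_eq_mul_inv, div_le_one (by positivity)]
    exact b2.trans v2
  set r : ℝ := 2 ^ g n * (2 ^ h n)⁻¹ with hr
  have r0 : 0 < r := by positivity
  have t2 : N * (N + 1) ^ E * L n ^ (E + 1) * (r * L n) * L n ≤ 1 / 2 := by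
    calc _ ≤ (N + 1) * (N + 1) ^ E * L n ^ (E + 1) * (r * L n) * L n := by gcongr; linarith
      _ = 2 * (N + 1) ^ (E + 1) * L n ^ (E + 3) * r / 2 := by ring
      _ ≤ _ := by gcongr
  have t3 : r * L n ≤ 1 := by
    refine le_trans ?_ t1
    rw [mul_comm]
    exact mul_le_mul_of_nonneg_right ((le_self_pow₀ l1 (by omega)).trans
      (le_mul_of_one_le_left (by positivity) n1)) r0.le
  have key : ∀ F : Pl N, F.totalDegree ≤ E →
      L n * |eval (x n ω) F - eval (blurs x ξ h n ω) F| ≤ ν F / 2 := fun F hF => by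
    have := blur' (y' := x n ω) ν0 νz l1 (by positivity) hD w2 t3 (fun j => by
      simp only [blur, Pi.add_apply, Pi.smul_apply, smul_eq_mul, sub_add_cancel_left, abs_neg,
        abs_mul]
      rw [abs_of_pos (by positivity), ← mul_assoc]
      exact mul_le_mul_of_nonneg_left ((norm_le_pi_norm _ j).trans w3) r0.le) (by positivity) hF
    calc _ ≤ L n * (N * (N + 1) ^ E * L n ^ (E + 1) * (r * L n) * ν F) := by gcongr
      _ = N * (N + 1) ^ E * L n ^ (E + 1) * (r * L n) * L n * ν F := by ring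
      _ ≤ 1 / 2 * ν F := mul_le_mul_of_nonneg_right t2 (ν0 F)
      _ = _ := by ring
  have dj := (kc.der _ E j (a n ω).2).2.trans (Nat.sub_le _ _)
  have p1 : ν (a n ω).1 ≤ 2 * (L n * (L n * nc (P n) (x n) (A n) ω (a n ω).1)) := by
    have := mul_le_mul_of_nonneg_left (abs_sub_abs_le_abs_sub (eval (blurs x ξ h n ω) (a n ω).1)
      (eval (x n ω) (a n ω).1)) (zero_le_one.trans l1)
    rw [abs_sub_comm] at this
    have := mul_le_mul_of_nonneg_left (w1 _ (a n ω).2) (zero_le_one.trans l1)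
    linarith [key _ (a n ω).2]
  have p2 : |eval (x n ω) (pderiv j (a n ω).1)| ≤ 2 * (L n * ν (pderiv j (a n ω).1)) := by
    have := abs_sub_abs_le_abs_sub (eval (x n ω) (pderiv j (a n ω).1))
      (eval (blurs x ξ h n ω) (pderiv j (a n ω).1))
    have := le_mul_of_one_le_left (abs_nonneg (eval (x n ω) (pderiv j (a n ω).1) -
      eval (blurs x ξ h n ω) (pderiv j (a n ω).1))) l1
    have := le_mul_of_one_le_left (ν0 (pderiv j (a n ω).1)) l1
    linarith [key _ dj, w2 _ dj, ν0 (pderiv j (a n ω).1)]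
  refine ⟨_, j, (a n ω).2, z _ (a n ω).2 fun u => ?_, ?_⟩
  · rw [u, nc_eq, nuP_zero] at u1
    exact u1.false
  · calc _ ≤ 2 ^ g n * (2 * (L n * (L n * nc (P n) (x n) (A n) ω (a n ω).1))) := by gcongr
      _ = 2 * L n ^ 2 * (2 ^ g n * nc (P n) (x n) (A n) ω (a n ω).1) := by ring
      _ ≤ 2 * L n ^ 2 * (Γ n * (L n * (2 * (L n * ν (pderiv j (a n ω).1))))) :=
          mul_le_mul_of_nonneg_left (u2.trans (mul_le_mul_of_nonneg_left ((w4 j).trans
            (mul_le_mul_of_nonneg_left p2 (zero_le_one.trans l1))) (zero_le_one.trans s1)))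
            (by positivity)
      _ = _ := by ring

end Pool.Agent.MP_5168f5_an.AN.Ny

namespace Pool.Agent.MP_5168f5_an.AN

theorem nsy : Nsy := ⟨Ny.dle, S20.nsy_spr, Ny.dge⟩

end Pool.Agent.MP_5168f5_an.AN
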