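import Pool.Agent.MP_5168f5_an.AN.SpecG
import Pool.Agent.MP_5168f5_an.AN.EAll
import Pool.Agent.MP_5168f5_an.AN.S20Nz2

/-! Kakeya sets in all dimensions: approximately polynomial kinds. -/

namespace Pool.Agent.MP_5168f5_an.AN.GP

open H19 H17S H17F R4 Filter MvPolynomial S20
open G39 (dl)
open Pk (cn)
open Nc (Pl ev)

namespace GPG7lA

/-- The noise that absorbs the error. -/
noncomputable def xi {Ω : Type} {l J : ℕ} (h : ℕ) (w q : Ω → V l)
    (v : Ω × (Fin l → Fin (2 ^ J))) : V l := gp v.2 + (2 : ℝ) ^ h • (w v.1 - q v.1)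

/-- The polynomial map with noise. -/
noncomputable def ps {k l : ℕ} (h : ℕ) (τ : Fin l → Pl k) (i : Fin l) : Pl (k + l) :=
  rename (Fin.castAdd l) (τ i) + C ((2 : ℝ) ^ h)⁻¹ * X (Fin.natAdd k i)

theorem ps_deg {k l J : ℕ} (h : ℕ) {τ : Fin l → Pl k} (d : ∀ i, (τ i).totalDegree ≤ J)
    (i : Fin l) : (ps h τ i).totalDegree ≤ max J 1 :=
  (totalDegree_add _ _).trans (max_le_max ((totalDegree_rename_le _ _).trans (d i))
    ((totalDegree_mul _ _).trans (by rw [totalDegree_C, totalDegree_X, zero_add])))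

theorem ps_ev {k l : ℕ} (h : ℕ) (τ : Fin l → Pl k) (p : V k) (ξ : V l) :
    ev (ps h τ) (Fin.append p ξ) = ev τ p + ((2 : ℝ) ^ h)⁻¹ • ξ := by
  funext i
  have e : (Fin.append p ξ : V (k + l)) ∘ Fin.castAdd l = p := funext fun j => Fin.append_left _ _ j
  simp only [ev, ps, map_add, map_mul, eval_C, eval_X, eval_rename, e, Fin.append_right,
    Pi.add_apply, Pi.smul_apply, smul_eq_mul]

variable {Ω β : ℕ → Type} {k l J : ℕ} {P : ∀ n, FP (Ω n)} {M L : ℕ → ℕ} {w : ∀ n, Ω n → V l}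
  {Z : ∀ n, Ω n → β n} {p : ∀ n, Ω n → V k} {τ : ∀ n, Ω n → Fin l → Pl k}

theorem nrm (h : ℕ) {L : ℕ} (a : Fin l → Fin (2 ^ L)) : ‖((2 : ℝ) ^ h)⁻¹ • gp a‖ ≤ 1 / 2 ^ h := by
  rw [norm_smul, Real.norm_of_nonneg (by positivity), one_div]
  exact mul_le_of_le_one_right (by positivity) (gp_norm a)

theorem bdd_blur (hM : Big M) (hw : Bdd P M w) (h : ℕ → ℕ) :
    Bdd (NP P l L) M (blurs (pl (Nπ Ω l L) w) (Nξ Ω l L) h) :=
  (gp_pull hw (law_N P l L)).poly hM one_le_two 1 (Eventually.of_forall fun n v _ Γ b c => by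
    have := (nrm (h n) v.2).trans (div_le_self zero_le_one (one_le_pow₀ one_le_two))
    exact (norm_add_le _ _).trans (by rw [pow_one]; exact (add_le_add c this).trans (by linarith)))

/-- The kind with noise. -/
noncomputable abbrev kd {Ω β : Type} {L : ℕ} (h : ℕ) (w : Ω → V l) (Z : Ω → β) (p : Ω → V k)
    (τ : Ω → Fin l → Pl k) : Kd (k + l) (Ω × (Fin l → Fin (2 ^ L))) :=
  ⟨β, fun v => Z v.1, fun _ => 0, fun v => Fin.append (p v.1) (xi h w (fun ω => ev (τ ω) (p ω)) v)⟩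

theorem kind (hM : Big M) (hL : Fine M L) (K : ℕ) (hw : Bdd P M w) (hp : Bdd P M p)
    (fp : Full P M p Z) (fτ : FnE P τ Z) (dτ : ∀ n ω i, (τ n ω i).totalDegree ≤ J)
    (hn : Whp P fun n ω => ‖w n ω - ev (τ n ω) (p n ω)‖ ≤ dl M K n) {C : ℕ}
    (hC : (k + l) * max J 1 ≤ C) :
    Kind (NP P l L) M (blurs (pl (Nπ Ω l L) w) (Nξ Ω l L) fun n => K * M n)
      (fun n => kd (K * M n) (w n) (Z n) (p n) (τ n)) C 0 := by
  choose g g1 g2 using fun n => En.fn_ex (P n) (τ n) (Z n)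
    (q := fun F => ∀ i, (F i).totalDegree ≤ J) (dτ n) (a := 0) (by simp)
  refine En.ek.kind (Ψ := fun n z => ps (K * M n) (g n z)) ⟨hM, ?_, fun R => ?_,
    fun n z => ps_deg _ (g1 n z), Whp.of_ev (fτ.mono fun n u v hv => ?_)⟩ (bdd_blur hM hw _)
    (fun _ _ => rfl) hC
  · refine (gp_pull (hp.whp hn) (law_N P l L)).poly hM one_le_two 1
      (Eventually.of_forall fun n v _ Γ b c => ?_)
    rw [pow_one]
    refine norm_append _ _ (by linarith) (c.1.trans (by linarith)) ((norm_add_le _ _).trans ?_)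
    have e : ‖(2 : ℝ) ^ (K * M n) • (w n v.1 - ev (τ n v.1) (p n v.1))‖ ≤ 1 := by
      rw [norm_smul, Real.norm_of_nonneg (by positivity)]
      refine (mul_le_mul (two_pow_le_exp _) c.2 (norm_nonneg _) (Real.exp_pos _).le).trans_eq ?_
      rw [dl, ← Real.exp_add, Nat.cast_mul, add_neg_cancel, Real.exp_zero]
    linarith [gp_norm v.2]
  · refine full_append hM (full_pull (ρ := Nπ Ω l L) hM (fp R) (law_N P l L))
      (full_ctx hM (full_loc hM (full_xi hM hL P l R) ⟨fun _ _ => True, _, Whp.of_ev (by simp),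
        sub_one M, Eventually.of_forall fun n a _ b _ _ _ e f => ?_⟩)
        (Eventually.of_forall fun n _ _ _ _ e =>
          congrArg (fun ω => (fl (R * M n) (p n ω), Z n ω)) e))
    have := norm_sub_lt_of_fl_eq f
    rw [xi, xi, show a.1 = b.1 from e, add_sub_add_right_eq_sub] at this
    rw [one_div]
    exact this.le
  · change _ = ev _ (Fin.append _ _)
    rw [ps_ev, ← g2 n u v.1 ((mem_prod v).1 hv).1, xi, smul_add,
      inv_smul_smul₀ (by positivity), ← add_assoc, add_right_comm, add_sub_cancel]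
    rfl

end GPG7lA

open GPG7lA

theorem ofG7L : OfG7L := by
  intro nz Ω Λ β k l J P M w Z p τ A thm hM hw hp fp fτ dτ hn mn com K
  have hL : Fine M fun n => M n * M n := fun R =>
    (hM.eventually_ge_atTop R).mono fun n a => Nat.mul_le_mul_right _ a
  have cx : ∀ {W : ℕ → Type} (y : ∀ n, W n → V l), chs (fun _ _ => X) y = y := fun y =>
    funext fun n => En.cht_X _
  have m2 := nz.min (Θ := fun _ _ => X) (D := 1) (h := fun n => K * M n) (x := w) (Z := Z)
    (ν := fun _ _ => cn) hM hL (fun _ _ _ => (totalDegree_X _).le) ((cx w).symm ▸ mn)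
  rw [show pl _ _ = fun _ _ => X from rfl, cx] at m2
  have f := thm _ Λ (fun b => k b + l) (fun _ => 0) ((k true + k false + l) * max J 1)
    (NP P l fun n => M n * M n) M _ (fun n b => kd (K * M n) (w n) (Z b n) (p b n) (τ b n))
    (pl (Nπ Ω l _) A) le_rfl ⟨hM, bdd_blur hM hw _, fun b => kind hM hL K hw (hp b) (fp b) (fτ b)
      (dτ b) (hn b K) (Nat.mul_le_mul_right _ (by cases b <;> omega))⟩ m2
    (fun b => fnE_pull (com b) (law_N _ _ _)) K
  refine full_push hM (full_near hM f (gp_of_sub (sub_one M)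
    (Eventually.of_forall fun n v _ => ?_))) (law_N P l fun n => M n * M n)
  change ‖w n v.1 - (w n v.1 + _)‖ ≤ _
  rw [sub_add_cancel_left, norm_neg]
  exact nrm _ v.2

end Pool.Agent.MP_5168f5_an.AN.GP
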