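import Pool.Agent.MP_5168f5_an.AN.SpecG
import Pool.Agent.MP_5168f5_an.AN.LEGC
import Pool.Agent.MP_5168f5_an.AN.GFullApi
import Pool.Agent.MP_5168f5_an.AN.GCel1

/-! Kakeya sets in all dimensions: the projection theorem from its limit form. -/

namespace Pool.Agent.MP_5168f5_an.AN.GP

open H19 H17S H17F R4 Filter MvPolynomial Cx LC
open G39 (nu dl dl_pos dl_add dl_inv)
open Pk (cn)
open Nc (Pl ev kc)

namespace GPG7pA

/-- One counterexample. -/
structure Ce (Ω : Type) (N l E : ℕ) : Type where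
  a : ℚ
  m : ℕ
  Q : FP Ω
  be : Ω → ℕ
  w : Ω → Fin l → Pl N
  dw : ∀ ω i, (w ω i).totalDegree ≤ E

variable {N l E : ℕ}

/-- The sizes. -/
def Sz {Ω Λ : Type} (y : Ce Ω N l E) (x : Ω → V N) (S : Ω → Λ) (i : ℕ) (c : ℝ) (ω : Ω) : Prop :=
  (y.be ω : ℝ) ≤ Real.exp (c * y.m) ∧ (∀ j, nc y.Q x S ω (y.w ω j) ≤ Real.exp (c * y.m)) ∧
    ∀ H : Pl l, H.totalDegree ≤ i → cn H ≤ Real.exp (c * y.m) * nc y.Q x S ω (aeval (y.w ω) H)

theorem Sz.mono {Ω Λ : Type} {y : Ce Ω N l E} {x : Ω → V N} {S : Ω → Λ} {i i' : ℕ} {c c' : ℝ}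
    {ω : Ω} (h : Sz y x S i c ω) (a : i' ≤ i) (b : c ≤ c') : Sz y x S i' c' ω :=
  have e := Real.exp_le_exp.2 (mul_le_mul_of_nonneg_right b (Nat.cast_nonneg y.m))
  ⟨h.1.trans e, fun j => (h.2.1 j).trans e, fun H k => (h.2.2 H (k.trans a)).trans
    (mul_le_mul_of_nonneg_right e (nc_nn _ _ _ _ _))⟩

variable {Ω Λ : ℕ → Type} {k : Bool → ℕ} (x : ∀ n, Ω n → V N) (s : ℚ → ∀ n, Sy k (Ω n))
  (S : ℚ → ∀ n, Ω n → Λ n) (Θ : ℚ → ∀ n, Ω n → Fin N → Pl N)
  (τ : ℚ → ∀ b n, Ω n → Fin N → Pl (k b)) (C D : ℕ) (ml : Bool → ℕ) (c η : ℝ)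

/-- The class of counterexamples. -/
def Kl (y : ∀ n, Ce (Ω n) N l E) : Prop :=
  Sys (fun n => (y n).Q) (fun n => (y n).m) (fun n => cht (Θ (y n).a n) (x n))
    (fun n => s (y n).a n) C ml ∧
  Cel (fun n => (y n).Q) (fun n => (y n).m) x (lab fun n => s (y n).a n) (fun n => S (y n).a n)
    (fun n => Θ (y n).a n) D ∧
  (∀ g : ℚ≥0, Heavy (fun n => (y n).Q) (fun n => (y n).m) (fun n => cht (Θ (y n).a n) (x n))
    (fun n => S (y n).a n) (lev (fun n => (y n).m) g) (un (fun n => (y n).m) (c * g))) ∧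
  FnE (fun n => (y n).Q) (fun n => (y n).w) (fun n ω => ((y n).be ω, S (y n).a n ω)) ∧
  (∀ b, FnE (fun n => (y n).Q) (fun n => τ (y n).a b n) fun n => (s (y n).a n b).Z) ∧
  (∀ b (K : ℕ), Whp (fun n => (y n).Q) fun n ω => ∀ F : Pl N, F.totalDegree ≤ E →
    |eval (x n ω) F - eval ((s (y n).a n b).p ω) (aeval (τ (y n).a b n ω) F)| ≤
      dl (fun n => (y n).m) K n * nc (y n).Q (x n) (S (y n).a n) ω F) ∧
  Poor (fun n => (y n).Q) (fun n => (y n).m) (fun n => cht (y n).w (x n))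
    (fun n ω => ((y n).be ω, S (y n).a n ω)) (fun n => (y n).m) η

theorem cf_kl (h : ∀ a n ω i, (Θ a n ω i).totalDegree ≤ D) :
    CF (Kl (l := l) (E := E) x s S Θ τ C D ml c η) :=
  let q : ∀ n, Ce (Ω n) N l E → FP (Ω n) := fun _ y => y.Q
  let m : ∀ n, Ce (Ω n) N l E → ℕ := fun _ y => y.m
  (cf_sys q m (fun n y => cht (Θ y.a n) (x n)) (fun n y => s y.a n) C ml).and ((cf_cel q m (fun n _ => x n)
    (fun b n y => (s y.a n b).Z) (fun n y => S y.a n) (fun n y => Θ y.a n) D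
      fun n y => h y.a n).and ((cf_all fun g : ℚ≥0 => cf_heavy q m
    (fun n y => cht (Θ y.a n) (x n)) (fun n y => S y.a n)
    (fun _ y => ⌊(g : ℝ) * y.m⌋₊) fun _ y => c * g * y.m).and ((cf_fnE q (fun _ y => y.w)
    fun n y ω => (y.be ω, S y.a n ω)).and ((cf_all fun b => cf_fnE q (fun n y => τ y.a b n)
    fun n y => (s y.a n b).Z).and ((cf_all fun b => cf_all fun K : ℕ => cf_whp q
      fun n y ω => ∀ F : Pl N, F.totalDegree ≤ E →
        |eval (x n ω) F - eval ((s y.a n b).p ω) (aeval (τ y.a b n ω) F)| ≤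
          Real.exp (-(K * y.m)) * nc y.Q (x n) (S y.a n) ω F).and
    (cf_poor q m (fun n y => cht y.w (x n)) (fun n y ω => (y.be ω, S y.a n ω)) m η))))))

end GPG7pA

open GPG7pA

theorem ofG7P : OfG7P := by
  intro gr lim d mm lo st m Ω Λ k P M x s C C' ml t S Θ W τ J D la c wn hm l hl E η hη
  have hM := wn.glo.big
  let s' : ℚ → ∀ n, Sy k (Ω n) := fun a n b => ((s n b).zm (t a n)).setW (W a b n)
  by_contra hn
  have stage : ∀ L : ℕ, ∃ y : ∀ n, Ce (Ω n) (d + 1) l E,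
      Kl x s' S Θ (τ E) C' D ml (c / 2) η y ∧ Whp (fun n => (y n).Q) fun n =>
        Sz (y n) (x n) (S (y n).a n) L (1 / (L + 1 : ℝ)) := fun L => by
    obtain ⟨ρ, hρ, e4⟩ : ∃ ρ : ℝ, 0 < ρ ∧ 2 * ρ + 2 * ρ = 1 / (L + 1 : ℝ) :=
      ⟨1 / (L + 1 : ℝ) / 4, by positivity, by ring⟩
    obtain ⟨a, h0⟩ := not_forall.1 fun z => hn ⟨ρ, L, hρ, z⟩
    obtain ⟨r, h0⟩ := not_forall.1 h0
    obtain ⟨hr, h0⟩ := Classical.not_imp.1 h0
    have r0 : (0 : ℝ) < r := by exact_mod_cast hr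
    have : Nonempty ({w : Fin l → Pl (d + 1) // ∀ i, (w i).totalDegree ≤ E} × Finset (Z l)) :=
      ⟨⟨⟨0, by simp⟩, ∅⟩⟩
    choose U ι f h1 h2 using fun n => gr (Ω n) (Λ n)
      ({w : Fin l → Pl (d + 1) // ∀ i, (w i).totalDegree ≤ E} × Finset (Z l)) (P n) (S a n)
      (fun z i => (∀ j, dl M (ρ * r) n *
          (nu (cv (P n) (S a n) z) fun v => eval (x n v) (i.1.1 j)) ≤ 1) ∧
        (∀ H : Pl l, H.totalDegree ≤ L → dl M (ρ * r) n * cn H ≤
          nu (cv (P n) (S a n) z) fun v => eval (x n v) (aeval i.1.1 H)) ∧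
        (i.2.card : ℝ) ≤ dl M (η * r) n * (2 ^ lev M r n) ^ l)
      (fun i v => fl (lev M r n) (ev i.1.1 (x n v)) ∈ i.2) _ (dl_pos M (ρ * r) n)
    have hU : Pos P U := (not_whp fun z => h0 ⟨_, z, Eventually.of_forall
      fun n ω hω w a1 a2 T a3 => h2 n ω hω (⟨w, fun i => (a1 i).1⟩, T)
        ⟨fun i => (a1 i).2, a2, a3⟩⟩).mono (Eventually.of_forall fun _ _ _ => not_not.1)
    have cp : Cmp M (lev M r) := cmp_of hM r0 (lev_eqv hM r0.le)
    have l1 := lev_le' M r0.le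
    have l2 : ∀ᶠ n in UF, r * (M n : ℝ) ≤ 2 * lev M r n := (hM.ev (2 / r)).mono fun n u => by
      rw [div_le_iff₀ r0] at u
      linarith [lt_lev M r n]
    have ne := fun E' => S20.gp_iff.1
      (Gp.unit ((her2.cm (K31.dnS_cE hU) hM (wn.cel a).cm).2 E') cp)
    refine ⟨fun n => ⟨a, lev M r n, cE (P n) (U n), ι n, fun ω => (f n (ι n ω) (S a n ω)).1.1,
      fun ω => (f n (ι n ω) (S a n ω)).1.2⟩, ⟨(G7A.sys_cE (wn.sys a) hU).unit cp,
      ((wn.cel a).cE hM hU).unit cp, fun g => ?_, fnE_of fun n u v e =>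
        congrArg (fun z : ℕ × Λ n => (f n z.1 z.2).1.1) e, fun b => (wn.par E a b 0).fn.cE U,
      fun b K => ?_, hU.sure.mono fun n u ω hω => ⟨(f n (ι n ω) (S a n ω)).2,
        (h1 n ω (u ω hω).1 (u ω hω).2).2.1.2.2.trans (mul_le_mul_of_nonneg_right
          (Real.exp_le_exp.2 (by nlinarith [l1 n])) (by positivity)), fun v hv e => ?_⟩⟩, ?_⟩
    · have g0 : (0 : ℝ) ≤ g := NNRat.cast_nonneg g
      refine Gp.unit (Gp.mono (fullApi.fine (j' := lev (lev M r) g) hM (l2.mono fun n u =>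
        Nat.floor_mono (by push_cast; nlinarith)) ((wn.hv a (r * g / 2)).cE hM hU))
        (Eventually.of_forall fun n ω _ Γ _ => le_trans (div_le_div_of_nonneg_right
          (Real.exp_le_exp.2 ?_) (by positivity)))) cp
      simp only [un]
      push_cast
      nlinarith [mul_le_mul_of_nonneg_left (l1 n) (mul_nonneg wn.pos.le g0)]
    · obtain ⟨K', hK⟩ := cp.symm.dl' (K + 1)
      obtain ⟨Γ, u, v⟩ := ne E
      refine (((wn.par E a b K').err.cE hU).and v).mono ?_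
      filter_upwards [hK, G39.sub_dl u one_pos] with n a1 a2 ω _ z F hF
      refine (z.1 F hF).trans ((mul_le_mul a1 ((z.2 F hF).1.trans (mul_le_mul_of_nonneg_right a2
        (nc_nn _ _ _ _ _))) (nc_nn _ _ _ _ _) (dl_pos _ _ _).le).trans_eq ?_)
      rw [dl_add, mul_assoc, mul_inv_cancel_left₀ (dl_pos _ _ _).ne']
      rfl
    · exact congrArg (fun z : ℕ × Λ n => (f n z.1 z.2).2) e ▸ (h1 n v (u v hv).1 (u v hv).2).2.2
    · obtain ⟨Γ, u, v⟩ := ne (E + L * E)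
      refine v.mono ?_
      filter_upwards [hU.sure, l2, u.2 (2 * ρ) (by positivity)] with n a1 a2 a3 ω hω z
      obtain ⟨b1, ⟨b2, b3, -⟩, -⟩ := h1 n ω (a1 ω hω).1 (a1 ω hω).2
      have d0 := dl_pos M (ρ * r) n
      have d1 : (dl M (ρ * r) n)⁻¹ ≤ Real.exp (2 * ρ * lev M r n) := by
        rw [dl_inv]; exact Real.exp_le_exp.2 (by nlinarith)
      have d2 := Real.one_le_exp (x := 2 * ρ * lev M r n) (by positivity)
      have dw := (f n (ι n ω) (S a n ω)).1.2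
      rw [← le_inv_mul_iff₀ d0, mul_one] at b1
      simp only [Sz, ← e4, add_mul, Real.exp_add]
      refine ⟨(b1.trans d1).trans (le_mul_of_one_le_left (by positivity) d2), fun j =>
        (z _ ((dw j).trans (Nat.le_add_right _ _))).2.trans (mul_le_mul a3 (le_trans ?_ d1)
          (nc_nn _ _ _ _ _) (by positivity)), fun H hH => ?_⟩
      · rw [← mul_one (dl M (ρ * r) n)⁻¹, le_inv_mul_iff₀ d0]
        exact b2 j
      · rw [mul_assoc]
        exact ((le_inv_mul_iff₀ d0).2 (b3 H hH)).trans (mul_le_mul d1 ((z _ ((kc.deg _ _ _ _ hH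
          dw).trans (Nat.le_add_left _ _))).1.trans (mul_le_mul_of_nonneg_right a3
            (nc_nn _ _ _ _ _))) (nc_nn _ _ _ _ _) (by positivity))
  choose y y1 y2 using stage
  obtain ⟨j, -, hj⟩ := cf_diag (K := fun i y => Kl x s' S Θ (τ E) C' D ml (c / 2) η y ∧
      Whp (fun n => (y n).Q) fun n => Sz (y n) (x n) (S (y n).a n) i (1 / (i + 1 : ℝ)))
    (fun i => (cf_kl x s' S Θ (τ E) C' D ml (c / 2) η fun a => (wn.cel a).frm.deg).and
      (cf_whp (fun n (y : Ce (Ω n) (d + 1) l E) => y.Q) fun n y =>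
        Sz y (x n) (S y.a n) i (1 / (i + 1 : ℝ)))) y
    fun L i hi => ⟨y1 L, (y2 L).mono (Eventually.of_forall fun _ _ _ u => u.mono hi
      (Nat.one_div_le_one_div hi))⟩
  obtain ⟨⟨k1, k2, k3, k4, k5, k6, k7⟩, -⟩ := hj 0
  have sz : ∀ (E' : ℕ) (e : ℝ), 0 < e → Whp (fun n => (y (j n) n).Q) fun n =>
      Sz (y (j n) n) (x n) (S (y (j n) n).a n) E' e := fun E' e he => by
    obtain ⟨i, hi⟩ := exists_nat_one_div_lt he
    exact (hj (E' + i)).2.mono (Eventually.of_forall fun _ _ _ u => u.mono (Nat.le_add_right _ _)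
      ((Nat.one_div_le_one_div (Nat.le_add_left _ _)).trans (by exact_mod_cast hi.le)))
  have fu := lim d mm st Ω Λ k ml l C' D E (J E) (c / 2) _ _ x _ _ _ _ _
    (fun b n => τ E (y (j n) n).a b n) (lo l hl) (half_pos wn.pos) hm k1 k2 k3
    (S20.gp_of_wp fun e he => (sz 0 e he).mono (Eventually.of_forall fun _ _ _ u => by
      simpa using u.1)) k4 (fun n => (y (j n) n).dw)
    (S20.gp_of_wp fun e he => (sz 0 e he).mono (Eventually.of_forall fun _ _ _ u => u.2.1))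
    (fun E' => S20.gp_of_wp fun e he => (sz E' e he).mono
      (Eventually.of_forall fun _ _ _ u => u.2.2)) k5
    (fun b n => (wn.par E _ b 0).deg n) k6
  exact S20.not_poor k1.big (fu.lin k1.big (lin_rfl _)) hη k7

end Pool.Agent.MP_5168f5_an.AN.GP
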