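import Pool.Agent.MP_5168f5_an.AN.SpecG
import Pool.Agent.MP_5168f5_an.AN.S20Dn

/-! The greedy cover. -/

namespace Pool.Agent.MP_5168f5_an.AN.GP

open H19 H17S H17F R4 Filter

namespace GPGrdA

theorem one {Ω I : Type} [Nonempty I] (P : FP Ω) (ok : I → Prop) (B : I → Ω → Prop) {θ : ℝ}
    (hθ : 0 < θ) : ∃ (n : ℕ) (f : ℕ → I), θ * n ≤ 1 ∧ (∀ i < n, ok (f i)) ∧
      ∀ j, ok j → pb P (fun v => (¬∃ i < n, B (f i) v) ∧ B j v) ≤ θ := by
  by_contra H
  have key : ∀ n : ℕ, ∃ f : ℕ → I, (∀ i < n, ok (f i)) ∧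
      θ * n ≤ pb P fun v => ∃ i < n, B (f i) v := fun n => by
    induction n with
    | zero =>
      exact ⟨Classical.arbitrary _, fun _ h => absurd h (Nat.not_lt_zero _),
        by simpa using pb_nonneg P _⟩
    | succ n ih =>
      obtain ⟨f, h1, h2⟩ := ih
      obtain ⟨j, j1, j2⟩ : ∃ j, ok j ∧ θ < pb P fun v => (¬∃ i < n, B (f i) v) ∧ B j v := by
        by_contra k
        exact H ⟨n, f, h2.trans (pb_le_one P _), h1, fun j a => not_lt.1 fun b => k ⟨j, a, b⟩⟩
      have e : ∀ i < n, Function.update f n j i = f i := fun i h => Function.update_of_ne h.ne _ _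
      refine ⟨Function.update f n j, fun i h => ?_, ?_⟩
      · rcases Nat.lt_succ_iff_lt_or_eq.1 h with h | rfl
        · exact e i h ▸ h1 i h
        · rwa [Function.update_self]
      · rw [pb_split P _ fun v => ∃ i < n, B (f i) v, Nat.cast_succ, mul_add, mul_one]
        refine add_le_add (h2.trans (pb_mono fun v _ ⟨i, a, b⟩ =>
          ⟨⟨i, a.trans n.lt_succ_self, e i a ▸ b⟩, i, a, b⟩)) (j2.le.trans (pb_mono fun v _ a =>
          ⟨⟨n, n.lt_succ_self, ?_⟩, a.1⟩))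
        rw [Function.update_self]; exact a.2
  obtain ⟨n, hn⟩ := exists_nat_gt (1 / θ)
  obtain ⟨f, -, h⟩ := key n
  exact (h.trans (pb_le_one P _)).not_gt ((div_lt_iff₀' hθ).1 hn)

end GPGrdA

theorem grd : Grd := by
  intro Ω Λ I _ P A ok B θ hθ
  classical
  choose n f h1 h2 h3 using fun a => GPGrdA.one (cv P A a) (ok a) B hθ
  refine ⟨fun ω => ∃ i < n (A ω), B (f (A ω) i) ω,
    fun ω => if h : ∃ i < n (A ω), B (f (A ω) i) ω then h.choose else 0, fun i a => f a i,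
    fun ω _ h => ?_, fun ω hω i hi => (pb_congr fun v hv => ?_).trans_le (h3 _ i hi)⟩
  · simp only [dif_pos h]
    exact ⟨(mul_le_mul_of_nonneg_left (Nat.cast_le.2 h.choose_spec.1.le) hθ.le).trans (h1 _),
      h2 _ _ h.choose_spec.1, h.choose_spec.2⟩
  · simp only [((S20.mem_cv hω v).1 hv).2]

end Pool.Agent.MP_5168f5_an.AN.GP
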