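import Pool.Agent.MP_5168f5_an.AN.SpecG
import Pool.Agent.MP_5168f5_an.AN.GCel1

/-! Kakeya sets in all dimensions: the limit form of the projection theorem. -/

namespace Pool.Agent.MP_5168f5_an.AN.GP

open H19 H17S H17F R4 Filter MvPolynomial Cx
open G39 (dl dl_pos dl_add dl_inv)
open Pk (cn)
open Nc (Pl ev eval_aeval kc)

theorem ofLIM : OfLIM := by
  intro ko th g7 N mm up Ω Λ k m l C D E J c P M x s S Θ be w τ tl hc hm hs ce hv hb fw dw bw iw
    fτ dτ eτ
  have hM := hs.big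
  have fZ : ∀ b, FnE P (lab s b) (hat (lab s) (fun _ => be) b) := fun b =>
    fnE_of fun _ _ _ e => congrArg Prod.snd e
  have cS : Com P (hat (lab s) fun _ => be) S := fun b => (ce.cm.com b).trans (fZ b)
  have cm := th _ _ _ _ N D P M x _ _ S Θ hM ce cS
    (up Ω Λ k m C c P M _ s S _ hc hm hs ce.frm.min ce.cm.com (fun _ => hb) hv)
  have cA : Com P (hat (lab s) fun _ => be) fun n ω => (be n ω, S n ω) := fun b =>
    (cS b).mono fun _ a u hu v hv e => Prod.ext (congrArg (·.1) e) (a u hu v hv e)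
  have bw' := gp_wp bw fun _ _ _ _ _ l k i => (k i).trans l
  refine g7 Ω _ _ k l (E * J) P M (chs w x) _ (fun b n => (s n b).p)
    (fun b n ω i => aeval (τ b n ω) (w n ω i)) _ tl hM (wp_gp (wp_sq ((nc_gd hM x S E).and bw')
      (Eventually.of_forall fun n L a ω _ u => (pi_norm_le_iff_of_nonneg (by positivity)).2 fun i =>
        (u.1 _ (dw n ω i)).trans (mul_le_mul_of_nonneg_left (u.2 i) (zero_le_one.trans a)))))
    (fun b => (hs.kd b).bd) (fun b => (ko.ctx hM (hs.kd b) hb).den) (fun b => ?_)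
    (fun b n ω i => kc.deg _ _ _ _ (dw n ω i) (dτ b n ω)) (fun b K => ?_) ?_ cA
  · filter_upwards [fw.trans (cA b), (fτ b).trans (fZ b)] with n a a' u hu v hv e
    simp only [a u hu v hv e, a' u hu v hv e]
  · refine ((eτ b (K + 1)).and (bw' 1 one_pos)).mono (Eventually.of_forall fun n ω _ u =>
      (pi_norm_le_iff_of_nonneg (dl_pos _ _ _).le).2 fun i => (u.1 _ (dw n ω i)).trans
        ((mul_le_mul_of_nonneg_left (u.2 i) (dl_pos _ _ _).le).trans_eq ?_))
    rw [Nat.cast_succ, dl_add, ← dl_inv, mul_inv_cancel_right₀ (dl_pos M 1 n).ne']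
  · refine nt_mono (ν := fun n ω H => nc (P n) (x n) (S n) ω (aeval (w n ω) H))
      (fun E' c F h0 hF => ?_) fun E' => gp_wp (iw E') fun _ _ _ _ _ l k H hH =>
        (k H hH).trans (mul_le_mul_of_nonneg_right l (nc_nn _ _ _ _ _))
    refine (nt_fn cm.nt h0 (F := fun b n ω => aeval (w n ω) (F b n (be n ω, (s n b).Z ω)))
      (fun b => ?_) fun b n ω => kc.deg _ _ _ _ (hF _ _ _) (dw n ω)).mono
      (Eventually.of_forall fun n ω _ k u => k ⟨by rw [u.1], by rw [eval_aeval]; exact u.2⟩)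
    exact (fw.trans (cA b)).mono fun n k u hu v hv z => by simp only [k u hu v hv z, z]

end Pool.Agent.MP_5168f5_an.AN.GP
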