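import Pool.Agent.MP_5168f5_an.AN.SpecS
import Pool.Agent.MP_5168f5_an.AN.S20Ds

/-! Steep windows: the point of a minimal cell is generic for the norm of the cell. -/

namespace Pool.Agent.MP_5168f5_an.AN.St

open H19 H17S H17F Filter MvPolynomial
open G39 (nu RG dl REM Nm)
open Pk (cn mons)
open Nc (Pl ev jac NiceAt Bas)

namespace StOwnA

variable {N : ℕ} {Ω Λ : ℕ → Type} {β : Bool → ℕ → Type} {P : ∀ n, FP (Ω n)} {M : ℕ → ℕ}
  {x : ∀ n, Ω n → V N} {Z : ∀ b n, Ω n → β b n} {Q : ∀ n, Ω n → Λ n}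

theorem fac {W B : Type} (μ : FP W) (Y : W → B) (F : W → Pl N) {E : ℕ}
    (h : ∀ ω, (F ω).totalDegree ≤ E) : ∃ F' : B → Pl N, (∀ z, (F' z).totalDegree ≤ E) ∧
      (Fn μ F Y → ∀ ω ∈ μ.S, F' (Y ω) = F ω) := by
  have k : ∀ z, ∃ H : Pl N, H.totalDegree ≤ E ∧ (Fn μ F Y → ∀ ω ∈ μ.S, Y ω = z → H = F ω) :=
    fun z => by
    by_cases c : ∃ v ∈ μ.S, Y v = z
    · obtain ⟨v, a, b⟩ := c
      exact ⟨F v, h v, fun f ω hω e => f v a ω hω (b.trans e.symm)⟩
    · exact ⟨0, by simp, fun _ ω hω e => (c ⟨ω, hω, e⟩).elim⟩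
  choose F' a b using k
  exact ⟨F', a, fun f ω hω => b _ f ω hω rfl⟩

theorem nt {ν : ∀ n, Ω n → Pl N → ℝ} (h : NT P M x Z ν) (hQ : Com P Z Q) {E : ℕ} {c : ℝ}
    {F : ∀ n, Ω n → Pl N} (hc : 0 < c) (hF : FnE P F Q) (hd : ∀ n ω, (F n ω).totalDegree ≤ E) :
    Whp P fun n ω => dl M c n * ν n ω (F n ω) ≤ |eval (x n ω) (F n ω)| := by
  choose F' a b using fun b n => fac (P n) (Z b n) (F n) (hd n)
  refine (h E c F' hc a).mono ?_
  filter_upwards [hF, hQ true, hQ false] with n e e1 e2 ω hω k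
  rw [b true n (e.trans e1) ω hω, b false n (e.trans e2) ω hω] at k
  exact not_lt.1 fun l => k ⟨rfl, l⟩

theorem up (hM : Big M) (E : ℕ) {c : ℝ} (hc : 0 < c) : Whp P fun n ω => ∀ F : Pl N,
    F.totalDegree ≤ E → |eval (x n ω) F| ≤ (dl M c n)⁻¹ * nc (P n) (x n) (Q n) ω F :=
  (K3.whp_cg_cv hM Q (fun n _ => x n) E hc).mono (Eventually.of_forall fun n _ _ k F hF =>
    k (fun v => eval (x n v) F) ⟨F, hF, fun _ => rfl⟩)

end StOwnA

open StOwnA

theorem rOwn : Own where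
  gp P M x Z Q hM h :=
    ⟨hM, Eventually.of_forall fun n a _ b _ e => funext fun F => by simp only [nc, e],
      fun E => S20.gp_of_wp fun c hc => by simpa only [G39.dl_inv] using up hM E hc,
      fun _ _ _ hc hF hd => nt h.nt h.com hc hF hd⟩
  fn P M x Z Q Θ D hM h hz := by
    refine ⟨h.frm.fn, h.frm.deg, S20.gp_of_wp fun c hc => ?_, fun E c H hc hH hd => ?_,
      fun n ω => Nc.nu_eq_zero.2 fun _ _ => map_zero _, fun E => (hz E).mono
        (Eventually.of_forall fun n ω _ k => Nc.bas_nuP _ _ E fun F a b => k F b a)⟩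
    · obtain ⟨Γ, g1, g2⟩ := S20.gp_iff.1 h.frm.bd
      refine (g2.and (Whp.all fun j => nt (F := fun n ω => Θ n ω j) h.cm.nt h.cm.com (half_pos hc)
        (h.frm.fn.mono fun n e => (Fn.comp (· j) _).trans e) fun n ω => h.frm.deg n ω j)).mono ?_
      filter_upwards [G39.sub_dl g1 (half_pos hc)] with n a ω _ ⟨b, e⟩ j
      rw [← G39.dl_inv, G39.dl_half, mul_inv, ← div_eq_mul_inv, le_div_iff₀' (G39.dl_pos ..)]
      exact (e j).trans ((norm_le_pi_norm (cht (Θ n) (x n) ω) j).trans (b.trans a))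
    · refine ((nt h.frm.min h.cm.com (half_pos hc) hH hd).and
        (up (x := x) (Q := Q) hM (E * D) (half_pos hc))).mono
        (Eventually.of_forall fun n ω _ ⟨a, b⟩ => ?_)
      have e := b _ (Nc.kc.deg _ _ E D (hd n ω) (h.frm.deg n ω))
      rw [Nc.eval_aeval, le_inv_mul_iff₀ (G39.dl_pos ..)] at e
      rw [G39.dl_half, mul_assoc]
      exact (mul_le_mul_of_nonneg_left a (G39.dl_pos ..).le).trans e

end Pool.Agent.MP_5168f5_an.AN.St
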