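import Pool.Agent.MP_5168f5_an.AN.SpecS2
import Pool.Agent.MP_5168f5_an.AN.StOwn

/-! Steep windows: minimal labels and the depth survive conditioning. -/

namespace Pool.Agent.MP_5168f5_an.AN.St

open H19 H17S H17F Filter MvPolynomial
open G39 (nu RG dl REM Nm)
open Pk (cn mons)
open Nc (Pl ev jac NiceAt Bas)

namespace StHerA

theorem nu_cE {W : Type} (μ : FP W) (G : W → Prop) (f : W → ℝ) {L : ℝ} (hL : 1 ≤ L)
    (h : L⁻¹ ≤ pb μ G) : nu (cE μ G) f ≤ L * nu μ f := by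
  have l0 : 0 < L := one_pos.trans_le hL
  have a := (E_cE μ G fun ω => f ω ^ 2).trans_le (μ.E_mono (G := fun ω => f ω ^ 2) fun ω _ => by
    split_ifs
    exacts [le_rfl, sq_nonneg _])
  have b := (mul_le_mul_of_nonneg_right h ((cE μ G).E_nonneg fun ω _ => sq_nonneg (f ω))).trans a
  rw [inv_mul_le_iff₀ l0] at b
  rw [nu, nu, ← Real.sqrt_sq l0.le, ← Real.sqrt_mul (sq_nonneg L)]
  exact Real.sqrt_le_sqrt (b.trans (mul_le_mul_of_nonneg_right (by nlinarith)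
    (μ.E_nonneg fun ω _ => sq_nonneg _)))

variable {N : ℕ} {Ω Λ : ℕ → Type} {β : Bool → ℕ → Type} {P : ∀ n, FP (Ω n)} {M : ℕ → ℕ}
  {x : ∀ n, Ω n → V N} {Z : ∀ b n, Ω n → β b n} {Q : ∀ n, Ω n → Λ n} {G : ∀ n, Ω n → Prop}

theorem up (hM : Big M) (hG : Pos P G) {c : ℝ} (hc : 0 < c) :
    Whp (fun n => cE (P n) (G n)) fun n ω => ∀ F : Pl N,
      nc (cE (P n) (G n)) (x n) (Q n) ω F ≤ (dl M c n)⁻¹ * nc (P n) (x n) (Q n) ω F := by
  refine (S20.whp_ctx hG Q (L := fun n => (dl M c n)⁻¹) fun K => G39.big_dl hM K hc).mono ?_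
  filter_upwards [hG.sure, G39.big_dl hM 1 hc] with n a b ω hω k F
  have e : cv (cE (P n) (G n)) (Q n) (Q n ω) = cE (cv (P n) (Q n) (Q n ω)) (G n) := by
    unfold cv
    rw [cE_cE, cE_cE]
    exacts [cE_congr fun _ _ => and_comm, ⟨ω, (a ω hω).1, rfl, (a ω hω).2⟩,
      ⟨ω, (a ω hω).1, (a ω hω).2, rfl⟩]
  rw [nc, e]
  exact nu_cE _ _ _ b k

theorem dn (hM : Big M) (hG : Pos P G) (h : CM P M x Z Q) (E : ℕ) {c : ℝ} (hc : 0 < c) :
    Whp (fun n => cE (P n) (G n)) fun n ω => ∀ F : Pl N, F.totalDegree ≤ E →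
      nc (P n) (x n) (Q n) ω F ≤ (dl M c n)⁻¹ * nc (cE (P n) (G n)) (x n) (Q n) ω F := by
  have k : ∀ n (z : Λ n), ∃ H : Pl N, H.totalDegree ≤ E ∧
      ((nu (cv (P n) (Q n) z) fun v => eval (x n v) H) ≤ (dl M c n)⁻¹ *
        (nu (cv (cE (P n) (G n)) (Q n) z) fun v => eval (x n v) H) →
      ∀ F : Pl N, F.totalDegree ≤ E → (nu (cv (P n) (Q n) z) fun v => eval (x n v) F) ≤
        (dl M c n)⁻¹ * nu (cv (cE (P n) (G n)) (Q n) z) fun v => eval (x n v) F) := fun n z => by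
    by_contra k
    push Not at k
    obtain ⟨-, F, f1, f2⟩ := k 0 (by simp)
    exact f2.not_ge (k F f1).1
  choose H h1 h2 using k
  refine (((StOwnA.nt (F := fun n ω => H n (Q n ω)) h.nt h.com (half_pos hc)
    (Eventually.of_forall fun n => Fn.comp (H n) _) fun n ω => h1 ..).cE hG).and
    (StOwnA.up (x := x) (Q := Q) hM E (half_pos hc))).mono
    (Eventually.of_forall fun n ω _ ⟨a, b⟩ => h2 n (Q n ω) ?_)
  rw [G39.dl_half, mul_inv, mul_assoc, le_inv_mul_iff₀ (G39.dl_pos ..)]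
  exact a.trans (b _ (h1 ..))

theorem cmp (hM : Big M) (hG : Pos P G) (h : CM P M x Z Q) (E : ℕ) :
    ∃ Γ, Sub M Γ ∧ Whp (fun n => cE (P n) (G n)) fun n ω => ∀ F : Pl N, F.totalDegree ≤ E →
      nc (P n) (x n) (Q n) ω F ≤ Γ n * nc (cE (P n) (G n)) (x n) (Q n) ω F ∧
      nc (cE (P n) (G n)) (x n) (Q n) ω F ≤ Γ n * nc (P n) (x n) (Q n) ω F :=
  S20.gp_iff.1 (S20.gp_of_wp (q := fun n ω Γ => ∀ F : Pl N, F.totalDegree ≤ E →
      nc (P n) (x n) (Q n) ω F ≤ Γ * nc (cE (P n) (G n)) (x n) (Q n) ω F ∧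
      nc (cE (P n) (G n)) (x n) (Q n) ω F ≤ Γ * nc (P n) (x n) (Q n) ω F) fun c hc =>
    ((dn hM hG h E hc).and (up (x := x) (Q := Q) hM hG hc)).mono (Eventually.of_forall
      fun n _ _ k F hF => G39.dl_inv M c n ▸ ⟨k.1 F hF, k.2 F⟩))

theorem dg {E : ℕ} {F : Pl N} (h : F.totalDegree ≤ E) (i : Fin N) :
    (pderiv i F).totalDegree ≤ E := (Nc.kc.der F E i h).2.trans (Nat.sub_le _ _)

end StHerA

open StHerA

theorem rHerQ : HerQ where
  cm P M x Z Q G hM hG h := by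
    refine ⟨fun b => (h.com b).mono fun n a => fn_cE a _, fun E c F hc hF => ?_⟩
    refine (((h.nt E _ F (half_pos hc) hF).cE hG).and
      (up (x := x) (Q := Q) hM hG (half_pos hc))).mono
      (Eventually.of_forall fun n ω _ ⟨a, b⟩ k => a ⟨k.1, k.2.trans_le ?_⟩)
    rw [G39.dl_half, mul_assoc]
    exact mul_le_mul_of_nonneg_left ((le_inv_mul_iff₀ (G39.dl_pos ..)).1 (b _)) (G39.dl_pos ..).le
  dle P M g x Z Q G hM hG h hd E := by
    obtain ⟨Γ, g1, g2⟩ := S20.gp_iff.1 (hd E)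
    obtain ⟨L, l1, l2⟩ := cmp hM hG h E
    refine S20.gp_iff.2 ⟨_, (l1.mul g1).mul l1, ((g2.cE hG).and l2).mono
      (Eventually.of_forall fun n ω _ ⟨a, b⟩ F hF i => ?_)⟩
    have := l1.pos n
    have := g1.pos n
    exact (b _ (dg hF i)).2.trans ((mul_le_mul_of_nonneg_left ((a F hF i).trans
      (mul_le_mul_of_nonneg_left (b F hF).1 (by positivity))) (by positivity)).trans_eq (by ring))
  dge P M g x Z Q G E hM hG h hd := by
    obtain ⟨Γ, g1, g2⟩ := S20.gp_iff.1 hd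
    obtain ⟨L, l1, l2⟩ := cmp hM hG h E
    refine S20.gp_iff.2 ⟨_, (l1.mul g1).mul l1, ((g2.cE hG).and l2).mono
      (Eventually.of_forall fun n ω _ ⟨⟨F, i, hF, a0, a⟩, b⟩ =>
        ⟨F, i, hF, G39.pos_mul_left (l1.pos n) (a0.trans_le (b F hF).1), ?_⟩)⟩
    have := l1.pos n
    have := g1.pos n
    refine (mul_le_mul_of_nonneg_left (b F hF).2 (by positivity)).trans ?_
    rw [mul_left_comm, mul_assoc, mul_assoc]
    exact mul_le_mul_of_nonneg_left (a.trans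
      (mul_le_mul_of_nonneg_left (b _ (dg hF i)).1 (by positivity))) (by positivity)

end Pool.Agent.MP_5168f5_an.AN.St
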