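import Pool.Agent.MP_5168f5_an.AN.SpecG
import Pool.Agent.MP_5168f5_an.AN.GFullApi
import Pool.Agent.MP_5168f5_an.AN.StHer
import Pool.Agent.MP_5168f5_an.AN.S20LF

/-! Kakeya sets in all dimensions: steep windows are not heavy. -/

namespace Pool.Agent.MP_5168f5_an.AN.GP

open H19 H17S H17F R4 Filter

theorem ofSH : OfSH := by
  intro N mm H Ω Λ Λ' k m C E η P M x s T Q be hη hm hs hmin hc hf hcm hT hle hge hv
  obtain ⟨c, c0, hc'⟩ := H k m C E (η / 2) (half_pos hη)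
  obtain ⟨G, hG, hp⟩ := fullApi.hp hs.big hv (half_lt_self hη)
  have hG' := hG.pos
  refine hc' Ω Λ Λ' (fun n => cE (P n) (G n)) M x s T Q be hm
    ⟨hs.big, S20.gp_cE hs.bd hG', fun b => S20.kind_cE hs.big (hs.kd b) hG'⟩
    (fun E c F a b => (hmin E c F a b).cE hG') (fun b => (hc b).mono fun n a => fn_cE a _)
    (fun b => S20.gp_cE (Gp.mono (hf b) (Eventually.of_forall fun n ω _ Γ a e => e.trans ?_)) hG')
    (St.rHerQ.cm P M x _ Q G hs.big hG' hcm) (hT.mono fun n a => fn_cE a _)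
    (St.rHerQ.dle P M M x _ Q G hs.big hG' hcm hle)
    (St.rHerQ.dge P M M x _ Q G E hs.big hG' hcm hge) hp
  exact mul_le_mul_of_nonneg_left (Real.exp_le_exp.2
    (mul_le_mul_of_nonneg_right c0.le (Nat.cast_nonneg _))) (by linarith)

end Pool.Agent.MP_5168f5_an.AN.GP
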