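import Pool.Agent.MP_5168f5_an.AN.SpecG
import Pool.Agent.MP_5168f5_an.AN.GCel1

/-! Kakeya sets in all dimensions: a cell stays minimal for finer labels. -/

namespace Pool.Agent.MP_5168f5_an.AN.GP

open H19 H17S H17F R4 Filter MvPolynomial Vo
open G39 (dl)
open Pk (cn)
open Nc (Pl ev kc)

theorem ofTH : OfTH := fun T Ω Λ β β' N D P M x Z Z' S Θ hM h hc hm => by
  refine ⟨hc, fun E c F c0 hF => ?_⟩
  obtain ⟨E', k, A, hA, T⟩ := T N D E
  choose! H R T using T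
  have v := Cx.cel_vh hM h
  have b := Cx.bdd_wp h.frm.bd
  have W : Wp P M fun n L ω => ∀ (φ : Pl N) (μ : ℝ), φ.totalDegree ≤ E → 0 < μ → μ ≤ 1 →
      nc (P n) (x n) (S n) ω φ = 1 → |eval (x n ω) φ| ≤ μ ^ 2 →
      2 * |eval (chs Θ x n ω) (H (Θ n ω) φ μ)| ≤ L * μ * cn (H (Θ n ω) φ μ) := by
    refine ((v.pick ((v.gd E).and b) (max E E') Bool).and ((v.gd E').and b)).of hM (2 * A) (2 * k) ?_
    filter_upwards [v.fn, v.fnu] with n e1 e2 L L' l l' ω hω ⟨p, g, z⟩ φ μ d m0 m1 n1 s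
    obtain ⟨-, -, dR, t⟩ := T (Θ n ω) φ μ (v.deg n ω) d m0 m1
    obtain ⟨u, hu, q, ⟨g', z'⟩, w⟩ := p (fun a => cond a φ (R (Θ n ω) φ μ)) (by
      rintro (_ | _)
      exacts [dR.trans (le_max_right _ _), d.trans (le_max_left _ _)])
    have l0 := zero_le_one.trans l
    have l2 : L ≤ L * L := le_mul_of_one_le_left l0 l
    have w1 := w true
    have g1 := g' φ d
    rw [e2 u hu ω hω q, n1, mul_one] at g1
    rw [cond, n1] at w1
    have := t (L * L) (x n u) (x n ω) (l.trans l2) (e1 u hu ω hω q ▸ z'.trans l2)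
      (w1.trans (mul_le_mul_of_nonneg_right l2 (abs_nonneg _))) (g1.trans l2)
      ((g _ dR).trans ((mul_le_mul_of_nonneg_left (w false) l0).trans_eq (mul_assoc _ _ _).symm))
      (z.trans l2) s
    rw [← pow_two, ← pow_mul] at this
    have := mul_le_mul_of_nonneg_right l' (mul_nonneg m0.le (kc.nonneg (H (Θ n ω) φ μ)))
    change 2 * |eval (ev (Θ n ω) (x n ω)) _| ≤ _
    linarith
  let φ : Bool → ∀ n, Ω n → Pl N := fun b n ω =>
    C (nc (P n) (x n) (S n) ω (F b n (Z' b n ω)))⁻¹ * F b n (Z' b n ω)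
  have d : ∀ b n ω, (φ b n ω).totalDegree ≤ E := fun b n ω =>
    (totalDegree_mul _ _).trans (by rw [totalDegree_C, zero_add]; exact hF _ _ _)
  have m0 := G39.dl_pos M (c / 2)
  have m1 : ∀ n, dl M (c / 2) n ≤ 1 := fun n =>
    Real.exp_le_one_iff.2 (neg_nonpos.2 (by positivity))
  have c4 : 0 < c / 2 / 2 := by positivity
  have t := fun b n ω => T (Θ n ω) (φ b n ω) _ (v.deg n ω) (d b n ω) (m0 n) (m1 n)
  refine ((Cx.nt_fn hm c4 (F := fun b n ω => H (Θ n ω) (φ b n ω) (dl M (c / 2) n)) (fun b => ?_)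
    fun b n ω => (t b n ω).2.1).and (W _ c4)).mono
    (Eventually.of_forall fun n ω _ ⟨a, w⟩ ⟨e, s⟩ => a ⟨by simp only [φ, e], ?_⟩)
  · filter_upwards [v.fn, v.fnu, hc b] with n e1 e2 e3 u hu ω hω q
    have q' := e3 u hu ω hω q
    simp only [φ, e1 u hu ω hω q', e2 u hu ω hω q', q]
  · have n0 := (pos_iff_pos_of_mul_pos ((abs_nonneg _).trans_lt s)).1 (G39.dl_pos M c n)
    have h0 : 0 < cn (H (Θ n ω) (φ true n ω) (dl M (c / 2) n)) :=
      (kc.nonneg _).lt_of_ne' fun z => (t true n ω).1 ((kc.zero _).1 z)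
    have := w _ _ (d true n ω) (m0 n) (m1 n) ((nuP_mul _ _ _ _).trans (by
      rw [abs_of_pos (inv_pos.2 n0)]
      exact inv_mul_cancel₀ n0.ne')) (by
      rw [map_mul, eval_C, abs_mul, abs_of_pos (inv_pos.2 n0), inv_mul_le_iff₀ n0,
        pow_two, ← G39.dl_half, mul_comm]
      exact s.le)
    rw [show Real.exp (c / 2 / 2 * M n) * dl M (c / 2) n = dl M (c / 2 / 2) n by
      rw [← G39.dl_inv, G39.dl_half M (c / 2), inv_mul_cancel_left₀ (G39.dl_pos _ _ _).ne']] at this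
    have := mul_pos (G39.dl_pos M (c / 2 / 2) n) h0
    linarith

end Pool.Agent.MP_5168f5_an.AN.GP
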