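import Pool.Agent.MP_5168f5_an.AN.SpecG
import Pool.Agent.MP_5168f5_an.AN.LEGC
import Pool.Agent.MP_5168f5_an.AN.GCel2
import Pool.Agent.MP_5168f5_an.AN.GFullApi
import Pool.Agent.MP_5168f5_an.AN.A1Con
import Pool.Agent.MP_5168f5_an.AN.S20Nz1

/-! Kakeya sets in all dimensions: heavy systems stay minimal after adding an index. -/

namespace Pool.Agent.MP_5168f5_an.AN.GP

open H19 H17S H17F R4 Filter MvPolynomial
open G39 (dl dl_pos dl_anti dl_half dl_inv)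
open Pk (cn)
open Nc (Pl ev jac)
open K31 (dnS_cE dnS_law)
open S20 (gp_iff gp_cE)

namespace Upl

variable {N C D E mm : ℕ} {Ω Λ Λ' : ℕ → Type} {k m : Bool → ℕ} {β : Bool → ℕ → Type}

/-- A common polynomial is thin. -/
def Thin (M : ℕ → ℕ) (c : ℝ) (y : ∀ n, Ω n → V N) (Z : ∀ b n, Ω n → β b n)
    (F : ∀ b n, β b n → Pl N) (n : ℕ) (ω : Ω n) : Prop :=
  F true n (Z true n ω) = F false n (Z false n ω) ∧
    |eval (y n ω) (F true n (Z true n ω))| < dl M c n * cn (F true n (Z true n ω))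

/-- A counterexample. -/
structure Bad (M : ℕ → ℕ) (y : ∀ n, Ω n → V N) (s : ∀ n, Sy k (Ω n)) (C : ℕ) (m : Bool → ℕ)
    (T : ∀ n, Ω n → Λ n) (be : Bool → ∀ n, Ω n → ℕ) (c c' : ℝ)
    (F : ∀ b n, ℕ × (s n b).T → Pl N) (P : ∀ n, FP (Ω n)) : Prop where
  sys : Sys P M y s C m
  sure : Sure P M y
  min : MIN P M y (lab s)
  com : Com P (lab s) T
  few : ∀ b, Few P M 0 (be b)
  hv : ∀ g : ℚ≥0, (g : ℝ) ≤ 1 → Heavy P M y T (lev M g) (un M (c * g))
  thin : Whp P (Thin M c' y (hat (lab s) be) F)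

variable {M : ℕ → ℕ} {s : ∀ n, Sy k (Ω n)} {T : ∀ n, Ω n → Λ n} {be : Bool → ∀ n, Ω n → ℕ}
  {c c' : ℝ} {P : ∀ n, FP (Ω n)} {A : ∀ n, Ω n → Λ' n}

theorem Bad.sl {y : ∀ n, Ω n → V N} {F : ∀ b n, ℕ × (s n b).T → Pl N}
    (h : Bad M y s C m T be c c' F P) : SL P (Bad M y s C m T be c c' F) := by
  have hM := h.sys.big
  let q : ∀ n, FP (Ω n) → FP (Ω n) := fun _ Q => Q
  let u : ∀ n, FP (Ω n) → ℕ := fun n _ => M n
  have h1 := sl_cf hM (G7A.cf_sys M y s) fun _ => G7A.sys_cE h.sys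
  have h2 := sl_cf (P := P) hM (cf_min q u (fun n _ => y n) fun b n _ => lab s b n)
    fun _ g E c F a b => (h.min E c F a b).cE g
  have h3 := sl_all fun b => sl_cf (P := P) hM (cf_few q u 0 fun n _ => be b n)
    fun _ => gp_cE (h.few b)
  have h4 := sl_all fun g : {g : ℚ≥0 // (g : ℝ) ≤ 1} => sl_cf (P := P) hM
    (cf_heavy q u (fun n _ => y n) (fun n _ => T n) (fun n _ => lev M g.1 n)
      fun n _ => un M (c * g.1) n) fun _ => (h.hv g.1 g.2).cE hM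
  have h5 := sl_cf (P := P) hM (cf_whp q fun n _ => Thin M c' y (hat (lab s) be) F n)
    fun _ => h.thin.cE
  exact (h1.and (h2.and (h3.and (h4.and h5)))).mono fun G ⟨u1, u2, u3, u4, u5⟩ =>
    ⟨u1, h.sure.cE G, u2, fun b => (h.com b).cE G, u3, fun g e => u4 ⟨g, e⟩, u5⟩

theorem log_near {a b Γ : ℝ} (ha : 0 < a) (hΓ : 0 < Γ) (h : |Real.log a - b| ≤ Real.log Γ) :
    Real.exp b ≤ Γ * a ∧ a ≤ Γ * Real.exp b := by
  have h1 := abs_le.1 h
  constructor
  · rw [← Real.exp_log (mul_pos hΓ ha), Real.log_mul hΓ.ne' ha.ne', Real.exp_le_exp]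
    linarith [h1.1]
  · conv_lhs => rw [← Real.exp_log ha]
    conv_rhs => rw [← Real.exp_log hΓ, ← Real.exp_add]
    exact Real.exp_le_exp.2 (by linarith [h1.2])

theorem lev_exp (M : ℕ → ℕ) {γ : ℝ} (h : 0 ≤ γ) (n : ℕ) :
    (2 : ℝ) ^ lev M (γ / lg) n ≤ Real.exp (γ * M n) ∧
      Real.exp (γ * M n) ≤ 2 * 2 ^ lev M (γ / lg) n := by
  have l0 := lg_pos
  have e : γ * M n = γ / lg * M n * lg := by field_simp
  constructor
  · rw [two_pow_eq, e, Real.exp_le_exp]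
    exact mul_le_mul_of_nonneg_right (lev_le' M (by positivity) n) l0.le
  · rw [← pow_succ', two_pow_eq, e, Real.exp_le_exp]
    refine mul_le_mul_of_nonneg_right ?_ l0.le
    push_cast
    exact (Nat.lt_floor_add_one _).le

/-- The depth of the minimal cell is neither zero nor positive. -/
theorem core {d : ℕ} {y : ∀ n, Ω n → V (d + 1)} {F : ∀ b n, ℕ × (s n b).T → Pl (d + 1)}
    {Θ : ∀ n, Ω n → Fin (d + 1) → Pl (d + 1)} (sh : SH (d + 1) mm) (hm : mm ≤ m true + m false)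
    (hc : 0 < c) (hc' : 0 < c') (hF : ∀ b n z, (F b n z).totalDegree ≤ E)
    (h : Bad M y s C m T be c c' F P) (cel : Cel P M y (hat (lab s) be) A Θ D) (fn : FnE P T A)
    (dle : DLe P M y A M) : False := by
  have hM := h.sys.big
  have l0 := lg_pos
  obtain ⟨Γ₁, s1, w1⟩ := gp_iff.1 ((cel2.dle hM cel).1.2 dle)
  obtain ⟨Γ₂, s2, w2⟩ := gp_iff.1 (cel2.dv hM cel h.sure)
  obtain ⟨L, hL, H⟩ := h.sl.and (sl_cf (K := fun Q => Cel Q M y (hat (lab s) be) A Θ D) hM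
    (cf_cel (fun n (Q : FP (Ω n)) => Q) (fun n _ => M n) (fun n _ => y n)
      (fun b n _ => hat (lab s) be b n) (fun n _ => A n) (fun n _ => Θ n) D
      fun n _ => cel.frm.deg n) fun _ => cel.cE hM)
  have pos : ∀ {n : ℕ} {a : ℝ}, 1 ≤ Γ₂ n * a → 0 < a := fun {n a} e =>
    (mul_pos_iff_of_pos_left (s2.pos n)).1 (one_pos.trans_le e)
  obtain ⟨G, γ, g1, g2, g3⟩ := A1.concM (J := Unit) hM
    (fun _ n ω => Real.log (dsz (Θ n ω) (y n ω))) (fun _ => w1.and w2) (fun _ => ⟨2,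
      (w1.and w2).mono (by
        filter_upwards [s1.2 1 one_pos, s2.2 1 one_pos] with n u v ω _ ⟨a, b, _⟩
        have p := pos b
        have m0 := Nat.cast_nonneg (α := ℝ) (M n)
        rw [abs_le]
        constructor
        · have := Real.log_nonneg (b.trans (mul_le_mul_of_nonneg_right v p.le))
          rw [Real.log_mul (Real.exp_pos _).ne' p.ne', Real.log_exp] at this
          linarith
        · rw [Real.log_le_iff_le_exp p]
          refine a.trans ((mul_le_mul u (two_pow_le_exp _) (by positivity)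
            (Real.exp_pos _).le).trans_eq ?_)
          rw [← Real.exp_add]; congr 1; ring)⟩) hL
  obtain ⟨b, cel'⟩ := H G g1
  obtain ⟨Γ, s3, w3⟩ := g3 ()
  have key : ∀ᶠ n in UF, ∀ ω ∈ (cE (P n) (G n)).S,
      (Real.exp (γ () * M n) ≤ Γ n * dsz (Θ n ω) (y n ω) ∧
        dsz (Θ n ω) (y n ω) ≤ Γ n * Real.exp (γ () * M n)) ∧ 0 < dsz (Θ n ω) (y n ω) ∧
      dsz (Θ n ω) (y n ω) ≤ Γ₁ n * 2 ^ M n ∧
      |eval (y n ω) (jac (Θ n ω))| ≤ Γ₂ n * dsz (Θ n ω) (y n ω) ^ (d + 1) := by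
    filter_upwards [g1, g2 (), w3] with n u v w ω hω
    have p : 0 < pb (P n) (G n) := lt_of_le_of_ne (pb_nonneg _ _) fun e => by
      rw [← e, mul_zero] at u; linarith
    obtain ⟨a1, a2⟩ := (mem_cE (ex_of_pb p) ω).1 hω
    obtain ⟨b1, b2, -, b3⟩ := v ω a1 a2
    exact ⟨log_near (pos b2) (s3.pos n) (w ω a1 a2), pos b2, b1, b3⟩
  rcases le_or_gt (γ ()) 0 with h0 | h0
  · have c1 := (Cx.cel_jfr hM cel' (Ψ := fun _ _ => X) (S20.fnE_const _)
      (fun _ _ _ => (totalDegree_X _).le) (by rw [chs_X]; exact b.sys.bd) fun a ha =>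
        Whp.of_ev (by
          filter_upwards [key, (s2.mul (s3.pow (d + 1))).2 a ha] with n u v ω hω
          obtain ⟨⟨-, a1⟩, a2, -, a3⟩ := u ω hω
          rw [Cx.jac_X, map_one, abs_one, mul_one]
          refine a3.trans (le_trans (mul_le_mul_of_nonneg_left (pow_le_pow_left₀ a2.le
            (a1.trans ?_) _) (s2.pos n).le) v)
          exact mul_le_of_le_one_right (s3.pos n).le (Real.exp_le_one_iff.2
            (mul_nonpos_of_nonpos_of_nonneg h0 (Nat.cast_nonneg _))))).frm.min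
    have c2 : MIN (fun n => cE (P n) (G n)) M y (hat (lab s) be) := by
      have e := chs_X y
      exact e ▸ c1
    exact b.thin.pos.not_whp (c2 E c' F hc' hF)
  have h1 : γ () ≤ lg := Le.num hM (le_of_gp (P := fun n => cE (P n) (G n))
    (u := fun n => γ () * M n) (v := fun n => lg * M n) (gp_of_sub (s3.mul s1)
      (key.mono fun n u ω hω => (u ω hω).1.1.trans (by
        rw [mul_assoc, mul_comm lg, ← two_pow_eq]
        exact mul_le_mul_of_nonneg_left (u ω hω).2.2.1 (s3.pos n).le))))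
  have h2 : 0 < γ () / lg := div_pos h0 l0
  have h3 : γ () / lg ≤ 1 := (div_le_one l0).2 h1
  have cp : Cmp M (lev M (γ () / lg)) := cmp_of hM h2 (lev_eqv hM h2.le)
  obtain ⟨j, hj⟩ := exists_nat_one_div_lt h2
  have e : ((1 / (j + 1) : ℚ≥0) : ℝ) = 1 / (j + 1) := by push_cast; rfl
  have h4 := fullApi.fine hM (Eventually.of_forall fun n => lev_mono M (e.trans_le hj.le) n)
    (b.hv (1 / (j + 1)) (e.trans_le (hj.le.trans h3)))
  rw [e] at h4
  have z := cel2.dle (g := lev M (γ () / lg)) hM cel'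
  refine sh Ω Λ Λ' k m C D (c * (1 / (j + 1))) _ (lev M (γ () / lg)) y s T A be (by positivity) hm
    (b.sys.unit cp) (NT.unit b.min cp) b.com (fun a => (b.few a).unit0 cp) (cel'.cm.unit cp)
    (fn.cE G) ((z.1.1 (gp_of_sub (s3.const_mul hM one_le_two) (key.mono fun n u ω hω =>
      (u ω hω).1.2.trans ?_))).unit cp) ((z.2 (gp_of_sub s3 (key.mono fun n u ω hω =>
      (lev_exp M h0.le n).1.trans (u ω hω).1.1))).unit cp)
    (Gp.mono (Gp.unit h4 cp) (Eventually.of_forall fun n ω _ Γ' _ u => le_trans ?_ u))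
  · rw [mul_comm 2, mul_assoc]
    exact mul_le_mul_of_nonneg_left (lev_exp M h0.le n).2 (s3.pos n).le
  · refine div_le_div_of_nonneg_right (Real.exp_le_exp.2 ?_) (by positivity)
    exact mul_le_mul_of_nonneg_left (Nat.cast_le.2 (lev_le M h3 n)) (by positivity)

theorem blur_sub {W : Type} (x ξ : W → V N) (h : ℕ) {ω : W} (e : ‖ξ ω‖ ≤ 1) :
    ‖x ω - blur x ξ h ω‖ ≤ (2 ^ h)⁻¹ := by
  rw [blur, sub_add_cancel_left, norm_neg, norm_smul, Real.norm_eq_abs, abs_of_pos (by positivity)]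
  exact mul_le_of_le_one_right (by positivity) e

/-- A counterexample with a noise leads to a contradiction. -/
theorem noisy {d k₀ C₀ : ℕ} {x ξ : ∀ n, Ω n → V (d + 1)} {F : ∀ b n, ℕ × (s n b).T → Pl (d + 1)}
    {κ : ∀ n, Kd k₀ (Ω n)} (ko : KOp) (ns : Nsy) (ud : UDc) (sh : SH (d + 1) mm)
    (hm : mm ≤ m true + m false) (hc : 0 < c) (hc' : 0 < c')
    (hF : ∀ b n z, (F b n z).totalDegree ≤ E) (h : Bad M (blurs x ξ M) s C m T be c c' F P)
    (nse : Nse P M x ξ κ C₀) (e : FnE P (hat (lab s) be true) fun n => (κ n).Z)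
    (fl : A1.Floor P M (blurs x ξ M) (hat (lab s) be true)) : False := by
  have hM := h.sys.big
  obtain ⟨L, hL, H⟩ := h.sl.and (sl_cf (K := fun Q => Nse Q M x ξ κ C₀) hM
    (cf_nse (fun n (Q : FP (Ω n)) => Q) (fun n _ => M n) (fun n _ => x n) (fun n _ => ξ n)
      (fun n _ => κ n) C₀)
    fun _ g => ⟨S20.kind_cE hM nse.kd g, gp_cE nse.bd g, fun K => S20.full_cE hM (nse.den K) g⟩)
  obtain ⟨Γ, g1, g2⟩ := h.sure
  obtain ⟨α, G, A, a1, -, a2⟩ := A1.a1 (I := Unit) P (blurs x ξ M) (fun b _ => hat (lab s) be b)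
    (fun _ => T) (K := 1) hM hL (Whp.of_ev (by
      filter_upwards [g2, G39.sub_dl g1 one_pos] with n u v ω hω using (u ω hω).trans v))
    (fun _ _ _ _ => S20.fnE_rfl)
    (fun _ b => (h.com b).trans (fnE_of fun _ _ _ z => congrArg Prod.snd z))
    (fun _ _ _ => S20.fnE_rfl) fun _ => ⟨true, fl⟩
  obtain ⟨a3, a4, a5⟩ := a2 ()
  obtain ⟨b, nse'⟩ := H G a1
  obtain ⟨D, hD⟩ := ud (d + 1) C
  obtain ⟨Θ, hΘ⟩ := hD Ω α _ _ M (blurs x ξ M) (hat (lab s) be) (A ()) hM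
    (fun a => (ko.ctx hM (b.sys.kd a) (b.few a)).rem) a4 a5.nz
  exact core sh hm hc hc' hF b hΘ a3
    (ns.dle hM (lin_rfl M) nse' a4 ((a4.com true).trans (e.cE G)) a5)

theorem thin_blur {W : Type} {x ξ : W → V N} {ω : W} {H : Pl N} {Γ c₀ : ℝ} {n : ℕ}
    (hH : H.totalDegree ≤ E) (e : ‖ξ ω‖ ≤ 1) (b : ‖x ω‖ ≤ Γ) (h1 : 1 ≤ Γ)
    (h : |eval (x ω) H| < dl M c₀ n * cn H) (h2 : (E + 1) * (Γ + 1) ^ E ≤ (dl M (lg / 2) n)⁻¹)
    (h3 : dl M (min c₀ (lg / 2) / 2) n < 1 / 2) :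
    |eval (blur x ξ (M n) ω) H| < dl M (min c₀ (lg / 2) / 2) n * cn H := by
  have a1 := blur_sub x ξ (M n) e
  have a2 : ((2 : ℝ) ^ M n)⁻¹ ≤ 1 := inv_le_one_of_one_le₀ (one_le_pow₀ one_le_two)
  have a3 : ‖blur x ξ (M n) ω‖ ≤ Γ + 1 := by
    have := norm_sub_norm_le (blur x ξ (M n) ω) (x ω)
    rw [norm_sub_rev] at this
    linarith
  have a4 := Pk.kc.lip H E (Γ + 1) _ (x ω) (blur x ξ (M n) ω) hH (by linarith) (by positivity)
    fun i => ⟨(norm_le_pi_norm (x ω) i).trans (by linarith), (norm_le_pi_norm _ i).trans a3,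
      (norm_le_pi_norm (x ω - blur x ξ (M n) ω) i).trans a1⟩
  have a5 : ((2 : ℝ) ^ M n)⁻¹ = dl M (lg / 2) n * dl M (lg / 2) n := by
    rw [← dl_half, two_pow_eq, ← Real.exp_neg, dl, mul_comm]
  have c0 := cn_nonneg H
  have d1 := dl_pos M (lg / 2) n
  have a6 : E * cn H * (Γ + 1) ^ E * ((2 : ℝ) ^ M n)⁻¹ ≤ dl M (lg / 2) n * cn H := by
    rw [le_inv_comm₀ (by positivity) d1, ← one_div, le_div_iff₀ (by positivity)] at h2
    have : dl M (lg / 2) n * (E * (Γ + 1) ^ E) ≤ 1 :=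
      le_trans (mul_le_mul_of_nonneg_left (mul_le_mul_of_nonneg_right (by linarith)
        (by positivity)) d1.le) h2
    calc _ = dl M (lg / 2) n * (E * (Γ + 1) ^ E) * (dl M (lg / 2) n * cn H) := by rw [a5]; ring
      _ ≤ _ := mul_le_of_le_one_left (by positivity) this
  have a7 := mul_le_mul_of_nonneg_right (dl_anti M (min_le_left c₀ (lg / 2)) n) c0
  have a8 := mul_le_mul_of_nonneg_right (dl_anti M (min_le_right c₀ (lg / 2)) n) c0
  rw [dl_half M (min c₀ (lg / 2))] at a7 a8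
  have a9 := mul_le_mul_of_nonneg_right h3.le
    (mul_nonneg (dl_pos M (min c₀ (lg / 2) / 2) n).le c0)
  have a10 := abs_sub_abs_le_abs_sub (eval (blur x ξ (M n) ω) H) (eval (x ω) H)
  rw [abs_sub_comm] at a10
  nlinarith

/-- A sure counterexample leads to a contradiction. -/
theorem sure {d : ℕ} {u : ∀ n, Ω n → V (d + 1)} {F : ∀ b n, ℕ × (s n b).T → Pl (d + 1)}
    {Γ : ℕ → ℝ} (ko : KOp) (nz : NZs) (ns : Nsy) (ud : UDc) (sh : SH (d + 1) mm)
    (hm : mm ≤ m true + m false) (hc : 0 < c) (hc' : 0 < c')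
    (hF : ∀ b n z, (F b n z).totalDegree ≤ E) (hs : Sys P M u s C m) (hmin : MIN P M u (lab s))
    (hcom : Com P (lab s) T) (hf : ∀ b, Few P M 0 (be b))
    (hv : ∀ g : ℚ≥0, Heavy P M u T (lev M g) (un M (c * g))) (s0 : Sub M Γ)
    (su : ∀ᶠ n in UF, ∀ ω ∈ (P n).S, Thin M c' u (hat (lab s) be) F n ω ∧ ‖u n ω‖ ≤ Γ n) :
    False := by
  have hM := hs.big
  have l0 := lg_pos
  obtain ⟨J, hJ⟩ : ∃ J, Fine M J := ⟨fun n => M n * M n, fun R => (hM.ev R).mono fun n a =>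
    Nat.mul_le_mul_right _ (by exact_mod_cast a)⟩
  have law : ∀ᶠ n in UF, Law (NP P (d + 1) J n) (Nπ Ω (d + 1) J n) (P n) id :=
    Eventually.of_forall fun n => S20.law_fst _ _
  have ds := dnS_law law
  have mem : ∀ n, ∀ v ∈ (NP P (d + 1) J n).S, v.1 ∈ (P n).S := fun n v hv =>
    ((S20.mem_prod v).1 hv).1
  have hξ : ∀ n v, ‖Nξ Ω (d + 1) J n v‖ ≤ 1 := fun n v => S20.gp_norm _
  have k1 := fun b => (nz.kind hM hJ (lin_rfl M) (hs.kd b).toS).1.kind
  have k2 := (nz.kind hM hJ (lin_rfl M) (ko.ctx hM (hs.kd true) (hf true)).toS).2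
  have k3 : Sure (NP P (d + 1) J) M (blurs (pl (Nπ Ω (d + 1) J) u) (Nξ Ω (d + 1) J) M) :=
    ⟨_, s0.add (sub_one M) hM, su.mono fun n a v hv => by
      have a1 := blur_sub (pl (Nπ Ω (d + 1) J) u n) (Nξ Ω (d + 1) J n) (M n) (hξ n v)
      have a2 : ((2 : ℝ) ^ M n)⁻¹ ≤ 1 := inv_le_one_of_one_le₀ (one_le_pow₀ one_le_two)
      have a3 := norm_sub_norm_le (blurs (pl (Nπ Ω (d + 1) J) u) (Nξ Ω (d + 1) J) M n v) (u n v.1)
      rw [norm_sub_rev] at a3
      linarith [(a v.1 (mem n v hv)).2]⟩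
  have k4 := nz.min (h := M) (Θ := fun _ _ => X) hM hJ (fun _ _ _ => (totalDegree_X _).le)
    (by rw [chs_X]; exact hmin)
  refine noisy (s := fun n b => ((s n b).pull (Nπ Ω (d + 1) J n)).nz (Nξ Ω (d + 1) J n))
    (T := pl (Nπ Ω (d + 1) J) T) (be := fun b => pl (Nπ Ω (d + 1) J) (be b)) (F := F)
    (c' := min c' (lg / 2) / 2) ko ns ud sh hm hc (by positivity) hF
    ⟨⟨hM, k3.bdd, k1⟩, k3, ?_, fun b => her1.fn ds (hcom b), fun b => her1.gp ds (hf b),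
      fun g e => fullApi.near (y := pl (Nπ Ω (d + 1) J) u) hM (gp_of_sub (sub_one M)
        (Eventually.of_forall fun n v _ => ?_)) ?_, Whp.of_ev ?_⟩ k2 S20.fnE_rfl
    (floor_mono (nz.flr hM hJ (lin_rfl M) (lin_rfl M) hs.bd)
      (fnE_of fun n _ _ e => congrArg (hat (lab s) be true n) (Prod.ext_iff.1 e).1))
  · have e := chs_X (blurs (pl (Nπ Ω (d + 1) J) u) (Nξ Ω (d + 1) J) M)
    exact e ▸ k4
  · refine (blur_sub (pl (Nπ Ω (d + 1) J) u n) (Nξ Ω (d + 1) J n) (M n) (hξ n v)).trans ?_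
    rw [one_div]
    exact inv_anti₀ (by positivity) (pow_le_pow_right₀ one_le_two (lev_le M e n))
  · exact (her1.gp ds (hv g)).mul (her1.dn (fun n ω => fl (lev M g n) (u n ω)) T ds hM)
      (Eventually.of_forall fun n ω _ Γ Γ' a _ v w => v.trans (by
        rw [mul_assoc]; exact mul_le_mul_of_nonneg_left w.1 (by linarith)))
  · filter_upwards [su, G39.sub_dl (((s0.add (sub_one M) hM).pow E).const_mul hM
      (C := E + 1) (by linarith [Nat.cast_nonneg (α := ℝ) E])) (half_pos l0),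
      G39.dl_lt hM (K := 1 / 2) (c := min c' (lg / 2) / 2) (by norm_num) (by positivity)]
      with n a b1 b2 v hv
    obtain ⟨⟨a1, a2⟩, a3⟩ := a v.1 (mem n v hv)
    exact ⟨a1, thin_blur (x := pl (Nπ Ω (d + 1) J) u n) (hF _ _ _) (hξ n v) a3 (s0.1 n) a2 b1 b2⟩

end Upl

open Upl

theorem ofUPL : OfUPL := by
  intro ko nz ns ud d mm sh Ω Λ k m C c P M u s T be hc hm hs hmin hcom hf hv E c₀ F h0 hF
  by_contra hn
  obtain ⟨Γ, s0, w0⟩ := gp_iff.1 hs.bd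
  have p := (not_whp hn).and w0
  exact sure ko nz ns ud sh hm hc h0 hF (G7A.sys_cE hs p) (fun E c F a b => (hmin E c F a b).cE p)
    (fun b => (hcom b).cE _) (fun b => gp_cE (hf b) p) (fun g => (hv g).cE hs.big p) s0
    (p.sure.mono fun n a ω hω => ⟨not_not.1 (a ω hω).2.1, (a ω hω).2.2⟩)

end Pool.Agent.MP_5168f5_an.AN.GP
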