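import Pool.Agent.MP_5168f5_an.AN.GPThd
import Pool.Agent.MP_5168f5_an.AN.GPTh
import Pool.Agent.MP_5168f5_an.AN.GPSh
import Pool.Agent.MP_5168f5_an.AN.GPUpl
import Pool.Agent.MP_5168f5_an.AN.GPG7l
import Pool.Agent.MP_5168f5_an.AN.GPGrd
import Pool.Agent.MP_5168f5_an.AN.GPLim
import Pool.Agent.MP_5168f5_an.AN.GPG7p
import Pool.Agent.MP_5168f5_an.AN.GKOp
import Pool.Agent.MP_5168f5_an.AN.GNZ
import Pool.Agent.MP_5168f5_an.AN.GNsy
import Pool.Agent.MP_5168f5_an.AN.G39Frm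

/-! Kakeya sets in all dimensions: the robust projection theorem. -/

namespace Pool.Agent.MP_5168f5_an.AN

open GP in
theorem LC.sG7P : LC.SG7P := sg7p kOp nzs nsy Gc.udc thd ofTH ofSH ofUPL ofG7L ofLIM grd ofG7P

end Pool.Agent.MP_5168f5_an.AN
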