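import Mathlib

/-! Volumes of tuples for a norm, and the relative volume of two norms. -/

namespace Pool.Agent.MP_5168f5_an.AN.C1

open Finset

variable {V : Type} [AddCommGroup V] [Module ℝ V] {k : ℕ}

/-- A Euclidean norm. -/
def Hb (ν : V → ℝ) : Prop := ∃ (ι : Type) (_ : Fintype ι) (A : V →ₗ[ℝ] EuclideanSpace ℝ ι),
  Function.Injective A ∧ ∀ v, ν v = ‖A v‖

/-- A functional of norm at most one. -/
def Adm (ν : V → ℝ) (φ : V →ₗ[ℝ] ℝ) : Prop := ∀ x, |φ x| ≤ ν x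

/-- The determinant of the values. -/
noncomputable def dt (φ : Fin k → V →ₗ[ℝ] ℝ) (v : Fin k → V) : ℝ :=
  |(Matrix.of fun i j => φ i (v j)).det|

/-- The volume of a tuple. -/
noncomputable def vol (ν : V → ℝ) (v : Fin k → V) : ℝ :=
  sSup {r | ∃ φ : Fin k → V →ₗ[ℝ] ℝ, (∀ i, Adm ν (φ i)) ∧ r = dt φ v}

/-- The largest ratio of volumes of `k`-tuples: the product of the `k` largest relative axes. -/
noncomputable def rho (k : ℕ) (ν ν' : V → ℝ) : ℝ :=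
  sSup {r | ∃ v : Fin k → V, r = vol ν v / vol ν' v}

/-- `e` is diagonal for `ν` with lengths `l`, up to the factor `L`. -/
def Dg {ι : Type} [Fintype ι] (ν : V → ℝ) (e : ι → V) (l : ι → ℝ) (L : ℝ) : Prop :=
  (∀ i, ν (e i) ≤ L * l i) ∧ ∀ (c : ι → ℝ) (i : ι), |c i| * l i ≤ L * ν (∑ j, c j • e j)

variable {ν ν' ν'' : V → ℝ}

theorem Hb.nonneg (h : Hb ν) (x : V) : 0 ≤ ν x := by
  obtain ⟨ι, _, A, -, e⟩ := h
  rw [e]; exact norm_nonneg _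

theorem Hb.smul (h : Hb ν) (c : ℝ) (x : V) : ν (c • x) = |c| * ν x := by
  obtain ⟨ι, _, A, -, e⟩ := h
  rw [e, e, map_smul, norm_smul, Real.norm_eq_abs]

theorem Hb.add (h : Hb ν) (x y : V) : ν (x + y) ≤ ν x + ν y := by
  obtain ⟨ι, _, A, -, e⟩ := h
  rw [e, e, e, map_add]; exact norm_add_le _ _

theorem Hb.pos (h : Hb ν) {x : V} (hx : x ≠ 0) : 0 < ν x := by
  obtain ⟨ι, _, A, hA, e⟩ := h
  rw [e, norm_pos_iff]
  exact fun h0 => hx (hA (h0.trans (map_zero A).symm))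

theorem Hb.sum (h : Hb ν) {ι : Type} (s : Finset ι) (c : ι → ℝ) (x : ι → V) :
    ν (∑ i ∈ s, c i • x i) ≤ ∑ i ∈ s, |c i| * ν (x i) := by
  obtain ⟨κ, _, A, -, e⟩ := h
  simp only [e, map_sum, map_smul]
  exact (norm_sum_le _ _).trans (le_of_eq (sum_congr rfl fun i _ => by
    rw [norm_smul, Real.norm_eq_abs]))

theorem Hb.dual (h : Hb ν) (u : V) : ∃ φ, Adm ν φ ∧ φ u = ν u := by
  obtain ⟨ι, _, A, -, e⟩ := h
  refine ⟨‖A u‖⁻¹ • (innerₛₗ ℝ (A u)).comp A, fun x => ?_, ?_⟩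
  · simp only [LinearMap.smul_apply, LinearMap.comp_apply, innerₛₗ_apply_apply, smul_eq_mul, e]
    rw [abs_mul, abs_inv, abs_norm]
    by_cases h0 : ‖A u‖ = 0
    · simp [h0]
    · rw [inv_mul_le_iff₀ (lt_of_le_of_ne (norm_nonneg _) (Ne.symm h0))]
      exact abs_real_inner_le_norm _ _
  · simp only [LinearMap.smul_apply, LinearMap.comp_apply, innerₛₗ_apply_apply, smul_eq_mul, e]
    rw [real_inner_self_eq_norm_mul_norm]
    by_cases h0 : ‖A u‖ = 0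
    · simp [h0]
    · field_simp

theorem dt_le {φ : Fin k → V →ₗ[ℝ] ℝ} (h : ∀ i, Adm ν (φ i)) (v : Fin k → V) :
    dt φ v ≤ k.factorial * ∏ j, ν (v j) := by
  unfold dt
  rw [Matrix.det_apply']
  refine (abs_sum_le_sum_abs _ _).trans ((sum_le_card_nsmul _ _ (∏ j, ν (v j)) fun σ _ => ?_).trans
    (by simp [Fintype.card_perm]))
  rw [abs_mul, abs_prod]
  have : |((Equiv.Perm.sign σ : ℤ) : ℝ)| = 1 := by
    rcases Int.units_eq_one_or (Equiv.Perm.sign σ) with e | e <;> simp [e]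
  rw [this, one_mul]
  exact prod_le_prod (fun _ _ => abs_nonneg _) fun j _ => h _ _

theorem le_vol {φ : Fin k → V →ₗ[ℝ] ℝ} (h : ∀ i, Adm ν (φ i)) (v : Fin k → V) :
    dt φ v ≤ vol ν v :=
  le_csSup ⟨_, by rintro _ ⟨ψ, h1, rfl⟩; exact dt_le h1 v⟩ ⟨φ, h, rfl⟩

theorem vol_le (h0 : ∀ x, 0 ≤ ν x) {v : Fin k → V} {B : ℝ}
    (h : ∀ φ : Fin k → V →ₗ[ℝ] ℝ, (∀ i, Adm ν (φ i)) → dt φ v ≤ B) : vol ν v ≤ B :=
  csSup_le ⟨_, 0, fun _ x => by simpa using h0 x, rfl⟩ (by rintro _ ⟨ψ, h1, rfl⟩; exact h ψ h1)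

theorem vol_nonneg (h0 : ∀ x, 0 ≤ ν x) (v : Fin k → V) : 0 ≤ vol ν v :=
  (abs_nonneg _).trans (le_vol (φ := 0) (fun _ x => by simpa using h0 x) v)

theorem vol_le_prod (h0 : ∀ x, 0 ≤ ν x) (v : Fin k → V) :
    vol ν v ≤ k.factorial * ∏ j, ν (v j) := vol_le h0 fun _ h => dt_le h v

theorem dt_smul (c : Fin k → ℝ) (φ : Fin k → V →ₗ[ℝ] ℝ) (v : Fin k → V) :
    dt (fun i => c i • φ i) v = |∏ i, c i| * dt φ v := by
  unfold dt
  rw [← abs_mul, ← Matrix.det_mul_column]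
  rfl

theorem vol_mono (h0 : ∀ x, 0 ≤ ν x) {C : ℝ} (hC : 0 < C) (h : ∀ x, ν x ≤ C * ν' x)
    (v : Fin k → V) : vol ν v ≤ C ^ k * vol ν' v := by
  refine vol_le h0 fun φ hφ => ?_
  have h1 := le_vol (ν := ν') (φ := fun i => C⁻¹ • φ i) (fun i x => by
    rw [LinearMap.smul_apply, smul_eq_mul, abs_mul, abs_inv, abs_of_pos hC, inv_mul_le_iff₀ hC]
    exact (hφ i x).trans (h x)) v
  rw [dt_smul fun _ => C⁻¹, prod_const, card_univ, Fintype.card_fin, abs_of_pos (by positivity),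
    inv_pow, inv_mul_le_iff₀ (by positivity)] at h1
  exact h1

theorem rho_le (h0 : ∀ x, 0 ≤ ν' x) {B : ℝ} (hB : 0 ≤ B)
    (h : ∀ v : Fin k → V, vol ν v ≤ B * vol ν' v) : rho k ν ν' ≤ B :=
  csSup_le ⟨_, 0, rfl⟩ (by
    rintro _ ⟨v, rfl⟩
    exact div_le_of_le_mul₀ (vol_nonneg h0 v) hB (h v))

theorem le_rho' (h0 : ∀ x, 0 ≤ ν x) (h0' : ∀ x, 0 ≤ ν' x) {C : ℝ} (hC : 0 < C)
    (h : ∀ x, ν x ≤ C * ν' x) (v : Fin k → V) : vol ν v ≤ rho k ν ν' * vol ν' v := by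
  have h1 : vol ν v / vol ν' v ≤ rho k ν ν' := le_csSup ⟨C ^ k, by
    rintro _ ⟨u, rfl⟩
    exact div_le_of_le_mul₀ (vol_nonneg h0' u) (by positivity) (vol_mono h0 hC h u)⟩ ⟨v, rfl⟩
  rcases (vol_nonneg h0' v).eq_or_lt with e | e
  · have := vol_mono h0 hC h v
    rw [← e] at this ⊢
    simpa using this
  · exact (div_le_iff₀ e).1 h1

section Diag

variable {ι : Type} [Fintype ι] {e : ι → V} {l l' : ι → ℝ} {L L' : ℝ}

theorem Dg.mono (h : Dg ν e l L) (h0 : ∀ x, 0 ≤ ν x) (hl : ∀ i, 0 ≤ l i) (hL : L ≤ L') :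
    Dg ν e l L' :=
  ⟨fun i => (h.1 i).trans (mul_le_mul_of_nonneg_right hL (hl i)),
    fun c i => (h.2 c i).trans (mul_le_mul_of_nonneg_right hL (h0 _))⟩

theorem Dg.perm {κ : Type} [Fintype κ] (h : Dg ν e l L) (σ : κ ≃ ι) :
    Dg ν (e ∘ σ) (l ∘ σ) L := by
  refine ⟨fun i => h.1 _, fun c i => ?_⟩
  have := h.2 (c ∘ σ.symm) (σ i)
  rw [← σ.sum_comp] at this
  simpa using this

theorem Dg.scale (h : Dg ν e l L) (hν : Hb ν) {s : ι → ℝ} (hs : ∀ i, 0 < s i) :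
    Dg ν (fun i => s i • e i) (fun i => s i * l i) L := by
  refine ⟨fun i => ?_, fun c i => ?_⟩
  · rw [hν.smul, abs_of_pos (hs i), mul_left_comm]
    exact mul_le_mul_of_nonneg_left (h.1 i) (hs i).le
  · have := h.2 (fun j => c j * s j) i
    rw [abs_mul, abs_of_pos (hs i), mul_assoc] at this
    simpa only [smul_smul] using this

theorem Dg.upper (h : Dg ν e l L) (hν : Hb ν) {c : ι → ℝ} {B : ℝ} (hL : 0 ≤ L)
    (hc : ∀ i, |c i| * l i ≤ B) : ν (∑ j, c j • e j) ≤ Fintype.card ι * L * B := by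
  refine (hν.sum _ _ _).trans ((sum_le_card_nsmul _ _ (L * B) fun i _ => ?_).trans
    (by simp [mul_assoc]))
  calc |c i| * ν (e i) ≤ |c i| * (L * l i) := mul_le_mul_of_nonneg_left (h.1 i) (abs_nonneg _)
    _ = L * (|c i| * l i) := by ring
    _ ≤ L * B := mul_le_mul_of_nonneg_left (hc i) hL

theorem Dg.li (h : Dg ν e l L) (hν : Hb ν) (hl : ∀ i, 0 < l i) : LinearIndependent ℝ e := by
  refine Fintype.linearIndependent_iff.2 fun c hc i => ?_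
  have h1 := h.2 c i
  have h2 : ν 0 = 0 := by simpa using hν.smul 0 0
  rw [hc, h2, mul_zero] at h1
  exact abs_nonpos_iff.1 (nonpos_of_mul_nonpos_left h1 (hl i))

end Diag

/-- Comparison of two norms with a common diagonal basis. -/
theorem Dg.cmp {ι : Type} [Fintype ι] {e : ι → V} {l l' : ι → ℝ} {L L' s : ℝ} (h : Dg ν e l L)
    (h' : Dg ν' e l' L') (hν : Hb ν) (hL : 0 ≤ L) (hs : 0 ≤ s) (hl : ∀ i, l i ≤ s * l' i)
    (sp : ⊤ ≤ Submodule.span ℝ (Set.range e)) (x : V) :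
    ν x ≤ Fintype.card ι * L * L' * s * ν' x := by
  obtain ⟨c, rfl⟩ := (Submodule.mem_span_range_iff_exists_fun ℝ).1 (sp (Submodule.mem_top (x := x)))
  refine (h.upper hν hL (B := s * (L' * ν' (∑ j, c j • e j))) fun i => ?_).trans_eq (by ring)
  calc |c i| * l i ≤ |c i| * (s * l' i) := mul_le_mul_of_nonneg_left (hl i) (abs_nonneg _)
    _ = s * (|c i| * l' i) := by ring
    _ ≤ _ := mul_le_mul_of_nonneg_left (h'.2 c i) hs

/-- The product of the first `k` entries. -/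
noncomputable def pk {m : ℕ} (f : Fin m → ℝ) (k : ℕ) : ℝ :=
  ∏ i ∈ univ.filter fun i : Fin m => i.val < k, f i

/-- `x` and `y` agree up to the factor `L`. -/
def Ap (L x y : ℝ) : Prop := x ≤ L * y ∧ y ≤ L * x

/-- Two Euclidean norms are diagonal in one basis of the span of an independent family. -/
def Two : Prop := ∀ (V : Type) [AddCommGroup V] [Module ℝ V] (ν ν' : V → ℝ) (ι : Type) [Fintype ι]
  (u : ι → V), Hb ν → Hb ν' → LinearIndependent ℝ u → ∃ (e : ι → V) (l : ι → ℝ), (∀ i, 0 < l i) ∧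
    (∀ i, e i ∈ Submodule.span ℝ (Set.range u)) ∧ Dg ν e (fun _ => 1) 1 ∧ Dg ν' e l 1

/-- The defining inequality of the relative volume. -/
def LeRho : Prop := ∀ (V : Type) [AddCommGroup V] [Module ℝ V] [FiniteDimensional ℝ V]
  (ν ν' : V → ℝ) (k : ℕ) (v : Fin k → V), Hb ν → Hb ν' → vol ν v ≤ rho k ν ν' * vol ν' v

/-- The relative volume is submultiplicative, positive and monotone. -/
def RhoMul : Prop := ∀ (V : Type) [AddCommGroup V] [Module ℝ V] [FiniteDimensional ℝ V]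
  (ν ν' ν'' : V → ℝ) (k : ℕ), Hb ν → Hb ν' → Hb ν'' →
    rho k ν ν'' ≤ rho k ν ν' * rho k ν' ν'' ∧ (k ≤ Module.finrank ℝ V → 0 < rho k ν ν') ∧
    ∀ C : ℝ, 0 < C → ((∀ x, ν x ≤ C * ν' x) →
      rho k ν ν' ≤ C ^ k ∧ rho k ν ν'' ≤ C ^ k * rho k ν' ν'' ∧ rho k ν'' ν' ≤ C ^ k * rho k ν'' ν)

/-- The relative volume is the product of the largest relative axes. -/
def TopK : Prop := ∀ m : ℕ, ∃ C : ℕ, ∀ (V : Type) [AddCommGroup V] [Module ℝ V] (ν ν' : V → ℝ)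
  (e : Fin m → V) (l l' : Fin m → ℝ) (L : ℝ), Hb ν → Hb ν' → 2 ≤ L →
  ⊤ ≤ Submodule.span ℝ (Set.range e) → (∀ i, 0 < l i) → (∀ i, 0 < l' i) → Dg ν e l L →
  Dg ν' e l' L → Antitone (fun i => l i / l' i) → ∀ k ≤ m,
    Ap (L ^ C) (rho k ν ν') (pk (fun i => l i / l' i) k)

/-- A norm between two norms with additive relative volumes is diagonal in the same basis. -/
def Diag1 : Prop := ∀ m : ℕ, ∃ C : ℕ, ∀ (V : Type) [AddCommGroup V] [Module ℝ V]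
  (ν0 νs ν1 : V → ℝ) (e : Fin m → V) (l0 l1 al : Fin m → ℝ) (L : ℝ), Hb ν0 → Hb νs → Hb ν1 →
  2 ≤ L → ⊤ ≤ Submodule.span ℝ (Set.range e) → (∀ i, 0 < l0 i) → (∀ i, 0 < l1 i) →
  (∀ i, 0 < al i) → Dg ν0 e l0 L → Dg ν1 e l1 L → Antitone (fun i => l0 i / l1 i) →
  (∀ k ≤ m, rho k ν0 νs ≤ L * pk al k ∧ pk al k * rho k νs ν1 ≤ L * rho k ν0 ν1) →
  Dg νs e (fun i => l0 i / al i) (L ^ C)

/-- Along `S` the relative volumes of the norms `ν s` have the slopes `d`. -/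
def Lin {m : ℕ} (ν : ℝ → V → ℝ) (S : Set ℝ) (d : Fin m → ℝ) (L : ℝ) : Prop :=
  ∀ k ≤ m, ∀ s ∈ S, ∀ s' ∈ S, s ≤ s' →
    Ap L (rho k (ν s) (ν s')) (pk (fun i => Real.exp (d i * (s' - s))) k)

/-- One basis for a line of norms. -/
def Line : Prop := ∀ m : ℕ, ∃ C : ℕ, ∀ (V : Type) [AddCommGroup V] [Module ℝ V]
  [FiniteDimensional ℝ V] (ν : ℝ → V → ℝ) (S : Set ℝ) (d : Fin m → ℝ) (L s0 s1 : ℝ),
  Module.finrank ℝ V = m → 2 ≤ L → (∀ s ∈ S, Hb (ν s)) → s0 ∈ S → s1 ∈ S → S ⊆ Set.Icc s0 s1 →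
  Lin ν S d L → ∃ f : Fin m → V, ⊤ ≤ Submodule.span ℝ (Set.range f) ∧
    ∀ s ∈ S, Dg (ν s) f (fun i => Real.exp (-(d i * s))) (L ^ C)

/-- One basis for a rectangle of norms. -/
def Diag2 : Prop := ∀ m : ℕ, ∃ C : ℕ, ∀ (V : Type) [AddCommGroup V] [Module ℝ V]
  [FiniteDimensional ℝ V] (ν : ℝ → ℝ → V → ℝ) (A B : Set ℝ) (d e : Fin m → ℝ)
  (L R c K g a0 b0 b1 : ℝ), Module.finrank ℝ V = m → 2 ≤ L → (∀ a ∈ A, ∀ b ∈ B, Hb (ν a b)) →
  -R ∈ A → R ∈ A → A ⊆ Set.Icc (-R) R → a0 ∈ A → |a0| ≤ c → c ≤ R → b0 ∈ B → b1 ∈ B →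
  B ⊆ Set.Icc b0 b1 → (∀ b ∈ B, Lin (fun a => ν a b) A d L) → (∀ a ∈ A, Lin (ν a) B e L) →
  (∀ i j, d i ≠ d j → g ≤ |d i - d j|) → (∀ i, |e i| ≤ K) →
  L ^ C * Real.exp (2 * K * (b1 - b0)) ≤ Real.exp (g * (R - c)) →
  ∃ (f : Fin m → V) (σ : Equiv.Perm (Fin m)), ⊤ ≤ Submodule.span ℝ (Set.range f) ∧
    ∀ a ∈ A, |a| ≤ c → ∀ b ∈ B,
      Dg (ν a b) f (fun i => Real.exp (-(d i * a + e (σ i) * b))) (L ^ C)

end Pool.Agent.MP_5168f5_an.AN.C1
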