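import Pool.Agent.MP_5168f5_an.AN.G39Res
import Pool.Agent.MP_5168f5_an.H61Z.Dexp

/-! Kakeya sets in all dimensions: framed nilpotent groups and their cells, definitions. -/

namespace Pool.Agent.MP_5168f5_an.AN.GA

open H19 H17S H17F G39 Filter H61Z IsNilpotent

/-- Bracket words. -/
inductive Wd (α : Type) : Type
  | of : α → Wd α
  | br : Wd α → Wd α → Wd α

namespace Wd

variable {α L : Type}

/-- The number of letters. -/
def len : Wd α → ℕ
  | of _ => 1
  | br u v => u.len + v.len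

/-- The value of a word for the bracket `b` and the letters `f`. -/
def ev (b : L → L → L) (f : α → L) : Wd α → L
  | of a => f a
  | br u v => b (u.ev b f) (v.ev b f)

/-- All letters satisfy `p`. -/
def all (p : α → Prop) : Wd α → Prop
  | of a => p a
  | br u v => u.all p ∧ v.all p

end Wd

/-- The commutator. -/
def cm {A : Type} [Ring A] (x y : A) : A := x * y - y * x

/-- The series of Baker, Campbell and Hausdorff with higher terms `l` for the bracket `b`. -/
noncomputable def ser {L : Type} [AddCommGroup L] [Module ℚ L] (l : Wd Bool →₀ ℚ) (b : L → L → L)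
    (x y : L) : L :=
  x + y + (1 / 2 : ℚ) • b x y + l.sum fun w q => q • w.ev b fun i => bif i then x else y

/-- `l` gives the product of exponentials in nilpotency class `N`. -/
def IsB (N : ℕ) (l : Wd Bool →₀ ℚ) : Prop := (∀ w ∈ l.support, 3 ≤ w.len) ∧
  ∀ (A : Type) [Ring A] [Algebra ℚ A] (Φ : Filt A), Φ.N ≤ N → ∀ x ∈ Φ.F 0, ∀ y ∈ Φ.F 0,
    exp x * exp y = exp (ser l cm x y)

/-- The higher terms for class `N`. -/
noncomputable def BL (N : ℕ) : Wd Bool →₀ ℚ := Classical.epsilon (IsB N)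

section Coord

variable {κ R : Type} [Fintype κ] [CommRing R]

/-- The bracket with structure constants `c`. -/
def br (c : κ → κ → κ → R) (s t : κ → R) : κ → R := fun e => ∑ a, ∑ b, c a b e * s a * t b

/-- The group law in logarithmic coordinates. -/
noncomputable def bch [Algebra ℚ R] (N : ℕ) (c : κ → κ → κ → R) (s t : κ → R) : κ → R :=
  ser (BL N) (br c) s t

/-- The product of `t` with the elements of a list. -/
noncomputable def prd [Algebra ℚ R] (N : ℕ) (c : κ → κ → κ → R) (t : κ → R) (l : List (κ → R)) :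
    κ → R := l.foldl (bch N c) t

end Coord

/-- Real matrices. -/
abbrev Mt (ι : Type) : Type := Matrix ι ι ℝ

open Classical in
/-- A maximal subset without two related points. -/
noncomputable def net {A : Type} (R : A → A → Prop) : Set A :=
  epsilon fun S : Set A => (∀ x ∈ S, ∀ y ∈ S, R x y → x = y) ∧ ∀ x, ∃ p ∈ S, R p x

open Classical in
/-- A point of the net related to `x`. -/
noncomputable def netc {A : Type} (R : A → A → Prop) (x : A) : A :=
  haveI : Nonempty A := ⟨x⟩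
  epsilon fun p => p ∈ net R ∧ R p x

section One

variable {ι κ : Type} [Fintype ι] [DecidableEq ι] [Fintype κ]

/-- The matrix with coordinates `t`. -/
def vec (B : κ → Mt ι) (t : κ → ℝ) : Mt ι := ∑ a, t a • B a

/-- The group element with logarithmic coordinates `t`. -/
noncomputable def ex (B : κ → Mt ι) (t : κ → ℝ) : Mt ι := exp (vec B t)

/-- `B` is a basis of a nilpotent matrix Lie algebra with structure constants `c`. -/
structure IsFr (Φ : Filt (Mt ι)) (B : κ → Mt ι) (c : κ → κ → κ → ℝ) : Prop where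
  mem : ∀ t, vec B t ∈ Φ.F 0
  inj : ∀ t, vec B t = 0 → t = 0
  br : ∀ a b, cm (B a) (B b) = vec B (c a b)

/-- `t` lies in the box with radii `L * r`. -/
def Bx (r : κ → ℝ) (L : ℝ) (t : κ → ℝ) : Prop := ∀ a, |t a| ≤ L * r a

/-- `y` lies in `x` times the box. -/
def Nr (B : κ → Mt ι) (r : κ → ℝ) (L : ℝ) (x y : Mt ι) : Prop := ∃ t, Bx r L t ∧ y = x * ex B t

/-- The cell of `x`, given by its centre. -/
noncomputable def cell (B : κ → Mt ι) (r : κ → ℝ) : Mt ι → Mt ι := netc (Nr B r 1)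

/-- Logarithmic coordinates of `x⁻¹ y`. -/
noncomputable def lg (B : κ → Mt ι) (x y : Mt ι) : κ → ℝ :=
  Classical.epsilon fun t => y = x * ex B t

/-- Normalised coordinates of `x` in its cell. -/
noncomputable def inc (B : κ → Mt ι) (r : κ → ℝ) (x : Mt ι) (a : κ) : ℝ :=
  lg B (cell B r x) x a / r a

/-- The cell with radii `r` and the coordinates rounded at the radii `r'`. -/
noncomputable def rnd (B : κ → Mt ι) (r r' : κ → ℝ) (x : Mt ι) : Mt ι × (κ → ℤ) :=
  (cell B r x, fun a => ⌊lg B (cell B r x) x a / r' a⌋)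

/-- The bracket maps the boxes `r`, `r'` to the box `r'`, up to the factor `L`. -/
def Idl (c : κ → κ → κ → ℝ) (r r' : κ → ℝ) (L : ℝ) : Prop :=
  ∀ a b e, |c a b e| * r a * r' b ≤ L * r' e

/-- The rescaled basis. -/
def sB (ρ : κ → ℝ) (B : κ → Mt ι) : κ → Mt ι := fun a => ρ a • B a

/-- The rescaled constants. -/
noncomputable def sC (ρ : κ → ℝ) (c : κ → κ → κ → ℝ) : κ → κ → κ → ℝ :=
  fun a b e => c a b e * ρ a * ρ b / ρ e

/-- The basis with coordinate rows `A`. -/
def mB (A : Matrix κ κ ℝ) (B : κ → Mt ι) : κ → Mt ι := fun a => vec B (A a)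

/-- The constants in the basis `mB A B`, where `A'` is the inverse of `A`. -/
def mC (A A' : Matrix κ κ ℝ) (c : κ → κ → κ → ℝ) : κ → κ → κ → ℝ :=
  fun a b => Matrix.vecMul (br c (A a) (A b)) A'

end One

/-! ### Weights -/

section Wt

variable {κ : Type} (om : κ → ℝ × ℝ)

/-- The natural depth at level `x`. -/
def dep (x : ℝ × ℝ) (a : κ) : ℝ := (om a).1 * x.1 + (om a).2 * x.2

/-- Pure for the first family. -/
def P1 (a : κ) : Prop := 0 < (om a).1 ∧ (om a).2 = 0

/-- Pure for the second family. -/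
def P2 (a : κ) : Prop := (om a).1 = 0 ∧ 0 < (om a).2

/-- Mixed. -/
def Mx (a : κ) : Prop := 0 < (om a).1 ∧ 0 < (om a).2

/-- A homogeneous triple of live indices. Indices of weight zero are dead (quotiented out). -/
def Hm (a b e : κ) : Prop := om a ≠ 0 ∧ om b ≠ 0 ∧ om e = om a + om b

open Classical in
/-- The homogeneous part of the constants. -/
noncomputable def cH {R : Type} [Zero R] (c : κ → κ → κ → R) : κ → κ → κ → R :=
  fun a b e => if Hm om a b e then c a b e else 0

end Wt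

/-! ### Sequences -/

/-- Smaller than every power. -/
def Neg (M : ℕ → ℕ) (a : ℕ → ℝ) : Prop := ∀ K : ℝ, ∀ᶠ n in UF, |a n| ≤ dl M K n

/-- Bounded below by `exp (-o(M))`. -/
def Big1 (M : ℕ → ℕ) (a : ℕ → ℝ) : Prop := ∀ ε : ℝ, 0 < ε → ∀ᶠ n in UF, dl M ε n ≤ |a n|

section Seq

variable {ι κ : Type} [Fintype ι] [DecidableEq ι] [Fintype κ] (M : ℕ → ℕ)

/-- The radii of depth `d`. -/
noncomputable def rad (d : κ → ℝ) (n : ℕ) : κ → ℝ := fun a => dl M (d a) n

/-- The lattice `r'` is an ideal of the lattice `r` up to subexponential factors. -/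
def IdR (c : ℕ → κ → κ → κ → ℝ) (r r' : ℕ → κ → ℝ) : Prop := ∃ L, Sub M L ∧ ∀ᶠ n in UF,
  (∀ a, 0 < r' n a ∧ r' n a ≤ L n * r n a) ∧ Idl (c n) (r n) (r n) (L n) ∧
    Idl (c n) (r n) (r' n) (L n)

/-- The same for depths. `Id M c d d` says that `d` is a good depth vector. -/
def Id (c : ℕ → κ → κ → κ → ℝ) (d d' : κ → ℝ) : Prop :=
  ∀ a b e, d a + d' b < d' e → Neg M fun n => c n a b e

open Classical in
/-- The algebraic part of a system. -/
structure Alg (Φ : Filt (Mt ι)) (om : κ → ℝ × ℝ) (pos : κ → Prop) (B : ℕ → κ → Mt ι)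
    (c : ℕ → κ → κ → κ → ℝ) : Prop where
  big : Big M
  fr : ∀ᶠ n in UF, IsFr Φ (B n) (c n)
  wt : ∀ a, 0 ≤ (om a).1 ∧ 0 ≤ (om a).2
  live : ∀ a, pos a → om a ≠ 0
  ob : ∀ a b e, OB M fun n => c n a b e
  hom : ∀ a b e, om e ≠ 0 → ¬Hm om a b e → Neg M fun n => c n a b e
  sub : ∀ a b e, ¬pos a → ¬pos b → pos e → Neg M fun n => c n a b e
  gen : ∀ e, Mx om e → ∃ lam : ℕ → κ → κ → ℝ, (∀ a b, OB M fun n => lam n a b) ∧
    ∀ e', om e' = om e → Neg M fun n =>
      ∑ a, ∑ b, lam n a b * cH om (c n) a b e' - if e' = e then 1 else 0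

/-- The index `f` is central. -/
def Cen (om : κ → ℝ × ℝ) (c : ℕ → κ → κ → κ → ℝ) (f : κ) : Prop :=
  ∀ b e, om e ≠ 0 → Neg M fun n => c n f b e

/-- The values of `j` lie in `j0` times a box of exponential size. -/
def Sure {Ω : ℕ → Type} (P : ∀ n, FP (Ω n)) (B : ℕ → κ → Mt ι) (r : ℕ → κ → ℝ)
    (j0 j : ∀ n, Ω n → Mt ι) : Prop := ∃ C : ℝ, 0 ≤ C ∧ ∀ᶠ n in UF, ∀ ω ∈ (P n).S,
  IsUnit (j0 n ω) ∧ Nr (B n) (r n) (Real.exp (C * M n)) (j0 n ω) (j n ω)

/-- The cell of depth `d`. -/
noncomputable def cl (B : ℕ → κ → Mt ι) (d : κ → ℝ) (n : ℕ) : Mt ι → Mt ι :=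
  cell (B n) (rad M d n)

end Seq

end Pool.Agent.MP_5168f5_an.AN.GA
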