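import Pool.Agent.MP_5168f5_an.AN.Defs
import Pool.Agent.MP_5168f5_an.AN.C1Vol
import Pool.Agent.MP_5168f5_an.AN.GADef

/-! Kakeya sets in all dimensions: the linear model of a window of cells, definitions. -/

namespace Pool.Agent.MP_5168f5_an.AN.N2

open H19 H17S H17F R4 Filter MvPolynomial
open G39 (dl)
open Pk (cn)
open Nc (Pl)
open C1 (Dg)
open GA (Mt)

section One

variable {N m : ℕ}

/-- The family `f` spans the polynomials of degree at most `D`. -/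
def Sp (D : ℕ) (f : Fin m → Pl N) : Prop := (∀ i, (f i).totalDegree ≤ D) ∧
  ∀ F : Pl N, F.totalDegree ≤ D → ∃ c : Fin m → ℝ, F = ∑ i, c i • f i

/-- A matrix acts on a family. -/
noncomputable def act (u : Mt (Fin m)) (f : Fin m → Pl N) : Fin m → Pl N :=
  fun p => ∑ q, u p q • f q

/-- Unipotent and triangular for the weights `la`. -/
def Uni (la : Fin m → ℝ) (u : Mt (Fin m)) : Prop :=
  ∀ p q, ¬la q < la p → u p q = (1 : Mt (Fin m)) p q

/-- The rank of a weight. -/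
noncomputable def rk (la : Fin m → ℝ) (p : Fin m) : ℕ :=
  (Finset.univ.filter fun q => la q < la p).card

/-- The filtration of the triangular matrices. -/
noncomputable def tri (la : Fin m → ℝ) : H61Z.Filt (Mt (Fin m)) where
  F n :=
    { carrier := {X | ∀ p q, ¬rk la q + n < rk la p → X p q = 0}
      add_mem' := fun a b p q h => by simp [a p q h, b p q h]
      zero_mem' := fun _ _ _ => rfl
      smul_mem' := fun c _ a p q h => by simp [a p q h] }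
  N := m
  anti := fun _ _ a p q h => a p q fun k => h (by omega)
  mul_l := fun n x y a b p q h => by
    refine Matrix.mul_apply.trans (Finset.sum_eq_zero fun r _ => ?_)
    by_cases e : rk la r + 0 < rk la p
    · rw [b r q fun k => h (by omega), mul_zero]
    · rw [a p r e, zero_mul]
  mul_r := fun n x y a b p q h => by
    refine Matrix.mul_apply.trans (Finset.sum_eq_zero fun r _ => ?_)
    by_cases e : rk la q + 0 < rk la r
    · rw [a p r fun k => h (by omega), zero_mul]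
    · rw [b r q e, mul_zero]
  bot := fun x a => Matrix.ext fun p q => a p q fun k => by
    have : rk la p ≤ m := (Finset.card_filter_le _ _).trans_eq (by simp)
    omega

/-- The indices of the elementary matrices. -/
abbrev El (la : Fin m → ℝ) : Type := {a : Fin m × Fin m // la a.2 < la a.1}

/-- The elementary matrices. -/
def eB (la : Fin m → ℝ) (a : El la) : Mt (Fin m) := Matrix.single a.1.1 a.1.2 1

/-- Their weights. -/
def eW (la : Fin m → ℝ) (a : El la) : ℝ := la a.1.1 - la a.1.2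

/-- Their structure constants. -/
def eC (la : Fin m → ℝ) (a b e : El la) : ℝ := GA.cm (eB la a) (eB la b) e.1.1 e.1.2

/-- The normalised family of level `a`. -/
noncomputable def nf (M : ℕ → ℕ) (la : Fin m → ℝ) (a : ℝ) (n : ℕ) (r : Mt (Fin m))
    (e : Fin m → Pl N) : Fin m → Pl N := fun p => (dl M (la p * a) n)⁻¹ • act r⁻¹ e p

/-- The normalised position of level `a`. -/
noncomputable def ny (M : ℕ → ℕ) (la : Fin m → ℝ) (o : Fin m) (a : ℝ) (n : ℕ)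
    (r j : Mt (Fin m)) : V m := fun p => (dl M (la p * a) n)⁻¹ * (r⁻¹ * j) p o

end One

section Seq

variable {N k m : ℕ} {Ω Λ : ℕ → Type} (P : ∀ n, FP (Ω n)) (M : ℕ → ℕ) (x : ∀ n, Ω n → V N)

/-- On the pieces of level `t` the point is `τ` of the zoomed parameter, with accuracy `K` for
the polynomials of degree `E` in the norm of the cell. -/
structure Par (κ : ∀ n, Kd k (Ω n)) (t : ℕ → ℕ) (A : ∀ n, Ω n → Λ n)
    (τ : ∀ n, Ω n → Fin N → Pl k) (E J : ℕ) (K : ℝ) : Prop where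
  fn : FnE P τ fun n => (κ n).pc (t n)
  deg : ∀ n ω i, (τ n ω i).totalDegree ≤ J
  bd : Gp P M fun n ω Γ => ∀ F : Pl N, F.totalDegree ≤ E →
    cn (aeval (τ n ω) F) ≤ Γ * nc (P n) (x n) (A n) ω F
  err : Whp P fun n ω => ∀ F : Pl N, F.totalDegree ≤ E →
    |eval (x n ω) F - eval (fr (t n) ((κ n).p ω)) (aeval (τ n ω) F)| ≤
      dl M K n * nc (P n) (x n) (A n) ω F

/-- One coordinate moves at full speed along one parameter. -/
def Lng (t : ℕ → ℕ) (τ : ∀ n, Ω n → Fin N → Pl k) : Prop := Gp P M fun n ω Γ =>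
  ∃ i l, ∀ q : V k, ‖q‖ ≤ 1 → 1 ≤ Γ * (2 ^ t n * |eval q (pderiv l (τ n ω i))|)

/-- The cells lie in balls of radius `2^{-t}`. -/
def Ball (t : ℕ → ℕ) (A : ∀ n, Ω n → Λ n) : Prop := Gp P M fun n ω Γ =>
  ∀ i, ∃ c : ℝ, 2 ^ t n * nc (P n) (x n) (A n) ω (X i - C c) ≤ Γ

/-- From the cells `A` to the cells `A'` all polynomials contract, up to constants. -/
def Slope (A A' : ∀ n, Ω n → Λ n) (D : ℕ) (σ : ℝ) : Prop := Gp P M fun n ω Γ =>
  ∀ F : Pl N, F.totalDegree ≤ D → ∃ c : ℝ,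
    nc (P n) (x n) (A' n) ω (F - C c) ≤ Γ * dl M σ n * nc (P n) (x n) (A n) ω F

/-- One family is diagonal for all levels of a window. -/
def Lin (S : ℚ → ∀ n, Ω n → Λ n) (D : ℕ) (la : Fin m → ℝ) : Prop := ∀ T : Finset ℚ,
  Gp P M fun n ω Γ => ∃ f : Fin m → Pl N, Sp D f ∧
    ∀ a ∈ T, Dg (nc (P n) (x n) (S a n) ω) f (fun i => dl M (la i * a) n) Γ

/-- The linear model. -/
structure Mod (S : ℚ → ∀ n, Ω n → Λ n) (D : ℕ) (σ : ℝ) (la : Fin m → ℝ) (o : Fin m)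
    (eb : ∀ n, Ω n → Fin m → Pl N) (j : ∀ n, Ω n → Mt (Fin m))
    (jr : ℚ → ∀ n, Ω n → Mt (Fin m)) : Prop where
  wo : la o = 0
  wp : ∀ p, p ≠ o → σ ≤ la p
  fe : FnE P eb (S 0)
  fj : ∀ a, 0 ≤ a → FnE P (jr a) (S a)
  uj : ∀ n ω, Uni la (j n ω)
  ur : ∀ a n ω, Uni la (jr a n ω)
  r0 : ∀ n ω, jr 0 n ω = 1
  e1 : ∀ n ω, eb n ω o = 1
  deg : ∀ n ω p, (eb n ω p).totalDegree ≤ D
  ev : ∀ K : ℝ, Whp P fun n ω => ∀ p, |eval (x n ω) (eb n ω p) - j n ω p o| ≤ dl M K n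
  inc : ∀ a : ℚ, 0 ≤ a → Gp P M fun n ω Γ => ∀ p q,
    |((jr a n ω)⁻¹ * j n ω) p q| ≤ Γ * dl M ((la p - la q) * a) n
  dg : ∀ a : ℚ, 0 ≤ a → Gp P M fun n ω Γ => Sp D (nf M la a n (jr a n ω) (eb n ω)) ∧
    Dg (nc (P n) (x n) (S a n) ω) (nf M la a n (jr a n ω) (eb n ω)) (fun _ => 1) Γ
  pos : ∀ (a : ℚ) (K : ℝ), 0 ≤ a → Whp P fun n ω => ∀ p,
    |eval (x n ω) (nf M la a n (jr a n ω) (eb n ω) p) - ny M la o a n (jr a n ω) (j n ω) p| ≤
      dl M K n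

end Seq

/-! ### Statements -/

/-- The model exists. -/
def ExMod : Prop := ∀ (N m D : ℕ) (Ω Λ : ℕ → Type) (P : ∀ n, FP (Ω n)) (M : ℕ → ℕ)
  (x : ∀ n, Ω n → V N) (S : ℚ → ∀ n, Ω n → Λ n) (σ : ℝ) (la : Fin m → ℝ), Big M → 0 < σ →
  (∀ a a', a ≤ a' → FnE P (S a) (S a')) → Lin P M x S D la → Slope P M x (S 0) (S 1) D σ →
  ∃ o eb j jr, Mod P M x S D σ la o eb j jr

/-- The parametrisation exists; its degree depends on `E`, `B`, `s`, `K` only. -/
def ExPar : Prop := ∀ (E : ℕ) (B s K : ℝ), 0 < s → ∃ J : ℕ, ∀ (N k C m : ℕ) (Ω Λ : ℕ → Type)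
  (P : ∀ n, FP (Ω n)) (M : ℕ → ℕ) (x : ∀ n, Ω n → V N) (κ : ∀ n, Kd k (Ω n)) (t : ℕ → ℕ)
  (A : ∀ n, Ω n → Λ n) (T : ℕ), Big M → Bdd P M x → Kind P M x κ C m →
  (∀ᶠ n in UF, s * M n ≤ t n ∧ t n ≤ T * M n) → FnE P A (fun n => (κ n).pc (t n)) →
  (Whp P fun n ω => ∀ F : Pl N, F.totalDegree ≤ E →
    dl M B n * cn F ≤ nc (P n) (x n) (A n) ω F) →
  ∃ τ, Par P M x κ t A τ E J K ∧ (0 < m → Lng P M t τ)

/-- Entries give logarithmic coordinates. -/
def ExLog : Prop := ∀ m : ℕ, ∃ (C : ℝ) (e : ℕ), 1 ≤ C ∧ ∀ (la ρ : Fin m → ℝ) (r j : Mt (Fin m)) (L : ℝ),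
  1 ≤ L → (∀ p, 0 < ρ p) → Uni la r → Uni la j → (∀ p q, |(r⁻¹ * j) p q| ≤ L * (ρ p / ρ q)) →
  GA.Nr (eB la) (fun a => ρ a.1.1 / ρ a.1.2) (C * L ^ e) r j

end Pool.Agent.MP_5168f5_an.AN.N2
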