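import Pool.Agent.MP_5168f5_an.AN.C1P
import Pool.Agent.MP_5168f5_an.AN.N2Defs
import Pool.Agent.MP_5168f5_an.AN.Api
import Pool.Agent.MP_5168f5_an.AN.PAll
import Pool.Agent.MP_5168f5_an.AN.Cx

/-! One basis for the norms of a window of cells. -/

namespace Pool.Agent.MP_5168f5_an.AN.C1

open H19 H17S H17F R4 Filter MvPolynomial
open G39 (nu dl)
open Nc (Pl)
open Pk (cn)
open scoped InnerProductSpace

section One

variable {Ω Λ Λ' : Type} {N : ℕ}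

/-- A majorant of all normalised polynomials. -/
theorem ker (Q : FP Ω) (x : Ω → V N) (E : ℕ) : ∃ K : Ω → ℝ, (∀ v, 0 ≤ K v) ∧
    Q.E K ≤ ((E + 1) ^ N : ℕ) ^ 2 ∧ ∀ v ∈ Q.S, ∀ F : Pl N, F.totalDegree ≤ E →
      eval (x v) F ^ 2 ≤ nu Q (fun u => eval (x u) F) ^ 2 * K v := by
  classical
  have := (K3.ref_PE Q x E).2
  obtain ⟨b, -, b1, b2⟩ := K3.frame ((K3.PE x E).map (G39.G39OnbA.T Q))
    ((Submodule.finrank_map_le _ _).trans (K3.ref_PE Q x E).3)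
  generalize (E + 1) ^ N = D at b b1 b2
  refine ⟨fun v => if h : v ∈ Q.S then D * (∑ j, b j ⟨v, h⟩ ^ 2) / Q.p v else 0, fun v => ?_, ?_,
    fun v h F hF => ?_⟩
  · beta_reduce
    split_ifs with h
    · have := Q.pos v h
      positivity
    · exact le_rfl
  · rw [FP.E, ← Finset.sum_coe_sort Q.S, Finset.sum_congr rfl (g := fun w : Q.S =>
      D * ∑ j, b j w ^ 2) fun w _ => by rw [dif_pos w.2, mul_div_cancel₀ _ (Q.pos _ w.2).ne'],
      ← Finset.mul_sum, Finset.sum_comm, pow_two (D : ℝ)]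
    refine mul_le_mul_of_nonneg_left ((Finset.sum_le_card_nsmul _ _ 1 fun j _ => ?_).trans
      (by simp)) (Nat.cast_nonneg _)
    rw [← EuclideanSpace.real_norm_sq_eq]
    exact pow_le_one₀ (norm_nonneg _) (b1 j)
  · have e := congrArg (fun y => y ⟨v, h⟩) (b2 _ (Submodule.mem_map_of_mem
      (K3.mem_PE.2 ⟨F, hF, fun _ => rfl⟩ : (fun u => eval (x u) F) ∈ K3.PE x E)))
    have s := G39.G39OnbA.T_sq Q (fun u => eval (x u) F) ⟨v, h⟩
    rw [← G39.G39OnbA.norm_T]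
    generalize G39.G39OnbA.T Q (fun u => eval (x u) F) = t at e s
    have c := Finset.sum_mul_sq_le_sq_mul_sq Finset.univ (fun j => ⟪b j, t⟫_ℝ) fun j => b j ⟨v, h⟩
    have d : ∑ j, ⟪b j, t⟫_ℝ ^ 2 ≤ D * ‖t‖ ^ 2 :=
      (Finset.sum_le_card_nsmul _ _ (‖t‖ ^ 2) fun j _ => by
        rw [← sq_abs]
        exact pow_le_pow_left₀ (abs_nonneg _) ((abs_real_inner_le_norm _ _).trans
          (mul_le_of_le_one_left (norm_nonneg _) (b1 j))) 2).trans (by simp)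
    simp only [WithLp.ofLp_sum, Finset.sum_apply, PiLp.smul_apply, smul_eq_mul] at e
    beta_reduce
    rw [dif_pos h, ← mul_div_assoc, le_div_iff₀' (Q.pos v h), ← s, ← e]
    refine c.trans ((mul_le_mul_of_nonneg_right d (by positivity)).trans_eq (by ring))

theorem nc_le (P : FP Ω) (x : Ω → V N) {A : Ω → Λ} {A' : Ω → Λ'} (h : Fn P A A') (E : ℕ) {L : ℝ}
    (hL : 0 < L) : pb P (fun ω => ¬∀ F : Pl N, F.totalDegree ≤ E →
      nc P x A' ω F ≤ L * nc P x A ω F) ≤ ((E + 1) ^ N : ℕ) ^ 2 / L ^ 2 := by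
  choose K K0 K1 K2 using fun a => ker (cv P A a) x E
  have m := G39.markov P (u := fun ω => (cv P A' (A' ω)).E fun v => K (A v) v)
    (fun ω _ => FP.E_nonneg _ fun v _ => K0 _ v) (L ^ 2)
  rw [← KEA.exp P A' fun _ v => K (A v) v, KEA.exp P A K] at m
  rw [le_div_iff₀' (by positivity)]
  refine le_trans (mul_le_mul_of_nonneg_left (pb_mono fun ω hω k => by_contra fun u =>
    k fun F hF => ?_) (by positivity)) (m.trans ((P.E_mono fun ω _ => K1 _).trans_eq (P.E_const _)))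
  have n0 : 0 ≤ nc P x A ω F := Real.sqrt_nonneg _
  refine Real.sqrt_le_iff.2 ⟨by positivity, le_trans (FP.E_mono _ (G := fun v =>
    nc P x A ω F ^ 2 * K (A v) v) fun v hv => ?_) ?_⟩
  · obtain ⟨a, b⟩ := (Cx.mem_cv hω v).1 hv
    rw [h v a ω hω b]
    exact K2 _ v ((Cx.mem_cv hω v).2 ⟨a, h v a ω hω b⟩) F hF
  · rw [FP.E_mul, mul_pow, mul_comm]
    exact mul_le_mul_of_nonneg_right (not_le.1 u).le (by positivity)

/-- The polynomials of degree at most `D`. -/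
abbrev PD (N D : ℕ) : Type := restrictTotalDegree (Fin N) ℝ D

/-- The norm of the cell on the polynomials of degree at most `D`. -/
noncomputable def nV (D : ℕ) (P : FP Ω) (x : Ω → V N) (A : Ω → Λ) (ω : Ω) (F : PD N D) : ℝ :=
  nc P x A ω F.1

theorem deg_PD {D : ℕ} (F : PD N D) : F.1.totalDegree ≤ D := (mem_restrictTotalDegree _ _ _).1 F.2

theorem hb_nV {D : ℕ} {P : FP Ω} {x : Ω → V N} {A : Ω → Λ} {ω : Ω}
    (h : ∀ F : Pl N, F.totalDegree ≤ D → F ≠ 0 → 0 < nc P x A ω F) : Hb (nV D P x A ω) :=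
  ⟨_, inferInstance, G39.G39OnbA.T (cv P A (A ω)) ∘ₗ K3.evL x ∘ₗ Submodule.subtype _,
    (injective_iff_map_eq_zero _).2 fun F e => Subtype.ext (by_contra fun k =>
      (h F.1 (deg_PD F) k).ne' ((G39.G39OnbA.norm_T _ _).symm.trans (norm_eq_zero.2 e))),
    fun _ => (G39.G39OnbA.norm_T _ _).symm⟩

theorem nc_up {P : FP Ω} {x : Ω → V N} (A : Ω → Λ) (ω : Ω) {K : ℝ} (hK : 1 ≤ K)
    (h : ∀ v ∈ P.S, ‖x v‖ ≤ K) {E : ℕ} {F : Pl N} (hF : F.totalDegree ≤ E) :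
    nc P x A ω F ≤ cn F * K ^ E := by
  have k : ∀ v ∈ P.S, |eval (x v) F| ≤ cn F * K ^ E := fun v hv =>
    Pk.kc.val F E K (x v) hF hK fun i => (norm_le_pi_norm (x v) i).trans (h v hv)
  obtain ⟨v, hv⟩ := Cx.ex_mem P
  exact Real.sqrt_le_iff.2 ⟨(abs_nonneg _).trans (k v hv), (FP.E_mono _ fun u hu =>
    sq_le_sq' (abs_le.1 (k u (cE_sub hu))).1 (abs_le.1 (k u (cE_sub hu))).2).trans_eq
      (FP.E_const _ _)⟩

theorem log_rho {W : Type} [AddCommGroup W] [Module ℝ W] [FiniteDimensional ℝ W] {ν ν' : W → ℝ}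
    {m k : ℕ} {y : ℝ} (h : Hb ν) (h' : Hb ν') (rk : Module.finrank ℝ W = m) (hk : k ≤ m)
    (e : ∀ v, ν v ≤ Real.exp y * ν' v) (e' : ∀ v, ν' v ≤ Real.exp y * ν v) :
    |Real.log (rho k ν ν')| ≤ k * y := by
  have p := rho_pos h h' rk hk
  have a := le_mul_iff_one_le_left (rho_pos h h rk hk) |>.1 (rMul W ν ν ν k h h h).1
  have b := (a.trans (rMul W ν ν' ν k h h' h).1).trans (mul_le_mul_of_nonneg_left
    ((rMul W ν' ν ν k h' h h).2.2 _ (Real.exp_pos y) e').1 p.le)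
  have c := Real.log_nonneg b
  rw [← Real.exp_nat_mul, Real.log_mul p.ne' (Real.exp_pos _).ne', Real.log_exp] at c
  rw [abs_le, Real.log_le_iff_le_exp p, Real.exp_nat_mul]
  exact ⟨by linarith, ((rMul W ν ν' ν k h h' h).2.2 _ (Real.exp_pos y) e).1⟩

/-- Almost linear relative volumes give one basis. -/
theorem basis0 (m : ℕ) : ∃ C : ℕ, ∀ (W ι : Type) [AddCommGroup W] [Module ℝ W]
    [FiniteDimensional ℝ W] (lv : ι → ℝ) (ν : ι → W → ℝ) (la : Fin m → ℝ) (T : Finset ι) (R y : ℝ),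
    Module.finrank ℝ W = m → Function.Injective lv → 2 ≤ Real.exp y → (∀ a : T, Hb (ν a)) →
    (∀ j : Fin (m + 1) × T × T, lv j.2.1 ≤ lv j.2.2 →
      |Real.log (rho j.1 (ν j.2.1) (ν j.2.2)) - sk la j.1 * (lv j.2.2 - lv j.2.1) * R| ≤ y) →
    ∃ f : Fin m → W, ⊤ ≤ Submodule.span ℝ (Set.range f) ∧
      ∀ a ∈ T, Dg (ν a) f (fun i => Real.exp (-(la i * lv a * R))) (Real.exp (C * y)) := by
  obtain ⟨C, hC⟩ := line m
  refine ⟨C, fun W ι _ _ _ lv ν la T R y rk inj u v w => ?_⟩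
  rcases T.eq_empty_or_nonempty with rfl | ne
  · exact ⟨_, (Module.finBasisOfFinrankEq ℝ W rk).span_eq.ge, by simp⟩
  obtain ⟨a0, m0, h0⟩ := T.exists_min_image lv ne
  obtain ⟨a1, m1, h1⟩ := T.exists_max_image lv ne
  have : Nonempty ι := ⟨a0⟩
  have li := Function.leftInverse_invFun inj
  obtain ⟨f, f1, f2⟩ := hC W (fun s => ν (Function.invFun lv s)) (lv '' T)
    (fun i => la i * R) _ _ _ rk u (by rintro _ ⟨a, k, rfl⟩; rw [li]; exact v ⟨a, k⟩)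
    ⟨a0, m0, rfl⟩ ⟨a1, m1, rfl⟩ (by rintro _ ⟨a, k, rfl⟩; exact ⟨h0 a k, h1 a k⟩) (by
      rintro k hk _ ⟨a, ha, rfl⟩ _ ⟨b, hb, rfl⟩ e
      have y := abs_le.1 (w (⟨k, Nat.lt_succ_of_le hk⟩, ⟨a, ha⟩, ⟨b, hb⟩) e)
      have r := rho_pos (v ⟨a, ha⟩) (v ⟨b, hb⟩) rk hk
      have z : (pk (fun i => Real.exp (la i * R * (lv b - lv a))) k) =
          Real.exp (sk la k * (lv b - lv a) * R) := by
        rw [pk, ← Real.exp_sum, sk, mul_assoc, Finset.sum_mul]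
        exact congrArg _ (Finset.sum_congr rfl fun _ _ => by ring)
      simp only [li a, li b, z]
      rw [← Real.exp_log r, Ap, ← Real.exp_add, ← Real.exp_add, Real.exp_le_exp, Real.exp_le_exp]
      constructor <;> linarith [y.1, y.2])
  refine ⟨f, f1, fun a k => ?_⟩
  simpa only [li a, mul_right_comm _ R, Real.exp_nat_mul] using f2 _ ⟨a, k, rfl⟩

/-- From the subspace to the polynomials. -/
theorem sp_PD {D m : ℕ} {ι : Type} {T : Finset ι} {ν : ι → Pl N → ℝ} {l : ι → Fin m → ℝ} {Γ : ℝ}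
    (h : ∃ f : Fin m → PD N D, ⊤ ≤ Submodule.span ℝ (Set.range f) ∧
      ∀ a ∈ T, Dg (fun F => ν a F.1) f (l a) Γ) :
    ∃ f : Fin m → Pl N, N2.Sp D f ∧ ∀ a ∈ T, Dg (ν a) f (l a) Γ := h.elim fun f ⟨a, b⟩ =>
  ⟨fun i => (f i).1, ⟨fun i => deg_PD _, fun F hF => by
    obtain ⟨c, e⟩ := (Submodule.mem_span_range_iff_exists_fun ℝ).1
      (a (Submodule.mem_top (x := ⟨F, (mem_restrictTotalDegree _ _ _).2 hF⟩)))
    exact ⟨c, by simpa using (congrArg Subtype.val e).symm⟩⟩,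
    fun r k => ⟨(b r k).1, fun c i => by simpa using (b r k).2 c i⟩⟩

end One

section Seq

variable {Ω Ω' Λ Λ' : ℕ → Type} {P : ∀ n, FP (Ω n)} {M : ℕ → ℕ} {N m D : ℕ} {x : ∀ n, Ω n → V N}

/-- Smaller cells have smaller norms. -/
theorem nc_mono (hM : Big M) (x : ∀ n, Ω n → V N) {A : ∀ n, Ω n → Λ n} {A' : ∀ n, Ω n → Λ' n}
    (h : FnE P A A') (E : ℕ) : Gp P M fun n ω Γ => ∀ F : Pl N, F.totalDegree ≤ E →
      nc (P n) (x n) (A' n) ω F ≤ Γ * nc (P n) (x n) (A n) ω F :=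
  S20.gp_of_wp fun c hc ε hε => by
    filter_upwards [h, K3.cheb_ev hM (((E + 1) ^ N : ℕ) ^ 2) hc hε] with n a b
    rw [G39.dl_inv] at b
    exact (nc_le _ _ a E (Real.exp_pos _)).trans b

/-- Linear profiles give one basis. -/
theorem basis {W ι : Type} [AddCommGroup W] [Module ℝ W] [FiniteDimensional ℝ W] {lv : ι → ℝ}
    {ν : ι → ∀ n, Ω n → W → ℝ} {la : Fin m → ℝ} (rk : Module.finrank ℝ W = m) (hM : Big M)
    (inj : Function.Injective lv) (hb : ∀ a, Whp P fun n ω => Hb (ν a n ω))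
    (h : LinP P M lv ν la) (T : Finset ι) : Gp P M fun n ω Γ => ∃ f : Fin m → W,
      ⊤ ≤ Submodule.span ℝ (Set.range f) ∧
        ∀ a ∈ T, Dg (ν a n ω) f (fun i => dl M (la i * lv a) n) Γ := by
  obtain ⟨C, hC⟩ := basis0 m
  refine S20.gp_of_wp fun c hc => ?_
  have p : 0 < c / (C + 1) := by positivity
  refine ((Whp.all fun a : T => hb a).and (Whp.all (G := fun (j : Fin (m + 1) × T × T) n ω =>
    lv j.2.1 ≤ lv j.2.2 → |Real.log (rho j.1 (ν j.2.1 n ω) (ν j.2.2 n ω)) -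
      sk la j.1 * (lv j.2.2 - lv j.2.1) * M n| ≤ c / (C + 1) * M n) fun j => ?_)).mono ?_
  · by_cases e : lv j.2.1 ≤ lv j.2.2
    · exact (h _ j.1.is_le _ _ e _ p).mono (Eventually.of_forall fun _ _ _ k _ => k)
    · exact Whp.of_ev (Eventually.of_forall fun _ _ _ k => absurd k e)
  filter_upwards [G39.big_dl hM 2 p] with n u ω _ ⟨v, w⟩
  rw [G39.dl_inv] at u
  refine (hC W ι lv (fun a => ν a n ω) la T _ _ rk inj u v w).imp fun f y => ⟨y.1, fun a k =>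
    (y.2 a k).mono (v ⟨a, k⟩).nonneg (fun _ => (Real.exp_pos _).le) ?_⟩
  rw [Real.exp_le_exp, ← mul_assoc]
  refine mul_le_mul_of_nonneg_right ?_ (Nat.cast_nonneg _)
  rw [← mul_div_assoc, div_le_iff₀ (by positivity)]
  linarith

theorem lin {S : ℚ → ∀ n, Ω n → Λ n} {la : Fin m → ℝ} (rk : Module.finrank ℝ (PD N D) = m)
    (hM : Big M) (hb : ∀ a, Whp P fun n ω => Hb (nV D (P n) (x n) (S a n) ω))
    (h : LinP P M (fun a : ℚ => (a : ℝ)) (fun a n => nV D (P n) (x n) (S a n)) la) :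
    N2.Lin P M x S D la := fun T =>
  (basis rk hM Rat.cast_injective hb h T).mono (Eventually.of_forall fun _ _ _ _ _ => sp_PD)

end Seq

end Pool.Agent.MP_5168f5_an.AN.C1
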