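import Pool.Agent.MP_5168f5_an.AN.LWin
import Pool.Agent.MP_5168f5_an.AN.GCel2
import Pool.Agent.MP_5168f5_an.AN.C1B
import Pool.Agent.MP_5168f5_an.AN.N2Mod

/-! The cells of a window contract. -/

namespace Pool.Agent.MP_5168f5_an.AN.LC

open H19 H17S H17F R4 Filter MvPolynomial S20
open G39 (dl dl_pos dl_inv)
open Pk (cn kc)
open Nc (Pl ev)

theorem sSlope : SSlope := by
  intro d m Ω Λ k P M x s C C' ml t S Θ W τ J D la c₀ w
  have hM := w.glo.big
  refine ⟨1 / 4, by norm_num, gp_of_wp fun c hc => ?_⟩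
  have n01 := w.nest 0 1 zero_le_one
  have t01 := w.tm 0 1 zero_le_one
  refine (Cx.whp_all (Q := S 1) (T := fun _ => {F : Pl (d + 1) // F.totalDegree ≤ D})
    (fun _ => ⟨⟨0, by simp⟩⟩) (p := fun n ω F => ∃ c' : ℝ,
      nc (P n) (x n) (S 1 n) ω (F.1 - MvPolynomial.C c') ≤
        Real.exp (c * M n) * dl M (1 / 4) n * nc (P n) (x n) (S 0 n) ω F.1) ?_ fun F hF => ?_).mono
    (Eventually.of_forall fun n ω _ k F hF => k ⟨F, hF⟩)
  · filter_upwards [n01] with n e u hu v hv h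
    simp only [N2.nc_congr _ _ _ h, N2.nc_congr _ _ _ (e u hu v hv h)]
  set F1 : ∀ n, Ω n → Pl (d + 1) := fun n ω => (nc (P n) (x n) (S 0 n) ω (F n ω).1)⁻¹ • (F n ω).1
    with e1
  have f1 : FnE P F1 (S 1) := by
    filter_upwards [n01, hF] with n e e' u hu v hv h
    simp only [e1, N2.nc_congr _ _ _ (e u hu v hv h), e' u hu v hv h]
  have d1 : ∀ n ω, (F1 n ω).totalDegree ≤ D := fun n ω =>
    (totalDegree_smul_le _ _).trans (F n ω).2
  have v1 : ∀ n ω, nc (P n) (x n) (S 0 n) ω (F1 n ω) ≤ 1 := fun n ω => by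
    simp only [e1]
    rw [(N2.sn_nc _ _ _ ω).smul, abs_of_nonneg (inv_nonneg.2 ((N2.sn_nc _ _ _ ω).nn _))]
    exact inv_mul_le_one_of_le₀ le_rfl ((N2.sn_nc _ _ _ ω).nn _)
  have cst := Cx.cm_cst (θ := dl M (1 / 4)) (a := fun b n ω => eval (fr (t 0 n) ((s n b).p
      (Cx.sec (P n) ((s n b).pc (t 1 n)) ((s n b).pc (t 1 n) ω)))) (aeval (τ D 0 b n ω) (F1 n ω)))
    hM (w.cel 1).cm.nt (fun b => f1.trans ((w.cel 1).cm.com b)) d1 (fun b => by
      filter_upwards [t01, f1.trans ((w.cel 1).cm.com b), (w.par D 0 b 0).fn]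
        with n e e' e'' u hu v hv h
      have h' : (s n b).pc (t 1 n) u = (s n b).pc (t 1 n) v := h
      simp only [h', e' u hu v hv h, e'' u hu v hv (Prod.ext (congrArg (·.1) h')
        (Prod.ext (congrArg (·.2.1) h') (fl_eq_of_le e (congrArg (·.2.2) h'))))])
    (dl_pos M _) (fun c hc => Whp.all fun b => by
      obtain ⟨Γ, a, g⟩ := gp_iff.1 (w.par D 0 b 0).bd
      refine (g.and (w.par D 0 b (1 / 4)).err).mono ?_
      filter_upwards [t01, (w.tl 1).2 _ one_half_pos, ((a.const_mul hM (C := D * J D + 2)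
        (by linarith [show (0 : ℝ) ≤ D * J D by positivity])).2 c hc)] with n e e' l ω hω u
      have p := dl_pos M (1 / 4) n
      have sp := (Cx.sec_spec (Z := (s n b).pc (t 1 n)) hω).2
      set v := Cx.sec (P n) ((s n b).pc (t 1 n)) ((s n b).pc (t 1 n) ω)
      have k1 := (u.2 _ (d1 n ω)).trans (mul_le_of_le_one_right p.le (v1 n ω))
      have k2 := (u.1 _ (d1 n ω)).trans (mul_le_of_le_one_right (a.pos n).le (v1 n ω))
      have k3 : fl (t 1 n) ((s n b).p ω) = fl (t 1 n) ((s n b).p v) := (congrArg (·.2.2) sp).symm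
      have k4 : (2 : ℝ) ^ t 0 n * (2 ^ t 1 n)⁻¹ ≤ dl M (1 / 4) n := by
        obtain ⟨r, hr⟩ := Nat.exists_eq_add_of_le e
        rw [hr, pow_add, mul_inv, mul_inv_cancel_left₀ (by positivity),
          inv_le_comm₀ (by positivity) p, dl_inv]
        refine (Real.exp_le_exp.2 ?_).trans (exp_le_two_pow r)
        rw [hr] at e'
        push_cast at e'
        linarith
      have k5 := kc.lip _ _ 1 (dl M (1 / 4) n) (fr (t 0 n) ((s n b).p ω)) (fr (t 0 n) ((s n b).p v))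
        (kc.deg (τ D 0 b n ω) _ D (J D) (d1 n ω) ((w.par D 0 b 0).deg n ω)) le_rfl p.le fun i => by
          have z1 := fr_box (t 0 n) ((s n b).p ω) i
          have z2 := fr_box (t 0 n) ((s n b).p v) i
          refine ⟨abs_le.2 ⟨by linarith, z1.2.le⟩, abs_le.2 ⟨by linarith, z2.2.le⟩, le_trans ?_ k4⟩
          rw [fr_eq, fr_eq, fl_eq_of_le e k3]
          simp only [Pi.sub_apply, Pi.smul_apply, smul_eq_mul, sub_sub_sub_cancel_right, ← mul_sub,
            abs_mul, abs_pow, abs_two]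
          exact mul_le_mul_of_nonneg_left ((norm_le_pi_norm ((s n b).p ω - (s n b).p v) i).trans
            (norm_sub_lt_of_fl_eq k3).le) (by positivity)
      refine (abs_sub_le _ _ _).trans ((add_le_add k1 k5).trans
        (le_trans ?_ (mul_le_mul_of_nonneg_right l p.le)))
      have k6 := mul_le_mul_of_nonneg_right (a.1 n) p.le
      have k7 := mul_le_mul_of_nonneg_left k2
        (show (0 : ℝ) ≤ D * J D * dl M (1 / 4) n by positivity)
      rw [Nat.cast_mul, one_pow]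
      linarith) c hc
  obtain ⟨Γ, -, g⟩ := gp_iff.1 (C1.nc_mono hM x n01 D)
  refine (cst.and g).mono (Eventually.of_forall fun n ω _ ⟨⟨r, u⟩, u'⟩ => ?_)
  rcases ((N2.sn_nc (P n) (x n) (S 0 n) ω).nn (F n ω).1).eq_or_lt with z | z
  · exact ⟨0, by simpa [← z] using u' _ (F n ω).2⟩
  · refine ⟨nc (P n) (x n) (S 0 n) ω (F n ω).1 * r, ?_⟩
    have : (F n ω).1 - MvPolynomial.C (nc (P n) (x n) (S 0 n) ω (F n ω).1 * r) =
        nc (P n) (x n) (S 0 n) ω (F n ω).1 • (F1 n ω - MvPolynomial.C r) := by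
      rw [smul_sub, e1, smul_smul, mul_inv_cancel₀ z.ne', one_smul, C_mul, C_mul']
    rw [this, (N2.sn_nc _ _ _ ω).smul, abs_of_pos z, mul_comm]
    exact mul_le_mul_of_nonneg_right u z.le

end Pool.Agent.MP_5168f5_an.AN.LC
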