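import Pool.Agent.MP_5168f5_an.AN.C1B

/-! A slow blow up of a chain of minimal cells has one basis. -/

namespace Pool.Agent.MP_5168f5_an.AN.C1

open H19 H17S H17F R4 Filter MvPolynomial
open G39 (nu dl)
open Nc (Pl)
open Pk (cn)
open K31 (DnS)

/-- Windows of width `ε i` around `s`: the level `a` of the window `i` is `φ i a`, its unit is
`M' i`. -/
structure Win (M : ℕ → ℕ) (s : ℝ) (φ : ℕ → ℚ → ℚ≥0) (σ ε : ℕ → ℝ) (M' : ℕ → ℕ → ℕ) : Prop where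
  e0 : ∀ i, 0 < ε i
  e1 : Tendsto ε atTop (nhds 0)
  hσ : ∀ i, |σ i - s| ≤ ε i
  hφ : ∀ a, ∀ᶠ i in atTop, (φ i a : ℝ) = σ i + ε i * a
  hM : ∀ i, Eqv M (fun n => M' i n) fun n => ε i * M n

variable {Ω Ω' Λ : ℕ → Type} {β : Bool → ℕ → Type} {P : ∀ n, FP (Ω n)} {Q : ∀ n, FP (Ω' n)}
  {M : ℕ → ℕ} {N m D : ℕ} {x : ∀ n, Ω n → V N}

theorem big_min {i j : ℕ → ℕ} (a : Big i) (b : Big j) : Big fun n => min (i n) (j n) :=
  tendsto_atTop.2 fun K => ((tendsto_atTop.1 a K).and (tendsto_atTop.1 b K)).mono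
    fun _ u => le_min u.1 u.2

theorem Win.big {s : ℝ} {φ : ℕ → ℚ → ℚ≥0} {σ ε : ℕ → ℝ} {M' : ℕ → ℕ → ℕ} (w : Win M s φ σ ε M')
    (hM : Big M) (i : ℕ) : Big (M' i) := tendsto_atTop.2 fun K => by
  have p := half_pos (w.e0 i)
  filter_upwards [(w.hM i).2 _ p, hM.ev (K / (ε i / 2))] with n a b
  rw [div_le_iff₀ p] at b
  exact_mod_cast (by linarith : (K : ℝ) ≤ M' i n)

/-- Windows exist. -/
theorem ex_win (hM : Big M) {s : ℝ} (hs : 0 < s) : ∃ φ σ, (∀ i, Monotone (φ i)) ∧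
    Win M s φ σ (fun i => 1 / (i + 1 : ℝ)) fun i => lev M (1 / (i + 1 : ℝ)) := by
  choose σ s1 s2 using fun i : ℕ => exists_rat_btwn
    (lt_add_of_pos_right s (by positivity : 0 < 1 / (i + 1 : ℝ)))
  refine ⟨fun i a => (σ i + 1 / (i + 1) * a).toNNRat, fun i => σ i, fun i a b h =>
    NNRat.toNNRat_mono (by gcongr), fun i => by positivity,
    tendsto_one_div_add_atTop_nhds_zero_nat,
    fun i => abs_le.2 ⟨by linarith [s1 i, s2 i], by linarith [s2 i]⟩, fun a => ?_,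
    fun i => lev_eqv hM (by positivity)⟩
  filter_upwards [(tendsto_one_div_add_atTop_nhds_zero_nat.mul_const (a : ℝ)).eventually_const_le
    (by simpa using hs : -s < 0 * (a : ℝ))] with i u
  have e : (0 : ℝ) ≤ (σ i + 1 / (i + 1) * a : ℚ) := by push_cast; linarith [s1 i]
  rw [← Rat.cast_nnratCast, Rat.coe_toNNRat _ (Rat.cast_nonneg.1 e)]
  push_cast
  rfl

theorem wp_gp {q : ∀ n, Ω n → ℝ → Prop} (h : Gp P M q)
    (m : ∀ n ω Γ Γ', 1 ≤ Γ → Γ ≤ Γ' → q n ω Γ → q n ω Γ') {c : ℝ} (hc : 0 < c) :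
    Whp P fun n ω => q n ω (Real.exp (c * M n)) := by
  obtain ⟨Γ, a, b⟩ := S20.gp_iff.1 h
  exact b.mono ((a.2 c hc).mono fun n u ω _ => m n ω _ _ (a.1 n) u)

theorem nc_nn {Ω Λ : Type} (P : FP Ω) (x : Ω → V N) (A : Ω → Λ) (ω : Ω) (F : Pl N) :
    0 ≤ nc P x A ω F := Real.sqrt_nonneg _

/-- The basis survives a refinement of bounded density. -/
theorem lin_her (h2 : Her2) {ρ : ∀ n, Ω' n → Ω n} {Z : ℚ → ∀ b n, Ω n → β b n}
    {S : ℚ → ∀ n, Ω n → Λ n} {la : Fin m → ℝ} (d : DnS Q ρ P) (hM : Big M)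
    (cm : ∀ a, CM P M x (Z a) (S a)) (h : N2.Lin P M x S D la) :
    N2.Lin Q M (pl ρ x) (fun a => pl ρ (S a)) D la := fun T => by
  obtain ⟨Γ, a, b⟩ := S20.gp_iff.1 (h T)
  refine Gp.mul (p := fun n ω Γ => ∃ f : Fin m → Pl N, N2.Sp D f ∧ ∀ a ∈ T,
    Dg (nc (P n) (x n) (S a n) (ρ n ω)) f (fun i => dl M (la i * a) n) Γ)
    (p' := fun n ω Γ => ∀ (r : T) (F : Pl N), F.totalDegree ≤ D →
      nc (P n) (x n) (S r n) (ρ n ω) F ≤ Γ * nc (Q n) (pl ρ x n) (pl ρ (S r) n) ω F ∧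
      nc (Q n) (pl ρ x n) (pl ρ (S r) n) ω F ≤ Γ * nc (P n) (x n) (S r n) (ρ n ω) F)
    (S20.gp_iff.2 ⟨Γ, a, d.whp b⟩) (S20.gp_of_wp fun c hc => Whp.all fun r : T =>
    wp_gp ((h2.cm d hM (cm r)).2 D) (fun n ω Γ Γ' _ e u F hF => ⟨(u F hF).1.trans
      (mul_le_mul_of_nonneg_right e (nc_nn _ _ _ _ _)), (u F hF).2.trans
      (mul_le_mul_of_nonneg_right e (nc_nn _ _ _ _ _))⟩) hc)
    (Eventually.of_forall fun n ω _ Γ Γ' g g' ⟨f, u, v⟩ w => ⟨f, u, fun r k => ⟨fun i => ?_,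
      fun c i => ((v r k).2 c i).trans ?_⟩⟩)
  · rw [mul_comm Γ, mul_assoc]
    exact (w ⟨r, k⟩ _ (u.1 i)).2.trans (mul_le_mul_of_nonneg_left ((v r k).1 i) (by linarith))
  · rw [mul_assoc]
    exact mul_le_mul_of_nonneg_left (w ⟨r, k⟩ _ (totalDegree_finsetSum_le fun j _ =>
      (totalDegree_smul_le _ _).trans (u.1 j))).1 (by linarith)

/-- Deterministic profiles, linear at almost every level. -/
theorem core (sl : Slow) (h2 : Her2) {Z : ℚ≥0 → ∀ b n, Ω n → β b n} {S : ℚ≥0 → ∀ n, Ω n → Λ n}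
    (rk : Module.finrank ℝ (PD N D) = m) (hM : Big M) (su : Sure P M x)
    (ne : ∀ a a', a ≤ a' → FnE P (S a) (S a')) (cm : ∀ a, CM P M x (Z a) (S a))
    (fat : ∀ a, Fat P M x (S a)) {L : ℕ → ℝ} (hL : Tendsto L UF atTop) :
    ∃ (G : ∀ n, Ω n → Prop) (A : ℕ → ℚ≥0 → ℚ≥0 → ℝ), (∀ᶠ n in UF, 1 ≤ L n * pb (P n) (G n)) ∧
      (∀ a, Whp (fun n => cE (P n) (G n)) fun n ω => Hb (nV D (cE (P n) (G n)) (x n) (S a n) ω)) ∧
      Prf (fun n => cE (P n) (G n)) M m (fun a n => nV D (cE (P n) (G n)) (x n) (S a n)) A ∧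
      ∀ᵐ s : ℝ, 0 < s → ∃ la : Fin m → ℝ, LinAt (fun a : ℚ≥0 => (a : ℝ)) A s la := by
  choose B hB using fun a => fat a D
  have pos : ∀ a n ω, (∀ F : Pl N, F.totalDegree ≤ D →
      dl M (B a) n * cn F ≤ nc (P n) (x n) (S a n) ω F) → ∀ F : Pl N, F.totalDegree ≤ D → F ≠ 0 →
      0 < nc (P n) (x n) (S a n) ω F := fun a n ω u F hF e => (mul_pos (G39.dl_pos _ _ _)
    ((Finset.sum_nonneg fun _ _ => abs_nonneg _).lt_of_ne' fun k => e ((Pk.kc.zero F).1 k))).trans_le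
      (u F hF)
  obtain ⟨L0, l1, -, l2⟩ := sl Ω P M (fun Q => ∀ a, (Whp Q fun n ω => ∀ F : Pl N,
      F.totalDegree ≤ D → dl M (B a) n * cn F ≤ nc (P n) (x n) (S a n) ω F) ∧
      Gp Q M fun n ω Γ => ∀ F : Pl N, F.totalDegree ≤ D →
        nc (P n) (x n) (S a n) ω F ≤ Γ * nc (Q n) (x n) (S a n) ω F ∧
        nc (Q n) (x n) (S a n) ω F ≤ Γ * nc (P n) (x n) (S a n) ω F) hM
    (cf_all fun a => (cf_whp (fun n (s : FP (Ω n)) => s) fun n _ => _).and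
      (cf_gp (fun n (s : FP (Ω n)) => s) (fun n _ => M n) fun n s ω Γ => ∀ F : Pl N,
        F.totalDegree ≤ D → nc (P n) (x n) (S a n) ω F ≤ Γ * nc s (x n) (S a n) ω F ∧
          nc s (x n) (S a n) ω F ≤ Γ * nc (P n) (x n) (S a n) ω F))
    fun G g a => ⟨(hB a).cE g, (h2.cm (K31.dnS_cE g) hM (cm a)).2 D⟩
  obtain ⟨Γ, g1, g2⟩ := su
  have cp : ∀ a a' n ω, Γ n ≤ Real.exp (1 * M n) → (∀ ω ∈ (P n).S, ‖x n ω‖ ≤ Γ n) →
      (∀ F : Pl N, F.totalDegree ≤ D → dl M (B a') n * cn F ≤ nc (P n) (x n) (S a' n) ω F) →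
      ∀ y, D + B a' ≤ y → ∀ F, nV D (P n) (x n) (S a n) ω F ≤
        Real.exp (y * M n) * nV D (P n) (x n) (S a' n) ω F := fun a a' n ω u v w y hy F => by
    refine (nc_up _ ω (g1.1 n) v (deg_PD F)).trans (le_trans ?_
      (mul_le_mul_of_nonneg_left (w _ (deg_PD F)) (Real.exp_pos _).le))
    rw [← mul_assoc, mul_comm, dl, ← Real.exp_add]
    refine mul_le_mul_of_nonneg_right ((pow_le_pow_left₀ (g1.pos n).le u D).trans ?_)
      (Finset.sum_nonneg fun _ _ => abs_nonneg _)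
    rw [← Real.exp_nat_mul, Real.exp_le_exp]
    nlinarith [Nat.cast_nonneg (α := ℝ) (M n)]
  obtain ⟨G, c, G1, G2⟩ := det (P := P) (fun (j : ℕ × ℚ≥0 × ℚ≥0) n ω => Real.log (rho (min j.1 m)
    (nV D (P n) (x n) (S j.2.1 n) ω) (nV D (P n) (x n) (S j.2.2 n) ω))) hM
    (L := fun n => min (L n) (L0 n)) (tendsto_atTop.2 fun K => ((tendsto_atTop.1 hL K).and
      (tendsto_atTop.1 l1 K)).mono fun _ u => le_min u.1 u.2) fun ⟨k, a, a'⟩ =>
    ⟨(min k m : ℕ) * (D + max (B a) (B a')), ((hB a).and (hB a')).mono (by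
      filter_upwards [g1.2 1 one_pos, g2] with n u v ω _ w
      rw [mul_assoc]
      exact log_rho (hb_nV (pos _ _ _ w.1)) (hb_nV (pos _ _ _ w.2)) rk (min_le_right _ _)
        (cp a a' n ω u v w.2 _ (by gcongr; exact le_max_right _ _))
        (cp a' a n ω u v w.1 _ (by gcongr; exact le_max_left _ _)))⟩
  have kQ := l2 G (G1.mono fun n u => u.trans
    (mul_le_mul_of_nonneg_right (min_le_right _ _) (pb_nonneg _ _)))
  have hb : ∀ a, Whp (fun n => cE (P n) (G n)) fun n ω => Hb (nV D (P n) (x n) (S a n) ω) ∧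
      Hb (nV D (cE (P n) (G n)) (x n) (S a n) ω) := fun a =>
    ((kQ a).1.and (gp_log hM (kQ a).2 1 0 one_pos)).mono (Eventually.of_forall
      fun n ω _ ⟨u, Γ, v, _, w⟩ => ⟨hb_nV (pos _ _ _ u), hb_nV fun F hF e =>
        (pos_iff_pos_of_mul_pos ((pos _ _ _ u F hF e).trans_le (w F hF).1)).1 (by linarith)⟩)
  have hA : Prf (fun n => cE (P n) (G n)) M m (fun a n => nV D (cE (P n) (G n)) (x n) (S a n))
      fun k a a' => c (k, a, a') := fun k hk a a' =>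
    cv_cmp (ν := fun a n => nV D (P n) (x n) (S a n)) hM hb (fun a => (kQ a).2.mono
      (Eventually.of_forall fun _ _ _ _ _ u F => u _ (deg_PD F))) rk hk fun ε hε => Whp.of_ev (by
      filter_upwards [G1, G2 (k, a, a') ε hε] with n u v ω hω
      obtain ⟨y, z⟩ := (mem_cE (ex_of_pb ((pb_nonneg _ _).lt_of_ne fun e => by
        rw [← e, mul_zero] at u; linarith)) ω).1 hω
      simpa only [min_eq_left hk] using v ω y z)
  have hb' := fun a => (hb a).mono (Eventually.of_forall fun _ _ _ u => u.2)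
  refine ⟨G, _, G1.mono fun n u => u.trans
    (mul_le_mul_of_nonneg_right (min_le_left _ _) (pb_nonneg _ _)), hb', hA, ?_⟩
  filter_upwards [prof (lv := fun a : ℚ≥0 => (a : ℝ)) rk hM hb' (fun a a' e => (nc_mono hM x
    ((ne a a' (by exact_mod_cast e)).mono fun n u => fn_cE u (G n)) D).mono
      (Eventually.of_forall fun _ _ _ _ _ u F => u _ (deg_PD F))) hA] with s hs s0
  obtain ⟨k, hk⟩ := exists_nat_gt s
  exact hs 0 k (by simpa) (by simpa)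

/-- One basis on almost every slow blow up of a chain of fat minimal cells. -/
theorem c1 (sl : Slow) (h2 : Her2) {Z : ℚ≥0 → ∀ b n, Ω n → β b n} {S : ℚ≥0 → ∀ n, Ω n → Λ n}
    (D : ℕ) (hM : Big M) (su : Sure P M x) (ne : ∀ a a', a ≤ a' → FnE P (S a) (S a'))
    (cm : ∀ a, CM P M x (Z a) (S a)) (fat : ∀ a, Fat P M x (S a)) {L : ℕ → ℝ}
    (hL : Tendsto L UF atTop) : ∃ (m : ℕ) (G : ∀ n, Ω n → Prop),
      (∀ᶠ n in UF, 1 ≤ L n * pb (P n) (G n)) ∧ ∀ᵐ s : ℝ, 0 < s → ∃ la : Fin m → ℝ,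
        ∀ φ σ ε M', Win M s φ σ ε M' → ∃ i0, Big i0 ∧ ∀ i : ℕ → ℕ, Big i →
          (∀ᶠ n in UF, i n ≤ i0 n) → Big (fun n => M' (i n) n) ∧
            N2.Lin (fun n => cE (P n) (G n)) (fun n => M' (i n) n) x
              (fun a n => S (φ (i n) a) n) D la := by
  obtain ⟨G, A, G1, hb', hA, hs⟩ := core (D := D) sl h2 rfl hM su ne cm fat hL
  refine ⟨_, G, G1, hs.mono fun s hs s0 => (hs s0).imp fun la hla φ σ ε M' w => ?_⟩
  obtain ⟨i0, a0, b0⟩ := blow hA hla (fun a : ℚ => (a : ℝ)) φ σ ε M' w.e0 w.e1 w.hσ w.hφ w.hM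
  obtain ⟨i1, a1, b1⟩ := slow (J := ℚ × ℕ) (fun j i n => j.2 ≤ M' i n ∧ pb (cE (P n) (G n))
      (fun ω => ¬Hb (nV D (cE (P n) (G n)) (x n) (S (φ i j.1) n) ω)) ≤ 1 / (j.2 + 1 : ℝ))
    fun j => Eventually.of_forall fun i => (tendsto_atTop.1 (w.big hM i) _).and
      (hb' _ _ (by positivity))
  refine ⟨_, big_min a0 a1, fun i u v => ?_⟩
  have y := b1 i u (v.mono fun _ e => e.trans (min_le_right _ _))
  have z : Big fun n => M' (i n) n := tendsto_atTop.2 fun K => (y (0, K)).mono fun _ e => e.1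
  refine ⟨z, lin rfl z (fun a η hη => ?_) (b0 i u (v.mono fun _ e => e.trans (min_le_left _ _)))⟩
  obtain ⟨j, hj⟩ := exists_nat_one_div_lt hη
  exact (y (a, j)).mono fun _ e => e.2.trans hj.le

end Pool.Agent.MP_5168f5_an.AN.C1
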