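import Pool.Agent.MP_5168f5_an.AN.PAll
import Pool.Agent.MP_5168f5_an.AN.PMul

/-! The inequality of Remez for kinds with polynomial charts. -/

namespace Pool.Agent.MP_5168f5_an.AN.Pk

open H19 H17S H17F Filter MvPolynomial G39

theorem eval_aeval {σ τ : Type} (Ψ : σ → MvPolynomial τ ℝ) (F : MvPolynomial σ ℝ) (p : τ → ℝ) :
    eval p (aeval Ψ F) = eval (fun i => eval p (Ψ i)) F := by
  rw [aeval_eq_bind₁]
  exact eval₂Hom_bind₁ _ _ _ _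

theorem cv_mem {Ω β : Type} {P : FP Ω} {Z : Ω → β} {ω v : Ω} (hω : ω ∈ P.S)
    (hv : v ∈ (cv P Z (Z ω)).S) : v ∈ P.S ∧ Z v = Z ω :=
  (mem_cE (E := fun v => Z v = Z ω) ⟨ω, hω, rfl⟩ v).1 hv

/-- One space: coefficients and values are controlled by a sublevel set of mass at least `k0`. -/
theorem cn_poly (k D E : ℕ) : ∃ C0 : ℝ, 1 ≤ C0 ∧ ∀ {Ω β : Type} {d : ℕ} (P : FP Ω)
    (x : Ω → Fin d → ℝ) (Z : Ω → β) (G : Ω → Prop) (p : Ω → Fin k → ℝ)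
    (Ψ : β → Fin d → MvPolynomial (Fin k) ℝ) (L k0 : ℝ) (j : ℕ), 1 ≤ L → 0 < k0 →
    (∀ ω ∈ P.S, G ω → ‖p ω‖ ≤ L ∧ (∀ i, (Ψ (Z ω) i).totalDegree ≤ D ∧
      x ω i = eval (p ω) (Ψ (Z ω) i)) ∧
      ∀ c, pb (cv P Z (Z ω)) (fun v => G v ∧ flv j (p v) = c) ≤ L / (2 ^ j) ^ k) →
    C0 * L ^ ((k * (k + 1) + 1) * (E * D)) * k0⁻¹ ^ (k * D * E) ≤ 2 ^ j →
    ∀ ω ∈ P.S, G ω → ∀ F : MvPolynomial (Fin d) ℝ, F.totalDegree ≤ E → ∀ θ κ : ℝ, k0 ≤ κ →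
      κ ≤ pb (cv P Z (Z ω)) (fun v => G v ∧ |eval (x v) F| ≤ θ) →
      cn (aeval (Ψ (Z ω)) F) * L ^ (E * D) ≤
        C0 * L ^ ((k * (k + 1) + 1) * (E * D)) * κ⁻¹ ^ (k * D * E) * θ := by
  obtain ⟨C, hC, h⟩ := remD k (E * D)
  refine ⟨C * C ^ (k * (E * D)), one_le_mul_of_one_le_of_one_le hC (one_le_pow₀ hC), ?_⟩
  intro Ω β d P x Z G p Ψ L k0 j hL h0 hG hj ω hω g F hF θ κ a b
  have hκ := h0.trans_le a
  have e : ∀ t : ℝ, C * L ^ (E * D) * (C * L * L ^ k / t) ^ (k * (E * D)) =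
      C * C ^ (k * (E * D)) * L ^ ((k * (k + 1) + 1) * (E * D)) * t⁻¹ ^ (k * D * E) := fun t => by
    rw [div_eq_mul_inv]; simp only [mul_pow, ← pow_mul]; ring
  have hd := kc.deg (Ψ (Z ω)) F E D hF fun i => ((hG ω hω g).2.1 i).1
  have h1 := h (cv P Z (Z ω)) p G (aeval (Ψ (Z ω)) F) L L θ κ j hd hL hL
    (fun v hv gv => (hG v (cv_mem hω hv).1 gv).1) (hG ω hω g).2.2 hκ
    ((e κ).trans_le (le_trans (by gcongr) hj)) (b.trans (pb_mono fun v hv u => ⟨u.1, by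
      rw [eval_aeval, ← (cv_mem hω hv).2,
        ← funext fun i => ((hG v (cv_mem hω hv).1 u.1).2.1 i).2]
      exact u.2⟩))
  rw [← e κ]
  refine (mul_le_mul_of_nonneg_right h1 (by positivity)).trans_eq (by ring)

/-- One space: the inequality of Remez. -/
theorem rg_poly (k D E : ℕ) : ∃ C0 : ℝ, 1 ≤ C0 ∧ ∀ {Ω β : Type} {d : ℕ} (P : FP Ω)
    (x : Ω → Fin d → ℝ) (Z : Ω → β) (G : Ω → Prop) (p : Ω → Fin k → ℝ)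
    (Ψ : β → Fin d → MvPolynomial (Fin k) ℝ) (L k0 : ℝ) (j : ℕ), 1 ≤ L → 0 < k0 →
    (∀ ω ∈ P.S, G ω → ‖p ω‖ ≤ L ∧ (∀ i, (Ψ (Z ω) i).totalDegree ≤ D ∧
      x ω i = eval (p ω) (Ψ (Z ω) i)) ∧
      ∀ c, pb (cv P Z (Z ω)) (fun v => G v ∧ flv j (p v) = c) ≤ L / (2 ^ j) ^ k) →
    C0 * L ^ ((k * (k + 1) + 1) * (E * D)) * k0⁻¹ ^ (k * D * E) ≤ 2 ^ j →
    RG P x Z G E (k * D) (C0 * L ^ ((k * (k + 1) + 1) * (E * D))) k0 := by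
  obtain ⟨C, hC, h⟩ := cn_poly k D E
  refine ⟨C, hC, fun P x Z G p Ψ L k0 j hL h0 hG hj ω hω g f ⟨F, hF, hf⟩ θ κ a b => ?_⟩
  refine le_trans ?_ (h P x Z G p Ψ L k0 j hL h0 hG hj ω hω g F hF θ κ a (by simpa [hf] using b))
  have := kc.val _ _ L (p ω) (kc.deg (Ψ (Z ω)) F E D hF fun i => ((hG ω hω g).2.1 i).1) hL
    fun i => (norm_le_pi_norm (p ω) i).trans (hG ω hω g).1
  rwa [eval_aeval, ← funext fun i => ((hG ω hω g).2.1 i).2, ← hf] at this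

variable {Ω β : ℕ → Type} {d k D : ℕ} {P : ∀ n, FP (Ω n)} {x : ∀ n, Ω n → Fin d → ℝ} {M : ℕ → ℕ}
  {Z : ∀ n, Ω n → β n}

/-- Kinds with a polynomial chart and spread parameters, down to the resolution `exp (-A M)`. -/
def Chart (P : ∀ n, FP (Ω n)) (x : ∀ n, Ω n → Fin d → ℝ) (M : ℕ → ℕ) (Z : ∀ n, Ω n → β n)
    (k D : ℕ) (A : ℝ) : Prop :=
  ∃ (G : ∀ n, Ω n → Prop) (p : ∀ n, Ω n → Fin k → ℝ)
    (Ψ : ∀ n, β n → Fin d → MvPolynomial (Fin k) ℝ) (L : ℕ → ℝ) (j : ℕ → ℕ), Whp P G ∧ Sub M L ∧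
    ∀ᶠ n in UF, (dl M A n)⁻¹ ≤ 2 ^ j n ∧ ∀ ω ∈ (P n).S, G n ω → ‖p n ω‖ ≤ L n ∧
      (∀ i, (Ψ n (Z n ω) i).totalDegree ≤ D ∧ x n ω i = eval (p n ω) (Ψ n (Z n ω) i)) ∧
      ∀ c, pb (cv (P n) (Z n) (Z n ω)) (fun v => G n v ∧ flv (j n) (p n v) = c) ≤
        L n / (2 ^ j n) ^ k

theorem rem_poly (hM : Big M) (h : ∀ A, Chart P x M Z k D A) (K : ℝ) : REM P x M Z (k * D) K := by
  intro E
  obtain ⟨G, p, Ψ, L, j, hG, hL, e⟩ := h (1 + (k * D * E : ℕ) * K)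
  obtain ⟨C, hC, r⟩ := rg_poly k D E
  have s := (hL.pow ((k * (k + 1) + 1) * (E * D))).const_mul hM hC
  refine ⟨G, _, hG, s, ?_⟩
  filter_upwards [e, sub_dl s one_pos] with n a b
  refine r _ _ _ _ _ _ _ _ _ (hL.1 n) (dl_pos _ _ _) a.2 (le_trans ?_ a.1)
  rw [dl_add, mul_inv, ← dl_pow, inv_pow]
  exact mul_le_mul_of_nonneg_right b (inv_pos.2 (pow_pos (dl_pos _ _ _) _)).le

end Pool.Agent.MP_5168f5_an.AN.Pk
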