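import Pool.Agent.MP_5168f5_an.AN.N2Mod
import Pool.Agent.MP_5168f5_an.AN.S20Full
import Pool.Agent.MP_5168f5_an.AN.PRem

/-! The polynomial parametrisation of the pieces. -/

namespace Pool.Agent.MP_5168f5_an.AN.N2

open H19 H17S H17F R4 Filter MvPolynomial Finset
open G39 (dl dl_pos dl_add dl_anti dl_inv)
open Nc (Pl ev)
open Pk (cn kc)
open S20

section One

variable {k : ℕ}

/-- The affine change of the parameter. -/
noncomputable def sh (c : ℝ) (a : V k) : Fin k → Pl k := fun l => C c * (X l - C (a l))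

theorem ev_sh (c : ℝ) (a q : V k) : ev (sh c a) q = c • (q - a) := by
  funext l; simp [ev, sh]

theorem deg_sh (c : ℝ) (a : V k) (l : Fin k) : (sh c a l).totalDegree ≤ 1 :=
  (totalDegree_mul _ _).trans (by
    simpa using (totalDegree_sub _ _).trans (max_le (totalDegree_X l).le (by simp)))

theorem cn_sh {c : ℝ} {a : V k} (hc : |c| ≤ 1) (ha : ‖a‖ ≤ 1) (l : Fin k) : cn (sh c a l) ≤ 2 := by
  have h1 := kc.mul (C c : Pl k) (X l - C (a l))
  have h2 := kc.sub (X l : Pl k) (C (a l))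
  rw [kc.var, kc.const] at h2
  rw [kc.const] at h1
  have h3 : |a l| ≤ 1 := (norm_le_pi_norm a l).trans ha
  exact h1.trans ((mul_le_mul hc (h2.trans (by linarith)) (kc.nonneg _) zero_le_one).trans_eq
    (one_mul 2))

theorem der_sh (c : ℝ) (a : V k) (l : Fin k) (F : Pl k) :
    pderiv l (aeval (sh c a) F) = C c * aeval (sh c a) (pderiv l F) := by
  induction F using MvPolynomial.induction_on with
  | C b => simp
  | add F G u v => simp only [map_add, u, v, mul_add]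
  | mul_X F i u =>
    have : pderiv l (sh c a i) = C c * aeval (sh c a) (pderiv l (X i : Pl k)) := by
      by_cases e : i = l
      · simp [sh, e]
      · simp [sh, pderiv_X_of_ne e]
    simp only [map_mul, aeval_X, Derivation.leibniz, smul_eq_mul, map_add, u, this]
    ring

theorem big_entry {m : ℕ} (hm : 0 < m) (A : Matrix (Fin m) (Fin m) ℝ) {Γ : ℝ} (hΓ : 1 ≤ Γ)
    (h : Γ⁻¹ ≤ |A.det|) : ∃ a b, 1 ≤ 2 * m.factorial * Γ * |A a b| := by
  by_contra k
  push Not at k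
  have f : (1 : ℝ) ≤ m.factorial := by exact_mod_cast m.factorial_pos
  have p : 0 < 2 * m.factorial * Γ := by positivity
  have h1 := Matrix.det_le (A := A) (abv := AbsoluteValue.abs) (x := (2 * m.factorial * Γ)⁻¹)
    fun a b => by
      rw [← one_div, le_div_iff₀' p]; exact (k a b).le
  rw [Fintype.card_fin, nsmul_eq_mul] at h1
  have h2 := h.trans (h1.trans (mul_le_mul_of_nonneg_left (pow_le_of_le_one (by positivity)
    (inv_le_one_of_one_le₀ (by nlinarith)) hm.ne') (by positivity)))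
  rw [← div_eq_mul_inv, le_div_iff₀ p, inv_mul_le_iff₀ (by linarith)] at h2
  nlinarith

end One

variable {N k : ℕ} {Ω : ℕ → Type} {P : ∀ n, FP (Ω n)} {M t : ℕ → ℕ} {κ : ∀ n, Kd k (Ω n)}

/-- The zoomed parameter is full given the piece. -/
theorem full_zm (hM : Big M) (bd : Bdd P M fun n => (κ n).p) (few : AN.Few P M 0 fun n => (κ n).W)
    {j : ℕ → ℕ} (h : FullAt P M (fun n => (κ n).p) (fun n => (κ n).Z) fun n => t n + j n) :
    FullAt P M (fun n ω => fr (t n) ((κ n).p ω)) (fun n => (κ n).pc (t n)) j := by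
  have h1 := ((fullAt_iff hM).1 h).side hM (fs_pair (fun _ => zero_le_one) (fun _ => by positivity)
    (fs_idx0 hM few _) (fs_bdd hM bd _ t)) (fnE_const _)
  refine (fullAt_iff hM).2 ((h1.fine (Eventually.of_forall fun n a _ b _ e => ?_)
    (Eventually.of_forall fun n a _ b _ e => ?_) (Eventually.of_forall fun n a _ b _ e => ?_)).le
      (Eventually.of_forall fun n _ _ => le_of_eq ?_))
  · simp only [Kd.pc, Prod.mk.injEq] at e ⊢
    exact ⟨e.2, e.1⟩
  · simp only [Kd.pc, Prod.mk.injEq] at e ⊢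
    exact ⟨e.2, e.1⟩
  · simp only [Kd.pc, Prod.mk.injEq, fl_fr] at e
    funext i
    have := congrFun e.1 i
    rw [e.2.2.2] at this
    exact sub_left_injective this
  · simp only [cvol, pow_add, mul_pow]
    field_simp

theorem exPar : ExPar := by
  classical
  intro E B s K hs
  obtain ⟨j, hj⟩ := exists_nat_ge ((max K 0 + B + 1) / (s * lg))
  have hl := lg_pos
  rw [div_le_iff₀ (by positivity)] at hj
  refine ⟨j + 1, fun N k C₀ m Ω Λ P M x κ t A T hM bx kd ht hA fat => ?_⟩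
  obtain ⟨G, Γ, hG, hΓ, wh⟩ := kd.wh j
  have e0 : ∀ n, ∃ τ : Ω n → Fin N → Pl k, (∀ ω i, (τ ω i).totalDegree ≤ j + 1) ∧
      ((κ n).Wh (P n) (x n) m j (G n) (Γ n) → ∀ ω ∈ (P n).S, G n ω → (∀ i, cn (τ ω i) ≤ Γ n) ∧
        (∃ (r : Fin m → Fin N) (c : Fin m → Fin k), (Γ n)⁻¹ ≤
          |(Matrix.of fun a b => coeff (Finsupp.single (c b) 1) (τ ω (r a))).det|) ∧
        ∀ v ∈ (P n).S, G n v → (κ n).Z v = (κ n).Z ω → (κ n).W v = (κ n).W ω →
          ‖x n v - ev (τ ω) ((κ n).p v - (κ n).p ω)‖ ≤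
            Γ n * ‖(κ n).p v - (κ n).p ω‖ ^ (j + 2)) := fun n => by
    by_cases c : (κ n).Wh (P n) (x n) m j (G n) (Γ n)
    · obtain ⟨τ, h⟩ := c
      refine ⟨fun ω => if ω ∈ (P n).S ∧ G n ω then τ ω else 0, fun ω i => ?_, fun _ ω a b => ?_⟩
      · beta_reduce
        split_ifs with e
        exacts [((h ω e.1 e.2).1 i).1, by simp]
      · simp only [if_pos (And.intro a b)]
        exact ⟨fun i => ((h ω a b).1 i).2, (h ω a b).2⟩
    · exact ⟨0, by simp, fun d => absurd d c⟩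
  choose τ0 d0 h0 using e0
  set r : ∀ n, Ω n → Ω n := fun n => rep (P n) ((κ n).pc (t n)) (G n) with hr
  set τ : ∀ n, Ω n → Fin N → Pl k := fun n ω i =>
    aeval (sh (2 ^ t n)⁻¹ (fr (t n) ((κ n).p (r n ω)))) (τ0 n (r n ω) i) with hτ
  have fn : ∀ n a b, (κ n).pc (t n) a = (κ n).pc (t n) b → τ n a = τ n b := fun n a b e => by
    simp only [hτ, hr, rep_congr e]
  have dg : ∀ n ω i, (τ n ω i).totalDegree ≤ j + 1 := fun n ω i =>
    (kc.deg _ _ _ 1 (d0 n _ i) (deg_sh _ _)).trans_eq (mul_one _)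
  have c0 : ∀ n, (0 : ℝ) < (2 ^ t n)⁻¹ := fun n => by positivity
  have c1 : ∀ᶠ n in UF, ((2 : ℝ) ^ t n)⁻¹ ≤ dl M (s * lg) n := ht.mono fun n a => by
    rw [two_pow_eq, ← Real.exp_neg]
    exact Real.exp_le_exp.2 (neg_le_neg (by nlinarith [a.1]))
  have box : ∀ n (ω : Ω n), ‖fr (t n) ((κ n).p ω)‖ ≤ 1 := fun n ω =>
    norm_le_one_of_box (fr_box _ _)
  obtain ⟨Γx, sx, hx⟩ := gp_iff.1 bx
  have err : Whp P fun n ω => ∀ F : Pl N, F.totalDegree ≤ E →
      |eval (x n ω) F - eval (fr (t n) ((κ n).p ω)) (aeval (τ n ω) F)| ≤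
        dl M (max K 0) n * nc (P n) (x n) (A n) ω F := by
    refine ((hG.and hx).and fat).mono ?_
    filter_upwards [wh, c1, small hM (((sx.add hΓ hM).pow E).mul hΓ) E 1 one_pos]
      with n w c sm ω hω ⟨⟨g, b⟩, f⟩ F hF
    obtain ⟨r1, r2, r3⟩ := rep_spec (A := (κ n).pc (t n)) hω g
    simp only [Kd.pc, Prod.mk.injEq] at r3
    have h1 := (h0 n w _ r1 r2).2.2 ω hω g r3.1.symm r3.2.1.symm
    have e1 : ((2 : ℝ) ^ t n)⁻¹ • (fr (t n) ((κ n).p ω) - fr (t n) ((κ n).p (r n ω))) =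
        (κ n).p ω - (κ n).p (r n ω) := by
      rw [fr_eq, fr_eq, r3.2.2, sub_sub_sub_cancel_right, ← smul_sub, smul_smul,
        inv_mul_cancel₀ (by positivity), one_smul]
    have e2 : ev (τ n ω) (fr (t n) ((κ n).p ω)) =
        ev (τ0 n (r n ω)) ((κ n).p ω - (κ n).p (r n ω)) := funext fun i => by
      simp only [hτ, ev]; rw [Nc.eval_aeval, ev_sh, e1]
    have h2 : ‖(κ n).p ω - (κ n).p (r n ω)‖ ≤ (2 ^ t n)⁻¹ := by
      rw [← e1, norm_smul, Real.norm_eq_abs, abs_of_pos (c0 n)]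
      exact mul_le_of_le_one_right (c0 n).le (norm_sub_lt_one_of_box (fr_box _ _) (fr_box _ _)).le
    have g0 := hΓ.pos n
    have h3 : ‖(κ n).p ω - (κ n).p (r n ω)‖ ^ (j + 2) ≤ dl M (max K 0 + B + 1) n :=
      (pow_le_pow_left₀ (norm_nonneg _) (h2.trans c) _).trans ((G39.dl_pow _ _ _ _).trans_le
        (dl_anti M (by push_cast; nlinarith [mul_pos hs hl]) n))
    have h4 := h1.trans (mul_le_of_le_one_right g0.le (pow_le_one₀ (norm_nonneg _)
      (h2.trans (two_pow_inv_le _))))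
    have h5 := h1.trans (mul_le_mul_of_nonneg_left h3 g0.le)
    have h6 := kc.lip F E (Γx n + Γ n) _ (x n ω) _ hF (by linarith [sx.1 n])
      ((norm_nonneg _).trans h5) fun i => ⟨((norm_le_pi_norm _ i).trans b).trans (by linarith),
        (norm_le_pi_norm _ i).trans ((norm_le_norm_add_norm_sub' _ (x n ω)).trans
          (add_le_add b ((norm_sub_rev _ _).trans_le h4))), (norm_le_pi_norm _ i).trans h5⟩
    rw [Nc.eval_aeval, e2]
    refine h6.trans (le_trans ?_ (mul_le_mul_of_nonneg_left (f F hF) (dl_pos _ _ _).le))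
    rw [dl_add, dl_add]
    have := mul_nonneg (mul_pos (dl_pos M (max K 0) n) (dl_pos M B n)).le (kc.nonneg F)
    nlinarith [mul_le_mul_of_nonneg_right sm.le this]
  refine ⟨τ, ⟨Eventually.of_forall fun n a _ b _ => fn n a b, dg, ?_, err.mono
    (Eventually.of_forall fun n ω _ h F hF => (h F hF).trans (mul_le_mul_of_nonneg_right
      (dl_anti M (le_max_left _ _) n) ((sn_nc _ _ _ ω).nn F)))⟩, fun hm => ?_⟩
  · obtain ⟨Gd, Γd, hd, sd, de⟩ := full_zm (t := t) (j := M) hM kd.bd kd.few (full_at hM kd.den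
      (K := T + 1) (ht.mono fun n a => by rw [add_mul, one_mul]; exact Nat.add_le_add_right a.2 _))
    obtain ⟨Γc, sc, hc⟩ := gp_iff.1 (gp_cheb P x hM A E)
    obtain ⟨C, hC, rem⟩ := Pk.remD k (E * (j + 1))
    have s1 := (((sd.const_mul hM hC).const_mul hM one_le_two).pow (k * (E * (j + 1)))).const_mul
      hM hC
    refine gp_iff.2 ⟨_, s1.mul (sc.add (hM.sub le_rfl) hM),
      (whp_half (hd.and (hc.and err)) fun n => (κ n).pc (t n)).mono ?_⟩
    filter_upwards [de, hA, s1.2 _ hl] with n d a b ω hω h F hF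
    have e : C * Γd n * 1 ^ k / (1 / 2) = 2 * (C * Γd n) := by ring
    have := rem (cv (P n) ((κ n).pc (t n)) ((κ n).pc (t n) ω)) (fun v => fr (t n) ((κ n).p v))
      (Gd n) (aeval (τ n ω) F) 1 (Γd n) ((Γc n + 1) * nc (P n) (x n) (A n) ω F) (1 / 2) (M n)
      (kc.deg _ _ _ _ hF (dg n ω)) le_rfl (sd.1 n) (fun v _ _ => box n v) (d ω hω) one_half_pos
      (by rw [e, one_pow, mul_one, two_pow_eq, mul_comm _ lg]; exact b)
      (h.trans (pb_mono fun v hv u => ⟨u.1, ?_⟩))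
    · rwa [e, ← mul_assoc] at this
    · obtain ⟨v1, v2⟩ := Pk.cv_mem hω hv
      have h1 := u.2.1 F hF
      have h2 := u.2.2 F hF
      rw [nc_congr _ _ _ (a v v1 ω hω v2)] at h1 h2
      rw [fn n v ω v2] at h2
      have h3 := mul_le_of_le_one_left ((sn_nc (P n) (x n) (A n) ω).nn F)
        ((dl_anti M (le_max_right K 0) n).trans_eq (dl_zero M n))
      have h4 := abs_sub_abs_le_abs_sub (eval (fr (t n) ((κ n).p v)) (aeval (τ n ω) F))
        (eval (x n v) F)
      rw [abs_sub_comm] at h4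
      linarith
  · have f1 : (1 : ℝ) ≤ m.factorial := by exact_mod_cast m.factorial_pos
    refine gp_iff.2 ⟨_, hΓ.const_mul hM (C := 4 * m.factorial) (by linarith), hG.mono ?_⟩
    filter_upwards [wh, c1, small hM hΓ (8 * m.factorial * ((j + 1 : ℕ) * (j + 1 : ℕ) *
      2 ^ (j + 1))) 2 (mul_pos hs hl)] with n w c sm ω hω g
    obtain ⟨r1, r2, -⟩ := rep_spec (A := (κ n).pc (t n)) hω g
    obtain ⟨b, ⟨ρ, γ, h1⟩, -⟩ := h0 n w _ r1 r2
    obtain ⟨u, v, h2⟩ := big_entry hm _ (hΓ.1 n) h1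
    refine ⟨ρ u, γ v, fun q hq => ?_⟩
    have h3 := kc.der (τ0 n (r n ω) (ρ u)) (j + 1) (γ v) (d0 n _ _)
    have h4 : ‖q - fr (t n) ((κ n).p (r n ω))‖ ≤ 2 := (norm_sub_le _ _).trans (by
      linarith [box n (r n ω)])
    have h5 : ‖((2 : ℝ) ^ t n)⁻¹ • (q - fr (t n) ((κ n).p (r n ω)))‖ ≤ (2 ^ t n)⁻¹ * 2 := by
      rw [norm_smul, Real.norm_eq_abs, abs_of_pos (c0 n)]
      exact mul_le_mul_of_nonneg_left h4 (c0 n).le
    have h6 := kc.lip _ (j + 1) 2 ((2 ^ t n)⁻¹ * 2)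
      (((2 : ℝ) ^ t n)⁻¹ • (q - fr (t n) ((κ n).p (r n ω)))) 0 (h3.2.trans (Nat.sub_le _ _))
      one_le_two (by positivity) fun i => ⟨((norm_le_pi_norm _ i).trans h5).trans (by
        linarith [two_pow_inv_le (t n)]), by simp, by simpa using (norm_le_pi_norm _ i).trans h5⟩
    rw [MvPolynomial.eval_zero, constantCoeff_eq, coeff_pderiv] at h6
    simp only [zero_add, Finsupp.coe_zero, Pi.zero_apply, Nat.cast_zero, mul_one] at h6
    simp only [hτ, der_sh, map_mul, eval_C, abs_mul, abs_of_pos (c0 n), Nc.eval_aeval, ev_sh]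
    rw [mul_inv_cancel_left₀ (by positivity)]
    rw [Matrix.of_apply] at h2
    have g0 := hΓ.pos n
    have h7 : ((j + 1 : ℕ) : ℝ) * cn (pderiv (γ v) (τ0 n (r n ω) (ρ u))) * 2 ^ (j + 1) *
        ((2 ^ t n)⁻¹ * 2) ≤ (j + 1 : ℕ) * ((j + 1 : ℕ) * Γ n) * 2 ^ (j + 1) *
          (dl M (s * lg) n * 2) := by
      gcongr
      exact h3.1.trans (by gcongr; exact b _)
    have h8 := abs_sub_abs_le_abs_sub (coeff (Finsupp.single (γ v) 1) (τ0 n (r n ω) (ρ u)))
      (eval (((2 : ℝ) ^ t n)⁻¹ • (q - fr (t n) ((κ n).p (r n ω))))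
        (pderiv (γ v) (τ0 n (r n ω) (ρ u))))
    rw [abs_sub_comm] at h8
    have h9 := mul_le_mul_of_nonneg_left (h8.trans (h6.trans h7))
      (show 0 ≤ 4 * m.factorial * Γ n by positivity)
    nlinarith

end Pool.Agent.MP_5168f5_an.AN.N2
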