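import Pool.Agent.MP_5168f5_an.AN.LWin
import Pool.Agent.MP_5168f5_an.AN.C1Z
import Pool.Agent.MP_5168f5_an.AN.GCel2
import Pool.Agent.MP_5168f5_an.AN.GRC
import Pool.Agent.MP_5168f5_an.AN.GHer2
import Pool.Agent.MP_5168f5_an.AN.GFullApi
import Pool.Agent.MP_5168f5_an.AN.N2Par

/-! Kakeya sets in all dimensions: the blow up of the global chain. -/

namespace Pool.Agent.MP_5168f5_an.AN.LC

open H19 H17S H17F R4 Filter MvPolynomial
open G39 (dl REM)
open Pk (cn)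
open Nc (Pl ev)
open N2 (Par Lng)

/-- A property of all slowly growing sequences. -/
def Sl (K : (ℕ → ℕ) → Prop) : Prop :=
  ∃ i0, Big i0 ∧ ∀ i : ℕ → ℕ, Big i → (∀ᶠ n in UF, i n ≤ i0 n) → K i

theorem Sl.and {K K' : (ℕ → ℕ) → Prop} (h : Sl K) (h' : Sl K') : Sl fun i => K i ∧ K' i :=
  let ⟨_, a, b⟩ := h
  let ⟨_, a', b'⟩ := h'
  ⟨_, C1.big_min a a', fun i u v => ⟨b i u (v.mono fun _ e => e.trans (min_le_left _ _)),
    b' i u (v.mono fun _ e => e.trans (min_le_right _ _))⟩⟩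

theorem Sl.ex {K : (ℕ → ℕ) → Prop} (h : Sl K) : ∃ i, K i :=
  let ⟨i, a, b⟩ := h
  ⟨i, b i a (Eventually.of_forall fun _ => le_rfl)⟩

theorem cf_sl {J : Type} [Countable J] {K : J → (ℕ → ℕ) → Prop}
    (h : ∀ j, CF (S := fun _ => ℕ) (K j)) (e : ∀ j, ∀ᶠ i in atTop, K j fun _ => i) :
    Sl fun i => ∀ j, K j i := by
  choose p hp using h
  obtain ⟨i0, a, b⟩ := C1.slow (J := J × ℕ) (fun j i n => p j.1 j.2 n i)
    fun j => (e j.1).mono fun i u => (hp _ _).1 u j.2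
  exact ⟨i0, a, fun i u v j => (hp j i).2 fun l => b i u v (j, l)⟩

variable {M : ℕ → ℕ} {σ : ℝ} {φ : ℕ → ℚ → ℚ≥0} {u ε : ℕ → ℝ} {M' : ℕ → ℕ → ℕ}

theorem near (w : C1.Win M σ φ u ε M') (a : ℚ) :
    ∀ᶠ i in atTop, |(φ i a : ℝ) - σ| ≤ (1 + |(a : ℝ)|) * ε i := (w.hφ a).mono fun i e => by
  rw [e, add_sub_right_comm, add_mul, one_mul]
  refine (abs_add_le _ _).trans (add_le_add (w.hσ i) ?_)
  rw [abs_mul, abs_of_pos (w.e0 i), mul_comm]

theorem tend (w : C1.Win M σ φ u ε M') (a : ℚ) :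
    Tendsto (fun i => (φ i a : ℝ)) atTop (nhds σ) := by
  rw [tendsto_iff_norm_sub_tendsto_zero]
  exact squeeze_zero' (Eventually.of_forall fun _ => norm_nonneg _) (near w a)
    (by simpa using w.e1.const_mul (1 + |(a : ℝ)|))

theorem der (w : C1.Win M σ φ u ε M') {f : ℝ → ℝ} (h : DifferentiableAt ℝ f σ) (a a' : ℚ) {η : ℝ}
    (hη : 0 < η) : ∀ᶠ i in atTop,
      |f (φ i a') - f (φ i a) - deriv f σ * (ε i * (a' - a))| ≤ η * ε i := by
  have k : ∀ a : ℚ, ∀ᶠ i in atTop,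
      |f (φ i a) - f σ - ((φ i a : ℝ) - σ) * deriv f σ| ≤ η / 2 * ε i := fun a => by
    have p : 0 < 1 + |(a : ℝ)| := by positivity
    filter_upwards [(tend w a).eventually (Asymptotics.isLittleO_iff.1 h.hasDerivAt.isLittleO
      (c := η / 2 / (1 + |(a : ℝ)|)) (by positivity)), near w a] with i e e'
    refine le_trans e ((mul_le_mul_of_nonneg_left e' (by positivity)).trans_eq ?_)
    field_simp
  filter_upwards [k a, k a', w.hφ a, w.hφ a'] with i e e' y y'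
  rw [abs_le] at e e' ⊢
  have : deriv f σ * (ε i * (a' - a)) =
      ((φ i a' : ℝ) - σ) * deriv f σ - ((φ i a : ℝ) - σ) * deriv f σ := by rw [y, y']; ring
  constructor <;> linarith [e.1, e.2, e'.1, e'.2]

variable {N m : ℕ} {Ω Λ : ℕ → Type} {k ml : Bool → ℕ} {P : ∀ n, FP (Ω n)} {x : ∀ n, Ω n → V N}
  {s : ∀ n, Sy k (Ω n)} {C D : ℕ} {S : ℚ≥0 → ∀ n, Ω n → Λ n} {Θ : ℚ≥0 → ∀ n, Ω n → Fin N → Pl N}
  {U H : ℝ → ℝ} {a₀ b τ : ℝ}

theorem hv_le {y : ∀ n, Ω n → V N} {A : ∀ n, Ω n → Λ n} {j M₁ : ℕ → ℕ} {v v' : ℕ → ℝ}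
    (h : Heavy P M y A j v) (c : Cmp M M₁) (e : ∀ n, v' n ≤ v n) : Heavy P M₁ y A j v' :=
  Gp.unit (Gp.mono h (Eventually.of_forall fun n _ _ _ _ => le_trans
    (div_le_div_of_nonneg_right (Real.exp_le_exp.2 (e n)) (by positivity)))) c

/-- The parametrisations of all levels of an interval have one degree. -/
theorem pars (gc : GC P M x s C ml S Θ D U H a₀ b τ) (b' : ℚ≥0) (hb : (b' : ℝ) ≤ 1) (E : ℕ) :
    ∃ J : ℕ, ∀ (q : ℚ≥0) (c : Bool), ∃ τ' : ∀ n, Ω n → Fin N → Pl (k c),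
      (∀ n ω i, (τ' n ω i).totalDegree ≤ J) ∧ (a₀ ≤ q → q ≤ b' →
        Par P M x (fun n => s n c) (lev M q) (S q) τ' E J 1 ∧
          (0 < ml c → Lng P M (lev M q) τ')) := by
  have hM := gc.sys.big
  obtain ⟨B, hB⟩ := gc.fat b' E
  obtain ⟨J, hJ⟩ := N2.exPar E (B + 1) (a₀ / 2) 1 (half_pos gc.pos.1)
  refine ⟨J, fun q c => ?_⟩
  by_cases e : a₀ ≤ q ∧ q ≤ b'
  · obtain ⟨τ', h⟩ := hJ N (k c) C (ml c) Ω Λ P M x (fun n => s n c) (lev M q) (S q) 1 hM gc.sys.bd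
      (gc.sys.kd c) (((lev_eqv hM (NNRat.cast_nonneg (α := ℝ) q)).2 _ (half_pos gc.pos.1)).mono fun n y => ⟨by
        nlinarith [Nat.cast_nonneg (α := ℝ) (M n), e.1], by
        rw [one_mul]; exact lev_le M (le_trans (by exact_mod_cast e.2) hb) n⟩)
      ((gc.chn.cel q).cm.com c) ((hB.and (C1.wp_gp (C1.nc_mono hM x (gc.chn.nest _ _ e.2) E)
        (fun n ω Γ Γ' _ y z F hF => (z F hF).trans
          (mul_le_mul_of_nonneg_right y (C1.nc_nn _ _ _ _ _))) one_pos)).mono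
        (Eventually.of_forall fun n ω _ y F hF => by
          have := (y.1 F hF).trans (y.2 F hF)
          rw [← G39.dl_inv, le_inv_mul_iff₀ (G39.dl_pos _ _ _)] at this
          rwa [add_comm, G39.dl_add, mul_assoc]))
    exact ⟨τ', h.1.deg, fun _ _ => h⟩
  · exact ⟨0, by simp, fun y z => absurd ⟨y, z⟩ e⟩

theorem sysq (ko : KOp) (gc : GC P M x s C ml S Θ D U H a₀ b τ) (q : ℚ≥0) :
    ∃ W : Bool → ∀ n, Ω n → ℕ, Sys P M (chs (Θ q) x)
      (fun n c => ((s n c).zm (lev M q n)).setW (W c n)) (C * D) ml := by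
  have hM := gc.sys.big
  have ce := gc.chn.cel q
  choose W hW using fun c => (rc cel1).long hM (ko.zm hM (gc.sys.kd c) (lin_lev M q)
    (gc.ra c _ (lin_lev M q))) (lin_lev M q) ce (ce.cm.com c)
    (cel1.pw hM ce.cm ce.frm (gc.fat q)) (cel2.ball gc.sys ce.cm)
  exact ⟨W, hM, ce.frm.bd, hW⟩

/-- The blow up. -/
theorem win (ko : KOp) (gc : GC P M x s C ml S Θ D U H a₀ b τ) (hσ : σ ∈ Set.Ioo a₀ b)
    (dU : DifferentiableAt ℝ U σ) (dH : DifferentiableAt ℝ H σ) (lt : deriv H σ < deriv U σ)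
    {la : Fin m → ℝ} (li : ∀ φ u ε M', C1.Win M σ φ u ε M' → Sl fun i =>
      Big (fun n => M' (i n) n) ∧
        N2.Lin P (fun n => M' (i n) n) x (fun a n => S (φ (i n) a) n) D la) :
    ∃ (M' : ℕ → ℕ) (C' : ℕ) (t : ℚ → ℕ → ℕ) (S' : ℚ → ∀ n, Ω n → Λ n)
      (Θ' : ℚ → ∀ n, Ω n → Fin N → Pl N) (W : ℚ → Bool → ∀ n, Ω n → ℕ)
      (τ' : ℕ → ℚ → ∀ b n, Ω n → Fin N → Pl (k b)) (J : ℕ → ℕ) (c : ℝ),
      Win P M' x s C C' ml t S' Θ' W τ' J D la c := by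
  have hM := gc.sys.big
  have hl := lg_pos
  obtain ⟨φ, u, mo, w⟩ := C1.ex_win hM (gc.pos.1.trans hσ.1)
  obtain ⟨b', b1, b2⟩ : ∃ b' : ℚ≥0, σ < b' ∧ (b' : ℝ) < b := by
    obtain ⟨r, r1, r2⟩ := exists_rat_btwn hσ.2
    have r0 : (0 : ℝ) ≤ r := ((gc.pos.1.trans hσ.1).trans r1).le
    exact ⟨⟨r, by exact_mod_cast r0⟩, r1, r2⟩
  choose J τ' dg pa using pars gc b' (b2.le.trans gc.pos.2.2)
  choose W sy using sysq ko gc
  obtain ⟨r, r0, r1⟩ := exists_rat_btwn (show 0 < lg / (4 * (|deriv U σ| + 1)) by positivity)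
  rw [lt_div_iff₀ (by positivity)] at r1
  set ε : ℕ → ℝ := fun i => 1 / (i + 1 : ℝ) with hε
  set m' : ℕ → ℕ → ℕ := fun n i => lev M (ε i) n with hm'
  set c := (deriv U σ - deriv H σ) * r / 2 with hc
  have c0 : 0 < c := half_pos (mul_pos (sub_pos.2 lt) r0)
  have cp : ∀ i, Cmp M fun n => m' n i := fun i => cmp_of hM (w.e0 i) (w.hM i)
  have iv : ∀ a, ∀ᶠ i in atTop, a₀ ≤ φ i a ∧ φ i a ≤ b' := fun a =>
    (((tend w a).eventually_const_le hσ.1).and ((tend w a).eventually_le_const b1)).mono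
      fun i e => ⟨e.1, by exact_mod_cast e.2⟩
  have s1 := cf_sl (J := ℚ) (fun a => (cf_sys (fun n _ => P n) m' (fun n _ => x n)
      (fun n _ => s n) C ml).and ((cf_cel (β := fun c n _ => (s n c).T × ℕ × Z (k c))
      (fun n _ => P n) m' (fun n _ => x n) (fun c n i => (s n c).pc (lev M (φ i a) n))
      (fun n i => S (φ i a) n) (fun n i => Θ (φ i a) n) D
        fun n i => (gc.chn.cel (φ i a)).frm.deg n).and ((cf_nz (fun n _ => P n) (fun n _ => x n)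
      fun n i => S (φ i a) n).and ((cf_all fun c : Bool => cf_rem (fun n _ => P n) m'
      (fun n _ => x n) (fun n i => (s n c).pc (lev M (φ i a) n)) C).and
      (cf_sys (fun n _ => P n) m' (fun n i => cht (Θ (φ i a) n) (x n))
        (fun n i c => ((s n c).zm (lev M (φ i a) n)).setW (W (φ i a) c n)) (C * D) ml)))))
    fun a => Eventually.of_forall fun i => ⟨gc.sys.unit (cp i), (gc.chn.cel _).unit (cp i),
      (gc.fat _).nz, fun c => rem_unit (gc.ra c _ (lin_lev M _)) (cp i), (sy _).unit (cp i)⟩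
  have s2 := cf_sl (J := {p : ℚ × ℚ // p.1 ≤ p.2}) (fun p => cf_fnE (fun n _ => P n)
      (fun n i => S (φ i p.1.1) n) fun n i => S (φ i p.1.2) n)
    fun p => Eventually.of_forall fun i => gc.chn.nest _ _ (mo i p.2)
  have s3 := cf_sl (J := ℚ) (fun a => (cf_le m'
      (fun n i => (lev M (φ i a) n : ℝ) - lev M (φ i 0) n) fun n i => (a : ℝ) * m' n i).and
      (cf_le m' (fun n i => (a : ℝ) * m' n i)
        fun n i => (lev M (φ i a) n : ℝ) - lev M (φ i 0) n)) fun a => by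
    filter_upwards [w.hφ a, w.hφ 0] with i e e'
    have key : ∀ n, |(lev M (φ i a) n : ℝ) - lev M (φ i 0) n - a * m' n i| ≤ 1 + |(a : ℝ)| :=
      fun n => by
      have h1 := lev_le' M (NNRat.cast_nonneg (α := ℝ) (φ i a)) n
      have h2 := lev_le' M (NNRat.cast_nonneg (α := ℝ) (φ i 0)) n
      have h3 := lt_lev M (φ i a) n
      have h4 := lt_lev M (φ i 0) n
      have h5 : |(a : ℝ) * (ε i * M n - m' n i)| ≤ |(a : ℝ)| := by
        rw [abs_mul]
        exact mul_le_of_le_one_right (abs_nonneg _) (abs_le.2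
          ⟨by linarith [lev_le' M (w.e0 i).le n], by linarith [lt_lev M (ε i) n]⟩)
      rw [abs_le] at h5 ⊢
      have h6 : (φ i a : ℝ) * M n = φ i 0 * M n + a * (ε i * M n) := by
        rw [e, e']; push_cast; ring
      constructor <;> nlinarith [h5.1, h5.2]
    constructor <;> exact ((w.big hM i).sm (1 + |(a : ℝ)|)).of_sub
      (Eventually.of_forall fun n => by linarith [abs_le.1 (key n)])
  have s4 := cf_sl (J := ℚ × ℚ≥0) (fun p => cf_heavy (fun n _ => P n) m'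
      (fun n i => cht (Θ (φ i p.1) n) (x n)) (fun n i => S (φ i p.1) n)
      (fun n i => ⌊(p.2 : ℝ) * m' n i⌋₊) fun n i => c * p.2 * m' n i) fun ⟨a, g⟩ => by
    rcases eq_or_lt_of_le (NNRat.cast_nonneg (α := ℝ) g) with g0 | g0
    · exact Eventually.of_forall fun i => hv_le (fullApi.box _ _ hM (gc.chn.cel _).frm.bd) (cp i)
        fun n => by simp only [← g0, mul_zero, zero_mul, le_refl]
    have η0 : 0 < min (c * g) (g * lg / 4) := by positivity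
    filter_upwards [iv a, iv (a + g * r), der w dU a (a + g * r) η0, der w (dU.sub dH) a (a + g * r) η0,
      (w.e1.const_mul (g / 2 : ℝ)).eventually_le_const (by simpa using gc.pos.2.1)] with i v v' d d' y
    have e0 : 0 < ε i := w.e0 i
    have gi : ((g / 2 * (1 / (i + 1)) : ℚ≥0) : ℝ) = g / 2 * ε i := by simp [hε]
    rw [deriv_sub dU dH] at d'
    push_cast at d d'
    simp only [add_sub_cancel_left, Pi.sub_apply] at d d'
    have m1 := mul_le_mul_of_nonneg_right (min_le_left (c * g) (g * lg / 4)) e0.le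
    have m2 := mul_le_mul_of_nonneg_right (min_le_right (c * g) (g * lg / 4)) e0.le
    have hv := gc.hv (φ i a) (φ i (a + g * r)) (g / 2 * (1 / (i + 1))) v.1
      (mo i (le_add_of_nonneg_right (mul_nonneg g.2 (by exact_mod_cast r0.le))))
      (le_trans (by exact_mod_cast v'.2) b2.le) (gi.trans_le y) (by
        have h1 : deriv U σ * r ≤ lg / 4 := by nlinarith [le_abs_self (deriv U σ)]
        have h2 := mul_le_mul_of_nonneg_left h1 (mul_pos e0 g0).le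
        rw [gi]
        nlinarith [(abs_le.1 d).2])
    refine hv_le (fullApi.fine hM ?_ hv) (cp i) fun n => ?_
    · filter_upwards [hM.ev (2 / ε i)] with n z
      rw [div_le_iff₀ e0] at z
      refine Nat.floor_mono ?_
      rw [gi]
      nlinarith [lt_lev M (ε i) n]
    · refine (mul_le_mul_of_nonneg_left (lev_le' M e0.le n) (by positivity)).trans ?_
      rw [← mul_assoc]
      refine mul_le_mul_of_nonneg_right ?_ (Nat.cast_nonneg _)
      have h1 : (deriv U σ - deriv H σ) * (ε i * (g * r)) = 2 * (c * g * ε i) := by rw [hc]; ring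
      linarith [(abs_le.1 d').1]
  have s5 := cf_sl (J := ℕ × ℚ × Bool × ℕ) (fun p => (cf_fnE (fun n _ => P n)
      (fun n i => τ' p.1 (φ i p.2.1) p.2.2.1 n)
      fun n i => (s n p.2.2.1).pc (lev M (φ i p.2.1) n)).and ((cf_gp (fun n _ => P n) m'
      fun n i ω Γ => ∀ F : Pl N, F.totalDegree ≤ p.1 → cn (aeval (τ' p.1 (φ i p.2.1) p.2.2.1 n ω) F) ≤
        Γ * nc (P n) (x n) (S (φ i p.2.1) n) ω F).and ((cf_whp (fun n _ => P n)
      fun n i ω => ∀ F : Pl N, F.totalDegree ≤ p.1 → |eval (x n ω) F -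
        eval (fr (lev M (φ i p.2.1) n) ((s n p.2.2.1).p ω))
          (aeval (τ' p.1 (φ i p.2.1) p.2.2.1 n ω) F)| ≤ Real.exp (-((p.2.2.2 : ℝ) * m' n i)) *
            nc (P n) (x n) (S (φ i p.2.1) n) ω F).and (cf_gp (fun n _ => P n) m'
      fun n i ω Γ => ∃ j l, ∀ q : V (k true), ‖q‖ ≤ 1 → 1 ≤ Γ * (2 ^ lev M (φ i p.2.1) n *
        |eval q (pderiv l (τ' p.1 (φ i p.2.1) true n ω j))|))))) fun ⟨E, a, c, K⟩ => by
    filter_upwards [iv a, (w.e1.const_mul (K : ℝ)).eventually_le_const (by simpa using one_pos)]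
      with i v y
    have h := (pa E (φ i a) c v.1 v.2).1
    refine ⟨h.fn, h.bd.unit (cp i), h.err.mono (Eventually.of_forall fun n ω _ e F hF =>
      (e F hF).trans (mul_le_mul_of_nonneg_right (Real.exp_le_exp.2 (neg_le_neg ?_))
        (C1.nc_nn _ _ _ _ _))), Gp.unit ((pa E (φ i a) true v.1 v.2).2 gc.one) (cp i)⟩
    refine (mul_le_mul_of_nonneg_left (lev_le' M (w.e0 i).le n) (Nat.cast_nonneg _)).trans ?_
    rw [← mul_assoc]
    exact mul_le_mul_of_nonneg_right y (Nat.cast_nonneg _)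
  obtain ⟨i, ⟨⟨⟨⟨⟨-, t0⟩, t1⟩, t2⟩, t3⟩, t4⟩, t5⟩ :=
    ((((((li _ _ _ _ w).and s1).and s2).and s3).and s4).and s5).ex
  exact ⟨fun n => m' n (i n), C * D, fun a n => lev M (φ (i n) a) n, fun a n => S (φ (i n) a) n,
    fun a n => Θ (φ (i n) a) n, fun a c n => W (φ (i n) a) c n,
    fun E a c n => τ' E (φ (i n) a) c n, J, c, c0, gc.one, (t1 0).1,
    fun a a' e => Eventually.of_forall fun n => lev_mono M (by exact_mod_cast mo (i n) e) n, t3,
    fun a a' e => t2 ⟨(a, a'), e⟩, fun a => (t1 a).2.1, fun a => (t1 a).2.2.1,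
    fun a => (t1 a).2.2.2.1, fun a => (t1 a).2.2.2.2, fun a c => ((t1 a).2.2.2.2.kd c).den,
    fun a g => t4 (a, g), t0, fun E a c K => ⟨(t5 (E, a, c, 0)).1, fun n => dg E _ c n,
      (t5 (E, a, c, 0)).2.1, (t5 (E, a, c, ⌈K⌉₊)).2.2.1.mono (Eventually.of_forall
        fun n ω _ e F hF => (e F hF).trans (mul_le_mul_of_nonneg_right
          (G39.dl_anti (fun n => m' n (i n)) (Nat.le_ceil K) n) (C1.nc_nn _ _ _ _ _)))⟩,
    fun E a => (t5 (E, a, true, 0)).2.2.2⟩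

/-- The local step from its parts. -/
theorem ofLoc2 (ko : KOp) (h1 : SGC) (h3 : SG7P) (h4 : SSlope) (h6 : SInc) (h7 : SCrv) (h8 : SNgv)
    (h9 : SBg) (h10 : SGs) (h11 : SWhp) (h12 : SEmp) : OfLoc := by
  intro d mm lo st Ω Λ k ml P M x s C D S Θ U H a₀ b τ hm gc
  obtain ⟨L, l1, l2⟩ := h1 _ Ω Λ k ml P M x s C D S Θ U H a₀ b τ gc
  obtain ⟨m, G, g1, ae⟩ := C1.c1 slow her2 D gc.sys.big gc.sure gc.chn.nest
    (fun a => (gc.chn.cel a).cm) gc.fat l1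
  filter_upwards [ae] with σ hσ hI dU dH
  by_contra hlt
  obtain ⟨la, hl⟩ := hσ (gc.pos.1.trans hI.1)
  obtain ⟨M', C', t, S', Θ', W, τ', J, c, w⟩ := win ko (l2 G g1) hI dU dH (not_le.1 hlt) hl
  generalize (fun n => cE (P n) (G n)) = Q at w
  have g7 := h3 d mm lo st _ _ _ _ _ _ _ _ _ _ _ _ _ _ _ _ _ _ _ _ w hm
  obtain ⟨σ', hσ', sl⟩ := h4 d _ _ _ _ _ _ _ _ _ _ _ _ _ _ _ _ _ _ _ _ w
  obtain ⟨o, eb, j, jr, md⟩ := N2.exMod _ m D Ω Λ Q M' x S' σ' la w.glo.big hσ' w.nest w.lin sl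
  obtain ⟨Λ', O, D', n1, n2, cr⟩ := h7 d _ _ _ _ _ _ _ _ _ _ _ _ _ _ _ _ _ _ _ _ w _ _ _ _ _ md
  obtain ⟨cc, hc, ng⟩ := h8 d _ _ _ _ _ _ _ _ _ _ _ _ _ _ _ _ _ _ _ _ w _ _ _ _ _ md
  obtain ⟨mb, bg⟩ := h9 d _ _ _ _ _ _ _ _ _ _ _ _ _ _ _ _ _ _ _ _ w _ _ _ _ _ md
  obtain ⟨mg, gs⟩ := h10 d _ _ _ _ _ _ _ _ _ _ _ _ _ _ _ _ _ _ _ _ w g7 _ _ _ _ _ md
  obtain ⟨f1, f2, f3⟩ :=
    h6 d _ _ _ _ _ _ _ _ _ _ _ _ _ _ _ _ _ _ _ _ w _ _ _ _ _ md Λ' O D' cc mb mg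
  have lw : Lw (mkS la o d D' cc mb mg) (mkX la Q M' j S' O) := by
    refine ⟨hc, md.wo, fun p hp => hσ'.trans_le (md.wp p hp), fun a => sub_pos.2 a.2, w.glo.big,
      fun a => ?_, f1, f2, fun k a a' h => ?_, fun a => ?_, fun k a => ?_, (cr cc mb mg).1,
      (cr cc mb mg).2, ng Λ' O D' mb mg, bg Λ' O D' cc mg, gs Λ' O D' cc mb⟩
    · have : (fun n => (mkX la Q M' j S' O n).lv a - (mkX la Q M' j S' O n).lv 0) =
          fun n => (a : ℝ) * M' n := funext fun n => by simp [mkD]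
      rw [this]
      exact Eqv.rfl
    · cases k
      · exact (w.nest a a' (by exact_mod_cast h)).mono fun n e u hu v hv k =>
          congrArg Sum.inl (e u hu v hv (Sum.inl.inj k))
      · exact (n1 a a' h).mono fun n e u hu v hv k =>
          congrArg Sum.inr (e u hu v hv (Sum.inr.inj k))
    · exact (n2 a).mono fun n e u hu v hv k => congrArg Sum.inl (e u hu v hv (Sum.inr.inj k))
    · cases k
      · exact f3 a
      · exact (f3 a).mono ((n2 a).mono fun n e G Γ _ h u hu g v hv g' k =>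
          h u hu g v hv g' (congrArg Sum.inl (e u hu v hv (Sum.inr.inj k))))
  obtain ⟨X', hX⟩ := h11 _ _ _ _ _ _ lw
  exact h12 _ _ _ _ _ _ _ hX

end Pool.Agent.MP_5168f5_an.AN.LC
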