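import Pool.Agent.MP_5168f5_an.AN.AllG
import Pool.Agent.MP_5168f5_an.AN.GSteep
import Pool.Agent.MP_5168f5_an.AN.GSLc
import Pool.Agent.MP_5168f5_an.AN.GA2Q
import Pool.Agent.MP_5168f5_an.AN.GAcc
import Pool.Agent.MP_5168f5_an.AN.GPair
import Pool.Agent.MP_5168f5_an.AN.GCore2
import Pool.Agent.MP_5168f5_an.AN.GFin
import Pool.Agent.MP_5168f5_an.AN.GRel
import Pool.Agent.MP_5168f5_an.AN.GNCel
import Pool.Agent.MP_5168f5_an.AN.GUL
import Pool.Agent.MP_5168f5_an.AN.GNsy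
import Pool.Agent.MP_5168f5_an.AN.GRLf
import Pool.Agent.MP_5168f5_an.AN.LEWin
import Pool.Agent.MP_5168f5_an.AN.LEGC
import Pool.Agent.MP_5168f5_an.AN.LESG7P
import Pool.Agent.MP_5168f5_an.AN.LESlope
import Pool.Agent.MP_5168f5_an.AN.LEInc
import Pool.Agent.MP_5168f5_an.AN.LECrv
import Pool.Agent.MP_5168f5_an.AN.LENgv
import Pool.Agent.MP_5168f5_an.AN.LEBg
import Pool.Agent.MP_5168f5_an.AN.LEGs

/-! Kakeya sets in all dimensions: the entropy theorem from the remaining statements. -/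

namespace Pool.Agent.MP_5168f5_an.AN

open LC N2 in
theorem mu0_rest (st : OfSteep) (s3 : OfSt3) (wh : LC.SWhp) (em : LC.SEmp) (N : ℕ) : R4.Mu0 N :=
  mu0_of st (ofLoc2 kOp sGC sG7P sSlope sInc sCrv sNgv sBg sGs wh em)
    (ofPair2 her1 her2 fullApi cel1 cel2 rel (ofAcc fullApi cel2))
    (fun d mm l => ofFin fullApi kOp cel1 cel2 rel (ofAcc fullApi cel2) a2q d mm
      (s3 her1 her2 fullApi kOp (rc cel1) nzs nsy Gc.udc cel1 cel2 (ncel nzs) (ul Gc.udc nsy St.g7)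
        (slVol cel1 cel2) (slDn her1 fullApi) d (l d d.lt_succ_self)))
    (ofCore2 (slVol cel1 cel2) her1 her2 fullApi rlf kOp nzs Gc.udc cel1 cel2) N

end Pool.Agent.MP_5168f5_an.AN
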