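import Pool.Agent.MP_5168f5_an.AN.MSpec2
import Pool.Agent.MP_5168f5_an.AN.S20Nz1

/-! The second noise and the last cell. -/

namespace Pool.Agent.MP_5168f5_an.AN

open H19 H17S H17F R4 Filter MvPolynomial
open G39 (nu RG dl REM)
open Nc (Pl ev jac)
open K31 (DnS dnS_law)

namespace S3

variable {N : ℕ} {Ω Λ Λ' Λ'' : ℕ → Type} {β : Bool → ℕ → Type} {k m : Bool → ℕ} {P : ∀ n, FP (Ω n)}
  {M g g' : ℕ → ℕ} {x ξ : ∀ n, Ω n → V N} {s : ∀ n, Sy k (Ω n)} {C C1 D D' : ℕ} {A : ∀ n, Ω n → Λ n}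
  {η : ℝ} {S : ℚ≥0 → ∀ n, Ω n → Λ' n} {Θ : ℚ≥0 → ∀ n, Ω n → Fin N → Pl N} {U G : ℚ≥0 → ℝ} {e : ℚ≥0}
  {Z : ∀ b n, Ω n → β b n} {Φ : ∀ n, Ω n → Fin N → Pl N}

theorem cel_mono (h : Cel P M x Z A Φ D) (l : D ≤ D') : Cel P M x Z A Φ D' :=
  ⟨h.cm, h.frm.fn, fun n ω i => (h.frm.deg n ω i).trans l, h.frm.bd, h.frm.min⟩

theorem st2_mono (h : St2 P M x s C m A η S Θ D U G) (l : D ≤ D') :
    St2 P M x s C m A η S Θ D' U G :=
  { h with chn := ⟨h.chn.mono, h.chn.nest, fun a => cel_mono (h.chn.cel a) l⟩ }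

theorem dle_mono (h : DLe P M x A g) (l : ∀ n, g n ≤ g' n) : DLe P M x A g' := fun E =>
  Gp.mono (h E) (Eventually.of_forall fun n ω _ Γ a b F c i => (b F c i).trans
    (mul_le_mul_of_nonneg_right (mul_le_mul_of_nonneg_left (pow_le_pow_right₀ one_le_two (l n))
      (by linarith)) (nc_nonneg _ _ _ _ _)))

theorem lev_add (M : ℕ → ℕ) {a b : ℝ} (h0 : 0 ≤ b) (h : a + b ≤ 1) (h' : b ≤ 1) (n : ℕ) :
    lev M a n + lev M b n ≤ M n := by
  rcases le_total a 0 with e | e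
  · rw [show lev M a n = 0 from Nat.floor_of_nonpos (mul_nonpos_of_nonpos_of_nonneg e
      (Nat.cast_nonneg _)), zero_add]
    exact lev_le M h' n
  · have := lev_le' M e n
    have := lev_le' M h0 n
    have := mul_le_mul_of_nonneg_right h (Nat.cast_nonneg (α := ℝ) (M n))
    exact Nat.cast_le (α := ℝ).1 (by push_cast; linarith)

variable (P M x ξ s C C1 m A η S Θ D U G e) in
/-- The part that does not mention the last cell. -/
structure B3 : Prop where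
  st : St2 P M x s C m A η S Θ D U G
  sy : Sure P M (blurs x ξ M)
  tsys : Sys (k := fun b => k b + N) P M (blurs x ξ M) (fun n b => (s n b).nz (ξ n)) (C1 * D) m
  tmin : MIN P M (blurs x ξ M) (lab s)
  rem : ∀ (a : ℚ≥0) b (K : ℕ), REM P (blurs x ξ M) M (pcs s (fun _ => lev M a) b) (C1 * D) K
  cel : ∀ a : ℚ≥0, G a ≤ 1 → (Cel P M (blurs x ξ M) (pcs s fun _ => lev M a) (S a) (Θ a) D ∧
    DLe P M (blurs x ξ M) (S a) M) ∧ Vol P M (blurs x ξ M) (Θ a) (un M (U a)) ∧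
    (∃ W : Bool → ∀ n, Ω n → ℕ, Sys (k := fun b => k b + N) P M (chs (Θ a) (blurs x ξ M))
      (fun n b => (((s n b).zm (lev M a n)).nz (ξ n)).setW (W b n)) (C1 * D) m) ∧
    ∀ g : ℚ≥0, G a + g ≤ 1 → (g : ℝ) ≤ 1 →
      Near P M (chs (Θ a) (blurs x ξ M)) (chs (Θ a) x) (lev M g)
  esys : Sys (k := fun b => k b + N) P M (blurs x ξ M)
    (fun n b => ((s n b).zm (lev M e n)).nz (ξ n)) C1 fun _ => 0
  nse : Nse P M x ξ (fun n => (s n true).zm (lev M e n)) C1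

theorem B3.sl (h1 : Her1) (h2 : Her2) (h : B3 P M x ξ s C C1 D A η S Θ U G e (m := m)) :
    SL P fun Q => B3 Q M x ξ s C C1 D A η S Θ U G e (m := m) :=
  have hM := h.st.sys.big
  ((h.st.sl h1 h2).and ((h.tsys.sl h1).and ((NT.sl h2 hM h.tmin).and
    ((sl_all fun a => sl_all fun b => rem_sl h1 hM (h.rem a b)).and
    ((sl_all fun a => sl_imp fun c => (((h.cel a c).1.1.sl h1 h2 hM).and
      ((h.cel a c).1.2.sl h1 h2 hM (h.cel a c).1.1.cm)).and ((Gp.sl hM (h.cel a c).2.1).and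
      (SL.and (K := fun Q => ∃ W : Bool → ∀ n, Ω n → ℕ, Sys (k := fun b => k b + N) Q M
        (chs (Θ a) (blurs x ξ M)) (fun n b => (((s n b).zm (lev M a n)).nz (ξ n)).setW (W b n))
        (C1 * D) m) ((h.cel a c).2.2.1.elim fun W w => (w.sl h1).mono fun _ v => ⟨W, v⟩)
        (sl_all fun g => sl_imp fun u => sl_imp fun v => Gp.sl hM ((h.cel a c).2.2.2 g u v))))).and
    ((h.esys.sl h1).and (h.nse.sl h1 hM))))))).mono fun E ⟨a, b, c, d, f, g, i⟩ =>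
    ⟨a, h.sy.cE E, b, c, d, f, g, i⟩

theorem b3 (h1 : Her1) (h2 : Her2) (ko : KOp) (rc : RC) (nz : NZs) (c1 : Cel1) (c2 : Cel2)
    (nc : NCel) {J : ℕ → ℕ} (hJ : Fine M J) (hD : 1 ≤ D) (h : St2 P M x s C m A η S Θ D U G)
    (e : ℚ≥0) : B3 (NP P N J) M (pl (Nπ Ω N J) x) (Nξ Ω N J) (fun n b => (s n b).pull (Nπ Ω N J n))
      C (C + N) D (pl (Nπ Ω N J) A) η (fun a => pl (Nπ Ω N J) (S a)) (fun a => pl (Nπ Ω N J) (Θ a))
      U G e (m := m) := by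
  have hM := h.sys.big
  have hd : DnS (NP P N J) (Nπ Ω N J) P :=
    dnS_law (Eventually.of_forall fun n F => KGA.E_bind_fst _ _ F)
  have hC : C + N ≤ (C + N) * D := Nat.le_mul_of_pos_right _ hD
  have su : Sure (NP P N J) M (blurs (pl (Nπ Ω N J) x) (Nξ Ω N J) M) := by
    obtain ⟨Γ, a, b⟩ := h.sure.her hd
    refine ⟨_, a.add (sub_one M) hM, b.mono fun n u v hv => (norm_add_le _ _).trans
      (add_le_add (u v hv) ?_)⟩
    rw [norm_smul, norm_inv, norm_pow, Real.norm_two]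
    exact mul_le_one₀ (inv_le_one_of_one_le₀ (one_le_pow₀ one_le_two)) (norm_nonneg _)
      (S20.gp_norm _)
  have kz := fun (a : ℚ≥0) b => nz.kind hM hJ (lin_rfl M)
    (ko.zm hM (h.sys.kd b) (lin_lev M a) (h.ra b _ (lin_lev M a)))
  refine ⟨h.her h1 h2 hd, su, ⟨hM, su.bdd, fun b =>
    (ko.mono hM (nz.kind hM hJ (lin_rfl M) (h.sys.kd b).toS).1.kind hC).1⟩, ?_,
    fun a b => (ko.mono hM (kz a b).1.kd hC).1.rem, fun a c => ?_,
    ⟨hM, su.bdd, fun b => (kz e b).1.kd⟩,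
    ⟨(ko.mono hM (kz e true).2.kd (Nat.le_add_right _ _)).1, (kz e true).2.bd, (kz e true).2.den⟩⟩
  · have := nz.min (h := M) (D := 1) (Θ := fun _ _ => X) hM hJ
      (fun _ _ i => (totalDegree_X i).le) ((chs_X x).symm ▸ h.min)
    exact (congrArg (fun y => NT _ M y _ _) (chs_X _)).mp this
  · obtain ⟨n1, n2, n3, n4, n5⟩ := nc (h := M) hM hJ (h.chn.cel a)
      ((c2.dle hM (h.chn.cel a)).1.1 (h.dzl a)) (Eventually.of_forall (lev_le M c))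
    choose W hW using fun b => rc.long hM (kz a b).1 (lin_lev M a) n1 (n1.cm.com b)
      ((c1.pw hM (h.chn.cel a).cm (h.chn.cel a).frm (h.fat a)).her hd)
      (n4 _ (c2.ball h.sys (h.chn.cel a).cm))
    exact ⟨⟨n1, dle_mono n2 (lev_le M c)⟩, n3 _ (h.vol a), ⟨W, hM, n1.frm.bd, hW⟩,
      fun g u v => n5 _ (Eventually.of_forall (lev_add M (NNRat.cast_nonneg g) u v))⟩

/-- The types of the three kinds of contexts. -/
def T3 (Λ Λ'' Λ' : ℕ → Type) : Option (Option ℚ≥0) → ℕ → Type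
  | none => Λ
  | some none => Λ''
  | some (some _) => Λ'

/-- The three kinds of contexts. -/
def l3 (A : ∀ n, Ω n → Λ n) (Q : ∀ n, Ω n → Λ'' n) (S : ℚ≥0 → ∀ n, Ω n → Λ' n) :
    ∀ i n, Ω n → T3 Λ Λ'' Λ' i n
  | none => A
  | some none => Q
  | some (some a) => S a

theorem fin (h1 : Her1) (h2 : Her2) (fa : FullApi) (ns : Nsy) (c2 : Cel2) (ul : UL) (sv : SLVol)
    (sd : SLDn) {d DU : ℕ} (ht : THM d 0) {x ξ : ∀ n, Ω n → V (d + 1)}
    {Θ : ℚ≥0 → ∀ n, Ω n → Fin (d + 1) → Pl (d + 1)} (d3 : DU ≤ D)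
    (hU : ∀ (Λ : ℕ → Type) (P : ∀ n, FP (Ω n)) (A : ∀ n, Ω n → Λ n),
      (∀ b (K : ℕ), REM P (blurs x ξ M) M (pcs s (fun _ => lev M e) b) C1 K) →
      CM P M (blurs x ξ M) (pcs s fun _ => lev M e) A → NZ P (blurs x ξ M) A →
      ∃ Φ, Cel P M (blurs x ξ M) (pcs s fun _ => lev M e) A Φ DU)
    (b0 : B3 P M x ξ s C C1 D A η S Θ U G e (m := m))
    (fl : A1.Floor P M (blurs x ξ M) (pcs s (fun _ => lev M e) true)) :
    ∃ (Λ'' : ℕ → Type) (P' : ∀ n, FP (Ω n)) (H : ℚ≥0 → ℝ) (Q : ∀ n, Ω n → Λ'' n)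
      (Φ : ∀ n, Ω n → Fin (d + 1) → Pl (d + 1)) (w uT uQ : ℝ),
      St3 P' M x ξ s C (C1 * D) m A η S Θ D U G H e Q Φ w uT uQ := by
  have hM := b0.st.sys.big
  obtain ⟨L, l1, l2⟩ := b0.sl h1 h2
  obtain ⟨Γ, g1, g2⟩ := b0.sy
  obtain ⟨Λ'', E, Q, q1, -, q2⟩ := A1.a1 (I := Unit) P (blurs x ξ M)
    (fun b _ => pcs s (fun _ => lev M e) b) (fun _ => S e) (K := 1) hM l1
    (Whp.of_ev ((g2.and (G39.sub_dl g1 one_pos)).mono fun n u ω v => (u.1 ω v).trans u.2))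
    (fun _ _ _ _ => fnE_of fun _ _ _ a => a) (fun _ => (b0.st.chn.cel e).cm.com)
    (fun _ _ _ => fnE_of fun _ _ _ a => a) fun _ => ⟨true, fl⟩
  obtain ⟨q2, q3, q4⟩ := q2 ()
  have b1 := l2 E q1
  generalize Q () = Q at q2 q3 q4
  generalize (fun n => cE (P n) (E n)) = P at b1 q2 q3 q4
  obtain ⟨Φ, q5⟩ := hU _ P Q (fun b => (b1.esys.kd b).rem) q3 q4.nz
  let K : (∀ n, FP (Ω n)) → Prop := fun P =>
    B3 P M x ξ s C C1 D A η S Θ U G e (m := m) ∧ FnE P (S e) Q ∧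
      Cel P M (blurs x ξ M) (pcs s fun _ => lev M e) Q Φ D ∧ Fat P M (blurs x ξ M) Q
  have hK : ∀ P, K P → SL P K := fun P a => (a.1.sl h1 h2).and (a.2.1.sl.and
    ((a.2.2.1.sl h1 h2 hM).and (a.2.2.2.sl2 h2 hM a.2.2.1.cm)))
  obtain ⟨E, a1, a2⟩ := (hK P ⟨b1, q2, cel_mono q5 d3, q4⟩).sure hM (J := {a : ℚ≥0 // G a ≤ 1})
    (y := fun a => chs (Θ a) (blurs x ξ M)) fun a => (b1.cel a a.2).1.1.frm.bd
  generalize (fun n => cE (P n) (E n)) = P at a1 a2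
  obtain ⟨E, w, _, ⟨a1, a2⟩, a3⟩ := sv (J := Unit) (A := fun _ => Q) (Θ := fun _ => Φ)
    ((hK P a1).and (sl_all fun a => (a2 a).sl)) hM a1.1.sy (fun _ => a1.2.2.1) fun _ => a1.2.2.2
  replace a3 := (a3 ()).1
  generalize (fun n => cE (P n) (E n)) = P at a1 a2 a3
  obtain ⟨E, u, ⟨⟨b, q2, q5, q4⟩, a2, a3⟩, a4⟩ := sd (l3 A Q S)
    ((hK P a1).and ((sl_all fun a => (a2 a).sl).and (Gp.sl hM a3))) hM a1.1.sy.bdd
    (lin_mul M (d + 1 + 1))
  generalize (fun n => cE (P n) (E n)) = P at b q2 q4 q5 a2 a3 a4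
  refine ⟨Λ'', P, fun a => u (some (some a)), Q, Φ, w (), u none,
    u (some none), b.st, b.nse.bd, b.sy, b.tsys, b.tmin, b.rem, fun a c => (b.cel a c).1.1,
    fun a c => (b.cel a c).1.2, fun a c => (b.cel a c).2.1, fun a c => a2 ⟨a, c⟩,
    fun a c => (b.cel a c).2.2.1, fun a g c c' => (b.cel a ?_).2.2.2 g c c', q5, q2,
    ns.dle hM (lin_rfl M) b.nse q5.cm (q5.cm.com true) q4, a3, fun τ t0 t1 t2 => ?_, (a4 none).1,
    (a4 none).2, fun a => (a4 (some (some a))).1, fun a => (a4 (some (some a))).2,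
    (a4 (some none)).1, (a4 (some none)).2⟩
  · exact (le_add_of_nonneg_right (NNRat.cast_nonneg g)).trans c
  have z1 : DzGe P M x (Θ e) (lev M (1 - τ)) := Gp.mono (b.st.dzg e) (Eventually.of_forall
    fun n ω _ Γ _ a => (pow_le_pow_right₀ one_le_two (lev_mono M t2 n)).trans a)
  have z2 := ns.dge hM t0 (Eventually.of_forall fun n => by
    linarith [lev_le' M (sub_nonneg.2 t1) n]) b.nse.bd (b.st.chn.cel e).cm
    ((c2.dle hM (b.st.chn.cel e)).2 z1) q2 q5.cm q4.nz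
  have z3 := fa.hl hM (fnE_of fun _ _ _ a => a) (a4 (some none)).1
    (ul _ _ _ _ _ _ _ _ P M M _ _ x ξ _ Q Φ _ _ _ ht b.esys b.sy q5 q4 a3 z2 b.nse (q5.cm.com true)
      (lin_mul M (d + 1 + 1)) (Eventually.of_forall fun n => Nat.le_mul_of_pos_left _ (by omega)))
  refine Le.num hM ((z3.add (hM.sm lg)).of_sub (Eventually.of_forall fun n => ?_))
  have := mul_le_mul_of_nonneg_right (lt_lev M (1 - τ) n).le (Real.log_nonneg one_le_two)
  simp only [un, lg] at this ⊢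
  linarith

end S3

open S3

theorem ofSt3 : OfSt3 := by
  intro h1 h2 fa ko rc nz ns ud c1 c2 nc ul sv sd d ht C D
  obtain ⟨DU, hU⟩ := ud (d + 1) (C + (d + 1))
  obtain ⟨D', d1, d2, d3⟩ : ∃ D', D ≤ D' ∧ 1 ≤ D' ∧ DU ≤ D' := ⟨D + 1 + DU, by omega⟩
  refine ⟨(C + (d + 1)) * D', D', d2, fun Ω Λ Λ' k m P M x s A η S Θ U G e h => ?_⟩
  have hM := h.sys.big
  have hJ : Fine M fun n => M n * M n := fun R =>
    (hM.eventually_ge_atTop R).mono fun _ a => Nat.mul_le_mul_right _ a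
  obtain ⟨Λ'', P', H, Q, Φ, w, uT, uQ, a⟩ := fin h1 h2 fa ns c2 ul sv sd ht d3
    (fun _ P A => hU _ _ _ P M _ _ A hM) (b3 h1 h2 ko rc nz c1 c2 nc hJ d2 (st2_mono h d1) e)
    (floor_mono (nz.flr (P := P) hM hJ (lin_rfl M) (lin_rfl M) h.sure.bdd)
      (fnE_of fun n _ _ z => congrArg ((s n true).pc (lev M e n)) (Prod.mk.inj z).1))
  exact ⟨_, _, P', _, _, _, _, _, _, H, Q, Φ, w, uT, uQ, a⟩

end Pool.Agent.MP_5168f5_an.AN
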