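import Pool.Agent.MP_5168f5_an.AN.LCSpec
import Pool.Agent.MP_5168f5_an.AN.GAAll

/-! Kakeya sets in all dimensions: negligible changes of the group element. -/

namespace Pool.Agent.MP_5168f5_an.AN.LC

open H19 H17S H17F R4 Filter MvPolynomial
open G39 (dl OB)
open Pk (cn)
open Nc (Pl ev)
open GA (Mt Nr IsFr vec Neg)
open S20 (dn mem_cv)

namespace LCPertA

theorem pw {M : ℕ → ℕ} (hM : Big M) {K : ℕ} (hK : 1 ≤ K) {c : ℝ} (hc : 0 < c) :
    ∀ᶠ n in UF, (K * Real.exp (c / (2 * K) * M n)) ^ K ≤ Real.exp (c * M n) := by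
  have k : (0 : ℝ) < K := by exact_mod_cast hK
  have e : 0 < c / (2 * K) := by positivity
  filter_upwards [hM.ev (K / (c / (2 * K)))] with n a
  rw [div_le_iff₀' e] at a
  have b : (K : ℝ) ≤ Real.exp (c / (2 * K) * M n) := by
    linarith [Real.add_one_le_exp (c / (2 * K) * M n)]
  refine (pow_le_pow_left₀ (by positivity)
    (mul_le_mul_of_nonneg_right b (Real.exp_pos _).le) K).trans (le_of_eq ?_)
  rw [← Real.exp_add, ← Real.exp_nat_mul]
  congr 1
  field_simp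
  ring

variable {m : ℕ} {κ : Type} [Fintype κ]

theorem nr_mono {B : κ → Mt (Fin m)} {r r' : κ → ℝ} {L L' : ℝ} {x y : Mt (Fin m)}
    (h : Nr B r L x y) (e : ∀ a, L * r a ≤ L' * r' a) : Nr B r' L' x y :=
  h.imp fun _ f => ⟨fun a => (f.1 a).trans (e a), f.2⟩

theorem of_rd {B : κ → Mt (Fin m)} {wt : κ → ℝ} {S : Finset κ} {s τ L : ℝ} {x y : Mt (Fin m)}
    (hτ : τ ≤ 1) (hL : 0 ≤ L) (h : Nr B (rd wt S s τ) L x y) :
    Nr B (fun a => Real.exp (-(wt a * s))) L x y :=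
  nr_mono h fun a => mul_le_mul_of_nonneg_left
    ((Dt.rd_mono wt S s hτ a).trans (le_of_eq (by simp [rd]))) hL

theorem to_rd {B : κ → Mt (Fin m)} {wt : κ → ℝ} (S : Finset κ) {s τ L : ℝ} {x y : Mt (Fin m)}
    (h0 : 0 ≤ τ) (hτ : τ ≤ 1) (hL : 1 ≤ L) (h : Nr B (fun a => Real.exp (-(wt a * s))) τ x y) :
    Nr B (rd wt S s τ) L x y := by
  refine nr_mono h fun a => le_trans ?_ (le_mul_of_one_le_left (Dt.rd_nonneg wt S s h0 a) hL)
  unfold rd
  rw [mul_comm]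
  refine mul_le_mul_of_nonneg_left ?_ (Real.exp_pos _).le
  split_ifs
  exacts [hτ, le_rfl]

variable {Ω Λ : ℕ → Type} {σ : St m κ} {S : Bool → Finset κ} {X : ∀ n, Dt m κ (Ω n) (Λ n)}

theorem cls (h : LU σ S X) {j : ∀ n, Ω n → Mt (Fin m)} (hj : Cls σ X (sP X) j) (a : ℚ≥0)
    (T : ℝ) : ∀ᶠ n in UF, ∀ ω ∈ (X n).P.S, Nr (X n).B
      (fun b => Real.exp (-(σ.wt b * (X n).lv a))) (Real.exp (-(T * (X n).M)))
      ((X n).j ω) (j n ω) := by
  filter_upwards [hj (T + (∑ b, σ.wt b) * (a + 1)), (h.lv a).1 1 one_pos] with n e f ω hω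
  refine nr_mono (e ω hω) fun b => ?_
  have g : σ.wt b ≤ ∑ b, σ.wt b :=
    Finset.single_le_sum (fun b _ => (h.wp b).le) (Finset.mem_univ b)
  have i : (0 : ℝ) ≤ ((a : ℝ) + 1) * (X n).M := by positivity
  have f1 := mul_le_mul_of_nonneg_left f (h.wp b).le
  have f2 := mul_le_mul_of_nonneg_right g i
  unfold dl
  rw [← Real.exp_add, ← Real.exp_add]
  refine ex_le ?_
  dsimp only [sM] at f1 ⊢
  linarith

end LCPertA

open LCPertA

theorem lcPert : OfPert := by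
  intro h1 h2 m κ _ Ω Λ σ S X h
  obtain ⟨K, hK, h1⟩ := h1 m κ σ h.lo
  obtain ⟨K', hK', h2⟩ := h2 m κ σ
  have k : (0 : ℝ) < K := by exact_mod_cast hK
  have k' : (0 : ℝ) < K' := by exact_mod_cast hK'
  have one : ∀ (c : ℝ) (n : ℕ), 0 ≤ c → 1 ≤ Real.exp (c * (X n).M) := fun c n hc =>
    Real.one_le_exp (by positivity)
  have le : ∀ (c : ℝ) (n : ℕ), 0 ≤ c → Real.exp (-(c * (X n).M)) ≤ 1 := fun c n hc =>
    Real.exp_le_one_iff.2 (neg_nonpos.2 (by positivity))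
  refine ⟨fun k a c hc => ?_, fun j hj => ⟨?_, fun k a c hc T => ?_, fun k a T => ?_⟩⟩
  · have e : 0 < c / (2 * K) := by positivity
    filter_upwards [h.inc k a _ e 0, h.bd _ e 0, h.fr, pw h.big hK hc] with n i b f p ω hω v hv
    obtain ⟨hv, o⟩ := (mem_cv hω v).1 hv
    exact (h1 _ _ _ _ 0 _ _ 0 0 f.1 f.2.1 b.1 (one _ n e.le) le_rfl zero_le_one (f.2.2 ω hω)
      (of_rd (le 0 n le_rfl) (Real.exp_pos _).le (i ω hω v hv o.symm))).1.trans p
  · filter_upwards [hj 0, h.fr] with n e f ω hω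
    obtain ⟨t, -, e⟩ := e ω hω
    have g := (GA.sMul _ _ _ _ _ f.1).neg t
    exact e ▸ (f.2.2 ω hω).mul ⟨⟨_, _, g.2, g.1⟩, rfl⟩
  · have e : 0 < c / (2 * K') := by positivity
    have s : ∀ᶠ n in UF, ∀ b b' d, b ∈ S k → b' ∈ S k → d ∉ S k →
        |(X n).c b b' d| ≤ dl (sM X) |T| n := by
      refine eventually_all.2 fun b => eventually_all.2 fun b' => eventually_all.2 fun d => ?_
      by_cases g : b ∈ S k ∧ b' ∈ S k ∧ d ∉ S k
      · exact (h.sub k b g.1 b' g.2.1 d g.2.2 |T|).mono fun n i _ _ _ => i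
      · exact Eventually.of_forall fun n x y z => absurd ⟨x, y, z⟩ g
    filter_upwards [h.inc k a _ e |T|, h.bd _ e 0, h.fr, pw h.big hK' hc, s, cls h hj a |T|]
      with n i b f p s q
    refine Dt.mo_inc σ _ _ k a _ _ _ _ le_rfl
      (mul_le_mul_of_nonneg_right (le_abs_self T) (Nat.cast_nonneg _)) fun ω hω v hv o => ?_
    have t := le |T| n (abs_nonneg T)
    have r := fun ω hω => to_rd (S k) (Real.exp_pos _).le t (one _ n e.le) (q ω hω)
    exact nr_mono (h2 _ _ _ _ _ _ _ _ _ _ f.1 f.2.1 b.1 b.2 (one _ n e.le) (Real.exp_pos _).le t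
      (fun x hx y hy z hz => s x y z hx hy hz) (i ω hω v hv o) (r ω hω) (r v hv)) fun b =>
      mul_le_mul_of_nonneg_right p (Dt.rd_nonneg _ _ _ (Real.exp_pos _).le _)
  · have e : 0 < 1 / (2 * (K : ℝ)) := by positivity
    filter_upwards [h.inc k a _ e 0, h.bd _ e 0, h.fr, pw h.big hK one_pos,
      cls h hj a (|T| + 1)] with n i b f p q ω hω v hv
    obtain ⟨hv, o⟩ := (mem_cv hω v).1 hv
    refine ((h1 _ _ _ _ _ _ _ _ _ f.1 f.2.1 b.1 (one _ n e.le) (Real.exp_pos _).le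
      (le (|T| + 1) n (by positivity)) (f.2.2 ω hω)
      (of_rd (le 0 n le_rfl) (Real.exp_pos _).le (i ω hω v hv o.symm))).2
      (q ω hω) (q v hv)).trans
      ((mul_le_mul_of_nonneg_right p (Real.exp_pos _).le).trans ?_)
    unfold dl
    rw [← Real.exp_add]
    refine ex_le ?_
    have := mul_le_mul_of_nonneg_right (le_abs_self T) (Nat.cast_nonneg (α := ℝ) (X n).M)
    dsimp only [sM]
    linarith

end Pool.Agent.MP_5168f5_an.AN.LC
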