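import Pool.Agent.MP_5168f5_an.AN.N3Spec
import Pool.Agent.MP_5168f5_an.AN.LCPert
import Pool.Agent.MP_5168f5_an.AN.GAAll2

/-! Kakeya sets in all dimensions: additive forms and negligible changes of coordinates. -/

namespace Pool.Agent.MP_5168f5_an.AN.N3

open H19 H17S H17F R4 Filter LC GA N6
open G39 (dl OB dl_pos)

variable {m : ℕ} {κ : Type} [Fintype κ] {Ω Λ : ℕ → Type} {σ : St m κ} {S : Bool → Finset κ}
  {X : ∀ n, Dt m κ (Ω n) (Λ n)}

theorem c_le (h : L σ S X) {c : ℝ} (hc : 0 < c) :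
    ∀ᶠ n in UF, ∀ a b e, |(X n).c a b e| ≤ Real.exp (c * (X n).M) :=
  eventually_all.2 fun a => eventually_all.2 fun b => eventually_all.2 fun e =>
    (ob_c h a b e c hc).mono fun n k => by rwa [G39.dl_inv] at k

theorem n3Add : ADD := by
  intro m κ _ Ω Λ σ S X h k a c T hc
  classical
  obtain ⟨K, hK, ab⟩ := sAbel σ.Φ.N (Fintype.card κ)
  obtain ⟨L, hL, co⟩ := atom_co h.big h.fr h.lo (h.inc k a)
  have e : 0 < c / (2 * K) := by positivity
  have s : ∀ᶠ n in UF, ∀ b b' d, b ∈ S k → b' ∈ S k → d ∉ S k →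
      |(X n).c b b' d| ≤ dl (sM X) (|T| + c / (2 * K) + 1) n :=
    eventually_all.2 fun b => eventually_all.2 fun b' => eventually_all.2 fun d => by
      simp only [eventually_imp_distrib_left]
      exact fun x y z => h.sub k b x b' y d z _
  filter_upwards [co (|T| + c / (2 * K) + 1), h.fr, s, c_le h e, hL.2 _ e,
    LCPertA.pw h.big hK hc, G39.big_dl h.big (Fintype.card κ) one_pos] with
    n co fr s bc bL pw cd u ω v z z' l θ t0 l1 fm
  have m0 : (0 : ℝ) ≤ (X n).M := Nat.cast_nonneg _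
  have one : 1 ≤ Real.exp (c / (2 * K) * (X n).M) := Real.one_le_exp (by positivity)
  have t1 : Fintype.card κ * Real.exp (c / (2 * K) * (X n).M) *
      dl (sM X) (|T| + c / (2 * K) + 1) n ≤ θ := by
    rw [G39.dl_inv] at cd
    refine le_trans ?_ ((G39.dl_anti _ (le_abs_self T) n).trans t0)
    rw [mul_assoc]
    refine (mul_le_mul_of_nonneg_right cd (mul_pos (by linarith) (dl_pos _ _ _)).le).trans_eq ?_
    rw [dl, dl, ← Real.exp_add, ← Real.exp_add]
    congr 1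
    ring
  have τ1 : dl (sM X) (|T| + c / (2 * K) + 1) n ≤ 1 :=
    Real.exp_le_one_iff.2 (neg_nonpos.2 (by positivity))
  have τ0 := dl_pos (sM X) (|T| + c / (2 * K) + 1) n
  generalize dl (sM X) (|T| + c / (2 * K) + 1) n = τ at *
  generalize Real.exp (c / (2 * K) * (X n).M) = W at *
  have bx : ∀ ω v, At (X n) k a ω v →
      Bx (fun b => if b ∈ S k then 1 else τ) W (N6.co σ (X n) a ω v) := fun ω v y b => by
    beta_reduce
    split_ifs with i
    · rw [mul_one]; exact ((co ω v y).2.2.1 b).trans bL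
    · exact ((co ω v y).2.2.2 b i).trans (le_mul_of_one_le_left τ0.le one)
  have rr : ∀ b b', ¬(b ∈ S k ∧ b' ∈ S k) →
      (if b ∈ S k then 1 else τ) * (if b' ∈ S k then 1 else τ) ≤ τ := fun b b' i => by
    split_ifs with x y
    exacts [absurd ⟨x, y⟩ i, (one_mul _).le, (mul_one _).le, mul_le_of_le_one_left τ0.le τ1]
  have r0 : ∀ b, 0 ≤ if b ∈ S k then 1 else τ := fun b => by split_ifs; exacts [zero_le_one, τ0.le]
  have y := (ab κ (X n).c (fun b => if b ∈ S k then 1 else τ) l W θ _ _ _ _ le_rfl one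
    ((dl_pos _ _ _).le.trans t0) r0 (fun b b' d => by
      by_cases i : b ∈ S k ∧ b' ∈ S k
      · simp only [i.1, i.2, if_true, mul_one]
        split_ifs with x
        · rw [mul_one]; exact bc _ _ _
        · exact (s _ _ _ i.1 i.2 x).trans (le_mul_of_one_le_left τ0.le one)
      · rw [mul_assoc]
        refine mul_le_mul (bc _ _ _) ((rr b b' i).trans ?_) (mul_nonneg (r0 _) (r0 _)) (by linarith)
        beta_reduce
        split_ifs
        exacts [τ1, le_rfl]) (fun b b' => by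
      by_cases i : b ∈ S k ∧ b' ∈ S k
      · simp only [i.1, i.2, if_true, mul_one]
        exact fm.2 b i.1 b' i.2
      · rw [mul_assoc]
        refine le_trans (mul_le_mul ((Finset.abs_sum_le_sum_abs _ _).trans
          ((Finset.sum_le_card_nsmul _ _ W fun d _ => ?_).trans_eq (by simp))) (rr b b' i)
          (mul_nonneg (r0 _) (r0 _)) (by positivity)) t1
        rw [abs_mul]
        exact (mul_le_of_le_one_left (abs_nonneg _) (l1 d)).trans (bc _ _ _))
    (bx _ _ z) (bx _ _ (z.symm.trans z')) (bx _ _ z) (bx _ _ z)).1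
  rw [← co_mul fr z.1 (co _ _ z).1 (co _ _ (z.symm.trans z')).1, dotProduct_sub,
    dotProduct_sub] at y
  exact y.trans (mul_le_mul_of_nonneg_right pw ((dl_pos _ _ _).le.trans t0))

theorem n3Pert : PERT := by
  intro m κ _ Ω Λ σ S X h P j hP cls k a T
  obtain ⟨K, hK, bo⟩ := sBox σ.Φ.N (Fintype.card κ)
  obtain ⟨L, hL, co⟩ := atom_co h.big h.fr h.lo (h.inc k a)
  have e' : 0 < 1 / (2 * (K : ℝ)) := by positivity
  have e : 0 < 1 / (2 * (K : ℝ)) / (2 * K) := by positivity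
  filter_upwards [co 0, h.fr, c_le h e, hL.2 _ e, LCPertA.pw h.big hK e',
    LCPertA.pw h.big hK one_pos, hP, cls (|T| + 2 + (∑ b, σ.wt b) * (a + 1)),
    (h.lv a).1 1 one_pos] with n co fr bc bL p1 p2 hP cls lv ω v z
  have m0 : (0 : ℝ) ≤ (X n).M := Nat.cast_nonneg _
  have mu := sMul _ _ _ _ _ (fr_Bl fr a)
  have nr : ∀ ω ∈ (P n).S, ∃ g, Bx (fun _ => 1) (dl (sM X) (|T| + 2) n) g ∧
      j n ω = (X n).j ω * ex (Bl σ (X n) a) g := fun ω hω => by
    obtain ⟨t, t1, t2⟩ := cls ω hω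
    refine ⟨_, fun b => ?_, by rw [ex_Bl]; exact t2⟩
    have g := mul_le_mul_of_nonneg_right (Finset.single_le_sum (fun b _ => (h.wp b).le)
      (Finset.mem_univ b)) (by positivity : (0 : ℝ) ≤ ((a : ℝ) + 1) * (X n).M)
    have f1 := mul_le_mul_of_nonneg_left lv (h.wp b).le
    rw [abs_mul, abs_of_pos (Real.exp_pos _), mul_one]
    refine (mul_le_mul_of_nonneg_left (t1 b) (Real.exp_pos _).le).trans ?_
    rw [dl, dl, ← Real.exp_add, ← Real.exp_add, Real.exp_le_exp]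
    dsimp only [sM] at f1 ⊢
    linarith
  obtain ⟨g, g1, g2⟩ := nr ω z.1
  obtain ⟨g', g1', g2'⟩ := nr v z.2.1
  obtain ⟨c1, -, c2, -⟩ := co ω v ⟨hP _ z.1, hP _ z.2.1, z.2.2⟩
  have τ0 := dl_pos (sM X) (|T| + 2) n
  have τ1 : dl (sM X) (|T| + 2) n ≤ 1 := Real.exp_le_one_iff.2 (neg_nonpos.2 (by positivity))
  have w1 : 1 ≤ Real.exp (1 / (2 * (K : ℝ)) / (2 * K) * (X n).M) := Real.one_le_exp (by positivity)
  have w2 : 1 ≤ Real.exp (1 / (2 * (K : ℝ)) * (X n).M) := Real.one_le_exp (by positivity)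
  have w3 : Real.exp (1 / (2 * (K : ℝ)) * (X n).M) ≤ Real.exp (1 * (X n).M) :=
    Real.exp_le_exp.2 (mul_le_mul_of_nonneg_right ((div_le_one (by positivity)).2 (by
      linarith [(by exact_mod_cast hK : (1 : ℝ) ≤ K)])) m0)
  have w4 : Real.exp (1 / (2 * (K : ℝ)) / (2 * K) * (X n).M) ≤
      Real.exp (1 / (2 * (K : ℝ)) * (X n).M) :=
    Real.exp_le_exp.2 (mul_le_mul_of_nonneg_right (div_le_self e'.le (by
      linarith [(by exact_mod_cast hK : (1 : ℝ) ≤ K)])) m0)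
  have bm : ∀ {A A' : ℝ} {t : κ → ℝ}, Bx (fun _ => 1) A t → A ≤ A' → Bx (fun _ => 1) A' t :=
    fun x y b => (x b).trans (mul_le_mul_of_nonneg_right y zero_le_one)
  have b0 : ∀ {A : ℝ}, 0 ≤ A → Bx (fun _ : κ => 1) A 0 := fun x b => by simpa using x
  have bs : Bx (fun _ => 1) _ (N6.co σ (X n) a ω v) := fun b => by
    rw [mul_one]; exact (c2 b).trans bL
  have bg : Bx (fun _ => 1) (dl (sM X) (|T| + 2) n) (-g) := fun b => by simpa using g1 b
  have id : ∀ {A : ℝ}, _ ≤ A → Idl (X n).c (fun _ => 1) (fun _ => 1) A := fun x b b' d => by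
    simpa using (bc b b' d).trans x
  obtain ⟨y1, y2⟩ := bo κ (X n).c _ _ _ _ _ _ 0 _ le_rfl w1 τ0.le (fun _ => ⟨zero_le_one, zero_le_one⟩)
    mu.anti (id le_rfl) (id le_rfl) (bm bg (τ1.trans w1)) bs (b0 (by linarith)) bs
  replace y2 := bm (y2 (by rwa [sub_zero]) (by rw [sub_self]; exact b0 τ0.le))
    (mul_le_mul_of_nonneg_right p1 τ0.le)
  rw [(mu.one _).2] at y2
  have y3 := (bo κ (X n).c _ _ _ _ _ _ _ 0 le_rfl w2 (by positivity)
    (fun _ => ⟨zero_le_one, zero_le_one⟩) mu.anti (id w4) (id w4) (bm y1 p1) (bm g1' (τ1.trans w2))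
    (bm bs w4) (b0 (by linarith))).2 y2 (by
      rw [sub_zero]; exact bm g1' (le_mul_of_one_le_left τ0.le w2))
  have fr' : ((X n).chg (P n) (j n)).Fr σ := ⟨fr.1, fr.2.1, fun ω hω => by
    obtain ⟨g, -, e⟩ := nr ω hω
    change IsUnit (j n ω)
    exact e ▸ (fr.2.2 ω (hP ω hω)).mul ⟨⟨_, _, (mu.neg g).2, (mu.neg g).1⟩, rfl⟩⟩
  rw [(mu.one _).1, ← (co_eq (a := a) (v := v) fr' z.1 (show j n v = j n ω * ex (Bl σ (X n) a)
    (bch _ _ (bch _ _ (-g) (N6.co σ (X n) a ω v)) g') by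
    rw [← mu.mul, ← mu.mul, g2, g2', c1]
    simp only [← mul_assoc]
    rw [mul_assoc _ (ex _ g), (mu.neg g).2, mul_one])).1] at y3
  refine fun b => (y3 b).trans ?_
  rw [mul_one]
  refine (mul_le_mul p2 (mul_le_mul_of_nonneg_right w3 τ0.le) (by positivity)
    (Real.exp_pos _).le).trans ?_
  rw [dl, dl, ← Real.exp_add, ← Real.exp_add, Real.exp_le_exp]
  dsimp only [sM]
  nlinarith [le_abs_self T]

end Pool.Agent.MP_5168f5_an.AN.N3
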