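import Pool.Agent.MP_5168f5_an.AN.N3Spec

/-! Kakeya sets in all dimensions: freezing the form by an entropy budget. -/

namespace Pool.Agent.MP_5168f5_an.AN.N3

open H19 H17S H17F R4 Filter LC
open G39 (dl OB dl_inv dl_anti)
open GA (Mt)
open N6 (co At)
open S20 (dn)

namespace BUD

theorem dg {J : Type} [Countable J] {K : J → (ℕ → ℕ) → Prop}
    (h : ∀ j, CF (S := fun _ => ℕ) (K j)) (e : ∀ j, ∀ᶠ i in atTop, K j fun _ => i) :
    ∃ i, ∀ j, K j i := by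
  choose p hp using h
  obtain ⟨k, -, b⟩ := TG.tgDg (J × ℕ) (fun j i n => p j.1 j.2 n i)
    fun j => (e j.1).mono fun i u => (hp _ _).1 u j.2
  exact ⟨k, fun j => (hp _ _).2 fun l => b (j, l)⟩

theorem pig (φ : ℕ → ℝ) {N : ℕ} (hN : 0 < N) (h : 0 ≤ φ N) :
    ∃ t : Fin N, φ t - φ (t + 1) ≤ φ 0 / N := by
  by_contra c
  push Not at c
  have := Finset.sum_lt_sum_of_nonempty (s := Finset.range N) (f := fun _ => φ 0 / N)
    (g := fun t => φ t - φ (t + 1)) ⟨0, Finset.mem_range.2 hN⟩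
    fun t ht => c ⟨t, Finset.mem_range.1 ht⟩
  rw [Finset.sum_range_sub', Finset.sum_const, Finset.card_range, nsmul_eq_mul,
    mul_div_cancel₀ _ (Nat.cast_pos.2 hN).ne'] at this
  linarith

variable {m : ℕ} {κ : Type} [Fintype κ]

theorem est {l l' x x' : κ → ℝ} {δ E : ℝ} (h0 : 0 ≤ δ) (h : |∑ b, l b * x b| ≤ δ)
    (h1 : ∀ b, |l' b - l b| ≤ δ) (h2 : ∀ b, |x b| ≤ E) (h3 : ∀ b, |l' b| ≤ E)
    (h4 : ∀ b, |x' b - x b| ≤ δ) : |∑ b, l' b * x' b| ≤ δ + Fintype.card κ * (2 * δ * E) := by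
  have e : ∑ b, l' b * x' b =
      ∑ b, l b * x b + ∑ b, ((l' b - l b) * x b + l' b * (x' b - x b)) := by
    rw [← Finset.sum_add_distrib]
    exact Finset.sum_congr rfl fun b _ => by ring
  rw [e, ← nsmul_eq_mul]
  refine (abs_add_le _ _).trans (add_le_add h ((Finset.abs_sum_le_sum_abs _ _).trans
    (Finset.sum_le_card_nsmul _ _ _ fun b _ => (abs_add_le _ _).trans ?_)))
  rw [abs_mul, abs_mul]
  linarith [mul_le_mul (h1 b) (h2 b) (abs_nonneg _) h0,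
    mul_le_mul (h3 b) (h4 b) (abs_nonneg _) ((abs_nonneg _).trans (h3 b))]

theorem ent {Ω β : Type} {P : FP Ω} {l : Ω → κ → ℝ} (G : Ω → β) {x : ℝ} (hx : 0 ≤ x)
    (h : ∀ ω ∈ P.S, ∀ b, |l ω b| ≤ Real.exp x) :
    ch P (fun ω => flv ⌈x⌉₊ (l ω)) G ≤ Fintype.card κ * (2 * x + 7) := by
  refine (ch_near (L := 2 * Real.exp x * 2 ^ ⌈x⌉₊) (by positivity) fun a ha b hb _ => ?_).trans
    (mul_le_mul_of_nonneg_left ?_ (Nat.cast_nonneg _))
  · rw [mul_div_cancel_right₀ _ (by positivity)]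
    exact (pi_norm_le_iff_of_nonneg (by positivity)).2 fun i =>
      (abs_sub _ _).trans (by linarith [h a ha i, h b hb i])
  · have h1 := mul_le_mul_of_nonneg_left ((two_pow_le_exp ⌈x⌉₊).trans
      (ex_le (Nat.ceil_lt_add_one hx).le)) (Real.exp_pos x).le
    have h2 := Real.one_le_exp (show 0 ≤ x + (x + 1) by linarith)
    have h3 := mul_le_mul_of_nonneg_right (Real.add_one_le_exp 6) (Real.exp_pos (x + (x + 1))).le
    rw [← Real.exp_add] at h1 h3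
    rw [Real.log_le_iff_le_exp (by positivity), show 2 * x + 7 = 6 + (x + (x + 1)) by ring]
    linarith

/-- The conditions on one space. -/
structure Cd {Ω Λ : Type} (σ : St m κ) (S : Finset κ) (k : Bool) (f : κ) (Y : Dt m κ Ω Λ)
    (l : Ω → κ → ℝ) (J : ℕ) (a : ℚ≥0) (q : ℕ) : Prop where
  fn : Fn Y.P l (Y.O true 0)
  fm : ∀ ω ∈ Y.P.S, Fm Y.c S (Real.exp (-(q * Y.M))) (l ω) ∧ l ω f = 1 ∧
    ∀ b, σ.wt b ≠ σ.wt f → l ω b = 0
  bd : ∀ ω ∈ Y.P.S, ∀ b, |l ω b| ≤ Real.exp (1 / (q + 1) * Y.M)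
  hy : Hy σ Y k l a (Real.exp (-(q * Y.M)))
  jj : ((2 : ℝ) ^ J)⁻¹ ≤ Real.exp (-(q * Y.M))
  inf : pb Y.P (fun ω => ¬Real.exp (-(1 / (q + 1) * Y.M)) *
    dn Y.P (fun v => flv J (l v)) (Y.O false a) ω ≤
      dn Y.P (fun v => flv J (l v)) (Y.O false 0) ω) ≤ 1 / (q + 1)

theorem fm_le {c : κ → κ → κ → ℝ} {S : Finset κ} {θ θ' : ℝ} {l : κ → ℝ} (h : Fm c S θ l)
    (e : θ ≤ θ') : Fm c S θ' l := ⟨h.1, fun b x b' y => (h.2 b x b' y).trans e⟩

variable {Ω Λ : ℕ → Type} {σ : St m κ} {S : Bool → Finset κ} {X : ∀ n, Dt m κ (Ω n) (Λ n)}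
  {k : Bool} {f : κ} {l : ∀ n, Ω n → κ → ℝ}

theorem frz (hF : SFrz) (hP : PERT) (hX : L σ S X) (hf : f ∈ S k) {J : ℕ → ℕ}
    (h : ∀ a q, ∀ᶠ n in UF, Cd σ (S k) k f (X n) (l n) (J n) a q) :
    ∃ (X' : ∀ n, Dt m κ (Ω n) (Λ n)) (l' : ℕ → κ → ℝ), L σ S X' ∧ R2 σ S k f X' l' := by
  obtain ⟨P, j, b, h1, h2, h3⟩ := hF m κ Ω Λ (fun _ => κ → ℤ) σ S X
    (fun n ω => flv (J n) (l n ω)) (fun _ _ => True) hX
    (Whp.of_ev (Eventually.of_forall fun _ _ _ => trivial))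
    (fun c hc => Whp.of_ev ((h 0 0).mono fun n z ω hω =>
      (Real.exp_le_one_iff.2 (neg_nonpos.2 (by positivity))).trans (pb_one fun v hv =>
        congrArg _ (z.fn v ((S20.mem_cv hω v).1 hv).1 ω hω ((S20.mem_cv hω v).1 hv).2)).ge))
    fun a c hc ε hε => by
      obtain ⟨q, hq⟩ := exists_nat_one_div_lt (lt_min hc hε)
      refine (h a q).mono fun n z => (pb_mono fun ω hω u v => u (le_trans ?_ v)).trans
        (z.inf.trans (hq.le.trans (min_le_right _ _)))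
      exact mul_le_mul_of_nonneg_right (dl_anti (sM X) (hq.le.trans (min_le_left _ _)) n)
        (S20.dn_pos hω _ _).le
  choose o ho _ using fun n =>
    ex_of_pb (P := P n) (E := fun _ => True) (by rw [pb_true]; exact one_pos)
  refine ⟨_, fun n => l n (o n), h3, hf, fun T => ?_, fun e c hc => ?_, fun a T => ?_⟩
  · obtain ⟨q, hq⟩ := exists_nat_ge T
    filter_upwards [h 0 q, h1] with n z y
    exact (z.fm _ (y _ (ho n)).1).imp_left fun u => fm_le u (dl_anti (sM X) hq n)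
  · obtain ⟨q, hq⟩ := exists_nat_one_div_lt hc
    filter_upwards [h 0 q, h1] with n z y
    rw [dl_inv]
    exact (z.bd _ (y _ (ho n)).1 e).trans
      (ex_le (mul_le_mul_of_nonneg_right hq.le (Nat.cast_nonneg _)))
  · obtain ⟨q, hq⟩ := exists_nat_ge (T + 2)
    obtain ⟨E, e1, e2⟩ := N6.atom_co hX.big hX.fr hX.lo (hX.inc k a)
    filter_upwards [h a q, h 0 0, h1, e1.2 1 one_pos, e2 0, hP m κ Ω Λ σ S X hX P j
      (h1.mono fun n y ω u => (y ω u).1) h2 k a q,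
      G39.big_dl hX.big (1 + 2 * Fintype.card κ) one_pos] with n z z' y u1 u2 u3 u4 ω v s
    have s' : At (X n) k a ω v := ⟨(y _ s.1).1, (y _ s.2.1).1, s.2.2⟩
    rw [dl_inv] at u4
    refine (est (Real.exp_pos _).le (z.hy ω v s') (fun e => ?_)
      (fun e => ((u2 ω v s').2.2.1 e).trans u1)
      (fun e => (z'.bd _ (y _ (ho n)).1 e).trans (by simp)) (u3 ω v s)).trans ?_
    · exact ((norm_le_pi_norm (l n (o n) - l n ω) e).trans (norm_sub_lt_of_flv_eq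
        ((y _ (ho n)).2.2.trans (y _ s.1).2.2.symm)).le).trans z.jj
    · have g1 := Real.one_le_exp (show 0 ≤ 1 * ((X n).M : ℝ) by positivity)
      have g2 := mul_le_mul_of_nonneg_left u4 (mul_pos (Real.exp_pos (-(q * (X n).M)))
        (Real.exp_pos (1 * (X n).M))).le
      have g3 := mul_le_mul_of_nonneg_left g1 (Real.exp_pos (-(q * (X n).M))).le
      refine le_trans (by linarith) (g2.trans ?_)
      rw [← Real.exp_add, ← Real.exp_add]
      exact ex_le (by nlinarith [Nat.cast_nonneg (α := ℝ) (X n).M])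

variable {μ : ℝ}

theorem win (r : R1 σ S k f μ X l) {N : ℕ} (hN : 0 < N) {w : ℚ≥0} (hw : 0 < w) :
    ∃ t : Fin N, ∀ᶠ n in UF,
      ch (X n).P (fun ω => flv ⌈(w : ℝ) * (X n).M⌉₊ (l n ω)) ((X n).O false ((t : ℕ) * w)) -
      ch (X n).P (fun ω => flv ⌈(w : ℝ) * (X n).M⌉₊ (l n ω)) ((X n).O false ((t + 1 : ℕ) * w)) ≤
        Fintype.card κ * (2 * (w * (X n).M) + 7) / N := by
  refine ev_ex ((r.bd w (by exact_mod_cast hw)).mono fun n z => ?_)
  exact (pig (fun t => ch (X n).P (fun ω => flv ⌈(w : ℝ) * (X n).M⌉₊ (l n ω))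
    ((X n).O false (t * w))) hN (ch_nonneg _ _)).imp fun t e => e.trans
      (div_le_div_of_nonneg_right (ent _ (by positivity) z) (Nat.cast_nonneg _))

end BUD

open BUD in
theorem n3BUD : OfBUD := by
  intro hF hP hT m κ _ Ω Λ σ S X hX k f μ l r
  let e : ℕ → ℚ≥0 := fun i => 1 / (i + 1) ^ 3
  let w : ℕ → ℚ≥0 := fun i => 1 / (i + 1) ^ 2
  have e0 : ∀ i, 0 < e i := fun i => by positivity
  choose t ht using fun i : ℕ => win r (N := (i + 1) ^ 2) (by positivity) (w := w i) (by positivity)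
  let Y := fun i n => (X n).idx ((t i : ℕ) * w i) (e i)
  have hY : ∀ i, L σ S (Y i) := fun i => (idx_all _ (e0 i) hX).1
  refine (dg (J := ℚ≥0 × ℕ) (fun j => ((sCF m κ Ω Λ σ S 0).1.comp (S' := fun _ => ℕ)
    fun n i => Y i n).and (cf_ev (S := fun _ => ℕ) fun n i =>
      Cd σ (S k) k f (Y i n) (l n) ⌈(w i : ℝ) * (X n).M⌉₊ j.1 j.2)) ?_).elim
    fun ι h => frz hF hP (h (0, 0)).1 r.mem fun a q => (h (a, q)).2
  rintro ⟨a, q⟩
  have big := fun A : ℝ => (tendsto_natCast_atTop_atTop (R := ℝ)).eventually_ge_atTop A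
  filter_upwards [big a, big (q / μ), big (2 * q), big (8 * Fintype.card κ * (q + 1) ^ 2)]
    with i b1 b2 b3 b4
  refine ⟨hY i, ?_⟩
  obtain ⟨p, hp⟩ : ∃ p : ℝ, p = i + 1 := ⟨_, rfl⟩
  have p1 : 1 ≤ p := by rw [hp]; linarith [Nat.cast_nonneg (α := ℝ) i]
  have ce : (e i : ℝ) = 1 / p ^ 3 := by simp [e, hp]
  have cw : (w i : ℝ) = e i * p := by simp only [ce, w]; push_cast; rw [← hp]; field_simp
  have er : (0 : ℝ) < e i := by exact_mod_cast e0 i
  have ep : (e i : ℝ) * p ≤ 1 := by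
    rw [ce, div_mul_eq_mul_div, div_le_one (by positivity)]
    nlinarith [mul_nonneg (sub_nonneg.2 p1) (show 0 ≤ p ^ 2 + p by positivity)]
  have l1 : (t i : ℕ) * w i + e i * a ≤ (t i + 1 : ℕ) * w i := by
    rw [← NNRat.cast_le (K := ℝ)]
    push_cast
    rw [cw]
    nlinarith
  have l2 : ((t i + 1 : ℕ) : ℚ≥0) * w i ≤ 1 := by
    have : ((t i + 1 : ℕ) : ℚ≥0) ≤ ((i + 1) ^ 2 : ℕ) := Nat.cast_le.2 (t i).2
    simp only [w]
    rw [mul_one_div, div_le_one (by positivity)]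
    exact_mod_cast this
  filter_upwards [ht i, r.fn, hX.nest true 0 ((t i : ℕ) * w i + e i * 0) zero_le, r.fm,
    r.bd (e i / 2 / (q + 1)) (by positivity), r.hy _ (l1.trans l2), (hY i).nest false 0 a zero_le,
    hX.nest false _ _ l1, (hY i).big.ev ((14 * Fintype.card κ + 2) * (q + 1) ^ 2)]
    with n u1 u2 u3 u4 u5 u6 u7 u8 u9
  have m1 : ((Y i n).M : ℝ) ≤ e i * (X n).M := Nat.floor_le (by positivity)
  have m2 : (e i : ℝ) * (X n).M < (Y i n).M + 1 := Nat.lt_floor_add_one _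
  have m0 : (0 : ℝ) ≤ (X n).M := Nat.cast_nonneg _
  have q0 : (0 : ℝ) ≤ q := Nat.cast_nonneg _
  have k0 : (0 : ℝ) ≤ Fintype.card κ := Nat.cast_nonneg _
  have q1 : (1 : ℝ) ≤ (q + 1) ^ 2 := by nlinarith
  have m3 : (2 : ℝ) ≤ (Y i n).M := le_trans (by nlinarith) u9
  have d : dl (sM X) μ n ≤ Real.exp (-(q * (Y i n).M)) := by
    rw [div_le_iff₀ r.pos] at b2
    have h1 : (q : ℝ) * e i ≤ μ := by nlinarith [r.pos]
    exact ex_le (neg_le_neg ((mul_le_mul_of_nonneg_left m1 q0).trans (by nlinarith)))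
  refine ⟨u2.trans u3, fun ω hω => (u4 ω hω).imp_left fun z => fm_le z d,
    fun ω hω b => (u5 ω hω b).trans (ex_le ?_), fun ω v z => (u6 ω v z).trans d, ?_, ?_⟩
  · rw [div_mul_eq_mul_div, div_mul_eq_mul_div 1]
    exact div_le_div_of_nonneg_right (by linarith) (by positivity)
  · rw [Real.exp_neg]
    refine inv_anti₀ (Real.exp_pos _) (le_trans (ex_le ?_) (exp_le_two_pow _))
    have h1 := Nat.le_ceil ((w i : ℝ) * (X n).M)
    have h2 := mul_le_mul_of_nonneg_left m1 q0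
    have h3 := mul_le_mul_of_nonneg_right (show 2 * q ≤ p by linarith) (mul_nonneg er.le m0)
    nth_rewrite 1 [cw] at h1
    linarith
  · have h1 := hT _ _ _ _ (Y i n).P (fun v => flv ⌈(w i : ℝ) * (X n).M⌉₊ (l n v)) _ _
      (1 / (q + 1) * (Y i n).M) u7
    have h2 := ch_anti (F := fun v => flv ⌈(w i : ℝ) * (X n).M⌉₊ (l n v)) u8
    have h3 : sO (Y i) false 0 n = (X n).O false ((t i : ℕ) * w i) := by simp [Y, Dt.idx, sO]
    refine le_of_mul_le_mul_left (h1.trans ?_) (by positivity)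
    rw [h3]
    refine (add_le_add_left ((sub_le_sub_left h2 _).trans u1) 1).trans ?_
    have h4 : (w i : ℝ) * (X n).M ≤ 2 * (Y i n).M * p := by rw [cw]; nlinarith
    have h5 : (Fintype.card κ : ℝ) * (2 * (w i * (X n).M) + 7) / ((i + 1) ^ 2 : ℕ) ≤
        4 * Fintype.card κ * (Y i n).M / p + 7 * Fintype.card κ := by
      push_cast
      rw [← hp, div_le_iff₀ (by positivity), add_mul, div_mul_eq_mul_div, pow_two,
        ← mul_assoc _ p p, mul_div_cancel_right₀ _ (by positivity)]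
      nlinarith [mul_nonneg k0 (show 0 ≤ p * p - 1 by nlinarith)]
    have h6 : 4 * Fintype.card κ * (Y i n).M / p ≤ (Y i n).M / 2 / (q + 1 : ℝ) ^ 2 := by
      rw [div_le_div_iff₀ (by positivity) (by positivity)]
      nlinarith
    have h7 : 7 * Fintype.card κ + 1 ≤ (Y i n).M / 2 / (q + 1 : ℝ) ^ 2 := by
      rw [le_div_iff₀ (by positivity)]
      linarith
    rw [show 1 / (q + 1 : ℝ) * (Y i n).M * (1 / (q + 1)) = 2 * ((Y i n).M / 2 / (q + 1) ^ 2) by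
      field_simp]
    linarith

end Pool.Agent.MP_5168f5_an.AN.N3
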