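import Pool.Agent.MP_5168f5_an.AN.N3Spec

/-! Kakeya sets in all dimensions: the kernel of a frozen form is a smaller algebra. -/

namespace Pool.Agent.MP_5168f5_an.AN.N3

open H19 H17S H17F R4 Filter LC G39 GA GF N6 Finset

namespace N3DropA

variable {κ : Type} [DecidableEq κ] {f : κ} {l : κ → ℝ}

/-- The column of the form. -/
def cl (f : κ) (l : κ → ℝ) : Matrix κ κ ℝ := fun a e => if e = f ∧ a ≠ f then l a else 0

theorem sq [Fintype κ] : cl f l * cl f l = 0 := by
  ext a e
  rw [Matrix.mul_apply]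
  refine sum_eq_zero fun b _ => ?_
  by_cases h : b = f <;> simp [cl, h]

theorem inv [Fintype κ] : (1 - cl f l) * (1 + cl f l) = 1 := by
  rw [mul_add, mul_one, sub_mul, one_mul, sq, sub_zero, sub_add_cancel]

theorem off {a e : κ} (h : a ≠ e) (h' : e ≠ f) : (1 - cl f l) a e = 0 ∧ (1 + cl f l) a e = 0 := by
  simp [cl, h, h']

theorem col (h : l f = 1) (e : κ) : (1 + cl f l) e f = l e := by
  by_cases k : e = f <;> simp [cl, k, h]

theorem pat {wt : κ → ℝ} (h : ∀ b, wt b ≠ wt f → l b = 0) :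
    Pat wt 0 (1 - cl f l) ∧ Pat wt 0 (1 + cl f l) := by
  have k : ∀ a e, wt e ≠ wt a → (1 : Matrix κ κ ℝ) a e = 0 ∧ cl f l a e = 0 := fun a e u =>
    ⟨Matrix.one_apply_ne fun z => u (z ▸ rfl), by
      unfold cl
      split_ifs with z
      exacts [h a fun y => u (by rw [z.1, y]), rfl]⟩
  constructor <;> refine fun a e u => ⟨by_contra fun z => u ?_, le_rfl⟩
  · rw [Matrix.sub_apply, (k a e z).1, (k a e z).2, sub_zero]
  · rw [Matrix.add_apply, (k a e z).1, (k a e z).2, add_zero]

theorem ob {M : ℕ → ℕ} (hM : Big M) {l : ℕ → κ → ℝ} (h : ∀ b, OB M fun n => l n b) (a e : κ) :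
    OB M (fun n => (1 - cl f (l n)) a e) ∧ OB M fun n => (1 + cl f (l n)) a e := by
  have k : OB M fun n => cl f (l n) a e := by
    unfold cl
    split_ifs
    exacts [h a, ob_const hM 0]
  simp only [Matrix.sub_apply, Matrix.add_apply, sub_eq_add_neg]
  exact ⟨ob_add hM (ob_const hM _) (ob_neg hM k), ob_add hM (ob_const hM _) k⟩

end N3DropA

open N3DropA in
theorem n3Drop : OfDROP := by
  intro chg m κ _ Ω Λ σ S X h k f l r
  classical
  have hM := h.big
  let S1 : Bool → Finset κ := fun i => if i = false ∧ k = true then S false else S k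
  have at1 : ∀ i a, ¬(i = false ∧ k = true) → FnE (sP X) (sO X k a) (sO X i a) := fun i a u => by
    cases i <;> cases k
    exacts [h.nest _ a a le_rfl, absurd ⟨rfl, rfl⟩ u, h.com a, h.nest _ a a le_rfl]
  have sk : S k ⊆ S false := by
    cases k
    exacts [subset_rfl, h.ss]
  have f1 : ∀ i, f ∈ S1 i := fun i => by
    simp only [S1]
    split_ifs
    exacts [sk r.mem, r.mem]
  have s1 : S1 true ⊆ S1 false := by
    cases k
    · simp [S1]
    · simpa [S1] using sk
  have h1 : L σ S1 X := by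
    refine ⟨h.cc, h.lo, h.lp, h.wp, s1, hM, h.lv, h.fr, h.bd, fun i => ?_, h.nest, h.com,
      fun i a => ?_, h.crv, h.spr, h.ngv, h.bg, h.gs⟩ <;> simp only [S1] <;> split_ifs with x
    · exact h.sub false
    · exact h.sub k
    · exact x.1 ▸ h.inc false a
    · exact fun ε hε => ((h.inc k a ε hε).and (at1 i a x)).mono fun n y ω u v w z =>
        y.1 ω u v w (y.2 ω u v w z)
  have z0 : ∀ i a e, a ∈ S1 i → e ∉ S1 i → ∀ n, (1 - cl f (l n)) a e = 0 ∧
      (1 + cl f (l n)) a e = 0 := fun i a e x y n =>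
    off (fun z => y (z ▸ x)) fun z => y (z ▸ f1 i)
  have o := ob (f := f) hM r.ob
  have h2 := chg m κ Ω Λ σ S1 S1 X (fun n => 1 - cl f (l n)) (fun n => 1 + cl f (l n)) h1
    ⟨(r.fm 0).mono fun n x => ⟨inv, pat x.2.2⟩, o,
      fun i a e x y => neg_ev (.of_forall fun n => (z0 i a e x y n).1),
      fun i a e x y => neg_ev (.of_forall fun n => (z0 i a e x y n).2), s1⟩
  refine ⟨_, h2.cc, h2.lo, h2.lp, h2.wp, ?_, h2.big, h2.lv, h2.fr, h2.bd, fun i => ?_, h2.nest,
    h2.com, fun i a => ?_, h2.crv, h2.spr, h2.ngv, h2.bg, h2.gs⟩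
  · cases k
    · simp
    · simpa using (erase_subset f _).trans h.ss
  · have y := h2.sub i
    simp only [S1] at y ⊢
    split_ifs at y ⊢ with x
    · exact y
    intro a ha b hb e he
    by_cases c : e = f
    swap
    · exact y a (mem_of_mem_erase ha) b (mem_of_mem_erase hb) e fun z => he (mem_erase.2 ⟨c, z⟩)
    have e1 : ∀ i, S1 i = S k → ∀ a ∈ (S k).erase f, ∀ e, e ∉ S k → ∀ n,
        (1 - cl f (l n)) a e = 0 := fun i u a v e w n =>
      (z0 i a e (u ▸ mem_of_mem_erase v) (u ▸ w) n).1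
    have e2 := e1 i (if_neg x)
    refine (Neg.sum hM univ fun a' _ => Neg.sum hM univ fun b' _ => (?_ : Neg (sM X) fun n =>
      (∑ e, l n e * (X n).c a' b' e) * ((1 - cl f (l n)) a a' * (1 - cl f (l n)) b b'))).congr ?_
    · by_cases u : a' ∈ S k
      · by_cases v : b' ∈ S k
        · exact Neg.mul (fun T => (r.fm T).mono fun n z => z.1.2 a' u b' v)
            (ob_mul hM (o a a').1 (o b b').1)
        · exact neg_ev (.of_forall fun n => by rw [e2 b hb b' v, mul_zero, mul_zero])
      · exact neg_ev (.of_forall fun n => by rw [e2 a ha a' u, zero_mul, mul_zero])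
    · filter_upwards [r.fm 0] with n z
      simp only [c, mC, Matrix.vecMul, dotProduct, col z.2.1, br, sum_mul]
      rw [sum_comm]
      refine sum_congr rfl fun a' _ => ?_
      rw [sum_comm]
      exact sum_congr rfl fun b' _ => sum_congr rfl fun e _ => by ring
  · have y := h2.inc i a
    simp only [S1] at y ⊢
    split_ifs at y ⊢ with x
    · exact y
    intro ε hε
    filter_upwards [y ε hε, at1 i a x, r.hy a (1 / ε), r.fm 0, h.fr] with n y1 y2 y3 y4 fr
      ω u v w z
    obtain ⟨t, b1, b2⟩ := y1 ω u v w z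
    refine ⟨t, fun b => ?_, b2⟩
    by_cases c : b = f
    swap
    · refine (b1 b).trans (le_of_eq ?_)
      simp [LC.rd, c]
    have q := y3 ω v ⟨u, w, y2 ω u v w z⟩
    have e1 : lg (X n).B ((X n).j ω) ((X n).j v) = Matrix.vecMul t (1 - cl f (l n)) := by
      have := ((sFr _ κ σ.Φ (X n).B (X n).c).2 _ _ (inv (f := f) (l := l n))).2.2.1 t
      rw [show (X n).j v = _ from b2, this, (sMul _ _ _ _ _ fr.1).lg _ _ (fr.2.2 ω u)]
    have e2 : ∑ b, l n b * N6.co σ (X n) a ω v b = Real.exp (σ.wt f * (X n).lv a) * t f := by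
      conv_rhs => rw [← Matrix.vecMul_one t, ← inv (f := f) (l := l n), ← Matrix.vecMul_vecMul,
        ← e1]
      simp only [Matrix.vecMul, dotProduct, col y4.2.1, mul_sum, N6.co]
      refine sum_congr rfl fun b _ => ?_
      by_cases s : σ.wt b = σ.wt f
      · rw [s]; ring
      · rw [y4.2.2 b s]; ring
    rw [e2, abs_mul, abs_of_pos (Real.exp_pos _), ← le_div_iff₀' (Real.exp_pos _), dl,
      one_div_mul_eq_div] at q
    rw [c, LC.rd, if_neg (notMem_erase f _)]
    refine q.trans (le_trans (le_of_eq ?_) (le_mul_of_one_le_left (by positivity)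
      (Real.one_le_exp (by positivity))))
    rw [Real.exp_neg (σ.wt f * _), div_eq_inv_mul]

end Pool.Agent.MP_5168f5_an.AN.N3
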