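import Pool.Agent.MP_5168f5_an.AN.N3Spec
import Pool.Agent.MP_5168f5_an.AN.LC2
import Pool.Agent.MP_5168f5_an.AN.C1P

/-! Kakeya sets in all dimensions: removing rare bad atoms. -/

namespace Pool.Agent.MP_5168f5_an.AN.N3

open H19 H17S H17F R4 Filter LC

theorem n3NUL : OfNUL := by
  intro hR m κ _ Ω Λ σ S X hX L₀ h1 hb
  obtain ⟨I, i1, -, i2⟩ := C1.slow_whp (P := sP X) (fun (z : Bool × ℚ≥0 × ℚ≥0) n ω =>
    ¬Bad σ (X n) (S z.1) z.1 z.2.1 (z.2.2 * (X n).M) (z.2.2 * (X n).M / L₀) ω) (fun _ _ => True)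
    (fun z => hb z.1 z.2.1 z.2.2) fun _ => Eventually.of_forall fun _ => trivial
  obtain ⟨G, g1, g2, g3, g4, -⟩ := hR m κ Ω Λ σ S X _ hX fun c hc => by
    filter_upwards [i2 _ one_half_pos, hX.big.ev (1 / c)] with n a b
    rw [pb_not] at a
    rw [div_le_iff₀' hc] at b
    have e1 : G39.dl (sM X) c n ≤ Real.exp (-1) := ex_le (neg_le_neg b)
    have e2 : Real.exp (-1) ≤ 1 / 2 := by
      rw [Real.exp_neg, one_div]
      exact inv_anti₀ two_pos (by linarith [Real.add_one_le_exp 1])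
    linarith
  refine ⟨_, g4, ac_iff.2 fun k a c hc T => ?_⟩
  obtain ⟨q, q0, q1⟩ := exists_rat_btwn (half_pos hc)
  let δ : ℚ≥0 := ⟨q, by exact_mod_cast q0.le⟩
  have d : (δ : ℝ) = q := rfl
  filter_upwards [g2, i2 _ one_half_pos, g3 k a _ (half_pos hc), hX.big.ev 1,
    (eventually_all_finite (Set.finite_Iic ⌊T / q⌋₊)).2 fun i _ => i1 (k, a, i * δ)]
    with n x y z w s ω hω h ht l c₀ l1 l2 l3
  rw [pb_not] at y
  obtain ⟨o1, o2⟩ := (mem_cE (ex_of_pb (by linarith)) ω).1 hω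
  have m0 : (0 : ℝ) < (X n).M := one_pos.trans_le w
  have L0 := one_pos.trans_le h1
  by_cases h0 : h ≤ 0
  · exact (pb_le_one _ _).trans (Real.one_le_exp (sub_nonneg.2
      ((div_nonpos_of_nonpos_of_nonneg h0 L0.le).trans (mul_pos hc m0).le)))
  have p0 := mul_pos q0 m0
  have f1 := Nat.floor_le (div_pos (not_le.1 h0) p0).le
  have f2 := Nat.lt_floor_add_one (h / (q * (X n).M))
  rw [le_div_iff₀ p0] at f1
  rw [div_lt_iff₀ p0] at f2
  have e : ((⌊h / (q * (X n).M)⌋₊ * δ : ℚ≥0) : ℝ) * (X n).M =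
      ⌊h / (q * (X n).M)⌋₊ * (q * (X n).M) := by
    push_cast
    rw [d, mul_assoc]
  have b := g1 n ω o2 _ (s _ (Nat.floor_le_floor (show h / (q * (X n).M) ≤ T / q by
    rw [div_le_div_iff₀ p0 q0]
    nlinarith [mul_le_mul_of_nonneg_right ht q0.le])))
  rw [e] at b
  have f3 := ex_le (neg_le_neg f1)
  refine (pb_res o1 o2 (z ω o1 o2) _).trans ((mul_le_mul_of_nonneg_left ((pb_mono fun v _ u =>
    le_trans u f3).trans (not_lt.1 fun u => b ⟨ω, ⟨o1, o1, rfl⟩, l, c₀,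
      ⟨l1, fun i hi j hj => (l3 i hi j hj).trans f3⟩, l2, u⟩)) (Real.exp_pos _).le).trans ?_)
  rw [← Real.exp_add]
  refine ex_le ?_
  have f4 : (h - ⌊h / (q * (X n).M)⌋₊ * (q * (X n).M)) / L₀ ≤ q * (X n).M :=
    (div_le_self (by linarith) h1).trans (by linarith)
  rw [sub_div] at f4
  simp only [sM]
  nlinarith

end Pool.Agent.MP_5168f5_an.AN.N3
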