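import Pool.Agent.MP_5168f5_an.AN.N3Spec

/-! Kakeya sets in all dimensions: a member of the light class with a form in every atom. -/

namespace Pool.Agent.MP_5168f5_an.AN.N3

open H19 H17S H17F R4 Filter LC
open G39 (dl)
open N6 (co At)

theorem POSA.one {m : ℕ} {κ Ω Λ : Type} [Fintype κ] (σ : St m κ) (X : Dt m κ Ω Λ) (S : Finset κ)
    (k : Bool) (a : ℚ≥0) (h g : ℝ) : ∃ (G : Ω → Prop) (l : Ω → κ → ℝ), Fn X.P l (X.O k a) ∧
      Real.exp (-g) * pb X.P (Bad σ X S k a h g) ≤ pb X.P G ∧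
      (∀ ω, G ω → Fm X.c S (Real.exp (-h)) (l ω) ∧ ∑ b, |l ω b| = 1) ∧
      ∀ ω v, At X k a ω v → G ω → G v → ∃ u, At X k a u ω ∧
        |∑ b, l ω b * co σ X a u v b - ∑ b, l ω b * co σ X a u ω b| ≤ 2 * Real.exp (-h) := by
  obtain ⟨ω₀, -⟩ := ex_of_pb (P := X.P) (E := fun _ => True) (by rw [pb_true]; exact one_pos)
  let B : Λ → Ω × (κ → ℝ) × ℝ → Prop := fun z t => t.1 ∈ X.P.S ∧ X.O k a t.1 = z ∧
    Fm X.c S (Real.exp (-h)) t.2.1 ∧ ∑ b, |t.2.1 b| = 1 ∧ Real.exp (-g) < pb (cv X.P (X.O k a) z)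
      fun v => |∑ b, t.2.1 b * co σ X a t.1 v b - t.2.2| ≤ Real.exp (-h)
  have : Nonempty (Ω × (κ → ℝ) × ℝ) := ⟨ω₀, 0, 0⟩
  choose! t ht using fun z (e : ∃ t, B z t) => e
  let E : Λ → Ω → Prop := fun z v =>
    B z (t z) ∧ |∑ b, (t z).2.1 b * co σ X a (t z).1 v b - (t z).2.2| ≤ Real.exp (-h)
  refine ⟨fun ω => E (X.O k a ω) ω, fun ω => (t (X.O k a ω)).2.1, fun _ _ _ _ e => by
    simp only [e], ?_, fun ω e => ⟨e.1.2.2.1, e.1.2.2.2.1⟩, fun ω v e p q =>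
      ⟨_, ⟨p.1.1, e.1, p.1.2.1⟩, ?_⟩⟩
  · rw [S20.pb_tot X.P (X.O k a) E, G39.pb_ind, ← FP.E_mul]
    refine X.P.E_mono fun ω _ => ?_
    by_cases e : Bad σ X S k a h g ω
    · rw [G39.ind_pos e, mul_one]
      obtain ⟨u, e1, l, c, e2⟩ := e
      have b := ht (X.O k a ω) ⟨(u, l, c), e1.1, e1.2.2, e2⟩
      exact b.2.2.2.2.le.trans (pb_mono fun v _ d => ⟨b, d⟩)
    · rw [G39.ind_neg e, mul_zero]
      exact pb_nonneg _ _
  · have q2 := q.2
    rw [← e.2.2] at q2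
    exact (abs_sub_le _ _ _).trans (by rw [abs_sub_comm (t _).2.2]; linarith [p.2])

theorem n3POS : OfPOS := by
  intro res add m κ _ Ω Λ σ S X hX k h
  choose a η h using h
  have e0 : ∀ i, 0 < η i := fun i => pos_of_ne_zero fun e => by
    obtain ⟨n, ω, -, u, -, l, c, -, -, b⟩ := (h i).ex.exists
    rw [e, NNRat.cast_zero, zero_mul, zero_div, neg_zero, Real.exp_zero] at b
    exact b.not_ge (pb_le_one _ _)
  have hY := fun i => (idx_all (a i) (e0 i) hX).1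
  choose G l g1 g2 g3 g4 using fun i n => POSA.one σ ((X n).idx (a i) (η i)) (S k) k 0
    (η i * (X n).M) (η i * (X n).M / (i + 1))
  let T := fun n => Dt m κ (Ω n) (Λ n) × (Ω n → Prop) × (Ω n → κ → ℝ)
  let p : ℕ → ∀ n, T n → Prop := fun i n y => Fn y.1.P y.2.2 (y.1.O k 0) ∧
    (∀ ω, y.2.1 ω → Fm y.1.c (S k) (Real.exp (-(1 * y.1.M))) (y.2.2 ω) ∧ ∑ b, |y.2.2 ω b| = 1) ∧
    (∀ ω v, At y.1 k 0 ω v → y.2.1 ω → y.2.1 v →
      |∑ b, y.2.2 ω b * co σ y.1 0 ω v b| ≤ Real.exp (-(1 / 2 * y.1.M))) ∧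
    Real.exp (-(2 / (i + 1) * y.1.M)) ≤ pb y.1.P y.2.1
  obtain ⟨j, -, hj⟩ := cf_diag (K := fun i (Y : ∀ n, T n) =>
      L σ S (fun n => (Y n).1) ∧ ∀ᶠ n in UF, p i n (Y n))
    (fun i => ((sCF m κ Ω Λ σ S 1).1.comp (S' := T) fun _ y => y.1).and (cf_ev (p i)))
    (fun i n => ((X n).idx (a i) (η i), G i n, l i n)) fun i i' hi => ⟨hY i, by
      obtain ⟨c, c0, hc⟩ := h i
      filter_upwards [hc, add m κ Ω Λ σ S _ (hY i) k 0 (1 / 4) 1 (by norm_num),
        (hY i).big.ev (4 * Real.log 3), (hY i).big.ev (1 - (i + 1) * Real.log c)] with n b ad b1 b2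
      have f1 : (((X n).idx (a i) (η i)).M : ℝ) ≤ η i * (X n).M := Nat.floor_le (by positivity)
      have f2 : η i * (X n).M < (((X n).idx (a i) (η i)).M : ℝ) + 1 := Nat.lt_floor_add_one _
      have f3 := ex_le (neg_le_neg ((one_mul _).trans_le f1))
      have fm := fun ω e => (g3 i n ω e).imp_left fun u =>
        (⟨u.1, fun b x b' y => (u.2 b x b' y).trans f3⟩ : Fm _ (S k) _ (l i n ω))
      refine ⟨g1 i n, fm, fun ω v e u w => ?_, le_trans ?_ (g2 i n)⟩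
      · obtain ⟨z, z1, z2⟩ := g4 i n ω v e u w
        have z3 := ad z ω v z1 (z1.trans e) _ _ le_rfl (fun b => (Finset.single_le_sum
          (fun b _ => abs_nonneg (l i n ω b)) (Finset.mem_univ b)).trans_eq (fm ω u).2) (fm ω u).1
        rw [abs_sub_comm, dl, ← Real.exp_add] at z3
        have m0 := Nat.cast_nonneg (α := ℝ) ((X n).idx (a i) (η i)).M
        dsimp only [sM] at z3 b1 ⊢
        generalize (((X n).idx (a i) (η i)).M : ℝ) = r at *
        have z4 : Real.exp (-(1 * r)) ≤ Real.exp (1 / 4 * r + -(1 * r)) := ex_le (by linarith)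
        have z5 : 3 * Real.exp (1 / 4 * r + -(1 * r)) ≤ Real.exp (-(1 / 2 * r)) := by
          rw [← Real.exp_log (by norm_num : (0 : ℝ) < 3), ← Real.exp_add]
          exact ex_le (by linarith)
        linarith [abs_sub_abs_le_abs_sub _ _ |>.trans z3]
      · have e : a i = a i + η i * 0 := by simp
        rw [e] at b
        refine le_trans ?_ (mul_le_mul_of_nonneg_left b (Real.exp_pos _).le)
        rw [← Real.exp_log c0, ← Real.exp_add]
        refine ex_le ((neg_le_neg (mul_le_mul_of_nonneg_right (div_le_div_of_nonneg_left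
          zero_le_two (by positivity) (by exact_mod_cast Nat.succ_le_succ hi :
            (i' + 1 : ℝ) ≤ i + 1)) (Nat.cast_nonneg _))).trans ?_)
        rw [div_mul_eq_mul_div, ← neg_div, ← neg_div, div_add' _ _ _ (by positivity)]
        exact div_le_div_of_nonneg_right (by dsimp only [sM] at b2 ⊢; linarith) (by positivity)⟩
  obtain ⟨G', a1, a2, -, a3, -⟩ := res m κ Ω Λ σ S _ (fun n => G (j n) n) (hj 0).1 fun c hc => by
    obtain ⟨i, hi⟩ := exists_nat_one_div_lt (half_pos hc)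
    exact (hj i).2.mono fun n u => (ex_le (neg_le_neg (mul_le_mul_of_nonneg_right
      (by rw [div_eq_mul_one_div]; linarith) (Nat.cast_nonneg _)))).trans u.2.2.2
  have ex : ∀ᶠ n in UF, ∀ ω ∈ (cE (X n).P (G' n)).S, G (j n) n ω :=
    ((hj 0).2.and a2).mono fun n u ω hω => a1 n ω ((mem_cE (ex_of_pb (pos_of_mul_pos_right
      ((Real.exp_pos _).trans_le (u.1.2.2.2.trans u.2)) zero_le_two)) ω).1 hω).2
  exact ⟨_, fun n => l (j n) n, a3, FnE.cE ((hj 0).2.mono fun n u => u.1) G',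
    ((hj 0).2.and ex).mono fun n u ω hω => u.1.2.1 ω (u.2 ω hω),
    ((hj 0).2.and ex).mono fun n u ω v e => u.1.2.2.1 ω v ⟨cE_sub e.1, cE_sub e.2.1, e.2.2⟩
      (u.2 ω e.1) (u.2 v e.2.1)⟩

end Pool.Agent.MP_5168f5_an.AN.N3
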