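import Pool.Agent.MP_5168f5_an.AN.N3Spec
import Pool.Agent.MP_5168f5_an.AN.Cd

/-! Kakeya sets in all dimensions: the tail of the information density. -/

namespace Pool.Agent.MP_5168f5_an.AN.N3

open H19 H17S H17F R4 Filter
open S20 (dn dn_pos ch_dn)

theorem E_ratio {Ω α β γ : Type} {P : FP Ω} (Y : Ω → α) {A : Ω → β} {A' : Ω → γ}
    (e : Fn P A A') : P.E (fun ω => dn P Y A ω / dn P Y A' ω) ≤ 1 := by
  classical
  have k := KEA.exp P A' fun b v => dn P Y A v / pb (cv P A' b) fun u => Y u = Y v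
  refine k.trans_le ((P.E_mono fun a ha => ?_).trans_eq (P.E_const 1))
  have h1 := Cx.E_val (P := cv P A (A a)) (Y := Y) (P.S.image Y)
    (fun v hv => Finset.mem_image_of_mem Y (cE_sub hv)) fun _ => 1
  have h2 := Cx.E_val (P := cv P A' (A' a)) (Y := Y) (P.S.image Y)
    (fun v hv => Finset.mem_image_of_mem Y (cE_sub hv)) fun c =>
      (pb (cv P A (A a)) fun u => Y u = c) / pb (cv P A' (A' a)) fun u => Y u = c
  rw [FP.E_const] at h1
  refine (FP.E_congr _ fun v hv => ?_).trans_le (h2.trans_le ((Finset.sum_le_sum fun c _ => ?_).trans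
    h1.ge))
  · obtain ⟨b1, b2⟩ := (S20.mem_cv ha v).1 hv
    simp only [dn, e v b1 a ha b2]
  · rw [one_mul, div_mul_comm]
    exact mul_le_of_le_one_left (pb_nonneg _ _) (div_le_one_of_le₀ le_rfl (pb_nonneg _ _))

theorem n3Tail : TAIL := by
  intro Ω α β γ P Y A A' t e
  rw [ch_dn, ch_dn, ← FP.E_sub, G39.pb_ind, ← FP.E_mul]
  refine le_trans (P.E_mono (G := fun ω => (-Real.log (dn P Y A ω) - -Real.log (dn P Y A' ω)) +
    dn P Y A ω / dn P Y A' ω) fun ω hω => ?_) (by rw [FP.E_add]; linarith [E_ratio Y e])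
  have a := dn_pos hω Y A
  have b := dn_pos hω Y A'
  have c := Real.log_le_sub_one_of_pos (div_pos a b)
  rw [Real.log_div a.ne' b.ne'] at c
  by_cases k : Real.exp (-t) * dn P Y A' ω ≤ dn P Y A ω
  · rw [G39.ind_neg (not_not.2 k)]; linarith
  · have d := Real.log_le_log a (not_le.1 k).le
    rw [Real.log_mul (Real.exp_pos _).ne' b.ne', Real.log_exp] at d
    rw [G39.ind_pos k]; linarith [div_pos a b]

end Pool.Agent.MP_5168f5_an.AN.N3
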