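import Pool.Agent.MP_5168f5_an.AN.TGSpec
import Pool.Agent.MP_5168f5_an.AN.GAAll
import Pool.Agent.MP_5168f5_an.AN.GAAbel

/-! Close points have close live coordinates; a form that kills brackets is additive. -/

namespace Pool.Agent.MP_5168f5_an.AN.TG

open H19 H17S H17F G39 GA Filter H61Z

namespace TGLipA

variable {κ : Type} {D : κ → ℝ} {s : ℝ} {S : κ → Prop} {a : κ}

theorem pos (D : κ → ℝ) (a : κ) : 0 < rA D a := Real.exp_pos _

theorem on (h : S a) : rA (up D s S) a = rA D a * Real.exp (-s) := by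
  simp only [rA, up, if_pos h, ← Real.exp_add]; congr 1; ring

theorem off (h : ¬S a) : rA (up D s S) a = rA D a := by simp only [rA, up, if_neg h]

theorem idl {c : κ → κ → κ → ℝ} {L T U : ℝ} (hL : 1 ≤ L) (h0 : 0 ≤ s) (hs : s ≤ U)
    (hD : ∀ a, |D a| ≤ T) (h : Idl c (rA D) (rA D) L)
    (hc : ∀ a b e, S e → ¬S b → |c a b e| ≤ Real.exp (-(3 * T + U))) :
    Idl c (rA D) (rA (up D s S)) L := fun a b e => by
  have p := pos D a
  have q := Real.exp_pos (-s)
  by_cases he : S e <;> by_cases hb : S b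
  · rw [on he, on hb, ← mul_assoc, ← mul_assoc]
    exact mul_le_mul_of_nonneg_right (h a b e) q.le
  · rw [off hb]
    refine le_trans ?_ (le_mul_of_one_le_left (pos _ e).le hL)
    refine (mul_le_mul_of_nonneg_right (mul_le_mul_of_nonneg_right (hc a b e he hb) p.le)
      (pos D b).le).trans ?_
    simp only [rA, up, if_pos he, ← Real.exp_add]
    exact Real.exp_le_exp.2 (by
      linarith [abs_le.1 (hD a), abs_le.1 (hD b), abs_le.1 (hD e)])
  · rw [off he, on hb]
    refine le_trans (mul_le_mul_of_nonneg_left (mul_le_of_le_one_right (pos D b).le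
      (Real.exp_le_one_iff.2 (by linarith))) (by positivity)) (h a b e)
  · rw [off he, off hb]; exact h a b e

end TGLipA

open TGLipA in
theorem tgLip : SLip := by
  intro ι κ _ _ _ Φ om ps x h D L ⟨L₁, s1, e1⟩ ⟨T, hT⟩ hL
  obtain ⟨K₁, k1, h1⟩ := sNr Φ.N (Fintype.card κ)
  obtain ⟨K₂, k2, h2⟩ := gaAbel Φ.N (Fintype.card κ)
  have hM := h.alg.big
  have s0 := hL.mul s1
  have s2 := (sub_box hM s0 k1).mul hL
  have s3 := sub_box hM s0 k2
  refine ⟨_, s2.mul s3, fun K => ?_⟩
  have ng : ∀ᶠ n in UF, ∀ a b e, om e ≠ 0 → ¬om b ≠ 0 →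
      |(x n).c a b e| ≤ dl (un x) (3 * T + K) n :=
    eventually_all.2 fun a => eventually_all.2 fun b => eventually_all.2 fun e =>
      eventually_all.2 fun he => eventually_all.2 fun hb =>
        h.alg.hom a b e he (fun k => hb k.2.1) _
  filter_upwards [h.alg.fr, e1, hT, ng] with n fr ⟨_, id, _⟩ hD ng p y z hp hy hz
  have l0 := s0.1 n
  have l1 : L n ≤ L n * L₁ n := le_mul_of_one_le_right (hL.pos n).le (s1.1 n)
  have r0 := fun a => (pos (D n) a).le
  have id' : Idl (x n).c (rA (D n)) (rA (D n)) (L n * L₁ n) := fun a b e => (id a b e).trans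
    (mul_le_mul_of_nonneg_right (le_mul_of_one_le_left (s1.pos n).le (hL.1 n)) (r0 e))
  obtain ⟨u, hu, rfl⟩ := hy
  obtain ⟨v, hv, ez⟩ := hz
  have hu' := GABoxA.mono hu r0 l1
  have hv' := GABoxA.mono hv r0 l1
  refine ⟨fun s t0 t1 hn a ha => ?_, fun l τ t0 _ hl => ?_⟩
  · have q := (h1 ι κ Φ (x n).B (x n).c (rA (D n)) _ _ (L n) p _ z rfl le_rfl fr l0 (hL.pos n).le
      (fun a => ⟨r0 a, (pos _ a).le⟩) id' (idl l0 t0 t1 hD id' fun a b e he hb =>
        (ng a b e he hb).trans_eq (by unfold dl; congr 1; ring))).2.2.2.2 hp ⟨u, hu', rfl⟩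
      ⟨v, hv', ez⟩ hn a
    beta_reduce at q
    rw [on (S := fun a => om a ≠ 0) ha, Pi.sub_apply] at q
    rw [← sub_div, abs_div, abs_of_pos (pos _ a), div_le_iff₀ (pos _ a)]
    refine q.trans (le_of_eq_of_le (by ring) (mul_le_mul_of_nonneg_right
      (mul_le_mul_of_nonneg_right (le_mul_of_one_le_right (s2.pos n).le (s3.1 n))
        (Real.exp_pos (-s)).le) (r0 a)))
  · have m := sMul ι κ Φ _ _ fr
    have uy : IsUnit (p * ex (x n).B u) := hp.mul (IsUnit.of_mul_eq_one _ (m.neg u).2)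
    have q := (h2 κ (x n).c (rA (D n)) (fun a => l a / rA (D n) a) _ τ u v u v le_rfl l0 t0 r0 id'
      (fun a b => le_of_eq_of_le (by
        rw [← abs_of_nonneg (r0 a), ← abs_of_nonneg (r0 b), ← abs_mul, ← abs_mul, dotProduct,
          Finset.sum_mul, Finset.sum_mul]
        exact congrArg _ (Finset.sum_congr rfl fun e _ => by unfold sC; ring)) (hl a b))
      hu' hv' hu' hv').1
    rw [ez, m.lg _ _ uy, m.lg _ _ hp, mul_assoc, m.mul, m.lg _ _ hp]
    refine le_trans (le_of_eq (congrArg _ ?_)) (q.trans (mul_le_mul_of_nonneg_right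
      (le_mul_of_one_le_left (s3.pos n).le (s2.1 n)) t0))
    simp only [dotProduct, Pi.sub_apply, ← Finset.sum_sub_distrib]
    exact Finset.sum_congr rfl fun e _ => by ring

end Pool.Agent.MP_5168f5_an.AN.TG
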