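import Pool.Agent.MP_5168f5_an.AN.N6Spec2
import Pool.Agent.MP_5168f5_an.AN.TGAtom
import Pool.Agent.MP_5168f5_an.AN.TGLip

/-! Kakeya sets in all dimensions: the small ball bound on the chamber. -/

namespace Pool.Agent.MP_5168f5_an.AN.N6

open H19 H17S H17F G39 Filter H61Z GA GF R4 LC S20 Finset

namespace N6AcsA

variable {m : ℕ} {κ : Type} [Fintype κ] [DecidableEq κ] {Ω Λ : ℕ → Type} {σ : St m κ}
  {S : Bool → Finset κ} {L₀ : ℝ} {t : κ → ℝ} {pos : κ → Prop} {Lm : ℕ → κ → Fin m → ℝ}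
  {X : ∀ n, Dt m κ (Ω n) (Λ n)} {D : ℕ → κ → ℝ} {d : κ → ℝ}

/-- The level that belongs to a point of the chamber. -/
theorem lev (b : LB σ S L₀ t pos Lm X) (k : Bool) {x : ℚ × ℚ} (h1 : 0 ≤ x.1) (h2 : x.1 ≤ x.2) :
    ∃ a : ℚ≥0, (∀ e ∈ S k, dep (oN (wA σ.wt t) (tA t)) (x.1, x.2) e ≤ σ.wt e * a) ∧
      ∀ e, TG.Pu (oN (wA σ.wt t) (tA t)) k e →
        e ∈ S k ∧ dep (oN (wA σ.wt t) (tA t)) (x.1, x.2) e = σ.wt e * a := by
  have h3 : (x.1 : ℝ) ≤ x.2 := by exact_mod_cast h2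
  have al : ∀ e, 0 ≤ t e → oN (wA σ.wt t) (tA t) e = (t e, σ.wt e - t e) := fun e u => by
    simp [oN, wA, tA, u]
  have dd : ∀ e, ¬0 ≤ t e → oN (wA σ.wt t) (tA t) e = (0, 0) := fun e u => by
    simp [oN, wA, tA, u, (not_le.1 u).le]
  cases k
  · refine ⟨⟨x.2, h1.trans h2⟩, fun e u => ?_, fun e u => ?_⟩
    · have z := (b.sf e).1 u
      simp only [dep, al e z, NNRat.cast_mk]
      nlinarith [mul_le_mul_of_nonneg_left h3 z]
    · have z : 0 ≤ t e := by_contra fun z => by simp [TG.Pu, P2, dd e z] at u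
      simp only [TG.Pu, cond, P2, al e z] at u
      refine ⟨(b.sf e).2 z, ?_⟩
      simp only [dep, al e z, NNRat.cast_mk, u.1]; ring
  · have k1 : ∀ e, t e = σ.wt e → dep (oN (wA σ.wt t) (tA t)) (x.1, x.2) e =
        σ.wt e * ((⟨x.1, h1⟩ : ℚ≥0) : ℝ) := fun e u => by
      simp only [dep, al e (u ▸ (b.wp e).le), u, sub_self, zero_mul, add_zero]
    refine ⟨⟨x.1, h1⟩, fun e u => (k1 e ((b.st e).1 u)).le, fun e u => ?_⟩
    have z : 0 ≤ t e := by_contra fun z => by simp [TG.Pu, P1, dd e z] at u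
    simp only [TG.Pu, cond, P1, al e z] at u
    have y : t e = σ.wt e := by linarith [u.2]
    exact ⟨(b.st e).2 y, k1 e y⟩

theorem gam (b : LB σ S L₀ t pos Lm X) (hD : Cl (sM X) D d) (a : ℚ≥0) {δ : ℝ} (hδ : 0 < δ) :
    ∀ᶠ n in UF, ∀ e, |D n e - σ.wt e * ((X n).lv a - (X n).lv 0) - (d e - σ.wt e * a) * (X n).M| ≤
      δ * (X n).M := by
  obtain ⟨K, hK⟩ := hD
  refine eventually_all.2 fun e => ?_
  have w := b.wp e
  filter_upwards [hK, b.big.sm K _ (half_pos hδ), (b.lv a).1 (δ / 2 / σ.wt e) (by positivity),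
    (b.lv a).2 (δ / 2 / σ.wt e) (by positivity)] with n u v y z
  have y1 := mul_le_mul_of_nonneg_left y w.le
  have z1 := mul_le_mul_of_nonneg_left z w.le
  rw [mul_add, ← mul_assoc _ (δ / 2 / σ.wt e), mul_div_cancel₀ _ w.ne'] at y1 z1
  have := abs_le.1 (u e)
  exact abs_le.2 ⟨by linarith [this.1], by linarith [this.2]⟩

omit [DecidableEq κ] in
theorem co0 {Ω Λ : Type} (X : Dt m κ Ω Λ) (D : κ → ℝ) (a : ℚ≥0) (ω v : Ω) (e : κ) :
    co σ X 0 ω v e / TG.rA D e =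
      Real.exp (D e - σ.wt e * (X.lv a - X.lv 0)) * co σ X a ω v e := by
  simp only [co, TG.rA]
  rw [Real.exp_neg, div_inv_eq_mul, mul_right_comm, ← mul_assoc, ← Real.exp_add, ← Real.exp_add]
  congr 2; ring

omit [DecidableEq κ] in
theorem ex0 {Ω Λ : Type} {X : Dt m κ Ω Λ} {a : ℚ≥0} {ω v : Ω}
    (h : X.j v = X.j ω * ex (Bl σ X a) (co σ X a ω v)) (a' : ℚ≥0) :
    X.j v = X.j ω * ex (Bl σ X a') (co σ X a' ω v) := by
  unfold co at h ⊢
  rwa [ex_Bl] at h ⊢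

/-- An atom lies in a box. -/
theorem nr (b : LB σ S L₀ t pos Lm X) (hD : Cl (sM X) D d) {k : Bool} {a : ℚ≥0}
    (h : ∀ e ∈ S k, d e ≤ σ.wt e * a) : ∃ L, Sub (sM X) L ∧ ∀ᶠ n in UF, ∀ ω v, At (X n) k a ω v →
      Nr (Bl σ (X n) 0) (TG.rA (D n)) (L n) ((X n).j ω) ((X n).j v) := by
  obtain ⟨L, hL, k1⟩ := atom_co b.big b.fr b.lo (b.inc k a)
  refine (sub_iff (p := fun n L => ∀ ω v, At (X n) k a ω v →
    Nr (Bl σ (X n) 0) (TG.rA (D n)) L ((X n).j ω) ((X n).j v))).2 fun ε hε => ?_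
  filter_upwards [k1 (‖d‖ + ε), gam b hD a (half_pos hε), hL.2 _ (half_pos hε)] with n x y z
  have m0 : (0 : ℝ) ≤ (X n).M := Nat.cast_nonneg _
  refine ⟨_, Real.one_le_exp (by positivity), le_rfl, fun ω v u =>
    ⟨_, fun e => ?_, ex0 (x ω v u).1 0⟩⟩
  have p := TG.TGZmA.rA_pos (D n) e
  have y1 := (abs_le.1 (y e)).2
  rw [← div_le_iff₀ p, ← abs_of_pos p, ← abs_div, co0 _ _ a, abs_mul, abs_of_pos (Real.exp_pos _)]
  by_cases c : e ∈ S k
  · refine (mul_le_mul_of_nonneg_left (((x ω v u).2.2.1 e).trans z) (Real.exp_pos _).le).trans ?_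
    rw [← Real.exp_add, Real.exp_le_exp]
    nlinarith [mul_le_mul_of_nonneg_right (h e c) m0]
  · refine (mul_le_mul_of_nonneg_left ((x ω v u).2.2.2 e c) (Real.exp_pos _).le).trans ?_
    rw [dl, ← Real.exp_add, Real.exp_le_exp]
    have q : d e - σ.wt e * a ≤ ‖d‖ := by
      linarith [(le_abs_self _).trans (norm_le_pi_norm d e),
        mul_nonneg (b.wp e).le (NNRat.cast_nonneg (α := ℝ) a)]
    nlinarith [mul_le_mul_of_nonneg_right q m0]

theorem par {η ρ ε : ℝ} (h1 : 1 ≤ L₀) (hη : 0 < η) (hε : 0 < ε) : ∃ δ : ℝ, 0 < δ ∧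
    δ * (η - 3 * δ) ≤ 1 ∧ 0 < (η - 3 * δ) / L₀ - δ ∧
      (ρ + 2 * δ) / ((η - 3 * δ) / L₀ - δ) ≤ L₀ * ρ / η + ε := by
  have p : 0 < (η - 3 * 0) / L₀ - 0 := by simp only [mul_zero, sub_zero]; positivity
  have c1 : ContinuousAt (fun δ : ℝ => δ * (η - 3 * δ)) 0 := by fun_prop
  have c2 : ContinuousAt (fun δ : ℝ => (η - 3 * δ) / L₀ - δ) 0 := by fun_prop
  have c3 : ContinuousAt (fun δ : ℝ => (ρ + 2 * δ) / ((η - 3 * δ) / L₀ - δ)) 0 :=
    ContinuousAt.div (by fun_prop) c2 p.ne'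
  obtain ⟨δ, u, v⟩ := ((((c1.eventually (ge_mem_nhds (show _ < (1 : ℝ) by simp))).and
    ((c2.eventually (lt_mem_nhds p)).and (c3.eventually (ge_mem_nhds
      (show _ < L₀ * ρ / η + ε by
        simp only [mul_zero, sub_zero, add_zero]
        rw [div_div_eq_mul_div, mul_comm]; linarith))))).filter_mono
    (nhdsWithin_le_nhds (s := Set.Ioi 0))).and self_mem_nhdsWithin).exists
  exact ⟨δ, v, u⟩

end N6AcsA

open N6AcsA in
theorem n6Acs : SAcs := by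
  intro m κ _ _ Ω Λ σ S L₀ t pos Lm X E L W Q b w ca atc k x D η ρ ε h1 h2 g hD hη hρ hε
  obtain ⟨a, a1, a2⟩ := lev b k h1 h2
  obtain ⟨L1, s1, n1⟩ := nr b hD a1
  obtain ⟨δ, d0, d1, d2, d3⟩ := par (ρ := ρ) b.one hη hε
  obtain ⟨L2, s2, lp⟩ := TG.tgLip _ κ σ.Φ _ pos (sy σ X) ca.toG0 D L1
    (GO.GOh1A.idr sIdR b.big b.oc g (hD.ap b.big)) (by
      obtain ⟨K, hK⟩ := hD
      refine ⟨‖dep (oN (wA σ.wt t) (tA t)) (x.1, x.2)‖ + 1, ?_⟩
      filter_upwards [hK, b.big.ev K] with n u v e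
      have y := mul_le_mul_of_nonneg_right (norm_le_pi_norm
        (dep (oN (wA σ.wt t) (tA t)) (x.1, x.2)) e) (Nat.cast_nonneg (α := ℝ) (X n).M)
      have z := abs_sub_abs_le_abs_sub (D n e)
        (dep (oN (wA σ.wt t) (tA t)) (x.1, x.2) e * (X n).M)
      rw [abs_mul, Nat.abs_cast] at z
      rw [Real.norm_eq_abs] at y
      linarith [u e]) s1
  obtain ⟨K, -, ce⟩ := sCell σ.Φ.N (Fintype.card κ)
  obtain ⟨L3, -, at1⟩ := atom_co b.big b.fr b.lo (b.inc k a)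
  filter_upwards [atc k a D _ hD g a1 δ d0, b.ac k a δ d0, b.fr, n1, lp 0, gam b hD a d0, at1 0,
    ((b.big.sub le_rfl).add s2 b.big).2 _ (show 0 < 2 * δ by positivity), b.big.sm lg δ d0,
    b.big.ev 1] with n u1 u2 fr u3 u4 u5 u6 u7 u8 u9
  have m0 : (0 : ℝ) < (X n).M := by linarith
  have f0 := fr_Bl fr 0
  have mu := sMul _ _ _ _ _ f0
  have r0 := TG.TGZmA.rA_pos (D n)
  refine ac_mono (TG.ac_atom (sy σ X n) (D n) _ _ (ρ * (X n).M)
    (((η - 3 * δ) / L₀ - δ) * (X n).M) _ ((X n).O k a) (mul_pos d2 m0) u1 fun ω hω l c0 ht => ?_)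
    le_rfl le_rfl (le_trans ?_ d3)
  swap
  · rw [div_le_div_iff₀ (mul_pos d2 m0) d2]
    nlinarith [mul_le_mul_of_nonneg_right u8 d2.le]
  set γ : κ → ℝ := fun e => Real.exp (D n e - σ.wt e * ((X n).lv a - (X n).lv 0)) with hγ
  have γ0 : ∀ e, 0 < γ e := fun e => Real.exp_pos _
  have γ1 : ∀ e ∈ S k, γ e ≤ Real.exp (δ * (X n).M) := fun e c => Real.exp_le_exp.2 (by
    nlinarith [mul_le_mul_of_nonneg_right (a1 e c) m0.le, (abs_le.1 (u5 e)).2])
  set ν := ∑ e, |l e * γ e| with hν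
  have ν1 : Real.exp (-(δ * (X n).M)) ≤ ν := by
    obtain ⟨e, he⟩ := ht.one
    have c := a2 e (by_contra fun z => by simp [ht.sup e z] at he)
    refine le_trans ?_ (single_le_sum (f := fun e => |l e * γ e|) (fun _ _ => abs_nonneg _)
      (mem_univ e))
    rw [abs_mul, he, one_mul, abs_of_pos (γ0 e), Real.exp_le_exp]
    have := (abs_le.1 (u5 e)).1
    rw [c.2] at this
    linarith
  have ν0 : 0 < ν := (Real.exp_pos _).trans_le ν1
  have nu : ∀ y : ℝ, |y| ≤ Real.exp (2 * δ * (X n).M) * Real.exp (-(η * (X n).M)) →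
      |y / ν| ≤ Real.exp (-((η - 3 * δ) * (X n).M)) := fun y z => by
    rw [abs_div, abs_of_pos ν0, div_le_iff₀ ν0]
    refine z.trans (le_trans (le_of_eq ?_) (mul_le_mul_of_nonneg_left ν1 (Real.exp_pos _).le))
    rw [← Real.exp_add, ← Real.exp_add]; congr 1; ring
  have cn := (ce _ κ σ.Φ _ _ (TG.rA (D n)) (TG.rA (D n)) 1 rfl le_rfl f0 le_rfl
    fun e => ⟨r0 e, (one_mul _).ge⟩).1 ((X n).j ω)
  have k1 := u2 ω hω ((η - 3 * δ) * (X n).M) (by rw [le_div_iff₀ d0]; nlinarith)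
    (fun e => l e * γ e / ν) ((c0 - ∑ e, l e * (lg (Bl σ (X n) 0) ((sy σ X n).C (D n) ω)
      ((X n).j ω) e / TG.rA (D n) e)) / ν)
    (fun e c => by rw [ht.sup e fun z => c (a2 e z).1, zero_mul, zero_div])
    (by simp only [abs_div, abs_of_pos ν0]; rw [← sum_div, div_self ν0.ne']) fun i hi j hj => by
      have e1 : ∑ e, l e * γ e / ν * (X n).c i j e =
          γ i * γ j * (∑ e, sC (TG.rA (D n)) (X n).c i j e * l e) / ν := by
        rw [mul_sum, sum_div]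
        refine sum_congr rfl fun e _ => ?_
        by_cases c : (X n).c i j e = 0
        · simp [sC, c]
        · have : γ e = γ i * γ j * (TG.rA (D n) i * TG.rA (D n) j / TG.rA (D n) e) := by
            simp only [hγ, TG.rA, ← Real.exp_add, ← Real.exp_sub, (gr_of fr).hc i j e c]
            congr 1; ring
          rw [this, sC]; ring
      rw [e1]
      refine nu _ ?_
      rw [abs_mul, abs_of_pos (mul_pos (γ0 i) (γ0 j))]
      refine mul_le_mul ((mul_le_mul (γ1 i hi) (γ1 j hj) (γ0 j).le (Real.exp_pos _).le).trans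
        (le_of_eq ?_)) (ht.kill i j) (abs_nonneg _) (Real.exp_pos _).le
      rw [← Real.exp_add]; congr 1; ring
  refine ((pb_mono fun v hv z => ?_).trans k1).trans (le_of_eq (by congr 1; ring))
  have av : At (X n) k a ω v := (mem_fb hω).1 hv
  obtain ⟨s, bs, es⟩ := cn
  have up : IsUnit ((sy σ X n).C (D n) ω) := by
    have := fr.2.2 ω hω
    rw [es, Matrix.isUnit_iff_isUnit_det, Matrix.det_mul] at this
    exact (Matrix.isUnit_iff_isUnit_det _).2 (isUnit_of_mul_isUnit_left this)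
  have q := (u4 _ ((X n).j ω) ((X n).j v) up ⟨s, fun e => (bs e).trans
    (mul_le_mul_of_nonneg_right (s1.1 n) (r0 e).le), es⟩ (u3 ω v av)).2 l _ (Real.exp_pos _).le
    ht.le ht.kill
  have e2 : ∑ e, l e * γ e / ν * co σ (X n) a ω v e =
      (∑ e, l e * (lg (Bl σ (X n) 0) ((X n).j ω) ((X n).j v) e / TG.rA (D n) e)) / ν := by
    rw [(co_eq fr hω (ex0 (u6 ω v av).1 0)).2, sum_div]
    exact sum_congr rfl fun e _ => by rw [co0 _ _ a]; ring
  refine (congrArg (|· - _|) e2).trans_le ?_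
  rw [← sub_div]
  refine nu _ (le_trans ?_ (mul_le_mul_of_nonneg_right u7 (Real.exp_pos _).le))
  have z1 := abs_le.1 z
  have q1 := abs_le.1 q
  simp only [TG.Sy.co] at z1
  exact abs_le.2 ⟨by linarith, by linarith⟩

end Pool.Agent.MP_5168f5_an.AN.N6
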