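import Pool.Agent.MP_5168f5_an.AN.N6Spec2

/-! The deterministic part of the system on the chamber. -/

namespace Pool.Agent.MP_5168f5_an.AN.N6

open H19 H17S H17F G39 Filter GA GF LC

namespace N6AlgA

variable {κ : Type} {wt t : κ → ℝ} {a b e : κ}

theorem wA_pos (h : 0 ≤ t a) : wA wt t a = wt a := if_pos h

theorem tA_pos (h : 0 ≤ t a) : tA t a = t a := max_eq_left h

theorem alive (wp : ∀ a, 0 < wt a) : o0 (wA wt t) a ≠ 0 ↔ 0 ≤ t a :=
  ⟨fun h => by_contra fun k => h (o0_zero.2 (if_neg k)),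
    fun h k => (wp a).ne' ((wA_pos h).symm.trans (o0_zero.1 k))⟩

theorem hm_iff (wp : ∀ a, 0 < wt a) : Hm (o0 (wA wt t)) a b e ↔
    0 ≤ t a ∧ 0 ≤ t b ∧ 0 ≤ t e ∧ wt e = wt a + wt b := by
  refine ⟨fun h => ?_, fun ⟨h1, h2, h3, h4⟩ => ⟨(alive wp).2 h1, (alive wp).2 h2, ?_⟩⟩
  · have h1 := (alive wp).1 h.1
    have h2 := (alive wp).1 h.2.1
    have h4 := hm_w h
    rw [wA_pos h1, wA_pos h2] at h4
    have h3 : 0 ≤ t e := (alive wp).1 fun k => by linarith [o0_zero.1 k, wp a, wp b]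
    exact ⟨h1, h2, h3, (wA_pos h3).symm.trans h4⟩
  · simp only [o0, wA_pos h1, wA_pos h2, wA_pos h3, h4, Prod.mk_add_mk, add_zero]

theorem cG_eq (wp : ∀ a, 0 < wt a) {c : κ → κ → κ → ℝ}
    (h : ∀ a b e, c a b e ≠ 0 → wt e = wt a + wt b) (a b e : κ) :
    GO.cG (o0 (wA wt t)) (tA t) c a b e = cg c t a b e := by
  classical
  by_cases k : c a b e = 0
  · simp only [GO.cG, cg, k, ite_self]
  · refine if_congr ⟨fun ⟨u, v⟩ => ?_, fun ⟨u, v, w⟩ => ?_⟩ rfl rfl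
    · obtain ⟨h1, h2, h3, -⟩ := (hm_iff wp).1 u
      exact ⟨h1, h2, by rwa [tA_pos h1, tA_pos h2, tA_pos h3] at v⟩
    · have h3 : 0 ≤ t e := w ▸ add_nonneg u v
      exact ⟨(hm_iff wp).2 ⟨u, v, h3, h a b e k⟩, by rw [tA_pos u, tA_pos v, tA_pos h3, w]⟩

end N6AlgA

open N6AlgA in
theorem n6Alg : SAlg := by
  intro m κ _ _ Ω Λ σ S L₀ t pos Lm X E L W Q h _
  have or : ∀ a b, (t a < 0 ∨ t b < 0) ∨ 0 ≤ t a ∧ 0 ≤ t b := fun a b =>
    (lt_or_ge (t a) 0).elim (fun k => .inl (.inl k)) fun k =>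
      (lt_or_ge (t b) 0).elim (fun k => .inl (.inr k)) fun k' => .inr ⟨k, k'⟩
  refine ⟨⟨⟨h.big, h.fr.mono fun n k => fr_Bl k 0, fun a => ⟨le_rfl, ?_⟩,
    fun a k => (alive h.wp).2 (h.ad.live a k), h.oc, fun a b e u v => ?_, fun a b e u v w => ?_,
    fun e k => (lt_irrefl _ k.1).elim⟩, h.fr.mono fun n k => k.2.2⟩,
    fun a => ⟨le_max_right _ _, ?_⟩, fun a b e u v => ?_, fun e u v => ?_⟩
  · show 0 ≤ ite _ _ _
    split_ifs
    exacts [(h.wp a).le, le_rfl]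
  · have h3 := (alive h.wp).1 u
    exact (or a b).elim (fun k => h.dead a b e k h3) fun k => neg_ev (h.fr.mono fun n z =>
      by_contra fun y => v ((hm_iff h.wp).2 ⟨k.1, k.2, h3, (gr_of z).hc a b e y⟩))
  · exact (or a b).elim (fun k => h.dead a b e k (h.ad.live e w)) fun k =>
      h.ad.sub a b e k.1 k.2 u v w
  · by_cases k : 0 ≤ t a
    · rw [tA_pos k, wA_pos k]; exact h.ad.le a
    · exact (max_eq_right (not_le.1 k).le).trans_le (if_neg k).ge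
  · obtain ⟨h1, h2, h3, -⟩ := (hm_iff h.wp).1 u
    exact h.ad.fil a b e h1 h2 (by rwa [tA_pos h1, tA_pos h2, tA_pos h3] at v)
  · have h1 : 0 < t e := (lt_max_iff.1 u).resolve_right (lt_irrefl _)
    obtain ⟨lam, l1, l2⟩ := h.ad.gen e h1 (by rwa [tA_pos h1.le, wA_pos h1.le] at v)
    refine ⟨lam, l1, fun e' => (l2 e').congr (h.fr.mono fun n z => ?_)⟩
    simp only [cG_eq h.wp (gr_of z).hc]
    congr

end Pool.Agent.MP_5168f5_an.AN.N6
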