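import Pool.Agent.MP_5168f5_an.AN.N6Spec2

/-! Kakeya sets in all dimensions: atoms and cells. -/

namespace Pool.Agent.MP_5168f5_an.AN.N6

open H19 H17S H17F G39 Filter H61Z GA GF R4 LC S20

namespace N6AtcA

variable {m : ℕ} {κ : Type} [Fintype κ]

theorem co_le {Ω Λ : Type} {σ : St m κ} {X : Dt m κ Ω Λ} {a a' : ℚ≥0} {ω v : Ω} {b : κ} {x y : ℝ}
    (h : |co σ X a ω v b| ≤ Real.exp y) (e : σ.wt b * (X.lv a' - X.lv a) + y ≤ x) :
    |co σ X a' ω v b| ≤ Real.exp x := by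
  have e1 : co σ X a' ω v b = Real.exp (σ.wt b * (X.lv a' - X.lv a)) * co σ X a ω v b := by
    unfold co
    rw [← mul_assoc, ← Real.exp_add]
    congr 2; ring
  rw [e1, abs_mul, abs_of_pos (Real.exp_pos _)]
  refine (mul_le_mul_of_nonneg_left h (Real.exp_pos _).le).trans ?_
  rw [← Real.exp_add]
  exact Real.exp_le_exp.2 e

variable [DecidableEq κ] {Ω Λ : ℕ → Type} {σ : St m κ} {S : Bool → Finset κ} {L₀ : ℝ}
  {t : κ → ℝ} {pos : κ → Prop} {Lm : ℕ → κ → Fin m → ℝ} {X : ∀ n, Dt m κ (Ω n) (Λ n)}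

theorem lv (h : LB σ S L₀ t pos Lm X) (a : ℚ≥0) {ε : ℝ} (hε : 0 < ε) : ∀ᶠ n in UF, ∀ b,
    σ.wt b * ((X n).lv a - (X n).lv 0) ≤ σ.wt b * (a * (X n).M) + ε * (X n).M ∧
    σ.wt b * (a * (X n).M) ≤ σ.wt b * ((X n).lv a - (X n).lv 0) + ε * (X n).M :=
  eventually_all.2 fun b =>
    ((h.lv a).1.smul (h.wp b).le ε hε).and ((h.lv a).2.smul (h.wp b).le ε hε)

/-- Two points of an atom are near at every depth that is not deeper. -/
theorem nr (h : LB σ S L₀ t pos Lm X) (k : Bool) (a : ℚ≥0) {D : ℕ → κ → ℝ} {d : κ → ℝ}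
    (hD : Cl (sM X) D d) (hd : ∀ b ∈ S k, d b ≤ σ.wt b * a) :
    ∃ L, Sub (sM X) L ∧ ∀ᶠ n in UF, ∀ ω v, At (X n) k a ω v →
      Nr (Bl σ (X n) 0) (TG.rA (D n)) (L n) ((X n).j ω) ((X n).j v) := by
  obtain ⟨L, hL, c⟩ := atom_co h.big h.fr h.lo (h.inc k a)
  obtain ⟨K, hK⟩ := hD
  refine (sub_iff (M := sM X) (p := fun n L => ∀ ω v, At (X n) k a ω v →
    Nr (Bl σ (X n) 0) (TG.rA (D n)) L ((X n).j ω) ((X n).j v))).2 fun ε hε => ?_
  have p : 0 < ε / 3 := by positivity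
  filter_upwards [c (∑ b, |d b|), hL.2 _ p, lv h a p, hK, h.big.sm K _ p] with n c l y z w
  refine ⟨_, Real.one_le_exp (by positivity), le_rfl, fun ω v i => ⟨co σ (X n) 0 ω v, fun b => ?_,
    (c ω v i).1.trans (congrArg _ ((ex_Bl a _).trans (ex_Bl 0 _).symm))⟩⟩
  have m0 : (0 : ℝ) ≤ (X n).M := Nat.cast_nonneg _
  have z1 := (abs_le.1 (z b)).2
  have y1 := (y b).2
  rw [TG.rA, ← Real.exp_add]
  by_cases e : b ∈ S k
  · have := mul_le_mul_of_nonneg_right (hd b e) m0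
    exact co_le (((c ω v i).2.2.1 b).trans l) (by linarith)
  · have s := mul_le_mul_of_nonneg_right ((le_abs_self _).trans (Finset.single_le_sum
      (f := fun b => |d b|) (fun _ _ => abs_nonneg _) (Finset.mem_univ b))) m0
    have := mul_nonneg (h.wp b).le (mul_nonneg (NNRat.cast_nonneg (α := ℝ) a) m0)
    have := mul_nonneg p.le m0
    exact co_le ((c ω v i).2.2.2 b e) (by linarith)

end N6AtcA

open N6AtcA in
theorem n6Atc : SAtc := by
  intro m κ _ _ Ω Λ σ S L₀ t pos Lm X E L W Q h _ _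
  have fr : ∀ᶠ n in UF, IsFr σ.Φ (Bl σ (X n) 0) (X n).c := h.fr.mono fun n y => fr_Bl y 0
  refine ⟨fun k a D d hD g hd => ?_, fun k a d ε g hε => ?_⟩
  · obtain ⟨L1, hL, c⟩ := nr h k a hD hd
    obtain ⟨r, hr⟩ := ex_rp X k a
    have c' : ∀ᶠ n in UF, ∀ ω ∈ (X n).P.S, Nr (Bl σ (X n) 0) (TG.rA (D n)) (L1 n)
        ((X n).j (r n ((X n).O k a ω))) ((X n).j ω) := by
      filter_upwards [c, hr] with n c hr ω hω
      exact c _ _ ⟨(hr ω hω).1, hω, (hr ω hω).2⟩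
    have s := sDet (Fin m) κ (sM X) σ.Φ (fun n => Bl σ (X n) 0) (fun n => (X n).c) Ω Λ (sP X)
      (fun n ω => (X n).j (r n ((X n).O k a ω))) (fun n => (X n).j) (sO X k a)
      (fun n z => (X n).j (r n z)) (fun n => TG.rA (D n)) L1 h.big fr
      (GO.GOh1A.idr sIdR h.big h.oc g (hD.ap h.big)) ⟨1, zero_le_one, ?_⟩
      (.of_forall fun n _ _ _ _ e => congrArg (fun z => (X n).j (r n z)) e) hL (Whp.of_ev c')
    · refine s.mono ?_
      filter_upwards [h.nest false 0 a zero_le, h.com a] with n y z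
      have f : Fn (X n).P ((X n).O false 0) fun ω => ((sy σ X n).C (D n) ω, (X n).O k a ω) :=
        fun u hu v hv e => y u hu v hv (by
          have e2 : (X n).O k a u = (X n).O k a v := congrArg Prod.snd e
          cases k
          exacts [e2, z u hu v hv e2])
      exact ((ch_chain ((sy σ X n).C (D n)) ((X n).O false 0) ((X n).O k a)).trans
        (by rw [ch_zero f, add_zero]; rfl)).le
    · filter_upwards [c', hr, h.fr, hL.2 1 one_pos] with n c hr y z ω hω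
      exact ⟨y.2.2 _ (hr ω hω).1, (c ω hω).imp fun s u => ⟨fun b => (u.1 b).trans
        (mul_le_mul_of_nonneg_right z (Real.exp_pos _).le), u.2⟩⟩
  · obtain ⟨L1, hL, c⟩ := GO.GOh1A.same sNr sCell h.big fr
      (GO.GOh1A.idr sIdR h.big h.oc g ((cl_sc (sM X) d).ap h.big))
    filter_upwards [c, hL.2 _ (half_pos hε), lv h a (half_pos hε), h.fr] with n c l y z v u i e b
    obtain ⟨s, s1, s2⟩ := (c _).2 _ e
    have s3 := (s1 b).trans (mul_le_mul_of_nonneg_right l (Real.exp_pos _).le)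
    rw [← (co_eq z i.1 s2).1, TG.rA, ← Real.exp_add] at s3
    refine co_le s3 ?_
    have := (y b).1
    unfold TG.sc
    linarith

end Pool.Agent.MP_5168f5_an.AN.N6
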