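import Pool.Agent.MP_5168f5_an.AN.N6Spec2

/-! Kakeya sets in all dimensions: the curve moves. -/

namespace Pool.Agent.MP_5168f5_an.AN.N6

open H19 H17S H17F G39 Filter H61Z GA R4 LC S20

theorem n6C1 : SC1 := by
  intro m κ _ _ Ω Λ σ S L₀ t pos Lm X E L W Q b _
  by_contra k
  have hM := b.big
  obtain ⟨L1, l1, h1⟩ := atom_co hM b.fr b.lo (b.inc true 0)
  obtain ⟨L2, l2, h2⟩ := ob_bound hM (J := κ × Fin m × Fin m) fun j => b.oB j.1 j.2.1 j.2.2
  obtain ⟨f, hf, h3⟩ := ob_est σ.Φ.N m (Fintype.card κ)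
  have l3 := l1.mul l2
  have h4 : ∀ᶠ n in UF, ∀ a, a ∈ S true → ∀ p, |(X n).B a p σ.o| ≤ dl (sM X) 2 n :=
    eventually_all.2 fun a => by
      by_cases e : a ∈ S true
      · exact (eventually_all.2 fun p => b.stab a p (fun z => k ⟨a, z, (b.st a).1 e⟩) 2).mono
          fun n z _ => z
      · exact .of_forall fun n z => absurd z e
  obtain ⟨n, a1, a2, a3, a4, a5, a6⟩ := ((h1 2).and (h4.and (b.fr.and ((b.spr 0 _ one_half_pos).and
    ((sub_dl ((hf.2 _ _ hM l3).mul l3) one_pos).and (hM.ev 1)))))).exists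
  obtain ⟨ω, hω, -⟩ := ex_of_pb (P := (X n).P) (E := fun _ => True) (by rw [pb_true]; exact one_pos)
  have d0 := dl_pos (sM X) 2 n
  have p1 := l1.1 n
  have p2 := l2.1 n
  have e1 : L1 n ≤ L1 n * L2 n := le_mul_of_one_le_right (by linarith) p2
  have e2 : L2 n ≤ L1 n * L2 n := le_mul_of_one_le_left (by linarith) p1
  have a7 := a4 ω hω (X n).M (by linarith) (ob (X n).B σ.o 0)
  rw [pb_one fun v hv => ?_] at a7
  · have := Real.exp_lt_one_iff.2 (show 1 / 2 * ((X n).M : ℝ) - (X n).M < 0 by linarith)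
    linarith
  obtain ⟨-, c1, c2, c3⟩ := a1 ω v ((mem_fb hω).1 hv)
  have c4 := (h3 κ σ.Φ _ _ σ.o _ (L1 n * L2 n * dl (sM X) 2 n) 0 (co σ (X n) 0 ω v) rfl rfl a3.1
    (l3.1 n) (by positivity) (fun a q p => (h2 n (a, p, q)).trans e2)
    (fun _ => by simpa using zero_le_one.trans (l3.1 n)) fun a => (c2 a).trans e1).2.1 fun a p => by
      rw [abs_mul]
      by_cases e : a ∈ S true
      · exact mul_le_mul ((c2 a).trans e1) (a2 a e p) (abs_nonneg _) (by positivity)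
      · rw [mul_comm]
        exact mul_le_mul ((h2 n (a, p, σ.o)).trans e2) (c3 a e) (abs_nonneg _) (by positivity)
  rw [((sMul _ _ _ _ _ a3.1).one _).2] at c4
  rw [c1]
  refine c4.trans ?_
  rw [← mul_assoc, show (2 : ℝ) = 1 + 1 by norm_num, dl_add, ← mul_assoc]
  refine (mul_le_of_le_one_left (dl_pos _ _ _).le ?_).trans_eq (by simp [dl])
  rwa [← le_div_iff₀ (dl_pos _ _ _), one_div]

end Pool.Agent.MP_5168f5_an.AN.N6
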