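import Pool.Agent.MP_5168f5_an.AN.N6Spec2
import Pool.Agent.MP_5168f5_an.AN.G39Dep

/-! Kakeya sets in all dimensions: a curve has dimension at most one. -/

namespace Pool.Agent.MP_5168f5_an.AN.N6

open H19 H17S H17F G39 Filter H61Z GA R4 LC MvPolynomial
open Pk (cn kc)

namespace N6C2A

theorem deg_one (q : Polynomial ℝ) :
    (Polynomial.aeval (X 0 : MvPolynomial (Fin 1) ℝ) q).totalDegree ≤ q.natDegree := by
  rw [Polynomial.aeval_eq_sum_range]
  refine totalDegree_finsetSum_le fun i hi => (totalDegree_smul_le _ _).trans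
    ((totalDegree_pow _ _).trans ?_)
  rw [totalDegree_X, mul_one]
  exact Nat.lt_succ_iff.1 (Finset.mem_range.1 hi)

theorem ev_one (q : Polynomial ℝ) (t : ℝ) :
    eval (fun _ => t) (Polynomial.aeval (X 0 : MvPolynomial (Fin 1) ℝ) q) = q.eval t := by
  induction q using Polynomial.induction_on' with
  | add p q hp hq => simp only [map_add, hp, hq, Polynomial.eval_add]
  | monomial i c => simp

/-- Two polynomial functions on a curve are dependent. -/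
theorem dep2 (m E D : ℕ) : ∃ E' : ℕ, ∀ (W : Fin 2 → MvPolynomial (Fin m) ℝ)
    (τ : Fin m → Polynomial ℝ), (∀ i, (W i).totalDegree ≤ E) → (∀ p, (τ p).natDegree ≤ D) →
    ∃ H : MvPolynomial (Fin 2) ℝ, H.totalDegree ≤ E' ∧ 1 ≤ cn H ∧
      ∀ t : ℝ, eval (fun i => eval (fun p => (τ p).eval t) (W i)) H = 0 := by
  obtain ⟨E', h⟩ := rDep 1 (E * D)
  refine ⟨E', fun W τ h1 h2 => ?_⟩
  obtain ⟨H, α, a1, a2, a3⟩ := h ℝ (fun t _ => t) (fun i t => eval (fun p => (τ p).eval t) (W i))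
    fun i => ⟨aeval (fun p => Polynomial.aeval (X 0 : MvPolynomial (Fin 1) ℝ) (τ p)) (W i),
      kc.deg _ _ _ _ (h1 i) fun p => (deg_one _).trans (h2 p), fun t => by
        rw [Nc.eval_aeval]
        refine congrArg (fun u => eval u (W i)) (funext fun p => ?_)
        exact (ev_one _ t).symm⟩
  exact ⟨H, a1, by simpa [a2] using kc.coeff H α, a3⟩

/-- A relation on the curve is an approximate relation near the curve. -/
theorem est {m E E' : ℕ} {W : Fin 2 → MvPolynomial (Fin m) ℝ} {H : MvPolynomial (Fin 2) ℝ}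
    {L K δ : ℝ} {y y' : Fin m → ℝ} (hL : 1 ≤ L) (hK : 1 ≤ K) (h0 : 0 ≤ δ) (h1 : δ ≤ 1)
    (hW : ∀ i, (W i).totalDegree ≤ E ∧ cn (W i) ≤ L) (hH : H.totalDegree ≤ E')
    (hy : ∀ p, |y p| ≤ K ∧ |y p - y' p| ≤ δ) (e : eval (fun i => eval y' (W i)) H = 0) :
    |eval (fun i => eval y (W i)) H| ≤
      (E' + 1) * ((L * (2 * K) ^ E) ^ E' * ((E + 1) * (L * (2 * K) ^ E))) * δ * cn H := by
  have k2 : 1 ≤ 2 * K := by linarith
  have a1 : ∀ p, |y p| ≤ 2 * K ∧ |y' p| ≤ 2 * K ∧ |y p - y' p| ≤ δ := fun p =>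
    ⟨by linarith [(hy p).1], by
      have := abs_sub_abs_le_abs_sub (y' p) (y p)
      rw [abs_sub_comm] at this
      linarith [(hy p).1, (hy p).2], (hy p).2⟩
  have p1 : 1 ≤ (2 * K) ^ E := one_le_pow₀ k2
  have a2 : ∀ i (u : Fin m → ℝ), (∀ p, |u p| ≤ 2 * K) → |eval u (W i)| ≤ L * (2 * K) ^ E :=
    fun i u hu => (kc.val _ _ _ _ (hW i).1 k2 hu).trans
      (mul_le_mul_of_nonneg_right (hW i).2 (by positivity))
  have a3 := kc.lip H E' (L * (2 * K) ^ E) ((E + 1) * (L * (2 * K) ^ E) * δ)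
    (fun i => eval y (W i)) (fun i => eval y' (W i)) hH (one_le_mul_of_one_le_of_one_le hL p1)
    (by positivity) fun i => ⟨a2 i _ fun p => (a1 p).1, a2 i _ fun p => (a1 p).2.1,
      (kc.lip _ _ _ _ _ _ (hW i).1 k2 h0 a1).trans (by
        have := kc.nonneg (W i)
        have := (hW i).2
        rw [mul_assoc (E : ℝ)]
        gcongr
        linarith)⟩
  rw [e, sub_zero] at a3
  have := kc.nonneg H
  refine a3.trans (le_trans (b := (E' + 1) * cn H * (L * (2 * K) ^ E) ^ E' *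
    ((E + 1) * (L * (2 * K) ^ E) * δ)) ?_ (le_of_eq (by ring)))
  gcongr
  linarith

end N6C2A

open N6C2A in
theorem n6C2 : SC2 := by
  intro m κ _ _ Ω Λ σ S L₀ t pos Lm X E L W Q b w rel a a' p1 p2 t1 t2
  by_contra ne
  obtain ⟨r, hr⟩ := ex_rp X true 0
  obtain ⟨E', hE⟩ := dep2 m E σ.D
  have c1 : ∀ n z, ∃ τ : Fin m → Polynomial ℝ, (∀ p, (τ p).natDegree ≤ σ.D) ∧
      ((X n).Crv σ 0 (1 / 3) → r n z ∈ (X n).P.S → ∀ v ∈ (X n).P.S,
        (X n).O true 0 v = (X n).O true 0 (r n z) → ∃ s : ℝ, ∀ p,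
          |(X n).ps σ 0 (r n z) v p - (τ p).eval s| ≤ Real.exp (-((X n).M / (1 / 3)))) :=
    fun n z => by
      by_cases c : (X n).Crv σ 0 (1 / 3) ∧ r n z ∈ (X n).P.S
      · exact (c.1 _ c.2).imp fun τ k => ⟨k.1, fun _ _ => k.2⟩
      · exact ⟨0, fun p => by simp, fun u v => absurd ⟨u, v⟩ c⟩
  choose τ d1 d2 using c1
  choose H h1 h2 h3 using fun n z => hE (fun i => W n (![a, a'] i)) (τ n z)
    (fun i => ((w.bd n).1 _).1) (d1 n z)
  have k1 := (rel true 0 2 E' ![a, a'] 1 r H (by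
      intro i j e
      fin_cases i <;> fin_cases j <;> simp_all)
    (Fin.forall_fin_two.2 ⟨⟨p1, (b.st _).2 t1⟩, p2, (b.st _).2 t2⟩) one_pos hr h1).pos.ex
  obtain ⟨L1, s1, k2⟩ := atom_co b.big b.fr b.lo (b.inc true 0)
  obtain ⟨L2, s2, k3⟩ := ob_bound b.big
    (f := fun (j : κ × Fin m × Fin m) n => (X n).B j.1 j.2.1 j.2.2) fun j => b.oB _ _ _
  obtain ⟨f, hf, k4⟩ := ob_est σ.Φ.N m (Fintype.card κ)
  have s3 := hf.2 _ _ b.big (s1.mul s2)
  have s4 := w.sub.mul ((s3.const_mul b.big one_le_two).pow E)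
  have s5 := ((s4.pow E').mul (s4.const_mul b.big (C := E + 1) (by simp))).const_mul b.big
    (C := E' + 1) (by simp)
  obtain ⟨n, ⟨ω, hω, e1⟩, e2, e3, e4, e5, e6, e7⟩ := (k1.and (hr.and ((k2 0).and (b.fr.and
    ((b.crv 0 (1 / 3) (by norm_num)).and ((s5.2 1 one_pos).and (b.big.ev 1))))))).exists
  obtain ⟨g1, g2⟩ := e2 ω hω
  obtain ⟨-, g3, g4, -⟩ := e3 _ ω ⟨g1, hω, g2⟩
  obtain ⟨s, g5⟩ := d2 n _ e5 g1 ω hω g2.symm
  have l1 := s1.1 n
  have l2 := s2.1 n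
  have g6 := (k4 κ σ.Φ (X n).B (X n).c σ.o (L1 n * L2 n) 0 _ _ rfl rfl e4.1 ((s1.mul s2).1 n) le_rfl
    (fun c q p => (k3 n (c, p, q)).trans (le_mul_of_one_le_left (by linarith) l1))
    (fun c => (g4 c).trans (le_mul_of_one_le_right (by linarith) l2))
    fun c => (g4 c).trans (le_mul_of_one_le_right (by linarith) l2)).1
  rw [← g3] at g6
  have g7 := est (w.sub.1 n) (s3.1 n) (Real.exp_pos _).le
    (Real.exp_le_one_iff.2 (neg_nonpos.2 (by positivity))) (fun i => (w.bd n).1 (![a, a'] i))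
    (h1 n _) (fun p => ⟨(norm_le_pi_norm _ p).trans g6, g5 p⟩) (h3 n _ s)
  have g8 := le_of_mul_le_mul_right (e1.trans g7) (one_pos.trans_le (h2 n _))
  have g9 := g8.trans (mul_le_mul_of_nonneg_right e6 (Real.exp_pos _).le)
  rw [← Real.exp_add, dl, Real.exp_le_exp] at g9
  simp only [sM] at g9 e7
  linarith

end Pool.Agent.MP_5168f5_an.AN.N6
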