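import Pool.Agent.MP_5168f5_an.AN.N6Spec2

/-! Kakeya sets in all dimensions: the cells are big. -/

namespace Pool.Agent.MP_5168f5_an.AN.N6

open H19 H17S H17F G39 Filter H61Z GA GF R4 LC S20 MvPolynomial

theorem n6C3 : OfC3 := by
  intro dec m κ _ _ Ω Λ σ S L₀ t pos Lm Z E L W Q b w
  classical
  by_contra h
  obtain ⟨em⟩ : Nonempty ({a // pos a} ↪ Fin σ.d) := Function.Embedding.nonempty_of_card_le (by
    rw [Fintype.card_subtype, Fintype.card_fin, ← Nat.lt_succ_iff]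
    have := not_le.1 h
    unfold TG.cd at this
    exact_mod_cast this)
  obtain ⟨f, pf, dec⟩ := dec κ σ.Φ.N m σ.wt b.wp
  obtain ⟨L1, s1, h1⟩ := atom_co b.big b.fr b.lo (b.inc false 0)
  obtain ⟨L2, s2, h2⟩ := ob_bound b.big (J := κ × Fin m × Fin m)
    (f := fun j n => (Z n).B j.1 j.2.1 j.2.2) fun j => b.oB _ _ _
  obtain ⟨L3, s3, h3⟩ := ob_bound b.big (J := κ × κ × κ)
    (f := fun j n => (Z n).c j.1 j.2.1 j.2.2) fun j => b.oc _ _ _
  have s4 := (s1.add s2 b.big).add s3 b.big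
  have st : ∀ᶠ n in UF, ∀ a p, ¬pos a → |(Z n).B a p σ.o| ≤ dl (sM Z) (σ.mb (E * 1) + 1 + 1) n :=
    eventually_all.2 fun a => eventually_all.2 fun p => (em' (pos a)).elim
      (fun k => (b.stab a p k _).mono fun _ z _ => z) fun k => .of_forall fun _ z => absurd k z
  obtain ⟨n, a1, fr, st, bg, val, a2, a3⟩ := ((h1 0).and (b.fr.and (st.and
    ((b.bg (E * 1) 0 _ one_half_pos).and (w.val.and (((pf.2 _ _ b.big s4).2 1 one_pos).and
      (b.big.ev 1))))))).exists
  obtain ⟨ω, hω, -⟩ := ex_of_pb (P := (Z n).P) (E := fun _ => True) (by rw [pb_true]; exact one_pos)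
  obtain ⟨Y, y0, hY⟩ := dec σ.Φ σ.la σ.o pos _ _ rfl fr.1 (gr_of fr)
  have k := bg ω hω (Z n).M (by linarith)
    (fun p => aeval (fun a => if h : pos a then X (em ⟨a, h⟩) else 0) (Q n p)) fun p =>
      Pk.kc.deg _ _ _ _ ((w.bd n).2 p).1 fun a => by split_ifs <;> simp
  rw [pb_one fun v hv => ?_, Real.one_le_exp_iff] at k
  · linarith
  obtain ⟨-, e1, e2, -⟩ := a1 ω v ((mem_fb hω).1 hv)
  have l1 := s1.1 n
  have l2 := s2.1 n
  have l3 := s3.1 n
  refine ⟨Function.extend em (fun a => Y (co σ (Z n) 0 ω v) a.1) 0, ?_⟩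
  rw [e1, norm_sub_rev, show Nc.ev _ _ = ob (Z n).B σ.o (Y (co σ (Z n) 0 ω v)) from
    funext fun p => ?_]
  · refine (hY _ _ _ (s4.1 n) (dl_pos _ _ _).le (fun a q p => (h2 n (a, p, q)).trans (by linarith))
      (fun a b e => (h3 n (a, b, e)).trans (by linarith)) (fun a k p => st a p k)
      fun a => (e2 a).trans (by linarith)).2.1.trans ?_
    refine (mul_le_mul_of_nonneg_right a2 (dl_pos _ _ _).le).trans_eq ?_
    rw [dl, ← Real.exp_add]
    congr 1
    ring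
  · rw [Nc.ev, aeval_eq_bind₁, ← val.1]
    refine (eval₂Hom_bind₁ _ _ _ _).trans (congrArg (fun s => eval s (Q n p)) (funext fun a => ?_))
    split_ifs with z
    · rw [eval₂Hom_X', em.injective.extend_apply]
    · rw [map_zero, y0 _ a z]

end Pool.Agent.MP_5168f5_an.AN.N6
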