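import Pool.Agent.MP_5168f5_an.AN.N6Spec2

/-! Kakeya sets in all dimensions: the number of positions is at most the dimension. -/

namespace Pool.Agent.MP_5168f5_an.AN.N6

open H19 H17S H17F G39 Filter H61Z GA GF R4 LC S20 MvPolynomial
open Pk (cn kc)

namespace N6C4A

variable {m : ℕ} {κ : Type} [Fintype κ] {Ω Λ : ℕ → Type} {σ : St m κ}
  {X : ∀ n, Dt m κ (Ω n) (Λ n)}

/-- The position inside an atom is bounded. -/
theorem ps_bd (hM : Big (sM X)) (fr : ∀ᶠ n in UF, (X n).Fr σ) (lo : σ.la σ.o = 0)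
    (oB : ∀ a p q, OB (sM X) fun n => (X n).B a p q) {S : Finset κ} {k : Bool} {a : ℚ≥0}
    (i : Al (fun _ Y => Y.Inc σ S k a) X) : ∃ K, Sub (sM X) K ∧
      ∀ᶠ n in UF, ∀ ω v, At (X n) k a ω v → ‖(X n).ps σ a ω v‖ ≤ K n := by
  obtain ⟨L, hL, h⟩ := atom_co hM fr lo i
  obtain ⟨L', hL', h'⟩ := ob_bound hM (J := κ × Fin m × Fin m)
    (f := fun j n => (X n).B j.1 j.2.1 j.2.2) fun j => oB _ _ _
  obtain ⟨f, pg, hf⟩ := ob_est σ.Φ.N m (Fintype.card κ)
  refine ⟨_, pg.2 _ _ hM (hL.mul hL'), ?_⟩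
  filter_upwards [h 0, fr] with n x y ω v z
  obtain ⟨-, e, b, -⟩ := x ω v z
  have b' := fun c => (b c).trans (le_mul_of_one_le_right (hL.pos n).le (hL'.1 n))
  rw [e]
  exact (hf κ σ.Φ _ _ σ.o _ 0 _ _ rfl rfl y.1 ((hL.mul hL').1 n) le_rfl (fun c q p =>
    (h' n (c, p, q)).trans (le_mul_of_one_le_left (hL'.pos n).le (hL.1 n))) b' b').1

end N6C4A

theorem n6C4 : SC4 := by
  intro m κ _ _ Ω Λ σ S L₀ t pos Lm X E L W Q b w gsi
  classical
  by_contra hq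
  have hq : σ.d + 2 ≤ (Finset.univ.filter pos).card := by
    have : ((σ.d + 1 : ℕ) : ℝ) < (Finset.univ.filter pos).card := by
      push_cast; simpa [TG.cd] using hq
    exact Nat.cast_lt.1 this
  obtain ⟨r, hr⟩ := ex_rp X false 0
  obtain ⟨K, hK, hk⟩ := N6C4A.ps_bd b.big b.fr b.lo b.oB (b.inc false 0)
  obtain ⟨δ, p0, e0⟩ : ∃ δ : ℝ, 0 < δ ∧ δ * (2 * σ.d + 5) = 1 :=
    ⟨1 / (2 * σ.d + 5), by positivity, one_div_mul_cancel (by positivity)⟩
  have d0 : (0 : ℝ) ≤ σ.d := Nat.cast_nonneg _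
  have p1 : 5 * δ ≤ 1 := by nlinarith
  obtain ⟨e, e1, e2⟩ : ∃ e : Fin (Finset.univ.filter pos).card → κ, Function.Injective e ∧
      ∀ i, pos (e i) := ⟨fun i => ((Finset.univ.filter pos).equivFin.symm i).1,
    Subtype.val_injective.comp (Equiv.injective _),
    fun i => (Finset.mem_filter.1 ((Finset.univ.filter pos).equivFin.symm i).2).2⟩
  have g := gsi 0 _ e δ 1 r e1 e2 (by omega) p0 one_pos hr
  have sb := (w.sub.mul ((hK.const_mul b.big one_le_two).pow E)).const_mul b.big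
    (C := E + 1) (by simp)
  obtain ⟨n, ⟨ω, hω, g⟩, hr, hk, ng, sb⟩ := (g.pos.ex.and (hr.and (hk.and
    ((b.ngv 0 δ p0).and (sb.2 δ p0))))).exists
  have m0 : (0 : ℝ) ≤ (X n).M := Nat.cast_nonneg _
  obtain ⟨Q0, c1, c2⟩ := ng _ (hr ω hω).1 ((1 + 2 * δ) * (X n).M) (by positivity)
    ((le_div_iff₀ p0).2 (by nlinarith [mul_nonneg m0 (show 0 ≤ 1 - δ * (1 + 2 * δ) by nlinarith)]))
  have g := g (Q0.image (wv (W n) e)) ((Nat.cast_le.2 Finset.card_image_le).trans (c1.trans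
    (Real.exp_le_exp.2 (by
      have q1 : ((σ.d + 2 : ℕ) : ℝ) ≤ _ := Nat.cast_le.2 hq
      have q2 := mul_le_mul_of_nonneg_right (show δ + (σ.d + 1 - σ.cc) * (1 + 2 * δ) ≤
        (Finset.univ.filter pos).card - δ by
          push_cast at q1; nlinarith [mul_pos b.cc (show 0 < 1 + 2 * δ by linarith)]) m0
      linarith))))
  rw [pb_one fun v hv => ?_] at g
  · linarith
  have z := (mem_fb hω).1 hv
  have z' : At (X n) false 0 _ v := ⟨(hr ω hω).1, z.2.1, (hr ω hω).2.trans z.2.2⟩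
  obtain ⟨y, hy, c3⟩ := c2 v z.2.1 z'.2.2.symm
  refine ⟨_, Finset.mem_image_of_mem _ hy, (pi_norm_le_iff_of_nonneg (dl_pos _ _ _).le).2
    fun i => ?_⟩
  have k1 := hK.1 n
  have k2 : Real.exp (-((1 + 2 * δ) * (X n).M)) ≤ 1 :=
    Real.exp_le_one_iff.2 (neg_nonpos.2 (by positivity))
  have k3 := fun p => (norm_le_pi_norm _ p).trans (hk _ v z')
  have k4 := fun p => (norm_le_pi_norm _ p).trans c3
  refine (kc.lip _ E (2 * K n) _ _ _ ((w.bd n).1 _).1 (by linarith) (Real.exp_pos _).le fun p =>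
    ⟨(k3 p).trans (by linarith), ?_, k4 p⟩).trans ?_
  · have := abs_sub_abs_le_abs_sub (y p) ((X n).ps σ 0 (r n ((X n).O false 0 ω)) v p)
    rw [abs_sub_comm] at this
    have k5 : |(X n).ps σ 0 (r n ((X n).O false 0 ω)) v p| ≤ _ := k3 p
    have k6 : |(X n).ps σ 0 (r n ((X n).O false 0 ω)) v p - y p| ≤ _ := k4 p
    linarith
  · refine (mul_le_mul_of_nonneg_right (le_trans ?_ sb) (Real.exp_pos _).le).trans_eq ?_
    · rw [mul_assoc]
      exact mul_le_mul (by linarith) (mul_le_mul_of_nonneg_right ((w.bd n).1 _).2 (by positivity))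
        (mul_nonneg (kc.nonneg _) (by positivity)) (by positivity)
    · rw [dl, ← Real.exp_add]; congr 1; simp only [sM]; ring

end Pool.Agent.MP_5168f5_an.AN.N6
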