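import Pool.Agent.MP_5168f5_an.AN.N6Spec2

/-! The small ball bound for characters is stable under a change of basis. -/

namespace Pool.Agent.MP_5168f5_an.AN.N6

open H19 H17S H17F G39 Filter H61Z GA GF R4 LC S20 Finset

namespace N6ChaA

variable {κ : Type} [Fintype κ] [DecidableEq κ]

omit [DecidableEq κ] in
theorem sum_le {f : κ → ℝ} {x : ℝ} (h : ∀ a, |f a| ≤ x) : |∑ a, f a| ≤ Fintype.card κ * x :=
  (abs_sum_le_sum_abs _ _).trans ((sum_le_card_nsmul _ _ x fun a _ => h a).trans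
    (by rw [nsmul_eq_mul, card_univ]))

omit [DecidableEq κ] in
theorem avg_le {l f : κ → ℝ} {x : ℝ} (hl : ∑ b, |l b| = 1) (h : ∀ a, |f a| ≤ x) :
    |∑ a, l a * f a| ≤ x :=
  (abs_sum_le_sum_abs _ _).trans ((sum_le_sum fun a _ => (abs_mul _ _).le.trans
    (mul_le_mul_of_nonneg_left (h a) (abs_nonneg _))).trans (by rw [← sum_mul, hl, one_mul]))

omit [Fintype κ] [DecidableEq κ] in
theorem mul_le {x y u v : ℝ} (h : |x| ≤ u) (k : |y| ≤ v) : |x * y| ≤ u * v :=
  (abs_mul _ _).le.trans (mul_le_mul h k (abs_nonneg _) ((abs_nonneg _).trans h))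

theorem back {A A' : Matrix κ κ ℝ} (h : A' * A = 1) (c : κ → κ → κ → ℝ) (b b' : κ) :
    Matrix.vecMul (c b b') A' = ∑ a, ∑ a', (A' b a * A' b' a') • mC A A' c a a' := by
  have e : ∀ b, (Pi.single b 1 : κ → ℝ) = ∑ a, A' b a • A a := fun b => by
    rw [← vm_sum]
    funext e
    have := congrFun (congrFun h b) e
    rw [Matrix.mul_apply, Matrix.one_apply] at this
    simp only [Matrix.vecMul, dotProduct, this, Pi.single_apply, eq_comm]
  rw [← GA.br_single (c := c) b b', e, e, br_eq]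
  simp only [map_sum, LinearMap.sum_apply, map_smul, LinearMap.smul_apply, mC, br_eq,
    Matrix.sum_vecMul, Matrix.smul_vecMul, smul_sum, smul_smul]
  exact sum_comm.trans (sum_congr rfl fun a _ => sum_congr rfl fun a' _ => by rw [mul_comm])

theorem det {A A' : Matrix κ κ ℝ} (h : A * A' = 1) {c : κ → κ → κ → ℝ} {S S' : Finset κ}
    {L θ η E : ℝ} (L1 : 1 ≤ L) (t0 : 0 ≤ θ) (te : θ ≤ η) (tE : θ * E ≤ 1)
    (hE : 4 * ((Fintype.card κ + 1) * L) ^ 4 ≤ E)
    (bA : ∀ a e, |A a e| ≤ L ∧ |A' a e| ≤ L) (bc : ∀ a b e, |mC A A' c a b e| ≤ L)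
    (row : ∀ a e, a ∈ S' → e ∉ S → |A a e| ≤ θ) (col : ∀ e a, e ∈ S → a ∉ S' → |A' e a| ≤ θ)
    (sub : ∀ a b e, a ∈ S → b ∈ S → e ∉ S → |c a b e| ≤ θ)
    {l' : κ → ℝ} (l0 : ∀ b, b ∉ S' → l' b = 0) (l1 : ∑ b, |l' b| = 1)
    (lk : ∀ b ∈ S', ∀ b' ∈ S', |∑ e, l' e * mC A A' c b b' e| ≤ η) (c₀ : ℝ) :
    ∃ (l : κ → ℝ) (c₁ : ℝ), (∀ b, b ∉ S → l b = 0) ∧ ∑ b, |l b| = 1 ∧
      (∀ b ∈ S, ∀ b' ∈ S, |∑ e, l e * c b b' e| ≤ E * η) ∧ ∀ s : κ → ℝ, (∀ b, b ∉ S → |s b| ≤ θ) →
        |∑ b, l' b * Matrix.vecMul s A' b - c₀| ≤ η → |∑ b, l b * s b - c₁| ≤ E * η := by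
  have h' : A' * A = 1 := mul_eq_one_comm.1 h
  have K0 : (0 : ℝ) ≤ Fintype.card κ := Nat.cast_nonneg _
  set l : κ → ℝ := A'.mulVec l' with hl
  set p : κ → ℝ := fun a => if a ∈ S then l a else 0 with hp
  have bl : ∀ a, |l a| ≤ L := fun a => by
    have := avg_le l1 fun b => (bA a b).2
    simpa only [hl, Matrix.mulVec, dotProduct, mul_comm] using this
  have ex : ∀ s : κ → ℝ, ∑ b, l' b * Matrix.vecMul s A' b = ∑ b, l b * s b := fun s => by
    have := Matrix.dotProduct_mulVec s A' l'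
    simp only [dotProduct] at this
    simpa only [mul_comm] using this.symm
  have cut : ∀ s : κ → ℝ, (∀ b, b ∉ S → |s b| ≤ θ) →
      |∑ b, p b * s b - ∑ b, l b * s b| ≤ Fintype.card κ * (L * θ) := fun s hs => by
    rw [← sum_sub_distrib]
    refine sum_le fun a => ?_
    by_cases z : a ∈ S
    · simp only [hp, if_pos z, sub_self, abs_zero]; positivity
    · simp only [hp, if_neg z, zero_mul, zero_sub, abs_neg]; exact mul_le (bl a) (hs a z)
  have low : ∀ e, |l' e| ≤ L * ∑ b, |p b| + Fintype.card κ * (L * θ) := fun e => by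
    by_cases z : e ∈ S'
    · have e1 : l' e = ∑ b, l b * A e b := by
        have : A.mulVec l = l' := by rw [hl, Matrix.mulVec_mulVec, h, Matrix.one_mulVec]
        rw [← this]
        simp only [Matrix.mulVec, dotProduct, mul_comm]
      have e2 := cut (A e) fun b => row e b z
      have e3 : |∑ b, p b * A e b| ≤ L * ∑ b, |p b| := (abs_sum_le_sum_abs _ _).trans (by
        rw [mul_comm, sum_mul]
        exact sum_le_sum fun b _ => mul_le le_rfl (bA e b).1)
      rw [e1, abs_le] at *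
      constructor <;> linarith [e2.1, e2.2, e3.1, e3.2]
    · rw [l0 e z, abs_zero]; positivity
  have one : 1 ≤ Fintype.card κ * (L * ∑ b, |p b| + Fintype.card κ * (L * θ)) :=
    l1.ge.trans ((le_abs_self _).trans (sum_le fun e => (abs_abs _).le.trans (low e)))
  have kil : ∀ b ∈ S, ∀ b' ∈ S, |∑ e, l e * c b b' e| ≤
      Fintype.card κ * (Fintype.card κ * (L * L * (L * η))) := fun b hb b' hb' => by
    rw [← ex, back h']
    simp only [Finset.sum_apply, Pi.smul_apply, smul_eq_mul, mul_sum]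
    rw [sum_comm]
    refine sum_le fun a => ?_
    rw [sum_comm]
    refine sum_le fun a' => ?_
    simp only [mul_left_comm (l' _), ← mul_sum]
    have e0 := avg_le l1 (bc a a')
    have e1 : θ * L * L ≤ L * L * (L * η) := by
      nlinarith [mul_le_mul te L1 zero_le_one (t0.trans te), mul_self_nonneg L]
    by_cases z : a ∈ S'
    · by_cases z' : a' ∈ S'
      · exact mul_le (mul_le (bA b a).2 (bA b' a').2)
          ((lk a z a' z').trans (le_mul_of_one_le_left (t0.trans te) L1))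
      · exact (mul_le (mul_le (bA b a).2 (col b' a' hb' z')) e0).trans
          (by rw [mul_comm L θ]; exact e1)
    · exact (mul_le (mul_le (col b a hb z) (bA b' a').2) e0).trans e1
  generalize hn : ∑ b, |p b| = ν at one
  have n0 : 0 ≤ ν := hn ▸ sum_nonneg fun _ _ => abs_nonneg _
  generalize (Fintype.card κ : ℝ) = K at *
  have e0 := t0.trans te
  have L0 : 0 ≤ L := zero_le_one.trans L1
  obtain ⟨R, hR⟩ : ∃ R, R = (K + 1) * L := ⟨_, rfl⟩
  rw [← hR] at hE
  have r1 : K * L ≤ R := by rw [hR]; linarith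
  have r2 : L ≤ R := by rw [hR]; nlinarith
  have r3 : K ≤ R := by nlinarith
  have R1 : 1 ≤ R := L1.trans r2
  have R0 : 0 ≤ R := zero_le_one.trans R1
  have r4 : K * (K * L) ≤ R ^ 4 := (mul_le_mul r3 r1 (by positivity) R0).trans
    (by rw [← pow_two]; exact pow_le_pow_right₀ R1 (by norm_num))
  have r5 : 1 ≤ 2 * R * ν := by
    nlinarith [mul_le_mul_of_nonneg_right r1 n0, mul_le_mul_of_nonneg_right r4 t0,
      mul_le_mul_of_nonneg_right hE t0]
  have n1 : 0 < ν := n0.lt_of_ne fun z => by rw [← z, mul_zero] at r5; linarith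
  have r6 : R ≤ R ^ 3 := le_self_pow₀ R1 (by norm_num)
  have r7 : K * (L * θ) ≤ R ^ 3 * η := by
    rw [← mul_assoc]; exact mul_le_mul (r1.trans r6) te t0 (by positivity)
  have dv : ∀ x y z : ℝ, |x - y| ≤ K * (L * θ) → |y - z| ≤ R ^ 3 * η → |x / ν - z / ν| ≤ E * η :=
    fun x y z u v => by
      rw [← sub_div, abs_div, abs_of_pos n1, div_le_iff₀ n1]
      have w : 0 ≤ R ^ 3 * η := by positivity
      nlinarith [abs_sub_le x y z, mul_le_mul_of_nonneg_left r5 w,
        mul_le_mul_of_nonneg_right hE (mul_nonneg e0 n0)]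
  have sm : ∀ s : κ → ℝ, ∑ b, p b / ν * s b = (∑ b, p b * s b) / ν := fun s => by
    simp only [sum_div, div_mul_eq_mul_div]
  refine ⟨fun a => p a / ν, c₀ / ν, fun b hb => by simp only [hp, if_neg hb, zero_div], ?_,
    fun b hb b' hb' => ?_, fun s hs u => ?_⟩
  · simp only [abs_div, abs_of_pos n1, ← sum_div, hn, div_self n1.ne']
  · have := dv _ _ 0 (cut (c b b') fun e => sub b b' e hb hb') (by
      rw [sub_zero]
      refine (kil b hb b' hb').trans ?_
      have := mul_le_mul (mul_le_mul r1 r1 (by positivity) R0) r2 L0 (by positivity)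
      nlinarith [mul_le_mul_of_nonneg_right this e0])
    rwa [zero_div, sub_zero, ← sm] at this
  · rw [sm]
    exact dv _ _ _ (cut s hs) (ex s ▸ u.trans (le_mul_of_one_le_left e0 (R1.trans r6)))

end N6ChaA

open N6ChaA in
theorem n6Cha : CHA := by
  intro m κ _ _ Ω Λ σ S S' X A A' L₀ h g one ac k a ε hε
  have hM := h.big
  have oc : ∀ a b e, OB (sM X) fun n => mC (A n) (A' n) (X n).c a b e := fun a b e => by
    simp only [mC, Matrix.vecMul, dotProduct, br]
    exact ob_sum hM _ fun f _ => ob_mul hM (ob_sum hM _ fun x _ => ob_sum hM _ fun y _ =>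
      ob_mul hM (ob_mul hM (ob_c h x y f) (g.ob a x).1) (g.ob b y).1) (g.ob f e).2
  have d0 : 0 < ε / 10 := by positivity
  obtain ⟨Lx, -, at'⟩ := atom_co hM h.fr h.lo (h.inc k a)
  have im : ∀ {p q : Prop} {f : ℕ → ℝ}, (p → q → Neg (sM X) f) →
      ∀ᶠ n in UF, p → q → |f n| ≤ dl (sM X) (1 / ε + ε) n := fun {p q f} z =>
    eventually_imp_distrib_left.2 fun u => eventually_imp_distrib_left.2 fun v => z u v _
  filter_upwards [ac k a _ (half_pos hε), at' (1 / ε + ε), h.fr, g.inv,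
    big_dl hM (4 * (Fintype.card κ + 1) ^ 4) d0, big_dl hM 1 d0,
    eventually_all.2 fun a => eventually_all.2 fun e =>
      ((g.ob a e).1 _ d0).and ((g.ob a e).2 _ d0),
    eventually_all.2 fun a => eventually_all.2 fun b => eventually_all.2 fun e => oc a b e _ d0,
    eventually_all.2 fun a => eventually_all.2 fun e => im (g.row k a e),
    eventually_all.2 fun a => eventually_all.2 fun e => im (g.col k a e),
    eventually_all.2 fun a => eventually_all.2 fun b => eventually_all.2 fun e =>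
      eventually_imp_distrib_left.2 fun u => im fun v w => h.sub k a u b v e w]
    with n x1 x2 x3 x4 x5 x6 x7 x8 x9 y1 y2 ω hω t ht l' c₀ l0 l1 lk
  have m0 : (0 : ℝ) ≤ (X n).M := Nat.cast_nonneg _
  have em := mul_nonneg hε.le m0
  have ht' : t ≤ (X n).M / ε := ht
  have e1 : (1 / ε + ε) * (X n).M = (X n).M / ε + ε * (X n).M := by ring
  have e2 : (X n).M / (ε / 2) = 2 * ((X n).M / ε) := by field_simp
  have e3 : 0 ≤ (X n).M / ε := by positivity
  obtain ⟨l, c₁, a1, a2, a3, a4⟩ := det (E := Real.exp (ε / 2 * (X n).M)) x4.1 x6 (dl_pos _ _ _).le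
    (Real.exp_le_exp.2 (by rw [e1]; linarith)) (by
      rw [dl, ← Real.exp_add, Real.exp_le_one_iff, e1]; linarith) (by
      rw [mul_pow, ← mul_assoc]
      refine (mul_le_mul_of_nonneg_right x5 (by positivity)).trans (le_of_eq ?_)
      rw [← pow_succ', dl_inv, ← Real.exp_nat_mul]; congr 1; push_cast; ring)
    x7 x8 x9 y1 y2 l0 l1 lk c₀
  rw [← Real.exp_add, show ε / 2 * (X n).M + -t = -(t - ε / 2 * (X n).M) by ring] at a3 a4
  refine le_trans (H17F.pb_mono fun v hv u => ?_) ((x1 ω hω (t - ε / 2 * (X n).M)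
    (by rw [e2]; linarith) l c₁ a1 a2 a3).trans (Real.exp_le_exp.2 ?_))
  · obtain ⟨b1, -, -, b2⟩ := x2 ω v ((mem_fb hω).1 hv)
    refine a4 (co σ (X n) a ω v) b2 (le_of_eq_of_le ?_ u)
    obtain ⟨f1, -, f2, -⟩ := (sFr _ κ σ.Φ (X n).B (X n).c).2 _ _ x4.1
    unfold co at b1
    rw [ex_Bl] at b1
    have b3 : lg (mB (A n) (X n).B) ((X n).j ω) ((X n).j v) =
        Matrix.vecMul (lg (X n).B ((X n).j ω) ((X n).j v)) (A' n) := by
      refine Eq.trans ?_ ((sMul _ _ _ _ _ (f1 x3.1)).lg _ _ (x3.2.2 ω hω))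
      rw [f2, Matrix.vecMul_vecMul, mul_eq_one_comm.1 x4.1, Matrix.vecMul_one, ← b1]
    congr 2
    refine sum_congr rfl fun b _ => congrArg _ ?_
    simp only [b3, Matrix.vecMul, dotProduct, co, mul_sum]
    refine sum_congr rfl fun e _ => ?_
    by_cases z : A' n e b = 0
    · simp [z]
    · rw [(x4.2.2 e b z).1, mul_assoc]
  · have := div_le_self (show 0 ≤ ε / 2 * (X n).M by positivity) one
    rw [sub_div]
    show _ ≤ ε * (X n).M - t / L₀
    linarith

end Pool.Agent.MP_5168f5_an.AN.N6
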