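import Pool.Agent.MP_5168f5_an.AN.N6Spec2

/-! Kakeya sets in all dimensions: the light class is stable under a change of basis. -/

namespace Pool.Agent.MP_5168f5_an.AN.N6

open H19 H17S H17F G39 Filter H61Z GA GF R4 LC S20

namespace N6ChgA

theorem rad {κ : Type} {wt : κ → ℝ} {S S' : Finset κ} {s τ τ' L z : ℝ} {a e : κ} (h0 : 0 ≤ τ')
    (h1 : τ' ≤ τ) (h2 : τ ≤ 1) (hL : 1 ≤ L) (w : z ≠ 0 → wt e = wt a) (b : |z| ≤ L)
    (k : a ∈ S → e ∉ S' → |z| ≤ τ) : |z| * LC.rd wt S s τ' a ≤ L * LC.rd wt S' s τ e := by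
  have t0 := h0.trans h1
  have l0 := zero_le_one.trans hL
  unfold LC.rd
  by_cases u : z = 0
  · rw [u, abs_zero, zero_mul]
    split_ifs <;> positivity
  rw [w u, mul_left_comm, mul_left_comm L]
  refine mul_le_mul_of_nonneg_left ?_ (Real.exp_pos _).le
  split_ifs with x y y
  · exact mul_le_mul_of_nonneg_right b zero_le_one
  · rw [mul_one]
    exact (k x y).trans (le_mul_of_one_le_left t0 hL)
  · exact mul_le_mul b (h1.trans h2) h0 l0
  · exact mul_le_mul b h1 h0 l0

theorem ent {ι κ : Type} [Fintype κ] (A : Matrix κ κ ℝ) (B : κ → Mt ι) (a : κ) (p q : ι) :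
    GA.mB A B a p q = ∑ e, A a e * B e p q := by
  simp only [GA.mB, vec, Matrix.sum_apply, Matrix.smul_apply, smul_eq_mul]

end N6ChgA

open N6ChgA in
theorem n6Chg : CHG := by
  intro m κ _ _ Ω Λ σ S S' X A A' h g
  have hM := h.big
  refine ⟨h.cc, h.lo, h.lp, h.wp, g.ss, hM, h.lv, ?_, fun ε hε => ?_,
    fun k a ha b hb e he => GAChgA.term hM (ob_c h) g.ob fun a' b' e' => ?_, h.nest, h.com,
    fun k a ε hε => ?_, h.crv, h.spr, h.ngv, h.bg, h.gs⟩
  · filter_upwards [h.fr, g.inv] with n fr ⟨i1, i2, _⟩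
    refine ⟨((sFr _ κ σ.Φ _ _).2 _ _ i1).1 fr.1, fun a p q u => ?_, fr.2.2⟩
    obtain ⟨e, -, v⟩ := Finset.exists_ne_zero_of_sum_ne_zero
      ((N6ChgA.ent (A n) (X n).B a p q).symm.trans_ne u)
    rw [← (i2 a e (left_ne_zero_of_mul v)).1]
    exact fr.2.1 e p q (right_ne_zero_of_mul v)
  · have o1 : ∀ a p q, OB (sM X) fun n => GA.mB (A n) (X n).B a p q := fun a p q => by
      simp only [N6ChgA.ent]
      exact ob_sum hM _ fun e _ => ob_mul hM (g.ob a e).1 (ob_B h e p q)
    have o2 : ∀ a, OB (sM X) fun n => ∑ e, |A' n e a| := fun a => ob_sum hM _ fun e _ =>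
      ob_congr (g.ob e a).2 (.of_forall fun n => (abs_abs _).le)
    filter_upwards [eventually_all.2 fun a => eventually_all.2 fun p => eventually_all.2 fun q =>
      o1 a p q ε hε, eventually_all.2 fun a => o2 a _ (half_pos hε), h.bd _ (half_pos hε), g.inv]
      with n a1 a2 a3 ⟨i1, _, _⟩
    simp only [dl_inv] at a1 a2
    refine ⟨a1, fun t a => ?_⟩
    have e1 : t a = ∑ e, Matrix.vecMul t (A n) e * A' n e a := by
      conv_lhs => rw [← Matrix.vecMul_one t, ← i1, ← Matrix.vecMul_vecMul]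
      rfl
    have s0 : 0 ≤ ∑ p, ∑ q, |vec (X n).B (Matrix.vecMul t (A n)) p q| := by positivity
    rw [e1, GAFrA.vec_mB]
    refine (Finset.abs_sum_le_sum_abs _ _).trans ((Finset.sum_le_sum fun e _ =>
      (abs_mul _ _).trans_le (mul_le_mul_of_nonneg_right (a3.2 _ e) (abs_nonneg _))).trans ?_)
    rw [← Finset.mul_sum, mul_right_comm]
    refine mul_le_mul_of_nonneg_right ((mul_le_mul_of_nonneg_left ((le_abs_self _).trans (a2 a))
      (Real.exp_pos _).le).trans (le_of_eq ?_)) s0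
    rw [← Real.exp_add]
    congr 1
    ring
  · by_cases x : a' ∈ S k
    · by_cases y : b' ∈ S k
      · by_cases z : e' ∈ S k
        · exact .inr (.inr (.inr (g.col k e' e z he)))
        · exact .inl (h.sub k a' x b' y e' z)
      · exact .inr (.inr (.inl (g.row k b b' hb y)))
    · exact .inr (.inl (g.row k a a' ha x))
  · have e3 : 0 < ε / 3 := by positivity
    filter_upwards [h.inc k a _ e3, g.inv, big_dl hM (Fintype.card κ) e3,
      eventually_all.2 fun b => eventually_all.2 fun e => (g.ob b e).2 _ e3,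
      eventually_all.2 fun b => eventually_all.2 fun e => eventually_all.2 fun u =>
        eventually_all.2 fun v => g.col k b e u v (1 / ε)]
      with n a1 ⟨i1, _, i3⟩ a2 a3 a4 ω hω v hv u
    simp only [dl_inv] at a2 a3
    have m0 : (0 : ℝ) ≤ (X n).M := Nat.cast_nonneg _
    have b1 := a1 ω hω v hv u
    rw [← ((sFr _ κ σ.Φ (X n).B (X n).c).2 _ _ i1).2.1] at b1
    obtain ⟨t, b2, b3⟩ := ((sFr _ κ σ.Φ _ (X n).c).2 _ _ (mul_eq_one_comm.1 i1)).2.2.2
      (LC.rd σ.wt (S' k) ((X n).lv a) (Real.exp (-((X n).M / ε)))) _ _ _ _ _ (Real.exp_pos _).le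
      (fun b e => rad (Real.exp_pos _).le (Real.exp_le_exp.2 (neg_le_neg
        (div_le_div_of_nonneg_left m0 e3 (by linarith))))
        (Real.exp_le_one_iff.2 (neg_nonpos.2 (by positivity))) (Real.one_le_exp (by positivity))
        (fun z => (i3 b e z).1) (a3 b e) fun x y => (a4 b e x y).trans
          (by rw [dl, one_div_mul_eq_div])) b1
    refine ⟨t, fun b => (b2 b).trans (mul_le_mul_of_nonneg_right ?_ ?_), b3⟩
    · refine (mul_le_mul_of_nonneg_right (mul_le_mul_of_nonneg_right a2 (Real.exp_pos _).le)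
        (Real.exp_pos _).le).trans (le_of_eq ?_)
      rw [← Real.exp_add, ← Real.exp_add]
      congr 1
      ring
    · unfold LC.rd
      split_ifs <;> positivity

end Pool.Agent.MP_5168f5_an.AN.N6
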