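import Pool.Agent.MP_5168f5_an.AN.N6Spec

/-! Kakeya sets in all dimensions: removing the coordinates that fix the base vector. -/

namespace Pool.Agent.MP_5168f5_an.AN.N6

open H19 H17S H17F G39 Filter H61Z GA

namespace N6DecA

variable {κ : Type} [Fintype κ]

open Classical in
/-- The opposite of the part outside the positions. -/
noncomputable def pr (pos : κ → Prop) (s : κ → ℝ) : κ → ℝ := fun a => if pos a then 0 else -s a

/-- One step of the correction. -/
noncomputable def step (N : ℕ) (c : κ → κ → κ → ℝ) (pos : κ → Prop) (s : κ → ℝ) : κ → ℝ :=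
  bch N c s (pr pos s)

omit [Fintype κ] in
theorem pr_bx {pos : κ → Prop} {r s s' : κ → ℝ} {L : ℝ} (h : Bx r L (s - s')) :
    Bx r L (pr pos s - pr pos s') := fun a => by
  have := h a
  simp only [pr, Pi.sub_apply] at this ⊢
  split_ifs
  · simpa using (abs_nonneg _).trans this
  · rwa [neg_sub_neg, abs_sub_comm]

omit [Fintype κ] in
theorem pr_le {pos : κ → Prop} {s : κ → ℝ} {L : ℝ} (h : ∀ a, |s a| ≤ L) (a : κ) :
    |pr pos s a| ≤ L := by
  simp only [pr]
  split_ifs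
  · simpa using (abs_nonneg _).trans (h a)
  · simpa using h a

/-- Vectors of weight at least `τ`. -/
def Vw (wt : κ → ℝ) (τ : ℝ) : Submodule ℚ (κ → ℝ) where
  carrier := {t | ∀ a, wt a < τ → t a = 0}
  add_mem' := fun h h' a e => by simp [h a e, h' a e]
  zero_mem' := fun _ _ => rfl
  smul_mem' := fun _ _ h a e => by simp [h a e]

theorem sup (N : ℕ) {c : κ → κ → κ → ℝ} {wt : κ → ℝ} {μ : ℝ} (pos : κ → Prop)
    (an : ∀ a b e, c a b e = -c b a e) (hc : ∀ a b e, c a b e ≠ 0 → wt e = wt a + wt b)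
    (hμ : 0 ≤ μ) (hw : ∀ a, μ ≤ wt a) (s : κ → ℝ) (j : ℕ) :
    ∀ a, ¬pos a → wt a < (j + 1) * μ → (step N c pos)^[j] s a = 0 := by
  have hb : ∀ i j, ∀ x ∈ Vw wt i, ∀ y ∈ Vw wt j, br c x y ∈ Vw wt (i + j) :=
    fun i j x hx y hy e he => Finset.sum_eq_zero fun a _ => Finset.sum_eq_zero fun b _ => by
      by_cases h : c a b e = 0
      · simp [h]
      · rcases lt_or_ge (wt a) i with k | k
        · simp [hx a k]
        · simp [hy b (by linarith [hc a b e h])]
  induction j with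
  | zero => exact fun a _ h => absurd (hw a) (by simpa using h)
  | succ j ih =>
    intro a ha h
    rw [Function.iterate_succ_apply']
    generalize (step N c pos)^[j] s = u at ih
    have h1 : u ∈ Vw wt μ := fun b e => absurd (hw b) (not_le.2 e)
    have h2 : pr pos u ∈ Vw wt ((j + 1) * μ) := fun b e => by
      simp only [pr]
      split_ifs with k
      · rfl
      · rw [ih b k e, _root_.neg_zero]
    push_cast at h
    have h3 := (sFil κ ℝ N c an).2.2 (Vw wt) μ μ _ u _ (fun i j e x hx b k => hx b (k.trans_le e))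
      hb hμ le_rfl (le_mul_of_one_le_left hμ (by simp)) h1 h2 a (by linarith)
    have h4 := hb _ _ _ h1 _ h2 a (by linarith)
    simpa [h4, pr, ha, step] using h3

theorem bnd (κ : Type) [Fintype κ] (N m J : ℕ) : ∃ f, PG f ∧ ∀ (Φ : Filt (Mt (Fin m))) (o : Fin m)
    (pos : κ → Prop) (B : κ → Mt (Fin m)) (c : κ → κ → κ → ℝ), Φ.N = N → IsFr Φ B c →
    ∀ (L θ : ℝ) (s : κ → ℝ), 1 ≤ L → 0 ≤ θ → (∀ a, Eb L (B a)) → (∀ a b e, |c a b e| ≤ L) →
      (∀ a, ¬pos a → Cb o θ (B a)) → (∀ a, |s a| ≤ L) →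
      (∀ a, |(step N c pos)^[J] s a| ≤ f L) ∧
        ‖ob B o ((step N c pos)^[J] s) - ob B o s‖ ≤ f L * θ ∧
        ∀ r' s' : κ → ℝ, (∀ a, 0 ≤ r' a) → Idl c 1 r' L → (∀ a, |s' a| ≤ L) →
          Bx r' L (s - s') → Bx r' (f L) ((step N c pos)^[J] s - (step N c pos)^[J] s') := by
  induction J with
  | zero =>
    exact ⟨_, pg_id, fun Φ o pos B c _ _ L θ s hL hθ _ _ _ hs =>
      ⟨hs, by simpa using mul_nonneg (by linarith) hθ, fun _ _ _ _ _ h => h⟩⟩
  | succ J ih =>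
    obtain ⟨f, hf, ih⟩ := ih
    obtain ⟨K, hK, bx⟩ := sBox N (Fintype.card κ)
    obtain ⟨h, hh, oe⟩ := ob_est N m (Fintype.card κ)
    have hg := (pg_box hK).mul pg_id
    refine ⟨fun L => f ((K * L) ^ K * L) + h L * L, (hf.comp hg).add (hh.mul pg_id),
      fun Φ o pos B c hN hB L θ s hL hθ eB ec eo hs => ?_⟩
    have p1 := (pg_box hK).1 L hL
    have l0 : 0 ≤ L := by linarith
    have l1 : L ≤ (K * L) ^ K * L := le_mul_of_one_le_left l0 p1
    have l2 : (K * L) ^ K ≤ (K * L) ^ K * L := le_mul_of_one_le_right (by linarith) hL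
    have l3 : 0 ≤ h L * L := mul_nonneg (hh.nn hL) l0
    have b1 : ∀ u : κ → ℝ, (∀ a, |u a| ≤ L) → Bx 1 L u := fun u hu a => by simpa using hu a
    have i1 : Idl c 1 1 L := fun a b e => by simpa using ec a b e
    have b2 := fun (r' u u' : κ → ℝ) (hr : ∀ a, 0 ≤ r' a) (hI : Idl c 1 r' L)
        (hu : ∀ a, |u a| ≤ L) (hu' : ∀ a, |u' a| ≤ L) =>
      bx κ c 1 r' L L u (pr pos u) u' (pr pos u') le_rfl hL l0 (fun a => ⟨zero_le_one, hr a⟩)
        (sMul _ _ Φ B c hB).anti i1 hI (b1 _ hu) (b1 _ (pr_le hu)) (b1 _ hu') (b1 _ (pr_le hu'))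
    have b3 : ∀ u : κ → ℝ, (∀ a, |u a| ≤ L) → ∀ a, |step N c pos u a| ≤ (K * L) ^ K * L :=
      fun u hu a =>
        le_trans (by simpa [step] using (b2 1 u u (fun _ => zero_le_one) i1 hu hu).1 a) l2
    obtain ⟨a1, a2, a3⟩ := ih Φ o pos B c hN hB _ θ _ (hg.1 L hL) hθ
      (fun a q => (eB a q).mono l1) (fun a b e => (ec a b e).trans l1) eo (b3 s hs)
    have a4 := (oe κ Φ B c o L (L * θ) s (pr pos s) hN rfl hB hL (mul_nonneg l0 hθ) eB hs
      (pr_le hs)).2.1 fun a p => by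
        by_cases k : pos a
        · simpa [pr, k] using mul_nonneg l0 hθ
        · rw [abs_mul]; exact mul_le_mul (pr_le hs a) (eo a k p) (abs_nonneg _) l0
    simp only [Function.iterate_succ_apply]
    refine ⟨fun a => (a1 a).trans (by linarith), ?_, fun r' s' hr hI hs' hd a => ?_⟩
    · refine (norm_sub_le_norm_sub_add_norm_sub _ (ob B o (step N c pos s)) _).trans ?_
      rw [add_mul, mul_assoc]
      exact add_le_add a2 a4
    · exact (a3 r' _ hr (fun a b e => (hI a b e).trans (mul_le_mul_of_nonneg_right l1 (hr e)))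
        (b3 s' hs') ((b2 r' s s' hr hI hs hs').2 hd (pr_bx hd)) a).trans
        (mul_le_mul_of_nonneg_right (by linarith) (hr a))

end N6DecA

theorem n6Dec : DEC := by
  intro κ _ N m wt hw
  obtain ⟨μ, h0, hμ⟩ : ∃ μ : ℝ, 0 < μ ∧ ∀ a, μ ≤ wt a := by
    obtain ⟨μ, h, h'⟩ := Pi.exists_forall_pos_add_lt (x := fun _ => (0 : ℝ)) hw
    exact ⟨μ, h, fun a => by linarith [h' a]⟩
  obtain ⟨T, hT⟩ := (Set.finite_range wt).bddAbove
  obtain ⟨J, hJ⟩ := exists_nat_gt (T / μ)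
  obtain ⟨f, hf, h⟩ := N6DecA.bnd κ N m J
  refine ⟨f, hf, fun Φ la o pos B c hN hB hG => ⟨_, fun s a ha => N6DecA.sup N pos
    (sMul _ _ Φ B c hB).anti hG.hc h0.le hμ s J a ha ?_, h Φ o pos B c hN hB⟩⟩
  rw [div_lt_iff₀ h0] at hJ
  linarith [hT ⟨a, rfl⟩]

end Pool.Agent.MP_5168f5_an.AN.N6
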