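import Pool.Agent.MP_5168f5_an.AN.N6Spec2

/-! Fullness of the pure position of the first family. -/

namespace Pool.Agent.MP_5168f5_an.AN.N6

open H19 H17S H17F G39 Filter H61Z GA GF R4 LC S20

namespace N6F1A

variable {m : ℕ} {κ : Type} [Fintype κ] [DecidableEq κ] {Ω Λ : ℕ → Type} {σ : St m κ}
  {S : Bool → Finset κ} {L₀ : ℝ} {t : κ → ℝ} {pos : κ → Prop} {Lm : ℕ → κ → Fin m → ℝ}
  {X : ∀ n, Dt m κ (Ω n) (Λ n)}

omit [Fintype κ] [DecidableEq κ] in
theorem pu {wt : κ → ℝ} {b : κ} (h : TG.Pu (oN (wA wt t) (tA t)) true b) : t b = wt b := by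
  have h1 : 0 < max (t b) 0 := h.1
  have h2 : wA wt t b - max (t b) 0 = 0 := h.2
  have h3 : 0 ≤ t b := le_of_lt (by simpa using h1)
  rw [wA, if_pos h3, max_eq_left h3] at h2
  linarith

omit [Fintype κ] [DecidableEq κ] in
theorem dp {wt : κ → ℝ} {b : κ} (h : t b = wt b) (p : 0 < wt b) (x : ℝ × ℝ) :
    dep (oN (wA wt t) (tA t)) x b = wt b * x.1 := by
  simp [dep, oN, wA, tA, h, p.le]

omit [DecidableEq κ] in
theorem cd1 {T : κ → Prop} (h : ∀ a b, T a → T b → a = b) : TG.cd T ≤ 1 :=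
  Nat.cast_le_one.2 (Finset.card_le_one.2 fun a ha b hb =>
    h a b (by simpa using ha) (by simpa using hb))

omit [DecidableEq κ] in
theorem cd0 {T : κ → Prop} (h : ¬∃ a, T a) : TG.cd T = 0 := by simpa [TG.cd] using h

theorem small (h : LB σ S L₀ t pos Lm X) (a : ℚ≥0) {f : κ}
    (u : ∀ b, pos b → t b = σ.wt b → b = f) {r δ : ℝ} (hδ : 0 < δ) (e : r * δ ≤ 1) :
    ∀ᶠ n in UF, ∀ ω ∈ (X n).P.S, pb ((X n).fb true a ω)
      (fun v => |co σ (X n) a ω v f| ≤ dl (sM X) (r - δ) n) ≤ dl (sM X) (r - 3 * δ) n := by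
  obtain ⟨L, hL, c⟩ := atom_co h.big h.fr h.lo (h.inc true a)
  obtain ⟨L', hL', c'⟩ := ob_bound h.big (J := κ × Fin m × Fin m)
    (f := fun j n => (X n).B j.1 j.2.1 j.2.2) fun j => h.oB _ _ _
  obtain ⟨F, hF, k⟩ := ob_est σ.Φ.N m (Fintype.card κ)
  have s := hL.mul hL'
  have st : ∀ᶠ n in UF, ∀ b p, ¬pos b → |(X n).B b p σ.o| ≤ dl (sM X) (r - δ) n :=
    eventually_all.2 fun b => eventually_all.2 fun p => eventually_all.2 fun z => h.stab b p z _
  filter_upwards [c (r - δ), st, h.fr, h.spr a δ hδ, ((hF.2 _ _ h.big s).mul s).2 δ hδ]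
    with n c st fr sp bd ω hω
  have m0 : (0 : ℝ) ≤ (X n).M := Nat.cast_nonneg _
  have d0 := dl_pos (sM X) (r - δ) n
  have l1 : L n ≤ L n * L' n := le_mul_of_one_le_right (hL.pos n).le (hL'.1 n)
  have l2 : L' n ≤ L n * L' n := le_mul_of_one_le_left (hL'.pos n).le (hL.1 n)
  refine (pb_mono fun v hv z => ?_).trans ((sp ω hω ((r - 2 * δ) * (X n).M) (by
    rw [le_div_iff₀ hδ]
    nlinarith [mul_nonneg m0 (sq_nonneg δ)]) (ob (X n).B σ.o 0)).trans_eq (by
      unfold dl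
      congr 1
      ring))
  obtain ⟨-, e1, e2, e3⟩ := c ω v ((mem_fb hω).1 hv)
  have y : ∀ b p, |co σ (X n) a ω v b| ≤ dl (sM X) (r - δ) n →
      |co σ (X n) a ω v b * (X n).B b p σ.o| ≤ L n * L' n * dl (sM X) (r - δ) n := fun b p w => by
    rw [abs_mul, mul_comm]
    exact mul_le_mul ((c' n (b, p, σ.o)).trans l2) w (abs_nonneg _) (s.pos n).le
  have := (k κ σ.Φ (X n).B (X n).c σ.o _ (L n * L' n * dl (sM X) (r - δ) n) 0 _ rfl rfl fr.1
    (s.1 n) (mul_nonneg (s.pos n).le d0.le) (fun b q p => (c' n (b, p, q)).trans l2)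
    (fun b => by simpa using (s.pos n).le) fun b => (e2 b).trans l1).2.1 fun b p => by
      by_cases w : b ∈ S true
      · by_cases w' : pos b
        · exact y b p (u b w' ((h.st b).1 w) ▸ z)
        · rw [abs_mul]
          exact mul_le_mul ((e2 b).trans l1) (st b p w') (abs_nonneg _) (s.pos n).le
      · exact y b p (e3 b w)
  rw [((sMul _ _ _ _ _ fr.1).one _).2, ← e1, ← mul_assoc] at this
  refine this.trans ((mul_le_mul_of_nonneg_right bd d0.le).trans_eq ?_)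
  rw [dl, ← Real.exp_add]
  congr 1
  ring

end N6F1A

open N6F1A in
theorem n6F1 : SF1 := by
  intro m κ _ _ Ω Λ σ S L₀ t pos Lm X E L W Q h _ atc cel u x r x1 _ hr g g'
  have r0 : (0 : ℝ) ≤ r := Rat.cast_nonneg.2 hr
  by_cases z : ∃ f, pos f ∧ TG.Pu (oN (wA σ.wt t) (tA t)) true f
  · obtain ⟨f, pf, qf⟩ := z
    have c1 : TG.cd (fun a => pos a ∧ TG.Pu (oN (wA σ.wt t) (tA t)) true a) ≤ 1 :=
      cd1 fun a b ha hb => u a b ha.1 hb.1 (pu ha.2) (pu hb.2)
    have i := atc true ⟨x.1, x1⟩ _ _ (cl_sc _ _) g fun b hb =>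
      (dp ((h.st b).1 hb) (h.wp b) _).le
    have e := ent (P := sP X) (M := sM X) (A := sO X true ⟨x.1, x1⟩) (Y := fun n => (sy σ X n).C
      (TG.sc (X n).M (TG.up (dep (oN (wA σ.wt t) (tA t)) (x.1, x.2)) r
        fun a => pos a ∧ TG.Pu (oN (wA σ.wt t) (tA t)) true a))) r0 fun ε hε => by
      have p : 0 < min (ε / 3) (1 / (r + 1 : ℝ)) := lt_min (by positivity) (by positivity)
      have p1 := min_le_left (ε / 3) (1 / (r + 1 : ℝ))
      have p2 := (le_div_iff₀ (by positivity)).1 (min_le_right (ε / 3) (1 / (r + 1 : ℝ)))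
      filter_upwards [small h ⟨x.1, x1⟩ (fun b a c => u b f a pf c (pu qf)) (r := r) p
        (by nlinarith), cel true ⟨x.1, x1⟩ _ _ g' p] with n a b
      refine (pb_zero fun ω hω => not_not.2 ?_).trans_le hε.le
      refine (pb_mono fun v hv k => ?_).trans ((a ω hω).trans (dl_anti _ (by linarith) n))
      refine (b ω v ((mem_fb hω).1 hv) k.symm f).trans_eq ?_
      rw [TG.up, if_pos ⟨pf, qf⟩, dp (pu qf) (h.wp f)]
      congr 1
      exact congrArg (· - _) (add_sub_cancel_left _ _)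
    refine Le.of2 e i (.of_forall fun n => ?_)
    have := ch_tri' (P := (X n).P) ((sy σ X n).C (TG.sc (X n).M (TG.up
      (dep (oN (wA σ.wt t) (tA t)) (x.1, x.2)) r fun a => pos a ∧ TG.Pu (oN (wA σ.wt t) (tA t))
        true a))) ((X n).O true ⟨x.1, x1⟩)
      ((sy σ X n).Z (TG.sc (X n).M (dep (oN (wA σ.wt t) (tA t)) (x.1, x.2))))
    have := mul_le_mul_of_nonneg_right c1 (mul_nonneg r0 (Nat.cast_nonneg (α := ℝ) (X n).M))
    unfold TG.Sy.H
    linarith
  · refine Le.of_le fun n => le_trans (le_of_eq ?_) (ch_nonneg _ _)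
    rw [cd0 z, zero_mul, zero_mul]

end Pool.Agent.MP_5168f5_an.AN.N6
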