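import Pool.Agent.MP_5168f5_an.AN.N6Spec2

/-! Kakeya sets in all dimensions: fullness of the positions without saving. -/

namespace Pool.Agent.MP_5168f5_an.AN.N6

open H19 H17S H17F G39 Filter H61Z GA GF R4 LC S20 MvPolynomial

namespace N6F2A

theorem atom {Ω α β γ : Type} {P : FP Ω} {Y : Ω → α} {A : Ω → β} {G : Ω → Prop} {θ N δ : ℝ}
    (h0 : 0 < θ) (hδ : 0 ≤ δ) (f : β → Ω → γ) (R : γ → γ → Prop) (hN : θ⁻¹ ≤ N)
    (hG : ∀ ω ∈ P.S, G ω → ∀ T : Finset γ, (T.card : ℝ) ≤ N →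
      pb (cv P A (A ω)) (fun v => ∃ y ∈ T, R (f (A ω) v) y) ≤ δ)
    (hR : ∀ v ∈ P.S, ∀ u ∈ P.S, A v = A u → Y v = Y u → R (f (A u) u) (f (A u) v)) :
    pb P (fun ω => ¬dn P Y A ω ≤ θ) ≤ δ + pb P fun ω => ¬G ω := by
  classical
  have h1 : pb P (fun ω => θ ≤ dn P Y A ω ∧ G ω) ≤ δ := pb_tot_le A fun a ha => by
    by_cases c : ∃ ω ∈ (cv P A (A a)).S, G ω
    · obtain ⟨ω, h2, h3⟩ := c
      obtain ⟨h4, h5⟩ := (mem_cv ha ω).1 h2
      obtain ⟨T, t1, t2⟩ := few_dn P Y A h0 ω h4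
      rw [← h5]
      refine le_trans (pb_mono fun u hu k => ?_) (hG ω h4 h3 (T.image fun c => f (A ω)
        (if k : ∃ v ∈ P.S, Y v = c ∧ A v = A ω then k.choose else ω))
        ((Nat.cast_le.2 Finset.card_image_le).trans (t1.trans hN)))
      obtain ⟨u1, u2⟩ := (mem_cv h4 u).1 hu
      have z : ∃ v ∈ P.S, Y v = Y u ∧ A v = A ω := ⟨u, u1, rfl, u2⟩
      refine ⟨_, Finset.mem_image_of_mem _ (t2 u u1 u2 k.1), ?_⟩
      rw [dif_pos z]
      have := hR _ z.choose_spec.1 u u1 (z.choose_spec.2.2.trans u2.symm) z.choose_spec.2.1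
      rwa [u2] at this
    · exact (pb_zero fun v hv k => c ⟨v, hv, k.2⟩).trans_le hδ
  refine le_trans (pb_mono fun ω _ k => ?_) ((pb_or _ _ _).trans (add_le_add h1 le_rfl))
  exact (em _).imp_left fun z => ⟨(not_le.1 k).le, z⟩

theorem num {q r ε : ℝ} (hq : 0 ≤ q) (hr : 0 < r) (hε : 0 < ε) :
    ∃ s, 0 < s ∧ s ≤ ε / 2 ∧ 3 * s < r ∧ q * r - ε ≤ (q - s) * (r - 3 * s) := by
  have h0 : 0 < 3 * q + r + 2 := by positivity
  obtain ⟨s, s0, s1, s2⟩ : ∃ s, 0 < s ∧ s ≤ ε / (3 * q + r + 2) ∧ s ≤ r / 4 :=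
    ⟨min _ _, lt_min (by positivity) (by positivity), min_le_left _ _, min_le_right _ _⟩
  rw [le_div_iff₀ h0] at s1
  refine ⟨s, s0, ?_, by linarith, ?_⟩ <;> nlinarith [mul_nonneg hq s0.le, mul_pos hr s0]

end N6F2A

open N6F2A in
theorem n6F2 : SF2 := by
  intro m κ _ _ Ω Λ σ S L₀ t pos Lm X E L W Q b w atc cel gsi inv hne x r x1 x2 hr g g'
  classical
  have hd : ∀ e, 0 ≤ t e → dep (oN (wA σ.wt t) (tA t)) (x.1, x.2) e =
      t e * x.1 + (σ.wt e - t e) * x.2 := fun e h => by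
    simp only [dep, oN, wA, tA, if_pos h, max_eq_left h]
  have hS : (fun e => pos e ∧ TG.Pu (oN (wA σ.wt t) (tA t)) false e) = fun e => pos e ∧ t e = 0 :=
    funext fun e => propext (and_congr_right fun h => by
      have h1 := b.ad.live e h
      show P2 _ e ↔ _
      simp only [P2, oN, wA, tA, if_pos h1, max_eq_left h1]
      exact ⟨And.left, fun k => ⟨k, by linarith [b.wp e]⟩⟩)
  rw [hS] at g' ⊢
  rcases hr.eq_or_lt with rfl | hr
  · exact Le.of_le fun n => by simpa [TG.Sy.H] using ch_nonneg _ _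
  have r0 : (0 : ℝ) < r := by exact_mod_cast hr
  have x3 : (x.1 : ℝ) ≤ x.2 := by exact_mod_cast x2
  obtain ⟨a, ha⟩ : ∃ a : ℚ≥0, (a : ℝ) = x.2 := ⟨⟨x.2, x1.trans x2⟩, rfl⟩
  have i1 := atc false a _ _ (cl_sc (sM X) _) g fun e he => by
    have h := (b.sf e).1 he
    rw [hd e h, ha]
    linarith [mul_le_mul_of_nonneg_left x3 h]
  obtain ⟨q, e, e1, e2, e3⟩ : ∃ (q : ℕ) (e : Fin q → κ), Function.Injective e ∧
      (∀ i, pos (e i) ∧ t (e i) = 0) ∧ TG.cd (fun e => pos e ∧ t e = 0) = q :=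
    ⟨_, fun i => ((Finset.univ.filter fun e => pos e ∧ t e = 0).equivFin.symm i : κ),
      Subtype.val_injective.comp (Equiv.injective _),
      fun i => (Finset.mem_filter.1
        ((Finset.univ.filter fun e => pos e ∧ t e = 0).equivFin.symm i).2).2, by unfold TG.cd; congr⟩
  obtain ⟨ρ, hρ⟩ := ex_rp X false a
  have i2 : Le (sM X) (fun n => q * r * (X n).M) fun n => ch (X n).P ((sy σ X n).C (TG.sc (X n).M
      (TG.up (dep (oN (wA σ.wt t) (tA t)) (x.1, x.2)) r fun e => pos e ∧ t e = 0)))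
      ((X n).O false a) := ent (P := sP X) (by positivity) fun ε hε => by
    obtain ⟨s, s0, s1, s2, s3⟩ := num (Nat.cast_nonneg q) r0 hε
    filter_upwards [gsi a q e s (r - 3 * s) ρ e1 (fun i => (e2 i).1)
      (fun k => hne (by rw [e3, k]; push_cast; rfl)) s0 (by linarith) hρ (ε / 2) (half_pos hε),
      cel false a _ s g' s0, inv a (r - s) s (by linarith) s0, hρ] with n a1 a2 a3 a4
    refine (atom (dl_pos _ _ _) s0.le (fun z v => wv (W n) e ((X n).ps σ a (ρ n z) v))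
      (fun y y' => ‖y - y'‖ ≤ dl (sM X) (r - 3 * s + s) n)
      (N := Real.exp ((q - s) * (r - 3 * s) * (X n).M)) ?_ (fun _ _ k => k)
      fun v hv u hu k1 k2 => ?_).trans ((add_le_add s1 a1).trans (by linarith))
    · rw [dl_inv, Real.exp_le_exp]
      exact mul_le_mul_of_nonneg_right s3 (Nat.cast_nonneg _)
    · refine (pi_norm_le_iff_of_nonneg (dl_pos _ _ _).le).2 fun i => ?_
      rw [show (r : ℝ) - 3 * s + s = r - s - s by ring]
      refine a3 _ v u ⟨(a4 u hu).1, hv, (a4 u hu).2.trans k1.symm⟩ ⟨hv, hu, k1⟩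
        (fun c c1 c2 => (a2 v u ⟨hv, hu, k1⟩ k2 c).trans_eq ?_) _ (e2 i).1 (e2 i).2
      rw [TG.up, if_pos ⟨c1, c2⟩, hd c c2.ge, c2, ha]
      congr 1; ring
  refine Le.of2 i2 i1 (Eventually.of_forall fun n => ?_)
  have := ch_tri' (P := (X n).P) ((sy σ X n).C (TG.sc (X n).M
    (TG.up (dep (oN (wA σ.wt t) (tA t)) (x.1, x.2)) r fun e => pos e ∧ t e = 0)))
    ((X n).O false a) ((sy σ X n).Z (TG.sc (X n).M (dep (oN (wA σ.wt t) (tA t)) (x.1, x.2))))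
  rw [e3, TG.Sy.H]
  linarith

end Pool.Agent.MP_5168f5_an.AN.N6
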