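import Pool.Agent.MP_5168f5_an.AN.N6Spec2

/-! Kakeya sets in all dimensions: the positions are not full. -/

namespace Pool.Agent.MP_5168f5_an.AN.N6

open H19 H17S H17F G39 Filter H61Z GA GF R4 LC S20 Finset

namespace N6FinA

/-- The left inverse bounds the positions. -/
theorem li_bd {m : ℕ} {κ : Type} [Fintype κ] [DecidableEq κ] {la : Fin m → ℝ} {o : Fin m}
    {wt : κ → ℝ} {pos : κ → Prop} {B : κ → Mt (Fin m)} {Λ : κ → Fin m → ℝ}
    (h : LI la o wt pos B Λ) {g : κ → ℝ} {L L' θ τ : ℝ} (hL : 1 ≤ L) (hL' : 1 ≤ L') (hθ : 0 ≤ θ)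
    (hτ : 0 ≤ τ) (h1 : ∀ a p, |Λ a p| ≤ L') (h2 : ∀ b, |g b| ≤ L)
    (h3 : ∀ b p, ¬pos b → |B b p o| ≤ τ) (h4 : Cb o θ (vec B g)) {a : κ} (ha : pos a) :
    |g a| ≤ (m + 1) * (L' * (θ + (Fintype.card κ + 1) * (L * τ))) := by
  classical
  have k := h4.add (cb_vec (B := B) (t := fun b => if pos b then 0 else g b) (o := o)
    (θ := L * τ) (by positivity) fun b p => by
      split_ifs with e
      · rw [zero_mul, abs_zero]; positivity
      · rw [abs_mul]; exact mul_le_mul (h2 b) (h3 b p e) (abs_nonneg _) (by linarith)).neg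
  have e : g a = ∑ p, Λ a p * (vec B g + -vec B fun b => if pos b then 0 else g b) p o := by
    simp only [vec, Matrix.add_apply, Matrix.neg_apply, Matrix.sum_apply, Matrix.smul_apply,
      smul_eq_mul, ← sub_eq_add_neg, ← sum_sub_distrib, ← sub_mul, mul_sum]
    rw [sum_comm, sum_eq_single a (fun b _ y => ?_) (by simp)]
    · simpa only [if_pos ha, sub_zero, mul_left_comm _ (g a), ← mul_sum, if_true, mul_one] using
        congrArg (g a * ·) (h.inv a a ha ha).symm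
    · by_cases x : pos b
      · simp only [mul_left_comm _ (g b - _), ← mul_sum, h.inv a b ha x, if_neg y.symm, mul_zero]
      · simp [x]
  rw [e]
  refine (abs_sum_le_sum_abs _ _).trans ((sum_le_card_nsmul _ _
    (L' * (θ + (Fintype.card κ + 1) * (L * τ))) fun p _ => ?_).trans ?_)
  · rw [abs_mul]; exact mul_le_mul (h1 a p) (k p) (abs_nonneg _) (by linarith)
  · simp only [card_univ, Fintype.card_fin, nsmul_eq_mul]
    exact mul_le_mul_of_nonneg_right (by linarith) (by positivity)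

end N6FinA

theorem n6Fin : SFin := fun m κ _ _ Ω Λ σ S L₀ t pos Lm X _ _ _ _ b _ ca hd hF => by
  classical
  have hM := b.big
  have hA : GO.Ab (o0 (wA σ.wt t)) pos (GO.Ng (sM X) fun n => (X n).c) :=
    ⟨ca.alg.wt, ca.alg.live, ca.alg.hom, ca.alg.sub⟩
  have idr := GO.GOh1A.idr sIdR hM b.oc (up_eq 0 1 pos ▸ hA.gd_pos GO.gd_zero zero_le_one)
    ((cl_sc (sM X) (TG.up 0 1 pos)).ap hM)
  obtain ⟨r, hr⟩ := ex_rp X false 0
  obtain ⟨ε, e0, e1, e2⟩ : ∃ ε : ℝ, 0 < ε ∧ ε ≤ 1 ∧ ε < σ.cc :=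
    ⟨min 1 (σ.cc / 2), lt_min one_pos (half_pos b.cc), min_le_left _ _,
      (min_le_right _ _).trans_lt (half_lt_self b.cc)⟩
  have : ∀ n ρ, ∃ Q : Finset (V m), (X n).Ngv σ 0 ε → ρ ∈ (X n).P.S →
      (Q.card : ℝ) ≤ Real.exp (ε * (X n).M + (σ.d + 1 - σ.cc) * (X n).M) ∧ ∀ v ∈ (X n).P.S,
        (X n).O false 0 v = (X n).O false 0 ρ →
        ∃ q ∈ Q, ‖(X n).ps σ 0 ρ v - q‖ ≤ Real.exp (-(X n).M) := fun n ρ => by
    by_cases h : (X n).Ngv σ 0 ε ∧ ρ ∈ (X n).P.S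
    · exact (h.1 ρ h.2 _ (Nat.cast_nonneg _) ((le_div_iff₀ e0).2
        (mul_le_of_le_one_right (Nat.cast_nonneg _) e1))).imp fun _ k _ _ => k
    · exact ⟨∅, fun u v => absurd ⟨u, v⟩ h⟩
  choose Q hQ using this
  have : ∀ n ω, ∃ q : V m, (∃ q ∈ Q n (r n ((X n).O false 0 ω)),
      ‖(X n).ps σ 0 (r n ((X n).O false 0 ω)) ω - q‖ ≤ Real.exp (-(X n).M)) →
      q ∈ Q n (r n ((X n).O false 0 ω)) ∧
        ‖(X n).ps σ 0 (r n ((X n).O false 0 ω)) ω - q‖ ≤ Real.exp (-(X n).M) := fun n ω =>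
    ⟨Classical.epsilon _, fun h => Classical.epsilon_spec h⟩
  choose q hq using this
  have : ∀ n (y : V m × Λ n), ∃ v : Ω n, ∀ ω ∈ (X n).P.S, (q n ω, (X n).O false 0 ω) = y →
      v ∈ (X n).P.S ∧ (q n v, (X n).O false 0 v) = y := fun n y => by
    by_cases h : ∃ ω ∈ (X n).P.S, (q n ω, (X n).O false 0 ω) = y
    · exact h.imp fun v hv _ _ _ => hv
    · exact ⟨r n y.2, fun ω u v => absurd ⟨ω, u, v⟩ h⟩
  choose s hs using this
  have ev : ∀ᶠ n in UF, ∀ ω ∈ (X n).P.S, At (X n) false 0 (r n ((X n).O false 0 ω)) ω ∧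
      ((Q n (r n ((X n).O false 0 ω))).card : ℝ) ≤
        Real.exp (ε * (X n).M + (σ.d + 1 - σ.cc) * (X n).M) ∧
      q n ω ∈ Q n (r n ((X n).O false 0 ω)) ∧
      ‖(X n).ps σ 0 (r n ((X n).O false 0 ω)) ω - q n ω‖ ≤ Real.exp (-(X n).M) := by
    filter_upwards [hr, b.ngv 0 ε e0] with n u v ω h
    have k := hQ n _ v (u ω h).1
    exact ⟨⟨(u ω h).1, h, (u ω h).2⟩, k.1, hq n ω (k.2 ω h (u ω h).2.symm)⟩
  obtain ⟨L0, s0, a0⟩ := atom_co hM b.fr b.lo (b.inc false 0)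
  obtain ⟨L1, s1, a1⟩ := ob_bound hM (J := κ × Fin m × Fin m) fun x => b.oB x.1 x.2.1 x.2.2
  obtain ⟨L2, s2, a2⟩ := ob_bound hM (J := κ × Fin m) fun x => b.ad.ob x.1 x.2
  obtain ⟨f, pf, hf⟩ := ob_est σ.Φ.N m (Fintype.card κ)
  have s3 := s0.mul s1
  have s4 := (((pf.2 _ _ hM s3).const_mul hM one_le_two).add
    (s3.const_mul hM ((pg_nat (Fintype.card κ)).1 1 le_rfl)) hM)
  have s5 := ((s2.mul s4).const_mul hM ((pg_nat m).1 1 le_rfl)).mul s0
  have det := sDet _ κ (sM X) σ.Φ (fun n => Bl σ (X n) 0) (fun n => (X n).c) Ω _ (sP X)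
    (fun n ω => (X n).j (r n ((X n).O false 0 ω))) (fun n => (X n).j)
    (fun n ω => (q n ω, (X n).O false 0 ω)) (fun n y => (X n).j (s n y)) _ _ hM ca.alg.fr idr
    ⟨2, zero_le_two, ?_⟩ (.of_forall fun n => ((Fn.comp (fun z => (X n).j (r n z)) _).right _)) s5
    (Whp.of_ev ?_)
  · have k : Le (sM X) (fun n => TG.cd pos * (X n).M) fun n =>
        (ε + (σ.d + 1 - σ.cc)) * (X n).M := by
      refine ((hF 1 zero_le_one).add det).of_sub (ev.mono fun n u => ?_)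
      have k1 := ch_det (P := (X n).P) (F := q n) (G := (X n).O false 0) fun ω h =>
        ⟨_, (u ω h).2.1, fun v h' e => e ▸ (u v h').2.2.1⟩
      have k2 := ch_drop (P := (X n).P) ((sy σ X n).C (TG.sc (X n).M (TG.up 0 1 pos))) (q n)
        ((X n).O false 0)
      have k3 : (sy σ X n).H (TG.sc (X n).M 0) (TG.sc (X n).M (TG.up 0 1 pos)) ≤ _ :=
        (ch_anti (Fn.snd _ _)).trans k2
      rw [Real.log_exp] at k1
      have k4 : (sy σ X n).C (TG.sc (X n).M (TG.up 0 1 pos)) = fun ω => cell (Bl σ (X n) 0)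
        (TG.rA (TG.sc (X n).M (TG.up 0 1 pos))) ((X n).j ω) := rfl
      rw [k4] at k3
      linarith
    linarith [k.num hM]
  · filter_upwards [ev, a0 0, b.fr, s0.2 1 one_pos] with n u v w x ω h
    obtain ⟨y1, -, y2, -⟩ := v _ _ (u ω h).1
    refine ⟨w.2.2 _ (u ω h).1.1, _, fun a => ((y2 a).trans x).trans ?_, y1⟩
    have m0 : (0 : ℝ) ≤ (X n).M := Nat.cast_nonneg _
    simp only [TG.rA, TG.sc, TG.up, ← Real.exp_add, Real.exp_le_exp, Pi.zero_apply]
    split_ifs <;> linarith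
  · filter_upwards [ev, a0 0, b.fr, b.ad.li, eventually_all.2 fun x : {a // ¬pos a} × Fin m =>
      b.stab x.1.1 x.2 x.1.2 1] with n u v w x z ω h
    obtain ⟨h', e⟩ := hs n _ ω h rfl
    generalize s n (q n ω, (X n).O false 0 ω) = ω' at h' e
    rw [Prod.mk.injEq] at e
    have t1 := u ω h
    have t2 := u ω' h'
    rw [e.1, e.2] at t2
    obtain ⟨y1, -, y2, -⟩ := v ω' ω ⟨h', h, e.2⟩
    obtain ⟨y3, y4, y5, -⟩ := v _ _ t2.1
    have l0 := s0.1 n
    have l1 := s1.1 n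
    have c0 : ∀ {x : ℝ}, x ≤ L0 n → x ≤ L0 n * L1 n := fun x =>
      x.trans (le_mul_of_one_le_right (by linarith) l1)
    have k := (hf κ σ.Φ (X n).B (X n).c σ.o _ (2 * Real.exp (-(X n).M)) _ _ rfl rfl w.1 (s3.1 n)
      (by positivity) (fun a o p => (a1 n (a, p, o)).trans (le_mul_of_one_le_left (by linarith) l0))
      (fun a => c0 (y5 a)) fun a => c0 (y2 a)).2.2 (by
        rw [← co_mul w t1.1.1 y3 y1, ← (v _ _ t1.1).2.1, ← y4]
        linarith [norm_sub_le_norm_sub_add_norm_sub ((X n).ps σ 0 (r n ((X n).O false 0 ω)) ω)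
          (q n ω) ((X n).ps σ 0 (r n ((X n).O false 0 ω)) ω'), t1.2.2.2,
          (norm_sub_rev _ _).trans_le t2.2.2.2])
    have p5 := ((s2.mul s4).const_mul hM ((pg_nat m).1 1 le_rfl)).1 n
    refine ⟨_, fun a => ?_, y1⟩
    by_cases c : pos a
    · have f0 := pf.nn (s3.1 n)
      refine (N6FinA.li_bd x (s3.1 n) (s2.1 n) (by positivity) (dl_pos _ _ _).le
        (fun a p => a2 n (a, p)) (fun a => c0 (y2 a)) (fun a p c => z (⟨a, c⟩, p)) k c).trans ?_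
      simp only [TG.rA, TG.sc, TG.up, if_pos c, Pi.zero_apply, zero_add, one_mul, dl]
      exact le_of_eq_of_le (by ring) (mul_le_mul_of_nonneg_right
        (le_mul_of_one_le_right (zero_le_one.trans p5) l0) (Real.exp_pos _).le)
    · refine ((y2 a).trans (le_mul_of_one_le_left (zero_le_one.trans l0) p5)).trans_eq ?_
      simp [TG.rA, TG.sc, TG.up, c]

end Pool.Agent.MP_5168f5_an.AN.N6
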