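import Pool.Agent.MP_5168f5_an.AN.N6Spec2

/-! Row GSI: independent functions of the position are full in most cells. -/

namespace Pool.Agent.MP_5168f5_an.AN.N6

open H19 H17S H17F G39 Filter H61Z GA GF R4 LC S20 MvPolynomial
open Pk (cn kc)

namespace N6GsiA

variable {q m : ℕ}

/-- Scaling of the variables. -/
noncomputable def sc (c : ℝ) (H : MvPolynomial (Fin q) ℝ) : MvPolynomial (Fin q) ℝ :=
  aeval (fun l => c • (X l : MvPolynomial (Fin q) ℝ)) H

theorem sc_deg (c : ℝ) {H : MvPolynomial (Fin q) ℝ} {E : ℕ} (h : H.totalDegree ≤ E) :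
    (sc c H).totalDegree ≤ E :=
  (kc.deg _ H E 1 h fun l => (totalDegree_smul_le _ _).trans (totalDegree_X l).le).trans_eq
    (mul_one E)

theorem sc_val (c : ℝ) (H : MvPolynomial (Fin q) ℝ) (y : V q) :
    eval y (sc c H) = eval (c • y) H := by
  rw [sc, Nc.eval_aeval]
  congr 2
  funext l
  simp [Nc.ev]

theorem sc_cn {L : ℝ} (hL : 1 ≤ L) {H : MvPolynomial (Fin q) ℝ} {E : ℕ} (h : H.totalDegree ≤ E) :
    cn H ≤ cn (sc L⁻¹ H) * L ^ E := by
  have e : sc L (sc L⁻¹ H) = H := MvPolynomial.funext fun y => by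
    rw [sc_val, sc_val, smul_smul, inv_mul_cancel₀ (by linarith), one_smul]
  refine (congrArg cn e).ge.trans (kc.comp _ _ E L (sc_deg _ h) hL fun l => ?_)
  rw [kc.smul, kc.var, mul_one, abs_of_nonneg (by linarith)]

theorem ev_sc {κ : Type} (c : ℝ) (W : κ → MvPolynomial (Fin m) ℝ) (e : Fin q → κ) (y : V m) :
    Nc.ev (fun l => c • W (e l)) y = c • wv W e y := by
  funext l
  simp [Nc.ev, wv]

end N6GsiA

open N6GsiA in
theorem n6Gsi : SGsi := by
  intro m κ _ _ Ω Λ σ S L₀ t pos Lm X E L W Q b w rel a q e δ h r inj hp hq hδ hh hr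
  classical
  obtain ⟨i, hi⟩ := exists_nat_one_div_lt (K := ℝ) (half_pos hδ)
  obtain ⟨θ, hθ⟩ : ∃ θ, θ = h / (σ.mg q E i + 1) := ⟨_, rfl⟩
  have θ0 : 0 < θ / 4 := by rw [hθ]; positivity
  obtain ⟨ε, ε0, e1, e2, e3, e4⟩ : ∃ ε : ℝ, 0 < ε ∧ ε ≤ θ / 4 ∧ ε ≤ δ / 2 * h ∧ ε ≤ δ ∧ ε ≤ 1 / h :=
    ⟨min (min (θ / 4) (δ / 2 * h)) (min δ (1 / h)), by positivity,
      (min_le_left _ _).trans (min_le_left _ _), (min_le_left _ _).trans (min_le_right _ _),
      (min_le_right _ _).trans (min_le_left _ _), (min_le_right _ _).trans (min_le_right _ _)⟩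
  let τ : ℕ → ℝ := fun n => Real.exp (ε * (X n).M - h * (X n).M / (σ.mg q E i + 1))
  have hτ : ∀ n, τ n ≤ dl (sM X) (θ / 4) n * dl (sM X) (θ / 4) n := fun n => by
    rw [← dl_add, dl]
    refine Real.exp_le_exp.2 ?_
    rw [mul_div_right_comm, ← hθ]
    nlinarith [Nat.cast_nonneg (α := ℝ) (X n).M]
  have τ1 : ∀ K : ℝ, 0 < K → ∀ᶠ n in UF, τ n ≤ K := fun K hK => by
    filter_upwards [dl_lt b.big (lt_min hK one_pos) θ0] with n u
    rw [lt_min_iff] at u
    nlinarith [hτ n, dl_pos (sM X) (θ / 4) n]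
  let G : ∀ n, Λ n → MvPolynomial (Fin q) ℝ → Ω n → Prop := fun n z H v =>
    τ n ≤ |eval ((L n)⁻¹ • wv (W n) e ((X n).ps σ a (r n z) v)) H|
  let Bad : ∀ n, Λ n → MvPolynomial (Fin q) ℝ → Prop := fun n z H =>
    H.totalDegree ≤ σ.mg q E i ∧ cn H = 1 ∧ pb (cv (X n).P ((X n).O false a) z) (G n z H) < τ n
  have ch : ∀ n z, ∃ H, H.totalDegree ≤ σ.mg q E i ∧ ((∃ H', Bad n z H') → Bad n z H) :=
    fun n z => by
      by_cases u : ∃ H', Bad n z H'
      · exact u.imp fun H v => ⟨v.1, fun _ => v⟩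
      · exact ⟨0, by simp, fun v => absurd v u⟩
  choose H h1 h2 using ch
  have k1 := rel false a q _ e (θ / 4) r (fun n z => sc (L n)⁻¹ (H n z)) inj
    (fun l => ⟨hp l, (b.sf _).2 (b.ad.live _ (hp l))⟩) θ0 hr fun n z => sc_deg _ (h1 n z)
  have k2 : Whp (sP X) fun n ω => ¬∃ H', Bad n ((X n).O false a ω) H' := fun η hη => by
    filter_upwards [k1 _ (half_pos hη), τ1 _ one_half_pos, sub_dl (w.sub.pow (σ.mg q E i)) θ0]
      with n u v x
    have f := pb_fib (X n).P ((X n).O false a) (fun z => ∃ H', Bad n z H')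
      (fun z ω => ¬G n z (H n z) ω) (κ := 1 / 2) fun ω _ y => by
        rw [pb_not]; linarith [(h2 n _ y).2.2]
    simp only [not_not]
    refine (fun s k => by linarith : ∀ s, 1 / 2 * s ≤ η / 2 → s ≤ η) _
      (f.trans ((pb_mono fun ω _ y z => y.2 ?_).trans u))
    have c := sc_cn (w.sub.1 n) (h1 n ((X n).O false a ω))
    have p := dl_pos (sM X) (θ / 4) n
    rw [(h2 n _ y.1).2.1] at c
    rw [sc_val] at z
    refine (hτ n).trans ((mul_le_mul_of_nonneg_left ?_ p.le).trans z)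
    rw [← mul_le_mul_iff_left₀ (inv_pos.2 p), mul_inv_cancel₀ p.ne']
    exact c.trans (mul_le_mul_of_nonneg_left x (kc.nonneg _))
  refine k2.mono ?_
  filter_upwards [b.gs q hq E i a ε ε0, τ1 δ hδ, hr] with n g u x ω hω z T hT
  have m0 : (0 : ℝ) ≤ (X n).M := Nat.cast_nonneg _
  have l1 := w.sub.1 n
  have l2 : |(L n)⁻¹| ≤ 1 := by
    rw [abs_of_nonneg (by positivity)]; exact inv_le_one_of_one_le₀ l1
  have k := g _ (x ω hω).1 (h * (X n).M) (by
      rw [le_div_iff₀ ε0]; rw [le_div_iff₀ hh] at e4; nlinarith) (fun l => (L n)⁻¹ • W n (e l))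
    (fun l => ⟨(totalDegree_smul_le _ _).trans ((w.bd n).1 _).1, by
      rw [kc.smul, abs_of_nonneg (by positivity), inv_mul_le_iff₀ (by linarith), mul_one]
      exact ((w.bd n).1 _).2⟩)
    (fun H' d c => by
      simp only [ev_sc, Dt.fb, (x ω hω).2]
      exact not_lt.1 fun y => z ⟨H', d, c, y⟩) (T.image fun y => (L n)⁻¹ • y)
    ((Nat.cast_le.2 Finset.card_image_le).trans (hT.trans (Real.exp_le_exp.2 (by
      nlinarith [mul_le_mul_of_nonneg_right e2 m0,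
        mul_le_mul_of_nonneg_right hi.le (mul_nonneg hh.le m0)]))))
  simp only [ev_sc, Dt.fb, (x ω hω).2] at k
  refine (pb_mono fun v _ ⟨y, y1, y2⟩ => ⟨_, Finset.mem_image_of_mem _ y1, ?_⟩).trans (k.trans u)
  rw [← smul_sub, norm_smul]
  exact (mul_le_of_le_one_left (norm_nonneg _) l2).trans (y2.trans (Real.exp_le_exp.2 (by
    nlinarith [mul_le_mul_of_nonneg_right e3 m0])))

end Pool.Agent.MP_5168f5_an.AN.N6
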