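import Pool.Agent.MP_5168f5_an.AN.GOSpec
import Pool.Agent.MP_5168f5_an.AN.GAApi

/-! Row OV1: the adapted basis over the ring of subexponential sequences. -/

namespace Pool.Agent.MP_5168f5_an.AN.GO

open H19 H17S H17F G39 Filter H61Z GA GF R4 Matrix

namespace GOv1A

variable {κ k : Type} [Fintype κ] [DecidableEq κ] {om : κ → ℝ × ℝ} {lv : κ → ℕ} {μ : ℝ}

theorem pat_inv [Field k] {A B : Matrix κ κ k} (h : Pat om lv A) (e : A * B = 1) : Pat om lv B := by
  let S : Submodule k (Matrix κ κ k) :=
    { carrier := {X | Pat om lv X}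
      add_mem' := fun {X Y} u v a b w => by
        by_cases z : X a b = 0
        · exact v a b (by simpa [z] using w)
        · exact u a b z
      zero_mem' := fun a b w => absurd rfl w
      smul_mem' := fun r X u a b w => u a b (right_ne_zero_of_mul w) }
  have inj : ∀ X Y : Matrix κ κ k, A * X = A * Y → X = Y := fun X Y w => by
    rw [← Matrix.one_mul X, ← Matrix.one_mul Y, ← mul_eq_one_comm.1 e, Matrix.mul_assoc, w,
      Matrix.mul_assoc]
  obtain ⟨X, hX⟩ := LinearMap.surjective_of_injective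
    (f := (LinearMap.mulLeft k A).restrict (p := S) (q := S) fun X u => h.mul u)
    (fun X Y w => Subtype.ext (inj _ _ (congrArg Subtype.val w))) ⟨1, pat_one⟩
  exact inj _ _ ((congrArg Subtype.val hX).trans e.symm) ▸ X.2

omit [DecidableEq κ] in
theorem nc_map {R S : Type} [CommRing R] [CommRing S] (f : R →+* S) (c : κ → κ → κ → R)
    (A B : Matrix κ κ R) (a b e : κ) :
    f (nc c A B a b e) = nc (fun a b e => f (c a b e)) (A.map f) (B.map f) a b e := by
  simp [nc, br, vecMul, dotProduct, map_sum]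

omit [Fintype κ] [DecidableEq κ] in
theorem live (wt : ∀ a, 0 ≤ (om a).1 ∧ 0 ≤ (om a).2) {a b e : κ} (h : Hm om a b e) : om e ≠ 0 :=
  fun z => h.1 (by
    have u := congrArg Prod.fst (h.2.2.symm.trans z)
    have v := congrArg Prod.snd (h.2.2.symm.trans z)
    simp only [Prod.fst_add, Prod.snd_add, Prod.fst_zero, Prod.snd_zero] at u v
    exact Prod.ext (by linarith [wt a, wt b] : (om a).1 = 0) (by linarith [wt a, wt b] : (om a).2 = 0))

omit [Fintype κ] [DecidableEq κ] in
theorem nm_pos (wt : ∀ a, 0 ≤ (om a).1 ∧ 0 ≤ (om a).2) {a : κ} (h : om a ≠ 0) :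
    0 < (om a).1 + (om a).2 := by
  by_contra z
  exact h (Prod.ext (by linarith [wt a] : (om a).1 = 0) (by linarith [wt a] : (om a).2 = 0))

open Classical in
/-- The adapted basis over a field. -/
theorem fld [Field k] (lv : κ → ℕ) (c : κ → κ → κ → k) (hc : ∀ a b e, c a b e ≠ 0 → Hm om a b e)
    (wt : ∀ a, 0 ≤ (om a).1 ∧ 0 ≤ (om a).2) (gen : ∀ e, Mx om e → ∃ lam : κ → κ → k,
      ∀ e', om e' = om e → ∑ a, ∑ b, lam a b * c a b e' = if e' = e then 1 else 0)
    (hμ : 0 < μ) (top : ∀ a, Mx om a → (om a).1 ≤ μ * (om a).2) :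
    ∃ (A B : Matrix κ κ k) (t : κ → ℝ), A * B = 1 ∧ Pat om lv A ∧ Pat om lv B ∧ Tw om μ t ∧
      (∀ a b e, Hm om a b e → t e < t a + t b → nc c A B a b e = 0) ∧
      ∀ e, Mx om e → t e < (om e).2 → ∃ lam : κ → κ → k, ∀ e', ∑ a, ∑ b, lam a b *
        (if Hm om a b e' ∧ t e' = t a + t b then nc c A B a b e' else 0) = if e' = e then 1 else 0 := by
  let Le : κ → Prop := fun a => P1 om a ∨ P2 om a ∨ Ex om μ a
  have le : ∀ a e, om e = om a → Le a → Le e := fun a e h => by simp only [Le, P1, P2, Ex, Mx, h, imp_self]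
  let Lt : κ → Submodule k (κ → k) := fun a => if Le a then Submodule.span k {Pi.single a 1} else ⊥
  let lw : κ → ℝ × ℝ := fun a => if Le a then om a else (1, 1)
  let ls : κ → ℝ := fun a => if Ex om μ a then (om a).2 else 0
  have mL : ∀ i, ∀ x ∈ Lt i, x = 0 ∨ Le i ∧ ∃ r : k, r • (Pi.single i 1 : κ → k) = x := fun i x h => by
    by_cases u : Le i
    · exact Or.inr ⟨u, Submodule.mem_span_singleton.1 (by simpa [Lt, u] using h)⟩
    · exact Or.inl (by simpa [Lt, u] using h)
  have l0 : ∀ i, 0 ≤ ls i := fun i => by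
    simp only [ls]; split_ifs; exacts [(wt i).2, le_rfl]
  have l1 : ∀ i, μ * ls i ≤ (lw i).1 ∧ ls i ≤ (lw i).2 := fun i => by
    by_cases u : Ex om μ i
    · simp only [ls, lw, if_pos u, if_pos (show Le i from Or.inr (Or.inr u))]
      exact ⟨u.2.ge, le_rfl⟩
    · simp only [ls, lw, if_neg u, mul_zero]
      split_ifs
      exacts [wt i, ⟨zero_le_one, zero_le_one⟩]
  obtain ⟨A, B, t, h⟩ := exists_adp c Lt ls lw om lv (AddMonoidHom.fst ℝ ℝ + AddMonoidHom.snd ℝ ℝ)
    (fun a b e u => (hc a b e u).2.2) (fun i x u e v => by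
      rcases mL i x u with rfl | ⟨w, r, rfl⟩
      · exact absurd rfl v
      · by_cases z : e = i
        · simp only [lw, if_pos w, z]
        · simp [z] at v) l0 fun i => by
      change 0 < (lw i).1 + (lw i).2
      simp only [lw]
      split_ifs with u
      · rcases u with u | u | u
        exacts [by linarith [u.1, u.2], by linarith [u.1, u.2], by linarith [u.1.1, u.1.2]]
      · norm_num
  have sL : ∀ e, Le e → (Pi.single e 1 : κ → k) ∈ Fl c Lt ls (ls e) := fun e u =>
    Fl_lt e (by simp only [Lt, if_pos u]; exact Submodule.mem_span_singleton_self _)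
  have s0 : ∀ e, om e ≠ 0 → (Pi.single e 1 : κ → k) ∈ Fl c Lt ls 0 := fun e => by
    induction e using (InvImage.wf (fun a => (Finset.univ.filter fun b =>
      (om b).1 + (om b).2 < (om a).1 + (om a).2).card) Nat.lt_wfRel.wf).induction with
    | _ e ih =>
    intro he
    have ih' : ∀ a, om a ≠ 0 → (om a).1 + (om a).2 < (om e).1 + (om e).2 →
        (Pi.single a 1 : κ → k) ∈ Fl c Lt ls 0 := fun a u v => ih a (Finset.card_lt_card
      ⟨fun b w => by simp only [Finset.mem_filter] at w ⊢; exact ⟨w.1, w.2.trans v⟩,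
        fun w => by simpa using w (show a ∈ _ by simpa using v)⟩) u
    by_cases u : Le e
    · exact Fl_anti (l0 e) (sL e u)
    have m : Mx om e := by
      have := nm_pos wt he
      simp only [Le, P1, P2, not_or, not_and] at u
      refine ⟨(wt e).1.lt_of_ne fun z => u.2.1 z.symm (by linarith),
        (wt e).2.lt_of_ne fun z => u.1 (by linarith) z.symm⟩
    obtain ⟨lam, hl⟩ := gen e m
    have e1 : (Pi.single e 1 : κ → k) = ∑ a, ∑ b, lam a b • pj om (om e) (c a b) := by
      funext e'
      simp only [Finset.sum_apply, Pi.smul_apply, smul_eq_mul, pj_apply]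
      by_cases z : om e' = om e
      · simp only [if_pos z, hl e' z, Pi.single_apply]
      · simp [z, Pi.single_eq_of_ne fun w : e' = e => z (congrArg om w)]
    rw [e1]
    refine Submodule.sum_mem _ fun a _ => Submodule.sum_mem _ fun b _ => Submodule.smul_mem _ _ ?_
    by_cases z : c a b = 0
    · simp [z]
    obtain ⟨e', w⟩ := Function.ne_iff.1 z
    have w' := hc a b e' w
    by_cases y : om a + om b = om e
    · rw [pj_self fun e' v => (hc a b e' v).2.2.trans y, ← GF.br_single c a b, ← add_zero (0 : ℝ)]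
      have y1 := congrArg Prod.fst y
      have y2 := congrArg Prod.snd y
      simp only [Prod.fst_add, Prod.snd_add] at y1 y2
      exact Fl_br (ih' a w'.1 (by linarith [nm_pos wt w'.2.1])) (ih' b w'.2.1
        (by linarith [nm_pos wt w'.1]))
    · rw [pj_ne (fun e' v => (hc a b e' v).2.2) y]; exact zero_mem _
  have row : ∀ a s, (∀ e, om e = om a → (Pi.single e 1 : κ → k) ∈ Fl c Lt ls s) → s ≤ t a :=
    fun a s u => h.top a s (by
      rw [← Finset.univ_sum_single (A a)]
      refine Submodule.sum_mem _ fun e _ => ?_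
      by_cases z : A a e = 0
      · simp [z]
      · simpa [← Pi.single_smul] using Submodule.smul_mem _ (A a e) (u e (h.pA a e z).1))
  have t0 : ∀ a, om a ≠ 0 → max (t a) 0 = t a := fun a u =>
    max_eq_left (row a 0 fun e v => s0 e (v ▸ u))
  have t1 : ∀ a, μ * max (t a) 0 ≤ (om a).1 ∧ max (t a) 0 ≤ (om a).2 := fun a => by
    rcases le_total 0 (t a) with u | u
    · obtain ⟨m, v, w⟩ := h.wt a u
      rw [max_eq_left u, v, Prod.fst_sum, Prod.snd_sum]
      refine ⟨(mul_le_mul_of_nonneg_left w hμ.le).trans ?_, w.trans ?_⟩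
      · rw [sv, Finset.mul_sum]
        exact Finset.sum_le_sum fun i _ => by
          rw [mul_left_comm, Prod.smul_fst, nsmul_eq_mul]
          exact mul_le_mul_of_nonneg_left (l1 i).1 (Nat.cast_nonneg _)
      · exact Finset.sum_le_sum fun i _ => by
          rw [Prod.smul_snd, nsmul_eq_mul]
          exact mul_le_mul_of_nonneg_left (l1 i).2 (Nat.cast_nonneg _)
    · rw [max_eq_right u, mul_zero]; exact wt a
  have t2 : ∀ a, Ex om μ a → max (t a) 0 = (om a).2 := fun a u => le_antisymm (t1 a).2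
    (le_max_of_le_left (row a _ fun e v => by
      have w : Ex om μ e := by simpa only [Ex, Mx, v] using u
      simpa only [ls, if_pos w, v] using sL e (Or.inr (Or.inr w))))
  have hm : ∀ a b e, nc c A B a b e ≠ 0 → Hm om a b e := fun a b e u => by
    obtain ⟨e', v, w⟩ := vm_ne u
    obtain ⟨a', b', x, y, z⟩ := br_ne v
    have := hc _ _ _ z
    rwa [Hm, (h.pA _ _ x).1, (h.pA _ _ y).1, ← (h.pB _ _ w).1] at this
  refine ⟨A, B, fun a => max (t a) 0, h.inv, h.pA, h.pB, ⟨hμ, top, fun _ => le_max_right _ _,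
    fun a => (t1 a).1, fun a => (t1 a).2, t2⟩, fun a b e u v => ?_, fun e u v => ?_⟩
  · by_contra z
    simp only [t0 _ u.1, t0 _ u.2.1, t0 _ (live wt u)] at v
    exact v.not_ge (h.fil a b e z (t0 _ u.1 ▸ le_max_right _ _) (t0 _ u.2.1 ▸ le_max_right _ _))
  have ne : ¬Le e := fun w => by
    rcases w with w | w | w
    exacts [u.2.ne' w.2, u.1.ne' w.1, v.ne (t2 e w)]
  have he : om e ≠ 0 := fun z => u.1.ne' (congrArg Prod.fst z)
  obtain ⟨lam, hl⟩ := h.gen
    { carrier := {z | ∃ lam : κ → κ → k, ∀ e', ¬Le e' →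
        z e' = ∑ a, ∑ b, lam a b * cg (nc c A B) t a b e'}
      add_mem' := fun ⟨l, x⟩ ⟨l', y⟩ => ⟨l + l', fun e' z => by
        simp [x e' z, y e' z, add_mul, Finset.sum_add_distrib]⟩
      zero_mem' := ⟨0, by simp⟩
      smul_mem' := fun r _ ⟨l, x⟩ => ⟨r • l, fun e' z => by
        simp [x e' z, Finset.mul_sum, mul_assoc]⟩ }
    (fun i x w => ⟨0, fun e' z => by
      rcases mL i x w with rfl | ⟨w', r, rfl⟩
      · simp [sym]
      · have : B i e' = 0 := by by_contra y; exact z (le _ _ (h.pB _ _ y).1 w')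
        simp [sym, pj_apply, smul_vecMul, this]⟩)
    (fun x _ y _ => ⟨fun a b => x a * y b, fun e' _ => by
      simp only [br]; exact Finset.sum_congr rfl fun a _ => Finset.sum_congr rfl fun b _ => by ring⟩)
    e (t0 e he ▸ le_max_right _ _)
  refine ⟨fun a b => if om a + om b = om e then lam a b else 0, fun e' => ?_⟩
  by_cases z : om e' = om e
  · have := hl e' fun w => ne (le _ _ z.symm w)
    rw [Pi.single_apply] at this
    refine Eq.trans (Finset.sum_congr rfl fun a _ => Finset.sum_congr rfl fun b _ => ?_) this.symm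
    by_cases y : nc c A B a b e' = 0
    · simp [cg, y]
    · have w := hm a b e' y
      simp only [cg, if_pos (w.2.2.symm.trans z), w, true_and, t0 _ w.1, t0 _ w.2.1, t0 _ (live wt w),
        show 0 ≤ t a from t0 _ w.1 ▸ le_max_right _ _, show 0 ≤ t b from t0 _ w.2.1 ▸ le_max_right _ _]
  · rw [if_neg fun w => z (congrArg om w)]
    refine Finset.sum_eq_zero fun a _ => Finset.sum_eq_zero fun b _ => ?_
    beta_reduce
    split_ifs with x y
    exacts [absurd (y.1.2.2.trans x) z, mul_zero _, zero_mul _, zero_mul _]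

end GOv1A

open GOv1A

theorem goOV1 : OV1 := by
  intro ι κ _ _ _ _ M Φ om pos B c μ lv h hμ top
  classical
  have hM := h.big
  let co : κ → κ → κ → OO hM := fun a b e => ⟨_, h.ob a b e⟩
  have e0 : ∀ a b e, om e ≠ 0 → rd hM (co a b e) = cH om (fun a b e => rd hM (co a b e)) a b e :=
    fun a b e u => by
      unfold cH
      split_ifs with v
      exacts [rfl, rd_eq.2 (h.hom a b e u v).os]
  obtain ⟨A, A', t, h1, h2, h3, h4, h5, h6⟩ := fld lv (cH om fun a b e => rd hM (co a b e))
    (fun a b e u => by by_contra v; exact u (if_neg v)) h.wt (fun e u => by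
      obtain ⟨lam, l1, l2⟩ := h.gen e u
      refine ⟨fun a b => rd hM ⟨_, l1 a b⟩, fun e' v => ?_⟩
      have : rd hM (∑ a, ∑ b, ⟨_, l1 a b⟩ * cH om co a b e' - if e' = e then 1 else 0) = 0 := by
        refine rd_eq.2 ?_
        convert (l2 e' v).os using 1
        refine iff_of_eq (congrArg (OS M) (funext fun n => ?_))
        simp [← tm_apply, cH, apply_ite (tm hM n), co]
        congr
      simpa [sub_eq_zero, cH, apply_ite (rd hM)] using this) hμ top
  obtain ⟨s, s1, s2⟩ : ∃ s : kk hM → OO hM, (∀ x, rd hM (s x) = x) ∧ s 0 = 0 := by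
    choose s hs using rd_surj (hM := hM)
    exact ⟨fun x => if x = 0 then 0 else s x, fun x => by by_cases u : x = 0 <;> simp [u, hs], if_pos rfl⟩
  have a1 : (A.map s).map (rd hM) = A := by ext; simp [s1]
  have d1 : rd hM (A.map s).det = A.det := by rw [RingHom.map_det, RingHom.mapMatrix_apply, a1]
  obtain ⟨b, hb⟩ := exists_inv (a := (A.map s).det) fun u =>
    (isUnit_det_of_right_inverse h1).ne_zero (d1 ▸ rd_eq.2 u)
  have b1 : rd hM b * A.det = 1 := by
    rw [← d1, ← map_mul, ← sub_eq_zero, ← map_one (rd hM), ← map_sub]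
    exact rd_eq.2 (mm_of_ev (hb.mono fun n u => by simpa [sub_eq_zero] using u))
  have a2 : (b • (A.map s).adjugate).map (rd hM) = A' := right_inv_eq_right_inv (A := A) (by
    rw [Matrix.map_smul' _ _ _ (map_mul _), ← RingHom.mapMatrix_apply, RingHom.map_adjugate,
      RingHom.mapMatrix_apply, a1, Matrix.mul_smul, mul_adjugate, smul_smul, b1, one_smul]) h1
  have e1 : ∀ n a a' e, mC ((A.map s).map (tm hM n)) ((b • (A.map s).adjugate).map (tm hM n)) (c n)
      a a' e = tm hM n (nc co (A.map s) (b • (A.map s).adjugate) a a' e) := fun n a a' e =>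
    (nc_map (tm hM n) co _ _ a a' e).symm
  have e2 : ∀ a a' e, om e ≠ 0 → rd hM (nc co (A.map s) (b • (A.map s).adjugate) a a' e) =
      nc (cH om fun a b e => rd hM (co a b e)) A A' a a' e := fun a a' e u => by
    rw [nc_map, a1, a2]
    refine Finset.sum_congr rfl fun e' _ => ?_
    by_cases z : A' e' e = 0
    · simp [z]
    · simp only [br, ← e0 _ _ e' ((h3 _ _ z).1 ▸ u)]
  refine ⟨fun n => (A.map s).map (tm hM n), fun n => (b • (A.map s).adjugate).map (tm hM n), t,
    hb.mono fun n u => ?_, fun a e => ⟨(s (A a e)).2, ((b • (A.map s).adjugate) a e).2⟩, h4,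
    fun a a' e u v => ?_, fun e u v => ?_⟩
  · have p : Pat om lv ((A.map s).map (tm hM n)) := fun a e w => h2 a e fun z => w (by simp [z, s2])
    have q : (A.map s).map (tm hM n) * (b • (A.map s).adjugate).map (tm hM n) = 1 := by
      rw [← Matrix.map_mul, Matrix.mul_smul, mul_adjugate, smul_smul,
        Matrix.map_smul' _ _ _ (map_mul _), map_mul, tm_apply, tm_apply, u, one_smul,
        Matrix.map_one _ (map_zero _) (map_one _)]
    exact ⟨q, p, pat_inv p q⟩
  · simp only [e1]
    exact rd_eq.1 ((e2 a a' e (live h.wt u)).trans (h5 a a' e u v))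
  · obtain ⟨lam, hl⟩ := h6 e u v
    refine ⟨fun n a a' => (s (lam a a')).1 n, fun a a' => (s _).2, fun e' => ?_⟩
    have : rd hM (∑ a, ∑ a', s (lam a a') * (if Hm om a a' e' ∧ t e' = t a + t a' then
        nc co (A.map s) (b • (A.map s).adjugate) a a' e' else 0) - if e' = e then 1 else 0) = 0 := by
      rw [map_sub, map_sum, apply_ite (rd hM), map_one, map_zero, ← hl e', sub_eq_zero]
      refine Finset.sum_congr rfl fun a _ => (map_sum _ _ _).trans (Finset.sum_congr rfl fun a' _ => ?_)
      rw [map_mul, s1]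
      split_ifs with w
      exacts [by rw [e2 _ _ _ (live h.wt w.1)], by rw [map_zero]]
    convert rd_eq.1 this using 1
    refine iff_of_eq (congrArg (OS M) (funext fun n => ?_))
    simp only [cG, e1, ← tm_apply, map_sub, map_sum, map_mul, apply_ite (tm hM n), map_one, map_zero]
    congr

end Pool.Agent.MP_5168f5_an.AN.GO
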