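import Pool.Agent.MP_5168f5_an.AN.N6Spec
import Pool.Agent.MP_5168f5_an.AN.GOv1

/-! Row OA1: the adapted basis over the ring of subexponential sequences. -/

namespace Pool.Agent.MP_5168f5_an.AN.N6

open H19 H17S H17F G39 Filter H61Z GA GF Matrix

namespace N6OaA

variable {κ k W : Type} [Fintype κ] [DecidableEq κ]

theorem pat_inv [Field k] {om : κ → W} {lv : κ → ℕ} {A B : Matrix κ κ k} (h : Pat om lv A)
    (e : A * B = 1) : Pat om lv B := by
  let S : Submodule k (Matrix κ κ k) :=
    { carrier := {X | Pat om lv X}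
      add_mem' := fun {X Y} u v a b w => by
        by_cases z : X a b = 0
        · exact v a b (by simpa [z] using w)
        · exact u a b z
      zero_mem' := fun a b w => absurd rfl w
      smul_mem' := fun r X u a b w => u a b (right_ne_zero_of_mul w) }
  have inj : ∀ X Y : Matrix κ κ k, A * X = A * Y → X = Y := fun X Y w => by
    rw [← Matrix.one_mul X, ← Matrix.one_mul Y, ← mul_eq_one_comm.1 e, Matrix.mul_assoc, w,
      Matrix.mul_assoc]
  obtain ⟨X, hX⟩ := LinearMap.surjective_of_injective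
    (f := (LinearMap.mulLeft k A).restrict (p := S) (q := S) fun X u => h.mul u)
    (fun X Y w => Subtype.ext (inj _ _ (congrArg Subtype.val w))) ⟨1, pat_one⟩
  exact inj _ _ ((congrArg Subtype.val hX).trans e.symm) ▸ X.2

open Classical in
theorem card_sum [Field k] {A A' : Matrix κ κ k} (h : A * A' = 1) {S S' : κ → Prop}
    (h1 : ∀ a e, A a e ≠ 0 → S' a → S e) : ((Finset.univ.filter S').card : k) =
      ∑ a ∈ Finset.univ.filter S', ∑ e ∈ Finset.univ.filter S, A a e * A' e a := by
  rw [Finset.card_eq_sum_ones, Nat.cast_sum]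
  refine Finset.sum_congr rfl fun a ha => ?_
  rw [Finset.sum_filter_of_ne fun e _ u => h1 a e (left_ne_zero_of_mul u) (Finset.mem_filter.1 ha).2,
    ← mul_apply, h, one_apply_eq, Nat.cast_one]

theorem card_eq [Field k] [CharZero k] {A A' : Matrix κ κ k} (h : A * A' = 1) {S S' : κ → Prop}
    (h1 : ∀ a e, A a e ≠ 0 → S' a → S e) (h2 : ∀ e a, A' e a ≠ 0 → S e → S' a) :
    TG.cd S' = TG.cd S := by
  refine congrArg Nat.cast (Nat.cast_injective (R := k) ?_)
  rw [card_sum h h1, card_sum (mul_eq_one_comm.1 h) h2, Finset.sum_comm]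
  simp only [mul_comm]

variable {M : ℕ → ℕ} {hM : Big M}

theorem lift_inv (N : Matrix κ κ (OO hM)) {N₁ : Matrix κ κ (kk hM)} (h : N.map (rd hM) * N₁ = 1) :
    ∃ N' : Matrix κ κ (OO hM), N'.map (rd hM) = N₁ ∧
      ∀ᶠ n in UF, N.map (tm hM n) * N'.map (tm hM n) = 1 := by
  have d1 : rd hM N.det = (N.map (rd hM)).det := by rw [RingHom.map_det, RingHom.mapMatrix_apply]
  obtain ⟨b, hb⟩ := exists_inv (a := N.det) fun u =>
    (isUnit_det_of_right_inverse h).ne_zero (d1 ▸ rd_eq.2 u)
  have b1 : rd hM b * (N.map (rd hM)).det = 1 := by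
    rw [← d1, ← map_mul, ← sub_eq_zero, ← map_one (rd hM), ← map_sub]
    exact rd_eq.2 (mm_of_ev (hb.mono fun n u => by simpa [sub_eq_zero] using u))
  refine ⟨b • N.adjugate, right_inv_eq_right_inv (by
    rw [Matrix.map_smul' _ _ _ (map_mul _), ← RingHom.mapMatrix_apply _ N.adjugate,
      RingHom.map_adjugate, RingHom.mapMatrix_apply, Matrix.mul_smul, mul_adjugate, smul_smul, b1,
      one_smul]) h, hb.mono fun n u => ?_⟩
  rw [← Matrix.map_mul, Matrix.mul_smul, mul_adjugate, smul_smul,
    Matrix.map_smul' _ _ _ (map_mul _), map_mul, tm_apply, tm_apply, u, one_smul,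
    Matrix.map_one _ (map_zero _) (map_one _)]

theorem os_of {a : OO hM} {f : ℕ → ℝ} (h : rd hM a = 0) (e : ∀ n, f n = tm hM n a) : OS M f :=
  (funext e : f = a.1) ▸ rd_eq.1 h

theorem ev0 {a : OO hM} (h : ∀ᶠ n in UF, tm hM n a = 0) : rd hM a = 0 := rd_eq.2 (mm_of_ev h)

end N6OaA

open N6OaA GO.GOv1A in
theorem n6Oa : OfOA1 := by
  intro hF κ _ _ m M Φ la o wt B c S hM hw hG hB hc hS hs
  classical
  let co : κ → κ → κ → OO hM := fun a b e => ⟨_, hc a b e⟩
  let Bo : κ → Matrix (Fin m) (Fin m) (OO hM) := fun a => of fun p q => ⟨_, hB a p q⟩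
  let β : Matrix κ (Fin m) (OO hM) := of fun a p => Bo a p o
  obtain ⟨s, s1, s2⟩ : ∃ s : kk hM → OO hM, (∀ x, rd hM (s x) = x) ∧ s 0 = 0 := by
    choose s hs using rd_surj (hM := hM)
    exact ⟨fun x => if x = 0 then 0 else s x, fun x => by by_cases u : x = 0 <;> simp [u, hs],
      if_pos rfl⟩
  have s3 : ∀ {n x}, tm hM n (s x) ≠ 0 → x ≠ 0 := fun u z => u (by rw [z, s2, map_zero])
  obtain ⟨A, A', t, pos, Λ, h1, h2, h3, h4, h5, h6, h7, h8, h9, h10, h11, h12⟩ := hF (kk hM) κ m
    (fun p => la p - la o) wt (fun a b e => rd hM (co a b e)) (β.map (rd hM)) S hw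
    (fun a b e u => by_contra fun z => u (ev0 (hG.mono fun n v =>
      by_contra fun w => z (v.2.hc a b e w))))
    (fun a p u => by_contra fun z => u (ev0 (hG.mono fun n v =>
      by_contra fun w => z (sub_eq_iff_eq_add'.2 (v.2.hB a p o w))))) hS
    (fun i a b e u v w => by_contra fun z => w (rd_eq.2 (hs i a b e u v z))) fun u v hu hv => by
      let X : (κ → OO hM) → Matrix (Fin m) (Fin m) (OO hM) := fun U => ∑ a, U a • Bo a
      have k : ∀ U q, rd hM (X U q o) = ((fun a => rd hM (U a)) ᵥ* β.map (rd hM)) q := fun U q => by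
        simp only [X, Matrix.sum_apply, Matrix.smul_apply, smul_eq_mul, map_sum, map_mul]; rfl
      have k0 : ∀ u, u ᵥ* β.map (rd hM) = 0 → ∀ q, rd hM (X (s ∘ u) q o) = 0 := fun u hu q => by
        simp only [k, Function.comp, s1]; exact congrFun hu q
      funext p
      have z : rd hM ((X (br co (s ∘ u) (s ∘ v)) - cm (X (s ∘ u)) (X (s ∘ v))) p o) = 0 :=
        ev0 (hG.mono fun n h => by
          have := congrFun (congrFun ((sMul _ _ Φ _ _ h.1).vbr (fun a => tm hM n (s (u a)))
            fun a => tm hM n (s (v a))) p) o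
          simp only [X, GA.vec, cm, br, Matrix.sum_apply, mul_apply, Matrix.sub_apply, map_sum,
            Matrix.smul_apply, smul_eq_mul, map_sub, map_mul, sub_eq_zero] at this ⊢
          exact this)
      simp only [cm, Matrix.sub_apply, mul_apply, map_sub, map_sum, map_mul, k0 u hu, k0 v hv, mul_zero,
        Finset.sum_const_zero, sub_zero, k, br, Function.comp, s1] at z
      exact z
  have a1 : (A.map s).map (rd hM) = A := by ext; simp [s1]
  obtain ⟨C, a2, hC⟩ := lift_inv (A.map s) (a1.symm ▸ h1 : (A.map s).map (rd hM) * A' = 1)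
  have pA : ∀ n, Pat wt 0 ((A.map s).map (tm hM n)) := fun n a e w => h2 a e (s3 w)
  have e1 : ∀ n a a' e, mC ((A.map s).map (tm hM n)) (C.map (tm hM n)) (c n) a a' e =
      tm hM n (nc co (A.map s) C a a' e) := fun n a a' e => (nc_map (tm hM n) co _ _ a a' e).symm
  have e2 : ∀ a a' e, rd hM (nc co (A.map s) C a a' e) =
      nc (fun a b e => rd hM (co a b e)) A A' a a' e := fun a a' e => by rw [nc_map, a1, a2]
  have e3 : ∀ n a p, GA.mB ((A.map s).map (tm hM n)) (B n) a p o = tm hM n ((A.map s * β) a p) :=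
    fun n a p => by 
      simp only [GA.mB, GA.vec, Matrix.sum_apply, mul_apply, map_sum, map_mul]; rfl
  have e4 : ∀ a p, rd hM ((A.map s * β) a p) = (A * β.map (rd hM)) a p := fun a p => by
    rw [← map_apply (f := rd hM), Matrix.map_mul, a1]; rfl
  let N : Matrix κ κ (OO hM) := of fun e b =>
    if pos b then ∑ p, s (Λ e p) * (A.map s * β) b p else (1 : Matrix κ κ (OO hM)) e b
  obtain ⟨N', -, hN⟩ := lift_inv N (N₁ := 1) (by
    ext e b
    simp only [mul_one, N, map_apply, of_apply, one_apply, apply_ite (rd hM), map_sum, map_mul, s1,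
      e4, map_one, map_zero]
    split_ifs with u v v
    · rw [h12 e b (v ▸ u) u, if_pos v]
    · by_cases w : pos e
      · rw [h12 e b w u, if_neg v]
      · exact Finset.sum_eq_zero fun p _ => by
          rw [show Λ e p = 0 from by_contra fun z => w (h11 e p z).1, zero_mul]
    all_goals rfl)
  have c0 : ∀ {e a}, A' e a = 0 → OS M fun n => C.map (tm hM n) e a := fun u =>
    os_of ((congrFun (congrFun a2 _) _).trans u) fun _ => rfl
  have c1 : ∀ {a e}, A a e = 0 → OS M fun n => (A.map s).map (tm hM n) a e := fun u =>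
    os_of ((s1 _).trans u) fun _ => rfl
  refine ⟨fun n => (A.map s).map (tm hM n), fun n => C.map (tm hM n), t, pos,
    fun n a p => tm hM n (if pos a then (N' * Λ.map s) a p else 0),
    hC.mono fun n u => ⟨u, pA n, pat_inv (pA n) u⟩, fun a e => ⟨(s (A a e)).2, (C a e).2⟩,
    ⟨h4, h5, fun a b e u v w => os_of ((e2 a b e).trans (by_contra fun z =>
      w.not_ge (h8 a b e z u v).1)) fun n => e1 n a b e, fun a b e u v x y w => os_of
      ((e2 a b e).trans (by_contra fun z => (h8 a b e z u v).2 x y w)) fun n => e1 n a b e,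
      fun e u v => ?_, fun a p u v => os_of ((e4 a p).trans (h10 a p u v)) fun n => e3 n a p,
      fun a p => (if pos a then (N' * Λ.map s) a p else 0).2, ?_⟩,
    ⟨fun a e u v => c1 (by_contra fun z => v ((h6 a e z).1 u)), fun e a u v =>
      c0 (by_contra fun z => v ((h7 e a z).1 u)),
      card_eq h1 (fun a e z => (h6 a e z).1) fun e a z => (h7 e a z).1⟩,
    ⟨fun a e u v => c1 (by_contra fun z => v ((h6 a e z).2 u)), fun e a u v =>
      c0 (by_contra fun z => v ((h7 e a z).2 u)),
      card_eq h1 (fun a e z => (h6 a e z).2) fun e a z => (h7 e a z).2⟩⟩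
  · obtain ⟨lam, hl⟩ := h9 e u v
    refine ⟨fun n a a' => tm hM n (s (lam a a')), fun a a' => (s _).2, fun e' => os_of
      (a := ∑ a, ∑ a', s (lam a a') * (if 0 ≤ t a ∧ 0 ≤ t a' ∧ t e' = t a + t a' then
        nc co (A.map s) C a a' e' else 0) - if e' = e then 1 else 0) ?_ fun n => ?_⟩
    · simp only [map_sub, map_sum, map_mul, apply_ite (rd hM), map_one, map_zero, s1, e2]
      exact sub_eq_zero.2 (hl e')
    · simp only [cg, e1, map_sub, map_sum, map_mul, apply_ite (tm hM n), map_one, map_zero]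
  filter_upwards [hG, hN] with n g u
  have pN : Pat wt 0 (N.map (tm hM n)) := fun e b z => by
    simp only [N, map_apply, of_apply, apply_ite (tm hM n), map_sum, map_mul, mul_apply] at z
    split_ifs at z with w
    · obtain ⟨p, -, y⟩ := Finset.exists_ne_zero_of_sum_ne_zero z
      obtain ⟨a, -, x⟩ := Finset.exists_ne_zero_of_sum_ne_zero (right_ne_zero_of_mul y)
      have k1 := (h11 e p (s3 (left_ne_zero_of_mul y))).2
      have k2 := (h2 b a (s3 (left_ne_zero_of_mul x))).1
      have k3 := g.2.hB a p o (right_ne_zero_of_mul x)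
      exact ⟨by linarith, le_rfl⟩
    · exact pat_one e b fun y => z (by rw [y, map_zero])
  refine ⟨fun a p z => ?_, fun a b x y => ?_⟩
  · split_ifs at z with w
    · rw [mul_apply, map_sum] at z
      obtain ⟨e, -, y⟩ := Finset.exists_ne_zero_of_sum_ne_zero z
      rw [map_mul] at y
      have k1 := (h11 e p (s3 (right_ne_zero_of_mul y))).2
      have k2 := (pat_inv pN u a e (left_ne_zero_of_mul y)).1
      exact ⟨w, by linarith⟩
    · exact absurd (map_zero _) z
  · rw [← one_apply, ← mul_eq_one_comm.1 u, mul_apply]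
    simp only [if_pos x, e3, N, map_apply, of_apply, if_pos y, mul_apply (M := N'), map_sum, map_mul,
      Finset.sum_mul, Finset.mul_sum, mul_assoc]
    exact Finset.sum_comm

end Pool.Agent.MP_5168f5_an.AN.N6
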