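import Pool.Agent.MP_5168f5_an.AN.N6Spec

/-! The orbit map is polynomial and has a polynomial left inverse on the positions. -/

namespace Pool.Agent.MP_5168f5_an.AN.N6

open H19 H17S H17F G39 Filter H61Z GA GF MvPolynomial Finset
open Pk (cn)

namespace N6PolA

variable {m : ℕ} {κ : Type} [Fintype κ]

section Ring

variable {R S : Type} [CommRing R] [CommRing S] (N : ℕ) (ρ : ℕ → R)
  (B : κ → Matrix (Fin m) (Fin m) R) (o : Fin m)

/-- The truncated orbit map. -/
def obT (t : κ → R) (p : Fin m) : R := ∑ i ∈ range (N + 1), ρ i * ((∑ a, t a • B a) ^ i) p o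

/-- The iteration for the inverse. -/
def wit (Λ : κ → Fin m → R) (v : Fin m → R) : ℕ → κ → R
  | 0 => 0
  | k + 1 => fun a => wit Λ v k a + ∑ p, Λ a p * (v p - obT N ρ B o (wit Λ v k) p)

theorem map_obT (f : R →+* S) (t : κ → R) (p : Fin m) : f (obT N ρ B o t p) =
    obT N (fun i => f (ρ i)) (fun a => (B a).map f) o (fun a => f (t a)) p := by
  have : f.mapMatrix (∑ a, t a • B a) = ∑ a, f (t a) • (B a).map f := by
    ext p q
    simp [Matrix.sum_apply]
  simp only [obT, ← this, ← map_pow]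
  simp only [map_sum f, map_mul, RingHom.mapMatrix_apply, Matrix.map_apply]

theorem map_wit (f : R →+* S) (Λ : κ → Fin m → R) (v : Fin m → R) (k : ℕ) :
    (fun a => f (wit N ρ B o Λ v k a)) = wit N (fun i => f (ρ i)) (fun a => (B a).map f) o
      (fun a p => f (Λ a p)) (fun p => f (v p)) k := by
  induction k with
  | zero => funext a; simp [wit]
  | succ k ih => funext a; simp only [wit, ← ih, map_add, map_sum, map_mul, map_sub, map_obT]

end Ring

/-- The filtration by the gain of level. -/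
def gr (la : Fin m → ℝ) (μ : ℝ) (N : ℕ) (h0 : 0 ≤ μ) (h : ∀ p q, la p < la q + (N + 1) * μ) :
    Filt (Mt (Fin m)) where
  F n :=
    { carrier := {X | ∀ p q, la p < la q + (n + 1) * μ → X p q = 0}
      add_mem' := fun a b p q e => by simp [a p q e, b p q e]
      zero_mem' := fun _ _ _ => rfl
      smul_mem' := fun _ _ a p q e => by simp [a p q e] }
  N := N
  anti n X a p q e := a p q (by push_cast; linarith)
  mul_l n X Y a b p q e := Matrix.mul_apply.trans <| sum_eq_zero fun r _ => by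
    by_cases u : la p < la r + μ
    · rw [a p r (by simpa using u), zero_mul]
    · rw [b r q (by push_cast at e; linarith), mul_zero]
  mul_r n X Y a b p q e := Matrix.mul_apply.trans <| sum_eq_zero fun r _ => by
    by_cases u : la r < la q + μ
    · rw [b r q (by simpa using u), mul_zero]
    · rw [a p r (by push_cast at e; linarith), zero_mul]
  bot X a := Matrix.ext fun p q => a p q (h p q)

variable {Φ : Filt (Mt (Fin m))} {la : Fin m → ℝ} {o : Fin m} {wt : κ → ℝ} {pos : κ → Prop}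
  {B : κ → Mt (Fin m)} {c : κ → κ → κ → ℝ} {Λ : κ → Fin m → ℝ}

theorem obT_eq (h : IsFr Φ B c) (t : κ → ℝ) (p : Fin m) :
    obT Φ.N (fun i => (i.factorial : ℝ)⁻¹) B o t p = ob B o t p := by
  rw [ob, ex, IsNilpotent.exp_eq_sum (Φ.pow_zero' (h.mem t)), Matrix.sum_apply]
  exact sum_congr rfl fun i _ => by simp [Rat.smul_def, vec]

theorem wit_eq [DecidableEq κ] (h : IsFr Φ B c) (hG : Gr la wt B c) (hL : LI la o wt pos B Λ)
    {μ : ℝ} (h0 : 0 < μ) (hμ : ∀ a, μ ≤ wt a) {s : κ → ℝ} (hs : ∀ a, ¬pos a → s a = 0) (k : ℕ) :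
    ∀ a, s a - wit Φ.N (fun i => (i.factorial : ℝ)⁻¹) B o Λ (ob B o s) k a ≠ 0 →
      pos a ∧ (k + 1) * μ ≤ wt a := by
  obtain ⟨N, -, hN⟩ := GO.exists_ub fun x : Fin m × Fin m => (la x.1 - la x.2) / μ
  let Ψ := gr la μ N h0.le fun p q => by linarith [(div_le_iff₀ h0).1 (hN (p, q))]
  have mem : ∀ (n : ℕ) (t : κ → ℝ), (∀ a, t a ≠ 0 → (n + 1) * μ ≤ wt a) → vec B t ∈ Ψ.F n :=
    fun n t ht p q e => by
      rw [vec, Matrix.sum_apply]
      refine sum_eq_zero fun a _ => ?_
      by_contra u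
      rw [Matrix.smul_apply, smul_eq_mul, mul_eq_zero, not_or] at u
      linarith [ht a u.1, hG.hB a p q u.2]
  induction k with
  | zero => exact fun a e => ⟨not_not.1 fun u => e (by simp [wit, hs a u]), by simpa using hμ a⟩
  | succ k ih =>
    intro a e
    simp only [wit, obT_eq h] at e
    set W := wit Φ.N (fun i => (i.factorial : ℝ)⁻¹) B o Λ (ob B o s) k
    have h1 := Ψ.exp_add_sub (mem 0 W fun a _ => by simpa using hμ a)
      (mem k (s - W) fun a u => (ih a u).2)
    rw [show vec B W + vec B (s - W) = vec B s by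
      simp only [vec, ← sum_add_distrib, ← add_smul, Pi.sub_apply, add_sub_cancel]] at h1
    have h2 : ∑ p, Λ a p * vec B (s - W) p o = s a - W a := by
      simp only [vec, Matrix.sum_apply, Matrix.smul_apply, smul_eq_mul, mul_sum, mul_left_comm (Λ a _)]
      rw [sum_comm]
      simp only [← mul_sum]
      by_cases u : pos a
      · rw [sum_eq_single a (fun b _ hb => ?_) (by simp), hL.inv a a u u, if_pos rfl, mul_one,
          Pi.sub_apply]
        by_cases v : s b - W b = 0
        · rw [Pi.sub_apply, v, zero_mul]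
        · rw [hL.inv a b u (ih b v).1, if_neg hb.symm, mul_zero]
      · have v : ∀ p, Λ a p = 0 := fun p => not_not.1 fun w => u (hL.sup a p w).1
        simp only [v, zero_mul, sum_const_zero, mul_zero]
        exact (not_not.1 fun w => u (ih a w).1).symm
    rw [sub_add_eq_sub_sub, ← h2, ← sum_sub_distrib] at e
    obtain ⟨p, -, hp⟩ := exists_ne_zero_of_sum_ne_zero e
    rw [← mul_sub, mul_ne_zero_iff] at hp
    refine ⟨(hL.sup a p hp.1).1, not_lt.1 fun u => hp.2 ?_⟩
    have := h1 p o (by linarith [(hL.sup a p hp.1).2])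
    simp only [Matrix.sub_apply] at this
    simp only [ob, ex]
    linarith

theorem size {M : ℕ → ℕ} (hM : Big M) {σ : Type} (Q : MvPolynomial σ (OO hM)) :
    OB M fun n => cn (map (tm hM n) Q) := by
  simp only [fun n => Pk.kc.sup _ _ (support_map_subset (tm hM n) Q), coeff_map]
  exact ob_sum hM _ fun α _ => ob_congr (coeff α Q).2 (Eventually.of_forall fun n => (abs_abs _).le)

end N6PolA

open N6PolA in
theorem n6Pol : POL := by
  intro κ _ _ m M Φ la o wt pos B c Λ hM hw h hB hΛ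
  obtain ⟨μ, h0, hμ⟩ := GO.exists_lb (fun _ => True) wt fun a _ => hw a
  obtain ⟨J, -, hJ⟩ := GO.exists_ub fun a => wt a / μ
  let ρ : ℕ → OO hM := fun i => ⟨fun _ => (i.factorial : ℝ)⁻¹, ob_const hM _⟩
  let B₀ : κ → Matrix (Fin m) (Fin m) (OO hM) := fun a => Matrix.of fun p q => ⟨_, hB a p q⟩
  let Q : Fin m → MvPolynomial κ (OO hM) :=
    obT Φ.N (fun i => C (ρ i)) (fun a => (B₀ a).map C) o X
  let W : κ → MvPolynomial (Fin m) (OO hM) :=
    wit Φ.N (fun i => C (ρ i)) (fun a => (B₀ a).map C) o (fun a p => C ⟨_, hΛ a p⟩) X J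
  obtain ⟨L, s, b⟩ := ob_bound hM (f := Sum.elim (fun a n => cn (map (tm hM n) (W a)))
    fun p n => cn (map (tm hM n) (Q p))) (Sum.rec (fun a => size hM _) fun p => size hM _)
  obtain ⟨E, hE⟩ := (Set.finite_range
    (Sum.elim (fun a => (W a).totalDegree) fun p => (Q p).totalDegree)).bddAbove
  refine ⟨E, L, fun n a => map (tm hM n) (W a), fun n p => map (tm hM n) (Q p), s, fun n =>
    ⟨fun a => ⟨(deg_map _ _).trans (hE ⟨.inl a, rfl⟩), (le_abs_self _).trans (b n (.inl a))⟩,
      fun p => ⟨(deg_map _ _).trans (hE ⟨.inr p, rfl⟩), (le_abs_self _).trans (b n (.inr p))⟩⟩,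
    h.mono fun n u => ?_⟩
  have e : ∀ {σ : Type} (x : σ → ℝ), (fun a => ((B₀ a).map C).map
      ((eval x).comp (map (tm hM n) : MvPolynomial σ _ →+* _))) = B n := fun x => by
    ext a p q
    simp [B₀, tm_apply]
  refine ⟨fun s p => ?_, fun s hs a => ?_⟩
  · refine (map_obT _ _ _ _ ((eval s).comp (map (tm hM n))) _ p).trans ?_
    rw [e, ← obT_eq u.1]
    simp [ρ, tm_apply]
  · refine (congrFun (map_wit _ _ _ _ ((eval (ob (B n) o s)).comp (map (tm hM n))) _ _ J)
      a).trans ?_
    rw [e]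
    have := mt (wit_eq u.1 u.2.1 u.2.2 h0 (fun a => hμ a trivial) hs J a) fun v => by
      linarith [v.2, (div_le_iff₀ h0).1 (hJ a)]
    rw [sub_eq_zero.1 (not_not.1 this)]
    simp [ρ, tm_apply]

end Pool.Agent.MP_5168f5_an.AN.N6
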