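import Pool.Agent.MP_5168f5_an.AN.GOSpec

/-! The overfeeding step: change to a slower unit. -/

namespace Pool.Agent.MP_5168f5_an.AN.GO

open H19 H17S H17F G39 Filter H61Z GA GF R4

namespace GOv2A

variable {κ : Type} {om : κ → ℝ × ℝ} {μ σ : ℝ} {t : κ → ℝ} {x : ℝ × ℝ} {a b e : κ}

theorem ob {M' : ℕ → ℕ} {M : ℕ → ℕ} {L u : ℕ → ℝ} (hL : Sub M L)
    (h0 : Sm M' fun n => Real.log (L n)) (hu : ∀ᶠ n in UF, |u n| ≤ L n) : OB M' u := fun ε hε => by
  filter_upwards [hu, h0 ε hε] with n a b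
  rw [dl_inv]
  exact a.trans ((Real.log_le_iff_le_exp (hL.pos n)).1 (by linarith))

open Classical in
theorem lam {Sz : (ℕ → ℝ) → Prop} {M : ℕ → ℕ} [Fintype κ] {c : ℕ → κ → κ → κ → ℝ} (hM : Big M)
    (h : Ovf Sz M om t c) : ∃ lam : κ → ℕ → κ → κ → ℝ, (∀ e a b, OB M fun n => lam e n a b) ∧
      ∀ e, Mx om e → t e < (om e).2 → ∀ e', Sz fun n =>
        ∑ a, ∑ b, lam e n a b * cG om t (c n) a b e' - if e' = e then 1 else 0 := by
  have hg : ∀ e, ∃ lam : ℕ → κ → κ → ℝ, (∀ a b, OB M fun n => lam n a b) ∧ (Mx om e →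
      t e < (om e).2 → ∀ e', Sz fun n =>
        ∑ a, ∑ b, lam n a b * cG om t (c n) a b e' - if e' = e then 1 else 0) := fun e => by
    by_cases k : Mx om e ∧ t e < (om e).2
    · exact (h.gen e k.1 k.2).imp fun _ k => ⟨k.1, fun _ _ => k.2⟩
    · exact ⟨0, fun _ _ => ob_const hM 0, fun k1 k2 => absurd ⟨k1, k2⟩ k⟩
  choose lam l1 l2 using hg
  exact ⟨lam, l1, l2⟩

theorem sC_eq (c : κ → κ → κ → ℝ) : sC (fun a => Real.exp (-(dep om x a - t a * σ))) c a b e =
    c a b e * Real.exp ((dep om x e - t e * σ) - (dep om x a - t a * σ) -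
      (dep om x b - t b * σ)) := by
  rw [sC, mul_assoc, mul_div_assoc, ← Real.exp_add, ← Real.exp_sub]
  congr 2
  ring

theorem dep_hm (h : Hm om a b e) : (dep om x e - t e * σ) - (dep om x a - t a * σ) -
    (dep om x b - t b * σ) = -((t e - (t a + t b)) * σ) := by
  simp only [dep, h.2.2, Prod.fst_add, Prod.snd_add]
  ring

theorem t_zero (h : Tw om μ t) (k : om a = 0) : t a = 0 :=
  le_antisymm (by simpa [k] using h.le2 a) (h.nn a)

theorem zero_iff (h : Tw om μ t) : omN om μ t a = 0 ↔ om a = 0 := by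
  refine ⟨fun k => ?_, fun k => by simp [omN, k, t_zero h k]⟩
  have k1 : (om a).1 - t a * (μ - 1) = 0 := congrArg Prod.fst k
  have k2 : (om a).2 - t a = 0 := congrArg Prod.snd k
  have k3 : t a = 0 := by linarith [h.nn a, h.le1 a]
  exact Prod.ext (by simpa [k3] using k1) (by simpa [k3] using k2)

theorem hm (h : Tw om μ t) (k : Hm om a b e ∧ t e = t a + t b) : Hm (omN om μ t) a b e :=
  ⟨mt (zero_iff h).1 k.1.1, mt (zero_iff h).1 k.1.2.1, by
    simp only [omN, k.1.2.2, k.2, Prod.fst_add, Prod.snd_add, Prod.mk_add_mk]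
    congr 1 <;> ring⟩

end GOv2A

open GOv2A

theorem goOV2 : OV2 := by
  intro κ _ M om t c hM h
  obtain ⟨lam, l1, l2⟩ := lam hM h
  obtain ⟨L, hL, hb⟩ := ob_bound hM (J := κ × κ × κ) (f := fun j n => lam j.1 n j.2.1 j.2.2)
    fun j => l1 _ _ _
  refine ⟨_, hL.log, fun M' c' h0 h1 hc => ⟨fun a b e k k' => ?_, fun e k k' =>
    ⟨lam e, fun a b => ob hL h0 (.of_forall fun n => hb n (e, a, b)), fun e' => ?_⟩⟩⟩
  · exact (neg_of_os (h.fil a b e k k') h1).congr (.of_forall fun n => hc n a b e k)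
  · refine (neg_of_os (l2 e k k' e') h1).congr (.of_forall fun n => ?_)
    have : cG om t (c' n) = cG om t (c n) := by
      funext a b e
      unfold cG
      split_ifs with k
      exacts [hc n a b e k.1, rfl]
    rw [this]

theorem goOV3 : OfOV3 := by
  classical
  intro hF ι κ _ _ _ M Φ om pos B c μ t al tw h
  obtain ⟨lam, l1, l2⟩ := lam al.big h
  obtain ⟨L, hL, hb⟩ := ob_bound al.big (J := Bool × κ × κ × κ)
    (f := fun j n => bif j.1 then c n j.2.1 j.2.2.1 j.2.2.2 else lam j.2.1 n j.2.2.1 j.2.2.2)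
    fun j => by rcases j with ⟨_ | _, a, b, e⟩; exacts [l1 a b e, al.ob a b e]
  refine ⟨_, hL.log, fun M' x σ C hM h0 hx hσ => ?_⟩
  have s0 : ∀ᶠ n in UF, 0 ≤ σ n := (hσ 0).mono fun n a => by simpa using a
  have d0 : ∀ᶠ n in UF, ∀ a, 0 ≤ dep om (x n) a - t a * σ n ∧
      dep om (x n) a - t a * σ n ≤ ((om a).1 + (om a).2) * C * M n :=
    (hx.and s0).mono fun n h a => by
      obtain ⟨w1, w2⟩ := al.wt a
      obtain ⟨⟨-, x1, x2, x3, x4, x5⟩, x6⟩ := h
      rw [dep]
      constructor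
      · linarith [mul_le_mul_of_nonneg_left x5 (tw.nn a), mul_nonneg w2 x3,
          mul_le_mul_of_nonneg_right (tw.le1 a) x1]
      · linarith [mul_le_mul_of_nonneg_left x2 w1, mul_le_mul_of_nonneg_left x4 w2,
          mul_nonneg (tw.nn a) x6]
  have up := hx.mono fun n h => h.1
  have ng : ∀ a b e, (Neg M fun n => c n a b e) → Neg M' fun n =>
      sC (fun a => Real.exp (-(dep om (x n) a - t a * σ n))) (c n) a b e := fun a b e h => by
    refine ((h.mul_exp (C := ((om e).1 + (om e).2) * C) (d0.mono fun n d => ?_)).congr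
      (.of_forall fun n => sC_eq _)).up up
    rw [abs_of_pos (Real.exp_pos _), Real.exp_le_exp]
    linarith [(d a).1, (d b).1, (d e).2]
  have oc : ∀ a b e, OB M' fun n => c n a b e := fun a b e =>
    ob hL h0 (.of_forall fun n => hb n (true, a, b, e))
  have key : ∀ a b e, om e ≠ 0 → ¬(Hm om a b e ∧ t e = t a + t b) → Neg M' fun n =>
      sC (fun a => Real.exp (-(dep om (x n) a - t a * σ n))) (c n) a b e := fun a b e k k' => by
    by_cases k1 : Hm om a b e
    · rcases lt_or_gt_of_ne (fun z => k' ⟨k1, z⟩) with z | z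
      · exact ng a b e (h.fil a b e k1 z)
      refine (Neg.mul' (u := fun n => Real.exp (-((t e - (t a + t b)) * σ n))) (fun K => ?_)
        (oc a b e)).congr (.of_forall fun n => by rw [sC_eq, dep_hm k1])
      have z' := sub_pos.2 z
      filter_upwards [hσ (K / (t e - (t a + t b)))] with n w
      rw [abs_of_pos (Real.exp_pos _)]
      rw [div_mul_eq_mul_div, div_le_iff₀' z'] at w
      exact Real.exp_le_exp.2 (neg_le_neg w)
    · exact ng a b e (al.hom a b e k k1)
  refine ⟨hM, al.fr.mono fun n h => ((hF ι κ Φ _ _).1 _ 0 fun a => Real.exp_pos _).1 h,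
    fun a => ⟨?_, sub_nonneg.2 (tw.le2 a)⟩, fun a k => mt (zero_iff tw).1 (al.live a k),
    fun a b e => ?_, fun a b e k k' => key a b e (mt (zero_iff tw).2 k) (mt (hm tw) k'),
    fun a b e h1 h2 h3 => ng a b e (al.sub a b e h1 h2 h3), fun e he => ?_⟩
  · change 0 ≤ (om a).1 - t a * (μ - 1)
    linarith [tw.nn a, tw.le1 a]
  · by_cases k : om e = 0 ∨ (Hm om a b e ∧ t e = t a + t b)
    · refine ob_congr (oc a b e) (d0.mono fun n d => ?_)
      rw [sC_eq, abs_mul, abs_of_pos (Real.exp_pos _)]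
      refine mul_le_of_le_one_right (abs_nonneg _) (Real.exp_le_one_iff.2 ?_)
      rcases k with k | k
      · have : dep om (x n) e - t e * σ n = 0 := by simp [dep, k, t_zero tw k]
        linarith [(d a).1, (d b).1]
      · rw [dep_hm k.1]
        simp [k.2]
    · exact (key a b e (not_or.1 k).1 (not_or.1 k).2).ob
  · have e1 : 0 < (om e).1 - t e * (μ - 1) := he.1
    have e2 : t e < (om e).2 := sub_pos.1 he.2
    have e3 : Mx om e := ⟨(al.wt e).1.lt_of_ne fun z => by
      have : t e = 0 := le_antisymm (by nlinarith [tw.le1 e, tw.pos]) (tw.nn e)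
      rw [this] at e1
      linarith, (tw.nn e).trans_lt e2⟩
    have ol : ∀ a b, OB M' fun n => lam e n a b := fun a b =>
      ob hL h0 (.of_forall fun n => hb n (false, e, a, b))
    refine ⟨lam e, ol, fun e' he' => ?_⟩
    have e4 : om e' ≠ 0 := fun z => by
      rw [(zero_iff tw).2 z] at he'
      exact he.2.ne (congrArg Prod.snd he')
    have e5 : ∀ a b, Neg M' fun n => cH (omN om μ t) (sC (fun a => Real.exp
        (-(dep om (x n) a - t a * σ n))) (c n)) a b e' - cG om t (c n) a b e' := fun a b => by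
      unfold cH cG
      by_cases k : Hm om a b e' ∧ t e' = t a + t b
      · refine neg_ev (.of_forall fun n => ?_)
        rw [if_pos k, if_pos (hm tw k), sC_eq, dep_hm k.1]
        simp [k.2]
      · simp only [if_neg k, sub_zero]
        split_ifs
        exacts [key a b e' e4 k, neg_zero]
    refine ((Neg.sum hM Finset.univ fun a _ => Neg.sum hM Finset.univ fun b _ =>
      (e5 a b).mul' (ol a b)).add hM ((l2 e e3 e2 e').up up)).congr (.of_forall fun n => ?_)
    simp only [mul_sub, Finset.sum_sub_distrib]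
    ring

end Pool.Agent.MP_5168f5_an.AN.GO
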