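import Pool.Agent.MP_5168f5_an.AN.N6Spec2
import Pool.Agent.MP_5168f5_an.AN.GOv2

/-! Kakeya sets in all dimensions: passage to an adapted basis. -/

namespace Pool.Agent.MP_5168f5_an.AN.N6

open H19 H17S H17F G39 Filter H61Z GA GF R4 LC S20 MvPolynomial
open Pk (cn)

theorem n6Prep : OfPREP := by
  intro hO hZ hC hA m κ _ _ Ω Λ σ S X L₀ h1 h ac
  obtain ⟨A, A', t, pos, Lm, i1, i2, ad, s1, s2⟩ := hO κ m (sM X) σ.Φ σ.la σ.o σ.wt
    (fun n => (X n).B) (fun n => (X n).c) (fun i a => a ∈ S i) h.big h.wp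
    (h.fr.mono fun n z => ⟨z.1, gr_of z⟩) (ob_B h) (ob_c h) (fun a k => h.ss k)
    fun i a b e x y z => (h.sub i a x b y e z).os
  have hg : ∀ e, ∃ lam : ℕ → κ → κ → ℝ, (∀ a b, OB (sM X) fun n => lam n a b) ∧ (0 < t e →
      t e < σ.wt e → ∀ e', OS (sM X) fun n => ∑ a, ∑ b, lam n a b *
        cg (mC (A n) (A' n) (X n).c) t a b e' - if e' = e then 1 else 0) := fun e => by
    by_cases k : 0 < t e ∧ t e < σ.wt e
    · exact (ad.gen e k.1 k.2).imp fun _ k => ⟨k.1, fun _ _ => k.2⟩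
    · exact ⟨0, fun _ _ => ob_const h.big 0, fun k1 k2 => absurd ⟨k1, k2⟩ k⟩
  choose lam l1 l2 using hg
  obtain ⟨L, hL, hb⟩ := ob_bound h.big (J := (κ × κ) ⊕ (κ × κ) ⊕ (κ × Fin m) ⊕ κ × κ × κ)
    (f := fun j n => j.elim (fun x => A n x.1 x.2) (Sum.elim (fun x => A' n x.1 x.2)
      (Sum.elim (fun x => Lm n x.1 x.2) fun x => lam x.1 n x.2.1 x.2.2))) fun j => by
    rcases j with x | x | x | x
    exacts [(i2 _ _).1, (i2 _ _).2, ad.ob _ _, l1 _ _ _]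
  obtain ⟨e, z1, z2, z3, z4⟩ := hZ m κ Ω Λ σ S X _ L₀ h hL.log
  have ob := fun j => GO.GOv2A.ob hL z4 (.of_forall fun n => hb n j)
  have ng : ∀ {u : ℕ → ℝ}, OS (sM X) u → Neg (sM fun n => (X n).idx 0 (e n)) u :=
    fun k => neg_of_os k z3
  obtain ⟨S', st, sf⟩ : ∃ S' : Bool → Finset κ, (∀ a, a ∈ S' true ↔ t a = σ.wt a) ∧
      ∀ a, a ∈ S' false ↔ 0 ≤ t a :=
    ⟨fun k => bif k then Finset.univ.filter fun a => t a = σ.wt a else
      Finset.univ.filter fun a => 0 ≤ t a, fun a => by simp, fun a => by simp⟩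
  have ch : Chg σ (sM fun n => (X n).idx 0 (e n)) S S' A A' := by
    refine ⟨i1, fun a b => ⟨ob (.inl (a, b)), ob (.inr (.inl (a, b)))⟩, fun k a b x y => ng ?_,
      fun k b a x y => ng ?_, fun a x => (sf a).2 (((st a).1 x).ge.trans' (h.wp a).le)⟩
    · cases k
      exacts [s2.row a b ((sf a).1 x) y, s1.row a b ((st a).1 x) y]
    · cases k
      exacts [s2.col b a x (mt (sf a).2 y), s1.col b a x (mt (st a).2 y)]
  exact ⟨S', t, pos, Lm, _, hC m κ Ω Λ σ S S' _ A A' z1 ch,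
    hA m κ Ω Λ σ S S' _ A A' L₀ z1 ch h1 (z2 ac), h1, st, sf, ad.le, ad.live,
    fun a b c x y z => ng (ad.fil a b c x y z), fun a b c x y z u v => ng (ad.sub a b c x y z u v),
    fun c x y => ⟨lam c, fun a b => ob (.inr (.inr (.inr (c, a, b)))), fun d => ng (l2 c x y d)⟩,
    fun a p x y => ng (ad.stab a p x y), fun a p => ob (.inr (.inr (.inl (a, p)))), ad.li⟩

end Pool.Agent.MP_5168f5_an.AN.N6
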