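import Pool.Agent.MP_5168f5_an.AN.N6Spec2

/-! Kakeya sets in all dimensions: the position functions satisfy no relation in an atom. -/

namespace Pool.Agent.MP_5168f5_an.AN.N6

open H19 H17S H17F G39 Filter H61Z GA GF R4 LC S20 MvPolynomial
open Pk (cn kc)

namespace N6RelA

theorem ev_ae {σ τ : Type} (x : τ → ℝ) (Φ : σ → MvPolynomial τ ℝ) (F : MvPolynomial σ ℝ) :
    eval x (aeval Φ F) = eval (fun i => eval x (Φ i)) F := by
  induction F using MvPolynomial.induction_on <;> simp_all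

variable {m q : ℕ} {κ : Type} [DecidableEq κ]

/-- The variables in `S`. -/
noncomputable def inc (S : Finset κ) (b : κ) : MvPolynomial {b // b ∈ S} ℝ :=
  if h : b ∈ S then X ⟨b, h⟩ else 0

/-- The relation in the coordinates. -/
noncomputable def pul (W : κ → MvPolynomial (Fin m) ℝ) (Q : Fin m → MvPolynomial κ ℝ)
    (e : Fin q → κ) (H : MvPolynomial (Fin q) ℝ) : MvPolynomial κ ℝ :=
  aeval (fun i => aeval Q (W (e i))) H

variable {S : Finset κ} {W : κ → MvPolynomial (Fin m) ℝ} {Q : Fin m → MvPolynomial κ ℝ}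
  {e : Fin q → κ} {H : MvPolynomial (Fin q) ℝ} {E E' : ℕ} {L K δ : ℝ}

omit [DecidableEq κ] in
theorem ev_pul (s : κ → ℝ) : eval s (pul W Q e H) = eval (wv W e fun p => eval s (Q p)) H := by
  simp only [pul, ev_ae]
  rfl

omit [DecidableEq κ] in
theorem size (hL : 1 ≤ L) (hW : ∀ a, (W a).totalDegree ≤ E ∧ cn (W a) ≤ L)
    (hQ : ∀ p, (Q p).totalDegree ≤ E ∧ cn (Q p) ≤ L) (hH : H.totalDegree ≤ E') :
    (pul W Q e H).totalDegree ≤ E' * (E * E) ∧ cn (pul W Q e H) ≤ cn H * (L * L ^ E) ^ E' :=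
  ⟨kc.deg _ _ _ _ hH fun i => kc.deg _ _ _ _ (hW _).1 fun p => (hQ p).1,
    kc.comp _ _ _ _ hH (one_le_mul_of_one_le_of_one_le hL (one_le_pow₀ hL)) fun i =>
      (kc.comp _ _ _ _ (hW _).1 hL fun p => (hQ p).2).trans
        (mul_le_mul_of_nonneg_right (hW _).2 (by positivity))⟩

theorem deg {G : MvPolynomial κ ℝ} (h : G.totalDegree ≤ E) :
    (aeval (inc S) G).totalDegree ≤ E * 1 := kc.deg _ _ _ _ h fun b => by
  unfold inc
  split_ifs <;> simp

theorem low {pos : κ → Prop} (he : Function.Injective e) (hp : ∀ i, pos (e i) ∧ e i ∈ S)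
    (hv : ∀ s : κ → ℝ, (∀ a, ¬pos a → s a = 0) → ∀ a, eval (fun p => eval s (Q p)) (W a) = s a) :
    cn H ≤ cn (aeval (inc S) (pul W Q e H)) := by
  generalize hF : aeval (inc S) (pul W Q e H) = F
  have k : aeval (fun b : {b // b ∈ S} => Function.extend e X 0 b.1) F = H :=
    MvPolynomial.funext fun x => by
      rw [← hF, ev_ae, ev_ae, ev_pul]
      congr 2
      funext i
      rw [wv, hv _ fun a h => ?_, inc, dif_pos (hp i).2, eval_X, he.extend_apply, eval_X]
      unfold inc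
      split_ifs
      · rw [eval_X, Function.extend_apply' _ _ _ fun ⟨i, (c : e i = a)⟩ => h (c ▸ (hp i).1)]
        simp
      · simp
  have := kc.comp (fun b : {b // b ∈ S} => Function.extend e X 0 b.1) F _ 1 le_rfl le_rfl
    fun b => by
      by_cases c : ∃ i, e i = b.1
      · obtain ⟨i, c⟩ := c
        rw [← c, he.extend_apply, kc.var]
      · rw [Function.extend_apply' _ _ _ c, Pi.zero_apply, (kc.zero _).2 rfl]
        exact zero_le_one
  rwa [k, one_pow, mul_one] at this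

theorem near {G : MvPolynomial κ ℝ} (h : G.totalDegree ≤ E) (hK : 1 ≤ K) (h0 : 0 ≤ δ) {s : κ → ℝ}
    (h1 : ∀ b, |s b| ≤ K) (h2 : ∀ b, b ∉ S → |s b| ≤ δ) :
    |eval (fun b => s b.1) (aeval (inc S) G)| ≤ |eval s G| + E * cn G * K ^ E * δ := by
  rw [ev_ae, ← sub_le_iff_le_add']
  refine (abs_sub_abs_le_abs_sub _ _).trans (kc.lip G E K δ _ _ h hK h0 fun b => ?_)
  unfold inc
  split_ifs with c
  · simpa [h0] using h1 b
  · simpa [h1 b, zero_le_one.trans hK] using h2 b c

end N6RelA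

open N6RelA in
theorem n6Rel : SRel := by
  intro m κ _ _ Ω Λ σ S L₀ t pos Lm X E L W Q b w k a q E' e η r H he hp hη hr hH
  obtain ⟨K, hK, h⟩ := atom_co b.big b.fr b.lo (b.inc k a)
  have sz := fun n z => size (e := e) (w.sub.1 n) (w.bd n).1 (w.bd n).2 (hH n z)
  have s := ((b.big.sub (C := (E' * (E * E) : ℕ) + 1)
    (le_add_of_nonneg_left (Nat.cast_nonneg _))).mul
    ((w.sub.mul (w.sub.pow E)).pow E')).mul (hK.pow (E' * (E * E)))
  refine (b.ind k a _ (η / 2) r (fun n z => aeval (inc (S k)) (pul (W n) (Q n) e (H n z)))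
    (half_pos hη) hr fun n z => deg (sz n z).1).mono ?_
  filter_upwards [h (η + 1), hr, w.val, s.2 1 one_pos, b.big.ev (2 / η)] with n h hr v s M ω hω c
  obtain ⟨-, h1, h2, h3⟩ := h _ ω ⟨(hr ω hω).1, hω, (hr ω hω).2⟩
  have v1 : ∀ s, (fun p => eval s (Q n p)) = ob (X n).B σ.o s := fun s => funext (v.1 s)
  have d := fun c => (Real.exp_pos (-(c * sM X n : ℝ))).le
  have c1 := low (H := H n ((X n).O k a ω)) he hp fun s u a => by rw [v1]; exact v.2 s u a
  have c2 := near (sz n ((X n).O k a ω)).1 (hK.1 n) (d _) h2 h3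
  have c3 := (sz n ((X n).O k a ω)).2
  have c4 := kc.nonneg (H n ((X n).O k a ω))
  rw [ev_pul, v1, ← h1] at c2
  have e1 : Real.exp (1 * sM X n) * dl (sM X) (η + 1) n = dl (sM X) η n := by
    rw [dl, dl, ← Real.exp_add]; congr 1; ring
  have e2 : 2 * dl (sM X) η n ≤ dl (sM X) (η / 2) n := by
    rw [div_le_iff₀ hη] at M
    rw [dl, show -(η * sM X n) = -(η / 2 * sM X n) + -(η / 2 * sM X n) by ring, Real.exp_add,
      ← mul_assoc]
    refine mul_le_of_le_one_left (d _) ?_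
    rw [Real.exp_neg, ← div_eq_mul_inv, div_le_one (Real.exp_pos _)]
    linarith [Real.add_one_le_exp (η / 2 * sM X n)]
  have l0 := (w.sub.pos n).le
  have k0 := (hK.pos n).le
  have e3 := mul_le_mul_of_nonneg_right (mul_le_mul_of_nonneg_right (mul_le_mul
    (le_add_of_nonneg_right zero_le_one : ((E' * (E * E) : ℕ) : ℝ) ≤ _) c3 (kc.nonneg _)
    (by positivity)) (pow_nonneg k0 (E' * (E * E)))) (d (η + 1))
  have e4 := mul_le_mul_of_nonneg_right (mul_le_mul_of_nonneg_right s (d (η + 1))) c4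
  have e5 := mul_le_mul e2 c1 c4 (d _)
  simp only [dl] at *
  rw [e1] at e4
  linarith

end Pool.Agent.MP_5168f5_an.AN.N6
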