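import Pool.Agent.MP_5168f5_an.AN.N6Spec2

/-! Kakeya sets in all dimensions: the outer basis vectors are made negligibly short. -/

namespace Pool.Agent.MP_5168f5_an.AN.N6

open H19 H17S H17F G39 Filter H61Z GA GF R4 LC S20 MvPolynomial

namespace N6ResA

variable {m : ℕ} {κ : Type}

section One

variable {t : κ → ℝ} {x : ℝ} {a b e : κ}

open Classical in
/-- The factor of the basis vector `a`. -/
noncomputable def rho (t : κ → ℝ) (x : ℝ) (a : κ) : ℝ := if 0 ≤ t a then 1 else Real.exp (-x)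

theorem rho_al (h : 0 ≤ t a) : rho t x a = 1 := if_pos h

theorem rho_dd (h : t a < 0) : rho t x a = Real.exp (-x) := if_neg (not_le.2 h)

theorem rho_pos (t : κ → ℝ) (x : ℝ) (a : κ) : 0 < rho t x a := by
  unfold rho
  split_ifs
  exacts [one_pos, Real.exp_pos _]

theorem rho_le (hx : 0 ≤ x) (a : κ) : rho t x a ≤ 1 := by
  unfold rho
  split_ifs
  exacts [le_rfl, Real.exp_le_one_iff.2 (neg_nonpos.2 hx)]

theorem rho_ge (hx : 0 ≤ x) (a : κ) : Real.exp (-x) ≤ rho t x a := by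
  unfold rho
  split_ifs
  exacts [Real.exp_le_one_iff.2 (neg_nonpos.2 hx), le_rfl]

variable {c : κ → κ → κ → ℝ}

theorem sC_al (ha : 0 ≤ t a) (hb : 0 ≤ t b) (he : 0 ≤ t e) : sC (rho t x) c a b e = c a b e := by
  rw [sC, rho_al ha, rho_al hb, rho_al he, mul_one, mul_one, div_one]

theorem sB_al {B : κ → Mt (Fin m)} (ha : 0 ≤ t a) : sB (rho t x) B a = B a := by
  rw [sB, rho_al ha, one_smul]

theorem abs_sC : |sC (rho t x) c a b e| = |c a b e| * (rho t x a * rho t x b / rho t x e) := by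
  rw [sC, mul_assoc, mul_div_assoc, abs_mul, abs_of_pos
    (div_pos (mul_pos (rho_pos t x a) (rho_pos t x b)) (rho_pos t x e))]

theorem rr_le (hx : 0 ≤ x) (h : t a < 0 ∨ t b < 0) : rho t x a * rho t x b ≤ Real.exp (-x) := by
  rcases h with h | h <;> rw [rho_dd h]
  · exact mul_le_of_le_one_right (Real.exp_pos _).le (rho_le hx b)
  · exact mul_le_of_le_one_left (Real.exp_pos _).le (rho_le hx a)

theorem sC_le (hx : 0 ≤ x) (h : (t a < 0 ∨ t b < 0) ∨ 0 ≤ t e) :
    |sC (rho t x) c a b e| ≤ |c a b e| := by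
  rw [abs_sC]
  refine mul_le_of_le_one_right (abs_nonneg _) ((div_le_one (rho_pos t x e)).2 ?_)
  rcases h with h | h
  · exact (rr_le hx h).trans (rho_ge hx e)
  · rw [rho_al h]
    exact mul_le_one₀ (rho_le hx a) (rho_pos t x b).le (rho_le hx b)

theorem sC_dd (hx : 0 ≤ x) (h : t a < 0 ∨ t b < 0) (he : 0 ≤ t e) :
    |sC (rho t x) c a b e| ≤ |Real.exp (-x) * c a b e| := by
  rw [abs_sC, rho_al he, div_one, abs_mul, abs_of_pos (Real.exp_pos _), mul_comm]
  exact mul_le_mul_of_nonneg_right (rr_le hx h) (abs_nonneg _)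

theorem sC_out (ha : 0 ≤ t a) (hb : 0 ≤ t b) (he : t e < 0) (h : |c a b e| ≤ Real.exp (-(2 * x))) :
    |sC (rho t x) c a b e| ≤ |Real.exp (-x)| := by
  rw [abs_sC, rho_al ha, rho_al hb, rho_dd he, abs_of_pos (Real.exp_pos _), one_mul, mul_one_div,
    div_le_iff₀ (Real.exp_pos _), ← Real.exp_add]
  exact h.trans (le_of_eq (by congr 1; ring))

theorem cg_sC (a b e : κ) : cg (sC (rho t x) c) t a b e = cg c t a b e := by
  unfold cg
  split_ifs with h
  · exact sC_al h.1 h.2.1 (h.2.2 ▸ add_nonneg h.1 h.2.1)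
  · rfl

end One

section Dt

variable [Fintype κ] {Ω Λ : Type} {σ : St m κ} {X : Dt m κ Ω Λ} {t : κ → ℝ} {x : ℝ}
  {S : Finset κ} {k : Bool} {a : ℚ≥0}

/-- The data in the rescaled basis. -/
noncomputable abbrev nw (t : κ → ℝ) (x : ℝ) (X : Dt m κ Ω Λ) : Dt m κ Ω Λ :=
  X.bas (sB (rho t x) X.B) (sC (rho t x) X.c)

theorem fr_nw (h : X.Fr σ) : (nw t x X).Fr σ := by
  classical
  refine ⟨((sFr _ κ σ.Φ X.B X.c).1 _ 0 (rho_pos t x)).1 h.1, fun a p q z => h.2.1 a p q ?_, h.2.2⟩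
  exact right_ne_zero_of_mul (a := rho t x a) z

theorem lg_nw (h : X.Fr σ) {ε : ℝ} (i : X.Inc σ S k a ε) {ω v : Ω} (z : At X k a ω v) {b : κ}
    (hb : 0 ≤ t b) : lg (sB (rho t x) X.B) (X.j ω) (X.j v) b = lg X.B (X.j ω) (X.j v) b := by
  classical
  obtain ⟨s, -, e⟩ := i ω z.1 v z.2.1 z.2.2
  rw [e, ((sFr _ κ σ.Φ X.B X.c).1 _ 0 (rho_pos t x)).2.2.2 h.1 _ s (h.2.2 ω z.1), rho_al hb,
    div_one]

theorem inc_nw (hS : ∀ b ∈ S, 0 ≤ t b) {K ε : ℝ} (hε : 0 < ε) (hK : 1 / ε ≤ K)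
    (i : X.Inc σ S k a (1 / (2 * K + 1))) : (nw t (K * X.M) X).Inc σ S k a ε := by
  classical
  intro ω hω v hv z
  obtain ⟨s, bs, e⟩ := i ω hω v hv z
  rw [((sFr _ κ σ.Φ X.B X.c).1 _ _ (rho_pos t _)).2.1]
  refine ⟨s, fun b => (bs b).trans ?_, e⟩
  have m0 : (0 : ℝ) ≤ X.M := Nat.cast_nonneg _
  have k0 : 0 < K := (one_div_pos.2 hε).trans_le hK
  have h1 : X.M / ε ≤ K * X.M := by
    rw [div_eq_mul_one_div, mul_comm]; exact mul_le_mul_of_nonneg_right hK m0
  have h2 : 1 / (2 * K + 1) ≤ ε := by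
    rw [div_le_iff₀ hε] at hK
    rw [div_le_iff₀ (by positivity)]
    nlinarith
  have h3 := mul_le_mul_of_nonneg_right h2 m0
  show _ ≤ Real.exp (ε * X.M) * (rho t (K * X.M) b * LC.rd σ.wt S (X.lv a) _ b)
  unfold LC.rd
  split_ifs with hb
  · rw [rho_al (hS b hb), one_mul]
    exact mul_le_mul_of_nonneg_right (Real.exp_le_exp.2 h3) (by positivity)
  · refine mul_le_mul (Real.exp_le_exp.2 h3) ?_ (by positivity) (by positivity)
    rw [mul_left_comm]
    refine mul_le_mul_of_nonneg_left (le_trans ?_ (mul_le_mul_of_nonneg_right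
      (rho_ge (by positivity) b) (Real.exp_pos _).le)) (Real.exp_pos _).le
    rw [← Real.exp_add, Real.exp_le_exp, div_div_eq_mul_div, div_one]
    show _ ≤ -(K * X.M) + -(X.M / ε)
    nlinarith

theorem ac_nw (hS : ∀ b ∈ S, 0 ≤ t b) (h : X.Fr σ) {ε ε' L : ℝ} (i : X.Inc σ S k a ε')
    (c : X.Ac σ S L k a ε) : (nw t x X).Ac σ S L k a ε := by
  intro ω hω u hu l c₀ l0 l1 l2
  refine le_trans (pb_mono fun v hv z => ?_) (c ω hω u hu l c₀ l0 l1 fun b hb b' hb' => ?_)
  · refine le_of_eq_of_le (congrArg (|· - c₀|) (Finset.sum_congr rfl fun b _ => ?_)) z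
    by_cases hb : b ∈ S
    · exact congrArg (l b * ·) (congrArg _ (lg_nw h i ((mem_fb hω).1 hv) (hS b hb)).symm)
    · rw [l0 b hb, zero_mul, zero_mul]
  · refine le_of_eq_of_le (congrArg (|·|) (Finset.sum_congr rfl fun e _ => ?_)) (l2 b hb b' hb')
    by_cases he : e ∈ S
    · exact congrArg (l e * ·) (sC_al (hS b hb) (hS b' hb') (hS e he)).symm
    · rw [l0 e he, zero_mul, zero_mul]

end Dt

theorem neg_exp {M T : ℕ → ℕ} (h : Big T) : Neg M fun n => Real.exp (-((T n : ℝ) * M n)) :=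
  fun K => ((tendsto_natCast_atTop_atTop (R := ℝ)).comp h).eventually_ge_atTop K |>.mono
    fun n a => by
      rw [abs_of_pos (Real.exp_pos _)]
      exact Real.exp_le_exp.2 (neg_le_neg (mul_le_mul_of_nonneg_right a (Nat.cast_nonneg _)))

end N6ResA

open N6ResA in
theorem n6Res : RESC := by
  intro m κ _ _ Ω Λ σ S L₀ t pos Lm X h hI
  have l := h.l
  have hS : ∀ k, ∀ b ∈ S k, 0 ≤ t b := fun k b hb => (h.sf b).1 (by
    cases k
    exacts [hb, l.ss hb])
  obtain ⟨T, hT, H⟩ := TG.tgDg (Bool × ℚ≥0) (fun i K n =>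
    (X n).Inc σ (S i.1) i.1 i.2 (1 / (2 * K + 1)) ∧ ∀ a b e, 0 ≤ t a → 0 ≤ t b → t e < 0 →
      |(X n).c a b e| ≤ dl (sM X) (2 * K) n) fun i => .of_forall fun K =>
    (l.inc i.1 i.2 _ (by positivity)).and (eventually_all.2 fun a => eventually_all.2 fun b =>
      eventually_all.2 fun e => eventually_imp_distrib_left.2 fun ha =>
        eventually_imp_distrib_left.2 fun hb => eventually_imp_distrib_left.2 fun he =>
          h.ad.fil a b e ha hb (by linarith) _)
  have x0 : ∀ n, (0 : ℝ) ≤ T n * (X n).M := fun n => by positivity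
  have hN := neg_exp (M := sM X) hT
  have out : ∀ a b e, 0 ≤ t a → 0 ≤ t b → t e < 0 →
      Neg (sM X) fun n => sC (rho t (T n * (X n).M)) (X n).c a b e := fun a b e ha hb he =>
    hN.mono ((H (true, 0)).mono fun n z => sC_out ha hb he
      ((z.2 a b e ha hb he).trans (le_of_eq (by rw [dl, mul_assoc]))))
  refine ⟨fun n => nw t (T n * (X n).M) (X n), l.cc, l.lo, l.wp, l.big, l.lv,
    l.fr.mono fun n z => fr_nw z, fun a p q => ?_, fun a b e => ?_, l.nest, l.com,
    fun k a ε hε => ?_, l.crv, l.spr, l.ngv, l.bg, l.gs, fun k a ε hε => ?_, h.one, h.st, h.sf,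
    ⟨h.ad.le, h.ad.live, fun a b e ha hb he => ?_, fun a b e ha hb u v w => ?_, fun e u v => ?_,
      fun a p ha hp => ?_, h.ad.ob, h.ad.li.mono fun n z => ⟨z.sup, fun a b ha hb => ?_⟩⟩,
    fun k a E η r F hη hr hF => ?_, fun a b e u v => ?_, fun a p hp => ?_⟩
  · refine ob_congr (ob_B l a p q) (.of_forall fun n => ?_)
    show |rho t _ a * _| ≤ _
    rw [abs_mul, abs_of_pos (rho_pos _ _ _)]
    exact mul_le_of_le_one_left (abs_nonneg _) (rho_le (x0 n) a)
  · by_cases z : (t a < 0 ∨ t b < 0) ∨ 0 ≤ t e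
    · exact ob_congr (ob_c l a b e) (.of_forall fun n => sC_le (x0 n) z)
    · push Not at z
      exact (out a b e z.1.1 z.1.2 z.2).ob
  · filter_upwards [H (k, a),
      ((tendsto_natCast_atTop_atTop (R := ℝ)).comp hT).eventually_ge_atTop (1 / ε)] with n u v
    exact inc_nw (hS k) hε v u.1
  · filter_upwards [H (k, a), l.fr, h.ac k a ε hε] with n u v w
    exact ac_nw (hS k) v u.1 w
  · rcases le_or_gt 0 (t e) with z | z
    · exact (h.ad.fil a b e ha hb he).congr (.of_forall fun n => sC_al ha hb z)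
    · exact out a b e ha hb z
  · exact (h.ad.sub a b e ha hb u v w).congr (.of_forall fun n => sC_al ha hb (h.ad.live e w))
  · obtain ⟨lam, y, z⟩ := h.ad.gen e u v
    exact ⟨lam, y, fun e' => (z e').congr (.of_forall fun n => by simp only [cg_sC])⟩
  · exact (h.ad.stab a p ha hp).congr (.of_forall fun n => by simp only [sB_al ha])
  · simpa only [sB_al (h.ad.live b hb)] using z.inv a b ha hb
  · refine (hI k a E η r F hη hr hF).mono ?_
    filter_upwards [H (k, a), l.fr, hr] with n u v w ω hω z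
    refine z.trans (le_of_eq (congrArg (fun s => |eval s _|) (funext fun b => ?_)))
    exact congrArg (Real.exp _ * ·)
      (lg_nw v u.1 ⟨(w ω hω).1, hω, (w ω hω).2⟩ (hS k b.1 b.2)).symm
  · exact (hN.mul (ob_c l a b e)).mono (.of_forall fun n => sC_dd (x0 n) u v)
  · rcases le_or_gt 0 (t a) with z | z
    · exact (h.ad.stab a p z hp).congr (.of_forall fun n => by simp only [sB_al z])
    · exact (hN.mul (ob_B l a p σ.o)).congr (.of_forall fun n => by
        show rho t _ a * _ = _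
        rw [rho_dd z])

end Pool.Agent.MP_5168f5_an.AN.N6
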