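import Pool.Agent.MP_5168f5_an.AN.GOSpec2

/-! Kakeya sets in all dimensions: two cases for the place of the unit coefficient. -/

namespace Pool.Agent.MP_5168f5_an.AN.GO

open H19 H17S H17F G39 GA Filter H61Z TG

namespace GOa1A

variable {ι κ : Type} [Fintype ι] [DecidableEq ι] [Fintype κ] {x : ℕ → Sy ι κ} {D : ℕ → κ → ℝ}
  {S S0 : κ → Prop} {C : ℝ} {W β : ℕ → Type} {Q : ∀ n, FP (W n)} {π : ∀ n, W n → (x n).Ω}
  {b : ∀ n, W n → β n} {p : ∀ n, β n → Mt ι} {l : ∀ n, β n → κ → ℝ} {η ρ ε : ℝ}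

theorem one (h : SBc x D S S0 C) (hC : 0 ≤ C) (c0 : ∀ n, β n → ℝ) (hη : 0 < η) (hρ : 0 ≤ ρ)
    (hb : Base x D Q π b p) (ht : ∀ᶠ n in UF, ∀ v ∈ (Q n).S,
      Tst (x n).c (rA (D n)) S (Real.exp (-(η * (x n).M))) (l n (b n v)))
    (hi : Le (un x) (fun n => mi (Q n) (b n) (fun v => (x n).j (π n v))
      fun v => (x n).Z (D n) (π n v)) fun n => ρ * (x n).M) (hε : 0 < ε) :
    ∀ᶠ n in UF, pb (Q n) (fun v => (∃ a, S0 a ∧ |l n (b n v) a| = 1) ∧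
      |∑ a, l n (b n v) a * (x n).co (D n) (p n (b n v)) (π n v) a - c0 n (b n v)| ≤
        Real.exp (-(η * (x n).M))) ≤ C * ρ / η + ε := by
  classical
  rcases ev_em fun n => ∃ v ∈ (Q n).S, ∃ a, S0 a ∧ |l n (b n v) a| = 1 with e | e
  · have e1 : ∀ n, ∃ l0 : κ → ℝ, (∃ v ∈ (Q n).S, ∃ a, S0 a ∧ |l n (b n v) a| = 1) →
        ∃ v ∈ (Q n).S, l0 = l n (b n v) ∧ ∃ a, S0 a ∧ |l0 a| = 1 := fun n => by
      by_cases k : ∃ v ∈ (Q n).S, ∃ a, S0 a ∧ |l n (b n v) a| = 1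
      · obtain ⟨v, hv, k⟩ := k
        exact ⟨_, fun _ => ⟨v, hv, rfl, k⟩⟩
      · exact ⟨0, fun k' => absurd k' k⟩
    choose l0 h0 using e1
    refine (h W β Q π b p (fun n z => if ∃ a, S0 a ∧ |l n z a| = 1 then l n z else l0 n) c0 η ρ hη
      hρ hb ?_ hi ε hε).mono fun n a => (pb_mono fun v _ k => ?_).trans a
    · filter_upwards [e, ht] with n a u v hv
      split_ifs with k
      · exact ⟨u v hv, k⟩
      · obtain ⟨w, hw, e1, e2⟩ := h0 n a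
        exact ⟨e1 ▸ u w hw, e2⟩
    · simpa only [if_pos k.1] using k.2
  · exact e.mono fun n a => (pb_zero fun v hv k => a ⟨v, hv, k.1⟩).trans_le (by positivity)

end GOa1A

theorem goSplit : OSplit := by
  intro ι κ _ _ _ Φ om pos x D S S1 S2 C1 C2 hS h1 h2 s1 s2 W β Q π b p l c0 η ρ hη hρ hb ht hi ε hε
  filter_upwards [GOa1A.one s1 h1 c0 hη hρ hb ht hi (half_pos hε),
    GOa1A.one s2 h2 c0 hη hρ hb ht hi (half_pos hε), ht] with n u v w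
  refine (pb_mono fun z hz k => ?_).trans ((pb_or _ _ _).trans ((add_le_add u v).trans_eq (by ring)))
  obtain ⟨a, ha⟩ := (w z hz).one
  exact (hS a (by_contra fun e => by simp [(w z hz).sup a e] at ha)).imp
    (fun e => ⟨⟨a, e, ha⟩, k⟩) fun e => ⟨⟨a, e, ha⟩, k⟩

end Pool.Agent.MP_5168f5_an.AN.GO
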