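import Pool.Agent.MP_5168f5_an.AN.GOSpec2

/-! A linear form seen from the centre of a deeper cell. -/

namespace Pool.Agent.MP_5168f5_an.AN.GO

open H19 H17S H17F G39 GA Filter H61Z TG

namespace GOa2A

variable {ι κ : Type} [Fintype ι] [DecidableEq ι] [Fintype κ] {Φ : Filt (Mt ι)} {B : κ → Mt ι}
  {c : κ → κ → κ → ℝ} {r r' : κ → ℝ} {L L' : ℝ} {y z : Mt ι}

theorem unit (m : GA.Mul Φ B c) (h : Nr B r L y z) (hz : IsUnit z) : IsUnit y := by
  obtain ⟨t, -, rfl⟩ := h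
  have := hz.mul (⟨⟨_, _, (m.neg t).1, (m.neg t).2⟩, rfl⟩ : IsUnit (ex B (-t)))
  rwa [mul_assoc, (m.neg t).2, mul_one] at this

theorem mono (h : Nr B r L y z) (e : ∀ a, L * r a ≤ L' * r' a) : Nr B r' L' y z :=
  h.imp fun _ k => ⟨fun a => (k.1 a).trans (e a), k.2⟩

theorem cut {S S' : κ → Prop} {l t : κ → ℝ} {δ : ℝ} (h0 : 0 ≤ δ) (hr : ∀ a, 0 < r a)
    (ht : ∀ a, |t a| ≤ r' a) (h1 : ∀ a, S a → r' a = r a) (h2 : ∀ a, S' a → S a ∨ r' a ≤ δ * r a)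
    (l0 : ∀ a, ¬S' a → l a = 0) (l1 : ∀ a, |l a| ≤ 1) :
    |∑ a, l a * (t a / r a) - ∑ a, ind S 1 a * l a * (t a / r' a)| ≤ Fintype.card κ * δ := by
  rw [← Finset.sum_sub_distrib]
  refine (Finset.abs_sum_le_sum_abs _ _).trans ((Finset.sum_le_card_nsmul _ _ δ
    fun a _ => ?_).trans_eq (nsmul_eq_mul _ _))
  by_cases s : S a
  · rwa [ind_pos s, h1 a s, one_mul, sub_self, abs_zero]
  rw [ind_neg s, zero_mul, zero_mul, sub_zero]
  by_cases s' : S' a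
  · rw [abs_mul, abs_div, abs_of_pos (hr a)]
    exact (mul_le_of_le_one_left (div_nonneg (abs_nonneg _) (hr a).le) (l1 a)).trans
      ((div_le_iff₀ (hr a)).2 ((ht a).trans ((h2 a s').resolve_left s)))
  · rwa [l0 a s', zero_mul, abs_zero]

end GOa2A

open GOa2A in
theorem goCut : OfCut := by
  intro hG hLip ι κ _ _ _ Φ om pos x h d d' S S' s L hd _ le hS hS' hL
  have hM := h.alg.big
  have gd := (hG _ _ Φ om pos x h).1 d hd.id
  obtain ⟨L0, hL0, e0⟩ := id gd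
  obtain ⟨K, hK, hN⟩ := sNr Φ.N (Fintype.card κ)
  obtain ⟨K', -, hC⟩ := sCell Φ.N (Fintype.card κ)
  have sb := sub_box hM (hL.mul hL0) hK
  obtain ⟨L', hL', e1⟩ := hLip _ _ Φ om pos x h _ _ gd
    ⟨∑ a, |d a|, Eventually.of_forall fun n a => by
      rw [TG.sc, abs_mul, Nat.abs_cast]
      exact mul_le_mul_of_nonneg_right (Finset.single_le_sum (f := fun a => |d a|)
        (fun _ _ => abs_nonneg _) (Finset.mem_univ a)) (Nat.cast_nonneg _)⟩ sb
  refine ⟨_, hL'.add (hM.sub (C := Fintype.card κ + 1) (by simp)) hM, ?_⟩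
  filter_upwards [e0, e1 0, h.alg.fr] with n a0 a1 fr p z l τ hz hτ hp l0 l1 l2
  have m := sMul _ _ Φ _ _ fr
  have M0 : (0 : ℝ) ≤ (x n).M := Nat.cast_nonneg _
  have p0 : ∀ (D : κ → ℝ) a, 0 < rA D a := fun _ _ => Real.exp_pos _
  have r1 : ∀ a, rA (sc (x n).M d') a ≤ rA (sc (x n).M d) a := fun a =>
    Real.exp_le_exp.2 (neg_le_neg (mul_le_mul_of_nonneg_right (le a) M0))
  have c1 := (hC _ _ Φ _ _ (rA (sc (x n).M d')) (rA (sc (x n).M d')) 1 rfl le_rfl fr le_rfl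
    fun a => ⟨p0 _ a, (one_mul _).ge⟩).1 z
  generalize cell (x n).B (rA (sc (x n).M d')) z = y at c1 ⊢
  have c2 : ∀ a, |GA.lg (x n).B y z a| ≤ rA (sc (x n).M d') a := by
    have hy := unit m c1 hz
    obtain ⟨t, ht, rfl⟩ := c1
    rw [m.lg _ _ hy]
    exact fun a => (ht a).trans_eq (one_mul _)
  have q1 := one_le_mul_of_one_le_of_one_le (hL.1 n) (hL0.1 n)
  have id1 := GACellA.idl_mono a0.2.1 (le_mul_of_one_le_left (hL0.pos n).le (hL.1 n))
    fun a => (p0 _ a).le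
  have N := fun u v w => hN _ _ Φ _ _ _ _ _ 0 u v w rfl le_rfl fr q1 le_rfl
    (fun a => ⟨(p0 _ a).le, (p0 _ a).le⟩) id1 id1
  have c3 : ∀ Λ, 1 ≤ Λ → Nr (x n).B (rA (sc (x n).M d)) Λ y z := fun Λ k =>
    mono c1 fun a => mul_le_mul k (r1 a) (p0 _ a).le (zero_le_one.trans k)
  have c4 := (N p z y).2.1 (mono hp fun a => mul_le_mul_of_nonneg_right
    (le_mul_of_one_le_right (hL.pos n).le (hL0.1 n)) (p0 _ a).le) ((N y z z).1 (c3 _ q1))
  have c5 := (a1 p y z (unit m hp hz) c4 (c3 _ (sb.1 n))).2 l τ hτ l1 l2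
  have c6 := cut (S := S) (r := rA (sc (x n).M d)) (δ := Real.exp (-(s * (x n).M)))
    (Real.exp_pos _).le (p0 _) c2 (fun a k => by simp only [rA, TG.sc, hS a k])
    (fun a k => (hS' a k).imp_right fun e => by
      simp only [rA, TG.sc, ← Real.exp_add]
      exact Real.exp_le_exp.2 (by linarith [mul_le_mul_of_nonneg_right e M0])) l0 l1
  refine ⟨c1, c2, (abs_sub_le _ _ _).trans ((add_le_add c5 c6).trans ?_)⟩
  have := Real.exp_pos (-(s * (x n).M))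
  nlinarith [mul_nonneg (hL'.pos n).le this.le,
    mul_nonneg (Nat.cast_nonneg (α := ℝ) (Fintype.card κ)) hτ]

end Pool.Agent.MP_5168f5_an.AN.GO
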