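import Pool.Agent.MP_5168f5_an.AN.GOSpec2

/-! Kakeya sets in all dimensions: the cocycle against a form on the extreme class. -/

namespace Pool.Agent.MP_5168f5_an.AN.GO

open H19 H17S H17F G39 GA Filter H61Z TG

namespace GOa3A

variable {κ : Type} [Fintype κ] {om : κ → ℝ × ℝ} {c : κ → κ → κ → ℝ} {z l : κ → ℝ} {y τ μ : ℝ}
  {t : κ → ℝ}

theorem pw {A : Type} [Ring A] [Algebra ℝ A] (R : κ → A) (z : κ → ℝ) {N : ℕ}
    (h : ∀ w : List κ, N ≤ w.length → (w.map R).prod = 0) :
    ∀ (k : ℕ) (w : List κ), N ≤ w.length + k → (∑ a, z a • R a) ^ k * (w.map R).prod = 0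
  | 0, w, x => by rw [h w x, mul_zero]
  | k + 1, w, x => by
    rw [pow_succ, mul_assoc, Finset.sum_mul, Finset.mul_sum]
    refine Finset.sum_eq_zero fun a _ => ?_
    have := pw R z h k (a :: w) (by rw [List.length_cons]; omega)
    rw [List.map_cons, List.prod_cons] at this
    rw [smul_mul_assoc, mul_smul_comm, this, smul_zero]

theorem bd {f : κ → ℝ} {s : ℝ} (hn : (Fintype.card κ : ℝ) ≤ y) (hs : 0 ≤ s)
    (h : ∀ a, |f a| ≤ s) : |∑ a, f a| ≤ y * s := by
  refine (Finset.abs_sum_le_sum_abs _ _).trans ((Finset.sum_le_sum fun a _ => h a).trans ?_)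
  rw [Finset.sum_const, nsmul_eq_mul, Finset.card_univ]
  exact mul_le_mul_of_nonneg_right hn hs

open Classical in
/-- The last column of the powers. -/
noncomputable def vv (om : κ → ℝ × ℝ) (c : κ → κ → κ → ℝ) (z : κ → ℝ) (k : ℕ) (e : κ) : ℝ :=
  ((∑ a, z a • Rm om c a) ^ k) (some e) none

theorem v0 (e : κ) : vv om c z 0 e = 0 := by simp [vv]

theorem v1 (e : κ) : vv om c z 1 e = z e * (om e).2 := by
  classical
  simp [vv, Matrix.sum_apply, Rm]

theorem vs (k : ℕ) (e : κ) :
    vv om c z (k + 2) e = ∑ b, (∑ a, z a * cH om c a b e) * vv om c z (k + 1) b := by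
  classical
  unfold vv
  rw [pow_succ' _ (k + 1), Matrix.mul_apply, Fintype.sum_option, pow_succ' _ k,
    Matrix.mul_apply (i := none)]
  simp [Matrix.sum_apply, Rm]

omit [Fintype κ] in
theorem cH_le (h : ∀ a b e, |c a b e| ≤ y) (a b e : κ) : |cH om c a b e| ≤ y := by
  unfold cH; split_ifs
  exacts [h a b e, abs_zero.trans_le ((abs_nonneg _).trans (h a b e))]

omit [Fintype κ] in
theorem cH_hm {a b e : κ} (h : cH om c a b e ≠ 0) : Hm om a b e := by
  by_contra x; exact h (if_neg x)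

theorem v_le (hn : (Fintype.card κ : ℝ) ≤ y) (hy : 1 ≤ y) (hc : ∀ a b e, |c a b e| ≤ y)
    (hz : ∀ a, |z a| ≤ 1) (ho : ∀ a, |(om a).2| ≤ y) :
    ∀ (k : ℕ) (e : κ), |vv om c z (k + 1) e| ≤ y ^ (3 * k + 1)
  | 0, e => by
    rw [v1, abs_mul, mul_zero, zero_add, pow_one]
    exact (mul_le_of_le_one_left (abs_nonneg _) (hz e)).trans (ho e)
  | k + 1, e => by
    have p : 0 ≤ y := zero_le_one.trans hy
    rw [vs, show y ^ (3 * (k + 1) + 1) = y * (y * y * y ^ (3 * k + 1)) by ring]
    refine bd hn (by positivity) fun b => ?_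
    rw [abs_mul]
    refine mul_le_mul (bd hn p fun a => ?_) (v_le hn hy hc hz ho k b) (abs_nonneg _) (by positivity)
    rw [abs_mul]
    exact (mul_le_of_le_one_left (abs_nonneg _) (hz a)).trans (cH_le hc a b e)

theorem v_z (hA : Ab om (fun _ => False) fun _ _ _ => True) :
    ∀ (k : ℕ) (e : κ), (om e).2 = 0 → vv om c z (k + 1) e = 0
  | 0, e, x => by rw [v1, x, mul_zero]
  | k + 1, e, x => by
    rw [vs]
    refine Finset.sum_eq_zero fun b _ => ?_
    rw [Finset.sum_mul]
    refine Finset.sum_eq_zero fun a _ => ?_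
    by_cases u : cH om c a b e = 0
    · rw [u, mul_zero, zero_mul]
    · rw [v_z hA k b (hA.hm_z (cH_hm u) x).2, mul_zero]

theorem key (hA : Ab om (fun _ => False) fun _ _ _ => True) (hT : Tw om μ t)
    (hn : (Fintype.card κ : ℝ) ≤ y) (hy : 1 ≤ y) (hτ : 0 ≤ τ) (hc : ∀ a b e, |c a b e| ≤ y)
    (hz : ∀ a, |z a| ≤ 1) (hp : ∀ a, P1 om a → |z a| ≤ τ) (hl : ∀ a, |l a| ≤ 1)
    (h0 : ∀ a, ¬Ex om μ a → l a = 0) (hi : ∀ a, Ex om μ a → 1 / (om a).2 ≤ y)
    (hk : ∀ a b, Ex om μ a → Ex om μ b → |∑ e, cH om c a b e * l e| ≤ τ) {w : κ → ℝ} {W : ℝ}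
    (hW : 0 ≤ W) (hw : ∀ b, |w b| ≤ W) (hv : ∀ b, (om b).2 = 0 → w b = 0) :
    |∑ e, l e / (om e).2 * ∑ b, (∑ a, z a * cH om c a b e) * w b| ≤
      y * (y * (y * (y * y) * τ * W)) := by
  have p : 0 ≤ y := zero_le_one.trans hy
  have e1 : ∑ e, l e / (om e).2 * ∑ b, (∑ a, z a * cH om c a b e) * w b =
      ∑ b, ∑ a, (∑ e, cH om c a b e * (l e / (om e).2)) * z a * w b := by
    simp only [Finset.mul_sum, Finset.sum_mul]
    rw [Finset.sum_comm]
    refine Finset.sum_congr rfl fun b _ => ?_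
    rw [Finset.sum_comm]
    exact Finset.sum_congr rfl fun a _ => Finset.sum_congr rfl fun e _ => by ring
  rw [e1]
  refine bd hn (by positivity) fun b => bd hn (by positivity) fun a => ?_
  by_cases u : ∑ e, cH om c a b e * (l e / (om e).2) = 0
  · rw [u, zero_mul, zero_mul, abs_zero]; positivity
  obtain ⟨e, -, he⟩ := Finset.exists_ne_zero_of_sum_ne_zero u
  have x : Ex om μ e := by_contra fun x => he (by rw [h0 e x, zero_div, mul_zero])
  rcases hT.ex_hm hA (cH_hm (left_ne_zero_of_mul he)) x with v | v | ⟨v, v'⟩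
  · rw [abs_mul, abs_mul]
    refine mul_le_mul (mul_le_mul (bd hn (by positivity) fun e => ?_) (hp a v) (abs_nonneg _)
      (by positivity)) (hw b) (abs_nonneg _) (by positivity)
    rw [abs_mul]
    refine mul_le_mul (cH_le hc a b e) ?_ (abs_nonneg _) p
    by_cases x : Ex om μ e
    · rw [abs_div, abs_of_pos x.1.2]
      exact (div_le_div_of_nonneg_right (hl e) x.1.2.le).trans (hi e x)
    · rw [h0 e x, zero_div, abs_zero]; exact p
  · rw [hv b v.2, mul_zero, abs_zero]; positivity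
  · have q : 0 < (om a).2 + (om b).2 := add_pos v.1.2 v'.1.2
    have e2 : ∑ e, cH om c a b e * (l e / (om e).2) =
        (∑ e, cH om c a b e * l e) * (1 / ((om a).2 + (om b).2)) := by
      rw [Finset.sum_mul]
      refine Finset.sum_congr rfl fun e _ => ?_
      by_cases u : cH om c a b e = 0
      · rw [u, zero_mul, zero_mul, zero_mul]
      · rw [(cH_hm u).2.2, Prod.snd_add]; ring
    rw [e2, abs_mul, abs_mul, abs_mul, abs_of_pos (one_div_pos.2 q)]
    refine mul_le_mul ((mul_le_of_le_one_right (by positivity) (hz a)).trans ?_) (hw b)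
      (abs_nonneg _) (by positivity)
    rw [mul_comm _ τ]
    refine mul_le_mul (hk a b v v') ?_ (by positivity) hτ
    refine ((one_div_le_one_div_of_le v.1.2 (by linarith [v'.1.2])).trans (hi a v)).trans ?_
    exact le_mul_of_one_le_right p (one_le_mul_of_one_le_of_one_le hy hy)

end GOa3A

open GOa3A in
theorem goUx : OUx := by
  classical
  intro κ _ om μ t N hw hT hN
  have hA : Ab om (fun _ => False) fun _ _ _ => True :=
    ⟨hw, fun _ x => x.elim, fun _ _ _ _ _ => trivial, fun _ _ _ _ _ _ => trivial⟩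
  obtain ⟨U, U1, hU⟩ := exists_ub fun a => |(om a).2| + 1 / (om a).2
  refine ⟨U + Fintype.card κ + (3 * N + 7), by omega, ?_⟩
  intro c z l L τ hL hτ hc hz hp hl h0 hk
  obtain ⟨K, hK⟩ : ∃ K : ℕ, K = U + Fintype.card κ + (3 * N + 7) := ⟨_, rfl⟩
  rw [← hK]
  have k1 : (1 : ℝ) ≤ K := by exact_mod_cast (by omega : 1 ≤ K)
  have k2 : (K : ℝ) ≤ K * L := le_mul_of_one_le_right (by positivity) hL
  have k3 : ∀ m : ℕ, m ≤ K → (m : ℝ) ≤ K * L := fun m x => (Nat.cast_le.2 x).trans k2
  have hc' : ∀ a b e, |c a b e| ≤ K * L := fun a b e =>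
    (hc a b e).trans (le_mul_of_one_le_left (by positivity) k1)
  have hU' : ∀ a, |(om a).2| + 1 / (om a).2 ≤ K * L := fun a => (hU a).trans (k3 U (by omega))
  have hn := k3 (Fintype.card κ) (by omega)
  have hm := k3 N (by omega)
  have hy := k1.trans k2
  generalize (K : ℝ) * L = y at hc' hU' hn hm hy ⊢
  have p : 0 ≤ y := zero_le_one.trans hy
  have ho : ∀ a, |(om a).2| ≤ y := fun a => by linarith [hU' a, one_div_nonneg.2 (hw a).2]
  have hi : ∀ a, Ex om μ a → 1 / (om a).2 ≤ y := fun a _ => by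
    linarith [hU' a, abs_nonneg (om a).2]
  have x0 := pw (Rm om c) z (hN c) (N + 1 + 1) [] (by omega)
  rw [List.map_nil, List.prod_nil, mul_one] at x0
  have e1 : ∀ e, Uv om c z e =
      ∑ i ∈ Finset.range (N + 1 + 1), ((i.factorial : ℝ))⁻¹ * vv om c z i e := fun e => by
    unfold Uv Em vv
    rw [IsNilpotent.exp_eq_sum x0, Matrix.sum_apply]
    refine Finset.sum_congr rfl fun i _ => ?_
    rw [Matrix.smul_apply, Rat.smul_def]; push_cast; rfl
  have e2 : ∑ a, l a / (om a).2 * Uv om c z a - ∑ a, l a * z a = ∑ i ∈ Finset.range N,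
      (((i + 1 + 1).factorial : ℝ))⁻¹ * ∑ e, l e / (om e).2 * vv om c z (i + 2) e := by
    simp only [e1, Finset.sum_range_succ', v0, zero_add, v1, mul_add, Finset.sum_add_distrib,
      Finset.mul_sum]
    have : ∀ a, l a / (om a).2 * (z a * (om a).2) = l a * z a := fun a => by
      by_cases x : Ex om μ a
      · have := x.1.2.ne'; field_simp
      · rw [h0 a x, zero_div, zero_mul, zero_mul]
    simp only [Nat.factorial_one, Nat.cast_one, inv_one, one_mul, mul_zero, this,
      Finset.sum_const_zero, add_zero, add_sub_cancel_right]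
    rw [Finset.sum_comm]
    exact Finset.sum_congr rfl fun i _ => Finset.sum_congr rfl fun e _ => by ring
  rw [e2]
  refine (Finset.abs_sum_le_sum_abs _ _).trans ((Finset.sum_le_sum (g := fun _ =>
    y ^ (3 * N + 6) * τ) fun i x => ?_).trans ?_)
  · have := key hA hT hn hy hτ hc' hz hp hl h0 hi hk (pow_nonneg p _) (v_le hn hy hc' hz ho i)
      (v_z hA i)
    simp only [← vs] at this
    rw [abs_mul, abs_inv, Nat.abs_cast]
    refine (mul_le_of_le_one_left (abs_nonneg _) (inv_le_one_of_one_le₀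
      (by exact_mod_cast Nat.factorial_pos _))).trans (this.trans ?_)
    rw [show y * (y * (y * (y * y) * τ * y ^ (3 * i + 1))) = y ^ (3 * i + 6) * τ by ring]
    have := Finset.mem_range.1 x
    exact mul_le_mul_of_nonneg_right (pow_le_pow_right₀ hy (by omega)) hτ
  · rw [Finset.sum_const, nsmul_eq_mul, Finset.card_range, ← mul_assoc]
    refine mul_le_mul_of_nonneg_right ((mul_le_mul_of_nonneg_right hm (by positivity)).trans ?_) hτ
    rw [← pow_succ']
    exact pow_le_pow_right₀ hy (by omega)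

end Pool.Agent.MP_5168f5_an.AN.GO
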