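import Pool.Agent.MP_5168f5_an.AN.TGSpec
import Pool.Agent.MP_5168f5_an.AN.GAAll
import Pool.Agent.MP_5168f5_an.R4.Api

/-! Side data that are independent of the cells can be added to the context. -/

namespace Pool.Agent.MP_5168f5_an.AN.TG

open H19 H17S H17F G39 GA Filter H61Z

namespace TGSideA

section Fin

variable {Ω α α' β β' γ δ : Type} {P : FP Ω}

theorem shift (b : Ω → β) (Y : Ω → γ) (A : Ω → α) (A' : Ω → α') (Θ : Ω → δ) :
    mi P b Y (fun ω => (A ω, Θ ω)) ≤ mi P b Y (fun ω => (A' ω, Θ ω)) + ch P A' A + ch P A Y := by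
  have h1 := ch_tri' (P := P) b (fun ω => (A ω, Θ ω)) fun ω => (A' ω, Θ ω)
  have h2 : ch P (fun ω => (A' ω, Θ ω)) (fun ω => (A ω, Θ ω)) ≤ ch P A' A :=
    ch_le ((Fn.fst _ _).pair ((Fn.snd _ _).right _)) (Fn.fst _ _)
  have h3 := ch_tri' (P := P) b (fun ω => (Y ω, A' ω, Θ ω)) fun ω => (Y ω, A ω, Θ ω)
  have h4 : ch P (fun ω => (Y ω, A ω, Θ ω)) (fun ω => (Y ω, A' ω, Θ ω)) ≤ ch P A Y :=
    ch_le (((Fn.fst _ _).right _).pair ((Fn.fst _ _).pair (((Fn.snd _ _).right _).right _)))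
      (Fn.fst _ _)
  unfold mi
  linarith

theorem drop (b : Ω → β) (Y : Ω → γ) (F : Ω → α') (A : Ω → α) (Θ : Ω → δ) :
    ch P F (fun ω => (A ω, Θ ω)) ≤ ch P F (fun ω => (A ω, b ω, Θ ω)) +
      mi P b Y (fun ω => (A ω, Θ ω)) + ch P F Y := by
  have h1 := mi_near (P := P) b F Y fun ω => (A ω, Θ ω)
  have h2 : ch P F (fun ω => (Y ω, A ω, Θ ω)) ≤ ch P F Y := ch_anti (Fn.fst _ _)
  have h3 : ch P F (fun ω => (b ω, A ω, Θ ω)) ≤ ch P F fun ω => (A ω, b ω, Θ ω) :=
    ch_anti (((Fn.fst _ _).right _).pair ((Fn.fst _ _).pair ((Fn.snd _ _).right _)))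
  rw [mi_symm, mi.eq_1] at h1
  linarith

theorem two (b : Ω → β) (b' : Ω → β') {Y : Ω → γ} {j : Ω → α'} (A : Ω → α) (Θ : Ω → δ)
    (h : Fn P Y j) : mi P b' Y (fun ω => (A ω, Θ ω)) ≤
      mi P b Y (fun ω => (A ω, Θ ω)) + mi P b' j fun ω => (A ω, b ω, Θ ω) := by
  have h1 : mi P Y b' (fun ω => (A ω, Θ ω)) ≤ mi P Y (fun ω => (b ω, b' ω)) fun ω => (A ω, Θ ω) :=
    mi_mono ((Fn.snd _ _).left _)
  have h2 : mi P b' Y (fun ω => (b ω, A ω, Θ ω)) ≤ mi P b' j fun ω => (A ω, b ω, Θ ω) :=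
    mi_right (((Fn.fst _ _).right _).pair ((Fn.fst _ _).pair ((Fn.snd _ _).right _)))
      ((((Fn.fst _ _).right _).pair ((Fn.fst _ _).pair ((Fn.snd _ _).right _))).right _) (h.left _)
  rw [mi_chain, mi_symm Y, mi_symm Y, mi_symm Y] at h1
  linarith

end Fin

variable {ι κ : Type} [Fintype ι] [DecidableEq ι] [Fintype κ] {Φ : Filt (Mt ι)}
  {om : κ → ℝ × ℝ} {pos : κ → Prop} {x : ℕ → Sy ι κ} {t : ℝ × ℝ} {r s : ℝ}

omit [Fintype κ] in
theorem sc_dep (m : ℕ) (t : ℝ × ℝ) : sc m (dep om t) = dep om (t.1 * m, t.2 * m) :=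
  funext fun a => by simp only [sc, dep]; ring

omit [Fintype κ] in
theorem sc_up (m : ℕ) (d : κ → ℝ) (r : ℝ) (S : κ → Prop) :
    sc m (up d r S) = up (sc m d) (r * m) S := funext fun a => by
  simp only [sc, up]
  split_ifs <;> ring

omit [Fintype κ] in
theorem live {k : Bool} {a : κ} (h : Pu om k a) : om a ≠ 0 := fun e => by
  cases k
  · exact (show P2 om a from h).2.ne' (by rw [e]; rfl)
  · exact (show P1 om a from h).1.ne' (by rw [e]; rfl)

theorem big (hw : ∀ a, 0 ≤ (om a).1 ∧ 0 ≤ (om a).2) (t : ℝ × ℝ) (r : ℝ) :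
    ∃ s, 0 ≤ s ∧ ∀ a, up (dep om t) r (fun a => om a ≠ 0) a ≤ dep om (s, s) a := by
  refine ((eventually_ge_atTop 0).and (eventually_all.2 fun a => ?_)).exists
  by_cases c : om a = 0
  · exact Eventually.of_forall fun s => by simp [up, dep, c]
  · have p : 0 < (om a).1 + (om a).2 := by
      by_contra k
      exact c (Prod.ext (by simp only [Prod.fst_zero]; linarith [hw a])
        (by simp only [Prod.snd_zero]; linarith [hw a]))
    filter_upwards [eventually_ge_atTop ((dep om t a + r) / ((om a).1 + (om a).2))] with s e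
    rw [div_le_iff₀ p] at e
    rw [up, if_pos c]
    exact e.trans_eq (by simp only [dep]; ring)

omit [Fintype ι] [DecidableEq ι] [Fintype κ] in
theorem lv (h1 : 0 ≤ t.1) (h2 : 0 ≤ t.2) : Lv x fun n => (t.1 * (x n).M, t.2 * (x n).M) :=
  ⟨t.1 + t.2, Eventually.of_forall fun n => by
    have : (0 : ℝ) ≤ (x n).M := Nat.cast_nonneg _
    exact ⟨by positivity, by nlinarith, by positivity, by nlinarith⟩⟩

omit [Fintype ι] [DecidableEq ι] [Fintype κ] in
theorem led {d d' : κ → ℝ} (h : ∀ a, d a ≤ d' a) :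
    LeD x (fun n => sc (x n).M d) fun n => sc (x n).M d' := fun a =>
  Le.of_le fun _ => mul_le_mul_of_nonneg_right (h a) (Nat.cast_nonneg _)

theorem gd (hG : SGd) (h : G0 Φ om pos x) (h1 : 0 ≤ t.1) (h2 : 0 ≤ t.2) (hr : 0 ≤ r) :
    Gd x (fun n => sc (x n).M (dep om t)) ∧
      ∀ k, Gd x fun n => sc (x n).M (up (dep om t) r fun a => pos a ∧ Pu om k a) := by
  simp only [sc_up, sc_dep]
  have := (hG _ _ Φ om pos x h).2 _ (fun n => r * (x n).M) (lv h1 h2)
    ⟨r, Eventually.of_forall fun n => ⟨by positivity, le_rfl⟩⟩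
  exact ⟨this.1, this.2.2⟩

theorem info (hG : SGd) (hR : SRef) (h : G0 Φ om pos x) (h1 : 0 ≤ t.1) (h2 : 0 ≤ t.2)
    (e : ∀ a, dep om t a ≤ dep om (s, s) a) {K : ℕ → Type} {b : ∀ n, (x n).Ω → K n}
    (hb : Sm (un x) fun n => mi (x n).P (b n) ((x n).C (sc (x n).M (dep om (s, s))))
      ((x n).Z (sc (x n).M 0))) :
    Sm (un x) fun n => mi (x n).P (b n) ((x n).C (sc (x n).M (dep om (s, s))))
      ((x n).Z (sc (x n).M (dep om t))) := by
  have g0 := (gd (t := (0, 0)) hG h le_rfl le_rfl le_rfl).1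
  rw [show dep om (0, 0) = 0 from funext fun a => by simp [dep]] at g0
  have r1 := hR _ _ Φ om pos x h _ _ g0 (led (d' := dep om t) fun a =>
    add_nonneg (mul_nonneg (h.alg.wt a).1 h1) (mul_nonneg (h.alg.wt a).2 h2))
  have r2 := hR _ _ Φ om pos x h _ _ (gd hG h h1 h2 le_rfl).1 (led e)
  exact ((hb.add r1).add r2).mono (Eventually.of_forall fun n => shift _ _ _ _ _)

omit [Fintype κ] in
theorem le_up {d : κ → ℝ} {S S' : κ → Prop} (hr : 0 ≤ r) (h : ∀ a, S a → S' a) (a : κ) :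
    d a ≤ up d r S a ∧ up d r S a ≤ up d r S' a := by
  have := h a
  simp only [up]
  split_ifs <;> first | tauto | constructor <;> linarith

end TGSideA

open TGSideA in
theorem tgSide : OfSide := by
  intro hG hR hS hSR hT ι κ _ _ _ Φ om pos x C h K b hb
  have g : G0 Φ om pos fun n => (x n).side (b n) := ⟨h.alg, h.unit⟩
  have C0 : 0 ≤ C := zero_le_one.trans h.one
  refine ⟨g, h.one, fun k t r h1 h2 hr => ?_, fun k t η ρ h1 h2 => hT _ _ Φ om pos _ g _ _ C C0
    (fun W β Q π b' p l c0 η ρ hη hρ hB hl hI => ?_) η ρ⟩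
  · obtain ⟨s, s0, e⟩ := big h.alg.wt t r
    have u := le_up (d := dep om t) (S := fun a => pos a ∧ Pu om k a) hr fun a c => live c.2
    have i1 := info hG hR h.toG0 h1 h2 (fun a => (u a).1.trans ((u a).2.trans (e a))) (hb s s0)
    have i2 := hR _ _ Φ om pos x h.toG0 _ _ ((gd hG h.toG0 h1 h2 hr).2 k)
      (led fun a => (u a).2.trans (e a))
    refine Le.of3 (h.f k t r h1 h2 hr) i1 i2 (Eventually.of_forall fun n => ?_)
    have : (x n).H (sc (x n).M (dep om t)) _ ≤ ((x n).side (b n)).H (sc (x n).M (dep om t))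
      (sc (x n).M (up (dep om t) r fun a => pos a ∧ Pu om k a)) + mi (x n).P (b n)
        ((x n).C (sc (x n).M (dep om (s, s)))) ((x n).Z (sc (x n).M (dep om t))) + _ :=
      drop _ _ _ _ _
    linarith
  · obtain ⟨s, s0, e⟩ := big h.alg.wt t (η + 1)
    have u := le_up (d := dep om t) (r := η + 1) (S := fun a => om a ≠ 0) (by linarith)
      fun a c => c
    have i1 := info hG hR h.toG0 h1 h2 (fun a => (u a).1.trans (e a)) (hb s s0)
    have sb := hS _ _ Φ om pos x C h k _ (lv h1 h2)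
    simp only [← sc_dep] at sb
    refine hSR _ _ Φ om pos x h.toG0 _ (fun n => sc (x n).M (dep om (s, s))) _ C (η + 1) C0
      (fun a => live) (gd hG h.toG0 h1 h2 le_rfl).1 (gd (t := (s, s)) hG h.toG0 s0 s0 le_rfl).1
      ⟨∑ a, |dep om t a|, Eventually.of_forall fun n a => ?_⟩
      (Eventually.of_forall fun n a => ?_) sb W β Q π b' p l c0 η ρ hη (lt_add_one η) hρ
      ⟨hB.law, hB.near⟩ hl (Le.of2 i1 hI (hB.law.mono fun n a => ?_))
    · rw [sc, abs_mul, Nat.abs_cast]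
      exact mul_le_mul_of_nonneg_right (Finset.single_le_sum (f := fun a => |dep om t a|)
        (fun _ _ => abs_nonneg _) (Finset.mem_univ a)) (Nat.cast_nonneg _)
    · rw [← sc_up]
      exact mul_le_mul_of_nonneg_right (e a) (Nat.cast_nonneg _)
    · have e1 := a.mi_id (b n) ((x n).C (sc (x n).M (dep om (s, s))))
        ((x n).Z (sc (x n).M (dep om t)))
      have e2 : mi (Q n) (b' n) (fun v => (x n).C (sc (x n).M (dep om (s, s))) (π n v))
          (fun v => (x n).Z (sc (x n).M (dep om t)) (π n v)) ≤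
          mi (Q n) (fun v => b n (π n v)) (fun v => (x n).C (sc (x n).M (dep om (s, s))) (π n v))
            (fun v => (x n).Z (sc (x n).M (dep om t)) (π n v)) +
          mi (Q n) (b' n) (fun v => (x n).j (π n v)) fun v =>
            ((x n).side (b n)).Z (sc (x n).M (dep om t)) (π n v) :=
        two _ _ _ _ (Fn.comp (cell (x n).B _) _)
      linarith

end Pool.Agent.MP_5168f5_an.AN.TG
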