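import Pool.Agent.MP_5168f5_an.AN.GOSpec2
import Pool.Agent.MP_5168f5_an.AN.TGSide

/-! The small ball bound when the unit coefficient is pure. -/

namespace Pool.Agent.MP_5168f5_an.AN.GO

open H19 H17S H17F G39 GA Filter H61Z TG

namespace GOa4A

variable {ι κ : Type} {M : ℕ → ℕ} {c : ℕ → κ → κ → κ → ℝ}

theorem neg_sC {a b e : κ} (h : Neg M fun n => c n a b e) (d : κ → ℝ) :
    Neg M fun n => sC (rA (sc (M n) d)) (c n) a b e :=
  (h.mul_exp (C := d e - d a - d b) (v := fun n => Real.exp ((d e - d a - d b) * M n))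
    (.of_forall fun n => (abs_of_pos (Real.exp_pos _)).le)).congr (.of_forall fun n => by
      simp only [sC, rA, TG.sc]
      rw [mul_assoc, mul_div_assoc, ← Real.exp_add, ← Real.exp_sub]
      congr 2
      ring)

theorem gap {L : ℕ → ℝ} (h : Sub M L) {η η' : ℝ} (e : η' < η) :
    ∀ᶠ n in UF, L n * Real.exp (-(η * M n)) ≤ Real.exp (-(η' * M n)) :=
  (h.2 _ (sub_pos.2 e)).mono fun n a =>
    (mul_le_mul_of_nonneg_right a (Real.exp_pos _).le).trans_eq (by
      rw [← Real.exp_add]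
      congr 1
      ring)

theorem pick (A : ℝ) {η ε : ℝ} (hη : 0 < η) (hε : 0 < ε) :
    ∃ t, 0 < t ∧ t < η ∧ A / t ≤ A / η + ε := by
  have h : ContinuousAt (fun t => A / t) η := continuousAt_const.div continuousAt_id hη.ne'
  have h1 : ∀ᶠ t in nhdsWithin η (Set.Iio η), 0 < t := nhdsWithin_le_nhds (lt_mem_nhds hη)
  have h2 : ∀ᶠ t in nhdsWithin η (Set.Iio η), A / t ≤ A / η + ε :=
    nhdsWithin_le_nhds (h.eventually (ge_mem_nhds (lt_add_of_pos_right _ hε)))
  exact (h1.and (Eventually.and self_mem_nhdsWithin h2)).exists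

theorem abs_ind (S : κ → Prop) (a : κ) : |ind S 1 a| ≤ 1 :=
  (abs_of_nonneg (ind_nn zero_le_one a)).trans_le (ind_le zero_le_one a)

variable [Fintype ι] [DecidableEq ι] [Fintype κ] {Φ : Filt (Mt ι)} {om : κ → ℝ × ℝ}
  {pos : κ → Prop} {B : ℕ → κ → Mt ι}

theorem ab (h : Alg M Φ om pos B c) : Ab om pos (Ng M c) := ⟨h.wt, h.live, h.hom, h.sub⟩

theorem kill (h : Alg M Φ om pos B c) {d d' : κ → ℝ} {S : κ → Prop} (hS : ∀ a, S a → om a ≠ 0)
    (e : ∀ a, P1 om a → d' a = d a) (η : ℝ) : ∀ᶠ n in UF, ∀ l : κ → ℝ, (∀ a, ¬S a → l a = 0) →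
    (∀ a, |l a| ≤ 1) →
    (∀ a b, |∑ e, sC (rA (sc (M n) d)) (c n) a b e * l e| ≤ Real.exp (-(η * M n))) →
    ∀ a b, |∑ e, sC (rA (sc (M n) d')) (c n) a b e * (ind (P1 om) 1 e * l e)| ≤
      2 * Real.exp (-(η * M n)) := by
  have k : ∀ a b f, Neg M fun n => |(sC (rA (sc (M n) d')) (c n) a b f * ind (P1 om) 1 f -
      sC (rA (sc (M n) d)) (c n) a b f * (ind (P1 om) 1 a * ind (P1 om) 1 b)) * ind S 1 f| := by
    intro a b f
    by_cases s : S f
    · by_cases m : Hm om a b f
      · refine neg_ev (.of_forall fun n => ?_)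
        by_cases p : P1 om f
        · obtain ⟨pa, pb⟩ := (ab h).hm_p1 m p
          simp [ind_pos p, ind_pos pa, ind_pos pb, sC, rA, TG.sc, e _ p, e _ pa, e _ pb]
        · by_cases pa : P1 om a
          · have pb : ¬P1 om b := fun pb => p ⟨by
              rw [m.2.2]
              exact add_pos pa.1 pb.1, by rw [m.2.2, Prod.snd_add, pa.2, pb.2, add_zero]⟩
            simp [ind_neg p, ind_neg pb]
          · simp [ind_neg p, ind_neg pa]
      · have z := h.hom a b f (hS f s) m
        exact ((((neg_sC z d').mul (ob_const h.big _)).sub h.big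
          ((neg_sC z d).mul (ob_const h.big _))).mul (ob_const h.big _)).mono
          (.of_forall fun n => (abs_abs _).le)
    · exact neg_ev (.of_forall fun n => by simp [ind_neg s])
  filter_upwards [eventually_all.2 fun a => eventually_all.2 fun b =>
    Neg.sum h.big Finset.univ (fun f _ => k a b f) η] with n u l l0 l1 hl a b
  have q : ∀ f, ind S 1 f * l f = l f := fun f => by
    by_cases s : S f
    · rw [ind_pos s, one_mul]
    · rw [l0 f s, mul_zero]
  have v : ∑ e, sC (rA (sc (M n) d')) (c n) a b e * (ind (P1 om) 1 e * l e) =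
      ∑ f, (sC (rA (sc (M n) d')) (c n) a b f * ind (P1 om) 1 f - sC (rA (sc (M n) d)) (c n) a b f *
        (ind (P1 om) 1 a * ind (P1 om) 1 b)) * ind S 1 f * l f + ind (P1 om) 1 a *
        (ind (P1 om) 1 b * ∑ e, sC (rA (sc (M n) d)) (c n) a b e * l e) := by
    rw [Finset.mul_sum, Finset.mul_sum, ← Finset.sum_add_distrib]
    exact Finset.sum_congr rfl fun f _ => by rw [mul_assoc _ _ (l f), q]; ring
  rw [v, two_mul]
  refine (abs_add_le _ _).trans (add_le_add ((Finset.abs_sum_le_sum_abs _ _).trans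
    ((Finset.sum_le_sum fun f _ => ?_).trans ((le_abs_self _).trans (u a b)))) ?_)
  · rw [abs_mul]
    exact mul_le_of_le_one_right (abs_nonneg _) (l1 f)
  · rw [abs_mul, abs_mul]
    exact (mul_le_of_le_one_left (by positivity) (abs_ind _ a)).trans
      ((mul_le_of_le_one_left (abs_nonneg _) (abs_ind _ b)).trans (hl a b))

end GOa4A

open GOa4A TGSideA in
theorem goCA : OfCA := by
  intro hG hR hS hC ι κ _ _ _ Φ om pos x C d S y h sl y1 y2 gd le eq W β Q π b p l c0 η ρ hη hρ
    hB hl hI ε hε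
  have A := ab h.alg
  have hM := h.alg.big
  obtain ⟨η', p1, p2, p3⟩ := pick (C * ρ) hη (show 0 < ε / 3 by positivity)
  obtain ⟨m, m0, hm⟩ := exists_lb (fun a => 0 < (om a).2) (fun a => (om a).2) fun _ => id
  have y3 : y.2 ≤ y.2 + η / m := le_add_of_nonneg_right (by positivity)
  have le' : d ≤ dep om (y.1, y.2 + η / m) := le.trans (A.dep_le le_rfl y3)
  have eq' : ∀ a, P1 om a → dep om (y.1, y.2 + η / m) a = d a := fun a u => by
    simp only [eq a u, dep, u.2, zero_mul]
  obtain ⟨L, hL, nr⟩ := hB.near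
  obtain ⟨L', hL', cut⟩ := hC _ _ Φ om pos x h.toG0 d _ (P1 om) S η L gd
    (A.gd_dep (x := (y.1, y.2 + η / m)) y1 (y2.trans y3)) le' eq' (fun a s => by
      rcases (A.wt a).2.eq_or_lt with z | z
      · exact .inl ⟨by linarith [A.abs_pos (sl a s)], z.symm⟩
      · have := mul_le_mul_of_nonneg_right (hm a z) (show 0 ≤ η / m by positivity)
        rw [mul_div_cancel₀ _ m0.ne'] at this
        have := le a
        simp only [dep] at this ⊢
        exact .inr (by linarith)) hL
  have cut' := (cut.and (hl.and (hB.law.and h.unit))).mono fun n a v (hv : v ∈ (Q n).S)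
    (k : Nr (x n).B (rA (sc (x n).M d)) (L n) (p n (b n v)) ((x n).j (π n v))) =>
    a.1 _ _ _ _ (a.2.2.2 _ (a.2.2.1.mem hv)) (Real.exp_pos _).le k (a.2.1 v hv).1.sup
      (a.2.1 v hv).1.le (a.2.1 v hv).1.kill
  have sb := hS _ _ Φ om pos x C h true _ (lv (t := (y.1, y.2 + η / m)) y1 (y2.trans y3))
  simp only [← sc_dep (t := (y.1, y.2 + η / m))] at sb
  have := sb W (fun n => β n × Mt ι) Q π
    (fun n v => (b n v, (x n).C (sc (x n).M (dep om (y.1, y.2 + η / m))) (π n v)))
    (fun n u => u.2) (fun n u a => ind (P1 om) 1 a * l n u.1 a) (fun n u => c0 n u.1 -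
      ∑ a, l n u.1 a * (lg (x n).B (p n u.1) u.2 a / rA (sc (x n).M d) a)) η' ρ p1 hρ
    ⟨hB.law, _, hM.sub le_rfl, nr.mono (cut'.mono fun n a v hv k => (a v hv k).1)⟩ ?_
    (Le.of2 hI (hR _ _ Φ om pos x h.toG0 _ _ ((hG _ _ Φ om pos x h.toG0).1 d gd.id) (led le'))
      (hB.law.mono fun n a => ?_)) (ε / 3) (by positivity)
  · filter_upwards [this, nr (ε / 3) (by positivity), cut',
      gap ((hL'.const_mul hM one_le_two).add (hM.sub le_rfl) hM) p2] with n a1 a2 a3 a4
    refine le_trans ((pb_mono fun v hv k => ?_).trans ((pb_or _ _ _).trans (add_le_add a1 a2)))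
      (by linarith)
    refine or_not.imp_left fun w => ?_
    have u := abs_le.1 (a3 v hv w).2.2
    have k' := abs_le.1 k
    simp only [Sy.co, Sy.C] at k' ⊢
    exact abs_le.2 ⟨by linarith, by linarith⟩
  · filter_upwards [hl, kill h.alg sl eq' η, gap (hM.sub one_le_two) p2] with n a1 a2 a3 v hv
    obtain ⟨t, a, pa, e⟩ := a1 v hv
    refine ⟨fun a u => by rw [ind_neg (S := P1 om) u, zero_mul], fun a => ?_,
      ⟨a, by rw [ind_pos pa, one_mul, e]⟩, fun a b => (a2 _ t.sup t.le t.kill a b).trans a3⟩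
    rw [abs_mul]
    exact mul_le_one₀ (abs_ind _ a) (abs_nonneg _) (t.le a)
  · set D := sc (x n).M (dep om (y.1, y.2 + η / m))
    have e1 := a.ch_id ((x n).C (sc (x n).M d)) ((x n).C D)
    have e2 : mi (Q n) (b n) (fun v => (x n).j (π n v)) (fun v => (x n).Z D (π n v)) ≤
        mi (Q n) (b n) (fun v => (x n).j (π n v)) (fun v => (x n).Z (sc (x n).M d) (π n v)) + _ +
          _ := shift _ _ _ _ _
    have e3 : ch (Q n) (fun v => (x n).C D (π n v)) (fun v => (x n).j (π n v)) = 0 :=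
      ch_zero (Fn.comp (cell (x n).B _) _)
    have e4 : mi (Q n) (fun v => (b n v, (x n).C D (π n v))) (fun v => (x n).j (π n v))
        (fun v => (x n).Z D (π n v)) ≤
        mi (Q n) (b n) (fun v => (x n).j (π n v)) fun v => (x n).Z D (π n v) :=
      mi_mono' fun u _ v _ w => Prod.ext (congrArg (·.1) w) (congrArg (·.2.1) w)
    linarith

end Pool.Agent.MP_5168f5_an.AN.GO
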