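import Pool.Agent.MP_5168f5_an.AN.GOSpec2

/-! Kakeya sets in all dimensions: the small ball bound when the unit coefficient is extreme. -/

namespace Pool.Agent.MP_5168f5_an.AN.GO

open H19 H17S H17F G39 GA Filter H61Z TG

namespace GOa5A

theorem info {Ω α β γ δ : Type} {P : FP Ω} (b : Ω → β) (j : Ω → α) (Θ : Ω → δ)
    {Y1 Y0 Yd YD : Ω → γ} (h1 : Fn P Y1 j) (h0 : Fn P Y0 j) (hD : Fn P YD j) :
    mi P (fun ω => (b ω, Y1 ω)) YD (fun ω => (Y0 ω, Θ ω)) ≤ mi P Y1 YD (fun ω => (Y0 ω, Θ ω)) +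
      mi P b j (fun ω => (Yd ω, Θ ω)) + ch P Yd Y1 := by
  have a1 : mi P (fun ω => (b ω, Y1 ω)) YD (fun ω => (Y0 ω, Θ ω)) ≤
      mi P (fun ω => (Y1 ω, b ω)) YD fun ω => (Y0 ω, Θ ω) :=
    mi_mono' (((Fn.snd _ _).pair (Fn.fst _ _)).left _)
  have a2 : mi P b YD (fun ω => (Y1 ω, Y0 ω, Θ ω)) ≤ mi P b j fun ω => (Y1 ω, Y0 ω, Θ ω) :=
    mi_mono (hD.left _)
  have a3 : ch P b (fun ω => (j ω, Yd ω, Θ ω)) ≤ ch P b fun ω => (j ω, Y1 ω, Y0 ω, Θ ω) :=
    ch_anti ((Fn.fst _ _).pair ((h1.left _).pair ((h0.left _).pair ((Fn.snd _ _).right _))))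
  have a4 := ch_tri' (P := P) b (fun ω => (Y1 ω, Y0 ω, Θ ω)) fun ω => (Yd ω, Θ ω)
  have a5 : ch P (fun ω => (Yd ω, Θ ω)) (fun ω => (Y1 ω, Y0 ω, Θ ω)) ≤ ch P Yd Y1 :=
    ch_le ((Fn.fst _ _).pair ((((Fn.snd _ _).right _)).right _)) (Fn.fst _ _)
  rw [mi_symm (fun ω => (Y1 ω, b ω)), mi_chain, mi_symm YD, mi_symm YD] at a1
  rw [mi.eq_1 P b j] at a2 ⊢
  linarith

variable {κ : Type} {om : κ → ℝ × ℝ} {μ X τ : ℝ} {d d' l w : κ → ℝ} {c : κ → κ → κ → ℝ} {m : ℕ}

theorem sC_eq (a b e : κ) :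
    sC (rA (sc m d)) c a b e = c a b e * Real.exp ((d e - d a - d b) * m) := by
  unfold sC rA TG.sc
  rw [mul_assoc, mul_div_assoc, ← Real.exp_add, ← Real.exp_sub]
  congr 2; ring

theorem rat {s : ℝ} {a : κ} (h : d a + s ≤ d' a) (hw : |w a| ≤ rA (sc m d') a) :
    |w a / rA (sc m d) a| ≤ Real.exp (-(s * m)) := by
  have h0 : 0 < rA (sc m d) a := Real.exp_pos _
  rw [abs_div, abs_of_pos h0, div_le_iff₀ h0]
  refine hw.trans ?_
  unfold rA TG.sc
  rw [← Real.exp_add, Real.exp_le_exp]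
  linarith [mul_le_mul_of_nonneg_right h (Nat.cast_nonneg (α := ℝ) m)]

variable [Fintype κ]

theorem kill (hd : ∀ a, Ex om μ a → d a = (om a).2 * X) (hl : ∀ a, |l a| ≤ 1)
    (h0 : ∀ a, om a = 0 → l a = 0) (hτ : 0 ≤ τ)
    (hn : ∀ a b e, om e ≠ 0 → ¬Hm om a b e → |sC (rA (sc m d)) c a b e| ≤ τ)
    (hk : ∀ a b, |∑ e, sC (rA (sc m d)) c a b e * l e| ≤ τ) (a b : κ) (ha : Ex om μ a)
    (hb : Ex om μ b) :
    |∑ e, cH om c a b e * (ind (Ex om μ) 1 e * l e)| ≤ (1 + Fintype.card κ) * τ := by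
  have h1 : ∀ e, |cH om c a b e * (ind (Ex om μ) 1 e * l e) - sC (rA (sc m d)) c a b e * l e| ≤
      τ := fun e => by
    by_cases u : Hm om a b e
    · have u1 := congrArg Prod.fst u.2.2
      have u2 := congrArg Prod.snd u.2.2
      rw [Prod.fst_add] at u1
      rw [Prod.snd_add] at u2
      have he : Ex om μ e := ⟨⟨by linarith [ha.1.1, hb.1.1], by linarith [ha.1.2, hb.1.2]⟩,
        by rw [u1, u2, ha.2, hb.2]; ring⟩
      have : (d e - d a - d b) * m = 0 := by rw [hd e he, hd a ha, hd b hb, u2]; ring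
      rw [cH, if_pos u, ind_pos he, sC_eq, this]
      simpa using hτ
    · rw [cH, if_neg u, zero_mul, zero_sub, abs_neg]
      by_cases z : om e = 0
      · simpa [h0 e z] using hτ
      · rw [abs_mul]
        simpa using mul_le_mul (hn a b e z u) (hl e) (abs_nonneg _) hτ
  have h2 := (Finset.abs_sum_le_sum_abs _ _).trans
    (Finset.sum_le_card_nsmul Finset.univ _ τ fun e _ => h1 e)
  rw [Finset.sum_sub_distrib, nsmul_eq_mul, Finset.card_univ] at h2
  have h3 := abs_le.1 h2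
  have h4 := abs_le.1 (hk a b)
  rw [abs_le]
  constructor <;> linarith [h3.1, h3.2, h4.1, h4.2]

theorem nrm {q : ℝ} {a0 : κ} (hq : 0 < q) (h : q⁻¹ ≤ |w a0|) :
    (∀ a, |w a / ‖w‖| ≤ 1) ∧ (∃ a, |w a / ‖w‖| = 1) ∧ ∀ (U : κ → ℝ) (s δ : ℝ),
      |∑ a, w a * U a - s| ≤ δ → |∑ a, w a / ‖w‖ * U a - s / ‖w‖| ≤ q * δ := by
  have h1 : ∀ a, |w a| ≤ ‖w‖ := fun a => norm_le_pi_norm w a
  have h2 : q⁻¹ ≤ ‖w‖ := h.trans (h1 a0)
  have h3 : 0 < ‖w‖ := (inv_pos.2 hq).trans_le h2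
  refine ⟨fun a => ?_, ?_, fun U s δ k => ?_⟩
  · rw [abs_div, abs_of_pos h3, div_le_one h3]; exact h1 a
  · obtain ⟨a, -, ha⟩ := Finset.exists_max_image Finset.univ (fun a => |w a|)
      ⟨a0, Finset.mem_univ _⟩
    have : ‖w‖ = |w a| := le_antisymm ((pi_norm_le_iff_of_nonneg (abs_nonneg _)).2
      fun i => ha i (Finset.mem_univ _)) (h1 a)
    exact ⟨a, by rw [abs_div, abs_of_pos h3, ← this, div_self h3.ne']⟩
  · simp only [div_mul_eq_mul_div]
    rw [← Finset.sum_div, ← sub_div, abs_div, abs_of_pos h3, div_le_iff₀ h3]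
    have h4 : 0 ≤ δ := (abs_nonneg _).trans k
    have h5 := mul_le_mul_of_nonneg_left h2 (mul_nonneg hq.le h4)
    rw [show q * δ * q⁻¹ = δ by field_simp] at h5
    linarith

theorem eta {A η ε : ℝ} (hA : 0 ≤ A) (hη : 0 < η) (hε : 0 < ε) :
    ∃ η2, 0 < η2 ∧ η2 < η ∧ A / η2 ≤ A / η + ε := by
  have h0 : 0 ≤ A / η := by positivity
  have h1 : 0 < ε / (A / η + 1) := by positivity
  refine ⟨η / (1 + ε / (A / η + 1)), by positivity, div_lt_self hη (by linarith), ?_⟩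
  have h2 : A / η / (A / η + 1) ≤ 1 := div_le_one_of_le₀ (by linarith) (by positivity)
  calc _ = A / η + ε * (A / η / (A / η + 1)) := by field_simp
    _ ≤ _ := add_le_add le_rfl (mul_le_of_le_one_right hε.le h2)

end GOa5A

open GOa5A in
theorem goCB : OfCB := by
  intro hG hR hP hC hU ι κ _ _ _ Φ om pos x C μ X y t d g hT hS C0 X0 y0 gd hle hex hI
    W β Q π b p l c0 η ρ hη hρ hB hl hmi ε hε
  have hM := g.alg.big
  have hA : Ab om pos (Nx x) := ⟨g.alg.wt, g.alg.live, g.alg.hom, g.alg.sub⟩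
  obtain ⟨η2, e0, e1, e2⟩ := eta (mul_nonneg C0 hρ) hη (show 0 < ε / 3 by positivity)
  obtain ⟨m1, m0, hm1⟩ := exists_lb (P1 om) (fun a => (om a).1) fun a h => h.1
  have q0 : 0 ≤ η / m1 := by positivity
  have q1 : ∀ a, P1 om a → th om (y + η / m1) a ≥ th om y a + η := fun a h => by
    have := mul_le_mul_of_nonneg_right (hm1 a h) q0
    rw [mul_div_cancel₀ _ m0.ne'] at this
    rw [th_z h.2, th_z h.2]
    linarith
  obtain ⟨d1, hd1⟩ : ∃ d1, d1 = dep om (0, X) + th om (y + η / m1) := ⟨_, rfl⟩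
  have g1 : Gd om (Nx x) d1 := hd1 ▸ hA.gd_th (x := (0, X)) le_rfl X0 (by linarith)
  have dd1 : d ≤ d1 := fun a => (hle a).trans (by
    rw [hd1]
    refine add_le_add le_rfl ?_
    unfold th
    split_ifs
    exacts [mul_le_mul_of_nonneg_left (by linarith) (hA.wt a).1, le_rfl])
  have d01 : ∀ a, dep om (0, X) a + 0 ≤ d1 a := fun a => by
    rw [hd1]; exact add_le_add le_rfl (hA.th_nn (by linarith) a)
  have d0p : ∀ a, P1 om a → dep om (0, X) a + η ≤ d1 a := fun a h => by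
    rw [hd1]; exact add_le_add le_rfl (by linarith [q1 a h, hA.th_nn y0 a])
  have d0x : ∀ a, Ex om μ a → d1 a = dep om (0, X) a := fun a h => by
    rw [hd1, Pi.add_apply, th_n h.1.2.ne', add_zero]
  obtain ⟨L, hL, hn⟩ := hB.near
  obtain ⟨L', hL', hcut⟩ := hC ι κ Φ om pos x g d d1 (Ex om μ) (fun a => P1 om a ∨ Ex om μ a) η L
    gd g1 dd1 (fun a h => by rw [d0x a h, hex a h]; simp [dep])
    (fun a h => h.symm.imp_right fun k => by
      have := hle a
      rw [hd1]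
      simp only [Pi.add_apply] at this ⊢
      linarith [q1 a k]) hL
  obtain ⟨N, -, hN, -⟩ := hP ι κ Φ om pos x g
  obtain ⟨K, K1, hK⟩ := hU κ om μ t N g.alg.wt hT hN
  obtain ⟨L1, hL1, hc⟩ := ob_bound hM (J := κ × κ × κ)
    (f := fun j n => (x n).c j.1 j.2.1 j.2.2) fun j => g.alg.ob _ _ _
  obtain ⟨m2, m21, hm2⟩ := exists_ub fun a => (om a).2
  have m22 : (1 : ℝ) ≤ m2 := by exact_mod_cast m21
  have hneg : ∀ᶠ n in UF, ∀ a b e, om e ≠ 0 → ¬Hm om a b e →
      |sC (rA (sc (x n).M d)) (x n).c a b e| ≤ Real.exp (-(η * (x n).M)) :=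
    eventually_all.2 fun a => eventually_all.2 fun b => eventually_all.2 fun e => by
      by_cases h : om e ≠ 0 ∧ ¬Hm om a b e
      · filter_upwards [(g.alg.hom a b e h.1 h.2).mul_exp
          (v := fun n => Real.exp ((d e - d a - d b) * (x n).M)) (C := d e - d a - d b)
          (Eventually.of_forall fun n => (abs_of_pos (Real.exp_pos _)).le) η] with n k _ _
        rwa [sC_eq]
      · exact Eventually.of_forall fun n h1 h2 => absurd ⟨h1, h2⟩ h
  obtain ⟨r, hr⟩ : ∃ r : ∀ n, β n → κ → ℝ,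
      r = fun n u a => ind (Ex om μ) 1 a * l n u a / (om a).2 := ⟨_, rfl⟩
  have hq : ∀ᶠ n in UF, ∀ v ∈ (Q n).S, ∃ a, (m2 : ℝ)⁻¹ ≤ |r n (b n v) a| :=
    hl.mono fun n k v hv => by
      obtain ⟨a, h1, h2⟩ := (k v hv).2
      refine ⟨a, ?_⟩
      simp only [hr]
      rw [ind_pos h1, one_mul, abs_div, h2, abs_of_pos h1.1.2, one_div]
      exact inv_anti₀ h1.1.2 (hm2 a)
  have i1 := hI (y + η / m1) (C * η2) (by linarith) (by positivity)
  rw [← hd1] at i1
  have i2 := hR ι κ Φ om pos x g _ (fun n => sc (x n).M d1) ((hG ι κ Φ om pos x g).1 d gd.id)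
    fun a => Le.of_le fun _ => mul_le_mul_of_nonneg_right (dd1 a) (Nat.cast_nonneg _)
  have key := hS W (fun n => β n × Mt ι) Q π
    (fun n v => (b n v, (x n).C (sc (x n).M d1) (π n v))) (fun _ u => u.2)
    (fun n u a => r n u.1 a / ‖r n u.1‖) (fun n u => (c0 n u.1 - ∑ a, l n u.1 a *
      (lg (x n).B (p n u.1) u.2 a / rA (sc (x n).M d) a)) / ‖r n u.1‖) η2 ρ (C * η2) e0 hρ le_rfl
    ⟨hB.law, fun _ => 1, hM.sub le_rfl, hn.mono (by
      filter_upwards [hcut, hB.law, g.unit] with n a1 a2 a3 v hv k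
      obtain ⟨s, hs, e⟩ := (a1 _ _ 0 0 (a3 _ (a2.mem hv)) le_rfl k (by simp) (by simp) (by simp)).1
      refine ⟨s, fun a => (hs a).trans (mul_le_mul_of_nonneg_left (Real.exp_le_exp.2
        (neg_le_neg (mul_le_mul_of_nonneg_right ?_ (Nat.cast_nonneg _)))) zero_le_one), e⟩
      simpa using d01 a)⟩
    (hq.mono fun n k v hv => by
      obtain ⟨a0, h⟩ := k v hv
      have := nrm (by linarith) h
      exact ⟨fun a z => by simp [hr, z], this.1, this.2.1⟩)
    (Le.of3 i1 hmi i2 (hB.law.mono fun n a => by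
      have f1 := a.mi_id ((x n).C (sc (x n).M d1)) ((x n).C (sc (x n).M (dep om (0, X + C * η2))))
        ((x n).Z (sc (x n).M (dep om (0, X))))
      have f2 := a.ch_id ((x n).C (sc (x n).M d)) ((x n).C (sc (x n).M d1))
      have f3 : mi (Q n) (fun v => (b n v, (x n).C (sc (x n).M d1) (π n v)))
          (fun v => (x n).C (sc (x n).M (dep om (0, X + C * η2))) (π n v))
          (fun v => (x n).Z (sc (x n).M (dep om (0, X))) (π n v)) ≤
          mi (Q n) (fun v => (x n).C (sc (x n).M d1) (π n v))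
            (fun v => (x n).C (sc (x n).M (dep om (0, X + C * η2))) (π n v))
            (fun v => (x n).Z (sc (x n).M (dep om (0, X))) (π n v)) +
          mi (Q n) (b n) (fun v => (x n).j (π n v)) (fun v => (x n).Z (sc (x n).M d) (π n v)) +
          ch (Q n) (fun v => (x n).C (sc (x n).M d) (π n v))
            fun v => (x n).C (sc (x n).M d1) (π n v) :=
        info _ _ _ (Fn.comp (cell (x n).B _) _) (Fn.comp (cell (x n).B _) _)
          (Fn.comp (cell (x n).B _) _)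
      linarith)) (ε / 3) (by positivity)
  have k1 : (1 : ℝ) ≤ 1 + Fintype.card κ := le_add_of_nonneg_right (Nat.cast_nonneg _)
  have hΛ := (((hM.sub le_rfl).add (hL'.const_mul hM one_le_two) hM).add
    ((sub_box hM hL1 K1).const_mul hM k1) hM).const_mul hM m22
  filter_upwards [key, hn (ε / 3) (by positivity), hcut, hB.law, g.unit, hl, hq, hneg,
    hΛ.2 (η - η2) (by linarith)] with n a0 a1 a2 a3 a4 a5 a6 a7 a8
  refine le_trans (pb_mono fun v hv w => ?_) ((pb_or _ _ _).trans ((add_le_add a0 a1).trans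
    (by linarith)))
  refine (em _).imp_left fun z => ?_
  obtain ⟨T, -⟩ := a5 v hv
  obtain ⟨a, ha⟩ := a6 v hv
  have τ0 := Real.exp_pos (-(η * (x n).M))
  obtain ⟨-, h2, h3⟩ := a2 _ _ _ _ (a4 _ (a3.mem hv)) τ0.le z T.sup T.le T.kill
  have h4 := hK (x n).c ((x n).co (sc (x n).M (dep om (0, X))) ((x n).C (sc (x n).M d1) (π n v))
    (π n v)) (fun a => ind (Ex om μ) 1 a * l n (b n v) a) (L1 n)
    ((1 + Fintype.card κ) * Real.exp (-(η * (x n).M))) (hL1.1 n) (by positivity)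
    (fun a b e => hc n (a, b, e)) (fun a => (rat (d01 a) (h2 a)).trans_eq (by simp))
    (fun a k => (rat (d0p a k) (h2 a)).trans (le_mul_of_one_le_left τ0.le k1))
    (fun a => by
      rw [abs_mul, abs_of_nonneg (ind_nn zero_le_one a)]
      exact mul_le_one₀ (ind_le zero_le_one a) (abs_nonneg _) (T.le a))
    (fun a k => by rw [ind_neg k, zero_mul])
    (kill hex T.le (fun a k => T.sup a fun u => u.elim (fun s => s.1.ne' (by rw [k]; rfl))
      fun s => s.1.1.ne' (by rw [k]; rfl)) τ0.le a7 T.kill)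
  have h5 : ∑ a, ind (Ex om μ) 1 a * l n (b n v) a * (x n).co (sc (x n).M (dep om (0, X)))
      ((x n).C (sc (x n).M d1) (π n v)) (π n v) a = ∑ a, ind (Ex om μ) 1 a * l n (b n v) a *
        (lg (x n).B (cell (x n).B (rA (sc (x n).M d1)) ((x n).j (π n v))) ((x n).j (π n v)) a /
          rA (sc (x n).M d1) a) := Finset.sum_congr rfl fun a _ => by
    by_cases k : Ex om μ a
    · simp only [TG.Sy.co, TG.Sy.C, rA, TG.sc, d0x a k]
    · rw [ind_neg k, zero_mul, zero_mul, zero_mul]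
  rw [h5] at h4
  refine ((nrm (by linarith) ha).2.2 _ _ ((1 + 2 * L' n + (1 + Fintype.card κ) * (K * L1 n) ^ K) *
    Real.exp (-(η * (x n).M))) ?_).trans ?_
  · have b1 := abs_le.1 w
    have b2 := abs_le.1 h3
    have b3 := abs_le.1 h4
    simp only [Sy.co, Sy.C, hr] at b1 b2 b3 ⊢
    rw [abs_le]
    constructor <;> linarith [b1.1, b1.2, b2.1, b2.2, b3.1, b3.2]
  · rw [← mul_assoc]
    refine (mul_le_mul_of_nonneg_right a8 τ0.le).trans_eq ?_
    rw [← Real.exp_add]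
    congr 1; ring

end Pool.Agent.MP_5168f5_an.AN.GO
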