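import Pool.Agent.MP_5168f5_an.AN.GOvC
import Pool.Agent.MP_5168f5_an.AN.GOa1
import Pool.Agent.MP_5168f5_an.AN.GOa2
import Pool.Agent.MP_5168f5_an.AN.GOa3
import Pool.Agent.MP_5168f5_an.AN.GOa4
import Pool.Agent.MP_5168f5_an.AN.GOa5

/-! Kakeya sets in all dimensions: the overfeeding step. -/

namespace Pool.Agent.MP_5168f5_an.AN.GO

open H19 H17S H17F G39 GA Filter H61Z TG R4

theorem cd_lt {κ : Type} [Fintype κ] {S S' : κ → Prop} (h : ∀ a, S a → S' a) {a : κ} (u : S' a)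
    (v : ¬S a) : TG.cd S < TG.cd S' := by
  classical
  unfold TG.cd
  refine Nat.cast_lt.2 (Finset.card_lt_card ⟨fun e he => ?_, fun k => v ?_⟩)
  · simpa using h e (by simpa using he)
  · simpa using k (x := a) (by simpa using u)

def OfOver : Prop := SGd → SRef → TG.SLip → SSB → SRep → SZm → SCF → SU → SRat → SFin → SToAC →
  SBas → SSwap → SOver

theorem goOver : OfOver := by
  intro hG hRef hL hSB hRep hZ hC hU hRat hF hTo hB hSw ι κ _ _ _ Φ om pos x C f a h hf h0 ha hlt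
    I1 I2
  classical
  obtain ⟨a0, m0, hx⟩ := Finset.exists_max_image (Finset.univ.filter (Mx om))
    (fun e => (om e).1 / (om e).2) ⟨a, by simpa using ha⟩
  have m1 : Mx om a0 := by simpa using m0
  set μ := (om a0).1 / (om a0).2 with hμ
  have top : ∀ e, Mx om e → (om e).1 ≤ μ * (om e).2 := fun e u =>
    (div_le_iff₀ u.2).1 (hx e (by simpa using u))
  have x0 : Ex om μ a0 := ⟨m1, by rw [hμ, div_mul_cancel₀ _ m1.2.ne']⟩
  obtain ⟨A, A', t, h1, h2, hT, hO⟩ := goOV1 ι κ _ Φ om pos _ _ μ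
    (fun e => if pos e then (if e = f then 1 else 2) else 0) h.alg (div_pos m1.1 m1.2) top
  have ng : ∀ (p : κ → Prop) (u v : κ), (∀ u v, ¬p u → p v →
      (if pos u then (if u = f then 1 else 2) else 0) <
        (if pos v then (if v = f then 1 else 2) else 0 : ℕ)) → om u ≠ om v ∨ (¬p u ∧ p v) →
      Neg (un x) (fun n => A n u v) ∧ Neg (un x) fun n => A' n u v := fun p u v k w =>
    ⟨neg_ev (h1.mono fun n c => not_not.1 fun z => w.elim (fun y => y (c.2.1 u v z).1.symm)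
      fun y => absurd (c.2.1 u v z).2 (not_le.2 (k u v y.1 y.2))),
    neg_ev (h1.mono fun n c => not_not.1 fun z => w.elim (fun y => y (c.2.2 u v z).1.symm)
      fun y => absurd (c.2.2 u v z).2 (not_le.2 (k u v y.1 y.2)))⟩
  obtain ⟨b1, b2⟩ := hB ι κ Φ om pos x C A A' h (h1.mono fun _ c => c.1) h2 fun u v =>
    ng pos u v fun u v p q => by rw [if_neg p, if_pos q]; split_ifs <;> omega
  obtain ⟨b3, -⟩ := hB ι κ Φ om _ x C A A' ((hSw ι κ Φ om pos x C h).2 _ (fun _ c => c.1) h0)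
    (h1.mono fun _ c => c.1) h2 fun u v => ng (fun e => pos e ∧ e ≠ f) u v fun u v p q => by
      rw [if_pos q.1, if_neg q.2]
      split_ifs with y z
      · omega
      · exact absurd ⟨y, z⟩ p
      · omega
  by_contra hn
  obtain ⟨y, r, e, r0, e0, hy⟩ := stA hZ hC b1 b3 hO (mt b2 hn)
  have f2 : 0 < (om f).2 := by
    nlinarith [mul_nonneg (h.alg.wt f).1 ha.2.le, ha.1, (h.alg.wt f).2]
  have cut := goCut hG hL
  refine stB hZ hU hRat hG hF hTo goSplit (goCA hG hRef hSB cut) (goCB hG hRef hRep cut goUx) hT hy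
    r0 e0 (fun u w => ⟨And.left, fun p => ⟨p, ?_⟩⟩) (I1 om _ (cd_lt (fun _ c => c.1) hf
      fun c => c.2 rfl)) (I2 _ (cd_lt (fun e c => ((hT.mx e).1 c).1) m1
        fun c => ((hT.mx a0).1 c).2 x0))
  rintro rfl
  rcases w with w | w
  · exact f2.ne' w.2
  · rw [w.2] at hlt
    nlinarith [mul_le_mul_of_nonneg_right (top a ha) f2.le]

end Pool.Agent.MP_5168f5_an.AN.GO
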