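import Pool.Agent.MP_5168f5_an.AN.TGSpec
import Pool.Agent.MP_5168f5_an.AN.GAAll
import Pool.Agent.MP_5168f5_an.R4.Api

/-! Kakeya sets in all dimensions: the information may be measured against a deeper cell. -/

namespace Pool.Agent.MP_5168f5_an.AN.TG

open H19 H17S H17F G39 GA Filter H61Z

namespace TGSBRA

variable {ι κ : Type} [Fintype ι] [DecidableEq ι] [Fintype κ] {B : κ → Mt ι} {r r' : κ → ℝ}
  {L L' : ℝ} {x y : Mt ι}

theorem mono (h : Nr B r L x y) (e : ∀ a, r a ≤ r' a) (h0 : ∀ a, 0 ≤ r a) (e' : L ≤ L')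
    (l0 : 0 ≤ L') : Nr B r' L' x y :=
  h.imp fun _ k => ⟨fun a => (k.1 a).trans (mul_le_mul e' (e a) (h0 a) l0), k.2⟩

theorem unit {Φ : Filt (Mt ι)} {c : κ → κ → κ → ℝ} (hF : IsFr Φ B c) (h : Nr B r L x y)
    (hy : IsUnit y) : IsUnit x := by
  obtain ⟨t, -, rfl⟩ := h
  have m := (sMul _ _ Φ B c hF).neg t
  have := hy.mul (⟨⟨_, _, m.1, m.2⟩, rfl⟩ : IsUnit (ex B (-t)))
  rwa [mul_assoc, m.2, mul_one] at this

theorem num {t η δ : ℝ} (ht : 0 ≤ t) (h : 0 < η) (hδ : 0 < δ) :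
    ∃ η', 0 < η' ∧ η' < η ∧ t / η' ≤ t / η + δ := by
  have q : 0 ≤ t / η := by positivity
  have p : 0 < δ / (t / η + 1) := by positivity
  refine ⟨η / (1 + δ / (t / η + 1)), by positivity, div_lt_self h (by linarith), ?_⟩
  rw [div_div_eq_mul_div, mul_div_right_comm, mul_add, mul_one, ← mul_div_assoc, add_le_add_iff_left,
    div_le_iff₀ (by positivity)]
  linarith

theorem close {l u v : κ → ℝ} {S : κ → Prop} {c0 e δ : ℝ} (h0 : ∀ a, ¬S a → l a = 0)
    (h1 : ∀ a, |l a| ≤ 1) (hδ : 0 ≤ δ) (h : ∀ a, S a → |v a - u a| ≤ δ)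
    (k : |∑ a, l a * u a - c0| ≤ e) : |∑ a, l a * v a - c0| ≤ e + Fintype.card κ * δ := by
  have a : |∑ a, l a * (v a - u a)| ≤ Fintype.card κ * δ := by
    refine (Finset.abs_sum_le_sum_abs _ _).trans ((Finset.sum_le_card_nsmul _ _ δ
      fun a _ => ?_).trans_eq (nsmul_eq_mul _ _))
    by_cases q : S a
    · rw [abs_mul]; exact (mul_le_mul (h1 a) (h a q) (abs_nonneg _) zero_le_one).trans_eq (one_mul _)
    · rwa [h0 a q, zero_mul, abs_zero]
  simp only [mul_sub, Finset.sum_sub_distrib] at a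
  rw [abs_le] at *
  constructor <;> linarith [a.1, a.2, k.1, k.2]

end TGSBRA

open TGSBRA

theorem tgSBR : OfSBR := by
  intro hR hL ι κ _ _ _ Φ om pos x g D D' S C s hC hS gD gD' hK hu sb W β Q π b p l c0 η ρ h0 hs hρ
    ⟨law, L, sL, w⟩ ht hm ε hε
  have hM := g.alg.big
  obtain ⟨K, k1, HN⟩ := sNr Φ.N (Fintype.card κ)
  obtain ⟨_, -, HC⟩ := sCell Φ.N (Fintype.card κ)
  obtain ⟨L1, s1, e1⟩ := id gD
  obtain ⟨L2, s2, e2⟩ := gD'
  have s3 := (sL.add s1 hM).add (sub_box hM s2 k1) hM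
  obtain ⟨L', s', lip⟩ := hL ι κ Φ om pos x g D _ gD hK s3
  obtain ⟨η', p0, p1, p2⟩ := num (mul_nonneg hC hρ) h0 (show 0 < ε / 3 by positivity)
  have rec_ := law.mono fun n e => hR _ _ _ _ _ (x n).P (Q n) (π n) (b n) ((x n).C (D' n))
    ((x n).Z (D n)) e
  have w' := (R4.K31.dnS_law (rec_.mono fun n e => e.2.1)).whp w
  have r0 : ∀ (d : κ → ℝ) a, 0 < rA d a := fun _ _ => Real.exp_pos _
  have rm : ∀ {d d' : κ → ℝ}, (∀ a, d a ≤ d' a) → ∀ a, rA d' a ≤ rA d a := fun e a =>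
    Real.exp_le_exp.2 (neg_le_neg (e a))
  have m0 : ∀ n, 0 ≤ s * (x n).M := fun n => mul_nonneg (by linarith) (Nat.cast_nonneg _)
  have key : ∀ᶠ n in UF, ∀ y z, cell (x n).B (rA (D' n)) z = cell (x n).B (rA (D' n)) y →
      Nr (x n).B (rA (up (D n) (s * (x n).M) fun a => om a ≠ 0))
        (L n + L1 n + (K * L2 n) ^ K) y z ∧
      Nr (x n).B (rA (D n)) (L n + L1 n + (K * L2 n) ^ K) y z := by
    filter_upwards [g.alg.fr, e2, hu] with n f e u y z q
    have c := fun y => mono ((HC ι κ Φ _ _ (rA (D' n)) _ 1 rfl le_rfl f le_rfl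
      fun a => ⟨r0 _ a, (one_mul _).ge⟩).1 y) (fun _ => le_rfl) (fun a => (r0 _ a).le) (s2.1 n)
      (s2.pos n).le
    have H := fun x y z => HN ι κ Φ _ _ _ _ (L2 n) 0 x y z rfl le_rfl f (s2.1 n) le_rfl
      (fun a => ⟨(r0 _ a).le, (r0 _ a).le⟩) e.2.1 e.2.1
    have a := mono ((H y _ z).2.1 ((H _ y y).1 (c y)) (q ▸ c z)) (rm u) (fun a => (r0 _ a).le)
      (show _ ≤ L n + L1 n + (K * L2 n) ^ K by linarith [sL.pos n, s1.pos n]) (s3.pos n).le
    refine ⟨a, mono a (rm fun a => ?_) (fun a => (r0 _ a).le) le_rfl (s3.pos n).le⟩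
    unfold up
    split_ifs
    exacts [le_add_of_nonneg_right (m0 n), le_rfl]
  have up1 : ∀ {n p y}, Nr (x n).B (rA (D n)) (L n) p y →
      Nr (x n).B (rA (D n)) (L n + L1 n + (K * L2 n) ^ K) p y := fun {n _ _} e =>
    mono e (fun _ => le_rfl) (fun a => (r0 _ a).le)
      (by linarith [s1.pos n, (sub_box hM s2 k1).pos n]) (s3.pos n).le
  have ex : ∀ n, Real.exp (-(η * (x n).M)) ≤ Real.exp (-(η' * (x n).M)) := fun n =>
    Real.exp_le_exp.2 (neg_le_neg (mul_le_mul_of_nonneg_right p1.le (Nat.cast_nonneg _)))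
  have main := sb _ β _ (fun _ => Prod.snd) (fun n u => b n u.1) p l c0 η' ρ p0 hρ
    ⟨rec_.mono fun n e => e.1, _, sub_box hM s3 k1, w'.mono (by
      filter_upwards [rec_, key, g.alg.fr, e1] with n e k f i u hu q
      have i' := GACellA.idl_mono i.2.1 (show L1 n ≤ L n + L1 n + (K * L2 n) ^ K by
        linarith [sL.pos n, (sub_box hM s2 k1).pos n]) fun a => (r0 _ a).le
      exact (HN ι κ Φ _ _ _ _ _ 0 _ _ _ rfl le_rfl f (s3.1 n) le_rfl
        (fun a => ⟨(r0 _ a).le, (r0 _ a).le⟩) i' i').2.1 (up1 q) (k _ _ (e.2.2.1 u hu).2.2.1).2)⟩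
    ((rec_.and ht).mono fun n e u hu =>
      have t := e.2 u.1 (e.1.2.2.1 u hu).1
      ⟨t.sup, t.le, t.one, fun a b => (t.kill a b).trans (ex n)⟩)
    ((Le.of_ev (rec_.mono fun n e => (mi_mono ((Fn.comp (x n).j Prod.snd).left _)).trans
      e.2.2.2)).trans hm) _ (show 0 < ε / 3 by positivity)
  filter_upwards [main, w' _ (show 0 < ε / 3 by positivity), rec_, key, lip s, g.alg.fr, g.unit,
    law, ht, (s'.const_mul hM (show (1 : ℝ) ≤ Fintype.card κ + 1 by simp)).2 _ (sub_pos.2 p1)]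
    with n a1 a2 e k lp f un lw t sm
  refine le_trans (e.2.1.pb_eq fun v => |∑ a, l n (b n v) a * (x n).co (D n) (p n (b n v)) (π n v) a
    - c0 n (b n v)| ≤ Real.exp (-(η * (x n).M))).ge (((pb_mono fun u hu q =>
      or_iff_not_imp_right.2 fun v => ?_).trans (pb_or _ _ _)).trans
        ((add_le_add a1 a2).trans (by linarith)))
  obtain ⟨u1, u2, u3, -⟩ := e.2.2.1 u hu
  have v' := up1 (not_not.1 v)
  refine (close (t _ u1).sup (t _ u1).le (mul_pos (s'.pos n) (Real.exp_pos _)).le (fun a ha =>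
    (lp _ _ _ (unit f v' (un _ (lw.mem u1))) v' (k _ _ u3).2).1 _ (m0 n) le_rfl (k _ _ u3).1 a
      (hS a ha)) q).trans ?_
  have z : Real.exp (-(s * (x n).M)) ≤ Real.exp (-(η * (x n).M)) :=
    Real.exp_le_exp.2 (neg_le_neg (mul_le_mul_of_nonneg_right hs.le (Nat.cast_nonneg _)))
  have z1 := mul_le_mul_of_nonneg_right sm (Real.exp_pos (-(η * (x n).M))).le
  rw [← Real.exp_add, show (η - η') * (x n).M + -(η * (x n).M) = -(η' * (x n).M) by ring] at z1
  have z2 := mul_le_mul_of_nonneg_left z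
    (mul_nonneg (Nat.cast_nonneg (Fintype.card κ)) (s'.pos n).le)
  have z3 := le_mul_of_one_le_left (Real.exp_pos (-(η * (x n).M))).le (s'.1 n)
  linarith

end Pool.Agent.MP_5168f5_an.AN.TG
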