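import Pool.Agent.MP_5168f5_an.AN.TGSide
import Pool.Agent.MP_5168f5_an.AN.TGSBR

/-! Kakeya sets in all dimensions: change of basis inside the weight spaces. -/

namespace Pool.Agent.MP_5168f5_an.AN.TG

open H19 H17S H17F G39 GA Filter H61Z Matrix

namespace TGBasA

variable {ι κ : Type} [Fintype ι] [DecidableEq ι] [Fintype κ] [DecidableEq κ]

/-- The matrix in normalised coordinates. -/
noncomputable def nm (r : κ → ℝ) (A : Matrix κ κ ℝ) : Matrix κ κ ℝ :=
  fun a e => A a e * r a / r e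

section Alg

variable {A A' : Matrix κ κ ℝ} {c : κ → κ → κ → ℝ} {r : κ → ℝ}

theorem nm_one (p : ∀ a, 0 < r a) (h : A * A' = 1) : nm r A * nm r A' = 1 := by
  ext a b
  have : (nm r A * nm r A') a b = (A * A') a b * r a / r b := by
    simp only [mul_apply, nm, Finset.sum_mul, Finset.sum_div]
    exact Finset.sum_congr rfl fun e _ => by field_simp [(p _).ne']
  rw [this, h]
  by_cases k : a = b
  · subst k; simp [(p _).ne']
  · simp [k]

omit [DecidableEq κ] in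
theorem nm_C (p : ∀ a, 0 < r a) : sC r (mC A A' c) = mC (nm r A) (nm r A') (sC r c) := by
  funext a b e
  simp only [sC, GAChgA.mC_eq, nm, Finset.sum_mul, Finset.sum_div]
  exact Finset.sum_congr rfl fun _ _ => Finset.sum_congr rfl fun _ _ =>
    Finset.sum_congr rfl fun _ _ => by field_simp [(p _).ne']

omit [DecidableEq κ] in
theorem nm_vec (p : ∀ a, 0 < r a) (t : κ → ℝ) (e : κ) :
    vecMul t A e / r e = vecMul (fun a => t a / r a) (nm r A) e := by
  simp only [vecMul, dotProduct, nm, Finset.sum_div]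
  exact Finset.sum_congr rfl fun _ _ => by field_simp [(p _).ne']

theorem back (h : A' * A = 1) (l : κ → ℝ) (a b : κ) : ∑ e, c a b e * (A' *ᵥ l) e =
    ∑ g, ∑ k, A' a g * A' b k * ∑ e, mC A A' c g k e * l e := by
  have h1 : ∀ e, ∑ e', c a b e' * A' e' e = ∑ g, ∑ k, A' a g * A' b k * mC A A' c g k e :=
    fun e => by
      have := GAChgA.ident h c (Matrix.single a b 1) e
      simp only [mul_apply, transpose_apply, Matrix.single, of_apply, ite_and, mul_ite, ite_mul,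
        mul_one, mul_zero, zero_mul, one_mul, Finset.sum_ite_irrel, Finset.sum_const_zero,
        Finset.sum_ite_eq, Finset.mem_univ, if_true] at this
      exact this.symm
  calc _ = ∑ e, (∑ e', c a b e' * A' e' e) * l e := by
        simp only [mulVec, dotProduct, Finset.mul_sum, Finset.sum_mul, mul_assoc]
        exact Finset.sum_comm
    _ = _ := by
        simp only [h1, Finset.sum_mul, Finset.mul_sum, mul_assoc]
        exact Finset.sum_comm.trans (Finset.sum_congr rfl fun _ _ => Finset.sum_comm)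

omit [DecidableEq κ] in
theorem sb {f : κ → ℝ} {N u : ℝ} (hN : (Fintype.card κ : ℝ) ≤ N) (hu : 0 ≤ u)
    (h : ∀ a, |f a| ≤ u) : |∑ a, f a| ≤ N * u :=
  (Finset.abs_sum_le_sum_abs _ _).trans ((Finset.sum_le_card_nsmul _ _ u fun a _ => h a).trans
    ((nsmul_eq_mul _ _).trans_le (mul_le_mul_of_nonneg_right hN hu)))

theorem am {x y u v : ℝ} (h : |x| ≤ u) (k : |y| ≤ v) : |x * y| ≤ u * v :=
  (abs_mul x y).trans_le (mul_le_mul h k (abs_nonneg _) ((abs_nonneg _).trans h))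

open Classical in
theorem core {S : κ → Prop} {N τ τ' : ℝ} {l' : κ → ℝ} (h : A * A' = 1)
    (hN : (Fintype.card κ : ℝ) ≤ N) (n1 : 1 ≤ N) (hA : ∀ a e, |A a e| ≤ N ∧ |A' a e| ≤ N)
    (hc : ∀ a b e, |c a b e| ≤ N) (t0 : 0 ≤ τ) (hs : ∀ e a, ¬S e → S a → |A' e a| ≤ τ)
    (ht : 2 * N ^ 7 * τ ≤ τ') (t1 : τ' ≤ 1) (s0 : ∀ a, ¬S a → l' a = 0) (s1 : ∀ a, |l' a| ≤ 1)
    (s2 : ∃ a, |l' a| = 1) (s3 : ∀ a b, |∑ e, mC A A' c a b e * l' e| ≤ τ) :
    ∃ (l : κ → ℝ) (m : ℝ), (∀ a, ¬S a → l a = 0) ∧ (∀ a, |l a| ≤ 1) ∧ (∃ a, |l a| = 1) ∧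
      (∀ a b, |∑ e, c a b e * l e| ≤ τ') ∧ ∀ (u : κ → ℝ) (c0 : ℝ), (∀ a, |u a| ≤ N) →
        |∑ a, l' a * u a - c0| ≤ τ → |∑ e, l e * vecMul u A e - c0 / m| ≤ τ' := by
  obtain ⟨a0, h0⟩ := s2
  have n0 : 0 ≤ N := by linarith
  obtain ⟨w, hw⟩ : ∃ w, w = A' *ᵥ l' := ⟨_, rfl⟩
  obtain ⟨e0, -, he⟩ := Finset.exists_max_image Finset.univ (fun e => |w e|) ⟨a0, by simp⟩
  have hl : A *ᵥ w = l' := by rw [hw, mulVec_mulVec, h, one_mulVec]
  have off : ∀ e, ¬S e → |w e| ≤ N * τ := fun e k => by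
    rw [hw]
    refine sb hN t0 fun a => ?_
    by_cases q : S a
    · exact (am (hs e a k q) (s1 a)).trans_eq (mul_one _)
    · rwa [s0 a q, mul_zero, abs_zero]
  have lo : 1 ≤ N * (N * |w e0|) := by
    rw [← h0, ← hl]
    exact sb hN (by positivity) fun e => am (hA _ _).1 (he e (Finset.mem_univ _))
  have pw : ∀ k ≤ 7, N ^ k * τ ≤ N ^ 7 * τ := fun k hk =>
    mul_le_mul_of_nonneg_right (pow_le_pow_right₀ n1 hk) t0
  have m0 : 0 < |w e0| := (abs_nonneg _).lt_of_ne fun k => by rw [← k] at lo; norm_num at lo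
  have hS : S e0 := by
    by_contra k
    have := mul_le_mul_of_nonneg_left (off e0 k) (mul_nonneg n0 n0)
    have := pw 3 (by norm_num)
    nlinarith
  have dv : ∀ {y k : ℝ}, |y| ≤ k → N ^ 2 * k ≤ τ' → |y / abs (w e0)| ≤ τ' := fun {y k} a b => by
    rw [abs_div, abs_abs, div_le_iff₀ m0]
    have k0 := (abs_nonneg _).trans a
    have := mul_le_mul_of_nonneg_right lo k0
    have := mul_le_mul_of_nonneg_right b m0.le
    nlinarith
  have sp : ∀ (f : κ → ℝ) (u : ℝ), 0 ≤ u → (∀ e, |f e| ≤ u) →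
      |∑ e, f e * (if S e then w e else 0) - ∑ e, f e * w e| ≤ N * (u * (N * τ)) := fun f u u0 k => by
    rw [← Finset.sum_sub_distrib]
    refine sb hN (by positivity) fun e => ?_
    split_ifs with q
    · rw [sub_self, abs_zero]; positivity
    · rw [mul_zero, zero_sub, abs_neg]; exact am (k e) (off e q)
  refine ⟨fun e => (if S e then w e else 0) / |w e0|, |w e0|, fun a k => by simp [k], fun a => ?_,
    ⟨e0, by simp only [if_pos hS, abs_div, abs_abs, div_self m0.ne']⟩, fun a b => ?_, fun u c0 hu k => ?_⟩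
  · rw [abs_div, abs_abs, div_le_one m0]
    split_ifs
    exacts [he a (Finset.mem_univ _), abs_zero.trans_le m0.le]
  · simp only [← mul_div_assoc, ← Finset.sum_div]
    have k1 := sp (c a b) N n0 (hc a b)
    have k2 : |∑ e, c a b e * w e| ≤ N * (N * (N * N * τ)) := by
      rw [hw, back (A := A) (mul_eq_one_comm.1 h)]
      exact sb hN (by positivity) fun g => sb hN (by positivity) fun k =>
        am (am (hA _ _).2 (hA _ _).2) (s3 _ _)
    refine dv ((abs_sub_abs_le_abs_sub _ _).trans k1 |> sub_le_iff_le_add.1 |>.trans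
      (add_le_add le_rfl k2)) ?_
    have := pw 5 (by norm_num)
    have := pw 6 (by norm_num)
    nlinarith
  · simp only [div_mul_eq_mul_div, ← Finset.sum_div, ← sub_div]
    have k1 := sp (vecMul u A) (N * (N * N)) (by positivity) fun e =>
      sb hN (by positivity) fun a => am (hu a) (hA _ _).1
    have k2 : ∑ e, vecMul u A e * w e = ∑ a, l' a * u a := by
      rw [← hl]
      exact (dotProduct_mulVec u A w).symm.trans (dotProduct_comm _ _)
    rw [k2] at k1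
    refine dv (k := N * (N * (N * N) * (N * τ)) + τ) ?_ ?_
    · simp only [mul_comm _ (vecMul u A _)]
      exact (abs_sub_le _ _ _).trans (add_le_add k1 k)
    · have := pw 2 (by norm_num)
      nlinarith

end Alg

theorem tri {Ω α α' β β' δ : Type} {P : FP Ω} (F : Ω → α) (F' : Ω → α') (G : Ω → β) (G' : Ω → β')
    (Θ : Ω → δ) : ch P F (fun ω => (G ω, Θ ω)) ≤
      ch P F' (fun ω => (G' ω, Θ ω)) + ch P F F' + ch P G' G := by
  have h1 := ch_tri' (P := P) F (fun ω => (G ω, Θ ω)) F'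
  have h2 := ch_tri' (P := P) F' (fun ω => (G ω, Θ ω)) fun ω => (G' ω, Θ ω)
  have h3 : ch P (fun ω => (G' ω, Θ ω)) (fun ω => (G ω, Θ ω)) ≤ ch P G' G :=
    ch_le ((Fn.fst _ _).pair ((Fn.snd _ _).right _)) (Fn.fst _ _)
  linarith

omit [DecidableEq κ] in
open GACntA in
theorem sw {M : ℕ → ℕ} {Φ : Filt (Mt ι)} {B B' : ℕ → κ → Mt ι} {c c' : ℕ → κ → κ → κ → ℝ}
    {Ω : ℕ → Type} {P : ∀ n, FP (Ω n)} {j : ∀ n, Ω n → Mt ι} {r : ℕ → κ → ℝ} {L : ℕ → ℝ}
    (hM : Big M) (f : ∀ᶠ n in UF, IsFr Φ (B n) (c n)) (f' : ∀ᶠ n in UF, IsFr Φ (B' n) (c' n))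
    (u : ∀ᶠ n in UF, ∀ ω ∈ (P n).S, IsUnit (j n ω)) (i : IdR M c r r) (s : Sub M L)
    (h : ∀ᶠ n in UF, ∀ x y, Nr (B' n) (r n) 1 x y → Nr (B n) (r n) (L n) x y) :
    Sm M fun n => ch (P n) (fun ω => cell (B n) (r n) (j n ω)) fun ω => cell (B' n) (r n) (j n ω) := by
  obtain ⟨K, k, hC⟩ := sCell Φ.N (Fintype.card κ)
  obtain ⟨L1, s1, i⟩ := i
  have s2 := s1.mul s
  refine (sub_box hM s2 k).log.mono ?_
  filter_upwards [f, f', u, i, h] with n f f' u i h
  have p := fun a => (i.1 a).1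
  have c2 := (hC ι κ Φ _ _ (r n) (r n) 1 rfl le_rfl f' le_rfl fun a => ⟨p a, (one_mul _).ge⟩).1
  have i' := idl_mono i.2.1 p (le_mul_of_one_le_right (s1.pos n).le (s.1 n))
  refine ch_det fun a ha => ?_
  obtain ⟨T, h1, h2⟩ := (hC ι κ Φ _ _ (r n) (r n) _ rfl le_rfl f (s2.1 n) fun a =>
    ⟨p a, le_mul_of_one_le_left (p a).le (s2.1 n)⟩).2 i' i' _ (nr_unit (c2 _) (u a ha))
  refine ⟨T, by simpa [(p _).ne'] using h1, fun b _ e => h2 _ ?_⟩
  rw [← show cell (B' n) (r n) (j n b) = cell (B' n) (r n) (j n a) from e]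
  exact nr_mono (h _ _ (c2 _)) fun a => mul_le_mul_of_nonneg_right
    (le_mul_of_one_le_left (s.pos n).le (s1.1 n)) (p a).le

/-- Depths that are compatible with the change of basis. -/
def Cp (om : κ → ℝ × ℝ) (pos : κ → Prop) (d : κ → ℝ) : Prop :=
  ∀ a e, ¬(om a ≠ om e ∨ (¬pos a ∧ pos e)) → d e ≤ d a

variable {Φ : Filt (Mt ι)} {om : κ → ℝ × ℝ} {pos : κ → Prop} {x : ℕ → Sy ι κ} {d d' : κ → ℝ}
  {A A' : ℕ → Matrix κ κ ℝ} {M : ℕ → ℕ}

omit [Fintype κ] [DecidableEq κ] in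
theorem pu {k : Bool} {a e : κ} (h : om a = om e) : Pu om k a ↔ Pu om k e := by
  cases k <;> simp only [Pu, P1, P2, h]

omit [Fintype κ] [DecidableEq κ] in
theorem cp (t : ℝ × ℝ) {r : ℝ} (hr : 0 ≤ r) : Cp om pos (dep om t) ∧ Cp om pos (up (dep om t) r pos) ∧
    ∀ k, Cp om pos (up (dep om t) r fun a => pos a ∧ Pu om k a) := by
  refine ⟨fun a e h => ?_, fun a e h => ?_, fun k a e h => ?_⟩ <;> push Not at h
  · simp only [dep, h.1, le_refl]
  · simp only [up, dep, h.1]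
    split_ifs <;> first | tauto | linarith
  · have := pu (k := k) h.1
    simp only [up, dep, h.1]
    split_ifs <;> first | tauto | linarith

omit [Fintype κ] [DecidableEq κ] in
theorem nm_neg {a e : κ} (h : Neg M fun n => A n a e) :
    Neg M fun n => nm (rA (sc (M n) d)) (A n) a e :=
  (h.mul_exp (v := fun n => rA (sc (M n) d) a / rA (sc (M n) d) e) (C := d e - d a)
    (Eventually.of_forall fun n => by
      rw [rA, rA, ← Real.exp_sub, Real.abs_exp, sc, sc]; exact le_of_eq (by congr 1; ring))).congr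
    (Eventually.of_forall fun n => mul_div_assoc _ _ _)

omit [Fintype κ] [DecidableEq κ] in
theorem nm_ob (hd : Cp om pos d) {a e : κ} (h : OB M fun n => A n a e)
    (h' : om a ≠ om e ∨ (¬pos a ∧ pos e) → Neg M fun n => A n a e) :
    OB M fun n => nm (rA (sc (M n) d)) (A n) a e := by
  by_cases k : om a ≠ om e ∨ (¬pos a ∧ pos e)
  · exact (nm_neg (h' k)).ob
  · refine ob_congr h (Eventually.of_forall fun n => ?_)
    rw [nm, mul_div_assoc]
    refine (am le_rfl ?_).trans_eq (mul_one _)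
    rw [rA, rA, ← Real.exp_sub, Real.abs_exp, sc, sc, Real.exp_le_one_iff]
    nlinarith [hd a e k, Nat.cast_nonneg (α := ℝ) (M n)]

omit [DecidableEq κ] in
theorem bd (hM : Big M) (hd : Cp om pos d)
    (hA : ∀ a e, OB M (fun n => A n a e) ∧ OB M fun n => A' n a e)
    (hz : ∀ a e, om a ≠ om e ∨ (¬pos a ∧ pos e) →
      Neg M (fun n => A n a e) ∧ Neg M fun n => A' n a e) : ∃ L, Sub M L ∧ ∀ n a e,
    |nm (rA (sc (M n) d)) (A n) a e| ≤ L n ∧ |nm (rA (sc (M n) d)) (A' n) a e| ≤ L n := by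
  obtain ⟨L, s, h⟩ := ob_bound hM (J := Bool × κ × κ) (f := fun q n =>
    nm (rA (sc (M n) d)) (bif q.1 then A n else A' n) q.2.1 q.2.2) fun ⟨k, a, e⟩ => by
      cases k
      exacts [nm_ob hd (hA a e).2 fun q => (hz a e q).2, nm_ob hd (hA a e).1 fun q => (hz a e q).1]
  exact ⟨L, s, fun n a e => ⟨h n (true, a, e), h n (false, a, e)⟩⟩

theorem nr {B : κ → Mt ι} {A A' : Matrix κ κ ℝ} {r : κ → ℝ} {L L' : ℝ} {y z : Mt ι}
    (Φ : Filt (Mt ι)) (h : A * A' = 1) (p : ∀ a, 0 < r a) (l : 0 ≤ L) (l' : 0 ≤ L')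
    (k : ∀ a e, |nm r A a e| ≤ L') (q : Nr (mB A B) r L y z) :
    Nr B r ((Fintype.card κ + 1) * L * L') y z :=
  GACntA.nr_mono (((sFr ι κ Φ B fun _ _ _ => 0).2 A A' h).2.2.2 r r L L' y z l (fun a e => by
    have := k a e
    rwa [nm, abs_div, abs_mul, abs_of_pos (p a), abs_of_pos (p e), div_le_iff₀ (p e)] at this) q)
    fun a => by have := p a; gcongr; linarith

theorem both (g : G0 Φ om pos x) (g' : G0 Φ om pos fun n => (x n).bas (A n) (A' n))
    (h1 : ∀ᶠ n in UF, A n * A' n = 1) (hd : Cp om pos d)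
    (hA : ∀ a e, OB (un x) (fun n => A n a e) ∧ OB (un x) fun n => A' n a e)
    (hz : ∀ a e, om a ≠ om e ∨ (¬pos a ∧ pos e) →
      Neg (un x) (fun n => A n a e) ∧ Neg (un x) fun n => A' n a e)
    (i : Gd x fun n => sc (x n).M d)
    (i' : Gd (fun n => (x n).bas (A n) (A' n)) fun n => sc (x n).M d) :
    Sm (un x) (fun n => ch (x n).P ((x n).C (sc (x n).M d))
      (((x n).bas (A n) (A' n)).C (sc (x n).M d))) ∧ Sm (un x) fun n => ch (x n).P
      (((x n).bas (A n) (A' n)).C (sc (x n).M d)) ((x n).C (sc (x n).M d)) := by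
  have hM := g.alg.big
  obtain ⟨L, s, h⟩ := bd hM hd hA hz
  have s' := ((hM.sub (show (1 : ℝ) ≤ Fintype.card κ + 1 by simp)).mul (hM.sub le_rfl)).mul s
  have p : ∀ (D : κ → ℝ) a, 0 < rA D a := fun _ _ => Real.exp_pos _
  refine ⟨sw hM g.alg.fr g'.alg.fr g.unit i s' (h1.mono fun n e y z q =>
    nr Φ e (p _) zero_le_one (s.pos n).le (fun a e => (h n a e).1) q),
    sw hM g'.alg.fr g.alg.fr g.unit i' s' (h1.mono fun n e y z q =>
      nr Φ (mul_eq_one_comm.1 e) (p _) zero_le_one (s.pos n).le (fun a e => (h n a e).2) ?_)⟩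
  rwa [((sFr ι κ Φ _ fun _ _ _ => 0).2 _ _ e).2.1]

omit [DecidableEq κ] in
theorem triH (y : Sy ι κ) (A A' : Matrix κ κ ℝ) (D D' : κ → ℝ) :
    y.H D D' ≤ (y.bas A A').H D D' + ch y.P (y.C D') ((y.bas A A').C D') +
      ch y.P ((y.bas A A').C D) (y.C D) ∧ (y.bas A A').H D D' ≤ y.H D D' +
      ch y.P ((y.bas A A').C D') (y.C D') + ch y.P (y.C D) ((y.bas A A').C D) :=
  ⟨tri _ _ _ _ _, tri _ _ _ _ _⟩

theorem coo {B : κ → Mt ι} {c : κ → κ → κ → ℝ} {A A' : Matrix κ κ ℝ} {r : κ → ℝ} {L : ℝ}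
    {y z : Mt ι} (f : IsFr Φ B c) (h : A * A' = 1) (p : ∀ a, 0 < r a) (u : IsUnit z)
    (q : Nr (mB A B) r L y z) : (∀ a, |lg (mB A B) y z a / r a| ≤ L) ∧
      ∀ e, lg B y z e / r e = vecMul (fun a => lg (mB A B) y z a / r a) (nm r A) e := by
  have u' := GACntA.nr_unit q u
  obtain ⟨t, k, rfl⟩ := q
  have F := (sFr ι κ Φ B c).2 A A' h
  rw [(sMul _ _ Φ _ _ (F.1 f)).lg y t u', F.2.2.1, (sMul _ _ Φ _ _ f).lg y _ u']
  exact ⟨fun a => by rw [abs_div, abs_of_pos (p a), div_le_iff₀ (p a)]; exact k a, nm_vec p t⟩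

end TGBasA

open TGBasA TGSideA in
theorem tgBas : OfBas := by
  intro hG hS hT ι κ _ _ _ Φ om pos x _ C A A' h h1 hA hz
  have g' : G0 Φ om pos fun n => (x n).bas (A n) (A' n) :=
    ⟨sChg _ _ _ Φ om pos _ _ A A' h.alg h1 hA hz, h.unit⟩
  have hM := h.alg.big
  have C0 : 0 ≤ C := zero_le_one.trans h.one
  refine ⟨⟨g', h.one, fun k t r t1 t2 hr => ?f, fun k t η ρ t1 t2 => hT _ _ Φ om pos _ g' _ _ C C0
    (fun W β Q π b p l' c0 η ρ hη hρ hB hl hI ε hε => ?a) η ρ⟩, fun F r hr => ?u⟩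
  case f =>
    have b1 := both h.toG0 g' h1 (cp t hr).1 hA hz (gd hG h.toG0 t1 t2 hr).1 (gd hG g' t1 t2 hr).1
    have b2 := both h.toG0 g' h1 ((cp t hr).2.2 k) hA hz ((gd hG h.toG0 t1 t2 hr).2 k)
      ((gd hG g' t1 t2 hr).2 k)
    exact Le.of3 (h.f k t r t1 t2 hr) b2.1 b1.2 (Eventually.of_forall fun n => by
      linarith [(triH (x n) (A n) (A' n) (sc (x n).M (dep om t))
        (sc (x n).M (up (dep om t) r fun a => pos a ∧ Pu om k a))).1])
  case u =>
    have z : dep om (0, 0) = 0 := funext fun a => by simp [dep]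
    have gu : ∀ {x : ℕ → Sy ι κ}, G0 Φ om pos x →
        Gd x fun n => sc (x n).M (up (dep om (0, 0)) r pos) := fun {x} g => by
      simp only [sc_up, sc_dep]
      exact ((hG _ _ Φ om pos x g).2 _ (fun n => r * (x n).M) (lv (t := (0, 0)) le_rfl le_rfl)
        ⟨r, Eventually.of_forall fun n => ⟨by positivity, le_rfl⟩⟩).2.1
    have b1 := both h.toG0 g' h1 (cp (0, 0) hr).1 hA hz (gd hG h.toG0 le_rfl le_rfl hr).1
      (gd hG g' le_rfl le_rfl hr).1
    have b2 := both h.toG0 g' h1 (cp (0, 0) hr).2.1 hA hz (gu h.toG0) (gu g')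
    rw [z] at b1 b2
    exact Le.of3 (F r hr) b2.2 b1.1 (Eventually.of_forall fun n => by
      linarith [(triH (x n) (A n) (A' n) (sc (x n).M 0) (sc (x n).M (up 0 r pos))).2])
  obtain ⟨law, L, sL, w⟩ := hB
  have i := (gd hG h.toG0 t1 t2 le_rfl).1
  have b1 := (both h.toG0 g' h1 (cp t le_rfl).1 hA hz i (gd hG g' t1 t2 le_rfl).1).2
  obtain ⟨L1, s1, i⟩ := i
  obtain ⟨L2, s2, o⟩ := bd hM (cp t le_rfl).1 hA hz
  obtain ⟨η', p0, p1, p2⟩ := TGSBRA.num (mul_nonneg C0 hρ) hη (show 0 < ε / 3 by positivity)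
  have sc1 := hM.sub (show (1 : ℝ) ≤ Fintype.card κ + 1 by simp)
  have sN := ((sc1.add sL hM).add s1 hM).add s2 hM
  have rp : ∀ (D : κ → ℝ) a, 0 < rA D a := fun _ _ => Real.exp_pos _
  have ng : ∀ᶠ n in UF, ∀ e a, ¬Pu om k e → Pu om k a →
      |nm (rA (sc (x n).M (dep om t))) (A' n) e a| ≤ Real.exp (-(η * (x n).M)) :=
    eventually_all.2 fun e => eventually_all.2 fun a => by
      by_cases q : om e = om a
      · exact Eventually.of_forall fun n u v => absurd ((pu q).2 v) u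
      · exact (nm_neg (hz e a (Or.inl q)).2 η).mono fun n u _ _ => u
  have key : ∀ᶠ n in UF, ∀ z : β n, Tst (mC (A n) (A' n) (x n).c) (rA (sc (x n).M (dep om t)))
      (Pu om k) (Real.exp (-(η * (x n).M))) (l' n z) → ∃ (l : κ → ℝ) (m : ℝ),
      Tst (x n).c (rA (sc (x n).M (dep om t))) (Pu om k) (Real.exp (-(η' * (x n).M))) l ∧
      ∀ (u : κ → ℝ) (c0 : ℝ), (∀ a, |u a| ≤ L n) →
        |∑ a, l' n z a * u a - c0| ≤ Real.exp (-(η * (x n).M)) →
        |∑ e, l e * vecMul u (nm (rA (sc (x n).M (dep om t))) (A n)) e - c0 / m| ≤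
          Real.exp (-(η' * (x n).M)) := by
    filter_upwards [h1, i, ng, ((sN.pow 7).const_mul hM one_le_two).2 _ (sub_pos.2 p1)]
      with n e i ng sm z T
    have q0 := sL.pos n
    have q1 := s1.pos n
    have q2 := s2.pos n
    have q3 := Nat.cast_nonneg (α := ℝ) (Fintype.card κ)
    obtain ⟨l, m, a1, a2, a3, a4, a5⟩ := core (c := sC (rA (sc (x n).M (dep om t))) (x n).c)
      (τ' := Real.exp (-(η' * (x n).M))) (nm_one (rp _) e) (by linarith) (sN.1 n)
      (fun a e => ⟨(o n a e).1.trans (by linarith), (o n a e).2.trans (by linarith)⟩)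
      (fun a b e => by
        rw [sC, abs_div, abs_mul, abs_mul, abs_of_pos (rp _ a), abs_of_pos (rp _ b),
          abs_of_pos (rp _ e), div_le_iff₀ (rp _ e)]
        exact (i.2.1 a b e).trans (mul_le_mul_of_nonneg_right (by linarith) (rp _ e).le))
      (Real.exp_pos _).le ng ((mul_le_mul_of_nonneg_right sm (Real.exp_pos _).le).trans_eq (by
        rw [← Real.exp_add]; congr 1; ring))
      (Real.exp_le_one_iff.2 (neg_nonpos.2 (by positivity))) T.sup T.le T.one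
      (nm_C (A := A n) (A' := A' n) (c := (x n).c) (rp _) ▸ T.kill)
    exact ⟨l, m, ⟨a1, a2, a3, a4⟩, fun u c k => a5 u c fun a => (k a).trans (by linarith)⟩
  have ex : ∀ (n : ℕ) (z : β n), ∃ (l : κ → ℝ) (m : ℝ), (∃ (l : κ → ℝ) (m : ℝ),
      Tst (x n).c (rA (sc (x n).M (dep om t))) (Pu om k) (Real.exp (-(η' * (x n).M))) l ∧
      ∀ (u : κ → ℝ) (c0 : ℝ), (∀ a, |u a| ≤ L n) →
        |∑ a, l' n z a * u a - c0| ≤ Real.exp (-(η * (x n).M)) →
        |∑ e, l e * vecMul u (nm (rA (sc (x n).M (dep om t))) (A n)) e - c0 / m| ≤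
          Real.exp (-(η' * (x n).M))) →
      Tst (x n).c (rA (sc (x n).M (dep om t))) (Pu om k) (Real.exp (-(η' * (x n).M))) l ∧
      ∀ (u : κ → ℝ) (c0 : ℝ), (∀ a, |u a| ≤ L n) →
        |∑ a, l' n z a * u a - c0| ≤ Real.exp (-(η * (x n).M)) →
        |∑ e, l e * vecMul u (nm (rA (sc (x n).M (dep om t))) (A n)) e - c0 / m| ≤
          Real.exp (-(η' * (x n).M)) := fun n z => by
    by_contra q
    push Not at q
    obtain ⟨⟨l, m, a⟩, -⟩ := q 0 0
    obtain ⟨u, c, a1, a2, a3⟩ := (q l m).2 a.1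
    exact a3.not_ge (a.2 u c a1 a2)
  choose l m hlm using ex
  have sb := hS _ _ Φ om pos x C h k _ (lv t1 t2)
  simp only [← sc_dep] at sb
  have main := sb W β Q π b p l (fun n z => c0 n z / m n z) η' ρ p0 hρ
    ⟨law, _, (sc1.mul sL).mul s2, w.mono (h1.mono fun n e v _ q =>
      nr Φ e (rp _) (sL.pos n).le (s2.pos n).le (fun a e => (o n a e).1) q)⟩
    ((key.and hl).mono fun n a v hv => (hlm n _ (a.1 _ (a.2 v hv))).1)
    (Le.of2 hI b1 (law.mono fun n a => by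
      have e1 := a.ch_id (((x n).bas (A n) (A' n)).C (sc (x n).M (dep om t)))
        ((x n).C (sc (x n).M (dep om t)))
      have e2 : ch (Q n) (fun v => (x n).C (sc (x n).M (dep om t)) (π n v))
        (fun v => (x n).j (π n v)) = 0 := ch_zero (Fn.comp (cell (x n).B _) _)
      have e3 : mi (Q n) (b n) (fun v => (x n).j (π n v))
          (fun v => (x n).Z (sc (x n).M (dep om t)) (π n v)) ≤ mi (Q n) (b n)
          (fun v => (x n).j (π n v))
          (fun v => ((x n).bas (A n) (A' n)).Z (sc (x n).M (dep om t)) (π n v)) +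
          ch (Q n) (fun v => ((x n).bas (A n) (A' n)).C (sc (x n).M (dep om t)) (π n v))
            (fun v => (x n).C (sc (x n).M (dep om t)) (π n v)) +
          ch (Q n) (fun v => (x n).C (sc (x n).M (dep om t)) (π n v)) fun v => (x n).j (π n v) :=
        shift _ _ _ _ _
      linarith)) _ (show 0 < ε / 3 by positivity)
  filter_upwards [main, w _ (show 0 < ε / 3 by positivity), key, hl, h1, h.alg.fr, h.unit, law]
    with n a1 a2 ky T e f un lw
  refine ((pb_mono fun v hv q => or_iff_not_imp_right.2 fun u => ?_).trans (pb_or _ _ _)).trans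
    ((add_le_add a1 a2).trans (by linarith))
  have co := coo f e (rp _) (un _ (lw.mem hv)) (not_not.1 u)
  simp only [Sy.co, co.2]
  exact (hlm n _ (ky _ (T v hv))).2 _ _ co.1 q

end Pool.Agent.MP_5168f5_an.AN.TG
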