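import Pool.Agent.MP_5168f5_an.AN.TGSpec
import Pool.Agent.MP_5168f5_an.AN.GAAll
import Pool.Agent.MP_5168f5_an.R4.Api

/-! Kakeya sets in all dimensions: the class of systems is countably described. -/

namespace Pool.Agent.MP_5168f5_an.AN.TG

open H19 H17S H17F G39 GA Filter H61Z

namespace TGCFA

universe u

theorem imp {S : ℕ → Type u} {K : (∀ n, S n) → Prop} (q : Prop) (h : R4.CF K) :
    R4.CF fun x => q → K x := R4.cf_all (J := q) (K := fun _ => K) fun _ => h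

variable {ι κ : Type} [Fintype ι] [DecidableEq ι] [Fintype κ]

theorem full (d : κ → ℝ) (S : κ → Prop) (r : ℝ) : R4.CF fun x : ℕ → Sy ι κ => FullAt x d S r :=
  R4.cf_le (S := fun _ => Sy ι κ) (fun _ x => x.M) (fun _ x => cd S * r * x.M)
    fun _ x => x.H (sc x.M d) (sc x.M (up d r S))

theorem ac (d : κ → ℝ) (S : κ → Prop) (C η ρ : ℝ) :
    R4.CF fun x : ℕ → Sy ι κ => ACAt x d S C η ρ :=
  R4.cf_eps (S := fun _ => Sy ι κ)
    (p := fun ε _ x => x.AC (sc x.M d) S (η * x.M) (ρ * x.M) (C * ρ / η + ε))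
    fun _ _ _ _ _ a h W β Q π b l c0 h1 h2 h3 =>
      (h W β Q π b l c0 h1 h2 h3).trans (add_le_add le_rfl a)

end TGCFA

open TGCFA in
theorem tgCF : OfCF := by
  intro h0 hR ι κ _ _ _ Φ om pos x0 C
  have h1 := h0 ι κ Φ om pos x0
  have h2 : R4.CF fun x : ℕ → Sy ι κ => ∀ (k : Bool) (t : ℚ × ℚ) (r : ℚ), 0 ≤ t.1 → 0 ≤ t.2 →
      0 ≤ r → FullAt x (dep om (t.1, t.2)) (fun a => pos a ∧ Pu om k a) r :=
    R4.cf_all fun _ => R4.cf_all fun _ => R4.cf_all fun _ => imp _ (imp _ (imp _ (full _ _ _)))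
  have h3 : R4.CF fun x : ℕ → Sy ι κ => ∀ (k : Bool) (t : ℚ × ℚ) (η ρ : ℚ), 0 ≤ t.1 → 0 ≤ t.2 →
      0 < η → 0 ≤ ρ → ACAt x (dep om (t.1, t.2)) (Pu om k) C η ρ :=
    R4.cf_all fun _ => R4.cf_all fun _ => R4.cf_all fun _ => R4.cf_all fun _ =>
      imp _ (imp _ (imp _ (imp _ (ac _ _ _ _ _))))
  refine (h1.and ((R4.cf_const (1 ≤ C)).and (h2.and h3))).congr fun x => ⟨fun h => ?_, fun h => ?_⟩
  · refine ⟨h.toG0, h.one, fun k t r a b c => ?_, fun k t η ρ a b c d => ?_⟩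
    · exact h.f k (t.1, t.2) r (Rat.cast_nonneg.2 a) (Rat.cast_nonneg.2 b) (by exact_mod_cast c)
    · exact h.ac k (t.1, t.2) η ρ (Rat.cast_nonneg.2 a) (Rat.cast_nonneg.2 b) (by exact_mod_cast c)
        (by exact_mod_cast d)
  · exact hR ι κ Φ om pos x C ⟨h.1, h.2.1, h.2.2.1, h.2.2.2⟩

end Pool.Agent.MP_5168f5_an.AN.TG
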