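import Pool.Agent.MP_5168f5_an.AN.TGSpec

/-! The deterministic part of a system is given by countably many eventual conditions. -/

namespace Pool.Agent.MP_5168f5_an.AN.TG

open H19 H17S H17F G39 GA Filter H61Z R4

namespace TGCF0A

theorem neg_iff {M : ℕ → ℕ} {u : ℕ → ℝ} :
    Neg M u ↔ ∀ ε : ℝ, 0 < ε → ∀ᶠ n in UF, |u n| ≤ Real.exp (-(ε⁻¹ * M n)) :=
  ⟨fun h _ _ => h _, fun h K => (h (max K 1)⁻¹ (by positivity)).mono fun n e =>
    e.trans (dl_anti M ((le_max_left K 1).trans_eq (inv_inv _).symm) n)⟩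

theorem m1 {ε ε' : ℝ} (m : ℕ) (h : 0 < ε) (e : ε ≤ ε') :
    Real.exp (-(ε⁻¹ * m)) ≤ Real.exp (-(ε'⁻¹ * m)) := by gcongr

theorem m2 {ε ε' : ℝ} (m : ℕ) (e : ε ≤ ε') :
    (Real.exp (-(ε * m)))⁻¹ ≤ (Real.exp (-(ε' * m)))⁻¹ := by gcongr

variable {S : ℕ → Type 1}

theorem cf_neg (m : ∀ n, S n → ℕ) (u : ∀ n, S n → ℝ) :
    CF fun x : ∀ n, S n => Neg (fun n => m n (x n)) fun n => u n (x n) :=
  (cf_eps (p := fun ε n x => |u n x| ≤ Real.exp (-(ε⁻¹ * m n x)))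
    fun _ _ _ _ h e a => a.trans (m1 _ h e)).congr fun _ => neg_iff

theorem cf_ob (m : ∀ n, S n → ℕ) (u : ∀ n, S n → ℝ) :
    CF fun x : ∀ n, S n => OB (fun n => m n (x n)) fun n => u n (x n) :=
  cf_eps (p := fun ε n x => |u n x| ≤ (Real.exp (-(ε * m n x)))⁻¹)
    fun _ _ _ _ _ e a => a.trans (m2 _ e)

theorem cf_ex {A : Type} [Nonempty A] {p : ℝ → ∀ n, S n → A → Prop}
    (hm : ∀ ε ε' n x a, 0 < ε → ε ≤ ε' → p ε n x a → p ε' n x a) :
    CF fun x : ∀ n, S n => ∃ a : ℕ → A, ∀ ε : ℝ, 0 < ε → ∀ᶠ n in UF, p ε n (x n) (a n) :=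
  (cf_eps (p := fun ε n x => ∃ a, p ε n x a) fun _ _ _ _ h e a =>
    a.imp fun _ => hm _ _ _ _ _ h e).congr fun x =>
    ⟨fun ⟨_, h⟩ ε hε => (h ε hε).mono fun _ e => ⟨_, e⟩, fun h => by
      obtain ⟨k, hk, h⟩ := ks.spill _ fun j : ℕ => h (1 / (j + 1 : ℝ)) (by positivity)
      obtain ⟨a, h⟩ := (h.mono fun n e => e _ le_rfl).choice
      exact ⟨a, fun ε hε => (h.and (K31.small hε hk)).mono fun n e =>
        hm _ _ _ _ _ (by positivity) e.2 e.1⟩⟩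

theorem cf_gen {κ J : Type} [Finite κ] [Finite J] (q : J → Prop) (m : ∀ n, S n → ℕ)
    (u : J → ∀ n, S n → (κ → κ → ℝ) → ℝ) : CF fun x : ∀ n, S n => ∃ l : ℕ → κ → κ → ℝ,
      (∀ a b, OB (fun n => m n (x n)) fun n => l n a b) ∧
        ∀ e, q e → Neg (fun n => m n (x n)) fun n => u e n (x n) (l n) :=
  (cf_ex (p := fun ε n x (l : κ → κ → ℝ) => (∀ a b, |l a b| ≤ (Real.exp (-(ε * m n x)))⁻¹) ∧
      ∀ e, q e → |u e n x l| ≤ Real.exp (-(ε⁻¹ * m n x))) fun _ _ _ _ _ h e a =>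
    ⟨fun b c => (a.1 b c).trans (m2 _ e), fun b c => (a.2 b c).trans (m1 _ h e)⟩).congr fun x =>
    exists_congr fun l => by
      simp only [neg_iff, eventually_and, eventually_all]
      exact ⟨fun h ε hε => ⟨fun a b => h.1 a b ε hε, fun e k => h.2 e k ε hε⟩,
        fun h => ⟨fun a b ε hε => (h ε hε).1 a b, fun e k ε hε => (h ε hε).2 e k⟩⟩

end TGCF0A

open TGCF0A Classical in
theorem tgCF0 : SCF0 := fun ι κ _ _ _ Φ om pos _ => by
  have ng := fun a b e => cf_neg (S := fun _ => Sy ι κ) (fun _ x => x.M) fun _ x => x.c a b e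
  refine ((cf_big fun _ x => x.M).and <| (cf_ev fun _ x => IsFr Φ x.B x.c).and <|
    (cf_const (∀ a, 0 ≤ (om a).1 ∧ 0 ≤ (om a).2)).and <|
    (cf_const (∀ a, pos a → om a ≠ 0)).and <|
    (cf_all fun a => cf_all fun b => cf_all fun e =>
      cf_ob (fun _ x => x.M) fun _ x => x.c a b e).and <|
    (cf_all fun a => cf_all fun b => cf_all fun e => cf_all fun _ : om e ≠ 0 =>
      cf_all fun _ : ¬Hm om a b e => ng a b e).and <|
    (cf_all fun a => cf_all fun b => cf_all fun e => cf_all fun _ : ¬pos a =>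
      cf_all fun _ : ¬pos b => cf_all fun _ : pos e => ng a b e).and <|
    (cf_all fun e => cf_all fun _ : Mx om e => cf_gen (fun e' => om e' = om e) (fun _ x => x.M)
      fun e' _ x l => ∑ a, ∑ b, l a b * cH om x.c a b e' - if e' = e then 1 else 0).and <|
    cf_ev fun _ x => ∀ ω ∈ x.P.S, IsUnit (x.j ω)).congr fun x => ⟨fun h => ?_, ?_⟩
  · exact ⟨h.alg.big, h.alg.fr, h.alg.wt, h.alg.live, h.alg.ob, h.alg.hom, h.alg.sub, h.alg.gen,
      h.unit⟩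
  · rintro ⟨a, b, c, d, e, f, g, h, i⟩
    exact ⟨⟨a, b, c, d, e, f, g, h⟩, i⟩

end Pool.Agent.MP_5168f5_an.AN.TG
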