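import Pool.Agent.MP_5168f5_an.AN.TGGd
import Pool.Agent.MP_5168f5_an.AN.GAAll
import Pool.Agent.MP_5168f5_an.R4.Api

/-! Conditioning a system on an event. -/

namespace Pool.Agent.MP_5168f5_an.AN.TG

open H19 H17S H17F G39 GA Filter H61Z

namespace TGCondA

variable {ι κ : Type} [Fintype ι] [DecidableEq ι] [Fintype κ] {Φ : Filt (Mt ι)} {om : κ → ℝ × ℝ}
  {pos : κ → Prop} {x : ℕ → Sy ι κ}

omit [Fintype κ] in
theorem le_up (d : κ → ℝ) {r : ℝ} (hr : 0 ≤ r) (S : κ → Prop) (a : κ) : d a ≤ up d r S a := by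
  unfold up
  split_ifs <;> linarith

theorem sum_up (d : κ → ℝ) (r : ℝ) (S : κ → Prop) : ∑ a, (up d r S a - d a) = cd S * r := by
  classical
  rw [cd, ← nsmul_eq_mul, ← Finset.sum_const, Finset.sum_filter]
  refine Finset.sum_congr rfl fun a _ => ?_
  unfold up
  split_ifs <;> ring

theorem good (h : G0 Φ om pos x) {d : κ → ℝ} (hd : Id (un x) (fun n => (x n).c) d d) {r : ℝ}
    (hr : 0 ≤ r) (k : Bool) : Id (un x) (fun n => (x n).c) (up d r fun a => pos a ∧ Pu om k a)
      (up d r fun a => pos a ∧ Pu om k a) := fun a b e u => by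
  by_cases v : d a + d b < d e
  · exact hd a b e v
  have s : (pos e ∧ Pu om k e) ∧ ¬(pos a ∧ Pu om k a) ∧ ¬(pos b ∧ Pu om k b) := by
    unfold up at u
    split_ifs at u <;> first | (exfalso; linarith [not_lt.1 v]) | tauto
  by_cases y : Hm om a b e
  · have := TGGdA.pure h.alg.wt y s.1.2
    exact h.alg.sub a b e (fun z => s.2.1 ⟨z, this.1⟩) (fun z => s.2.2 ⟨z, this.2⟩) s.1.1
  · exact h.alg.hom a b e (h.alg.live e s.1.1) y

theorem g0 (h : G0 Φ om pos x) (E : ∀ n, (x n).Ω → Prop) :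
    G0 Φ om pos fun n => (x n).cond (E n) :=
  ⟨h.alg, h.unit.mono fun _ u ω hω => u ω (cE_sub hω)⟩

end TGCondA

open TGCondA

theorem tgCond : OfCond := by
  intro mix ι κ _ _ _ Φ om pos x C h E hE
  have hM := h.alg.big
  refine ⟨g0 h.toG0 E, h.one, fun k t r t1 t2 hr => ?_, fun k t η ρ t1 t2 hη hρ ε hε => ?_⟩
  · have hd := (sGood _ _ _ _ _ _ _ _ h.alg).2.1 t t1 t2
    refine R4.ks.full (pr x) E _ _ _ _ hM hE (h.f k t r t1 t2 hr) ?_
    refine (sCntW _ _ _ _ _ _ _ _ _ (fun n => cE (x n).P fun ω => ¬E n ω) (fun n => (x n).j) _ _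
      h.alg (g0 h.toG0 _).unit hd (good h.toG0 hd hr k) (le_up _ hr _) fun a z => ?_).1.of_sub
      (Eventually.of_forall fun n => ?_)
    · exact (if_neg fun u => h.alg.live a u.1 z).symm
    · rw [sum_up]
      exact sub_le_sub_right (ch_anti (Fn.fst _ _)) _
  · obtain ⟨q₀, q0, hq⟩ := hE
    have lim := R4.tendsto_ul (f := fun n => pb (x n).P (E n)) (C := 1)
      (Eventually.of_forall fun n => abs_le.2 ⟨by linarith [pb_nonneg (x n).P (E n)],
        pb_le_one _ _⟩)
    generalize R4.ul (fun n => pb (x n).P (E n)) = q at lim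
    have q1 : 0 < q := q0.trans_le (ge_of_tendsto lim hq)
    have C0 : 0 < C := one_pos.trans_le h.one
    obtain ⟨s, s0, es⟩ : ∃ s : ℝ, 0 < s ∧ s * (C * ρ / η + C / η + 2) = ε * q :=
      ⟨ε * q / (C * ρ / η + C / η + 2), by positivity, div_mul_cancel₀ _ (by positivity)⟩
    filter_upwards [h.ac k t η ((q + s) * ρ + s) t1 t2 hη (by positivity) s s0, hq,
      Metric.tendsto_nhds.1 lim s s0, hM.sm (2 * H17S.lg) s s0] with n a b c d
    intro W β Q π f l c0 lw ts inf
    obtain ⟨W', Q', π', f', e1, e2, e3, e4⟩ := mix _ W β _ _ (x n).P (E n) Q π f (x n).j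
      ((x n).Z (sc (x n).M (dep om t))) (q0.trans_le b) lw
    rw [Real.dist_eq, abs_lt] at c
    have k1 := a W' β Q' π' f' l c0 e1 (fun v hv => by
      obtain ⟨u, hu, e⟩ := e2 v hv
      rw [e]
      exact ts u hu) (e3.trans (by
      have := mul_le_mul (by linarith : pb (x n).P (E n) ≤ q + s) inf (mi_nonneg _ _ _)
        (by positivity)
      exact (add_le_add this d).trans_eq (by ring)))
    have k2 := (e4 fun z ω => |∑ a, l z a * (x n).co (sc (x n).M (dep om t))
      ((x n).C (sc (x n).M (dep om t)) ω) ω a - c0 z| ≤ Real.exp (-(η * (x n).M))).trans k1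
    refine le_of_mul_le_mul_left ?_ q1
    have k3 : C * ((q + s) * ρ + s) / η = q * (C * ρ / η) + s * (C * ρ / η + C / η) := by ring
    refine le_trans ?_ ((add_le_add k2 (mul_le_of_le_one_right s0.le (pb_le_one Q fun v =>
      |∑ a, l (f v) a * (x n).co (sc (x n).M (dep om t)) ((x n).C (sc (x n).M (dep om t)) (π v))
        (π v) a - c0 (f v)| ≤ Real.exp (-(η * (x n).M))))).trans (by linarith))
    rw [← add_mul]
    exact mul_le_mul_of_nonneg_right (by linarith) (pb_nonneg _ _)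

end Pool.Agent.MP_5168f5_an.AN.TG
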