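import Pool.Agent.MP_5168f5_an.AN.TGSpec
import Pool.Agent.MP_5168f5_an.R4.Defs

/-! Diagonal choice for countably many conditions. -/

namespace Pool.Agent.MP_5168f5_an.AN.TG

open H19 H17S H17F G39 GA Filter H61Z

theorem tgDg : SDg := by
  intro J _ p h
  obtain ⟨f, hf⟩ := exists_injective_nat J
  have fin : ∀ m, (f ⁻¹' Set.Iic m).Finite := fun m => (Set.finite_Iic m).preimage hf.injOn
  choose g h1 h2 using fun m =>
    ((eventually_ge_atTop m).and ((eventually_all_finite (fin m)).2 fun i _ => h i)).exists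
  obtain ⟨K, a, b⟩ := R4.ks.spill (fun m n => ∀ i ∈ f ⁻¹' Set.Iic m, p i (g m) n) fun m =>
    (eventually_all_finite (fin m)).2 (h2 m)
  refine ⟨fun n => g (K n), tendsto_atTop_mono (fun n => h1 (K n)) a, fun i => ?_⟩
  filter_upwards [b, tendsto_atTop.1 a (f i)] with n u v using u _ le_rfl i v

end Pool.Agent.MP_5168f5_an.AN.TG
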