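import Pool.Agent.MP_5168f5_an.AN.TGSpec
import Pool.Agent.MP_5168f5_an.AN.GAAll
import Pool.Agent.MP_5168f5_an.R4.Api

/-! The small ball bound with a base point from the bound at nearby constant depths. -/

namespace Pool.Agent.MP_5168f5_an.AN.TG

open H19 H17S H17F G39 GA Filter H61Z

namespace TGFinA

variable {κ : Type} [Fintype κ]

theorem rat {C η ρ ε : ℝ} (hη : 0 < η) (hρ : 0 ≤ ρ) (hC : 0 ≤ C) (hε : 0 < ε) :
    ∃ η' ρ' : ℚ, 0 < η' ∧ (η' : ℝ) < η ∧ ρ < ρ' ∧ C * ρ' / η' ≤ C * ρ / η + ε := by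
  have t : ContinuousAt (fun δ : ℝ => C * (ρ + δ) * (1 + δ) / η) 0 := by fun_prop
  have e := (t.eventually (gt_mem_nhds (show C * (ρ + 0) * (1 + 0) / η < C * ρ / η + ε by
    simp [hε]))).filter_mono (nhdsWithin_le_nhds (s := Set.Ioi 0))
  obtain ⟨δ, h1, h2⟩ := (e.and self_mem_nhdsWithin).exists
  have h2 : 0 < δ := h2
  obtain ⟨η', a1, a2⟩ := exists_rat_btwn (div_lt_self hη (show 1 < 1 + δ by linarith))
  obtain ⟨ρ', b1, b2⟩ := exists_rat_btwn (show ρ < ρ + δ by linarith)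
  have a0 : 0 < η / (1 + δ) := by positivity
  refine ⟨η', ρ', by exact_mod_cast a0.trans a1, a2, b1, le_trans ?_ h1.le⟩
  rw [mul_div_assoc (C * (ρ + δ)), ← inv_div η, ← div_eq_mul_inv]
  exact div_le_div₀ (by positivity) (mul_le_mul_of_nonneg_left b2.le hC) a0 a1.le

/-- The test form at the deeper radii. -/
theorem tst {c : κ → κ → κ → ℝ} {r r' l : κ → ℝ} {S : κ → Prop} {τ τ' L μ : ℝ}
    (h : Tst c r S τ l) (p : ∀ a, 0 < r a) (p' : ∀ a, 0 < r' a) (hL : ∀ a, r' a / r a ≤ L)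
    (hμ : 0 < μ) (lo : ∀ a, S a → μ ≤ r' a / r a) (e : L * L * τ ≤ μ * τ') (t0 : 0 ≤ τ') :
    μ ≤ ‖fun a => l a * (r' a / r a)‖ ∧
      Tst c r' S τ' fun a => l a * (r' a / r a) / ‖fun a => l a * (r' a / r a)‖ := by
  obtain ⟨g, hg⟩ : ∃ g, g = fun a => l a * (r' a / r a) := ⟨_, rfl⟩
  obtain ⟨a0, h0⟩ := h.one
  have w0 : ∀ a, 0 < r' a / r a := fun a => div_pos (p' a) (p a)
  have s0 : S a0 := by
    by_contra u
    rw [h.sup a0 u, abs_zero] at h0
    exact zero_ne_one h0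
  have m1 : μ ≤ ‖g‖ := by
    refine le_trans ?_ (norm_le_pi_norm g a0)
    rw [hg, Real.norm_eq_abs, abs_mul, h0, one_mul, abs_of_pos (w0 a0)]
    exact lo a0 s0
  have m0 := hμ.trans_le m1
  obtain ⟨a1, -, h1⟩ := Finset.exists_max_image Finset.univ (fun a => |g a|)
    ⟨a0, Finset.mem_univ _⟩
  have m2 : |g a1| = ‖g‖ := le_antisymm (norm_le_pi_norm g a1)
    ((pi_norm_le_iff_of_nonneg (abs_nonneg _)).2 fun a => h1 a (Finset.mem_univ _))
  have eg : ∀ a, l a * (r' a / r a) = g a := fun a => by rw [hg]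
  rw [← hg]
  simp only [eg]
  refine ⟨m1, fun a u => by rw [← eg, h.sup a u, zero_mul, zero_div], fun a => ?_,
    ⟨a1, by rw [abs_div, m2, abs_of_pos m0, div_self m0.ne']⟩, fun a b => ?_⟩
  · rw [abs_div, abs_of_pos m0, div_le_one m0]; exact norm_le_pi_norm g a
  · have k : ∑ e, sC r' c a b e * (g e / ‖g‖) =
        r' a / r a * (r' b / r b) * (∑ e, sC r c a b e * l e) / ‖g‖ := by
      rw [Finset.mul_sum, Finset.sum_div]
      refine Finset.sum_congr rfl fun e _ => ?_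
      have := (p a).ne'
      have := (p b).ne'
      have := (p e).ne'
      have := (p' e).ne'
      rw [← eg]; simp only [sC]; field_simp
    have l0 := (w0 a).le.trans (hL a)
    rw [k, abs_div, abs_of_pos m0, div_le_iff₀ m0, abs_mul, abs_of_pos (mul_pos (w0 a) (w0 b))]
    calc _ ≤ L * L * τ := mul_le_mul (mul_le_mul (hL a) (hL b) (w0 b).le l0) (h.kill a b)
          (abs_nonneg _) (mul_nonneg l0 l0)
      _ ≤ μ * τ' := e
      _ ≤ _ := by rw [mul_comm]; exact mul_le_mul_of_nonneg_left m1 t0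

theorem inf {W α β γ γ' T : Type} (Q : FP W) (b : W → β) (j : W → α) (Θ : W → T) (f : α → γ)
    (f' : α → γ') : mi Q (fun v => (b v, f' (j v))) j (fun v => (f' (j v), Θ v)) ≤
      mi Q b j (fun v => (f (j v), Θ v)) + ch Q (fun v => f (j v)) fun v => f' (j v) := by
  have a1 : ch Q (fun v => (b v, f' (j v))) (fun v => (f' (j v), Θ v)) ≤
      ch Q b fun v => (f' (j v), Θ v) := ch_mono ((Fn.fst _ _).pair ((Fn.fst _ _).right _))
  have a2 := ch_tri' (P := Q) b (fun v => (f' (j v), Θ v)) fun v => (f (j v), Θ v)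
  have a3 : ch Q (fun v => (f (j v), Θ v)) (fun v => (f' (j v), Θ v)) ≤
      ch Q (fun v => f (j v)) fun v => f' (j v) :=
    ch_le ((Fn.fst _ _).pair ((Fn.snd _ _).right _)) (Fn.fst _ _)
  have a4 : ch Q b (fun v => (j v, f (j v), Θ v)) ≤
      ch Q (fun v => (b v, f' (j v))) fun v => (j v, f' (j v), Θ v) :=
    ch_le ((Fn.fst _ _).left _) ((Fn.fst _ _).pair (((Fn.comp f' j).left _).pair
      ((Fn.snd _ _).right _)))
  unfold mi
  linarith

end TGFinA

open TGFinA in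
theorem tgFin : OfFin := by
  intro ref lip ι κ _ _ _ Φ om pos x g0 D S C hC gd hK hd W β Q π b p l c0 η ρ hη hρ bs ts hi ε hε
  have hM := g0.alg.big
  obtain ⟨η', ρ', e0, e1, e2, e3⟩ := rat hη hρ hC (show 0 < ε / 4 by positivity)
  obtain ⟨σ, hσ⟩ : ∃ σ : ℝ, σ = (η - η') / 3 := ⟨_, rfl⟩
  have σ0 : 0 < σ := by rw [hσ]; linarith
  obtain ⟨d, d1, d2, d3⟩ := hd σ σ0
  obtain ⟨L0, s0, w0⟩ := bs.near
  obtain ⟨L1, h1⟩ : ∃ L1 : ℕ → ℝ, L1 = fun n =>
    Real.exp (∑ a, max 0 (D n a - sc (x n).M d a)) := ⟨_, rfl⟩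
  have s1 : Sub (un x) L1 := h1 ▸ Sub.exp (Sm.sum _ fun a _ s hs => (d1 a s hs).mono fun n u =>
    max_le (by positivity) (by linarith)) fun n => Finset.sum_nonneg fun _ _ => le_max_left _ _
  have rw1 : ∀ n a, rA (sc (x n).M d) a / rA (D n) a = Real.exp (D n a - sc (x n).M d a) :=
    fun n a => by simp only [rA]; rw [← Real.exp_sub]; congr 1; ring
  have l1 : ∀ n a, rA (sc (x n).M d) a / rA (D n) a ≤ L1 n := fun n a => by
    rw [rw1, h1]
    exact Real.exp_le_exp.2 ((le_max_right 0 _).trans (Finset.single_le_sum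
      (f := fun a => max 0 (D n a - sc (x n).M d a)) (fun _ _ => le_max_left _ _)
      (Finset.mem_univ a)))
  obtain ⟨L', s', lp⟩ := lip ι κ Φ om pos x g0 D _ gd hK (s0.add s1 hM)
  obtain ⟨K, -, ce⟩ := sCell Φ.N (Fintype.card κ)
  have s2 := (s'.add (hM.sub le_rfl) hM).add (s1.mul s1) hM
  filter_upwards [d3 η' ρ' e0 (by exact_mod_cast hρ.trans e2.le) (ε / 4) (by positivity),
    w0 (ε / 4) (by positivity), bs.law, ts, g0.alg.fr, g0.unit, lp 0, s2.2 σ σ0,
    (hi.add (ref ι κ Φ om pos x g0 D _ gd d1)) (ρ' - ρ) (by linarith),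
    eventually_all.2 fun a => (em (S a)).elim (fun u => (d2 a u σ σ0).mono fun n v (_ : S a) => v)
      fun u => Eventually.of_forall fun n v => absurd v u] with n ac wn law tn fr un ln sn hn dn
  have mu := sMul ι κ Φ _ _ fr
  have r0 : ∀ (E : κ → ℝ) a, 0 < rA E a := fun E a => Real.exp_pos _
  have nu : (L' n + 1 + L1 n * L1 n) * Real.exp (-(η * (x n).M)) ≤
      Real.exp (-(2 * σ * (x n).M)) * Real.exp (-(η' * (x n).M)) := by
    refine (mul_le_mul_of_nonneg_right sn (Real.exp_pos _).le).trans (le_of_eq ?_)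
    rw [← Real.exp_add, ← Real.exp_add, show η = η' + 3 * σ by rw [hσ]; ring]
    congr 1; ring
  have τ0 := Real.exp_pos (-(η * (x n).M))
  have p1 := s1.pos n
  have p' := s'.pos n
  have tt := fun v hv => tst (τ' := Real.exp (-(η' * (x n).M))) (tn v hv) (r0 _) (r0 _) (l1 n)
    (Real.exp_pos (-(2 * σ * (x n).M))) (fun a u => by
      rw [rw1]; exact Real.exp_le_exp.2 (by linarith [dn a u]))
    (le_trans (mul_le_mul_of_nonneg_right (by linarith) τ0.le) nu) (Real.exp_pos _).le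
  have k := ac (W n) (β n × Mt ι) (Q n) (π n) (fun v => (b n v, (x n).C (sc (x n).M d) (π n v)))
    (fun u a => l n u.1 a * (rA (sc (x n).M d) a / rA (D n) a) /
      ‖fun a => l n u.1 a * (rA (sc (x n).M d) a / rA (D n) a)‖)
    (fun u => (c0 n u.1 - ∑ a, l n u.1 a * (lg (x n).B (p n u.1) u.2 a / rA (D n) a)) /
      ‖fun a => l n u.1 a * (rA (sc (x n).M d) a / rA (D n) a)‖) law (fun v hv => (tt v hv).2) (by
      have a1 := inf (Q n) (b n) (fun v => (x n).j (π n v)) (fun v => (x n).Θ (π n v))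
        (cell (x n).B (rA (D n))) (cell (x n).B (rA (sc (x n).M d)))
      have a2 := law.ch_id ((x n).C (D n)) ((x n).C (sc (x n).M d))
      refine a1.trans ?_
      refine (add_le_add le_rfl a2.le).trans (hn.trans (le_of_eq ?_))
      simp only [TG.un]; ring)
  refine ((pb_mono fun v hv u => ?_).trans (pb_or _ _ _)).trans
    ((add_le_add k wn).trans (by linarith))
  refine (em _).imp_left fun nr => ?_
  have uj := un _ (law.mem hv)
  obtain ⟨t, bt, et⟩ := (ce ι κ Φ _ _ (rA (sc (x n).M d)) (rA (sc (x n).M d)) 1 rfl le_rfl fr le_rfl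
    fun a => ⟨r0 _ a, (one_mul _).ge⟩).1 ((x n).j (π n v))
  have iv : ∀ (y : Mt ι) t, (x n).j (π n v) = y * ex (x n).B t →
      y = (x n).j (π n v) * ex (x n).B (-t) ∧ IsUnit y := fun y t e => by
    have : y = (x n).j (π n v) * ex (x n).B (-t) := by rw [e, mul_assoc, (mu.neg t).2, mul_one]
    exact ⟨this, this ▸ uj.mul ⟨⟨_, _, (mu.neg t).1, (mu.neg t).2⟩, rfl⟩⟩
  obtain ⟨ey, uy⟩ := iv _ t et
  obtain ⟨t', bt', et'⟩ := nr
  have p0 := s0.pos n
  have q := (ln (p n (b n v)) ((x n).j (π n v)) _ (iv _ t' et').2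
    ⟨t', fun a => (bt' a).trans (mul_le_mul_of_nonneg_right (by linarith) (r0 _ a).le), et'⟩
    ⟨-t, fun a => by
      have a1 := (div_le_iff₀ (r0 _ a)).1 (l1 n a)
      have a2 := bt a
      have a3 := mul_pos p0 (r0 (D n) a)
      rw [Pi.neg_apply, abs_neg]; linarith, ey⟩).2 (l n (b n v)) _ τ0.le (tn v hv).le (tn v hv).kill
  have g1 : lg (x n).B ((x n).j (π n v)) (cell (x n).B (rA (sc (x n).M d)) ((x n).j (π n v))) =
      -t := by
    have := mu.lg _ (-t) uj
    rwa [← ey] at this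
  have g2 : lg (x n).B (cell (x n).B (rA (sc (x n).M d)) ((x n).j (π n v))) ((x n).j (π n v)) =
      t := by
    have := mu.lg _ t uy
    rwa [← et] at this
  have m1 := (tt v hv).1
  have m0 := (Real.exp_pos _).trans_le m1
  simp only [Sy.co, Sy.C, g1, g2] at q u ⊢
  generalize ‖fun a => l n (b n v) a * (rA (sc (x n).M d) a / rA (D n) a)‖ = m at m0 m1 ⊢
  have k1 : ∑ a, l n (b n v) a * (rA (sc (x n).M d) a / rA (D n) a) / m *
      (t a / rA (sc (x n).M d) a) = -(∑ a, l n (b n v) a * ((-t) a / rA (D n) a)) / m := by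
    rw [← Finset.sum_neg_distrib, Finset.sum_div]
    refine Finset.sum_congr rfl fun a _ => ?_
    have := (r0 (sc (x n).M d) a).ne'
    rw [Pi.neg_apply]; field_simp
  rw [k1, ← sub_div, abs_div, abs_of_pos m0, div_le_iff₀ m0]
  have q1 := abs_le.1 q
  have u1 := abs_le.1 u
  have z1 := mul_le_mul_of_nonneg_right m1 (Real.exp_pos (-(η' * (x n).M))).le
  have z2 := mul_pos (mul_pos p1 p1) τ0
  exact abs_le.2 ⟨by linarith, by linarith⟩

end Pool.Agent.MP_5168f5_an.AN.TG
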