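import Pool.Agent.MP_5168f5_an.AN.TGSpec
import Pool.Agent.MP_5168f5_an.AN.G39Ch

/-! Kakeya sets in all dimensions: the context of a system can be frozen. -/

namespace Pool.Agent.MP_5168f5_an.AN.TG

open H19 H17S H17F G39 GA Filter H61Z

namespace TGFrzA

section Fin

variable {Ω T α γ : Type} {W : T → Type} (P : FP Ω) (Θ : Ω → T) (Q : ∀ θ, FP (W θ))

theorem ex_ge (f : Ω → ℝ) : ∃ ω ∈ P.S, P.E f ≤ f ω := by
  obtain ⟨a, ha, -⟩ := ex_of_pb (P := P) (E := fun _ => True) (by rw [pb_true]; exact one_pos)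
  obtain ⟨ω, h, e⟩ := P.S.exists_max_image f ⟨a, ha⟩
  exact ⟨ω, h, (P.E_mono e).trans_eq (P.E_const _)⟩

theorem ex_le (f : Ω → ℝ) : ∃ ω ∈ P.S, f ω ≤ P.E f := by
  obtain ⟨ω, h, e⟩ := ex_ge P fun ω => -f ω
  rw [P.E_neg] at e
  exact ⟨ω, h, neg_le_neg_iff.1 e⟩

theorem ent {F : Ω → α} {G : Ω → γ} (h : Fn P Θ G) :
    ch P F G = P.E fun ω => ch (cv P Θ (Θ ω)) F G :=
  (ch_congr (Fn.fst _ _) (Fn.fst _ _) (Fn.fst _ _) ((Fn.rfl G).pair h)).trans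
    (R4.ke.ent P Θ (fun _ => F) fun _ => G)

/-- A point of `P` followed by a point of the space attached to its context. -/
noncomputable def db : FP (Σ ω : Ω, W (Θ ω)) where
  S := P.S.sigma fun ω => (Q (Θ ω)).S
  p := fun v => P.p v.1 * (Q (Θ v.1)).p v.2
  pos := fun v hv => mul_pos (P.pos _ (Finset.mem_sigma.1 hv).1)
    ((Q _).pos _ (Finset.mem_sigma.1 hv).2)
  sum_one := by
    rw [Finset.sum_sigma, ← P.sum_one]
    refine Finset.sum_congr rfl fun ω _ => ?_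
    dsimp only
    rw [← Finset.mul_sum, FP.sum_one, mul_one]

theorem E_db (F : (Σ ω : Ω, W (Θ ω)) → ℝ) :
    (db P Θ Q).E F = P.E fun ω => (Q (Θ ω)).E fun w => F ⟨ω, w⟩ := by
  simp only [FP.E, db]
  rw [Finset.sum_sigma]
  refine Finset.sum_congr rfl fun ω _ => ?_
  rw [Finset.mul_sum]
  exact Finset.sum_congr rfl fun _ _ => mul_assoc _ _ _

/-- Forget the first point. -/
abbrev u (v : Σ ω : Ω, W (Θ ω)) : Σ θ, W θ := ⟨Θ v.1, v.2⟩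

theorem law_db {v : Σ ω : Ω, W (Θ ω)} (hv : v ∈ (db P Θ Q).S) :
    Law (cv (db P Θ Q) (fun v => Θ v.1) (Θ v.1)) (u Θ) (Q (Θ v.1)) (Sigma.mk (Θ v.1)) := by
  classical
  intro F
  have h0 : 0 < pb (db P Θ Q) fun v' => Θ v'.1 = Θ v.1 := pb_pos _ ⟨v, hv, rfl⟩
  generalize Θ v.1 = θ at h0 ⊢
  have k : ∀ F : (Σ θ, W θ) → ℝ, (db P Θ Q).E (fun v => if Θ v.1 = θ then F (u Θ v) else 0) =
      pb P (fun ω => Θ ω = θ) * (Q θ).E fun w => F ⟨θ, w⟩ := fun F => by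
    rw [E_db, mul_comm, pb, ← P.E_mul]
    refine P.E_congr fun ω _ => ?_
    by_cases e : Θ ω = θ
    · subst e
      simp
    · simp [e, FP.E_const]
  have k1 := k fun _ => 1
  rw [FP.E_const, mul_one] at k1
  refine mul_left_cancel₀ h0.ne' ?_
  rw [cv, E_cE, ← show _ = pb (db P Θ Q) fun v' => Θ v'.1 = θ from k1.symm.trans (by
    unfold pb; congr!), ← k]

theorem ch_db (F : (Σ θ, W θ) → α) (K : (Σ θ, W θ) → γ)
    (h : Fn (db P Θ Q) (fun v => Θ v.1) fun v => K (u Θ v)) :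
    ch (db P Θ Q) (fun v => F (u Θ v)) (fun v => K (u Θ v)) =
      P.E fun ω => ch (Q (Θ ω)) (fun w => F ⟨_, w⟩) fun w => K ⟨_, w⟩ := by
  rw [ent _ _ h, FP.E_congr _ fun v hv => (law_db P Θ Q hv).ch_eq F K, E_db]
  exact P.E_congr fun ω _ => (Q (Θ ω)).E_const
    (ch (Q (Θ ω)) (fun w => F ⟨_, w⟩) fun w => K ⟨_, w⟩)

end Fin

variable {ι κ : Type} [Fintype ι] [DecidableEq ι] [Fintype κ]

/-- The system with frozen context. -/
noncomputable abbrev fz (z : Sy ι κ) (θ : z.T) : Sy ι κ := z.cond fun ω => z.Θ ω = θ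

theorem fH (z : Sy ι κ) (D D' : κ → ℝ) : ∃ ω ∈ z.P.S, z.H D D' ≤ (fz z (z.Θ ω)).H D D' := by
  rw [Sy.H, ent z.P z.Θ (G := z.Z D) (Fn.snd _ _)]
  exact ex_ge _ _

theorem fAC (z : Sy ι κ) {D : κ → ℝ} {S : κ → Prop} {η ρ q : ℝ} (h : z.AC D S η ρ q) :
    ∃ ω ∈ z.P.S, (fz z (z.Θ ω)).AC D S η ρ q := by
  by_contra k
  have : ∀ θ : z.T, ∃ (W β : Type) (Q : FP W) (π : W → z.Ω) (b : W → β) (l : β → κ → ℝ)
      (c0 : β → ℝ), (∃ ω ∈ z.P.S, z.Θ ω = θ) → Law Q π (cv z.P z.Θ θ) id ∧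
      (∀ v ∈ Q.S, Tst z.c (rA D) S (Real.exp (-η)) (l (b v))) ∧
      mi Q b (fun v => z.j (π v)) (fun v => z.Z D (π v)) ≤ ρ ∧
      q < pb Q fun v => |∑ a, l (b v) a * z.co D (z.C D (π v)) (π v) a - c0 (b v)| ≤
        Real.exp (-η) := fun θ => by
    by_cases e : ∃ ω ∈ z.P.S, z.Θ ω = θ
    · obtain ⟨ω, hω, rfl⟩ := e
      by_contra k'
      refine k ⟨ω, hω, fun W β Q π b l c0 h1 h2 h3 => ?_⟩
      by_contra h4
      exact k' ⟨W, β, Q, π, b, l, c0, fun _ => ⟨h1, h2, h3, not_le.1 h4⟩⟩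
    · exact ⟨z.Ω, Unit, z.P, id, fun _ => (), 0, 0, fun u => absurd u e⟩
  choose W β Q π b l c0 H using this
  replace H := fun ω hω => H _ ⟨ω, hω, rfl⟩
  have m : ∀ v ∈ (db z.P z.Θ Q).S, z.Θ (π _ v.2) = z.Θ v.1 := fun v hv =>
    ((mem_cE (E := fun ω => z.Θ ω = z.Θ v.1) ⟨v.1, (Finset.mem_sigma.1 hv).1, rfl⟩ _).1
      ((H _ (Finset.mem_sigma.1 hv).1).1.mem (Finset.mem_sigma.1 hv).2)).2
  have c : ∀ {γ : Type} (K : z.Ω → γ), (∀ a a', K a = K a' → z.Θ a = z.Θ a') →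
      ch (db z.P z.Θ Q) (fun v => (⟨_, b _ v.2⟩ : Σ θ, β θ)) (fun v => K (π _ v.2)) =
        z.P.E fun ω => ch (Q (z.Θ ω)) (b _) fun w => K (π _ w) := fun K hK =>
    (ch_db z.P z.Θ Q (fun s => (⟨_, b _ s.2⟩ : Σ θ, β θ)) (fun s => K (π _ s.2))
      fun v hv v' hv' e => by
        simp only [← m v hv, ← m v' hv']
        exact hK _ _ e).trans (z.P.E_congr fun ω _ => ch_congr
      (fun _ _ _ _ e => congrArg _ (congrArg Prod.fst e))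
      (fun _ _ _ _ e => sigma_mk_injective (congrArg Prod.fst e)) (Fn.rfl _) (Fn.rfl _))
  have := h _ (Σ θ, β θ) (db z.P z.Θ Q) (fun v => π _ v.2) (fun v => ⟨_, b _ v.2⟩)
    (fun s => l _ s.2) (fun s => c0 _ s.2) (fun F => by
      rw [E_db, R4.ke.exp z.P z.Θ fun _ ω => F (id ω)]
      exact z.P.E_congr fun ω hω => (H ω hω).1 F)
    (fun v hv => (H _ (Finset.mem_sigma.1 hv).1).2.1 _ (Finset.mem_sigma.1 hv).2) (by
      rw [mi, c (z.Z D) fun _ _ e => congrArg Prod.snd e,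
        c (fun ω => (z.j ω, z.Z D ω)) fun _ _ e => congrArg (fun s => s.2.2) e, ← FP.E_sub]
      exact (z.P.E_mono fun ω hω => (H ω hω).2.2.1).trans_eq (z.P.E_const _))
  rw [pb, E_db] at this
  obtain ⟨ω, hω, e⟩ := ex_le z.P _
  exact ((H ω hω).2.2.2.trans_le (e.trans this)).false

variable {Φ : Filt (Mt ι)} {om : κ → ℝ × ℝ} {pos : κ → Prop} {C : ℝ} {x : ℕ → Sy ι κ}

theorem key (hc : SCond) (hx : GS Φ om pos C x) (p : Sy ι κ → Prop)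
    (hp : ∀ y, GS Φ om pos C y → ∀ᶠ n in UF, ∃ ω ∈ (y n).P.S, p (fz (y n) ((y n).Θ ω))) :
    Whp (pr x) fun n ω => p (fz (x n) ((x n).Θ ω)) := by
  by_contra k
  have h := not_whp k
  obtain ⟨n, ⟨ω, hω, a⟩, b⟩ := ((hp _ (hc ι κ Φ om pos x C hx _ h)).and h.sure).exists
  refine (b ω hω).2 ?_
  have e : cE (cE (x n).P fun ω => ¬p (fz (x n) ((x n).Θ ω))) (fun v => (x n).Θ v = (x n).Θ ω) =
      cE (x n).P fun v => (x n).Θ v = (x n).Θ ω := by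
    refine (cE_cE ?_).trans (cE_congr fun v _ => ⟨fun u => u.2, fun u => ⟨?_, u⟩⟩)
    · exact ⟨ω, (b ω hω).1, (b ω hω).2, rfl⟩
    · rw [u]
      exact (b ω hω).2
  simp only [fz, Sy.cond] at a ⊢
  rwa [e] at a

/-- The conditions with rational parameters. -/
def Cn (om : κ → ℝ × ℝ) (pos : κ → Prop) (C : ℝ) (i : Bool × (ℚ × ℚ) × ℚ × ℚ × ℕ) (z : Sy ι κ) :
    Prop := 0 ≤ i.2.1.1 → 0 ≤ i.2.1.2 → 0 ≤ i.2.2.1 →
  cd (fun a => pos a ∧ Pu om i.1 a) * i.2.2.1 * z.M ≤ z.H (sc z.M (dep om (i.2.1.1, i.2.1.2)))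
    (sc z.M (up (dep om (i.2.1.1, i.2.1.2)) i.2.2.1 fun a => pos a ∧ Pu om i.1 a)) +
      1 / (i.2.2.2.2 + 1 : ℝ) * z.M ∧
  (0 < i.2.2.2.1 → z.AC (sc z.M (dep om (i.2.1.1, i.2.1.2))) (Pu om i.1) (i.2.2.2.1 * z.M)
    (i.2.2.1 * z.M) (C * i.2.2.1 / i.2.2.2.1 + 1 / (i.2.2.2.2 + 1 : ℝ)))

theorem whp_cn (hc : SCond) (hx : GS Φ om pos C x) (i : Bool × (ℚ × ℚ) × ℚ × ℚ × ℕ) :
    Whp (pr x) fun n ω => Cn om pos C i (fz (x n) ((x n).Θ ω)) := by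
  obtain ⟨k, t, r, η, m⟩ := i
  by_cases h : 0 ≤ t.1 ∧ 0 ≤ t.2 ∧ 0 ≤ r
  swap
  · exact Whp.of_ev (Eventually.of_forall fun n _ _ a b c => absurd ⟨a, b, c⟩ h)
  have a : (0 : ℝ) ≤ t.1 := by exact_mod_cast h.1
  have b : (0 : ℝ) ≤ t.2 := by exact_mod_cast h.2.1
  have c : (0 : ℝ) ≤ r := by exact_mod_cast h.2.2
  have h1 := key hc hx (fun z => cd (fun a => pos a ∧ Pu om k a) * r * z.M ≤
      z.H (sc z.M (dep om (t.1, t.2))) (sc z.M (up (dep om (t.1, t.2)) r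
        fun a => pos a ∧ Pu om k a)) + 1 / (m + 1 : ℝ) * z.M) fun y hy =>
    (hy.f k (t.1, t.2) r a b c _ (by positivity)).mono fun n e =>
      (fH (y n) _ _).imp fun ω u => ⟨u.1, e.trans (add_le_add_left u.2 _)⟩
  by_cases h' : 0 < η
  · exact (h1.and (key hc hx (fun z => z.AC (sc z.M (dep om (t.1, t.2))) (Pu om k) (η * z.M)
      (r * z.M) (C * r / η + 1 / (m + 1 : ℝ))) fun y hy =>
        (hy.ac k (t.1, t.2) η r a b (by exact_mod_cast h') c _ (by positivity)).mono fun n e =>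
          fAC (y n) e)).mono (Eventually.of_forall fun n ω _ u _ _ _ => ⟨u.1, fun _ => u.2⟩)
  · exact h1.mono (Eventually.of_forall fun n ω _ u _ _ _ => ⟨u, fun v => absurd v h'⟩)

end TGFrzA

open TGFrzA in
theorem tgFrz : OfFrz := by
  intro hc hr ι κ _ _ _ Φ om pos x C hx G hG
  obtain ⟨f, hf⟩ := exists_surjective_nat (Bool × (ℚ × ℚ) × ℚ × ℚ × ℕ)
  obtain ⟨k, hk, e⟩ := whp_diag fun j => whp_cn hc hx (f j)
  have : ∀ n, Nonempty (x n).Ω := fun n => (ex_ge (x n).P 0).elim fun ω _ => ⟨ω⟩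
  have e1 := (hG.and e).ex
  let ω : ∀ n, (x n).Ω := fun n => Classical.epsilon fun ω => ω ∈ (x n).P.S ∧ G n ((x n).Θ ω) ∧
    ∀ j ≤ k n, Cn om pos C (f j) (fz (x n) ((x n).Θ ω))
  have e2 : ∀ᶠ n in UF, ω n ∈ (x n).P.S ∧ G n ((x n).Θ (ω n)) ∧
      ∀ j ≤ k n, Cn om pos C (f j) (fz (x n) ((x n).Θ (ω n))) :=
    e1.mono fun n u => Classical.epsilon_spec u
  have e3 : ∀ i, ∀ᶠ n in UF, Cn om pos C i (fz (x n) ((x n).Θ (ω n))) := fun i => by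
    obtain ⟨j, rfl⟩ := hf i
    filter_upwards [e2, hk.ev j] with n u v using u.2.2 j (by exact_mod_cast v)
  refine ⟨fun n => (x n).Θ (ω n), e2.mono fun n u => ⟨u.2.1, _, u.1, rfl⟩, hr ι κ Φ om pos _ C
    ⟨⟨hx.alg, hx.unit.mono fun n u v hv => u v (cE_sub hv)⟩, hx.one, ?_, ?_⟩⟩
  · intro k t r a b c ε hε
    obtain ⟨m, hm⟩ := exists_nat_one_div_lt hε
    exact (e3 (k, t, r, 0, m)).mono fun n u => (u a b c).1.trans
      (add_le_add_right (mul_le_mul_of_nonneg_right hm.le (Nat.cast_nonneg _)) _)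
  · intro k t η ρ a b c d ε hε
    obtain ⟨m, hm⟩ := exists_nat_one_div_lt hε
    exact (e3 (k, t, ρ, η, m)).mono fun n u W β Q π s l c0 h1 h2 h3 =>
      ((u a b d).2 c W β Q π s l c0 h1 h2 h3).trans (add_le_add_right hm.le _)

end Pool.Agent.MP_5168f5_an.AN.TG
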