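import Pool.Agent.MP_5168f5_an.AN.TGSpec
import Pool.Agent.MP_5168f5_an.AN.GAIdR

/-! Good depths. -/

namespace Pool.Agent.MP_5168f5_an.AN.TG

open H19 H17S H17F G39 GA Filter H61Z

namespace TGGdA

variable {ι κ : Type} [Fintype ι] [DecidableEq ι] [Fintype κ] {Φ : Filt (Mt ι)} {om : κ → ℝ × ℝ}
  {pos : κ → Prop} {x : ℕ → Sy ι κ}

theorem gen (h : G0 Φ om pos x) {D : ℕ → κ → ℝ}
    (hb : ∀ a, ∃ K : ℝ, ∀ᶠ n in UF, 0 ≤ D n a ∧ D n a ≤ K * (x n).M)
    (hD : ∀ a b e, Neg (un x) (fun n => (x n).c a b e) ∨ ∀ᶠ n in UF, D n e ≤ D n a + D n b) :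
    Gd x D := by
  obtain ⟨L, s, hL⟩ := ob_bound h.alg.big (J := κ × κ × κ) (f := fun j n => (x n).c j.1 j.2.1 j.2.2)
    fun j => h.alg.ob _ _ _
  have k : ∀ᶠ n in UF, Idl (x n).c (rA (D n)) (rA (D n)) (L n) := by
    refine eventually_all.2 fun a => eventually_all.2 fun b => eventually_all.2 fun e => ?_
    simp only [rA, mul_assoc, ← Real.exp_add]
    rcases hD a b e with k | k
    · obtain ⟨K, he⟩ := hb e
      obtain ⟨_, ha⟩ := hb a
      obtain ⟨_, hb⟩ := hb b
      filter_upwards [k K, he, ha, hb] with n u he ha hb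
      refine (mul_le_mul_of_nonneg_right u (Real.exp_pos _).le).trans
        (le_trans ?_ (le_mul_of_one_le_left (Real.exp_pos _).le (s.1 n)))
      rw [dl, ← Real.exp_add]
      exact Real.exp_le_exp.2 (by linarith [he.2, ha.1, hb.1])
    · exact k.mono fun n u => mul_le_mul (hL n (a, b, e)) (Real.exp_le_exp.2 (by linarith))
        (Real.exp_pos _).le (s.pos n).le
  exact ⟨L, s, k.mono fun n u => ⟨fun a => ⟨Real.exp_pos _,
    le_mul_of_one_le_left (Real.exp_pos _).le (s.1 n)⟩, u, u⟩⟩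

theorem upS (h : G0 Φ om pos x) {t : ℕ → ℝ × ℝ} {r : ℕ → ℝ} (ht : Lv x t) (hr : Ln x r)
    (S : κ → Prop) (h1 : ∀ a, S a → om a ≠ 0)
    (h2 : ∀ a b e, Hm om a b e → ¬S a → ¬S b → S e → Neg (un x) fun n => (x n).c a b e) :
    Gd x fun n => up (dep om (t n)) (r n) S := by
  obtain ⟨K, ht⟩ := ht
  obtain ⟨K', hr⟩ := hr
  have w := h.alg.wt
  have k : ∀ a, ∀ᶠ n in UF, 0 ≤ up (dep om (t n)) (r n) S a ∧
      up (dep om (t n)) (r n) S a ≤ (((om a).1 + (om a).2) * K + K') * (x n).M := fun a => by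
    filter_upwards [ht, hr] with n ⟨a₁, a₂, a₃, a₄⟩ ⟨b₁, b₂⟩
    have := mul_nonneg (w a).1 a₁
    have := mul_nonneg (w a).2 a₃
    have := mul_le_mul_of_nonneg_left a₂ (w a).1
    have := mul_le_mul_of_nonneg_left a₄ (w a).2
    unfold up dep
    split_ifs <;> constructor <;> linarith
  refine gen h (fun a => ⟨_, k a⟩) fun a b e => ?_
  by_cases z : om e = 0
  · refine Or.inr (((k a).and (k b)).mono fun n u => le_trans (le_of_eq ?_) (add_nonneg u.1.1 u.2.1))
    simp [up, dep, z, mt (h1 e) (not_not.2 z)]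
  by_cases y : Hm om a b e
  · by_cases u : ¬S a ∧ ¬S b ∧ S e
    · exact Or.inl (h2 a b e y u.1 u.2.1 u.2.2)
    · refine Or.inr (hr.mono fun n v => ?_)
      have : dep om (t n) e = dep om (t n) a + dep om (t n) b := by
        simp only [dep, y.2.2, Prod.fst_add, Prod.snd_add]
        ring
      unfold up
      split_ifs <;> first | linarith [v.1] | tauto
  · exact Or.inl (h.alg.hom a b e z y)

theorem pure (w : ∀ a, 0 ≤ (om a).1 ∧ 0 ≤ (om a).2) {k : Bool} {a b e : κ} (y : Hm om a b e)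
    (h : Pu om k e) : Pu om k a ∧ Pu om k b := by
  obtain ⟨a₀, b₀, y⟩ := y
  have := w a
  have := w b
  have := congrArg Prod.fst y
  have := congrArg Prod.snd y
  cases k <;> simp only [Pu, P1, P2, cond, Ne, Prod.ext_iff, Prod.fst_add, Prod.snd_add,
    Prod.fst_zero, Prod.snd_zero] at * <;> grind

end TGGdA

open TGGdA in
theorem tgGd : SGd := fun _ κ _ _ _ Φ om pos x h =>
  ⟨fun d hd => gaIdR κ _ _ d d h.alg.big h.alg.ob hd hd fun _ => le_rfl, fun t r ht hr =>
    ⟨by simpa only [show ∀ d r, up d r (fun _ : κ => False) = d from fun _ _ =>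
        funext fun _ => if_neg id] using upS h ht hr (fun _ => False) nofun nofun,
      upS h ht hr pos h.alg.live fun a b e _ => h.alg.sub a b e, fun k =>
      upS h ht hr _ (fun a u => h.alg.live a u.1) fun a b e y u v w =>
        h.alg.sub a b e (fun p => u ⟨p, (pure h.alg.wt y w.2).1⟩)
          (fun p => v ⟨p, (pure h.alg.wt y w.2).2⟩) w.1⟩⟩

end Pool.Agent.MP_5168f5_an.AN.TG
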