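import Pool.Agent.MP_5168f5_an.AN.TGSpec
import Pool.Agent.MP_5168f5_an.AN.GAAll
import Pool.Agent.MP_5168f5_an.R4.Api

/-! Two cells determine the cell of the larger depth. -/

namespace Pool.Agent.MP_5168f5_an.AN.TG

open H19 H17S H17F G39 GA Filter H61Z

namespace TGJoinA

open GACntA

variable {ι κ : Type} [Fintype ι] [DecidableEq ι] [Fintype κ]

theorem det (Φ : Filt (Mt ι)) : ∃ K K' : ℕ, 1 ≤ K ∧ 1 ≤ K' ∧ ∀ (B : κ → Mt ι)
    (c : κ → κ → κ → ℝ) (r r1 r2 : κ → ℝ) (L : ℝ) (Ω : Type) (P : FP Ω) (j : Ω → Mt ι),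
    IsFr Φ B c → (∀ ω ∈ P.S, IsUnit (j ω)) → 1 ≤ L → (∀ a, 0 < r a) → (∀ a, 0 < r1 a) →
    (∀ a, 0 < r2 a) → Idl c r r L → Idl c r1 r1 L → Idl c r2 r2 L →
    (∀ a, r1 a ≤ L * r a ∨ r2 a ≤ L * r a) →
    Det P (fun ω => cell B r (j ω)) (fun ω => (cell B r1 (j ω), cell B r2 (j ω)))
      ((K' * ((K * L) ^ K * L)) ^ K') := by
  obtain ⟨K, k1, hN⟩ := sNr Φ.N (Fintype.card κ)
  obtain ⟨K', k2, hC⟩ := sCell Φ.N (Fintype.card κ)
  refine ⟨K, K', k1, k2, fun B c r r1 r2 L Ω P j fr un l1 p p1 p2 i i1 i2 h a ha => ?_⟩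
  have l2 := l1.trans (le_box k1 l1)
  have l3 : L ≤ (K * L) ^ K * L := le_mul_of_one_le_left (by linarith) l2
  have key : ∀ ρ : κ → ℝ, (∀ a, 0 < ρ a) → Idl c ρ ρ L → ∀ y, cell B ρ y = cell B ρ (j a) →
      Bx ρ ((K * L) ^ K) (lg B (j a) y) ∧ y = j a * ex B (lg B (j a) y) := fun ρ q k y e => by
    have N := fun x y z => hN ι κ Φ B c ρ ρ L 1 x y z rfl le_rfl fr l1 zero_le_one
      (fun a => ⟨(q a).le, (q a).le⟩) k k
    have c1 : ∀ x, Nr B ρ L (cell B ρ x) x := fun x => nr_mono ((hC ι κ Φ B c ρ ρ 1 rfl le_rfl fr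
      le_rfl fun a => ⟨q a, (one_mul _).ge⟩).1 x) fun a => mul_le_mul_of_nonneg_right l1 (q a).le
    obtain ⟨t, t1, rfl⟩ := (N _ _ y).2.1 ((N _ _ y).1 (c1 (j a))) (e ▸ c1 y)
    rw [(sMul ι κ Φ B c fr).lg _ _ (un a ha)]
    exact ⟨t1, rfl⟩
  obtain ⟨T, t1, t2⟩ := (hC ι κ Φ B c r r _ rfl le_rfl fr (l1.trans l3) fun a =>
    ⟨p a, le_mul_of_one_le_left (p a).le (l1.trans l3)⟩).2 (idl_mono i p l3) (idl_mono i p l3) _
    (un a ha)
  refine ⟨T, by simpa [(p _).ne'] using t1, fun b _ e => ?_⟩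
  obtain ⟨a1, a2⟩ := key r1 p1 i1 _ (congrArg Prod.fst e)
  refine t2 _ ⟨_, fun k => ?_, a2⟩
  rw [mul_assoc]
  exact (h k).elim (fun u => (a1 k).trans (mul_le_mul_of_nonneg_left u (by linarith))) fun u =>
    ((key r2 p2 i2 _ (congrArg Prod.snd e)).1 k).trans (mul_le_mul_of_nonneg_left u (by linarith))

end TGJoinA

open GACntA in
theorem tgJoin : SJoin := by
  rintro ι κ _ _ _ Φ om pos x h D D₁ D₂ ⟨L0, s0, i0⟩ ⟨L1, s1, i1⟩ ⟨L2, s2, i2⟩ hD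
  obtain ⟨K, K', k1, k2, hd⟩ := TGJoinA.det (κ := κ) Φ
  obtain ⟨L3, s3, i3⟩ := (R4.sub_iff (M := un x) (p := fun n L => ∀ a,
      rA (D₁ n) a ≤ L * rA (D n) a ∨ rA (D₂ n) a ≤ L * rA (D n) a)).2 fun ε hε =>
    (eventually_all.2 fun a => hD a ε hε).mono fun n e =>
      ⟨_, Real.one_le_exp (by positivity), le_rfl, fun a => by
        have : D n a ≤ max (D₁ n a) (D₂ n a) + _ := e a
        simp only [rA, ← Real.exp_add, Real.exp_le_exp]
        rcases max_choice (D₁ n a) (D₂ n a) with u | u <;> rw [u] at this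
        exacts [Or.inl (by linarith), Or.inr (by linarith)]⟩
  have s := (s0.mul s1).mul (s2.mul s3)
  refine (sub_box h.alg.big ((sub_box h.alg.big s k1).mul s) k2).log.mono ?_
  filter_upwards [h.alg.fr, h.unit, i0, i1, i2, i3] with n fr un j0 j1 j2 j3
  have p : ∀ (d : κ → ℝ) a, 0 < rA d a := fun d a => Real.exp_pos _
  have a1 := (s0.mul s1).1 n
  have a2 := (s2.mul s3).1 n
  have b1 := le_mul_of_one_le_right (zero_le_one.trans a1) a2
  have b2 := le_mul_of_one_le_left (zero_le_one.trans a2) a1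
  have b3 := fun a => mul_le_mul_of_nonneg_right
    ((le_mul_of_one_le_left (s3.pos n).le (s2.1 n)).trans b2) (p (D n) a).le
  exact ch_det (hd _ _ _ _ _ _ _ _ _ fr un (s.1 n) (p _) (p _) (p _)
    (idl_mono j0.2.1 (p _) ((le_mul_of_one_le_right (s0.pos n).le (s1.1 n)).trans b1))
    (idl_mono j1.2.1 (p _) ((le_mul_of_one_le_left (s1.pos n).le (s0.1 n)).trans b1))
    (idl_mono j2.2.1 (p _) ((le_mul_of_one_le_right (s2.pos n).le (s3.1 n)).trans b2))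
    fun a => (j3 a).imp (·.trans (b3 a)) (·.trans (b3 a)))

end Pool.Agent.MP_5168f5_an.AN.TG
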