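import Pool.Agent.MP_5168f5_an.AN.TGSpec
import Pool.Agent.MP_5168f5_an.AN.GAAll
import Pool.Agent.MP_5168f5_an.R4.Api

/-! Side data on an event extend to the whole space. -/

namespace Pool.Agent.MP_5168f5_an.AN.TG

open H19 H17S H17F

namespace TGMixA

/-- Conditioning a two-step law on an event of the first step. -/
theorem law_bind {Ω W : Type} (P : FP Ω) (k : Ω → FP W) (E : Ω → Prop) (h : 0 < pb P E) :
    pb (bind P k) (fun v => E v.1) = pb P E ∧
      Law (cE (bind P k) fun v => E v.1) id (bind (cE P E) k) id := by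
  have h1 : pb (bind P k) (fun v => E v.1) = pb P E := by
    unfold pb
    rw [E_bind]
    refine P.E_congr fun x _ => ?_
    by_cases e : E x <;> simp only [e, if_true, if_false, FP.E_const]
  refine ⟨h1, fun F => mul_left_cancel₀ h.ne' ?_⟩
  rw [E_bind, E_cE, ← h1, E_cE, E_bind]
  refine P.E_congr fun x _ => ?_
  by_cases e : E x
  · simp only [e, if_true]
  · simp only [e, if_false]
    exact (k x).E_const 0

end TGMixA

open TGMixA R4

theorem tgMix : SMix := by
  classical
  intro Ω W β γ δ P E Q π b Y Z hp h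
  obtain ⟨v0, h0, -⟩ := ex_of_pb (P := Q) (E := fun _ => True) (by rw [pb_true]; exact one_pos)
  obtain ⟨p1, l1⟩ := law_bind P (fun x => cv Q π x) E hp
  obtain ⟨b', hb⟩ : ∃ b' : Ω × W → β, ∀ v, b' v = if E v.1 then b v.2 else b v0 :=
    ⟨_, fun _ => rfl⟩
  have l2 : Law (cE (bind P fun x => cv Q π x) fun v => E v.1) (fun v => (b' v, v.1)) Q
      fun w => (b w, π w) := by
    refine (l1.comp fun v => (b' v, v.1)).trans
      (((kg.snd (cE P E) Q id π h.symm).comp fun w => (b w, π w)).ext fun v hv => ?_)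
    obtain ⟨m1, -, m3⟩ := (kg.mem (cE P E) Q id π v h.symm).1 hv
    exact Prod.ext ((hb v).trans (if_pos ((mem_cE (ex_of_pb hp) _).1 m1).2)) m3.symm
  refine ⟨Ω × W, bind P fun x => cv Q π x, Prod.fst, b', kg.fst P Q id π, fun v hv => ?_, ?_,
    fun A => ?_⟩
  · by_cases e : E v.1
    · exact ⟨v.2, cE_sub ((mem_bind _ _ v).1 hv).2, (hb v).trans (if_pos e)⟩
    · exact ⟨v0, h0, (hb v).trans (if_neg e)⟩
  · have a1 := ke.le (bind P fun x => cv Q π x) (fun v => E v.1) b' fun v => Z v.1
    have a2 := ke.ge (bind P fun x => cv Q π x) (fun v => E v.1) b' fun v => (Y v.1, Z v.1)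
    have c1 := l2.ch_eq Prod.fst fun p => Z p.2
    have c2 := l2.ch_eq Prod.fst fun p => (Y p.2, Z p.2)
    have z1 : (1 - pb (bind P fun x => cv Q π x) fun v => E v.1) *
        ch (cE (bind P fun x => cv Q π x) fun v => ¬E v.1) b' (fun v => Z v.1) = 0 := by
      by_cases u : ∃ v ∈ (bind P fun x => cv Q π x).S, ¬E v.1
      · rw [ch_zero fun v hv w hw _ => by
          rw [hb, hb, if_neg ((mem_cE u v).1 hv).2, if_neg ((mem_cE u w).1 hw).2], mul_zero]
      · rw [← pb_not, pb_zero fun v hv k => u ⟨v, hv, k⟩, zero_mul]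
    have z2 := mul_nonneg (sub_nonneg.2 (pb_le_one (bind P fun x => cv Q π x) fun v => E v.1))
      (ch_nonneg (P := cE (bind P fun x => cv Q π x) fun v => ¬E v.1) b' fun v => (Y v.1, Z v.1))
    rw [z1] at a1
    rw [p1] at a1 a2 z2
    simp only at c1 c2
    rw [c1] at a1
    rw [c2] at a2
    unfold mi
    have := lg_pos
    linarith
  · rw [← p1, ← l2.pb_eq fun p => A p.1 p.2, pb_cE]
    exact pb_mono fun _ _ k => k.2

end Pool.Agent.MP_5168f5_an.AN.TG
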