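import Pool.Agent.MP_5168f5_an.AN.TGSpec

/-! Kakeya sets in all dimensions: finer conditions give less entropy. -/

namespace Pool.Agent.MP_5168f5_an.AN.TG

open H19 H17S H17F G39 GA Filter H61Z

namespace TGMonoA

theorem chain {Ω α T : Type} (P : FP Ω) (A A' B B' : Ω → α) (Θ : Ω → T) :
    ch P B' (fun ω => (B ω, Θ ω)) ≤ ch P A' (fun ω => (A ω, Θ ω)) +
      ch P B' (fun ω => (B ω, A' ω)) + ch P A B := by
  have h1 := ch_tri (P := P) B' A' fun ω => (B ω, Θ ω)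
  have h2 : ch P B' (fun ω => (A' ω, B ω, Θ ω)) ≤ ch P B' fun ω => (B ω, A' ω) :=
    ch_anti (((Fn.fst _ _).right _).pair (Fn.fst _ _))
  have h3 := ch_tri' (P := P) A' (fun ω => (B ω, Θ ω)) fun ω => (A ω, Θ ω)
  have h4 : ch P (fun ω => (A ω, Θ ω)) (fun ω => (B ω, Θ ω)) ≤ ch P A B :=
    ch_le ((Fn.fst _ _).pair ((Fn.snd _ _).right _)) (Fn.fst _ _)
  linarith

end TGMonoA

theorem tgMono : OfMono := by
  intro hR hJ ι κ _ _ _ Φ om pos x h D₁ D₁' D₂ D₂' g₁ g₁' g₂ g₂' e e'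
  refine Le.of3 (Le.rfl (f := fun n => (x n).H (D₁ n) (D₁' n)))
    (hJ ι κ Φ om pos x h D₂' D₂ D₁' g₂' g₂ g₁' e') (hR ι κ Φ om pos x h D₁ D₂ g₁ e)
    (Eventually.of_forall fun n => ?_)
  have := TGMonoA.chain (x n).P ((x n).C (D₁ n)) ((x n).C (D₁' n)) ((x n).C (D₂ n))
    ((x n).C (D₂' n)) (x n).Θ
  unfold Sy.H Sy.Z
  linarith

end Pool.Agent.MP_5168f5_an.AN.TG
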