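import Pool.Agent.MP_5168f5_an.AN.TGFin

/-! The small ball bound for linear forms on all live coordinates. -/

namespace Pool.Agent.MP_5168f5_an.AN.TG

open H19 H17S H17F G39 GA Filter H61Z

namespace TGB0A

section Fin

variable {κ : Type} [Fintype κ] {om : κ → ℝ × ℝ} {c s : κ → κ → κ → ℝ} {l : κ → ℝ} {δ τ L : ℝ}

theorem sum_bd {f : κ → ℝ} (h : ∀ e, |f e| ≤ δ) : |∑ e, f e| ≤ Fintype.card κ * δ :=
  (Finset.abs_sum_le_sum_abs _ _).trans ((Finset.sum_le_card_nsmul _ _ _ fun e _ => h e).trans_eq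
    (by rw [nsmul_eq_mul, Finset.card_univ]))

theorem near (hδ : 0 ≤ δ) (hs : ∀ a b e, om e ≠ 0 → |s a b e - cH om c a b e| ≤ δ)
    (h0 : ∀ a, om a = 0 → l a = 0) (h1 : ∀ a, |l a| ≤ 1) (a b : κ) :
    |∑ e, s a b e * l e - ∑ e, cH om c a b e * l e| ≤ Fintype.card κ * δ := by
  rw [← Finset.sum_sub_distrib]
  refine sum_bd fun e => ?_
  by_cases z : om e = 0
  · simpa [h0 e z] using hδ
  · rw [← sub_mul, abs_mul]
    exact (mul_le_mul (hs a b e z) (h1 e) (abs_nonneg _) hδ).trans_eq (mul_one _)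

theorem res (q : ℝ × ℝ → Prop) [DecidablePred q] {a b : κ} (h : |∑ e, cH om c a b e * l e| ≤ τ) :
    |∑ e, cH om c a b e * (if q (om e) then l e else 0)| ≤ τ := by
  by_cases u : q (om a + om b)
  · refine le_trans (le_of_eq (congrArg _ (Finset.sum_congr rfl fun e _ => ?_))) h
    by_cases y : Hm om a b e
    · rw [y.2.2, if_pos u]
    · simp [cH, y]
  · rw [Finset.sum_eq_zero fun e _ => ?_, abs_zero]
    · exact (abs_nonneg _).trans h
    by_cases y : Hm om a b e
    · rw [y.2.2, if_neg u, mul_zero]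
    · simp [cH, y]

open Classical in
theorem mixed {lam : κ → κ → ℝ} {e : κ} (hδ : 0 ≤ δ) (h : ∀ a b, |∑ e, cH om c a b e * l e| ≤ τ)
    (h1 : ∀ a, |l a| ≤ 1) (hL : ∀ a b, |lam a b| ≤ L) (hg : ∀ e', om e' = om e →
      |∑ a, ∑ b, lam a b * cH om c a b e' - if e' = e then 1 else 0| ≤ δ) :
    |l e| ≤ Fintype.card κ * (Fintype.card κ * (L * τ)) + Fintype.card κ * δ := by
  have a1 : |∑ a, ∑ b, lam a b * ∑ e', cH om c a b e' * (if om e' = om e then l e' else 0)| ≤
      Fintype.card κ * (Fintype.card κ * (L * τ)) := sum_bd fun a => sum_bd fun b => by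
    rw [abs_mul]
    exact mul_le_mul (hL a b) (res (fun u => u = om e) (h a b)) (abs_nonneg _)
      ((abs_nonneg _).trans (hL a b))
  have a2 : |∑ e', (∑ a, ∑ b, lam a b * cH om c a b e' - if e' = e then 1 else 0) *
      (if om e' = om e then l e' else 0)| ≤ Fintype.card κ * δ := sum_bd fun e' => by
    by_cases u : om e' = om e
    · rw [if_pos u, abs_mul]
      exact (mul_le_mul (hg e' u) (h1 _) (abs_nonneg _) hδ).trans_eq (mul_one _)
    · simpa [u] using hδ
  have a3 : ∑ e', (∑ a, ∑ b, lam a b * cH om c a b e' - if e' = e then 1 else 0) *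
      (if om e' = om e then l e' else 0) =
      ∑ a, ∑ b, lam a b * ∑ e', cH om c a b e' * (if om e' = om e then l e' else 0) - l e := by
    simp only [sub_mul, Finset.sum_sub_distrib, Finset.sum_mul, Finset.mul_sum, mul_assoc]
    congr 1
    · rw [Finset.sum_comm]
      exact Finset.sum_congr rfl fun a _ => Finset.sum_comm
    · rw [Finset.sum_eq_single e (fun a _ u => by rw [if_neg u, zero_mul]) (by simp)]
      simp
  rw [a3] at a2
  have b1 := abs_le.1 a1
  have b2 := abs_le.1 a2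
  exact abs_le.2 ⟨by linarith, by linarith⟩

omit [Fintype κ] in
theorem kinds (w : ∀ a, 0 ≤ (om a).1 ∧ 0 ≤ (om a).2) {a : κ} (h : om a ≠ 0) (h' : ¬Mx om a) :
    Pu om true a ∨ Pu om false a := by
  have := w a
  simp only [Pu, P1, P2, Mx, cond, Ne, Prod.ext_iff, Prod.fst_zero, Prod.snd_zero] at *
  grind

theorem rate (f : κ → ℝ) (h : ∀ a, 0 ≤ f a) {η : ℝ} (hη : 0 ≤ η) :
    ∃ R, 0 ≤ R ∧ ∀ a, 0 < f a → η ≤ f a * R :=
  ⟨∑ a, η / f a, Finset.sum_nonneg fun a _ => div_nonneg hη (h a), fun a u => by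
    rw [mul_comm, ← div_le_iff₀ u]
    exact Finset.single_le_sum (f := fun a => η / f a) (fun a _ => div_nonneg hη (h a))
      (Finset.mem_univ a)⟩

end Fin

variable {ι κ : Type} [Fintype ι] [DecidableEq ι] [Fintype κ] {Φ : Filt (Mt ι)} {om : κ → ℝ × ℝ}
  {pos : κ → Prop} {x : ℕ → Sy ι κ} {t : ℕ → ℝ × ℝ}

omit [Fintype ι] [DecidableEq ι] in
theorem bd (w : ∀ a, 0 ≤ (om a).1 ∧ 0 ≤ (om a).2) (ht : Lv x t) : ∃ K : ℝ, ∀ᶠ n in UF, ∀ a,
    0 ≤ dep om (t n) a ∧ dep om (t n) a ≤ K * (x n).M := by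
  obtain ⟨K, ht⟩ := ht
  refine ⟨(∑ a, ((om a).1 + (om a).2)) * K, ht.mono fun n ⟨a₁, a₂, a₃, a₄⟩ a => ?_⟩
  have := mul_nonneg (w a).1 a₁
  have := mul_nonneg (w a).2 a₃
  have := mul_le_mul_of_nonneg_left a₂ (w a).1
  have := mul_le_mul_of_nonneg_left a₄ (w a).2
  have := mul_le_mul_of_nonneg_right (Finset.single_le_sum (f := fun a => (om a).1 + (om a).2)
    (fun a _ => add_nonneg (w a).1 (w a).2) (Finset.mem_univ a)) (a₁.trans a₂)
  unfold dep
  constructor <;> linarith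

/-- The rescaled constants are homogeneous up to negligible errors. -/
theorem hom (g : G0 Φ om pos x) (ht : Lv x t) (K : ℝ) : ∀ᶠ n in UF, ∀ a b e, om e ≠ 0 →
    |sC (rA (dep om (t n))) (x n).c a b e - cH om (x n).c a b e| ≤ dl (un x) K n := by
  obtain ⟨K', hb⟩ := bd g.alg.wt ht
  refine eventually_all.2 fun a => eventually_all.2 fun b => eventually_all.2 fun e =>
    eventually_all.2 fun z => ?_
  have k : ∀ n, sC (rA (dep om (t n))) (x n).c a b e = (x n).c a b e *
      Real.exp (dep om (t n) e - dep om (t n) a - dep om (t n) b) := fun n => by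
    simp only [sC, rA]
    rw [mul_assoc, mul_div_assoc, ← Real.exp_add, ← Real.exp_sub]
    congr 2; ring
  by_cases y : Hm om a b e
  · refine Eventually.of_forall fun n => ?_
    have : dep om (t n) e - dep om (t n) a - dep om (t n) b = 0 := by
      simp only [dep, y.2.2, Prod.fst_add, Prod.snd_add]
      ring
    rw [k, this, Real.exp_zero, mul_one, cH, if_pos y, sub_self, abs_zero]
    exact (dl_pos _ _ _).le
  · refine ((g.alg.hom a b e z y).mul_exp (C := K') (v := fun n =>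
      Real.exp (dep om (t n) e - dep om (t n) a - dep om (t n) b)) (hb.mono fun n u => ?_) K).mono
      fun n u => by rwa [k, cH, if_neg y, sub_zero]
    rw [abs_of_pos (Real.exp_pos _)]
    exact Real.exp_le_exp.2 (by linarith [(u e).2, (u a).1, (u b).1])

omit [Fintype ι] [DecidableEq ι] in
/-- A finer level that agrees with the given one on a pure family. -/
theorem lvl (w : ∀ a, 0 ≤ (om a).1 ∧ 0 ≤ (om a).2) (ht : Lv x t) (k : Bool) {η : ℝ} (hη : 0 ≤ η) :
    ∃ t', Lv x t' ∧ ∀ n a, dep om (t n) a ≤ dep om (t' n) a ∧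
      (Pu om k a → dep om (t' n) a = dep om (t n) a) ∧
      (om a ≠ 0 → ¬Pu om k a → dep om (t n) a + η * (x n).M ≤ dep om (t' n) a) := by
  obtain ⟨K, ht⟩ := ht
  have m0 : ∀ n, (0 : ℝ) ≤ (x n).M := fun n => Nat.cast_nonneg _
  cases k
  · obtain ⟨R, r0, hR⟩ := rate (fun a => (om a).1) (fun a => (w a).1) hη
    refine ⟨fun n => ((t n).1 + R * (x n).M, (t n).2), ⟨K + R, ht.mono fun n ⟨a₁, a₂, a₃, a₄⟩ => ?_⟩,
      fun n a => ?_⟩
    · have := mul_nonneg r0 (m0 n)
      exact ⟨by linarith, by linarith, a₃, by linarith⟩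
    · have := mul_nonneg (w a).1 (mul_nonneg r0 (m0 n))
      refine ⟨by simp only [dep]; linarith, fun u => by simp only [dep, u.1]; ring, fun u v => ?_⟩
      have z : 0 < (om a).1 := (w a).1.lt_of_ne fun z => v ⟨z.symm, (w a).2.lt_of_ne fun z' =>
        u (Prod.ext z.symm z'.symm)⟩
      have := mul_le_mul_of_nonneg_right (hR a z) (m0 n)
      simp only [dep]; linarith
  · obtain ⟨R, r0, hR⟩ := rate (fun a => (om a).2) (fun a => (w a).2) hη
    refine ⟨fun n => ((t n).1, (t n).2 + R * (x n).M), ⟨K + R, ht.mono fun n ⟨a₁, a₂, a₃, a₄⟩ => ?_⟩,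
      fun n a => ?_⟩
    · have := mul_nonneg r0 (m0 n)
      exact ⟨a₁, by linarith, by linarith, by linarith⟩
    · have := mul_nonneg (w a).2 (mul_nonneg r0 (m0 n))
      refine ⟨by simp only [dep]; linarith, fun u => by simp only [dep, u.2]; ring, fun u v => ?_⟩
      have z : 0 < (om a).2 := (w a).2.lt_of_ne fun z => v ⟨(w a).1.lt_of_ne fun z' =>
        u (Prod.ext z'.symm z.symm), z.symm⟩
      have := mul_le_mul_of_nonneg_right (hR a z) (m0 n)
      simp only [dep]; linarith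

/-- A unit coefficient of a test form sits at a pure index. -/
theorem top (g : G0 Φ om pos x) (ht : Lv x t) {η : ℝ} (hη : 0 < η) : ∀ᶠ n in UF, ∀ l,
    Tst (x n).c (rA (dep om (t n))) (fun a => om a ≠ 0) (Real.exp (-(η * (x n).M))) l →
    (∃ a, Pu om true a ∧ |l a| = 1) ∨ ∃ a, Pu om false a ∧ |l a| = 1 := by
  have hM := g.alg.big
  have k : ∀ e, Mx om e → ∀ᶠ n in UF, ∀ l,
      Tst (x n).c (rA (dep om (t n))) (fun a => om a ≠ 0) (Real.exp (-(η * (x n).M))) l →
      |l e| < 1 := fun e he => by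
    obtain ⟨lam, h1, h2⟩ := g.alg.gen e he
    obtain ⟨L, s, hL⟩ := ob_bound hM (J := κ × κ) (f := fun j n => lam n j.1 j.2) fun j => h1 _ _
    obtain ⟨N, hN⟩ : ∃ N : ℝ, N = Fintype.card κ := ⟨_, rfl⟩
    have n0 : 0 ≤ N := hN ▸ Nat.cast_nonneg _
    filter_upwards [hom g ht η, eventually_all.2 fun e' => eventually_all.2 fun u => h2 e' u η,
      sub_dl (s.const_mul hM (C := 2 * (N * N * (1 + N) + N + 1)) (by nlinarith [mul_nonneg n0 n0]))
        hη] with n a1 a2 a3 l h
    have d0 := dl_pos (un x) η n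
    have q := mixed (τ := (1 + N) * dl (un x) η n) d0.le (fun a b => by
      have b1 := abs_le.1 (near d0.le a1 (fun a u => h.sup a (not_not.2 u)) h.le a b)
      have b2 : _ ∧ _ ≤ dl (un x) η n := abs_le.1 (h.kill a b)
      have b3 : -dl (un x) η n ≤ _ := b2.1
      rw [← hN] at b1
      exact abs_le.2 ⟨by linarith, by linarith⟩) h.le (fun a b => hL n (a, b)) a2
    rw [← hN] at q
    rw [← one_div, le_div_iff₀ d0] at a3
    have l1 := mul_le_mul_of_nonneg_right (s.1 n) (mul_nonneg n0 d0.le)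
    have l2 := mul_pos (s.pos n) d0
    have l3 : 0 ≤ N * N * (1 + N) * (L n * dl (un x) η n) := by positivity
    have l4 := mul_nonneg n0 l2.le
    nlinarith
  filter_upwards [eventually_all.2 fun e => eventually_all.2 (k e)] with n u l h
  obtain ⟨a, ha⟩ := h.one
  have z : om a ≠ 0 := fun z => by simp [h.sup a (not_not.2 z)] at ha
  exact (kinds g.alg.wt z fun m => (u a m l h).ne ha).imp (fun v => ⟨a, v, ha⟩) fun v => ⟨a, v, ha⟩

open Classical in
theorem side (gd : SGd) (ref : SRef) (lip : SLip) (sb : SSB) {C : ℝ} (g : GS Φ om pos C x)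
    (ht : Lv x t) (k : Bool) {W β : ℕ → Type} {Q : ∀ n, FP (W n)} {π : ∀ n, W n → (x n).Ω}
    {b : ∀ n, W n → β n} (p : ∀ n, β n → Mt ι) {l : ∀ n, β n → κ → ℝ} (c0 : ∀ n, β n → ℝ)
    {η η' ρ ε : ℝ} (h0 : 0 < η') (h1 : η' < η) (hρ : 0 ≤ ρ) (hε : 0 < ε)
    (law : ∀ᶠ n in UF, Law (Q n) (π n) (x n).P id) {L0 : ℕ → ℝ} (s0 : Sub (un x) L0)
    (ts : ∀ᶠ n in UF, ∀ v ∈ (Q n).S, Tst (x n).c (rA (dep om (t n))) (fun a => om a ≠ 0)
      (Real.exp (-(η * (x n).M))) (l n (b n v)))
    (hi : Le (un x) (fun n => mi (Q n) (b n) (fun v => (x n).j (π n v))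
      fun v => (x n).Z (dep om (t n)) (π n v)) fun n => ρ * (x n).M) :
    ∀ᶠ n in UF, pb (Q n) (fun v => (∃ a, Pu om k a ∧ |l n (b n v) a| = 1) ∧
      Nr (x n).B (rA (dep om (t n))) (L0 n) (p n (b n v)) ((x n).j (π n v)) ∧
      |∑ a, l n (b n v) a * (x n).co (dep om (t n)) (p n (b n v)) (π n v) a - c0 n (b n v)| ≤
        Real.exp (-(η * (x n).M))) ≤ C * ρ / η' + ε := by
  have g0 := g.toG0
  have hM := g0.alg.big
  obtain ⟨t', ht', hd⟩ := lvl g0.alg.wt ht k (h0.trans h1).le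
  have z0 : Ln x fun _ => 0 := ⟨0, Eventually.of_forall fun n => ⟨le_rfl, (zero_mul _).ge⟩⟩
  have gD := ((gd ι κ Φ om pos x g0).2 t _ ht z0).1
  obtain ⟨K, hK⟩ := bd g0.alg.wt ht
  obtain ⟨L', s', lp⟩ := lip ι κ Φ om pos x g0 _ _ gD
    ⟨K, hK.mono fun n u a => by rw [abs_of_nonneg (u a).1]; exact (u a).2⟩ s0
  obtain ⟨K1, -, ce⟩ := sCell Φ.N (Fintype.card κ)
  obtain ⟨N, hN⟩ : ∃ N : ℝ, N = Fintype.card κ := ⟨_, rfl⟩
  have n0 : 0 ≤ N := hN ▸ Nat.cast_nonneg _
  have r0 : ∀ (E : κ → ℝ) a, 0 < rA E a := fun E a => Real.exp_pos _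
  have nu : ∀ᶠ n in UF, (L' n + (1 + 2 * N)) * Real.exp (-(η * (x n).M)) ≤
      Real.exp (-(η' * (x n).M)) := by
    filter_upwards [(s'.add (hM.sub (C := 1 + 2 * N) (by linarith)) hM).2 (η - η') (by linarith)]
      with n u
    refine (mul_le_mul_of_nonneg_right u (Real.exp_pos _).le).trans (le_of_eq ?_)
    rw [← Real.exp_add]; congr 1; ring
  obtain ⟨T, hT⟩ : ∃ T : ℕ → (κ → ℝ) → Prop, T = fun n =>
    Tst (x n).c (rA (dep om (t' n))) (Pu om k) (Real.exp (-(η' * (x n).M))) := ⟨_, rfl⟩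
  have A : ∀ᶠ n in UF, ∀ v ∈ (Q n).S, (∃ a, Pu om k a ∧ |l n (b n v) a| = 1) →
      T n fun a => if Pu om k a then l n (b n v) a else 0 := by
    filter_upwards [ts, nu, hom g0 ht η, hom g0 ht' η] with n tn un a1 a2 v hv ⟨a0, u0, u1⟩
    have h := tn v hv
    have d0 := dl_pos (TG.un x) η n
    have le : ∀ a, |if Pu om k a then l n (b n v) a else 0| ≤ 1 := fun a => by
      split_ifs
      · exact h.le a
      · simp
    rw [hT]
    refine ⟨fun a u => if_neg u, le, ⟨a0, by rwa [if_pos u0]⟩, fun a a' => ?_⟩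
    have b1 := abs_le.1 (near d0.le a1 (fun a u => h.sup a (not_not.2 u)) h.le a a')
    have b2 : _ ∧ _ ≤ dl (TG.un x) η n := abs_le.1 (h.kill a a')
    have b3 : -dl (TG.un x) η n ≤ _ := b2.1
    have b4 := abs_le.1 (near (l := fun a => if Pu om k a then l n (b n v) a else 0) d0.le a2
      (fun a u => by rw [h.sup a (not_not.2 u), ite_self]) le a a')
    rw [← hN] at b1 b4
    have b5 := res (τ := (1 + N) * dl (TG.un x) η n) (fun u => Pu (fun _ : Unit => u) k ())
      (abs_le.2 ⟨by linarith, by linarith⟩ : |∑ e, cH om (x n).c a a' e * l n (b n v) e| ≤ _)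
    have b6 : |∑ e, cH om (x n).c a a' e * (if Pu om k e then l n (b n v) e else 0)| ≤ _ := b5
    have b7 := abs_le.1 b6
    have b8 : _ * dl (TG.un x) η n ≤ _ := un
    have b9 := mul_pos (s'.pos n) d0
    exact abs_le.2 ⟨by linarith, by linarith⟩
  have cl : ∀ n, IsFr Φ (x n).B (x n).c → ∀ y, Nr (x n).B (rA (dep om (t' n))) 1
      (cell (x n).B (rA (dep om (t' n))) y) y := fun n fr =>
    (ce ι κ Φ _ _ (rA (dep om (t' n))) (rA (dep om (t' n))) 1 rfl le_rfl fr le_rfl
      fun a => ⟨r0 _ a, (one_mul _).ge⟩).1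
  rcases ev_em (fun n => ∃ u, T n u) with ye | no
  swap
  · filter_upwards [A, no] with n a u
    rw [pb_zero fun v hv e => u ⟨_, a v hv e.1⟩]
    have := g.one
    positivity
  have S := sb ι κ Φ om pos x C g k t' ht' W (fun n => β n × Mt ι) Q π
    (fun n v => (b n v, (x n).C (dep om (t' n)) (π n v))) (fun _ => Prod.snd)
    (fun n u => if T n (fun a => if Pu om k a then l n u.1 a else 0) then
      fun a => if Pu om k a then l n u.1 a else 0 else epsilon (T n))
    (fun n u => c0 n u.1 - ∑ a, l n u.1 a * (lg (x n).B (p n u.1) u.2 a / rA (dep om (t n)) a))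
    η' ρ h0 hρ ⟨law, fun _ => 1, hM.sub le_rfl, Whp.of_ev (g0.alg.fr.mono fun n fr v _ => cl n fr _)⟩
    (ye.mono fun n u v _ => by
      have : T n (if T n (fun a => if Pu om k a then l n (b n v) a else 0) then
          fun a => if Pu om k a then l n (b n v) a else 0 else epsilon (T n)) := by
        split_ifs with h
        · exact h
        · exact epsilon_spec u
      exact (congrFun (congrFun hT n) _).mp this)
    ((hi.add (ref ι κ Φ om pos x g0 _ (fun n => dep om (t' n)) gD fun a =>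
      Le.of_le fun n => (hd n a).1)).of_sub (law.mono fun n w => by
        have a1 := TGFinA.inf (Q n) (b n) (fun v => (x n).j (π n v)) (fun v => (x n).Θ (π n v))
          (cell (x n).B (rA (dep om (t n)))) (cell (x n).B (rA (dep om (t' n))))
        have a2 := w.ch_id ((x n).C (dep om (t n))) ((x n).C (dep om (t' n)))
        have a3 := a1.trans (add_le_add le_rfl a2.le)
        rw [add_zero]
        exact sub_le_sub_right a3 _)) ε hε
  filter_upwards [S, A, nu, law, ts, g0.alg.fr, g0.unit, lp 0] with n sn an nu law tn fr un ln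
  refine (pb_mono fun v hv ⟨u0, ⟨t1, bt', et'⟩, u⟩ => ?_).trans sn
  have mu := sMul ι κ Φ _ _ fr
  have τ0 := Real.exp_pos (-(η * (x n).M))
  have uj := un _ (law.mem hv)
  obtain ⟨s, bt, et⟩ := cl n fr ((x n).j (π n v))
  have iv : ∀ (y : Mt ι) t, (x n).j (π n v) = y * ex (x n).B t →
      y = (x n).j (π n v) * ex (x n).B (-t) ∧ IsUnit y := fun y t e => by
    have : y = (x n).j (π n v) * ex (x n).B (-t) := by rw [e, mul_assoc, (mu.neg t).2, mul_one]
    exact ⟨this, this ▸ uj.mul ⟨⟨_, _, (mu.neg t).1, (mu.neg t).2⟩, rfl⟩⟩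
  obtain ⟨ey, uy⟩ := iv _ s et
  have q := (ln (p n (b n v)) ((x n).j (π n v)) _ (iv _ t1 et').2 ⟨t1, bt', et'⟩
    ⟨-s, fun a => by
      have a1 : rA (dep om (t' n)) a ≤ rA (dep om (t n)) a :=
        Real.exp_le_exp.2 (neg_le_neg (hd n a).1)
      have a2 := bt a
      have a3 := mul_le_mul_of_nonneg_right (s0.1 n) (r0 (dep om (t n)) a).le
      rw [Pi.neg_apply, abs_neg]; linarith, ey⟩).2 (l n (b n v)) _ τ0.le (tn v hv).le (tn v hv).kill
  have g1 : lg (x n).B ((x n).j (π n v)) (cell (x n).B (rA (dep om (t' n))) ((x n).j (π n v))) =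
      -s := by
    have := mu.lg _ (-s) uj
    rwa [← ey] at this
  have g2 : lg (x n).B (cell (x n).B (rA (dep om (t' n))) ((x n).j (π n v))) ((x n).j (π n v)) =
      s := by
    have := mu.lg _ s uy
    rwa [← et] at this
  rw [if_pos (an v hv u0)]
  simp only [Sy.co, Sy.C, g1, g2] at q u ⊢
  have k1 : |∑ a, ((if Pu om k a then l n (b n v) a else 0) * (s a / rA (dep om (t' n)) a) +
      l n (b n v) a * ((-s) a / rA (dep om (t n)) a))| ≤
      Fintype.card κ * Real.exp (-(η * (x n).M)) := sum_bd fun a => by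
    by_cases y : Pu om k a
    · rw [if_pos y, show rA (dep om (t' n)) a = rA (dep om (t n)) a by
        simp only [rA, (hd n a).2.1 y], Pi.neg_apply, neg_div, mul_neg, add_neg_cancel, abs_zero]
      exact τ0.le
    by_cases z : om a = 0
    · rw [(tn v hv).sup a (not_not.2 z), ite_self, zero_mul, zero_mul, add_zero, abs_zero]
      exact τ0.le
    rw [if_neg y, zero_mul, zero_add, abs_mul, abs_div, Pi.neg_apply, abs_neg,
      abs_of_pos (r0 _ a)]
    refine (mul_le_of_le_one_left (div_nonneg (abs_nonneg _) (r0 _ a).le) ((tn v hv).le a)).trans ?_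
    rw [div_le_iff₀ (r0 _ a)]
    refine (bt a).trans ?_
    simp only [rA]
    rw [one_mul, ← Real.exp_add]
    exact Real.exp_le_exp.2 (by linarith [(hd n a).2.2 z y])
  rw [Finset.sum_add_distrib, ← hN] at k1
  have q1 := abs_le.1 q
  have u1 := abs_le.1 u
  have k2 := abs_le.1 k1
  have z2 := mul_nonneg n0 τ0.le
  exact abs_le.2 ⟨by linarith, by linarith⟩

end TGB0A

open TGB0A in
theorem tgB0 : OfB0 := by
  intro gd ref lip sb ι κ _ _ _ Φ om pos x C g t ht W β Q π b p l c0 η ρ hη hρ bs ts hi ε hε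
  obtain ⟨η', ρ', e0, e1, e2, e3⟩ := TGFinA.rat hη hρ (zero_le_one.trans g.one)
    (show 0 < ε / 5 by positivity)
  have e4 : (0 : ℝ) < η' := by exact_mod_cast e0
  have e5 : C * ρ / η' ≤ C * ρ' / η' := div_le_div_of_nonneg_right
    (mul_le_mul_of_nonneg_left e2.le (zero_le_one.trans g.one)) e4.le
  obtain ⟨L0, s0, w0⟩ := bs.near
  have h := fun k => side gd ref lip sb g ht k p c0 e4 e1 hρ (show 0 < ε / 5 by positivity)
    bs.law s0 ts hi
  filter_upwards [h true, h false, w0 (ε / 5) (by positivity), ts, top g.toG0 ht hη]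
    with n a1 a2 a3 tn tp
  refine ((pb_mono fun v hv u => ?_).trans ((pb_or _ _ _).trans
    (add_le_add (pb_or _ _ _) le_rfl))).trans ((add_le_add (add_le_add a1 a2) a3).trans ?_)
  · exact (em _).imp_left fun nr => (tp _ (tn v hv)).imp (fun w => ⟨w, nr, u⟩) fun w => ⟨w, nr, u⟩
  · rw [mul_assoc 2, mul_div_assoc 2]
    linarith

end Pool.Agent.MP_5168f5_an.AN.TG
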