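import Pool.Agent.MP_5168f5_an.AN.TGSpec2

/-! The word norm. -/

namespace Pool.Agent.MP_5168f5_an.AN.TG

open Matrix Finset

namespace TGWnA

variable {κ υ : Type} [Fintype κ] [Fintype υ] [DecidableEq υ] {R : κ → Matrix υ υ ℝ} {N : ℕ}

/-- A matrix coefficient. -/
def ev (r u : υ → ℝ) : Matrix υ υ ℝ →ₗ[ℝ] ℝ where
  toFun A := r ⬝ᵥ A *ᵥ u
  map_add' A B := by rw [add_mulVec, dotProduct_add]
  map_smul' c A := by rw [smul_mulVec, dotProduct_smul, RingHom.id_apply]

omit [DecidableEq υ] in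
theorem ev_mul (r u : υ → ℝ) (A B : Matrix υ υ ℝ) : ev r u (A * B) = ev r (B *ᵥ u) A :=
  congrArg (r ⬝ᵥ ·) (mulVec_mulVec u A B).symm

theorem nn (r u : υ → ℝ) : 0 ≤ wn R N r u := Real.iSup_nonneg fun _ => abs_nonneg _

theorem le (h : ∀ w : List κ, N ≤ w.length → (w.map R).prod = 0) (r u : υ → ℝ) (w : List κ) :
    |ev r u (w.map R).prod| ≤ wn R N r u := by
  by_cases k : w.length < N
  · have : Finite {w : List κ // w.length < N} := (List.finite_length_lt κ N).to_subtype
    exact le_ciSup (f := fun w : {w : List κ // w.length < N} => |r ⬝ᵥ (w.1.map R).prod *ᵥ u|)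
      (Finite.bddAbove_range _) ⟨w, k⟩
  · rw [h w (not_lt.1 k), map_zero, abs_zero]
    exact nn r u

theorem sup_le {r u : υ → ℝ} {B : ℝ} (h0 : 0 ≤ B) (h : ∀ w : List κ, |ev r u (w.map R).prod| ≤ B) :
    wn R N r u ≤ B := Real.iSup_le (fun w => h w.1) h0

theorem sum_le {ι : Type} (s : Finset ι) {f : ι → ℝ} {B : ℝ} (h : ∀ i ∈ s, |f i| ≤ B) :
    |∑ i ∈ s, f i| ≤ s.card * B :=
  (abs_sum_le_sum_abs _ _).trans ((sum_le_card_nsmul _ _ _ h).trans_eq (nsmul_eq_mul _ _))

theorem step (z : κ → ℝ) (k : ℕ) (w : List κ) : (∑ a, z a • R a) ^ (k + 1) * (w.map R).prod =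
    ∑ a, z a • ((∑ a, z a • R a) ^ k * ((a :: w).map R).prod) := by
  rw [pow_succ, mul_assoc, sum_mul, mul_sum]
  simp only [List.map_cons, List.prod_cons, smul_mul_assoc, mul_smul_comm]

theorem nil (h : ∀ w : List κ, N ≤ w.length → (w.map R).prod = 0) (z : κ → ℝ) (k : ℕ) :
    ∀ w : List κ, N ≤ k + w.length → (∑ a, z a • R a) ^ k * (w.map R).prod = 0 := by
  induction k with
  | zero => intro w e; rw [h w (by omega), mul_zero]
  | succ k ih =>
    intro w e
    rw [step]
    exact sum_eq_zero fun a _ => by rw [ih _ (by rw [List.length_cons]; omega), smul_zero]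

theorem key (h : ∀ w : List κ, N ≤ w.length → (w.map R).prod = 0) (r u : υ → ℝ) {z : κ → ℝ}
    {L : ℝ} (hL : 0 ≤ L) (hz : ∀ a, R a ≠ 0 → |z a| ≤ L) (k : ℕ) : ∀ w : List κ,
    |ev r u ((∑ a, z a • R a) ^ k * (w.map R).prod)| ≤ (Fintype.card κ * L) ^ k * wn R N r u := by
  have := nn (R := R) (N := N) r u
  induction k with
  | zero => intro w; simpa using le h r u w
  | succ k ih =>
    intro w
    rw [step, map_sum]
    refine (sum_le _ (B := L * ((Fintype.card κ * L) ^ k * wn R N r u)) fun a _ => ?_).trans_eq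
      (by rw [card_univ]; ring)
    by_cases e : R a = 0
    · rw [List.map_cons, List.prod_cons, e, zero_mul, mul_zero, smul_zero, map_zero, abs_zero]
      positivity
    · rw [map_smul, smul_eq_mul, abs_mul]
      exact mul_le_mul (hz a e) (ih _) (abs_nonneg _) hL

theorem exp_eq (h : ∀ w : List κ, N ≤ w.length → (w.map R).prod = 0) (z : κ → ℝ) {M : ℕ}
    (hM : N ≤ M) : IsNilpotent.exp (∑ a, z a • R a) =
      ∑ i ∈ range M, (i.factorial : ℝ)⁻¹ • (∑ a, z a • R a) ^ i := by
  rw [IsNilpotent.exp_eq_sum (k := M) (by simpa using nil h z M [] (by simpa using hM))]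
  refine sum_congr rfl fun i _ => ?_
  rw [← Rat.cast_smul_eq_qsmul ℝ]
  simp

theorem fac (i : ℕ) {t B : ℝ} (h : |t| ≤ B) : |(i.factorial : ℝ)⁻¹ * t| ≤ B := by
  rw [abs_mul, abs_of_nonneg (by positivity)]
  exact (mul_le_of_le_one_left (abs_nonneg _)
    (inv_le_one_of_one_le₀ (by exact_mod_cast i.factorial_pos))).trans h

theorem num {c N i j : ℕ} {L : ℝ} (hL : 1 ≤ L) (hi : i ≤ j) (hj : j < c + N + 2) :
    (c * L) ^ i ≤ (((c + N + 2 : ℕ) : ℝ) * L) ^ j ∧
      N * (((c + N + 2 : ℕ) : ℝ) * L) ^ j ≤ (((c + N + 2 : ℕ) : ℝ) * L) ^ (c + N + 2) := by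
  have c0 : (0 : ℝ) ≤ c := Nat.cast_nonneg _
  have n0 : (0 : ℝ) ≤ N := Nat.cast_nonneg _
  have e : ((c + N + 2 : ℕ) : ℝ) = c + N + 2 := by push_cast; rfl
  generalize hA : ((c + N + 2 : ℕ) : ℝ) * L = A
  rw [e] at hA
  have a1 : 1 ≤ A := by nlinarith
  have a2 : c * L ≤ A := by nlinarith
  have a3 : N ≤ A := by nlinarith
  exact ⟨(pow_le_pow_left₀ (by positivity) a2 i).trans (pow_le_pow_right₀ a1 hi),
    (mul_le_mul_of_nonneg_right a3 (by positivity)).trans
      ((pow_succ' A j).ge.trans (pow_le_pow_right₀ a1 hj))⟩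

end TGWnA

open TGWnA in
theorem tgWn : SWn := by
  intro κ υ _ _ _ N
  refine ⟨Fintype.card κ + N + 2, by omega, fun R h r u => ⟨nn r u, le h r u,
    fun B h1 h2 => sup_le ((abs_nonneg _).trans h1) fun w => ?_, fun z L hL hz => ?_,
    fun v s L σ μ hL σ0 σ1 μ0 hv hs hμ => ?_⟩⟩
  · obtain rfl | ⟨w, a, rfl⟩ := w.eq_nil_or_concat
    · simpa [ev] using h1
    · rw [List.concat_eq_append, List.map_append, List.prod_append, ev_mul]
      simpa using (le h r (R a *ᵥ u) w).trans (h2 a)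
  · have := nn (R := R) (N := N) r u
    refine sup_le (by positivity) fun w => ?_
    have e : ev (r ᵥ* IsNilpotent.exp (∑ a, z a • R a)) u (w.map R).prod =
        ev r u (IsNilpotent.exp (∑ a, z a • R a) * (w.map R).prod) := by
      rw [ev_mul]; exact (dotProduct_mulVec _ _ _).symm
    rw [e, exp_eq h z le_rfl, sum_mul, map_sum]
    refine (sum_le _ (B := (((Fintype.card κ + N + 2 : ℕ) : ℝ) * L) ^ N * wn R N r u)
      fun i hi => ?_).trans ?_
    · rw [smul_mul_assoc, map_smul, smul_eq_mul]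
      exact fac i ((key h r u (by linarith) (fun a _ => hz a) i w).trans
        (mul_le_mul_of_nonneg_right (num hL (mem_range.1 hi).le (by omega)).1 this))
    · rw [card_range, ← mul_assoc]
      exact mul_le_mul_of_nonneg_right (num hL le_rfl (by omega)).2 this
  · have e : r ⬝ᵥ IsNilpotent.exp (∑ a, v a • R a) *ᵥ u - r ⬝ᵥ u - ∑ a, v a * (r ⬝ᵥ R a *ᵥ u) =
        ∑ i ∈ range N, ((i + 2).factorial : ℝ)⁻¹ * ev r u ((∑ a, v a • R a) ^ (i + 2)) := by
      change ev r u _ - _ - ∑ a, v a * ev r u (R a) = _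
      rw [exp_eq h v (Nat.le_add_right N 2), sum_range_succ', sum_range_succ', map_add, map_add,
        map_sum]
      simp [ev]
    rw [e]
    refine (sum_le _ (B := (((Fintype.card κ + N + 2 : ℕ) : ℝ) * L) ^ (N + 1) * (σ * μ))
      fun i hi => fac _ ?_).trans ?_
    · rw [pow_succ, mul_sum, map_sum]
      refine (sum_le _ (B := L * ((Fintype.card κ * L) ^ (i + 1) * (σ * μ)))
        fun a _ => ?_).trans ?_
      · have k := key h r (R a *ᵥ u) (z := v) (L := L * σ) (by positivity) (fun b hb =>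
          (hv b).2.trans (mul_le_mul_of_nonneg_left (hs b hb) (by linarith))) (i + 1) []
        have w0 := nn (R := R) (N := N) r (R a *ᵥ u)
        have s0 := (hv a).1
        rw [List.map_nil, List.prod_nil, mul_one, ← mul_assoc, mul_pow] at k
        rw [mul_smul_comm, map_smul, smul_eq_mul, abs_mul, ev_mul]
        refine (mul_le_mul (hv a).2 k (abs_nonneg _) (by positivity)).trans ?_
        calc _ = L * ((Fintype.card κ * L) ^ (i + 1) *
              (σ ^ (i + 1) * (s a * wn R N r (R a *ᵥ u)))) := by ring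
          _ ≤ _ := by
            gcongr
            · exact pow_le_of_le_one σ0 σ1 i.succ_ne_zero
            · exact hμ a
      · rw [card_univ, ← mul_assoc, ← mul_assoc, ← pow_succ']
        exact mul_le_mul_of_nonneg_right
          (num hL (by have := mem_range.1 hi; omega) (by omega)).1 (by positivity)
    · rw [card_range, ← mul_assoc, mul_assoc _ σ]
      exact mul_le_mul_of_nonneg_right (num hL le_rfl (by omega)).2 (by positivity)

end Pool.Agent.MP_5168f5_an.AN.TG
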