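import Pool.Agent.MP_5168f5_an.AN.TGN4d
import Pool.Agent.MP_5168f5_an.AN.TGWn
import Pool.Agent.MP_5168f5_an.AN.TGB0
import Pool.Agent.MP_5168f5_an.AN.TGSBR
import Pool.Agent.MP_5168f5_an.AN.TGSide

/-! Matrix coefficients in cells: the induction on the length of words. -/

namespace Pool.Agent.MP_5168f5_an.AN.TG

open H19 H17S H17F G39 GA Filter H61Z Matrix

namespace TGN4A

theorem ch_prop {Ω β : Type} (P : FP Ω) (E : Ω → Prop) (G : Ω → β) : ch P E G ≤ H17S.lg := by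
  classical
  exact ch_det (B := 2) fun a _ => ⟨{True, False}, by simp, fun b _ _ => by
    by_cases h : E b <;> simp [h]⟩

/-- A copy given the side data, the cell and the event carries one bit. -/
theorem inf {W α β γ : Type} (Q : FP W) (b : W → β) (j : W → α) (Z : W → γ) (A : W → Prop) :
    mi (glue Q Q (fun v => (b v, Z v, A v)) fun v => (b v, Z v, A v)) (fun y => (b y.1, j y.2))
      (fun y => j y.1) (fun y => Z y.1) ≤ mi Q b j Z + H17S.lg := by
  have m := fun y => R4.kg.mem Q Q (fun v => (b v, Z v, A v)) (fun v => (b v, Z v, A v)) y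
    (Law.rfl _)
  have a1 := (R4.kg.fst Q Q (fun v => (b v, Z v, A v)) fun v => (b v, Z v, A v)).ch_id j Z
  have a2 := R4.kg.mkv' Q Q (fun v => (b v, Z v, A v)) (fun v => (b v, Z v, A v)) j (fun _ => ())
    (fun v => ((b v, Z v, A v), j v)) (Law.rfl _) (Fn.fst _ _)
  have a3 : ch (glue Q Q (fun v => (b v, Z v, A v)) fun v => (b v, Z v, A v)) (fun y => j y.1)
      (fun y => (((b y.2, Z y.2, A y.2), j y.2), ())) ≤ ch (glue Q Q (fun v => (b v, Z v, A v))
        fun v => (b v, Z v, A v)) (fun y => j y.1) fun y => ((b y.1, j y.2), Z y.1) :=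
    ch_anti fun u hu v hv e => by
      have e1 := ((m u).1 hu).2.2
      have e2 := ((m v).1 hv).2.2
      simp only [Prod.mk.injEq] at e e1 e2 ⊢
      exact ⟨⟨e1.1 ▸ e2.1 ▸ e.1.1.1, e.1.2⟩, e1.2.1 ▸ e2.2.1 ▸ e.1.1.2.1⟩
  have a6 : ch Q j (fun v => (b v, Z v)) ≤ ch Q A (fun v => (b v, Z v)) +
      ch Q j fun v => ((b v, Z v, A v), ()) :=
    (ch_tri j A _).trans (add_le_add le_rfl (ch_anti fun u _ v _ e => by
      simp only [Prod.mk.injEq] at e ⊢
      exact ⟨⟨e.2.1, e.2.2, e.1⟩, trivial⟩))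
  have a7 := ch_prop Q A fun v => (b v, Z v)
  rw [mi_symm, mi_symm b]
  unfold mi
  linarith

theorem tri {X Y S δ : ℝ} (h1 : |X| ≤ δ) (h2 : |Y| ≤ δ) (h3 : |X - Y - S| ≤ δ) : |S| ≤ 3 * δ := by
  rw [abs_le] at *
  constructor <;> linarith [h1.1, h1.2, h2.1, h2.2, h3.1, h3.2]

variable {κ : Type} [Fintype κ]

theorem wts (om : κ → ℝ × ℝ) (w : ∀ a, 0 ≤ (om a).1 ∧ 0 ≤ (om a).2) : ∃ lam Lam : ℝ, 0 < lam ∧
    0 ≤ Lam ∧ ∀ a, (om a ≠ 0 → lam ≤ (om a).1 + (om a).2) ∧ (om a).1 + (om a).2 ≤ Lam := by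
  obtain ⟨R, r0, hR⟩ := TGB0A.rate (fun a => (om a).1 + (om a).2)
    (fun a => add_nonneg (w a).1 (w a).2) zero_le_one
  refine ⟨1 / (R + 1), ∑ a, ((om a).1 + (om a).2), by positivity, Finset.sum_nonneg fun a _ =>
    add_nonneg (w a).1 (w a).2, fun a => ⟨fun z => ?_, Finset.single_le_sum
      (f := fun a => (om a).1 + (om a).2) (fun a _ => add_nonneg (w a).1 (w a).2)
        (Finset.mem_univ a)⟩⟩
  have p : 0 < (om a).1 + (om a).2 := by
    by_contra k
    exact z (Prod.ext (show _ = (0 : ℝ) by linarith [(w a).1, (w a).2])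
      (show _ = (0 : ℝ) by linarith [(w a).1, (w a).2]))
  rw [div_le_iff₀ (by positivity)]
  nlinarith [hR a p]

omit [Fintype κ] in
theorem dead {om : κ → ℝ × ℝ} (c : κ → κ → κ → ℝ) {a : κ} (h : om a = 0) : Rm om c a = 0 := by
  ext p q
  rcases p with _ | e <;> rcases q with _ | b <;> simp [Rm, cH, Hm, h]

/-- Normalisation of a form. -/
theorem tst {c : κ → κ → κ → ℝ} {r l : κ → ℝ} {S : κ → Prop} {τ τ' m : ℝ} {a0 : κ}
    (h0 : ∀ a, ¬S a → l a = 0) (hm : 0 < m) (h1 : m ≤ |l a0|)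
    (h2 : ∀ a b, |∑ e, sC r c a b e * l e| ≤ τ) (h3 : τ ≤ τ' * m) (t0 : 0 ≤ τ') :
    m ≤ ‖l‖ ∧ Tst c r S τ' fun a => l a / ‖l‖ := by
  have a1 : m ≤ ‖l‖ := h1.trans (norm_le_pi_norm l a0)
  have a2 := hm.trans_le a1
  have le : ∀ a, |l a / ‖l‖| ≤ 1 := fun a => by
    rw [abs_div, abs_of_pos a2, div_le_one a2]; exact norm_le_pi_norm l a
  refine ⟨a1, fun a u => by rw [h0 a u, zero_div], le, ?_, fun a b => ?_⟩
  · have : Nonempty κ := ⟨a0⟩
    obtain ⟨a, ha⟩ := Finite.exists_max fun a => |l a|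
    have e : |l a| = ‖l‖ := le_antisymm (norm_le_pi_norm l a)
      ((pi_norm_le_iff_of_nonneg (abs_nonneg _)).2 ha)
    exact ⟨a, by rw [abs_div, abs_of_pos a2, e, div_self a2.ne']⟩
  · simp only [← mul_div_assoc, ← Finset.sum_div]
    rw [abs_div, abs_of_pos a2, div_le_iff₀ a2]
    exact (h2 a b).trans (h3.trans (mul_le_mul_of_nonneg_left a1 t0))

variable {ι : Type} [Fintype ι] [DecidableEq ι] {Φ : Filt (Mt ι)} {om : κ → ℝ × ℝ}
  {pos : κ → Prop} {x : ℕ → Sy ι κ}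

open Classical in
theorem zero (hW : SWn) (hM : Big (un x)) {N k : ℕ} (hN : ∀ (c : κ → κ → κ → ℝ) (w : List κ),
    N ≤ w.length → (w.map (Rm om c)).prod = 0) (hk : k ≤ 1 ∨ IsEmpty κ) (t : ℝ × ℝ) {C : ℝ}
    (hC : 0 ≤ C) : SBM x om t N k C := by
  intro W β Q π b p r u L η ρ A hη hρ _ _ hT _ ε hε
  obtain ⟨K, -, hK⟩ := hW κ (Option κ) N
  filter_upwards [hT, hM.ev 1] with n hT m1
  rw [pb_zero fun v hv e => ?_]
  · positivity
  obtain ⟨-, h1, h2⟩ := hT v hv
  have z : ∀ a, Rm om (x n).c a *ᵥ u n (b n v) = 0 := fun a => by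
    rcases hk with k1 | k1
    · simpa using h2 [a] k1
    · exact k1.elim a
  have w0 : wn (Rm om (x n).c) N (r n (b n v)) 0 = 0 := by simp [wn]
  obtain ⟨-, -, w3, -, w5⟩ := hK _ (hN (x n).c) (r n (b n v)) (u n (b n v))
  have a1 := w3 _ le_rfl fun a => by rw [z, w0]; exact abs_nonneg _
  have a2 := w5 ((x n).co (sc (x n).M (dep om t)) (p n (b n v)) (π n v)) (fun _ => 1)
    (1 + ‖(x n).co (sc (x n).M (dep om t)) (p n (b n v)) (π n v)‖) 1 0
    (le_add_of_nonneg_right (norm_nonneg _)) zero_le_one le_rfl le_rfl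
    (fun a => ⟨zero_le_one, by
      linarith [show |_| ≤ _ from norm_le_pi_norm
        ((x n).co (sc (x n).M (dep om t)) (p n (b n v)) (π n v)) a]⟩)
    (fun _ _ => le_rfl) fun a => by rw [z, w0, mul_zero]
  simp only [z, dotProduct_zero, mul_zero, Finset.sum_const_zero, sub_zero, abs_nonpos_iff,
    sub_eq_zero] at a2
  rw [Em, a2] at e
  have a3 : Real.exp (-(η * (x n).M)) < 1 := Real.exp_lt_one_iff.2 (neg_lt_zero.2 (mul_pos hη (by
    have : (1 : ℝ) ≤ (x n).M := m1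
    linarith)))
  have a4 := (Real.exp_pos _).trans_le h1
  nlinarith

open Classical in
theorem step (gd : SGd) (ref : SRef) (b0 : SB0) (hW : SWn) (hD : SN4d) {C : ℝ}
    (g : GS Φ om pos C x) {N k : ℕ} (hN : ∀ (c : κ → κ → κ → ℝ) (w : List κ),
    N ≤ w.length → (w.map (Rm om c)).prod = 0) [Nonempty κ] {lam Lam : ℝ} (l0 : 0 < lam)
    (l1 : 0 ≤ Lam) (hl : ∀ a, (om a ≠ 0 → lam ≤ (om a).1 + (om a).2) ∧ (om a).1 + (om a).2 ≤ Lam)
    {t : ℝ × ℝ} (t1 : 0 ≤ t.1) (t2 : 0 ≤ t.2) {C' : ℝ} (hC : 0 ≤ C') (hS : SBM x om t N k C') :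
    SBM x om t N (k + 1) ((3 * C' + 4 * C) * ((Lam + lam) / lam)) := by
  intro W β Q π b p r u L η ρ A hη hρ hB hL hT hI ε hε
  have g0 := g.toG0
  have hM := g0.alg.big
  have C0 : 0 ≤ C := zero_le_one.trans g.one
  obtain ⟨s, hs⟩ : ∃ s, s = η / (Lam + lam) := ⟨_, rfl⟩
  have s0 : 0 < s := by rw [hs]; positivity
  have se : η = Lam * s + lam * s := by rw [hs]; field_simp
  have e0 : 0 < lam * s := mul_pos l0 s0
  have fin : C' * ρ / (lam * s / 3) + 2 * C * ρ / (lam * s / 2) =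
      (3 * C' + 4 * C) * ((Lam + lam) / lam) * ρ / η := by
    rw [hs]; field_simp; ring
  obtain ⟨law, L0, sL0, near⟩ := id hB
  have t1' : 0 ≤ (t.1 + s, t.2 + s).1 := add_nonneg t1 s0.le
  have t2' : 0 ≤ (t.1 + s, t.2 + s).2 := add_nonneg t2 s0.le
  have gD := (TGSideA.gd (r := 0) gd g0 t1 t2 le_rfl).1
  obtain ⟨L1, s1, e1⟩ := (TGSideA.gd (r := 0) gd g0 t1' t2' le_rfl).1
  obtain ⟨K, k1, HN⟩ := sNr Φ.N (Fintype.card κ)
  obtain ⟨_, -, HC⟩ := sCell Φ.N (Fintype.card κ)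
  have s2 := sub_box hM s1 k1
  have s3 := (hL.add sL0 hM).add s2 hM
  obtain ⟨L', s', det⟩ := hD ι κ Φ om pos x g0 N t s lam (A + Lam * s + 1) _ hN t1 t2 s0.le l0.le
    (fun a => (hl a).1) s3
  obtain ⟨L4, s4, e4⟩ := ob_bound hM (J := κ × κ × κ) (f := fun j n => (x n).c j.1 j.2.1 j.2.2)
    fun j => g0.alg.ob _ _ _
  obtain ⟨Kw, -, hK⟩ := hW κ (Option κ) N
  have r0 : ∀ (d : κ → ℝ) a, 0 < rA d a := fun _ _ => Real.exp_pos _
  have key : ∀ᶠ n in UF, ∀ y z, cell (x n).B (rA (sc (x n).M (dep om (t.1 + s, t.2 + s)))) z =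
      cell (x n).B (rA (sc (x n).M (dep om (t.1 + s, t.2 + s)))) y →
      Nr (x n).B (rA (sc (x n).M (dep om (t.1 + s, t.2 + s)))) ((K * L1 n) ^ K) y z := by
    filter_upwards [g0.alg.fr, e1] with n f e y z q
    have c := fun y => TGSBRA.mono ((HC ι κ Φ _ _ (rA (sc (x n).M (dep om (t.1 + s, t.2 + s)))) _ 1
      rfl le_rfl f le_rfl fun a => ⟨r0 _ a, (one_mul _).ge⟩).1 y) (fun _ => le_rfl)
      (fun a => (r0 _ a).le) (s1.1 n) (s1.pos n).le
    have H := fun x y z => HN ι κ Φ _ _ _ _ (L1 n) 0 x y z rfl le_rfl f (s1.1 n) le_rfl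
      (fun a => ⟨(r0 _ a).le, (r0 _ a).le⟩) e.2.1 e.2.1
    exact (H y _ z).2.1 ((H _ y y).1 (c y)) (q ▸ c z)
  obtain ⟨f, hf⟩ : ∃ f : ∀ n, β n → κ → ℝ, f = fun n y a => Real.exp (-(((om a).1 + (om a).2) *
    (s * (x n).M))) * wn (Rm om (x n).c) N (r n y) (Rm om (x n).c a *ᵥ u n y) := ⟨_, rfl⟩
  choose as has using fun n (y : β n) => Finite.exists_max (f n y)
  obtain ⟨G, hG⟩ : ∃ G : ∀ n, β n → Prop, G = fun n y =>
    Real.exp (-((A + Lam * s + 1) * (x n).M)) ≤ f n y (as n y) := ⟨_, rfl⟩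
  obtain ⟨E, hE⟩ : ∃ E : ∀ n, W n → Prop, E = fun n v =>
    |r n (b n v) ⬝ᵥ (Em om (x n).c ((x n).co (sc (x n).M (dep om t)) (p n (b n v))
        (π n v))).mulVec (u n (b n v))| ≤ Real.exp (-(η * (x n).M)) *
          wn (Rm om (x n).c) N (r n (b n v)) (u n (b n v)) := ⟨_, rfl⟩
  have up : ∀ {n d y z} {L5 : ℝ}, L5 ≤ L n + L0 n + (K * L1 n) ^ K → Nr (x n).B (rA d) L5 y z →
      Nr (x n).B (rA d) (L n + L0 n + (K * L1 n) ^ K) y z := fun {n _ _ _ _} e h =>
    TGSBRA.mono h (fun _ => le_rfl) (fun a => (r0 _ a).le) e (s3.pos n).le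
  have A1 : ∀ᶠ n in UF, ∀ v ∈ (Q n).S, E n v → Nr (x n).B (rA (sc (x n).M (dep om t))) (L0 n)
      (p n (b n v)) ((x n).j (π n v)) → G n (b n v) ∧
      wn (Rm om (x n).c) N (r n (b n v)) (u n (b n v)) ≤
        L' n * (Real.exp (Lam * s * (x n).M) * f n (b n v) (as n (b n v))) := by
    filter_upwards [det, hT, law, g0.unit, s'.2 1 one_pos,
      dl_lt hM (K := 1 / 2) (c := η) (by norm_num) hη] with n dt tn lw un l1 dh v hv e nr
    obtain ⟨b1, b2, -⟩ := tn v hv
    have w0 := fun u => (hK _ (hN (x n).c) (r n (b n v)) u).1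
    have f0 : ∀ a, 0 ≤ f n (b n v) a := fun a => by
      rw [hf]; exact mul_nonneg (Real.exp_pos _).le (w0 _)
    have q := (dt _ _ (r n (b n v)) (u n (b n v)) (un _ (lw.mem hv))
      (up (by linarith [hL.pos n, s2.pos n]) nr) fun e => ⟨by
        linarith [(b1 e).1, sL0.pos n, s2.pos n], by linarith [(b1 e).2, sL0.pos n, s2.pos n]⟩).1
      (Real.exp (Lam * s * (x n).M) * f n (b n v) (as n (b n v))) (by
        rw [hE] at e
        have : dl (TG.un x) η n * _ ≤ 1 / 2 * _ := mul_le_mul_of_nonneg_right dh.le (w0 (u n (b n v)))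
        have e' : |r n (b n v) ⬝ᵥ Em om (x n).c (fun a => lg (x n).B (p n (b n v))
          ((x n).j (π n v)) a / rA (sc (x n).M (dep om t)) a) *ᵥ u n (b n v)| ≤
            dl (TG.un x) η n * _ := e
        linarith) (fun a => by
        have a1 := has n (b n v) a
        have a2 : 1 ≤ Real.exp (Lam * s * (x n).M) *
            Real.exp (-(((om a).1 + (om a).2) * (s * (x n).M))) := by
          rw [← Real.exp_add]
          have := mul_le_mul_of_nonneg_right (hl a).2 (mul_nonneg s0.le (Nat.cast_nonneg (x n).M))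
          exact Real.one_le_exp (by linarith)
        refine le_trans ?_ (mul_le_mul_of_nonneg_left a1 (Real.exp_pos _).le)
        rw [hf, ← mul_assoc]
        exact le_mul_of_one_le_left (w0 _) a2) (mul_nonneg (Real.exp_pos _).le (f0 _))
    refine ⟨?_, q⟩
    rw [hG]
    have a1 := (b2.trans q).trans (mul_le_mul_of_nonneg_right l1
      (mul_nonneg (Real.exp_pos _).le (f0 _)))
    rw [← mul_assoc, ← Real.exp_add, ← div_le_iff₀' (Real.exp_pos _), ← Real.exp_sub] at a1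
    exact le_trans (le_of_eq (by congr 1; ring)) a1
  have ε3 : 0 < ε / 3 := by positivity
  have fp : 0 ≤ (3 * C' + 4 * C) * ((Lam + lam) / lam) * ρ / η := by positivity
  rw [show (fun n => pb (Q n) (fun v =>
      |r n (b n v) ⬝ᵥ (Em om (x n).c ((x n).co (sc (x n).M (dep om t)) (p n (b n v))
        (π n v))).mulVec (u n (b n v))| ≤ Real.exp (-(η * (x n).M)) *
          wn (Rm om (x n).c) N (r n (b n v)) (u n (b n v))) ≤
      (3 * C' + 4 * C) * ((Lam + lam) / lam) * ρ / η + ε) = fun n => pb (Q n) (E n) ≤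
      (3 * C' + 4 * C) * ((Lam + lam) / lam) * ρ / η + ε by rw [hE]]
  rcases ev_em (fun n => ∃ v ∈ (Q n).S, G n (b n v)) with ye | no
  swap
  · filter_upwards [A1, no, near ε hε] with n a1 a2 a3
    exact ((pb_mono fun v hv e nr => a2 ⟨v, hv, (a1 v hv e nr).1⟩).trans a3).trans
      (le_add_of_nonneg_left fp)
  have ne : ∀ n, ∃ h : β n → β n, (∀ y, G n y → h y = y) ∧ ((∃ v ∈ (Q n).S, G n (b n v)) →
      ∀ v ∈ (Q n).S, ∃ v' ∈ (Q n).S, h (b n v) = b n v' ∧ G n (b n v')) := fun n => by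
    by_cases c : ∃ v ∈ (Q n).S, G n (b n v)
    · obtain ⟨v0, h0, h1⟩ := c
      refine ⟨fun y => if G n y then y else b n v0, fun y e => if_pos e, fun _ v hv => ?_⟩
      by_cases e : G n (b n v)
      · exact ⟨v, hv, if_pos e, e⟩
      · exact ⟨v0, h0, if_neg e, h1⟩
    · exact ⟨id, fun _ _ => rfl, fun e => (c e).elim⟩
  choose h h1 h2 using ne
  have s5 := ((s4.add (hM.sub (C := Lam + 1) (by linarith)) hM).mul hL).const_mul hM
    (C := Fintype.card (Option κ)) (by exact_mod_cast Fintype.card_pos)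
  have I1 := hS W β Q π b p (fun n y => r n (h n y))
    (fun n y => Rm om (x n).c (as n (h n y)) *ᵥ u n (h n y)) _ (lam * s / 3) ρ (A + Lam * s + 1)
    (by positivity) hρ hB (s5.add hL hM) (by
      filter_upwards [ye, hT] with n a1 tn v hv
      obtain ⟨v', hv', e, gv⟩ := h2 n a1 v hv
      obtain ⟨b1, -, b3⟩ := tn v' hv'
      simp only [e]
      refine ⟨fun q => ⟨by linarith [(b1 q).1, s5.pos n], le_trans ?_
        (le_add_of_nonneg_right (hL.pos n).le)⟩, ?_, fun w hw => ?_⟩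
      · refine TGB0A.sum_bd fun q' => ?_
        rw [abs_mul]
        refine mul_le_mul ?_ (b1 q').2 (abs_nonneg _) (by linarith [s4.pos n])
        have a2 := e4 n
        have a3 := s4.pos n
        have a4 := g0.alg.wt (as n (b n v'))
        have a5 := (hl (as n (b n v'))).2
        rcases q with _ | q <;> rcases q' with _ | q' <;> simp only [Rm, cH, abs_zero]
        · linarith
        · linarith
        · split_ifs
          · rw [abs_of_nonneg a4.2]; linarith [a4.1]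
          · rw [abs_zero]; linarith
        · split_ifs
          · linarith [a2 (as n (b n v'), q', q)]
          · rw [abs_zero]; linarith
      · rw [hG, hf] at gv
        refine gv.trans (mul_le_of_le_one_left (hK _ (hN (x n).c) _ _).1 ?_)
        have a4 := g0.alg.wt (as n (b n v'))
        exact Real.exp_le_one_iff.2 (neg_nonpos.2 (mul_nonneg (add_nonneg a4.1 a4.2)
          (mul_nonneg s0.le (Nat.cast_nonneg _))))
      · have := b3 (w ++ [as n (b n v')]) (by simpa using hw)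
        rwa [List.map_append, List.prod_append, List.map_singleton, List.prod_singleton,
          ← mulVec_mulVec] at this) hI _ ε3
  obtain ⟨T, hTT⟩ : ∃ T : ℕ → (κ → ℝ) → Prop, T = fun n =>
    Tst (x n).c (rA (sc (x n).M (dep om (t.1 + s, t.2 + s)))) (fun a => om a ≠ 0)
      (Real.exp (-(lam * s / 2 * (x n).M))) := ⟨_, rfl⟩
  obtain ⟨l, hl'⟩ : ∃ l : ∀ n, β n × Mt ι → κ → ℝ, l = fun n y =>
    lf om (x n).c (s * (x n).M) (fun a => lg (x n).B (p n y.1) y.2 a /
      rA (sc (x n).M (dep om t)) a) (r n y.1) (u n y.1) := ⟨_, rfl⟩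
  have A2 : ∀ᶠ n in UF, ∀ v ∈ (Q n).S, ∀ v' ∈ (Q n).S, b n v' = b n v →
      (x n).C (sc (x n).M (dep om (t.1 + s, t.2 + s))) (π n v') =
        (x n).C (sc (x n).M (dep om (t.1 + s, t.2 + s))) (π n v) → E n v → E n v' →
      Nr (x n).B (rA (sc (x n).M (dep om t))) (L0 n) (p n (b n v')) ((x n).j (π n v')) →
      ¬|r n (h n (b n v')) ⬝ᵥ (Em om (x n).c ((x n).co (sc (x n).M (dep om t)) (p n (b n v'))
        (π n v'))).mulVec (Rm om (x n).c (as n (h n (b n v'))) *ᵥ u n (h n (b n v')))| ≤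
        Real.exp (-(lam * s / 3 * (x n).M)) * wn (Rm om (x n).c) N (r n (h n (b n v')))
          (Rm om (x n).c (as n (h n (b n v'))) *ᵥ u n (h n (b n v'))) →
      T n (fun a => l n (b n v, (x n).j (π n v')) a / ‖l n (b n v, (x n).j (π n v'))‖) ∧
      |∑ a, l n (b n v, (x n).j (π n v')) a / ‖l n (b n v, (x n).j (π n v'))‖ *
        (x n).co (sc (x n).M (dep om (t.1 + s, t.2 + s))) ((x n).j (π n v')) (π n v) a - 0| ≤
        Real.exp (-(lam * s / 2 * (x n).M)) := by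
    filter_upwards [det, hT, law, g0.unit, A1, key,
      (s'.const_mul hM (C := 3) (by norm_num)).2 (lam * s / 6) (by positivity)]
      with n dt tn lw un a1 ky l3 v hv v' hv' eb ec ev ev' nr bad
    obtain ⟨gv, a2⟩ := a1 v' hv' ev' nr
    rw [h1 n _ gv, not_le] at bad
    rw [← eb]
    rw [hE] at ev ev'
    simp only [← eb] at ev ev'
    obtain ⟨b1, -, -⟩ := tn v' hv'
    rw [hG] at gv
    obtain ⟨q1, q2⟩ := (dt _ _ (r n (b n v')) (u n (b n v')) (un _ (lw.mem hv'))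
      (up (by linarith [hL.pos n, s2.pos n]) nr) fun e => ⟨by
        linarith [(b1 e).1, sL0.pos n, s2.pos n], by linarith [(b1 e).2, sL0.pos n, s2.pos n]⟩).2
      _ gv fun a => by have := has n (b n v') a; rwa [hf] at this ⊢
    have q3 := q2 _ (up (by linarith [hL.pos n, sL0.pos n]) (ky _ _ ec.symm))
    obtain ⟨μ, hμ⟩ : ∃ μ, μ = f n (b n v') (as n (b n v')) := ⟨_, rfl⟩
    have μ0 : 0 < μ := hμ ▸ (Real.exp_pos _).trans_le gv
    have m1 : Real.exp (-(lam * s / 3 * (x n).M)) * μ ≤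
        |l n (b n v', (x n).j (π n v')) (as n (b n v'))| := by
      rw [hμ, hf, hl']
      simp only [lf]
      rw [abs_mul, abs_of_pos (Real.exp_pos _), mul_left_comm]
      exact mul_le_mul_of_nonneg_left bad.le (Real.exp_pos _).le
    rw [← hμ] at q1 q3 a2
    have n3 : 3 * (L' n * Real.exp (-(lam * s * (x n).M)) * μ) ≤
        Real.exp (-(lam * s / 2 * (x n).M)) * (Real.exp (-(lam * s / 3 * (x n).M)) * μ) := by
      rw [← mul_assoc, ← mul_assoc, ← mul_assoc, ← Real.exp_add]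
      refine mul_le_mul_of_nonneg_right ((mul_le_mul_of_nonneg_right l3
        (Real.exp_pos _).le).trans (le_of_eq ?_)) μ0.le
      rw [← Real.exp_add]; congr 1; ring
    have p0 : 0 < L' n * Real.exp (-(lam * s * (x n).M)) * μ :=
      mul_pos (mul_pos (s'.pos n) (Real.exp_pos _)) μ0
    obtain ⟨u1, u2⟩ := tst (c := (x n).c) (r := rA (sc (x n).M (dep om (t.1 + s, t.2 + s))))
      (l := l n (b n v', (x n).j (π n v'))) (S := fun a => om a ≠ 0)
      (τ := L' n * Real.exp (-(lam * s * (x n).M)) * μ) (τ' := Real.exp (-(lam * s / 2 * (x n).M)))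
      (fun a z => by rw [hl']; simp [lf, dead _ (not_not.1 z)])
      (mul_pos (Real.exp_pos _) μ0) m1 (by rw [hl']; exact q1) (by linarith) (Real.exp_pos _).le
    refine ⟨hTT ▸ u2, ?_⟩
    have n0 := (mul_pos (Real.exp_pos _) μ0).trans_le u1
    rw [Finset.sum_congr rfl fun a _ => div_mul_eq_mul_div _ _ _, ← Finset.sum_div,
      sub_zero, abs_div, abs_of_pos n0, div_le_iff₀ n0]
    refine le_trans ?_ (n3.trans (mul_le_mul_of_nonneg_left u1 (Real.exp_pos _).le))
    have a3 := mul_le_mul_of_nonneg_left a2 (Real.exp_pos (-(η * (x n).M))).le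
    have a4 : Real.exp (-(η * (x n).M)) * (L' n * (Real.exp (Lam * s * (x n).M) * μ)) =
        L' n * Real.exp (-(lam * s * (x n).M)) * μ := by
      rw [mul_left_comm, ← mul_assoc (Real.exp _), ← Real.exp_add, mul_assoc (L' n), se]
      congr 3; ring
    rw [hl']
    exact tri (ev.trans (a3.trans_eq a4)) (ev'.trans (a3.trans_eq a4)) q3
  have cp : 0 ≤ 2 * C * ρ / (lam * s / 2) := by positivity
  rcases ev_em (fun n => ∃ y, T n y) with yt | nt
  swap
  · filter_upwards [A2, nt, near _ ε3, I1] with n a1 a2 a3 a4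
    refine ((pb_mono fun v hv e => or_iff_not_imp_left.2 fun nr => not_not.1 fun k =>
      a2 ⟨_, (a1 v hv v hv rfl rfl e e (not_not.1 nr) k).1⟩).trans (pb_or _ _ _)).trans ?_
    linarith
  obtain ⟨φ, hφ⟩ : ∃ φ : ∀ n, W n → β n × (Mt ι × (x n).T) × Prop, φ = fun n v =>
    (b n v, (x n).Z (sc (x n).M (dep om (t.1 + s, t.2 + s))) (π n v), E n v) := ⟨_, rfl⟩
  have mem := fun n y => (R4.kg.mem (Q n) (Q n) (φ n) (φ n) y (Law.rfl _)).1
  have lf1 := fun n => R4.kg.fst (Q n) (Q n) (φ n) (φ n)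
  have lf2 := fun n => R4.kg.snd (Q n) (Q n) (φ n) (φ n) (Law.rfl _)
  have S : SB x (fun n => sc (x n).M (dep om (t.1 + s, t.2 + s))) (fun a => om a ≠ 0) (2 * C) := by
    simp only [TGSideA.sc_dep]
    exact b0 ι κ Φ om pos x C g _ (TGSideA.lv t1' t2')
  have S' := S (fun n => W n × W n) (fun n => β n × Mt ι) (fun n => glue (Q n) (Q n) (φ n) (φ n))
    (fun n y => π n y.1) (fun n y => (b n y.1, (x n).j (π n y.2))) (fun _ => Prod.snd)
    (fun n y => if T n (fun a => l n y a / ‖l n y‖) then fun a => l n y a / ‖l n y‖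
      else epsilon (T n)) (fun _ _ => 0) (lam * s / 2) ρ (by positivity) hρ
    ⟨law.mono fun n w => ((lf1 n).comp (π n)).trans w, _, s2, Whp.of_ev (key.mono
      fun n ky y hy => ky _ _ (by
        have := (mem n y hy).2.2
        rw [hφ] at this
        exact (congrArg (·.2.1.1) this).symm))⟩
    (yt.mono fun n e y _ => by
      have : T n (if T n (fun a => l n (b n y.1, (x n).j (π n y.2)) a /
          ‖l n (b n y.1, (x n).j (π n y.2))‖) then fun a => l n (b n y.1, (x n).j (π n y.2)) a /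
          ‖l n (b n y.1, (x n).j (π n y.2))‖ else epsilon (T n)) := by
        split_ifs with c
        · exact c
        · exact epsilon_spec e
      exact (congrFun (congrFun hTT n) _).mp this)
    (((hI.add (ref ι κ Φ om pos x g0 _ (fun n => sc (x n).M (dep om (t.1 + s, t.2 + s))) gD
      (TGSideA.led fun a => by
        have := mul_nonneg (g0.alg.wt a).1 s0.le
        have := mul_nonneg (g0.alg.wt a).2 s0.le
        simp only [dep]; linarith))).add (hM.sm H17S.lg)).of_sub (law.mono fun n w => by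
      have a0 := inf (Q n) (b n) (fun v => (x n).j (π n v))
        (fun v => (x n).Z (sc (x n).M (dep om (t.1 + s, t.2 + s))) (π n v)) (E n)
      have a1 := TGFinA.inf (Q n) (b n) (fun v => (x n).j (π n v)) (fun v => (x n).Θ (π n v))
        (cell (x n).B (rA (sc (x n).M (dep om t))))
        (cell (x n).B (rA (sc (x n).M (dep om (t.1 + s, t.2 + s)))))
      have a2 := w.ch_id ((x n).C (sc (x n).M (dep om t)))
        ((x n).C (sc (x n).M (dep om (t.1 + s, t.2 + s))))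
      have a3 := (mi_mono' (P := Q n) (F := b n) ((Fn.fst _ _).left _)).trans
        (a1.trans (add_le_add le_rfl a2.le))
      have a4 := a0.trans (add_le_add a3 le_rfl)
      rw [add_zero, add_zero, hφ]
      exact sub_le_sub_right a4 _)) _ ε3
  filter_upwards [S', A2, near _ ε3, I1] with n a1 a2 a3 a4
  have tr : ∀ {F : W n → Prop} {q : ℝ}, pb (Q n) F ≤ q →
      pb (glue (Q n) (Q n) (φ n) (φ n)) (fun y => F y.2) ≤ q := fun {F _} e =>
    ((lf2 n).pb_eq F).trans_le e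
  replace a3 := tr a3
  replace a4 := tr a4
  rw [← fin]
  refine ((lf1 n).pb_eq (E n)).ge.trans (((pb_mono fun y hy e => ?_).trans ((pb_or _ _ _).trans
    (add_le_add (pb_or _ _ _) le_rfl))).trans ((add_le_add (add_le_add a3 a4) a1).trans
      (by linarith)))
  obtain ⟨m1, m2, m3⟩ := mem n y hy
  rw [hφ] at m3
  simp only [Prod.mk.injEq, Sy.Z] at m3
  refine or_iff_not_imp_left.2 fun k => ?_
  rw [not_or, not_not] at k
  have q := a2 y.1 m1 y.2 m2 m3.1 m3.2.1.1 e (m3.2.2 ▸ e) k.1 k.2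
  simp only [if_pos q.1]
  exact q.2

end TGN4A

theorem tgN4g (gd : SGd) (ref : SRef) (b0 : SB0) (hW : SWn) (hD : SN4d) : SN4 := by
  intro ι κ _ _ _ Φ om pos x C g N hN
  refine ⟨fun t => TGN4A.zero hW g.alg.big hN (Or.inl le_rfl) t le_rfl, fun k C' hC => ?_⟩
  rcases isEmpty_or_nonempty κ with e | e
  · exact ⟨0, le_rfl, fun t _ _ _ => TGN4A.zero hW g.alg.big hN (Or.inr e) t le_rfl⟩
  obtain ⟨lam, Lam, l0, l1, hl⟩ := TGN4A.wts om g.alg.wt
  have := g.one
  exact ⟨_, by positivity, fun t t1 t2 => TGN4A.step gd ref b0 hW hD g hN l0 l1 hl t1 t2 hC⟩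

theorem tgN4 : OfN4 := fun gd ref b0 rep => tgN4g gd ref b0 tgWn (tgN4d rep tgWn)

end Pool.Agent.MP_5168f5_an.AN.TG
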