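import Pool.Agent.MP_5168f5_an.AN.TGSpec
import Pool.Agent.MP_5168f5_an.AN.GAAll
import Pool.Agent.MP_5168f5_an.R4.Api

/-! Systems pull back to larger spaces. -/

namespace Pool.Agent.MP_5168f5_an.AN.TG

open H19 H17S H17F G39 GA Filter H61Z

theorem tgPull : SPull := by
  intro ι κ _ _ _ Φ om pos x C h W Q π e
  refine ⟨⟨h.alg, ?_⟩, h.one, fun k t r a b c => ?_, fun k t η ρ a b c d ε hε => ?_⟩
  · filter_upwards [h.unit, e] with n u v ω hω using u _ (v.mem hω)
  · exact (h.f k t r a b c).trans (Le.of_ev (e.mono fun n v => (v.ch_id _ _).ge))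
  · filter_upwards [h.ac k t η ρ a b c d ε hε, e] with n u v W' β Q' π' b' l c0 hl
    exact u W' β Q' (fun w => π n (π' w)) b' l c0 ((hl.comp (π n)).trans v)

end Pool.Agent.MP_5168f5_an.AN.TG
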