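import Pool.Agent.MP_5168f5_an.AN.TGSpec

/-! From rational to real parameters. -/

namespace Pool.Agent.MP_5168f5_an.AN.TG

open H19 H17S H17F G39 GA Filter H61Z

namespace TGRatA

variable {κ : Type} {om : κ → ℝ × ℝ}

theorem sc_dep (m : ℕ) (t : ℝ × ℝ) : sc m (dep om t) = dep om (t.1 * m, t.2 * m) :=
  funext fun a => by simp only [sc, dep]; ring

theorem sc_up (m : ℕ) (d : κ → ℝ) (r : ℝ) (S : κ → Prop) :
    sc m (up d r S) = up (sc m d) (r * m) S := funext fun a => by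
  simp only [sc, up]
  split_ifs
  exacts [add_mul _ _ _, rfl]

theorem rat [Fintype κ] (h : ∀ a, 0 ≤ (om a).1 ∧ 0 ≤ (om a).2) {t : ℝ × ℝ} (h1 : 0 ≤ t.1)
    (h2 : 0 ≤ t.2) {σ : ℝ} (hσ : 0 < σ) : ∃ u : ℚ × ℚ, 0 ≤ u.1 ∧ 0 ≤ u.2 ∧ ∀ a,
      dep om t a ≤ dep om (u.1, u.2) a ∧ dep om (u.1, u.2) a ≤ dep om t a + σ := by
  have w := fun a => add_nonneg (h a).1 (h a).2
  have w0 : 0 < ∑ a, ((om a).1 + (om a).2) + 1 :=
    add_pos_of_nonneg_of_pos (Finset.sum_nonneg fun a _ => w a) one_pos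
  have d0 := div_pos hσ w0
  obtain ⟨u, u1, u2⟩ := exists_rat_btwn (lt_add_of_pos_right t.1 d0)
  obtain ⟨v, v1, v2⟩ := exists_rat_btwn (lt_add_of_pos_right t.2 d0)
  refine ⟨(u, v), by exact_mod_cast h1.trans u1.le, by exact_mod_cast h2.trans v1.le, fun a => ?_⟩
  have e := mul_le_mul_of_nonneg_right ((Finset.single_le_sum (fun a _ => w a)
    (Finset.mem_univ a)).trans (lt_add_one _).le) d0.le
  rw [mul_div_cancel₀ _ w0.ne'] at e
  simp only [dep]
  constructor <;> linarith [mul_le_mul_of_nonneg_left u1.le (h a).1,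
    mul_le_mul_of_nonneg_left v1.le (h a).2, mul_le_mul_of_nonneg_left u2.le (h a).1,
    mul_le_mul_of_nonneg_left v2.le (h a).2]

end TGRatA

open TGRatA

theorem tgRat : OfRat := by
  intro hG hM hF hA ι κ _ _ _ Φ om pos x C h
  have g := h.toG0
  have C0 : 0 ≤ C := zero_le_one.trans h.one
  have m0 : ∀ n, (0 : ℝ) ≤ (x n).M := fun n => Nat.cast_nonneg _
  have gd : ∀ (t : ℝ × ℝ) (r : ℝ), 0 ≤ t.1 → 0 ≤ t.2 → 0 ≤ r →
      Gd x (fun n => sc (x n).M (dep om t)) ∧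
      ∀ k, Gd x fun n => sc (x n).M (up (dep om t) r fun a => pos a ∧ Pu om k a) :=
    fun t r h1 h2 h3 => by
      simp only [sc_up, sc_dep]
      have := (hG _ _ Φ om pos x g).2 (fun n => (t.1 * (x n).M, t.2 * (x n).M))
        (fun n => r * (x n).M) ⟨t.1 + t.2, .of_forall fun n => by
          have := mul_nonneg h1 (m0 n)
          have := mul_nonneg h2 (m0 n)
          refine ⟨?_, ?_, ?_, ?_⟩ <;> linarith⟩
        ⟨r, .of_forall fun n => ⟨mul_nonneg h3 (m0 n), le_rfl⟩⟩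
      exact ⟨this.1, this.2.2⟩
  refine ⟨g, h.one, fun k t r h1 h2 h3 => Le.eps fun ε hε => ?_, fun k t η ρ h1 h2 =>
    hA _ _ Φ om pos x g _ _ C C0 (hF _ _ Φ om pos x g _ _ C C0 (gd t 0 h1 h2 le_rfl).1
      ⟨∑ a, |dep om t a|, .of_forall fun n a => ?_⟩ fun σ hσ => ?_) η ρ⟩
  · have c0 : 0 ≤ cd fun a => pos a ∧ Pu om k a := Nat.cast_nonneg _
    have d0 : 0 < ε / (2 * (cd (fun a => pos a ∧ Pu om k a) + 1)) := by positivity
    have d1 : 2 * (cd (fun a => pos a ∧ Pu om k a) + 1) *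
      (ε / (2 * (cd (fun a => pos a ∧ Pu om k a) + 1))) = ε := mul_div_cancel₀ _ (by positivity)
    generalize ε / (2 * (cd (fun a => pos a ∧ Pu om k a) + 1)) = δ at d0 d1
    obtain ⟨u, u1, u2, u3⟩ := rat g.alg.wt h1 h2 d0
    obtain ⟨q, q1, q2⟩ := exists_rat_btwn (show r - 2 * δ < r - δ by linarith)
    have v1 : (0 : ℝ) ≤ u.1 := by exact_mod_cast u1
    have v2 : (0 : ℝ) ≤ u.2 := by exact_mod_cast u2
    have v3 : (0 : ℝ) ≤ (max q 0 : ℚ) := by exact_mod_cast le_max_right q 0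
    refine (h.f k u (max q 0) u1 u2 (le_max_right _ _)).of2 (hM _ _ Φ om pos x g _ _ _ _
      (gd t r h1 h2 h3).1 ((gd t r h1 h2 h3).2 k) (gd (u.1, u.2) _ v1 v2 v3).1
      ((gd (u.1, u.2) _ v1 v2 v3).2 k)
      (fun a => Le.of_le fun n => mul_le_mul_of_nonneg_right (u3 a).1 (m0 n))
      fun a => Le.of_le fun n => ?_) (.of_forall fun n => ?_)
    · simp only [sc, ← max_mul_of_nonneg _ _ (m0 n), up]
      refine mul_le_mul_of_nonneg_right ?_ (m0 n)
      split_ifs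
      · rw [Rat.cast_max, ← max_add_add_left, max_comm, Rat.cast_zero, add_zero]
        exact max_le_max le_rfl (by linarith [(u3 a).2])
      · exact le_max_left _ _
    · have q3 : (q : ℝ) ≤ (max q 0 : ℚ) := by exact_mod_cast le_max_left q 0
      have := mul_le_mul_of_nonneg_right (mul_le_mul_of_nonneg_left (q1.le.trans q3) c0) (m0 n)
      have := mul_nonneg d0.le (m0 n)
      rw [← d1]
      linarith
  · rw [sc, abs_mul, Nat.abs_cast]
    exact mul_le_mul_of_nonneg_right (Finset.single_le_sum (f := fun a => |dep om t a|)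
      (fun _ _ => abs_nonneg _) (Finset.mem_univ a)) (m0 n)
  · obtain ⟨u, u1, u2, u3⟩ := rat g.alg.wt h1 h2 hσ
    exact ⟨_, fun a => Le.of_le fun n => mul_le_mul_of_nonneg_right (u3 a).1 (m0 n),
      fun a _ => Le.of_le fun n => (mul_le_mul_of_nonneg_right (u3 a).2 (m0 n)).trans_eq
        (add_mul _ _ _), fun η ρ => h.ac k u η ρ u1 u2⟩

end Pool.Agent.MP_5168f5_an.AN.TG
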