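import Pool.Agent.MP_5168f5_an.AN.TGSpec
import Pool.Agent.MP_5168f5_an.AN.GAAll
import Pool.Agent.MP_5168f5_an.R4.Api

/-! Kakeya sets in all dimensions: a deeper cell determines the cell. -/

namespace Pool.Agent.MP_5168f5_an.AN.TG

open H19 H17S H17F G39 GA Filter H61Z

namespace TGRefA

variable {ι κ : Type} [Fintype ι] [DecidableEq ι] [Fintype κ]

omit [Fintype ι] [DecidableEq ι] in
/-- Comparable depths give comparable radii. -/
theorem rad_le {M : ℕ → ℕ} {D D' : ℕ → κ → ℝ}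
    (h : ∀ a, Le M (fun n => D n a) fun n => D' n a) :
    ∃ L, Sub M L ∧ ∀ n a, rA (D' n) a ≤ L n * rA (D n) a := by
  have h1 : ∀ a, Sm M fun n => max 0 (D n a - D' n a) := fun a ε hε =>
    (h a ε hε).mono fun n k => max_le (by positivity) (by linarith)
  refine ⟨_, Sub.exp (Sm.sum Finset.univ fun a _ => h1 a)
    fun n => Finset.sum_nonneg fun a _ => le_max_left _ _, fun n a => ?_⟩
  have h2 := Finset.single_le_sum (f := fun a => max 0 (D n a - D' n a))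
    (fun a _ => le_max_left _ _) (Finset.mem_univ a)
  unfold rA
  rw [← Real.exp_add]
  exact Real.exp_le_exp.2 (by linarith [le_max_right 0 (D n a - D' n a)])

open GACntA in
theorem det (Φ : Filt (Mt ι)) : ∃ K : ℕ, 1 ≤ K ∧ ∀ (B : κ → Mt ι) (c : κ → κ → κ → ℝ)
    (r r' : κ → ℝ) (L : ℝ) (Ω : Type) (P : FP Ω) (j : Ω → Mt ι), IsFr Φ B c →
    (∀ ω ∈ P.S, IsUnit (j ω)) → 1 ≤ L → (∀ a, 0 < r a) → (∀ a, 0 < r' a ∧ r' a ≤ L * r a) →
    Idl c r r L → Det P (fun ω => cell B r (j ω)) (fun ω => cell B r' (j ω)) ((K * L) ^ K) := by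
  obtain ⟨K, k, hC⟩ := sCell Φ.N (Fintype.card κ)
  refine ⟨K, k, fun B c r r' L Ω P j fr un l p hr i a ha => ?_⟩
  have c2 := (hC ι κ Φ B c r r' L rfl le_rfl fr l hr).1
  obtain ⟨T, h1, h2⟩ := (hC ι κ Φ B c r r L rfl le_rfl fr l fun a =>
    ⟨p a, le_mul_of_one_le_left (p a).le l⟩).2 i i _ (nr_unit (c2 _) (un a ha))
  refine ⟨T, by simpa [(p _).ne'] using h1, fun b _ e => h2 _ ?_⟩
  rw [← show cell B r' (j b) = cell B r' (j a) from e]
  exact nr_mono (c2 _) fun a => (one_mul _).trans_le (hr a).2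

end TGRefA

open TGRefA in
theorem tgRef : SRef := by
  rintro ι κ _ _ _ Φ om pos x g D D' ⟨L1, s1, i1⟩ h
  obtain ⟨L2, s2, i2⟩ := rad_le h
  obtain ⟨K, k, hd⟩ := det (κ := κ) Φ
  have s := s1.mul s2
  refine (sub_box g.alg.big s k).log.mono (((g.alg.fr.and g.unit).and i1).mono fun n a => ?_)
  have p : ∀ D : κ → ℝ, ∀ e, 0 < rA D e := fun _ _ => Real.exp_pos _
  exact ch_det (hd _ _ _ _ _ _ (x n).P (x n).j a.1.1 a.1.2 (s.1 n) (p _)
    (fun e => ⟨p _ e, (i2 n e).trans (mul_le_mul_of_nonneg_right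
      (le_mul_of_one_le_left (s2.pos n).le (s1.1 n)) (p _ e).le)⟩)
    (GACntA.idl_mono a.2.2.1 (p _) (le_mul_of_one_le_right (s1.pos n).le (s2.1 n))))

end Pool.Agent.MP_5168f5_an.AN.TG
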