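import Pool.Agent.MP_5168f5_an.AN.TGSpec
import Pool.Agent.MP_5168f5_an.R4.Api

/-! Kakeya sets in all dimensions: the small ball bound along sequences of levels. -/

namespace Pool.Agent.MP_5168f5_an.AN.TG

open H19 H17S H17F G39 GA Filter H61Z

namespace TGSBA

theorem lim {M : ℕ → ℕ} {f : ℕ → ℝ} {K : ℝ} (hM : Big M)
    (h : ∀ᶠ n in UF, 0 ≤ f n ∧ f n ≤ K * M n) : ∃ c, 0 ≤ c ∧ R4.Eqv M f fun n => c * M n := by
  have e := R4.Bd1.eqv (M := M) (f := f) ⟨K, h.mono fun n a => (abs_of_nonneg a.1).trans_le a.2⟩ hM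
  exact ⟨_, Le.num hM ((Le.of_ev (h.mono fun n a => (zero_mul _).trans_le a.1)).trans e.1), e⟩

end TGSBA

open TGSBA in
theorem tgSB : OfSB := by
  intro hG hF ι κ _ _ _ Φ om pos x C h k t ⟨K, hK⟩
  have hM := h.alg.big
  have w := h.alg.wt
  obtain ⟨c₁, p1, e1⟩ := lim hM (hK.mono fun n a => ⟨a.1, a.2.1⟩)
  obtain ⟨c₂, p2, e2⟩ := lim hM (hK.mono fun n a => a.2.2)
  refine hF ι κ Φ om pos x h.toG0 _ _ C (zero_le_one.trans h.one)
    ((hG ι κ Φ om pos x h.toG0).2 t (fun _ => 0) ⟨K, hK⟩ ⟨0, by simp⟩).1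
    ⟨(∑ a, ((om a).1 + (om a).2)) * K, hK.mono fun n u a => ?_⟩ fun σ hσ =>
      ⟨dep om (c₁, c₂), fun a => ?_, fun a _ => ?_, fun η ρ h1 h2 =>
        h.ac k _ η ρ p1 p2 (by exact_mod_cast h1) (by exact_mod_cast h2)⟩
  · have a1 := mul_le_mul_of_nonneg_left u.2.1 (w a).1
    have a2 := mul_le_mul_of_nonneg_left u.2.2.2 (w a).2
    have a3 := mul_le_mul_of_nonneg_right (Finset.single_le_sum
      (f := fun a => (om a).1 + (om a).2) (fun a _ => add_nonneg (w a).1 (w a).2)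
      (Finset.mem_univ a)) (u.1.trans u.2.1)
    rw [dep, abs_of_nonneg (add_nonneg (mul_nonneg (w a).1 u.1) (mul_nonneg (w a).2 u.2.2.1))]
    linarith
  · exact (e1.1.smul (w a).1).of2 (e2.1.smul (w a).2) (Eventually.of_forall fun n => by
      simp only [dep, sc]; linarith)
  · exact (e1.2.smul (w a).1).of2 (e2.2.smul (w a).2) (Eventually.of_forall fun n => by
      have : 0 ≤ σ * (x n).M := by positivity
      simp only [dep, sc]; linarith)

end Pool.Agent.MP_5168f5_an.AN.TG
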