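import Pool.Agent.MP_5168f5_an.AN.TGSpec
import Pool.Agent.MP_5168f5_an.AN.GAAll
import Pool.Agent.MP_5168f5_an.R4.Api

/-! Fullness along sequences of levels. -/

namespace Pool.Agent.MP_5168f5_an.AN.TG

open H19 H17S H17F G39 GA Filter R4

namespace TGSeqFA

theorem lim {M : ℕ → ℕ} (hM : Big M) {f : ℕ → ℝ} {K : ℝ}
    (h : ∀ᶠ n in UF, 0 ≤ f n ∧ f n ≤ K * M n) : ∃ c, 0 ≤ c ∧ Eqv M f fun n => c * M n := by
  have e := Bd1.eqv (M := M) (f := f) ⟨K, h.mono fun n a => by rw [abs_of_nonneg a.1]; exact a.2⟩ hM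
  exact ⟨_, Le.num hM ((Le.of_ev (h.mono fun n a => by rw [zero_mul]; exact a.1)).trans e.1), e⟩

theorem sc_dep {κ : Type} (om : κ → ℝ × ℝ) (m : ℕ) (t : ℝ × ℝ) :
    sc m (dep om t) = dep om (t.1 * m, t.2 * m) := by
  funext a; simp only [sc, dep]; ring

theorem sc_up {κ : Type} (d : κ → ℝ) (m : ℕ) (r : ℝ) (S : κ → Prop) :
    sc m (up d r S) = up (sc m d) (r * m) S := by
  funext a; simp only [sc, up]; split_ifs <;> ring

theorem le_dep {κ : Type} {om : κ → ℝ × ℝ} {M : ℕ → ℕ} {t t' : ℕ → ℝ × ℝ} {a : κ}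
    (h : 0 ≤ (om a).1 ∧ 0 ≤ (om a).2) (h1 : Le M (fun n => (t n).1) fun n => (t' n).1)
    (h2 : Le M (fun n => (t n).2) fun n => (t' n).2) :
    Le M (fun n => dep om (t n) a) fun n => dep om (t' n) a := (h1.smul h.1).add (h2.smul h.2)

theorem le_up {κ : Type} {M : ℕ → ℕ} {d d' : ℕ → κ → ℝ} {r r' : ℕ → ℝ} (S : κ → Prop) {a : κ}
    (h1 : Le M (fun n => d n a) fun n => d' n a) (h2 : Le M r r') :
    Le M (fun n => up (d n) (r n) S a) fun n => up (d' n) (r' n) S a := by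
  by_cases h : S a
  · simpa only [up, if_pos h] using h1.add h2
  · simpa only [up, if_neg h] using h1

end TGSeqFA

open TGSeqFA in
theorem tgSeqF : OfSeqF := by
  intro hG hMo ι κ _ _ _ Φ om pos x C h k t r ht hr
  have hM := h.alg.big
  obtain ⟨K, e⟩ := id ht
  obtain ⟨K', e'⟩ := id hr
  obtain ⟨t1, p1, q1⟩ := lim hM (e.mono fun n a => ⟨a.1, a.2.1⟩)
  obtain ⟨t2, p2, q2⟩ := lim hM (e.mono fun n a => a.2.2)
  obtain ⟨r0, p0, q0⟩ := lim hM e'
  have g1 := (hG ι κ Φ om pos x h.toG0).2 t r ht hr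
  have g2 := (hG ι κ Φ om pos x h.toG0).2 (fun n => (t1 * (x n).M, t2 * (x n).M))
    (fun n => r0 * (x n).M) ⟨t1 + t2, Eventually.of_forall fun n => by
      have := mul_nonneg p1 (Nat.cast_nonneg (x n).M)
      have := mul_nonneg p2 (Nat.cast_nonneg (x n).M)
      refine ⟨?_, ?_, ?_, ?_⟩ <;> simp only [add_mul] <;> linarith⟩
    ⟨r0, Eventually.of_forall fun n => ⟨mul_nonneg p0 (Nat.cast_nonneg _), le_rfl⟩⟩
  have m := hMo ι κ Φ om pos x h.toG0 _ _ _ _ g1.1 (g1.2.2 k) g2.1 (g2.2.2 k)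
    (fun a => le_dep (h.alg.wt a) q1.1 q2.1) fun a =>
      (le_up _ (le_dep (h.alg.wt a) q1.2 q2.2) q0.2).trans (Le.of_le fun n => le_max_right _ _)
  have f := h.f k (t1, t2) r0 p1 p2 p0
  simp only [FullAt, sc_up, sc_dep, mul_assoc] at f
  exact ((q0.1.smul (Nat.cast_nonneg _)).trans f).trans m

end Pool.Agent.MP_5168f5_an.AN.TG
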