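import Pool.Agent.MP_5168f5_an.AN.TGGd
import Pool.Agent.MP_5168f5_an.AN.GAAll

/-! Exchange of the two families; fewer positions. -/

namespace Pool.Agent.MP_5168f5_an.AN.TG

open H19 H17S H17F G39 GA Filter H61Z

namespace TGSwapA

variable {ι κ : Type} {om : κ → ℝ × ℝ}

theorem sw0 (u : ℝ × ℝ) : u.swap = 0 ↔ u = 0 := Prod.swap_injective.eq_iff' rfl

theorem hm (a b e : κ) : Hm (fun a => (om a).swap) a b e ↔ Hm om a b e := by
  simp only [Hm, Ne, sw0, ← Prod.swap_add, Prod.swap_inj]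

theorem dep_sw (t : ℝ × ℝ) : dep (fun a => (om a).swap) t = dep om t.swap :=
  funext fun _ => add_comm _ _

theorem pu (k : Bool) : Pu (fun a => (om a).swap) k = Pu om (!k) := by
  cases k <;> exact funext fun a => propext and_comm

variable [Fintype κ]

theorem sum_up (d : κ → ℝ) (r : ℝ) (S : κ → Prop) : ∑ a, up d r S a = ∑ a, d a + cd S * r := by
  classical
  rw [cd, ← nsmul_eq_mul, ← Finset.sum_const, Finset.sum_filter, ← Finset.sum_add_distrib]
  exact Finset.sum_congr rfl fun a _ => by unfold up; split_ifs <;> simp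

variable [Fintype ι] [DecidableEq ι] {M : ℕ → ℕ} {Φ : Filt (Mt ι)} {pos : κ → Prop}
  {B : ℕ → κ → Mt ι} {c : ℕ → κ → κ → κ → ℝ}

theorem alg (h : Alg M Φ om pos B c) : Alg M Φ (fun a => (om a).swap) pos B c where
  big := h.big
  fr := h.fr
  wt a := (h.wt a).symm
  live a u := mt (sw0 _).1 (h.live a u)
  ob := h.ob
  hom a b e u v := h.hom a b e (mt (sw0 _).2 u) (mt (hm a b e).2 v)
  sub := h.sub
  gen e u := by
    obtain ⟨l, h1, h2⟩ := h.gen e u.symm
    have e1 : Hm (fun a => (om a).swap) = Hm om := by funext a b e; exact propext (hm a b e)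
    refine ⟨l, h1, fun e' v => ?_⟩
    unfold cH
    rw [e1]
    exact h2 e' (Prod.swap_injective v)

theorem id_up (h : Alg M Φ om pos B c) {t : ℝ × ℝ} {r : ℝ} (h1 : 0 ≤ t.1) (h2 : 0 ≤ t.2)
    (hr : 0 ≤ r) (k : Bool) : Id M c (up (dep om t) r fun a => pos a ∧ Pu om k a)
      (up (dep om t) r fun a => pos a ∧ Pu om k a) := fun a b e lt => by
  have d0 : ∀ a, 0 ≤ dep om t a := fun a =>
    add_nonneg (mul_nonneg (h.wt a).1 h1) (mul_nonneg (h.wt a).2 h2)
  have := d0 a
  have := d0 b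
  unfold up at lt
  by_cases z : om e = 0
  · have : dep om t e = 0 := by simp [dep, z]
    rw [if_neg (c := pos e ∧ _) fun u => h.live e u.1 z] at lt
    split_ifs at lt <;> linarith
  by_cases y : Hm om a b e
  · have : dep om t e = dep om t a + dep om t b := by
      simp only [dep, y.2.2, Prod.fst_add, Prod.snd_add]
      ring
    split_ifs at lt with u v w <;> try linarith
    rename_i v w
    exact h.sub a b e (fun p => u ⟨p, (TGGdA.pure h.wt y w.2).1⟩)
      (fun p => v ⟨p, (TGGdA.pure h.wt y w.2).2⟩) w.1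
  · exact h.hom a b e z y

end TGSwapA

open TGSwapA in
theorem tgSwap : SSwap := by
  intro ι κ _ _ _ Φ om pos x C h
  refine ⟨⟨⟨alg h.alg, h.unit⟩, h.one, fun k t r h1 h2 hr => ?_, fun k t η ρ h1 h2 e1 e2 => ?_⟩,
    fun pos' sub g => ⟨g, h.one, fun k t r h1 h2 hr => ?_, h.ac⟩⟩
  · rw [dep_sw, pu]; exact h.f _ _ r h2 h1 hr
  · rw [dep_sw, pu]; exact h.ac _ _ η ρ h2 h1 e1 e2
  have a := (sCntW ι κ _ Φ om pos _ _ _ (pr x) (fun n => (x n).j) _ _ h.alg h.unit
    (id_up g.alg h1 h2 hr k) (id_up h.alg h1 h2 hr k)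
    (fun a => by
      unfold up
      split_ifs with u v v
      exacts [le_rfl, absurd ⟨sub a u.1, u.2⟩ v, le_add_of_nonneg_right hr, le_rfl])
    fun a z => by
      unfold up
      rw [if_neg fun u => g.alg.live a u.1 z, if_neg fun u => h.alg.live a u.1 z]).1
  refine (h.f k t r h1 h2 hr).of2 a (Eventually.of_forall fun n => ?_)
  have b := ch_tri' (P := (x n).P)
    ((x n).C (sc (x n).M (up (dep om t) r fun a => pos a ∧ Pu om k a)))
    ((x n).Z (sc (x n).M (dep om t)))
    ((x n).C (sc (x n).M (up (dep om t) r fun a => pos' a ∧ Pu om k a)))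
  have aux : ∀ s s' u u' v m D : ℝ, u ≤ v + u' →
      s' * r * m - u' ≤ s * r * m - u + (v - (D + s * r - (D + s' * r)) * m) := by
    intros; linarith
  rw [Finset.sum_sub_distrib, sum_up, sum_up]
  exact aux _ _ _ _ _ _ _ b

end Pool.Agent.MP_5168f5_an.AN.TG
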