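import Pool.Agent.MP_5168f5_an.AN.TGSpec
import Pool.Agent.MP_5168f5_an.AN.GAAll

/-! Kakeya sets in all dimensions: the induction for bigraded groups. -/

namespace Pool.Agent.MP_5168f5_an.AN.TG

open H19 H17S H17F G39 GA Filter H61Z

namespace TGThmA

variable {ι κ : Type} [Fintype ι] [DecidableEq ι] [Fintype κ]

omit [Fintype κ] in
theorem mx_swap (om : κ → ℝ × ℝ) : Mx (fun a => (om a).swap) = Mx om :=
  funext fun _ => propext and_comm

theorem step (hs : SSwap) (ho : SOver) (ht : STerm) (Φ : Filt (Mt ι)) (om : κ → ℝ × ℝ)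
    (pos : κ → Prop) (h1 : IH1 Φ pos) (h2 : IH2 Φ om pos) : ThmAt Φ om pos := by
  classical
  intro C x hx
  by_cases hp : ∃ a, pos a
  swap
  · intro r _
    have h0 : cd pos = 0 := by
      unfold cd
      rw [Finset.filter_false_of_mem fun a _ h => hp ⟨a, h⟩]; simp
    refine Le.of_le fun n => ?_
    rw [h0, zero_mul, zero_mul]
    exact ch_nonneg _ _
  obtain ⟨f, hf, hm⟩ := Finset.exists_max_image (Finset.univ.filter pos)
    (fun a => (om a).1 + (om a).2) (by obtain ⟨a, h⟩ := hp; exact ⟨a, by simpa using h⟩)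
  have hf' : pos f := by simpa using hf
  have q := sQuot ι κ _ Φ om pos _ _ f hx.alg
  have g0 : G0 Φ om (fun e => pos e ∧ e ≠ f) x :=
    ⟨q.2.2.1 fun a e _ he _ => q.2.2.2 hf' (fun a h => hm a (by simpa using h)) a e he, hx.unit⟩
  by_cases c1 : ∃ a, Mx om a ∧ (om f).1 * (om a).2 < (om a).1 * (om f).2
  · obtain ⟨a, h, h'⟩ := c1
    exact ho ι κ Φ om pos x C f a hx hf' g0 h h' h1 h2
  have hy := (hs ι κ Φ om pos x C hx).1
  by_cases c2 : ∃ a, Mx om a ∧ (om a).1 * (om f).2 < (om f).1 * (om a).2
  · obtain ⟨a, h, h'⟩ := c2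
    have q' := sQuot ι κ _ Φ _ pos _ _ f hy.alg
    have g1 : G0 Φ (fun a => (om a).swap) (fun e => pos e ∧ e ≠ f) x :=
      ⟨q'.2.2.1 fun a e _ he _ => q.2.2.2 hf' (fun a h => hm a (by simpa using h)) a e he, hx.unit⟩
    refine ho ι κ Φ _ pos x C f a hy hf' g1 (by rw [mx_swap]; exact h) ?_ h1 ?_
    · simpa [mul_comm] using h'
    · intro om' e
      rw [mx_swap] at e
      exact h2 om' e
  refine ht ι κ Φ om pos x C hx (fun a b ha hb => ?_) h1
  push Not at c1 c2
  have ea := le_antisymm (c1 a ha) (c2 a ha)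
  have eb := le_antisymm (c1 b hb) (c2 b hb)
  have w := hx.alg.wt f
  have l := hx.alg.live f hf'
  have hpos : 0 < (om f).1 := by
    rcases w.1.lt_or_eq with h | h
    · exact h
    · exfalso
      rw [← h, zero_mul] at ea
      rcases mul_eq_zero.1 ea with h' | h'
      · exact ha.1.ne' h'
      · exact l (Prod.ext h.symm h')
  have hpos2 : 0 < (om f).2 := by
    rcases w.2.lt_or_eq with h | h
    · exact h
    · exfalso
      rw [← h, mul_zero] at ea
      exact (mul_pos hpos ha.2).ne ea
  have : (om f).2 * ((om a).1 * (om b).2) = (om f).2 * ((om b).1 * (om a).2) := by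
    linear_combination (om b).2 * ea - (om a).2 * eb
  exact mul_left_cancel₀ hpos2.ne' this

end TGThmA

theorem tgThm : OfThmG := by
  classical
  intro hs ho ht ι κ _ _ _ Φ
  have key : ∀ n m : ℕ, ∀ (om : κ → ℝ × ℝ) (pos : κ → Prop), cd pos = n → cd (Mx om) = m →
      ThmAt Φ om pos := by
    intro n
    induction n using Nat.strong_induction_on with
    | _ n ih =>
      intro m
      induction m using Nat.strong_induction_on with
      | _ m ih2 =>
        intro om pos e1 e2
        refine TGThmA.step hs ho ht Φ om pos (fun om' pos' h => ?_) fun om' h => ?_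
        · rw [e1] at h
          unfold cd at h
          exact ih _ (by exact_mod_cast h) _ om' pos' rfl rfl
        · rw [e2] at h
          unfold cd at h
          exact ih2 _ (by exact_mod_cast h) om' pos e1 rfl
  intro om pos
  exact key _ _ om pos rfl rfl

end Pool.Agent.MP_5168f5_an.AN.TG
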