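import Pool.Agent.MP_5168f5_an.AN.TGSpec
import Pool.Agent.MP_5168f5_an.AN.GAAll
import Pool.Agent.MP_5168f5_an.R4.Api

/-! Kakeya sets in all dimensions: the small ball bound with a base point contains the
hypothesis. -/

namespace Pool.Agent.MP_5168f5_an.AN.TG

open H19 H17S H17F G39 GA Filter H61Z

namespace TGToACA

/-- An extension with side data. -/
structure Dt (κ Ω : Type) : Type 1 where
  W : Type
  β : Type
  Q : FP W
  π : W → Ω
  b : W → β
  l : β → κ → ℝ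
  c0 : β → ℝ

end TGToACA

theorem tgToAC : SToAC := by
  intro ι κ _ _ _ Φ om pos x g d S C _ h η ρ hη hρ ε hε
  have : ∀ n, Nonempty (TGToACA.Dt κ (x n).Ω) := fun n =>
    ⟨⟨(x n).Ω, Unit, (x n).P, id, fun _ => (), fun _ _ => 0, fun _ => 0⟩⟩
  have key := R4.unif (A := fun n => TGToACA.Dt κ (x n).Ω)
    (h := fun n a => Law a.Q a.π (x n).P id ∧
      (∀ v ∈ a.Q.S, Tst (x n).c (rA (sc (x n).M d)) S (Real.exp (-(η * (x n).M))) (a.l (a.b v))) ∧
      mi a.Q a.b (fun v => (x n).j (a.π v)) (fun v => (x n).Z (sc (x n).M d) (a.π v)) ≤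
        ρ * (x n).M)
    (p := fun n a => pb a.Q (fun v => |∑ e, a.l (a.b v) e * (x n).co (sc (x n).M d)
      ((x n).C (sc (x n).M d) (a.π v)) (a.π v) e - a.c0 (a.b v)| ≤ Real.exp (-(η * (x n).M))) ≤
        C * ρ / η + ε) fun a ha => by
    refine h (fun n => (a n).W) (fun n => (a n).β × Mt ι) (fun n => (a n).Q) (fun n => (a n).π)
      (fun n v => ((a n).b v, (x n).C (sc (x n).M d) ((a n).π v))) (fun _ z => z.2)
      (fun n z => (a n).l z.1) (fun n z => (a n).c0 z.1) η ρ hη hρ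
      ⟨ha.mono fun n k => k.1, fun _ => 1, g.alg.big.sub le_rfl, Whp.of_ev ?_⟩
      (ha.mono fun n k => k.2.1) (Le.of_ev (ha.mono fun n k => le_trans ?_ k.2.2)) ε hε
    · obtain ⟨K, -, hK⟩ := sCell Φ.N (Fintype.card κ)
      filter_upwards [g.alg.fr] with n fr v _
      exact (hK ι κ Φ (x n).B (x n).c (rA (sc (x n).M d)) (rA (sc (x n).M d)) 1 rfl le_rfl fr
        le_rfl fun e => ⟨Real.exp_pos _, (one_mul _).ge⟩).1 _
    · refine mi_left (Fn.rfl _) (Fn.snd _ _) fun u _ v _ k => ?_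
      exact congrArg (fun z : (a n).β × Mt ι × (x n).T => (z.1, z.2.1)) k
  exact key.mono fun n k W β Q π b l c0 h1 h2 h3 => k ⟨W, β, Q, π, b, l, c0⟩ ⟨h1, h2, h3⟩

end Pool.Agent.MP_5168f5_an.AN.TG
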