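import Pool.Agent.MP_5168f5_an.AN.TGSpec
import Pool.Agent.MP_5168f5_an.AN.GAAll

/-! The small ball bound for the cocycle in cells. -/

namespace Pool.Agent.MP_5168f5_an.AN.TG

open H19 H17S H17F G39 GA Filter H61Z Matrix

namespace TGUA

section Mat

variable {υ κ : Type} [Fintype υ] [DecidableEq υ] [Fintype κ] {X : Matrix υ υ ℝ} {N : ℕ}
  {A δ : ℝ} {u : υ → ℝ}

theorem pow_words {R : κ → Matrix υ υ ℝ} (h : ∀ w : List κ, N ≤ w.length → (w.map R).prod = 0)
    (z : κ → ℝ) : (∑ a, z a • R a) ^ N = 0 := by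
  have k : ∀ (i : ℕ) (w : List κ), N ≤ w.length + i →
      (∑ a, z a • R a) ^ i * (w.map R).prod = 0 := by
    intro i
    induction i with
    | zero => intro w hw; rw [pow_zero, one_mul, h w hw]
    | succ i ih =>
      intro w hw
      rw [pow_succ, mul_assoc, Finset.sum_mul, Finset.mul_sum]
      refine Finset.sum_eq_zero fun a _ => ?_
      rw [smul_mul_assoc, mul_smul_comm, ← List.prod_cons, ← List.map_cons,
        ih (a :: w) (by simp only [List.length_cons]; omega), smul_zero]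
  simpa using k N [] (by simp)

theorem pow_bd (hX : ∀ p q, |X p q| ≤ A) (hu : ∀ p, |u p| ≤ δ) (i : ℕ) :
    ∀ p, |((X ^ i) *ᵥ u) p| ≤ (Fintype.card υ * A) ^ i * δ := by
  induction i with
  | zero => simpa using hu
  | succ i ih =>
    intro p
    rw [pow_succ', ← mulVec_mulVec, pow_succ', mul_assoc (Fintype.card υ * A)]
    exact abs_mulVec_le hX ih p

theorem exp_vec (h : X ^ N = 0) (u : υ → ℝ) (p : υ) : (IsNilpotent.exp X *ᵥ u) p =
    u p + ∑ i ∈ Finset.range N, (((i + 1).factorial : ℝ))⁻¹ * ((X ^ (i + 1)) *ᵥ u) p := by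
  rw [IsNilpotent.exp_eq_sum (k := N + 1) (by rw [pow_succ, h, zero_mul]), Finset.sum_range_succ',
    add_mulVec, sum_mulVec, add_comm]
  simp [smul_mulVec, Rat.smul_def]

theorem exp_bd (h : X ^ N = 0) (hX : ∀ p q, |X p q| ≤ A) (hA : 1 ≤ Fintype.card υ * A)
    (hu : ∀ p, |(X *ᵥ u) p| ≤ δ) (p : υ) :
    |(IsNilpotent.exp X *ᵥ u) p - u p| ≤ N * (Fintype.card υ * A) ^ N * δ := by
  rw [exp_vec h, add_sub_cancel_left]
  refine (Finset.abs_sum_le_sum_abs _ _).trans ((Finset.sum_le_card_nsmul _ _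
    ((Fintype.card υ * A) ^ N * δ) fun i hi => ?_).trans (le_of_eq (by simp [mul_assoc])))
  rw [abs_mul, pow_succ, ← mulVec_mulVec]
  refine (mul_le_of_le_one_left (abs_nonneg _) ?_).trans ((pow_bd hX hu i p).trans
    (mul_le_mul_of_nonneg_right (pow_le_pow_right₀ hA (Finset.mem_range.1 hi).le)
      ((abs_nonneg _).trans (hu p))))
  rw [abs_of_nonneg (by positivity)]
  exact inv_le_one_of_one_le₀ (by exact_mod_cast Nat.factorial_pos _)

theorem exp_row (h : X ^ N = 0) {p : υ} (hp : ∀ q, X p q = 0) (u : υ → ℝ) :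
    (IsNilpotent.exp X *ᵥ u) p = u p := by
  rw [exp_vec h, add_eq_left]
  refine Finset.sum_eq_zero fun i _ => ?_
  rw [pow_succ', ← mulVec_mulVec]
  simp [mulVec, dotProduct, hp]

end Mat

/-- The bound for the cocycle. -/
noncomputable def T (N k : ℕ) (L : ℝ) : ℝ :=
  (N * (k * (k * (L * L))) ^ N + 1) ^ 2 * (k * (k * (L * L)))

theorem sub_T {M : ℕ → ℕ} {L : ℕ → ℝ} (hM : Big M) (hL : Sub M L) {N k : ℕ} (hN : 1 ≤ N)
    (hk : 1 ≤ k) : Sub M fun n => T N k (L n) := by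
  have k1 : (1 : ℝ) ≤ k := by exact_mod_cast hk
  have h := ((hL.mul hL).const_mul hM k1).const_mul hM k1
  exact ((((h.pow N).const_mul hM (by exact_mod_cast hN)).add (hM.sub le_rfl) hM).pow 2).mul h

variable {ι κ : Type} [Fintype ι] [DecidableEq ι] [Fintype κ] {om : κ → ℝ × ℝ}
  {c : κ → κ → κ → ℝ} {N : ℕ}

open Classical in
theorem em_none (h : ∀ w : List κ, N ≤ w.length → (w.map (Rm om c)).prod = 0) (z : κ → ℝ) :
    Em om c z none none = 1 := by
  have := exp_row (pow_words h z) (p := none) (fun q => by simp [Matrix.sum_apply, Rm])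
    (Pi.single none 1)
  rwa [mulVec_single_one] at this

open Classical in
theorem uv_near (h : ∀ w : List κ, N ≤ w.length → (w.map (Rm om c)).prod = 0) {s v z : κ → ℝ}
    {L δ η : ℝ} (hL : 1 ≤ L) (hδ : 0 ≤ δ) (hc : ∀ a b e, |c a b e| ≤ L) (ho : ∀ a, |(om a).2| ≤ L)
    (hs : ∀ a, |s a| ≤ L ∧ |v a| ≤ L) (hv : ∀ a, |v a * (om a).2| ≤ δ)
    (k : ∀ p q, |(Em om c z - Em om c s * Em om c v) p q| ≤ η) (e : κ) :
    |Uv om c s e| ≤ T N (Fintype.card (Option κ)) L ∧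
      |Uv om c z e - Uv om c s e| ≤ η + T N (Fintype.card (Option κ)) L * δ := by
  have l0 : 0 ≤ L := by linarith
  have k1 : (1 : ℝ) ≤ Fintype.card (Option κ) := by exact_mod_cast Fintype.card_pos
  have hR : ∀ a p q, |Rm om c a p q| ≤ L := fun a p q => by
    cases p <;> cases q <;> simp only [Rm, cH, abs_zero, l0] <;> split_ifs <;>
      simp only [abs_zero, l0, ho, hc]
  have hX : ∀ s : κ → ℝ, (∀ a, |s a| ≤ L) → ∀ p q, |(∑ a, s a • Rm om c a) p q| ≤
      Fintype.card (Option κ) * (L * L) := fun s hs p q => by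
    rw [Matrix.sum_apply]
    refine (Finset.abs_sum_le_sum_abs _ _).trans ((Finset.sum_le_card_nsmul _ _ (L * L)
      fun a _ => ?_).trans ?_)
    · rw [Matrix.smul_apply, smul_eq_mul, abs_mul]
      exact mul_le_mul (hs a) (hR a p q) (abs_nonneg _) l0
    · rw [nsmul_eq_mul]
      exact mul_le_mul_of_nonneg_right (by simp) (by positivity)
  have hG : (1 : ℝ) ≤ Fintype.card (Option κ) * (Fintype.card (Option κ) * (L * L)) :=
    one_le_mul_of_one_le_of_one_le k1 (one_le_mul_of_one_le_of_one_le k1 (by nlinarith))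
  have xs := hX s fun a => (hs a).1
  have b1 := exp_bd (pow_words h s) xs hG (u := Pi.single none 1) (abs_mulVec_le xs (B := 1)
    fun p => by rw [Pi.single_apply]; split_ifs <;> simp) (some e)
  have b2 := exp_bd (pow_words h v) (hX v fun a => (hs a).2) hG (u := Pi.single none 1) (δ := δ)
    fun p => by
      rw [mulVec_single_one]
      cases p with
      | none => simpa [Matrix.sum_apply, Rm] using hδ
      | some a => simpa [Matrix.sum_apply, Rm] using hv a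
  have b3 := exp_bd (pow_words h s) xs hG (u := Em om c v *ᵥ Pi.single none 1 - Pi.single none 1)
    (abs_mulVec_le xs b2) (some e)
  have b4 := b2 (some e)
  have b5 := k (some e) none
  rw [mulVec_sub, mulVec_mulVec] at b3
  simp only [mulVec_single_one, Pi.sub_apply, Matrix.col_apply, Matrix.sub_apply, mul_one,
    Pi.single_eq_of_ne (Option.some_ne_none e), sub_zero] at b1 b3 b4 b5
  unfold T Uv Em at *
  generalize (Fintype.card (Option κ) * (Fintype.card (Option κ) * (L * L)) : ℝ) = G at *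
  have a0 : 0 ≤ N * G ^ N := by positivity
  generalize N * G ^ N = a at *
  have t1 : a * G ≤ (a + 1) ^ 2 * G := mul_le_mul_of_nonneg_right (by nlinarith) (by linarith)
  have t2 : a + a * (G * a) ≤ (a + 1) ^ 2 * G := by nlinarith
  refine ⟨b1.trans t1, ?_⟩
  rw [abs_le] at b3 b4 b5 ⊢
  have := mul_le_mul_of_nonneg_right t2 hδ
  constructor <;> nlinarith [b3.1, b3.2, b4.1, b4.2, b5.1, b5.2]

theorem co_eq {Φ : Filt (Mt ι)} {B : κ → Mt ι} (hF : IsFr Φ B c) {r : κ → ℝ} (hr : ∀ a, 0 < r a)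
    {p : Mt ι} (hp : IsUnit p) (s v : κ → ℝ) :
    (fun a => lg B p (p * ex B s * ex B v) a / r a) =
      bch Φ.N (sC r c) (fun a => s a / r a) fun a => v a / r a := by
  rw [mul_assoc, GAFrA.ex_div hr s, GAFrA.ex_div hr v,
    (sMul ι κ Φ _ _ (GAFrA.fr_sB hr hF)).mul, GAFrA.ex_sB, (sMul ι κ Φ B c hF).lg _ _ hp]
  exact funext fun a => mul_div_cancel_left₀ _ (hr a).ne'

open Classical in
theorem wn_ge {r : Option κ → ℝ} (a : κ) :
    |r (some a)| * |(om a).2| ≤ wn (Rm om c) (N + 2) r (Pi.single none 1) := by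
  have : Finite {w : List κ // w.length < N + 2} := List.finite_length_lt κ (N + 2)
  refine le_trans (le_of_eq ?_) (Finite.le_ciSup _ ⟨[a], by simp⟩)
  rw [← abs_mul]
  simp [dotProduct, Fintype.sum_option, Rm]

omit [Fintype κ] in
theorem idl_mono {r : κ → ℝ} {L L' : ℝ} (h : Idl c r r L) (hr : ∀ a, 0 < r a) (e : L ≤ L') :
    Idl c r r L' := fun a b f => (h a b f).trans (mul_le_mul_of_nonneg_right e (hr f).le)

theorem pb_pull {Ω Ω' : Type} {P : FP Ω} {Q : FP Ω'} {f : Ω → Ω'} (h : Law P f Q id)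
    (E : Ω' → Prop) : pb Q E ≤ pb P fun u => E (f u) := (h.pb_eq E).ge

theorem nr_le {B : κ → Mt ι} {r r' : κ → ℝ} {L L' : ℝ} {x y : Mt ι} (h : Nr B r' L' x y)
    (e : ∀ a, L' * r' a ≤ L * r a) : Nr B r L x y :=
  h.imp fun _ t => ⟨fun a => (t.1 a).trans (e a), t.2⟩

theorem key {Φ : Filt (Mt ι)} {B : κ → Mt ι} (hF : IsFr Φ B c) {r r' : κ → ℝ} (hr : ∀ a, 0 < r a)
    {p y z : Mt ι} {L : ℝ} (hy : IsUnit y) (h1 : Nr B r L p y) (h2 : Nr B r' L y z) :
    ∃ s v : κ → ℝ, (∀ a, |s a| ≤ L ∧ |v a| ≤ L * (r' a / r a)) ∧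
      (fun a => lg B p y a / r a) = s ∧ (fun a => lg B p z a / r a) = bch Φ.N (sC r c) s v := by
  obtain ⟨s, a1, rfl⟩ := h1
  obtain ⟨v, a2, rfl⟩ := h2
  have hp : IsUnit p := (GADetA.unit_ex (sMul ι κ Φ B c hF) s).mul_right_iff.1 hy
  refine ⟨_, _, fun a => ?_, by rw [(sMul ι κ Φ B c hF).lg _ _ hp], co_eq hF hr hp s v⟩
  rw [abs_div, abs_div, abs_of_pos (hr a), div_le_iff₀ (hr a), ← mul_div_assoc]
  exact ⟨a1 a, div_le_div_of_nonneg_right (a2 a) (hr a).le⟩

open Classical in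
theorem fin (h : ∀ w : List κ, N ≤ w.length → (w.map (Rm om c)).prod = 0) {s v z l : κ → ℝ}
    {L θ c0 : ℝ} (hL : 1 ≤ L) (hθ : 0 ≤ θ) (θ1 : θ ≤ 1) (hc : ∀ a b e, |c a b e| ≤ L)
    (ho : ∀ a, |(om a).2| ≤ L) (hs : ∀ a, |s a| ≤ L ∧ |v a| ≤ L)
    (hv : ∀ a, |v a * (om a).2| ≤ L * L * θ)
    (k : ∀ p q, |(Em om c z - Em om c s * Em om c v) p q| ≤ θ) (hl : ∀ a, |l a| ≤ 1)
    (hT : 1 ≤ T N (Fintype.card (Option κ)) L) (e : |∑ a, l a * Uv om c s a - c0| ≤ θ) :
    |(fun e : Option κ => e.elim (-(if |c0| ≤ Fintype.card (Option κ) *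
      T N (Fintype.card (Option κ)) L then c0 else 0)) l) ⬝ᵥ (Em om c z *ᵥ Pi.single none 1)| ≤
      θ * (Fintype.card (Option κ) * (1 + T N (Fintype.card (Option κ)) L * (L * L))) := by
  have u := uv_near h hL (by positivity) hc ho hs hv k
  have sb : ∀ (f : κ → ℝ) (A : ℝ), (∀ a, |f a| ≤ A) → |∑ a, l a * f a| ≤ Fintype.card κ * A :=
    fun f A hf => (Finset.abs_sum_le_sum_abs _ _).trans ((Finset.sum_le_card_nsmul _ _ A
      fun a _ => by
        rw [abs_mul]; exact (mul_le_of_le_one_left (abs_nonneg _) (hl a)).trans (hf a)).trans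
      (by simp))
  have b1 := sb _ _ fun a => (u a).1
  have b2 := sb _ _ fun a => (u a).2
  have t0 : 0 ≤ θ * (T N (Fintype.card (Option κ)) L * (L * L)) := by positivity
  generalize T N (Fintype.card (Option κ)) L = τ at *
  have ec : (Fintype.card (Option κ) : ℝ) = Fintype.card κ + 1 := by simp
  simp only [mul_sub, Finset.sum_sub_distrib] at b2
  rw [abs_le] at b1 b2 e
  rw [ec, if_pos (abs_le.2 ⟨by linarith, by linarith⟩), mulVec_single_one, dotProduct,
    Fintype.sum_option, Matrix.col_apply, em_none h, abs_le]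
  simp only [Option.elim, Matrix.col_apply]
  unfold Uv at b2 e
  constructor <;> linarith

end TGUA

open TGUA Classical in
theorem tgU : OfU := by
  intro hRec hGd hRep hN4 ι κ _ _ _ Φ om pos x C hG
  have hM := hG.alg.big
  obtain ⟨N, hN, hw, hRep⟩ := hRep ι κ Φ om pos x hG.toG0
  obtain ⟨s0, s1⟩ := hN4 ι κ Φ om pos x C hG (N + 2) fun c w h => hw c w (by omega)
  obtain ⟨C₁, c1, hS⟩ : ∃ C' : ℝ, 0 ≤ C' ∧ ∀ t : ℝ × ℝ, 0 ≤ t.1 → 0 ≤ t.2 →
      SBM x om t (N + 2) (N + 1) C' := by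
    generalize N + 2 = N' at s0 s1
    clear hN hw hRep
    induction N with
    | zero => exact ⟨0, le_rfl, fun t _ _ => s0 t⟩
    | succ k ih =>
      obtain ⟨C', h0, h1⟩ := ih
      exact (s1 (k + 1) C' h0).imp fun _ h => ⟨h.1, fun t a b => h.2 t a b (h1 t a b)⟩
  obtain ⟨w, bw⟩ := Finite.exists_le fun e : Option κ =>
    e.elim (1 : ℝ) fun a => (om a).2 + ((om a).2)⁻¹
  have w1 : 1 ≤ w := bw none
  have w2 : ∀ a, |(om a).2| ≤ w ∧ ((om a).2)⁻¹ ≤ w := fun a => by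
    have := (hG.alg.wt a).2
    have k : (om a).2 + ((om a).2)⁻¹ ≤ w := bw (some a)
    rw [abs_of_nonneg this]
    constructor <;> linarith [inv_nonneg.2 this]
  refine ⟨w + 2 * C₁, by linarith,
    fun t t1 t2 W β Q π b p l c0 η ρ R hη hρ hR hB hl hI ε hε => ?_⟩
  have r1 : w * η ≤ R := by nlinarith
  have r0 : 0 ≤ R := by nlinarith
  have gd := fun t a b => (hGd ι κ Φ om pos x hG.toG0).1 (dep om t)
    ((sGood ι κ _ Φ om pos _ _ hG.alg).2.1 t a b)
  obtain ⟨L0, hL0, g1⟩ := gd t t1 t2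
  obtain ⟨L1, hL1, g2⟩ := gd (t.1, t.2 + R) t1 (add_nonneg t2 r0)
  obtain ⟨L2, hL2, nr⟩ := hB.near
  obtain ⟨Lc, hLc, bc⟩ := ob_bound hM (J := κ × κ × κ) (f := fun j n => (x n).c j.1 j.2.1 j.2.2)
    fun j => hG.alg.ob _ _ _
  obtain ⟨K, hK, sN⟩ := sNr Φ.N (Fintype.card κ)
  obtain ⟨_, -, sL⟩ := sCell Φ.N (Fintype.card κ)
  have hL3 := sub_box hM hL1 hK
  obtain ⟨L, hL, bL⟩ : ∃ L, Sub (un x) L ∧ ∀ n, L0 n ≤ L n ∧ (K * L1 n) ^ K ≤ L n ∧ L2 n ≤ L n ∧
      Lc n ≤ L n ∧ w ≤ L n :=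
    ⟨_, (((hL0.add hL3 hM).add hL2 hM).add hLc hM).add (hM.sub w1) hM, fun n => by
      have := hL0.1 n; have := hL3.1 n; have := hL2.1 n; have := hLc.1 n
      refine ⟨?_, ?_, ?_, ?_, ?_⟩ <;> linarith⟩
  have k1 : 1 ≤ Fintype.card (Option κ) := Fintype.card_pos
  have k2 : (1 : ℝ) ≤ Fintype.card (Option κ) := by exact_mod_cast k1
  have hT := sub_T hM hL hN k1
  have hL6 := hT.const_mul hM k2
  have rp : ∀ (D : κ → ℝ) a, 0 < rA D a := fun _ _ => Real.exp_pos _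
  have rr : ∀ (m : ℕ) a, rA (sc m (dep om (t.1, t.2 + R))) a / rA (sc m (dep om t)) a =
      Real.exp (-((om a).2 * R * m)) := fun m a => by
    unfold rA sc dep; rw [← Real.exp_sub]; congr 1; ring
  have r2 : ∀ (m : ℕ) a, Real.exp (-((om a).2 * R * m)) ≤ 1 := fun m a =>
    Real.exp_le_one_iff.2 (neg_nonpos.2 (by have := (hG.alg.wt a).2; positivity))
  have rc := hB.law.mono fun n a => hRec _ _ _ _ _ (x n).P (Q n) (π n) (b n)
    ((x n).C (sc (x n).M (dep om (t.1, t.2 + R)))) ((x n).Z (sc (x n).M (dep om t))) a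
  obtain ⟨Q', hQ'⟩ : ∃ Q' : ∀ n, FP (W n × (x n).Ω), Q' = fun n => glue (Q n) (x n).P
    (fun v => ((x n).C (sc (x n).M (dep om (t.1, t.2 + R))) (π n v),
      (x n).Z (sc (x n).M (dep om t)) (π n v))) fun ω =>
    ((x n).C (sc (x n).M (dep om (t.1, t.2 + R))) ω, (x n).Z (sc (x n).M (dep om t)) ω) := ⟨_, rfl⟩
  simp only [← congrFun hQ'] at rc
  have yz : ∀ᶠ n in UF, ∀ u ∈ (Q' n).S, IsUnit ((x n).j (π n u.1)) ∧ Nr (x n).B
      (rA (sc (x n).M (dep om (t.1, t.2 + R)))) (L n) ((x n).j (π n u.1)) ((x n).j u.2) := by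
    filter_upwards [rc, g2, hG.alg.fr, hG.unit, hB.law] with n a g fr un lw u hu
    obtain ⟨u1, -, u2, -⟩ := a.2.2.1 u hu
    have q := fun y => GADetA.nr_mono (rp _) (hL1.1 n)
      ((sL ι κ Φ _ _ _ _ _ rfl le_rfl fr (hL1.1 n) g.1).1 y)
    have s := fun x y z => sN ι κ Φ _ _ _ _ _ 0 x y z rfl le_rfl fr (hL1.1 n) le_rfl
      (fun a => ⟨(rp _ a).le, (rp _ a).le⟩) g.2.1 g.2.1
    refine ⟨un _ (lw.mem u1), GADetA.nr_mono (rp _) (bL n).2.1
      ((s _ _ _).2.1 ((s _ _ 1).1 (q _)) ?_)⟩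
    exact (show cell _ _ _ = cell _ _ _ from u2) ▸ q _
  have nr' : Whp Q' fun n u => Nr (x n).B (rA (sc (x n).M (dep om t))) (L n) (p n (b n u.1))
      ((x n).j (π n u.1)) := fun ε hε => by
    filter_upwards [nr ε hε, rc] with n a k
    exact (pb_mono fun u _ h h' => h (GADetA.nr_mono (rp _) (bL n).2.2.1 h')).trans
      ((k.2.1.pb_eq fun v => ¬Nr _ _ _ (p n (b n v)) ((x n).j (π n v))).trans_le a)
  have wl : ∀ᶠ n in UF, ∀ u ∈ (Q' n).S, ∀ q : ℝ, w⁻¹ ≤ wn (Rm om (x n).c) (N + 2)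
      (fun e => e.elim q (l n (b n u.1))) (Pi.single none 1) := by
    filter_upwards [rc, hl] with n a k u hu q
    obtain ⟨h0, -, e, he⟩ := k _ (a.2.2.1 u hu).1
    have h1 : 0 < (om e).2 := (hG.alg.wt e).2.lt_of_ne' fun h => by simp [h0 e h] at he
    refine le_trans ?_ (wn_ge e)
    rw [Option.elim, he, one_mul, abs_of_pos h1]
    exact inv_le_of_inv_le₀ h1 (w2 e).2
  have main := hS t t1 t2 _ β Q' (fun _ => Prod.snd) (fun n u => b n u.1) p
    (fun n y e => e.elim (-(if |c0 n y| ≤ Fintype.card (Option κ) *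
      T N (Fintype.card (Option κ)) (L n) then c0 n y else 0)) (l n y))
    (fun _ _ => Pi.single none 1) _ (η / 2) ρ 1 (half_pos hη) hρ
    ⟨rc.mono fun n a => a.1, _, sub_box hM hL hK, nr'.mono (by
      filter_upwards [yz, g1, hG.alg.fr] with n a g fr u hu h
      have i := idl_mono g.2.1 (rp _) (bL n).1
      refine (sN ι κ Φ _ _ _ _ _ 0 _ _ _ rfl le_rfl fr (hL.1 n) le_rfl
        (fun a => ⟨(rp _ a).le, (rp _ a).le⟩) i i).2.1 h (nr_le (a u hu).2 fun e =>
          mul_le_mul_of_nonneg_left ((div_le_one (rp _ e)).1 ?_) (hL.pos n).le)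
      exact (rr _ e).trans_le (r2 _ e))⟩ hL6 (by
      filter_upwards [wl, rc, hl, (hM.sub w1).2 1 one_pos] with n a k h g u hu
      have l1 := hL6.1 n
      refine ⟨fun e => ⟨?_, ?_⟩, le_trans ?_ (a u hu _), fun v hv => by
        rw [hw _ v (by omega), zero_mulVec]⟩
      · cases e with
        | none =>
          rw [Option.elim, abs_neg]
          split_ifs with q
          exacts [q, abs_zero.trans_le (zero_le_one.trans l1)]
        | some e => exact ((h _ (k.2.2.1 u hu).1).2.1 e).trans l1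
      · rw [Pi.single_apply]; split_ifs <;> simp only [abs_one, abs_zero] <;> linarith
      · rw [Real.exp_neg]; exact inv_anti₀ (by linarith) g)
    ((Le.of_ev (rc.mono fun n a => (mi_mono ((Fn.comp (x n).j Prod.snd).left _)).trans
      a.2.2.2)).trans hI) _ (half_pos hε)
  filter_upwards [main, nr' _ (half_pos hε), rc, yz, wl, hl, hG.alg.fr, hRep t L η t1 t2 hL,
    (((((hM.sub le_rfl).add (hT.mul (hL.mul hL)) hM).const_mul hM k2).const_mul hM w1).2 _
      (half_pos hη))] with n a1 a2 k a3 a4 a5 fr rep a6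
  refine (pb_pull k.2.1 _).trans ((pb_mono fun u hu e => ?_).trans ((pb_or _ _ _).trans
    ((add_le_add a2 a1).trans ?_)))
  · refine or_iff_not_imp_left.2 fun h => ?_
    obtain ⟨s, v, b1, b2, b3⟩ := key fr (rp _) (a3 u hu).1 (not_not.1 h) (a3 u hu).2
    have l0 := hL.pos n
    have b4 : ∀ a, |s a| ≤ L n ∧ |v a| ≤ L n := fun a => ⟨(b1 a).1, (b1 a).2.trans
      (mul_le_of_le_one_right l0.le ((rr _ a).trans_le (r2 _ a)))⟩
    have o : ∀ a, |(om a).2| ≤ L n := fun a => (w2 a).1.trans (bL n).2.2.2.2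
    rw [show (x n).co _ _ _ = _ from b2] at e
    rw [show (x n).co _ _ _ = _ from b3]
    refine (fin (hw _) (hL.1 n) (Real.exp_pos _).le (Real.exp_le_one_iff.2 (neg_nonpos.2
      (by positivity))) (fun a b c => (bc n (a, b, c)).trans (bL n).2.2.2.1) o b4 (fun a => ?_)
      (rep.2 s v b4) (a5 _ (k.2.2.1 u hu).1).2.1 (hT.1 n) e).trans ?_
    · rcases (hG.alg.wt a).2.eq_or_lt with h0 | h0
      · rw [← h0, mul_zero, abs_zero]; positivity
      · rw [abs_mul, mul_right_comm]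
        refine mul_le_mul ((b1 a).2.trans (mul_le_mul_of_nonneg_left ((rr _ a).trans_le
          (Real.exp_le_exp.2 (neg_le_neg (mul_le_mul_of_nonneg_right ?_ (Nat.cast_nonneg _)))))
          l0.le)) (o a) (abs_nonneg _) (by positivity)
        have := (inv_le_iff_one_le_mul₀ h0).1 (w2 a).2
        nlinarith
    · refine le_trans ?_ (mul_le_mul_of_nonneg_left (a4 u hu _) (Real.exp_pos _).le)
      rw [← div_eq_mul_inv, le_div_iff₀ (by linarith), mul_assoc, mul_comm _ w]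
      refine (mul_le_mul_of_nonneg_left a6 (Real.exp_pos _).le).trans_eq ?_
      rw [← Real.exp_add]; congr 1; ring
  · have : C₁ * ρ / (η / 2) + w * ρ / η = (w + 2 * C₁) * ρ / η := by field_simp; ring
    have : 0 ≤ w * ρ / η := by positivity
    linarith

end Pool.Agent.MP_5168f5_an.AN.TG
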