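import Pool.Agent.MP_5168f5_an.AN.TGSpec
import Pool.Agent.MP_5168f5_an.AN.GAAll
import Pool.Agent.MP_5168f5_an.R4.Api

/-! Shift of the level and change of the unit. -/

namespace Pool.Agent.MP_5168f5_an.AN.TG

open H19 H17S H17F G39 GA Filter H61Z

namespace TGZmA

section Unit

variable {M M' : ℕ → ℕ} {f g L : ℕ → ℝ} {C : ℝ}

theorem le_unit (e : ∀ᶠ n in UF, (M n : ℝ) ≤ C * M' n) (h : Le M f g) : Le M' f g := fun ε hε => by
  filter_upwards [h (ε / (|C| + 1)) (by positivity), e] with n a b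
  have h1 : (M n : ℝ) ≤ (|C| + 1) * M' n := b.trans (mul_le_mul_of_nonneg_right
    ((le_abs_self C).trans (le_add_of_nonneg_right zero_le_one)) (Nat.cast_nonneg _))
  have h2 := mul_le_mul_of_nonneg_left h1 (show 0 ≤ ε / (|C| + 1) by positivity)
  rw [← mul_assoc, div_mul_cancel₀ _ (by positivity)] at h2
  linarith

theorem sub_unit (e : ∀ᶠ n in UF, (M n : ℝ) ≤ C * M' n) (h : Sub M L) : Sub M' L :=
  ⟨h.1, fun ε hε => (le_unit e h.log ε hε).mono fun n a =>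
    (Real.log_le_iff_le_exp (h.pos n)).1 (by simpa using a)⟩

theorem big_unit (e : ∀ᶠ n in UF, (M n : ℝ) ≤ C * M' n) (h : Big M) : Big M' :=
  tendsto_atTop.2 fun b => by
    filter_upwards [h.ev ((|C| + 1) * b), e] with n a c
    have h1 := c.trans (mul_le_mul_of_nonneg_right
      ((le_abs_self C).trans (le_add_of_nonneg_right zero_le_one)) (Nat.cast_nonneg (M' n)))
    exact_mod_cast le_of_mul_le_mul_left (a.trans h1) (show 0 < |C| + 1 by positivity)

theorem band (hM : Big M) {c s : ℝ} (hs : 0 < s)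
    (e : ∀ᶠ n in UF, c * M n ≤ M' n ∧ (M' n : ℝ) ≤ C * M n) :
    ∃ q, c ≤ q ∧ ∀ᶠ n in UF, q * M n ≤ M' n ∧ (M' n : ℝ) ≤ (q + s) * M n := by
  have h := R4.Bd1.eqv (M := M) (f := fun n => M' n)
    ⟨C, e.mono fun n a => by rw [Nat.abs_cast]; exact a.2⟩ hM
  refine ⟨max c (R4.rt M (fun n => M' n) - s / 2), le_max_left _ _, ?_⟩
  filter_upwards [e, h.1 _ (half_pos hs), h.2 _ (half_pos hs)] with n a u v
  have h0 : (0 : ℝ) ≤ M n := Nat.cast_nonneg _
  have h1 := mul_le_mul_of_nonneg_right (le_max_right c (R4.rt M (fun n => M' n) - s / 2)) h0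
  refine ⟨?_, by linarith⟩
  rw [max_mul_of_nonneg _ _ h0]
  exact max_le a.1 (by linarith)

end Unit

variable {ι κ : Type} [Fintype ι] [DecidableEq ι] [Fintype κ]

omit [Fintype κ] in
theorem rA_add (D D' : κ → ℝ) : (fun a => rA D a * rA D' a) = rA (D + D') := funext fun a => by
  simp only [rA, Pi.add_apply, neg_add, Real.exp_add]

omit [Fintype κ] in
theorem rA_pos (D : κ → ℝ) (a : κ) : 0 < rA D a := Real.exp_pos _

omit [Fintype κ] in
theorem sC_add (D D' : κ → ℝ) (c : κ → κ → κ → ℝ) :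
    sC (rA D') (sC (rA D) c) = sC (rA (D + D')) c := by
  funext a b e
  have := rA_pos D e
  have := rA_pos D' e
  simp only [sC, ← rA_add]
  field_simp

theorem nr_zm (Φ : Filt (Mt ι)) (x : Sy ι κ) (D D' : κ → ℝ) (L : ℝ) :
    Nr (sB (rA D) x.B) (rA D') L = Nr x.B (rA (D + D')) L := by
  classical
  rw [((sFr ι κ Φ x.B x.c).1 (rA D) (rA D') (rA_pos D)).2.1, rA_add]

theorem c_zm (Φ : Filt (Mt ι)) (x : Sy ι κ) (D D' : κ → ℝ) (m : ℕ) :
    (x.zm D m).C D' = x.C (D + D') := by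
  classical
  funext ω
  simp only [Sy.C]
  rw [((sFr ι κ Φ x.B x.c).1 (rA D) (rA D') (rA_pos D)).2.2.1, rA_add]

theorem z_zm (Φ : Filt (Mt ι)) (x : Sy ι κ) (D D' : κ → ℝ) (m : ℕ) :
    (x.zm D m).Z D' = x.Z (D + D') := funext fun ω => Prod.ext (congrFun (c_zm Φ x D D' m) ω) rfl

theorem h_zm (Φ : Filt (Mt ι)) (x : Sy ι κ) (D D₁ D₂ : κ → ℝ) (m : ℕ) :
    (x.zm D m).H D₁ D₂ = x.H (D + D₁) (D + D₂) := by
  rw [Sy.H, c_zm Φ, z_zm Φ, Sy.H]

theorem co_zm {Φ : Filt (Mt ι)} {x : Sy ι κ} (h : IsFr Φ x.B x.c) (D D' : κ → ℝ) (m : ℕ)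
    {p : Mt ι} {ω : x.Ω} {r : κ → ℝ} {L : ℝ} (u : IsUnit (x.j ω)) (k : Nr x.B r L p (x.j ω)) :
    (x.zm D m).co D' p ω = x.co (D + D') p ω := by
  classical
  obtain ⟨t, -, e⟩ := k
  have hp : IsUnit p := by
    rw [e, Matrix.isUnit_iff_isUnit_det, Matrix.det_mul] at u
    exact (Matrix.isUnit_iff_isUnit_det _).2 (isUnit_of_mul_isUnit_left u)
  funext a
  simp only [Sy.co]
  rw [e, ((sFr ι κ Φ x.B x.c).1 (rA D) (rA D') (rA_pos D)).2.2.2 h p t hp a, ← rA_add, div_div]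

theorem sb_zm {Φ : Filt (Mt ι)} {om : κ → ℝ × ℝ} {pos : κ → Prop} {x : ℕ → Sy ι κ}
    (h : G0 Φ om pos x) {D D' : ℕ → κ → ℝ} {m : ℕ → ℕ} {c K C : ℝ} {S : κ → Prop} (hc : 0 < c)
    (hC : 0 ≤ C) (e : ∀ᶠ n in UF, c * (x n).M ≤ m n ∧ (m n : ℝ) ≤ K * (x n).M)
    (H : SB x (fun n => D n + D' n) S C) : SB (fun n => (x n).zm (D n) (m n)) D' S C := by
  intro W β Q π b p l c0 η ρ hη hρ ⟨hl, L, hL, hn⟩ ht hi ε hε
  have e2 := e.mono fun _ a => a.2
  have hA : 0 ≤ C * ρ / η := by positivity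
  obtain ⟨q, q1, q2⟩ := band h.alg.big (s := ε / 3 * c / (C * ρ / η + 1)) (by positivity) e
  have q0 : 0 < q := hc.trans_le q1
  have hn' : Whp Q fun n v => Nr (x n).B (rA (D n + D' n)) (L n) (p n (b n v)) ((x n).j (π n v)) :=
    hn.mono (Eventually.of_forall fun n v _ k => by rwa [← nr_zm Φ])
  have k := H W β Q π b p l c0 (η * q) (ρ * (q + ε / 3 * c / (C * ρ / η + 1))) (by positivity)
    (by positivity) ⟨hl, L, sub_unit e2 hL, hn'⟩ (by
      filter_upwards [ht, q2] with n a u v hv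
      refine ⟨(a v hv).sup, (a v hv).le, (a v hv).one, fun i j => ?_⟩
      rw [← sC_add]
      refine ((a v hv).kill i j).trans (Real.exp_le_exp.2 (neg_le_neg ?_))
      rw [mul_assoc]
      exact mul_le_mul_of_nonneg_left u.1 hη.le)
    ((le_unit e2 hi).of_sub (q2.mono fun n u => by
      have := mul_le_mul_of_nonneg_left u.2 hρ
      rw [z_zm Φ, mul_assoc]
      linarith)) (ε / 3) (by positivity)
  filter_upwards [k, hn' (ε / 3) (by positivity), hl, h.unit, h.alg.fr, q2] with n a a1 a2 a3 a4 a5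
  have b1 : C * (ρ * (q + ε / 3 * c / (C * ρ / η + 1))) / (η * q) ≤ C * ρ / η + ε / 3 := by
    have b2 : C * ρ / η / (C * ρ / η + 1) * (c / q) ≤ 1 :=
      mul_le_one₀ (div_le_one_of_le₀ (by linarith) (by positivity)) (by positivity)
        (div_le_one_of_le₀ q1 q0.le)
    calc _ = C * ρ / η + ε / 3 * (C * ρ / η / (C * ρ / η + 1) * (c / q)) := by field_simp
      _ ≤ _ := add_le_add le_rfl (mul_le_of_le_one_right (by positivity) b2)
  refine le_trans (pb_mono fun v hv w => ?_) ((pb_or _ _ _).trans ((add_le_add a a1).trans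
    (by linarith)))
  refine (em _).imp_left fun z => ?_
  rw [co_zm a4 (D n) (D' n) (m n) (a3 _ (a2.mem hv)) z] at w
  refine w.trans (Real.exp_le_exp.2 (neg_le_neg ?_))
  rw [mul_assoc]
  exact mul_le_mul_of_nonneg_left a5.1 hη.le

omit [Fintype κ] in
theorem dep_add (om : κ → ℝ × ℝ) (t t' : ℝ × ℝ) (m : ℕ) :
    dep om t + sc m (dep om t') = dep om (t.1 + t'.1 * m, t.2 + t'.2 * m) := funext fun a => by
  simp only [dep, sc, Pi.add_apply]; ring

omit [Fintype κ] in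
theorem up_add (d d' : κ → ℝ) (r : ℝ) (S : κ → Prop) (m : ℕ) :
    d + sc m (up d' r S) = up (d + sc m d') (r * m) S := funext fun a => by
  simp only [up, sc, Pi.add_apply]
  split_ifs <;> ring

end TGZmA

open TGZmA in
theorem tgZm : OfZm := by
  intro hf hs ha ι κ _ _ _ Φ om pos x C h t m c K ⟨K', ht⟩ hc e
  have e1 : ∀ᶠ n in UF, ((x n).M : ℝ) ≤ c⁻¹ * m n := e.mono fun n a => by
    rw [← div_eq_inv_mul, le_div_iff₀ hc]; linarith [a.1]
  have m0 : ∀ n, (0 : ℝ) ≤ (x n).M := fun n => Nat.cast_nonneg _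
  have g0 : G0 Φ om pos fun n => (x n).zm (dep om (t n)) (m n) := by
    obtain ⟨M0, s0, k⟩ := sThr ι κ _ Φ om pos _ _ h.alg
    refine ⟨(k m t (max K K') (big_unit e1 h.alg.big) (le_unit e1 s0) ?_).1, h.unit⟩
    filter_upwards [e, ht] with n a b
    have h1 := mul_le_mul_of_nonneg_right (le_max_left K K') (m0 n)
    have h2 := mul_le_mul_of_nonneg_right (le_max_right K K') (m0 n)
    exact ⟨a.2.trans h1, b.1, b.2.1.trans h2, b.2.2.1, b.2.2.2.trans h2⟩
  have lv : ∀ t' : ℝ × ℝ, 0 ≤ t'.1 → 0 ≤ t'.2 →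
      Lv x fun n => ((t n).1 + t'.1 * m n, (t n).2 + t'.2 * m n) := fun t' h1 h2 =>
    ⟨K' + (t'.1 + t'.2) * |K|, by
      filter_upwards [e, ht] with n a b
      have h3 := a.2.trans (mul_le_mul_of_nonneg_right (le_abs_self K) (m0 n))
      have h4 := mul_le_mul_of_nonneg_left h3 h1
      have h5 := mul_le_mul_of_nonneg_left h3 h2
      have h6 := mul_nonneg h1 (Nat.cast_nonneg (α := ℝ) (m n))
      have h7 := mul_nonneg h2 (Nat.cast_nonneg (α := ℝ) (m n))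
      exact ⟨by linarith [b.1], by linarith [b.2.1], by linarith [b.2.2.1], by linarith [b.2.2.2]⟩⟩
  have C0 : 0 ≤ C := zero_le_one.trans h.one
  refine ⟨g0, h.one, fun k t' r h1 h2 hr => ?_, fun k t' η ρ h1 h2 hη hρ => ?_⟩
  · refine (le_unit e1 (hf ι κ Φ om pos x C h k _ (fun n => r * m n) (lv t' h1 h2)
      ⟨r * K, e.mono fun n a => ⟨by positivity, ?_⟩⟩)).of_sub (Eventually.of_forall fun n => ?_)
    · rw [mul_assoc]; exact mul_le_mul_of_nonneg_left a.2 hr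
    · rw [h_zm Φ, up_add, dep_add, mul_assoc]
  · refine ha ι κ Φ om pos _ g0 _ _ C C0 (sb_zm h.toG0 hc C0 e ?_) η ρ hη hρ
    simp only [dep_add]
    exact hs ι κ Φ om pos x C h k _ (lv t' h1 h2)

end Pool.Agent.MP_5168f5_an.AN.TG
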