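import Pool.Agent.MP_5168f5_an.AN.TGRec
import Pool.Agent.MP_5168f5_an.AN.TGMix
import Pool.Agent.MP_5168f5_an.AN.TGDg
import Pool.Agent.MP_5168f5_an.AN.TGGd
import Pool.Agent.MP_5168f5_an.AN.TGRef
import Pool.Agent.MP_5168f5_an.AN.TGJoin
import Pool.Agent.MP_5168f5_an.AN.TGMono
import Pool.Agent.MP_5168f5_an.AN.TGLip
import Pool.Agent.MP_5168f5_an.AN.TGSeqF
import Pool.Agent.MP_5168f5_an.AN.TGFin
import Pool.Agent.MP_5168f5_an.AN.TGSB
import Pool.Agent.MP_5168f5_an.AN.TGSBR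
import Pool.Agent.MP_5168f5_an.AN.TGToAC
import Pool.Agent.MP_5168f5_an.AN.TGRat
import Pool.Agent.MP_5168f5_an.AN.TGCF0
import Pool.Agent.MP_5168f5_an.AN.TGCF
import Pool.Agent.MP_5168f5_an.AN.TGZm
import Pool.Agent.MP_5168f5_an.AN.TGPull
import Pool.Agent.MP_5168f5_an.AN.TGCond
import Pool.Agent.MP_5168f5_an.AN.TGSide
import Pool.Agent.MP_5168f5_an.AN.TGFrz
import Pool.Agent.MP_5168f5_an.AN.TGBas
import Pool.Agent.MP_5168f5_an.AN.TGSwap
import Pool.Agent.MP_5168f5_an.AN.TGB0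
import Pool.Agent.MP_5168f5_an.AN.TGRep
import Pool.Agent.MP_5168f5_an.AN.TGN4
import Pool.Agent.MP_5168f5_an.AN.TGU
import Pool.Agent.MP_5168f5_an.AN.TGThm
import Pool.Agent.MP_5168f5_an.AN.TGAtom
import Pool.Agent.MP_5168f5_an.AN.GOver

/-! Kakeya sets in all dimensions: random elements of a bigraded nilpotent group, results. -/

namespace Pool.Agent.MP_5168f5_an.AN.TG

theorem sRec : SRec := tgRec
theorem sMix : SMix := tgMix
theorem sDg : SDg := tgDg
theorem sGd : SGd := tgGd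
theorem sRef : SRef := tgRef
theorem sJoin : SJoin := tgJoin
theorem sMono : SMono := tgMono sRef sJoin
theorem sLip : SLip := tgLip
theorem sSeqF : SSeqF := tgSeqF sGd sMono
theorem sFin : SFin := tgFin sRef sLip
theorem sSB : SSB := tgSB sGd sFin
theorem sSBR : SSBR := tgSBR sRec sLip
theorem sToAC : SToAC := tgToAC
theorem sRat : SRat := tgRat sGd sMono sFin sToAC
theorem sCF0 : SCF0 := tgCF0
theorem sCF : SCF := tgCF sCF0 sRat
theorem sZm : SZm := tgZm sSeqF sSB sToAC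
theorem sPull : SPull := tgPull
theorem sCond : SCond := tgCond sMix
theorem sSide : SSide := tgSide sGd sRef sSB sSBR sToAC
theorem sFrz : SFrz := tgFrz sCond sRat
theorem sBas : SBas := tgBas sGd sSB sToAC
theorem sSwap : SSwap := tgSwap
theorem sB0 : SB0 := tgB0 sGd sRef sLip sSB
theorem sRep : SRep := tgRep
theorem sN4 : SN4 := tgN4 sGd sRef sB0 sRep
theorem sU : SU := tgU sRec sGd sRep sN4

theorem sOver : SOver :=
  GO.goOver sGd sRef sLip sSB sRep sZm sCF sU sRat sFin sToAC sBas sSwap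

theorem thmG (ht : STerm) : ThmG := tgThm sSwap sOver ht

end Pool.Agent.MP_5168f5_an.AN.TG
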