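import Pool.Agent.MP_5168f5_an.AN.N6Fld
import Pool.Agent.MP_5168f5_an.AN.N6Oa
import Pool.Agent.MP_5168f5_an.AN.N6Pol
import Pool.Agent.MP_5168f5_an.AN.N6Dec
import Pool.Agent.MP_5168f5_an.AN.N6Chg
import Pool.Agent.MP_5168f5_an.AN.N6Cha
import Pool.Agent.MP_5168f5_an.AN.N6Prep
import Pool.Agent.MP_5168f5_an.AN.N6Res
import Pool.Agent.MP_5168f5_an.AN.N6Rel
import Pool.Agent.MP_5168f5_an.AN.N6Gsi
import Pool.Agent.MP_5168f5_an.AN.N6Inv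
import Pool.Agent.MP_5168f5_an.AN.N6C1
import Pool.Agent.MP_5168f5_an.AN.N6C2
import Pool.Agent.MP_5168f5_an.AN.N6C3
import Pool.Agent.MP_5168f5_an.AN.N6C4
import Pool.Agent.MP_5168f5_an.AN.N6Alg
import Pool.Agent.MP_5168f5_an.AN.N6Atc
import Pool.Agent.MP_5168f5_an.AN.N6F1
import Pool.Agent.MP_5168f5_an.AN.N6F2
import Pool.Agent.MP_5168f5_an.AN.N6Acs
import Pool.Agent.MP_5168f5_an.AN.N6Fin
import Pool.Agent.MP_5168f5_an.AN.LC1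
import Pool.Agent.MP_5168f5_an.AN.TGAll

/-! Kakeya sets in all dimensions: the end of the local step. -/

namespace Pool.Agent.MP_5168f5_an.AN.N6

theorem sEnd (hI : SInd) (hG : TG.ThmG) : LC.SEnd :=
  ofEnd hI (n6Prep (n6Oa n6Fld) LC.sZoom n6Chg n6Cha) n6Res n6Pol n6Rel n6Gsi (n6Inv n6Dec) n6C1
    n6C2 (n6C3 n6Dec) n6C4 n6Alg n6Atc n6F1 n6F2 n6Acs n6Fin (n6Tan TG.sRat hG)

end Pool.Agent.MP_5168f5_an.AN.N6
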