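import Pool.Agent.MP_5168f5_an.AN.AllH
import Pool.Agent.MP_5168f5_an.AN.GSt3
import Pool.Agent.MP_5168f5_an.AN.LCAll
import Pool.Agent.MP_5168f5_an.AN.N3NUL
import Pool.Agent.MP_5168f5_an.AN.N3POS
import Pool.Agent.MP_5168f5_an.AN.N3Add
import Pool.Agent.MP_5168f5_an.AN.N3WIN
import Pool.Agent.MP_5168f5_an.AN.N3BUD
import Pool.Agent.MP_5168f5_an.AN.N3Tail
import Pool.Agent.MP_5168f5_an.AN.N3Drop
import Pool.Agent.MP_5168f5_an.AN.N6All
import Pool.Agent.MP_5168f5_an.AN.TAAll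

/-! Kakeya sets in all dimensions: the entropy theorem from polynomial independence. -/

namespace Pool.Agent.MP_5168f5_an.AN

open LC N3 in
theorem LC.sCut : LC.SCut := N3.sCut (n3NUL sRes) (n3POS sRes n3Add) (n3WIN sRes)
  (n3BUD sFrz n3Pert n3Tail) (n3Drop N6.n6Chg)

theorem mu0_ind (si : N6.SInd) (N : ℕ) : R4.Mu0 N :=
  mu0_rest ofSteep ofSt3 LC.sWhp (LC.emp LC.sCut (N6.sEnd si TG.TA.thmG')) N

end Pool.Agent.MP_5168f5_an.AN
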