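import Pool.Agent.MP_5168f5_an.AN.MSpec
import Pool.Agent.MP_5168f5_an.AN.A1Con

/-! All notions survive refinements of bounded density and slowly shrinking events. -/

namespace Pool.Agent.MP_5168f5_an.AN

open H19 H17S H17F R4 Filter MvPolynomial
open G39 (nu RG dl REM dl_anti dl_pos dl_add sub_dl)
open Pk (cn)
open Nc (Pl ev jac)
open S20 (dn gp_iff)
open A1 (Floor)
open K31 (DnS dnS_cE)

variable {Ω Ω' Λ : ℕ → Type} {β : Bool → ℕ → Type} {N N' k : ℕ} {P : ∀ n, FP (Ω n)}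
  {Q : ∀ n, FP (Ω' n)} {ρ : ∀ n, Ω' n → Ω n} {M : ℕ → ℕ} {x y ξ : ∀ n, Ω n → V N}
  {A : ∀ n, Ω n → Λ n} {Z : ∀ b n, Ω n → β b n} {κ : ∀ n, Kd k (Ω n)} {C D E m : ℕ}
  {t g j : ℕ → ℕ} {u : ℕ → ℝ}

/-! ### Comparable sizes -/

theorem nc_nonneg {Ω Λ : Type} (P : FP Ω) (x : Ω → V N) (A : Ω → Λ) (ω : Ω) (F : Pl N) :
    0 ≤ nc P x A ω F := Real.sqrt_nonneg _

theorem deg_pderiv {F : Pl N} (h : F.totalDegree ≤ E) (i : Fin N) : (pderiv i F).totalDegree ≤ E :=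
  (Nc.kc.der F E i h).2.trans (Nat.sub_le _ _)

section NuEq

variable {ν ν' : ∀ n, Ω n → Pl N → ℝ}

theorem NuEq.dle (h : NuEq P M ν ν') (e : Gp P M fun n ω Γ => ∀ F : Pl N, F.totalDegree ≤ E → ∀ i,
      ν n ω (pderiv i F) ≤ Γ * 2 ^ g n * ν n ω F) :
    Gp P M fun n ω Γ => ∀ F : Pl N, F.totalDegree ≤ E → ∀ i,
      ν' n ω (pderiv i F) ≤ Γ * 2 ^ g n * ν' n ω F := by
  obtain ⟨Γ, g1, g2⟩ := gp_iff.1 e
  obtain ⟨L, l1, l2⟩ := gp_iff.1 (h E)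
  refine gp_iff.2 ⟨_, (l1.mul g1).mul l1, (g2.and l2).mono
    (Eventually.of_forall fun n ω _ ⟨a, b⟩ F hF i => ?_)⟩
  have := l1.pos n
  have := g1.pos n
  exact (b _ (deg_pderiv hF i)).2.trans ((mul_le_mul_of_nonneg_left ((a F hF i).trans
    (mul_le_mul_of_nonneg_left (b F hF).1 (by positivity))) (by positivity)).trans_eq (by ring))

theorem NuEq.dge (h : NuEq P M ν ν') (e : Gp P M fun n ω Γ => ∃ (F : Pl N) (i : Fin N),
      F.totalDegree ≤ E ∧ 0 < ν n ω F ∧ 2 ^ g n * ν n ω F ≤ Γ * ν n ω (pderiv i F)) :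
    Gp P M fun n ω Γ => ∃ (F : Pl N) (i : Fin N),
      F.totalDegree ≤ E ∧ 0 < ν' n ω F ∧ 2 ^ g n * ν' n ω F ≤ Γ * ν' n ω (pderiv i F) := by
  obtain ⟨Γ, g1, g2⟩ := gp_iff.1 e
  obtain ⟨L, l1, l2⟩ := gp_iff.1 (h E)
  refine gp_iff.2 ⟨_, (l1.mul g1).mul l1, (g2.and l2).mono
    (Eventually.of_forall fun n ω _ ⟨⟨F, i, hF, a0, a⟩, b⟩ =>
      ⟨F, i, hF, (mul_pos_iff_of_pos_left (l1.pos n)).1 (a0.trans_le (b F hF).1), ?_⟩)⟩
  have := l1.pos n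
  have := g1.pos n
  refine (mul_le_mul_of_nonneg_left (b F hF).2 (by positivity)).trans ?_
  rw [mul_left_comm, mul_assoc, mul_assoc]
  exact mul_le_mul_of_nonneg_left (a.trans
    (mul_le_mul_of_nonneg_left (b _ (deg_pderiv hF i)).1 (by positivity))) (by positivity)

theorem NuEq.ball (h : NuEq P M ν ν')
    (e : Gp P M fun n ω Γ => ∀ i, ∃ c : ℝ, ν n ω (X i - MvPolynomial.C c) ≤ Γ / 2 ^ t n) :
    Gp P M fun n ω Γ => ∀ i, ∃ c : ℝ, ν' n ω (X i - MvPolynomial.C c) ≤ Γ / 2 ^ t n :=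
  (h 1).mul e (Eventually.of_forall fun n ω _ Γ Γ' a _ c d i => (d i).imp fun r f => by
    refine (c _ ((totalDegree_sub _ _).trans (by simp [totalDegree_X]))).2.trans ?_
    rw [mul_div_assoc]
    exact mul_le_mul_of_nonneg_left f (by linarith))

theorem NuEq.fat (h : NuEq P M ν ν') {B : ℝ}
    (e : Whp P fun n ω => ∀ F : Pl N, F.totalDegree ≤ E → dl M B n * cn F ≤ ν n ω F) :
    Whp P fun n ω => ∀ F : Pl N, F.totalDegree ≤ E → dl M (B + 1) n * cn F ≤ ν' n ω F := by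
  obtain ⟨L, l1, l2⟩ := gp_iff.1 (h E)
  refine (e.and l2).mono ((sub_dl l1 one_pos).mono fun n a ω _ ⟨b, c⟩ F hF => ?_)
  have h1 := (b F hF).trans (c F hF).1
  have h2 : 0 ≤ ν' n ω F := (mul_nonneg_iff_of_pos_left (l1.pos n)).1
    ((mul_nonneg (dl_pos _ _ _).le (cn_nonneg F)).trans h1)
  have h3 := h1.trans (mul_le_mul_of_nonneg_right a h2)
  rw [le_inv_mul_iff₀ (dl_pos _ _ _)] at h3
  rw [dl_add]
  linarith

theorem NuEq.nt (h : NuEq P M ν ν') (e : NT P M x Z ν) : NT P M x Z ν' := fun E c F hc hF => by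
  obtain ⟨L, l1, l2⟩ := gp_iff.1 (h E)
  refine ((e E _ F (half_pos hc) hF).and l2).mono
    ((sub_dl l1 (half_pos hc)).mono fun n a ω _ ⟨b, d⟩ r => b ⟨r.1, r.2.trans_le ?_⟩)
  have h0 : 0 < ν' n ω (F true n (Z true n ω)) :=
    (mul_pos_iff_of_pos_left (dl_pos _ _ _)).1 ((abs_nonneg _).trans_lt r.2)
  have h1 := (d _ (hF true n (Z true n ω))).2
  have h2 := (mul_pos_iff_of_pos_left (l1.pos n)).1 (h0.trans_le h1)
  rw [G39.dl_half, mul_assoc]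
  refine mul_le_mul_of_nonneg_left ?_ (dl_pos _ _ _).le
  rw [← le_inv_mul_iff₀ (dl_pos _ _ _)]
  exact h1.trans (mul_le_mul_of_nonneg_right a h2.le)

end NuEq

/-! ### Refinements -/

section Her

variable (h1 : Her1) (h2 : Her2) (hd : DnS Q ρ P) (hM : Big M)
include h1 hd

theorem Com.her (e : Com P Z A) : Com Q (pl2 ρ Z) (pl ρ A) := fun b => h1.fn hd (e b)

omit h1 in
theorem Sure.her (e : Sure P M x) : Sure Q M (pl ρ x) := by
  obtain ⟨Γ, a, b⟩ := e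
  obtain ⟨c, -, d⟩ := hd
  exact ⟨Γ, a, (b.and d).mono fun n u v hv => u.1 _ (u.2.mem hv)⟩

omit h1 in
theorem Pw.her {Θ : ∀ n, Ω n → Fin N' → Pl N} (e : Pw P M Θ) : Pw Q M (pl ρ Θ) :=
  e.imp fun _ a => hd.whp a

include hM

theorem Full.her (e : Full P M y A) : Full Q M (pl ρ y) (pl ρ A) := fun K => h1.full hd hM (e K)

theorem Kind.her (e : Kind P M x κ C m) : Kind Q M (pl ρ x) (fun n => (κ n).pull (ρ n)) C m :=
  ⟨(h1.gp hd e.bd :), (h1.gp hd e.few :), (h1.rem hd hM e.rem :), (e.den.her h1 hd hM :), fun j =>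
    (h1.wh hd (e.toS.wh j)).mono (Eventually.of_forall fun _ _ _ _ => whS_zero.1)⟩

theorem KindS.her (e : KindS P M x κ C m t) :
    KindS Q M (pl ρ x) (fun n => (κ n).pull (ρ n)) C m t :=
  ⟨e.kd.her h1 hd hM, fun j => h1.wh hd (e.wh j)⟩

theorem RA.her (e : RA P M x κ C) : RA Q M (pl ρ x) (fun n => (κ n).pull (ρ n)) C :=
  fun t ht => (h1.rem hd hM (e t ht) :)

theorem Nse.her (e : Nse P M x ξ κ C) :
    Nse Q M (pl ρ x) (pl ρ ξ) (fun n => (κ n).pull (ρ n)) C :=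
  ⟨e.kd.her h1 hd hM, (h1.gp hd e.bd :), (e.den.her h1 hd hM :)⟩

theorem Heavy.her (e : Heavy P M y A j u) : Heavy Q M (pl ρ y) (pl ρ A) j u :=
  (h1.gp hd e).mul (h1.dn (fun n v => fl (j n) (y n v)) A hd hM)
    (Eventually.of_forall fun _ _ _ Γ Γ' a _ c d => c.trans (by
      rw [mul_assoc]; exact mul_le_mul_of_nonneg_left d.1 (by linarith)))

theorem Light.her (e : Light P M y A j u) : Light Q M (pl ρ y) (pl ρ A) j u :=
  (h1.dn (fun n v => fl (j n) (y n v)) A hd hM).mul (h1.gp hd e)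
    (Eventually.of_forall fun _ _ _ Γ Γ' a _ c d => c.2.trans (by
      rw [mul_assoc]; exact mul_le_mul_of_nonneg_left d (by linarith)))

omit hM in
theorem Sys.her {k m : Bool → ℕ} {s : ∀ n, Sy k (Ω n)} (e : Sys P M x s C m) :
    Sys Q M (pl ρ x) (fun n b => (s n b).pull (ρ n)) C m :=
  ⟨e.big, (h1.gp hd e.bd :), fun b => (e.kd b).her h1 hd e.big⟩

include h2

omit hM in
theorem Frm.her {Θ : ∀ n, Ω n → Fin N' → Pl N} (e : Frm P M x Z A Θ D) :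
    Frm Q M (pl ρ x) (pl2 ρ Z) (pl ρ A) (pl ρ Θ) D :=
  ⟨h1.fn hd e.fn, fun n ω => e.deg n (ρ n ω), (h1.gp hd e.bd :), (h2.nt hd e.min :)⟩

theorem Cel.her {Θ : ∀ n, Ω n → Fin N → Pl N} (e : Cel P M x Z A Θ D) :
    Cel Q M (pl ρ x) (pl2 ρ Z) (pl ρ A) (pl ρ Θ) D :=
  ⟨(h2.cm hd hM e.cm).1, e.frm.her h1 h2 hd⟩

theorem DLe.her (c : CM P M x Z A) (e : DLe P M x A g) : DLe Q M (pl ρ x) (pl ρ A) g :=
  fun E => (h2.cm hd hM c).2.dle (h1.gp hd (e E))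

theorem DGe.her (c : CM P M x Z A) (e : DGe P M x A E g) : DGe Q M (pl ρ x) (pl ρ A) E g :=
  (h2.cm hd hM c).2.dge (h1.gp hd e)

theorem Ball.her (c : CM P M x Z A) (e : Ball P M x A t) : Ball Q M (pl ρ x) (pl ρ A) t :=
  (h2.cm hd hM c).2.ball (h1.gp hd e)

omit h1 in
theorem Fat.her (c : CM P M x Z A) (e : Fat P M x A) : Fat Q M (pl ρ x) (pl ρ A) :=
  fun E => (e E).elim fun _ a => ⟨_, (h2.cm hd hM c).2.fat (hd.whp a)⟩

theorem Chn.her {k : Bool → ℕ} {I : Type} [Preorder I] {s : ∀ n, Sy k (Ω n)}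
    {ℓ : I → Bool → ℕ → ℕ} {S : I → ∀ n, Ω n → Λ n} {Θ : I → ∀ n, Ω n → Fin N → Pl N}
    (e : Chn P M x s ℓ S Θ D) : Chn Q M (pl ρ x) (fun n b => (s n b).pull (ρ n)) ℓ
      (fun a => pl ρ (S a)) (fun a => pl ρ (Θ a)) D :=
  ⟨e.mono, fun a a' h => h1.fn hd (e.nest a a' h), fun a => (e.cel a).her h1 h2 hd hM⟩

omit hM in
theorem St2.her {Λ' : ℕ → Type} {k m : Bool → ℕ} {s : ∀ n, Sy k (Ω n)} {η : ℝ}
    {S : ℚ≥0 → ∀ n, Ω n → Λ' n} {Θ : ℚ≥0 → ∀ n, Ω n → Fin N → Pl N} {U G : ℚ≥0 → ℝ}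
    (e : St2 P M x s C m A η S Θ D U G) : St2 Q M (pl ρ x) (fun n b => (s n b).pull (ρ n)) C m
      (pl ρ A) η (fun a => pl ρ (S a)) (fun a => pl ρ (Θ a)) D U G :=
  have hM := e.sys.big
  ⟨e.sys.her h1 hd, e.sure.her hd, fun c => (e.ra c).her h1 hd hM, (h2.nt hd e.min :),
    e.com.her h1 hd,
    e.hvy.her h1 hd hM, e.chn.her h1 h2 hd hM, fun a => h1.fn hd (e.top a),
    fun a => (e.fat a).her h2 hd hM (e.chn.cel a).cm, fun a => (h1.gp hd (e.vol a) :),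
    fun a => (h1.gp hd (e.dzl a) :), fun a => (h1.gp hd (e.dzg a) :)⟩

end Her

/-! ### Slowly shrinking events -/

section SL

theorem Whp.sl' {G : ∀ n, Ω n → Prop} (hM : Big M) (e : Whp P G) : SL P fun Q => Whp Q G :=
  sl_cf hM (cf_whp (fun n (Q : FP (Ω n)) => Q) fun n _ => G n) fun _ => e.cE

theorem FnE.sl {α : ℕ → Type} {F : ∀ n, Ω n → α n} (e : FnE P F A) : SL P fun Q => FnE Q F A :=
  sl_of e.cE

theorem Com.sl (e : Com P Z A) : SL P fun Q => Com Q Z A := sl_of fun G b => (e b).cE G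

theorem Sure.sl (e : Sure P M x) : SL P fun Q => Sure Q M x := sl_of e.cE

theorem sl_const {p : Prop} (e : p) : SL P fun _ => p := sl_of fun _ => e

theorem sl_imp {p : Prop} {K : (∀ n, FP (Ω n)) → Prop} (e : p → SL P K) : SL P fun Q => p → K Q := by
  by_cases c : p
  exacts [(e c).mono fun _ a _ => a, sl_of fun _ a => absurd a c]

variable (h1 : Her1) (h2 : Her2) (hM : Big M)
include hM

theorem Gp.sl {q : ∀ n, Ω n → ℝ → Prop} (e : Gp P M q) : SL P fun Q => Gp Q M q :=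
  sl_cf hM (cf_gp (fun n (Q : FP (Ω n)) => Q) (fun n _ => M n) fun n _ => q n) fun _ => S20.gp_cE e

theorem Pw.sl {Θ : ∀ n, Ω n → Fin N' → Pl N} (e : Pw P M Θ) : SL P fun Q => Pw Q M Θ :=
  e.elim fun B a => (Whp.sl' hM a).mono fun _ b => ⟨B, b⟩

include h1

theorem rem_sl (e : ∀ K : ℕ, REM P x M A C K) : SL P fun Q => ∀ K : ℕ, REM Q x M A C K :=
  sl_cf hM (cf_rem (fun n (Q : FP (Ω n)) => Q) (fun n _ => M n) (fun n _ => x n) (fun n _ => A n) C)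
    fun _ a => h1.rem (dnS_cE a) hM e

theorem Kind.sl (e : Kind P M x κ C m) : SL P fun Q => Kind Q M x κ C m :=
  sl_cf hM (cf_kind (fun n (Q : FP (Ω n)) => Q) (fun n _ => M n) (fun n _ => x n) (fun n _ => κ n) C m)
    fun _ a => e.her h1 (dnS_cE a) hM

theorem RA.sl (e : RA P M x κ C) : SL P fun Q => RA Q M x κ C :=
  sl_cf hM (cf_ra (fun n (Q : FP (Ω n)) => Q) (fun n _ => M n) (fun n _ => x n) (fun n _ => κ n) C)
    fun _ a => e.her h1 (dnS_cE a) hM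

theorem Nse.sl (e : Nse P M x ξ κ C) : SL P fun Q => Nse Q M x ξ κ C :=
  sl_cf hM (cf_nse (fun n (Q : FP (Ω n)) => Q) (fun n _ => M n) (fun n _ => x n) (fun n _ => ξ n)
    (fun n _ => κ n) C) fun _ a => e.her h1 (dnS_cE a) hM

theorem Heavy.sl (e : Heavy P M y A j u) : SL P fun Q => Heavy Q M y A j u :=
  sl_cf hM (cf_heavy (fun n (Q : FP (Ω n)) => Q) (fun n _ => M n) (fun n _ => y n) (fun n _ => A n)
    (fun n _ => j n) fun n _ => u n) fun _ a => e.her h1 (dnS_cE a) hM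

theorem Light.sl (e : Light P M y A j u) : SL P fun Q => Light Q M y A j u :=
  sl_cf hM (cf_light (fun n (Q : FP (Ω n)) => Q) (fun n _ => M n) (fun n _ => y n) (fun n _ => A n)
    (fun n _ => j n) fun n _ => u n) fun _ a => e.her h1 (dnS_cE a) hM

omit hM in
theorem Sys.sl {k m : Bool → ℕ} {s : ∀ n, Sy k (Ω n)} (e : Sys P M x s C m) :
    SL P fun Q => Sys Q M x s C m :=
  sl_cf e.big (cf_sys (fun n (Q : FP (Ω n)) => Q) (fun n _ => M n) (fun n _ => x n) (fun n _ => s n) C m)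
    fun _ a => e.her h1 (dnS_cE a)

include h2

omit h1 in
theorem NT.sl {ν : ∀ n, Ω n → Pl N → ℝ} (e : NT P M x Z ν) : SL P fun Q => NT Q M x Z ν :=
  sl_cf hM (cf_nt (β := fun b n _ => β b n) (fun n (Q : FP (Ω n)) => Q) (fun n _ => M n) (fun n _ => x n)
    (fun b n _ => Z b n) fun n _ => ν n) fun _ a => h2.nt (dnS_cE a) e

omit h1 in
theorem CM.sl (e : CM P M x Z A) : SL P fun Q => CM Q M x Z A :=
  sl_cf hM (cf_cm (β := fun b n _ => β b n) (fun n (Q : FP (Ω n)) => Q) (fun n _ => M n) (fun n _ => x n)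
    (fun b n _ => Z b n) fun n _ => A n) fun _ a => (h2.cm (dnS_cE a) hM e).1

theorem Cel.sl {Θ : ∀ n, Ω n → Fin N → Pl N} (e : Cel P M x Z A Θ D) :
    SL P fun Q => Cel Q M x Z A Θ D :=
  sl_cf hM (cf_cel (β := fun b n _ => β b n) (fun n (Q : FP (Ω n)) => Q) (fun n _ => M n) (fun n _ => x n)
    (fun b n _ => Z b n) (fun n _ => A n) (fun n _ => Θ n) D fun n _ => e.frm.deg n)
    fun _ a => e.her h1 h2 (dnS_cE a) hM

theorem DLe.sl (c : CM P M x Z A) (e : DLe P M x A g) : SL P fun Q => DLe Q M x A g :=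
  sl_cf hM (cf_dle (fun n (Q : FP (Ω n)) => Q) (fun n _ => M n) (fun n _ => x n) (fun n _ => A n)
    fun n _ => g n) fun _ a => e.her h1 h2 (dnS_cE a) hM c

theorem DGe.sl (c : CM P M x Z A) (e : DGe P M x A E g) : SL P fun Q => DGe Q M x A E g :=
  sl_cf hM (cf_dge (fun n (Q : FP (Ω n)) => Q) (fun n _ => M n) (fun n _ => x n) (fun n _ => A n) E
    fun n _ => g n) fun _ a => e.her h1 h2 (dnS_cE a) hM c

omit h1 in
theorem Fat.sl2 (c : CM P M x Z A) (e : Fat P M x A) : SL P fun Q => Fat Q M x A :=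
  sl_all fun E : ℕ => (e E).elim fun B a => (sl_cf hM (cf_whp (fun n (Q : FP (Ω n)) => Q) fun n Q ω =>
      ∀ F : Pl N, F.totalDegree ≤ E → dl M (B + 1) n * cn F ≤ nc Q (x n) (A n) ω F)
    fun _ b => (h2.cm (dnS_cE b) hM c).2.fat (a.cE b)).mono fun _ d => ⟨_, d⟩

theorem Chn.sl {k : Bool → ℕ} {I : Type} [Preorder I] [Countable I] {s : ∀ n, Sy k (Ω n)}
    {ℓ : I → Bool → ℕ → ℕ} {S : I → ∀ n, Ω n → Λ n} {Θ : I → ∀ n, Ω n → Fin N → Pl N}
    (e : Chn P M x s ℓ S Θ D) : SL P fun Q => Chn Q M x s ℓ S Θ D :=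
  (sl_all fun a => (e.cel a).sl h1 h2 hM).mono fun G c =>
    ⟨e.mono, fun a a' h => (e.nest a a' h).cE G, c⟩

omit hM in
theorem St2.sl {Λ' : ℕ → Type} {k m : Bool → ℕ} {s : ∀ n, Sy k (Ω n)} {η : ℝ}
    {S : ℚ≥0 → ∀ n, Ω n → Λ' n} {Θ : ℚ≥0 → ∀ n, Ω n → Fin N → Pl N} {U G : ℚ≥0 → ℝ}
    (e : St2 P M x s C m A η S Θ D U G) : SL P fun Q => St2 Q M x s C m A η S Θ D U G :=
  have hM := e.sys.big
  ((e.sys.sl h1).and ((sl_all fun c => (e.ra c).sl h1 hM).and ((NT.sl h2 hM e.min).and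
    ((e.hvy.sl h1 hM).and ((e.chn.sl h1 h2 hM).and
    ((sl_all fun a => (e.fat a).sl2 h2 hM (e.chn.cel a).cm).and
    ((sl_all fun a => Gp.sl hM (e.vol a)).and ((sl_all fun a => Gp.sl hM (e.dzl a)).and
      (sl_all fun a => Gp.sl hM (e.dzg a)))))))))).mono fun E ⟨a, b, c, d, f, g, h, i, j⟩ =>
    ⟨a, e.sure.cE E, b, c, fun b => (e.com b).cE E, d, f, fun a => (e.top a).cE E, g, h, i, j⟩

end SL

/-- Countably many variables become deterministic and countably many good events become sure. -/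
theorem SL.conc {K : (∀ n, FP (Ω n)) → Prop} (e : SL P K) (hM : Big M) {J : Type} [Countable J]
    (f : J → ∀ n, Ω n → ℝ) {Gd : J → ∀ n, Ω n → Prop} (h : ∀ j, Whp P (Gd j))
    (hf : ∀ j, ∃ B : ℝ, Whp P fun n ω => |f j n ω| ≤ B * M n) :
    ∃ (G : ∀ n, Ω n → Prop) (c : J → ℝ), K (fun n => cE (P n) (G n)) ∧
      ∀ j, ∃ Γ, Sub M Γ ∧ ∀ᶠ n in UF, ∀ ω ∈ (cE (P n) (G n)).S, Gd j n ω ∧
        |f j n ω - c j * M n| ≤ Real.log (Γ n) := by
  obtain ⟨L, l1, l2⟩ := e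
  obtain ⟨G, c, a1, a2, a3⟩ := A1.concM hM f h hf l1
  refine ⟨G, c, l2 G a1, fun j => (a3 j).imp fun Γ b => ⟨b.1, ?_⟩⟩
  filter_upwards [a1, a2 j, b.2] with n u v w ω hω
  have := (mem_cE (ex_of_pb (P := P n) (E := G n) (by
    by_contra r
    rw [le_antisymm (not_lt.1 r) (pb_nonneg _ _), mul_zero] at u
    linarith)) ω).1 hω
  exact ⟨v ω this.1 this.2, w ω this.1 this.2⟩

/-- Countably many bounded vectors become surely bounded. -/
theorem SL.sure {K : (∀ n, FP (Ω n)) → Prop} (e : SL P K) (hM : Big M) {J : Type} [Countable J]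
    {y : J → ∀ n, Ω n → V N} (h : ∀ j, Bdd P M (y j)) :
    ∃ G : ∀ n, Ω n → Prop, K (fun n => cE (P n) (G n)) ∧
      ∀ j, Sure (fun n => cE (P n) (G n)) M (y j) := by
  choose Γ a b using fun j => gp_iff.1 (h j)
  obtain ⟨G, c, d, f⟩ := e.conc hM (fun _ _ _ => 0) b fun _ =>
    ⟨0, Whp.of_ev (Eventually.of_forall fun _ _ _ => by simp)⟩
  exact ⟨G, d, fun j => ⟨Γ j, a j, (f j).elim fun _ r => r.2.mono fun _ u ω hω => (u ω hω).1⟩⟩

end Pool.Agent.MP_5168f5_an.AN
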