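import Pool.Agent.MP_5168f5_an.AN.C1Vol

/-! A norm between two norms with additive relative volumes is diagonal in the same basis. -/

namespace Pool.Agent.MP_5168f5_an.AN.C1

open Finset

namespace C1Dg1A

variable {V : Type} [AddCommGroup V] [Module ℝ V] {k m : ℕ} {ν : V → ℝ}

theorem pk_eq (f : Fin m → ℝ) (h : k ≤ m) : pk f k = ∏ j : Fin k, f (j.castLE h) := by
  unfold pk
  symm
  exact prod_bij (fun j _ => Fin.castLE h j) (fun j _ => by simp)
    (fun _ _ _ _ e => Fin.castLE_injective h e)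
    (fun i hi => ⟨⟨i, (mem_filter.1 hi).2⟩, mem_univ _, rfl⟩) fun _ _ => rfl

theorem mul_vol (h0 : ∀ x, 0 ≤ ν x) {v : Fin k → V} {t B : ℝ} (ht : 0 ≤ t) (hB : 0 ≤ B)
    (h : ∀ φ : Fin k → V →ₗ[ℝ] ℝ, (∀ i, Adm ν (φ i)) → t * dt φ v ≤ B) : t * vol ν v ≤ B := by
  rcases ht.eq_or_lt with rfl | e
  · rwa [zero_mul]
  · rw [← le_div_iff₀' e]
    exact vol_le h0 fun φ a => (le_div_iff₀' e).2 (h φ a)

theorem split (hν : Hb ν) (w : Fin (k + 1) → V) (hu : w (Fin.last k) ≠ 0) : ∃ c : Fin k → ℝ,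
    ν (w (Fin.last k)) * vol ν (fun j => w j.castSucc - c j • w (Fin.last k)) ≤ vol ν w := by
  obtain ⟨φ, h1, h2⟩ := hν.dual (w (Fin.last k))
  have h3 := hν.pos hu
  refine ⟨fun j => φ (w j.castSucc) / ν (w (Fin.last k)), mul_vol hν.nonneg h3.le
    (vol_nonneg hν.nonneg _) fun ψ hψ => le_trans (le_of_eq ?_)
      (le_vol (φ := Fin.snoc ψ φ) (Fin.lastCases (by simpa using h1) (by simpa using hψ)) w)⟩
  obtain ⟨c, hc⟩ : ∃ c : Fin (k + 1) → ℝ,
    c = Fin.snoc (fun j : Fin k => φ (w j.castSucc) / ν (w (Fin.last k))) 0 := ⟨_, rfl⟩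
  have c0 : c (Fin.last k) = 0 := by simp [hc]
  rw [dt, dt, ← Matrix.det_transpose (Matrix.of fun (i j : Fin (k + 1)) => _),
    Matrix.det_eq_of_forall_row_eq_smul_add_const (B := Matrix.of fun i j =>
      (Fin.snoc ψ φ : Fin (k + 1) → V →ₗ[ℝ] ℝ) j (w i - c i • w (Fin.last k))) c _ c0
      (fun i j => by simp [c0]), Matrix.det_succ_column _ (Fin.last k), Fin.sum_univ_castSucc,
    sum_eq_zero fun i _ => by simp [hc, h2, h3.ne'], zero_add, abs_mul, abs_mul,
    ← Matrix.det_transpose]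
  congr 1
  · simp [c0, h2, abs_of_pos h3]
  · congr 2
    ext i j
    simp [hc]

theorem cramer (φ : Fin m → V →ₗ[ℝ] ℝ) (e : Fin m → V) (c : Fin m → ℝ) (i : Fin m) :
    |c i| * dt φ e = dt φ (Function.update e i (∑ j, c j • e j)) := by
  rw [dt, dt, ← abs_mul, ← smul_eq_mul, ← Matrix.det_updateCol_sum]
  congr 2
  ext a b
  by_cases h : b = i <;> simp [h]

theorem low {b : Module.Basis (Fin m) ℝ V} {l : Fin m → ℝ} {L : ℝ} (h : Dg ν b l L) (hL : 0 < L)
    (hl : ∀ i, 0 < l i) (hk : k ≤ m) {v : Fin k → V}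
    (hv : ∀ i j, b.coord (i.castLE hk) (v j) = if i = j then 1 else 0) :
    pk l k ≤ L ^ k * vol ν v := by
  have h1 := le_vol (ν := ν) (φ := fun i => (l (i.castLE hk) / L) • b.coord (i.castLE hk))
    (fun i x => by
      have := h.2 (b.repr x) (i.castLE hk)
      rw [b.sum_repr] at this
      rw [LinearMap.smul_apply, smul_eq_mul, abs_mul, abs_of_pos (div_pos (hl _) hL),
        div_mul_eq_mul_div, div_le_iff₀' hL, mul_comm]
      exact this) v
  rw [dt_smul, dt, show (Matrix.of fun i j : Fin k => b.coord (i.castLE hk) (v j)) = 1 from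
    Matrix.ext hv, Matrix.det_one, abs_one, mul_one, prod_div_distrib, ← pk_eq, prod_const,
    card_univ, Fintype.card_fin] at h1
  exact (div_le_iff₀' (by positivity)).1 ((le_abs_self _).trans h1)

end C1Dg1A

open C1Dg1A

theorem rDg1 (h : LeRho) (h2 : TopK) : Diag1 := by
  intro m
  obtain ⟨C, hC⟩ := h2 m
  obtain ⟨D, hD⟩ : ∃ D, D = m + (1 + C + (m.factorial + m)) := ⟨_, rfl⟩
  refine ⟨D + (m + 1 + (m.factorial + D * m)), ?_⟩
  intro V _ _ ν0 νs ν1 e l0 l1 al L n0 ns n1 hL sp p0 p1 pa d0 d1 an hr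
  obtain ⟨b, rfl⟩ : ∃ b : Module.Basis (Fin m) ℝ V, ⇑b = e :=
    ⟨Module.Basis.mk (d0.li n0 p0) sp, Module.Basis.coe_mk _ _⟩
  have := b.finiteDimensional_of_finite
  have L1 : 1 ≤ L := by linarith
  have L0 : 0 < L := by linarith
  have pw : ∀ {i j : ℕ}, i ≤ j → L ^ i ≤ L ^ j := fun e => pow_le_pow_right₀ L1 e
  have fa : ∀ k ≤ m, (k.factorial : ℝ) ≤ L ^ m.factorial := fun k hk =>
    le_trans (by exact_mod_cast (Nat.factorial_le hk).trans Nat.lt_two_pow_self.le)
      (pow_le_pow_left₀ zero_le_two hL _)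
  have pp : ∀ {f : Fin m → ℝ}, (∀ i, 0 < f i) → ∀ k, 0 < pk f k := fun a k =>
    prod_pos fun i _ => a i
  have pd : ∀ (f g : Fin m → ℝ) k, pk (fun i => f i / g i) k = pk f k / pk g k := fun f g k =>
    prod_div_distrib _ _
  have pq := fun i => div_pos (p0 i) (pa i)
  have U : ∀ k (hk : k ≤ m), vol νs (fun j : Fin k => b (j.castLE hk)) ≤
      L ^ (1 + C + (m.factorial + m)) * pk (fun i => l0 i / al i) k := fun k hk => by
    have a1 : vol ν1 (fun j : Fin k => b (j.castLE hk)) ≤ L ^ (m.factorial + m) * pk l1 k := by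
      refine (vol_le_prod n1.nonneg _).trans ?_
      rw [pow_add, mul_assoc]
      refine mul_le_mul (fa k hk) ((prod_le_prod (fun _ _ => n1.nonneg _) fun j _ =>
        d1.1 _).trans ?_) (prod_nonneg fun _ _ => n1.nonneg _) (by positivity)
      rw [prod_mul_distrib, ← pk_eq, prod_const, card_univ, Fintype.card_fin]
      exact mul_le_mul_of_nonneg_right (pw hk) (pp p1 k).le
    have a2 := (le_div_iff₀' (pp pa k)).2 ((hr k hk).2.trans (mul_le_mul_of_nonneg_left
      (hC V ν0 ν1 b l0 l1 L n0 n1 hL sp p0 p1 d0 d1 an k hk).1 L0.le))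
    have a3 := pp pa k
    have a4 := pp p0 k
    have a5 := pp p1 k
    rw [pd] at a2 ⊢
    refine (h V νs ν1 k _ ns n1).trans ((mul_le_mul a2 a1 (vol_nonneg n1.nonneg _)
      (by positivity)).trans_eq ?_)
    field_simp
    ring
  have Lw : ∀ k (hk : k ≤ m) (v : Fin k → V),
      (∀ i j, b.coord (i.castLE hk) (v j) = if i = j then 1 else 0) →
      pk (fun i => l0 i / al i) k ≤ L ^ (k + 1) * vol νs v := fun k hk v hv => by
    rw [pd, div_le_iff₀ (pp pa k)]
    exact (low d0 L0 p0 hk hv).trans ((mul_le_mul_of_nonneg_left ((h V ν0 νs k v n0 ns).trans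
      (mul_le_mul_of_nonneg_right (hr k hk).1 (vol_nonneg ns.nonneg _))) (by positivity)).trans_eq
        (by ring))
  have up : ∀ i, νs (b i) ≤ L ^ D * (l0 i / al i) := fun i => by
    obtain ⟨c, hc⟩ := split ns (fun j : Fin (i + 1) => b (j.castLE i.2)) (b.ne_zero _)
    have a1 := Lw i i.2.le (fun j => b (j.castSucc.castLE i.2) - c j • b i) fun x y => by
      have z : i ≠ x.castLE i.2.le := fun z => x.2.ne' (congrArg Fin.val z)
      simp [Finsupp.single_apply, z, Fin.ext_iff, eq_comm]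
    have a2 := hc.trans (U _ i.2)
    rw [pk_eq _ i.2, Fin.prod_univ_castSucc] at a2
    rw [pk_eq _ i.2.le] at a1
    have a3 := (mul_le_mul_of_nonneg_left a1 (ns.nonneg (b i))).trans ((mul_left_comm _ _ _).le.trans
      (mul_le_mul (pw i.2) a2 (mul_nonneg (ns.nonneg _) (vol_nonneg ns.nonneg _)) (by positivity)))
    refine le_of_mul_le_mul_right (a3.trans_eq ?_) (prod_pos fun _ _ => pq _)
    rw [hD, pow_add L m]
    exact (by intros; ring : ∀ x y p q : ℝ, x * (y * (p * q)) = x * y * q * p) _ _ _ _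
  refine ⟨fun i => (up i).trans (mul_le_mul_of_nonneg_right (pw le_self_add) (pq i).le),
    fun c i => ?_⟩
  have x0 := ns.nonneg (∑ j, c j • b j)
  have q0 : 0 < ∏ j ∈ univ \ {i}, l0 j / al j := prod_pos fun _ _ => pq _
  have a1 : |c i| * vol νs b ≤ L ^ m.factorial * (νs (∑ j, c j • b j) *
      (L ^ (D * m) * ∏ j ∈ univ \ {i}, l0 j / al j)) := by
    refine mul_vol ns.nonneg (abs_nonneg _) (by positivity) fun φ hφ => ?_
    rw [cramer]
    refine (dt_le hφ _).trans (mul_le_mul (fa m le_rfl) ?_ (prod_nonneg fun _ _ => ns.nonneg _)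
      (by positivity))
    simp only [Function.apply_update fun _ => νs]
    rw [prod_update_of_mem (mem_univ i)]
    refine mul_le_mul_of_nonneg_left ((prod_le_prod (fun _ _ => ns.nonneg _) fun j _ =>
      up j).trans ?_) x0
    rw [prod_mul_distrib, prod_const, ← pow_mul]
    exact mul_le_mul_of_nonneg_right (pw (Nat.mul_le_mul_left _
      ((card_le_univ _).trans_eq (Fintype.card_fin m)))) q0.le
  have a2 := Lw m le_rfl b fun x y => by simp [Finsupp.single_apply, eq_comm]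
  rw [pk_eq _ le_rfl] at a2
  have a3 : l0 i / al i * ∏ j ∈ univ \ {i}, l0 j / al j ≤ L ^ (m + 1) * vol νs b :=
    (prod_eq_mul_prod_sdiff_singleton i (fun j => l0 j / al j) (by simp)).symm.trans_le a2
  have a4 := (mul_le_mul_of_nonneg_left a3 (abs_nonneg (c i))).trans ((mul_left_comm _ _ _).le.trans
    (mul_le_mul_of_nonneg_left a1 (by positivity)))
  refine le_trans (le_of_mul_le_mul_right ((mul_assoc _ _ _).le.trans (a4.trans_eq ?_)) q0)
    (mul_le_mul_of_nonneg_right (pw le_add_self) x0)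
  ring

end Pool.Agent.MP_5168f5_an.AN.C1
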