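import Pool.Agent.MP_5168f5_an.AN.C1Vol

/-! One basis for a rectangle of norms. -/

namespace Pool.Agent.MP_5168f5_an.AN.C1

open Finset Real

namespace C1Dg2A

variable {V : Type} [AddCommGroup V] [Module ℝ V] {m : ℕ}

open Classical in
/-- The projection to the block of weight `v`. -/
noncomputable def pr (b : Module.Basis (Fin m) ℝ V) (d : Fin m → ℝ) (v : ℝ) : V →ₗ[ℝ] V :=
  ∑ i with d i = v, (b.coord i).smulRight (b i)

variable (b : Module.Basis (Fin m) ℝ V) (d : Fin m → ℝ)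

open Classical in
theorem pr_apply (v : ℝ) (x : V) : pr b d v x = ∑ i with d i = v, b.repr x i • b i := by
  simp [pr]

open Classical in
theorem pr_blk (v w : ℝ) {x : V}
    (hx : x ∈ Submodule.span ℝ (Set.range fun i : {i // d i = w} => b i)) :
    pr b d v x = if w = v then x else 0 := by
  obtain ⟨c, rfl⟩ := (Submodule.mem_span_range_iff_exists_fun ℝ).1 hx
  have k : ∀ i : {i // d i = w}, pr b d v (b i) = if w = v then b i else 0 := fun i => by
    rw [pr_apply]
    simp only [Module.Basis.repr_self, Finsupp.single_apply, ite_smul, one_smul, zero_smul,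
      sum_ite_eq, mem_filter, mem_univ, true_and, i.2]
  simp only [map_sum, map_smul, k]
  split_ifs <;> simp

theorem key {u : Fin m → V} (sp : ⊤ ≤ Submodule.span ℝ (Set.range u)) {ν0 ν1 : ℝ → V → ℝ}
    {A : Set ℝ} {L Λ R c g : ℝ} (hL : 0 ≤ L) (hΛ : 0 ≤ Λ) (hc : c ≤ R) (r1 : -R ∈ A) (r2 : R ∈ A)
    (hb : ∀ a ∈ A, Hb (ν1 a)) (h0 : ∀ a ∈ A, Dg (ν0 a) b (fun i => exp (-(d i * a))) L)
    (h1 : ∀ a ∈ A, Dg (ν1 a) u (fun i => exp (-(d i * a))) L)
    (cmp : ∀ a ∈ A, ∀ x, ν0 a x ≤ Λ * ν1 a x ∧ ν1 a x ≤ Λ * ν0 a x)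
    (gap : ∀ i j, d i ≠ d j → g ≤ |d i - d j|) (big : L ^ 3 * Λ ^ 2 ≤ exp (g * (R - c)))
    {a a' : ℝ} (ha : a ∈ A) (ha' : a' ∈ A) (c1 : |a| ≤ c) (c2 : |a'| ≤ c) (v : ℝ) (x : V) :
    ν1 a' (pr b d v x) ≤ m * ((L + m) * L) * exp (-(v * (a' - a))) * ν1 a x := by
  classical
  have g1 : ∀ i j, ∀ s ∈ A, |b.repr (u j) i| ≤ L * (Λ * L) * exp ((d i - d j) * s) :=
    fun i j s hs => by
    have p := (h0 s hs).2 (b.repr (u j)) i
    rw [b.sum_repr] at p
    have q := p.trans (mul_le_mul_of_nonneg_left ((cmp s hs _).1.trans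
      (mul_le_mul_of_nonneg_left ((h1 s hs).1 j) hΛ)) hL)
    refine le_of_mul_le_mul_right (q.trans_eq ?_) (exp_pos (-(d i * s)))
    rw [mul_assoc _ (exp _), ← exp_add, show (d i - d j) * s + -(d i * s) = -(d j * s) by ring]
    ring
  have g2 : ∀ i j, |b.repr (u j) i| ≤ L * (Λ * L) * exp (-(|d i - d j| * R)) := fun i j => by
    rcases abs_cases (d i - d j) with h | h
    · rw [h.1, ← mul_neg]; exact g1 i j _ r1
    · rw [h.1, neg_mul, neg_neg]; exact g1 i j _ r2
  have off : ∀ i j, d i ≠ d j →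
      |b.repr (u j) i| * ν1 a' (b i) ≤ exp (-(|d i - d j| * c) - d i * a') := fun i j h => by
    have p := (cmp a' ha' _).2.trans (mul_le_mul_of_nonneg_left ((h0 a' ha').1 i) hΛ)
    have q := big.trans (exp_le_exp.2 (mul_le_mul_of_nonneg_right (gap i j h) (sub_nonneg.2 hc)))
    calc _ ≤ L * (Λ * L) * exp (-(|d i - d j| * R)) * (Λ * (L * exp (-(d i * a')))) :=
          mul_le_mul (g2 i j) p ((hb a' ha').nonneg _) (by positivity)
      _ = L ^ 3 * Λ ^ 2 * (exp (-(|d i - d j| * R)) * exp (-(d i * a'))) := by ring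
      _ ≤ exp (|d i - d j| * (R - c)) * (exp (-(|d i - d j| * R)) * exp (-(d i * a'))) :=
          mul_le_mul_of_nonneg_right q (by positivity)
      _ = _ := by rw [← exp_add, ← exp_add]; congr 1; ring
  have cd : ∀ (s : Finset (Fin m)) (y : ℝ), 0 ≤ y → s.card • y ≤ m * y := fun s y hy => by
    rw [nsmul_eq_mul]
    exact mul_le_mul_of_nonneg_right (by exact_mod_cast (card_le_univ s).trans (by simp)) hy
  have col : ∀ j, ν1 a' (pr b d v (u j)) ≤ (L + m) * exp (-(v * (a' - a)) - d j * a) := fun j => by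
    have e0 := exp_pos (-(v * (a' - a)) - d j * a)
    rw [pr_apply]
    by_cases h : d j = v
    · have e := sum_filter_add_sum_filter_not univ (fun i => d i = v) fun i => b.repr (u j) i • b i
      rw [b.sum_repr, ← eq_sub_iff_add_eq, sub_eq_add_neg, ← neg_one_smul ℝ] at e
      have p := ((hb a' ha').sum (univ.filter fun i => ¬d i = v) (b.repr (u j)) b).trans
        ((sum_le_card_nsmul _ _ (exp (-(v * (a' - a)) - d j * a)) fun i hi => ?_).trans
          (cd _ _ e0.le))
      · have q : ν1 a' (u j) ≤ L * exp (-(d j * a')) := (h1 a' ha').1 j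
        rw [show -(d j * a') = -(v * (a' - a)) - d j * a by rw [h]; ring] at q
        rw [e]
        refine ((hb a' ha').add _ _).trans ?_
        rw [(hb a' ha').smul, abs_neg, abs_one, one_mul]
        linarith
      · refine (off i j (h ▸ (mem_filter.1 hi).2)).trans (exp_le_exp.2 ?_)
        have := (neg_abs_le ((d i - d j) * a')).trans' (neg_le_neg ((abs_mul _ _).trans_le
          (mul_le_mul_of_nonneg_left c2 (abs_nonneg _))))
        rw [← h]; linarith
    · refine (((hb a' ha').sum _ (b.repr (u j)) b).trans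
        ((sum_le_card_nsmul _ _ (exp (-(v * (a' - a)) - d j * a)) fun i hi => ?_).trans
          (cd _ _ e0.le))).trans (by nlinarith)
      have hi' := (mem_filter.1 hi).2
      refine (off i j fun k => h (k ▸ hi')).trans (exp_le_exp.2 ?_)
      have := (neg_abs_le ((d i - d j) * a)).trans' (neg_le_neg ((abs_mul _ _).trans_le
        (mul_le_mul_of_nonneg_left c1 (abs_nonneg _))))
      rw [← hi']; linarith
  obtain ⟨y, rfl⟩ := (Submodule.mem_span_range_iff_exists_fun ℝ).1 (sp (Submodule.mem_top (x := x)))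
  rw [map_sum]
  simp only [map_smul]
  have n0 := (hb a ha).nonneg (∑ i, y i • u i)
  refine ((hb a' ha').sum _ _ _).trans (((sum_le_card_nsmul _ _ ((L + m) * L *
    exp (-(v * (a' - a))) * ν1 a (∑ i, y i • u i)) fun j _ => ?_).trans
      (cd _ _ (by positivity))).trans_eq (by ring))
  calc _ ≤ |y j| * ((L + m) * exp (-(v * (a' - a)) - d j * a)) :=
        mul_le_mul_of_nonneg_left (col j) (abs_nonneg _)
    _ = (L + m) * exp (-(v * (a' - a))) * (|y j| * exp (-(d j * a))) := by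
        rw [sub_eq_add_neg (-_), exp_add]; ring
    _ ≤ (L + m) * exp (-(v * (a' - a))) * (L * ν1 a (∑ i, y i • u i)) :=
        mul_le_mul_of_nonneg_left ((h1 a ha).2 y j) (by positivity)
    _ = _ := by ring

theorem m_le {L : ℝ} (hL : 2 ≤ L) (m : ℕ) : (m : ℝ) ≤ L ^ m :=
  le_trans (by exact_mod_cast m.lt_two_pow_self.le) (pow_le_pow_left₀ zero_le_two hL m)

open Classical in
theorem pr_sum {f : Fin m → V}
    (hf : ∀ i, f i ∈ Submodule.span ℝ (Set.range fun j : {j // d j = d i} => b j)) (v : ℝ)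
    (y : Fin m → ℝ) : pr b d v (∑ j, y j • f j) = ∑ j, (if d j = v then y j else 0) • f j := by
  rw [map_sum]
  refine sum_congr rfl fun j _ => ?_
  rw [map_smul, pr_blk b d v _ (hf j)]
  split_ifs <;> simp

end C1Dg2A

open C1Dg2A

theorem rDg2 (two : Two) (line : Line) (dg1 : Diag1) : Diag2 := fun m => by
  classical
  obtain ⟨C1, hl⟩ := line m
  obtain ⟨C2, h1⟩ := dg1 m
  obtain ⟨C3, c3⟩ : ∃ C3, C3 = 2 * C1 + 2 * m + 2 := ⟨_, rfl⟩
  refine ⟨7 * C1 + 2 * m + C3 * C2 + C3, fun V _ _ _ ν A B d e L R c K g a0 b0 b1 rk hL hb r1 r2 hA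
    a1 a2 hc b2 b3 hB lh lv gap hK big => ?_⟩
  have L1 : 1 ≤ L := by linarith
  have L0 : 0 < L := by linarith
  have mL := m_le hL m
  have pw : ∀ {i j : ℕ}, i ≤ j → L ^ i ≤ L ^ j := fun h => pow_le_pow_right₀ L1 h
  choose u sp hu using fun b (h : b ∈ B) =>
    hl V (fun a => ν a b) A d L _ _ rk hL (fun a k => hb a k b h) r1 r2 hA (lh b h)
  have cmp : ∀ a ∈ A, ∀ b ∈ B, ∀ b' ∈ B, ∀ x,
      ν a b x ≤ m * L ^ C1 * L ^ C1 * exp (K * (b1 - b0)) * ν a b' x := fun a ha b k b' k' x => by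
    obtain ⟨w, w1, w2⟩ := hl V (ν a) B e L _ _ rk hL (hb a ha) b2 b3 hB (lv a ha)
    simpa using (w2 b k).cmp (w2 b' k') (hb a ha b k) (by positivity)
      (exp_pos (K * (b1 - b0))).le (fun i => by
        rw [← exp_add, exp_le_exp]
        have p : |b' - b| ≤ b1 - b0 := by
          rw [abs_le]; constructor <;> linarith [(hB k).1, (hB k).2, (hB k').1, (hB k').2]
        have q := mul_le_mul (hK i) p (abs_nonneg _) ((abs_nonneg _).trans (hK i))
        rw [← abs_mul] at q
        linarith [le_abs_self (e i * (b' - b))]) w1 x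
  let bs : Module.Basis (Fin m) ℝ V := Module.Basis.mk
    ((hu b0 b2 a0 a1).li (hb a0 a1 b0 b2) fun i => exp_pos _) (sp b0 b2)
  have ky : ∀ b ∈ B, ∀ a ∈ A, ∀ a' ∈ A, |a| ≤ c → |a'| ≤ c → ∀ v x,
      ν a' b (pr bs d v x) ≤ L ^ C3 * exp (-(v * (a' - a))) * ν a b x :=
    fun b k a ha a' ha' c1 c2 v x => by
    refine (key bs d (sp b k) (ν0 := fun a => ν a b0) (ν1 := fun a => ν a b) (L := L ^ C1)
      (by positivity) (by positivity) hc r1 r2 (fun a ha => hb a ha b k)
      (fun a ha => by simpa only [bs, Module.Basis.coe_mk] using hu b0 b2 a ha) (hu b k)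
      (fun a ha x => ⟨cmp a ha b0 b2 b k x, cmp a ha b k b0 b2 x⟩) gap (le_trans ?_ big)
      ha ha' c1 c2 v x).trans (mul_le_mul_of_nonneg_right
        (mul_le_mul_of_nonneg_right ?_ (exp_pos _).le) ((hb a ha b k).nonneg x))
    · calc _ = (L ^ (7 * C1) * (m * m)) * exp (2 * K * (b1 - b0)) := by
            rw [mul_assoc 2, two_mul, exp_add]; ring
        _ ≤ (L ^ (7 * C1) * (L ^ m * L ^ m)) * exp (2 * K * (b1 - b0)) := by gcongr
        _ ≤ _ := by
            rw [← pow_add, ← pow_add]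
            exact mul_le_mul_of_nonneg_right (pw (by omega)) (exp_pos _).le
    · have p : L ^ C1 + m ≤ L ^ (C1 + m + 1) := by
        have := pw (show C1 ≤ C1 + m by omega)
        have := pw (show m ≤ C1 + m by omega)
        rw [pow_succ]
        nlinarith [pow_pos L0 (C1 + m)]
      calc _ ≤ L ^ m * (L ^ (C1 + m + 1) * L ^ C1) := by gcongr
        _ ≤ _ := by rw [← pow_add, ← pow_add]; exact pw (by omega)
  choose w l l0 w1 w2 w3 using fun v : ℝ => two V (ν a0 b0) (ν a0 b1) {j // d j = v}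
    (fun j => bs j) (hb a0 a1 b0 b2) (hb a0 a1 b1 b3)
    (bs.linearIndependent.comp _ Subtype.val_injective)
  let f : Fin m → V := fun i => w (d i) ⟨i, rfl⟩
  have f1 : ∀ i, f i ∈ Submodule.span ℝ (Set.range fun j : {j // d j = d i} => bs j) :=
    fun i => w1 _ _
  have p3 : 1 ≤ L ^ C3 := one_le_pow₀ L1
  have blk : ∀ b ∈ B, ∀ ll : ∀ v, {j // d j = v} → ℝ, (∀ v j, 0 < ll v j) →
      (∀ v, Dg (ν a0 b) (w v) (ll v) 1) → Dg (ν a0 b) f (fun i => ll (d i) ⟨i, rfl⟩) (L ^ C3) :=
    fun b k ll p q => by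
    refine ⟨fun i => ((q _).1 _).trans (mul_le_mul_of_nonneg_right p3 (p _ _).le), fun y i => ?_⟩
    have s := ky b k a0 a1 a0 a1 a2 a2 (d i) (∑ j, y j • f j)
    rw [sub_self, mul_zero, neg_zero, exp_zero, mul_one, pr_sum bs d f1] at s
    refine le_trans (((q (d i)).2 (fun j => y j) ⟨i, rfl⟩).trans_eq ?_) s
    rw [one_mul]
    congr 1
    simp only [ite_smul, zero_smul]
    rw [← sum_filter, sum_subtype (p := fun j => d j = d i) _ (by simp)]
    refine sum_congr rfl fun ⟨j, hj⟩ _ => ?_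
    congr 1
    generalize d i = v at hj
    subst hj
    rfl
  have d0 := blk b0 b2 (fun _ _ => 1) (fun _ _ => one_pos) w2
  have d1 := blk b1 b3 l l0 w3
  set l1 : Fin m → ℝ := fun i => l (d i) ⟨i, rfl⟩
  have l2 : ∀ i, 0 < l1 i := fun i => l0 _ _
  have spf : ⊤ ≤ Submodule.span ℝ (Set.range f) :=
    ((d0.li (hb a0 a1 b0 b2) fun _ => one_pos).span_eq_top_of_card_eq_finrank'
      (by simp [rk])).ge
  let σ := Tuple.sort l1
  have L3 : L ^ 2 ≤ L ^ C3 := pw (by omega)
  have vt : ∀ b ∈ B, Dg (ν a0 b) f (fun i => exp (-(e (σ.symm i) * (b - b0)))) ((L ^ C3) ^ C2) :=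
    fun b k => by
    have q := h1 V (ν a0 b0) (ν a0 b) (ν a0 b1) (f ∘ σ) (fun _ => 1) (l1 ∘ σ)
      (fun i => exp (e i * (b - b0))) (L ^ C3) (hb _ a1 _ b2) (hb _ a1 _ k) (hb _ a1 _ b3)
      (by nlinarith) (by rwa [σ.surjective.range_comp]) (fun _ => one_pos) (fun _ => l2 _)
      (fun _ => exp_pos _) (d0.perm σ) (d1.perm σ)
      (fun i j h => one_div_le_one_div_of_le (l2 _) (Tuple.monotone_sort l1 h)) fun n hn => by
        have pp : ∀ s, 0 < pk (fun i => exp (e i * s)) n := fun s =>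
          prod_pos fun i _ => exp_pos _
        have x1 := (lv a0 a1 n hn b0 b2 b k (hB k).1).1
        have x2 := (lv a0 a1 n hn b k b1 b3 (hB k).2).1
        have x3 := (lv a0 a1 n hn b0 b2 b1 b3 (hB b3).1).2
        have x4 : pk (fun i => exp (e i * (b - b0))) n * pk (fun i => exp (e i * (b1 - b))) n =
            pk (fun i => exp (e i * (b1 - b0))) n := by
          unfold pk
          rw [← prod_mul_distrib]
          exact prod_congr rfl fun i _ => by rw [← exp_add]; congr 1; ring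
        have x5 : 0 ≤ rho n (ν a0 b0) (ν a0 b1) :=
          nonneg_of_mul_nonneg_right ((pp _).le.trans x3) L0
        refine ⟨x1.trans (mul_le_mul_of_nonneg_right (by nlinarith) (pp _).le), ?_⟩
        calc _ ≤ pk (fun i => exp (e i * (b - b0))) n *
              (L * pk (fun i => exp (e i * (b1 - b))) n) := mul_le_mul_of_nonneg_left x2 (pp _).le
          _ = L * pk (fun i => exp (e i * (b1 - b0))) n := by rw [← x4]; ring
          _ ≤ L * (L * rho n (ν a0 b0) (ν a0 b1)) := mul_le_mul_of_nonneg_left x3 L0.le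
          _ ≤ _ := by rw [← mul_assoc, ← sq]; exact mul_le_mul_of_nonneg_right L3 x5
    have q' := q.perm σ.symm
    simpa only [Function.comp_def, Equiv.apply_symm_apply, one_div, ← exp_neg] using q'
  have pC : L ^ C3 * (L ^ C3) ^ C2 ≤ L ^ (7 * C1 + 2 * m + C3 * C2 + C3) := by
    rw [← pow_mul, ← pow_add]; exact pw (by omega)
  refine ⟨fun i => exp (-(d i * a0 + e (σ.symm i) * b0)) • f i, σ.symm, ?_, fun a ha ac b k => ?_⟩
  · refine spf.trans (Submodule.span_le.2 ?_)
    rintro _ ⟨i, rfl⟩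
    rw [SetLike.mem_coe, ← Submodule.smul_mem_iff _ (exp_pos (-(d i * a0 + e (σ.symm i) * b0))).ne']
    exact Submodule.subset_span ⟨i, rfl⟩
  have fin : Dg (ν a b) f (fun i => exp (-(d i * (a - a0))) * exp (-(e (σ.symm i) * (b - b0))))
      (L ^ (7 * C1 + 2 * m + C3 * C2 + C3)) := by
    refine ⟨fun i => ?_, fun y i => ?_⟩
    · have s := ky b k a0 a1 a ha a2 ac (d i) (f i)
      rw [pr_blk bs d _ _ (f1 i), if_pos rfl] at s
      refine (s.trans (mul_le_mul_of_nonneg_left ((vt b k).1 i) (by positivity))).trans ?_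
      exact le_trans (le_of_eq (by ring)) (mul_le_mul_of_nonneg_right pC (by positivity))
    · have s := ky b k a ha a0 a1 ac a2 (d i) (∑ j, y j • f j)
      rw [pr_sum bs d f1] at s
      have t := (vt b k).2 (fun j => if d j = d i then y j else 0) i
      rw [if_pos rfl] at t
      have z : exp (-(d i * (a - a0))) * exp (-(d i * (a0 - a))) = 1 := by
        rw [← exp_add, exp_eq_one_iff]; ring
      calc _ = exp (-(d i * (a - a0))) * (|y i| * exp (-(e (σ.symm i) * (b - b0)))) := by ring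
        _ ≤ exp (-(d i * (a - a0))) * ((L ^ C3) ^ C2 *
            (L ^ C3 * exp (-(d i * (a0 - a))) * ν a b (∑ j, y j • f j))) :=
          mul_le_mul_of_nonneg_left (t.trans (mul_le_mul_of_nonneg_left s (by positivity)))
            (exp_pos _).le
        _ = L ^ C3 * (L ^ C3) ^ C2 * (exp (-(d i * (a - a0))) * exp (-(d i * (a0 - a)))) *
            ν a b (∑ j, y j • f j) := by ring
        _ ≤ _ := by
          rw [z, mul_one]; exact mul_le_mul_of_nonneg_right pC ((hb a ha b k).nonneg _)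
  have fin' := fin.scale (hb a ha b k) fun i => exp_pos (-(d i * a0 + e (σ.symm i) * b0))
  refine (congrArg (fun y => Dg _ _ y _) (funext fun i => ?_)).mp fin'
  rw [← exp_add, ← exp_add]; congr 1; ring

end Pool.Agent.MP_5168f5_an.AN.C1
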