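import Pool.Agent.MP_5168f5_an.AN.C1Vol

/-! One basis for a line of norms. -/

namespace Pool.Agent.MP_5168f5_an.AN.C1

open Finset

namespace C1LineA

theorem pk_pos {m : ℕ} {f : Fin m → ℝ} (hf : ∀ i, 0 < f i) (k : ℕ) : 0 < pk f k :=
  prod_pos fun i _ => hf i

theorem pk_exp {m : ℕ} (d : Fin m → ℝ) (a b : ℝ) (k : ℕ) :
    pk (fun i => Real.exp (d i * a)) k * pk (fun i => Real.exp (d i * b)) k =
      pk (fun i => Real.exp (d i * (a + b))) k := by
  unfold pk
  rw [← prod_mul_distrib]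
  exact prod_congr rfl fun i _ => by rw [← Real.exp_add, ← mul_add]

theorem span_top {V : Type} [AddCommGroup V] [Module ℝ V] [FiniteDimensional ℝ V] {m : ℕ}
    (hm : Module.finrank ℝ V = m) {e : Fin m → V} (h : LinearIndependent ℝ e) :
    ⊤ ≤ Submodule.span ℝ (Set.range e) :=
  (h.span_eq_top_of_card_eq_finrank' (by rw [Fintype.card_fin, hm])).ge

end C1LineA

open C1LineA

theorem rLine (h : Two) (h2 : Diag1) : Line := by
  intro m
  obtain ⟨C, hC⟩ := h2 m
  refine ⟨2 * C, fun V _ _ _ ν S d L s0 s1 hm hL hb h0 h1 hS hl => ?_⟩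
  obtain ⟨e, l, lp, -, D0, D1⟩ := h V (ν s0) (ν s1) (Fin m) (Module.finBasisOfFinrankEq ℝ V hm)
    (hb _ h0) (hb _ h1) (Module.finBasisOfFinrankEq ℝ V hm).linearIndependent
  set σ := Tuple.sort l with hσ
  have hL0 : 0 < L := by linarith
  have hL2 : 2 ≤ L ^ 2 := by nlinarith
  have hL1 : L ≤ L ^ 2 := by nlinarith
  have E0 : Dg (ν s0) (e ∘ σ) (fun _ => 1) (L ^ 2) :=
    (D0.perm σ).mono (hb _ h0).nonneg (fun _ => zero_le_one) (by linarith)
  have E1 : Dg (ν s1) (e ∘ σ) (l ∘ σ) (L ^ 2) :=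
    (D1.perm σ).mono (hb _ h1).nonneg (fun i => (lp _).le) (by linarith)
  have sp := span_top hm (E0.li (hb _ h0) fun _ => one_pos)
  have an : Antitone fun i => (1 : ℝ) / (l ∘ σ) i := fun i j hij =>
    one_div_le_one_div_of_le (lp _) (Tuple.monotone_sort l hij)
  have key : ∀ s ∈ S, Dg (ν s) (fun i => Real.exp (-(d i * s0)) • (e ∘ σ) i)
      (fun i => Real.exp (-(d i * s))) (L ^ (2 * C)) := by
    intro s hs
    have := (hC V (ν s0) (ν s) (ν s1) (e ∘ σ) (fun _ => 1) (l ∘ σ)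
      (fun i => Real.exp (d i * (s - s0))) (L ^ 2) (hb _ h0) (hb _ hs) (hb _ h1) hL2 sp
      (fun _ => one_pos) (fun i => lp _) (fun _ => Real.exp_pos _) E0 E1 an fun k hk => by
        have p0 := pk_pos (fun i => Real.exp_pos (d i * (s - s0))) k
        refine ⟨(hl k hk s0 h0 s hs (hS hs).1).1.trans (mul_le_mul_of_nonneg_right hL1 p0.le), ?_⟩
        have a1 := (hl k hk s hs s1 h1 (hS hs).2).1
        have a2 := (hl k hk s0 h0 s1 h1 ((hS hs).1.trans (hS hs).2)).2
        have a3 := pk_exp d (s - s0) (s1 - s) k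
        rw [show s - s0 + (s1 - s) = s1 - s0 by ring] at a3
        calc _ ≤ pk (fun i => Real.exp (d i * (s - s0))) k *
              (L * pk (fun i => Real.exp (d i * (s1 - s))) k) :=
              mul_le_mul_of_nonneg_left a1 p0.le
          _ = L * pk (fun i => Real.exp (d i * (s1 - s0))) k := by rw [← a3]; ring
          _ ≤ L * (L * rho k (ν s0) (ν s1)) := mul_le_mul_of_nonneg_left a2 hL0.le
          _ = _ := by ring).scale (hb _ hs) (s := fun i => Real.exp (-(d i * s0)))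
      fun _ => Real.exp_pos _
    rw [← pow_mul] at this
    convert this using 2 with i
    rw [one_div, ← Real.exp_neg, ← Real.exp_add]
    congr 1
    ring
  exact ⟨_, span_top hm ((key s0 h0).li (hb _ h0) fun _ => Real.exp_pos _), key⟩

end Pool.Agent.MP_5168f5_an.AN.C1
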