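import Pool.Agent.MP_5168f5_an.AN.C1Vol

/-! The relative volume is the product of the largest relative axes. -/

namespace Pool.Agent.MP_5168f5_an.AN.C1

open Finset Module

namespace C1TopA

variable {V : Type} [AddCommGroup V] [Module ℝ V] {k m : ℕ} {ν ν' : V → ℝ} {l l' : Fin m → ℝ}
  {L : ℝ}

theorem pk_eq (g : Fin m → ℝ) (hk : k ≤ m) : pk g k = ∏ i : Fin k, g (Fin.castLE hk i) := by
  have : (univ.filter fun i : Fin m => i.val < k) = univ.map (Fin.castLEEmb hk) := by
    ext i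
    simp only [mem_filter, mem_univ, true_and, mem_map]
    exact ⟨fun h => ⟨⟨i, h⟩, rfl⟩, fun ⟨j, h⟩ => h ▸ j.2⟩
  rw [pk, this, prod_map]; rfl

theorem le_strict {f : Fin k → Fin m} (hf : StrictMono f) :
    ∀ (n : ℕ) (h : n < k), n ≤ (f ⟨n, h⟩).val
  | 0, _ => Nat.zero_le _
  | n + 1, h => Nat.succ_le_of_lt ((le_strict hf n (Nat.lt_of_succ_lt h)).trans_lt
      (hf (show (⟨n, Nat.lt_of_succ_lt h⟩ : Fin k) < ⟨n + 1, h⟩ from Nat.lt_succ_self n)))

theorem prod_inj {g : Fin m → ℝ} (hg : Antitone g) (g0 : ∀ i, 0 ≤ g i) (hk : k ≤ m)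
    {f : Fin k → Fin m} (hf : Function.Injective f) : ∏ i, g (f i) ≤ pk g k := by
  have h1 : StrictMono (f ∘ Tuple.sort f) :=
    (Tuple.monotone_sort f).strictMono_of_injective (hf.comp (Tuple.sort f).injective)
  rw [pk_eq g hk, ← Equiv.prod_comp (Tuple.sort f)]
  exact prod_le_prod (fun _ _ => g0 _) fun i _ => hg (le_strict h1 i.1 i.2)

theorem pow_le (hL : 2 ≤ L) (hk : k ≤ m) : (m : ℝ) ^ k ≤ L ^ (m * m) := by
  have h1 : (m : ℝ) ≤ L ^ m :=
    le_trans (by exact_mod_cast (Nat.lt_two_pow_self (n := m)).le) (pow_le_pow_left₀ two_pos.le hL m)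
  refine (pow_le_pow_left₀ (Nat.cast_nonneg _) h1 k).trans ?_
  rw [← pow_mul]
  exact pow_le_pow_right₀ (by linarith) (Nat.mul_le_mul_left m hk)

theorem adm (b : Basis (Fin m) ℝ V) (h : Dg ν b l L) (hL : 0 < L) (hl : ∀ i, 0 < l i) (i : Fin m) :
    Adm ν ((l i / L) • b.coord i) := fun x => by
  have := h.2 (b.repr x) i
  rw [b.sum_repr] at this
  rw [LinearMap.smul_apply, smul_eq_mul, abs_mul, abs_of_pos (div_pos (hl i) hL), b.coord_apply,
    div_mul_eq_mul_div, div_le_iff₀ hL]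
  linarith

theorem dt_coord (b : Basis (Fin m) ℝ V) (h : Dg ν b l L) (hL : 0 < L) (hl : ∀ i, 0 < l i)
    (f : Fin k → Fin m) (v : Fin k → V) :
    (∏ i, l (f i)) * dt (fun i => b.coord (f i)) v ≤ L ^ k * vol ν v := by
  have h1 := le_vol (fun i => adm b h hL hl (f i)) v
  rw [dt_smul fun i => l (f i) / L, abs_of_pos (prod_pos fun i _ => div_pos (hl _) hL),
    prod_div_distrib, prod_const, card_univ, Fintype.card_fin, div_mul_eq_mul_div,
    div_le_iff₀ (by positivity)] at h1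
  linarith

theorem expand (b : Basis (Fin m) ℝ V) (φ : Fin k → V →ₗ[ℝ] ℝ) (v : Fin k → V) :
    dt φ v ≤ ∑ f : Fin k → Fin m, (∏ i, |φ i (b (f i))|) * dt (fun i => b.coord (f i)) v := by
  have e : (fun i j => φ i (v j)) = fun i => ∑ t, φ i (b t) • fun j => b.coord t (v j) := by
    funext i j
    conv_lhs => rw [← b.sum_repr (v j), map_sum]
    rw [Finset.sum_apply]
    exact sum_congr rfl fun t _ => by
      rw [map_smul, smul_eq_mul, Pi.smul_apply, smul_eq_mul, mul_comm, b.coord_apply]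
  have h1 : (Matrix.of fun i j => φ i (v j)).det = ∑ f : Fin k → Fin m,
      (∏ i, φ i (b (f i))) * (Matrix.of fun i j => b.coord (f i) (v j)).det := by
    change (Matrix.detRowAlternating (n := Fin k) (R := ℝ)).toMultilinearMap
      (fun i j => φ i (v j)) = _
    rw [e, MultilinearMap.map_sum]
    exact sum_congr rfl fun f _ => MultilinearMap.map_smul_univ _ _ _
  rw [dt, h1]
  exact (abs_sum_le_sum_abs _ _).trans_eq (sum_congr rfl fun f _ => by rw [abs_mul, abs_prod, dt])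

theorem upper (b : Basis (Fin m) ℝ V) (hν : Hb ν) (hν' : Hb ν') (hL : 2 ≤ L) (hl : ∀ i, 0 < l i)
    (hl' : ∀ i, 0 < l' i) (h : Dg ν b l L) (h' : Dg ν' b l' L)
    (ha : Antitone fun i => l i / l' i) (hk : k ≤ m) :
    rho k ν ν' ≤ m ^ k * (L ^ k * L ^ k * pk (fun i => l i / l' i) k) := by
  have L0 : 0 < L := by linarith
  have p0 : 0 ≤ pk (fun i => l i / l' i) k := prod_nonneg fun i _ => (div_pos (hl i) (hl' i)).le
  refine rho_le hν'.nonneg (by positivity) fun v => vol_le hν.nonneg fun φ hφ => ?_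
  have v0 := vol_nonneg hν'.nonneg v
  refine (expand b φ v).trans ((sum_le_card_nsmul _ _
    (L ^ k * L ^ k * pk (fun i => l i / l' i) k * vol ν' v) fun f _ => ?_).trans_eq
    (by simp [mul_assoc]))
  by_cases hf : Function.Injective f
  · have e1 : ∏ i, |φ i (b (f i))| ≤ L ^ k * ((∏ i, l (f i) / l' (f i)) * ∏ i, l' (f i)) := by
      rw [← prod_mul_distrib, ← Fin.prod_const, ← prod_mul_distrib]
      exact prod_le_prod (fun _ _ => abs_nonneg _) fun i _ => by
        rw [div_mul_cancel₀ _ (hl' _).ne']; exact (hφ i _).trans (h.1 _)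
    have e2 := dt_coord b h' L0 hl' f v
    have e3 := prod_inj ha (fun i => (div_pos (hl i) (hl' i)).le) hk hf
    have d0 : 0 ≤ dt (fun i => b.coord (f i)) v := abs_nonneg _
    have q0 : 0 ≤ ∏ i, l' (f i) := prod_nonneg fun i _ => (hl' _).le
    calc _ ≤ L ^ k * ((∏ i, l (f i) / l' (f i)) * ∏ i, l' (f i)) * dt (fun i => b.coord (f i)) v :=
          mul_le_mul_of_nonneg_right e1 d0
      _ = L ^ k * ((∏ i, l (f i) / l' (f i)) *
            ((∏ i, l' (f i)) * dt (fun i => b.coord (f i)) v)) := by ring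
      _ ≤ L ^ k * (pk (fun i => l i / l' i) k * (L ^ k * vol ν' v)) :=
          mul_le_mul_of_nonneg_left (mul_le_mul e3 e2 (mul_nonneg q0 d0) p0) (by positivity)
      _ = _ := by ring
  · obtain ⟨i, j, e, ne⟩ := Function.not_injective_iff.1 hf
    have : dt (fun i => b.coord (f i)) v = 0 := by
      rw [dt, Matrix.det_zero_of_row_eq ne (by funext t; simp [e]), abs_zero]
    rw [this, mul_zero]
    positivity

theorem lower (hR : LeRho) (b : Basis (Fin m) ℝ V) (hν : Hb ν) (hν' : Hb ν') (hL : 2 ≤ L)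
    (hl : ∀ i, 0 < l i) (hl' : ∀ i, 0 < l' i) (h : Dg ν b l L) (h' : Dg ν' b l' L) (hk : k ≤ m) :
    pk (fun i => l i / l' i) k ≤ m ^ k * (L ^ k * L ^ k * rho k ν ν') := by
  have L0 : 0 < L := by linarith
  have : FiniteDimensional ℝ V := Module.Finite.of_basis b
  have r0 : 0 ≤ rho k ν ν' := Real.sSup_nonneg (by
    rintro _ ⟨v, rfl⟩
    exact div_nonneg (vol_nonneg hν.nonneg v) (vol_nonneg hν'.nonneg v))
  have e1 := dt_coord b h L0 hl (Fin.castLE hk) fun i => b (Fin.castLE hk i)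
  have e2 : dt (fun i => b.coord (Fin.castLE hk i)) (fun i => b (Fin.castLE hk i)) = 1 := by
    have : (Matrix.of fun i j : Fin k => b.coord (Fin.castLE hk i) (b (Fin.castLE hk j))) = 1 := by
      ext i j
      simp [Matrix.one_apply, Finsupp.single_apply, eq_comm]
    rw [dt, this, Matrix.det_one, abs_one]
  have e3 := hR V ν ν' k (fun i => b (Fin.castLE hk i)) hν hν'
  have e4 := vol_le_prod hν'.nonneg fun i : Fin k => b (Fin.castLE hk i)
  have e5 : ∏ j : Fin k, ν' (b (Fin.castLE hk j)) ≤ L ^ k * ∏ j : Fin k, l' (Fin.castLE hk j) := by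
    rw [← Fin.prod_const, ← prod_mul_distrib]
    exact prod_le_prod (fun _ _ => hν'.nonneg _) fun i _ => h'.1 _
  have e6 : (k.factorial : ℝ) ≤ m ^ k := by
    exact_mod_cast k.factorial_le_pow.trans (Nat.pow_le_pow_left hk k)
  have q0 : 0 < ∏ j : Fin k, l' (Fin.castLE hk j) := prod_pos fun i _ => hl' _
  have e7 := e4.trans (mul_le_mul e6 e5 (prod_nonneg fun _ _ => hν'.nonneg _) (by positivity))
  rw [e2, mul_one] at e1
  rw [pk_eq _ hk, prod_div_distrib, div_le_iff₀ q0]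
  exact (e1.trans (mul_le_mul_of_nonneg_left (e3.trans (mul_le_mul_of_nonneg_left e7 r0))
    (by positivity))).trans_eq (by ring)

theorem const (hL : 2 ≤ L) (hk : k ≤ m) {x y : ℝ} (hy : 0 ≤ y)
    (h : x ≤ m ^ k * (L ^ k * L ^ k * y)) : x ≤ L ^ (m * m + (m + m)) * y := by
  have L1 : 1 ≤ L := by linarith
  have h1 := pow_le_pow_right₀ L1 hk
  have h2 : L ^ k * L ^ k * y ≤ L ^ m * L ^ m * y :=
    mul_le_mul_of_nonneg_right (mul_le_mul h1 h1 (by positivity) (by positivity)) hy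
  exact (h.trans (mul_le_mul (pow_le hL hk) h2 (by positivity) (by positivity))).trans_eq (by ring)

end C1TopA

open C1TopA in
theorem rTop (h : LeRho) : TopK := fun m => ⟨m * m + (m + m),
  fun V _ _ ν ν' e l l' L hν hν' hL sp hl hl' d d' ha k hk => by
    have hb : ⇑(Basis.mk (d.li hν hl) sp) = e := Basis.coe_mk _ _
    generalize Basis.mk (d.li hν hl) sp = b at hb
    subst hb
    refine ⟨const hL hk (prod_nonneg fun i _ => (div_pos (hl i) (hl' i)).le)
      (upper b hν hν' hL hl hl' d d' ha hk), const hL hk (Real.sSup_nonneg ?_)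
      (lower h b hν hν' hL hl hl' d d' hk)⟩
    rintro _ ⟨v, rfl⟩
    exact div_nonneg (vol_nonneg hν.nonneg v) (vol_nonneg hν'.nonneg v)⟩

end Pool.Agent.MP_5168f5_an.AN.C1
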