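import Pool.Agent.MP_5168f5_an.AN.C1Two
import Pool.Agent.MP_5168f5_an.AN.C1Top
import Pool.Agent.MP_5168f5_an.AN.C1Dg1
import Pool.Agent.MP_5168f5_an.AN.C1Line
import Pool.Agent.MP_5168f5_an.AN.C1Dg2

/-! Common diagonal bases: the results. -/

namespace Pool.Agent.MP_5168f5_an.AN.C1

theorem topK : TopK := rTop rLe

theorem diag1 : Diag1 := rDg1 rLe topK

theorem line : Line := rLine rTwo diag1

theorem diag2 : Diag2 := rDg2 rTwo line diag1

end Pool.Agent.MP_5168f5_an.AN.C1
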