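import Pool.Agent.MP_5168f5_an.AN.C1All

/-! More facts on relative volumes, and normal forms of diagonal bases. -/

namespace Pool.Agent.MP_5168f5_an.AN.C1

open Finset

variable {V : Type} [AddCommGroup V] [Module ℝ V] {m : ℕ} {ν ν' ν'' : V → ℝ}

theorem dt_top (b : Module.Basis (Fin m) ℝ V) (φ : Fin m → V →ₗ[ℝ] ℝ) (v : Fin m → V) :
    dt φ v = |b.det v| * dt φ b := by
  unfold dt
  rw [← abs_mul, mul_comm, b.det_apply, ← Matrix.det_mul]
  congr 2
  ext i j
  conv_lhs => rw [Matrix.of_apply, ← b.sum_repr (v j), map_sum]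
  simp only [Matrix.mul_apply, Module.Basis.toMatrix_apply, map_smul, Matrix.of_apply, smul_eq_mul,
    mul_comm]

theorem vol_top (b : Module.Basis (Fin m) ℝ V) (h0 : ∀ x, 0 ≤ ν x) (v : Fin m → V) :
    vol ν v = |b.det v| * vol ν b := by
  refine le_antisymm (vol_le h0 fun φ h => (dt_top b φ v).trans_le
    (mul_le_mul_of_nonneg_left (le_vol h b) (abs_nonneg _))) ?_
  rcases (abs_nonneg (b.det v)).eq_or_lt with e | e
  · rw [← e, zero_mul]; exact vol_nonneg h0 v
  · rw [← le_div_iff₀' e]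
    exact vol_le h0 fun φ h => by rw [le_div_iff₀' e, ← dt_top]; exact le_vol h v

variable [FiniteDimensional ℝ V]

theorem rho_pos (h : Hb ν) (h' : Hb ν') (rk : Module.finrank ℝ V = m) {k : ℕ} (hk : k ≤ m) :
    0 < rho k ν ν' := (rMul V ν ν' ν k h h' h).2.1 (rk ▸ hk)

theorem rho_top (h : Hb ν) (h' : Hb ν') (b : Module.Basis (Fin m) ℝ V) :
    0 < vol ν' b ∧ rho m ν ν' * vol ν' b = vol ν b := by
  have p : 0 < vol ν' b := (vol_nonneg h'.nonneg b).lt_of_ne fun e =>
    (rho_pos h' h' (by simpa using Module.finrank_eq_card_basis b) le_rfl).not_ge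
      (rho_le h'.nonneg le_rfl fun v => by rw [vol_top b h'.nonneg, ← e]; simp)
  refine ⟨p, le_antisymm ((le_div_iff₀ p).1 (rho_le h'.nonneg
    (div_nonneg (vol_nonneg h.nonneg b) p.le) fun v => le_of_eq ?_)) (rLe V ν ν' m b h h')⟩
  rw [vol_top b h.nonneg, vol_top b h'.nonneg v]
  field_simp

/-- The total relative volume is multiplicative. -/
theorem rho_add (h : Hb ν) (h' : Hb ν') (h'' : Hb ν'') (rk : Module.finrank ℝ V = m) :
    rho m ν ν'' = rho m ν ν' * rho m ν' ν'' := by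
  let b := Module.finBasisOfFinrankEq ℝ V rk
  refine mul_right_cancel₀ (rho_top h h'' b).1.ne' ?_
  rw [(rho_top h h'' b).2, mul_assoc, (rho_top h' h'' b).2, (rho_top h h' b).2]

theorem rho_zero (h : Hb ν) (h' : Hb ν') : rho 0 ν ν' = 1 := by
  have k : ∀ ν : V → ℝ, Hb ν → ∀ v : Fin 0 → V, vol ν v = 1 := fun ν h v =>
    le_antisymm (vol_le h.nonneg fun φ _ => by simp [dt])
      (by simpa [dt] using le_vol (ν := ν) (φ := 0) (fun i => i.elim0) v)
  refine le_antisymm (rho_le h'.nonneg zero_le_one fun v => by simp [k _ h, k _ h']) ?_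
  simpa [k _ h, k _ h'] using rLe V ν ν' 0 0 h h'

omit [FiniteDimensional ℝ V] in
theorem Dg.le {ι : Type} [Fintype ι] {e : ι → V} {l : ι → ℝ} {L : ℝ} (h : Dg ν e l L) (i : ι) :
    l i ≤ L * ν (e i) := by
  classical
  simpa [Pi.single_apply] using h.2 (Pi.single i 1) i

/-- If the second norm is smaller, the volumes of subfamilies are below the total volume. -/
theorem rho_le_top (m : ℕ) : ∃ C : ℝ, 0 < C ∧ ∀ (V : Type) [AddCommGroup V] [Module ℝ V]
    [FiniteDimensional ℝ V] (ν ν' : V → ℝ) (Γ : ℝ), Hb ν → Hb ν' → Module.finrank ℝ V = m →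
    1 ≤ Γ → (∀ x, ν' x ≤ Γ * ν x) → ∀ k ≤ m, rho k ν ν' ≤ C * Γ ^ m * rho m ν ν' := by
  obtain ⟨C, hC⟩ := topK m
  refine ⟨2 ^ C * 2 ^ C, by positivity, fun V _ _ _ ν ν' Γ h h' rk G1 le k hk => ?_⟩
  obtain ⟨e, l, l0, -, d, d'⟩ := rTwo V ν ν' (Fin m) (Module.finBasisOfFinrankEq ℝ V rk) h h'
    (Module.Basis.linearIndependent _)
  have sp := ((d.li h fun _ => one_pos).span_eq_top_of_card_eq_finrank' (by simp [rk])).ge
  let σ := Tuple.sort l
  have t := hC V ν ν' (e ∘ σ) (fun _ => 1) (l ∘ σ) 2 h h' le_rfl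
    (by rwa [σ.surjective.range_comp]) (fun _ => one_pos) (fun _ => l0 _)
    ((d.perm σ).mono h.nonneg (fun _ => zero_le_one) one_le_two)
    ((d'.perm σ).mono h'.nonneg (fun _ => (l0 _).le) one_le_two)
    fun i j h => one_div_le_one_div_of_le (l0 _) (Tuple.monotone_sort l h)
  have l1 : ∀ i, 1 ≤ Γ * (1 / l i) := fun i => by
    rw [mul_one_div, one_le_div (l0 i)]
    have := d.1 i
    have := d'.le i
    nlinarith [le (e i)]
  have u : pk (fun i => 1 / (l ∘ σ) i) k ≤ Γ ^ m * pk (fun i => 1 / (l ∘ σ) i) m := by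
    unfold pk
    rw [filter_true_of_mem (p := fun i : Fin m => i.val < m) fun i _ => i.2, prod_filter,
      show Γ ^ m = ∏ _i : Fin m, Γ by simp, ← prod_mul_distrib]
    refine prod_le_prod (fun i _ => ?_) fun i _ => ?_
    · split_ifs
      · exact (one_div_pos.2 (l0 _)).le
      · exact zero_le_one
    · split_ifs
      · exact le_mul_of_one_le_left (one_div_pos.2 (l0 _)).le G1
      · exact l1 _
  calc _ ≤ _ := (t k hk).1
    _ ≤ 2 ^ C * (Γ ^ m * (2 ^ C * rho m ν ν')) := mul_le_mul_of_nonneg_left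
        (u.trans (mul_le_mul_of_nonneg_left (t m le_rfl).2 (by positivity))) (by positivity)
    _ = _ := by ring

end Pool.Agent.MP_5168f5_an.AN.C1
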