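import Pool.Agent.MP_5168f5_an.AN.C1Vol

/-! Two Euclidean norms have a common diagonal basis. -/

namespace Pool.Agent.MP_5168f5_an.AN.C1

open Finset

namespace C1TwoA

variable {V : Type} [AddCommGroup V] [Module ℝ V] {ν ν' : V → ℝ}

theorem dg {E ι : Type} [NormedAddCommGroup E] [InnerProductSpace ℝ E] [Fintype ι]
    (A : V →ₗ[ℝ] E) (h : ∀ v, ν v = ‖A v‖) (e : ι → V) (l : ι → ℝ) (hl : ∀ i, l i = ‖A (e i)‖)
    (ho : ∀ i j, i ≠ j → inner ℝ (A (e i)) (A (e j)) = 0) : Dg ν e l 1 := by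
  refine ⟨fun i => by rw [h, hl, one_mul], fun c i => ?_⟩
  have h1 : inner ℝ (A (e i)) (A (∑ j, c j • e j)) = c i * ‖A (e i)‖ * ‖A (e i)‖ := by
    rw [map_sum, inner_sum, sum_eq_single i (fun j _ hj => by
      rw [map_smul, inner_smul_right, ho i j hj.symm, mul_zero]) (by simp), map_smul,
      inner_smul_right, real_inner_self_eq_norm_mul_norm, mul_assoc]
  have h2 := abs_real_inner_le_norm (A (e i)) (A (∑ j, c j • e j))
  rw [h1, abs_mul, abs_mul, abs_norm, mul_comm] at h2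
  rw [h, hl, one_mul]
  rcases (norm_nonneg (A (e i))).eq_or_lt with e0 | e0
  · rw [← e0, mul_zero]; exact norm_nonneg _
  · exact le_of_mul_le_mul_left h2 e0

theorem rho_nonneg {k : ℕ} (h : Hb ν) (h' : Hb ν') : 0 ≤ rho k ν ν' :=
  Real.sSup_nonneg (by
    rintro _ ⟨v, rfl⟩
    exact div_nonneg (vol_nonneg h.nonneg v) (vol_nonneg h'.nonneg v))

end C1TwoA

open C1TwoA

theorem rTwo : Two := by
  rintro V _ _ ν ν' ι _ u ⟨κ, _, A, hA, eA⟩ ⟨κ', _, B, hB, eB⟩ hu
  let W := Submodule.span ℝ (Set.range u)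
  let E := W.equivMapOfInjective A hA
  let T : W.map A →ₗ[ℝ] EuclideanSpace ℝ κ' := B ∘ₗ W.subtype ∘ₗ E.symm.toLinearMap
  have hS : (T.adjoint ∘ₗ T).IsSymmetric := fun x y => by
    simp only [LinearMap.comp_apply]
    rw [LinearMap.adjoint_inner_left, LinearMap.adjoint_inner_right]
  have hn : Module.finrank ℝ (W.map A) = Fintype.card ι :=
    E.finrank_eq.symm.trans (finrank_span_eq_card hu)
  let b := hS.eigenvectorBasis hn
  let σ := Fintype.equivFin ι
  have e1 : ∀ i, A (E.symm (b (σ i))) = b (σ i) := fun i =>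
    Submodule.map_equivMapOfInjective_symm_apply A hA W _
  have o1 : ∀ i j, i ≠ j → inner ℝ (b (σ i)) (b (σ j)) = 0 := fun i j h =>
    b.orthonormal.2 fun e => h (σ.injective e)
  refine ⟨fun i => E.symm (b (σ i)), fun i => ‖T (b (σ i))‖, fun i => norm_pos_iff.2 fun e => ?_,
    fun i => (E.symm (b (σ i))).2, dg A eA _ _ (fun i => ?_) fun i j h => ?_,
    dg B eB _ _ (fun i => rfl) fun i j h => ?_⟩
  · have h1 : (E.symm (b (σ i)) : V) = 0 := hB (e.trans (map_zero B).symm)
    have h2 := e1 i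
    rw [h1, map_zero] at h2
    exact b.orthonormal.ne_zero (σ i) (Subtype.ext h2.symm)
  · rw [e1]
    exact (b.orthonormal.1 (σ i)).symm
  · rw [e1, e1]
    exact o1 i j h
  · have h1 := LinearMap.adjoint_inner_right T (b (σ i)) (T (b (σ j)))
    have h2 : T.adjoint (T (b (σ j))) = _ := hS.apply_eigenvectorBasis hn (σ j)
    rw [h2, inner_smul_right] at h1
    exact h1.symm.trans (mul_eq_zero_of_right _ (o1 i j h))

theorem rLe : LeRho := by
  intro V _ _ _ ν ν' k v h h'
  obtain ⟨e, l, h1, -, h2, h3⟩ := rTwo V ν ν' _ _ h h' (Module.finBasis ℝ V).linearIndependent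
  have s0 : 0 ≤ ∑ i, (l i)⁻¹ := sum_nonneg fun i _ => (inv_pos.2 (h1 i)).le
  have h4 := h2.cmp h3 h zero_le_one s0 (fun i => by
    rw [← div_le_iff₀ (h1 i), one_div]
    exact single_le_sum (f := fun i => (l i)⁻¹) (fun i _ => (inv_pos.2 (h1 i)).le) (mem_univ i))
    ((h3.li h' h1).span_eq_top_of_card_eq_finrank' (by simp)).ge
  exact le_rho' h.nonneg h'.nonneg (add_pos_of_nonneg_of_pos (by positivity) one_pos) (fun x =>
    (h4 x).trans (mul_le_mul_of_nonneg_right (le_add_of_nonneg_right zero_le_one) (h'.nonneg x))) v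

theorem rMul : RhoMul := by
  intro V _ _ _
  have m : ∀ (ν ν' ν'' : V → ℝ) (k : ℕ), Hb ν → Hb ν' → Hb ν'' →
      rho k ν ν'' ≤ rho k ν ν' * rho k ν' ν'' := fun ν ν' ν'' k h h' h'' =>
    rho_le h''.nonneg (mul_nonneg (rho_nonneg h h') (rho_nonneg h' h'')) fun v => by
      rw [mul_assoc]
      exact (rLe V ν ν' k v h h').trans
        (mul_le_mul_of_nonneg_left (rLe V ν' ν'' k v h' h'') (rho_nonneg h h'))
  intro ν ν' ν'' k h h' h''
  refine ⟨m _ _ _ k h h' h'', fun hk => ?_, fun C hC e => ?_⟩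
  · obtain ⟨e, l, h1, -, h2, h3⟩ := rTwo V ν ν' _ _ h h' (Module.finBasis ℝ V).linearIndependent
    let b := basisOfLinearIndependentOfCardEqFinrank' e (h3.li h' h1) (by simp)
    have eb : ∀ i, b i = e i := fun i => by simp [b]
    have a1 := le_vol (ν := ν) (φ := fun i => b.coord (Fin.castLE hk i)) (fun i x => by
      have := h2.2 (b.repr x) (Fin.castLE hk i)
      simp only [← eb] at this
      rw [b.sum_repr] at this
      simpa using this) fun j => b (Fin.castLE hk j)
    have a2 : (Matrix.of fun i j => b.coord (Fin.castLE hk i) (b (Fin.castLE hk j))) = 1 := by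
      ext i j
      simp [Matrix.one_apply, Finsupp.single_apply, eq_comm]
    rw [dt, a2, Matrix.det_one, abs_one] at a1
    exact (rho_nonneg h h').lt_of_ne fun e0 => by
      have a3 := a1.trans (rLe V ν ν' k _ h h')
      rw [← e0, zero_mul] at a3
      exact absurd a3 (by norm_num)
  · have a1 : rho k ν ν' ≤ C ^ k := rho_le h'.nonneg (by positivity) (vol_mono h.nonneg hC e)
    exact ⟨a1, (m _ _ _ k h h' h'').trans (mul_le_mul_of_nonneg_right a1 (rho_nonneg h' h'')),
      (m _ _ _ k h'' h h').trans ((mul_le_mul_of_nonneg_left a1 (rho_nonneg h'' h)).trans_eq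
        (mul_comm _ _))⟩

end Pool.Agent.MP_5168f5_an.AN.C1
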