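import Pool.Agent.MP_5168f5_an.AN.SpecE3
import Pool.Agent.MP_5168f5_an.AN.Spec

/-! Kakeya sets in all dimensions: the last step. -/

namespace Pool.Agent.MP_5168f5_an.AN.En

open H19 H17S H17F Filter MvPolynomial R4
open G39 (dl REM)
open Pk (cn kc)
open Nc (Pl ev)

/-- The tools. -/
structure EK : Prop where
  noise : Noise
  her : Her
  ef : EndFin
  toF : ToFull
  ofF : OfFull
  pc : PKcn
  wh : PKwh
  pf : PKfl
  slow : TSlow
  ta : TbA

variable {N k : ℕ} {Ω : ℕ → Type} {P : ∀ n, FP (Ω n)} {M : ℕ → ℕ}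

theorem gp_one (hM : Big M) {q : ∀ n, Ω n → ℝ → Prop} (h : ∀ n ω, q n ω 1) : Gp P M q :=
  ⟨fun _ _ => True, fun _ => 1, Whp.of_ev (Eventually.of_forall fun _ _ _ => trivial),
    hM.sub le_rfl, Eventually.of_forall fun n ω _ _ => h n ω⟩

theorem bdd_of (hM : Big M) {y : ∀ n, Ω n → V N} {K : ℝ} (hK : 1 ≤ K)
    (h : ∀ᶠ n in UF, ∀ ω ∈ (P n).S, ‖y n ω‖ ≤ K) : Bdd P M y :=
  ⟨fun _ _ => True, fun _ => K, Whp.of_ev (Eventually.of_forall fun _ _ _ => trivial),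
    hM.sub hK, h.mono fun _ a ω b _ => a ω b⟩

theorem rem_mono {β : ℕ → Type} {x : ∀ n, Ω n → V N} {Z : ∀ n, Ω n → β n} {C C' : ℕ} {K : ℝ}
    (h : REM P x M Z C K) (e : C ≤ C') : REM P x M Z C' K := fun E => by
  obtain ⟨G, Γ, a, b, c⟩ := h E
  refine ⟨G, Γ, a, b, c.mono fun n u ω hω g f hf θ κ v w => (u ω hω g f hf θ κ v w).trans ?_⟩
  have k0 := (G39.dl_pos _ _ _).trans_le v
  obtain ⟨y, -, z⟩ := ex_of_pb (k0.trans_le w)
  exact mul_le_mul_of_nonneg_right (mul_le_mul_of_nonneg_left (pow_le_pow_right₀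
    ((one_le_inv₀ k0).2 (w.trans (pb_le_one _ _))) (Nat.mul_le_mul_right _ e)) (b.pos n).le)
    ((abs_nonneg _).trans z.2)

theorem EK.kind (K : EK) {x : ∀ n, Ω n → V N} {κ : ∀ n, Kd k (Ω n)}
    {Ψ : ∀ n, (κ n).T → Fin N → Pl k} {D C : ℕ} (h : PK P M x κ Ψ D) (hx : Bdd P M x)
    (hW : ∀ n ω, (κ n).W ω = 0) (e : k * D ≤ C) : Kind P M x κ C 0 :=
  ⟨h.bd, gp_one h.big fun n ω => by simp [hW], fun c => rem_mono ((K.pc P M x κ Ψ D h hx).2 c) e,
    h.den, K.wh P M x κ Ψ D 0 h (K.pc P M x κ Ψ D h hx).1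
      (gp_one h.big fun _ _ => ⟨Fin.elim0, Fin.elim0, by simp⟩)⟩

theorem fn_ex {W α β : Type} (Q : FP W) (F : W → α) (G : W → β) {q : α → Prop} (h : ∀ v, q (F v))
    {a : α} (ha : q a) : ∃ f : β → α, (∀ z, q (f z)) ∧ (Fn Q F G → ∀ v ∈ Q.S, F v = f (G v)) := by
  have e : ∀ z, ∃ b, q b ∧ (Fn Q F G → ∀ v ∈ Q.S, G v = z → F v = b) := fun z => by
    by_cases c : ∃ v ∈ Q.S, G v = z
    · obtain ⟨v, hv, rfl⟩ := c
      exact ⟨_, h v, fun u w hw e => u w hw v hv e⟩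
    · exact ⟨a, ha, fun _ v hv e => absurd ⟨v, hv, e⟩ c⟩
  choose f h1 h2 using e
  exact ⟨f, h1, fun u v hv => h2 _ u v hv rfl⟩

variable {a e ξ : ∀ n, Ω n → V N} {t : ∀ n, Ω n → ℝ}

/-- The kind of lines. -/
abbrev lnK {W : Type} (a e : W → V N) (t : W → ℝ) (ξ : W → V N) : Kd (N + 1) W :=
  ⟨V N × V N, fun ω => (a ω, e ω), fun _ => 0, fun ω => Fin.cons (t ω) (ξ ω)⟩

theorem EK.pos (K : EK) (h : TS P a e t ξ M) {E : ∀ n, Ω n → Prop} (hE : Pos P E) :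
    TS (fun n => cE (P n) (E n)) a e t ξ M := by
  obtain ⟨L, h1, -, h2⟩ := K.slow P a e t ξ M h
  obtain ⟨κ, c, d⟩ := hE
  refine h2 E ?_
  filter_upwards [d, h1.eventually_ge_atTop κ⁻¹] with n u v
  exact (inv_mul_cancel₀ c.ne').ge.trans (mul_le_mul v u c.le ((inv_pos.2 c).le.trans v))

theorem EK.bd (K : EK) (h : TS P a e t ξ M) :
    ∀ᶠ n in UF, ∀ ω ∈ (P n).S, ‖tb (M n) (a n ω) (e n ω) (t n ω) (ξ n ω)‖ ≤ 6 :=
  h.bd.mono fun n u ω hω =>
    (K.ta.bd (M n) _ _ _ _ (u ω hω).1 (u ω hω).2.1 (u ω hω).2.2.1 (u ω hω).2.2.2.1 (u ω hω).2.2.2.2).1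

theorem EK.pk (K : EK) (h : TS P a e t ξ M) {Θ : ∀ n, Ω n → Fin (N + 1) → Pl (N + 1)} {D : ℕ}
    (hD : ∀ n ω i, (Θ n ω i).totalDegree ≤ D) (f : FnE P Θ fun n ω => (a n ω, e n ω)) :
    ∃ Ψ, PK P M (fun n => cht (Θ n) fun ω => tb (M n) (a n ω) (e n ω) (t n ω) (ξ n ω))
      (fun n => lnK (a n) (e n) (t n) (ξ n)) Ψ D ∧ ∀ᶠ n in UF, ∀ ω ∈ (P n).S, ∀ i,
        Ψ n (a n ω, e n ω) i = aeval (tbP (M n) (a n ω) (e n ω)) (Θ n ω i) := by
  choose g g1 g2 using fun n => fn_ex (P n) (Θ n) (fun ω => (a n ω, e n ω))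
    (q := fun F => ∀ i, (F i).totalDegree ≤ D) (hD n) (a := 0) (by simp)
  have b := h.bd.mono fun n u ω hω =>
    (K.ta.bd (M n) _ _ _ _ (u ω hω).1 (u ω hω).2.1 (u ω hω).2.2.1 (u ω hω).2.2.2.1 (u ω hω).2.2.2.2).2
  refine ⟨fun n z i => aeval (tbP (M n) z.1 z.2) (g n z i), ⟨h.big, bdd_of h.big (by norm_num) b,
    fun A => K.toF P M _ _ _ 4 h.big b (by simpa using h.full A), fun n z i =>
      (kc.deg _ _ D 1 (g1 n z i) (K.ta.deg _ _ _)).trans_eq (mul_one _),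
    Whp.of_ev (f.mono fun n u ω hω => funext fun i => ?_)⟩, f.mono fun n u ω hω i => by
      rw [g2 n u ω hω]⟩
  change _ = eval _ (aeval _ _)
  rw [Nc.eval_aeval, K.ta.val, ← g2 n u ω hω]; rfl

theorem EK.sys (K : EK) (h : TS P a e t ξ M) {Θ : ∀ n, Ω n → Fin (N + 1) → Pl (N + 1)} {D : ℕ}
    (hD : ∀ n ω i, (Θ n ω i).totalDegree ≤ D) (f : FnE P Θ fun n ω => (a n ω, e n ω))
    (f' : FnE P Θ fun n ω => tb (M n) (a n ω) (e n ω) (t n ω) (ξ n ω))
    (hb : Bdd P M fun n => cht (Θ n) fun ω => tb (M n) (a n ω) (e n ω) (t n ω) (ξ n ω)) :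
    Sys P M (fun n => cht (Θ n) fun ω => tb (M n) (a n ω) (e n ω) (t n ω) (ξ n ω))
      (fun n => two (lnK (a n) (e n) (t n) (ξ n))
        (ptK fun ω => tb (M n) (a n ω) (e n ω) (t n ω) (ξ n ω))) ((N + 1) * D) fun _ => 0 := by
  obtain ⟨Ψ, h1, -⟩ := K.pk h hD f
  choose g _ g2 using fun n => fn_ex (P n) (Θ n)
    (fun ω => tb (M n) (a n ω) (e n ω) (t n ω) (ξ n ω)) (q := fun _ => True) (fun _ => trivial)
    (a := 0) trivial
  refine ⟨h.big, hb, fun b => ?_⟩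
  cases b
  · refine K.kind (κ := fun n => ptK fun ω => tb (M n) (a n ω) (e n ω) (t n ω) (ξ n ω))
      (Ψ := fun n z i => C (eval z (g n z i))) (D := 0) ⟨h.big, gp_one h.big fun _ _ => (norm_zero (E := V 0)).trans_le zero_le_one,
        fun A => ⟨fun _ _ => True, fun _ => 1, Whp.of_ev (Eventually.of_forall fun _ _ _ => trivial),
          h.big.sub le_rfl, Eventually.of_forall fun n ω _ c => (pb_le_one _ _).trans (by simp)⟩,
        fun _ _ _ => (totalDegree_C _).le, Whp.of_ev (f'.mono fun n u ω hω => funext fun i => ?_)⟩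
      hb (fun _ _ => rfl) (Nat.zero_le _)
    simp only [cht, ev, eval_C, g2 n u ω hω]
  · exact K.kind h1 hb (fun _ _ => rfl) le_rfl

theorem cht_X {W : Type} (y : W → V N) : cht (fun _ => X) y = y := by
  funext ω i; simp only [cht, ev, eval_X]

theorem EK.sysX (K : EK) (h : TS P a e t ξ M) :
    Sys P M (fun n ω => tb (M n) (a n ω) (e n ω) (t n ω) (ξ n ω))
      (fun n => two (lnK (a n) (e n) (t n) (ξ n))
        (ptK fun ω => tb (M n) (a n ω) (e n ω) (t n ω) (ξ n ω))) ((N + 1) * 1) fun _ => 0 := by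
  simpa only [cht_X] using K.sys h (Θ := fun _ _ => X) (fun _ _ _ => (totalDegree_X _).le)
    (Eventually.of_forall fun _ _ _ _ _ _ => rfl) (Eventually.of_forall fun _ _ _ _ _ _ => rfl)
    (by simp only [cht_X]; exact bdd_of h.big (by norm_num) (K.bd h))

theorem EK.cel (K : EK) (ud : UDc) (h : TS P a e t ξ M) {L : ℕ → ℝ}
    (hL : Tendsto L UF atTop) (hG : ∀ G : ∀ n, Ω n → Prop,
      (∀ᶠ n in UF, 1 ≤ L n * pb (P n) (G n)) → TS (fun n => cE (P n) (G n)) a e t ξ M) :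
    ∃ (Λ : ℕ → Type) (G : ∀ n, Ω n → Prop) (A : ∀ n, Ω n → Λ n)
    (Θ : ∀ n, Ω n → Fin (N + 1) → Pl (N + 1)) (D : ℕ), (∀ᶠ n in UF, 1 ≤ L n * pb (P n) (G n)) ∧
    Cel (fun n => cE (P n) (G n)) M (fun n ω => tb (M n) (a n ω) (e n ω) (t n ω) (ξ n ω))
      (lab fun n => two (lnK (a n) (e n) (t n) (ξ n))
        (ptK fun ω => tb (M n) (a n ω) (e n ω) (t n ω) (ξ n ω))) A Θ D := by
  have hM := h.big
  have dX : ∀ n (ω : Ω n) (i : Fin (N + 1)), (X i : Pl (N + 1)).totalDegree ≤ 1 := fun _ _ _ =>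
    (totalDegree_X _).le
  obtain ⟨Ψ, k1, k2⟩ := K.pk h dX (Eventually.of_forall fun _ _ _ _ _ _ => rfl)
  have flr := K.pf _ _ _ _ _ _ k1 fun E => ⟨3 * E, by
    filter_upwards [h.bd, k2, hM.ev 1] with n u v w ω hω F hF
    have c1 := K.ta.inv (M n) E _ _ F (u ω hω).1 (u ω hω).2.1 hF
    have c2 : (3 : ℝ) * 2 ^ M n ≤ Real.exp (3 * M n) := by
      rw [show (3 * M n : ℝ) = 2 * M n + M n by ring, Real.exp_add]
      exact mul_le_mul (by linarith [Real.add_one_le_exp (2 * M n : ℝ)]) (two_pow_le_exp _)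
        (by positivity) (by positivity)
    rw [funext (v ω hω), ← le_inv_mul_iff₀ (G39.dl_pos _ _ _), G39.dl_inv, mul_comm]
    simp only [aeval_X]
    refine c1.trans (mul_le_mul_of_nonneg_left ((pow_le_pow_left₀ (by positivity) c2 _).trans_eq ?_)
      (kc.nonneg _))
    rw [← Real.exp_nat_mul]; congr 1; ring⟩
  simp only [cht_X] at flr
  obtain ⟨Λ, G, A, g1, -, g2⟩ := A1.a1 (I := Unit) P _
    (fun b _ => lab (fun n => two (lnK (a n) (e n) (t n) (ξ n))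
      (ptK fun ω => tb (M n) (a n ω) (e n ω) (t n ω) (ξ n ω))) b) (fun _ _ _ => ()) (K := 1) hM hL
    (Whp.of_ev (((K.bd h).and (G39.big_dl hM 6 one_pos)).mono fun n u ω hω => (u.1 ω hω).trans u.2))
    (fun _ _ _ _ => Eventually.of_forall fun _ => Fn.rfl _)
    (fun _ _ => Eventually.of_forall fun _ _ _ _ _ _ => rfl)
    (fun _ _ _ => Eventually.of_forall fun _ => Fn.rfl _) fun _ => ⟨true, flr⟩
  obtain ⟨D, hD⟩ := ud (N + 1) ((N + 1) * 1)
  obtain ⟨Θ, c⟩ := hD _ _ _ _ _ _ _ _ hM (fun b => ((K.sysX (hG G g1)).kd b).rem) (g2 ()).2.1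
    fun E => ((g2 ()).2.2 E).elim fun B u => u.mono (Eventually.of_forall fun n ω _ v F c1 c2 =>
      (mul_pos (G39.dl_pos _ _ _) ((kc.nonneg F).lt_of_ne' fun z => c2 ((kc.zero F).1 z))).trans_le
        (v F c1))
  exact ⟨Λ, G, A (), Θ, D, g1, c⟩

theorem EK.core (K : EK) (ud : UDc) (thm : THM (N + 1) 0) (h : TS P a e t ξ M)
    {μ c₀ : ℝ} (μ0 : 0 < μ) (c0 : 0 ≤ c₀) (her : ∀ᶠ n in UF, ∀ (Q : FP (Ω n)) (c : ℝ),
      K31.Dn c Q id (P n) → μ * M n - Real.log c ≤ ch Q (fun ω => fl (M n) (e n ω))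
        (fun ω => fl (M n) (tb (M n) (a n ω) (e n ω) (t n ω) (ξ n ω))) ∧
      mi Q (fun ω => (a n ω, e n ω)) (fun ω => tb (M n) (a n ω) (e n ω) (t n ω) (ξ n ω))
        (fun ω => fl (M n) (tb (M n) (a n ω) (e n ω) (t n ω) (ξ n ω))) ≤ c₀ * c) : False := by
  have hM := h.big
  obtain ⟨L, L1, L2, L3⟩ := K.slow _ _ _ _ _ _ h
  obtain ⟨Λ, G, A, Θ, D, hG, ⟨com, -⟩, frm⟩ := K.cel ud h L1 L3
  have t2 := L3 G hG
  have f1 : FnE (fun n => cE (P n) (G n)) Θ fun n ω => (a n ω, e n ω) :=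
    (frm.fn.and (com true)).mono fun n u => u.1.trans u.2
  have f2 : FnE (fun n => cE (P n) (G n)) Θ fun n ω => tb (M n) (a n ω) (e n ω) (t n ω) (ξ n ω) :=
    (frm.fn.and (com false)).mono fun n u => u.1.trans u.2
  have full := thm _ _ _ _ _ _ _ _ _ A le_rfl (K.sys t2 frm.deg f1 f2 frm.bd) frm.min com
  obtain ⟨Ψ', k3, k4⟩ := K.pk t2 frm.deg f1
  obtain ⟨G', Γ, g1, g2, g3⟩ := (K.pc _ _ _ _ _ _ k3 frm.bd).1
  have t3 := K.pos t2 g1.pos
  have dn : ∀ᶠ n in UF, 1 ≤ L n ∧ K31.Dn (L n) (cE (P n) (G n)) id (P n) := by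
    filter_upwards [hG, L1.eventually_ge_atTop 1] with n u v
    have := K31.dn_cE (G n) (κ := (L n)⁻¹) (by positivity) ((inv_le_iff_one_le_mul₀' (by linarith)).2 u)
    exact ⟨v, by rwa [inv_inv] at this⟩
  have cs : ∀ᶠ n in UF, ∀ ω ∈ (cE (cE (P n) (G n)) (G' n)).S, ∀ i,
      cn (aeval (tbP (M n) (a n ω) (e n ω)) (Θ n ω i)) ≤ Γ n := by
    filter_upwards [g3, k4, g1.pos.sure] with n u v w ω hω i
    rw [← v ω (w ω hω).1]
    exact u ω (w ω hω).1 (w ω hω).2 i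
  refine K.ef N D (D + 1) _ _ a e t ξ M A Θ (fun n => 5 ^ D * Γ n) μ le_rfl t3
    (g2.const_mul hM (one_le_pow₀ (by norm_num))) μ0 ?_ ((K31.dnS_cE g1.pos).sm_ch (F := A)
      (G := fun n ω => fl (M n) (tb (M n) (a n ω) (e n ω) (t n ω) (ξ n ω))) ?_)
    (Whp.of_ev (cs.mono fun n u ω hω s ζ c1 c2 c3 i => ?_)) (fun E hE => ?_) fun E hE => ?_
  · filter_upwards [frm.fn, cs, t3.bd, (g2.const_mul hM (C := 3 ^ D)
      (one_le_pow₀ (by norm_num))).2 (1 / 2) (by norm_num)] with n u v w z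
    refine ⟨fn_cE u _, fun ω hω i => ⟨frm.deg n ω i, (K.ta.inv (M n) D _ _ _ (w ω hω).1
      (w ω hω).2.1 (frm.deg n ω i)).trans ((mul_le_mul_of_nonneg_right (v ω hω i)
        (by positivity)).trans ?_)⟩⟩
    have := exp_le_two_pow (M n)
    rw [mul_pow, add_mul, one_mul, pow_add, mul_comm D, pow_mul, ← mul_assoc, mul_comm]
    exact mul_le_mul_of_nonneg_left (by rw [mul_comm]; refine z.trans ?_; rwa [one_div_mul_eq_div])
      (by positivity)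
  · refine (L2.smul c0).mono ?_
    filter_upwards [dn, her, com true, com false] with n u v c1 c2
    have c4 := ch_le_mi (P := cE (P n) (G n)) (F := A n)
      (K := fun ω => fl (M n) (tb (M n) (a n ω) (e n ω) (t n ω) (ξ n ω))) (K' := _) (Fn.fst
        (fun ω => tb (M n) (a n ω) (e n ω) (t n ω) (ξ n ω)) _)
    rw [ch_zero c2, zero_add] at c4
    exact c4.trans ((mi_mono' (c1.left _)).trans (v _ _ u.2).2)
  · rw [← K.ta.val, ← Nc.eval_aeval, mul_comm]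
    refine (kc.val _ D 5 _ ((kc.deg _ _ D 1 (frm.deg n ω i) (K.ta.deg _ _ _)).trans_eq (mul_one _))
      (by norm_num) fun l => ?_).trans (mul_le_mul_of_nonneg_right (u ω hω i) (by positivity))
    refine l.cases ?_ fun l => (norm_le_pi_norm ζ l).trans c3
    rw [Fin.cons_zero, abs_of_nonneg c1]; linarith
  · obtain ⟨c, c1, c2⟩ := (K31.dnS_cE hE).trans (K31.dnS_cE g1.pos)
    refine Le.of_sub (L2.add (hM.sm (Real.log c))) ?_
    filter_upwards [her, dn, c2] with n u v w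
    have c3 := (u _ _ (w.trans v.2)).1
    have c4 := Real.log_le_sub_one_of_pos (one_pos.trans_le v.1)
    rw [Real.log_mul (by positivity) (by linarith)] at c3
    linarith
  · have c1 := g1.pos.of_cE hE
    refine (K.ofF _ M _ A ((2 * N + 1) * (D + 1) + 2) _ hM (full _) c1).of_sub
      (c1.ex.mono fun n u => ?_)
    rw [cE_cE u, Nat.cast_succ]
    exact le_rfl

theorem endOf (K : EK) (ud : UDc) : OfEnd := by
  intro N thm x M h
  by_contra hS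
  have hM := h.big
  obtain ⟨μ, E₀, μ0, p0, -, her⟩ := K.her (fun n => (x n).P) _ _ M (N * 5) hM (by
    filter_upwards [hM.ev 1] with n u ω hω
    refine (det_near (x := (x n).e) (j := M n) (L := 2 ^ M n) (by positivity)
      (fun a ha b hb _ => ?_) ω hω).imp fun T c => ⟨c.1.trans ?_, c.2⟩
    · rw [div_self (by positivity)]
      exact (norm_sub_lt_one_of_box (h.box n a ha).2.1 (h.box n b hb).2.1).le
    · rw [Fintype.card_fin, mul_assoc, Real.exp_nat_mul]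
      refine pow_le_pow_left₀ (by positivity) ?_ _
      have k1 := two_pow_le_exp (M n)
      have k2 := Real.add_one_le_exp (4 * M n : ℝ)
      have k3 : (1 : ℝ) ≤ 2 ^ M n := one_le_pow₀ one_le_two
      rw [show (5 * M n : ℝ) = 4 * M n + M n by ring, Real.exp_add]
      nlinarith) hS
  obtain ⟨W, Q, π, t, ξ, law, ts, cell⟩ := K.noise N x M h
  have p1 : Pos Q fun n v => E₀ n (π n v) :=
    p0.imp fun κ u => ⟨u.1, u.2.mono fun n w => w.trans_eq ((law n).pb_eq (E₀ n)).symm⟩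
  obtain ⟨κ, κ0, hκ⟩ := id p1
  refine K.core ud thm (K.pos ts p1) μ0 (c₀ := κ⁻¹ * lg) (by have := lg_pos; positivity) ?_
  filter_upwards [her, hκ] with n u v R c w
  have c3 := u _ _ _ _ (w.trans (K31.dn_law (ke.law _ _ _ _ (E₀ n) (law n))))
  have c4 := ((w.trans (K31.dn_cE _ κ0 v)).mi_le _ _ _).trans_eq
    (congrArg (fun s => c * κ⁻¹ * (s + lg)) (cell n).2)
  rw [mul_one] at c3
  refine ⟨c3.trans (ch_anti fun v _ w _ e => ?_), (mi_mono' fun v _ w _ e => ?_).trans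
    (c4.trans_eq (by ring))⟩
  · simp only [Prod.mk.injEq, id] at e
    rw [(cell n).1, (cell n).1, e.1, e.2.1]
  · rw [show π n v = π n w from (Prod.mk.inj e).1]

end Pool.Agent.MP_5168f5_an.AN.En
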