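import Pool.Agent.MP_5168f5_an.AN.SpecE3

/-! The floor of a polynomial kind. -/

namespace Pool.Agent.MP_5168f5_an.AN.En

open H19 H17S H17F Filter MvPolynomial R4
open G39 (dl dl_pos dl_add dl_pow dl_half dl_inv sub_dl big_dl)
open Pk (cn)
open Nc (Pl ev)

theorem rowPKfl : PKfl := by
  intro N k Ω P M x κ Ψ D h hF E
  obtain ⟨B, hB⟩ := hF E
  obtain ⟨C, C1, hC⟩ := Pk.subP k (E * D)
  obtain ⟨G₁, Γ₁, w1, s1, e1⟩ := h.bd
  obtain ⟨G₂, Γ₂, w2, s2, e2⟩ := h.den (2 * (k * (E * D) + 1))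
  refine ⟨B + (k * (E * D) : ℕ) * 1 + 1, 1 / 2, _, by norm_num, (w1.and w2).and h.eq, ?_⟩
  filter_upwards [hB, e1, e2, big_dl h.big C one_pos,
    sub_dl ((s2.const_mul h.big C1).mul (s1.pow k)) (show (0 : ℝ) < 1 / 2 by norm_num),
    sub_dl ((s1.pow (E * D)).const_mul h.big C1) one_pos] with n a b c d e f ω hω F hE
  have p1 := dl_pos M 1 n
  have p2 := dl_pos M (1 / 2) n
  have p3 := dl_pos M ((k * (E * D) : ℕ) * 1) n
  have q := hC (cv (P n) (κ n).Z ((κ n).Z ω)) (κ n).p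
    (fun v => (G₁ n v ∧ G₂ n v) ∧ x n v = ev (Ψ n ((κ n).Z v)) ((κ n).p v))
    (aeval (Ψ n ((κ n).Z ω)) F) (Γ₁ n) (Γ₂ n) (dl M 1 n) (2 * (k * (E * D) + 1) * M n)
    (Pk.kc.deg _ _ _ _ hE (h.deg n _)) (s1.1 n) (s2.pos n).le
    (fun v hv g => b v (Pk.cv_mem hω hv).1 g.1.1)
    (fun t => (pb_mono fun v _ g => ⟨g.1.1.2, g.2⟩).trans (c ω hω t)) p1 (f.trans (by
      rw [dl_pow, dl_inv, two_pow_eq, dl, ← Real.exp_add]
      refine Real.exp_le_exp.2 ?_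
      have : (1 : ℝ) ≤ 2 * lg := by unfold lg; linarith [Real.log_two_gt_d9]
      have t : (0 : ℝ) ≤ ((k * (E * D) : ℕ) + 1) * M n := by positivity
      push_cast at t ⊢
      nlinarith [mul_le_mul_of_nonneg_left this t]))
  refine le_trans ?_ (q.trans ?_)
  swap
  · refine (mul_le_mul_of_nonneg_right e p1.le).trans_eq ?_
    rw [dl_half M 1 n, inv_mul_cancel_left₀ p2.ne']
  · refine pb_mono fun v hv g => ⟨g.1, ?_⟩
    have g2 := g.2
    rw [g.1.2, (Pk.cv_mem hω hv).2, dl_add, dl_add] at g2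
    rw [Pk.eval_aeval, dl_pow]
    have t1 : C * dl M 1 n ≤ 1 := by rwa [← le_div_iff₀ p1, one_div]
    have t2 := mul_le_mul_of_nonneg_left (a ω hω F hE) (mul_pos p3 p1).le
    have t3 := mul_le_mul_of_nonneg_left t1 (mul_nonneg p3.le
      (Pk.kc.nonneg (aeval (Ψ n ((κ n).Z ω)) F)))
    have t4 := mul_lt_mul_of_pos_left (g2.trans_le (le_of_eq_of_le (by ring) t2))
      (one_pos.trans_le C1)
    exact t4.trans_le (le_of_eq_of_le (by ring) (t3.trans_eq (mul_one _)))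

end Pool.Agent.MP_5168f5_an.AN.En
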