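import Pool.Agent.MP_5168f5_an.H55K.KR

/-! Directions of tubes that meet a semialgebraic set in a fixed proportion. -/

namespace Pool.Agent.MP_5168f5_an.AN.EndPW

open MeasureTheory Metric H17S H55K
open scoped ENNReal

/-- The heights. -/
def I3 : Set ℝ := Set.Icc (-1) 2

theorem vol_I3 : volume I3 = ENNReal.ofReal 3 := by
  rw [I3, Real.volume_Icc]; norm_num

theorem meas_I3 : MeasurableSet I3 := measurableSet_Icc

section Abstract

variable {X : Type} [MeasurableSpace X] {μ : Measure X}

/-- A bounded function with a large mean is often large. -/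
theorem often {U : Set X} (hU : μ U ≠ ∞) {f : X → ℝ≥0∞} (hf : Measurable f)
    (h3 : ∀ x, f x ≤ ENNReal.ofReal 3) {κ : ℝ} (hκ : 0 ≤ κ)
    (h : ENNReal.ofReal κ * μ U ≤ ∫⁻ x in U, f x ∂μ) :
    ENNReal.ofReal (κ / 6) * μ U ≤ μ (U ∩ {x | ENNReal.ofReal (κ / 2) ≤ f x}) := by
  have hm : MeasurableSet {x | ENNReal.ofReal (κ / 2) ≤ f x} := measurableSet_le measurable_const hf
  have h1 : ∫⁻ x in U, f x ∂μ ≤ ENNReal.ofReal (κ / 2) * μ U +
      ENNReal.ofReal 3 * μ (U ∩ {x | ENNReal.ofReal (κ / 2) ≤ f x}) := by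
    calc _ ≤ ∫⁻ x in U, (ENNReal.ofReal (κ / 2) +
          {x | ENNReal.ofReal (κ / 2) ≤ f x}.indicator (fun _ => ENNReal.ofReal 3) x) ∂μ := by
          refine lintegral_mono fun x => ?_
          by_cases hx : ENNReal.ofReal (κ / 2) ≤ f x
          · rw [Set.indicator_of_mem (show x ∈ {x | ENNReal.ofReal (κ / 2) ≤ f x} from hx)]
            exact (h3 x).trans le_add_self
          · exact (not_le.1 hx).le.trans le_self_add
      _ = _ := by
          rw [lintegral_add_left measurable_const, setLIntegral_const,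
            lintegral_indicator_const hm, Measure.restrict_apply hm, Set.inter_comm]
  have h2 := h.trans h1
  rw [show κ = κ / 2 + κ / 2 by ring, ENNReal.ofReal_add (by positivity) (by positivity), add_mul,
    show (κ / 2 + κ / 2) / 2 = κ / 2 by ring,
    ENNReal.add_le_add_iff_left (ENNReal.mul_ne_top ENNReal.ofReal_ne_top hU),
    show κ / 2 = 3 * (κ / 6) by ring, ENNReal.ofReal_mul (by norm_num), mul_assoc,
    ENNReal.mul_le_mul_iff_right (by simp) ENNReal.ofReal_ne_top] at h2
  rwa [show κ / 2 = 3 * (κ / 6) by ring, ENNReal.ofReal_mul (by norm_num)]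

/-- One more height. -/
theorem step [SFinite μ] {G : X → ℝ → Prop} (hG : MeasurableSet {p : X × ℝ | G p.1 p.2})
    {W : Set X} (hW : MeasurableSet W) (h0 : μ W ≠ 0) (h1 : μ W ≠ ∞) {B : Set ℝ}
    (hB : MeasurableSet B) {κ : ℝ} (hκ : 0 < κ) (hb : volume B ≤ ENNReal.ofReal (κ / 2))
    (h : ∀ x ∈ W, ENNReal.ofReal κ ≤ volume (I3 ∩ {t | G x t})) :
    ∃ t, t ∉ B ∧ ENNReal.ofReal (κ / 8) * μ W ≤ μ (W ∩ {x | G x t}) := by
  by_contra hn
  push Not at hn
  have hT : MeasurableSet (I3 \ B) := meas_I3.diff hB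
  have a : ENNReal.ofReal (κ / 2) * μ W ≤
      ∫⁻ x, volume.restrict (I3 \ B) {t | G x t} ∂μ.restrict W := by
    rw [← setLIntegral_const]
    refine setLIntegral_mono' hW fun x hx => ?_
    rw [Measure.restrict_apply' hT]
    have h2 : I3 ∩ {t | G x t} ⊆ ({t | G x t} ∩ (I3 \ B)) ∪ B := by
      intro t ht
      by_cases k : t ∈ B
      · exact Or.inr k
      · exact Or.inl ⟨ht.2, ht.1, k⟩
    have h3 := (h x hx).trans ((measure_mono h2).trans ((measure_union_le _ _).trans
      (add_le_add le_rfl hb)))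
    rwa [show κ = κ / 2 + κ / 2 by ring, ENNReal.ofReal_add (by positivity) (by positivity),
      show (κ / 2 + κ / 2) / 2 = κ / 2 by ring,
      ENNReal.add_le_add_iff_right ENNReal.ofReal_ne_top] at h3
  have b : ∫⁻ t, μ.restrict W {x | G x t} ∂volume.restrict (I3 \ B) ≤
      ENNReal.ofReal (κ / 8 * 3) * μ W := by
    calc _ ≤ ∫⁻ _ in I3 \ B, ENNReal.ofReal (κ / 8) * μ W := by
          refine setLIntegral_mono' hT fun t ht => ?_
          rw [Measure.restrict_apply' hW, Set.inter_comm]
          exact (hn t ht.2).le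
      _ ≤ _ := by
          rw [setLIntegral_const, ENNReal.ofReal_mul (by positivity), mul_right_comm, ← vol_I3]
          gcongr
          exact Set.sdiff_subset
  have c := (ENNReal.mul_le_mul_iff_left h0 h1).1 (a.trans (le_trans (le_of_eq
    ((Measure.prod_apply hG).symm.trans (Measure.prod_apply_symm hG))) b))
  rw [ENNReal.ofReal_le_ofReal_iff (by positivity)] at c
  linarith

/-- All heights. -/
theorem iter [SFinite μ] {G : X → ℝ → Prop} (hG : MeasurableSet {p : X × ℝ | G p.1 p.2})
    {U : Set X} (hU : MeasurableSet U) (h0 : μ U ≠ 0) (h1 : μ U ≠ ∞) {B : Set ℝ}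
    (hB : MeasurableSet B) {κ τ : ℝ} (hκ : 0 < κ) (hτ : 0 < τ) {k : ℕ} (hk : k * (2 * τ) ≤ κ / 4)
    (hb : volume B ≤ ENNReal.ofReal (κ / 4))
    (h : ∀ x ∈ U, ENNReal.ofReal κ ≤ volume (I3 ∩ {t | G x t})) (i : ℕ) (hi : i ≤ k) :
    ∃ ts : Fin i → ℝ, (∀ j, ts j ∉ B) ∧ (∀ j j', j ≠ j' → τ ≤ |ts j - ts j'|) ∧
      ENNReal.ofReal (κ / 8) ^ i * μ U ≤ μ (U ∩ {x | ∀ j, G x (ts j)}) := by
  induction i with
  | zero => exact ⟨Fin.elim0, fun j => j.elim0, fun j => j.elim0, by simp⟩
  | succ i ih =>
    obtain ⟨ts, a, b, c⟩ := ih (by omega)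
    have mW : MeasurableSet (U ∩ {x | ∀ j, G x (ts j)}) := by
      refine hU.inter ?_
      rw [Set.ofPred_forall]
      exact MeasurableSet.iInter fun j => measurable_prodMk_right hG
    have n0 : ENNReal.ofReal (κ / 8) ≠ 0 := (ENNReal.ofReal_pos.2 (by positivity)).ne'
    obtain ⟨t, d, e⟩ := step hG mW
      (fun e => mul_ne_zero (pow_ne_zero i n0) h0 (le_zero_iff.1 (c.trans e.le)))
      (ne_top_of_le_ne_top h1 (measure_mono Set.inter_subset_left))
      (B := B ∪ ⋃ j, ball (ts j) τ) (hB.union (MeasurableSet.iUnion fun _ => measurableSet_ball))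
      hκ (by
        refine (measure_union_le _ _).trans ((add_le_add hb (measure_iUnion_fintype_le _ _)).trans ?_)
        simp only [Real.volume_ball, Finset.sum_const, Finset.card_univ, Fintype.card_fin,
          nsmul_eq_mul]
        rw [← ENNReal.ofReal_natCast, ← ENNReal.ofReal_mul (by positivity),
          ← ENNReal.ofReal_add (by positivity) (by positivity)]
        refine ENNReal.ofReal_le_ofReal ?_
        have : (i : ℝ) ≤ k := by exact_mod_cast (by omega : i ≤ k)
        nlinarith) fun x hx => h x hx.1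
    have f : ∀ j, τ ≤ |t - ts j| := fun j => not_lt.1 fun k =>
      d (Or.inr (Set.mem_iUnion.2 ⟨j, by rwa [mem_ball, Real.dist_eq]⟩))
    refine ⟨Fin.cons t ts, fun j => Fin.cases (fun k => d (Or.inl k)) a j, ?_, ?_⟩
    · intro j j'
      refine Fin.cases ?_ (fun j => ?_) j <;> refine Fin.cases ?_ (fun j' => ?_) j'
      · exact fun e => absurd rfl e
      · exact fun _ => f j'
      · intro _
        rw [abs_sub_comm]
        exact f j
      · exact fun e => b j j' fun e' => e (by rw [e'])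
    · rw [pow_succ', mul_assoc]
      refine le_trans (by gcongr) (e.trans (measure_mono fun x hx => ?_))
      exact ⟨hx.1.1, fun j => Fin.cases hx.2 hx.1.2 j⟩

end Abstract

variable {m : ℕ}

theorem vol_slices {A : Set (V (m + 1))} (hA : MeasurableSet A) :
    volume A = ∫⁻ t, volume {z : V m | H83.pt t z ∈ A} := by
  have hm : MeasurableSet {p : ℝ × V m | H83.pt p.1 p.2 ∈ A} := H83.continuous_pt.measurable hA
  have h4 := (volume_preserving_piFinSuccAbove (fun _ : Fin (m + 1) => ℝ) 0).measure_preimage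
    hm.nullMeasurableSet
  rw [Measure.volume_eq_prod, Measure.prod_apply hm] at h4
  refine Eq.trans ?_ h4
  congr 1
  ext z
  simp [H83.pt, MeasurableEquiv.piFinSuccAbove_apply]

theorem meas_fl (j : ℕ) : Measurable (fl (N := m) j) :=
  measurable_pi_lambda _ fun i => Int.measurable_floor.comp ((measurable_pi_apply i).const_mul _)

theorem vol_cells (j : ℕ) (E : Finset (Z m)) :
    volume {v : V m | fl j v ∈ E} = ENNReal.ofReal (E.card * (((2 : ℝ) ^ j)⁻¹) ^ m) := by
  have : {v : V m | fl j v ∈ E} = ⋃ c ∈ E, cellSet j c := by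
    ext v; simp [cellSet]
  rw [this, measure_biUnion_finset (fun c _ c' _ hne => Set.disjoint_left.2 fun v h h' =>
    hne (h.symm.trans h')) fun c _ => meas_cellSet j c]
  simp only [vol_cellSet, Finset.sum_const, nsmul_eq_mul]
  rw [ENNReal.ofReal_mul (by positivity), ENNReal.ofReal_natCast]

/-- The part of the tube of radius `ρ` around the line `(a, e)` over the heights. -/
def tube (a e : V m) (ρ : ℝ) : Set (V (m + 1)) :=
  {u | u 0 ∈ I3 ∧ ‖Fin.tail u - a - u 0 • e‖ ≤ ρ}

theorem meas_tube (a e : V m) (ρ : ℝ) : MeasurableSet (tube a e ρ) := by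
  refine ((measurable_pi_apply (X := fun _ : Fin (m + 1) => ℝ) 0) meas_I3).inter
    (isClosed_le (f := fun u : V (m + 1) => ‖Fin.tail u - a - u 0 • e‖) (g := fun _ => ρ) ?_
      continuous_const).measurableSet
  exact (((continuous_pi fun i => continuous_apply (Fin.succ i)).sub continuous_const).sub
    ((continuous_apply 0).smul continuous_const)).norm

theorem vol_tube {A : Set (V (m + 1))} (hA : MeasurableSet A) (a e : V m) (ρ : ℝ) :
    volume (tube a e ρ ∩ A) =
      ∫⁻ ξ in closedBall (0 : V m) ρ, volume (I3 ∩ {t | H83.pt t (a + ξ + t • e) ∈ A}) := by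
  have hm : MeasurableSet {p : ℝ × V m | H83.pt p.1 (a + p.2 + p.1 • e) ∈ A} :=
    (H83.continuous_pt.comp (by fun_prop : Continuous fun p : ℝ × V m =>
      (p.1, a + p.2 + p.1 • e))).measurable hA
  have h1 := (Measure.prod_apply (μ := volume.restrict I3)
    (ν := volume.restrict (closedBall (0 : V m) ρ)) hm).symm.trans (Measure.prod_apply_symm hm)
  rw [vol_slices ((meas_tube a e ρ).inter hA)]
  refine Eq.trans ?_ (h1.trans (lintegral_congr fun ξ => ?_))
  · rw [← lintegral_indicator meas_I3]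
    refine lintegral_congr fun t => ?_
    by_cases ht : t ∈ I3
    · rw [Set.indicator_of_mem ht, Measure.restrict_apply' measurableSet_closedBall,
        ← measure_preimage_add volume (a + t • e)]
      congr 1
      ext ξ
      have e1 : a + t • e + ξ - a - t • e = ξ := by abel
      have e2 : a + t • e + ξ = a + ξ + t • e := by abel
      simp only [tube, Set.mem_preimage, Set.mem_ofPred_eq, Set.mem_inter_iff, ht,
        true_and, mem_closedBall, dist_zero_right, H83.pt, Fin.tail_cons, Fin.cons_zero, e1]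
      rw [e2, and_comm]
    · rw [Set.indicator_of_notMem ht]
      exact measure_mono_null (fun z hz => ht hz.1.1) measure_empty
  · rw [Measure.restrict_apply' meas_I3, Set.inter_comm]
    rfl

/-- The polynomial Wolff bound for tubes that meet the set in the proportion `κ`. -/
theorem pw (m d k : ℕ) : ∃ C : ℝ, 1 ≤ C ∧ ∀ (p : Fin k → V (m + 1) → ℝ) (R W κ ρ : ℝ) (j : ℕ)
    (E : Finset (Z m)), (∀ l, H83.IsPoly d (p l)) → (∀ u, (∀ l, 0 < p l u) → ‖u‖ ≤ R) → 0 < W →
    volume {u | ∀ l, 0 < p l u} ≤ ENNReal.ofReal W → 0 < κ → 0 ≤ ρ →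
    (∀ c ∈ E, ∃ a e : V m, fl j e = c ∧
      ENNReal.ofReal (κ * (2 * (ρ + 2 * ((2 : ℝ) ^ j)⁻¹)) ^ m) ≤
        volume (tube a e ρ ∩ {u | ∀ l, 0 < p l u})) →
    E.card * κ ^ (2 * m + 3) ≤ C * W * (2 ^ j) ^ m := by
  obtain ⟨C, hC, H⟩ := H83.jl H83.area m d k
  refine ⟨C * (16 * (m + 1)) ^ m * (m + 1) * 8 * 16 ^ (m + 1) * 6 + 1, by
    have : 0 ≤ C * (16 * (m + 1)) ^ m * (m + 1) * 8 * 16 ^ (m + 1) * 6 := by positivity
    linarith, fun p R W κ ρ j E hp hR hW hv hκ hρ hE => ?_⟩
  rcases E.eq_empty_or_nonempty with rfl | hne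
  · simp only [Finset.card_empty, Nat.cast_zero, zero_mul]; positivity
  have hc : (0 : ℝ) < E.card := by exact_mod_cast hne.card_pos
  choose! a e he hg using hE
  set A : Set (V (m + 1)) := {u | ∀ l, 0 < p l u} with hA
  set δ : ℝ := ((2 : ℝ) ^ j)⁻¹ with hδ
  set r : ℝ := ρ + 2 * δ with hr
  have δ0 : 0 < δ := by positivity
  have r0 : 0 < r := by positivity
  have mA : MeasurableSet A := by
    rw [hA, Set.ofPred_forall]
    exact MeasurableSet.iInter fun l => measurableSet_lt measurable_const (hp l).measurable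
  have ma : Measurable fun v : V m => a (fl j v) := (measurable_of_countable a).comp (meas_fl j)
  let G : V m × V m → ℝ → Prop := fun x t => H83.pt t (a (fl j x.1) + x.2 + t • x.1) ∈ A
  have hG : MeasurableSet {q : (V m × V m) × ℝ | G q.1 q.2} :=
    (H83.continuous_pt.measurable.comp (measurable_snd.prodMk
      (((ma.comp (measurable_fst.comp measurable_fst)).add (measurable_snd.comp measurable_fst)).add
        (measurable_snd.smul (measurable_fst.comp measurable_fst))))) mA
  have mE : MeasurableSet {v : V m | fl j v ∈ E} := meas_fl j (E : Set (Z m)).to_countable.measurableSet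
  set U : Set (V m × V m) := {v : V m | fl j v ∈ E} ×ˢ closedBall (0 : V m) r with hU
  have mU : MeasurableSet U := mE.prod measurableSet_closedBall
  have vb : volume (closedBall (0 : V m) r) = ENNReal.ofReal ((2 * r) ^ m) := by
    rw [Real.volume_pi_closedBall _ r0.le, Fintype.card_fin]
  have vU : (volume.prod volume) U = ENNReal.ofReal (E.card * δ ^ m) * ENNReal.ofReal ((2 * r) ^ m) := by
    rw [hU, Measure.prod_prod, vol_cells, vb]
  have U0 : (volume.prod volume) U ≠ 0 := by
    rw [vU, ← ENNReal.ofReal_mul (by positivity)]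
    exact (ENNReal.ofReal_pos.2 (by positivity)).ne'
  have U1 : (volume.prod volume) U ≠ ∞ := by
    rw [vU]; exact ENNReal.mul_ne_top ENNReal.ofReal_ne_top ENNReal.ofReal_ne_top
  have mf : Measurable fun x : V m × V m => volume (I3 ∩ {t | G x t}) :=
    measurable_measure_prodMk_left ((measurable_snd meas_I3).inter hG)
  have h1 := often (μ := volume.prod volume) U1 mf
    (fun x => (measure_mono Set.inter_subset_left).trans vol_I3.le) hκ.le (by
      rw [vU, hU, ← Measure.prod_restrict, lintegral_prod _ mf.aemeasurable, mul_left_comm,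
        ← vol_cells, mul_comm, ← setLIntegral_const, ← ENNReal.ofReal_mul hκ.le]
      refine setLIntegral_mono' mE fun v hv => (hg _ hv).trans ?_
      refine le_trans (measure_mono (Set.inter_subset_inter_left _ ?_))
        (vol_tube mA (a (fl j v)) v r).le
      refine fun u hu => ⟨hu.1, ?_⟩
      have e1 : Fin.tail u - a (fl j v) - u 0 • v =
          (Fin.tail u - a (fl j v) - u 0 • e (fl j v)) + u 0 • (e (fl j v) - v) := by module
      rw [e1]
      refine (norm_add_le _ _).trans (add_le_add hu.2 ?_)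
      rw [norm_smul, Real.norm_eq_abs]
      exact mul_le_mul (abs_le.2 ⟨by linarith [hu.1.1], hu.1.2⟩)
        (norm_sub_lt_of_fl_eq (he _ hv)).le (norm_nonneg _) zero_le_two)
  have ms : Measurable fun t : ℝ => volume {z : V m | H83.pt t z ∈ A} :=
    measurable_measure_prodMk_left (H83.continuous_pt.measurable mA)
  have n6 : ENNReal.ofReal (κ / 6) ≠ 0 := (ENNReal.ofReal_pos.2 (by positivity)).ne'
  obtain ⟨ts, t1, t2, t3⟩ := iter (μ := volume.prod volume) hG
    (mU.inter (measurableSet_le measurable_const mf))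
    (fun e => mul_ne_zero n6 U0 (le_zero_iff.1 (h1.trans e.le)))
    (ne_top_of_le_ne_top U1 (measure_mono Set.inter_subset_left))
    (B := {t | ENNReal.ofReal (8 * W / κ) ≤ volume {z : V m | H83.pt t z ∈ A}})
    (measurableSet_le measurable_const ms) (κ := κ / 2) (τ := κ / (16 * (m + 1))) (by positivity)
    (by positivity) (k := m + 1) (le_of_eq (by push_cast; field_simp; ring)) (by
      have h2 := mul_meas_ge_le_lintegral₀ (μ := volume) ms.aemeasurable
        (ENNReal.ofReal (8 * W / κ))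
      rw [← vol_slices mA] at h2
      have h3 := h2.trans hv
      rwa [show W = 8 * W / κ * (κ / 2 / 4) by field_simp; ring, ENNReal.ofReal_mul (by positivity),
        show 8 * (8 * W / κ * (κ / 2 / 4)) / κ = 8 * W / κ by field_simp; ring,
        ENNReal.mul_le_mul_iff_right (ENNReal.ofReal_pos.2 (by positivity)).ne'
          ENNReal.ofReal_ne_top] at h3)
    (fun x hx => hx.2) (m + 1) le_rfl
  have h4 := H (fun i l z => p l (H83.pt (ts i) z)) ts _ R
    (fun i l => (hp l).comp_aff (H83.isPoly_pt _)) (by positivity) t2 fun z hz =>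
      ((pi_norm_le_iff_of_nonneg (norm_nonneg _)).2 fun i : Fin m =>
        norm_le_pi_norm (H83.pt (ts 0) z) i.succ).trans (hR _ hz)
  have h5 : ∑ i, volume {z : V m | ∀ l, 0 < p l (H83.pt (ts i) z)} ≤
      ENNReal.ofReal ((m + 1) * (8 * W / κ)) := by
    refine (Finset.sum_le_sum fun i _ => (not_le.1 (t1 i)).le).trans (le_of_eq ?_)
    rw [Finset.sum_const, Finset.card_univ, Fintype.card_fin, nsmul_eq_mul,
      ENNReal.ofReal_mul (by positivity), ← Nat.cast_succ, ENNReal.ofReal_natCast]
  have h6 : (volume.prod volume) (U ∩ {x | ENNReal.ofReal (κ / 2) ≤ volume (I3 ∩ {t | G x t})} ∩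
      {x | ∀ i, G x (ts i)}) ≤ volume {v : V m | ∃ b : V m, ∀ i l,
        0 < p l (H83.pt (ts i) (b + ts i • v))} * ENNReal.ofReal ((2 * r) ^ m) := by
    rw [← vb, ← Measure.prod_prod]
    exact measure_mono fun x hx => ⟨⟨_, hx.2⟩, hx.1.1.2⟩
  have h7 := ((mul_le_mul_right h1 _).trans t3).trans (h6.trans
    (mul_le_mul_left (h4.trans (mul_le_mul_right h5 _)) _))
  rw [vU, ← mul_assoc, ← mul_assoc, ENNReal.mul_le_mul_iff_left
    (ENNReal.ofReal_pos.2 (by positivity)).ne' ENNReal.ofReal_ne_top,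
    ← ENNReal.ofReal_pow (by positivity), ← ENNReal.ofReal_mul (by positivity),
    ← ENNReal.ofReal_mul (by positivity), ← ENNReal.ofReal_mul (by positivity),
    ENNReal.ofReal_le_ofReal_iff (by positivity)] at h7
  have h8 := mul_le_mul_of_nonneg_right h7
    (show 0 ≤ κ ^ (m + 1) * 16 ^ (m + 1) * 6 * ((2 : ℝ) ^ j) ^ m by positivity)
  calc (E.card : ℝ) * κ ^ (2 * m + 3) = _ := by
        rw [hδ, inv_pow, show κ / 2 / 8 = κ / 16 by ring, div_pow]; field_simp; ring
    _ ≤ _ := h8
    _ = C * (16 * (m + 1)) ^ m * (m + 1) * 8 * 16 ^ (m + 1) * 6 * W * (2 ^ j) ^ m := by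
        rw [div_pow]; field_simp; ring
    _ ≤ _ := by gcongr; linarith

end Pool.Agent.MP_5168f5_an.AN.EndPW
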