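import Pool.Agent.MP_5168f5_an.AN.NcNu
import Pool.Agent.MP_5168f5_an.AN.NcJac
import Pool.Agent.MP_5168f5_an.AN.PCnt
import Pool.Agent.MP_5168f5_an.AN.G39Onb
import Pool.Agent.MP_5168f5_an.AN.G39Res

/-! Typical points of a minimal cell are nice. -/

namespace Pool.Agent.MP_5168f5_an.AN.Nc

open MvPolynomial Finset H19 H17S H17F Filter Pk G39 Matrix

variable {d : ℕ}

/-- The quadratic mean of a polynomial in the point. -/
noncomputable def nuP {Ω : Type} (P : FP Ω) (x : Ω → Fin d → ℝ) (F : Pl d) : ℝ :=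
  nu P fun ω => eval (x ω) F

theorem nu_eq_zero {Ω : Type} {P : FP Ω} {f : Ω → ℝ} : nu P f = 0 ↔ ∀ ω ∈ P.S, f ω = 0 := by
  have h0 : ∀ ω ∈ P.S, 0 ≤ P.p ω * f ω ^ 2 := fun ω h => mul_nonneg (P.pos ω h).le (sq_nonneg _)
  rw [nu, FP.E, Real.sqrt_eq_zero (sum_nonneg h0), sum_eq_zero_iff_of_nonneg h0]
  exact forall₂_congr fun ω h => by simp [(P.pos ω h).ne']

theorem bas_nuP {Ω : Type} (P : FP Ω) (x : Ω → Fin d → ℝ) (E : ℕ)
    (h : ∀ F : Pl d, F ≠ 0 → F.totalDegree ≤ E → 0 < nuP P x F) :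
    Bas (nuP P x) E (mons (Fin d) E).card := by
  classical
  let e := (mons (Fin d) E).equivFin.symm
  let m : Fin (mons (Fin d) E).card → Pl d := fun a => monomial (e a).1 1
  have hm : ∀ a, (m a).totalDegree ≤ E := fun a => (totalDegree_monomial_le _ _).trans (by
    rw [Finsupp.sum_fintype _ _ fun _ => rfl]
    exact (pCnt.mem E _).1 (e a).2)
  have hs : ∀ {v : Fin (mons (Fin d) E).card → Pl d}, (∀ a, (v a).totalDegree ≤ E) →
      ∀ c : Fin (mons (Fin d) E).card → ℝ, (∑ a, C (c a) * v a).totalDegree ≤ E := fun hv c =>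
    totalDegree_finsetSum_le fun a _ => (totalDegree_mul _ _).trans (by simpa using hv a)
  have hc : ∀ (c : Fin (mons (Fin d) E).card → ℝ) a, coeff (e a).1 (∑ a, C (c a) * m a) = c a := by
    intro c a
    simp only [coeff_sum, coeff_C_mul, m, coeff_monomial, Subtype.val_inj, e.apply_eq_iff_eq]
    simp
  obtain ⟨A, hA⟩ := rOnb Ω P _ (fun a ω => eval (x ω) (m a)) fun c c0 => by
    have := h (∑ a, C (c a) * m a) (fun z => c0 (funext fun a => by rw [← hc c a, z]; rfl)) (hs hm c)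
    simpa only [nuP, map_sum, map_mul, eval_C] using this
  have hA' : ∀ c : Fin (mons (Fin d) E).card → ℝ,
      nuP P x (∑ a, C (c a) * ∑ a', C (A a a') * m a') = √(∑ a, c a ^ 2) := fun c => by
    simpa only [nuP, map_sum, map_mul, eval_C] using hA c
  have hv : ∀ c : Fin (mons (Fin d) E).card → ℝ, ∑ a, C (c a) * ∑ a', C (A a a') * m a' =
      ∑ a', C ((c ᵥ* Matrix.of A) a') * m a' := fun c => by
    simp only [Matrix.vecMul, dotProduct, map_sum, map_mul, mul_sum, sum_mul, Matrix.of_apply,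
      mul_assoc]
    exact sum_comm
  have hi : Function.Injective (Matrix.of A).vecMulLinear :=
    (injective_iff_map_eq_zero _).2 fun c hc0 => by
      have h1 := hA' c
      rw [hv, show c ᵥ* Matrix.of A = 0 from hc0] at h1
      have h2 : ∑ a, c a ^ 2 = 0 := by
        rw [← Real.sqrt_eq_zero (sum_nonneg fun _ _ => sq_nonneg _), ← h1]
        exact nu_eq_zero.2 (by simp)
      funext a
      exact pow_eq_zero_iff two_ne_zero |>.1
        ((sum_eq_zero_iff_of_nonneg fun _ _ => sq_nonneg _).1 h2 a (mem_univ a))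
  refine ⟨fun a => ∑ a', C (A a a') * m a', fun a => ⟨hs hm _, ?_⟩, fun G hG =>
    ⟨Real.sqrt_nonneg _, ?_⟩⟩
  · simpa [Pi.single_apply, apply_ite (C : ℝ → Pl d)] using (hA' (Pi.single a 1)).le
  · obtain ⟨c, h1⟩ := LinearMap.surjective_of_injective hi fun a => coeff (e a).1 G
    have h2 : G = ∑ a, C (c a) * ∑ a', C (A a a') * m a' := by
      rw [hv, show c ᵥ* Matrix.of A = _ from h1]
      refine MvPolynomial.funext fun y => ?_
      rw [pCnt.val E G y hG, ← e.sum_comp]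
      simp [m, eval_monomial, Finsupp.prod_fintype]
    refine ⟨c, h2, fun a => ?_⟩
    rw [h2, hA']
    exact Real.abs_le_sqrt (single_le_sum (f := fun a => c a ^ 2) (fun _ _ => sq_nonneg _)
      (mem_univ a))

theorem ex_coeff {E : ℕ} {H : Pl d} (hd : H.totalDegree ≤ E) :
    ∃ m, cn H ≤ (mons (Fin d) E).card * |coeff m H| := by
  obtain ⟨m, -, h⟩ := exists_max_image (mons (Fin d) E) (fun m => |coeff m H|)
    ⟨0, (pCnt.mem E 0).2 (by simp)⟩
  exact ⟨m, by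
    rw [kc.sup H _ ((pCnt.sup E H).1 hd)]
    simpa using sum_le_card_nsmul _ _ _ h⟩

section Seq

variable {Ω : ℕ → Type} {P : ∀ n, FP (Ω n)} {x : ∀ n, Ω n → Fin d → ℝ} {M : ℕ → ℕ}
  {Φ : ℕ → Fin d → Pl d} {D : ℕ}

/-- Every sequence of polynomials has typical size at most points. -/
def TY (P : ∀ n, FP (Ω n)) (x : ∀ n, Ω n → Fin d → ℝ) (M : ℕ → ℕ) : Prop :=
  ∀ (E : ℕ) (c : ℝ) (F : ℕ → Pl d), 0 < c → (∀ n, (F n).totalDegree ≤ E) →
    Whp P fun n ω => 0 < nuP (P n) (x n) (F n) → dl M c n * nuP (P n) (x n) (F n) < |eval (x n ω) (F n)|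

theorem _root_.Pool.Agent.MP_5168f5_an.AN.G39.NL.ty {β : ℕ → Type} {Z : Bool → ∀ n, Ω n → β n}
    (h : NL P x M Z) : TY P x M := fun E c F hc hF =>
  (h E c (fun _ n _ ω => eval (x n ω) (F n)) hc fun _ n _ => ⟨F n, hF n, fun _ => rfl⟩).mono
    (Eventually.of_forall fun _ _ _ k a => not_le.1 fun b => k ⟨rfl, a, b⟩)

theorem ev_eq (n : ℕ) (H : Pl d) :
    G39.ev (fun j ω => eval (x n ω) (Φ n j)) H = fun ω => eval (x n ω) (aeval (Φ n) H) :=
  funext fun ω => by rw [eval_aeval]; rfl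

theorem ind_pos (h : IND P x M fun n j ω => eval (x n ω) (Φ n j)) (E : ℕ) : ∀ᶠ n in UF,
    ∀ H : Pl d, H ≠ 0 → H.totalDegree ≤ E → 0 < nuP (P n) (x n) (aeval (Φ n) H) := by
  filter_upwards [h.ind E 1 one_pos] with n a H h0 hd
  obtain ⟨m, hm⟩ := MvPolynomial.ne_zero_iff.1 h0
  have := a H hd m
  rw [ev_eq] at this
  exact (mul_pos (dl_pos M 1 n) (abs_pos.2 hm)).trans_le this

theorem ind_jac (h : IND P x M fun n j ω => eval (x n ω) (Φ n j))
    (hΦ : ∀ n i, (Φ n i).totalDegree ≤ D) : ∀ᶠ n in UF, jac (Φ n) ≠ 0 :=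
  (ind_pos h (d * ord d D)).mono fun n a => jac_ne_zero (hΦ n) fun H hd e => by
    by_contra h0
    exact (a H h0 hd).ne' (nu_eq_zero.2 fun ω _ => by rw [e, map_zero])

/-- With a full frame the quadratic mean is a norm. -/
theorem ind_nu (h : IND P x M fun n j ω => eval (x n ω) (Φ n j))
    (hΦ : ∀ n i, (Φ n i).totalDegree ≤ D) (E : ℕ) : ∀ᶠ n in UF,
    ∀ F : Pl d, F ≠ 0 → F.totalDegree ≤ E → 0 < nuP (P n) (x n) F := by
  filter_upwards [ind_pos h (d * (ord d D * E))] with n a F h0 hd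
  obtain ⟨H, h1, h2, G, h3⟩ := elim (Φ n) (hΦ n) hd h0
  refine lt_of_le_of_ne (Real.sqrt_nonneg _) fun e => (a H h1 h2).ne' (nu_eq_zero.2 fun ω k => ?_)
  rw [h3, map_mul, nu_eq_zero.1 e.symm ω k, zero_mul]

theorem whp_cg (hM : Big M) (E : ℕ) {c : ℝ} (hc : 0 < c) : Whp P fun n ω => ∀ F : Pl d,
    F.totalDegree ≤ E → |eval (x n ω) F| ≤ (dl M c n)⁻¹ * nuP (P n) (x n) F := fun ε hε => by
  filter_upwards [big_dl hM ((E + 1) ^ d / ε + 1) hc] with n a
  have h0 := inv_pos.2 (dl_pos M c n)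
  have h1 : (0 : ℝ) ≤ (E + 1) ^ d / ε := by positivity
  refine (pb_mono fun ω _ k k' => k fun F hF => k' _ ⟨F, hF, fun _ => rfl⟩).trans
    ((rCheb _ (P n) d E (x n) _ h0).trans ?_)
  rw [div_le_iff₀ (by positivity), ← div_le_iff₀' hε]
  nlinarith

/-- Typical points are nice. -/
theorem g3 (hM : Big M) (ty : TY P x M) (h : IND P x M fun n j ω => eval (x n ω) (Φ n j))
    (hΦ : ∀ n i, (Φ n i).totalDegree ≤ D) (E K : ℕ) : ∃ Λ, Sub M Λ ∧ Whp P fun n ω =>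
      ∃ σ, NiceAt (Φ n) (nuP (P n) (x n)) D E K (Λ n) (x n ω) σ := by
  classical
  obtain ⟨L, c, A, hA, hn⟩ := nice_nu d D E K (mons (Fin d) E).card
  obtain ⟨Λ, s1, s2⟩ := R4.ks.wsub P (fun n ω l =>
    ∃ σ, NiceAt (Φ n) (nuP (P n) (x n)) D E K (A * l ^ c) (x n ω) σ) M fun a a0 _ => by
    have hex : ∀ n, ∃ H : Pl d, H.totalDegree ≤ L ∧ (jac (Φ n) ≠ 0 →
        Bas (nuP (P n) (x n)) E (mons (Fin d) E).card → cn H = 1 ∧ ∀ ω ∈ (P n).S,
        ‖ev (Φ n) (x n ω)‖ ≤ (dl M a n)⁻¹ → (∀ F : Pl d, F.totalDegree ≤ E →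
          |eval (x n ω) F| ≤ (dl M a n)⁻¹ * nuP (P n) (x n) F) →
        dl M a n ≤ |eval (x n ω) (aeval (Φ n) H)| →
        ∃ σ, NiceAt (Φ n) (nuP (P n) (x n)) D E K (A * (dl M a n)⁻¹ ^ c) (x n ω) σ) := fun n => by
      by_cases k : jac (Φ n) ≠ 0 ∧ Bas (nuP (P n) (x n)) E (mons (Fin d) E).card
      · obtain ⟨H, h1, h2, h3⟩ := hn (Φ n) _ (dl M a n)⁻¹ (∑ ω ∈ (P n).S, ‖x n ω‖)
          (by rw [dl_inv]; exact Real.one_le_exp (by positivity)) (hΦ n) k.1 k.2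
        exact ⟨H, h2, fun _ _ => ⟨h1, fun ω hω k1 k2 k3 => h3 _ (single_le_sum
          (f := fun ω => ‖x n ω‖) (fun _ _ => norm_nonneg _) hω) k1 k2
            (by rwa [inv_inv, ← eval_aeval])⟩⟩
      · exact ⟨0, by simp, fun k1 k2 => absurd ⟨k1, k2⟩ k⟩
    choose H h1 h2 using hex
    have a3 : 0 < a / 3 := by positivity
    refine ((whp_cg (x := x) hM E a0).and ((whp_cg (x := x) hM D a0).and (ty (L * D) _ (fun n => aeval (Φ n) (H n))
      a3 fun n => kc.deg _ _ L D (h1 n) (hΦ n)))).mono ?_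
    filter_upwards [ind_jac h hΦ, ind_nu h hΦ E, h.ind L _ a3,
      big_dl hM (mons (Fin d) L).card a3] with n b1 b2 b3 b4 ω hω ⟨k1, k2, k3⟩
    obtain ⟨c1, c2⟩ := h2 n b1 (bas_nuP _ _ E b2)
    rw [← dl_inv]
    have p0 := dl_pos M a n
    have p3 := dl_pos M (a / 3) n
    refine c2 ω hω ((pi_norm_le_iff_of_nonneg (inv_pos.2 p0).le).2 fun i =>
      (k2 _ (hΦ n i)).trans (mul_le_of_le_one_right (inv_pos.2 p0).le (h.le n i))) k1 ?_
    obtain ⟨m, hm⟩ := ex_coeff (h1 n)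
    have e1 := b3 _ (h1 n) m
    rw [ev_eq] at e1
    have e2 : dl M (a / 3) n ≤ |coeff m (H n)| := by
      rw [c1] at hm
      have := hm.trans (mul_le_mul_of_nonneg_right b4 (abs_nonneg _))
      rwa [le_inv_mul_iff₀ p3, mul_one] at this
    have e3 : dl M (a / 3) n * dl M (a / 3) n ≤ nuP (P n) (x n) (aeval (Φ n) (H n)) :=
      (mul_le_mul_of_nonneg_left e2 p3.le).trans e1
    refine le_trans ?_ (k3 ((mul_pos p3 p3).trans_le e3)).le
    refine le_trans (le_of_eq ?_) (mul_le_mul_of_nonneg_left e3 p3.le)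
    rw [← dl_add, ← dl_add]
    congr 1
    ring
  exact ⟨_, (s1.pow c).const_mul hM hA, s2⟩

end Seq

end Pool.Agent.MP_5168f5_an.AN.Nc
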