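import Pool.Agent.MP_5168f5_an.AN.G39Defs

/-! Two facts from algebra: elimination of a variable and relations of minimal degree. -/

namespace Pool.Agent.MP_5168f5_an.AN.G39

open MvPolynomial

namespace G39AlgA

theorem elim {R : Type} [CommRing R] [IsDomain R] {p q : Polynomial R} (hp : Prime p)
    (hq : ¬p ∣ q) : ∃ a b r, r ≠ 0 ∧ a * p + b * q = Polynomial.C r := by
  have := AdjoinRoot.isDomain_of_prime hp
  have alg : IsAlgebraic R (AdjoinRoot.mk p q) := by
    rw [← AdjoinRoot.aeval_eq]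
    exact Algebra.adjoin_le (S := Subalgebra.algebraicClosure R _)
      (Set.singleton_subset_iff.2 (AdjoinRoot.isAlgebraic_root hp.ne_zero))
      (Polynomial.aeval_mem_adjoin_singleton R _)
  obtain ⟨r, hr, b, hb⟩ := alg.exists_nonzero_dvd
    (mem_nonZeroDivisors_of_ne_zero (mt AdjoinRoot.mk_eq_zero.1 hq))
  obtain ⟨b, rfl⟩ := AdjoinRoot.mk_surjective b
  obtain ⟨a, ha⟩ := (AdjoinRoot.mk_eq_mk (g := Polynomial.C r) (h := q * b)).1
    (hb.trans (map_mul _ _ _).symm)
  exact ⟨a, b, r, hr, by linear_combination -ha⟩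

theorem succ {k : Type} [Field k] {i : ℕ} (r : MvPolynomial (Fin i) k) :
    finSuccEquiv k i (rename Fin.succ r) = Polynomial.C r := by
  induction r using MvPolynomial.induction_on with
  | C c => simp [finSuccEquiv_apply]
  | add p q hp hq => simp only [map_add, hp, hq]
  | mul_X p j hp => simp only [map_mul, hp, rename_X, finSuccEquiv_X_succ]

end G39AlgA

theorem rAlg1 : Alg1 := by
  intro k _ i H H' m h1 h2 h0 hle hH
  have n1 : H ≠ 0 := fun e => by simp [e] at h1
  have un : ∀ A : MvPolynomial (Fin (i + 1)) k, A ≠ 0 → A.totalDegree = 0 → IsUnit A :=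
    fun A a b => by
      rw [totalDegree_eq_zero_iff_eq_C.1 b] at a ⊢
      exact (IsUnit.mk0 _ fun e => a (by rw [e, map_zero])).map C
  have irr : Irreducible H := ⟨fun u => h0.ne' (isUnit_iff_totalDegree_of_isReduced.1 u).2,
    fun A B e => by
      have a := left_ne_zero_of_mul (e ▸ n1)
      have b := right_ne_zero_of_mul (e ▸ n1)
      have d := totalDegree_mul_of_isDomain a b
      rw [← e] at d
      exact (hH A B e).symm.imp (fun h => un A a (by omega)) fun h => un B b (by omega)⟩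
  by_cases c : H ∣ H'
  · obtain ⟨B, rfl⟩ := c
    have b : B ≠ 0 := fun e => by simp [e] at h2
    rw [totalDegree_mul_of_isDomain n1 b] at hle
    rw [totalDegree_eq_zero_iff_eq_C.1 (show B.totalDegree = 0 by omega), mul_comm] at h2 ⊢
    rw [coeff_C_mul, h1, mul_one] at h2
    exact Or.inl (by rw [h2, map_one, one_mul])
  · obtain ⟨a, b, r, hr, e⟩ := G39AlgA.elim
      ((MulEquiv.prime_iff (finSuccEquiv k i)).2 irr.prime) (mt (map_dvd_iff _).1 c)
    refine Or.inr ⟨0, (finSuccEquiv k i).symm a, (finSuccEquiv k i).symm b, r, hr,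
      (finSuccEquiv k i).injective ?_⟩
    simpa [G39AlgA.succ] using e

theorem rAlg2 : Alg2 := by
  classical
  intro R _ _ _ J hJ h0 hC
  have ex : ∃ d, ∃ p ∈ J, p ≠ 0 ∧ p.natDegree = d :=
    let ⟨p, a, b⟩ := Submodule.exists_mem_ne_zero_of_ne_bot h0
    ⟨_, p, a, b, rfl⟩
  obtain ⟨p, a, b, e⟩ := Nat.find_spec ex
  have mn : ∀ q ∈ J, q.natDegree < p.natDegree → q = 0 := fun q hq h =>
    by_contra fun c => Nat.find_min ex (e ▸ h) ⟨q, hq, c, rfl⟩
  have d : p.natDegree ≠ 0 := fun d => b (by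
    rw [Polynomial.eq_C_of_natDegree_eq_zero d] at a ⊢
    rw [hC _ a, map_zero])
  refine ⟨p, a, fun h => d (Polynomial.derivative_eq_zero.1
    (mn _ h (Polynomial.natDegree_derivative_lt d))), fun h c => b ?_⟩
  have k := Polynomial.X_mul_divX_add p
  rw [c, map_zero, add_zero] at k
  rw [← k, mn p.divX ((hJ.mem_or_mem (k.symm ▸ a)).resolve_left h) (by
    rw [Polynomial.natDegree_divX_eq_natDegree_tsub_one]; omega), mul_zero]

end Pool.Agent.MP_5168f5_an.AN.G39
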