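import Pool.Agent.MP_5168f5_an.R4.Api

/-! Kakeya sets in all dimensions: geometry of one minimal cell, definitions and statements. -/

namespace Pool.Agent.MP_5168f5_an.AN.G39

open H19 H17S H17F Filter MvPolynomial

section One

variable {Ω β : Type} {d : ℕ}

/-- `f` is a polynomial of degree at most `E` in the point `x`. -/
def Pl (x : Ω → Fin d → ℝ) (E : ℕ) (f : Ω → ℝ) : Prop :=
  ∃ F : MvPolynomial (Fin d) ℝ, F.totalDegree ≤ E ∧ ∀ ω, f ω = eval (x ω) F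

/-- The quadratic mean. -/
noncomputable def nu (P : FP Ω) (f : Ω → ℝ) : ℝ := √(P.E fun ω => f ω ^ 2)

/-- A polynomial in the functions `φ i`. -/
noncomputable def ev {σ : Type} (φ : σ → Ω → ℝ) (H : MvPolynomial σ ℝ) (ω : Ω) : ℝ :=
  eval (fun i => φ i ω) H

/-- Remez inequality on the good set `G` for the laws given `Z`, for sets of mass at least `k0`. -/
def RG (P : FP Ω) (x : Ω → Fin d → ℝ) (Z : Ω → β) (G : Ω → Prop) (E C : ℕ) (Γ k0 : ℝ) : Prop :=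
  ∀ ω ∈ P.S, G ω → ∀ f, Pl x E f → ∀ θ κ : ℝ, k0 ≤ κ →
    κ ≤ pb (cv P Z (Z ω)) (fun v => G v ∧ |f v| ≤ θ) → |f ω| ≤ Γ * κ⁻¹ ^ (C * E) * θ

/-- All polynomials of degree at most `E` are bounded at `ω` by `L` times their mean. -/
def CG (P : FP Ω) (x : Ω → Fin d → ℝ) (E : ℕ) (L : ℝ) (ω : Ω) : Prop :=
  ∀ f, Pl x E f → |f ω| ≤ L * nu P f

end One

/-- The small scale `exp (-c M)`. -/
noncomputable def dl (M : ℕ → ℕ) (c : ℝ) (n : ℕ) : ℝ := Real.exp (-(c * M n))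

section Seq

variable {Ω β : ℕ → Type} {d : ℕ} (P : ∀ n, FP (Ω n)) (x : ∀ n, Ω n → Fin d → ℝ) (M : ℕ → ℕ)

/-- Remez inequality, linear in the degree, for sets of mass at least `exp (-K M)`. -/
def REM (Z : ∀ n, Ω n → β n) (C : ℕ) (K : ℝ) : Prop :=
  ∀ E, ∃ (G : ∀ n, Ω n → Prop) (Γ : ℕ → ℝ), Whp P G ∧ Sub M Γ ∧
    ∀ᶠ n in UF, RG (P n) (x n) (Z n) (G n) E C (Γ n) (dl M K n)

/-- There is no thin common function of the two kinds. -/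
def NL (Z : Bool → ∀ n, Ω n → β n) : Prop :=
  ∀ (E : ℕ) (c : ℝ) (F : Bool → ∀ n, β n → Ω n → ℝ), 0 < c → (∀ a n z, Pl (x n) E (F a n z)) →
    Whp P fun n ω => ¬(F true n (Z true n ω) = F false n (Z false n ω) ∧
      0 < nu (P n) (F true n (Z true n ω)) ∧
      |F true n (Z true n ω) ω| ≤ dl M c n * nu (P n) (F true n (Z true n ω)))

/-- One minimal cell. -/
structure Cell (Z : Bool → ∀ n, Ω n → β n) (C : ℕ) (K : ℝ) : Prop where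
  big : Big M
  pos : 0 < K
  rem : ∀ a, REM P x M (Z a) C K
  nl : NL P x M Z

/-- Normalised polynomial functions without approximate relation. -/
structure IND {σ : Type} (φ : ∀ n, σ → Ω n → ℝ) : Prop where
  pl : ∃ D, ∀ n i, Pl (x n) D (φ n i)
  le : ∀ n i, nu (P n) (φ n i) ≤ 1
  ind : ∀ (E : ℕ) (c : ℝ), 0 < c → ∀ᶠ n in UF, ∀ H : MvPolynomial σ ℝ, H.totalDegree ≤ E →
    ∀ m, dl M c n * |coeff m H| ≤ nu (P n) (ev (φ n) H)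

end Seq

/-! ### The residue field -/

/-- Sequences of size `exp (o(M))`. -/
def OB (M : ℕ → ℕ) (a : ℕ → ℝ) : Prop := ∀ c : ℝ, 0 < c → ∀ᶠ n in UF, |a n| ≤ (dl M c n)⁻¹

/-- Power small sequences. -/
def OS (M : ℕ → ℕ) (a : ℕ → ℝ) : Prop := ∃ c : ℝ, 0 < c ∧ ∀ᶠ n in UF, |a n| ≤ dl M c n

/-! ### Statements without probability -/

/-- Bezout relation that eliminates one variable. -/
def Alg1 : Prop := ∀ (k : Type) [Field k] (i : ℕ) (H H' : MvPolynomial (Fin (i + 1)) k)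
  (m : Fin (i + 1) →₀ ℕ), coeff m H = 1 → coeff m H' = 1 → 0 < H.totalDegree →
  H'.totalDegree ≤ H.totalDegree →
  (∀ A B, H = A * B → H.totalDegree ≤ A.totalDegree ∨ H.totalDegree ≤ B.totalDegree) →
  H' = H ∨ ∃ (j : Fin (i + 1)) (A B : MvPolynomial (Fin (i + 1)) k) (R : MvPolynomial (Fin i) k),
    R ≠ 0 ∧ A * H + B * H' = rename j.succAbove R

/-- A relation of minimal degree. -/
def Alg2 : Prop := ∀ (R : Type) [CommRing R] [IsDomain R] [CharZero R] (J : Ideal (Polynomial R)),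
  J.IsPrime → J ≠ ⊥ → (∀ r, Polynomial.C r ∈ J → r = 0) →
  ∃ p ∈ J, Polynomial.derivative p ∉ J ∧ (Polynomial.X ∉ J → p.coeff 0 ≠ 0)

/-- Newton iteration. -/
def Hens : Prop := ∀ (R σ : Type) [CommRing R] (q : Polynomial (MvPolynomial σ R)) (t0 v : R),
  v * (Polynomial.derivative (q.map (eval 0))).eval t0 = 1 → (q.map (eval 0)).eval t0 = 0 →
  ∀ j : ℕ, ∃ ψ : MvPolynomial σ R, ∀ (I : Ideal R) (h : σ → R) (t : R), (∀ i, h i ∈ I) →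
    (∀ k, IsUnit (1 + k * (t - t0))) → (q.map (eval h)).eval t = 0 →
    t - eval h ψ ∈ I ^ (j + 1)

/-- A combination without low order terms. -/
def Jet : Prop := ∀ (k L N : ℕ) (ψ : Fin N → MvPolynomial (Fin k) ℝ), (L + 1) ^ k < N →
  ∃ c : Fin N → ℝ, (∀ a, |c a| ≤ 1) ∧ (∃ a, c a = 1) ∧
    ∀ m : Fin k →₀ ℕ, (m.sum fun _ e => e) ≤ L → ∑ a, c a * coeff m (ψ a) = 0

/-- Orthonormal combinations of independent functions. -/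
def Onb : Prop := ∀ (Ω : Type) (P : FP Ω) (N : ℕ) (v : Fin N → Ω → ℝ),
  (∀ c : Fin N → ℝ, c ≠ 0 → 0 < nu P fun ω => ∑ a, c a * v a ω) →
  ∃ A : Fin N → Fin N → ℝ, ∀ c : Fin N → ℝ,
    nu P (fun ω => ∑ a, c a * ∑ a', A a a' * v a' ω) = √(∑ a, c a ^ 2)

/-- The inequality of Chebyshev, for all polynomials at once. -/
def Cheb : Prop := ∀ (Ω : Type) (P : FP Ω) (d E : ℕ) (x : Ω → Fin d → ℝ) (L : ℝ), 0 < L →
  pb P (fun ω => ¬CG P x E L ω) ≤ (E + 1) ^ d / L ^ 2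

/-- More than `d` polynomials in `d` variables are dependent. -/
def Dep : Prop := ∀ d D : ℕ, ∃ E : ℕ, ∀ (Ω : Type) (x : Ω → Fin d → ℝ) (ψ : Fin (d + 1) → Ω → ℝ),
  (∀ i, Pl x D (ψ i)) → ∃ (H : MvPolynomial (Fin (d + 1)) ℝ) (m : Fin (d + 1) →₀ ℕ),
    H.totalDegree ≤ E ∧ coeff m H = 1 ∧ ∀ ω, ev ψ H ω = 0

/-- Two typical sets overlap. -/
def Ovl : Prop := ∀ (Ω T : Type) (Q : FP Ω) (μ : FP T) (g : Ω → Prop) (S : Ω → T → Prop) (κ : ℝ),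
  0 < κ → (∀ ω ∈ Q.S, g ω → κ ≤ pb μ (S ω)) → (∃ ω ∈ Q.S, g ω) → ∃ ω' ∈ Q.S, g ω' ∧
    κ ^ 2 / 2 * pb Q g ≤ pb Q fun ω => g ω ∧ κ ^ 2 / 2 ≤ pb μ fun t => S ω t ∧ S ω' t

/-- Rounding makes close vectors equal. -/
def Rnd : Prop := ∀ (Ω β β' : ℕ → Type) (P : ∀ n, FP (Ω n)) (Z : ∀ n, Ω n → β n)
  (Z' : ∀ n, Ω n → β' n) (J : Type) (T : Finset J) (u : ∀ n, β n → J → ℝ) (u' : ∀ n, β' n → J → ℝ)
  (s : ℕ → ℝ) (A : ∀ n, Ω n → Prop), (∀ n, 0 < s n) →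
  Pos P (fun n ω => A n ω ∧ ∀ j ∈ T, |u n (Z n ω) j - u' n (Z' n ω) j| ≤ s n) →
  ∃ (r : ∀ n, β n → J → ℝ) (r' : ∀ n, β' n → J → ℝ), (∀ n z j, |r n z j - u n z j| ≤ 4 * s n) ∧
    Pos P fun n ω => A n ω ∧ ∀ j ∈ T, r n (Z n ω) j = r' n (Z' n ω) j

/-! ### The results -/

/-- One more independent function in a large space. -/
def Ext : Prop := ∀ (Ω β : ℕ → Type) (d C k E N : ℕ) (K : ℝ) (P : ∀ n, FP (Ω n))
  (x : ∀ n, Ω n → Fin d → ℝ) (M : ℕ → ℕ) (Z : Bool → ∀ n, Ω n → β n)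
  (φ : ∀ n, Fin k → Ω n → ℝ) (v : ∀ n, Fin N → Ω n → ℝ), Cell P x M Z C K → IND P x M φ →
  (∀ n a, Pl (x n) E (v n a)) →
  (∀ᶠ n in UF, ∀ c : Fin N → ℝ, c ≠ 0 → 0 < nu (P n) fun ω => ∑ a, c a * v n a ω) →
  ((k + 1) * C * E * k + 1) ^ k < N → ∃ c : ℕ → Fin N → ℝ,
    IND P x M fun n => (Fin.cons (fun ω => ∑ a, c n a * v n a ω) (φ n) : Fin (k + 1) → Ω n → ℝ)

/-- A triangular frame of uniformly bounded degree in any independent coordinates `y`. -/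
def UD : Prop := ∀ d C D i : ℕ, ∃ D0 : ℕ, ∀ (Ω β : ℕ → Type) (K : ℝ) (P : ∀ n, FP (Ω n))
  (x : ∀ n, Ω n → Fin d → ℝ) (M : ℕ → ℕ) (Z : Bool → ∀ n, Ω n → β n) (y : ∀ n, Fin i → Ω n → ℝ),
  Cell P x M Z C K → (∀ n j, Pl (x n) D (y n j)) →
  (∀ E, ∀ᶠ n in UF, ∀ H : MvPolynomial (Fin i) ℝ, H ≠ 0 → H.totalDegree ≤ E →
    0 < nu (P n) (ev (y n) H)) →
  ∃ Φ : ℕ → Fin i → MvPolynomial (Fin i) ℝ, (∀ n j, (Φ n j).totalDegree ≤ D0 ∧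
    ∀ l ∈ (Φ n j).vars, l ≤ j) ∧ IND P x M fun n j => ev (y n) (Φ n j)

/-- A minimal cell satisfies the Remez inequality. -/
def RemC : Prop := ∀ (Ω β : ℕ → Type) (d C : ℕ) (K K' : ℝ) (P : ∀ n, FP (Ω n))
  (x : ∀ n, Ω n → Fin d → ℝ) (M : ℕ → ℕ) (Z : Bool → ∀ n, Ω n → β n), Cell P x M Z C K → K' < K →
  REM P x M (fun _ _ => ()) ((d + 1) * C) K'

end Pool.Agent.MP_5168f5_an.AN.G39
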