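import Pool.Agent.MP_5168f5_an.AN.G39Hj

/-! One more independent function in a large space. -/

namespace Pool.Agent.MP_5168f5_an.AN.G39

open H19 H17S H17F Filter MvPolynomial

variable {Ω β : ℕ → Type} {d C : ℕ} {P : ∀ n, FP (Ω n)} {x : ∀ n, Ω n → Fin d → ℝ} {M : ℕ → ℕ}
  {Z : Bool → ∀ n, Ω n → β n} {K : ℝ} {E : ℕ}

theorem Cell.fw (h : Cell P x M Z C K) {k : ℕ} {φ : ∀ n, Fin k → Ω n → ℝ} (hφ : IND P x M φ)
    (V : ∀ n, (Ω n → ℝ) → Prop) (hV : ∀ n f, V n f → Pl (x n) E f ∧ nu (P n) f = 1)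
    (hn : ∀ f : ∀ n, Ω n → ℝ, (∀ n, V n (f n) ∨ f n = fun _ => 0) →
      ¬IND P x M fun n => (Fin.cons (f n) (φ n) : Fin (k + 1) → Ω n → ℝ)) :
    ∃ Γ, Sub M Γ ∧ ∀ c, 0 < c → ∃ G, Whp P G ∧ ∀ᶠ n in UF, ∀ f, V n f →
      ∀ (S : Ω n → Prop) (θ η : ℝ), dl M K n ≤ η → (∀ ω ∈ (P n).S, S ω → G n ω ∧ |f ω| ≤ θ) →
        8 * (k + 2) * η ≤ pb (P n) S → dl M c n < (Γ n * η⁻¹ ^ (C * E)) ^ (k + 1) * θ := by
  obtain ⟨G, Γ, a1, a2, a3⟩ := h.rem2 E
  refine ⟨Γ, a2, fun c hc => ⟨_, a1.and ((whp_esc (Z := Z) a1 (alt true (k + 1))).and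
    (h.gen' hφ (h.gen k φ hφ true) V hV hn hc one_half_pos)),
    a3.mono fun n u f hf S θ η h1 h2 h3 => ?_⟩⟩
  obtain ⟨ω, e1, e2, e3⟩ := fwd1 u (hV n f hf).1 ((dl_pos _ _ _).trans_le h1) h1 (alt true (k + 1))
    (S := S) (θ := θ) (fun ω e e' => ⟨(h2 ω e e').1.1, (h2 ω e e').2, (h2 ω e e').1.2.1⟩)
    (by rw [alt_length]; push_cast; linarith)
  rw [alt_length] at e3
  exact not_le.1 fun z => (((h2 ω e1 e2).1.2.2 f hf).trans_le e3).not_ge
    (tp_mono _ e1 fun v _ y => y.trans z)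

theorem Cell.big_of (h : Cell P x M Z C K) {f : ∀ n, Ω n → ℝ} (hf : ∀ n, Pl (x n) E (f n))
    (e : ¬OS M fun n => nu (P n) (f n)) {c : ℝ} (hc : 0 < c) :
    Whp P fun n ω => dl M c n < |f n ω| := by
  by_contra z
  exact e (h.os hf hc ((not_whp z).mono (Eventually.of_forall fun n ω _ => not_lt.1)))

theorem rExt : Ext := by
  intro Ω β d C k E N K P x M Z φ v h hφ hv hi hN
  by_contra hn
  have hM := h.big
  have hn1 : ∀ f : ∀ n, Ω n → ℝ, (∀ n, ∃ c : Fin N → ℝ, f n = fun ω => ∑ a, c a * v n a ω) →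
      ¬IND P x M fun n => (Fin.cons (f n) (φ n) : Fin (k + 1) → Ω n → ℝ) := fun f hf => by
    choose c hc using hf
    obtain rfl : f = _ := funext hc
    exact fun z => hn ⟨c, z⟩
  have hpl : ∀ n (c : Fin N → ℝ), Pl (x n) E fun ω => ∑ a, c a * v n a ω := fun n c =>
    pl_sum _ fun a _ => (hv n a).smul _
  obtain ⟨A, A1, A2⟩ : ∃ A : ℕ → Fin N → Fin N → ℝ,
      (∀ n a, nu (P n) (fun ω => ∑ a', A n a a' * v n a' ω) ≤ 1) ∧ ∀ᶠ n in UF, ∀ c : Fin N → ℝ,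
        nu (P n) (fun ω => ∑ a, c a * ∑ a', A n a a' * v n a' ω) = √(∑ a, c a ^ 2) := by
    have : ∀ n, ∃ A : Fin N → Fin N → ℝ, (∀ a, nu (P n) (fun ω => ∑ a', A a a' * v n a' ω) ≤ 1) ∧
        ((∀ c : Fin N → ℝ, c ≠ 0 → 0 < nu (P n) fun ω => ∑ a, c a * v n a ω) → ∀ c : Fin N → ℝ,
          nu (P n) (fun ω => ∑ a, c a * ∑ a', A a a' * v n a' ω) = √(∑ a, c a ^ 2)) := fun n => by
      by_cases e : ∀ c : Fin N → ℝ, c ≠ 0 → 0 < nu (P n) fun ω => ∑ a, c a * v n a ω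
      · obtain ⟨A, hA⟩ := rOnb _ _ _ _ e
        exact ⟨A, fun a => by simpa [Pi.single_apply] using (hA (Pi.single a 1)).le, fun _ => hA⟩
      · exact ⟨0, fun a => by simp [nu, FP.E_const], fun z => (e z).elim⟩
    choose A A1 A2 using this
    exact ⟨A, A1, hi.mono A2⟩
  set b : ∀ n, Fin N → Ω n → ℝ := fun n a ω => ∑ a', A n a a' * v n a' ω with hb
  have hb1 : ∀ a n, Pl (x n) E (b n a) := fun a n => hpl n _
  choose p p1 p2 _ using fun a => h.rel hφ (hb1 a) (fun n => A1 n a) (hn1 _ fun n => ⟨_, rfl⟩)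
  obtain ⟨D, hD⟩ := hφ.pl
  choose E1 hE1 using fun a => pl_pv (hM := hM) hD (hb1 a) (p a)
  choose E2 hE2 using fun a => pl_pv (hM := hM) hD (hb1 a) (p a).derivative
  choose c0 c1 c2 using fun a => (dom_id hM).small hM (hE1 a) (p1 a)
  obtain ⟨L0, l1, l2⟩ := KSA.wsub P (fun n ω L => ∀ a,
      L⁻¹ < |pv (φ n) (b n a) (tm hM n) (p a).derivative ω|) M fun c hc _ =>
    Whp.all fun a => (h.big_of (hE2 a) (p2 a) hc).mono (Eventually.of_forall fun n ω _ u => by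
      rwa [← dl_inv, inv_inv])
  obtain ⟨Γ, g1, g2⟩ := h.fw (E := E) hφ (fun n f => (∃ c : Fin N → ℝ,
    f = fun ω => ∑ a, c a * v n a ω) ∧ nu (P n) f = 1)
    (fun n f ⟨⟨c, e⟩, e'⟩ => ⟨e ▸ hpl n c, e'⟩) fun f hf => hn1 f fun n =>
      (hf n).elim And.left fun e => ⟨0, by simp [e]⟩
  set L := (k + 1) * C * E * k with hL
  obtain ⟨ρ, r0, r1, r2⟩ : ∃ ρ : ℝ, 0 < ρ ∧ (∀ a, (L + 1 : ℕ) * ρ ≤ c0 a) ∧ (k + 1) * ρ ≤ K := by
    have e := (Finset.lt_fold_min (s := Finset.univ) (f := c0) (b := 1) 0).2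
      ⟨one_pos, fun a _ => c1 a⟩
    have := h.pos
    refine ⟨min (Finset.univ.fold min 1 c0 / (L + 1 : ℕ)) (K / (k + 1)), by positivity,
      fun a => ?_, ?_⟩
    · rw [← le_div_iff₀' (by positivity)]
      exact (min_le_left _ _).trans (div_le_div_of_nonneg_right
        ((Finset.fold_min_le _).2 (Or.inr ⟨a, Finset.mem_univ _, le_rfl⟩)) (by positivity))
    · rw [← le_div_iff₀' (by positivity)]
      exact min_le_right _ _
  obtain ⟨ε, e0, e1⟩ : ∃ ε : ℝ, 0 < ε ∧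
      (1 + (k + 1) * (1 + C * E * (N + 1)) + (N + 1)) * ε = ρ / 2 :=
    ⟨ρ / 2 / (1 + (k + 1) * (1 + C * E * (N + 1)) + (N + 1)), by positivity,
      mul_div_cancel₀ _ (by positivity)⟩
  obtain ⟨G, G1, G2⟩ := g2 _ (half_pos r0)
  let G' : ∀ n, Ω n → Prop := fun n ω => G n ω ∧
    (∀ a, |pv (φ n) (b n a) (tm hM n) (p a) ω| ≤ dl M (c0 a) n) ∧
    (∀ a, (L0 n)⁻¹ < |pv (φ n) (b n a) (tm hM n) (p a).derivative ω|) ∧
    ∀ i, |Sum.elim (φ n) (b n) i ω| ≤ M n + 1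
  have hG : ∀ᶠ n in UF, 1 / 2 ≤ pb (P n) (G' n) := by
    have : Whp P G' := G1.and ((Whp.all c2).and (l2.and (((whp_CG (x := x) hM D).and
      (whp_CG (x := x) hM E)).mono (Eventually.of_forall fun n ω _ u i => ?_))))
    · filter_upwards [this _ one_half_pos] with n u
      rw [pb_not] at u
      linarith
    · rcases i with i | a
      · exact (u.1 _ (hD n i)).trans (mul_le_of_le_one_right (by positivity) (hφ.le n i))
      · exact (u.2 _ (hb1 a n)).trans (mul_le_of_le_one_right (by positivity) (A1 n a))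
  have hr : ∀ c, 0 < c → ∀ n, 0 < dl M c n ∧ dl M c n ≤ M n + 1 := fun c hc n => ⟨dl_pos _ _ _,
    ((dl_anti M hc.le n).trans_eq (dl_zero M n)).trans (le_add_of_nonneg_left (Nat.cast_nonneg _))⟩
  have := fun n => fp_ne (P n)
  choose w hw using fun n => exists_imp_of fun w : Ω n => G' n w ∧ pb (P n) (G' n) ≤
    (∏ i : Fin k ⊕ Fin N, 4 * (M n + 1 : ℝ) / Sum.elim (fun _ => dl M ρ n) (fun _ => dl M ε n) i) *
      pb (P n) fun ω => G' n ω ∧ ∀ i, |Sum.elim (φ n) (b n) i ω - Sum.elim (φ n) (b n) i w| ≤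
        Sum.elim (fun _ => dl M ρ n) (fun _ => dl M ε n) i
  have hw' := hG.mono fun n u => hw n (cls (P n) (G' n) _ _
    (fun i => by rcases i with i | i; exacts [hr ρ r0 n, hr ε e0 n]) (fun ω e => e.2.2.2)
    (one_half_pos.trans_le u))
  have ob : ∀ ω : ∀ n, Ω n, (∀ᶠ n in UF, G' n (ω n)) → ∀ i,
      (fun n => Sum.elim (φ n) (b n) i (ω n)) ∈ OO hM := fun ω e i =>
    ob_of_le (Sub.nat hM) (e.mono fun n u => u.2.2.2 i)
  have fi : ∀ (ω : ∀ n, Ω n) (e : ∀ᶠ n in UF, G' n (ω n)) a, (p a).eval₂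
      (eval fun i => ⟨_, ob ω e (.inl i)⟩) ⟨_, ob ω e (.inr a)⟩ ∈ FI hM ((L + 1 : ℕ) * ρ) :=
    fun ω e a => fi_of_le (e.mono fun n u => by
      rw [tm_eval]; exact (u.2.1 a).trans (dl_anti M (r1 a) n))
  have w1 := hw'.mono fun n u => u.1
  obtain ⟨c, d1, d2⟩ := hj hN ρ p _ _ (fi w w1) fun a ⟨c, hc, e⟩ => by
    obtain ⟨n, u1, u2, u3⟩ := (e.and (w1.and (sub_dl l1 hc))).exists
    rw [tm_eval] at u1
    exact ((u2.2.2.1 a).trans_le u1).not_ge (le_inv_of_le_inv₀ (l1.pos n) u3)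
  let S : ∀ n, Ω n → Prop := fun n ω => G' n ω ∧ ∀ i,
    |Sum.elim (φ n) (b n) i ω - Sum.elim (φ n) (b n) i (w n)| ≤
      Sum.elim (fun _ => dl M ρ n) (fun _ => dl M ε n) i
  have d3 := R4.unif (h := S)
    (p := fun n ω => |∑ a, c n a * b n a ω| ≤ dl M ((L + 1 : ℕ) * ρ - ε) n) fun ω e =>
    d2 _ _ (fun i => fi_of_le (e.mono fun n u => u.2 (.inl i)))
      (fun a => ⟨ε, e0, e.mono fun n u => u.2 (.inr a)⟩) (fi ω (e.mono fun n u => u.1)) ε e0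
  have s1 := sub_dl ((((Sub.nat hM).const_mul hM (C := 4) (by norm_num)).pow (k + N)).const_mul hM
    (C := 16 * (k + 2)) (by linarith [Nat.cast_nonneg (α := ℝ) k])) e0
  obtain ⟨n, u1, u2, u3, u4, u5, u6, u7⟩ :=
    (G2.and (hG.and (hw'.and (d3.and (s1.and ((sub_dl g1 e0).and A2)))))).exists
  have n1 : 1 ≤ √(∑ a, c n a ^ 2) := by
    obtain ⟨a, ha⟩ := (d1 n).2
    exact Real.one_le_sqrt.2 (le_trans (by simp [ha]) (Finset.single_le_sum
      (fun a _ => sq_nonneg (c n a)) (Finset.mem_univ a)))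
  have n2 := one_pos.trans_le n1
  have q0 : (0 : ℝ) ≤ (k + 1) * (1 + C * E * (N + 1)) * ε := by positivity
  have := u1 (fun ω => (√(∑ a, c n a ^ 2))⁻¹ * ∑ a, c n a * b n a ω)
    ⟨⟨fun a' => (√(∑ a, c n a ^ 2))⁻¹ * ∑ a, c n a * A n a a', funext fun ω => by
      simp only [hb, Finset.mul_sum, Finset.sum_mul, mul_assoc]; exact Finset.sum_comm⟩, by
      rw [nu_smul, u7, abs_of_pos (inv_pos.2 n2), inv_mul_cancel₀ n2.ne']⟩ (S n)
    (dl M ((L + 1 : ℕ) * ρ - ε) n) (dl M (k * ρ + N * ε + ε) n) (dl_anti M (by linarith) n)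
    (fun ω _ e => ⟨e.1.1, by
      rw [abs_mul, abs_of_pos (inv_pos.2 n2)]
      exact (mul_le_of_le_one_left (abs_nonneg _) (inv_le_one_of_one_le₀ n1)).trans (u4 ω e)⟩) (by
      have z := u2.trans u3.2
      simp only [Fintype.prod_sum_type, Sum.elim_inl, Sum.elim_inr, Finset.prod_const,
        Finset.card_univ, Fintype.card_fin, div_pow, dl_pow, div_mul_div_comm, ← pow_add,
        ← dl_add] at z
      rw [div_mul_eq_mul_div, le_div_iff₀ (dl_pos _ _ _)] at z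
      rw [le_inv_comm₀ (by positivity) (dl_pos _ _ _), ← one_div, le_div_iff₀ (by positivity)] at u5
      have y : (0 : ℝ) < (4 * (M n + 1)) ^ (k + N) := by positivity
      rw [dl_add]
      refine le_of_mul_le_mul_left (le_trans ?_ z) y
      nlinarith [dl_pos M (k * ρ + N * ε) n])
  refine this.not_ge ((mul_le_mul_of_nonneg_right (pow_le_pow_left₀
    (mul_nonneg (g1.pos n).le (pow_nonneg (inv_pos.2 (dl_pos _ _ _)).le _))
    (mul_le_mul_of_nonneg_right u6 (pow_nonneg (inv_pos.2 (dl_pos _ _ _)).le _)) _)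
    (dl_pos _ _ _).le).trans ?_)
  simp only [dl_neg, dl_pow, ← dl_add]
  refine dl_anti M ?_ n
  rw [hL]
  push_cast
  nlinarith [show (0 : ℝ) ≤ (N + 1) * ε by positivity]

end Pool.Agent.MP_5168f5_an.AN.G39
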