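import Pool.Agent.MP_5168f5_an.AN.G39Val
import Pool.Agent.MP_5168f5_an.AN.G39Alg
import Pool.Agent.MP_5168f5_an.AN.G39Ovl

/-! The end point of a short chain is generic. -/

namespace Pool.Agent.MP_5168f5_an.AN.G39

open H19 H17S H17F Filter MvPolynomial

variable {M : ℕ → ℕ} {hM : Big M} {σ : Type} {T : ℕ → Type} {μ : ∀ n, FP (T n)}

theorem pos_ex {J : Type} [Finite J] {A : J → ∀ n, T n → Prop} (h : Pos μ fun n t => ∃ j, A j n t) :
    ∃ j, Pos μ (A j) := by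
  obtain ⟨_, _, -, j, -⟩ := h.ex.exists
  have : Nonempty J := ⟨j⟩
  choose ι hι using fun n t => exists_imp_of fun j => A j n t
  obtain ⟨j, e⟩ := R4.ks.pig μ _ ι h
  exact ⟨j, e.mono (Eventually.of_forall fun n t _ k => k.2 ▸ hι n t k.1)⟩

theorem pos_cE {A : ∀ n, T n → Prop} (h : Pos μ A) {f : BB (fun n => cE (μ n) (A n)) hM}
    (e : f ∈ NN _ hM) : ∃ c, 0 < c ∧ Pos μ fun n t => |f.1 n t| ≤ dl M c n :=
  e.imp fun _ u => ⟨u.1, (h.of_cE u.2.pos).mono (Eventually.of_forall fun _ _ _ k => k.2)⟩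

theorem nn_cE {A : ∀ n, T n → Prop} (h : Pos μ A) {f : BB (fun n => cE (μ n) (A n)) hM} {c : ℝ}
    (hc : 0 < c) (e : ∀ᶠ n in UF, ∀ t, A n t → |f.1 n t| ≤ dl M c n) : f ∈ NN _ hM :=
  ⟨c, hc, Whp.of_ev (by filter_upwards [h.sure, e] with n u v t ht using v t (u t ht).2)⟩

theorem irr {φ : ∀ n, σ → T n → ℝ} (hb : ∀ i, (fun n => φ n i) ∈ BB μ hM) {E : ℕ}
    (h : ∀ E' < E, NB μ M φ E') {Q : MvPolynomial σ (OO hM)} (h0 : map (rd hM) Q ≠ 0) {c : ℝ}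
    (hc : 0 < c) (hp : Pos μ fun n t => |ev (φ n) (map (tm hM n) Q) t| ≤ dl M c n)
    (A B : MvPolynomial σ (kk hM)) (e : map (rd hM) Q = A * B) :
    E ≤ A.totalDegree ∨ E ≤ B.totalDegree := by
  by_contra k
  push Not at k
  obtain ⟨A', a1, rfl⟩ := lift_rd A
  obtain ⟨B', b1, rfl⟩ := lift_rd B
  let ψ : σ → BB (fun n => cE (μ n) fun t => |ev (φ n) (map (tm hM n) Q) t| ≤ dl M c n) hM :=
    fun i => ⟨_, fun c hc => (hb i c hc).cE hp⟩
  have h1 : evB ψ Q ∈ NN _ hM :=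
    nn_cE hp hc (Eventually.of_forall fun n t u => by rw [evB_apply]; exact u)
  have h2 : evB ψ (A' * B' - Q) ∈ NN _ hM := evB_ker ψ (by rw [map_sub, map_mul, e, sub_self])
  obtain ⟨c', hc', u⟩ := pos_cE hp (Ideal.add_mem _ h2 h1)
  rw [← map_add, sub_add_cancel] at u
  have h3 : Pos μ fun n t => |ev (φ n) (map (tm hM n) A') t| ≤ dl M (c' / 2) n ∨
      |ev (φ n) (map (tm hM n) B') t| ≤ dl M (c' / 2) n := u.mono (Eventually.of_forall
    fun n t _ v => by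
      by_contra z
      push Not at z
      rw [evB_apply, map_mul, ev, map_mul, abs_mul, dl_half] at v
      exact absurd v (not_le.2 (mul_lt_mul'' z.1 z.2 (dl_pos _ _ _).le (dl_pos _ _ _).le)))
  rw [e] at h0
  rcases pos_or h3 with v | v
  · exact (h _ k.1).not_pos a1 (left_ne_zero_of_mul h0) (half_pos hc') v
  · exact (h _ k.2).not_pos b1 (right_ne_zero_of_mul h0) (half_pos hc') v

theorem no_bez {i : ℕ} {φ : ∀ n, Fin (i + 1) → T n → ℝ} (hb : ∀ i, (fun n => φ n i) ∈ BB μ hM)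
    {j : Fin (i + 1)} (h : ∀ E, NB μ M (fun n l => φ n (j.succAbove l)) E)
    {Q Q' : MvPolynomial (Fin (i + 1)) (OO hM)} {c : ℝ} (hc : 0 < c)
    (hp : Pos μ fun n t => |ev (φ n) (map (tm hM n) Q) t| ≤ dl M c n ∧
      |ev (φ n) (map (tm hM n) Q') t| ≤ dl M c n) {A B : MvPolynomial (Fin (i + 1)) (kk hM)}
    {R : MvPolynomial (Fin i) (kk hM)}
    (e : A * map (rd hM) Q + B * map (rd hM) Q' = rename j.succAbove R) : R = 0 := by
  by_contra k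
  obtain ⟨A', -, rfl⟩ := lift_rd A
  obtain ⟨B', -, rfl⟩ := lift_rd B
  obtain ⟨R', -, rfl⟩ := lift_rd R
  let ψ : Fin (i + 1) → BB (fun n => cE (μ n) fun t => |ev (φ n) (map (tm hM n) Q) t| ≤ dl M c n ∧
    |ev (φ n) (map (tm hM n) Q') t| ≤ dl M c n) hM := fun i => ⟨_, fun c hc => (hb i c hc).cE hp⟩
  have h1 : evB ψ Q ∈ NN _ hM :=
    nn_cE hp hc (Eventually.of_forall fun n t u => by rw [evB_apply]; exact u.1)
  have h1' : evB ψ Q' ∈ NN _ hM :=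
    nn_cE hp hc (Eventually.of_forall fun n t u => by rw [evB_apply]; exact u.2)
  have h2 : evB ψ (rename j.succAbove R' - (A' * Q + B' * Q')) ∈ NN _ hM :=
    evB_ker ψ (by rw [map_sub, map_add, map_mul, map_mul, e, map_rename, sub_self])
  obtain ⟨c', hc', u⟩ := pos_cE hp (Ideal.add_mem _ h2 (Ideal.add_mem _
    (Ideal.mul_mem_left _ (evB ψ A') h1) (Ideal.mul_mem_left _ (evB ψ B') h1')))
  rw [← map_mul, ← map_mul, ← map_add, ← map_add, sub_add_cancel] at u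
  refine (h _).not_pos le_rfl k hc' (u.mono (Eventually.of_forall fun n t _ v => ?_))
  rwa [evB_apply, map_rename, ev_rename] at v

theorem ev_le {Ω : Type} [Finite σ] {φ : σ → Ω → ℝ} {H : MvPolynomial σ ℝ} {E : ℕ} {s L : ℝ} {ω : Ω}
    (h : H.totalDegree ≤ E) (hs : ∀ m, |coeff m H| ≤ s) (hL : 1 ≤ L) (hφ : ∀ i, |φ i ω| ≤ L) :
    |ev φ H ω| ≤ (TT σ E).card * (s * L ^ E) := by
  have h0 := (abs_nonneg _).trans (hs 0)
  rw [ev, eval_eq]
  refine (Finset.abs_sum_le_sum_abs _ _).trans ((Finset.sum_le_card_nsmul _ _ (s * L ^ E)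
    fun m hm => ?_).trans ?_)
  · rw [abs_mul, Finset.abs_prod]
    refine mul_le_mul (hs m) ((Finset.prod_le_prod (fun _ _ => abs_nonneg _) fun i _ =>
      (abs_pow _ _).trans_le (pow_le_pow_left₀ (abs_nonneg _) (hφ i) _)).trans ?_) (by positivity) h0
    rw [Finset.prod_pow_eq_pow_sum]
    exact pow_le_pow_right₀ hL ((le_totalDegree hm).trans h)
  · rw [nsmul_eq_mul]
    exact mul_le_mul_of_nonneg_right (Nat.cast_le.2 (Finset.card_le_card fun m hm =>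
      mem_TT.2 ((le_totalDegree hm).trans h))) (by positivity)

variable {Ω β : ℕ → Type} {d C : ℕ} {P : ∀ n, FP (Ω n)} {x : ∀ n, Ω n → Fin d → ℝ}
  {Z : Bool → ∀ n, Ω n → β n} {K : ℝ}

/-- A relation at the end of the chain from `ω`. -/
def BadW (P : ∀ n, FP (Ω n)) (Z : Bool → ∀ n, Ω n → β n) (w : List Bool) (φ : ∀ n, σ → Ω n → ℝ)
    (E : ℕ) (s κ : ℝ) (n : ℕ) (ω : Ω n) : Prop :=
  Bad (ker (P n) (fun a => Z a n) w ω) (fun i t => φ n i (en w ω t)) E s κ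

/-- Relations of degree `E` at the end of the chain are rare. -/
def Gen (P : ∀ n, FP (Ω n)) (Z : Bool → ∀ n, Ω n → β n) (M : ℕ → ℕ) (w : List Bool)
    (φ : ∀ n, σ → Ω n → ℝ) (E : ℕ) : Prop :=
  ∀ c κ : ℝ, 0 < c → 0 < κ → Whp P fun n ω => ¬BadW P Z w φ E (dl M c n) κ n ω

theorem good_dom (hM : Big M) (P : ∀ n, FP (Ω n)) (x : ∀ n, Ω n → Fin d → ℝ)
    (Z : Bool → ∀ n, Ω n → β n) (w : List Bool) : ∃ G, Whp P G ∧ ∀ ω : ∀ n, Ω n,
    (∀ᶠ n in UF, G n (ω n)) →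
      Dom P x M (fun n => ker (P n) (fun a => Z a n) w (ω n)) fun n => en w (ω n) := by
  obtain ⟨k, hk, e⟩ := whp_diag fun j : ℕ =>
    whp_tp (Z := Z) (whp_CG (P := P) (x := x) hM j) w (η := 1 / (j + 1 : ℝ)) (by positivity)
  refine ⟨_, e, fun ω h E ε hε => ?_⟩
  filter_upwards [h, R4.K31.small hε hk, hk.ev E] with n a b c
  exact ((pb_mono fun t _ u v => u (v.mono (by exact_mod_cast c))).trans (a _ le_rfl)).trans b

theorem good_nb {w : List Bool} {φ : ∀ n, σ → Ω n → ℝ} (A : ℕ → Prop)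
    (h : ∀ E, A E → Gen P Z M w φ E) : ∃ G, Whp P G ∧ ∀ ω : ∀ n, Ω n, (∀ᶠ n in UF, G n (ω n)) →
      ∀ E, A E → NB (fun n => ker (P n) (fun a => Z a n) w (ω n)) M
        (fun n i t => φ n i (en w (ω n) t)) E := by
  obtain ⟨k, hk, e⟩ := whp_diag (P := P) (G := fun j n ω => ∀ E : Fin (j + 1), A E →
      ¬BadW P Z w φ E (dl M (1 / (j + 1 : ℝ)) n) (1 / (j + 1 : ℝ)) n ω) fun j => Whp.all fun E => by
    by_cases a : A E
    · exact (h E a _ _ (by positivity) (by positivity)).mono (Eventually.of_forall fun _ _ _ u _ => u)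
    · exact Whp.of_ev (Eventually.of_forall fun _ _ _ u => absurd u a)
  refine ⟨_, e, fun ω h E a c κ hc hκ => ?_⟩
  filter_upwards [h, R4.K31.small hc hk, R4.K31.small hκ hk, hk.ev E] with n u v v' z y
  exact u _ le_rfl ⟨E, Nat.lt_succ_of_le (by exact_mod_cast z)⟩ a (y.mono le_rfl (dl_anti M v n) v')

theorem Cell.nl' (h : Cell P x M Z C K) (a : Bool) {E : ℕ} {c : ℝ} (hc : 0 < c)
    {F F' : ∀ n, β n → Ω n → ℝ} (h1 : ∀ n z, Pl (x n) E (F n z)) (h2 : ∀ n z, Pl (x n) E (F' n z)) :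
    Whp P fun n ω => ¬(F n (Z a n ω) = F' n (Z (!a) n ω) ∧ 0 < nu (P n) (F n (Z a n ω)) ∧
      |F n (Z a n ω) ω| ≤ dl M c n * nu (P n) (F n (Z a n ω))) := by
  cases a
  · exact (h.nl E c (fun s => cond s F' F) hc fun s => by cases s <;> assumption).mono
      (Eventually.of_forall fun n ω _ u v => u ⟨v.1.symm, by
        have := v.2
        rw [v.1] at this
        exact this⟩)
  · exact h.nl E c (fun s => cond s F F') hc fun s => by cases s <;> assumption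

theorem fp_ne {Ω : Type} (P : FP Ω) : Nonempty Ω := by
  by_contra k
  have := P.sum_one
  rw [Finset.sum_eq_zero fun a _ => (k ⟨a⟩).elim] at this
  exact zero_ne_one this

theorem ovl2 {Ω β T : Type} (P : FP Ω) (Y : Ω → β) (μ : β → FP T) (g : Ω → Prop) (S : Ω → T → Prop)
    {κ : ℝ} (hκ : 0 < κ) (h : ∀ ω ∈ P.S, g ω → κ ≤ pb (μ (Y ω)) (S ω)) : ∃ r : β → Ω,
    κ ^ 2 / 2 * pb P g ≤ pb P fun ω => g ω ∧ g (r (Y ω)) ∧
      κ ^ 2 / 2 ≤ pb (μ (Y ω)) fun t => S ω t ∧ S (r (Y ω)) t := by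
  have := fp_ne P
  choose r hr using fun z => exists_imp_of fun ω' => g ω' ∧ κ ^ 2 / 2 * pb (cv P Y z) g ≤
    pb (cv P Y z) fun ω => g ω ∧ κ ^ 2 / 2 ≤ pb (μ z) fun t => S ω t ∧ S ω' t
  refine ⟨r, ?_⟩
  rw [pb_ind, pb_ind, KEA.exp P Y fun _ ω => ind (g ω), KEA.exp P Y fun z ω =>
    ind (g ω ∧ g (r z) ∧ κ ^ 2 / 2 ≤ pb (μ z) fun t => S ω t ∧ S (r z) t), ← P.E_mul]
  refine P.E_mono fun a ha => ?_
  by_cases e : ∃ ω ∈ (cv P Y (Y a)).S, g ω
  · obtain ⟨ω', -, u⟩ := rOvl _ _ _ (μ (Y a)) g S κ hκ (fun ω hω k => by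
      have := (mem_cE (E := fun v => Y v = Y a) ⟨a, ha, rfl⟩ ω).1 hω
      exact this.2 ▸ h ω this.1 k) e
    have := hr _ ⟨ω', u⟩
    exact this.2.trans (pb_mono fun ω _ k => ⟨k.1, this.1, k.2⟩)
  · rw [← pb_ind, pb_zero fun ω hω k => e ⟨ω, hω, k⟩, mul_zero]
    exact FP.E_nonneg _ fun _ _ => ind_nn _

theorem fin_num {q Γ t Lp A B s0 s2 ν : ℝ} (hq : 0 < q) (hΓ : 0 ≤ Γ) (ht : 0 ≤ t) (hL : 0 ≤ Lp)
    (h1 : |A - B| ≤ t * (4 * s2 * Lp)) (h2 : |B| ≤ Γ * s0) (h3 : s0 ≤ q ^ 3) (h4 : s2 ≤ q ^ 3)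
    (h5 : 2 * (Γ + (t + 1) * (4 * Lp)) ≤ q⁻¹) (h6 : q / 2 ≤ ν) : |A| ≤ q * ν := by
  have a1 : t * (4 * s2 * Lp) ≤ (t + 1) * (4 * q ^ 3 * Lp) :=
    le_trans (by gcongr) (mul_le_mul_of_nonneg_right (lt_add_one t).le (by positivity))
  have a2 : Γ * s0 ≤ Γ * q ^ 3 := by gcongr
  have a3 := mul_le_mul_of_nonneg_right h5 (pow_pos hq 3).le
  have a4 : q⁻¹ * q ^ 3 = q * q := by field_simp
  have a5 := abs_add_le (A - B) B
  rw [sub_add_cancel] at a5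
  nlinarith

theorem Cell.gen_step (h : Cell P x M Z C K) {i : ℕ} {φ : ∀ n, Fin (i + 1) → Ω n → ℝ}
    (hφ : IND P x M φ) (a : Bool) (w : List Bool)
    (ih : ∀ (j : Fin (i + 1)) E, Gen P Z M ((!a) :: w) (fun n l => φ n (j.succAbove l)) E) (E : ℕ) :
    Gen P Z M (a :: (!a) :: w) φ E := by
  classical
  induction E using Nat.strong_induction_on with | _ E IH => ?_
  intro c0 κ hc0 hκ
  have hM := h.big
  rcases E.eq_zero_or_pos with rfl | hE
  · exact Whp.of_ev ((dl_lt hM one_pos hc0).mono fun n u _ _ => not_bad0 u hκ)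
  by_contra k
  obtain ⟨D, hD⟩ := hφ.pl
  let B : ∀ n, β n → (Fin (i + 1) →₀ ℕ) → MvPolynomial (Fin (i + 1)) ℝ → Prop := fun n z m H =>
    Nm E m H ∧ κ ≤ (cv (P n) (Z a n) z).E
      (tp (P n) (fun a => Z a n) ((!a) :: w) fun v => |ev (φ n) H v| ≤ dl M c0 n)
  obtain ⟨⟨m, hm⟩, p1⟩ := pos_ex (J := TT (Fin (i + 1)) E)
    (A := fun m n ω => ∃ H, B n (Z a n ω) m H) ((not_whp k).mono (Eventually.of_forall
      fun n ω _ u => by
        obtain ⟨m, hm, H, u1, u2⟩ := (not_not.1 u).nm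
        exact ⟨⟨m, hm⟩, H, u1, u2.trans_eq (tp_cons (P n) (fun a => Z a n) a _
          (fun v => |ev (φ n) H v| ≤ dl M c0 n) ω)⟩))
  choose H hH using fun n z => exists_imp_of (B n z m)
  let S : ∀ n, Ω n → Ω n → Prop := fun n ω v => |ev (φ n) (H n (Z a n ω)) v| ≤ dl M c0 n
  have p2 : Pos P fun n ω => B n (Z a n ω) m (H n (Z a n ω)) ∧
      κ / 2 ≤ tp (P n) (fun a => Z a n) ((!a) :: w) (S n ω) ω := by
    obtain ⟨p, hp, e⟩ := p1
    refine ⟨κ / 2 * p, by positivity, e.mono fun n u => ?_⟩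
    refine (mul_le_mul_of_nonneg_left (u.trans (pb_mono fun ω _ => hH n _)) (half_pos hκ).le).trans
      (pb_fib (P n) (Z a n) (fun z => B n z m (H n z)) (fun z ω => κ / 2 ≤ tp (P n) (fun a => Z a n)
        ((!a) :: w) (fun v => |ev (φ n) (H n z) v| ≤ dl M c0 n) ω) fun ω _ v => ?_)
    exact rev_markov _ (fun _ _ => pb_le_one _ _) hκ.le v.2
  obtain ⟨G1, g1, g1'⟩ := good_dom hM P x Z (a :: (!a) :: w)
  obtain ⟨G2, g2, g2'⟩ := good_nb (· < E) IH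
  obtain ⟨G3, g3, g3'⟩ := good_dom hM P x Z ((!a) :: w)
  choose G4 g4 g4' using fun j => good_nb (fun _ => True) fun E _ => ih j E
  obtain ⟨Γ, g5, g5'⟩ := h.back (E * D) ((!a) :: w) _ (half_pos hκ)
  obtain ⟨p, hp, p3⟩ := p2.and ((g1.and (g2.and (g3.and (Whp.all g4)))).and
    (g5'.and (whp_CG (x := x) hM D)))
  choose r hr using fun n => ovl2 (P n) (Z (!a) n)
    (fun z => H17F.bind (cv (P n) (Z (!a) n) z) (ker (P n) (fun a => Z a n) w)) _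
    (fun ω t => S n ω (en w t.1 t.2)) (half_pos hκ) fun ω _ (u : (B n (Z a n ω) m (H n (Z a n ω)) ∧
      κ / 2 ≤ tp (P n) (fun a => Z a n) ((!a) :: w) (S n ω) ω) ∧ (G1 n ω ∧ G2 n ω ∧ G3 n ω ∧
      ∀ j, G4 j n ω) ∧ (∀ f, Pl (x n) (E * D) f → ∀ θ : ℝ, κ / 2 ≤ tp (P n) (fun a => Z a n)
        ((!a) :: w) (fun v => |f v| ≤ θ) ω → |f ω| ≤ Γ n * θ) ∧
      CG (P n) (x n) D (M n + 1) ω) => u.1.2
  have p4 : Pos P _ := ⟨(κ / 2) ^ 2 / 2 * p, by positivity, p3.mono fun n u =>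
    (mul_le_mul_of_nonneg_left u (by positivity)).trans (hr n)⟩
  have : ∀ n, Nonempty (Ω n × Ω n) := fun n => (fp_ne (P n)).elim fun v => ⟨(v, v)⟩
  obtain ⟨c2, hc2, e2⟩ := unifC (A := fun n => Ω n × Ω n) (h := fun n v =>
      B n (Z a n v.1) m (H n (Z a n v.1)) ∧ (G1 n v.1 ∧ G2 n v.1 ∧ G3 n v.1 ∧ ∀ j, G4 j n v.1) ∧
      Nm E m (H n (Z a n v.2)) ∧ (κ / 2) ^ 2 / 2 ≤ pb (ker (P n) (fun a => Z a n) ((!a) :: w) v.1)
        fun t => S n v.1 (en ((!a) :: w) v.1 t) ∧ S n v.2 (en ((!a) :: w) v.1 t))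
      (p := fun c n v => ∀ m' ∈ TT (Fin (i + 1)) E,
        |coeff m' (H n (Z a n v.1)) - coeff m' (H n (Z a n v.2))| ≤ dl M c n)
      (fun c c' n v e u m' hm' => (u m' hm').trans (dl_anti M e n)) fun v hv => by
    obtain ⟨Q, q1, q2, q3⟩ := lift_nm (hM := hM) (hv.mono fun n u => u.1.1)
    obtain ⟨Q', q1', q2', q3'⟩ := lift_nm (hM := hM) (hv.mono fun n u => u.2.2.1)
    have i1 := irr (hM := hM) (fun l => (g1' _ (hv.mono fun n u => u.2.1.1)).bb hM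
      (fun n => hD n l) fun n => hφ.le n l) (g2' _ (hv.mono fun n u => u.2.1.2.1)) (Q := Q)
      (fun z => by simp [z] at q3) hc0 ⟨κ, hκ, by
        filter_upwards [hv, q2] with n u e
        rw [e]
        exact u.1.2.trans_eq (tp_cons (P n) (fun a => Z a n) a _ (S n (v n).1) (v n).1).symm⟩
    have i2 : E ≤ (map (rd hM) Q).totalDegree := (i1 _ 1 (mul_one _).symm).resolve_right (by
      rw [totalDegree_one]; omega)
    have i3 := (deg_map (rd hM) Q).trans q1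
    rcases rAlg1 _ _ _ _ m q3 q3' (hE.trans_le i2) (((deg_map _ _).trans q1').trans i2)
      (fun A B e => (i1 A B e).imp i3.trans i3.trans) with e | ⟨j, A, B, R, h0, e⟩
    · obtain ⟨c, hc, u⟩ := os_fin (M := M) (TT (Fin (i + 1)) E)
        (a := fun m' => (coeff m' Q - coeff m' Q').1) fun m' _ => (rd_eq (hM := hM)).1 (by
          rw [map_sub, ← coeff_map, ← coeff_map, e, sub_self])
      refine ⟨c, hc, ?_⟩
      filter_upwards [u, q2, q2'] with n u e e' m' hm'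
      rw [← e, ← e', coeff_map, coeff_map]
      exact u m' hm'
    · refine absurd (no_bez (hM := hM) (fun l => (g3' _ (hv.mono fun n u => u.2.1.2.2.1)).bb hM
        (fun n => hD n l) fun n => hφ.le n l)
        (fun E => g4' j _ (hv.mono fun n u => u.2.1.2.2.2 j) E trivial) hc0
        ⟨(κ / 2) ^ 2 / 2, by positivity, ?_⟩ e) h0
      filter_upwards [hv, q2, q2'] with n u e e'
      rw [e, e']
      exact u.2.2.2
  obtain ⟨ρ, ρ', b1, b2⟩ := rRnd Ω β β P (Z a) (Z (!a)) _ (TT (Fin (i + 1)) E)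
    (fun n z m' => coeff m' (H n z)) (fun n z m' => coeff m' (H n (Z a n (r n z)))) (dl M c2)
    (fun n ω => Nm E m (H n (Z a n ω)) ∧ |ev (φ n) (H n (Z a n ω)) ω| ≤ Γ n * dl M c0 n ∧
      ∀ l, |φ n l ω| ≤ M n + 1) (dl_pos M c2) (p4.mono (e2.mono fun n e ω _ u =>
      ⟨⟨u.1.1.1.1, u.1.2.2.1 _ (pl_ev (hD n) u.1.1.1.1.1) _ u.1.1.2, fun l =>
        (u.1.2.2.2 _ (hD n l)).trans (mul_le_of_le_one_right (by positivity) (hφ.le n l))⟩,
        e (ω, r n (Z (!a) n ω)) ⟨u.1.1.1, u.1.2.1, u.2.1.1.1.1, u.2.2⟩⟩))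
  have dg : ∀ {u : (Fin (i + 1) →₀ ℕ) → ℝ}, (ofc (TT (Fin (i + 1)) E) u).totalDegree ≤ E :=
    deg_ofc _ fun m => mem_TT.1
  have c3 : 0 < min c0 c2 / 3 := by positivity
  refine b2.not_whp ((h.nl' a c3 (F := fun n z => ev (φ n) (ofc (TT (Fin (i + 1)) E) (ρ n z)))
    (F' := fun n z => ev (φ n) (ofc (TT (Fin (i + 1)) E) (ρ' n z))) (fun n z => pl_ev (hD n) dg)
    fun n z => pl_ev (hD n) dg).mono ?_)
  filter_upwards [hφ.ind E _ c3, dl_lt hM (K := 1 / 8) (by norm_num) hc2, sub_dl (((g5.add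
    ((((Sub.nat hM).pow E).const_mul hM (C := 4) (by norm_num)).const_mul hM
      (C := (TT (Fin (i + 1)) E).card + 1) (by simp)) hM)).const_mul hM (C := 2) one_le_two) c3]
    with n e1 e2 e3 ω _ u v
  have f1 := e1 _ (dg (u := ρ n (Z a n ω))) m
  have f2 := b1 n (Z a n ω) m
  rw [coeff_ofc, if_pos hm] at f1
  rw [v.1.1.2.1] at f2
  have f3 : 1 / 2 ≤ |ρ n (Z a n ω) m| := by linarith [(abs_le.1 f2).1, le_abs_self (ρ n (Z a n ω) m)]
  have q := dl_pos M (min c0 c2 / 3) n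
  have f4 : dl M (min c0 c2 / 3) n / 2 ≤ _ := le_trans (by nlinarith) f1
  refine u ⟨by rw [ofc, ofc, Finset.sum_congr rfl fun m' hm' => by rw [v.2 m' hm']],
    (half_pos q).trans_le f4, ?_⟩
  have f5 : |ev (φ n) (ofc (TT (Fin (i + 1)) E) (ρ n (Z a n ω)) - H n (Z a n ω)) ω| ≤ _ :=
    ev_le ((totalDegree_sub _ _).trans (max_le dg v.1.1.1)) (s := 4 * dl M c2 n) (fun m' => by
      rw [coeff_sub, coeff_ofc]
      split_ifs with e
      · exact b1 n _ m'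
      · rw [coeff_zero_of v.1.1.1 e, sub_zero, abs_zero]; linarith [dl_pos M c2 n])
      ((Sub.nat hM).1 n) v.1.2.2
  have f9 : dl M (min c0 c2) n = dl M (min c0 c2 / 3) n ^ 3 := by rw [dl_pow]; congr 1; push_cast; ring
  rw [ev, map_sub] at f5
  exact fin_num q (g5.pos n).le (Nat.cast_nonneg _) (by positivity) f5 v.1.2.1
    ((dl_anti M (min_le_left c0 c2) n).trans_eq f9) ((dl_anti M (min_le_right c0 c2) n).trans_eq f9)
    e3 f4

/-- The alternating word. -/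
def alt : Bool → ℕ → List Bool
  | _, 0 => []
  | a, j + 1 => a :: alt (!a) j

theorem alt_length : ∀ (a : Bool) (j : ℕ), (alt a j).length = j
  | _, 0 => rfl
  | a, j + 1 => congrArg (· + 1) (alt_length (!a) j)

theorem Cell.gen (h : Cell P x M Z C K) : ∀ (i : ℕ) (φ : ∀ n, Fin i → Ω n → ℝ), IND P x M φ →
    ∀ a E, Gen P Z M (alt a (i + 1)) φ E
  | 0, _, _, _, _ => fun _ _ hc hκ => Whp.of_ev ((dl_lt h.big one_pos hc).mono
      fun _ u _ _ ⟨H, m, _, b⟩ => not_bad0 u hκ ⟨H, m, by rw [eq_C_of_isEmpty H]; simp, b⟩)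
  | i + 1, _, hφ, a, E => h.gen_step hφ a _
      (fun j E => h.gen i _ (hφ.comp j.succAbove_right_injective) (!a) E) E

end Pool.Agent.MP_5168f5_an.AN.G39
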