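import Pool.Agent.MP_5168f5_an.AN.G39Defs

/-! Newton iteration and the count of jets. -/

namespace Pool.Agent.MP_5168f5_an.AN.G39

open MvPolynomial

namespace G39HensA

variable {R σ : Type} [CommRing R]

theorem cg {I : Ideal R} {h : σ → R} (hh : ∀ i, h i ∈ I) (r : Polynomial (MvPolynomial σ R))
    {s s' : R} (hs : s - s' ∈ I) : (r.map (eval h)).eval s - (r.map (eval 0)).eval s' ∈ I := by
  have e : (Ideal.Quotient.mk I).comp (eval h) = (Ideal.Quotient.mk I).comp (eval (0 : σ → R)) :=
    MvPolynomial.ringHom_ext (fun a => by simp) fun i => by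
      simp [Ideal.Quotient.eq_zero_iff_mem.2 (hh i)]
  rw [← Ideal.Quotient.eq, ← Polynomial.eval₂_at_apply, ← Polynomial.eval₂_at_apply,
    Polynomial.eval₂_map, Polynomial.eval₂_map, e, Ideal.Quotient.eq.2 hs]

end G39HensA

open G39HensA in
theorem rHens : Hens := by
  intro R σ _ q t0 v hv h0 j
  have base : ∀ (I : Ideal R) (h : σ → R) (t : R), (∀ i, h i ∈ I) →
      (∀ k, IsUnit (1 + k * (t - t0))) → (q.map (eval h)).eval t = 0 → t - t0 ∈ I := by
    intro I h t hh hu ht
    have a := cg hh q (s := t) (s' := t) (by rw [sub_self]; exact zero_mem _)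
    obtain ⟨k, hk⟩ := (q.map (eval 0)).binomExpansion t0 (t - t0)
    rw [add_sub_cancel, h0] at hk
    rw [ht, zero_sub, neg_mem_iff, hk] at a
    refine (Ideal.unit_mul_mem_iff_mem I (hu (v * k))).1 ?_
    convert I.mul_mem_left v a using 1
    linear_combination (t0 - t) * hv
  induction j with
  | zero =>
    refine ⟨C t0, fun I h t hh hu ht => ?_⟩
    rw [eval_C, zero_add, pow_one]
    exact base I h t hh hu ht
  | succ j ih =>
    obtain ⟨ψ, hψ⟩ := ih
    refine ⟨ψ - C v * q.eval ψ, fun I h t hh hu ht => ?_⟩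
    have he := hψ I h t hh hu ht
    have a := cg hh (Polynomial.derivative q) (base I h t hh hu ht)
    rw [← Polynomial.derivative_map, ← Polynomial.derivative_map] at a
    obtain ⟨k, hk⟩ := (q.map (eval h)).binomExpansion t (-(t - eval h ψ))
    rw [neg_sub, add_sub_cancel, ht] at hk
    rw [map_sub, map_mul, eval_C, ← Polynomial.eval₂_at_apply, ← Polynomial.eval_map, hk, pow_succ]
    have b := Ideal.mul_mem_mul he (I.add_mem (I.mul_mem_left (-v) a)
      (I.mul_mem_left (v * k) (Ideal.pow_le_self j.succ_ne_zero he)))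
    convert b using 1
    linear_combination (eval h ψ - t) * hv

theorem rJet : Jet := by
  intro k L N ψ hN
  let T : (Fin N → ℝ) →ₗ[ℝ] ((Fin k → Fin (L + 1)) → ℝ) :=
    { toFun := fun c g => ∑ a, c a * coeff (Finsupp.equivFunOnFinite.symm fun i => g i) (ψ a)
      map_add' := fun c c' => funext fun g => by
        simp only [Pi.add_apply, add_mul, Finset.sum_add_distrib]
      map_smul' := fun r c => funext fun g => by
        simp only [Pi.smul_apply, smul_eq_mul, RingHom.id_apply, Finset.mul_sum, mul_assoc] }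
  obtain ⟨c, hc, h0⟩ := (Submodule.ne_bot_iff _).1 (LinearMap.ker_ne_bot_of_finrank_lt (f := T)
    (by simpa using hN))
  obtain ⟨b, hb⟩ := Function.ne_iff.1 h0
  obtain ⟨a, -, ha⟩ := Finset.exists_max_image Finset.univ (fun a => |c a|) ⟨b, Finset.mem_univ _⟩
  have hp : 0 < |c a| := (abs_pos.2 hb).trans_le (ha b (Finset.mem_univ _))
  refine ⟨fun i => (c a)⁻¹ * c i, fun i => ?_, ⟨a, inv_mul_cancel₀ (abs_pos.1 hp)⟩, fun m hm => ?_⟩
  · rw [abs_mul, abs_inv, inv_mul_le_iff₀ hp, mul_one]
    exact ha i (Finset.mem_univ _)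
  · have hl : ∀ i, m i < L + 1 := fun i => Nat.lt_succ_of_le ((m.le_degree i).trans hm)
    have e := congrFun (LinearMap.mem_ker.1 hc) fun i => ⟨m i, hl i⟩
    simp only [mul_assoc, ← Finset.mul_sum]
    refine mul_eq_zero_of_right _ ?_
    simpa [T] using e

end Pool.Agent.MP_5168f5_an.AN.G39
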