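import Pool.Agent.MP_5168f5_an.AN.G39Rel
import Pool.Agent.MP_5168f5_an.AN.G39Hens

/-! A combination of algebraic functions that vanishes to high order. -/

namespace Pool.Agent.MP_5168f5_an.AN.G39

open H19 H17S H17F Filter MvPolynomial

variable {M : ℕ → ℕ} {hM : Big M}

theorem dl_neg (M : ℕ → ℕ) (c : ℝ) (n : ℕ) : (dl M c n)⁻¹ = dl M (-c) n := by
  rw [dl_inv, dl, neg_mul, neg_neg]

theorem dl_zero (M : ℕ → ℕ) (n : ℕ) : dl M 0 n = 1 := by simp [dl]

/-- Sequences of size `exp (-s M + o(M))`. -/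
def FI (hM : Big M) (s : ℝ) : Ideal (OO hM) where
  carrier := {a | (fun n => a.1 n * dl M (-s) n) ∈ OO hM}
  add_mem' := fun {a b} h h' => by
    convert (OO hM).add_mem h h' using 1
    exact iff_of_eq (congrArg (· ∈ OO hM) (funext fun n => add_mul _ _ _))
  zero_mem' := by
    convert (OO hM).zero_mem using 1
    exact iff_of_eq (congrArg (· ∈ OO hM) (funext fun n => zero_mul _))
  smul_mem' := fun a b h => by
    convert (OO hM).mul_mem a.2 h using 1
    exact iff_of_eq (congrArg (· ∈ OO hM) (funext fun n => mul_assoc _ _ _))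

theorem fi_of_le {a : OO hM} {s : ℝ} (h : ∀ᶠ n in UF, |a.1 n| ≤ dl M s n) : a ∈ FI hM s :=
  ob_of_le (hM.sub le_rfl) (h.mono fun n u => by
    rw [abs_mul, abs_of_pos (dl_pos _ _ _), ← dl_neg, mul_inv_le_iff₀ (dl_pos _ _ _), one_mul]
    exact u)

theorem fi_le {a : OO hM} {s c : ℝ} (h : a ∈ FI hM s) (hc : 0 < c) :
    ∀ᶠ n in UF, |a.1 n| ≤ dl M (s - c) n := (h c hc).mono fun n u => by
  rw [abs_mul, abs_of_pos (dl_pos _ _ _), ← dl_neg, mul_inv_le_iff₀ (dl_pos _ _ _), dl_neg,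
    ← dl_add] at u
  rwa [sub_eq_neg_add]

theorem fi_pow (s : ℝ) : ∀ j : ℕ, FI hM s ^ j ≤ FI hM (j * s)
  | 0 => fun a _ => by
    change _ ∈ OO hM
    simpa [dl_zero] using a.2
  | j + 1 => by
    rw [pow_succ]
    refine (Ideal.mul_mono_left (fi_pow s j)).trans (Ideal.mul_le.2 fun a h b h' => ?_)
    change _ ∈ OO hM
    convert (OO hM).mul_mem h h' using 1
    funext n
    rw [show -((j + 1 : ℕ) * s) = -(j * s) + -s by push_cast; ring, dl_add]
    exact mul_mul_mul_comm _ _ _ _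

theorem unit_fi {a : OO hM} (h : a ∉ mm hM) (s : ℝ) :
    ∃ b, b * Ideal.Quotient.mk (FI hM s) a = 1 := by
  obtain ⟨b, hb⟩ := exists_inv h
  refine ⟨Ideal.Quotient.mk _ b, ?_⟩
  rw [← map_mul, ← map_one (Ideal.Quotient.mk (FI hM s)), Ideal.Quotient.eq]
  exact fi_of_le (hb.mono fun n u => by simpa [u] using (dl_pos M s n).le)

theorem tm_eval {σ : Type} (φ : σ → OO hM) (t : OO hM) (p : Polynomial (MvPolynomial σ (OO hM)))
    (n : ℕ) : (p.eval₂ (eval φ) t).1 n = p.eval₂ (eval₂Hom (tm hM n) fun i => (φ i).1 n) (t.1 n) := by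
  rw [← tm_apply, Polynomial.hom_eval₂]
  congr 1
  exact ringHom_ext (fun a => by simp) fun i => by simp [tm_apply]

theorem hj {k N L : ℕ} (hN : (L + 1) ^ k < N) (ρ : ℝ)
    (p : Fin N → Polynomial (MvPolynomial (Fin k) (OO hM))) (φ0 : Fin k → OO hM) (t0 : Fin N → OO hM)
    (h0 : ∀ a, (p a).eval₂ (eval φ0) (t0 a) ∈ FI hM ((L + 1 : ℕ) * ρ))
    (h1 : ∀ a, (p a).derivative.eval₂ (eval φ0) (t0 a) ∉ mm hM) :
    ∃ c : ℕ → Fin N → ℝ, (∀ n, (∀ a, |c n a| ≤ 1) ∧ ∃ a, c n a = 1) ∧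
      ∀ (φ : Fin k → OO hM) (t : Fin N → OO hM), (∀ i, φ i - φ0 i ∈ FI hM ρ) →
        (∀ a, t a - t0 a ∈ mm hM) → (∀ a, (p a).eval₂ (eval φ) (t a) ∈ FI hM ((L + 1 : ℕ) * ρ)) →
        ∀ ε, 0 < ε → ∀ᶠ n in UF, |∑ a, c n a * (t a).1 n| ≤ dl M ((L + 1 : ℕ) * ρ - ε) n := by
  set π := Ideal.Quotient.mk (FI hM ((L + 1 : ℕ) * ρ)) with hπ
  let s := eval₂Hom (σ := Fin k) (C.comp π) fun i => X i + C (π (φ0 i))
  have key : ∀ (q : Polynomial (MvPolynomial (Fin k) (OO hM))) (φ : Fin k → OO hM) (t : OO hM),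
      ((q.map s).map (eval fun i => π (φ i - φ0 i))).eval (π t) = π (q.eval₂ (eval φ) t) := by
    intro q φ t
    rw [Polynomial.map_map, Polynomial.eval_map, Polynomial.hom_eval₂]
    congr 1
    exact ringHom_ext (fun a => by simp [s]) fun i => by simp [s]
  have e0 : (fun i => π (φ0 i - φ0 i)) = 0 := funext fun i => by simp
  choose v hv using fun a => unit_fi (h1 a) ((L + 1 : ℕ) * ρ)
  choose ψ hψ using fun a => rHens _ _ ((p a).map s) (π (t0 a)) (v a)
    (by rw [Polynomial.derivative_map, Polynomial.derivative_map, ← e0, key]; exact hv a)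
    (by rw [← e0, key]; exact Ideal.Quotient.eq_zero_iff_mem.2 (h0 a)) L
  choose ψ' hψ' using fun a => map_surjective π Ideal.Quotient.mk_surjective (ψ a)
  choose c c1 c2 c3 using fun n => rJet k L N (fun a => map (tm hM n) (ψ' a)) hN
  refine ⟨c, fun n => ⟨c1 n, c2 n⟩, fun φ t a1 a2 a3 ε hε => ?_⟩
  let c' : Fin N → OO hM := fun a => ⟨fun n => c n a,
    ob_of_le (hM.sub le_rfl) (Eventually.of_forall fun n => c1 n a)⟩
  have b1 : ∀ a, t a - eval (fun i => φ i - φ0 i) (ψ' a) ∈ FI hM ((L + 1 : ℕ) * ρ) := fun a => by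
    have := hψ a ((FI hM ρ).map π) (fun i => π (φ i - φ0 i)) (π (t a))
      (fun i => Ideal.mem_map_of_mem _ (a1 i)) (fun r => by
        obtain ⟨r, rfl⟩ := Ideal.Quotient.mk_surjective r
        obtain ⟨b, hb⟩ := unit_fi (a := 1 + r * (t a - t0 a)) (fun z => (inferInstance :
          (mm hM).IsMaximal).ne_top ((Ideal.eq_top_iff_one _).2
            ((Ideal.add_mem_iff_left _ (Ideal.mul_mem_left _ _ (a2 a))).1 z))) ((L + 1 : ℕ) * ρ)
        exact IsUnit.of_mul_eq_one_right b (by simpa using hb))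
      (by rw [key]; exact Ideal.Quotient.eq_zero_iff_mem.2 (a3 a))
    rw [← Ideal.map_pow] at this
    have := Ideal.map_mono (fi_pow ρ (L + 1)) this
    rw [Ideal.map_quotient_self, Ideal.mem_bot, ← hψ', eval_map] at this
    rw [← Ideal.Quotient.eq_zero_iff_mem, map_sub, ← this, eval, map_eval₂Hom]
    rfl
  have b2 : eval (fun i => φ i - φ0 i) (∑ a, C (c' a) * ψ' a) ∈ FI hM ((L + 1 : ℕ) * ρ) := by
    rw [eval_eq]
    refine Ideal.sum_mem _ fun m hm => Ideal.mul_mem_left _ _ (fi_pow ρ _ ?_)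
    have : L + 1 ≤ ∑ i ∈ m.support, m i := by
      by_contra z
      refine mem_support_iff.1 hm (Subtype.ext (funext fun n => ?_))
      have := c3 n m (Nat.lt_succ_iff.1 (not_le.1 z))
      rw [← tm_apply, coeff_sum, map_sum]
      simp only [coeff_C_mul, map_mul]
      simp only [coeff_map] at this
      exact this
    refine Ideal.pow_le_pow_right this ?_
    rw [← Finset.prod_pow_eq_pow_sum]
    exact Ideal.prod_mem_prod fun i _ => Ideal.pow_mem_pow (a1 i) _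
  have b3 := Ideal.add_mem _ (Ideal.sum_mem _ fun a (_ : a ∈ Finset.univ) =>
    Ideal.mul_mem_left _ (c' a) (b1 a)) b2
  simp only [map_sum, map_mul, eval_C, ← Finset.sum_add_distrib, ← mul_add, sub_add_cancel] at b3
  refine (fi_le b3 hε).mono fun n u => ?_
  rw [← tm_apply, map_sum] at u
  exact u

theorem cls {Ω ι : Type} [Fintype ι] (P : FP Ω) (G : Ω → Prop) (y : ι → Ω → ℝ) (r : ι → ℝ) {L : ℝ}
    (hr : ∀ i, 0 < r i ∧ r i ≤ L) (hy : ∀ ω, G ω → ∀ i, |y i ω| ≤ L) (h0 : 0 < pb P G) :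
    ∃ v, G v ∧ pb P G ≤ (∏ i, 4 * L / r i) * pb P fun ω => G ω ∧ ∀ i, |y i ω - y i v| ≤ r i := by
  classical
  let T := Fintype.piFinset fun i => Finset.Icc ⌊-L / r i⌋ ⌊L / r i⌋
  let j : Ω → ι → ℤ := fun ω i => ⌊y i ω / r i⌋
  have h1 : pb P G ≤ ∑ z ∈ T, pb P fun ω => G ω ∧ j ω = z := by
    simp only [pb_ind]
    rw [← P.E_sum]
    refine P.E_mono fun ω _ => ?_
    by_cases e : G ω
    · refine le_trans ?_ (Finset.single_le_sum (fun z _ => ind_nn (G ω ∧ j ω = z)) (a := j ω)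
        (Fintype.mem_piFinset.2 fun i => Finset.mem_Icc.2 ⟨Int.floor_le_floor ?_,
          Int.floor_le_floor ?_⟩))
      · rw [ind_pos e, ind_pos ⟨e, rfl⟩]
      · exact div_le_div_of_nonneg_right (abs_le.1 (hy ω e i)).1 (hr i).1.le
      · exact div_le_div_of_nonneg_right (abs_le.1 (hy ω e i)).2 (hr i).1.le
    · rw [ind_neg e]; exact Finset.sum_nonneg fun _ _ => ind_nn _
  have h2 : (T.card : ℝ) ≤ ∏ i, 4 * L / r i := by
    rw [Fintype.card_piFinset, Nat.cast_prod]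
    refine Finset.prod_le_prod (fun _ _ => Nat.cast_nonneg _) fun i _ => ?_
    have a : 1 ≤ L / r i := (one_le_div (hr i).1).2 (hr i).2
    have b := Int.floor_le (L / r i)
    have c := Int.lt_floor_add_one (-L / r i)
    have d := Int.floor_le (-L / r i)
    have e := Int.lt_floor_add_one (L / r i)
    rw [neg_div] at c d
    rw [Int.card_Icc, ← Int.cast_natCast, Int.toNat_of_nonneg (by
      rw [← Int.cast_nonneg_iff (R := ℝ)]; push_cast; rw [neg_div]; linarith), mul_div_assoc]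
    push_cast
    rw [neg_div]
    linarith
  obtain ⟨z, -, hz⟩ := T.exists_max_image (fun z => pb P fun ω => G ω ∧ j ω = z)
    (Finset.nonempty_iff_ne_empty.2 fun e => by rw [e, Finset.sum_empty] at h1; linarith)
  have h3 := h1.trans (Finset.sum_le_card_nsmul _ _ _ hz)
  rw [nsmul_eq_mul] at h3
  have h4 := pb_nonneg P fun ω => G ω ∧ j ω = z
  obtain ⟨v, -, hv⟩ := ex_of_pb (P := P) (E := fun ω => G ω ∧ j ω = z) (h4.lt_of_ne fun e => by
    rw [← e, mul_zero] at h3; linarith)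
  refine ⟨v, hv.1, h3.trans (mul_le_mul h2 (pb_mono fun ω _ u => ⟨u.1, fun i => ?_⟩) h4
    ((Nat.cast_nonneg _).trans h2))⟩
  have := Int.abs_sub_lt_one_of_floor_eq_floor (congrFun (u.2.trans hv.2.symm) i)
  rw [← sub_div, abs_div, abs_of_pos (hr i).1, div_lt_one (hr i).1] at this
  exact this.le

end Pool.Agent.MP_5168f5_an.AN.G39
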