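import Pool.Agent.MP_5168f5_an.AN.G39Gen

/-! Relations of minimal degree, and genericity for algebraic functions. -/

namespace Pool.Agent.MP_5168f5_an.AN.G39

open H19 H17S H17F Filter MvPolynomial

variable {M : ℕ → ℕ} {hM : Big M} {σ : Type} {T : ℕ → Type} {μ : ∀ n, FP (T n)}

/-- A polynomial in `f` with coefficients polynomial in `φ`. -/
noncomputable def pv {Ω : Type} (φ : σ → Ω → ℝ) (f : Ω → ℝ) (g : OO hM →+* ℝ)
    (p : Polynomial (MvPolynomial σ (OO hM))) (ω : Ω) : ℝ :=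
  p.eval₂ (eval₂Hom g fun i => φ i ω) (f ω)

theorem ev_map {Ω : Type} (φ : σ → Ω → ℝ) (g : OO hM →+* ℝ) (Q : MvPolynomial σ (OO hM)) (ω : Ω) :
    ev φ (map g Q) ω = eval₂Hom g (fun i => φ i ω) Q := eval_map _ _ _

/-- The same for random sequences. -/
noncomputable def Th (ψ : σ → BB μ hM) (f : BB μ hM) :
    Polynomial (MvPolynomial σ (OO hM)) →+* BB μ hM := Polynomial.eval₂RingHom (evB ψ) f

theorem Th_C (ψ : σ → BB μ hM) (f : BB μ hM) (Q : MvPolynomial σ (OO hM)) :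
    Th ψ f (Polynomial.C Q) = evB ψ Q := Polynomial.eval₂_C _ _

theorem Th_X (ψ : σ → BB μ hM) (f : BB μ hM) : Th ψ f Polynomial.X = f := Polynomial.eval₂_X _ _

theorem Th_apply (ψ : σ → BB μ hM) (f : BB μ hM) (p : Polynomial (MvPolynomial σ (OO hM))) (n : ℕ) :
    (Th ψ f p).1 n = pv (fun i => (ψ i).1 n) (f.1 n) (tm hM n) p := by
  funext t
  induction p using Polynomial.induction_on' with
  | add p q hp hq => rw [map_add, pv, Polynomial.eval₂_add, ← pv, ← pv, ← hp, ← hq]; rfl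
  | monomial k a =>
    rw [pv, Polynomial.eval₂_monomial, ← ev_map, ← evB_apply, ← Polynomial.C_mul_X_pow_eq_monomial,
      map_mul, map_pow, Th_C, Th_X]
    rfl

variable {Ω β : ℕ → Type} {d C : ℕ} {P : ∀ n, FP (Ω n)} {x : ∀ n, Ω n → Fin d → ℝ}
  {Z : Bool → ∀ n, Ω n → β n} {K : ℝ} {f : ∀ n, Ω n → ℝ} {E : ℕ}

theorem pl_pv {φ : ∀ n, σ → Ω n → ℝ} {D : ℕ} (hD : ∀ n i, Pl (x n) D (φ n i))
    (hf : ∀ n, Pl (x n) E (f n)) (p : Polynomial (MvPolynomial σ (OO hM))) :
    ∃ E', ∀ n, Pl (x n) E' (pv (φ n) (f n) (tm hM n) p) := by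
  induction p using Polynomial.induction_on' with
  | add p q hp hq =>
    obtain ⟨a, ha⟩ := hp
    obtain ⟨b, hb⟩ := hq
    refine ⟨max a b, fun n => ?_⟩
    convert ((ha n).mono (le_max_left a b)).add ((hb n).mono (le_max_right a b)) using 2
    exact Polynomial.eval₂_add _ _
  | monomial k a =>
    refine ⟨a.totalDegree * D + k * E, fun n => ?_⟩
    convert (pl_ev (hD n) (deg_map (tm hM n) a)).mul ((hf n).pow k) using 2
    rw [pv, Polynomial.eval₂_monomial, ev_map]

theorem Cell.rel (h : Cell P x M Z C K) {k : ℕ} {φ : ∀ n, Fin k → Ω n → ℝ} (hφ : IND P x M φ)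
    (hf : ∀ n, Pl (x n) E (f n)) (h1 : ∀ n, nu (P n) (f n) ≤ 1)
    (hn : ¬IND P x M fun n => (Fin.cons (f n) (φ n) : Fin (k + 1) → Ω n → ℝ)) :
    ∃ p : Polynomial (MvPolynomial (Fin k) (OO h.big)),
      OS M (fun n => nu (P n) (pv (φ n) (f n) (tm _ n) p)) ∧
      ¬OS M (fun n => nu (P n) (pv (φ n) (f n) (tm _ n) p.derivative)) ∧
      (¬OS M (fun n => nu (P n) (f n)) → map (rd _) (p.coeff 0) ≠ 0) := by
  obtain ⟨D, hD⟩ := hφ.pl
  let ψ : Fin k → BB P h.big := fun i =>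
    ⟨_, (dom_id h.big).bb h.big (fun n => hD n i) fun n => hφ.le n i⟩
  let g : BB P h.big := ⟨_, (dom_id h.big).bb h.big hf h1⟩
  let J := (NN P h.big).comap (Th ψ g)
  have hJ : ∀ p, p ∈ J ↔ OS M fun n => nu (P n) (pv (φ n) (f n) (tm _ n) p) := fun p => by
    obtain ⟨E', e⟩ := pl_pv hD hf p
    refine ⟨fun ⟨c, hc, u⟩ => h.os e hc (u.pos.mono (Eventually.of_forall fun n ω _ v => ?_)),
      fun u => ((dom_id h.big).small h.big e u).imp fun c v =>
        ⟨v.1, v.2.mono (Eventually.of_forall fun n ω _ v => ?_)⟩⟩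
    · rwa [Th_apply] at v
    · rwa [Th_apply]
  have : J.IsPrime := ⟨(Ideal.ne_top_iff_one _).2 fun ⟨c, hc, u⟩ => by
      obtain ⟨n, ⟨ω, -, a⟩, b⟩ := (u.pos.ex.and (dl_lt h.big one_pos hc)).exists
      rw [map_one] at a
      exact absurd (a.trans_lt b) (by simp), fun {p q} ⟨c, hc, u⟩ => by
    obtain ⟨_, e⟩ := pl_pv hD hf p
    obtain ⟨_, e'⟩ := pl_pv hD hf q
    refine (pos_or (u.pos.mono (Eventually.of_forall fun n ω _ v => ?_))).imp
      (fun u => (hJ p).2 (h.os e (half_pos hc) u)) fun u => (hJ q).2 (h.os e' (half_pos hc) u)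
    by_contra z
    push Not at z
    rw [Th_apply, pv, Polynomial.eval₂_mul, abs_mul, dl_half] at v
    exact absurd v (not_le.2 (mul_lt_mul'' z.1 z.2 (dl_pos _ _ _).le (dl_pos _ _ _).le))⟩
  let ρ := Polynomial.mapRingHom (map (σ := Fin k) (rd h.big))
  have hρ : Function.Surjective ρ := Polynomial.map_surjective _ (map_surjective _ rd_surj)
  have hk : RingHom.ker ρ ≤ J := fun p hp => by
    rw [p.as_sum_support_C_mul_X_pow]
    refine Ideal.sum_mem _ fun i _ => Ideal.mul_mem_right _ _ ?_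
    rw [Ideal.mem_comap, Th_C]
    exact evB_ker _ (by rw [← Polynomial.coeff_map]; exact congrArg (·.coeff i) hp)
  have hm : ∀ p, ρ p ∈ J.map ρ ↔ p ∈ J := fun p => by
    rw [← Ideal.mem_comap, Ideal.comap_map_of_surjective ρ hρ,
      ← RingHom.ker_eq_comap_bot, sup_eq_left.2 hk]
  obtain ⟨p, a, b, c⟩ := rAlg2 _ (J.map ρ) (Ideal.map_isPrime_of_surjective hρ hk) (fun z =>
    hn (ind_of h.big ⟨max E D, fun n i => Fin.cases ((hf n).mono (le_max_left _ _))
      (fun i => (hD n i).mono (le_max_right _ _)) i⟩ (fun n i => Fin.cases (h1 n) (hφ.le n) i)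
      fun Q h0 u => by
        have e : ∀ n, pv (φ n) (f n) (tm _ n) (finSuccEquiv _ k Q) =
            ev (Fin.cons (f n) (φ n) : Fin (k + 1) → Ω n → ℝ) (map (tm _ n) Q) := fun n => by
          funext ω
          rw [ev_map]
          refine RingHom.congr_fun (?_ : (Polynomial.eval₂RingHom (eval₂Hom (tm _ n) fun i => φ n i ω)
            (f n ω)).comp (finSuccEquiv _ k).toRingEquiv.toRingHom = _) Q
          refine ringHom_ext (fun a => by simp [finSuccEquiv_apply]) fun i => ?_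
          refine Fin.cases ?_ (fun i => ?_) i <;> simp [finSuccEquiv_apply]
        have := (hm _).2 ((hJ (finSuccEquiv _ k Q)).2 (by simpa only [e] using u))
        rw [z, Ideal.mem_bot] at this
        refine h0 (MvPolynomial.ext _ _ fun m => ?_)
        have := congrArg (fun p => coeff m.tail (Polynomial.coeff p (m 0))) this
        simpa only [ρ, Polynomial.coe_mapRingHom, Polynomial.coeff_map, coeff_map,
          finSuccEquiv_coeff_coeff, Finsupp.cons_tail, Polynomial.coeff_zero, coeff_zero] using this))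
    fun r hr => by
      obtain ⟨r, -, rfl⟩ := lift_rd r
      by_contra z
      have := (hJ _).1 ((hm (Polynomial.C r)).1 (by simpa [ρ] using hr))
      refine hφ.not_os z ?_
      convert this using 3 with n
      funext ω
      rw [pv, Polynomial.eval₂_C, ev_map]
  obtain ⟨p, rfl⟩ := hρ p
  refine ⟨p, (hJ p).1 ((hm p).1 a), fun u => b ?_, fun u => ?_⟩
  · have := (hm _).2 ((hJ _).2 u)
    simpa only [ρ, Polynomial.coe_mapRingHom, Polynomial.derivative_map] using this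
  · have := c fun v => u (by
      have := (hJ _).1 ((hm Polynomial.X).1 (by simpa [ρ] using v))
      convert this using 3 with n
      funext ω
      rw [pv, Polynomial.eval₂_X])
    simpa only [ρ, Polynomial.coe_mapRingHom, Polynomial.coeff_map] using this

theorem Cell.gen' (h : Cell P x M Z C K) {k : ℕ} {φ : ∀ n, Fin k → Ω n → ℝ} (hφ : IND P x M φ)
    {w : List Bool} (hw : ∀ E, Gen P Z M w φ E) (V : ∀ n, (Ω n → ℝ) → Prop)
    (hV : ∀ n f, V n f → Pl (x n) E f ∧ nu (P n) f = 1)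
    (hn : ∀ f : ∀ n, Ω n → ℝ, (∀ n, V n (f n) ∨ f n = fun _ => 0) →
      ¬IND P x M fun n => (Fin.cons (f n) (φ n) : Fin (k + 1) → Ω n → ℝ)) {c κ : ℝ} (hc : 0 < c)
    (hκ : 0 < κ) : Whp P fun n ω =>
      ∀ f, V n f → tp (P n) (fun a => Z a n) w (fun v => |f v| ≤ dl M c n) ω < κ := by
  classical
  by_contra z
  have hM := h.big
  obtain ⟨D, hD⟩ := hφ.pl
  obtain ⟨G1, g1, g1'⟩ := good_dom hM P x Z w
  obtain ⟨G2, g2, g2'⟩ := good_nb (fun _ => True) fun E _ => hw E
  have : ∀ n, Nonempty (Ω n × (Ω n → ℝ)) := fun n => (fp_ne (P n)).elim fun v => ⟨(v, 0)⟩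
  have e := R4.unif (A := fun n => Ω n × (Ω n → ℝ)) (h := fun n v => G1 n v.1 ∧ G2 n v.1 ∧
      V n v.2 ∧ κ ≤ tp (P n) (fun a => Z a n) w (fun u => |v.2 u| ≤ dl M c n) v.1)
      (p := fun _ _ => False) fun v hv => by
    exfalso
    let f : ∀ n, Ω n → ℝ := fun n => if V n (v n).2 then (v n).2 else fun _ => 0
    have f0 : ∀ᶠ n in UF, f n = (v n).2 := hv.mono fun n u => if_pos u.2.2.1
    have f1 : ∀ n, V n (f n) ∨ f n = fun _ => 0 := fun n => by
      by_cases u : V n (v n).2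
      · exact Or.inl (by simpa only [f, if_pos u] using u)
      · exact Or.inr (if_neg u)
    have f2 : ∀ n, Pl (x n) E (f n) := fun n => (f1 n).elim (fun u => (hV n _ u).1)
      fun u => u ▸ pl_const 0
    have f3 : ∀ n, nu (P n) (f n) ≤ 1 := fun n => (f1 n).elim (fun u => (hV n _ u).2.le)
      fun u => by rw [u]; simp [nu, FP.E_const]
    obtain ⟨p, a, -, b⟩ := h.rel hφ f2 f3 (hn f f1)
    have b' := b fun ⟨c', hc', u⟩ => by
      obtain ⟨n, u1, u2, u3, u4⟩ := (u.and (f0.and (hv.and (dl_lt hM one_pos hc')))).exists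
      simp only [u2, (hV n _ u3.2.2.1).2, abs_one] at u1
      linarith
    have hp : Pos (fun n => ker (P n) (fun a => Z a n) w (v n).1) fun n t =>
        |f n (en w (v n).1 t)| ≤ dl M c n := ⟨κ, hκ, by
      filter_upwards [hv, f0] with n u e
      rw [e]; exact u.2.2.2⟩
    have dm : Dom P x M (fun n => cE (ker (P n) (fun a => Z a n) w (v n).1) fun t =>
        |f n (en w (v n).1 t)| ≤ dl M c n) fun n => en w (v n).1 := fun E =>
      (g1' _ (hv.mono fun n u => u.1) E).cE hp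
    let ψ := fun i => (⟨_, dm.bb hM (fun n => hD n i) fun n => hφ.le n i⟩ : BB _ hM)
    let g : BB _ hM := ⟨_, dm.bb hM f2 f3⟩
    have m1 : g ∈ NN _ hM := nn_cE hp hc (Eventually.of_forall fun _ _ u => u)
    obtain ⟨E', e'⟩ := pl_pv hD f2 p
    have m2 : Th ψ g p ∈ NN _ hM := (dm.small hM e' a).imp fun c u =>
      ⟨u.1, u.2.mono (Eventually.of_forall fun n t _ u => by rw [Th_apply]; exact u)⟩
    rw [← p.divX_mul_X_add, map_add, map_mul, Th_X, Th_C] at m2
    obtain ⟨c', hc', u⟩ := pos_cE hp ((Ideal.add_mem_iff_right _ (Ideal.mul_mem_left _ _ m1)).1 m2)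
    exact (g2' _ (hv.mono fun n u => u.2.1) _ trivial).not_pos le_rfl b' hc'
      (u.mono (Eventually.of_forall fun n t _ u => by rwa [evB_apply] at u))
  obtain ⟨n, ⟨ω, -, u1, u2⟩, u3⟩ := (((not_whp z).and (g1.and g2)).ex.and e).exists
  push Not at u1
  obtain ⟨f, u4, u5⟩ := u1
  exact u3 (ω, f) ⟨u2.1, u2.2, u4, u5⟩

end Pool.Agent.MP_5168f5_an.AN.G39
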