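import Pool.Agent.MP_5168f5_an.AN.G39Ext
import Pool.Agent.MP_5168f5_an.AN.G39Dep

/-! A minimal cell satisfies the Remez inequality. -/

namespace Pool.Agent.MP_5168f5_an.AN.G39

open H19 H17S H17F Filter MvPolynomial

variable {Ω β : ℕ → Type} {d C : ℕ} {P : ∀ n, FP (Ω n)} {x : ∀ n, Ω n → Fin d → ℝ} {M : ℕ → ℕ}

theorem ind_zero (φ : ∀ n, Fin 0 → Ω n → ℝ) : IND P x M φ :=
  ⟨⟨0, fun _ i => i.elim0⟩, fun _ i => i.elim0, fun E c hc => Eventually.of_forall fun n H _ m => by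
    rw [eq_C_of_isEmpty H, Subsingleton.elim m 0, coeff_zero_C, show ev (φ n) (MvPolynomial.C
      (coeff 0 H)) = fun _ => coeff 0 H from funext fun _ => eval_C _, nu, FP.E_const,
      Real.sqrt_sq_eq_abs]
    exact mul_le_of_le_one_left (abs_nonneg _) ((dl_anti M hc.le n).trans_eq (dl_zero M n))⟩

theorem not_ind (φ : ∀ n, Fin (d + 1) → Ω n → ℝ) : ¬IND P x M φ := fun h => by
  obtain ⟨D, hD⟩ := h.pl
  obtain ⟨E, hE⟩ := rDep d D
  obtain ⟨n, u⟩ := (h.ind E 1 one_pos).exists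
  obtain ⟨H, m, a1, a2, a3⟩ := hE _ _ _ (hD n)
  have := u H a1 m
  rw [a2, abs_one, mul_one, funext a3] at this
  exact this.not_gt (by simpa [nu, FP.E_const] using dl_pos M 1 n)

/-- A maximal independent family. -/
theorem exists_max (P : ∀ n, FP (Ω n)) (x : ∀ n, Ω n → Fin d → ℝ) (M : ℕ → ℕ) :
    ∃ k ≤ d, ∃ φ : ∀ n, Fin k → Ω n → ℝ, IND P x M φ ∧ ∀ f : ∀ n, Ω n → ℝ,
      ¬IND P x M fun n => (Fin.cons (f n) (φ n) : Fin (k + 1) → Ω n → ℝ) := by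
  by_contra z
  have : ∀ k ≤ d + 1, ∃ φ : ∀ n, Fin k → Ω n → ℝ, IND P x M φ := fun k => by
    induction k with
    | zero => exact fun _ => ⟨fun _ i => i.elim0, ind_zero _⟩
    | succ k ih =>
      intro e
      obtain ⟨φ, hφ⟩ := ih (by omega)
      by_contra y
      exact z ⟨k, by omega, φ, hφ, fun f u => y ⟨_, u⟩⟩
  obtain ⟨φ, hφ⟩ := this _ le_rfl
  exact not_ind φ hφ

theorem rRemC : RemC := by
  intro Ω β d C K K' P x M Z h hK E
  have hM := h.big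
  obtain ⟨k, hk, φ, hφ, hn⟩ := exists_max P x M
  obtain ⟨Γ, g1, g2⟩ := h.fw (E := E) hφ (fun n f => Pl (x n) E f ∧ nu (P n) f = 1)
    (fun _ _ e => e) fun f _ => hn f
  have c0 : ∀ j : ℕ, (0 : ℝ) < 1 / (j + 1) := fun j => by positivity
  choose G G1 G2 using fun j : ℕ => g2 _ (c0 j)
  obtain ⟨j, j1, j2⟩ := KSA.spill _ fun j => (G1 j _ (c0 j)).and (G2 j)
  have a1 : Whp P fun n => G (j n) n := fun ε hε => by
    filter_upwards [j2, R4.K31.small hε j1] with n u v using (u _ le_rfl).1.trans v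
  have a2 : Sub M fun n => (dl M (1 / (j n + 1)) n)⁻¹ :=
    ⟨fun n => (Real.one_le_exp (by positivity)).trans_eq (dl_inv _ _ _).symm, fun ε hε =>
      (R4.K31.small hε j1).mono fun n u => (dl_inv _ _ _).trans_le
        (Real.exp_le_exp.2 (mul_le_mul_of_nonneg_right u (Nat.cast_nonneg _)))⟩
  have k0 : (0 : ℝ) < 8 * (k + 2) := by positivity
  refine ⟨_, _, a1.and (whp_CG (x := x) hM E), (Sub.nat hM).mul (a2.mul ((g1.mul ((hM.sub
    (C := 8 * (k + 2)) (by linarith [Nat.cast_nonneg (α := ℝ) k])).pow (C * E))).pow (k + 1))), ?_⟩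
  filter_upwards [j2, dl_lt hM (inv_pos.2 k0) (sub_pos.2 hK)] with n u v ω _ hω f hf θ κ e1 e2
  have κ0 := (dl_pos _ _ _).trans_le e1
  rw [cv, cE_congr (E' := fun _ => True) fun _ _ => by simp, cE_true] at e2
  have θ0 : 0 ≤ θ := by
    obtain ⟨w, -, hw⟩ := ex_of_pb (κ0.trans_le e2)
    exact (abs_nonneg _).trans hw.2
  have Γ0 := g1.pos n
  have d0 := dl_pos M (1 / (j n + 1)) n
  refine (hω.2 f hf).trans ?_
  rw [mul_assoc, mul_assoc]
  refine mul_le_mul_of_nonneg_left ?_ (by positivity)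
  rcases (nu_nn (P n) f).eq_or_lt with ν0 | ν0
  · rw [← ν0]; positivity
  have := (u _ le_rfl).2 (fun ω => (nu (P n) f)⁻¹ * f ω) ⟨hf.smul _, by
    rw [nu_smul, abs_of_pos (inv_pos.2 ν0), inv_mul_cancel₀ ν0.ne']⟩
    (fun v => (G (j n) n v ∧ CG (P n) (x n) E (M n + 1) v) ∧ |f v| ≤ θ) ((nu (P n) f)⁻¹ * θ)
    (κ * (8 * (k + 2 : ℝ))⁻¹) (by
      rw [show K = K' + (K - K') by ring, dl_add]
      exact mul_le_mul e1 v.le (dl_pos _ _ _).le κ0.le)
    (fun v _ e => ⟨e.1.1, by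
      rw [abs_mul, abs_of_pos (inv_pos.2 ν0)]
      exact mul_le_mul_of_nonneg_left e.2 (inv_pos.2 ν0).le⟩)
    (by rw [mul_left_comm, mul_inv_cancel₀ k0.ne', mul_one]; exact e2)
  rw [mul_left_comm, lt_inv_mul_iff₀ ν0, ← lt_mul_inv_iff₀ d0, mul_inv, inv_inv,
    mul_pow κ⁻¹, mul_comm (κ⁻¹ ^ _), ← mul_assoc, mul_pow, ← pow_mul] at this
  refine this.le.trans ?_
  rw [mul_comm _ (dl M _ n)⁻¹, ← mul_assoc, ← mul_assoc, mul_assoc _ (κ⁻¹ ^ _)]
  refine mul_le_mul_of_nonneg_left (mul_le_mul_of_nonneg_right (pow_le_pow_right₀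
    ((one_le_inv₀ κ0).2 (e2.trans (pb_le_one _ _))) ?_) θ0) (by positivity)
  rw [mul_assoc (d + 1), mul_comm]
  exact Nat.mul_le_mul_right _ (by omega)

end Pool.Agent.MP_5168f5_an.AN.G39
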