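import Pool.Agent.MP_5168f5_an.AN.G39Rem

/-! Frames of uniformly bounded degree. -/

namespace Pool.Agent.MP_5168f5_an.AN.G39

open H19 H17S H17F Filter MvPolynomial G39DepA

/-- An independent family of `k` functions extends by a polynomial of bounded degree in any
`k + 1` functions without exact relation. -/
theorem ext_poly (C D k : ℕ) : ∃ D0 : ℕ, ∀ {Ω β : ℕ → Type} {d : ℕ} {K : ℝ} {P : ∀ n, FP (Ω n)}
    {x : ∀ n, Ω n → Fin d → ℝ} {M : ℕ → ℕ} {Z : Bool → ∀ n, Ω n → β n}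
    {φ : ∀ n, Fin k → Ω n → ℝ} {y : ∀ n, Fin (k + 1) → Ω n → ℝ}, Cell P x M Z C K → IND P x M φ →
    (∀ n j, Pl (x n) D (y n j)) → (∀ᶠ n in UF, ∀ H : MvPolynomial (Fin (k + 1)) ℝ, H ≠ 0 →
      H.totalDegree ≤ D0 → 0 < nu (P n) (ev (y n) H)) →
    ∃ Q : ℕ → MvPolynomial (Fin (k + 1)) ℝ, (∀ n, (Q n).totalDegree ≤ D0) ∧
      IND P x M fun n => (Fin.cons (ev (y n) (Q n)) (φ n) : Fin (k + 1) → Ω n → ℝ) := by
  obtain ⟨s, hs⟩ : ∃ s, s = ((k + 1) * C * ((k + 1) * D) * k + 1) ^ k := ⟨_, rfl⟩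
  refine ⟨(k + 1) * s, fun {Ω β d K P x M Z φ y} h hφ hy h0 => ?_⟩
  let m : Fin ((s + 1) ^ (k + 1)) → Fin (k + 1) →₀ ℕ := fun a => tf (finFunctionFinEquiv.symm a)
  have m1 : ∀ a (r : ℝ), (monomial (m a) r).totalDegree ≤ (k + 1) * s := fun a r =>
    (totalDegree_monomial_le _ _).trans (by
      rw [Finsupp.sum_fintype _ _ fun _ => rfl]; exact tf_sum _)
  have m2 : ∀ c : _ → ℝ, (∑ a, monomial (m a) (c a)).totalDegree ≤ (k + 1) * s := fun c =>
    (totalDegree_finsetSum _ _).trans (Finset.sup_le fun a _ => m1 a _)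
  have m3 : ∀ n (c : _ → ℝ), (fun ω => ∑ a, c a * ev (y n) (monomial (m a) 1) ω) =
      ev (y n) (∑ a, monomial (m a) (c a)) := fun n c => funext fun ω => by
    simp [ev, eval_monomial]
  obtain ⟨c, hc⟩ := rExt Ω β d C k ((k + 1) * s * D) _ K P x M Z φ
    (fun n a => ev (y n) (monomial (m a) 1)) h hφ (fun n a => pl_ev (hy n) (m1 a 1))
    (h0.mono fun n u c hc => by
      rw [m3]
      refine u _ (fun z => hc (funext fun a => ?_)) (m2 c)
      have := congrArg (coeff (m a)) z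
      rw [coeff_sum, Finset.sum_eq_single a (fun b _ e => by
        rw [coeff_monomial, if_neg fun z => e (finFunctionFinEquiv.symm.injective (tf_inj z))])
        (by simp)] at this
      simpa using this) (by
      calc _ ≤ (((k + 1) * C * ((k + 1) * D) * k + 1) * (s + 1)) ^ k :=
            Nat.pow_le_pow_left (by nlinarith [Nat.zero_le ((k + 1) * C * ((k + 1) * D) * k)]) _
        _ < (s + 1) * (s + 1) ^ k := by
            rw [mul_pow, ← hs]
            exact Nat.mul_lt_mul_of_pos_right (Nat.lt_succ_self s) (by positivity)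
        _ = _ := (pow_succ' _ _).symm)
  exact ⟨fun n => ∑ a, monomial (m a) (c n a), fun n => m2 _, by simpa only [m3] using hc⟩

theorem rUD : UD := by
  intro d C D i
  suffices ∀ k (hk : k ≤ i), ∃ D0 : ℕ, ∀ (Ω β : ℕ → Type) (K : ℝ) (P : ∀ n, FP (Ω n))
      (x : ∀ n, Ω n → Fin d → ℝ) (M : ℕ → ℕ) (Z : Bool → ∀ n, Ω n → β n)
      (y : ∀ n, Fin i → Ω n → ℝ), Cell P x M Z C K → (∀ n j, Pl (x n) D (y n j)) →
      (∀ E, ∀ᶠ n in UF, ∀ H : MvPolynomial (Fin i) ℝ, H ≠ 0 → H.totalDegree ≤ E →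
        0 < nu (P n) (ev (y n) H)) →
      ∃ Φ : ℕ → Fin k → MvPolynomial (Fin i) ℝ, (∀ n j, (Φ n j).totalDegree ≤ D0 ∧
        ∀ l ∈ (Φ n j).vars, l.1 ≤ j.1) ∧ IND P x M fun n j => ev (y n) (Φ n j) from this i le_rfl
  intro k
  induction k with
  | zero => exact fun _ => ⟨0, fun _ _ _ _ _ _ _ _ _ _ _ =>
      ⟨fun _ j => j.elim0, fun _ j => j.elim0, ind_zero _⟩⟩
  | succ k ih =>
    intro hk
    obtain ⟨D0, h0⟩ := ih (Nat.le_of_succ_le hk)
    obtain ⟨D1, h1⟩ := ext_poly C D k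
    refine ⟨max D0 D1, fun Ω β K P x M Z y h hy hn => ?_⟩
    obtain ⟨Φ, a1, a2⟩ := h0 Ω β K P x M Z y h hy hn
    obtain ⟨Q, b1, b2⟩ := h1 (y := fun n j => y n (Fin.castLE hk j)) h a2 (fun n j => hy n _)
      ((hn D1).mono fun n u H e e' => by
        rw [← ev_rename]
        exact u _ (fun z => e (rename_injective _ (Fin.castLE_injective hk)
          (z.trans (map_zero _).symm))) ((totalDegree_rename_le _ _).trans e'))
    refine ⟨fun n => Fin.snoc (Φ n) (rename (Fin.castLE hk) (Q n)), fun n j => ?_, ?_⟩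
    · induction j using Fin.lastCases with
      | last =>
        simp only [Fin.snoc_last]
        refine ⟨((totalDegree_rename_le _ _).trans (b1 n)).trans (le_max_right _ _), fun l hl => ?_⟩
        obtain ⟨l, -, rfl⟩ := mem_vars_rename _ _ hl
        exact Nat.lt_succ_iff.1 l.2
      | cast j =>
        simp only [Fin.snoc_castSucc]
        exact ⟨(a1 n j).1.trans (le_max_left _ _), (a1 n j).2⟩
    · convert b2.comp (finRotate (k + 1)).injective using 3 with n j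
      simp only [Fin.snoc_eq_cons_rotate, ← ev_rename]
      exact (congrFun (Fin.comp_cons (ev (y n)) _ (Φ n)) _)

end Pool.Agent.MP_5168f5_an.AN.G39
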