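import Pool.Agent.MP_5168f5_an.AN.GASpec2

/-! The adjoint action is conjugation. -/

namespace Pool.Agent.MP_5168f5_an.AN.GA

open H61Z IsNilpotent

namespace GAAdA

theorem conj {A : Type} [Ring A] [Algebra ℚ A] {X W : A} (hX : IsNilpotent X) {k : ℕ}
    (h : (cm X)^[k] W = 0) :
    ∑ i ∈ Finset.range k, ((i.factorial : ℚ))⁻¹ • (cm X)^[i] W = exp X * W * exp (-X) := by
  obtain ⟨m, hm⟩ := hX
  have hm' : (-X) ^ m = 0 := neg_pow_zero hm
  have l0 : LinearMap.mulLeft ℚ X ^ m = 0 := by rw [LinearMap.pow_mulLeft, hm]; simp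
  have r0 : LinearMap.mulRight ℚ (-X) ^ m = 0 := by rw [LinearMap.pow_mulRight, hm']; simp
  have hc : Commute (LinearMap.mulLeft ℚ X) (LinearMap.mulRight ℚ (-X)) :=
    LinearMap.commute_mulLeft_right _ _
  have e : ∀ i, ((LinearMap.mulLeft ℚ X + LinearMap.mulRight ℚ (-X)) ^ i) • W = (cm X)^[i] W :=
    fun i => by
      rw [Module.End.smul_def, Module.End.pow_apply]
      congr 2
      funext y
      simp [cm, sub_eq_add_neg]
  have h1 := exp_smul_eq_sum ((e k).trans h) (hc.isNilpotent_add ⟨m, l0⟩ ⟨m, r0⟩)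
  simp only [e] at h1
  rw [← h1, exp_add_of_commute hc ⟨m, l0⟩ ⟨m, r0⟩, exp_eq_sum l0, exp_eq_sum r0, exp_eq_sum hm,
    exp_eq_sum hm', Module.End.smul_def, Module.End.mul_apply, mul_assoc]
  simp only [LinearMap.sum_apply, LinearMap.smul_apply, LinearMap.pow_mulLeft,
    LinearMap.pow_mulRight, LinearMap.mulLeft_apply, LinearMap.mulRight_apply, Finset.sum_mul,
    smul_mul_assoc]
  simp only [Finset.mul_sum, mul_smul_comm]

theorem mem {A : Type} [Ring A] [Algebra ℚ A] (Φ : Filt A) {X W : A} (hX : X ∈ Φ.F 0)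
    (hW : W ∈ Φ.F 0) (k : ℕ) : (cm X)^[k] W ∈ Φ.F k := by
  induction k with
  | zero => exact hW
  | succ k ih =>
    rw [Function.iterate_succ_apply']
    exact sub_mem (Φ.mul_l k _ _ hX ih) (Φ.mul_r k _ _ ih hX)

end GAAdA

open GAAdA GAMulA in
theorem gaAd : SAd := by
  intro ι κ _ _ _ Φ B c h
  have m := sMul ι κ Φ B c h
  have it : ∀ x w k, vl B ((br c x)^[k] w) = (cm (vec B x))^[k] (vec B w) := fun x w k => by
    induction k with
    | zero => rfl
    | succ k ih => rw [Function.iterate_succ_apply', Function.iterate_succ_apply', vbr h, ih]; rfl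
  have a1 : ∀ x w, vec B (Ad Φ.N c x w) = ex B x * vec B w * ex B (-x) := fun x w => by
    have e : ex B (-x) = exp (-vec B x) := by rw [ex, vl_eq, map_neg]; rfl
    rw [e, ex, ← conj (Φ.nil (h.mem x)) (k := Φ.N + 1)
      (Φ.bot _ (Φ.anti _ (mem Φ (h.mem x) (h.mem w) _))), vl_eq, Ad]
    simp only [map_sum, map_rat_smul, it]
  have ij : ∀ s t, vec B s = vec B t → s = t := fun s t e => inj h e
  refine ⟨a1, fun x y w => ij _ _ ?_, fun x u v => ij _ _ ?_, fun x w => ?_, fun x w => ij _ _ ?_⟩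
  · have e : ex B (-bch Φ.N c x y) = ex B (-y) * ex B (-x) := by
      refine left_inv_eq_right_inv (m.neg _).1 ?_
      rw [← m.mul, mul_assoc, ← mul_assoc (ex B y), (m.neg y).2, one_mul, (m.neg x).2]
    rw [a1, a1, a1, e, ← m.mul]
    simp only [mul_assoc]
  · have e : ∀ z, ex B (-x) * (ex B x * z) = z := fun z => by rw [← mul_assoc, (m.neg x).1, one_mul]
    rw [a1, m.vbr, m.vbr, a1, a1]
    simp only [cm, mul_sub, sub_mul, mul_assoc, e]
  · rw [ex, a1]
    exact exp_smul (ConjAct.toConjAct (⟨ex B x, ex B (-x), (m.neg x).2, (m.neg x).1⟩ : (Mt ι)ˣ))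
      (Φ.nil (h.mem w))
  · rw [a1, a1, neg_neg, ← mul_assoc, ← mul_assoc, (m.neg x).1, one_mul, mul_assoc, (m.neg x).1,
      mul_one]

end Pool.Agent.MP_5168f5_an.AN.GA
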