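import Pool.Agent.MP_5168f5_an.AN.GASpec

/-! Kakeya sets in all dimensions: the universal series for the product of exponentials. -/

namespace Pool.Agent.MP_5168f5_an.AN.GA

open H61Z IsNilpotent

namespace GABchA

section Gen

variable {A : Type} [Ring A] [Algebra ℚ A] (Φ : Filt A) {α : Type} {f : α → A}

theorem cm_mem {n : ℕ} {x y : A} (hx : x ∈ Φ.F 0) (hy : y ∈ Φ.F n) :
    cm x y ∈ Φ.F (n + 1) ∧ cm y x ∈ Φ.F (n + 1) :=
  ⟨sub_mem (Φ.mul_l _ _ _ hx hy) (Φ.mul_r _ _ _ hy hx),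
    sub_mem (Φ.mul_r _ _ _ hy hx) (Φ.mul_l _ _ _ hx hy)⟩

theorem len_pos (w : Wd α) : 1 ≤ w.len := by
  induction w with
  | of a => exact le_rfl
  | br u v hu hv => exact hu.trans (Nat.le_add_right _ _)

theorem ev_mem (hf : ∀ a, f a ∈ Φ.F 0) (w : Wd α) : w.ev cm f ∈ Φ.F 0 ∧
    (2 ≤ w.len → w.ev cm f ∈ Φ.F 1) ∧ (3 ≤ w.len → w.ev cm f ∈ Φ.F 2) := by
  induction w with
  | of a => exact ⟨hf a, fun h => absurd h (by simp [Wd.len]), fun h => absurd h (by simp [Wd.len])⟩
  | br u v hu hv =>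
    have h1 : (Wd.br u v).ev cm f ∈ Φ.F 1 := (cm_mem Φ hu.1 hv.1).1
    refine ⟨Φ.le0 _ h1, fun _ => h1, fun h => ?_⟩
    by_cases e : 2 ≤ u.len
    · exact (cm_mem Φ hv.1 (hu.2.1 e)).2
    · exact (cm_mem Φ hu.1 (hv.2.1 (by simp only [Wd.len] at h; omega))).1

theorem map_ev {A' : Type} [Ring A'] (g : A →+* A') (w : Wd α) :
    g (w.ev cm f) = w.ev cm fun a => g (f a) := by
  induction w with
  | of a => rfl
  | br u v hu hv => simp only [Wd.ev, cm, map_sub, map_mul] at *; rw [hu, hv]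

end Gen

/-- The letters. -/
def lt {A : Type} (x y : A) : Bool → A := fun i => bif i then x else y

variable (N : ℕ)

/-- The relations that hold in nilpotency class `N`. -/
def rc : RingCon (FreeAlgebra ℚ Bool) where
  r a b := ∀ (A : Type) [Ring A] [Algebra ℚ A] (Φ : Filt A), Φ.N ≤ N → ∀ x ∈ Φ.F 0, ∀ y ∈ Φ.F 0,
    FreeAlgebra.lift ℚ (lt x y) a = FreeAlgebra.lift ℚ (lt x y) b
  iseqv := ⟨fun _ _ _ _ _ _ _ _ _ _ => rfl, fun h A _ _ Φ e x hx y hy => (h A Φ e x hx y hy).symm,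
    fun h h' A _ _ Φ e x hx y hy => (h A Φ e x hx y hy).trans (h' A Φ e x hx y hy)⟩
  add' := fun h h' A _ _ Φ e x hx y hy => by
    rw [map_add, map_add, h A Φ e x hx y hy, h' A Φ e x hx y hy]
  mul' := fun h h' A _ _ Φ e x hx y hy => by
    rw [map_mul, map_mul, h A Φ e x hx y hy, h' A Φ e x hx y hy]

/-- The universal algebra. -/
abbrev U : Type := (rc N).Quotient

variable {N}

/-- The map to a test algebra. -/
noncomputable def pj {A : Type} [Ring A] [Algebra ℚ A] {Φ : Filt A} (e : Φ.N ≤ N) {x y : A}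
    (hx : x ∈ Φ.F 0) (hy : y ∈ Φ.F 0) : U N →+* A :=
  RingCon.lift (rc N) (FreeAlgebra.lift ℚ (lt x y) : FreeAlgebra ℚ Bool →ₐ[ℚ] A)
    fun _ _ h => h A Φ e x hx y hy

variable (N)

/-- The generators. -/
def gn (i : Bool) : U N := (rc N).mk' (FreeAlgebra.ι ℚ i)

theorem pj_gn {A : Type} [Ring A] [Algebra ℚ A] {Φ : Filt A} (e : Φ.N ≤ N) {x y : A}
    (hx : x ∈ Φ.F 0) (hy : y ∈ Φ.F 0) (i : Bool) : pj e hx hy (gn N i) = lt x y i :=
  FreeAlgebra.lift_ι_apply _ _

/-- The filtration of the universal algebra. -/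
noncomputable def FU : Filt (U N) where
  F n :=
    { carrier := {u | ∀ (A : Type) [Ring A] [Algebra ℚ A] (Φ : Filt A) (e : Φ.N ≤ N) (x y : A)
        (hx : x ∈ Φ.F 0) (hy : y ∈ Φ.F 0), pj e hx hy u ∈ Φ.F n}
      add_mem' := fun h h' A _ _ Φ e x y hx hy => by
        rw [map_add]; exact add_mem (h A Φ e x y hx hy) (h' A Φ e x y hx hy)
      zero_mem' := fun A _ _ Φ e x y hx hy => by rw [map_zero]; exact zero_mem _
      smul_mem' := fun q u h A _ _ Φ e x y hx hy => by
        rw [map_rat_smul]; exact Submodule.smul_mem _ _ (h A Φ e x y hx hy) }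
  N := N
  anti n u h A _ _ Φ e x y hx hy := Φ.anti n (h A Φ e x y hx hy)
  mul_l n u v h h' A _ _ Φ e x y hx hy := by
    rw [map_mul]; exact Φ.mul_l _ _ _ (h A Φ e x y hx hy) (h' A Φ e x y hx hy)
  mul_r n u v h h' A _ _ Φ e x y hx hy := by
    rw [map_mul]; exact Φ.mul_r _ _ _ (h A Φ e x y hx hy) (h' A Φ e x y hx hy)
  bot u h := by
    obtain ⟨a, rfl⟩ := (rc N).mk'_surjective u
    rw [← map_zero (rc N).mk']
    refine (RingCon.eq _).2 fun A _ _ Φ e x hx y hy => ?_
    rw [map_zero]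
    exact Φ.bot _ (Φ.mono e (h A Φ e x y hx hy))

theorem gn_mem (i : Bool) : gn N i ∈ (FU N).F 0 := fun A _ _ Φ e x y hx hy => by
  rw [pj_gn]; cases i <;> assumption

theorem univ : ∃ (a b γ : ℚ) (l : Wd Bool →₀ ℚ), (∀ w ∈ l.support, 3 ≤ w.len) ∧
    ∀ (A : Type) [Ring A] [Algebra ℚ A] (Φ : Filt A), Φ.N ≤ N → ∀ x ∈ Φ.F 0, ∀ y ∈ Φ.F 0,
      exp x * exp y = exp (a • x + b • y + γ • cm x y + l.sum fun w q => q • w.ev cm (lt x y)) := by
  let v : Wd Bool → U N := fun w => w.ev cm (gn N)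
  let g := Submodule.span ℚ (Set.range v)
  have hg : g ≤ (FU N).F 0 := Submodule.span_le.2 (by
    rintro _ ⟨w, rfl⟩; exact (ev_mem _ (gn_mem N) w).1)
  have hbr : ∀ x ∈ g, ∀ y ∈ g, x * y - y * x ∈ g := by
    intro x hx y hy
    induction hx using Submodule.span_induction with
    | mem x hx =>
      obtain ⟨u, rfl⟩ := hx
      induction hy using Submodule.span_induction with
      | mem y hy => obtain ⟨w, rfl⟩ := hy; exact Submodule.subset_span ⟨.br u w, rfl⟩
      | zero => simp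
      | add y y' _ _ h h' => convert add_mem h h' using 1; noncomm_ring
      | smul q y _ h => rw [mul_smul_comm, smul_mul_assoc, ← smul_sub]; exact g.smul_mem _ h
    | zero => simp
    | add x x' _ _ h h' => convert add_mem h h' using 1; noncomm_ring
    | smul q x _ h => rw [mul_smul_comm, smul_mul_assoc, ← smul_sub]; exact g.smul_mem _ h
  obtain ⟨z, hz, e⟩ := (FU N).exp_mul hg hbr (x := gn N true) (y := gn N false)
    (Submodule.subset_span ⟨.of true, rfl⟩) (Submodule.subset_span ⟨.of false, rfl⟩)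
  have hle : g ≤ Submodule.span ℚ {gn N true, gn N false, cm (gn N true) (gn N false)} ⊔
      Submodule.span ℚ (v '' {w | 3 ≤ w.len}) := by
    refine Submodule.span_le.2 ?_
    rintro _ ⟨w, rfl⟩
    by_cases h3 : 3 ≤ w.len
    · exact Submodule.mem_sup_right (Submodule.subset_span ⟨w, h3, rfl⟩)
    refine Submodule.mem_sup_left ?_
    have hc : cm (gn N true) (gn N false) ∈ Submodule.span ℚ
        ({gn N true, gn N false, cm (gn N true) (gn N false)} : Set (U N)) :=
      Submodule.subset_span (by simp)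
    match w, h3 with
    | .of i, _ => cases i <;> exact Submodule.subset_span (by simp [v, Wd.ev])
    | .br (.of i) (.of k), _ =>
      cases i <;> cases k
      · simp [v, Wd.ev, cm]
      · convert neg_mem hc using 1; simp [v, Wd.ev, cm]
      · exact hc
      · simp [v, Wd.ev, cm]
    | .br (.br u u') w, h3 =>
      have := len_pos u; have := len_pos u'; have := len_pos w
      simp only [Wd.len] at h3; omega
    | .br (.of i) (.br u u'), h3 =>
      have := len_pos u; have := len_pos u'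
      simp only [Wd.len] at h3; omega
  obtain ⟨z1, h1, z3, h3, rfl⟩ := Submodule.mem_sup.1 (hle hz)
  obtain ⟨a, z2, h2, rfl⟩ := Submodule.mem_span_insert.1 h1
  obtain ⟨b, γ, rfl⟩ := Submodule.mem_span_pair.1 h2
  obtain ⟨l, hl, rfl⟩ := (Finsupp.mem_span_image_iff_linearCombination ℚ).1 h3
  refine ⟨a, b, γ, l, fun w hw => hl hw, fun A _ _ Φ hN x hx y hy => ?_⟩
  have := congrArg (pj hN hx hy) e
  rw [map_mul, map_exp ((FU N).nil (gn_mem N _)), map_exp ((FU N).nil (gn_mem N _)),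
    map_exp ((FU N).nil (hg hz)), pj_gn, pj_gn] at this
  refine this.trans (congrArg _ ?_)
  simp only [map_add, map_rat_smul, Finsupp.linearCombination_apply, Finsupp.sum, map_sum, v, map_ev,
    pj_gn, cm, map_sub, map_mul, add_assoc]
  rfl

/-- Strictly upper triangular matrices of size three. -/
def FH : Filt (Matrix (Fin 3) (Fin 3) ℚ) where
  F n :=
    { carrier := {m | ∀ i j : Fin 3, (j : ℕ) ≤ i + n → m i j = 0}
      add_mem' := fun h h' i j e => by simp [h i j e, h' i j e]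
      zero_mem' := fun _ _ _ => rfl
      smul_mem' := fun q m h i j e => by simp [h i j e] }
  N := 2
  anti n m h i j e := h i j (by omega)
  mul_l n x y h h' i j e := Matrix.mul_apply.trans <| Finset.sum_eq_zero fun k _ => by
    by_cases c : (k : ℕ) ≤ i + 0
    · rw [h i k c, zero_mul]
    · rw [h' k j (by omega), mul_zero]
  mul_r n x y h h' i j e := Matrix.mul_apply.trans <| Finset.sum_eq_zero fun k _ => by
    by_cases c : (k : ℕ) ≤ i + n
    · rw [h i k c, zero_mul]
    · rw [h' k j (by omega), mul_zero]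
  bot m h := Matrix.ext fun i j => h i j (by omega)

end GABchA

open GABchA in
theorem gaBch : SBch := fun N => by
  refine Classical.epsilon_spec (p := IsB N) ?_
  obtain ⟨a, b, γ, l, h3, h⟩ := univ (max N 2)
  have hx : !![0, 1, 0; 0, 0, 0; 0, 0, 0] ∈ FH.F 0 := fun i j e => by
    fin_cases i <;> fin_cases j <;> simp_all
  have hy : !![0, 0, 0; 0, 0, 1; 0, 0, 0] ∈ FH.F 0 := fun i j e => by
    fin_cases i <;> fin_cases j <;> simp_all
  have e := h _ FH (le_max_right _ _) _ hx _ hy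
  have z : (l.sum fun w q => q • w.ev cm (lt !![0, 1, 0; 0, 0, 0; 0, 0, 0]
      !![0, 0, 0; 0, 0, 1; 0, 0, (0 : ℚ)])) = 0 := Finset.sum_eq_zero fun w hw => by
    beta_reduce
    rw [FH.bot _ ((ev_mem FH (fun i => by cases i <;> assumption) w).2.2 (h3 w hw)), smul_zero]
  rw [z, add_zero, exp_eq_sum (FH.pow_zero' hx), exp_eq_sum (FH.pow_zero' hy),
    exp_eq_sum (FH.pow_zero' (add_mem (add_mem (Submodule.smul_mem _ _ hx)
      (Submodule.smul_mem _ _ hy)) (Submodule.smul_mem _ _ (FH.le0 _ (cm_mem FH hx hy).1))))] at e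
  have e1 := congrFun (congrFun e 0) 1
  have e2 := congrFun (congrFun e 1) 2
  have e3 := congrFun (congrFun e 0) 2
  simp [FH, Finset.sum_range_succ, cm, pow_two, Matrix.mul_apply, Fin.sum_univ_three,
    Matrix.one_apply] at e1 e2 e3
  subst e1 e2
  obtain rfl : γ = 1 / 2 := by linarith
  exact ⟨l, h3, fun A _ _ Φ hN x hx y hy => by
    have := h A Φ (hN.trans (le_max_left _ _)) x hx y hy
    rwa [one_smul, one_smul] at this⟩

end Pool.Agent.MP_5168f5_an.AN.GA
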