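import Pool.Agent.MP_5168f5_an.AN.GAApi

/-! Kakeya sets in all dimensions: framed nilpotent groups and their cells, statements. -/

namespace Pool.Agent.MP_5168f5_an.AN.GA

open H19 H17S H17F G39 Filter H61Z IsNilpotent

/-- The universal series exists. -/
def SBch : Prop := ∀ N, IsB N (BL N)

/-- The series commutes with ring maps. -/
def SMap : Prop := ∀ (κ R S : Type) [Fintype κ] [CommRing R] [CommRing S] [Algebra ℚ R]
  [Algebra ℚ S] (f : R →+* S) (N : ℕ) (c : κ → κ → κ → R) (s t : κ → R),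
  (∀ e, f (br c s t e) = br (fun a b e => f (c a b e)) (fun a => f (s a)) (fun a => f (t a)) e) ∧
  (∀ e, f (bch N c s t e) =
    bch N (fun a b e => f (c a b e)) (fun a => f (s a)) (fun a => f (t a)) e) ∧
  ∀ (α : Type) (w : Wd α) (g : α → κ → R) (e : κ), f (w.ev (br c) g e) =
    w.ev (br fun a b e => f (c a b e)) (fun i a => f (g i a)) e

/-- The group law in coordinates. -/
structure Mul {ι κ : Type} [Fintype ι] [DecidableEq ι] [Fintype κ] (Φ : Filt (Mt ι))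
    (B : κ → Mt ι) (c : κ → κ → κ → ℝ) : Prop where
  vbr : ∀ s t, vec B (br c s t) = cm (vec B s) (vec B t)
  mul : ∀ s t, ex B s * ex B t = ex B (bch Φ.N c s t)
  zero : ex B 0 = 1
  neg : ∀ t, ex B (-t) * ex B t = 1 ∧ ex B t * ex B (-t) = 1
  inj : ∀ s t, ex B s = ex B t → s = t
  lg : ∀ x t, IsUnit x → lg B x (x * ex B t) = t
  anti : ∀ a b e, c a b e = -c b a e
  jac : ∀ s t u, br c (br c s t) u = br c s (br c t u) - br c t (br c s u)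
  assoc : ∀ s t u, bch Φ.N c (bch Φ.N c s t) u = bch Φ.N c s (bch Φ.N c t u)
  one : ∀ t, bch Φ.N c t 0 = t ∧ bch Φ.N c 0 t = t
  inv : ∀ t, bch Φ.N c (-t) t = 0 ∧ bch Φ.N c t (-t) = 0

def SMul : Prop := ∀ (ι κ : Type) [Fintype ι] [DecidableEq ι] [Fintype κ] (Φ : Filt (Mt ι))
  (B : κ → Mt ι) (c : κ → κ → κ → ℝ), IsFr Φ B c → Mul Φ B c

def OfMul : Prop := SBch → SMul

/-- Estimates for the series on boxes. -/
def SBox : Prop := ∀ N k : ℕ, ∃ K : ℕ, 1 ≤ K ∧ ∀ (κ : Type) [Fintype κ] (c : κ → κ → κ → ℝ)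
  (r r' : κ → ℝ) (L η : ℝ) (s t s' t' : κ → ℝ), Fintype.card κ ≤ k → 1 ≤ L → 0 ≤ η →
  (∀ a, 0 ≤ r a ∧ 0 ≤ r' a) → (∀ a b e, c a b e = -c b a e) → Idl c r r L → Idl c r r' L →
  Bx r L s → Bx r L t → Bx r L s' → Bx r L t' →
  Bx r ((K * L) ^ K) (bch N c s t) ∧ (Bx r' η (s - s') → Bx r' η (t - t') →
    Bx r' ((K * L) ^ K * η) (bch N c s t - bch N c s' t'))

/-- Boxes in the group. -/
def SNr : Prop := ∀ N k : ℕ, ∃ K : ℕ, 1 ≤ K ∧ ∀ (ι κ : Type) [Fintype ι] [DecidableEq ι]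
  [Fintype κ] (Φ : Filt (Mt ι)) (B : κ → Mt ι) (c : κ → κ → κ → ℝ) (r r' : κ → ℝ) (L η : ℝ)
  (x y z : Mt ι), Φ.N = N → Fintype.card κ ≤ k → IsFr Φ B c → 1 ≤ L → 0 ≤ η →
  (∀ a, 0 ≤ r a ∧ 0 ≤ r' a) → Idl c r r L → Idl c r r' L →
  (Nr B r L x y → Nr B r L y x) ∧
  (Nr B r L x y → Nr B r L y z → Nr B r ((K * L) ^ K) x z) ∧
  (IsUnit x → Nr B r L x y → y = x * ex B (lg B x y) ∧ Bx r L (lg B x y)) ∧
  (IsUnit x → Nr B r L x y → Nr B r L x z → Bx r' η (lg B x z - lg B x y) →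
    Nr B r' ((K * L) ^ K * η) y z) ∧
  (IsUnit x → Nr B r L x y → Nr B r L y z → Nr B r' η y z →
    Bx r' ((K * L) ^ K * η) (lg B x z - lg B x y))

def OfNr : Prop := SMul → SBox → SNr

/-- The net of a reflexive symmetric relation. -/
def SNet : Prop := ∀ (A : Type) (R : A → A → Prop), (∀ x, R x x) → (∀ x y, R x y → R y x) →
  (∀ x, R (netc R x) x) ∧ ∀ x y, R (netc R x) (netc R y) → netc R x = netc R y

/-- Cells, and the number of small cells in a box. -/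
def SCell : Prop := ∀ N k : ℕ, ∃ K : ℕ, 1 ≤ K ∧ ∀ (ι κ : Type) [Fintype ι] [DecidableEq ι]
  [Fintype κ] (Φ : Filt (Mt ι)) (B : κ → Mt ι) (c : κ → κ → κ → ℝ) (r r' : κ → ℝ) (L : ℝ),
  Φ.N = N → Fintype.card κ ≤ k → IsFr Φ B c → 1 ≤ L → (∀ a, 0 < r' a ∧ r' a ≤ L * r a) →
  (∀ x, Nr B r' 1 (cell B r' x) x) ∧ (Idl c r r L → Idl c r r' L → ∀ y, IsUnit y →
    ∃ T : Finset (Mt ι), (T.card : ℝ) ≤ (K * L) ^ K * ∏ a, r a / r' a ∧
      ∀ x, Nr B r L y x → cell B r' x ∈ T)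

def OfCell : Prop := SMul → SNr → SNet → SCell

section Seq

/-- Good depths give ideals. -/
def SIdR : Prop := ∀ (κ : Type) [Fintype κ] (M : ℕ → ℕ) (c : ℕ → κ → κ → κ → ℝ) (d d' : κ → ℝ),
  Big M → (∀ a b e, OB M fun n => c n a b e) → Id M c d d → Id M c d d' → (∀ a, d a ≤ d' a) →
  IdR M c (rad M d) (rad M d')

/-- A variable that locates `j` in a box determines the cell. -/
def SDet : Prop := ∀ (ι κ : Type) [Fintype ι] [DecidableEq ι] [Fintype κ] (M : ℕ → ℕ)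
  (Φ : Filt (Mt ι)) (B : ℕ → κ → Mt ι) (c : ℕ → κ → κ → κ → ℝ) (Ω β : ℕ → Type)
  (P : ∀ n, FP (Ω n)) (j0 j : ∀ n, Ω n → Mt ι) (Y : ∀ n, Ω n → β n)
  (rp : ∀ n, β n → Mt ι) (r : ℕ → κ → ℝ) (L : ℕ → ℝ), Big M → (∀ᶠ n in UF, IsFr Φ (B n) (c n)) →
  IdR M c r r → Sure M P B r j0 j → (∀ᶠ n in UF, Fn (P n) (j0 n) (Y n)) → Sub M L →
  Whp P (fun n ω => Nr (B n) (r n) (L n) (rp n (Y n ω)) (j n ω)) →
  Sm M fun n => ch (P n) (fun ω => cell (B n) (r n) (j n ω)) (Y n)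

def OfDet : Prop := SMul → SNr → SCell → SDet

/-- Counting and rounding for an ideal. -/
def SCnt : Prop := ∀ (ι κ : Type) [Fintype ι] [DecidableEq ι] [Fintype κ] (M : ℕ → ℕ)
  (Φ : Filt (Mt ι)) (B : ℕ → κ → Mt ι) (c : ℕ → κ → κ → κ → ℝ) (Ω : ℕ → Type)
  (P : ∀ n, FP (Ω n)) (j : ∀ n, Ω n → Mt ι) (r r' : ℕ → κ → ℝ), Big M →
  (∀ᶠ n in UF, IsFr Φ (B n) (c n)) → (∀ᶠ n in UF, ∀ ω ∈ (P n).S, IsUnit (j n ω)) →
  IdR M c r r' → IdR M c r' r' →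
  Le M (fun n => ch (P n) (fun ω => cell (B n) (r' n) (j n ω)) fun ω => cell (B n) (r n) (j n ω))
    (fun n => ∑ a, Real.log (r n a / r' n a)) ∧
  Sm M (fun n => ch (P n) (fun ω => cell (B n) (r n) (j n ω)) fun ω => cell (B n) (r' n) (j n ω)) ∧
  Sm M (fun n => ch (P n) (fun ω => cell (B n) (r' n) (j n ω))
    fun ω => rnd (B n) (r n) (r' n) (j n ω)) ∧
  Sm M (fun n => ch (P n) (fun ω => rnd (B n) (r n) (r' n) (j n ω))
    fun ω => cell (B n) (r' n) (j n ω))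

def OfCnt : Prop := SMul → SNr → SCell → SCnt

/-- Counting for two good depths. -/
def SCntW : Prop := ∀ (ι κ : Type) [Fintype ι] [DecidableEq ι] [Fintype κ] (M : ℕ → ℕ)
  (Φ : Filt (Mt ι)) (om : κ → ℝ × ℝ) (pos : κ → Prop) (B : ℕ → κ → Mt ι)
  (c : ℕ → κ → κ → κ → ℝ) (Ω : ℕ → Type) (P : ∀ n, FP (Ω n)) (j : ∀ n, Ω n → Mt ι)
  (d d' : κ → ℝ), Alg M Φ om pos B c → (∀ᶠ n in UF, ∀ ω ∈ (P n).S, IsUnit (j n ω)) →
  Id M c d d → Id M c d' d' → (∀ a, d a ≤ d' a) → (∀ a, om a = 0 → d a = d' a) →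
  Le M (fun n => ch (P n) (fun ω => cl M B d' n (j n ω)) fun ω => cl M B d n (j n ω))
    (fun n => (∑ a, (d' a - d a)) * M n) ∧
  Sm M fun n => ch (P n) (fun ω => cl M B d n (j n ω)) fun ω => cl M B d' n (j n ω)

def OfCntW : Prop := SIdR → SCnt → SCntW

/-- Boxes for a rescaled or changed basis. -/
def SFr : Prop := ∀ (ι κ : Type) [Fintype ι] [DecidableEq ι] [Fintype κ] [DecidableEq κ]
  (Φ : Filt (Mt ι)) (B : κ → Mt ι) (c : κ → κ → κ → ℝ),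
  (∀ ρ r : κ → ℝ, (∀ a, 0 < ρ a) → (IsFr Φ B c → IsFr Φ (sB ρ B) (sC ρ c)) ∧
    (∀ L, Nr (sB ρ B) r L = Nr B (fun a => ρ a * r a) L) ∧
    cell (sB ρ B) r = cell B (fun a => ρ a * r a) ∧
    (IsFr Φ B c → ∀ x t, IsUnit x → ∀ a,
      lg (sB ρ B) x (x * ex B t) a = lg B x (x * ex B t) a / ρ a)) ∧
  ∀ A A' : Matrix κ κ ℝ, A * A' = 1 → (IsFr Φ B c → IsFr Φ (mB A B) (mC A A' c)) ∧
    mB A' (mB A B) = B ∧ (∀ t, ex (mB A B) t = ex B (Matrix.vecMul t A)) ∧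
    ∀ (r r' : κ → ℝ) (L L' : ℝ) (x y : Mt ι), 0 ≤ L → (∀ a e, |A a e| * r' a ≤ L' * r e) →
      Nr (mB A B) r' L x y → Nr B r (Fintype.card κ * L * L') x y

def OfFr : Prop := SMul → SFr

/-- Shift of the level (by `x n`, in absolute units) and change to a smaller unit. -/
def SThr : Prop := ∀ (ι κ : Type) [Fintype ι] [DecidableEq ι] [Fintype κ] (M : ℕ → ℕ)
  (Φ : Filt (Mt ι)) (om : κ → ℝ × ℝ) (pos : κ → Prop) (B : ℕ → κ → Mt ι)
  (c : ℕ → κ → κ → κ → ℝ), Alg M Φ om pos B c → ∃ M0 : ℕ → ℝ, Sm M M0 ∧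
  ∀ (M' : ℕ → ℕ) (x : ℕ → ℝ × ℝ) (C : ℝ), Big M' → Sm M' M0 →
    (∀ᶠ n in UF, (M' n : ℝ) ≤ C * M n ∧ 0 ≤ (x n).1 ∧ (x n).1 ≤ C * M n ∧ 0 ≤ (x n).2 ∧
      (x n).2 ≤ C * M n) →
    Alg M' Φ om pos (fun n => sB (fun a => Real.exp (-dep om (x n) a)) (B n))
      (fun n => sC (fun a => Real.exp (-dep om (x n) a)) (c n)) ∧
    ∀ a b e, (Neg M fun n => c n a b e) →
      Neg M' fun n => sC (fun a => Real.exp (-dep om (x n) a)) (c n) a b e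

def OfThr : Prop := SFr → SThr

/-- The constants as elements of the residue field. -/
noncomputable def ck {κ : Type} {M : ℕ → ℕ} (hM : Big M) {c : ℕ → κ → κ → κ → ℝ}
    (h : ∀ a b e, OB M fun n => c n a b e) : κ → κ → κ → kk hM :=
  fun a b e => rd hM ⟨fun n => c n a b e, h a b e⟩

open Classical in
/-- A mixed index of largest total weight is central; quotient by a central index; moving a
position to the stabiliser. -/
def SQuot : Prop := ∀ (ι κ : Type) [Fintype ι] [DecidableEq ι] [Fintype κ] (M : ℕ → ℕ)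
  (Φ : Filt (Mt ι)) (om : κ → ℝ × ℝ) (pos : κ → Prop) (B : ℕ → κ → Mt ι)
  (c : ℕ → κ → κ → κ → ℝ) (f : κ), Alg M Φ om pos B c →
  (Mx om f → (∀ a, Mx om a → (om a).1 + (om a).2 ≤ (om f).1 + (om f).2) → Cen M om c f) ∧
  (Cen M om c f → Alg M Φ (Function.update om f 0) (fun a => pos a ∧ a ≠ f) B c) ∧
  ((∀ a e, ¬pos a → pos e → e ≠ f → Neg M fun n => c n f a e) →
    Alg M Φ om (fun a => pos a ∧ a ≠ f) B c) ∧
  (pos f → (∀ a, pos a → (om a).1 + (om a).2 ≤ (om f).1 + (om f).2) →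
    ∀ a e, pos e → Neg M fun n => c n f a e)

def OfQuot : Prop := SMul → SQuot

/-- A change of basis inside the weight spaces that keeps the stabiliser. -/
def SChg : Prop := ∀ (ι κ : Type) [Fintype ι] [DecidableEq ι] [Fintype κ] [DecidableEq κ]
  (M : ℕ → ℕ) (Φ : Filt (Mt ι)) (om : κ → ℝ × ℝ) (pos : κ → Prop) (B : ℕ → κ → Mt ι)
  (c : ℕ → κ → κ → κ → ℝ) (A A' : ℕ → Matrix κ κ ℝ), Alg M Φ om pos B c →
  (∀ᶠ n in UF, A n * A' n = 1) → (∀ a e, OB M (fun n => A n a e) ∧ OB M fun n => A' n a e) →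
  (∀ a e, om a ≠ om e ∨ (¬pos a ∧ pos e) →
    Neg M (fun n => A n a e) ∧ Neg M fun n => A' n a e) →
  Alg M Φ om pos (fun n => mB (A n) (B n)) fun n => mC (A n) (A' n) (c n)

def OfChg : Prop := SFr → SChg

/-- The natural depths and their standard modifications are good. -/
def SGood : Prop := ∀ (ι κ : Type) [Fintype ι] [DecidableEq ι] [Fintype κ] (M : ℕ → ℕ)
  (Φ : Filt (Mt ι)) (om : κ → ℝ × ℝ) (pos : κ → Prop) (B : ℕ → κ → Mt ι)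
  (c : ℕ → κ → κ → κ → ℝ), Alg M Φ om pos B c →
  (∀ d d' : κ → ℝ, (∀ a, 0 ≤ d a ∧ 0 ≤ d' a) → (∀ a, om a = 0 → d' a = 0) →
    (∀ a b e, Hm om a b e → d' e ≤ d a + d' b) → Id M c d d') ∧
  (∀ x : ℝ × ℝ, 0 ≤ x.1 → 0 ≤ x.2 → Id M c (dep om x) (dep om x)) ∧
  (∀ (d d' : κ → ℝ) (r : ℝ), Id M c d d → 0 ≤ r → (∀ a, pos a → d' a = d a + r) →
    (∀ a, ¬pos a → d' a = d a) → Id M c d' d') ∧
  ∀ d d' : κ → ℝ, Id M c d d → Id M c d' d' →
    Id M c (fun a => max (d a) (d' a)) fun a => max (d a) (d' a)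

/-- Identities and filtration estimates for the series over any rational algebra. `V i` is any
family of submodules with `[V i, V j] ⊆ V (i + j)`. -/
def SFil : Prop := ∀ (κ R : Type) [Fintype κ] [CommRing R] [Algebra ℚ R] (N : ℕ)
  (c : κ → κ → κ → R), (∀ a b e, c a b e = -c b a e) →
  (∀ s t, br c s t = 0 → bch N c s t = s + t) ∧
  (∀ (y : κ → R) (u v : R), bch N c (u • y) (v • y) = (u + v) • y) ∧
  ∀ (V : ℝ → Submodule ℚ (κ → R)) (μ σ τ : ℝ) (s t : κ → R), Antitone V →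
    (∀ i j, ∀ x ∈ V i, ∀ y ∈ V j, br c x y ∈ V (i + j)) → 0 ≤ μ → μ ≤ σ → μ ≤ τ → s ∈ V σ →
    t ∈ V τ → bch N c s t - s - t - (1 / 2 : ℚ) • br c s t ∈ V (σ + τ + μ)

def OfFil : Prop := SBch → SFil

/-- Weighted homogeneity: a linear map that respects the brackets respects the series. -/
def SHom : Prop := ∀ (κ κ' R : Type) [Fintype κ] [Fintype κ'] [CommRing R] [Algebra ℚ R] (N : ℕ)
  (c : κ → κ → κ → R) (c' : κ' → κ' → κ' → R) (φ : (κ → R) →ₗ[ℚ] (κ' → R))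
  (S : Submodule ℚ (κ → R)) (I : Submodule ℚ (κ' → R)),
  (∀ x ∈ S, ∀ y ∈ S, br c x y ∈ S ∧ φ (br c x y) - br c' (φ x) (φ y) ∈ I) →
  (∀ x ∈ S, ∀ y ∈ I, br c' (φ x) y ∈ I ∧ br c' y (φ x) ∈ I) → (∀ x ∈ I, ∀ y ∈ I, br c' x y ∈ I) →
  ∀ s ∈ S, ∀ t ∈ S, bch N c s t ∈ S ∧ φ (bch N c s t) - bch N c' (φ s) (φ t) ∈ I

/-- The group laws hold with coordinates in any real algebra. -/
def SExt : Prop := ∀ (ι κ S : Type) [Fintype ι] [DecidableEq ι] [Fintype κ] [CommRing S]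
  [Algebra ℚ S] (f : ℝ →+* S) (Φ : Filt (Mt ι)) (B : κ → Mt ι) (c : κ → κ → κ → ℝ),
  IsFr Φ B c → ∀ s t u : κ → S,
    bch Φ.N (fun a b e => f (c a b e)) (bch Φ.N (fun a b e => f (c a b e)) s t) u =
      bch Φ.N (fun a b e => f (c a b e)) s (bch Φ.N (fun a b e => f (c a b e)) t u)

def OfExt : Prop := SMap → SMul → SExt

end Seq

end Pool.Agent.MP_5168f5_an.AN.GA
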