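import Pool.Agent.MP_5168f5_an.AN.GAAll

/-! Kakeya sets in all dimensions: adjoint action, derivative of the series, cocycle. -/

namespace Pool.Agent.MP_5168f5_an.AN.GA

open H19 H17S H17F G39 Filter H61Z IsNilpotent

/-- The derivative of a word at the letters `f` in the direction `g`. -/
def Wd.dv {α L : Type} [Add L] (b : L → L → L) (f g : α → L) : Wd α → L
  | .of a => g a
  | .br u v => b (u.dv b f g) (v.ev b f) + b (u.ev b f) (v.dv b f g)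

section Coord

variable {κ R : Type} [Fintype κ] [CommRing R] [Algebra ℚ R]

/-- The derivative of the series at `(s, t)` in the direction `(s', t')`. -/
noncomputable def dbch (N : ℕ) (c : κ → κ → κ → R) (s t s' t' : κ → R) : κ → R :=
  s' + t' + (1 / 2 : ℚ) • (br c s' t + br c s t') + (BL N).sum fun w q =>
    q • w.dv (br c) (fun i => bif i then s else t) fun i => bif i then s' else t'

/-- The right logarithmic derivative of the exponential at `z` in the direction `w`. -/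
noncomputable def Ew (N : ℕ) (c : κ → κ → κ → R) (z w : κ → R) : κ → R := dbch N c z (-z) w 0

/-- The cocycle of the diagonal map `D`. -/
noncomputable def UU (N : ℕ) (c : κ → κ → κ → R) (D z : κ → R) : κ → R := Ew N c z (D * z)

/-- The adjoint action. -/
noncomputable def Ad (N : ℕ) (c : κ → κ → κ → R) (x w : κ → R) : κ → R :=
  ∑ k ∈ Finset.range (N + 1), ((k.factorial : ℚ))⁻¹ • (br c x)^[k] w

end Coord

/-- The adjoint action is conjugation. -/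
def SAd : Prop := ∀ (ι κ : Type) [Fintype ι] [DecidableEq ι] [Fintype κ] (Φ : Filt (Mt ι))
  (B : κ → Mt ι) (c : κ → κ → κ → ℝ), IsFr Φ B c →
  (∀ x w, vec B (Ad Φ.N c x w) = ex B x * vec B w * ex B (-x)) ∧
  (∀ x y w, Ad Φ.N c (bch Φ.N c x y) w = Ad Φ.N c x (Ad Φ.N c y w)) ∧
  (∀ x u v, Ad Φ.N c x (br c u v) = br c (Ad Φ.N c x u) (Ad Φ.N c x v)) ∧
  (∀ x w, ex B (Ad Φ.N c x w) = ex B x * ex B w * ex B (-x)) ∧
  ∀ x w, Ad Φ.N c (-x) (Ad Φ.N c x w) = w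

/-- Linearity, and the first terms of the adjoint action. -/
def SLin : Prop := ∀ (κ R : Type) [Fintype κ] [CommRing R] [Algebra ℚ R] (N : ℕ)
  (c : κ → κ → κ → R),
  (∀ x u v, Ad N c x (u + v) = Ad N c x u + Ad N c x v) ∧
  (∀ x (a : R) u, Ad N c x (a • u) = a • Ad N c x u) ∧ (∀ w, Ad N c 0 w = w) ∧
  (∀ s t u v u' v', dbch N c s t (u + u') (v + v') = dbch N c s t u v + dbch N c s t u' v') ∧
  (∀ s t (a : R) u v, dbch N c s t (a • u) (a • v) = a • dbch N c s t u v) ∧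
  ∀ (V : ℝ → Submodule ℚ (κ → R)) (σ τ : ℝ) (x w : κ → R), Antitone V →
    (∀ i j, ∀ x ∈ V i, ∀ y ∈ V j, br c x y ∈ V (i + j)) → 0 ≤ σ → x ∈ V σ → w ∈ V τ →
    Ad N c x w - w ∈ V (σ + τ) ∧ (1 ≤ N → Ad N c x w - w - br c x w ∈ V (2 * σ + τ))

/-- The exact chain rule. -/
def SDb : Prop := ∀ (ι κ : Type) [Fintype ι] [DecidableEq ι] [Fintype κ] (Φ : Filt (Mt ι))
  (B : κ → Mt ι) (c : κ → κ → κ → ℝ), IsFr Φ B c → ∀ s t s' t',
  Ew Φ.N c (bch Φ.N c s t) (dbch Φ.N c s t s' t') =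
    Ew Φ.N c s s' + Ad Φ.N c s (Ew Φ.N c t t')

def OfDb : Prop := SAd → SDb

/-- Estimates for the derivative and the adjoint action. -/
def SBox2 : Prop := ∀ N k : ℕ, ∃ K : ℕ, 1 ≤ K ∧ ∀ (κ : Type) [Fintype κ] (c : κ → κ → κ → ℝ)
  (r r' : κ → ℝ) (L η : ℝ) (s t s' t' : κ → ℝ), Fintype.card κ ≤ k → 1 ≤ L → 0 ≤ η →
  (∀ a, 0 ≤ r a ∧ 0 ≤ r' a) → (∀ a b e, c a b e = -c b a e) → Idl c r r L → Idl c r r' L →
  Bx r L s → Bx r L t → Bx r' η s' → Bx r' η t' →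
  Bx r' ((K * L) ^ K * η) (dbch N c s t s' t') ∧ Bx r' ((K * L) ^ K * η) (Ad N c s s') ∧
    Bx r' ((K * L) ^ K * η) (br c s s')

/-- A linear form that almost kills the brackets is almost additive. -/
def SAbel : Prop := ∀ N k : ℕ, ∃ K : ℕ, 1 ≤ K ∧ ∀ (κ : Type) [Fintype κ] (c : κ → κ → κ → ℝ)
  (r l : κ → ℝ) (L η : ℝ) (s t s' t' : κ → ℝ), Fintype.card κ ≤ k → 1 ≤ L → 0 ≤ η →
  (∀ a, 0 ≤ r a) → Idl c r r L → (∀ a b, |l ⬝ᵥ c a b| * r a * r b ≤ η) →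
  Bx r L s → Bx r L t → Bx r L s' → Bx r L t' →
  |l ⬝ᵥ (bch N c s t - s - t)| ≤ (K * L) ^ K * η ∧
    |l ⬝ᵥ (dbch N c s t s' t' - s' - t')| ≤ (K * L) ^ K * η ∧
    |l ⬝ᵥ (Ad N c s t - t)| ≤ (K * L) ^ K * η ∧ |l ⬝ᵥ br c s t| ≤ (K * L) ^ K * η

/-- A linear form that almost kills the double brackets sees only the quadratic term. -/
def SQuad : Prop := ∀ N k : ℕ, ∃ K : ℕ, 1 ≤ K ∧ ∀ (κ : Type) [Fintype κ] (c : κ → κ → κ → ℝ)
  (r l : κ → ℝ) (L η : ℝ) (s t : κ → ℝ), Fintype.card κ ≤ k → 1 ≤ L → 0 ≤ η →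
  (∀ a, 0 ≤ r a) → (∀ a b e, c a b e = -c b a e) → Idl c r r L →
  (∀ a b d, |∑ e, c a b e * (l ⬝ᵥ c e d)| * r a * r b * r d ≤ η) → Bx r L s → Bx r L t →
  |l ⬝ᵥ (bch N c s t - s - t - (1 / 2 : ℝ) • br c s t)| ≤ (K * L) ^ K * η ∧
    (1 ≤ N → |l ⬝ᵥ (Ad N c s t - t - br c s t)| ≤ (K * L) ^ K * η)

/-- An approximate derivation differentiates the series. -/
def SDer : Prop := ∀ N k : ℕ, ∃ K : ℕ, 1 ≤ K ∧ ∀ (κ : Type) [Fintype κ] (c : κ → κ → κ → ℝ)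
  (D r ρ : κ → ℝ) (L : ℝ) (s t : κ → ℝ), Fintype.card κ ≤ k → 1 ≤ L →
  (∀ a, 0 ≤ r a ∧ 0 ≤ ρ a) → (∀ a b e, c a b e = -c b a e) → Idl c r r L → Idl c r ρ L →
  (∀ a b e, |c a b e * (D e - D a - D b)| * r a * r b ≤ L * ρ e) → Bx r L s → Bx r L t →
  Bx ρ ((K * L) ^ K) (D * bch N c s t - dbch N c s t (D * s) (D * t))

/-- The cocycle relation. -/
def SCoc : Prop := ∀ N k : ℕ, ∃ K : ℕ, 1 ≤ K ∧ ∀ (ι κ : Type) [Fintype ι] [DecidableEq ι]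
  [Fintype κ] (Φ : Filt (Mt ι)) (B : κ → Mt ι) (c : κ → κ → κ → ℝ) (D r ρ : κ → ℝ) (L : ℝ)
  (s t : κ → ℝ), Φ.N = N → Fintype.card κ ≤ k → IsFr Φ B c → 1 ≤ L → (∀ a, 0 ≤ r a ∧ 0 ≤ ρ a) →
  Idl c r r L → Idl c r ρ L → (∀ a b e, |c a b e * (D e - D a - D b)| * r a * r b ≤ L * ρ e) →
  Bx r L s → Bx r L t →
  Bx ρ ((K * L) ^ K) (UU N c D (bch N c s t) - UU N c D s - Ad N c s (UU N c D t))

def OfCoc : Prop := SLin → SDb → SBox2 → SDer → SCoc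

end Pool.Agent.MP_5168f5_an.AN.GA
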