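import Pool.Agent.MP_5168f5_an.AN.GASpec

/-! Shift of the level and change to a smaller unit. -/

namespace Pool.Agent.MP_5168f5_an.AN.GA

open H19 H17S H17F G39 Filter H61Z

namespace GAThrA

variable {κ : Type} {om : κ → ℝ × ℝ} {x : ℝ × ℝ} {a b e : κ}

theorem sC_eq (c : κ → κ → κ → ℝ) : sC (fun a => Real.exp (-dep om x a)) c a b e =
    c a b e * Real.exp (dep om x e - dep om x a - dep om x b) := by
  rw [sC, mul_assoc, mul_div_assoc, ← Real.exp_add, ← Real.exp_sub]
  congr 2
  ring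

theorem dep_hm (h : Hm om a b e) : dep om x e - dep om x a - dep om x b = 0 := by
  simp only [dep, h.2.2, Prod.fst_add, Prod.snd_add]
  ring

theorem cH_sC (c : κ → κ → κ → ℝ) :
    cH om (sC (fun a => Real.exp (-dep om x a)) c) = cH om c := by
  funext a b e
  unfold cH
  split_ifs with h
  · rw [sC_eq, dep_hm h, Real.exp_zero, mul_one]
  · rfl

end GAThrA

open GAThrA

theorem gaThr : OfThr := by
  classical
  intro hF ι κ _ _ _ M Φ om pos B c al
  have hg : ∀ e, ∃ lam : ℕ → κ → κ → ℝ, (∀ a b, OB M fun n => lam n a b) ∧ (Mx om e →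
      ∀ e', om e' = om e → Neg M fun n =>
        ∑ a, ∑ b, lam n a b * cH om (c n) a b e' - if e' = e then 1 else 0) := fun e => by
    by_cases h : Mx om e
    · exact (al.gen e h).imp fun _ k => ⟨k.1, fun _ => k.2⟩
    · exact ⟨0, fun _ _ => ob_const al.big 0, fun k => absurd k h⟩
  choose lam l1 l2 using hg
  obtain ⟨L, hL, hb⟩ := ob_bound al.big (J := Bool × κ × κ × κ)
    (f := fun j n => bif j.1 then c n j.2.1 j.2.2.1 j.2.2.2 else lam j.2.1 n j.2.2.1 j.2.2.2)
    fun j => by rcases j with ⟨_ | _, a, b, e⟩; exacts [l1 a b e, al.ob a b e]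
  refine ⟨_, hL.log, fun M' x C hM h0 hx => ?_⟩
  have ob : ∀ u : ℕ → ℝ, (∀ᶠ n in UF, |u n| ≤ L n) → OB M' u := fun u hu ε hε => by
    filter_upwards [hu, h0 ε hε] with n a b
    rw [dl_inv]
    exact a.trans ((Real.log_le_iff_le_exp (hL.pos n)).1 (by linarith))
  have d0 : ∀ᶠ n in UF, ∀ a, 0 ≤ dep om (x n) a ∧
      dep om (x n) a ≤ ((om a).1 + (om a).2) * C * M n := hx.mono fun n h a => by
    obtain ⟨w1, w2⟩ := al.wt a
    exact ⟨add_nonneg (mul_nonneg w1 h.2.1) (mul_nonneg w2 h.2.2.2.1), by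
      rw [dep]
      linarith [mul_le_mul_of_nonneg_left h.2.2.1 w1, mul_le_mul_of_nonneg_left h.2.2.2.2 w2]⟩
  have ng : ∀ a b e, (Neg M fun n => c n a b e) →
      Neg M' fun n => sC (fun a => Real.exp (-dep om (x n) a)) (c n) a b e := fun a b e h => by
    refine ((h.mul_exp (C := ((om e).1 + (om e).2) * C) (d0.mono fun n d => ?_)).congr
      (.of_forall fun n => sC_eq _)).up (hx.mono fun n h => h.1)
    rw [abs_of_pos (Real.exp_pos _), Real.exp_le_exp]
    linarith [(d a).1, (d b).1, (d e).2]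
  refine ⟨⟨hM, al.fr.mono fun n h => ((hF ι κ Φ _ _).1 _ 0 fun a => Real.exp_pos _).1 h, al.wt,
    al.live, fun a b e => ?_, fun a b e h h' => ng a b e (al.hom a b e h h'),
    fun a b e h1 h2 h3 => ng a b e (al.sub a b e h1 h2 h3), fun e he =>
      ⟨lam e, fun a b => ob _ (.of_forall fun n => hb n (false, e, a, b)), fun e' he' => ?_⟩⟩, ng⟩
  · by_cases h : om e = 0 ∨ Hm om a b e
    · refine ob _ (d0.mono fun n d => le_trans ?_ (hb n (true, a, b, e)))
      rw [sC_eq, abs_mul, abs_of_pos (Real.exp_pos _)]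
      refine mul_le_of_le_one_right (abs_nonneg _) (Real.exp_le_one_iff.2 ?_)
      rcases h with h | h
      · linarith [(d a).1, (d b).1, show dep om (x n) e = 0 by simp [dep, h]]
      · exact (dep_hm h).le
    · exact (ng a b e (al.hom a b e (not_or.1 h).1 (not_or.1 h).2)).ob
  · simp only [cH_sC]
    exact (l2 e he e' he').up (hx.mono fun n h => h.1)

end Pool.Agent.MP_5168f5_an.AN.GA
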