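import Pool.Agent.MP_5168f5_an.AN.MSpec

/-! Kakeya sets in all dimensions: reduction of the theorem to a deficiency at the unit level. -/

namespace Pool.Agent.MP_5168f5_an.AN

open H19 H17S H17F R4 Filter

theorem ofCore : OfCore := by
  intro _ _ hF N mm h1 core
  have a : ∀ (Ω Λ : ℕ → Type) (k m : Bool → ℕ) (C : ℕ) (P : ∀ n, FP (Ω n)) (M : ℕ → ℕ)
      (x : ∀ n, Ω n → V N) (s : ∀ n, Sy k (Ω n)) (A : ∀ n, Ω n → Λ n), mm ≤ m true + m false →
      1 ≤ m true → Sys P M x s C m → MIN P M x (lab s) → Com P (lab s) A → FullAt P M x A M := by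
    intro Ω Λ k m C P M x s A e o hs hm hc
    by_contra c
    obtain ⟨η, G, hη, hG, p⟩ := hF.nf hs.big c
    obtain ⟨G', w, u⟩ := Bdd.sure (S20.gp_cE hs.bd hG)
    have m2 : MIN (fun n => cE (cE (P n) (G n)) (G' n)) M x (lab s) :=
      fun E c F hc hF => ((hm E c F hc hF).cE hG).cE w.pos
    exact core Ω Λ k m C _ M x s A η e o hη ⟨hs.big, u.bdd, fun b => S20.kind_cE hs.big
      (S20.kind_cE hs.big (hs.kd b) hG) w.pos⟩ u m2
      (fun b => ((hc b).cE G).cE G') (hF.ph hs.big (S20.poor_cE p G'))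
  intro Ω Λ k m C P M x s A e hs hm hc K
  have c := cmp_mul M K.succ_pos
  refine hF.coarse (j := fun n => K.succ * M n) (Gd.unit ?_ c.symm) S20.fnE_rfl
    (Eventually.of_forall fun n => Nat.mul_le_mul_right _ K.le_succ)
  by_cases o : 1 ≤ m true
  · exact a Ω Λ k m C P _ x s A e o (hs.unit c) (NT.unit hm c) hc
  · exact a Ω Λ _ _ C P _ x _ A (by simpa [add_comm] using e) (by simp; omega) (hs.unit c).swap
      (NT.unit hm c).swap fun b => hc (!b)

end Pool.Agent.MP_5168f5_an.AN
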