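import Pool.Agent.MP_5168f5_an.AN.GOSpec

/-! Kakeya sets in all dimensions: refinement and join of cells of comparable radii. -/

namespace Pool.Agent.MP_5168f5_an.AN.GO

open H19 H17S H17F G39 Filter H61Z GA GF R4

namespace GOh1A

variable {ι κ : Type} [Fintype ι] [DecidableEq ι] [Fintype κ] {M : ℕ → ℕ}

theorem idr (h : SIdR) {om : κ → ℝ × ℝ} {c : ℕ → κ → κ → κ → ℝ} {d : κ → ℝ} {r : ℕ → κ → ℝ}
    (hM : Big M) (ob : ∀ a b e, OB M fun n => c n a b e) (g : Gd om (Ng M c) d) (a : Ap M r d) :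
    IdR M c r r := by
  obtain ⟨L, hL, a⟩ := a
  obtain ⟨I, hI, i⟩ := h κ M c d d hM ob g.id g.id fun _ => le_rfl
  have s := ((hL.mul hL).mul hI).mul hL
  refine ⟨_, s, ?_⟩
  filter_upwards [a, i] with n a i
  have := hL.pos n
  have := hI.pos n
  have k : Idl (c n) (r n) (r n) (L n * L n * I n * L n) := fun x y e =>
    calc |c n x y e| * r n x * r n y ≤ |c n x y e| * (L n * dl M (d x) n) * (L n * dl M (d y) n) :=
          mul_le_mul (mul_le_mul_of_nonneg_left (a x).2.1 (abs_nonneg _)) (a y).2.1 (a y).1.le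
            (mul_nonneg (abs_nonneg _) ((a x).1.le.trans (a x).2.1))
      _ = L n * L n * (|c n x y e| * rad M d n x * rad M d n y) := by unfold rad; ring
      _ ≤ L n * L n * (I n * (L n * r n e)) := mul_le_mul_of_nonneg_left
          ((i.2.1 x y e).trans (mul_le_mul_of_nonneg_left (a e).2.2 (by positivity)))
          (by positivity)
      _ = _ := by ring
  exact ⟨fun x => ⟨(a x).1, le_mul_of_one_le_left (a x).1.le (s.1 n)⟩, k, k⟩

theorem same (h1 : SNr) (h2 : SCell) {Φ : Filt (Mt ι)} {B : ℕ → κ → Mt ι}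
    {c : ℕ → κ → κ → κ → ℝ} {r : ℕ → κ → ℝ} (hM : Big M) (fr : ∀ᶠ n in UF, IsFr Φ (B n) (c n))
    (i : IdR M c r r) : ∃ L, Sub M L ∧ ∀ᶠ n in UF, ∀ x, Nr (B n) (r n) 1 (cell (B n) (r n) x) x ∧
      ∀ y, cell (B n) (r n) x = cell (B n) (r n) y → Nr (B n) (r n) (L n) x y := by
  obtain ⟨K, k1, h1⟩ := h1 Φ.N (Fintype.card κ)
  obtain ⟨K', -, h2⟩ := h2 Φ.N (Fintype.card κ)
  obtain ⟨L, hL, i⟩ := i
  refine ⟨_, sub_box hM hL k1, ?_⟩
  filter_upwards [fr, i] with n fr i x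
  have a := (h2 ι κ Φ _ _ (r n) (r n) 1 rfl le_rfl fr le_rfl fun a =>
    ⟨(i.1 a).1, (one_mul _).ge⟩).1
  have a' : ∀ x, Nr (B n) (r n) (L n) (cell (B n) (r n) x) x := fun x => (a x).imp fun t b =>
    ⟨fun e => (b.1 e).trans (mul_le_mul_of_nonneg_right (hL.1 n) (i.1 e).1.le), b.2⟩
  have b := fun x y z => h1 ι κ Φ _ _ (r n) (r n) (L n) 0 x y z rfl le_rfl fr (hL.1 n) le_rfl
    (fun a => ⟨(i.1 a).1.le, (i.1 a).1.le⟩) i.2.1 i.2.1
  exact ⟨a x, fun y e => (b _ _ _).2.1 ((b _ _ x).1 (a' x)) (e ▸ a' y)⟩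

theorem cmp {t A L L' r r' x y : ℝ} {n : ℕ} (hA : 0 ≤ A) (hL : 0 ≤ L') (h : |t| ≤ A * r')
    (h1 : r' ≤ L' * dl M y n) (h2 : dl M x n ≤ L * r) (e : x ≤ y) : |t| ≤ A * L' * (L * r) :=
  h.trans ((mul_le_mul_of_nonneg_left (h1.trans (mul_le_mul_of_nonneg_left
    ((dl_anti M e n).trans h2) hL)) hA).trans_eq (mul_assoc _ _ _).symm)

end GOh1A

open GOh1A

theorem goHC1 : OfHC1 := by
  intro hM hN hC hI hD _ _ ι κ _ _ _ M Φ om pos B c Ω P j A u d d1 d2 r r1 r2 g g1 g2 a a1 a2 le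
  obtain ⟨A1, s1, b1⟩ := same hN hC A.big A.fr (idr hI A.big A.ob g1 a1)
  obtain ⟨A2, s2, b2⟩ := same hN hC A.big A.fr (idr hI A.big A.ob g2 a2)
  have i := idr hI A.big A.ob g a
  obtain ⟨L, hL, a⟩ := a
  obtain ⟨L1, h1, a1⟩ := a1
  obtain ⟨L2, h2, a2⟩ := a2
  refine hD ι κ M Φ B c Ω _ P (fun n ω => cell (B n) (r1 n) (j n ω)) j _
    (fun n y => Classical.epsilon fun x =>
      IsUnit x ∧ cell (B n) (r1 n) x = y.1 ∧ cell (B n) (r2 n) x = y.2) r _ A.big A.fr i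
    ⟨1 + ∑ e, d e, add_nonneg zero_le_one (Finset.sum_nonneg fun e _ => g.nn e), ?_⟩
    (Eventually.of_forall fun n => Fn.fst _ _)
    (((s1.mul h1).add (s2.mul h2) A.big).mul hL) (Whp.of_ev ?_)
  · filter_upwards [u, b1, a, a1, (h1.mul hL).2 1 one_pos] with n u b1 a a1 k ω hω
    obtain ⟨t, ht, e⟩ := (b1 (j n ω)).1
    refine ⟨?_, t, fun x => (ht x).trans ?_, e⟩
    · have := u ω hω
      rw [e, Matrix.isUnit_iff_isUnit_det, Matrix.det_mul] at this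
      exact (Matrix.isUnit_iff_isUnit_det _).2 (isUnit_of_mul_isUnit_left this)
    · have k1 : dl M (d1 x) n ≤ Real.exp ((∑ e, d e) * M n) * dl M (d x) n := by
        unfold dl
        rw [← Real.exp_add]
        have := Finset.single_le_sum (f := d) (fun e _ => g.nn e) (Finset.mem_univ x)
        exact Real.exp_le_exp.2 (by nlinarith [g1.nn x, Nat.cast_nonneg (α := ℝ) (M n)])
      rw [one_mul, add_mul, Real.exp_add]
      refine ((a1 x).2.1.trans (mul_le_mul_of_nonneg_left (k1.trans (mul_le_mul_of_nonneg_left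
        (a x).2.2 (Real.exp_pos _).le)) (h1.pos n).le)).trans (le_trans (le_of_eq (by ring))
          (mul_le_mul_of_nonneg_right (mul_le_mul_of_nonneg_right k (Real.exp_pos _).le)
            (a x).1.le))
  · filter_upwards [u, b1, b2, a, a1, a2, A.fr] with n u b1 b2 a a1 a2 fr ω hω
    obtain ⟨k0, k1, k2⟩ := Classical.epsilon_spec (p := fun x => IsUnit x ∧
      cell (B n) (r1 n) x = cell (B n) (r1 n) (j n ω) ∧
        cell (B n) (r2 n) x = cell (B n) (r2 n) (j n ω)) ⟨j n ω, u ω hω, rfl, rfl⟩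
    obtain ⟨t, t1, e1⟩ := (b1 _).2 _ k1
    obtain ⟨t', t2, e2⟩ := (b2 _).2 _ k2
    obtain rfl := (hM ι κ Φ _ _ fr).inj _ _ (k0.mul_left_cancel (e1.symm.trans e2))
    refine ⟨t, fun x => ?_, e1⟩
    have p0 := mul_pos (hL.pos n) (a x).1
    have p1 := mul_pos ((s1.mul h1).pos n) p0
    have p2 := mul_pos ((s2.mul h2).pos n) p0
    rcases le_sup_iff.1 (le x) with e | e
    · linarith [cmp (s1.pos n).le (h1.pos n).le (t1 x) (a1 x).2.1 (a x).2.2 e]
    · linarith [cmp (s2.pos n).le (h2.pos n).le (t2 x) (a2 x).2.1 (a x).2.2 e]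

end Pool.Agent.MP_5168f5_an.AN.GO
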