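import Pool.Agent.MP_5168f5_an.AN.GOSpec

/-! Kakeya sets in all dimensions: the entropy rates of cells are given by one function. -/

namespace Pool.Agent.MP_5168f5_an.AN.GO

open H19 H17S H17F G39 Filter H61Z GA GF R4

namespace GOh2A

section Fin

variable {Ω α β : Type} {P : FP Ω} (X' X X0 J Y Z : Ω → α) (T : Ω → β)

theorem tri {γ δ ε : Type} (F : Ω → γ) (G : Ω → δ) (W : Ω → ε) :
    ch P F W ≤ ch P G W + ch P F G :=
  (ch_tri F G W).trans (add_le_add le_rfl (ch_anti (Fn.fst _ _)))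

theorem up : ch P X' (fun ω => (X ω, X0 ω, T ω)) + ch P Y (fun ω => (Z ω, T ω)) ≤
    ch P J (fun ω => (Z ω, T ω)) + ch P Z X + ch P Y X + ch P X J + ch P X' J := by
  have h1 := ch_chain (P := P) X X' fun ω => (Z ω, T ω)
  have h2 := ch_tri (P := P) X' Z fun ω => (X ω, X0 ω, T ω)
  have h3 : ch P Z (fun ω => (X ω, X0 ω, T ω)) ≤ ch P Z X := ch_anti (Fn.fst _ _)
  have h4 : ch P X' (fun ω => (Z ω, X ω, X0 ω, T ω)) ≤ ch P X' fun ω => (X ω, Z ω, T ω) :=
    ch_anti (((Fn.fst _ _).right _).pair ((Fn.fst _ _).pair (((Fn.snd _ _).right _).right _)))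
  have h5 := tri (P := P) Y X fun ω => (Z ω, T ω)
  have h6 := tri (P := P) (fun ω => (X ω, X' ω)) J fun ω => (Z ω, T ω)
  have h7 := ch_subadd (P := P) X X' J
  linarith

theorem lo : ch P J (fun ω => (Z ω, T ω)) ≤ ch P X' (fun ω => (X ω, X0 ω, T ω)) +
    ch P Y (fun ω => (Z ω, T ω)) + ch P J (fun ω => (X ω, X' ω)) + ch P X Y + ch P X0 X := by
  have h1 := ch_chain (P := P) X X' fun ω => (Z ω, T ω)
  have h2 := ch_tri (P := P) X' X0 fun ω => (X ω, Z ω, T ω)
  have h3 : ch P X0 (fun ω => (X ω, Z ω, T ω)) ≤ ch P X0 X := ch_anti (Fn.fst _ _)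
  have h4 : ch P X' (fun ω => (X0 ω, X ω, Z ω, T ω)) ≤ ch P X' fun ω => (X ω, X0 ω, T ω) :=
    ch_anti (((Fn.fst _ _).right _).pair ((Fn.fst _ _).pair (((Fn.snd _ _).right _).right _)))
  have h5 := tri (P := P) X Y fun ω => (Z ω, T ω)
  have h6 := tri (P := P) J (fun ω => (X ω, X' ω)) fun ω => (Z ω, T ω)
  linarith

end Fin

variable {κ : Type} {om : κ → ℝ × ℝ} {N : κ → κ → κ → Prop} {d d' : κ → ℝ}

theorem gd_zero : Gd om N 0 := ⟨fun a b e h => by simp at h, fun _ => le_rfl, fun _ _ => rfl⟩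

theorem gd_sup (h : Gd om N d) (h' : Gd om N d') : Gd om N (d ⊔ d') := by
  refine ⟨fun a b e k => ?_, fun a => (h.nn a).trans le_sup_left, fun a k => by
    rw [Pi.sup_apply, h.dead a k, h'.dead a k, max_self]⟩
  simp only [Pi.sup_apply] at k
  rcases lt_max_iff.1 k with k | k
  · exact h.id a b e ((add_le_add (le_max_left _ _) (le_max_left _ _)).trans_lt k)
  · exact h'.id a b e ((add_le_add (le_max_right _ _) (le_max_right _ _)).trans_lt k)

theorem ap_rad [Fintype κ] {M : ℕ → ℕ} (hM : Big M) (d : κ → ℝ) : Ap M (rad M d) d :=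
  ⟨fun _ => 1, hM.sub le_rfl, Eventually.of_forall fun n _ =>
    ⟨dl_pos M _ n, (one_mul _).ge, (one_mul _).ge⟩⟩

end GOh2A

open GOh2A in
theorem goHC2 : OfHC2 := by
  intro cw h1 ι κ _ _ _ M Φ om pos B c Ω β P j T hA hj
  have hM := hA.big
  have two := h1 ι κ M Φ om pos B c Ω P j hA hj
  have one : ∀ (d d1 : κ → ℝ) (r r1 : ℕ → κ → ℝ), Gd om (Ng M c) d → Gd om (Ng M c) d1 →
      Ap M r d → Ap M r1 d1 → d ≤ d1 → Sm M fun n =>
        ch (P n) (fun ω => cell (B n) (r n) (j n ω)) fun ω => cell (B n) (r1 n) (j n ω) :=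
    fun d d1 r r1 a b e f k => (two d d1 d1 r r1 r1 a b b e f f (k.trans le_sup_left)).mono
      (Eventually.of_forall fun n => ch_anti ((Fn.rfl _).pair (Fn.rfl _)))
  have cnt : ∀ d d' : κ → ℝ, Gd om (Ng M c) d → Gd om (Ng M c) d' → d ≤ d' →
      Le M (fun n => ch (P n) (fun ω => cl M B d' n (j n ω)) fun ω => cl M B d n (j n ω))
        fun n => (∑ a, (d' a - d a)) * M n := fun d d' a b k =>
    (cw ι κ M Φ om pos B c Ω P j d d' hA hj a.id b.id k fun e z => by
      rw [a.dead e z, b.dead e z]).1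
  have val : ∀ d : κ → ℝ, Gd om (Ng M c) d → Eqv M (fun n =>
      ch (P n) (fun ω => cl M B d n (j n ω)) fun ω => (cl M B 0 n (j n ω), T n ω))
        fun n => HH M P B j T d * M n := fun d a => by
    refine Bd1.eqv ⟨∑ e, (d e - (0 : κ → ℝ) e) + 1, ?_⟩ hM
    filter_upwards [cnt 0 d gd_zero a a.nn 1 one_pos] with n b
    rw [abs_of_nonneg (ch_nonneg _ _), add_mul]
    exact (ch_anti (Fn.fst _ _)).trans b
  have ap := ap_rad (κ := κ) hM
  have snd : ∀ (d0 d d' : κ → ℝ) (r0 r r' : ℕ → κ → ℝ), Gd om (Ng M c) d0 → Gd om (Ng M c) d →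
      Gd om (Ng M c) d' → Ap M r0 d0 → Ap M r d → Ap M r' d' → d0 ≤ d →
      Eqv M (fun n => ch (P n) (fun ω => cell (B n) (r' n) (j n ω))
          fun ω => (cell (B n) (r n) (j n ω), cell (B n) (r0 n) (j n ω), T n ω))
        fun n => (HH M P B j T (d' ⊔ d) - HH M P B j T d) * M n := by
    intro d0 d d' r0 r r' g0 g g' a0 a a' k
    have gj := gd_sup g' g
    constructor
    · refine Le.of6 (val _ gj).1 (val _ g).2 (one 0 d _ r gd_zero g (ap 0) a g.nn)
        (one d d _ r g g (ap d) a le_rfl) (one d _ r _ g gj a (ap _) le_sup_right)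
        (one d' _ r' _ g' gj a' (ap _) le_sup_left) (Eventually.of_forall fun n => ?_)
      have := up (P := P n) (fun ω => cell (B n) (r' n) (j n ω)) (fun ω => cell (B n) (r n) (j n ω))
        (fun ω => cell (B n) (r0 n) (j n ω)) (fun ω => cl M B (d' ⊔ d) n (j n ω))
        (fun ω => cl M B d n (j n ω)) (fun ω => cl M B 0 n (j n ω)) (T n)
      simp only [cl] at this ⊢
      linarith
    · refine Le.of5 (val _ gj).2 (val _ g).1
        (two _ d d' _ r r' gj g g' (ap _) a a' (sup_comm d' d).le)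
        (one d d r _ g g a (ap d) le_rfl) (one d0 d r0 r g0 g a0 a k)
        (Eventually.of_forall fun n => ?_)
      have := lo (P := P n) (fun ω => cell (B n) (r' n) (j n ω)) (fun ω => cell (B n) (r n) (j n ω))
        (fun ω => cell (B n) (r0 n) (j n ω)) (fun ω => cl M B (d' ⊔ d) n (j n ω))
        (fun ω => cl M B d n (j n ω)) (fun ω => cl M B 0 n (j n ω)) (T n)
      simp only [cl] at this ⊢
      linarith
  refine ⟨⟨fun d d' => gd_sup, fun d d' g g' k => ?_, fun d d' g g' k => ?_,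
    fun d0 d d' g0 g g' k k' => ?_⟩, snd⟩
  · refine Le.num hM (Le.of3 (val _ g).2 (val _ g').1 (one d d' _ _ g g' (ap d) (ap d') k)
      (Eventually.of_forall fun n => ?_))
    have := tri (P := P n) (fun ω => cl M B d n (j n ω)) (fun ω => cl M B d' n (j n ω))
      fun ω => (cl M B 0 n (j n ω), T n ω)
    simp only [cl] at this ⊢
    linarith
  · refine Le.num hM (Le.of3 (val _ g').2 (val _ g).1 (cnt d d' g g' k)
      (Eventually.of_forall fun n => ?_))
    have := tri (P := P n) (fun ω => cl M B d' n (j n ω)) (fun ω => cl M B d n (j n ω))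
      fun ω => (cl M B 0 n (j n ω), T n ω)
    linarith
  · have e1 := (snd d0 d' d _ _ _ g0 g' g (ap d0) (ap d') (ap d) k').2
    have e2 := (snd d0 d0 d _ _ _ g0 g0 g (ap d0) (ap d0) (ap d) le_rfl).1
    rw [sup_eq_left.2 k] at e2
    have := Le.num hM ((e1.trans (Le.of_le fun n =>
      ch_anti (((Fn.fst _ _).right _).pair (Fn.snd _ _)))).trans e2)
    linarith

end Pool.Agent.MP_5168f5_an.AN.GO
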