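import Pool.Agent.MP_5168f5_an.AN.GOSpec2
import Pool.Agent.MP_5168f5_an.AN.GOh1
import Pool.Agent.MP_5168f5_an.AN.GOh2
import Pool.Agent.MP_5168f5_an.AN.TGDg
import Pool.Agent.MP_5168f5_an.AN.TGZm
import Pool.Agent.MP_5168f5_an.AN.TGCF

/-! Kakeya sets in all dimensions: entropy rates of the cells of a system. -/

namespace Pool.Agent.MP_5168f5_an.AN.GO

open H19 H17S H17F G39 GA Filter H61Z TG R4

theorem hc1 : HC1 := goHC1 sMul sNr sCell sIdR sDet sCnt sCntW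
theorem hc2 : HC2 := goHC2 sCntW hc1

/-- Diagonal choice for countably many closed conditions. -/
theorem dg {S : ℕ → Type 1} {J : Type} [Countable J] {K : J → (∀ n, S n) → Prop}
    (h : ∀ i, CF (K i)) (y : ℕ → ∀ n, S n) (hy : ∀ i, ∀ᶠ k in atTop, K i (y k)) :
    ∃ k : ℕ → ℕ, ∀ i, K i fun n => y (k n) n := by
  choose p hp using h
  obtain ⟨k, -, b⟩ := tgDg (J × ℕ) (fun i k n => p i.1 i.2 n (y k n)) fun i =>
    (hy i.1).mono fun k a => (hp i.1 _).1 a i.2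
  exact ⟨k, fun i => (hp i _).2 fun j => b (i, j)⟩

theorem le_cmul {M : ℕ → ℕ} {f g : ℕ → ℝ} (h : Eqv M f g) (c : ℝ) :
    Le M (fun n => c * f n) fun n => c * g n := by
  rcases le_total 0 c with x | x
  · exact h.1.smul x
  · exact (h.2.smul (neg_nonneg.2 x)).of_sub (Eventually.of_forall fun n => by linarith)

theorem eqv_cmul {M : ℕ → ℕ} {f g : ℕ → ℝ} (h : Eqv M f g) (c : ℝ) :
    Eqv M (fun n => c * f n) fun n => c * g n := ⟨le_cmul h c, le_cmul h.symm c⟩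

/-- The unit `m` is `w` times the unit `M`. -/
theorem unit_le {M m : ℕ → ℕ} {w : ℝ} (h : Eqv M (fun n => m n) fun n => w * M n) (hw : 0 < w) :
    ∀ᶠ n in UF, w / 2 * M n ≤ m n ∧ (m n : ℝ) ≤ 2 * w * M n := by
  filter_upwards [h.1 w hw, h.2 (w / 2) (by positivity)] with n a b
  constructor <;> linarith

theorem unit_le' {M m : ℕ → ℕ} {w : ℝ} (h : Eqv M (fun n => m n) fun n => w * M n) (hw : 0 < w) :
    ∀ᶠ n in UF, (M n : ℝ) ≤ 2 / w * m n := (unit_le h hw).mono fun n a => by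
  rw [div_mul_eq_mul_div, le_div_iff₀ hw]; linarith [a.1]

variable {ι κ : Type} [Fintype ι] [DecidableEq ι] [Fintype κ] {Φ : Filt (Mt ι)}
  {om : κ → ℝ × ℝ} {pos S : κ → Prop} {x : ℕ → Sy ι κ} {d d' d0 : κ → ℝ} {D D' : ℕ → κ → ℝ}

/-- The entropy rate of the cells of a system. -/
noncomputable def Hx (x : ℕ → Sy ι κ) : (κ → ℝ) → ℝ :=
  HH (un x) (pr x) (fun n => (x n).B) (fun n => (x n).j) fun n => (x n).Θ

/-- Absolute depths of relative depth `d`. -/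
def Aq (M : ℕ → ℕ) (D : ℕ → κ → ℝ) (d : κ → ℝ) : Prop :=
  ∀ a, Eqv M (fun n => D n a) fun n => d a * M n

omit [Fintype κ] in
theorem aq_sc (M : ℕ → ℕ) (d : κ → ℝ) : Aq M (fun n => sc (M n) d) d := fun _ => Eqv.rfl

theorem Aq.ap {M : ℕ → ℕ} (h : Aq M D d) : Ap M (fun n => rA (D n)) d := by
  have h1 : Sm M fun n => ∑ a, |D n a - d a * M n| := Sm.sum _ fun a _ ε hε => by
    filter_upwards [(h a).1 ε hε, (h a).2 ε hε] with n u v
    rw [zero_add, abs_le]; constructor <;> linarith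
  refine ⟨_, Sub.exp h1 fun n => Finset.sum_nonneg fun a _ => abs_nonneg _,
    Eventually.of_forall fun n a => ⟨Real.exp_pos _, ?_⟩⟩
  have h2 := abs_le.1 (Finset.single_le_sum (f := fun a => |D n a - d a * M n|)
    (fun a _ => abs_nonneg _) (Finset.mem_univ a))
  simp only [rA, dl, ← Real.exp_add, Real.exp_le_exp]
  constructor <;> linarith [h2.1, h2.2]

omit [Fintype κ] in
theorem up_eq (d : κ → ℝ) (r : ℝ) (S : κ → Prop) : up d r S = d + ind S r := by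
  funext a; simp only [up, ind, Pi.add_apply]; split_ifs <;> simp

theorem cd_eq (S : κ → Prop) : TG.cd S = cd S := by
  classical
  simp only [TG.cd, cd, ind, Finset.card_filter]; push_cast; congr

theorem g_ab (h : G0 Φ om pos x) : Ab om pos (Nx x) := ⟨h.alg.wt, h.alg.live, h.alg.hom, h.alg.sub⟩

theorem g_pm (h : G0 Φ om pos x) : Pm (Gd om (Nx x)) (Hx x) :=
  (hc2 ι κ _ Φ om pos _ _ _ _ (pr x) _ (fun n => (x n).Θ) h.alg h.unit).1

theorem g_H (h : G0 Φ om pos x) (g : Gd om (Nx x) d) (g' : Gd om (Nx x) d') (a : Aq (un x) D d)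
    (a' : Aq (un x) D' d') : Eqv (un x) (fun n => (x n).H (D n) (D' n))
      fun n => (Hx x (d' ⊔ d) - Hx x d) * (x n).M := by
  have := (hc2 ι κ _ Φ om pos _ _ _ _ (pr x) _ (fun n => (x n).Θ) h.alg h.unit).2 d d d' _ _ _
    g g g' a.ap a.ap a'.ap le_rfl
  rwa [show (fun n => (x n).H (D n) (D' n)) = _ from funext fun n => ch_congr (Fn.fst _ _)
    (Fn.fst _ _) (((Fn.fst _ _).pair ((Fn.snd _ _).right _)))
    ((Fn.fst _ _).pair ((Fn.fst _ _).pair (Fn.snd _ _)))]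

theorem g_mi (h : G0 Φ om pos x) (g0 : Gd om (Nx x) d0) (g : Gd om (Nx x) d)
    (g' : Gd om (Nx x) d') (l : d0 ≤ d) (l' : d0 ≤ d') (e : mI (Hx x) d0 d d' ≤ 0) :
    Sm (un x) fun n => mi (x n).P ((x n).C (sc (x n).M d)) ((x n).C (sc (x n).M d'))
      ((x n).Z (sc (x n).M d0)) := by
  have h1 := g_H h g0 g (aq_sc _ d0) (aq_sc _ d)
  have h2 := (hc2 ι κ _ Φ om pos _ _ _ _ (pr x) _ (fun n => (x n).Θ) h.alg h.unit).2 d0 d' d _ _ _
    g0 g' g (aq_sc _ d0).ap (aq_sc _ d').ap (aq_sc _ d).ap l'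
  rw [sup_eq_left.2 l] at h1
  refine h1.1.of2 h2.2 (Eventually.of_forall fun n => ?_)
  have := mul_le_mul_of_nonneg_right e (Nat.cast_nonneg (α := ℝ) (x n).M)
  unfold mI at this
  change (x n).H _ _ - ch _ _ _ - 0 ≤ (x n).H _ _ - _ + ((Hx x _ - Hx x _) * (x n).M -
    ch _ ((x n).C _) fun ω => ((x n).C _ ω, (x n).Z _ ω))
  linarith

theorem full_iff (h : G0 Φ om pos x) {r : ℝ} (hr : 0 ≤ r) (g : Gd om (Nx x) d)
    (g' : Gd om (Nx x) (d + ind S r)) : FullAt x d S r ↔ df (Hx x) S r d ≤ 0 := by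
  have h1 := g_H h g g' (aq_sc _ _) (aq_sc _ _)
  rw [sup_eq_left.2 (le_add_ind hr d)] at h1
  rw [FullAt, up_eq, cd_eq, df, sub_nonpos]
  exact ⟨fun e => Le.num h.alg.big (e.trans h1.1), fun e => (Le.of_le fun n =>
    mul_le_mul_of_nonneg_right e (Nat.cast_nonneg _)).trans h1.2⟩

omit [Fintype κ] in
theorem aq_zm {M m : ℕ → ℕ} {w : ℝ} (a : Aq M D d0) (e : Eqv M (fun n => m n) fun n => w * M n)
    (d : κ → ℝ) : Aq M (fun n => D n + sc (m n) d) (d0 + w • d) := fun i =>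
  ⟨(a i).1.of2 (eqv_cmul e (d i)).1 (Eventually.of_forall fun n => by
      simp only [TG.sc, Pi.add_apply, Pi.smul_apply, smul_eq_mul]; linarith),
    (a i).2.of2 (eqv_cmul e (d i)).2 (Eventually.of_forall fun n => by
      simp only [TG.sc, Pi.add_apply, Pi.smul_apply, smul_eq_mul]; linarith)⟩

/-- Entropy rates in a tangent. -/
theorem zm_H (h : G0 Φ om pos x) {m : ℕ → ℕ} {w : ℝ} (hw : 0 < w) (a : Aq (un x) D d0)
    (e : Eqv (un x) (fun n => m n) fun n => w * (x n).M) (g : Gd om (Nx x) (d0 + w • d))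
    (g' : Gd om (Nx x) (d0 + w • d')) (l : d ≤ d') :
    Eqv m (fun n => ((x n).zm (D n) (m n)).H (sc (m n) d) (sc (m n) d'))
      fun n => (Hx x (d0 + w • d') - Hx x (d0 + w • d)) / w * m n := by
  have h1 := g_H h g g' (aq_zm a e d) (aq_zm a e d')
  rw [sup_eq_left.2 (add_le_add le_rfl (smul_le_smul_of_nonneg_left l hw.le))] at h1
  have h2 := eqv_cmul e ((Hx x (d0 + w • d') - Hx x (d0 + w • d)) / w)
  simp only [← mul_assoc, div_mul_cancel₀ _ hw.ne'] at h2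
  simp only [TGZmA.h_zm Φ]
  exact ⟨TGZmA.le_unit (unit_le' e hw) (h1.1.trans h2.2),
    TGZmA.le_unit (unit_le' e hw) (h2.1.trans h1.2)⟩

theorem ac_zm {y : Sy ι κ} (h : IsFr Φ y.B y.c) (u : ∀ ω ∈ y.P.S, IsUnit (y.j ω)) (D0 D : κ → ℝ)
    (m : ℕ) {η ρ q : ℝ} (H : y.AC (D0 + D) S η ρ q) : (y.zm D0 m).AC D S η ρ q := by
  intro W β Q π b l c0 h1 h2 h3
  obtain ⟨K, -, hK⟩ := sCell Φ.N (Fintype.card κ)
  refine le_trans (pb_mono fun v hv w => ?_) (H W β Q π b l c0 h1 (fun v hv =>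
    ⟨(h2 v hv).sup, (h2 v hv).le, (h2 v hv).one, fun i j => by
      rw [← TGZmA.sC_add]; exact (h2 v hv).kill i j⟩) (by rwa [TGZmA.z_zm Φ] at h3))
  rwa [TGZmA.c_zm Φ, TGZmA.co_zm (p := y.C (D0 + D) (π v)) h D0 D m (u _ (h1.mem hv)) ((hK ι κ Φ y.B y.c (rA (D0 + D))
    (rA (D0 + D)) 1 rfl le_rfl h le_rfl fun a => ⟨TGZmA.rA_pos _ a, (one_mul _).ge⟩).1 _)] at w

omit [Fintype κ] in
theorem smul_ind (w r : ℝ) (S : κ → Prop) : w • ind S r = ind S (r * w) := by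
  funext a; simp only [ind, Pi.smul_apply, smul_eq_mul]; split_ifs <;> ring

omit [Fintype κ] in
theorem smul_th (w r : ℝ) : w • th om r = th om (r * w) := by
  funext a; simp only [th, Pi.smul_apply, smul_eq_mul]; split_ifs <;> ring

theorem mI_mono {G : (κ → ℝ) → Prop} {H : (κ → ℝ) → ℝ} (hP : Pm G H) {d0 d1 d2 e1 e2 : κ → ℝ}
    (g1 : G d1) (g2 : G d2) (f1 : G e1) (f2 : G e2) (l1 : d1 ≤ e1) (l2 : d2 ≤ e2) :
    mI H d0 d1 d2 ≤ mI H d0 e1 e2 := by
  have a1 := hP.sub _ _ _ g1 f1 (hP.sup _ _ g1 g2) l1 le_sup_left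
  have a2 := hP.sub _ _ _ g2 f2 (hP.sup _ _ f1 g2) l2 le_sup_right
  rw [← sup_assoc, sup_eq_left.2 l1] at a1
  rw [sup_comm e1, ← sup_assoc, sup_eq_left.2 l2, sup_comm e2, sup_comm d2] at a2
  unfold mI; linarith

/-- The value of the entropy from the top. -/
noncomputable def hz (y : Sy ι κ) (d : κ → ℝ) : ℝ := y.H (TG.sc y.M 0) (TG.sc y.M d)

theorem g_hz (h : G0 Φ om pos x) (g : Gd om (Nx x) d) :
    Eqv (un x) (fun n => hz (x n) d) fun n => (Hx x d - Hx x 0) * (x n).M := by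
  have := g_H h gd_zero g (aq_sc _ _) (aq_sc _ _)
  rwa [sup_eq_left.2 g.nn] at this

/-- A deficiency at the top. -/
def Df (pos : κ → Prop) (r e : ℝ) (x : ℕ → Sy ι κ) : Prop :=
  Le (un x) (fun n => hz (x n) (0 + ind pos r)) fun n => (cd pos * r - e) * (x n).M

theorem cf_Df (pos : κ → Prop) (r e : ℝ) : CF fun x : ℕ → Sy ι κ => Df pos r e x :=
  cf_le (S := fun _ => Sy ι κ) (fun _ x => x.M) (fun _ x => hz x (0 + ind pos r))
    fun _ x => (cd pos * r - e) * x.M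

theorem Df.le {r e : ℝ} (H : Df pos r e x) (h : G0 Φ om pos x) (hr : 0 ≤ r) :
    e ≤ df (Hx x) pos r 0 := by
  have := Le.num h.alg.big ((g_hz h ((g_ab h).gd_pos gd_zero hr)).2.trans H)
  unfold df; linarith

theorem df_zm (h : G0 Φ om pos x) {m : ℕ → ℕ} {w r e : ℝ} (hw : 0 < w) (hr : 0 ≤ r)
    (a : Aq (un x) D d0) (u : Eqv (un x) (fun n => m n) fun n => w * (x n).M)
    (g : Gd om (Nx x) d0) (l : e * w ≤ df (Hx x) pos (r * w) d0) :
    Df pos r e fun n => (x n).zm (D n) (m n) := by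
  have e1 : d0 + w • (0 + ind pos r) = d0 + ind pos (r * w) := by rw [zero_add, smul_ind]
  have := zm_H (d := 0) (d' := 0 + ind pos r) h hw a u (by simpa using g)
    (e1 ▸ (g_ab h).gd_pos g (by positivity)) (le_add_ind hr 0)
  refine this.1.trans (Le.of_le fun n => mul_le_mul_of_nonneg_right ?_ (Nat.cast_nonneg _))
  rw [e1, smul_zero, add_zero, div_le_iff₀ hw]
  unfold df at l; linarith

end Pool.Agent.MP_5168f5_an.AN.GO
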