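import Pool.Agent.MP_5168f5_an.AN.GOStep

/-! Fullness of the pure positions of the overfed tangent. -/

namespace Pool.Agent.MP_5168f5_an.AN.GO

open GA Finset

variable {κ : Type} [Fintype κ] {pos pos' S S' : κ → Prop} {r μ : ℝ} {H : (κ → ℝ) → ℝ}
  {om : κ → ℝ × ℝ} {N : κ → κ → κ → Prop} {t : κ → ℝ}

omit [Fintype κ] in
theorem ind_or (h : ∀ a, S a → ¬S' a) (d : κ → ℝ) :
    d + ind (fun a => S a ∨ S' a) r = d + ind S r + ind S' r := by
  funext a
  simp only [Pi.add_apply]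
  by_cases x : S a
  · rw [ind_pos (S := fun a => S a ∨ S' a) (Or.inl x), ind_pos x, ind_neg (h a x), add_zero]
  · by_cases y : S' a
    · rw [ind_pos (S := fun a => S a ∨ S' a) (Or.inr y), ind_pos y, ind_neg x, add_zero]
    · rw [ind_neg (S := fun a => S a ∨ S' a) fun z => z.elim x y, ind_neg x, ind_neg y, add_zero,
        add_zero]

theorem df_or (h : ∀ a, S a → ¬S' a) (d : κ → ℝ) :
    df H (fun a => S a ∨ S' a) r d = df H S r d + df H S' r (d + ind S r) := by
  have := congrArg (fun v : κ → ℝ => ∑ a, v a) (ind_or (r := 1) h 0)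
  simp only [zero_add, Pi.add_apply, Pi.zero_apply, sum_add_distrib] at this
  simp only [df, cd, ind_or h, this]; ring

/-- Fullness passes to a subset of the coordinates. -/
theorem df_sub {G : (κ → ℝ) → Prop} (hP : Pm G H) {d : κ → ℝ} (hr : 0 ≤ r) (h : ∀ a, S a → S' a)
    (g : G (d + ind S r)) (g' : G (d + ind S' r)) : df H S r d ≤ df H S' r d := by
  have := hP.lip _ _ g g' fun a => by
    simp only [Pi.add_apply]
    by_cases x : S a
    · rw [ind_pos x, ind_pos (h a x)]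
    · rw [ind_neg x]; exact add_le_add le_rfl (ind_nn hr a)
  simp only [Pi.add_apply, add_sub_add_left_eq_sub, sum_sub_distrib, sum_ind] at this
  unfold df; linarith

omit [Fintype κ] in
/-- A bracket into the extreme class has a pure factor or two extreme factors. -/
theorem Tw.ex_hm (hT : Tw om μ t) (hA : Ab om pos N) {a b e : κ} (h : Hm om a b e)
    (x : Ex om μ e) : P1 om a ∨ P1 om b ∨ Ex om μ a ∧ Ex om μ b := by
  have k : ∀ a, om a ≠ 0 → ¬P1 om a → 0 < (om a).2 ∧ (om a).1 ≤ μ * (om a).2 := fun a u v => by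
    have p : 0 < (om a).2 := (hA.wt a).2.lt_of_ne fun z =>
      v ⟨by linarith [hA.abs_pos u], z.symm⟩
    refine ⟨p, ?_⟩
    rcases (hA.wt a).1.eq_or_lt with z | z
    · rw [← z]; exact (mul_pos hT.pos p).le
    · exact hT.top a ⟨z, p⟩
  by_cases u : P1 om a
  · exact Or.inl u
  by_cases v : P1 om b
  · exact Or.inr (Or.inl v)
  have e1 := x.2
  rw [h.2.2, Prod.fst_add, Prod.snd_add] at e1
  obtain ⟨a1, a2⟩ := k a h.1 u
  obtain ⟨b1, b2⟩ := k b h.2.1 v
  have a3 : (om a).1 = μ * (om a).2 := by linarith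
  have b3 : (om b).1 = μ * (om b).2 := by linarith
  exact Or.inr (Or.inr ⟨⟨⟨a3 ▸ mul_pos hT.pos a1, a1⟩, a3⟩, ⟨b3 ▸ mul_pos hT.pos b1, b1⟩, b3⟩)

omit [Fintype κ] in
theorem Ab.hm_p1 (hA : Ab om pos N) {a b e : κ} (h : Hm om a b e) (x : P1 om e) :
    P1 om a ∧ P1 om b :=
  ⟨⟨by linarith [hA.abs_pos h.1, (hA.hm_z h x.2).1], (hA.hm_z h x.2).1⟩,
    ⟨by linarith [hA.abs_pos h.2.1, (hA.hm_z h x.2).2], (hA.hm_z h x.2).2⟩⟩

omit [Fintype κ] in
theorem Ab.hm_p2 (hA : Ab om pos N) {a b e : κ} (h : Hm om a b e) (x : P2 om e) :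
    P2 om a ∧ P2 om b := by
  have := congrArg Prod.fst h.2.2
  rw [Prod.fst_add, x.1] at this
  have a1 : (om a).1 = 0 := by linarith [(hA.wt a).1, (hA.wt b).1]
  have b1 : (om b).1 = 0 := by linarith [(hA.wt a).1, (hA.wt b).1]
  exact ⟨⟨a1, by linarith [hA.abs_pos h.1]⟩, ⟨b1, by linarith [hA.abs_pos h.2.1]⟩⟩

omit [Fintype κ] in
theorem Ab.gd_p1 (hA : Ab om pos N) {d : κ → ℝ} (hd : Gd om N d) (hr : 0 ≤ r) :
    Gd om N (d + ind (fun a => pos a ∧ P1 om a) r) :=
  hA.gd_ind hd hr (fun _ x => x.1) fun _ _ _ x _ z =>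
    Or.inr ⟨fun p => ⟨p, (hA.hm_p1 x z.2).1⟩, fun p => ⟨p, (hA.hm_p1 x z.2).2⟩⟩

omit [Fintype κ] in
theorem Ab.gd_p2 (hA : Ab om pos N) {d : κ → ℝ} (hd : Gd om N d) (hr : 0 ≤ r) :
    Gd om N (d + ind (fun a => pos a ∧ P2 om a) r) :=
  hA.gd_ind hd hr (fun _ x => x.1) fun _ _ _ x _ z =>
    Or.inr ⟨fun p => ⟨p, (hA.hm_p2 x z.2).1⟩, fun p => ⟨p, (hA.hm_p2 x z.2).2⟩⟩

/-- The second family. -/
theorem full2 (hA : Ab om pos N) (hT : Tw om μ t)
    (hf : ∀ a b e, Hm om a b e → t e < t a + t b → N a b e) (hP : Pm (Gd om N) H) {x : ℝ × ℝ}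
    {σ : ℝ} (hr : 0 ≤ r) (h1 : 0 ≤ x.1) (h2 : 0 ≤ x.2) (h3 : 0 ≤ σ) (h4 : σ ≤ μ * x.1) :
    df H (fun a => pos a ∧ P2 (omN om μ t) a) r (DD om t x σ) ≤
      df H (fun a => pos a ∧ P2 om a) r (dep om x) := by
  simp only [hT.p2]
  have g := hA.gd_DD hT hf h1 h2 h3 h4
  refine df_mono hP hr g (hA.gd_p2 g hr) (hA.gd_dep h1 h2)
    (fun a => sub_le_self _ (mul_nonneg (hT.nn a) h3)) fun a y => ?_
  have : t a = 0 := by nlinarith [hT.le1 a, hT.nn a, hT.pos, y.2.1]
  simp [DD, this]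

/-- The extreme positions are full given the fine pure part. -/
theorem fullE (hA : Ab om pos N) (hA' : Ab om pos' N) (hT : Tw om μ t) (hP : Pm (Gd om N) H)
    (hp : ∀ a, P1 om a ∨ Ex om μ a → (pos' a ↔ pos a)) {X L : ℝ} (hr : 0 ≤ r) (hX : 0 ≤ X)
    (hL : ∀ a, (P1 om a → r ≤ (om a).1 * L) ∧ (0 < (om a).2 → (om a).2 * X + r ≤ (om a).2 * L))
    (hL0 : X ≤ L) (hI : mI H 0 (th om L) (dep om (0, L)) ≤ 0)
    (hG : df H pos' r (dep om (0, X)) ≤ 0) :
    df H (fun a => pos a ∧ Ex om μ a) r (dep om (0, X) + th om L) ≤ 0 := by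
  have L0 : 0 ≤ L := hX.trans hL0
  set C := dep om (0, X) with hC
  set C' := dep om (0, L) with hC'
  have gC : Gd om N C := hA.gd_dep le_rfl hX
  have gC' : Gd om N C' := hA.gd_dep le_rfl L0
  have gT : Gd om N (th om L) := by
    have := hA.gd_th (x := (0, 0)) le_rfl le_rfl L0
    rwa [show dep om (0, 0) + th om L = th om L from funext fun a => by simp [dep]] at this
  have eT : ∀ Y, 0 ≤ Y → th om L ⊔ dep om (0, Y) = dep om (0, Y) + th om L := fun Y h => by
    have := hA.th_sup (x1 := 0) h L0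
    rwa [show dep om (0, 0) + th om L = th om L from funext fun a => by simp [dep]] at this
  set Q := C + th om L with hQ
  have gQ : Gd om N Q := hA.gd_th le_rfl hX L0
  have gm := hA.gd_p1 gC hr
  have gY := hA'.gd_pos gC hr
  set m := C + ind (fun a => pos a ∧ P1 om a) r with hm
  set Y := C + ind pos' r with hY
  have CC : C ≤ C' := hA.dep_le le_rfl hL0
  have mQ : m ≤ Q := fun a => by
    simp only [hm, hQ, Pi.add_apply]
    by_cases x : pos a ∧ P1 om a
    · rw [ind_pos (S := fun a => pos a ∧ P1 om a) x, th_z x.2.2]; linarith [(hL a).1 x.2]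
    · rw [ind_neg (S := fun a => pos a ∧ P1 om a) x]; linarith [hA.th_nn L0 a]
  have mY : m ≤ Y := fun a => by
    simp only [hm, hY, Pi.add_apply]
    by_cases x : pos a ∧ P1 om a
    · rw [ind_pos (S := fun a => pos a ∧ P1 om a) x, ind_pos ((hp a (Or.inl x.2)).2 x.1)]
    · rw [ind_neg (S := fun a => pos a ∧ P1 om a) x]; linarith [ind_nn (S := pos') hr a]
  have YC : Y ≤ C' ⊔ m := fun a => by
    simp only [hm, hY, Pi.add_apply, Pi.sup_apply]
    by_cases x : pos' a
    · rcases (hA.wt a).2.eq_or_lt with z | z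
      · have p : P1 om a := ⟨by linarith [hA.abs_pos (hA'.live a x)], z.symm⟩
        rw [ind_pos x, ind_pos (S := fun a => pos a ∧ P1 om a) ⟨(hp a (Or.inl p)).1 x, p⟩]
        exact le_sup_right
      · refine le_sup_of_le_left ?_
        rw [ind_pos x]; simp only [hC, hC', dep]; linarith [(hL a).2 z]
    · rw [ind_neg x, add_zero]; exact le_sup_of_le_left (CC a)
  have i1 := hP.sub _ _ _ gd_zero gT gC gT.nn gC.nn
  have i2 := hP.sub _ _ _ gC gC' gm CC (le_add_ind hr C)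
  have gYQ := hP.sup _ _ gY gQ
  have gCm := hP.sup _ _ gC' gm
  have i3 := hP.sub _ _ _ gY gYQ gCm le_sup_left YC
  rw [show (Y ⊔ Q) ⊔ (C' ⊔ m) = C' + th om L from by
    rw [← hA.th_sup (x1 := 0) hL0 L0]
    exact le_antisymm (sup_le (sup_le (YC.trans (sup_le le_sup_right (mQ.trans le_sup_left)))
      le_sup_left) (sup_le le_sup_right (mQ.trans le_sup_left)))
      (sup_le (le_sup_of_le_left le_sup_right) (le_sup_of_le_right le_sup_left))] at i3
  have gE : Gd om N (Q + ind (fun a => pos a ∧ Ex om μ a) r) :=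
    hA.gd_ind gQ hr (fun _ x => x.1) fun a b e x _ z => by
      have z2 := z.2.1.2.ne'
      rcases hT.ex_hm hA x z.2 with u | u | u
      · left
        simp only [hQ, Pi.add_apply, hC, dep_hm x, th_n z2, th_z u.2]
        linarith [(hL a).1 u, hA.th_nn L0 b]
      · left
        simp only [hQ, Pi.add_apply, hC, dep_hm x, th_n z2, th_z u.2]
        linarith [(hL b).1 u, hA.th_nn L0 a]
      · exact Or.inr ⟨fun p => ⟨p, u.1⟩, fun p => ⟨p, u.2⟩⟩
  have i4 := hP.lip _ _ gE gYQ fun a => by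
    simp only [hQ, hY, Pi.add_apply, Pi.sup_apply]
    by_cases x : pos a ∧ Ex om μ a
    · rw [ind_pos (S := fun a => pos a ∧ Ex om μ a) x, ind_pos ((hp a (Or.inr x.2)).2 x.1),
        th_n x.2.1.2.ne', add_zero]
      exact le_sup_left
    · rw [ind_neg (S := fun a => pos a ∧ Ex om μ a) x, add_zero]; exact le_sup_right
  have i5 : ∑ a, ((Y ⊔ Q) a - (Q + ind (fun a => pos a ∧ Ex om μ a) r) a) +
      cd (fun a => pos a ∧ Ex om μ a) * r + cd (fun a => pos a ∧ P1 om a) * r ≤ cd pos' * r := by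
    rw [← sum_ind, ← sum_ind, ← sum_ind, ← sum_add_distrib, ← sum_add_distrib]
    refine sum_le_sum fun a _ => ?_
    have q := mQ a
    simp only [hQ, hY, hm, Pi.add_apply, Pi.sup_apply] at q ⊢
    by_cases x : pos a ∧ P1 om a
    · rw [ind_pos (S := fun a => pos a ∧ P1 om a) x] at q ⊢
      rw [ind_pos ((hp a (Or.inl x.2)).2 x.1), sup_eq_right.2 q]; linarith
    · rw [ind_neg (S := fun a => pos a ∧ P1 om a) x]
      have := ind_nn (S := pos') hr a
      rcases le_total (C a + ind pos' r a) (C a + th om L a) with z | z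
      · rw [sup_eq_right.2 z]; linarith
      · rw [sup_eq_left.2 z]; linarith [hA.th_nn L0 a]
  have i6 := df_nn hP hr gC gm
  have e1 : th om L ⊔ C = Q := eT X hX
  have e2 : th om L ⊔ C' = C' + th om L := eT L L0
  rw [e1] at i1
  rw [mI, e2] at hI
  rw [df, ← hm] at i6
  rw [df, ← hY] at hG
  rw [df]
  linarith

/-- The first family. -/
theorem full1 (hA : Ab om pos N) (hA' : Ab om pos' N) (hT : Tw om μ t)
    (hf : ∀ a b e, Hm om a b e → t e < t a + t b → N a b e) (hP : Pm (Gd om N) H)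
    (hp : ∀ a, P1 om a ∨ Ex om μ a → (pos' a ↔ pos a)) {x : ℝ × ℝ} {X σ τ : ℝ} (hr : 0 ≤ r)
    (h1 : 0 ≤ x.1) (h2 : 0 ≤ x.2) (hX : 0 ≤ X) (hσ : σ = μ * x.1 - X + x.2) (h3 : 0 ≤ σ)
    (h4 : x.2 ≤ X) (hτ : ∀ a b e, t a + t b < t e → τ ≤ t e - t a - t b) (hτ' : r ≤ τ * σ)
    (h5 : ∀ a, P1 om a → r ≤ (om a).1 * x.1)
    (h6 : ∀ a, ¬P1 om a → ¬Ex om μ a → dep om x a ≤ (om a).2 * X)
    (hI : ∀ L : ℕ, mI H 0 (th om L) (dep om (0, L)) ≤ 0)
    (hG : df H pos' r (dep om (0, X)) ≤ 0)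
    (hF : df H (fun a => pos a ∧ P1 om a) r (dep om (x.1, X)) ≤ 0) :
    df H (fun a => pos a ∧ P1 (omN om μ t) a) r (DD om t x σ) ≤ 0 := by
  obtain ⟨m, hm, m1⟩ := exists_lb (fun p : κ × Bool => 0 < bif p.2 then (om p.1).1 else (om p.1).2)
    (fun p => bif p.2 then (om p.1).1 else (om p.1).2) fun _ h => h
  obtain ⟨L, hL⟩ := exists_nat_gt (x.1 + X + r / m)
  have r1 : 0 ≤ r / m := by positivity
  have r2 : ∀ u, m ≤ u → r ≤ u * (r / m) := fun u h => by
    have := mul_le_mul_of_nonneg_right h r1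
    rwa [mul_div_cancel₀ _ hm.ne'] at this
  have l1 : ∀ a, P1 om a → (om a).1 * x.1 + r ≤ (om a).1 * L := fun a h => by
    have := r2 _ (m1 (a, true) h.1)
    simp only [cond_true] at this
    nlinarith [h.1]
  have E := fullE (L := L) hA hA' hT hP hp hr hX (fun a => ⟨fun h => by
    linarith [l1 a h, mul_nonneg h.1.le h1], fun h => by
      have := r2 _ (m1 (a, false) h)
      simp only [cond_false] at this
      nlinarith⟩) (by linarith) (hI L) hG
  have g := hA.gd_DD hT hf h1 h2 h3 (by linarith)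
  set Q := dep om (0, X) + th om x.1 with hQ
  have gQ : Gd om N Q := hA.gd_th le_rfl hX h1
  have q1 : ∀ a, P1 om a → Q a = (om a).1 * x.1 := fun a h => by
    simp [hQ, dep, th_z h.2, h.2]
  have q2 : ∀ a, ¬P1 om a → Q a = (om a).2 * X := fun a h => by
    by_cases z : (om a).2 = 0
    · have : (om a).1 = 0 := (hA.wt a).1.eq_or_lt.elim Eq.symm fun y => absurd ⟨y, z⟩ h
      simp [hQ, dep, th_z z, this]
    · simp [hQ, dep, th_n z]
  have ne : ∀ a, P1 om a → ¬Ex om μ a := fun a h y => y.1.2.ne' h.2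
  have qe : ∀ a, P1 om a ∨ Ex om μ a → Q a = DD om t x σ a := by
    rintro a (h | h)
    · have : t a = 0 := by linarith [hT.le2 a, hT.nn a, h.2]
      simp [q1 a h, DD, dep, this, h.2]
    · rw [q2 a fun y => ne a y h]
      simp only [DD, dep, hT.ex a h, h.2, hσ]; ring
  have s1 : df H (fun a => pos a ∧ P1 (omN om μ t) a) r (DD om t x σ) ≤
      df H (fun a => pos a ∧ P1 (omN om μ t) a) r Q := by
    refine df_mono hP hr g (hA.gd_ind g hr (fun _ y => y.1) fun a b e u v z => ?_) gQ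
      (fun a => ?_) fun a y => qe a ((hT.p1 hA a).1 y.2)
    · rcases (not_lt.1 fun z => v (hf a b e u z)).eq_or_lt with y | y
      · right
        have e1 := z.2.2
        have e2 := congrArg Prod.snd u.2.2
        have k : ∀ a, om a ≠ 0 → t a = (om a).2 → P1 (omN om μ t) a := fun a p q => by
          refine ⟨?_, by simp [omN, q]⟩
          have := hA.abs_pos p
          simp only [omN]
          rcases (hT.nn a).eq_or_lt with z | z
          · rw [← z] at q ⊢; linarith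
          · linarith [hT.le1 a]
        simp only [omN, Prod.snd_add] at e1 e2
        exact ⟨fun p => ⟨p, k a u.1 (by linarith [hT.le2 a, hT.le2 b])⟩,
          fun p => ⟨p, k b u.2.1 (by linarith [hT.le2 a, hT.le2 b])⟩⟩
      · left
        linarith [DD_hm (t := t) u x σ, mul_le_mul_of_nonneg_right (hτ a b e y) h3]
    · by_cases y : P1 om a ∨ Ex om μ a
      · exact (qe a y).ge
      · rw [q2 a fun z => y (Or.inl z)]
        exact (sub_le_self _ (mul_nonneg (hT.nn a) h3)).trans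
          (h6 a (fun z => y (Or.inl z)) fun z => y (Or.inr z))
  have gq1 := hA.gd_p1 gQ hr
  have s2 : df H (fun a => pos a ∧ P1 om a) r Q ≤
      df H (fun a => pos a ∧ P1 om a) r (dep om (x.1, X)) := by
    refine df_mono hP hr gQ gq1 (hA.gd_dep h1 hX) (fun a => ?_) fun a y => by
      simp [q1 a y.2, dep, y.2.2]
    by_cases y : P1 om a
    · simp [q1 a y, dep, y.2]
    · rw [q2 a y]; simp only [dep]; linarith [mul_nonneg (hA.wt a).1 h1]
  have eo : (fun a => pos a ∧ P1 (omN om μ t) a) =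
      fun a => (pos a ∧ P1 om a) ∨ (pos a ∧ Ex om μ a) := by
    funext a; rw [hT.p1 hA, and_or_left]
  have dj : ∀ a, pos a ∧ P1 om a → ¬(pos a ∧ Ex om μ a) := fun a y z => ne a y.2 z.2
  have s3 : df H (fun a => pos a ∧ Ex om μ a) r (Q + ind (fun a => pos a ∧ P1 om a) r) ≤
      df H (fun a => pos a ∧ Ex om μ a) r (dep om (0, X) + th om L) := by
    refine df_mono hP hr gq1 ?_ (hA.gd_th le_rfl hX (Nat.cast_nonneg _)) (fun a => ?_) fun a y => ?_
    · rw [← ind_or dj]
      refine hA.gd_ind gQ hr (fun _ y => y.elim And.left And.left) fun a b e u _ z => ?_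
      rcases z with z | z
      · exact Or.inr ⟨fun p => Or.inl ⟨p, (hA.hm_p1 u z.2).1⟩,
          fun p => Or.inl ⟨p, (hA.hm_p1 u z.2).2⟩⟩
      · have z2 := z.2.1.2.ne'
        rcases hT.ex_hm hA u z.2 with y | y | y
        · left
          simp only [hQ, Pi.add_apply, dep_hm u, th_n z2, th_z y.2]
          linarith [h5 a y, hA.th_nn h1 b]
        · left
          simp only [hQ, Pi.add_apply, dep_hm u, th_n z2, th_z y.2]
          linarith [h5 b y, hA.th_nn h1 a]
        · exact Or.inr ⟨fun p => Or.inr ⟨p, y.1⟩, fun p => Or.inr ⟨p, y.2⟩⟩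
    · simp only [hQ, Pi.add_apply]
      by_cases z : (om a).2 = 0
      · rw [th_z z, th_z z]
        by_cases y : pos a ∧ P1 om a
        · rw [ind_pos (S := fun a => pos a ∧ P1 om a) y]; linarith [l1 a y.2]
        · rw [ind_neg (S := fun a => pos a ∧ P1 om a) y]
          nlinarith [(hA.wt a).1]
      · rw [th_n z, th_n z, ind_neg (S := fun a => pos a ∧ P1 om a) fun y => z y.2.2, add_zero]
    · have z := y.2.1.2.ne'
      simp only [hQ, Pi.add_apply, th_n z,
        ind_neg (S := fun a => pos a ∧ P1 om a) fun y => z y.2.2, add_zero]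
  refine s1.trans ?_
  rw [eo, df_or dj]
  linarith

end Pool.Agent.MP_5168f5_an.AN.GO
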