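import Pool.Agent.MP_5168f5_an.AN.GOSpec

/-! Paths of depth vectors for a submodular function. -/

namespace Pool.Agent.MP_5168f5_an.AN.GO

open GA Finset

variable {κ : Type} [Fintype κ]

open Classical in
/-- The vector with value `r` on `S`. -/
noncomputable def ind (S : κ → Prop) (r : ℝ) (a : κ) : ℝ := if S a then r else 0

/-- The number of indices in `S`. -/
noncomputable def cd (S : κ → Prop) : ℝ := ∑ a, ind S 1 a

/-- The deficiency of the coordinates in `S` between the depths `d` and `d + r`. -/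
noncomputable def df (H : (κ → ℝ) → ℝ) (S : κ → Prop) (r : ℝ) (d : κ → ℝ) : ℝ :=
  cd S * r - (H (d + ind S r) - H d)

/-- The combinatorial part of the algebra. -/
structure Ab (om : κ → ℝ × ℝ) (pos : κ → Prop) (N : κ → κ → κ → Prop) : Prop where
  wt : ∀ a, 0 ≤ (om a).1 ∧ 0 ≤ (om a).2
  live : ∀ a, pos a → om a ≠ 0
  hom : ∀ a b e, om e ≠ 0 → ¬Hm om a b e → N a b e
  sub : ∀ a b e, ¬pos a → ¬pos b → pos e → N a b e

variable {S S' pos : κ → Prop} {r R : ℝ} {G : (κ → ℝ) → Prop} {H : (κ → ℝ) → ℝ}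
  {om : κ → ℝ × ℝ} {N : κ → κ → κ → Prop}

omit [Fintype κ] in
theorem ind_pos {a : κ} (h : S a) : ind S r a = r := if_pos h

omit [Fintype κ] in
theorem ind_neg {a : κ} (h : ¬S a) : ind S r a = 0 := if_neg h

omit [Fintype κ] in
theorem ind_nn (h : 0 ≤ r) (a : κ) : 0 ≤ ind S r a := by
  unfold ind; split_ifs <;> simp [h]

omit [Fintype κ] in
theorem ind_le (h : 0 ≤ r) (a : κ) : ind S r a ≤ r := by
  unfold ind; split_ifs <;> simp [h]

omit [Fintype κ] in
theorem ind_mul (a : κ) : ind S r a = ind S 1 a * r := by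
  unfold ind; split_ifs <;> simp

theorem sum_ind : ∑ a, ind S r a = cd S * r := by
  rw [cd, sum_mul]; exact sum_congr rfl fun a _ => ind_mul a

theorem cd_nn : 0 ≤ cd S := sum_nonneg fun a _ => ind_nn zero_le_one a

omit [Fintype κ] in
theorem le_add_ind (h : 0 ≤ r) (d : κ → ℝ) : d ≤ d + ind S r := fun a =>
  le_add_of_nonneg_right (ind_nn h a)

theorem df_nn (hP : Pm G H) {d : κ → ℝ} (h : 0 ≤ r) (hd : G d) (he : G (d + ind S r)) :
    0 ≤ df H S r d := by
  have := hP.lip _ _ hd he (le_add_ind h d)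
  simp only [Pi.add_apply, add_sub_cancel_left, sum_ind] at this
  unfold df; linarith

theorem df_le (hP : Pm G H) {d : κ → ℝ} (h : 0 ≤ r) (hd : G d) (he : G (d + ind S r)) :
    df H S r d ≤ cd S * r := by
  have := hP.mono _ _ hd he (le_add_ind h d)
  unfold df; linarith

/-- More conditioning gives more deficiency. -/
theorem df_mono (hP : Pm G H) {d d' : κ → ℝ} (h : 0 ≤ r) (hd : G d) (he : G (d + ind S r))
    (hd' : G d') (hl : d ≤ d') (hq : ∀ a, S a → d' a = d a) : df H S r d ≤ df H S r d' := by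
  have := hP.sub _ _ _ hd he hd' (le_add_ind h d) hl
  rw [show (d + ind S r) ⊔ d' = d' + ind S r from funext fun a => by
    simp only [Pi.sup_apply, Pi.add_apply]
    by_cases x : S a
    · rw [hq a x, sup_eq_left.2 (le_add_of_nonneg_right (ind_nn h a))]
    · rw [ind_neg x, add_zero, add_zero, sup_eq_right.2 (hl a)]] at this
  unfold df; linarith

/-- The deficiency at the top is bounded by the sum of the deficiencies along a path. -/
theorem path (hP : Pm G H) (d : ℕ → κ → ℝ) (n : ℕ) {s : ℝ} (hr : 0 ≤ r) (hR : 0 ≤ R) (h0 : G 0)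
    (hY : G (0 + ind pos R)) (hd : ∀ i, G (d i)) (hn : 0 ≤ d 0) (hm : ∀ i, d i ≤ d (i + 1))
    (hs : ∀ i a, pos a → d (i + 1) a ≤ d i a + r)
    (he : ∀ i, G (d i + ind (fun a => pos a ∧ d i a + r ≤ R) r))
    (hf : ∀ i, G (d i + ind pos r)) (hb : ∀ a, pos a → d 0 a ≤ s)
    (ht : ∀ a, pos a → R - r ≤ d n a) :
    df H pos R 0 - cd pos * (r + s) ≤ ∑ i ∈ range n, df H pos r (d i) := by
  set Y := (0 : κ → ℝ) + ind pos R with hYd
  let ψ : ℕ → ℝ := fun i => ∑ a, ind pos 1 a * min (d i a) (R - r)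
  let φ : ℕ → ℝ := fun i => H (Y ⊔ d i) - H (d i) + ψ i
  have step : ∀ i, φ (i + 1) ≤ φ i + df H pos r (d i) := fun i => by
    set e := d i + ind (fun a => pos a ∧ d i a + r ≤ R) r with hed
    have e1 : e ≤ Y ⊔ d i := fun a => by
      simp only [hed, hYd, Pi.add_apply, Pi.sup_apply, Pi.zero_apply, zero_add]
      by_cases x : pos a ∧ d i a + r ≤ R
      · rw [ind_pos (S := fun a => pos a ∧ d i a + r ≤ R) x, ind_pos x.1]
        exact le_sup_of_le_left x.2
      · rw [ind_neg (S := fun a => pos a ∧ d i a + r ≤ R) x, add_zero]; exact le_sup_right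
    have g1 := hP.sup _ _ hY (hd i)
    have g2 := hP.sup _ _ (he i) (hd (i + 1))
    have a1 := hP.sub _ _ _ (he i) g1 g2 e1 le_sup_left
    rw [show (Y ⊔ d i) ⊔ (e ⊔ d (i + 1)) = Y ⊔ d (i + 1) from le_antisymm
      (sup_le (sup_le_sup_left (hm i) _) (sup_le (e1.trans (sup_le_sup_left (hm i) _)) le_sup_right))
      (sup_le (le_sup_of_le_left le_sup_left) (le_sup_of_le_right le_sup_right))] at a1
    have a2 := hP.lip _ _ (hd (i + 1)) g2 le_sup_right
    have a3 := hP.lip _ _ (he i) (hf i) fun a => by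
      simp only [hed, Pi.add_apply]
      by_cases x : pos a
      · rw [ind_pos x]; exact add_le_add le_rfl (ind_le hr a)
      · rw [ind_neg x, ind_neg (S := fun a => pos a ∧ d i a + r ≤ R) fun y => x y.1]
    have a4 : ∑ a, ((e ⊔ d (i + 1)) a - d (i + 1) a) + ∑ a, ((d i + ind pos r) a - e a) +
        ψ (i + 1) ≤ cd pos * r + ψ i := by
      rw [← sum_ind, ← sum_add_distrib, ← sum_add_distrib, ← sum_add_distrib]
      refine sum_le_sum fun a _ => ?_
      have m1 := hm i a
      simp only [hed, Pi.add_apply, Pi.sup_apply]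
      by_cases x : pos a
      · have m2 := hs i a x
        rw [ind_pos x, ind_pos x]
        by_cases y : d i a + r ≤ R
        · rw [ind_pos (S := fun a => pos a ∧ d i a + r ≤ R) ⟨x, y⟩, sup_eq_left.2 m2,
            min_eq_left (by linarith : d i a ≤ R - r)]
          linarith [min_le_left (d (i + 1) a) (R - r)]
        · rw [ind_neg (S := fun a => pos a ∧ d i a + r ≤ R) fun z => y z.2, add_zero,
            sup_eq_right.2 m1, min_eq_right (by linarith : R - r ≤ d i a)]
          linarith [min_le_right (d (i + 1) a) (R - r)]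
      · rw [ind_neg x, ind_neg x, ind_neg (S := fun a => pos a ∧ d i a + r ≤ R) fun y => x y.1,
          add_zero, sup_eq_right.2 m1]
        linarith
    simp only [φ, df]
    linarith
  have tot : ∀ m, φ m ≤ φ 0 + ∑ i ∈ range m, df H pos r (d i) := fun m => by
    induction m with
    | zero => simp
    | succ m ih => rw [sum_range_succ]; linarith [step m]
  have b1 := hP.sub _ _ _ h0 hY (hd 0) (le_add_ind hR 0) hn
  have b2 := hP.mono _ _ (hd n) (hP.sup _ _ hY (hd n)) le_sup_right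
  have b3 : ψ 0 ≤ cd pos * s := by
    rw [← sum_ind]
    refine sum_le_sum fun a _ => ?_
    by_cases x : pos a
    · rw [ind_pos x, ind_pos x, one_mul]; exact (min_le_left _ _).trans (hb a x)
    · rw [ind_neg x, ind_neg x, zero_mul]
  have b4 : cd pos * (R - r) ≤ ψ n := by
    rw [← sum_ind]
    refine sum_le_sum fun a _ => ?_
    by_cases x : pos a
    · rw [ind_pos x, ind_pos x, one_mul, min_eq_right (ht a x)]
    · rw [ind_neg x, ind_neg x, zero_mul]
  have := tot n
  simp only [φ] at this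
  unfold df
  rw [← hYd]
  unfold df at this
  linarith

/-! ### Good depth vectors -/

omit [Fintype κ] in
theorem Ab.gd (hA : Ab om pos N) {d : κ → ℝ} (h0 : ∀ a, 0 ≤ d a) (hz : ∀ a, om a = 0 → d a = 0)
    (h : ∀ a b e, Hm om a b e → ¬N a b e → d e ≤ d a + d b) : Gd om N d := by
  refine ⟨fun a b e x => ?_, h0, hz⟩
  by_contra y
  by_cases z : om e = 0
  · linarith [hz e z, h0 a, h0 b]
  · exact absurd (h a b e (not_not.1 fun w => y (hA.hom a b e z w)) y) (not_le.2 x)

omit [Fintype κ] in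
theorem Ab.gd_ind (hA : Ab om pos N) {d : κ → ℝ} (hd : Gd om N d) (hr : 0 ≤ r)
    (hS : ∀ a, S a → pos a) (h : ∀ a b e, Hm om a b e → ¬N a b e → S e →
      d e + r ≤ d a + d b ∨ (pos a → S a) ∧ (pos b → S b)) : Gd om N (d + ind S r) := by
  refine hA.gd (fun a => add_nonneg (hd.nn a) (ind_nn hr a)) (fun a x => ?_) fun a b e x y => ?_
  · rw [Pi.add_apply, hd.dead a x, ind_neg fun z => hA.live a (hS a z) x, add_zero]
  · have e1 : d e ≤ d a + d b := not_lt.1 fun z => y (hd.id a b e z)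
    have e2 := ind_nn (S := S) hr a
    have e3 := ind_nn (S := S) hr b
    simp only [Pi.add_apply]
    by_cases z : S e
    · rw [ind_pos z]
      rcases h a b e x y z with w | w
      · linarith
      · by_cases p : pos a
        · rw [ind_pos (w.1 p)]; linarith
        · by_cases q : pos b
          · rw [ind_pos (w.2 q)]; linarith
          · exact absurd (hA.sub a b e p q (hS e z)) y
    · rw [ind_neg z]; linarith

omit [Fintype κ] in
theorem Ab.gd_pos (hA : Ab om pos N) {d : κ → ℝ} (hd : Gd om N d) (hr : 0 ≤ r) :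
    Gd om N (d + ind pos r) :=
  hA.gd_ind hd hr (fun _ => id) fun _ _ _ _ _ _ => Or.inr ⟨id, id⟩

omit [Fintype κ] in
theorem Ab.gd_act (hA : Ab om pos N) {d : κ → ℝ} (hd : Gd om N d) (hr : 0 ≤ r)
    (h : ∀ a b e, Hm om a b e → ¬N a b e → d e = d a + d b ∨ d e + r ≤ d a + d b) :
    Gd om N (d + ind (fun a => pos a ∧ d a + r ≤ R) r) :=
  hA.gd_ind hd hr (fun _ x => x.1) fun a b e x y z => (h a b e x y).symm.imp_right fun w =>
    ⟨fun p => ⟨p, by linarith [hd.nn b, z.2]⟩, fun p => ⟨p, by linarith [hd.nn a, z.2]⟩⟩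

omit [Fintype κ] in
theorem gd_zero : Gd om N 0 := ⟨fun a b e x => by simp at x, fun _ => le_rfl, fun _ _ => rfl⟩

omit [Fintype κ] in
theorem dep_hm {a b e : κ} (h : Hm om a b e) (x : ℝ × ℝ) :
    dep om x e = dep om x a + dep om x b := by
  simp only [dep, h.2.2, Prod.fst_add, Prod.snd_add]; ring

omit [Fintype κ] in
theorem Ab.gd_dep (hA : Ab om pos N) {x : ℝ × ℝ} (h1 : 0 ≤ x.1) (h2 : 0 ≤ x.2) :
    Gd om N (dep om x) :=
  hA.gd (fun a => add_nonneg (mul_nonneg (hA.wt a).1 h1) (mul_nonneg (hA.wt a).2 h2))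
    (fun a h => by simp [dep, h]) fun a b e h _ => (dep_hm h x).le

/-- A positive lower bound for finitely many positive numbers. -/
theorem exists_lb {J : Type} [Finite J] (p : J → Prop) (f : J → ℝ) (h : ∀ i, p i → 0 < f i) :
    ∃ m : ℝ, 0 < m ∧ ∀ i, p i → m ≤ f i := by
  classical
  have := Fintype.ofFinite J
  by_cases x : (univ.filter p).Nonempty
  · obtain ⟨i, a, b⟩ := exists_min_image _ f x
    exact ⟨f i, h i (mem_filter.1 a).2, fun j c => b j (mem_filter.2 ⟨mem_univ _, c⟩)⟩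
  · exact ⟨1, one_pos, fun i c => absurd ⟨i, mem_filter.2 ⟨mem_univ _, c⟩⟩ x⟩

theorem exists_ub {J : Type} [Finite J] (f : J → ℝ) : ∃ m : ℕ, 1 ≤ m ∧ ∀ i, f i ≤ m := by
  obtain ⟨C, hC⟩ := (Set.finite_range f).bddAbove
  exact ⟨⌈C⌉₊ + 1, by omega, fun i => by
    push_cast; linarith [hC ⟨i, rfl⟩, Nat.le_ceil C]⟩

/-- The path along a ray: some step carries a fixed part of the deficiency, after subtracting a
penalty `q` of small sum. -/
theorem ray (hA : Ab om pos N) (hP : Pm (Gd om N) H) {m e w s : ℝ} {r0 : ℝ} (d0 v : κ → ℝ)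
    (q : ℕ → ℝ) (hm : 0 < m) (hw : 0 < w) (hw1 : w ≤ 1) (hR : 0 ≤ R) (he : 0 < e)
    (hdef : e ≤ df H pos R 0) (hv : ∀ a, 0 ≤ v a ∧ v a ≤ r0 ∧ (pos a → m ≤ v a)) (hr0 : 0 ≤ r0)
    (hd : ∀ i : ℕ, Gd om N fun a => d0 a + i * w * v a) (hb : ∀ a, d0 a ≤ s)
    (hg : ∀ (i : ℕ) a b e, Hm om a b e → ¬N a b e →
      d0 e + i * w * v e = (d0 a + i * w * v a) + (d0 b + i * w * v b) ∨
      d0 e + i * w * v e + r0 * w ≤ (d0 a + i * w * v a) + (d0 b + i * w * v b))
    (hs : cd pos * (r0 * w + s) ≤ e / 2)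
    (hq : ∑ i ∈ range (⌈R / (m * w)⌉₊ + 1), q i ≤ e / 4) :
    ∃ i : ℕ, i * w ≤ R / m + 1 ∧ e / (4 * (R / m + 2)) * w + q i ≤
      df H pos (r0 * w) fun a => d0 a + i * w * v a := by
  set n := ⌈R / (m * w)⌉₊ + 1 with hn
  have hr : 0 ≤ r0 * w := mul_nonneg hr0 hw.le
  have n1 : R / (m * w) ≤ n := by rw [hn]; push_cast; linarith [Nat.le_ceil (R / (m * w))]
  have n2 : (n : ℝ) ≤ R / (m * w) + 2 := by
    rw [hn]; push_cast; linarith [Nat.ceil_lt_add_one (show 0 ≤ R / (m * w) by positivity)]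
  have n3 : R / (m * w) * w = R / m := by field_simp
  have n4 : (n : ℝ) * w ≤ R / m + 2 := by nlinarith
  have P := path hP (fun (i : ℕ) a => d0 a + i * w * v a) n (s := s) hr hR gd_zero
    (hA.gd_pos gd_zero hR) hd (hd 0).nn
    (fun i a => by push_cast; nlinarith [mul_nonneg hw.le (hv a).1])
    (fun i a _ => by push_cast; nlinarith [mul_le_mul_of_nonneg_left (hv a).2.1 hw.le])
    (fun i => hA.gd_act (hd i) hr (hg i)) (fun i => hA.gd_pos (hd i) hr)
    (fun a _ => by simpa using hb a) (fun a x => by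
      have h1 := (hd 0).nn a
      have h2 := mul_le_mul_of_nonneg_left ((hv a).2.2 x) (show 0 ≤ (n : ℝ) * w by positivity)
      rw [div_le_iff₀ (by positivity)] at n1
      simp only [Nat.cast_zero, zero_mul, add_zero] at h1
      nlinarith)
  by_contra c
  push Not at c
  have : ∑ i ∈ range n, df H pos (r0 * w) (fun a => d0 a + i * w * v a) <
      ∑ i ∈ range n, (e / (4 * (R / m + 2)) * w + q i) :=
    sum_lt_sum_of_nonempty ⟨0, mem_range.2 (by omega)⟩ fun i hi => c i (by
      have : (i : ℝ) + 1 ≤ n := by exact_mod_cast mem_range.1 hi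
      nlinarith)
  rw [sum_add_distrib, sum_const, card_range, nsmul_eq_mul] at this
  have k : (n : ℝ) * (e / (4 * (R / m + 2)) * w) ≤ e / 4 := by
    have p : 0 < R / m + 2 := by positivity
    calc _ = e / 4 * (n * w / (R / m + 2)) := by field_simp
      _ ≤ e / 4 * 1 := by gcongr; rwa [div_le_one p]
      _ = _ := mul_one _
  linarith

end Pool.Agent.MP_5168f5_an.AN.GO
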