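import Pool.Agent.MP_5168f5_an.AN.GASpec
import Pool.Agent.MP_5168f5_an.AN.GAFlag

/-! Kakeya sets in all dimensions: the overfeeding step, definitions and statements. -/

namespace Pool.Agent.MP_5168f5_an.AN.GO

open H19 H17S H17F G39 Filter H61Z GA GF R4

section Wt

variable {κ : Type} (om : κ → ℝ × ℝ) (μ : ℝ) (t : κ → ℝ)

/-- Mixed of ratio `μ`. -/
def Ex (a : κ) : Prop := Mx om a ∧ (om a).1 = μ * (om a).2

/-- The savings. -/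
structure Tw : Prop where
  pos : 0 < μ
  top : ∀ a, Mx om a → (om a).1 ≤ μ * (om a).2
  nn : ∀ a, 0 ≤ t a
  le1 : ∀ a, μ * t a ≤ (om a).1
  le2 : ∀ a, t a ≤ (om a).2
  ex : ∀ a, Ex om μ a → t a = (om a).2

/-- The new weights. -/
def omN (a : κ) : ℝ × ℝ := ((om a).1 - t a * (μ - 1), (om a).2 - t a)

open Classical in
/-- The constants of the graded algebra. -/
noncomputable def cG (c : κ → κ → κ → ℝ) (a b e : κ) : ℝ :=
  if Hm om a b e ∧ t e = t a + t b then c a b e else 0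

/-- Good depth vectors for the set `N` of negligible triples. -/
structure Gd (N : κ → κ → κ → Prop) (d : κ → ℝ) : Prop where
  id : ∀ a b e, d a + d b < d e → N a b e
  nn : ∀ a, 0 ≤ d a
  dead : ∀ a, om a = 0 → d a = 0

/-- A monotone, Lipschitz, submodular function on a lattice of vectors. -/
structure Pm [Fintype κ] (G : (κ → ℝ) → Prop) (H : (κ → ℝ) → ℝ) : Prop where
  sup : ∀ d d', G d → G d' → G (d ⊔ d')
  mono : ∀ d d', G d → G d' → d ≤ d' → H d ≤ H d'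
  lip : ∀ d d', G d → G d' → d ≤ d' → H d' ≤ H d + ∑ a, (d' a - d a)
  sub : ∀ d0 d d', G d0 → G d → G d' → d0 ≤ d → d0 ≤ d' → H (d ⊔ d') + H d0 ≤ H d + H d'

end Wt

section Seq

variable {ι κ : Type} [Fintype ι] [DecidableEq ι] [Fintype κ]

open Classical in
/-- The filtration by savings and the generation of the graded algebra, with errors in `Sz`. -/
structure Ovf (Sz : (ℕ → ℝ) → Prop) (M : ℕ → ℕ) (om : κ → ℝ × ℝ) (t : κ → ℝ)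
    (c : ℕ → κ → κ → κ → ℝ) : Prop where
  fil : ∀ a b e, Hm om a b e → t e < t a + t b → Sz fun n => c n a b e
  gen : ∀ e, Mx om e → t e < (om e).2 → ∃ lam : ℕ → κ → κ → ℝ,
    (∀ a b, OB M fun n => lam n a b) ∧ ∀ e', Sz fun n =>
      ∑ a, ∑ b, lam n a b * cG om t (c n) a b e' - if e' = e then 1 else 0

/-- The negligible triples. -/
def Ng (M : ℕ → ℕ) (c : ℕ → κ → κ → κ → ℝ) (a b e : κ) : Prop := Neg M fun n => c n a b e

/-- The radii `r` have depth `d`. -/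
def Ap (M : ℕ → ℕ) (r : ℕ → κ → ℝ) (d : κ → ℝ) : Prop := ∃ L, Sub M L ∧ ∀ᶠ n in UF, ∀ a,
  0 < r n a ∧ r n a ≤ L n * dl M (d a) n ∧ dl M (d a) n ≤ L n * r n a

/-- The entropy rate of the cell of depth `d` given the top cell and the context. -/
noncomputable def HH {Ω β : ℕ → Type} (M : ℕ → ℕ) (P : ∀ n, FP (Ω n)) (B : ℕ → κ → Mt ι)
    (j : ∀ n, Ω n → Mt ι) (T : ∀ n, Ω n → β n) (d : κ → ℝ) : ℝ :=
  rt M fun n => ch (P n) (fun ω => cl M B d n (j n ω)) fun ω => (cl M B 0 n (j n ω), T n ω)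

end Seq

/-- The adapted basis over the ring of subexponential sequences. -/
def OV1 : Prop := ∀ (ι κ : Type) [Fintype ι] [DecidableEq ι] [Fintype κ] [DecidableEq κ]
  (M : ℕ → ℕ) (Φ : Filt (Mt ι)) (om : κ → ℝ × ℝ) (pos : κ → Prop) (B : ℕ → κ → Mt ι)
  (c : ℕ → κ → κ → κ → ℝ) (μ : ℝ) (lv : κ → ℕ), Alg M Φ om pos B c → 0 < μ →
  (∀ a, Mx om a → (om a).1 ≤ μ * (om a).2) →
  ∃ (A A' : ℕ → Matrix κ κ ℝ) (t : κ → ℝ),
    (∀ᶠ n in UF, A n * A' n = 1 ∧ Pat om lv (A n) ∧ Pat om lv (A' n)) ∧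
    (∀ a e, OB M (fun n => A n a e) ∧ OB M fun n => A' n a e) ∧ Tw om μ t ∧
    Ovf (OS M) M om t fun n => mC (A n) (A' n) (c n)

/-- In a slower unit power small errors are negligible. -/
def OV2 : Prop := ∀ (κ : Type) [Fintype κ] (M : ℕ → ℕ) (om : κ → ℝ × ℝ) (t : κ → ℝ)
  (c : ℕ → κ → κ → κ → ℝ), Big M → Ovf (OS M) M om t c → ∃ M0 : ℕ → ℝ, Sm M M0 ∧
  ∀ (M' : ℕ → ℕ) (c' : ℕ → κ → κ → κ → ℝ), Sm M' M0 → Sm M (fun n => (M' n : ℝ)) →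
    (∀ n a b e, Hm om a b e → c' n a b e = c n a b e) → Ovf (Neg M') M' om t c'

/-- The algebra of the overfed tangent at the base depth `dep om x - t σ` (absolute units). -/
def OV3 : Prop := ∀ (ι κ : Type) [Fintype ι] [DecidableEq ι] [Fintype κ] (M : ℕ → ℕ)
  (Φ : Filt (Mt ι)) (om : κ → ℝ × ℝ) (pos : κ → Prop) (B : ℕ → κ → Mt ι)
  (c : ℕ → κ → κ → κ → ℝ) (μ : ℝ) (t : κ → ℝ), Alg M Φ om pos B c → Tw om μ t →
  Ovf (Neg M) M om t c → ∃ M0 : ℕ → ℝ, Sm M M0 ∧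
  ∀ (M' : ℕ → ℕ) (x : ℕ → ℝ × ℝ) (σ : ℕ → ℝ) (C : ℝ), Big M' → Sm M' M0 →
    (∀ᶠ n in UF, (M' n : ℝ) ≤ C * M n ∧ 0 ≤ (x n).1 ∧ (x n).1 ≤ C * M n ∧ 0 ≤ (x n).2 ∧
      (x n).2 ≤ C * M n ∧ σ n ≤ μ * (x n).1) → (∀ K : ℝ, ∀ᶠ n in UF, K * M' n ≤ σ n) →
    Alg M' Φ (omN om μ t) pos
      (fun n => sB (fun a => Real.exp (-(dep om (x n) a - t a * σ n))) (B n))
      fun n => sC (fun a => Real.exp (-(dep om (x n) a - t a * σ n))) (c n)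

def OfOV3 : Prop := SFr → OV3

/-- Cells of comparable radii: refinement and join. -/
def HC1 : Prop := ∀ (ι κ : Type) [Fintype ι] [DecidableEq ι] [Fintype κ] (M : ℕ → ℕ)
  (Φ : Filt (Mt ι)) (om : κ → ℝ × ℝ) (pos : κ → Prop) (B : ℕ → κ → Mt ι)
  (c : ℕ → κ → κ → κ → ℝ) (Ω : ℕ → Type) (P : ∀ n, FP (Ω n)) (j : ∀ n, Ω n → Mt ι),
  Alg M Φ om pos B c → (∀ᶠ n in UF, ∀ ω ∈ (P n).S, IsUnit (j n ω)) →
  ∀ (d d1 d2 : κ → ℝ) (r r1 r2 : ℕ → κ → ℝ), Gd om (Ng M c) d → Gd om (Ng M c) d1 →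
    Gd om (Ng M c) d2 → Ap M r d → Ap M r1 d1 → Ap M r2 d2 → d ≤ d1 ⊔ d2 →
    Sm M fun n => ch (P n) (fun ω => cell (B n) (r n) (j n ω))
      fun ω => (cell (B n) (r1 n) (j n ω), cell (B n) (r2 n) (j n ω))

def OfHC1 : Prop := SMul → SNr → SCell → SIdR → SDet → SCnt → SCntW → HC1

/-- The entropy rates of cells are given by one function. -/
def HC2 : Prop := ∀ (ι κ : Type) [Fintype ι] [DecidableEq ι] [Fintype κ] (M : ℕ → ℕ)
  (Φ : Filt (Mt ι)) (om : κ → ℝ × ℝ) (pos : κ → Prop) (B : ℕ → κ → Mt ι)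
  (c : ℕ → κ → κ → κ → ℝ) (Ω β : ℕ → Type) (P : ∀ n, FP (Ω n)) (j : ∀ n, Ω n → Mt ι)
  (T : ∀ n, Ω n → β n), Alg M Φ om pos B c → (∀ᶠ n in UF, ∀ ω ∈ (P n).S, IsUnit (j n ω)) →
  Pm (Gd om (Ng M c)) (HH M P B j T) ∧
  ∀ (d0 d d' : κ → ℝ) (r0 r r' : ℕ → κ → ℝ), Gd om (Ng M c) d0 → Gd om (Ng M c) d →
    Gd om (Ng M c) d' → Ap M r0 d0 → Ap M r d → Ap M r' d' → d0 ≤ d →
    Eqv M (fun n => ch (P n) (fun ω => cell (B n) (r' n) (j n ω))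
        fun ω => (cell (B n) (r n) (j n ω), cell (B n) (r0 n) (j n ω), T n ω))
      fun n => (HH M P B j T (d' ⊔ d) - HH M P B j T d) * M n

def OfHC2 : Prop := SCntW → HC1 → HC2

end Pool.Agent.MP_5168f5_an.AN.GO
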