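import Pool.Agent.MP_5168f5_an.AN.TGDefs

/-! Kakeya sets in all dimensions: random elements of a bigraded nilpotent group, statements. -/

namespace Pool.Agent.MP_5168f5_an.AN.TG

open H19 H17S H17F G39 GA Filter H61Z

/-! ### Finite statements -/

/-- Side data can be coupled through a variable `Y`. -/
def SRec : Prop := ∀ (Ω W β γ δ : Type) (P : FP Ω) (Q : FP W) (π : W → Ω) (b : W → β) (Y : Ω → γ)
  (Z : Ω → δ), Law Q π P id →
  Law (glue Q P (fun v => (Y (π v), Z (π v))) fun ω => (Y ω, Z ω)) Prod.snd P id ∧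
  Law (glue Q P (fun v => (Y (π v), Z (π v))) fun ω => (Y ω, Z ω)) Prod.fst Q id ∧
  (∀ u ∈ (glue Q P (fun v => (Y (π v), Z (π v))) fun ω => (Y ω, Z ω)).S,
    u.1 ∈ Q.S ∧ u.2 ∈ P.S ∧ Y u.2 = Y (π u.1) ∧ Z u.2 = Z (π u.1)) ∧
  mi (glue Q P (fun v => (Y (π v), Z (π v))) fun ω => (Y ω, Z ω)) (fun u => b u.1) Prod.snd
    (fun u => Z u.2) ≤ mi Q b (fun v => Y (π v)) fun v => Z (π v)

/-- Side data on an event extend to the whole space. -/
def SMix : Prop := ∀ (Ω W β γ δ : Type) (P : FP Ω) (E : Ω → Prop) (Q : FP W) (π : W → Ω)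
  (b : W → β) (Y : Ω → γ) (Z : Ω → δ), 0 < pb P E → Law Q π (cE P E) id →
  ∃ (W' : Type) (Q' : FP W') (π' : W' → Ω) (b' : W' → β), Law Q' π' P id ∧
    (∀ v' ∈ Q'.S, ∃ v ∈ Q.S, b' v' = b v) ∧
    mi Q' b' (fun v => Y (π' v)) (fun v => Z (π' v)) ≤
      pb P E * mi Q b (fun v => Y (π v)) (fun v => Z (π v)) + 2 * lg ∧
    ∀ A : β → Ω → Prop, pb P E * pb Q (fun v => A (b v) (π v)) ≤ pb Q' fun v => A (b' v) (π' v)

/-- Diagonal choice for countably many conditions. -/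
def SDg : Prop := ∀ (J : Type) [Countable J] (p : J → ℕ → ℕ → Prop),
  (∀ i, ∀ᶠ k in atTop, ∀ᶠ n in UF, p i k n) → ∃ k : ℕ → ℕ, Big k ∧ ∀ i, ∀ᶠ n in UF, p i (k n) n

/-- The largest value of `r` on words of length less than `N` applied to `v`. -/
noncomputable def wn {κ υ : Type} [Fintype κ] [Fintype υ] [DecidableEq υ] (R : κ → Matrix υ υ ℝ)
    (N : ℕ) (r v : υ → ℝ) : ℝ :=
  ⨆ w : {w : List κ // w.length < N}, |r ⬝ᵥ ((w.1.map R).prod.mulVec v)|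

section Seq

variable {ι κ : Type} [Fintype ι] [DecidableEq ι] [Fintype κ]

/-- A sequence of absolute levels of bounded size. -/
def Lv (x : ℕ → Sy ι κ) (t : ℕ → ℝ × ℝ) : Prop := ∃ K : ℝ, ∀ᶠ n in UF,
  0 ≤ (t n).1 ∧ (t n).1 ≤ K * (x n).M ∧ 0 ≤ (t n).2 ∧ (t n).2 ≤ K * (x n).M

/-- A sequence of absolute lengths of bounded size. -/
def Ln (x : ℕ → Sy ι κ) (r : ℕ → ℝ) : Prop := ∃ K : ℝ, ∀ᶠ n in UF, 0 ≤ r n ∧ r n ≤ K * (x n).M

/-- A good sequence of absolute depths. -/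
def Gd (x : ℕ → Sy ι κ) (D : ℕ → κ → ℝ) : Prop :=
  IdR (un x) (fun n => (x n).c) (fun n => rA (D n)) fun n => rA (D n)

/-- Comparison of depths up to `o(M)`. -/
def LeD (x : ℕ → Sy ι κ) (D D' : ℕ → κ → ℝ) : Prop :=
  ∀ a, Le (un x) (fun n => D n a) fun n => D' n a

/-- The small ball bound with a base point; the information is measured against the cell of
depth `D'`. -/
def SBR (x : ℕ → Sy ι κ) (D D' : ℕ → κ → ℝ) (S : κ → Prop) (C s : ℝ) : Prop :=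
  ∀ (W β : ℕ → Type) (Q : ∀ n, FP (W n)) (π : ∀ n, W n → (x n).Ω) (b : ∀ n, W n → β n)
    (p : ∀ n, β n → Mt ι) (l : ∀ n, β n → κ → ℝ) (c0 : ∀ n, β n → ℝ) (η ρ : ℝ), 0 < η → η < s →
    0 ≤ ρ → Base x D Q π b p →
    (∀ᶠ n in UF, ∀ v ∈ (Q n).S,
      Tst (x n).c (rA (D n)) S (Real.exp (-(η * (x n).M))) (l n (b n v))) →
    Le (un x) (fun n => mi (Q n) (b n) (fun v => (x n).C (D' n) (π n v))
      fun v => (x n).Z (D n) (π n v)) (fun n => ρ * (x n).M) →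
    ∀ ε : ℝ, 0 < ε → ∀ᶠ n in UF, pb (Q n) (fun v =>
      |∑ a, l n (b n v) a * (x n).co (D n) (p n (b n v)) (π n v) a - c0 n (b n v)| ≤
        Real.exp (-(η * (x n).M))) ≤ C * ρ / η + ε

open Classical in
/-- The small ball bound for matrix coefficients on vectors killed by words of length `k`. -/
def SBM (x : ℕ → Sy ι κ) (om : κ → ℝ × ℝ) (t : ℝ × ℝ) (N k : ℕ) (C : ℝ) : Prop :=
  ∀ (W β : ℕ → Type) (Q : ∀ n, FP (W n)) (π : ∀ n, W n → (x n).Ω) (b : ∀ n, W n → β n)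
    (p : ∀ n, β n → Mt ι) (r u : ∀ n, β n → Option κ → ℝ) (L : ℕ → ℝ) (η ρ A : ℝ), 0 < η → 0 ≤ ρ →
    Base x (fun n => sc (x n).M (dep om t)) Q π b p → Sub (un x) L →
    (∀ᶠ n in UF, ∀ v ∈ (Q n).S, (∀ e, |r n (b n v) e| ≤ L n ∧ |u n (b n v) e| ≤ L n) ∧
      Real.exp (-(A * (x n).M)) ≤ wn (Rm om (x n).c) N (r n (b n v)) (u n (b n v)) ∧
      ∀ w : List κ, k ≤ w.length → (w.map (Rm om (x n).c)).prod.mulVec (u n (b n v)) = 0) →
    Le (un x) (fun n => mi (Q n) (b n) (fun v => (x n).j (π n v))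
      fun v => (x n).Z (sc (x n).M (dep om t)) (π n v)) (fun n => ρ * (x n).M) →
    ∀ ε : ℝ, 0 < ε → ∀ᶠ n in UF, pb (Q n) (fun v =>
      |r n (b n v) ⬝ᵥ (Em om (x n).c ((x n).co (sc (x n).M (dep om t)) (p n (b n v))
        (π n v))).mulVec (u n (b n v))| ≤ Real.exp (-(η * (x n).M)) *
          wn (Rm om (x n).c) N (r n (b n v)) (u n (b n v))) ≤ C * ρ / η + ε

end Seq

/-- A statement about all systems. -/
def All (p : ∀ (ι κ : Type) [Fintype ι] [DecidableEq ι] [Fintype κ], Filt (Mt ι) → (κ → ℝ × ℝ) →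
    (κ → Prop) → (ℕ → Sy ι κ) → Prop) : Prop :=
  ∀ (ι κ : Type) [Fintype ι] [DecidableEq ι] [Fintype κ] (Φ : Filt (Mt ι)) (om : κ → ℝ × ℝ)
    (pos : κ → Prop) (x : ℕ → Sy ι κ), p ι κ Φ om pos x

/-! ### Cells -/

/-- Good depths. -/
def SGd : Prop := All fun _ κ _ _ _ Φ om pos x => G0 Φ om pos x →
  (∀ d : κ → ℝ, Id (un x) (fun n => (x n).c) d d → Gd x fun n => sc (x n).M d) ∧
  ∀ (t : ℕ → ℝ × ℝ) (r : ℕ → ℝ), Lv x t → Ln x r → Gd x (fun n => dep om (t n)) ∧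
    Gd x (fun n => up (dep om (t n)) (r n) pos) ∧
    ∀ k, Gd x fun n => up (dep om (t n)) (r n) fun a => pos a ∧ Pu om k a

/-- A deeper cell determines the cell. -/
def SRef : Prop := All fun _ κ _ _ _ Φ om pos x => G0 Φ om pos x → ∀ D D' : ℕ → κ → ℝ, Gd x D →
  LeD x D D' → Sm (un x) fun n => ch (x n).P ((x n).C (D n)) ((x n).C (D' n))

/-- Two cells determine the cell of the larger depth. -/
def SJoin : Prop := All fun _ κ _ _ _ Φ om pos x => G0 Φ om pos x → ∀ D D₁ D₂ : ℕ → κ → ℝ,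
  Gd x D → Gd x D₁ → Gd x D₂ → LeD x D (fun n a => max (D₁ n a) (D₂ n a)) →
  Sm (un x) fun n => ch (x n).P ((x n).C (D n)) fun ω => ((x n).C (D₁ n) ω, (x n).C (D₂ n) ω)

/-- Finer conditions give less entropy; small changes of the depths. -/
def SMono : Prop := All fun _ κ _ _ _ Φ om pos x => G0 Φ om pos x →
  ∀ D₁ D₁' D₂ D₂' : ℕ → κ → ℝ, Gd x D₁ → Gd x D₁' → Gd x D₂ → Gd x D₂' → LeD x D₁ D₂ →
    LeD x D₂' (fun n a => max (D₂ n a) (D₁' n a)) →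
    Le (un x) (fun n => (x n).H (D₂ n) (D₂' n)) fun n => (x n).H (D₁ n) (D₁' n)

def OfMono : Prop := SRef → SJoin → SMono

/-- Points of one deep cell have close live coordinates; a form that kills brackets is additive. -/
def SLip : Prop := All fun ι κ _ _ _ Φ om pos x => G0 Φ om pos x → ∀ (D : ℕ → κ → ℝ) (L : ℕ → ℝ),
  Gd x D → (∃ K : ℝ, ∀ᶠ n in UF, ∀ a, |D n a| ≤ K * (x n).M) → Sub (un x) L →
  ∃ L', Sub (un x) L' ∧ ∀ K : ℝ, ∀ᶠ n in UF, ∀ p y z : Mt ι, IsUnit p →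
    Nr (x n).B (rA (D n)) (L n) p y → Nr (x n).B (rA (D n)) (L n) y z →
    (∀ s : ℝ, 0 ≤ s → s ≤ K * (x n).M →
      Nr (x n).B (rA (up (D n) s fun a => om a ≠ 0)) (L n) y z → ∀ a, om a ≠ 0 →
      |lg (x n).B p z a / rA (D n) a - lg (x n).B p y a / rA (D n) a| ≤ L' n * Real.exp (-s)) ∧
    ∀ (l : κ → ℝ) (τ : ℝ), 0 ≤ τ → (∀ a, |l a| ≤ 1) →
      (∀ a b, |∑ e, sC (rA (D n)) (x n).c a b e * l e| ≤ τ) →
      |∑ a, l a * (lg (x n).B p z a / rA (D n) a) - ∑ a, l a * (lg (x n).B p y a / rA (D n) a) -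
        ∑ a, l a * (lg (x n).B y z a / rA (D n) a)| ≤ L' n * τ

/-! ### The hypotheses along sequences of levels -/

def SSeqF : Prop := All fun _ _ _ _ _ Φ om pos x => ∀ C, GS Φ om pos C x →
  ∀ (k : Bool) (t : ℕ → ℝ × ℝ) (r : ℕ → ℝ), Lv x t → Ln x r →
  Le (un x) (fun n => cd (fun a => pos a ∧ Pu om k a) * r n) fun n =>
    (x n).H (dep om (t n)) (up (dep om (t n)) (r n) fun a => pos a ∧ Pu om k a)

def OfSeqF : Prop := SGd → SMono → SSeqF

/-- The bound with a base point follows from the hypothesis at deeper constant depths that almost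
agree with the depth on `S`. -/
def SFin : Prop := All fun _ κ _ _ _ Φ om pos x => G0 Φ om pos x →
  ∀ (D : ℕ → κ → ℝ) (S : κ → Prop) (C : ℝ), 0 ≤ C → Gd x D →
  (∃ K : ℝ, ∀ᶠ n in UF, ∀ a, |D n a| ≤ K * (x n).M) →
  (∀ σ : ℝ, 0 < σ → ∃ d : κ → ℝ, LeD x D (fun n => sc (x n).M d) ∧
    (∀ a, S a → Le (un x) (fun n => sc (x n).M d a) fun n => D n a + σ * (x n).M) ∧
    ∀ η ρ : ℚ, 0 < η → 0 ≤ ρ → ACAt x d S C η ρ) → SB x D S C

def OfFin : Prop := SRef → SLip → SFin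

def SSB : Prop := All fun _ _ _ _ _ Φ om pos x => ∀ C, GS Φ om pos C x →
  ∀ (k : Bool) (t : ℕ → ℝ × ℝ), Lv x t → SB x (fun n => dep om (t n)) (Pu om k) C

def OfSB : Prop := SGd → SFin → SSB

/-- The information may be measured against a deeper cell. -/
def SSBR : Prop := All fun _ κ _ _ _ Φ om pos x => G0 Φ om pos x →
  ∀ (D D' : ℕ → κ → ℝ) (S : κ → Prop) (C s : ℝ), 0 ≤ C → (∀ a, S a → om a ≠ 0) → Gd x D → Gd x D' →
  (∃ K : ℝ, ∀ᶠ n in UF, ∀ a, |D n a| ≤ K * (x n).M) →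
  (∀ᶠ n in UF, ∀ a, up (D n) (s * (x n).M) (fun a => om a ≠ 0) a ≤ D' n a) →
  SB x D S C → SBR x D D' S C s

def OfSBR : Prop := SRec → SLip → SSBR

/-- The bound with a base point contains the hypothesis. -/
def SToAC : Prop := All fun _ κ _ _ _ Φ om pos x => G0 Φ om pos x →
  ∀ (d : κ → ℝ) (S : κ → Prop) (C : ℝ), 0 ≤ C → SB x (fun n => sc (x n).M d) S C →
  ∀ η ρ : ℝ, 0 < η → 0 ≤ ρ → ACAt x d S C η ρ

/-! ### Closure properties -/

def SRat : Prop := All fun _ _ _ _ _ Φ om pos x => ∀ C, GSq Φ om pos C x → GS Φ om pos C x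

def OfRat : Prop := SGd → SMono → SFin → SToAC → SRat

def SCF0 : Prop := All fun ι κ _ _ _ Φ om pos _ => R4.CF fun x : ℕ → Sy ι κ => G0 Φ om pos x

def SCF : Prop := All fun ι κ _ _ _ Φ om pos _ => ∀ C,
  R4.CF fun x : ℕ → Sy ι κ => GS Φ om pos C x

def OfCF : Prop := SCF0 → SRat → SCF

/-- Shift of the level and change of the unit by a bounded factor. -/
def SZm : Prop := All fun _ _ _ _ _ Φ om pos x => ∀ C, GS Φ om pos C x →
  ∀ (t : ℕ → ℝ × ℝ) (m : ℕ → ℕ) (c K : ℝ), Lv x t → 0 < c →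
  (∀ᶠ n in UF, c * (x n).M ≤ m n ∧ (m n : ℝ) ≤ K * (x n).M) →
  GS Φ om pos C fun n => (x n).zm (dep om (t n)) (m n)

def OfZm : Prop := SSeqF → SSB → SToAC → SZm

def SPull : Prop := All fun _ _ _ _ _ Φ om pos x => ∀ C, GS Φ om pos C x →
  ∀ (W : ℕ → Type) (Q : ∀ n, FP (W n)) (π : ∀ n, W n → (x n).Ω),
  (∀ᶠ n in UF, Law (Q n) (π n) (x n).P id) → GS Φ om pos C fun n => (x n).pull (Q n) (π n)

def SCond : Prop := All fun _ _ _ _ _ Φ om pos x => ∀ C, GS Φ om pos C x →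
  ∀ E : ∀ n, (x n).Ω → Prop, Pos (pr x) E → GS Φ om pos C fun n => (x n).cond (E n)

def OfCond : Prop := SMix → SCond

def SSide : Prop := All fun _ _ _ _ _ Φ om pos x => ∀ C, GS Φ om pos C x →
  ∀ (K : ℕ → Type) (b : ∀ n, (x n).Ω → K n),
  (∀ s : ℝ, 0 ≤ s → Sm (un x) fun n => mi (x n).P (b n) ((x n).C (sc (x n).M (dep om (s, s))))
    ((x n).Z (sc (x n).M 0))) → GS Φ om pos C fun n => (x n).side (b n)

def OfSide : Prop := SGd → SRef → SSB → SSBR → SToAC → SSide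

/-- The context can be frozen at a value in any set of positive probability. -/
def SFrz : Prop := All fun _ _ _ _ _ Φ om pos x => ∀ C, GS Φ om pos C x →
  ∀ G : ∀ n, (x n).T → Prop, Pos (pr x) (fun n ω => G n ((x n).Θ ω)) →
  ∃ θ : ∀ n, (x n).T, (∀ᶠ n in UF, G n (θ n) ∧ ∃ ω ∈ (x n).P.S, (x n).Θ ω = θ n) ∧
    GS Φ om pos C fun n => (x n).cond fun ω => (x n).Θ ω = θ n

def OfFrz : Prop := SCond → SRat → SFrz

/-- A change of basis inside the weight spaces that keeps the stabiliser. -/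
def SBas : Prop := All fun _ κ _ _ _ Φ om pos x => ∀ [DecidableEq κ] (C : ℝ)
  (A A' : ℕ → Matrix κ κ ℝ), GS Φ om pos C x → (∀ᶠ n in UF, A n * A' n = 1) →
  (∀ a e, OB (un x) (fun n => A n a e) ∧ OB (un x) fun n => A' n a e) →
  (∀ a e, om a ≠ om e ∨ (¬pos a ∧ pos e) →
    Neg (un x) (fun n => A n a e) ∧ Neg (un x) fun n => A' n a e) →
  GS Φ om pos C (fun n => (x n).bas (A n) (A' n)) ∧
    (Full pos (fun n => (x n).bas (A n) (A' n)) → Full pos x)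

def OfBas : Prop := SGd → SSB → SToAC → SBas

/-- Exchange of the two families; fewer positions. -/
def SSwap : Prop := All fun _ κ _ _ _ Φ om pos x => ∀ C, GS Φ om pos C x →
  GS Φ (fun a => (om a).swap) pos C x ∧ ∀ pos' : κ → Prop, (∀ a, pos' a → pos a) →
    G0 Φ om pos' x → GS Φ om pos' C x

/-! ### The small ball bound in cells -/

/-- Linear forms in cells. -/
def SB0 : Prop := All fun _ _ _ _ _ Φ om pos x => ∀ C, GS Φ om pos C x →
  ∀ t : ℕ → ℝ × ℝ, Lv x t → SB x (fun n => dep om (t n)) (fun a => om a ≠ 0) (2 * C)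

def OfB0 : Prop := SGd → SRef → SLip → SSB → SB0

open Classical in
/-- The extended adjoint action is a nilpotent representation up to negligible errors. -/
def SRep : Prop := All fun _ κ _ _ _ Φ om pos x => G0 Φ om pos x → ∃ N : ℕ, 1 ≤ N ∧
  (∀ (c : κ → κ → κ → ℝ) (w : List κ), N ≤ w.length → (w.map (Rm om c)).prod = 0) ∧
  ∀ (t : ℝ × ℝ) (L : ℕ → ℝ) (K : ℝ), 0 ≤ t.1 → 0 ≤ t.2 → Sub (un x) L → ∀ᶠ n in UF,
    (∀ a b p q, |(Rm om (x n).c a * Rm om (x n).c b - Rm om (x n).c b * Rm om (x n).c a -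
      ∑ e, sC (rA (sc (x n).M (dep om t))) (x n).c a b e • Rm om (x n).c e) p q| ≤
        dl (un x) K n) ∧
    ∀ s u : κ → ℝ, (∀ a, |s a| ≤ L n ∧ |u a| ≤ L n) → ∀ p q,
      |(Em om (x n).c (bch Φ.N (sC (rA (sc (x n).M (dep om t))) (x n).c) s u) -
        Em om (x n).c s * Em om (x n).c u) p q| ≤ dl (un x) K n

open Classical in
/-- One step of the induction on the length of words. -/
def SN4 : Prop := All fun _ κ _ _ _ Φ om pos x => ∀ C, GS Φ om pos C x → ∀ N : ℕ,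
  (∀ (c : κ → κ → κ → ℝ) (w : List κ), N ≤ w.length → (w.map (Rm om c)).prod = 0) →
  (∀ t : ℝ × ℝ, SBM x om t N 1 0) ∧ ∀ (k : ℕ) (C' : ℝ), 0 ≤ C' → ∃ C'' : ℝ, 0 ≤ C'' ∧
    ∀ t : ℝ × ℝ, 0 ≤ t.1 → 0 ≤ t.2 → SBM x om t N k C' → SBM x om t N (k + 1) C''

def OfN4 : Prop := SGd → SRef → SB0 → SRep → SN4

/-- The cocycle in cells. -/
def SU : Prop := All fun _ _ _ _ _ Φ om pos x => ∀ C, GS Φ om pos C x → ∃ C' : ℝ, 1 ≤ C' ∧
  ∀ t : ℝ × ℝ, 0 ≤ t.1 → 0 ≤ t.2 → SBU x om t C'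

def OfU : Prop := SRec → SGd → SRep → SN4 → SU

/-! ### The induction -/

/-- The step that lowers the number of mixed indices. -/
def SOver : Prop := All fun _ κ _ _ _ Φ om pos x => ∀ (C : ℝ) (f a : κ), GS Φ om pos C x → pos f →
  G0 Φ om (fun e => pos e ∧ e ≠ f) x → Mx om a → (om f).1 * (om a).2 < (om a).1 * (om f).2 →
  IH1 Φ pos → IH2 Φ om pos → Full pos x

/-- The case of parallel mixed weights. -/
def STerm : Prop := All fun _ _ _ _ _ Φ om pos x => ∀ C : ℝ, GS Φ om pos C x →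
  (∀ a b, Mx om a → Mx om b → (om a).1 * (om b).2 = (om b).1 * (om a).2) → IH1 Φ pos → Full pos x

def OfThmG : Prop := SSwap → SOver → STerm → ThmG

end Pool.Agent.MP_5168f5_an.AN.TG
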