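import Pool.Agent.MP_5168f5_an.AN.GOFull
import Pool.Agent.MP_5168f5_an.AN.TGSpec
import Pool.Agent.MP_5168f5_an.AN.GAAll

/-! Kakeya sets in all dimensions: the small ball bound for the overfed tangent, statements. -/

namespace Pool.Agent.MP_5168f5_an.AN.GO

open H19 H17S H17F G39 GA Filter H61Z TG

section Seq

variable {ι κ : Type} [Fintype ι] [DecidableEq ι] [Fintype κ]

/-- The negligible triples of a system. -/
abbrev Nx (x : ℕ → Sy ι κ) : κ → κ → κ → Prop := Ng (un x) fun n => (x n).c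

/-- The bound `SB` for forms with a unit coefficient in `S0`. -/
def SBc (x : ℕ → Sy ι κ) (D : ℕ → κ → ℝ) (S S0 : κ → Prop) (C : ℝ) : Prop :=
  ∀ (W β : ℕ → Type) (Q : ∀ n, FP (W n)) (π : ∀ n, W n → (x n).Ω) (b : ∀ n, W n → β n)
    (p : ∀ n, β n → Mt ι) (l : ∀ n, β n → κ → ℝ) (c0 : ∀ n, β n → ℝ) (η ρ : ℝ), 0 < η → 0 ≤ ρ →
    Base x D Q π b p →
    (∀ᶠ n in UF, ∀ v ∈ (Q n).S,
      Tst (x n).c (rA (D n)) S (Real.exp (-(η * (x n).M))) (l n (b n v)) ∧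
        ∃ a, S0 a ∧ |l n (b n v) a| = 1) →
    Le (un x) (fun n => mi (Q n) (b n) (fun v => (x n).j (π n v)) fun v => (x n).Z (D n) (π n v))
      (fun n => ρ * (x n).M) →
    ∀ ε : ℝ, 0 < ε → ∀ᶠ n in UF, pb (Q n) (fun v =>
      |∑ a, l n (b n v) a * (x n).co (D n) (p n (b n v)) (π n v) a - c0 n (b n v)| ≤
        Real.exp (-(η * (x n).M))) ≤ C * ρ / η + ε

end Seq

/-- Two cases for the place of the unit coefficient. -/
def OSplit : Prop := All fun _ κ _ _ _ _ _ _ x => ∀ (D : ℕ → κ → ℝ) (S S1 S2 : κ → Prop)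
  (C1 C2 : ℝ), (∀ a, S a → S1 a ∨ S2 a) → 0 ≤ C1 → 0 ≤ C2 → SBc x D S S1 C1 → SBc x D S S2 C2 →
  SB x D S (C1 + C2)

/-- The form seen from the centre of a deeper cell. -/
def OCut : Prop := All fun ι κ _ _ _ Φ om pos x => G0 Φ om pos x →
  ∀ (d d' : κ → ℝ) (S S' : κ → Prop) (s : ℝ) (L : ℕ → ℝ), Gd om (Nx x) d → Gd om (Nx x) d' →
  d ≤ d' → (∀ a, S a → d' a = d a) → (∀ a, S' a → S a ∨ d a + s ≤ d' a) → Sub (un x) L →
  ∃ L', Sub (un x) L' ∧ ∀ᶠ n in UF, ∀ (p z : Mt ι) (l : κ → ℝ) (τ : ℝ), IsUnit z → 0 ≤ τ →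
    Nr (x n).B (rA (sc (x n).M d)) (L n) p z → (∀ a, ¬S' a → l a = 0) → (∀ a, |l a| ≤ 1) →
    (∀ a b, |∑ e, sC (rA (sc (x n).M d)) (x n).c a b e * l e| ≤ τ) →
    Nr (x n).B (rA (sc (x n).M d')) 1 (cell (x n).B (rA (sc (x n).M d')) z) z ∧
    (∀ a, |lg (x n).B (cell (x n).B (rA (sc (x n).M d')) z) z a| ≤ rA (sc (x n).M d') a) ∧
    |∑ a, l a * (lg (x n).B p z a / rA (sc (x n).M d) a) -
      ∑ a, l a * (lg (x n).B p (cell (x n).B (rA (sc (x n).M d')) z) a / rA (sc (x n).M d) a) -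
      ∑ a, ind S 1 a * l a *
        (lg (x n).B (cell (x n).B (rA (sc (x n).M d')) z) z a / rA (sc (x n).M d') a)| ≤
      L' n * (τ + Real.exp (-(s * (x n).M)))

def OfCut : Prop := SGd → TG.SLip → OCut

open Classical in
/-- The cocycle against a form on the extreme class. -/
def OUx : Prop := ∀ (κ : Type) [Fintype κ] (om : κ → ℝ × ℝ) (μ : ℝ) (t : κ → ℝ) (N : ℕ),
  (∀ a, 0 ≤ (om a).1 ∧ 0 ≤ (om a).2) → Tw om μ t →
  (∀ (c : κ → κ → κ → ℝ) (w : List κ), N ≤ w.length → (w.map (Rm om c)).prod = 0) →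
  ∃ K : ℕ, 1 ≤ K ∧ ∀ (c : κ → κ → κ → ℝ) (z l : κ → ℝ) (L τ : ℝ), 1 ≤ L → 0 ≤ τ →
    (∀ a b e, |c a b e| ≤ L) → (∀ a, |z a| ≤ 1) → (∀ a, P1 om a → |z a| ≤ τ) →
    (∀ a, |l a| ≤ 1) → (∀ a, ¬Ex om μ a → l a = 0) →
    (∀ a b, Ex om μ a → Ex om μ b → |∑ e, cH om c a b e * l e| ≤ τ) →
    |∑ a, l a / (om a).2 * Uv om c z a - ∑ a, l a * z a| ≤ (K * L) ^ K * τ

/-- The unit coefficient is pure. -/
def OCA : Prop := All fun _ κ _ _ _ Φ om pos x => ∀ (C : ℝ) (d : κ → ℝ) (S : κ → Prop) (y : ℝ × ℝ),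
  GS Φ om pos C x → (∀ a, S a → om a ≠ 0) → 0 ≤ y.1 → 0 ≤ y.2 → Gd om (Nx x) d → d ≤ dep om y →
  (∀ a, P1 om a → d a = dep om y a) → SBc x (fun n => sc (x n).M d) S (P1 om) C

def OfCA : Prop := SGd → SRef → SSB → OCut → OCA

/-- The unit coefficient is extreme. -/
def OCB : Prop := All fun _ κ _ _ _ Φ om pos x => ∀ (C μ X y : ℝ) (t d : κ → ℝ),
  G0 Φ om pos x → Tw om μ t → SBU x om (0, X) C → 0 ≤ C → 0 ≤ X → 0 ≤ y → Gd om (Nx x) d →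
  d ≤ dep om (0, X) + th om y → (∀ a, Ex om μ a → d a = (om a).2 * X) →
  (∀ L R : ℝ, 0 ≤ L → 0 ≤ R → Sm (un x) fun n =>
    mi (x n).P ((x n).C (sc (x n).M (dep om (0, X) + th om L)))
      ((x n).C (sc (x n).M (dep om (0, X + R)))) ((x n).Z (sc (x n).M (dep om (0, X))))) →
  SBc x (fun n => sc (x n).M d) (fun a => P1 om a ∨ Ex om μ a) (Ex om μ) C

def OfCB : Prop := SGd → SRef → SRep → OCut → OUx → OCB

end Pool.Agent.MP_5168f5_an.AN.GO
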