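import Pool.Agent.MP_5168f5_an.AN.GOPath

/-! The choice of the two tangents and the fullness of the overfed positions. -/

namespace Pool.Agent.MP_5168f5_an.AN.GO

open GA Finset

variable {κ : Type} [Fintype κ]

open Classical in
/-- The depth `y` on the indices without second weight. -/
noncomputable def th (om : κ → ℝ × ℝ) (y : ℝ) (a : κ) : ℝ := if (om a).2 = 0 then (om a).1 * y else 0

/-- The mutual information of the cells `d`, `d'` given the cell `d0`. -/
noncomputable def mI (H : (κ → ℝ) → ℝ) (d0 d d' : κ → ℝ) : ℝ := H d + H d' - H (d ⊔ d') - H d0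

/-- The overfed depths. -/
def DD (om : κ → ℝ × ℝ) (t : κ → ℝ) (x : ℝ × ℝ) (σ : ℝ) (a : κ) : ℝ := dep om x a - t a * σ

variable {pos pos' : κ → Prop} {r R μ ν : ℝ} {H : (κ → ℝ) → ℝ} {om : κ → ℝ × ℝ}
  {N : κ → κ → κ → Prop} {t : κ → ℝ}

section NoFin

omit [Fintype κ]

theorem th_z {a : κ} (h : (om a).2 = 0) (y : ℝ) : th om y a = (om a).1 * y := if_pos h

theorem th_n {a : κ} (h : (om a).2 ≠ 0) (y : ℝ) : th om y a = 0 := if_neg h

theorem Ab.th_nn (hA : Ab om pos N) {y : ℝ} (h : 0 ≤ y) (a : κ) : 0 ≤ th om y a := by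
  unfold th; split_ifs
  exacts [mul_nonneg (hA.wt a).1 h, le_rfl]

theorem Ab.hm_z (hA : Ab om pos N) {a b e : κ} (h : Hm om a b e) (z : (om e).2 = 0) :
    (om a).2 = 0 ∧ (om b).2 = 0 := by
  have := congrArg Prod.snd h.2.2
  rw [Prod.snd_add] at this
  constructor <;> linarith [(hA.wt a).2, (hA.wt b).2]

theorem Ab.gd_th (hA : Ab om pos N) {x : ℝ × ℝ} {y : ℝ} (h1 : 0 ≤ x.1) (h2 : 0 ≤ x.2)
    (h : 0 ≤ y) : Gd om N (dep om x + th om y) := by
  refine hA.gd (fun a => add_nonneg ((hA.gd_dep h1 h2).nn a) (hA.th_nn h a))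
    (fun a z => by simp [dep, th, z]) fun a b e u _ => ?_
  simp only [Pi.add_apply, dep_hm u x]
  by_cases z : (om e).2 = 0
  · rw [th_z z, th_z (hA.hm_z u z).1, th_z (hA.hm_z u z).2, u.2.2, Prod.fst_add]; linarith
  · rw [th_n z]; linarith [hA.th_nn h a, hA.th_nn h b]

theorem Ab.dep_le (hA : Ab om pos N) {x x' : ℝ × ℝ} (h1 : x.1 ≤ x'.1) (h2 : x.2 ≤ x'.2) :
    dep om x ≤ dep om x' := fun a =>
  add_le_add (mul_le_mul_of_nonneg_left h1 (hA.wt a).1) (mul_le_mul_of_nonneg_left h2 (hA.wt a).2)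

theorem Ab.th_sup (hA : Ab om pos N) {x1 X X' y : ℝ} (h : X ≤ X') (hy : 0 ≤ y) :
    (dep om (x1, X) + th om y) ⊔ dep om (x1, X') = dep om (x1, X') + th om y := by
  funext a
  simp only [Pi.sup_apply, Pi.add_apply]
  by_cases z : (om a).2 = 0
  · have : dep om (x1, X') a = dep om (x1, X) a := by simp [dep, z]
    rw [this, sup_eq_left.2 (le_add_of_nonneg_right (hA.th_nn hy a))]
  · rw [th_n z, add_zero, add_zero]
    exact sup_eq_right.2 (hA.dep_le (x := (x1, X)) (x' := (x1, X')) le_rfl h a)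

theorem Ab.abs_pos (hA : Ab om pos N) {a : κ} (h : om a ≠ 0) : 0 < (om a).1 + (om a).2 := by
  by_contra x
  exact h (Prod.ext (by simp only [Prod.fst_zero]; linarith [(hA.wt a).1, (hA.wt a).2])
    (by simp only [Prod.snd_zero]; linarith [(hA.wt a).1, (hA.wt a).2]))

theorem Tw.p1 (hT : Tw om μ t) (hA : Ab om pos N) (a : κ) :
    P1 (omN om μ t) a ↔ P1 om a ∨ Ex om μ a := by
  have h1 := hT.le1 a
  have h2 := hT.le2 a
  have h3 := hT.nn a
  have h4 := hT.pos
  simp only [P1, omN]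
  refine ⟨fun ⟨x, y⟩ => ?_, ?_⟩
  · rcases (hA.wt a).2.eq_or_lt with z | z
    · have : t a = 0 := by linarith
      exact Or.inl ⟨by simpa [this] using x, z.symm⟩
    · have e : t a = (om a).2 := by linarith
      have m : Mx om a := ⟨by nlinarith, z⟩
      exact Or.inr ⟨m, le_antisymm (hT.top a m) (e ▸ h1)⟩
  · rintro (⟨x, y⟩ | x)
    · have : t a = 0 := by linarith
      simp [this, x, y]
    · have := hT.ex a x
      exact ⟨by nlinarith [x.1.2, x.2], by linarith⟩

theorem Tw.p2 (hT : Tw om μ t) (a : κ) : P2 (omN om μ t) a ↔ P2 om a := by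
  have h1 := hT.le1 a
  have h3 := hT.nn a
  have h4 := hT.pos
  simp only [P2, omN]
  refine ⟨fun ⟨x, y⟩ => ?_, fun ⟨x, y⟩ => ?_⟩
  · have : t a = 0 := by nlinarith
    simpa [this] using And.intro x y
  · have : t a = 0 := by nlinarith
    simp [this, x, y]

theorem Tw.mx (hT : Tw om μ t) (a : κ) : Mx (omN om μ t) a ↔ Mx om a ∧ ¬Ex om μ a := by
  have h1 := hT.le1 a
  have h2 := hT.le2 a
  have h3 := hT.nn a
  have h4 := hT.pos
  simp only [Mx, omN]
  refine ⟨fun ⟨x, y⟩ => ⟨⟨?_, by linarith⟩, fun z => by linarith [hT.ex a z]⟩,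
    fun ⟨x, y⟩ => ⟨?_, ?_⟩⟩
  · rcases h3.eq_or_lt with z | z
    · simpa [← z] using x
    · nlinarith
  · rcases h3.eq_or_lt with z | z
    · simpa [← z] using x.1
    · nlinarith
  · rcases h2.eq_or_lt with z | z
    · exact absurd ⟨x, le_antisymm (hT.top a x) (z ▸ h1)⟩ y
    · linarith

theorem Tw.dead (hT : Tw om μ t) {a : κ} (h : om a = 0) : t a = 0 :=
  le_antisymm (by simpa [h] using hT.le2 a) (hT.nn a)

theorem DD_hm {a b e : κ} (h : Hm om a b e) (x : ℝ × ℝ) (σ : ℝ) :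
    DD om t x σ e + (t e - t a - t b) * σ = DD om t x σ a + DD om t x σ b := by
  simp only [DD, dep_hm h x]; ring

theorem DD_shift (s σ w : ℝ) (y : ℝ × ℝ) (a : κ) :
    DD om t (s + w * y.1, s + w * y.2) (σ + w * ((μ - 1) * y.1 + y.2)) a =
      DD om t (s, s) σ a + w * dep (omN om μ t) y a := by
  simp only [DD, dep, omN]; ring

theorem Ab.gd_DD (hA : Ab om pos N) (hT : Tw om μ t)
    (hf : ∀ a b e, Hm om a b e → t e < t a + t b → N a b e) {x : ℝ × ℝ} {σ : ℝ} (h1 : 0 ≤ x.1)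
    (h2 : 0 ≤ x.2) (h3 : 0 ≤ σ) (h4 : σ ≤ μ * x.1) : Gd om N (DD om t x σ) := by
  refine hA.gd (fun a => ?_) (fun a z => by simp [DD, dep, z, hT.dead z]) fun a b e u v => ?_
  · have e1 := mul_le_mul_of_nonneg_left h4 (hT.nn a)
    have e2 := mul_le_mul_of_nonneg_right (hT.le1 a) h1
    have e3 := mul_nonneg (hA.wt a).2 h2
    simp only [DD, dep]; nlinarith
  · have e1 : t a + t b ≤ t e := not_lt.1 fun z => v (hf a b e u z)
    nlinarith [DD_hm (t := t) u x σ, mul_nonneg (show 0 ≤ t e - t a - t b by linarith) h3]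

end NoFin

theorem mI_nn {G : (κ → ℝ) → Prop} (hP : Pm G H) {d0 d d' : κ → ℝ} (g0 : G d0) (g : G d)
    (g' : G d') (h : d0 ≤ d) (h' : d0 ≤ d') : 0 ≤ mI H d0 d d' := by
  unfold mI; linarith [hP.sub _ _ _ g0 g g' h h']

/-- A natural level with a deficiency and almost no information between the two directions. -/
theorem stepA (hA : Ab om pos N) (hP : Pm (Gd om N) H) {e : ℝ} (hR : 0 ≤ R) (he : 0 < e)
    (hdef : e ≤ df H pos R 0) : ∃ (r0 : ℕ) (e' C : ℝ), 0 < e' ∧ ∀ (L : ℕ) (η : ℝ), 0 < η →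
    ∃ w0 : ℝ, 0 < w0 ∧ ∀ w : ℝ, 0 < w → w ≤ w0 → ∃ i k : ℕ, i * w ≤ C ∧ k * w ≤ C ∧
      e' * w ≤ df H pos (r0 * w) (dep om (i * w, k * w)) ∧
      mI H (dep om (i * w, k * w)) (dep om (i * w, k * w) + th om (L * w))
        (dep om (i * w, k * w + L * w)) ≤ η * w := by
  obtain ⟨m, hm, m1⟩ := exists_lb pos (fun a => (om a).1 + (om a).2)
    fun a h => hA.abs_pos (hA.live a h)
  obtain ⟨r0, r1, r2⟩ := exists_ub fun a => (om a).1 + (om a).2
  have r3 : (1 : ℝ) ≤ r0 := by exact_mod_cast r1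
  refine ⟨r0, e / (4 * (R / m + 2)), R / m + 2, by positivity, fun L η hη => ?_⟩
  have c0 := cd_nn (S := pos)
  set D := cd pos * r0 + 1 with hD
  have D0 : 0 < D := by positivity
  set C1 := ∑ a, th om 1 a with hC1
  have C0 : 0 ≤ C1 := sum_nonneg fun a _ => hA.th_nn zero_le_one a
  obtain ⟨N', hN⟩ := exists_nat_gt (4 * (D / η * (R / m + 2) * C1 * L) / e)
  have N0 : (0 : ℝ) < N' := lt_of_le_of_lt (by positivity) hN
  have L0 : (0 : ℝ) ≤ L := Nat.cast_nonneg _
  refine ⟨min (1 / (1 + N' * L)) (e / (2 * D * (1 + N' * L))), by positivity, fun w hw hw0 => ?_⟩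
  have w1 : w * (1 + N' * L) ≤ 1 := (le_div_iff₀ (by positivity)).1 (hw0.trans (min_le_left _ _))
  have w2 : w * (2 * D * (1 + N' * L)) ≤ e :=
    (le_div_iff₀ (by positivity)).1 (hw0.trans (min_le_right _ _))
  have w3 : 0 ≤ w * (N' * L) := by positivity
  have w4 : w ≤ 1 := by linarith
  let g : ℕ → ℕ → ℝ := fun i l => H (dep om (i * w, (l * L + i : ℕ) * w) + th om (L * w)) -
    H (dep om (i * w, (l * L + i : ℕ) * w))
  have gd : ∀ i k : ℕ, Gd om N (dep om (i * w, k * w)) := fun i k =>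
    hA.gd_dep (by positivity) (by positivity)
  have gt : ∀ i k : ℕ, Gd om N (dep om (i * w, k * w) + th om (L * w)) := fun i k =>
    hA.gd_th (by positivity) (by positivity) (by positivity)
  have lt : ∀ d : κ → ℝ, d ≤ d + th om (L * w) := fun d a =>
    le_add_of_nonneg_right (hA.th_nn (by positivity) a)
  have g0 : ∀ i l, 0 ≤ g i l := fun i l => sub_nonneg.2 (hP.mono _ _ (gd _ _) (gt _ _) (lt _))
  have g1 : ∀ i l, g i l ≤ C1 * (L * w) := fun i l => by
    have := hP.lip _ _ (gd i (l * L + i)) (gt _ _) (lt _)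
    simp only [Pi.add_apply, add_sub_cancel_left] at this
    rw [hC1, sum_mul, ← sum_congr rfl (f := th om (L * w)) fun a _ => by
      unfold th; split_ifs <;> ring]
    simp only [g]; linarith
  have gI : ∀ i l : ℕ, mI H (dep om (i * w, (l * L + i : ℕ) * w))
      (dep om (i * w, (l * L + i : ℕ) * w) + th om (L * w))
      (dep om (i * w, (l * L + i : ℕ) * w + L * w)) = g i l - g i (l + 1) := fun i l => by
    have e1 : (((l + 1) * L + i : ℕ) : ℝ) * w = (l * L + i : ℕ) * w + L * w := by push_cast; ring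
    simp only [mI, g, e1]
    rw [hA.th_sup (le_add_of_nonneg_right (by positivity)) (by positivity)]
    ring
  set n := ⌈R / (m * w)⌉₊ + 1 with hn
  have n4 : (n : ℝ) * w ≤ R / m + 2 := by
    have n2 : (n : ℝ) ≤ R / (m * w) + 2 := by
      rw [hn]; push_cast; linarith [Nat.ceil_lt_add_one (show 0 ≤ R / (m * w) by positivity)]
    have n3 : R / (m * w) * w = R / m := by field_simp
    nlinarith
  obtain ⟨l, hl, hq⟩ := exists_le_of_sum_le (s := range N')
    (f := fun l => ∑ i ∈ range n, D / η * (g i l - g i (l + 1))) (g := fun _ => e / 4)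
    ⟨0, mem_range.2 (by exact_mod_cast N0)⟩ (by
      rw [sum_comm, sum_const, card_range, nsmul_eq_mul]
      have : ∀ i ∈ range n, ∑ l ∈ range N', D / η * (g i l - g i (l + 1)) ≤
          D / η * (C1 * (L * w)) := fun i _ => by
        rw [← mul_sum, sum_range_sub']
        exact mul_le_mul_of_nonneg_left (by linarith [g0 i N', g1 i 0]) (by positivity)
      refine (sum_le_sum this).trans ?_
      rw [sum_const, card_range, nsmul_eq_mul]
      rw [div_lt_iff₀ he] at hN
      have := mul_le_mul_of_nonneg_left n4 (show 0 ≤ D / η * C1 * L by positivity)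
      linarith)
  have l1 : (l : ℝ) ≤ N' := by exact_mod_cast (mem_range.1 hl).le
  have l2 : (l : ℝ) * L * w ≤ w * (N' * L) := by nlinarith [mul_nonneg L0 hw.le]
  have ed : ∀ i : ℕ, (fun a => dep om (0, l * L * w) a + i * w * ((om a).1 + (om a).2)) =
      dep om (i * w, (l * L + i : ℕ) * w) := fun i => by
    funext a; simp only [dep]; push_cast; ring
  obtain ⟨i, i1, i2⟩ := ray hA hP (s := r0 * (w * (N' * L))) (dep om (0, l * L * w))
    (fun a => (om a).1 + (om a).2) (fun i => D / η * (g i l - g i (l + 1))) hm hw w4 hR he hdef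
    (fun a => ⟨add_nonneg (hA.wt a).1 (hA.wt a).2, r2 a, m1 a⟩) (by linarith)
    (fun i => by rw [ed]; exact gd _ _) (fun a => by
      simp only [dep, mul_zero, zero_add]
      exact mul_le_mul (by linarith [r2 a, (hA.wt a).1]) l2 (by positivity) (by linarith))
    (fun i a b e u _ => Or.inl (by simp only [dep, u.2.2, Prod.fst_add, Prod.snd_add]; ring))
    (by nlinarith) hq
  rw [ed] at i2
  have k1 := df_le hP (S := pos) (r := r0 * w) (by positivity) (gd i (l * L + i))
    (hA.gd_pos (gd _ _) (by positivity))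
  have k2 : 0 ≤ g i l - g i (l + 1) := by
    rw [← gI]
    exact mI_nn hP (gd _ _) (gt _ _) (hA.gd_dep (by positivity) (by positivity)) (lt _)
      (hA.dep_le le_rfl (le_add_of_nonneg_right (by positivity)))
  have k3 : 0 ≤ e / (4 * (R / m + 2)) * w := by positivity
  refine ⟨i, l * L + i, by linarith, by push_cast; linarith,
    by nlinarith [mul_nonneg (show 0 ≤ D / η by positivity) k2], ?_⟩
  rw [gI]
  have : D / η * (g i l - g i (l + 1)) ≤ D / η * (η * w) := by
    rw [show D / η * (η * w) = D * w by field_simp]; nlinarith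
  exact le_of_mul_le_mul_left this (by positivity)

/-- The gap between the savings. -/
theorem exists_gap (t : κ → ℝ) : ∃ τ : ℝ, 0 < τ ∧ ∀ a b e, t a + t b < t e → τ ≤ t e - t a - t b := by
  obtain ⟨τ, h, k⟩ := exists_lb (fun p : κ × κ × κ => t p.1 + t p.2.1 < t p.2.2)
    (fun p => t p.2.2 - t p.1 - t p.2.1) fun p h => by linarith
  exact ⟨τ, h, fun a b e x => k (a, b, e) x⟩

/-- A point of the ray with a deficiency. -/
theorem stepB (hA : Ab om pos N) (hT : Tw om μ t)
    (hf : ∀ a b e, Hm om a b e → t e < t a + t b → N a b e) (hP : Pm (Gd om N) H) {e : ℝ}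
    (h0 : 0 < ν) (h1 : ν < μ) (hR : 0 ≤ R) (he : 0 < e) (hdef : e ≤ df H pos R 0) :
    ∃ (r0 m0 : ℕ) (e' C w0 : ℝ), 0 < e' ∧ 0 < w0 ∧ ∀ w : ℝ, 0 < w → w ≤ w0 → ∃ i : ℕ,
      i * w ≤ C ∧ e' * w ≤ df H pos (r0 * w)
        (DD om t (1 / (m0 + 1) + i * w, 1 / (m0 + 1) + i * w) ((μ - ν) * (1 / (m0 + 1) + i * w))) := by
  have μ0 := hT.pos
  let v : κ → ℝ := fun a => (om a).1 + (om a).2 - t a * (μ - ν)
  have v1 : ∀ a, (om a).2 + t a * ν ≤ v a := fun a => by simp only [v]; linarith [hT.le1 a]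
  obtain ⟨m, hm, m1⟩ := exists_lb pos v fun a h => by
    rcases (hT.nn a).eq_or_lt with z | z
    · simpa [v, ← z] using hA.abs_pos (hA.live a h)
    · nlinarith [v1 a, (hA.wt a).2]
  obtain ⟨r0, r1, r2⟩ := exists_ub v
  have r3 : (1 : ℝ) ≤ r0 := by exact_mod_cast r1
  obtain ⟨τ, τ0, hτ⟩ := exists_gap t
  have c0 := cd_nn (S := pos)
  set D := cd pos * r0 + 1 with hD
  have D0 : 0 < D := by positivity
  obtain ⟨m0, hm0⟩ := exists_nat_one_div_lt (show 0 < e / (4 * D) by positivity)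
  set s0 : ℝ := 1 / (m0 + 1) with hs0
  have s1 : 0 < s0 := by positivity
  have sg : 0 < μ - ν := by linarith
  refine ⟨r0, m0, e / (4 * (R / m + 2)), R / m + 1, min (min 1 s0) (τ * ((μ - ν) * s0) / r0),
    by positivity, by positivity, fun w hw hw0 => ?_⟩
  have w1 : w ≤ 1 := hw0.trans ((min_le_left _ _).trans (min_le_left _ _))
  have w2 : w ≤ s0 := hw0.trans ((min_le_left _ _).trans (min_le_right _ _))
  have w3 : w * r0 ≤ τ * ((μ - ν) * s0) :=
    (le_div_iff₀ (by positivity)).1 (hw0.trans (min_le_right _ _))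
  have ed : ∀ (i : ℕ) a, s0 * v a + i * w * v a =
      DD om t (s0 + i * w, s0 + i * w) ((μ - ν) * (s0 + i * w)) a := fun i a => by
    simp only [DD, dep, v]; ring
  have v0 : ∀ a, 0 ≤ v a := fun a => by
    linarith [v1 a, (hA.wt a).2, mul_nonneg (hT.nn a) h0.le]
  obtain ⟨i, i1, i2⟩ := ray hA hP (s := s0 * r0) (fun a => s0 * v a) v (fun _ => 0) hm hw w1 hR he
    hdef (fun a => ⟨v0 a, r2 a, m1 a⟩) (by linarith)
    (fun i => by
      simp only [ed]
      have : 0 ≤ s0 + i * w := by positivity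
      exact hA.gd_DD hT hf this this (by positivity) (by nlinarith))
    (fun a => mul_le_mul_of_nonneg_left (r2 a) s1.le)
    (fun i a b e u x => by
      simp only [ed]
      have e1 := DD_hm (t := t) u (s0 + i * w, s0 + i * w) ((μ - ν) * (s0 + i * w))
      rcases (not_lt.1 fun z => x (hf a b e u z)).eq_or_lt with z | z
      · left; rw [← e1, ← z]; ring
      · right
        have e2 : (μ - ν) * s0 ≤ (μ - ν) * (s0 + i * w) := by
          nlinarith [mul_nonneg (Nat.cast_nonneg (α := ℝ) i) hw.le]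
        have := mul_le_mul (hτ a b e z) e2 (by positivity) (by linarith)
        linarith)
    (by
      rw [lt_div_iff₀ (by positivity)] at hm0
      nlinarith [mul_nonneg c0 (show (0 : ℝ) ≤ r0 by linarith)]) (by simp; positivity)
  simp only [ed, add_zero] at i2
  exact ⟨i, i1, i2⟩

end Pool.Agent.MP_5168f5_an.AN.GO
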