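import Pool.Agent.MP_5168f5_an.AN.GOvA

/-! Kakeya sets in all dimensions: the overfed tangent along the ray. -/

namespace Pool.Agent.MP_5168f5_an.AN.GO

open H19 H17S H17F G39 GA Filter H61Z TG R4

section Pure

variable {κ : Type} {om : κ → ℝ × ℝ} {pos : κ → Prop} {N : κ → κ → κ → Prop} {μ : ℝ}
  {t : κ → ℝ}

theorem small (A : ℝ) {B : ℝ} (h : 0 < B) : ∀ᶠ K : ℕ in atTop, 1 / (K + 1 : ℝ) * A ≤ B := by
  obtain ⟨q, hq⟩ := exists_nat_gt (A / B)
  filter_upwards [eventually_ge_atTop q] with K a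
  have : (q : ℝ) ≤ K := by exact_mod_cast a
  rw [div_lt_iff₀ h] at hq
  rw [one_div, inv_mul_le_iff₀ (by positivity)]
  nlinarith

theorem exists_nu [Fintype κ] (hA : Ab om pos N) (hT : Tw om μ t) : ∃ ν γ : ℝ, 0 < ν ∧ ν < μ ∧
    0 < γ ∧ ∀ a, om a ≠ 0 → ¬P1 om a → ¬Ex om μ a → (om a).1 + γ ≤ ν * (om a).2 := by
  obtain ⟨γ, h0, h1⟩ := exists_lb (fun a => om a ≠ 0 ∧ ¬P1 om a ∧ ¬Ex om μ a)
    (fun a => μ * (om a).2 - (om a).1) fun a ⟨u, v, w⟩ => by
      have p : 0 < (om a).2 := (hA.wt a).2.lt_of_ne fun z =>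
        v ⟨by linarith [hA.abs_pos u], z.symm⟩
      rcases (hA.wt a).1.eq_or_lt with z | z
      · rw [← z, sub_zero]; exact mul_pos hT.pos p
      · exact sub_pos.2 ((hT.top a ⟨z, p⟩).lt_of_ne fun y => w ⟨⟨z, p⟩, y⟩)
  obtain ⟨r, r1, r2⟩ := exists_ub fun a => (om a).2
  have r3 : (1 : ℝ) ≤ r := by exact_mod_cast r1
  have μ0 := hT.pos
  have d0 : 0 < min (μ / 2) (γ / (2 * r)) := by positivity
  refine ⟨μ - min (μ / 2) (γ / (2 * r)), γ / 2, by linarith [min_le_left (μ / 2) (γ / (2 * r))],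
    by linarith, by positivity, fun a u v w => ?_⟩
  have e1 := mul_le_mul (min_le_right (μ / 2) (γ / (2 * r))) (r2 a) (hA.wt a).2 (by positivity)
  rw [show γ / (2 * r) * r = γ / 2 by field_simp] at e1
  linarith [h1 a ⟨u, v, w⟩]

theorem Ab.gd_DD1 (hA : Ab om pos N) (hT : Tw om μ t)
    (hf : ∀ a b e, Hm om a b e → t e < t a + t b → N a b e) {x : ℝ × ℝ} {σ τ r : ℝ}
    (g : Gd om N (DD om t x σ)) (hr : 0 ≤ r) (h3 : 0 ≤ σ)
    (hτ : ∀ a b e, t a + t b < t e → τ ≤ t e - t a - t b) (hτ' : r ≤ τ * σ) :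
    Gd om N (DD om t x σ + ind (fun a => pos a ∧ P1 (omN om μ t) a) r) := by
  refine hA.gd_ind g hr (fun _ y => y.1) fun a b e u v z => ?_
  rcases (not_lt.1 fun z => v (hf a b e u z)).eq_or_lt with y | y
  · right
    have e1 := z.2.2
    have e2 := congrArg Prod.snd u.2.2
    have k : ∀ a, om a ≠ 0 → t a = (om a).2 → P1 (omN om μ t) a := fun a p q => by
      refine ⟨?_, by simp [omN, q]⟩
      have := hA.abs_pos p
      simp only [omN]
      rcases (hT.nn a).eq_or_lt with z | z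
      · rw [← z] at q ⊢; linarith
      · linarith [hT.le1 a]
    simp only [omN, Prod.snd_add] at e1 e2
    exact ⟨fun p => ⟨p, k a u.1 (by linarith [hT.le2 a, hT.le2 b])⟩,
      fun p => ⟨p, k b u.2.1 (by linarith [hT.le2 a, hT.le2 b])⟩⟩
  · left
    linarith [DD_hm (t := t) u x σ, mul_le_mul_of_nonneg_right (hτ a b e y) h3]

theorem DD_Q (hA : Ab om pos N) (hT : Tw om μ t) {x : ℝ × ℝ} {X σ : ℝ}
    (hσ : σ = μ * x.1 - X + x.2) (h1 : 0 ≤ x.1) (h3 : 0 ≤ σ)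
    (h6 : ∀ a, ¬P1 om a → ¬Ex om μ a → dep om x a ≤ (om a).2 * X) :
    DD om t x σ ≤ dep om (0, X) + th om x.1 ∧ (∀ a, Ex om μ a → DD om t x σ a = (om a).2 * X) ∧
      DD om t x σ ≤ dep om x ∧ ∀ a, P1 om a → DD om t x σ a = dep om x a := by
  have e1 : ∀ a, Ex om μ a → DD om t x σ a = (om a).2 * X := fun a h => by
    simp only [DD, dep, hT.ex a h, h.2, hσ]; ring
  have e2 : DD om t x σ ≤ dep om x := fun a => sub_le_self _ (mul_nonneg (hT.nn a) h3)
  refine ⟨fun a => ?_, e1, e2, fun a h => ?_⟩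
  · have q := hA.th_nn h1 a
    by_cases u : P1 om a
    · refine (e2 a).trans ?_
      simp [dep, th_z u.2, u.2]
    · have : (dep om (0, X) + th om x.1) a = (om a).2 * X + th om x.1 a := by simp [dep]
      rw [this]
      by_cases v : Ex om μ a
      · linarith [e1 a v]
      · linarith [e2 a, h6 a u v]
  · have : t a = 0 := by linarith [hT.le2 a, hT.nn a, h.2]
    simp [DD, this]

theorem ind_at [Fintype κ] {H : (κ → ℝ) → ℝ} (hA : Ab om pos N) (hP : Pm (Gd om N) H)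
    (hI : ∀ L : ℕ, mI H 0 (th om L) (dep om (0, L)) ≤ 0) {X L R : ℝ} (hX : 0 ≤ X) (hL : 0 ≤ L)
    (hR : 0 ≤ R) : mI H (dep om (0, X)) (dep om (0, X) + th om L) (dep om (0, X + R)) ≤ 0 := by
  have z : ∀ L, dep om (0, 0) + th om L = th om L := fun L => funext fun a => by simp [dep]
  have gT : ∀ L, 0 ≤ L → Gd om N (th om L) := fun L h => z L ▸ hA.gd_th (x := (0, 0)) le_rfl le_rfl h
  obtain ⟨q, hq⟩ := exists_nat_ge (L + (X + R))
  have gC := hA.gd_dep (x := (0, X)) le_rfl hX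
  have h1 := (mI_mono (d0 := 0) hP (gT L hL) (hA.gd_dep (x := (0, X + R)) le_rfl (by linarith))
    (gT q (Nat.cast_nonneg _)) (hA.gd_dep (x := (0, q)) le_rfl (Nat.cast_nonneg _)) (fun a => by
      unfold th; split_ifs
      exacts [mul_le_mul_of_nonneg_left (by linarith) (hA.wt a).1, le_rfl])
    (hA.dep_le le_rfl (by simp only; linarith))).trans (hI q)
  have h2 := hP.sub _ _ _ gd_zero (gT L hL) gC (gT L hL).nn gC.nn
  have e1 := hA.th_sup (x1 := 0) hX hL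
  have e2 := hA.th_sup (x1 := 0) (show 0 ≤ X + R by linarith) hL
  rw [z] at e1 e2
  rw [mI, e2] at h1
  rw [e1] at h2
  rw [mI, hA.th_sup (by linarith) hL]
  linarith

end Pure

variable {ι κ : Type} [Fintype ι] [DecidableEq ι] [Fintype κ] {Φ : Filt (Mt ι)}
  {om : κ → ℝ × ℝ} {pos pos' S : κ → Prop} {x : ℕ → Sy ι κ} {d d0 t : κ → ℝ} {D : ℕ → κ → ℝ}
  {C μ r e : ℝ}

theorem full_zm (h : G0 Φ om pos x) {m : ℕ → ℕ} {w : ℝ} (hw : 0 < w) (hr : 0 ≤ r)
    (a : Aq (un x) D d0) (u : Eqv (un x) (fun n => m n) fun n => w * (x n).M)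
    (g : Gd om (Nx x) (d0 + w • d)) (g' : Gd om (Nx x) (d0 + w • d + ind S (r * w))) :
    FullAt (fun n => (x n).zm (D n) (m n)) d S r ↔ df (Hx x) S (r * w) (d0 + w • d) ≤ 0 := by
  have e1 : d0 + w • (d + ind S r) = d0 + w • d + ind S (r * w) := by
    rw [smul_add, smul_ind, add_assoc]
  have h1 := zm_H h hw a u g (e1 ▸ g') (le_add_ind hr d)
  rw [FullAt, up_eq, cd_eq, df, sub_nonpos, ← mul_assoc, ← le_div_iff₀ hw, ← e1]
  exact ⟨fun k => Le.num (TGZmA.big_unit (unit_le' u hw) h.alg.big) (k.trans h1.1), fun k =>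
    (Le.of_le fun n => mul_le_mul_of_nonneg_right k (Nat.cast_nonneg _)).trans h1.2⟩

theorem acAt_zm (h : G0 Φ om pos x) {m : ℕ → ℕ} {w η ρ : ℝ} (hw : 0 < w)
    (u : ∀ᶠ n in UF, (m n : ℝ) = w * (x n).M) (H : ACAt x (d0 + w • d) S C (η * w) (ρ * w)) :
    ACAt (fun n => (x n).zm (TG.sc (x n).M d0) (m n)) d S C η ρ := fun ε hε => by
  filter_upwards [H ε hε, u, h.alg.fr, h.unit] with n a b c e
  refine ac_zm c e _ _ _ ?_
  rw [show TG.sc (x n).M d0 + TG.sc (m n) d = TG.sc (x n).M (d0 + w • d) from funext fun i => by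
    simp only [TG.sc, Pi.add_apply, Pi.smul_apply, smul_eq_mul, b]; ring, b, ← mul_assoc,
    ← mul_assoc]
  rwa [← mul_assoc, mul_div_mul_right _ _ hw.ne'] at a

theorem acAt_mono {C' η ρ : ℝ} (H : ACAt x d S C η ρ) (h : C ≤ C') (hη : 0 < η) (hρ : 0 ≤ ρ) :
    ACAt x d S C' η ρ := fun ε hε => (H ε hε).mono fun _ a W β Q π b l c0 h1 h2 h3 =>
  (a W β Q π b l c0 h1 h2 h3).trans (by gcongr)

theorem nat_full (hZ : SZm) (h : GS Φ om pos C x) (IH : ThmAt Φ om pos) {X : ℝ} (hX : 0 ≤ X)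
    (hr : 0 ≤ r) : df (Hx x) pos r (dep om (0, X)) ≤ 0 := by
  have g := (g_ab h.toG0).gd_dep (x := (0, X)) le_rfl hX
  have e1 : dep om (0, X) + (1 : ℝ) • (0 : κ → ℝ) = dep om (0, X) := by simp
  have := (full_zm (S := pos) (d := 0) (d0 := dep om (0, X)) (m := un x)
    (D := fun n => dep om (0, X * (x n).M)) h.toG0 one_pos hr (fun a => by
      simp only [dep, mul_zero, zero_add, mul_assoc]; exact Eqv.rfl)
    (by simp only [one_mul]; exact Eqv.rfl) (e1.symm ▸ g)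
    (e1.symm ▸ (g_ab h.toG0).gd_pos g (by positivity))).1 (IH C _ (hZ ι κ Φ om pos x C h
      (fun n => (0, X * (x n).M)) (un x) 1 1 ⟨X, Eventually.of_forall fun n =>
        ⟨le_rfl, by positivity, by positivity, le_rfl⟩⟩ one_pos
      (Eventually.of_forall fun n => ⟨(one_mul _).le, (one_mul _).ge⟩)) r hr)
  rwa [e1, mul_one] at this

end Pool.Agent.MP_5168f5_an.AN.GO
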