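import Pool.Agent.MP_5168f5_an.AN.GOvB
import Pool.Agent.MP_5168f5_an.AN.GOv1

/-! Kakeya sets in all dimensions: the step that lowers the number of mixed indices. -/

namespace Pool.Agent.MP_5168f5_an.AN.GO

open H19 H17S H17F G39 GA Filter H61Z TG R4

variable {ι κ : Type} [Fintype ι] [DecidableEq ι] [Fintype κ] {Φ : Filt (Mt ι)}
  {om : κ → ℝ × ℝ} {pos pos' S : κ → Prop} {x : ℕ → Sy ι κ} {d d0 t : κ → ℝ} {D : ℕ → κ → ℝ}
  {C μ r e : ℝ}

theorem sc_bd (x : ℕ → Sy ι κ) (d : κ → ℝ) :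
    ∃ K : ℝ, ∀ᶠ n in UF, ∀ a, |TG.sc (x n).M d a| ≤ K * (x n).M :=
  ⟨∑ a, |d a|, Eventually.of_forall fun n a => by
    rw [TG.sc, abs_mul, Nat.abs_cast]
    exact mul_le_mul_of_nonneg_right (Finset.single_le_sum (f := fun a => |d a|)
      (fun a _ => abs_nonneg _) (Finset.mem_univ a)) (Nat.cast_nonneg _)⟩

/-- The small ball bounds at an overfed depth. -/
theorem ac_DD (hG : SGd) (hF : SFin) (hTo : SToAC) (hS : OSplit) (hCA : OCA) (hCB : OCB)
    (hT : Tw om μ t) (h : SA Φ om pos pos' C t r e x) {CU : ℝ} (u1 : 1 ≤ CU)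
    (hU : ∀ t : ℝ × ℝ, 0 ≤ t.1 → 0 ≤ t.2 → SBU x om t CU) {y : ℝ × ℝ} {X σ η ρ : ℝ}
    (hσ : σ = μ * y.1 - X + y.2) (h1 : 0 ≤ y.1) (h2 : 0 ≤ y.2) (hX : 0 ≤ X) (h3 : 0 ≤ σ)
    (h4 : y.2 ≤ X) (h6 : ∀ a, ¬P1 om a → ¬Ex om μ a → dep om y a ≤ (om a).2 * X) (k : Bool)
    (hη : 0 < η) (hρ : 0 ≤ ρ) : ACAt x (DD om t y σ) (Pu (omN om μ t) k) (C + CU) η ρ := by
  have g := h.gs.toG0
  have hA := g_ab g
  have c1 := h.gs.one
  have gD : Gd om (Nx x) (DD om t y σ) := hA.gd_DD hT h.ov.fil h1 h2 h3 (by linarith)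
  obtain ⟨q1, q2, q3, q4⟩ := DD_Q hA hT hσ h1 h3 h6
  refine hTo ι κ Φ om pos x g _ _ _ (by linarith) ?_ η ρ hη hρ
  cases k
  · rw [show Pu (omN om μ t) false = Pu om false from funext fun a => propext (hT.p2 a)]
    refine hF ι κ Φ om pos x g _ _ _ (by linarith) ((hG ι κ Φ om pos x g).1 _ gD.id) (sc_bd x _)
      fun s hs => ⟨dep om y, fun a => Le.of_le fun n =>
        mul_le_mul_of_nonneg_right (q3 a) (Nat.cast_nonneg _), fun a p => Le.of_le fun n => ?_,
        fun η ρ a b => acAt_mono (h.gs.ac false y η ρ h1 h2 (by exact_mod_cast a)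
          (by exact_mod_cast b)) (by linarith) (by exact_mod_cast a) (by exact_mod_cast b)⟩
    have : t a = 0 := by nlinarith [hT.le1 a, hT.nn a, hT.pos, (show P2 om a from p).1]
    simp only [TG.sc, DD, this, zero_mul, sub_zero]
    exact le_add_of_nonneg_right (by positivity)
  · rw [show Pu (omN om μ t) true = fun a => P1 om a ∨ Ex om μ a from
      funext fun a => propext (hT.p1 hA a)]
    exact hS ι κ Φ om pos x _ _ _ _ _ _ (fun _ => id) (by linarith) (by linarith)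
      (hCA ι κ Φ om pos x C _ _ y h.gs (fun a p z => p.elim (fun p => p.1.ne' (by rw [z]; rfl))
        fun p => p.1.1.ne' (by rw [z]; rfl)) h1 h2 gD q3 q4)
      (hCB ι κ Φ om pos x CU μ X y.1 t _ g hT (hU (0, X) le_rfl hX) (by linarith) hX h1 gD q1 q2
        fun L R a b => g_mi g (hA.gd_dep le_rfl hX) (hA.gd_th le_rfl hX a)
          (hA.gd_dep le_rfl (add_nonneg hX b)) (fun i => le_add_of_nonneg_right (hA.th_nn a i))
          (hA.dep_le le_rfl (le_add_of_nonneg_right b)) (ind_at hA (g_pm g) h.ind hX a b))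

theorem stB (hZ : SZm) (hU : SU) (hRat : SRat) (hG : SGd) (hF : SFin) (hTo : SToAC) (hS : OSplit)
    (hCA : OCA) (hCB : OCB) (hT : Tw om μ t) (h : SA Φ om pos pos' C t r e x) (hr : 0 ≤ r)
    (he : 0 < e) (hp : ∀ a, P1 om a ∨ Ex om μ a → (pos' a ↔ pos a)) (IH' : ThmAt Φ om pos')
    (IH : ThmAt Φ (omN om μ t) pos) : False := by
  have g := h.gs.toG0
  have hA := g_ab g
  have hA' : Ab om pos' (Nx x) := g_ab h.gs'.toG0
  have hP := g_pm g
  have hM := g.alg.big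
  obtain ⟨ν, γ, n0, n1, γ0, hν⟩ := exists_nu hA hT
  obtain ⟨r0, m0, e', C0, w0, he', hw0, H⟩ := stepB hA hT h.ov.fil hP n0 n1 hr he h.df
  obtain ⟨CU, u1, hU⟩ := hU ι κ Φ om pos x C h.gs
  obtain ⟨M0, sM, hO⟩ := goOV3 sFr ι κ _ Φ om pos _ _ μ t g.alg hT h.ov
  obtain ⟨τ, τ0, hτ⟩ := exists_gap t
  obtain ⟨m1, p1, q1⟩ := exists_lb (P1 om) (fun a => (om a).1) fun a u => u.1
  obtain ⟨r1, -, q2⟩ := exists_ub fun a => (om a).1 + (om a).2
  set s0 : ℝ := 1 / (m0 + 1) with hs0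
  have s1 : 0 < s0 := by positivity
  have sg : 0 < μ - ν := sub_pos.2 n1
  let w : ℕ → ℝ := fun K => 1 / (K + 1)
  have wp : ∀ K, 0 < w K := fun K => by positivity
  have ex : ∀ K, ∃ s : ℝ, s0 ≤ s ∧ s ≤ s0 + |C0| ∧ (w K ≤ w0 →
      e' * w K ≤ df (Hx x) pos (r0 * w K) (DD om t (s, s) ((μ - ν) * s))) := fun K => by
    by_cases c : w K ≤ w0
    · obtain ⟨i, a, b⟩ := H _ (wp K) c
      exact ⟨_, le_add_of_nonneg_right (mul_nonneg (Nat.cast_nonneg i) (wp K).le),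
        add_le_add le_rfl (a.trans (le_abs_self _)), fun _ => b⟩
    · exact ⟨s0, le_rfl, le_add_of_nonneg_right (abs_nonneg _), fun a => absurd a c⟩
  choose s a1 a2 a3 using ex
  let z : ℕ → ℕ → Sy ι κ := fun K n =>
    (x n).zm (TG.sc (x n).M (DD om t (s K, s K) ((μ - ν) * s K))) ((x n).M / (K + 1))
  have um : ∀ K, ∀ᶠ n in UF, (((x n).M / (K + 1) : ℕ) : ℝ) = w K * (x n).M := fun K =>
    (h.dvd K).mono fun n a => by
      rw [Nat.cast_div a (by positivity)]; simp only [w]; push_cast; ring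
  have ue : ∀ K, Eqv (un x) (fun n => (((x n).M / (K + 1) : ℕ) : ℝ)) fun n => w K * (x n).M :=
    fun K => ⟨Le.of_ev ((um K).mono fun _ a => a.le), Le.of_ev ((um K).mono fun _ a => a.ge)⟩
  obtain ⟨k, hk⟩ := dg (S := fun _ => Sy ι κ) (J := Bool × (ℚ × ℚ) × ℚ × ℚ × ℕ)
    (K := fun q y => (0 ≤ q.2.1.1 ∧ 0 ≤ q.2.1.2 ∧ 0 ≤ q.2.2.1 →
      FullAt y (dep (omN om μ t) (q.2.1.1, q.2.1.2)) (fun a => pos a ∧ Pu (omN om μ t) q.1 a)
        q.2.2.1) ∧ (0 ≤ q.2.1.1 ∧ 0 ≤ q.2.1.2 ∧ 0 < q.2.2.1 ∧ 0 ≤ q.2.2.2.1 →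
      ACAt y (dep (omN om μ t) (q.2.1.1, q.2.1.2)) (Pu (omN om μ t) q.1) (C + CU) q.2.2.1
        q.2.2.2.1) ∧ Df pos r0 e' y ∧ Sm (un y) M0 ∧ Big (un y) ∧
      ∀ᶠ n in UF, (q.2.2.2.2 : ℝ) * (y n).M ≤ (μ - ν) * s0 * (x n).M)
    (fun q => (TGCFA.imp _ (TGCFA.full _ _ _)).and ((TGCFA.imp _ (TGCFA.ac _ _ _ _ _)).and
      ((cf_Df _ _ _).and ((cf_sm (S := fun _ => Sy ι κ) (fun _ z => z.M) fun n _ => M0 n).and
        ((cf_big (S := fun _ => Sy ι κ) fun _ z => z.M).and (cf_ev (S := fun _ => Sy ι κ)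
          fun n y => (q.2.2.2.2 : ℝ) * y.M ≤ (μ - ν) * s0 * (x n).M)))))) z
    fun ⟨b, ⟨y1, y2⟩, η, ρ, L⟩ => by
      filter_upwards [small 1 hw0, small (y2 : ℝ) (mul_pos n0 s1),
        small (-((μ - 1) * y1 + y2)) (half_pos (mul_pos sg s1)),
        small (η : ℝ) (mul_pos τ0 (half_pos (mul_pos sg s1))), small (η : ℝ) (mul_pos p1 s1),
        small (r1 * (y1 + y2) : ℝ) (mul_pos γ0 s1), small (L : ℝ) (mul_pos sg s1)]
        with K k1 k2 k3 k4 k5 k6 k7
      change w K * _ ≤ _ at k1 k2 k3 k4 k5 k6 k7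
      have W := wp K
      have b1 := a1 K
      have b0 : 0 ≤ s K := by linarith
      have ed : DD om t (s K, s K) ((μ - ν) * s K) + w K • dep (omN om μ t) ((y1 : ℝ), (y2 : ℝ)) =
          DD om t (s K + w K * y1, s K + w K * y2)
            ((μ - ν) * s K + w K * ((μ - 1) * y1 + y2)) :=
        funext fun a => (DD_shift (s K) _ (w K) ((y1 : ℝ), (y2 : ℝ)) a).symm
      have b2 := mul_le_mul_of_nonneg_left b1 sg.le
      have b3 := mul_le_mul_of_nonneg_left b1 n0.le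
      have key : (0 : ℝ) ≤ y1 → (0 : ℝ) ≤ y2 → 0 ≤ s K + w K * y1 ∧ 0 ≤ s K + w K * y2 ∧
          0 ≤ (ν + 1) * s K + w K * y1 ∧
          (μ - ν) * s0 / 2 ≤ (μ - ν) * s K + w K * ((μ - 1) * y1 + y2) ∧
          s K + w K * y2 ≤ (ν + 1) * s K + w K * y1 ∧ ∀ a, ¬P1 om a → ¬Ex om μ a →
            dep om (s K + w K * y1, s K + w K * y2) a ≤ (om a).2 * ((ν + 1) * s K + w K * y1) :=
        fun z1 z2 => by
          have c1 := mul_nonneg W.le z1
          have c2 := mul_nonneg W.le z2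
          refine ⟨by linarith, by linarith, by positivity, by linarith, by linarith,
            fun a u v => ?_⟩
          by_cases c : om a = 0
          · simp [dep, c]
          have c3 := mul_le_mul_of_nonneg_right (hν a c u v) b0
          have c4 := mul_le_mul_of_nonneg_left b1 γ0.le
          have c5 := mul_le_mul_of_nonneg_right (q2 a) (add_nonneg c1 c2)
          simp only [dep]
          nlinarith [mul_nonneg (hA.wt a).1 c2, mul_nonneg (hA.wt a).2 c1]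
      have hσ : (μ - ν) * s K + w K * ((μ - 1) * y1 + y2) =
          μ * (s K + w K * y1) - ((ν + 1) * s K + w K * y1) + (s K + w K * y2) := by ring
      refine ⟨fun ⟨z1, z2, z3⟩ => ?_, fun ⟨z1, z2, z3, z4⟩ => ?_,
        df_zm g W (Nat.cast_nonneg _) (aq_sc _ _) (ue K)
          (hA.gd_DD hT h.ov.fil b0 b0 (by positivity) (by nlinarith)) (a3 K (by linarith)),
        TGZmA.le_unit (unit_le' (ue K) W) sM, TGZmA.big_unit (unit_le' (ue K) W) hM,
        (um K).mono fun n a => ?_⟩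
      · have z1 : (0 : ℝ) ≤ y1 := by exact_mod_cast z1
        have z2 : (0 : ℝ) ≤ y2 := by exact_mod_cast z2
        have z3 : (0 : ℝ) ≤ η := by exact_mod_cast z3
        obtain ⟨c1, c2, c3, c4, c5, c6⟩ := key z1 z2
        have c7 : 0 ≤ (μ - ν) * s K + w K * ((μ - 1) * y1 + y2) :=
          (half_pos (mul_pos sg s1)).le.trans c4
        have c8 : η * w K ≤ τ * ((μ - ν) * s K + w K * ((μ - 1) * y1 + y2)) := by
          linarith [mul_le_mul_of_nonneg_left c4 τ0.le]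
        have rw0 : 0 ≤ η * w K := by positivity
        have gD := hA.gd_DD (x := (s K + w K * y1, s K + w K * y2)) hT h.ov.fil c1 c2 c7
          (by rw [hσ]; linarith)
        have ff : ∀ (b : Bool) (v : ℝ × ℝ), 0 ≤ v.1 → 0 ≤ v.2 →
            Gd om (Nx x) (dep om v + ind (fun a => pos a ∧ Pu om b a) (η * w K)) →
            df (Hx x) (fun a => pos a ∧ Pu om b a) (η * w K) (dep om v) ≤ 0 :=
          fun b v u u' gg => (full_iff g rw0 (hA.gd_dep u u') gg).1 (h.gs.f b v _ u u' rw0)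
        cases b
        · refine (full_zm g W z3 (aq_sc _ _) (ue K) (ed ▸ gD) ?_).2 ?_
          · rw [ed, show (fun a => pos a ∧ Pu (omN om μ t) false a) = fun a => pos a ∧ P2 om a from
              funext fun a => propext (and_congr_right' (hT.p2 a))]
            exact hA.gd_p2 gD rw0
          · rw [ed]
            exact (full2 hA hT h.ov.fil hP rw0 c1 c2 c7 (by rw [hσ]; linarith)).trans
              (ff false _ c1 c2 (hA.gd_p2 (hA.gd_dep c1 c2) rw0))
        · refine (full_zm g W z3 (aq_sc _ _) (ue K) (ed ▸ gD) ?_).2 ?_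
          · rw [ed]; exact hA.gd_DD1 hT h.ov.fil gD rw0 c7 hτ c8
          · rw [ed]
            refine full1 hA hA' hT h.ov.fil hP hp rw0 c1 c2 c3 hσ c7 c5 hτ c8 (fun a u => ?_) c6
              h.ind (nat_full hZ h.gs' IH' c3 rw0)
              (ff true (_, _) c1 c3 (hA.gd_p1 (hA.gd_dep c1 c3) rw0))
            have := mul_le_mul (q1 a u) (show s0 ≤ s K + w K * y1 by
              linarith [mul_nonneg W.le z1]) s1.le u.1.le
            linarith
      · have z1 : (0 : ℝ) ≤ y1 := by exact_mod_cast z1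
        have z2 : (0 : ℝ) ≤ y2 := by exact_mod_cast z2
        have z3 : (0 : ℝ) < η := by exact_mod_cast z3
        have z4 : (0 : ℝ) ≤ ρ := by exact_mod_cast z4
        obtain ⟨c1, c2, c3, c4, c5, c6⟩ := key z1 z2
        refine acAt_zm g W (um K) ?_
        rw [ed]
        exact ac_DD hG hF hTo hS hCA hCB hT h u1 hU hσ c1 c2 c3
          ((half_pos (mul_pos sg s1)).le.trans c4) c5 c6 b (by positivity) (by positivity)
      · change (L : ℝ) * (((x n).M / (K + 1) : ℕ) : ℝ) ≤ _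
        rw [a, ← mul_assoc, mul_comm (L : ℝ)]
        exact mul_le_mul_of_nonneg_right k7 (Nat.cast_nonneg _)
  have k0 := hk (true, (0, 0), 0, 0, 0)
  have gy : G0 Φ (omN om μ t) pos fun n => z (k n) n := by
    refine ⟨?_, g.unit⟩
    have := hO (fun n => (x n).M / (k n + 1)) (fun n => (s (k n) * (x n).M, s (k n) * (x n).M))
      (fun n => (μ - ν) * s (k n) * (x n).M) (s0 + |C0| + 1) k0.2.2.2.2.1 k0.2.2.2.1
      (Eventually.of_forall fun n => ?_) fun K => ?_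
    · have e1 : ∀ n, (fun a => Real.exp (-(dep om (s (k n) * (x n).M, s (k n) * (x n).M) a -
          t a * ((μ - ν) * s (k n) * (x n).M)))) = rA (TG.sc (x n).M
            (DD om t (s (k n), s (k n)) ((μ - ν) * s (k n)))) := fun n => funext fun a => by
        simp only [rA, TG.sc, DD, dep]; congr 1; ring
      simpa only [e1] using this
    · have m0 : (0 : ℝ) ≤ (x n).M := Nat.cast_nonneg _
      have b0 : 0 ≤ s (k n) := s1.le.trans (a1 _)
      have b1 : (((x n).M / (k n + 1) : ℕ) : ℝ) ≤ (x n).M := by exact_mod_cast Nat.div_le_self _ _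
      have b2 := mul_le_mul_of_nonneg_right (a2 (k n)) m0
      have b3 := mul_nonneg (add_nonneg s1.le (abs_nonneg C0)) m0
      exact ⟨by linarith, by positivity, by linarith, by positivity, by linarith, by
        nlinarith [mul_nonneg n0.le (mul_nonneg b0 m0)]⟩
    · obtain ⟨L, hL⟩ := exists_nat_ge K
      exact (hk (true, (0, 0), 0, 0, L)).2.2.2.2.2.mono fun n a =>
        (mul_le_mul_of_nonneg_right hL (Nat.cast_nonneg _)).trans (a.trans
          (mul_le_mul_of_nonneg_right (mul_le_mul_of_nonneg_left (a1 _) sg.le) (Nat.cast_nonneg _)))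
  have gs := hRat ι κ Φ _ pos _ (C + CU) ⟨gy, by linarith [h.gs.one],
    fun b v r u1 u2 u3 => (hk (b, v, r, 0, 0)).1 ⟨u1, u2, u3⟩,
    fun b v η ρ u1 u2 u3 u4 => (hk (b, v, η, ρ, 0)).2.1 ⟨u1, u2, u3, u4⟩⟩
  have f1 := (full_iff gy (Nat.cast_nonneg r0) gd_zero
    ((g_ab gy).gd_pos gd_zero (Nat.cast_nonneg _))).1 (IH _ _ gs r0 (Nat.cast_nonneg _))
  linarith [k0.2.2.1.le gy (Nat.cast_nonneg _)]

end Pool.Agent.MP_5168f5_an.AN.GO
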