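import Pool.Agent.MP_5168f5_an.AN.SpecG

/-! The norm of a small polynomial is a small polynomial of the frame. -/

namespace Pool.Agent.MP_5168f5_an.AN.GP

open H19 H17S H17F R4 Filter MvPolynomial Finset
open Pk (cn)
open Nc (Pl ev)

namespace GPThdA

variable {s : ℕ} {a : Fin (s + 1) → ℝ} {p L B : ℝ} {k : Fin (s + 1)}

theorem sum_le (T : Finset (Fin (s + 1))) (hB : 0 ≤ B) (h : ∀ j ∈ T, |a j| ≤ B) :
    |∑ j ∈ T, a j| ≤ (s + 1) * B := by
  refine (abs_sum_le_sum_abs _ _).trans ((sum_le_card_nsmul _ _ B h).trans ?_)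
  rw [nsmul_eq_mul]
  refine mul_le_mul_of_nonneg_right ?_ hB
  exact_mod_cast (card_le_univ T).trans_eq (Fintype.card_fin _)

theorem low (h0 : ∑ j, a j * p ^ (j : ℕ) = 0) (hL : 1 ≤ L) (h1 : 1 ≤ L * |p|) (h2 : |p| ≤ L)
    (hB : 0 ≤ B) (ha : ∀ j < k, |a j| ≤ B) :
    |∑ j with k ≤ j, a j * p ^ ((j : ℕ) - k)| ≤ (s + 1) * (B * L ^ s) * L ^ s := by
  have e : p ^ (k : ℕ) * ∑ j with k ≤ j, a j * p ^ ((j : ℕ) - k) =
      -∑ j with ¬k ≤ j, a j * p ^ (j : ℕ) := by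
    rw [eq_neg_iff_add_eq_zero, ← h0, ← sum_filter_add_sum_filter_not univ fun j => k ≤ j, mul_sum]
    congr 1
    refine sum_congr rfl fun j hj => ?_
    rw [mul_left_comm, ← pow_add, Nat.add_sub_cancel' (mem_filter.1 hj).2]
  have hp : ∀ j : Fin (s + 1), L ^ (j : ℕ) ≤ L ^ s := fun j =>
    pow_le_pow_right₀ hL (Nat.lt_succ_iff.1 j.2)
  have h3 := sum_le (a := fun j => a j * p ^ (j : ℕ)) (B := B * L ^ s) {j | ¬k ≤ j}
    (by positivity) fun j hj => by
      rw [abs_mul, abs_pow]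
      exact mul_le_mul (ha j (not_le.1 (mem_filter.1 hj).2))
        ((pow_le_pow_left₀ (abs_nonneg _) h2 _).trans (hp j)) (by positivity) hB
  rw [← abs_neg, ← e, abs_mul, abs_pow] at h3
  have h4 : 1 ≤ L ^ s * |p| ^ (k : ℕ) := (one_le_pow₀ (n := k) h1).trans (by
    rw [mul_pow]; exact mul_le_mul_of_nonneg_right (hp k) (by positivity))
  have h5 := mul_le_mul_of_nonneg_right h3 (show 0 ≤ L ^ s by positivity)
  nlinarith [mul_le_mul_of_nonneg_right h4
    (abs_nonneg (∑ j with k ≤ j, a j * p ^ ((j : ℕ) - k)))]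

theorem high (hB : 0 ≤ B) (ha : ∀ j, k < j → |a j * p ^ ((j : ℕ) - k)| ≤ B) :
    |a k| ≤ |∑ j with k ≤ j, a j * p ^ ((j : ℕ) - k)| + (s + 1) * B := by
  have h1 := sum_le (a := fun j => a j * p ^ ((j : ℕ) - k)) (({j | k ≤ j} : Finset _).erase k) hB
    fun j hj => ha j (lt_of_le_of_ne (mem_filter.1 (mem_of_mem_erase hj)).2
      (ne_of_mem_erase hj).symm)
  rw [← add_sum_erase _ _ (mem_filter.2 ⟨mem_univ k, le_rfl⟩), Nat.sub_self, pow_zero, mul_one]
  have h2 := abs_sub (a k + ∑ j ∈ ({j | k ≤ j} : Finset _).erase k, a j * p ^ ((j : ℕ) - k))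
    (∑ j ∈ ({j | k ≤ j} : Finset _).erase k, a j * p ^ ((j : ℕ) - k))
  rw [add_sub_cancel_right] at h2
  linarith

theorem gain {μ x c : ℝ} {i : ℕ} (h0 : 0 < μ) (h1 : μ ≤ 1) (hc : 0 ≤ c) (hi : 0 < i)
    (h : x ≤ c * μ ^ i) : x ≤ μ * c :=
  h.trans ((mul_le_mul_of_nonneg_left (pow_le_of_le_one h0.le h1 hi.ne') hc).trans_eq
    (mul_comm _ _))

end GPThdA

open GPThdA in
theorem thd : THD := by
  intro N D E
  set s := Nc.ord N D with hs
  set E1 := N * (s * E) with hE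
  refine ⟨E1 + (E1 * D + s * E), E1 + 2 * s + 1, 2 * (s + 1), by linarith [Nat.cast_nonneg (α := ℝ) s],
    fun Θ φ μ hΘ hφ h0 h1 => ?_⟩
  obtain ⟨r, ⟨j₀, hj⟩, hd, hr⟩ := Nc.rel Θ φ hΘ hφ
  obtain ⟨k, -, hk⟩ := exists_max_image univ (fun j : Fin (s + 1) => cn (r j) * μ ^ (j : ℕ))
    univ_nonempty
  have c0 := fun j => Nc.kc.nonneg (r j)
  refine ⟨r k, ∑ j with k ≤ j, aeval Θ (r j) * φ ^ ((j : ℕ) - k), fun e => ?_,
    (hd k).trans (Nat.le_add_right _ _), totalDegree_finsetSum_le fun j _ => ?_,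
    fun L u y hL hu p1 p2 hR hy hp => ?_⟩
  · have h2 := hk j₀ (mem_univ _)
    rw [e, (Nc.kc.zero _).2 rfl, zero_mul] at h2
    exact absurd h2 (not_le.2 (mul_pos
      (lt_of_le_of_ne (c0 j₀) fun f => hj ((Nc.kc.zero _).1 f.symm)) (by positivity)))
  · refine (totalDegree_mul _ _).trans (le_add_left (add_le_add
      (Nc.kc.deg Θ _ _ _ (hd j) hΘ) ((totalDegree_pow _ _).trans ?_)))
    exact Nat.mul_le_mul ((Nat.sub_le _ _).trans (Nat.lt_succ_iff.1 j.2)) hφ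
  have val : ∀ v : V N, ‖v‖ ≤ L → ∀ j, |eval v (r j)| ≤ cn (r j) * L ^ E1 := fun v hv j =>
    Nc.kc.val _ _ _ _ (hd j) hL fun i => (norm_le_pi_norm v i).trans hv
  have hB : 0 ≤ μ * cn (r k) * L ^ E1 := by have := c0 k; positivity
  have l1 := low (a := fun j => eval (ev Θ u) (r j)) (k := k) (by
    simpa only [map_sum, map_mul, map_pow, Nc.eval_aeval, map_zero] using congrArg (eval u) hr)
    hL p1 p2 hB fun j hjk => (val _ hu j).trans (mul_le_mul_of_nonneg_right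
      (gain h0 h1 (c0 k) (Nat.sub_pos_of_lt hjk) (by
        have h2 := hk j (mem_univ _)
        rw [← Nat.sub_add_cancel (show (j : ℕ) ≤ k from hjk.le), pow_add, ← mul_assoc] at h2
        exact le_of_mul_le_mul_right h2 (by positivity))) (by positivity))
  have l2 := high (a := fun j => eval (ev Θ y) (r j)) (p := eval y φ) (k := k) hB fun j hjk => by
    have h2 := hk j (mem_univ _)
    rw [← Nat.sub_add_cancel (show (k : ℕ) ≤ j from hjk.le), pow_add, ← mul_assoc] at h2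
    have h3 := gain h0 h1 (c0 k) (Nat.sub_pos_of_lt hjk) (mul_le_mul_of_nonneg_right
      (le_of_mul_le_mul_right h2 (by positivity)) (by positivity))
    rw [abs_mul, abs_pow]
    refine (mul_le_mul (val _ hy j) (pow_le_pow_left₀ (abs_nonneg _) hp _) (by positivity)
      (by have := c0 j; positivity)).trans ?_
    rw [pow_two, mul_pow, mul_right_comm, ← mul_assoc]
    exact mul_le_mul_of_nonneg_right h3 (by positivity)
  simp only [map_sum, map_mul, map_pow, Nc.eval_aeval] at hR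
  have l3 := mul_le_mul_of_nonneg_left l1 (zero_le_one.trans hL)
  have l4 : μ * cn (r k) * L ^ E1 ≤ μ * cn (r k) * L ^ E1 * (L ^ s * L ^ s * L) :=
    le_mul_of_one_le_right hB (one_le_mul_of_one_le_of_one_le
      (one_le_mul_of_one_le_of_one_le (one_le_pow₀ hL) (one_le_pow₀ hL)) hL)
  have l5 := mul_le_mul_of_nonneg_left l4 (show (0 : ℝ) ≤ s + 1 by positivity)
  rw [pow_succ, pow_add, two_mul s, pow_add]
  linarith

end Pool.Agent.MP_5168f5_an.AN.GP
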