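import Mathlib

/-! Kakeya sets in all dimensions: close subspaces and comparable norms, no probability. -/

namespace Pool.Agent.MP_5168f5_an.AN.K3

open Module
open scoped InnerProductSpace

section Hil

variable {H : Type} [NormedAddCommGroup H] [InnerProductSpace ℝ H] [FiniteDimensional ℝ H]

theorem frame {D : ℕ} (U : Submodule ℝ H) (hD : finrank ℝ U ≤ D) :
    ∃ b : Fin D → H, (∀ j, b j ∈ U) ∧ (∀ j, ‖b j‖ ≤ 1) ∧ ∀ v ∈ U, ∑ j, ⟪b j, v⟫_ℝ • b j = v := by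
  let o := stdOrthonormalBasis ℝ U
  refine ⟨fun j => if h : (j : ℕ) < finrank ℝ U then (o ⟨j, h⟩ : H) else 0, fun j => ?_,
    fun j => ?_, fun v hv => ?_⟩
  · dsimp only
    split_ifs
    · exact Subtype.prop _
    · exact U.zero_mem
  · dsimp only
    split_ifs with h
    · exact (o.orthonormal.1 ⟨j, h⟩).le
    · simp
  · have e := congrArg (fun y : U => (y : H)) (o.sum_repr' ⟨v, hv⟩)
    simp only [AddSubmonoidClass.coe_finsetSum, SetLike.val_smul, Submodule.coe_inner] at e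
    refine (Fintype.sum_of_injective (Fin.castLE hD) (Fin.castLE_injective hD) _ _
      (fun i hi => ?_) fun i => ?_).symm.trans e
    · dsimp only
      rw [dif_neg fun h => hi ⟨⟨i, h⟩, rfl⟩, smul_zero]
    · dsimp only
      rw [dif_pos (show ((Fin.castLE hD i : Fin D) : ℕ) < _ from i.2)]
      rfl

theorem proj_min (K : Submodule ℝ H) (u : H) {w : H} (hw : w ∈ K) :
    ‖u - K.starProjection u‖ ≤ ‖u - w‖ := by
  rw [K.starProjection_minimal]
  exact ciInf_le ⟨0, by rintro _ ⟨y, rfl⟩; exact norm_nonneg _⟩ (⟨w, hw⟩ : K)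

theorem proj_close {K K' : Submodule ℝ H} {ε : ℝ} (hε : 0 ≤ ε)
    (h : ∀ v ∈ K, ∃ w ∈ K', ‖v - w‖ ≤ ε * ‖v‖) (h' : ∀ v ∈ K', ∃ w ∈ K, ‖v - w‖ ≤ ε * ‖v‖)
    (v : H) : ‖K.starProjection v - K'.starProjection v‖ ≤ 2 * ε * ‖v‖ := by
  have a : ‖K'.starProjection v - K.starProjection (K'.starProjection v)‖ ≤ ε * ‖v‖ := by
    obtain ⟨w, h1, h2⟩ := h' _ (K'.starProjection_apply_mem v)
    exact ((proj_min K _ h1).trans h2).trans
      (mul_le_mul_of_nonneg_left (K'.norm_starProjection_apply_le v) hε)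
  have b : ‖K.starProjection (v - K'.starProjection v)‖ ≤ ε * ‖v‖ := by
    set y := K.starProjection (v - K'.starProjection v) with hy
    have m : y ∈ K := K.starProjection_apply_mem _
    obtain ⟨w, h1, h2⟩ := h _ m
    have c : ‖y‖ ^ 2 = ⟪y - K'.starProjection y, v⟫_ℝ := by
      rw [inner_sub_left, K'.inner_starProjection_left_eq_right, ← inner_sub_right,
        ← real_inner_self_eq_norm_sq]
      nth_rewrite 2 [hy]
      rw [← K.inner_starProjection_left_eq_right, K.starProjection_eq_self_iff.2 m]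
    have d := (real_inner_le_norm (y - K'.starProjection y) v).trans
      (mul_le_mul_of_nonneg_right ((proj_min K' _ h1).trans h2) (norm_nonneg v))
    rcases (norm_nonneg y).eq_or_lt with z | z
    · rw [← z]; positivity
    · exact le_of_mul_le_mul_left (by nlinarith) z
  have e : K.starProjection v - K'.starProjection v = K.starProjection (v - K'.starProjection v) -
      (K'.starProjection v - K.starProjection (K'.starProjection v)) := by
    rw [map_sub]; abel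
  rw [e]
  linarith [norm_sub_le (K.starProjection (v - K'.starProjection v))
    (K'.starProjection v - K.starProjection (K'.starProjection v))]

end Hil

variable {X : Type} [AddCommGroup X] [Module ℝ X]

/-- A Euclidean seminorm. -/
def Eu (ν : X → ℝ) : Prop :=
  ∃ (ι : Type) (_ : Fintype ι) (Φ : X →ₗ[ℝ] EuclideanSpace ℝ ι), ∀ f, ν f = ‖Φ f‖

/-- A seminorm. -/
def Sn (N : X → ℝ) : Prop :=
  (∀ f g, N (f + g) ≤ N f + N g) ∧ ∀ (c : ℝ) f, N (c • f) ≤ |c| * N f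

/-- Every element of `W` is relatively `ε` close to `W'`. -/
def Cl (ν : X → ℝ) (ε : ℝ) (W W' : Submodule ℝ X) : Prop :=
  ∀ f ∈ W, ∃ g ∈ W', ν (f - g) ≤ ε * ν f

/-- `N ≤ t ν` on `W`. -/
def Lo (ν N : X → ℝ) (t : ℝ) (W : Submodule ℝ X) : Prop := ∀ f ∈ W, N f ≤ t * ν f

/-- A space of dimension at most `D` with a Euclidean reference seminorm. -/
structure Ref (D : ℕ) (ν : X → ℝ) (V : Submodule ℝ X) : Prop where
  eu : Eu ν
  fd : FiniteDimensional ℝ V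
  rk : finrank ℝ V ≤ D

variable {ν N N' : X → ℝ} {V W : Submodule ℝ X} {D : ℕ}

theorem Eu.sn (h : Eu ν) : Sn ν := by
  obtain ⟨ι, _, Φ, e⟩ := h
  refine ⟨fun f g => ?_, fun c f => ?_⟩
  · rw [e, e, e, map_add]; exact norm_add_le _ _
  · rw [e, e, map_smul, norm_smul, Real.norm_eq_abs]

theorem Eu.comp {Y : Type} [AddCommGroup Y] [Module ℝ Y] (h : Eu ν) (T : Y →ₗ[ℝ] X) :
    Eu fun f => ν (T f) := by
  obtain ⟨ι, i, Φ, e⟩ := h
  exact ⟨ι, i, Φ.comp T, fun f => e _⟩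

theorem Sn.zero (h : Sn N) : N 0 = 0 := by
  have a := h.1 0 0
  have b := h.2 0 0
  simp only [add_zero, zero_smul, abs_zero, zero_mul] at a b
  linarith

theorem Sn.neg (h : Sn N) (f : X) : N (-f) ≤ N f := by simpa using h.2 (-1) f

theorem Sn.nonneg (h : Sn N) (f : X) : 0 ≤ N f := by
  have a := h.1 f (-f)
  rw [add_neg_cancel, h.zero] at a
  linarith [h.neg f]

theorem Sn.sub (h : Sn N) (f g : X) : N (f - g) ≤ N f + N g := by
  rw [sub_eq_add_neg]; linarith [h.1 f (-g), h.neg g]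

theorem Sn.add (h : Sn N) (h' : Sn N') : Sn fun f => N f + N' f :=
  ⟨fun f g => by linarith [h.1 f g, h'.1 f g], fun c f => by linarith [h.2 c f, h'.2 c f]⟩

theorem Sn.mul (h : Sn N) {a : ℝ} (ha : 0 ≤ a) : Sn fun f => a * N f :=
  ⟨fun f g => by nlinarith [h.1 f g], fun c f => by nlinarith [h.2 c f]⟩

theorem Sn.comp {Y : Type} [AddCommGroup Y] [Module ℝ Y] (h : Sn N) (T : Y →ₗ[ℝ] X) :
    Sn fun f => N (T f) :=
  ⟨fun f g => by simpa only [map_add] using h.1 _ _,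
    fun c f => by simpa only [map_smul] using h.2 _ _⟩

/-- Coordinates of the projections to subspaces. -/
theorem det (D : ℕ) (ν : X → ℝ) (V : Submodule ℝ X) :
    ∃ (e : Fin D → X) (u : Submodule ℝ X → Fin D → Fin D → ℝ), (∀ j, e j ∈ V) ∧ (Ref D ν V →
      (∀ W W' ε, 0 ≤ ε → Cl ν ε W W' → Cl ν ε W' W → ∀ i j, |u W i j - u W' i j| ≤ 2 * ε) ∧
      ∀ W ≤ V, (∃ f ∈ W, 0 < ν f) → ∃ i, ∀ (r : Fin D → ℝ) (ε : ℝ), 16 * D ^ 2 * ε ≤ 1 →
        (∀ j, |r j - u W i j| ≤ 8 * ε) → 0 < ν (∑ j, r j • e j) ∧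
          ∃ g ∈ W, ν (∑ j, r j • e j - g) ≤ 16 * D ^ 2 * ε * ν (∑ j, r j • e j)) := by
  by_cases hR : Ref D ν V
  swap
  · exact ⟨0, 0, fun _ => V.zero_mem, fun h => absurd h hR⟩
  obtain ⟨⟨ι, _, Φ, hΦ⟩, fd, rk⟩ := hR
  obtain ⟨b, b1, b2, b3⟩ := frame (V.map Φ) ((Submodule.finrank_map_le Φ V).trans rk)
  choose e e1 e2 using b1
  refine ⟨e, fun W i j => ⟪b j, (W.map Φ).starProjection (b i)⟫_ℝ, e1, fun _ =>
    ⟨fun W W' ε hε h h' i j => ?_, fun W hW ⟨f, f1, f2⟩ => ?_⟩⟩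
  · have k : ∀ W W', Cl ν ε W W' → ∀ v ∈ W.map Φ, ∃ w ∈ W'.map Φ, ‖v - w‖ ≤ ε * ‖v‖ := by
      rintro W W' h _ ⟨f, hf, rfl⟩
      obtain ⟨g, g1, g2⟩ := h f hf
      exact ⟨Φ g, ⟨g, g1, rfl⟩, by rwa [hΦ, hΦ, map_sub] at g2⟩
    have a := proj_close hε (k _ _ h) (k _ _ h') (b i)
    rw [← inner_sub_right]
    refine (abs_real_inner_le_norm _ _).trans ?_
    nlinarith [b2 i, b2 j, norm_nonneg (b j), norm_nonneg (b i),
      norm_nonneg ((W.map Φ).starProjection (b i) - (W'.map Φ).starProjection (b i))]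
  · set p := (W.map Φ).starProjection
    have hs : ∀ (r : Fin D → ℝ) (v : Fin D → EuclideanSpace ℝ ι) (c c' : ℝ), (∀ j, |r j| ≤ c) →
        (∀ j, ‖v j‖ ≤ c') → ‖∑ j, r j • v j‖ ≤ D * (c * c') := fun r v c c' h h' => by
      refine (norm_sum_le _ _).trans ((Finset.sum_le_card_nsmul _ _ (c * c') fun j _ => ?_).trans
        (by simp))
      rw [norm_smul]
      exact mul_le_mul (h j) (h' j) (norm_nonneg _) ((abs_nonneg _).trans (h j))
    rw [hΦ] at f2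
    have hp : ∑ j, ⟪b j, Φ f⟫_ℝ • p (b j) = Φ f := by
      simp only [← map_smul, ← map_sum]
      rw [b3 _ ⟨f, hW f1, rfl⟩]
      exact Submodule.starProjection_eq_self_iff.2 ⟨f, f1, rfl⟩
    have hD : Nonempty (Fin D) := by
      by_contra k
      rw [not_nonempty_iff] at k
      rw [← hp] at f2
      simp at f2
    obtain ⟨i, hi⟩ := Finite.exists_max fun j => ‖p (b j)‖
    have h1 := hs (fun j => ⟪b j, Φ f⟫_ℝ) _ ‖Φ f‖ _ (fun j => (abs_real_inner_le_norm _ _).trans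
      (mul_le_of_le_one_left (norm_nonneg _) (b2 j))) hi
    rw [hp] at h1
    have h2 : 1 ≤ D * ‖p (b i)‖ := le_of_mul_le_mul_left (by linarith) f2
    obtain ⟨g, g1, g2⟩ : p (b i) ∈ W.map Φ := Submodule.starProjection_apply_mem _ _
    refine ⟨i, fun r ε hε hr => ?_⟩
    have h3 := hs _ b _ 1 hr b2
    simp only [sub_smul, Finset.sum_sub_distrib] at h3
    rw [b3 _ ⟨g, hW g1, g2⟩] at h3
    have h4 : Φ (∑ j, r j • e j) = ∑ j, r j • b j := by simp only [map_sum, map_smul, e2]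
    have h5 := norm_sub_norm_le (p (b i)) (∑ j, r j • b j)
    rw [norm_sub_rev] at h5
    have d0 : (0 : ℝ) ≤ D := Nat.cast_nonneg D
    have h6 : 1 ≤ 2 * D * ‖∑ j, r j • b j‖ := by nlinarith
    have e0 : 0 ≤ ε := by linarith [abs_nonneg (r i - ⟪b i, p (b i)⟫_ℝ), hr i]
    refine ⟨?_, g, g1, ?_⟩
    · rw [hΦ, h4]
      refine (norm_nonneg _).lt_of_ne fun z => ?_
      rw [← z] at h6
      linarith
    · rw [hΦ, hΦ, map_sub, h4, g2]
      nlinarith [mul_nonneg d0 e0]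

/-- A subspace of maximal dimension on which `N ≤ t ν`. -/
theorem exists_max (ν N : X → ℝ) (V : Submodule ℝ X) (t : ℝ) : ∃ W ≤ V, FiniteDimensional ℝ V →
    Sn ν → Sn N → Lo ν N t W ∧ ∀ W' ≤ V, Lo ν N t W' → finrank ℝ W' ≤ finrank ℝ W := by
  by_cases h : FiniteDimensional ℝ V ∧ Sn ν ∧ Sn N
  swap
  · exact ⟨⊥, bot_le, fun a b c => absurd ⟨a, b, c⟩ h⟩
  obtain ⟨fd, a, b⟩ := h
  have bd : BddAbove ((fun W : Submodule ℝ X => finrank ℝ W) '' {W | W ≤ V ∧ Lo ν N t W}) :=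
    ⟨finrank ℝ V, by rintro _ ⟨W, hW, rfl⟩; exact Submodule.finrank_mono hW.1⟩
  have ne : Set.Nonempty {W | W ≤ V ∧ Lo ν N t W} := ⟨⊥, bot_le, fun f hf => by
    rw [(Submodule.mem_bot ℝ).1 hf, a.zero, b.zero, mul_zero]⟩
  obtain ⟨W, w1, w2⟩ := Nat.sSup_mem (ne.image _) bd
  exact ⟨W, w1.1, fun _ _ _ => ⟨w1.2, fun W' c d => (le_csSup bd ⟨W', ⟨c, d⟩, rfl⟩).trans w2.ge⟩⟩

/-- If the dimension does not grow from `t` to `T`, then `N` controls the distance to `W`. -/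
theorem sub (hν : Eu ν) (hN : Sn N) [FiniteDimensional ℝ V] (hW : W ≤ V) {t T : ℝ} (h0 : 0 ≤ t)
    (ht : t ≤ T) (lo : Lo ν N t W) (mx : ∀ W' ≤ V, Lo ν N T W' → finrank ℝ W' ≤ finrank ℝ W)
    {f : X} (hf : f ∈ V) : ∃ g ∈ W, (T - t) * ν (f - g) ≤ N f + t * ν f := by
  obtain ⟨ι, _, Φ, hΦ⟩ := hν
  obtain ⟨g, g1, g2⟩ : (W.map Φ).starProjection (Φ f) ∈ W.map Φ :=
    Submodule.starProjection_apply_mem _ _
  have g3 : ν g ≤ ν f := by
    rw [hΦ, hΦ, g2]; exact Submodule.norm_starProjection_apply_le _ _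
  have o : ∀ w ∈ W, ⟪Φ w, Φ (f - g)⟫_ℝ = 0 := fun w hw => by
    rw [map_sub, g2]
    exact Submodule.inner_right_of_mem_orthogonal (Submodule.mem_map_of_mem hw)
      ((W.map Φ).sub_starProjection_mem_orthogonal _)
  have k : N (f - g) ≤ N f + t * ν f := by
    linarith [hN.sub f g, lo g g1, mul_le_mul_of_nonneg_left g3 h0]
  refine ⟨g, g1, le_trans ?_ k⟩
  by_cases m : f - g ∈ W
  · rw [hΦ, inner_self_eq_zero.1 (o _ m), norm_zero, mul_zero]
    exact hN.nonneg _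
  have hV : W ⊔ Submodule.span ℝ {f - g} ≤ V :=
    sup_le hW ((Submodule.span_singleton_le_iff_mem _ _).2 (V.sub_mem hf (hW g1)))
  have : FiniteDimensional ℝ ↥(W ⊔ Submodule.span ℝ {f - g}) := Submodule.finiteDimensional_of_le hV
  have lt : W < W ⊔ Submodule.span ℝ {f - g} := lt_of_le_of_ne le_sup_left fun e =>
    m (e ▸ Submodule.mem_sup_right (Submodule.mem_span_singleton_self _))
  have n := mt (mx _ hV) (not_le.2 (Submodule.finrank_lt_finrank_of_lt lt))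
  simp only [Lo, not_forall, not_le] at n
  obtain ⟨G, G1, G2⟩ := n
  obtain ⟨w, w1, y, y1, rfl⟩ := Submodule.mem_sup.1 G1
  obtain ⟨s, rfl⟩ := Submodule.mem_span_singleton.1 y1
  have py : ‖Φ (w + s • (f - g))‖ ^ 2 = ‖Φ w‖ ^ 2 + (|s| * ‖Φ (f - g)‖) ^ 2 := by
    rw [map_add, map_smul, norm_add_sq_real, inner_smul_right, o w w1, norm_smul, Real.norm_eq_abs]
    ring
  have a1 : ‖Φ w‖ ≤ ‖Φ (w + s • (f - g))‖ :=
    abs_le_of_sq_le_sq' (by rw [py]; exact le_add_of_nonneg_right (sq_nonneg _)) (norm_nonneg _) |>.2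
  have a2 : |s| * ‖Φ (f - g)‖ ≤ ‖Φ (w + s • (f - g))‖ :=
    abs_le_of_sq_le_sq' (by rw [py]; exact le_add_of_nonneg_left (sq_nonneg _)) (norm_nonneg _) |>.2
  have a3 := hN.1 w (s • (f - g))
  have a4 := hN.2 s (f - g)
  have a5 := lo w w1
  rw [hΦ] at a5 G2 ⊢
  have a6 : |s| * ((T - t) * ‖Φ (f - g)‖) < |s| * N (f - g) := by
    nlinarith [mul_le_mul_of_nonneg_left a1 h0, mul_le_mul_of_nonneg_left a2 (sub_nonneg.2 ht)]
  exact (lt_of_mul_lt_mul_left a6 (abs_nonneg s)).le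

/-- Comparable norms with a thin element give close thin subspaces. -/
theorem gap (ν N N' : X → ℝ) (V : Submodule ℝ X) (wm wm' : ℝ → Submodule ℝ X) {Λ τ : ℝ}
    (hR : Ref D ν V) (hN : Sn N) (hN' : Sn N') (hΛ : 1 ≤ Λ) (hτ : 0 < τ) (sm : 4 * Λ ^ 2 * τ ≤ 1)
    (h : ∀ t, wm t ≤ V ∧ Lo ν N t (wm t) ∧
      ∀ W' ≤ V, Lo ν N t W' → finrank ℝ W' ≤ finrank ℝ (wm t))
    (h' : ∀ t, wm' t ≤ V ∧ Lo ν N' t (wm' t) ∧
      ∀ W' ≤ V, Lo ν N' t W' → finrank ℝ W' ≤ finrank ℝ (wm' t))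
    (cmp : ∀ f ∈ V, N f ≤ Λ * N' f ∧ N' f ≤ Λ * N f)
    (th : ∃ f ∈ V, 0 < ν f ∧ N f ≤ τ ^ D * ν f) :
    ∃ j : Fin D, Cl ν (4 * Λ ^ 2 * τ) (wm (τ ^ (j + 1 : ℕ))) (wm' (Λ * τ ^ (j + 1 : ℕ))) ∧
      Cl ν (4 * Λ ^ 2 * τ) (wm' (Λ * τ ^ (j + 1 : ℕ))) (wm (τ ^ (j + 1 : ℕ))) ∧
      (∃ f ∈ wm (τ ^ (j + 1 : ℕ)), 0 < ν f) ∧ Lo ν N τ (wm (τ ^ (j + 1 : ℕ))) := by
  obtain ⟨eu, fd, rk⟩ := hR
  obtain ⟨f, f1, f2, f3⟩ := th
  have sn := eu.sn
  have L2 : 1 ≤ Λ ^ 2 := one_le_pow₀ hΛ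
  have t4 : 4 * τ ≤ 1 := by nlinarith
  have k1 : 1 ≤ finrank ℝ (wm (τ ^ D)) := by
    have ne : f ≠ 0 := fun e => by rw [e, sn.zero] at f2; exact f2.false
    rw [← finrank_span_singleton (K := ℝ) ne]
    refine (h _).2.2 _ ((Submodule.span_singleton_le_iff_mem _ _).2 f1) fun g hg => ?_
    obtain ⟨s, rfl⟩ := Submodule.mem_span_singleton.1 hg
    obtain ⟨ι, _, Φ, hΦ⟩ := eu
    have e : ν (s • f) = |s| * ν f := by rw [hΦ, hΦ, map_smul, norm_smul, Real.norm_eq_abs]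
    rw [e]
    nlinarith [hN.2 s f, mul_le_mul_of_nonneg_left f3 (abs_nonneg s)]
  obtain ⟨j, j1, j2⟩ : ∃ j < D, finrank ℝ (wm (τ ^ j)) ≤ finrank ℝ (wm (τ ^ (j + 1))) := by
    by_contra k
    push Not at k
    have : ∀ j ≤ D, finrank ℝ (wm (τ ^ j)) + j ≤ D := fun j hj => by
      induction j with
      | zero => exact (Submodule.finrank_mono (h _).1).trans rk
      | succ j ih => have := ih (by omega); have := k j (by omega); omega
    have := this D le_rfl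
    omega
  set T := τ ^ j with hT
  have T0 : 0 < T := pow_pos hτ j
  have T1 : T ≤ 1 := pow_le_one₀ hτ.le (by linarith)
  have e : τ ^ (j + 1) = T * τ := pow_succ τ j
  have L0 : 0 < Λ := by linarith
  have s1 : ∀ g ∈ V, ∃ y ∈ wm (T * τ), (T - T * τ) * ν (g - y) ≤ N g + T * τ * ν g := fun g hg =>
    sub eu hN (h _).1 (by positivity) (by nlinarith) (h _).2.1
      (fun W' a b => ((h _).2.2 W' a b).trans (e ▸ j2)) hg
  have l2 : Lo ν N' (Λ * (T * τ)) (wm (T * τ)) := fun g hg => by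
    linarith [(cmp g ((h _).1 hg)).2, mul_le_mul_of_nonneg_left ((h _).2.1 g hg) L0.le]
  have s2 : ∀ g ∈ V, ∃ y ∈ wm' (Λ * (T * τ)),
      (T / Λ - Λ * (T * τ)) * ν (g - y) ≤ N' g + Λ * (T * τ) * ν g := fun g hg =>
    sub eu hN' (h' _).1 (by positivity) (by rw [le_div_iff₀ L0]; nlinarith) (h' _).2.1
      (fun W' a b => (((h T).2.2 W' a fun y hy => by
        have := mul_le_mul_of_nonneg_left (b y hy) L0.le
        rw [← mul_assoc, mul_div_cancel₀ _ L0.ne'] at this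
        exact (cmp y (a hy)).1.trans this).trans (e ▸ j2)).trans ((h' _).2.2 _ (h _).1 l2)) hg
  refine ⟨⟨j, j1⟩, ?_⟩
  simp only [e]
  refine ⟨fun g hg => ?_, fun g hg => ?_, ?_, fun g hg => ?_⟩
  · obtain ⟨y, y1, y2⟩ := s2 g ((h _).1 hg)
    refine ⟨y, y1, le_of_mul_le_mul_left ?_ T0⟩
    have a := mul_le_mul_of_nonneg_left (y2.trans (add_le_add_left (l2 g hg) _)) L0.le
    rw [← mul_assoc, mul_sub, mul_div_cancel₀ _ L0.ne'] at a
    nlinarith [mul_nonneg T0.le (sn.nonneg (g - y)), mul_nonneg T0.le (sn.nonneg g)]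
  · obtain ⟨y, y1, y2⟩ := s1 g ((h' _).1 hg)
    refine ⟨y, y1, le_of_mul_le_mul_left ?_ T0⟩
    have a := mul_le_mul_of_nonneg_left ((h' _).2.1 g hg) L0.le
    have b := (cmp g ((h' _).1 hg)).1
    nlinarith [mul_nonneg T0.le (sn.nonneg (g - y)), mul_nonneg T0.le (sn.nonneg g),
      mul_nonneg (mul_nonneg T0.le (sn.nonneg g)) hτ.le]
  · obtain ⟨y, y1, y2⟩ := s1 f f1
    refine ⟨y, y1, ?_⟩
    have a : τ ^ D ≤ T * τ := e ▸ pow_le_pow_of_le_one hτ.le (by linarith) j1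
    have b := sn.1 (f - y) y
    rw [sub_add_cancel] at b
    have c : T * ((1 - τ) * ν (f - y)) ≤ T * (2 * τ * ν f) := by nlinarith
    have d := le_of_mul_le_mul_left c T0
    nlinarith [sn.nonneg (f - y)]
  · exact ((h _).2.1 g hg).trans (mul_le_mul_of_nonneg_right (by nlinarith) (sn.nonneg g))

end Pool.Agent.MP_5168f5_an.AN.K3
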