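import Pool.Agent.MP_5168f5_an.AN.K3Det

/-! Kakeya sets in all dimensions: bounded lists of common elements for close subspaces and for
comparable norms. -/

namespace Pool.Agent.MP_5168f5_an.AN.K3

open Module

/-- One of two shifted grids does not separate two close numbers. -/
theorem rnd : ∃ r : ℝ → Bool → ℝ → ℝ, ∀ s, 0 < s → (∀ b a, |r s b a - a| ≤ 4 * s) ∧
    ∀ a a', |a - a'| ≤ s → ∃ b, r s b a = r s b a' := by
  refine ⟨fun s b a => 4 * s * (⌊a / (4 * s) + if b then 1 / 2 else 0⌋ : ℝ), fun s hs =>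
    ⟨fun b a => ?_, fun a a' h => ?_⟩⟩
  · have e : a = 4 * s * (a / (4 * s)) := by field_simp
    have h1 := Int.floor_le (a / (4 * s) + if b then 1 / 2 else 0)
    have h2 := Int.lt_floor_add_one (a / (4 * s) + if b then 1 / 2 else 0)
    have h3 : (0 : ℝ) ≤ if b then 1 / 2 else 0 := by split_ifs <;> norm_num
    have h4 : (if b then 1 / 2 else 0 : ℝ) ≤ 1 := by split_ifs <;> norm_num
    rw [abs_le]
    constructor <;> nlinarith
  · have k : |a / (4 * s) - a' / (4 * s)| ≤ 1 / 4 := by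
      rw [← sub_div, abs_div, abs_of_pos (by positivity : 0 < 4 * s), div_le_iff₀ (by positivity)]
      linarith
    beta_reduce
    generalize a / (4 * s) = y at k ⊢
    generalize a' / (4 * s) = y' at k ⊢
    rw [abs_le] at k
    by_cases c : ⌊y⌋ = ⌊y'⌋
    · exact ⟨false, by simp [c]⟩
    refine ⟨true, ?_⟩
    have h1 := Int.floor_le y
    have h2 := Int.lt_floor_add_one y
    have h3 := Int.floor_le y'
    have h4 := Int.lt_floor_add_one y'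
    simp only [if_true]
    congr 2
    rcases lt_or_gt_of_ne c with d | d
    · have d' : (⌊y⌋ : ℝ) + 1 ≤ ⌊y'⌋ := by exact_mod_cast d
      rw [Int.floor_eq_iff.2 (show (⌊y'⌋ : ℝ) ≤ y + 1 / 2 ∧ _ from ⟨by linarith, by linarith⟩),
        Int.floor_eq_iff.2 (show (⌊y'⌋ : ℝ) ≤ y' + 1 / 2 ∧ _ from ⟨by linarith, by linarith⟩)]
    · have d' : (⌊y'⌋ : ℝ) + 1 ≤ ⌊y⌋ := by exact_mod_cast d
      rw [Int.floor_eq_iff.2 (show (⌊y⌋ : ℝ) ≤ y + 1 / 2 ∧ _ from ⟨by linarith, by linarith⟩),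
        Int.floor_eq_iff.2 (show (⌊y⌋ : ℝ) ≤ y' + 1 / 2 ∧ _ from ⟨by linarith, by linarith⟩)]

variable {X : Type} [AddCommGroup X] [Module ℝ X]

/-- `W` and `W'` are `ε` close subspaces, and `W` is not null. -/
structure NearS (D : ℕ) (ε : ℝ) (ν : X → ℝ) (V W W' : Submodule ℝ X) : Prop where
  ref : Ref D ν V
  pos : 0 < ε
  sm : 16 * D ^ 2 * ε ≤ 1
  le : W ≤ V
  cl : Cl ν ε W W'
  cl' : Cl ν ε W' W
  ex : ∃ f ∈ W, 0 < ν f

/-- `N` and `N'` are comparable seminorms with a thin element. -/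
structure NearN (D : ℕ) (Λ τ : ℝ) (ν : X → ℝ) (V : Submodule ℝ X) (N N' : X → ℝ) : Prop where
  ref : Ref D ν V
  sn : Sn N
  sn' : Sn N'
  one : 1 ≤ Λ
  pos : 0 < τ
  sm : 64 * D ^ 2 * Λ ^ 2 * τ ≤ 1
  cmp : ∀ f ∈ V, N f ≤ Λ * N' f ∧ N' f ≤ Λ * N f
  thin : ∃ f ∈ V, 0 < ν f ∧ N f ≤ τ ^ D * ν f

/-- `F` is not null and relatively close to `W`. -/
def OutS (D : ℕ) (ε : ℝ) (ν : X → ℝ) (W : Submodule ℝ X) (F : X) : Prop :=
  0 < ν F ∧ ∃ g ∈ W, ν (F - g) ≤ 16 * D ^ 2 * ε * ν F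

/-- `F` is not null and relatively close to a thin element. -/
def OutN (D : ℕ) (Λ τ : ℝ) (ν : X → ℝ) (V : Submodule ℝ X) (N : X → ℝ) (F : X) : Prop :=
  0 < ν F ∧ ∃ g ∈ V, N g ≤ 2 * τ * ν F ∧ ν (F - g) ≤ 64 * D ^ 2 * Λ ^ 2 * τ * ν F

variable (X)

/-- A bounded list for close subspaces. -/
theorem listS (D : ℕ) : ∃ F : Fin D × (Fin D → Bool) → ℝ → (X → ℝ) → Submodule ℝ X →
    Submodule ℝ X → X, (∀ i ε ν V W, F i ε ν V W ∈ V) ∧ ∀ ε ν V W W', NearS D ε ν V W W' →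
      ∃ i, F i ε ν V W = F i ε ν V W' ∧ OutS D ε ν W (F i ε ν V W) := by
  choose e u e1 e2 using fun (ν : X → ℝ) (V : Submodule ℝ X) => det D ν V
  obtain ⟨r, hr⟩ := rnd
  refine ⟨fun i ε ν V W => ∑ j, r (2 * ε) (i.2 j) (u ν V W i.1 j) • e ν V j, fun i ε ν V W =>
    V.sum_mem fun j _ => V.smul_mem _ (e1 ν V j), fun ε ν V W W' h => ?_⟩
  obtain ⟨a, b⟩ := e2 ν V h.ref
  obtain ⟨i, hi⟩ := b W h.le h.ex
  obtain ⟨r1, r2⟩ := hr (2 * ε) (by linarith [h.pos])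
  choose sg hs using fun j => r2 _ _ (a W W' ε h.pos.le h.cl h.cl' i j)
  exact ⟨(i, sg), by simp only [hs], hi _ ε h.sm fun j => (r1 _ _).trans (by linarith)⟩

/-- Bounded lists for comparable norms. -/
theorem listN (D : ℕ) : ∃ F F' : Fin D × Fin D × (Fin D → Bool) → ℝ → ℝ → (X → ℝ) →
    Submodule ℝ X → (X → ℝ) → X, (∀ i Λ τ ν V N, F i Λ τ ν V N ∈ V ∧ F' i Λ τ ν V N ∈ V) ∧
      ∀ Λ τ ν V N N', NearN D Λ τ ν V N N' →
        ∃ i, F i Λ τ ν V N = F' i Λ τ ν V N' ∧ OutN D Λ τ ν V N (F i Λ τ ν V N) := by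
  obtain ⟨F, F1, F2⟩ := listS X D
  choose wm w1 w2 using fun (ν N : X → ℝ) (V : Submodule ℝ X) (t : ℝ) => exists_max ν N V t
  refine ⟨fun i Λ τ ν V N => F i.2 (4 * Λ ^ 2 * τ) ν V (wm ν N V (τ ^ (i.1 + 1 : ℕ))),
    fun i Λ τ ν V N => F i.2 (4 * Λ ^ 2 * τ) ν V (wm ν N V (Λ * τ ^ (i.1 + 1 : ℕ))),
    fun i Λ τ ν V N => ⟨F1 .., F1 ..⟩, fun Λ τ ν V N N' h => ?_⟩
  have sn := h.ref.eu.sn
  have p : 0 < Λ ^ 2 * τ := mul_pos (pow_pos (one_pos.trans_le h.one) 2) h.pos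
  have d1 : (1 : ℝ) ≤ D := by
    obtain ⟨f, f1, f2, -⟩ := h.thin
    have := h.ref.fd
    have ne : f ≠ 0 := fun e => by rw [e, sn.zero] at f2; exact f2.false
    exact_mod_cast (finrank_span_singleton (K := ℝ) ne).ge.trans ((Submodule.finrank_mono
      ((Submodule.span_singleton_le_iff_mem _ _).2 f1)).trans h.ref.rk)
  obtain ⟨j, c1, c2, c3, c4⟩ := gap ν N N' V (wm ν N V) (wm ν N' V) h.ref h.sn h.sn' h.one h.pos
    (by nlinarith [h.sm, one_le_pow₀ (n := 2) d1])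
    (fun t => ⟨w1 .., w2 _ _ _ _ h.ref.fd sn h.sn⟩)
    (fun t => ⟨w1 .., w2 _ _ _ _ h.ref.fd sn h.sn'⟩) h.cmp h.thin
  obtain ⟨i, a, b, g, g1, g2⟩ := F2 _ ν V _ _
    ⟨h.ref, by linarith, by linarith [h.sm], w1 .., c1, c2, c3⟩
  refine ⟨(j, i), a, b, g, w1 _ _ _ _ g1, (c4 g g1).trans ?_, by linarith⟩
  set G := F i (4 * Λ ^ 2 * τ) ν V (wm ν N V (τ ^ (j + 1 : ℕ)))
  have k := sn.sub G (G - g)
  rw [sub_sub_cancel] at k
  have : ν g ≤ 2 * ν G := by nlinarith [h.sm]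
  nlinarith [h.pos]

variable {X} {D : ℕ} {Λ τ ε Γ L : ℝ} {ν N : X → ℝ} {V W : Submodule ℝ X} {F : X}

/-- The common element is small under a functional that is bounded by both norms. -/
theorem OutN.ev (h : OutN D Λ τ ν V N F) (hF : F ∈ V) {y : X → ℝ} (hΓ : 0 ≤ Γ)
    (hL : 0 ≤ L) (ad : ∀ f g, y (f + g) ≤ y f + y g) (h1 : ∀ f ∈ V, y f ≤ Γ * N f)
    (h2 : ∀ f ∈ V, y f ≤ L * ν f) : y F ≤ (2 * Γ + 64 * D ^ 2 * Λ ^ 2 * L) * τ * ν F := by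
  obtain ⟨-, g, g1, g2, g3⟩ := h
  have a := ad g (F - g)
  rw [add_sub_cancel] at a
  linarith [h1 g g1, h2 _ (V.sub_mem hF g1), mul_le_mul_of_nonneg_left g2 hΓ,
    mul_le_mul_of_nonneg_left g3 hL]

/-- The common element is small under a functional that is small on the subspace. -/
theorem OutS.ev (h : OutS D ε ν W F) (hν : Sn ν) (hF : F ∈ V) (hW : W ≤ V)
    (sm : 16 * D ^ 2 * ε ≤ 1) {y : X → ℝ} (hΓ : 0 ≤ Γ) (hL : 0 ≤ L)
    (ad : ∀ f g, y (f + g) ≤ y f + y g) (h1 : ∀ f ∈ W, y f ≤ Γ * ν f)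
    (h2 : ∀ f ∈ V, y f ≤ L * ν f) : y F ≤ (2 * Γ + 16 * D ^ 2 * ε * L) * ν F := by
  obtain ⟨p, g, g1, g3⟩ := h
  have a := ad g (F - g)
  rw [add_sub_cancel] at a
  have k := hν.sub F (F - g)
  rw [sub_sub_cancel] at k
  have : ν g ≤ 2 * ν F := by nlinarith
  linarith [h1 g g1, h2 _ (V.sub_mem hF (hW g1)), mul_le_mul_of_nonneg_left this hΓ,
    mul_le_mul_of_nonneg_left g3 hL]

end Pool.Agent.MP_5168f5_an.AN.K3
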