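import Pool.Agent.MP_5168f5_an.AN.LCSpec
import Pool.Agent.MP_5168f5_an.AN.N2Alg

/-! Kakeya sets in all dimensions: size and perturbation of positions. -/

namespace Pool.Agent.MP_5168f5_an.AN.LC

open H19 H17S H17F R4 Finset IsNilpotent
open GA (Mt Nr IsFr vec Bx)
open N2 (Bd bd_one)

namespace LCPsA

variable {m : ℕ} {κ : Type} {ρ : Fin m → ℝ} {c η : ℝ} {u : Mt (Fin m)}

theorem ex1 {N : ℕ} (h : Bd ρ (c * η) u) (h0 : ∀ p, 0 < ρ p) (hc : 1 ≤ c) (e0 : 0 ≤ η) (e1 : η ≤ 1)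
    (hu : u ^ (N + 1) = 0) : Bd ρ ((N + 1) * ((m + 1) * c) ^ N * η) (exp u - 1) ∧
      Bd ρ ((N + 1) * ((m + 1) * c) ^ N) (exp u) := by
  have m0 : (0 : ℝ) ≤ m := Nat.cast_nonneg _
  have c1 : 1 ≤ (m + 1) * c := by nlinarith
  have c2 : 1 ≤ ((m + 1) * c) ^ N := one_le_pow₀ c1
  have k : Bd ρ (N * ((m + 1) * c) ^ N * η) (exp u - 1) := fun p q => by
    rw [exp_eq_sum hu, sum_range_succ', pow_zero, Nat.factorial_zero, Nat.cast_one, inv_one,
      one_smul, add_sub_cancel_right, Matrix.sum_apply]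
    refine (abs_sum_le_sum_abs _ _).trans ((sum_le_card_nsmul _ _
      (((m + 1) * c) ^ N * η * (ρ p / ρ q)) fun i hi => ?_).trans_eq (by simp [mul_assoc]))
    have h1 : (m * (c * η)) ^ (i + 1) ≤ ((m + 1) * c) ^ N * η := by
      rw [← mul_assoc, mul_pow]
      exact mul_le_mul ((pow_le_pow_left₀ (by positivity) (by nlinarith) _).trans
        (pow_le_pow_right₀ c1 (mem_range.1 hi))) (pow_le_of_le_one e0 e1 i.succ_ne_zero)
        (by positivity) (by positivity)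
    have h2 : |(((i + 1).factorial : ℚ)⁻¹ : ℚ) • (u ^ (i + 1)) p q| ≤ |(u ^ (i + 1)) p q| := by
      rw [Rat.smul_def, abs_mul]
      refine mul_le_of_le_one_left (abs_nonneg _) ?_
      rw [Rat.cast_inv, abs_inv, Rat.cast_natCast, Nat.abs_cast]
      exact inv_le_one_of_one_le₀ (by exact_mod_cast (i + 1).factorial_pos)
    exact h2.trans (((h.pow h0 (i + 1)).mono h0 h1) p q)
  refine ⟨k.mono h0 (by gcongr; linarith), ?_⟩
  have k' := k.add (bd_one h0)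
  rw [sub_add_cancel] at k'
  have : N * ((m + 1) * c) ^ N * η ≤ N * ((m + 1) * c) ^ N :=
    mul_le_of_le_one_right (by positivity) e1
  exact k'.mono h0 (by linarith)

theorem vc [Fintype κ] {σ : St m κ} {B : κ → Mt (Fin m)} {s L : ℝ} {t : κ → ℝ} (hH : Hom σ B)
    (hB : ∀ a p q, |B a p q| ≤ L) (hL : 0 ≤ L) (e0 : 0 ≤ η)
    (ht : Bx (fun a => Real.exp (-(σ.wt a * s))) η t) :
    Bd (fun p => Real.exp (-(σ.la p * s))) (Fintype.card κ * L * η) (vec B t) := fun p q => by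
  rw [vec, Matrix.sum_apply]
  refine (abs_sum_le_sum_abs _ _).trans ((sum_le_card_nsmul _ _ (L * η *
    (Real.exp (-(σ.la p * s)) / Real.exp (-(σ.la q * s)))) fun a _ => ?_).trans_eq
      (by simp only [card_univ, nsmul_eq_mul, mul_assoc]))
  by_cases e : B a p q = 0
  · rw [Matrix.smul_apply, e, smul_zero, abs_zero]; positivity
  · rw [Matrix.smul_apply, smul_eq_mul, abs_mul, ← Real.exp_sub, hH a p q e, mul_assoc, mul_comm,
      show -((σ.la q + σ.wt a) * s) - -(σ.la q * s) = -(σ.wt a * s) by ring]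
    exact mul_le_mul (hB a p q) (ht a) (abs_nonneg _) hL

theorem nrm {la : Fin m → ℝ} {o : Fin m} {s : ℝ} (ho : la o = 0) (hc : 0 ≤ c)
    (h : Bd (fun p => Real.exp (-(la p * s))) c u) :
    ‖(fun p => Real.exp (la p * s) * u p o : V m)‖ ≤ c :=
  (pi_norm_le_iff_of_nonneg hc).2 fun p => by
    have := h p o
    simp only [ho, zero_mul, neg_zero, Real.exp_zero, div_one, Real.exp_neg] at this
    rwa [Real.norm_eq_abs, abs_mul, abs_of_pos (Real.exp_pos _), mul_comm,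
      ← le_mul_inv_iff₀ (Real.exp_pos _)]

theorem box (A e : ℕ) : ∃ K : ℕ, 1 ≤ K ∧ ∀ L : ℝ, 1 ≤ L → A * L ^ e ≤ (K * L) ^ K :=
  ⟨A + e + 1, by omega, fun L hL => by
    rw [mul_pow]
    refine mul_le_mul ?_ (pow_le_pow_right₀ hL (by omega)) (by positivity) (by positivity)
    exact_mod_cast (by omega : A ≤ A + e + 1).trans (Nat.le_self_pow (by omega) _)⟩

end LCPsA

open LCPsA in
theorem lcPs : SPs := by
  intro m κ _ σ ho
  obtain ⟨K, K1, hK⟩ := box ((m + 1) ^ 2 * ((σ.Φ.N + 1) *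
    ((m + 1) * (Fintype.card κ + 1)) ^ σ.Φ.N) ^ 3) (2 * σ.Φ.N * 3)
  refine ⟨K, K1, fun B c s L η x y x' y' hF hH hB hL e0 e1 hx ⟨t, ht, hy⟩ => ?_⟩
  have h0 : ∀ p, 0 < Real.exp (-(σ.la p * s)) := fun p => Real.exp_pos _
  have L0 : 0 ≤ L := by linarith
  have m0 : (0 : ℝ) ≤ m := Nat.cast_nonneg _
  have k0 : (0 : ℝ) ≤ Fintype.card κ := Nat.cast_nonneg _
  have c1 : 1 ≤ (Fintype.card κ + 1) * L ^ 2 := by nlinarith
  have hd := (Matrix.isUnit_iff_isUnit_det _).1 hx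
  have g := (ex1 (η := 1) ((vc hH hB L0 L0 ht).mono h0 (by nlinarith)) h0 c1 zero_le_one le_rfl
    (σ.Φ.pow_zero' (hF.mem t))).2
  have sm : ∀ r, Bx (fun a => Real.exp (-(σ.wt a * s))) η r → _ := fun r hr =>
    (vc hH hB L0 e0 hr).mono h0 (show _ ≤ (Fintype.card κ + 1) * L ^ 2 * η from
      mul_le_mul_of_nonneg_right (by nlinarith) e0)
  have G1 : (1 : ℝ) ≤ (σ.Φ.N + 1) * ((m + 1) * ((Fintype.card κ + 1) * L ^ 2)) ^ σ.Φ.N :=
    one_le_mul_of_one_le_of_one_le (by simp) (one_le_pow₀ (by nlinarith))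
  have hA : (m + 1) ^ 2 * ((σ.Φ.N + 1) * ((m + 1) * ((Fintype.card κ + 1) * L ^ 2)) ^ σ.Φ.N) ^ 3 ≤
      (K * L) ^ K := le_trans (le_of_eq (by
    push_cast
    rw [pow_mul, pow_mul, mul_assoc, ← mul_pow, mul_assoc, ← mul_pow, mul_assoc])) (hK L hL)
  generalize hG : (σ.Φ.N + 1 : ℝ) * ((m + 1) * ((Fintype.card κ + 1) * L ^ 2)) ^ σ.Φ.N = G at *
  have G3 : G ≤ G ^ 2 ∧ G ^ 2 ≤ G ^ 3 := ⟨le_self_pow₀ G1 two_ne_zero, pow_le_pow_right₀ G1 (by omega)⟩
  have e : x⁻¹ * y = exp (vec B t) := by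
    rw [hy, Matrix.nonsing_inv_mul_cancel_left _ _ hd]; rfl
  refine ⟨(nrm ho (by linarith) (e ▸ g)).trans (le_trans ?_ hA), fun ⟨r, hr, hx'⟩ ⟨r', hr', hy'⟩ => ?_⟩
  · nlinarith [G3.1, G3.2, mul_nonneg m0 m0]
  · have a1 := (ex1 (u := -vec B r) (fun p q => (abs_neg _).trans_le (sm r hr p q)) h0 c1 e0 e1
      (σ.Φ.pow_zero' (neg_mem (hF.mem r)))).1
    have a2 := ex1 (sm r' hr') h0 c1 e0 e1 (σ.Φ.pow_zero' (hF.mem r'))
    rw [hG] at a1 a2
    have a3 := ((a1.mul g h0).mul a2.2 h0).add (g.mul a2.1 h0)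
    have e' : x'⁻¹ * y' = exp (-vec B r) * exp (vec B t) * exp (vec B r') := by
      rw [hx', hy', Matrix.mul_inv_rev, GA.ex, GA.ex, Matrix.inv_eq_left_inv
        (exp_neg_mul_exp_self (σ.Φ.nil (hF.mem r))), ← e]
      simp only [mul_assoc]
    have e2 : nv σ.la σ.o s x' y' - nv σ.la σ.o s x y = fun p => Real.exp (σ.la p * s) *
        ((exp (-vec B r) - 1) * exp (vec B t) * exp (vec B r') +
          exp (vec B t) * (exp (vec B r') - 1)) p σ.o := funext fun p => by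
      rw [Pi.sub_apply, nv, nv, e, e', ← mul_sub, ← Matrix.sub_apply, sub_mul, sub_mul, one_mul,
        mul_sub (exp _), mul_one, sub_add_sub_cancel]
    rw [e2]
    refine (nrm ho (by positivity) a3).trans (le_trans ?_ (mul_le_mul_of_nonneg_right hA e0))
    have : m * G ^ 2 ≤ m * G ^ 3 := mul_le_mul_of_nonneg_left G3.2 m0
    have : 0 ≤ (m + 1) * G ^ 3 := by positivity
    nlinarith

end Pool.Agent.MP_5168f5_an.AN.LC
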