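import Pool.Agent.MP_5168f5_an.AN.Defs
import Pool.Agent.MP_5168f5_an.AN.GADef
import Pool.Agent.MP_5168f5_an.AN.S20Dn

/-! Kakeya sets in all dimensions: the light class of the local step, definitions. -/

namespace Pool.Agent.MP_5168f5_an.AN.LC

open H19 H17S H17F R4 Filter MvPolynomial
open G39 (dl OB)
open Pk (cn)
open Nc (Pl ev)
open GA (Mt Nr IsFr vec Neg)
open S20 (dn)

/-- The constants. The dimension of the space is `d + 1`. -/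
structure St (m : ℕ) (κ : Type) : Type where
  d : ℕ
  D : ℕ
  cc : ℝ
  o : Fin m
  la : Fin m → ℝ
  wt : κ → ℝ
  Φ : H61Z.Filt (Mt (Fin m))
  mb : ℕ → ℕ
  mg : ℕ → ℕ → ℕ → ℕ

/-- The data on one space. `O true` are the pieces of a curve, `O false` are the cells. -/
structure Dt (m : ℕ) (κ Ω Λ : Type) : Type where
  P : FP Ω
  M : ℕ
  lv : ℚ≥0 → ℝ
  j : Ω → Mt (Fin m)
  B : κ → Mt (Fin m)
  c : κ → κ → κ → ℝ
  O : Bool → ℚ≥0 → Ω → Λ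

open Classical in
/-- The radii at depth `s`, with the extra factor `τ` outside `S`. -/
noncomputable def rd {κ : Type} (wt : κ → ℝ) (S : Finset κ) (s τ : ℝ) (a : κ) : ℝ :=
  Real.exp (-(wt a * s)) * if a ∈ S then 1 else τ

/-- The position of `y` in the frame `x` at depth `s`. -/
noncomputable def nv {m : ℕ} (la : Fin m → ℝ) (o : Fin m) (s : ℝ) (x y : Mt (Fin m)) : V m :=
  fun p => Real.exp (la p * s) * (x⁻¹ * y) p o

namespace Dt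

variable {m : ℕ} {κ Ω Λ : Type} [Fintype κ] (σ : St m κ) (X : Dt m κ Ω Λ)

/-- The law in the atom of `ω`. -/
noncomputable def fb (k : Bool) (a : ℚ≥0) (ω : Ω) : FP Ω := cv X.P (X.O k a) (X.O k a ω)

/-- The position of `v` seen from `ω` at level `a`. -/
noncomputable def ps (a : ℚ≥0) (ω v : Ω) : V m := nv σ.la σ.o (X.lv a) (X.j ω) (X.j v)

/-- Shift to the level `a` and zoom by the factor `e`. -/
noncomputable def idx (a e : ℚ≥0) : Dt m κ Ω Λ :=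
  ⟨X.P, ⌊(e : ℝ) * X.M⌋₊, fun b => X.lv (a + e * b), X.j, X.B, X.c, fun k b => X.O k (a + e * b)⟩

/-- A new law and a new group element. -/
abbrev chg (P : FP Ω) (j : Ω → Mt (Fin m)) : Dt m κ Ω Λ := ⟨P, X.M, X.lv, j, X.B, X.c, X.O⟩

/-- A new basis. -/
abbrev bas (B : κ → Mt (Fin m)) (c : κ → κ → κ → ℝ) : Dt m κ Ω Λ :=
  ⟨X.P, X.M, X.lv, X.j, B, c, X.O⟩

/-- The basis is an exact homogeneous frame and the group elements are units. -/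
def Fr : Prop := IsFr σ.Φ X.B X.c ∧
  (∀ a p q, X.B a p q ≠ 0 → σ.la p = σ.la q + σ.wt a) ∧ ∀ ω ∈ X.P.S, IsUnit (X.j ω)

/-- The basis and its inverse are bounded. -/
def Bd (ε : ℝ) : Prop := (∀ a p q, |X.B a p q| ≤ Real.exp (ε * X.M)) ∧
  ∀ t a, |t a| ≤ Real.exp (ε * X.M) * ∑ p, ∑ q, |vec X.B t p q|

/-- Increments inside an atom. -/
def Inc (S : Finset κ) (k : Bool) (a : ℚ≥0) (ε : ℝ) : Prop :=
  ∀ ω ∈ X.P.S, ∀ v ∈ X.P.S, X.O k a ω = X.O k a v →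
    Nr X.B (rd σ.wt S (X.lv a) (Real.exp (-(X.M / ε)))) (Real.exp (ε * X.M)) (X.j ω) (X.j v)

/-- A piece is a curve. -/
def Crv (a : ℚ≥0) (ε : ℝ) : Prop := ∀ ω ∈ X.P.S, ∃ τ : Fin m → Polynomial ℝ,
  (∀ p, (τ p).natDegree ≤ σ.D) ∧ ∀ v ∈ X.P.S, X.O true a v = X.O true a ω →
    ∃ t : ℝ, ∀ p, |X.ps σ a ω v p - (τ p).eval t| ≤ Real.exp (-(X.M / ε))

/-- A piece is spread at rate one. -/
def Spr (a : ℚ≥0) (ε : ℝ) : Prop := ∀ ω ∈ X.P.S, ∀ h : ℝ, h ≤ X.M / ε → ∀ q : V m,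
  pb (X.fb true a ω) (fun v => ‖X.ps σ a ω v - q‖ ≤ Real.exp (-h)) ≤ Real.exp (ε * X.M - h)

/-- A cell is covered by few balls. -/
def Ngv (a : ℚ≥0) (ε : ℝ) : Prop := ∀ ω ∈ X.P.S, ∀ h : ℝ, 0 ≤ h → h ≤ X.M / ε →
  ∃ Q : Finset (V m), (Q.card : ℝ) ≤ Real.exp (ε * X.M + (σ.d + 1 - σ.cc) * h) ∧
    ∀ v ∈ X.P.S, X.O false a v = X.O false a ω → ∃ q ∈ Q, ‖X.ps σ a ω v - q‖ ≤ Real.exp (-h)

/-- A cell is not close to a parametrised hypersurface. -/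
def Bg (E : ℕ) (a : ℚ≥0) (ε : ℝ) : Prop := ∀ ω ∈ X.P.S, ∀ h : ℝ, h ≤ X.M / ε →
  ∀ s : Fin m → Pl σ.d, (∀ p, (s p).totalDegree ≤ E) →
    pb (X.fb false a ω) (fun v => ∃ q, ‖X.ps σ a ω v - ev s q‖ ≤ Real.exp (-((σ.mb E + 1) * h))) ≤
      Real.exp (ε * X.M - h)

/-- Independent functions of a cell are full. -/
def Gs (k E i : ℕ) (a : ℚ≥0) (ε : ℝ) : Prop := ∀ ω ∈ X.P.S, ∀ h : ℝ, h ≤ X.M / ε →
  ∀ W : Fin k → Pl m, (∀ l, (W l).totalDegree ≤ E ∧ cn (W l) ≤ 1) →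
    (∀ H : Pl k, H.totalDegree ≤ σ.mg k E i → cn H = 1 →
      Real.exp (ε * X.M - h / (σ.mg k E i + 1)) ≤ pb (X.fb false a ω) fun v =>
        Real.exp (ε * X.M - h / (σ.mg k E i + 1)) ≤ |eval (ev W (X.ps σ a ω v)) H|) →
    ∀ Q : Finset (V k), (Q.card : ℝ) ≤ Real.exp ((k - 1 / (i + 1 : ℝ)) * h - ε * X.M) →
      pb (X.fb false a ω)
        (fun v => ∃ q ∈ Q, ‖ev W (X.ps σ a ω v) - q‖ ≤ Real.exp (-h - ε * X.M)) ≤
      Real.exp (ε * X.M - h / (σ.mg k E i + 1))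

/-- No approximate character is concentrated in an atom. -/
def Ac (S : Finset κ) (L : ℝ) (k : Bool) (a : ℚ≥0) (ε : ℝ) : Prop :=
  ∀ ω ∈ X.P.S, ∀ h : ℝ, h ≤ X.M / ε → ∀ (l : κ → ℝ) (c₀ : ℝ), (∀ b, b ∉ S → l b = 0) →
    ∑ b, |l b| = 1 → (∀ b ∈ S, ∀ b' ∈ S, |∑ e, l e * X.c b b' e| ≤ Real.exp (-h)) →
    pb (X.fb k a ω) (fun v => |∑ b, l b * (Real.exp (σ.wt b * X.lv a) *
      GA.lg X.B (X.j ω) (X.j v) b) - c₀| ≤ Real.exp (-h)) ≤ Real.exp (ε * X.M - h / L)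

end Dt

section Seq

variable {m : ℕ} {κ : Type} [Fintype κ] {Ω Λ : ℕ → Type}

/-- A property that holds eventually for every positive parameter. -/
def Al {S : ℕ → Type} (p : ∀ n, S n → ℝ → Prop) (X : ∀ n, S n) : Prop :=
  ∀ ε : ℝ, 0 < ε → ∀ᶠ n in UF, p n (X n) ε

/-- The laws. -/
abbrev sP (X : ∀ n, Dt m κ (Ω n) (Λ n)) : ∀ n, FP (Ω n) := fun n => (X n).P

/-- The units. -/
abbrev sM (X : ∀ n, Dt m κ (Ω n) (Λ n)) : ℕ → ℕ := fun n => (X n).M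

/-- The atoms. -/
abbrev sO (X : ∀ n, Dt m κ (Ω n) (Λ n)) (k : Bool) (a : ℚ≥0) : ∀ n, Ω n → Λ n :=
  fun n => (X n).O k a

/-- The light class. `S k` spans the algebra of the increments in the atoms of `O k`. -/
structure L (σ : St m κ) (S : Bool → Finset κ) (X : ∀ n, Dt m κ (Ω n) (Λ n)) : Prop where
  cc : 0 < σ.cc
  lo : σ.la σ.o = 0
  lp : ∀ p, p ≠ σ.o → 0 < σ.la p
  wp : ∀ a, 0 < σ.wt a
  ss : S true ⊆ S false
  big : Big (sM X)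
  lv : ∀ a : ℚ≥0, Eqv (sM X) (fun n => (X n).lv a - (X n).lv 0) fun n => (a : ℝ) * (X n).M
  fr : ∀ᶠ n in UF, (X n).Fr σ
  bd : Al (fun _ Y => Y.Bd) X
  sub : ∀ k, ∀ a ∈ S k, ∀ b ∈ S k, ∀ e, e ∉ S k → Neg (sM X) fun n => (X n).c a b e
  nest : ∀ k a a', a ≤ a' → FnE (sP X) (sO X k a) (sO X k a')
  com : ∀ a, FnE (sP X) (sO X false a) (sO X true a)
  inc : ∀ k a, Al (fun _ Y => Y.Inc σ (S k) k a) X
  crv : ∀ a, Al (fun _ Y => Y.Crv σ a) X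
  spr : ∀ a, Al (fun _ Y => Y.Spr σ a) X
  ngv : ∀ a, Al (fun _ Y => Y.Ngv σ a) X
  bg : ∀ E a, Al (fun _ Y => Y.Bg σ E a) X
  gs : ∀ k, k ≠ σ.d + 1 → ∀ E i a, Al (fun _ Y => Y.Gs σ k E i a) X

/-- The algebras cannot be made smaller. -/
def Min (σ : St m κ) (Ω Λ : ℕ → Type) (S : Bool → Finset κ) : Prop :=
  ∀ (S' : Bool → Finset κ) (X' : ∀ n, Dt m κ (Ω n) (Λ n)), L σ S' X' →
    (S false).card ≤ (S' false).card ∧
      ((S false).card = (S' false).card → (S true).card ≤ (S' true).card)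

/-- No approximate character is concentrated. -/
def AC (σ : St m κ) (S : Bool → Finset κ) (L₀ : ℝ) (X : ∀ n, Dt m κ (Ω n) (Λ n)) : Prop :=
  ∀ k a, Al (fun _ Y => Y.Ac σ (S k) L₀ k a) X

/-- `j'` is negligibly close to `j`. -/
def Cls (σ : St m κ) (X : ∀ n, Dt m κ (Ω n) (Λ n)) (P : ∀ n, FP (Ω n))
    (j : ∀ n, Ω n → Mt (Fin m)) : Prop := ∀ T : ℝ, ∀ᶠ n in UF, ∀ ω ∈ (P n).S,
  Nr (X n).B (fun a => Real.exp (-(σ.wt a * (X n).lv 0))) (dl (sM X) T n) ((X n).j ω) (j n ω)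

end Seq

/-! ### Closure properties -/

/-- Diagonal limits. -/
def SCF : Prop := ∀ (m : ℕ) (κ : Type) [Fintype κ] (Ω Λ : ℕ → Type) (σ : St m κ)
  (S : Bool → Finset κ) (L₀ : ℝ), CF (L (Ω := Ω) (Λ := Λ) σ S) ∧ CF (AC (Ω := Ω) (Λ := Λ) σ S L₀)

/-- Shift and zoom by fixed amounts. -/
def SIdx : Prop := ∀ (m : ℕ) (κ : Type) [Fintype κ] (Ω Λ : ℕ → Type) (σ : St m κ)
  (S : Bool → Finset κ) (X : ∀ n, Dt m κ (Ω n) (Λ n)) (a e : ℚ≥0), 0 < e → e ≤ 1 → L σ S X →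
  L σ S (fun n => (X n).idx a e) ∧ ∀ L₀, AC σ S L₀ X → AC σ S L₀ fun n => (X n).idx a e

/-- Slow zoom above a threshold. -/
def SZoom : Prop := ∀ (m : ℕ) (κ : Type) [Fintype κ] (Ω Λ : ℕ → Type) (σ : St m κ)
  (S : Bool → Finset κ) (X : ∀ n, Dt m κ (Ω n) (Λ n)) (M₀ : ℕ → ℝ) (L₀ : ℝ), L σ S X →
  Sm (sM X) M₀ → ∃ e : ℕ → ℚ≥0, L σ S (fun n => (X n).idx 0 (e n)) ∧
    (AC σ S L₀ X → AC σ S L₀ fun n => (X n).idx 0 (e n)) ∧
    Sm (sM X) (fun n => (((X n).idx 0 (e n)).M : ℝ)) ∧ Sm (sM fun n => (X n).idx 0 (e n)) M₀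

/-- Restriction to an event that is not power small. -/
def SRes : Prop := ∀ (m : ℕ) (κ : Type) [Fintype κ] (Ω Λ : ℕ → Type) (σ : St m κ)
  (S : Bool → Finset κ) (X : ∀ n, Dt m κ (Ω n) (Λ n)) (G : ∀ n, Ω n → Prop), L σ S X →
  (∀ c : ℝ, 0 < c → ∀ᶠ n in UF, dl (sM X) c n ≤ pb (X n).P (G n)) →
  ∃ G' : ∀ n, Ω n → Prop, (∀ n ω, G' n ω → G n ω) ∧
    (∀ᶠ n in UF, pb (X n).P (G n) ≤ 2 * pb (X n).P (G' n)) ∧
    (∀ k a (c : ℝ), 0 < c → ∀ᶠ n in UF, ∀ ω ∈ (X n).P.S, G' n ω →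
      dl (sM X) c n ≤ pb ((X n).fb k a ω) (G' n)) ∧
    L σ S (fun n => (X n).chg (cE (X n).P (G' n)) (X n).j) ∧
    ∀ L₀, AC σ S L₀ X → AC σ S L₀ fun n => (X n).chg (cE (X n).P (G' n)) (X n).j

/-- Freezing a context that has few values on the pieces and is almost independent of the
deeper cells. -/
def SFrz : Prop := ∀ (m : ℕ) (κ : Type) [Fintype κ] (Ω Λ β : ℕ → Type) (σ : St m κ)
  (S : Bool → Finset κ) (X : ∀ n, Dt m κ (Ω n) (Λ n)) (be : ∀ n, Ω n → β n)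
  (G : ∀ n, Ω n → Prop), L σ S X → Whp (sP X) G →
  (∀ c : ℝ, 0 < c → Whp (sP X) fun n ω => dl (sM X) c n ≤ dn (X n).P (be n) (sO X true 0 n) ω) →
  (∀ a (c : ℝ), 0 < c → Whp (sP X) fun n ω => dl (sM X) c n *
    dn (X n).P (be n) (sO X false a n) ω ≤ dn (X n).P (be n) (sO X false 0 n) ω) →
  ∃ (P : ∀ n, FP (Ω n)) (j : ∀ n, Ω n → Mt (Fin m)) (b : ∀ n, β n),
    (∀ᶠ n in UF, ∀ ω ∈ (P n).S, ω ∈ (X n).P.S ∧ G n ω ∧ be n ω = b n) ∧ Cls σ X P j ∧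
    L σ S fun n => (X n).chg (P n) (j n)

/-! ### The two steps -/

/-- A minimal member has no concentrated character after a restriction. -/
def SCut : Prop := ∀ (m : ℕ) (κ : Type) [Fintype κ] (Ω Λ : ℕ → Type) (σ : St m κ)
  (S : Bool → Finset κ) (X : ∀ n, Dt m κ (Ω n) (Λ n)), L σ S X → Min σ Ω Λ S →
  ∃ (L₀ : ℝ) (X' : ∀ n, Dt m κ (Ω n) (Λ n)), 1 ≤ L₀ ∧ L σ S X' ∧ AC σ S L₀ X'

/-- There is no member without concentrated characters. -/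
def SEnd : Prop := ∀ (m : ℕ) (κ : Type) [Fintype κ] (Ω Λ : ℕ → Type) (σ : St m κ)
  (S : Bool → Finset κ) (X : ∀ n, Dt m κ (Ω n) (Λ n)) (L₀ : ℝ), 1 ≤ L₀ → L σ S X →
  AC σ S L₀ X → False

/-- The class is empty. -/
def SEmp : Prop := ∀ (m : ℕ) (κ : Type) [Fintype κ] (Ω Λ : ℕ → Type) (σ : St m κ)
  (S : Bool → Finset κ) (X : ∀ n, Dt m κ (Ω n) (Λ n)), ¬L σ S X

def OfCut : Prop := SCF → SIdx → SRes → SFrz → SCut

theorem emp (h1 : SCut) (h2 : SEnd) : SEmp := by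
  intro m κ _ Ω Λ σ S X hX
  classical
  let f : (Bool → Finset κ) → ℕ := fun S => (S false).card * (Fintype.card κ + 1) + (S true).card
  obtain ⟨S₀, ⟨X₀, h₀⟩, hm⟩ := (measure f).wf.has_min
    {S | ∃ X : ∀ n, Dt m κ (Ω n) (Λ n), L σ S X} ⟨S, X, hX⟩
  have hM : Min σ Ω Λ S₀ := fun S' X' h' => by
    have k : f S₀ ≤ f S' := not_lt.1 (hm S' ⟨X', h'⟩)
    have a := (S' true).card_le_univ
    simp only [f] at k
    refine ⟨not_lt.1 fun b => ?_, fun e => ?_⟩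
    · have := Nat.mul_le_mul_right (Fintype.card κ + 1) (Nat.succ_le_of_lt b)
      rw [Nat.succ_mul] at this
      omega
    · rw [e] at k
      omega
  obtain ⟨L₀, X', a, b, c⟩ := h1 m κ Ω Λ σ S₀ X₀ h₀ hM
  exact h2 m κ Ω Λ σ S₀ X' L₀ a b c

end Pool.Agent.MP_5168f5_an.AN.LC
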