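import Pool.Agent.MP_5168f5_an.AN.LEInc
import Pool.Agent.MP_5168f5_an.AN.S20Full
import Pool.Agent.MP_5168f5_an.AN.Cx
import Pool.Agent.MP_5168f5_an.H83.Basic

/-! The entrance to the light class: curves, statements on one space. -/

namespace Pool.Agent.MP_5168f5_an.AN.N2

open H19 H17S H17F R4 Filter MvPolynomial Finset Function
open G39 (dl dl_pos)
open Nc (Pl)
open Pk (cn kc)
open C1 (Dg)
open GA (Mt)

section Det

variable {N k m D J : ℕ} {ν ν' : Pl N → ℝ} {τ : Fin N → Pl k} {L η : ℝ} {y y' : V k} {l : Fin k}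
  {z z' : V N}

theorem norm_upd (hy : ‖y‖ ≤ 1) {s : ℝ} (hs : |s| ≤ 1) : ‖update y l s‖ ≤ 1 :=
  (pi_norm_le_iff_of_nonneg zero_le_one).2 fun i => by
    rw [update_apply]
    split_ifs
    exacts [hs, (norm_le_pi_norm y i).trans hy]

theorem mvt (F : Pl k) {s s' A : ℝ} (hy : ‖y‖ ≤ 1) (hs : |s| ≤ 1) (hs' : |s'| ≤ 1) (hA : 0 ≤ A)
    (h : ∀ q : V k, ‖q‖ ≤ 1 → 1 ≤ A * |eval q (pderiv l F)|) :
    |s - s'| ≤ A * |eval (update y l s) F - eval (update y l s') F| := by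
  wlog lt : s' < s generalizing s s'
  · rcases (not_lt.1 lt).eq_or_lt with e | e
    · rw [e, sub_self, abs_zero]; positivity
    · rw [abs_sub_comm, abs_sub_comm (eval _ F)]; exact this hs' hs e
  have hd : ∀ r : ℝ, HasDerivAt (fun r => eval (update y l r) F)
      (eval (update y l r) (pderiv l F)) r := fun r => by
    simpa [Function.comp_def, Pi.single_apply] using
      (H83.IsPoly.hasFDerivAt_eval F (update y l r)).comp_hasDerivAt r (hasDerivAt_update y l r)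
  obtain ⟨c, hc, e⟩ := exists_hasDerivAt_eq_slope _ _ lt
    (fun r _ => (hd r).continuousAt.continuousWithinAt) fun r _ => hd r
  have := h _ (norm_upd (l := l) hy (abs_le.2 ⟨by linarith [(abs_le.1 hs').1, hc.1],
    by linarith [(abs_le.1 hs).2, hc.2]⟩ : |c| ≤ 1))
  rwa [e, abs_div, abs_of_pos (sub_pos.2 lt), ← mul_div_assoc, le_div_iff₀ (sub_pos.2 lt),
    one_mul, ← abs_of_pos (sub_pos.2 lt)] at this

theorem frz {H : Pl k} (hH : H.totalDegree ≤ J) (hy : ‖y‖ ≤ 1) (hy' : ‖y'‖ ≤ 1) (h0 : 0 ≤ η)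
    (h : ∀ i, i ≠ l → |y' i - y i| ≤ η) :
    |eval y' H - eval (update y l (y' l)) H| ≤ J * cn H * η := by
  simpa using kc.lip H J 1 η y' (update y l (y' l)) hH le_rfl h0 fun i =>
    ⟨(norm_le_pi_norm y' i).trans hy', (norm_le_pi_norm _ i).trans
      (norm_upd hy ((norm_le_pi_norm y' l).trans hy')), by
      by_cases e : i = l
      · rw [e, update_self, sub_self, abs_zero]; exact h0
      · rw [update_of_ne e]; exact h i e⟩

theorem sum_le {f : Fin m → ℝ} {b : ℝ} (h : ∀ p, |f p| ≤ b) : |∑ p, f p| ≤ m * b :=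
  (abs_sum_le_sum_abs _ _).trans ((sum_le_card_nsmul _ _ b fun p _ => h p).trans_eq (by simp))

theorem crv_one (s : Sn ν) {e : Fin m → Pl N} {g w : Fin m → ℝ} {b : ℝ} (hL : 1 ≤ L) (h0 : 0 ≤ η)
    (hb : 0 ≤ b) (he : ∀ q, (e q).totalDegree ≤ D) (hτ : ∀ i, (τ i).totalDegree ≤ J)
    (hg : ∀ q, |g q| ≤ b) (h1 : ∀ q, ν (e q) ≤ L) (h2 : ∀ q, |eval z (e q) - w q| ≤ η)
    (h3 : ∀ F : Pl N, F.totalDegree ≤ D → cn (aeval τ F) ≤ L * ν F)
    (h4 : ∀ F : Pl N, F.totalDegree ≤ D → |eval z F - eval y' (aeval τ F)| ≤ η * ν F)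
    (hy : ‖y‖ ≤ 1) (hy' : ‖y'‖ ≤ 1) (h5 : ∀ i, i ≠ l → |y' i - y i| ≤ η) :
    |∑ q, g q * w q - eval (update y l (y' l)) (aeval τ (∑ q, g q • e q))| ≤
      m * (2 + D * J) * L ^ 2 * b * η := by
  have d : (∑ q, g q • e q).totalDegree ≤ D :=
    totalDegree_finsetSum_le fun q _ => (totalDegree_smul_le _ _).trans (he q)
  have a1 := s.sum g e (b := b * L) fun q => mul_le_mul (hg q) (h1 q) (s.nn _) hb
  have a2 : |∑ q, g q * w q - eval z (∑ q, g q • e q)| ≤ m * (b * η) := by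
    rw [map_sum, ← sum_sub_distrib]
    exact sum_le fun q => by
      rw [smul_eval, ← mul_sub, abs_mul, abs_sub_comm]
      exact mul_le_mul (hg q) (h2 q) (abs_nonneg _) hb
  have a3 := (h4 _ d).trans (mul_le_mul_of_nonneg_left a1 h0)
  have a4 := (frz (kc.deg _ _ _ _ d hτ) hy hy' h0 h5).trans (mul_le_mul_of_nonneg_right
    (mul_le_mul_of_nonneg_left ((h3 _ d).trans (mul_le_mul_of_nonneg_left a1 (by linarith)))
      (Nat.cast_nonneg _)) h0)
  refine (abs_sub_le _ _ _).trans ((add_le_add a2 ((abs_sub_le _ _ _).trans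
    (add_le_add a3 a4))).trans ?_)
  have p : 0 ≤ m * b * η := by positivity
  push_cast
  nlinarith [mul_le_mul_of_nonneg_left (show 1 ≤ L ^ 2 by nlinarith) p,
    mul_le_mul_of_nonneg_left (show L ≤ L ^ 2 by nlinarith) p]

theorem spr_one {f : Fin m → Pl N} {i : Fin N} {c c' T R δ : ℝ} {Y Y' : V m} (sp : Sp D f)
    (dg : Dg ν' f (fun _ => 1) L) (hD : 1 ≤ D) (hL : 1 ≤ L) (h0 : 0 ≤ η) (hT : 0 < T) (hR : 1 ≤ R)
    (hη : η * R ≤ δ) (hτ : ∀ i, (τ i).totalDegree ≤ J) (b0 : ν (X i - C c) ≤ L / T)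
    (b1 : ν' (X i - C c') ≤ L / (T * R))
    (h3 : ∀ F : Pl N, F.totalDegree ≤ D → cn (aeval τ F) ≤ L * ν F)
    (h4 : ∀ F : Pl N, F.totalDegree ≤ D → |eval z F - eval y (aeval τ F)| ≤ η * ν F)
    (h4' : ∀ F : Pl N, F.totalDegree ≤ D → |eval z' F - eval y' (aeval τ F)| ≤ η * ν F)
    (h6 : ∀ p, |eval z (f p) - Y p| ≤ η) (h6' : ∀ p, |eval z' (f p) - Y' p| ≤ η)
    (h7 : ∀ p, |Y p - Y' p| ≤ δ)
    (lng : ∀ q : V k, ‖q‖ ≤ 1 → 1 ≤ L * (T * |eval q (pderiv l (τ i))|))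
    (hy : ‖y‖ ≤ 1) (hy' : ‖y'‖ ≤ 1) (h5 : ∀ i, i ≠ l → |y' i - y i| ≤ η) :
    |y l - y' l| ≤ (3 * m + 2 + J) * L ^ 3 * (δ / R) := by
  have d : ∀ c : ℝ, (X i - C c : Pl N).totalDegree ≤ D := fun c =>
    (totalDegree_sub_C_le _ _).trans ((totalDegree_X i).le.trans hD)
  have e : aeval τ (X i - C c : Pl N) = τ i - C c := by simp
  have l0 : 0 < L := by linarith
  have r0 : 0 < R := by linarith
  have k0 : η ≤ δ / R := (le_div_iff₀ r0).2 hη
  have k1 : η ≤ δ := (le_mul_of_one_le_right h0 hR).trans hη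
  obtain ⟨a, ha⟩ := sp.2 _ (d c')
  have a1 : |z i - z' i| ≤ m * (L * (L / (T * R)) * (3 * δ)) := by
    have : z i - z' i = eval z (X i - C c' : Pl N) - eval z' (X i - C c' : Pl N) := by simp
    rw [this, ha, map_sum, map_sum, ← sum_sub_distrib]
    refine sum_le fun p => ?_
    have u := dg.2 a p
    rw [← ha, mul_one] at u
    rw [smul_eval, smul_eval, ← mul_sub, abs_mul]
    have v1 := abs_le.1 (h6 p)
    have v2 := abs_le.1 (h6' p)
    have v3 := abs_le.1 (h7 p)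
    exact mul_le_mul (u.trans (mul_le_mul_of_nonneg_left b1 l0.le))
      (abs_le.2 ⟨by linarith, by linarith⟩) (abs_nonneg _) (by positivity)
  have a2 := abs_le.1 ((h4 _ (d c)).trans (mul_le_mul_of_nonneg_left b0 h0))
  have a3 := abs_le.1 ((h4' _ (d c)).trans (mul_le_mul_of_nonneg_left b0 h0))
  have a4 := (h3 _ (d c)).trans (mul_le_mul_of_nonneg_left b0 l0.le)
  rw [e] at a2 a3 a4
  have a5 := abs_le.1 ((frz ((totalDegree_sub_C_le _ c).trans (hτ i)) hy hy' h0 h5).trans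
    (mul_le_mul_of_nonneg_right (mul_le_mul_of_nonneg_left a4 (Nat.cast_nonneg _)) h0))
  have a6 := mvt (l := l) (A := L * T) (τ i - C c) hy ((norm_le_pi_norm y l).trans hy)
    ((norm_le_pi_norm y' l).trans hy') (by positivity) fun q hq => by
      simpa [mul_assoc] using lng q hq
  have a7 := abs_le.1 a1
  simp only [map_sub, eval_X, eval_C, update_eq_self] at a2 a3 a5 a6
  refine a6.trans ((mul_le_mul_of_nonneg_left (abs_le.2 ⟨by linarith, by linarith⟩ :
    _ ≤ m * (L * (L / (T * R)) * (3 * δ)) + 2 * (η * (L / T)) + J * (L * (L / T)) * η)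
      (by positivity)).trans ?_)
  have e2 : L * T * (m * (L * (L / (T * R)) * (3 * δ)) + 2 * (η * (L / T)) +
      J * (L * (L / T)) * η) = 3 * m * L ^ 3 * (δ / R) + (2 * L ^ 2 + J * L ^ 3) * η := by
    field_simp
    ring
  rw [e2]
  have := mul_le_mul (show 2 * L ^ 2 + J * L ^ 3 ≤ (2 + J) * L ^ 3 by nlinarith [sq_nonneg L])
    k0 h0 (by positivity)
  linarith

/-- Change of the reference. -/
theorem ny_lip {M : ℕ → ℕ} {la : Fin m → ℝ} {o : Fin m} {a θ : ℝ} {n : ℕ} {r j u v : Mt (Fin m)}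
    (hj : Uni la j) (h : Bd (fun p => dl M (la p * a) n) L (r⁻¹ * j))
    (hθ : ∀ q, |ny M la o a n j u q - ny M la o a n j v q| ≤ θ) (p : Fin m) :
    |ny M la o a n r u p - ny M la o a n r v p| ≤ m * (L * θ) := by
  have e : ∀ u, ny M la o a n r u p = ∑ q, (r⁻¹ * j) p q /
      (dl M (la p * a) n / dl M (la q * a) n) * ny M la o a n j u q := fun u => by
    rw [ny, show r⁻¹ * u = r⁻¹ * j * (j⁻¹ * u) by
      rw [mul_assoc, Matrix.mul_nonsing_inv_cancel_left _ _ hj.det], Matrix.mul_apply, mul_sum]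
    refine sum_congr rfl fun q _ => ?_
    have := (dl_pos M (la q * a) n).ne'
    rw [ny]
    generalize dl M (la q * a) n = A at this
    generalize dl M (la p * a) n = B
    field_simp
  rw [e, e, ← sum_sub_distrib]
  refine sum_le fun q => ?_
  have p0 := div_pos (dl_pos M (la p * a) n) (dl_pos M (la q * a) n)
  have u1 := (div_le_iff₀ p0).2 (h p q)
  rw [← mul_sub, abs_mul, abs_div, abs_of_pos p0]
  exact mul_le_mul u1 (hθ q) (abs_nonneg _) ((div_nonneg (abs_nonneg _) p0.le).trans u1)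

end Det

section One

variable {k u r r' : ℕ} {Ω β : Type} {P : FP Ω} {Z : Ω → β} {y : Ω → V k} {l : Ω → Fin k}
  {v ω : Ω}

/-- The label of a curve: the parameter `l` is known to depth `r`, the others to depth `u`. -/
noncomputable def cur (Z : Ω → β) (y : Ω → V k) (l : Ω → Fin k) (u r : ℕ) (ω : Ω) :
    H17S.Z k × β := (fun i => fl1 (if i = l ω then r else u) (y ω i), Z ω)

theorem cur_iff (h : Fn P l Z) (hv : v ∈ P.S) (hω : ω ∈ P.S) :
    cur Z y l u r v = cur Z y l u r ω ↔ Z v = Z ω ∧ fl1 r (y v (l ω)) = fl1 r (y ω (l ω)) ∧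
      ∀ i, i ≠ l ω → fl1 u (y v i) = fl1 u (y ω i) := by
  rw [cur, cur, Prod.mk.injEq, and_comm]
  refine and_congr_right fun e => ?_
  rw [h v hv ω hω e]
  refine ⟨fun a => ⟨by simpa using congrFun a (l ω), fun i hi => by simpa [hi] using congrFun a i⟩,
    fun a => funext fun i => ?_⟩
  split_ifs with c
  exacts [c ▸ a.1, a.2 i c]

theorem cur_nest (h : Fn P l Z) (e : r ≤ r') : Fn P (cur Z y l u r) (cur Z y l u r') :=
  fun _ hv _ hω a => (cur_iff h hv hω).2 (((cur_iff h hv hω).1 a).imp_right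
    (And.imp_left (fl1_eq_of_le e)))

theorem cur_com (h : Fn P l Z) (e : r ≤ u) (hv : v ∈ P.S) (hω : ω ∈ P.S)
    (a : cur Z y l u r v = cur Z y l u r ω) : Z v = Z ω ∧ fl r (y v) = fl r (y ω) :=
  ((cur_iff h hv hω).1 a).imp_right fun b => funext fun i => by
    by_cases c : i = l ω
    exacts [c ▸ b.1, fl1_eq_of_le e (b.2 i c)]

theorem cur_few (h : Fn P l Z) (hy : ∀ ω i, 0 ≤ y ω i ∧ y ω i < 1) :
    S20.Few P (fun ω => (cur Z y l u r ω).1) Z (fun _ => True) (2 ^ r * (2 ^ u) ^ k / 2 ^ u) :=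
  fun a ha => by
  refine ⟨Fintype.piFinset fun i => Ico 0 (2 ^ if i = l a then r else u), le_of_eq ?_,
    fun v hv e _ => Fintype.mem_piFinset.2 fun i => mem_Ico.2 ⟨?_, ?_⟩⟩
  · have e : ∀ i : ℕ, (((2 : ℤ) ^ i - 0).toNat : ℝ) = 2 ^ i := fun i => by
      rw [sub_zero]
      exact_mod_cast Int.toNat_natCast (2 ^ i)
    simp only [Fintype.card_piFinset, Int.card_Ico, Nat.cast_prod, e]
    rw [eq_div_iff (by positivity), ← mul_prod_erase _ _ (mem_univ (l a)), if_pos rfl,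
      prod_congr rfl fun i hi => by rw [if_neg (ne_of_mem_erase hi)], mul_assoc,
      prod_erase_mul _ (fun _ => (2 : ℝ) ^ u) (mem_univ (l a))]
    simp
  · exact Int.floor_nonneg.2 (mul_nonneg (by positivity) (hy v i).1)
  · rw [← h v hv a ha e]
    refine Int.floor_lt.2 ?_
    push_cast
    exact mul_lt_of_lt_one_right (by positivity) (hy v i).2

theorem pb_cur {i : Fin k} {G E : Ω → Prop} {B c : ℝ} (hB : 1 ≤ B)
    (hc : ∀ z, pb P (fun v => G v ∧ fl u (y v) = z) ≤ c)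
    (h : ∀ a ∈ P.S, ∀ b ∈ P.S, E a → E b → |y a i - y b i| ≤ B / 2 ^ u ∧
      ∀ j, j ≠ i → fl1 u (y a j) = fl1 u (y b j)) : pb P (fun v => G v ∧ E v) ≤ 5 * B * c := by
  refine S20.DB.few (Y := fun v => fl u (y v)) (A := fun _ => ()) (fun _ _ z => by
    rw [Cx.cv_unit]; exact hc z) ?_
  simpa using S20.few_fl (P := P) (y := y) (A := fun _ => ()) (G := E) {i} (j := u) hB
    fun a ha b hb c d _ j => ⟨by
      by_cases e : j = i
      · exact e ▸ (h a ha b hb c d).1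
      · exact (abs_sub_lt_of_fl1_eq ((h a ha b hb c d).2 j e)).le.trans (by
          rw [← one_div]; exact div_le_div_of_nonneg_right hB (by positivity)),
      fun e => (h a ha b hb c d).2 j (by simpa using e)⟩

end One

end Pool.Agent.MP_5168f5_an.AN.N2
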