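import Pool.Agent.MP_5168f5_an.AN.LECrv

/-! Polynomials of the position in the model are polynomials of the point. -/

namespace Pool.Agent.MP_5168f5_an.AN.N2

open H19 H17S H17F R4 Filter MvPolynomial Finset
open G39 (nu dl dl_pos dl_add dl_anti dl_inv)
open Nc (Pl ev)
open Pk (cn kc)
open GA (Mt)
open S20 (gp_iff)

theorem nu_ge {Ω : Type} (P : FP Ω) {f : Ω → ℝ} {s κ : ℝ} (hs : 0 ≤ s) (h0 : 0 ≤ κ)
    (h : κ ≤ pb P fun v => s ≤ |f v|) : κ * s ≤ nu P f := by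
  have h1 := A1.markov P (u := fun ω => f ω ^ 2) (fun _ _ => sq_nonneg _) (s ^ 2)
  have h2 : pb P (fun v => s ≤ |f v|) ≤ pb P fun ω => s ^ 2 ≤ f ω ^ 2 := pb_mono fun ω _ k => by
    rw [← sq_abs (f ω)]; exact pow_le_pow_left₀ hs k 2
  have h3 := h.trans (pb_le_one _ _)
  refine Real.le_sqrt_of_sq_le (le_trans ?_ h1)
  rw [mul_pow, mul_comm]
  exact mul_le_mul_of_nonneg_left (by nlinarith) (sq_nonneg _)

theorem ny_eq {m : ℕ} {M : ℕ → ℕ} {la : Fin m → ℝ} (o : Fin m) (a : ℝ) (n : ℕ) (r u : Mt (Fin m))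
    {j : Mt (Fin m)} (hj : Uni la j) (p : Fin m) : ny M la o a n r u p = ∑ q, (r⁻¹ * j) p q /
      (dl M (la p * a) n / dl M (la q * a) n) * ny M la o a n j u q := by
  rw [ny, show r⁻¹ * u = r⁻¹ * j * (j⁻¹ * u) by
    rw [mul_assoc, Matrix.mul_nonsing_inv_cancel_left _ _ hj.det], Matrix.mul_apply, mul_sum]
  refine sum_congr rfl fun q _ => ?_
  have := (dl_pos M (la q * a) n).ne'
  rw [ny]
  generalize dl M (la q * a) n = A at this
  generalize dl M (la p * a) n = B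
  field_simp

variable {N N' m D : ℕ} {Ω Λ : ℕ → Type} {β : Bool → ℕ → Type} {P : ∀ n, FP (Ω n)} {M : ℕ → ℕ}
  {x : ∀ n, Ω n → V N} {Z : ∀ b n, Ω n → β b n}

/-- Polynomials of a bounded system have bounded norms. -/
theorem cm_up {A : ∀ n, Ω n → Λ n} {Θ : ∀ n, Ω n → Fin N' → Pl N} (cm : CM P M x Z A)
    (e : FnE P Θ A) (hD : ∀ n ω i, (Θ n ω i).totalDegree ≤ D) (hb : Bdd P M (chs Θ x)) (E : ℕ) :
    Gp P M fun n ω Γ => ∀ F : Pl N', F.totalDegree ≤ E →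
      nc (P n) (x n) (A n) ω (aeval (Θ n ω) F) ≤ Γ * cn F := S20.gp_of_wp fun c hc => by
  obtain ⟨Γ, s, w⟩ := gp_iff.1 hb
  refine (Cx.whp_all (Q := A) (T := fun _ => {H : Pl N' // H.totalDegree ≤ E})
    (fun _ => ⟨⟨0, by simp⟩⟩) (p := fun n ω H => nc (P n) (x n) (A n) ω (aeval (Θ n ω) H.1) ≤
      Real.exp (c * M n) * cn H.1) ?_ fun a ha => ?_).mono
    (Eventually.of_forall fun _ _ _ k H hH => k ⟨H, hH⟩)
  · exact e.mono fun n k u hu v hv e => by simp only [k u hu v hv e, Cx.fn_nc _ _ _ u hu v hv e]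
  refine ((Cx.cm_low cm (F := fun n ω => aeval (Θ n ω) (a n ω).1) ((e.and ha).mono
    fun n k u hu v hv e => by simp only [k.1 u hu v hv e, k.2 u hu v hv e])
    (fun n ω => kc.deg _ _ _ _ (a n ω).2 (hD n ω)) _ (half_pos hc)).and w).mono
    (((s.pow E).2 _ (half_pos hc)).mono fun n l ω _ k => k.1.trans ?_)
  beta_reduce
  rw [Nc.eval_aeval, show Real.exp (c * M n) = Real.exp (c / 2 * M n) * Real.exp (c / 2 * M n) by
    rw [← Real.exp_add, ← add_mul, add_halves], mul_assoc]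
  exact mul_le_mul_of_nonneg_left ((kc.val _ E (Γ n) _ (a n ω).2 (s.1 n) fun i =>
    (norm_le_pi_norm _ i).trans k.2).trans ((mul_comm _ _).trans_le
      (mul_le_mul_of_nonneg_right l (kc.nonneg _)))) (Real.exp_pos _).le

variable {S : ℚ → ∀ n, Ω n → Λ n} {σ : ℝ} {la : Fin m → ℝ} {o : Fin m}
  {eb : ∀ n, Ω n → Fin m → Pl N} {j : ∀ n, Ω n → Mt (Fin m)} {jr : ℚ → ∀ n, Ω n → Mt (Fin m)}
  {a : ℚ}

/-- The bridge between the model and the cell. -/
theorem Mod.brg (md : Mod P M x S D σ la o eb j jr) (hM : Big M) (cm : CM P M x Z (S a))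
    (ne : FnE P (S 0) (S a)) (ha : 0 ≤ a) (E : ℕ) {K : ℝ} (hK : 0 ≤ K) :
    Gd P M fun n G Γ => ∀ ω ∈ (P n).S, G ω → ∃ g : Fin m → Pl N, (∀ p, (g p).totalDegree ≤ D) ∧
      (∀ F : Pl m, F.totalDegree ≤ E → nc (P n) (x n) (S a n) ω (aeval g F) ≤ Γ * cn F) ∧
      ∀ v ∈ (P n).S, G v → S a n v = S a n ω → ∀ F : Pl m, F.totalDegree ≤ E →
        |eval (ny M la o a n (j n ω) (j n v)) F - eval (x n v) (aeval g F)| ≤ dl M K n * cn F := by
  obtain ⟨Γ, s, w⟩ := gp_iff.1 (md.bd ha)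
  have w' := w.and (md.pos a (K + 1) ha)
  have d1 : ∀ n, dl M (K + 1) n ≤ Γ n := fun n =>
    (dl_anti M (by linarith : 0 ≤ K + 1) n).trans (by simpa [dl] using s.1 n)
  have yb : ∀ n ω, Bd (fun p => dl M (la p * a) n) (Γ n) ((jr a n ω)⁻¹ * j n ω) → ∀ p,
      |ny M la o a n (jr a n ω) (j n ω) p| ≤ Γ n := fun n ω h p => by
    have := h p o
    beta_reduce at this
    rw [md.wo, zero_mul, show dl M 0 n = 1 by simp [dl], div_one] at this
    rwa [ny, abs_mul, abs_inv, abs_of_pos (dl_pos _ _ _), inv_mul_le_iff₀' (dl_pos _ _ _)]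
  have dn : ∀ n ω p, (nf M la a n (jr a n ω) (eb n ω) p).totalDegree ≤ D := fun n ω p =>
    (totalDegree_smul_le _ _).trans (deg_act (md.deg n ω) _ p)
  have fe : FnE P (fun n ω => nf M la a n (jr a n ω) (eb n ω)) (S a) :=
    ((Cx.fnE_trans md.fe ne).and (md.fj a ha)).mono fun n k u hu v hv e => by
      simp only [k.1 u hu v hv e, k.2 u hu v hv e]
  have zb : ∀ n ω, Bd (fun p => dl M (la p * a) n) (Γ n) ((jr a n ω)⁻¹ * j n ω) ∧
      (∀ p, |eval (x n ω) (nf M la a n (jr a n ω) (eb n ω) p) -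
        ny M la o a n (jr a n ω) (j n ω) p| ≤ dl M (K + 1) n) → ∀ p,
      |eval (x n ω) (nf M la a n (jr a n ω) (eb n ω) p)| ≤ 2 * Γ n := fun n ω k p => by
    linarith [abs_sub_abs_le_abs_sub (eval (x n ω) (nf M la a n (jr a n ω) (eb n ω) p))
      (ny M la o a n (jr a n ω) (j n ω) p), k.2 p, yb n ω k.1 p, d1 n]
  have s2 := s.const_mul hM one_le_two
  obtain ⟨Γ', s', w''⟩ := gp_iff.1 (cm_up cm fe dn (gp_iff.2 ⟨_, s2, w'.mono (Eventually.of_forall
    fun n ω _ k => (pi_norm_le_iff_of_nonneg (s2.pos n).le).2 (zb n ω k))⟩) E)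
  have m0 : (0 : ℝ) ≤ m := Nat.cast_nonneg _
  have c1 := one_le_ci m
  have s3 := (s.pow m).const_mul hM (C := (m + 1) * ci m) (by nlinarith)
  refine ⟨_, _, w'.and w'', s'.mul (s3.pow E), ?_⟩
  filter_upwards [fe, md.fj a ha, G39.sub_dl (((s3.pow E).mul (s2.pow E)).const_mul hM
    (C := E + 1) (by linarith [Nat.cast_nonneg (α := ℝ) E])) one_pos] with n f1 f2 b ω hω g
  let lin : Fin m → Pl m := fun p => ∑ q, (((j n ω)⁻¹ * jr a n ω) p q /
    (dl M (la p * a) n / dl M (la q * a) n)) • X q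
  have l1 : ∀ p, (lin p).totalDegree ≤ 1 := fun p => totalDegree_finsetSum_le fun q _ =>
    (totalDegree_smul_le _ _).trans (totalDegree_X q).le
  have l2 : ∀ F : Pl m, F.totalDegree ≤ E → (aeval lin F).totalDegree ≤ E ∧
      cn (aeval lin F) ≤ cn F * ((m + 1) * ci m * Γ n ^ m) ^ E := fun F hF => by
    refine ⟨(kc.deg _ _ _ _ hF l1).trans_eq (mul_one E), kc.comp _ _ _ _ hF (s3.1 n) fun p =>
      (kc.sum _ _).trans ((sum_le_card_nsmul _ _ (ci m * Γ n ^ m) fun q _ => ?_).trans ?_)⟩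
    · have := g.1.1.inv (fun _ => dl_pos _ _ _) (s.1 n) ((md.ur a n ω).inv.mul (md.uj n ω)) p q
      have p0 := div_pos (dl_pos M (la p * a) n) (dl_pos M (la q * a) n)
      rw [Matrix.mul_inv_rev, Matrix.nonsing_inv_nonsing_inv _ (md.ur a n ω).det] at this
      rwa [kc.smul, kc.var, mul_one, abs_div, abs_of_pos p0, div_le_iff₀ p0]
    · have := pow_pos (s.pos n) m
      simp only [card_univ, Fintype.card_fin, nsmul_eq_mul]
      nlinarith
  have l3 : ∀ F : Pl m, aeval (fun p => aeval (nf M la a n (jr a n ω) (eb n ω)) (lin p)) F =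
      aeval (nf M la a n (jr a n ω) (eb n ω)) (aeval lin F) := fun F =>
    (AlgHom.congr_fun (comp_aeval lin (aeval _)) F).symm
  refine ⟨fun p => aeval (nf M la a n (jr a n ω) (eb n ω)) (lin p), fun p =>
    (kc.deg _ _ _ _ (l1 p) (dn n ω)).trans_eq (one_mul D), fun F hF => ?_,
    fun v hv g' e F hF => ?_⟩
  · rw [l3, mul_assoc, mul_comm _ (cn F)]
    exact (g.2 _ (l2 F hF).1).trans (mul_le_mul_of_nonneg_left (l2 F hF).2 (s'.pos n).le)
  have e1 : ny M la o a n (j n ω) (j n v) = Nc.ev lin (ny M la o a n (jr a n v) (j n v)) :=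
    funext fun p => by
      rw [ny_eq o a n _ _ (md.ur a n ω), f2 v hv ω hω e]
      simp [Nc.ev, lin]
  have e2 : nf M la a n (jr a n v) (eb n v) = nf M la a n (jr a n ω) (eb n ω) := f1 v hv ω hω e
  rw [l3, e1, ← Nc.eval_aeval, ← e2, Nc.eval_aeval (nf M la a n _ _)]
  refine (kc.lip _ E (2 * Γ n) (dl M (K + 1) n) _ _ (l2 F hF).1 (s2.1 n) (dl_pos _ _ _).le fun p =>
    ⟨(yb n v g'.1.1 p).trans (by linarith [s.pos n]), zb n v g'.1 p,
      (abs_sub_comm _ _).trans_le (g'.1.2 p)⟩).trans ?_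
  have p1 := pow_pos (s2.pos n) E
  have p2 := pow_pos (s3.pos n) E
  have p3 := dl_pos M K n
  have p4 := dl_pos M 1 n
  have p5 := kc.nonneg F
  rw [← one_div, le_div_iff₀ p4] at b
  rw [dl_add]
  calc _ ≤ (E + 1) * (cn F * ((m + 1) * ci m * Γ n ^ m) ^ E) * (2 * Γ n) ^ E *
        (dl M K n * dl M 1 n) := by
        gcongr
        exacts [kc.nonneg _, le_add_of_nonneg_right zero_le_one, (l2 F hF).2]
    _ = dl M K n * cn F * ((E + 1) * (((m + 1) * ci m * Γ n ^ m) ^ E * (2 * Γ n) ^ E) *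
        dl M 1 n) := by ring
    _ ≤ _ := mul_le_of_le_one_right (by positivity) b

end Pool.Agent.MP_5168f5_an.AN.N2
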