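import Pool.Agent.MP_5168f5_an.AN.LWin
import Pool.Agent.MP_5168f5_an.AN.C1Z

/-! Almost every level has weights. -/

namespace Pool.Agent.MP_5168f5_an.AN.LC

open H19 H17S H17F R4 Filter C1

theorem ofLin (h2 : Her2) : OfLin := by
  intro sg N Ω Λ k ml P M x s C D S Θ U H a₀ b τ gc
  obtain ⟨L, l1, l2⟩ := sg N Ω Λ k ml P M x s C D S Θ U H a₀ b τ gc
  obtain ⟨m, rk⟩ : ∃ m, Module.finrank ℝ (PD N D) = m := ⟨_, rfl⟩
  obtain ⟨G, A, G1, hb, hA, hs⟩ := core AN.slow h2 rk gc.sys.big gc.sure gc.chn.nest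
    (fun a => (gc.chn.cel a).cm) gc.fat l1
  obtain ⟨c, hc⟩ := basis0 m
  refine ⟨_, l2 G G1, hs.mono fun σ hs i => ?_⟩
  have s0 := gc.pos.1.trans i.1
  obtain ⟨la, hl⟩ := hs s0
  refine ⟨m, la, fun T η hη => ?_⟩
  obtain ⟨R, R1, hR⟩ : ∃ R : ℝ, 1 ≤ R ∧ ∀ a ∈ T, |(a : ℝ)| + 1 ≤ R :=
    ⟨∑ a ∈ T, |(a : ℝ)| + 1, le_add_of_nonneg_left (Finset.sum_nonneg fun _ _ => abs_nonneg _),
      fun a h => add_le_add_left (Finset.single_le_sum (f := fun a : ℚ => |(a : ℝ)|)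
        (fun _ _ => abs_nonneg _) h) 1⟩
  obtain ⟨θ, t0, t1⟩ : ∃ θ : ℝ, 0 < θ ∧ c * (θ * (R + 1)) ≤ η :=
    ⟨η / (c + 1) / (R + 1), by positivity, by
      rw [div_mul_cancel₀ _ (by positivity), ← mul_div_assoc, div_le_iff₀ (by positivity)]
      linarith⟩
  obtain ⟨δ, d0, hδ⟩ := hl θ t0
  beta_reduce at hδ
  refine ⟨min 1 (min δ σ / R), by positivity, fun q e e0 e1 hq => ?_⟩
  rw [le_min_iff, le_div_iff₀ (by positivity), le_min_iff] at e1
  have e0' : (0 : ℝ) < e := by exact_mod_cast e0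
  have nr : ∀ a : T, (lq q e a : ℝ) = q + (a : ℚ) * e ∧ |(lq q e a : ℝ) - σ| ≤ e * R := fun a => by
    have u : |(q : ℝ) + (a : ℚ) * e - σ| ≤ e * R := by
      rw [add_sub_right_comm]
      refine (abs_add_le _ _).trans ?_
      rw [abs_mul, abs_of_pos e0']
      nlinarith [hR a a.2]
    have v : (0 : ℝ) ≤ ((q : ℚ) + a * e : ℚ) := by push_cast; linarith [abs_le.1 u]
    have w : (lq q e a : ℝ) = q + (a : ℚ) * e := by
      rw [lq, ← Rat.cast_nnratCast, Rat.coe_toNNRat _ (Rat.cast_nonneg.1 v)]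
      push_cast
      rfl
    exact ⟨w, w ▸ u⟩
  have p : 0 < θ * e := by positivity
  refine ((Whp.all fun a : T => hb (lq q e a)).and (Whp.all fun j : Fin (m + 1) × T × T =>
    hA _ j.1.is_le (lq q e j.2.1) (lq q e j.2.2) _ p)).mono ?_
  filter_upwards [G39.big_dl gc.sys.big 2 (by positivity : 0 < θ * (R + 1) * e)] with n u ω _ ⟨v, w⟩
  rw [G39.dl_inv] at u
  have m0 : (0 : ℝ) ≤ M n := Nat.cast_nonneg _
  refine sp_PD ((hc _ ℚ (fun a => a * e) (fun a => nV D _ (x n) (S (lq q e a) n) ω) la T (M n) _ rk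
    (fun a a' h => Rat.cast_injective (mul_right_cancel₀ e0'.ne' h)) u v fun j h => ?_).imp
    fun f y => ⟨y.1, fun a k => (y.2 a k).mono (v ⟨a, k⟩).nonneg (fun _ => (Real.exp_pos _).le)
      (Real.exp_le_exp.2 ?_)⟩)
  · have y := mul_le_mul_of_nonneg_right (hδ _ (by positivity) e1.2.1 _ j.1.is_le _ _
      (by rw [(nr j.2.1).1, (nr j.2.2).1]; linarith) (nr j.2.1).2 (nr j.2.2).2) m0
    rw [← abs_of_nonneg m0, ← abs_mul, abs_of_nonneg m0, (nr j.2.1).1, (nr j.2.2).1] at y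
    have z := w j
    rw [abs_le] at y z ⊢
    constructor <;> linarith [y.1, y.2, z.1, z.2]
  · nlinarith [mul_le_mul_of_nonneg_right t1 (mul_nonneg e0'.le m0)]

end Pool.Agent.MP_5168f5_an.AN.LC
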