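import Pool.Agent.MP_5168f5_an.AN.LP1

/-! The light class with one abstract extra condition: freezing is a move. -/

namespace Pool.Agent.MP_5168f5_an.AN.LP

open H19 H17S H17F R4 Filter LC
open G39 (dl ind ind_pos ind_neg ind_le)
open S20

open LCFrzFA in
/-- Freezing on one space, raw form. -/
theorem frzF {Ω ι Λ β : Type} (P : FP Ω) (I : Finset ι) (k : ι → Bool) (π : ι → Ω → Λ)
    (A₀ C₀ C₁ : Ω → Λ) (be : Ω → β) (G : Ω → Prop) {γ : ℝ} (hγ : 1 ≤ γ) (hG : 1 / 2 ≤ pb P G)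
    (hd : ∀ ω ∈ P.S, G ω → 1 ≤ γ * dn P be A₀ ω ∧ dn P be C₁ ω ≤ γ * dn P be C₀ ω)
    (hf : ∀ i ∈ I, (k i = true → Fn P A₀ (π i)) ∧
      (k i = false → Fn P C₀ (π i) ∧ Fn P (π i) C₁)) :
    ∃ z : β × (Ω → Prop), (∃ ω ∈ P.S, z.2 ω) ∧ (∀ ω, z.2 ω → G ω ∧ be ω = z.1) ∧
      ∀ i ∈ I, ∀ ω ∈ P.S, z.2 ω →
        (k i = true → 1 / (4 * (I.card + 1)) / γ ≤ pb (cv P (π i) (π i ω)) z.2) ∧
        (k i = false → 1 / (4 * (I.card + 1)) * dn P be C₀ ω ≤ pb (cv P (π i) (π i ω)) z.2 ∧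
          ∀ F : Ω → Prop, Fn P F C₁ → pb (cv P (π i) (π i ω)) (fun v => z.2 v ∧ F v) ≤
            γ * dn P be C₀ ω * pb (cv P (π i) (π i ω)) F) := by
  obtain ⟨a, ha, hm⟩ := P.S.exists_max_image (fun a => pb (cv P be (be a)) G)
    ((ex_of_pb (lt_of_lt_of_le (by norm_num) hG)).imp fun _ h => h.1)
  have h1 := hG.trans (pb_tot_le be hm)
  have h2 := pb_cv P be (be a) G
  have p0 := pb_val ha be
  obtain ⟨θ, hθ⟩ : ∃ θ : ℝ, θ = 1 / (4 * (I.card + 1)) := ⟨_, rfl⟩
  have t0 : 0 < θ := by rw [hθ]; positivity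
  have t1 : θ * (4 * (I.card + 1)) = 1 := by rw [hθ]; field_simp
  have g0 : 0 < γ := by linarith
  obtain ⟨G', s1, s2, s3⟩ := lcTrim Ω ι Λ P I π
    (fun i ω => if k i = true then θ / γ else θ * pb (cv P C₀ (C₀ ω)) fun v => be v = be a)
    (fun v => be v = be a ∧ G v) (θ * pb P fun v => be v = be a) fun i hi => by
      obtain ⟨f1, f2⟩ := hf i hi
      cases e : k i
      · simp only [Bool.false_eq_true, if_false]
        refine ⟨fun ω _ => mul_nonneg t0.le (pb_nonneg _ _), fun u hu v hv c => ?_,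
          bud C₀ _ fun ω _ => mul_le_of_le_one_left (mul_nonneg t0.le (pb_nonneg _ _)) (ind_le _)⟩
        simp only [(f2 e).1 u hu v hv c]
      · simp only [if_true]
        refine ⟨fun ω _ => by positivity, fun _ _ _ _ _ => rfl, bud A₀ _ fun ω hω => ?_⟩
        by_cases c : ∃ v ∈ P.S, (be v = be a ∧ G v) ∧ π i v = π i ω
        · rw [ind_pos c, one_mul, div_le_iff₀ g0, mul_assoc, mul_comm _ γ]
          obtain ⟨v, hv, ⟨c1, c2⟩, c3⟩ := c
          rw [← f1 e v hv ω hω c3, ← c1]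
          exact le_mul_of_one_le_right t0.le (hd v hv c2).1
        · rw [ind_neg c, zero_mul]
          exact mul_nonneg t0.le (pb_nonneg _ _)
  refine ⟨(be a, G'), ex_of_pb (lt_of_lt_of_le ?_ s2), fun ω h => (s1 ω h).symm,
    fun i hi ω hω g => ⟨fun e => ?_, fun e => ⟨?_, fun F hF => dom hω g0.le ((hf i hi).2 e).1
      ((hf i hi).2 e).2 hF fun v hv c =>
        ⟨(s1 v c).1.trans (s1 ω g).1.symm, (hd v hv (s1 v c).2).2⟩⟩⟩⟩
  · have := mul_le_mul_of_nonneg_left h1 p0.le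
    have := mul_pos t0 p0
    have : (I.card : ℝ) * θ ≤ 1 / 4 := by linarith
    nlinarith
  · simpa only [e, if_true, hθ] using s3 i hi ω hω g
  · simpa only [e, Bool.false_eq_true, if_false, ← (s1 ω g).1, hθ, dn] using s3 i hi ω hω g

variable {m : ℕ} {κ : Type} [Fintype κ] {Ω Λ β : ℕ → Type} {σ : St m κ} {S : Bool → Finset κ}
  {X : ∀ n, Dt m κ (Ω n) (Λ n)}

/-- Freezing is a move. -/
theorem LI.frz (hX : LI σ S X) (be : ∀ n, Ω n → β n) {G : ∀ n, Ω n → Prop} (hG : Whp (sP X) G)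
    (h1 : ∀ c : ℝ, 0 < c → Whp (sP X) fun n ω =>
      dl (sM X) c n ≤ dn (X n).P (be n) (sO X true 0 n) ω)
    (h2 : ∀ a (c : ℝ), 0 < c → Whp (sP X) fun n ω => dl (sM X) c n *
      dn (X n).P (be n) (sO X false a n) ω ≤ dn (X n).P (be n) (sO X false 0 n) ω) :
    ∃ (G' : ∀ n, Ω n → Prop) (j : ∀ n, Ω n → GA.Mt (Fin m)) (b : ∀ n, β n),
      (∀ᶠ n in UF, ∀ ω, G' n ω → G n ω ∧ be n ω = b n) ∧
      Mv σ X G' j fun n => dn (X n).P (be n) ((X n).O false 0) := by
  classical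
  have h := lu_iff.1 hX
  obtain ⟨f, hf⟩ := exists_surjective_nat (Bool × ℚ≥0 × ℚ≥0)
  let π : ∀ n, Bool × ℚ≥0 × ℚ≥0 → Ω n → Λ n × Λ n := fun n i ω =>
    ((X n).O i.1 i.2.1 ω, (X n).O false i.2.2 ω)
  let G₁ : ℕ → ∀ n, Ω n → Prop := fun k n ω => G n ω ∧
    dl (sM X) (1 / (k + 1)) n ≤ dn (X n).P (be n) (sO X true 0 n) ω ∧ dl (sM X) (1 / (k + 1)) n *
      dn (X n).P (be n) (sO X false k n) ω ≤ dn (X n).P (be n) (sO X false 0 n) ω
  obtain ⟨k, hk, e⟩ := KSA.spill (fun k n =>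
      (X n).IncU σ (S false) false k (1 * (X n).M) (0 * (X n).M) ∧
      ((k : ℚ≥0) : ℝ) * (X n).M ≤ (X n).lv k - (X n).lv 0 + 1 * (X n).M ∧
      pb (X n).P (fun ω => ¬G₁ k n ω) ≤ 1 / 2 ∧
      (∀ i ∈ Finset.range (k + 1), Fn (X n).P ((X n).O (f i).1 0) ((X n).O (f i).1 (f i).2.1) ∧
        ((f i).2.1 ≤ k → Fn (X n).P ((X n).O false (f i).2.1) ((X n).O false k)) ∧
        ((f i).2.2 ≤ k → Fn (X n).P ((X n).O false (f i).2.2) ((X n).O false k))) ∧
      4 * (k + 2 : ℝ) * (k + 1) ≤ (X n).M) fun k => (h.inc false k 1 one_pos 0).and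
    (((h.lv k).2 1 one_pos).and (((hG.and ((h1 _ (by positivity)).and (h2 k _ (by positivity)))) _
      one_half_pos).and (((eventually_all_finset _).2 fun i _ => (h.nest _ _ _ zero_le).and
        ((eventually_imp_distrib_left.2 (h.nest false _ _)).and
          (eventually_imp_distrib_left.2 (h.nest false _ _)))).and (h.big.ev _))))
  replace e := e.mono fun n a => a _ le_rfl
  choose r hr using fun n => ex_rep (X n).P ((X n).O false (k n))
  let j : ∀ n, Ω n → GA.Mt (Fin m) := fun n v => (X n).j (r n ((X n).O false (k n) v))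
  let I : ℕ → Finset ℕ := fun n =>
    (Finset.range (k n + 1)).filter fun i => (f i).2.1 ≤ k n ∧ (f i).2.2 ≤ k n
  have cl : Cls σ X (sP X) j := fun T => by
    filter_upwards [e, eventually_all.2 fun a => hk.ev ((T + 1) / σ.wt a + 1)] with n a b ω hω
    obtain ⟨t, t1, t2⟩ := a.1 ω hω _ (hr n ω hω).1 (hr n ω hω).2.symm
    refine ⟨t, fun i => (t1 i).trans ?_, t2⟩
    have b1 := b i
    have a2 := a.2.1
    rw [← le_sub_iff_add_le, div_le_iff₀ (h.wp i)] at b1
    have : rd σ.wt (S false) ((X n).lv (k n)) (Real.exp (-(0 * (X n).M))) i =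
        Real.exp (-(σ.wt i * (X n).lv (k n))) := by simp [rd]
    rw [this, dl, ← Real.exp_add, ← Real.exp_add]
    push_cast at a2
    have := mul_le_mul_of_nonneg_left a2 (h.wp i).le
    have := mul_le_mul_of_nonneg_right b1 (Nat.cast_nonneg (α := ℝ) (X n).M)
    exact ex_le (by simp only [sM]; linarith)
  have dd : ∀ n (A : Ω n → Λ n), dn (X n).P (be n) (fun v => (A v, A v)) = dn (X n).P (be n) A :=
    fun n A => funext fun ω => congrArg (pb · _) (cE_congr fun _ _ => by simp)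
  have key := e.mono fun n a => frzF (X n).P (I n) (fun i => (f i).1) (fun i => π n (f i))
    (fun v => ((X n).O true 0 v, (X n).O true 0 v)) (fun v => ((X n).O false 0 v, (X n).O false 0 v))
    (fun v => ((X n).O false (k n) v, (X n).O false (k n) v)) (be n) (G₁ (k n) n)
    (γ := Real.exp (1 / (k n + 1) * (X n).M)) (Real.one_le_exp (by positivity))
    (by linarith [a.2.2.1, pb_not (X n).P (G₁ (k n) n)]) (fun ω _ g => by
      rw [dd, dd, dd, ← inv_mul_le_iff₀ (Real.exp_pos _), ← inv_mul_le_iff₀ (Real.exp_pos _),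
        ← Real.exp_neg, mul_one]
      exact g.2) fun i hi => by
      obtain ⟨i1, i2, i3⟩ := Finset.mem_filter.1 hi
      obtain ⟨t1, t2, t3⟩ := a.2.2.2.1 i i1
      refine ⟨fun c u hu v hv d => ?_, fun c => ⟨fun u hu v hv d => ?_, fun u hu v hv d => ?_⟩⟩
      · have := t1 u hu v hv (Prod.mk.inj d).1
        rw [c] at this
        exact Prod.ext this this
      · have := t1 u hu v hv (Prod.mk.inj d).1
        rw [c] at this
        exact Prod.ext this this
      · have := t2 i2 u hu v hv (Prod.mk.inj d).1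
        rw [← c] at this
        exact Prod.ext this (t3 i3 u hu v hv (Prod.mk.inj d).1)
  have : ∀ n, Nonempty (β n × (Ω n → Prop)) := fun n =>
    ⟨(be n (r n ((X n).O false 0 (ex_of_pb (P := (X n).P) (E := fun _ => True)
      (by rw [pb_true]; exact one_pos)).choose)), fun _ => True)⟩
  obtain ⟨z, hz⟩ := Filter.skolem.1 key
  simp only [dd] at hz
  have mem : ∀ i, ∀ᶠ n in UF, i ∈ I n := fun i => by
    filter_upwards [hk.ev i, hk.ev (f i).2.1, hk.ev (f i).2.2] with n k1 k2 k3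
    exact Finset.mem_filter.2 ⟨Finset.mem_range.2 (Nat.lt_succ_of_le (by exact_mod_cast k1)),
      by exact_mod_cast k2, by exact_mod_cast k3⟩
  have sm : ∀ c : ℝ, 0 < c → ∀ᶠ n in UF,
      dl (sM X) c n * Real.exp (1 / (k n + 1) * (X n).M) ≤ 1 / (4 * ((I n).card + 1)) :=
    fun c hc => by
      filter_upwards [e, K31.small (half_pos hc) hk] with n q k3
      have c1 : ((I n).card : ℝ) ≤ k n + 1 := by
        exact_mod_cast (Finset.card_filter_le _ _).trans (Finset.card_range _).le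
      have c2 : 4 * (k n + 2 : ℝ) ≤ 1 / (k n + 1) * (X n).M := by
        rw [one_div, le_inv_mul_iff₀' (by positivity)]
        exact q.2.2.2.2
      have c3 := Real.add_one_le_exp (1 / (k n + 1) * (X n).M)
      have c4 := mul_le_mul_of_nonneg_right k3 (Nat.cast_nonneg (α := ℝ) (X n).M)
      have c5 : 4 * ((I n).card + 1 : ℝ) ≤ Real.exp (1 / (k n + 1) * (X n).M) := by linarith
      refine le_trans ?_ (one_div_le_one_div_of_le (by positivity) c5)
      rw [dl, ← Real.exp_add, one_div (Real.exp _), ← Real.exp_neg]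
      exact ex_le (by simp only [sM]; linarith)
  have one : ∀ n, 1 ≤ Real.exp (1 / (k n + 1) * (X n).M) := fun n =>
    Real.one_le_exp (by positivity)
  have fb : ∀ n a ω, cv (X n).P (π n (false, a, a)) (π n (false, a, a) ω) = (X n).fb false a ω :=
    fun n a ω => cE_congr fun _ _ => by simp [π]
  refine ⟨fun n => (z n).2, j, fun n => (z n).1, hz.mono fun n a ω g =>
    ⟨(a.2.1 ω g).1.1, (a.2.1 ω g).2⟩, hz.mono fun n a => a.1, cl,
    fun n ω hω => ⟨dn_pos hω _ _, dn_le_one _ _ _ _⟩, fun a a' c hc => ?_,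
    fun a c hc => ?_, fun a a' c hc => ?_⟩
  · obtain ⟨i, hi⟩ := hf (true, a, a')
    filter_upwards [hz, mem i, sm c hc] with n x y q ω hω g
    have := (x.2.2 i y ω hω g).1 (by rw [hi])
    rw [hi] at this
    exact ((le_div_iff₀ (Real.exp_pos _)).2 q).trans this
  · obtain ⟨i, hi⟩ := hf (false, a, a)
    filter_upwards [hz, mem i, sm c hc] with n x y q ω hω g
    have := ((x.2.2 i y ω hω g).2 (by rw [hi])).1
    rw [hi, fb] at this
    exact (mul_le_mul_of_nonneg_right ((le_mul_of_one_le_right (G39.dl_pos _ _ _).le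
      (one n)).trans q) (dn_pos hω _ _).le).trans this
  · obtain ⟨i, hi⟩ := hf (false, a, a)
    obtain ⟨i', hi'⟩ := hf (false, a', a')
    filter_upwards [hz, mem i, mem i', sm c hc, e] with n x y y' q s ω hω g F hF
    obtain ⟨i1, i2, -⟩ := Finset.mem_filter.1 y'
    have t := (s.2.2.2.1 i' i1).2.1 i2
    rw [hi'] at t
    have := ((x.2.2 i y ω hω g).2 (by rw [hi])).2 F fun u hu v hv d => hF u hu v hv
      (Prod.ext (by simp only [j, (Prod.mk.inj d).1]) (t u hu v hv (Prod.mk.inj d).1))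
    rw [hi, fb] at this
    refine (mul_le_mul_of_nonneg_left this (G39.dl_pos _ _ _).le).trans ?_
    rw [← mul_assoc, ← mul_assoc]
    refine mul_le_mul_of_nonneg_right (mul_le_of_le_one_left (dn_pos hω _ _).le (q.trans ?_))
      (pb_nonneg _ _)
    rw [div_le_one (by positivity)]
    linarith [Nat.cast_nonneg (α := ℝ) (I n).card]

theorem sFrz : SFrz := by
  intro m κ _ Ω Λ β _ σ S X be G hX hG h1 h2
  obtain ⟨G', j, b, a, h⟩ := hX.toLI.frz be hG h1 h2
  refine ⟨fun n => cE (X n).P (G' n), j, b, ?_,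
    fun T => (h.cls T).mono fun n a ω hω => a ω (cE_sub hω), hX.mv h⟩
  filter_upwards [a, h.sup] with n x y ω hω using ⟨((y ω).1 hω).1, x ω ((y ω).1 hω).2⟩

end Pool.Agent.MP_5168f5_an.AN.LP
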