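import Pool.Agent.MP_5168f5_an.AN.LP3
import Pool.Agent.MP_5168f5_an.AN.N6Chg
import Pool.Agent.MP_5168f5_an.AN.N3Drop
import Pool.Agent.MP_5168f5_an.AN.N3NUL
import Pool.Agent.MP_5168f5_an.AN.N3POS

/-! The light class with one abstract extra condition: change of basis and cuts. -/

namespace Pool.Agent.MP_5168f5_an.AN.LP

section

open H19 H17S H17F G39 Filter H61Z GA GF R4 LC S20
open N6 N6.N6ChgA

theorem n6Chg : CHG := by
  intro m κ _ _ Ω Λ _ σ S S' X A A' h g
  have hM := h.big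
  refine ⟨⟨h.cc, h.lo, h.lp, h.wp, g.ss, hM, h.lv, ?_, fun ε hε => ?_,
    fun k a ha b hb e he => GAChgA.term hM (ob_c h) g.ob fun a' b' e' => ?_, h.nest, h.com,
    fun k a ε hε => ?_⟩, Ex.bas σ X _ _ h.ex⟩
  · filter_upwards [h.fr, g.inv] with n fr ⟨i1, i2, _⟩
    refine ⟨((sFr _ κ σ.Φ _ _).2 _ _ i1).1 fr.1, fun a p q u => ?_, fr.2.2⟩
    obtain ⟨e, -, v⟩ := Finset.exists_ne_zero_of_sum_ne_zero
      ((N6ChgA.ent (A n) (X n).B a p q).symm.trans_ne u)
    rw [← (i2 a e (left_ne_zero_of_mul v)).1]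
    exact fr.2.1 e p q (right_ne_zero_of_mul v)
  · have o1 : ∀ a p q, OB (sM X) fun n => GA.mB (A n) (X n).B a p q := fun a p q => by
      simp only [N6ChgA.ent]
      exact ob_sum hM _ fun e _ => ob_mul hM (g.ob a e).1 (ob_B h e p q)
    have o2 : ∀ a, OB (sM X) fun n => ∑ e, |A' n e a| := fun a => ob_sum hM _ fun e _ =>
      ob_congr (g.ob e a).2 (.of_forall fun n => (abs_abs _).le)
    filter_upwards [eventually_all.2 fun a => eventually_all.2 fun p => eventually_all.2 fun q =>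
      o1 a p q ε hε, eventually_all.2 fun a => o2 a _ (half_pos hε), h.bd _ (half_pos hε), g.inv]
      with n a1 a2 a3 ⟨i1, _, _⟩
    simp only [dl_inv] at a1 a2
    refine ⟨a1, fun t a => ?_⟩
    have e1 : t a = ∑ e, Matrix.vecMul t (A n) e * A' n e a := by
      conv_lhs => rw [← Matrix.vecMul_one t, ← i1, ← Matrix.vecMul_vecMul]
      rfl
    have s0 : 0 ≤ ∑ p, ∑ q, |vec (X n).B (Matrix.vecMul t (A n)) p q| := by positivity
    rw [e1, GAFrA.vec_mB]
    refine (Finset.abs_sum_le_sum_abs _ _).trans ((Finset.sum_le_sum fun e _ =>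
      (abs_mul _ _).trans_le (mul_le_mul_of_nonneg_right (a3.2 _ e) (abs_nonneg _))).trans ?_)
    rw [← Finset.mul_sum, mul_right_comm]
    refine mul_le_mul_of_nonneg_right ((mul_le_mul_of_nonneg_left ((le_abs_self _).trans (a2 a))
      (Real.exp_pos _).le).trans (le_of_eq ?_)) s0
    rw [← Real.exp_add]
    congr 1
    ring
  · by_cases x : a' ∈ S k
    · by_cases y : b' ∈ S k
      · by_cases z : e' ∈ S k
        · exact .inr (.inr (.inr (g.col k e' e z he)))
        · exact .inl (h.sub k a' x b' y e' z)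
      · exact .inr (.inr (.inl (g.row k b b' hb y)))
    · exact .inr (.inl (g.row k a a' ha x))
  · have e3 : 0 < ε / 3 := by positivity
    filter_upwards [h.inc k a _ e3, g.inv, big_dl hM (Fintype.card κ) e3,
      eventually_all.2 fun b => eventually_all.2 fun e => (g.ob b e).2 _ e3,
      eventually_all.2 fun b => eventually_all.2 fun e => eventually_all.2 fun u =>
        eventually_all.2 fun v => g.col k b e u v (1 / ε)]
      with n a1 ⟨i1, _, i3⟩ a2 a3 a4 ω hω v hv u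
    simp only [dl_inv] at a2 a3
    have m0 : (0 : ℝ) ≤ (X n).M := Nat.cast_nonneg _
    have b1 := a1 ω hω v hv u
    rw [← ((sFr _ κ σ.Φ (X n).B (X n).c).2 _ _ i1).2.1] at b1
    obtain ⟨t, b2, b3⟩ := ((sFr _ κ σ.Φ _ (X n).c).2 _ _ (mul_eq_one_comm.1 i1)).2.2.2
      (LC.rd σ.wt (S' k) ((X n).lv a) (Real.exp (-((X n).M / ε)))) _ _ _ _ _ (Real.exp_pos _).le
      (fun b e => rad (Real.exp_pos _).le (Real.exp_le_exp.2 (neg_le_neg
        (div_le_div_of_nonneg_left m0 e3 (by linarith))))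
        (Real.exp_le_one_iff.2 (neg_nonpos.2 (by positivity))) (Real.one_le_exp (by positivity))
        (fun z => (i3 b e z).1) (a3 b e) fun x y => (a4 b e x y).trans
          (by rw [dl, one_div_mul_eq_div])) b1
    refine ⟨t, fun b => (b2 b).trans (mul_le_mul_of_nonneg_right ?_ ?_), b3⟩
    · refine (mul_le_mul_of_nonneg_right (mul_le_mul_of_nonneg_right a2 (Real.exp_pos _).le)
        (Real.exp_pos _).le).trans (le_of_eq ?_)
      rw [← Real.exp_add, ← Real.exp_add]
      congr 1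
      ring
    · unfold LC.rd
      split_ifs <;> positivity


end

section

open H19 H17S H17F R4 Filter LC G39 GA GF N6 Finset
open N3 N3.N3DropA

theorem n3Drop : OfDROP := by
  intro chg m κ _ Ω Λ _ σ S X h k f l r
  classical
  have hM := h.big
  let S1 : Bool → Finset κ := fun i => if i = false ∧ k = true then S false else S k
  have at1 : ∀ i a, ¬(i = false ∧ k = true) → FnE (sP X) (sO X k a) (sO X i a) := fun i a u => by
    cases i <;> cases k
    exacts [h.nest _ a a le_rfl, absurd ⟨rfl, rfl⟩ u, h.com a, h.nest _ a a le_rfl]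
  have sk : S k ⊆ S false := by
    cases k
    exacts [subset_rfl, h.ss]
  have f1 : ∀ i, f ∈ S1 i := fun i => by
    simp only [S1]
    split_ifs
    exacts [sk r.mem, r.mem]
  have s1 : S1 true ⊆ S1 false := by
    cases k
    · simp [S1]
    · simpa [S1] using sk
  have h1 : L σ S1 X := by
    refine ⟨⟨h.cc, h.lo, h.lp, h.wp, s1, hM, h.lv, h.fr, h.bd, fun i => ?_, h.nest, h.com,
      fun i a => ?_⟩, h.ex⟩ <;> simp only [S1] <;> split_ifs with x
    · exact h.sub false
    · exact h.sub k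
    · exact x.1 ▸ h.inc false a
    · exact fun ε hε => ((h.inc k a ε hε).and (at1 i a x)).mono fun n y ω u v w z =>
        y.1 ω u v w (y.2 ω u v w z)
  have z0 : ∀ i a e, a ∈ S1 i → e ∉ S1 i → ∀ n, (1 - cl f (l n)) a e = 0 ∧
      (1 + cl f (l n)) a e = 0 := fun i a e x y n =>
    off (fun z => y (z ▸ x)) fun z => y (z ▸ f1 i)
  have o := ob (f := f) hM r.ob
  have h2 := chg m κ Ω Λ σ S1 S1 X (fun n => 1 - cl f (l n)) (fun n => 1 + cl f (l n)) h1
    ⟨(r.fm 0).mono fun n x => ⟨inv, pat x.2.2⟩, o,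
      fun i a e x y => neg_ev (.of_forall fun n => (z0 i a e x y n).1),
      fun i a e x y => neg_ev (.of_forall fun n => (z0 i a e x y n).2), s1⟩
  refine ⟨_, ⟨h2.cc, h2.lo, h2.lp, h2.wp, ?_, h2.big, h2.lv, h2.fr, h2.bd, fun i => ?_, h2.nest,
    h2.com, fun i a => ?_⟩, h2.ex⟩
  · cases k
    · simp
    · simpa using (erase_subset f _).trans h.ss
  · have y := h2.sub i
    simp only [S1] at y ⊢
    split_ifs at y ⊢ with x
    · exact y
    intro a ha b hb e he
    by_cases c : e = f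
    swap
    · exact y a (mem_of_mem_erase ha) b (mem_of_mem_erase hb) e fun z => he (mem_erase.2 ⟨c, z⟩)
    have e1 : ∀ i, S1 i = S k → ∀ a ∈ (S k).erase f, ∀ e, e ∉ S k → ∀ n,
        (1 - cl f (l n)) a e = 0 := fun i u a v e w n =>
      (z0 i a e (u ▸ mem_of_mem_erase v) (u ▸ w) n).1
    have e2 := e1 i (if_neg x)
    refine (Neg.sum hM univ fun a' _ => Neg.sum hM univ fun b' _ => (?_ : Neg (sM X) fun n =>
      (∑ e, l n e * (X n).c a' b' e) * ((1 - cl f (l n)) a a' * (1 - cl f (l n)) b b'))).congr ?_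
    · by_cases u : a' ∈ S k
      · by_cases v : b' ∈ S k
        · exact Neg.mul (fun T => (r.fm T).mono fun n z => z.1.2 a' u b' v)
            (ob_mul hM (o a a').1 (o b b').1)
        · exact neg_ev (.of_forall fun n => by rw [e2 b hb b' v, mul_zero, mul_zero])
      · exact neg_ev (.of_forall fun n => by rw [e2 a ha a' u, zero_mul, mul_zero])
    · filter_upwards [r.fm 0] with n z
      simp only [c, mC, Matrix.vecMul, dotProduct, col z.2.1, br, sum_mul]
      rw [sum_comm]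
      refine sum_congr rfl fun a' _ => ?_
      rw [sum_comm]
      exact sum_congr rfl fun b' _ => sum_congr rfl fun e _ => by ring
  · have y := h2.inc i a
    simp only [S1] at y ⊢
    split_ifs at y ⊢ with x
    · exact y
    intro ε hε
    filter_upwards [y ε hε, at1 i a x, r.hy a (1 / ε), r.fm 0, h.fr] with n y1 y2 y3 y4 fr
      ω u v w z
    obtain ⟨t, b1, b2⟩ := y1 ω u v w z
    refine ⟨t, fun b => ?_, b2⟩
    by_cases c : b = f
    swap
    · refine (b1 b).trans (le_of_eq ?_)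
      simp [LC.rd, c]
    have q := y3 ω v ⟨u, w, y2 ω u v w z⟩
    have e1 : lg (X n).B ((X n).j ω) ((X n).j v) = Matrix.vecMul t (1 - cl f (l n)) := by
      have := ((sFr _ κ σ.Φ (X n).B (X n).c).2 _ _ (inv (f := f) (l := l n))).2.2.1 t
      rw [show (X n).j v = _ from b2, this, (sMul _ _ _ _ _ fr.1).lg _ _ (fr.2.2 ω u)]
    have e2 : ∑ b, l n b * N6.co σ (X n) a ω v b = Real.exp (σ.wt f * (X n).lv a) * t f := by
      conv_rhs => rw [← Matrix.vecMul_one t, ← inv (f := f) (l := l n), ← Matrix.vecMul_vecMul,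
        ← e1]
      simp only [Matrix.vecMul, dotProduct, col y4.2.1, mul_sum, N6.co]
      refine sum_congr rfl fun b _ => ?_
      by_cases s : σ.wt b = σ.wt f
      · rw [s]; ring
      · rw [y4.2.2 b s]; ring
    rw [e2, abs_mul, abs_of_pos (Real.exp_pos _), ← le_div_iff₀' (Real.exp_pos _), dl,
      one_div_mul_eq_div] at q
    rw [c, LC.rd, if_neg (notMem_erase f _)]
    refine q.trans (le_trans (le_of_eq ?_) (le_mul_of_one_le_left (by positivity)
      (Real.one_le_exp (by positivity))))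
    rw [Real.exp_neg (σ.wt f * _), div_eq_inv_mul]


end

section

open H19 H17S H17F R4 Filter LC N3

theorem n3NUL : OfNUL := by
  intro hR m κ _ Ω Λ _ σ S X hX L₀ h1 hb
  obtain ⟨I, i1, -, i2⟩ := C1.slow_whp (P := sP X) (fun (z : Bool × ℚ≥0 × ℚ≥0) n ω =>
    ¬Bad σ (X n) (S z.1) z.1 z.2.1 (z.2.2 * (X n).M) (z.2.2 * (X n).M / L₀) ω) (fun _ _ => True)
    (fun z => hb z.1 z.2.1 z.2.2) fun _ => Eventually.of_forall fun _ => trivial
  obtain ⟨G, g1, g2, g3, g4, -⟩ := hR m κ Ω Λ σ S X _ hX fun c hc => by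
    filter_upwards [i2 _ one_half_pos, hX.big.ev (1 / c)] with n a b
    rw [pb_not] at a
    rw [div_le_iff₀' hc] at b
    have e1 : G39.dl (sM X) c n ≤ Real.exp (-1) := ex_le (neg_le_neg b)
    have e2 : Real.exp (-1) ≤ 1 / 2 := by
      rw [Real.exp_neg, one_div]
      exact inv_anti₀ two_pos (by linarith [Real.add_one_le_exp 1])
    linarith
  refine ⟨_, g4, ac_iff.2 fun k a c hc T => ?_⟩
  obtain ⟨q, q0, q1⟩ := exists_rat_btwn (half_pos hc)
  let δ : ℚ≥0 := ⟨q, by exact_mod_cast q0.le⟩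
  have d : (δ : ℝ) = q := rfl
  filter_upwards [g2, i2 _ one_half_pos, g3 k a _ (half_pos hc), hX.big.ev 1,
    (eventually_all_finite (Set.finite_Iic ⌊T / q⌋₊)).2 fun i _ => i1 (k, a, i * δ)]
    with n x y z w s ω hω h ht l c₀ l1 l2 l3
  rw [pb_not] at y
  obtain ⟨o1, o2⟩ := (mem_cE (ex_of_pb (by linarith)) ω).1 hω
  have m0 : (0 : ℝ) < (X n).M := one_pos.trans_le w
  have L0 := one_pos.trans_le h1
  by_cases h0 : h ≤ 0
  · exact (pb_le_one _ _).trans (Real.one_le_exp (sub_nonneg.2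
      ((div_nonpos_of_nonpos_of_nonneg h0 L0.le).trans (mul_pos hc m0).le)))
  have p0 := mul_pos q0 m0
  have f1 := Nat.floor_le (div_pos (not_le.1 h0) p0).le
  have f2 := Nat.lt_floor_add_one (h / (q * (X n).M))
  rw [le_div_iff₀ p0] at f1
  rw [div_lt_iff₀ p0] at f2
  have e : ((⌊h / (q * (X n).M)⌋₊ * δ : ℚ≥0) : ℝ) * (X n).M =
      ⌊h / (q * (X n).M)⌋₊ * (q * (X n).M) := by
    push_cast
    rw [d, mul_assoc]
  have b := g1 n ω o2 _ (s _ (Nat.floor_le_floor (show h / (q * (X n).M) ≤ T / q by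
    rw [div_le_div_iff₀ p0 q0]
    nlinarith [mul_le_mul_of_nonneg_right ht q0.le])))
  rw [e] at b
  have f3 := ex_le (neg_le_neg f1)
  refine (pb_res o1 o2 (z ω o1 o2) _).trans ((mul_le_mul_of_nonneg_left ((pb_mono fun v _ u =>
    le_trans u f3).trans (not_lt.1 fun u => b ⟨ω, ⟨o1, o1, rfl⟩, l, c₀,
      ⟨l1, fun i hi j hj => (l3 i hi j hj).trans f3⟩, l2, u⟩)) (Real.exp_pos _).le).trans ?_)
  rw [← Real.exp_add]
  refine ex_le ?_
  have f4 : (h - ⌊h / (q * (X n).M)⌋₊ * (q * (X n).M)) / L₀ ≤ q * (X n).M :=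
    (div_le_self (by linarith) h1).trans (by linarith)
  rw [sub_div] at f4
  simp only [sM]
  nlinarith


end

section

open H19 H17S H17F R4 Filter LC
open G39 (dl)
open N6 (co At)
open N3

theorem n3POS : OfPOS := by
  intro res add m κ _ Ω Λ _ σ S X hX k h
  choose a η h using h
  have e0 : ∀ i, 0 < η i := fun i => pos_of_ne_zero fun e => by
    obtain ⟨n, ω, -, u, -, l, c, -, -, b⟩ := (h i).ex.exists
    rw [e, NNRat.cast_zero, zero_mul, zero_div, neg_zero, Real.exp_zero] at b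
    exact b.not_ge (pb_le_one _ _)
  have hY := fun i => (idx_all (a i) (e0 i) hX).1
  choose G l g1 g2 g3 g4 using fun i n => POSA.one σ ((X n).idx (a i) (η i)) (S k) k 0
    (η i * (X n).M) (η i * (X n).M / (i + 1))
  let T := fun n => Dt m κ (Ω n) (Λ n) × (Ω n → Prop) × (Ω n → κ → ℝ)
  let p : ℕ → ∀ n, T n → Prop := fun i n y => Fn y.1.P y.2.2 (y.1.O k 0) ∧
    (∀ ω, y.2.1 ω → Fm y.1.c (S k) (Real.exp (-(1 * y.1.M))) (y.2.2 ω) ∧ ∑ b, |y.2.2 ω b| = 1) ∧
    (∀ ω v, At y.1 k 0 ω v → y.2.1 ω → y.2.1 v →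
      |∑ b, y.2.2 ω b * co σ y.1 0 ω v b| ≤ Real.exp (-(1 / 2 * y.1.M))) ∧
    Real.exp (-(2 / (i + 1) * y.1.M)) ≤ pb y.1.P y.2.1
  obtain ⟨j, -, hj⟩ := cf_diag (K := fun i (Y : ∀ n, T n) =>
      L σ S (fun n => (Y n).1) ∧ ∀ᶠ n in UF, p i n (Y n))
    (fun i => ((sCF m κ Ω Λ σ S 1).1.comp (S' := T) fun _ y => y.1).and (cf_ev (p i)))
    (fun i n => ((X n).idx (a i) (η i), G i n, l i n)) fun i i' hi => ⟨hY i, by
      obtain ⟨c, c0, hc⟩ := h i
      filter_upwards [hc, add m κ Ω Λ σ S _ (hY i) k 0 (1 / 4) 1 (by norm_num),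
        (hY i).big.ev (4 * Real.log 3), (hY i).big.ev (1 - (i + 1) * Real.log c)] with n b ad b1 b2
      have f1 : (((X n).idx (a i) (η i)).M : ℝ) ≤ η i * (X n).M := Nat.floor_le (by positivity)
      have f2 : η i * (X n).M < (((X n).idx (a i) (η i)).M : ℝ) + 1 := Nat.lt_floor_add_one _
      have f3 := ex_le (neg_le_neg ((one_mul _).trans_le f1))
      have fm := fun ω e => (g3 i n ω e).imp_left fun u =>
        (⟨u.1, fun b x b' y => (u.2 b x b' y).trans f3⟩ : Fm _ (S k) _ (l i n ω))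
      refine ⟨g1 i n, fm, fun ω v e u w => ?_, le_trans ?_ (g2 i n)⟩
      · obtain ⟨z, z1, z2⟩ := g4 i n ω v e u w
        have z3 := ad z ω v z1 (z1.trans e) _ _ le_rfl (fun b => (Finset.single_le_sum
          (fun b _ => abs_nonneg (l i n ω b)) (Finset.mem_univ b)).trans_eq (fm ω u).2) (fm ω u).1
        rw [abs_sub_comm, dl, ← Real.exp_add] at z3
        have m0 := Nat.cast_nonneg (α := ℝ) ((X n).idx (a i) (η i)).M
        dsimp only [sM] at z3 b1 ⊢
        generalize (((X n).idx (a i) (η i)).M : ℝ) = r at *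
        have z4 : Real.exp (-(1 * r)) ≤ Real.exp (1 / 4 * r + -(1 * r)) := ex_le (by linarith)
        have z5 : 3 * Real.exp (1 / 4 * r + -(1 * r)) ≤ Real.exp (-(1 / 2 * r)) := by
          rw [← Real.exp_log (by norm_num : (0 : ℝ) < 3), ← Real.exp_add]
          exact ex_le (by linarith)
        linarith [abs_sub_abs_le_abs_sub _ _ |>.trans z3]
      · have e : a i = a i + η i * 0 := by simp
        rw [e] at b
        refine le_trans ?_ (mul_le_mul_of_nonneg_left b (Real.exp_pos _).le)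
        rw [← Real.exp_log c0, ← Real.exp_add]
        refine ex_le ((neg_le_neg (mul_le_mul_of_nonneg_right (div_le_div_of_nonneg_left
          zero_le_two (by positivity) (by exact_mod_cast Nat.succ_le_succ hi :
            (i' + 1 : ℝ) ≤ i + 1)) (Nat.cast_nonneg _))).trans ?_)
        rw [div_mul_eq_mul_div, ← neg_div, ← neg_div, div_add' _ _ _ (by positivity)]
        exact div_le_div_of_nonneg_right (by dsimp only [sM] at b2 ⊢; linarith) (by positivity)⟩
  obtain ⟨G', a1, a2, -, a3, -⟩ := res m κ Ω Λ σ S _ (fun n => G (j n) n) (hj 0).1 fun c hc => by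
    obtain ⟨i, hi⟩ := exists_nat_one_div_lt (half_pos hc)
    exact (hj i).2.mono fun n u => (ex_le (neg_le_neg (mul_le_mul_of_nonneg_right
      (by rw [div_eq_mul_one_div]; linarith) (Nat.cast_nonneg _)))).trans u.2.2.2
  have ex : ∀ᶠ n in UF, ∀ ω ∈ (cE (X n).P (G' n)).S, G (j n) n ω :=
    ((hj 0).2.and a2).mono fun n u ω hω => a1 n ω ((mem_cE (ex_of_pb (pos_of_mul_pos_right
      ((Real.exp_pos _).trans_le (u.1.2.2.2.trans u.2)) zero_le_two)) ω).1 hω).2
  exact ⟨_, fun n => l (j n) n, a3, FnE.cE ((hj 0).2.mono fun n u => u.1) G',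
    ((hj 0).2.and ex).mono fun n u ω hω => u.1.2.1 ω (u.2 ω hω),
    ((hj 0).2.and ex).mono fun n u ω v e => u.1.2.2.1 ω v ⟨cE_sub e.1, cE_sub e.2.1, e.2.2⟩
      (u.2 ω e.1) (u.2 v e.2.1)⟩


end

section

open H19 H17S H17F R4 Filter LC
open G39 (dl OB)
open GA (Mt Neg)
open N6 (co At CHG)
open S20 (dn)
open N3

theorem sCut (h1 : NUL) (h2 : POS) (h3 : WIN) (h4 : BUD) (h5 : DROP) : SCut := by
  intro m κ _ Ω Λ _ σ S X hX mn
  classical
  by_cases c : ∃ k : Bool, ∀ i : ℕ, ∃ a η : ℚ≥0, Pos (sP X) fun n ω =>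
      Bad σ (X n) (S k) k a (η * (X n).M) (η * (X n).M / (i + 1)) ω
  · obtain ⟨k, c⟩ := c
    obtain ⟨X, l, hX, r⟩ := h2 m κ Ω Λ σ S X hX k c
    obtain ⟨X, f, μ, l, hX, r⟩ := h3 m κ Ω Λ σ S X hX k l r
    obtain ⟨X, l, hX, r⟩ := h4 m κ Ω Λ σ S X hX k f μ l r
    obtain ⟨X, hX⟩ := h5 m κ Ω Λ σ S X hX k f l r
    have e := mn _ X hX
    have lt := Finset.card_erase_lt_of_mem r.mem
    cases k
    · exact absurd (by simpa using e.1) (not_le.2 lt)
    · exact absurd (by simpa using e.2) (not_le.2 lt)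
  · push Not at c
    choose i hi using c
    have one : (1 : ℝ) ≤ (i true + i false : ℕ) + 1 := by linarith [Nat.cast_nonneg (α := ℝ) (i true + i false)]
    obtain ⟨X', a⟩ := h1 m κ Ω Λ σ S X hX _ one fun k a η =>
      (S20.whp_not (hi k a η)).mono (Eventually.of_forall fun n ω _ u v => u (v.mono
        (div_le_div_of_nonneg_left (by positivity) (by positivity) (by
          cases k <;> push_cast <;> linarith [Nat.cast_nonneg (α := ℝ) (i true),
            Nat.cast_nonneg (α := ℝ) (i false)]))))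
    exact ⟨_, X', one, a⟩


end

end Pool.Agent.MP_5168f5_an.AN.LP
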