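import Pool.Agent.MP_5168f5_an.AN.LP3
import Pool.Agent.MP_5168f5_an.AN.N3WIN
import Pool.Agent.MP_5168f5_an.AN.N4L

/-! The light class with one abstract extra condition: the winning weight and independence. -/

namespace Pool.Agent.MP_5168f5_an.AN.LP

section

open H19 H17S H17F R4 Filter LC Finset
open G39 (dl)
open N6 (At gr_of atom_co)
open N3

theorem n3WIN : OfWIN := fun hR m κ _ Ω Λ _ σ S X hX k l r => by
  classical
  have : Nonempty κ := by
    by_contra c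
    rw [not_nonempty_iff] at c
    obtain ⟨n, a⟩ := r.fm.exists
    obtain ⟨ω, b⟩ := ex_pt (X n).P
    simpa using (a ω b).2
  have w0 := fun b => (hX.wp b).le
  obtain ⟨W, W1, hW⟩ : ∃ W : ℝ, 1 ≤ W ∧ ∀ b, σ.wt b ≤ W := ⟨∑ b, σ.wt b + 1,
    le_add_of_nonneg_left (sum_nonneg fun b _ => w0 b),
    fun b => (single_le_sum (fun b _ => w0 b) (mem_univ b)).trans (lt_add_one _).le⟩
  obtain ⟨ρ, ρ0, ρ1, hρ⟩ : ∃ ρ : ℝ, 0 < ρ ∧ ρ ≤ 1 ∧
      ∀ b b', σ.wt b ≠ σ.wt b' → ρ ≤ |σ.wt b - σ.wt b'| := by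
    obtain ⟨p, hp⟩ := Finite.exists_min fun p : κ × κ =>
      if σ.wt p.1 = σ.wt p.2 then 1 else |σ.wt p.1 - σ.wt p.2|
    refine ⟨_, ?_, by simpa using hp (p.1, p.1), fun b b' e => (hp (b, b')).trans_eq (if_neg e)⟩
    split_ifs with e
    exacts [one_pos, abs_pos.2 (sub_ne_zero.2 e)]
  obtain ⟨δ, δ0, hδ⟩ := ex_q (x := 1 / (8 * W * (Fintype.card (κ × κ) + 1))) (by positivity)
  have δ1 : (0 : ℝ) < δ := by exact_mod_cast δ0
  obtain ⟨e, e0, he⟩ := ex_q (x := ρ * δ / (4 * W)) (by positivity)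
  have e1 : (0 : ℝ) < e := by exact_mod_cast e0
  rw [le_div_iff₀ (by positivity)] at hδ he
  choose ι hι using fun n ω => ex_wn σ.wt (l n ω) (t := δ * (X n).M) (by positivity) hρ
  obtain ⟨⟨i, f⟩, p, p0, hp⟩ :=
    KSA.pig (sP X) (fun _ _ => True) ι ⟨1, one_pos, .of_forall fun n => (pb_true _).ge⟩
  obtain ⟨G, g1, g2, -, hL, -⟩ := hR m κ Ω Λ σ S X _ hX fun c hc =>
    ((G39.dl_lt hX.big p0 hc).and hp).mono fun n a => a.1.le.trans a.2
  have c0 : (0 : ℝ) ≤ Fintype.card (κ × κ) := Nat.cast_nonneg _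
  have i0 : (0 : ℝ) ≤ (i : ℕ) := Nat.cast_nonneg _
  have i1 : ((i : ℕ) : ℝ) ≤ Fintype.card (κ × κ) + 1 := by exact_mod_cast i.2.le
  have i2 : W * (i * δ) ≤ 1 / 8 := by nlinarith [mul_le_mul_of_nonneg_left i1 (mul_pos δ1 (one_pos.trans_le W1)).le]
  have δ2 : (δ : ℝ) ≤ 1 / 8 := by nlinarith [mul_nonneg δ1.le (mul_nonneg (zero_le_one.trans W1) c0)]
  have γ0 : 0 < ρ * δ := mul_pos ρ0 δ1
  have γ1 : ρ * δ ≤ 1 / 8 := by nlinarith
  have K1 : (1 : ℝ) ≤ 2 * Fintype.card κ := by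
    have : (1 : ℝ) ≤ Fintype.card κ := by exact_mod_cast Fintype.card_pos
    linarith
  have fl : ∀ n, ((⌊(e : ℝ) * (X n).M⌋₊ : ℕ) : ℝ) ≤ (X n).M := fun n =>
    (Nat.floor_le (by positivity)).trans (mul_le_of_le_one_left (Nat.cast_nonneg _) (by nlinarith))
  have key : ∀ᶠ n in UF, ∀ ω ∈ (cE (X n).P (G n)).S,
      Wn σ.wt (l n ω) (i * (δ * (X n).M)) (ρ * (δ * (X n).M)) f ∧
      Fm (X n).c (S k) (dl (sM X) 1 n) (l n ω) ∧ ∑ b, |l n ω b| = 1 ∧
      1 ≤ Fintype.card κ * Real.exp (W * (i * (δ * (X n).M))) * |l n ω f| := by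
    filter_upwards [hp, g2, r.fm] with n a b c ω hω
    have h1 := (mem_cE (ex_of_pb (by linarith)) ω).1 hω
    have h2 := hι n ω
    rw [(g1 n ω h1.2).2] at h2
    refine ⟨h2, (c ω h1.1).1, (c ω h1.1).2, (h2.low (by positivity) (by positivity) hW
      (c ω h1.1).2).trans (mul_le_mul_of_nonneg_left (mul_le_of_le_one_right (abs_nonneg _)
        (Real.exp_le_one_iff.2 (neg_nonpos.2 (mul_nonneg (w0 f) (by positivity))))) (by positivity))⟩
  have nz : ∀ {K y : ℝ}, 1 ≤ K * |y| → y ≠ 0 := fun a z => by simp [z] at a; linarith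
  refine ⟨fun n => ((X n).chg (cE (X n).P (G n)) (X n).j).idx (i * δ) e, f, ρ * δ / 4,
    fun n ω => pt σ.wt (l n ω) f, (idx_all _ e0 hL).1, by positivity, ?_, ?_, ?_,
    fun c hc => key.mono fun n a ω hω b => ((a ω hω).1.pt_le b).trans
      (Real.one_le_exp (by positivity)), fun a a1 => ?_⟩
  · obtain ⟨n, a⟩ := key.exists
    obtain ⟨ω, b⟩ := ex_pt (cE (X n).P (G n))
    exact by_contra fun z => nz (a ω b).2.2.2 ((a ω b).2.1.1 f z)
  · have h1 : FnE (sP X) l (sO X true (i * δ + e * 0)) := by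
      have := r.fn.trans (hX.nest k 0 (i * δ + e * 0) zero_le)
      cases k
      exacts [this.trans (hX.com _), this]
    exact (h1.cE G).mono fun n a u hu v hv z => congrArg (pt σ.wt · f) (a u hu v hv z)
  · filter_upwards [key, hX.fr, (hX.big.sub K1).2 _ (show 0 < ρ * δ / 4 by positivity)]
      with n a b c ω hω
    obtain ⟨-, h2, -, h4⟩ := a ω hω
    have m0 : (0 : ℝ) ≤ (X n).M := Nat.cast_nonneg _
    refine ⟨⟨fun y hy => by simp [pt, h2.1 y hy], fun y hy z hz => ?_⟩, by simp [pt, nz h4],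
      fun y hy => if_neg hy⟩
    have h5 := (pt_br (nz h4) ((gr_of b).hc y z)).trans (h2.2 y hy z hz)
    refine (le_mul_of_one_le_left (abs_nonneg _) h4).trans (((mul_assoc _ _ _).trans_le
      (mul_le_mul_of_nonneg_left h5 (by positivity))).trans (le_trans ?_
      (num (u := W * (i * (δ * (X n).M))) (w := -(1 * (X n).M)) (v := -(ρ * δ / 2 * (X n).M))
        (Nat.cast_nonneg _) le_rfl (fl n) γ0.le (by rwa [mul_one]) (by nlinarith) le_rfl)))
    rw [mul_assoc]
    exact mul_le_mul_of_nonneg_left (le_add_of_nonneg_right (by positivity)) (Nat.cast_nonneg _)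
  · obtain ⟨L, hL', h⟩ := atom_co hX.big hX.fr hX.lo (hX.inc k (i * δ + e * a))
    have a2 : (a : ℝ) ≤ 1 := by exact_mod_cast a1
    have a0 : (0 : ℝ) ≤ a := by positivity
    filter_upwards [key, h 0, r.hy, hX.nest k 0 (i * δ + e * a) zero_le,
      (hX.lv (i * δ + e * a)).1 e e1, (hX.lv (i * δ + e * a)).2 e e1,
      (hL'.const_mul hX.big K1).2 _ (show 0 < ρ * δ / 4 by positivity)]
      with n b c d y z z' w ω v x
    have x1 : At (X n) k (i * δ + e * a) ω v := ⟨cE_sub x.1, cE_sub x.2.1, x.2.2⟩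
    have m0 : (0 : ℝ) ≤ (X n).M := Nat.cast_nonneg _
    have m1 := mul_nonneg e1.le m0
    push_cast at z z'
    refine ((b ω x.1).1.hy (Δ := (X n).lv (i * δ + e * a) - (X n).lv 0) (r := 2 * e * (X n).M)
      (θ := Real.exp (-(1 / 2 * (X n).M))) (by positivity) (by positivity) w0 hW (b ω x.1).2.2.1
      (abs_le.2 ⟨by nlinarith, by nlinarith⟩) (c ω v x1).2.2.1 (le_trans (le_of_eq ?_)
        (d ω v ⟨x1.1, x1.2.1, y ω x1.1 v x1.2.1 x1.2.2⟩))).trans
      (num (Nat.cast_nonneg _) (hL'.1 n) (fl n) γ0.le w (by nlinarith) (by nlinarith))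
    refine congrArg _ (sum_congr rfl fun t _ => ?_)
    rw [N6.co, N6.co, ← mul_assoc (Real.exp _), ← Real.exp_add]
    congr 3
    ring


end

section

open H19 H17S H17F G39 Filter GA R4 LC Finset N4
open N6 (At co_mul atom_co)

variable {κ : Type} [Fintype κ]

/-- Inside an atom the coordinates in `S k` multiply by the law of the subalgebra. -/
theorem stepL {m : ℕ} {Ω Λ : ℕ → Type} [Ex m κ Ω Λ] {σ : LC.St m κ} {S : Bool → Finset κ}
    {X : ∀ n, Dt m κ (Ω n) (Λ n)} (h : L σ S X) (k : Bool) [Fintype {b // b ∈ S k}] (a : ℚ≥0)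
    (K : ℝ) : ∀ᶠ n in UF, ∀ u v w, At (X n) k a u v → At (X n) k a v w → ∀ e : {b // b ∈ S k},
      |N6.co σ (X n) a u w e.1 - bch σ.Φ.N (fun x y z : {b // b ∈ S k} => (X n).c x.1 y.1 z.1)
        (fun x => N6.co σ (X n) a u v x.1) (fun x => N6.co σ (X n) a v w x.1) e| ≤
        dl (sM X) K n := by
  obtain ⟨L, hL, co⟩ := atom_co h.big h.fr h.lo (h.inc k a)
  have : ∀ n, Nonempty (Ω n) := fun n => (ex_of_pb (P := (X n).P) (E := fun _ => True)
    (by rw [pb_true]; exact one_pos)).elim fun ω _ => ⟨ω⟩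
  have g : ∀ u v : ∀ n, Ω n, (∀ᶠ n in UF, At (X n) k a (u n) (v n)) → ∀ b,
      OB (sM X) (fun n => N6.co σ (X n) a (u n) (v n) b) ∧
        (b ∉ S k → Neg (sM X) fun n => N6.co σ (X n) a (u n) (v n) b) := fun u v z b =>
    ⟨fun c hc => by
      filter_upwards [z, co 0, sub_dl hL hc] with n z y x using ((y _ _ z).2.2.1 b).trans x,
      fun i T => (z.and (co T)).mono fun n y => (y.2 _ _ y.1).2.2.2 b i⟩
  simp only [← and_imp, ← Prod.forall']
  refine unif fun x z => ?_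
  filter_upwards [eventually_all.2 fun e => res h.big σ.Φ.N (S k) (c := fun a b e n => (X n).c a b e)
    (ob_c h) (h.sub k) (g _ _ (z.mono fun _ y => y.1)) (g _ _ (z.mono fun _ y => y.2)) e K, z, co 0,
    h.fr] with n y z p q e
  rw [co_mul q z.1.1 (p _ _ z.1).1 (p _ _ z.2).1]
  exact y e


end

section

open H19 H17S H17F G39 Filter GA R4 LC N6 MvPolynomial
open Pk (cn)
open N4

variable {m : ℕ} {κ : Type} [Fintype κ] {Ω Λ : ℕ → Type} [Ex m κ Ω Λ]

variable {σ : St m κ} {S : Bool → Finset κ} {X : ∀ n, Dt m κ (Ω n) (Λ n)} {k : Bool}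
  {r : ℚ≥0 → ∀ n, Λ n → Ω n}

theorem fil_dat (h : L σ S X) (hs : StepL σ S X) (hr : ∀ a, Rp X k a (r a)) :
    Fil (dat σ (S k) X k r) fun b => σ.wt b.1 := by
  refine ⟨h.big, fun a b h0 hab => ?_, fun _ _ _ _ => trivial, h.fr.mono fun n f => lw_mp _
    (fun a b e => (sMul _ _ _ _ _ f.1).anti _ _ _) fun a b e => (gr_of f).hc _ _ _,
    ob_mp h.big _ fun a b e => ob_c h _ _ _, fun (x : ℚ≥0) (s : ℚ≥0) _ _ => Le.of_ev
      ((h.nest k x (x + s) le_self_add).mono fun n f => (ch_zero f).le), ?_⟩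
  · obtain ⟨q, q1, q2⟩ := exists_rat_btwn hab
    have q0 : 0 ≤ q := by exact_mod_cast (h0.trans q1).le
    have e : (((⟨q, q0⟩ : ℚ≥0) : ℚ≥0) : ℝ) = q := (Rat.cast_nnratCast _).symm
    exact ⟨⟨q, q0⟩, q1.trans_eq e.symm, e.trans_lt q2⟩
  intro (x : ℚ≥0) (s : ℚ≥0) _ (s0 : (0 : ℝ) < s) θ K hθ
  refine ⟨fun n => (X n).lv (x + s) - (X n).lv x,
    fun n z z' b => co σ (X n) x (r x n z) (r (x + s) n z') b.1, ?_, Whp.of_ev ?_⟩
  · have e : 0 < (s : ℝ) / 4 := by positivity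
    filter_upwards [(h.lv x).1 _ e, (h.lv x).2 _ e, (h.lv (x + s)).1 _ e, (h.lv (x + s)).2 _ e]
      with n a b c d
    rw [NNRat.cast_add] at c d
    exact ⟨show (s : ℝ) / 2 * (X n).M ≤ _ by linarith, show _ ≤ 3 * (s : ℝ) / 2 * (X n).M by linarith⟩
  · obtain ⟨L1, s1, b1⟩ := atom_co h.big h.fr h.lo (h.inc k x)
    obtain ⟨L2, s2, b2⟩ := atom_co h.big h.fr h.lo (h.inc k (x + s))
    filter_upwards [b1 0, b2 0, sub_dl s1 hθ, sub_dl s2 hθ, hr x, hr (x + s), hs k x K,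
      h.nest k x (x + s) le_self_add] with n b1 b2 c1 c2 r1 r2 st ne ω hω e
    have a1 : At (X n) k x (r x n ((X n).O k x ω)) ω := ⟨(r1 ω hω).1, hω, (r1 ω hω).2⟩
    have a2 : At (X n) k (x + s) (r (x + s) n ((X n).O k (x + s) ω)) ω :=
      ⟨(r2 ω hω).1, hω, (r2 ω hω).2⟩
    have a3 : At (X n) k x (r (x + s) n ((X n).O k (x + s) ω)) ω :=
      ⟨a2.1, hω, ne _ a2.1 _ hω a2.2.2⟩
    refine ⟨⟨((b1 _ _ a1).2.2.1 _).trans c1, ((b1 _ _ (a1.trans a3.symm)).2.2.1 _).trans c1,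
      ((b2 _ _ a2).2.2.1 _).trans c2⟩, le_trans (le_of_eq ?_) (st _ _ _ (a1.trans a3.symm) a3 e)⟩
    simp only [dat, eval_mp]
    congr 3
    funext b
    simp only [N6.co]
    rw [← mul_assoc, ← Real.exp_add]
    congr 2
    ring

open Classical in
theorem ac1_dat {L₀ : ℝ} (h0 : 1 ≤ L₀) (h : L σ S X) (hA : LC.AC σ S L₀ X)
    (hr : ∀ a, Rp X k a (r a)) : AC1 (dat σ (S k) X k r) (2 * L₀) := by
  intro (x : ℚ≥0) η ρ ε _ hη hρ hε
  have p0 : 0 < min (1 / η) (η / (2 * L₀)) := by positivity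
  filter_upwards [hA k x _ p0, hr x, h.big.ev (2 * L₀ * lg / (η * ε) + 1)] with n a1 r1 b1
  intro (W : Type) Q (π : W → Ω n) β hL hI
  have lg0 : 0 < lg := Real.log_pos one_lt_two
  have m0 : (0 : ℝ) < (X n).M := lt_of_lt_of_le (by positivity) b1
  have sx : ∀ (u : {b // b ∈ S k} → ℝ) (F : κ → ℝ → ℝ), (∀ b, F b 0 = 0) →
      ∑ b, F b (if e : b ∈ S k then u ⟨b, e⟩ else 0) = ∑ b : {b // b ∈ S k}, F b.1 (u b) :=
    fun u F F0 => by
      rw [← Finset.sum_subset (Finset.subset_univ (S k)) fun b _ hb => by rw [dif_neg hb, F0],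
        ← Finset.sum_coe_sort (S k)]
      exact Finset.sum_congr rfl fun b _ => by rw [dif_pos b.2]
  have key := TG.atom Q π β (fun v => (X n).O k x (π v)) (fun g ω =>
    L1 ((dat σ (S k) X k r).c n) (dl (sM X) η n) g ((dat σ (S k) X k r).t x n ω))
    (η * (X n).M / (2 * L₀)) fun v hv => by
      have hω := hL.mem hv
      obtain ⟨w1, w2⟩ := r1 _ hω
      refine ((KEA.law Q (X n).P π id (fun ω => (X n).O k x ω = (X n).O k x (π v)) hL).pb_eq
        fun ω => L1 ((dat σ (S k) X k r).c n) (dl (sM X) η n) (β v)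
          ((dat σ (S k) X k r).t x n ω)).trans_le ?_
      by_cases g : ‖(β v).1‖ = 1 ∧ ∀ a b : {b // b ∈ S k},
          |∑ e : {b // b ∈ S k}, (X n).c a.1 b.1 e.1 * (β v).1 e| ≤ dl (sM X) η n
      swap
      · exact (pb_zero fun u _ e => g ⟨e.1, e.2.1⟩).le.trans (Real.exp_pos _).le
      set s := ∑ b, |(β v).1 b| with hs
      have s1 : 1 ≤ s := g.1.symm.le.trans ((pi_norm_le_iff_of_nonneg
        (Finset.sum_nonneg fun b _ => abs_nonneg _)).2 fun b =>
          Finset.single_le_sum (f := fun b => |(β v).1 b|) (fun _ _ => abs_nonneg _) (Finset.mem_univ b))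
      have s0 : 0 < s := by linarith
      have dv : ∀ z : ℝ, |z| ≤ dl (sM X) η n → |z / s| ≤ Real.exp (-(η * (X n).M)) := fun z hz => by
        rw [abs_div, abs_of_pos s0]
        exact (div_le_self (abs_nonneg _) s1).trans hz
      have k1 := a1 _ w1 (η * (X n).M) (by
          rw [le_div_iff₀ p0]
          have := mul_le_mul_of_nonneg_left (min_le_left (1 / η) (η / (2 * L₀)))
            (by positivity : 0 ≤ η * (X n).M)
          rwa [show η * (X n).M * (1 / η) = (X n).M by field_simp] at this)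
        (fun b => if e : b ∈ S k then (β v).1 ⟨b, e⟩ / s else 0) ((β v).2 / s)
        (fun b hb => dif_neg hb) (by
          rw [sx (fun b => (β v).1 b / s) (fun _ y => |y|) fun _ => abs_zero]
          simp only [abs_div, abs_of_pos s0]
          rw [← Finset.sum_div, div_self s0.ne'])
        fun b hb b' hb' => by
          rw [sx (fun b => (β v).1 b / s) (fun e y => y * (X n).c b b' e) fun _ => zero_mul _]
          refine le_trans (le_of_eq ?_) (dv _ (g.2 ⟨b, hb⟩ ⟨b', hb'⟩))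
          rw [Finset.sum_div]
          exact congrArg _ (Finset.sum_congr rfl fun e _ => by ring)
      rw [Dt.fb, w2] at k1
      refine (pb_mono fun u hu e => ?_).trans (k1.trans (Real.exp_le_exp.2 ?_))
      · have e1 : (X n).O k x u = (X n).O k x (π v) := ((S20.mem_cv hω u).1 hu).2
        have e2 := dv _ e.2.2
        rw [sx (fun b => (β v).1 b / s) (fun b y => y * (Real.exp (σ.wt b * (X n).lv x) *
          lg (X n).B ((X n).j (r x n ((X n).O k x (π v)))) ((X n).j u) b)) fun _ => zero_mul _]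
        refine le_trans (le_of_eq ?_) e2
        simp only [dat, id, N6.co, e1, sub_div, Finset.sum_div]
        exact congrArg (fun y => |y - _|) (Finset.sum_congr rfl fun e _ => by ring)
      · have := mul_le_mul_of_nonneg_right (min_le_right (1 / η) (η / (2 * L₀))) m0.le
        have e : η * (X n).M / L₀ = 2 * (η * (X n).M / (2 * L₀)) := by field_simp
        have e' : η / (2 * L₀) * (X n).M = η * (X n).M / (2 * L₀) := by ring
        linarith
  have k2 := key.trans (add_le_add hI le_rfl)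
  rw [← le_div_iff₀' (by positivity)] at k2
  refine k2.trans ?_
  rw [div_le_iff₀ (by positivity)]
  have k3 : 2 * L₀ * H17S.lg ≤ (X n).M * (η * ε) := (div_le_iff₀ (by positivity)).1 (by linarith)
  have k4 : (2 * L₀ * ρ / η + ε) * (η * (X n).M / (2 * L₀)) =
      ρ * (X n).M + (X n).M * (η * ε) / (2 * L₀) := by field_simp
  have k5 : H17S.lg ≤ (X n).M * (η * ε) / (2 * L₀) := by rw [le_div_iff₀ (by positivity)]; linarith
  exact (add_le_add le_rfl k5).trans k4.symm.le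

theorem ind_of {L₀ : ℝ} (h0 : 1 ≤ L₀) (h : L σ S X) (hA : LC.AC σ S L₀ X) (hs : StepL σ S X) :
    IND σ S X := by
  classical
  intro k a E η r0 F hη hr0 hF ε hε
  choose r1 hr1 using ex_rp X k
  have hr : ∀ x, Rp X k x ((fun x => if x = a then r0 else r1 x) x) := fun x => by
    by_cases e : x = a
    · simpa [e] using hr0
    · simpa [e] using hr1 x
  obtain ⟨C, hC, k1⟩ := n4 (la := fun b : {b // b ∈ S k} => σ.wt b.1) (fun b => h.wp b.1) E
    (by linarith : 0 ≤ 2 * L₀)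
  filter_upwards [k1 _ (fil_dat h hs hr) (ac1_dat h0 h hA hr) a η (ε / 2 * η / (C + 1)) (ε / 2)
    trivial hη (by positivity) (by positivity)] with n k2
  have k3 := k2 (Ω n) (X n).P id (fun ω => F n ((X n).O k a ω)) (Law.rfl _) ((mi_le _ _ _).trans
    ((ch_zero fun u _ v _ e => congrArg (F n) e).le.trans (by positivity)))
  refine (pb_mono fun ω _ e => ?_).trans (k3.trans ?_)
  · exact ⟨hF _ _, by simpa [dat] using e⟩
  · have : C * (ε / 2 * η / (C + 1)) / η = ε / 2 * (C / (C + 1)) := by field_simp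
    have k4 : C / (C + 1) ≤ 1 := div_le_one_of_le₀ (by linarith) (by linarith)
    nlinarith

/-- Polynomial independence in the light class. -/
theorem sInd : SInd := fun _ _ _ _ _ _ _ _ _ _ h0 h hA =>
  ind_of h0 h hA fun k a K => stepL h k a K


end

end Pool.Agent.MP_5168f5_an.AN.LP
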