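import Pool.Agent.MP_5168f5_an.AN.LP3
import Pool.Agent.MP_5168f5_an.AN.N6Cha
import Pool.Agent.MP_5168f5_an.AN.N6Prep
import Pool.Agent.MP_5168f5_an.AN.N6Res
import Pool.Agent.MP_5168f5_an.AN.N6Alg

/-! The light class with one abstract extra condition: the adapted basis. -/

namespace Pool.Agent.MP_5168f5_an.AN.LP

section

open H17F hiding co
open H19 H17S G39 Filter H61Z GA GF R4 LC S20 Finset
open N6 N6.N6ChaA

theorem n6Cha : CHA := by
  intro m κ _ _ Ω Λ _ σ S S' X A A' L₀ h g one ac k a ε hε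
  have hM := h.big
  have oc : ∀ a b e, OB (sM X) fun n => mC (A n) (A' n) (X n).c a b e := fun a b e => by
    simp only [mC, Matrix.vecMul, dotProduct, br]
    exact ob_sum hM _ fun f _ => ob_mul hM (ob_sum hM _ fun x _ => ob_sum hM _ fun y _ =>
      ob_mul hM (ob_mul hM (ob_c h x y f) (g.ob a x).1) (g.ob b y).1) (g.ob f e).2
  have d0 : 0 < ε / 10 := by positivity
  obtain ⟨Lx, -, at'⟩ := atom_co hM h.fr h.lo (h.inc k a)
  have im : ∀ {p q : Prop} {f : ℕ → ℝ}, (p → q → Neg (sM X) f) →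
      ∀ᶠ n in UF, p → q → |f n| ≤ dl (sM X) (1 / ε + ε) n := fun {p q f} z =>
    eventually_imp_distrib_left.2 fun u => eventually_imp_distrib_left.2 fun v => z u v _
  filter_upwards [ac k a _ (half_pos hε), at' (1 / ε + ε), h.fr, g.inv,
    big_dl hM (4 * (Fintype.card κ + 1) ^ 4) d0, big_dl hM 1 d0,
    eventually_all.2 fun a => eventually_all.2 fun e =>
      ((g.ob a e).1 _ d0).and ((g.ob a e).2 _ d0),
    eventually_all.2 fun a => eventually_all.2 fun b => eventually_all.2 fun e => oc a b e _ d0,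
    eventually_all.2 fun a => eventually_all.2 fun e => im (g.row k a e),
    eventually_all.2 fun a => eventually_all.2 fun e => im (g.col k a e),
    eventually_all.2 fun a => eventually_all.2 fun b => eventually_all.2 fun e =>
      eventually_imp_distrib_left.2 fun u => im fun v w => h.sub k a u b v e w]
    with n x1 x2 x3 x4 x5 x6 x7 x8 x9 y1 y2 ω hω t ht l' c₀ l0 l1 lk
  have m0 : (0 : ℝ) ≤ (X n).M := Nat.cast_nonneg _
  have em := mul_nonneg hε.le m0
  have ht' : t ≤ (X n).M / ε := ht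
  have e1 : (1 / ε + ε) * (X n).M = (X n).M / ε + ε * (X n).M := by ring
  have e2 : (X n).M / (ε / 2) = 2 * ((X n).M / ε) := by field_simp
  have e3 : 0 ≤ (X n).M / ε := by positivity
  obtain ⟨l, c₁, a1, a2, a3, a4⟩ := det (E := Real.exp (ε / 2 * (X n).M)) x4.1 x6 (dl_pos _ _ _).le
    (Real.exp_le_exp.2 (by rw [e1]; linarith)) (by
      rw [dl, ← Real.exp_add, Real.exp_le_one_iff, e1]; linarith) (by
      rw [mul_pow, ← mul_assoc]
      refine (mul_le_mul_of_nonneg_right x5 (by positivity)).trans (le_of_eq ?_)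
      rw [← pow_succ', dl_inv, ← Real.exp_nat_mul]; congr 1; push_cast; ring)
    x7 x8 x9 y1 y2 l0 l1 lk c₀
  rw [← Real.exp_add, show ε / 2 * (X n).M + -t = -(t - ε / 2 * (X n).M) by ring] at a3 a4
  refine le_trans (H17F.pb_mono fun v hv u => ?_) ((x1 ω hω (t - ε / 2 * (X n).M)
    (by rw [e2]; linarith) l c₁ a1 a2 a3).trans (Real.exp_le_exp.2 ?_))
  · obtain ⟨b1, -, -, b2⟩ := x2 ω v ((mem_fb hω).1 hv)
    refine a4 (co σ (X n) a ω v) b2 (le_of_eq_of_le ?_ u)
    obtain ⟨f1, -, f2, -⟩ := (sFr _ κ σ.Φ (X n).B (X n).c).2 _ _ x4.1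
    unfold co at b1
    rw [ex_Bl] at b1
    have b3 : lg (mB (A n) (X n).B) ((X n).j ω) ((X n).j v) =
        Matrix.vecMul (lg (X n).B ((X n).j ω) ((X n).j v)) (A' n) := by
      refine Eq.trans ?_ ((sMul _ _ _ _ _ (f1 x3.1)).lg _ _ (x3.2.2 ω hω))
      rw [f2, Matrix.vecMul_vecMul, mul_eq_one_comm.1 x4.1, Matrix.vecMul_one, ← b1]
    congr 2
    refine sum_congr rfl fun b _ => congrArg _ ?_
    simp only [b3, Matrix.vecMul, dotProduct, co, mul_sum]
    refine sum_congr rfl fun e _ => ?_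
    by_cases z : A' n e b = 0
    · simp [z]
    · rw [(x4.2.2 e b z).1, mul_assoc]
  · have := div_le_self (show 0 ≤ ε / 2 * (X n).M by positivity) one
    rw [sub_div]
    show _ ≤ ε * (X n).M - t / L₀
    linarith


end

section

open H17F hiding co
open H19 H17S G39 Filter H61Z GA GF R4 LC S20 MvPolynomial
open Pk (cn)
open N6

theorem n6Prep : OfPREP := by
  intro hO hZ hC hA m κ _ _ Ω Λ _ σ S X L₀ h1 h ac
  obtain ⟨A, A', t, pos, Lm, i1, i2, ad, s1, s2⟩ := hO κ m (sM X) σ.Φ σ.la σ.o σ.wt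
    (fun n => (X n).B) (fun n => (X n).c) (fun i a => a ∈ S i) h.big h.wp
    (h.fr.mono fun n z => ⟨z.1, gr_of z⟩) (ob_B h) (ob_c h) (fun a k => h.ss k)
    fun i a b e x y z => (h.sub i a x b y e z).os
  have hg : ∀ e, ∃ lam : ℕ → κ → κ → ℝ, (∀ a b, OB (sM X) fun n => lam n a b) ∧ (0 < t e →
      t e < σ.wt e → ∀ e', OS (sM X) fun n => ∑ a, ∑ b, lam n a b *
        cg (mC (A n) (A' n) (X n).c) t a b e' - if e' = e then 1 else 0) := fun e => by
    by_cases k : 0 < t e ∧ t e < σ.wt e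
    · exact (ad.gen e k.1 k.2).imp fun _ k => ⟨k.1, fun _ _ => k.2⟩
    · exact ⟨0, fun _ _ => ob_const h.big 0, fun k1 k2 => absurd ⟨k1, k2⟩ k⟩
  choose lam l1 l2 using hg
  obtain ⟨L, hL, hb⟩ := ob_bound h.big (J := (κ × κ) ⊕ (κ × κ) ⊕ (κ × Fin m) ⊕ κ × κ × κ)
    (f := fun j n => j.elim (fun x => A n x.1 x.2) (Sum.elim (fun x => A' n x.1 x.2)
      (Sum.elim (fun x => Lm n x.1 x.2) fun x => lam x.1 n x.2.1 x.2.2))) fun j => by
    rcases j with x | x | x | x
    exacts [(i2 _ _).1, (i2 _ _).2, ad.ob _ _, l1 _ _ _]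
  obtain ⟨e, z1, z2, z3, z4⟩ := hZ m κ Ω Λ σ S X _ L₀ h hL.log
  have ob := fun j => GO.GOv2A.ob hL z4 (.of_forall fun n => hb n j)
  have ng : ∀ {u : ℕ → ℝ}, OS (sM X) u → Neg (sM fun n => (X n).idx 0 (e n)) u :=
    fun k => neg_of_os k z3
  obtain ⟨S', st, sf⟩ : ∃ S' : Bool → Finset κ, (∀ a, a ∈ S' true ↔ t a = σ.wt a) ∧
      ∀ a, a ∈ S' false ↔ 0 ≤ t a :=
    ⟨fun k => bif k then Finset.univ.filter fun a => t a = σ.wt a else
      Finset.univ.filter fun a => 0 ≤ t a, fun a => by simp, fun a => by simp⟩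
  have ch : Chg σ (sM fun n => (X n).idx 0 (e n)) S S' A A' := by
    refine ⟨i1, fun a b => ⟨ob (.inl (a, b)), ob (.inr (.inl (a, b)))⟩, fun k a b x y => ng ?_,
      fun k b a x y => ng ?_, fun a x => (sf a).2 (((st a).1 x).ge.trans' (h.wp a).le)⟩
    · cases k
      exacts [s2.row a b ((sf a).1 x) y, s1.row a b ((st a).1 x) y]
    · cases k
      exacts [s2.col b a x (mt (sf a).2 y), s1.col b a x (mt (st a).2 y)]
  exact ⟨S', t, pos, Lm, _, hC m κ Ω Λ σ S S' _ A A' z1 ch,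
    hA m κ Ω Λ σ S S' _ A A' L₀ z1 ch h1 (z2 ac), h1, st, sf, ad.le, ad.live,
    fun a b c x y z => ng (ad.fil a b c x y z), fun a b c x y z u v => ng (ad.sub a b c x y z u v),
    fun c x y => ⟨lam c, fun a b => ob (.inr (.inr (.inr (c, a, b)))), fun d => ng (l2 c x y d)⟩,
    fun a p x y => ng (ad.stab a p x y), fun a p => ob (.inr (.inr (.inl (a, p)))), ad.li⟩


end

section

open H17F hiding co
open H19 H17S G39 Filter H61Z GA GF R4 LC S20 MvPolynomial
open N6 N6.N6ResA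

theorem n6Res : RESC := by
  intro m κ _ _ Ω Λ _ σ S L₀ t pos Lm X h hI
  have l := h.l
  have hS : ∀ k, ∀ b ∈ S k, 0 ≤ t b := fun k b hb => (h.sf b).1 (by
    cases k
    exacts [hb, l.ss hb])
  obtain ⟨T, hT, H⟩ := TG.tgDg (Bool × ℚ≥0) (fun i K n =>
    (X n).Inc σ (S i.1) i.1 i.2 (1 / (2 * K + 1)) ∧ ∀ a b e, 0 ≤ t a → 0 ≤ t b → t e < 0 →
      |(X n).c a b e| ≤ dl (sM X) (2 * K) n) fun i => .of_forall fun K =>
    (l.inc i.1 i.2 _ (by positivity)).and (eventually_all.2 fun a => eventually_all.2 fun b =>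
      eventually_all.2 fun e => eventually_imp_distrib_left.2 fun ha =>
        eventually_imp_distrib_left.2 fun hb => eventually_imp_distrib_left.2 fun he =>
          h.ad.fil a b e ha hb (by linarith) _)
  have x0 : ∀ n, (0 : ℝ) ≤ T n * (X n).M := fun n => by positivity
  have hN := neg_exp (M := sM X) hT
  have out : ∀ a b e, 0 ≤ t a → 0 ≤ t b → t e < 0 →
      Neg (sM X) fun n => sC (rho t (T n * (X n).M)) (X n).c a b e := fun a b e ha hb he =>
    hN.mono ((H (true, 0)).mono fun n z => sC_out ha hb he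
      ((z.2 a b e ha hb he).trans (le_of_eq (by rw [dl, mul_assoc]))))
  refine ⟨fun n => nw t (T n * (X n).M) (X n), l.cc, l.lo, l.wp, l.big, l.lv,
    l.fr.mono fun n z => fr_nw z, fun a p q => ?_, fun a b e => ?_, l.nest, l.com,
    fun k a ε hε => ?_, Ex.bas σ X _ _ l.ex, fun k a ε hε => ?_, h.one, h.st, h.sf,
    ⟨h.ad.le, h.ad.live, fun a b e ha hb he => ?_, fun a b e ha hb u v w => ?_, fun e u v => ?_,
      fun a p ha hp => ?_, h.ad.ob, h.ad.li.mono fun n z => ⟨z.sup, fun a b ha hb => ?_⟩⟩,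
    fun k a E η r F hη hr hF => ?_, fun a b e u v => ?_, fun a p hp => ?_⟩
  · refine ob_congr (ob_B l a p q) (.of_forall fun n => ?_)
    show |rho t _ a * _| ≤ _
    rw [abs_mul, abs_of_pos (rho_pos _ _ _)]
    exact mul_le_of_le_one_left (abs_nonneg _) (rho_le (x0 n) a)
  · by_cases z : (t a < 0 ∨ t b < 0) ∨ 0 ≤ t e
    · exact ob_congr (ob_c l a b e) (.of_forall fun n => sC_le (x0 n) z)
    · push Not at z
      exact (out a b e z.1.1 z.1.2 z.2).ob
  · filter_upwards [H (k, a),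
      ((tendsto_natCast_atTop_atTop (R := ℝ)).comp hT).eventually_ge_atTop (1 / ε)] with n u v
    exact inc_nw (hS k) hε v u.1
  · filter_upwards [H (k, a), l.fr, h.ac k a ε hε] with n u v w
    exact ac_nw (hS k) v u.1 w
  · rcases le_or_gt 0 (t e) with z | z
    · exact (h.ad.fil a b e ha hb he).congr (.of_forall fun n => sC_al ha hb z)
    · exact out a b e ha hb z
  · exact (h.ad.sub a b e ha hb u v w).congr (.of_forall fun n => sC_al ha hb (h.ad.live e w))
  · obtain ⟨lam, y, z⟩ := h.ad.gen e u v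
    exact ⟨lam, y, fun e' => (z e').congr (.of_forall fun n => by simp only [cg_sC])⟩
  · exact (h.ad.stab a p ha hp).congr (.of_forall fun n => by simp only [sB_al ha])
  · simpa only [sB_al (h.ad.live b hb)] using z.inv a b ha hb
  · refine (hI k a E η r F hη hr hF).mono ?_
    filter_upwards [H (k, a), l.fr, hr] with n u v w ω hω z
    refine z.trans (le_of_eq (congrArg (fun s => |eval s _|) (funext fun b => ?_)))
    exact congrArg (Real.exp _ * ·)
      (lg_nw v u.1 ⟨(w ω hω).1, hω, (w ω hω).2⟩ (hS k b.1 b.2)).symm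
  · exact (hN.mul (ob_c l a b e)).mono (.of_forall fun n => sC_dd (x0 n) u v)
  · rcases le_or_gt 0 (t a) with z | z
    · exact (h.ad.stab a p z hp).congr (.of_forall fun n => by simp only [sB_al z])
    · exact (hN.mul (ob_B l a p σ.o)).congr (.of_forall fun n => by
        show rho t _ a * _ = _
        rw [rho_dd z])


end

section

open H17F hiding co
open H19 H17S G39 Filter GA GF LC
open N6 N6.N6AlgA

theorem n6Alg : SAlg := by
  intro m κ _ _ Ω Λ _ σ S L₀ t pos Lm X E L W Q h _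
  have or : ∀ a b, (t a < 0 ∨ t b < 0) ∨ 0 ≤ t a ∧ 0 ≤ t b := fun a b =>
    (lt_or_ge (t a) 0).elim (fun k => .inl (.inl k)) fun k =>
      (lt_or_ge (t b) 0).elim (fun k => .inl (.inr k)) fun k' => .inr ⟨k, k'⟩
  refine ⟨⟨⟨h.big, h.fr.mono fun n k => fr_Bl k 0, fun a => ⟨le_rfl, ?_⟩,
    fun a k => (alive h.wp).2 (h.ad.live a k), h.oc, fun a b e u v => ?_, fun a b e u v w => ?_,
    fun e k => (lt_irrefl _ k.1).elim⟩, h.fr.mono fun n k => k.2.2⟩,
    fun a => ⟨le_max_right _ _, ?_⟩, fun a b e u v => ?_, fun e u v => ?_⟩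
  · show 0 ≤ ite _ _ _
    split_ifs
    exacts [(h.wp a).le, le_rfl]
  · have h3 := (alive h.wp).1 u
    exact (or a b).elim (fun k => h.dead a b e k h3) fun k => neg_ev (h.fr.mono fun n z =>
      by_contra fun y => v ((hm_iff h.wp).2 ⟨k.1, k.2, h3, (gr_of z).hc a b e y⟩))
  · exact (or a b).elim (fun k => h.dead a b e k (h.ad.live e w)) fun k =>
      h.ad.sub a b e k.1 k.2 u v w
  · by_cases k : 0 ≤ t a
    · rw [tA_pos k, wA_pos k]; exact h.ad.le a
    · exact (max_eq_right (not_le.1 k).le).trans_le (if_neg k).ge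
  · obtain ⟨h1, h2, h3, -⟩ := (hm_iff h.wp).1 u
    exact h.ad.fil a b e h1 h2 (by rwa [tA_pos h1, tA_pos h2, tA_pos h3] at v)
  · have h1 : 0 < t e := (lt_max_iff.1 u).resolve_right (lt_irrefl _)
    obtain ⟨lam, l1, l2⟩ := h.ad.gen e h1 (by rwa [tA_pos h1.le, wA_pos h1.le] at v)
    refine ⟨lam, l1, fun e' => (l2 e').congr (h.fr.mono fun n z => ?_)⟩
    simp only [cG_eq h.wp (gr_of z).hc]
    congr


end

end Pool.Agent.MP_5168f5_an.AN.LP
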