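import Pool.Agent.MP_5168f5_an.AN.N6Spec2

/-! Kakeya sets in all dimensions: invariance of the functions of the second kind. -/

namespace Pool.Agent.MP_5168f5_an.AN.N6

open H19 H17S H17F G39 Filter H61Z GA GF R4 LC S20 MvPolynomial
open Pk (cn kc)

namespace N6InvA

theorem lip {m E : ℕ} {F : MvPolynomial (Fin m) ℝ} {L K ε : ℝ} {x y : V m}
    (h : F.totalDegree ≤ E ∧ cn F ≤ L) (hK : 1 ≤ K) (hx : ‖x‖ ≤ K) (hy : ‖y‖ ≤ K)
    (e : ‖x - y‖ ≤ ε) : |eval x F - eval y F| ≤ (E + 1) * L * K ^ E * ε := by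
  have e0 := (norm_nonneg _).trans e
  refine (kc.lip F E K ε x y h.1 hK e0 fun i => ⟨(norm_le_pi_norm x i).trans hx,
    (norm_le_pi_norm y i).trans hy, (norm_le_pi_norm (x - y) i).trans e⟩).trans ?_
  have := kc.nonneg F
  gcongr
  exacts [by linarith, h.2]

end N6InvA

open N6InvA in
theorem n6Inv : OfInv := by
  intro dec m κ _ _ Ω Λ σ S L₀ t pos Lm X E L W Q b w a r ε hr hε
  classical
  have hM := b.big
  obtain ⟨f, hf, dec⟩ := dec κ σ.Φ.N m σ.wt b.wp
  obtain ⟨g, hg, est⟩ := ob_est σ.Φ.N m (Fintype.card κ)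
  obtain ⟨K, k1, box⟩ := sBox σ.Φ.N (Fintype.card κ)
  obtain ⟨L1, s1, at1⟩ := atom_co hM b.fr b.lo (b.inc false a)
  obtain ⟨L2, s2, h2⟩ := ob_bound hM (J := κ × Fin m × Fin m)
    (f := fun j n => (X n).B j.1 j.2.1 j.2.2) fun j => b.oB _ _ _
  obtain ⟨L3, s3, h3⟩ := ob_bound hM (J := κ × κ × κ) (f := fun j n => (X n).c j.1 j.2.1 j.2.2)
    fun j => b.oc _ _ _
  have s4 := (s1.mul s2).mul s3
  have s5 := (sub_box hM s4 k1).mul s4
  have s6 := hf.2 _ _ hM s5
  have s7 := hg.2 _ _ hM (s5.mul s6)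
  have s8 := ((((hM.sub (show (1 : ℝ) ≤ E + 1 by simp)).mul w.sub).mul (s7.pow E)).mul
    ((s6.add s6 hM).add (s7.mul s5) hM)).add s6 hM
  have n1 : ∀ᶠ n in UF, ∀ i j e, t e = 0 → t j ≠ 0 → |(X n).c i j e| ≤ dl (sM X) r n :=
    eventually_all.2 fun i => eventually_all.2 fun j => eventually_all.2 fun e =>
      eventually_all.2 fun u => eventually_all.2 fun v => by
        by_cases z : t i < 0 ∨ t j < 0
        · exact b.dead i j e z u.ge r
        · push Not at z
          exact b.ad.fil i j e z.1 z.2 (by linarith [z.1, z.2.lt_of_ne' v]) r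
  have n2 : ∀ᶠ n in UF, ∀ i p, ¬pos i → |(X n).B i p σ.o| ≤ dl (sM X) r n :=
    eventually_all.2 fun i => eventually_all.2 fun p => eventually_all.2 fun u => b.stab i p u r
  filter_upwards [n1, n2, at1 0, b.fr, w.val, s8.2 ε hε] with n n1 n2 at1 fr val z ω v u a1 a2 h i
    p1 p2
  obtain ⟨Y, y0, y1⟩ := dec σ.Φ σ.la σ.o pos _ _ rfl fr.1 (gr_of fr)
  have mu := sMul _ _ _ _ _ fr.1
  have l1 := s1.1 n
  have l2 := s2.1 n
  have l3 := s3.1 n
  have l4 := s4.1 n
  have l5 := s5.1 n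
  have l6 := s6.1 n
  have lk := (sub_box hM s4 k1).1 n
  simp only at l4 l5 l6 lk z
  set A := L1 n * L2 n * L3 n with hA
  have c1 : L1 n ≤ A := by rw [hA, mul_assoc]; exact le_mul_of_one_le_right (by linarith) (by nlinarith)
  have c2 : L2 n ≤ A := by
    rw [hA, mul_right_comm]; exact le_mul_of_one_le_left (by linarith) (by nlinarith)
  have c3 : L3 n ≤ A := le_mul_of_one_le_left (by linarith) (by nlinarith)
  set A' := (K * A) ^ K * A with hA'
  have c4 : A ≤ A' := le_mul_of_one_le_left (by linarith) lk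
  have c5 : (K * A) ^ K ≤ A' := le_mul_of_one_le_right (by linarith) l4
  have c6 : A' ≤ A' * f A' := le_mul_of_one_le_right (by linarith) l6
  have c7 : f A' ≤ A' * f A' := le_mul_of_one_le_left (by linarith) l5
  set θ := dl (sM X) r n with hθ
  have θ0 : 0 < θ := dl_pos _ _ _
  have θ1 : θ ≤ 1 := Real.exp_le_one_iff.2 (neg_nonpos.2 (by positivity))
  set s := co σ (X n) a ω v
  set x := co σ (X n) a v u
  let x0 : κ → ℝ := fun e => if t e = 0 ∧ ¬pos e then x e else 0
  let r' : κ → ℝ := fun e => if t e = 0 then θ else 1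
  have r0 : ∀ e, 0 ≤ r' e := fun e => by simp only [r']; split_ifs <;> positivity
  have bc : ∀ i j e, |(X n).c i j e| ≤ A := fun i j e => (h3 n (i, j, e)).trans c3
  have bB : ∀ {Z}, A ≤ Z → ∀ i, Eb Z ((X n).B i) := fun c i q p => (h2 n (i, p, q)).trans (c2.trans c)
  have bs : ∀ e, |s e| ≤ A := fun e => ((at1 ω v a1).2.2.1 e).trans c1
  have bx : ∀ e, |x e| ≤ A := fun e => ((at1 v u a2).2.2.1 e).trans c1
  have bx0 : ∀ e, |x0 e| ≤ A := fun e => by
    simp only [x0]; split_ifs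
    exacts [bx e, by simpa using by linarith]
  have id : ∀ {Z}, A ≤ Z → Idl (X n).c 1 r' Z := fun {Z} c i j e => by
    have := (bc i j e).trans c
    simp only [r', Pi.one_apply, mul_one]
    split_ifs with q1 q2 q2
    · exact mul_le_mul_of_nonneg_right this θ0.le
    · nlinarith [abs_nonneg ((X n).c i j e)]
    · rw [mul_one]
      exact (n1 i j e q2 q1).trans (le_mul_of_one_le_left θ0.le (l4.trans c))
    · simpa using this
  have bo := fun x' (hx : ∀ e, |x' e| ≤ A) => box κ (X n).c 1 r' A A s x s x' le_rfl l4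
    (by linarith) (fun e => ⟨zero_le_one, r0 e⟩) mu.anti (fun i j e => by simpa using bc i j e)
    (id le_rfl) (fun e => by simpa using bs e) (fun e => by simpa using bx e)
    (fun e => by simpa using bs e) fun e => by simpa using hx e
  have b1 : ∀ e, |bch σ.Φ.N (X n).c s x e| ≤ A' := fun e => le_trans (by simpa using (bo x bx).1 e) c5
  have b2 : ∀ e, |bch σ.Φ.N (X n).c s x0 e| ≤ A' := fun e => le_trans (by
    simpa using (box κ (X n).c 1 r' A A s x0 s x0 le_rfl l4 (by linarith)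
      (fun e => ⟨zero_le_one, r0 e⟩) mu.anti (fun i j e => by simpa using bc i j e) (id le_rfl)
      (fun e => by simpa using bs e) (fun e => by simpa using bx0 e) (fun e => by simpa using bs e)
      fun e => by simpa using bx0 e).1 e) c5
  have b3 := (bo x0 bx0).2 (fun e => by simpa using mul_nonneg (by linarith) (r0 e)) fun e => by
    simp only [x0, r', Pi.sub_apply]
    by_cases q1 : t e = 0 <;> by_cases q2 : pos e
    · simpa [q1, q2] using (h e q2 q1).trans (le_mul_of_one_le_left θ0.le l4)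
    · simpa [q1, q2] using mul_nonneg (by linarith : 0 ≤ A) θ0.le
    · simpa [q1] using bx e
    · simpa [q1] using bx e
  have y2 := fun s' hs => y1 A' θ s' l5 θ0.le (bB c4) (fun i j e => (bc i j e).trans c4)
    (fun i q p => n2 i p q) hs
  have l7 : 1 ≤ A' * f A' := l5.trans c6
  have nb : ∀ s' : κ → ℝ, (∀ e, |s' e| ≤ A' * f A') → ‖ob (X n).B σ.o s'‖ ≤ g (A' * f A') :=
    fun s' hs => (est κ σ.Φ _ _ σ.o _ 0 s' s' rfl rfl fr.1 l7 le_rfl (bB (c4.trans c6)) hs hs).1
  have g1 := hg.1 _ l7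
  have k2 : ∀ s' : κ → ℝ, (∀ e, |s' e| ≤ A') → |eval (ob (X n).B σ.o s') (W n i) - Y s' i| ≤
      (E + 1) * L n * g (A' * f A') ^ E * (f A' * θ) := fun s' hs => by
    rw [← val.2 (Y s') (y0 s') i, abs_sub_comm]
    exact lip ((w.bd n).1 i) g1 (nb _ fun e => ((y2 s' hs).1 e).trans c7)
      (nb _ fun e => (hs e).trans c6) (y2 s' hs).2.1
  have k3 := (y2 _ b1).2.2 r' _ r0 (id c4) b2 b3 i
  have k4 := lip ((w.bd n).1 i) g1 (nb _ fun e => (b2 e).trans c6)
    (nb s fun e => (bs e).trans (c4.trans c6)) ((est κ σ.Φ _ _ σ.o _ (A' * θ) s x0 rfl rfl fr.1 l7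
      (by positivity) (bB (c4.trans c6)) (fun e => (bs e).trans (c4.trans c6))
      fun e => (bx0 e).trans (c4.trans c6)).2.1 fun e p => by
        rw [abs_mul]
        by_cases q : pos e
        · simp only [x0, q, not_true, and_false, if_false, abs_zero, zero_mul]; positivity
        · exact mul_le_mul ((bx0 e).trans c4) (n2 e p q) (abs_nonneg _) (by linarith))
  rw [(at1 ω u (a1.trans a2)).2.1, (at1 ω v a1).2.1, co_mul fr a1.1 (at1 ω v a1).1 (at1 v u a2).1]
  simp only [r', if_pos p2, Pi.sub_apply] at k3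
  have k5 := abs_le.1 (k2 _ b1)
  have k6 := abs_le.1 (k2 _ b2)
  have k7 : ((E + 1) * L n * g (A' * f A') ^ E * (f A' + f A' + g (A' * f A') * A') + f A') * θ ≤
      dl (sM X) (r - ε) n := by
    refine (mul_le_mul_of_nonneg_right z θ0.le).trans (le_of_eq ?_)
    rw [hθ, dl, dl, ← Real.exp_add]; congr 1; ring
  have k8 := abs_le.1 k3
  have k9 := abs_le.1 k4
  exact abs_le.2 ⟨by linarith, by linarith⟩

end Pool.Agent.MP_5168f5_an.AN.N6
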