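import Pool.Agent.MP_5168f5_an.AN.LPDef
import Pool.Agent.MP_5168f5_an.AN.N6Atc
import Pool.Agent.MP_5168f5_an.AN.N6Acs
import Pool.Agent.MP_5168f5_an.AN.N6Rel
import Pool.Agent.MP_5168f5_an.AN.N6Inv

/-! The light class with one abstract extra condition: the chamber. -/

namespace Pool.Agent.MP_5168f5_an.AN.LP

section

open H19 H17S H17F G39 Filter H61Z GA GF R4 LC S20
open N6
open N6.N6AtcA (co_le)

namespace AtcA

variable {m : ℕ} {κ : Type} [Fintype κ]

variable [DecidableEq κ] {Ω Λ : ℕ → Type} [Ex m κ Ω Λ] {σ : St m κ} {S : Bool → Finset κ} {L₀ : ℝ}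
  {t : κ → ℝ} {pos : κ → Prop} {Lm : ℕ → κ → Fin m → ℝ} {X : ∀ n, Dt m κ (Ω n) (Λ n)}

theorem lv (h : LB σ S L₀ t pos Lm X) (a : ℚ≥0) {ε : ℝ} (hε : 0 < ε) : ∀ᶠ n in UF, ∀ b,
    σ.wt b * ((X n).lv a - (X n).lv 0) ≤ σ.wt b * (a * (X n).M) + ε * (X n).M ∧
    σ.wt b * (a * (X n).M) ≤ σ.wt b * ((X n).lv a - (X n).lv 0) + ε * (X n).M :=
  eventually_all.2 fun b =>
    ((h.lv a).1.smul (h.wp b).le ε hε).and ((h.lv a).2.smul (h.wp b).le ε hε)

/-- Two points of an atom are near at every depth that is not deeper. -/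
theorem nr (h : LB σ S L₀ t pos Lm X) (k : Bool) (a : ℚ≥0) {D : ℕ → κ → ℝ} {d : κ → ℝ}
    (hD : Cl (sM X) D d) (hd : ∀ b ∈ S k, d b ≤ σ.wt b * a) :
    ∃ L, Sub (sM X) L ∧ ∀ᶠ n in UF, ∀ ω v, At (X n) k a ω v →
      Nr (Bl σ (X n) 0) (TG.rA (D n)) (L n) ((X n).j ω) ((X n).j v) := by
  obtain ⟨L, hL, c⟩ := atom_co h.big h.fr h.lo (h.inc k a)
  obtain ⟨K, hK⟩ := hD
  refine (sub_iff (M := sM X) (p := fun n L => ∀ ω v, At (X n) k a ω v →
    Nr (Bl σ (X n) 0) (TG.rA (D n)) L ((X n).j ω) ((X n).j v))).2 fun ε hε => ?_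
  have p : 0 < ε / 3 := by positivity
  filter_upwards [c (∑ b, |d b|), hL.2 _ p, lv h a p, hK, h.big.sm K _ p] with n c l y z w
  refine ⟨_, Real.one_le_exp (by positivity), le_rfl, fun ω v i => ⟨co σ (X n) 0 ω v, fun b => ?_,
    (c ω v i).1.trans (congrArg _ ((ex_Bl a _).trans (ex_Bl 0 _).symm))⟩⟩
  have m0 : (0 : ℝ) ≤ (X n).M := Nat.cast_nonneg _
  have z1 := (abs_le.1 (z b)).2
  have y1 := (y b).2
  rw [TG.rA, ← Real.exp_add]
  by_cases e : b ∈ S k
  · have := mul_le_mul_of_nonneg_right (hd b e) m0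
    exact co_le (((c ω v i).2.2.1 b).trans l) (by linarith)
  · have s := mul_le_mul_of_nonneg_right ((le_abs_self _).trans (Finset.single_le_sum
      (f := fun b => |d b|) (fun _ _ => abs_nonneg _) (Finset.mem_univ b))) m0
    have := mul_nonneg (h.wp b).le (mul_nonneg (NNRat.cast_nonneg (α := ℝ) a) m0)
    have := mul_nonneg p.le m0
    exact co_le ((c ω v i).2.2.2 b e) (by linarith)

end AtcA

open AtcA in
theorem n6Atc : SAtc := by
  intro m κ _ _ Ω Λ _ σ S L₀ t pos Lm X E L W Q h _ _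
  have fr : ∀ᶠ n in UF, IsFr σ.Φ (Bl σ (X n) 0) (X n).c := h.fr.mono fun n y => fr_Bl y 0
  refine ⟨fun k a D d hD g hd => ?_, fun k a d ε g hε => ?_⟩
  · obtain ⟨L1, hL, c⟩ := nr h k a hD hd
    obtain ⟨r, hr⟩ := ex_rp X k a
    have c' : ∀ᶠ n in UF, ∀ ω ∈ (X n).P.S, Nr (Bl σ (X n) 0) (TG.rA (D n)) (L1 n)
        ((X n).j (r n ((X n).O k a ω))) ((X n).j ω) := by
      filter_upwards [c, hr] with n c hr ω hω
      exact c _ _ ⟨(hr ω hω).1, hω, (hr ω hω).2⟩
    have s := sDet (Fin m) κ (sM X) σ.Φ (fun n => Bl σ (X n) 0) (fun n => (X n).c) Ω Λ (sP X)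
      (fun n ω => (X n).j (r n ((X n).O k a ω))) (fun n => (X n).j) (sO X k a)
      (fun n z => (X n).j (r n z)) (fun n => TG.rA (D n)) L1 h.big fr
      (GO.GOh1A.idr sIdR h.big h.oc g (hD.ap h.big)) ⟨1, zero_le_one, ?_⟩
      (.of_forall fun n _ _ _ _ e => congrArg (fun z => (X n).j (r n z)) e) hL (Whp.of_ev c')
    · refine s.mono ?_
      filter_upwards [h.nest false 0 a zero_le, h.com a] with n y z
      have f : Fn (X n).P ((X n).O false 0) fun ω => ((sy σ X n).C (D n) ω, (X n).O k a ω) :=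
        fun u hu v hv e => y u hu v hv (by
          have e2 : (X n).O k a u = (X n).O k a v := congrArg Prod.snd e
          cases k
          exacts [e2, z u hu v hv e2])
      exact ((ch_chain ((sy σ X n).C (D n)) ((X n).O false 0) ((X n).O k a)).trans
        (by rw [ch_zero f, add_zero]; rfl)).le
    · filter_upwards [c', hr, h.fr, hL.2 1 one_pos] with n c hr y z ω hω
      exact ⟨y.2.2 _ (hr ω hω).1, (c ω hω).imp fun s u => ⟨fun b => (u.1 b).trans
        (mul_le_mul_of_nonneg_right z (Real.exp_pos _).le), u.2⟩⟩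
  · obtain ⟨L1, hL, c⟩ := GO.GOh1A.same sNr sCell h.big fr
      (GO.GOh1A.idr sIdR h.big h.oc g ((cl_sc (sM X) d).ap h.big))
    filter_upwards [c, hL.2 _ (half_pos hε), lv h a (half_pos hε), h.fr] with n c l y z v u i e b
    obtain ⟨s, s1, s2⟩ := (c _).2 _ e
    have s3 := (s1 b).trans (mul_le_mul_of_nonneg_right l (Real.exp_pos _).le)
    rw [← (co_eq z i.1 s2).1, TG.rA, ← Real.exp_add] at s3
    refine co_le s3 ?_
    have := (y b).1
    unfold TG.sc
    linarith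


end

section

open H19 H17S H17F G39 Filter H61Z GA GF R4 LC S20 Finset
open N6
open N6.N6AcsA (co0 ex0 par)

namespace AcsA

variable {m : ℕ} {κ : Type} [Fintype κ] [DecidableEq κ] {Ω Λ : ℕ → Type} [Ex m κ Ω Λ] {σ : St m κ}
  {S : Bool → Finset κ} {L₀ : ℝ} {t : κ → ℝ} {pos : κ → Prop} {Lm : ℕ → κ → Fin m → ℝ}
  {X : ∀ n, Dt m κ (Ω n) (Λ n)} {D : ℕ → κ → ℝ} {d : κ → ℝ}

/-- The level that belongs to a point of the chamber. -/
theorem lev (b : LB σ S L₀ t pos Lm X) (k : Bool) {x : ℚ × ℚ} (h1 : 0 ≤ x.1) (h2 : x.1 ≤ x.2) :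
    ∃ a : ℚ≥0, (∀ e ∈ S k, dep (oN (wA σ.wt t) (tA t)) (x.1, x.2) e ≤ σ.wt e * a) ∧
      ∀ e, TG.Pu (oN (wA σ.wt t) (tA t)) k e →
        e ∈ S k ∧ dep (oN (wA σ.wt t) (tA t)) (x.1, x.2) e = σ.wt e * a := by
  have h3 : (x.1 : ℝ) ≤ x.2 := by exact_mod_cast h2
  have al : ∀ e, 0 ≤ t e → oN (wA σ.wt t) (tA t) e = (t e, σ.wt e - t e) := fun e u => by
    simp [oN, wA, tA, u]
  have dd : ∀ e, ¬0 ≤ t e → oN (wA σ.wt t) (tA t) e = (0, 0) := fun e u => by
    simp [oN, wA, tA, u, (not_le.1 u).le]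
  cases k
  · refine ⟨⟨x.2, h1.trans h2⟩, fun e u => ?_, fun e u => ?_⟩
    · have z := (b.sf e).1 u
      simp only [dep, al e z, NNRat.cast_mk]
      nlinarith [mul_le_mul_of_nonneg_left h3 z]
    · have z : 0 ≤ t e := by_contra fun z => by simp [TG.Pu, P2, dd e z] at u
      simp only [TG.Pu, cond, P2, al e z] at u
      refine ⟨(b.sf e).2 z, ?_⟩
      simp only [dep, al e z, NNRat.cast_mk, u.1]; ring
  · have k1 : ∀ e, t e = σ.wt e → dep (oN (wA σ.wt t) (tA t)) (x.1, x.2) e =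
        σ.wt e * ((⟨x.1, h1⟩ : ℚ≥0) : ℝ) := fun e u => by
      simp only [dep, al e (u ▸ (b.wp e).le), u, sub_self, zero_mul, add_zero]
    refine ⟨⟨x.1, h1⟩, fun e u => (k1 e ((b.st e).1 u)).le, fun e u => ?_⟩
    have z : 0 ≤ t e := by_contra fun z => by simp [TG.Pu, P1, dd e z] at u
    simp only [TG.Pu, cond, P1, al e z] at u
    have y : t e = σ.wt e := by linarith [u.2]
    exact ⟨(b.st e).2 y, k1 e y⟩

theorem gam (b : LB σ S L₀ t pos Lm X) (hD : Cl (sM X) D d) (a : ℚ≥0) {δ : ℝ} (hδ : 0 < δ) :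
    ∀ᶠ n in UF, ∀ e, |D n e - σ.wt e * ((X n).lv a - (X n).lv 0) - (d e - σ.wt e * a) * (X n).M| ≤
      δ * (X n).M := by
  obtain ⟨K, hK⟩ := hD
  refine eventually_all.2 fun e => ?_
  have w := b.wp e
  filter_upwards [hK, b.big.sm K _ (half_pos hδ), (b.lv a).1 (δ / 2 / σ.wt e) (by positivity),
    (b.lv a).2 (δ / 2 / σ.wt e) (by positivity)] with n u v y z
  have y1 := mul_le_mul_of_nonneg_left y w.le
  have z1 := mul_le_mul_of_nonneg_left z w.le
  rw [mul_add, ← mul_assoc _ (δ / 2 / σ.wt e), mul_div_cancel₀ _ w.ne'] at y1 z1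
  have := abs_le.1 (u e)
  exact abs_le.2 ⟨by linarith [this.1], by linarith [this.2]⟩

/-- An atom lies in a box. -/
theorem nr (b : LB σ S L₀ t pos Lm X) (hD : Cl (sM X) D d) {k : Bool} {a : ℚ≥0}
    (h : ∀ e ∈ S k, d e ≤ σ.wt e * a) : ∃ L, Sub (sM X) L ∧ ∀ᶠ n in UF, ∀ ω v, At (X n) k a ω v →
      Nr (Bl σ (X n) 0) (TG.rA (D n)) (L n) ((X n).j ω) ((X n).j v) := by
  obtain ⟨L, hL, k1⟩ := atom_co b.big b.fr b.lo (b.inc k a)
  refine (sub_iff (p := fun n L => ∀ ω v, At (X n) k a ω v →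
    Nr (Bl σ (X n) 0) (TG.rA (D n)) L ((X n).j ω) ((X n).j v))).2 fun ε hε => ?_
  filter_upwards [k1 (‖d‖ + ε), gam b hD a (half_pos hε), hL.2 _ (half_pos hε)] with n x y z
  have m0 : (0 : ℝ) ≤ (X n).M := Nat.cast_nonneg _
  refine ⟨_, Real.one_le_exp (by positivity), le_rfl, fun ω v u =>
    ⟨_, fun e => ?_, ex0 (x ω v u).1 0⟩⟩
  have p := TG.TGZmA.rA_pos (D n) e
  have y1 := (abs_le.1 (y e)).2
  rw [← div_le_iff₀ p, ← abs_of_pos p, ← abs_div, co0 _ _ a, abs_mul, abs_of_pos (Real.exp_pos _)]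
  by_cases c : e ∈ S k
  · refine (mul_le_mul_of_nonneg_left (((x ω v u).2.2.1 e).trans z) (Real.exp_pos _).le).trans ?_
    rw [← Real.exp_add, Real.exp_le_exp]
    nlinarith [mul_le_mul_of_nonneg_right (h e c) m0]
  · refine (mul_le_mul_of_nonneg_left ((x ω v u).2.2.2 e c) (Real.exp_pos _).le).trans ?_
    rw [dl, ← Real.exp_add, Real.exp_le_exp]
    have q : d e - σ.wt e * a ≤ ‖d‖ := by
      linarith [(le_abs_self _).trans (norm_le_pi_norm d e),
        mul_nonneg (b.wp e).le (NNRat.cast_nonneg (α := ℝ) a)]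
    nlinarith [mul_le_mul_of_nonneg_right q m0]

end AcsA

open AcsA in
theorem n6Acs : SAcs := by
  intro m κ _ _ Ω Λ _ σ S L₀ t pos Lm X E L W Q b w ca atc k x D η ρ ε h1 h2 g hD hη hρ hε
  obtain ⟨a, a1, a2⟩ := lev b k h1 h2
  obtain ⟨L1, s1, n1⟩ := nr b hD a1
  obtain ⟨δ, d0, d1, d2, d3⟩ := par (ρ := ρ) b.one hη hε
  obtain ⟨L2, s2, lp⟩ := TG.tgLip _ κ σ.Φ _ pos (sy σ X) ca.toG0 D L1
    (GO.GOh1A.idr sIdR b.big b.oc g (hD.ap b.big)) (by
      obtain ⟨K, hK⟩ := hD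
      refine ⟨‖dep (oN (wA σ.wt t) (tA t)) (x.1, x.2)‖ + 1, ?_⟩
      filter_upwards [hK, b.big.ev K] with n u v e
      have y := mul_le_mul_of_nonneg_right (norm_le_pi_norm
        (dep (oN (wA σ.wt t) (tA t)) (x.1, x.2)) e) (Nat.cast_nonneg (α := ℝ) (X n).M)
      have z := abs_sub_abs_le_abs_sub (D n e)
        (dep (oN (wA σ.wt t) (tA t)) (x.1, x.2) e * (X n).M)
      rw [abs_mul, Nat.abs_cast] at z
      rw [Real.norm_eq_abs] at y
      linarith [u e]) s1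
  obtain ⟨K, -, ce⟩ := sCell σ.Φ.N (Fintype.card κ)
  obtain ⟨L3, -, at1⟩ := atom_co b.big b.fr b.lo (b.inc k a)
  filter_upwards [atc k a D _ hD g a1 δ d0, b.ac k a δ d0, b.fr, n1, lp 0, gam b hD a d0, at1 0,
    ((b.big.sub le_rfl).add s2 b.big).2 _ (show 0 < 2 * δ by positivity), b.big.sm lg δ d0,
    b.big.ev 1] with n u1 u2 fr u3 u4 u5 u6 u7 u8 u9
  have m0 : (0 : ℝ) < (X n).M := by linarith
  have f0 := fr_Bl fr 0
  have mu := sMul _ _ _ _ _ f0
  have r0 := TG.TGZmA.rA_pos (D n)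
  refine ac_mono (TG.ac_atom (sy σ X n) (D n) _ _ (ρ * (X n).M)
    (((η - 3 * δ) / L₀ - δ) * (X n).M) _ ((X n).O k a) (mul_pos d2 m0) u1 fun ω hω l c0 ht => ?_)
    le_rfl le_rfl (le_trans ?_ d3)
  swap
  · rw [div_le_div_iff₀ (mul_pos d2 m0) d2]
    nlinarith [mul_le_mul_of_nonneg_right u8 d2.le]
  set γ : κ → ℝ := fun e => Real.exp (D n e - σ.wt e * ((X n).lv a - (X n).lv 0)) with hγ
  have γ0 : ∀ e, 0 < γ e := fun e => Real.exp_pos _
  have γ1 : ∀ e ∈ S k, γ e ≤ Real.exp (δ * (X n).M) := fun e c => Real.exp_le_exp.2 (by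
    nlinarith [mul_le_mul_of_nonneg_right (a1 e c) m0.le, (abs_le.1 (u5 e)).2])
  set ν := ∑ e, |l e * γ e| with hν
  have ν1 : Real.exp (-(δ * (X n).M)) ≤ ν := by
    obtain ⟨e, he⟩ := ht.one
    have c := a2 e (by_contra fun z => by simp [ht.sup e z] at he)
    refine le_trans ?_ (single_le_sum (f := fun e => |l e * γ e|) (fun _ _ => abs_nonneg _)
      (mem_univ e))
    rw [abs_mul, he, one_mul, abs_of_pos (γ0 e), Real.exp_le_exp]
    have := (abs_le.1 (u5 e)).1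
    rw [c.2] at this
    linarith
  have ν0 : 0 < ν := (Real.exp_pos _).trans_le ν1
  have nu : ∀ y : ℝ, |y| ≤ Real.exp (2 * δ * (X n).M) * Real.exp (-(η * (X n).M)) →
      |y / ν| ≤ Real.exp (-((η - 3 * δ) * (X n).M)) := fun y z => by
    rw [abs_div, abs_of_pos ν0, div_le_iff₀ ν0]
    refine z.trans (le_trans (le_of_eq ?_) (mul_le_mul_of_nonneg_left ν1 (Real.exp_pos _).le))
    rw [← Real.exp_add, ← Real.exp_add]; congr 1; ring
  have cn := (ce _ κ σ.Φ _ _ (TG.rA (D n)) (TG.rA (D n)) 1 rfl le_rfl f0 le_rfl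
    fun e => ⟨r0 e, (one_mul _).ge⟩).1 ((X n).j ω)
  have k1 := u2 ω hω ((η - 3 * δ) * (X n).M) (by rw [le_div_iff₀ d0]; nlinarith)
    (fun e => l e * γ e / ν) ((c0 - ∑ e, l e * (lg (Bl σ (X n) 0) ((sy σ X n).C (D n) ω)
      ((X n).j ω) e / TG.rA (D n) e)) / ν)
    (fun e c => by rw [ht.sup e fun z => c (a2 e z).1, zero_mul, zero_div])
    (by simp only [abs_div, abs_of_pos ν0]; rw [← sum_div, div_self ν0.ne']) fun i hi j hj => by
      have e1 : ∑ e, l e * γ e / ν * (X n).c i j e =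
          γ i * γ j * (∑ e, sC (TG.rA (D n)) (X n).c i j e * l e) / ν := by
        rw [mul_sum, sum_div]
        refine sum_congr rfl fun e _ => ?_
        by_cases c : (X n).c i j e = 0
        · simp [sC, c]
        · have : γ e = γ i * γ j * (TG.rA (D n) i * TG.rA (D n) j / TG.rA (D n) e) := by
            simp only [hγ, TG.rA, ← Real.exp_add, ← Real.exp_sub, (gr_of fr).hc i j e c]
            congr 1; ring
          rw [this, sC]; ring
      rw [e1]
      refine nu _ ?_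
      rw [abs_mul, abs_of_pos (mul_pos (γ0 i) (γ0 j))]
      refine mul_le_mul ((mul_le_mul (γ1 i hi) (γ1 j hj) (γ0 j).le (Real.exp_pos _).le).trans
        (le_of_eq ?_)) (ht.kill i j) (abs_nonneg _) (Real.exp_pos _).le
      rw [← Real.exp_add]; congr 1; ring
  refine ((pb_mono fun v hv z => ?_).trans k1).trans (le_of_eq (by congr 1; ring))
  have av : At (X n) k a ω v := (mem_fb hω).1 hv
  obtain ⟨s, bs, es⟩ := cn
  have up : IsUnit ((sy σ X n).C (D n) ω) := by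
    have := fr.2.2 ω hω
    rw [es, Matrix.isUnit_iff_isUnit_det, Matrix.det_mul] at this
    exact (Matrix.isUnit_iff_isUnit_det _).2 (isUnit_of_mul_isUnit_left this)
  have q := (u4 _ ((X n).j ω) ((X n).j v) up ⟨s, fun e => (bs e).trans
    (mul_le_mul_of_nonneg_right (s1.1 n) (r0 e).le), es⟩ (u3 ω v av)).2 l _ (Real.exp_pos _).le
    ht.le ht.kill
  have e2 : ∑ e, l e * γ e / ν * co σ (X n) a ω v e =
      (∑ e, l e * (lg (Bl σ (X n) 0) ((X n).j ω) ((X n).j v) e / TG.rA (D n) e)) / ν := by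
    rw [(co_eq fr hω (ex0 (u6 ω v av).1 0)).2, sum_div]
    exact sum_congr rfl fun e _ => by rw [co0 _ _ a]; ring
  refine (congrArg (|· - _|) e2).trans_le ?_
  rw [← sub_div]
  refine nu _ (le_trans ?_ (mul_le_mul_of_nonneg_right u7 (Real.exp_pos _).le))
  have z1 := abs_le.1 z
  have q1 := abs_le.1 q
  simp only [TG.Sy.co] at z1
  exact abs_le.2 ⟨by linarith, by linarith⟩


end

section

open H19 H17S H17F G39 Filter H61Z GA GF R4 LC S20 MvPolynomial
open Pk (cn kc)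
open N6 N6.N6RelA

theorem n6Rel : SRel := by
  intro m κ _ _ Ω Λ _ σ S L₀ t pos Lm X E L W Q b w k a q E' e η r H he hp hη hr hH
  obtain ⟨K, hK, h⟩ := atom_co b.big b.fr b.lo (b.inc k a)
  have sz := fun n z => size (e := e) (w.sub.1 n) (w.bd n).1 (w.bd n).2 (hH n z)
  have s := ((b.big.sub (C := (E' * (E * E) : ℕ) + 1)
    (le_add_of_nonneg_left (Nat.cast_nonneg _))).mul
    ((w.sub.mul (w.sub.pow E)).pow E')).mul (hK.pow (E' * (E * E)))
  refine (b.ind k a _ (η / 2) r (fun n z => aeval (inc (S k)) (pul (W n) (Q n) e (H n z)))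
    (half_pos hη) hr fun n z => deg (sz n z).1).mono ?_
  filter_upwards [h (η + 1), hr, w.val, s.2 1 one_pos, b.big.ev (2 / η)] with n h hr v s M ω hω c
  obtain ⟨-, h1, h2, h3⟩ := h _ ω ⟨(hr ω hω).1, hω, (hr ω hω).2⟩
  have v1 : ∀ s, (fun p => eval s (Q n p)) = ob (X n).B σ.o s := fun s => funext (v.1 s)
  have d := fun c => (Real.exp_pos (-(c * sM X n : ℝ))).le
  have c1 := low (H := H n ((X n).O k a ω)) he hp fun s u a => by rw [v1]; exact v.2 s u a
  have c2 := near (sz n ((X n).O k a ω)).1 (hK.1 n) (d _) h2 h3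
  have c3 := (sz n ((X n).O k a ω)).2
  have c4 := kc.nonneg (H n ((X n).O k a ω))
  rw [ev_pul, v1, ← h1] at c2
  have e1 : Real.exp (1 * sM X n) * dl (sM X) (η + 1) n = dl (sM X) η n := by
    rw [dl, dl, ← Real.exp_add]; congr 1; ring
  have e2 : 2 * dl (sM X) η n ≤ dl (sM X) (η / 2) n := by
    rw [div_le_iff₀ hη] at M
    rw [dl, show -(η * sM X n) = -(η / 2 * sM X n) + -(η / 2 * sM X n) by ring, Real.exp_add,
      ← mul_assoc]
    refine mul_le_of_le_one_left (d _) ?_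
    rw [Real.exp_neg, ← div_eq_mul_inv, div_le_one (Real.exp_pos _)]
    linarith [Real.add_one_le_exp (η / 2 * sM X n)]
  have l0 := (w.sub.pos n).le
  have k0 := (hK.pos n).le
  have e3 := mul_le_mul_of_nonneg_right (mul_le_mul_of_nonneg_right (mul_le_mul
    (le_add_of_nonneg_right zero_le_one : ((E' * (E * E) : ℕ) : ℝ) ≤ _) c3 (kc.nonneg _)
    (by positivity)) (pow_nonneg k0 (E' * (E * E)))) (d (η + 1))
  have e4 := mul_le_mul_of_nonneg_right (mul_le_mul_of_nonneg_right s (d (η + 1))) c4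
  have e5 := mul_le_mul e2 c1 c4 (d _)
  simp only [dl] at *
  rw [e1] at e4
  linarith


end

section

open H19 H17S H17F G39 Filter H61Z GA GF R4 LC S20 MvPolynomial
open Pk (cn kc)
open N6 N6.N6InvA

theorem n6Inv : OfInv := by
  intro dec m κ _ _ Ω Λ _ σ S L₀ t pos Lm X E L W Q b w a r ε hr hε
  classical
  have hM := b.big
  obtain ⟨f, hf, dec⟩ := dec κ σ.Φ.N m σ.wt b.wp
  obtain ⟨g, hg, est⟩ := ob_est σ.Φ.N m (Fintype.card κ)
  obtain ⟨K, k1, box⟩ := sBox σ.Φ.N (Fintype.card κ)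
  obtain ⟨L1, s1, at1⟩ := atom_co hM b.fr b.lo (b.inc false a)
  obtain ⟨L2, s2, h2⟩ := ob_bound hM (J := κ × Fin m × Fin m)
    (f := fun j n => (X n).B j.1 j.2.1 j.2.2) fun j => b.oB _ _ _
  obtain ⟨L3, s3, h3⟩ := ob_bound hM (J := κ × κ × κ) (f := fun j n => (X n).c j.1 j.2.1 j.2.2)
    fun j => b.oc _ _ _
  have s4 := (s1.mul s2).mul s3
  have s5 := (sub_box hM s4 k1).mul s4
  have s6 := hf.2 _ _ hM s5
  have s7 := hg.2 _ _ hM (s5.mul s6)
  have s8 := ((((hM.sub (show (1 : ℝ) ≤ E + 1 by simp)).mul w.sub).mul (s7.pow E)).mul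
    ((s6.add s6 hM).add (s7.mul s5) hM)).add s6 hM
  have n1 : ∀ᶠ n in UF, ∀ i j e, t e = 0 → t j ≠ 0 → |(X n).c i j e| ≤ dl (sM X) r n :=
    eventually_all.2 fun i => eventually_all.2 fun j => eventually_all.2 fun e =>
      eventually_all.2 fun u => eventually_all.2 fun v => by
        by_cases z : t i < 0 ∨ t j < 0
        · exact b.dead i j e z u.ge r
        · push Not at z
          exact b.ad.fil i j e z.1 z.2 (by linarith [z.1, z.2.lt_of_ne' v]) r
  have n2 : ∀ᶠ n in UF, ∀ i p, ¬pos i → |(X n).B i p σ.o| ≤ dl (sM X) r n :=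
    eventually_all.2 fun i => eventually_all.2 fun p => eventually_all.2 fun u => b.stab i p u r
  filter_upwards [n1, n2, at1 0, b.fr, w.val, s8.2 ε hε] with n n1 n2 at1 fr val z ω v u a1 a2 h i
    p1 p2
  obtain ⟨Y, y0, y1⟩ := dec σ.Φ σ.la σ.o pos _ _ rfl fr.1 (gr_of fr)
  have mu := sMul _ _ _ _ _ fr.1
  have l1 := s1.1 n
  have l2 := s2.1 n
  have l3 := s3.1 n
  have l4 := s4.1 n
  have l5 := s5.1 n
  have l6 := s6.1 n
  have lk := (sub_box hM s4 k1).1 n
  simp only at l4 l5 l6 lk z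
  set A := L1 n * L2 n * L3 n with hA
  have c1 : L1 n ≤ A := by rw [hA, mul_assoc]; exact le_mul_of_one_le_right (by linarith) (by nlinarith)
  have c2 : L2 n ≤ A := by
    rw [hA, mul_right_comm]; exact le_mul_of_one_le_left (by linarith) (by nlinarith)
  have c3 : L3 n ≤ A := le_mul_of_one_le_left (by linarith) (by nlinarith)
  set A' := (K * A) ^ K * A with hA'
  have c4 : A ≤ A' := le_mul_of_one_le_left (by linarith) lk
  have c5 : (K * A) ^ K ≤ A' := le_mul_of_one_le_right (by linarith) l4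
  have c6 : A' ≤ A' * f A' := le_mul_of_one_le_right (by linarith) l6
  have c7 : f A' ≤ A' * f A' := le_mul_of_one_le_left (by linarith) l5
  set θ := dl (sM X) r n with hθ
  have θ0 : 0 < θ := dl_pos _ _ _
  have θ1 : θ ≤ 1 := Real.exp_le_one_iff.2 (neg_nonpos.2 (by positivity))
  set s := co σ (X n) a ω v
  set x := co σ (X n) a v u
  let x0 : κ → ℝ := fun e => if t e = 0 ∧ ¬pos e then x e else 0
  let r' : κ → ℝ := fun e => if t e = 0 then θ else 1
  have r0 : ∀ e, 0 ≤ r' e := fun e => by simp only [r']; split_ifs <;> positivity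
  have bc : ∀ i j e, |(X n).c i j e| ≤ A := fun i j e => (h3 n (i, j, e)).trans c3
  have bB : ∀ {Z}, A ≤ Z → ∀ i, Eb Z ((X n).B i) := fun c i q p => (h2 n (i, p, q)).trans (c2.trans c)
  have bs : ∀ e, |s e| ≤ A := fun e => ((at1 ω v a1).2.2.1 e).trans c1
  have bx : ∀ e, |x e| ≤ A := fun e => ((at1 v u a2).2.2.1 e).trans c1
  have bx0 : ∀ e, |x0 e| ≤ A := fun e => by
    simp only [x0]; split_ifs
    exacts [bx e, by simpa using by linarith]
  have id : ∀ {Z}, A ≤ Z → Idl (X n).c 1 r' Z := fun {Z} c i j e => by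
    have := (bc i j e).trans c
    simp only [r', Pi.one_apply, mul_one]
    split_ifs with q1 q2 q2
    · exact mul_le_mul_of_nonneg_right this θ0.le
    · nlinarith [abs_nonneg ((X n).c i j e)]
    · rw [mul_one]
      exact (n1 i j e q2 q1).trans (le_mul_of_one_le_left θ0.le (l4.trans c))
    · simpa using this
  have bo := fun x' (hx : ∀ e, |x' e| ≤ A) => box κ (X n).c 1 r' A A s x s x' le_rfl l4
    (by linarith) (fun e => ⟨zero_le_one, r0 e⟩) mu.anti (fun i j e => by simpa using bc i j e)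
    (id le_rfl) (fun e => by simpa using bs e) (fun e => by simpa using bx e)
    (fun e => by simpa using bs e) fun e => by simpa using hx e
  have b1 : ∀ e, |bch σ.Φ.N (X n).c s x e| ≤ A' := fun e => le_trans (by simpa using (bo x bx).1 e) c5
  have b2 : ∀ e, |bch σ.Φ.N (X n).c s x0 e| ≤ A' := fun e => le_trans (by
    simpa using (box κ (X n).c 1 r' A A s x0 s x0 le_rfl l4 (by linarith)
      (fun e => ⟨zero_le_one, r0 e⟩) mu.anti (fun i j e => by simpa using bc i j e) (id le_rfl)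
      (fun e => by simpa using bs e) (fun e => by simpa using bx0 e) (fun e => by simpa using bs e)
      fun e => by simpa using bx0 e).1 e) c5
  have b3 := (bo x0 bx0).2 (fun e => by simpa using mul_nonneg (by linarith) (r0 e)) fun e => by
    simp only [x0, r', Pi.sub_apply]
    by_cases q1 : t e = 0 <;> by_cases q2 : pos e
    · simpa [q1, q2] using (h e q2 q1).trans (le_mul_of_one_le_left θ0.le l4)
    · simpa [q1, q2] using mul_nonneg (by linarith : 0 ≤ A) θ0.le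
    · simpa [q1] using bx e
    · simpa [q1] using bx e
  have y2 := fun s' hs => y1 A' θ s' l5 θ0.le (bB c4) (fun i j e => (bc i j e).trans c4)
    (fun i q p => n2 i p q) hs
  have l7 : 1 ≤ A' * f A' := l5.trans c6
  have nb : ∀ s' : κ → ℝ, (∀ e, |s' e| ≤ A' * f A') → ‖ob (X n).B σ.o s'‖ ≤ g (A' * f A') :=
    fun s' hs => (est κ σ.Φ _ _ σ.o _ 0 s' s' rfl rfl fr.1 l7 le_rfl (bB (c4.trans c6)) hs hs).1
  have g1 := hg.1 _ l7
  have k2 : ∀ s' : κ → ℝ, (∀ e, |s' e| ≤ A') → |eval (ob (X n).B σ.o s') (W n i) - Y s' i| ≤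
      (E + 1) * L n * g (A' * f A') ^ E * (f A' * θ) := fun s' hs => by
    rw [← val.2 (Y s') (y0 s') i, abs_sub_comm]
    exact lip ((w.bd n).1 i) g1 (nb _ fun e => ((y2 s' hs).1 e).trans c7)
      (nb _ fun e => (hs e).trans c6) (y2 s' hs).2.1
  have k3 := (y2 _ b1).2.2 r' _ r0 (id c4) b2 b3 i
  have k4 := lip ((w.bd n).1 i) g1 (nb _ fun e => (b2 e).trans c6)
    (nb s fun e => (bs e).trans (c4.trans c6)) ((est κ σ.Φ _ _ σ.o _ (A' * θ) s x0 rfl rfl fr.1 l7
      (by positivity) (bB (c4.trans c6)) (fun e => (bs e).trans (c4.trans c6))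
      fun e => (bx0 e).trans (c4.trans c6)).2.1 fun e p => by
        rw [abs_mul]
        by_cases q : pos e
        · simp only [x0, q, not_true, and_false, if_false, abs_zero, zero_mul]; positivity
        · exact mul_le_mul ((bx0 e).trans c4) (n2 e p q) (abs_nonneg _) (by linarith))
  rw [(at1 ω u (a1.trans a2)).2.1, (at1 ω v a1).2.1, co_mul fr a1.1 (at1 ω v a1).1 (at1 v u a2).1]
  simp only [r', if_pos p2, Pi.sub_apply] at k3
  have k5 := abs_le.1 (k2 _ b1)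
  have k6 := abs_le.1 (k2 _ b2)
  have k7 : ((E + 1) * L n * g (A' * f A') ^ E * (f A' + f A' + g (A' * f A') * A') + f A') * θ ≤
      dl (sM X) (r - ε) n := by
    refine (mul_le_mul_of_nonneg_right z θ0.le).trans (le_of_eq ?_)
    rw [hθ, dl, dl, ← Real.exp_add]; congr 1; ring
  have k8 := abs_le.1 k3
  have k9 := abs_le.1 k4
  exact abs_le.2 ⟨by linarith, by linarith⟩


end

end Pool.Agent.MP_5168f5_an.AN.LP
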