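import Pool.Agent.MP_5168f5_an.AN.N6Spec

/-! The chamber of two levels: the adapted basis over a field. -/

namespace Pool.Agent.MP_5168f5_an.AN.N6

open GA GF Matrix

namespace N6FldA

variable {κ k : Type} [Fintype κ] [DecidableEq κ] [Field k]

/-- The vectors supported on `P`. -/
def Sp (k : Type) [Field k] (P : κ → Prop) : Submodule k (κ → k) where
  carrier := {x | ∀ e, x e ≠ 0 → P e}
  add_mem' := fun {x y} u v e w => by
    by_cases z : x e = 0
    · exact v e (by simpa [z] using w)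
    · exact u e z
  zero_mem' := fun _ w => absurd rfl w
  smul_mem' := fun _ _ u e w => u e (right_ne_zero_of_mul w)

omit [Fintype κ] in
theorem single_mem {P : κ → Prop} {a : κ} (h : P a) : (Pi.single a 1 : κ → k) ∈ Sp k P :=
  fun e w => by
    by_cases z : e = a
    · exact z ▸ h
    · exact absurd (Pi.single_eq_of_ne z _) w

theorem row {A B : Matrix κ κ k} (h : A * B = 1) (a : κ) : A a ᵥ* B = Pi.single a 1 := by
  funext e
  have := congrFun (congrFun h a) e
  rw [Matrix.one_apply, Matrix.mul_apply] at this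
  rw [Pi.single_apply]
  simpa [Matrix.vecMul, dotProduct, eq_comm] using this

/-- A graded left inverse. -/
theorem linv {m : ℕ} (la : Fin m → ℝ) (wt : κ → ℝ) (pos : κ → Prop) (γ : Matrix κ (Fin m) k)
    (gr : ∀ a p, γ a p ≠ 0 → la p = wt a) (h : ∀ v ∈ Sp k pos, v ᵥ* γ = 0 → v = 0) :
    ∃ Λ : Matrix κ (Fin m) k, (∀ a p, Λ a p ≠ 0 → pos a ∧ la p = wt a) ∧
      ∀ a b, pos b → ∑ p, Λ a p * γ b p = if a = b then 1 else 0 := by
  classical
  obtain ⟨g, hg⟩ := (γ.vecMulLinear.domRestrict (Sp k pos)).exists_leftInverse_of_injective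
    (LinearMap.ker_eq_bot'.2 fun v u => Subtype.ext (h v v.2 u))
  refine ⟨fun a p => if la p = wt a then (g fun j => if p = j then 1 else 0).1 a else 0,
    fun a p u => ?_, fun a b hb => ?_⟩
  · beta_reduce at u
    split_ifs at u with z
    exacts [⟨(g _).2 a u, z⟩, absurd rfl u]
  have e := congrFun (congrArg Subtype.val (LinearMap.congr_fun hg ⟨_, single_mem hb⟩)) a
  simp only [LinearMap.comp_apply, LinearMap.domRestrict_apply, vecMulLinear_apply,
    single_one_vecMul, LinearMap.id_apply] at e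
  rw [LinearMap.pi_apply_eq_sum_univ, Pi.single_apply] at e
  by_cases z : wt a = wt b
  · rw [← e, Submodule.coe_sum, Finset.sum_apply]
    refine Finset.sum_congr rfl fun p _ => ?_
    by_cases y : γ b p = 0
    · simp [y]
    · simp [(gr b p y).trans z.symm, mul_comm]
  · rw [if_neg fun w => z (congrArg wt w)]
    refine Finset.sum_eq_zero fun p _ => ?_
    beta_reduce
    split_ifs with y
    · rw [not_not.1 fun w => z (y.symm.trans (gr b p w)), mul_zero]
    · rw [zero_mul]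

end N6FldA

open N6FldA in
theorem n6Fld : FLD := by
  intro k κ _ _ _ m la wt c β S w0 hc hβ hS cl hK
  classical
  let G : Submodule k (κ → k) := LinearMap.ker β.vecMulLinear ⊓ Sp k (S false)
  have mG : ∀ v, v ∈ G ↔ v ᵥ* β = 0 ∧ ∀ e, v e ≠ 0 → S false e := fun _ => Iff.rfl
  obtain ⟨A1, B1, t1, i1, p1, q1, r1, l1⟩ := adapt wt 0 (fun s => if s ≤ 0 then ⊤ else G)
    (fun s s' h => by
      dsimp only
      split_ifs with x y y
      exacts [le_rfl, absurd (h.trans x) y, le_top, le_rfl]) {0, 1} 0 (by simp) (if_pos le_rfl)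
    (fun s w v hv => by
      split_ifs at hv ⊢
      · trivial
      refine (mG _).2 ⟨funext fun p => ?_, fun e u => ((mG v).1 hv).2 e fun z => u (by
        simp [pj_apply, z])⟩
      have e : (pj wt w v ᵥ* β) p = (if la p = w then 1 else 0) * (v ᵥ* β) p := by
        simp only [vecMul, dotProduct, pj_apply, Finset.mul_sum]
        refine Finset.sum_congr rfl fun a _ => ?_
        by_cases z : β a p = 0
        · simp [z]
        · simp [hβ a p z]
      rw [e, ((mG v).1 hv).1]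
      simp)
  have i1' : B1 * A1 = 1 := mul_eq_one_comm.1 i1
  let Lt : κ × Bool → Submodule k (κ → k) := fun i =>
    (Sp k fun e => S i.2 e ∧ wt e = wt i.1).comap A1.vecMulLinear
  let ls : κ × Bool → ℝ := fun i => if i.2 then wt i.1 else 0
  have hL : ∀ i, ∀ x ∈ Lt i, ∀ e, x e ≠ 0 → wt e = wt i.1 := fun i x u e v => by
    rw [← vecMul_one x, ← i1, ← vecMul_vecMul] at v
    obtain ⟨a, y, z⟩ := vm_ne v
    exact (q1 a e z).1.trans (u a y).2
  have gc : ∀ A B : Matrix κ κ k, Pat wt 0 A → Pat wt 0 B → ∀ a b e, nc c A B a b e ≠ 0 →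
      wt e = wt a + wt b := fun A B x y a b e u => by
    obtain ⟨e', v, w⟩ := vm_ne u
    obtain ⟨a', b', x', y', z⟩ := br_ne v
    rw [(y _ _ w).1, hc _ _ _ z, (x _ _ x').1, (x _ _ y').1]
  obtain ⟨A2, B2, t, h⟩ := exists_adp (nc c A1 B1) Lt ls (fun i => wt i.1) wt
    (fun a => if 0 < t1 a then 0 else 1) (AddMonoidHom.id ℝ) (gc A1 B1 p1 q1) hL
    (fun i => by simp only [ls]; split_ifs; exacts [(w0 _).le, le_rfl]) fun i => w0 i.1
  have pA : Pat wt 0 (A2 * A1) := Pat.mul (fun a e u => ⟨(h.pA a e u).1, le_rfl⟩) p1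
  have pB : Pat wt 0 (B1 * B2) := q1.mul fun a e u => ⟨(h.pB a e u).1, le_rfl⟩
  have inv : A2 * A1 * (B1 * B2) = 1 := by
    rw [Matrix.mul_assoc, ← Matrix.mul_assoc A1, i1, Matrix.one_mul, h.inv]
  have rA : ∀ a, (A2 * A1) a = A2 a ᵥ* A1 := fun _ => rfl
  have rB : ∀ a, (B1 * B2) a = B1 a ᵥ* B2 := fun _ => rfl
  have en : nc c (A2 * A1) (B1 * B2) = nc (nc c A1 B1) A2 B2 := by
    funext a b
    rw [nc, nc, rA, rA, ← vecMul_vecMul, br_vm]
  have fl : ∀ s, Fl (nc c A1 B1) Lt ls s ≤ (Sp k fun e =>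
      S false e ∧ s ≤ wt e ∧ (s = wt e → S true e)).comap A1.vecMulLinear := fun s => by
    have : ∀ n x, Wv (nc c A1 B1) Lt n x → ∀ e, (x ᵥ* A1) e ≠ 0 →
        S false e ∧ sv ls n ≤ wt e ∧ (sv ls n = wt e → S true e) := fun n x u => by
      induction u with
      | of i x u =>
        intro e v
        obtain ⟨a, _ | _⟩ := i
        · exact ⟨(u e v).1, by simpa [sv_single, ls] using (w0 e).le,
            fun z => absurd (by simpa [sv_single, ls] using z) (w0 e).ne⟩
        · exact ⟨hS e (u e v).1, by simpa [sv_single, ls] using (u e v).2.ge, fun _ => (u e v).1⟩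
      | @br n n' x y _ _ u v =>
        intro e z
        rw [← vecMul_one (br _ x y), ← br_vm, vecMul_one, vecMul_vecMul, i1', vecMul_one] at z
        obtain ⟨a, b, z1, z2, z3⟩ := br_ne z
        have ua := u a z1
        have vb := v b z2
        rw [sv_add, hc a b e z3]
        exact ⟨cl _ a b e ua.1 vb.1 z3, add_le_add ua.2.1 vb.2.1, fun w => cl _ a b e
          (ua.2.2 (by linarith [ua.2.1, vb.2.1])) (vb.2.2 (by linarith [ua.2.1, vb.2.1])) z3⟩
    refine Submodule.span_le.2 fun x ⟨n, u, v⟩ e z => ?_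
    have y := this n x v e z
    exact ⟨y.1, u.trans y.2.1, fun w => y.2.2 (le_antisymm y.2.1 (w ▸ u))⟩
  have rw1 : ∀ a e, (A2 * A1) a e ≠ 0 → 0 ≤ t a →
      S false e ∧ t a ≤ wt a ∧ (t a = wt a → S true e) := fun a e u v =>
    (pA a e u).1 ▸ fl _ (h.mem a v) e u
  have le : ∀ a, t a ≤ wt a := fun a => by
    rcases le_total 0 (t a) with u | u
    · obtain ⟨e, v, -⟩ := vm_ne (x := (A2 * A1) a) (A := B1 * B2) (e := a) (by simp [row inv])
      exact (rw1 a e v u).2.1
    · exact u.trans (w0 a).le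
  have cw : ∀ i e a, (B1 * B2) e a ≠ 0 → S i e → ls (e, i) ≤ t a := fun i e a u v =>
    h.low _ _ (Fl_lt (e, i) (show B1 e ᵥ* A1 ∈ Sp k _ from row i1' e ▸ single_mem ⟨v, rfl⟩)) a u
  have z1 : ∀ a, 0 < t1 a → (A2 * A1) a ∈ G := fun a u => by
    rw [rA, vm_sum]
    refine G.sum_mem fun e _ => ?_
    by_cases z : A2 a e = 0
    · simp [z]
    have y := (h.pA a e z).2
    have : 0 < t1 e := by by_contra w; simp [u, w] at y
    exact G.smul_mem _ (by simpa [this.not_ge] using (r1 e).2)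
  have z2 : ∀ v ∈ G, ∀ a, (v ᵥ* (B1 * B2)) a ≠ 0 → 0 < t1 a := fun v u a z => by
    rw [← vecMul_vecMul] at z
    obtain ⟨e, x, y⟩ := vm_ne z
    have w := one_pos.trans_le (l1 1 (by simp) v (by rwa [if_neg (by norm_num)]) e x)
    have y' := (h.pB e a y).2
    by_contra w'
    simp [w, w'] at y'
  obtain ⟨Λ, m1, m2⟩ := linv la wt (fun a => 0 ≤ t a ∧ ¬0 < t1 a) (A2 * A1 * β)
    (fun a p u => by
      obtain ⟨e, -, v⟩ := Finset.exists_ne_zero_of_sum_ne_zero u
      rw [hβ e p (right_ne_zero_of_mul v), (pA a e (left_ne_zero_of_mul v)).1])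
    (fun v u z => funext fun a => by
      by_contra y
      refine (u a y).2 (z2 (v ᵥ* (A2 * A1)) ((mG _).2 ⟨by rwa [vecMul_vecMul], fun e x => ?_⟩) a
        (by rwa [vecMul_vecMul, inv, vecMul_one]))
      obtain ⟨b, x1, x2⟩ := vm_ne x
      exact (rw1 b e x2 (u b x1).1).1)
  refine ⟨A2 * A1, B1 * B2, t, fun a => 0 ≤ t a ∧ ¬0 < t1 a, Λ, inv, pA, pB, le, fun _ u => u.1,
    fun a e u => ⟨fun v => (rw1 a e u (v ▸ (w0 a).le)).2.2 v, fun v => (rw1 a e u v).1⟩,
    fun e a u => ⟨fun v => le_antisymm (le a) ((pB e a u).1 ▸ cw true e a u v), cw false e a u⟩,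
    fun a b e u x y => ⟨h.fil a b e (en ▸ u) x y, fun x' y' z => ?_⟩, fun e u v => ?_,
    fun a p u v => congrFun ((mG _).1 (z1 a (not_not.1 fun w => v ⟨u, w⟩))).1 p, m1,
    fun a b _ => m2 a b⟩
  · have ga := (mG _).1 (z1 a (not_not.1 fun w => x' ⟨x, w⟩))
    have gb := (mG _).1 (z1 b (not_not.1 fun w => y' ⟨y, w⟩))
    refine z.2 (z2 _ ((mG _).2 ⟨hK _ _ ga.1 gb.1, fun e' w => ?_⟩) e u)
    obtain ⟨a', b', w1, w2, w3⟩ := br_ne w
    exact cl false a' b' e' (ga.2 a' w1) (gb.2 b' w2) w3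
  obtain ⟨lam, hl⟩ := h.gen
    { carrier := {z | ∃ lam : κ → κ → k, ∀ e', 0 < t e' → t e' < wt e' →
        z e' = ∑ a, ∑ b, lam a b * cg (nc (nc c A1 B1) A2 B2) t a b e'}
      add_mem' := fun ⟨l, x⟩ ⟨l', y⟩ => ⟨l + l', fun e' z z' => by
        simp [x e' z z', y e' z z', add_mul, Finset.sum_add_distrib]⟩
      zero_mem' := ⟨0, by simp⟩
      smul_mem' := fun r _ ⟨l, x⟩ => ⟨r • l, fun e' z z' => by
        simp [x e' z z', Finset.mul_sum, mul_assoc]⟩ }
    (fun i x w => ⟨0, fun e' z z' => by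
      simp only [Pi.zero_apply, zero_mul, Finset.sum_const_zero, sym, pj_apply]
      by_contra y
      split_ifs at y with y'
      · obtain ⟨a, y1, y2⟩ := vm_ne y
        have := (h.pB a e' y2).1.trans (hL i x w a y1)
        simp only [ls] at y'
        split_ifs at y' <;> linarith
      · exact y rfl⟩)
    (fun x _ y _ => ⟨fun a b => x a * y b, fun e' _ _ => by
      simp only [br]; exact Finset.sum_congr rfl fun a _ => Finset.sum_congr rfl fun b _ => by ring⟩)
    e u.le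
  have ng : ∀ a b e', cg (nc (nc c A1 B1) A2 B2) t a b e' ≠ 0 →
      wt e' = wt a + wt b ∧ t e' = t a + t b := fun a b e' z => by
    unfold cg at z
    split_ifs at z with y
    exacts [⟨gc _ _ pA pB a b e' (en ▸ z), y.2.2⟩, absurd rfl z]
  rw [en]
  refine ⟨fun a b => if wt a + wt b = wt e ∧ t a + t b = t e then lam a b else 0, fun e' => ?_⟩
  by_cases z : wt e' = wt e ∧ t e' = t e
  · have := hl e' (z.2 ▸ u) (z.1 ▸ z.2 ▸ v)
    rw [Pi.single_apply] at this
    refine Eq.trans (Finset.sum_congr rfl fun a _ => Finset.sum_congr rfl fun b _ => ?_) this.symm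
    by_cases y : cg (nc (nc c A1 B1) A2 B2) t a b e' = 0
    · simp [y]
    · simp [(ng a b e' y).1.symm.trans z.1, (ng a b e' y).2.symm.trans z.2]
  · rw [if_neg fun w => z ⟨congrArg wt w, congrArg t w⟩]
    refine Finset.sum_eq_zero fun a _ => Finset.sum_eq_zero fun b _ => ?_
    beta_reduce
    split_ifs with x
    · rw [not_not.1 fun y => z ⟨(ng a b e' y).1.trans x.1, (ng a b e' y).2.trans x.2⟩, mul_zero]
    · rw [zero_mul]

end Pool.Agent.MP_5168f5_an.AN.N6
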