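import Pool.Agent.MP_5168f5_an.AN.LP4
import Pool.Agent.MP_5168f5_an.AN.LP5
import Pool.Agent.MP_5168f5_an.AN.LP6
import Pool.Agent.MP_5168f5_an.AN.LP7
import Pool.Agent.MP_5168f5_an.AN.LP8
import Pool.Agent.MP_5168f5_an.AN.N3Tail
import Pool.Agent.MP_5168f5_an.AN.N6Dec
import Pool.Agent.MP_5168f5_an.AN.N6Fld
import Pool.Agent.MP_5168f5_an.AN.N6Oa
import Pool.Agent.MP_5168f5_an.AN.N6Pol

/-! The light class with one abstract extra condition: from a member to the chamber. -/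

namespace Pool.Agent.MP_5168f5_an.AN.LP

open H19 H17S H17F R4 Filter LC
open G39 (dl dl_inv dl_pos)
open GA (Mt)
open S20 (dn dn_eq mem_cv pb_cv_cE)
open N6 (PW REL CA ATC CEL ACS INV wA tA sy gr_of)

theorem cut : SCut :=
  sCut (n3NUL sRes) (n3POS sRes n3Add) (n3WIN sRes) (n3BUD sFrz n3Pert N3.n3Tail) (n3Drop n6Chg)

theorem prep : PREP := n6Prep (N6.n6Oa N6.n6Fld) sZoom n6Chg n6Cha

variable {m : ℕ} {κ : Type} [Fintype κ] {Ω Λ : ℕ → Type} {σ : St m κ} {S : Bool → Finset κ}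
  {X : ∀ n, Dt m κ (Ω n) (Λ n)}

/-- A nonempty class has a member without concentrated characters. -/
theorem ex_ac [Ex m κ Ω Λ] (hX : L σ S X) : ∃ (S : Bool → Finset κ) (L₀ : ℝ)
    (X : ∀ n, Dt m κ (Ω n) (Λ n)), 1 ≤ L₀ ∧ L σ S X ∧ AC σ S L₀ X ∧ Min σ Ω Λ S := by
  classical
  let f : (Bool → Finset κ) → ℕ := fun S => (S false).card * (Fintype.card κ + 1) + (S true).card
  obtain ⟨S₀, ⟨X₀, h₀⟩, hm⟩ := (measure f).wf.has_min
    {S | ∃ X : ∀ n, Dt m κ (Ω n) (Λ n), L σ S X} ⟨S, X, hX⟩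
  have hM : Min σ Ω Λ S₀ := fun S' X' h' => by
    have k : f S₀ ≤ f S' := not_lt.1 (hm S' ⟨X', h'⟩)
    have a := (S' true).card_le_univ
    simp only [f] at k
    refine ⟨not_lt.1 fun b => ?_, fun e => ?_⟩
    · have := Nat.mul_le_mul_right (Fintype.card κ + 1) (Nat.succ_le_of_lt b)
      rw [Nat.succ_mul] at this
      omega
    · rw [e] at k
      omega
  obtain ⟨L₀, X', a, b, c⟩ := cut m κ Ω Λ σ S₀ X₀ h₀ hM
  exact ⟨S₀, L₀, X', a, b, c, hM⟩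

/-- A nonempty class has a member on the chamber. -/
theorem chamber [DecidableEq κ] [Ex m κ Ω Λ] (hX : L σ S X) : ∃ (S : Bool → Finset κ) (L₀ : ℝ)
    (t : κ → ℝ) (pos : κ → Prop) (Lm : ℕ → κ → Fin m → ℝ) (X : ∀ n, Dt m κ (Ω n) (Λ n)) (E : ℕ)
    (Γ : ℕ → ℝ) (W : ℕ → κ → MvPolynomial (Fin m) ℝ) (Q : ℕ → Fin m → MvPolynomial κ ℝ),
    LB σ S L₀ t pos Lm X ∧ PW σ pos X E Γ W Q ∧ REL σ S pos X W ∧ INV σ t pos X W ∧
      CA σ.Φ (wA σ.wt t) (tA t) pos (sy σ X) ∧ ATC σ S t X ∧ CEL σ t X ∧ ACS σ L₀ t X := by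
  obtain ⟨S, L₀, X, h1, h2, h3, -⟩ := ex_ac hX
  obtain ⟨S, t, pos, Lm, X, a⟩ := prep m κ Ω Λ σ S X L₀ h1 h2 h3
  obtain ⟨X, b⟩ := n6Res m κ Ω Λ σ S L₀ t pos Lm X a (sInd m κ Ω Λ σ S X L₀ h1 a.l a.ac)
  obtain ⟨E, Γ, W, Q, w1, w2, w3⟩ := N6.n6Pol κ m (sM X) σ.Φ σ.la σ.o σ.wt pos (fun n => (X n).B)
    (fun n => (X n).c) Lm b.big b.wp ((b.fr.and b.ad.li).mono fun n z => ⟨z.1.1, gr_of z.1, z.2⟩)
    b.oB b.ad.ob
  have w : PW σ pos X E Γ W Q := ⟨w1, w2, w3⟩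
  have ca := n6Alg m κ Ω Λ σ S L₀ t pos Lm X E Γ W Q b w
  obtain ⟨a1, a2⟩ := n6Atc m κ Ω Λ σ S L₀ t pos Lm X E Γ W Q b w ca
  exact ⟨S, L₀, t, pos, Lm, X, E, Γ, W, Q, b, w, n6Rel m κ Ω Λ σ S L₀ t pos Lm X E Γ W Q b w,
    n6Inv N6.n6Dec m κ Ω Λ σ S L₀ t pos Lm X E Γ W Q b w, ca, a1, a2,
    n6Acs m κ Ω Λ σ S L₀ t pos Lm X E Γ W Q b w ca a1⟩

/-! ### Consequences of a move -/

variable {G : ∀ n, Ω n → Prop} {j : ∀ n, Ω n → Mt (Fin m)} {w : ∀ n, Ω n → ℝ}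

/-- Domination for all events given a piece and a cell. -/
theorem Mv.joint (h : Mv σ X G j w) (a a' : ℚ≥0) {c : ℝ} (hc : 0 < c) :
    ∀ᶠ n in UF, ∀ ω ∈ (cE (X n).P (G n)).S, ∀ F : Ω n → Prop,
      pb (cv (cE (X n).P (G n)) (jn X a a' n) (jn X a a' n ω)) F ≤
        Real.exp (c * (X n).M) * pb (cv (X n).P (jn X a a' n) (jn X a a' n ω)) F := by
  filter_upwards [h.sup, h.tr a a' c hc] with n x y ω hω F
  obtain ⟨o1, o2⟩ := (x ω).1 hω
  exact pb_res o1 o2 (y ω o1 o2) F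

/-- The event is not rare in the pieces. -/
theorem Mv.tr' (h : Mv σ X G j w) (hX : LI σ S X) (a : ℚ≥0) {c : ℝ} (hc : 0 < c) :
    ∀ᶠ n in UF, ∀ ω ∈ (X n).P.S, G n ω → dl (sM X) c n ≤ pb ((X n).fb true a ω) (G n) := by
  filter_upwards [h.tr a a c hc, hX.com a] with n y z ω o1 o2
  exact (y ω o1 o2).trans_eq (congrArg (pb · _) (cE_congr fun v hv =>
    ⟨fun e => (Prod.mk.inj e).1, fun e => Prod.ext e (z v hv ω o1 e)⟩))

/-- Domination for all events in a piece. -/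
theorem Mv.piece (h : Mv σ X G j w) (hX : LI σ S X) (a : ℚ≥0) {c : ℝ} (hc : 0 < c) :
    ∀ᶠ n in UF, ∀ ω ∈ (cE (X n).P (G n)).S, ∀ F : Ω n → Prop,
      pb (((X n).chg (cE (X n).P (G n)) (j n)).fb true a ω) F ≤
        Real.exp (c * (X n).M) * pb ((X n).fb true a ω) F := by
  filter_upwards [h.sup, h.tr' hX a hc] with n x y ω hω F
  obtain ⟨o1, o2⟩ := (x ω).1 hω
  exact pb_res o1 o2 (y ω o1 o2) F

/-- Domination in a cell for the events read from the new element and a deeper cell. -/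
theorem Mv.cell (h : Mv σ X G j w) (a a' : ℚ≥0) {c : ℝ} (hc : 0 < c) :
    ∀ᶠ n in UF, ∀ ω ∈ (cE (X n).P (G n)).S, ∀ F : Ω n → Prop,
      Fn (X n).P F (fun v => (j n v, (X n).O false a' v)) →
      pb (((X n).chg (cE (X n).P (G n)) (j n)).fb false a ω) F ≤
        Real.exp (c * (X n).M) * pb ((X n).fb false a ω) F := by
  filter_upwards [h.sup, h.lo a _ (half_pos hc), h.up a a' _ (half_pos hc)] with n x y z ω hω F hF
  obtain ⟨o1, o2⟩ := (x ω).1 hω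
  have e := pb_cv_cE o1 o2 ((X n).O false a) F
  have d := dl_pos (sM X) (c / 2) n
  have k := (mul_le_mul_of_nonneg_left ((mul_le_mul_of_nonneg_right (y ω o1 o2)
    (pb_nonneg _ F)).trans e.le) d.le).trans (z ω o1 o2 F hF)
  rw [← mul_assoc, ← mul_assoc, ← G39.dl_half, mul_right_comm, mul_comm (w n ω)] at k
  have k' := le_of_mul_le_mul_right k (h.w0 n ω o1).1
  rwa [← le_inv_mul_iff₀ (dl_pos _ _ _), dl_inv] at k'

/-- Deeper cells do not become rare. -/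
theorem Mv.low (h : Mv σ X G j w) (hX : LI σ S X) {a a' : ℚ≥0} (e : a ≤ a') {c : ℝ} (hc : 0 < c) :
    ∀ᶠ n in UF, ∀ ω ∈ (cE (X n).P (G n)).S,
      dn (X n).P ((X n).O false a') ((X n).O false a) ω ≤ Real.exp (c * (X n).M) *
        dn (cE (X n).P (G n)) ((X n).O false a') ((X n).O false a) ω := by
  filter_upwards [h.sup, h.lo a' _ (half_pos hc), h.up a a _ (half_pos hc), hX.nest false a a' e]
    with n x y z s ω hω
  obtain ⟨o1, o2⟩ := (x ω).1 hω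
  have e1 := pb_cv_cE o1 o2 ((X n).O false a) fun v => (X n).O false a' v = (X n).O false a' ω
  have z1 := z ω o1 o2 (fun _ => True) fun _ _ _ _ _ => rfl
  simp only [and_true, pb_true, mul_one] at z1
  have e2 : pb (cv (X n).P ((X n).O false a) ((X n).O false a ω))
      (fun v => G n v ∧ (X n).O false a' v = (X n).O false a' ω) =
      dn (X n).P ((X n).O false a') ((X n).O false a) ω * pb ((X n).fb false a' ω) (G n) := by
    have q1 : pb (X n).P (fun v => (X n).O false a v = (X n).O false a ω ∧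
        (X n).O false a' v = (X n).O false a' ω) =
        pb (X n).P fun v => (X n).O false a' v = (X n).O false a' ω :=
      pb_congr fun v hv => ⟨fun k => k.2, fun k => ⟨s v hv ω o1 k, k⟩⟩
    have q2 : pb (X n).P (fun v => (X n).O false a v = (X n).O false a ω ∧
        (G n v ∧ (X n).O false a' v = (X n).O false a' ω)) =
        pb (X n).P fun v => (X n).O false a' v = (X n).O false a' ω ∧ G n v :=
      pb_congr fun v hv => ⟨fun k => ⟨k.2.2, k.2.1⟩, fun k => ⟨s v hv ω o1 k.1, k.2, k.1⟩⟩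
    have q3 := (S20.pb_val o1 ((X n).O false a')).ne'
    rw [S20.dn_eq o1, Dt.fb, S20.pb_cv' o1, S20.pb_cv' o1, q1, q2]
    field_simp
  have d := dl_pos (sM X) (c / 2) n
  have k1 := mul_le_mul_of_nonneg_left (y ω o1 o2) (S20.dn_pos o1 ((X n).O false a')
    ((X n).O false a)).le
  rw [← e2, ← e1] at k1
  have k2 := (mul_le_mul_of_nonneg_left k1 d.le).trans_eq (mul_assoc _ _ _).symm
  have k3 := k2.trans (mul_le_mul_of_nonneg_right z1 (pb_nonneg _ _))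
  rw [← inv_mul_le_iff₀ (Real.exp_pos _), ← dl_inv (sM X), inv_inv, G39.dl_half]
  refine le_of_mul_le_mul_left (le_trans (le_of_eq (by ring)) k3) (h.w0 n ω o1).1

end Pool.Agent.MP_5168f5_an.AN.LP
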