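import Pool.Agent.MP_5168f5_an.AN.N3Spec
import Pool.Agent.MP_5168f5_an.AN.LC2

/-! The light class with one abstract extra condition: definitions and statements. -/

namespace Pool.Agent.MP_5168f5_an.AN.LP

open H19 H17S H17F R4 Filter LC MvPolynomial
open G39 (dl OB)
open GA (Mt Neg mB mC)
open S20 (dn)
open N3 (Bad R0 R1 R2 Fm TAIL)
open N6 (co At IND Chg Ad6 PW REL CA ATC CEL ACS INV wA tA sy OA1 DEC)

section Seq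

variable {m : ℕ} {κ : Type} [Fintype κ] {Ω Λ : ℕ → Type}

/-- The algebraic part of the light class and the increments. -/
structure LI (σ : St m κ) (S : Bool → Finset κ) (X : ∀ n, Dt m κ (Ω n) (Λ n)) : Prop where
  cc : 0 < σ.cc
  lo : σ.la σ.o = 0
  lp : ∀ p, p ≠ σ.o → 0 < σ.la p
  wp : ∀ a, 0 < σ.wt a
  ss : S true ⊆ S false
  big : Big (sM X)
  lv : ∀ a : ℚ≥0, Eqv (sM X) (fun n => (X n).lv a - (X n).lv 0) fun n => (a : ℝ) * (X n).M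
  fr : ∀ᶠ n in UF, (X n).Fr σ
  bd : Al (fun _ Y => Y.Bd) X
  sub : ∀ k, ∀ a ∈ S k, ∀ b ∈ S k, ∀ e, e ∉ S k → Neg (sM X) fun n => (X n).c a b e
  nest : ∀ k a a', a ≤ a' → FnE (sP X) (sO X k a) (sO X k a')
  com : ∀ a, FnE (sP X) (sO X false a) (sO X true a)
  inc : ∀ k a, Al (fun _ Y => Y.Inc σ (S k) k a) X

/-- A piece of level `a` together with the cell of level `a'`. -/
abbrev jn (X : ∀ n, Dt m κ (Ω n) (Λ n)) (a a' : ℚ≥0) (n : ℕ) (ω : Ω n) : Λ n × Λ n :=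
  ((X n).O true a ω, (X n).O false a' ω)

/-- A move: conditioning on `G` and a negligible change of the group element. The event `G` is
not rare in the pieces; in the cells it has density about `w` for the events that are read from
the new group element and from a deeper cell. -/
structure Mv (σ : St m κ) (X : ∀ n, Dt m κ (Ω n) (Λ n)) (G : ∀ n, Ω n → Prop)
    (j : ∀ n, Ω n → Mt (Fin m)) (w : ∀ n, Ω n → ℝ) : Prop where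
  ne : ∀ᶠ n in UF, ∃ ω ∈ (X n).P.S, G n ω
  cls : Cls σ X (sP X) j
  w0 : ∀ n, ∀ ω ∈ (X n).P.S, 0 < w n ω ∧ w n ω ≤ 1
  tr : ∀ a a' (c : ℝ), 0 < c → ∀ᶠ n in UF, ∀ ω ∈ (X n).P.S, G n ω →
    dl (sM X) c n ≤ pb (cv (X n).P (jn X a a' n) (jn X a a' n ω)) (G n)
  lo : ∀ a (c : ℝ), 0 < c → ∀ᶠ n in UF, ∀ ω ∈ (X n).P.S, G n ω →
    dl (sM X) c n * w n ω ≤ pb ((X n).fb false a ω) (G n)
  up : ∀ a a' (c : ℝ), 0 < c → ∀ᶠ n in UF, ∀ ω ∈ (X n).P.S, G n ω → ∀ F : Ω n → Prop,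
    Fn (X n).P F (fun v => (j n v, (X n).O false a' v)) →
    dl (sM X) c n * pb ((X n).fb false a ω) (fun v => G n v ∧ F v) ≤
      w n ω * pb ((X n).fb false a ω) F

end Seq

/-- An extra condition that is stable under limits, shift and zoom, moves, and change of basis. -/
class Ex (m : ℕ) (κ : Type) [Fintype κ] (Ω Λ : ℕ → Type) where
  E : St m κ → (∀ n, Dt m κ (Ω n) (Λ n)) → Prop
  cf : ∀ σ, CF (E σ)
  idx : ∀ σ S X (a e : ℚ≥0), 0 < e → LI σ S X → E σ X → E σ fun n => (X n).idx a e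
  mv : ∀ σ S X G j w, LI σ S X → Mv σ X G j w → E σ X →
    E σ fun n => (X n).chg (cE (X n).P (G n)) (j n)
  bas : ∀ σ X (B : ℕ → κ → Mt (Fin m)) (c : ℕ → κ → κ → κ → ℝ), E σ X →
    E σ fun n => (X n).bas (B n) (c n)

section Seq

variable {m : ℕ} {κ : Type} [Fintype κ] {Ω Λ : ℕ → Type}

/-- The class. -/
structure L [Ex m κ Ω Λ] (σ : St m κ) (S : Bool → Finset κ) (X : ∀ n, Dt m κ (Ω n) (Λ n)) :
    Prop extends LI σ S X where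
  ex : Ex.E σ X

/-- The uniform form of `LI`. -/
structure LU (σ : St m κ) (S : Bool → Finset κ) (X : ∀ n, Dt m κ (Ω n) (Λ n)) : Prop
    extends L0 σ S X where
  inc : ∀ k a, Au (sM X) fun n => (X n).IncU σ (S k) k a

theorem lu_iff {σ : St m κ} {S : Bool → Finset κ} {X : ∀ n, Dt m κ (Ω n) (Λ n)} :
    LI σ S X ↔ LU σ S X :=
  ⟨fun h => ⟨⟨h.cc, h.lo, h.lp, h.wp, h.ss, h.big, h.lv, h.fr,
    (al_iff fun n => (X n).mo_bd).1 h.bd, h.sub, h.nest, h.com⟩,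
    fun k a => (al_iff fun n => (X n).mo_inc σ _ k a).1 (h.inc k a)⟩,
    fun h => ⟨h.cc, h.lo, h.lp, h.wp, h.ss, h.big, h.lv, h.fr,
    (al_iff fun n => (X n).mo_bd).2 h.bd, h.sub, h.nest, h.com,
    fun k a => (al_iff fun n => (X n).mo_inc σ _ k a).2 (h.inc k a)⟩⟩

/-- The algebras cannot be made smaller. -/
def Min (σ : St m κ) (Ω Λ : ℕ → Type) [Ex m κ Ω Λ] (S : Bool → Finset κ) : Prop :=
  ∀ (S' : Bool → Finset κ) (X' : ∀ n, Dt m κ (Ω n) (Λ n)), L σ S' X' →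
    (S false).card ≤ (S' false).card ∧
      ((S false).card = (S' false).card → (S true).card ≤ (S' true).card)

variable [DecidableEq κ] [Ex m κ Ω Λ]

/-- A member of the class in an adapted basis. -/
structure LA (σ : St m κ) (S : Bool → Finset κ) (L₀ : ℝ) (t : κ → ℝ) (pos : κ → Prop)
    (Lm : ℕ → κ → Fin m → ℝ) (X : ∀ n, Dt m κ (Ω n) (Λ n)) : Prop where
  l : L σ S X
  ac : AC σ S L₀ X
  one : 1 ≤ L₀
  st : ∀ a, a ∈ S true ↔ t a = σ.wt a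
  sf : ∀ a, a ∈ S false ↔ 0 ≤ t a
  ad : Ad6 (Neg (sM X)) (sM X) σ.la σ.o σ.wt t pos (fun n => (X n).B) (fun n => (X n).c) Lm

/-- The same after the outer basis vectors (`t a < 0`) have been made negligibly short. -/
structure LB (σ : St m κ) (S : Bool → Finset κ) (L₀ : ℝ) (t : κ → ℝ) (pos : κ → Prop)
    (Lm : ℕ → κ → Fin m → ℝ) (X : ∀ n, Dt m κ (Ω n) (Λ n)) : Prop where
  cc : 0 < σ.cc
  lo : σ.la σ.o = 0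
  wp : ∀ a, 0 < σ.wt a
  big : Big (sM X)
  lv : ∀ a : ℚ≥0, Eqv (sM X) (fun n => (X n).lv a - (X n).lv 0) fun n => (a : ℝ) * (X n).M
  fr : ∀ᶠ n in UF, (X n).Fr σ
  oB : ∀ a p q, OB (sM X) fun n => (X n).B a p q
  oc : ∀ a b e, OB (sM X) fun n => (X n).c a b e
  nest : ∀ k a a', a ≤ a' → FnE (sP X) (sO X k a) (sO X k a')
  com : ∀ a, FnE (sP X) (sO X false a) (sO X true a)
  inc : ∀ k a, Al (fun _ Y => Y.Inc σ (S k) k a) X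
  ex : Ex.E σ X
  ac : AC σ S L₀ X
  one : 1 ≤ L₀
  st : ∀ a, a ∈ S true ↔ t a = σ.wt a
  sf : ∀ a, a ∈ S false ↔ 0 ≤ t a
  ad : Ad6 (Neg (sM X)) (sM X) σ.la σ.o σ.wt t pos (fun n => (X n).B) (fun n => (X n).c) Lm
  ind : IND σ S X
  dead : ∀ a b e, t a < 0 ∨ t b < 0 → 0 ≤ t e → Neg (sM X) fun n => (X n).c a b e
  stab : ∀ a p, ¬pos a → Neg (sM X) fun n => (X n).B a p σ.o

end Seq

/-! ### Closure properties -/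

def SZoom : Prop := ∀ (m : ℕ) (κ : Type) [Fintype κ] (Ω Λ : ℕ → Type) [Ex m κ Ω Λ] (σ : St m κ)
  (S : Bool → Finset κ) (X : ∀ n, Dt m κ (Ω n) (Λ n)) (M₀ : ℕ → ℝ) (L₀ : ℝ), L σ S X →
  Sm (sM X) M₀ → ∃ e : ℕ → ℚ≥0, L σ S (fun n => (X n).idx 0 (e n)) ∧
    (AC σ S L₀ X → AC σ S L₀ fun n => (X n).idx 0 (e n)) ∧
    Sm (sM X) (fun n => (((X n).idx 0 (e n)).M : ℝ)) ∧ Sm (sM fun n => (X n).idx 0 (e n)) M₀

def SRes : Prop := ∀ (m : ℕ) (κ : Type) [Fintype κ] (Ω Λ : ℕ → Type) [Ex m κ Ω Λ] (σ : St m κ)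
  (S : Bool → Finset κ) (X : ∀ n, Dt m κ (Ω n) (Λ n)) (G : ∀ n, Ω n → Prop), L σ S X →
  (∀ c : ℝ, 0 < c → ∀ᶠ n in UF, dl (sM X) c n ≤ pb (X n).P (G n)) →
  ∃ G' : ∀ n, Ω n → Prop, (∀ n ω, G' n ω → G n ω) ∧
    (∀ᶠ n in UF, pb (X n).P (G n) ≤ 2 * pb (X n).P (G' n)) ∧
    (∀ k a (c : ℝ), 0 < c → ∀ᶠ n in UF, ∀ ω ∈ (X n).P.S, G' n ω →
      dl (sM X) c n ≤ pb ((X n).fb k a ω) (G' n)) ∧
    L σ S (fun n => (X n).chg (cE (X n).P (G' n)) (X n).j) ∧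
    ∀ L₀, AC σ S L₀ X → AC σ S L₀ fun n => (X n).chg (cE (X n).P (G' n)) (X n).j

def SFrz : Prop := ∀ (m : ℕ) (κ : Type) [Fintype κ] (Ω Λ β : ℕ → Type) [Ex m κ Ω Λ] (σ : St m κ)
  (S : Bool → Finset κ) (X : ∀ n, Dt m κ (Ω n) (Λ n)) (be : ∀ n, Ω n → β n)
  (G : ∀ n, Ω n → Prop), L σ S X → Whp (sP X) G →
  (∀ c : ℝ, 0 < c → Whp (sP X) fun n ω => dl (sM X) c n ≤ dn (X n).P (be n) (sO X true 0 n) ω) →
  (∀ a (c : ℝ), 0 < c → Whp (sP X) fun n ω => dl (sM X) c n *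
    dn (X n).P (be n) (sO X false a n) ω ≤ dn (X n).P (be n) (sO X false 0 n) ω) →
  ∃ (P : ∀ n, FP (Ω n)) (j : ∀ n, Ω n → Mt (Fin m)) (b : ∀ n, β n),
    (∀ᶠ n in UF, ∀ ω ∈ (P n).S, ω ∈ (X n).P.S ∧ G n ω ∧ be n ω = b n) ∧ Cls σ X P j ∧
    L σ S fun n => (X n).chg (P n) (j n)

def SCut : Prop := ∀ (m : ℕ) (κ : Type) [Fintype κ] (Ω Λ : ℕ → Type) [Ex m κ Ω Λ] (σ : St m κ)
  (S : Bool → Finset κ) (X : ∀ n, Dt m κ (Ω n) (Λ n)), L σ S X → Min σ Ω Λ S →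
  ∃ (L₀ : ℝ) (X' : ∀ n, Dt m κ (Ω n) (Λ n)), 1 ≤ L₀ ∧ L σ S X' ∧ AC σ S L₀ X'

/-! ### The cuts -/

def CHG : Prop := ∀ (m : ℕ) (κ : Type) [Fintype κ] [DecidableEq κ] (Ω Λ : ℕ → Type) [Ex m κ Ω Λ]
  (σ : St m κ)
  (S S' : Bool → Finset κ) (X : ∀ n, Dt m κ (Ω n) (Λ n)) (A A' : ℕ → Matrix κ κ ℝ), L σ S X →
  Chg σ (sM X) S S' A A' →
  L σ S' fun n => (X n).bas (mB (A n) (X n).B) (mC (A n) (A' n) (X n).c)

def AllL (p : ∀ (m : ℕ) (κ : Type) [Fintype κ] (Ω Λ : ℕ → Type) [Ex m κ Ω Λ], St m κ →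
    (Bool → Finset κ) → (∀ n, Dt m κ (Ω n) (Λ n)) → Prop) : Prop :=
  ∀ (m : ℕ) (κ : Type) [Fintype κ] (Ω Λ : ℕ → Type) [Ex m κ Ω Λ] (σ : St m κ)
    (S : Bool → Finset κ) (X : ∀ n, Dt m κ (Ω n) (Λ n)), L σ S X → p m κ Ω Λ σ S X

def NUL : Prop := AllL fun m κ _ Ω Λ _ σ S X => ∀ L₀ : ℝ, 1 ≤ L₀ →
  (∀ (k : Bool) (a η : ℚ≥0), Whp (sP X) fun n ω =>
    ¬Bad σ (X n) (S k) k a (η * (X n).M) (η * (X n).M / L₀) ω) →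
  ∃ X' : ∀ n, Dt m κ (Ω n) (Λ n), L σ S X' ∧ AC σ S L₀ X'

def OfNUL : Prop := SRes → NUL

def ADD : Prop := AllL fun _ κ _ _ _ _ σ S X => ∀ (k : Bool) (a : ℚ≥0) (c T : ℝ), 0 < c →
  ∀ᶠ n in UF, ∀ u ω v, At (X n) k a u ω → At (X n) k a u v → ∀ (l : κ → ℝ) (θ : ℝ),
    dl (sM X) T n ≤ θ → (∀ b, |l b| ≤ 1) → Fm (X n).c (S k) θ l →
    |∑ b, l b * co σ (X n) a u v b - ∑ b, l b * co σ (X n) a u ω b -
      ∑ b, l b * co σ (X n) a ω v b| ≤ Real.exp (c * (X n).M) * θ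

def POS : Prop := AllL fun m κ _ Ω Λ _ σ S X => ∀ k : Bool,
  (∀ i : ℕ, ∃ a η : ℚ≥0, Pos (sP X) fun n ω =>
    Bad σ (X n) (S k) k a (η * (X n).M) (η * (X n).M / (i + 1)) ω) →
  ∃ (X' : ∀ n, Dt m κ (Ω n) (Λ n)) (l : ∀ n, Ω n → κ → ℝ), L σ S X' ∧ R0 σ S k X' l

def OfPOS : Prop := SRes → ADD → POS

def WIN : Prop := AllL fun m κ _ Ω Λ _ σ S X => ∀ (k : Bool) (l : ∀ n, Ω n → κ → ℝ),
  R0 σ S k X l → ∃ (X' : ∀ n, Dt m κ (Ω n) (Λ n)) (f : κ) (μ : ℝ) (l' : ∀ n, Ω n → κ → ℝ),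
    L σ S X' ∧ R1 σ S k f μ X' l'

def OfWIN : Prop := SRes → WIN

def PERT : Prop := AllL fun m _ _ Ω _ _ σ _ X => ∀ (P : ∀ n, FP (Ω n))
  (j : ∀ n, Ω n → Mt (Fin m)),
  (∀ᶠ n in UF, ∀ ω ∈ (P n).S, ω ∈ (X n).P.S) → Cls σ X P j → ∀ (k : Bool) (a : ℚ≥0) (T : ℝ),
  ∀ᶠ n in UF, ∀ ω v, At ((X n).chg (P n) (j n)) k a ω v → ∀ b,
    |co σ ((X n).chg (P n) (j n)) a ω v b - co σ (X n) a ω v b| ≤ dl (sM X) T n

def BUD : Prop := AllL fun m κ _ Ω Λ _ σ S X => ∀ (k : Bool) (f : κ) (μ : ℝ)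
  (l : ∀ n, Ω n → κ → ℝ), R1 σ S k f μ X l →
  ∃ (X' : ∀ n, Dt m κ (Ω n) (Λ n)) (l' : ℕ → κ → ℝ), L σ S X' ∧ R2 σ S k f X' l'

def OfBUD : Prop := SFrz → PERT → TAIL → BUD

open Classical in
def DROP : Prop := AllL fun m κ _ Ω Λ _ σ S X => ∀ (k : Bool) (f : κ) (l : ℕ → κ → ℝ),
  R2 σ S k f X l → ∃ X' : ∀ n, Dt m κ (Ω n) (Λ n),
    L σ (fun i => if i = false ∧ k = true then S false else (S k).erase f) X'

def OfDROP : Prop := CHG → DROP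

/-! ### The chamber -/

def SInd : Prop := ∀ (m : ℕ) (κ : Type) [Fintype κ] (Ω Λ : ℕ → Type) [Ex m κ Ω Λ] (σ : St m κ)
  (S : Bool → Finset κ) (X : ∀ n, Dt m κ (Ω n) (Λ n)) (L₀ : ℝ), 1 ≤ L₀ → L σ S X →
  AC σ S L₀ X → IND σ S X

def CHA : Prop := ∀ (m : ℕ) (κ : Type) [Fintype κ] [DecidableEq κ] (Ω Λ : ℕ → Type) [Ex m κ Ω Λ]
  (σ : St m κ)
  (S S' : Bool → Finset κ) (X : ∀ n, Dt m κ (Ω n) (Λ n)) (A A' : ℕ → Matrix κ κ ℝ) (L₀ : ℝ),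
  L σ S X → Chg σ (sM X) S S' A A' → 1 ≤ L₀ → AC σ S L₀ X →
  AC σ S' L₀ fun n => (X n).bas (mB (A n) (X n).B) (mC (A n) (A' n) (X n).c)

def PREP : Prop := ∀ (m : ℕ) (κ : Type) [Fintype κ] [DecidableEq κ] (Ω Λ : ℕ → Type) [Ex m κ Ω Λ]
  (σ : St m κ)
  (S : Bool → Finset κ) (X : ∀ n, Dt m κ (Ω n) (Λ n)) (L₀ : ℝ), 1 ≤ L₀ → L σ S X →
  AC σ S L₀ X → ∃ (S' : Bool → Finset κ) (t : κ → ℝ) (pos : κ → Prop) (Lm : ℕ → κ → Fin m → ℝ)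
    (X' : ∀ n, Dt m κ (Ω n) (Λ n)), LA σ S' L₀ t pos Lm X'

def OfPREP : Prop := OA1 → SZoom → CHG → CHA → PREP

def RESC : Prop := ∀ (m : ℕ) (κ : Type) [Fintype κ] [DecidableEq κ] (Ω Λ : ℕ → Type) [Ex m κ Ω Λ]
  (σ : St m κ)
  (S : Bool → Finset κ) (L₀ : ℝ) (t : κ → ℝ) (pos : κ → Prop) (Lm : ℕ → κ → Fin m → ℝ)
  (X : ∀ n, Dt m κ (Ω n) (Λ n)), LA σ S L₀ t pos Lm X → IND σ S X →
  ∃ X' : ∀ n, Dt m κ (Ω n) (Λ n), LB σ S L₀ t pos Lm X'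

def AllB (p : ∀ (m : ℕ) (κ : Type) [Fintype κ] [DecidableEq κ] (Ω Λ : ℕ → Type), St m κ →
    (Bool → Finset κ) → ℝ → (κ → ℝ) → (κ → Prop) → (∀ n, Dt m κ (Ω n) (Λ n)) →
    (ℕ → κ → MvPolynomial (Fin m) ℝ) → Prop) : Prop :=
  ∀ (m : ℕ) (κ : Type) [Fintype κ] [DecidableEq κ] (Ω Λ : ℕ → Type) [Ex m κ Ω Λ] (σ : St m κ)
    (S : Bool → Finset κ) (L₀ : ℝ) (t : κ → ℝ) (pos : κ → Prop) (Lm : ℕ → κ → Fin m → ℝ)
    (X : ∀ n, Dt m κ (Ω n) (Λ n)) (E : ℕ) (L : ℕ → ℝ) (W : ℕ → κ → MvPolynomial (Fin m) ℝ)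
    (Q : ℕ → Fin m → MvPolynomial κ ℝ), LB σ S L₀ t pos Lm X → PW σ pos X E L W Q →
    p m κ Ω Λ σ S L₀ t pos X W

def SRel : Prop := AllB fun _ _ _ _ _ _ σ S _ _ pos X W => REL σ S pos X W

def SInv : Prop := AllB fun _ _ _ _ _ _ σ _ _ t pos X W => INV σ t pos X W

def OfInv : Prop := DEC → SInv

def SAlg : Prop := AllB fun _ _ _ _ _ _ σ _ _ t pos X _ => CA σ.Φ (wA σ.wt t) (tA t) pos (sy σ X)

def SAtc : Prop := AllB fun _ _ _ _ _ _ σ S _ t pos X _ =>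
  CA σ.Φ (wA σ.wt t) (tA t) pos (sy σ X) → ATC σ S t X ∧ CEL σ t X

def SAcs : Prop := AllB fun _ _ _ _ _ _ σ S L₀ t pos X _ =>
  CA σ.Φ (wA σ.wt t) (tA t) pos (sy σ X) → ATC σ S t X → ACS σ L₀ t X

end Pool.Agent.MP_5168f5_an.AN.LP
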