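import Pool.Agent.MP_5168f5_an.AN.LDef
import Pool.Agent.MP_5168f5_an.AN.N2Defs
import Pool.Agent.MP_5168f5_an.AN.Api2

/-! Kakeya sets in all dimensions: the entrance to the light class, definitions and statements. -/

namespace Pool.Agent.MP_5168f5_an.AN.LC

open H19 H17S H17F R4 Filter MvPolynomial MeasureTheory
open G39 (dl REM)
open Pk (cn)
open Nc (Pl ev)
open GA (Mt Nr)
open C1 (Dg)
open N2 (Par Lng Sp Mod El eB eC eW tri)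

/-! ### The light class with good sets -/

namespace Dt

variable {m : ℕ} {κ Ω Λ : Type} [Fintype κ] (σ : St m κ) (X : Dt m κ Ω Λ)

def IncW (k : Bool) (a : ℚ≥0) (G : Ω → Prop) (Γ : ℝ) : Prop :=
  ∀ ω ∈ X.P.S, G ω → ∀ v ∈ X.P.S, G v → X.O k a ω = X.O k a v →
    Nr X.B (fun b => Real.exp (-(σ.wt b * X.lv a))) Γ (X.j ω) (X.j v)

def CrvW (a : ℚ≥0) (T : ℝ) (G : Ω → Prop) (_ : ℝ) : Prop := ∀ ω ∈ X.P.S, G ω →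
  ∃ τ : Fin m → Polynomial ℝ, (∀ p, (τ p).natDegree ≤ σ.D) ∧ ∀ v ∈ X.P.S, G v →
    X.O true a v = X.O true a ω →
      ∃ t : ℝ, ∀ p, |X.ps σ a ω v p - (τ p).eval t| ≤ Real.exp (-(T * X.M))

def SprW (a : ℚ≥0) (r : ℝ) (G : Ω → Prop) (Γ : ℝ) : Prop := ∀ ω ∈ X.P.S, G ω → ∀ q : V m,
  pb (X.fb true a ω) (fun v => G v ∧ ‖X.ps σ a ω v - q‖ ≤ Real.exp (-(r * X.M))) ≤
    Γ * Real.exp (-(r * X.M))

def NgvW (a : ℚ≥0) (r : ℝ) (G : Ω → Prop) (Γ : ℝ) : Prop := ∀ ω ∈ X.P.S, G ω →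
  ∃ Q : Finset (V m), (Q.card : ℝ) ≤ Γ * Real.exp ((σ.d + 1 - σ.cc) * (r * X.M)) ∧
    ∀ v ∈ X.P.S, G v → X.O false a v = X.O false a ω →
      ∃ q ∈ Q, ‖X.ps σ a ω v - q‖ ≤ Γ * Real.exp (-(r * X.M))

def BgW (E : ℕ) (a : ℚ≥0) (r : ℝ) (G : Ω → Prop) (Γ : ℝ) : Prop := ∀ ω ∈ X.P.S, G ω →
  ∀ s : Fin m → Pl σ.d, (∀ p, (s p).totalDegree ≤ E) →
    pb (X.fb false a ω) (fun v => G v ∧
      ∃ q, ‖X.ps σ a ω v - ev s q‖ ≤ Real.exp (-((σ.mb E + 1) * (r * X.M)))) ≤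
    Γ * Real.exp (-(r * X.M))

def GsW (k E i : ℕ) (a : ℚ≥0) (r : ℝ) (G : Ω → Prop) (Γ : ℝ) : Prop := ∀ ω ∈ X.P.S, G ω →
  ∀ W : Fin k → Pl m, (∀ l, (W l).totalDegree ≤ E ∧ cn (W l) ≤ 1) →
    (∀ H : Pl k, H.totalDegree ≤ σ.mg k E i → cn H = 1 →
      Γ * Real.exp (-(r * X.M / (σ.mg k E i + 1))) ≤ pb (X.fb false a ω) fun v => G v ∧
        Γ * Real.exp (-(r * X.M / (σ.mg k E i + 1))) ≤ |eval (ev W (X.ps σ a ω v)) H|) →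
    ∀ Q : Finset (V k), Γ * Q.card ≤ Real.exp ((k - 1 / (i + 1 : ℝ)) * (r * X.M)) →
      pb (X.fb false a ω)
        (fun v => G v ∧ ∃ q ∈ Q, Γ * ‖ev W (X.ps σ a ω v) - q‖ ≤ Real.exp (-(r * X.M))) ≤
      Γ * Real.exp (-(r * X.M / (σ.mg k E i + 1)))

end Dt

section Seq

variable {m : ℕ} {κ : Type} [Fintype κ] {Ω Λ : ℕ → Type}

/-- The axioms of the light class hold on likely events. -/
structure Lw (σ : St m κ) (X : ∀ n, Dt m κ (Ω n) (Λ n)) : Prop where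
  cc : 0 < σ.cc
  lo : σ.la σ.o = 0
  lp : ∀ p, p ≠ σ.o → 0 < σ.la p
  wp : ∀ a, 0 < σ.wt a
  big : Big (sM X)
  lv : ∀ a : ℚ≥0, Eqv (sM X) (fun n => (X n).lv a - (X n).lv 0) fun n => (a : ℝ) * (X n).M
  fr : ∀ᶠ n in UF, (X n).Fr σ
  bd : Al (fun _ Y => Y.Bd) X
  nest : ∀ k a a', a ≤ a' → FnE (sP X) (sO X k a) (sO X k a')
  com : ∀ a, FnE (sP X) (sO X false a) (sO X true a)
  inc : ∀ k a, Gd (sP X) (sM X) fun n => (X n).IncW σ k a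
  crv : ∀ a T, Gd (sP X) (sM X) fun n => (X n).CrvW σ a T
  spr : ∀ a r : ℚ≥0, Gd (sP X) (sM X) fun n => (X n).SprW σ a r
  ngv : ∀ a r : ℚ≥0, Gd (sP X) (sM X) fun n => (X n).NgvW σ a r
  bg : ∀ E (a r : ℚ≥0), Gd (sP X) (sM X) fun n => (X n).BgW σ E a r
  gs : ∀ k, k ≠ σ.d + 1 → ∀ E i (a r : ℚ≥0), Gd (sP X) (sM X) fun n => (X n).GsW σ k E i a r

end Seq

/-- Good sets can be removed. -/
def SWhp : Prop := ∀ (m : ℕ) (κ : Type) [Fintype κ] (Ω Λ : ℕ → Type) (σ : St m κ)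
  (X : ∀ n, Dt m κ (Ω n) (Λ n)), Lw σ X →
  ∃ X' : ∀ n, Dt m κ (Ω n) (Λ n), L σ (fun _ => Finset.univ) X'

/-! ### The window -/

/-- The level `q + a e`. -/
def lq (q e : ℚ≥0) (a : ℚ) : ℚ≥0 := ((q : ℚ) + a * e).toNNRat

/-- The data of the linear model. -/
noncomputable def mkD {m : ℕ} {Ω Λ Λ' : Type} (la : Fin m → ℝ) (P : FP Ω) (M : ℕ)
    (j : Ω → Mt (Fin m)) (S : ℚ → Ω → Λ) (O : ℚ≥0 → Ω → Λ') : Dt m (El la) Ω (Λ ⊕ Λ') :=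
  ⟨P, M, fun a => (a : ℝ) * M, j, eB la, eC la,
    fun k a ω => bif k then Sum.inr (O a ω) else Sum.inl (S a ω)⟩

/-- The constants of the linear model. -/
noncomputable def mkS {m : ℕ} (la : Fin m → ℝ) (o : Fin m) (d D : ℕ) (cc : ℝ) (mb : ℕ → ℕ)
    (mg : ℕ → ℕ → ℕ → ℕ) : St m (El la) := ⟨d, D, cc, o, la, eW la, tri la, mb, mg⟩

section Seq

variable {N m : ℕ} {Ω Λ : ℕ → Type} {k : Bool → ℕ} (P : ∀ n, FP (Ω n)) (M : ℕ → ℕ)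
  (x : ∀ n, Ω n → V N)

/-- Near `σ` the norms of the cells are almost diagonal in one basis. -/
def LinA (S : ℚ≥0 → ∀ n, Ω n → Λ n) (D : ℕ) (σ : ℝ) (la : Fin m → ℝ) : Prop :=
  ∀ (T : Finset ℚ) (η : ℝ), 0 < η → ∃ δ : ℝ, 0 < δ ∧ ∀ q e : ℚ≥0, 0 < e → (e : ℝ) ≤ δ →
    |(q : ℝ) - σ| ≤ (e : ℝ) ^ 2 → Whp P fun n ω => ∃ f : Fin m → Pl N, Sp D f ∧ ∀ a ∈ T,
      Dg (nc (P n) (x n) (S (lq q e a) n) ω) f (fun i => dl M (la i * (a * e)) n)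
        (Real.exp (η * e * M n))

/-- A two sided window of cells in the unit `M`, for the point `x` of the global chain. -/
structure Win (s : ∀ n, Sy k (Ω n)) (C C' : ℕ) (ml : Bool → ℕ) (t : ℚ → ℕ → ℕ)
    (S : ℚ → ∀ n, Ω n → Λ n) (Θ : ℚ → ∀ n, Ω n → Fin N → Pl N) (W : ℚ → Bool → ∀ n, Ω n → ℕ)
    (τ : ℕ → ℚ → ∀ b n, Ω n → Fin N → Pl (k b)) (J : ℕ → ℕ) (D : ℕ) (la : Fin m → ℝ) (c : ℝ) :
    Prop where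
  pos : 0 < c
  one : 1 ≤ ml true
  glo : Sys P M x s C ml
  tm : ∀ a a', a ≤ a' → ∀ᶠ n in UF, t a n ≤ t a' n
  tl : ∀ a : ℚ, Eqv M (fun n => (t a n : ℝ) - t 0 n) fun n => (a : ℝ) * M n
  nest : ∀ a a', a ≤ a' → FnE P (S a) (S a')
  cel : ∀ a, Cel P M x (pcs s fun _ => t a) (S a) (Θ a) D
  nz : ∀ a, NZ P x (S a)
  rem : ∀ a b (K : ℕ), REM P x M (pcs s (fun _ => t a) b) C K
  sys : ∀ a, Sys P M (chs (Θ a) x) (fun n b => ((s n b).zm (t a n)).setW (W a b n)) C' ml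
  den : ∀ a b, Full P M (fun n ω => fr (t a n) ((s n b).p ω)) (pcs s (fun _ => t a) b)
  hv : ∀ (a : ℚ) (g : ℚ≥0), Heavy P M (chs (Θ a) x) (S a) (lev M g) (un M (c * g))
  lin : N2.Lin P M x S D la
  par : ∀ E a b (K : ℝ), Par P M x (fun n => s n b) (t a) (S a) (τ E a b) E (J E) K
  lng : ∀ E a, Lng P M (t a) (τ E a true)

/-- Fewer than `N` independent polynomials are full on all events that are not power small. -/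
def G7P (S : ℚ → ∀ n, Ω n → Λ n) : Prop := ∀ l < N, ∀ (E : ℕ) (η : ℝ), 0 < η →
  ∃ (ρ : ℝ) (E' : ℕ), 0 < ρ ∧ ∀ (a : ℚ) (r : ℚ≥0), 0 < r → ∃ G, Whp P G ∧ ∀ᶠ n in UF,
    ∀ ω ∈ (P n).S, ∀ w : Fin l → Pl N,
      (∀ i, (w i).totalDegree ≤ E ∧ dl M (ρ * r) n * nc (P n) (x n) (S a n) ω (w i) ≤ 1) →
      (∀ H : Pl l, H.totalDegree ≤ E' →
        dl M (ρ * r) n * cn H ≤ nc (P n) (x n) (S a n) ω (aeval w H)) →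
      ∀ T : Finset (Z l), (T.card : ℝ) ≤ dl M (η * r) n * (2 ^ lev M r n) ^ l →
        pb (cv (P n) (S a n) (S a n ω)) (fun v => G n v ∧ fl (lev M r n) (ev w (x n v)) ∈ T) ≤
          dl M (ρ * r) n

end Seq

/-- A property of all windows in dimension `d + 1`. -/
def AW (d : ℕ) (K : ∀ (m : ℕ) (Ω Λ : ℕ → Type) (_ : ∀ n, FP (Ω n)) (_ : ℕ → ℕ)
    (_ : ∀ n, Ω n → V (d + 1)) (_ : Bool → ℕ) (_ : ℚ → ∀ n, Ω n → Λ n) (_ : ℕ)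
    (_ : Fin m → ℝ), Prop) : Prop :=
  ∀ (m : ℕ) (Ω Λ : ℕ → Type) (k : Bool → ℕ) (P : ∀ n, FP (Ω n)) (M : ℕ → ℕ)
    (x : ∀ n, Ω n → V (d + 1)) (s : ∀ n, Sy k (Ω n)) (C C' : ℕ) (ml : Bool → ℕ) (t : ℚ → ℕ → ℕ)
    (S : ℚ → ∀ n, Ω n → Λ n) (Θ : ℚ → ∀ n, Ω n → Fin (d + 1) → Pl (d + 1))
    (W : ℚ → Bool → ∀ n, Ω n → ℕ) (τ : ℕ → ℚ → ∀ b n, Ω n → Fin (d + 1) → Pl (k b)) (J : ℕ → ℕ)
    (D : ℕ) (la : Fin m → ℝ) (c : ℝ), Win P M x s C C' ml t S Θ W τ J D la c →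
    K m Ω Λ P M x ml S D la

/-- The data of the model along the sequence. -/
noncomputable abbrev mkX {m : ℕ} {Ω Λ Λ' : ℕ → Type} (la : Fin m → ℝ) (P : ∀ n, FP (Ω n))
    (M : ℕ → ℕ) (j : ∀ n, Ω n → Mt (Fin m)) (S : ℚ → ∀ n, Ω n → Λ n)
    (O : ℚ≥0 → ∀ n, Ω n → Λ' n) : ∀ n, Dt m (El la) (Ω n) (Λ n ⊕ Λ' n) :=
  fun n => mkD la (P n) (M n) (j n) (fun a => S a n) fun a => O a n

/-! ### Statements -/

/-- The global chain survives slowly shrinking events. -/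
def SGC : Prop := ∀ (N : ℕ) (Ω Λ : ℕ → Type) (k ml : Bool → ℕ) (P : ∀ n, FP (Ω n)) (M : ℕ → ℕ)
  (x : ∀ n, Ω n → V N) (s : ∀ n, Sy k (Ω n)) (C D : ℕ) (S : ℚ≥0 → ∀ n, Ω n → Λ n)
  (Θ : ℚ≥0 → ∀ n, Ω n → Fin N → Pl N) (U H : ℝ → ℝ) (a₀ b τ : ℝ),
  GC P M x s C ml S Θ D U H a₀ b τ → SL P fun Q => GC Q M x s C ml S Θ D U H a₀ b τ

/-- Almost every level has weights. -/
def SLin : Prop := ∀ (N : ℕ) (Ω Λ : ℕ → Type) (k ml : Bool → ℕ) (P : ∀ n, FP (Ω n)) (M : ℕ → ℕ)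
  (x : ∀ n, Ω n → V N) (s : ∀ n, Sy k (Ω n)) (C D : ℕ) (S : ℚ≥0 → ∀ n, Ω n → Λ n)
  (Θ : ℚ≥0 → ∀ n, Ω n → Fin N → Pl N) (U H : ℝ → ℝ) (a₀ b τ : ℝ),
  GC P M x s C ml S Θ D U H a₀ b τ → ∃ Q : ∀ n, FP (Ω n), GC Q M x s C ml S Θ D U H a₀ b τ ∧
    ∀ᵐ σ : ℝ, σ ∈ Set.Ioo a₀ b → ∃ (m : ℕ) (la : Fin m → ℝ), LinA Q M x S D σ la

def OfLin : Prop := SGC → SLin

/-- The blow-up. -/
def SWin : Prop := ∀ (N m : ℕ) (Ω Λ : ℕ → Type) (k ml : Bool → ℕ) (P : ∀ n, FP (Ω n)) (M : ℕ → ℕ)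
  (x : ∀ n, Ω n → V N) (s : ∀ n, Sy k (Ω n)) (C D : ℕ) (S : ℚ≥0 → ∀ n, Ω n → Λ n)
  (Θ : ℚ≥0 → ∀ n, Ω n → Fin N → Pl N) (U H : ℝ → ℝ) (a₀ b τ σ : ℝ) (la : Fin m → ℝ),
  GC P M x s C ml S Θ D U H a₀ b τ → σ ∈ Set.Ioo a₀ b → DifferentiableAt ℝ U σ →
  DifferentiableAt ℝ H σ → deriv H σ < deriv U σ → LinA P M x S D σ la →
  ∃ (M' : ℕ → ℕ) (C' : ℕ) (t : ℚ → ℕ → ℕ) (S' : ℚ → ∀ n, Ω n → Λ n)
    (Θ' : ℚ → ∀ n, Ω n → Fin N → Pl N) (W : ℚ → Bool → ∀ n, Ω n → ℕ)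
    (τ' : ℕ → ℚ → ∀ b n, Ω n → Fin N → Pl (k b)) (J : ℕ → ℕ) (c : ℝ),
    Win P M' x s C C' ml t S' Θ' W τ' J D la c

/-- Robust projection. -/
def SG7P : Prop := ∀ d mm, Low (d + 1) → SteepF (d + 1) mm →
  AW d fun _ _ _ P M x ml S _ _ => mm ≤ ml true + ml false → G7P P M x S

/-- The cells contract. -/
def SSlope : Prop := ∀ d, AW d fun _ _ _ P M x _ S D _ =>
  ∃ σ : ℝ, 0 < σ ∧ N2.Slope P M x (S 0) (S 1) D σ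

/-- The frame and the increments. -/
def SInc : Prop := ∀ d, AW d fun _ Ω _ P M x _ S D la => ∀ σ o eb j jr,
  Mod P M x S D σ la o eb j jr → ∀ (Λ' : ℕ → Type) (O : ℚ≥0 → ∀ n, Ω n → Λ' n) D' cc mb mg,
  (∀ᶠ n in UF, (mkX la P M j S O n).Fr (mkS la o d D' cc mb mg)) ∧
  Al (fun _ Y => Y.Bd) (mkX la P M j S O) ∧
  ∀ a, Gd P M fun n => (mkX la P M j S O n).IncW (mkS la o d D' cc mb mg) false a

/-- The curves. -/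
def SCrv : Prop := ∀ d, AW d fun _ Ω _ P M x _ S D la => ∀ σ o eb j jr,
  Mod P M x S D σ la o eb j jr → ∃ (Λ' : ℕ → Type) (O : ℚ≥0 → ∀ n, Ω n → Λ' n) (D' : ℕ),
  (∀ a a', a ≤ a' → FnE P (O a) (O a')) ∧ (∀ a : ℚ≥0, FnE P (S a) (O a)) ∧ ∀ cc mb mg,
  (∀ a T, Gd P M fun n => (mkX la P M j S O n).CrvW (mkS la o d D' cc mb mg) a T) ∧
  ∀ a r : ℚ≥0, Gd P M fun n => (mkX la P M j S O n).SprW (mkS la o d D' cc mb mg) a r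

/-- The covering number. -/
def SNgv : Prop := ∀ d, AW d fun _ Ω _ P M x _ S D la => ∀ σ o eb j jr,
  Mod P M x S D σ la o eb j jr → ∃ cc : ℝ, 0 < cc ∧
  ∀ (Λ' : ℕ → Type) (O : ℚ≥0 → ∀ n, Ω n → Λ' n) D' mb mg (a r : ℚ≥0),
    Gd P M fun n => (mkX la P M j S O n).NgvW (mkS la o d D' cc mb mg) a r

/-- No hypersurface. -/
def SBg : Prop := ∀ d, AW d fun _ Ω _ P M x _ S D la => ∀ σ o eb j jr,
  Mod P M x S D σ la o eb j jr → ∃ mb : ℕ → ℕ,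
  ∀ (Λ' : ℕ → Type) (O : ℚ≥0 → ∀ n, Ω n → Λ' n) D' cc mg E (a r : ℚ≥0),
    Gd P M fun n => (mkX la P M j S O n).BgW (mkS la o d D' cc mb mg) E a r

/-- Projections in the model. -/
def SGs : Prop := ∀ d, AW d fun _ Ω _ P M x _ S D la => G7P P M x S → ∀ σ o eb j jr,
  Mod P M x S D σ la o eb j jr → ∃ mg : ℕ → ℕ → ℕ → ℕ,
  ∀ (Λ' : ℕ → Type) (O : ℚ≥0 → ∀ n, Ω n → Λ' n) D' cc mb l, l ≠ d + 1 → ∀ E i (a r : ℚ≥0),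
    Gd P M fun n => (mkX la P M j S O n).GsW (mkS la o d D' cc mb mg) l E i a r

/-- The local step from its parts. -/
theorem ofLoc (h1 : SLin) (h2 : SWin) (h3 : SG7P) (h4 : SSlope) (h5 : N2.ExMod) (h6 : SInc)
    (h7 : SCrv) (h8 : SNgv) (h9 : SBg) (h10 : SGs) (h11 : SWhp) (h12 : SEmp) : OfLoc := by
  intro d mm lo st Ω Λ k ml P M x s C D S Θ U H a₀ b τ hm gc
  obtain ⟨Q, gq, ae⟩ := h1 _ Ω Λ k ml P M x s C D S Θ U H a₀ b τ gc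
  filter_upwards [ae] with σ hσ hI dU dH
  by_contra hlt
  obtain ⟨m, la, hl⟩ := hσ hI
  obtain ⟨M', C', t, S', Θ', W, τ', J, c, w⟩ :=
    h2 _ m Ω Λ k ml Q M x s C D S Θ U H a₀ b τ σ la gq hI dU dH (not_le.1 hlt) hl
  have g7 := h3 d mm lo st _ _ _ _ _ _ _ _ _ _ _ _ _ _ _ _ _ _ _ _ w hm
  obtain ⟨σ', hσ', sl⟩ := h4 d _ _ _ _ _ _ _ _ _ _ _ _ _ _ _ _ _ _ _ _ w
  obtain ⟨o, eb, j, jr, md⟩ := h5 _ m D Ω Λ Q M' x S' σ' la w.glo.big hσ' w.nest w.lin sl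
  obtain ⟨Λ', O, D', n1, n2, cr⟩ := h7 d _ _ _ _ _ _ _ _ _ _ _ _ _ _ _ _ _ _ _ _ w _ _ _ _ _ md
  obtain ⟨cc, hc, ng⟩ := h8 d _ _ _ _ _ _ _ _ _ _ _ _ _ _ _ _ _ _ _ _ w _ _ _ _ _ md
  obtain ⟨mb, bg⟩ := h9 d _ _ _ _ _ _ _ _ _ _ _ _ _ _ _ _ _ _ _ _ w _ _ _ _ _ md
  obtain ⟨mg, gs⟩ := h10 d _ _ _ _ _ _ _ _ _ _ _ _ _ _ _ _ _ _ _ _ w g7 _ _ _ _ _ md
  obtain ⟨f1, f2, f3⟩ :=
    h6 d _ _ _ _ _ _ _ _ _ _ _ _ _ _ _ _ _ _ _ _ w _ _ _ _ _ md Λ' O D' cc mb mg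
  have lw : Lw (mkS la o d D' cc mb mg) (mkX la Q M' j S' O) := by
    refine ⟨hc, md.wo, fun p hp => hσ'.trans_le (md.wp p hp), fun a => sub_pos.2 a.2, w.glo.big,
      fun a => ?_, f1, f2, fun k a a' h => ?_, fun a => ?_, fun k a => ?_, (cr cc mb mg).1,
      (cr cc mb mg).2, ng Λ' O D' mb mg, bg Λ' O D' cc mg, gs Λ' O D' cc mb⟩
    · have : (fun n => (mkX la Q M' j S' O n).lv a - (mkX la Q M' j S' O n).lv 0) =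
          fun n => (a : ℝ) * M' n := funext fun n => by simp [mkD]
      rw [this]
      exact Eqv.rfl
    · cases k
      · exact (w.nest a a' (by exact_mod_cast h)).mono fun n e u hu v hv k =>
          congrArg Sum.inl (e u hu v hv (Sum.inl.inj k))
      · exact (n1 a a' h).mono fun n e u hu v hv k =>
          congrArg Sum.inr (e u hu v hv (Sum.inr.inj k))
    · exact (n2 a).mono fun n e u hu v hv k => congrArg Sum.inl (e u hu v hv (Sum.inr.inj k))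
    · cases k
      · exact f3 a
      · exact (f3 a).mono ((n2 a).mono fun n e G Γ _ h u hu g v hv g' k =>
          h u hu g v hv g' (congrArg Sum.inl (e u hu v hv (Sum.inr.inj k))))
  obtain ⟨X', hX⟩ := h11 _ _ _ _ _ _ lw
  exact h12 _ _ _ _ _ _ _ hX

end Pool.Agent.MP_5168f5_an.AN.LC
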