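import Pool.Agent.MP_5168f5_an.AN.Api3

/-! Kakeya sets in all dimensions: the chain after the second noise. -/

namespace Pool.Agent.MP_5168f5_an.AN

open H19 H17S H17F R4 Filter MvPolynomial
open G39 (nu RG dl REM)
open Nc (Pl ev jac)

/-- The chain `S` of the point `x`, seen from the point `blurs x ξ M`, with a last cell `Q`. -/
structure St3 {N : ℕ} {Ω Λ Λ' Λ'' : ℕ → Type} {k : Bool → ℕ} (P : ∀ n, FP (Ω n)) (M : ℕ → ℕ)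
    (x ξ : ∀ n, Ω n → V N) (s : ∀ n, Sy k (Ω n)) (C C' : ℕ) (m : Bool → ℕ) (A : ∀ n, Ω n → Λ n)
    (η : ℝ) (S : ℚ≥0 → ∀ n, Ω n → Λ' n) (Θ : ℚ≥0 → ∀ n, Ω n → Fin N → Pl N) (D : ℕ)
    (U G H : ℚ≥0 → ℝ) (e : ℚ≥0) (Q : ∀ n, Ω n → Λ'' n) (Φ : ∀ n, Ω n → Fin N → Pl N)
    (w uT uQ : ℝ) : Prop where
  st : St2 P M x s C m A η S Θ D U G
  xi : Bdd P M ξ
  sy : Sure P M (blurs x ξ M)
  tsys : Sys (k := fun b => k b + N) P M (blurs x ξ M) (fun n b => (s n b).nz (ξ n)) C' m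
  tmin : MIN P M (blurs x ξ M) (lab s)
  rem : ∀ (a : ℚ≥0) b (K : ℕ), REM P (blurs x ξ M) M (pcs s (fun _ => lev M a) b) C' K
  ncel : ∀ a : ℚ≥0, G a ≤ 1 → Cel P M (blurs x ξ M) (pcs s fun _ => lev M a) (S a) (Θ a) D
  ndle : ∀ a, G a ≤ 1 → DLe P M (blurs x ξ M) (S a) M
  nvol : ∀ a, G a ≤ 1 → Vol P M (blurs x ξ M) (Θ a) (un M (U a))
  nsure : ∀ a, G a ≤ 1 → Sure P M (chs (Θ a) (blurs x ξ M))
  nsys : ∀ a : ℚ≥0, G a ≤ 1 → ∃ W : Bool → ∀ n, Ω n → ℕ, Sys (k := fun b => k b + N) P M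
    (chs (Θ a) (blurs x ξ M)) (fun n b => (((s n b).zm (lev M a n)).nz (ξ n)).setW (W b n)) C' m
  nnear : ∀ a g : ℚ≥0, G a + g ≤ 1 → (g : ℝ) ≤ 1 →
    Near P M (chs (Θ a) (blurs x ξ M)) (chs (Θ a) x) (lev M g)
  qcel : Cel P M (blurs x ξ M) (pcs s fun _ => lev M e) Q Φ D
  qfn : FnE P (S e) Q
  qdle : DLe P M (blurs x ξ M) Q M
  qvol : Vol P M (blurs x ξ M) Φ (un M w)
  qul : ∀ τ : ℝ, 0 < τ → τ ≤ 1 → 1 - τ ≤ G e → uQ ≤ w + τ * lg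
  hT : Heavy P M (blurs x ξ M) A (fun n => (N + 1) * M n) (un M uT)
  lT : Light P M (blurs x ξ M) A (fun n => (N + 1) * M n) (un M uT)
  hS : ∀ a, Heavy P M (blurs x ξ M) (S a) (fun n => (N + 1) * M n) (un M (H a))
  lS : ∀ a, Light P M (blurs x ξ M) (S a) (fun n => (N + 1) * M n) (un M (H a))
  hQ : Heavy P M (blurs x ξ M) Q (fun n => (N + 1) * M n) (un M uQ)
  lQ : Light P M (blurs x ξ M) Q (fun n => (N + 1) * M n) (un M uQ)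

/-- The second noise and the last cell. -/
def ExSt3 (N : ℕ) : Prop := ∀ C D : ℕ, ∃ C' D' : ℕ, 1 ≤ D' ∧ ∀ (Ω Λ Λ' : ℕ → Type) (k m : Bool → ℕ)
  (P : ∀ n, FP (Ω n)) (M : ℕ → ℕ) (x : ∀ n, Ω n → V N) (s : ∀ n, Sy k (Ω n)) (A : ∀ n, Ω n → Λ n)
  (η : ℝ) (S : ℚ≥0 → ∀ n, Ω n → Λ' n) (Θ : ℚ≥0 → ∀ n, Ω n → Fin N → Pl N) (U G : ℚ≥0 → ℝ)
  (e : ℚ≥0), St2 P M x s C m A η S Θ D U G →
  ∃ (Ω' Λ'' : ℕ → Type) (P' : ∀ n, FP (Ω' n)) (x' ξ : ∀ n, Ω' n → V N) (s' : ∀ n, Sy k (Ω' n))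
    (A' : ∀ n, Ω' n → Λ n) (S' : ℚ≥0 → ∀ n, Ω' n → Λ' n) (Θ' : ℚ≥0 → ∀ n, Ω' n → Fin N → Pl N)
    (H : ℚ≥0 → ℝ) (Q : ∀ n, Ω' n → Λ'' n) (Φ : ∀ n, Ω' n → Fin N → Pl N) (w uT uQ : ℝ),
    St3 P' M x' ξ s' C C' m A' η S' Θ' D' U G H e Q Φ w uT uQ

/-- Volumes and depths of countably many cells become deterministic. -/
def SLVol : Prop := ∀ {Ω Λ : ℕ → Type} {J : Type} [Countable J] {β : J → Bool → ℕ → Type} {d D : ℕ}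
  {P : ∀ n, FP (Ω n)} {M : ℕ → ℕ} {K : (∀ n, FP (Ω n)) → Prop} {x : ∀ n, Ω n → V (d + 1)}
  {Z : ∀ i b n, Ω n → β i b n} {A : J → ∀ n, Ω n → Λ n}
  {Θ : J → ∀ n, Ω n → Fin (d + 1) → Pl (d + 1)}, SL P K → Big M → Sure P M x →
  (∀ i, Cel P M x (Z i) (A i) (Θ i) D) → (∀ i, Fat P M x (A i)) →
  ∃ (E : ∀ n, Ω n → Prop) (U G : J → ℝ), K (fun n => cE (P n) (E n)) ∧ ∀ i,
    Vol (fun n => cE (P n) (E n)) M x (Θ i) (un M (U i)) ∧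
    DzLe (fun n => cE (P n) (E n)) M x (Θ i) (lev M (G i)) ∧
    DzGe (fun n => cE (P n) (E n)) M x (Θ i) (lev M (G i))

/-- The probabilities of cells in countably many contexts become deterministic. -/
def SLDn : Prop := ∀ {Ω : ℕ → Type} {J : Type} [Countable J] {Λ : J → ℕ → Type} {N : ℕ}
  {P : ∀ n, FP (Ω n)} {M j : ℕ → ℕ} {K : (∀ n, FP (Ω n)) → Prop} {y : ∀ n, Ω n → V N}
  (A : ∀ i n, Ω n → Λ i n), SL P K → Big M → Bdd P M y → Lin M j →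
  ∃ (E : ∀ n, Ω n → Prop) (u : J → ℝ), K (fun n => cE (P n) (E n)) ∧ ∀ i,
    Heavy (fun n => cE (P n) (E n)) M y (A i) j (un M (u i)) ∧
    Light (fun n => cE (P n) (E n)) M y (A i) j (un M (u i))

def OfSt3 : Prop := Her1 → Her2 → FullApi → KOp → RC → NZs → Nsy → UDc → Cel1 → Cel2 → NCel → UL →
  SLVol → SLDn → ∀ d, THM d 0 → ExSt3 (d + 1)
def OfFin : Prop := FullApi → KOp → Cel1 → Cel2 → Rel → Acc → A2Q →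
  ∀ d mm, ExSt3 (d + 1) → Pair2 (d + 1) mm → LOC (d + 1) mm → Core2 (d + 1) mm

end Pool.Agent.MP_5168f5_an.AN
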