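import Pool.Agent.MP_5168f5_an.AN.N2Alg

/-! The linear model: the unipotent transition matrix. -/

namespace Pool.Agent.MP_5168f5_an.AN.N2

open MvPolynomial Finset
open Nc (Pl)
open C1 (Dg)
open GA (Mt)

variable {N m D : ℕ} (la : Fin m → ℝ) (g : Mt (Fin m))

/-- The lower part. -/
noncomputable def low : Mt (Fin m) := Matrix.of fun p q => if la p < la q then 0 else g p q

/-- The diagonal blocks. -/
noncomputable def blk : Mt (Fin m) := Matrix.of fun p q => if la p = la q then g p q else 0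

open Classical in
/-- The unipotent part. -/
noncomputable def un : Mt (Fin m) :=
  if IsUnit (low la g).det then blk la (low la g)⁻¹ * low la g else 1

variable {la g}

theorem uni_blk (h : IsUnit (low la g).det) : Uni la (blk la (low la g)⁻¹ * low la g) := by
  intro p q e
  have := Matrix.invertibleOfIsUnitDet _ h
  have k : Matrix.BlockTriangular (low la g)⁻¹ fun p => -la p :=
    Matrix.blockTriangular_inv_of_blockTriangular fun p q k => if_pos (neg_lt_neg_iff.1 k)
  rw [← Matrix.nonsing_inv_mul _ h, Matrix.mul_apply, Matrix.mul_apply]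
  refine sum_congr rfl fun r _ => ?_
  rcases lt_trichotomy (la p) (la r) with a | a | a
  · rw [k (neg_lt_neg a), blk, Matrix.of_apply, if_neg a.ne]
  · rw [blk, Matrix.of_apply, if_pos a]
  · rw [show low la g r q = 0 from if_pos (a.trans_le (not_lt.1 e)), mul_zero, mul_zero]

theorem uni_un : Uni la (un la g) := by
  unfold un
  split_ifs with h
  exacts [uni_blk h, uni_one]

theorem blk_mul (h : IsUnit (low la g).det) : blk la (low la g)⁻¹ * blk la g = 1 := by
  ext p q
  by_cases e : la p = la q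
  · rw [← uni_blk h p q e.symm.not_lt, Matrix.mul_apply, Matrix.mul_apply]
    refine sum_congr rfl fun r _ => ?_
    by_cases a : la p = la r
    · simp [blk, low, ← a, e]
    · simp [blk, a]
  · rw [Matrix.one_apply_ne fun k => e (congrArg la k), Matrix.mul_apply]
    refine sum_eq_zero fun r _ => ?_
    by_cases a : la p = la r
    · simp [blk, ← a, e]
    · simp [blk, a]

variable {e f : Fin m → Pl N} {ν ν₀ ν₁ : Pl N → ℝ} {l l₁ : Fin m → ℝ} {L ε B : ℝ}

theorem dg_low {g' : Mt (Fin m)} (s : Sn ν) (h : Dg ν (act g e) l L) (hL : 1 ≤ L)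
    (h0 : ∀ p, 0 < l p) (hε : 0 ≤ ε) (k : e = act g' (act g e)) (b' : ∀ p q, |g' p q| ≤ L * L)
    (b : ∀ p q, la p < la q → |g p q| ≤ ε) (hB : ∀ r, l r ≤ B)
    (sm : ∀ p, 2 * (m + 1) * L * (m * (ε * (m * (L * L * (L * B))))) ≤ l p) :
    Dg ν (act (low la g) e) l (2 * L) := by
  refine dg_pert s h hL h0 fun p => le_trans (mul_le_mul_of_nonneg_left ?_ (by positivity)) (sm p)
  have e1 : act g e p - act (low la g) e p = ∑ q, (g p q - low la g p q) • e q := by
    simp only [act, sub_smul, sum_sub_distrib]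
  rw [e1]
  refine s.sum _ _ fun q => mul_le_mul ?_ ?_ (s.nn _) hε
  · by_cases a : la p < la q
    · simpa [low, a] using b p q a
    · simpa [low, a] using hε
  · rw [congrFun k q]
    exact s.sum _ _ fun r => mul_le_mul (b' q r) ((h.1 r).trans
      (mul_le_mul_of_nonneg_left (hB r) (by positivity))) (s.nn _) (by positivity)

/-- The unipotent part of the transition matrix gives a diagonal family. -/
theorem dg_un (s₀ : Sn ν₀) (s : Sn ν) (hL : 1 ≤ L) (hε : 0 ≤ ε) (hB1 : 1 ≤ B)
    (sp : Sp D (act g e)) (de : ∀ i, (e i).totalDegree ≤ D)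
    (f0 : Dg ν₀ (act g e) (fun _ => 1) L) (e0 : Dg ν₀ e (fun _ => 1) L)
    (f1 : Dg ν₁ (act g e) l₁ L) (e1 : Dg ν₁ e l₁ L) (h1 : ∀ p, 0 < l₁ p)
    (b : ∀ p q, la p < la q → L * L * l₁ p ≤ ε * l₁ q)
    (h : Dg ν (act g e) l L) (h0 : ∀ p, 0 < l p) (hl : ∀ p q, la p = la q → l p = l q)
    (hB : ∀ r, l r ≤ B)
    (sm : ∀ p, 2 * (m + 1) * L * (m * (ε * (m * (L * L * (L * B))))) ≤ min 1 (l p)) :
    Dg ν (act (un la g) e) l (m * (2 * L * L) * (2 * L)) := by
  have L0 : 0 ≤ L := by linarith
  obtain ⟨g', k⟩ := sp.ex de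
  have b' : ∀ p q, |g' p q| ≤ L * L := fun p q => by
    linarith [dg_ent (u := g') f0 (by rw [← k]; exact e0) L0 p q]
  have b1 : ∀ p q, la p < la q → |g p q| ≤ ε := fun p q a =>
    le_of_mul_le_mul_right ((dg_ent e1 f1 L0 p q).trans (b p q a)) (h1 q)
  have d0 := dg_low s₀ f0 hL (fun _ => one_pos) hε k b' b1 (fun _ => hB1)
    fun p => (sm p).trans (min_le_left _ _)
  have d := dg_low s h hL h0 hε k b' b1 hB fun p => (sm p).trans (min_le_right _ _)
  have u := dg_unit s₀ d0 fun _ => one_pos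
  have k2 : act (low la g)⁻¹ (act (low la g) e) = e := by
    rw [← act_mul, Matrix.nonsing_inv_mul _ u, act_one]
  have bl : ∀ w : Mt (Fin m), (∀ p q, |w p q| ≤ 2 * L * L) → ∀ p q,
      |blk la w p q| * l q ≤ 2 * L * L * l p := fun w hw p q => by
    by_cases a : la p = la q
    · rw [blk, Matrix.of_apply, if_pos a, hl p q a]
      exact mul_le_mul_of_nonneg_right (hw p q) (h0 q).le
    · rw [blk, Matrix.of_apply, if_neg a, abs_zero, zero_mul]
      exact mul_nonneg (by positivity) (h0 p).le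
  rw [un, if_pos u, act_mul]
  refine dg_act s d (by positivity) (by positivity) (blk_mul u) (bl _ fun p q => ?_)
    (bl _ fun p q => ?_)
  · linarith [dg_ent (u := (low la g)⁻¹) d0 (by rw [k2]; exact e0) (by positivity) p q]
  · have := dg_ent e0 f0 L0 p q
    nlinarith

/-! ### The constant function -/

variable {c : Fin m → ℝ} {o : Fin m} {A η θ : ℝ}

theorem act_row (hc : ∑ i, c i • f i = 1) : act ((1 : Mt (Fin m)).updateRow o c) f o = 1 := by
  simpa [act] using hc

theorem dg_one (h : Dg ν f l L) (hL : 1 ≤ L) (h0 : ∀ p, 0 < l p)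
    (hc : ∑ i, c i • f i = 1) (h1 : ν 1 = 1) (lo : l o = 1) (hA : 1 ≤ A * |c o|) (A0 : 0 ≤ A) :
    Dg ν (act ((1 : Mt (Fin m)).updateRow o c) f) l (L + A * L * L) := by
  have p0 : 0 ≤ A * L * L := by positivity
  refine ⟨fun p => ?_, fun d p => ?_⟩
  · by_cases a : p = o
    · rw [a, act_row hc, h1, lo]; linarith
    · have : act ((1 : Mt (Fin m)).updateRow o c) f p = f p := by
        rw [← congrFun (act_one f) p]; simp [act, Matrix.updateRow_ne a]
      rw [this]
      nlinarith [h.1 p, h0 p]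
  · have e1 : ∀ q, Matrix.vecMul d ((1 : Mt (Fin m)).updateRow o c) q =
        d o * c q + if q = o then 0 else d q := fun q => by
      rw [Matrix.vecMul, dotProduct, ← add_sum_erase _ _ (mem_univ o), Matrix.updateRow_self]
      congr 1
      rw [sum_congr rfl (g := fun r => if r = q then d r else 0) fun r hr => by
        simp [Matrix.updateRow_ne (ne_of_mem_erase hr), Matrix.one_apply]]
      simp
    rw [sum_act]
    have k := h.2 (Matrix.vecMul d ((1 : Mt (Fin m)).updateRow o c))
    generalize ν (∑ q, Matrix.vecMul d ((1 : Mt (Fin m)).updateRow o c) q • f q) = y at k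
    have ko := k o
    rw [e1, if_pos rfl, add_zero, lo, mul_one, abs_mul] at ko
    have y0 : 0 ≤ L * y := le_trans (by positivity) ko
    have k1 : |d o| ≤ A * (L * y) := by nlinarith [abs_nonneg (d o)]
    by_cases a : p = o
    · rw [a, lo]; nlinarith [mul_nonneg A0 y0]
    · have kp := k p
      have kc := h.2 c p
      rw [hc, h1, mul_one] at kc
      rw [e1, if_neg a] at kp
      have t := abs_sub (d o * c p + d p) (d o * c p)
      rw [add_sub_cancel_left, abs_mul] at t
      nlinarith [mul_le_mul_of_nonneg_right t (h0 p).le, mul_le_mul k1 kc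
        (mul_nonneg (abs_nonneg _) (h0 p).le) (mul_nonneg A0 y0)]

theorem one_le (s : Sn ν) (h : Dg ν f (fun _ => 1) L) (hc : ∑ i, c i • f i = 1) (h1 : ν 1 = 1)
    (k : ∀ i, |c i| ≤ η) : 1 ≤ m * (η * L) := by
  rw [← h1, ← hc]
  exact s.sum _ _ fun i => mul_le_mul (k i) (by simpa using h.1 i) (s.nn _)
    ((abs_nonneg _).trans (k i))

theorem one_le' (s : Sn ν) (h : Dg ν f (fun _ => 1) L) (hc : ∑ i, c i • f i = 1) (h1 : ν 1 = 1)
    (η0 : 0 ≤ η) (k : ∀ i, i ≠ o → |c i| ≤ η) : 1 ≤ L * |c o| + m * (η * L) := by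
  have e1 : ∑ i, c i • f i = c o • f o + ∑ i, Function.update c o 0 i • f i := by
    rw [← add_sum_erase _ _ (mem_univ o), ← add_sum_erase _ _ (mem_univ o)]
    simp only [Function.update_self, zero_smul, zero_add]
    exact congrArg _ (sum_congr rfl fun i hi => by rw [Function.update_of_ne (ne_of_mem_erase hi)])
  rw [← h1, ← hc, e1]
  refine (s.add _ _).trans (add_le_add ?_ (s.sum _ _ fun i => mul_le_mul ?_
    (by simpa using h.1 i) (s.nn _) η0))
  · rw [s.smul, mul_comm L]
    exact mul_le_mul_of_nonneg_left (by simpa using h.1 o) (abs_nonneg _)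
  · by_cases a : i = o
    · simpa [a] using η0
    · rw [Function.update_of_ne a]; exact k i a

theorem two_small (s : Sn ν) (h0 : Dg ν₀ f (fun _ => 1) L) (h : Dg ν f l L) (hL : 0 ≤ L)
    (θ0 : 0 ≤ θ) (de : ∀ i, (f i).totalDegree ≤ D)
    (sl : ∀ F : Pl N, F.totalDegree ≤ D → ∃ c : ℝ, ν (F - C c) ≤ θ * ν₀ F) {i i' : Fin m}
    (ne : i ≠ i') : l i ≤ L * (2 * θ * L) ∨ l i' ≤ L * (2 * θ * L) := by
  choose c hc using fun i => sl _ (de i)
  have b : ∀ i, ν (f i - C (c i)) ≤ θ * L := fun i =>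
    (hc i).trans (mul_le_mul_of_nonneg_left (by simpa using h0.1 i) θ0)
  have key : ∀ i i', i ≠ i' → |c i| ≤ |c i'| → l i ≤ L * (2 * θ * L) := fun i i' ne k => by
    have r1 : |c i / c i'| ≤ 1 := by rw [abs_div]; exact div_le_one_of_le₀ k (abs_nonneg _)
    have r2 : c i / c i' * c i' = c i := by
      by_cases z : c i' = 0
      · rw [z, abs_zero, abs_nonpos_iff] at k; rw [k, z, mul_zero]
      · exact div_mul_cancel₀ _ z
    have h1 := h.2 (Pi.single i 1 - Pi.single i' (c i / c i')) i
    have e1 : ∑ j, (Pi.single i 1 - Pi.single i' (c i / c i') : Fin m → ℝ) j • f j =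
        (f i - C (c i)) - (c i / c i') • (f i' - C (c i')) := by
      simp only [Pi.sub_apply, sub_smul, sum_sub_distrib, Pi.single_apply, ite_smul, zero_smul,
        sum_ite_eq', mem_univ, if_true, one_smul, smul_sub, ← C_mul', ← C_mul, r2]
      abel
    rw [e1, Pi.sub_apply, Pi.single_eq_same, Pi.single_eq_of_ne ne, sub_zero, abs_one,
      one_mul] at h1
    refine h1.trans (mul_le_mul_of_nonneg_left ((s.sub _ _).trans ?_) hL)
    rw [s.smul]
    nlinarith [b i, b i', mul_le_mul r1 (b i') (s.nn _) zero_le_one]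
  exact (le_total |c i| |c i'|).imp (key i i' ne) (key i' i ne.symm)

end Pool.Agent.MP_5168f5_an.AN.N2
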