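import Pool.Agent.MP_5168f5_an.AN.N6Spec2
import Pool.Agent.MP_5168f5_an.AN.LC1

/-! Kakeya sets in all dimensions: cutting the algebras, statements and assembly. -/

namespace Pool.Agent.MP_5168f5_an.AN.N3

open H19 H17S H17F R4 Filter LC
open G39 (dl OB)
open GA (Mt Neg)
open N6 (co At CHG)
open S20 (dn)

section Defs

variable {m : ℕ} {κ : Type} [Fintype κ]

/-- A form on `S` that is at most `θ` on the brackets. -/
def Fm (c : κ → κ → κ → ℝ) (S : Finset κ) (θ : ℝ) (l : κ → ℝ) : Prop :=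
  (∀ b, b ∉ S → l b = 0) ∧ ∀ b ∈ S, ∀ b' ∈ S, |∑ e, l e * c b b' e| ≤ θ

/-- A unit form is concentrated in the atom of `ω`. -/
def Bad {Ω Λ : Type} (σ : St m κ) (X : Dt m κ Ω Λ) (S : Finset κ) (k : Bool) (a : ℚ≥0) (h g : ℝ)
    (ω : Ω) : Prop := ∃ u, At X k a u ω ∧ ∃ (l : κ → ℝ) (c₀ : ℝ), Fm X.c S (Real.exp (-h)) l ∧
  ∑ b, |l b| = 1 ∧ Real.exp (-g) <
    pb (X.fb k a ω) fun v => |∑ b, l b * co σ X a u v b - c₀| ≤ Real.exp (-h)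

/-- The form `l` is at most `θ` on the increments in the atoms of level `a`. -/
def Hy {Ω Λ : Type} (σ : St m κ) (X : Dt m κ Ω Λ) (k : Bool) (l : Ω → κ → ℝ) (a : ℚ≥0) (θ : ℝ) :
    Prop := ∀ ω v, At X k a ω v → |∑ b, l ω b * co σ X a ω v b| ≤ θ

variable {Ω Λ : ℕ → Type} (σ : St m κ) (S : Bool → Finset κ) (k : Bool)

/-- One unit form in every atom of level zero. -/
structure R0 (X : ∀ n, Dt m κ (Ω n) (Λ n)) (l : ∀ n, Ω n → κ → ℝ) : Prop where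
  fn : FnE (sP X) l (sO X k 0)
  fm : ∀ᶠ n in UF, ∀ ω ∈ (X n).P.S, Fm (X n).c (S k) (dl (sM X) 1 n) (l n ω) ∧ ∑ b, |l n ω b| = 1
  hy : ∀ᶠ n in UF, Hy σ (X n) k (l n) 0 (dl (sM X) (1 / 2) n)

/-- A homogeneous form for all levels up to one. -/
structure R1 (f : κ) (μ : ℝ) (X : ∀ n, Dt m κ (Ω n) (Λ n)) (l : ∀ n, Ω n → κ → ℝ) : Prop where
  pos : 0 < μ
  mem : f ∈ S k
  fn : FnE (sP X) l (sO X true 0)
  fm : ∀ᶠ n in UF, ∀ ω ∈ (X n).P.S, Fm (X n).c (S k) (dl (sM X) μ n) (l n ω) ∧ l n ω f = 1 ∧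
    ∀ b, σ.wt b ≠ σ.wt f → l n ω b = 0
  bd : ∀ c : ℝ, 0 < c → ∀ᶠ n in UF, ∀ ω ∈ (X n).P.S, ∀ b, |l n ω b| ≤ Real.exp (c * (X n).M)
  hy : ∀ a, a ≤ 1 → ∀ᶠ n in UF, Hy σ (X n) k (l n) a (dl (sM X) μ n)

/-- One homogeneous form for all atoms. -/
structure R2 (f : κ) (X : ∀ n, Dt m κ (Ω n) (Λ n)) (l : ℕ → κ → ℝ) : Prop where
  mem : f ∈ S k
  fm : ∀ T : ℝ, ∀ᶠ n in UF, Fm (X n).c (S k) (dl (sM X) T n) (l n) ∧ l n f = 1 ∧
    ∀ b, σ.wt b ≠ σ.wt f → l n b = 0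
  ob : ∀ b, OB (sM X) fun n => l n b
  hy : ∀ a (T : ℝ), ∀ᶠ n in UF, Hy σ (X n) k (fun _ => l n) a (dl (sM X) T n)

end Defs

/-- A statement about all members of the class. -/
def AllL (p : ∀ (m : ℕ) (κ : Type) [Fintype κ] (Ω Λ : ℕ → Type), St m κ → (Bool → Finset κ) →
    (∀ n, Dt m κ (Ω n) (Λ n)) → Prop) : Prop :=
  ∀ (m : ℕ) (κ : Type) [Fintype κ] (Ω Λ : ℕ → Type) (σ : St m κ) (S : Bool → Finset κ)
    (X : ∀ n, Dt m κ (Ω n) (Λ n)), L σ S X → p m κ Ω Λ σ S X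

/-- If the bad atoms are rare they can be removed. -/
def NUL : Prop := AllL fun m κ _ Ω Λ σ S X => ∀ L₀ : ℝ, 1 ≤ L₀ →
  (∀ (k : Bool) (a η : ℚ≥0), Whp (sP X) fun n ω =>
    ¬Bad σ (X n) (S k) k a (η * (X n).M) (η * (X n).M / L₀) ω) →
  ∃ X' : ∀ n, Dt m κ (Ω n) (Λ n), L σ S X' ∧ AC σ S L₀ X'

def OfNUL : Prop := SRes → NUL

/-- Forms that kill the brackets are additive. -/
def ADD : Prop := AllL fun _ κ _ _ _ σ S X => ∀ (k : Bool) (a : ℚ≥0) (c T : ℝ), 0 < c →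
  ∀ᶠ n in UF, ∀ u ω v, At (X n) k a u ω → At (X n) k a u v → ∀ (l : κ → ℝ) (θ : ℝ),
    dl (sM X) T n ≤ θ → (∀ b, |l b| ≤ 1) → Fm (X n).c (S k) θ l →
    |∑ b, l b * co σ (X n) a u v b - ∑ b, l b * co σ (X n) a u ω b -
      ∑ b, l b * co σ (X n) a ω v b| ≤ Real.exp (c * (X n).M) * θ

/-- Otherwise there is a member with a form in every atom. -/
def POS : Prop := AllL fun m κ _ Ω Λ σ S X => ∀ k : Bool,
  (∀ i : ℕ, ∃ a η : ℚ≥0, Pos (sP X) fun n ω =>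
    Bad σ (X n) (S k) k a (η * (X n).M) (η * (X n).M / (i + 1)) ω) →
  ∃ (X' : ∀ n, Dt m κ (Ω n) (Λ n)) (l : ∀ n, Ω n → κ → ℝ), L σ S X' ∧ R0 σ S k X' l

def OfPOS : Prop := SRes → ADD → POS

/-- One weight wins. -/
def WIN : Prop := AllL fun m κ _ Ω Λ σ S X => ∀ (k : Bool) (l : ∀ n, Ω n → κ → ℝ), R0 σ S k X l →
  ∃ (X' : ∀ n, Dt m κ (Ω n) (Λ n)) (f : κ) (μ : ℝ) (l' : ∀ n, Ω n → κ → ℝ),
    L σ S X' ∧ R1 σ S k f μ X' l'

def OfWIN : Prop := SRes → WIN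

/-- A negligible change of the group element changes the coordinates negligibly. -/
def PERT : Prop := AllL fun m _ _ Ω _ σ _ X => ∀ (P : ∀ n, FP (Ω n)) (j : ∀ n, Ω n → Mt (Fin m)),
  (∀ᶠ n in UF, ∀ ω ∈ (P n).S, ω ∈ (X n).P.S) → Cls σ X P j → ∀ (k : Bool) (a : ℚ≥0) (T : ℝ),
  ∀ᶠ n in UF, ∀ ω v, At ((X n).chg (P n) (j n)) k a ω v → ∀ b,
    |co σ ((X n).chg (P n) (j n)) a ω v b - co σ (X n) a ω v b| ≤ dl (sM X) T n

/-- The tail of the information density. -/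
def TAIL : Prop := ∀ (Ω α β γ : Type) (P : FP Ω) (Y : Ω → α) (A : Ω → β) (A' : Ω → γ) (t : ℝ),
  Fn P A A' → t * pb P (fun ω => ¬Real.exp (-t) * dn P Y A' ω ≤ dn P Y A ω) ≤
    ch P Y A - ch P Y A' + 1

/-- The form can be frozen. -/
def BUD : Prop := AllL fun m κ _ Ω Λ σ S X => ∀ (k : Bool) (f : κ) (μ : ℝ)
  (l : ∀ n, Ω n → κ → ℝ), R1 σ S k f μ X l →
  ∃ (X' : ∀ n, Dt m κ (Ω n) (Λ n)) (l' : ℕ → κ → ℝ), L σ S X' ∧ R2 σ S k f X' l'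

def OfBUD : Prop := SFrz → PERT → TAIL → BUD

open Classical in
/-- The kernel of the form is a smaller algebra. -/
def DROP : Prop := AllL fun m κ _ Ω Λ σ S X => ∀ (k : Bool) (f : κ) (l : ℕ → κ → ℝ),
  R2 σ S k f X l → ∃ X' : ∀ n, Dt m κ (Ω n) (Λ n),
    L σ (fun i => if i = false ∧ k = true then S false else (S k).erase f) X'

def OfDROP : Prop := CHG → DROP

theorem Bad.mono {m : ℕ} {κ Ω Λ : Type} [Fintype κ] {σ : St m κ} {X : Dt m κ Ω Λ} {S : Finset κ}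
    {k : Bool} {a : ℚ≥0} {h g g' : ℝ} {ω : Ω} (e : Bad σ X S k a h g ω) (b : g ≤ g') :
    Bad σ X S k a h g' ω :=
  let ⟨u, x, l, c, y, z, w⟩ := e
  ⟨u, x, l, c, y, z, (ex_le (neg_le_neg b)).trans_lt w⟩

theorem sCut (h1 : NUL) (h2 : POS) (h3 : WIN) (h4 : BUD) (h5 : DROP) : SCut := by
  intro m κ _ Ω Λ σ S X hX mn
  classical
  by_cases c : ∃ k : Bool, ∀ i : ℕ, ∃ a η : ℚ≥0, Pos (sP X) fun n ω =>
      Bad σ (X n) (S k) k a (η * (X n).M) (η * (X n).M / (i + 1)) ω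
  · obtain ⟨k, c⟩ := c
    obtain ⟨X, l, hX, r⟩ := h2 m κ Ω Λ σ S X hX k c
    obtain ⟨X, f, μ, l, hX, r⟩ := h3 m κ Ω Λ σ S X hX k l r
    obtain ⟨X, l, hX, r⟩ := h4 m κ Ω Λ σ S X hX k f μ l r
    obtain ⟨X, hX⟩ := h5 m κ Ω Λ σ S X hX k f l r
    have e := mn _ X hX
    have lt := Finset.card_erase_lt_of_mem r.mem
    cases k
    · exact absurd (by simpa using e.1) (not_le.2 lt)
    · exact absurd (by simpa using e.2) (not_le.2 lt)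
  · push Not at c
    choose i hi using c
    have one : (1 : ℝ) ≤ (i true + i false : ℕ) + 1 := by linarith [Nat.cast_nonneg (α := ℝ) (i true + i false)]
    obtain ⟨X', a⟩ := h1 m κ Ω Λ σ S X hX _ one fun k a η =>
      (S20.whp_not (hi k a η)).mono (Eventually.of_forall fun n ω _ u v => u (v.mono
        (div_le_div_of_nonneg_left (by positivity) (by positivity) (by
          cases k <;> push_cast <;> linarith [Nat.cast_nonneg (α := ℝ) (i true),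
            Nat.cast_nonneg (α := ℝ) (i false)]))))
    exact ⟨_, X', one, a⟩

end Pool.Agent.MP_5168f5_an.AN.N3
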