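import Pool.Agent.MP_5168f5_an.AN.N4Det
import Pool.Agent.MP_5168f5_an.AN.G39Res

/-! Kakeya sets in all dimensions: from linear to polynomial anti-concentration. -/

namespace Pool.Agent.MP_5168f5_an.AN.N4

open H19 H17S H17F G39 Filter MvPolynomial Pk Finsupp

/-- For side variables with information at most `r` the event has probability at most `b`. -/
def AP {Ω α α' D : Type} (P : FP Ω) (A : Ω → α) (A' : Ω → α') (r b : ℝ) (ev : D → Ω → Prop) :
    Prop := ∀ (W : Type) (Q : FP W) (π : W → Ω) (β : W → D), Law Q π P id →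
  mi Q β (fun v => A' (π v)) (fun v => A (π v)) ≤ r → pb Q (fun v => ev (β v) (π v)) ≤ b

theorem pb_id {Ω W : Type} {P : FP Ω} {Q : FP W} {π : W → Ω} (h : Law Q π P id) (E : Ω → Prop) :
    pb Q (fun v => E (π v)) = pb P E := h.pb_eq E

theorem mi_step {W D D' α γ : Type} (Q : FP W) (β : W → D) (β' : W → D') (A B : W → α)
    (C : W → γ) (h : Fn Q β' fun v => ((β v, A v), B v)) :
    mi Q β' C B ≤ mi Q β C A + ch Q A B + ch Q B C := by
  have h1 : mi Q β' C B ≤ mi Q (fun v => (A v, β v)) C B :=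
    mi_mono' fun a ha b hb e => h a ha b hb (by simp only [Prod.mk.injEq] at e ⊢; tauto)
  rw [mi_symm (fun v => (A v, β v)), mi_chain, mi_symm C A, mi_symm C β] at h1
  have h2 := mi_le (P := Q) A C B
  have h3 := mi_chain (P := Q) β B C A
  have h4 := mi_nonneg (P := Q) β B A
  have h5 := mi_near (P := Q) β (fun v => (B v, C v)) C A
  have h6 : ch Q (fun v => (B v, C v)) (fun v => (C v, A v)) ≤ ch Q B C :=
    ch_le (fun a _ b _ e => by simp only [Prod.mk.injEq] at e ⊢; tauto) (Fn.fst C A)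
  have h7 : mi Q β C (fun v => (A v, B v)) ≤ mi Q β C fun v => (B v, A v) :=
    mi_cond (fun a _ b _ e => by simp only [Prod.mk.injEq] at e ⊢; tauto)
      fun a _ b _ e => by simp only [Prod.mk.injEq] at e ⊢; tauto
  linarith

theorem ex_gap {κ : Type} [Fintype κ] [DecidableEq κ] {la : κ → ℝ} (h : ∀ a, 0 < la a) (E : ℕ) :
    ∃ (e0 g : ℝ) (E' : ℕ), Gap la e0 g E' ∧ ∀ F : MvPolynomial κ ℝ, F.totalDegree ≤ E →
      ∀ α, coeff α F ≠ 0 → weight la α ≤ e0 := by
  have fin : ∀ {J : Type} (T : Finset J) (f : J → ℝ), (∀ j ∈ T, 0 < f j) →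
      ∃ g, 0 < g ∧ ∀ j ∈ T, g ≤ f j := fun T f hf => by
    rcases T.eq_empty_or_nonempty with rfl | hT
    · exact ⟨1, one_pos, by simp⟩
    · obtain ⟨j, hj, k⟩ := T.exists_min_image f hT
      exact ⟨f j, hf j hj, k⟩
  obtain ⟨g0, p0, h0⟩ := fin Finset.univ la fun a _ => h a
  have hs : ∀ a, la a ≤ ∑ b, la b := fun a =>
    Finset.single_le_sum (f := la) (fun b _ => (h b).le) (Finset.mem_univ a)
  have s0 : 0 ≤ ∑ b, la b := Finset.sum_nonneg fun b _ => (h b).le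
  set e0 := (E + 1) * ∑ b, la b with he
  have hm : ∀ α : κ →₀ ℕ, weight la α ≤ e0 → α ∈ mons κ ⌈e0 / g0⌉₊ := fun α hα => by
    rw [pCnt.mem]
    have k1 := (wt_ge (fun a => h0 a (Finset.mem_univ a)) α).trans hα
    rw [Finsupp.sum_fintype _ _ fun _ => rfl] at k1
    exact_mod_cast ((le_div_iff₀ p0).2 k1).trans (Nat.le_ceil _)
  obtain ⟨g1, p1, h1⟩ := fin (((mons κ ⌈e0 / g0⌉₊) ×ˢ (mons κ ⌈e0 / g0⌉₊)).filter
    fun p => weight la p.1 < weight la p.2) (fun p => weight la p.2 - weight la p.1)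
    fun p hp => sub_pos.2 (Finset.mem_filter.1 hp).2
  have pg := lt_min p0 p1
  refine ⟨e0, min g0 g1, ⌈e0 / min g0 g1⌉₊, ⟨pg, fun a => ⟨(min_le_left _ _).trans
    (h0 a (Finset.mem_univ a)), (hs a).trans (le_mul_of_one_le_left s0 (by simp))⟩,
    (div_le_iff₀ pg).1 (Nat.le_ceil _), fun α β hβ k => ?_⟩, fun F hF α hα => ?_⟩
  · have := h1 (α, β) (Finset.mem_filter.2 ⟨Finset.mem_product.2 ⟨hm α (k.le.trans hβ), hm β hβ⟩, k⟩)
    linarith [min_le_right g0 g1]
  · have k1 : ((α.sum fun _ e => e : ℕ) : ℝ) ≤ E := by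
      exact_mod_cast (le_totalDegree (MvPolynomial.mem_support_iff.2 hα)).trans hF
    have k2 : weight la α ≤ ((α.sum fun _ e => e : ℕ) : ℝ) * ∑ b, la b := by
      rw [weight_apply, Finsupp.sum, Finsupp.sum, Nat.cast_sum, Finset.sum_mul]
      exact Finset.sum_le_sum fun a _ => by
        rw [nsmul_eq_mul]; exact mul_le_mul_of_nonneg_left (hs a) (Nat.cast_nonneg _)
    exact k2.trans (mul_le_mul_of_nonneg_right (by linarith) s0)

/-- Nested objects `O x` with increments `t x`; levels are shifted by steps of length `v s`. -/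
structure Dat (κ : Type) : Type 1 where
  Ω : ℕ → Type
  α : ℕ → Type
  Λ : Type
  K : Type
  P : ∀ n, FP (Ω n)
  M : ℕ → ℕ
  v : K → ℝ
  sh : Λ → K → Λ
  ok : Λ → Prop
  O : Λ → ∀ n, Ω n → α n
  t : Λ → ∀ n, Ω n → κ → ℝ
  c : ℕ → κ → κ → κ → ℝ
  m : ℕ → κ → MvPolynomial (κ ⊕ κ) ℝ

variable {κ : Type}

/-- The increment at level `x` is the product of a part read from the deeper object and of the
dilated deeper increment. -/
structure Fil (S : Dat κ) (la : κ → ℝ) : Prop where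
  big : Big S.M
  den : ∀ a b : ℝ, 0 < a → a < b → ∃ s, a < S.v s ∧ S.v s < b
  ok : ∀ x s, S.ok x → 0 < S.v s → S.ok (S.sh x s)
  lw : ∀ᶠ n in UF, Lw la (S.c n) (S.m n)
  ob : ∀ e, OB S.M fun n => cn (S.m n e)
  nest : ∀ x s, S.ok x → 0 < S.v s → Sm S.M fun n => ch (S.P n) (S.O x n) (S.O (S.sh x s) n)
  step : ∀ x s, S.ok x → 0 < S.v s → ∀ θ K : ℝ, 0 < θ →
    ∃ (σ : ℕ → ℝ) (φ : ∀ n, S.α n → S.α n → κ → ℝ),
    (∀ᶠ n in UF, S.v s / 2 * S.M n ≤ σ n ∧ σ n ≤ 3 * S.v s / 2 * S.M n) ∧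
    Whp S.P fun n ω => ∀ e, (|S.t x n ω e| ≤ (dl S.M θ n)⁻¹ ∧
      |φ n (S.O x n ω) (S.O (S.sh x s) n ω) e| ≤ (dl S.M θ n)⁻¹ ∧
      |S.t (S.sh x s) n ω e| ≤ (dl S.M θ n)⁻¹) ∧
      |S.t x n ω e - eval (Sum.elim (fun i => Real.exp (-(σ n * la i)) * S.t (S.sh x s) n ω i)
        (φ n (S.O x n ω) (S.O (S.sh x s) n ω))) (S.m n e)| ≤ dl S.M K n

/-- Anti-concentration in information form. -/
def AC (S : Dat κ) {D : Type} (ev : ℝ → ℕ → D → (κ → ℝ) → Prop) (C : ℝ) : Prop :=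
  ∀ x (η ρ ε : ℝ), S.ok x → 0 < η → 0 < ρ → 0 < ε → ∀ᶠ n in UF,
    AP (S.P n) (S.O x n) id (ρ * S.M n) (C * ρ / η + ε)
      fun d ω => ev η n d (S.t x n ω)

variable [Fintype κ] [DecidableEq κ]

/-- The linear form. -/
def AC1 (S : Dat κ) (C : ℝ) : Prop := AC S (fun η n l t => L1 (S.c n) (dl S.M η n) l t) C

/-- The polynomial form. -/
def ACE (S : Dat κ) (E : ℕ) (C : ℝ) : Prop := AC S (fun η n (F : MvPolynomial κ ℝ) t =>
  F.totalDegree ≤ E ∧ |eval t F| < dl S.M η n * cn F) C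

theorem ind {la : κ → ℝ} {e0 g : ℝ} {E : ℕ} (hg : Gap la e0 g E) {C : ℝ} (hC : 0 ≤ C) (k : ℕ) :
    ∃ C', 0 ≤ C' ∧ ∀ S : Dat κ, Fil S la → AC1 S C → AC S (fun η n (F : MvPolynomial κ ℝ) t =>
      Wt la e0 (k * g) F ∧ |eval t F| < dl S.M η n * cn F) C' := by
  induction k with
  | zero =>
    refine ⟨0, le_rfl, fun S _ _ x η ρ ε _ _ _ hε => Eventually.of_forall
      fun n W Q π β _ _ => (pb_zero fun v _ h => ?_).le.trans (by simpa using hε.le)⟩
    have : β v = 0 := by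
      ext α
      by_contra k
      have := (h.1 α k).2
      rw [Nat.cast_zero, zero_mul] at this
      exact absurd this (not_lt.2 (wt_nn hg.pos (fun a => (hg.le a).1) α))
    have k := h.2
    rw [this, (kc.zero 0).2 rfl] at k
    simp at k
  | succ k ih =>
    obtain ⟨C', hC', ih⟩ := ih
    have g0 := hg.pos
    set W0 : ℝ := (k + 1) * g with hW
    have W1 : g ≤ W0 := le_mul_of_one_le_left g0.le (by simp)
    have W2 : 0 < W0 + 1 := by linarith
    refine ⟨(3 * C' + C) * (56 * (W0 + 1) / g), by positivity,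
      fun S hS h1 x η ρ ε hx hη hρ hε => ?_⟩
    have ih := ih S hS h1
    obtain ⟨s, s1, s2⟩ := hS.den (η / (4 * (W0 + 1))) (η / (2 * (W0 + 1)))
      (by positivity) (by gcongr; norm_num)
    have s0 : 0 < S.v s := lt_trans (by positivity) s1
    set u := g * η / (56 * (W0 + 1)) with hu
    have u0 : 0 < u := by positivity
    have u1 : u ≤ η / 56 := by
      rw [hu, div_le_div_iff₀ (by positivity) (by norm_num)]; nlinarith
    have u2 : 7 * u ≤ S.v s / 2 * g := by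
      rw [show 7 * u = η / (4 * (W0 + 1)) / 2 * g by rw [hu]; field_simp; ring]
      exact mul_le_mul_of_nonneg_right (by linarith) g0.le
    have u3 : 3 * S.v s / 2 * (k * g) + 7 * u ≤ η := by
      have k1 : S.v s * (k * g) ≤ η / (2 * (W0 + 1)) * (W0 + 1) :=
        mul_le_mul s2.le (by rw [hW]; nlinarith) (by positivity) (by positivity)
      rw [show η / (2 * (W0 + 1)) * (W0 + 1) = η / 2 by field_simp] at k1
      linarith
    set θ := u / (3 * E + 9 : ℕ) with hθ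
    have θ0 : 0 < θ := by positivity
    obtain ⟨σ, φ, hσ, hφ⟩ := hS.step x s hx s0 θ η θ0
    have e4 : 0 < ε / 4 := by positivity
    have n1 := hS.nest x s hx s0 ρ hρ
    have i2 := ih _ u (2 * ρ) _ (hS.ok x s hx s0) u0 (by positivity) e4
    filter_upwards [hσ, hφ _ e4, n1, i2, ih x u ρ _ hx u0 hρ e4, h1 x u ρ _ hx u0 hρ e4, hS.lw, big_dl hS.big 2 θ0,
      big_dl hS.big (mons κ E).card θ0, big_dl hS.big (mons (κ ⊕ κ) E).card θ0,
      big_dl hS.big (Fintype.card κ) θ0, big_dl hS.big E θ0,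
      eventually_all.2 fun e => hS.ob e θ θ0] with n hσ hφ n1 i2 i1 i3 hm b1 b2 b3 b4 b5 b6
    intro W Q π β hL hI
    set τ := dl S.M u n with hτ
    have hs : Sz E (S.m n) (dl S.M θ n)⁻¹ τ := ⟨b1, b2, b3, b4, b5,
      fun e => (le_abs_self _).trans (b6 e), dl_pos _ _ _, by
        rw [inv_pow, dl_pow, hθ, mul_div_cancel₀ _ (by positivity), inv_mul_cancel₀ (dl_pos _ _ _).ne']⟩
    have hpk : ∀ F : MvPolynomial κ ℝ, ∃ p : (κ →₀ ℕ) × (κ →₀ ℕ),
        (p.1 ≠ 0 ∧ p.2 ≠ 0 ∧ τ ^ 3 * cn F < |coeff (sumElim p.1 p.2) (aeval (S.m n) F)|) ∨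
        ∀ γ α, γ ≠ 0 → α ≠ 0 → |coeff (sumElim γ α) (aeval (S.m n) F)| ≤ τ ^ 3 * cn F := fun F => by
      by_contra hn
      push Not at hn
      obtain ⟨γ, α, k1, k2, k3⟩ := (hn (0, 0)).2
      exact absurd ((hn (γ, α)).1 k1 k2) (not_le.2 k3)
    choose pk hpk using hpk
    have j1 := i1 W Q π (fun v => sl (aeval (S.m n) (β v)) (pk (β v)).1) hL
      ((mi_mono' fun a _ b _ e => by rw [(Prod.mk.inj e).1]).trans hI)
    have j3 := i3 W Q π (fun v => nl (β v)) hL
      ((mi_mono' fun a _ b _ e => by rw [(Prod.mk.inj e).1]).trans hI)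
    have j2 := i2 W Q π (fun v => low la (σ n) (k * g)
      (φ n (S.O x n (π v)) (S.O (S.sh x s) n (π v))) (aeval (S.m n) (β v))) hL
      ((mi_step Q β _ (fun v => S.O x n (π v)) _ _ fun a _ b _ e => by
        simp only [Prod.mk.injEq] at e
        rw [e.1.1, e.1.2, e.2]).trans (by
          rw [hL.ch_id, ch_zero (P := Q) (F := fun v => S.O (S.sh x s) n (π v))
            (G := fun v => id (π v)) fun a _ b _ e => congrArg (S.O (S.sh x s) n) e]
          linarith))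
    have j0 := (pb_id hL _).trans_le hφ
    have j := (pb_or _ _ _).trans (add_le_add ((pb_or _ _ _).trans (add_le_add
      ((pb_or _ _ _).trans (add_le_add j0 j1)) j2)) j3)
    refine (pb_mono fun v _ h => ?_).trans (j.trans (le_of_eq ?_))
    · by_contra hn
      simp only [not_or, not_not, not_and, not_lt] at hn
      obtain ⟨⟨⟨k0, k1⟩, k2⟩, k3⟩ := hn
      have hF : Wt la e0 (k * g + g) (β v) := by
        have := h.1
        rwa [Nat.cast_succ, add_mul, one_mul] at this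
      rcases hpk (β v) with ⟨p1, p2, p3⟩ | p
      · refine absurd h.2 (not_lt.2 (detI hg hm hF hs p2 p3 (σ := σ n) (le_trans (by positivity) hσ.1)
          (fun e => (k0 e).1) ?_ ?_ (fun e => (k0 e).2) (k1 (wt_sl hg (hm.wt hF) p1))
          (k2 (wt_low hg (hm.wt hF) _ _ _))))
        · rw [hτ, dl_pow, dl, Real.exp_le_exp]
          push_cast
          nlinarith [mul_le_mul_of_nonneg_right u2 (Nat.cast_nonneg (α := ℝ) (S.M n)),
            mul_le_mul_of_nonneg_right hσ.1 g0.le]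
        · rw [hτ, dl_pow, dl, dl, ← Real.exp_add, Real.exp_le_exp]
          push_cast
          nlinarith [mul_le_mul_of_nonneg_right u3 (Nat.cast_nonneg (α := ℝ) (S.M n)),
            mul_le_mul_of_nonneg_right hσ.2 (by positivity : 0 ≤ k * g)]
      · refine k3 (detII hg hm hF hs p (fun e => (k0 e).1.1) (h.2.trans_le
          (mul_le_mul_of_nonneg_right ?_ (kc.nonneg _))))
        rw [hτ, dl_pow]
        exact dl_anti _ (by push_cast; linarith) n
    · rw [hu]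
      field_simp
      ring

/-- Linear anti-concentration implies polynomial anti-concentration. -/
theorem n4 {la : κ → ℝ} (h : ∀ a, 0 < la a) (E : ℕ) {C : ℝ} (hC : 0 ≤ C) :
    ∃ C', 0 ≤ C' ∧ ∀ S : Dat κ, Fil S la → AC1 S C → ACE S E C' := by
  obtain ⟨e0, g, E', hg, hE⟩ := ex_gap h E
  obtain ⟨C', p, k⟩ := ind hg hC (E' + 1)
  refine ⟨C', p, fun S hS h1 x η ρ ε a1 a2 a3 a4 => (k S hS h1 x η ρ ε a1 a2 a3 a4).mono
    fun n hn W Q π β hL hI => (pb_mono fun v _ e => ⟨fun α hα => ?_, e.2⟩).trans (hn W Q π β hL hI)⟩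
  have := hE _ e.1 α hα
  refine ⟨this, this.trans_lt (hg.deg.trans_lt ?_)⟩
  push_cast
  linarith [hg.pos]

end Pool.Agent.MP_5168f5_an.AN.N4
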