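import Pool.Agent.MP_5168f5_an.AN.PAll

/-! Kakeya sets in all dimensions: polynomials on a graded group, the deterministic steps. -/

namespace Pool.Agent.MP_5168f5_an.AN.N4

open MvPolynomial Pk Finsupp

variable {κ : Type}

/-- The coefficient of the monomial `γ` in the first group of variables. -/
noncomputable def sl (S : MvPolynomial (κ ⊕ κ) ℝ) (γ : κ →₀ ℕ) : MvPolynomial κ ℝ :=
  coeff γ (sumAlgEquiv ℝ κ κ S)

theorem coeff_sl (S : MvPolynomial (κ ⊕ κ) ℝ) (γ α : κ →₀ ℕ) :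
    coeff α (sl S γ) = coeff (sumElim γ α) S := by
  simp [sl, sumAlgEquiv, coeff, AddMonoidAlgebra.curryAlgEquiv, AddMonoidAlgebra.curryRingEquiv,
    AddMonoidAlgebra.curryAddEquiv]

/-- Substitute `φ` in the second group of variables. -/
noncomputable def sb (φ : κ → ℝ) (S : MvPolynomial (κ ⊕ κ) ℝ) : MvPolynomial κ ℝ :=
  aeval (Sum.elim X fun a => C (φ a)) S

theorem coeff_sb (φ : κ → ℝ) (S : MvPolynomial (κ ⊕ κ) ℝ) (γ : κ →₀ ℕ) :
    coeff γ (sb φ S) = eval φ (sl S γ) := by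
  have h : ((aeval (Sum.elim X fun a => C (φ a)) : MvPolynomial (κ ⊕ κ) ℝ →ₐ[ℝ] MvPolynomial κ ℝ) :
      MvPolynomial (κ ⊕ κ) ℝ →+* MvPolynomial κ ℝ) =
      (MvPolynomial.map (eval φ)).comp (sumAlgEquiv ℝ κ κ : MvPolynomial (κ ⊕ κ) ℝ →+* _) := by
    refine ringHom_ext (fun r => ?_) fun i => ?_
    · simp
    · cases i <;> simp
  have e := congrArg (fun f => f S) h
  simp only [RingHom.coe_coe, RingHom.comp_apply] at e
  rw [sb, e, coeff_map, sl]

theorem eval_sb (φ y : κ → ℝ) (S : MvPolynomial (κ ⊕ κ) ℝ) :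
    eval y (sb φ S) = eval (Sum.elim y φ) S := by
  have h : (eval y).comp ((aeval (Sum.elim X fun a => C (φ a)) :
      MvPolynomial (κ ⊕ κ) ℝ →ₐ[ℝ] MvPolynomial κ ℝ) : MvPolynomial (κ ⊕ κ) ℝ →+* _) =
      eval (Sum.elim y φ) := by
    refine ringHom_ext (fun r => ?_) fun i => ?_
    · simp
    · cases i <;> simp
  exact congrArg (fun f => f S) h

theorem sl_zero (S : MvPolynomial (κ ⊕ κ) ℝ) : sl S 0 = aeval (Sum.elim 0 X) S := by
  have h : (constantCoeff : MvPolynomial κ (MvPolynomial κ ℝ) →+* _).comp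
      (sumAlgEquiv ℝ κ κ : MvPolynomial (κ ⊕ κ) ℝ →+* _) =
      ((aeval (Sum.elim 0 X) : MvPolynomial (κ ⊕ κ) ℝ →ₐ[ℝ] MvPolynomial κ ℝ) :
      MvPolynomial (κ ⊕ κ) ℝ →+* MvPolynomial κ ℝ) := by
    refine ringHom_ext (fun r => ?_) fun i => ?_
    · simp
    · cases i <;> simp
  exact congrArg (fun f => f S) h

theorem eval_aeval {σ τ : Type} (x : τ → ℝ) (m : σ → MvPolynomial τ ℝ) (F : MvPolynomial σ ℝ) :
    eval x (aeval m F) = eval (fun i => eval x (m i)) F := by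
  have h : (eval x).comp ((aeval m : MvPolynomial σ ℝ →ₐ[ℝ] MvPolynomial τ ℝ) :
      MvPolynomial σ ℝ →+* _) = eval fun i => eval x (m i) := by
    refine ringHom_ext (fun r => ?_) fun i => ?_ <;> simp
  exact congrArg (fun f => f F) h

theorem aeval_aeval {σ τ υ : Type} (x : τ → MvPolynomial υ ℝ) (m : σ → MvPolynomial τ ℝ)
    (F : MvPolynomial σ ℝ) : aeval x (aeval m F) = aeval (fun i => aeval x (m i)) F := by
  rw [← AlgHom.comp_apply, comp_aeval]

theorem wt_sum (la : κ → ℝ) (γ α : κ →₀ ℕ) :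
    weight (Sum.elim la la) (sumElim γ α) = weight la γ + weight la α := by
  simp only [weight_apply]
  exact sum_sumElim _ _ _

theorem ex_sum (d : κ ⊕ κ →₀ ℕ) : ∃ γ α, d = sumElim γ α :=
  ⟨_, _, (comapDomain_sumElim_comapDomain d).symm⟩

/-- The weights of `la` up to `e0` are separated by `g`. -/
structure Gap (la : κ → ℝ) (e0 g : ℝ) (E : ℕ) : Prop where
  pos : 0 < g
  le : ∀ a, g ≤ la a ∧ la a ≤ e0
  deg : e0 ≤ E * g
  gap : ∀ α β : κ →₀ ℕ, weight la β ≤ e0 → weight la α < weight la β →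
    weight la α + g ≤ weight la β

/-- A homogeneous polynomial law whose bilinear part has the antisymmetrisation `c`. -/
structure Lw (la : κ → ℝ) (c : κ → κ → κ → ℝ) (m : κ → MvPolynomial (κ ⊕ κ) ℝ) : Prop where
  hom : ∀ e, IsWeightedHomogeneous (Sum.elim la la) (m e) (la e)
  l : ∀ e, aeval (Sum.elim X 0) (m e) = (X e : MvPolynomial κ ℝ)
  r : ∀ e, aeval (Sum.elim 0 X) (m e) = (X e : MvPolynomial κ ℝ)
  two : ∀ e, aeval (Sum.elim X X) (m e) = (C 2 * X e : MvPolynomial κ ℝ)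
  br : ∀ a b e, coeff (sumElim (single b 1) (single a 1)) (m e) -
    coeff (sumElim (single a 1) (single b 1)) (m e) = c a b e

/-- All weights are at most `e0` and less than `w`. -/
def Wt {σ : Type} (la : σ → ℝ) (e0 w : ℝ) (F : MvPolynomial σ ℝ) : Prop :=
  ∀ α, coeff α F ≠ 0 → weight la α ≤ e0 ∧ weight la α < w

theorem wt_ge {σ : Type} {la : σ → ℝ} {g : ℝ} (h : ∀ a, g ≤ la a) (α : σ →₀ ℕ) :
    ((α.sum fun _ e => e : ℕ) : ℝ) * g ≤ weight la α := by
  rw [weight_apply, Finsupp.sum, Finsupp.sum, Nat.cast_sum, Finset.sum_mul]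
  exact Finset.sum_le_sum fun a _ => by
    rw [nsmul_eq_mul]; exact mul_le_mul_of_nonneg_left (h a) (Nat.cast_nonneg _)

theorem wt_pos {σ : Type} {la : σ → ℝ} {g : ℝ} (hg : 0 < g) (h : ∀ a, g ≤ la a) {α : σ →₀ ℕ}
    (hα : α ≠ 0) : g ≤ weight la α := by
  refine le_trans ?_ (wt_ge h α)
  have : 1 ≤ α.sum fun _ e => e := by
    obtain ⟨a, ha⟩ := Finsupp.support_nonempty_iff.2 hα
    exact le_trans (Nat.one_le_iff_ne_zero.2 (mem_support_iff.1 ha))
      (Finset.single_le_sum (f := fun a => α a) (fun _ _ => Nat.zero_le _) ha)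
  have h1 : (1 : ℝ) ≤ ((α.sum fun _ e => e : ℕ) : ℝ) := by exact_mod_cast this
  nlinarith

theorem wt_nn {σ : Type} {la : σ → ℝ} {g : ℝ} (hg : 0 < g) (h : ∀ a, g ≤ la a) (α : σ →₀ ℕ) :
    0 ≤ weight la α := le_trans (by positivity) (wt_ge h α)

theorem deg_le {σ : Type} {la : σ → ℝ} {e0 g : ℝ} {E : ℕ} (hg : 0 < g) (h : ∀ a, g ≤ la a)
    (hE : e0 ≤ E * g) {F : MvPolynomial σ ℝ} (hF : ∀ α, coeff α F ≠ 0 → weight la α ≤ e0) :
    F.totalDegree ≤ E := by
  refine Finset.sup_le fun α hα => ?_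
  have h1 := (wt_ge h α).trans ((hF α (MvPolynomial.mem_support_iff.1 hα)).trans hE)
  exact_mod_cast le_of_mul_le_mul_right h1 hg

variable {la : κ → ℝ} {e0 g w : ℝ} {E : ℕ} {c : κ → κ → κ → ℝ} {m : κ → MvPolynomial (κ ⊕ κ) ℝ}
  {F : MvPolynomial κ ℝ}

theorem Gap.le2 (h : Gap la e0 g E) (i : κ ⊕ κ) : g ≤ Sum.elim la la i := by
  cases i <;> exact (h.le _).1

theorem Gap.dg (h : Gap la e0 g E) (hF : Wt la e0 w F) : F.totalDegree ≤ E :=
  deg_le h.pos (fun a => (h.le a).1) h.deg fun α hα => (hF α hα).1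

theorem Gap.dg2 (h : Gap la e0 g E) {S : MvPolynomial (κ ⊕ κ) ℝ}
    (hS : Wt (Sum.elim la la) e0 w S) : S.totalDegree ≤ E :=
  deg_le h.pos h.le2 h.deg fun α hα => (hS α hα).1

theorem Gap.dm (h : Gap la e0 g E) (hm : Lw la c m) (e : κ) : (m e).totalDegree ≤ E :=
  deg_le h.pos h.le2 h.deg fun _ hα => (hm.hom e hα).trans_le (h.le e).2

theorem Lw.wt (hm : Lw la c m) (hF : Wt la e0 w F) : Wt (Sum.elim la la) e0 w (aeval m F) := by
  intro d hd
  rw [aeval_def, eval₂_eq, coeff_sum] at hd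
  obtain ⟨α, hα, h0⟩ := Finset.exists_ne_zero_of_sum_ne_zero hd
  have h1 : IsWeightedHomogeneous (Sum.elim la la)
      ((algebraMap ℝ (MvPolynomial (κ ⊕ κ) ℝ)) (coeff α F) * ∏ i ∈ α.support, m i ^ α i)
      (∑ i ∈ α.support, α i • la i) :=
    (IsWeightedHomogeneous.prod _ _ _ fun i _ => (hm.hom i).pow (α i)).C_mul _
  rw [h1 h0]
  exact hF α (MvPolynomial.mem_support_iff.1 hα)

theorem Lw.cl (hm : Lw la c m) (F : MvPolynomial κ ℝ) (γ : κ →₀ ℕ) :
    coeff (sumElim γ 0) (aeval m F) = coeff γ F := by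
  have h : sb 0 (aeval m F) = F := by
    have e : (Sum.elim X fun a => C ((0 : κ → ℝ) a) : κ ⊕ κ → MvPolynomial κ ℝ) = Sum.elim X 0 := by
      funext i; cases i <;> simp
    rw [sb, e, aeval_aeval]
    simp only [hm.l, aeval_X_left_apply]
  rw [← coeff_sl, ← constantCoeff_eq, ← eval_zero, ← coeff_sb, h]

theorem Lw.cr (hm : Lw la c m) (F : MvPolynomial κ ℝ) (α : κ →₀ ℕ) :
    coeff (sumElim 0 α) (aeval m F) = coeff α F := by
  rw [← coeff_sl, sl_zero, aeval_aeval]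
  simp only [hm.r, aeval_X_left_apply]

theorem co_inl [DecidableEq κ] (F : MvPolynomial κ ℝ) (γ α : κ →₀ ℕ) :
    coeff (sumElim γ α) (rename Sum.inl F) = if α = 0 then coeff γ F else 0 := by
  have e := congrArg (fun f => f F) (sumAlgEquiv_comp_rename_inl ℝ κ κ)
  simp only [AlgHom.comp_apply, AlgEquiv.coe_toAlgHom] at e
  rw [← coeff_sl, sl, e]
  simp [coeff_map, coeff_C, eq_comm]

theorem co_inr [DecidableEq κ] (F : MvPolynomial κ ℝ) (γ α : κ →₀ ℕ) :
    coeff (sumElim γ α) (rename Sum.inr F) = if γ = 0 then coeff α F else 0 := by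
  have e := congrArg (fun f => f F) (sumAlgEquiv_comp_rename_inr ℝ κ κ)
  simp only [AlgHom.comp_apply, AlgEquiv.coe_toAlgHom] at e
  rw [← coeff_sl, sl, e]
  by_cases h : γ = 0 <;> simp [coeff_C, h, eq_comm]

theorem co_two (F : MvPolynomial κ ℝ) (γ : κ →₀ ℕ) :
    coeff γ (aeval (fun e => (C 2 * X e : MvPolynomial κ ℝ)) F) =
      2 ^ (γ.sum fun _ e => e) * coeff γ F := by
  classical
  induction F using MvPolynomial.induction_on' with
  | monomial α a =>
    have : aeval (fun e => (C 2 * X e : MvPolynomial κ ℝ)) (monomial α a) =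
        monomial α (2 ^ (α.sum fun _ e => e) * a) := by
      rw [aeval_monomial, monomial_eq, Finsupp.prod, Finsupp.prod, Finsupp.sum]
      simp only [mul_pow, Finset.prod_mul_distrib, ← C_pow, ← map_prod, algebraMap_eq,
        Finset.prod_pow_eq_pow_sum, map_mul]
      ring
    rw [this, coeff_monomial, coeff_monomial]
    split_ifs with h
    · rw [h]
    · simp
  | add p q hp hq => rw [map_add, coeff_add, coeff_add, hp, hq, mul_add]

theorem cn_le {σ : Type} [Fintype σ] [DecidableEq σ] {S : MvPolynomial σ ℝ} {θ : ℝ}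
    (hS : S.totalDegree ≤ E) (h : ∀ d, |coeff d S| ≤ θ) : cn S ≤ (mons σ E).card * θ := by
  rw [kc.sup S _ ((pCnt.sup E S).1 hS)]
  refine (Finset.sum_le_sum fun d _ => h d).trans ?_
  rw [Finset.sum_const, nsmul_eq_mul]

/-- The linear part. -/
noncomputable def lin (F : MvPolynomial κ ℝ) (a : κ) : ℝ := coeff (single a 1) F

variable [Fintype κ] [DecidableEq κ]

/-- The part of degree at least two. -/
noncomputable def hi (F : MvPolynomial κ ℝ) : MvPolynomial κ ℝ :=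
  F - C (coeff 0 F) - ∑ a, C (lin F a) * X a

theorem co_lin (l : κ → ℝ) (γ : κ →₀ ℕ) : coeff γ (∑ a, C (l a) * X a : MvPolynomial κ ℝ) =
    ∑ a, if single a 1 = γ then l a else 0 := by
  rw [coeff_sum]
  refine Finset.sum_congr rfl fun a _ => ?_
  rw [coeff_C_mul, coeff_X]
  split_ifs <;> simp

theorem co_hi (F : MvPolynomial κ ℝ) (γ : κ →₀ ℕ) :
    coeff γ (hi F) = if 2 ≤ γ.sum fun _ e => e then coeff γ F else 0 := by
  rw [hi, coeff_sub, coeff_sub, co_lin, coeff_C]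
  by_cases h0 : γ = 0
  · subst h0
    simp [single_eq_zero]
  by_cases h1 : ∃ a, single a 1 = γ
  · obtain ⟨a, rfl⟩ := h1
    rw [Finset.sum_eq_single a (fun b _ hb => if_neg fun e => hb (single_left_injective one_ne_zero e))
      (by simp)]
    simp [lin, Ne.symm h0]
  · rw [Finset.sum_eq_zero fun a _ => if_neg fun e => h1 ⟨a, e⟩, if_neg (Ne.symm h0), if_pos]
    · simp
    by_contra h2
    have h3 : (γ.sum fun _ e => e) ≠ 0 := fun e => h0 <| by
      ext a
      by_contra ha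
      exact ha ((Finset.sum_eq_zero_iff.1 e) a (mem_support_iff.2 ha))
    have h4 : (γ.sum fun _ e => e) = 1 := by omega
    obtain ⟨a, ha⟩ := (Finsupp.sum_eq_one_iff γ).1 h4
    exact h1 ⟨a, ha.symm⟩

theorem dg_hi (hF : F.totalDegree ≤ E) : (hi F).totalDegree ≤ E := by
  refine Finset.sup_le fun α hα => le_trans (le_totalDegree ?_) hF
  rw [MvPolynomial.mem_support_iff] at hα ⊢
  rw [co_hi] at hα
  intro e
  simp [e] at hα

/-- If the mixed coefficients are small then the part of degree at least two is small. -/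
theorem hi_small (hg : Gap la e0 g E) (hm : Lw la c m) (hF : Wt la e0 w F) {θ : ℝ} (h0 : 0 ≤ θ)
    (h : ∀ γ α, γ ≠ 0 → α ≠ 0 → |coeff (sumElim γ α) (aeval m F)| ≤ θ) :
    cn (hi F) ≤ (mons κ E).card * ((mons (κ ⊕ κ) E).card * θ) := by
  set Mx : MvPolynomial (κ ⊕ κ) ℝ :=
    aeval m F - rename Sum.inl F - rename Sum.inr F + C (coeff 0 F) with hMx
  have hc : ∀ γ α, coeff (sumElim γ α) Mx =
      if γ = 0 ∨ α = 0 then 0 else coeff (sumElim γ α) (aeval m F) := by
    intro γ α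
    rw [hMx, coeff_add, coeff_sub, coeff_sub, co_inl, co_inr, coeff_C]
    have e : (0 = sumElim γ α) ↔ γ = 0 ∧ α = 0 := by
      refine ⟨fun e => ⟨?_, ?_⟩, fun e => by rw [e.1, e.2, sumElim_zero_zero]⟩
      · ext a; exact (DFunLike.congr_fun e (Sum.inl a)).symm
      · ext a; exact (DFunLike.congr_fun e (Sum.inr a)).symm
    by_cases hγ : γ = 0 <;> by_cases hα : α = 0
    · subst hγ; subst hα; rw [hm.cl]; simp
    · subst hγ; rw [hm.cr]; simp [hα, e]
    · subst hα; rw [hm.cl]; simp [hγ, e]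
    · simp [hγ, hα, e]
  have hd : Mx.totalDegree ≤ E := by
    refine Finset.sup_le fun d hd => le_trans (le_totalDegree ?_) (hg.dg2 (hm.wt hF))
    obtain ⟨γ, α, rfl⟩ := ex_sum d
    rw [MvPolynomial.mem_support_iff] at hd ⊢
    rw [hc] at hd
    intro e
    rw [e, ite_self] at hd
    exact hd rfl
  have h1 : cn Mx ≤ (mons (κ ⊕ κ) E).card * θ := cn_le hd fun d => by
    obtain ⟨γ, α, rfl⟩ := ex_sum d
    rw [hc]
    split_ifs with h2
    · simpa using h0
    · exact h γ α (fun e => h2 (Or.inl e)) fun e => h2 (Or.inr e)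
  have h2 : cn (aeval (Sum.elim X X) Mx : MvPolynomial κ ℝ) ≤ cn Mx * 1 ^ E :=
    kc.comp _ Mx E 1 hd le_rfl fun i => by cases i <;> exact (kc.var _).le
  have h3 : (aeval (Sum.elim X X) Mx : MvPolynomial κ ℝ) =
      aeval (fun e => (C 2 * X e : MvPolynomial κ ℝ)) F - F - F + C (coeff 0 F) := by
    rw [hMx, map_add, map_sub, map_sub, aeval_aeval, aeval_rename, aeval_rename]
    simp only [hm.two, Sum.elim_comp_inl, Sum.elim_comp_inr, aeval_X_left_apply, aeval_C,
      algebraMap_eq]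
  refine cn_le (dg_hi (hg.dg hF)) fun γ => ?_
  rw [co_hi]
  split_ifs with h4
  · have h5 := kc.coeff (aeval (Sum.elim X X) Mx : MvPolynomial κ ℝ) γ
    have h6 : γ ≠ 0 := fun e => by simp [e] at h4
    rw [h3, coeff_add, coeff_sub, coeff_sub, co_two, coeff_C, if_neg (Ne.symm h6), ← h3] at h5
    have h7 : (4 : ℝ) ≤ 2 ^ γ.sum fun _ e => e := by
      calc (4 : ℝ) = 2 ^ 2 := by norm_num
        _ ≤ _ := pow_le_pow_right₀ one_le_two h4
    rw [show 2 ^ (γ.sum fun _ e => e) * coeff γ F - coeff γ F - coeff γ F + 0 =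
      (2 ^ (γ.sum fun _ e => e) - 2) * coeff γ F by ring, abs_mul, abs_of_nonneg (by linarith)] at h5
    rw [one_pow, mul_one] at h2
    nlinarith [abs_nonneg (coeff γ F)]
  · rw [abs_zero]; positivity

/-- A unit functional that nearly kills the brackets is nearly constant at `t`. -/
def L1 (c : κ → κ → κ → ℝ) (τ : ℝ) (l : (κ → ℝ) × ℝ) (t : κ → ℝ) : Prop :=
  ‖l.1‖ = 1 ∧ (∀ a b, |∑ e, c a b e * l.1 e| ≤ τ) ∧ |∑ e, l.1 e * t e - l.2| ≤ τ

/-- The normalised linear part. -/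
noncomputable def nl (F : MvPolynomial κ ℝ) : (κ → ℝ) × ℝ :=
  (‖lin F‖⁻¹ • lin F, -(‖lin F‖⁻¹ * coeff 0 F))

/-- The size conditions. -/
structure Sz (E : ℕ) (m : κ → MvPolynomial (κ ⊕ κ) ℝ) (B τ : ℝ) : Prop where
  two : 2 ≤ B
  n1 : ((mons κ E).card : ℝ) ≤ B
  n2 : ((mons (κ ⊕ κ) E).card : ℝ) ≤ B
  k : (Fintype.card κ : ℝ) ≤ B
  e : (E : ℝ) ≤ B
  m : ∀ e, cn (m e) ≤ B
  pos : 0 < τ
  sm : B ^ (3 * E + 9) * τ ≤ 1

variable {B τ : ℝ}

theorem Sz.le (h : Sz E m B τ) {j : ℕ} (hj : j ≤ 3 * E + 6) : B ^ j * τ ≤ 1 / 8 := by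
  have h1 : 1 ≤ B := by linarith [h.two]
  have h2 : B ^ j ≤ B ^ (3 * E + 6) := pow_le_pow_right₀ h1 hj
  have h3 : (2 : ℝ) ^ 3 ≤ B ^ 3 := pow_le_pow_left₀ zero_le_two h.two 3
  have h4 := h.sm
  rw [show 3 * E + 9 = 3 * E + 6 + 3 from rfl, pow_add] at h4
  have h5 : 0 ≤ B ^ (3 * E + 6) * τ := by have := h.pos; positivity
  nlinarith [mul_le_mul_of_nonneg_right h2 h.pos.le]

theorem detII (hg : Gap la e0 g E) (hm : Lw la c m) (hF : Wt la e0 w F) (hs : Sz E m B τ)
    (h : ∀ γ α, γ ≠ 0 → α ≠ 0 → |coeff (sumElim γ α) (aeval m F)| ≤ τ ^ 3 * cn F)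
    {t : κ → ℝ} (ht : ∀ a, |t a| ≤ B) (hv : |eval t F| < τ ^ 3 * cn F) : L1 c τ (nl F) t := by
  have hτ := hs.pos
  have h1 : 1 ≤ B := by linarith [hs.two]
  have hf : 0 < cn F := (mul_pos_iff_of_pos_left (by positivity)).1 ((abs_nonneg _).trans_lt hv)
  set θ := τ ^ 3 * cn F with hθ
  have h0 : 0 < θ := by positivity
  have hH : cn (hi F) ≤ B ^ 2 * θ := (hi_small hg hm hF h0.le h).trans <| by
    rw [sq, mul_assoc]
    gcongr
    exacts [hs.n1, hs.n2]
  have hH' : cn (hi F) * B ^ E ≤ B ^ (E + 2) * θ := by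
    rw [pow_add]; nlinarith [mul_le_mul_of_nonneg_right hH (by positivity : 0 ≤ B ^ E)]
  have dH := dg_hi (hg.dg hF)
  have eF : F = C (coeff 0 F) + ∑ a, C (lin F a) * X a + hi F := by rw [hi]; ring
  have hA : |eval t F - coeff 0 F - ∑ e, lin F e * t e| ≤ B ^ (E + 2) * θ := by
    refine le_trans (le_of_eq ?_) ((kc.val _ E B t dH h1 ht).trans hH')
    simp [hi]
  have hBr : ∀ a b, |∑ e, c a b e * lin F e| ≤ 2 * θ + 2 * (B ^ (E + 2) * θ) := by
    intro a b
    have k : ∀ a b : κ, |∑ e, lin F e * coeff (sumElim (single a 1) (single b 1)) (m e)| ≤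
        θ + B ^ (E + 2) * θ := by
      intro a b
      have k1 := h (single a 1) (single b 1) (by simp) (by simp)
      have k2 := (kc.coeff _ (sumElim (single a 1) (single b 1))).trans
        ((kc.comp m _ E B dH h1 hs.m).trans hH')
      have k3 : (0 : κ ⊕ κ →₀ ℕ) ≠ sumElim (single a 1) (single b 1) := fun e => by
        simpa using DFunLike.congr_fun e (Sum.inl a)
      have k4 : coeff (sumElim (single a 1) (single b 1)) (aeval m F) =
          ∑ e, lin F e * coeff (sumElim (single a 1) (single b 1)) (m e) +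
            coeff (sumElim (single a 1) (single b 1)) (aeval m (hi F)) := by
        conv_lhs => rw [eF]
        rw [map_add, map_add, map_sum, coeff_add, coeff_add, coeff_sum, aeval_C, algebraMap_eq,
          coeff_C, if_neg k3, zero_add]
        simp only [map_mul, aeval_C, aeval_X, algebraMap_eq, coeff_C_mul]
      rw [k4] at k1
      rw [abs_le] at k1 k2 ⊢
      constructor <;> linarith [k1.1, k1.2, k2.1, k2.2]
    have e : ∑ e, c a b e * lin F e =
        ∑ e, lin F e * coeff (sumElim (single b 1) (single a 1)) (m e) -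
          ∑ e, lin F e * coeff (sumElim (single a 1) (single b 1)) (m e) := by
      rw [← Finset.sum_sub_distrib]
      exact Finset.sum_congr rfl fun e _ => by rw [← hm.br]; ring
    rw [e]
    linarith [abs_sub (∑ e, lin F e * coeff (sumElim (single b 1) (single a 1)) (m e))
      (∑ e, lin F e * coeff (sumElim (single a 1) (single b 1)) (m e)), k a b, k b a]
  have hl : ∀ a, |lin F a| ≤ ‖lin F‖ := fun a => norm_le_pi_norm (lin F) a
  have hC : cn F ≤ |coeff 0 F| + B * ‖lin F‖ + B ^ 2 * θ := by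
    have k1 : cn (∑ a, C (lin F a) * X a : MvPolynomial κ ℝ) ≤ B * ‖lin F‖ := by
      refine (kc.sum _ _).trans ((Finset.sum_le_sum (g := fun _ => ‖lin F‖) fun a _ =>
        (kc.mul _ _).trans (by rw [kc.const, kc.var, mul_one]; exact hl a)).trans ?_)
      rw [Finset.sum_const, nsmul_eq_mul, Finset.card_univ]
      exact mul_le_mul_of_nonneg_right hs.k (norm_nonneg _)
    have k2 := kc.add (C (coeff 0 F) + ∑ a, C (lin F a) * X a) (hi F)
    have k3 := kc.add (C (coeff 0 F)) (∑ a, C (lin F a) * X a : MvPolynomial κ ℝ)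
    rw [← eF] at k2
    rw [kc.const] at k3
    linarith
  have hD : |∑ e, lin F e * t e| ≤ B ^ 2 * ‖lin F‖ := by
    refine (Finset.abs_sum_le_sum_abs _ _).trans ((Finset.sum_le_sum (g := fun _ => ‖lin F‖ * B)
      fun a _ => by rw [abs_mul]; gcongr; exacts [hl a, ht a]).trans ?_)
    rw [Finset.sum_const, nsmul_eq_mul, Finset.card_univ]
    nlinarith [mul_le_mul_of_nonneg_right hs.k (by positivity : 0 ≤ ‖lin F‖ * B)]
  have s0 : τ ≤ 1 / 8 := by simpa using hs.le (j := 0) (by omega)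
  have s1 : B * τ ≤ 1 / 8 := by simpa using hs.le (j := 1) (by omega)
  have s2 := hs.le (j := 2) (by omega)
  have s3 := hs.le (j := E + 2) (by omega)
  have t2 : 0 < τ ^ 2 * cn F := by positivity
  have q0 : θ ≤ 1 / 8 * (τ ^ 2 * cn F) := by rw [hθ]; nlinarith
  have q2 : B ^ 2 * θ ≤ 1 / 8 * (τ ^ 2 * cn F) := by rw [hθ]; nlinarith
  have q3 : B ^ (E + 2) * θ ≤ 1 / 8 * (τ ^ 2 * cn F) := by rw [hθ]; nlinarith
  have q4 : τ ^ 2 * cn F ≤ cn F := by nlinarith
  have hL : τ * cn F ≤ ‖lin F‖ := by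
    by_contra hn
    rw [not_le] at hn
    have k1 : B * ‖lin F‖ ≤ 1 / 8 * cn F := by nlinarith
    have k2 : B ^ 2 * ‖lin F‖ ≤ 1 / 8 * cn F := by nlinarith [sq_nonneg B]
    have k3 := abs_le.1 hA
    have k4 := abs_le.1 hD
    have k5 := abs_lt.1 hv
    have k6 : |coeff 0 F| ≤ 1 / 2 * cn F := abs_le.2 ⟨by linarith, by linarith⟩
    linarith
  have hp : 0 < ‖lin F‖ := lt_of_lt_of_le (by positivity) hL
  have key : ∀ z : ℝ, |z| ≤ τ ^ 2 * cn F → |‖lin F‖⁻¹ * z| ≤ τ := fun z hz => by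
    rw [abs_mul, abs_of_pos (inv_pos.2 hp), inv_mul_le_iff₀ hp]
    nlinarith
  refine ⟨by simp [nl, norm_smul, hp.ne'], fun a b => ?_, ?_⟩
  · refine le_trans (le_of_eq ?_) (key _ ((hBr a b).trans (by linarith)))
    simp only [nl, Pi.smul_apply, smul_eq_mul, Finset.mul_sum]
    exact congrArg _ (Finset.sum_congr rfl fun e _ => by ring)
  · refine le_trans (le_of_eq ?_) (key (∑ e, lin F e * t e + coeff 0 F) ?_)
    · simp only [nl, Pi.smul_apply, smul_eq_mul, Finset.mul_sum, mul_add, mul_assoc, sub_neg_eq_add]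
    · have k3 := abs_le.1 hA
      have k5 := abs_lt.1 hv
      exact abs_le.2 ⟨by linarith, by linarith⟩

omit [Fintype κ] [DecidableEq κ]

/-- Multiply the coefficients by `u`. -/
noncomputable def scl (u : (κ →₀ ℕ) → ℝ) (T : MvPolynomial κ ℝ) : MvPolynomial κ ℝ :=
  ∑ γ ∈ T.support, monomial γ (u γ * coeff γ T)

theorem co_scl (u : (κ →₀ ℕ) → ℝ) (T : MvPolynomial κ ℝ) (γ : κ →₀ ℕ) :
    coeff γ (scl u T) = u γ * coeff γ T := by
  classical
  rw [scl, coeff_sum]
  simp only [coeff_monomial]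
  rw [Finset.sum_ite_eq']
  split_ifs with h
  · rfl
  · rw [MvPolynomial.notMem_support_iff.1 h, mul_zero]

theorem eval_scl (la : κ → ℝ) (σ : ℝ) (T : MvPolynomial κ ℝ) (ψ : κ → ℝ) :
    eval ψ (scl (fun γ => Real.exp (-(σ * weight la γ))) T) =
      eval (fun a => Real.exp (-(σ * la a)) * ψ a) T := by
  rw [scl, map_sum, eval_eq]
  refine Finset.sum_congr rfl fun γ _ => ?_
  rw [eval_monomial, Finsupp.prod, weight_apply, Finsupp.sum, Finset.mul_sum, ← Finset.sum_neg_distrib,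
    Real.exp_sum]
  simp only [mul_pow, Finset.prod_mul_distrib, ← Real.exp_nat_mul, nsmul_eq_mul]
  rw [mul_right_comm, mul_comm]
  congr 2
  exact Finset.prod_congr rfl fun a _ => by congr 1; ring

open Classical in
/-- The part of low weight of the polynomial in the small increment. -/
noncomputable def low (la : κ → ℝ) (σ w : ℝ) (φ : κ → ℝ) (S : MvPolynomial (κ ⊕ κ) ℝ) :
    MvPolynomial κ ℝ :=
  scl (fun γ => if weight la γ < w then Real.exp (-(σ * weight la γ)) else 0) (sb φ S)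

theorem wt_sb {S : MvPolynomial (κ ⊕ κ) ℝ} (hg : Gap la e0 g E) (hS : Wt (Sum.elim la la) e0 w S)
    (φ : κ → ℝ) : Wt la e0 w (sb φ S) := by
  intro γ hγ
  rw [coeff_sb] at hγ
  obtain ⟨α, hα⟩ := ne_zero_iff.1 (show sl S γ ≠ 0 from fun e => hγ (by rw [e, map_zero]))
  rw [coeff_sl] at hα
  have h1 := hS _ hα
  rw [wt_sum] at h1
  have h2 := wt_nn hg.pos (fun a => (hg.le a).1) α
  constructor <;> linarith [h1.1, h1.2]

theorem wt_low {S : MvPolynomial (κ ⊕ κ) ℝ} (hg : Gap la e0 g E) (hS : Wt (Sum.elim la la) e0 w S)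
    (σ w' : ℝ) (φ : κ → ℝ) : Wt la e0 w' (low la σ w' φ S) := by
  intro γ hγ
  rw [low, co_scl] at hγ
  refine ⟨(wt_sb hg hS φ γ (right_ne_zero_of_mul hγ)).1, ?_⟩
  by_contra h
  rw [if_neg h, zero_mul] at hγ
  exact hγ rfl

theorem wt_sl {S : MvPolynomial (κ ⊕ κ) ℝ} (hg : Gap la e0 g E)
    (hS : Wt (Sum.elim la la) e0 (w + g) S) {γ : κ →₀ ℕ} (hγ : γ ≠ 0) : Wt la e0 w (sl S γ) := by
  intro α hα
  rw [coeff_sl] at hα
  have h1 := hS _ hα
  rw [wt_sum] at h1
  have h2 := wt_pos hg.pos (fun a => (hg.le a).1) hγ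
  constructor <;> linarith [h1.1, h1.2, hg.pos]

theorem detI [Fintype κ] [DecidableEq κ] (hg : Gap la e0 g E) (hm : Lw la c m)
    (hF : Wt la e0 (w + g) F) (hs : Sz E m B τ) {γ α : κ →₀ ℕ} (hα : α ≠ 0)
    (h : τ ^ 3 * cn F < |coeff (sumElim γ α) (aeval m F)|) {t φ ψ : κ → ℝ} {σ a : ℝ} (hσ : 0 ≤ σ)
    (hb : ∀ e, |t e| ≤ B ∧ |φ e| ≤ B ∧ |ψ e| ≤ B) (h1 : Real.exp (-(σ * g)) ≤ τ ^ 7)
    (h2 : a ≤ Real.exp (-(σ * w)) * τ ^ 7)
    (h3 : ∀ e, |t e - eval (Sum.elim (fun i => Real.exp (-(σ * la i)) * ψ i) φ) (m e)| ≤ a)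
    (hR : τ * cn (sl (aeval m F) γ) ≤ |eval t (sl (aeval m F) γ)|)
    (hT : τ * cn (low la σ w φ (aeval m F)) ≤ |eval ψ (low la σ w φ (aeval m F))|) :
    a * cn F ≤ |eval t F| := by
  have hτ := hs.pos
  have hB : 1 ≤ B := by linarith [hs.two]
  have hf := kc.nonneg F
  have hS := hm.wt hF
  have dS := hg.dg2 hS
  have cS : cn (aeval m F) ≤ cn F * B ^ E := kc.comp m F E B (hg.dg hF) hB hs.m
  set S := aeval m F with hSd
  set y : κ → ℝ := fun i => Real.exp (-(σ * la i)) * ψ i with hy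
  have s0 : τ ≤ 1 / 8 := by simpa using hs.le (j := 0) (by omega)
  have t1 : τ ^ 7 ≤ τ := by
    calc τ ^ 7 ≤ τ ^ 1 := pow_le_pow_of_le_one hτ.le (by linarith) (by omega)
      _ = τ := pow_one τ
  have c0 : coeff (sumElim γ α) S ≠ 0 := fun e => by
    rw [e, abs_zero] at h
    exact absurd h (not_lt.2 (by positivity))
  have wγ : weight la γ < w := by
    have k1 := (hS _ c0).2
    rw [wt_sum] at k1
    linarith [wt_pos hg.pos (fun a => (hg.le a).1) hα]
  set u := Real.exp (-(σ * weight la γ)) with hu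
  have u0 : 0 < u := Real.exp_pos _
  have u1 : u ≤ 1 := Real.exp_le_one_iff.2
    (neg_nonpos.2 (mul_nonneg hσ (wt_nn hg.pos (fun a => (hg.le a).1) γ)))
  have a1 : a ≤ u * τ ^ 7 := h2.trans (mul_le_mul_of_nonneg_right
    (Real.exp_le_exp.2 (neg_le_neg (mul_le_mul_of_nonneg_left wγ.le hσ))) (by positivity))
  have a2 : a ≤ τ ^ 7 := a1.trans (mul_le_of_le_one_left (by positivity) u1)
  have hy1 : ∀ i, |y i| ≤ τ ^ 7 * B := fun i => by
    rw [hy, abs_mul, abs_of_pos (Real.exp_pos _)]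
    exact mul_le_mul ((Real.exp_le_exp.2 (neg_le_neg (mul_le_mul_of_nonneg_left (hg.le i).1 hσ))).trans
      h1) (hb i).2.2 (abs_nonneg _) (by positivity)
  have p1 : ∀ e, |φ e - t e| ≤ B ^ (E + 4) * τ ^ 7 := fun e => by
    have k1 := kc.lip (m e) E B (τ ^ 7 * B) (Sum.elim y φ) (Sum.elim 0 φ) (hg.dm hm e) hB
      (by positivity) fun i => by
        cases i with
        | inl i => exact ⟨(hy1 i).trans (by nlinarith), by simp; linarith, by simpa using hy1 i⟩
        | inr i => exact ⟨(hb i).2.1, (hb i).2.1, by simp; positivity⟩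
    have k2 : eval (Sum.elim 0 φ) (m e) = φ e := by
      have k3 := congrArg (eval φ) (hm.r e)
      rw [eval_aeval, eval_X] at k3
      rw [← k3]
      congr 2
      funext i
      cases i <;> simp
    rw [k2] at k1
    have k4 : (E : ℝ) * cn (m e) * B ^ E * (τ ^ 7 * B) ≤ B * B * B ^ E * (τ ^ 7 * B) := by
      have := kc.nonneg (m e)
      gcongr
      exacts [hs.e, hs.m e]
    have k5 : B ^ (E + 4) * τ ^ 7 = B * (B * B * B ^ E * (τ ^ 7 * B)) := by ring
    have k6 : τ ^ 7 ≤ B * B * B ^ E * (τ ^ 7 * B) := by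
      rw [show B * B * B ^ E * (τ ^ 7 * B) = B ^ (E + 3) * τ ^ 7 by ring]
      exact le_mul_of_one_le_left (by positivity) (one_le_pow₀ hB)
    have k7 := abs_le.1 (h3 e)
    have k8 := abs_le.1 k1
    have k9 := mul_le_mul_of_nonneg_right hs.two (le_trans (by positivity) k6)
    exact abs_le.2 ⟨by linarith, by linarith⟩
  have dR : (sl S γ).totalDegree ≤ E := deg_le hg.pos (fun a => (hg.le a).1) hg.deg fun β hβ => by
    rw [coeff_sl] at hβ
    have k1 := (hS _ hβ).1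
    rw [wt_sum] at k1
    linarith [wt_nn hg.pos (fun a => (hg.le a).1) γ]
  have r0 := kc.nonneg (sl S γ)
  have p2 : τ ^ 4 * cn F / 2 ≤ |eval φ (sl S γ)| := by
    have k1 := kc.lip _ E B _ φ t dR hB (by positivity) fun i => ⟨(hb i).2.1, (hb i).1, p1 i⟩
    have k2 : (E : ℝ) * cn (sl S γ) * B ^ E * (B ^ (E + 4) * τ ^ 7) ≤
        B * cn (sl S γ) * B ^ E * (B ^ (E + 4) * (τ * τ)) := by
      gcongr
      · exact hs.e
      · calc τ ^ 7 ≤ τ ^ 2 := pow_le_pow_of_le_one hτ.le (by linarith) (by omega)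
          _ = _ := sq τ
    have k3 := mul_le_mul_of_nonneg_right (hs.le (j := 2 * E + 5) (by omega)) (mul_nonneg hτ.le r0)
    rw [show B ^ (2 * E + 5) * τ * (τ * cn (sl S γ)) =
      B * cn (sl S γ) * B ^ E * (B ^ (E + 4) * (τ * τ)) by ring] at k3
    have k4 : τ ^ 3 * cn F ≤ cn (sl S γ) := h.le.trans (by rw [← coeff_sl]; exact kc.coeff _ _)
    have k5 := mul_le_mul_of_nonneg_left k4 hτ.le
    have k6 := abs_sub_abs_le_abs_sub (eval t (sl S γ)) (eval φ (sl S γ))
    rw [abs_sub_comm] at k6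
    nlinarith [mul_nonneg hτ.le r0]
  have p3 : τ ^ 5 * (cn F * u) / 2 ≤ |eval ψ (low la σ w φ S)| := by
    have k1 := kc.coeff (low la σ w φ S) γ
    rw [low, co_scl, if_pos wγ, coeff_sb, abs_mul, abs_of_pos u0, ← low] at k1
    have k2 := mul_le_mul_of_nonneg_left ((mul_le_mul_of_nonneg_left p2 u0.le).trans k1) hτ.le
    linarith
  have wT := wt_sb hg hS φ
  have p4 : |eval y (sb φ S) - eval ψ (low la σ w φ S)| ≤ B ^ (3 * E) * τ ^ 7 * (cn F * u) := by
    rw [hy, ← eval_scl, ← map_sub]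
    set D := scl (fun γ => Real.exp (-(σ * weight la γ))) (sb φ S) - low la σ w φ S with hD
    have k1 : ∀ β, |coeff β D| ≤ u * τ ^ 7 * |coeff β (sb φ S)| := fun β => by
      rw [hD, coeff_sub, low, co_scl, co_scl, ← sub_mul, abs_mul]
      by_cases k : coeff β (sb φ S) = 0
      · simp [k]
      refine mul_le_mul_of_nonneg_right ?_ (abs_nonneg _)
      split_ifs with k2
      · rw [sub_self, abs_zero]; positivity
      · rw [sub_zero, abs_of_pos (Real.exp_pos _)]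
        refine le_trans ?_ (mul_le_mul_of_nonneg_left h1 u0.le)
        rw [hu, ← Real.exp_add, Real.exp_le_exp]
        nlinarith [hg.gap γ β (wT β k).1 (wγ.trans_le (not_lt.1 k2))]
    have k2 : D.support ⊆ (sb φ S).support := fun β hβ => by
      rw [MvPolynomial.mem_support_iff] at hβ ⊢
      intro e
      have := k1 β
      rw [e, abs_zero, mul_zero] at this
      exact hβ (abs_nonpos_iff.1 this)
    have k3 : cn D ≤ u * τ ^ 7 * cn (sb φ S) := by
      rw [kc.sup D _ k2, cn, Finset.mul_sum]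
      exact Finset.sum_le_sum fun β _ => k1 β
    have k4 : cn (sb φ S) ≤ cn S * B ^ E := kc.comp _ S E B dS hB fun i => by
      cases i with
      | inl i => exact (kc.var _).le.trans hB
      | inr i => exact (kc.const _).le.trans (hb i).2.1
    refine (kc.val D E B ψ ((totalDegree_le_of_support_subset k2).trans (hg.dg wT)) hB
      fun i => (hb i).2.2).trans ?_
    calc cn D * B ^ E ≤ u * τ ^ 7 * (cn F * B ^ E * B ^ E) * B ^ E := by
          gcongr
          exact k3.trans (mul_le_mul_of_nonneg_left (k4.trans (by gcongr)) (by positivity))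
      _ = _ := by ring
  have p5 : |eval t F - eval y (sb φ S)| ≤ B ^ (2 * E + 1) * τ ^ 7 * (cn F * u) := by
    rw [eval_sb, hSd, eval_aeval]
    have a0 : 0 ≤ a := by
      obtain ⟨i, -⟩ := Finsupp.support_nonempty_iff.2 hα
      exact (abs_nonneg _).trans (h3 i)
    refine (kc.lip F E (B ^ 2) a t _ (hg.dg hF) (one_le_pow₀ hB) a0 fun i =>
      ⟨(hb i).1.trans (by nlinarith), ?_, h3 i⟩).trans ?_
    · have k1 := abs_le.1 (h3 i)
      have k2 := abs_le.1 (hb i).1
      have k3 : B + 1 ≤ B ^ 2 := by nlinarith [hs.two]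
      exact abs_le.2 ⟨by linarith, by linarith⟩
    · calc (E : ℝ) * cn F * (B ^ 2) ^ E * a ≤ B * cn F * (B ^ 2) ^ E * (u * τ ^ 7) := by
            gcongr
            exact hs.e
        _ = _ := by ring
  have v0 : 0 ≤ τ ^ 6 * (cn F * u) := by positivity
  have q1 := mul_le_mul_of_nonneg_right (hs.le (j := 3 * E) (by omega)) v0
  have q2 := mul_le_mul_of_nonneg_right (hs.le (j := 2 * E + 1) (by omega)) v0
  have q3 := mul_le_mul_of_nonneg_right s0 v0
  have q4 := mul_le_mul_of_nonneg_right s0 (by positivity : 0 ≤ τ ^ 5 * (cn F * u))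
  have q5 := mul_le_mul_of_nonneg_right a1 hf
  have k1 := abs_sub_abs_le_abs_sub (eval ψ (low la σ w φ S)) (eval y (sb φ S))
  have k2 := abs_sub_abs_le_abs_sub (eval y (sb φ S)) (eval t F)
  rw [abs_sub_comm] at k1 k2
  nlinarith

end Pool.Agent.MP_5168f5_an.AN.N4
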