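import Pool.Agent.MP_5168f5_an.AN.N4
import Pool.Agent.MP_5168f5_an.AN.GABch
import Pool.Agent.MP_5168f5_an.AN.GAMap
import Pool.Agent.MP_5168f5_an.AN.GAFil
import Pool.Agent.MP_5168f5_an.AN.GAHom

/-! Kakeya sets in all dimensions: the group law as a polynomial map. -/

namespace Pool.Agent.MP_5168f5_an.AN.N4

open H19 H17S H17F G39 Filter MvPolynomial Pk Finsupp GA

variable {κ : Type} [Fintype κ]

/-- The group law as a polynomial; the left factor is the second group of variables. -/
noncomputable def mp (N : ℕ) (c : κ → κ → κ → ℝ) : κ → MvPolynomial (κ ⊕ κ) ℝ :=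
  bch N (fun a b e => C (c a b e)) (fun a => X (Sum.inr a)) fun a => X (Sum.inl a)

theorem eval_mp (N : ℕ) (c : κ → κ → κ → ℝ) (x y : κ → ℝ) (e : κ) :
    eval (Sum.elim y x) (mp N c e) = bch N c x y e := by
  rw [mp, (gaMap κ _ _ (eval (Sum.elim y x)) N _ _ _).2.1]
  simp

theorem aeval_mp {σ : Type} (N : ℕ) (c : κ → κ → κ → ℝ) (x y : κ → MvPolynomial σ ℝ) (e : κ) :
    aeval (Sum.elim y x) (mp N c e) = bch N (fun a b e => C (c a b e)) x y e := by
  have := (gaMap κ _ _ (aeval (R := ℝ) (Sum.elim y x)).toRingHom N (fun a b e => C (c a b e))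
    (fun a => X (Sum.inr a)) fun a => X (Sum.inl a)).2.1 e
  simpa [mp] using this

theorem bch_mem {R : Type} [CommRing R] [Algebra ℚ R] (N : ℕ) (c : κ → κ → κ → R)
    (S : Submodule ℚ (κ → R)) (h : ∀ x ∈ S, ∀ y ∈ S, br c x y ∈ S) {s t : κ → R} (hs : s ∈ S)
    (ht : t ∈ S) : bch N c s t ∈ S :=
  (gaHom κ κ R N c c LinearMap.id S ⊤ (fun x a y b => ⟨h x a y b, trivial⟩)
    (fun _ _ _ _ => ⟨trivial, trivial⟩) (fun _ _ _ _ => trivial) s hs t ht).1

theorem lw_mp (N : ℕ) {la : κ → ℝ} {c : κ → κ → κ → ℝ} (ha : ∀ a b e, c a b e = -c b a e)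
    (hh : ∀ a b e, c a b e ≠ 0 → la e = la a + la b) : Lw la c (mp N c) := by
  classical
  have ha' : ∀ {σ : Type} (a b e : κ), (C (c a b e) : MvPolynomial σ ℝ) = -C (c b a e) :=
    fun a b e => by rw [ha, map_neg]
  have f1 := fun σ : Type => (gaFil gaBch κ (MvPolynomial σ ℝ) N _ ha').1
  refine ⟨fun e => ?_, fun e => ?_, fun e => ?_, fun e => ?_, fun a b e => ?_⟩
  · refine bch_mem N _ ⟨⟨⟨{t | ∀ e, IsWeightedHomogeneous (Sum.elim la la) (t e) (la e)},
      fun h k e => (h e).add (k e)⟩, fun e => isWeightedHomogeneous_zero _ _ _⟩,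
      fun q t h e d hd => h e fun k => hd ?_⟩ (fun x hx y hy e => ?_)
      (fun a => isWeightedHomogeneous_X _ _ _) (fun a => isWeightedHomogeneous_X _ _ _) e
    · rw [Pi.smul_apply, coeff_smul, k, smul_zero]
    · refine IsWeightedHomogeneous.sum _ _ _ fun a _ => IsWeightedHomogeneous.sum _ _ _ fun b _ => ?_
      by_cases k : c a b e = 0
      · simp only [k, C_0, zero_mul]
        exact isWeightedHomogeneous_zero _ _ _
      · rw [hh a b e k, mul_assoc]
        exact ((hx a).mul (hy b)).C_mul _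
  · rw [aeval_mp, f1 _ _ _ (br_zero_left _ _), zero_add]
  · rw [aeval_mp, f1 _ _ _ (br_zero_right _ _), add_zero]
  · rw [aeval_mp, f1 _ _ _ (br_self ha' _), Pi.add_apply, map_ofNat, two_mul]
  · let V : ℝ → Submodule ℚ (κ → MvPolynomial (κ ⊕ κ) ℝ) := fun i =>
      ⟨⟨⟨{t | ∀ e d, ((degree d : ℕ) : ℝ) < i → coeff d (t e) = 0},
        fun h k e d hd => by rw [Pi.add_apply, coeff_add, h e d hd, k e d hd, add_zero]⟩,
        fun e d _ => coeff_zero d⟩,
        fun q t h e d hd => by rw [Pi.smul_apply, coeff_smul, h e d hd, smul_zero]⟩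
    have hX : ∀ (f : κ → κ ⊕ κ), (fun a => X (f a)) ∈ V 1 := fun f e d hd => by
      rw [coeff_X, if_neg]
      rintro rfl
      simp at hd
    have h3 := (gaFil gaBch κ _ N _ ha').2.2 V 1 1 1 _ _ (fun i j h t k e d hd => k e d (hd.trans_le h))
      (fun i j x hx y hy e d hd => by
        simp only [br, coeff_sum, mul_assoc, coeff_C_mul]
        refine Finset.sum_eq_zero fun a _ => Finset.sum_eq_zero fun b _ => ?_
        rw [coeff_mul, Finset.sum_eq_zero, mul_zero]
        intro p hp
        have hp' : p.1 + p.2 = d := by simpa using hp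
        rw [← hp', map_add, Nat.cast_add] at hd
        by_cases k : ((degree p.1 : ℕ) : ℝ) < i
        · rw [hx a _ k, zero_mul]
        · rw [hy b p.2 (by linarith), mul_zero]) zero_le_one le_rfl le_rfl (hX Sum.inr) (hX Sum.inl)
    have key : ∀ a b : κ, coeff (sumElim (single a 1) (single b 1)) (mp N c e) = c b a e / 2 := by
      intro a b
      have k1 := h3 e (sumElim (single a 1) (single b 1)) (by
        rw [sumElim_single_single, map_add, degree_single, degree_single]; norm_num)
      have k2 : ∀ i : κ ⊕ κ, coeff (sumElim (single a 1) (single b 1))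
          (X i : MvPolynomial (κ ⊕ κ) ℝ) = 0 := fun i => by
        rw [coeff_X, if_neg]
        intro k
        have := congrArg degree k
        rw [sumElim_single_single, map_add, degree_single, degree_single, degree_single] at this
        omega
      have k3 : ∀ p q : κ, coeff (sumElim (single a 1) (single b 1))
          (X (Sum.inr p) * X (Sum.inl q) : MvPolynomial (κ ⊕ κ) ℝ) =
          if p = b ∧ q = a then 1 else 0 := fun p q => by
        rw [X, X, monomial_mul, coeff_monomial, one_mul, add_comm, ← sumElim_single_single]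
        refine if_congr ⟨fun k => ⟨?_, ?_⟩, fun k => by rw [k.1, k.2]⟩ rfl rfl
        · exact single_left_injective one_ne_zero
            (Finsupp.ext fun i => DFunLike.congr_fun k (Sum.inr i))
        · exact single_left_injective one_ne_zero
            (Finsupp.ext fun i => DFunLike.congr_fun k (Sum.inl i))
      simp only [Pi.sub_apply, Pi.smul_apply, coeff_sub, coeff_smul, k2, sub_zero, br, coeff_sum,
        mul_assoc, coeff_C_mul, k3, ite_and, mul_ite, mul_one, mul_zero] at k1
      rw [Finset.sum_eq_single b (fun p _ hp => by simp [hp]) (by simp)] at k1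
      simp only [if_true, Finset.sum_ite_eq', Finset.mem_univ, Rat.smul_def] at k1
      rw [mp]
      push_cast at k1
      linarith
    rw [key, key, ha b a e]
    ring

theorem ob_mp {M : ℕ → ℕ} (hM : Big M) (N : ℕ) {c : ℕ → κ → κ → κ → ℝ}
    (h : ∀ a b e, OB M fun n => c n a b e) (e : κ) : OB M fun n => cn (mp N (c n) e) := by
  have ab : ∀ {F : ℕ → MvPolynomial (κ ⊕ κ) ℝ} {u : ℕ → ℝ}, OB M u → (∀ n, cn (F n) ≤ u n) →
      OB M fun n => cn (F n) := fun k e => ob_congr k (Eventually.of_forall fun n =>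
    (abs_of_nonneg (kc.nonneg _)).trans_le ((e n).trans (le_abs_self _)))
  have hb : ∀ x y : ℕ → κ → MvPolynomial (κ ⊕ κ) ℝ, (∀ e, OB M fun n => cn (x n e)) →
      (∀ e, OB M fun n => cn (y n e)) →
      ∀ e, OB M fun n => cn (br (fun a b e => C (c n a b e)) (x n) (y n) e) := by
    intro x y hx hy e
    have k : OB M fun n => ∑ a, ∑ b, |c n a b e| * cn (x n a) * cn (y n b) :=
      ob_sum hM _ fun a _ => ob_sum hM _ fun b _ => ob_mul hM (ob_mul hM (ob_congr (h a b e)
        (Eventually.of_forall fun n => (abs_abs _).le)) (hx a)) (hy b)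
    refine ab k fun n => (kc.sum _ _).trans (Finset.sum_le_sum fun a _ => (kc.sum _ _).trans
      (Finset.sum_le_sum fun b _ => (kc.mul _ _).trans ?_))
    exact mul_le_mul_of_nonneg_right ((kc.mul _ _).trans (by rw [kc.const])) (kc.nonneg _)
  have hX : ∀ i : κ ⊕ κ, OB M fun _ => cn (X i : MvPolynomial (κ ⊕ κ) ℝ) := fun i =>
    ab (ob_const hM 1) fun _ => (kc.var _).le
  have hq : ∀ (q : ℚ) (F : MvPolynomial (κ ⊕ κ) ℝ), cn (q • F) = |(q : ℝ)| * cn F := fun q F => by
    rw [← kc.smul, Rat.cast_smul_eq_qsmul]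
  have hw : ∀ (w : Wd Bool) (e : κ), OB M fun n => cn (w.ev (br fun a b e => C (c n a b e))
      (fun i => bif i then fun a => X (Sum.inr a) else fun a => X (Sum.inl a)) e) := fun w => by
    induction w with
    | of i => cases i <;> exact fun e => hX _
    | br u v hu hv => exact hb _ _ hu hv
  refine ab (ob_add hM (ob_add hM (ob_add hM (hX (Sum.inr e)) (hX (Sum.inl e)))
    (ob_mul hM (ob_const hM |((1 / 2 : ℚ) : ℝ)|)
      (hb (fun _ a => X (Sum.inr a)) (fun _ a => X (Sum.inl a)) (fun _ => hX _) (fun _ => hX _) e)))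
    (ob_sum hM (BL N).support fun w _ => ob_mul hM (ob_const hM |((BL N w : ℚ) : ℝ)|) (hw w e)))
    fun n => ?_
  simp only [mp, bch, ser, Finsupp.sum, Pi.add_apply, Pi.smul_apply, Finset.sum_apply, ← hq]
  exact (kc.add _ _).trans (add_le_add ((kc.add _ _).trans (add_le_add (kc.add _ _) le_rfl))
    (kc.sum _ _))

end Pool.Agent.MP_5168f5_an.AN.N4
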