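import Pool.Agent.MP_5168f5_an.AN.N6Tan
import Pool.Agent.MP_5168f5_an.AN.LDef

/-! Kakeya sets in all dimensions: coordinates of the increments inside an atom. -/

namespace Pool.Agent.MP_5168f5_an.AN.N6

open H19 H17S H17F G39 Filter H61Z GA R4 LC S20 Finset

variable {m : ℕ} {κ : Type} [Fintype κ]

section One

variable {Ω Λ : Type} {σ : St m κ} {X : Dt m κ Ω Λ} {a : ℚ≥0} {ω v u : Ω} {s t : κ → ℝ}

/-- The normalised coordinates of `v` seen from `ω` at level `a`. -/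
noncomputable def co (σ : St m κ) (X : Dt m κ Ω Λ) (a : ℚ≥0) (ω v : Ω) : κ → ℝ :=
  fun b => Real.exp (σ.wt b * X.lv a) * lg X.B (X.j ω) (X.j v) b

/-- The frame at level `a`. -/
noncomputable def Bl (σ : St m κ) (X : Dt m κ Ω Λ) (a : ℚ≥0) : κ → Mt (Fin m) :=
  sB (fun b => Real.exp (-(σ.wt b * X.lv a))) X.B

/-- Two points of one atom. -/
def At (X : Dt m κ Ω Λ) (k : Bool) (a : ℚ≥0) (ω v : Ω) : Prop :=
  ω ∈ X.P.S ∧ v ∈ X.P.S ∧ X.O k a ω = X.O k a v

omit [Fintype κ] in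
theorem At.symm {k : Bool} (h : At X k a ω v) : At X k a v ω := ⟨h.2.1, h.1, h.2.2.symm⟩

omit [Fintype κ] in
theorem At.trans {k : Bool} (h : At X k a ω v) (h' : At X k a v u) : At X k a ω u :=
  ⟨h.1, h'.2.1, h.2.2.trans h'.2.2⟩

omit [Fintype κ] in
theorem mem_fb {k : Bool} (h : ω ∈ X.P.S) : v ∈ (X.fb k a ω).S ↔ At X k a ω v :=
  (mem_cv h v).trans ⟨fun e => ⟨h, e.1, e.2.symm⟩, fun e => ⟨e.2.1, e.2.2.symm⟩⟩

theorem gr_of (h : X.Fr σ) : Gr σ.la σ.wt X.B X.c := by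
  classical
  refine ⟨h.2.1, fun a b e k => ?_⟩
  by_contra z
  have h1 := h.1.inj (fun f => if σ.wt f = σ.wt a + σ.wt b then 0 else X.c a b f) (by
    ext p q
    have h2 := congrFun (congrFun (h.1.br a b) p) q
    simp only [vec, Matrix.sum_apply, Matrix.smul_apply, smul_eq_mul, Matrix.zero_apply] at h2 ⊢
    by_cases y : σ.la p = σ.la q + (σ.wt a + σ.wt b)
    · refine sum_eq_zero fun f _ => ?_
      split_ifs with x
      · exact zero_mul _
      · refine mul_eq_zero_of_right _ (by_contra fun w => x ?_)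
        linarith [h.2.1 f p q w]
    · have h3 : ∀ a' b', σ.wt a' + σ.wt b' = σ.wt a + σ.wt b → (X.B a' * X.B b') p q = 0 :=
        fun a' b' x => by
          rw [Matrix.mul_apply]
          refine sum_eq_zero fun r _ => by_contra fun w => y ?_
          linarith [h.2.1 _ _ _ (left_ne_zero_of_mul w), h.2.1 _ _ _ (right_ne_zero_of_mul w)]
      rw [cm, Matrix.sub_apply, h3 a b rfl, h3 b a (add_comm _ _), sub_zero] at h2
      refine Eq.trans (sum_congr rfl fun f _ => ?_) h2.symm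
      split_ifs with x
      · rw [zero_mul, show X.B f p q = 0 from by_contra fun w => y (x ▸ h.2.1 f p q w), mul_zero]
      · rfl)
  exact k (by simpa [z] using congrFun h1 e)

omit [Fintype κ] in
theorem sC_gr {la : Fin m → ℝ} {wt : κ → ℝ} {B : κ → Mt (Fin m)} {c : κ → κ → κ → ℝ}
    (h : Gr la wt B c) (s : ℝ) : sC (fun b => Real.exp (-(wt b * s))) c = c := by
  funext a b e
  by_cases k : c a b e = 0
  · simp [sC, k]
  · rw [sC, mul_assoc, ← Real.exp_add, h.hc a b e k, mul_div_assoc,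
      show -(wt a * s) + -(wt b * s) = -((wt a + wt b) * s) by ring, div_self (Real.exp_ne_zero _),
      mul_one]

theorem fr_Bl (h : X.Fr σ) (a : ℚ≥0) : IsFr σ.Φ (Bl σ X a) X.c := by
  classical
  have := ((sFr _ κ σ.Φ X.B X.c).1 (fun b => Real.exp (-(σ.wt b * X.lv a))) 0
    fun _ => Real.exp_pos _).1 h.1
  rwa [sC_gr (gr_of h)] at this

theorem ex_Bl (a : ℚ≥0) (t : κ → ℝ) :
    ex (Bl σ X a) (fun b => Real.exp (σ.wt b * X.lv a) * t b) = ex X.B t := by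
  unfold ex vec Bl sB
  congr 1
  refine sum_congr rfl fun b _ => ?_
  rw [smul_smul, mul_right_comm, ← Real.exp_add, add_neg_cancel, Real.exp_zero, one_mul]

theorem ex_co (h : X.Fr σ) (hω : ω ∈ X.P.S) {r : κ → ℝ} {L : ℝ}
    (k : Nr X.B r L (X.j ω) (X.j v)) (a : ℚ≥0) :
    X.j v = X.j ω * ex (Bl σ X a) (co σ X a ω v) ∧ Bx r L (lg X.B (X.j ω) (X.j v)) := by
  obtain ⟨t, bt, e⟩ := k
  have e1 : lg X.B (X.j ω) (X.j v) = t := by rw [e, (sMul _ _ _ _ _ h.1).lg _ _ (h.2.2 ω hω)]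
  unfold co
  rw [ex_Bl, e1]
  exact ⟨e, bt⟩

theorem co_eq (h : X.Fr σ) (hω : ω ∈ X.P.S) (e : X.j v = X.j ω * ex (Bl σ X a) s) :
    co σ X a ω v = s ∧ lg (Bl σ X a) (X.j ω) (X.j v) = s := by
  refine ⟨?_, by rw [e, (sMul _ _ _ _ _ (fr_Bl h a)).lg _ _ (h.2.2 ω hω)]⟩
  have e1 : s = fun b => Real.exp (σ.wt b * X.lv a) * (Real.exp (-(σ.wt b * X.lv a)) * s b) :=
    funext fun b => by rw [← mul_assoc, ← Real.exp_add, add_neg_cancel, Real.exp_zero, one_mul]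
  rw [e1, ex_Bl] at e
  unfold co
  rw [e, (sMul _ _ _ _ _ h.1).lg _ _ (h.2.2 ω hω), ← e1]

theorem ps_eq (h : X.Fr σ) (lo : σ.la σ.o = 0) (hω : ω ∈ X.P.S)
    (e : X.j v = X.j ω * ex (Bl σ X a) s) : X.ps σ a ω v = ob X.B σ.o s := by
  funext p
  simp only [Dt.ps, nv, ob]
  rw [e, Matrix.nonsing_inv_mul_cancel_left _ _ ((Matrix.isUnit_iff_isUnit_det _).1 (h.2.2 ω hω)),
    Bl, conj h.1 (gr_of h), lo, sub_zero, ← mul_assoc, ← Real.exp_add, add_neg_cancel,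
    Real.exp_zero, one_mul]

theorem co_mul (h : X.Fr σ) (hω : ω ∈ X.P.S) (e : X.j v = X.j ω * ex (Bl σ X a) s)
    (e' : X.j u = X.j v * ex (Bl σ X a) t) : co σ X a ω u = bch σ.Φ.N X.c s t :=
  (co_eq h hω (by rw [e', e, mul_assoc, (sMul _ _ _ _ _ (fr_Bl h a)).mul])).1

open Classical in
theorem inc_co (h : X.Fr σ) {S : Finset κ} {k : Bool} {ε : ℝ} (i : X.Inc σ S k a ε)
    (z : At X k a ω v) : X.j v = X.j ω * ex (Bl σ X a) (co σ X a ω v) ∧ ∀ b,
      |co σ X a ω v b| ≤ Real.exp (ε * X.M) * if b ∈ S then 1 else Real.exp (-(X.M / ε)) := by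
  obtain ⟨e1, e2⟩ := ex_co h z.1 (i ω z.1 v z.2.1 z.2.2) a
  refine ⟨e1, fun b => ?_⟩
  rw [co, abs_mul, abs_of_pos (Real.exp_pos _)]
  refine (mul_le_mul_of_nonneg_left (e2 b) (Real.exp_pos _).le).trans (le_of_eq ?_)
  rw [LC.rd, mul_left_comm, ← mul_assoc (Real.exp (σ.wt b * _)), ← Real.exp_add, add_neg_cancel,
    Real.exp_zero, one_mul]

end One

section Seq

variable {Ω Λ : ℕ → Type} {σ : St m κ} {S : Bool → Finset κ} {X : ∀ n, Dt m κ (Ω n) (Λ n)}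

/-- Representatives of the atoms. -/
def Rp (X : ∀ n, Dt m κ (Ω n) (Λ n)) (k : Bool) (a : ℚ≥0) (r : ∀ n, Λ n → Ω n) : Prop :=
  ∀ᶠ n in UF, ∀ ω ∈ (X n).P.S, r n ((X n).O k a ω) ∈ (X n).P.S ∧
    (X n).O k a (r n ((X n).O k a ω)) = (X n).O k a ω

omit [Fintype κ] in
theorem ex_rp (X : ∀ n, Dt m κ (Ω n) (Λ n)) (k : Bool) (a : ℚ≥0) : ∃ r, Rp X k a r := by
  have : ∀ n z, ∃ v : Ω n, ∀ ω ∈ (X n).P.S, (X n).O k a ω = z →
      v ∈ (X n).P.S ∧ (X n).O k a v = z := fun n z => by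
    by_cases h : ∃ ω ∈ (X n).P.S, (X n).O k a ω = z
    · exact h.imp fun v hv _ _ _ => hv
    · obtain ⟨v, -⟩ := ex_of_pb (P := (X n).P) (E := fun _ => True) (by rw [pb_true]; exact one_pos)
      exact ⟨v, fun ω a b => absurd ⟨ω, a, b⟩ h⟩
  choose r hr using this
  exact ⟨r, .of_forall fun n ω h => hr n _ ω h rfl⟩

theorem ob_B (h : L σ S X) (a : κ) (p q : Fin m) : OB (sM X) fun n => (X n).B a p q := fun c hc =>
  (h.bd c hc).mono fun n k => by rw [dl_inv]; exact k.1 a p q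

theorem ob_c (h : L σ S X) (a b e : κ) : OB (sM X) fun n => (X n).c a b e := by
  have h1 : ∀ a b p q, OB (sM X) fun n => ((X n).B a * (X n).B b) p q := fun a b p q => by
    simp only [Matrix.mul_apply]
    exact ob_sum h.big _ fun r _ => ob_mul h.big (ob_B h a p r) (ob_B h b r q)
  have h2 : OB (sM X) fun n => ∑ p, ∑ q, |cm ((X n).B a) ((X n).B b) p q| :=
    ob_sum h.big _ fun p _ => ob_sum h.big _ fun q _ => ob_congr
      (ob_add h.big (h1 a b p q) (ob_neg h.big (h1 b a p q))) (.of_forall fun n => by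
        rw [abs_abs, cm, Matrix.sub_apply, sub_eq_add_neg])
  intro c hc
  filter_upwards [h2 _ (half_pos hc), h.bd _ (half_pos hc), h.fr] with n x y z
  have := y.2 ((X n).c a b) e
  rw [← z.1.br] at this
  rw [dl_inv] at x ⊢
  refine this.trans ((mul_le_mul_of_nonneg_left ((le_abs_self _).trans x)
    (Real.exp_pos _).le).trans (le_of_eq ?_))
  rw [← Real.exp_add]; congr 1; ring

/-- The coordinates inside an atom are bounded, and negligible outside `S`. -/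
theorem atom_co (hM : Big (sM X)) (fr : ∀ᶠ n in UF, (X n).Fr σ) (lo : σ.la σ.o = 0)
    {S : Finset κ} {k : Bool} {a : ℚ≥0} (i : Al (fun _ Y => Y.Inc σ S k a) X) :
    ∃ L, Sub (sM X) L ∧ ∀ T : ℝ, ∀ᶠ n in UF, ∀ ω v, At (X n) k a ω v →
      (X n).j v = (X n).j ω * ex (Bl σ (X n) a) (co σ (X n) a ω v) ∧
      (X n).ps σ a ω v = ob (X n).B σ.o (co σ (X n) a ω v) ∧
      (∀ b, |co σ (X n) a ω v b| ≤ L n) ∧ ∀ b, b ∉ S → |co σ (X n) a ω v b| ≤ dl (sM X) T n := by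
  classical
  obtain ⟨L, hL, h⟩ := (sub_iff (M := sM X) (p := fun n L => ∀ ω v, At (X n) k a ω v →
      ∀ b, |co σ (X n) a ω v b| ≤ L)).2 fun ε hε => by
    filter_upwards [i ε hε, fr] with n x y
    refine ⟨_, Real.one_le_exp (by positivity), le_rfl, fun ω v z b =>
      ((inc_co y x z).2 b).trans (mul_le_of_le_one_right (Real.exp_pos _).le ?_)⟩
    split_ifs
    exacts [le_rfl, Real.exp_le_one_iff.2 (neg_nonpos.2 (by positivity))]
  refine ⟨L, hL, fun T => ?_⟩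
  filter_upwards [i (1 / (|T| + 1)) (by positivity), fr, h] with n x y w ω v z
  obtain ⟨e1, e2⟩ := inc_co y x z
  refine ⟨e1, ps_eq y lo z.1 e1, w ω v z, fun b hb => (e2 b).trans ?_⟩
  rw [if_neg hb, ← Real.exp_add, dl, Real.exp_le_exp, div_div_eq_mul_div, div_one]
  have m0 : (0 : ℝ) ≤ (X n).M := Nat.cast_nonneg _
  have : 1 / (|T| + 1) ≤ 1 := div_le_one_of_le₀ (by linarith [abs_nonneg T]) (by positivity)
  nlinarith [le_abs_self T]

/-- Unlikely values have a large entropy. -/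
theorem ent {α β : ℕ → Type} {P : ∀ n, FP (Ω n)} {Y : ∀ n, Ω n → α n} {A : ∀ n, Ω n → β n}
    {M : ℕ → ℕ} {x : ℝ} (hx : 0 ≤ x) (h : ∀ ε : ℝ, 0 < ε → ∀ᶠ n in UF,
      pb (P n) (fun ω => ¬dn (P n) (Y n) (A n) ω ≤ dl M (x - ε) n) ≤ ε) :
    Le M (fun n => x * M n) fun n => ch (P n) (Y n) (A n) := fun ε hε => by
  filter_upwards [h (ε / (x + 1)) (by positivity)] with n a
  have b := le_ch (P n) (Y n) (A n) (dl M (x - ε / (x + 1)) n)
  rw [pb_not] at a
  rw [show Real.log (dl M (x - ε / (x + 1)) n) = _ from Real.log_exp _, neg_neg] at b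
  have m0 : (0 : ℝ) ≤ M n := Nat.cast_nonneg _
  have e : ε / (x + 1) * (x + 1) = ε := div_mul_cancel₀ _ (by positivity)
  have p0 : 0 ≤ ε / (x + 1) := by positivity
  rcases le_total x (ε / (x + 1)) with c | c
  · nlinarith [ch_nonneg (P := P n) (Y n) (A n), mul_nonneg p0 hx]
  · have := mul_le_mul_of_nonneg_left (sub_le_comm.1 a)
      (mul_nonneg (sub_nonneg.2 c) m0)
    nlinarith [mul_nonneg (mul_nonneg p0 p0) m0]

end Seq

end Pool.Agent.MP_5168f5_an.AN.N6
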