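import Pool.Agent.MP_5168f5_an.AN.N6Exp
import Pool.Agent.MP_5168f5_an.AN.TGSpec
import Pool.Agent.MP_5168f5_an.AN.GOPath
import Pool.Agent.MP_5168f5_an.AN.PAll

/-! Kakeya sets in all dimensions: the chamber of two levels, definitions and statements. -/

namespace Pool.Agent.MP_5168f5_an.AN.N6

open H19 H17S H17F G39 Filter H61Z GA GF MvPolynomial
open Pk (cn)

section One

variable {m : ℕ} {κ : Type} [Fintype κ] [DecidableEq κ]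

/-- A graded left inverse of the map `t ↦ (vec B t) e_o` on the positions. -/
structure LI (la : Fin m → ℝ) (o : Fin m) (wt : κ → ℝ) (pos : κ → Prop) (B : κ → Mt (Fin m))
    (Λ : κ → Fin m → ℝ) : Prop where
  sup : ∀ a p, Λ a p ≠ 0 → pos a ∧ la p = la o + wt a
  inv : ∀ a b, pos a → pos b → ∑ p, Λ a p * B b p o = if a = b then 1 else 0

/-- An adapted frame: `t` is the saving, `t a < 0` at the outer indices; errors are in `Sz`. -/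
structure Ad6 (Sz : (ℕ → ℝ) → Prop) (M : ℕ → ℕ) (la : Fin m → ℝ) (o : Fin m) (wt t : κ → ℝ)
    (pos : κ → Prop) (B : ℕ → κ → Mt (Fin m)) (c : ℕ → κ → κ → κ → ℝ)
    (Λ : ℕ → κ → Fin m → ℝ) : Prop where
  le : ∀ a, t a ≤ wt a
  live : ∀ a, pos a → 0 ≤ t a
  fil : ∀ a b e, 0 ≤ t a → 0 ≤ t b → t e < t a + t b → Sz fun n => c n a b e
  sub : ∀ a b e, 0 ≤ t a → 0 ≤ t b → ¬pos a → ¬pos b → pos e → Sz fun n => c n a b e
  gen : ∀ e, 0 < t e → t e < wt e → ∃ lam : ℕ → κ → κ → ℝ, (∀ a b, OB M fun n => lam n a b) ∧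
    ∀ e', Sz fun n => ∑ a, ∑ b, lam n a b * cg (c n) t a b e' - if e' = e then 1 else 0
  stab : ∀ a p, 0 ≤ t a → ¬pos a → Sz fun n => B n a p o
  ob : ∀ a p, OB M fun n => Λ n a p
  li : ∀ᶠ n in UF, LI la o wt pos (B n) (Λ n)

/-- The change of basis `A` with inverse `A'` maps the span of `S` to the span of `S'`. -/
structure Sw (M : ℕ → ℕ) (A A' : ℕ → Matrix κ κ ℝ) (S S' : κ → Prop) : Prop where
  row : ∀ a e, S' a → ¬S e → OS M fun n => A n a e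
  col : ∀ e a, S e → ¬S' a → OS M fun n => A' n e a
  card : TG.cd S' = TG.cd S

/-- All weight on the second family. -/
def o0 (w : κ → ℝ) (a : κ) : ℝ × ℝ := (0, w a)

/-- The weights of the chamber. -/
def oN (w t : κ → ℝ) (a : κ) : ℝ × ℝ := (t a, w a - t a)

/-- The absolute depths `D` are `d M` up to a constant. -/
def Cl (M : ℕ → ℕ) (D : ℕ → κ → ℝ) (d : κ → ℝ) : Prop :=
  ∃ K : ℝ, ∀ᶠ n in UF, ∀ a, |D n a - d a * M n| ≤ K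

end One

open TG in
open Classical in
/-- A system on the chamber `x.1 ≤ x.2`. -/
structure CS {ι κ : Type} [Fintype ι] [DecidableEq ι] [Fintype κ] (Φ : Filt (Mt ι)) (w t : κ → ℝ)
    (pos : κ → Prop) (C : ℝ) (y : ℕ → TG.Sy ι κ) : Prop extends G0 Φ (o0 w) pos y where
  one : 1 ≤ C
  tw : ∀ a, 0 ≤ t a ∧ t a ≤ w a
  fil : ∀ a b e, Hm (o0 w) a b e → t e < t a + t b → Neg (un y) fun n => (y n).c a b e
  gen : ∀ e, 0 < t e → t e < w e → ∃ lam : ℕ → κ → κ → ℝ, (∀ a b, OB (un y) fun n => lam n a b) ∧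
    ∀ e', Neg (un y) fun n =>
      ∑ a, ∑ b, lam n a b * GO.cG (o0 w) t (y n).c a b e' - if e' = e then 1 else 0
  f : ∀ (k : Bool) (x : ℚ × ℚ) (r : ℚ), 0 ≤ x.1 → x.1 ≤ x.2 → 0 ≤ r →
    Id (un y) (fun n => (y n).c)
      (up (dep (oN w t) (x.1, x.2)) r fun a => pos a ∧ Pu (oN w t) k a)
      (up (dep (oN w t) (x.1, x.2)) r fun a => pos a ∧ Pu (oN w t) k a) →
    FullAt y (dep (oN w t) (x.1, x.2)) (fun a => pos a ∧ Pu (oN w t) k a) r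
  ac : ∀ (k : Bool) (x : ℚ × ℚ) (D : ℕ → κ → ℝ) (η ρ ε : ℝ), 0 ≤ x.1 → x.1 ≤ x.2 →
    Cl (un y) D (dep (oN w t) (x.1, x.2)) → 0 < η → 0 ≤ ρ → 0 < ε → ∀ᶠ n in UF,
      (y n).AC (D n) (Pu (oN w t) k) (η * (y n).M) (ρ * (y n).M) (C * ρ / η + ε)

/-- A system on the chamber is full. -/
def TAN : Prop := ∀ (ι κ : Type) [Fintype ι] [DecidableEq ι] [Fintype κ] (Φ : Filt (Mt ι))
  (w t : κ → ℝ) (pos : κ → Prop) (C : ℝ) (y : ℕ → TG.Sy ι κ), CS Φ w t pos C y → TG.Full pos y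

def OfTAN : Prop := TG.SRat → TG.ThmG → TAN

open Classical in
/-- The adapted basis over a field: `β a` is the image of the base vector under the basis
vector `a`. -/
def FLD : Prop := ∀ (k κ : Type) [Field k] [Fintype κ] [DecidableEq κ] (m : ℕ) (la : Fin m → ℝ)
  (wt : κ → ℝ) (c : κ → κ → κ → k) (β : Matrix κ (Fin m) k) (S : Bool → κ → Prop),
  (∀ a, 0 < wt a) → (∀ a b e, c a b e ≠ 0 → wt e = wt a + wt b) →
  (∀ a p, β a p ≠ 0 → la p = wt a) → (∀ a, S true a → S false a) →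
  (∀ i a b e, S i a → S i b → c a b e ≠ 0 → S i e) →
  (∀ u v, Matrix.vecMul u β = 0 → Matrix.vecMul v β = 0 → Matrix.vecMul (br c u v) β = 0) →
  ∃ (A A' : Matrix κ κ k) (t : κ → ℝ) (pos : κ → Prop) (Λ : Matrix κ (Fin m) k),
    A * A' = 1 ∧ Pat wt 0 A ∧ Pat wt 0 A' ∧ (∀ a, t a ≤ wt a) ∧ (∀ a, pos a → 0 ≤ t a) ∧
    (∀ a e, A a e ≠ 0 → (t a = wt a → S true e) ∧ (0 ≤ t a → S false e)) ∧
    (∀ e a, A' e a ≠ 0 → (S true e → t a = wt a) ∧ (S false e → 0 ≤ t a)) ∧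
    (∀ a b e, nc c A A' a b e ≠ 0 → 0 ≤ t a → 0 ≤ t b →
      t a + t b ≤ t e ∧ (¬pos a → ¬pos b → ¬pos e)) ∧
    (∀ e, 0 < t e → t e < wt e → ∃ lam : κ → κ → k, ∀ e',
      ∑ a, ∑ b, lam a b * cg (nc c A A') t a b e' = if e' = e then 1 else 0) ∧
    (∀ a p, 0 ≤ t a → ¬pos a → (A * β) a p = 0) ∧
    (∀ a p, Λ a p ≠ 0 → pos a ∧ la p = wt a) ∧
    ∀ a b, pos a → pos b → ∑ p, Λ a p * (A * β) b p = if a = b then 1 else 0

/-- The adapted basis over the ring of subexponential sequences. -/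
def OA1 : Prop := ∀ (κ : Type) [Fintype κ] [DecidableEq κ] (m : ℕ) (M : ℕ → ℕ)
  (Φ : Filt (Mt (Fin m))) (la : Fin m → ℝ) (o : Fin m) (wt : κ → ℝ) (B : ℕ → κ → Mt (Fin m))
  (c : ℕ → κ → κ → κ → ℝ) (S : Bool → κ → Prop), Big M → (∀ a, 0 < wt a) →
  (∀ᶠ n in UF, IsFr Φ (B n) (c n) ∧ Gr la wt (B n) (c n)) →
  (∀ a p q, OB M fun n => B n a p q) → (∀ a b e, OB M fun n => c n a b e) →
  (∀ a, S true a → S false a) → (∀ i a b e, S i a → S i b → ¬S i e → OS M fun n => c n a b e) →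
  ∃ (A A' : ℕ → Matrix κ κ ℝ) (t : κ → ℝ) (pos : κ → Prop) (Λ : ℕ → κ → Fin m → ℝ),
    (∀ᶠ n in UF, A n * A' n = 1 ∧ Pat wt 0 (A n) ∧ Pat wt 0 (A' n)) ∧
    (∀ a e, OB M (fun n => A n a e) ∧ OB M fun n => A' n a e) ∧
    Ad6 (OS M) M la o wt t pos (fun n => mB (A n) (B n)) (fun n => mC (A n) (A' n) (c n)) Λ ∧
    Sw M A A' (S true) (fun a => t a = wt a) ∧ Sw M A A' (S false) fun a => 0 ≤ t a

def OfOA1 : Prop := FLD → OA1

/-- The orbit map is polynomial and has a polynomial left inverse on the positions. -/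
def POL : Prop := ∀ (κ : Type) [Fintype κ] [DecidableEq κ] (m : ℕ) (M : ℕ → ℕ)
  (Φ : Filt (Mt (Fin m))) (la : Fin m → ℝ) (o : Fin m) (wt : κ → ℝ) (pos : κ → Prop)
  (B : ℕ → κ → Mt (Fin m)) (c : ℕ → κ → κ → κ → ℝ) (Λ : ℕ → κ → Fin m → ℝ), Big M →
  (∀ a, 0 < wt a) →
  (∀ᶠ n in UF, IsFr Φ (B n) (c n) ∧ Gr la wt (B n) (c n) ∧ LI la o wt pos (B n) (Λ n)) →
  (∀ a p q, OB M fun n => B n a p q) → (∀ a p, OB M fun n => Λ n a p) →
  ∃ (E : ℕ) (L : ℕ → ℝ) (W : ℕ → κ → MvPolynomial (Fin m) ℝ) (Q : ℕ → Fin m → MvPolynomial κ ℝ),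
    Sub M L ∧ (∀ n, (∀ a, (W n a).totalDegree ≤ E ∧ cn (W n a) ≤ L n) ∧
      ∀ p, (Q n p).totalDegree ≤ E ∧ cn (Q n p) ≤ L n) ∧
    ∀ᶠ n in UF, (∀ s p, eval s (Q n p) = ob (B n) o s p) ∧
      ∀ s : κ → ℝ, (∀ a, ¬pos a → s a = 0) → ∀ a, eval (ob (B n) o s) (W n a) = s a

/-- Every element moves the base vector like an element with positions only. -/
def DEC : Prop := ∀ (κ : Type) [Fintype κ] (N m : ℕ) (wt : κ → ℝ), (∀ a, 0 < wt a) →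
  ∃ f, PG f ∧ ∀ (Φ : Filt (Mt (Fin m))) (la : Fin m → ℝ) (o : Fin m) (pos : κ → Prop)
    (B : κ → Mt (Fin m)) (c : κ → κ → κ → ℝ), Φ.N = N → IsFr Φ B c → Gr la wt B c →
    ∃ Y : (κ → ℝ) → κ → ℝ, (∀ s a, ¬pos a → Y s a = 0) ∧ ∀ (L θ : ℝ) (s : κ → ℝ), 1 ≤ L → 0 ≤ θ →
      (∀ a, Eb L (B a)) → (∀ a b e, |c a b e| ≤ L) → (∀ a, ¬pos a → Cb o θ (B a)) →
      (∀ a, |s a| ≤ L) → (∀ a, |Y s a| ≤ f L) ∧ ‖ob B o (Y s) - ob B o s‖ ≤ f L * θ ∧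
        ∀ r' s' : κ → ℝ, (∀ a, 0 ≤ r' a) → Idl c 1 r' L → (∀ a, |s' a| ≤ L) →
          Bx r' L (s - s') → Bx r' (f L) (Y s - Y s')

end Pool.Agent.MP_5168f5_an.AN.N6
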