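import Pool.Agent.MP_5168f5_an.AN.N6TanA
import Pool.Agent.MP_5168f5_an.AN.GOh1
import Pool.Agent.MP_5168f5_an.AN.GOh2
import Pool.Agent.MP_5168f5_an.AN.GOStep
import Pool.Agent.MP_5168f5_an.AN.TGZm
import Pool.Agent.MP_5168f5_an.AN.TGDg
import Pool.Agent.MP_5168f5_an.AN.TGCF

/-! Kakeya sets in all dimensions: a system on the chamber is full. -/

namespace Pool.Agent.MP_5168f5_an.AN.N6

open H19 H17S H17F G39 Filter H61Z GA GF R4 GO

theorem cf_dg {S : ℕ → Type 1} {J : Type} [Countable J] {K : J → (∀ n, S n) → Prop}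
    (h : ∀ j, CF (K j)) (y : ℕ → ∀ n, S n) (hy : ∀ j, ∀ᶠ L in atTop, K j (y L)) :
    ∃ k : ℕ → ℕ, Big k ∧ ∀ j, K j fun n => y (k n) n := by
  choose p hp using h
  obtain ⟨k, a, b⟩ := TG.tgDg (J × ℕ) (fun i L n => p i.1 i.2 n (y L n))
    fun i => (hy i.1).mono fun L c => (hp _ _).1 c i.2
  exact ⟨k, a, fun j => (hp _ _).2 fun i => b (j, i)⟩

variable {κ : Type} {w t : κ → ℝ} {pos : κ → Prop} {N : κ → κ → κ → Prop}

theorem up_eq (d : κ → ℝ) (r : ℝ) (S : κ → Prop) : TG.up d r S = d + ind S r := funext fun a => by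
  simp only [TG.up, ind, Pi.add_apply]; split_ifs <;> simp

theorem dep_tri {a b e : κ} (h : Hm (o0 w) a b e) (x : ℝ × ℝ) : dep (oN w t) x e +
    (t e - t a - t b) * (x.2 - x.1) = dep (oN w t) x a + dep (oN w t) x b := by
  simp only [dep, oN, hm_w h]; ring

theorem gd1 (hA : Ab (o0 w) pos N) (tw : ∀ a, 0 ≤ t a ∧ t a ≤ w a)
    (hf : ∀ a b e, Hm (o0 w) a b e → t e < t a + t b → N a b e) {x : ℝ × ℝ} (h1 : 0 ≤ x.1)
    (h2 : x.1 ≤ x.2) : Gd (o0 w) N (dep (oN w t) x) := by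
  refine hA.gd (fun a => add_nonneg (mul_nonneg (tw a).1 h1)
    (mul_nonneg (sub_nonneg.2 (tw a).2) (h1.trans h2)))
    (fun a z => by simp [dep, (oN_iff (tw a)).2 z]) fun a b e u v => ?_
  have e1 : t a + t b ≤ t e := not_lt.1 fun z => v (hf a b e u z)
  nlinarith [dep_tri (t := t) u x, mul_nonneg (show 0 ≤ t e - t a - t b by linarith)
    (sub_nonneg.2 h2)]

theorem pu_tri (tw : ∀ a, 0 ≤ t a ∧ t a ≤ w a) {a b e : κ} (h : Hm (o0 w) a b e)
    (z : t a + t b = t e) {k : Bool} (u : TG.Pu (oN w t) k e) :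
    TG.Pu (oN w t) k a ∧ TG.Pu (oN w t) k b := by
  have e1 := hm_w h
  have a0 : 0 < w a := ((tw a).1.trans (tw a).2).lt_of_ne' (mt o0_zero.2 h.1)
  have b0 : 0 < w b := ((tw b).1.trans (tw b).2).lt_of_ne' (mt o0_zero.2 h.2.1)
  obtain ⟨a1, a2⟩ := tw a
  obtain ⟨b1, b2⟩ := tw b
  cases k <;> simp only [TG.Pu, cond, P1, P2, oN] at u ⊢ <;> obtain ⟨u1, u2⟩ := u <;>
    refine ⟨⟨?_, ?_⟩, ?_, ?_⟩ <;> linarith

theorem gd2 (hA : Ab (o0 w) pos N) (tw : ∀ a, 0 ≤ t a ∧ t a ≤ w a)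
    (hf : ∀ a b e, Hm (o0 w) a b e → t e < t a + t b → N a b e) {x : ℝ × ℝ} (h1 : 0 ≤ x.1)
    (h2 : x.1 ≤ x.2) {τ r : ℝ} (hτ : ∀ a b e, t a + t b < t e → τ ≤ t e - t a - t b) (hr : 0 ≤ r)
    (h3 : r ≤ τ * (x.2 - x.1)) (k : Bool) :
    Gd (o0 w) N (dep (oN w t) x + ind (fun a => pos a ∧ TG.Pu (oN w t) k a) r) := by
  refine hA.gd_ind (gd1 hA tw hf h1 h2) hr (fun _ u => u.1) fun a b e u v z => ?_
  rcases (not_lt.1 fun z => v (hf a b e u z)).eq_or_lt with y | y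
  · exact Or.inr ⟨fun p => ⟨p, (pu_tri tw u y z.2).1⟩, fun p => ⟨p, (pu_tri tw u y z.2).2⟩⟩
  · left
    linarith [dep_tri (t := t) u x, mul_le_mul_of_nonneg_right (hτ a b e y) (sub_nonneg.2 h2)]

variable [Fintype κ]

theorem cd_eq (S : κ → Prop) : TG.cd S = GO.cd S := by
  classical
  simp only [TG.cd, GO.cd, ind]
  rw [Finset.sum_ite]; simp

/-- A point of the ray inside the chamber with a deficiency. -/
theorem stepC (hA : Ab (o0 w) pos N) (tw : ∀ a, 0 ≤ t a ∧ t a ≤ w a)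
    (hf : ∀ a b e, Hm (o0 w) a b e → t e < t a + t b → N a b e) {H : (κ → ℝ) → ℝ}
    (hP : Pm (Gd (o0 w) N) H) {e R : ℝ} (hR : 0 ≤ R) (he : 0 < e) (hdef : e ≤ df H pos R 0) :
    ∃ (r0 : ℕ) (s : ℚ) (e' C : ℝ), 0 < s ∧ 0 < e' ∧ ∀ᶠ L : ℕ in atTop, ∃ q : ℚ, 0 ≤ q ∧
      (q : ℝ) ≤ C ∧ e' / L ≤ df H pos (r0 / L) (dep (oN w t) (q, q + s)) := by
  have w0 : ∀ a, 0 ≤ w a := fun a => (tw a).1.trans (tw a).2
  obtain ⟨m, hm, m1⟩ := exists_lb pos w fun a h => (w0 a).lt_of_ne' (mt o0_zero.2 (hA.live a h))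
  obtain ⟨r0, r1, r2⟩ := exists_ub w
  have r3 : (1 : ℝ) ≤ r0 := by exact_mod_cast r1
  obtain ⟨τ, τ0, hτ⟩ := exists_gap t
  have c0 := cd_nn (S := pos)
  set D := cd pos * r0 + 1 with hD
  have D0 : 0 < D := by positivity
  obtain ⟨s, s1, s2⟩ := exists_rat_btwn (show 0 < e / (4 * D) by positivity)
  refine ⟨r0, s, e / (4 * (R / m + 2)), R / m + 1, by exact_mod_cast s1, by positivity, ?_⟩
  filter_upwards [(tendsto_one_div_atTop_nhds_zero_nat (𝕜 := ℝ)).eventually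
    (ge_mem_nhds (show 0 < min (min 1 (s : ℝ)) (τ * s / r0) by positivity)),
    eventually_ge_atTop 1] with L hL L1
  have L0 : (0 : ℝ) < L := by exact_mod_cast L1
  have w1 : (1 : ℝ) / L ≤ 1 := hL.trans ((min_le_left _ _).trans (min_le_left _ _))
  have w2 : (1 : ℝ) / L ≤ s := hL.trans ((min_le_left _ _).trans (min_le_right _ _))
  have w3 : (1 : ℝ) / L * r0 ≤ τ * s := (le_div_iff₀ (by positivity)).1 (hL.trans (min_le_right _ _))
  have ed : ∀ (i : ℕ) a, dep (oN w t) (0, s) a + i * (1 / L) * w a =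
      dep (oN w t) (i * (1 / L), i * (1 / L) + s) a := fun i a => by simp only [dep, oN]; ring
  obtain ⟨i, i1, i2⟩ := ray hA hP (s := s * r0) (dep (oN w t) (0, s)) w (fun _ => 0) hm
    (show (0 : ℝ) < 1 / L by positivity) w1 hR he hdef (fun a => ⟨w0 a, r2 a, m1 a⟩) (by linarith)
    (fun i => by
      simp only [ed]
      exact gd1 hA tw hf (by positivity) (by simp only; linarith))
    (fun a => by
      simp only [dep, oN]
      nlinarith [r2 a, (tw a).1])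
    (fun i a b e u x => by
      simp only [ed]
      have e1 := dep_tri (t := t) u (i * (1 / L), i * (1 / L) + s)
      simp only [add_sub_cancel_left] at e1
      rcases (not_lt.1 fun z => x (hf a b e u z)).eq_or_lt with z | z
      · left; rw [← e1, ← z]; ring
      · right
        linarith [mul_le_mul_of_nonneg_right (hτ a b e z) s1.le])
    (by
      rw [lt_div_iff₀ (by positivity)] at s2
      nlinarith [mul_nonneg c0 (show (0 : ℝ) ≤ r0 by linarith)]) (by simp; positivity)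
  simp only [ed, add_zero] at i2
  refine ⟨i * (1 / L), by positivity, by push_cast; exact i1, ?_⟩
  push_cast
  rw [div_eq_mul_one_div _ (L : ℝ), div_eq_mul_one_div (r0 : ℝ)]
  exact i2

omit [Fintype κ] in
theorem cl_sc (M : ℕ → ℕ) (d : κ → ℝ) : Cl M (fun n => TG.sc (M n) d) d :=
  ⟨0, .of_forall fun n a => by simp [TG.sc]⟩

theorem nat_div (m : ℕ) {L : ℕ} (h : 0 < L) :
    ((m / L : ℕ) : ℝ) ≤ m / L ∧ (m : ℝ) / L ≤ (m / L : ℕ) + 1 :=
  ⟨Nat.cast_div_le, by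
    rw [← Nat.floor_div_eq_div (K := ℝ)]; exact (Nat.lt_floor_add_one _).le⟩

theorem cl_zm (M : ℕ → ℕ) {L : ℕ} (h : 0 < L) (d d' : κ → ℝ) {d'' : κ → ℝ}
    (e : ∀ a, d'' a = d a + d' a / L) :
    Cl M (fun n => TG.sc (M n) d + TG.sc (M n / L) d') d'' :=
  ⟨‖d'‖, .of_forall fun n a => by
    obtain ⟨h1, h2⟩ := nat_div (M n) h
    rw [show (TG.sc (M n) d + TG.sc (M n / L) d') a - d'' a * M n =
      d' a * ((M n / L : ℕ) - M n / L) by simp only [TG.sc, Pi.add_apply, e]; ring, abs_mul]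
    exact (mul_le_of_le_one_right (abs_nonneg _) (abs_le.2 ⟨by linarith, by linarith⟩)).trans
      (norm_le_pi_norm d' a)⟩

omit [Fintype κ] in
theorem Cl.ap {M : ℕ → ℕ} (hM : Big M) {D : ℕ → κ → ℝ} {d : κ → ℝ} (h : Cl M D d) :
    Ap M (fun n => TG.rA (D n)) d := by
  obtain ⟨K, h⟩ := h
  refine ⟨fun _ => Real.exp |K|, hM.sub (Real.one_le_exp (abs_nonneg K)), h.mono fun n u a => ?_⟩
  have := abs_le.1 ((u a).trans (le_abs_self K))
  simp only [TG.rA, dl, ← Real.exp_add, Real.exp_le_exp]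
  exact ⟨Real.exp_pos _, by linarith, by linarith⟩

variable {ι : Type} [Fintype ι] [DecidableEq ι] {Φ : Filt (Mt ι)}

theorem hc2 : HC2 := goHC2 sCntW (goHC1 sMul sNr sCell sIdR sDet sCnt sCntW)

/-- The entropy rate of a system. -/
noncomputable abbrev Hy (y : ℕ → TG.Sy ι κ) : (κ → ℝ) → ℝ :=
  HH (TG.un y) (TG.pr y) (fun n => (y n).B) (fun n => (y n).j) fun n => (y n).Θ

theorem hh {om : κ → ℝ × ℝ} {y : ℕ → TG.Sy ι κ} (g : TG.G0 Φ om pos y) {d d' : κ → ℝ}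
    (gd : Gd om (Ng (TG.un y) fun n => (y n).c) d) (gd' : Gd om (Ng (TG.un y) fun n => (y n).c) d')
    (le : d ≤ d') {D D' : ℕ → κ → ℝ} (hD : Cl (TG.un y) D d) (hD' : Cl (TG.un y) D' d') :
    Eqv (TG.un y) (fun n => (y n).H (D n) (D' n)) fun n => (Hy y d' - Hy y d) * (y n).M := by
  have k := (hc2 ι κ _ Φ om pos _ _ _ _ (TG.pr y) _ (fun n => (y n).Θ) g.alg g.unit).2 d d d' _ _ _
    gd gd gd' (hD.ap g.alg.big) (hD.ap g.alg.big) (hD'.ap g.alg.big) le_rfl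
  rw [sup_eq_left.2 le] at k
  exact ⟨(Le.of_le fun n => ch_anti ((Fn.fst _ _).pair (Fn.rfl _))).trans k.1,
    k.2.trans (Le.of_le fun n => ch_anti (Fn.snd _ _))⟩

theorem ac_mono {x : TG.Sy ι κ} {D : κ → ℝ} {S : κ → Prop} {η η' ρ ρ' q q' : ℝ}
    (h : x.AC D S η ρ q) (e1 : η ≤ η') (e2 : ρ' ≤ ρ) (e3 : q ≤ q') : x.AC D S η' ρ' q' := by
  intro W β Q π b l c0 h1 h2 h3
  have e := Real.exp_le_exp.2 (neg_le_neg e1)
  exact ((pb_mono fun v _ u => u.trans e).trans (h W β Q π b l c0 h1 (fun v hv =>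
    ⟨(h2 v hv).sup, (h2 v hv).le, (h2 v hv).one, fun a b => ((h2 v hv).kill a b).trans e⟩)
    (h3.trans e2))).trans e3

open TG.TGZmA in
theorem ac_zm {x : TG.Sy ι κ} (h : IsFr Φ x.B x.c) (u : ∀ ω ∈ x.P.S, IsUnit (x.j ω))
    {D D' : κ → ℝ} {S : κ → Prop} {η ρ q : ℝ} (m : ℕ) (k : x.AC (D + D') S η ρ q) :
    (x.zm D m).AC D' S η ρ q := by
  intro W β Q π b l c0 h1 h2 h3
  obtain ⟨K, -, ce⟩ := sCell Φ.N (Fintype.card κ)
  rw [z_zm Φ] at h3
  refine le_trans (pb_mono fun v hv z => ?_) (k W β Q π b l c0 h1 (fun v hv =>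
    ⟨(h2 v hv).sup, (h2 v hv).le, (h2 v hv).one, fun a b => by
      rw [← sC_add]; exact (h2 v hv).kill a b⟩) h3)
  rwa [c_zm Φ, co_zm (p := x.C (D + D') (π v)) h D D' m (u _ (h1.mem hv)) ((ce ι κ Φ _ _
    (TG.rA (D + D')) (TG.rA (D + D')) 1 rfl le_rfl h le_rfl
    fun a => ⟨rA_pos _ a, (one_mul _).ge⟩).1 _)] at z

open TG.TGZmA in
theorem n6Tan : OfTAN := by
  intro hR hT ι κ _ _ _ Φ w t pos C y h R hR0
  by_contra nf
  have hM := h.alg.big
  have tw := h.tw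
  have hA : Ab (o0 w) pos (Ng (TG.un y) fun n => (y n).c) :=
    ⟨h.alg.wt, h.alg.live, h.alg.hom, h.alg.sub⟩
  have hP := (hc2 ι κ _ Φ _ pos _ _ _ _ (TG.pr y) _ (fun n => (y n).Θ) h.alg h.unit).1
  have he : 0 < df (Hy y) pos R 0 := not_le.1 fun z => nf (by
    have k := (hh h.toG0 gd_zero (hA.gd_pos gd_zero hR0) (le_add_ind hR0 0) (cl_sc _ _)
      (cl_sc _ _)).2
    rw [TG.FullAt, up_eq, cd_eq]
    refine (Le.of_le fun n => mul_le_mul_of_nonneg_right ?_ (Nat.cast_nonneg _)).trans k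
    unfold df at z; linarith)
  obtain ⟨r0, s, e', C1, s0, e0, hq⟩ := stepC hA tw h.fil hP hR0 he le_rfl
  obtain ⟨q, hq⟩ := hq.choice
  obtain ⟨τ, τ0, hτ⟩ := exists_gap t
  obtain ⟨M0, m0, al⟩ := alg_tan h
  have s1 : (0 : ℝ) < s := by exact_mod_cast s0
  have C0 : 0 ≤ C := zero_le_one.trans h.one
  let x : ℕ → ℕ → TG.Sy ι κ := fun L n =>
    (y n).zm (TG.sc (y n).M (dep (oN w t) (q L, q L + s))) ((y n).M / L)
  have sm : ∀ c : ℝ, ∀ᶠ L : ℕ in atTop, c / L ≤ s / 2 := fun c =>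
    (tendsto_const_div_atTop_nhds_zero_nat c).eventually (ge_mem_nhds (half_pos s1))
  obtain ⟨k, kb, hk⟩ := cf_dg (J := Bool × (ℚ × ℚ) × ℚ × ℚ) (K := fun j z =>
    (0 ≤ j.2.1.1 → 0 ≤ j.2.1.2 → 0 ≤ j.2.2.1 → TG.FullAt z (dep (oN w t) (j.2.1.1, j.2.1.2))
      (fun a => pos a ∧ TG.Pu (oN w t) j.1 a) j.2.2.1) ∧
    (0 ≤ j.2.1.1 → 0 ≤ j.2.1.2 → 0 < j.2.2.1 → 0 ≤ j.2.2.2 → TG.ACAt z
      (dep (oN w t) (j.2.1.1, j.2.1.2)) (TG.Pu (oN w t) j.1) C j.2.2.1 j.2.2.2) ∧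
    Big (TG.un z) ∧ Sm (TG.un z) M0 ∧ Le (TG.un z) (fun n => (z n).H (TG.sc (z n).M 0)
      (TG.sc (z n).M (TG.up 0 r0 pos))) fun n => (TG.cd pos * r0 - e') * (z n).M)
    (fun j => (TG.TGCFA.imp _ (TG.TGCFA.imp _ (TG.TGCFA.imp _ (TG.TGCFA.full _ _ _)))).and
      ((TG.TGCFA.imp _ (TG.TGCFA.imp _ (TG.TGCFA.imp _ (TG.TGCFA.imp _
        (TG.TGCFA.ac _ _ _ _ _))))).and ((cf_big fun _ (z : TG.Sy ι κ) => z.M).and
      ((cf_sm (fun _ (z : TG.Sy ι κ) => z.M) fun n _ => M0 n).and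
        (cf_le (fun _ (z : TG.Sy ι κ) => z.M) (fun _ z => z.H (TG.sc z.M 0)
          (TG.sc z.M (TG.up 0 r0 pos))) fun _ z => (TG.cd pos * r0 - e') * z.M))))) x (by
    rintro ⟨i, ⟨t1, t2⟩, r, ρ⟩
    filter_upwards [hq, sm t1, sm (r / τ), eventually_gt_atTop 0] with L ⟨q0, q1, q2⟩ l1 l2 L1
    have L0 : (0 : ℝ) < L := by exact_mod_cast L1
    have q0' : (0 : ℝ) ≤ q L := by exact_mod_cast q0
    have fr := hM.frac_div L1
    have dv := fun n => nat_div (y n).M L1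
    have ex : ∀ a, dep (oN w t) ((q L + t1 / L : ℚ), (q L + s + t2 / L : ℚ)) a =
        dep (oN w t) (q L, q L + s) a + dep (oN w t) (t1, t2) a / L := fun a => by
      simp only [dep]; push_cast; ring
    have c1 : 0 ≤ t1 → 0 ≤ t2 → (0 : ℝ) ≤ (q L + t1 / L : ℚ) ∧
        s / 2 ≤ ((q L + s + t2 / L : ℚ) : ℝ) - (q L + t1 / L : ℚ) := fun h1 h2 => by
      have h1 : (0 : ℝ) ≤ t1 := by exact_mod_cast h1
      have h2 : (0 : ℝ) ≤ t2 := by exact_mod_cast h2
      push_cast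
      exact ⟨by positivity, by linarith [div_nonneg h2 L0.le]⟩
    refine ⟨fun h1 h2 h3 => ?_, fun h1 h2 h3 h4 ε hε => ?_, hM.frac fr, Le.frac m0 fr, ?_⟩
    · obtain ⟨c2, c3⟩ := c1 h1 h2
      have h3' : (0 : ℝ) ≤ r := by exact_mod_cast h3
      have c4 : ((q L + t1 / L : ℚ) : ℝ) ≤ (q L + s + t2 / L : ℚ) := by linarith
      have g1 := gd1 hA tw h.fil (x := ((q L + t1 / L : ℚ), (q L + s + t2 / L : ℚ))) c2 c4
      have r1 : (0 : ℝ) ≤ (r / L : ℚ) := by push_cast; positivity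
      have g2 := gd2 hA tw h.fil (x := ((q L + t1 / L : ℚ), (q L + s + t2 / L : ℚ))) c2 c4 hτ r1
        (by
          refine le_trans ?_ (mul_le_mul_of_nonneg_left (l2.trans c3) τ0.le)
          push_cast
          exact le_of_eq (by field_simp)) i
      have f := h.f i (q L + t1 / L, q L + s + t2 / L) (r / L) (by exact_mod_cast c2)
        (by exact_mod_cast c4) (by positivity) (by rw [up_eq]; exact g2.id)
      rw [TG.FullAt, up_eq] at f
      refine Le.frac (Le.of3 f (hh h.toG0 g1 g2 (le_add_ind r1 _) (cl_sc _ _) (cl_sc _ _)).1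
        (hh h.toG0 g1 g2 (le_add_ind r1 _) (cl_zm _ L1 _ _ ex) (cl_zm _ L1
          (dep (oN w t) (q L, q L + s)) (TG.up (dep (oN w t) (t1, t2)) r
          fun a => pos a ∧ TG.Pu (oN w t) i a) fun a => ?_)).2
        (.of_forall fun n => ?_)) fr
      · rw [up_eq, Pi.add_apply, Pi.add_apply, ex, ind_mul, ind_mul (r := r)]
        push_cast; ring
      · have := mul_le_mul_of_nonneg_left (dv n).1 (mul_nonneg (show 0 ≤ TG.cd fun a =>
          pos a ∧ TG.Pu (oN w t) i a from Nat.cast_nonneg _) h3')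
        simp only [x, h_zm Φ]
        push_cast
        rw [show ∀ u : ℝ, u * (r / L) * (y n).M = u * r * ((y n).M / L) from fun u => by ring]
        linarith
    · obtain ⟨c2, c3⟩ := c1 h1 h2
      have h3' : (0 : ℝ) < r := by exact_mod_cast h3
      have h4' : (0 : ℝ) ≤ ρ := by exact_mod_cast h4
      have c4 : ((q L + t1 / L : ℚ) : ℝ) ≤ (q L + s + t2 / L : ℚ) := by linarith
      obtain ⟨A, hA'⟩ : ∃ A, A = C * ρ / r := ⟨_, rfl⟩
      have A0 : 0 ≤ A := by rw [hA']; positivity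
      obtain ⟨l, hl⟩ : ∃ l, l = (A + ε / 4) / (A + ε / 2) := ⟨_, rfl⟩
      have l0 : 0 < l := by rw [hl]; positivity
      have l1 : l < 1 := by rw [hl, div_lt_one (by positivity)]; linarith
      filter_upwards [h.ac i (q L + t1 / L, q L + s + t2 / L) _ (r * l / L) (ρ / L) (ε / 2)
        (by exact_mod_cast c2) (by exact_mod_cast c4) (cl_zm _ L1 _ _ ex) (by positivity)
        (by positivity) (half_pos hε), h.alg.fr, h.unit, hM.ev (L / (1 - l))] with n a1 a2 a3 a4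
      refine ac_zm a2 a3 _ (ac_mono a1 ?_ ?_ ?_)
      · rw [div_le_iff₀ (by linarith)] at a4
        have a5 : 1 ≤ (y n).M / L * (1 - l) := by
          rw [div_mul_eq_mul_div, le_div_iff₀ L0]; simpa using a4
        rw [show r * l / L * (y n).M = r * (l * ((y n).M / L)) by ring]
        exact mul_le_mul_of_nonneg_left (by linarith [(dv n).2]) h3'.le
      · rw [show (ρ : ℝ) / L * (y n).M = ρ * ((y n).M / L) by ring]
        exact mul_le_mul_of_nonneg_left (dv n).1 h4'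
      · rw [show C * (ρ / L) / (r * l / L) = C * ρ / r / l by field_simp, ← hA']
        have : A / l ≤ A + ε / 2 := by
          rw [div_le_iff₀ l0, hl, mul_div_cancel₀ _ (by positivity)]; linarith
        linarith
    · have g1 := gd1 hA tw h.fil (x := (q L, q L + s)) q0' (by simp only; linarith)
      have r1 : (0 : ℝ) ≤ r0 / L := by positivity
      refine Le.frac ((hh h.toG0 g1 (hA.gd_pos g1 r1) (le_add_ind r1 _)
        (cl_zm _ L1 (dep (oN w t) (q L, q L + s)) 0 fun a => by simp)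
        (cl_zm _ L1 (dep (oN w t) (q L, q L + s)) (TG.up 0 r0 pos) fun a => ?_)).1.of2
        (hM.sm |TG.cd pos * r0 - e'|) (.of_forall fun n => ?_)) fr
      · rw [up_eq, Pi.add_apply, Pi.add_apply, ind_mul, ind_mul (r := r0)]
        simp only [Pi.zero_apply]; ring
      · simp only [x, h_zm Φ]
        unfold df at q2
        rw [← cd_eq] at q2
        have a1 : (Hy y (dep (oN w t) (q L, q L + s) + ind pos (r0 / L)) -
            Hy y (dep (oN w t) (q L, q L + s))) * (y n).M ≤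
            (TG.cd pos * r0 - e') * ((y n).M / L) := by
          refine (mul_le_mul_of_nonneg_right (show _ ≤ (TG.cd pos * r0 - e') / L by
            rw [sub_div, mul_div_assoc]; linarith) (Nat.cast_nonneg _)).trans (le_of_eq (by ring))
        have a2 := (le_abs_self _).trans ((abs_mul _ _).trans_le (mul_le_of_le_one_right
          (abs_nonneg (TG.cd pos * r0 - e')) (abs_le.2 ⟨by linarith [(dv n).1],
            show ((y n).M : ℝ) / L - ((y n).M / L : ℕ) ≤ 1 by linarith [(dv n).2]⟩)))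
        linarith)
  obtain ⟨-, -, b1, b2, b3⟩ := hk default
  have g0 : TG.G0 Φ (oN w t) pos fun n => x (k n) n := by
    have es : ∀ n, TG.sc (y n).M (dep (oN w t) (q (k n), q (k n) + s)) =
        dep (oN w t) (q (k n) * (y n).M, (q (k n) + s) * (y n).M) := fun n => funext fun a => by
      simp only [TG.sc, dep]; ring
    refine ⟨?_, h.unit⟩
    simp only [x, es]
    refine al _ _ (|C1| + s + 1) b1 b2 ((kb.eventually hq).mono fun n a => ?_) fun K => ?_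
    · have a0 : (0 : ℝ) ≤ q (k n) := by exact_mod_cast a.1
      have a1 : (0 : ℝ) ≤ (y n).M := Nat.cast_nonneg _
      refine ⟨(Nat.cast_le.2 (Nat.div_le_self _ _)).trans (le_mul_of_one_le_left a1
        (by linarith [abs_nonneg C1])), by positivity, mul_le_mul_of_nonneg_right ?_ a1⟩
      linarith [a.2.1, le_abs_self C1]
    · filter_upwards [kb.eventually (sm |K|)] with n a
      have a1 : (0 : ℝ) ≤ (y n).M := Nat.cast_nonneg _
      have a2 := mul_le_mul (le_abs_self K) (Nat.cast_div_le (α := ℝ) (m := (y n).M) (n := k n))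
        (Nat.cast_nonneg _) (abs_nonneg K)
      have a3 := mul_le_mul_of_nonneg_right a a1
      rw [show |K| * (((y n).M : ℝ) / k n) = |K| / k n * (y n).M by ring] at a2
      nlinarith
  have f := hT ι κ Φ _ pos C _ (hR ι κ Φ _ pos _ C ⟨g0, h.one,
    fun i u r => (hk (i, u, r, 0)).1, fun i u η ρ => (hk (i, u, η, ρ)).2.1⟩) r0 (Nat.cast_nonneg _)
  linarith [Le.num b1 (Le.trans f b3)]

end Pool.Agent.MP_5168f5_an.AN.N6
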