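import Pool.Agent.MP_5168f5_an.AN.N6Spec
import Pool.Agent.MP_5168f5_an.AN.GOv2

/-! Kakeya sets in all dimensions: the algebra of the tangent on the chamber. -/

namespace Pool.Agent.MP_5168f5_an.AN.N6

open H19 H17S H17F G39 Filter H61Z GA GF R4 GO GOv2A

variable {κ : Type} {w t : κ → ℝ} {a b e : κ}

theorem o0_zero : o0 w a = 0 ↔ w a = 0 := by simp [o0, Prod.ext_iff]

theorem oN_zero : oN w t a = 0 ↔ t a = 0 ∧ w a = 0 := by
  simp only [oN, Prod.ext_iff, Prod.fst_zero, Prod.snd_zero]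
  exact ⟨fun h => ⟨h.1, by linarith [h.1, h.2]⟩, fun h => ⟨h.1, by rw [h.1, h.2, sub_zero]⟩⟩

theorem oN_iff (h : 0 ≤ t a ∧ t a ≤ w a) : oN w t a = 0 ↔ o0 w a = 0 := by
  rw [oN_zero, o0_zero]
  exact ⟨fun k => k.2, fun k => ⟨by linarith [h.1, h.2], k⟩⟩

theorem hm_w (h : Hm (o0 w) a b e) : w e = w a + w b := congrArg Prod.snd h.2.2

theorem hmN (h : ∀ a, 0 ≤ t a ∧ t a ≤ w a) (k : Hm (o0 w) a b e ∧ t e = t a + t b) :
    Hm (oN w t) a b e :=
  ⟨mt (oN_iff (h a)).1 k.1.1, mt (oN_iff (h b)).1 k.1.2.1, by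
    simp only [oN, hm_w k.1, k.2, Prod.mk_add_mk]
    congr 1; ring⟩

theorem dep_oN (x : ℝ × ℝ) :
    dep (oN w t) x = fun a => dep (o0 w) (0, x.2) a - t a * (x.2 - x.1) := funext fun a => by
  simp only [dep, oN, o0]; ring

/-- The algebra at the base depth `dep (oN w t) x` in a slower unit. -/
theorem alg_tan {ι : Type} [Fintype ι] [DecidableEq ι] [Fintype κ] {Φ : Filt (Mt ι)}
    {pos : κ → Prop} {C0 : ℝ} {y : ℕ → TG.Sy ι κ} (h : CS Φ w t pos C0 y) :
    ∃ M0 : ℕ → ℝ, Sm (TG.un y) M0 ∧ ∀ (M' : ℕ → ℕ) (x : ℕ → ℝ × ℝ) (C : ℝ), Big M' → Sm M' M0 →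
      (∀ᶠ n in UF, (M' n : ℝ) ≤ C * (y n).M ∧ 0 ≤ (x n).1 ∧ (x n).2 ≤ C * (y n).M) →
      (∀ K : ℝ, ∀ᶠ n in UF, K * M' n ≤ (x n).2 - (x n).1) →
      Alg M' Φ (oN w t) pos (fun n => sB (TG.rA (dep (oN w t) (x n))) (y n).B)
        fun n => sC (TG.rA (dep (oN w t) (x n))) (y n).c := by
  classical
  have al := h.alg
  have tw := h.tw
  have hg : ∀ e, ∃ lam : ℕ → κ → κ → ℝ, (∀ a b, OB (TG.un y) fun n => lam n a b) ∧ (0 < t e →
      t e < w e → ∀ e', Neg (TG.un y) fun n => ∑ a, ∑ b, lam n a b *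
        cG (o0 w) t (y n).c a b e' - if e' = e then 1 else 0) := fun e => by
    by_cases k : 0 < t e ∧ t e < w e
    · exact (h.gen e k.1 k.2).imp fun _ k => ⟨k.1, fun _ _ e' => by convert k.2 e'⟩
    · exact ⟨0, fun _ _ => ob_const al.big 0, fun k1 k2 => absurd ⟨k1, k2⟩ k⟩
  choose lam l1 l2 using hg
  obtain ⟨L, hL, hb⟩ := ob_bound al.big (J := Bool × κ × κ × κ)
    (f := fun j n => bif j.1 then (y n).c j.2.1 j.2.2.1 j.2.2.2 else lam j.2.1 n j.2.2.1 j.2.2.2)
    fun j => by rcases j with ⟨_ | _, a, b, e⟩; exacts [l1 a b e, al.ob a b e]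
  refine ⟨_, hL.log, fun M' x C hM h0 hx hσ => ?_⟩
  have s0 : ∀ᶠ n in UF, 0 ≤ (x n).2 - (x n).1 := (hσ 0).mono fun n a => by simpa using a
  have eq : ∀ n a b e, sC (TG.rA (dep (oN w t) (x n))) (y n).c a b e = (y n).c a b e *
      Real.exp (dep (oN w t) (x n) e - dep (oN w t) (x n) a - dep (oN w t) (x n) b) :=
    fun n a b e => by rw [dep_oN]; exact sC_eq _
  have hm' : ∀ n {a b e}, Hm (o0 w) a b e → dep (oN w t) (x n) e - dep (oN w t) (x n) a -
      dep (oN w t) (x n) b = -((t e - (t a + t b)) * ((x n).2 - (x n).1)) :=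
    fun n a b e k => by rw [dep_oN]; exact GOv2A.dep_hm k
  have d0 : ∀ᶠ n in UF, ∀ a, 0 ≤ dep (oN w t) (x n) a ∧
      dep (oN w t) (x n) a ≤ w a * C * (y n).M := (hx.and s0).mono fun n h a => by
    obtain ⟨w1, w2⟩ := tw a
    obtain ⟨⟨-, x1, x4⟩, x6⟩ := h
    simp only [dep, oN]
    constructor
    · nlinarith [mul_nonneg w1 x1, mul_nonneg (sub_nonneg.2 w2) (show 0 ≤ (x n).2 by linarith)]
    · nlinarith [mul_le_mul_of_nonneg_left x4 (w1.trans w2), mul_nonneg w1 x6]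
  have up := hx.mono fun n h => h.1
  have ng : ∀ a b e, (Neg (TG.un y) fun n => (y n).c a b e) → Neg M' fun n =>
      sC (TG.rA (dep (oN w t) (x n))) (y n).c a b e := fun a b e h => by
    refine ((h.mul_exp (C := w e * C) (d0.mono fun n d => ?_)).congr
      (.of_forall fun n => eq n a b e)).up up
    rw [abs_of_pos (Real.exp_pos _), Real.exp_le_exp]
    linarith [(d a).1, (d b).1, (d e).2]
  have oc : ∀ a b e, OB M' fun n => (y n).c a b e := fun a b e =>
    GOv2A.ob hL h0 (.of_forall fun n => hb n (true, a, b, e))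
  have key : ∀ a b e, o0 w e ≠ 0 → ¬(Hm (o0 w) a b e ∧ t e = t a + t b) → Neg M' fun n =>
      sC (TG.rA (dep (oN w t) (x n))) (y n).c a b e := fun a b e k k' => by
    by_cases k1 : Hm (o0 w) a b e
    · rcases lt_or_gt_of_ne (fun z => k' ⟨k1, z⟩) with z | z
      · exact ng a b e (h.fil a b e k1 z)
      refine (Neg.mul' (u := fun n => Real.exp (-((t e - (t a + t b)) * ((x n).2 - (x n).1))))
        (fun K => ?_) (oc a b e)).congr (.of_forall fun n => by rw [eq, hm' n k1])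
      have z' := sub_pos.2 z
      filter_upwards [hσ (K / (t e - (t a + t b)))] with n w
      rw [abs_of_pos (Real.exp_pos _)]
      rw [div_mul_eq_mul_div, div_le_iff₀' z'] at w
      exact Real.exp_le_exp.2 (neg_le_neg w)
    · exact ng a b e (al.hom a b e k k1)
  refine ⟨hM, al.fr.mono fun n h => ((sFr ι κ Φ _ _).1 _ 0 fun a => Real.exp_pos _).1 h,
    fun a => ⟨(tw a).1, sub_nonneg.2 (tw a).2⟩, fun a k => mt (oN_iff (tw a)).1 (al.live a k),
    fun a b e => ?_, fun a b e k k' => key a b e (mt (oN_iff (tw e)).2 k) (mt (hmN tw) k'),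
    fun a b e h1 h2 h3 => ng a b e (al.sub a b e h1 h2 h3), fun e he => ?_⟩
  · by_cases k : o0 w e = 0 ∨ (Hm (o0 w) a b e ∧ t e = t a + t b)
    · refine ob_congr (oc a b e) (d0.mono fun n d => ?_)
      rw [eq, abs_mul, abs_of_pos (Real.exp_pos _)]
      refine mul_le_of_le_one_right (abs_nonneg _) (Real.exp_le_one_iff.2 ?_)
      rcases k with k | k
      · have : dep (oN w t) (x n) e = 0 := by simp [dep, (oN_iff (tw e)).2 k]
        linarith [(d a).1, (d b).1]
      · rw [hm' n k.1]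
        simp [k.2]
    · exact (key a b e (not_or.1 k).1 (not_or.1 k).2).ob
  · have e1 : 0 < t e := he.1
    have e2 : t e < w e := sub_pos.1 he.2
    have ol : ∀ a b, OB M' fun n => lam e n a b := fun a b =>
      GOv2A.ob hL h0 (.of_forall fun n => hb n (false, e, a, b))
    refine ⟨lam e, ol, fun e' he' => ?_⟩
    have e4 : o0 w e' ≠ 0 := fun z => by
      rw [(oN_iff (tw e')).2 z] at he'
      exact he.2.ne (congrArg Prod.snd he')
    have e5 : ∀ a b, Neg M' fun n => cH (oN w t) (sC (TG.rA (dep (oN w t) (x n))) (y n).c) a b e' -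
        cG (o0 w) t (y n).c a b e' := fun a b => by
      unfold cH cG
      by_cases k : Hm (o0 w) a b e' ∧ t e' = t a + t b
      · refine neg_ev (.of_forall fun n => ?_)
        rw [if_pos k, if_pos (hmN tw k), eq, hm' n k.1]
        simp [k.2]
      · simp only [if_neg k, sub_zero]
        split_ifs
        exacts [key a b e' e4 k, neg_zero]
    refine ((Neg.sum hM Finset.univ fun a _ => Neg.sum hM Finset.univ fun b _ =>
      (e5 a b).mul' (ol a b)).add hM ((l2 e e1 e2 e').up up)).congr (.of_forall fun n => ?_)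
    simp only [mul_sub, Finset.sum_sub_distrib]
    ring

end Pool.Agent.MP_5168f5_an.AN.N6
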