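import Pool.Agent.MP_5168f5_an.AN.TAApi
import Pool.Agent.MP_5168f5_an.AN.GAAll

/-! Kakeya sets in all dimensions: the terminal case, variables that locate the cell. -/

namespace Pool.Agent.MP_5168f5_an.AN.TG.TA

open H19 H17S H17F G39 GA TL Filter H61Z

theorem rowDetP : DetP := by
  intro ι κ _ _ _ Φ om pos x h D g
  refine ⟨fun β Y L hL e => ?_, ?_⟩
  · let rp : ∀ n, β n → Mt ι := fun n y =>
      Classical.epsilon fun z => ∃ v ∈ (x n).P.S, Y n v = y ∧ z = (x n).j v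
    have k : ∀ n, ∀ ω ∈ (x n).P.S, ∃ v ∈ (x n).P.S, Y n v = Y n ω ∧ rp n (Y n ω) = (x n).j v :=
      fun n ω hω => Classical.epsilon_spec
        (p := fun z => ∃ v ∈ (x n).P.S, Y n v = Y n ω ∧ z = (x n).j v) ⟨_, ω, hω, rfl, rfl⟩
    refine sDet ι κ (un x) Φ _ _ _ β (pr x) (fun n ω => rp n (Y n ω)) (fun n => (x n).j) Y rp _ L
      h.alg.big h.alg.fr g ⟨1, zero_le_one, ?_⟩
      (Eventually.of_forall fun n a _ b _ c => congrArg (rp n) c) hL (Whp.of_ev ?_)
    · filter_upwards [e, h.unit, hL.2 1 one_pos] with n e u l ω hω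
      obtain ⟨v, hv, a, b⟩ := k n ω hω
      rw [b]
      exact ⟨u v hv, (e v hv ω hω a).imp fun t c => ⟨fun i => (c.1 i).trans
        (mul_le_mul_of_nonneg_right l (Real.exp_pos _).le), c.2⟩⟩
    · filter_upwards [e] with n e ω hω
      obtain ⟨v, hv, a, b⟩ := k n ω hω
      rw [b]
      exact e v hv ω hω a
  · obtain ⟨L, hL, a⟩ := GO.GOh1A.same sNr sCell h.alg.big h.alg.fr g
    refine ⟨L, hL, ?_⟩
    filter_upwards [a, h.unit, h.alg.fr] with n a u fr ω hω ω' _ t c e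
    obtain ⟨s, b, e'⟩ := (a _).2 _ c
    rwa [(sMul _ _ Φ _ _ fr).inj t s ((u ω hω).mul_left_cancel (e.symm.trans e'))]

end Pool.Agent.MP_5168f5_an.AN.TG.TA
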