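import Pool.Agent.MP_5168f5_an.AN.N7Spec
import Pool.Agent.MP_5168f5_an.AN.TADetP
import Pool.Agent.MP_5168f5_an.AN.TGLip

/-! Kakeya maximal estimate: the point moved along the marked direction. -/

namespace Pool.Agent.MP_5168f5_an.AN.N7

open H19 H17S H17F G39 Filter H61Z GA TG N6

namespace VrtA

variable {ι κ : Type} [Fintype ι] [DecidableEq ι] [Fintype κ] {M : ℕ → ℕ} {Φ : Filt (Mt ι)}
  {B : ℕ → κ → Mt ι} {c : ℕ → κ → κ → κ → ℝ} {Ω : ℕ → Type} {P : ∀ n, FP (Ω n)}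
  {p j : ∀ n, Ω n → Mt ι} {r : ℕ → κ → ℝ} {L : ℕ → ℝ}

theorem det (hM : Big M) (fr : ∀ᶠ n in UF, IsFr Φ (B n) (c n)) (i : IdR M c r r) (s : Sub M L)
    (h : ∀ᶠ n in UF, ∀ ω ∈ (P n).S, IsUnit (j n ω) ∧ Nr (B n) (r n) (L n) (p n ω) (j n ω)) :
    Sm M fun n => ch (P n) (fun ω => cell (B n) (r n) (j n ω)) (p n) := by
  refine sDet ι κ M Φ B c Ω _ P p j p (fun _ => id) r L hM fr i ⟨1, zero_le_one, ?_⟩
    (Eventually.of_forall fun n => Fn.rfl _) s (Whp.of_ev (h.mono fun n a ω o => (a ω o).2))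
  obtain ⟨_, -, i⟩ := i
  filter_upwards [h, s.2 1 one_pos, i] with n a l i ω o
  exact ⟨GACntA.nr_unit (a ω o).2 (a ω o).1, GACntA.nr_mono (a ω o).2 fun e =>
    mul_le_mul_of_nonneg_right l (i.1 e).1.le⟩

theorem near (hM : Big M) (fr : ∀ᶠ n in UF, IsFr Φ (B n) (c n)) (i : IdR M c r r) :
    ∃ L, Sub M L ∧ ∀ᶠ n in UF, ∀ x y, Nr (B n) (r n) 1 x y →
      Nr (B n) (r n) (L n) (cell (B n) (r n) x) x ∧ Nr (B n) (r n) (L n) x y ∧
      Nr (B n) (r n) (L n) (cell (B n) (r n) x) y ∧ Nr (B n) (r n) (L n) (cell (B n) (r n) y) x := by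
  obtain ⟨K, k, hN⟩ := sNr Φ.N (Fintype.card κ)
  obtain ⟨_, -, hc⟩ := GO.GOh1A.same sNr sCell hM fr i
  obtain ⟨L, s, i⟩ := i
  refine ⟨_, sub_box hM s k, ?_⟩
  filter_upwards [fr, i, hc] with n f i hc x y q
  have up : ∀ {L₁ L₂ y z}, L₁ ≤ L₂ → Nr (B n) (r n) L₁ y z → Nr (B n) (r n) L₂ y z := fun a q =>
    GACntA.nr_mono q fun b => mul_le_mul_of_nonneg_right a (i.1 b).1.le
  have N := fun a b c => hN ι κ Φ _ _ _ _ _ 0 a b c rfl le_rfl f (s.1 n) le_rfl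
    (fun a => ⟨(i.1 a).1.le, (i.1 a).1.le⟩) i.2.1 i.2.1
  have l := (s.1 n).trans (GACntA.le_box k (s.1 n))
  exact ⟨up l (hc x).1, up l q, (N _ _ _).2.1 (up (s.1 n) (hc x).1) (up (s.1 n) q),
    (N _ _ _).2.1 (up (s.1 n) (hc y).1) ((N _ _ 0).1 (up (s.1 n) q))⟩

theorem both (hM : Big M) (fr : ∀ᶠ n in UF, IsFr Φ (B n) (c n)) (i : IdR M c r r)
    (h : ∀ᶠ n in UF, ∀ ω ∈ (P n).S, IsUnit (j n ω) ∧ Nr (B n) (r n) 1 (p n ω) (j n ω)) :
    Sm M (fun n => ch (P n) (fun ω => cell (B n) (r n) (j n ω))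
      fun ω => cell (B n) (r n) (p n ω)) ∧
    Sm M fun n => ch (P n) (fun ω => cell (B n) (r n) (p n ω))
      fun ω => cell (B n) (r n) (j n ω) := by
  obtain ⟨L, s, a⟩ := near hM fr i
  exact ⟨det hM fr i s ((a.and h).mono fun n a ω o => ⟨(a.2 ω o).1, (a.1 _ _ (a.2 ω o).2).2.2.1⟩),
    det hM fr i s ((a.and h).mono fun n a ω o =>
      ⟨GACntA.nr_unit (a.2 ω o).2 (a.2 ω o).1, (a.1 _ _ (a.2 ω o).2).2.2.2⟩)⟩

theorem tri {Ω α β δ : Type} {P : FP Ω} (F F' : Ω → α) (G G' : Ω → β) (Θ : Ω → δ) :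
    ch P F (fun ω => (G ω, Θ ω)) ≤ ch P F' (fun ω => (G' ω, Θ ω)) + ch P F F' + ch P G' G := by
  have h1 := GO.GOh2A.tri (P := P) F F' fun ω => (G ω, Θ ω)
  have h2 := ch_tri (P := P) F' G' fun ω => (G ω, Θ ω)
  have h3 : ch P G' (fun ω => (G ω, Θ ω)) ≤ ch P G' G := ch_anti (Fn.fst _ _)
  have h4 : ch P F' (fun ω => (G' ω, G ω, Θ ω)) ≤ ch P F' fun ω => (G' ω, Θ ω) :=
    ch_anti ((Fn.fst _ _).pair ((Fn.snd _ _).right _))
  linarith

theorem fin {a b c e f : ℝ} (h : a ≤ b + c + e) : a - f ≤ b - f + (c - 0) + (e - 0) := by linarith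

theorem fin' {a b c e f : ℝ} (h : b ≤ a + c + e) : f - a ≤ f - b + (c - 0) + (e - 0) := by linarith

theorem fin2 {a b c e u v m : ℝ} (h : a ≤ b + c) (k : b ≤ e) :
    u * m - v * m ≤ (u - v) * m - a + (c - 0) + (e - 0) := by linarith

open Classical in
/-- The moved point. -/
noncomputable abbrev mv (y : TG.Sy ι κ) (τ : κ) (D : κ → ℝ) : TG.Sy ι κ :=
  ⟨y.Ω, y.T, y.P, fun ω => y.j ω * ex y.B (Pi.single τ (-lg y.B (y.C D ω) (y.j ω) τ)), y.Θ, y.B,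
    y.c, y.M⟩

end VrtA

open VrtA Classical in
theorem vrt : VRT := by
  intro ι κ _ _ _ Φ om pos y τ d h h0 g
  have hM := h.alg.big
  have fr := h.alg.fr
  have gd : ∀ {e}, GO.Gd om (GO.Nx y) e → TG.Gd y fun n => TG.sc (y n).M e := fun g =>
    GO.GOh1A.idr sIdR hM h.alg.ob g (GO.aq_sc _ _).ap
  have ps : ∀ (D : κ → ℝ) a, 0 < rA D a := fun _ _ => Real.exp_pos _
  have h2 : G0 Φ om pos fun n => mv (y n) τ (TG.sc (y n).M d) := ⟨h.alg, by
    filter_upwards [h.unit, fr] with n u f ω o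
    exact (u ω o).mul (IsUnit.of_mul_eq_one _ ((sMul _ _ Φ _ _ f).neg _).2)⟩
  have nr : ∀ {e : κ → ℝ}, e τ ≤ d τ → ∀ᶠ n in UF, ∀ ω ∈ (y n).P.S,
      IsUnit ((mv (y n) τ (TG.sc (y n).M d)).j ω) ∧
      Nr (y n).B (rA (TG.sc (y n).M e)) 1 ((y n).j ω) ((mv (y n) τ (TG.sc (y n).M d)).j ω) := by
    intro e l
    obtain ⟨_, -, hc⟩ := GO.GOh1A.same sNr sCell hM fr (gd g)
    filter_upwards [h.unit, h2.unit, fr, hc] with n u u' f hc ω o
    refine ⟨u' ω o, _, fun a => ?_, rfl⟩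
    obtain ⟨t, b, e1⟩ := (hc ((y n).j ω)).1
    have e2 := (sMul _ _ Φ _ _ f).lg _ t (GACntA.nr_unit ⟨t, b, e1⟩ (u ω o))
    rw [← e1] at e2
    rw [Pi.single_apply, Sy.C, e2]
    split_ifs with q
    · rw [abs_neg, q]
      refine (b τ).trans (mul_le_mul_of_nonneg_left (Real.exp_le_exp.2 (neg_le_neg ?_)) zero_le_one)
      exact mul_le_mul_of_nonneg_right l (Nat.cast_nonneg _)
    · rw [abs_zero, one_mul]; exact (ps _ a).le
  have tw := fun {e} (g : GO.Gd om (GO.Nx y) e) (l : e τ ≤ d τ) => both hM fr (gd g) (nr l)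
  refine ⟨GO.Hx fun n => mv (y n) τ (TG.sc (y n).M d), (GO.g_pm h2 :), fun e ge l => ?_,
    fun r hr g' => ?_⟩
  · have e1 := GO.g_hz h ge
    have t1 := tw ge l
    have t0 := tw GO.GOh2A.gd_zero (g.nn τ)
    refine (R4.Eqv.rt_eq hM ⟨Le.of3 e1.1 t1.1 t0.2 (Eventually.of_forall fun n => ?_),
      Le.of3 e1.2 t1.2 t0.1 (Eventually.of_forall fun n => ?_)⟩).trans (e1.rt_eq hM).symm
    · exact fin (tri (P := (y n).P) _ _ _ _ (y n).Θ)
    · exact fin' (tri (P := (y n).P) _ _ _ _ (y n).Θ)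
  obtain ⟨L, s, a⟩ := near hM fr (gd g)
  obtain ⟨L', s', hl⟩ := tgLip _ _ Φ om pos y h _ _ (gd g) ⟨∑ a, |d a|,
    Eventually.of_forall fun n a => by
      rw [TG.sc, abs_mul, Nat.abs_cast]
      exact mul_le_mul_of_nonneg_right (Finset.single_le_sum (f := fun a => |d a|)
        (fun _ _ => abs_nonneg _) (Finset.mem_univ a)) (Nat.cast_nonneg _)⟩ s
  have e1 : ∀ᶠ n in UF, ∀ a b, |sC (rA (TG.sc (y n).M d)) (y n).c a b τ| ≤ dl (un y) r n :=
    eventually_all.2 fun a => eventually_all.2 fun b => ((h0 a b).mul_exp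
      (v := fun n => rA (TG.sc (y n).M d) a * rA (TG.sc (y n).M d) b / rA (TG.sc (y n).M d) τ)
      (C := d τ - d a - d b) (Eventually.of_forall fun n => by
        rw [rA, rA, rA, ← Real.exp_add, ← Real.exp_sub, Real.abs_exp, TG.sc, TG.sc, TG.sc]
        exact le_of_eq (by congr 1; ring))).congr
      (Eventually.of_forall fun n => by rw [sC]; ring) r
  have k := det (P := pr y) (p := fun n => (y n).C (TG.sc (y n).M d))
    (j := fun n => (mv (y n) τ (TG.sc (y n).M d)).j) hM fr (gd g') (s.mul s') (by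
    filter_upwards [h.unit, nr le_rfl, fr, a, hl 0, e1] with n u q f a hl e1 ω o
    obtain ⟨q1, q2, ⟨t, b, e2⟩, -⟩ := a _ _ (q ω o).2
    have m := sMul _ _ Φ _ _ f
    have up := GACntA.nr_unit q1 (u ω o)
    have a1 := (hl _ _ _ up q1 q2).2 (Pi.single τ 1) _
      (dl_pos _ _ _).le (fun a => by rw [Pi.single_apply]; split_ifs <;> simp)
      fun a b => by simpa [Pi.single_apply] using e1 a b
    simp only [Pi.single_apply, ite_mul, one_mul, zero_mul, Finset.sum_ite_eq', Finset.mem_univ,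
      if_true] at a1
    rw [m.lg _ _ (u ω o), Pi.single_eq_same, neg_div, e2, Sy.C, sub_neg_eq_add, sub_add_cancel,
      m.lg _ _ up, abs_div, abs_of_pos (ps _ _), div_le_iff₀ (ps _ _)] at a1
    refine ⟨(q ω o).1, t, fun x => ?_, e2⟩
    by_cases w : x = τ
    · subst w
      refine a1.trans (le_of_eq_of_le ?_ (mul_le_mul_of_nonneg_right
        (le_mul_of_one_le_left (s'.pos n).le (s.1 n)) (ps _ _).le))
      simp only [mul_assoc, dl, rA, TG.sc, GO.ind, Pi.add_apply, if_true, ← Real.exp_add]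
      congr 2; ring
    · refine (b x).trans (le_of_le_of_eq (mul_le_mul_of_nonneg_right
        (le_mul_of_one_le_right (s.pos n).le (s'.1 n)) (ps _ _).le) ?_)
      simp only [rA, TG.sc, GO.ind, Pi.add_apply, if_neg w, add_zero])
  have e := (GO.g_H h2 g g' (GO.aq_sc _ _) (GO.aq_sc _ _)).2
  rw [sup_eq_left.2 (GO.le_add_ind hr d)] at e
  refine Le.num hM (Le.of3 e k (tw g le_rfl).2 (Eventually.of_forall fun n => ?_))
  exact fin2 (GO.GOh2A.tri (P := (y n).P) _ _ _) (ch_anti (Fn.fst _ _))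

end Pool.Agent.MP_5168f5_an.AN.N7
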