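import Pool.Agent.MP_5168f5_an.AN.TASpec
import Pool.Agent.MP_5168f5_an.R4.Api

/-! Kakeya sets in all dimensions: the terminal case, elementary facts on depths. -/

namespace Pool.Agent.MP_5168f5_an.AN.TG.TA

open H19 H17S H17F G39 GA TL Filter H61Z

section Wt

variable {κ : Type} [Fintype κ] {om : κ → ℝ × ℝ} {pos : κ → Prop} {d d' : κ → ℝ}

/-- The conditions on weights. -/
structure WK (om : κ → ℝ × ℝ) (pos : κ → Prop) : Prop where
  wt : ∀ a, 0 ≤ (om a).1 ∧ 0 ≤ (om a).2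
  live : ∀ a, pos a → om a ≠ 0

theorem WK.sum_lt (h : WK om pos) (a : κ) : (om a).1 + (om a).2 < sg om := by
  have := Finset.single_le_sum (f := fun a => (om a).1 + (om a).2)
    (fun b _ => add_nonneg (h.wt b).1 (h.wt b).2) (Finset.mem_univ a)
  unfold sg; linarith

theorem WK.one_le_sg (h : WK om pos) : 1 ≤ sg om :=
  le_add_of_nonneg_right (Finset.sum_nonneg fun b _ => add_nonneg (h.wt b).1 (h.wt b).2)

theorem WK.sg_pos (h : WK om pos) : 0 < sg om := one_pos.trans_le h.one_le_sg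

theorem WK.tt_nn (h : WK om pos) (a : κ) : 0 ≤ tt om a :=
  div_nonneg (add_nonneg (h.wt a).1 (h.wt a).2) h.sg_pos.le

theorem WK.tt_lt (h : WK om pos) (a : κ) : tt om a < 1 := (div_lt_one h.sg_pos).2 (h.sum_lt a)

theorem WK.tt_pos (h : WK om pos) {a : κ} (e : Mx om a) : 0 < tt om a :=
  div_pos (add_pos e.1 e.2) h.sg_pos

theorem WK.tc (h : WK om pos) (a : κ) : 0 < tc om pos a ∧ tc om pos a ≤ 1 := by
  unfold TA.tc; split_ifs with e
  exacts [⟨h.tt_pos e.2, (h.tt_lt a).le⟩, ⟨one_pos, le_rfl⟩]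

theorem tc_pos {a : κ} (e : CC om pos a) : tc om pos a = tt om a := if_pos e

theorem tc_neg {a : κ} (e : ¬CC om pos a) : tc om pos a = 1 := if_neg e

omit [Fintype κ] in
theorem WK.pure (h : WK om pos) {a : κ} (e : om a ≠ 0) (e' : ¬Mx om a) : P1 om a ∨ P2 om a := by
  rcases (h.wt a).1.eq_or_lt with u | u <;> rcases (h.wt a).2.eq_or_lt with v | v
  exacts [absurd (Prod.ext u.symm v.symm) e, Or.inr ⟨u.symm, v⟩, Or.inl ⟨u, v.symm⟩,
    absurd ⟨u, v⟩ e']

omit [Fintype κ] in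
theorem pu_not_mx {k : Bool} {a : κ} (e : Pu om k a) : ¬Mx om a := fun u => by
  cases k
  exacts [u.1.ne' e.1, u.2.ne' e.2]

omit [Fintype κ] in
theorem pu_live {k : Bool} {a : κ} (e : Pu om k a) : om a ≠ 0 := fun u => by
  cases k
  · exact e.2.ne' (by rw [u]; rfl)
  · exact e.1.ne' (by rw [u]; rfl)

omit [Fintype κ] in
theorem mx_live {a : κ} (e : Mx om a) : om a ≠ 0 := fun u => e.1.ne' (by rw [u]; rfl)

omit [Fintype κ] in
theorem WK.pp_iff (h : WK om pos) {a : κ} :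
    PP om pos a ↔ pos a ∧ Pu om true a ∨ pos a ∧ Pu om false a :=
  ⟨fun e => (h.pure (h.live a e.1) e.2).imp (fun u => ⟨e.1, u⟩) fun u => ⟨e.1, u⟩,
    fun e => e.elim (fun u => ⟨u.1, pu_not_mx u.2⟩) fun u => ⟨u.1, pu_not_mx u.2⟩⟩

/-- Mixed indices of equal total weight have equal weights. -/
theorem WK.om_eq (h : WK om pos) (hT : Term om) {a b : κ} (ha : Mx om a) (hb : Mx om b)
    (e : tt om a = tt om b) : om a = om b := by
  have e1 : (om a).1 + (om a).2 = (om b).1 + (om b).2 := by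
    have := h.sg_pos
    unfold tt at e; field_simp at e; exact e
  have e2 := hT a b ha hb
  have e3 : (om a).1 = (om b).1 := by
    have p := add_pos hb.1 hb.2
    have : (om a).1 * ((om b).1 + (om b).2) = (om b).1 * ((om b).1 + (om b).2) := by
      rw [← e1]; nth_rw 1 [e1]; linear_combination e2
    exact mul_right_cancel₀ p.ne' this
  exact Prod.ext e3 (by linarith)

theorem dep_dg (ρ : ℝ) (a : κ) : dep om (dg om ρ) a = tt om a * ρ := by
  unfold dep dg tt; ring

omit [Fintype κ] in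
theorem dF_pp {a : κ} (e : PP om pos a) (K : ℝ) (f : κ → ℝ) : dF om pos K f a = K := if_pos e

omit [Fintype κ] in
theorem dF_cc {a : κ} (e : CC om pos a) (K : ℝ) (f : κ → ℝ) : dF om pos K f a = f a := by
  unfold dF; rw [if_neg fun u => u.2 e.2, if_pos e]

omit [Fintype κ] in
theorem dF_st {a : κ} (e : ¬pos a) (K : ℝ) (f : κ → ℝ) : dF om pos K f a = 0 := by
  unfold dF; rw [if_neg fun u => e u.1, if_neg fun u => e u.1]

omit [Fintype κ] in
theorem tri (om : κ → ℝ × ℝ) (pos : κ → Prop) (a : κ) : PP om pos a ∨ CC om pos a ∨ ¬pos a := by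
  unfold PP CC; tauto

omit [Fintype κ] in
theorem dU_pos {k : Bool} {a : κ} (e : Pu om k a) (K : ℝ) :
    dU om k K a = ((om a).1 + (om a).2) * K := if_pos e

omit [Fintype κ] in
theorem dU_neg {k : Bool} {a : κ} (e : ¬Pu om k a) (K : ℝ) : dU om k K a = 0 := if_neg e

omit [Fintype κ] in
theorem smul_dF (w K : ℝ) (f : κ → ℝ) : w • dF om pos K f = dF om pos (w * K) (w • f) := by
  funext a; simp only [dF, Pi.smul_apply, smul_eq_mul]; split_ifs <;> simp

theorem smul_dY (w K ρ : ℝ) : w • dY om pos K ρ = dY om pos (w * K) (w * ρ) := by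
  unfold dY; rw [smul_dF]; congr 1; funext a; simp only [Pi.smul_apply, smul_eq_mul]; ring

theorem dY_zero (K : ℝ) : dY om pos K 0 = dF om pos K 0 := by
  unfold dY; congr 1; funext a; simp

omit [Fintype κ] in
theorem smul_dU (w K : ℝ) (k : Bool) : w • dU om k K = dU om k (w * K) := by
  funext a; simp only [dU, Pi.smul_apply, smul_eq_mul]; split_ifs
  exacts [by ring, by simp]

theorem sum_dF (K : ℝ) (f : κ → ℝ) :
    ∑ a, dF om pos K f a = cd (PP om pos) * K + ∑ a, dF om pos 0 f a := by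
  classical
  have e : ∀ a, dF om pos K f a = (if PP om pos a then K else 0) + dF om pos 0 f a := fun a => by
    unfold dF; split_ifs <;> simp
  simp only [e, Finset.sum_add_distrib, ← Finset.sum_filter, Finset.sum_const, nsmul_eq_mul, cd]

theorem sum_dY (K ρ : ℝ) : ∑ a, dY om pos K ρ a = cd (PP om pos) * K + TT om pos * ρ := by
  unfold dY TT
  rw [sum_dF, Finset.sum_mul]
  congr 1
  refine Finset.sum_congr rfl fun a _ => ?_
  unfold dF; split_ifs <;> simp

omit [Fintype κ] in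
theorem gt_zero : GT om pos 0 := ⟨fun _ => le_rfl, fun _ _ => rfl, fun _ _ _ _ _ _ _ => by simp⟩

omit [Fintype κ] in
theorem GT.add (h : GT om pos d) (h' : GT om pos d') : GT om pos (d + d') :=
  ⟨fun a => add_nonneg (h.nn a) (h'.nn a), fun a e => by simp [h.dead a e, h'.dead a e],
    fun a b e u v w z => by
      have := h.id a b e u v w z
      have := h'.id a b e u v w z
      simp only [Pi.add_apply]; linarith⟩

omit [Fintype κ] in
theorem GT.smul (h : GT om pos d) {w : ℝ} (hw : 0 ≤ w) : GT om pos (w • d) :=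
  ⟨fun a => mul_nonneg hw (h.nn a), fun a e => by simp [h.dead a e], fun a b e u v y z => by
    have := mul_le_mul_of_nonneg_left (h.id a b e u v y z) hw
    simp only [Pi.smul_apply, smul_eq_mul]; linarith⟩

omit [Fintype κ] in
theorem GT.sup (h : GT om pos d) (h' : GT om pos d') : GT om pos (d ⊔ d') :=
  ⟨fun a => le_sup_of_le_left (h.nn a), fun a e => by simp [h.dead a e, h'.dead a e],
    fun a b e u v w z => sup_le
      ((h.id a b e u v w z).trans (add_le_add le_sup_left le_sup_left))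
      ((h'.id a b e u v w z).trans (add_le_add le_sup_right le_sup_right))⟩

omit [Fintype κ] in
theorem WK.gt_dep (h : WK om pos) {t : ℝ × ℝ} (h1 : 0 ≤ t.1) (h2 : 0 ≤ t.2) :
    GT om pos (dep om t) :=
  ⟨fun a => add_nonneg (mul_nonneg (h.wt a).1 h1) (mul_nonneg (h.wt a).2 h2),
    fun a e => by simp [dep, e], fun a b e u _ _ _ => by
      simp only [dep, u.2.2, Prod.fst_add, Prod.snd_add]; linarith⟩

theorem WK.gt_dg (h : WK om pos) {ρ : ℝ} (h1 : 0 ≤ ρ) : GT om pos (dep om (dg om ρ)) :=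
  h.gt_dep (div_nonneg h1 h.sg_pos.le) (div_nonneg h1 h.sg_pos.le)

omit [Fintype κ] in
theorem WK.gt_lv (h : WK om pos) (k : Bool) {K : ℝ} (h1 : 0 ≤ K) :
    GT om pos (dep om (lv k K)) := by
  cases k
  exacts [h.gt_dep h1 le_rfl, h.gt_dep le_rfl h1]

omit [Fintype κ] in
theorem WK.gt_dF (h : WK om pos) {K : ℝ} {f : κ → ℝ} (hK : 0 ≤ K) (hf : ∀ a, 0 ≤ f a ∧ f a ≤ K) :
    GT om pos (dF om pos K f) := by
  have b : ∀ a, 0 ≤ dF om pos K f a ∧ dF om pos K f a ≤ K := fun a => by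
    unfold dF; split_ifs
    exacts [⟨hK, le_rfl⟩, hf a, ⟨le_rfl, hK⟩]
  refine ⟨fun a => (b a).1, fun a e => dF_st (fun u => h.live a u e) _ _, ?_⟩
  rintro a c e - v w (z | z | z)
  · rw [dF_pp ⟨z, v⟩]; linarith [(b e).2, (b c).1]
  · rw [dF_pp (a := c) ⟨z, w⟩]; linarith [(b e).2, (b a).1]
  · rw [dF_st z]; linarith [(b a).1, (b c).1]

theorem WK.gt_dY (h : WK om pos) {K ρ : ℝ} (h0 : 0 ≤ ρ) (h1 : ρ ≤ K) : GT om pos (dY om pos K ρ) :=
  h.gt_dF (h0.trans h1) fun a => ⟨mul_nonneg (h.tt_nn a) h0, by nlinarith [h.tt_lt a, h.tt_nn a]⟩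

theorem WK.gt_dQ (h : WK om pos) (i : κ) {ρ ρ' : ℝ} (h0 : 0 ≤ ρ) (h1 : ρ ≤ ρ') (h2 : ρ' ≤ 1) :
    GT om pos (dQ om pos i ρ ρ') :=
  h.gt_dF zero_le_one fun a => by
    have := h.tt_lt a
    have := h.tt_nn a
    split_ifs <;> constructor <;> nlinarith

omit [Fintype κ] in
theorem WK.hm_pu (h : WK om pos) {k : Bool} {a b e : κ} (u : Hm om a b e) (v : Pu om k e) :
    Pu om k a ∧ Pu om k b := by
  have a1 := h.wt a
  have b1 := h.wt b
  have e1 : (om e).1 = (om a).1 + (om b).1 := by rw [u.2.2]; rfl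
  have e2 : (om e).2 = (om a).2 + (om b).2 := by rw [u.2.2]; rfl
  cases k
  · have z : (om e).1 = 0 := v.1
    have p : (om a).1 = 0 := by linarith
    have q : (om b).1 = 0 := by linarith
    exact ⟨⟨p, a1.2.lt_of_ne fun y => u.1 (Prod.ext p y.symm)⟩,
      q, b1.2.lt_of_ne fun y => u.2.1 (Prod.ext q y.symm)⟩
  · have z : (om e).2 = 0 := v.2
    have p : (om a).2 = 0 := by linarith
    have q : (om b).2 = 0 := by linarith
    exact ⟨⟨a1.1.lt_of_ne fun y => u.1 (Prod.ext y.symm p), p⟩,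
      b1.1.lt_of_ne fun y => u.2.1 (Prod.ext y.symm q), q⟩

omit [Fintype κ] in
theorem WK.gt_dU (h : WK om pos) (k : Bool) {K : ℝ} (hK : 0 ≤ K) : GT om pos (dU om k K) := by
  have b : ∀ a, 0 ≤ dU om k K a := fun a => by
    unfold dU; split_ifs
    exacts [mul_nonneg (add_nonneg (h.wt a).1 (h.wt a).2) hK, le_rfl]
  refine ⟨b, fun a e => dU_neg (fun u => pu_live u e) _, fun a c e u _ _ _ => ?_⟩
  by_cases v : Pu om k e
  · rw [dU_pos v, dU_pos (h.hm_pu u v).1, dU_pos (h.hm_pu u v).2, u.2.2, Prod.fst_add,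
      Prod.snd_add]
    linarith
  · rw [dU_neg v]; exact add_nonneg (b a) (b c)

omit [Fintype κ] in
/-- Raising a set of positions that receives brackets only from itself. -/
theorem GT.up (h : GT om pos d) {S : κ → Prop} {r : ℝ} (hr : 0 ≤ r) (l : ∀ a, S a → om a ≠ 0)
    (hS : ∀ a b e, Hm om a b e → ¬Mx om a → ¬Mx om b → pos a ∨ pos b ∨ ¬pos e → S e →
      S a ∨ S b) : GT om pos (up d r S) := by
  have b : ∀ a, d a ≤ TG.up d r S a := fun a => by unfold TG.up; split_ifs <;> linarith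
  refine ⟨fun a => (h.nn a).trans (b a), fun a e => ?_, fun a c e u v w z => ?_⟩
  · unfold TG.up; rw [if_neg fun y => l a y e, h.dead a e]
  · have i := h.id a c e u v w z
    by_cases y : S e
    · have p : ∀ a, S a → TG.up d r S a = d a + r := fun a q => if_pos q
      rw [p e y]
      rcases hS a c e u v w z y with q | q <;> rw [p _ q] <;> linarith [b a, b c]
    · have p : TG.up d r S e = d e := if_neg y
      linarith [b a, b c]

omit [Fintype κ] in
theorem WK.gt_up (h : WK om pos) (g : GT om pos d) {r : ℝ} (hr : 0 ≤ r) :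
    GT om pos (up d r pos) ∧ ∀ k, GT om pos (up d r fun a => pos a ∧ Pu om k a) :=
  ⟨g.up hr h.live fun _ _ _ _ _ _ z y => by tauto, fun k => g.up hr (fun a y => h.live a y.1)
    fun _ _ _ u _ _ z y => by have := h.hm_pu u y.2; tauto⟩

omit [Fintype κ] in
theorem cp_dep (t : ℝ × ℝ) : Cp om pos (dep om t) := fun a e u _ => by simp only [dep, u, le_refl]

omit [Fintype κ] in
theorem Cp.sup (h : Cp om pos d) (h' : Cp om pos d') : Cp om pos (d ⊔ d') := fun a e u v =>
  sup_le_sup (h a e u v) (h' a e u v)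

theorem WK.cp_dY (h : WK om pos) {K ρ : ℝ} (h0 : 0 ≤ ρ) (h1 : ρ ≤ K) :
    Cp om pos (dY om pos K ρ) := fun a e u v => by
  by_cases p : pos e
  · have q : pos a := v.resolve_right (not_not.2 p)
    simp only [dY, dF, PP, CC, Mx, tt, p, q, u, le_refl]
  · unfold dY; rw [dF_st p]; exact (h.gt_dY h0 h1).nn a

theorem WK.wn_dg (h : WK om pos) {ρ w : ℝ} (h0 : 0 ≤ ρ) (h1 : 0 < w) (h2 : ρ + w ≤ 1) :
    Wn om pos (dg om ρ) ρ w :=
  ⟨div_nonneg h0 h.sg_pos.le, div_nonneg h0 h.sg_pos.le, h1, h0, h2, fun a _ => dep_dg ρ a,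
    fun a _ => by rw [dep_dg]; nlinarith [h.tt_lt a, h.tt_nn a]⟩

omit [Fintype κ] in
theorem sc_zero (m : ℕ) : sc m (0 : κ → ℝ) = 0 := funext fun _ => by simp [sc]

end Wt

section Seq

variable {ι κ : Type} [Fintype ι] [DecidableEq ι] [Fintype κ] {Φ : Filt (Mt ι)}
  {om : κ → ℝ × ℝ} {pos : κ → Prop} {x : ℕ → Sy ι κ}

theorem wk (h : G0 Φ om pos x) : WK om pos := ⟨h.alg.wt, h.alg.live⟩

omit [Fintype ι] [DecidableEq ι] [Fintype κ] in
theorem apx_sc (x : ℕ → Sy ι κ) (d : κ → ℝ) : Apx x (fun n => sc (x n).M d) d := fun _ =>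
  ⟨Le.of_ev (Eventually.of_forall fun _ => le_rfl), Le.of_ev (Eventually.of_forall fun _ => le_rfl)⟩

/-- Comparison of rates. -/
theorem le_of_rate {M : ℕ → ℕ} (hM : Big M) {a b : ℝ}
    (h : Le M (fun n => a * M n) fun n => b * M n) : a ≤ b :=
  le_of_forall_pos_le_add fun ε hε => by
    obtain ⟨n, u, v⟩ := ((h ε hε).and (hM.ev 1)).exists
    have : a * M n ≤ (b + ε) * M n := by linarith
    exact le_of_mul_le_mul_right this (by linarith)

theorem rate_le {M : ℕ → ℕ} {a b : ℝ} (h : a ≤ b) : Le M (fun n => a * M n) fun n => b * M n :=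
  Le.of_ev (Eventually.of_forall fun _ => mul_le_mul_of_nonneg_right h (Nat.cast_nonneg _))

end Seq

end Pool.Agent.MP_5168f5_an.AN.TG.TA
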