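import Pool.Agent.MP_5168f5_an.AN.TPSpec
import Pool.Agent.MP_5168f5_an.AN.TGAll
import Pool.Agent.MP_5168f5_an.AN.TAApi
import Pool.Agent.MP_5168f5_an.QA.HApi

/-! Kakeya sets in all dimensions: change of basis for systems with a marked index. -/

namespace Pool.Agent.MP_5168f5_an.AN.TG.TP

open H19 H17S H17F G39 GA Filter H61Z Matrix TGBasA TGSideA

namespace TPBasA

variable {ι κ : Type} [Fintype ι] [DecidableEq ι] [Fintype κ] [DecidableEq κ] {Φ : Filt (Mt ι)}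
  {om : κ → ℝ × ℝ} {pos : κ → Prop} {x : ℕ → Sy ι κ} {d d' : κ → ℝ} {A A' : ℕ → Matrix κ κ ℝ}
  {t : κ}

/-- The depth is good in both bases and the change of basis respects it. -/
structure Ok (x : ℕ → Sy ι κ) (A A' : ℕ → Matrix κ κ ℝ) (d : κ → ℝ) : Prop where
  bd : ∃ L, Sub (un x) L ∧ ∀ n a e, |nm (rA (sc (x n).M d)) (A n) a e| ≤ L n ∧
    |nm (rA (sc (x n).M d)) (A' n) a e| ≤ L n
  g : Gd x fun n => sc (x n).M d
  g' : Gd (fun n => (x n).bas (A n) (A' n)) fun n => sc (x n).M d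

theorem two (g : G0 Φ om pos x) (g' : G0 Φ om pos fun n => (x n).bas (A n) (A' n))
    (h1 : ∀ᶠ n in UF, A n * A' n = 1) (o : Ok x A A' d) :
    Sm (un x) (fun n => ch (x n).P ((x n).C (sc (x n).M d))
      (((x n).bas (A n) (A' n)).C (sc (x n).M d))) ∧ Sm (un x) fun n => ch (x n).P
      (((x n).bas (A n) (A' n)).C (sc (x n).M d)) ((x n).C (sc (x n).M d)) := by
  have hM := g.alg.big
  obtain ⟨L, s, h⟩ := o.bd
  have s' := ((hM.sub (show (1 : ℝ) ≤ Fintype.card κ + 1 by simp)).mul (hM.sub le_rfl)).mul s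
  have p : ∀ (D : κ → ℝ) a, 0 < rA D a := fun _ _ => Real.exp_pos _
  refine ⟨sw hM g.alg.fr g'.alg.fr g.unit o.g s' (h1.mono fun n e y z q =>
    nr Φ e (p _) zero_le_one (s.pos n).le (fun a e => (h n a e).1) q),
    sw hM g'.alg.fr g.alg.fr g.unit o.g' s' (h1.mono fun n e y z q =>
      nr Φ (mul_eq_one_comm.1 e) (p _) zero_le_one (s.pos n).le (fun a e => (h n a e).2) ?_)⟩
  rwa [((sFr ι κ Φ _ fun _ _ _ => 0).2 _ _ e).2.1]

theorem eqH (g : G0 Φ om pos x) (g' : G0 Φ om pos fun n => (x n).bas (A n) (A' n))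
    (h1 : ∀ᶠ n in UF, A n * A' n = 1) (o : Ok x A A' d) (o' : Ok x A A' d') :
    Le (un x) (fun n => (x n).H (sc (x n).M d) (sc (x n).M d'))
      (fun n => ((x n).bas (A n) (A' n)).H (sc (x n).M d) (sc (x n).M d')) ∧
    Le (un x) (fun n => ((x n).bas (A n) (A' n)).H (sc (x n).M d) (sc (x n).M d'))
      fun n => (x n).H (sc (x n).M d) (sc (x n).M d') :=
  ⟨Le.of2 (two g g' h1 o').1 (two g g' h1 o).2 (Eventually.of_forall fun n => by
      linarith [(triH (x n) (A n) (A' n) (sc (x n).M d) (sc (x n).M d')).1]),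
    Le.of2 (two g g' h1 o').2 (two g g' h1 o).1 (Eventually.of_forall fun n => by
      linarith [(triH (x n) (A n) (A' n) (sc (x n).M d) (sc (x n).M d')).2])⟩

theorem nt (g : G0 Φ om pos x) (h : ∀ a b, Neg (un x) fun n => (x n).c a b t)
    (hA : ∀ a e, OB (un x) (fun n => A n a e) ∧ OB (un x) fun n => A' n a e)
    (ht : ∀ a, a ≠ t → Neg (un x) fun n => A' n a t) (a b : κ) :
    Neg (un x) fun n => mC (A n) (A' n) (x n).c a b t := by
  have hM := g.alg.big
  refine Neg.sum hM Finset.univ (f := fun e n =>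
    (∑ a', ∑ b', (x n).c a' b' e * A n a a' * A n b b') * A' n e t) fun e _ => ?_
  by_cases q : e = t
  · subst q
    exact (Neg.sum hM _ fun a' _ => Neg.sum hM _ fun b' _ =>
      ((h a' b').mul (hA a a').1).mul (hA b b').1).mul (hA e e).2
  · exact (ht e q).mul' (ob_sum hM _ fun a' _ => ob_sum hM _ fun b' _ =>
      ob_mul hM (ob_mul hM (g.alg.ob a' b' e) (hA a a').1) (hA b b').1)

omit [DecidableEq κ] in
theorem gdU (g : G0 Φ om pos x) (k : Bool) {s : ℝ} (hs : 0 ≤ s) :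
    Gd x fun n => sc (x n).M (TA.dU om k s) := by
  have W := TA.wk g
  have G := W.gt_dU k hs
  refine (sGd _ _ Φ om pos x g).1 _ ((sGood _ _ _ Φ om pos _ _ g.alg).1 _ _
    (fun a => ⟨G.nn a, G.nn a⟩) G.dead fun a b e u => ?_)
  by_cases v : Pu om k e
  · rw [TA.dU_pos v, TA.dU_pos (W.hm_pu u v).1, TA.dU_pos (W.hm_pu u v).2, u.2.2, Prod.fst_add,
      Prod.snd_add]
    linarith
  · rw [TA.dU_neg v]; exact add_nonneg (G.nn a) (G.nn b)

omit [DecidableEq κ] in
theorem gdT (g : G0 Φ om pos x) (h : ∀ a b, Neg (un x) fun n => (x n).c a b t) {K : ℝ}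
    (hK : 0 ≤ K) : Gd x fun n => sc (x n).M (up 0 K fun a => a = t) := by
  refine (sGd _ _ Φ om pos x g).1 _ fun a b e u => ?_
  by_cases q : e = t
  · exact q ▸ h a b
  · simp only [up, if_neg q, Pi.zero_apply] at u
    split_ifs at u <;> linarith

omit [DecidableEq κ] in
theorem gdP (g : G0 Φ om pos x) {r : ℝ} (hr : 0 ≤ r) :
    Gd x fun n => sc (x n).M (up (dep om (0, 0)) r pos) := by
  simp only [sc_up, sc_dep]
  exact ((sGd _ _ Φ om pos x g).2 _ (fun n => r * (x n).M) (lv (t := (0, 0)) le_rfl le_rfl)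
    ⟨r, Eventually.of_forall fun n => ⟨by positivity, le_rfl⟩⟩).2.1

theorem off {f : κ → ℝ} {u : ℝ} (hu : 0 ≤ u) (h : ∀ a, a ≠ t → |f a| ≤ u) :
    |∑ a, f a - f t| ≤ Fintype.card κ * u := by
  rw [show ∑ a, f a - f t = ∑ a, (f a - if a = t then f t else 0) by
    rw [Finset.sum_sub_distrib, Finset.sum_ite_eq', if_pos (Finset.mem_univ t)]]
  refine sb le_rfl hu fun a => ?_
  split_ifs with q
  · rwa [q, sub_self, abs_zero]
  · rw [sub_zero]; exact h a q

theorem fin {B : κ → Mt ι} {c : κ → κ → κ → ℝ} {A A' : Matrix κ κ ℝ} {r : κ → ℝ} {L τ : ℝ}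
    {y z : Mt ι} (f : IsFr Φ B c) (h : A * A' = 1) (p : ∀ a, 0 < r a) (u : IsUnit z)
    (q : Nr B r L y z) (h0 : 0 ≤ L * τ) (n : ∀ a, a ≠ t → |nm r A' a t| ≤ τ) :
    |lg (mB A B) y z t / r t - A' t t * (lg B y z t / r t)| ≤ Fintype.card κ * (L * τ) := by
  have F := (sFr ι κ Φ B c).2 A A' h
  have co := coo (L := L) (y := y) (F.1 f) (mul_eq_one_comm.1 h) p u (by rwa [F.2.1])
  rw [F.2.1] at co
  have := off (f := fun a => lg B y z a / r a * nm r A' a t) h0 fun a e => am (co.1 a) (n a e)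
  rwa [nm, mul_div_cancel_right₀ _ (p t).ne', mul_comm _ (A' t t), ← dotProduct, ← vecMul,
    ← co.2 t] at this

theorem hta (g : G0 Φ om pos x) (g' : G0 Φ om pos fun n => (x n).bas (A n) (A' n))
    (h1 : ∀ᶠ n in UF, A n * A' n = 1) (o : Ok x A A' d)
    (h0 : ∀ a b, Neg (un x) fun n => (x n).c a b t) (hA : ∀ a e, OB (un x) fun n => A n a e)
    (ht : ∀ a, a ≠ t → Neg (un x) fun n => A' n a t) {k : ℕ} {r : ℝ} {s : ℕ → ℝ}
    (h : HtA x t k (fun n => sc (x n).M d) (fun n => r * (x n).M) s) :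
    HtA (fun n => (x n).bas (A n) (A' n)) t k (fun n => sc (x n).M d) (fun n => r * (x n).M) s := by
  have hM := g.alg.big
  obtain ⟨L, sL, hL⟩ := o.bd
  obtain ⟨L1, s1, i⟩ := id o.g
  obtain ⟨K, k1, hN⟩ := sNr Φ.N (Fintype.card κ)
  obtain ⟨K', -, hC⟩ := sCell Φ.N (Fintype.card κ)
  have sc1 := hM.sub (show (1 : ℝ) ≤ Fintype.card κ + 1 by simp)
  have s0 := (sc1.mul (hM.sub le_rfl)).mul sL
  have s2 := s1.mul s0
  have s3 := sub_box hM s2 k1
  have p : ∀ (D : κ → ℝ) a, 0 < rA D a := fun _ _ => Real.exp_pos _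
  obtain ⟨L', s', hl⟩ := sLip _ _ Φ om pos x g _ _ o.g ⟨∑ a, |d a|,
    Eventually.of_forall fun n a => by
      rw [sc, abs_mul, Nat.abs_cast]
      exact mul_le_mul_of_nonneg_right (Finset.single_le_sum (f := fun a => |d a|)
        (fun _ _ => abs_nonneg _) (Finset.mem_univ a)) (Nat.cast_nonneg _)⟩ s3
  have e1 : ∀ᶠ n in UF, ∀ a b, |sC (rA (sc (x n).M d)) (x n).c a b t| ≤ dl (un x) r n :=
    eventually_all.2 fun a => eventually_all.2 fun b => ((h0 a b).mul_exp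
      (v := fun n => rA (sc (x n).M d) a * rA (sc (x n).M d) b / rA (sc (x n).M d) t)
      (C := d t - d a - d b) (Eventually.of_forall fun n => by
        rw [rA, rA, rA, ← Real.exp_add, ← Real.exp_sub, Real.abs_exp, sc, sc, sc]
        exact le_of_eq (by congr 1; ring))).congr
      (Eventually.of_forall fun n => by rw [sC]; ring) r
  have e2 : ∀ᶠ n in UF, ∀ a, a ≠ t → |nm (rA (sc (x n).M d)) (A' n) a t| ≤ dl (un x) r n :=
    eventually_all.2 fun a => eventually_all.2 fun q => nm_neg (ht a q) r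
  have e3 : ∀ᶠ n in UF, ∀ a, a ≠ t → |A n t a * A' n a t| ≤ dl (un x) 1 n :=
    eventually_all.2 fun a => eventually_all.2 fun q => (ht a q).mul' (hA t a) 1
  refine QA.HT1.coarse (QA.HT1.aff (QA.HT1.side h hM
    (K' := fun n => ((x n).bas (A n) (A' n)).C (sc (x n).M d)) ((two g g' h1 o).2.mono
      (Eventually.of_forall fun n => ch_anti (Fn.fst _ _)))) hM
    (((sL.const_mul hM one_le_two).add (sc1.mul s3) hM).add (sL.mul s') hM)
    (c := fun n _ => A' n t t) (b := fun n ω => -(A' n t t * (Real.exp (r * (x n).M) *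
      (lg (x n).B ((x n).C (sc (x n).M d) ω) (((x n).bas (A n) (A' n)).C (sc (x n).M d) ω) t /
        rA (sc (x n).M d) t)))) ?_)
    (Eventually.of_forall fun n a _ b _ e => Prod.ext (congrArg (·.1) e) (congrArg (·.2.2) e))
  filter_upwards [h1, g.alg.fr, g'.alg.fr, g.unit, i, hl 0, e1, e2, e3,
    big_dl hM (2 * Fintype.card κ) one_pos] with n e f f' u i hl e1 e2 e3 e4
  refine ⟨fun _ _ _ _ _ => rfl, fun a _ b _ q => ?_, fun ω hω => ?_⟩
  · beta_reduce
    rw [show (x n).C (sc (x n).M d) a = (x n).C (sc (x n).M d) b from congrArg (·.2.1) q,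
      show ((x n).bas (A n) (A' n)).C (sc (x n).M d) a =
        ((x n).bas (A n) (A' n)).C (sc (x n).M d) b from congrArg (·.1) q]
  have l0 := sL.pos n
  have l' := s'.pos n
  have l3 := s3.pos n
  have c0 := Nat.cast_nonneg (α := ℝ) (Fintype.card κ)
  have dg : ∀ B : Matrix κ κ ℝ, nm (rA (sc (x n).M d)) B t t = B t t := fun B =>
    mul_div_cancel_right₀ _ (p _ t).ne'
  have b1 : |A n t t| ≤ L n := dg (A n) ▸ (hL n t t).1
  have b2 : |A' n t t| ≤ L n := dg (A' n) ▸ (hL n t t).2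
  have lo : 1 ≤ 2 * L n * |A' n t t| := by
    have a1 := off (f := fun a => A n t a * A' n a t) (dl_pos _ _ _).le e3
    rw [← mul_apply, e, one_apply_eq] at a1
    have a2 := abs_sub_abs_le_abs_sub 1 (A n t t * A' n t t)
    rw [← one_div, le_div_iff₀ (dl_pos _ _ _)] at e4
    rw [abs_one, abs_mul] at a2
    nlinarith [mul_le_mul_of_nonneg_right b1 (abs_nonneg (A' n t t))]
  have cl : ∀ {B c}, IsFr Φ B c → ∀ z, Nr B (rA (sc (x n).M d)) 1 (cell B _ z) z := fun f =>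
    (hC ι κ Φ _ _ _ _ 1 rfl le_rfl f le_rfl fun a => ⟨p _ a, (one_mul _).ge⟩).1
  have up : ∀ {L₁ L₂ y z}, L₁ ≤ L₂ → Nr (x n).B (rA (sc (x n).M d)) L₁ y z →
      Nr (x n).B (rA (sc (x n).M d)) L₂ y z := fun a q =>
    GACntA.nr_mono q fun b => mul_le_mul_of_nonneg_right a (p _ b).le
  have q1 := up (le_mul_of_one_le_left (s0.pos n).le (s1.1 n)) (nr Φ e (p _) zero_le_one l0.le
    (fun a e => (hL n a e).1) (cl f' ((x n).j ω)))
  have i' := GACntA.idl_mono i.2.1 (p _) (le_mul_of_one_le_right (s1.pos n).le (s0.1 n))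
  have N := fun a b c => hN ι κ Φ _ _ _ _ _ 0 a b c rfl le_rfl f (s2.1 n) le_rfl
    (fun a => ⟨(p _ a).le, (p _ a).le⟩) i' i'
  have q2 := (N _ _ _).2.1 (up (s2.1 n) (cl f ((x n).j ω))) ((N _ _ 0).1 q1)
  have q3 := up (GACntA.le_box k1 (s2.1 n)) q1
  have a1 := (hl _ _ _ (GACntA.nr_unit (cl f _) (u ω hω)) q2 q3).2 (Pi.single t 1) _
    (dl_pos _ _ _).le (fun a => by rw [Pi.single_apply]; split_ifs <;> simp)
    fun a b => by simpa [Pi.single_apply] using e1 a b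
  simp only [Pi.single_apply, ite_mul, one_mul, zero_mul, Finset.sum_ite_eq', Finset.mem_univ,
    if_true] at a1
  have a2 := fin f e (p _) (u ω hω) q3 (mul_pos l3 (dl_pos _ _ _)).le e2
  have a3 := abs_sub _ _ |>.trans (add_le_add a2 (am b2 a1))
  have a4 := mul_le_mul_of_nonneg_left a3 (Real.exp_pos (r * (x n).M)).le
  have a5 : Real.exp (r * (x n).M) * dl (un x) r n = 1 := by
    rw [dl, ← Real.exp_add, add_neg_cancel, Real.exp_zero]
  refine ⟨lo.trans (mul_le_mul_of_nonneg_right (by nlinarith) (abs_nonneg _)),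
    b2.trans (by nlinarith), le_trans (le_of_eq ?_) (a4.trans ?_)⟩
  · rw [← abs_of_pos (Real.exp_pos (r * (x n).M)), ← abs_mul, abs_of_pos (Real.exp_pos _)]
    congr 1
    simp only [tX, Sy.co, Sy.C]
    ring
  · generalize (K * (L1 n * ((Fintype.card κ + 1) * 1 * L n))) ^ K = L3 at l3 ⊢
    have : Real.exp (r * (x n).M) * (Fintype.card κ * (L3 * dl (un x) r n) +
        L n * (L' n * dl (un x) r n)) = Fintype.card κ * L3 + L n * L' n := by
      linear_combination (Fintype.card κ * L3 + L n * L' n) * a5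
    linarith

end TPBasA

open TPBasA in
theorem tpBas : SBasP := by
  intro ι κ _ _ _ Φ om pos t kf C p _ A A' h h1 hA hz ht
  have g := h.p0.toG0
  have g' : G0 Φ om pos fun n => (ys p n).bas (A n) (A' n) :=
    ⟨sChg _ _ _ Φ om pos _ _ A A' g.alg h1 hA hz, g.unit⟩
  have u : G0 Φ om pos (us p) := ⟨g.alg, g.unit⟩
  have u' : G0 Φ om pos fun n => (us p n).bas (A n) (A' n) := ⟨g'.alg, g'.unit⟩
  have hM := g.alg.big
  have n' := nt g h.p0.nt hA fun a e => (ht a e).2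
  have z : dep om (0, 0) = 0 := funext fun a => by simp [dep]
  have o1 : ∀ {v : ℝ × ℝ}, 0 ≤ v.1 → 0 ≤ v.2 → Ok (ys p) A A' (dep om v) := fun a b =>
    ⟨bd hM (cp _ le_rfl).1 hA hz, (gd sGd g a b le_rfl).1, (gd sGd g' a b le_rfl).1⟩
  have o0 : Ok (ys p) A A' 0 := z ▸ o1 le_rfl le_rfl
  have ou : ∀ {d}, Ok (ys p) A A' d → Ok (us p) A A' d := fun o => ⟨o.bd, o.g, o.g'⟩
  refine ⟨⟨⟨g', h.p0.tp, h.p0.tk, n'⟩, (sBas _ _ Φ om (fun _ => False) (us p) C A A' h.ac h1 hA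
    fun a e q => hz a e (Or.inl (q.resolve_right fun w => w.2))).1,
    ⟨fun K hK => ?_, fun k v r a b hr => ?_, fun k s R q hs hR => ?_⟩, fun i v r a b hr =>
      hta u u' h1 (ou (o1 a b)) h.p0.nt (fun a e => (hA a e).1) (fun a e => (ht a e).2)
        (h.hp i v r a b hr)⟩, fun F r hr => ?_⟩
  · refine (eqH g g' h1 o0 ⟨bd (om := 0) (pos := fun a => a = t) hM (fun a e q => ?_) hA
      fun a e q => ?_, gdT g h.p0.nt hK, gdT g' n' hK⟩).2.trans (h.ep.det K hK)
    · simp only [up, Pi.zero_apply]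
      split_ifs <;> first | tauto | linarith
    · obtain ⟨a1, rfl⟩ := q.resolve_left fun w => w rfl
      exact ht a a1
  · exact (h.ep.f k v r a b hr).trans (eqH g g' h1 (o1 a b) ⟨bd hM ((cp v hr).2.2 k) hA hz,
      (gd sGd g a b hr).2 k, (gd sGd g' a b hr).2 k⟩).1
  · have o2 : Ok (ys p) A A' (TA.dU om k s) := ⟨bd hM (fun a e w => by
      have w1 : om a = om e := not_not.1 fun y => w (Or.inl y)
      by_cases y : Pu om k e
      · rw [TA.dU_pos y, TA.dU_pos ((pu w1).2 y), w1]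
      · rw [TA.dU_neg y, TA.dU_neg fun y' => y ((pu w1).1 y')]) hA hz, gdU g k hs, gdU g' k hs⟩
    have o3 : Ok (ys p) A A' (dep om (lw k s R)) := by
      cases k
      exacts [o1 hR hs, o1 hs hR]
    exact ((eqH u u' h1 (ou o2) (ou o3)).2.trans (h.ep.ind k s R q hs hR)).trans
      (eqH g g' h1 o2 o3).1
  · have o2 : Ok (ys p) A A' (up (dep om (0, 0)) r pos) :=
      ⟨bd hM (cp (0, 0) hr).2.1 hA hz, gdP g hr, gdP g' hr⟩
    rw [z] at o2
    exact (F r hr).trans (eqH g g' h1 o0 o2).2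

end Pool.Agent.MP_5168f5_an.AN.TG.TP
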