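import Pool.Agent.MP_5168f5_an.AN.TAApi

/-! Kakeya sets in all dimensions: the hypotheses on a system depend only on the law. -/

namespace Pool.Agent.MP_5168f5_an.AN.TG.TA

open H19 H17S H17F G39 GA TL Filter H61Z
open R4 (Eqv)
open R4.K31 (DnS)
open TB (flG NGG Tm)

namespace SPushA

variable {ι κ : Type} [Fintype ι] [DecidableEq ι] [Fintype κ]

theorem ac_push (x : Sy ι κ) {W W' : Type} {Q : FP W} {π : W → x.Ω} {Q' : FP W'} {π' : W' → x.Ω}
    (e : Law Q π Q' π') {D : κ → ℝ} {S : κ → Prop} {η ρ q : ℝ} (h : (x.pull Q π).AC D S η ρ q) :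
    (x.pull Q' π').AC D S η ρ q := by
  intro V β R u b l c0 hl ht hm
  have e1 : Law R (fun w => π' (u w)) Q π := (hl.comp π').trans e.symm
  have f := R4.kg.fst R Q (fun w => π' (u w)) π
  have g : Law (glue R Q (fun w => π' (u w)) π) (fun v => (b v.1, π v.2)) R
      fun w => (b w, π' (u w)) :=
    (f.comp fun w => (b w, π' (u w))).ext fun v hv => by
      rw [((R4.kg.mem _ _ _ _ v e1).1 hv).2.2]
  refine (g.pb_eq fun z => |∑ a, l z.1 a * x.co D (x.C D z.2) z.2 a - c0 z.1| ≤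
    Real.exp (-η)).ge.trans (h (V × W) β _ Prod.snd (fun v => b v.1) l c0 (R4.kg.snd _ _ _ _ e1)
      (fun v hv => ht _ (f.mem hv)) (le_trans (le_of_eq ?_) hm))
  exact congrArg₂ (· - ·) (g.ch_eq Prod.fst fun z => x.Z D z.2)
    (g.ch_eq Prod.fst fun z => (x.j z.2, x.Z D z.2))

end SPushA

theorem rowSPush : SPush := by
  intro ι κ _ _ _ Φ om pos x C W W' Q π Q' π' e h
  refine ⟨⟨h.alg, ?_⟩, h.one, fun k t r a b c => ?_, fun k t η ρ a b c d ε hε => ?_⟩
  · filter_upwards [h.unit, e] with n u v ω hω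
    obtain ⟨y, hy, g⟩ := v.symm.ex hω
    exact g ▸ u y hy
  · exact (h.f k t r a b c).trans (Le.of_ev (e.mono fun n v => (v.ch_eq ((x n).C _) ((x n).Z _)).le))
  · filter_upwards [h.ac k t η ρ a b c d ε hε, e] with n u v
    exact SPushA.ac_push (x n) v u

end Pool.Agent.MP_5168f5_an.AN.TG.TA
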