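import Pool.Agent.MP_5168f5_an.AN.TPSpec
import Pool.Agent.MP_5168f5_an.AN.TGAll
import Pool.Agent.MP_5168f5_an.AN.TASPush
import Pool.Agent.MP_5168f5_an.QA.HApi

/-! Marked systems: countable description and invariance under the law. -/

namespace Pool.Agent.MP_5168f5_an.AN.TG.TP

open H19 H17S H17F G39 GA Filter H61Z QA

namespace TPCFA

variable {Ω Ω' α T : Type} {P : FP Ω} {Q : FP Ω'} {f : Ω → α} {g : Ω' → α}

theorem law_cv (h : Law P f Q g) (K : α → T) {v : Ω'} (hv : v ∈ Q.S) (E : α → Prop) :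
    pb (cv P (fun u => K (f u)) (K (g v))) (fun u => E (f u)) =
      pb (cv Q (fun u => K (g u)) (K (g v))) fun u => E (g u) := by
  refine mul_left_cancel₀ (pb_pos Q (E := fun u => K (g u) = K (g v)) ⟨v, hv, rfl⟩).ne' ?_
  rw [cv, cv, pb_cE, ← h.pb_eq fun z => K z = K (g v), pb_cE]
  exact h.pb_eq fun z => K z = K (g v) ∧ E z

theorem ht_law (h : Law P f Q g) {k : ℕ} {X : α → ℝ} {K : α → T} {ε B : ℝ}
    (a : Ht k P (fun u => X (f u)) (fun u => K (f u)) ε B) :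
    Ht k Q (fun u => X (g u)) (fun u => K (g u)) (2 * ε) (2 ^ 2 ^ k * B) := by
  obtain ⟨G, a, b⟩ := a
  obtain ⟨G', c, d⟩ := half P (fun u => ⌊X (f u)⌋) (fun u => K (f u)) G
  let E : α → Prop := fun z => pb (cv P (fun u => K (f u)) (K z)) (fun u => ⌊X (f u)⌋ = ⌊X z⌋) ≤
    2 * pb (cv P (fun u => K (f u)) (K z)) fun u => G u ∧ ⌊X (f u)⌋ = ⌊X z⌋
  refine ⟨fun v => E (g v), ((h.pb_eq fun z => ¬E z).ge.trans
    (pb_mono fun u hu x y => x (d u hu y))).trans (by linarith), fun v hv => ?_⟩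
  obtain ⟨ω, hω, e⟩ := h.symm.ex hv
  refine (b ω hω).le (nn_sl _ _ _) (nn_sl _ _ _) zero_le_two fun y => ?_
  simp only [sl_coeff, e]
  refine le_of_not_gt fun q => ?_
  obtain ⟨u, hu, g1, g2⟩ := ex_of_pb ((mul_nonneg zero_le_two (pb_nonneg _ _)).trans_lt q)
  simp only [E, g2, ((MX.mem_cv (Θ := fun u => K (g u)) hv u).1 hu).2] at g1
  rw [law_cv h K hv fun z => ⌊X z⌋ = y] at g1
  exact absurd (q.trans_le (pb_mono fun _ _ w => w.2)) (not_lt.2 g1)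

end TPCFA

open TPCFA in
theorem tpPush : SPushP := by
  intro ι κ _ _ _ Φ om pos t kf C p W W' Q π Q' π' e h
  have a := TA.rowSPush ι κ Φ om _ (us p) C W W' Q π Q' π' e h.ac
  refine ⟨⟨⟨h.p0.alg, a.unit⟩, h.p0.tp, h.p0.tk, h.p0.nt⟩, a, ⟨fun K u => (h.ep.det K u).mono
    (e.mono fun n v => (v.ch_eq ((p n).y.C _) ((p n).y.Z _)).ge), fun k v r x y z =>
    (h.ep.f k v r x y z).trans (Le.of_ev (e.mono fun n v =>
      (v.ch_eq ((p n).y.C _) ((p n).y.Z _)).le)), fun k s R x y z => (h.ep.ind k s R x y z).congr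
    (e.mono fun n v => (v.ch_eq ((p n).u.C _) ((p n).u.Z _)).symm)
    (e.mono fun n v => (v.ch_eq ((p n).y.C _) ((p n).y.Z _)).symm)⟩, fun i v r x y z => ?_⟩
  refine (h.hp i v r x y z).tr zero_le_two fun η hη => ?_
  filter_upwards [e, big_exp h.p0.alg.big (2 ^ 2 ^ kf i) hη] with n l b ε B k
  exact (ht_law l (X := tX (p n).u t _ _) (K := (p n).u.Z _) k).mono (by linarith)
    (mul_le_mul_of_nonneg_right b k.nonneg)

theorem tpPull : SPullP := fun ι κ _ _ _ Φ om pos t kf C p h W Q π e =>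
  tpPush ι κ Φ om pos t kf C p _ W (pr (ys p)) (fun _ => id) Q π (e.mono fun _ a => a.symm) h

open TGCFA R4 in
theorem tpCF : OfCFP := by
  intro hE hH ι κ _ _ _ Φ om pos t kf C p0
  have h1 := (sCF0 ι κ Φ om pos (ys p0)).comp (S' := fun _ => Sp ι κ) fun _ p => p.y
  have h2 := (sCF ι κ Φ om (fun _ => False) (ys p0) C).comp (S' := fun _ => Sp ι κ) fun _ p => p.u
  have h3 : CF fun p : ℕ → Sp ι κ => ∀ a b, Neg (un (ys p)) fun n => (p n).y.c a b t :=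
    cf_all fun a => cf_all fun b =>
      TGCF0A.cf_neg (S := fun _ => Sp ι κ) (fun _ p => p.y.M) fun _ p => p.y.c a b t
  have h4 : CF fun p : ℕ → Sp ι κ => ∀ K : ℚ, 0 ≤ K → DetAt (ys p) t K :=
    cf_all fun K => imp _ (cf_sm (S := fun _ => Sp ι κ) (fun _ p => p.y.M)
      fun _ p => p.y.H (sc p.y.M 0) (sc p.y.M (up 0 K fun a => a = t)))
  have h5 : CF fun p : ℕ → Sp ι κ => ∀ (k : Bool) (v : ℚ × ℚ) (r : ℚ), 0 ≤ v.1 → 0 ≤ v.2 → 0 ≤ r →
      FullM (ys p) t (dep om (v.1, v.2)) (fun a => pos a ∧ Pu om k a) r :=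
    cf_all fun k => cf_all fun v => cf_all fun r => imp _ (imp _ (imp _
      (cf_le (S := fun _ => Sp ι κ) (fun _ p => p.y.M)
        (fun _ p => cd (fun a => (pos a ∧ Pu om k a) ∧ a ≠ t) * r * p.y.M) fun _ p =>
          p.y.H (sc p.y.M (dep om (v.1, v.2)))
            (sc p.y.M (up (dep om (v.1, v.2)) r fun a => pos a ∧ Pu om k a)))))
  have h6 : CF fun p : ℕ → Sp ι κ => ∀ (k : Bool) (s R : ℚ), Pu om k t → 0 ≤ s → 0 ≤ R →
      IndAt p (TA.dU om k s) (dep om (lw k s R)) :=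
    cf_all fun k => cf_all fun s => cf_all fun R => imp _ (imp _ (imp _
      (cf_le (S := fun _ => Sp ι κ) (fun _ p => p.y.M)
        (fun _ p => p.u.H (sc p.y.M (TA.dU om k s)) (sc p.y.M (dep om (lw k s R)))) fun _ p =>
          p.y.H (sc p.y.M (TA.dU om k s)) (sc p.y.M (dep om (lw k s R))))))
  have h7 : CF fun p : ℕ → Sp ι κ => HPq om t kf (us p) :=
    cf_all fun i => cf_all fun v => cf_all fun r => imp _ (imp _ (imp _
      (HT1.cf (S := fun _ => Sp ι κ) (kf i) (fun _ p => p.y.P)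
        (fun _ p => tX p.u t (sc p.y.M (dep om (v.1, v.2))) (r * p.y.M))
        (fun _ p => p.u.Z (sc p.y.M (dep om (v.1, v.2)))) (fun _ p => p.y.M)
        fun _ p => (1 - 1 / (i + 1 : ℝ)) * r * p.y.M)))
  refine (h1.and ((cf_const (pos t ∧ ¬Mx om t)).and (h3.and (h2.and (h4.and (h5.and
    (h6.and h7))))))).congr fun p => ⟨fun h => ⟨h.p0.toG0, ⟨h.p0.tp, h.p0.tk⟩, h.p0.nt, h.ac,
      fun K a => h.ep.det K (Rat.cast_nonneg.2 a), fun k v r a b c => h.ep.f k (v.1, v.2) r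
        (Rat.cast_nonneg.2 a) (Rat.cast_nonneg.2 b) (Rat.cast_nonneg.2 c),
      fun k s R a b c => h.ep.ind k s R a (Rat.cast_nonneg.2 b) (Rat.cast_nonneg.2 c),
      fun i v r a b c => h.hp i (v.1, v.2) r (Rat.cast_nonneg.2 a) (Rat.cast_nonneg.2 b)
        (Rat.cast_nonneg.2 c)⟩, fun ⟨a, b, c, d, e, f, g, h⟩ => ?_⟩
  exact ⟨⟨a, b.1, b.2, c⟩, d, hE ι κ Φ om pos t kf C p ⟨a, b.1, b.2, c⟩ ⟨e, f, g⟩,
    hH ι κ Φ om pos (us p) t kf ⟨⟨a.alg, a.unit⟩, b.1, b.2, c⟩ h⟩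

end Pool.Agent.MP_5168f5_an.AN.TG.TP
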