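import Pool.Agent.MP_5168f5_an.AN.TPSpec
import Pool.Agent.MP_5168f5_an.AN.TGCond
import Pool.Agent.MP_5168f5_an.AN.TGMix
import Pool.Agent.MP_5168f5_an.AN.TGMono
import Pool.Agent.MP_5168f5_an.AN.TGRef
import Pool.Agent.MP_5168f5_an.AN.TGJoin
import Pool.Agent.MP_5168f5_an.QA.HApi

/-! Conditioning a marked system on an event. -/

namespace Pool.Agent.MP_5168f5_an.AN.TG.TP

open H19 H17S H17F G39 GA Filter H61Z

namespace TPCondA

section Ent

variable {Ω α β γ : ℕ → Type} {P : ∀ n, FP (Ω n)} {E : ∀ n, Ω n → Prop} {F : ∀ n, Ω n → α n}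
  {G : ∀ n, Ω n → β n} {G' : ∀ n, Ω n → γ n} {M : ℕ → ℕ}

theorem sm_cE (hE : Pos P E) (h : Sm M fun n => ch (P n) (F n) (G n)) :
    Sm M fun n => ch (cE (P n) (E n)) (F n) (G n) := by
  obtain ⟨q, q0, hq⟩ := hE
  refine Le.of_mul q0 hq (h.of_sub (Eventually.of_forall fun n => ?_))
  have := R4.ke.ge (P n) (E n) (F n) (G n)
  have := mul_nonneg (sub_nonneg.2 (pb_le_one (P n) (E n)))
    (ch_nonneg (P := cE (P n) fun ω => ¬E n ω) (F n) (G n))
  linarith

theorem ind_cE (hM : Big M) (hE : Pos P E) (f : ∀ n, Fn (P n) (G n) (G' n))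
    (h : Le M (fun n => ch (P n) (F n) (G n)) fun n => ch (P n) (F n) (G' n)) :
    Le M (fun n => ch (cE (P n) (E n)) (F n) (G n)) fun n => ch (cE (P n) (E n)) (F n) (G' n) := by
  obtain ⟨q, q0, hq⟩ := hE
  refine Le.of_mul q0 hq (h.of2 (hM.sm H17S.lg) (Eventually.of_forall fun n => ?_))
  have := R4.ke.ge (P n) (E n) (F n) (G n)
  have := R4.ke.le (P n) (E n) (F n) (G' n)
  have := mul_le_mul_of_nonneg_left (ch_anti (F := F n) (fn_cE (f n) fun ω => ¬E n ω))
    (sub_nonneg.2 (pb_le_one (P n) (E n)))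
  linarith

theorem ful_cE {F' : ∀ n, Ω n → γ n} {D : ℕ → ℝ} (hM : Big M) (hE : Pos P E)
    (h : Le M D fun n => ch (P n) (F n) (G n)) (h1 : Sm M fun n => ch (P n) (F' n) (G n))
    (h2 : Le M (fun n => ch (cE (P n) fun ω => ¬E n ω) (F n) (F' n)) D) :
    Le M D fun n => ch (cE (P n) (E n)) (F n) (G n) := by
  obtain ⟨q, q0, hq⟩ := hE
  refine Le.of_mul q0 hq (h.of4 h1 (h2.bmul (p := fun n => 1 - pb (P n) (E n)) (C := 1)
    (Eventually.of_forall fun n => ⟨sub_nonneg.2 (pb_le_one _ _), sub_le_self _ (pb_nonneg _ _)⟩))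
    (hM.sm H17S.lg) (Eventually.of_forall fun n => ?_))
  have := R4.ke.ge (P n) (E n) (F' n) (G n)
  have := R4.ke.le (P n) (E n) (F n) (G n)
  have := mul_le_mul_of_nonneg_left (ch_tri' (P := cE (P n) fun ω => ¬E n ω) (F n) (G n) (F' n))
    (sub_nonneg.2 (pb_le_one (P n) (E n)))
  have := mul_nonneg (pb_nonneg (P n) (E n)) (ch_nonneg (P := cE (P n) (E n)) (F' n) (G n))
  linarith

end Ent

variable {ι κ : Type} [Fintype ι] [DecidableEq ι] [Fintype κ] {Φ : Filt (Mt ι)} {om : κ → ℝ × ℝ}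
  {pos : κ → Prop} {x : ℕ → Sy ι κ} {t : κ}

theorem good (h : P0 Φ om pos t x) {d : κ → ℝ} (hd : Id (un x) (fun n => (x n).c) d d) {r : ℝ}
    (hr : 0 ≤ r) {S : κ → Prop} (hS : ∀ a, S a → a = t) :
    Id (un x) (fun n => (x n).c) (up d r S) (up d r S) := fun a b e u => by
  by_cases s : S e
  · rw [hS e s]
    exact h.nt a b
  · have : up d r S e = d e := if_neg s
    exact hd a b e (by linarith [TGCondA.le_up d hr S a, TGCondA.le_up d hr S b])

theorem sum_up (d : κ → ℝ) (r : ℝ) (S : κ → Prop) (t : κ) :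
    ∑ a, (up d r S a - up d r (fun a => S a ∧ a = t) a) = cd (fun a => S a ∧ a ≠ t) * r := by
  rw [← TGCondA.sum_up d]
  refine Finset.sum_congr rfl fun a _ => ?_
  unfold up
  split_ifs <;> first | ring1 | (exfalso; tauto)

end TPCondA

open TPCondA in
theorem tpCond : SCondP := by
  intro ι κ _ _ _ Φ om pos t kf C p h E hE
  have g := h.p0.toG0
  have hM := g.alg.big
  refine ⟨⟨TGCondA.g0 g E, h.p0.tp, h.p0.tk, h.p0.nt⟩,
    tgCond tgMix ι κ Φ om _ (us p) C h.ac E hE, ⟨fun K hK => sm_cE hE (h.ep.det K hK),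
    fun k v r v1 v2 hr => ?_, fun k s R a b c => ind_cE hM hE (fun n ω _ ω' _ e => ?_)
      (h.ep.ind k s R a b c)⟩,
    fun i v r a b c => QA.HT1.dn (h.hp i v r a b c) hM (R4.K31.dnS_cE hE)⟩
  swap
  · simp only [Sy.Z, Prod.mk.injEq] at e ⊢
    exact ⟨e.1, by rw [e.2]⟩
  have hd := (sGood _ _ _ _ _ _ _ _ g.alg).2.1 v v1 v2
  have h0 : Id (un (ys p)) (fun n => (ys p n).c) 0 0 := by
    have := (sGood _ _ _ _ _ _ _ _ g.alg).2.1 0 le_rfl le_rfl
    rwa [show dep om 0 = 0 from funext fun a => by simp [dep]] at this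
  have d0 : ∀ a, 0 ≤ dep om v a := fun a =>
    add_nonneg (mul_nonneg (g.alg.wt a).1 v1) (mul_nonneg (g.alg.wt a).2 v2)
  have h1 := good h.p0 hd hr (S := fun a => (pos a ∧ Pu om k a) ∧ a = t) fun _ u => u.2
  have gd := (tgGd ι κ Φ om pos _ g).1
  have hK := add_nonneg (d0 t) hr
  refine ful_cE (F' := fun n => (p n).y.C (sc (p n).y.M (up (dep om v) r
    fun a => (pos a ∧ Pu om k a) ∧ a = t))) hM hE (h.ep.f k v r v1 v2 hr)
    ((tgMono tgRef tgJoin ι κ Φ om pos _ g _ _ _ _ (gd _ h0)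
      (gd _ (good h.p0 h0 hK (S := fun a => a = t) fun _ u => u)) (gd _ hd) (gd _ h1)
      (fun a => Le.of_le fun n => mul_le_mul_of_nonneg_right (d0 a) (Nat.cast_nonneg _))
      fun a => Le.of_le fun n => ?_).trans (h.ep.det _ hK)) ?_
  · by_cases u : (pos a ∧ Pu om k a) ∧ a = t
    · refine le_max_of_le_right (le_of_eq ?_)
      simp only [sc, up, if_pos u, if_pos u.2, Pi.zero_apply, zero_add]
      rw [u.2]
    · refine le_max_of_le_left (le_of_eq ?_)
      simp only [sc, up, if_neg u]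
  · rw [← sum_up (dep om v)]
    refine (sCntW _ _ _ _ _ _ _ _ _ (fun n => cE (p n).y.P fun ω => ¬E n ω) (fun n => (p n).y.j)
      _ _ g.alg (TGCondA.g0 g _).unit h1 (TGCondA.good g hd hr k) (fun a => ?_) fun a z => ?_).1
    · unfold up
      split_ifs with u w
      exacts [le_rfl, absurd u.1 w, le_add_of_nonneg_right hr, le_rfl]
    · exact (if_neg fun u => g.alg.live a u.1.1 z).trans (if_neg fun u => g.alg.live a u.1 z).symm

end Pool.Agent.MP_5168f5_an.AN.TG.TP
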