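import Pool.Agent.MP_5168f5_an.AN.TAApi

/-! The total information of a rounded direction along the diagonal. -/

namespace Pool.Agent.MP_5168f5_an.AN.TG.TA

open H19 H17S H17F G39 GA TL Filter H61Z

namespace BudA

theorem sum_le (φ : ℕ → ℝ) (h : ∀ j, 0 ≤ φ j) (k N : ℕ) :
    ∑ j ∈ Finset.range N, (φ j - φ (j + k)) ≤ ∑ j ∈ Finset.range k, φ j := by
  have h1 := Finset.sum_range_add φ k N
  have h2 : ∑ j ∈ Finset.range N, φ j ≤ ∑ j ∈ Finset.range (k + N), φ j :=
    Finset.sum_le_sum_of_subset_of_nonneg (Finset.range_mono (Nat.le_add_left _ _))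
      fun j _ _ => h j
  simp only [Finset.sum_sub_distrib, add_comm _ k]
  linarith

theorem tele {A : Type} {Ω β δ : ℕ → Type} {P : ∀ n, FP (Ω n)} {M : ℕ → ℕ} (b : ∀ n, Ω n → β n)
    (Θ : ∀ n, Ω n → δ n) (E F : ℕ → ∀ n, Ω n → A) (k N : ℕ) {B : ℕ → ℝ}
    (hb : ∀ j, Le M (fun n => ch (P n) (b n) fun ω => (E j n ω, Θ n ω)) B)
    (h1 : ∀ j, Sm M fun n => ch (P n) (F j n) fun ω => (E (j + k) n ω, E (j + k) n ω))
    (h2 : ∀ j, Sm M fun n => ch (P n) (E j n) fun ω => (E (j + k) n ω, E (j + k) n ω)) :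
    Le M (fun n => ∑ j ∈ Finset.range N, mi (P n) (b n) (F j n) fun ω => (E j n ω, Θ n ω))
      fun n => k * B n := by
  have s1 := Le.sum (Finset.range N) (M := M)
    (F := fun j n => mi (P n) (b n) (F j n) fun ω => (E j n ω, Θ n ω))
    (G := fun j n => (ch (P n) (b n) fun ω => (E j n ω, Θ n ω)) -
      ch (P n) (b n) fun ω => (E (j + k) n ω, Θ n ω)) fun j _ =>
    Le.of2 (h1 j) (h2 j) (.of_forall fun n => by
      have t1 := ch_tri' (P := P n) (b n) (fun ω => (E (j + k) n ω, Θ n ω))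
        fun ω => (F j n ω, E j n ω, Θ n ω)
      have t2 := ch_subadd (P := P n) (F j n) (fun ω => (E j n ω, Θ n ω))
        fun ω => (E (j + k) n ω, Θ n ω)
      have t3 : ch (P n) (F j n) (fun ω => (E (j + k) n ω, Θ n ω)) ≤
          ch (P n) (F j n) fun ω => (E (j + k) n ω, E (j + k) n ω) :=
        ch_anti ((Fn.fst _ _).pair (Fn.fst _ _))
      have t4 : ch (P n) (fun ω => (E j n ω, Θ n ω)) (fun ω => (E (j + k) n ω, Θ n ω)) ≤
          ch (P n) (E j n) fun ω => (E (j + k) n ω, E (j + k) n ω) :=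
        ch_le ((Fn.fst _ _).pair ((Fn.snd _ _).right _)) ((Fn.fst _ _).pair (Fn.fst _ _))
      unfold mi
      linarith)
  refine (s1.trans (Le.of_le fun n => sum_le _ (fun j => ch_nonneg _ _) k N)).trans
    ((Le.sum (Finset.range k) fun j _ => hb j).trans (Le.of_le fun n => le_of_eq (by simp)))

theorem bnd {Ω κ γ : Type} [Fintype κ] {P : FP Ω} {b : Ω → κ → ℝ} (G : Ω → γ) {w : ℝ} (M : ℕ)
    (hw : 0 < w) (h : ∀ ω ∈ P.S, ∀ a, |b ω a| ≤ 1) :
    ch P (fun ω => rw M w (b ω)) G ≤ Fintype.card κ * (w * M) + Fintype.card κ * Real.log 8 := by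
  set r := ⌊w * M / H17S.lg⌋₊
  have p : (1 : ℝ) ≤ 2 ^ r := one_le_pow₀ one_le_two
  have h1 : ch P (fun ω => rw M w (b ω)) G ≤ ch P (fun ω => flv r (b ω)) G :=
    ch_mono ((Fn.comp (fun (u : κ → ℤ) a => (u a : ℝ) / 2 ^ r) _).left _)
  have h2 := ch_near (P := P) (x := b) (G := G) (j := r) (L := 2 * 2 ^ r) (by positivity)
    fun u hu v hv _ => (pi_norm_le_iff_of_nonneg (by positivity)).2 fun a => by
      rw [mul_div_cancel_right₀ _ (by positivity)]
      exact (abs_sub _ _).trans (by linarith [h u hu a, h v hv a])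
  have h3 : Real.log (2 * (2 * 2 ^ r) + 3) ≤ w * M + Real.log 8 := by
    refine (Real.log_le_log (by positivity) (show _ ≤ 2 ^ r * (8 : ℝ) by linarith)).trans ?_
    rw [Real.log_mul (by positivity) (by norm_num), Real.log_pow]
    exact add_le_add ((le_div_iff₀ lg_pos).1
      (Nat.floor_le (div_nonneg (by positivity) lg_pos.le))) le_rfl
  have := mul_le_mul_of_nonneg_left h3 (Nat.cast_nonneg (α := ℝ) (Fintype.card κ))
  linarith

end BudA

open BudA in
theorem rowBud : OfBud := by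
  intro hL hZ ι κ _ _ _ Φ om pos x hT g C b s w k N h hb s0 w0
  have W := wk g
  have sm : ∀ {D : ℕ → κ → ℝ} {d d' : κ → ℝ}, GT om pos d → GT om pos d' → Apx x D d → d ≤ d' →
      Sm (un x) fun n => ch (x n).P ((x n).C (D n)) fun ω => (Cl (x n) d' ω, Cl (x n) d' ω) :=
    fun a a' e l => ((hL _ _ Φ om pos x hT g).2.2.2 _ _ _ _ _ _ a a' a' e (apx_sc x _)
      (apx_sc x _)).2.2.1 (l.trans le_sup_left)
  have bd : ∀ G : ∀ n, (x n).Ω → Mt ι × (x n).T, Le (un x)
      (fun n => ch (x n).P (fun ω => rw (x n).M w (b n ω)) (G n))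
      fun n => Fintype.card κ * (w * (x n).M) := fun G =>
    Le.of_sub (g.alg.big.sm (Fintype.card κ * Real.log 8)) (hb.mono fun n a => by
      linarith [bnd (G n) (x n).M w0 a])
  have p : ∀ j : ℕ, 0 ≤ s + j * w := fun j => by positivity
  have mono : ∀ {ρ ρ' : ℝ}, ρ ≤ ρ' → dep om (dg om ρ) ≤ dep om (dg om ρ') := fun e a => by
    rw [dep_dg, dep_dg]
    exact mul_le_mul_of_nonneg_left e (W.tt_nn a)
  have z := fun j : ℕ => (hZ _ _ Φ om pos x hT g C h (dg om (s + j * w)) w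
    (div_nonneg (p j) W.sg_pos.le) (div_nonneg (p j) W.sg_pos.le) w0).2.2.2
  have y := W.gt_dY (K := 1) le_rfl zero_le_one
  constructor
  · have k0 : (0 : ℝ) ≤ k := Nat.cast_nonneg _
    refine Le.trans (Le.of_le fun n => le_of_eq (Finset.sum_congr rfl fun j _ => ?_))
      ((tele (fun n ω => rw (x n).M w (b n ω)) (fun n => (x n).Θ)
        (fun j n => Cl (x n) (dep om (dg om (s + j * w))))
        (fun j n => (x n).C (sc (x n).M (dep om (dg om (s + j * w))) +
          sc (zw om (x n) (dg om (s + j * w)) w).M (dep om (k, k)))) ⌈k * sg om⌉₊ N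
        (fun j => bd _) (fun j => sm ((W.gt_dg (p j)).add ((W.gt_dep (t := (k, k)) k0 k0).smul
          w0.le)) (W.gt_dg (p _)) (z j _).2.1 fun a => ?_)
        fun j => sm (W.gt_dg (p j)) (W.gt_dg (p _)) (apx_sc x _) (mono ?_)).trans
        (Le.of_le fun n => ?_))
    · have e := (z j 0).1 n
      rw [sc_zero, add_zero] at e
      unfold Ib Cl Zl Sy.Z
      rw [(z j _).1 n, sc_zero, e]
    · have e : dep om ((k : ℝ), (k : ℝ)) a = tt om a * (k * sg om) := by
        have := W.sg_pos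
        unfold dep tt
        field_simp
      have := mul_le_mul_of_nonneg_left (Nat.le_ceil (k * sg om)) (mul_nonneg w0.le (W.tt_nn a))
      simp only [Pi.add_apply, Pi.smul_apply, smul_eq_mul, dep_dg, e]
      push_cast
      linarith
    · gcongr
      exact Nat.le_add_right _ _
    · have := mul_le_mul_of_nonneg_right (Nat.ceil_lt_add_one (mul_nonneg k0 W.sg_pos.le)).le
        (show 0 ≤ (Fintype.card κ : ℝ) * (w * (x n).M) by positivity)
      linarith
  · refine (tele (fun n ω => rw (x n).M w (b n ω)) (fun n => (x n).Θ)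
      (fun j n => Cl (x n) (dep om (dg om (s + j * w)) ⊔ dY om pos 1 0))
      (fun j n => Cl (x n) (dep om (dg om (s + j * w + w)) ⊔ dY om pos 1 0)) 1 N (fun j => bd _)
      (fun j => sm ((W.gt_dg (add_nonneg (p j) w0.le)).sup y) ((W.gt_dg (p _)).sup y) (apx_sc x _)
        (sup_le_sup_right (mono ?_) _)) fun j => sm ((W.gt_dg (p j)).sup y)
          ((W.gt_dg (p _)).sup y) (apx_sc x _) (sup_le_sup_right (mono ?_) _)).trans
      (Le.of_le fun n => le_of_eq (by push_cast; ring)) <;> push_cast <;> linarith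

end Pool.Agent.MP_5168f5_an.AN.TG.TA
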