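import Pool.Agent.MP_5168f5_an.AN.TAApi

/-! Kakeya sets in all dimensions: the terminal case, a window with independent families. -/

namespace Pool.Agent.MP_5168f5_an.AN.TG.TA

open H19 H17S H17F G39 GA TL Filter H61Z
open R4 (Eqv)

namespace GridA

/-- Two bounded monotone arrays are both nearly constant somewhere. -/
theorem pick (φ ψ : ℕ → ℕ → ℝ) {B c : ℝ} {N : ℕ} (hN : 0 < N) (hc : 2 * B ≤ N * c)
    (h : ∀ i j, 0 ≤ φ i j ∧ φ i j ≤ B ∧ 0 ≤ ψ i j ∧ ψ i j ≤ B) :
    ∃ i < N, ∃ j < N, φ i j - φ i (j + 1) + (ψ i j - ψ (i + 1) j) ≤ c := by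
  have a : ∑ i ∈ Finset.range N, ∑ j ∈ Finset.range N, (φ i j - φ i (j + 1)) ≤ N * B :=
    (Finset.sum_le_sum (g := fun _ => B) fun i _ => by
      rw [Finset.sum_range_sub']; linarith [(h i 0).2.1, (h i N).1]).trans_eq
      (by rw [Finset.sum_const, Finset.card_range, nsmul_eq_mul])
  have b : ∑ j ∈ Finset.range N, ∑ i ∈ Finset.range N, (ψ i j - ψ (i + 1) j) ≤ N * B :=
    (Finset.sum_le_sum (g := fun _ => B) fun j _ => by
      rw [Finset.sum_range_sub' (fun i => ψ i j)]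
      linarith [(h 0 j).2.2.2, (h N j).2.2.1]).trans_eq
      (by rw [Finset.sum_const, Finset.card_range, nsmul_eq_mul])
  rw [Finset.sum_comm] at b
  obtain ⟨p, hp, e⟩ := Finset.exists_le_of_sum_le (s := Finset.range N ×ˢ Finset.range N)
    (f := fun p => φ p.1 p.2 - φ p.1 (p.2 + 1) + (ψ p.1 p.2 - ψ (p.1 + 1) p.2)) (g := fun _ => c)
    ⟨(0, 0), by simpa using hN⟩ (by
      rw [Finset.sum_add_distrib, Finset.sum_product, Finset.sum_product, Finset.sum_const,
        Finset.card_product, Finset.card_range, nsmul_eq_mul, Nat.cast_mul]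
      nlinarith [mul_le_mul_of_nonneg_left hc (Nat.cast_nonneg N)])
  rw [Finset.mem_product, Finset.mem_range, Finset.mem_range] at hp
  exact ⟨p.1, hp.1, p.2, hp.2, e⟩

variable {κ : Type} [Fintype κ] {om : κ → ℝ × ℝ} {pos : κ → Prop}

theorem wn (h : WK om pos) (hT : Term om) {t : ℝ × ℝ} {R w : ℝ} (h1 : 0 ≤ t.1 ∧ t.1 ≤ R)
    (h2 : 0 ≤ t.2 ∧ t.2 ≤ R) (hw : 0 < w) (e : sg om * R + w ≤ 1) : ∃ s, Wn om pos t s w := by
  have R0 := h1.1.trans h1.2
  have p := h.sg_pos
  have b : ∀ a, dep om t a ≤ ((om a).1 + (om a).2) * R := fun a => by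
    unfold dep
    linarith [mul_le_mul_of_nonneg_left h1.2 (h.wt a).1, mul_le_mul_of_nonneg_left h2.2 (h.wt a).2]
  have pu : ∀ a, PP om pos a → dep om t a + w ≤ 1 := fun a _ => by
    linarith [b a, mul_le_mul_of_nonneg_right (h.sum_lt a).le R0]
  by_cases c : ∃ a, CC om pos a
  · obtain ⟨a, c⟩ := c
    have q := h.tt_pos c.2
    have q' := add_pos c.2.1 c.2.2
    refine ⟨dep om t a / tt om a, h1.1, h2.1, hw, div_nonneg ((h.gt_dep h1.1 h2.1).nn a) q.le,
      le_trans (add_le_add_left ((div_le_iff₀ q).2 ((b a).trans_eq ?_)) w) e, fun a' c' => ?_, pu⟩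
    · unfold tt; field_simp
    · have := hT a' a c'.2 c.2
      unfold tt dep
      field_simp
      linear_combination (t.1 - t.2) * this
  · exact ⟨0, h1.1, h2.1, hw, le_rfl, by linarith [mul_nonneg p.le R0],
      fun a c' => absurd ⟨a, c'⟩ c, pu⟩

omit [Fintype κ] in
theorem dep_add (t t' : ℝ × ℝ) : dep om (t + t') = dep om t + dep om t' := by
  funext a; simp only [dep, Prod.fst_add, Prod.snd_add, Pi.add_apply]; ring

omit [Fintype κ] in
theorem smul_lv (w K : ℝ) (k : Bool) : w • dep om (lv k K) = dep om (lv k (w * K)) := by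
  funext a; cases k <;> simp only [dep, lv, cond, Pi.smul_apply, smul_eq_mul] <;> ring

omit [Fintype κ] in
theorem sup_eq (h : WK om pos) (k : Bool) (t : ℝ × ℝ) {δ : ℝ} (hδ : 0 ≤ δ) :
    (dep om t + dU om k δ) ⊔ dep om (t + lv k δ) = dep om (t + lv k δ) + dU om k δ := by
  funext a
  have p := (h.gt_dU k hδ).nn a
  have q := (h.gt_lv k hδ).nn a
  simp only [dep_add, Pi.sup_apply, Pi.add_apply]
  by_cases e : Pu om k a
  · have : dep om (lv k δ) a = 0 := by
      cases k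
      · simp [dep, lv, show (om a).1 = 0 from e.1]
      · simp [dep, lv, show (om a).2 = 0 from e.2]
    rw [this, add_zero, sup_eq_left.2 (by linarith)]
  · rw [dU_neg e, add_zero, add_zero, sup_eq_right.2 (by linarith)]

theorem sum_dU (h : WK om pos) (k : Bool) {δ : ℝ} (hδ : 0 ≤ δ) : ∑ a, dU om k δ a ≤ sg om * δ := by
  refine (Finset.sum_le_sum (g := fun a => ((om a).1 + (om a).2) * δ) fun a _ => ?_).trans ?_
  · unfold dU; split_ifs
    exacts [le_rfl, mul_nonneg (add_nonneg (h.wt a).1 (h.wt a).2) hδ]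
  · rw [← Finset.sum_mul, sg]; linarith

end GridA

open GridA in
theorem rowGrid : OfGrid := fun hL hZ ι κ _ _ _ Φ om pos x hT h0 C hC K ε hK hε => by
  have W := wk h0
  have p := W.sg_pos
  obtain ⟨-, pm, -, lk⟩ := hL ι κ Φ om pos x hT h0
  obtain ⟨N, hN⟩ := exists_nat_gt (2 * sg om * K / ε)
  have N0 : 0 < N := Nat.cast_pos.1 (lt_of_le_of_lt (by positivity) hN)
  obtain ⟨w, w0, w1, w2⟩ : ∃ w : ℝ, 0 < w ∧ w ≤ ε ∧ sg om * (N * (w * K)) + w ≤ 1 := by
    refine ⟨min ε (1 / (sg om * N * K + 1)), by positivity, min_le_left _ _, ?_⟩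
    linarith [(le_div_iff₀ (by positivity)).1 (min_le_right ε (1 / (sg om * N * K + 1)))]
  have δ0 : 0 ≤ w * K := by positivity
  have g := fun k => W.gt_dU k δ0
  let F : Bool → ℝ × ℝ → ℝ := fun k t => Hx x (dep om t + dU om k (w * K)) - Hx x (dep om t)
  have le : ∀ k t, dep om t ≤ dep om t + dU om k (w * K) := fun k t =>
    le_add_of_nonneg_right (g k).nn
  have bd : ∀ k (t : ℝ × ℝ), 0 ≤ t.1 → 0 ≤ t.2 → 0 ≤ F k t ∧ F k t ≤ sg om * (w * K) :=
    fun k t a b => by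
      have u := W.gt_dep a b
      have v := pm.lip _ _ u (u.add (g k)) (le k t)
      simp only [Pi.add_apply, add_sub_cancel_left] at v
      exact ⟨sub_nonneg.2 (pm.mono _ _ u (u.add (g k)) (le k t)),
        by linarith [sum_dU W k δ0]⟩
  obtain ⟨i, hi, j, hj, e⟩ := pick (fun i j => F true (i * (w * K), j * (w * K)))
    (fun i j => F false (i * (w * K), j * (w * K))) (c := ε * w) N0
    (by linarith [mul_le_mul_of_nonneg_right ((div_lt_iff₀ hε).1 hN).le w0.le]) fun i j =>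
      and_assoc.1 ⟨bd true _ (by positivity) (by positivity),
        bd false _ (by positivity) (by positivity)⟩
  obtain ⟨t, ht⟩ : ∃ t : ℝ × ℝ, t = (i * (w * K), j * (w * K)) := ⟨_, rfl⟩
  have e1 : t + lv true (w * K) = (i * (w * K), ((j + 1 : ℕ) : ℝ) * (w * K)) := by
    rw [ht]; ext <;> simp [lv]; ring
  have e2 : t + lv false (w * K) = (((i + 1 : ℕ) : ℝ) * (w * K), j * (w * K)) := by
    rw [ht]; ext <;> simp [lv]; ring
  rw [← e1, ← e2, ← ht] at e
  have t1 : 0 ≤ t.1 ∧ t.1 ≤ N * (w * K) := by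
    rw [ht]; exact ⟨by positivity, mul_le_mul_of_nonneg_right (Nat.cast_le.2 hi.le) δ0⟩
  have t2 : 0 ≤ t.2 ∧ t.2 ≤ N * (w * K) := by
    rw [ht]; exact ⟨by positivity, mul_le_mul_of_nonneg_right (Nat.cast_le.2 hj.le) δ0⟩
  have u := W.gt_dep t1.1 t2.1
  have u' : ∀ k, GT om pos (dep om (t + lv k (w * K))) := fun k =>
    dep_add (om := om) t _ ▸ u.add (W.gt_lv k δ0)
  have le' : ∀ k, dep om t ≤ dep om (t + lv k (w * K)) := fun k =>
    dep_add (om := om) t _ ▸ le_add_of_nonneg_right (W.gt_lv k δ0).nn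
  have nn : ∀ k, 0 ≤ F k t - F k (t + lv k (w * K)) := fun k => by
    have := pm.sub _ _ _ u (u.add (g k)) (u' k) (le k t) (le' k)
    rw [sup_eq W k t δ0] at this
    simp only [F]; linarith
  obtain ⟨s, hs⟩ := GridA.wn W hT t1 t2 w0 w2
  obtain ⟨-, -, -, z⟩ := hZ ι κ Φ om pos x hT h0 C hC t w t1.1 t2.1 w0
  refine ⟨t, s, w, hs, w1, fun k => ?_⟩
  have a := (z (dU om k K)).2.1
  have a1 := (z (dep om (lv k K))).2.1
  have a2 := (z 0).2.1
  rw [smul_dU] at a
  rw [smul_lv, ← dep_add] at a1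
  rw [smul_zero, add_zero] at a2
  have r := ((lk _ _ _ _ _ _ (u.add (g k)) (u' k) u a a1 a2).2.2.2 (le' k)).1
  rw [sup_eq W k t δ0, sup_eq_left.2 (le k t)] at r
  refine (Le.of_le fun n => le_of_eq ?_).trans (r.trans (rate_le ?_))
  · simp only [inD, Cl, Zl, (z _).1 n]
    congr 1
    funext ω
    exact congrArg (·, (x n).Θ ω) (congrFun ((z 0).1 n) ω)
  · have := nn true
    have := nn false
    cases k <;> simp only [F] at * <;> linarith

end Pool.Agent.MP_5168f5_an.AN.TG.TA
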