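import Pool.Agent.MP_5168f5_an.AN.TAApi
import Pool.Agent.MP_5168f5_an.AN.TGZm

/-! Kakeya sets in all dimensions: the terminal case, rates in a window. -/

namespace Pool.Agent.MP_5168f5_an.AN.TG.TA

open H19 H17S H17F G39 GA TL Filter H61Z
open R4 (Eqv)

namespace ZmHA

theorem sc_dep {κ : Type} (om : κ → ℝ × ℝ) (m : ℕ) (t : ℝ × ℝ) :
    sc m (dep om t) = dep om (t.1 * m, t.2 * m) := funext fun a => by
  simp only [sc, dep]; ring

theorem le_mul {M : ℕ → ℕ} {f g : ℕ → ℝ} (h : Eqv M f g) (c : ℝ) :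
    Le M (fun n => c * f n) fun n => c * g n := by
  rcases le_total 0 c with u | u
  · exact h.1.smul u
  · exact (h.2.smul (neg_nonneg.2 u)).of_sub (Eventually.of_forall fun n => by linarith)

end ZmHA

open ZmHA TGZmA in
theorem rowZmH : OfZmH := by
  intro kit lnk ι κ _ _ _ Φ om pos x hT h0 C h t w h1 h2 hw
  have hM : Big (un x) := h0.alg.big
  have em : Eqv (un x) (fun n => ((zw om (x n) t w).M : ℝ)) fun n => w * (x n).M :=
    R4.lev_eqv hM hw.le
  have e : ∀ᶠ n in UF, w / 2 * (x n).M ≤ (zw om (x n) t w).M ∧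
      ((zw om (x n) t w).M : ℝ) ≤ w * (x n).M :=
    (em.2 _ (half_pos hw)).mono fun n a => ⟨by linarith, R4.lev_le' (un x) hw.le n⟩
  have m0 : ∀ n, (0 : ℝ) ≤ (x n).M := fun n => Nat.cast_nonneg _
  have gy : GS Φ om pos C fun n => zw om (x n) t w := by
    have := kit.zm ι κ Φ om pos x C h (fun n => (t.1 * (x n).M, t.2 * (x n).M))
      (fun n => (zw om (x n) t w).M) (w / 2) w ⟨t.1 + t.2, Eventually.of_forall fun n => by
        have a := mul_nonneg h1 (m0 n)
        have b := mul_nonneg h2 (m0 n)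
        exact ⟨a, by linarith, b, by linarith⟩⟩ (half_pos hw) e
    simpa only [← sc_dep] using this
  have le : ∀ f g : ℕ → ℝ, Le (un fun n => zw om (x n) t w) f g ↔ Le (un x) f g := fun f g =>
    ⟨le_unit (C := w) (e.mono fun _ a => a.2), le_unit (C := 2 / w) (e.mono fun n a => by
      rw [div_mul_eq_mul_div, le_div_iff₀ hw]; linarith [a.1])⟩
  have ap : ∀ d : κ → ℝ, Apx x
      (fun n => sc (x n).M (dep om t) + sc (zw om (x n) t w).M d) (dep om t + w • d) :=
    fun d a => ⟨(le_mul em (d a)).of_sub (Eventually.of_forall fun n => by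
      simp only [sc, Pi.add_apply, Pi.smul_apply, smul_eq_mul]; linarith),
      (le_mul em.symm (d a)).of_sub (Eventually.of_forall fun n => by
        simp only [sc, Pi.add_apply, Pi.smul_apply, smul_eq_mul]; linarith)⟩
  refine ⟨gy, le, em, fun d => ⟨fun n => c_zm Φ _ _ _ _, ap d, fun hd => ?_⟩⟩
  have gt := (wk h0).gt_dep h1 h2
  have ly := lnk ι κ Φ om pos _ hT gy.toG0
  have a := (ly.2.2.2 _ _ _ d 0 0 hd gt_zero gt_zero (apx_sc _ d) (apx_sc _ 0) (apx_sc _ 0)).2.1
  have z := ap 0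
  rw [smul_zero, add_zero] at z
  have b := ((lnk ι κ Φ om pos x hT h0).2.2.2 _ _ _ _ _ _ (gt.add (hd.smul hw.le)) gt gt (ap d) z
    z).2.1
  rw [sup_eq_left.2 (le_add_of_nonneg_right (hd.smul hw.le).nn)] at b
  rw [sup_eq_left.2 (show 0 ≤ d from hd.nn), ly.2.2.1, sub_zero] at a
  simp only [c_zm Φ, z_zm Φ] at a
  exact le_antisymm
    (le_of_rate hM ((((le_mul em.symm _).trans ((le _ _).1 a.2)).trans b.1).of_sub
      (Eventually.of_forall fun n => by linarith)))
    (le_of_rate hM (((b.2.trans ((le _ _).1 a.1)).trans (le_mul em _)).of_sub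
      (Eventually.of_forall fun n => by linarith)))

end Pool.Agent.MP_5168f5_an.AN.TG.TA
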