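import Pool.Agent.MP_5168f5_an.AN.TALnk
import Pool.Agent.MP_5168f5_an.AN.TAZmH
import Pool.Agent.MP_5168f5_an.AN.TABud
import Pool.Agent.MP_5168f5_an.AN.TAGrid

/-! Kakeya sets in all dimensions: the terminal case, windows without hypotheses on the law. -/

namespace Pool.Agent.MP_5168f5_an.AN.TG.TA

open H19 H17S H17F G39 GA TL Filter H61Z
open R4 (Eqv)

open TGZmA in
theorem g0_zm {ι κ : Type} [Fintype ι] [DecidableEq ι] [Fintype κ] {Φ : Filt (Mt ι)}
    {om : κ → ℝ × ℝ} {pos : κ → Prop} {x : ℕ → Sy ι κ} (h : G0 Φ om pos x) {t : ℕ → ℝ × ℝ}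
    {m : ℕ → ℕ} {c K : ℝ} (ht : Lv x t) (hc : 0 < c)
    (e : ∀ᶠ n in UF, c * (x n).M ≤ m n ∧ (m n : ℝ) ≤ K * (x n).M) :
    G0 Φ om pos fun n => (x n).zm (dep om (t n)) (m n) := by
  obtain ⟨K', ht⟩ := ht
  have e1 : ∀ᶠ n in UF, ((x n).M : ℝ) ≤ c⁻¹ * m n := e.mono fun n a => by
    rw [← div_eq_inv_mul, le_div_iff₀ hc]; linarith [a.1]
  have m0 : ∀ n, (0 : ℝ) ≤ (x n).M := fun n => Nat.cast_nonneg _
  obtain ⟨M0, s0, k⟩ := sThr ι κ _ Φ om pos _ _ h.alg
  refine ⟨(k m t (max K K') (big_unit e1 h.alg.big) (le_unit e1 s0) ?_).1, h.unit⟩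
  filter_upwards [e, ht] with n a b
  have h1 := mul_le_mul_of_nonneg_right (le_max_left K K') (m0 n)
  have h2 := mul_le_mul_of_nonneg_right (le_max_right K K') (m0 n)
  exact ⟨a.2.trans h1, b.1, b.2.1.trans h2, b.2.2.1, b.2.2.2.trans h2⟩

/-- Rates in a window. -/
def ZmH0 : Prop := AllT fun _ κ _ _ _ Φ om pos x =>
  ∀ (t : ℝ × ℝ) (w : ℝ), 0 ≤ t.1 → 0 ≤ t.2 → 0 < w →
    G0 Φ om pos (fun n => zw om (x n) t w) ∧
    (∀ f g : ℕ → ℝ, Le (un fun n => zw om (x n) t w) f g ↔ Le (un x) f g) ∧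
    Eqv (un x) (fun n => ((zw om (x n) t w).M : ℝ)) (fun n => w * (x n).M) ∧
    ∀ d : κ → ℝ, (∀ n, (zw om (x n) t w).C (sc (zw om (x n) t w).M d) =
        (x n).C (sc (x n).M (dep om t) + sc (zw om (x n) t w).M d)) ∧
      Apx x (fun n => sc (x n).M (dep om t) + sc (zw om (x n) t w).M d) (dep om t + w • d) ∧
      (GT om pos d → w * Hx (fun n => zw om (x n) t w) d =
        Hx x (dep om t + w • d) - Hx x (dep om t))

/-- The total information of a rounded direction along the diagonal. -/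
def Bud0 : Prop := AllT fun _ κ _ _ _ _ om pos x => ∀ (b : ∀ n, (x n).Ω → κ → ℝ)
  (s w : ℝ) (k N : ℕ), (∀ᶠ n in UF, ∀ ω ∈ (x n).P.S, ∀ a, |b n ω a| ≤ 1) → 0 ≤ s → 0 < w →
  Le (un x) (fun n => ∑ j ∈ Finset.range N,
      Ib om (zw om (x n) (dg om (s + j * w)) w) (fun ω => rw (x n).M w (b n ω)) k)
    (fun n => (k * sg om + 1) * Fintype.card κ * w * (x n).M) ∧
  Le (un x) (fun n => ∑ j ∈ Finset.range N,
      Ib' om pos (x n) (fun ω => rw (x n).M w (b n ω)) (s + j * w) w)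
    fun n => Fintype.card κ * w * (x n).M

/-- One small window with small defects of independence for two systems. -/
def Grid2 : Prop := AllT fun ι κ _ _ _ Φ om pos x => ∀ x' : ℕ → Sy ι κ, G0 Φ om pos x' →
  ∀ K ε : ℝ, 0 ≤ K → 0 < ε → ∃ t s w, Wn om pos t s w ∧ w ≤ ε ∧ ∀ k : Bool,
    Le (un x) (fun n => inD om (zw om (x n) t w) k K) (fun n => ε * w * (x n).M) ∧
    Le (un x') (fun n => inD om (zw om (x' n) t w) k K) fun n => ε * w * (x' n).M

open ZmHA TGZmA in
theorem zmH0 : ZmH0 := by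
  intro ι κ _ _ _ Φ om pos x hT h0 t w h1 h2 hw
  have lnk := rowLnk
  have hM : Big (un x) := h0.alg.big
  have em : Eqv (un x) (fun n => ((zw om (x n) t w).M : ℝ)) fun n => w * (x n).M :=
    R4.lev_eqv hM hw.le
  have e : ∀ᶠ n in UF, w / 2 * (x n).M ≤ (zw om (x n) t w).M ∧
      ((zw om (x n) t w).M : ℝ) ≤ w * (x n).M :=
    (em.2 _ (half_pos hw)).mono fun n a => ⟨by linarith, R4.lev_le' (un x) hw.le n⟩
  have m0 : ∀ n, (0 : ℝ) ≤ (x n).M := fun n => Nat.cast_nonneg _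
  have gy : G0 Φ om pos fun n => zw om (x n) t w := by
    have := g0_zm h0 (t := fun n => (t.1 * (x n).M, t.2 * (x n).M))
      (m := fun n => (zw om (x n) t w).M) ⟨t.1 + t.2, Eventually.of_forall fun n => by
        have a := mul_nonneg h1 (m0 n)
        have b := mul_nonneg h2 (m0 n)
        exact ⟨a, by linarith, b, by linarith⟩⟩ (half_pos hw) e
    simpa only [← sc_dep] using this
  have le : ∀ f g : ℕ → ℝ, Le (un fun n => zw om (x n) t w) f g ↔ Le (un x) f g := fun f g =>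
    ⟨le_unit (C := w) (e.mono fun _ a => a.2), le_unit (C := 2 / w) (e.mono fun n a => by
      rw [div_mul_eq_mul_div, le_div_iff₀ hw]; linarith [a.1])⟩
  have ap : ∀ d : κ → ℝ, Apx x
      (fun n => sc (x n).M (dep om t) + sc (zw om (x n) t w).M d) (dep om t + w • d) :=
    fun d a => ⟨(le_mul em (d a)).of_sub (Eventually.of_forall fun n => by
      simp only [sc, Pi.add_apply, Pi.smul_apply, smul_eq_mul]; linarith),
      (le_mul em.symm (d a)).of_sub (Eventually.of_forall fun n => by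
        simp only [sc, Pi.add_apply, Pi.smul_apply, smul_eq_mul]; linarith)⟩
  refine ⟨gy, le, em, fun d => ⟨fun n => c_zm Φ _ _ _ _, ap d, fun hd => ?_⟩⟩
  have gt := (wk h0).gt_dep h1 h2
  have ly := lnk ι κ Φ om pos _ hT gy
  have a := (ly.2.2.2 _ _ _ d 0 0 hd gt_zero gt_zero (apx_sc _ d) (apx_sc _ 0) (apx_sc _ 0)).2.1
  have z := ap 0
  rw [smul_zero, add_zero] at z
  have b := ((lnk ι κ Φ om pos x hT h0).2.2.2 _ _ _ _ _ _ (gt.add (hd.smul hw.le)) gt gt (ap d) z
    z).2.1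
  rw [sup_eq_left.2 (le_add_of_nonneg_right (hd.smul hw.le).nn)] at b
  rw [sup_eq_left.2 (show 0 ≤ d from hd.nn), ly.2.2.1, sub_zero] at a
  simp only [c_zm Φ, z_zm Φ] at a
  exact le_antisymm
    (le_of_rate hM ((((le_mul em.symm _).trans ((le _ _).1 a.2)).trans b.1).of_sub
      (Eventually.of_forall fun n => by linarith)))
    (le_of_rate hM (((b.2.trans ((le _ _).1 a.1)).trans (le_mul em _)).of_sub
      (Eventually.of_forall fun n => by linarith)))

open BudA in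
theorem bud0 : Bud0 := by
  intro ι κ _ _ _ Φ om pos x hT g b s w k N hb s0 w0
  have hL := rowLnk
  have W := wk g
  have sm : ∀ {D : ℕ → κ → ℝ} {d d' : κ → ℝ}, GT om pos d → GT om pos d' → Apx x D d → d ≤ d' →
      Sm (un x) fun n => ch (x n).P ((x n).C (D n)) fun ω => (Cl (x n) d' ω, Cl (x n) d' ω) :=
    fun a a' e l => ((hL _ _ Φ om pos x hT g).2.2.2 _ _ _ _ _ _ a a' a' e (apx_sc x _)
      (apx_sc x _)).2.2.1 (l.trans le_sup_left)
  have bd : ∀ G : ∀ n, (x n).Ω → Mt ι × (x n).T, Le (un x)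
      (fun n => ch (x n).P (fun ω => rw (x n).M w (b n ω)) (G n))
      fun n => Fintype.card κ * (w * (x n).M) := fun G =>
    Le.of_sub (g.alg.big.sm (Fintype.card κ * Real.log 8)) (hb.mono fun n a => by
      linarith [bnd (G n) (x n).M w0 a])
  have p : ∀ j : ℕ, 0 ≤ s + j * w := fun j => by positivity
  have mono : ∀ {ρ ρ' : ℝ}, ρ ≤ ρ' → dep om (dg om ρ) ≤ dep om (dg om ρ') := fun e a => by
    rw [dep_dg, dep_dg]
    exact mul_le_mul_of_nonneg_left e (W.tt_nn a)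
  have z := fun j : ℕ => (zmH0 _ _ Φ om pos x hT g (dg om (s + j * w)) w
    (div_nonneg (p j) W.sg_pos.le) (div_nonneg (p j) W.sg_pos.le) w0).2.2.2
  have y := W.gt_dY (K := 1) le_rfl zero_le_one
  constructor
  · have k0 : (0 : ℝ) ≤ k := Nat.cast_nonneg _
    refine Le.trans (Le.of_le fun n => le_of_eq (Finset.sum_congr rfl fun j _ => ?_))
      ((tele (fun n ω => rw (x n).M w (b n ω)) (fun n => (x n).Θ)
        (fun j n => Cl (x n) (dep om (dg om (s + j * w))))
        (fun j n => (x n).C (sc (x n).M (dep om (dg om (s + j * w))) +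
          sc (zw om (x n) (dg om (s + j * w)) w).M (dep om (k, k)))) ⌈k * sg om⌉₊ N
        (fun j => bd _) (fun j => sm ((W.gt_dg (p j)).add ((W.gt_dep (t := (k, k)) k0 k0).smul
          w0.le)) (W.gt_dg (p _)) (z j _).2.1 fun a => ?_)
        fun j => sm (W.gt_dg (p j)) (W.gt_dg (p _)) (apx_sc x _) (mono ?_)).trans
        (Le.of_le fun n => ?_))
    · have e := (z j 0).1 n
      rw [sc_zero, add_zero] at e
      unfold Ib Cl Zl Sy.Z
      rw [(z j _).1 n, sc_zero, e]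
    · have e : dep om ((k : ℝ), (k : ℝ)) a = tt om a * (k * sg om) := by
        have := W.sg_pos
        unfold dep tt
        field_simp
      have := mul_le_mul_of_nonneg_left (Nat.le_ceil (k * sg om)) (mul_nonneg w0.le (W.tt_nn a))
      simp only [Pi.add_apply, Pi.smul_apply, smul_eq_mul, dep_dg, e]
      push_cast
      linarith
    · gcongr
      exact Nat.le_add_right _ _
    · have := mul_le_mul_of_nonneg_right (Nat.ceil_lt_add_one (mul_nonneg k0 W.sg_pos.le)).le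
        (show 0 ≤ (Fintype.card κ : ℝ) * (w * (x n).M) by positivity)
      linarith
  · refine (tele (fun n ω => rw (x n).M w (b n ω)) (fun n => (x n).Θ)
      (fun j n => Cl (x n) (dep om (dg om (s + j * w)) ⊔ dY om pos 1 0))
      (fun j n => Cl (x n) (dep om (dg om (s + j * w + w)) ⊔ dY om pos 1 0)) 1 N (fun j => bd _)
      (fun j => sm ((W.gt_dg (add_nonneg (p j) w0.le)).sup y) ((W.gt_dg (p _)).sup y) (apx_sc x _)
        (sup_le_sup_right (mono ?_) _)) fun j => sm ((W.gt_dg (p j)).sup y)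
          ((W.gt_dg (p _)).sup y) (apx_sc x _) (sup_le_sup_right (mono ?_) _)).trans
      (Le.of_le fun n => le_of_eq (by push_cast; ring)) <;> push_cast <;> linarith

namespace Grid2A

open GridA

variable {ι κ : Type} [Fintype ι] [DecidableEq ι] [Fintype κ] {Φ : Filt (Mt ι)}
  {om : κ → ℝ × ℝ} {pos : κ → Prop} {x : ℕ → Sy ι κ}

/-- The rate of one family above the level `t`. -/
noncomputable def FF (om : κ → ℝ × ℝ) (x : ℕ → Sy ι κ) (δ : ℝ) (k : Bool) (t : ℝ × ℝ) : ℝ :=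
  Hx x (dep om t + dU om k δ) - Hx x (dep om t)

theorem bd (hT : Term om) (h0 : G0 Φ om pos x) {δ : ℝ} (δ0 : 0 ≤ δ) (k : Bool) {t : ℝ × ℝ}
    (a : 0 ≤ t.1) (b : 0 ≤ t.2) : 0 ≤ FF om x δ k t ∧ FF om x δ k t ≤ sg om * δ := by
  have W := wk h0
  have pm := (rowLnk ι κ Φ om pos x hT h0).2.1
  have u := W.gt_dep a b
  have g := W.gt_dU k δ0
  have v := pm.lip _ _ u (u.add g) (le_add_of_nonneg_right g.nn)
  simp only [Pi.add_apply, add_sub_cancel_left] at v
  exact ⟨sub_nonneg.2 (pm.mono _ _ u (u.add g) (le_add_of_nonneg_right g.nn)),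
    by unfold FF; linarith [sum_dU W k δ0]⟩

theorem fin (hT : Term om) (h0 : G0 Φ om pos x) {w K : ℝ} (w0 : 0 < w) (hK : 0 ≤ K) (k : Bool)
    {t : ℝ × ℝ} (t1 : 0 ≤ t.1) (t2 : 0 ≤ t.2) :
    0 ≤ FF om x (w * K) k t - FF om x (w * K) k (t + lv k (w * K)) ∧
    Le (un x) (fun n => inD om (zw om (x n) t w) k K) fun n =>
      (FF om x (w * K) k t - FF om x (w * K) k (t + lv k (w * K))) * (x n).M := by
  have W := wk h0
  obtain ⟨-, pm, -, lk⟩ := rowLnk ι κ Φ om pos x hT h0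
  have δ0 : 0 ≤ w * K := by positivity
  have g := W.gt_dU k δ0
  have le : dep om t ≤ dep om t + dU om k (w * K) := le_add_of_nonneg_right g.nn
  have u := W.gt_dep t1 t2
  have u' : GT om pos (dep om (t + lv k (w * K))) :=
    dep_add (om := om) t _ ▸ u.add (W.gt_lv k δ0)
  have le' : dep om t ≤ dep om (t + lv k (w * K)) :=
    dep_add (om := om) t _ ▸ le_add_of_nonneg_right (W.gt_lv k δ0).nn
  have nn := pm.sub _ _ _ u (u.add g) u' le le'
  rw [sup_eq W k t δ0] at nn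
  obtain ⟨-, -, -, z⟩ := zmH0 ι κ Φ om pos x hT h0 t w t1 t2 w0
  have a := (z (dU om k K)).2.1
  have a1 := (z (dep om (lv k K))).2.1
  have a2 := (z 0).2.1
  rw [smul_dU] at a
  rw [smul_lv, ← dep_add] at a1
  rw [smul_zero, add_zero] at a2
  have r := ((lk _ _ _ _ _ _ (u.add g) u' u a a1 a2).2.2.2 le').1
  rw [sup_eq W k t δ0, sup_eq_left.2 le] at r
  refine ⟨by unfold FF; linarith, (Le.of_le fun n => le_of_eq ?_).trans r⟩
  simp only [inD, Cl, Zl, (z _).1 n]
  congr 1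
  funext ω
  exact congrArg (·, (x n).Θ ω) (congrFun ((z 0).1 n) ω)

end Grid2A

open GridA Grid2A in
theorem grid2 : Grid2 := fun ι κ _ _ _ Φ om pos x hT h0 x' h0' K ε hK hε => by
  have W := wk h0
  have p := W.sg_pos
  obtain ⟨N, hN⟩ := exists_nat_gt (4 * sg om * K / ε)
  have N0 : 0 < N := Nat.cast_pos.1 (lt_of_le_of_lt (by positivity) hN)
  obtain ⟨w, w0, w1, w2⟩ : ∃ w : ℝ, 0 < w ∧ w ≤ ε ∧ sg om * (N * (w * K)) + w ≤ 1 := by
    refine ⟨min ε (1 / (sg om * N * K + 1)), by positivity, min_le_left _ _, ?_⟩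
    linarith [(le_div_iff₀ (by positivity)).1 (min_le_right ε (1 / (sg om * N * K + 1)))]
  have δ0 : 0 ≤ w * K := by positivity
  obtain ⟨i, hi, j, hj, e⟩ := pick (fun i j => FF om x (w * K) true (i * (w * K), j * (w * K)) +
      FF om x' (w * K) true (i * (w * K), j * (w * K)))
    (fun i j => FF om x (w * K) false (i * (w * K), j * (w * K)) +
      FF om x' (w * K) false (i * (w * K), j * (w * K))) (c := ε * w)
    (B := 2 * (sg om * (w * K))) N0
    (by linarith [mul_le_mul_of_nonneg_right ((div_lt_iff₀ hε).1 hN).le w0.le]) fun i j => by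
      have a := fun k => bd hT h0 δ0 k (t := (i * (w * K), j * (w * K))) (by positivity)
        (by positivity)
      have b := fun k => bd hT h0' δ0 k (t := (i * (w * K), j * (w * K))) (by positivity)
        (by positivity)
      exact ⟨by linarith [a true, b true], by linarith [a true, b true],
        by linarith [a false, b false], by linarith [a false, b false]⟩
  obtain ⟨t, ht⟩ : ∃ t : ℝ × ℝ, t = (i * (w * K), j * (w * K)) := ⟨_, rfl⟩
  have e1 : t + lv true (w * K) = (i * (w * K), ((j + 1 : ℕ) : ℝ) * (w * K)) := by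
    rw [ht]; ext <;> simp [lv]; ring
  have e2 : t + lv false (w * K) = (((i + 1 : ℕ) : ℝ) * (w * K), j * (w * K)) := by
    rw [ht]; ext <;> simp [lv]; ring
  rw [← e1, ← e2, ← ht] at e
  have t1 : 0 ≤ t.1 ∧ t.1 ≤ N * (w * K) := by
    rw [ht]; exact ⟨by positivity, mul_le_mul_of_nonneg_right (Nat.cast_le.2 hi.le) δ0⟩
  have t2 : 0 ≤ t.2 ∧ t.2 ≤ N * (w * K) := by
    rw [ht]; exact ⟨by positivity, mul_le_mul_of_nonneg_right (Nat.cast_le.2 hj.le) δ0⟩
  obtain ⟨s, hs⟩ := GridA.wn W hT t1 t2 w0 w2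
  have a := fun k => fin hT h0 w0 hK k t1.1 t2.1
  have b := fun k => fin hT h0' w0 hK k t1.1 t2.1
  refine ⟨t, s, w, hs, w1, fun k => ⟨(a k).2.trans (rate_le ?_), (b k).2.trans (rate_le ?_)⟩⟩ <;>
    cases k <;> linarith [(a true).1, (a false).1, (b true).1, (b false).1]

end Pool.Agent.MP_5168f5_an.AN.TG.TA
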