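import Pool.Agent.MP_5168f5_an.AN.TPApi
import Pool.Agent.MP_5168f5_an.AN.TQZm
import Pool.Agent.MP_5168f5_an.AN.TGAll

/-! Kakeya sets in all dimensions: systems with a marked index, limits, zoom and exchange. -/

namespace Pool.Agent.MP_5168f5_an.AN.TG.TP

open H19 H17S H17F G39 GA Filter H61Z
open R4 (Eqv)
open GO (Pm Ab Nx ind df mI Aq)

section Pure

variable {κ : Type} [Fintype κ] {om : κ → ℝ × ℝ} {pos S : κ → Prop} {N : κ → κ → κ → Prop}
  {d d' : κ → ℝ} {r q σ : ℝ} {G : (κ → ℝ) → Prop} {H : (κ → ℝ) → ℝ}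

theorem inc_le (hP : Pm G H) (g : G d) (g' : G d') (e : G (d + ind S r)) (e' : G (d' + ind S q))
    (hr : 0 ≤ r) (l : ∀ a, d a ≤ d' a ∧ d' a ≤ d a + σ) (hq : q ≤ max (r - σ) 0) :
    H (d' + ind S q) - H d' ≤ H (d + ind S r) - H d := by
  have a := hP.sub _ _ _ g e g' (GO.le_add_ind hr d) fun a => (l a).1
  have b := hP.mono _ _ e' (hP.sup _ _ e g') fun a => by
    simp only [Pi.sup_apply, Pi.add_apply]
    by_cases z : S a
    · rw [GO.ind_pos z, GO.ind_pos z]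
      rcases le_max_iff.1 hq with y | y
      · exact le_sup_of_le_left (by linarith [(l a).2])
      · exact le_sup_of_le_right (by linarith)
    · rw [GO.ind_neg z, add_zero]; exact le_sup_right
  linarith

omit [Fintype κ] in
theorem dU_mono (hA : Ab om pos N) (k : Bool) {s s' : ℝ} (l : s ≤ s') (a : κ) :
    TA.dU om k s a ≤ TA.dU om k s' a ∧
      TA.dU om k s' a - TA.dU om k s a ≤ ((om a).1 + (om a).2) * (s' - s) := by
  have := mul_nonneg (add_nonneg (hA.wt a).1 (hA.wt a).2) (sub_nonneg.2 l)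
  unfold TA.dU; split_ifs <;> constructor <;> linarith

omit [Fintype κ] in
theorem dU_sw (k : Bool) (s : ℝ) : TA.dU (fun a => (om a).swap) k s = TA.dU om (!k) s := by
  funext a
  by_cases z : Pu om (!k) a
  · rw [TA.dU, TA.dU, if_pos z, if_pos (by rwa [TGSwapA.pu]), add_comm]; rfl
  · rw [TA.dU, TA.dU, if_neg z, if_neg (by rwa [TGSwapA.pu])]

end Pure

theorem tpRatE : SRatE := by
  intro ι κ _ _ _ Φ om pos t _ _ p h e
  have g := h.toG0
  have hA := GO.g_ab g
  have det : ∀ K : ℝ, 0 ≤ K → DetAt (ys p) t K := fun K hK => by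
    obtain ⟨q, hq⟩ := exists_rat_gt K
    have q0 : (0 : ℝ) ≤ q := hK.trans hq.le
    refine (det_iff h hK).2 (((GO.g_pm g).mono _ _ (h.gd_t GO.gd_zero hK) (h.gd_t GO.gd_zero q0)
      fun a => ?_).trans ((det_iff h q0).1 (e.det q (by exact_mod_cast q0))))
    simp only [GO.ind, Pi.add_apply]; split_ifs <;> linarith
  refine ⟨det, fun k v r h1 h2 hr => ?_, fun k s R hk hs hR => ?_⟩
  · have gv := hA.gd_dep h1 h2
    refine (fullM_iff g hr gv (gd_pu hA gv k hr)).2 (le_of_forall_pos_le_add fun ε hε => ?_)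
    have c0 : 0 ≤ GO.cd fun a => pos a ∧ Pu om k a := GO.cd_nn
    obtain ⟨δ, d0, d1⟩ : ∃ δ : ℝ, 0 < δ ∧ 2 * (GO.cd (fun a => pos a ∧ Pu om k a) + 1) * δ = ε :=
      ⟨ε / (2 * (GO.cd (fun a => pos a ∧ Pu om k a) + 1)), by positivity,
        mul_div_cancel₀ _ (by positivity)⟩
    obtain ⟨u, u1, u2, u3⟩ := TGRatA.rat g.alg.wt h1 h2 d0
    obtain ⟨q, q1, q2⟩ := exists_rat_btwn (show r - 2 * δ < r - δ by linarith)
    have v3 : (0 : ℝ) ≤ (max q 0 : ℚ) := by exact_mod_cast le_max_right q 0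
    have q3 : (q : ℝ) ≤ (max q 0 : ℚ) := by exact_mod_cast le_max_left q 0
    have gu := hA.gd_dep (x := ((u.1 : ℝ), (u.2 : ℝ))) (Rat.cast_nonneg.2 u1) (Rat.cast_nonneg.2 u2)
    have a := (fullM_iff g v3 gu (gd_pu hA gu k v3)).1 (e.f k u (max q 0) u1 u2 (le_max_right _ _))
    have b := inc_le (hs_pm h det) gv gu (gd_pu hA gv k hr) (gd_pu hA gu k v3) hr u3
      (by push_cast; exact max_le_max q2.le le_rfl)
    unfold df at a ⊢
    nlinarith [mul_le_mul_of_nonneg_left (q1.le.trans q3) c0]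
  · have a0 := gd_dU0 hA k hs
    have b0 := hA.gd_dep (lw_nn k hs hR).1 (lw_nn k hs hR).2
    refine (ind_iff g a0 b0 (dU_le hA k hs hR)).2 (le_of_forall_pos_le_add fun ε hε => ?_)
    have W := TA.wk g
    obtain ⟨s', s1, s2⟩ := exists_rat_btwn (lt_add_of_pos_right s (div_pos hε W.sg_pos))
    obtain ⟨R', R1⟩ := exists_rat_gt R
    have s0 : (0 : ℝ) ≤ s' := hs.trans s1.le
    have R0 : (0 : ℝ) ≤ R' := hR.trans R1.le
    have a1 := gd_dU0 hA k s0
    have b1 := hA.gd_dep (lw_nn k s0 R0).1 (lw_nn k s0 R0).2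
    have c1 := (ind_iff g a1 b1 (dU_le hA k s0 R0)).1
      (e.ind k s' R' hk (by exact_mod_cast s0) (by exact_mod_cast R0))
    have c2 := hi_mono g b0 b1 (hA.dep_le (by cases k; exacts [R1.le, s1.le])
      (by cases k; exacts [s1.le, R1.le]))
    have c3 := (GO.g_pm (g0_us g)).lip _ _ a0 a1 fun a => (dU_mono hA k s1.le a).1
    have c4 := (GO.g_pm g).mono _ _ a0 a1 fun a => (dU_mono hA k s1.le a).1
    have c5 := Finset.sum_le_sum (s := Finset.univ) fun a _ => (dU_mono hA k s1.le a).2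
    rw [← Finset.sum_mul] at c5
    have c6 : TA.sg om * (s' - s) ≤ ε := by
      rw [← le_div_iff₀' W.sg_pos]; linarith
    unfold TA.sg at c6
    simp only [Hi, hx_eq] at c1 c2 ⊢
    linarith

variable {ι κ : Type} [Fintype ι] [DecidableEq ι] [Fintype κ] {Φ : Filt (Mt ι)}
  {om om' : κ → ℝ × ℝ} {pos : κ → Prop} {t : κ} {x : ℕ → Sy ι κ}

omit [Fintype ι] [DecidableEq ι] [Fintype κ] in
/-- Negligible constants stay negligible after a bounded move of the base. -/
theorem neg_zm {D : ℕ → κ → ℝ} {m : ℕ → ℕ} {K K' : ℝ} {a b e : κ}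
    (h : Neg (un x) fun n => (x n).c a b e) (hD : ∀ᶠ n in UF, ∀ a, 0 ≤ D n a ∧ D n a ≤ K * (x n).M)
    (hm : ∀ᶠ n in UF, (m n : ℝ) ≤ K' * (x n).M) : Neg m fun n => sC (rA (D n)) (x n).c a b e :=
  ((h.mul_exp (v := fun n => rA (D n) a * rA (D n) b / rA (D n) e) (C := K) (hD.mono fun n u => by
    rw [rA, rA, rA, ← Real.exp_add, ← Real.exp_sub, Real.abs_exp, Real.exp_le_exp]
    linarith [(u a).1, (u b).1, (u e).2])).congr (Eventually.of_forall fun n => by
      simp only [sC]; ring)).up hm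

omit [Fintype ι] [DecidableEq ι] in
theorem dep_bd (w : ∀ a, 0 ≤ (om a).1 ∧ 0 ≤ (om a).2) {v : ℕ → ℝ × ℝ} (h : Lv x v) :
    ∃ K : ℝ, ∀ᶠ n in UF, ∀ a, 0 ≤ dep om (v n) a ∧ dep om (v n) a ≤ K * (x n).M := by
  obtain ⟨K, h⟩ := h
  refine ⟨(∑ a, ((om a).1 + (om a).2)) * K, h.mono fun n u a => ⟨add_nonneg
    (mul_nonneg (w a).1 u.1) (mul_nonneg (w a).2 u.2.2.1), ?_⟩⟩
  have := mul_le_mul_of_nonneg_right (Finset.single_le_sum (f := fun a => (om a).1 + (om a).2)
    (fun a _ => add_nonneg (w a).1 (w a).2) (Finset.mem_univ a)) (u.1.trans u.2.1)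
  unfold dep
  linarith [mul_le_mul_of_nonneg_left u.2.1 (w a).1, mul_le_mul_of_nonneg_left u.2.2.2 (w a).2]

theorem tpZm : OfZmP := by
  intro hz hs ι κ _ _ _ Φ om pos t kf C p h v m c K hv hc e
  have g := h.p0.toG0
  have hA := GO.g_ab g
  have hM := g.alg.big
  have m0 : ∀ n, (0 : ℝ) ≤ (p n).y.M := fun n => Nat.cast_nonneg _
  obtain ⟨K', e'⟩ := id hv
  obtain ⟨t1, p1, q1⟩ := TGSeqFA.lim hM (e'.mono fun n a => ⟨a.1, a.2.1⟩)
  obtain ⟨t2, p2, q2⟩ := TGSeqFA.lim hM (e'.mono fun n a => a.2.2)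
  obtain ⟨w, -, u⟩ := TGSeqFA.lim hM (f := fun n => m n) (e.mono fun n a => ⟨Nat.cast_nonneg _, a.2⟩)
  have w0 : 0 < w := hc.trans_le (Le.num hM ((Le.of_ev (e.mono fun n a => a.1)).trans u.1))
  have aq : Aq (un (ys p)) (fun n => dep om (v n)) (dep om (t1, t2)) := fun a =>
    ⟨((q1.1.smul (hA.wt a).1).add (q2.1.smul (hA.wt a).2)).of_sub
      (Eventually.of_forall fun n => by simp only [dep]; linarith),
    ((q1.2.smul (hA.wt a).1).add (q2.2.smul (hA.wt a).2)).of_sub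
      (Eventually.of_forall fun n => by simp only [dep]; linarith)⟩
  have g0 := hA.gd_dep (x := (t1, t2)) p1 p2
  have ed : ∀ y : ℝ × ℝ, dep om (t1, t2) + w • dep om y = dep om (t1 + w * y.1, t2 + w * y.2) :=
    fun y => funext fun a => by simp only [dep, Pi.add_apply, Pi.smul_apply, smul_eq_mul]; ring
  have gd : ∀ y : ℝ × ℝ, 0 ≤ y.1 → 0 ≤ y.2 → GO.Gd om (Nx (ys p)) (dep om (t1, t2) + w • dep om y) :=
    fun y a b => ed y ▸ hA.gd_dep (by positivity) (by positivity)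
  obtain ⟨K2, hK2⟩ := dep_bd hA.wt hv
  refine ⟨⟨TA.g0_zm g hv hc e, h.p0.tp, h.p0.tk, fun a b =>
    neg_zm (h.p0.nt a b) hK2 (e.mono fun _ a => a.2)⟩,
    sZm ι κ Φ om _ (us p) C h.ac v m c K hv hc e, ⟨fun L hL => det_zm h.p0 h.ep.det w0 hL aq u g0,
    fun k y r h1 h2 hr => ?_, fun k s R hk hs hR => ?_⟩, fun i y r h1 h2 hr => ?_⟩
  · have rw0 := mul_nonneg hr w0.le
    refine (fullM_zm g w0 hr aq u (gd y h1 h2) (gd_pu hA (gd y h1 h2) k rw0)).2 ?_
    refine (fullM_iff g rw0 (gd y h1 h2) (gd_pu hA (gd y h1 h2) k rw0)).1 ?_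
    rw [ed]
    exact h.ep.f k _ _ (by positivity) (by positivity) rw0
  · have ws := mul_nonneg w0.le hs
    have wR := mul_nonneg w0.le hR
    have g1 : GO.Gd om (Nx (ys p)) (dep om (t1, t2) + w • TA.dU om k s) := by
      rw [TA.smul_dU]; exact gd_dU hA g0 k ws
    have g2 := gd _ (lw_nn k hs hR).1 (lw_nn k hs hR).2
    refine ind_zm g w0 aq u g1 g2 (dU_le hA k hs hR) (hi_star g h.ep hk
      (s := (lw k t1 t2).1 + w * s) (R := (lw k t1 t2).2 + w * R)
      (add_nonneg (lw_nn k p1 p2).1 ws) (add_nonneg (lw_nn k p1 p2).2 wR) g1 g2 (fun a => ?_) ?_)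
    · by_cases z : Pu om k a
      · rw [Pi.add_apply, TA.smul_dU, TA.dU_pos z, TA.dU_pos z]
        cases k
        · simp [dep, lw, show (om a).1 = 0 from z.1, mul_add]
        · simp [dep, lw, show (om a).2 = 0 from z.2, mul_add]
      · rw [TA.dU_neg z]; exact g1.nn a
    · rw [ed]; cases k <;> exact le_rfl
  · have lv : Lv (us p) fun n => ((v n).1 + y.1 * m n, (v n).2 + y.2 * m n) :=
      ⟨K' + (y.1 + y.2) * |K|, by
        filter_upwards [e, e'] with n a b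
        have h3 := a.2.trans (mul_le_mul_of_nonneg_right (le_abs_self K) (m0 n))
        have h4 := mul_le_mul_of_nonneg_left h3 h1
        have h5 := mul_le_mul_of_nonneg_left h3 h2
        have h6 := mul_nonneg h1 (Nat.cast_nonneg (α := ℝ) (m n))
        have h7 := mul_nonneg h2 (Nat.cast_nonneg (α := ℝ) (m n))
        exact ⟨by linarith [b.1], by linarith [b.2.1], by linarith [b.2.2.1],
          by linarith [b.2.2.2]⟩⟩
    have ln : Ln (us p) fun n => r * m n := ⟨r * K, e.mono fun n a => ⟨by positivity, by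
      rw [mul_assoc]; exact mul_le_mul_of_nonneg_left a.2 hr⟩⟩
    obtain ⟨_, b⟩ := dep_bd hA.wt lv
    refine hz ι κ Φ om pos (us p) t _ _ _ _ _ m c⁻¹ (g0_us g) (e.mono fun n a => by
      rw [← div_eq_inv_mul, le_div_iff₀ hc]; linarith [a.1]) ?_
    simp only [TGZmA.dep_add, mul_assoc]
    exact hs ι κ Φ om pos (us p) t kf i _ _ _ h.p0.us h.hp lv ln
      ((sGd ι κ Φ om pos _ (g0_us g)).2 _ _ lv ln).1 (b.mono fun n u a => ⟨(u a).1, le_rfl⟩)
      (Le.of_le fun _ => le_rfl)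

theorem tpSwap : SSwapP := by
  intro ι κ _ _ _ Φ om pos t kf C p h
  have g := h.p0.toG0
  refine ⟨⟨⟨⟨TGSwapA.alg g.alg, g.unit⟩, h.p0.tp, fun z => h.p0.tk z.symm, h.p0.nt⟩,
    (sSwap ι κ Φ om _ _ C h.ac).1, ⟨h.ep.det, fun k v r h1 h2 hr => ?_, fun k s R hk hs hR => ?_⟩,
    fun i v r h1 h2 hr => ?_⟩, fun pos' sub tp g' => ⟨⟨g', tp, h.p0.tk, h.p0.nt⟩, h.ac,
    ⟨h.ep.det, fun k v r h1 h2 hr => ?_, h.ep.ind⟩, h.hp⟩⟩
  · rw [TGSwapA.dep_sw, TGSwapA.pu]; exact h.ep.f _ _ r h2 h1 hr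
  · rw [TGSwapA.pu] at hk
    rw [TGSwapA.dep_sw, dU_sw, show (lw k s R).swap = lw (!k) s R by cases k <;> rfl]
    exact h.ep.ind _ s R hk hs hR
  · rw [TGSwapA.dep_sw]; exact h.hp i _ r h2 h1 hr
  · have gv := (GO.g_ab g).gd_dep h1 h2
    have a := gd_pu (GO.g_ab g) gv k hr
    have b := gd_pu (GO.g_ab g') gv k hr
    exact (fullM_iff g hr gv b).2 ((GO.df_sub (hs_pm h.p0 h.ep.det) hr
      (fun a u => ⟨sub a u.1, u.2⟩) b a).trans ((fullM_iff g hr gv a).1 (h.ep.f k v r h1 h2 hr)))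

theorem step (ho : SOverP) (ht : STermP) (Φ : Filt (Mt ι)) (om : κ → ℝ × ℝ) (pos : κ → Prop)
    (t : κ) (h1 : IH1P Φ pos t) (h2 : IH2P Φ om pos t) : ThmAtP Φ om pos t := by
  classical
  intro kf C p hx
  have g := hx.p0.toG0
  by_cases hp : ∃ a, pos a ∧ a ≠ t
  swap
  · intro r _
    have h0 : cd (fun a => pos a ∧ a ≠ t) = 0 := by
      rw [show (fun a => pos a ∧ a ≠ t) = fun _ => False from
        funext fun a => propext ⟨fun h => hp ⟨a, h⟩, False.elim⟩]
      simp [cd]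
    refine Le.of_le fun n => ?_
    rw [h0, zero_mul, zero_mul]
    exact ch_nonneg _ _
  obtain ⟨f, hf, hm⟩ := Finset.exists_max_image (Finset.univ.filter fun a => pos a ∧ a ≠ t)
    (fun a => (om a).1 + (om a).2) (by obtain ⟨a, h⟩ := hp; exact ⟨a, by simpa using h⟩)
  have hf' : pos f ∧ f ≠ t := by simpa using hf
  have ng : ∀ a e, pos e → Neg (un (ys p)) fun n => (p n).y.c f a e := fun a e he => by
    by_cases z : e = t
    · exact z ▸ hx.p0.nt f a
    refine g.alg.hom f a e (g.alg.live e he) fun y => ?_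
    have := hm e (by simpa using ⟨he, z⟩)
    rw [y.2.2, Prod.fst_add, Prod.snd_add] at this
    linarith [(GO.g_ab g).abs_pos y.2.1]
  have g0 : G0 Φ om (fun e => pos e ∧ e ≠ f) (ys p) :=
    ⟨(sQuot ι κ _ Φ om pos _ _ f g.alg).2.2.1 fun a e _ he _ => ng a e he, g.unit⟩
  by_cases c1 : ∃ a, Mx om a ∧ (om f).1 * (om a).2 < (om a).1 * (om f).2
  · obtain ⟨a, h, h'⟩ := c1
    exact ho ι κ Φ om pos t kf C p f a hx hf'.1 hf'.2 g0 h h' h1 h2
  have hy := (tpSwap ι κ Φ om pos t kf C p hx).1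
  by_cases c2 : ∃ a, Mx om a ∧ (om a).1 * (om f).2 < (om f).1 * (om a).2
  · obtain ⟨a, h, h'⟩ := c2
    refine ho ι κ Φ _ pos t kf C p f a hy hf'.1 hf'.2 ⟨TGSwapA.alg g0.alg, g.unit⟩
      (by rw [TGThmA.mx_swap]; exact h) ?_ h1 ?_
    · simpa [mul_comm] using h'
    · intro om' e
      rw [TGThmA.mx_swap] at e
      exact h2 om' e
  have tm : TL.Term om := fun a b ha hb => by
    push Not at c1 c2
    have ea := le_antisymm (c1 a ha) (c2 a ha)
    have eb := le_antisymm (c1 b hb) (c2 b hb)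
    have w := g.alg.wt f
    have hpos2 : 0 < (om f).2 := by
      rcases w.2.lt_or_eq with h | h
      · exact h
      · exfalso
        rw [← h, mul_zero] at ea
        rcases mul_eq_zero.1 ea.symm with h' | h'
        · exact g.alg.live f hf'.1 (Prod.ext h' h.symm)
        · exact ha.2.ne' h'
    have : (om f).2 * ((om a).1 * (om b).2) = (om f).2 * ((om a).2 * (om b).1) := by
      linear_combination (om b).2 * ea - (om a).2 * eb
    exact mul_left_cancel₀ hpos2.ne' this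
  obtain ⟨k, hk⟩ := hx.p0.pu
  cases k
  · exact ht ι κ Φ _ pos t kf C p hy ⟨hk.2, hk.1⟩
      (fun a b u v => (tm a b u.symm v.symm).symm) h1
  · exact ht ι κ Φ om pos t kf C p hx hk tm h1

theorem tpThm : OfThmGP := by
  classical
  intro _ ho ht ι κ _ _ _ Φ
  have key : ∀ n m : ℕ, ∀ (om : κ → ℝ × ℝ) (pos : κ → Prop) (t : κ), cd pos = n → cd (Mx om) = m →
      ThmAtP Φ om pos t := by
    intro n
    induction n using Nat.strong_induction_on with
    | _ n ih =>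
      intro m
      induction m using Nat.strong_induction_on with
      | _ m ih2 =>
        intro om pos t e1 e2
        refine step ho ht Φ om pos t (fun om' pos' h => ?_) fun om' h => ?_
        · rw [e1] at h
          unfold cd at h
          exact ih _ (by exact_mod_cast h) _ om' pos' t rfl rfl
        · rw [e2] at h
          unfold cd at h
          exact ih2 _ (by exact_mod_cast h) om' pos t e1 rfl
  intro om pos t
  exact key _ _ om pos t rfl rfl

end Pool.Agent.MP_5168f5_an.AN.TG.TP
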