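import Pool.Agent.MP_5168f5_an.AN.TPSpec
import Pool.Agent.MP_5168f5_an.AN.TGAll
import Pool.Agent.MP_5168f5_an.QA.HApi

/-! Kakeya sets in all dimensions: the coarse context of a marked system can be frozen. -/

namespace Pool.Agent.MP_5168f5_an.AN.TG.TP

open H19 H17S H17F G39 GA Filter H61Z TGFrzA

namespace TPFrzA

/-- One point that satisfies countably many likely conditions. -/
theorem pick {Ω : ℕ → Type} {P : ∀ n, FP (Ω n)} {J : Type} [Countable J] [Nonempty J]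
    {c : J → ∀ n, Ω n → Prop} (h : ∀ j, Whp P (c j)) {E : ∀ n, Ω n → Prop} (hE : Pos P E) :
    ∃ ω : ∀ n, Ω n, (∀ᶠ n in UF, ω n ∈ (P n).S ∧ E n (ω n)) ∧ ∀ j, ∀ᶠ n in UF, c j n (ω n) := by
  obtain ⟨f, hf⟩ := exists_surjective_nat J
  obtain ⟨k, hk, e⟩ := whp_diag fun j => h (f j)
  have : ∀ n, Nonempty (Ω n) := fun n => (ex_ge (P n) 0).elim fun ω _ => ⟨ω⟩
  let ω : ∀ n, Ω n := fun n =>
    Classical.epsilon fun ω => ω ∈ (P n).S ∧ E n ω ∧ ∀ j ≤ k n, c (f j) n ω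
  have e2 : ∀ᶠ n in UF, ω n ∈ (P n).S ∧ E n (ω n) ∧ ∀ j ≤ k n, c (f j) n (ω n) :=
    (hE.and e).ex.mono fun n u => Classical.epsilon_spec u
  refine ⟨ω, e2.mono fun n u => ⟨u.1, u.2.1⟩, fun i => ?_⟩
  obtain ⟨j, rfl⟩ := hf i
  filter_upwards [e2, hk.ev j] with n u v using u.2.2 j (by exact_mod_cast v)

/-- Flat differences in some fibre. -/
theorem fHt {Ω T β : Type} {P : FP Ω} {X : Ω → ℝ} {K : Ω → T} {k : ℕ} {ε B : ℝ} (Θ : Ω → β)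
    (e : ∀ a b, K a = K b → Θ a = Θ b) (h : QA.Ht k P X K ε B) :
    ∃ ω ∈ P.S, QA.Ht k (cv P Θ (Θ ω)) X K ε B := by
  obtain ⟨G, a, b⟩ := h
  have e1 : pb P (fun ω => ¬G ω) = P.E fun ω => pb (cv P Θ (Θ ω)) fun v => ¬G v :=
    R4.ke.exp P Θ fun _ v => @ite ℝ (¬G v) (Classical.propDecidable _) 1 0
  obtain ⟨ω, hω, u⟩ := ex_le P fun ω => pb (cv P Θ (Θ ω)) fun v => ¬G v
  refine ⟨ω, hω, G, u.trans (e1.symm.trans_le a), fun v hv => ?_⟩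
  have m := (mem_cE (E := fun v => Θ v = Θ ω) ⟨ω, hω, rfl⟩ v).1 hv
  have e2 : cv (cv P Θ (Θ ω)) K (K v) = cv P K (K v) :=
    (cE_cE (E := fun w => Θ w = Θ ω) (E' := fun w => K w = K v) ⟨v, m.1, m.2, rfl⟩).trans
      (cE_congr (E' := fun w => K w = K v) fun w _ =>
        ⟨fun s => s.2, fun s => ⟨(e _ _ s).trans m.2, s⟩⟩)
  rw [e2]
  exact b v m.1

variable {ι κ : Type} [Fintype ι] [DecidableEq ι] [Fintype κ]

/-- The system with frozen coarse context. -/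
noncomputable abbrev fp (z : Sp ι κ) (θ : z.K) : Sp ι κ := z.cond fun ω => z.u.Θ ω = θ

theorem hy (z : Sp ι κ) (D D' : κ → ℝ) :
    z.y.H D D' = z.y.P.E fun ω => (fp z (z.u.Θ ω)).y.H D D' :=
  ent z.y.P z.u.Θ (G := z.y.Z D) fun _ _ _ _ e => congrArg (fun s => z.g s.2) e

theorem hu (z : Sp ι κ) (D D' : κ → ℝ) :
    z.u.H D D' = z.y.P.E fun ω => (fp z (z.u.Θ ω)).u.H D D' :=
  ent z.y.P z.u.Θ (G := z.u.Z D) (Fn.snd _ _)

variable {Φ : Filt (Mt ι)} {om : κ → ℝ × ℝ} {pos : κ → Prop} {t : κ} {kf : ℕ → ℕ} {C : ℝ}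
  {p : ℕ → Sp ι κ}

theorem key (hc : SCondP) (hx : GP Φ om pos t kf C p) (q : Sp ι κ → Prop)
    (hq : ∀ y, GP Φ om pos t kf C y → ∀ᶠ n in UF, ∃ ω ∈ (y n).y.P.S, q (fp (y n) ((y n).u.Θ ω))) :
    Whp (pr (ys p)) fun n ω => q (fp (p n) ((p n).u.Θ ω)) := by
  by_contra k
  have h := not_whp k
  obtain ⟨n, ⟨ω, hω, a⟩, b⟩ := ((hq _ (hc ι κ Φ om pos t kf C p hx _ h)).and h.sure).exists
  refine (b ω hω).2 ?_
  have e : cE (cE (p n).y.P fun ω => ¬q (fp (p n) ((p n).u.Θ ω)))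
      (fun v => (p n).g ((p n).y.Θ v) = (p n).g ((p n).y.Θ ω)) =
      cE (p n).y.P fun v => (p n).g ((p n).y.Θ v) = (p n).g ((p n).y.Θ ω) := by
    refine (cE_cE ?_).trans (cE_congr fun v _ => ⟨fun u => u.2, fun u => ⟨?_, u⟩⟩)
    · exact ⟨ω, (b ω hω).1, (b ω hω).2, rfl⟩
    · have u' : (p n).u.Θ v = (p n).u.Θ ω := u
      rw [u']
      exact (b ω hω).2
  simp only [fp, Sp.cond, Sy.cond] at a ⊢
  rwa [e] at a

/-- The context determines the marked coordinate. -/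
def C1 (t : κ) (r ε : ℝ) (z : Sp ι κ) : Prop :=
  z.y.H (sc z.y.M 0) (sc z.y.M (up 0 r fun a => a = t)) ≤ 0 + ε * z.y.M

/-- The other coordinates are full. -/
def C2 (t : κ) (d : κ → ℝ) (S : κ → Prop) (r ε : ℝ) (z : Sp ι κ) : Prop :=
  cd (fun a => S a ∧ a ≠ t) * r * z.y.M ≤ z.y.H (sc z.y.M d) (sc z.y.M (up d r S)) + ε * z.y.M

/-- The fine context has no information. -/
def C3 (d d' : κ → ℝ) (ε : ℝ) (z : Sp ι κ) : Prop :=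
  z.u.H (sc z.y.M d) (sc z.y.M d') ≤ z.y.H (sc z.y.M d) (sc z.y.M d') + ε * z.y.M

/-- The differences are flat. -/
def C4 (t : κ) (k i : ℕ) (d : κ → ℝ) (r ε : ℝ) (z : Sp ι κ) : Prop :=
  QA.Ht k z.y.P (tX z.u t (sc z.y.M d) (r * z.y.M)) (z.u.Z (sc z.y.M d)) ε
    (Real.exp (-((1 - 1 / (i + 1 : ℝ)) * r * z.y.M) + ε * z.y.M))

theorem f1 {r ε : ℝ} {z : Sp ι κ} (e : C1 t r ε z) : ∃ ω ∈ z.y.P.S, C1 t r ε (fp z (z.u.Θ ω)) := by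
  rw [C1, hy] at e
  exact (ex_le _ _).imp fun ω u => ⟨u.1, u.2.trans e⟩

theorem f2 {d : κ → ℝ} {S : κ → Prop} {r ε : ℝ} {z : Sp ι κ} (e : C2 t d S r ε z) :
    ∃ ω ∈ z.y.P.S, C2 t d S r ε (fp z (z.u.Θ ω)) := by
  rw [C2, hy] at e
  exact (ex_ge _ _).imp fun ω u => ⟨u.1, e.trans (add_le_add_left u.2 _)⟩

theorem f3 {d d' : κ → ℝ} {ε : ℝ} {z : Sp ι κ} (e : C3 d d' ε z) :
    ∃ ω ∈ z.y.P.S, C3 d d' ε (fp z (z.u.Θ ω)) := by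
  rw [C3, ← sub_le_iff_le_add', hy, hu, ← FP.E_sub] at e
  exact (ex_le _ _).imp fun ω u => ⟨u.1, sub_le_iff_le_add'.1 (u.2.trans e)⟩

theorem f4 {k i : ℕ} {d : κ → ℝ} {r ε : ℝ} {z : Sp ι κ} (e : C4 t k i d r ε z) :
    ∃ ω ∈ z.y.P.S, C4 t k i d r ε (fp z (z.u.Θ ω)) := by
  obtain ⟨ω, hω, u⟩ := fHt z.u.Θ (fun _ _ s => congrArg Prod.snd s) e
  exact ⟨ω, hω, u⟩

/-- The conditions with rational parameters. -/
def Cp (om : κ → ℝ × ℝ) (pos : κ → Prop) (t : κ) (kf : ℕ → ℕ) (i : Bool × (ℚ × ℚ) × ℚ × ℕ × ℕ)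
    (z : Sp ι κ) : Prop := 0 ≤ i.2.1.1 → 0 ≤ i.2.1.2 → 0 ≤ i.2.2.1 →
  C1 t i.2.2.1 (1 / (i.2.2.2.2 + 1 : ℝ)) z ∧
  C2 t (dep om (i.2.1.1, i.2.1.2)) (fun a => pos a ∧ Pu om i.1 a) i.2.2.1
    (1 / (i.2.2.2.2 + 1 : ℝ)) z ∧
  C4 t (kf i.2.2.2.1) i.2.2.2.1 (dep om (i.2.1.1, i.2.1.2)) i.2.2.1 (1 / (i.2.2.2.2 + 1 : ℝ)) z ∧
  (Pu om i.1 t → C3 (TA.dU om i.1 i.2.1.1) (dep om (lw i.1 i.2.1.1 i.2.2.1))
    (1 / (i.2.2.2.2 + 1 : ℝ)) z)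

theorem whp_cp (hc : SCondP) (hx : GP Φ om pos t kf C p) (i : Bool × (ℚ × ℚ) × ℚ × ℕ × ℕ) :
    Whp (pr (ys p)) fun n ω => Cp om pos t kf i (fp (p n) ((p n).u.Θ ω)) := by
  obtain ⟨k, v, r, i, m⟩ := i
  by_cases h : 0 ≤ v.1 ∧ 0 ≤ v.2 ∧ 0 ≤ r
  swap
  · exact Whp.of_ev (Eventually.of_forall fun n _ _ a b c => absurd ⟨a, b, c⟩ h)
  have a : (0 : ℝ) ≤ v.1 := by exact_mod_cast h.1
  have b : (0 : ℝ) ≤ v.2 := by exact_mod_cast h.2.1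
  have c : (0 : ℝ) ≤ r := by exact_mod_cast h.2.2
  have d : (0 : ℝ) < 1 / (m + 1 : ℝ) := by positivity
  have h1 := key hc hx (C1 t r (1 / (m + 1 : ℝ))) fun y g =>
    (g.ep.det r c _ d).mono fun n e => f1 e
  have h2 := key hc hx (C2 t (dep om (v.1, v.2)) (fun a => pos a ∧ Pu om k a) r (1 / (m + 1 : ℝ)))
    fun y g => (g.ep.f k (v.1, v.2) r a b c _ d).mono fun n e => f2 e
  have h4 := key hc hx (C4 t (kf i) i (dep om (v.1, v.2)) r (1 / (m + 1 : ℝ))) fun y g =>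
    (g.hp i (v.1, v.2) r a b c _ d).mono fun n e => f4 e
  by_cases h' : Pu om k t
  · have h3 := key hc hx (C3 (TA.dU om k v.1) (dep om (lw k v.1 r)) (1 / (m + 1 : ℝ))) fun y g =>
      (g.ep.ind k v.1 r h' a c _ d).mono fun n e => f3 e
    exact (h1.and (h2.and (h4.and h3))).mono (Eventually.of_forall fun n ω _ u _ _ _ =>
      ⟨u.1, u.2.1, u.2.2.1, fun _ => u.2.2.2⟩)
  · exact (h1.and (h2.and h4)).mono (Eventually.of_forall fun n ω _ u _ _ _ =>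
      ⟨u.1, u.2.1, u.2.2, fun w => absurd w h'⟩)

/-- The rational conditions give a system. -/
theorem gs_of {x : ℕ → Sy ι κ} (h : G0 Φ om pos x) (hC : 1 ≤ C)
    (e : ∀ i, ∀ᶠ n in UF, Cn om pos C i (x n)) : GS Φ om pos C x := by
  refine sRat ι κ Φ om pos _ C ⟨h, hC, ?_, ?_⟩
  · intro k t r a b c ε hε
    obtain ⟨m, hm⟩ := exists_nat_one_div_lt hε
    exact (e (k, t, r, 0, m)).mono fun n u => (u a b c).1.trans
      (add_le_add_right (mul_le_mul_of_nonneg_right hm.le (Nat.cast_nonneg _)) _)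
  · intro k t η ρ a b c d ε hε
    obtain ⟨m, hm⟩ := exists_nat_one_div_lt hε
    exact (e (k, t, ρ, η, m)).mono fun n u W β Q π s l c0 h1 h2 h3 =>
      ((u a b d).2 c W β Q π s l c0 h1 h2 h3).trans (add_le_add_right hm.le _)

theorem ep_of (e : ∀ i, ∀ᶠ n in UF, Cp om pos t kf i (p n)) : EPq om pos t p := by
  refine ⟨fun K a ε hε => ?_, fun k v r a b c ε hε => ?_, fun k s R h a b ε hε => ?_⟩ <;>
    obtain ⟨m, hm⟩ := exists_nat_one_div_lt hε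
  · exact (e (true, (0, 0), K, 0, m)).mono fun n u => (u le_rfl le_rfl a).1.trans
      (add_le_add_right (mul_le_mul_of_nonneg_right hm.le (Nat.cast_nonneg _)) _)
  · exact (e (k, v, r, 0, m)).mono fun n u => (u a b c).2.1.trans
      (add_le_add_right (mul_le_mul_of_nonneg_right hm.le (Nat.cast_nonneg _)) _)
  · exact (e (k, (s, 0), R, 0, m)).mono fun n u => ((u a le_rfl b).2.2.2 h).trans
      (add_le_add_right (mul_le_mul_of_nonneg_right hm.le (Nat.cast_nonneg _)) _)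

theorem hp_of (e : ∀ i, ∀ᶠ n in UF, Cp om pos t kf i (p n)) : HPq om t kf (us p) := by
  intro i v r a b c ε hε
  obtain ⟨m, hm⟩ := exists_nat_one_div_lt hε
  exact (e (true, v, r, i, m)).mono fun n u => QA.Ht.mono (u a b c).2.2.1 hm.le
    (Real.exp_le_exp.2 (add_le_add_right (mul_le_mul_of_nonneg_right hm.le (Nat.cast_nonneg _)) _))

end TPFrzA

open TPFrzA in
theorem tpFrz : OfFrzP := by
  intro hc he hh ι κ _ _ _ Φ om pos t kf C p hx G hG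
  obtain ⟨ω, e1, e2⟩ := pick (J := (Bool × (ℚ × ℚ) × ℚ × ℚ × ℕ) × Bool × (ℚ × ℚ) × ℚ × ℕ × ℕ)
    (fun j => Whp.and (P := pr (ys p)) (whp_cn sCond hx.ac j.1) (whp_cp hc hx j.2)) hG
  have u : ∀ᶠ n in UF, ∀ v ∈ (fp (p n) ((p n).u.Θ (ω n))).y.P.S, IsUnit ((p n).y.j v) :=
    hx.p0.unit.mono fun n u v hv => u v (cE_sub hv)
  have p0 : P0 Φ om pos t (ys fun n => fp (p n) ((p n).u.Θ (ω n))) :=
    ⟨⟨hx.p0.alg, u⟩, hx.p0.tp, hx.p0.tk, hx.p0.nt⟩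
  have e3 : ∀ i, ∀ᶠ n in UF, Cp om pos t kf i (fp (p n) ((p n).u.Θ (ω n))) := fun i =>
    (e2 ((true, (0, 0), 0, 0, 0), i)).mono fun _ a => a.2
  exact ⟨fun n => (p n).u.Θ (ω n), e1.mono fun n a => ⟨a.2, _, a.1, rfl⟩, p0,
    gs_of ⟨hx.ac.alg, u⟩ hx.ac.one fun i =>
      (e2 (i, true, (0, 0), 0, 0, 0)).mono fun _ a => a.1,
    he ι κ Φ om pos t kf C _ p0 (ep_of e3),
    hh ι κ Φ om pos _ t kf ⟨⟨hx.p0.alg, u⟩, hx.p0.tp, hx.p0.tk, hx.p0.nt⟩ (hp_of e3)⟩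

end Pool.Agent.MP_5168f5_an.AN.TG.TP
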