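import Pool.Agent.MP_5168f5_an.AN.TPSpec
import Pool.Agent.MP_5168f5_an.AN.TGAll
import Pool.Agent.MP_5168f5_an.QA.HApi

/-! The marked coordinate: change of the base, real parameters, sequences of levels. -/

namespace Pool.Agent.MP_5168f5_an.AN.TG.TP

open H19 H17S H17F G39 GA Filter H61Z QA

namespace TPHsA

variable {Ω T : ℕ → Type} {P : ∀ n, FP (Ω n)} {X : ∀ n, Ω n → ℝ} {K : ∀ n, Ω n → T n}
  {R R' : ℕ → ℕ} {s : ℕ → ℝ} {k : ℕ} {C : ℝ}

theorem unit (e : ∀ᶠ n in UF, (R n : ℝ) ≤ C * R' n) (h : HT1 k P X K R s) : HT1 k P X K R' s :=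
  fun ε hε => by
    filter_upwards [h (ε / (|C| + 1)) (by positivity), e] with n a b
    have h1 : (R n : ℝ) ≤ (|C| + 1) * R' n := b.trans (mul_le_mul_of_nonneg_right
      ((le_abs_self C).trans (le_add_of_nonneg_right zero_le_one)) (Nat.cast_nonneg _))
    have h2 := mul_le_mul_of_nonneg_left h1 (show 0 ≤ ε / (|C| + 1) by positivity)
    rw [← mul_assoc, div_mul_cancel₀ _ (by positivity)] at h2
    exact a.mono (div_le_self hε.le (le_add_of_nonneg_left (abs_nonneg C)))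
      (Real.exp_le_exp.2 (by linarith))

theorem eps (h : ∀ σ : ℝ, 0 < σ → HT1 k P X K R fun n => s n - σ * R n) : HT1 k P X K R s :=
  fun ε hε => (h _ (half_pos hε) _ (half_pos hε)).mono fun _ a =>
    a.mono (by linarith) (Real.exp_le_exp.2 (by linarith))

theorem th (i : ℕ) : 0 ≤ 1 - 1 / (i + 1 : ℝ) ∧ 1 - 1 / (i + 1 : ℝ) ≤ 1 :=
  ⟨sub_nonneg.2 (div_le_one_of_le₀ (le_add_of_nonneg_left i.cast_nonneg) (by positivity)),
    sub_le_self _ (by positivity)⟩

variable {ι κ : Type} [Fintype ι] [DecidableEq ι] [Fintype κ] {Φ : Filt (Mt ι)}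
  {om : κ → ℝ × ℝ} {pos : κ → Prop} {x : ℕ → Sy ι κ}

theorem gd (g : G0 Φ om pos x) {v : ℝ × ℝ} (h1 : 0 ≤ v.1) (h2 : 0 ≤ v.2) :
    Gd x fun n => sc (x n).M (dep om v) := by
  simp only [TGRatA.sc_dep]
  refine ((sGd _ _ Φ om pos x g).2 (fun n => (v.1 * (x n).M, v.2 * (x n).M)) (fun _ => 0)
    ⟨v.1 + v.2, .of_forall fun n => ?_⟩ ⟨0, .of_forall fun n => by simp⟩).1
  have := mul_nonneg h1 (Nat.cast_nonneg (x n).M)
  have := mul_nonneg h2 (Nat.cast_nonneg (x n).M)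
  refine ⟨?_, ?_, ?_, ?_⟩ <;> linarith

end TPHsA

open TPHsA

theorem tpHz : SHz := by
  intro ι κ _ _ _ Φ om pos x t k D0 D r s m K h e H
  obtain ⟨L, -, hL⟩ := sCell Φ.N (Fintype.card κ)
  simp only [HtA, TGZmA.z_zm Φ]
  refine unit e (HT1.congr H ?_)
  filter_upwards [h.alg.fr, h.unit] with n a b ω hω
  rw [tX, tX, TGZmA.c_zm Φ, TGZmA.co_zm (p := (x n).C (D0 n + D n) ω) a (D0 n) (D n) (m n) (b ω hω)
    ((hL ι κ Φ (x n).B (x n).c (rA (D0 n + D n)) (rA (D0 n + D n)) 1 rfl le_rfl a le_rfl fun a =>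
      ⟨TGZmA.rA_pos _ a, (one_mul _).ge⟩).1 _)]

theorem tpRatH : OfRatH := by
  intro hm ι κ _ _ _ Φ om pos x t kf h H i v r h1 h2 h3
  have g := h.toG0
  have m0 : ∀ n, (0 : ℝ) ≤ (x n).M := fun n => Nat.cast_nonneg _
  refine eps fun σ hσ => ?_
  obtain ⟨u, u1, u2, u3⟩ := TGRatA.rat g.alg.wt h1 h2 (half_pos hσ)
  obtain ⟨q, q1, q2⟩ := exists_rat_btwn (show r - σ < r - σ / 2 by linarith)
  rcases le_total 0 q with q0 | q0
  · refine HT1.mono (hm ι κ Φ om pos x t _ (fun n => sc (x n).M (dep om v)) _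
      (fun n => r * (x n).M) _ _ h (gd g h1 h2) (gd g (Rat.cast_nonneg.2 u1) (Rat.cast_nonneg.2 u2))
      ⟨r + ∑ a, |dep om v a|, .of_forall fun n => ⟨mul_le_mul_of_nonneg_right
        (le_add_of_nonneg_right (by positivity)) (m0 n), fun a => ?_⟩⟩
      (fun a => Le.of_le fun n => mul_le_mul_of_nonneg_right (u3 a).1 (m0 n))
      (Le.of_le fun n => ?_) (H i u q u1 u2 q0)) (Le.of_le fun n => ?_)
    · rw [sc, abs_mul, Nat.abs_cast]
      exact mul_le_mul_of_nonneg_right ((Finset.single_le_sum (f := fun a => |dep om v a|)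
        (fun _ _ => abs_nonneg _) (Finset.mem_univ a)).trans (le_add_of_nonneg_left h3)) (m0 n)
    · simp only [sc, ← add_mul]
      exact mul_le_mul_of_nonneg_right (by linarith [(u3 t).2]) (m0 n)
    · rw [← sub_mul]
      exact mul_le_mul_of_nonneg_right (by nlinarith [th i]) (m0 n)
  · refine ht1_sm (Le.of_le fun n => ?_) _ _ _ _
    have : (q : ℝ) ≤ 0 := by exact_mod_cast q0
    rw [← sub_mul]
    exact mul_nonpos_of_nonpos_of_nonneg (by nlinarith [th i]) (m0 n)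

open TGSeqFA in
theorem tpHs : OfHs := by
  intro hm ι κ _ _ _ Φ om pos x t kf i v D r h H ⟨K, e⟩ ⟨K', e'⟩ gD hD ht
  have g := h.toG0
  have w := g.alg.wt
  have hM := g.alg.big
  obtain ⟨t1, p1, q1⟩ := lim hM (e.mono fun n a => ⟨a.1, a.2.1⟩)
  obtain ⟨t2, p2, q2⟩ := lim hM (e.mono fun n a => a.2.2)
  obtain ⟨r0, p0, q0⟩ := lim hM e'
  refine HT1.mono (hm ι κ Φ om pos x t _ D _ r _ _ h gD (gd (v := (t1, t2)) g p1 p2)
    ⟨|K'| + (∑ a, ((om a).1 + (om a).2)) * |K|, ?_⟩ (fun a => ?_) ?_ (H i (t1, t2) r0 p1 p2 p0))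
    ((q0.1.smul (th i).1).of_sub (.of_forall fun n => by rw [mul_assoc]))
  · filter_upwards [e, e', hD] with n a b c
    have m0 : (0 : ℝ) ≤ (x n).M := Nat.cast_nonneg _
    have w0 : 0 ≤ ∑ a, ((om a).1 + (om a).2) :=
      Finset.sum_nonneg fun a _ => add_nonneg (w a).1 (w a).2
    have k := mul_le_mul_of_nonneg_right (le_abs_self K) m0
    have k0 := mul_nonneg (abs_nonneg K) m0
    have k' := mul_le_mul_of_nonneg_right (le_abs_self K') m0
    have k1 := mul_nonneg (abs_nonneg K') m0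
    refine ⟨by nlinarith [mul_nonneg w0 k0], fun j => ?_⟩
    have s1 := mul_le_mul_of_nonneg_right (Finset.single_le_sum
      (f := fun a => (om a).1 + (om a).2) (fun a _ => add_nonneg (w a).1 (w a).2)
      (Finset.mem_univ j)) k0
    have s2 := (c j).2
    rw [abs_of_nonneg (c j).1]
    simp only [dep] at s2
    nlinarith [mul_le_mul_of_nonneg_left (a.2.1.trans k) (w j).1,
      mul_le_mul_of_nonneg_left (a.2.2.2.trans k) (w j).2]
  · simp only [sc_dep]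
    exact (Le.of_ev (hD.mono fun n c => (c a).2)).trans (le_dep (w a) q1.1 q2.1)
  · simp only [sc_dep]
    exact ((le_dep (t' := v) (w t) q1.2 q2.2).trans ht).add q0.2

end Pool.Agent.MP_5168f5_an.AN.TG.TP
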