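import Pool.Agent.MP_5168f5_an.AN.TPOvC

/-! Kakeya sets in all dimensions: the overfeeding step for marked systems. -/

namespace Pool.Agent.MP_5168f5_an.AN.GO.OP

open H19 H17S H17F G39 GA Filter H61Z TG TG.TP R4

theorem tpOver : OfOverP := by
  intro hK ι κ _ _ _ Φ om pos τ kf C p f a h hf ft h0 ha hlt I1 I2
  classical
  set x := ys p with hx
  have g : G0 Φ om pos x := h.p0.toG0
  obtain ⟨a0, m0, hx⟩ := Finset.exists_max_image (Finset.univ.filter (Mx om))
    (fun e => (om e).1 / (om e).2) ⟨a, by simpa using ha⟩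
  have m1 : Mx om a0 := by simpa using m0
  set μ := (om a0).1 / (om a0).2 with hμ
  have top : ∀ e, Mx om e → (om e).1 ≤ μ * (om e).2 := fun e u =>
    (div_le_iff₀ u.2).1 (hx e (by simpa using u))
  have x0 : Ex om μ a0 := ⟨m1, by rw [hμ, div_mul_cancel₀ _ m1.2.ne']⟩
  let lv : κ → ℕ := fun e => if e = τ then 3 else if pos e then (if e = f then 1 else 2) else 0
  obtain ⟨A, A', t, h1, h2, hT, hO⟩ := goOV1 ι κ _ Φ om pos _ _ μ
    lv g.alg (div_pos m1.1 m1.2) top
  have n0 : ∀ u v, om u ≠ om v ∨ lv u < lv v →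
      Neg (un x) (fun n => A n u v) ∧ Neg (un x) fun n => A' n u v := fun u v w =>
    ⟨neg_ev (h1.mono fun n c => not_not.1 fun z => w.elim (fun y => y (c.2.1 u v z).1.symm)
      fun y => absurd (c.2.1 u v z).2 (not_le.2 y)),
    neg_ev (h1.mono fun n c => not_not.1 fun z => w.elim (fun y => y (c.2.2 u v z).1.symm)
      fun y => absurd (c.2.2 u v z).2 (not_le.2 y))⟩
  have nt : ∀ u, u ≠ τ → Neg (un x) (fun n => A n u τ) ∧ Neg (un x) fun n => A' n u τ :=
    fun u c => n0 u τ (Or.inr (by simp only [lv, if_neg c, if_true]; split_ifs <;> omega))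
  obtain ⟨b1, b2⟩ := hK.bas ι κ Φ om pos τ kf C p A A' h (h1.mono fun _ c => c.1) h2
    (fun u v w => n0 u v (w.imp_right fun c => by
      have : u ≠ τ := fun z => c.1 (z ▸ h.p0.tp)
      simp only [lv, if_neg this, if_neg c.1, if_pos c.2]; split_ifs <;> omega)) nt
  obtain ⟨b3, -⟩ := hK.bas ι κ Φ om _ τ kf C p A A'
    ((hK.swap ι κ Φ om pos τ kf C p h).2 _ (fun _ c => c.1) ⟨h.p0.tp, ft.symm⟩ h0)
    (h1.mono fun _ c => c.1) h2 (fun u v w => n0 u v (w.imp_right fun c => by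
      have : u ≠ τ := fun z => c.1 (z ▸ ⟨h.p0.tp, ft.symm⟩)
      have k : pos u → u = f := fun y => not_not.1 fun z => c.1 ⟨y, z⟩
      simp only [lv, if_neg this, if_pos c.2.1, if_neg c.2.2]
      by_cases y : pos u
      · rw [if_pos y, if_pos (k y)]; split_ifs <;> omega
      · rw [if_neg y]; split_ifs <;> omega)) nt
  by_contra hn
  obtain ⟨y, r, e, r0, e0, hy⟩ := stA hK.zm hK.cf b1 b3 hO (mt b2 hn)
  have f2 : 0 < (om f).2 := by
    nlinarith [mul_nonneg (g.alg.wt f).1 ha.2.le, ha.1, (g.alg.wt f).2]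
  refine stB hK hT hy r0 e0 (fun u w => ⟨And.left, fun p => ⟨p, ?_⟩⟩) (I1 om _ (cd_lt (fun _ c => c.1) hf
      fun c => c.2 rfl)) (I2 _ (cd_lt (fun e c => ((hT.mx e).1 c).1) m1
        fun c => ((hT.mx a0).1 c).2 x0))
  rintro rfl
  rcases w with w | w
  · exact f2.ne' w.2
  · rw [w.2] at hlt
    nlinarith [mul_le_mul_of_nonneg_right (top a ha) f2.le]

end Pool.Agent.MP_5168f5_an.AN.GO.OP
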