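import Pool.Agent.MP_5168f5_an.AN.TPSpec
import Pool.Agent.MP_5168f5_an.AN.TGAll
import Pool.Agent.MP_5168f5_an.AN.TAApi
import Pool.Agent.MP_5168f5_an.QA.HApi

/-! Marked systems: side data that are independent of the cells can be added to the contexts. -/

namespace Pool.Agent.MP_5168f5_an.AN.TG.TP

open H19 H17S H17F G39 GA Filter H61Z TGSideA

namespace TPSideA

variable {ι κ : Type} [Fintype ι] [DecidableEq ι] [Fintype κ] {Φ : Filt (Mt ι)}
  {om : κ → ℝ × ℝ} {pos : κ → Prop} {x : ℕ → Sy ι κ} {v : ℝ × ℝ} {r s : ℝ} {d : κ → ℝ}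

theorem gdU (h : G0 Φ om pos x) (k : Bool) (hs : 0 ≤ s) :
    Gd x fun n => sc (x n).M (TA.dU om k s) := by
  have g := (TA.wk h).gt_dU k hs
  refine (sGd _ _ Φ om pos x h).1 _ fun a b e l => ?_
  have u : Pu om k e := by
    by_contra u
    rw [TA.dU_neg u] at l
    linarith [g.nn a, g.nn b]
  refine h.alg.hom a b e (TA.pu_live u) fun y => ?_
  have z := (TA.wk h).hm_pu y u
  exact absurd (g.id a b e y (TA.pu_not_mx z.1) (TA.pu_not_mx z.2) (by
    rw [TA.dU_pos u, TA.dU_pos z.1, TA.dU_pos z.2, y.2.2, Prod.fst_add, Prod.snd_add] at l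
    linarith)) (not_le.2 l)

theorem info' (h : G0 Φ om pos x) (g : Gd x fun n => sc (x n).M d) (d0 : ∀ a, 0 ≤ d a)
    (e : ∀ a, d a ≤ dep om (s, s) a) {K : ℕ → Type} {b : ∀ n, (x n).Ω → K n}
    (hb : Sm (un x) fun n => mi (x n).P (b n) ((x n).C (sc (x n).M (dep om (s, s))))
      ((x n).Z (sc (x n).M 0))) :
    Sm (un x) fun n => mi (x n).P (b n) ((x n).C (sc (x n).M (dep om (s, s))))
      ((x n).Z (sc (x n).M d)) := by
  have g0 := (gd (t := (0, 0)) sGd h le_rfl le_rfl le_rfl).1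
  rw [show dep om (0, 0) = 0 from funext fun a => by simp [dep]] at g0
  have r1 := sRef _ _ Φ om pos x h _ _ g0 (led (d' := d) d0)
  have r2 := sRef _ _ Φ om pos x h _ _ g (led e)
  exact ((hb.add r1).add r2).mono (Eventually.of_forall fun n => shift _ _ _ _ _)

/-- A deep cell determines the marked coordinate. -/
theorem flo (h : G0 Φ om pos x) {t : κ} (ht : om t ≠ 0) (h1 : 0 ≤ v.1) (h2 : 0 ≤ v.2)
    (hr : 0 ≤ r) (hs : 0 ≤ s) (e : ∀ a, up (dep om v) r (fun a => om a ≠ 0) a ≤ dep om (s, s) a) :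
    Sm (un x) fun n => ch (x n).P (fun ω => ⌊tX (x n) t (sc (x n).M (dep om v)) (r * (x n).M) ω⌋)
      fun ω => ((x n).C (sc (x n).M (dep om (s, s))) ω, (x n).C (sc (x n).M (dep om v)) ω) := by
  have g := (gd sGd h h1 h2 le_rfl).1
  obtain ⟨_, -, c1⟩ := GO.GOh1A.same sNr sCell h.alg.big h.alg.fr g
  obtain ⟨L, l, c2⟩ := GO.GOh1A.same sNr sCell h.alg.big h.alg.fr
    (gd (t := (s, s)) sGd h hs hs le_rfl).1
  obtain ⟨L', l', lp⟩ := sLip _ _ Φ om pos x h _ L g ⟨∑ a, |dep om v a|, .of_forall fun n a => by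
    rw [sc, abs_mul, Nat.abs_cast]
    exact mul_le_mul_of_nonneg_right (Finset.single_le_sum (f := fun a => |dep om v a|)
      (fun _ _ => abs_nonneg _) (Finset.mem_univ a)) (Nat.cast_nonneg _)⟩ l
  have r0 : ∀ (d : κ → ℝ) a, 0 ≤ rA d a := fun _ _ => (Real.exp_pos _).le
  have rm : ∀ (m : ℕ) {d d' : κ → ℝ}, (∀ a, d a ≤ d' a) → ∀ a, rA (sc m d') a ≤ rA (sc m d) a :=
    fun m _ _ e a => Real.exp_le_exp.2
      (neg_le_neg (mul_le_mul_of_nonneg_right (e a) (Nat.cast_nonneg _)))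
  have u := le_up (d := dep om v) (S := fun a => om a ≠ 0) hr fun a c => c
  refine (Sm.near1 (j := fun _ => 0) (P := pr x) (x := fun n =>
    tX (x n) t (sc (x n).M (dep om v)) (r * (x n).M)) (G := fun n ω =>
      ((x n).C (sc (x n).M (dep om (s, s))) ω, (x n).C (sc (x n).M (dep om v)) ω))
    h.alg.big l' ?_).mono (.of_forall fun n => le_of_eq (by simp only [fl1, pow_zero, one_mul]))
  filter_upwards [c1, c2, lp r, h.alg.fr, h.unit] with n c1 c2 lp fr un ω _ ω' hω' q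
  simp only [Prod.mk.injEq] at q
  have n1 := (c1 ((x n).j ω')).1
  have n2 := (c2 ((x n).j ω')).2 _ q.1.symm
  have n3 := TGSBRA.mono n2 (rm _ e) (r0 _) le_rfl (l.pos n).le
  rw [sc_up] at n3
  have := (lp _ _ _ (TGSBRA.unit fr n1 (un _ hω'))
    (TGSBRA.mono n1 (fun _ => le_rfl) (r0 _) (l.1 n) (l.pos n).le)
    (TGSBRA.mono n2 (rm _ fun a => (u a).1.trans (e a)) (r0 _) le_rfl (l.pos n).le)).1 _
    (mul_nonneg hr (Nat.cast_nonneg _)) le_rfl n3 t ht
  rw [tX, tX, q.2, ← mul_sub, abs_mul, abs_of_pos (Real.exp_pos _), pow_zero, div_one]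
  refine (mul_le_mul_of_nonneg_left this (Real.exp_pos _).le).trans (le_of_eq ?_)
  rw [mul_left_comm, ← Real.exp_add, add_neg_cancel, Real.exp_zero, mul_one]

end TPSideA

open TPSideA in
theorem tpSide : SSideP := by
  intro ι κ _ _ _ Φ om pos t kf C p h K b hb1 hb2
  have g0 := h.p0.toG0
  have gu : G0 Φ om pos (us p) := ⟨g0.alg, g0.unit⟩
  refine ⟨⟨⟨g0.alg, g0.unit⟩, h.p0.tp, h.p0.tk, h.p0.nt⟩,
    sSide _ _ Φ om _ (us p) C h.ac K b hb1, ⟨fun k k0 => ?_, fun k v r h1 h2 hr => ?_,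
      fun k s R hk s0 R0 => ?_⟩, fun i v r h1 h2 hr => ?_⟩
  · exact (h.ep.det k k0).mono (.of_forall fun n =>
      ch_anti ((Fn.fst _ _).pair (((Fn.snd (b n) _)).right _)))
  · obtain ⟨s, s0, e⟩ := big g0.alg.wt v r
    have u := le_up (d := dep om v) (S := fun a => pos a ∧ Pu om k a) hr fun a c => live c.2
    have i1 := info sGd sRef g0 h1 h2 (fun a => (u a).1.trans ((u a).2.trans (e a))) (hb2 s s0)
    have i2 := sRef _ _ Φ om pos _ g0 _ _ ((gd sGd g0 h1 h2 hr).2 k)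
      (led fun a => (u a).2.trans (e a))
    refine Le.of3 (h.ep.f k v r h1 h2 hr) i1 i2 (Eventually.of_forall fun n => ?_)
    have : (p n).y.H (sc (p n).y.M (dep om v)) _ ≤ ((p n).y.side (b n)).H (sc (p n).y.M (dep om v))
      (sc (p n).y.M (up (dep om v) r fun a => pos a ∧ Pu om k a)) + mi (p n).y.P (b n)
        ((p n).y.C (sc (p n).y.M (dep om (s, s)))) ((p n).y.Z (sc (p n).y.M (dep om v))) + _ :=
      drop _ _ _ _ _
    linarith
  · have w : 0 ≤ (lw k s R).1 ∧ (lw k s R).1 ≤ s + R ∧ 0 ≤ (lw k s R).2 ∧ (lw k s R).2 ≤ s + R := by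
      cases k <;> simp [lw, s0, R0]
    have i1 := info' g0 (gdU g0 k s0) ((TA.wk g0).gt_dU k s0).nn (s := s + R) (fun a => by
      have := g0.alg.wt a
      unfold TA.dU dep
      split_ifs <;> nlinarith) (hb2 _ (add_nonneg s0 R0))
    have i2 := sRef _ _ Φ om pos _ g0 _ _ (gd sGd g0 w.1 w.2.2.1 le_rfl).1
      (led (d' := dep om (s + R, s + R)) fun a => add_le_add
        (mul_le_mul_of_nonneg_left w.2.1 (g0.alg.wt a).1)
        (mul_le_mul_of_nonneg_left w.2.2.2 (g0.alg.wt a).2))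
    refine Le.of3 (h.ep.ind k s R hk s0 R0) i1 i2 (Eventually.of_forall fun n => ?_)
    have a1 : (p n).y.H (sc (p n).y.M (TA.dU om k s)) _ ≤
      ((p n).y.side (b n)).H (sc (p n).y.M (TA.dU om k s))
      (sc (p n).y.M (dep om (lw k s R))) + mi (p n).y.P (b n)
        ((p n).y.C (sc (p n).y.M (dep om (s + R, s + R))))
        ((p n).y.Z (sc (p n).y.M (TA.dU om k s))) + _ := drop _ _ _ _ _
    have a2 : ((p n).side (b n)).u.H (sc (p n).y.M (TA.dU om k s))
        (sc (p n).y.M (dep om (lw k s R))) ≤ (p n).u.H (sc (p n).y.M (TA.dU om k s))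
        (sc (p n).y.M (dep om (lw k s R))) :=
      ch_anti ((Fn.fst _ _).pair (((Fn.snd (b n) _)).right _))
    linarith
  · obtain ⟨s, s0, e⟩ := big g0.alg.wt v r
    have u := le_up (d := dep om v) (S := fun a => om a ≠ 0) hr fun a c => c
    have i1 := info sGd sRef gu h1 h2 (fun a => (u a).1.trans (e a)) (hb1 s s0)
    have i2 := flo gu (g0.alg.live t h.p0.tp) h1 h2 hr s0 e
    refine (QA.HT1.info (h.hp i v r h1 h2 hr) g0.alg.big (K' := b) ((i1.add i2).mono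
      (.of_forall fun n => ?_))).coarse (.of_forall fun n =>
        (((Fn.fst _ _).right _).pair ((Fn.fst _ _).pair ((Fn.snd _ _).right _))))
    rw [mi_symm]
    exact (mi_near _ _ _ _).trans (add_le_add le_rfl
      (ch_anti ((Fn.fst _ _).pair ((Fn.fst _ _).right _))))

end Pool.Agent.MP_5168f5_an.AN.TG.TP
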