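import Pool.Agent.MP_5168f5_an.AN.TRAll
import Pool.Agent.MP_5168f5_an.AN.TPCore
import Pool.Agent.MP_5168f5_an.AN.TPHs
import Pool.Agent.MP_5168f5_an.AN.TPSide
import Pool.Agent.MP_5168f5_an.AN.TPFrz
import Pool.Agent.MP_5168f5_an.AN.TPBas
import Pool.Agent.MP_5168f5_an.AN.TPCF
import Pool.Agent.MP_5168f5_an.AN.TPCond
import Pool.Agent.MP_5168f5_an.AN.TPOver

/-! Kakeya sets in all dimensions: the theorem on marked systems. -/

namespace Pool.Agent.MP_5168f5_an.AN.TG.TP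

theorem kitR : KitP :=
  ⟨tpHm, tpHz, tpHs tpHm, tpRatE, tpRatH tpHm, tpCF tpRatE (tpRatH tpHm), tpZm tpHz (tpHs tpHm),
    tpPull, tpPush, tpCond, tpSide, tpFrz tpCond tpRatE (tpRatH tpHm), tpBas, tpSwap⟩

/-- The theorem on marked systems. -/
theorem thmR : ThmGP := tpThm tpSwap (GO.OP.tpOver kitR) (rowTermP kitR)

end Pool.Agent.MP_5168f5_an.AN.TG.TP
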