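import Pool.Agent.MP_5168f5_an.AN.N7Tan
import Pool.Agent.MP_5168f5_an.AN.N7Vrt
import Pool.Agent.MP_5168f5_an.AN.TRThm

/-! Kakeya maximal estimate: the information bound on the chamber with a marked index. -/

namespace Pool.Agent.MP_5168f5_an.AN.N7

open TG.TP

theorem tanPlus : TANP := tanP vrt tpHm tpHz tpRatE (tpRatH tpHm) thmR

end Pool.Agent.MP_5168f5_an.AN.N7
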