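import Pool.Agent.MP_5168f5_an.AN.N6Tan

/-! Kakeya maximal estimate: the vertical path in the chamber. -/

namespace Pool.Agent.MP_5168f5_an.AN.N7

open GA GO N6 Finset

variable {κ : Type} [Fintype κ] {S T : κ → Prop} {r R l : ℝ} {G : (κ → ℝ) → Prop}
  {H : (κ → ℝ) → ℝ}

/-- The information of the target on the end of a path that does not move on `T`. -/
theorem pathT (hP : Pm G H) (d : ℕ → κ → ℝ) (Y : κ → ℝ) (n : ℕ) {s : ℝ} (hr : 0 ≤ r) (hl : 0 ≤ l)
    (hT : ∀ a, T a → ¬S a ∧ l ≤ Y a ∧ ∀ i, d i a = 0) (hS : ∀ a, S a → Y a = R) (h0 : G 0)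
    (hY : G Y) (Y0 : 0 ≤ Y) (hd : ∀ i, G (d i)) (hn : 0 ≤ d 0) (hm : ∀ i, d i ≤ d (i + 1))
    (hs : ∀ i a, S a → d (i + 1) a ≤ d i a + r) (hθ : ∀ i, G (d i + ind T l))
    (he : ∀ i, G (d i + ind T l + ind (fun a => S a ∧ d i a + r ≤ R) r))
    (hf : ∀ i, G (d i + ind T l + ind S r)) (hb : ∀ a, S a → d 0 a ≤ s)
    (ht : ∀ a, S a → R - r ≤ d n a) :
    cd S * R - mI H 0 Y (d n) - cd S * (r + s) ≤ ∑ i ∈ range n, df H S r (d i + ind T l) := by
  let ψ : ℕ → ℝ := fun i => ∑ a, ind S 1 a * min (d i a) (R - r)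
  let φ : ℕ → ℝ := fun i => H (Y ⊔ d i) - H (d i) + ψ i
  have step : ∀ i, φ (i + 1) ≤ φ i + df H S r (d i + ind T l) := fun i => by
    set e := d i + ind T l + ind (fun a => S a ∧ d i a + r ≤ R) r with hed
    have e1 : e ≤ Y ⊔ d i := fun a => by
      simp only [hed, Pi.add_apply, Pi.sup_apply]
      by_cases z : T a
      · rw [ind_pos z, ind_neg (S := fun a => S a ∧ d i a + r ≤ R) fun y => (hT a z).1 y.1,
          (hT a z).2.2 i, zero_add, add_zero]
        exact le_sup_of_le_left (hT a z).2.1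
      rw [ind_neg z, add_zero]
      by_cases x : S a ∧ d i a + r ≤ R
      · rw [ind_pos (S := fun a => S a ∧ d i a + r ≤ R) x, hS a x.1]
        exact le_sup_of_le_left x.2
      · rw [ind_neg (S := fun a => S a ∧ d i a + r ≤ R) x, add_zero]; exact le_sup_right
    have e2 : (d i + ind T l) ⊔ d (i + 1) = d (i + 1) + ind T l := funext fun a => by
      simp only [Pi.add_apply, Pi.sup_apply]
      by_cases z : T a
      · rw [ind_pos z, (hT a z).2.2 i, (hT a z).2.2 (i + 1), sup_eq_left.2 (by linarith)]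
      · rw [ind_neg z, add_zero, add_zero, sup_eq_right.2 (hm i a)]
    have g1 := hP.sup _ _ hY (hd i)
    have g2 := hP.sup _ _ (he i) (hd (i + 1))
    have a1 := hP.sub _ _ _ (he i) g1 g2 e1 le_sup_left
    rw [show (Y ⊔ d i) ⊔ (e ⊔ d (i + 1)) = Y ⊔ d (i + 1) from le_antisymm
      (sup_le (sup_le_sup_left (hm i) _) (sup_le (e1.trans (sup_le_sup_left (hm i) _)) le_sup_right))
      (sup_le (le_sup_of_le_left le_sup_left) (le_sup_of_le_right le_sup_right))] at a1
    have a2 := hP.lip _ _ (hθ (i + 1)) g2 (e2 ▸ sup_le_sup_right (le_add_ind hr _) _)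
    have a3 := hP.lip _ _ (he i) (hf i) fun a => by
      simp only [hed, Pi.add_apply]
      by_cases x : S a
      · rw [ind_pos x]; exact add_le_add le_rfl (ind_le hr a)
      · rw [ind_neg x, ind_neg (S := fun a => S a ∧ d i a + r ≤ R) fun y => x y.1]
    have a5 := hP.sub _ _ _ (hd i) (hθ i) (hd (i + 1)) (le_add_ind hl _) (hm i)
    rw [e2] at a5
    have a4 : ∑ a, ((e ⊔ d (i + 1)) a - (d (i + 1) + ind T l) a) +
        ∑ a, ((d i + ind T l + ind S r) a - e a) + ψ (i + 1) ≤ cd S * r + ψ i := by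
      rw [← sum_ind, ← sum_add_distrib, ← sum_add_distrib, ← sum_add_distrib]
      refine sum_le_sum fun a _ => ?_
      have m1 := hm i a
      simp only [hed, Pi.add_apply, Pi.sup_apply]
      by_cases x : S a
      · have m2 := hs i a x
        rw [ind_pos x, ind_pos x, ind_neg (S := T) fun z => (hT a z).1 x, add_zero, add_zero]
        by_cases y : d i a + r ≤ R
        · rw [ind_pos (S := fun a => S a ∧ d i a + r ≤ R) ⟨x, y⟩, sup_eq_left.2 m2,
            min_eq_left (by linarith : d i a ≤ R - r)]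
          linarith [min_le_left (d (i + 1) a) (R - r)]
        · rw [ind_neg (S := fun a => S a ∧ d i a + r ≤ R) fun z => y z.2, add_zero,
            sup_eq_right.2 m1, min_eq_right (by linarith : R - r ≤ d i a)]
          linarith [min_le_right (d (i + 1) a) (R - r)]
      · rw [ind_neg x, ind_neg x, ind_neg (S := fun a => S a ∧ d i a + r ≤ R) fun y => x y.1,
          add_zero, show (d i a + ind T l a) ⊔ d (i + 1) a = d (i + 1) a + ind T l a from
            congrFun e2 a]
        linarith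
    simp only [φ, df]
    linarith
  have tot : ∀ m, φ m ≤ φ 0 + ∑ i ∈ range m, df H S r (d i + ind T l) := fun m => by
    induction m with
    | zero => simp
    | succ m ih => rw [sum_range_succ]; linarith [step m]
  have b1 := hP.sub _ _ _ h0 hY (hd 0) Y0 hn
  have b3 : ψ 0 ≤ cd S * s := by
    rw [← sum_ind]
    refine sum_le_sum fun a _ => ?_
    by_cases x : S a
    · rw [ind_pos x, ind_pos x, one_mul]; exact (min_le_left _ _).trans (hb a x)
    · rw [ind_neg x, ind_neg x, zero_mul]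
  have b4 : cd S * (R - r) ≤ ψ n := by
    rw [← sum_ind]
    refine sum_le_sum fun a _ => ?_
    by_cases x : S a
    · rw [ind_pos x, ind_pos x, one_mul, min_eq_right (ht a x)]
    · rw [ind_neg x, ind_neg x, zero_mul]
  have := tot n
  simp only [φ] at this
  unfold mI
  linarith

end Pool.Agent.MP_5168f5_an.AN.N7
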