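import Pool.Agent.MP_5168f5_an.AN.N7Path
import Pool.Agent.MP_5168f5_an.AN.GOBr

/-! Kakeya maximal estimate: the choice of the tangent on the vertical path. -/

namespace Pool.Agent.MP_5168f5_an.AN.N7

open GA GO N6 Finset Filter

variable {κ : Type} {w t : κ → ℝ} {pos : κ → Prop} {N : κ → κ → κ → Prop} {τ : κ}

/-- The combinatorial hypotheses. -/
structure CB (w t : κ → ℝ) (pos : κ → Prop) (N : κ → κ → κ → Prop) (τ : κ) : Prop where
  ab : Ab (o0 w) pos N
  tw : ∀ a, 0 ≤ t a ∧ t a ≤ w a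
  fil : ∀ a b e, Hm (o0 w) a b e → t e < t a + t b → N a b e
  tp : pos τ
  tt : t τ = w τ
  nt : ∀ a b, N a b τ
  mx : ∀ a, pos a → a ≠ τ → 0 < t a ∧ t a < w a

theorem CB.wt (h : CB w t pos N τ) : 0 < w τ :=
  ((h.tw τ).1.trans (h.tw τ).2).lt_of_ne' (mt o0_zero.2 (h.ab.live τ h.tp))

theorem CB.gdT (h : CB w t pos N τ) {d : κ → ℝ} (g : Gd (o0 w) N d) {r : ℝ} (hr : 0 ≤ r) :
    Gd (o0 w) N (d + ind (fun a => a = τ) r) :=
  h.ab.gd_ind g hr (fun _ z => z ▸ h.tp) fun a b _ _ v z => absurd (z ▸ h.nt a b) v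

theorem th_oN (y : ℝ) (a : κ) : th (oN w t) y a = ind (fun a => t a = w a) (w a * y) a := by
  by_cases z : t a = w a
  · rw [ind_pos (S := fun a => t a = w a) z, th_z (by simp [oN, z])]; simp [oN, z]
  · rw [ind_neg (S := fun a => t a = w a) z, th_n fun u => z (by simp only [oN] at u; linarith)]

theorem CB.th_nn (h : CB w t pos N τ) {y : ℝ} (hy : 0 ≤ y) (a : κ) : 0 ≤ th (oN w t) y a := by
  rw [th_oN]; exact ind_nn (mul_nonneg ((h.tw a).1.trans (h.tw a).2) hy) a

theorem CB.th_mono (h : CB w t pos N τ) {y y' : ℝ} (hy : y ≤ y') :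
    th (oN w t) y ≤ th (oN w t) y' := fun a => by
  unfold th; split_ifs
  exacts [mul_le_mul_of_nonneg_left hy (h.tw a).1, le_rfl]

theorem CB.gd3 (h : CB w t pos N τ) {g r0 y : ℝ} (hg : ∀ a b e, t a + t b < t e → g ≤ t e - t a - t b)
    (hr : ∀ a, w a ≤ r0) {x : ℝ × ℝ} (h1 : 0 ≤ x.1) (h2 : x.1 ≤ x.2) (hy : 0 ≤ y)
    (h3 : r0 * y ≤ g * (x.2 - x.1)) : Gd (o0 w) N (dep (oN w t) x + th (oN w t) y) := by
  have g1 := gd1 h.ab h.tw h.fil h1 h2
  refine h.ab.gd (fun a => add_nonneg (g1.nn a) (h.th_nn hy a)) (fun a z => ?_) fun a b e u v => ?_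
  · rw [Pi.add_apply, g1.dead a z]; simp [th, (oN_iff (h.tw a)).2 z]
  have e1 := dep_tri (t := t) u x
  have e2 := h.th_nn hy a
  have e3 := h.th_nn hy b
  have e4 : t a + t b ≤ t e := not_lt.1 fun z => v (h.fil a b e u z)
  simp only [Pi.add_apply]
  by_cases z : t e = w e
  · rcases e4.eq_or_lt with k | k
    · have := hm_w u
      have ka : t a = w a := by linarith [(h.tw a).2, (h.tw b).2]
      have kb : t b = w b := by linarith [(h.tw a).2, (h.tw b).2]
      simp only [th_oN, ind_pos (S := fun a => t a = w a) z, ind_pos (S := fun a => t a = w a) ka,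
        ind_pos (S := fun a => t a = w a) kb]
      rw [← k, show t a + t b - t a - t b = 0 by ring, zero_mul] at e1
      rw [this]; linarith
    · rw [th_oN y e, ind_pos (S := fun a => t a = w a) z]
      linarith [mul_le_mul_of_nonneg_right (hg a b e k) (sub_nonneg.2 h2),
        mul_le_mul_of_nonneg_right (hr e) hy]
  · rw [th_oN y e, ind_neg (S := fun a => t a = w a) z]
    linarith [mul_nonneg (show 0 ≤ t e - t a - t b by linarith) (sub_nonneg.2 h2)]

theorem CB.dep_le (h : CB w t pos N τ) {x x' : ℝ × ℝ} (h1 : x.1 ≤ x'.1) (h2 : x.2 ≤ x'.2) :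
    dep (oN w t) x ≤ dep (oN w t) x' := fun a =>
  add_le_add (mul_le_mul_of_nonneg_left h1 (h.tw a).1)
    (mul_le_mul_of_nonneg_left h2 (sub_nonneg.2 (h.tw a).2))

theorem CB.th_sup (h : CB w t pos N τ) {X X' y : ℝ} (l : X ≤ X') (hy : 0 ≤ y) :
    (dep (oN w t) (0, X) + th (oN w t) y) ⊔ dep (oN w t) (0, X') =
      dep (oN w t) (0, X') + th (oN w t) y := by
  funext a
  simp only [Pi.sup_apply, Pi.add_apply]
  by_cases z : (oN w t a).2 = 0
  · have : dep (oN w t) (0, X') a = dep (oN w t) (0, X) a := by simp [dep, z]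
    rw [this, sup_eq_left.2 (le_add_of_nonneg_right (h.th_nn hy a))]
  · rw [th_n z, add_zero, add_zero]
    exact sup_eq_right.2 (h.dep_le (x := (0, X)) (x' := (0, X')) le_rfl l a)

theorem CB.dep_t (h : CB w t pos N τ) (x : ℝ × ℝ) : dep (oN w t) x τ = w τ * x.1 := by
  simp [dep, oN, h.tt]

theorem sum_shift (g : ℕ → ℝ) {c : ℝ} (h : ∀ i, 0 ≤ g i ∧ g i ≤ c) (n l : ℕ) :
    ∑ i ∈ range n, (g i - g (l + i)) ≤ l * c := by
  have a1 := sum_range_add g n l
  have a2 := sum_range_add g l n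
  rw [add_comm l n] at a2
  have a3 : ∑ i ∈ range l, g i ≤ l * c := by
    simpa using sum_le_sum fun i (_ : i ∈ range l) => (h i).2
  have a4 : 0 ≤ ∑ i ∈ range l, g (n + i) := sum_nonneg fun i _ => (h _).1
  rw [sum_sub_distrib]; linarith

variable [Fintype κ]

/-- The information of the isotropic target. -/
theorem CB.top (h : CB w t pos N τ) {H : (κ → ℝ) → ℝ} (hP : Pm (Gd (o0 w) N) H) {s R : ℝ}
    (hs : 0 ≤ s) (hR : ∀ a, w a * s ≤ R) {d d' : κ → ℝ} (g : Gd (o0 w) N d) (g' : Gd (o0 w) N d')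
    (l : d ≤ d') (k : H (dep (oN w t) (s, s) + ind (fun a => a = τ) (R - w τ * s)) ≤
      H (dep (oN w t) (s, s))) : mI H 0 (0 + ind pos R) d ≤ mI H 0 d' (dep (oN w t) (s, s)) +
      (cd (fun a => pos a ∧ a ≠ τ) * R - (∑ a, ind (fun a => pos a ∧ a ≠ τ) (w a) a) * s) := by
  have R0 : 0 ≤ R := (mul_nonneg h.wt.le hs).trans (hR τ)
  have gW := gd1 h.ab h.tw h.fil (x := (s, s)) hs le_rfl
  have gY := h.ab.gd_pos gd_zero R0
  have g1 := hP.sup _ _ gY gW
  have eW : ∀ a, dep (oN w t) (s, s) a = w a * s := fun a => by simp only [dep, oN]; ring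
  have a1 := mI_mono hP (d0 := 0) gY g g1 g' le_sup_left l
  have ev : ∀ a, ((0 + ind pos R) ⊔ dep (oN w t) (s, s)) a -
      (dep (oN w t) (s, s) + ind (fun a => a = τ) (R - w τ * s)) a =
      ind (fun a => pos a ∧ a ≠ τ) (R - w a * s) a := fun a => by
    simp only [Pi.sup_apply, Pi.add_apply, zero_add, eW]
    by_cases z : a = τ
    · subst z
      rw [ind_pos h.tp, ind_pos (S := fun b => b = a) rfl, sup_eq_left.2 (hR a),
        ind_neg (S := fun b => pos b ∧ b ≠ a) fun u => u.2 rfl]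
      ring
    rw [ind_neg (S := fun b => b = τ) z]
    by_cases p : pos a
    · rw [ind_pos p, ind_pos (S := fun b => pos b ∧ b ≠ τ) ⟨p, z⟩, sup_eq_left.2 (hR a)]; ring
    · rw [ind_neg p, ind_neg (S := fun b => pos b ∧ b ≠ τ) fun u => p u.1,
        sup_eq_right.2 (mul_nonneg ((h.tw a).1.trans (h.tw a).2) hs)]
      ring
  have a2 := hP.lip _ _ (h.gdT gW (sub_nonneg.2 (hR τ))) g1 fun a =>
    sub_nonneg.1 (by rw [ev]; exact ind_nn (sub_nonneg.2 (hR a)) a)
  have a3 := hP.mono _ _ (hP.sup _ _ g' gW) (hP.sup _ _ g1 g')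
    (sup_le le_sup_right (le_sup_of_le_left le_sup_right))
  have a4 : ∑ a, ind (fun a => pos a ∧ a ≠ τ) (R - w a * s) a = cd (fun a => pos a ∧ a ≠ τ) * R -
      (∑ a, ind (fun a => pos a ∧ a ≠ τ) (w a) a) * s := by
    rw [← sum_ind, sum_mul, ← sum_sub_distrib]
    exact sum_congr rfl fun a _ => by unfold ind; split_ifs <;> simp
  simp only [ev, a4] at a2
  unfold mI at a1 ⊢
  linarith

/-- A point of the vertical ray with a deficiency and little information. -/
theorem CB.sel (h : CB w t pos N τ) {H H' : (κ → ℝ) → ℝ} (hP : Pm (Gd (o0 w) N) H)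
    (hP' : Pm (Gd (o0 w) N) H') {s : ℝ} (hs : 0 < s)
    (eq : ∀ e, Gd (o0 w) N e → e τ ≤ w τ * s → H' e = H e)
    (tp : ∀ r, 0 ≤ r → H' (dep (oN w t) (s, s) + ind (fun a => a = τ) r) ≤
      H' (dep (oN w t) (s, s))) : ∃ b : ℕ, ∀ e : ℝ, 0 < e →
    mI H 0 (dep (oN w t) (0, b)) (dep (oN w t) (s, s)) + e ≤
      (∑ a, ind (fun a => pos a ∧ a ≠ τ) (w a) a) * s →
    ∃ (r0 : ℕ) (s0 : ℚ) (e' C : ℝ), 0 < s0 ∧ 0 < e' ∧ ∀ᶠ l : ℕ in atTop, ∀ᶠ L : ℕ in atTop, ∃ q : ℚ,
      s0 ≤ q ∧ (q : ℝ) ≤ C ∧ H ((dep (oN w t) (0, q) + ind pos (r0 / L)) ⊔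
        (dep (oN w t) (0, q) + th (oN w t) (l / L))) - H (dep (oN w t) (0, q) + th (oN w t) (l / L)) ≤
        (cd (fun a => pos a ∧ a ≠ τ) * r0 - e') / L ∧
      mI H (dep (oN w t) (0, q)) (dep (oN w t) (0, q) + th (oN w t) (l / L))
        (dep (oN w t) (0, q + l / L)) ≤ 1 / (l + 1) / L := by
  set S : κ → Prop := fun a => pos a ∧ a ≠ τ with hS
  obtain ⟨m, hm, m1⟩ := exists_lb S (fun a => w a - t a) fun a z => sub_pos.2 (h.mx a z.1 z.2).2
  obtain ⟨r0, r1, r2⟩ := exists_ub w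
  have r3 : (1 : ℝ) ≤ r0 := by exact_mod_cast r1
  obtain ⟨g, g0, hg⟩ := exists_gap t
  have w0 := h.wt
  set R := r0 * s with hR
  have R0 : 0 < R := by positivity
  have wR : ∀ a, w a * s ≤ R := fun a => mul_le_mul_of_nonneg_right (r2 a) hs.le
  refine ⟨⌈R / m⌉₊ + 3, fun e he hd => ?_⟩
  have c0 := cd_nn (S := S)
  set D := cd S * r0 + 1 with hD
  have D0 : 0 < D := by positivity
  obtain ⟨s0, s1, s2⟩ := exists_rat_btwn (show 0 < min 1 (e / (4 * D)) by positivity)
  have s3 := (s2.trans_le (min_le_left _ _)).le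
  have s4 := (lt_div_iff₀ (by positivity)).1 (s2.trans_le (min_le_right _ _))
  set C1 := ∑ a, th (oN w t) 1 a with hC1
  have C0 : 0 ≤ C1 := sum_nonneg fun a _ => h.th_nn zero_le_one a
  refine ⟨r0, s0, e / (4 * (R / m + 2)), R / m + 3, by exact_mod_cast s1, by positivity, ?_⟩
  filter_upwards [tendsto_natCast_atTop_atTop.eventually_ge_atTop (max 1 (r0 / w τ))] with l hl
  have l1 : (1 : ℝ) ≤ l := (le_max_left _ _).trans hl
  have l2 : (r0 : ℝ) ≤ w τ * l := (div_le_iff₀' w0).1 ((le_max_right _ _).trans hl)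
  filter_upwards [(tendsto_one_div_atTop_nhds_zero_nat (𝕜 := ℝ)).eventually
    (ge_mem_nhds (show 0 < min (min (s0 : ℝ) (s / l)) (min (g * s0 / (r0 * l))
      (e / (4 * (D * (l + 1) * l * l * C1 + 1)))) by positivity)),
    eventually_ge_atTop 1] with L hL L1
  have L0 : (0 : ℝ) < L := by exact_mod_cast L1
  obtain ⟨v, hv⟩ : ∃ v : ℝ, v = 1 / L := ⟨_, rfl⟩
  rw [← hv] at hL
  have v0 : 0 < v := by rw [hv]; positivity
  have v1 : v ≤ s0 := hL.trans ((min_le_left _ _).trans (min_le_left _ _))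
  have v2 : v * l ≤ s :=
    (le_div_iff₀ (by positivity)).1 (hL.trans ((min_le_left _ _).trans (min_le_right _ _)))
  have v3 : v * (r0 * l) ≤ g * s0 :=
    (le_div_iff₀ (by positivity)).1 (hL.trans ((min_le_right _ _).trans (min_le_left _ _)))
  have v4 : v * (4 * (D * (l + 1) * l * l * C1 + 1)) ≤ e :=
    (le_div_iff₀ (by positivity)).1 (hL.trans ((min_le_right _ _).trans (min_le_right _ _)))
  let d : ℕ → κ → ℝ := fun i => dep (oN w t) (0, s0 + i * v)
  have x0 : ∀ i : ℕ, (s0 : ℝ) ≤ s0 + i * v := fun i => le_add_of_nonneg_right (by positivity)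
  have gd : ∀ i, Gd (o0 w) N (d i) := fun i =>
    gd1 h.ab h.tw h.fil (x := (0, s0 + i * v)) le_rfl (s1.le.trans (x0 i))
  have gg : ∀ i : ℕ, r0 * (l * v) ≤ g * (s0 + i * v - 0) := fun i => by
    linarith [mul_le_mul_of_nonneg_left (x0 i) g0.le]
  have gt : ∀ i, Gd (o0 w) N (d i + th (oN w t) (l * v)) := fun i =>
    h.gd3 hg r2 (x := (0, s0 + i * v)) le_rfl (s1.le.trans (x0 i)) (by positivity) (gg i)
  have dt : ∀ i, d i τ = 0 := fun i => by simp only [d, h.dep_t, mul_zero]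
  have lt : ∀ i, d i ≤ d i + th (oN w t) (l * v) := fun i a =>
    le_add_of_nonneg_right (h.th_nn (by positivity) a)
  have rl : r0 * v ≤ w τ * (l * v) := by linarith [mul_le_mul_of_nonneg_right l2 v0.le]
  have lR : w τ * (l * v) ≤ w τ * s := mul_le_mul_of_nonneg_left (by linarith) w0.le
  have r0v : 0 ≤ r0 * v := by positivity
  have sp : ∀ (i : ℕ) (p : κ → Prop), p τ → d i + ind (fun a => a = τ) (w τ * (l * v)) +
      ind (fun a => S a ∧ p a) (r0 * v) = d i + ind (fun a => pos a ∧ p a) (r0 * v) +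
      ind (fun a => a = τ) (w τ * (l * v) - r0 * v) := fun i p k => funext fun a => by
    by_cases z : a = τ
    · subst z; simp [ind, hS, k, h.tp]
    · by_cases u : pos a ∧ p a
      · simp [ind, hS, z, u]
      · simp [ind, z, u, show ¬(S a ∧ p a) from fun y => u ⟨y.1.1, y.2⟩]
  have gf : ∀ i, Gd (o0 w) N (d i + ind (fun a => a = τ) (w τ * (l * v)) + ind S (r0 * v)) :=
    fun i => by
      have := sp i (fun _ => True) trivial
      simp only [and_true] at this
      rw [this]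
      exact h.gdT (h.ab.gd_pos (gd i) r0v) (sub_nonneg.2 rl)
  set n := ⌈R / (m * v)⌉₊ + 1 with hn
  have n1 : R / (m * v) ≤ n := by rw [hn]; push_cast; linarith [Nat.le_ceil (R / (m * v))]
  have n4 : (n : ℝ) * v ≤ R / m + 2 := by
    have n2 : (n : ℝ) ≤ R / (m * v) + 2 := by
      rw [hn]; push_cast; linarith [Nat.ceil_lt_add_one (show 0 ≤ R / (m * v) by positivity)]
    have n3 : R / (m * v) * v = R / m := by field_simp
    linarith [mul_le_mul_of_nonneg_right n2 v0.le]
  have wr : ∀ a, w a - t a ≤ r0 := fun a => by linarith [r2 a, (h.tw a).1]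
  have P := pathT hP' (S := S) (T := fun a => a = τ) (r := r0 * v) (R := R) (l := w τ * (l * v))
    d (0 + ind pos R) n (s := r0 * s0) r0v (by positivity)
    (fun a z => by
      subst z
      exact ⟨fun u => u.2 rfl, by rw [zero_add, ind_pos h.tp]; exact lR.trans (wR a), dt⟩)
    (fun a z => by rw [zero_add, ind_pos z.1]) gd_zero (h.ab.gd_pos gd_zero R0.le)
    (le_add_ind R0.le 0) gd (gd 0).nn
    (fun i => h.dep_le le_rfl (by push_cast; linarith))
    (fun i a _ => by
      simp only [d, dep, oN]; push_cast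
      linarith [mul_le_mul_of_nonneg_right (wr a) v0.le])
    (fun i => h.gdT (gd i) (by positivity))
    (fun i => by
      rw [sp i (fun a => d i a + r0 * v ≤ R) (by rw [dt]; linarith [wR τ])]
      refine h.gdT (h.ab.gd_act (gd i) r0v fun a b e u x => ?_) (sub_nonneg.2 rl)
      have e1 := dep_tri (t := t) u (0, s0 + i * v)
      rcases (not_lt.1 fun z => x (h.fil a b e u z)).eq_or_lt with z | z
      · left; simp only [d]; rw [← e1, ← z]; ring
      · right
        have := mul_le_mul_of_nonneg_right (hg a b e z) (show 0 ≤ s0 + i * v - 0 by linarith [x0 i])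
        simp only [d] at e1 ⊢
        linarith [gg i, mul_le_mul_of_nonneg_left l1 r0v])
    gf (fun a _ => by
      simp only [d, dep, oN]; push_cast
      linarith [mul_le_mul_of_nonneg_right (wr a) s1.le])
    (fun a z => by
      rw [div_le_iff₀ (by positivity)] at n1
      have := mul_le_mul (m1 a z) (show n * v ≤ s0 + n * v by linarith) (by positivity)
        (hm.le.trans (m1 a z))
      simp only [d, dep, oN]
      linarith)
  have gb := gd1 h.ab h.tw h.fil (x := (0, (⌈R / m⌉₊ + 3 : ℕ))) le_rfl (Nat.cast_nonneg _)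
  have gW := gd1 h.ab h.tw h.fil (x := (s, s)) hs.le le_rfl
  have T := h.top hP' hs.le wR (gd n) gb (h.dep_le le_rfl (by
    push_cast; linarith [Nat.le_ceil (R / m)])) (tp _ (sub_nonneg.2 (wR τ)))
  have ws : 0 ≤ w τ * s := by positivity
  have E : mI H' 0 (dep (oN w t) (0, (⌈R / m⌉₊ + 3 : ℕ))) (dep (oN w t) (s, s)) =
      mI H 0 (dep (oN w t) (0, (⌈R / m⌉₊ + 3 : ℕ))) (dep (oN w t) (s, s)) := by
    unfold mI
    rw [eq _ gb (by rw [h.dep_t]; simpa using ws), eq _ gW (h.dep_t _).le, eq _ gd_zero ws,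
      eq _ (hP.sup _ _ gb gW) (sup_le (by rw [h.dep_t]; simpa using ws) (h.dep_t _).le)]
  let f : ℕ → ℝ := fun i => cd S * (r0 * v) - (H ((d i + ind pos (r0 * v)) ⊔
    (d i + th (oN w t) (l * v))) - H (d i + th (oN w t) (l * v)))
  have f1 : ∀ i, df H' S (r0 * v) (d i + ind (fun a => a = τ) (w τ * (l * v))) ≤ f i := fun i => by
    have g1 := h.gdT (gd i) (r := w τ * (l * v)) (by positivity)
    have a1 := hP.sub _ _ _ g1 (gf i) (gt i) (le_add_ind r0v _) fun a => by
      simp only [Pi.add_apply]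
      by_cases z : a = τ
      · subst z
        rw [ind_pos (S := fun b => b = a) rfl, th_oN, ind_pos (S := fun a => t a = w a) h.tt]
      · rw [ind_neg (S := fun b => b = τ) z]; linarith [h.th_nn (y := l * v) (by positivity) a]
    have a2 := hP.mono _ _ (hP.sup _ _ (h.ab.gd_pos (gd i) r0v) (gt i)) (hP.sup _ _ (gf i) (gt i))
      (sup_le_sup_right (by
        have := sp i (fun _ => True) trivial
        simp only [and_true] at this
        rw [this]; exact le_add_ind (sub_nonneg.2 rl) _) _)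
    unfold df
    rw [eq _ g1 (by simp [dt, ind, lR]), eq _ (gf i) (by simp [dt, ind, lR, hS])]
    simp only [f]; linarith
  let k : ℕ → ℝ := fun i => H (d i + th (oN w t) (l * v)) - H (d i)
  have k1 : ∀ i, 0 ≤ k i ∧ k i ≤ C1 * (l * v) := fun i => by
    have := hP.lip _ _ (gd i) (gt i) (lt i)
    simp only [Pi.add_apply, add_sub_cancel_left] at this
    refine ⟨sub_nonneg.2 (hP.mono _ _ (gd i) (gt i) (lt i)), ?_⟩
    rw [hC1, sum_mul, ← sum_congr rfl (f := th (oN w t) (l * v)) fun a _ => by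
      unfold th; split_ifs <;> ring]
    simp only [k]; linarith
  have Q := mul_le_mul_of_nonneg_left (sum_shift k k1 n l) (show 0 ≤ D * (l + 1) by positivity)
  obtain ⟨i, hi, i2⟩ := exists_le_of_sum_le (s := range n) (g := f)
    (f := fun i => e / (4 * (R / m + 2)) * v + D * (l + 1) * (k i - k (l + i)))
    ⟨0, mem_range.2 (by omega)⟩ (by
      rw [sum_add_distrib, sum_const, card_range, nsmul_eq_mul, ← mul_sum]
      have k : (n : ℝ) * (e / (4 * (R / m + 2)) * v) ≤ e / 4 := by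
        have p : 0 < R / m + 2 := by positivity
        calc _ = e / 4 * (n * v / (R / m + 2)) := by field_simp
          _ ≤ e / 4 * 1 := by gcongr; rwa [div_le_one p]
          _ = _ := mul_one _
      have a1 := sum_le_sum fun i (_ : i ∈ range n) => f1 i
      have a2 : cd S * (r0 * v + r0 * s0) ≤ e / 2 := by
        linarith [mul_le_mul_of_nonneg_left v1 (mul_nonneg c0 (zero_le_one.trans r3))]
      linarith)
  have i1 : (i : ℝ) ≤ n := by exact_mod_cast (mem_range.1 hi).le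
  have e1 : ((l + i : ℕ) : ℝ) * v = i * v + l * v := by push_cast; ring
  have kI : mI H (d i) (d i + th (oN w t) (l * v)) (dep (oN w t) (0, s0 + i * v + l * v)) =
      k i - k (l + i) := by
    simp only [mI, k, d, e1, ← add_assoc]
    rw [h.th_sup (le_add_of_nonneg_right (by positivity)) (by positivity)]
    ring
  have k2 : 0 ≤ k i - k (l + i) := by
    rw [← kI]
    exact mI_nn hP (gd i) (gt i) (gd1 h.ab h.tw h.fil (x := (0, s0 + i * v + l * v)) le_rfl
      (by positivity)) (lt i) (h.dep_le le_rfl (le_add_of_nonneg_right (by positivity)))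
  have k3 := hP.mono _ _ (gt i) (hP.sup _ _ (h.ab.gd_pos (gd i) r0v) (gt i)) le_sup_right
  have k4 : 0 ≤ e / (4 * (R / m + 2)) * v := by positivity
  have dv : ∀ u : ℝ, u / L = u * v := fun u => by rw [hv]; ring
  refine ⟨s0 + i * (1 / L), le_add_of_nonneg_right (by positivity), ?_, ?_⟩
  · push_cast; rw [← hv]; linarith [mul_le_mul_of_nonneg_right i1 v0.le]
  push_cast
  simp only [← hv, dv (r0 : ℝ), dv (l : ℝ), dv (_ - _), dv (1 / _)]
  simp only [f] at i2
  refine ⟨by linarith [mul_nonneg (show 0 ≤ D * (l + 1) by positivity) k2], ?_⟩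
  refine kI.trans_le (le_of_mul_le_mul_left ?_ (show 0 < D * (l + 1) by positivity))
  rw [show D * (l + 1) * (1 / (l + 1) * v) = D * v by field_simp]
  linarith

end Pool.Agent.MP_5168f5_an.AN.N7
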