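import Pool.Agent.MP_5168f5_an.AN.TPDefs

/-! Kakeya sets in all dimensions: systems with a marked index, statements. -/

namespace Pool.Agent.MP_5168f5_an.AN.TG.TP

open H19 H17S H17F G39 GA Filter H61Z

/-- A statement about all marked systems. -/
def AllP (q : ∀ (ι κ : Type) [Fintype ι] [DecidableEq ι] [Fintype κ], Filt (Mt ι) → (κ → ℝ × ℝ) →
    (κ → Prop) → κ → (ℕ → ℕ) → ℝ → (ℕ → Sp ι κ) → Prop) : Prop :=
  ∀ (ι κ : Type) [Fintype ι] [DecidableEq ι] [Fintype κ] (Φ : Filt (Mt ι)) (om : κ → ℝ × ℝ)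
    (pos : κ → Prop) (t : κ) (kf : ℕ → ℕ) (C : ℝ) (p : ℕ → Sp ι κ), q ι κ Φ om pos t kf C p

/-! ### The marked coordinate -/

/-- Passage to a larger cell and to a finer unit. -/
def SHm : Prop := All fun _ κ _ _ _ Φ om pos x => ∀ (t : κ) (k : ℕ) (D D' : ℕ → κ → ℝ)
  (r r' s : ℕ → ℝ), P0 Φ om pos t x → Gd x D → Gd x D' →
  (∃ K : ℝ, ∀ᶠ n in UF, r n ≤ K * (x n).M ∧ ∀ a, |D n a| ≤ K * (x n).M) → LeD x D D' →
  Le (un x) (fun n => D' n t + r' n) (fun n => D n t + r n) → HtA x t k D' r' s → HtA x t k D r s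

/-- Passage to a new base and a new unit. -/
def SHz : Prop := All fun _ κ _ _ _ Φ om pos x => ∀ (t : κ) (k : ℕ) (D0 D : ℕ → κ → ℝ)
  (r s : ℕ → ℝ) (m : ℕ → ℕ) (K : ℝ), G0 Φ om pos x → (∀ᶠ n in UF, ((x n).M : ℝ) ≤ K * m n) →
  HtA x t k (fun n => D0 n + D n) r s → HtA (fun n => (x n).zm (D0 n) (m n)) t k D r s

def SRatH : Prop := All fun _ κ _ _ _ Φ om pos x => ∀ (t : κ) (kf : ℕ → ℕ), P0 Φ om pos t x →
  HPq om t kf x → HP om t kf x

def OfRatH : Prop := SHm → SRatH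

/-- The hypothesis at every good depth below a natural depth with the same value at `t`. -/
def SHs : Prop := All fun _ κ _ _ _ Φ om pos x => ∀ (t : κ) (kf : ℕ → ℕ) (i : ℕ)
  (v : ℕ → ℝ × ℝ) (D : ℕ → κ → ℝ) (r : ℕ → ℝ), P0 Φ om pos t x → HP om t kf x → Lv x v → Ln x r →
  Gd x D → (∀ᶠ n in UF, ∀ a, 0 ≤ D n a ∧ D n a ≤ dep om (v n) a) →
  Le (un x) (fun n => dep om (v n) t) (fun n => D n t) →
  HtA x t (kf i) D r fun n => (1 - 1 / (i + 1 : ℝ)) * r n

def OfHs : Prop := SHm → SHs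

/-! ### Closure properties -/

def SRatE : Prop := AllP fun _ _ _ _ _ Φ om pos t _ _ p => P0 Φ om pos t (ys p) →
  EPq om pos t p → EP om pos t p

def SCFP : Prop := AllP fun ι κ _ _ _ Φ om pos t kf C _ =>
  R4.CF fun p : ℕ → Sp ι κ => GP Φ om pos t kf C p

def OfCFP : Prop := SRatE → SRatH → SCFP

def SZmP : Prop := AllP fun _ _ _ _ _ Φ om pos t kf C p => GP Φ om pos t kf C p →
  ∀ (v : ℕ → ℝ × ℝ) (m : ℕ → ℕ) (c K : ℝ), Lv (ys p) v → 0 < c →
  (∀ᶠ n in UF, c * (p n).y.M ≤ m n ∧ (m n : ℝ) ≤ K * (p n).y.M) →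
  GP Φ om pos t kf C fun n => (p n).zm (dep om (v n)) (m n)

def OfZmP : Prop := SHz → SHs → SZmP

def SPullP : Prop := AllP fun _ _ _ _ _ Φ om pos t kf C p => GP Φ om pos t kf C p →
  ∀ (W : ℕ → Type) (Q : ∀ n, FP (W n)) (π : ∀ n, W n → (p n).y.Ω),
  (∀ᶠ n in UF, Law (Q n) (π n) (p n).y.P id) → GP Φ om pos t kf C fun n => (p n).pull (Q n) (π n)

/-- The hypotheses depend only on the law. -/
def SPushP : Prop := AllP fun _ _ _ _ _ Φ om pos t kf C p => ∀ (W W' : ℕ → Type)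
  (Q : ∀ n, FP (W n)) (π : ∀ n, W n → (p n).y.Ω) (Q' : ∀ n, FP (W' n))
  (π' : ∀ n, W' n → (p n).y.Ω), (∀ᶠ n in UF, Law (Q n) (π n) (Q' n) (π' n)) →
  GP Φ om pos t kf C (fun n => (p n).pull (Q n) (π n)) →
  GP Φ om pos t kf C fun n => (p n).pull (Q' n) (π' n)

def SCondP : Prop := AllP fun _ _ _ _ _ Φ om pos t kf C p => GP Φ om pos t kf C p →
  ∀ E : ∀ n, (p n).y.Ω → Prop, Pos (pr (ys p)) E → GP Φ om pos t kf C fun n => (p n).cond (E n)

def SSideP : Prop := AllP fun _ _ _ _ _ Φ om pos t kf C p => GP Φ om pos t kf C p →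
  ∀ (K : ℕ → Type) (b : ∀ n, (p n).y.Ω → K n),
  (∀ s : ℝ, 0 ≤ s → Sm (un (ys p)) fun n => mi (p n).y.P (b n)
    ((p n).y.C (sc (p n).y.M (dep om (s, s)))) ((p n).u.Z (sc (p n).y.M 0))) →
  (∀ s : ℝ, 0 ≤ s → Sm (un (ys p)) fun n => mi (p n).y.P (b n)
    ((p n).y.C (sc (p n).y.M (dep om (s, s)))) ((p n).y.Z (sc (p n).y.M 0))) →
  GP Φ om pos t kf C fun n => (p n).side (b n)

/-- The coarse context can be frozen at a value in any set of positive probability. -/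
def SFrzP : Prop := AllP fun _ _ _ _ _ Φ om pos t kf C p => GP Φ om pos t kf C p →
  ∀ G : ∀ n, (p n).K → Prop, Pos (pr (ys p)) (fun n ω => G n ((p n).u.Θ ω)) →
  ∃ θ : ∀ n, (p n).K, (∀ᶠ n in UF, G n (θ n) ∧ ∃ ω ∈ (p n).y.P.S, (p n).u.Θ ω = θ n) ∧
    GP Φ om pos t kf C fun n => (p n).cond fun ω => (p n).u.Θ ω = θ n

def OfFrzP : Prop := SCondP → SRatE → SRatH → SFrzP

/-- A change of basis that keeps the weights, the stabiliser and the marked coordinate. -/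
def SBasP : Prop := AllP fun _ κ _ _ _ Φ om pos t kf C p => ∀ [DecidableEq κ]
  (A A' : ℕ → Matrix κ κ ℝ), GP Φ om pos t kf C p → (∀ᶠ n in UF, A n * A' n = 1) →
  (∀ a e, OB (un (ys p)) (fun n => A n a e) ∧ OB (un (ys p)) fun n => A' n a e) →
  (∀ a e, om a ≠ om e ∨ (¬pos a ∧ pos e) →
    Neg (un (ys p)) (fun n => A n a e) ∧ Neg (un (ys p)) fun n => A' n a e) →
  (∀ a, a ≠ t → Neg (un (ys p)) (fun n => A n a t) ∧ Neg (un (ys p)) fun n => A' n a t) →
  GP Φ om pos t kf C (fun n => (p n).bas (A n) (A' n)) ∧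
    (FullP pos t (fun n => (p n).bas (A n) (A' n)) → FullP pos t p)

/-- Exchange of the two families; fewer positions. -/
def SSwapP : Prop := AllP fun _ κ _ _ _ Φ om pos t kf C p => GP Φ om pos t kf C p →
  GP Φ (fun a => (om a).swap) pos t kf C p ∧ ∀ pos' : κ → Prop, (∀ a, pos' a → pos a) → pos' t →
    G0 Φ om pos' (ys p) → GP Φ om pos' t kf C p

/-- The closure properties of marked systems. -/
structure KitP : Prop where
  hm : SHm
  hz : SHz
  hs : SHs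
  ratE : SRatE
  ratH : SRatH
  cf : SCFP
  zm : SZmP
  pull : SPullP
  push : SPushP
  cond : SCondP
  side : SSideP
  frz : SFrzP
  bas : SBasP
  swap : SSwapP

/-! ### The induction -/

/-- The step that lowers the number of mixed indices. -/
def SOverP : Prop := AllP fun _ κ _ _ _ Φ om pos t kf C p => ∀ f a : κ, GP Φ om pos t kf C p →
  pos f → f ≠ t → G0 Φ om (fun e => pos e ∧ e ≠ f) (ys p) → Mx om a →
  (om f).1 * (om a).2 < (om a).1 * (om f).2 → IH1P Φ pos t → IH2P Φ om pos t → FullP pos t p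

def OfOverP : Prop := KitP → SOverP

/-- The case of parallel mixed weights. -/
def STermP : Prop := AllP fun _ _ _ _ _ Φ om pos t kf C p => GP Φ om pos t kf C p → P1 om t →
  TL.Term om → IH1P Φ pos t → FullP pos t p

def OfTermP : Prop := KitP → STermP

def OfThmGP : Prop := SSwapP → SOverP → STermP → ThmGP

end Pool.Agent.MP_5168f5_an.AN.TG.TP
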