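import Pool.Agent.MP_5168f5_an.AN.N6Spec2
import Pool.Agent.MP_5168f5_an.AN.TPSpec
import Pool.Agent.MP_5168f5_an.AN.GOBr

/-! Kakeya maximal estimate: the chamber with a marked index, statements. -/

namespace Pool.Agent.MP_5168f5_an.AN.N7

open H19 H17S H17F G39 Filter H61Z GA TG N6

/-- A system on the chamber with the marked index `τ`; the other positions are mixed. -/
structure CT {ι κ : Type} [Fintype ι] [DecidableEq ι] [Fintype κ] (Φ : Filt (Mt ι)) (w t : κ → ℝ)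
    (pos : κ → Prop) (τ : κ) (kf : ℕ → ℕ) (C : ℝ) (y : ℕ → TG.Sy ι κ) : Prop
    extends CA Φ w t pos y where
  one : 1 ≤ C
  ac : ∀ (k : Bool) (x : ℚ × ℚ) (D : ℕ → κ → ℝ) (η ρ ε : ℝ), 0 ≤ x.1 → x.1 ≤ x.2 →
    Cl (un y) D (dep (oN w t) (x.1, x.2)) → 0 < η → 0 ≤ ρ → 0 < ε → ∀ᶠ n in UF,
      (y n).AC (D n) (Pu (oN w t) k) (η * (y n).M) (ρ * (y n).M) (C * ρ / η + ε)
  tp : pos τ
  tt : t τ = w τ
  nt : ∀ a b, Neg (un y) fun n => (y n).c a b τ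
  mx : ∀ a, pos a → a ≠ τ → 0 < t a ∧ t a < w a
  ht : ∀ (i : ℕ) (x : ℚ × ℚ) (r : ℚ), 0 ≤ x.1 → x.1 ≤ x.2 → 0 ≤ r →
    TP.HtAt y τ kf i (dep (oN w t) (x.1, x.2)) r

/-- The cell of level `(0, b)` carries the full lateral information on the cell of level
`(s, s)`. -/
def TANP : Prop := ∀ (ι κ : Type) [Fintype ι] [DecidableEq ι] [Fintype κ] (Φ : Filt (Mt ι))
  (w t : κ → ℝ) (pos : κ → Prop) (τ : κ) (kf : ℕ → ℕ) (C : ℝ) (y : ℕ → TG.Sy ι κ),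
  CT Φ w t pos τ kf C y → ∀ s : ℝ, 0 < s → ∃ b : ℚ, 0 ≤ b ∧
    Le (un y) (fun n => (∑ a, GO.ind (fun a => pos a ∧ a ≠ τ) (w a) a) * s * (y n).M) fun n =>
      mi (y n).P ((y n).C (TG.sc (y n).M (dep (oN w t) (0, b))))
        ((y n).C (TG.sc (y n).M (dep (oN w t) (s, s)))) ((y n).Z (TG.sc (y n).M 0))

def OfTANP : Prop := TP.SHm → TP.SHz → TP.SRatE → TP.SRatH → TP.ThmGP → TANP

/-- The point moved along the marked direction. -/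
def VRT : Prop := TG.All fun _ κ _ _ _ Φ om pos y => ∀ (τ : κ) (d : κ → ℝ), G0 Φ om pos y →
  (∀ a b, Neg (un y) fun n => (y n).c a b τ) → GO.Gd om (GO.Nx y) d →
  ∃ H : (κ → ℝ) → ℝ, GO.Pm (GO.Gd om (GO.Nx y)) H ∧
    (∀ e, GO.Gd om (GO.Nx y) e → e τ ≤ d τ → H e = GO.Hx y e) ∧
    ∀ r : ℝ, 0 ≤ r → GO.Gd om (GO.Nx y) (d + GO.ind (fun a => a = τ) r) →
      H (d + GO.ind (fun a => a = τ) r) ≤ H d

end Pool.Agent.MP_5168f5_an.AN.N7
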