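import Pool.Agent.MP_5168f5_an.AN.GOvC
import Pool.Agent.MP_5168f5_an.AN.TPSpec
import Pool.Agent.MP_5168f5_an.QA.HApi

/-! Kakeya sets in all dimensions: entropy rates of marked systems. -/

namespace Pool.Agent.MP_5168f5_an.AN.GO.OP

open H19 H17S H17F G39 GA Filter H61Z TG TG.TP R4

section Pure

variable {κ : Type} {om : κ → ℝ × ℝ} {pos S : κ → Prop} {N : κ → κ → κ → Prop} {μ r s : ℝ}
  {t d : κ → ℝ} {τ : κ} {k : Bool}

theorem dU_nn (hw : ∀ a, 0 ≤ (om a).1 ∧ 0 ≤ (om a).2) (hs : 0 ≤ s) (a : κ) :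
    0 ≤ TA.dU om k s a := by
  unfold TA.dU; split_ifs
  exacts [mul_nonneg (add_nonneg (hw a).1 (hw a).2) hs, le_rfl]

theorem hm_pu (hA : Ab om pos N) {a b e : κ} (h : Hm om a b e) (x : Pu om k e) :
    Pu om k a ∧ Pu om k b := by
  cases k
  exacts [hA.hm_p2 h x, hA.hm_p1 h x]

theorem dU_hm (hA : Ab om pos N) {a b e : κ} (h : Hm om a b e) (hs : 0 ≤ s) :
    TA.dU om k s e ≤ TA.dU om k s a + TA.dU om k s b := by
  by_cases x : Pu om k e
  · obtain ⟨u, v⟩ := hm_pu hA h x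
    simp only [TA.dU, if_pos x, if_pos u, if_pos v, h.2.2, Prod.fst_add, Prod.snd_add]
    exact le_of_eq (by ring)
  · rw [TA.dU, if_neg x]; exact add_nonneg (dU_nn hA.wt hs a) (dU_nn hA.wt hs b)

theorem dU_dead {a : κ} (h : om a = 0) : TA.dU om k s a = 0 := by simp [TA.dU, h]

theorem gd_dU (hA : Ab om pos N) (g : Gd om N d) (hs : 0 ≤ s) : Gd om N (d + TA.dU om k s) :=
  hA.gd (fun a => add_nonneg (g.nn a) (dU_nn hA.wt hs a))
    (fun a x => by rw [Pi.add_apply, g.dead a x, dU_dead x, add_zero]) fun a b e u v => by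
      have : d e ≤ d a + d b := not_lt.1 fun z => v (g.id a b e z)
      simp only [Pi.add_apply]
      linarith [dU_hm (k := k) hA u hs]

theorem gd_t (hA : Ab om pos N) (hp : pos τ) (hn : ∀ a b, N a b τ) (g : Gd om N d) (hr : 0 ≤ r) :
    Gd om N (d + ind (fun a => a = τ) r) :=
  hA.gd_ind g hr (fun _ x => x ▸ hp) fun a b _ _ v z => absurd (z ▸ hn a b) v

theorem dU_le (hA : Ab om pos N) {R : ℝ} (hs : 0 ≤ s) (hR : 0 ≤ R) :
    TA.dU om k s ≤ dep om (lw k s R) := fun a => by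
  have a1 := (hA.wt a).1
  have a2 := (hA.wt a).2
  unfold TA.dU
  cases k <;> split_ifs with x <;> simp only [dep, lw, cond_true, cond_false]
  · rw [(show P2 om a from x).1]; linarith
  · positivity
  · rw [(show P1 om a from x).2]; linarith
  · positivity

theorem ab_N (hT : Tw om μ t) :
    Ab (omN om μ t) (fun _ => False) fun _ _ _ => True :=
  ⟨fun a => ⟨by simp only [omN]; linarith [hT.le1 a, hT.nn a], sub_nonneg.2 (hT.le2 a)⟩,
    fun _ => False.elim, fun _ _ _ _ _ => trivial, fun _ _ _ _ _ _ => trivial⟩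

theorem pu_t (hT : Tw om μ t) {a : κ} (h : Pu om k a) : t a = 0 := by
  cases k
  · nlinarith [hT.le1 a, hT.nn a, hT.pos, (show P2 om a from h).1]
  · linarith [hT.le2 a, hT.nn a, (show P1 om a from h).2]

theorem omN_z {a : κ} (h : t a = 0) : omN om μ t a = om a := by simp [omN, h]

theorem gd_DU (hA : Ab om pos N) (hT : Tw om μ t)
    (hf : ∀ a b e, Hm om a b e → t e < t a + t b → N a b e) {x : ℝ × ℝ} {σ γ R : ℝ}
    (g : Gd om N (DD om t x σ)) (hs : 0 ≤ s) (h3 : 0 ≤ σ)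
    (hγ : ∀ a b e, t a + t b < t e → γ ≤ t e - t a - t b) (hR : ∀ a, (om a).1 + (om a).2 ≤ R)
    (hγ' : R * s ≤ γ * σ) (hγ0 : 0 ≤ γ) : Gd om N (DD om t x σ + TA.dU (omN om μ t) k s) := by
  have hB := ab_N hT
  refine hA.gd (fun a => add_nonneg (g.nn a) (dU_nn hB.wt hs a)) (fun a z => by
    rw [Pi.add_apply, g.dead a z, dU_dead ((omN_z (hT.dead z)).trans z), add_zero])
    fun a b e u v => ?_
  simp only [Pi.add_apply]
  have e0 := DD_hm (t := t) u x σ
  rcases (not_lt.1 fun z => v (hf a b e u z)).eq_or_lt with y | y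
  · have k0 : ∀ a, om a ≠ 0 → omN om μ t a ≠ 0 := fun a p q => by
      have q1 := congrArg Prod.fst q
      simp only [omN, Prod.fst_zero] at q1
      have : t a = 0 := by linarith [hT.le1 a, hT.nn a]
      exact p ((omN_z this).symm.trans q)
    have := dU_hm (k := k) hB (a := a) (b := b) (e := e) ⟨k0 a u.1, k0 b u.2.1, by
      simp only [omN, u.2.2, Prod.fst_add, Prod.snd_add, Prod.mk_add_mk, ← y]
      congr 1 <;> ring⟩ hs
    rw [← y] at e0
    linarith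
  · have e1 : TA.dU (omN om μ t) k s e ≤ γ * σ := by
      unfold TA.dU; split_ifs
      · refine le_trans (mul_le_mul_of_nonneg_right (le_trans ?_ (hR e)) hs) hγ'
        simp only [omN]; nlinarith [hT.nn e, hT.pos]
      · positivity
    linarith [mul_le_mul_of_nonneg_right (hγ a b e y) h3, dU_nn (k := k) hB.wt hs a,
      dU_nn (k := k) hB.wt hs b]

theorem smul_dU (w : ℝ) : w • TA.dU om k s = TA.dU om k (s * w) := by
  funext a; simp only [TA.dU, Pi.smul_apply, smul_eq_mul]; split_ifs <;> ring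

variable [Fintype κ]

theorem cd_er : cd (fun a => S a ∧ a ≠ τ) * r = cd S * r - ind S r τ := by
  classical
  rw [← sum_ind, ← sum_ind, ← Finset.add_sum_erase _ _ (Finset.mem_univ τ),
    ← Finset.add_sum_erase _ (ind S r) (Finset.mem_univ τ), ind_neg (fun h => h.2 rfl), zero_add,
    add_sub_cancel_left]
  refine Finset.sum_congr rfl fun a ha => ?_
  simp [ind, (Finset.mem_erase.1 ha).1]

end Pure

variable {ι κ : Type} [Fintype ι] [DecidableEq ι] [Fintype κ] {Φ : Filt (Mt ι)}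
  {om : κ → ℝ × ℝ} {pos S : κ → Prop} {x : ℕ → Sy ι κ} {p : ℕ → Sp ι κ} {d d' d0 : κ → ℝ}
  {D : ℕ → κ → ℝ} {τ : κ} {r : ℝ}

theorem hs_eq (d : κ → ℝ) : Hs x τ d = Hx x d + d τ := rfl

theorem df_hs : df (Hs x τ) S r d = df (Hx x) S r d - ind S r τ := by
  simp only [df, hs_eq, Pi.add_apply]; ring

theorem mI_hs : mI (Hs x τ) d0 d d' = mI (Hx x) d0 d d' + (min (d τ) (d' τ) - d0 τ) := by
  simp only [mI, hs_eq, Pi.sup_apply]
  linarith [min_add_max (d τ) (d' τ)]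

theorem g_u (h : G0 Φ om pos (ys p)) : G0 Φ om pos (us p) := ⟨h.alg, h.unit⟩

theorem p_u (h : P0 Φ om pos τ (ys p)) : P0 Φ om pos τ (us p) := ⟨g_u h.toG0, h.tp, h.tk, h.nt⟩

theorem hx_t (h : P0 Φ om pos τ x) (hd : ∀ K : ℝ, 0 ≤ K → DetAt x τ K) (g : Gd om (Nx x) d)
    (hr : 0 ≤ r) : Hx x (d + ind (fun a => a = τ) r) ≤ Hx x d := by
  have hA := g_ab h.toG0
  have K0 : 0 ≤ d τ + r := add_nonneg (g.nn τ) hr
  have g1 := gd_t hA h.tp h.nt gd_zero K0
  have h1 := g_H h.toG0 gd_zero g1 (aq_sc _ _) (aq_sc _ _)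
  have h2 := hd _ K0
  rw [DetAt, up_eq] at h2
  rw [sup_eq_left.2 g1.nn] at h1
  have h3 := Le.num h.alg.big (h1.2.trans (h2.trans (Le.of_le fun n =>
    (zero_mul ((x n).M : ℝ)).ge)))
  have h4 := (g_pm h.toG0).sub _ _ _ gd_zero g g1 g.nn g1.nn
  rw [show d ⊔ (0 + ind (fun a => a = τ) (d τ + r)) = d + ind (fun a => a = τ) r from
    funext fun a => by
      simp only [Pi.sup_apply, Pi.add_apply, zero_add, ind]
      split_ifs with y
      · rw [y]; exact max_eq_right (by linarith)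
      · rw [add_zero]; exact max_eq_left (g.nn a)] at h4
  linarith

theorem hs_pm (h : P0 Φ om pos τ x) (hd : ∀ K : ℝ, 0 ≤ K → DetAt x τ K) :
    Pm (Gd om (Nx x)) (Hs x τ) := by
  classical
  have hP := g_pm h.toG0
  refine ⟨hP.sup, fun d d' g g' l => add_le_add (hP.mono d d' g g' l) (l τ), fun d d' g g' l => ?_,
    fun d0 d d' g0 g g' l l' => ?_⟩
  · have r0 := sub_nonneg.2 (l τ)
    have h1 := hP.lip _ _ (gd_t (g_ab h.toG0) h.tp h.nt g r0) g' fun a => by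
      simp only [Pi.add_apply, ind]; split_ifs with y
      · rw [y]; linarith
      · linarith [l a]
    simp only [Pi.add_apply, ← sub_sub, Finset.sum_sub_distrib, ind, Finset.sum_ite_eq',
      Finset.mem_univ, if_true] at h1
    have h2 := hx_t h hd g r0
    simp only [hs_eq, Finset.sum_sub_distrib]
    linarith
  · have := mI_nn hP g0 g g' l l'
    have h2 := mI_hs (x := x) (τ := τ) (d0 := d0) (d := d) (d' := d')
    have h3 : d0 τ ≤ min (d τ) (d' τ) := le_min (l τ) (l' τ)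
    unfold mI at *
    linarith

theorem fullM_iff (h : G0 Φ om pos x) (hr : 0 ≤ r) (g : Gd om (Nx x) d)
    (g' : Gd om (Nx x) (d + ind S r)) : FullM x τ d S r ↔ df (Hs x τ) S r d ≤ 0 := by
  have h1 := g_H h g g' (aq_sc _ _) (aq_sc _ _)
  rw [sup_eq_left.2 (le_add_ind hr d)] at h1
  rw [FullM, up_eq, cd_eq, df_hs, df, cd_er, sub_right_comm, sub_nonpos]
  exact ⟨fun e => Le.num h.alg.big (e.trans h1.1), fun e => (Le.of_le fun n =>
    mul_le_mul_of_nonneg_right e (Nat.cast_nonneg _)).trans h1.2⟩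

theorem fullM_zm (h : G0 Φ om pos x) {m : ℕ → ℕ} {w : ℝ} (hw : 0 < w) (hr : 0 ≤ r)
    (a : Aq (un x) D d0) (u : Eqv (un x) (fun n => m n) fun n => w * (x n).M)
    (g : Gd om (Nx x) (d0 + w • d)) (g' : Gd om (Nx x) (d0 + w • d + ind S (r * w))) :
    FullM (fun n => (x n).zm (D n) (m n)) τ d S r ↔ df (Hs x τ) S (r * w) (d0 + w • d) ≤ 0 := by
  have e1 : d0 + w • (d + ind S r) = d0 + w • d + ind S (r * w) := by
    rw [smul_add, smul_ind, add_assoc]
  have h1 := zm_H h hw a u g (e1 ▸ g') (le_add_ind hr d)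
  rw [FullM, up_eq, cd_eq, df_hs, df, sub_right_comm, ← cd_er, sub_nonpos, ← mul_assoc,
    ← le_div_iff₀ hw, ← e1]
  exact ⟨fun k => Le.num (TGZmA.big_unit (unit_le' u hw) h.alg.big) (k.trans h1.1), fun k =>
    (Le.of_le fun n => mul_le_mul_of_nonneg_right k (Nat.cast_nonneg _)).trans h1.2⟩

theorem det_zm (h : P0 Φ om pos τ x) (hd : ∀ K : ℝ, 0 ≤ K → DetAt x τ K) {m : ℕ → ℕ} {w : ℝ}
    (hw : 0 < w) (hr : 0 ≤ r) (a : Aq (un x) D d0)
    (u : Eqv (un x) (fun n => m n) fun n => w * (x n).M) (g : Gd om (Nx x) d0) :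
    DetAt (fun n => (x n).zm (D n) (m n)) τ r := by
  have e1 : d0 + w • (0 + ind (fun a => a = τ) r) = d0 + ind (fun a => a = τ) (r * w) := by
    rw [zero_add, smul_ind]
  have rw0 : 0 ≤ r * w := by positivity
  have h1 := zm_H (d := 0) h.toG0 hw a u (by simpa using g)
    (e1 ▸ gd_t (g_ab h.toG0) h.tp h.nt g rw0) (le_add_ind hr 0)
  rw [DetAt, up_eq]
  refine h1.1.trans (Le.of_le fun n => mul_nonpos_of_nonpos_of_nonneg ?_ (Nat.cast_nonneg _))
  rw [e1, smul_zero, add_zero]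
  exact div_nonpos_of_nonpos_of_nonneg (sub_nonpos.2 (hx_t h hd g rw0)) hw.le

theorem hi_eq (d : κ → ℝ) : Hi p d = Hx (us p) d - Hx (ys p) d := rfl

theorem hi_mono (h : G0 Φ om pos (ys p)) (g : Gd om (Nx (ys p)) d) (g' : Gd om (Nx (ys p)) d')
    (l : d ≤ d') : Hi p d ≤ Hi p d' := by
  have h1 := g_H h g g' (aq_sc _ _) (aq_sc _ _)
  have h2 := g_H (g_u h) g g' (aq_sc _ _) (aq_sc _ _)
  rw [sup_eq_left.2 l] at h1 h2
  have := Le.num h.alg.big (h1.2.trans ((Le.of_le fun n => ch_anti ((Fn.fst _ _).pair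
    ((Fn.comp (p n).g _).right _))).trans h2.1))
  simp only [hi_eq]; linarith

theorem ind_le (h : G0 Φ om pos (ys p)) (g : Gd om (Nx (ys p)) d) (g' : Gd om (Nx (ys p)) d')
    (l : d ≤ d') (e : IndAt p d d') : Hi p d' ≤ Hi p d := by
  have h1 := g_H h g g' (aq_sc _ _) (aq_sc _ _)
  have h2 := g_H (g_u h) g g' (aq_sc _ _) (aq_sc _ _)
  rw [sup_eq_left.2 l] at h1 h2
  have := Le.num h.alg.big (h2.2.trans (Le.trans e h1.1))
  simp only [hi_eq]; linarith

theorem ind_zm (h : G0 Φ om pos (ys p)) {m : ℕ → ℕ} {w : ℝ} (hw : 0 < w)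
    (a : Aq (un (ys p)) D d0) (u : Eqv (un (ys p)) (fun n => m n) fun n => w * (ys p n).M)
    (g : Gd om (Nx (ys p)) (d0 + w • d)) (g' : Gd om (Nx (ys p)) (d0 + w • d')) (l : d ≤ d')
    (e : Hi p (d0 + w • d') ≤ Hi p (d0 + w • d)) : IndAt (fun n => (p n).zm (D n) (m n)) d d' := by
  have h1 := zm_H h hw a u g g' l
  have h2 := zm_H (g_u h) hw a u g g' l
  refine h2.1.trans (Le.trans (Le.of_le fun n => mul_le_mul_of_nonneg_right
    (div_le_div_of_nonneg_right ?_ hw.le) (Nat.cast_nonneg _)) h1.2)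
  simp only [hi_eq] at e; linarith

/-- The information bound at a natural depth. -/
theorem hi_dep (h : P0 Φ om pos τ (ys p)) (e : EP om pos τ p) {k : Bool} (hk : Pu om k τ) {s R : ℝ}
    (hs : 0 ≤ s) (hR : 0 ≤ R) : Hi p (dep om (lw k s R)) ≤ Hi p (TA.dU om k s) := by
  have hA := g_ab h.toG0
  refine ind_le h.toG0 (by simpa using gd_dU hA gd_zero hs) ?_ (dU_le hA hs hR) (e.ind k s R hk hs hR)
  cases k
  exacts [hA.gd_dep hR hs, hA.gd_dep hs hR]

omit [Fintype κ] in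
theorem pu_of (hA : Ab om pos fun _ _ _ => True) (h : pos τ) (k : ¬Mx om τ) : ∃ b, Pu om b τ := by
  have := hA.abs_pos (hA.live τ h)
  rcases (hA.wt τ).1.eq_or_lt with z | z
  · exact ⟨false, z.symm, by linarith⟩
  · exact ⟨true, z, le_antisymm (not_lt.1 fun y => k ⟨z, y⟩) (hA.wt τ).2⟩

theorem P0.pu (h : P0 Φ om pos τ x) : ∃ b, Pu om b τ :=
  pu_of ⟨h.alg.wt, h.alg.live, fun _ _ _ _ _ => trivial, fun _ _ _ _ _ _ => trivial⟩ h.tp h.tk

/-- Independence passes to the coarse system. -/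
theorem mI_u (h : P0 Φ om pos τ (ys p)) (e : EP om pos τ p) {L : ℝ} (hL : 0 ≤ L) :
    mI (Hx (us p)) 0 (th om L) (dep om (0, L)) ≤ mI (Hx (ys p)) 0 (th om L) (dep om (0, L)) := by
  have hA := g_ab h.toG0
  have gT : Gd om (Nx (ys p)) (th om L) := by
    have := hA.gd_th (x := (0, 0)) le_rfl le_rfl hL
    rwa [show dep om (0, 0) + th om L = th om L from funext fun a => by simp [dep]] at this
  have gC := hA.gd_dep (x := (0, L)) le_rfl hL
  have gS := (g_pm h.toG0).sup _ _ gT gC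
  have m1 := hi_mono h.toG0 gT gS le_sup_left
  have m2 := hi_mono h.toG0 gC gS le_sup_right
  obtain ⟨k, hk⟩ := P0.pu h
  have m3 := hi_dep h e hk le_rfl hL
  rw [show TA.dU om k 0 = 0 from funext fun a => by simp [TA.dU]] at m3
  cases k
  · have m4 := hi_mono h.toG0 gT (hA.gd_dep (x := (L, 0)) hL le_rfl) fun a => by
      simp only [th, dep, mul_zero, add_zero]; split_ifs
      exacts [le_rfl, mul_nonneg (hA.wt a).1 hL]
    simp only [hi_eq, lw, cond_false, mI] at *; linarith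
  · simp only [hi_eq, lw, cond_true, mI] at *; linarith

theorem mI_t (L : ℝ) :
    mI (Hs x τ) 0 (th om L) (dep om (0, L)) ≤ mI (Hx x) 0 (th om L) (dep om (0, L)) := by
  rw [mI_hs, Pi.zero_apply, sub_zero, add_le_iff_nonpos_right]
  by_cases z : (om τ).2 = 0
  · exact (min_le_right _ _).trans (by simp [dep, z])
  · exact (min_le_left _ _).trans (th_n z L).le

theorem cf_fullM (τ : κ) (d : κ → ℝ) (S : κ → Prop) (r : ℝ) :
    CF fun p : ℕ → Sp ι κ => FullM (ys p) τ d S r :=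
  cf_le (S := fun _ => Sp ι κ) (fun _ p => p.y.M) (fun _ p => TG.cd (fun a => S a ∧ a ≠ τ) * r * p.y.M)
    fun _ p => p.y.H (TG.sc p.y.M d) (TG.sc p.y.M (up d r S))

theorem cf_det (τ : κ) (r : ℝ) : CF fun p : ℕ → Sp ι κ => DetAt (ys p) τ r :=
  cf_sm (S := fun _ => Sp ι κ) (fun _ p => p.y.M)
    fun _ p => p.y.H (TG.sc p.y.M 0) (TG.sc p.y.M (up 0 r fun a => a = τ))

theorem cf_ind (d d' : κ → ℝ) : CF fun p : ℕ → Sp ι κ => IndAt p d d' :=
  cf_le (S := fun _ => Sp ι κ) (fun _ p => p.y.M) (fun _ p => p.u.H (TG.sc p.y.M d) (TG.sc p.y.M d'))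
    fun _ p => p.y.H (TG.sc p.y.M d) (TG.sc p.y.M d')

theorem cf_ht (τ : κ) (kf : ℕ → ℕ) (i : ℕ) (d : κ → ℝ) (r : ℝ) :
    CF fun p : ℕ → Sp ι κ => HtAt (us p) τ kf i d r :=
  QA.HT1.cf (S := fun _ => Sp ι κ) (kf i) (fun _ p => p.u.P)
    (fun _ p => tX p.u τ (TG.sc p.y.M d) (r * p.y.M)) (fun _ p => p.u.Z (TG.sc p.y.M d))
    (fun _ p => p.y.M) fun _ p => (1 - 1 / (i + 1 : ℝ)) * r * p.y.M

end Pool.Agent.MP_5168f5_an.AN.GO.OP
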