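import Pool.Agent.MP_5168f5_an.AN.N7TanA
import Pool.Agent.MP_5168f5_an.AN.TPOvA
import Pool.Agent.MP_5168f5_an.AN.TGAll

/-! Kakeya maximal estimate: the chamber with a marked index. -/

namespace Pool.Agent.MP_5168f5_an.AN.N7

open H19 H17S H17F G39 GA Filter H61Z R4 GO N6
open TG (G0 un pr rA)
open TG.TP (Sp ys us)

variable {ι κ : Type} [Fintype ι] [DecidableEq ι] [Fintype κ] {Φ : Filt (Mt ι)} {w t : κ → ℝ}
  {pos : κ → Prop} {y : ℕ → TG.Sy ι κ} {C : ℝ}

theorem ac_tan (h : CS Φ w t pos C y) {L : ℕ} (L1 : 0 < L) (i : Bool) (x : ℚ × ℚ) (h1 : 0 ≤ x.1)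
    (h2 : x.1 ≤ x.2) {d0 d : κ → ℝ} (ex : ∀ a, dep (oN w t) (x.1, x.2) a = d0 a + d a / L)
    {r ρ : ℝ} (h3 : 0 < r) (h4 : 0 ≤ ρ) : TG.ACAt (fun n => (y n).zm (TG.sc (y n).M d0)
      ((y n).M / L)) d (TG.Pu (oN w t) i) C r ρ := fun ε hε => by
  have L0 : (0 : ℝ) < L := by exact_mod_cast L1
  have C0 : 0 ≤ C := zero_le_one.trans h.one
  have dv := fun n => nat_div (y n).M L1
  obtain ⟨A, hA'⟩ : ∃ A, A = C * ρ / r := ⟨_, rfl⟩
  have A0 : 0 ≤ A := by rw [hA']; positivity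
  obtain ⟨l, hl⟩ : ∃ l, l = (A + ε / 4) / (A + ε / 2) := ⟨_, rfl⟩
  have l0 : 0 < l := by rw [hl]; positivity
  have l1 : l < 1 := by rw [hl, div_lt_one (by positivity)]; linarith
  filter_upwards [h.ac i x _ (r * l / L) (ρ / L) (ε / 2) h1 h2 (cl_zm _ L1 _ _ ex) (by positivity)
    (by positivity) (half_pos hε), h.alg.fr, h.unit, h.alg.big.ev (L / (1 - l))] with n a1 a2 a3 a4
  refine N6.ac_zm a2 a3 _ (ac_mono a1 ?_ ?_ ?_)
  · rw [div_le_iff₀ (by linarith)] at a4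
    have a5 : 1 ≤ (y n).M / L * (1 - l) := by
      rw [div_mul_eq_mul_div, le_div_iff₀ L0]; simpa using a4
    rw [show r * l / L * (y n).M = r * (l * ((y n).M / L)) by ring]
    exact mul_le_mul_of_nonneg_left (by linarith [(dv n).2]) h3.le
  · rw [show (ρ : ℝ) / L * (y n).M = ρ * ((y n).M / L) by ring]
    exact mul_le_mul_of_nonneg_left (dv n).1 h4
  · rw [show C * (ρ / L) / (r * l / L) = C * ρ / r / l by field_simp, ← hA']
    have : A / l ≤ A + ε / 2 := by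
      rw [div_le_iff₀ l0, hl, mul_div_cancel₀ _ (by positivity)]; linarith
    linarith

theorem tanP (hV : VRT) : OfTANP := by
  intro hm hz hE hH hT ι κ _ _ _ Φ w t pos τ kf C y h s hs
  have g := h.toG0
  have hM := g.alg.big
  have cb : CB w t pos (Nx y) τ := ⟨g_ab g, h.tw, h.fil, h.tp, h.tt, h.nt, h.mx⟩
  have hP := g_pm g
  have g1 : ∀ {x : ℝ × ℝ}, 0 ≤ x.1 → x.1 ≤ x.2 → GO.Gd (o0 w) (Nx y) (dep (oN w t) x) :=
    gd1 cb.ab cb.tw cb.fil
  have gW := g1 (x := (s, s)) hs.le le_rfl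
  obtain ⟨H', hP', eq, tp⟩ := hV ι κ Φ _ pos y τ _ g h.nt gW
  obtain ⟨b, hb⟩ := cb.sel hP hP' hs (fun e ge l => eq e ge (l.trans (cb.dep_t (s, s)).ge))
    fun r hr => tp r hr (cb.gdT gW hr)
  have gb := g1 (x := (0, b)) le_rfl (Nat.cast_nonneg _)
  refine ⟨b, Nat.cast_nonneg _, Le.trans (Le.of_le fun n => mul_le_mul_of_nonneg_right
    (not_lt.1 fun lt => ?_) (Nat.cast_nonneg _)) (mi_ge g gd_zero gb gW gb.nn gW.nn)⟩
  obtain ⟨r0, s0, e', C1, s1, e0, hq0⟩ := hb _ (sub_pos.2 lt) (by simp)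
  have s2 : (0 : ℝ) < s0 := by exact_mod_cast s1
  obtain ⟨F, hF⟩ := (hq0.mono fun l a => ((eventually_ge_atTop (l * l + 1)).and a).exists).choice
  obtain ⟨q, hq⟩ := (hF.mono fun l a => a.2).choice
  have hf := (hF.mono fun l a => a.1).and hq
  clear hb hF hq hq0 tp eq
  obtain ⟨g0, z0, hg⟩ := exists_gap t
  obtain ⟨r1, r2, r3⟩ := exists_ub w
  have r4 : (1 : ℝ) ≤ r1 := by exact_mod_cast r2
  have w0 := cb.wt
  have cs : CS Φ w t (fun _ => False) C y := ⟨TG.TP.g0_no g, h.one, h.tw, h.fil, h.gen,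
    fun _ _ _ _ _ _ _ => full0 y (fun _ z => z.1) _ _ _, h.ac⟩
  obtain ⟨M0, m0, al⟩ := alg_tan cs
  have p0 : TG.TP.P0 Φ (o0 w) pos τ y := ⟨g, h.tp, fun z => lt_irrefl _ z.1, h.nt⟩
  let v : ℕ → ℝ := fun l => 1 / F l
  let d : ℕ → κ → ℝ := fun l => dep (oN w t) (0, q l)
  let A : ℕ → κ → ℝ := fun l => d l + th (oN w t) (l * v l)
  let p : ℕ → ℕ → Sp ι κ := fun l n => tg (y n) (d l) (A l) ((y n).M / F l)
  have sm : ∀ δ : ℝ, 0 < δ → ∀ᶠ l : ℕ in atTop, l * v l ≤ δ := fun δ hδ => by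
    filter_upwards [hf, tendsto_natCast_atTop_atTop.eventually_ge_atTop (1 / δ)] with l a c
    have a1 : (l : ℝ) * l + 1 ≤ F l := by exact_mod_cast a.1
    have l0 : (0 : ℝ) ≤ l := Nat.cast_nonneg _
    rw [div_le_iff₀ hδ] at c
    simp only [v]
    rw [mul_one_div, div_le_iff₀ (by nlinarith)]
    nlinarith [mul_le_mul_of_nonneg_left a1 hδ.le, mul_le_mul_of_nonneg_left c l0]
  obtain ⟨k, kb, hk⟩ := cf_dg (S := fun _ => Sp ι κ) (J := Bool × (ℚ × ℚ) × ℚ × ℚ × ℕ)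
    (K := fun j z => (0 ≤ j.2.1.1 ∧ 0 ≤ j.2.1.2 ∧ 0 ≤ j.2.2.1 → TG.TP.DetAt (ys z) τ j.2.2.1 ∧
      TG.TP.HtAt (us z) τ kf j.2.2.2.2 (dep (oN w t) (j.2.1.1, j.2.1.2)) j.2.2.1 ∧
      Le (un (ys z)) (fun n => (z n).u.H (TG.sc (z n).y.M (th (oN w t) j.2.1.1))
        (TG.sc (z n).y.M (dep (oN w t) (j.2.1.1, j.2.1.2)))) fun n =>
        (z n).y.H (TG.sc (z n).y.M (th (oN w t) j.2.1.1))
          (TG.sc (z n).y.M (dep (oN w t) (j.2.1.1, j.2.1.2))) + 1 / (j.2.2.2.2 + 1) * (z n).y.M) ∧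
      (0 ≤ j.2.1.1 ∧ 0 ≤ j.2.1.2 ∧ 0 < j.2.2.1 ∧ 0 ≤ j.2.2.2.1 → TG.ACAt (us z)
        (dep (oN w t) (j.2.1.1, j.2.1.2)) (TG.Pu (oN w t) j.1) C j.2.2.1 j.2.2.2.1) ∧
      Big (un (ys z)) ∧ Sm (un (ys z)) M0 ∧ Le (un (ys z)) (fun n => (z n).y.H
        (TG.sc (z n).y.M 0) (TG.sc (z n).y.M (0 + ind pos r0)))
        fun n => (cd (fun a => pos a ∧ a ≠ τ) * r0 - e') * (z n).y.M)
    (fun j => (TG.TGCFA.imp _ ((OP.cf_det _ _).and ((OP.cf_ht _ _ _ _ _).and
      (cf_le (S := fun _ => Sp ι κ) (fun _ z => z.y.M)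
        (fun _ z => z.u.H (TG.sc z.y.M (th (oN w t) j.2.1.1))
          (TG.sc z.y.M (dep (oN w t) (j.2.1.1, j.2.1.2))))
        fun _ z => z.y.H (TG.sc z.y.M (th (oN w t) j.2.1.1))
          (TG.sc z.y.M (dep (oN w t) (j.2.1.1, j.2.1.2))) + 1 / (j.2.2.2.2 + 1) * z.y.M)))).and
      ((TG.TGCFA.imp _ ((TG.TGCFA.ac _ _ _ _ _).comp fun _ z => Sp.u z)).and
      ((cf_big fun _ (z : Sp ι κ) => z.y.M).and
      ((cf_sm (fun _ (z : Sp ι κ) => z.y.M) fun n _ => M0 n).and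
        (cf_le (fun _ (z : Sp ι κ) => z.y.M) (fun _ z => z.y.H (TG.sc z.y.M 0)
          (TG.sc z.y.M (0 + ind pos r0)))
          fun _ z => (cd (fun a => pos a ∧ a ≠ τ) * r0 - e') * z.y.M))))) p (by
    rintro ⟨i, ⟨t1, t2⟩, r, ρ, j⟩
    filter_upwards [hf, sm _ s2, sm (g0 * s0 / r1) (by positivity), eventually_ge_atTop j,
      tendsto_natCast_atTop_atTop.eventually_ge_atTop (max (t1 : ℝ) (r / w τ)),
      eventually_all.2 fun a => tendsto_natCast_atTop_atTop.eventually_ge_atTop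
        (t2 + (oN w t a).1 * t1 / (oN w t a).2)] with l ⟨L1, q0, q1, q2, q3⟩ l1 l2 l3 l4 l5
    have L2 : 0 < F l := by omega
    have L0 : (0 : ℝ) < F l := by exact_mod_cast L2
    have v0 : 0 < v l := by positivity
    have dv : ∀ u : ℝ, u / F l = u * v l := fun u => div_eq_mul_one_div _ _
    simp only [dv] at q2 q3
    have q4 : (s0 : ℝ) ≤ q l := by exact_mod_cast q0
    have fr := hM.frac_div L2
    have ue := eqv_div hM L2
    have l6 : (t1 : ℝ) * v l ≤ l * v l :=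
      mul_le_mul_of_nonneg_right ((le_max_left _ _).trans l4) v0.le
    have gd : GO.Gd (o0 w) (Nx y) (d l) := g1 (x := (0, q l)) le_rfl (s2.le.trans q4)
    have gt : ∀ u : ℝ, 0 ≤ u → u ≤ l * v l → GO.Gd (o0 w) (Nx y) (d l + th (oN w t) u) :=
      fun u u0 u1 => cb.gd3 hg r3 (x := (0, q l)) le_rfl (s2.le.trans q4) u0 (by
        rw [le_div_iff₀ (by positivity)] at l2
        nlinarith [mul_le_mul_of_nonneg_left q4 z0.le])
    have lv : 0 ≤ l * v l := by positivity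
    have gA := gt _ lv le_rfl
    have dA : d l ≤ A l := fun a => le_add_of_nonneg_right (cb.th_nn lv a)
    have e0 : d l + v l • (0 : κ → ℝ) = d l := by simp
    have eI : ∀ (S : κ → Prop) (u : ℝ), d l + v l • (0 + ind S u) = d l + ind S (u * v l) :=
      fun S u => by rw [zero_add, smul_ind]
    have ex : ∀ a, dep (oN w t) ((t1 / F l : ℚ), (q l + t2 / F l : ℚ)) a =
        d l a + dep (oN w t) (t1, t2) a / F l := fun a => by
      simp only [dep, d]; push_cast; ring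
    have c1 : 0 ≤ t2 → t1 / F l ≤ q l + t2 / F l := fun h2 => by
      have : (0 : ℝ) ≤ t2 := by exact_mod_cast h2
      have : (t1 : ℝ) / F l ≤ q l + t2 / F l := by
        rw [dv, dv]; linarith [mul_nonneg this v0.le]
      exact_mod_cast this
    refine ⟨fun ⟨h1, h2, h3⟩ => ?_, fun ⟨h1, h2, h3, h4⟩ => ac_tan cs L2 i
      (t1 / F l, q l + t2 / F l) (by positivity) (c1 h2) ex (by exact_mod_cast h3)
      (by exact_mod_cast h4), hM.frac fr, Le.frac m0 fr, ?_⟩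
    · have h1' : (0 : ℝ) ≤ t1 := by exact_mod_cast h1
      have h2' : (0 : ℝ) ≤ t2 := by exact_mod_cast h2
      have h3' : (0 : ℝ) ≤ r := by exact_mod_cast h3
      have eE : dep (oN w t) ((t1 / F l : ℚ), (q l + t2 / F l : ℚ)) =
          d l + v l • dep (oN w t) (t1, t2) := funext fun a => by
        rw [ex, dv, Pi.add_apply, Pi.smul_apply, smul_eq_mul, mul_comm]
      have gE : GO.Gd (o0 w) (Nx y) (d l + v l • dep (oN w t) (t1, t2)) := eE ▸ g1
        (x := ((t1 / F l : ℚ), (q l + t2 / F l : ℚ))) (by positivity)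
        (Rat.cast_le.2 (c1 h2))
      refine ⟨?_, ht_zm hm hz p0 v0 ue gE h3' ?_, ?_⟩
      · have rv : 0 ≤ r * v l := by positivity
        have := (tg_H (d := 0) (d' := 0 + ind (fun a => a = τ) r) (A := A l) g v0 ue (e0.symm ▸ gd) gA
          ((eI _ _).symm ▸ cb.gdT gd rv) (e0.symm ▸ dA)).1
        rw [eI, sup_eq_right.2 (show _ ≤ A l from add_le_add le_rfl fun a => ?_), sub_self,
          zero_div] at this
        · rw [TG.TP.DetAt, GO.up_eq]
          exact this.trans (Le.of_le fun n => (zero_mul _).le)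
        by_cases z : a = τ
        · subst z
          rw [ind_pos (S := fun b => b = a) rfl, th_oN, ind_pos (S := fun a => t a = w a) h.tt,
            ← mul_assoc]
          exact mul_le_mul_of_nonneg_right ((div_le_iff₀' w0).1 ((le_max_right _ _).trans l4)) v0.le
        · rw [ind_neg (S := fun b => b = τ) z]; exact cb.th_nn lv a
      · have := h.ht j (t1 / F l, q l + t2 / F l) (r / F l) (by positivity) (c1 h2)
          (by positivity)
        rwa [eE, Rat.cast_div, Rat.cast_natCast, dv] at this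
      · have gT := gt (t1 * v l) (by positivity) l6
        have tA : d l + th (oN w t) (t1 * v l) ≤ A l := add_le_add le_rfl (cb.th_mono l6)
        have tE : th (oN w t) t1 ≤ dep (oN w t) (t1, t2) := fun a => by
          have u1 : 0 ≤ (oN w t a).1 * t1 := mul_nonneg (h.tw a).1 h1'
          have u2 : 0 ≤ (oN w t a).2 * t2 := mul_nonneg (sub_nonneg.2 (h.tw a).2) h2'
          by_cases z : (oN w t a).2 = 0
          · rw [th_z z]; exact le_add_of_nonneg_right u2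
          · rw [th_n z]; exact add_nonneg u1 u2
        have a1 := (zm_H (d := th (oN w t) t1) g v0 (aq_sc _ (d l)) ue (by rwa [smul_th]) gE tE).1
        have a2 := (tg_H (d := th (oN w t) t1) (A := A l) g v0 ue (by rwa [smul_th]) gA gE
          (by rwa [smul_th])).2
        have a3 := (mI_cut hP gd gT gA gE (g1 (x := (0, q l + l * v l)) le_rfl (by linarith))
          (fun a => le_add_of_nonneg_right (cb.th_nn (by positivity) a)) tA
          (cb.dep_le le_rfl (le_add_of_nonneg_right lv)) fun a => ?_).trans q3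
        · refine a1.of2 a2 (.of_forall fun n => ?_)
          have j1 : (1 : ℝ) / (l + 1) ≤ 1 / (j + 1) := one_div_le_one_div_of_le (by positivity)
            (by exact_mod_cast Nat.succ_le_succ l3)
          have a4 := mul_le_mul_of_nonneg_right (((div_le_iff₀ v0).2 a3).trans j1)
            (Nat.cast_nonneg (α := ℝ) ((y n).M / F l))
          rw [smul_th]
          simp only [mI, sub_div, add_div] at a4 ⊢
          linarith
        by_cases z : (oN w t a).2 = 0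
        · refine le_sup_of_le_left ?_
          simp only [Pi.add_apply, Pi.smul_apply, smul_eq_mul, th_z z, dep, z]; linarith
        · have z' : 0 < (oN w t a).2 := lt_of_le_of_ne (sub_nonneg.2 (h.tw a).2) (Ne.symm z)
          have := l5 a
          rw [← le_sub_iff_add_le', div_le_iff₀ z'] at this
          refine le_sup_of_le_right ?_
          simp only [Pi.add_apply, Pi.smul_apply, smul_eq_mul, dep, d]
          linarith [mul_le_mul_of_nonneg_left this v0.le]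
    · refine (tg_H (d := 0) (d' := 0 + ind pos r0) (A := A l) g v0 ue (e0.symm ▸ gd) gA
        ((eI _ _).symm ▸ cb.ab.gd_pos gd (by positivity)) (e0.symm ▸ dA)).1.trans
        (Le.of_le fun n => mul_le_mul_of_nonneg_right ?_ (Nat.cast_nonneg _))
      rw [eI, div_le_iff₀ v0]
      exact q2)
  obtain ⟨-, -, b1, b2, b3⟩ := hk default
  have hq := kb.eventually hf
  have bd : ∀ᶠ n in UF, ∀ a, 0 ≤ TG.sc (y n).M (d (k n)) a ∧
      TG.sc (y n).M (d (k n)) a ≤ r1 * C1 * (y n).M := hq.mono fun n c a => by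
    have c1 : (s0 : ℝ) ≤ q (k n) := by exact_mod_cast c.2.1
    simp only [TG.sc, d, dep, oN, mul_zero, zero_add]
    exact ⟨mul_nonneg (mul_nonneg (sub_nonneg.2 (h.tw a).2) (by linarith)) (Nat.cast_nonneg _),
      mul_le_mul_of_nonneg_right (mul_le_mul (by linarith [r3 a, (h.tw a).1]) c.2.2.1 (by linarith)
        (by linarith)) (Nat.cast_nonneg _)⟩
  have ng := fun a b e (z : Nx y a b e) =>
    neg_zm (m := un (ys fun n => p (k n) n)) z (fun n => Nat.div_le_self _ _) bd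
  have a0 : Alg (un (ys fun n => p (k n) n)) Φ (oN w t) (fun _ => False)
      (fun n => (p (k n) n).y.B) fun n => (p (k n) n).y.c := by
    have es : ∀ n, TG.sc (y n).M (d (k n)) = dep (oN w t) (0, q (k n) * (y n).M) :=
      fun n => funext fun a => by simp only [TG.sc, dep, d]; ring
    simp only [p, es]
    refine al _ _ (|C1| + 1) b1 b2 (hq.mono fun n a => ?_) fun K => ?_
    · have a1 : (0 : ℝ) ≤ (y n).M := Nat.cast_nonneg _
      exact ⟨(Nat.cast_le.2 (Nat.div_le_self _ _)).trans (le_mul_of_one_le_left a1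
        (by linarith [abs_nonneg C1])), le_rfl, mul_le_mul_of_nonneg_right
          (by linarith [a.2.2.1, le_abs_self C1]) a1⟩
    · filter_upwards [hq, kb.eventually (sm _ s2), kb.ev |K|] with n a c e
      have a1 : (0 : ℝ) ≤ (y n).M := Nat.cast_nonneg _
      have c1 : (s0 : ℝ) ≤ q (k n) := by exact_mod_cast a.2.1
      have a2 := mul_le_mul ((le_abs_self K).trans e) (Nat.cast_div_le (α := ℝ) (m := (y n).M)
        (n := F (k n))) (Nat.cast_nonneg _) (Nat.cast_nonneg _)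
      rw [show (k n : ℝ) * (((y n).M : ℝ) / F (k n)) = k n * v (k n) * (y n).M by
        simp only [v]; ring] at a2
      linarith [mul_le_mul_of_nonneg_right (c.trans c1) a1]
  have P : TG.TP.P0 Φ (oN w t) pos τ (ys fun n => p (k n) n) :=
    ⟨⟨⟨a0.big, a0.fr, a0.wt, fun a z => mt (oN_iff (h.tw a)).1 (g.alg.live a z), a0.ob, a0.hom,
      fun a b e h1 h2 h3 => ng a b e (g.alg.sub a b e h1 h2 h3), a0.gen⟩, g.unit⟩, h.tp,
      fun z => z.2.ne' (sub_eq_zero.2 h.tt.symm), fun a b => ng a b τ (h.nt a b)⟩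
  have FF := hT ι κ Φ _ pos τ kf C _ ⟨P, TG.sRat ι κ Φ _ _ _ C ⟨TG.TP.g0_no P.us.toG0, h.one,
      fun _ _ _ _ _ _ => full0 _ (fun _ z => z.1) _ _ _,
      fun i u η ρ h1 h2 h3 h4 => (hk (i, u, η, ρ, 0)).2.1 ⟨h1, h2, h3, h4⟩⟩,
    hE ι κ Φ _ pos τ kf C _ P ⟨fun K h1 => ((hk (true, 0, K, 0, 0)).1 ⟨le_rfl, le_rfl, h1⟩).1,
      fun i _ _ _ _ _ => full0 _ (fun a z => TG.TA.pu_not_mx z.1.2
        ⟨(h.mx a z.1.1 z.2).1, sub_pos.2 (h.mx a z.1.1 z.2).2⟩) _ _ _, fun i u R z h1 h2 => ?_⟩,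
    hH ι κ Φ _ pos _ τ kf P.us fun i u r h1 h2 h3 => ((hk (true, u, r, 0, i)).1 ⟨h1, h2, h3⟩).2.1⟩
    r0 (Nat.cast_nonneg _)
  · rw [TG.TP.FullM, GO.up_eq, GO.cd_eq] at FF
    linarith [Le.num b1 (Le.trans FF b3)]
  cases i
  · exact absurd (sub_eq_zero.2 h.tt.symm) (ne_of_gt z.2)
  rw [TG.TP.IndAt, dU_th fun a => (h.tw a).1]
  refine Le.eps fun ε hε => ?_
  obtain ⟨i, hi⟩ := exists_nat_one_div_lt hε
  exact ((hk (true, (u, R), 0, 0, i)).1 ⟨h1, h2, le_rfl⟩).2.2.trans (Le.of_le fun n =>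
    add_le_add le_rfl (mul_le_mul_of_nonneg_right hi.le (Nat.cast_nonneg _)))

end Pool.Agent.MP_5168f5_an.AN.N7
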