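import Pool.Agent.MP_5168f5_an.AN.TPSpec
import Pool.Agent.MP_5168f5_an.AN.TAApi
import Pool.Agent.MP_5168f5_an.AN.GOBr
import Pool.Agent.MP_5168f5_an.AN.TGGd

/-! Kakeya sets in all dimensions: systems with a marked index, entropy rates. -/

namespace Pool.Agent.MP_5168f5_an.AN.TG.TP

open H19 H17S H17F G39 GA Filter H61Z
open R4 (Eqv)
open GO (Pm Ab Nx ind df mI Aq)

section Pure

variable {κ : Type} [Fintype κ] {om : κ → ℝ × ℝ} {pos S : κ → Prop} {N : κ → κ → κ → Prop}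
  {t : κ} {d d' : κ → ℝ} {r : ℝ}

theorem gd_dU (hA : Ab om pos N) (g : GO.Gd om N d) (k : Bool) (hr : 0 ≤ r) :
    GO.Gd om N (d + TA.dU om k r) := by
  have b : ∀ a, 0 ≤ TA.dU om k r a := fun a => by
    unfold TA.dU; split_ifs
    exacts [mul_nonneg (add_nonneg (hA.wt a).1 (hA.wt a).2) hr, le_rfl]
  refine hA.gd (fun a => add_nonneg (g.nn a) (b a)) (fun a z => ?_) fun a a' e u v => ?_
  · rw [Pi.add_apply, g.dead a z, TA.dU_neg fun y => TA.pu_live y z, add_zero]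
  · have e1 : d e ≤ d a + d a' := not_lt.1 fun z => v (g.id a a' e z)
    simp only [Pi.add_apply]
    by_cases z : Pu om k e
    · have := TGGdA.pure hA.wt u z
      rw [TA.dU_pos z, TA.dU_pos this.1, TA.dU_pos this.2, u.2.2, Prod.fst_add, Prod.snd_add]
      linarith
    · rw [TA.dU_neg z]; linarith [b a, b a']

theorem gd_dU0 (hA : Ab om pos N) (k : Bool) (hr : 0 ≤ r) : GO.Gd om N (TA.dU om k r) := by
  simpa using gd_dU hA GO.gd_zero k hr

theorem gd_pu (hA : Ab om pos N) (g : GO.Gd om N d) (k : Bool) (hr : 0 ≤ r) :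
    GO.Gd om N (d + ind (fun a => pos a ∧ Pu om k a) r) :=
  hA.gd_ind g hr (fun _ y => y.1) fun _ _ _ u _ z =>
    Or.inr ⟨fun p => ⟨p, (TGGdA.pure hA.wt u z.2).1⟩, fun p => ⟨p, (TGGdA.pure hA.wt u z.2).2⟩⟩

theorem lw_nn (k : Bool) {s R : ℝ} (hs : 0 ≤ s) (hR : 0 ≤ R) :
    0 ≤ (lw k s R).1 ∧ 0 ≤ (lw k s R).2 := by cases k <;> exact ⟨by assumption, by assumption⟩

omit [Fintype κ] in
theorem dep_lw {k : Bool} {a : κ} (h : Pu om k a) (s R : ℝ) :
    dep om (lw k s R) a = TA.dU om k s a := by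
  rw [TA.dU_pos h]
  cases k
  · simp [dep, lw, show (om a).1 = 0 from h.1]
  · simp [dep, lw, show (om a).2 = 0 from h.2]

omit [Fintype κ] in
theorem dU_le (hA : Ab om pos N) (k : Bool) {s R : ℝ} (hs : 0 ≤ s) (hR : 0 ≤ R) :
    TA.dU om k s ≤ dep om (lw k s R) := fun a => by
  by_cases z : Pu om k a
  · exact (dep_lw z s R).ge
  · rw [TA.dU_neg z]; exact (hA.gd_dep (lw_nn k hs hR).1 (lw_nn k hs hR).2).nn a

theorem cd_er (S : κ → Prop) (t : κ) :
    cd (fun a => S a ∧ a ≠ t) = GO.cd S - ind S 1 t := by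
  classical
  rw [GO.cd_eq, GO.cd, GO.cd, ← Finset.sum_erase_add _ _ (Finset.mem_univ t),
    ← Finset.sum_erase_add _ (ind S 1) (Finset.mem_univ t), add_sub_cancel_right,
    GO.ind_neg (S := fun a => S a ∧ a ≠ t) fun z => z.2 rfl, add_zero]
  exact Finset.sum_congr rfl fun a h => by simp [ind, Finset.ne_of_mem_erase h]

/-- A function that does not see the index `t`. -/
theorem pm_add {G : (κ → ℝ) → Prop} {H : (κ → ℝ) → ℝ} (hP : Pm G H)
    (h : ∀ d r, G d → 0 ≤ r → G (d + ind (fun a => a = t) r) ∧ H (d + ind (fun a => a = t) r) ≤ H d) :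
    Pm G fun d => H d + d t := by
  classical
  refine ⟨hP.sup, fun d d' g g' l => add_le_add (hP.mono d d' g g' l) (l t), fun d d' g g' l => ?_,
    fun d0 d d' g0 g g' l l' => ?_⟩
  · obtain ⟨a1, a2⟩ := h d (d' t - d t) g (sub_nonneg.2 (l t))
    have a3 := hP.lip _ _ a1 g' fun a => by
      by_cases z : a = t
      · subst z; simp [ind]
      · simpa [ind, z] using l a
    have a4 : ∑ a, (d' a - (d + ind (fun a => a = t) (d' t - d t)) a) =
        ∑ a, (d' a - d a) - (d' t - d t) := by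
      simp only [Pi.add_apply, ← sub_sub, Finset.sum_sub_distrib]
      simp [ind]
    linarith
  · have := hP.sub d0 d d' g0 g g' l l'
    have e : (d ⊔ d') t + d0 t ≤ d t + d' t := by
      rw [Pi.sup_apply, ← le_sub_iff_add_le]
      exact sup_le (by linarith [l' t]) (by linarith [l t])
    linarith

end Pure

variable {ι κ : Type} [Fintype ι] [DecidableEq ι] [Fintype κ] {Φ : Filt (Mt ι)}
  {om : κ → ℝ × ℝ} {pos S : κ → Prop} {t : κ} {x : ℕ → Sy ι κ} {p : ℕ → Sp ι κ}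
  {d d' d0 : κ → ℝ} {D : ℕ → κ → ℝ} {r w K : ℝ} {m : ℕ → ℕ}

theorem hx_eq (x : ℕ → Sy ι κ) : TA.Hx x = GO.Hx x := rfl

theorem g0_us (h : G0 Φ om pos (ys p)) : G0 Φ om pos (us p) := ⟨h.alg, h.unit⟩

theorem P0.us (h : P0 Φ om pos t (ys p)) : P0 Φ om pos t (us p) := ⟨g0_us h.toG0, h.tp, h.tk, h.nt⟩

theorem g0_no (h : G0 Φ om pos x) : G0 Φ om (fun _ => False) x :=
  ⟨⟨h.alg.big, h.alg.fr, h.alg.wt, fun _ z => z.elim, h.alg.ob, h.alg.hom, fun _ _ _ _ _ z => z.elim,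
    h.alg.gen⟩, h.unit⟩

theorem P0.pu (h : P0 Φ om pos t x) : ∃ k, Pu om k t :=
  ((TA.wk h.toG0).pure (h.alg.live t h.tp) h.tk).elim (fun z => ⟨true, z⟩) fun z => ⟨false, z⟩

theorem P0.gd_t (h : P0 Φ om pos t x) (g : GO.Gd om (Nx x) d) (hr : 0 ≤ r) :
    GO.Gd om (Nx x) (d + ind (fun a => a = t) r) :=
  (GO.g_ab h.toG0).gd_ind g hr (fun _ z => z ▸ h.tp) fun a b _ _ v z => absurd (z ▸ h.nt a b) v

theorem det_iff (h : P0 Φ om pos t x) (hK : 0 ≤ K) :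
    DetAt x t K ↔ TA.Hx x (0 + ind (fun a => a = t) K) ≤ TA.Hx x 0 := by
  have e := GO.g_hz h.toG0 (h.gd_t GO.gd_zero hK)
  rw [DetAt, GO.up_eq, ← sub_nonpos]
  exact ⟨fun k => Le.num h.alg.big (e.2.trans (k.trans (Le.of_le fun n => (zero_mul _).ge))),
    fun k => e.1.trans (Le.of_le fun n => mul_nonpos_of_nonpos_of_nonneg k (Nat.cast_nonneg _))⟩

theorem hx_t (h : P0 Φ om pos t x) (hd : ∀ K : ℝ, 0 ≤ K → DetAt x t K) (g : GO.Gd om (Nx x) d)
    (hr : 0 ≤ r) : TA.Hx x (d + ind (fun a => a = t) r) ≤ TA.Hx x d := by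
  have k := add_nonneg (g.nn t) hr
  have g' := h.gd_t GO.gd_zero k
  have a := (GO.g_pm h.toG0).sub _ _ _ GO.gd_zero g g' g.nn g'.nn
  rw [show d ⊔ (0 + ind (fun a => a = t) (d t + r)) = d + ind (fun a => a = t) r from
    funext fun a => by
      by_cases z : a = t
      · subst z; simp [ind, hr]
      · simp [ind, z, g.nn a]] at a
  have := (det_iff h k).1 (hd _ k)
  simp only [hx_eq] at this ⊢
  linarith

theorem hs_pm (h : P0 Φ om pos t x) (hd : ∀ K : ℝ, 0 ≤ K → DetAt x t K) :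
    Pm (GO.Gd om (Nx x)) (Hs x t) :=
  pm_add (GO.g_pm h.toG0) fun _ _ g hr => ⟨h.gd_t g hr, hx_t h hd g hr⟩

theorem df_hs (x : ℕ → Sy ι κ) (t : κ) (S : κ → Prop) (r : ℝ) (d : κ → ℝ) : df (Hs x t) S r d =
    cd (fun a => S a ∧ a ≠ t) * r - (TA.Hx x (d + ind S r) - TA.Hx x d) := by
  rw [cd_er, df, Hs, Hs, Pi.add_apply, GO.ind_mul (r := r)]; ring

theorem fullM_iff (h : G0 Φ om pos x) (hr : 0 ≤ r) (g : GO.Gd om (Nx x) d)
    (g' : GO.Gd om (Nx x) (d + ind S r)) : FullM x t d S r ↔ df (Hs x t) S r d ≤ 0 := by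
  have h1 := GO.g_H h g g' (GO.aq_sc _ _) (GO.aq_sc _ _)
  rw [sup_eq_left.2 (GO.le_add_ind hr d)] at h1
  rw [FullM, GO.up_eq, df_hs, sub_nonpos]
  exact ⟨fun e => Le.num h.alg.big (e.trans h1.1), fun e => (Le.of_le fun n =>
    mul_le_mul_of_nonneg_right e (Nat.cast_nonneg _)).trans h1.2⟩

theorem fullM_zm (h : G0 Φ om pos x) (hw : 0 < w) (hr : 0 ≤ r) (a : Aq (un x) D d0)
    (u : Eqv (un x) (fun n => m n) fun n => w * (x n).M) (g : GO.Gd om (Nx x) (d0 + w • d))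
    (g' : GO.Gd om (Nx x) (d0 + w • d + ind S (r * w))) :
    FullM (fun n => (x n).zm (D n) (m n)) t d S r ↔ df (Hs x t) S (r * w) (d0 + w • d) ≤ 0 := by
  have e1 : d0 + w • (d + ind S r) = d0 + w • d + ind S (r * w) := by
    rw [smul_add, GO.smul_ind, add_assoc]
  have h1 := GO.zm_H h hw a u g (e1 ▸ g') (GO.le_add_ind hr d)
  rw [FullM, GO.up_eq, df_hs, sub_nonpos, ← mul_assoc, ← le_div_iff₀ hw, ← e1]
  exact ⟨fun k => Le.num (TGZmA.big_unit (GO.unit_le' u hw) h.alg.big) (k.trans h1.1), fun k =>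
    (Le.of_le fun n => mul_le_mul_of_nonneg_right k (Nat.cast_nonneg _)).trans h1.2⟩

theorem det_zm (h : P0 Φ om pos t x) (hd : ∀ K : ℝ, 0 ≤ K → DetAt x t K) (hw : 0 < w) (hK : 0 ≤ K)
    (a : Aq (un x) D d0) (u : Eqv (un x) (fun n => m n) fun n => w * (x n).M)
    (g : GO.Gd om (Nx x) d0) : DetAt (fun n => (x n).zm (D n) (m n)) t K := by
  have e1 : d0 + w • (0 + ind (fun a => a = t) K) = d0 + ind (fun a => a = t) (K * w) := by
    rw [zero_add, GO.smul_ind]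
  have k := mul_nonneg hK hw.le
  have h1 := GO.zm_H (d := 0) (d' := 0 + ind (fun a => a = t) K) h.toG0 hw a u (by simpa using g)
    (e1 ▸ h.gd_t g k) (GO.le_add_ind hK 0)
  rw [DetAt, GO.up_eq]
  refine h1.1.trans (Le.of_le fun n => mul_nonpos_of_nonpos_of_nonneg
    (div_nonpos_of_nonpos_of_nonneg ?_ hw.le) (Nat.cast_nonneg _))
  rw [e1, smul_zero, add_zero]
  exact sub_nonpos.2 (hx_t h hd g k)

theorem H_le (q : Sp ι κ) (D D' : κ → ℝ) : q.y.H D D' ≤ q.u.H D D' :=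
  ch_anti fun _ _ _ _ e => congrArg (fun z : Mt ι × q.y.T => (z.1, q.g z.2)) e

theorem ind_iff (h : G0 Φ om pos (ys p)) (g : GO.Gd om (Nx (ys p)) d)
    (g' : GO.Gd om (Nx (ys p)) d') (l : d ≤ d') : IndAt p d d' ↔ Hi p d' ≤ Hi p d := by
  have h1 := GO.g_H h g g' (GO.aq_sc _ _) (GO.aq_sc _ _)
  have h2 := GO.g_H (g0_us h) g g' (GO.aq_sc _ _) (GO.aq_sc _ _)
  rw [sup_eq_left.2 l] at h1 h2
  refine ⟨fun e => ?_, fun e => (h2.1.trans (Le.of_le fun n =>
    mul_le_mul_of_nonneg_right ?_ (Nat.cast_nonneg _))).trans h1.2⟩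
  · have := Le.num h.alg.big ((h2.2.trans e).trans h1.1)
    simp only [Hi, hx_eq]; linarith
  · simp only [Hi, hx_eq] at e; linarith

theorem hi_mono (h : G0 Φ om pos (ys p)) (g : GO.Gd om (Nx (ys p)) d)
    (g' : GO.Gd om (Nx (ys p)) d') (l : d ≤ d') : Hi p d ≤ Hi p d' := by
  have h1 := GO.g_H h g g' (GO.aq_sc _ _) (GO.aq_sc _ _)
  have h2 := GO.g_H (g0_us h) g g' (GO.aq_sc _ _) (GO.aq_sc _ _)
  rw [sup_eq_left.2 l] at h1 h2
  have := Le.num h.alg.big ((h1.2.trans (Le.of_le fun n => H_le (p n) _ _)).trans h2.1)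
  simp only [Hi, hx_eq]; linarith

theorem ind_zm (h : G0 Φ om pos (ys p)) (hw : 0 < w) (a : Aq (un (ys p)) D d0)
    (u : Eqv (un (ys p)) (fun n => m n) fun n => w * (p n).y.M)
    (g : GO.Gd om (Nx (ys p)) (d0 + w • d)) (g' : GO.Gd om (Nx (ys p)) (d0 + w • d')) (l : d ≤ d')
    (e : Hi p (d0 + w • d') ≤ Hi p (d0 + w • d)) : IndAt (fun n => (p n).zm (D n) (m n)) d d' := by
  have h1 := GO.zm_H h hw a u g g' l
  have h2 := GO.zm_H (g0_us h) hw a u g g' l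
  refine (h2.1.trans (Le.of_le fun n => mul_le_mul_of_nonneg_right
    (div_le_div_of_nonneg_right ?_ hw.le) (Nat.cast_nonneg _))).trans h1.2
  simp only [Hi, hx_eq] at e; linarith

/-- The information is constant between the pure part and the natural depth. -/
theorem hi_star (h : G0 Φ om pos (ys p)) (he : EP om pos t p) {k : Bool} (hk : Pu om k t)
    {s R : ℝ} (hs : 0 ≤ s) (hR : 0 ≤ R) (g : GO.Gd om (Nx (ys p)) d)
    (g' : GO.Gd om (Nx (ys p)) d') (l : TA.dU om k s ≤ d) (l' : d' ≤ dep om (lw k s R)) :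
    Hi p d' ≤ Hi p d := by
  have hA := GO.g_ab h
  have a := gd_dU0 hA k hs
  have b := hA.gd_dep (lw_nn k hs hR).1 (lw_nn k hs hR).2
  exact ((hi_mono h g' b l').trans ((ind_iff h a b (dU_le hA k hs hR)).1
    (he.ind k s R hk hs hR))).trans (hi_mono h a g l)

/-- Independence given the coarse context from independence given the fine context. -/
theorem mI_us (h : G0 Φ om pos (ys p)) (g : GO.Gd om (Nx (ys p)) d)
    (g' : GO.Gd om (Nx (ys p)) d') (e : Hi p d' ≤ Hi p d0) :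
    mI (GO.Hx (us p)) d0 d d' ≤ mI (GO.Hx (ys p)) d0 d d' := by
  have := hi_mono h g ((GO.g_pm h).sup _ _ g g') le_sup_left
  simp only [Hi, hx_eq, mI] at this e ⊢
  linarith

theorem mI_hs (x : ℕ → Sy ι κ) (l : d0 t ≤ d t) (l' : d0 t ≤ d' t) :
    mI (GO.Hx x) d0 d d' ≤ mI (Hs x t) d0 d d' := by
  have e : (d ⊔ d') t + d0 t ≤ d t + d' t := by
    rw [Pi.sup_apply, ← le_sub_iff_add_le]
    exact sup_le (by linarith) (by linarith)
  simp only [mI, Hs, hx_eq]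
  linarith

end Pool.Agent.MP_5168f5_an.AN.TG.TP
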