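import Pool.Agent.MP_5168f5_an.AN.N7Sel
import Pool.Agent.MP_5168f5_an.AN.N7Spec
import Pool.Agent.MP_5168f5_an.AN.TPApi
import Pool.Agent.MP_5168f5_an.QA.HApi

/-! Kakeya maximal estimate: tangents with a cell in the fine context. -/

namespace Pool.Agent.MP_5168f5_an.AN.N7

open H19 H17S H17F G39 GA Filter H61Z R4 GO N6
open TG (G0 un pr rA)
open TG.TP (Sp ys us)

variable {ι κ : Type} [Fintype ι] [DecidableEq ι] [Fintype κ] {Φ : Filt (Mt ι)}
  {om : κ → ℝ × ℝ} {pos : κ → Prop} {x : ℕ → TG.Sy ι κ} {d d' d0 A : κ → ℝ} {D D' : ℕ → κ → ℝ}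
  {m M : ℕ → ℕ} {v : ℝ}

/-- The tangent at the depth `d0`; the fine context contains the cell of depth `A`. -/
noncomputable abbrev tg (y : TG.Sy ι κ) (d0 A : κ → ℝ) (m : ℕ) : Sp ι κ :=
  ⟨(y.side (y.C (TG.sc y.M A))).zm (TG.sc y.M d0) m, y.T, Prod.snd⟩

theorem fine_H (h : G0 Φ om pos x) (g : GO.Gd om (Nx x) d) (gA : GO.Gd om (Nx x) A)
    (g' : GO.Gd om (Nx x) d') (l : d ≤ A) (a : Aq (un x) D d) (a' : Aq (un x) D' d') :
    Eqv (un x) (fun n => ((x n).side ((x n).C (TG.sc (x n).M A))).H (D n) (D' n))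
      fun n => (Hx x (d' ⊔ A) - Hx x A) * (x n).M := by
  have := (GO.hc2 ι κ _ Φ om pos _ _ _ _ (pr x) _ (fun n => (x n).Θ) h.alg h.unit).2 d A d' _ _ _
    g gA g' a.ap (aq_sc _ A).ap a'.ap l
  rwa [show (fun n => ((x n).side ((x n).C (TG.sc (x n).M A))).H (D n) (D' n)) = _ from
    funext fun n => ch_congr (Fn.fst _ _) (Fn.fst _ _)
      (((Fn.fst _ _).right _).pair ((Fn.fst _ _).pair ((Fn.snd _ _).right _)))
      (((Fn.fst _ _).right _).pair ((Fn.fst _ _).pair ((Fn.snd _ _).right _)))]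

theorem tg_H (h : G0 Φ om pos x) (hv : 0 < v) (e : Eqv (un x) (fun n => m n) fun n => v * (x n).M)
    (g : GO.Gd om (Nx x) (d0 + v • d)) (gA : GO.Gd om (Nx x) A) (g' : GO.Gd om (Nx x) (d0 + v • d'))
    (l : d0 + v • d ≤ A) :
    Eqv m (fun n => (tg (x n) d0 A (m n)).y.H (TG.sc (m n) d) (TG.sc (m n) d'))
      fun n => (Hx x ((d0 + v • d') ⊔ A) - Hx x A) / v * m n := by
  have h1 := fine_H h g gA g' l (aq_zm (aq_sc _ d0) e d) (aq_zm (aq_sc _ d0) e d')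
  have h2 := eqv_cmul e ((Hx x ((d0 + v • d') ⊔ A) - Hx x A) / v)
  simp only [← mul_assoc, div_mul_cancel₀ _ hv.ne'] at h2
  simp only [TG.TGZmA.h_zm Φ]
  exact ⟨TG.TGZmA.le_unit (unit_le' e hv) (h1.1.trans h2.2),
    TG.TGZmA.le_unit (unit_le' e hv) (h2.1.trans h1.2)⟩

theorem mi_ge (h : G0 Φ om pos x) (g0 : GO.Gd om (Nx x) d0) (g : GO.Gd om (Nx x) d)
    (g' : GO.Gd om (Nx x) d') (l : d0 ≤ d) (l' : d0 ≤ d') :
    Le (un x) (fun n => mI (Hx x) d0 d d' * (x n).M) fun n => mi (x n).P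
      ((x n).C (TG.sc (x n).M d)) ((x n).C (TG.sc (x n).M d')) ((x n).Z (TG.sc (x n).M d0)) := by
  have h1 := g_H h g0 g (aq_sc _ d0) (aq_sc _ d)
  have h2 := (GO.hc2 ι κ _ Φ om pos _ _ _ _ (pr x) _ (fun n => (x n).Θ) h.alg h.unit).2 d0 d' d _ _ _
    g0 g' g (aq_sc _ d0).ap (aq_sc _ d').ap (aq_sc _ d).ap l'
  rw [sup_eq_left.2 l] at h1
  refine h1.2.of2 h2.1 (Eventually.of_forall fun n => ?_)
  unfold mI
  change _ - ((x n).H _ _ - ch _ _ _) ≤ _ - (x n).H _ _ + (ch _ ((x n).C _)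
    (fun ω => ((x n).C _ ω, (x n).Z _ ω)) - (Hx x _ - Hx x _) * (x n).M)
  linarith

omit [Fintype κ] in
theorem eqv_div (hM : Big M) {L : ℕ} (hL : 0 < L) :
    Eqv M (fun n => ((M n / L : ℕ) : ℝ)) fun n => 1 / L * M n :=
  ⟨Le.of_le fun n => (nat_div (M n) hL).1.trans_eq (by ring),
    (hM.sm 1).of_sub (.of_forall fun n => by
      have := (nat_div (M n) hL).2
      rw [one_div_mul_eq_div]; linarith)⟩

theorem aq_bd (h : Aq M D d) : ∀ᶠ n in UF, ∀ a, |D n a| ≤ (‖d‖ + 1) * M n :=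
  eventually_all.2 fun a => by
    filter_upwards [(h a).1 1 one_pos, (h a).2 1 one_pos] with n u v
    have e := abs_le.1 (norm_le_pi_norm d a)
    have m0 := Nat.cast_nonneg (α := ℝ) (M n)
    rw [abs_le]
    constructor <;> linarith [mul_le_mul_of_nonneg_right e.1 m0, mul_le_mul_of_nonneg_right e.2 m0]

omit [Fintype κ] in
theorem neg_zm {c : ℕ → κ → κ → κ → ℝ} {K : ℝ} {a b e : κ} (h : Neg M fun n => c n a b e)
    (hm : ∀ n, m n ≤ M n) (h0 : ∀ᶠ n in UF, ∀ a, 0 ≤ D n a ∧ D n a ≤ K * M n) :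
    Neg m fun n => sC (rA (D n)) (c n) a b e := fun T => by
  filter_upwards [h (|T| + K), h0] with n u h0
  have e1 : sC (rA (D n)) (c n) a b e = c n a b e * Real.exp (D n e - D n a - D n b) := by
    simp only [sC, rA, Real.exp_sub, Real.exp_neg]; field_simp
  rw [e1, abs_mul, abs_of_pos (Real.exp_pos _)]
  refine (mul_le_mul_of_nonneg_right u (Real.exp_pos _).le).trans ?_
  have : (m n : ℝ) ≤ M n := by exact_mod_cast hm n
  simp only [dl, ← Real.exp_add, Real.exp_le_exp]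
  nlinarith [(h0 a).1, (h0 b).1, (h0 e).2, le_abs_self T, abs_nonneg T,
    Nat.cast_nonneg (α := ℝ) (m n)]

theorem full0 (x : ℕ → TG.Sy ι κ) {S : κ → Prop} (h : ∀ a, ¬S a) (r : ℝ) (D D' : ℕ → κ → ℝ) :
    Le (un x) (fun n => TG.cd S * r * (x n).M) fun n => (x n).H (D n) (D' n) :=
  Le.of_le fun n => by
    rw [show TG.cd S = 0 by simp [TG.cd, h], zero_mul, zero_mul]; exact ch_nonneg _ _

omit [Fintype κ] in
theorem dU_th (h : ∀ a, 0 ≤ (om a).1) (s : ℝ) : TG.TA.dU om true s = th om s := funext fun a => by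
  by_cases z : (om a).2 = 0
  · rw [th_z z]
    rcases (h a).eq_or_lt with u | u
    · rw [TG.TA.dU_neg (k := true) fun y => u.not_lt y.1, ← u, zero_mul]
    · rw [TG.TA.dU_pos (k := true) ⟨u, z⟩, z, add_zero]
  · rw [th_n z, TG.TA.dU_neg (k := true) fun y => z y.2]

/-- The marked coordinate in the tangent. -/
theorem ht_zm (hm : TG.TP.SHm) (hz : TG.TP.SHz) {τ : κ} (h : TG.TP.P0 Φ om pos τ x) (hv : 0 < v)
    (e : Eqv (un x) (fun n => m n) fun n => v * (x n).M) (g : GO.Gd om (Nx x) (d0 + v • d))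
    {kf : ℕ → ℕ} {i : ℕ} {r : ℝ} (hr : 0 ≤ r) (k : TG.TP.HtAt x τ kf i (d0 + v • d) (r * v)) :
    TG.TP.HtAt (fun n => (x n).zm (TG.sc (x n).M d0) (m n)) τ kf i d r := by
  have a := aq_zm (aq_sc (un x) d0) e d
  have a' := aq_sc (un x) (d0 + v • d)
  have gd : ∀ {D : ℕ → κ → ℝ}, Aq (un x) D (d0 + v • d) → TG.Gd x D := fun a =>
    GOh1A.idr sIdR h.alg.big h.alg.ob g a.ap
  have e1 := eqv_cmul e r
  refine hz ι κ Φ om pos x τ (kf i) (fun n => TG.sc (x n).M d0) (fun n => TG.sc (m n) d)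
    (fun n => r * m n) _ m (2 / v) h.toG0 (unit_le' e hv) (QA.HT1.mono (hm ι κ Φ om pos x τ (kf i)
      _ _ _ _ _ h (gd a) (gd a') ⟨‖d0 + v • d‖ + 1 + r * (2 * v), ?_⟩ (fun b => (a b).1)
      ((a τ).2.of2 e1.2 (.of_forall fun n => ?_)) k) ?_)
  · filter_upwards [aq_bd a, unit_le e hv] with n u w
    have m0 : (0 : ℝ) ≤ (x n).M := Nat.cast_nonneg _
    have := mul_le_mul_of_nonneg_left w.2 hr
    have := mul_nonneg (norm_nonneg (d0 + v • d)) m0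
    have : 0 ≤ r * (2 * v) * (x n).M := by positivity
    exact ⟨by linarith, fun b => by linarith [u b]⟩
  · simp only [TG.sc]; linarith
  · have : 0 ≤ 1 - 1 / (i + 1 : ℝ) := sub_nonneg.2 (by
      rw [div_le_one (by positivity)]; linarith [Nat.cast_nonneg (α := ℝ) i])
    exact (e1.1.smul this).of_sub (.of_forall fun n => by linarith)

/-- The information given a finer cell. -/
theorem mI_cut {G : (κ → ℝ) → Prop} {H : (κ → ℝ) → ℝ} (hP : Pm G H) {d1 E F : κ → ℝ} (g : G d)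
    (g1 : G d1) (gA : G A) (gE : G E) (gF : G F) (l1 : d ≤ d1) (l2 : d1 ≤ A) (l3 : d ≤ F)
    (l4 : E ≤ d1 ⊔ F) : mI H d1 E A ≤ mI H d A F := by
  have a1 := mI_mono hP (d0 := d1) gE gA (hP.sup _ _ g1 gF) gA l4 le_rfl
  have a2 := hP.sub _ _ _ g g1 gF l1 l3
  unfold mI at a1 ⊢
  rw [show d1 ⊔ F ⊔ A = A ⊔ F by rw [sup_comm d1, sup_assoc, sup_eq_right.2 l2, sup_comm]] at a1
  linarith

end Pool.Agent.MP_5168f5_an.AN.N7
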