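import Pool.Agent.MP_5168f5_an.AN.NCU1

/-! The noise step for a graded vector. -/

namespace Pool.Agent.MP_5168f5_an.AN.TB

open H19 H17S H17F Filter R4 R4.K31 R4.NCx

namespace NCUa

variable {ι : Type} [Fintype ι] {N : ℕ} {Ω T A D W : ℕ → Type}

/-- The common hypotheses. -/
structure Dat (t : ι → ℝ) (ε₀ : ℝ) (P : ∀ n, FP (Ω n)) (Θ : ∀ n, Ω n → T n) (Y : ∀ n, Ω n → A n)
    (x x' g p : ∀ n, Ω n → ι → ℝ) (ζ r : ∀ n, Ω n → ℝ) (d : ∀ n, Ω n → D n) (w : ∀ n, Ω n → W n)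
    (R : ℕ → ℕ) (L : ℕ → ℝ) : Prop where
  big : Big R
  sub : Sub R L
  ng : NGG P Y x t R ε₀
  i0 : Sm R fun n => mi (P n) (Y n) (fun ω => flv (R n) (x n ω)) (Θ n)
  alg : ∀ᶠ n in UF, Law (P n) (fun ω => (Θ n ω, x' n ω)) (P n) (fun ω => (Θ n ω, x n ω)) ∧
    Fn (P n) (fun ω => (ζ n ω, g n ω)) (fun ω => (d n ω, Θ n ω)) ∧
    Fn (P n) (fun ω => (r n ω, p n ω)) (fun ω => (w n ω, Θ n ω)) ∧
    ∀ ω ∈ (P n).S, |ζ n ω| ≤ L n ∧ |r n ω| ≤ L n ∧ ‖g n ω‖ ≤ L n ∧ ‖p n ω‖ ≤ L n ∧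
      ‖x n ω‖ ≤ L n ∧ ‖x n ω - x' n ω - (ζ n ω • p n ω + r n ω • g n ω)‖ ≤ L n / 2 ^ R n
  i1 : Sm R fun n => mi (P n) (fun ω => flv (R n) (x n ω)) (fun ω => (d n ω, w n ω)) (Θ n)
  i2 : Sm R fun n => mi (P n) (d n) (w n) (Θ n)

variable {t : ι → ℝ} {ε₀ : ℝ} {P : ∀ n, FP (Ω n)} {Θ : ∀ n, Ω n → T n} {Y : ∀ n, Ω n → A n}
  {x x' g p : ∀ n, Ω n → ι → ℝ} {ζ r : ∀ n, Ω n → ℝ} {d : ∀ n, Ω n → D n} {w : ∀ n, Ω n → W n}
  {R : ℕ → ℕ} {L : ℕ → ℝ}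

theorem Dat.swap (h : Dat t ε₀ P Θ Y x x' g p ζ r d w R L) :
    Dat t ε₀ P Θ Y x x' p g r ζ w d R L :=
  ⟨h.big, h.sub, h.ng, h.i0, h.alg.mono fun n hn => ⟨hn.1, hn.2.2.1, hn.2.1, fun ω hω => by
      obtain ⟨a1, a2, a3, a4, a5, a6⟩ := hn.2.2.2 ω hω
      exact ⟨a2, a1, a4, a3, a5, by rwa [add_comm]⟩⟩,
    h.i1.mono (Eventually.of_forall fun n => mi_mono fun _ _ _ _ e => by
      simp only [Prod.mk.injEq] at e ⊢; tauto),
    h.i2.mono (Eventually.of_forall fun n => (mi_symm _ _ _).le)⟩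

theorem norm_ct (e : ι ≃ Fin N) (B : ι → Prop) (y : ι → ℝ) : ‖ct e B y‖ ≤ ‖y‖ :=
  (pi_norm_le_iff_of_nonneg (norm_nonneg _)).2 fun j => by
    unfold ct
    split_ifs
    · exact norm_le_pi_norm y _
    · simp

theorem tiny {c : ℝ} (hL : Sub R L) (hc : c ≤ 1 / 4) :
    ∀ᶠ n in UF, L n / 2 ^ R n ≤ Real.exp (-(c * R n)) := (hL.2 (1 / 4) (by norm_num)).mono
  fun n hn => by
    rw [div_le_iff₀ (by positivity)]
    refine hn.trans (le_trans ?_ (mul_le_mul_of_nonneg_left (exp_le_two_pow _) (Real.exp_pos _).le))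
    rw [← Real.exp_add]
    exact Real.exp_le_exp.2 (by nlinarith [Nat.cast_nonneg (α := ℝ) (R n)])

theorem Dat.prep (h : Dat t ε₀ P Θ Y x x' g p ζ r d w R L) (e : ι ≃ Fin N) {B : ι → Prop} {τ : ℝ}
    (hτ : 0 < τ) (hτ1 : τ ≤ 1)
    (hB : ∀ᶠ n in UF, ∀ ω ∈ (P n).S, ∀ k, ¬B k → p n ω k = 0 ∧ g n ω k = 0) :
    (∀ᶠ n in UF, Fn (P n) (fun ω => (ζ n ω, ct e B (g n ω)))
        (fun ω => (d n ω, Θ n ω, ot B (R n) (x n ω))) ∧
      Fn (P n) (fun ω => (r n ω, ct e B (p n ω))) (fun ω => (w n ω, Θ n ω, ot B (R n) (x n ω))) ∧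
      (∀ ω ∈ (P n).S, |ζ n ω| ≤ 2 * L n ∧ |r n ω| ≤ 2 * L n) ∧
      ∀ a ∈ (P n).S, ∀ b ∈ (P n).S, (Θ n a, ot B (R n) (x n a)) = (Θ n b, ot B (R n) (x n b)) →
        ‖ct e B (x n a) - ct e B (x n b)‖ ≤ 2 * L n ∧
          ‖ct e B (x' n a) - ct e B (x' n b)‖ ≤ 2 * L n) ∧
    Whp P (fun n ω => ‖ct e B (g n ω)‖ ≤ 2 * L n ∧ ‖ct e B (p n ω)‖ ≤ 2 * L n ∧
      ‖ct e B (x n ω) - ct e B (x' n ω) - (ζ n ω • ct e B (p n ω) + r n ω • ct e B (g n ω))‖ ≤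
        2 * L n / 2 ^ lev R τ n) ∧
    Le (lev R τ) (fun n => ch (P n) (fun ω => fl (lev R τ n) (ct e B (x' n ω)))
        fun ω => (Θ n ω, ot B (R n) (x n ω)))
      (fun n => ch (P n) (fun ω => fl (lev R τ n) (ct e B (x n ω)))
        fun ω => (Θ n ω, ot B (R n) (x n ω))) ∧
    Sm (lev R τ) (fun n => mi (P n) (fun ω => fl (lev R τ n) (ct e B (x n ω)))
      (fun ω => (d n ω, w n ω)) fun ω => (Θ n ω, ot B (R n) (x n ω))) ∧
    Sm (lev R τ) (fun n => mi (P n) (d n) (w n) fun ω => (Θ n ω, ot B (R n) (x n ω))) ∧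
    (∀ s : ∀ n, Ω n → ℝ, (∀ᶠ n in UF, Fn (P n) (s n) fun ω => ((d n ω, w n ω), Θ n ω)) →
      Le R (fun n => R n * lg) (fun n => ch (P n) (fun ω => fl1 (R n) (s n ω)) (Θ n)) →
      Le (lev R τ) (fun n => lev R τ n * lg) fun n => ch (P n) (fun ω => fl1 (lev R τ n) (s n ω))
        fun ω => (Θ n ω, ot B (R n) (x n ω))) ∧
    ∀ c : ℝ, 0 < c → Whp P (fun n ω => ‖ct e B (x n ω) - ct e B (x' n ω)‖ ≤
      Real.exp (-(c * lev R τ n))) →
      Whp P fun n ω => ‖x n ω - x' n ω‖ ≤ Real.exp (-(min (c * τ / 2) (1 / 4) * R n)) := by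
  classical
  have hR := h.big
  have hL := h.sub
  have fr : Frac (lev R τ) R := hR.frac_floor hτ hτ1
  have ho : ∀ᶠ n in UF, ∀ ω ∈ (P n).S, ∀ k, ¬B k → |x n ω k - x' n ω k| ≤ L n / 2 ^ R n :=
    (h.alg.and hB).mono fun n hn ω hω k hk => by
      have := (norm_le_pi_norm _ k).trans (hn.1.2.2.2 ω hω).2.2.2.2.2
      simpa [hn.2 ω hω k hk] using this
  have mo : ∀ n {α : Type} (F : Ω n → α), Fn (P n) F (fun ω => ((d n ω, w n ω), Θ n ω)) →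
      mi (P n) F (fun ω => ot B (R n) (x n ω)) (Θ n) ≤
        mi (P n) (fun ω => flv (R n) (x n ω)) (fun ω => (d n ω, w n ω)) (Θ n) := fun n _ F hF =>
    ((mi_mono ((fn_ot B _ _ _).left _)).trans (mi_mono' hF)).trans_eq (mi_symm _ _ _)
  refine ⟨h.alg.mono fun n hn => ⟨fun a ha b hb k => ?_, fun a ha b hb k => ?_, fun ω hω => ?_,
    fun a ha b hb _ => ?_⟩, Whp.of_ev (h.alg.mono fun n hn ω hω => ?_), ?_,
    Le.frac (h.i1.mono (Eventually.of_forall fun n => ?_)) fr,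
    Le.frac ((h.i2.add h.i1).mono (Eventually.of_forall fun n => ?_)) fr, fun s hs hf => ?_,
    fun c hc hw => ?_⟩
  · simp only [Prod.mk.injEq] at k
    have := Prod.mk.inj (hn.2.1 a ha b hb (Prod.ext k.1 k.2.1))
    simp only [this.1, this.2]
  · simp only [Prod.mk.injEq] at k
    have := Prod.mk.inj (hn.2.2.1 a ha b hb (Prod.ext k.1 k.2.1))
    simp only [this.1, this.2]
  · exact ⟨by linarith [(hn.2.2.2 ω hω).1, hL.1 n], by linarith [(hn.2.2.2 ω hω).2.1, hL.1 n]⟩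
  · have k1 : ∀ ω ∈ (P n).S, ‖ct e B (x n ω)‖ ≤ L n := fun ω hω =>
      (norm_ct _ _ _).trans (hn.2.2.2 ω hω).2.2.2.2.1
    have k2 : ∀ ω ∈ (P n).S, ‖ct e B (x' n ω)‖ ≤ L n := fun ω hω => by
      obtain ⟨y, hy, k⟩ := hn.1.ex hω
      rw [← (Prod.mk.inj k).2]
      exact k1 y hy
    exact ⟨(norm_sub_le _ _).trans (by linarith [k1 a ha, k1 b hb]),
      (norm_sub_le _ _).trans (by linarith [k2 a ha, k2 b hb])⟩
  · obtain ⟨-, -, a1, a2, -, a3⟩ := hn.2.2.2 ω hω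
    refine ⟨by linarith [norm_ct e B (g n ω), hL.1 n], by linarith [norm_ct e B (p n ω), hL.1 n],
      le_of_eq_of_le ?_ (((norm_ct e B _).trans a3).trans (div_le_div₀ (by linarith [hL.1 n])
        (by linarith [hL.1 n]) (by positivity) (pow_le_pow_right₀ one_le_two (fr.1 n))))⟩
    congr 1
    funext j
    simp only [ct, Pi.sub_apply, Pi.add_apply, Pi.smul_apply]
    split_ifs <;> simp
  · refine Le.frac (Le.of_sub (((hR.sub le_rfl).add (hL.const_mul hR one_le_two) hR).log3 hR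
      (Fintype.card ι)) ((h.alg.and ho).mono fun n hn => ?_)) fr
    have a1 := hn.1.1.ch_eq (fun v => fl (lev R τ n) (ct e B v.2)) fun v => (v.1, ot B (R n) v.2)
    have a2 := ch_drop (P := P n) (fun ω => fl (lev R τ n) (ct e B (x' n ω)))
      (fun ω => ot B (R n) (x' n ω)) fun ω => (Θ n ω, ot B (R n) (x n ω))
    have a3 : ch (P n) (fun ω => fl (lev R τ n) (ct e B (x' n ω)))
        (fun ω => (ot B (R n) (x' n ω), Θ n ω, ot B (R n) (x n ω))) ≤ ch (P n)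
        (fun ω => fl (lev R τ n) (ct e B (x' n ω))) fun ω => (Θ n ω, ot B (R n) (x' n ω)) :=
      ch_anti fun _ _ _ _ k => by simp only [Prod.mk.injEq] at k ⊢; tauto
    have a4 : ch (P n) (fun ω => ot B (R n) (x' n ω)) (fun ω => (Θ n ω, ot B (R n) (x n ω))) ≤
        Fintype.card ι * Real.log (2 * (1 + 2 * L n) + 3) := by
      refine le_trans (ch_mono fun a _ b _ k => funext fun j => ?_) (ch_flq (r := fun _ => R n)
        (x := fun ω j => if B j then 0 else x' n ω j) (by linarith [hL.1 n])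
        fun a ha b hb k j => ?_)
      · have := congrFun (Prod.mk.inj k).1 j
        simp only [ot] at this ⊢
        split_ifs at this ⊢
        · rfl
        · exact this
      · have := congrFun (Prod.mk.inj k).2 j
        simp only [ot] at this
        split_ifs at this ⊢ with hj
        · rw [sub_zero, abs_zero]; exact div_nonneg (by linarith [hL.1 n]) (by positivity)
        · refine near_of le_rfl this ((abs_sub _ _).trans ?_) (by linarith [hL.1 n])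
          rw [abs_sub_comm (x' n a j), abs_sub_comm (x' n b j), mul_div_assoc]
          linarith [hn.2 a ha j hj, hn.2 b hb j hj]
    linarith
  · refine mi_left (Fn.fst _ _) ((Fn.snd _ _).pair ((fn_ot B _ _ _).left _)) fun a _ b _ k => ?_
    funext j
    simp only [fl, ct]
    split_ifs
    · exact fl1_eq_of_le (fr.1 n) (congrFun (Prod.mk.inj k).1 _)
    · rfl
  · have a1 := mi_add (P n) (d n) (w n) (fun ω => ot B (R n) (x n ω)) (Θ n)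
    have a2 := mo n (fun ω => (d n ω, w n ω)) (Fn.fst _ _)
    have a3 : mi (P n) (d n) (w n) (fun ω => (Θ n ω, ot B (R n) (x n ω))) ≤
        mi (P n) (d n) (w n) fun ω => (ot B (R n) (x n ω), Θ n ω) :=
      mi_cond ((Fn.snd _ _).pair (Fn.fst _ _)) (((Fn.snd _ _).pair (Fn.fst _ _)).right _)
    rw [mi_symm] at a2
    linarith
  · refine Le.frac (Le.of3 hf h.i1 (le_fl1 (P := P) (x := s) (k := R) (j := lev R τ)
      (G := fun n ω => (fl1 (lev R τ n) (s n ω), Θ n ω, ot B (R n) (x n ω))) hR (hR.sub le_rfl)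
      fr.1 (Eventually.of_forall fun n a _ b _ k => by
        rw [one_div]; exact (abs_sub_lt_of_fl1_eq (Prod.mk.inj k).1).le)) (hs.mono fun n hn => ?_))
      fr
    have a1 := ch_le_mi (P := P n) (F := fun ω => fl1 (R n) (s n ω)) (K := Θ n)
      (G := fun ω => ot B (R n) (x n ω)) (K' := fun ω => (Θ n ω, ot B (R n) (x n ω)))
      ((Fn.snd _ _).pair (Fn.fst _ _))
    have a2 := mo n (fun ω => fl1 (R n) (s n ω)) ((Fn.comp _ _).trans hn)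
    have a3 := ch_tri (P := P n) (fun ω => fl1 (R n) (s n ω)) (fun ω => fl1 (lev R τ n) (s n ω))
      fun ω => (Θ n ω, ot B (R n) (x n ω))
    linarith
  · refine hw.mono ?_
    filter_upwards [ho, tiny hL (min_le_right (c * τ / 2) (1 / 4)), hR.ev (2 / τ)]
      with n k1 k2 k3 ω hω k4
    refine (pi_norm_le_iff_of_nonneg (Real.exp_pos _).le).2 fun k => ?_
    by_cases hk : B k
    · have a1 := (norm_le_pi_norm _ (e k)).trans k4
      rw [Pi.sub_apply, ct_pos e _ hk, ct_pos e _ hk] at a1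
      refine a1.trans (Real.exp_le_exp.2 (neg_le_neg ?_))
      have a2 := lt_lev R τ n
      rw [div_le_iff₀ hτ] at k3
      have a3 := mul_le_mul_of_nonneg_right (min_le_left (c * τ / 2) (1 / 4))
        (Nat.cast_nonneg (α := ℝ) (R n))
      nlinarith
    · exact (k1 ω hω k hk).trans k2

/-- The noise step with exponent `c` for the weights `tp` and `tg`. -/
def Sol (t : ι → ℝ) (ε₀ tp tg c : ℝ) : Prop :=
  ∀ {Ω T A D W : ℕ → Type} {P : ∀ n, FP (Ω n)} {Θ : ∀ n, Ω n → T n} {Y : ∀ n, Ω n → A n}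
    {x x' g p : ∀ n, Ω n → ι → ℝ} {ζ r : ∀ n, Ω n → ℝ} {d : ∀ n, Ω n → D n} {w : ∀ n, Ω n → W n}
    {R : ℕ → ℕ} {L : ℕ → ℝ}, Dat t ε₀ P Θ Y x x' g p ζ r d w R L →
    (∀ᶠ n in UF, ∀ ω ∈ (P n).S, (∀ k, t k ≠ tp → p n ω k = 0) ∧ ∀ k, t k ≠ tg → g n ω k = 0) →
    Le R (fun n => R n * lg) (fun n => ch (P n) (fun ω => fl1 (R n) (ζ n ω)) (Θ n)) →
    (Le R (fun n => R n * lg) (fun n => ch (P n) (fun ω => fl1 (R n) (r n ω)) (Θ n)) ∨
      tp = tg ∧ ∀ᶠ n in UF, ∀ ω ∈ (P n).S, g n ω = 0) →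
    Whp P fun n ω => ‖x n ω - x' n ω‖ ≤ Real.exp (-(c * R n))

theorem two (ht : ∀ k, 0 < t k ∧ t k ≤ 1) (h0 : 0 < ε₀) (h1 : ε₀ ≤ 1) {tp tg : ℝ} (p0 : 0 < tp)
    (p1 : tp < tg) (p2 : tg ≤ 1) : ∃ c, 0 < c ∧ Sol t ε₀ tp tg c := by
  classical
  have p3 := p0.trans p1
  obtain ⟨c, hc, H⟩ := ncT (Finset.univ.filter fun j => t ((Fintype.equivFin ι).symm j) = tg)
    (div_pos p0 p3) ((div_lt_one p3).2 p1) h0 h1
  refine ⟨min (c * tg / 2) (1 / 4), by positivity, ?_⟩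
  intro Ω T A D W P Θ Y x x' g p ζ r d w R L h hs i3 i4
  have fr : Frac (lev R tg) R := h.big.frac_floor p3 p2
  obtain ⟨a1, a2, a3, a4, a5, a6, a7⟩ := h.prep (Fintype.equivFin ι)
    (B := fun k => t k = tg ∨ t k = tp) p3 p2 (hs.mono fun n hn ω hω k hk =>
      ⟨(hn ω hω).1 k fun e => hk (Or.inr e), (hn ω hω).2 k fun e => hk (Or.inl e)⟩)
  refine a7 c hc (H d w (h.big.frac fr) ((h.sub.const_mul h.big one_le_two).frac fr)
    (ngt _ ht p3 ((div_le_one p3).2 p1.le) p2 (fun k hk => ?_) h0.le h1 h.big h.ng h.i0)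
    ((a1.and hs).mono fun n hn => ⟨hn.1.1, hn.1.2.1, fun ω hω => ⟨(hn.1.2.2.1 ω hω).1,
      (hn.1.2.2.1 ω hω).2, fun j hj => ?_⟩, hn.1.2.2.2⟩) a2 a3 a4 a5
    (a6 ζ (h.alg.mono fun n hn a ha b hb e => ?_) i3)
    (a6 r (h.alg.mono fun n hn a ha b hb e => ?_) (i4.resolve_right fun k => p1.ne k.1)))
  · simp only [Finset.mem_filter, Finset.mem_univ, true_and, Equiv.symm_apply_apply]
    exact ⟨id, fun e => (hk.resolve_left e).trans (div_mul_cancel₀ _ p3.ne').symm⟩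
  · simp only [Finset.mem_filter, Finset.mem_univ, true_and] at hj
    simp [ct, (hn.2 ω hω).2 _ hj]
  · simp only [Prod.mk.injEq] at e
    exact (Prod.mk.inj (hn.2.1 a ha b hb (Prod.ext e.1.1 e.2))).1
  · simp only [Prod.mk.injEq] at e
    exact (Prod.mk.inj (hn.2.2.1 a ha b hb (Prod.ext e.1.2 e.2))).1

theorem one (ht : ∀ k, 0 < t k ∧ t k ≤ 1) (h0 : 0 < ε₀) (h1 : ε₀ ≤ 1) {τ : ℝ} (p0 : 0 < τ)
    (p1 : τ ≤ 1) : ∃ c, 0 < c ∧ Sol t ε₀ τ τ c := by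
  obtain ⟨c, hc, H⟩ := ncR (Fintype.card ι) h0 h1
  refine ⟨min (c * τ / 2) (1 / 4), by positivity, ?_⟩
  intro Ω T A D W P Θ Y x x' g p ζ r d w R L h hs i3 i4
  have fr : Frac (lev R τ) R := h.big.frac_floor p0 p1
  obtain ⟨a1, a2, a3, a4, a5, a6, a7⟩ := h.prep (Fintype.equivFin ι) (B := fun k => t k = τ) p0 p1
    (hs.mono fun n hn ω hω k hk => ⟨(hn ω hω).1 k hk, (hn ω hω).2 k hk⟩)
  refine a7 c hc (H d w (h.big.frac fr) ((h.sub.const_mul h.big one_le_two).frac fr)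
    (ngr (ngt _ ht p0 le_rfl p1 (fun k hk => ⟨fun _ => hk, fun e => absurd (Finset.mem_univ _) e⟩)
      h0.le h1 h.big h.ng h.i0) (h.big.frac fr)) a1 a2 a3 a4 a5
    (a6 ζ (h.alg.mono fun n hn a ha b hb e => ?_) i3)
    (i4.imp (a6 r (h.alg.mono fun n hn a ha b hb e => ?_)) fun k => k.2.mono fun n hn ω hω =>
      funext fun j => by simp [ct, hn ω hω]))
  · simp only [Prod.mk.injEq] at e
    exact (Prod.mk.inj (hn.2.1 a ha b hb (Prod.ext e.1.1 e.2))).1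
  · simp only [Prod.mk.injEq] at e
    exact (Prod.mk.inj (hn.2.2.1 a ha b hb (Prod.ext e.1.2 e.2))).1

theorem sol (ht : ∀ k, 0 < t k ∧ t k ≤ 1) (h0 : 0 < ε₀) (h1 : ε₀ ≤ 1) (k : ι × ι) :
    ∃ c, 0 < c ∧ Sol t ε₀ (t k.1) (t k.2) c := by
  rcases lt_trichotomy (t k.1) (t k.2) with h | h | h
  · exact two ht h0 h1 (ht _).1 h (ht _).2
  · rw [h]; exact one ht h0 h1 (ht _).1 (ht _).2
  · obtain ⟨c, hc, H⟩ := two ht h0 h1 (ht _).1 h (ht _).2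
    exact ⟨c, hc, fun D hs i3 i4 => H D.swap (hs.mono fun n hn ω hω => (hn ω hω).symm)
      (i4.resolve_right fun e => h.ne' e.1) (Or.inl i3)⟩

end NCUa

open NCUa in
theorem ncu : NCU := by
  intro ι _ t ε₀ ht h0 h1
  choose c hc H using sol ht h0 h1
  obtain ⟨M, hM⟩ := Finite.exists_le fun k => (c k)⁻¹
  have m0 : 0 < max M 4 := lt_max_of_lt_right four_pos
  have H' : ∀ k : ι × ι, Sol t ε₀ (t k.1) (t k.2) (max M 4)⁻¹ := fun k _ _ _ _ _ _ _ _ _ _ _ _ _ _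
    _ _ _ _ D hs i3 i4 => (H k D hs i3 i4).mono (Eventually.of_forall fun n ω _ h => h.trans
      (Real.exp_le_exp.2 (neg_le_neg (mul_le_mul_of_nonneg_right
        (inv_le_of_inv_le₀ (hc k) ((hM k).trans (le_max_left _ _))) (Nat.cast_nonneg _)))))
  refine ⟨(max M 4)⁻¹, inv_pos.2 m0, ?_⟩
  intro Ω T A D W P Θ Y x x' g p ζ r d w R L tp tg hR hL hN i0 hb i1 i2 i3 i4
  have hD : Dat t ε₀ P Θ Y x x' g p ζ r d w R L := ⟨hR, hL, hN, i0, hb.mono fun n hn =>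
    ⟨hn.1, hn.2.1, hn.2.2.1, fun ω hω => by
      obtain ⟨a1, a2, a3, a4, a5, -, -, a6⟩ := hn.2.2.2 ω hω
      exact ⟨a1, a2, a3, a4, a5, a6⟩⟩, i1, i2⟩
  have sp := hb.mono fun n hn ω hω => (hn.2.2.2 ω hω).2.2.2.2.2.1
  have sg := hb.mono fun n hn ω hω => (hn.2.2.2 ω hω).2.2.2.2.2.2.1
  have ex : ∀ {y : ∀ n, Ω n → ι → ℝ} {s : ℝ},
      (∀ᶠ n in UF, ∀ ω ∈ (P n).S, ∀ k, t k ≠ s → y n ω k = 0) →
      (¬∀ᶠ n in UF, ∀ ω ∈ (P n).S, y n ω = 0) → ∃ k, t k = s := fun h h' =>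
    by_contra fun e => h' (h.mono fun n hn ω hω => funext fun k => hn ω hω k fun e' => e ⟨k, e'⟩)
  by_cases hp : ∀ᶠ n in UF, ∀ ω ∈ (P n).S, p n ω = 0 <;>
    by_cases hg : ∀ᶠ n in UF, ∀ ω ∈ (P n).S, g n ω = 0
  · refine Whp.of_ev ?_
    filter_upwards [hp, hg, hD.alg, tiny (c := (max M 4)⁻¹) hL (by
      rw [one_div]; exact inv_anti₀ four_pos (le_max_right _ _))] with n k1 k2 k3 k4 ω hω
    have := (k3.2.2.2 ω hω).2.2.2.2.2
    rw [k1 ω hω, k2 ω hω, smul_zero, smul_zero, add_zero, sub_zero] at this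
    exact this.trans k4
  · obtain ⟨k, rfl⟩ := ex sg hg
    exact H' (k, k) hD.swap ((sg.and hp).mono fun n hn ω hω =>
      ⟨hn.1 ω hω, fun j _ => congrFun (hn.2 ω hω) j⟩) (i4.resolve_right hg) (Or.inr ⟨rfl, hp⟩)
  · obtain ⟨k, rfl⟩ := ex sp hp
    exact H' (k, k) hD ((sp.and hg).mono fun n hn ω hω =>
      ⟨hn.1 ω hω, fun j _ => congrFun (hn.2 ω hω) j⟩) (i3.resolve_right hp) (Or.inr ⟨rfl, hg⟩)
  · obtain ⟨k, rfl⟩ := ex sp hp
    obtain ⟨k', rfl⟩ := ex sg hg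
    exact H' (k, k') hD ((sp.and sg).mono fun n hn ω hω => ⟨hn.1 ω hω, hn.2 ω hω⟩)
      (i3.resolve_right hp) (Or.inl (i4.resolve_right hg))

end Pool.Agent.MP_5168f5_an.AN.TB
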