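import Pool.Agent.MP_5168f5_an.AN.TBSpec
import Pool.Agent.MP_5168f5_an.H17F.KE
import Pool.Agent.MP_5168f5_an.H17F.KG

/-! Kakeya sets in all dimensions: the bilinear terminal step, one resampling on each side. -/

namespace Pool.Agent.MP_5168f5_an.AN.TB

open H19 H17S H17F Filter R4.K31

namespace TBKerA

theorem er_sub {I : Type} (B : Finset I) (o : Option I) : er B o ⊆ B := by
  cases o with
  | none => exact Finset.Subset.refl _
  | some i => exact fun a ha => @Finset.mem_of_mem_erase _ (Classical.propDecidable <| · = ·) _ _ _ ha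

/-- The absence of growth pulls back along a refinement of bounded density. -/
theorem ngg_pb {ι : Type} [Fintype ι] {Ω Ω' A : ℕ → Type} {P : ∀ n, FP (Ω n)}
    {P' : ∀ n, FP (Ω' n)} {Pi : ∀ n, Ω n → A n} {x : ∀ n, Ω n → ι → ℝ} {t : ι → ℝ} {R : ℕ → ℕ}
    {ε₀ : ℝ} (σ : ∀ n, Ω' n → Ω n) (hσ : DnS P' σ P) (h : NGG P Pi x t R ε₀) :
    NGG P' (fun n y => Pi n (σ n y)) (fun n y => x n (σ n y)) t R ε₀ :=
  fun W K Q ρ κ s s' i b d hs hb =>
    h W K Q (fun n v => σ n (ρ n v)) κ s s' i b (d.trans hσ) hs hb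

theorem fin_exp {R : ℕ → ℕ} {L : ℕ → ℝ} (hR : Big R) (hL : Sub R L) {c : ℝ} (hc : 0 < c) :
    ∀ᶠ n in UF, Real.exp (-(c * R n)) + L n / 2 ^ R n ≤ Real.exp (-(min c lg / 2 * R n)) := by
  have hm : 0 < min c lg := lt_min hc lg_pos
  have m1 := min_le_left c lg
  have m2 := min_le_right c lg
  generalize min c lg = m at hm m1 m2 ⊢
  filter_upwards [hL.2 (m / 4) (by positivity), (hR.sub one_le_two).2 (m / 4) (by positivity)]
    with n a b
  have r0 : (0 : ℝ) ≤ R n := Nat.cast_nonneg _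
  have h1 : Real.exp (-(c * R n)) ≤ Real.exp (-(3 * m / 4 * R n)) :=
    Real.exp_le_exp.2 (by nlinarith)
  have h2 : L n / 2 ^ R n ≤ Real.exp (-(3 * m / 4 * R n)) := by
    rw [div_le_iff₀ (by positivity), two_pow_eq, ← Real.exp_add]
    exact a.trans (Real.exp_le_exp.2 (by nlinarith))
  have h3 : Real.exp (-(m / 2 * R n)) =
      Real.exp (m / 4 * R n) * Real.exp (-(3 * m / 4 * R n)) := by
    rw [← Real.exp_add]; congr 1; ring
  have h4 := mul_le_mul_of_nonneg_right b (Real.exp_pos (-(3 * m / 4 * R n))).le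
  linarith

variable {I J ι : Type} [Fintype I] [Fintype J] [Fintype ι] {x : ℕ → Tm I J ι} {B1 : Finset I}
  {B2 : Finset J} {t1 : I → ℝ} {t2 : J → ℝ} {t : ι → ℝ} {R : ℕ → ℕ} {L : ℕ → ℝ} {ε₀ : ℝ}

/-- The first scalar is full or the first vector vanishes. -/
theorem ful1 (fc : FulC) (ka : KInfA) (kc : KInfC) (h : TOK x B1 B2 t1 t2 t R L ε₀)
    (o : Option I) (S' : Finset J) (ho : Adm B1 o) :
    Le R (fun n => R n * lg) (fun n => ch ((x n).P4 (R n) (er B1 o) S')
      (fun y => fl1 (R n) ((x n).ζ (R n) o y)) ((x n).Θ (R n) (er B1 o))) ∨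
    ∀ᶠ n in UF, ∀ y ∈ ((x n).P4 (R n) (er B1 o) S').S, (x n).p (R n) o y = 0 := by
  cases o with
  | none =>
    refine Or.inr (Eventually.of_forall fun n y _ => funext fun k => ?_)
    simp [Tm.p, bl, ev]
  | some i =>
    have h1 : Le R (fun n => B1.card * R n * lg) fun n => ch ((x n).P2 (R n) S')
        (fun y => prj B1 (flv (R n) ((x n).u y.1))) (x n).Xi := by
      refine (Le.add h.f1 h.ind2).of_sub (h.alg.mono fun n a => ?_)
      linarith [(ka (x n) B1 B2 S' t1 t2 t (R n) (L n) a).2.2.2.2]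
    have h2 : ∀ᶠ n in UF, ∀ y ∈ ((x n).P2 (R n) S').S, ‖(x n).u y.1‖ ≤ L n :=
      h.alg.mono fun n a y hy =>
        (a.bd _ (((rowKG rowKE).mem _ _ _ _ y fun _ => rfl).1 hy).1).1
    have h3 := (fc (fun n => (x n).P2 (R n) S') (fun n => (x n).Xi) (fun n y => (x n).u y.1) B1 R L
      h.big h.sub h2 h1 i (ho i rfl)).1
    exact Or.inl (h3.trans (Le.of_ev (h.alg.mono fun n a =>
      (kc (x n) B1 (er B1 (some i)) B2 S' t1 t2 t (R n) (L n) a).2.2.1 i)))

/-- The second scalar is full or the second vector vanishes. -/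
theorem ful2 (fc : FulC) (kc : KInfC) (h : TOK x B1 B2 t1 t2 t R L ε₀)
    (o : Option I) (o' : Option J) (S : Finset I) (ho : Adm B2 o') :
    Le R (fun n => R n * lg) (fun n => ch ((x n).P4 (R n) S (er B2 o'))
      (fun y => fl1 (R n) ((x n).r (R n) o' y)) ((x n).Θ (R n) S)) ∨
    ∀ᶠ n in UF, ∀ y ∈ ((x n).P4 (R n) S (er B2 o')).S, (x n).g (R n) o o' y = 0 := by
  cases o' with
  | none =>
    refine Or.inr (Eventually.of_forall fun n y _ => funext fun k => ?_)
    simp [Tm.g, bl, ev]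
  | some l =>
    have h3 := (fc (fun n => (x n).P) (fun n => (x n).O2) (fun n => (x n).v) B2 R L
      h.big h.sub (h.alg.mono fun n a y hy => (a.bd y hy).2.1) h.f2 l (ho l rfl)).1
    exact Or.inl (h3.trans (Le.of_ev (h.alg.mono fun n a =>
      (kc (x n) B1 S B2 (er B2 (some l)) t1 t2 t (R n) (L n) a).2.2.2 l)))

end TBKerA

open TBKerA

theorem rowKer : OfKer := by
  intro nc fc ka kb kc kal I J ι _ _ _ x B1 B2 t1 t2 t R L ε₀ h
  obtain ⟨c, hc, nc⟩ := nc ι t ε₀ h.wt h.e0.1 h.e0.2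
  obtain ⟨C, hC, kal⟩ := kal I J ι
  refine ⟨min c lg / 2, half_pos (lt_min hc lg_pos), fun o o' ho ho' => ?_⟩
  have hL := (h.sub.pow 2).const_mul h.big hC
  have hA := h.alg.mono fun n a =>
    kal (x n) B1 B2 t1 t2 t (R n) (L n) o o' (h.sub.1 n) a ho ho'
  have hB := h.alg.mono fun n a =>
    kb (x n) B1 (er B1 o) B2 (er B2 o') t1 t2 t (R n) (L n) a (er_sub _ _)
  have hK := h.alg.mono fun n a => kc (x n) B1 (er B1 o) B2 (er B2 o') t1 t2 t (R n) (L n) a
  have key := nc (fun n => (x n).P4 (R n) (er B1 o) (er B2 o'))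
    (fun n => (x n).Θ (R n) (er B1 o)) (fun n y => (x n).Pi y.1.2) (fun n y => (x n).γ y.1.2)
    (fun n y => (x n).γ y.2.2) (fun n => (x n).g (R n) o o') (fun n => (x n).p (R n) o)
    (fun n => (x n).ζ (R n) o) (fun n => (x n).r (R n) o') (fun n => (x n).d (R n))
    (fun n => (x n).w (R n)) R (fun n => C * L n ^ 2) (o.elim 0 t1) (o'.elim 0 t2) h.big hL
    (ngg_pb (fun n (y : ((x n).Ω × (x n).Ω) × (x n).Ω × (x n).Ω) => y.1.2)
      (dnS_law (hK.mono fun n a => a.1)) h.ng)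
    (h.tr.mono (hB.mono fun n a => a.2.2))
    ((hA.and hK).mono fun n a => ⟨a.2.2.1, a.1.1, a.1.2.1, fun y hy => (a.1.2.2 y hy).1⟩)
    (((h.ind1.smul zero_le_two).add (h.ind2.smul zero_le_two)).mono (hB.mono fun n a => a.1))
    ((h.ind1.add (h.ind2.smul zero_le_two)).mono (hB.mono fun n a => a.2.1))
    (ful1 fc ka kc h o (er B2 o') ho) (ful2 fc kc h o o' (er B1 o) ho')
  refine key.mono ?_
  filter_upwards [hA, fin_exp h.big hL hc] with n a b y hy e
  have h1 := norm_add_le ((x n).γ y.1.2 - (x n).γ y.2.2)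
    ((x n).X (R n) y.1 - (x n).X (R n) y.2 - ((x n).γ y.1.2 - (x n).γ y.2.2))
  rw [add_sub_cancel] at h1
  linarith [(a.2.2 y hy).2]

end Pool.Agent.MP_5168f5_an.AN.TB
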