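import Pool.Agent.MP_5168f5_an.AN.NCH1
import Pool.Agent.MP_5168f5_an.AN.NCU
import Pool.Agent.MP_5168f5_an.AN.TBKer
import Pool.Agent.MP_5168f5_an.R4.K31Cls

/-! Kakeya sets in all dimensions: the noise step when only sums of copies are full. -/

namespace Pool.Agent.MP_5168f5_an.AN.TB

open H19 H17S H17F Filter R4 R4.K31

theorem HTS.pull {Ω Ω' A : ℕ → Type} {P : ∀ n, FP (Ω n)} {P' : ∀ n, FP (Ω' n)}
    {a : ∀ n, Ω n → ℝ} {O : ∀ n, Ω n → A n} {R : ℕ → ℕ} {σ : ∀ n, Ω' n → Ω n} (h : HTS P a O R)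
    (e : ∀ᶠ n in UF, Law (P' n) (σ n) (P n) id) :
    HTS P' (fun n v => a n (σ n v)) (fun n v => O n (σ n v)) R := fun η hη =>
  (h η hη).mono fun q H W Z Q ρ z c h1 h2 => H W Z Q (fun n v k => σ n (ρ n v k)) z c
    ((h1.and e).mono fun n u => ⟨fun k => ((u.1.1 k).comp (σ n)).trans u.2, u.1.2⟩)
    ((Le.of_ev (e.mono fun n u => by rw [u.ch_id])).trans h2)

namespace NCHa

section One

variable {ι : Type} [Fintype ι] {Ω T A D W V : Type} {P : FP Ω} {Θ : Ω → T} {x x' g p : Ω → ι → ℝ}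
  {ζ r a : Ω → ℝ} {d : Ω → D} {w : Ω → W} {O : Ω → A} {R q : ℕ} {L tp tg : ℝ} {t : ι → ℝ}
  {Q : FP V} {ρ : V → Fin (q + 1) → Ω}

/-- The data along which the copies are glued. -/
noncomputable abbrev ky (R : ℕ) (Θ : Ω → T) (w : Ω → W) (x : Ω → ι → ℝ) (ω : Ω) :
    T × W × (ι → ℤ) := (Θ ω, w ω, flv R (x ω))

/-- The algebraic hypotheses. -/
def Al (P : FP Ω) (Θ : Ω → T) (x x' g p : Ω → ι → ℝ) (ζ r : Ω → ℝ) (d : Ω → D) (w : Ω → W) (R : ℕ)
    (L tp tg : ℝ) (t : ι → ℝ) : Prop :=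
  Fn P (fun ω => (ζ ω, g ω)) (fun ω => (d ω, Θ ω)) ∧
    Fn P (fun ω => (r ω, p ω)) (fun ω => (w ω, Θ ω)) ∧
    ∀ ω ∈ P.S, |ζ ω| ≤ L ∧ |r ω| ≤ L ∧ ‖g ω‖ ≤ L ∧ ‖p ω‖ ≤ L ∧ ‖x ω‖ ≤ L ∧
      (∀ k, t k ≠ tp → p ω k = 0) ∧ (∀ k, t k ≠ tg → g ω k = 0) ∧
      ‖x ω - x' ω - (ζ ω • p ω + r ω • g ω)‖ ≤ L / 2 ^ R

omit [Fintype ι] in
theorem cΘ (h : Chn P (ky R Θ w x) (ky R Θ w x') Q ρ) {v : V} (hv : v ∈ Q.S) (k : Fin (q + 1)) :
    Θ (ρ v k) = Θ (ρ v 0) := h.const (θ := Prod.fst) (fun _ => rfl) hv k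

omit [Fintype ι] in
theorem cw (h : Chn P (ky R Θ w x) (ky R Θ w x') Q ρ) {v : V} (hv : v ∈ Q.S) (k : Fin (q + 1)) :
    w (ρ v k) = w (ρ v 0) := h.const (θ := fun z => z.2.1) (fun _ => rfl) hv k

theorem lnk (h : Chn P (ky R Θ w x) (ky R Θ w x') Q ρ) {v : V} (hv : v ∈ Q.S) (k : Fin q) :
    ‖x (ρ v k.succ) - x' (ρ v k.castSucc)‖ ≤ 1 / 2 ^ R := by
  rw [one_div]
  exact (norm_sub_lt_of_flv_eq (congrArg (fun z => z.2.2) (h.lnk v hv k))).le

theorem sum_le {E : Type} [SeminormedAddCommGroup E] {m : ℕ} {u : Fin m → E} {B : ℝ}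
    (h : ∀ k, ‖u k‖ ≤ B) : ‖∑ k, u k‖ ≤ m * B :=
  (norm_sum_le _ _).trans ((Finset.sum_le_sum fun k _ => h k).trans_eq (by simp))

theorem al_chn (h : Chn P (ky R Θ w x) (ky R Θ w x') Q ρ) (e : Al P Θ x x' g p ζ r d w R L tp tg t)
    (hL : 1 ≤ L) : Al Q (fun v => Θ (ρ v 0)) (fun v => x (ρ v 0))
      (fun v => x' (ρ v (Fin.last q))) (fun v => ∑ k, g (ρ v k)) (fun v => p (ρ v 0))
      (fun v => ∑ k, ζ (ρ v k)) (fun v => r (ρ v 0)) (fun v k => d (ρ v k)) (fun v => w (ρ v 0)) R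
      (2 * (q + 1) * L) tp tg t := by
  obtain ⟨e1, e2, e3⟩ := e
  have q0 : (0 : ℝ) ≤ q := Nat.cast_nonneg q
  have l1 : L ≤ 2 * (q + 1) * L := by nlinarith
  have l2 : ((q + 1 : ℕ) : ℝ) * L ≤ 2 * (q + 1) * L := by push_cast; nlinarith
  refine ⟨fun u hu v hv z => ?_, (h.law 0).fn e2, fun v hv => ?_⟩
  · have k : ∀ k, (ζ (ρ u k), g (ρ u k)) = (ζ (ρ v k), g (ρ v k)) := fun k =>
      e1 _ ((h.law k).mem hu) _ ((h.law k).mem hv) (Prod.ext (congrFun (congrArg Prod.fst z) k)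
        ((cΘ h hu k).trans ((congrArg Prod.snd z).trans (cΘ h hv k).symm)))
    have k1 : ∀ j, ζ (ρ u j) = ζ (ρ v j) := fun j => congrArg Prod.fst (k j)
    have k2 : ∀ j, g (ρ u j) = g (ρ v j) := fun j => congrArg Prod.snd (k j)
    simp only [k1, k2]
  have b := fun k => e3 _ ((h.law k).mem hv)
  have c : ∀ k, (r (ρ v k), p (ρ v k)) = (r (ρ v 0), p (ρ v 0)) := fun k =>
    e2 _ ((h.law k).mem hv) _ ((h.law 0).mem hv) (Prod.ext (cw h hv k) (cΘ h hv k))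
  have c1 : ∀ k, r (ρ v k) = r (ρ v 0) := fun k => congrArg Prod.fst (c k)
  have c2 : ∀ k, p (ρ v k) = p (ρ v 0) := fun k => congrArg Prod.snd (c k)
  refine ⟨(sum_le (u := fun k => ζ (ρ v k)) fun k => (b k).1).trans l2, (b 0).2.1.trans l1,
    (sum_le fun k => (b k).2.2.1).trans l2, (b 0).2.2.2.1.trans l1, (b 0).2.2.2.2.1.trans l1,
    (b 0).2.2.2.2.2.1, fun i hi => ?_, ?_⟩
  · exact (Finset.sum_apply _ _ _).trans
      (Finset.sum_eq_zero fun k _ => (b k).2.2.2.2.2.2.1 i hi)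
  · have z : x (ρ v 0) - x' (ρ v (Fin.last q)) -
        ((∑ k, ζ (ρ v k)) • p (ρ v 0) + r (ρ v 0) • ∑ k, g (ρ v k)) =
        ∑ k, (x (ρ v k) - x' (ρ v k) - (ζ (ρ v k) • p (ρ v k) + r (ρ v k) • g (ρ v k))) -
          ∑ k : Fin q, (x (ρ v k.succ) - x' (ρ v k.castSucc)) := by
      rw [Chn.tel (fun k => x (ρ v k)) fun k => x' (ρ v k), Finset.sum_smul, Finset.smul_sum,
        ← Finset.sum_add_distrib, sub_right_comm, ← Finset.sum_sub_distrib]
      congr 1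
      exact Finset.sum_congr rfl fun k _ => by rw [c1 k, c2 k]
    beta_reduce
    rw [z]
    refine (norm_sub_le _ _).trans ((add_le_add (sum_le fun k => (b k).2.2.2.2.2.2.2)
      (sum_le (lnk h hv))).trans ?_)
    rw [← mul_div_assoc, ← mul_div_assoc, ← add_div]
    refine div_le_div_of_nonneg_right ?_ (by positivity)
    push_cast
    nlinarith

/-- The information of `d` on the gluing data. -/
noncomputable abbrev ie (P : FP Ω) (R : ℕ) (Θ : Ω → T) (w : Ω → W) (x : Ω → ι → ℝ) (d : Ω → D) :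
    ℝ := ch P d Θ - ch P d (ky R Θ w x)

omit [Fintype ι] in
theorem ie_eq : ie P R Θ w x d = mi P d (fun ω => (flv R (x ω), w ω)) Θ :=
  congrArg _ (le_antisymm (ch_anti fun a _ b _ e => by
    simp only [Prod.mk.injEq] at e ⊢; tauto) (ch_anti fun a _ b _ e => by
    simp only [Prod.mk.injEq] at e ⊢; tauto))

omit [Fintype ι] in
theorem ie_le : ie P R Θ w x d ≤
    mi P (fun ω => flv R (x ω)) (fun ω => (d ω, w ω)) Θ + mi P d w Θ := by
  have h1 : mi P d (fun ω => (flv R (x ω), w ω)) Θ ≤ mi P d (fun ω => (w ω, flv R (x ω))) Θ :=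
    mi_mono fun a _ b _ e => by simp only [Prod.mk.injEq] at e ⊢; tauto
  have h2 : mi P (fun ω => flv R (x ω)) (fun ω => (w ω, d ω)) Θ ≤
      mi P (fun ω => flv R (x ω)) (fun ω => (d ω, w ω)) Θ :=
    mi_mono fun a _ b _ e => by simp only [Prod.mk.injEq] at e ⊢; tauto
  linarith [ie_eq (P := P) (R := R) (Θ := Θ) (w := w) (x := x) (d := d),
    mi_nonneg (P := P) (fun ω => flv R (x ω)) w Θ, mi_chain (P := P) d w (fun ω => flv R (x ω)) Θ,
    mi_chain (P := P) (fun ω => flv R (x ω)) w d Θ,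
    mi_symm (P := P) d (fun ω => flv R (x ω)) fun ω => (w ω, Θ ω)]

omit [Fintype ι] in
theorem ie_glue {D' : Type} {d' : Ω × Ω → D'}
    (h : Fn (glue P P (fun ω => (d ω, Θ ω)) fun ω => (d ω, Θ ω)) d' Prod.snd) :
    ie (glue P P (fun ω => (d ω, Θ ω)) fun ω => (d ω, Θ ω)) R (fun v => Θ v.1) (fun v => w v.1)
      (fun v => x v.1) d' ≤ ie P R Θ w x d := by
  have h1 := kg.mkv' P P (fun ω => (d ω, Θ ω)) (fun ω => (d ω, Θ ω))
    (fun ω => (flv R (x ω), w ω)) Θ id (Law.rfl _) (Fn.comp (fun ω => (d ω, Θ ω)) id)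
  have h2 := (kg.fst P P (fun ω => (d ω, Θ ω)) fun ω => (d ω, Θ ω)).ch_id
    (fun ω => (flv R (x ω), w ω)) Θ
  have h3 := ch_anti (P := P) (F := fun ω => (flv R (x ω), w ω)) (G' := fun ω => (d ω, Θ ω))
    (G := fun ω => ((d ω, Θ ω), Θ ω)) fun _ _ _ _ e => congrArg (fun z => (z, z.2)) e
  have h4 := mi_mono (P := glue P P (fun ω => (d ω, Θ ω)) fun ω => (d ω, Θ ω))
    (F := fun v => (flv R (x v.1), w v.1)) (G := d') (G' := fun v => id v.2) (K := fun v => Θ v.1)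
    fun a ha b hb e => h a ha b hb (congrArg Prod.fst e)
  rw [ie_eq, ie_eq, mi_symm d', mi_symm d]
  unfold mi at *
  linarith

omit [Fintype ι] in
theorem mi_chn (h : Chn P (ky R Θ w x) (ky R Θ w x') Q ρ) (d : Ω → D) :
    mi Q (fun v k => d (ρ v k)) (fun v => w (ρ v 0)) (fun v => Θ (ρ v 0)) ≤
      (q + 1) * ie P R Θ w x d ∧
    mi Q (fun v => flv R (x (ρ v 0))) (fun v => (fun k => d (ρ v k), w (ρ v 0)))
      (fun v => Θ (ρ v 0)) ≤ mi P (fun ω => flv R (x ω)) (fun ω => (d ω, w ω)) Θ +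
        (q + 1) * ie P R Θ w x d := by
  have h1 := h.ent d
  have h2 := h.sub (θ := Prod.fst) (fun _ => rfl) d
  have h3 := ch_anti (P := Q) (F := fun v k => d (ρ v k)) (G := fun v => (w (ρ v 0), Θ (ρ v 0)))
    (G' := fun v => ky R Θ w x (ρ v 0)) fun a _ b _ e => by
      simp only [Prod.mk.injEq] at e ⊢; tauto
  have h4 := mi_mono (P := Q) (F := fun v => flv R (x (ρ v 0)))
    (G := fun v => (fun k => d (ρ v k), w (ρ v 0))) (G' := fun v => (w (ρ v 0), fun k => d (ρ v k)))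
    (K := fun v => Θ (ρ v 0)) fun a _ b _ e => by simp only [Prod.mk.injEq] at e ⊢; tauto
  have g1 := mi_chain (P := Q) (fun v => flv R (x (ρ v 0))) (fun v => w (ρ v 0))
    (fun v k => d (ρ v k)) fun v => Θ (ρ v 0)
  have g2 := mi_symm (P := Q) (fun v => flv R (x (ρ v 0))) (fun v k => d (ρ v k))
    fun v => (w (ρ v 0), Θ (ρ v 0))
  have g3 := (h.law 0).mi_id (fun ω => flv R (x ω)) w Θ
  have h5 := mi_mono (P := P) (F := fun ω => flv R (x ω)) (G := w) (G' := fun ω => (d ω, w ω))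
    (K := Θ) ((Fn.snd _ _).left _)
  have h6 := ch_anti (P := Q) (F := fun v k => d (ρ v k))
    (G := fun v => (flv R (x (ρ v 0)), w (ρ v 0), Θ (ρ v 0)))
    (G' := fun v => ky R Θ w x (ρ v 0)) fun a _ b _ e => by
      simp only [Prod.mk.injEq] at e ⊢; tauto
  have h7 := ch_anti (P := Q) (F := fun v k => d (ρ v k)) (G := fun v => Θ (ρ v 0))
    (G' := fun v => (w (ρ v 0), Θ (ρ v 0))) (Fn.snd _ _)
  unfold mi at *
  constructor <;> linarith

omit [Fintype ι] in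
theorem ht_chn (h : Chn P (ky R Θ w x) (ky R Θ w x') Q ρ) :
    ((q + 1 : ℕ) : ℝ) * ch P a O ≤ ch Q (fun v k => a (ρ v k))
      (fun v => (fun k => (ζ (ρ v k) - a (ρ v k), O (ρ v k)), Θ (ρ v 0))) +
      (q + 1) * (ie P R Θ w x (fun ω => ((ζ ω - a ω, O ω), a ω)) +
        mi P a (fun ω => (ζ ω - a ω, Θ ω)) O) := by
  have h1 := h.ent fun ω => ((ζ ω - a ω, O ω), a ω)
  have h2 := h.sub (θ := Prod.fst) (fun _ => rfl) fun ω => (ζ ω - a ω, O ω)
  have h3 := ch_anti (P := Q) (F := fun v k => ((ζ (ρ v k) - a (ρ v k), O (ρ v k)), a (ρ v k)))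
    (G := fun v => Θ (ρ v 0)) (G' := fun v => ky R Θ w x (ρ v 0))
    fun _ _ _ _ e => congrArg Prod.fst e
  have h4 := ch_mono (P := Q) (F := fun v k => ((ζ (ρ v k) - a (ρ v k), O (ρ v k)), a (ρ v k)))
    (F' := fun v => (fun k => (ζ (ρ v k) - a (ρ v k), O (ρ v k)), fun k => a (ρ v k)))
    (G := fun v => Θ (ρ v 0)) fun _ _ _ _ e => funext fun k =>
      Prod.ext (congrFun (congrArg (fun z => z.1.1) e) k) (congrFun (congrArg (fun z => z.1.2) e) k)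
  rw [ch_chain] at h4
  have h5 := ch_chain (P := P) (fun ω => (ζ ω - a ω, O ω)) a Θ
  have h6 := ch_anti (P := P) (F := a) (G := fun ω => ((ζ ω - a ω, O ω), Θ ω))
    (G' := fun ω => ((ζ ω - a ω, Θ ω), O ω)) fun a _ b _ e => by
      simp only [Prod.mk.injEq] at e ⊢; tauto
  have h7 := mul_le_mul_of_nonneg_left h6 (by positivity : (0 : ℝ) ≤ q + 1)
  unfold mi ie
  rw [h5]
  push_cast
  linarith

end One

section Seq

variable {ι : Type} [Fintype ι] {Ω T A A' D W : ℕ → Type} {t : ι → ℝ} {ε₀ c tp tg : ℝ}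
  {P : ∀ n, FP (Ω n)} {Θ : ∀ n, Ω n → T n} {Y : ∀ n, Ω n → A n} {x x' g p : ∀ n, Ω n → ι → ℝ}
  {ζ r a : ∀ n, Ω n → ℝ} {d : ∀ n, Ω n → D n} {w : ∀ n, Ω n → W n} {O : ∀ n, Ω n → A' n}
  {R : ℕ → ℕ} {L : ℕ → ℝ}

/-- The hypotheses. -/
structure Dat (t : ι → ℝ) (ε₀ tp tg : ℝ) (P : ∀ n, FP (Ω n)) (Θ : ∀ n, Ω n → T n)
    (Y : ∀ n, Ω n → A n) (x x' g p : ∀ n, Ω n → ι → ℝ) (ζ r : ∀ n, Ω n → ℝ) (d : ∀ n, Ω n → D n)
    (w : ∀ n, Ω n → W n) (R : ℕ → ℕ) (L : ℕ → ℝ) : Prop where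
  big : Big R
  sub : Sub R L
  ng : NGG P Y x t R ε₀
  i0 : Sm R fun n => mi (P n) (Y n) (fun ω => flv (R n) (x n ω)) (Θ n)
  law : ∀ᶠ n in UF, Law (P n) (fun ω => (Θ n ω, x' n ω)) (P n) fun ω => (Θ n ω, x n ω)
  al : ∀ᶠ n in UF, Al (P n) (Θ n) (x n) (x' n) (g n) (p n) (ζ n) (r n) (d n) (w n) (R n) (L n)
    tp tg t
  i1 : Sm R fun n => mi (P n) (fun ω => flv (R n) (x n ω)) (fun ω => (d n ω, w n ω)) (Θ n)
  i2 : Sm R fun n => mi (P n) (d n) (w n) (Θ n)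
  fr : Le R (fun n => R n * lg) (fun n => ch (P n) (fun ω => fl1 (R n) (r n ω)) (Θ n)) ∨
    ∀ᶠ n in UF, ∀ ω ∈ (P n).S, g n ω = 0

/-- The conclusion of the noise step with the constant `c`. -/
def Out (t : ι → ℝ) (ε₀ c : ℝ) : Prop := ∀ {Ω T A D W : ℕ → Type} {tp tg : ℝ} {P : ∀ n, FP (Ω n)}
  {Θ : ∀ n, Ω n → T n} {Y : ∀ n, Ω n → A n} {x x' g p : ∀ n, Ω n → ι → ℝ} {ζ r : ∀ n, Ω n → ℝ}
  {d : ∀ n, Ω n → D n} {w : ∀ n, Ω n → W n} {R : ℕ → ℕ} {L : ℕ → ℝ},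
  Dat t ε₀ tp tg P Θ Y x x' g p ζ r d w R L →
  Le R (fun n => R n * lg) (fun n => ch (P n) (fun ω => fl1 (R n) (ζ n ω)) (Θ n)) →
  Whp P fun n ω => ‖x n ω - x' n ω‖ ≤ Real.exp (-(c * R n))

theorem out (h1 : ∀ k, 0 < t k ∧ t k ≤ 1) (h2 : 0 < ε₀) (h3 : ε₀ ≤ 1) :
    ∃ c : ℝ, 0 < c ∧ Out t ε₀ c := (ncu ι t ε₀ h1 h2 h3).imp fun _ H => ⟨H.1, fun h f =>
  H.2 _ _ _ _ _ _ _ _ _ _ _ _ _ _ _ h.big h.sub h.ng h.i0
    ((h.law.and h.al).mono fun _ u => ⟨u.1, u.2⟩) h.i1 h.i2 (Or.inl f) h.fr⟩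

theorem Dat.ie (h : Dat t ε₀ tp tg P Θ Y x x' g p ζ r d w R L) :
    Sm R fun n => ie (P n) (R n) (Θ n) (w n) (x n) (d n) :=
  (h.i1.add h.i2).mono (Eventually.of_forall fun _ => ie_le)

/-- The hypotheses pass to slowly growing chains. -/
theorem Dat.chn (h : Dat t ε₀ tp tg P Θ Y x x' g p ζ r d w R L) {q : ℕ → ℕ} {V : ℕ → Type}
    {Q : ∀ n, FP (V n)} {ρ : ∀ n, V n → Fin (q n + 1) → Ω n}
    (e : ∀ᶠ n in UF, Chn (P n) (ky (R n) (Θ n) (w n) (x n)) (ky (R n) (Θ n) (w n) (x' n))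
      (Q n) (ρ n)) (h1 : Sub R fun n => q n + 1)
    (h2 : Sm R fun n => (q n + 1) * NCHa.ie (P n) (R n) (Θ n) (w n) (x n) (d n)) :
    Dat t ε₀ tp tg Q (fun n v => Θ n (ρ n v 0)) (fun n v => Y n (ρ n v 0))
      (fun n v => x n (ρ n v 0)) (fun n v => x' n (ρ n v (Fin.last _)))
      (fun n v => ∑ k, g n (ρ n v k)) (fun n v => p n (ρ n v 0)) (fun n v => ∑ k, ζ n (ρ n v k))
      (fun n v => r n (ρ n v 0)) (fun n v k => d n (ρ n v k)) (fun n v => w n (ρ n v 0)) R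
      fun n => 2 * (q n + 1) * L n where
  big := h.big
  sub := (h1.const_mul h.big one_le_two).mul h.sub
  ng := TBKerA.ngg_pb (fun n v => ρ n v 0) (dnS_law (e.mono fun _ u => u.law 0)) h.ng
  i0 := h.i0.mono (e.mono fun n u =>
    ((u.law 0).mi_id (Y n) (fun ω => flv (R n) (x n ω)) (Θ n)).le)
  law := (e.and h.law).mono fun n u =>
    ((((u.1.law (Fin.last _)).comp fun ω => (Θ n ω, x' n ω)).ext fun v hv => by
      rw [cΘ u.1 hv (Fin.last _)]).trans u.2).trans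
      ((u.1.law 0).comp fun ω => (Θ n ω, x n ω)).symm
  al := (e.and h.al).mono fun n u => al_chn u.1 u.2 (h.sub.1 n)
  i1 := (h.i1.add h2).mono (e.mono fun n u => (mi_chn u (d n)).2)
  i2 := h2.mono (e.mono fun n u => (mi_chn u (d n)).1)
  fr := h.fr.imp (fun f => f.trans (Le.of_ev (e.mono fun n u =>
      ((u.law 0).ch_id (fun ω => fl1 (R n) (r n ω)) (Θ n)).ge))) fun f => by
    filter_upwards [e, f] with n u u' v hv
    exact Finset.sum_eq_zero fun k _ => u' _ ((u.law k).mem hv)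

omit [Fintype ι] in
/-- The sum along a long chain is almost full. -/
theorem full (ht : HTS P a O R)
    (l : ∀ᶠ n in UF, Law (P n) (ky (R n) (Θ n) (w n) (x' n)) (P n) (ky (R n) (Θ n) (w n) (x n)))
    (i3 : Sm R fun n => ie (P n) (R n) (Θ n) (w n) (x n) fun ω => ((ζ n ω - a n ω, O n ω), a n ω))
    (i4 : Sm R fun n => mi (P n) (a n) (fun ω => (ζ n ω - a n ω, Θ n ω)) (O n)) {η : ℝ}
    (hη : 0 < η) : ∀ᶠ q : ℕ in atTop, Le R (fun n => (1 - η) * R n * lg) fun n =>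
      ch (cP (P n) (ky (R n) (Θ n) (w n) (x n)) (ky (R n) (Θ n) (w n) (x' n)) q)
        (fun v => fl1 (R n) (∑ k, ζ n (co q v k))) fun v => Θ n (co q v 0) := by
  refine ((tendsto_add_atTop_nat 1).eventually (ht η hη)).mono fun q H => ?_
  refine (H (fun n => CW (Ω n) q) _
    (fun n => cP (P n) (ky (R n) (Θ n) (w n) (x n)) (ky (R n) (Θ n) (w n) (x' n)) q)
    (fun n => co q) (fun n v => (fun k => (ζ n (co q v k) - a n (co q v k), O n (co q v k)),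
      Θ n (co q v 0))) (fun n v => ∑ k, (ζ n (co q v k) - a n (co q v k)))
    (l.mono fun n u => ⟨(chn u q).law, fun _ _ _ _ e => ?_⟩)
    (((i3.add i4).smul (c := q + 1) (by positivity)).of_sub (l.mono fun n u => by
      linarith [ht_chn (ζ := ζ n) (a := a n) (O := O n) (chn u q)]))).trans
    (Le.of_le fun n => ch_le (fun u _ v _ e => ?_) fun _ _ _ _ e => congrArg Prod.snd e)
  · have e' := congrFun (congrArg Prod.fst e)
    simp only [Prod.mk.injEq] at e' ⊢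
    exact ⟨Finset.sum_congr rfl fun k _ => (e' k).1, funext fun k => (e' k).2⟩
  · simpa only [← Finset.sum_add_distrib, add_sub_cancel] using congrArg Prod.fst e

theorem core (H : Out t ε₀ c) (hc : 0 < c) (h : Dat t ε₀ tp tg P Θ Y x x' g p ζ r d w R L)
    (ht : HTS P a O R)
    (l : ∀ᶠ n in UF, Law (P n) (ky (R n) (Θ n) (w n) (x' n)) (P n) (ky (R n) (Θ n) (w n) (x n)))
    (i3 : Sm R fun n => ie (P n) (R n) (Θ n) (w n) (x n) fun ω => ((ζ n ω - a n ω, O n ω), a n ω))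
    (i4 : Sm R fun n => mi (P n) (a n) (fun ω => (ζ n ω - a n ω, Θ n ω)) (O n)) :
    Whp P fun n ω => ‖x n ω - x' n ω‖ ≤ Real.exp (-(min c lg / 4 * R n)) := by
  let Q := fun n q => cP (P n) (ky (R n) (Θ n) (w n) (x n)) (ky (R n) (Θ n) (w n) (x' n)) q
  let ok : ℝ → ℕ → ℕ → Prop := fun η q n => (1 - η) * R n * lg ≤ ch (Q n q)
      (fun v => fl1 (R n) (∑ k, ζ n (co q v k))) (fun v => Θ n (co q v 0)) + η * R n ∧
    (q + 1 : ℝ) ≤ Real.exp (η * R n) ∧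
    (q + 1) * ie (P n) (R n) (Θ n) (w n) (x n) (d n) ≤ 0 + η * R n
  have k1 : ∀ η, 0 < η → ∃ q, ∀ᶠ n in UF, ok η q n ∧ ok η (q + 1) n := fun η hη => by
    obtain ⟨q, hq⟩ := eventually_atTop.1 (full ht l i3 i4 hη)
    have k : ∀ j, q ≤ j → ∀ᶠ n in UF, ok η j n := fun j hj => (hq j hj η hη).and
      (((h.big.sub (C := j + 1) (by linarith [Nat.cast_nonneg (α := ℝ) j])).2 η hη).and
        (h.ie.smul (c := j + 1) (by positivity) η hη))
    exact ⟨q, (k q le_rfl).and (k _ q.le_succ)⟩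
  choose q hq using fun i : ℕ => k1 (1 / (i + 1)) (by positivity)
  obtain ⟨i, hi, e⟩ := ks.spill _ hq
  have k2 : ∀ m : ℕ → ℕ, (∀ᶠ n in UF, ok (1 / (i n + 1)) (m n) n) → Whp (fun n => Q n (m n))
      fun n v => ‖x n (co (m n) v 0) - x' n (co (m n) v (Fin.last _))‖ ≤
        Real.exp (-(c * R n)) := fun m u => by
    refine H (h.chn (q := m) (ρ := fun n => co (m n)) (l.mono fun n z => chn z (m n))
      ⟨fun n => by linarith [Nat.cast_nonneg (α := ℝ) (m n)], fun ε hε => ?_⟩ fun ε hε => ?_)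
      fun ε hε => ?_
    · filter_upwards [u, small hε hi] with n u1 u2
      exact u1.2.1.trans (Real.exp_le_exp.2 (mul_le_mul_of_nonneg_right u2 (Nat.cast_nonneg _)))
    · filter_upwards [u, small hε hi] with n u1 u2
      exact u1.2.2.trans (add_le_add le_rfl (mul_le_mul_of_nonneg_right u2 (Nat.cast_nonneg _)))
    · filter_upwards [u, small (half_pos hε) hi] with n u1 u2
      have r0 := Nat.cast_nonneg (α := ℝ) (R n)
      have r1 := mul_le_mul_of_nonneg_right u2 r0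
      have r2 := mul_le_mul_of_nonneg_left lg_lt_one.le
        (by positivity : (0 : ℝ) ≤ 1 / (i n + 1) * R n)
      linarith [u1.1]
  have k3 := k2 (fun n => q (i n)) (e.mono fun n u => (u _ le_rfl).1)
  have k4 := k2 (fun n => q (i n) + 1) (e.mono fun n u => (u _ le_rfl).2)
  have m0 : 0 < min c lg := lt_min hc lg_pos
  intro ε hε
  filter_upwards [k3 _ (half_pos hε), k4 _ (half_pos hε), l,
    TBKerA.fin_exp h.big (h.big.sub le_rfl) hc,
    (h.big.sub one_le_two).2 (min c lg / 4) (by positivity)] with n u1 u2 u3 u4 u5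
  have c1 := chn u3 (q (i n) + 1)
  refine ((c1.law 0).pb_eq fun ω => ¬‖x n ω - x' n ω‖ ≤
    Real.exp (-(min c lg / 4 * R n))).symm.trans_le ?_
  replace u1 := ((cP_snd u3 (q (i n))).pb_eq fun v => ¬‖x n (co (q (i n)) v 0) -
    x' n (co (q (i n)) v (Fin.last _))‖ ≤ Real.exp (-(c * R n))).trans_le u1
  refine le_trans (pb_mono fun v hv z => ?_) ((pb_or _ _ _).trans
    ((add_le_add u1 u2).trans_eq (add_halves ε)))
  by_contra y
  obtain ⟨y1, y2⟩ := not_or.1 y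
  have y3 := lnk c1 hv 0
  have y4 : co (q (i n) + 1) v (Fin.last _) = co (q (i n)) v.2 (Fin.last _) := by
    rw [← Fin.succ_last]; rfl
  rw [not_not] at y1 y2
  rw [y4] at y2
  have y5 : x n (co _ v 0) - x' n (co _ v 0) =
      (x n (co _ v 0) - x' n (co (q (i n)) v.2 (Fin.last _))) -
      (x n (co (q (i n)) v.2 0) - x' n (co (q (i n)) v.2 (Fin.last _))) +
      (x n (co (q (i n)) v.2 0) - x' n (co _ v 0)) := by abel
  have y6 : Real.exp (-(min c lg / 4 * R n)) =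
      Real.exp (min c lg / 4 * R n) * Real.exp (-(min c lg / 2 * R n)) := by
    rw [← Real.exp_add]; congr 1; ring
  refine z ?_
  rw [y5, y6]
  refine (norm_add_le _ _).trans ((add_le_add ((norm_sub_le _ _).trans (add_le_add y2 y1))
    y3).trans (le_trans ?_ (mul_le_mul_of_nonneg_right u5 (Real.exp_pos _).le)))
  have : (0 : ℝ) ≤ 1 / 2 ^ R n := by positivity
  linarith

end Seq

end NCHa

open NCHa in
theorem nch : NCH := by
  intro ι _ t ε₀ h1 h2 h3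
  obtain ⟨c, hc, H⟩ := out h1 h2 h3
  refine ⟨min c lg / 4, div_pos (lt_min hc lg_pos) four_pos, ?_⟩
  intro Ω T A A' D W P Θ Y x x' g p ζ r a d w O R L tp tg hR hL ng i0 e i1 i2 ht i4 fr
  let G := fun n => glue (P n) (P n) (fun ω => (d n ω, Θ n ω)) fun ω => (d n ω, Θ n ω)
  have l1 : ∀ n, Law (G n) Prod.fst (P n) id := fun n => kg.fst _ _ _ _
  have l2 : ∀ n, Law (G n) Prod.snd (P n) id := fun n => kg.snd _ _ _ _ (Law.rfl _)
  have m : ∀ᶠ n in UF, ∀ v ∈ (G n).S, ζ n v.1 = ζ n v.2 ∧ Θ n v.1 = Θ n v.2 :=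
    e.mono fun n u v hv => by
      obtain ⟨z1, z2, z3⟩ := (kg.mem _ _ _ _ v (Law.rfl _)).1 hv
      exact ⟨congrArg Prod.fst (u.2.1 _ z1 _ z2 z3.symm), (congrArg Prod.snd z3).symm⟩
  have l : ∀ᶠ n in UF, Law (G n) (fun v => (Θ n v.1, w n v.1, x' n v.1)) (G n)
      fun v => (Θ n v.1, w n v.1, x n v.1) := e.mono fun n u =>
    (((l1 n).comp fun ω => (Θ n ω, w n ω, x' n ω)).trans u.1).trans
      ((l1 n).comp fun ω => (Θ n ω, w n ω, x n ω)).symm
  have h : Dat t ε₀ tp tg G (fun n v => Θ n v.1) (fun n v => Y n v.1) (fun n v => x n v.1)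
      (fun n v => x' n v.1) (fun n v => g n v.1) (fun n v => p n v.1) (fun n v => ζ n v.1)
      (fun n v => r n v.1) (fun n v => d n v.1) (fun n v => w n v.1) R L :=
    ⟨hR, hL, TBKerA.ngg_pb (fun _ => Prod.fst) (dnS_law (Eventually.of_forall l1)) ng,
      i0.mono (Eventually.of_forall fun n =>
        ((l1 n).mi_id (Y n) (fun ω => flv (R n) (x n ω)) (Θ n)).le),
      l.mono fun n u => u.comp fun z => (z.1, z.2.2),
      e.mono fun n u => ⟨(l1 n).fn u.2.1, (l1 n).fn u.2.2.1, fun v hv =>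
        u.2.2.2.2 _ ((l1 n).mem hv)⟩,
      i1.mono (Eventually.of_forall fun n => ((l1 n).mi_id (fun ω => flv (R n) (x n ω))
        (fun ω => (d n ω, w n ω)) (Θ n)).le),
      i2.mono (Eventually.of_forall fun n => ((l1 n).mi_id (d n) (w n) (Θ n)).le),
      fr.imp (fun f => f.trans (Le.of_le fun n =>
        ((l1 n).ch_id (fun ω => fl1 (R n) (r n ω)) (Θ n)).ge))
        fun f => f.mono fun n u v hv => u _ ((l1 n).mem hv)⟩
  have l' : ∀ᶠ n in UF, Law (G n)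
      (ky (R n) (fun v => Θ n v.1) (fun v => w n v.1) fun v => x' n v.1) (G n)
      (ky (R n) (fun v => Θ n v.1) (fun v => w n v.1) fun v => x n v.1) :=
    l.mono fun n u => u.comp fun z => (z.1, z.2.1, flv (R n) z.2.2)
  have i3 : Sm R fun n => ie (G n) (R n) (fun v => Θ n v.1) (fun v => w n v.1) (fun v => x n v.1)
      fun v => ((ζ n v.1 - a n v.2, O n v.2), a n v.2) :=
    (i1.add i2).mono (m.mono fun n u => (ie_glue (d := d n) fun y hy z hz e => by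
      rw [(u y hy).1, (u z hz).1, show y.2 = z.2 from e]).trans ie_le)
  have i5 : Sm R fun n => mi (G n) (fun v => a n v.2) (fun v => (ζ n v.1 - a n v.2, Θ n v.1))
      fun v => O n v.2 := i4.mono (m.mono fun n u => by
    rw [← (l2 n).mi_id (a n) (fun ω => (ζ n ω - a n ω, Θ n ω)) (O n)]
    exact mi_mono fun y hy z hz e => by
      simp only [Prod.mk.injEq, (u y hy).1, (u y hy).2, (u z hz).1, (u z hz).2] at e ⊢
      exact e.1)
  have k := core H hc h (ht.pull (Eventually.of_forall l2)) l' i3 i5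
  exact fun ε hε => (k ε hε).mono fun n u => ((l1 n).pb_eq fun ω =>
    ¬‖x n ω - x' n ω‖ ≤ Real.exp (-(min c lg / 4 * R n))).symm.trans_le u

end Pool.Agent.MP_5168f5_an.AN.TB
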