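import Pool.Agent.MP_5168f5_an.AN.NCHDef
import Pool.Agent.MP_5168f5_an.R4.Defs

/-! Kakeya sets in all dimensions: stationary chains of copies. -/

namespace Pool.Agent.MP_5168f5_an.AN.TB.NCHa

open H19 H17S H17F Filter R4

variable {Ω β D K W : Type} {P : FP Ω} {φ φ' : Ω → β} {q : ℕ}

theorem ch_pi {J : Type} [Fintype J] (f : J → Ω → D) (G : Ω → K) :
    ch P (fun ω j => f j ω) G ≤ ∑ j, ch P (f j) G := by
  classical
  have := ch_pi_le (P := P) Finset.univ (fun j ω => some (f j ω)) none G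
  simp only [Finset.mem_univ, if_true] at this
  refine le_trans (ch_mono fun a _ b _ e => funext fun j => ?_) (this.trans (Finset.sum_le_sum
    fun j _ => ch_mono fun a _ b _ e => congrArg some (congrArg Prod.fst e)))
  exact Option.some.inj (congrFun (congrArg Prod.fst e) j)

/-- A chain of `q + 1` copies; the next copy only knows `φ'` of the previous one. -/
structure Chn (P : FP Ω) (φ φ' : Ω → β) (Q : FP W) (ρ : W → Fin (q + 1) → Ω) : Prop where
  law : ∀ k, Law Q (fun v => ρ v k) P id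
  lnk : ∀ v ∈ Q.S, ∀ k : Fin q, φ (ρ v k.succ) = φ' (ρ v k.castSucc)
  ent : ∀ {D : Type} (d : Ω → D),
    (q + 1) * ch P d φ ≤ ch Q (fun v k => d (ρ v k)) fun v => φ (ρ v 0)

theorem chn_zero : Chn (q := 0) P φ φ' P fun v _ => v :=
  ⟨fun _ => Law.rfl _, fun _ _ k => k.elim0, fun d => by
    simpa using ch_mono (P := P) (F := d) (F' := fun v (_ : Fin 1) => d v) (G := φ)
      fun _ _ _ _ e => congrFun (congrArg Prod.fst e) 0⟩

theorem Chn.glue {Q : FP W} {ρ : W → Fin (q + 1) → Ω} (h : Chn P φ φ' Q ρ) (e : Law P φ' P φ) :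
    Law P φ' Q fun v => φ (ρ v 0) := e.trans ((h.law 0).comp φ).symm

theorem chn_succ {Q : FP W} {ρ : W → Fin (q + 1) → Ω} (h : Chn P φ φ' Q ρ) (e : Law P φ' P φ) :
    Chn P φ φ' (glue P Q φ' fun v => φ (ρ v 0)) fun y => Fin.cons y.1 (ρ y.2) := by
  have l := h.glue e
  have l1 := kg.fst P Q φ' fun v => φ (ρ v 0)
  have l2 := kg.snd P Q φ' _ l
  refine ⟨fun k => ?_, fun y hy k => ?_, fun d => ?_⟩
  · refine Fin.cases l1 (fun k => ?_) k
    exact (l2.comp fun v => ρ v k).trans (h.law k)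
  · obtain ⟨-, a, b⟩ := (kg.mem _ _ _ _ y l).1 hy
    refine Fin.cases b (fun k => ?_) k
    rw [← Fin.succ_castSucc]
    exact h.lnk _ a k
  · have h1 := ch_chain (P := glue P Q φ' fun v => φ (ρ v 0)) (fun y => d y.1)
      (fun y k => d (ρ y.2 k)) fun y => φ y.1
    have h2 := kg.mk1 P Q φ' _ (fun v k => d (ρ v k)) id l (Fn.comp φ' id)
    have h3 := ch_anti (P := glue P Q φ' fun v => φ (ρ v 0)) (F := fun y k => d (ρ y.2 k))
      (G := fun y => (d y.1, φ y.1)) (G' := fun y => id y.1)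
      fun _ _ _ _ e => congrArg (fun a => (d a, φ a)) e
    have h4 := l1.ch_id d φ
    have h5 := h.ent d
    refine le_trans ?_ (ch_mono (F := fun y : Ω × W => (d y.1, fun k => d (ρ y.2 k)))
      fun a _ b _ e => ?_)
    · push_cast
      exact le_of_le_of_eq (by linarith) h1.symm
    · have e' := congrFun (congrArg Prod.fst e)
      exact Prod.ext (e' 0) (funext fun k => e' k.succ)

/-- The space of chains. -/
def CW (Ω : Type) : ℕ → Type
  | 0 => Ω
  | q + 1 => Ω × CW Ω q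

/-- The links. -/
def co : ∀ q, CW Ω q → Fin (q + 1) → Ω
  | 0 => fun v _ => v
  | q + 1 => fun y => Fin.cons y.1 (co q y.2)

/-- The law of the chain. -/
noncomputable def cP (P : FP Ω) (φ φ' : Ω → β) : ∀ q, FP (CW Ω q)
  | 0 => P
  | q + 1 => glue P (cP P φ φ' q) φ' fun v => φ (co q v 0)

theorem chn (e : Law P φ' P φ) : ∀ q, Chn P φ φ' (cP P φ φ' q) (co q)
  | 0 => chn_zero
  | q + 1 => chn_succ (chn e q) e

theorem cP_snd (e : Law P φ' P φ) (q : ℕ) :
    Law (cP P φ φ' (q + 1)) (fun y : Ω × CW Ω q => y.2) (cP P φ φ' q) id :=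
  kg.snd P _ φ' _ ((chn e q).glue e)

namespace Chn

variable {Q : FP W} {ρ : W → Fin (q + 1) → Ω}

/-- A common function of `φ` and `φ'` is constant along the chain. -/
theorem const (h : Chn P φ φ' Q ρ) {θ : β → K} (e : ∀ ω, θ (φ' ω) = θ (φ ω)) {v : W}
    (hv : v ∈ Q.S) (k : Fin (q + 1)) : θ (φ (ρ v k)) = θ (φ (ρ v 0)) := by
  induction k using Fin.induction with
  | zero => rfl
  | succ k ih => rw [h.lnk v hv k, e, ih]

theorem sub (h : Chn P φ φ' Q ρ) {θ : β → K} (e : ∀ ω, θ (φ' ω) = θ (φ ω)) (d : Ω → D) :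
    ch Q (fun v k => d (ρ v k)) (fun v => θ (φ (ρ v 0))) ≤ (q + 1) * ch P d fun ω => θ (φ ω) := by
  refine (ch_pi (fun k v => d (ρ v k)) _).trans (le_of_eq ?_)
  rw [Finset.sum_congr rfl fun k _ => (ch_ext (fun _ _ => rfl) fun v hv =>
    (h.const e hv k).symm).trans ((h.law k).ch_id d fun ω => θ (φ ω))]
  simp

theorem tel {E : Type} [AddCommGroup E] (u u' : Fin (q + 1) → E) :
    u 0 - u' (Fin.last q) = ∑ k, (u k - u' k) - ∑ k : Fin q, (u k.succ - u' k.castSucc) := by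
  rw [Finset.sum_sub_distrib, Finset.sum_sub_distrib, Fin.sum_univ_succ u, Fin.sum_univ_castSucc u']
  abel

end Chn

end Pool.Agent.MP_5168f5_an.AN.TB.NCHa
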