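import Pool.Agent.MP_5168f5_an.AN.TBSpec

/-! Kakeya sets in all dimensions: the noise step when only sums of copies are full, statement. -/

namespace Pool.Agent.MP_5168f5_an.AN.TB

open H19 H17S H17F Filter R4.K31

/-- Sums of many almost independent copies of `a` given `O` are almost full. -/
def HTS {Ω A : ℕ → Type} (P : ∀ n, FP (Ω n)) (a : ∀ n, Ω n → ℝ) (O : ∀ n, Ω n → A n)
    (R : ℕ → ℕ) : Prop := ∀ η : ℝ, 0 < η → ∀ᶠ q : ℕ in atTop,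
  ∀ (W Z : ℕ → Type) (Q : ∀ n, FP (W n)) (ρ : ∀ n, W n → Fin q → Ω n) (z : ∀ n, W n → Z n)
    (c : ∀ n, W n → ℝ),
    (∀ᶠ n in UF, (∀ k, Law (Q n) (fun v => ρ n v k) (P n) id) ∧
      Fn (Q n) (fun v => (c n v, fun k => O n (ρ n v k))) (z n)) →
    Le R (fun n => q * ch (P n) (a n) (O n))
      (fun n => ch (Q n) (fun v k => a n (ρ n v k)) (z n)) →
    Le R (fun n => (1 - η) * R n * lg)
      fun n => ch (Q n) (fun v => fl1 (R n) (∑ k, a n (ρ n v k) + c n v)) (z n)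

/-- The noise step when the first scalar is `a` plus a variable without information on `a`. -/
def NCH : Prop := ∀ (ι : Type) [Fintype ι] (t : ι → ℝ) (ε₀ : ℝ), (∀ k, 0 < t k ∧ t k ≤ 1) →
  0 < ε₀ → ε₀ ≤ 1 → ∃ c : ℝ, 0 < c ∧
  ∀ {Ω T A A' D W : ℕ → Type} (P : ∀ n, FP (Ω n)) (Θ : ∀ n, Ω n → T n) (Pi : ∀ n, Ω n → A n)
    (x x' g p : ∀ n, Ω n → ι → ℝ) (ζ r a : ∀ n, Ω n → ℝ) (d : ∀ n, Ω n → D n)
    (w : ∀ n, Ω n → W n) (O : ∀ n, Ω n → A' n) (R : ℕ → ℕ) (L : ℕ → ℝ) (tp tg : ℝ), Big R →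
    Sub R L → NGG P Pi x t R ε₀ →
    Sm R (fun n => mi (P n) (Pi n) (fun ω => flv (R n) (x n ω)) (Θ n)) →
    (∀ᶠ n in UF, Law (P n) (fun ω => (Θ n ω, w n ω, x' n ω)) (P n)
        (fun ω => (Θ n ω, w n ω, x n ω)) ∧
      Fn (P n) (fun ω => (ζ n ω, g n ω)) (fun ω => (d n ω, Θ n ω)) ∧
      Fn (P n) (fun ω => (r n ω, p n ω)) (fun ω => (w n ω, Θ n ω)) ∧
      Fn (P n) (a n) (fun ω => (d n ω, Θ n ω)) ∧
      ∀ ω ∈ (P n).S, |ζ n ω| ≤ L n ∧ |r n ω| ≤ L n ∧ ‖g n ω‖ ≤ L n ∧ ‖p n ω‖ ≤ L n ∧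
        ‖x n ω‖ ≤ L n ∧ (∀ k, t k ≠ tp → p n ω k = 0) ∧ (∀ k, t k ≠ tg → g n ω k = 0) ∧
        ‖x n ω - x' n ω - (ζ n ω • p n ω + r n ω • g n ω)‖ ≤ L n / 2 ^ R n) →
    Sm R (fun n => mi (P n) (fun ω => flv (R n) (x n ω)) (fun ω => (d n ω, w n ω)) (Θ n)) →
    Sm R (fun n => mi (P n) (d n) (w n) (Θ n)) →
    HTS P a O R → Sm R (fun n => mi (P n) (a n) (fun ω => (ζ n ω - a n ω, Θ n ω)) (O n)) →
    (Le R (fun n => R n * lg) (fun n => ch (P n) (fun ω => fl1 (R n) (r n ω)) (Θ n)) ∨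
      ∀ᶠ n in UF, ∀ ω ∈ (P n).S, g n ω = 0) →
    Whp P fun n ω => ‖x n ω - x' n ω‖ ≤ Real.exp (-(c * R n))

end Pool.Agent.MP_5168f5_an.AN.TB
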