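import Pool.Agent.MP_5168f5_an.AN.TBSpec
import Pool.Agent.MP_5168f5_an.R4.NCt
import Pool.Agent.MP_5168f5_an.R4.Api

/-! The noise step for a graded vector: restriction to at most two weights. -/

namespace Pool.Agent.MP_5168f5_an.AN.TB.NCUa

open H19 H17S H17F Filter R4 R4.K31 R4.NCx

variable {ι : Type} {N : ℕ}

open Classical in
/-- The coordinates in `B`. -/
noncomputable def ct (e : ι ≃ Fin N) (B : ι → Prop) (y : ι → ℝ) : V N := fun j =>
  if B (e.symm j) then y (e.symm j) else 0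

open Classical in
/-- The digits of the other coordinates. -/
noncomputable def ot (B : ι → Prop) (R : ℕ) (y : ι → ℝ) : ι → ℤ := fun k =>
  if B k then 0 else fl1 R (y k)

theorem ct_pos (e : ι ≃ Fin N) {B : ι → Prop} (y : ι → ℝ) {k : ι} (h : B k) :
    ct e B y (e k) = y k := by simp [ct, h]

theorem abs_ct (e : ι ≃ Fin N) (B : ι → Prop) {y z : ι → ℝ} {a : ℝ} (ha : 0 ≤ a)
    (h : ∀ k, |y k - z k| ≤ a) (j : Fin N) : |ct e B y j - ct e B z j| ≤ a := by
  unfold ct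
  split_ifs
  · exact h _
  · simpa using ha

theorem ch_flq [Fintype ι] {Ω β : Type} {P : FP Ω} {x : Ω → ι → ℝ} {G : Ω → β} {r : ι → ℕ} {L : ℝ}
    (hL : 0 ≤ L) (h : ∀ a ∈ P.S, ∀ b ∈ P.S, G a = G b → ∀ j, |x a j - x b j| ≤ L / 2 ^ r j) :
    ch P (fun ω j => fl1 (r j) (x ω j)) G ≤ Fintype.card ι * Real.log (2 * L + 3) := by
  have := ch_near (P := P) (x := fun ω j => 2 ^ r j * x ω j) (G := G) (j := 0) hL
    fun a ha b hb e => (pi_norm_le_iff_of_nonneg (by positivity)).2 fun j => by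
      rw [Pi.sub_apply, ← mul_sub, Real.norm_eq_abs, abs_mul, abs_of_pos (by positivity), pow_zero,
        div_one, mul_comm]
      exact (le_div_iff₀ (by positivity)).1 (h a ha b hb e j)
  refine le_of_eq_of_le (ch_ext (fun ω _ => funext fun j => ?_) fun _ _ => rfl) this
  simp only [flv, fl1, pow_zero, one_mul]

theorem two_near {j k k' : ℕ} (h : j ≤ k) (h' : j ≤ k') {u v s : ℝ} (h1 : |u| ≤ (2 ^ k)⁻¹)
    (h2 : |v| ≤ (2 ^ k')⁻¹) (h3 : |s| ≤ 1) : |u + v * s| ≤ 2 / 2 ^ j := by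
  have a1 := h1.trans (inv_anti₀ (by positivity) (pow_le_pow_right₀ one_le_two h))
  have a2 := h2.trans (inv_anti₀ (by positivity) (pow_le_pow_right₀ one_le_two h'))
  have a3 := abs_add_le u (v * s)
  rw [abs_mul] at a3
  rw [div_eq_mul_inv]
  linarith [mul_le_of_le_one_right (abs_nonneg v) h3]

theorem mi_add {Ω α β γ δ : Type} (P : FP Ω) (A : Ω → α) (W : Ω → β) (κ : Ω → γ) (K : Ω → δ) :
    mi P A W (fun v => (κ v, K v)) ≤ mi P A W K + mi P κ (fun v => (A v, W v)) K := by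
  have a2 := mi_chain (P := P) A κ W K
  have a3 := mi_chain (P := P) A W κ K
  have a4 : mi P A (fun v => (κ v, W v)) K ≤ mi P A (fun v => (W v, κ v)) K :=
    mi_mono fun a _ b _ e => by simp only [Prod.mk.injEq] at e ⊢; tauto
  have a5 : mi P A κ (fun v => (W v, K v)) ≤ mi P (fun v => (A v, W v)) κ K :=
    mi_left (Fn.snd _ _) (fun a _ b _ e => by simp only [Prod.mk.injEq] at e ⊢; tauto)
      fun a _ b _ e => by simp only [Prod.mk.injEq] at e ⊢; tauto
  have a6 := mi_nonneg (P := P) A κ K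
  rw [mi_symm fun v => (A v, W v)] at a5
  linarith

variable [Fintype ι] {Ω T A : ℕ → Type} {P : ∀ n, FP (Ω n)} {Θ : ∀ n, Ω n → T n}
  {Y : ∀ n, Ω n → A n} {x : ∀ n, Ω n → ι → ℝ} {R : ℕ → ℕ} {t : ι → ℝ} {ε₀ τ ρ₀ : ℝ}

omit [Fintype ι] in
theorem fn_ot (B : ι → Prop) {Ω : Type} (P : FP Ω) (R : ℕ) (x : Ω → ι → ℝ) :
    Fn P (fun ω => ot B R (x ω)) fun ω => flv R (x ω) := fun a _ b _ e => funext fun k => by
  simp only [ot]
  split_ifs
  · rfl
  · exact congrFun e k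

theorem ngt (e : ι ≃ Fin N) {B : ι → Prop} {S : Finset (Fin N)} (ht : ∀ k, 0 < t k ∧ t k ≤ 1)
    (hτ : 0 < τ) (r1 : ρ₀ ≤ 1) (hτ1 : τ ≤ 1)
    (hB : ∀ k, B k → (e k ∈ S → t k = τ) ∧ (e k ∉ S → t k = ρ₀ * τ)) (h0 : 0 ≤ ε₀) (h1 : ε₀ ≤ 1)
    (hR : Big R) (hN : NGG P Y x t R ε₀)
    (hP : Sm R fun n => mi (P n) (Y n) (fun ω => flv (R n) (x n ω)) (Θ n)) :
    NGT S ρ₀ P (fun n ω => (Θ n ω, ot B (R n) (x n ω))) (fun n ω => ct e B (x n ω)) (lev R τ)
      ε₀ := by
  classical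
  intro Ω' K Q ρ κ β lam i b E hl hb hκ hf hE
  obtain ⟨i, rfl⟩ := e.surjective i
  by_cases hi : B i
  swap
  · refine Le.of_le fun n => (ch_zero fun _ _ _ _ _ => by simp [ct, hi]).trans_le ?_
    have : (β n : ℝ) ≤ dp S ρ₀ (lam n) (e i) := by exact_mod_cast (hb n).1
    exact mul_nonneg (mul_nonneg (by linarith) (by linarith)) lg_pos.le
  have d0 : ∀ n k, B k → t k * (lam n / τ) = if e k ∈ S then (lam n : ℝ) else ρ₀ * lam n :=
    fun n k hk => by
      split_ifs with h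
      · rw [(hB k hk).1 h]; field_simp
      · rw [(hB k hk).2 h]; field_simp
  have d1 : ∀ n k, B k → ⌊t k * (lam n / τ)⌋₊ = dp S ρ₀ (lam n) (e k) := fun n k hk => by
    rw [d0 n k hk, dp]
    split_ifs
    · exact Nat.floor_natCast _
    · rfl
  have d2 : ∀ n, ⌊t i * (β n / t i)⌋₊ = β n := fun n => by
    rw [mul_div_cancel₀ _ (ht i).1.ne', Nat.floor_natCast]
  have d3 : ∀ n, 0 ≤ β n / t i ∧ β n / t i ≤ lam n / τ ∧ lam n / τ ≤ R n := fun n => by
    refine ⟨div_nonneg (Nat.cast_nonneg _) (ht i).1.le, ?_, ?_⟩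
    · rw [div_le_iff₀' (ht i).1]
      refine le_trans ?_ (Nat.floor_le (mul_nonneg (ht i).1.le (by positivity)))
      rw [d1 n i hi]
      exact_mod_cast (hb n).1
    · rw [div_le_iff₀' hτ]
      exact le_trans (by exact_mod_cast (hb n).2) (lev_le' R hτ.le n)
  have d4 : ∀ n k, ⌊t k * (lam n / τ)⌋₊ ≤ R n := fun n k => Nat.floor_le_of_le
    ((mul_le_of_le_one_left (by positivity) (ht k).2).trans (d3 n).2.2)
  have d5 : ∀ n j, dp S ρ₀ (lam n) j ≤ R n := fun n j =>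
    ((dp_le S r1 _ j).trans (hb n).2).trans (lev_le R hτ1 n)
  let b' : ∀ n, Ω' n → ι → ℝ := fun n v k => if B k then b n v (e k) else 0
  have b1 : ∀ᶠ n in UF, ∀ v ∈ (Q n).S, b' n v i = 1 ∧ (∀ k, |b' n v k| ≤ 1) ∧
      ∀ k, t k ≠ t i → b' n v k = 0 := hf.mono fun n hn v hv => by
    refine ⟨(if_pos hi).trans (hn.2.2 v hv).1, fun k => ?_, fun k hk => ?_⟩ <;>
      simp only [b'] <;> split_ifs with h
    · exact (norm_le_pi_norm _ _).trans (hn.2.2 v hv).2.1
    · simp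
    · by_contra h2
      have h3 := (hn.2.2 v hv).2.2 _ h2
      by_cases h4 : e i ∈ S
      · exact hk (((hB k h).1 (h3.2 h4)).trans ((hB i hi).1 h4).symm)
      · exact hk (((hB k h).2 (mt h3.1 h4)).trans ((hB i hi).2 h4).symm)
    · rfl
  have k0 := hN Ω' _ (fun n => cE (Q n) (E n)) ρ (fun n v => (gq (dp S ρ₀ (lam n)) (β n) (e i)
    (b n v) (ct e B (x n (ρ n v))), κ n v, Θ n (ρ n v), ot B (R n) (x n (ρ n v))))
    (fun n => β n / t i) (fun n => lam n / τ) i b'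
    ((dnS_cE hE).trans (dnS_law (Eventually.of_forall hl))) d3 ((hf.and b1).mono fun n hn =>
      ⟨fun a ha c hc h => by
        simp only [b', hn.1.1 a (cE_sub ha) c (cE_sub hc) (Prod.mk.inj h).2], fun v hv =>
        ⟨(hn.2 v (cE_sub hv)).1, (pi_norm_le_iff_of_nonneg zero_le_one).2
          (hn.2 v (cE_sub hv)).2.1, (hn.2 v (cE_sub hv)).2.2⟩⟩)
  have k1 : Sm R fun n => mi (Q n) (fun v => Y n (ρ n v)) (fun v => flv (R n) (x n (ρ n v)))
      fun v => (κ n v, Θ n (ρ n v), ot B (R n) (x n (ρ n v))) :=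
    (hP.add (Le.up hκ (lev_le R hτ1))).mono (Eventually.of_forall fun n => (mi_add _ _ _ _ _).trans
      (add_le_add ((mi_right (Fn.fst _ _) ((Fn.snd _ _).pair ((fn_ot B _ _ _).left _))
        (Fn.fst _ _)).trans_eq ((hl n).mi_id (Y n) (fun ω => flv (R n) (x n ω)) (Θ n)))
        (mi_mono fun a _ c _ h => by simp only [(Prod.mk.inj h).1])))
  refine (Le.of3 k0 (sm_mi_cE hR hE k1) (hR.sm ((N + Fintype.card ι) * Real.log (2 * 2 + 3) + 1))
    ((hf.and b1).mono fun n hn => ?_)).frac (hR.frac_floor hτ hτ1)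
  obtain ⟨⟨f1, -, f2⟩, f3⟩ := hn
  set Q' := cE (Q n) (E n)
  set y : Ω' n → ι → ℝ := fun v => x n (ρ n v) with hy
  set F : Ω' n → ℤ := fun v => fl1 (dp S ρ₀ (lam n) (e i)) (ct e B (y v) (e i)) with hF
  set G : Ω' n → Z N × ℤ := fun v => gq (dp S ρ₀ (lam n)) (β n) (e i) (b n v) (ct e B (y v))
    with hG
  set K' : Ω' n → K n × T n × (ι → ℤ) := fun v => (κ n v, Θ n (ρ n v), ot B (R n) (y v)) with hK
  have fb : Fn Q' (b n) K' := fn_cE f1 _
  have fb' : Fn Q' (b' n) K' := fun a ha c hc h => by simp only [b', fb a ha c hc h]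
  have a1 := ch_le_mi (P := Q') (F := F) (G := fun v => Y n (ρ n v)) (K := fun v => (G v, K' v))
    (Fn.rfl _)
  have a2 : mi Q' F (fun v => Y n (ρ n v)) (fun v => (G v, K' v)) ≤
      mi Q' (fun v => (F v, G v)) (fun v => Y n (ρ n v)) K' :=
    mi_left (Fn.snd _ _) (((Fn.snd _ _).left _).pair (Fn.snd _ _)) ((Fn.fst _ _).left _)
  have a3 := mi_near (P := Q') (fun v => Y n (ρ n v)) (fun v => (F v, G v))
    (fun v => flv (R n) (y v)) K'
  rw [mi_symm (fun v => Y n (ρ n v)) fun v => (F v, G v)] at a3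
  have a4 : ch Q' (fun v => (F v, G v)) (fun v => (flv (R n) (y v), K' v)) ≤
      N * Real.log (2 * 2 + 3) := by
    refine le_trans (ch_mono fun a _ c _ h => ?_) (ch_flr (x := fun v => ct e B (y v) -
      ct e B (y v) (e i) • b n v) (r := dp S ρ₀ (lam n)) zero_le_two fun a ha c hc h j => ?_)
    · have e1 : fl1 (R n) (y a i) = fl1 (R n) (y c i) := congrFun (Prod.mk.inj (Prod.mk.inj h).2).1 i
      simp only [hF, hG, gq, ct_pos e _ hi, Prod.mk.injEq] at h ⊢
      exact ⟨fl1_eq_of_le (d5 n _) e1, h.1, fl1_eq_of_le ((hb n).1.trans (d5 n _)) e1⟩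
    · have e1 := abs_ct e B (by positivity) fun k =>
        (abs_sub_lt_of_fl1_eq (congrFun (Prod.mk.inj h).1 k)).le
      rw [← fb a ha c hc (Prod.mk.inj h).2]
      refine le_of_eq_of_le ?_ (two_near (d5 n j) (d5 n j) (e1 j) ((abs_sub_comm _ _).trans_le
        (e1 (e i))) ((norm_le_pi_norm (b n a) j).trans (f2 a (cE_sub ha)).2.1))
      simp only [Pi.sub_apply, Pi.smul_apply, smul_eq_mul]
      congr 1
      ring
  have f4 : Fn Q' (fun v => flG t (lam n / τ) (y v - y v i • b' n v)) fun v => (G v, K' v) :=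
    fun a _ c _ h => funext fun k => by
      by_cases hk : B k
      · have := congrFun (Prod.mk.inj (Prod.mk.inj h).1).1 (e k)
        simp only [flr, Pi.sub_apply, Pi.smul_apply, ct_pos e _ hk, ct_pos e _ hi] at this
        simpa only [flG, d1 n k hk, Pi.sub_apply, Pi.smul_apply, b', if_pos hk] using this
      · have := congrFun (Prod.mk.inj (Prod.mk.inj (Prod.mk.inj h).2).2).2 k
        simp only [ot, if_neg hk] at this
        simpa only [flG, Pi.sub_apply, Pi.smul_apply, b', if_neg hk, smul_zero, sub_zero] using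
          fl1_eq_of_le (d4 n k) this
  have a5 := ch_drop (P := Q') F (fun v => flG t (β n / t i) (y v))
    fun v => (Y n (ρ n v), G v, K' v)
  have a6 : ch Q' F (fun v => (flG t (β n / t i) (y v), Y n (ρ n v), G v, K' v)) ≤
      ch Q' (fun v => flG t (lam n / τ) (y v)) fun v => (flG t (lam n / τ) (y v - y v i • b' n v),
        flG t (β n / t i) (y v), (G v, K' v), Y n (ρ n v)) :=
    ch_le (fun a _ c _ h => by
      have := congrFun (Prod.mk.inj h).1 i
      simpa only [hF, flG, d1 n i hi, ct_pos e _ hi] using this)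
      (((f4.right _).right _).pair fun a _ c _ h => by
        simp only [Prod.mk.injEq] at h ⊢; tauto)
  have a7 : ch Q' (fun v => flG t (β n / t i) (y v)) (fun v => (Y n (ρ n v), G v, K' v)) ≤
      Fintype.card ι * Real.log (2 * 2 + 3) := ch_flq zero_le_two fun a ha c hc h k => by
    have e0 := (Prod.mk.inj h).2
    have e1 := (abs_sub_lt_of_fl1_eq (congrFun (f4 a ha c hc e0) k)).le
    have e2 := (abs_sub_lt_of_fl1_eq (Prod.mk.inj (Prod.mk.inj e0).1).2).le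
    have e3 : ⌊t k * (β n / t i)⌋₊ ≤ ⌊t k * (lam n / τ)⌋₊ :=
      Nat.floor_mono (mul_le_mul_of_nonneg_left (d3 n).2.1 (ht k).1.le)
    rw [← fb' a ha c hc (Prod.mk.inj e0).2] at e1
    simp only [ct_pos e _ hi] at e2
    have e4 : y a k - y c k = (y a - y a i • b' n a) k - (y c - y c i • b' n a) k +
        (y a i - y c i) * b' n a k := by
      simp only [Pi.sub_apply, Pi.smul_apply, smul_eq_mul]; ring
    rw [e4]
    by_cases hk : t k = t i
    · exact two_near e3 (by rw [hk, d2]) e1 e2 ((f3 a (cE_sub ha)).2.1 k)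
    · rw [(f3 a (cE_sub ha)).2.2 k hk, mul_zero, ← zero_mul 0]
      exact two_near e3 e3 e1 (by simp) (by simp)
  have a8 := Nat.lt_floor_add_one (t i * (lam n / τ))
  rw [d1 n i hi] at a8
  have a9 : (1 - ε₀) * t i * (lam n / τ - β n / t i) * lg ≤
      (1 - ε₀) * (dp S ρ₀ (lam n) (e i) - β n) * lg + 1 := by
    rw [mul_assoc (1 - ε₀), mul_sub (t i), mul_div_cancel₀ _ (ht i).1.ne']
    have := mul_le_mul_of_nonneg_left (show t i * (lam n / τ) - β n ≤
      dp S ρ₀ (lam n) (e i) - β n + 1 by linarith) (mul_nonneg (sub_nonneg.2 h1) lg_pos.le)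
    nlinarith [lg_pos, lg_lt_one]
  have z : ∀ {a b c d u v p q : ℝ}, a ≤ b + q * c + (d + p * c) → u ≤ v + 1 →
      a - v ≤ b - u + (d - 0) + ((p + q) * c + 1 - 0) := fun h h' => by linarith
  exact z (a1.trans (add_le_add (a5.trans (add_le_add a6 a7))
    (a2.trans (a3.trans (add_le_add le_rfl a4))))) a9

theorem ngr {x : ∀ n, Ω n → V N} (h : NGT Finset.univ ρ₀ P Θ x R ε₀) (hR : Big R) :
    NGR P Θ x R ε₀ := by
  intro Ω' K Q ρ κ β lam i b E h1 h2 h3 h4 h5
  have d : ∀ n, dp (Finset.univ : Finset (Fin N)) ρ₀ (lam n) = fun _ => lam n := fun n =>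
    funext fun j => if_pos (Finset.mem_univ _)
  refine Le.of2 (h Ω' K Q ρ κ β lam i b E h1 (by simpa only [d] using h2) h3 (h4.mono fun n hn =>
    ⟨hn.1, hn.2.1, fun v hv => ⟨(hn.2.2 v hv).1, (hn.2.2 v hv).2, fun j _ => by simp⟩⟩) h5)
    (hR.sm (N * 5)) (h4.mono fun n hn => ?_)
  have a1 := ch_cell (cE (Q n) (E n)) (fun v => x n (ρ n v)) (b n) (fun v => (κ n v, Θ n (ρ n v)))
    (fun _ => lam n) (β n) i (fn_cE hn.1 _) fun a ha => ⟨(hn.2.2 a (cE_sub ha)).2, fun _ _ => rfl⟩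
  have a2 : ch (cE (Q n) (E n)) (fun v => fl (lam n) (x n (ρ n v))) (fun v =>
      (fl (lam n) (x n (ρ n v) - x n (ρ n v) i • b n v), fl (β n) (x n (ρ n v)), κ n v,
        Θ n (ρ n v))) ≤ ch (cE (Q n) (E n)) (fun v => fl (lam n) (x n (ρ n v))) fun v =>
      (gq (fun _ => lam n) (β n) i (b n v) (x n (ρ n v)), κ n v, Θ n (ρ n v)) :=
    ch_anti fun a _ c _ e => by
      simp only [gq, Prod.mk.injEq] at e ⊢
      exact ⟨⟨e.1, congrFun e.2.1 i⟩, e.2.2⟩
  change ch _ (fun v => fl (lam n) (x n (ρ n v))) _ ≤ _ at a1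
  simp only [d]
  linarith

end Pool.Agent.MP_5168f5_an.AN.TB.NCUa
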