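import Pool.Agent.MP_5168f5_an.AN.NcRel

/-! Sheets of a polynomial frame: continuous sections over convex sets. -/

namespace Pool.Agent.MP_5168f5_an.AN.Nc

open MvPolynomial Finset H83 Metric Filter Topology Matrix

variable {n : ℕ}

/-- The Jacobian matrix. -/
noncomputable def jm (Φ : Fin n → Pl n) : Matrix (Fin n) (Fin n) (Pl n) :=
  Matrix.of fun i j => pderiv j (Φ i)

/-- The Jacobian determinant. -/
noncomputable def jac (Φ : Fin n → Pl n) : Pl n := (jm Φ).det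

/-- The Jacobian determinant times the derivative along the `i`-th frame coordinate. -/
noncomputable def Dv (Φ : Fin n → Pl n) (i : Fin n) (P : Pl n) : Pl n :=
  ∑ j, (jm Φ).adjugate j i * pderiv j P

/-- The derivative of a polynomial map. -/
noncomputable def dev {k : ℕ} (Φ : Fin k → Pl n) (y : V n) : V n →L[ℝ] V k :=
  ContinuousLinearMap.pi fun i => ∑ j, eval y (pderiv j (Φ i)) • ContinuousLinearMap.proj j

theorem dev_apply {k : ℕ} (Φ : Fin k → Pl n) (y v : V n) (i : Fin k) :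
    dev Φ y v i = ∑ j, eval y (pderiv j (Φ i)) * v j := by simp [dev]

theorem hasFDerivAt_ev {k : ℕ} (Φ : Fin k → Pl n) (y : V n) : HasFDerivAt (ev Φ) (dev Φ y) y :=
  hasFDerivAt_pi.2 fun i => IsPoly.hasFDerivAt_eval (Φ i) y

theorem contDiff_ev {k : ℕ} (Φ : Fin k → Pl n) : ContDiff ℝ ⊤ (ev Φ) :=
  contDiff_pi.2 fun i => IsPoly.contDiff ⟨Φ i, le_rfl, fun _ => rfl⟩

theorem continuous_ev {k : ℕ} (Φ : Fin k → Pl n) : Continuous (ev Φ) := (contDiff_ev Φ).continuous

theorem dev_eq (Φ : Fin n → Pl n) (y v : V n) : dev Φ y v = (jm Φ).map (eval y) *ᵥ v := by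
  funext i
  simp [dev_apply, jm, Matrix.mulVec, dotProduct]

theorem eval_jac (Φ : Fin n → Pl n) (y : V n) : eval y (jac Φ) = ((jm Φ).map (eval y)).det :=
  RingHom.map_det _ _

theorem det_dev (Φ : Fin n → Pl n) (y : V n) : (dev Φ y).det = eval y (jac Φ) := by
  have : (dev Φ y : V n →ₗ[ℝ] V n) = Matrix.toLin' ((jm Φ).map (eval y)) :=
    LinearMap.ext fun v => dev_eq Φ y v
  rw [ContinuousLinearMap.det, this, LinearMap.det_toLin', eval_jac]

/-- The derivative as an equivalence. -/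
noncomputable def deq (Φ : Fin n → Pl n) (y : V n) (h : eval y (jac Φ) ≠ 0) : V n ≃L[ℝ] V n :=
  (dev Φ y).toContinuousLinearEquivOfDetNeZero (by rwa [det_dev])

theorem strict (Φ : Fin n → Pl n) (y : V n) (h : eval y (jac Φ) ≠ 0) :
    HasStrictFDerivAt (ev Φ) (deq Φ y h : V n →L[ℝ] V n) y :=
  (contDiff_ev Φ).contDiffAt.hasStrictFDerivAt' (hasFDerivAt_ev Φ y) (by simp)

theorem solve (Φ : Fin n → Pl n) {y v w : V n} (h : eval y (jac Φ) ≠ 0) (e : dev Φ y w = v)
    (j : Fin n) : w j = ∑ i, eval y ((jm Φ).adjugate j i) / eval y (jac Φ) * v i := by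
  have h1 : ((jm Φ).map (eval y)).adjugate *ᵥ v = eval y (jac Φ) • w := by
    rw [← e, dev_eq, Matrix.mulVec_mulVec, Matrix.adjugate_mul, eval_jac, Matrix.smul_mulVec,
      Matrix.one_mulVec]
  have h2 := congrFun h1 j
  have h3 : ((jm Φ).map (eval y)).adjugate = (jm Φ).adjugate.map (eval y) :=
    (RingHom.map_adjugate (eval y) (jm Φ)).symm
  simp only [h3, Matrix.mulVec, dotProduct, Matrix.map_apply, Pi.smul_apply, smul_eq_mul] at h2
  simp only [div_mul_eq_mul_div, ← sum_div, h2]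
  field_simp

/-- A continuous section of the frame over `B` on which the Jacobian does not vanish. -/
structure Sheet (Φ : Fin n → Pl n) (B : Set (V n)) (σ : V n → V n) : Prop where
  inv : ∀ u ∈ B, ev Φ (σ u) = u
  jac : ∀ u ∈ B, eval (σ u) (jac Φ) ≠ 0
  cont : ContinuousOn σ B

variable {Φ : Fin n → Pl n} {B : Set (V n)} {σ τ : V n → V n}

theorem Sheet.mono (h : Sheet Φ B σ) {B' : Set (V n)} (hs : B' ⊆ B) : Sheet Φ B' σ :=
  ⟨fun u hu => h.inv u (hs hu), fun u hu => h.jac u (hs hu), h.cont.mono hs⟩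

theorem Sheet.hasFDerivAt (h : Sheet Φ B σ) {u : V n} (hu : B ∈ 𝓝 u) :
    HasFDerivAt σ ((deq Φ (σ u) (h.jac u (mem_of_mem_nhds hu))).symm : V n →L[ℝ] V n) u :=
  HasFDerivAt.of_local_left_inverse (h.cont.continuousAt hu) (strict Φ _ _).hasFDerivAt
    (mem_of_superset hu h.inv)

/-- The derivative of a polynomial along a sheet. -/
theorem Sheet.deriv_eval (h : Sheet Φ B σ) {u : V n} (hu : B ∈ 𝓝 u) (P : Pl n) :
    HasFDerivAt (fun u => eval (σ u) P) (∑ i, (eval (σ u) (Dv Φ i P) / eval (σ u) (Nc.jac Φ)) •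
      (ContinuousLinearMap.proj i : V n →L[ℝ] ℝ)) u := by
  refine ((IsPoly.hasFDerivAt_eval P (σ u)).comp u (h.hasFDerivAt hu)).congr_fderiv ?_
  ext1 v
  have hj := h.jac u (mem_of_mem_nhds hu)
  have h1 := solve Φ hj ((deq Φ (σ u) hj).apply_symm_apply v)
  simp only [ContinuousLinearMap.comp_apply, _root_.sum_apply,
    _root_.smul_apply, ContinuousLinearMap.proj_apply, smul_eq_mul,
    ContinuousLinearEquiv.coe_coe, h1, Dv, map_sum, map_mul, sum_div, sum_mul, mul_sum]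
  rw [sum_comm]
  exact sum_congr rfl fun i _ => sum_congr rfl fun j _ => by ring

/-- Two sheets that meet coincide. -/
theorem Sheet.unique (h : Sheet Φ B σ) (h' : Sheet Φ B τ) (hB : IsPreconnected B) {u₀ : V n}
    (hu : u₀ ∈ B) (e : σ u₀ = τ u₀) : ∀ u ∈ B, σ u = τ u := by
  have := isPreconnected_iff_preconnectedSpace.1 hB
  have c1 := continuousOn_iff_continuous_domRestrict.1 h.cont
  have c2 := continuousOn_iff_continuous_domRestrict.1 h'.cont
  have hc : IsClopen {u : B | B.domRestrict σ u = B.domRestrict τ u} := by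
    refine ⟨isClosed_eq c1 c2, isOpen_iff_mem_nhds.2 fun u hu => ?_⟩
    let φ := (strict Φ (σ u) (h.jac u u.2)).toOpenPartialHomeomorph (ev Φ)
    have m : φ.source ∈ 𝓝 (σ u) :=
      φ.open_source.mem_nhds (HasStrictFDerivAt.mem_toOpenPartialHomeomorph_source _)
    have m1 := c1.continuousAt (x := u) m
    have m2 := c2.continuousAt (x := u) (show φ.source ∈ 𝓝 (B.domRestrict τ u) from hu ▸ m)
    filter_upwards [m1, m2] with v a b
    exact φ.injOn a b ((h.inv v v.2).trans (h'.inv v v.2).symm)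
  intro u hu'
  exact (hc.eq_univ ⟨⟨u₀, hu⟩, e⟩).ge (Set.mem_univ (⟨u, hu'⟩ : B))

/-- A function without zeros keeps its sign along a sheet. -/
theorem Sheet.neg (h : Sheet Φ B σ) (hB : IsPreconnected B) {G : Pl n}
    (hG : ∀ u ∈ B, eval (σ u) G ≠ 0) {u₀ : V n} (hu : u₀ ∈ B) (e : eval (σ u₀) G < 0) :
    ∀ u ∈ B, eval (σ u) G < 0 := fun u hu' => by
  by_contra k
  obtain ⟨v, hv, e'⟩ := hB.intermediate_value hu hu'
    ((MvPolynomial.continuous_eval G).comp_continuousOn h.cont) ⟨e.le, not_lt.1 k⟩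
  exact hG v hv e'

/-- Existence of a sheet. -/
theorem exists_sheet (Φ : Fin n → Pl n) (hB : Convex ℝ B) (ho : IsOpen B) {R : ℝ} {y₀ : V n}
    (hy : ‖y₀‖ ≤ R) (hm : ev Φ y₀ ∈ B)
    (h : ∀ y, ‖y‖ ≤ R → ev Φ y ∈ B → ‖y‖ < R ∧ eval y (jac Φ) ≠ 0) :
    ∃ σ, Sheet Φ B σ ∧ σ (ev Φ y₀) = y₀ ∧ ∀ u ∈ B, ‖σ u‖ ≤ R := by
  classical
  let K := closedBall (0 : V n) R
  have : CompactSpace K := isCompact_iff_compactSpace.1 (isCompact_closedBall _ _)
  have h1 : IsLocalHomeomorphOn (ev Φ) {y | eval y (jac Φ) ≠ 0} := fun y hy =>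
    ⟨(strict Φ y hy).toOpenPartialHomeomorph (ev Φ),
      HasStrictFDerivAt.mem_toOpenPartialHomeomorph_source _, rfl⟩
  have h2 : IsLocalHomeomorphOn (Subtype.val : K → V n) (Subtype.val ⁻¹' ball 0 R) := by
    have e : Set.range (((Subtype.val : K → V n) ⁻¹' ball 0 R).domRestrict Subtype.val) =
        ball 0 R := by
      ext y
      exact ⟨by rintro ⟨z, rfl⟩; exact z.2, fun k => ⟨⟨⟨y, ball_subset_closedBall k⟩, k⟩, rfl⟩⟩
    exact (isLocalHomeomorphOn_iff_isOpenEmbedding_restrict _).2 fun x hx =>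
      ⟨_, (isOpen_ball.preimage continuous_subtype_val).mem_nhds hx,
        IsEmbedding.subtypeVal.comp IsEmbedding.subtypeVal, by rw [e]; exact isOpen_ball⟩
  have cov : IsCoveringMapOn (ev Φ ∘ (Subtype.val : K → V n)) B :=
    IsCoveringMapOn.of_isLocalHomeomorphOn ((continuous_ev Φ).comp continuous_subtype_val)
      (h1.comp (h2.mono fun x hx => mem_ball_zero_iff.2 (h x (mem_closedBall_zero_iff.1 x.2) hx).1)
        fun x hx => (h x (mem_closedBall_zero_iff.1 x.2) hx).2)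
  have := hB.contractibleSpace ⟨_, hm⟩
  have := ho.locallyPathConnectedSpace
  obtain ⟨F, ⟨f1, f2⟩, -⟩ := cov.existsUnique_continuousMap_lifts
    (⟨Subtype.val, continuous_subtype_val⟩ : C(B, V n)) (a₀ := ⟨_, hm⟩)
    (e₀ := ⟨y₀, mem_closedBall_zero_iff.2 hy⟩) rfl fun a => a.2
  have f3 : ∀ u (hu : u ∈ B), ev Φ (F ⟨u, hu⟩) = u := fun u hu => congrFun f2 ⟨u, hu⟩
  have f4 : ∀ u (hu : u ∈ B), ‖(F ⟨u, hu⟩ : V n)‖ ≤ R := fun u hu =>
    mem_closedBall_zero_iff.1 (F ⟨u, hu⟩).2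
  refine ⟨fun u => if hu : u ∈ B then F ⟨u, hu⟩ else y₀, ⟨fun u hu => ?_, fun u hu => ?_, ?_⟩,
    by simp only [dif_pos hm, f1], fun u hu => by simpa only [dif_pos hu] using f4 u hu⟩
  · simpa only [dif_pos hu] using f3 u hu
  · simpa only [dif_pos hu] using (h _ (f4 u hu) ((f3 u hu).symm ▸ hu)).2
  · rw [continuousOn_iff_continuous_domRestrict]
    exact (continuous_subtype_val.comp F.continuous).congr fun u => by simp [u.2]

end Pool.Agent.MP_5168f5_an.AN.Nc
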