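import Pool.Agent.MP_5168f5_an.AN.NcSheet

/-! Higher derivatives with respect to a frame and the Taylor polynomial. -/

namespace Pool.Agent.MP_5168f5_an.AN.Nc

open MvPolynomial Finset H83 Metric Filter Topology Matrix

variable {n : ℕ}

/-- Numerators of the higher derivatives. -/
noncomputable def num (Φ : Fin n → Pl n) (F : Pl n) : (k : ℕ) → (Fin k → Fin n) → Pl n
  | 0, _ => F
  | k + 1, w => jac Φ * Dv Φ (w 0) (num Φ F k (Fin.tail w)) -
      C (2 * k : ℝ) * num Φ F k (Fin.tail w) * Dv Φ (w 0) (jac Φ)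

/-- The derivative of `F` with respect to the frame along the word `w`. -/
noncomputable def dW (Φ : Fin n → Pl n) (F : Pl n) (k : ℕ) (w : Fin k → Fin n) (y : V n) : ℝ :=
  eval y (num Φ F k w) / eval y (jac Φ) ^ (2 * k)

@[simp] theorem dW_zero (Φ : Fin n → Pl n) (F : Pl n) (w : Fin 0 → Fin n) (y : V n) :
    dW Φ F 0 w y = eval y F := by simp [dW, num]

theorem dW_one (Φ : Fin n → Pl n) (F : Pl n) (w : Fin 1 → Fin n) {y : V n}
    (h : eval y (jac Φ) ≠ 0) : dW Φ F 1 w y = eval y (Dv Φ (w 0) F) / eval y (jac Φ) := by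
  simp only [dW, num, map_sub, map_mul, eval_C, Nat.cast_zero, mul_zero, zero_mul, sub_zero]
  field_simp
  ring

theorem deg_det {D : ℕ} {M : Matrix (Fin n) (Fin n) (Pl n)} (h : ∀ i j, (M i j).totalDegree ≤ D) :
    M.det.totalDegree ≤ n * D := by
  rw [Matrix.det_apply']
  refine totalDegree_finsetSum_le fun s _ => (totalDegree_mul _ _).trans ?_
  rw [← map_intCast (C : ℝ →+* Pl n), totalDegree_C, zero_add]
  exact (totalDegree_finsetProd _ _).trans ((sum_le_card_nsmul _ _ D fun i _ => h _ _).trans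
    (by simp))

variable {D E : ℕ} {Φ : Fin n → Pl n} {B : Set (V n)} {σ : V n → V n}

theorem deg_jm (hΦ : ∀ i, (Φ i).totalDegree ≤ D) (i j : Fin n) : (jm Φ i j).totalDegree ≤ D :=
  (IsPoly.totalDegree_pderiv_le _ _).trans (hΦ i)

theorem deg_jac (hΦ : ∀ i, (Φ i).totalDegree ≤ D) : (jac Φ).totalDegree ≤ n * D :=
  deg_det (deg_jm hΦ)

theorem deg_Dv (hΦ : ∀ i, (Φ i).totalDegree ≤ D) (i : Fin n) {P : Pl n} (hP : P.totalDegree ≤ E) :
    (Dv Φ i P).totalDegree ≤ n * D + E := by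
  refine totalDegree_finsetSum_le fun j _ => (totalDegree_mul _ _).trans
    (add_le_add ?_ ((IsPoly.totalDegree_pderiv_le _ _).trans hP))
  rw [Matrix.adjugate_apply]
  refine deg_det fun a b => ?_
  rw [Matrix.updateRow_apply, Pi.single_apply]
  split_ifs
  exacts [by simp, by simp, deg_jm hΦ a b]

theorem deg_num (hΦ : ∀ i, (Φ i).totalDegree ≤ D) {F : Pl n} (hF : F.totalDegree ≤ E) :
    ∀ k w, (num Φ F k w).totalDegree ≤ E + k * (2 * (n * D))
  | 0, _ => by simpa [num] using hF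
  | k + 1, w => by
    have h1 := deg_num hΦ hF k (Fin.tail w)
    have h2 := deg_jac hΦ
    refine (totalDegree_sub _ _).trans (max_le ((totalDegree_mul _ _).trans ?_)
      ((totalDegree_mul _ _).trans ?_))
    · have := deg_Dv hΦ (w 0) h1
      rw [add_mul]; omega
    · have h3 := deg_Dv hΦ (w 0) h2
      have h4 := totalDegree_mul (C (2 * k : ℝ)) (num Φ F k (Fin.tail w))
      rw [totalDegree_C] at h4
      rw [add_mul]; omega

theorem Sheet.deriv_dW (h : Sheet Φ B σ) {u : V n} (hu : B ∈ 𝓝 u) (F : Pl n) (k : ℕ)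
    (w : Fin k → Fin n) : HasFDerivAt (fun u => dW Φ F k w (σ u))
      (∑ i, dW Φ F (k + 1) (Fin.cons i w) (σ u) • (ContinuousLinearMap.proj i : V n →L[ℝ] ℝ)) u := by
  have hj := h.jac u (mem_of_mem_nhds hu)
  have h1 := (h.deriv_eval hu (num Φ F k w)).mul
    ((hasDerivAt_zpow (-(2 * k : ℕ)) _ (Or.inl hj)).comp_hasFDerivAt u (h.deriv_eval hu (Nc.jac Φ)))
  have e : (fun u => dW Φ F k w (σ u)) = fun u =>
      eval (σ u) (num Φ F k w) * eval (σ u) (Nc.jac Φ) ^ (-(2 * k : ℕ) : ℤ) := by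
    funext u; rw [dW, _root_.zpow_neg, zpow_natCast, div_eq_mul_inv]
  rw [e]
  refine h1.congr_fderiv ?_
  ext1 v
  simp only [_root_.add_apply, _root_.smul_apply, _root_.sum_apply, smul_eq_mul,
    ContinuousLinearMap.proj_apply, mul_sum, ← sum_add_distrib, Function.comp_apply]
  refine sum_congr rfl fun i _ => ?_
  simp only [dW, num, Fin.cons_zero, Fin.tail_cons, map_sub, map_mul, eval_C, zpow_sub_one₀ hj,
    _root_.zpow_neg, zpow_natCast]
  push_cast
  field_simp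
  ring

/-- A tower of derivatives. -/
def Tower (B : Set (V n)) (g : (k : ℕ) → (Fin k → Fin n) → V n → ℝ) : Prop :=
  ∀ k w, ∀ u ∈ B, HasFDerivAt (g k w)
    (∑ i, g (k + 1) (Fin.cons i w) u • (ContinuousLinearMap.proj i : V n →L[ℝ] ℝ)) u

theorem Sheet.tower (h : Sheet Φ B σ) (ho : IsOpen B) (F : Pl n) :
    Tower B fun k w u => dW Φ F k w (σ u) := fun k w _ hu => h.deriv_dW (ho.mem_nhds hu) F k w

/-- The polynomial with derivatives `c` at `u₀`. -/
noncomputable def tay (c : (k : ℕ) → (Fin k → Fin n) → ℝ) (u₀ : V n) (K : ℕ) : Pl n :=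
  ∑ k ∈ range (K + 1), ∑ w : Fin k → Fin n,
    C (c k w / k.factorial) * ∏ j, (X (w j) - C (u₀ (w j)))

theorem deg_tay (c : (k : ℕ) → (Fin k → Fin n) → ℝ) (u₀ : V n) (K : ℕ) :
    (tay c u₀ K).totalDegree ≤ K := by
  refine totalDegree_finsetSum_le fun k hk => totalDegree_finsetSum_le fun w _ =>
    (totalDegree_mul _ _).trans ?_
  rw [totalDegree_C, zero_add]
  refine (totalDegree_finsetProd _ _).trans ((sum_le_card_nsmul _ _ 1 fun i _ =>
    (totalDegree_sub _ _).trans (by simp)).trans ?_)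
  simpa [Nat.lt_succ_iff] using hk

theorem eval_tay (c : (k : ℕ) → (Fin k → Fin n) → ℝ) (u₀ u : V n) (K : ℕ) :
    eval u (tay c u₀ K) = ∑ k ∈ range (K + 1),
      (∑ w : Fin k → Fin n, (∏ j, (u - u₀) (w j)) * c k w) / k.factorial := by
  simp only [tay, map_sum, map_mul, eval_C, map_prod, map_sub, eval_X, sum_div, Pi.sub_apply]
  exact sum_congr rfl fun k _ => sum_congr rfl fun w _ => by ring

theorem taylor1 {f : ℕ → ℝ → ℝ} (h : ∀ k, ∀ t ∈ Set.Icc (0 : ℝ) 1, HasDerivAt (f k) (f (k + 1) t) t)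
    (K : ℕ) {A : ℝ} (hA : ∀ t ∈ Set.Icc (0 : ℝ) 1, |f (K + 1) t| ≤ A) :
    |f 0 1 - ∑ k ∈ range (K + 1), f k 0 / k.factorial| ≤ A := by
  have h1 : ∀ K : ℕ, ∀ t ∈ Set.Icc (0 : ℝ) 1, HasDerivAt
      (fun t => ∑ k ∈ range (K + 1), f k t * (1 - t) ^ k / k.factorial)
      (f (K + 1) t * (1 - t) ^ K / K.factorial) t := by
    intro K t ht
    induction K with
    | zero => simpa using h 0 t ht
    | succ K ih =>
      simp only [sum_range_succ _ (K + 1)]
      refine (ih.add (((h (K + 1) t ht).mul (((hasDerivAt_id t).const_sub 1).pow (K + 1))).div_const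
        _)).congr_deriv ?_
      simp only [Nat.factorial_succ, Nat.add_sub_cancel, id, Pi.pow_apply]
      push_cast
      field_simp
      ring
  obtain ⟨t, ht, e⟩ := exists_hasDerivAt_eq_slope _ _ one_pos
    (fun t ht => (h1 K t ht).continuousAt.continuousWithinAt)
    fun t ht => h1 K t (Set.Ioo_subset_Icc_self ht)
  have e1 : ∑ k ∈ range (K + 1), f k 1 * (1 - 1) ^ k / k.factorial = f 0 1 := by
    rw [sum_range_succ']; simp
  simp only [e1, sub_zero, one_pow, mul_one, div_one] at e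
  rw [← e, abs_div, abs_mul, Nat.abs_cast, div_le_iff₀ (by positivity)]
  have h2 : |(1 - t) ^ K| ≤ 1 := by
    rw [abs_pow]
    exact pow_le_one₀ (abs_nonneg _) (abs_le.2 ⟨by linarith [ht.2], by linarith [ht.1]⟩)
  have h3 : (1 : ℝ) ≤ K.factorial := by exact_mod_cast K.factorial_pos
  have h4 := hA t (Set.Ioo_subset_Icc_self ht)
  exact mul_le_mul h4 (h2.trans h3) (abs_nonneg _) ((abs_nonneg _).trans h4)

variable {g : (k : ℕ) → (Fin k → Fin n) → V n → ℝ}

theorem Tower.line (h : Tower B g) (k : ℕ) (w : Fin k → Fin n) (u₀ v : V n) {t : ℝ}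
    (ht : u₀ + t • v ∈ B) : HasDerivAt (fun t : ℝ => g k w (u₀ + t • v))
      (∑ i, g (k + 1) (Fin.cons i w) (u₀ + t • v) * v i) t := by
  have h1 : HasDerivAt (fun t : ℝ => u₀ + t • v) v t := by
    simpa using ((hasDerivAt_id t).smul_const v).const_add u₀
  exact ((h k w _ ht).comp_hasDerivAt t h1).congr_deriv (by simp)

/-- The Taylor formula with remainder. -/
theorem Tower.taylor (h : Tower B g) (hB : Convex ℝ B) {u₀ u : V n} (h₀ : u₀ ∈ B) (hu : u ∈ B)
    (K : ℕ) {A : ℝ} (hA : ∀ w, ∀ v ∈ B, |g (K + 1) w v| ≤ A) (w₀ : Fin 0 → Fin n) :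
    |g 0 w₀ u - eval u (tay (fun k w => g k w u₀) u₀ K)| ≤ A * (n * ‖u - u₀‖) ^ (K + 1) := by
  have hm : ∀ t ∈ Set.Icc (0 : ℝ) 1, u₀ + t • (u - u₀) ∈ B := fun t ht =>
    hB.add_smul_sub_mem h₀ hu ht
  have := taylor1 (f := fun k t => ∑ w : Fin k → Fin n,
      (∏ j, (u - u₀) (w j)) * g k w (u₀ + t • (u - u₀))) (fun k t ht => ?_) K
      (A := A * (n * ‖u - u₀‖) ^ (K + 1)) fun t ht => ?_
  · rw [eval_tay]
    simpa [Subsingleton.elim w₀ default] using this
  · refine (HasDerivAt.fun_sum fun w _ => (h.line k w u₀ _ (hm t ht)).const_mul _).congr_deriv ?_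
    rw [← (Fin.consEquiv fun _ => Fin n).sum_comp, Fintype.sum_prod_type, sum_comm]
    refine sum_congr rfl fun w _ => ?_
    rw [mul_sum]
    refine sum_congr rfl fun i _ => ?_
    simp only [Fin.consEquiv, Equiv.coe_fn_mk, Fin.prod_univ_succ, Fin.cons_zero, Fin.cons_succ]
    ring
  · refine (abs_sum_le_sum_abs _ _).trans ((sum_le_card_nsmul _ _ (‖u - u₀‖ ^ (K + 1) * A)
      fun w _ => ?_).trans (le_of_eq (by simp; ring)))
    rw [abs_mul, abs_prod]
    refine mul_le_mul ?_ (hA w _ (hm t ht)) (abs_nonneg _) (by positivity)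
    simpa using prod_le_prod (s := univ) (f := fun j => |(u - u₀) (w j)|)
      (g := fun _ => ‖u - u₀‖) (fun j _ => abs_nonneg _) fun j _ => norm_le_pi_norm (u - u₀) (w j)

/-- A bounded function has a point with small derivative. -/
theorem Tower.small {u₀ : V n} {r A : ℝ} (h : Tower (ball u₀ r) g) (hr : 0 < r) {k : ℕ}
    (w : Fin (k + 1) → Fin n) (hA : ∀ v ∈ ball u₀ r, |g k (Fin.tail w) v| ≤ A) :
    ∃ v ∈ ball u₀ r, |g (k + 1) w v| ≤ 4 * A / r := by
  have hm : ∀ t ∈ Set.Icc (0 : ℝ) (r / 2), u₀ + t • (Pi.single (w 0) 1 : V n) ∈ ball u₀ r := by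
    intro t ht
    rw [mem_ball_iff_norm, add_sub_cancel_left, norm_smul, Pi.norm_single, norm_one, mul_one,
      Real.norm_of_nonneg ht.1]
    linarith [ht.2]
  obtain ⟨t, ht, e⟩ := exists_hasDerivAt_eq_slope _ _ (half_pos hr)
    (fun t ht => (h.line k (Fin.tail w) u₀ _ (hm t ht)).continuousAt.continuousWithinAt)
    fun t ht => h.line k (Fin.tail w) u₀ _ (hm t (Set.Ioo_subset_Icc_self ht))
  refine ⟨_, hm t (Set.Ioo_subset_Icc_self ht), ?_⟩
  simp only [Pi.single_apply, mul_ite, mul_one, mul_zero, sum_ite_eq', mem_univ, if_true,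
    Fin.cons_self_tail, sub_zero] at e
  rw [e, abs_div, abs_of_pos (half_pos hr), div_le_div_iff₀ (half_pos hr) hr]
  have h1 := abs_le.1 (hA _ (hm (r / 2) ⟨(half_pos hr).le, le_rfl⟩))
  have h2 := abs_le.1 (hA _ (hm 0 ⟨le_rfl, (half_pos hr).le⟩))
  have h3 : |g k (Fin.tail w) (u₀ + (r / 2) • Pi.single (w 0) 1) -
      g k (Fin.tail w) (u₀ + (0 : ℝ) • Pi.single (w 0) 1)| ≤ 2 * A :=
    abs_le.2 ⟨by linarith [h1.1, h2.2], by linarith [h1.2, h2.1]⟩
  nlinarith

end Pool.Agent.MP_5168f5_an.AN.Nc
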