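import Pool.Agent.MP_5168f5_an.AN.RlPoly
import Pool.Agent.MP_5168f5_an.AN.S20Full

/-! The inequality of Remez on a piece: one space. -/

namespace Pool.Agent.MP_5168f5_an.AN.Rl

open H19 H17S H17F MvPolynomial Finset
open Pk (cn kc)
open Nc (Pl ev)
open G39 (RG)
open S20 (dn)

variable {Ω : Type} {k N : ℕ} {P : FP Ω} {κ : Kd k Ω} {x : Ω → V N} {G : Ω → Prop} {ω v : Ω}
  {a t E C J : ℕ} {Γ k0 k1 b : ℝ}

/-- The displacement inside the piece of level `a`. -/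
noncomputable def ds (κ : Kd k Ω) (a : ℕ) (ω v : Ω) : V k := fr a (κ.p v) - fr a (κ.p ω)

theorem ds_le (κ : Kd k Ω) (a : ℕ) (ω v : Ω) : ‖ds κ a ω v‖ ≤ 1 :=
  (norm_sub_lt_one_of_box (fr_box _ _) (fr_box _ _)).le

theorem pc_Z (h : κ.pc a v = κ.pc a ω) : κ.Z v = κ.Z ω := congrArg (·.1) h

theorem pc_W (h : κ.pc a v = κ.pc a ω) : κ.W v = κ.W ω := congrArg (·.2.1) h

theorem pc_p (h : κ.pc a v = κ.pc a ω) : fl a (κ.p v) = fl a (κ.p ω) := congrArg (·.2.2) h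

theorem pc_mono (e : a ≤ t) (h : κ.pc t v = κ.pc t ω) : κ.pc a v = κ.pc a ω :=
  Prod.ext (pc_Z h) (Prod.ext (pc_W h) (flv_eq_of_le e (pc_p h)))

theorem ds_eq (h : κ.pc a v = κ.pc a ω) : ds κ a ω v = (2 : ℝ) ^ a • (κ.p v - κ.p ω) := by
  rw [ds, fr_eq, fr_eq, pc_p h, smul_sub, sub_sub_sub_cancel_right]

theorem ds_inv (h : κ.pc a v = κ.pc a ω) : ((2 : ℝ) ^ a)⁻¹ • ds κ a ω v = κ.p v - κ.p ω := by
  rw [ds_eq h, smul_smul, inv_mul_cancel₀ (by positivity), one_smul]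

theorem ds_add (h : κ.pc (a + t) v = κ.pc (a + t) ω) :
    ds κ a ω v = ((2 : ℝ) ^ t)⁻¹ • ds κ (a + t) ω v := by
  rw [ds_eq h, ds_eq (pc_mono (Nat.le_add_right a t) h), smul_smul, pow_add]
  congr 1
  field_simp

theorem ds_small (h : κ.pc (a + t) v = κ.pc (a + t) ω) : ‖ds κ a ω v‖ ≤ ((2 : ℝ) ^ t)⁻¹ := by
  rw [ds_add h, norm_smul, Real.norm_of_nonneg (by positivity)]
  exact mul_le_of_le_one_right (by positivity) (ds_le _ _ _ _)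

theorem mass (hω : ω ∈ P.S) (κ : Kd k Ω) (a : ℕ) (S : Ω → Prop) :
    dn P (κ.pc a) κ.Z ω * pb (cv P (κ.pc a) (κ.pc a ω)) S ≤ pb (cv P κ.Z (κ.Z ω)) S := by
  have e : cv P (κ.pc a) (κ.pc a ω) = cv P (fun v => (κ.pc a v, κ.Z v)) (κ.pc a ω, κ.Z ω) :=
    cE_congr fun v _ => ⟨fun h => Prod.ext h (pc_Z h), fun h => congrArg (·.1) h⟩
  rw [e, S20.dn_mul hω]
  exact pb_mono fun _ _ h => h.1

/-- The inequality of level zero for a set inside a piece. -/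
theorem lvl0 (rg : RG P x κ.Z G E C Γ k0) (hω : ω ∈ P.S) (hv : v ∈ P.S) (g : G v)
    (e : κ.Z v = κ.Z ω) (hΓ : 0 < Γ) (low : 1 ≤ Γ * (2 ^ a) ^ k * dn P (κ.pc a) κ.Z ω) {F : Pl N}
    (hF : F.totalDegree ≤ E) {θ q : ℝ} (hq : 0 < q) (c : k0 * (Γ * (2 ^ a) ^ k) ≤ q)
    (h : q ≤ pb (cv P (κ.pc a) (κ.pc a ω)) fun v => G v ∧ |eval (x v) F| ≤ θ) :
    |eval (x v) F| ≤ Γ * Γ ^ (C * E) * (2 ^ a) ^ (k * (C * E)) * q⁻¹ ^ (C * E) * θ := by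
  have p : 0 < Γ * (2 ^ a) ^ k := by positivity
  refine (rg v hv g _ ⟨F, hF, fun _ => rfl⟩ θ (q / (Γ * (2 ^ a) ^ k)) ((le_div_iff₀ p).2 c) ?_).trans_eq ?_
  · rw [e, div_le_iff₀ p]
    have h1 := mul_le_mul_of_nonneg_left (mass hω κ a fun v => G v ∧ |eval (x v) F| ≤ θ) p.le
    nlinarith [mul_le_mul low h hq.le (zero_le_one.trans low)]
  · rw [inv_div, div_eq_mul_inv, mul_pow, mul_pow, ← pow_mul (2 ^ a : ℝ)]
    ring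

/-- A polynomial in the point is approximated by a polynomial in the displacement. -/
theorem appr {τ : Fin N → Pl k} {F : Pl N} (hΓ : 1 ≤ Γ) (hτ : ∀ i, cn (τ i) ≤ Γ)
    (hd : ∀ i, (τ i).totalDegree ≤ J + 1) (hF : F.totalDegree ≤ E) (e : κ.pc a v = κ.pc a ω)
    (bd : ‖x v‖ ≤ Γ) (wh : ‖x v - ev τ (κ.p v - κ.p ω)‖ ≤ Γ * ‖κ.p v - κ.p ω‖ ^ (J + 2)) :
    |eval (x v) F - eval (ds κ a ω v) (ts (E * (J + 1)) (2 ^ a)⁻¹ (aeval τ F))| ≤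
      E * cn F * Γ ^ (E + 1) / (2 ^ a) ^ (J + 2) * ‖ds κ a ω v‖ ^ (J + 2) := by
  have n1 : ‖κ.p v - κ.p ω‖ = (2 ^ a)⁻¹ * ‖ds κ a ω v‖ := by
    rw [← ds_inv e, norm_smul, Real.norm_of_nonneg (by positivity)]
  have n2 : ‖κ.p v - κ.p ω‖ ≤ 1 := n1 ▸ mul_le_one₀ (inv_le_one_of_one_le₀ (one_le_pow₀ one_le_two))
    (norm_nonneg _) (ds_le _ _ _ _)
  rw [eval_ts, ds_inv e, ts_one (kc.deg τ F E _ hF hd), Nc.eval_aeval]
  refine (kc.lip F E Γ _ _ _ hF hΓ ((norm_nonneg _).trans wh) fun i =>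
    ⟨(norm_le_pi_norm (x v) i).trans bd, (val_le n2).trans (hτ i),
      (norm_le_pi_norm (x v - ev τ (κ.p v - κ.p ω)) i).trans wh⟩).trans_eq ?_
  rw [n1, mul_pow, inv_pow]
  ring

theorem core (hΓ : 1 ≤ Γ) (hb : 0 ≤ b) (h1 : 0 < k1) (hω : ω ∈ P.S) (g : G ω)
    (bd : ∀ v ∈ P.S, G v → ‖x v‖ ≤ Γ) (rg : RG P x κ.Z G E C Γ k0) {τ : Fin N → Pl k}
    (hτ : ∀ i, (τ i).totalDegree ≤ J + 1 ∧ cn (τ i) ≤ Γ)
    (wh : ∀ v ∈ P.S, G v → κ.Z v = κ.Z ω → κ.W v = κ.W ω →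
      ‖x v - ev τ (κ.p v - κ.p ω)‖ ≤ Γ * ‖κ.p v - κ.p ω‖ ^ (J + 2))
    (fl : ∀ F : Pl N, F.totalDegree ≤ E →
      ∃ v ∈ P.S, G v ∧ κ.Z v = κ.Z ω ∧ cn F ≤ b * |eval (x v) F|)
    (r1 : ∀ H : Pl k, H.totalDegree ≤ E * (J + 1) → ∀ θ, (∀ v ∈ P.S, G v → κ.pc a v = κ.pc a ω →
      |eval (ds κ a ω v) H| ≤ θ) → cn H ≤ Γ * θ)
    (h2 : 1 / 2 ≤ pb (cv P (κ.pc (a + a)) (κ.pc (a + a) ω)) G)
    (l2 : 1 ≤ Γ * (2 ^ (a + a)) ^ k * dn P (κ.pc (a + a)) κ.Z ω)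
    (r3 : RM (cv P (κ.pc t) (κ.pc t ω)) (ds κ t ω) G (2 * (2 * (k * (C * E)))) Γ k1)
    (l3 : 1 ≤ Γ * (2 ^ t) ^ k * dn P (κ.pc t) κ.Z ω)
    (c1 : E * b * Γ ^ (E + 1) ≤ (2 ^ a) ^ (J + 2)) (c2 : 6 * Γ * (Γ * (2 * Γ) ^ (C * E)) ≤ 2 ^ a)
    (c3 : k0 * (Γ * (2 ^ (a + a)) ^ k) ≤ 1 / 2) (c4 : k0 * (Γ * (2 ^ t) ^ k) ≤ k1)
    (hJ : 2 * (2 * (k * (C * E))) ≤ J + 1) {F : Pl N} (hF : F.totalDegree ≤ E) {θ q : ℝ}
    (hq : k1 ≤ q) (h : q ≤ pb (cv P (κ.pc t) (κ.pc t ω)) fun v => G v ∧ |eval (x v) F| ≤ θ) :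
    |eval (x ω) F| ≤ 12 * Γ ^ 2 * (Γ * (2 * Γ) ^ (C * E)) ^ 2 * (2 ^ a) ^ (4 * (k * (C * E))) *
      q⁻¹ ^ ((4 * k ^ 2 + 1) * C * E) * θ := by
  classical
  have G0 : 0 < Γ := by linarith
  have q0 := h1.trans_le hq
  have q1 : 1 ≤ q⁻¹ := one_le_inv_iff₀.2 ⟨q0, h.trans (pb_le_one _ _)⟩
  obtain ⟨_, -, -, t0⟩ := ex_of_pb (q0.trans_le h)
  replace t0 := (abs_nonneg _).trans t0
  obtain ⟨v₀, m0, m1⟩ := exists_max_image (P.S.filter fun v => G v ∧ κ.Z v = κ.Z ω)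
    (fun v => |eval (x v) F|) ⟨ω, mem_filter.2 ⟨hω, g, rfl⟩⟩
  simp only [mem_filter, and_imp] at m0 m1
  have s2 := fun θ => lvl0 (θ := θ) rg hω m0.1 m0.2.1 m0.2.2 G0 l2 hF one_half_pos c3
  have s3 := lvl0 rg hω hω g rfl G0 l3 hF q0 (c4.trans hq) h
  have n0 := abs_nonneg (eval (x v₀) F)
  generalize |eval (x v₀) F| = n at *
  have cF : cn F ≤ b * n := by
    obtain ⟨v, a1, a2, a3, a4⟩ := fl F hF
    exact a4.trans (mul_le_mul_of_nonneg_left (m1 v a1 a2 a3) hb)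
  have s1 : (1 : ℝ) ≤ 2 ^ a := one_le_pow₀ one_le_two
  have a0 := fun v hv gv (e : κ.pc a v = κ.pc a ω) => appr hΓ (fun i => (hτ i).2)
    (fun i => (hτ i).1) hF e (bd v hv gv) (wh v hv gv (pc_Z e) (pc_W e))
  have z0 : eval (x ω) F = eval 0 (ts (E * (J + 1)) (2 ^ a)⁻¹ (aeval τ F)) := by
    simpa [ds, sub_eq_zero] using a0 ω hω g rfl
  have dT := deg_ts (E * (J + 1)) (2 ^ a)⁻¹ (aeval τ F)
  generalize ts (E * (J + 1)) (2 ^ a)⁻¹ (aeval τ F) = T at *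
  have a1 : ∀ v ∈ P.S, G v → κ.pc a v = κ.pc a ω →
      |eval (x v) F - eval (ds κ a ω v) T| ≤ n * ‖ds κ a ω v‖ ^ (J + 2) := fun v hv gv e =>
    (a0 v hv gv e).trans (mul_le_mul_of_nonneg_right ((div_le_iff₀ (by positivity)).2
      (le_trans ?_ (mul_le_mul_of_nonneg_left c1 n0))) (by positivity))
  swap
  · calc _ ≤ E * (b * n) * Γ ^ (E + 1) := by gcongr
      _ = _ := by ring
  have cT : cn T ≤ Γ * (n + n) := r1 T dT _ fun v hv gv e => by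
    have := (a1 v hv gv e).trans (mul_le_of_le_one_right n0 (pow_le_one₀ (norm_nonneg _) (ds_le _ _ _ _)))
    linarith [m1 v hv gv (pc_Z e), abs_sub_abs_le_abs_sub (eval (ds κ a ω v) T) (eval (x v) F),
      abs_sub_comm (eval (ds κ a ω v) T) (eval (x v) F)]
  have a2 : ∀ L ≤ J + 1, ∀ d : ℕ, ∀ v ∈ P.S, G v → κ.pc (a + d) v = κ.pc (a + d) ω →
      |eval (x v) F - eval (ds κ a ω v) (ts L 1 T)| ≤ 3 * Γ * n * (2 ^ d)⁻¹ ^ (L + 1) := by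
    intro L hL d v hv gv e
    have u1 : ((2 : ℝ) ^ d)⁻¹ ≤ 1 := inv_le_one_of_one_le₀ (one_le_pow₀ one_le_two)
    have u2 := (a1 v hv gv (pc_mono (Nat.le_add_right a d) e)).trans (mul_le_mul_of_nonneg_left
      ((pow_le_pow_left₀ (norm_nonneg _) (ds_small e) _).trans
        (pow_le_pow_of_le_one (by positivity) u1 (show L + 1 ≤ J + 2 by omega))) n0)
    have u3 := (err_ts L T (ds_small e) u1).trans (mul_le_mul_of_nonneg_right cT (by positivity))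
    have u4 : 0 ≤ n * ((2 : ℝ) ^ d)⁻¹ ^ (L + 1) := by positivity
    nlinarith [abs_sub_le (eval (x v) F) (eval (ds κ a ω v) T) (eval (ds κ a ω v) (ts L 1 T))]
  generalize hm : k * (C * E) = m at *
  have y1 : Γ * Γ ^ (C * E) ≤ Γ * (2 * Γ) ^ (C * E) := by gcongr; linarith
  have y2 : 1 ≤ Γ * (2 * Γ) ^ (C * E) :=
    one_le_mul_of_one_le_of_one_le hΓ (one_le_pow₀ (by linarith))
  have e2 : Γ * Γ ^ (C * E) * (2 ^ (a + a)) ^ m * (1 / 2)⁻¹ ^ (C * E) =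
      Γ * (2 * Γ) ^ (C * E) * (2 ^ a) ^ (2 * m) := by
    rw [one_div, inv_inv, pow_add, mul_pow, mul_pow, two_mul m, pow_add]; ring
  rw [e2] at s2
  generalize Γ * (2 * Γ) ^ (C * E) = Y at *
  have b2 : n ≤ 2 * (Y * (2 ^ a) ^ (2 * m)) * cn (ts (2 * m) 1 T) := by
    have u1 := s2 (cn (ts (2 * m) 1 T) + 3 * Γ * n * (2 ^ a)⁻¹ ^ (2 * m + 1))
      (h2.trans (pb_mono fun v hv gv => ⟨gv, by
        have hv' := (S20.mem_cv hω v).1 hv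
        linarith [a2 (2 * m) (by omega) a v hv'.1 gv hv'.2,
          val_le (T := ts (2 * m) 1 T) (ds_le κ a ω v), abs_sub_abs_le_abs_sub (eval (x v) F)
            (eval (ds κ a ω v) (ts (2 * m) 1 T))]⟩))
    have u2 : Y * (2 ^ a) ^ (2 * m) * (3 * Γ * n * (2 ^ a)⁻¹ ^ (2 * m + 1)) =
        6 * Γ * Y / 2 ^ a * (n / 2) := by
      rw [inv_pow, pow_succ]; field_simp; ring
    have u3 : 6 * Γ * Y / 2 ^ a ≤ 1 := (div_le_one (by positivity)).2 c2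
    rw [mul_add, u2] at u1
    nlinarith
  have ex : q⁻¹ ^ ((4 * k ^ 2 + 1) * C * E) = q⁻¹ ^ (k * (2 * (2 * m))) * q⁻¹ ^ (C * E) := by
    rw [← pow_add, ← hm]; congr 1; ring
  have w1 : 1 ≤ q⁻¹ ^ (k * (2 * (2 * m))) := one_le_pow₀ q1
  have w2 : 1 ≤ q⁻¹ ^ (C * E) := one_le_pow₀ q1
  have w3 : (1 : ℝ) ≤ (2 ^ a) ^ (2 * m) := one_le_pow₀ s1
  have w4 : ((2 : ℝ) ^ a) ^ (4 * m) = (2 ^ a) ^ (2 * m) * (2 ^ a) ^ (2 * m) := by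
    rw [← pow_add]; congr 1; ring
  have w5 : ((2 : ℝ) ^ a) ^ m ≤ (2 ^ a) ^ (2 * m) := pow_le_pow_right₀ s1 (by omega)
  rw [ex, w4]
  have key : ((2 : ℝ) ^ t) ^ m ≤ 12 * Γ ^ 2 * Y * ((2 ^ a) ^ (2 * m) * (2 ^ a) ^ (2 * m)) *
      q⁻¹ ^ (k * (2 * (2 * m))) ∨ |eval (x ω) F| ≤ Γ * q⁻¹ ^ (k * (2 * (2 * m))) * (θ + θ) := by
    have w6 : 1 ≤ 12 * Γ ^ 2 * Y := one_le_mul_of_one_le_of_one_le (by nlinarith) y2
    rcases le_total t a with ht | ht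
    · refine Or.inl ((pow_le_pow_left₀ (by positivity) (pow_le_pow_right₀ one_le_two ht) _).trans
        (w5.trans ?_))
      calc ((2 : ℝ) ^ a) ^ (2 * m) = 1 * ((2 ^ a) ^ (2 * m) * 1) * 1 := by ring
        _ ≤ _ := by gcongr
    obtain ⟨d, rfl⟩ := Nat.exists_eq_add_of_le ht
    have r0 : (1 : ℝ) ≤ 2 ^ d := one_le_pow₀ one_le_two
    have u1 := r3 _ (deg_ts _ (2 ^ d)⁻¹ T) (θ + 3 * Γ * n * (2 ^ d)⁻¹ ^ (2 * (2 * m) + 1)) q hq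
      (h.trans (pb_mono fun v hv gv => ⟨gv.1, by
        have hv' := (S20.mem_cv hω v).1 hv
        rw [eval_ts, ← ds_add hv'.2]
        linarith [a2 _ hJ d v hv'.1 gv.1 hv'.2, gv.2, abs_sub_abs_le_abs_sub
          (eval (ds κ a ω v) (ts (2 * (2 * m)) 1 T)) (eval (x v) F), abs_sub_comm
          (eval (ds κ a ω v) (ts (2 * (2 * m)) 1 T)) (eval (x v) F)]⟩))
    have u2 := cn_ts (show 2 * m ≤ 2 * (2 * m) by omega) r0 T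
    have u3 : |eval (x ω) F| ≤ cn (ts (2 * (2 * m)) (2 ^ d)⁻¹ T) := by
      rw [z0, ← zero_ts (2 * (2 * m)) (2 ^ d)⁻¹]
      exact val_le (by simp)
    have u4 := b2.trans (mul_le_mul_of_nonneg_left
      (u2.trans (mul_le_mul_of_nonneg_left u1 (by positivity))) (by positivity))
    generalize q⁻¹ ^ (k * (2 * (2 * m))) = w at *
    by_cases c : 12 * Γ ^ 2 * Y * (2 ^ a) ^ (2 * m) * w ≤ (2 ^ d) ^ (2 * m + 1)
    · refine Or.inr (u3.trans (u1.trans (mul_le_mul_of_nonneg_left (add_le_add le_rfl ?_)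
        (by positivity))))
      have u5 := mul_le_mul_of_nonneg_left u4
        (show 0 ≤ 3 * Γ * ((2 : ℝ) ^ d)⁻¹ ^ (2 * (2 * m) + 1) by positivity)
      have u6 : ∀ z : ℝ, 3 * Γ * ((2 : ℝ) ^ d)⁻¹ ^ (2 * (2 * m) + 1) * (2 * (Y * (2 ^ a) ^ (2 * m)) *
          ((2 ^ d) ^ (2 * m) * (Γ * w * z))) =
          12 * Γ ^ 2 * Y * (2 ^ a) ^ (2 * m) * w / (2 ^ d) ^ (2 * m + 1) * (z / 2) := fun z => by
        rw [inv_pow, show 2 * (2 * m) + 1 = 2 * m + (2 * m + 1) by ring, pow_add]; field_simp; ring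
      have u7 := (div_le_one (by positivity)).2 c
      have u8 : 0 ≤ 3 * Γ * n * ((2 : ℝ) ^ d)⁻¹ ^ (2 * (2 * m) + 1) := by positivity
      rw [u6] at u5
      nlinarith
    · refine Or.inl ?_
      rw [pow_add, mul_pow]
      calc _ ≤ (2 ^ a) ^ (2 * m) * ((2 : ℝ) ^ d) ^ (2 * m + 1) :=
            mul_le_mul w5 (pow_le_pow_right₀ r0 (by omega)) (by positivity) (by positivity)
        _ ≤ (2 ^ a) ^ (2 * m) * (12 * Γ ^ 2 * Y * (2 ^ a) ^ (2 * m) * w) :=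
            mul_le_mul_of_nonneg_left (not_le.1 c).le (by positivity)
        _ = _ := by ring
  rcases key with c | c
  · refine s3.trans ((mul_le_mul_of_nonneg_right (mul_le_mul_of_nonneg_right
      (mul_le_mul y1 c (by positivity) (by positivity)) (by positivity)) t0).trans_eq ?_)
    ring
  · refine c.trans ?_
    calc _ = 2 * (Γ * 1) * 1 ^ 2 * (1 * 1) * (q⁻¹ ^ (k * (2 * (2 * m))) * 1) * θ := by ring
      _ ≤ 12 * (Γ * Γ) * Y ^ 2 * ((2 ^ a) ^ (2 * m) * (2 ^ a) ^ (2 * m)) *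
          (q⁻¹ ^ (k * (2 * (2 * m))) * q⁻¹ ^ (C * E)) * θ := by gcongr; norm_num
      _ = _ := by ring

end Pool.Agent.MP_5168f5_an.AN.Rl
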