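import Pool.Agent.MP_5168f5_an.AN.PRem
import Pool.Agent.MP_5168f5_an.AN.NcRel

/-! Truncation and dilation of polynomials; the inequality of Remez around a base point. -/

namespace Pool.Agent.MP_5168f5_an.AN.Rl

open H19 H17S H17F MvPolynomial Finset
open Pk (cn kc remD)
open Nc (Pl ev)

variable {k : ℕ}

/-- Multiply the coefficients by weights. -/
noncomputable def wt (w : (Fin k →₀ ℕ) → ℝ) (T : Pl k) : Pl k :=
  ∑ α ∈ T.support, monomial α (w α * coeff α T)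

theorem coeff_wt (w : (Fin k →₀ ℕ) → ℝ) (T : Pl k) (α : Fin k →₀ ℕ) :
    coeff α (wt w T) = w α * coeff α T := by
  simp only [wt, coeff_sum, coeff_monomial, sum_ite_eq', mem_support_iff]
  split_ifs with h
  · rfl
  · rw [not_not.1 h, mul_zero]

theorem eval_wt (w : (Fin k →₀ ℕ) → ℝ) (T : Pl k) (y : V k) :
    eval y (wt w T) = ∑ α ∈ T.support, w α * coeff α T * ∏ i, y i ^ α i := by
  simp [wt, eval_monomial, Finsupp.prod_fintype]

theorem cn_wt (w : (Fin k →₀ ℕ) → ℝ) (T : Pl k) :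
    cn (wt w T) = ∑ α ∈ T.support, |w α| * |coeff α T| := by
  rw [kc.sup _ T.support fun α h => mem_support_iff.2 fun e => mem_support_iff.1 h (by
    rw [coeff_wt, e, mul_zero])]
  simp only [coeff_wt, abs_mul]

theorem deg_le {T : Pl k} {L : ℕ} : T.totalDegree ≤ L ↔ ∀ α, coeff α T ≠ 0 → ∑ i, α i ≤ L := by
  simp only [totalDegree, Finset.sup_le_iff, mem_support_iff]
  exact forall₂_congr fun α _ => by rw [Finsupp.sum_fintype _ _ fun _ => rfl]

/-- Truncate at order `L` and dilate by `r`. -/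
noncomputable def ts (L : ℕ) (r : ℝ) (T : Pl k) : Pl k :=
  wt (fun α => if ∑ i, α i ≤ L then r ^ ∑ i, α i else 0) T

theorem deg_ts (L : ℕ) (r : ℝ) (T : Pl k) : (ts L r T).totalDegree ≤ L :=
  deg_le.2 fun α h => by_contra fun e => h (by rw [ts, coeff_wt, if_neg e, zero_mul])

theorem eval_ts (L : ℕ) (r : ℝ) (T : Pl k) (y : V k) :
    eval y (ts L r T) = eval (r • y) (ts L 1 T) := by
  simp only [ts, eval_wt, Pi.smul_apply, smul_eq_mul, mul_pow, prod_mul_distrib, prod_pow_eq_pow_sum]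
  exact sum_congr rfl fun α _ => by split_ifs <;> ring

theorem ts_one {L : ℕ} {T : Pl k} (h : T.totalDegree ≤ L) : ts L 1 T = T := by
  ext α
  by_cases e : coeff α T = 0
  · rw [ts, coeff_wt, e, mul_zero]
  · rw [ts, coeff_wt, if_pos (deg_le.1 h α e), one_pow, one_mul]

theorem err_ts (L : ℕ) (T : Pl k) {y : V k} {ρ : ℝ} (h : ‖y‖ ≤ ρ) (h1 : ρ ≤ 1) :
    |eval y T - eval y (ts L 1 T)| ≤ cn T * ρ ^ (L + 1) := by
  have h0 := (norm_nonneg y).trans h
  rw [ts, eval_wt, eval_eq', ← sum_sub_distrib, cn, sum_mul]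
  refine (abs_sum_le_sum_abs _ _).trans (sum_le_sum fun α _ => ?_)
  split_ifs with e
  · rw [one_pow, one_mul, sub_self, abs_zero]
    positivity
  · rw [zero_mul, zero_mul, sub_zero, abs_mul, abs_prod]
    refine mul_le_mul_of_nonneg_left ((prod_le_prod (g := fun i => ρ ^ α i)
      (fun _ _ => abs_nonneg _) fun i _ => ?_).trans ?_) (abs_nonneg _)
    · rw [abs_pow]
      exact pow_le_pow_left₀ (abs_nonneg _) ((norm_le_pi_norm y i).trans h) _
    · rw [prod_pow_eq_pow_sum]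
      exact pow_le_pow_of_le_one h0 h1 (by omega)

theorem zero_ts (L : ℕ) (r : ℝ) (T : Pl k) : eval 0 (ts L r T) = eval 0 T := by
  have := err_ts L T (y := 0) (ρ := 0) (by simp) zero_le_one
  rw [zero_pow (by omega), mul_zero, abs_nonpos_iff, sub_eq_zero] at this
  rw [eval_ts, smul_zero, this]

theorem cn_ts {L L' : ℕ} {r : ℝ} (h : L ≤ L') (hr : 1 ≤ r) (T : Pl k) :
    cn (ts L 1 T) ≤ r ^ L * cn (ts L' r⁻¹ T) := by
  simp only [ts, cn_wt, mul_sum, ← mul_assoc]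
  refine sum_le_sum fun α _ => mul_le_mul_of_nonneg_right ?_ (abs_nonneg _)
  by_cases e : ∑ i, α i ≤ L
  · rw [if_pos e, if_pos (e.trans h), one_pow, abs_one, abs_of_pos (by positivity), inv_pow,
      ← div_eq_mul_inv, one_le_div (by positivity)]
    exact pow_le_pow_right₀ hr e
  · rw [if_neg e, abs_zero]
    positivity

theorem cn_ts_le (L : ℕ) {r : ℝ} (h0 : 0 ≤ r) (hr : r ≤ 1) (T : Pl k) : cn (ts L r T) ≤ cn T := by
  rw [ts, cn_wt, cn]
  refine sum_le_sum fun α _ => mul_le_of_le_one_left (abs_nonneg _) ?_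
  split_ifs
  · rw [abs_of_nonneg (by positivity)]
    exact pow_le_one₀ h0 hr
  · simp

theorem coeff_ts_one {L : ℕ} (h : 1 ≤ L) (r : ℝ) (T : Pl k) (c : Fin k) :
    coeff (Finsupp.single c 1) (ts L r T) = r * coeff (Finsupp.single c 1) T := by
  have : ∑ i, Finsupp.single c 1 i = 1 := by simp [Finsupp.single_apply]
  rw [ts, coeff_wt, this, if_pos h, pow_one]

theorem val_le {T : Pl k} {y : V k} (h : ‖y‖ ≤ 1) : |eval y T| ≤ cn T := by
  simpa using kc.val T _ 1 y le_rfl le_rfl fun i => (norm_le_pi_norm y i).trans h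

/-- Translation by a vector of the unit ball. -/
theorem shift {L : ℕ} {H : Pl k} (hH : H.totalDegree ≤ L) {c : V k} (hc : ‖c‖ ≤ 1) :
    ∃ H' : Pl k, H'.totalDegree ≤ L ∧ cn H ≤ cn H' * 2 ^ L ∧ ∀ y, eval y H' = eval (y - c) H := by
  have d : ∀ (e : V k) i, (X i + C (e i) : Pl k).totalDegree ≤ 1 := fun e i =>
    (totalDegree_add _ _).trans (by simp)
  have d1 := kc.deg (fun i => X i + C ((-c) i)) H L 1 hH (d _)
  rw [mul_one] at d1
  have e1 : ∀ y, eval y (aeval (fun i => X i + C ((-c) i) : Fin k → Pl k) H) = eval (y - c) H :=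
    fun y => by
      rw [Pk.eval_aeval]
      exact congrArg (eval · H) (funext fun i => by simp [sub_eq_add_neg])
  refine ⟨_, d1, ?_, e1⟩
  refine le_trans (le_of_eq (congrArg cn (MvPolynomial.funext fun y => ?_)))
    (kc.comp (fun i => X i + C (c i) : Fin k → Pl k) _ L 2 d1 one_le_two fun i =>
      (kc.add _ _).trans ?_)
  · rw [Pk.eval_aeval, e1]
    exact congrArg (eval · H) (funext fun i => by simp)
  · rw [kc.var, kc.const]
    linarith [(norm_le_pi_norm c i).trans hc, Real.norm_eq_abs (c i)]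

/-- Coefficients are controlled by sublevel sets of mass at least `k0`. -/
def RM {Ω : Type} (Q : FP Ω) (u : Ω → V k) (G : Ω → Prop) (L : ℕ) (A k0 : ℝ) : Prop :=
  ∀ H : Pl k, H.totalDegree ≤ L → ∀ θ κ : ℝ, k0 ≤ κ →
    κ ≤ pb Q (fun v => G v ∧ |eval (u v) H| ≤ θ) → cn H ≤ A * κ⁻¹ ^ (k * L) * θ

theorem rm (k L : ℕ) : ∃ C : ℝ, 1 ≤ C ∧ ∀ {Ω : Type} (Q : FP Ω) (u : Ω → V k) (G : Ω → Prop)
    (c : V k) (D k0 : ℝ) (j : ℕ), 1 ≤ D → 0 < k0 → (∀ v, ‖u v‖ ≤ 1) → ‖c‖ ≤ 1 →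
    (∀ z, pb Q (fun v => G v ∧ fl j (u v) = z) ≤ D / (2 ^ j) ^ k) →
    C * D ^ (k * L) * k0⁻¹ ^ (k * L) ≤ 2 ^ j → RM Q (fun v => u v - c) G L (C * D ^ (k * L)) k0 := by
  obtain ⟨C, hC, h⟩ := remD k L
  have c1 : 1 ≤ C * C ^ (k * L) := one_le_mul_of_one_le_of_one_le hC (one_le_pow₀ hC)
  have c2 : (1 : ℝ) ≤ 2 ^ L := one_le_pow₀ one_le_two
  refine ⟨C * C ^ (k * L) * 2 ^ L, one_le_mul_of_one_le_of_one_le c1 c2,
    fun Q u G c D k0 j hD h0 hu hc hd hj H hH θ κ a b => ?_⟩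
  obtain ⟨H', d1, d2, d3⟩ := shift hH hc
  have hκ := h0.trans_le a
  have e : ∀ t : ℝ, C * (C * D * 1 ^ k / t) ^ (k * L) =
      C * C ^ (k * L) * D ^ (k * L) * t⁻¹ ^ (k * L) := fun t => by
    rw [one_pow, mul_one, div_eq_mul_inv, mul_pow, mul_pow]; ring
  have h1 := h Q u G H' 1 D θ κ j d1 le_rfl hD (fun v _ _ => hu v) hd hκ (by
    rw [one_pow, mul_one, e]
    have := le_mul_of_one_le_right (show 0 ≤ C * C ^ (k * L) by positivity) c2
    exact le_trans (by gcongr) hj) (by simpa only [d3] using b)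
  rw [e] at h1
  exact d2.trans ((mul_le_mul_of_nonneg_right h1 (by positivity)).trans_eq (by ring))

theorem RM.mono {Ω : Type} {Q : FP Ω} {u : Ω → V k} {G G' : Ω → Prop} {L : ℕ} {A A' k0 : ℝ}
    (h : RM Q u G L A k0) (h0 : 0 < k0) (e : ∀ v, G' v → G v) (e' : A ≤ A') : RM Q u G' L A' k0 :=
  fun H hH θ κ a b => by
  obtain ⟨v, -, hv⟩ := ex_of_pb ((h0.trans_le a).trans_le b)
  have h1 := (abs_nonneg _).trans hv.2
  have h2 := h0.trans_le a
  exact (h H hH θ κ a (b.trans (pb_mono fun v _ k => ⟨e v k.1, k.2⟩))).trans (by gcongr)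

end Pool.Agent.MP_5168f5_an.AN.Rl
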