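import Pool.Agent.MP_5168f5_an.AN.SpecP

/-! Kakeya sets in all dimensions: counting statements for the last step. -/

namespace Pool.Agent.MP_5168f5_an.AN.En

open H19 H17S H17F MvPolynomial Pk

/-- The derivative of a polynomial map. -/
noncomputable def dm {n : ℕ} (Φ : Fin n → MvPolynomial (Fin n) ℝ) (x : V n) :
    Matrix (Fin n) (Fin n) ℝ := Matrix.of fun i k => eval x (pderiv k (Φ i))

/-- The point of the tube of width `2^{-j}` around the line `(a, e)` with parameters `(t, ξ)`. -/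
noncomputable def tb {N : ℕ} (j : ℕ) (a e : V N) (t : ℝ) (ξ : V N) : V (N + 1) :=
  Fin.cons t (a + t • e + ((2 : ℝ) ^ j)⁻¹ • ξ)

/-- Few directions have a tube on which `Φ` is bounded and the Jacobian is somewhere large. -/
def DirCnt : Prop := ∀ N D : ℕ, ∃ C : ℝ, 1 ≤ C ∧
  ∀ (Φ : Fin (N + 1) → MvPolynomial (Fin (N + 1)) ℝ) (Λ lam : ℝ) (j : ℕ),
  (∀ i, (Φ i).totalDegree ≤ D) → 1 ≤ Λ → 0 < lam →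
  ∃ T : Finset (Z N), (T.card : ℝ) ≤ C * Λ ^ (N + 1) / lam * (2 ^ j) ^ N ∧
    ∀ a e : V N, ‖a‖ ≤ 1 → ‖e‖ ≤ 1 →
      (∀ (t : ℝ) (ξ : V N), 0 ≤ t → t ≤ 1 → ‖ξ‖ ≤ 5 → ∀ i, |eval (tb j a e t ξ) (Φ i)| ≤ Λ) →
      (∃ (t : ℝ) (ξ : V N), 0 ≤ t ∧ t ≤ 1 ∧ ‖ξ‖ ≤ 4 ∧ lam ≤ |(dm Φ (tb j a e t ξ)).det|) →
      fl j e ∈ T

/-- The number of cells near the linear image of a cube. -/
def LinCnt : Prop := ∀ (n : ℕ) (K : ℝ), 0 ≤ K → ∃ C : ℝ, 1 ≤ C ∧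
  ∀ (A : Matrix (Fin (n + 1)) (Fin (n + 1)) ℝ) (c : V (n + 1)) (b ρ R : ℕ),
  (∀ i k, |A i k| ≤ 2 ^ b) → ρ ≤ R + b →
  ∃ T : Finset (Z (n + 1)),
    (T.card : ℝ) ≤ C * max (|A.det| * (2 ^ R / 2 ^ ρ) ^ (n + 1)) ((2 ^ (R + b) / 2 ^ ρ) ^ n) ∧
    ∀ h x : V (n + 1), ‖h‖ ≤ 1 / 2 ^ ρ → ‖x - c - A.mulVec h‖ ≤ K / 2 ^ R → fl R x ∈ T

/-- The number of cells that meet the polynomial image of a cube. -/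
def ImgCnt : Prop := ∀ (n D : ℕ) (K : ℝ), 1 ≤ K → ∃ C : ℝ, 1 ≤ C ∧
  ∀ (Φ : Fin (n + 1) → MvPolynomial (Fin (n + 1)) ℝ) (lam : ℝ) (b ρ R : ℕ) (c : Z (n + 1)),
  (∀ i, (Φ i).totalDegree ≤ D ∧ cn (Φ i) ≤ 2 ^ b) → 0 ≤ lam → R + b ≤ 2 * ρ → ρ ≤ R + b →
  ∃ T : Finset (Z (n + 1)),
    (T.card : ℝ) ≤ C * max (lam * (2 ^ R / 2 ^ ρ) ^ (n + 1)) ((2 ^ (R + b) / 2 ^ ρ) ^ n) ∧
    ∀ x : V (n + 1), ‖x‖ ≤ K → fl ρ x = c → |(dm Φ x).det| ≤ lam →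
      fl R (fun i => eval x (Φ i)) ∈ T

def OfImgCnt : Prop := LinCnt → ImgCnt

end Pool.Agent.MP_5168f5_an.AN.En
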