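import Pool.Agent.MP_5168f5_an.AN.SpecE

/-! Kakeya sets in all dimensions: entropy statements for the last step. -/

namespace Pool.Agent.MP_5168f5_an.AN.En

open H19 H17S H17F Filter MvPolynomial Pk R4

/-- Lines `(a, e)` with a point of the tube of width `2^{-M}` whose parameters `(t, ξ)` are full
at every depth `A M`. -/
structure TS {N : ℕ} {Ω : ℕ → Type} (P : ∀ n, FP (Ω n)) (a e : ∀ n, Ω n → V N)
    (t : ∀ n, Ω n → ℝ) (ξ : ∀ n, Ω n → V N) (M : ℕ → ℕ) : Prop where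
  big : Big M
  bd : ∀ᶠ n in UF, ∀ ω ∈ (P n).S,
    ‖a n ω‖ ≤ 1 ∧ ‖e n ω‖ ≤ 1 ∧ 0 ≤ t n ω ∧ t n ω < 1 ∧ ‖ξ n ω‖ ≤ 4
  ds : ∀ᶠ n in UF, Fn (P n) (fun ω => (a n ω, e n ω)) fun ω => fl (M n) (e n ω)
  full : ∀ A : ℕ, Le M (fun n => (N + 1) * (A * M n : ℕ) * lg) fun n =>
    ch (P n) (fun ω => fl (A * M n) (Fin.cons (t n ω) (ξ n ω) : V (N + 1))) fun ω => (a n ω, e n ω)

/-- A uniform point in the cell of the point of the line. -/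
def Noise : Prop := ∀ (N : ℕ) (x : ℕ → Cfg N) (M : ℕ → ℕ), DS0 x M →
  ∃ (W : ℕ → Type) (Q : ∀ n, FP (W n)) (π : ∀ n, W n → (x n).Ω) (t : ∀ n, W n → ℝ)
    (ξ : ∀ n, W n → V N), (∀ n, Law (Q n) (π n) (x n).P id) ∧
    TS Q (fun n v => (x n).a (π n v)) (fun n v => (x n).e (π n v)) t ξ M ∧
    ∀ n, (∀ v, fl (M n) (tb (M n) ((x n).a (π n v)) ((x n).e (π n v)) (t n v) (ξ n v)) =
        Fin.cons (fl1 (M n) ((x n).z (π n v))) (fl (M n) ((x n).pt (π n v)))) ∧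
      mi (Q n) (π n) (fun v => tb (M n) ((x n).a (π n v)) ((x n).e (π n v)) (t n v) (ξ n v))
        (fun v => fl (M n) (tb (M n) ((x n).a (π n v)) ((x n).e (π n v)) (t n v) (ξ n v))) = 0

/-- Linear entropy persists on all refinements of an event. -/
def Her : Prop := ∀ {Ω α β : ℕ → Type} (P : ∀ n, FP (Ω n)) (F : ∀ n, Ω n → α n)
  (G : ∀ n, Ω n → β n) (M : ℕ → ℕ) (C : ℝ), Big M →
  (∀ᶠ n in UF, Det (P n) (F n) (G n) (Real.exp (C * M n))) →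
  (¬Sm M fun n => ch (P n) (F n) (G n)) → ∃ (μ : ℝ) (E : ∀ n, Ω n → Prop), 0 < μ ∧ Pos P E ∧
    (∀ n, Fn (P n) (E n) fun ω => (F n ω, G n ω)) ∧
    ∀ᶠ n in UF, ∀ (W : Type) (Q : FP W) (f : W → Ω n) (c : ℝ), K31.Dn c Q f (cE (P n) (E n)) →
      μ * M n - Real.log c ≤ ch Q (fun v => F n (f v)) fun v => G n (f v)

/-- The count of directions against the count of points. -/
def EndFin : Prop := ∀ (N D b R : ℕ) {Ω Γ : ℕ → Type} (P : ∀ n, FP (Ω n))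
  (a e : ∀ n, Ω n → V N) (t : ∀ n, Ω n → ℝ) (ξ : ∀ n, Ω n → V N) (M : ℕ → ℕ)
  (S : ∀ n, Ω n → Γ n) (Φ : ∀ n, Ω n → Fin (N + 1) → MvPolynomial (Fin (N + 1)) ℝ) (Λ : ℕ → ℝ)
  (μ : ℝ), (2 * N + 1) * b + 2 ≤ R → TS P a e t ξ M → Sub M Λ → 0 < μ →
  (∀ᶠ n in UF, Fn (P n) (Φ n) (S n) ∧ ∀ ω ∈ (P n).S, ∀ i,
    (Φ n ω i).totalDegree ≤ D ∧ cn (Φ n ω i) ≤ 2 ^ (b * M n)) →
  (Sm M fun n => ch (P n) (S n) fun ω => fl (M n) (tb (M n) (a n ω) (e n ω) (t n ω) (ξ n ω))) →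
  Whp P (fun n ω => ∀ (s : ℝ) (ζ : V N), 0 ≤ s → s ≤ 1 → ‖ζ‖ ≤ 5 →
    ∀ i, |eval (tb (M n) (a n ω) (e n ω) s ζ) (Φ n ω i)| ≤ Λ n) →
  (∀ E, Pos P E → Le M (fun n => μ * M n) fun n => ch (cE (P n) (E n))
    (fun ω => fl (M n) (e n ω)) fun ω => fl (M n) (tb (M n) (a n ω) (e n ω) (t n ω) (ξ n ω))) →
  (∀ E, Pos P E → Le M (fun n => (N + 1) * (R * M n : ℕ) * lg) fun n => ch (cE (P n) (E n))
    (fun ω => fl (R * M n) fun i => eval (tb (M n) (a n ω) (e n ω) (t n ω) (ξ n ω)) (Φ n ω i))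
    (S n)) → False

def OfEndFin : Prop := DirCnt → ImgCnt → EndFin

end Pool.Agent.MP_5168f5_an.AN.En
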