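import Pool.Agent.MP_5168f5_an.AN.SpecE2
import Pool.Agent.MP_5168f5_an.AN.Defs
import Pool.Agent.MP_5168f5_an.AN.A1Flr
import Pool.Agent.MP_5168f5_an.AN.PRem
import Pool.Agent.MP_5168f5_an.AN.S20Dn

/-! Kakeya sets in all dimensions: polynomial kinds, densities and entropies. -/

namespace Pool.Agent.MP_5168f5_an.AN.En

open H19 H17S H17F Filter MvPolynomial R4
open G39 (dl)
open Pk (cn)
open Nc (Pl ev)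

/-- Full entropy gives a density bound. -/
def ToFull : Prop := ∀ {N : ℕ} {Ω Λ : ℕ → Type} (P : ∀ n, FP (Ω n)) (M : ℕ → ℕ)
  (y : ∀ n, Ω n → V N) (A : ∀ n, Ω n → Λ n) (j : ℕ → ℕ) (K : ℝ), Big M →
  (∀ᶠ n in UF, ∀ ω ∈ (P n).S, ‖y n ω‖ ≤ K) →
  (Le M (fun n => N * j n * lg) fun n => ch (P n) (fun ω => fl (j n) (y n ω)) (A n)) →
  FullAt P M y A j

/-- A density bound gives full entropy on all events of positive probability. -/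
def OfFull : Prop := ∀ {N : ℕ} {Ω Λ : ℕ → Type} (P : ∀ n, FP (Ω n)) (M : ℕ → ℕ)
  (y : ∀ n, Ω n → V N) (A : ∀ n, Ω n → Λ n) (K : ℕ) (E : ∀ n, Ω n → Prop), Big M →
  (FullAt P M y A fun n => K * M n) → Pos P E →
  Le M (fun n => N * (K * M n : ℕ) * lg) fun n =>
    ch (cE (P n) (E n)) (fun ω => fl (K * M n) (y n ω)) (A n)

/-- The point is a polynomial of degree `D` in a full parameter. -/
structure PK {N k : ℕ} {Ω : ℕ → Type} (P : ∀ n, FP (Ω n)) (M : ℕ → ℕ) (x : ∀ n, Ω n → V N)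
    (κ : ∀ n, Kd k (Ω n)) (Ψ : ∀ n, (κ n).T → Fin N → Pl k) (D : ℕ) : Prop where
  big : Big M
  bd : Bdd P M fun n => (κ n).p
  den : Full P M (fun n => (κ n).p) fun n => (κ n).Z
  deg : ∀ n z i, (Ψ n z i).totalDegree ≤ D
  eq : Whp P fun n ω => x n ω = ev (Ψ n ((κ n).Z ω)) ((κ n).p ω)

/-- The coefficients are bounded. -/
def PKcn : Prop := ∀ {N k : ℕ} {Ω : ℕ → Type} (P : ∀ n, FP (Ω n)) (M : ℕ → ℕ)
  (x : ∀ n, Ω n → V N) (κ : ∀ n, Kd k (Ω n)) (Ψ : ∀ n, (κ n).T → Fin N → Pl k) (D : ℕ),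
  PK P M x κ Ψ D → Bdd P M x → (Gp P M fun n ω Γ => ∀ i, cn (Ψ n ((κ n).Z ω) i) ≤ Γ) ∧
    ∀ K : ℝ, G39.REM P x M (fun n => (κ n).Z) (k * D) K

/-- Jets of a polynomial kind. -/
def PKwh : Prop := ∀ {N k : ℕ} {Ω : ℕ → Type} (P : ∀ n, FP (Ω n)) (M : ℕ → ℕ)
  (x : ∀ n, Ω n → V N) (κ : ∀ n, Kd k (Ω n)) (Ψ : ∀ n, (κ n).T → Fin N → Pl k) (D m : ℕ),
  PK P M x κ Ψ D → (Gp P M fun n ω Γ => ∀ i, cn (Ψ n ((κ n).Z ω) i) ≤ Γ) →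
  (Gp P M fun n ω Γ => ∃ (r : Fin m → Fin N) (c : Fin m → Fin k), Γ⁻¹ ≤ |(Matrix.of fun a b =>
    eval ((κ n).p ω) (pderiv (c b) (Ψ n ((κ n).Z ω) (r a)))).det|) →
  ∀ j, Gd P M fun n => (κ n).Wh (P n) (x n) m j

/-- The floor of a polynomial kind. -/
def PKfl : Prop := ∀ {N k : ℕ} {Ω : ℕ → Type} (P : ∀ n, FP (Ω n)) (M : ℕ → ℕ)
  (x : ∀ n, Ω n → V N) (κ : ∀ n, Kd k (Ω n)) (Ψ : ∀ n, (κ n).T → Fin N → Pl k) (D : ℕ),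
  PK P M x κ Ψ D → (∀ E : ℕ, ∃ B : ℝ, ∀ᶠ n in UF, ∀ ω ∈ (P n).S, ∀ F : Pl N, F.totalDegree ≤ E →
    dl M B n * cn F ≤ cn (aeval (Ψ n ((κ n).Z ω)) F)) → A1.Floor P M x fun n => (κ n).Z

/-- Tubes persist on events of slowly decaying probability. -/
def TSlow : Prop := ∀ {N : ℕ} {Ω : ℕ → Type} (P : ∀ n, FP (Ω n)) (a e : ∀ n, Ω n → V N)
  (t : ∀ n, Ω n → ℝ) (ξ : ∀ n, Ω n → V N) (M : ℕ → ℕ), TS P a e t ξ M →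
  ∃ L : ℕ → ℝ, Tendsto L UF atTop ∧ Sm M L ∧ ∀ G : ∀ n, Ω n → Prop,
    (∀ᶠ n in UF, 1 ≤ L n * pb (P n) (G n)) → TS (fun n => cE (P n) (G n)) a e t ξ M

/-- The tube as a polynomial map of the parameters. -/
noncomputable def tbP {N : ℕ} (j : ℕ) (a e : V N) : Fin (N + 1) → Pl (N + 1) :=
  Fin.cons (X 0) fun i => C (a i) + C (e i) * X 0 + C ((2 : ℝ) ^ j)⁻¹ * X i.succ

/-- Algebra of the tube map. -/
structure TbA : Prop where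
  val : ∀ {N : ℕ} (j : ℕ) (a e : V N) (t : ℝ) (ξ : V N),
    ev (tbP j a e) (Fin.cons t ξ) = tb j a e t ξ
  deg : ∀ {N : ℕ} (j : ℕ) (a e : V N) (i : Fin (N + 1)), (tbP j a e i).totalDegree ≤ 1
  inv : ∀ {N : ℕ} (j E : ℕ) (a e : V N) (F : Pl (N + 1)), ‖a‖ ≤ 1 → ‖e‖ ≤ 1 → F.totalDegree ≤ E →
    cn F ≤ cn (aeval (tbP j a e) F) * (3 * 2 ^ j) ^ E
  bd : ∀ {N : ℕ} (j : ℕ) (a e : V N) (t : ℝ) (ξ : V N), ‖a‖ ≤ 1 → ‖e‖ ≤ 1 → 0 ≤ t → t < 1 →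
    ‖ξ‖ ≤ 4 → ‖tb j a e t ξ‖ ≤ 6 ∧ ‖(Fin.cons t ξ : V (N + 1))‖ ≤ 4

end Pool.Agent.MP_5168f5_an.AN.En
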