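import Pool.Agent.MP_5168f5_an.AN.LWin

/-! Kakeya sets in all dimensions: the parts of the robust projection theorem. -/

namespace Pool.Agent.MP_5168f5_an.AN.GP

open H19 H17S H17F R4 Filter MvPolynomial
open G39 (dl)
open Pk (cn)
open Nc (Pl ev)

/-- The norm of a small polynomial is a small polynomial of the frame. -/
def THD : Prop := ∀ N D E : ℕ, ∃ (E' k : ℕ) (A : ℝ), 1 ≤ A ∧ ∀ (Θ : Fin N → Pl N) (φ : Pl N) (μ : ℝ),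
  (∀ i, (Θ i).totalDegree ≤ D) → φ.totalDegree ≤ E → 0 < μ → μ ≤ 1 →
  ∃ h R : Pl N, h ≠ 0 ∧ h.totalDegree ≤ E' ∧ R.totalDegree ≤ E' ∧ ∀ (L : ℝ) (u y : V N), 1 ≤ L →
    ‖ev Θ u‖ ≤ L → 1 ≤ L * |eval u φ| → |eval u φ| ≤ L → |eval y R| ≤ L * |eval u R| →
    ‖ev Θ y‖ ≤ L → |eval y φ| ≤ μ ^ 2 → |eval (ev Θ y) h| ≤ A * L ^ k * μ * cn h

/-- A cell stays minimal for finer labels as long as its frame stays a frame. -/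
def TH : Prop := ∀ (Ω Λ : ℕ → Type) (β β' : Bool → ℕ → Type) (N D : ℕ) (P : ∀ n, FP (Ω n))
  (M : ℕ → ℕ) (x : ∀ n, Ω n → V N) (Z : ∀ b n, Ω n → β b n) (Z' : ∀ b n, Ω n → β' b n)
  (S : ∀ n, Ω n → Λ n) (Θ : ∀ n, Ω n → Fin N → Pl N), Big M → Cel P M x Z S Θ D → Com P Z' S →
  MIN P M (chs Θ x) Z' → CM P M x Z' S

/-- Steep windows are not heavy. -/
def SH (N mm : ℕ) : Prop := ∀ (Ω Λ Λ' : ℕ → Type) (k m : Bool → ℕ) (C E : ℕ) (η : ℝ)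
  (P : ∀ n, FP (Ω n)) (M : ℕ → ℕ) (x : ∀ n, Ω n → V N) (s : ∀ n, Sy k (Ω n)) (T : ∀ n, Ω n → Λ n)
  (Q : ∀ n, Ω n → Λ' n) (be : Bool → ∀ n, Ω n → ℕ), 0 < η → mm ≤ m true + m false →
  Sys P M x s C m → MIN P M x (lab s) → Com P (lab s) T → (∀ b, Few P M 0 (be b)) →
  CM P M x (hat (lab s) be) Q → FnE P T Q → DLe P M x Q M → DGe P M x Q E M →
  ¬Heavy P M x T M (un M η)

/-- A system that is heavy at all depths stays minimal after adding an index with few values. -/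
def UPL (N mm : ℕ) : Prop := ∀ (Ω Λ : ℕ → Type) (k m : Bool → ℕ) (C : ℕ) (c : ℝ)
  (P : ∀ n, FP (Ω n)) (M : ℕ → ℕ) (u : ∀ n, Ω n → V N) (s : ∀ n, Sy k (Ω n)) (T : ∀ n, Ω n → Λ n)
  (be : Bool → ∀ n, Ω n → ℕ), 0 < c → mm ≤ m true + m false → Sys P M u s C m →
  MIN P M u (lab s) → Com P (lab s) T → (∀ b, Few P M 0 (be b)) →
  (∀ g : ℚ≥0, Heavy P M u T (lev M g) (un M (c * g))) → MIN P M u (hat (lab s) be)

/-- Approximately polynomial kinds. -/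
def G7L : Prop := ∀ (Ω Λ : ℕ → Type) (β : Bool → ℕ → Type) (k : Bool → ℕ) (l J : ℕ)
  (P : ∀ n, FP (Ω n)) (M : ℕ → ℕ) (w : ∀ n, Ω n → V l) (Z : ∀ b n, Ω n → β b n)
  (p : ∀ b n, Ω n → V (k b)) (τ : ∀ b n, Ω n → Fin l → Pl (k b)) (A : ∀ n, Ω n → Λ n), THM l 0 →
  Big M → Bdd P M w → (∀ b, Bdd P M (p b)) → (∀ b, Full P M (p b) (Z b)) →
  (∀ b, FnE P (τ b) (Z b)) → (∀ b n ω i, (τ b n ω i).totalDegree ≤ J) →
  (∀ b (K : ℕ), Whp P fun n ω => ‖w n ω - ev (τ b n ω) (p b n ω)‖ ≤ dl M K n) →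
  MIN P M w Z → Com P Z A → Full P M w A

/-- The greedy cover. -/
def Grd : Prop := ∀ (Ω Λ I : Type) [Nonempty I] (P : FP Ω) (A : Ω → Λ) (ok : Λ → I → Prop)
  (B : I → Ω → Prop) (θ : ℝ), 0 < θ → ∃ (U : Ω → Prop) (ι : Ω → ℕ) (f : ℕ → Λ → I),
    (∀ ω ∈ P.S, U ω → θ * ι ω ≤ 1 ∧ ok (A ω) (f (ι ω) (A ω)) ∧ B (f (ι ω) (A ω)) ω) ∧
    ∀ ω ∈ P.S, ∀ i, ok (A ω) i → pb (cv P A (A ω)) (fun v => ¬U v ∧ B i v) ≤ θ

/-- The limit form of the projection theorem. -/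
def LIM (N mm : ℕ) : Prop := ∀ (Ω Λ : ℕ → Type) (k m : Bool → ℕ) (l C D E J : ℕ) (c : ℝ)
  (P : ∀ n, FP (Ω n)) (M : ℕ → ℕ) (x : ∀ n, Ω n → V N) (s : ∀ n, Sy k (Ω n)) (S : ∀ n, Ω n → Λ n)
  (Θ : ∀ n, Ω n → Fin N → Pl N) (be : ∀ n, Ω n → ℕ) (w : ∀ n, Ω n → Fin l → Pl N)
  (τ : ∀ b n, Ω n → Fin N → Pl (k b)), THM l 0 → 0 < c → mm ≤ m true + m false →
  Sys P M (chs Θ x) s C m → Cel P M x (lab s) S Θ D →
  (∀ g : ℚ≥0, Heavy P M (chs Θ x) S (lev M g) (un M (c * g))) → Few P M 0 be →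
  FnE P w (fun n ω => (be n ω, S n ω)) → (∀ n ω i, (w n ω i).totalDegree ≤ E) →
  (Gp P M fun n ω Γ => ∀ i, nc (P n) (x n) (S n) ω (w n ω i) ≤ Γ) →
  (∀ E' : ℕ, Gp P M fun n ω Γ => ∀ H : Pl l, H.totalDegree ≤ E' →
    cn H ≤ Γ * nc (P n) (x n) (S n) ω (aeval (w n ω) H)) →
  (∀ b, FnE P (τ b) (lab s b)) → (∀ b n ω i, (τ b n ω i).totalDegree ≤ J) →
  (∀ b (K : ℕ), Whp P fun n ω => ∀ F : Pl N, F.totalDegree ≤ E →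
    |eval (x n ω) F - eval ((s n b).p ω) (aeval (τ b n ω) F)| ≤
      dl M K n * nc (P n) (x n) (S n) ω F) →
  Full P M (chs w x) fun n ω => (be n ω, S n ω)

def OfTH : Prop := THD → TH
def OfSH : Prop := ∀ N mm, SteepF N mm → SH N mm
def OfUPL : Prop := KOp → NZs → Nsy → UDc → ∀ d mm, SH (d + 1) mm → UPL (d + 1) mm
def OfG7L : Prop := NZs → G7L
def OfLIM : Prop := KOp → TH → G7L → ∀ N mm, UPL N mm → LIM N mm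
def OfG7P : Prop := Grd → (∀ d mm, SteepF (d + 1) mm → LIM (d + 1) mm) → LC.SG7P

theorem sg7p (ko : KOp) (nz : NZs) (ns : Nsy) (ud : UDc) (h1 : THD) (h2 : OfTH) (h3 : OfSH)
    (h4 : OfUPL) (h5 : OfG7L) (h6 : OfLIM) (h7 : Grd) (h8 : OfG7P) : LC.SG7P :=
  h8 h7 fun d mm st => h6 ko (h2 h1) (h5 nz) _ _ (h4 ko nz ns ud d mm (h3 _ _ st))

end Pool.Agent.MP_5168f5_an.AN.GP
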