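import Pool.Agent.MP_5168f5_an.AN.SpecS0
import Pool.Agent.MP_5168f5_an.AN.Defs
import Pool.Agent.MP_5168f5_an.AN.S20Dn
import Pool.Agent.MP_5168f5_an.AN.K3
import Pool.Agent.MP_5168f5_an.AN.PAll

/-! Kakeya sets in all dimensions: steep windows, independent coordinates and generic points. -/

namespace Pool.Agent.MP_5168f5_an.AN.St

open H19 H17S H17F Filter MvPolynomial
open G39 (nu RG dl REM Nm)
open Pk (cn mons)
open Nc (Pl ev jac NiceAt Bas)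

section Defs

variable {N d i : ℕ} {Ω Λ T : ℕ → Type} {β : Bool → ℕ → Type}

/-- The labels together with an index. -/
abbrev hat (Z : ∀ b n, Ω n → β b n) (ι : Bool → ∀ n, Ω n → ℕ) : ∀ b n, Ω n → ℕ × β b n :=
  fun b n ω => (ι b n ω, Z b n ω)

/-- Some coordinates of the point. -/
abbrev sel (x : ∀ n, Ω n → V N) (e : Fin d → Fin N) : ∀ n, Ω n → V d := fun n ω a => x n ω (e a)

/-- A point and a copy with the same label. -/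
noncomputable abbrev pr (P : ∀ n, FP (Ω n)) (Z : ∀ n, Ω n → Λ n) : ∀ n, FP (Ω n × Ω n) :=
  fun n => glue (P n) (P n) (Z n) (Z n)

variable (P : ∀ n, FP (Ω n)) (M : ℕ → ℕ)

/-- Sublevel sets of polynomials are small in the typical cell of `A`. -/
def Rich (y : ∀ n, Ω n → V d) (A : ∀ n, Ω n → Λ n) : Prop :=
  ∀ (E : ℕ) (c ε : ℝ), 0 < c → 0 < ε → Whp P fun n ω => ∀ F : Pl d, F.totalDegree ≤ E →
    pb (cv (P n) (A n) (A n ω)) (fun v => |eval (y n v) F| < dl M c n * cn F) ≤ ε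

/-- `H` is far from all products of polynomials of smaller degree. -/
def Irr (E : ℕ) (Γ : ℝ) (H : Pl d) : Prop :=
  ∀ A B : Pl d, A.totalDegree < E → B.totalDegree < E → 1 ≤ Γ * cn (H - A * B)

/-- A common thin relation of minimal degree. -/
def Th (y : ∀ n, Ω n → V (i + 1)) (Z : ∀ b n, Ω n → β b n) : Prop :=
  ∃ (E : ℕ) (m : Fin (i + 1) →₀ ℕ) (c : ℝ) (F : ∀ b n, β b n → Pl (i + 1)), 0 < c ∧
    Gp P M fun n ω Γ => F true n (Z true n ω) = F false n (Z false n ω) ∧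
      Nm E m (F true n (Z true n ω)) ∧ |eval (y n ω) (F true n (Z true n ω))| ≤ dl M c n ∧
      Γ⁻¹ ≤ |eval (y n ω) (pderiv 0 (F true n (Z true n ω)))| ∧ Irr E Γ (F true n (Z true n ω))

/-- `y` is a generic point for the norms `ν` in the context `q`. -/
structure GP (y : ∀ n, Ω n → V d) (q : ∀ n, Ω n → Λ n) (ν : ∀ n, Ω n → Pl d → ℝ) : Prop where
  big : Big M
  fn : FnE P ν q
  up : ∀ E, Gp P M fun n ω Γ => ∀ F : Pl d, F.totalDegree ≤ E → |eval (y n ω) F| ≤ Γ * ν n ω F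
  dn : ∀ (E : ℕ) (c : ℝ) (F : ∀ n, Ω n → Pl d), 0 < c → FnE P F q →
    (∀ n ω, (F n ω).totalDegree ≤ E) →
    Whp P fun n ω => dl M c n * ν n ω (F n ω) ≤ |eval (y n ω) (F n ω)|

/-- `Θ` is a frame for the norms `ν` in the context `q`. -/
structure FN (q : ∀ n, Ω n → Λ n) (ν : ∀ n, Ω n → Pl d → ℝ) (Θ : ∀ n, Ω n → Fin d → Pl d)
    (D : ℕ) : Prop where
  fn : FnE P Θ q
  deg : ∀ n ω j, (Θ n ω j).totalDegree ≤ D
  le : Gp P M fun n ω Γ => ∀ j, ν n ω (Θ n ω j) ≤ Γ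
  ind : ∀ (E : ℕ) (c : ℝ) (H : ∀ n, Ω n → Pl d), 0 < c → FnE P H q →
    (∀ n ω, (H n ω).totalDegree ≤ E) →
    Whp P fun n ω => dl M c n * cn (H n ω) ≤ ν n ω (aeval (Θ n ω) (H n ω))
  zero : ∀ n ω, ν n ω 0 = 0
  bas : ∀ E, Whp P fun n ω => Bas (ν n ω) E (mons (Fin d) E).card

end Defs

/-! ### Independent coordinates -/

/-- Full variables are rich. -/
structure FR : Prop where
  rich : ∀ {d : ℕ} {Ω Λ : ℕ → Type} (P : ∀ n, FP (Ω n)) (M t : ℕ → ℕ) (y : ∀ n, Ω n → V d)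
    (A : ∀ n, Ω n → Λ n) (a : ℝ), Big M → Bdd P M y → 0 < a → (∀ᶠ n in UF, a * M n ≤ t n) →
    FullAt P M y A t → Rich P M y A
  min : ∀ {d : ℕ} {Ω : ℕ → Type} {β : Bool → ℕ → Type} (P : ∀ n, FP (Ω n)) (M : ℕ → ℕ)
    (y : ∀ n, Ω n → V d) (Z : ∀ b n, Ω n → β b n) (b : Bool), Rich P M y (Z b) → MIN P M y Z
  ex : ∀ {d : ℕ} {Ω Λ : ℕ → Type} (P : ∀ n, FP (Ω n)) (M : ℕ → ℕ) (y : ∀ n, Ω n → V d)
    (A : ∀ n, Ω n → Λ n) (G : ∀ n, Ω n → Prop), Rich P M y A → Whp P G →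
    ∃ k : ℕ → ℕ, Big k ∧ Gp P M fun n ω Γ => ∀ R : Pl d, R.totalDegree ≤ k n →
      ∃ v ∈ (P n).S, G n v ∧ A n v = A n ω ∧ cn R ≤ Γ * |eval (y n v) R|

/-- A relation of minimal degree. -/
def MinP : Prop := ∀ {i : ℕ} {Ω : ℕ → Type} {β : Bool → ℕ → Type} (P : ∀ n, FP (Ω n))
  (M : ℕ → ℕ) (y : ∀ n, Ω n → V (i + 1)) (Z : ∀ b n, Ω n → β b n), Big M → Bdd P M y →
  MIN P M (sel y Fin.succ) Z → ¬MIN P M y Z →
  ∃ G : ∀ n, Ω n → Prop, Pos P G ∧ Th (fun n => cE (P n) (G n)) M y Z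

/-- Two relations that are thin on a rich set are close. -/
def Clo : Prop := ∀ (i E : ℕ) (m : Fin (i + 1) →₀ ℕ) (M k : ℕ → ℕ) (Γ : ℕ → ℝ) (c₀ : ℝ), Big M →
  Big k → Sub M Γ → 0 < c₀ → ∃ c : ℝ, 0 < c ∧ ∀ᶠ n in UF, ∀ (H H' : Pl (i + 1))
    (S : Set (V (i + 1))), Nm E m H → Nm E m H' → Irr E (Γ n) H →
    (∀ y ∈ S, ‖y‖ ≤ Γ n ∧ |eval y H| ≤ dl M c₀ n ∧ |eval y H'| ≤ dl M c₀ n) →
    (∀ R : Pl i, R.totalDegree ≤ k n → ∃ y ∈ S, cn R ≤ Γ n * |eval (fun a => y a.succ) R|) →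
    ∀ m', |coeff m' H - coeff m' H'| ≤ dl M c n

/-- If all other coordinates are algebraic over the coordinates `e`, these are full. -/
def CL : Prop := ∀ {N i : ℕ} {Ω : ℕ → Type} {β : Bool → ℕ → Type} (P : ∀ n, FP (Ω n))
  (M : ℕ → ℕ) (x : ∀ n, Ω n → V N) (Z : ∀ b n, Ω n → β b n) (e e' : Fin i → Fin N), Big M →
  Bdd P M x → (∀ c, c ∉ Set.range e → Th P M (sel x (Fin.cons c e : Fin (i + 1) → Fin N)) Z) →
  Full P M (sel x e') (Z false) → ∃ (a : ℝ) (t : ℕ → ℕ), 0 < a ∧ (∀ᶠ n in UF, a * M n ≤ t n) ∧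
    FullAt P M (sel x e) (Z false) t

/-- A bound on the part of a fibre with a given index holds on the whole fibre. -/
def TR : Prop := ∀ {N : ℕ} {Ω Λ : ℕ → Type} (P : ∀ n, FP (Ω n)) (M : ℕ → ℕ)
  (x : ∀ n, Ω n → V N) (Z : ∀ n, Ω n → Λ n) (ι : ∀ n, Ω n → ℕ) (G₀ : ∀ n, Ω n → Prop) (C E : ℕ),
  Big M → REM P x M Z C 1 → Few P M 0 ι → Whp P G₀ → Gd P M fun n G Γ =>
    ∀ ω ∈ (P n).S, G ω → ∀ v ∈ (P n).S, G v → Z n v = Z n ω → ∀ (F : Pl N) (θ : ℝ),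
      F.totalDegree ≤ E → (∀ u ∈ (P n).S, G₀ n u → Z n u = Z n ω → ι n u = ι n ω →
        |eval (x n u) F| ≤ θ) → |eval (x n v) F| ≤ Γ * θ

/-- A thin polynomial that both labels know approximately contradicts minimality. -/
structure Lab : Prop where
  lab : ∀ {d : ℕ} {Ω : ℕ → Type} {β : Bool → ℕ → Type} (P : ∀ n, FP (Ω n)) (M : ℕ → ℕ)
    (y : ∀ n, Ω n → V d) (Z : ∀ b n, Ω n → β b n) (H : ∀ n, Ω n → Pl d) (G : ∀ n, Ω n → Prop)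
    (E : ℕ) (m : Fin d →₀ ℕ) (c : ℝ), Big M → Bdd P M y → 0 < c → Whp P G →
    (∀ᶠ n in UF, ∀ ω ∈ (P n).S, G n ω → Nm E m (H n ω) ∧ |eval (y n ω) (H n ω)| ≤ dl M c n ∧
      ∀ b, ∀ v ∈ (P n).S, G n v → Z b n v = Z b n ω →
        ∀ m', |coeff m' (H n ω) - coeff m' (H n v)| ≤ dl M c n) → ¬MIN P M y Z
  sel : ∀ {N d : ℕ} {Ω : ℕ → Type} {β : Bool → ℕ → Type} (P : ∀ n, FP (Ω n)) (M : ℕ → ℕ)
    (x : ∀ n, Ω n → V N) (Z : ∀ b n, Ω n → β b n) (e : Fin d → Fin N), Function.Injective e →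
    MIN P M x Z → MIN P M (sel x e) Z

/-- A thin relation over rich coordinates contradicts minimality. -/
def Fin3 : Prop := ∀ {N i : ℕ} {Ω : ℕ → Type} {β : Bool → ℕ → Type} (P : ∀ n, FP (Ω n))
  (M : ℕ → ℕ) (x : ∀ n, Ω n → V N) (Z : ∀ b n, Ω n → β b n) (ι : Bool → ∀ n, Ω n → ℕ)
  (e : Fin (i + 1) → Fin N) (C : ℕ), Big M → Bdd P M x → Function.Injective e →
  (∀ b, REM P x M (Z b) C 1) → (∀ b, Few P M 0 (ι b)) →
  (∀ b, Rich P M (sel x fun a : Fin i => e a.succ) (Z b)) → Th P M (sel x e) (hat Z ι) →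
  ¬MIN P M x Z

/-! ### Generic points -/

/-- Generic points are nice. -/
def NiG : Prop := ∀ {d : ℕ} {Ω Λ : ℕ → Type} (P : ∀ n, FP (Ω n)) (M : ℕ → ℕ)
  (y : ∀ n, Ω n → V d) (q : ∀ n, Ω n → Λ n) (ν : ∀ n, Ω n → Pl d → ℝ)
  (Θ : ∀ n, Ω n → Fin d → Pl d) (D : ℕ), GP P M y q ν → FN P M q ν Θ D → ∀ E K : ℕ,
  Gp P M fun n ω Γ => ‖ev (Θ n ω) (y n ω)‖ ≤ Γ ∧ ∃ σ, NiceAt (Θ n ω) (ν n ω) D E K Γ (y n ω) σ

/-- The point of a minimal cell is generic; a frame of the cell is a frame for its norm. -/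
structure Own : Prop where
  gp : ∀ {N : ℕ} {Ω Λ : ℕ → Type} {β : Bool → ℕ → Type} (P : ∀ n, FP (Ω n)) (M : ℕ → ℕ)
    (x : ∀ n, Ω n → V N) (Z : ∀ b n, Ω n → β b n) (Q : ∀ n, Ω n → Λ n), Big M → CM P M x Z Q →
    GP P M x Q fun n => nc (P n) (x n) (Q n)
  fn : ∀ {N : ℕ} {Ω Λ : ℕ → Type} {β : Bool → ℕ → Type} (P : ∀ n, FP (Ω n)) (M : ℕ → ℕ)
    (x : ∀ n, Ω n → V N) (Z : ∀ b n, Ω n → β b n) (Q : ∀ n, Ω n → Λ n)
    (Θ : ∀ n, Ω n → Fin N → Pl N) (D : ℕ), Big M → Cel P M x Z Q Θ D → NZ P x Q →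
    FN P M Q (fun n => nc (P n) (x n) (Q n)) Θ D

/-- A point is generic for the cell of its copy. -/
structure Cop : Prop where
  gp : ∀ {N : ℕ} {Ω Λ Λ' : ℕ → Type} (P : ∀ n, FP (Ω n)) (M : ℕ → ℕ) (x : ∀ n, Ω n → V N)
    (Z : ∀ n, Ω n → Λ' n) (ι : ∀ n, Ω n → ℕ) (Q : ∀ n, Ω n → Λ n) (C : ℕ),
    REM P x M Z C 1 → Few P M 0 ι → FnE P Q (fun n ω => (ι n ω, Z n ω)) →
    GP P M x Q (fun n => nc (P n) (x n) (Q n)) →
    GP (pr P Z) M (fun n v => x n v.1) (fun n v => Q n v.2) fun n v => nc (P n) (x n) (Q n) v.2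
  fn : ∀ {N : ℕ} {Ω Λ Λ' : ℕ → Type} (P : ∀ n, FP (Ω n)) (M : ℕ → ℕ) (Z : ∀ n, Ω n → Λ' n)
    (Q : ∀ n, Ω n → Λ n) (ν : ∀ n, Ω n → Pl N → ℝ) (Θ : ∀ n, Ω n → Fin N → Pl N) (D : ℕ),
    FN P M Q ν Θ D →
    FN (pr P Z) M (fun n v => Q n v.2) (fun n v => ν n v.2) (fun n v => Θ n v.2) D

/-- The Remez inequality for the cell of the copy. -/
def RemP : Prop := ∀ {N : ℕ} {Ω Λ Λ' : ℕ → Type} (P : ∀ n, FP (Ω n)) (M : ℕ → ℕ)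
  (x : ∀ n, Ω n → V N) (Z : ∀ n, Ω n → Λ' n) (ι : ∀ n, Ω n → ℕ) (Q : ∀ n, Ω n → Λ n) (C C' : ℕ),
  Big M → (∀ K : ℕ, REM P x M Z C K) → (∀ K : ℕ, REM P x M Q C' K) → Few P M 0 ι →
  FnE P Q (fun n ω => (ι n ω, Z n ω)) →
  ∀ K : ℕ, REM (pr P Z) (fun n v => x n v.1) M (fun n v => Q n v.2) (C + C') K

/-- Jets of the point as a function of the frame. -/
def WhG : Prop := ∀ {d m : ℕ} {Ω Λ : ℕ → Type} (P : ∀ n, FP (Ω n)) (M : ℕ → ℕ)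
  (y : ∀ n, Ω n → V d) (q : ∀ n, Ω n → Λ n) (ν : ∀ n, Ω n → Pl d → ℝ)
  (Θ : ∀ n, Ω n → Fin d → Pl d) (D : ℕ) (e f : Fin m → Fin d), GP P M y q ν → FN P M q ν Θ D →
  Bdd P M y → Function.Injective e → (∀ n ω a, Θ n ω (f a) = X (e a)) →
  ∃ W : ∀ n, Ω n → ℕ, Few P M 0 W ∧ ∀ j, Gd P M fun n =>
    (⟨Λ n, q n, W n, cht (Θ n) (y n)⟩ : Kd d (Ω n)).Wh (P n) (y n) m j

def OfMinP : Prop := Der0 → MinP
def OfCL : Prop := Clus → CL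
def OfFin3 : Prop := FR → Clo → TR → Lab → Fin3
def OfCop : Prop := TR → Cop
def OfRemP : Prop := TR → RemP
def OfWhG : Prop := Sh → Ty → NiG → WhG

end Pool.Agent.MP_5168f5_an.AN.St
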