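import Pool.Agent.MP_5168f5_an.AN.G3
import Pool.Agent.MP_5168f5_an.AN.G39Gen
import Pool.Agent.MP_5168f5_an.AN.S20Det

/-! Kakeya sets in all dimensions: deterministic statements for steep windows. -/

namespace Pool.Agent.MP_5168f5_an.AN.St

open H19 H17S H17F MvPolynomial G39 Pk Nc Filter

/-- Few cells contain a point where `F` is small and the derivative in the first variable is
large, over a given cell of the other variables. -/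
def Clus : Prop := ∀ i E : ℕ, ∃ (C : ℝ) (e : ℕ), 1 ≤ C ∧
  ∀ (F : MvPolynomial (Fin (i + 1)) ℝ) (Γ : ℝ) (t : ℕ) (c : Fin i → ℤ), F.totalDegree ≤ E →
  cn F ≤ Γ → 1 ≤ Γ → C * Γ ^ e ≤ 2 ^ t → ∃ T : Finset ℤ, (T.card : ℝ) ≤ C * Γ ^ e ∧
    ∀ y : Fin (i + 1) → ℝ, ‖y‖ ≤ Γ → flv t (Fin.tail y) = c → |eval y F| ≤ Γ / 2 ^ t →
      Γ⁻¹ ≤ |eval y (pderiv 0 F)| → fl1 t (y 0) ∈ T

/-- Few cells of one coordinate map to a given cell, if the derivative is large. -/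
def Pre : Prop := ∀ E : ℕ, ∃ C : ℝ, 1 ≤ C ∧
  ∀ (d : ℕ) (F : MvPolynomial (Fin d) ℝ) (b : Fin d) (y₀ : Fin d → ℝ) (Γ : ℝ) (s t : ℕ) (c : ℤ),
  F.totalDegree ≤ E → 1 ≤ Γ → ∃ T : Finset ℤ, (T.card : ℝ) ≤ C * Γ ∧
    ∀ y : Fin d → ℝ, (∀ i, i ≠ b → y i = y₀ i) → fl1 t (eval y F) = c →
      2 ^ s ≤ Γ * |eval y (pderiv b F)| → fl1 (s + t) (y b) ∈ T

/-- Nice points with the same index lie on one sheet. -/
def Sh : Prop := ∀ n D : ℕ, ∃ C : ℝ, 1 ≤ C ∧ ∀ (Φ : Fin n → Nc.Pl n) (ν : Nc.Pl n → ℝ) (E K : ℕ)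
  (Λ : ℝ), 1 ≤ Λ → ∃ W : V n → ℕ, ∀ y, ‖Nc.ev Φ y‖ ≤ Λ → (∃ σ, NiceAt Φ ν D E K Λ y σ) →
    (W y : ℝ) ≤ C * Λ ^ (2 * n) ∧ ∀ y', ‖Nc.ev Φ y'‖ ≤ Λ → (∃ σ, NiceAt Φ ν D E K Λ y' σ) →
      W y = W y' → ∀ F : Nc.Pl n, F.totalDegree ≤ E → ∀ k, k + 1 ≤ K →
        |eval y' F - eval (Nc.ev Φ y' - Nc.ev Φ y) (tay (fun k w => dW Φ F k w y) 0 k)| ≤
          Λ * ν F * (n * ‖Nc.ev Φ y' - Nc.ev Φ y‖) ^ (k + 1)

/-- The coefficients of the Taylor polynomial. -/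
def Ty : Prop := ∀ n K : ℕ, ∃ C : ℝ, 1 ≤ C ∧ ∀ (c : (k : ℕ) → (Fin k → Fin n) → ℝ) (B : ℝ),
  (∀ k ≤ K, ∀ w, |c k w| ≤ B) → cn (tay c 0 K) ≤ C * B ∧ eval 0 (tay c 0 K) = c 0 default ∧
    (1 ≤ K → ∀ i, eval 0 (pderiv i (tay c 0 K)) = c 1 fun _ => i)

/-- A polynomial with small derivative in the first variable almost depends on the others. -/
def Der0 : Prop := ∀ (i E : ℕ) (H : MvPolynomial (Fin (i + 1)) ℝ), H.totalDegree ≤ E →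
  ∃ R : MvPolynomial (Fin i) ℝ, R.totalDegree ≤ E ∧ cn (H - rename Fin.succ R) ≤ cn (pderiv 0 H) ∧
    cn H ≤ cn R + cn (pderiv 0 H)

end Pool.Agent.MP_5168f5_an.AN.St
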