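import Pool.Agent.MP_5168f5_an.AN.SpecS2
import Pool.Agent.MP_5168f5_an.AN.Api2
import Pool.Agent.MP_5168f5_an.AN.S20Nz2
import Pool.Agent.MP_5168f5_an.AN.SpecE3
import Pool.Agent.MP_5168f5_an.AN.VG

/-! Kakeya sets in all dimensions: steep windows, lateral fullness. -/

namespace Pool.Agent.MP_5168f5_an.AN.St

open H19 H17S H17F R4 Filter MvPolynomial
open G39 (nu RG dl REM Nm)
open Pk (cn mons)
open Nc (Pl ev jac NiceAt Bas)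

section Defs

variable {d : ℕ} {Ω Λ : ℕ → Type}

/-- The Remez inequality from `y` to `y'` in one space. -/
def XG {W β : Type} (P : FP W) (y y' : W → V d) (Z : W → β) (E C : ℕ) (k0 : ℝ) (G : W → Prop)
    (Γ : ℝ) : Prop := ∀ ω ∈ P.S, G ω → ∀ F : Pl d, F.totalDegree ≤ E → ∀ θ κ : ℝ, k0 ≤ κ →
  κ ≤ pb (cv P Z (Z ω)) (fun v => G v ∧ |eval (y v) F| ≤ θ) →
  |eval (y' ω) F| ≤ Γ * κ⁻¹ ^ (C * E) * θ

/-- The Remez inequality from `y` to `y'`. -/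
def XR (P : ∀ n, FP (Ω n)) (M : ℕ → ℕ) (y y' : ∀ n, Ω n → V d) (Z : ∀ n, Ω n → Λ n) (C : ℕ) :
    Prop := ∀ K E : ℕ, Gd P M fun n => XG (P n) (y n) (y' n) (Z n) E C (dl M K n)

/-- The kind whose pieces are the cells of level `h` of `y`. -/
noncomputable abbrev ptN (y : ∀ n, Ω n → V d) (A : ∀ n, Ω n → Λ n) (J h : ℕ → ℕ) (n : ℕ) :
    Kd d (NΩ Ω d J n) :=
  ⟨H17S.Z d × Λ n, fun v => (fl (h n) (y n v.1), A n v.1), fun _ => 0,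
    fun v => fr (h n) (y n v.1) + gp v.2⟩

end Defs

/-- The Remez inequality between a point and its copy, in a chart read from the copy. -/
def XRa : Prop := ∀ {N d : ℕ} {Ω Λ : ℕ → Type} (P : ∀ n, FP (Ω n)) (M : ℕ → ℕ)
  (x : ∀ n, Ω n → V N) (Z : ∀ n, Ω n → Λ n) (ι : ∀ n, Ω n → ℕ) (Θ : ∀ n, Ω n → Fin d → Pl N)
  (C D : ℕ), Big M → (∀ K : ℕ, REM P x M Z C K) → Few P M 0 ι →
  FnE P Θ (fun n ω => (ι n ω, Z n ω)) → (∀ n ω i, (Θ n ω i).totalDegree ≤ D) →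
  XR (pr P Z) M (fun n v => ev (Θ n v.2) (x n v.1)) (fun n v => ev (Θ n v.2) (x n v.2))
    (fun n v => (ι n v.2, Z n v.1)) (C * D) ∧
  XR (pr P Z) M (fun n v => ev (Θ n v.2) (x n v.2)) (fun n v => ev (Θ n v.2) (x n v.1))
    (fun n v => (ι n v.2, Z n v.1)) (C * D)

/-- Conditioning and noise. -/
structure XRb : Prop where
  cE : ∀ {d : ℕ} {Ω Λ : ℕ → Type} (P : ∀ n, FP (Ω n)) (M : ℕ → ℕ) (y y' : ∀ n, Ω n → V d)
    (Z : ∀ n, Ω n → Λ n) (C : ℕ) (G : ∀ n, Ω n → Prop), Big M → Pos P G → XR P M y y' Z C →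
    XR (fun n => cE (P n) (G n)) M y y' Z C
  cf : ∀ {d : ℕ} {Ω Λ : ℕ → Type} (M : ℕ → ℕ) (y y' : ∀ n, Ω n → V d) (Z : ∀ n, Ω n → Λ n) (C : ℕ),
    CF fun P : ∀ n, FP (Ω n) => XR P M y y' Z C
  nz : ∀ {d : ℕ} {Ω Λ : ℕ → Type} (P : ∀ n, FP (Ω n)) (M J h : ℕ → ℕ) (y y' : ∀ n, Ω n → V d)
    (Z : ∀ n, Ω n → Λ n) (C : ℕ), Big M → Fine M J → XR P M y y' Z C →
    XR (NP P d J) M (blurs (pl (Nπ Ω d J) y) (Nξ Ω d J) h) (blurs (pl (Nπ Ω d J) y') (Nξ Ω d J) h)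
      (pl (Nπ Ω d J) Z) (C + d)

/-- Generic points are transferred by the two Remez inequalities. -/
def XT : Prop := ∀ {d : ℕ} {Ω Λ Λ' : ℕ → Type} (P : ∀ n, FP (Ω n)) (M : ℕ → ℕ)
  (y y' : ∀ n, Ω n → V d) (Z : ∀ n, Ω n → Λ n) (S : ∀ n, Ω n → Λ' n) (ν : ∀ n, Ω n → Pl d → ℝ)
  (C : ℕ), XR P M y y' Z C → XR P M y' y Z C → FnE P S Z → GP P M y S ν → GP P M y' S ν

/-- Noise: the point kind, and fullness at all depths. -/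
structure PtK : Prop where
  kd : ∀ {d : ℕ} {Ω Λ : ℕ → Type} (P : ∀ n, FP (Ω n)) (M J h : ℕ → ℕ) (y : ∀ n, Ω n → V d)
    (A : ∀ n, Ω n → Λ n), Big M → Fine M J → Bdd P M y →
    Kind (NP P d J) M (blurs (pl (Nπ Ω d J) y) (Nξ Ω d J) h) (ptN y A J h) d 0
  full : ∀ {d : ℕ} {Ω Λ : ℕ → Type} (P : ∀ n, FP (Ω n)) (M J h : ℕ → ℕ) (y : ∀ n, Ω n → V d)
    (A : ∀ n, Ω n → Λ n), Big M → Fine M J → Lin M h → FullAt P M y A h →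
    Full (NP P d J) M (blurs (pl (Nπ Ω d J) y) (Nξ Ω d J) h) (pl (Nπ Ω d J) A)

/-- A filled cell that is read from the cell of the point. -/
def LatE : Prop := ∀ {d : ℕ} {Ω Λ Λ' : ℕ → Type} {β : Bool → ℕ → Type} (P : ∀ n, FP (Ω n))
  (M h : ℕ → ℕ) (y₀ y y' : ∀ n, Ω n → V d) (Z : ∀ b n, Ω n → β b n) (q : ∀ n, Ω n → Λ n)
  (S : ∀ n, Ω n → Λ' n) (Ψ : ∀ n, Ω n → Fin d → Pl d) (D : ℕ), Big M → Lin M h →
  Cel P M y Z S Ψ D → Sure P M y → Fat P M y S → Full P M (chs Ψ y) S →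
  GP P M y' S (fun n => nc (P n) (y n) (S n)) → Full P M y' q → FnE P q S →
  FnE P S (fun n ω => (fl (h n) (y₀ n ω), q n ω)) → Near P M y y₀ h → FullAt P M y₀ q h

def OfPtK : Prop := En.PKcn → En.PKwh → PtK
def OfLatE : Prop := Cel2 → Own → NiG → LatE

end Pool.Agent.MP_5168f5_an.AN.St
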