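import Pool.Agent.MP_5168f5_an.AN.G3
import Pool.Agent.MP_5168f5_an.AN.PMul
import Pool.Agent.MP_5168f5_an.AN.G39Ovl

/-! Kakeya sets in all dimensions: frames and volumes of one cell, definitions and statements. -/

namespace Pool.Agent.MP_5168f5_an.AN.Vo

open H19 H17S H17F Filter MvPolynomial Metric Nc

section One

variable {Ω α β : Type} {d : ℕ}

/-- All polynomials of degree at most `E` are bounded at `y` by `L` times their norm. -/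
def Gd (ν : Pl d → ℝ) (E : ℕ) (L : ℝ) (y : V d) : Prop :=
  ∀ F : Pl d, F.totalDegree ≤ E → |eval y F| ≤ L * ν F

/-- The size of a column of the Jacobian matrix. -/
noncomputable def col {k : ℕ} (ν : Pl d → ℝ) (Φ : Fin k → Pl d) (j : Fin d) : ℝ :=
  ∑ i, ν (pderiv j (Φ i))

/-- The cell with side `2^{-K j}` in the coordinate `j`. -/
noncomputable def cel (K : Fin d → ℕ) (y : V d) : Z d := fun j => fl1 (K j) (y j)

/-- The number of such cells in a unit cube. -/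
noncomputable def vol (K : Fin d → ℕ) : ℝ := ∏ j, (2 : ℝ) ^ K j

/-- A triangular system. -/
def Tri (Φ : Fin d → Pl d) : Prop := ∀ j, ∀ l ∈ (Φ j).vars, l ≤ j

/-- Outside an event of probability `ε`, `A` lies in a list of length `b` that is read from `B`. -/
def Lst (P : FP Ω) (A : Ω → α) (B : Ω → β) (b : β → ℝ) (ε : ℝ) : Prop :=
  ∃ T : β → Finset α, (∀ z, ((T z).card : ℝ) ≤ b z) ∧ pb P (fun ω => A ω ∉ T (B ω)) ≤ ε

end One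

/-- A property that holds with every exponential loss. -/
def Ev (M : ℕ → ℕ) (p : ℕ → ℝ → Prop) : Prop :=
  ∀ c : ℝ, 0 < c → ∀ᶠ n in UF, p n (Real.exp (c * M n))

section Seq

variable {Ω α β : ℕ → Type} {d : ℕ} (P : ∀ n, FP (Ω n))

/-- An event that is likely with every exponential loss. -/
def Wp (M : ℕ → ℕ) (p : ∀ n, ℝ → Ω n → Prop) : Prop :=
  ∀ c : ℝ, 0 < c → Whp P fun n => p n (Real.exp (c * M n))

/-- Lists of length `b` up to a subexponential factor. -/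
def LS (M : ℕ → ℕ) (A : ∀ n, Ω n → α n) (B : ∀ n, Ω n → β n) (b : ∀ n, β n → ℝ) : Prop :=
  ∀ ε : ℝ, 0 < ε → Ev M fun n L => Lst (P n) (A n) (B n) (fun z => L * b n z) ε

variable (x : ∀ n, Ω n → V d) (M : ℕ → ℕ)

/-- Every polynomial is of the size of its norm at most points. -/
structure Irr : Prop where
  big : Big M
  low : ∀ (E : ℕ) (ε : ℝ), 0 < ε → Ev M fun n L => ∀ F : Pl d, F.totalDegree ≤ E →
    pb (P n) (fun ω => L * |eval (x n ω) F| < nuP (P n) (x n) F) ≤ ε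

/-- Normalised polynomials without approximate relation. -/
structure Fr {k : ℕ} (Φ : ℕ → Fin k → Pl d) (D : ℕ) : Prop where
  deg : ∀ᶠ n in UF, ∀ i, (Φ n i).totalDegree ≤ D
  le : Ev M fun n L => ∀ i, nuP (P n) (x n) (Φ n i) ≤ L
  ind : ∀ E, Ev M fun n L => ∀ H : Pl k, H.totalDegree ≤ E → ∀ m,
    |coeff m H| ≤ L * nuP (P n) (x n) (aeval (Φ n) H)

end Seq

/-! ### Statements without probability -/

/-- Identities for Jacobians. -/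
structure Alg : Prop where
  ind : ∀ {d : ℕ} (Φ : Fin d → Pl d), jac Φ ≠ 0 → ∀ H : Pl d, H ≠ 0 → aeval Φ H ≠ 0
  chain : ∀ {d : ℕ} (Φ : Fin d → Pl d) (F : Pl d) (j : Fin d),
    jac Φ * pderiv j F = ∑ i, Dv Φ i F * pderiv j (Φ i)
  cst : ∀ {d : ℕ} (Φ : Fin d → Pl d) (i : Fin d) (F : Pl d) (a : ℝ), Dv Φ i (F - C a) = Dv Φ i F
  sft : ∀ {d : ℕ} (Φ : Fin d → Pl d) (a : V d), jac (fun i => Φ i - C (a i)) = jac Φ
  scl : ∀ {d : ℕ} (Φ : Fin d → Pl d) (a : V d),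
    jac (fun i => C (a i) * Φ i) = C (∏ i, a i) * jac Φ
  aev : ∀ {d k : ℕ} (Φ : Fin d → Pl d) (Ψ : Fin k → Pl d) (H : Pl k) (i : Fin d),
    Dv Φ i (aeval Ψ H) = ∑ l, aeval Ψ (pderiv l H) * Dv Φ i (Ψ l)
  upd : ∀ {d : ℕ} (Φ : Fin d → Pl d) (i : Fin d) (F : Pl d), Dv Φ i F = jac (Function.update Φ i F)
  tri0 : ∀ {d : ℕ} (F : Pl d) (i j : Fin d), (∀ l ∈ F.vars, l ≤ i) → i < j → pderiv j F = 0
  tri : ∀ {d : ℕ} (Φ : Fin d → Pl d), Tri Φ → jac Φ = ∏ i, pderiv i (Φ i)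
  tri2 : ∀ {d : ℕ} (Φ : Fin d → Pl d) (i : Fin d) (F : Pl d), Tri Φ → (∀ l ∈ F.vars, l ≤ i) →
    Dv Φ i F * pderiv i (Φ i) = jac Φ * pderiv i F
  blk : ∀ {d : ℕ} (B : Fin d → Pl d) (G : Pl (d + 1)) (b : Fin (d + 1)),
    jac (b.insertNth G fun i => rename b.succAbove (B i) : Fin (d + 1) → Pl (d + 1)) =
      rename b.succAbove (jac B) * pderiv b G

/-- Polynomials change little in a small box. -/
def Blur : Prop := ∀ (d E : ℕ) (ν : Pl d → ℝ) (lam y y' : V d) (L t : ℝ), (∀ F, 0 ≤ ν F) →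
  (∀ j, 0 ≤ lam j) → (∀ F : Pl d, F.totalDegree ≤ E → ∀ j, ν (pderiv j F) ≤ lam j * ν F) →
  Gd ν E L y → 0 ≤ L → t ≤ 1 → (∀ j, lam j * |y' j - y j| ≤ t) →
  ∀ F : Pl d, F.totalDegree ≤ E → |eval y' F - eval y F| ≤ d * (d + 1) ^ E * L * t * ν F

/-- The number of cells on which the frame is confined and the Jacobian is large. -/
def UpD : Prop := ∀ d D : ℕ, ∃ A : ℝ, 1 ≤ A ∧ ∀ (Φ : Fin d → Pl d) (K : Fin d → ℕ) (c : V d)
  (ρ J : ℝ), (∀ i, (Φ i).totalDegree ≤ D) → 0 < ρ → 0 < J →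
  ∃ T : Finset (Z d), (T.card : ℝ) ≤ A * ρ ^ d * vol K / J ∧ ∀ y,
    (∀ y', cel K y' = cel K y → ‖ev Φ y' - c‖ ≤ ρ ∧ J ≤ |eval y' (jac Φ)|) → cel K y ∈ T

/-- The number of cells of the frame over one cell. -/
def LoD : Prop := ∀ (d : ℕ) (Φ : Fin d → Pl d) (K : Fin d → ℕ) (z : Z d) (R : ℕ) (J : ℝ), 0 < J →
  ∃ T : Finset (Z d), (T.card : ℝ) ≤ 3 ^ d * J * (2 ^ R) ^ d / vol K ∧ ∀ y, cel K y = z →
    (∀ u, flv R u = flv R (ev Φ y) → ∃ y', ev Φ y' = u ∧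
      (∀ j, |y' j - y j| ≤ ((2 : ℝ) ^ K j)⁻¹) ∧ |eval y' (jac Φ)| ≤ J) → flv R (ev Φ y) ∈ T

/-- Cells of good points over one cell of the frame, and all cells of good points. -/
def UpP : Prop := ∀ d D : ℕ, ∃ A : ℝ, 1 ≤ A ∧ ∀ (ν : Pl d → ℝ) (Φ : Fin d → Pl d) (lam : V d)
  (K : Fin d → ℕ) (R : ℕ) (L : ℝ), (∀ F, 0 ≤ ν F) → (∀ j, 0 ≤ lam j) → 1 ≤ L → 0 < ν (jac Φ) →
  (∀ i, (Φ i).totalDegree ≤ D ∧ ν (Φ i) ≤ L) →
  (∀ F : Pl d, F.totalDegree ≤ (d + 1) * D → ∀ j, ν (pderiv j F) ≤ lam j * ν F) →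
  (∀ j, A * L ^ 2 * lam j * 2 ^ R ≤ 2 ^ K j) →
  (∀ z : Z d, ∃ T : Finset (Z d), (T.card : ℝ) ≤ A * L * (vol K / (2 ^ R) ^ d / ν (jac Φ)) ∧
    ∀ y, Gd ν ((d + 1) * D) L y → ν (jac Φ) ≤ L * |eval y (jac Φ)| → flv R (ev Φ y) = z →
      cel K y ∈ T) ∧
  ∃ T : Finset (Z d), (T.card : ℝ) ≤ A * L ^ (2 * d + 1) * (vol K / ν (jac Φ)) ∧
    ∀ y, Gd ν ((d + 1) * D) L y → ν (jac Φ) ≤ L * |eval y (jac Φ)| → cel K y ∈ T

/-- Cells of the frame of nice points over one cell. -/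
def LoP : Prop := ∀ (d D : ℕ) (ν : Pl d → ℝ) (Φ : Fin d → Pl d) (K : Fin d → ℕ) (R : ℕ) (Λ : ℝ)
  (z : Z d), 0 < Λ → Λ ≤ 2 ^ R → 0 < ν (jac Φ) → (∀ i, (Φ i).totalDegree ≤ D) →
  (∀ j, ∃ a : ℝ, d * Λ * ν (X j - C a) * 2 ^ K j ≤ 2 ^ R) →
  ∃ T : Finset (Z d), (T.card : ℝ) ≤ 3 ^ d * Λ * (ν (jac Φ) * (2 ^ R) ^ d / vol K) ∧
    ∀ y σ, NiceAt Φ ν D (d * D + 1) 1 Λ y σ → cel K y = z → flv R (ev Φ y) ∈ T

/-! ### Statements on one cell -/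

/-- A property of all sequences of laws and points. -/
def AllP (Q : ∀ (d : ℕ) (Ω : ℕ → Type), (∀ n, FP (Ω n)) → (∀ n, Ω n → V d) → (ℕ → ℕ) → Prop) :
    Prop := ∀ d Ω P x M, Q d Ω P x M

/-- A property of all irreducible laws with a frame. -/
def AllF (Q : ∀ (d : ℕ) (Ω : ℕ → Type), (∀ n, FP (Ω n)) → (∀ n, Ω n → V d) → (ℕ → ℕ) →
    (ℕ → Fin d → Pl d) → ℕ → Prop) : Prop :=
  ∀ d Ω P x M Φ D, Irr P x M → Fr P x M Φ D → Q d Ω P x M Φ D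

/-- Typical points; products; comparison of two laws. -/
structure Ir1 : Prop where
  gd : AllP fun _ _ P x M => Big M → ∀ E, Wp P M fun n L ω => Gd (nuP (P n) (x n)) E L (x n ω)
  pick : AllP fun d Ω P x M => Irr P x M → ∀ (G : ∀ n, Ω n → Prop) (E : ℕ) (ι : Type) [Fintype ι],
    Pos P G → Ev M fun n L => ∀ F : ι → Pl d, (∀ a, (F a).totalDegree ≤ E) →
      ∃ ω ∈ (P n).S, G n ω ∧ ∀ a, nuP (P n) (x n) (F a) ≤ L * |eval (x n ω) (F a)|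
  mul : AllP fun d _ P x M => Irr P x M → ∀ (E : ℕ) (ι : Type) [Fintype ι], Ev M fun n L =>
    ∀ F : ι → Pl d, (∀ a, (F a).totalDegree ≤ E) →
      ∏ a, nuP (P n) (x n) (F a) ≤ L * nuP (P n) (x n) (∏ a, F a) ∧
      nuP (P n) (x n) (∏ a, F a) ≤ L * ∏ a, nuP (P n) (x n) (F a)
  ref : AllP fun d _ P x M => Irr P x M → ∀ (ν : ℕ → Pl d → ℝ) (E : ℕ),
    (∀ c : ℝ, 0 < c → Pos P fun n ω => Gd (ν n) E (Real.exp (c * M n)) (x n ω)) →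
    Ev M fun n L => ∀ F : Pl d, F.totalDegree ≤ E → nuP (P n) (x n) F ≤ L * ν n F
  low : AllP fun d _ P x M => Big M → ∀ (F : ℕ → Pl d) (a : ℕ → ℝ) (E : ℕ),
    (∀ᶠ n in UF, (F n).totalDegree ≤ E) →
    (∀ c : ℝ, 0 < c → Pos P fun n ω => a n ≤ Real.exp (c * M n) * |eval (x n ω) (F n)|) →
    Ev M fun n L => a n ≤ L * nuP (P n) (x n) (F n)

/-- Sources of irreducible laws and of frames. -/
structure Ir2 : Prop where
  nl : AllP fun _ Ω P x M => ∀ (β : ℕ → Type) (Z : Bool → ∀ n, Ω n → β n), Big M →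
    G39.NL P x M Z → Irr P x M
  ty : AllP fun _ _ P x M => Big M → (TY P x M ↔ Irr P x M)
  comp : AllP fun d _ P x M => ∀ (k D : ℕ) (Φ : ℕ → Fin k → Pl d), Irr P x M →
    (∀ᶠ n in UF, ∀ i, (Φ n i).totalDegree ≤ D) → Irr P (fun n ω => ev (Φ n) (x n ω)) M
  pos : AllP fun d _ P x M => ∀ (D : ℕ) (Φ : ℕ → Fin d → Pl d), Fr P x M Φ D →
    (∀ᶠ n in UF, jac (Φ n) ≠ 0) ∧
    ∀ E, ∀ᶠ n in UF, ∀ F : Pl d, F ≠ 0 → F.totalDegree ≤ E → 0 < nuP (P n) (x n) F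
  ind : AllP fun d Ω P x M => ∀ (d' k D : ℕ) (x' : ∀ n, Ω n → V d') (Φ : ℕ → Fin k → Pl d),
    (∀ᶠ n in UF, ∀ i, (Φ n i).totalDegree ≤ D) →
    G39.IND P x' M (fun n i ω => eval (x n ω) (Φ n i)) → Fr P x M Φ D
  dni : AllP fun d _ P x M => ∀ (k D : ℕ) (Φ : ℕ → Fin k → Pl d), Big M → Fr P x M Φ D →
    ∃ (L : ℕ → ℝ) (Ψ : ℕ → Fin k → Pl d), Sub M L ∧ (∀ᶠ n in UF, Ψ n = fun i => C (L n)⁻¹ * Φ n i) ∧
      (∀ n i, (Ψ n i).totalDegree ≤ D) ∧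
      G39.IND P x M fun n i ω => eval (x n ω) (Ψ n i)
  cond : AllP fun d Ω P x M => ∀ G : ∀ n, Ω n → Prop, Irr P x M → Pos P G →
    Irr (fun n => cE (P n) (G n)) x M ∧ ∀ (k D : ℕ) (Φ : ℕ → Fin k → Pl d), Fr P x M Φ D →
      Fr (fun n => cE (P n) (G n)) x M Φ D
  chart : AllP fun d _ P x M => ∀ (k D : ℕ) (Φ : ℕ → Fin k → Pl d), Fr P x M Φ D →
    ∀ (k' : ℕ) (e : Fin k' → Fin k), Function.Injective e → Fr P x M (fun n i => Φ n (e i)) D ∧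
      Fr P (fun n ω => ev (Φ n) (x n ω)) M (fun _ i => X (e i)) 1

/-- Typical points are nice. -/
def NiW : Prop := AllF fun _ _ P x M Φ D => ∀ E K : ℕ,
  Wp P M fun n L ω => ∃ σ, NiceAt (Φ n) (nuP (P n) (x n)) D E K L (x n ω) σ

/-- Derivatives and Jacobians: a frame is optimal. -/
def Der : Prop := AllF fun d _ P x M Φ _ => ∀ E : ℕ, Ev M fun n L =>
  (∀ F : Pl d, F.totalDegree ≤ E → ∀ i, nuP (P n) (x n) (Dv (Φ n) i F) ≤
    L * nuP (P n) (x n) F * nuP (P n) (x n) (jac (Φ n))) ∧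
  (∀ F : Pl d, F.totalDegree ≤ E → ∀ j, nuP (P n) (x n) (pderiv j F) ≤
    L * col (nuP (P n) (x n)) (Φ n) j * nuP (P n) (x n) F) ∧
  (∀ Ψ : Fin d → Pl d, (∀ i, (Ψ i).totalDegree ≤ E) → nuP (P n) (x n) (jac Ψ) ≤
    L * (∏ i, nuP (P n) (x n) (Ψ i)) * nuP (P n) (x n) (jac (Φ n))) ∧
  (Tri (Φ n) → ∀ (i : Fin d) (F : Pl d), F.totalDegree ≤ E → (∀ l ∈ F.vars, l ≤ i) →
    nuP (P n) (x n) (pderiv i F) ≤ L * nuP (P n) (x n) (pderiv i (Φ n i)) * nuP (P n) (x n) F)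

/-- A normalised system with a large Jacobian is a frame. -/
def Jfr : Prop := AllF fun d _ P x M Φ _ => ∀ (Ψ : ℕ → Fin d → Pl d) (D' : ℕ),
  (∀ᶠ n in UF, ∀ i, (Ψ n i).totalDegree ≤ D') →
  (Ev M fun n L => ∀ i, nuP (P n) (x n) (Ψ n i) ≤ L) →
  (Ev M fun n L => nuP (P n) (x n) (jac (Φ n)) ≤ L * nuP (P n) (x n) (jac (Ψ n))) → Fr P x M Ψ D'

/-- Cells of the coordinates over one cell of the frame. -/
def Up : Prop := AllF fun d _ P x M Φ _ => ∀ (K : ℕ → Fin d → ℕ) (R : ℕ → ℕ),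
  (Ev M fun n L => ∀ j, col (nuP (P n) (x n)) (Φ n) j * 2 ^ R n ≤ L * 2 ^ K n j) →
  LS P M (fun n ω => cel (K n) (x n ω)) (fun n ω => flv (R n) (ev (Φ n) (x n ω)))
    fun n _ => vol (K n) / (2 ^ R n) ^ d / nuP (P n) (x n) (jac (Φ n))

/-- Cells of the coordinates. -/
def Up0 : Prop := AllF fun d _ P x M Φ _ => ∀ K : ℕ → Fin d → ℕ,
  (Ev M fun n L => ∀ j, col (nuP (P n) (x n)) (Φ n) j ≤ L * 2 ^ K n j) →
  LS P M (fun n ω => cel (K n) (x n ω)) (fun _ _ => ())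
    fun n _ => vol (K n) / nuP (P n) (x n) (jac (Φ n))

/-- Cells of the frame over one cell of the coordinates. -/
def Lo : Prop := AllF fun d _ P x M Φ _ => ∀ (K : ℕ → Fin d → ℕ) (R : ℕ → ℕ),
  (Ev M fun n L => ∀ j, ∃ a : ℝ, nuP (P n) (x n) (X j - C a) * 2 ^ K n j ≤ L * 2 ^ R n) →
  LS P M (fun n ω => flv (R n) (ev (Φ n) (x n ω))) (fun n ω => cel (K n) (x n ω))
    fun n _ => nuP (P n) (x n) (jac (Φ n)) * (2 ^ R n) ^ d / vol (K n)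

/-- A function that both kinds know up to `θ` is constant up to `θ`. -/
def Cst : Prop := AllP fun d Ω P x M => ∀ (β : ℕ → Type) (Z : Bool → ∀ n, Ω n → β n) (E : ℕ)
  (F : ℕ → Pl d) (a : Bool → ∀ n, β n → ℝ) (θ : ℕ → ℝ), Big M → G39.NL P x M Z →
  (∀ n, (F n).totalDegree ≤ E) → (∀ n, 0 < θ n) →
  Pos P (fun n ω => ∀ b, |eval (x n ω) (F n) - a b n (Z b n ω)| ≤ θ n) →
  Ev M fun n L => ∃ k : ℝ, nuP (P n) (x n) (F n - C k) ≤ L * θ n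

/-- Lists. -/
structure Ls : Prop where
  mono : ∀ {Ω α α' β β' : Type} (P : FP Ω) (A : Ω → α) (A' : Ω → α') (B : Ω → β) (B' : Ω → β')
    (b : β → ℝ) (b' : β' → ℝ) (ε : ℝ), Lst P A B b ε → Fn P A' (fun ω => (A ω, B' ω)) → Fn P B B' →
    (∀ z, 0 ≤ b' z) → (∀ ω ∈ P.S, b (B ω) ≤ b' (B' ω)) → Lst P A' B' b' ε
  trans : ∀ {Ω α β γ : Type} (P : FP Ω) (A : Ω → α) (B : Ω → β) (G : Ω → γ) (b b' : γ → ℝ)
    (ε ε' : ℝ), Lst P A (fun ω => (B ω, G ω)) (fun z => b z.2) ε → Lst P B G b' ε' →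
    Lst P (fun ω => (A ω, B ω)) G (fun z => b z * b' z) (ε + ε')
  glue : ∀ {Ω α β γ : Type} (P : FP Ω) (A : Ω → α) (B : Ω → β) (Q : Ω → γ) (g : γ → Prop)
    (b : β × γ → ℝ) (ε ε' : ℝ), 0 ≤ ε → (∀ z, 0 ≤ b z) →
    (∀ ω ∈ P.S, g (Q ω) → Lst (cv P Q (Q ω)) A B (fun z => b (z, Q ω)) ε) →
    pb P (fun ω => ¬g (Q ω)) ≤ ε' → Lst P A (fun ω => (B ω, Q ω)) b (ε + ε')
  cond : ∀ {Ω α β : Type} (P : FP Ω) (A : Ω → α) (B : Ω → β) (b : β → ℝ) (ε κ : ℝ) (G : Ω → Prop),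
    Lst P A B b ε → 0 < κ → κ ≤ pb P G → Lst (cE P G) A B b (ε / κ)
  box : ∀ {Ω : ℕ → Type} {d : ℕ} (P : ∀ n, FP (Ω n)) (u : ∀ n, Ω n → V d) (M : ℕ → ℕ)
    (K : ℕ → Fin d → ℕ), Big M → (Wp P M fun n L ω => ‖u n ω‖ ≤ L) →
    LS P M (fun n ω => cel (K n) (u n ω)) (fun _ _ => ()) fun n _ => vol (K n)
  ent : ∀ {Ω α β : ℕ → Type} (P : ∀ n, FP (Ω n)) (M : ℕ → ℕ) (A : ∀ n, Ω n → α n)
    (B : ∀ n, Ω n → β n) (b : ∀ n, β n → ℝ) (C : ℝ), Big M → LS P M A B b →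
    (∀ᶠ n in UF, Det (P n) (A n) (B n) (Real.exp (C * M n)) ∧
      ∀ ω ∈ (P n).S, |Real.log (b n (B n ω))| ≤ C * M n) →
    Le M (fun n => ch (P n) (A n) (B n)) fun n => (P n).E fun ω => Real.log (b n (B n ω))

/-! ### Rows -/

def OfUpP : Prop := Blur → UpD → UpP
def OfLoP : Prop := LoD → LoP
def OfNiW : Prop := Ir1 → Ir2 → NiW
def OfDer : Prop := Alg → Ir1 → NiW → Der
def OfJfr : Prop := Alg → Ir1 → Ir2 → NiW → Jfr
def OfUp : Prop := UpP → Ir1 → Ir2 → Der → Ls → Up ∧ Up0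
def OfLo : Prop := LoP → Ir2 → NiW → Ls → Lo

/-! ### Elementary facts -/

section Api

variable {Ω : Type} {d : ℕ} {P : FP Ω} {x : Ω → V d} {ν : Pl d → ℝ} {Φ : Fin d → Pl d}
  {D E K : ℕ} {L : ℝ} {y : V d} {σ : V d → V d}

theorem nuP_nonneg (P : FP Ω) (x : Ω → V d) (F : Pl d) : 0 ≤ nuP P x F := Real.sqrt_nonneg _

theorem nuP_mul (P : FP Ω) (x : Ω → V d) (c : ℝ) (F : Pl d) :
    nuP P x (C c * F) = |c| * nuP P x F := by
  simpa only [nuP, map_mul, eval_C] using Pk.nu_smul P c fun ω => eval (x ω) F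

theorem nuP_add (P : FP Ω) (x : Ω → V d) (F G : Pl d) :
    nuP P x (F + G) ≤ nuP P x F + nuP P x G := by
  simpa only [nuP, map_add] using Pk.nu_add P (fun ω => eval (x ω) F) fun ω => eval (x ω) G

theorem nuP_zero (P : FP Ω) (x : Ω → V d) : nuP P x 0 = 0 := by simpa using nuP_mul P x 0 0

theorem nuP_C (P : FP Ω) (x : Ω → V d) (c : ℝ) : nuP P x (C c) = |c| := by
  simp [nuP, G39.nu, FP.E_const, Real.sqrt_sq_eq_abs]

theorem nuP_comp {k : ℕ} (P : FP Ω) (x : Ω → V d) (Ψ : Fin k → Pl d) (H : Pl k) :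
    nuP P (fun ω => ev Ψ (x ω)) H = nuP P x (aeval Ψ H) := by simp only [nuP, eval_aeval]

theorem gd_of_cg {ω : Ω} (h : G39.CG P x E L ω) : Gd (nuP P x) E L (x ω) := fun F hF =>
  h _ ⟨F, hF, fun _ => rfl⟩

theorem Gd.mono (h : Gd ν E L y) (h0 : ∀ F, 0 ≤ ν F) {E' : ℕ} {L' : ℝ} (hE : E' ≤ E)
    (hL : L ≤ L') : Gd ν E' L' y := fun F hF =>
  (h F (hF.trans hE)).trans (mul_le_mul_of_nonneg_right hL (h0 F))

theorem dv_le {Λ : ℝ} (h : NiceAt Φ ν D E K Λ y σ) (h0 : 0 < Λ) (hK : 1 ≤ K) {F : Pl d}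
    (hF : F.totalDegree ≤ E) (i : Fin d) : |eval y (Dv Φ i F)| ≤ Λ * ν F * |eval y (jac Φ)| := by
  have h1 := h.der₀ h0 hF hK fun _ => i
  rwa [dW_one _ _ _ (h.jac h0), abs_div, div_le_iff₀ (abs_pos.2 (h.jac h0))] at h1

theorem val_le {Λ : ℝ} (h : NiceAt Φ ν D E K Λ y σ) {F : Pl d} (hF : F.totalDegree ≤ E) {u : V d}
    (hu : u ∈ ball (ev Φ y) Λ⁻¹) : |eval (σ u) F| ≤ Λ * ν F := by
  simpa using h.der F hF 0 (Nat.zero_le _) default u hu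

theorem vol_pos (K : Fin d → ℕ) : 0 < vol K := Finset.prod_pos fun _ _ => by positivity

theorem cel_const (R : ℕ) (y : V d) : cel (fun _ => R) y = flv R y := rfl

theorem vol_const (R : ℕ) : vol (fun _ : Fin d => R) = (2 ^ R) ^ d := by simp [vol]

theorem Lst.weak {α β : Type} {A : Ω → α} {B : Ω → β} {b b' : β → ℝ} {ε ε' : ℝ}
    (h : Lst P A B b ε) (hb : ∀ z, b z ≤ b' z) (he : ε ≤ ε') : Lst P A B b' ε' :=
  h.imp fun _ k => ⟨fun z => (k.1 z).trans (hb z), k.2.trans he⟩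

end Api

section Api2

variable {Ω : ℕ → Type} {P : ∀ n, FP (Ω n)} {M : ℕ → ℕ} {p q : ℕ → ℝ → Prop}
  {p' q' : ∀ n, ℝ → Ω n → Prop}

theorem one_le_ex (M : ℕ → ℕ) {c : ℝ} (hc : 0 < c) (n : ℕ) : 1 ≤ Real.exp (c * M n) :=
  Real.one_le_exp (by positivity)

/-- A constant times a power of a small loss is below a given loss. -/
theorem ex_pow (hM : Big M) (A : ℝ) (k : ℕ) {c : ℝ} (hc : 0 < c) :
    ∀ᶠ n in UF, A * Real.exp (c / (k + 1) * M n) ^ k ≤ Real.exp (c * M n) := by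
  filter_upwards [G39.big_dl hM A (c := c / (k + 1)) (by positivity)] with n a
  rw [G39.dl_inv] at a
  refine (mul_le_mul_of_nonneg_right a (by positivity)).trans_eq ?_
  rw [← pow_succ', ← Real.exp_nat_mul]
  congr 1
  push_cast
  field_simp

theorem Ev.and (h : Ev M p) (h' : Ev M q) : Ev M fun n L => p n L ∧ q n L :=
  fun c hc => (h c hc).and (h' c hc)

theorem Ev.of_ev {e : ℕ → Prop} (h : ∀ᶠ n in UF, e n) : Ev M fun n _ => e n := fun _ _ => h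

/-- Polynomial losses are free. -/
theorem Ev.of (h : Ev M p) (hM : Big M) (A : ℝ) (k : ℕ)
    (H : ∀ᶠ n in UF, ∀ L L' : ℝ, 1 ≤ L → A * L ^ k ≤ L' → p n L → q n L') : Ev M q := fun c hc => by
  have h0 : 0 < c / (k + 1) := by positivity
  filter_upwards [h _ h0, H, ex_pow hM A k hc] with n a b e using b _ _ (one_le_ex M h0 n) e a

theorem Wp.and (h : Wp P M p') (h' : Wp P M q') : Wp P M fun n L ω => p' n L ω ∧ q' n L ω :=
  fun c hc => (h c hc).and (h' c hc)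

theorem Wp.of_ev (h : Ev M p) : Wp P M fun n L _ => p n L :=
  fun c hc => Whp.of_ev ((h c hc).mono fun _ a _ _ => a)

theorem Wp.of (h : Wp P M p') (hM : Big M) (A : ℝ) (k : ℕ) (H : ∀ᶠ n in UF, ∀ L L' : ℝ, 1 ≤ L →
    A * L ^ k ≤ L' → ∀ ω ∈ (P n).S, p' n L ω → q' n L' ω) : Wp P M q' := fun c hc => by
  have h0 : 0 < c / (k + 1) := by positivity
  refine (h _ h0).mono ?_
  filter_upwards [H, ex_pow hM A k hc] with n b e using b _ _ (one_le_ex M h0 n) e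

theorem ev_sub {L : ℕ → ℝ} (h : Sub M L) : Ev M fun n L' => L n ≤ L' := h.2

end Api2

end Pool.Agent.MP_5168f5_an.AN.Vo
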