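import Pool.Agent.MP_5168f5_an.AN.SpecS2
import Pool.Agent.MP_5168f5_an.AN.S20Det

/-! Kakeya sets in all dimensions: the depth is seen outside the independent coordinates. -/

namespace Pool.Agent.MP_5168f5_an.AN.St

open H19 H17S H17F Filter MvPolynomial
open G39 (nu RG dl REM Nm)
open Pk (cn mons)
open Nc (Pl ev jac NiceAt Bas)

namespace StBlkA

theorem key {N m D E : ℕ} {Θ : Fin N → Pl N} {ν : Pl N → ℝ} {Γ T : ℝ} {y : V N} {σ : V N → V N}
    {e f : Fin m → Fin N} {F : Pl N} {i : Fin N} (h : NiceAt Θ ν D E 1 Γ y σ) (hΓ : 1 ≤ Γ)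
    (hE : 1 ≤ E) (he : ∀ a, Θ (f a) = X (e a)) (hF : F.totalDegree ≤ E) (h0 : 0 < ν F)
    (h1 : T * ν F ≤ Γ * (Γ * |eval y (pderiv i F)|)) (h2 : ∀ j, ν (X j) ≤ Γ * Γ)
    (hT : 2 * (N + 1) * Γ ^ 3 ≤ T) : ∃ p : Fin N × Fin N, p.2 ∉ Set.range e ∧
      T ≤ 2 * (N + 1) ^ 2 * Γ ^ 6 * |eval y (pderiv p.2 (Θ p.1))| := by
  classical
  by_contra! k
  have g0 : 0 < Γ := one_pos.trans_le hΓ
  have T0 : 0 < T := lt_of_lt_of_le (by positivity) hT
  obtain ⟨B, hB⟩ : ∃ B, B = T / (2 * (N + 1) ^ 2 * Γ ^ 6) := ⟨_, rfl⟩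
  have B0 : 0 ≤ B := by rw [hB]; positivity
  have a1 : ∀ a b, (∀ t, b ≠ e t) → |eval y (pderiv b (Θ a))| ≤ B := fun a b u => by
    rw [hB, le_div_iff₀' (by positivity)]
    exact (k (a, b) fun ⟨t, v⟩ => u t v.symm).le
  have n1 : (1 : ℝ) ≤ N := by exact_mod_cast i.pos
  have a2 : ∀ a, |eval y (pderiv i (Θ a))| ≤ 1 + N * B * Γ ^ 3 := fun a => by
    by_cases u : ∀ t, i ≠ e t
    · have := one_le_mul_of_one_le_of_one_le n1 (one_le_pow₀ hΓ (n := 3))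
      nlinarith [a1 a i u]
    · push Not at u
      obtain ⟨t, rfl⟩ := u
      simpa using S20.block (Matrix.of fun a j => eval y (pderiv j (Θ a)))
        (Matrix.of fun j c => Nc.dW Θ (X j) 1 (fun _ => c) y) e f 1 B (Γ ^ 3) (by
          ext j l
          rw [Matrix.mul_apply, Matrix.one_apply]
          refine (Nc.pderiv_eq Θ (X j) (h.jac g0) l).symm.trans ?_
          simp [pderiv_X, Pi.single_apply, apply_ite (eval y)])
        (fun s j => by simp [he, pderiv_X, Pi.single_apply, apply_ite (eval y), eq_comm]) B0 a1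
        (fun j c => (h.der₀ g0 ((totalDegree_X j).trans_le hE) le_rfl _).trans
          ((mul_le_mul_of_nonneg_left (h2 j) g0.le).trans_eq (by ring))) a t
  have a3 : |eval y (pderiv i F)| ≤ N * (Γ * ν F * (1 + N * B * Γ ^ 3)) := by
    rw [Nc.pderiv_eq Θ F (h.jac g0) i]
    refine (Finset.abs_sum_le_sum_abs _ _).trans ((Finset.sum_le_card_nsmul _ _ _
      fun a _ => ?_).trans_eq (by rw [Finset.card_univ, Fintype.card_fin, nsmul_eq_mul]))
    rw [abs_mul]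
    exact mul_le_mul (h.der₀ g0 hF le_rfl _) (a2 a) (abs_nonneg _) (by positivity)
  have a4 : T ≤ N * Γ ^ 3 + N ^ 2 * (Γ ^ 6 * B) := le_of_mul_le_mul_right
    (h1.trans ((by gcongr : _ ≤ Γ * (Γ * (N * (Γ * ν F * (1 + N * B * Γ ^ 3))))).trans_eq
      (by ring))) h0
  have a5 : 2 * (N + 1) ^ 2 * (Γ ^ 6 * B) = T := by rw [hB]; field_simp
  nlinarith [pow_pos g0 3, mul_nonneg (pow_pos g0 6).le B0]

end StBlkA

open StBlkA S20 in
theorem rBlk : OfBlk := by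
  intro hN N m Ω Λ P M x Q Θ D E e f hG hF hB he hD
  have hM := hG.big
  obtain ⟨Γ0, s0, w0⟩ := gp_iff.1 hD
  obtain ⟨Γ2, s2, w2⟩ := gp_iff.1 hB
  obtain ⟨Γ3, s3, w3⟩ := gp_iff.1 (hN P M x Q _ Θ D hG hF (E + 1) 1)
  have ch : ∀ (n : ℕ) (i : Fin N) (ν : Pl N → ℝ), ∃ F : Pl N, F.totalDegree ≤ E ∧
      ∀ F' : Pl N, F'.totalDegree ≤ E → 0 < ν F' ∧ 2 ^ M n * ν F' ≤ Γ0 n * ν (pderiv i F') →
        0 < ν F ∧ 2 ^ M n * ν F ≤ Γ0 n * ν (pderiv i F) := fun n i ν => by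
    by_cases k : ∃ F : Pl N, F.totalDegree ≤ E ∧ 0 < ν F ∧ 2 ^ M n * ν F ≤ Γ0 n * ν (pderiv i F)
    · exact k.imp fun F u => ⟨u.1, fun _ _ _ => u.2⟩
    · exact ⟨0, by simp, fun F u v => (k ⟨F, u, v⟩).elim⟩
  choose F f1 f2 using ch
  have dn : ∀ (G : ℕ → (Pl N → ℝ) → Pl N) (c : ℝ), 0 < c → (∀ n ν, (G n ν).totalDegree ≤ E + 1) →
      Whp P fun n ω => nc (P n) (x n) (Q n) ω (G n (nc (P n) (x n) (Q n) ω)) ≤
        Real.exp (c * M n) * |eval (x n ω) (G n (nc (P n) (x n) (Q n) ω))| := fun G c hc hd =>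
    (hG.dn (E + 1) c (fun n ω => G n (nc (P n) (x n) (Q n) ω)) hc
      (hG.fn.mono fun n u => (Fn.comp (G n) _).trans u) fun n _ => hd n _).mono
      (Eventually.of_forall fun n ω _ u => by
        rwa [← G39.dl_inv, le_inv_mul_iff₀ (G39.dl_pos _ _ _)])
  obtain ⟨Γ1, s1, w1⟩ := gp_iff.1 (gp_of_wp (P := P) (M := M) (q := fun n ω Γ => ∀ i,
      nc (P n) (x n) (Q n) ω (pderiv i (F n i (nc (P n) (x n) (Q n) ω))) ≤
        Γ * |eval (x n ω) (pderiv i (F n i (nc (P n) (x n) (Q n) ω)))| ∧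
      nc (P n) (x n) (Q n) ω (X i) ≤ Γ * |eval (x n ω) (X i)|) fun c hc => Whp.all fun i =>
    (dn (fun n ν => pderiv i (F n i ν)) c hc fun n ν =>
      (H83.IsPoly.totalDegree_pderiv_le _ _).trans ((f1 n i ν).trans E.le_succ)).and
      (dn (fun _ _ => X i) c hc fun _ _ => by simp))
  have s := ((s0.add s1 hM).add s2 hM).add s3 hM
  have n1 : (1 : ℝ) ≤ N + 1 := by simp
  have t := ((s.pow 3).const_mul hM (one_le_mul_of_one_le_of_one_le one_le_two n1)).2 _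
    one_half_pos
  obtain ⟨p, hp⟩ := pos_ex (E := fun (p : Fin N × Fin N) n ω => p.2 ∉ Set.range e ∧ 2 ^ M n ≤
      2 * (N + 1) ^ 2 * (Γ0 n + Γ1 n + Γ2 n + Γ3 n) ^ 6 *
        |eval (x n ω) (pderiv p.2 (Θ n ω p.1))|)
    (((w0.and w1).and (w2.and w3)).pos.mono (t.mono fun n t ω _ ⟨⟨⟨F', i, u⟩, v⟩, w, _, σ, z⟩ => by
      have p0 := s0.pos n
      have p1 := s1.pos n
      have p2 := s2.pos n
      have p3 := s3.pos n
      obtain ⟨u1, u2⟩ := f2 n i _ F' u.1 u.2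
      refine key (z.mono p3 (by linarith) le_rfl le_rfl) (s.1 n) (by omega) (he n ω)
        ((f1 n i _).trans E.le_succ) u1 (i := i) (u2.trans (mul_le_mul (by linarith)
          ((v i).1.trans (mul_le_mul_of_nonneg_right (by linarith) (abs_nonneg _)))
          (Real.sqrt_nonneg _) (s.pos n).le))
        (fun j => (v j).2.trans (mul_le_mul (by linarith) ?_ (abs_nonneg _) (s.pos n).le))
        (t.trans ((le_of_eq (by congr 1; ring)).trans (exp_le_two_pow _)))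
      rw [eval_X]
      exact ((norm_le_pi_norm _ j).trans w).trans (by linarith)))
  obtain ⟨n, ω, -, k, -⟩ := hp.ex.exists
  exact ⟨p.1, p.2, k, _, hp, gp_iff.2 ⟨_, (s.pow 6).const_mul hM
    (one_le_mul_of_one_le_of_one_le one_le_two (one_le_pow₀ n1)),
    Whp.of_ev (hp.sure.mono fun n u ω v => (u ω v).2.2)⟩⟩

end Pool.Agent.MP_5168f5_an.AN.St
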