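import Pool.Agent.MP_5168f5_an.AN.SpecS
import Pool.Agent.MP_5168f5_an.AN.S20Full

/-! Kakeya sets in all dimensions: algebraic coordinates do not carry the density. -/

namespace Pool.Agent.MP_5168f5_an.AN.St

open H19 H17S H17F Filter MvPolynomial
open G39 (nu RG dl REM Nm)
open Pk (cn mons)
open Nc (Pl ev jac NiceAt Bas)

namespace StCLA

theorem sub_prod {J : Type} {M : ℕ → ℕ} {L : J → ℕ → ℝ} (hM : Big M) (h : ∀ j, Sub M (L j))
    (s : Finset J) : Sub M fun n => ∏ j ∈ s, L j n := by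
  classical
  induction s using Finset.induction_on with
  | empty => simpa using hM.sub le_rfl
  | insert a s ha ih => simpa only [Finset.prod_insert ha] using (h a).mul ih

theorem cn_nm {d E : ℕ} {m : Fin d →₀ ℕ} {F : Pl d} (h : Nm E m F) :
    cn F ≤ ((mons (Fin d) E).card : ℝ) + 1 := by
  rw [Pk.kc.sup F _ ((Pk.pCnt.sup E F).1 h.1)]
  refine (Finset.sum_le_card_nsmul _ _ 1 fun α _ => h.2.2 α).trans ?_
  simp

/-- One coordinate has few cells over a cell of the coordinates `e`. -/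
theorem coord (hc : Clus) {N i : ℕ} {Ω : ℕ → Type} {β : Bool → ℕ → Type} (P : ∀ n, FP (Ω n))
    (M : ℕ → ℕ) (x : ∀ n, Ω n → V N) (Z : ∀ b n, Ω n → β b n) (e : Fin i → Fin N) (hM : Big M)
    (hb : Bdd P M x) (c : Fin N)
    (h : c ∉ Set.range e → Th P M (sel x (Fin.cons c e : Fin (i + 1) → Fin N)) Z) :
    ∃ c₀ : ℝ, 0 < c₀ ∧ ∀ (a : ℝ) (t : ℕ → ℕ), 0 < a → (∀ᶠ n in UF, a * M n ≤ t n) →
      (∀ n, (t n : ℝ) ≤ c₀ * M n) → Gd P M fun n G Γ =>
        S20.Few (P n) (fun ω => fl1 (t n) (x n ω c))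
          (fun ω => (fl (t n) (sel x e n ω), Z false n ω)) G Γ := by
  by_cases hr : c ∈ Set.range e
  · obtain ⟨b, rfl⟩ := hr
    refine ⟨1, one_pos, fun a t _ _ _ => ⟨fun _ _ => True, fun _ => 1,
      Whp.of_ev (Eventually.of_forall fun _ _ _ => trivial), hM.sub le_rfl,
      Eventually.of_forall fun n u _ => ⟨{fl1 (t n) (x n u (e b))}, by simp, fun v _ k _ => ?_⟩⟩⟩
    exact Finset.mem_singleton.2 (congrFun (congrArg Prod.fst k) b)
  obtain ⟨E, m, c₀, F, h0, G, Γ, a1, a2, a3⟩ := h hr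
  obtain ⟨G', Γ', b1, b2, b3⟩ := hb
  obtain ⟨C, r, hC, hcl⟩ := hc i E
  have hK : (1 : ℝ) ≤ ((mons (Fin (i + 1)) E).card : ℝ) + 1 := by
    linarith [Nat.cast_nonneg (α := ℝ) (mons (Fin (i + 1)) E).card]
  have s1 := (a2.mul b2).const_mul hM hK
  have s2 := (s1.pow r).const_mul hM hC
  refine ⟨c₀, h0, fun a t ha ht ht' => ⟨fun n ω => G n ω ∧ G' n ω, _, a1.and b1, s2, ?_⟩⟩
  filter_upwards [a3, b3, ht, s2.2 (a * lg) (mul_pos ha lg_pos)] with n a3 b3 ht s3 u hu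
  by_cases ex : ∃ w ∈ (P n).S, Z false n w = Z false n u ∧ G n w
  swap
  · exact ⟨∅, by simpa using (s2.pos n).le, fun v hv k g =>
      (ex ⟨v, hv, congrArg Prod.snd k, g.1⟩).elim⟩
  obtain ⟨w, w1, w2, w3⟩ := ex
  have p1 := a2.1 n
  have p2 := b2.1 n
  have p3 : 1 ≤ Γ n * Γ' n := one_le_mul_of_one_le_of_one_le p1 p2
  have p4 : Γ n * Γ' n ≤ (((mons (Fin (i + 1)) E).card : ℝ) + 1) * (Γ n * Γ' n) :=
    le_mul_of_one_le_left (by linarith) hK
  have nm : Nm E m (F false n (Z false n u)) := by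
    rw [← w2, ← (a3 w w1 w3).1]; exact (a3 w w1 w3).2.1
  obtain ⟨T, t1, t2⟩ := hcl (F false n (Z false n u)) _ (t n) (fl (t n) (sel x e n u)) nm.1
    ((cn_nm nm).trans (le_mul_of_one_le_right (by linarith) p3)) (s1.1 n) (s3.trans (by
      rw [two_pow_eq]
      exact Real.exp_le_exp.2 (by nlinarith [lg_pos])))
  refine ⟨T, t1, fun v hv k g => ?_⟩
  obtain ⟨q1, -, q2, q3, -⟩ := a3 v hv g.1
  have k2 : Z false n v = Z false n u := congrArg Prod.snd k
  rw [q1, k2] at q2 q3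
  refine t2 (sel x (Fin.cons c e : Fin (i + 1) → Fin N) n v) ?_ (congrArg Prod.fst k) ?_ ?_
  · refine (pi_norm_le_iff_of_nonneg (by linarith)).2 fun j => ?_
    refine (norm_le_pi_norm (x n v) _).trans ((b3 v hv g.2).trans ?_)
    nlinarith
  · refine q2.trans ?_
    rw [le_div_iff₀ (by positivity)]
    have h1 : (2 : ℝ) ^ t n ≤ (dl M c₀ n)⁻¹ := by
      rw [G39.dl_inv]
      exact (two_pow_le_exp _).trans (Real.exp_le_exp.2 (ht' n))
    have h2 := mul_le_mul_of_nonneg_left h1 (G39.dl_pos M c₀ n).le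
    rw [mul_inv_cancel₀ (G39.dl_pos M c₀ n).ne'] at h2
    linarith
  · exact (inv_anti₀ (by linarith) (by nlinarith)).trans q3

end StCLA

theorem rCL : OfCL := by
  intro hc N i Ω β P M x Z e e' hM hb h hf
  classical
  choose c c0 hc' using fun a : Fin i => StCLA.coord hc P M x Z e hM hb (e' a) (h (e' a))
  have s0 : 0 ≤ ∑ a, (c a)⁻¹ := Finset.sum_nonneg fun a _ => (inv_pos.2 (c0 a)).le
  have d0 : 0 < (1 + ∑ a, (c a)⁻¹)⁻¹ := by positivity
  have d1 : (1 + ∑ a, (c a)⁻¹)⁻¹ ≤ 1 := inv_le_one_of_one_le₀ (by linarith)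
  have d2 : ∀ a, (1 + ∑ a, (c a)⁻¹)⁻¹ ≤ c a := fun a => inv_le_of_inv_le₀ (c0 a) (by
    linarith [Finset.single_le_sum (f := fun a => (c a)⁻¹) (fun a _ => (inv_pos.2 (c0 a)).le)
      (Finset.mem_univ a)])
  generalize (1 + ∑ a, (c a)⁻¹)⁻¹ = d at d0 d1 d2
  obtain ⟨f1, a, ha, f2⟩ := hM.frac_floor d0 d1
  have f3 : ∀ b n, ((⌊d * M n⌋₊ : ℕ) : ℝ) ≤ c b * M n := fun b n =>
    (Nat.floor_le (by positivity)).trans (mul_le_mul_of_nonneg_right (d2 b) (Nat.cast_nonneg _))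
  obtain ⟨t, f1, f2, f3⟩ : ∃ t : ℕ → ℕ, (∀ n, t n ≤ M n) ∧ (∀ᶠ n in UF, a * M n ≤ t n) ∧
      ∀ b n, (t n : ℝ) ≤ c b * M n := ⟨_, f1, f2, f3⟩
  refine ⟨a, t, ha, f2, ?_⟩
  have h1 : FullAt P M (sel x e') (Z false) t :=
    S20.full_at hM hf (K := 1) (Eventually.of_forall fun n => by rw [one_mul]; exact f1 n)
  choose G Γ g1 g2 g3 using fun b => hc' b a t ha f2 (f3 b)
  have h2 : S20.FS P M (fun n ω => fl (t n) (sel x e' n ω))
      (fun n ω => (fl (t n) (sel x e n ω), Z false n ω)) fun _ _ => 1 := by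
    refine S20.fs_of_few ⟨fun n ω => ∀ b, G b n ω, _, Whp.all g1,
      StCLA.sub_prod hM g2 Finset.univ, ?_⟩
    filter_upwards [eventually_all.2 g3] with n g u hu
    choose T t1 t2 using fun b => g b u hu
    refine ⟨Fintype.piFinset T, ?_, fun v hv k w => Fintype.mem_piFinset.2 fun b =>
      t2 b v hv k (w b)⟩
    rw [Fintype.card_piFinset, Nat.cast_prod, mul_one]
    exact Finset.prod_le_prod (fun _ _ => Nat.cast_nonneg _) fun b _ => t1 b
  exact (S20.fullAt_iff hM).2 ((((S20.fullAt_iff hM).1 h1).cover hM (S20.fnE_const _) h2).le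
    (Eventually.of_forall fun _ _ _ => (one_mul _).le))

end Pool.Agent.MP_5168f5_an.AN.St
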