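import Pool.Agent.MP_5168f5_an.AN.SpecS0

/-! Few cells contain a point with a small value and a large derivative. -/

namespace Pool.Agent.MP_5168f5_an.AN.St

open H19 H17S H17F MvPolynomial G39 Pk Nc Filter

namespace StClusA

/-- The restriction to a coordinate line. -/
noncomputable def res {σ : Type} [DecidableEq σ] (x : σ → ℝ) (b : σ) (F : MvPolynomial σ ℝ) :
    Polynomial ℝ := aeval (Function.update (fun i => Polynomial.C (x i)) b Polynomial.X) F

variable {σ : Type} [DecidableEq σ] (x : σ → ℝ) (b : σ)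

theorem res_eval (F : MvPolynomial σ ℝ) (s : ℝ) :
    (res x b F).eval s = eval (Function.update x b s) F := by
  unfold res
  induction F using MvPolynomial.induction_on with
  | C c => simp
  | add p q hp hq => simp [hp, hq]
  | mul_X p i hp =>
    rw [map_mul, Polynomial.eval_mul, hp, map_mul, aeval_X, eval_X]
    by_cases e : i = b
    · subst e
      simp
    · simp [e]

theorem res_der (F : MvPolynomial σ ℝ) : (res x b F).derivative = res x b (pderiv b F) := by
  unfold res
  induction F using MvPolynomial.induction_on with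
  | C c => simp
  | add p q hp hq => simp [hp, hq]
  | mul_X p i hp =>
    rw [map_mul, Polynomial.derivative_mul, hp, pderiv_mul, map_add, map_mul, map_mul, aeval_X]
    by_cases e : i = b
    · subst e
      simp
    · simp [e, pderiv_X_of_ne e]

theorem res_deg {F : MvPolynomial σ ℝ} {E : ℕ} (h : F.totalDegree ≤ E) :
    (res x b F).natDegree ≤ E := by
  simpa [res] using aeval_natDegree_le (n := 1) F h
    (Function.update (fun i => Polynomial.C (x i)) b Polynomial.X) fun i => by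
      by_cases e : i = b
      · subst e
        simp
      · simp [e]

end StClusA

open StClusA in
theorem rClus : Clus := by
  classical
  intro i E
  have E0 : (0 : ℝ) ≤ E := Nat.cast_nonneg E
  refine ⟨(2 * E + 1) * (8 * E + 11), E + 2, by nlinarith, fun F Γ t c hF hc hΓ ht => ?_⟩
  by_cases ex : ∃ y : Fin (i + 1) → ℝ, ‖y‖ ≤ Γ ∧ flv t (Fin.tail y) = c
  swap
  · exact ⟨∅, by simpa using by positivity, fun y a b => (ex ⟨y, a, b⟩).elim⟩
  obtain ⟨x, hx, hxc⟩ := ex
  have G0 : 0 < Γ := one_pos.trans_le hΓ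
  have p1 : 1 ≤ Γ ^ E := one_le_pow₀ hΓ
  have p2 : 1 ≤ Γ ^ (E + 2) := one_le_pow₀ hΓ
  have t0 : (0 : ℝ) < 2 ^ t := by positivity
  obtain ⟨T, h1, h2⟩ := S20.root (res x 0 F) E 0 ((E + 1) * Γ ^ (E + 1) / 2 ^ t) (2 * Γ)⁻¹
    (res_deg x 0 hF) (by positivity)
  choose U u1 u2 using fun z : ℝ => cells_near (ι := Unit) t (fun _ => z)
    (L := 4 * (E + 1) * Γ ^ (E + 2)) (by positivity)
  refine ⟨T.biUnion fun z => (U z).image (· ()), ?_, fun y a b d e => ?_⟩
  · have k1 : ((T.biUnion fun z => (U z).image (· ())).card : ℝ) ≤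
        ∑ z ∈ T, (((U z).image (· ())).card : ℝ) := by exact_mod_cast Finset.card_biUnion_le
    have k2 := Finset.sum_le_card_nsmul T (fun z => (((U z).image (· ())).card : ℝ))
      ((8 * E + 11) * Γ ^ (E + 2)) fun z _ => by
        have := u1 z
        rw [Fintype.card_unit, pow_one] at this
        refine (Nat.cast_le.2 Finset.card_image_le).trans (this.trans ?_)
        linarith
    have k3 : (T.card : ℝ) ≤ 2 * E + 1 := by exact_mod_cast h1
    rw [nsmul_eq_mul] at k2
    rw [mul_assoc]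
    exact k1.trans (k2.trans (mul_le_mul_of_nonneg_right k3 (by positivity)))
  · have nr : ∀ j, |y j| ≤ Γ ∧ |Function.update x 0 (y 0) j| ≤ Γ ∧
        |y j - Function.update x 0 (y 0) j| ≤ (2 ^ t)⁻¹ := fun j => by
      refine ⟨(norm_le_pi_norm y j).trans a, ?_⟩
      refine Fin.cases ?_ (fun l => ?_) j
      · simpa using (norm_le_pi_norm y 0).trans a
      · rw [Function.update_of_ne (Fin.succ_ne_zero l)]
        exact ⟨(norm_le_pi_norm x _).trans hx,
          (abs_sub_lt_of_fl1_eq (congrFun (b.trans hxc.symm) l)).le⟩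
    obtain ⟨d1, d2⟩ := kc.der F E 0 hF
    have l1 := kc.lip F E Γ _ _ _ hF hΓ (by positivity) nr
    have l2 := kc.lip (pderiv 0 F) E Γ _ _ _ (d2.trans (Nat.sub_le _ _)) hΓ (by positivity) nr
    have l3 : E * cn F * Γ ^ E * (2 ^ t)⁻¹ ≤ E * Γ * Γ ^ E * (2 ^ t)⁻¹ := by gcongr
    have l4 : E * cn (pderiv 0 F) * Γ ^ E * (2 ^ t)⁻¹ ≤ E * (E * Γ) * Γ ^ E * (2 ^ t)⁻¹ := by
      have := d1.trans (mul_le_mul_of_nonneg_left hc E0)
      gcongr
    have l5 : E * (E * Γ) * Γ ^ E * (2 ^ t)⁻¹ ≤ (2 * Γ)⁻¹ := by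
      rw [← div_eq_mul_inv, ← one_div, div_le_div_iff₀ t0 (by positivity), one_mul]
      refine le_trans ?_ ht
      rw [show E * (E * Γ) * Γ ^ E * (2 * Γ) = 2 * E ^ 2 * Γ ^ (E + 2) by ring]
      exact mul_le_mul_of_nonneg_right (by nlinarith) (by positivity)
    have l6 : Γ / 2 ^ t ≤ Γ ^ (E + 1) / 2 ^ t :=
      div_le_div_of_nonneg_right (le_self_pow₀ hΓ E.succ_ne_zero) t0.le
    obtain ⟨z, z1, z2⟩ := h2 (y 0) (by
      rw [sub_zero, res_eval]
      have := abs_sub_abs_le_abs_sub (eval (Function.update x 0 (y 0)) F) (eval y F)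
      rw [abs_sub_comm] at this
      have q : (E + 1) * Γ ^ (E + 1) / 2 ^ t =
          E * Γ * Γ ^ E * (2 ^ t)⁻¹ + Γ ^ (E + 1) / 2 ^ t := by ring
      linarith) (by
      rw [res_der, res_eval]
      have := abs_sub_abs_le_abs_sub (eval y (pderiv 0 F))
        (eval (Function.update x 0 (y 0)) (pderiv 0 F))
      have q : Γ⁻¹ = (2 * Γ)⁻¹ + (2 * Γ)⁻¹ := by field_simp; norm_num
      linarith)
    refine Finset.mem_biUnion.2 ⟨z, z1, Finset.mem_image.2 ⟨_, u2 z (fun _ => y 0) ?_, rfl⟩⟩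
    refine (pi_norm_le_iff_of_nonneg (by positivity)).2 fun _ => z2.trans_eq ?_
    field_simp
    ring

end Pool.Agent.MP_5168f5_an.AN.St
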