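import Pool.Agent.MP_5168f5_an.AN.SpecS
import Pool.Agent.MP_5168f5_an.AN.S20Ds

/-! A point is generic for the cell of its copy. -/

namespace Pool.Agent.MP_5168f5_an.AN.St

open H19 H17S H17F Filter MvPolynomial
open G39 (nu RG dl REM Nm)
open Pk (cn mons)
open Nc (Pl ev jac NiceAt Bas)

namespace StCopA

theorem pb_le {Ω β : Type} (P : FP Ω) (Z : Ω → β) (S : Ω × Ω → Prop) {ε : ℝ}
    (h : ∀ ω ∈ P.S, pb (cv P Z (Z ω)) (fun v => S (v, ω)) ≤ ε) : pb (glue P P Z Z) S ≤ ε := by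
  refine ((R4.kg.swap P P Z Z (Law.rfl Z)).pb_eq S).trans_le ?_
  rw [G39.pb_ind, KGA.E_glue]
  exact (P.E_mono h).trans (P.E_const ε).le

variable {d E : ℕ} {Ω W Λ Λ' : ℕ → Type}

theorem fac {R : ∀ n, FP (W n)} {F : ∀ n, W n → Pl d} {q : ∀ n, W n → Λ n} (h : FnE R F q)
    (e : ∀ n v, (F n v).totalDegree ≤ E) : ∃ T : ∀ n, Λ n → Pl d,
      (∀ n z, (T n z).totalDegree ≤ E) ∧ ∀ᶠ n in UF, ∀ v ∈ (R n).S, F n v = T n (q n v) := by
  have k : ∀ n z, ∃ T : Pl d, T.totalDegree ≤ E ∧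
      (Fn (R n) (F n) (q n) → ∀ v ∈ (R n).S, q n v = z → F n v = T) := fun n z => by
    by_cases c : ∃ v ∈ (R n).S, q n v = z
    · obtain ⟨v, hv, c⟩ := c
      exact ⟨F n v, e n v, fun f u hu b => f u hu v hv (b.trans c.symm)⟩
    · exact ⟨0, by simp, fun _ u hu b => (c ⟨u, hu, b⟩).elim⟩
  choose T a b using k
  exact ⟨T, a, h.mono fun n f v hv => b n _ f v hv rfl⟩

variable {P : ∀ n, FP (Ω n)} (Z : ∀ n, Ω n → Λ' n) {G : ∀ n, Ω n → Prop}

theorem snd (n : ℕ) : Law (pr P Z n) Prod.snd (P n) id := R4.kg.snd _ _ _ _ (Law.rfl _)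

theorem w1 (h : Whp P G) : Whp (pr P Z) fun n v => G n v.1 :=
  S20.whp_pull h (Eventually.of_forall fun _ => R4.kg.fst _ _ _ _)

theorem w2 (h : Whp P G) : Whp (pr P Z) fun n v => G n v.2 :=
  S20.whp_pull h (Eventually.of_forall (snd Z))

theorem self (T : ∀ n, Λ n → Pl d) (Q : ∀ n, Ω n → Λ n) : FnE P (fun n ω => T n (Q n ω)) Q :=
  Eventually.of_forall fun n _ _ _ _ e => congrArg (T n) e

end StCopA

open StCopA

theorem rCop : OfCop := fun tr => by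
  refine ⟨fun P M x Z ι Q C rem few fq h => ⟨h.big, h.fn.mono fun n a => (snd Z n).fn a,
    fun E => ?_, fun E c F hc hF hd => ?_⟩, fun P M Z Q ν Θ D h =>
    ⟨h.fn.mono fun n a => (snd Z n).fn a, fun n v => h.deg n v.2, ?_, fun E c H hc hH hd => ?_,
      fun n v => h.zero n v.2, fun E => w2 Z (h.bas E)⟩⟩
  · obtain ⟨G₀, Γ₀, a0, b0, c0⟩ := h.up E
    obtain ⟨G, Γ, a, b, c⟩ := tr P M x Z ι G₀ C E h.big rem few a0
    refine ⟨_, _, (w1 Z a).and (w2 Z a), b.mul b0, ?_⟩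
    filter_upwards [c0, c, fq, h.fn] with n c0 c fq fn v hv g F hF
    obtain ⟨v1, v2, v3⟩ := (R4.kg.mem _ _ _ _ v (Law.rfl _)).1 hv
    rw [mul_assoc]
    refine c _ v2 g.2 _ v1 g.1 v3.symm F _ hF fun u hu g0 e1 e2 => ?_
    rw [← fn u hu _ v2 (fq u hu _ v2 (Prod.ext e2 e1))]
    exact c0 u hu g0 F hF
  · obtain ⟨T, t1, t2⟩ := fac hF hd
    obtain ⟨G, Γ, a, b, r⟩ := rem E
    have w := h.dn E (c / 2) _ (half_pos hc) (self T Q) fun n ω => t1 n _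
    have k : Whp (pr P Z) fun n v => ¬(G n v.1 ∧ (G n v.2 ∧
        dl M (c / 2) n * nc (P n) (x n) (Q n) v.2 (T n (Q n v.2)) ≤
          |eval (x n v.2) (T n (Q n v.2))|) ∧ |eval (x n v.1) (T n (Q n v.2))| <
            dl M c n * nc (P n) (x n) (Q n) v.2 (T n (Q n v.2))) := fun ε hε => by
      have s := b.const_mul h.big (C := 2 * (ε⁻¹ ^ (C * E) + 1))
        (by linarith [pow_nonneg (inv_pos.2 hε).le (C * E)])
      filter_upwards [r, G39.dl_lt h.big hε one_pos, s.2 _ (half_pos hc)] with n r e1 e2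
      simp only [not_not]
      refine pb_le _ _ _ fun ω hω => le_of_not_gt fun e3 => ?_
      obtain ⟨u, -, -, ⟨g, e4⟩, e5⟩ := ex_of_pb (hε.trans e3)
      have e6 := r ω hω g _ ⟨_, t1 n (Q n ω), fun _ => rfl⟩
        (dl M c n * nc (P n) (x n) (Q n) ω (T n (Q n ω))) ε e1.le
        (e3.le.trans (pb_mono fun _ _ k => ⟨k.1, k.2.2.le⟩))
      have d0 := G39.dl_pos M (c / 2) n
      have e7 := (mul_pos_iff_of_pos_left (G39.dl_pos M c n)).1 ((abs_nonneg _).trans_lt e5)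
      have e8 := e4.trans e6
      rw [G39.dl_half M c, ← mul_assoc, ← mul_assoc, mul_le_mul_iff_left₀ e7,
        le_mul_iff_one_le_left d0] at e8
      rw [← G39.dl_inv, ← one_div (dl M (c / 2) n), le_div_iff₀ d0] at e2
      nlinarith [mul_pos (b.pos n) d0]
    refine (((w1 Z a).and (w2 Z (a.and w))).and k).mono (t2.mono fun n t v hv k => ?_)
    rw [t v hv]
    exact not_lt.1 fun e => k.2 ⟨k.1.1, k.1.2, e⟩
  · obtain ⟨Γ, a, b⟩ := S20.gp_iff.1 h.le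
    exact S20.gp_iff.2 ⟨Γ, a, w2 Z b⟩
  · obtain ⟨T, t1, t2⟩ := fac hH hd
    refine (w2 Z (h.ind E c _ hc (self T Q) fun n ω => t1 n _)).mono
      (t2.mono fun n t v hv k => ?_)
    rw [t v hv]
    exact k

end Pool.Agent.MP_5168f5_an.AN.St
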