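import Pool.Agent.MP_5168f5_an.AN.SpecS2

/-! Kakeya sets in all dimensions: the frame is full. -/

namespace Pool.Agent.MP_5168f5_an.AN.St

open H19 H17S H17F Filter MvPolynomial
open G39 (nu RG dl REM Nm)
open Pk (cn mons)
open Nc (Pl ev jac NiceAt Bas)

namespace StDenA

theorem ev_bs {d : ℕ} (b : Fin (d + 1)) (H : Pl d) {y y' : V (d + 1)}
    (h : Function.update y b 0 = Function.update y' b 0) :
    eval y (rename b.succAbove H) = eval y' (rename b.succAbove H) := by
  rw [eval_rename, eval_rename]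
  congr 2
  funext i
  simpa [Function.update_of_ne (b.succAbove_ne i)] using congrFun h (b.succAbove i)

end StDenA

open StDenA S20 in
theorem rDen : OfDen := fun pre => ⟨fun P M x Z ι b hM hι h K => by
  obtain ⟨Γ, a, w⟩ := gp_iff.1 hι
  have f : AN.Few (pr P Z) M 0 fun n v => ι n v.2 := gp_iff.2 ⟨Γ, a, whp_pull w
    (Eventually.of_forall fun n => R4.kg.snd (P n) (P n) (Z n) (Z n) (Law.rfl _))⟩
  have m : ∀ n, ∀ v ∈ (pr P Z n).S, Z n v.2 = Z n v.1 := fun n v hv =>
    ((R4.kg.mem (P n) (P n) (Z n) (Z n) v (Law.rfl _)).1 hv).2.2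
  refine ((((h K).pull (Eventually.of_forall fun n => R4.kg.fst (P n) (P n) (Z n) (Z n))).side hM
    (fs_idx0 hM f _) (fnE_const _)).fine (Eventually.of_forall fun n u hu v hv k => ?_)
      (Eventually.of_forall fun n u hu v hv k => ?_) (Eventually.of_forall fun n => Fn.fst _ _)).le
    (Eventually.of_forall fun _ _ _ => (one_mul _).le)
  · simp only [Prod.mk.injEq, m n u hu, m n v hv] at k ⊢
    exact ⟨k.1.1, k.1.2, k.2⟩
  · simp only [Prod.mk.injEq, m n u hu, m n v hv] at k ⊢
    exact ⟨⟨k.1, k.2.1⟩, k.2.2⟩,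
  fun {d} _ _ _ P M y q R b B G D hM hf hD hq hs ⟨g, Γ, g1, g2, g3⟩ h K => by
  obtain ⟨C, C1, hC⟩ := pre D
  have f : FS P M (fun n ω => fl1 ((K + 1) * M n) (y n ω b))
      (fun n v => (fl1 (K * M n) (eval (y n v) (G n v)), R n v, Function.update (y n v) b 0))
      fun _ _ => 1 := by
    refine ⟨g, _, g1, g2.const_mul hM C1, ?_⟩
    filter_upwards [g3, hf, hq] with n u1 u2 u3 a ha _
    obtain ⟨T, t1, t2⟩ := hC _ (G n a) b (y n a) (Γ n) (M n) (K * M n)
      (fl1 (K * M n) (eval (y n a) (G n a))) (hD n a) (g2.1 n)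
    refine ⟨T, t1.trans_eq (mul_one _).symm, fun v hv k gv => ?_⟩
    have e : G n v = G n a := congrFun (u2 v hv a ha (u3 v hv a ha (congrArg (·.2.1) k))) 0
    rw [add_mul, one_mul, add_comm]
    refine t2 _ (fun i hi => ?_) (by simpa only [e] using congrArg (·.1) k)
      (e ▸ u1 v hv gv)
    simpa [Function.update_of_ne hi] using congrFun (congrArg (·.2.2) k) i
  have k1 := ((hs K).cover hM (fnE_const _) f).ctx
    (A := fun n v => (fl (K * M n) (cht (bs b B n) (y n) v), q n v)) hM ((hf.and hq).mono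
      fun n u v hv a ha k => by
        have e := u.2 v hv a ha (congrArg (·.1) k)
        refine Prod.ext (congrArg (fl (K * M n)) (_root_.funext fun i => ?_)) e
        have e' : bs b B n v i = bs b B n a i := congrFun (u.1 v hv a ha e) i.succ
        exact (congrArg (eval _) e').trans (ev_bs b _ (congrArg (·.2) k))) (fnE_const _)
  refine (fullAt_iff hM).2 (((((fullAt_iff hM).1 (h K)).chain k1).fine fnE_rfl fnE_rfl
    (Eventually.of_forall fun n u _ v _ k => ?_)).le
      (Eventually.of_forall fun n _ _ => le_of_eq ?_))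
  · exact Prod.ext (_root_.funext fun i => congrFun (congrArg (·.1) k) i.succ)
      (congrFun (congrArg (·.1) k) 0)
  · simp only [cvol, pow_succ, mul_inv, one_mul]⟩

end Pool.Agent.MP_5168f5_an.AN.St
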