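import Pool.Agent.MP_5168f5_an.AN.SpecS0
import Pool.Agent.MP_5168f5_an.AN.NcNu

/-! Kakeya sets in all dimensions: a polynomial with small derivative in the first variable. -/

namespace Pool.Agent.MP_5168f5_an.AN.St

open H19 H17S H17F MvPolynomial G39 Pk Nc Filter

namespace StDerA

/-- The coefficients of the part that depends on the first variable. -/
theorem co {i : ℕ} (H : MvPolynomial (Fin (i + 1)) ℝ) (m : Fin (i + 1) →₀ ℕ) :
    coeff m (H - rename Fin.succ (killCompl (Fin.succ_injective i) H)) =
      if m 0 = 0 then 0 else coeff m H := by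
  rw [coeff_sub]
  split_ifs with h
  · have e : m = Finsupp.mapDomain Fin.succ (Finsupp.tail m) := by
      ext j
      refine Fin.cases ?_ (fun k => ?_) j
      · rw [h, Finsupp.mapDomain_of_notMem_range _ _ (by simp)]
      · rw [Finsupp.mapDomain_apply (Fin.succ_injective i), Finsupp.tail_apply]
    rw [e, coeff_rename_mapDomain _ (Fin.succ_injective i), coeff_killCompl, sub_self]
  · rw [coeff_rename_eq_zero _ _ _ fun u e => absurd ?_ h, sub_zero]
    rw [← e, Finsupp.mapDomain_of_notMem_range _ _ (by simp)]

theorem le {i : ℕ} (H G : MvPolynomial (Fin (i + 1)) ℝ)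
    (h : ∀ m, coeff m G = if m 0 = 0 then 0 else coeff m H) : cn G ≤ cn (pderiv 0 H) := by
  classical
  have a : ∀ m ∈ G.support, m - Finsupp.single 0 1 + Finsupp.single 0 1 = m ∧
      coeff m G = coeff m H := fun m hm => by
    have k : m 0 ≠ 0 := fun e => mem_support_iff.1 hm (by rw [h, if_pos e])
    exact ⟨tsub_add_cancel_of_le (Finsupp.single_le_iff.2 (by omega)), by rw [h, if_neg k]⟩
  rw [kc.sup (pderiv 0 H) (_ ∪ G.support.image (· - Finsupp.single 0 1)) Finset.subset_union_left]
  refine le_trans ?_ (Finset.sum_le_sum_of_subset_of_nonneg Finset.subset_union_right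
    fun _ _ _ => abs_nonneg _)
  rw [Finset.sum_image fun m u m' v e => by rw [← (a m u).1, ← (a m' v).1]; exact congrArg (· + _) e]
  refine Finset.sum_le_sum fun m u => ?_
  rw [coeff_pderiv, (a m u).1, (a m u).2, abs_mul]
  exact le_mul_of_one_le_right (abs_nonneg _)
    ((le_add_of_nonneg_left (Nat.cast_nonneg _)).trans (le_abs_self _))

end StDerA

theorem rDer0 : Der0 := by
  intro i E H h
  have k := StDerA.le H _ (StDerA.co H)
  refine ⟨killCompl (Fin.succ_injective i) H, ?_, k, ?_⟩
  · refine (kc.deg _ H E 1 h fun j => ?_).trans_eq (mul_one E)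
    split_ifs <;> simp
  · have a := kc.add (rename Fin.succ (killCompl (Fin.succ_injective i) H))
      (H - rename Fin.succ (killCompl (Fin.succ_injective i) H))
    rw [add_sub_cancel, kc.ren _ _ (Fin.succ_injective i)] at a
    linarith

end Pool.Agent.MP_5168f5_an.AN.St
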