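import Pool.Agent.MP_5168f5_an.AN.SpecS
import Pool.Agent.MP_5168f5_an.AN.S20Ds

/-! Full variables are rich. -/

namespace Pool.Agent.MP_5168f5_an.AN.St

open H19 H17S H17F Filter MvPolynomial
open G39 (nu RG dl REM Nm)
open Pk (cn mons)
open Nc (Pl ev jac NiceAt Bas)

namespace StFRA

variable {d : ℕ} {Ω Λ : ℕ → Type} {P : ∀ n, FP (Ω n)} {M t : ℕ → ℕ} {y : ∀ n, Ω n → V d}
  {A : ∀ n, Ω n → Λ n} {G : ∀ n, Ω n → Prop}

/-- Rare events are rare in the typical cell. -/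
theorem dn (h : Whp P G) (A : ∀ n, Ω n → Λ n) {η : ℝ} (hη : 0 < η) :
    Whp P fun n ω => pb (cv (P n) (A n) (A n ω)) (fun v => ¬G n v) ≤ η :=
  G39.whp_mark (fun _ _ => pb_nonneg _ _) (fun ε hε => (h ε hε).mono fun n e =>
    (K3.pb_exp (P n) (A n) fun _ v => ¬G n v).symm.trans_le e) hη

/-- Events that are rare in the typical cell are rare. -/
theorem up {S : ∀ n, Λ n → Ω n → Prop}
    (h : ∀ η : ℝ, 0 < η → Whp P fun n ω => pb (cv (P n) (A n) (A n ω)) (S n (A n ω)) ≤ η) :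
    Whp P fun n ω => ¬S n (A n ω) ω := fun ε hε => by
  filter_upwards [h (ε / 2) (by positivity) (ε / 2) (by positivity)] with n e
  rw [G39.pb_ind] at e
  rw [pb_congr fun _ _ => not_not, K3.pb_exp]
  refine ((P n).E_mono (G := fun ω => ε / 2 + G39.ind
    (¬pb (cv (P n) (A n) (A n ω)) (S n (A n ω)) ≤ ε / 2)) fun ω _ => ?_).trans ?_
  · by_cases c : pb (cv (P n) (A n) (A n ω)) (S n (A n ω)) ≤ ε / 2
    · exact c.trans (le_add_of_nonneg_right (G39.ind_nn _))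
    · rw [G39.ind_pos c]
      exact (pb_le_one _ _).trans (by linarith)
  · rw [FP.E_add, FP.E_const]
    linarith

theorem rich {a : ℝ} (hM : Big M) (hb : Bdd P M y) (ha : 0 < a) (ht : ∀ᶠ n in UF, a * M n ≤ t n)
    (hf : FullAt P M y A t) : Rich P M y A := fun E c ε hc hε => by
  obtain ⟨C, hC, hs⟩ := Pk.subP d E
  obtain ⟨G₁, K, w₁, s₁, e₁⟩ := hb
  obtain ⟨G₂, D, w₂, s₂, e₂⟩ := hf
  have hb : 0 < min (a / 4) (c / 2) := by positivity
  set b := min (a / 4) (c / 2) with eb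
  have hc₁ : 0 < b / ((d * E : ℕ) + 1) := by positivity
  set c₁ := b / ((d * E : ℕ) + 1) with ec
  have k : ∀ n, dl M b n ≤ dl M c₁ n ^ (d * E) := fun n => by
    rw [G39.dl_pow]
    refine G39.dl_anti M ?_ n
    rw [ec, ← mul_div_assoc, div_le_iff₀ (by positivity)]
    linarith
  refine (dn (w₂.and w₁) A (half_pos hε)).mono ?_
  filter_upwards [e₁, e₂, ht, G39.sub_dl ((s₁.pow E).const_mul hM hC) (c := a / 4) (by positivity),
    K3.dl_sm hM C (half_pos hc), G39.dl_lt hM (half_pos hε) (half_pos hc₁),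
    G39.sub_dl ((s₂.const_mul hM hC).mul (s₁.pow d)) (half_pos hc₁)]
    with n e₁ e₂ ht a₁ a₂ a₃ a₄ ω hω h F hF
  have p₁ := G39.dl_pos M (c₁ / 2) n
  have p₂ := G39.dl_pos M (c / 2) n
  have p₃ := G39.dl_pos M (a / 4) n
  have q := hs (cv (P n) (A n) (A n ω)) (y n) (fun v => G₂ n v ∧ G₁ n v) F (K n) (D n)
    (dl M c₁ n) (t n) hF (s₁.1 n) (s₂.pos n).le (fun v hv g => e₁ v (cE_sub hv) g.2)
    (fun z => (pb_mono fun v _ g => ⟨g.1.1, g.2⟩).trans (e₂ ω hω z)) (G39.dl_pos _ _ _) (by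
      have h1 : (dl M (a / 4) n)⁻¹ * (dl M (a / 4) n)⁻¹ ≤ 2 ^ t n := by
        rw [G39.dl_inv, ← Real.exp_add]
        exact (Real.exp_le_exp.2 (by linarith)).trans (exp_le_two_pow _)
      have h2 := (G39.dl_anti M (min_le_left (a / 4) (c / 2)) n).trans (k n)
      refine a₁.trans (le_trans (le_of_eq ?_) (mul_le_mul h2 h1 (by positivity) (p₃.le.trans h2)))
      field_simp)
  refine ((pb_mono fun v _ g => ?_).trans (pb_or _ _ _)).trans ((add_le_add q h).trans ?_)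
  · refine (em _).imp_left fun g' => ⟨g', ?_⟩
    refine (mul_lt_mul_of_pos_left g (by linarith)).trans_le ((mul_assoc _ _ _).symm.trans_le
      (mul_le_mul_of_nonneg_right (le_trans ?_ (k n)) (Pk.kc.nonneg F)))
    rw [G39.dl_half, ← mul_assoc]
    exact (mul_le_of_le_one_left p₂.le a₂).trans (G39.dl_anti M (min_le_right _ _) n)
  · rw [G39.dl_half, ← mul_assoc]
    have := mul_le_mul_of_nonneg_right ((le_div_iff₀ p₁).1 (a₄.trans_eq (inv_eq_one_div _))) p₁.le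
    linarith

theorem ex (h : Rich P M y A) (hG : Whp P G) :
    ∃ k : ℕ → ℕ, Big k ∧ Gp P M fun n ω Γ => ∀ R : Pl d, R.totalDegree ≤ k n →
      ∃ v ∈ (P n).S, G n v ∧ A n v = A n ω ∧ cn R ≤ Γ * |eval (y n v) R| := by
  obtain ⟨k, hk, w⟩ := G39.whp_diag fun j : ℕ =>
    h j (1 / (j + 1 : ℝ)) (1 / 4) (by positivity) (by norm_num)
  refine ⟨k, hk, S20.gp_iff.2 ⟨fun n => (dl M (1 / (k n + 1 : ℝ)) n)⁻¹, ⟨fun n => ?_, fun ε hε =>
    (R4.K31.small hε hk).mono fun n e => ?_⟩, (w.and (dn hG A (η := 1 / 4) (by norm_num))).mono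
      (.of_forall fun n ω hω e R hR => ?_)⟩⟩
  · exact (one_le_inv₀ (G39.dl_pos _ _ _)).2 (K3.dl_le_one M (by positivity) n)
  · exact (G39.dl_inv _ _ _).trans_le
      (Real.exp_le_exp.2 (mul_le_mul_of_nonneg_right e (Nat.cast_nonneg _)))
  · have a := (pb_or _ _ _).trans (add_le_add (e.1 _ le_rfl R hR) e.2)
    obtain ⟨v, hv, g⟩ := ex_of_pb ((sub_pos.2 (a.trans_lt (by norm_num))).trans_eq (pb_not _ _).symm)
    obtain ⟨g₁, g₂⟩ := not_or.1 g
    exact ⟨v, cE_sub hv, not_not.1 g₂, ((S20.mem_cv hω v).1 hv).2,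
      (le_inv_mul_iff₀ (G39.dl_pos _ _ _)).2 (not_lt.1 g₁)⟩

end StFRA

open StFRA in
theorem rFR : FR where
  rich := fun _ _ _ _ _ _ => rich
  min := fun P M y Z b h E c F hc hF =>
    (up (S := fun n z v => |eval (y n v) (F b n z)| < dl M c n * cn (F b n z)) fun η hη =>
      (h E c η hc hη).mono (.of_forall fun n ω _ e => e _ (hF b n _))).mono
      (.of_forall fun n ω _ e g => e (by cases b; exacts [g.1 ▸ g.2, g.2]))
  ex := fun _ _ _ _ _ => ex

end Pool.Agent.MP_5168f5_an.AN.St
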