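import Pool.Agent.MP_5168f5_an.AN.SpecS2

/-! Kakeya sets in all dimensions: cells of bounded depth are fat. -/

namespace Pool.Agent.MP_5168f5_an.AN.St

open H19 H17S H17F Filter MvPolynomial
open G39 (nu RG dl REM Nm)
open Pk (cn mons)
open Nc (Pl ev jac NiceAt Bas)

namespace StFatA

variable {N : ℕ}

theorem co (F : Pl N) (i : Fin N) (m : Fin N →₀ ℕ) :
    coeff m (X i * pderiv i F) = coeff m F * m i := by
  rw [coeff_X_mul']
  split_ifs with h
  · have h' := Nat.pos_of_ne_zero (Finsupp.mem_support_iff.1 h)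
    rw [coeff_pderiv, tsub_add_cancel_of_le (Finsupp.single_le_iff.2 h'), Finsupp.tsub_apply,
      Finsupp.single_eq_same, Nat.cast_sub h']
    simp
  · simp [Finsupp.notMem_support_iff.1 h]

/-- The coefficients of positive degree are seen by the derivatives. -/
theorem tail (F : Pl N) : cn (F - C (coeff 0 F)) ≤ ∑ i, cn (pderiv i F) := by
  have h1 : ∀ i, ∑ m ∈ F.support, |coeff m F| * m i ≤ cn (pderiv i F) := fun i => by
    have k := Pk.kc.mul (X i) (pderiv i F)
    rw [Pk.kc.var, one_mul, Pk.kc.sup _ F.support fun m hm => mem_support_iff.2 fun e =>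
      mem_support_iff.1 hm (by rw [co, e, zero_mul])] at k
    simpa only [co, abs_mul, Nat.abs_cast] using k
  have h2 : ∀ m, coeff m (F - C (coeff 0 F)) = if m = 0 then 0 else coeff m F := fun m => by
    rw [coeff_sub, coeff_C]
    by_cases e : m = 0
    · simp [e]
    · simp [e, Ne.symm e]
  refine le_trans ?_ (Finset.sum_le_sum fun i _ => h1 i)
  rw [Finset.sum_comm, Pk.kc.sup _ F.support fun m hm => mem_support_iff.2 fun e =>
    mem_support_iff.1 hm (by rw [h2, e, ite_self])]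
  refine Finset.sum_le_sum fun m _ => ?_
  rw [h2, ← Finset.mul_sum]
  split_ifs with e
  · rw [abs_zero]; positivity
  · obtain ⟨i, hi⟩ := Finsupp.ne_iff.1 e
    refine le_mul_of_one_le_right (abs_nonneg _) (le_trans ?_
      (Finset.single_le_sum (fun j _ => Nat.cast_nonneg (m j)) (Finset.mem_univ i)))
    exact_mod_cast Nat.pos_of_ne_zero hi

theorem step {x : V N} {Γ : ℝ} {E : ℕ} (h1 : 1 ≤ Γ) (hx : ‖x‖ ≤ Γ) {F : Pl N}
    (hF : F.totalDegree ≤ E) : cn F ≤ |eval x F| + 2 * Γ ^ E * ∑ i, cn (pderiv i F) := by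
  have a := Pk.kc.add (C (coeff 0 F)) (F - C (coeff 0 F))
  have b := Pk.kc.val (F - C (coeff 0 F)) E Γ x ((totalDegree_sub _ _).trans (by simpa using hF))
    h1 fun i => (norm_le_pi_norm x i).trans hx
  have c := tail F
  have d := Pk.kc.nonneg (F - C (coeff 0 F))
  have e : (1 : ℝ) ≤ Γ ^ E := one_le_pow₀ h1
  rw [add_sub_cancel, Pk.kc.const] at a
  rw [map_sub, eval_C] at b
  have f := abs_sub_abs_le_abs_sub (coeff 0 F) (eval x F)
  rw [abs_sub_comm] at f
  nlinarith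

theorem fat {x : V N} {ν : Pl N → ℝ} {Γ Γ' A : ℝ} {E : ℕ} (h1 : 1 ≤ Γ) (h1' : 1 ≤ Γ')
    (hA : 0 ≤ A) (hx : ‖x‖ ≤ Γ) (h0 : ∀ F, 0 ≤ ν F)
    (up : ∀ F : Pl N, F.totalDegree ≤ E → |eval x F| ≤ Γ' * ν F)
    (dle : ∀ F : Pl N, F.totalDegree ≤ E → ∀ i, ν (pderiv i F) ≤ A * ν F) (j : ℕ) :
    j ≤ E → ∀ F : Pl N, F.totalDegree ≤ j → cn F ≤ (Γ' + 2 * Γ ^ E * N * A) ^ (j + 1) * ν F := by
  have p : 0 ≤ 2 * Γ ^ E * N * A := by positivity
  have q : 0 ≤ 2 * Γ ^ E := by positivity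
  induction j with
  | zero =>
    intro hj F hF
    have a := mul_le_mul_of_nonneg_left (Finset.sum_nonpos (s := Finset.univ) fun i _ =>
      (Pk.kc.der F 0 i hF).1.trans (by simp)) q
    rw [zero_add, pow_one]
    linarith [step h1 hx (hF.trans hj), up F (hF.trans hj), mul_nonneg p (h0 F)]
  | succ j ih =>
    intro hj F hF
    have e : (1 : ℝ) ≤ (Γ' + 2 * Γ ^ E * N * A) ^ (j + 1) := one_le_pow₀ (by linarith)
    have a := mul_le_mul_of_nonneg_left (Finset.sum_le_sum (s := Finset.univ) fun i _ =>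
      (ih (by omega) _ (Pk.kc.der F _ i hF).2).trans
        (mul_le_mul_of_nonneg_left (dle F (hF.trans hj) i) (by linarith))) q
    rw [Finset.sum_const, Finset.card_fin, nsmul_eq_mul] at a
    have b := le_mul_of_one_le_left (mul_nonneg (by linarith : 0 ≤ Γ') (h0 F)) e
    rw [pow_succ _ (j + 1)]
    nlinarith [step h1 hx (hF.trans hj), up F (hF.trans hj)]

end StFatA

theorem rFatD : OfFatD := fun hO N Ω Λ β P M x Z Q hM hB hC hD => by
  have key : Fat P M x Q := fun E => by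
    obtain ⟨Γ, a, b⟩ := S20.gp_iff.1 hB
    obtain ⟨Γ', a', b'⟩ := S20.gp_iff.1 ((hO.gp P M x Z Q hM hC).up E)
    obtain ⟨Γ'', a'', b''⟩ := S20.gp_iff.1 (hD E)
    have s := a'.add ((((a.pow E).const_mul hM one_le_two).mul
      (hM.sub (by linarith [Nat.cast_nonneg (α := ℝ) N] : (1 : ℝ) ≤ N + 1))).mul a'') hM
    refine ⟨2 * (E + 1 : ℕ), (b.and (b'.and b'')).mono ((s.2 1 one_pos).mono
      fun n u ω _ ⟨c, c', c''⟩ F hF => ?_)⟩
    have g := a.pos n
    have g' := a'.pos n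
    have g'' := a''.pos n
    have h0 : ∀ F, 0 ≤ nc (P n) (x n) (Q n) ω F := fun _ => Real.sqrt_nonneg _
    have k := StFatA.fat (a.1 n) (a'.1 n) (by positivity) c h0 c' c'' E le_rfl F hF
    have t1 : (1 : ℝ) ≤ 2 ^ M n := one_le_pow₀ one_le_two
    have t2 : (2 : ℝ) ^ M n ≤ Real.exp (M n) := by
      rw [← Real.exp_one_pow]
      exact pow_le_pow_left₀ zero_le_two (by linarith [Real.add_one_le_exp (1 : ℝ)]) _
    have t3 : Γ' n + 2 * Γ n ^ E * N * (Γ'' n * 2 ^ M n) ≤ Real.exp (2 * M n) := by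
      rw [one_mul] at u
      rw [two_mul (M n : ℝ), Real.exp_add]
      refine le_trans ?_ (mul_le_mul u t2 (by positivity) (by positivity))
      have : 0 ≤ 2 * Γ n ^ E * Γ'' n * 2 ^ M n := by positivity
      nlinarith
    have t4 := pow_le_pow_left₀ (by positivity) t3 (E + 1)
    rw [← Real.exp_nat_mul] at t4
    rw [dl, Real.exp_neg, inv_mul_le_iff₀ (Real.exp_pos _)]
    refine k.trans (mul_le_mul_of_nonneg_right (t4.trans_eq ?_) (h0 F))
    congr 1; ring
  refine ⟨key, fun E => ?_⟩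
  obtain ⟨B, h⟩ := key E
  exact h.mono (Eventually.of_forall fun n ω _ k F hF h0 => lt_of_lt_of_le
    (mul_pos (Real.exp_pos _) ((Pk.kc.nonneg F).lt_of_ne' fun e => h0 ((Pk.kc.zero F).1 e)))
    (k F hF))

end Pool.Agent.MP_5168f5_an.AN.St
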