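import Pool.Agent.MP_5168f5_an.AN.SpecS2
import Pool.Agent.MP_5168f5_an.AN.Api

/-! One diagonal for the steep windows. -/

namespace Pool.Agent.MP_5168f5_an.AN.St

open H19 H17S H17F Filter MvPolynomial

namespace StFin1A

/-- The data at one index. -/
structure Ob (N : ℕ) (k : Bool → ℕ) : Type 1 where
  Ω : Type
  Λ : Type
  Λ' : Type
  P : FP Ω
  M : ℕ
  x : Ω → V N
  s : Sy k Ω
  ι : Bool → Ω → ℕ
  T : Ω → Λ'
  Q : Ω → Λ

/-- The hypotheses for a sequence of data. -/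
def K {N : ℕ} {k : Bool → ℕ} (C : ℕ) (m : Bool → ℕ) (c : ℝ) (E : ℕ) (η : ℝ) (o : ℕ → Ob N k) :
    Prop := Hyp (fun n => (o n).P) (fun n => (o n).M) (fun n => (o n).x) (fun n => (o n).s)
  (fun b n => (o n).ι b) (fun n => (o n).T) (fun n => (o n).Q) C m c E η

theorem cf {N : ℕ} {k : Bool → ℕ} (C : ℕ) (m : Bool → ℕ) (c : ℝ) (E : ℕ) (η : ℝ) :
    R4.CF (S := fun _ => Ob N k) (K C m c E η) :=
  ((cf_sys (fun _ (o : Ob N k) => o.P) (fun _ o => o.M) (fun _ o => o.x) (fun _ o => o.s) C m).and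
    ((cf_min (fun _ (o : Ob N k) => o.P) (fun _ o => o.M) (fun _ o => o.x)
      fun b _ o => (o.s b).Z).and
    ((cf_com (fun _ (o : Ob N k) => o.P) (fun b _ o => (o.s b).Z) fun _ o => o.T).and
    ((R4.cf_all fun b : Bool => cf_few (fun _ (o : Ob N k) => o.P) (fun _ o => o.M) c
      fun _ o => o.ι b).and
    ((cf_cm (fun _ (o : Ob N k) => o.P) (fun _ o => o.M) (fun _ o => o.x)
      (fun b _ o ω => (o.ι b ω, (o.s b).Z ω)) fun _ o => o.Q).and
    ((cf_fnE (fun _ (o : Ob N k) => o.P) (fun _ o => o.T) fun _ o => o.Q).and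
    ((cf_dle (fun _ (o : Ob N k) => o.P) (fun _ o => o.M) (fun _ o => o.x) (fun _ o => o.Q)
      fun _ o => o.M).and
    ((cf_dge (fun _ (o : Ob N k) => o.P) (fun _ o => o.M) (fun _ o => o.x) (fun _ o => o.Q) E
      fun _ o => o.M).and
    (cf_poor (fun _ (o : Ob N k) => o.P) (fun _ o => o.M) (fun _ o => o.x) (fun _ o => o.T)
      (fun _ o => o.M) η))))))))).congr fun _ =>
    ⟨fun h => ⟨h.1, h.2, h.3, h.4, h.5, h.6, h.7, h.8, h.9⟩, fun ⟨a, b, c, d, e, f, g, h, i⟩ =>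
      ⟨a, b, c, d, e, f, g, h, i⟩⟩

theorem few_mono {Ω : ℕ → Type} {P : ∀ n, FP (Ω n)} {M : ℕ → ℕ} {c c' : ℝ}
    {β : ∀ n, Ω n → ℕ} (h : Few P M c β) (e : c ≤ c') : Few P M c' β := by
  obtain ⟨Γ, a, b⟩ := S20.gp_iff.1 h
  exact S20.gp_iff.2 ⟨Γ, a, b.mono (Eventually.of_forall fun n ω _ u => u.trans
    (mul_le_mul_of_nonneg_left (Real.exp_le_exp.2
      (mul_le_mul_of_nonneg_right e (Nat.cast_nonneg _))) (a.pos n).le))⟩

theorem few_zero {Ω : ℕ → Type} {P : ∀ n, FP (Ω n)} {M : ℕ → ℕ} {β : ∀ n, Ω n → ℕ}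
    (h : ∀ j : ℕ, Few P M (1 / (j + 1)) β) : Few P M 0 β := by
  refine S20.gp_of_wp fun c hc => ?_
  obtain ⟨j, hj⟩ := exists_nat_one_div_lt (half_pos hc)
  obtain ⟨Γ, a, b⟩ := S20.gp_iff.1 (few_mono (h j) hj.le)
  refine b.mono ((a.2 _ (half_pos hc)).mono fun n v ω _ u => u.trans ?_)
  rw [zero_mul, Real.exp_zero, mul_one, ← add_halves c, add_mul, Real.exp_add, add_halves]
  exact mul_le_mul_of_nonneg_right v (Real.exp_pos _).le

end StFin1A

open StFin1A in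
theorem rFin1 : Fin1 := by
  intro N mm h k m C E η hη
  by_contra hn
  simp only [not_exists, not_and, not_forall, not_not] at hn
  choose Ω Λ Λ' P M x s ι T Q hm hH using fun j : ℕ => hn (1 / (j + 1)) (by positivity)
  obtain ⟨d, -, hd⟩ := R4.cf_diag (fun j : ℕ => cf (N := N) (k := k) C m (1 / (j + 1)) E η)
    (fun j n => ⟨Ω j n, Λ j n, Λ' j n, P j n, M j n, x j n, s j n, fun b => ι j b n, T j n, Q j n⟩)
    fun j i hi => { hH j with few := fun b => few_mono ((hH j).few b) (by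
      gcongr) }
  exact h _ _ _ _ _ _ _ C m E η hη (hm 0)
    { hd 0 with few := fun b => few_zero fun j => (hd j).few b }

end Pool.Agent.MP_5168f5_an.AN.St
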