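import Pool.Agent.MP_5168f5_an.AN.SpecS

/-! A thin relation over rich coordinates contradicts minimality. -/

namespace Pool.Agent.MP_5168f5_an.AN.St

open H19 H17S H17F Filter MvPolynomial
open G39 (nu RG dl REM Nm)
open Pk (cn mons)
open Nc (Pl ev jac NiceAt Bas)

namespace StFin3A

theorem norm_sel {N d : ℕ} (v : V N) (e : Fin d → Fin N) : ‖fun a => v (e a)‖ ≤ ‖v‖ :=
  (pi_norm_le_iff_of_nonneg (norm_nonneg _)).2 fun _ => norm_le_pi_norm v _

end StFin3A

open StFin3A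

theorem rFin3 : OfFin3 := by
  intro fr clo tr lab N i Ω β P M x Z ι e C hM ⟨GB, ΓB, wB, sB, aB⟩ he rem few rich
    ⟨E, m, c, F, hc, G0, Γ0, w0, s0, a0⟩ hmin
  choose GT ΓT wT sT aT using fun b => tr P M x (Z b) (ι b) G0 C E hM (rem b) (few b) w0
  have wS := w0.and (wB.and (Whp.all wT))
  choose k bk GE ΓE wE sE aE using fun b => fr.ex P M _ (Z b) _ (rich b) wS
  choose cc hcc aC using fun b =>
    clo i E m M (k b) _ (c / 2) hM (bk b) ((s0.mul sB).mul (sE b)) (half_pos hc)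
  refine lab.lab P M (sel x e) Z (fun n ω => F true n (hat Z ι true n ω)) _ E m
    (min c (min (cc true) (cc false))) hM
    ⟨GB, ΓB, wB, sB, aB.mono fun n a ω h g => (norm_sel _ e).trans (a ω h g)⟩
    (lt_min hc (lt_min (hcc _) (hcc _))) (wS.and (Whp.all wE)) ?_ (lab.sel P M x Z e he hmin)
  filter_upwards [a0, aB, eventually_all.2 aT, eventually_all.2 aE, eventually_all.2 aC,
    eventually_all.2 fun b => G39.sub_dl (sT b) (half_pos hc)] with n a0 aB aT aE aC aD ω hω g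
  refine ⟨(a0 ω hω g.1.1).2.1, (a0 ω hω g.1.1).2.2.1.trans (G39.dl_anti M (min_le_left _ _) n),
    fun b v hv g' z m' => ?_⟩
  have p0 := s0.1 n
  have p1 := sB.1 n
  have p2 := (sE b).1 n
  have p3 := one_le_mul_of_one_le_of_one_le p0 p1
  have hb : ∀ u ∈ (P n).S, G0 n u → F true n (hat Z ι true n u) = F b n (hat Z ι b n u) :=
    fun u hu h => by cases b; exacts [(a0 u hu h).1, rfl]
  have key : ∀ u ∈ (P n).S, GT b n u → ∀ w ∈ (P n).S, G0 n w → GT b n w → Z b n u = Z b n w →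
      |eval (sel x e n u) (F true n (hat Z ι true n w))| ≤ dl M (c / 2) n := by
    intro u hu gu w hw g0 gw z
    have := aT b w hw gw u hu gu z (rename e (F true n (hat Z ι true n w))) (dl M c n)
      ((totalDegree_rename_le _ _).trans (a0 w hw g0).2.1.1) fun u' hu' g1 z1 z2 => by
        rw [eval_rename, hb w hw g0, hat, ← z1, ← z2]
        exact (congrArg (fun H => |eval _ H|) (hb u' hu' g1)).ge.trans (a0 u' hu' g1).2.2.1
    rw [eval_rename, G39.dl_half M c, ← mul_assoc] at this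
    have d := G39.dl_pos M (c / 2) n
    refine this.trans (mul_le_of_le_one_left d.le ?_)
    exact (mul_le_mul_of_nonneg_right (aD b) d.le).trans_eq (inv_mul_cancel₀ d.ne')
  refine (aC b _ _ {y | ∃ u ∈ (P n).S, (G0 n u ∧ GB n u ∧ ∀ b, GT b n u) ∧ Z b n u = Z b n ω ∧
    y = sel x e n u} (a0 ω hω g.1.1).2.1 (a0 v hv g'.1.1).2.1 (fun A B h h' => ?_) ?_
    (fun R h => ?_) m').trans (G39.dl_anti M ((min_le_right _ _).trans ?_) n)
  · have := one_le_mul_of_one_le_of_one_le ((a0 ω hω g.1.1).2.2.2.2 A B h h')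
      (one_le_mul_of_one_le_of_one_le p1 p2)
    exact this.trans_eq (by ring)
  · rintro _ ⟨u, hu, gu, zu, rfl⟩
    exact ⟨(norm_sel _ e).trans ((aB u hu gu.2.1).trans (by nlinarith)),
      key u hu (gu.2.2 b) ω hω g.1.1 (g.1.2.2 b) zu,
      key u hu (gu.2.2 b) v hv g'.1.1 (g'.1.2.2 b) (zu.trans z.symm)⟩
  · obtain ⟨u, hu, gu, zu, h1⟩ := aE b ω hω (g.2 b) R h
    exact ⟨_, ⟨u, hu, gu, zu, rfl⟩, h1.trans (mul_le_mul_of_nonneg_right
      (le_mul_of_one_le_left (by linarith) p3) (abs_nonneg _))⟩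
  · cases b; exacts [min_le_right _ _, min_le_left _ _]

end Pool.Agent.MP_5168f5_an.AN.St
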