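import Pool.Agent.MP_5168f5_an.AN.SpecS2

/-! Labels read from independent copies have no thin common polynomial. -/

namespace Pool.Agent.MP_5168f5_an.AN.St

open H19 H17S H17F Filter MvPolynomial
open G39 (nu RG dl REM Nm)
open Pk (cn mons)
open Nc (Pl ev jac NiceAt Bas)

namespace StK2TA

variable {Ω W β γ : Type}

/-- A random choice that depends on `Z` only is replaced by a function of `Z`. -/
theorem der (P : FP Ω) (Z : Ω → β) (μ : β → FP W) (g : Ω → W → ℝ) :
    ∃ r : β → W, P.E (fun ω => (μ (Z ω)).E (g ω)) ≤ P.E fun ω => g ω (r (Z ω)) := by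
  have h : ∀ z, ∃ a, ∀ b ∈ (μ z).S, (cv P Z z).E (fun ω => g ω b) ≤ (cv P Z z).E fun ω => g ω a :=
    fun z => by
      obtain ⟨a, -, k⟩ := (μ z).S.exists_max_image (fun b => (cv P Z z).E fun ω => g ω b)
        (Finset.nonempty_of_sum_ne_zero (by rw [(μ z).sum_one]; exact one_ne_zero))
      exact ⟨a, k⟩
  choose r hr using h
  refine ⟨r, ?_⟩
  rw [KEA.exp P Z fun z ω => (μ z).E (g ω), KEA.exp P Z fun z ω => g ω (r z)]
  refine P.E_mono fun ω _ => ?_
  rw [KGA.E_swap]
  exact (FP.E_mono _ (hr _)).trans (FP.E_const _ _).le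

theorem der2 (P : FP Ω) (Z : Ω → β) (Z' : Ω → γ) (E : Ω × Ω × Ω → Prop) :
    ∃ (r : β → Ω) (r' : γ → Ω), pb (H17F.bind P fun ω => prod (cv P Z (Z ω)) (cv P Z' (Z' ω))) E ≤
      pb P fun ω => E (ω, r (Z ω), r' (Z' ω)) := by
  classical
  obtain ⟨r, h⟩ := der P Z (cv P Z) fun ω a =>
    (cv P Z' (Z' ω)).E fun b => if E (ω, a, b) then 1 else 0
  obtain ⟨r', h'⟩ := der P Z' (cv P Z') fun ω b => if E (ω, r (Z ω), b) then 1 else 0
  refine ⟨r, r', le_trans (le_of_eq ?_) (h.trans h')⟩
  simp only [pb, prod, E_bind]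

end StK2TA

open StK2TA in
theorem rK2T : K2T := by
  intro N Ω β γ P M x Z A h E c F hc hF ε hε
  choose r r' hr using fun n => der2 (P n) (Z true n) (Z false n) fun v =>
    ¬¬(F true n (A true n v.2.1) = F false n (A false n v.2.2) ∧
      |eval (x n v.1) (F true n (A true n v.2.1))| < dl M c n * cn (F true n (A true n v.2.1)))
  exact (h E c (fun b => Bool.rec (motive := fun b => ∀ n, β b n → Pl N)
    (fun n z => F false n (A false n (r' n z))) (fun n z => F true n (A true n (r n z))) b) hc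
    (fun b n z => by cases b <;> exact hF _ _ _) ε hε).mono fun n k => (hr n).trans k

end Pool.Agent.MP_5168f5_an.AN.St
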