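import Pool.Agent.MP_5168f5_an.AN.SpecS

/-! Kakeya sets in all dimensions: a thin polynomial that both labels know approximately. -/

namespace Pool.Agent.MP_5168f5_an.AN.St

open H19 H17S H17F Filter MvPolynomial
open G39 (nu RG dl REM Nm)
open Pk (cn mons)
open Nc (Pl ev jac NiceAt Bas)

namespace StLabA

theorem num {q t L A B ν : ℝ} (hq : 0 < q) (ht : 0 ≤ t) (hL : 1 ≤ L)
    (h1 : |A - B| ≤ t * (9 * (q * q) * L)) (h2 : |B| ≤ q * q) (h3 : 20 * (t + 1) * L ≤ q⁻¹)
    (h4 : 1 / 2 < ν) : |A| < q * ν := by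
  have a1 := mul_le_mul_of_nonneg_left h3 (mul_pos hq hq).le
  rw [mul_assoc q q q⁻¹, mul_inv_cancel₀ hq.ne', mul_one] at a1
  have a2 := abs_add_le (A - B) B
  rw [sub_add_cancel] at a2
  have a3 := mul_lt_mul_of_pos_left h4 hq
  have a4 := mul_le_mul_of_nonneg_left hL (mul_pos hq hq).le
  have a5 : 0 ≤ q * q * t * L := by positivity
  have a6 := mul_pos hq hq
  linarith

end StLabA

theorem rLab : Lab where
  sel P M x Z e he h E c F hc hF :=
    (h E c (fun b n z => rename e (F b n z)) hc fun b n z =>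
      (totalDegree_rename_le _ _).trans (hF b n z)).mono (Eventually.of_forall fun n ω _ u v =>
        u ⟨congrArg (rename e) v.1, by
          beta_reduce
          rw [eval_rename, Pk.kc.ren _ _ he]
          exact v.2⟩)
  lab := by
    intro d Ω β P M y Z H G E m c hM ⟨G', Γ, g1, g2, g3⟩ hc hG h k
    have : ∀ n, Nonempty (Ω n) := fun n => G39.fp_ne (P n)
    choose v hv using fun b n (z : β b n) =>
      G39.exists_imp_of fun ω => ω ∈ (P n).S ∧ G n ω ∧ Z b n ω = z
    have e := h.mono fun n a ω hω g b m' =>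
      have u := hv b n _ ⟨ω, hω, g, rfl⟩
      (a ω hω g).2.2 b _ u.1 u.2.1 u.2.2 m'
    obtain ⟨r, r', b1, b2⟩ := G39.rRnd Ω (β true) (β false) P (Z true) (Z false) _
      (G39.TT (Fin d) E) (fun n z m' => coeff m' (H n (v true n z)))
      (fun n z m' => coeff m' (H n (v false n z))) (fun n => 2 * dl M c n)
      (fun n ω => G n ω ∧ G' n ω) (fun n => mul_pos two_pos (G39.dl_pos M c n))
      ((hG.and g1).pos.mono (e.mono fun n a ω hω u => ⟨u, fun j _ => by
        have e1 := abs_le.1 (a ω hω u.1 true j)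
        have e2 := abs_le.1 (a ω hω u.1 false j)
        exact abs_le.2 ⟨by linarith, by linarith⟩⟩))
    have dg : ∀ {u : (Fin d →₀ ℕ) → ℝ}, (G39.ofc (G39.TT (Fin d) E) u).totalDegree ≤ E :=
      G39.deg_ofc _ fun m => G39.mem_TT.1
    refine b2.not_whp ((k E (c / 2) (fun b => match b with
      | true => fun n z => G39.ofc (G39.TT (Fin d) E) (r n z)
      | false => fun n z => G39.ofc (G39.TT (Fin d) E) (r' n z)) (half_pos hc)
      fun b n z => by cases b <;> exact dg).mono ?_)
    filter_upwards [h, e, g3, G39.dl_lt hM (K := 1 / 18) (by norm_num) hc,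
      G39.sub_dl ((g2.pow E).const_mul hM (C := 20 * ((G39.TT (Fin d) E).card + 1))
        (by linarith [Nat.cast_nonneg (α := ℝ) (G39.TT (Fin d) E).card])) (half_pos hc)]
      with n e0 e1 e2 e3 e4 ω hω u w
    obtain ⟨⟨n1, n2, -⟩, n3, -⟩ := e0 ω hω w.1.1
    have f : ∀ m', |coeff m' (G39.ofc (G39.TT (Fin d) E) (r n (Z true n ω)) - H n ω)| ≤
        9 * dl M c n := fun m' => by
      rw [coeff_sub, G39.coeff_ofc]
      split_ifs with a
      · have a1 := abs_le.1 (b1 n (Z true n ω) m')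
        have a2 := abs_le.1 (e1 ω hω w.1.1 true m')
        exact abs_le.2 ⟨by linarith, by linarith⟩
      · rw [G39.coeff_zero_of n1 a, sub_zero, abs_zero]
        linarith [G39.dl_pos M c n]
    have f1 := G39.ev_le (φ := fun i ω => y n ω i) (ω := ω)
      ((totalDegree_sub _ _).trans (max_le dg n1)) f (g2.1 n) fun i =>
        (norm_le_pi_norm (y n ω) i).trans (e2 ω hω w.1.2)
    have f2 := abs_le.1 (f m)
    have f3 := Pk.kc.coeff (G39.ofc (G39.TT (Fin d) E) (r n (Z true n ω))) m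
    rw [coeff_sub, n2] at f2
    rw [G39.ev, map_sub] at f1
    rw [G39.dl_half] at f1 n3
    refine u ⟨Finset.sum_congr rfl fun m' hm' => by rw [w.2 m' hm'],
      StLabA.num (G39.dl_pos _ _ _) (Nat.cast_nonneg _) ((g2.pow E).1 n) f1 n3 e4 ?_⟩
    exact lt_of_lt_of_le (by linarith [f2.1]) ((le_abs_self _).trans f3)

end Pool.Agent.MP_5168f5_an.AN.St
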