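import Pool.Agent.MP_5168f5_an.AN.SpecS2

/-! Steep windows: the depth is seen by the first member of the frame. -/

namespace Pool.Agent.MP_5168f5_an.AN.St

open H19 H17S H17F Filter MvPolynomial
open G39 (nu RG dl REM Nm)
open Pk (cn mons)
open Nc (Pl ev jac NiceAt Bas)

namespace StLastA

variable {N : ℕ} {Ω Λ : ℕ → Type} {P : ∀ n, FP (Ω n)} {M : ℕ → ℕ} {y : ∀ n, Ω n → V N}
  {q : ∀ n, Ω n → Λ n} {ν : ∀ n, Ω n → Pl N → ℝ} {F : ∀ n, Ω n → Pl N} {E : ℕ}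

theorem dnG (h : GP P M y q ν) (f : FnE P F q) (e : ∀ n ω, (F n ω).totalDegree ≤ E) :
    ∃ Γ, Sub M Γ ∧ Whp P fun n ω => ν n ω (F n ω) ≤ Γ n * |eval (y n ω) (F n ω)| :=
  (S20.gp_iff (q := fun n ω Γ => ν n ω (F n ω) ≤ Γ * |eval (y n ω) (F n ω)|)).1
    (S20.gp_of_wp fun c hc => (h.dn E c F hc f e).mono (Eventually.of_forall fun n ω _ k => by
      rwa [dl, Real.exp_neg, inv_mul_le_iff₀ (Real.exp_pos _)] at k))

theorem deg (e : ∀ n ω, (F n ω).totalDegree ≤ E) (b : Fin N) (n : ℕ) (ω : Ω n) :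
    (pderiv b (F n ω)).totalDegree ≤ E :=
  (H83.IsPoly.totalDegree_pderiv_le _ _).trans (e n ω)

theorem pd0 {d : ℕ} (b : Fin (d + 1)) (H : Pl d) : pderiv b (rename b.succAbove H) = 0 :=
  pderiv_eq_zero_of_notMem_vars fun h =>
    let ⟨i, _, e⟩ := mem_vars_rename _ _ h
    Fin.succAbove_ne b i e

end StLastA

open StLastA in
theorem rLast : OfLast := fun ni =>
  { nu := fun P M y q ν F b E h f e h1 h2 => by
      obtain ⟨Γ₁, s1, w1⟩ := dnG h f e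
      obtain ⟨Γ₂, s2, w2⟩ := S20.gp_iff.1 h1
      obtain ⟨Γ₃, s3, w3⟩ := S20.gp_iff.1 h2
      obtain ⟨Γ₄, s4, w4⟩ := S20.gp_iff.1 (h.up E)
      refine ⟨F, f, e, S20.gp_iff.2 ⟨_, (s1.mul s2).mul (s3.mul s4),
        ((w1.and w2).and (w3.and w4)).mono (Eventually.of_forall fun n ω _ k => ?_)⟩⟩
      obtain ⟨⟨k1, k2⟩, k3, k4⟩ := k
      have a1 := k3.trans (mul_le_mul_of_nonneg_left (k4 _ (deg e b n ω)) (s3.pos n).le)
      rw [← mul_assoc] at a1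
      refine ⟨(k1.trans (mul_le_mul_of_nonneg_left k2 (s1.pos n).le)).trans
        (le_mul_of_one_le_right ((s1.mul s2).pos n).le ((s3.mul s4).1 n)), a1.trans ?_⟩
      rw [mul_assoc (Γ₁ n * Γ₂ n)]
      exact le_mul_of_one_le_left (le_trans (by positivity) a1) ((s1.mul s2).1 n)
    pull := fun P M Z q ν b E ⟨F, f, e, h⟩ => by
      have l := fun n => R4.kg.snd (P n) (P n) (Z n) (Z n) (Law.rfl _)
      obtain ⟨Γ, s, w⟩ := S20.gp_iff.1 h
      exact ⟨fun n v => F n v.2, f.mono fun n a => (l n).fn a, fun n v => e n v.2,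
        S20.gp_iff.2 ⟨Γ, s, S20.whp_pull w (Eventually.of_forall l)⟩⟩
    der := fun P M y q ν b B G D E h fn ⟨F, f, e, g⟩ => by
      obtain ⟨Γ₁, s1, w1⟩ := S20.gp_iff.1 g
      obtain ⟨Γ₂, s2, w2⟩ := dnG (F := fun n ω => pderiv b (F n ω)) h
        (f.mono fun n a => (Fn.comp (pderiv b) (F n)).trans a) (deg e b)
      obtain ⟨Γ₃, s3, w3⟩ := S20.gp_iff.1 (ni P M y q ν _ D h fn E 1)
      refine S20.gp_iff.2 ⟨_, (s1.mul s2).mul (s3.mul s1),
        ((w1.and w2).and w3).mono (Eventually.of_forall fun n ω _ k => ?_)⟩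
      obtain ⟨⟨⟨k1, k2⟩, k3⟩, -, σ, k4⟩ := k
      have a1 := (k4.der₀ (s3.pos n) (e n ω) le_rfl fun _ => 0).trans
        (mul_le_mul_of_nonneg_left k1 (s3.pos n).le)
      rw [Nc.pderiv_eq _ _ (k4.jac (s3.pos n)), Fin.sum_univ_succ] at k3
      simp only [Fin.cons_zero, Fin.cons_succ, pd0, map_zero, mul_zero, Finset.sum_const_zero,
        add_zero, abs_mul] at k3
      refine k2.trans ((mul_le_mul_of_nonneg_left (k3.trans (mul_le_mul_of_nonneg_left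
        (mul_le_mul_of_nonneg_right a1 (abs_nonneg _)) (s2.pos n).le)) (s1.pos n).le).trans_eq ?_)
      ring }

end Pool.Agent.MP_5168f5_an.AN.St
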