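import Pool.Agent.MP_5168f5_an.AN.SpecS
import Pool.Agent.MP_5168f5_an.AN.S20Ds

/-! A common thin relation of minimal degree. -/

namespace Pool.Agent.MP_5168f5_an.AN.St

open H19 H17S H17F Filter MvPolynomial
open G39 (nu RG dl REM Nm)
open Pk (cn mons)
open Nc (Pl ev jac NiceAt Bas)

namespace StMinA

open G39 (TT dl_pos dl_add dl_half dl_anti dl_inv)

section Fin

variable {d E : ℕ}

/-- An approximation of a thin polynomial is thin. -/
theorem far {H Q : Pl d} {K δ : ℝ} {x : V d} (hH : H.totalDegree ≤ E) (hQ : Q.totalDegree ≤ E)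
    (h1 : 1 ≤ cn H) (hK : 1 ≤ K) (hx : ‖x‖ ≤ K) (h0 : 0 < δ) (hδ : 5 * K ^ E ≤ δ⁻¹)
    (h2 : |eval x H| ≤ δ * δ) (h3 : cn (H - Q) ≤ δ * δ) : |eval x Q| < δ * cn Q := by
  have p : 1 ≤ K ^ E := one_le_pow₀ hK
  have a1 := Pk.kc.val (H - Q) E K x ((totalDegree_sub _ _).trans (max_le hH hQ)) hK
    fun i => (norm_le_pi_norm x i).trans hx
  have a2 := Pk.kc.add (H - Q) Q
  have a3 := abs_sub (eval x H) (eval x (H - Q))
  have a4 := mul_le_mul_of_nonneg_right hδ h0.le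
  have a5 := mul_le_mul_of_nonneg_right h3 (zero_le_one.trans p)
  rw [sub_add_cancel] at a2
  rw [map_sub, sub_sub_cancel, ← map_sub] at a3
  rw [inv_mul_cancel₀ h0.ne'] at a4
  have a6 : δ ≤ 1 / 5 := by nlinarith
  have a7 : 1 / 2 ≤ cn Q := by nlinarith
  nlinarith [mul_le_mul_of_nonneg_left a4 h0.le, mul_le_mul_of_nonneg_left a7 h0.le,
    mul_le_mul_of_nonneg_left a6 h0.le]

theorem nm_cn {m : Fin d →₀ ℕ} {H : Pl d} (h : Nm E m H) :
    1 ≤ cn H ∧ cn H ≤ (TT (Fin d) E).card := by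
  refine ⟨by simpa [h.2.1] using Pk.kc.coeff H m, ?_⟩
  rw [Pk.kc.sup H (TT (Fin d) E) fun k e => G39.mem_TT.2 ((le_totalDegree e).trans h.1)]
  simpa using Finset.sum_le_card_nsmul (TT (Fin d) E) (fun k => |coeff k H|) 1 fun k _ => h.2.2 k

/-- Normalisation as a function of the polynomial. -/
theorem norm (E : ℕ) (H : Pl d) : ∃ H' : Pl d, H.totalDegree ≤ E → H'.totalDegree ≤ E ∧
    ∀ (x : V d) (s : ℝ), 0 ≤ s → |eval x H| < s * cn H →
      ∃ m : TT (Fin d) E, Nm E m.1 H' ∧ |eval x H'| ≤ (TT (Fin d) E).card * s := by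
  by_cases h : H.totalDegree ≤ E
  swap
  · exact ⟨0, fun k => (h k).elim⟩
  by_cases h0 : H = 0
  · refine ⟨0, fun _ => ⟨by simp, fun x s _ k => ?_⟩⟩
    rw [(Pk.kc.zero H).2 h0, mul_zero] at k
    exact (k.not_ge (abs_nonneg _)).elim
  obtain ⟨m, hm⟩ := ne_zero_iff.1 h0
  obtain ⟨m', h1, a, -, h3⟩ := G39.exists_nm h hm
  refine ⟨_, fun _ => ⟨h3.1, fun x s hs k => ⟨⟨m', h1⟩, h3, ?_⟩⟩⟩
  have e := (nm_cn h3).2
  rw [C_mul', Pk.kc.smul] at e
  rw [map_mul, eval_C, abs_mul]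
  refine (mul_le_mul_of_nonneg_left k.le (abs_nonneg _)).trans ?_
  rw [mul_comm s, ← mul_assoc]
  exact mul_le_mul_of_nonneg_right e hs

theorem fac (E : ℕ) {Γ : ℝ} (h : 0 < Γ) (H : Pl d) : ∃ A B : Pl d, A.totalDegree ≤ E ∧
    B.totalDegree ≤ E ∧ (¬Irr (E + 1) Γ H → cn (H - A * B) ≤ Γ⁻¹) := by
  by_cases k : Irr (E + 1) Γ H
  · exact ⟨0, 0, by simp, by simp, fun e => (e k).elim⟩
  unfold Irr at k
  push Not at k
  obtain ⟨A, B, a, b, e⟩ := k
  refine ⟨A, B, by omega, by omega, fun _ => ?_⟩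
  rw [← one_div, le_div_iff₀' h]
  exact e.le

end Fin

variable {d i E : ℕ} {Ω : ℕ → Type} {β : Bool → ℕ → Type} {P : ∀ n, FP (Ω n)} {M : ℕ → ℕ}
  {Z : ∀ b n, Ω n → β b n} {c c' : ℝ}

/-- No common polynomial of degree at most `E` is thin. -/
def NE (P : ∀ n, FP (Ω n)) (M : ℕ → ℕ) (y : ∀ n, Ω n → V d) (Z : ∀ b n, Ω n → β b n) (E : ℕ) :
    Prop :=
  ∀ (c : ℝ) (F : ∀ b n, β b n → Pl d), 0 < c → (∀ b n z, (F b n z).totalDegree ≤ E) →
    Whp P fun n ω => ¬(F true n (Z true n ω) = F false n (Z false n ω) ∧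
      |eval (y n ω) (F true n (Z true n ω))| < dl M c n * cn (F true n (Z true n ω)))

theorem zero {y : ∀ n, Ω n → V d} : NE P M y Z 0 := fun c F hc hF =>
  Whp.of_ev (Eventually.of_forall fun n ω _ k => by
    obtain ⟨a, e⟩ : ∃ a, F true n (Z true n ω) = C a :=
      ⟨_, totalDegree_eq_zero_iff_eq_C.1 (Nat.le_zero.1 (hF _ _ _))⟩
    have := k.2
    rw [e, eval_C, Pk.kc.const] at this
    exact this.not_ge (mul_le_of_le_one_left (abs_nonneg _) (K3.dl_le_one M hc.le n)))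

theorem low {y : ∀ n, Ω n → V d} {α : Type} (h : NE P M y Z E) (F : ∀ b n, β b n → α)
    (Φ : ℕ → α → Pl d) (hΦ : ∀ b n z, (Φ n (F b n z)).totalDegree ≤ E) (hc : 0 < c) :
    Whp P fun n ω => F true n (Z true n ω) = F false n (Z false n ω) →
      dl M c n * cn (Φ n (F true n (Z true n ω))) ≤ |eval (y n ω) (Φ n (F true n (Z true n ω)))| :=
  (h c (fun b n z => Φ n (F b n z)) hc hΦ).mono (Eventually.of_forall fun n _ _ k e =>
    not_lt.1 fun l => k ⟨congrArg (Φ n) e, l⟩)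

theorem key {y : ∀ n, Ω n → V (i + 1)} (hD : Der0) (hM : Big M) (hB : Bdd P M y)
    (hT : MIN P M (sel y Fin.succ) Z) (h : NE P M y Z E) {F : ∀ b n, β b n → Pl (i + 1)}
    (hF : ∀ b n z, (F b n z).totalDegree ≤ E + 1) (hc : 0 < c) (hc' : 0 < c') :
    Whp P fun n ω => F true n (Z true n ω) = F false n (Z false n ω) →
      1 ≤ cn (F true n (Z true n ω)) → |eval (y n ω) (F true n (Z true n ω))| ≤ dl M c n →
      (Real.exp (c' * M n))⁻¹ ≤ |eval (y n ω) (pderiv 0 (F true n (Z true n ω)))| ∧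
        Irr (E + 1) (Real.exp (c' * M n)) (F true n (Z true n ω)) := by
  obtain ⟨Γ, g1, g2⟩ := S20.gp_iff.1 hB
  obtain ⟨b, hb, b1, b2⟩ : ∃ b : ℝ, 0 < b ∧ b + b ≤ c ∧ b + b + (b + b) ≤ c' :=
    ⟨min c c' / 4, by positivity, by linarith [min_le_left c c', lt_min hc hc'],
      by linarith [min_le_right c c']⟩
  choose! R r1 r2 using hD i (E + 1)
  choose A B a1 a2 a3 using fun n => fac (d := i + 1) E (Real.exp_pos (c' * M n))
  have w1 := low h F (fun _ H => pderiv 0 H)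
    (fun b n z => (Pk.kc.der _ _ 0 (hF b n z)).2) (add_pos hb hb)
  have w2 := low (y := sel y Fin.succ) (hT (E + 1)) F (fun _ => R) (fun b n z => r1 _ (hF b n z)) hb
  have w3 := low h F A (fun _ _ _ => a1 _ _) (half_pos hb)
  have w4 := low h F B (fun _ _ _ => a2 _ _) (half_pos hb)
  refine ((((g2.and w1).and w2).and w3).and w4).mono ?_
  filter_upwards [G39.sub_dl ((g1.pow (E + E + 1)).const_mul hM (by norm_num : (1 : ℝ) ≤ 5)) hb]
    with n e ω _ ⟨⟨⟨⟨u0, u1⟩, u2⟩, u3⟩, u4⟩ q1 q2 q3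
  have hH := hF true n (Z true n ω)
  replace u1 := u1 q1
  replace u2 := u2 q1
  replace u3 := u3 q1
  replace u4 := u4 q1
  generalize F true n (Z true n ω) = H at *
  have fr := fun (Q : Pl (i + 1)) (k : Q.totalDegree ≤ E + E + 1) (l : cn (H - Q) ≤ _) =>
    far (hH.trans (by omega)) k q2 (g1.1 n) u0 (dl_pos M b n) e
      (q3.trans ((dl_anti M b1 n).trans_eq (dl_add ..))) l
  rw [← dl_add] at fr
  constructor
  · rw [← dl_inv, inv_inv]
    refine (dl_anti M b2 n).trans (le_trans ?_ u1)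
    rw [dl_add]
    refine mul_le_mul_of_nonneg_left (not_lt.1 fun k => ?_) (dl_pos ..).le
    have := fr (rename Fin.succ (R H)) ((totalDegree_rename_le _ _).trans
      ((r1 H hH).trans (by omega))) ((r2 H hH).1.trans k.le)
    rw [eval_rename, Pk.kc.ren _ _ (Fin.succ_injective i)] at this
    exact this.not_ge u2
  · by_contra k
    have k1 := a3 n H k
    rw [← dl_inv, inv_inv] at k1
    have := fr (A n H * B n H) ((totalDegree_mul _ _).trans (by linarith [a1 n H, a2 n H]))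
      (k1.trans (dl_anti M (by linarith) n))
    refine this.not_ge ((mul_le_mul_of_nonneg_left (Pk.kc.mul _ _) (dl_pos ..).le).trans ?_)
    rw [map_mul, abs_mul, dl_half M b, mul_mul_mul_comm]
    exact mul_le_mul u3 u4 (mul_nonneg (dl_pos ..).le (Pk.kc.nonneg _)) (abs_nonneg _)

end StMinA

open StMinA in
theorem rMinP : OfMinP := by
  intro hD i Ω β P M y Z hM hB hT hn
  obtain ⟨E, h1, h2⟩ : ∃ E, NE P M y Z E ∧ ¬NE P M y Z (E + 1) := by
    by_contra k
    push Not at k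
    exact hn fun E => Nat.rec (motive := fun E => NE P M y Z E) zero k E
  unfold NE at h2
  push Not at h2
  obtain ⟨c, F, hc, hF, h2⟩ := h2
  choose N hN using norm (d := i + 1) (E + 1)
  obtain ⟨⟨m, hm⟩, p⟩ := G39.pos_ex (J := G39.TT (Fin (i + 1)) (E + 1))
    (A := fun m n ω => N (F true n (Z true n ω)) = N (F false n (Z false n ω)) ∧
      Nm (E + 1) m.1 (N (F true n (Z true n ω))) ∧
      |eval (y n ω) (N (F true n (Z true n ω)))| ≤ dl M (c / 2) n) ((not_whp h2).mono (by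
    filter_upwards [K3.dl_sm hM (G39.TT (Fin (i + 1)) (E + 1)).card (half_pos hc)]
      with n e ω _ k
    push Not at k
    obtain ⟨k1, k2⟩ := k
    obtain ⟨m, u1, u2⟩ := (hN _ (hF _ _ _)).2 _ _ (G39.dl_pos ..).le k2
    refine ⟨m, congrArg N k1, u1, u2.trans ?_⟩
    rw [G39.dl_half M c, ← mul_assoc]
    exact mul_le_of_le_one_left (G39.dl_pos ..).le e))
  refine ⟨_, p, E + 1, m, c / 2, fun b n z => N (F b n z), half_pos hc,
    S20.gp_of_wp fun c' hc' => ?_⟩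
  refine ((key hD hM hB hT h1 (F := fun b n z => N (F b n z)) (fun b n z => (hN _ (hF b n z)).1)
    (half_pos hc) hc').cE p).mono (p.sure.mono fun n a ω hω k => ?_)
  obtain ⟨-, u1, u2, u3⟩ := a ω hω
  exact ⟨u1, u2, u3, k u1 (nm_cn u2).1 u3⟩

end Pool.Agent.MP_5168f5_an.AN.St
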