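import Pool.Agent.MP_5168f5_an.AN.SpecS
import Pool.Agent.MP_5168f5_an.AN.S20Ds

/-! Generic points are nice. -/

namespace Pool.Agent.MP_5168f5_an.AN.St

open H19 H17S H17F Filter MvPolynomial
open G39 (nu RG dl REM Nm)
open Pk (cn mons)
open Nc (Pl ev jac NiceAt Bas)

namespace StNiGA

open Nc G39 S20

variable {d D : ℕ} {Ω Λ : ℕ → Type} {P : ∀ n, FP (Ω n)} {M : ℕ → ℕ} {q : ∀ n, Ω n → Λ n}
  {ν : ∀ n, Ω n → Pl d → ℝ} {Θ : ∀ n, Ω n → Fin d → Pl d}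

theorem wjac (f : FN P M q ν Θ D) : Whp P fun n ω => jac (Θ n ω) ≠ 0 := by
  have hex : ∀ Φ : Fin d → Pl d, ∃ H : Pl d, H.totalDegree ≤ d * ord d D ∧
      ((∀ i, (Φ i).totalDegree ≤ D) → jac Φ = 0 → H ≠ 0 ∧ aeval Φ H = 0) := fun Φ => by
    by_contra k
    push Not at k
    obtain ⟨h1, h2, -⟩ := k 0 (by simp)
    exact jac_ne_zero h1 (fun H hd e => by_contra fun h0 => (k H hd).2.2 h0 e) h2
  choose H h1 h2 using hex
  refine (f.ind _ 1 (fun n ω => H (Θ n ω)) one_pos (f.fn.mono fun n a => (Fn.comp H _).trans a)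
    fun n ω => h1 _).mono (.of_forall fun n ω _ k e => ?_)
  obtain ⟨a, b⟩ := h2 _ (f.deg n ω) e
  rw [b, f.zero] at k
  exact a ((kc.zero _).1 ((nonpos_of_mul_nonpos_right k (dl_pos _ _ _)).antisymm (kc.nonneg _)))

theorem wp {p : ∀ n, Ω n → ℝ → Prop} (h : Gp P M p) {c : ℝ} (hc : 0 < c) :
    Whp P fun n ω => ∃ Γ ≤ (dl M c n)⁻¹, 1 ≤ Γ ∧ p n ω Γ :=
  let ⟨_, a, b⟩ := gp_iff.1 h
  b.mono ((sub_dl a hc).mono fun n e _ _ k => ⟨_, e, a.1 n, k⟩)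

end StNiGA

open StNiGA Nc G39 S20

theorem rNiG : NiG := by
  intro d Ω Λ P M y q ν Θ D g f E K
  obtain ⟨L, e, A, hA, hn⟩ := nice_nu d D E K (mons (Fin d) E).card
  have key : ∀ c : ℝ, 0 < c → Whp P fun n ω => ‖ev (Θ n ω) (y n ω)‖ ≤ (dl M c n)⁻¹ ∧
      ∃ σ, NiceAt (Θ n ω) (ν n ω) D E K (A * (dl M c n)⁻¹ ^ e) (y n ω) σ := fun c hc => by
    have hex : ∀ n (z : (Fin d → Pl d) × (Pl d → ℝ)), ∃ H : Pl d, H.totalDegree ≤ L ∧
        ((∀ i, (z.1 i).totalDegree ≤ D) → jac z.1 ≠ 0 → Bas z.2 E (mons (Fin d) E).card →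
        cn H = 1 ∧ ∀ u, ‖u‖ ≤ ∑ ω ∈ (P n).S, ‖y n ω‖ → ‖ev z.1 u‖ ≤ (dl M c n)⁻¹ →
          (∀ F : Pl d, F.totalDegree ≤ E → |eval u F| ≤ (dl M c n)⁻¹ * z.2 F) →
          (dl M c n)⁻¹⁻¹ ≤ |eval (ev z.1 u) H| →
          ∃ σ, NiceAt z.1 z.2 D E K (A * (dl M c n)⁻¹ ^ e) u σ) := fun n z => by
      by_cases k : (∀ i, (z.1 i).totalDegree ≤ D) ∧ jac z.1 ≠ 0 ∧ Bas z.2 E (mons (Fin d) E).card
      · obtain ⟨H, h1, h2, h3⟩ := hn z.1 z.2 (dl M c n)⁻¹ _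
          (by rw [dl_inv]; exact Real.one_le_exp (by positivity)) k.1 k.2.1 k.2.2
        exact ⟨H, h2, fun _ _ _ => ⟨h1, h3⟩⟩
      · exact ⟨0, by simp, fun k1 k2 k3 => absurd ⟨k1, k2, k3⟩ k⟩
    choose H h1 h2 using hex
    have c2 := half_pos hc
    have fz : FnE P (fun n ω => (Θ n ω, ν n ω)) q :=
      (f.fn.and g.fn).mono fun n a => a.1.pair a.2
    have w1 := f.ind L _ (fun n ω => H n (Θ n ω, ν n ω)) c2
      (fz.mono fun n a => (Fn.comp (H n) _).trans a) fun n ω => h1 _ _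
    have w2 := g.dn (L * D) _ (fun n ω => aeval (Θ n ω) (H n (Θ n ω, ν n ω))) c2
      (fz.mono fun n a u hu v hv k => by
        obtain ⟨e1, e2⟩ := Prod.mk.inj (a u hu v hv k)
        simp only [e1, e2]) fun n ω => kc.deg (Θ n ω) _ L D (h1 _ _) (f.deg n ω)
    refine (((wjac f).and (f.bas E)).and (((wp (g.up E) hc).and (wp (g.up D) c2)).and
      ((wp f.le c2).and (w1.and w2)))).mono (.of_forall ?_)
    rintro n ω hω ⟨⟨b1, b2⟩, ⟨⟨l1, k1, -, k2⟩, l2, k3, k4, k5⟩, ⟨l3, k6, -, k7⟩, k8, k9⟩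
    obtain ⟨a1, a2⟩ := h2 n (Θ n ω, ν n ω) (f.deg n ω) b1 b2
    have p0 := dl_pos M c n
    have p1 := dl_pos M (c / 2) n
    have a3 : ‖ev (Θ n ω) (y n ω)‖ ≤ (dl M c n)⁻¹ :=
      (pi_norm_le_iff_of_nonneg (by positivity)).2 fun i => (k5 _ (f.deg n ω i)).trans (by
        rw [dl_half, mul_inv]
        exact (mul_le_mul_of_nonneg_left ((k7 i).trans k6) (by linarith)).trans
          (mul_le_mul_of_nonneg_right k3 (by positivity)))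
    refine ⟨a3, a2 _ (Finset.single_le_sum (f := fun ω => ‖y n ω‖) (fun _ _ => norm_nonneg _) hω)
      a3 (fun F hF => (k2 F hF).trans (mul_le_mul_of_nonneg_right k1 ?_)) ?_⟩
    · obtain ⟨_, -, b⟩ := b2
      exact (b F hF).1
    · rw [a1, mul_one] at k8
      rw [inv_inv, dl_half, ← eval_aeval]
      exact (mul_le_mul_of_nonneg_left k8 p1.le).trans k9
  simp only [dl_inv] at key
  obtain ⟨Γ, s1, s2⟩ := R4.ks.wsub P (fun n ω l => ‖ev (Θ n ω) (y n ω)‖ ≤ l ∧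
    ∃ σ, NiceAt (Θ n ω) (ν n ω) D E K (A * l ^ e) (y n ω) σ) M fun c hc _ => key c hc
  refine gp_iff.2 ⟨_, (s1.pow (e + 1)).const_mul g.big hA, s2.mono (.of_forall ?_)⟩
  rintro n ω - ⟨k1, σ, k2⟩
  have q1 := s1.1 n
  have q2 : 1 ≤ A * Γ n ^ e := one_le_mul_of_one_le_of_one_le hA (one_le_pow₀ q1)
  rw [pow_succ, ← mul_assoc]
  exact ⟨k1.trans (by nlinarith), σ, k2.mono (by linarith) (by nlinarith) le_rfl le_rfl⟩

end Pool.Agent.MP_5168f5_an.AN.St
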