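import Pool.Agent.MP_5168f5_an.AN.SpecS0

/-! Steep windows: few cells of one coordinate map to a given cell. -/

namespace Pool.Agent.MP_5168f5_an.AN.St

open H19 H17S H17F MvPolynomial G39 Pk Nc Filter

namespace StPreA

theorem der {d : ℕ} (F : MvPolynomial (Fin d) ℝ) (b : Fin d) (y : Fin d → ℝ) (s : ℝ) :
    HasDerivAt (fun s => eval (Function.update y b s) F)
      (eval (Function.update y b s) (pderiv b F)) s := by
  induction F using MvPolynomial.induction_on with
  | C a => simpa using hasDerivAt_const s a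
  | add p q hp hq => simpa using hp.fun_add hq
  | mul_X p i hp =>
    by_cases h : i = b
    · subst h
      simpa [add_comm, mul_comm] using hp.fun_mul (hasDerivAt_id' s)
    · simpa [h, mul_comm] using hp.mul_const (y i)

end StPreA

theorem rPre : Pre := by
  classical
  intro E
  refine ⟨7 * (2 * E + 1), by linarith [Nat.cast_nonneg (α := ℝ) E],
    fun d F b y₀ Γ s t c hF hΓ => ?_⟩
  obtain ⟨q, hq, e⟩ := pCnt.sp E F hF y₀ b
  obtain ⟨T, h1, h2⟩ := S20.root q E (((2 : ℝ) ^ t)⁻¹ * c) ((2 : ℝ) ^ t)⁻¹ (2 ^ s / Γ) hq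
    (by positivity)
  refine ⟨T.biUnion fun x => Finset.Icc (fl1 (s + t) x - ⌈2 * Γ⌉₊) (fl1 (s + t) x + ⌈2 * Γ⌉₊), ?_,
    fun y hy hc hd => ?_⟩
  · have k1 := Finset.card_biUnion_le_card_mul T (fun x => Finset.Icc (fl1 (s + t) x - ⌈2 * Γ⌉₊)
      (fl1 (s + t) x + ⌈2 * Γ⌉₊)) (2 * ⌈2 * Γ⌉₊ + 1) fun x _ => by rw [Int.card_Icc]; omega
    have k2 := (Nat.ceil_lt_add_one (by linarith : 0 ≤ 2 * Γ)).le
    have k3 : (T.card : ℝ) ≤ 2 * E + 1 := by exact_mod_cast h1
    refine (Nat.cast_le.2 k1).trans ?_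
    push_cast
    refine (mul_le_mul k3 (show _ ≤ 7 * Γ by linarith) (by positivity) (by positivity)).trans
      (le_of_eq (by ring))
  · have e1 : Function.update y₀ b (y b) = y := funext fun i => by
      by_cases h : i = b
      · rw [h, Function.update_self]
      · rw [Function.update_of_ne h, hy i h]
    have e2 := StPreA.der F b y₀ (y b)
    rw [e1, show (fun s => eval (Function.update y₀ b s) F) = fun s => q.eval s from funext e] at e2
    have e3 : eval y F = q.eval (y b) := by rw [← e (y b), e1]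
    obtain ⟨x, a1, a2⟩ := h2 (y b) (by
      have k1 := fl1_le t (eval y F)
      have k2 := lt_fl1 t (eval y F)
      rw [hc, e3] at k1 k2
      rw [abs_of_nonneg (by linarith)]; linarith) (by
      rw [← e2.unique (q.hasDerivAt _), div_le_iff₀' (by linarith)]; exact hd)
    refine Finset.mem_biUnion.2 ⟨x, a1, fl1_mem_Icc (a2.trans ?_)⟩
    refine le_trans (le_of_eq ?_) (mul_le_mul_of_nonneg_right (Nat.le_ceil _) (by positivity))
    rw [pow_add]; field_simp

end Pool.Agent.MP_5168f5_an.AN.St
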