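import Pool.Agent.MP_5168f5_an.AN.SpecS2
import Pool.Agent.MP_5168f5_an.AN.S20Full

/-! Kinds pull back along maps that preserve the law. -/

namespace Pool.Agent.MP_5168f5_an.AN.St

open H19 H17S H17F Filter MvPolynomial
open G39 (nu RG dl REM Nm)

theorem rPullK : PullK := fun P R ρ M x κ C m hM l h => by
  have l' : ∀ᶠ n in UF, Law (R n) (ρ n) (P n) id := .of_forall l
  refine ⟨?_, ?_, fun K E => ?_, fun K => S20.full_pull (ρ := ρ) hM (h.den K) l', fun j => ?_⟩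
  · obtain ⟨G, Γ, w, s, h⟩ := h.bd
    exact ⟨_, Γ, S20.whp_pull w l', s, h.mono fun n e _ hv => e _ ((l n).mem hv)⟩
  · obtain ⟨G, Γ, w, s, h⟩ := h.few
    exact ⟨_, Γ, S20.whp_pull w l', s, h.mono fun n e _ hv => e _ ((l n).mem hv)⟩
  · obtain ⟨G, Γ, w, s, h⟩ := h.rem K E
    refine ⟨_, Γ, S20.whp_pull w l', s, h.mono fun n e v hv g f ⟨F, hF, hf⟩ θ k h₀ h₁ => ?_⟩
    obtain rfl : f = fun w => eval (x n (ρ n w)) F := funext hf
    exact e _ ((l n).mem hv) g (fun ω => eval (x n ω) F) ⟨F, hF, fun _ => rfl⟩ θ k h₀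
      (h₁.trans_eq ((KEA.law (R n) (P n) (ρ n) id (fun ω => (κ n).Z ω = (κ n).Z (ρ n v))
        (l n)).pb_eq fun ω => G n ω ∧ |eval (x n ω) F| ≤ θ))
  · obtain ⟨G, Γ, w, s, h⟩ := h.wh j
    refine ⟨_, Γ, S20.whp_pull w l', s, h.mono fun n ⟨τ, e⟩ =>
      ⟨fun v => τ (ρ n v), fun _ hv g => ?_⟩⟩
    have a := e _ ((l n).mem hv) g
    exact ⟨a.1, a.2.1, fun _ hw => a.2.2 _ ((l n).mem hw)⟩

end Pool.Agent.MP_5168f5_an.AN.St
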