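import Pool.Agent.MP_5168f5_an.AN.SpecS2

/-! Steep windows: the Remez inequality survives an index with few values. -/

namespace Pool.Agent.MP_5168f5_an.AN.St

open H19 H17S H17F Filter MvPolynomial
open G39 (nu RG dl REM Nm)
open Pk (cn mons)
open Nc (Pl ev jac NiceAt Bas)

theorem rRemI : RemI := by
  intro N Ω Λ P M x Z ι C hM h hι K D
  obtain ⟨G, Γ, a, b, c⟩ := h (K + 1) D
  obtain ⟨L, l1, l2⟩ := S20.gp_iff.1 ((S20.fs_idx0 hM hι Z).low hM (S20.fnE_const _))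
  refine ⟨_, _, a.and l2, b.mul (l1.pow (C * D)), ?_⟩
  filter_upwards [c, G39.sub_dl l1 one_pos] with n c l ω hω g f hf θ κ k1 k2
  have l0 := l1.pos n
  have k0 := (G39.dl_pos M K n).trans_le k1
  have h1 := S20.dn_mul (Y := ι n) (A := Z n) hω fun v =>
    (G n v ∧ 1 ≤ L n * 1 * S20.dn (P n) (ι n) (Z n) v) ∧ |f v| ≤ θ
  have h2 : (L n)⁻¹ ≤ S20.dn (P n) (ι n) (Z n) ω := by
    rw [inv_le_iff_one_le_mul₀' l0]; simpa using g.2
  refine (c ω hω g.1 f hf θ ((L n)⁻¹ * κ) ?_ ((mul_le_mul h2 k2 k0.le (pb_nonneg _ _)).trans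
    (h1.trans_le (pb_mono fun _ _ e => ⟨e.1.1.1, e.1.2⟩)))).trans_eq ?_
  · rw [Nat.cast_add, Nat.cast_one, add_comm, G39.dl_add]
    exact mul_le_mul (le_inv_of_le_inv₀ l0 l) k1 (G39.dl_pos _ _ _).le (inv_pos.2 l0).le
  · rw [mul_inv, inv_inv, mul_pow]
    ring

end Pool.Agent.MP_5168f5_an.AN.St
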