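import Pool.Agent.MP_5168f5_an.AN.SpecS0

/-! Kakeya sets in all dimensions: nice points with the same index lie on one sheet. -/

namespace Pool.Agent.MP_5168f5_an.AN.St

open H19 H17S H17F MvPolynomial G39 Pk Nc Filter

namespace StShA

theorem idx {α : Type} (T : Finset α) :
    ∃ W : α → ℕ, ∀ a ∈ T, W a ≤ T.card ∧ ∀ b ∈ T, W a = W b → a = b := by
  classical
  refine ⟨fun a => if h : a ∈ T then T.equivFin ⟨a, h⟩ else 0, fun a ha => ⟨?_, fun b hb e => ?_⟩⟩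
  · simp only [dif_pos ha]
    exact (T.equivFin ⟨a, ha⟩).2.le
  · simp only [dif_pos ha, dif_pos hb] at e
    exact congrArg Subtype.val (T.equivFin.injective (Fin.ext e))

/-- The corner of the cube that contains `u`. -/
noncomputable def cor {n : ℕ} (Λ : ℝ) (q : Fin n → ℤ) : V n := fun i => q i / (2 * Λ)

theorem cor_near {n : ℕ} {Λ : ℝ} (h : 0 < Λ) (u : V n) :
    ‖cor Λ (fun i => ⌊2 * Λ * u i⌋) - u‖ < Λ⁻¹ / 2 := by
  refine (pi_norm_lt_iff (by positivity)).2 fun i => ?_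
  have h1 := Int.floor_le (2 * Λ * u i)
  have h2 := Int.lt_floor_add_one (2 * Λ * u i)
  have e : cor Λ (fun i => ⌊2 * Λ * u i⌋) i - u i = (⌊2 * Λ * u i⌋ - 2 * Λ * u i) * (Λ⁻¹ / 2) := by
    rw [cor]
    field_simp
  rw [Pi.sub_apply, e, Real.norm_eq_abs, abs_mul, abs_of_pos (show 0 < Λ⁻¹ / 2 by positivity)]
  exact mul_lt_of_lt_one_left (by positivity) (abs_lt.2 ⟨by linarith, by linarith⟩)

theorem cubes (n : ℕ) {Λ : ℝ} (h : 1 ≤ Λ) : ∃ Q : Finset (Fin n → ℤ),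
    (Q.card : ℝ) ≤ 7 ^ n * Λ ^ (2 * n) ∧ ∀ u : V n, ‖u‖ ≤ Λ → (fun i => ⌊2 * Λ * u i⌋) ∈ Q := by
  have h1 : 1 ≤ Λ ^ 2 := one_le_pow₀ h
  have h2 := Nat.ceil_lt_add_one (show 0 ≤ 2 * Λ ^ 2 by positivity)
  have h3 := Nat.le_ceil (2 * Λ ^ 2)
  generalize ⌈2 * Λ ^ 2⌉₊ = N at h2 h3
  refine ⟨Fintype.piFinset fun _ => Finset.Icc (-(N : ℤ)) N, ?_, fun u hu => ?_⟩
  · have e : (Finset.Icc (-(N : ℤ)) N).card = 2 * N + 1 := by rw [Int.card_Icc]; omega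
    rw [Fintype.card_piFinset_const, e, pow_mul, ← mul_pow]
    push_cast
    exact pow_le_pow_left₀ (by positivity) (by linarith) n
  · refine Fintype.mem_piFinset.2 fun i => ?_
    have h4 := abs_le.1 ((norm_le_pi_norm u i).trans hu)
    refine Finset.mem_Icc.2 ⟨Int.le_floor.2 ?_, Int.floor_le_iff.2 ?_⟩ <;> push_cast <;> nlinarith

end StShA

open StShA in
theorem rSh : Sh := by
  classical
  intro n D
  have o1 : (1 : ℝ) ≤ ord n D := by exact_mod_cast ord_pos n D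
  refine ⟨7 ^ n * (ord n D : ℝ) ^ n, one_le_mul_of_one_le_of_one_le (one_le_pow₀ (by norm_num))
    (one_le_pow₀ o1), fun Φ ν E K Λ hΛ => ?_⟩
  have l0 : 0 < Λ := one_pos.trans_le hΛ
  obtain ⟨Q, hQ, mQ⟩ := cubes n hΛ
  have e1 : ∀ u : V n, ∃ T : Finset (V n), T.card ≤ ord n D ^ n ∧
      ((∃ T : Finset (V n), T.card ≤ ord n D ^ n ∧ ∀ y', Nc.ev Φ y' = u → y' ∈ T) →
        ∀ y', Nc.ev Φ y' = u → y' ∈ T) := fun u => by
    by_cases c : ∃ T : Finset (V n), T.card ≤ ord n D ^ n ∧ ∀ y', Nc.ev Φ y' = u → y' ∈ T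
    · exact c.imp fun T a => ⟨a.1, fun _ => a.2⟩
    · exact ⟨∅, by simp, fun d => absurd d c⟩
  choose fb f1 f2 using e1
  have e2 : ∀ y : V n, ∃ σ, (∃ σ, NiceAt Φ ν D E K Λ y σ) → NiceAt Φ ν D E K Λ y σ := fun y => by
    by_cases c : ∃ σ, NiceAt Φ ν D E K Λ y σ
    · exact c.imp fun _ a _ => a
    · exact ⟨id, fun d => absurd d c⟩
  choose sg hs using e2
  let c0 : V n → V n := fun y => cor Λ fun i => ⌊2 * Λ * Nc.ev Φ y i⌋
  have n1 : ∀ y, ‖c0 y - Nc.ev Φ y‖ < Λ⁻¹ / 2 := fun y => cor_near l0 _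
  have n2 : ∀ y, c0 y ∈ Metric.ball (Nc.ev Φ y) Λ⁻¹ := fun y =>
    mem_ball_iff_norm.2 ((n1 y).trans (half_lt_self (inv_pos.2 l0)))
  obtain ⟨W, hW⟩ := idx (Q.biUnion fun q => fb (cor Λ q))
  have m : ∀ y, ‖Nc.ev Φ y‖ ≤ Λ → (∃ σ, NiceAt Φ ν D E K Λ y σ) →
      sg y (c0 y) ∈ Q.biUnion fun q => fb (cor Λ q) := fun y a b =>
    Finset.mem_biUnion.2 ⟨_, mQ _ a, f2 _ ((hs y b).fib _ (n2 y)) _ ((hs y b).sheet.inv _ (n2 y))⟩
  refine ⟨fun y => W (sg y (c0 y)), fun y a b => ⟨?_, fun y' a' b' e F hF k hk => ?_⟩⟩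
  · have h1 := (hW _ (m y a b)).1.trans
      (Finset.card_biUnion_le_card_mul _ _ _ fun q _ => f1 (cor Λ q))
    have h2 : (W (sg y (c0 y)) : ℝ) ≤ Q.card * (ord n D : ℝ) ^ n := by exact_mod_cast h1
    exact h2.trans ((mul_le_mul_of_nonneg_right hQ (by positivity)).trans_eq (by ring))
  · have h1 := (hW _ (m y a b)).2 _ (m y' a' b') e
    have h2 : c0 y = c0 y' := by
      rw [← (hs y b).sheet.inv _ (n2 y), h1, (hs y' b').sheet.inv _ (n2 y')]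
    have h3 : Nc.ev Φ y' ∈ Metric.ball (Nc.ev Φ y) Λ⁻¹ := by
      have k1 := n1 y
      have k2 := n1 y'
      rw [← h2, norm_sub_rev] at k2
      rw [mem_ball_iff_norm, ← sub_add_sub_cancel _ (c0 y)]
      linarith [norm_add_le (Nc.ev Φ y' - c0 y) (c0 y - Nc.ev Φ y)]
    have h4 : sg y (Nc.ev Φ y') = y' :=
      ((hs y b).same (hs y' b') (n2 y) (h2 ▸ n2 y') (h1.trans (by rw [h2])) h3
        ((hs y' b').mem l0)).trans (hs y' b').base
    have h5 := (hs y b).taylor hF hk ((hs y b).mem l0) h3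
    rw [h4, (hs y b).base, eval_tay] at h5
    rw [eval_tay, sub_zero]
    exact h5

end Pool.Agent.MP_5168f5_an.AN.St
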