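import Pool.Agent.MP_5168f5_an.AN.SpecS0

/-! Kakeya sets in all dimensions: the coefficients of the Taylor polynomial. -/

namespace Pool.Agent.MP_5168f5_an.AN.St

open H19 H17S H17F MvPolynomial G39 Pk Nc Filter

namespace StTyA

theorem cn_term {n k : ℕ} (a : ℝ) (w : Fin k → Fin n) :
    cn (C a * ∏ j, (X (w j) - C ((0 : Fin n → ℝ) (w j))) : MvPolynomial (Fin n) ℝ) ≤ |a| := by
  have h1 : cn (∏ j, (X (w j) - C ((0 : Fin n → ℝ) (w j))) : MvPolynomial (Fin n) ℝ) ≤ 1 := by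
    refine (Nc.kc.prod Finset.univ _).trans (le_of_eq (Finset.prod_eq_one fun j _ => ?_))
    rw [Pi.zero_apply, C_0, sub_zero, Nc.kc.var]
  refine (Nc.kc.mul _ _).trans ?_
  rw [Nc.kc.const]
  exact mul_le_of_le_one_right (abs_nonneg a) h1

theorem ev_prod {n k : ℕ} (w : Fin (k + 1) → Fin n) :
    eval (0 : Fin n → ℝ) (∏ j, (X (w j) - C ((0 : Fin n → ℝ) (w j))) : MvPolynomial (Fin n) ℝ) = 0 := by
  rw [Fin.prod_univ_succ, map_mul]
  simp

theorem ev_der {n k : ℕ} (i : Fin n) (w : Fin (k + 2) → Fin n) :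
    eval (0 : Fin n → ℝ) (pderiv i
      (∏ j, (X (w j) - C ((0 : Fin n → ℝ) (w j))) : MvPolynomial (Fin n) ℝ)) = 0 := by
  have h := ev_prod (fun j : Fin (k + 1) => w j.succ)
  rw [Fin.prod_univ_succ, Derivation.leibniz, smul_eq_mul, smul_eq_mul, map_add, map_mul, map_mul,
    h]
  simp

theorem tay_succ {n : ℕ} (c : (k : ℕ) → (Fin k → Fin n) → ℝ) (K : ℕ) :
    tay c 0 (K + 1) = tay c 0 K + ∑ w : Fin (K + 1) → Fin n,
      C (c (K + 1) w / (K + 1).factorial) * ∏ j, (X (w j) - C ((0 : Fin n → ℝ) (w j))) := by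
  unfold tay
  rw [Finset.sum_range_succ]

theorem ev_tay {n : ℕ} (c : (k : ℕ) → (Fin k → Fin n) → ℝ) :
    ∀ K : ℕ, eval (0 : Fin n → ℝ) (tay c 0 K) = c 0 default
  | 0 => by simp [tay]
  | K + 1 => by
    rw [tay_succ, map_add, ev_tay c K, map_sum, Finset.sum_eq_zero, add_zero]
    intro w _
    rw [map_mul, ev_prod, mul_zero]

theorem ev_der_tay {n : ℕ} (c : (k : ℕ) → (Fin k → Fin n) → ℝ) (i : Fin n) :
    ∀ K : ℕ, eval (0 : Fin n → ℝ) (pderiv i (tay c 0 (K + 1))) = c 1 fun _ => i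
  | 0 => by
    have h0 : pderiv i (tay c 0 0) = 0 := by simp [tay]
    rw [tay_succ, map_add, h0, zero_add, map_sum, map_sum,
      Finset.sum_eq_single (fun _ : Fin (0 + 1) => i)]
    · simp
    · intro w _ hw
      have : w 0 ≠ i := fun h => hw (funext fun j => by
        have : j = 0 := Fin.ext (by simp)
        rw [this, h])
      simp [pderiv_X, this]
    · intro h; exact absurd (Finset.mem_univ _) h
  | K + 1 => by
    rw [tay_succ, map_add, map_add, ev_der_tay c i K, map_sum, map_sum, Finset.sum_eq_zero,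
      add_zero]
    intro w _
    rw [Derivation.leibniz, smul_eq_mul, smul_eq_mul, map_add, map_mul, map_mul, ev_der, pderiv_C]
    simp

end StTyA

theorem rTy : Ty := by
  intro n K
  have h0 : (0 : ℝ) ≤ ∑ k ∈ Finset.range (K + 1), (n : ℝ) ^ k :=
    Finset.sum_nonneg fun k _ => by positivity
  refine ⟨∑ k ∈ Finset.range (K + 1), (n : ℝ) ^ k + 1, by linarith, fun c B hB => ⟨?_,
    StTyA.ev_tay c K, fun hK i => ?_⟩⟩
  · have hB0 : 0 ≤ B := (abs_nonneg _).trans (hB 0 (Nat.zero_le K) default)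
    have h1 : cn (tay c 0 K) ≤ ∑ k ∈ Finset.range (K + 1), (n : ℝ) ^ k * B := by
      refine (Nc.kc.sum _ _).trans (Finset.sum_le_sum fun k hk => ?_)
      refine (Nc.kc.sum _ _).trans ?_
      have h2 : ∀ w ∈ (Finset.univ : Finset (Fin k → Fin n)),
          cn (C (c k w / k.factorial) * ∏ j, (X (w j) - C ((0 : Fin n → ℝ) (w j))) :
            MvPolynomial (Fin n) ℝ) ≤ B := fun w _ => by
        refine (StTyA.cn_term _ w).trans ?_
        have h3 : (1 : ℝ) ≤ k.factorial := by exact_mod_cast Nat.factorial_pos k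
        rw [abs_div, abs_of_pos (by linarith : (0 : ℝ) < k.factorial)]
        exact (div_le_self (abs_nonneg _) h3).trans
          (hB k (Nat.lt_succ_iff.mp (Finset.mem_range.mp hk)) w)
      refine (Finset.sum_le_card_nsmul _ _ B h2).trans (le_of_eq ?_)
      simp
    rw [← Finset.sum_mul] at h1
    nlinarith
  · obtain ⟨K, rfl⟩ : ∃ K', K = K' + 1 := ⟨K - 1, by omega⟩
    exact StTyA.ev_der_tay c i K

end Pool.Agent.MP_5168f5_an.AN.St
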