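import Pool.Agent.MP_5168f5_an.AN.SpecS

/-! Kakeya sets in all dimensions: jets of a generic point as a function of the frame. -/

namespace Pool.Agent.MP_5168f5_an.AN.St

open H19 H17S H17F Filter MvPolynomial
open G39 (nu RG dl REM Nm)
open Pk (cn mons)
open Nc (Pl ev jac NiceAt Bas)

namespace StWhGA

variable {d : ℕ}

theorem co1 (l : Fin d) (F : Pl d) : coeff (Finsupp.single l 1) F = eval 0 (pderiv l F) := by
  rw [eval_zero, constantCoeff_eq, coeff_pderiv]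
  simp

theorem dW_self (Φ : Fin d → Pl d) (k l : Fin d) {y : V d} (h : eval y (jac Φ) ≠ 0) :
    Nc.dW Φ (Φ k) 1 (fun _ => l) y = if k = l then 1 else 0 := by
  have e : Nc.Dv Φ l (Φ k) = (Nc.jm Φ * (Nc.jm Φ).adjugate) k l := by
    rw [Matrix.mul_apply]
    exact Finset.sum_congr rfl fun j _ => mul_comm _ _
  rw [Nc.dW_one _ _ _ h, e, Matrix.mul_adjugate, Matrix.smul_apply, Matrix.one_apply]
  split_ifs
  · rw [smul_eq_mul, mul_one]; exact div_self h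
  · simp

/-- A nice point with bounded coordinates. -/
def Ni (Φ : Fin d → Pl d) (ν : Pl d → ℝ) (D K : ℕ) (Λ : ℝ) (y : V d) : Prop :=
  (‖ev Φ y‖ ≤ Λ ∧ ∃ σ, NiceAt Φ ν D 1 K Λ y σ) ∧ ∀ i, ν (X i) ≤ Λ

variable {Ω Λ : ℕ → Type} {P : ∀ n, FP (Ω n)} {M : ℕ → ℕ} {y : ∀ n, Ω n → V d}
  {q : ∀ n, Ω n → Λ n} {ν : ∀ n, Ω n → Pl d → ℝ} {Θ : ∀ n, Ω n → Fin d → Pl d} {D : ℕ}

theorem ni1 (hN : NiG) (gp : GP P M y q ν) (fn : FN P M q ν Θ D) (bd : Bdd P M y) (K : ℕ) {c : ℝ}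
    (hc : 0 < c) :
    Whp P fun n ω => Ni (Θ n ω) (ν n ω) D K (Real.exp (c * M n)) (y n ω) := by
  obtain ⟨G, Γ, a1, a2, a3⟩ := hN P M y q ν Θ D gp fn 1 K
  obtain ⟨G', Γ', b1, b2, b3⟩ := bd
  have w := Whp.all fun i : Fin d => gp.dn 1 (c / 2) (fun _ _ => X i) (half_pos hc)
    (Eventually.of_forall fun _ _ _ _ _ _ => rfl) fun _ _ => (totalDegree_X i).le
  refine (a1.and (b1.and w)).mono ?_
  filter_upwards [a3, b3, a2.2 c hc, b2.2 _ (half_pos hc)] with n u v s t ω hω ⟨k1, k2, k3⟩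
  obtain ⟨x1, σ, x2⟩ := u ω hω k1
  refine ⟨⟨x1.trans s, σ, x2.mono (a2.pos n) s le_rfl le_rfl⟩, fun i => ?_⟩
  have e1 := k3 i
  rw [eval_X, ← le_inv_mul_iff₀ (G39.dl_pos M _ n), G39.dl_inv] at e1
  refine e1.trans ((mul_le_mul_of_nonneg_left (((norm_le_pi_norm (y n ω) i).trans
    (v ω hω k2)).trans t) (Real.exp_pos _).le).trans_eq ?_)
  rw [← Real.exp_add]; congr 1; ring

theorem ni2 (hN : NiG) (gp : GP P M y q ν) (fn : FN P M q ν Θ D) (bd : Bdd P M y) :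
    ∃ (k : ℕ → ℕ) (L : ℕ → ℝ), Big k ∧ Sub M L ∧
      Whp P fun n ω => Ni (Θ n ω) (ν n ω) D (k n) (L n) (y n ω) := by
  obtain ⟨k, hk, w⟩ := G39.whp_diag fun j : ℕ =>
    ni1 hN gp fn bd j (c := 1 / (j + 1 : ℝ)) (by positivity)
  refine ⟨k, _, hk, ⟨fun n => Real.one_le_exp (by positivity), fun ε hε => ?_⟩,
    w.mono (Eventually.of_forall fun n ω _ e => e _ le_rfl)⟩
  exact (R4.K31.small hε hk).mono fun n a =>
    Real.exp_le_exp.2 (mul_le_mul_of_nonneg_right a (Nat.cast_nonneg _))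

end StWhGA

open StWhGA in
theorem rWhG : OfWhG := by
  intro hS hT hN d m Ω Λ P M y q ν Θ D e f gp fn bd he hΘ
  obtain ⟨k, L, hk, hL, w⟩ := ni2 hN gp fn bd
  obtain ⟨C, hC, hW⟩ := hS d D
  choose W hW using hW
  refine ⟨fun n ω => W (Θ n ω) (ν n ω) 1 (k n) (L n) (hL.1 n) (y n ω),
    ⟨_, _, w, (hL.pow (2 * d)).const_mul gp.big hC, Eventually.of_forall fun n ω _ u => ?_⟩,
    fun j => ?_⟩
  · simp only [zero_mul, Real.exp_zero, mul_one]
    exact (hW _ _ _ _ _ _ _ u.1.1 u.1.2).1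
  obtain ⟨C', hC', hT⟩ := hT d (j + 1)
  have d1 : (1 : ℝ) ≤ (d + 1) ^ (j + 2) := one_le_pow₀ (by simp)
  have hΓ := (hL.mul hL).const_mul gp.big (one_le_mul_of_one_le_of_one_le hC' d1)
  refine ⟨_, _, w, hΓ, ?_⟩
  filter_upwards [gp.fn, fn.fn, hk.ev (j + 2 : ℕ)] with n f1 f2 kj
  have kj : j + 2 ≤ k n := by exact_mod_cast kj
  have l0 := hL.pos n
  refine ⟨fun ω i => Nc.tay (fun k w => Nc.dW (Θ n ω) (X i) k w (y n ω)) 0 (j + 1),
    fun ω hω u => ?_⟩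
  obtain ⟨σ, hσ⟩ := u.1.2
  have t := fun i => hT (fun k w => Nc.dW (Θ n ω) (X i) k w (y n ω)) (L n * L n) fun k hk w =>
    (hσ.der₀ l0 (totalDegree_X i).le (by omega) w).trans
      (mul_le_mul_of_nonneg_left (u.2 i) l0.le)
  refine ⟨fun i => ⟨Nc.deg_tay _ _ _, (t i).1.trans ?_⟩, ⟨e, f, ?_⟩, fun v hv u' e1 e2 => ?_⟩
  · exact mul_le_mul_of_nonneg_right (le_mul_of_one_le_right (by linarith) d1) (by positivity)
  · have : (Matrix.of fun a b => coeff (Finsupp.single (f b) 1)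
        (Nc.tay (fun k w => Nc.dW (Θ n ω) (X (e a)) k w (y n ω)) 0 (j + 1))) = 1 := by
      ext a b
      rw [Matrix.of_apply, co1, (t _).2.2 (by omega), ← hΘ n ω a, dW_self _ _ _ (hσ.jac l0),
        Matrix.one_apply]
      refine if_congr ⟨fun h => he (X_injective (R := ℝ) ?_), congrArg f⟩ rfl rfl
      rw [← hΘ n ω a, ← hΘ n ω b, h]
    rw [this, Matrix.det_one, abs_one]
    exact inv_le_one_of_one_le₀ (hΓ.1 n)
  · have g1 : Θ n v = Θ n ω := f2 v hv ω hω e1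
    have g2 : ν n v = ν n ω := f1 v hv ω hω e1
    simp only [cht, g1, g2] at e2 u' ⊢
    have g0 := hΓ.pos n
    refine (pi_norm_le_iff_of_nonneg (by positivity)).2 fun i => ?_
    have g3 := (hW _ _ _ _ _ (hL.1 n) _ u.1.1 u.1.2).2 _ u'.1.1 u'.1.2 e2.symm (X i)
      (totalDegree_X i).le (j + 1) kj
    rw [eval_X, mul_pow, ← mul_assoc] at g3
    refine g3.trans (mul_le_mul_of_nonneg_right ?_ (by positivity))
    rw [mul_comm]
    refine mul_le_mul (le_trans ?_ (le_mul_of_one_le_left (by positivity) hC'))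
      (mul_le_mul_of_nonneg_left (u.2 i) l0.le)
      (mul_nonneg l0.le (hσ.nn _ (totalDegree_X i).le)) (by positivity)
    exact pow_le_pow_left₀ (Nat.cast_nonneg _) (by simp) _

end Pool.Agent.MP_5168f5_an.AN.St
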