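import Pool.Agent.MP_5168f5_an.AN.StCore
import Pool.Agent.MP_5168f5_an.AN.StBlk
import Pool.Agent.MP_5168f5_an.AN.StCL
import Pool.Agent.MP_5168f5_an.AN.StClus
import Pool.Agent.MP_5168f5_an.AN.StCop
import Pool.Agent.MP_5168f5_an.AN.StDen
import Pool.Agent.MP_5168f5_an.AN.StDer
import Pool.Agent.MP_5168f5_an.AN.StFR
import Pool.Agent.MP_5168f5_an.AN.StFat
import Pool.Agent.MP_5168f5_an.AN.StFin1
import Pool.Agent.MP_5168f5_an.AN.StFin3
import Pool.Agent.MP_5168f5_an.AN.StHer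
import Pool.Agent.MP_5168f5_an.AN.StK2T
import Pool.Agent.MP_5168f5_an.AN.StLab
import Pool.Agent.MP_5168f5_an.AN.StLast
import Pool.Agent.MP_5168f5_an.AN.StMin
import Pool.Agent.MP_5168f5_an.AN.StNiG
import Pool.Agent.MP_5168f5_an.AN.StOwn
import Pool.Agent.MP_5168f5_an.AN.StPre
import Pool.Agent.MP_5168f5_an.AN.StPull
import Pool.Agent.MP_5168f5_an.AN.StRemI
import Pool.Agent.MP_5168f5_an.AN.StRemP
import Pool.Agent.MP_5168f5_an.AN.StSh
import Pool.Agent.MP_5168f5_an.AN.StTR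
import Pool.Agent.MP_5168f5_an.AN.StTy
import Pool.Agent.MP_5168f5_an.AN.StWhG
import Pool.Agent.MP_5168f5_an.AN.G39Ctx

/-! Kakeya sets in all dimensions: steep windows, assembly. -/

namespace Pool.Agent.MP_5168f5_an.AN.St

theorem rRemQ' : RemQ := fun _ _ _ _ _ _ hM hr hc => Gc.remC' hM hr hc

theorem steep_of (clo : Clo) (ext : ExtC) (s0 : S0) (lat : LAT) : OfSteep :=
  ofSteep ⟨rHerQ, rRemI, rRemQ', ext, rFatD rOwn, rPullK, rK2T, s0, lat, rBlk rNiG, rLast rNiG,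
    rDen rPre, rFR, rMinP rDer0, rCL rClus, rFin3 rFR clo rTR rLab, rNiG, rOwn, rCop rTR,
    rRemP rTR, rWhG rSh rTy rNiG⟩ rFin1

end Pool.Agent.MP_5168f5_an.AN.St
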