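import Pool.Agent.MP_5168f5_an.AN.VIr1

/-! Generic points of an abstract norm are nice. -/

namespace Pool.Agent.MP_5168f5_an.AN.StG

open H19 H17S H17F Filter MvPolynomial Nc Vo Pk

variable {T : ℕ → Type} {d : ℕ}

/-- The points `y` are generic for the size `ν`. -/
structure GP (μ : ∀ n, FP (T n)) (y : ∀ n, T n → V d) (ν : ℕ → Pl d → ℝ) (M : ℕ → ℕ) : Prop where
  big : Big M
  up : ∀ E, Wp μ M fun n L t => Gd (ν n) E L (y n t)
  low : ∀ (E : ℕ) (ε : ℝ), 0 < ε → Ev M fun n L => ∀ F : Pl d, F.totalDegree ≤ E →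
    pb (μ n) (fun t => L * |eval (y n t) F| < ν n F) ≤ ε

/-- Normalised polynomials without approximate relation, for the size `ν`. -/
structure FrN (ν : ℕ → Pl d → ℝ) (M : ℕ → ℕ) {k : ℕ} (Φ : ℕ → Fin k → Pl d) (D : ℕ) : Prop where
  deg : ∀ᶠ n in UF, ∀ i, (Φ n i).totalDegree ≤ D
  le : Ev M fun n L => ∀ i, ν n (Φ n i) ≤ L
  ind : ∀ E, Ev M fun n L => ∀ H : Pl k, H.totalDegree ≤ E → ∀ m,
    |coeff m H| ≤ L * ν n (aeval (Φ n) H)

variable {μ : ∀ n, FP (T n)} {y : ∀ n, T n → V d} {ν : ℕ → Pl d → ℝ} {M : ℕ → ℕ} {D : ℕ}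

theorem gp_self (h : Irr μ y M) : GP μ y (fun n => nuP (μ n) (y n)) M :=
  ⟨h.big, VIr1A.gd h.big, h.low⟩

theorem frN_iff {k : ℕ} {Φ : ℕ → Fin k → Pl d} :
    Fr μ y M Φ D ↔ FrN (fun n => nuP (μ n) (y n)) M Φ D :=
  ⟨fun h => ⟨h.deg, h.le, h.ind⟩, fun h => ⟨h.deg, h.le, h.ind⟩⟩

/-- A sequence of polynomials has typical size at most points. -/
theorem GP.ty (h : GP μ y ν M) (E : ℕ) (F : ℕ → Pl d) (hF : ∀ᶠ n in UF, (F n).totalDegree ≤ E) :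
    Wp μ M fun n L t => ν n (F n) ≤ L * |eval (y n t) (F n)| := fun c hc ε hε => by
  filter_upwards [h.low E ε hε c hc, hF] with n a b
  exact (pb_mono fun t _ k => not_le.1 k).trans (a _ b)

theorem gp_nice {Φ : ℕ → Fin d → Pl d} (h : GP μ y ν M) (f : FrN ν M Φ D)
    (hj : ∀ᶠ n in UF, jac (Φ n) ≠ 0) (hb : ∀ E, ∀ᶠ n in UF, Bas (ν n) E (mons (Fin d) E).card)
    (E K : ℕ) : Wp μ M fun n L t =>
      ‖ev (Φ n) (y n t)‖ ≤ L ∧ ∃ σ, NiceAt (Φ n) (ν n) D E K L (y n t) σ := by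
  classical
  obtain ⟨L, e, A, hA, hn⟩ := nice_nu d D E K (mons (Fin d) E).card
  let N : ℝ := (mons (Fin d) L).card + 1
  have N1 : 1 ≤ N := by simp [N]
  have key : Wp μ M fun n l t => ‖ev (Φ n) (y n t)‖ ≤ N * l ^ 2 ∧
      ∃ σ, NiceAt (Φ n) (ν n) D E K (A * (N * l ^ 2) ^ e) (y n t) σ := fun c hc => by
    have l1 := one_le_ex M hc
    generalize hl : (fun n => Real.exp (c * M n)) = l
    have hl' : ∀ n, Real.exp (c * M n) = l n := congrFun hl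
    simp only [hl'] at l1 ⊢
    have l2 : ∀ n, l n ≤ N * l n ^ 2 := fun n => by nlinarith [l1 n]
    have hex : ∀ n, ∃ H : Pl d, H.totalDegree ≤ L ∧ ((∀ i, (Φ n i).totalDegree ≤ D) →
        jac (Φ n) ≠ 0 → Bas (ν n) E (mons (Fin d) E).card → cn H = 1 ∧ ∀ t ∈ (μ n).S,
        ‖ev (Φ n) (y n t)‖ ≤ N * l n ^ 2 → Gd (ν n) E (N * l n ^ 2) (y n t) →
        (N * l n ^ 2)⁻¹ ≤ |eval (y n t) (aeval (Φ n) H)| →
        ∃ σ, NiceAt (Φ n) (ν n) D E K (A * (N * l n ^ 2) ^ e) (y n t) σ) := fun n => by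
      by_cases k : (∀ i, (Φ n i).totalDegree ≤ D) ∧ jac (Φ n) ≠ 0 ∧
          Bas (ν n) E (mons (Fin d) E).card
      · obtain ⟨H, h1, h2, h3⟩ := hn (Φ n) _ (N * l n ^ 2) (∑ t ∈ (μ n).S, ‖y n t‖)
          ((l1 n).trans (l2 n)) k.1 k.2.1 k.2.2
        exact ⟨H, h2, fun _ _ _ => ⟨h1, fun t ht k1 k2 k3 => h3 _ (Finset.single_le_sum
          (f := fun t => ‖y n t‖) (fun _ _ => norm_nonneg _) ht) k1 k2 (by rwa [← eval_aeval])⟩⟩
      · exact ⟨0, by simp, fun k1 k2 k3 => absurd ⟨k1, k2, k3⟩ k⟩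
    choose H h1 h2 using hex
    have w1 := h.up E c hc
    have w2 := h.up D c hc
    have w3 := h.ty (L * D) (fun n => aeval (Φ n) (H n))
      (f.deg.mono fun n a => kc.deg _ _ L D (h1 n) a) c hc
    have w4 := f.ind L c hc
    have w5 := f.le c hc
    simp only [hl'] at w1 w2 w3 w4 w5
    refine (w1.and (w2.and w3)).mono ?_
    filter_upwards [hj, hb E, f.deg, w4, w5] with n b1 b2 b3 b4 b5 t ht ⟨k1, k2, k3⟩
    obtain ⟨c1, c2⟩ := h2 n b3 b1 b2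
    have p0 : 0 < l n := by linarith [l1 n]
    have k4 : ‖ev (Φ n) (y n t)‖ ≤ N * l n ^ 2 :=
      (pi_norm_le_iff_of_nonneg (by positivity)).2 fun i => (k2 _ (b3 i)).trans
        ((mul_le_mul_of_nonneg_left (b5 i) p0.le).trans (by nlinarith))
    refine ⟨k4, c2 t ht k4 (fun F hF => (k1 F hF).trans (mul_le_mul_of_nonneg_right (l2 n) ?_)) ?_⟩
    · obtain ⟨_, -, g⟩ := b2
      exact (g F hF).1
    · obtain ⟨m, hm⟩ := ex_coeff (h1 n)
      have e1 := (b4 _ (h1 n) m).trans (mul_le_mul_of_nonneg_left k3 p0.le)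
      rw [inv_le_iff_one_le_mul₀' (by positivity), ← c1]
      refine hm.trans ((mul_le_mul (show _ ≤ N by simp [N]) e1 (abs_nonneg _)
        (by positivity)).trans_eq (by ring))
  refine key.of h.big (A * N ^ (e + 1)) (2 * (e + 1))
    (Eventually.of_forall fun n l l' a b t _ ⟨k1, σ, k2⟩ => ?_)
  have q1 : 1 ≤ N * l ^ 2 := one_le_mul_of_one_le_of_one_le N1 (one_le_pow₀ a)
  have q2 : A * (N * l ^ 2) ^ (e + 1) ≤ l' := by rwa [mul_pow, ← pow_mul, ← mul_assoc]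
  have q3 : 1 ≤ A * (N * l ^ 2) ^ e := one_le_mul_of_one_le_of_one_le hA (one_le_pow₀ q1)
  rw [pow_succ, ← mul_assoc] at q2
  exact ⟨k1.trans (by nlinarith), σ, k2.mono (by linarith) (by nlinarith) le_rfl le_rfl⟩

end Pool.Agent.MP_5168f5_an.AN.StG
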