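import Pool.Agent.MP_5168f5_an.AN.GCel2
import Pool.Agent.MP_5168f5_an.AN.Api2
import Pool.Agent.MP_5168f5_an.AN.S20Nz2
import Pool.Agent.MP_5168f5_an.AN.RlSeq

/-! Kakeya sets in all dimensions: two points with a common Remez inequality. -/

namespace Pool.Agent.MP_5168f5_an.AN.St.Lat

open H19 H17S H17F R4 Filter MvPolynomial S20 Cx
open G39 (RG dl REM dl_pos dl_inv sub_dl dl_lt dl_half)
open Pk (cn kc)
open Nc (Pl ev jac deg_jac)
open Vo (Wp)

/-- A fair coin. -/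
noncomputable def coin : FP Bool := FP.unif Finset.univ ⟨true, Finset.mem_univ _⟩

theorem E_coin (f : Bool → ℝ) : coin.E f = (f true + f false) / 2 := by
  simp [coin, FP.E, FP.unif]
  ring

theorem pb_coin {W : Type} (P : FP W) (A : W × Bool → Prop) (b : Bool) :
    pb P (fun a => A (a, b)) ≤ 2 * pb (prod P coin) A := by
  rw [pb_prod', E_coin]
  have := pb_nonneg P fun a => A (a, !b)
  cases b <;> simp only [Bool.not_true, Bool.not_false] at this <;> linarith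

variable {W β α Λ : ℕ → Type} {d C E : ℕ}

/-- One of two points. -/
abbrev mix (y y' : ∀ n, W n → V d) : ∀ n, W n × Bool → V d :=
  fun n v => cond v.2 (y n v.1) (y' n v.1)

/-- The Remez inequality for two points at once. -/
def XR (P : ∀ n, FP (W n)) (M : ℕ → ℕ) (y y' : ∀ n, W n → V d) (Z : ∀ n, W n → β n) (C : ℕ) :
    Prop := ∀ K : ℕ, REM (fun n => prod (P n) coin) (mix y y') M (fun n v => Z n v.1) C K

variable {P : ∀ n, FP (W n)} {M : ℕ → ℕ} {y y' : ∀ n, W n → V d} {Z : ∀ n, W n → β n}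

theorem cf_xr (M : ℕ → ℕ) (y y' : ∀ n, W n → V d) (Z : ∀ n, W n → β n) (C : ℕ) :
    CF fun Q : ∀ n, FP (W n) => XR Q M y y' Z C :=
  cf_rem (S := fun n => FP (W n)) (W := fun n _ => W n × Bool) (fun _ Q => prod Q coin)
    (fun n _ => M n) (fun n _ => mix y y' n) (fun n _ v => Z n v.1) C

theorem XR.cE (h : XR P M y y' Z C) (hM : Big M) {G : ∀ n, W n → Prop} (hG : Pos P G) :
    XR (fun n => cE (P n) (G n)) M y y' Z C := fun K D => by
  obtain ⟨κ, k0, k1⟩ := id hG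
  obtain ⟨G', Γ, a, b, c⟩ := rem_cE (E := fun n (v : W n × Bool) => G n v.1) (K := K) hM (h (K + 1)) (by simp)
    ⟨κ, k0, k1.mono fun n e => e.trans_eq ((law_fst (P n) coin).pb_eq (G n)).symm⟩ D
  refine ⟨G', Γ, fun ε hε => ?_, b, ?_⟩
  · filter_upwards [a ε hε, hG.ex] with n u v
    rwa [cE_prod v] at u
  · filter_upwards [c, hG.ex] with n u v
    rwa [cE_prod v] at u

theorem XR.nz (h : XR P M y y' Z C) (hM : Big M) {J : ℕ → ℕ} (hJ : Fine M J) (j : ℕ → ℕ) :
    XR (NP P d J) M (blurs (pl (Nπ W d J) y) (Nξ W d J) j) (blurs (pl (Nπ W d J) y') (Nξ W d J) j)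
      (pl (Nπ W d J) Z) (C + d) := fun K => by
  have := rem_pull (Q := fun n => prod (NP P d J n) coin)
    (ρ := fun n v => ((v.1.1, v.2), v.1.2)) (rem_nz (h := j) hM hJ h K)
    (Eventually.of_forall fun n F => by
      simp only [E_prod, id]
      exact FP.E_congr _ fun a _ => E_swap _ _ fun t b => F ((a, b), t))
  convert this using 1
  funext n ⟨v, b⟩
  cases b <;> rfl

/-- A bound on the part of an event in the fibre holds at the other point. -/
theorem XR.tr (h : XR P M y y' Z C) (hM : Big M) (E : ℕ) (b b' : Bool) (A : ∀ n, W n → Prop) :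
    ∃ Γ, Sub M Γ ∧ Whp P fun n ω => A n ω → ∀ F : Pl d, F.totalDegree ≤ E → ∀ θ : ℝ,
      (∀ v ∈ (P n).S, A n v → Z n v = Z n ω → |eval (mix y y' n (v, b')) F| ≤ θ) →
      |eval (mix y y' n (ω, b)) F| ≤ Γ n * θ := by
  obtain ⟨G, Γ, a, s, c⟩ := h 1 E
  have g : ∀ b, Whp P fun n ω => G n (ω, b) := fun b ε hε => (a _ (half_pos hε)).mono fun n u =>
    (pb_coin (P n) (fun v => ¬G n v) b).trans (by linarith)
  obtain ⟨L, l, r⟩ := Wp.sub (wp_rare hM (fun n ω => A n ω ∧ G n (ω, b')) Z)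
  have l2 := l.const_mul hM one_le_two
  refine ⟨_, s.mul (l2.pow (C * E)), (((g b).and (g b')).and r).mono ?_⟩
  filter_upwards [c, sub_dl l2 one_pos] with n c e ω hω k hA F hF θ hθ
  have l0 := l.pos n
  have := c (ω, b) ((mem_prod _).2 ⟨hω, Finset.mem_univ _⟩) k.1.1 _ ⟨F, hF, fun _ => rfl⟩ θ
    (2 * L n)⁻¹ (by simpa using (le_inv_comm₀ (l2.pos n) (dl_pos _ _ _)).1 e) (by
      rw [cv_prod hω coin (Z n), inv_le_iff_one_le_mul₀' (by positivity), mul_comm 2, mul_assoc]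
      refine (k.2 ⟨hA, k.1.2⟩).trans (mul_le_mul_of_nonneg_left (le_trans
        (pb_mono fun v hv u => ?_) (pb_coin _ _ b')) l0.le)
      exact ⟨u.2, hθ v ((S20.mem_cv hω v).1 hv).1 u.1 ((S20.mem_cv hω v).1 hv).2⟩)
  rwa [inv_inv] at this

theorem XR.up (h : XR P M y y' Z C) (hM : Big M) (b b' : Bool) {ν : ∀ n, W n → Pl d → ℝ}
    (e : FnE P ν Z) (nn : ∀ n ω F, 0 ≤ ν n ω F)
    (u : Wp P M fun n L ω => Vo.Gd (ν n ω) E L (mix y y' n (ω, b'))) :
    Wp P M fun n L ω => Vo.Gd (ν n ω) E L (mix y y' n (ω, b)) := by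
  obtain ⟨L, l, u⟩ := Wp.sub u
  obtain ⟨Γ, s, k⟩ := h.tr hM E b b' fun n ω => Vo.Gd (ν n ω) E (L n) (mix y y' n (ω, b'))
  refine wp_of_sub (s.mul l) ((u.and k).mono (e.mono fun n e ω hω z F hF => ?_))
    fun n _ _ ω _ _ a z => z.mono (nn n ω) le_rfl a
  rw [mul_assoc]
  exact z.2 z.1 F hF _ fun v hv g x => e v hv ω hω x ▸ g F hF

theorem XR.low (h : XR P M y y' Z C) (hM : Big M) (b b' : Bool) {F : ∀ n, W n → Pl d}
    {a : ∀ n, W n → ℝ} (e : FnE P F Z) (e' : FnE P a Z) (hE : ∀ n ω, (F n ω).totalDegree ≤ E)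
    (u : Wl P M a fun n ω => |eval (mix y y' n (ω, b')) (F n ω)|) :
    Wl P M a fun n ω => |eval (mix y y' n (ω, b)) (F n ω)| := fun c hc => by
  obtain ⟨L, l, u⟩ := Wp.sub u
  obtain ⟨Γ, s, k⟩ := h.tr hM E b' b fun n ω =>
    ¬a n ω ≤ Real.exp (c * M n) * |eval (mix y y' n (ω, b)) (F n ω)|
  refine (u.and k).mono ?_
  filter_upwards [e, e', sub_dl (l.mul s) (half_pos hc), dl_lt hM one_pos (half_pos hc)]
    with n e e' x x' ω hω z
  by_contra w
  have d0 := dl_pos M (c / 2) n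
  have a0 : 0 < a n ω := lt_of_le_of_lt (by positivity) (not_le.1 w)
  have h1 := z.2 w _ (hE n ω) (dl M c n * a n ω) fun v hv g t => by
    rw [e v hv ω hω t, e' v hv ω hω t, ← dl_inv, not_le, inv_mul_lt_iff₀ (dl_pos _ _ _)] at g
    exact g.le
  have h2 := z.1.trans (mul_le_mul_of_nonneg_left h1 (l.pos n).le)
  rw [← mul_assoc, ← mul_assoc, dl_half, ← mul_assoc] at h2
  have h3 := mul_le_mul_of_nonneg_right x d0.le
  rw [inv_mul_cancel₀ d0.ne'] at h3
  nlinarith [mul_le_mul_of_nonneg_right h3 (mul_pos d0 a0).le, mul_lt_mul_of_pos_right x' a0]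

theorem XR.bdd (h : XR P M y y' Z C) (hM : Big M) (u : Bdd P M y') : Bdd P M y :=
  wp_gp (wp_mono (h.up (E := 1) hM true false (ν := fun _ _ => cn) (fnE_const _)
    (fun _ _ => kc.nonneg) (wp_mono (bdd_wp u) (Eventually.of_forall fun n L l ω _ k F hF => by
      simpa [mul_comm, mix] using kc.val F 1 L _ hF l fun i => (norm_le_pi_norm _ i).trans k)))
    (Eventually.of_forall fun n L l ω _ k => (pi_norm_le_iff_of_nonneg (by linarith)).2 fun i => by
      simpa [kc.var, mix] using k (X i) (by simp)))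

/-- The volume count. -/
theorem core {γ : Bool → ℕ → Type} {Z₂ : ∀ b n, W n → γ b n} {S : ∀ n, W n → α n}
    {q : ∀ n, W n → Λ n} {Ψ : ∀ n, W n → Fin d → Pl d} {D : ℕ} {j : ℕ → ℕ} (hM : Big M)
    (cel : Cel P M y Z₂ S Ψ D) (su : Sure P M y) (fat : Fat P M y S) (fu : Full P M (chs Ψ y) S)
    (xr : XR P M y y' Z C) (e1 : FnE P S Z) (e2 : FnE P q S)
    (e3 : FnE P S fun n ω => (fl (j n) (y n ω), q n ω)) (fu' : Full P M y' q) (hj : Lin M j) :
    FullAt P M y q j := by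
  have v := cel_vh hM cel
  have dj := fun n ω => deg_jac (v.deg n ω)
  obtain ⟨B, hB⟩ := fat ((d + 1) * D)
  obtain ⟨A, hA, hU⟩ := upS d D
  have a1 : Wp P M fun n L ω => ∀ F : Pl d, F.totalDegree ≤ (d + 1) * D → ∀ i,
      nc (P n) (y n) (S n) ω (pderiv i F) * 2 ^ 0 ≤
        L * 2 ^ (⌈2 * B⌉₊ * M n) * nc (P n) (y n) (S n) ω F :=
    ((sure_nc hM su S ((d + 1) * D)).and (wp_whp hB)).of hM ((d + 1) * D : ℕ) 1
      (Eventually.of_forall fun n L L' l l' ω _ k F hF i => by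
        obtain ⟨b1, b2⟩ := kc.der F _ i hF
        have b3 := (le_inv_mul_iff₀ (dl_pos M B n)).2 (k.2 F hF)
        have b4 := nc_nn (P n) (y n) (S n) ω F
        rw [pow_zero, mul_one, mul_assoc]
        refine (k.1 _ (b2.trans (Nat.sub_le _ _))).trans ((mul_le_mul_of_nonneg_left b1
          (by linarith)).trans ?_)
        rw [← mul_assoc, mul_comm L]
        exact mul_le_mul (by simpa using l') (b3.trans (mul_le_mul_of_nonneg_right
          (Rl.dl_le_two M B n) b4)) (kc.nonneg F) (le_trans (by positivity) l'))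
  have fj : FnE P (fun n ω => nc (P n) (y n) (S n) ω (jac (Ψ n ω))) S :=
    (v.fnu.and v.fn).mono fun n k u hu w hw x => by
      simp only [k.1 u hu w hw x, k.2 u hu w hw x]
  have w := (((a1.and v.bd).and (wp_whp v.jpos)).and
    (xr.up hM false true (v.fnu.trans e1) v.nn (v.gd ((d + 1) * D)))).and
    (xr.low hM false true (v.fnj.trans e1) (fj.trans e1) dj (v.low v.fnj dj))
  have f1 : FS P M (fun n ω => fl (⌈2 * B⌉₊ * M n) (y' n ω)) (fun n ω => (S n ω, q n ω))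
      fun n ω => (2 ^ (⌈2 * B⌉₊ * M n)) ^ d / nc (P n) (y n) (S n) ω (jac (Ψ n ω)) := by
    refine fs_of_wp hM w hA (5 * d + 1) ?_
    filter_upwards [v.fnu, v.fn] with n f1 f2 L l ω hω ⟨⟨⟨⟨a1, a2⟩, a3⟩, _⟩, _⟩
    obtain ⟨-, T, t1, t2⟩ := hU _ _ (fun _ => ⌈2 * B⌉₊ * M n) 0 L (v.nn n ω) l a3
      (fun i => ⟨v.deg n ω i, a2 i⟩) a1
    refine ⟨T, by rwa [Vo.vol_const] at t1, fun u hu x z => ?_⟩
    have b1 := z.1.2
    have b2 := z.2
    have x1 := congrArg Prod.fst x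
    simp only [f1 u hu ω hω x1, f2 u hu ω hω x1] at b1 b2
    exact t2 _ b1 b2
  refine (fullAt_iff hM).2 ((((((fullAt_iff hM).1 (fu' _)).cover hM (fnE_const _) f1).chain
    ((ds_iff.2 (cel_up hM cel su hj fu)).fine (fnE_of fun _ _ _ => congrArg Prod.fst)
      (e2.mono fun n k u hu w hw x => Prod.ext x (k u hu w hw x))
      (fnE_of fun _ _ _ => congrArg Prod.fst))).fine fnE_rfl fnE_rfl
      (e3.mono fun n k u hu w hw x => Prod.ext (k u hu w hw x) (congrArg Prod.fst x))).mono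
    (wp_gp (wp_mono ((v.high dj).and (wp_whp v.jpos))
      (Eventually.of_forall fun n L _ ω _ k => ?_))))
  have := k.2
  rw [cvol, cvol, div_mul_eq_mul_div, mul_inv_cancel₀ (by positivity), ← div_eq_mul_inv,
    ← mul_div_assoc]
  exact div_le_div_of_nonneg_right (by
    rw [one_div, inv_mul_le_iff₀ this, mul_comm]; exact k.1) (by positivity)

end Pool.Agent.MP_5168f5_an.AN.St.Lat
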