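import Pool.Agent.MP_5168f5_an.AN.StLat1
import Pool.Agent.MP_5168f5_an.AN.GNZ0
import Pool.Agent.MP_5168f5_an.AN.EAll
import Pool.Agent.MP_5168f5_an.AN.GRC
import Pool.Agent.MP_5168f5_an.AN.StRemI
import Pool.Agent.MP_5168f5_an.AN.StFat
import Pool.Agent.MP_5168f5_an.AN.StOwn

/-! Kakeya sets in all dimensions: a short frame of the cell of the copy is full. -/

namespace Pool.Agent.MP_5168f5_an.AN.St

open H19 H17S H17F R4 Filter MvPolynomial S20
open G39 (RG dl REM)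
open Nc (Pl ev)

namespace Lat

variable {W β Λ : ℕ → Type} {d k C : ℕ} {P : ∀ n, FP (W n)} {M J j : ℕ → ℕ}
  {y y' : ∀ n, W n → V d} {q : ∀ n, W n → Λ n}

theorem gd_one {p : ∀ n, (W n → Prop) → ℝ → Prop} (h : ∀ n, p n (fun _ => True) 1) : Gd P M p :=
  ⟨_, _, Whp.of_ev (by simp), sub_one M, Eventually.of_forall h⟩

theorem full_ind {U : ℕ → Type} (R : ∀ n, FP (U n)) (hM : Big M) (h : FullAt P M y q j) :
    FullAt (fun n => prod (P n) (R n)) M (fun n v => y n v.1) (fun n v => (v.2, q n v.1)) j := by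
  refine (fullAt_iff hM).2 ((gp_pull (Q := fun n => prod (P n) (R n)) (ρ := fun _ => Prod.fst)
    ((fullAt_iff hM).1 h) (Eventually.of_forall fun _ => law_fst _ _)).mono
    (Eventually.of_forall fun n v hv Γ _ a => le_of_eq_of_le ?_ a))
  obtain ⟨b, c⟩ := (mem_prod v).1 hv
  rw [dn, dn, pb_cv' b, ← mul_div_mul_right _ _ (pb_val c id).ne', ← Nz.pb_prod_and,
    ← Nz.pb_prod_and, pb_cv' hv fun v => (v.2, q n v.1)]
  congr 1 <;> exact pb_congr fun u _ => by simp only [Prod.mk.injEq, id]; tauto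

theorem full_blur (hM : Big M) (h : Full P M y q) :
    Full (NP P d J) M (blurs (pl (Nπ W d J) y) (Nξ W d J) j) (pl (Nπ W d J) q) := fun K =>
  full_ctx hM (full_loc hM (full_ind _ hM (h K)) (gd_one fun n a _ b _ _ _ e e' => by
    have := (norm_sub_lt_of_fl_eq e').le
    simp only [blur, show Nξ W d J n a = Nξ W d J n b from congrArg (fun s => gp s.1) e,
      add_sub_add_right_eq_sub] at this
    rwa [one_div])) (fnE_of fun _ _ _ => congrArg Prod.snd)

theorem near_blur {Ω : Type} {x ξ : Ω → V d} {ω : Ω} (h : ‖ξ ω‖ ≤ 1) (j : ℕ) :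
    ‖x ω - blur x ξ j ω‖ ≤ 1 / 2 ^ j := by
  rw [blur, sub_add_cancel_left, norm_neg, norm_smul, norm_inv, norm_pow, Real.norm_two, one_div]
  exact mul_le_of_le_one_right (by positivity) h

theorem full_fr (hM : Big M) (hJ : Fine M J) :
    Full (NP P d J) M (fun n v => fr (j n) (blurs (pl (Nπ W d J) y) (Nξ W d J) j n v))
      fun n v => (fl (j n) (blurs (pl (Nπ W d J) y) (Nξ W d J) j n v), q n v.1) := fun K => by
  refine full_ctx hM (full_loc hM (full_side' hM (full_xi hM hJ P d K)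
    (B := fun n v => fl (j n) (blurs (pl (Nπ W d J) y) (Nξ W d J) j n v)) ?_)
    (gd_one fun n a _ b _ _ _ e e' => ?_))
    (fnE_of fun n _ _ e => congrArg (fun s => (s.1, q n s.2)) e)
  · simpa using fs_near (P := NP P d J) (y := blurs (pl (Nπ W d J) y) (Nξ W d J) j) (j := j)
      (A := Nπ W d J) (r := fun _ => 1) hM (by simp) ⟨fun _ _ => True, _, Whp.of_ev (by simp),
        hM.sub one_le_two, Eventually.of_forall fun n a _ b _ _ _ e => by
          have h1 := near_blur (x := pl (Nπ W d J) y n) (ξ := Nξ W d J n) (gp_norm a.2) (j n)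
          have h2 := near_blur (x := pl (Nπ W d J) y n) (ξ := Nξ W d J n) (gp_norm b.2) (j n)
          rw [norm_sub_rev] at h1
          have h3 := (norm_add_le _ _).trans (add_le_add h1 h2)
          rw [show pl (Nπ W d J) y n a = pl (Nπ W d J) y n b from congrArg (y n) e] at h3
          rw [sub_add_sub_cancel] at h3
          exact h3.trans_eq (by ring)⟩
  · have := (norm_sub_lt_of_fl_eq e').le
    rw [one_div]
    refine le_of_eq_of_le (congrArg _ (funext fun i => ?_)) this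
    have e1 := congrFun (congrArg Prod.fst e) i
    have e2 : pl (Nπ W d J) y n a = pl (Nπ W d J) y n b := congrArg (fun s => y n s.2) e
    simp only [fl] at e1
    simp only [Pi.sub_apply, fr, Int.fract, e1]
    simp only [blur, e2, Pi.add_apply, Pi.smul_apply, smul_eq_mul]
    field_simp
    ring

/-- The kind of cells. -/
noncomputable abbrev cellK (y : ∀ n, W n → V d) (q : ∀ n, W n → Λ n) (j : ℕ → ℕ) (n : ℕ) :
    Kd d (W n) := ⟨Z d × Λ n, fun v => (fl (j n) (y n v), q n v), fun _ => 0, fun v => fr (j n) (y n v)⟩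

theorem kind_cell (hM : Big M) (bd : Bdd P M y) (e : d ≤ C)
    (h : Full P M (fun n v => fr (j n) (y n v)) fun n v => (fl (j n) (y n v), q n v)) :
    Kind P M y (cellK y q j) C 0 :=
  En.ek.kind (κ := cellK y q j) (D := 1) (Ψ := fun n z i =>
    MvPolynomial.C ((2 ^ j n)⁻¹ * (z.1 i : ℝ)) + MvPolynomial.C (2 ^ j n)⁻¹ * X i)
    ⟨hM, gp_of_sub (sub_one M) (Eventually.of_forall fun n v _ => norm_le_one_of_box fun i =>
      ⟨Int.fract_nonneg _, Int.fract_lt_one _⟩), h, fun n z i => (totalDegree_add _ _).trans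
      (max_le (by rw [totalDegree_C]; simp) ((totalDegree_mul _ _).trans (by simp))),
      Whp.of_ev (Eventually.of_forall fun n v _ => funext fun i => by
        simp only [ev, map_add, map_mul, eval_C, eval_X, fl, fr, Int.fract]
        field_simp
        ring)⟩ bd (fun _ _ => rfl) (by simpa using e)

theorem sure_nz (hM : Big M) (su : Sure P M y) :
    Sure (NP P d J) M (blurs (pl (Nπ W d J) y) (Nξ W d J) j) := by
  obtain ⟨Γ, a, b⟩ := su
  refine ⟨_, a.const_mul hM one_le_two, b.mono fun n b v hv => ?_⟩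
  have h1 := near_blur (x := pl (Nπ W d J) y n) (ξ := Nξ W d J n) (gp_norm v.2) (j n)
  have h2 := h1.trans (div_le_self zero_le_one (one_le_pow₀ one_le_two))
  rw [norm_sub_rev] at h2
  have h3 := (norm_sub_norm_le _ _).trans h2
  linarith [a.1 n, b _ ((mem_prod v).1 hv).1]

theorem aux0 (fill : FILL) (th : THM d 0) (hM : Big M) {κ : ∀ n, Kd k (W n)}
    (kd : Kind P M y κ C 0) (kd' : Kind P M y (cellK y q j) C 0) (su : Sure P M y)
    (flr : A1.Floor P M y fun n => (κ n).Z) (xr : XR P M y y' (fun n => (κ n).Z) C)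
    (fq : FnE P q fun n => (κ n).Z) (fu : Full P M y' q) (hj : Lin M j) :
    ∃ G : ∀ n, W n → Prop, FullAt (fun n => cE (P n) (G n)) M y q j := by
  obtain ⟨D, hD⟩ := fill d C th
  obtain ⟨L, hL, sl⟩ := (sl_cf hM (cf_xr M _ _ _ _) fun _ => xr.cE hM).and
    (sl_cf hM (cf_full (S := fun n => FP (W n)) (W := fun n _ => W n) (fun _ Q => Q)
      (fun n _ => M n) (fun n _ => y' n) fun n _ => q n) fun _ g K => full_cE hM (fu K) g)
  obtain ⟨Λ', G, S, Ψ, g, -, e, cel, fat, f⟩ := hD W Λ (fun b => cond b k d) (fun _ => 0) P M y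
    (fun n => two (κ n) (cellK y q j n)) q ⟨hM, su.bdd, by rintro (_ | _); exacts [kd', kd]⟩ su
    (by rintro (_ | _); exacts [fnE_of fun _ _ _ => congrArg Prod.snd, fq]) flr L hL
  exact ⟨G, core hM cel (su.cE G) fat f (sl G g).1 (cel.cm.com true) e (cel.cm.com false)
    (sl G g).2 hj⟩

theorem aux (fill : FILL) (th : THM d 0) (hM : Big M) {κ : ∀ n, Kd k (W n)}
    (kd : Kind P M y κ C 0) (su : Sure P M y) (xr : XR P M y y' (fun n => (κ n).Z) C)
    (fq : FnE P q fun n => (κ n).Z) (fu : Full P M y' q) (hj : Lin M j) {η : ℝ} (hη : 0 < η) :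
    ¬Poor P M y q j η := fun po => by
  obtain ⟨J, hJ⟩ : ∃ J, Fine M J := ⟨fun n => M n * M n, fun R =>
    (hM.eventually_ge_atTop R).mono fun _ => Nat.mul_le_mul_right _⟩
  have su' := sure_nz (J := J) (j := j) hM su
  obtain ⟨G, f⟩ := aux0 fill th hM (kind_nz hM hJ kd)
    (kind_cell hM su'.bdd (Nat.le_add_left _ _) (full_fr hM hJ)) su'
    (floor_mono (Nz.nz_flr (t := fun _ => 0) hM hJ hj ⟨0, by simp⟩ su.bdd)
      (fnE_of fun n _ _ e => congrArg (fun s => (κ n).Z s.1) e)) (xr.nz hM hJ j)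
    (fnE_pull fq (law_N P d J)) (full_blur hM fu) hj
  refine not_poor hM (full_near (y' := pl (Nπ W d J) y) hM f (gp_of_sub (sub_one M)
    (Eventually.of_forall fun n v _ => near_blur (ξ := Nξ W d J n) (gp_norm v.2) _))) hη
    (poor_cE (po.mono fun n a v hv => ?_) G)
  exact (a _ ((mem_prod v).1 hv).1).imp fun T t =>
    ⟨t.1, fun u hu => t.2 _ ((mem_prod u).1 hu).1⟩

theorem aux2 (fill : FILL) (th : THM d 0) (hM : Big M) {κ : ∀ n, Kd k (W n)}
    (kd : Kind P M y κ C 0) (bd : Bdd P M y) (xr : XR P M y y' (fun n => (κ n).Z) C)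
    (fq : FnE P q fun n => (κ n).Z) (fu : Full P M y' q) : Full P M y q := fun K =>
  by_contra fun c => by
  obtain ⟨η, hη, E, e, po⟩ := not_full hM c
  obtain ⟨G, g, su⟩ := Bdd.sure (gp_cE bd e)
  exact aux fill th hM (kind_cE hM (kind_cE hM kd e) g.pos) su ((xr.cE hM e).cE hM g.pos)
    ((fq.cE E).cE G) (fun K => full_cE hM (full_cE hM (fu K) e) g.pos) (lin_mul M K) hη
    (poor_cE po G)

theorem kind_ctx {m : ℕ} {κ : ∀ n, Kd k (W n)} {ι : ∀ n, W n → ℕ} (hM : Big M)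
    (h : Kind P M y κ C m) (e : Few P M 0 ι) : Kind P M y (fun n => (κ n).ctx (ι n)) C m :=
  ⟨h.bd, h.few, rRemI P M y _ ι C hM h.rem e, fun K => full_side hM (h.den K) e, fun i =>
    (h.wh i).mono (Eventually.of_forall fun _ _ _ _ ⟨τ, a⟩ => ⟨τ, fun ω hω g =>
      ⟨(a ω hω g).1, (a ω hω g).2.1, fun v hv g' u => (a ω hω g).2.2 v hv g' (congrArg Prod.snd u)⟩⟩)⟩

theorem rem_congr {Z : ∀ n, W n → β n} {K : ℝ} (h : REM P y M Z C K) (e : FnE P Z q)
    (e' : FnE P q Z) : REM P y M q C K := fun E =>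
  let ⟨G, Γ, a, b, c⟩ := h E
  ⟨G, Γ, a, b, by
    filter_upwards [c, e, e'] with n c e e' ω hω
    rw [Cx.cv_congr hω e' e]
    exact c ω hω⟩

variable {N D : ℕ} {x : ∀ n, W n → V N} {Z : ∀ n, W n → β n} {ι : ∀ n, W n → ℕ}
  {Θ : ∀ n, W n → Fin d → Pl N}

theorem l1 (P : ∀ n, FP (W n)) (Z : ∀ n, W n → β n) (n : ℕ) : Law (pr P Z n) Prod.fst (P n) id :=
  kg.fst _ _ _ _

theorem l2 (P : ∀ n, FP (W n)) (Z : ∀ n, W n → β n) (n : ℕ) : Law (pr P Z n) Prod.snd (P n) id :=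
  kg.snd _ _ _ _ (Law.rfl _)

theorem me {n : ℕ} {v : W n × W n} (hv : v ∈ (pr P Z n).S) : Z n v.2 = Z n v.1 :=
  ((kg.mem _ _ _ _ v (Law.rfl _)).1 hv).2.2

theorem l3 (P : ∀ n, FP (W n)) (Z : ∀ n, W n → β n) (n : ℕ) :
    Law (prod (pr P Z n) coin) (fun v => cond v.2 v.1.1 v.1.2) (P n) id := fun F => by
  rw [E_prod, E_swap _ coin fun (a : W n × W n) b => F (cond b a.1 a.2), E_coin]
  exact (congrArg (· / 2) (congrArg₂ (· + ·) (l1 P Z n F) (l2 P Z n F))).trans (add_self_div_two _)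

theorem fn_pr (h : FnE P q fun n ω => (ι n ω, Z n ω)) :
    FnE (pr P Z) (fun n v => q n v.2) fun n v => (ι n v.2, Z n v.1) :=
  (fnE_pull h (Eventually.of_forall (l2 P Z))).trans (Eventually.of_forall fun _ _ hu _ hv e =>
    Prod.ext (Prod.ext_iff.1 e).1 ((me hu).trans ((Prod.ext_iff.1 e).2.trans (me hv).symm)))

theorem few_pr (h : Few P M 0 ι) (Z : ∀ n, W n → β n) : Few (pr P Z) M 0 fun n v => ι n v.2 :=
  gp_pull h (Eventually.of_forall (l2 P Z))

theorem xr_pr (hM : Big M) (h : ∀ K : ℕ, REM P x M Z C K) (e : Few P M 0 ι)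
    (f : FnE P Θ fun n ω => (ι n ω, Z n ω)) (dg : ∀ n ω i, (Θ n ω i).totalDegree ≤ D) :
    XR (pr P Z) M (fun n v => ev (Θ n v.2) (x n v.1)) (fun n v => chs Θ x n v.2)
      (fun n v => (ι n v.2, Z n v.1)) (C * D) := by
  intro K E
  have lf : ∀ᶠ n in UF, Law (prod (pr P Z n) coin) Prod.fst (pr P Z n) id :=
    Eventually.of_forall fun _ => law_fst _ _
  have mz : ∀ n, ∀ v ∈ (prod (pr P Z n) coin).S, Z n (cond v.2 v.1.1 v.1.2) = Z n v.1.1 :=
    fun n ⟨v, c⟩ hv => by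
    cases c
    exacts [me ((mem_prod _).1 hv).1, rfl]
  obtain ⟨G, Γ, a1, a2, a3⟩ := rRemI (fun n => prod (pr P Z n) coin) M _
    (fun n v => Z n v.1.1) (fun n v => ι n v.1.2) C hM
    (fun K => rem_congr (rem_pull (h K) (Eventually.of_forall (l3 P Z)))
      (Eventually.of_forall fun n u hu v hv e => (mz n u hu).trans (e.trans (mz n v hv).symm))
      (Eventually.of_forall fun n u hu v hv e => (mz n u hu).symm.trans (e.trans (mz n v hv))))
    (gp_pull (few_pr e Z) lf) K (E * D)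
  refine ⟨G, Γ, a1, a2, (a3.and (fnE_pull (fn_pr f) lf)).mono fun n a => ?_⟩
  convert Rl.rg_chart a.1 a.2 fun v => dg n v.1.2 using 1
  funext ⟨v, c⟩
  cases c <;> rfl

theorem lat (fill : FILL) (th : THM d 0) (hM : Big M) {κ : ∀ n, Kd k (W n)}
    (h : Kind P M x κ C 0) (e : Few P M 0 ι) (f : FnE P q fun n ω => (ι n ω, (κ n).Z ω))
    (f' : FnE P Θ q) (dg : ∀ n ω i, (Θ n ω i).totalDegree ≤ D) (pw : Pw P M Θ)
    (bd : Bdd P M (chs Θ x)) (fu : Full P M (chs Θ x) q) :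
    Full (pr P fun n => (κ n).Z) M (fun n v => ev (Θ n v.2) (x n v.1)) fun n v => q n v.2 := by
  have l := Eventually.of_forall (f := UF) (l2 P fun n => (κ n).Z)
  have xr := xr_pr hM h.rem e (f'.trans f) dg
  have bd' := xr.bdd hM (gp_pull (q := fun n ω Γ => ‖chs Θ x n ω‖ ≤ Γ) bd l)
  have k1 := kind_ctx hM (kind_pull hM h (Eventually.of_forall (l1 P fun n => (κ n).Z)))
    (few_pr e _)
  have pw' : Pw (pr P fun n => (κ n).Z) M fun n v => Θ n v.2 := pw.imp fun _ a => whp_pull a l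
  have k2 := rc_zero hM k1 (fn_pr (f'.trans f)) (fun n v => dg n v.2) pw' bd'
  exact aux2 fill th hM k2 bd' xr (fn_pr f) fun K => full_pull (ρ := fun _ => Prod.snd) hM (fu K) l

end Lat

theorem rLAT (fill : FILL) : LAT := by
  intro N d Ω Λ Λ' k P M x s ι T Q C m E η Θ D lo hd h f b
  have hM := h.sys.big
  have pw : Pw P M Θ := cel1.pw hM h.cm f (rFatD rOwn P M x _ Q hM h.sys.bd h.cm h.dle).1
  exact Lat.lat fill (lo d hd) hM (h.sys.kd b).zero (h.few b) (h.cm.com b) f.fn f.deg pw f.bd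
    (lo d hd Ω Λ k (fun _ => 0) (C * D) P M (chs Θ x) (fun n c => (s n c).ctx (ι c n)) Q
      (Nat.zero_le _) ⟨hM, f.bd, fun c => rc_zero hM (Lat.kind_ctx hM (h.sys.kd c).zero (h.few c))
        (f.fn.trans (h.cm.com c)) f.deg pw f.bd⟩ f.min h.cm.com)

end Pool.Agent.MP_5168f5_an.AN.St
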