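import Pool.Agent.MP_5168f5_an.AN.SpecS2
import Pool.Agent.MP_5168f5_an.AN.Api

/-! Kakeya sets in all dimensions: steep windows, many independent coordinates. -/

namespace Pool.Agent.MP_5168f5_an.AN.St

open H19 H17S H17F Filter MvPolynomial
open G39 (nu RG dl REM Nm)
open Pk (cn mons)
open Nc (Pl ev jac NiceAt Bas)

variable {N d i : ℕ} {Ω Λ Λ' : ℕ → Type} {k : Bool → ℕ} {β : Bool → ℕ → Type}
  {P : ∀ n, FP (Ω n)} {M : ℕ → ℕ} {x : ∀ n, Ω n → V N} {s : ∀ n, Sy k (Ω n)}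
  {ι : Bool → ∀ n, Ω n → ℕ} {T : ∀ n, Ω n → Λ' n} {Q : ∀ n, Ω n → Λ n} {C : ℕ} {m : Bool → ℕ}
  {c η : ℝ} {E : ℕ} {G : ∀ n, Ω n → Prop} {Z : ∀ b n, Ω n → β b n}

theorem fn_cE {α γ : ℕ → Type} {F : ∀ n, Ω n → α n} {A : ∀ n, Ω n → γ n} (h : FnE P F A)
    (G : ∀ n, Ω n → Prop) : FnE (fun n => cE (P n) (G n)) F A :=
  h.mono fun _ e a ha b hb => e a (cE_sub ha) b (cE_sub hb)

theorem min_cE (h : MIN P M x Z) (hG : Pos P G) : MIN (fun n => cE (P n) (G n)) M x Z :=
  fun E c F a b => (h E c F a b).cE hG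

theorem Hyp.cE (hH : HerQ) (h : Hyp P M x s ι T Q C m c E η) (hG : Pos P G) :
    Hyp (fun n => cE (P n) (G n)) M x s ι T Q C m c E η where
  sys := ⟨h.sys.big, S20.gp_cE h.sys.bd hG, fun b => S20.kind_cE h.sys.big (h.sys.kd b) hG⟩
  min := min_cE h.min hG
  com b := fn_cE (h.com b) G
  few b := S20.gp_cE (h.few b) hG
  cm := hH.cm P M x _ Q G h.sys.big hG h.cm
  fn := fn_cE h.fn G
  dle := hH.dle P M M x _ Q G h.sys.big hG h.cm h.dle
  dge := hH.dge P M M x _ Q G E h.sys.big hG h.cm h.dge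
  poor := S20.poor_cE h.poor G

theorem bdd_sel (h : Bdd P M x) (e : Fin i → Fin N) : Bdd P M (sel x e) :=
  Gp.mono h (Eventually.of_forall fun n ω _ _ a b => (pi_norm_le_iff_of_nonneg (by linarith)).2
    fun j => (norm_le_pi_norm (x n ω) (e j)).trans b)

theorem th_cE {y : ∀ n, Ω n → V (i + 1)} (h : Th P M y Z) (hG : Pos P G) :
    Th (fun n => cE (P n) (G n)) M y Z :=
  let ⟨E, m, c, F, a, b⟩ := h
  ⟨E, m, c, F, a, S20.gp_cE b hG⟩

theorem rich_of_full (fr : FR) (hM : Big M) (hb : Bdd P M x) {A : ∀ n, Ω n → Λ n}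
    (h : Full P M x A) : Rich P M x A :=
  fr.rich P M (fun n => 1 * M n) x A 1 hM hb one_pos (Eventually.of_forall fun _ => by simp) (h 1)

/-- Many independent coordinates. -/
def Out (mm : ℕ) (P : ∀ n, FP (Ω n)) (M : ℕ → ℕ) (x : ∀ n, Ω n → V N) (Z : ∀ b n, Ω n → β b n) :
    Prop := ∃ (i : ℕ) (e : Fin i → Fin N), Function.Injective e ∧
  (mm + 1 ≤ i + i ∨ Function.Surjective e) ∧ MIN P M (sel x e) Z

theorem min_of_full (fr : FR) (h : Hyp P M x s ι T Q C m 0 E η) {e : Fin i → Fin N} (b : Bool)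
    (e1 : Full P M (sel x e) (lab s b)) : MIN P M (sel x e) (hat (lab s) ι) :=
  fr.min P M _ _ b (rich_of_full fr h.sys.big (bdd_sel h.sys.bd e)
    fun K => S20.full_side h.sys.big (e1 K) (h.few b))

section

variable {H : (∀ n, FP (Ω n)) → Prop} {mm : ℕ}
  (her : ∀ P G, H P → Pos P G → H fun n => cE (P n) (G n))
  (hyp : ∀ P, H P → Hyp P M x s ι T Q C m 0 E η)
  (out : ∀ P, H P → ¬Out mm P M x (hat (lab s) ι))

include her hyp out

theorem thin_all (mp : MinP) {e : Fin i → Fin N} (he : Function.Injective e) (hi : mm ≤ i + i)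
    (h0 : ∀ P, H P → MIN P M (sel x e) (hat (lab s) ι)) (L : List (Fin N)) :
    (∀ P, H P → ¬∀ c ∈ L, c ∉ Set.range e →
      Th P M (sel x (Fin.cons c e : Fin (i + 1) → Fin N)) (hat (lab s) ι)) → ∀ P, ¬H P := by
  induction L with
  | nil => exact fun k P h => k P h fun _ a => absurd a List.not_mem_nil
  | cons c L ih =>
    refine fun k => ih fun P h t => ?_
    by_cases a : c ∈ Set.range e
    · refine k P h fun c' u v => ?_
      rcases List.mem_cons.1 u with rfl | w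
      exacts [absurd a v, t c' w v]
    by_cases b : MIN P M (sel x (Fin.cons c e : Fin (i + 1) → Fin N)) (hat (lab s) ι)
    · exact out P h ⟨i + 1, _, Fin.cons_injective_iff.2 ⟨a, he⟩, Or.inl (by omega), b⟩
    obtain ⟨G, g1, g2⟩ := mp P M (sel x (Fin.cons c e : Fin (i + 1) → Fin N)) _ (hyp P h).sys.big
      (bdd_sel (hyp P h).sys.bd _) (h0 P h) b
    refine k _ (her P G h g1) fun c' u v => ?_
    rcases List.mem_cons.1 u with rfl | w
    exacts [g2, th_cE (t c' w v) g1]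

theorem s3b (fr : FR) (mp : MinP) (cl : CL) (f3 : Fin3) {e e' : Fin i → Fin N}
    (he : Function.Injective e) (hi : mm ≤ i + i)
    (h1 : ∀ P, H P → Full P M (sel x e) (lab s true))
    (h2 : ∀ P, H P → Full P M (sel x e') (lab s false)) : ∀ P, ¬H P := by
  classical
  refine thin_all her hyp out mp he hi (fun P h => min_of_full fr (hyp P h) true (h1 P h))
    (Finset.univ : Finset (Fin N)).toList fun P h t => ?_
  have y := hyp P h
  have hM := y.sys.big
  by_cases a : Function.Surjective e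
  · exact out P h ⟨i, e, he, Or.inr a, min_of_full fr y true (h1 P h)⟩
  obtain ⟨c, hc⟩ := not_forall.1 a
  have t' := fun c => t c (Finset.mem_toList.2 (Finset.mem_univ c))
  obtain ⟨a, u, a0, a1, a2⟩ := cl P M x (hat (lab s) ι) e e' hM y.sys.bd t'
    fun K => S20.full_side hM (h2 P h K) (y.few false)
  refine f3 P M x (lab s) ι (Fin.cons c e) C hM y.sys.bd (Fin.cons_injective_iff.2 ⟨hc, he⟩)
    (fun b => by simpa using (y.sys.kd b).rem 1) y.few (fun b => ?_) (t' c hc) y.min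
  cases b
  · exact fr.rich P M u _ _ a hM (bdd_sel y.sys.bd e) a0 a1
      (S20.full_ctx hM a2 (Eventually.of_forall fun _ => Fn.snd _ _))
  · exact rich_of_full fr hM (bdd_sel y.sys.bd e) (h1 P h)

theorem s3 (fr : FR) (mp : MinP) (cl : CL) (f3 : Fin3) (hm : mm ≤ m true + m false) :
    ∀ P, ¬H P := fun P h => by
  have hM := (hyp P h).sys.big
  obtain ⟨G, g, e, e1, e2⟩ := S20.lf hM ((hyp P h).sys.kd true)
  have h' := her P G h g
  obtain ⟨G', g', e', e3, e4⟩ := S20.lf hM ((hyp _ h').sys.kd false)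
  have h'' := her _ G' h' g'
  have e5 : Full _ M (sel x e) (lab s true) := fun K => S20.full_cE hM (e2 K) g'
  by_cases a : mm + 1 ≤ m true + m true
  · exact out _ h'' ⟨_, e, e1, Or.inl a, min_of_full fr (hyp _ h'') true e5⟩
  by_cases b : mm + 1 ≤ m false + m false
  · exact out _ h'' ⟨_, e', e3, Or.inl b, min_of_full fr (hyp _ h'') false e4⟩
  have q : m true = m false := by omega
  refine s3b (H := fun P => H P ∧ Full P M (sel x e) (lab s true) ∧
    Full P M (sel x fun j => e' (Fin.cast q j)) (lab s false))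
    (fun P G h g => ⟨her P G h.1 g, fun K => S20.full_cE hM (h.2.1 K) g,
      fun K => S20.full_cE hM (h.2.2 K) g⟩) (fun P h => hyp P h.1) (fun P h => out P h.1)
    fr mp cl f3 e1 (by omega) (fun _ h => h.2.1) (fun _ h => h.2.2) _ ⟨h'', e5, fun K => ?_⟩
  exact S20.full_proj hM (e4 K) (bdd_sel (hyp _ h'').sys.bd e') (Fin.cast_injective q)

end

end Pool.Agent.MP_5168f5_an.AN.St
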