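import Pool.Agent.MP_5168f5_an.AN.SpecS

/-! Kakeya sets in all dimensions: transfer of a bound inside a fibre. -/

namespace Pool.Agent.MP_5168f5_an.AN.St

open H19 H17S H17F Filter MvPolynomial
open G39 (nu RG dl REM Nm)
open Pk (cn mons)
open Nc (Pl ev jac NiceAt Bas)

namespace StTRA

theorem low {Ω β : Type} (P : FP Ω) (Z : Ω → β) (G : Ω → Prop) (ι : Ω → ℕ) {B θ : ℝ}
    (hB : 0 ≤ B) (h0 : 0 ≤ θ) (h : ∀ ω ∈ P.S, G ω → (ι ω : ℝ) ≤ B) :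
    pb P (fun ω => G ω ∧ pb (cv P Z (Z ω)) (fun u => G u ∧ ι u = ι ω) ≤ θ) ≤ (B + 1) * θ := by
  have h1 := S20.pb_mem P ι (fun ω => G ω ∧ pb (cv P Z (Z ω)) (fun u => G u ∧ ι u = ι ω) ≤ θ)
    (Finset.range (⌊B⌋₊ + 1)) (D := θ) fun c _ =>
      le_trans (pb_mono fun v _ k => ⟨⟨k.1.1, k.2⟩, k.2 ▸ k.1.2⟩)
        (S20.rare P Z (fun u => G u ∧ ι u = c) h0)
  refine (pb_mono fun v hv k => ⟨k, Finset.mem_range.2 (Nat.lt_succ_of_le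
    (Nat.le_floor (h v hv k.1)))⟩).trans (h1.trans (mul_le_mul_of_nonneg_right ?_ h0))
  rw [Finset.card_range]
  push_cast
  linarith [Nat.floor_le hB]

end StTRA

theorem rTR : TR := by
  rintro N Ω Λ P M x Z ι G₀ C E hM rem ⟨G2, Γ2, w2, s2, e2⟩ w0
  obtain ⟨G1, Γ1, w1, s1, e1⟩ := rem E
  have s3 : Sub M fun n => (Γ2 n + 1) * (M n + 1) := (s2.add (hM.sub le_rfl) hM).mul (Sub.nat hM)
  have w3 : Whp P fun n ω => ¬(((G1 n ω ∧ G₀ n ω) ∧ G2 n ω) ∧ pb (cv (P n) (Z n) (Z n ω))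
      (fun u => ((G1 n u ∧ G₀ n u) ∧ G2 n u) ∧ ι n u = ι n ω) ≤ ((Γ2 n + 1) * (M n + 1))⁻¹) := by
    intro ε hε
    filter_upwards [e2, hM.ev ε⁻¹] with n a b
    have p := s2.pos n
    refine (pb_mono fun _ _ k => not_not.1 k).trans ((StTRA.low (P n) (Z n) _ (ι n) p.le
      (inv_nonneg.2 (s3.pos n).le) fun ω hω k => by simpa using a ω hω k.2).trans ?_)
    rw [mul_inv, mul_inv_cancel_left₀ (by positivity)]
    exact inv_le_of_inv_le₀ hε (by linarith)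
  refine ⟨_, fun n => Γ1 n * ((Γ2 n + 1) * (M n + 1)) ^ (C * E), ((w1.and w0).and w2).and w3,
    s1.mul (s3.pow _), ?_⟩
  filter_upwards [e1, G39.sub_dl s3 one_pos] with n a b ω hω g v hv g' e F θ hF h
  have := a v hv g'.1.1.1 _ ⟨F, hF, fun _ => rfl⟩ θ ((Γ2 n + 1) * (M n + 1))⁻¹
    (le_inv_of_le_inv₀ (s3.pos n) b) (by
      rw [e]
      refine (not_le.1 fun k => g.2 ⟨g.1, k⟩).le.trans (pb_mono fun u hu k => ⟨k.1.1.1, ?_⟩)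
      obtain ⟨u1, u2⟩ := (S20.mem_cv hω u).1 hu
      exact h u u1 k.1.1.2 u2 k.2)
  rwa [inv_inv] at this

end Pool.Agent.MP_5168f5_an.AN.St
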