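import Pool.Agent.MP_5168f5_an.AN.TAApi

/-! Kakeya sets in all dimensions: the terminal case, the small ball bound for the first family. -/

namespace Pool.Agent.MP_5168f5_an.AN.TG.TA

open H19 H17S H17F G39 GA TL Filter H61Z

namespace BAc1A

section Alg

variable {κ : Type} [Fintype κ] {om : κ → ℝ × ℝ} {pos bs : κ → Prop} {c : κ → κ → κ → ℝ}
  {l β r : κ → ℝ} {k : κ} {τ R R' δ : ℝ}

theorem supp (hl : ∀ a, l a = ∑ b, β b * cT om pos bs c a b k) (a : κ) (h : ¬P1 om a) :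
    l a = 0 := by
  rw [hl]
  exact Finset.sum_eq_zero fun b _ => by rw [cT, if_neg fun u => h u.1, mul_zero]

theorem cen (hl : ∀ a, l a = ∑ b, β b * cT om pos bs c a b k) (h : 0 < ‖l‖) : CC om pos k := by
  by_contra e
  refine h.ne' (norm_eq_zero.2 (funext fun a => ?_))
  rw [hl]
  exact Finset.sum_eq_zero fun b _ => by rw [cT, if_neg fun u => e u.2.2.2.1, mul_zero]

theorem lin (hk : ∀ a b, P1 om a → P2 om b → ¬bs a → ¬bs b → |c a b k| ≤ τ) (hτ : 0 ≤ τ)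
    (hc : CC om pos k) (hl : ∀ a, l a = ∑ b, β b * cT om pos bs c a b k) (hβ : ‖β‖ ≤ R)
    {z : κ → ℝ} (hz : ‖z‖ ≤ R') :
    |∑ a, l a * z a - cc om c z β k| ≤ Fintype.card κ * (Fintype.card κ * (τ * R' * R)) := by
  have h0 : 0 ≤ R' := (norm_nonneg _).trans hz
  have t : ∀ a b, |β b * cT om pos bs c a b k * z a - cH om c a b k * p1 om z a * p2 om β b| ≤
      τ * R' * R := fun a b => by
    have z0 : (0 : ℝ) ≤ τ * R' * R := mul_nonneg (mul_nonneg hτ h0) ((norm_nonneg _).trans hβ)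
    by_cases h1 : P1 om a
    swap
    · simpa [cT, p1, h1] using z0
    by_cases h2 : P2 om b
    swap
    · simpa [cT, p2, h2] using z0
    by_cases h3 : Hm om a b k
    swap
    · simpa [cT, cH, h3] using z0
    by_cases h4 : bs a ∨ bs b
    · rw [cT, cH, p1, p2, if_pos ⟨h1, h2, h3, hc, h4⟩, if_pos h3, if_pos h1, if_pos h2,
        show β b * c a b k * z a - c a b k * z a * β b = 0 by ring, abs_zero]
      exact z0
    rw [cT, cH, p1, p2, if_neg fun u => h4 u.2.2.2.2, if_pos h3, if_pos h1, if_pos h2, mul_zero,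
      zero_mul, zero_sub, abs_neg, abs_mul, abs_mul]
    exact mul_le_mul (mul_le_mul (hk a b h1 h2 (fun u => h4 (.inl u)) fun u => h4 (.inr u))
      ((norm_le_pi_norm z a).trans hz) (abs_nonneg _) hτ) ((norm_le_pi_norm β b).trans hβ)
      (abs_nonneg _) (mul_nonneg hτ h0)
  simp only [hl, cc, br, Finset.sum_mul, ← Finset.sum_sub_distrib]
  refine (Finset.abs_sum_le_sum_abs _ _).trans ?_
  rw [← nsmul_eq_mul, ← Finset.card_univ]
  refine Finset.sum_le_card_nsmul _ _ _ fun a _ => (Finset.abs_sum_le_sum_abs _ _).trans ?_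
  rw [← nsmul_eq_mul]
  exact Finset.sum_le_card_nsmul _ _ _ fun b _ => t a b

theorem tst (hk : ∀ a b, |∑ e, l e * c a b e| ≤ τ * ‖l‖) (hs : ∀ a, ¬P1 om a → l a = 0)
    (hr : ∀ a, 0 < r a ∧ r a ≤ 1) (h1 : ∀ a, P1 om a → r a = 1) (hn : 0 < ‖l‖) :
    Tst c r (Pu om true) τ (‖l‖⁻¹ • l) := by
  have e : ∀ a, |(‖l‖⁻¹ • l) a| = ‖l‖⁻¹ * |l a| := fun a => by
    rw [Pi.smul_apply, smul_eq_mul, abs_mul, abs_of_pos (inv_pos.2 hn)]
  refine ⟨fun a h => by rw [Pi.smul_apply, hs a h, smul_zero], fun a => ?_, ?_, fun a b => ?_⟩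
  · rw [e, inv_mul_le_iff₀ hn, mul_one]; exact norm_le_pi_norm l a
  · by_contra! h
    refine (lt_irrefl ‖l‖) ((pi_norm_lt_iff hn).2 fun a => (norm_le_pi_norm l a).lt_of_ne fun u => ?_)
    exact h a (by rw [e, ← Real.norm_eq_abs, u, inv_mul_cancel₀ hn.ne'])
  · have : ∑ e, sC r c a b e * (‖l‖⁻¹ • l) e = r a * r b * (‖l‖⁻¹ * ∑ e, l e * c a b e) := by
      rw [Finset.mul_sum, Finset.mul_sum]
      refine Finset.sum_congr rfl fun e _ => ?_
      by_cases h : P1 om e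
      · rw [sC, h1 e h, Pi.smul_apply, smul_eq_mul]; ring
      · simp [hs e h]
    rw [this, abs_mul, abs_mul _ (∑ _, _), abs_of_pos (mul_pos (hr a).1 (hr b).1),
      abs_of_pos (inv_pos.2 hn)]
    refine (mul_le_of_le_one_left (by positivity)
      (mul_le_one₀ (hr a).2 (hr b).1.le (hr b).2)).trans ?_
    rw [inv_mul_le_iff₀ hn, mul_comm]; exact hk a b

theorem ball {x y g : κ → ℝ} {a E : ℝ} (hs : ∀ a, ¬P1 om a → l a = 0)
    (h1 : ∀ a, P1 om a → r a = 1) (hn : 0 < ‖l‖) (h : |∑ i, l i * p1 om x i - a| ≤ E)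
    (h' : |∑ i, l i * (x - y - g) i| ≤ δ) (e : E + δ ≤ τ * ‖l‖) :
    |∑ i, (‖l‖⁻¹ • l) i * (g i / r i) - ‖l‖⁻¹ * (a - ∑ i, l i * y i)| ≤ τ := by
  have e1 : ∑ i, (‖l‖⁻¹ • l) i * (g i / r i) - ‖l‖⁻¹ * (a - ∑ i, l i * y i) =
      ‖l‖⁻¹ * ((∑ i, l i * p1 om x i - a) - ∑ i, l i * (x - y - g) i) := by
    have : ∑ i, (‖l‖⁻¹ • l) i * (g i / r i) = ‖l‖⁻¹ *
        (∑ i, l i * p1 om x i - ∑ i, l i * (x - y - g) i - ∑ i, l i * y i) := by
      rw [← Finset.sum_sub_distrib, ← Finset.sum_sub_distrib, Finset.mul_sum]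
      refine Finset.sum_congr rfl fun i _ => ?_
      by_cases u : P1 om i
      · simp only [h1 i u, p1, if_pos u, Pi.smul_apply, Pi.sub_apply, smul_eq_mul]; ring
      · simp [hs i u]
    rw [this]; ring
  rw [e1, abs_mul, abs_of_pos (inv_pos.2 hn), inv_mul_le_iff₀ hn, mul_comm]
  exact ((abs_sub _ _).trans (add_le_add h h')).trans e

theorem geo {ι : Type} [Fintype ι] [DecidableEq ι] {Φ : Filt (Mt ι)} {B : κ → Mt ι}
    (h : GA.Mul Φ B c) {p0 p : Mt ι} {x g : κ → ℝ} (u : IsUnit p0)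
    (e : p0 * ex B x = p * ex B g) : GA.lg B p0 p = bch Φ.N c x (-g) ∧
      GA.lg B p (p * ex B g) = g ∧ bch Φ.N c (bch Φ.N c x (-g)) g = x := by
  have e' : p = p0 * ex B (bch Φ.N c x (-g)) := by
    rw [← h.mul, ← mul_assoc, e, mul_assoc, (h.neg g).2, mul_one]
  refine ⟨e' ▸ h.lg _ _ u, h.lg _ _ ?_, by rw [h.assoc, (h.inv g).1, (h.one x).1]⟩
  exact e' ▸ u.mul ⟨⟨_, _, (h.neg _).2, (h.neg _).1⟩, rfl⟩

end Alg

theorem mi_b {W Ω α β γ δ : Type} {Q : FP W} {P : FP Ω} {ρ : W → Ω} (h : Law Q ρ P id)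
    (Y : W → α) (O : Ω → β) (j : Ω → γ) (g : β → δ) :
    mi Q (fun v => (Y v, O (ρ v))) (fun v => j (ρ v)) (fun v => g (O (ρ v))) ≤
      ch P O (fun ω => g (O ω)) + mi Q Y ρ fun v => O (ρ v) := by
  refine (mi_mono (G' := ρ) ((Fn.comp j ρ).left _)).trans ?_
  rw [mi_symm]
  refine (mi_mono (G' := fun v => (O (ρ v), Y v))
    (((Fn.snd _ _).pair (Fn.fst _ _)).left _)).trans ?_
  rw [mi_chain, mi_symm ρ fun v => O (ρ v), mi_symm Y]
  exact add_le_add ((mi_le _ _ _).trans_eq (h.ch_id O fun ω => g (O ω)))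
    (mi_cond (Fn.fst _ _) (((Fn.rfl _).pair (Fn.comp g fun v => O (ρ v))).right _))

/-- The type of the observed data. -/
abbrev A1 {ι κ : Type} (x : Sy ι κ) : Type :=
  Mt ι × (Mt ι × (κ → ℤ) × Mt ι × x.T) × (κ → ℤ)

end BAc1A

open BAc1A in
theorem rowBAc1 : OfBAc1 := fun kit _ _ crd bdet ι κ _ _ _ Φ om pos x hT hG bs K hA hK C L hS hL
    W Y' Q ρ Y l a η hlaw hη _ hf hmi => by
  classical
  have hM : Big (un x) := hG.alg.big
  obtain ⟨L0, hL0, hc⟩ := crd ι κ Φ om pos x hT hG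
  obtain ⟨K0, hK0, hbox⟩ := sBox Φ.N (Fintype.card κ)
  obtain ⟨_, -, hcell⟩ := sCell Φ.N (Fintype.card κ)
  let D : ℕ → κ → ℝ := fun n => sc (x n).M (dep om (lv true K))
  have eD : (fun n => dep om ((0 : ℝ), K * (x n).M)) = D := by
    funext n i; simp only [D, sc, dep, lv, cond_true]; ring
  have sb : SB x D (Pu om true) C := eD ▸ kit.sb ι κ Φ om pos x C hS true
    (fun n => (0, K * (x n).M)) ⟨K, .of_forall fun n =>
      ⟨le_rfl, mul_nonneg hK.1 (Nat.cast_nonneg _), mul_nonneg hK.1 (Nat.cast_nonneg _), le_rfl⟩⟩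
  have hr : ∀ n i, 0 < rA (D n) i ∧ rA (D n) i ≤ 1 := fun n i => ⟨Real.exp_pos _,
    Real.exp_le_one_iff.2 (neg_nonpos.2
      (mul_nonneg (((wk hG).gt_lv true hK.1).nn i) (Nat.cast_nonneg _)))⟩
  have h1 : ∀ n i, P1 om i → rA (D n) i = 1 := fun n i u => by
    simp [D, rA, sc, dep, lv, u.2]
  have near : ∀ᶠ n in UF, ∀ y, Nr (x n).B (rA (D n)) 1 (cell (x n).B (rA (D n)) y) y :=
    hG.alg.fr.mono fun n f => (hcell ι κ Φ _ _ (rA (D n)) (rA (D n)) 1 rfl le_rfl f le_rfl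
      fun i => ⟨(hr n i).1, (one_mul _).ge⟩).1
  have hR : Sub (un x) fun n => 4 * L n + (K0 * L0 n) ^ K0 + L0 n :=
    ((hL.const_mul hM (by norm_num)).add (sub_box hM hL0 hK0) hM).add hL0 hM
  have hker : ∀ᶠ n in UF, ∀ i b e, P1 om i → P2 om b → ¬bs i → ¬bs b → CC om pos e →
      |(x n).c i b e| ≤ dl (un x) (2 * η + 1) n := by
    simp only [eventually_all]
    exact fun i b e u v u' v' w => hA.ker i b e u v u' v' w.2 w.1 _
  have key : ∀ᶠ n in UF, ∀ v ∈ (Q n).S, dl (un x) η n < ‖l n v‖ →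
      Tst (x n).c (rA (D n)) (Pu om true) (dl (un x) (η / 2) n) (‖l n v‖⁻¹ • l n v) ∧
      (|∑ i, l n v i * p1 om (xc (x n) (ρ n v)) i - a n v| ≤ dl (un x) (2 * η) n →
        |∑ i, (‖l n v‖⁻¹ • l n v) i * (x n).co (D n) ((x n).C (D n) (ρ n v)) (ρ n v) i -
          ‖l n v‖⁻¹ * (a n v - ∑ i, l n v i *
            GA.lg (x n).B (Cl (x n) 0 (ρ n v)) ((x n).C (D n) (ρ n v)) i)| ≤
          dl (un x) (η / 2) n) := by
    filter_upwards [hf, hc 0, hG.alg.fr, near, hker, big_dl hM 3 (half_pos hη),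
      tLaw ι κ (un x) Φ om pos _ _ _ hG.alg hT hR (2 * η),
      sub_dl ((hR.mul hR).const_mul hM (C := 3 * (Fintype.card κ + 1) ^ 2)
        (by nlinarith [Nat.cast_nonneg (α := ℝ) (Fintype.card κ)])) one_pos]
      with n f c fr nr ker h3 law hs v hv hn
    obtain ⟨β, k, hβ, hl⟩ := f.2 v hv
    obtain ⟨hx, -, ej, u0, -⟩ := c.2 _ ((hlaw n).mem hv)
    obtain ⟨g, hg, eg⟩ := nr ((x n).j (ρ n v))
    have p := (dl_pos _ _ _).trans hn
    have ck := cen hl p
    have l0 := hL0.1 n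
    have l1 := hL.1 n
    have l2 := (sub_box hM hL0 hK0).1 n
    generalize hRn : 4 * L n + (K0 * L0 n) ^ K0 + L0 n = R at law hs
    have hβ' : ‖β‖ ≤ R := by linarith
    have R0 : 0 < R := by linarith
    have hlin : ∀ z : κ → ℝ, ‖z‖ ≤ 3 * R → |cc om (x n).c z β k| ≤ dl (un x) (2 * η) n →
        |∑ i, l n v i * z i| ≤ 2 * dl (un x) (2 * η) n := fun z hz h => by
      have h' := lin (fun i b u v u' v' => ker i b k u v u' v' ck) (dl_pos _ _ _).le ck hl hβ' hz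
      have q := dl_pos (un x) 1 n
      have q' := dl_pos (un x) (2 * η) n
      rw [le_inv_comm₀ (by positivity) q, ← one_div, le_div_iff₀ (by positivity)] at hs
      have N0 := Nat.cast_nonneg (α := ℝ) (Fintype.card κ)
      have : (Fintype.card κ : ℝ) * (Fintype.card κ * (dl (un x) 1 n * (3 * R) * R)) ≤ 1 := by
        have : 0 ≤ dl (un x) 1 n * (3 * R * R) := by positivity
        nlinarith
      rw [dl_add] at h'
      have := abs_sub_abs_le_abs_sub (∑ i, l n v i * z i) (cc om (x n).c z β k)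
      nlinarith
    have e3 : 3 * dl (un x) (2 * η) n ≤ dl (un x) (η / 2) n * ‖l n v‖ := by
      have q := dl_pos (un x) (η / 2) n
      rw [le_inv_comm₀ (by norm_num) q, ← one_div, le_div_iff₀ (by norm_num)] at h3
      rw [show 2 * η = η / 2 + (η / 2 + η) by ring, dl_add, dl_add]
      have := mul_pos q (dl_pos (un x) η n)
      nlinarith
    have g1 : ‖g‖ ≤ 1 := (pi_norm_le_iff_of_nonneg zero_le_one).2 fun i =>
      (hg i).trans (by rw [one_mul]; exact (hr n i).2)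
    have mu := sMul ι κ Φ _ _ fr
    refine ⟨tst (fun i b => ?_) (supp hl) (hr n) (h1 n) p, fun h => ?_⟩
    · have s : ∀ i : κ, ‖(Pi.single i 1 : κ → ℝ)‖ ≤ R := fun i => by
        rw [Pi.norm_single, norm_one]; linarith
      have := (law _ _ β (s i) (s b) hβ' k ck.2).2.2.2.1
      rw [br_single] at this
      have := hlin _ ((pi_norm_le_iff_of_nonneg (by linarith)).2 fun e =>
        (c.1 i b e).trans (by linarith)) this
      linarith [dl_pos (un x) (2 * η) n]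
    · obtain ⟨e1, e2, e3'⟩ := geo mu u0 (ej.symm.trans eg)
      have id : Idl (x n).c (fun _ => 1) (fun _ => 1) (L0 n) := fun i b e => by
        simpa using c.1 i b e
      have bx : ∀ z : κ → ℝ, ‖z‖ ≤ 1 → Bx (fun _ => 1) (L0 n) z := fun z hz i =>
        ((norm_le_pi_norm z i).trans hz).trans (by linarith)
      have hy : ‖bch Φ.N (x n).c (xc (x n) (ρ n v)) (-g)‖ ≤ R :=
        (pi_norm_le_iff_of_nonneg (by linarith)).2 fun i =>
          ((hbox κ _ _ (fun _ => 1) (L0 n) 0 _ _ _ _ le_rfl l0 le_rfl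
            (fun _ => ⟨zero_le_one, zero_le_one⟩) mu.anti id id (bx _ hx)
            (bx (-g) (by rwa [norm_neg])) (bx _ hx) (bx _ hx)).1 i).trans (by linarith)
      have := (law _ g β hy (by linarith) hβ' k ck.2).2.1
      rw [e3'] at this
      have := hlin _ ((norm_sub_le _ _).trans
        ((add_le_add ((norm_sub_le _ _).trans (add_le_add hx hy)) g1).trans (by linarith))) this
      have e4 : GA.lg (x n).B ((x n).C (D n) (ρ n v)) ((x n).j (ρ n v)) = g :=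
        (congrArg (GA.lg (x n).B _) eg).trans e2
      simp only [Sy.co, e4]
      rw [show GA.lg (x n).B (Cl (x n) 0 (ρ n v)) ((x n).C (D n) (ρ n v)) = _ from e1]
      exact ball (supp hl) (h1 n) p h this (by linarith)
  rcases ev_em fun n => ∃ w, Tst (x n).c (rA (D n)) (Pu om true) (dl (un x) (η / 2) n) w
    with ex | no
  swap
  · exact Whp.of_ev ((key.and no).mono fun n h v hv _ =>
      not_lt.1 fun u => h.2 ⟨_, (h.1 v hv u).1⟩)
  let f : ∀ n, Y' n → (κ → ℝ) × ℝ := fun n y =>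
    Classical.epsilon fun z => ∃ v ∈ (Q n).S, Y n v = y ∧ (l n v, a n v) = z
  have ef : ∀ᶠ n in UF, ∀ v ∈ (Q n).S, f n (Y n v) = (l n v, a n v) := hf.mono fun n h v hv => by
    obtain ⟨w, hw, e, e'⟩ := Classical.epsilon_spec
      (p := fun z => ∃ w ∈ (Q n).S, Y n w = Y n v ∧ (l n w, a n w) = z) ⟨_, v, hv, rfl, rfl⟩
    exact e'.symm.trans (h.1 w hw v hv e)
  let O : ∀ n, (x n).Ω → A1 (x n) := fun n => (tm om pos (x n) bs K).O1
  have := sb W (fun n => Y' n × A1 (x n)) Q ρ (fun n v => (Y n v, O n (ρ n v))) (fun n b => b.2.1)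
    (fun n b => if Tst (x n).c (rA (D n)) (Pu om true) (dl (un x) (η / 2) n)
        (‖(f n b.1).1‖⁻¹ • (f n b.1).1) then ‖(f n b.1).1‖⁻¹ • (f n b.1).1
      else Classical.epsilon (Tst (x n).c (rA (D n)) (Pu om true) (dl (un x) (η / 2) n)))
    (fun n b => ‖(f n b.1).1‖⁻¹ * ((f n b.1).2 - ∑ i, (f n b.1).1 i *
      GA.lg (x n).B b.2.2.1.2.2.1 b.2.1 i)) (η / 2) 0 (half_pos hη) le_rfl
    ⟨.of_forall hlaw, fun _ => 1, hM.sub le_rfl, Whp.of_ev (near.mono fun n h v _ => h _)⟩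
    (ex.mono fun n h v _ => by
      split_ifs with u
      exacts [u, Classical.epsilon_spec h])
    ((((bdet ι κ Φ om pos x hT hG bs K hA hK).1.add hmi).mono (.of_forall fun n =>
      mi_b (hlaw n) (Y n) (O n) (x n).j fun o => (o.1, o.2.1.2.2.2))).trans
      (Le.of_ev (.of_forall fun n => (zero_mul _).ge)))
  intro ε hε
  filter_upwards [this ε hε, key, ef] with n h k e
  rw [mul_zero, zero_div, zero_add] at h
  refine (pb_mono fun v hv u => ?_).trans h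
  obtain ⟨u1, u2⟩ := Classical.not_imp.1 u
  obtain ⟨k1, k2⟩ := k v hv (not_le.1 u2)
  simp only [e v hv, if_pos k1]
  exact k2 u1

end Pool.Agent.MP_5168f5_an.AN.TG.TA
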