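import Pool.Agent.MP_5168f5_an.AN.TABAc1

/-! Kakeya sets in all dimensions: the terminal case, small balls for the second family. -/

namespace Pool.Agent.MP_5168f5_an.AN.TG.TA

open H19 H17S H17F G39 GA TL Filter H61Z

namespace BAc2A

variable {ι κ : Type} [Fintype ι] [DecidableEq ι] [Fintype κ] {Φ : Filt (Mt ι)}

/-- A form supported on `S` that is additive and kills the brackets up to `δ`. -/
structure Gl (N : ℕ) (c : κ → κ → κ → ℝ) (S : κ → Prop) (δ : ℝ) (l : κ → ℝ) : Prop where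
  sup : ∀ a, ¬S a → l a = 0
  add : ∀ x g : κ → ℝ, ‖x‖ ≤ 1 → ‖g‖ ≤ 1 → |∑ a, l a * (bch N c x g - x - g) a| ≤ δ
  kill : ∀ a b, |∑ e, l e * c a b e| ≤ δ

theorem info {W Ω α β γ δ : Type} (Q : FP W) (ρ : W → Ω) (Y : W → α) (O : Ω → β) (J : Ω → γ)
    (Z : Ω → δ) : mi Q (fun v => (O (ρ v), Y v)) (fun v => J (ρ v)) (fun v => Z (ρ v)) ≤
      ch Q (fun v => O (ρ v)) (fun v => Z (ρ v)) + mi Q Y ρ fun v => O (ρ v) := by
  rw [mi_symm, mi_chain, mi_symm, mi_symm _ Y]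
  exact add_le_add (mi_le _ _ _) ((mi_mono ((Fn.comp J ρ).left _)).trans
    (mi_cond (Fn.fst _ _) ((Fn.snd _ _).pair ((Fn.comp Z ρ).left _))))

section One

variable {B : κ → Mt ι} {c : κ → κ → κ → ℝ} {D l : κ → ℝ} {S : κ → Prop} {τ τ' : ℝ} {N : ℕ}

omit [Fintype κ] in
theorem rA_le (h : ∀ a, 0 ≤ D a) (a : κ) : 0 < rA D a ∧ rA D a ≤ 1 :=
  ⟨Real.exp_pos _, Real.exp_le_one_iff.2 (neg_nonpos.2 (h a))⟩

theorem pt (fr : IsFr Φ B c) (h : ∀ a, 0 ≤ D a) {j : Mt ι} (hj : IsUnit j) :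
    Nr B (rA D) 1 (cell B (rA D) j) j ∧ IsUnit (cell B (rA D) j) ∧
      ‖GA.lg B (cell B (rA D) j) j‖ ≤ 1 ∧
      j = cell B (rA D) j * ex B (GA.lg B (cell B (rA D) j) j) := by
  obtain ⟨K, -, hK⟩ := sCell Φ.N (Fintype.card κ)
  have n := (hK ι κ Φ B c (rA D) (rA D) 1 rfl le_rfl fr le_rfl
    fun e => ⟨Real.exp_pos _, (one_mul _).ge⟩).1 j
  generalize cell B (rA D) j = p at n ⊢
  obtain ⟨t, ht, rfl⟩ := id n
  have u : IsUnit p := (Matrix.isUnit_iff_isUnit_det _).2 (isUnit_of_mul_isUnit_left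
    (Matrix.det_mul p _ ▸ (Matrix.isUnit_iff_isUnit_det _).1 hj))
  rw [(sMul ι κ Φ B c fr).lg p t u]
  exact ⟨n, u, (pi_norm_le_iff_of_nonneg zero_le_one).2 fun a =>
    (ht a).trans ((one_mul _).trans_le (rA_le h a).2), rfl⟩

theorem tst (g : Gl N c S (τ * τ) l) (h0 : 0 < τ) (hl : τ < ‖l‖) (h1 : τ ≤ τ')
    (hD : ∀ a, 0 ≤ D a ∧ (S a → D a = 0)) : Tst c (rA D) S τ' fun e => l e / ‖l‖ := by
  have p := h0.trans hl
  have e : ∀ a, |l a / ‖l‖| = |l a| / ‖l‖ := fun a => by rw [abs_div, abs_of_pos p]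
  refine ⟨fun a s => by rw [g.sup a s, zero_div],
    fun a => (e a).trans_le ((div_le_one p).2 (norm_le_pi_norm l a)), ?_, fun a b => ?_⟩
  · by_contra! k
    refine lt_irrefl _ ((pi_norm_lt_iff p).2 fun a => (norm_le_pi_norm l a).lt_of_ne fun t => ?_)
    exact k a ((e a).trans ((div_eq_one_iff_eq p.ne').2 t))
  · have s : ∑ e, sC (rA D) c a b e * (l e / ‖l‖) =
        rA D a * rA D b * (∑ e, l e * c a b e) / ‖l‖ := by
      rw [Finset.mul_sum, Finset.sum_div]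
      refine Finset.sum_congr rfl fun e _ => ?_
      by_cases t : S e
      · simp only [sC, rA, (hD e).2 t, _root_.neg_zero, Real.exp_zero]; ring
      · simp [g.sup e t]
    have ra := rA_le (fun a => (hD a).1) a
    have rb := rA_le (fun a => (hD a).1) b
    rw [s, abs_div, abs_of_pos p, div_le_iff₀ p, abs_mul, abs_of_pos (mul_pos ra.1 rb.1)]
    refine (mul_le_of_le_one_left (abs_nonneg _) (mul_le_one₀ ra.2 rb.1.le rb.2)).trans ?_
    exact (g.kill a b).trans (mul_le_mul h1 hl.le h0.le (h0.le.trans h1))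

theorem evt (m : Mul Φ B c) (g : Gl Φ.N c S (τ * τ) l) (h0 : 0 < τ) (hl : τ < ‖l‖)
    (hD : ∀ a, S a → D a = 0) {p0 p : Mt ι} {x y u : κ → ℝ} {a : ℝ} (h : IsUnit p0)
    (e : p0 * ex B x = p * ex B y) (hx : ‖x‖ ≤ 1) (hy : ‖y‖ ≤ 1) (hu : ∀ i, S i → u i = x i)
    (k : |∑ i, l i * u i - a| ≤ τ * τ) :
    |∑ i, l i / ‖l‖ * (y i / rA D i) - (a - ∑ i, l i * GA.lg B p0 p i) / ‖l‖| ≤ 2 * τ := by
  have q := h0.trans hl
  have e1 : p = p0 * ex B (bch Φ.N c x (-y)) := by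
    rw [← m.mul, ← mul_assoc, e, mul_assoc, (m.neg y).2, mul_one]
  have s : ∑ i, l i / ‖l‖ * (y i / rA D i) - (a - ∑ i, l i * GA.lg B p0 p i) / ‖l‖ =
      (∑ i, l i * (bch Φ.N c x (-y) - x - -y) i + (∑ i, l i * u i - a)) / ‖l‖ := by
    rw [e1, m.lg _ _ h, sub_div, ← add_sub_assoc, sub_div, ← Finset.sum_add_distrib,
      Finset.sum_div, Finset.sum_div, sub_sub_eq_add_sub, ← Finset.sum_add_distrib]
    congr 1
    refine Finset.sum_congr rfl fun i _ => ?_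
    by_cases t : S i
    · simp only [rA, hD i t, hu i t, _root_.neg_zero, Real.exp_zero, Pi.sub_apply, Pi.neg_apply]
      ring
    · simp [g.sup i t]
  rw [s, abs_div, abs_of_pos q, div_le_iff₀ q]
  have := g.add x (-y) hx (by rwa [norm_neg])
  nlinarith [abs_add_le (∑ i, l i * (bch Φ.N c x (-y) - x - -y) i) (∑ i, l i * u i - a)]

end One

variable {om : κ → ℝ × ℝ} {pos : κ → Prop} {x : ℕ → Sy ι κ}

/-- From the small ball bound to the bound for forms in the top cell. -/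
theorem acl (h : G0 Φ om pos x) {D : ℕ → κ → ℝ} {S : κ → Prop} {C : ℝ} (sb : SB x D S C)
    (hD : ∀ n a, 0 ≤ D n a ∧ (S a → D n a = 0)) {A : ℕ → Type} {O : ∀ n, (x n).Ω → A n}
    (f f0 : ∀ n, A n → Mt ι) (hf : ∀ n ω, f n (O n ω) = (x n).C (D n) ω)
    (hf0 : ∀ n ω, f0 n (O n ω) = Cl (x n) 0 ω)
    (hO : Sm (un x) fun n => ch (x n).P (O n) ((x n).Z (D n))) {u : ∀ n, (x n).Ω → κ → ℝ}
    (hu : ∀ n ω a, S a → u n ω a = xc (x n) ω a) {ok : ℕ → (κ → ℝ) → Prop}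
    (hk : ∀ K : ℝ, ∀ᶠ n in UF, ∀ l, ok n l → l ≠ 0 → Gl Φ.N (x n).c S (dl (un x) K n) l) :
    TB.ACL (pr x) O u ok (un x) := by
  intro W K Q ρ Y l a η hl hη _ hev hmi
  rcases ev_em (fun n => ∃ v ∈ (Q n).S, dl (un x) η n < ‖l n v‖) with hb | hb
  swap
  · exact Whp.of_ev (hb.mono fun n k v hv _ => not_lt.1 fun e => k ⟨v, hv, e⟩)
  have hs : ∀ n (y : K n), ∃ w : W n, (∃ v ∈ (Q n).S, dl (un x) η n < ‖l n v‖) →
      w ∈ (Q n).S ∧ dl (un x) η n < ‖l n w‖ ∧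
        ∀ v ∈ (Q n).S, dl (un x) η n < ‖l n v‖ → Y n v = y → Y n w = y := fun n y => by
    by_cases k : ∃ v ∈ (Q n).S, dl (un x) η n < ‖l n v‖ ∧ Y n v = y
    · exact k.imp fun w k _ => ⟨k.1, k.2.1, fun _ _ _ _ => k.2.2⟩
    by_cases k' : ∃ v ∈ (Q n).S, dl (un x) η n < ‖l n v‖
    · exact k'.imp fun w t _ => ⟨t.1, t.2, fun v hv b e => absurd ⟨v, hv, b, e⟩ k⟩
    · exact (ex_of_pb ((pb_true (Q n)).symm ▸ one_pos)).imp fun _ _ t => absurd t k'
  choose s hs using hs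
  have gl : ∀ᶠ n in UF, ∀ v ∈ (Q n).S, dl (un x) η n < ‖l n v‖ →
      Gl Φ.N (x n).c S (dl (un x) η n * dl (un x) η n) (l n v) := by
    filter_upwards [hev, hk (η + η)] with n k1 k2 v hv b
    exact dl_add _ η η n ▸ k2 _ (k1.2 v hv) (norm_pos_iff.1 ((dl_pos _ _ _).trans b))
  intro ε hε
  have key := sb W (fun n => A n × K n) Q ρ (fun n v => (O n (ρ n v), Y n v)) (fun n z => f n z.1)
    (fun n z e => l n (s n z.2) e / ‖l n (s n z.2)‖)
    (fun n z => (a n (s n z.2) - ∑ e, l n (s n z.2) e * GA.lg (x n).B (f0 n z.1) (f n z.1) e) /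
      ‖l n (s n z.2)‖) (η / 2) 0 (half_pos hη) le_rfl
    ⟨.of_forall hl, fun _ => 1, h.alg.big.sub le_rfl, Whp.of_ev ?_⟩ ?_ ?_ ε hε
  · filter_upwards [key, hb, gl, hev, h.alg.fr, h.unit,
      dl_lt h.alg.big (K := 1 / 2) one_half_pos (half_pos hη)] with n k1 k2 k3 k4 fr un k5
    rw [mul_zero, zero_div, zero_add] at k1
    refine (pb_mono fun v hv k => ?_).trans k1
    obtain ⟨e, b⟩ := Classical.not_imp.1 k
    have b' : dl (TG.un x) η n < ‖l n v‖ := not_le.1 b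
    obtain ⟨s1, -, s2⟩ := hs n (Y n v) k2
    obtain ⟨e1, e2⟩ := Prod.mk.inj (k4.1 _ s1 _ hv (s2 v hv b' rfl))
    have j := un _ ((hl n).mem hv)
    obtain ⟨-, -, p1, p2⟩ := pt fr (fun a => (hD n a).1) j
    obtain ⟨-, q0, q1, q2⟩ := pt fr (D := sc (x n).M 0) (fun a => by simp [sc]) j
    have r := evt (sMul ι κ Φ _ _ fr) (k3 v hv b') (dl_pos _ _ _) b' (fun a => (hD n a).2) q0
      (q2.symm.trans p2) q1 p1 (hu n (ρ n v)) (a := a n v)
      (e.trans_eq (by rw [← dl_add, ← two_mul]; rfl))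
    rw [e1, e2, hf, hf0]
    refine r.trans ?_
    change _ ≤ dl (TG.un x) (η / 2) n
    rw [dl_half _ η]
    nlinarith [dl_pos (TG.un x) (η / 2) n]
  · filter_upwards [h.alg.fr, h.unit] with n fr un v hv
    rw [hf]
    exact (pt fr (fun a => (hD n a).1) (un _ ((hl n).mem hv))).1
  · filter_upwards [hb, gl] with n k1 k2 v _
    obtain ⟨s1, s2, -⟩ := hs n (Y n v) k1
    exact tst (k2 _ s1 s2) (dl_pos _ _ _) s2 (dl_anti _ (half_le_self hη.le) n) (hD n)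
  · refine (Le.of_le fun n => ?_).trans ((hO.add hmi).trans (Le.of_le fun n => (zero_mul _).ge))
    rw [← (hl n).ch_id]
    exact info _ _ _ _ _ _

/-- The forms of the bilinear map are additive and kill the brackets. -/
theorem gl (h : G0 Φ om pos x) (hT : Term om) {bs : κ → Prop}
    (hA : Adb (Neg (un x)) om pos bs fun n => (x n).c) (K : ℝ) : ∀ᶠ n in UF, ∀ l : κ → ℝ,
    (∃ a k : κ, ∀ b, l b = cT om pos bs (x n).c a b k) → l ≠ 0 →
      Gl Φ.N (x n).c (Pu om false) (dl (un x) K n) l := by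
  classical
  have hM : Big (un x) := h.alg.big
  obtain ⟨K0, k0, box⟩ := sBox Φ.N (Fintype.card κ)
  obtain ⟨L0, hL0, hc⟩ := ob_bound hM (J := κ × κ × κ) (f := fun j n => (x n).c j.1 j.2.1 j.2.2)
    fun j => h.alg.ob _ _ _
  have hR : Sub (un x) fun n => (K0 * L0 n) ^ K0 + L0 n + L0 n :=
    ((sub_box hM hL0 k0).add hL0 hM).add hL0 hM
  have ker : ∀ᶠ n in UF, ∀ i b e, P1 om i → P2 om b → ¬bs i → ¬bs b → CC om pos e →
      |(x n).c i b e| ≤ dl (un x) (K + 1 + 1) n := by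
    simp only [eventually_all]
    exact fun i b e u v u' v' w => hA.ker i b e u v u' v' w.2 w.1 _
  have N0 := Nat.cast_nonneg (α := ℝ) (Fintype.card κ)
  filter_upwards [ker, h.alg.fr, dl_lt hM (K := 1 / 2) one_half_pos one_pos,
    tLaw ι κ (un x) Φ om pos _ _ _ h.alg hT (hM.sub le_rfl) (K + 1),
    sub_dl (hR.const_mul hM (C := (Fintype.card κ + 1) ^ 2) (by nlinarith)) one_pos]
    with n ker fr h2 law hs l ⟨a, k, hl⟩ l0
  have ck : CC om pos k := by_contra fun e => l0 (funext fun b => by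
    rw [hl, cT, if_neg fun u => e u.2.2.2.1]; rfl)
  have s : ∀ i : κ, ‖(Pi.single i 1 : κ → ℝ)‖ ≤ 1 := fun i => by rw [Pi.norm_single, norm_one]
  have l1 := hL0.1 n
  have l2 := (sub_box hM hL0 k0).1 n
  have lin : ∀ z : κ → ℝ, ‖z‖ ≤ (K0 * L0 n) ^ K0 + L0 n + L0 n →
      |cc om (x n).c (Pi.single a 1) z k| ≤ dl (un x) (K + 1) n →
      |∑ b, l b * z b| ≤ dl (un x) K n := fun z hz e => by
    have e' := BAc1A.lin (fun i b u v u' v' => ker i b k u v u' v' ck) (dl_pos _ _ _).le ck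
      (fun _ => rfl) hz (s a)
    simp only [Pi.single_apply, mul_ite, mul_one, mul_zero, Finset.sum_ite_eq', Finset.mem_univ,
      if_true, ← hl, mul_comm (z _)] at e'
    generalize (K0 * L0 n) ^ K0 + L0 n + L0 n = R at hs hz e'
    have q := dl_pos (un x) 1 n
    have q' := dl_pos (un x) K n
    have R0 := (norm_nonneg z).trans hz
    rw [← one_div, le_div_iff₀ q] at hs
    have t : (Fintype.card κ : ℝ) * (Fintype.card κ * (dl (un x) 1 n * R)) ≤ 1 := by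
      nlinarith [mul_nonneg q.le R0]
    rw [dl_add] at e e'
    rw [dl_add] at e'
    have := abs_sub_abs_le_abs_sub (∑ b, l b * z b) (cc om (x n).c (Pi.single a 1) z k)
    nlinarith [mul_pos q' q]
  refine ⟨fun b u => by rw [hl, cT, if_neg fun v => u v.2.1], fun y g hy hg => ?_, fun i b => ?_⟩
  · have id : Idl (x n).c (fun _ => 1) (fun _ => 1) (L0 n) := fun i b e => by
      simpa using hc n (i, b, e)
    have bx : ∀ z : κ → ℝ, ‖z‖ ≤ 1 → Bx (fun _ => 1) (L0 n) z := fun z hz i =>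
      ((norm_le_pi_norm z i).trans hz).trans (by linarith)
    have hb : ‖bch Φ.N (x n).c y g‖ ≤ (K0 * L0 n) ^ K0 :=
      (pi_norm_le_iff_of_nonneg (by linarith)).2 fun i =>
        ((box κ _ _ (fun _ => 1) (L0 n) 0 _ _ _ _ le_rfl l1 le_rfl
          (fun _ => ⟨zero_le_one, zero_le_one⟩) (sMul ι κ Φ _ _ fr).anti id id (bx _ hy)
          (bx _ hg) (bx _ hy) (bx _ hg)).1 i).trans_eq (mul_one _)
    exact lin _ ((norm_sub_le _ _).trans (add_le_add ((norm_sub_le _ _).trans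
      (add_le_add hb (hy.trans l1))) (hg.trans l1))) (law y g _ hy hg (s a) k ck.2).2.2.1
  · have e := (law _ _ _ (s i) (s b) (s a) k ck.2).2.2.2.2
    rw [br_single] at e
    exact lin _ ((pi_norm_le_iff_of_nonneg (by linarith)).2 fun e =>
      (hc n (i, b, e)).trans (by linarith)) e

end BAc2A

open BAc2A in
theorem rowBAc2 : OfBAc2 := fun kit _ _ _ bdet ι κ _ _ _ Φ om pos x hT hG bs K hA hK C hS => by
  have eD : (fun n => dep om (K * (x n).M, (0 : ℝ))) =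
      fun n => sc (x n).M (dep om (lv false K)) := by
    funext n i; simp only [sc, dep, lv, cond_false]; ring
  have k0 : ∀ n, 0 ≤ K * (x n).M := fun n => mul_nonneg hK.1 (Nat.cast_nonneg _)
  have sb := kit.sb ι κ Φ om pos x C hS false (fun n => (K * (x n).M, 0))
    ⟨K, .of_forall fun n => ⟨k0 n, le_rfl, le_rfl, k0 n⟩⟩
  rw [eD] at sb
  exact acl hG sb (fun n a => ⟨mul_nonneg (((wk hG).gt_lv false hK.1).nn a) (Nat.cast_nonneg _),
      fun u => by simp [sc, dep, lv, show (om a).1 = 0 from u.1]⟩)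
    (O := fun n => (tm om pos (x n) bs K).O2) (fun _ o => o.1) (fun _ o => o.2.2.2.1)
    (fun _ _ => rfl) (fun _ _ => rfl) (bdet ι κ Φ om pos x hT hG bs K hA hK).2.1
    (fun _ _ _ u => if_pos u) (gl hG hT hA)

end Pool.Agent.MP_5168f5_an.AN.TG.TA
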