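import Pool.Agent.MP_5168f5_an.AN.TAApi

/-! Kakeya sets in all dimensions: the terminal case, algebraic conditions of the bilinear step. -/

namespace Pool.Agent.MP_5168f5_an.AN.TG.TA

open H19 H17S H17F G39 GA TL Filter H61Z
open R4 (Eqv)
open R4.K31 (DnS)
open TB (flG NGG Tm)

namespace BAlgA

theorem cut {κ : Type} [Fintype κ] (p : κ → Prop) [DecidablePred p] (x : κ → ℝ) :
    ‖fun a => if p a then x a else 0‖ ≤ ‖x‖ :=
  (pi_norm_le_iff_of_nonneg (norm_nonneg x)).2 fun a => by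
    split_ifs
    exacts [norm_le_pi_norm x a, norm_zero.trans_le (norm_nonneg x)]

variable {κ : Type} {om : κ → ℝ × ℝ} {k k' : κ}

theorem eq1 (hT : Term om) (h : Mx om k) (h' : Mx om k') (e : (om k').1 = (om k).1) :
    om k' = om k := by
  have := hT k' k h' h
  rw [e, mul_comm (om k').2] at this
  exact Prod.ext e (mul_left_cancel₀ h.1.ne' this).symm

theorem eq2 (hT : Term om) (h : Mx om k) (h' : Mx om k') (e : (om k').2 = (om k).2) :
    om k' = om k := by
  have := hT k' k h' h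
  rw [e, mul_comm (om k).2] at this
  exact Prod.ext (mul_right_cancel₀ h.2.ne' this) e

end BAlgA

open BAlgA in
theorem rowBAlg : OfBAlg := by
  classical
  intro hC ι κ _ _ _ Φ om pos x hT h0 bs K _ _
  obtain ⟨L0, hL, e⟩ := hC ι κ Φ om pos x hT h0
  refine ⟨fun a => tt om (@Classical.epsilon κ ⟨a⟩ fun k => Mx om k ∧ (om k).1 = (om a).1),
    fun b => tt om (@Classical.epsilon κ ⟨b⟩ fun k => Mx om k ∧ (om k).2 = (om b).2), L0, hL,
    fun L hl => (e 0).mono fun n u => ⟨fun a b k => ?_, fun ω hω => ⟨?_, ?_, ?_⟩,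
      fun a b k h => ?_, fun _ _ _ _ h => congrArg (·.2.2) h, fun _ _ _ _ h => congrArg (·.2.1) h,
      fun _ _ _ _ h => congrArg (·.2.1) h, fun _ _ _ _ h => congrArg (·.2.2) h,
      fun _ _ _ _ h => congrArg (·.2.2.2) h, fun _ _ _ _ h => congrArg (·.2.1) h,
      fun _ _ _ _ h => congrArg (·.2.2.1) h, fun _ _ _ _ h => congrArg (·.2.2) h⟩⟩
  · refine le_trans ?_ (hl n)
    simp only [tm, cT]
    split_ifs
    exacts [u.1 a b k, abs_zero.trans_le (hL.pos n).le]
  · exact (cut _ _).trans ((u.2 ω hω).1.trans ((hL.1 n).trans (hl n)))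
  · exact (cut _ _).trans ((u.2 ω hω).1.trans ((hL.1 n).trans (hl n)))
  · exact (cut _ _).trans ((u.2 ω hω).2.1.trans (hl n))
  · have z : P1 om a ∧ P2 om b ∧ Hm om a b k ∧ CC om pos k ∧ (bs a ∨ bs b) := by
      by_contra z
      exact h (if_neg z)
    obtain ⟨z1, z2, z3, z4, z5⟩ := z
    have y1 : (om k).1 = (om a).1 := by rw [z3.2.2, Prod.fst_add, z2.1, add_zero]
    have y2 : (om k).2 = (om b).2 := by rw [z3.2.2, Prod.snd_add, z1.2, zero_add]
    have s1 := Classical.epsilon_spec (p := fun k => Mx om k ∧ (om k).1 = (om a).1) ⟨k, z4.2, y1⟩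
    have s2 := Classical.epsilon_spec (p := fun k => Mx om k ∧ (om k).2 = (om b).2) ⟨k, z4.2, y2⟩
    rw [tc_pos z4]
    refine ⟨?_, ?_, z5.imp (fun v => Finset.mem_filter.2 ⟨Finset.mem_univ _, v, z1⟩)
      fun v => Finset.mem_filter.2 ⟨Finset.mem_univ _, v, z2⟩⟩
    · unfold tt
      rw [eq1 hT z4.2 s1.1 (s1.2.trans y1.symm)]
    · unfold tt
      rw [eq2 hT z4.2 s2.1 (s2.2.trans y2.symm)]

end Pool.Agent.MP_5168f5_an.AN.TG.TA
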