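import Pool.Agent.MP_5168f5_an.AN.TAApi

/-! Kakeya sets in all dimensions: the data of the bilinear step are determined by cells. -/

namespace Pool.Agent.MP_5168f5_an.AN.TG.TA

open H19 H17S H17F G39 GA TL Filter H61Z

namespace BDetA

section Fin

variable {κ : Type} [Fintype κ] {om : κ → ℝ × ℝ} {pos bs : κ → Prop}

theorem dl_le (M : ℕ → ℕ) (n : ℕ) : dl M 1 n ≤ 1 / 2 ^ M n := by
  rw [dl, one_mul, Real.exp_neg, one_div]
  exact inv_anti₀ (by positivity) (two_pow_le_exp _)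

theorem p1_le {g : κ → ℝ} {δ : ℝ} (hδ : 0 ≤ δ) (h : ∀ a, P1 om a → |g a| ≤ δ) : ‖p1 om g‖ ≤ δ :=
  (pi_norm_le_iff_of_nonneg hδ).2 fun a => by
    unfold p1; split_ifs with e
    exacts [h a e, by simpa using hδ]

theorem p2_le {g : κ → ℝ} {δ : ℝ} (hδ : 0 ≤ δ) (h : ∀ a, P2 om a → |g a| ≤ δ) : ‖p2 om g‖ ≤ δ :=
  (pi_norm_le_iff_of_nonneg hδ).2 fun a => by
    unfold p2; split_ifs with e
    exacts [h a e, by simpa using hδ]

theorem bl_cc {c : κ → κ → κ → ℝ} {y : κ → ℝ} {e : κ} {δ : ℝ} (hδ : 0 ≤ δ) (he : CC om pos e)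
    (hc : ∀ a b, P1 om a → P2 om b → ¬bs a → ¬bs b → |c a b e| ≤ δ) (hy : ‖y‖ ≤ 1) :
    |cc om c y y e - TB.bl (cT om pos bs c) (p1 om y) (p2 om y) e| ≤
      Fintype.card κ * (Fintype.card κ * δ) := by
  have y1 : ∀ a, |y a| ≤ 1 := fun a => (norm_le_pi_norm y a).trans hy
  unfold cc br TB.bl
  rw [← Finset.sum_sub_distrib, ← nsmul_eq_mul, ← Finset.card_univ]
  refine (Finset.abs_sum_le_sum_abs _ _).trans (Finset.sum_le_card_nsmul _ _ _ fun a _ => ?_)
  rw [← Finset.sum_sub_distrib, ← nsmul_eq_mul]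
  refine (Finset.abs_sum_le_sum_abs _ _).trans (Finset.sum_le_card_nsmul _ _ _ fun b _ => ?_)
  by_cases h1 : P1 om a
  · by_cases h2 : P2 om b
    · by_cases h3 : Hm om a b e
      · by_cases h4 : bs a ∨ bs b
        · simp only [cH, cT, p1, p2, h1, h2, h3, he, h4, and_self, if_true]
          rw [show c a b e * y a * y b - y a * y b * c a b e = 0 by ring, abs_zero]
          exact hδ
        · simp only [cH, cT, p1, p2, h1, h2, h3, he, h4, and_false, if_true, if_false, mul_zero,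
            sub_zero, abs_mul]
          exact (mul_le_of_le_one_right (by positivity) (y1 b)).trans
            ((mul_le_of_le_one_right (abs_nonneg _) (y1 a)).trans
              (hc a b h1 h2 (fun u => h4 (Or.inl u)) fun u => h4 (Or.inr u)))
      · simpa [cH, cT, h3] using hδ
    · simpa [p2, h2] using hδ
  · simpa [p1, h1] using hδ

theorem bl_off {c : κ → κ → κ → ℝ} {u v : κ → ℝ} {e : κ} (he : ¬CC om pos e) :
    TB.bl (cT om pos bs c) u v e = 0 := by simp [TB.bl, cT, he]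

omit [Fintype κ] in
theorem one_U {K : ℝ} (hK : Kb om K) {k : Bool} {a : κ} (h : Pu om k a) : 1 ≤ dU om k K a := by
  rw [dU_pos h]
  cases k
  · rw [show (om a).1 = 0 from h.1, zero_add]; exact (hK.2 a).2 h.2
  · rw [show (om a).2 = 0 from h.2, add_zero]; exact (hK.2 a).1 h.1

end Fin

theorem zl0 {ι κ : Type} [Fintype ι] [DecidableEq ι] [Fintype κ] (x : Sy ι κ) (d : κ → ℝ) :
    ch x.P (Cl x d) (Zl x d) = 0 := ch_zero (Fn.fst _ _)

variable {ι κ : Type} [Fintype ι] [DecidableEq ι] [Fintype κ] {Φ : Filt (Mt ι)}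
  {om : κ → ℝ × ℝ} {pos : κ → Prop} {x : ℕ → Sy ι κ} {d d1 d2 : κ → ℝ}
  (hL : Lnk) (hT : Term om) (h : G0 Φ om pos x)

include hL hT h

theorem cel2 (g : GT om pos d) (g1 : GT om pos d1) (g2 : GT om pos d2) (e : d ≤ d1 ⊔ d2) :
    Sm (un x) fun n => ch (x n).P (Cl (x n) d) fun ω => (Cl (x n) d1 ω, Cl (x n) d2 ω) :=
  ((hL ι κ Φ om pos x hT h).2.2.2 _ _ _ d d1 d2 g g1 g2 (apx_sc x d) (apx_sc x d1)
    (apx_sc x d2)).2.2.1 e

theorem cel (g : GT om pos d) (g1 : GT om pos d1) (e : d ≤ d1) :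
    Sm (un x) fun n => ch (x n).P (Cl (x n) d) (Cl (x n) d1) :=
  (cel2 hL hT h g g1 g1 (e.trans le_sup_left)).mono
    (Eventually.of_forall fun _ => ch_anti ((Fn.rfl _).pair (Fn.rfl _)))

theorem top (g : GT om pos d) : Sm (un x) fun n => ch (x n).P (Zl (x n) 0) (Zl (x n) d) :=
  (cel hL hT h gt_zero g g.nn).mono (Eventually.of_forall fun _ =>
    ch_le ((Fn.fst _ _).pair ((Fn.snd _ _).right _)) (Fn.fst _ _))

theorem det (hF : DetF) (g : GT om pos d) (f : ∀ n, (x n).Ω → κ → ℝ) {L : ℕ → ℝ}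
    (hS : Sub (un x) L) (e : ∀ᶠ n in UF, ∀ ω ∈ (x n).P.S, ∀ ω' ∈ (x n).P.S,
      (Cl (x n) d ω, Cl (x n) 0 ω) = (Cl (x n) d ω', Cl (x n) 0 ω') →
      ∀ a, |f n ω a - f n ω' a| ≤ L n / 2 ^ (x n).M) :
    Sm (un x) fun n => ch (x n).P (fun ω => flv (x n).M (f n ω)) (Cl (x n) d) :=
  ((hF κ (pr x) (fun n ω => (Cl (x n) d ω, Cl (x n) 0 ω)) f (fun n _ => (x n).M) (un x) L h.alg.big
    hS e).add (cel hL hT h gt_zero g g.nn)).mono (Eventually.of_forall fun _ =>
      (ch_tri' _ _ _).trans (add_le_add le_rfl (ch_mono ((Fn.snd _ _).pair (Fn.fst _ _)))))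

theorem crd (hD : DetP) (hC : Crd) (g : GT om pos d) : ∃ L, Sub (un x) L ∧ ∀ᶠ n in UF,
    ∀ ω ∈ (x n).P.S, ‖xc (x n) ω‖ ≤ 1 ∧ ∀ ω' ∈ (x n).P.S,
      (Cl (x n) d ω, Cl (x n) 0 ω) = (Cl (x n) d ω', Cl (x n) 0 ω') →
      ((∀ a, P1 om a → 1 ≤ d a) →
        (∀ a, |p1 om (xc (x n) ω) a - p1 om (xc (x n) ω') a| ≤ L n / 2 ^ (x n).M) ∧
        ∀ e, Mx om e → 1 ≤ d e →
          |gam om (x n).c (xc (x n) ω) e - cc om (x n).c (xc (x n) ω) (xc (x n) ω) e -
            (gam om (x n).c (xc (x n) ω') e - cc om (x n).c (xc (x n) ω') (xc (x n) ω') e)| ≤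
            L n / 2 ^ (x n).M) ∧
      ((∀ a, P2 om a → 1 ≤ d a) →
        (∀ a, |p2 om (xc (x n) ω) a - p2 om (xc (x n) ω') a| ≤ L n / 2 ^ (x n).M) ∧
        ∀ e, Mx om e → 1 ≤ d e →
          |gam om (x n).c (xc (x n) ω) e - gam om (x n).c (xc (x n) ω') e| ≤
            L n / 2 ^ (x n).M) := by
  obtain ⟨L₁, s₁, e₁⟩ := hC ι κ Φ om pos x hT h
  obtain ⟨L₂, s₂, e₂⟩ := (hD ι κ Φ om pos x h _ ((hL ι κ Φ om pos x hT h).2.2.2 _ _ _ d d d g g g
    (apx_sc x d) (apx_sc x d) (apx_sc x d)).1).2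
  refine ⟨_, (s₁.mul s₂).const_mul h.alg.big (by norm_num : (1 : ℝ) ≤ 3), ?_⟩
  filter_upwards [e₁ 1, e₂] with n e₁ e₂ ω hω
  refine ⟨(e₁.2 ω hω).1, fun ω' hω' e => ?_⟩
  obtain ⟨t, t1, -, -, t2, t3, t4⟩ := (e₁.2 ω' hω').2.2.2.2 ω hω (congrArg Prod.snd e).symm
  have b := e₂ ω' hω' ω hω t (congrArg Prod.fst e).symm t1
  have l1 := s₁.1 n
  have l2 := s₂.1 n
  have δ0 := (dl_pos (un x) 1 n).le
  have b1 : ∀ a, 1 ≤ d a → |t a| ≤ L₂ n * dl (un x) 1 n := fun a u =>
    (b a).trans (mul_le_mul_of_nonneg_left (dl_anti (un x) u n) (by linarith))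
  have m0 : 0 ≤ L₂ n * dl (un x) 1 n := by positivity
  have m1 : dl (un x) 1 n ≤ L₂ n * dl (un x) 1 n := le_mul_of_one_le_left δ0 l2
  have m2 : L₂ n * dl (un x) 1 n ≤ L₁ n * (L₂ n * dl (un x) 1 n) := le_mul_of_one_le_left m0 l1
  have m3 : 3 * (L₁ n * (L₂ n * dl (un x) 1 n)) ≤ 3 * (L₁ n * L₂ n) / 2 ^ (x n).M := by
    have := mul_le_mul_of_nonneg_left (dl_le (un x) n) (show 0 ≤ 3 * (L₁ n * L₂ n) by positivity)
    rw [mul_one_div] at this
    linarith
  have tri : ∀ u v : ℝ, |u| ≤ |u - v| + |v| := fun u v => by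
    simpa using abs_add_le (u - v) v
  refine ⟨fun u => ?_, fun u => ?_⟩
  · have p := mul_le_mul_of_nonneg_left (p1_le m0 fun a v => b1 a (u a v)) (zero_le_one.trans l1)
    exact ⟨fun a => (norm_le_pi_norm (p1 om (xc (x n) ω) - p1 om (xc (x n) ω')) a).trans
      (by linarith), fun e v w => (tri _ (t e)).trans (by linarith [(t4 e v).2, b1 e w])⟩
  · have p := mul_le_mul_of_nonneg_left (p2_le m0 fun a v => b1 a (u a v)) (zero_le_one.trans l1)
    exact ⟨fun a => (norm_le_pi_norm (p2 om (xc (x n) ω) - p2 om (xc (x n) ω')) a).trans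
      (by linarith), fun e v w => (tri _ (t e)).trans (by linarith [(t4 e v).1, b1 e w])⟩

theorem u1 (hD : DetP) (hC : Crd) (hF : DetF) (g : GT om pos d) (u : ∀ a, P1 om a → 1 ≤ d a) :
    Sm (un x) fun n => ch (x n).P (fun ω => flv (x n).M (p1 om (xc (x n) ω))) (Cl (x n) d) :=
  (crd hL hT h hD hC g).elim fun _ k => det hL hT h hF g _ k.1
    (k.2.mono fun _ a ω hω ω' hω' e => (((a ω hω).2 ω' hω' e).1 u).1)

theorem vhS (hD : DetP) (hC : Crd) (hF : DetF) {K : ℝ} (hK : Kb om K) (g : GT om pos d)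
    (u : dU om false K ≤ d) : Sm (un x) fun n => ch (x n).P (vh om (x n) K) (Zl (x n) d) := by
  obtain ⟨L, s, e⟩ := crd hL hT h hD hC g
  have a := det hL hT h hF g _ s (e.mono fun _ a ω hω ω' hω' e =>
    (((a ω hω).2 ω' hω' e).2 fun b v => (one_U hK (k := false) v).trans (u b)).1)
  refine ((cel hL hT h ((wk h).gt_dU false hK.1) g u).add (a.add (top hL hT h g))).mono
    (Eventually.of_forall fun n => (ch_subadd _ _ _).trans (add_le_add (ch_anti (Fn.fst _ _))
      ((ch_subadd _ _ _).trans (add_le_add (ch_anti (Fn.fst _ _)) le_rfl))))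

end BDetA

open BDetA

theorem rowBDet : OfBDet := by
  intro hL hD hC hF ι κ _ _ _ Φ om pos x hT h bs K hA hK
  have W := wk h
  have gT := W.gt_lv true hK.1
  have gF := W.gt_lv false hK.1
  have oT : ∀ a, 0 < (om a).2 → 1 ≤ dep om (lv true K) a := fun a u => by
    simpa [dep, lv] using (hK.2 a).2 u
  have oF : ∀ a, 0 < (om a).1 → 1 ≤ dep om (lv false K) a := fun a u => by
    simpa [dep, lv] using (hK.2 a).1 u
  have p3 := u1 hL hT h hD hC hF (W.gt_dU true hK.1) fun a v => one_U hK (k := true) v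
  refine ⟨?_, ?_, p3.mono (Eventually.of_forall fun _ => ch_anti (Fn.fst _ _)),
    vhS hL hT h hD hC hF hK (W.gt_dU false hK.1) le_rfl, ?_⟩
  · obtain ⟨L, s, e⟩ := crd hL hT h hD hC gT
    have a := det hL hT h hF gT (fun n => ga om pos (x n)) s (e.mono fun n a ω hω ω' hω' e b => by
      unfold ga; split_ifs with v
      exacts [(((a ω hω).2 ω' hω' e).2 fun c w => oT c w.2).2 b v.2 (oT b v.2.2),
        by have := s.pos n; rw [sub_self, abs_zero]; positivity])
    have v := vhS hL hT h hD hC hF hK gT fun b => by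
      by_cases w : Pu om false b
      · rw [dU_pos w]; simp [dep, lv, show (om b).1 = 0 from w.1]
      · rw [dU_neg w]; exact gT.nn b
    refine (v.add a).mono (Eventually.of_forall fun n => (ch_subadd _ _ _).trans ?_)
    rw [zl0, zero_add]
    exact (ch_subadd _ _ _).trans (add_le_add le_rfl (ch_anti (Fn.fst _ _)))
  · obtain ⟨L, s, e⟩ := crd hL hT h hD hC gF
    have k : ∀ᶠ n in UF, ∀ a b c, P1 om a → P2 om b → ¬bs a → ¬bs b → CC om pos c →
        |(x n).c a b c| ≤ dl (un x) 1 n :=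
      eventually_all.2 fun a => eventually_all.2 fun b => eventually_all.2 fun c =>
        eventually_all.2 fun u => eventually_all.2 fun v => eventually_all.2 fun w =>
          eventually_all.2 fun y => eventually_all.2 fun z => hA.ker a b c u v w y z.2 z.1 1
    have c0 : (0 : ℝ) ≤ Fintype.card κ := Nat.cast_nonneg _
    have a := det hL hT h hF gF (fun n ω => ga om pos (x n) ω -
      TB.bl (cT om pos bs (x n).c) (p1 om (xc (x n) ω)) (p2 om (xc (x n) ω)))
      (s.add (h.alg.big.sub (C := 2 * (Fintype.card κ * Fintype.card κ) + 1) (by nlinarith))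
        h.alg.big) (by
      filter_upwards [e, k] with n a k ω hω ω' hω' e b
      have := s.pos n
      by_cases v : CC om pos b
      · have q := (((a ω hω).2 ω' hω' e).1 fun c w => oF c w.1).2 b v.2 (oF b v.2.1)
        have δ0 := (dl_pos (un x) 1 n).le
        have r := abs_le.1 (bl_cc δ0 v (fun c c' u u' w w' => k c c' b u u' w w' v) (a ω hω).1)
        have r' := abs_le.1 (bl_cc δ0 v (fun c c' u u' w w' => k c c' b u u' w w' v) (a ω' hω').1)
        have m := mul_le_mul_of_nonneg_left (dl_le (un x) n) (mul_nonneg c0 c0)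
        have z : (0 : ℝ) ≤ 1 / 2 ^ (x n).M := by positivity
        rw [abs_le] at q
        simp only [Pi.sub_apply, ga, if_pos v]
        rw [add_div, add_div, div_eq_mul_one_div (2 * _), abs_le]
        constructor <;> linarith
      · simp only [Pi.sub_apply, ga, if_neg v, bl_off v, sub_self, abs_zero]
        positivity)
    refine ((u1 hL hT h hD hC hF gF fun c w => oF c w.1).add (a.add (top hL hT h gF))).mono
      (Eventually.of_forall fun n => (ch_subadd _ _ _).trans ?_)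
    rw [zl0, zero_add]
    exact (ch_subadd _ _ _).trans (add_le_add (ch_anti (Fn.fst _ _))
      ((ch_subadd _ _ _).trans (add_le_add (ch_anti (Fn.fst _ _)) le_rfl)))
  · have a := cel2 hL hT h (W.gt_dY le_rfl zero_le_one) (W.gt_dU true hK.1) (W.gt_dU false hK.1)
      fun b => by
        rcases tri om pos b with v | v | v
        · rw [dY, dF_pp v]
          exact (W.pp_iff.1 v).elim (fun w => le_sup_of_le_left (one_U hK w.2)) fun w =>
            le_sup_of_le_right (one_U hK w.2)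
        · rw [dY, dF_cc v, mul_zero]; exact le_sup_of_le_left ((W.gt_dU true hK.1).nn b)
        · rw [dY, dF_st v]; exact le_sup_of_le_left ((W.gt_dU true hK.1).nn b)
    refine (a.add p3).mono (Eventually.of_forall fun n => (ch_subadd _ _ _).trans (add_le_add
      (ch_anti ((Fn.fst _ _).pair ((Fn.fst _ _).right _))) ((ch_subadd _ _ _).trans ?_)))
    rw [ch_zero (Fn.snd _ _), zero_add]
    exact ch_le ((Fn.comp _ _).left _) (Fn.fst _ _)

end Pool.Agent.MP_5168f5_an.AN.TG.TA
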