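import Pool.Agent.MP_5168f5_an.AN.TAApi

/-! Kakeya sets in all dimensions: the terminal case, fullness of the additive positions. -/

namespace Pool.Agent.MP_5168f5_an.AN.TG.TA

open H19 H17S H17F G39 GA TL Filter H61Z

namespace BFulA

theorem chain {Ω α β γ δ ε ζ η : Type} (P : FP Ω) (F : Ω → α) (G : Ω → β) (U : Ω → γ) (V : Ω → δ)
    (D : Ω → ε) (T : Ω → ζ) (O : Ω → η) :
    ch P F (fun ω => (D ω, T ω)) ≤ ch P F G + ch P G (fun ω => (U ω, V ω, D ω)) + ch P V D +
      ch P O (fun ω => (D ω, T ω)) + ch P U O := by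
  have h1 := ch_tri' (P := P) F (fun ω => (D ω, T ω)) G
  have h2 := ch_tri' (P := P) G (fun ω => (D ω, T ω)) fun ω => (U ω, V ω, D ω)
  have h3 : ch P (fun ω => (U ω, V ω, D ω)) (fun ω => (D ω, T ω)) ≤
      ch P (fun ω => (U ω, V ω)) fun ω => (D ω, T ω) :=
    ch_mono fun a _ b _ e => by simp only [Prod.mk.injEq] at e ⊢; tauto
  have h4 := ch_subadd (P := P) U V fun ω => (D ω, T ω)
  have h5 : ch P V (fun ω => (D ω, T ω)) ≤ ch P V D := ch_anti (Fn.fst D T)
  have h6 := ch_tri' (P := P) U (fun ω => (D ω, T ω)) O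
  linarith

theorem sum_up {κ : Type} [Fintype κ] (d : κ → ℝ) (r : ℝ) (S S' : κ → Prop) :
    ∑ a, (up d r S a - up d r S' a) = cd S * r - cd S' * r := by
  classical
  have e : ∀ (T : κ → Prop) a, up d r T a = d a + if T a then r else 0 := fun T a => by
    unfold up; split_ifs <;> simp
  simp only [e, add_sub_add_left_eq_sub, Finset.sum_sub_distrib, ← Finset.sum_filter,
    Finset.sum_const, nsmul_eq_mul, cd]

theorem ar {a b l m f g h i j z : ℝ} (e : f ≤ g + h + i + j + z) : b * m * l - z ≤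
    a * l * m - f + (g - (a * l - b * l) * m) + (i - 0) + (h - 0) + (j - 0) := by linarith

theorem dep_lv {κ : Type} {om : κ → ℝ × ℝ} {k : Bool} {a : κ} (h : Pu om k a) (K : ℝ) :
    dep om (lv k K) a = 0 := by
  cases k
  · have : (om a).1 = 0 := h.1
    simp [dep, lv, this]
  · have : (om a).2 = 0 := h.2
    simp [dep, lv, this]

variable {ι κ : Type} [Fintype ι] [DecidableEq ι] [Fintype κ] {Φ : Filt (Mt ι)}
  {om : κ → ℝ × ℝ} {pos bs : κ → Prop} {x : ℕ → Sy ι κ} {K C : ℝ}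

/-- The additive coordinates determine the cell. -/
theorem det (hD : DetP) (hC : Crd) (hT : Term om) (h0 : G0 Φ om pos x)
    (hb : Adb (Neg (un x)) om pos bs fun n => (x n).c) (k : Bool)
    (g1 : Gd x fun n => sc (x n).M (dep om (lv k K)))
    (g2 : Gd x fun n => sc (x n).M (up (dep om (lv k K)) H17S.lg fun a => bs a ∧ Pu om k a))
    {u : ∀ n, (x n).Ω → κ → ℝ} (hu : ∀ n ω a, Pu om k a → u n ω a = xc (x n) ω a) :
    Sm (un x) fun n => ch (x n).P
      (Cl (x n) (up (dep om (lv k K)) H17S.lg fun a => bs a ∧ Pu om k a)) fun ω =>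
        (TB.prj (Bs om bs k) (flv (x n).M (u n ω)), Cl (x n) 0 ω,
          Cl (x n) (dep om (lv k K)) ω) := by
  obtain ⟨L, l1, l2⟩ := hC ι κ Φ om pos x hT h0
  obtain ⟨L', m1, m2⟩ := (hD ι κ Φ om pos x h0 _ g1).2
  refine (hD ι κ Φ om pos x h0 _ g2).1 _ _ _ (m1.const_mul h0.alg.big one_le_two) ?_
  have ad : ∀ᶠ n in UF, ∀ a, bs a → ∀ y g : κ → ℝ, ‖y‖ ≤ L n → ‖g‖ ≤ L n →
      |bch Φ.N (x n).c y g a - y a - g a| ≤ dl (un x) H17S.lg n :=
    eventually_all.2 fun a => eventually_imp_distrib_left.2 fun q =>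
      tAdd ι κ (un x) Φ om pos _ _ L a h0.alg l1 (hb.add a q) H17S.lg
  filter_upwards [l2 0, m2, ad] with n v1 v2 v3 ω hω ω' hω' e
  simp only [Prod.mk.injEq] at e
  obtain ⟨w1, -, -, -, w2⟩ := v1.2 ω hω
  obtain ⟨g, a1, a2, a3, -⟩ := w2 ω' hω' e.2.1
  refine ⟨g, fun a => ?_, a1⟩
  have L1 := m1.1 n
  by_cases q : bs a ∧ Pu om k a
  · have r1 : rA (sc (x n).M (up (dep om (lv k K)) H17S.lg fun a => bs a ∧ Pu om k a)) a =
        dl (un x) H17S.lg n := by
      simp only [rA, sc, up, if_pos q, dep_lv q.2, zero_add, dl]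
    have r2 : ((2 : ℝ) ^ (x n).M)⁻¹ = dl (un x) H17S.lg n := by
      rw [two_pow_eq, ← Real.exp_neg, dl, mul_comm]
    have r3 := congrFun e.1 a
    have r4 : a ∈ Bs om bs k := by simpa [Bs] using q
    simp only [TB.prj, if_pos r4, flv, hu _ _ _ q.2] at r3
    have r5 := abs_lt.1 (abs_sub_lt_of_fl1_eq r3)
    have r6 := abs_le.1 (v3 a q.1 _ g (w1.trans (l1.1 n)) a2)
    rw [← a3] at r6
    have r7 : 0 < dl (un x) H17S.lg n := Real.exp_pos _
    rw [r2] at r5
    rw [r1, abs_le]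
    constructor <;> nlinarith
  · have r1 : rA (sc (x n).M (up (dep om (lv k K)) H17S.lg fun a => bs a ∧ Pu om k a)) a =
        rA (sc (x n).M (dep om (lv k K))) a := by simp only [rA, sc, up, if_neg q]
    have r2 : 0 < rA (sc (x n).M (dep om (lv k K))) a := Real.exp_pos _
    rw [r1]
    exact (v2 ω hω ω' hω' g e.2.2 a1 a).trans (by nlinarith)

theorem core (hL : Lnk) (hD : DetP) (hC : Crd) (hT : Term om) (h : GS Φ om pos C x)
    (hb : Adb (Neg (un x)) om pos bs fun n => (x n).c) (hK : 0 ≤ K) (k : Bool)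
    {u : ∀ n, (x n).Ω → κ → ℝ} (hu : ∀ n ω a, Pu om k a → u n ω a = xc (x n) ω a)
    {A : ℕ → Type} {O : ∀ n, (x n).Ω → A n}
    (hO : Sm (un x) fun n => ch (x n).P (O n) (Zl (x n) (dep om (lv k K)))) :
    Le (un x) (fun n => (Bs om bs k).card * (x n).M * H17S.lg) fun n =>
      ch (x n).P (fun ω => TB.prj (Bs om bs k) (flv (x n).M (u n ω))) (O n) := by
  have h0 := h.toG0
  have w := wk h0
  have gd := (hL ι κ Φ om pos x hT h0).1
  have t1 := w.gt_lv k hK
  have i0 : Id (un x) (fun n => (x n).c) 0 0 := (gd _ gt_zero).id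
  have i1 : Id (un x) (fun n => (x n).c) (dep om (lv k K)) (dep om (lv k K)) := (gd _ t1).id
  have i2 : Id (un x) (fun n => (x n).c) (up (dep om (lv k K)) H17S.lg fun a => pos a ∧ Pu om k a)
      (up (dep om (lv k K)) H17S.lg fun a => pos a ∧ Pu om k a) :=
    (gd _ ((w.gt_up t1 lg_pos.le).2 k)).id
  have i3 : Id (un x) (fun n => (x n).c) (up (dep om (lv k K)) H17S.lg fun a => bs a ∧ Pu om k a)
      (up (dep om (lv k K)) H17S.lg fun a => bs a ∧ Pu om k a) := fun a b e q => by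
    by_cases s : bs e ∧ Pu om k e
    · exact hb.add e s.1 a b
    · refine i1 a b e ?_
      have := lg_pos
      unfold up at q
      rw [if_neg s] at q
      split_ifs at q <;> linarith
  have c1 := (sCntW ι κ (un x) Φ om pos _ _ _ (pr x) (fun n => (x n).j) _ _ h0.alg h0.unit i3 i2
    (fun a => by
      have := lg_pos
      unfold up
      split_ifs with s s'
      exacts [le_rfl, absurd ⟨(hb.mem a s.1).1, s.2⟩ s', by linarith, le_rfl])
    fun a e => by
      unfold up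
      rw [if_neg fun s => pu_live s.2 e, if_neg fun s => pu_live s.2 e]).1
  have c2 := (sCntW ι κ (un x) Φ om pos _ _ _ (pr x) (fun n => (x n).j) _ _ h0.alg h0.unit i0 i1
    t1.nn fun a e => (t1.dead a e).symm).2
  have c3 := det hD hC hT h0 hb k
    (sIdR κ (un x) _ _ _ h0.alg.big h0.alg.ob i1 i1 fun _ => le_rfl)
    (sIdR κ (un x) _ _ _ h0.alg.big h0.alg.ob i3 i3 fun _ => le_rfl) hu
  have c4 := h.f k (lv k K) H17S.lg (by cases k; exacts [hK, le_rfl])
    (by cases k; exacts [le_rfl, hK]) lg_pos.le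
  refine Le.of5 c4 c1 c2 c3 hO (Eventually.of_forall fun n => ?_)
  have e := chain (x n).P (Cl (x n) (up (dep om (lv k K)) H17S.lg fun a => pos a ∧ Pu om k a))
    (Cl (x n) (up (dep om (lv k K)) H17S.lg fun a => bs a ∧ Pu om k a))
    (fun ω => TB.prj (Bs om bs k) (flv (x n).M (u n ω))) (Cl (x n) 0) (Cl (x n) (dep om (lv k K)))
    (x n).Θ (O n)
  have e' : ((Bs om bs k).card : ℝ) = cd fun a => bs a ∧ Pu om k a := by
    unfold Bs cd; congr
  rw [sum_up, e']
  exact ar e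

end BFulA

theorem rowBFul : OfBFul := by
  intro hL hD hC hB ι κ _ _ _ Φ om pos x hT h0 bs K hb hK C h
  obtain ⟨b1, b2, -⟩ := hB ι κ Φ om pos x hT h0 bs K hb hK
  exact ⟨BFulA.core hL hD hC hT h hb hK.1 true (fun _ _ _ q => if_pos q) b1,
    BFulA.core hL hD hC hT h hb hK.1 false (fun _ _ _ q => if_pos q) b2⟩

end Pool.Agent.MP_5168f5_an.AN.TG.TA
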