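import Pool.Agent.MP_5168f5_an.AN.TAApi

/-! Kakeya sets in all dimensions: the terminal case, the defects of independence. -/

namespace Pool.Agent.MP_5168f5_an.AN.TG.TA

open H19 H17S H17F G39 GA TL Filter H61Z

namespace BIndA

variable {Ω α α' β β' γ δ δ' : Type} {P : FP Ω}

theorem right (F : Ω → α) (G : Ω → β) (G' : Ω → β') (T : Ω → γ) {Y : Ω → δ}
    (h : Fn P Y fun ω => (G' ω, T ω)) : mi P F G T ≤ mi P F G' T + ch P G Y := by
  have h1 := ch_tri' (P := P) F (fun ω => (G' ω, T ω)) fun ω => (G ω, T ω)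
  have h2 : ch P (fun ω => (G ω, T ω)) (fun ω => (G' ω, T ω)) ≤ ch P G Y :=
    ch_le ((Fn.fst _ _).pair ((Fn.snd G' T).right G)) h
  unfold mi
  linarith

theorem left (F : Ω → α) (F' : Ω → α') (G : Ω → β) (T : Ω → γ) {Y : Ω → δ}
    (h : Fn P Y fun ω => (F' ω, T ω)) : mi P F G T ≤ mi P F' G T + ch P F Y := by
  rw [mi_symm F, mi_symm F']
  exact right G F F' T h

theorem both (F : Ω → α) (F' : Ω → α') (G : Ω → β) (G' : Ω → β') (T : Ω → γ) {Y : Ω → δ}
    {Y' : Ω → δ'} (h : Fn P Y fun ω => (F' ω, T ω)) (h' : Fn P Y' fun ω => (G' ω, T ω)) :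
    mi P F G T ≤ mi P F' G' T + ch P F Y + ch P G Y' := by
  linarith [left F F' G T h, right F' G G' T h']

variable {ι κ : Type} [Fintype ι] [DecidableEq ι] [Fintype κ]

theorem zl (x : Sy ι κ) (d : κ → ℝ) : Fn x.P (Zl x d) fun ω => (Cl x d ω, Zl x 0 ω) :=
  fun _ _ _ _ e => congrArg (fun z : Mt ι × Mt ι × x.T => (z.1, z.2.2)) e

end BIndA

open BIndA in
theorem rowBInd : OfBInd := by
  intro _ hD ι κ _ _ _ Φ om pos x hT g bs K hA hK hI
  obtain ⟨d1, d2, d3, d4, d5⟩ := hD ι κ Φ om pos x hT g bs K hA hK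
  refine ⟨(((hI true K hK.1).add d3).add d1).mono (Eventually.of_forall fun n => ?_),
    (((hI false K hK.1).add d4).add d2).mono (Eventually.of_forall fun n => ?_),
    (((hI true K hK.1).add d1).add d5).mono (Eventually.of_forall fun n => ?_)⟩
  · exact both _ (Cl (x n) (dU om true K)) _ (Cl (x n) (dep om (lv true K))) (Zl (x n) 0)
      (zl (x n) _) (zl (x n) _)
  · exact both _ (Cl (x n) (dU om false K)) _ (Cl (x n) (dep om (lv false K))) (Zl (x n) 0)
      (zl (x n) _) (zl (x n) _)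
  · refine (left _ (Cl (x n) (dU om true K)) _ _ (Fn.rfl _)).trans (add_le_add ?_ le_rfl)
    refine le_trans ?_ (right (Cl (x n) (dU om true K)) (tm om pos (x n) bs K).O1
      (Cl (x n) (dep om (lv true K))) (Zl (x n) 0) (zl (x n) _))
    exact mi_right (fun _ _ _ _ e => congrArg (fun z => z.2.2) e)
      (fun _ _ _ _ e => congrArg (fun z => z.1.2.1) e) (Fn.fst _ _)

end Pool.Agent.MP_5168f5_an.AN.TG.TA
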