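import Pool.Agent.MP_5168f5_an.AN.TAApi
import Pool.Agent.MP_5168f5_an.AN.TGBas

/-! Kakeya sets in all dimensions: cells of compatible depth do not depend on the basis. -/

namespace Pool.Agent.MP_5168f5_an.AN.TG.TA

open H19 H17S H17F G39 GA TL Filter H61Z
open R4 (Eqv)
open TGBasA (nm)

namespace BInvA

theorem ob {κ : Type} {M : ℕ → ℕ} {D : ℕ → κ → ℝ} {d : κ → ℝ} {A : ℕ → Matrix κ κ ℝ} {a e : κ}
    (hM : Big M) (hD : ∀ a, Eqv M (fun n => D n a) fun n => d a * M n)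
    (h : OB M fun n => nm (rA (sc (M n) d)) (A n) a e) : OB M fun n => nm (rA (D n)) (A n) a e := by
  have k : OB M fun n => Real.exp (D n e - d e * M n + (d a * M n - D n a)) := fun c hc => by
    filter_upwards [(hD e).1 _ (half_pos hc), (hD a).2 _ (half_pos hc)] with n u v
    rw [Real.abs_exp, dl_inv, Real.exp_le_exp]
    linarith
  refine ob_congr (ob_mul hM h k) (Eventually.of_forall fun n => le_of_eq (congrArg _ ?_))
  simp only [nm, rA, sc, mul_div_assoc, mul_assoc, ← Real.exp_sub, ← Real.exp_add]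
  congr 2
  ring

end BInvA

theorem rowBInv : OfBInv := by
  intro lnk ι κ _ _ _ Φ om pos x hT g _ A A' ⟨h1, hA, hz⟩
  have g' : G0 Φ om pos fun n => (x n).bas (A n) (A' n) :=
    ⟨sChg _ _ _ Φ om pos _ _ A A' g.alg h1 hA hz, g.unit⟩
  refine ⟨g', fun D d gt cp ap => ?_⟩
  have hM := g.alg.big
  have i := ((lnk _ _ Φ om pos x hT g).2.2.2 D D D d d d gt gt gt ap ap ap).1
  have i' := ((lnk _ _ Φ om pos _ hT g').2.2.2 D D D d d d gt gt gt ap ap ap).1
  have hd : TGBasA.Cp om pos d := fun a e u => cp a e (by tauto) (by tauto)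
  obtain ⟨L, s, h⟩ := ob_bound hM (J := Bool × κ × κ) (f := fun q n =>
    nm (rA (D n)) (bif q.1 then A n else A' n) q.2.1 q.2.2) fun ⟨k, a, e⟩ => by
      cases k
      exacts [BInvA.ob hM ap (TGBasA.nm_ob hd (hA a e).2 fun q => (hz a e q).2),
        BInvA.ob hM ap (TGBasA.nm_ob hd (hA a e).1 fun q => (hz a e q).1)]
  have s' := ((hM.sub (show (1 : ℝ) ≤ Fintype.card κ + 1 by simp)).mul (hM.sub le_rfl)).mul s
  have p : ∀ (D : κ → ℝ) a, 0 < rA D a := fun _ _ => Real.exp_pos _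
  refine ⟨TGBasA.sw hM g'.alg.fr g.alg.fr g.unit i' s' (h1.mono fun n e y z q =>
      TGBasA.nr Φ (mul_eq_one_comm.1 e) (p _) zero_le_one (s.pos n).le
        (fun a e => h n (false, a, e)) ?_),
    TGBasA.sw hM g.alg.fr g'.alg.fr g.unit i s' (h1.mono fun n e y z q =>
      TGBasA.nr Φ e (p _) zero_le_one (s.pos n).le (fun a e => h n (true, a, e)) q)⟩
  rwa [((sFr ι κ Φ _ fun _ _ _ => 0).2 _ _ e).2.1]

end Pool.Agent.MP_5168f5_an.AN.TG.TA
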