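import Pool.Agent.MP_5168f5_an.AN.TACD2

/-! Kakeya sets in all dimensions: the quotient cell is determined by the coordinates. -/

namespace Pool.Agent.MP_5168f5_an.AN.TG.TA

open H19 H17S H17F G39 GA TL Filter H61Z

namespace CD1A

section Rd

variable {κ : Type} {R : ℕ} {β : κ → ℝ} {a : κ}

theorem rd_one (h : β a = 1) : TB.rd R β a = 1 := by
  have e : ⌊(2 : ℝ) ^ R⌋ = 2 ^ R := by
    rw [show (2 : ℝ) ^ R = ((2 ^ R : ℤ) : ℝ) by push_cast; rfl, Int.floor_intCast]
  unfold TB.rd fl1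
  rw [h, mul_one, e]
  push_cast
  exact div_self (by positivity)

theorem rd_zero (h : β a = 0) : TB.rd R β a = 0 := by simp [TB.rd, fl1, h]

theorem rd_near : |β a - TB.rd R β a| ≤ ((2 : ℝ) ^ R)⁻¹ := by
  have h1 := fl1_le R (β a)
  have h2 := lt_fl1 R (β a)
  have p : (0 : ℝ) < (2 ^ R)⁻¹ := by positivity
  unfold TB.rd
  rw [div_eq_inv_mul, abs_le]
  constructor <;> linarith

theorem rd_abs (h : |β a| ≤ 1) : |TB.rd R β a| ≤ 1 := by
  have p : (0 : ℝ) < 2 ^ R := by positivity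
  have h1 := fl1_le R (β a)
  have h2 : -(2 : ℤ) ^ R ≤ fl1 R (β a) := Int.le_floor.2 (by
    push_cast; nlinarith [(abs_le.1 h).1])
  have h3 : -(2 : ℝ) ^ R ≤ fl1 R (β a) := by exact_mod_cast h2
  unfold TB.rd
  rw [abs_le, le_div_iff₀ p, div_eq_inv_mul]
  exact ⟨by linarith, h1.trans (abs_le.1 h).2⟩

end Rd

variable {κ : Type} [Fintype κ] {om : κ → ℝ × ℝ} {pos : κ → Prop} {i : κ} {β : κ → ℝ}

omit [Fintype κ] in
theorem dir_rd (h : Dir om pos i β) (R : ℕ) : Dir om pos i (TB.rd R β) :=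
  ⟨rd_one h.1, fun a => rd_abs (h.2.1 a), fun a e => h.2.2 a fun z => e (rd_zero z)⟩

open Classical in
theorem vm (r t : κ → ℝ) (e : κ) : Matrix.vecMul t ((1 : Matrix κ κ ℝ).updateRow i r) e =
    t e + t i * (r e - if i = e then 1 else 0) := by
  have k : ∀ a, t a * (1 : Matrix κ κ ℝ).updateRow i r a e =
      (if a = e then t a else 0) + if a = i then t a * (r e - if i = e then 1 else 0) else 0 :=
    fun a => by
      rw [Matrix.updateRow_apply, Matrix.one_apply]
      by_cases u : a = i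
      · subst u; split_ifs <;> simp_all [mul_sub]
      · simp [u]
  simp only [Matrix.vecMul, dotProduct, k, Finset.sum_add_distrib, Finset.sum_ite_eq',
    Finset.mem_univ, if_true]

open Classical in
theorem mul_one (h : β i = 1) : Ab i β * Ab' i β = 1 := by
  ext a e
  rw [Matrix.mul_apply_eq_vecMul, Ab', vm, Ab, Matrix.one_apply]
  by_cases u : a = i
  · subst u
    by_cases v : a = e
    · subst v; simp [h]; norm_num
    · simp [h, v, Ne.symm v]
  · simp [Matrix.updateRow_apply, u, Matrix.one_apply]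

omit [Fintype κ] in
theorem ent (hi : CC om pos i) (h : Dir om pos i β) (a e : κ) :
    (|Ab i β a e| ≤ 3 ∧ |Ab' i β a e| ≤ 3) ∧
      (om a ≠ om e ∨ (¬pos a ∧ pos e) → Ab i β a e = 0 ∧ Ab' i β a e = 0) := by
  classical
  have b := abs_le.1 (h.2.1 e)
  unfold Ab Ab'
  simp only [Matrix.updateRow_apply, Matrix.one_apply, Pi.sub_apply, Pi.smul_apply,
    Pi.single_apply, smul_eq_mul]
  refine ⟨?_, fun z => ?_⟩
  · split_ifs <;> simp only [abs_le] <;> refine ⟨⟨?_, ?_⟩, ?_, ?_⟩ <;> linarith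
  · have n : a ≠ e := fun u => by subst u; tauto
    by_cases u : a = i
    · subst u
      have y : β e = 0 := by_contra fun y => z.elim (fun v => v (h.2.2 e y).2.symm) fun v => v.1 hi.1
      simp [y, n.symm]
    · simp [u, n]

theorem est {g g' D D' b s L E E1 E2 : ℝ} (h1 : |D - g| ≤ L * E) (h2 : |D - D' * b| ≤ 2 * E)
    (h3 : |D' - g'| ≤ L * E) (hb : |b| ≤ 1) (h4 : |g' * (b - s)| ≤ (L + 2) * E1 * (2 * E2))
    (h5 : E1 * E2 = E) : |g - g' * s| ≤ (4 * L + 6) * E := by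
  have h6 : |(D' - g') * b| ≤ L * E := by
    rw [abs_mul]
    exact (mul_le_of_le_one_right (abs_nonneg _) hb).trans h3
  have h7 : (L + 2) * E1 * (2 * E2) = (2 * L + 4) * E := by rw [← h5]; ring
  rw [h7] at h4
  rw [abs_le] at h1 h2 h4 h6 ⊢
  constructor <;> linarith [h1.1, h1.2, h2.1, h2.2, h4.1, h4.2, h6.1, h6.2]

end CD1A

open CD1A CD2A in
theorem rowCD1 : OfCD1 := fun hl hb hd hc hs ι κ _ _ _ Φ om pos x hT h0 K i A k b ρ w s' hK hi
    hD hk r0 w0 ws s1 => by
  classical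
  have W := wk h0
  have hM : Big (un x) := h0.alg.big
  have hD' : DirS om pos x i fun n ω => rw (x n).M w (b n ω) :=
    hD.mono fun n h ω hω => dir_rd (h ω hω) _
  refine ⟨hD', hs (pr x) (fun n ω => rw (x n).M w (b n ω)) (fun n s ω => cell (mB (Ab i s) (x n).B)
    (rA (sc (x n).M (dQ om pos i ρ (ρ + w)))) ((x n).j ω)) _ (un x)
    (hk.mono fun n h ω hω ω' hω' e =>
      congrArg _ (h ω hω ω' hω' (congrArg (fun z => z.2.2.1) e))) fun s hs => ?_⟩
  have gd : ∀ (y : ℕ → Sy ι κ), G0 Φ om pos y → ∀ d, GT om pos d → Gd y fun n => sc (y n).M d :=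
    fun y hy d g =>
    ((hl ι κ Φ om pos y hT hy).2.2.2 _ _ _ d d d g g g (apx_sc y d) (apx_sc y d) (apx_sc y d)).1
  have ds : ∀ᶠ n in UF, Dir om pos i (s n) := hD'.mono fun n h => by
    obtain ⟨ω, hω, e⟩ := hs n
    exact e ▸ h ω hω
  have h1 : G0 Φ om pos fun n => (x n).cond fun ω => rw (x n).M w (b n ω) = s n :=
    ⟨h0.alg, h0.unit.mono fun n h ω hω => h ω (cE_sub hω)⟩
  have s3 := hM.sub (C := 3) (by norm_num)
  have h2 := (hb ι κ Φ om pos _ hT h1 (fun n => Ab i (s n)) (fun n => Ab' i (s n))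
    ⟨ds.mono fun n h => CD1A.mul_one h.1,
      fun a e => ⟨ob_of_le s3 (ds.mono fun n h => (ent hi h a e).1.1),
        ob_of_le s3 (ds.mono fun n h => (ent hi h a e).1.2)⟩,
      fun a e z => ⟨neg_ev (ds.mono fun n h => ((ent hi h a e).2 z).1),
        neg_ev (ds.mono fun n h => ((ent hi h a e).2 z).2)⟩⟩).1
  have dp := hd ι κ Φ om pos x h0
  obtain ⟨L, hL, hC⟩ := hc ι κ Φ om pos x hT h0
  obtain ⟨L1, hL1, q1⟩ := (dp _ (gd x h0 _ (W.gt_dY le_rfl zero_le_one))).2
  obtain ⟨L2, hL2, q2⟩ := (dp _ (gd x h0 _ (W.gt_dU false hK.1))).2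
  have t1 : Sub (un x) fun n => L n * L2 n + 1 := (hL.mul hL2).add (hM.sub le_rfl) hM
  have rw1 : ρ + w ≤ 1 := ws.trans s1
  refine (hd ι κ Φ om pos _ h2 _ (gd _ h2 _ (W.gt_dQ i r0 (by linarith) rw1))).1 _ _ _
    ((((t1.const_mul hM (C := 4) (by norm_num)).add (hM.sub (C := 6) (by norm_num)) hM).add
      hL1 hM).add hL hM) ?_
  filter_upwards [hC 1, q1, q2, hD, hk, ds] with n c a1 a2 d f dn ω hω ω' hω' e
  have o := (mem_cE (hs n) ω).1 hω
  have o' := cE_sub hω'
  simp only [cn, Pi0, Prod.mk.injEq] at e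
  obtain ⟨e1, e2, e3, e4, e5, e6⟩ := e
  obtain ⟨g, g1, g2, -, -, -, g3⟩ := (c.2 ω o.1).2.2.2.2 ω' o' (congrArg Prod.fst e6)
  have g4 := a1 ω o.1 ω' o' g e4 g1
  have m0 : (0 : ℝ) ≤ (x n).M := Nat.cast_nonneg _
  have p := t1.pos n
  have p1 := hL1.pos n
  have p0 := hL.pos n
  have g5 : ∀ a, CC om pos a → ∀ a' r, 0 ≤ r → r ≤ 1 →
      |ga om pos (x n) ω' a - ga om pos (x n) ω a - g a| ≤
        (L n * L2 n + 1) * Real.exp (-(tc om pos a' * (r * (x n).M))) := fun a u a' r u0 u1 => by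
    have q := mul_le_mul_of_nonneg_left (p2_le hK (hL2.pos n).le (a2 ω o.1 ω' o' g e5 g1)) p0.le
    have q' := (g3 a u.2).1
    have q2 := mul_le_mul_of_nonneg_left (e_le W u0 u1 (x n).M a') p.le
    unfold ga
    rw [if_pos u, if_pos u]
    unfold dl at q'
    linarith
  have gi : |g i| ≤ (L n * L2 n + 1 + 2) * Real.exp (-(tc om pos i * (ρ * (x n).M))) := by
    have f1 := (abs_sub_lt_of_fl1_eq (congrFun e2 i)).le.trans (lo _ _)
    have f2 := g5 i hi i ρ r0 (by linarith)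
    rw [abs_le] at f1 f2 ⊢
    constructor <;> linarith [f1.1, f1.2, f2.1, f2.2]
  have sz : ∀ a, b n ω a = 0 → s n a = 0 := fun a z => o.2 ▸ rd_zero z
  refine ⟨fun a => g a - g i * (s n a - if i = a then 1 else 0), fun a => ?_, ?_⟩
  swap
  · refine g1.trans (congrArg _ ?_)
    rw [((sFr ι κ Φ (x n).B (x n).c).2 _ _ (CD1A.mul_one dn.1)).2.2.1]
    congr 1
    funext a
    rw [Ab, vm]
    simp [dn.1]
  by_cases ia : i = a
  · subst ia
    have r : rA (sc (x n).M (dQ om pos i ρ (ρ + w))) i =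
        Real.exp (-(tc om pos i * (ρ * (x n).M))) := by
      unfold rA sc dQ; rw [dF_cc hi, if_pos rfl, tc_pos hi, mul_assoc]
    simp only [if_true, dn.1, sub_self, mul_zero, sub_zero]
    rw [r]
    exact gi.trans (mul_le_mul_of_nonneg_right (by linarith) (Real.exp_pos _).le)
  simp only [if_neg ia, sub_zero]
  by_cases u : CC om pos a
  · have r : rA (sc (x n).M (dQ om pos i ρ (ρ + w))) a =
        Real.exp (-(tc om pos a * ((ρ + w) * (x n).M))) := by
      unfold rA sc dQ; rw [dF_cc u, if_neg (Ne.symm ia), tc_pos u, mul_assoc]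
    have ta := W.tc a
    have f1 := (abs_sub_lt_of_fl1_eq (congrFun e1 a)).le.trans (lo _ _)
    have f2 : Real.exp (-(tc om pos a * (s' * (x n).M))) ≤
        Real.exp (-(tc om pos a * ((ρ + w) * (x n).M))) := by gcongr; exact ta.1.le
    rw [← f ω o.1 ω' o' e3, abs_sub_comm] at f1
    rw [r]
    refine le_trans ?_ (mul_le_mul_of_nonneg_right (b := 4 * (L n * L2 n + 1) + 6) (by linarith)
      (Real.exp_pos _).le)
    refine est (E1 := Real.exp (-(tc om pos a * (ρ * (x n).M))))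
      (E2 := Real.exp (-(tc om pos a * (w * (x n).M)))) (g5 a u a _ (by linarith) rw1) ?_
      (g5 i hi a _ (by linarith) rw1) ((d ω o.1).2.1 a) ?_ (by rw [← Real.exp_add]; congr 1; ring)
    · refine le_trans (le_of_eq ?_) (f1.trans (by linarith))
      simp only [Pi.sub_apply, Pi.smul_apply, smul_eq_mul]
      congr 1; ring
    by_cases z : b n ω a = 0
    · rw [z, sz a z, sub_self, mul_zero, abs_zero]; positivity
    have y : tc om pos a = tc om pos i := by
      rw [tc_pos u, tc_pos hi, tt, tt, ((d ω o.1).2.2 a z).2]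
    have f5 : |b n ω a - s n a| ≤ 2 * Real.exp (-(w * (x n).M)) := by
      rw [← o.2]
      exact rd_near.trans (by rw [mul_div_assoc]; exact lo _ _)
    rw [abs_mul]
    refine mul_le_mul (y ▸ gi) (f5.trans ?_) (abs_nonneg _) (by positivity)
    exact mul_le_mul_of_nonneg_left (Real.exp_le_exp.2 (neg_le_neg
      (mul_le_of_le_one_left (mul_nonneg w0.le m0) ta.2))) two_pos.le
  · have z := sz a (by_contra fun y => u ((d ω o.1).2.2 a y).1)
    rw [z, mul_zero, sub_zero]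
    rcases tri om pos a with v | v | v
    · have r : rA (sc (x n).M (dQ om pos i ρ (ρ + w))) a = rA (sc (x n).M (dY om pos 1 0)) a := by
        unfold rA sc dY dQ; rw [dF_pp v, dF_pp v]
      rw [r]
      exact (g4 a).trans (mul_le_mul_of_nonneg_right (by linarith) (Real.exp_pos _).le)
    · exact absurd v u
    · have r : rA (sc (x n).M (dQ om pos i ρ (ρ + w))) a = 1 := by
        unfold rA sc dQ; rw [dF_st v]; simp
      rw [r, _root_.mul_one]
      exact ((norm_le_pi_norm g a).trans g2).trans (by linarith)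

end Pool.Agent.MP_5168f5_an.AN.TG.TA
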