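import Pool.Agent.MP_5168f5_an.AN.TAApi

/-! Kakeya sets in all dimensions: the cell of the positions and the central coordinates
determine each other. -/

namespace Pool.Agent.MP_5168f5_an.AN.TG.TA

open H19 H17S H17F G39 GA TL Filter H61Z

namespace CD2A

theorem lo (t u : ℝ) : ((2 : ℝ) ^ ⌊t * (u / H17S.lg)⌋₊)⁻¹ ≤ 2 * Real.exp (-(t * u)) := by
  have p : 0 < H17S.lg := Real.log_pos one_lt_two
  have a := mul_le_mul_of_nonneg_right (Nat.lt_floor_add_one (t * (u / H17S.lg))).le p.le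
  have e : t * (u / H17S.lg) * H17S.lg = t * u := by field_simp
  have e2 : (2 : ℝ) = Real.exp H17S.lg := (Real.exp_log two_pos).symm
  rw [two_pow_eq, ← Real.exp_neg]
  nth_rw 1 [e2]
  rw [← Real.exp_add]
  exact Real.exp_le_exp.2 (by linarith)

theorem hi {t u : ℝ} (h : 0 ≤ t * u) :
    Real.exp (-(t * u)) ≤ ((2 : ℝ) ^ ⌊t * (u / H17S.lg)⌋₊)⁻¹ := by
  have p : 0 < H17S.lg := Real.log_pos one_lt_two
  have e : t * (u / H17S.lg) * H17S.lg = t * u := by field_simp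
  have a := mul_le_mul_of_nonneg_right (Nat.floor_le (a := t * (u / H17S.lg))
    (by rw [← mul_div_assoc]; exact div_nonneg h p.le)) p.le
  rw [two_pow_eq, ← Real.exp_neg]
  exact Real.exp_le_exp.2 (by linarith)

variable {κ : Type} [Fintype κ] {om : κ → ℝ × ℝ} {pos : κ → Prop}

theorem p2_le {K L : ℝ} {m : ℕ} {g : κ → ℝ} (hK : Kb om K) (hL : 0 ≤ L)
    (h : Bx (rA (sc m (dU om false K))) L g) : ‖p2 om g‖ ≤ L * Real.exp (-(1 * (m : ℝ))) := by
  refine (pi_norm_le_iff_of_nonneg (by positivity)).2 fun a => ?_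
  unfold p2
  split_ifs with e
  · refine (h a).trans (mul_le_mul_of_nonneg_left (Real.exp_le_exp.2 (neg_le_neg ?_)) hL)
    unfold sc
    rw [dU_pos (k := false) e, e.1, zero_add]
    exact mul_le_mul_of_nonneg_right ((hK.2 a).2 e.2) (Nat.cast_nonneg _)
  · rw [norm_zero]; positivity

theorem r_cc {ρ : ℝ} {m : ℕ} {a : κ} (e : CC om pos a) :
    rA (sc m (dY om pos 1 ρ)) a = Real.exp (-(tc om pos a * (ρ * m))) := by
  unfold rA sc dY
  rw [dF_cc e, tc_pos e, mul_assoc]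

theorem e_le (w : WK om pos) {ρ : ℝ} (h0 : 0 ≤ ρ) (h1 : ρ ≤ 1) (m : ℕ) (a : κ) :
    Real.exp (-(1 * (m : ℝ))) ≤ Real.exp (-(tc om pos a * (ρ * m))) := by
  refine Real.exp_le_exp.2 (neg_le_neg ?_)
  rw [← mul_assoc]
  exact mul_le_mul_of_nonneg_right (mul_le_one₀ (w.tc a).2 h0 h1) (Nat.cast_nonneg _)

end CD2A

open CD2A in
theorem rowCD2 : OfCD2 := fun hl hd hc hf ι κ _ _ _ Φ om pos x hT h0 K ρ hK r0 r1 => by
  have w := wk h0
  have hM : Big (un x) := h0.alg.big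
  have gd : ∀ d, GT om pos d → Gd x fun n => sc (x n).M d := fun d g =>
    ((hl ι κ Φ om pos x hT h0).2.2.2 _ _ _ d d d g g g (apx_sc x d) (apx_sc x d) (apx_sc x d)).1
  have dp := hd ι κ Φ om pos x h0
  obtain ⟨L, hL, hC⟩ := hc ι κ Φ om pos x hT h0
  obtain ⟨L1, hL1, h1⟩ := (dp _ (gd _ (w.gt_dY le_rfl zero_le_one))).2
  obtain ⟨L2, hL2, h2⟩ := (dp _ (gd _ (w.gt_dU false hK.1))).2
  obtain ⟨L3, hL3, h3⟩ := (dp _ (gd _ (w.gt_dY r0 r1))).2
  have key : ∀ᶠ n in UF, ∀ ω ∈ (x n).P.S, ∀ ω' ∈ (x n).P.S,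
      Pi0 om pos (x n) K ω = Pi0 om pos (x n) K ω' → ∃ g : κ → ℝ,
        (x n).j ω' = (x n).j ω * ex (x n).B g ∧ ‖g‖ ≤ L n ∧
        Bx (rA (sc (x n).M (dY om pos 1 0))) (L1 n) g ∧ ∀ a, CC om pos a →
          |ga om pos (x n) ω' a - ga om pos (x n) ω a - g a| ≤
            (L n * L2 n + 1) * Real.exp (-(tc om pos a * (ρ * (x n).M))) := by
    filter_upwards [hC 1, h1, h2] with n c a b ω hω ω' hω' e
    simp only [Pi0, Prod.mk.injEq] at e
    obtain ⟨g, g1, g2, -, -, -, g3⟩ := (c.2 ω hω).2.2.2.2 ω' hω' (congrArg Prod.fst e.2.2)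
    refine ⟨g, g1, g2, a ω hω ω' hω' g e.1 g1, fun i hi => ?_⟩
    have q := mul_le_mul_of_nonneg_left (p2_le hK (hL2.pos n).le (b ω hω ω' hω' g e.2.1 g1))
      (hL.pos n).le
    have q' := (g3 i hi.2).1
    have q2 := mul_le_mul_of_nonneg_left (e_le w r0 r1 (x n).M i)
      (add_pos (mul_pos (hL.pos n) (hL2.pos n)) one_pos).le
    unfold ga
    rw [if_pos hi, if_pos hi]
    unfold dl at q'
    linarith
  have s1 : Sub (un x) fun n => L n * L2 n + 1 := (hL.mul hL2).add (hM.sub le_rfl) hM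
  refine ⟨(dp _ (gd _ (w.gt_dY r0 r1))).1 _ _ _
    (((s1.add (hM.sub one_le_two) hM).add hL1 hM).add hL hM) ?_,
    hf κ (pr x) _ (fun n => ga om pos (x n)) _ (un x) _ hM (s1.add hL3 hM) ?_⟩
  · filter_upwards [key] with n k ω hω ω' hω' e
    obtain ⟨e1, e2⟩ := Prod.mk.inj e
    obtain ⟨g, g1, g2, g3, g4⟩ := k ω hω ω' hω' e2
    have p := s1.pos n
    have p1 := hL1.pos n
    have p0 := hL.pos n
    refine ⟨g, fun a => ?_, g1⟩
    rcases tri om pos a with u | u | u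
    · have e3 : rA (sc (x n).M (dY om pos 1 ρ)) a = rA (sc (x n).M (dY om pos 1 0)) a := by
        unfold rA sc dY; rw [dF_pp u, dF_pp u]
      rw [e3]
      exact (g3 a).trans (mul_le_mul_of_nonneg_right (by linarith) (Real.exp_pos _).le)
    · have f := ((abs_sub_lt_of_fl1_eq (congrFun e1 a)).le.trans (lo _ _))
      have f2 := g4 a u
      have f3 := mul_pos (add_pos p1 p0) (Real.exp_pos (-(tc om pos a * (ρ * (x n).M))))
      rw [r_cc u]
      rw [abs_le] at f f2 ⊢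
      constructor <;> linarith [f.1, f.2, f2.1, f2.2]
    · have e3 : rA (sc (x n).M (dY om pos 1 ρ)) a = 1 := by
        unfold rA sc dY; rw [dF_st u]; simp
      rw [e3, mul_one]
      exact ((norm_le_pi_norm g a).trans g2).trans (by linarith)
  · filter_upwards [key, h3] with n k b ω hω ω' hω' e a
    obtain ⟨e1, e2⟩ := Prod.mk.inj e
    obtain ⟨g, g1, -, -, g4⟩ := k ω hω ω' hω' e2
    have p := (s1.add hL3 hM).pos n
    by_cases u : CC om pos a
    · have f := b ω hω ω' hω' g e1 g1 a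
      have f2 := g4 a u
      rw [r_cc u] at f
      rw [div_eq_mul_inv]
      refine le_trans ?_ (mul_le_mul_of_nonneg_left (hi (t := tc om pos a) (u := ρ * (x n).M)
        (mul_nonneg (w.tc a).1.le (mul_nonneg r0 (Nat.cast_nonneg _)))) p.le)
      rw [abs_le] at f f2 ⊢
      constructor <;> linarith [f.1, f.2, f2.1, f2.2]
    · unfold ga
      rw [if_neg u, if_neg u, sub_self, abs_zero]
      positivity

end Pool.Agent.MP_5168f5_an.AN.TG.TA
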