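import Pool.Agent.MP_5168f5_an.AN.TAApi

/-! Kakeya sets in all dimensions: refinements of minimal systems are minimal. -/

namespace Pool.Agent.MP_5168f5_an.AN.TG.TA

open H19 H17S H17F G39 GA TL Filter H61Z
open R4 (Eqv)
open R4.K31 (DnS)

theorem rowClR : OfClR := by
  intro kit push ι κ _ _ _ Φ om pos x C m hM hL W Q ρ ⟨C0, c1, hD⟩
  have c0 : 0 < C0⁻¹ := inv_pos.2 (one_pos.trans_le c1)
  have hT : ∀ n, ∃ T : FP ((x n).Ω × Bool), R4.K31.Dn C0 (Q n) (ρ n) (x n).P →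
      Law T Prod.fst (x n).P id ∧ pb T (fun v => v.2 = true) = C0⁻¹ ∧
        Law (cE T fun v => v.2 = true) Prod.fst (Q n) (ρ n) := fun n => by
    by_cases h : R4.K31.Dn C0 (Q n) (ρ n) (x n).P
    · exact h.split.imp fun T t _ => t
    · exact ⟨(R4.K31.dn_rfl (x n).P).split.choose, fun t => absurd t h⟩
  choose T hT using hT
  have e := hD.mono fun n h => hT n h
  have g1 := kit.pull ι κ Φ om pos x C hM.1 _ T (fun _ => Prod.fst) (e.mono fun _ h => h.1)
  have g2 := kit.cond ι κ Φ om pos _ C g1 (fun _ v => v.2 = true)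
    ⟨_, c0, e.mono fun _ h => h.2.1.ge⟩
  refine ⟨push ι κ Φ om pos x C _ W (fun n => cE (T n) fun v => v.2 = true) (fun _ => Prod.fst) Q ρ
    (e.mono fun _ h => h.2.2) g2, ?_⟩
  refine R4.ks.event (un x) (fun n => pb (T n) fun v => v.2 = true) (fun n => JJ om pos (x n)) _
    (fun n => JJ om pos (((x n).pull (T n) Prod.fst).cond fun v => ¬v.2 = true)) _ |m| _ c0
    (e.mono fun n h => ⟨h.2.1.ge, pb_le_one _ _, ch_nonneg _ _, ?_, ?_⟩) hM.2 fun ⟨k, k0, k1⟩ => ?_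
  · rw [abs_mul, Nat.abs_cast]
  · have h4 := R4.ke.ge (T n) (fun v => v.2 = true) (fun v => Cl (x n) (dY om pos 1 1) v.1)
      fun v => Zl (x n) (dY om pos 1 0) v.1
    rw [h.1.ch_id, h.2.2.ch_eq] at h4
    exact h4
  · exact hL _ (kit.cond ι κ Φ om pos _ C g1 (fun _ v => ¬v.2 = true)
      ⟨k, k0, k1.mono fun n h => by rwa [pb_not]⟩)

end Pool.Agent.MP_5168f5_an.AN.TG.TA
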