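import Pool.Agent.MP_5168f5_an.AN.TAApi

/-! Kakeya sets in all dimensions: coordinates of two points of the top cell. -/

namespace Pool.Agent.MP_5168f5_an.AN.TG.TA

open H19 H17S H17F G39 GA TL Filter H61Z

namespace CrdA

variable {κ : Type} [Fintype κ] (om : κ → ℝ × ℝ) {c : κ → κ → κ → ℝ} {L : ℝ}

theorem p1_le (x : κ → ℝ) : ‖p1 om x‖ ≤ ‖x‖ :=
  (pi_norm_le_iff_of_nonneg (norm_nonneg _)).2 fun a => by
    unfold p1; split_ifs
    exacts [norm_le_pi_norm x a, norm_zero.trans_le (norm_nonneg _)]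

theorem p2_le (x : κ → ℝ) : ‖p2 om x‖ ≤ ‖x‖ :=
  (pi_norm_le_iff_of_nonneg (norm_nonneg _)).2 fun a => by
    unfold p2; split_ifs
    exacts [norm_le_pi_norm x a, norm_zero.trans_le (norm_nonneg _)]

omit [Fintype κ] in
theorem p1_add (x y : κ → ℝ) : p1 om (x + y) = p1 om x + p1 om y := by
  funext a; simp only [p1, Pi.add_apply]; split_ifs <;> simp

omit [Fintype κ] in
theorem p2_add (x y : κ → ℝ) : p2 om (x + y) = p2 om x + p2 om y := by
  funext a; simp only [p2, Pi.add_apply]; split_ifs <;> simp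

omit [Fintype κ] in
theorem p1_sub (x y : κ → ℝ) : p1 om x - p1 om y = p1 om (x - y) := by
  rw [sub_eq_iff_eq_add, ← p1_add, sub_add_cancel]

omit [Fintype κ] in
theorem p2_sub (x y : κ → ℝ) : p2 om x - p2 om y = p2 om (x - y) := by
  rw [sub_eq_iff_eq_add, ← p2_add, sub_add_cancel]

theorem cc_le (hL : 0 ≤ L) (hc : ∀ a b e, |c a b e| ≤ L) (x y : κ → ℝ) (e : κ) {A B : ℝ}
    (hx : ‖p1 om x‖ ≤ A) (hy : ‖p2 om y‖ ≤ B) :
    |cc om c x y e| ≤ (Fintype.card κ : ℝ) ^ 2 * L * A * B := by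
  have s : ∀ (f : κ → ℝ) (t : ℝ), (∀ i, |f i| ≤ t) → |∑ i, f i| ≤ Fintype.card κ * t :=
    fun f t h => (Finset.abs_sum_le_sum_abs _ _).trans
      ((Finset.sum_le_card_nsmul _ _ t fun i _ => h i).trans_eq (by simp))
  have m : ∀ {x y c e : ℝ}, |x| ≤ c → |y| ≤ e → |x * y| ≤ c * e := fun h h' =>
    (abs_mul _ _).trans_le (mul_le_mul h h' (abs_nonneg _) ((abs_nonneg _).trans h))
  refine (s _ _ fun a => s _ (L * A * B) fun b => m (m ?_ ((norm_le_pi_norm _ a).trans hx))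
    ((norm_le_pi_norm _ b).trans hy)).trans_eq (by ring)
  unfold cH; split_ifs
  exacts [hc a b e, abs_zero.trans_le hL]

theorem cc_ex (x g ρ : κ → ℝ) (e : κ) : cc om c (x + g + ρ) (x + g + ρ) e =
    cc om c x x e + cc om c g x e + cc om c x g e + cc om c g g e +
      (cc om c ρ x e + cc om c ρ g e + cc om c (x + g + ρ) ρ e) := by
  simp only [cc, p1_add, p2_add, br_add_left, br_add_right, Pi.add_apply]; ring

variable {ι : Type} [Fintype ι] [DecidableEq ι] {Φ : Filt (Mt ι)}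

theorem top {x : Sy ι κ} (fr : IsFr Φ x.B x.c) {ω : x.Ω} (u : IsUnit (x.j ω)) :
    ‖xc x ω‖ ≤ 1 ∧ x.j ω = Cl x 0 ω * ex x.B (xc x ω) ∧ IsUnit (Cl x 0 ω) := by
  have m := sMul _ _ Φ _ _ fr
  obtain ⟨K, -, h⟩ := sCell Φ.N (Fintype.card κ)
  obtain ⟨t, b, e⟩ := (h ι κ Φ x.B x.c (rA (sc x.M 0)) (rA (sc x.M 0)) 1 rfl le_rfl fr le_rfl
    fun a => ⟨Real.exp_pos _, (one_mul _).ge⟩).1 (x.j ω)
  change x.j ω = Cl x 0 ω * _ at e
  have u' : IsUnit (Cl x 0 ω) := by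
    have : Cl x 0 ω = x.j ω * ex x.B (-t) := by
      conv_rhs => rw [e, mul_assoc, (m.neg t).2, mul_one]
    rw [this]
    exact u.mul ⟨⟨_, _, (m.neg t).1, (m.neg t).2⟩, rfl⟩
  have e' : xc x ω = t := by
    unfold xc
    conv_lhs => arg 3; rw [e]
    exact m.lg _ t u'
  rw [e']
  exact ⟨(pi_norm_le_iff_of_nonneg zero_le_one).2 fun a => by simpa [rA, sc] using b a, e, u'⟩

end CrdA

open CrdA in
theorem rowCrd : Crd := by
  intro ι κ _ _ _ Φ om pos x hT h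
  have hM := h.alg.big
  obtain ⟨L₀, s₀, b₀⟩ := ob_bound hM (J := κ × κ × κ) (f := fun j n => (x n).c j.1 j.2.1 j.2.2)
    fun j => h.alg.ob _ _ _
  obtain ⟨K₀, k1, hB⟩ := sBox Φ.N (Fintype.card κ)
  have s₁ := sub_box hM s₀ k1
  obtain ⟨L₂, s₂, b₂⟩ := tLip ι κ _ Φ om pos _ _ _ h.alg s₁
  have q0 : (0 : ℝ) ≤ (Fintype.card κ : ℝ) ^ 2 := by positivity
  refine ⟨_, ((s₀.add s₁ hM).add s₂ hM).add ((s₀.mul s₁).const_mul hM
    (C := 2 * (Fintype.card κ : ℝ) ^ 2 + 1) (by linarith)) hM, fun K => ?_⟩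
  filter_upwards [h.alg.fr, h.unit, b₂ K, tLaw ι κ _ Φ om pos _ _ _ h.alg hT s₁ (K + 1),
    dl_lt hM (K := 1 / 4) (c := 1) (by norm_num) one_pos] with n fr un b₂ lw dk
  have m := sMul _ _ Φ _ _ fr
  have a₀ := s₀.1 n
  have a₁ : 1 ≤ (K₀ * L₀ n) ^ K₀ := s₁.1 n
  have a₂ := s₂.1 n
  have hc : ∀ a b e, |(x n).c a b e| ≤ L₀ n := fun a b e => b₀ n (a, b, e)
  have d4 : 4 * dl (TG.un x) (K + 1) n ≤ dl (TG.un x) K n := by
    rw [dl_add]; nlinarith [dl_pos (TG.un x) K n]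
  have d0 := dl_pos (TG.un x) (K + 1) n
  have bx : ∀ s t : κ → ℝ, ‖s‖ ≤ 1 → ‖t‖ ≤ 1 → ‖bch Φ.N (x n).c s t‖ ≤ (K₀ * L₀ n) ^ K₀ :=
    fun s t hs ht => by
      have i : Idl (x n).c 1 1 (L₀ n) := fun a b e => by simpa using hc a b e
      have b : ∀ s : κ → ℝ, ‖s‖ ≤ 1 → Bx 1 (L₀ n) s := fun s hs a => by
        simpa using ((norm_le_pi_norm s a).trans hs).trans a₀
      exact (pi_norm_le_iff_of_nonneg (by linarith)).2 fun a => by
        simpa using (hB κ _ 1 1 _ 0 s t s t le_rfl a₀ le_rfl (by simp) m.anti i i (b s hs) (b t ht)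
          (b s hs) (b t ht)).1 a
  generalize (K₀ * L₀ n) ^ K₀ = L₁ at a₁ b₂ lw bx ⊢
  have cl := cc_le om (zero_le_one.trans a₀) hc
  generalize (Fintype.card κ : ℝ) ^ 2 = q at q0 cl ⊢
  have c0 : 0 ≤ q * L₀ n := by positivity
  have c1 : q * L₀ n ≤ q * L₀ n * L₁ := le_mul_of_one_le_right c0 a₁
  have c2 : 1 ≤ L₀ n * L₁ := one_le_mul_of_one_le_of_one_le a₀ a₁
  have c3 : ∀ {z : ℝ}, 0 ≤ z → L₂ n * z ≤ (L₀ n + L₁ + L₂ n + (2 * q + 1) * (L₀ n * L₁)) * z ∧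
      q * L₀ n * z + q * L₀ n * L₁ * z ≤ (L₀ n + L₁ + L₂ n + (2 * q + 1) * (L₀ n * L₁)) * z :=
    fun z => ⟨mul_le_mul_of_nonneg_right (by linarith) z, by
      rw [← add_mul]; exact mul_le_mul_of_nonneg_right (by linarith) z⟩
  refine ⟨fun a b e => (hc a b e).trans (by linarith), fun ω hω => ?_⟩
  obtain ⟨n1, e1, u1⟩ := top fr (un ω hω)
  refine ⟨n1, (pi_norm_le_iff_of_nonneg (by linarith)).2 fun e => ?_, e1, u1,
    fun ω' hω' ec => ?_⟩
  · have a := abs_le.1 (cl _ _ e ((p1_le om _).trans n1) ((p2_le om _).trans n1))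
    have b := abs_le.1 ((norm_le_pi_norm _ e).trans n1)
    simp only [gam, Pi.add_apply, Pi.smul_apply, Rat.smul_def, Real.norm_eq_abs]
    push_cast
    exact abs_le.2 ⟨by linarith, by linarith⟩
  obtain ⟨n2, e2, -⟩ := top fr (un ω' hω')
  rw [← ec] at e2
  generalize xc (x n) ω = s at n1 e1 ⊢
  generalize xc (x n) ω' = t at n2 e2 ⊢
  have ng := bx (-s) t (by rwa [norm_neg]) n2
  have eg : t = bch Φ.N (x n).c s (bch Φ.N (x n).c (-s) t) := by
    rw [← m.assoc, (m.inv s).2, (m.one t).2]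
  refine ⟨bch Φ.N (x n).c (-s) t, by rw [e1, e2, mul_assoc, m.mul, ← eg],
    ng.trans (by linarith), eg, ?_⟩
  generalize bch Φ.N (x n).c (-s) t = g at ng eg ⊢
  have b := b₂ s g (n1.trans a₁) ng
  have w := fun y hy => lw s g y (n1.trans a₁) ng hy
  rw [← eg] at b w
  have g1 := c3 (norm_nonneg (p1 om g))
  have g2 := c3 (norm_nonneg (p2 om g))
  refine ⟨by rw [p1_sub]; linarith [b.1], by rw [p2_sub]; linarith [b.2.1], fun e he => ?_⟩
  have w0 := abs_le.1 (w g ng e he).1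
  have w1 := abs_le.1 (w s (n1.trans a₁) e he).2.1
  have w2 := abs_le.1 (w g ng e he).2.1
  have w3 := abs_le.1 (w t (n2.trans a₁) e he).2.2.1
  have v1 := abs_le.1 (cl s g e ((p1_le om _).trans n1) le_rfl)
  have v2 := abs_le.1 (cl g g e ((p1_le om _).trans ng) le_rfl)
  have v3 := abs_le.1 (cl g s e le_rfl ((p2_le om _).trans n1))
  have v4 := abs_le.1 (cl g g e le_rfl ((p2_le om _).trans ng))
  have z := cc_ex om (c := (x n).c) s g (t - s - g) e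
  rw [show s + g + (t - s - g) = t by abel] at z
  exact ⟨abs_le.2 ⟨by linarith, by linarith⟩, abs_le.2 ⟨by linarith, by linarith⟩⟩

end Pool.Agent.MP_5168f5_an.AN.TG.TA
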