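import Pool.Agent.MP_5168f5_an.AN.TAApi

/-! Kakeya sets in all dimensions: the terminal case, a deficient window. -/

namespace Pool.Agent.MP_5168f5_an.AN.TG.TA

open H19 H17S H17F G39 GA TL Filter H61Z

namespace Def1A

variable {κ : Type} [Fintype κ] {om : κ → ℝ × ℝ} {pos : κ → Prop}

theorem sum_up (r : ℝ) : ∑ a, up 0 r pos a = cd pos * r := by
  classical
  simp [up, cd, ← Finset.sum_filter]

omit [Fintype κ] in
theorem dep_zero : dep om 0 = 0 := funext fun _ => by simp [dep]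

theorem up_le {r ρ : ℝ} (h : r ≤ ρ) (h' : ∀ a, Mx om a → r ≤ tt om a * ρ) :
    up 0 r pos ≤ dY om pos ρ ρ := fun a => by
  unfold dY up
  rcases tri om pos a with e | e | e
  · rw [dF_pp e, if_pos e.1]; simpa using h
  · rw [dF_cc e, if_pos e.1]; simpa using h' a e.2
  · rw [dF_st e, if_neg e]; rfl

theorem dY_le (h : WK om pos) : dY om pos 1 0 ≤ dY om pos 1 1 := fun a => by
  unfold dY dF
  split_ifs
  exacts [le_rfl, by simpa using h.tt_nn a, le_rfl]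

end Def1A

open Def1A in
theorem rowDef1 : OfDef1 := by
  intro lk pf zm ι κ _ _ _ Φ om pos x hT h0 C hS nf
  have W := wk h0
  obtain ⟨-, pm, z0, -⟩ := lk ι κ Φ om pos x hT h0
  obtain ⟨p1, p2⟩ := pf ι κ Φ om pos x hT h0
  obtain ⟨r, hr⟩ := not_forall.1 (mt p2.2 nf)
  obtain ⟨r0, hr⟩ := Classical.not_imp.1 hr
  obtain ⟨ρ, ρ0, ρ1, ρ2⟩ := ((eventually_gt_atTop (0 : ℝ)).and ((eventually_ge_atTop r).and
    (eventually_all.2 fun a => eventually_imp_distrib_left.2 fun e : Mx om a =>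
      (tendsto_id.const_mul_atTop (W.tt_pos e)).eventually_ge_atTop r))).exists
  have a := pm.lip _ _ (W.gt_up gt_zero r0).1 (W.gt_dY ρ0.le le_rfl) (up_le ρ1 ρ2)
  have b := p1 C hS 0 ρ le_rfl le_rfl ρ0.le
  obtain ⟨gy, -, -, z⟩ := zm ι κ Φ om pos x hT h0 C hS 0 ρ le_rfl le_rfl ρ0
  have g0 := W.gt_dY (K := 1) le_rfl zero_le_one
  have g1 := W.gt_dY (K := 1) zero_le_one le_rfl
  have c := (z _).2.2 g0
  have d := (z _).2.2 g1
  have e := ((lk ι κ Φ om pos _ hT gy.toG0).2.2.2 _ _ _ _ _ _ g1 g0 g0 (apx_sc _ _) (apx_sc _ _)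
    (apx_sc _ _)).2.1.1
  rw [sup_eq_left.2 (dY_le W)] at e
  rw [Finset.sum_sub_distrib, sum_dY, sum_up] at a
  rw [dep_zero, zero_add, ← dY_zero] at b
  rw [dep_zero, zero_add, smul_dY, mul_one] at c d
  rw [mul_zero] at c
  exact ⟨_, _, lt_of_mul_lt_mul_left (by linarith [not_le.1 hr]) ρ0.le, gy, e⟩

end Pool.Agent.MP_5168f5_an.AN.TG.TA
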