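import Pool.Agent.MP_5168f5_an.AN.TAApi

/-! Kakeya sets in all dimensions: close vectors have few roundings. -/

namespace Pool.Agent.MP_5168f5_an.AN.TG.TA

open H19 H17S H17F G39 GA TL Filter H61Z

theorem rowDetF : DetF := by
  intro ι _ Ω β P Y f r M L hM hL h
  have e : ∀ n, (fun ω a => fl1 (r n a) (f n ω a)) =
      fun ω => flv 0 fun a => (2 : ℝ) ^ r n a * f n ω a := fun n => by
    funext ω a; simp only [flv, fl1, pow_zero, one_mul]
  simp only [e]
  refine Sm.near (j := fun _ => 0) hM hL (h.mono fun n c ω hω ω' hω' y => ?_)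
  rw [pow_zero, div_one]
  refine (pi_norm_le_iff_of_nonneg (hL.pos n).le).2 fun a => ?_
  have p0 : (0 : ℝ) < 2 ^ r n a := by positivity
  rw [Pi.sub_apply, ← mul_sub, Real.norm_eq_abs, abs_mul, abs_of_pos p0, ← le_div_iff₀' p0]
  exact c ω hω ω' hω' y a

end Pool.Agent.MP_5168f5_an.AN.TG.TA
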