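import Pool.Agent.MP_5168f5_an.AN.TAApi
import Pool.Agent.MP_5168f5_an.AN.GOBr

/-! Kakeya sets in all dimensions: the terminal case, entropy rates of cells. -/

namespace Pool.Agent.MP_5168f5_an.AN.TG.TA

open H19 H17S H17F G39 GA TL Filter H61Z
open R4 (Eqv)

theorem rowLnk : Lnk := by
  intro ι κ _ _ _ Φ om pos x hT h
  have cen := ((tl2 ι κ _ Φ om pos _ _ h.alg).2 hT).2
  have gd : ∀ d, GT om pos d → GO.Gd om (GO.Ng (un x) fun n => (x n).c) d := fun d g => by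
    refine ⟨fun a b e l => ?_, g.nn, g.dead⟩
    have e0 : om e ≠ 0 := fun z => by linarith [g.dead e z, g.nn a, g.nn b]
    by_cases u : Hm om a b e
    swap
    · exact h.alg.hom a b e e0 u
    by_cases v : Mx om a
    · exact cen a v b e e0
    by_cases w : Mx om b
    · intro K
      filter_upwards [cen b w a e e0 K, h.alg.fr] with n y z
      rwa [(sMul ι κ Φ _ _ z).anti, abs_neg]
    by_cases y : pos a ∨ pos b ∨ ¬pos e
    · exact absurd (g.id a b e u v w y) (not_le.2 l)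
    · push Not at y
      exact h.alg.sub a b e y.1 y.2.1 y.2.2
  have pm := GO.g_pm h
  refine ⟨gd, ⟨fun _ _ a b => a.sup b, fun _ _ a b => pm.mono _ _ (gd _ a) (gd _ b),
    fun _ _ a b => pm.lip _ _ (gd _ a) (gd _ b),
    fun _ _ _ a b c => pm.sub _ _ _ (gd _ a) (gd _ b) (gd _ c)⟩,
    R4.Eqv.rt_eq h.alg.big ?_, fun D D1 D2 d d1 d2 g g1 g2 a a1 a2 => ?_⟩
  · simp only [ch_zero (Fn.fst _ _), zero_mul]
    exact R4.Eqv.rfl
  have p := GO.Aq.ap a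
  have p1 := GO.Aq.ap a1
  have p2 := GO.Aq.ap a2
  refine ⟨GO.GOh1A.idr sIdR h.alg.big h.alg.ob (gd _ g) p, GO.g_H h (gd _ g1) (gd _ g) a1 a,
    hc1 ι κ _ Φ om pos _ _ _ (pr x) _ h.alg h.unit d d1 d2 _ _ _ (gd _ g) (gd _ g1) (gd _ g2)
      p p1 p2, fun l => ?_⟩
  have h1 := GO.g_H h (gd _ g2) (gd _ g) a2 a
  have h2 := (hc2 ι κ _ Φ om pos _ _ _ _ (pr x) _ (fun n => (x n).Θ) h.alg h.unit).2 d2 d1 d _ _ _
    (gd _ g2) (gd _ g1) (gd _ g) p2 p1 p l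
  exact ⟨h1.1.of2 h2.2 (Eventually.of_forall fun n => le_of_eq (by
      simp only [mi, Sy.H, Hx, GO.Hx]; unfold Sy.Z Sy.C; ring)),
    h1.2.of2 h2.1 (Eventually.of_forall fun n => le_of_eq (by
      simp only [mi, Sy.H, Hx, GO.Hx]; unfold Sy.Z Sy.C; ring))⟩

end Pool.Agent.MP_5168f5_an.AN.TG.TA
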