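import Pool.Agent.MP_5168f5_an.AN.TAApi

/-! Kakeya sets in all dimensions: the terminal case, the minimal rate is attained. -/

namespace Pool.Agent.MP_5168f5_an.AN.TG.TA

open H19 H17S H17F G39 GA TL Filter H61Z
open R4 (Eqv)

namespace Min1A

theorem near {M : ℕ → ℕ} (hM : Big M) {f : ℕ → ℝ} {r : ℝ} (h : Eqv M f fun n => r * M n) {ε : ℝ}
    (hε : 0 < ε) : ∀ᶠ n in UF, -(f n / M n) ≤ -r + ε ∧ -r ≤ -(f n / M n) + ε := by
  filter_upwards [h.1 ε hε, h.2 ε hε, hM.ev 1] with n a b c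
  have c' : (0 : ℝ) < M n := by linarith
  have u : f n / M n ≤ r + ε := (div_le_iff₀ c').2 (by linarith)
  have v : r - ε ≤ f n / M n := (le_div_iff₀ c').2 (by linarith)
  constructor <;> linarith

variable {ι κ : Type} [Fintype ι] [DecidableEq ι] [Fintype κ] {Φ : Filt (Mt ι)}
  {om : κ → ℝ × ℝ} {pos : κ → Prop}

theorem rate (L : Lnk) (hT : Term om) {y : ℕ → Sy ι κ} (h : G0 Φ om pos y) :
    ∃ r : ℝ, 0 ≤ r ∧ r ≤ ∑ a, ((dY om pos 1 1 ⊔ dY om pos 1 0) a - dY om pos 1 0 a) ∧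
      Eqv (un y) (fun n => JJ om pos (y n)) fun n => r * (y n).M := by
  obtain ⟨-, p, -, e⟩ := L ι κ Φ om pos y hT h
  have g1 := (wk h).gt_dY zero_le_one (le_refl (1 : ℝ))
  have g0 := (wk h).gt_dY (le_refl (0 : ℝ)) zero_le_one
  refine ⟨_, ?_, ?_, (e _ _ _ _ _ _ g1 g0 g0 (apx_sc y _) (apx_sc y _) (apx_sc y _)).2.1⟩
  · exact sub_nonneg.2 (p.mono _ _ g0 (g1.sup g0) le_sup_right)
  · exact sub_le_iff_le_add'.2 (p.lip _ _ g0 (g1.sup g0) le_sup_right)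

end Min1A

open Min1A in
theorem rowMin1 : OfMin1 := by
  intro K L ι κ _ _ _ Φ om pos x hT _ C m hx
  obtain ⟨y, hy, o⟩ := (K.cf ι κ Φ om pos x C).sup (fun _ z => -(JJ om pos z / z.M))
    (∑ a, ((dY om pos 1 1 ⊔ dY om pos 1 0) a - dY om pos 1 0 a) + 1) ⟨x, hx.1⟩ fun z hz => by
      obtain ⟨r, r0, r1, e⟩ := rate L hT hz.toG0
      filter_upwards [near hz.alg.big e one_pos] with n a
      rw [abs_le]; constructor <;> linarith [a.1, a.2]
  obtain ⟨r, r0, -, e⟩ := rate L hT hy.toG0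
  have low : Low Φ om pos C r := fun z hz => by
    obtain ⟨s, -, -, e'⟩ := rate L hT hz.toG0
    refine (rate_le (le_of_forall_pos_le_add fun ε hε => ?_)).trans e'.2
    have h3 : 0 < ε / 3 := by positivity
    obtain ⟨n, a, b, c⟩ := ((o z hz _ h3).and ((near hy.alg.big e h3).and
      (near hz.alg.big e' h3))).exists
    linarith [b.1, c.2]
  exact ⟨r, y, r0, le_of_rate hx.1.alg.big ((low x hx.1).trans hx.2), ⟨hy, e.1⟩, low⟩

end Pool.Agent.MP_5168f5_an.AN.TG.TA
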