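import Pool.Agent.MP_5168f5_an.AN.TAApi
import Pool.Agent.MP_5168f5_an.AN.G39Ch

/-! Kakeya sets in all dimensions: fullness modulo a direction. -/

namespace Pool.Agent.MP_5168f5_an.AN.TG.TA

open H19 H17S H17F G39 GA TL Filter H61Z

namespace NGBA

open Classical

variable {ι κ : Type} [Fintype ι] [DecidableEq ι] [Fintype κ] {Φ : Filt (Mt ι)}
  {om : κ → ℝ × ℝ} {pos : κ → Prop} {x : ℕ → Sy ι κ} {i : κ}

theorem inv {β : κ → ℝ} (h : β i = 1) : Ab i β * Ab' i β = 1 := by
  ext a e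
  rw [Ab, Matrix.updateRow_mul, Matrix.one_mul, Matrix.updateRow_apply]
  split_ifs with k
  · subst k
    have : ∀ b, β b * Ab' a β b e = β b * (1 : Matrix κ κ ℝ) b e +
        if b = a then (1 : Matrix κ κ ℝ) a e - β e else 0 := fun b => by
      rw [Ab', Matrix.updateRow_apply]
      split_ifs with u
      · subst u
        simp only [h, Matrix.one_apply, Pi.sub_apply, Pi.smul_apply, Pi.single_apply, eq_comm]
        split_ifs <;> norm_num
        ring
      · rw [add_zero]
    simp [Matrix.vecMul, dotProduct, this, Finset.sum_add_distrib, Matrix.one_apply]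
  · rw [Ab', Matrix.updateRow_apply, if_neg k]

omit [Fintype ι] [DecidableEq ι] in
theorem chg (hM : Big (un x)) (hi : CC om pos i) {β : ℕ → κ → ℝ}
    (h : ∀ᶠ n in UF, Dir om pos i (β n)) :
    Chg om pos x (fun n => Ab i (β n)) fun n => Ab' i (β n) := by
  refine ⟨h.mono fun n k => inv k.1, fun a e => ⟨ob_congr (ob_const hM 3) (h.mono fun n k => ?_),
    ob_congr (ob_const hM 3) (h.mono fun n k => ?_)⟩, fun a e u => ?_⟩
  · have := abs_le.1 (k.2.1 e)
    simp only [Ab, Matrix.updateRow_apply, Matrix.one_apply, abs_le]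
    split_ifs <;> norm_num
    constructor <;> linarith
  · have := abs_le.1 (k.2.1 e)
    simp only [Ab', Matrix.updateRow_apply, Matrix.one_apply, abs_le, Pi.sub_apply, Pi.smul_apply,
      Pi.single_apply]
    split_ifs <;> norm_num <;> constructor <;> linarith
  · have v : a ≠ e := by rintro rfl; tauto
    have w : ∀ᶠ n in UF, a = i → β n e = 0 := h.mono fun n k z => by_contra fun y => by
      subst z
      exact u.elim (fun t => t (k.2.2 e y).2.symm) fun t => t.1 hi.1
    refine ⟨neg_ev (w.mono fun n k => ?_), neg_ev (w.mono fun n k => ?_)⟩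
    · simp only [Ab, Matrix.updateRow_apply]
      split_ifs with z
      exacts [k z, Matrix.one_apply_ne v]
    · simp only [Ab', Matrix.updateRow_apply]
      split_ifs with z
      · simp [k z, (z ▸ v : i ≠ e).symm]
      · exact Matrix.one_apply_ne v

theorem sum_dQ (hi : CC om pos i) :
    ∑ a, dQ om pos i 0 1 a = cd (PP om pos) + (TT om pos - tt om i) := by
  have e : ∀ a, dF om pos 0 (fun a => if a = i then tt om a * 0 else tt om a * 1) a =
      dF om pos 0 (tt om) a - if a = i then tt om i else 0 := fun a => by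
    by_cases k : a = i
    · subst k; simp [dF_cc hi]
    · simp [dF, k]
  rw [dQ, sum_dF, mul_one, TT]
  simp only [e, Finset.sum_sub_distrib, Finset.sum_ite_eq', Finset.mem_univ, if_true]

theorem sum_up (S : κ → Prop) : ∑ a, up 0 1 S a = cd S := by
  simp [up, cd]

/-- The statement for a fixed direction. -/
theorem core (kit : Kit) (hL : Lnk) (hP : PFu) (hB : BInv) (hT : Term om) {C : ℝ}
    (h : GS Φ om pos C x) (ih : IH1 Φ pos) (hi : CC om pos i) {β : ℕ → κ → ℝ}
    (hβ : ∀ᶠ n in UF, Dir om pos i (β n)) :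
    Le (un x) (fun n => (TT om pos - tt om i) * (x n).M) fun n =>
      ch (x n).P (Cb (x n) i (fun _ => β n) (dQ om pos i 0 1)) (Cl (x n) (dY om pos 1 0)) := by
  have c := chg h.alg.big hi hβ
  have w := wk h.toG0
  have gY := w.gt_dY le_rfl zero_le_one
  have gQ := w.gt_dQ i le_rfl zero_le_one le_rfl
  have b := ((hB _ _ Φ om pos x hT h.toG0 _ _ c).2 _ _ gY (w.cp_dY le_rfl zero_le_one)
    (apx_sc x _)).2
  have g := (kit.bas _ _ Φ om pos x C _ _ h c.1 c.2.1 c.2.2).1
  set y := fun n => (x n).bas (Ab i (β n)) (Ab' i (β n)) with hy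
  have g0 : G0 Φ om (fun a => pos a ∧ a ≠ i) y :=
    ⟨(sQuot _ _ _ Φ om pos _ _ i g.alg).2.2.1 fun a e _ u _ =>
      ((tl2 _ _ _ Φ om pos _ _ g.alg).2 hT).2 i hi.2 a e (w.live e u), g.unit⟩
  have f := (hP _ _ Φ om _ y hT g0).2.1 (ih om _ (by
    unfold cd
    exact_mod_cast Finset.card_lt_card ⟨fun a => by simp +contextual, fun u => by
      simpa using u (x := i) (by simpa using hi.1)⟩) C y
    ((kit.swap _ _ Φ om pos y C g).2 _ (fun _ u => u.1) g0)) 1 zero_le_one
  obtain ⟨-, pm, z, l⟩ := hL _ _ Φ om pos y hT g.toG0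
  have gU : GT om pos (up 0 1 fun a => pos a ∧ a ≠ i) :=
    gt_zero.up zero_le_one (fun a u => w.live a u.1) fun a b e _ u v k t =>
      k.elim (fun k => .inl ⟨k, fun s => u (s ▸ hi.2)⟩) fun k =>
        .inr ⟨k.resolve_right (not_not.2 t.1), fun s => v (s ▸ hi.2)⟩
  have e1 := pm.lip _ _ gQ gU fun a => by
    unfold up
    rcases tri om pos a with k | k | k
    · rw [dQ, dF_pp k, if_pos ⟨k.1, fun s => k.2 (s ▸ hi.2)⟩]; simp
    · have := w.tt_lt a
      rw [dQ, dF_cc k]
      by_cases s : a = i <;> simp [s, k.1, this.le]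
    · rw [dQ, dF_st k]; simp [k]
  have e2 := pm.lip _ _ gt_zero gY gY.nn
  have e3 := pm.mono _ _ gQ (gQ.sup gY) le_sup_left
  rw [Finset.sum_sub_distrib, sum_up, sum_dQ hi] at e1
  simp only [Pi.zero_apply, sub_zero, sum_dY, z] at e2
  refine (rate_le (by linarith)).trans
    ((l _ _ _ _ _ _ gQ gY gY (apx_sc y _) (apx_sc y _) (apx_sc y _)).2.1.2.trans
      (b.of_sub (Eventually.of_forall fun n => ?_)))
  rw [sub_zero, sub_le_iff_le_add']
  exact (ch_anti (Fn.fst _ (x n).Θ)).trans (ch_tri' _ _ _)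

end NGBA

theorem rowNGB : OfNGB := by
  intro kit hL hP hB ι κ _ _ _ Φ om pos x hT _ C i b h ih hi hb hI
  by_contra hc
  obtain ⟨ε, hε, hc⟩ := not_Le hc
  set T := TT om pos - tt om i
  let Δ : ∀ n, (κ → ℝ) × (x n).T → ℝ := fun n s =>
    ch (cv (x n).P ((x n).side (b n)).Θ s) (Cb (x n) i (fun _ => s.1) (dQ om pos i 0 1))
      (Cl (x n) (dY om pos 1 0))
  have e : ∀ n, Dl om pos (x n) i (b n) = (x n).P.E fun ω => Δ n (b n ω, (x n).Θ ω) := fun n => by
    refine Eq.trans ?_ (R4.ke.ent (x n).P ((x n).side (b n)).Θ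
      (fun s => Cb (x n) i (fun _ => s.1) (dQ om pos i 0 1)) fun _ => Cl (x n) (dY om pos 1 0))
    refine ch_congr (Fn.fst _ _) (Fn.fst _ _) (fun u _ v _ k => ?_) fun u _ v _ k => ?_ <;>
      simp only [Zl, Cl, Sy.Z, Prod.mk.injEq] at k ⊢ <;> tauto
  have nn : ∀ n, 0 ≤ Dl om pos (x n) i (b n) := fun n => ch_nonneg _ _
  have hT' : ε < T := by
    obtain ⟨n, u⟩ := hc.exists
    exact lt_of_mul_lt_mul_right (by linarith [nn n]) (Nat.cast_nonneg (x n).M)
  obtain ⟨θ, hθ, g⟩ := kit.frz _ _ Φ om pos _ C (kit.side _ _ Φ om pos x C h _ b hI)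
    (fun n s => ¬(T - ε / 2) * (x n).M ≤ Δ n s) ⟨ε / 2 / (T - ε / 2), div_pos (by linarith)
      (by linarith), (hc.and (h.alg.big.ev 1)).mono fun n u => by
      have m := markov (x n).P (u := fun ω => Δ n (b n ω, (x n).Θ ω)) (fun _ _ => ch_nonneg _ _)
        ((T - ε / 2) * (x n).M)
      refine le_trans ?_ (pb_not _ _).ge
      rw [div_le_iff₀ (by linarith)]
      rw [← e] at m
      exact le_of_mul_le_mul_right (by linarith [u.1]) (one_pos.trans_le u.2)⟩
  refine (NGBA.core kit hL hP hB hT g ih hi (β := fun n => (θ n).1) ((hθ.and hb).mono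
    fun n u => ?_)).false h.alg.big (half_pos hε) (hθ.mono fun n u => ?_)
  · obtain ⟨ω, k, r⟩ := u.1.2
    exact r ▸ u.2 ω k
  · exact le_trans (add_le_add_left (not_le.1 u.1).le _) (le_of_eq (by ring))

end Pool.Agent.MP_5168f5_an.AN.TG.TA
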