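import Pool.Agent.MP_5168f5_an.AN.TAApi

/-! Kakeya sets in all dimensions: the terminal case, a uniform error for directions. -/

namespace Pool.Agent.MP_5168f5_an.AN.TG.TA

open H19 H17S H17F G39 GA TL Filter H61Z

namespace NGDA

variable {ι κ : Type} [Fintype ι] [DecidableEq ι] [Fintype κ] {Φ : Filt (Mt ι)}
  {om : κ → ℝ × ℝ} {pos : κ → Prop} {x : ℕ → Sy ι κ}

theorem ib_nn (x : Sy ι κ) (b : x.Ω → κ → ℝ) (s : ℝ) : 0 ≤ Ib om x b s := mi_nonneg _ _ _

/-- The information is monotone in the level. -/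
theorem ib_mono (lnk : Lnk) (hT : Term om) (g0 : G0 Φ om pos x) (b : ∀ n, (x n).Ω → κ → ℝ)
    {s s' : ℝ} (h0 : 0 ≤ s) (h : s ≤ s') :
    Le (un x) (fun n => Ib om (x n) (b n) s) fun n => Ib om (x n) (b n) s' := by
  have w := wk g0
  have g1 : GT om pos (dep om (s, s)) := w.gt_dep h0 h0
  have g2 : GT om pos (dep om (s', s')) := w.gt_dep (h0.trans h) (h0.trans h)
  have e : dep om (s, s) ≤ dep om (s', s') ⊔ 0 := fun a => le_sup_of_le_left (add_le_add
    (mul_le_mul_of_nonneg_left h (w.wt a).1) (mul_le_mul_of_nonneg_left h (w.wt a).2))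
  have j := ((lnk ι κ Φ om pos x hT g0).2.2.2 _ _ _ _ _ _ g1 g2 gt_zero (apx_sc x _) (apx_sc x _)
    (apx_sc x _)).2.2.1 e
  refine Le.of_sub j (Eventually.of_forall fun n => ?_)
  have a := mi_near (P := (x n).P) (b n) (Cl (x n) (dep om (s, s))) (Cl (x n) (dep om (s', s')))
    (Zl (x n) 0)
  have c : ch (x n).P (Cl (x n) (dep om (s, s)))
      (fun ω => (Cl (x n) (dep om (s', s')) ω, Zl (x n) 0 ω)) ≤
      ch (x n).P ((x n).C (sc (x n).M (dep om (s, s)))) fun ω =>
        ((x n).C (sc (x n).M (dep om (s', s'))) ω, (x n).C (sc (x n).M 0) ω) :=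
    ch_anti fun u _ v _ y => Prod.ext (Prod.mk.inj y).1 (congrArg Prod.fst (Prod.mk.inj y).2)
  unfold Ib
  linarith

end NGDA

open NGDA in
theorem rowNGD : OfNGD := by
  intro kit lnk ngb ι κ _ _ _ Φ om pos C η i hT ih hi hη
  by_contra hn
  push Not at hn
  choose x b h1 h2 h3 h4 using hn
  let S : ℕ → Type 1 := fun _ => Σ z : Sy ι κ, z.Ω → κ → ℝ
  let K : ℕ → (∀ n, S n) → Prop := fun j y =>
    (GS Φ om pos C fun n => (y n).1) ∧
    (∀ᶠ n in UF, ∀ ω ∈ (y n).1.P.S, Dir om pos i ((y n).2 ω)) ∧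
    (∀ᶠ n in UF, Dl om pos (y n).1 i (y n).2 ≤ (TT om pos - tt om i - η) * (y n).1.M) ∧
    Le (fun n => (y n).1.M) (fun n => (j + 1) * Ib om (y n).1 (y n).2 j) fun n => (y n).1.M
  have cf : ∀ j, R4.CF (K j) := fun j =>
    ((kit.cf ι κ Φ om pos (x 0) C).comp (S' := S) fun _ s => s.1).and
      ((R4.cf_ev (S := S) fun _ s => ∀ ω ∈ s.1.P.S, Dir om pos i (s.2 ω)).and
        ((R4.cf_ev (S := S) fun _ s =>
          Dl om pos s.1 i s.2 ≤ (TT om pos - tt om i - η) * s.1.M).and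
          (R4.cf_le (S := S) (fun _ s => s.1.M) (fun _ s => (j + 1) * Ib om s.1 s.2 j)
            fun _ s => s.1.M)))
  obtain ⟨k, -, hk⟩ := R4.cf_diag cf (fun k n => ⟨x k n, b k n⟩) fun k j hj => by
    refine ⟨h1 k, h2 k, ?_, ?_⟩
    · obtain ⟨ε, hε, e⟩ := not_Le (h4 k)
      filter_upwards [e] with n a
      have : 0 ≤ ε * (un (x k) n : ℝ) := by positivity
      exact (le_add_of_nonneg_right this).trans a.le
    · have hj' : (j : ℝ) ≤ k := by exact_mod_cast hj
      have m := (ib_mono lnk hT (h1 k).toG0 (b k) (Nat.cast_nonneg j) hj').smul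
        (c := (j : ℝ) + 1) (by positivity)
      refine m.of2 (h3 k) (Eventually.of_forall fun n => ?_)
      have := mul_le_mul_of_nonneg_right (add_le_add_left hj' 1) (ib_nn (om := om) (x k n) (b k n) k)
      linarith
  set y : ℕ → Sy ι κ := fun n => x (k n) n
  set c : ∀ n, (y n).Ω → κ → ℝ := fun n => b (k n) n
  have g : GS Φ om pos C y := (hk 0).1
  have sm : ∀ s : ℝ, 0 ≤ s → Sm (un y) fun n => Ib om (y n) (c n) s := fun s hs =>
    Le.eps fun ε hε => by
      obtain ⟨j, hj⟩ := exists_nat_ge (max s (1 / ε))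
      have j1 : 1 ≤ ε * (j + 1 : ℝ) := by
        have := (div_le_iff₀ hε).1 ((le_max_right _ _).trans hj)
        nlinarith
      have q : Le (un y) (fun n => (j + 1) * Ib om (y n) (c n) j) fun n => (y n).M := (hk j).2.2.2
      refine (ib_mono lnk hT g.toG0 c hs ((le_max_left _ _).trans hj)).of2 (q.smul hε.le)
        (Eventually.of_forall fun n => ?_)
      have := mul_le_mul_of_nonneg_right j1 (ib_nn (om := om) (y n) (c n) j)
      simp only [un]
      linarith
  have r := ngb ι κ Φ om pos y hT g.toG0 C i c g ih hi (hk 0).2.1 sm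
  have q : ∀ᶠ n in UF, Dl om pos (y n) i (c n) ≤ (TT om pos - tt om i - η) * (y n).M :=
    (hk 0).2.2.1
  have := le_of_rate g.alg.big (r.trans (Le.of_ev q))
  linarith

end Pool.Agent.MP_5168f5_an.AN.TG.TA
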