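import Pool.Agent.MP_5168f5_an.AN.TAApi

/-! Kakeya sets in all dimensions: from constant levels to sequences of levels. -/

namespace Pool.Agent.MP_5168f5_an.AN.TG.TA

open H19 H17S H17F G39 GA TL Filter H61Z
open R4 (Eqv)
open R4.K31 (DnS)
open TB (flG NGG Tm)

namespace NGLA

theorem pig {u : ℕ → ℝ} (h : ∀ᶠ n in UF, 0 ≤ u n ∧ u n < 1) {N : ℕ} (hN : 0 < N) :
    ∃ a : ℕ, a < N ∧ ∀ᶠ n in UF, a ≤ N * u n ∧ N * u n < a + 1 := by
  have n0 : (0 : ℝ) < N := by exact_mod_cast hN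
  obtain ⟨a, ha⟩ := ev_ex (J := Fin N)
    (p := fun a n => ((a : ℕ) : ℝ) ≤ N * u n ∧ N * u n < (a : ℕ) + 1) (h.mono fun n c =>
      ⟨⟨⌊N * u n⌋₊, (Nat.floor_lt (mul_nonneg n0.le c.1)).2 (mul_lt_of_lt_one_right n0 c.2)⟩,
        Nat.floor_le (mul_nonneg n0.le c.1), Nat.lt_floor_add_one _⟩)
  exact ⟨a, a.2, ha⟩

variable {ι Ω β : Type} {t : ι → ℝ} {a a' c : ℝ}

theorem flG_eq (ht : ∀ k, 0 < t k ∧ t k ≤ 1) (h : a ≤ a') {x y : ι → ℝ}
    (e : flG t a' x = flG t a' y) : flG t a x = flG t a y := funext fun k =>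
  fl1_eq_of_le (Nat.floor_mono (mul_le_mul_of_nonneg_left h (ht k).1.le)) (congrFun e k)

theorem ch_ref [Fintype ι] {P : FP Ω} {x : Ω → ι → ℝ} {G : Ω → β} (ht : ∀ k, 0 < t k ∧ t k ≤ 1)
    (h0 : 0 ≤ a) (h1 : a ≤ a') (h2 : a' ≤ a + c) (h : Fn P (fun ω => flG t a (x ω)) G) :
    ch P (fun ω => flG t a' (x ω)) G ≤ Fintype.card ι * ((c + 1) * H17S.lg) := by
  classical
  have e := ch_pi_le (P := P) Finset.univ (fun k ω => flG t a' (x ω) k) 0 G
  simp only [Finset.mem_univ, if_true] at e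
  refine e.trans ((Finset.sum_le_card_nsmul _ _ ((c + 1) * H17S.lg) fun k _ => ?_).trans_eq
    (by simp))
  obtain ⟨i, hi⟩ := Nat.exists_eq_add_of_le
    (Nat.floor_mono (mul_le_mul_of_nonneg_left h1 (ht k).1.le))
  have e1 := ch_fl1_refine (P := P) (x := fun ω => x ω k) (G := G) (j := fun _ => ⌊t k * a⌋₊)
    (i := fun _ => i) (fun _ _ _ _ _ => rfl) (fun _ _ _ _ _ => rfl)
    fun v p w q r => congrFun (h v p w q r) k
  rw [FP.E_const, ← hi] at e1
  refine e1.trans (mul_le_mul_of_nonneg_right ?_ lg_pos.le)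
  have e2 := Nat.floor_le (mul_nonneg (ht k).1.le (h0.trans h1))
  have e3 := Nat.lt_floor_add_one (t k * a)
  rw [hi, Nat.cast_add] at e2
  nlinarith [ht k]

end NGLA

open NGLA in
theorem rowNGL : NGL := by
  intro ι _ Ω A A' P Pi Pi' x t M ε₀ hM ht e0 e1 hPi H W K Q ρ κ s s' i b dn hs hb
  refine Le.eps fun ε hε => ?_
  obtain ⟨N, hN⟩ := exists_nat_gt ((2 + Fintype.card ι) / ε)
  have n0 : (0 : ℝ) < N := lt_of_le_of_lt (by positivity) hN
  have l0 := lg_pos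
  have u : ∀ r : ℕ → ℝ, (∀ n, 0 ≤ r n ∧ r n ≤ M n) → ∃ a : ℕ, a < N ∧ ∀ᶠ n in UF,
      (a : ℝ) / N * M n ≤ r n * H17S.lg ∧ r n * H17S.lg ≤ (a + 1) / N * M n := fun r hr => by
    obtain ⟨a, h1, h2⟩ := pig (u := fun n => r n * H17S.lg / M n) (N := N) ((hM.ev 1).mono
      fun n c => ⟨div_nonneg (mul_nonneg (hr n).1 l0.le) (by linarith), by
        rw [div_lt_one (by linarith)]
        nlinarith [lg_lt_one, hr n]⟩) (by exact_mod_cast n0)
    refine ⟨a, h1, ((hM.ev 1).and h2).mono fun n c => ?_⟩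
    obtain ⟨c1, c2, c3⟩ := c
    rw [← mul_div_assoc, le_div_iff₀ (by linarith)] at c2
    rw [← mul_div_assoc, div_lt_iff₀ (by linarith)] at c3
    rw [div_mul_eq_mul_div, div_mul_eq_mul_div, div_le_iff₀ n0, le_div_iff₀ n0]
    constructor <;> linarith
  obtain ⟨a, -, ha⟩ := u s fun n => ⟨(hs n).1, (hs n).2.1.trans (hs n).2.2⟩
  obtain ⟨a', a1, ha'⟩ := u s' fun n => ⟨(hs n).1.trans (hs n).2.1, (hs n).2.2⟩
  have a2 : (a' + 1 : ℝ) ≤ N := by exact_mod_cast a1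
  have key := H W Q ρ dn K κ (min (a / N) (a' / N)) ((a' + 1) / N) i b (by positivity)
    ((min_le_right _ _).trans_lt (div_lt_div_of_pos_right (lt_add_one _) n0))
    ((div_le_one n0).2 a2) hb
  obtain ⟨C, -, dn⟩ := dn
  refine key.of2 (hM.sm (Fintype.card ι * H17S.lg)) ?_
  filter_upwards [ha, ha', dn] with n c c' dn
  have m0 : (0 : ℝ) ≤ M n := Nat.cast_nonneg _
  have s1 := mul_le_mul_of_nonneg_right (hs n).2.1 l0.le
  have d1 : min ((a : ℝ) / N) (a' / N) * M n / H17S.lg ≤ s n := by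
    rw [div_le_iff₀ l0]
    exact (mul_le_mul_of_nonneg_right (min_le_left _ _) m0).trans c.1
  have d2 : s' n ≤ (a' + 1) / N * M n / H17S.lg := (le_div_iff₀ l0).2 c'.2
  have z : ∀ y : ℝ, (y + 1) / N * M n = y / N * M n + M n / N := fun y => by ring
  rw [z] at c c'
  have d3 : (a' + 1) / N * M n / H17S.lg ≤ s' n + M n / N / H17S.lg := by
    rw [div_le_iff₀ l0, add_mul, div_mul_cancel₀ _ l0.ne', z]
    linarith [c'.1]
  have d4 : ((a' + 1) / N - min ((a : ℝ) / N) (a' / N)) * M n ≤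
      (s' n - s n) * H17S.lg + 2 * (M n / N) := by
    have := div_nonneg m0 n0.le
    rw [sub_mul, z]
    rcases min_choice ((a : ℝ) / N) (a' / N) with e | e <;> rw [e] <;> linarith [c.2, c'.1]
  have d5 : (2 + Fintype.card ι) * (M n / N : ℝ) ≤ ε * M n := by
    rw [div_lt_iff₀ hε] at hN
    rw [← mul_div_assoc, div_le_iff₀ n0]
    nlinarith
  have w0 : 0 ≤ (1 - ε₀) * t i := mul_nonneg (by linarith) (ht i).1.le
  have w1 : (1 - ε₀) * t i ≤ 1 := by nlinarith [ht i]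
  have d6 := mul_le_mul_of_nonneg_left d4 w0
  have d7 := mul_le_mul_of_nonneg_right w1 (div_nonneg m0 n0.le)
  let G : W n → _ := fun v => (flG t (s' n) (x n (ρ n v) - x n (ρ n v) i • b n v),
    flG t (s n) (x n (ρ n v)), κ n v, Pi' n (ρ n v))
  let G' : W n → _ := fun v => (fG t (M n) ((a' + 1) / N) (x n (ρ n v) - x n (ρ n v) i • b n v),
    fG t (M n) (min (a / N) (a' / N)) (x n (ρ n v)), κ n v, Pi n (ρ n v))
  have h1 : ch (Q n) (fun v => flG t (s' n) (x n (ρ n v))) G ≤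
      ch (Q n) (fun v => fG t (M n) ((a' + 1) / N) (x n (ρ n v))) G :=
    ch_mono fun v _ w _ e => flG_eq ht d2 (congrArg Prod.fst e)
  have h2 := ch_tri' (P := Q n) (fun v => fG t (M n) ((a' + 1) / N) (x n (ρ n v))) G G'
  have h3 : ch (Q n) G' G ≤ ch (Q n)
      (fun v => fG t (M n) ((a' + 1) / N) (x n (ρ n v) - x n (ρ n v) i • b n v)) G :=
    ch_mono fun v p w q e => Prod.ext (congrArg (·.1) e :) (Prod.ext
      (flG_eq ht d1 (congrArg (·.2.2.1) e)) (Prod.ext (congrArg (·.2.2.2.1) e :)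
        (dn.fn (hPi n) v p w q (congrArg (·.2.2.2.2) e))))
  have h4 := ch_ref (P := Q n) (G := G) (x := fun v => x n (ρ n v) - x n (ρ n v) i • b n v) ht
    ((hs n).1.trans (hs n).2.1) d2 d3 fun v _ w _ e => congrArg (·.1) e
  rw [add_mul, div_mul_cancel₀ _ l0.ne'] at h4
  have h5 := h1.trans (h2.trans (add_le_add le_rfl (h3.trans h4)))
  linarith

end Pool.Agent.MP_5168f5_an.AN.TG.TA
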