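import Pool.Agent.MP_5168f5_an.AN.TAApi

/-! Kakeya sets in all dimensions: the terminal case, no direction has a large rate. -/

namespace Pool.Agent.MP_5168f5_an.AN.TG.TA

open H19 H17S H17F G39 GA TL Filter H61Z
open R4 (Eqv)

namespace NGWA

theorem chain {Ω α β γ : Type} (P : FP Ω) (F : ℝ → Ω → α) (A : Ω → β) (H : Ω → γ) (s w : ℝ)
    (N : ℕ) : ch P (F (s + N * w)) (fun v => (A v, F s v, H v)) ≤ ∑ j ∈ Finset.range N,
      ch P (F (s + j * w + w)) fun v => (A v, F (s + j * w) v, H v) := by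
  induction N with
  | zero =>
    simp only [Nat.cast_zero, zero_mul, add_zero, Finset.sum_range_zero]
    exact (ch_zero fun _ _ _ _ e => congrArg (·.2.1) e).le
  | succ N ih =>
    rw [Finset.sum_range_succ, show s + (N + 1 : ℕ) * w = s + N * w + w by push_cast; ring]
    refine (ch_tri _ (F (s + N * w)) _).trans (add_le_add ih (ch_anti fun _ _ _ _ e => ?_))
    simp only [Prod.mk.injEq] at e ⊢
    exact ⟨e.2.1, e.1, e.2.2.2⟩

theorem refine {Ω β ι : Type} [Fintype ι] (P : FP Ω) (x : Ω → ι → ℝ) (G : Ω → β) (t : ι → ℝ)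
    (M : ℕ) {ρ w : ℝ} (ht : ∀ a, 0 < t a ∧ t a ≤ 1) (h0 : 0 ≤ ρ) (h1 : 0 ≤ w)
    (h : Fn P (fun v => fG t M ρ (x v)) G) :
    ch P (fun v => fG t M (ρ + w) (x v)) G ≤ Fintype.card ι * (w * M + 1) := by
  classical
  have p := H17S.lg_pos
  have h2 := ch_pi_le (P := P) Finset.univ (fun a v => fG t M (ρ + w) (x v) a) 0 G
  simp only [Finset.mem_univ, if_true] at h2
  refine h2.trans ((Finset.sum_le_card_nsmul _ _ (w * M + 1) fun a _ => ?_).trans_eq
    (by rw [Finset.card_univ, nsmul_eq_mul]))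
  have t0 := (ht a).1.le
  have e : t a * ((ρ + w) * M / H17S.lg) = t a * (ρ * M / H17S.lg) + t a * (w * M) / H17S.lg := by
    ring
  obtain ⟨i, hi⟩ := Nat.exists_eq_add_of_le (show ⌊t a * (ρ * M / H17S.lg)⌋₊ ≤
    ⌊t a * ((ρ + w) * M / H17S.lg)⌋₊ from
      Nat.floor_mono (e ▸ le_add_of_nonneg_right (by positivity)))
  have h3 := ch_fl1_refine (P := P) (x := fun v => x v a) (G := G)
    (j := fun _ => ⌊t a * (ρ * M / H17S.lg)⌋₊) (i := fun _ => i) (fun _ _ _ _ _ => rfl)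
    (fun _ _ _ _ _ => rfl) fun u hu v hv k => congrFun (h u hu v hv k) a
  rw [FP.E_const, ← hi] at h3
  refine h3.trans ?_
  have h4 := Nat.floor_le (show 0 ≤ t a * ((ρ + w) * M / H17S.lg) by positivity)
  have h5 := Nat.lt_floor_add_one (t a * (ρ * M / H17S.lg))
  rw [hi, e, Nat.cast_add] at h4
  have h6 : (i : ℝ) ≤ t a * (w * M) / H17S.lg + 1 := by linarith
  have h7 := mul_le_mul_of_nonneg_right h6 p.le
  rw [add_mul, div_mul_cancel₀ _ p.ne'] at h7
  have h8 := mul_le_mul_of_nonneg_right (ht a).2 (show 0 ≤ w * M by positivity)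
  linarith [H17S.lg_lt_one]

theorem eqv_mul {M : ℕ → ℕ} {f g : ℕ → ℝ} (h : Eqv M f g) (c : ℝ) :
    Le M (fun n => c * g n) fun n => c * f n := by
  rcases le_total 0 c with k | k
  · exact h.2.smul k
  · exact (h.1.smul (neg_nonneg.2 k)).of_sub (Eventually.of_forall fun n => by linarith)

end NGWA

open NGWA in
theorem rowNGW : OfNGW := by
  intro hZ hD hC hN hB ι κ _ _ _ Φ om pos x hT g C m K ε₀ mn low ih kb e0 e1 e2 A k s s' i b s0 s1
    s2 hb
  have W := wk g
  have hM := g.alg.big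
  by_cases hi : CC om pos i
  swap
  · refine Le.of_le fun n => (ch_zero fun u _ v _ e => ?_).trans_le ?_
    · simpa only [ga, if_neg hi, zero_smul, sub_zero] using congrArg Prod.fst e
    · have := (W.tc i).1
      have : 0 ≤ 1 - ε₀ := by linarith
      have : 0 ≤ s' - s := by linarith
      positivity
  have ds : DirS om pos x i b := hb.mono fun n a v hv => by
    obtain ⟨a1, a2, a3⟩ := a.2 v hv
    refine ⟨a1, fun c => (norm_le_pi_norm (b n v) c).trans a2, fun c h => ?_⟩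
    have e : tc om pos c = tt om i := (not_not.1 fun u => h (a3 c u)).trans (tc_pos hi)
    have hc : CC om pos c := not_not.1 fun u => (W.tt_lt i).ne' ((tc_neg u).symm.trans e)
    exact ⟨hc, W.om_eq hT hc.2 hi.2 ((tc_pos hc).symm.trans e)⟩
  have fb := hb.mono fun n a => a.1
  obtain ⟨q, hq⟩ := hN ι κ Φ om pos C (TT om pos - m - ε₀) i hT ih hi (by linarith)
  have win : ∀ ρ w : ℝ, 0 ≤ ρ → 0 < w → ρ + w ≤ s' → Le (un x) (fun n =>
      ch (x n).P (fun ω => fG (tc om pos) (x n).M (ρ + w) (ga om pos (x n) ω))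
        (cn om pos (x n) K i (b n) (k n) s' ρ)) fun n => (1 - ε₀) * tt om i * w * (x n).M +
      Ib' om pos (x n) (fun ω => rw (x n).M w (b n ω)) ρ w + Fintype.card κ * (q + 1) *
        Ib om (zw om (x n) (dg om ρ) w) (fun ω => rw (x n).M w (b n ω)) q := fun ρ w r0 w0 rw1 => by
    have i1 : ∀ n, 0 ≤ Ib' om pos (x n) (fun ω => rw (x n).M w (b n ω)) ρ w := fun n =>
      mi_nonneg _ _ _
    have i2 : ∀ n, 0 ≤ Ib om (zw om (x n) (dg om ρ) w) (fun ω => rw (x n).M w (b n ω)) q :=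
      fun n => mi_nonneg _ _ _
    have c0 : (0 : ℝ) ≤ Fintype.card κ := Nat.cast_nonneg _
    have d0 := div_nonneg r0 W.sg_pos.le
    obtain ⟨z1, z2, z3, -⟩ := hZ ι κ Φ om pos x hT g C mn.1 (dg om ρ) w d0 d0 w0
    rcases ev_em fun n => (q + 1 : ℝ) * Ib om (zw om (x n) (dg om ρ) w)
      (fun ω => rw (x n).M w (b n ω)) q ≤ (zw om (x n) (dg om ρ) w).M with y | y
    · refine Le.of3 ((z2 _ _).1 (hq (fun n => zw om (x n) (dg om ρ) w)
        (fun n ω => rw (x n).M w (b n ω)) z1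
        (hD ι κ Φ om pos x hT g K i A k b ρ w s' kb hi ds fb r0 w0 rw1 s2).1 (Le.of_ev y)))
        (hC ι κ Φ om pos x hT g C m K i A k b ρ w s' mn low kb hi ds fb r0 w0 rw1 s2)
        (eqv_mul z3 (m + ε₀ - tt om i)) (Eventually.of_forall fun n => ?_)
      have h1 : 0 ≤ ε₀ * (1 - tt om i) * (w * (x n).M) :=
        mul_nonneg (mul_nonneg e0.le (sub_nonneg.2 (W.tt_lt i).le)) (by positivity)
      have h2 := mul_nonneg (mul_nonneg c0 (show (0 : ℝ) ≤ q + 1 by positivity)) (i2 n)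
      linarith
    · refine (hM.sm (Fintype.card κ * 2)).of_sub (y.mono fun n a => ?_)
      have h1 := refine (x n).P (ga om pos (x n)) (cn om pos (x n) K i (b n) (k n) s' ρ) (tc om pos)
        (x n).M W.tc r0 w0.le fun _ _ _ _ e => congrArg (·.2.1) e
      have h2 : w * (x n).M < (zw om (x n) (dg om ρ) w).M + 1 := Nat.lt_floor_add_one _
      have h3 := mul_le_mul_of_nonneg_left (show w * (x n).M + 1 ≤ (q + 1 : ℝ) * Ib om
        (zw om (x n) (dg om ρ) w) (fun ω => rw (x n).M w (b n ω)) q + 2 by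
          linarith [not_le.1 a]) c0
      have h4 : 0 ≤ (1 - ε₀) * tt om i * w * (x n).M :=
        mul_nonneg (mul_nonneg (mul_nonneg (sub_nonneg.2 e1) (W.tt_nn i)) w0.le) (Nat.cast_nonneg _)
      linarith [i1 n]
  refine Le.eps fun δ hδ => ?_
  obtain ⟨D, hD⟩ : ∃ D : ℝ, D = Fintype.card κ +
    Fintype.card κ * (q + 1) * ((q * sg om + 1) * Fintype.card κ) := ⟨_, rfl⟩
  have D0 : 0 ≤ D := by have := W.sg_pos; rw [hD]; positivity
  obtain ⟨N, hN⟩ := exists_nat_gt (D / δ)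
  have N0 : (0 : ℝ) < N := (div_nonneg D0 hδ.le).trans_lt hN
  obtain ⟨w, hw⟩ : ∃ w : ℝ, w = (s' - s) / N := ⟨_, rfl⟩
  have w0 : 0 < w := hw ▸ div_pos (sub_pos.2 s1) N0
  have w1 : s + N * w = s' := by rw [hw]; field_simp; ring
  have w2 : D * w ≤ δ := by
    rw [div_lt_iff₀ hδ] at hN
    nlinarith [mul_le_mul_of_nonneg_right hN.le w0.le]
  obtain ⟨b1, b2⟩ := hB ι κ Φ om pos x hT g C b s w q N mn.1
    (ds.mono fun n a v hv => (a v hv).2.1) s0 w0
  refine Le.of3 (Le.sum (Finset.range N) fun j hj => win (s + j * w) w (by positivity) w0 ?_)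
    (b1.smul (c := Fintype.card κ * (q + 1)) (by positivity)) b2 (Eventually.of_forall fun n => ?_)
  · have : (j : ℝ) + 1 ≤ N := by exact_mod_cast Finset.mem_range.1 hj
    nlinarith
  · have h1 := chain (x n).P (fun ρ ω => fG (tc om pos) (x n).M ρ (ga om pos (x n) ω))
      (fun ω => fG (tc om pos) (x n).M s' (ga om pos (x n) ω - ga om pos (x n) ω i • b n ω))
      (fun ω => (k n ω, Pi0 om pos (x n) K ω)) s w N
    have h2 := mul_le_mul_of_nonneg_right w2 (Nat.cast_nonneg (α := ℝ) (x n).M)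
    have h3 : s' - s = N * w := by linarith
    rw [w1] at h1
    rw [tc_pos hi, h3, Finset.sum_add_distrib, Finset.sum_add_distrib, Finset.sum_const,
      Finset.card_range, nsmul_eq_mul, ← Finset.mul_sum]
    rw [hD] at h2
    have e : ∀ {T S : ℝ}, T ≤ S → ∀ I I' : ℝ, T - ((1 - ε₀) * tt om i * (N * w) * (x n).M +
        δ * (x n).M) ≤ S - (N * ((1 - ε₀) * tt om i * w * (x n).M) + I' +
          Fintype.card κ * (q + 1) * I) + (Fintype.card κ * (q + 1) * I - Fintype.card κ * (q + 1) *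
            ((q * sg om + 1) * Fintype.card κ * w * (x n).M)) +
          (I' - Fintype.card κ * w * (x n).M) := fun h _ _ => by linarith
    exact e h1 _ _

end Pool.Agent.MP_5168f5_an.AN.TG.TA
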