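import Pool.Agent.MP_5168f5_an.AN.TAApi

/-! The pure positions are full over natural cells; fullness in terms of rates. -/

namespace Pool.Agent.MP_5168f5_an.AN.TG.TA

open H19 H17S H17F G39 GA TL Filter H61Z

namespace PFuA

variable {κ : Type} {om : κ → ℝ × ℝ} {pos : κ → Prop}

theorem up_pos {d : κ → ℝ} {r : ℝ} {S : κ → Prop} {a : κ} (e : S a) : up d r S a = d a + r :=
  if_pos e

theorem up_neg {d : κ → ℝ} {r : ℝ} {S : κ → Prop} {a : κ} (e : ¬S a) : up d r S a = d a :=
  if_neg e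

theorem up_pu {d : κ → ℝ} {r : ℝ} {k : Bool} {a : κ} (e : pos a ∧ Pu om k a) :
    up d r (fun a => pos a ∧ Pu om k a) a = d a + r := if_pos e

theorem up_npu {d : κ → ℝ} {r : ℝ} {k : Bool} {a : κ} (e : ¬(pos a ∧ Pu om k a)) :
    up d r (fun a => pos a ∧ Pu om k a) a = d a := if_neg e

theorem le_up (d : κ → ℝ) {r : ℝ} (hr : 0 ≤ r) (S : κ → Prop) : d ≤ up d r S := fun a => by
  by_cases e : S a
  · rw [up_pos e]; linarith
  · rw [up_neg e]

theorem cd_pp [Fintype κ] (h : WK om pos) :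
    cd (PP om pos) ≤ cd (fun a => pos a ∧ Pu om true a) + cd fun a => pos a ∧ Pu om false a := by
  classical
  unfold cd
  refine mod_cast (Finset.card_le_card fun a ha => ?_).trans (Finset.card_union_le _ _)
  simp only [Finset.mem_union, Finset.mem_filter, Finset.mem_univ, true_and] at ha ⊢
  exact h.pp_iff.1 ha

theorem big_s [Fintype κ] (h : WK om pos) {r : ℝ} (hr : 0 ≤ r) :
    ∃ s : ℝ, 0 ≤ s ∧ ∀ a, 0 < (om a).1 → r ≤ (om a).1 * s :=
  ⟨∑ a, r / (om a).1, Finset.sum_nonneg fun a _ => div_nonneg hr (h.wt a).1, fun a e => by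
    have := Finset.single_le_sum (f := fun a => r / (om a).1)
      (fun a _ => div_nonneg hr (h.wt a).1) (Finset.mem_univ a)
    rwa [div_le_iff₀' e] at this⟩

end PFuA

open PFuA

theorem rowPFu : OfPFu := by
  intro lk ι κ _ _ _ Φ om pos x hT h0
  obtain ⟨-, pm, z, L⟩ := lk ι κ Φ om pos x hT h0
  have w := wk h0
  have fi : ∀ (d : κ → ℝ) (S : κ → Prop) (r : ℝ), 0 ≤ r → GT om pos d → GT om pos (up d r S) →
      (FullAt x d S r ↔ cd S * r ≤ Hx x (up d r S) - Hx x d) := fun d S r hr g g' => by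
    have e := (L _ _ _ _ _ _ g' g g (apx_sc x _) (apx_sc x _) (apx_sc x _)).2.1
    rw [sup_eq_left.2 (le_up d hr S)] at e
    exact ⟨fun f => le_of_rate h0.alg.big (Le.trans f e.1), fun f => (rate_le f).trans e.2⟩
  refine ⟨fun C hs t r t1 t2 hr => ?_, forall_congr' fun r => forall_congr' fun hr => ?_⟩
  · obtain ⟨s, s0, hs'⟩ := big_s w hr
    have g := w.gt_dep t1 t2
    have g' : GT om pos (dep om (t.1 + s, t.2)) := w.gt_dep (add_nonneg t1 s0) t2
    have gF := w.gt_dF (f := 0) hr fun _ => ⟨le_rfl, hr⟩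
    have f1 := (fi _ _ r hr g ((w.gt_up g hr).2 true)).1 (hs.f true t r t1 t2 hr)
    have f2 := (fi _ _ r hr g' ((w.gt_up g' hr).2 false)).1
      (hs.f false (t.1 + s, t.2) r (add_nonneg t1 s0) t2 hr)
    have ed : ∀ a, dep om (t.1 + s, t.2) a = dep om t a + (om a).1 * s := fun a => by
      unfold dep; ring
    have a1 := pm.sub _ _ _ ((w.gt_up g hr).2 true) g' (g.add gF) (fun a => by
      rw [ed]
      by_cases e : pos a ∧ Pu om true a
      · rw [up_pu e]; linarith [hs' a e.2.1]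
      · rw [up_npu e]; linarith [mul_nonneg (w.wt a).1 s0]) fun a => by
      by_cases e : pos a ∧ Pu om true a
      · rw [up_pu e, Pi.add_apply, dF_pp (w.pp_iff.2 (Or.inl e))]
      · rw [up_npu e, Pi.add_apply]; linarith [gF.nn a]
    have a2 := pm.mono _ _ ((w.gt_up g' hr).2 false) (g'.sup (g.add gF)) fun a => by
      by_cases e : pos a ∧ Pu om false a
      · refine le_sup_of_le_right (le_of_eq ?_)
        rw [up_pu e, ed, Pi.add_apply, dF_pp (w.pp_iff.2 (Or.inr e)),
          show (om a).1 = 0 from e.2.1, zero_mul, add_zero]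
      · rw [up_npu e]; exact le_sup_left
    have a3 := mul_le_mul_of_nonneg_right (cd_pp w) hr
    linarith
  · rw [fi 0 pos r hr gt_zero (w.gt_up gt_zero hr).1, z, sub_zero]

end Pool.Agent.MP_5168f5_an.AN.TG.TA
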