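import Pool.Agent.MP_5168f5_an.AN.TAApi
import Pool.Agent.MP_5168f5_an.AN.TGCond

/-! Kakeya sets in all dimensions: the terminal case, cells in a random basis. -/

namespace Pool.Agent.MP_5168f5_an.AN.TG.TA

open H19 H17S H17F G39 GA TL Filter H61Z

variable {ι κ : Type} [Fintype ι] [DecidableEq ι] [Fintype κ] {Φ : Filt (Mt ι)}
  {om : κ → ℝ × ℝ} {pos : κ → Prop} {x : ℕ → Sy ι κ} {i : κ}

omit [Fintype κ] in
theorem ab_app [DecidableEq κ] (i : κ) (β : κ → ℝ) (a e : κ) :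
    Ab i β a e = (if a = i then β e else if a = e then 1 else 0) ∧ Ab' i β a e =
      (if a = e then 1 else 0) + if a = i then (if i = e then 1 else 0) - β e else 0 := by
  simp only [Ab, Ab', Matrix.updateRow_apply, Matrix.one_apply, Pi.sub_apply, Pi.smul_apply,
    Pi.single_apply, smul_eq_mul, @eq_comm _ e]
  constructor <;> split_ifs <;> simp_all
  ring

omit [Fintype κ] in
theorem ab_zero {β : κ → ℝ} (h : Dir om pos i β) {a e : κ} (u : om a ≠ om e ∨ (¬pos a ∧ pos e)) :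
    Ab i β a e = 0 ∧ Ab' i β a e = 0 := by
  classical
  have v : a ≠ e := fun z => by subst z; tauto
  rw [(ab_app i β a e).1, (ab_app i β a e).2, if_neg v]
  split_ifs with z z'
  · exact absurd (z.trans z') v
  · have : β e = 0 := by_contra fun y => u.elim (fun w => w (z ▸ (h.2.2 e y).2.symm)) fun w =>
      w.1 (z ▸ (h.2.2 i (h.1 ▸ one_ne_zero)).1.1)
    simp [this]
  · simp

omit [Fintype ι] [DecidableEq ι] in
/-- Replacing a basis vector by a direction is an admissible change of basis. -/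
theorem chg_ab [DecidableEq κ] (hM : Big (un x)) {s : ℕ → κ → ℝ}
    (hs : ∀ᶠ n in UF, Dir om pos i (s n)) :
    Chg om pos x (fun n => Ab i (s n)) fun n => Ab' i (s n) := by
  refine ⟨hs.mono fun n h => ?_, fun a e => ⟨ob_congr (ob_const hM 3) (hs.mono fun n h => ?_),
    ob_congr (ob_const hM 3) (hs.mono fun n h => ?_)⟩, fun a e u =>
    ⟨neg_ev (hs.mono fun n h => (ab_zero h u).1), neg_ev (hs.mono fun n h => (ab_zero h u).2)⟩⟩
  · ext a e
    simp only [Matrix.mul_apply, fun k => (ab_app i (s n) k e).2, mul_add, mul_ite, mul_one,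
      mul_zero, Finset.sum_add_distrib, Finset.sum_ite_eq', Finset.mem_univ, if_true,
      (ab_app i (s n) a _).1, Matrix.one_apply]
    have := h.1
    split_ifs <;> simp_all
  all_goals
    have := abs_le.1 (h.2.1 e)
    simp only [(ab_app i (s n) a e).1, (ab_app i (s n) a e).2, abs_le, Nat.abs_ofNat]
    split_ifs <;> constructor <;> linarith

namespace RBA

omit [DecidableEq ι] [Fintype ι] in
theorem mb_sb {β r : κ → ℝ} (h : Dir om pos i β) (e : ∀ a b, om a = om b → r a = r b)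
    (B : κ → Mt ι) : mB (Ab i β) (sB r B) = sB r (mB (Ab i β) B) := by
  funext a
  simp only [GA.mB, sB, vec, Finset.smul_sum, smul_smul]
  refine Finset.sum_congr rfl fun k _ => ?_
  by_cases u : om a = om k
  · rw [e a k u, mul_comm]
  · simp [(ab_zero h (Or.inl u)).1]

theorem core (L : Lnk) (I : BInv) (S : Sup) (hT : Term om) (h : G0 Φ om pos x)
    {b : ∀ n, (x n).Ω → κ → ℝ} (hb : DirS om pos x i b) {D D1 D2 : ℕ → κ → ℝ} {d d1 d2 : κ → ℝ}
    (g : GT om pos d) (g1 : GT om pos d1) (g2 : GT om pos d2) (a : Apx x D d) (a1 : Apx x D1 d1)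
    (a2 : Apx x D2 d2) (c : Cp om pos d2) (l : d ≤ d1 ⊔ d2)
    (F : ∀ n, (κ → ℝ) → (x n).Ω → Mt ι) (hF : ∀ n s, Dir om pos i s →
      F n s = fun ω => cell (mB (Ab i s) (x n).B) (rA (D n)) ((x n).j ω))
    {γ : ℕ → Type} (G : ∀ n, (x n).Ω → γ n) (h0 : ∀ n, Fn (x n).P (b n) (G n))
    (h2 : ∀ n, Fn (x n).P ((x n).C (D2 n)) (G n))
    (h1 : ∀ n, Fn (x n).P (fun ω => cell (mB (Ab i (b n ω)) (x n).B) (rA (D1 n)) ((x n).j ω))
      fun ω => (cell (mB (Ab i (b n ω)) (x n).B) (rA (D2 n)) ((x n).j ω), G n ω)) :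
    Sm (un x) fun n => ch (x n).P (fun ω => F n (b n ω) ω) (G n) := by
  classical
  refine S (pr x) b F G _ (Eventually.of_forall h0) fun s hs => ?_
  have ds : ∀ᶠ n in UF, Dir om pos i (s n) := hb.mono fun n k => (hs n).elim fun ω u =>
    u.2 ▸ k ω u.1
  have k1 := TGCondA.g0 h fun n ω => b n ω = s n
  obtain ⟨k2, k3⟩ := I ι κ Φ om pos _ hT k1 _ _ (chg_ab h.alg.big ds)
  refine (((L ι κ Φ om pos _ hT k2).2.2.2 D D1 D2 d d1 d2 g g1 g2 a a1 a2).2.2.1 l).add
    (k3 D2 d2 g2 c a2).1 |>.mono (ds.mono fun n u => ?_)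
  rw [hF n _ u]
  refine (ch_tri' _ _ _).trans (add_le_add le_rfl (ch_le (Fn.pair (fun v hv w hw e => ?_)
    (Fn.fst _ _)) (fn_cE (h2 n) _)))
  obtain ⟨v1, v2⟩ := (mem_cE (hs n) v).1 hv
  obtain ⟨w1, w2⟩ := (mem_cE (hs n) w).1 hw
  have := h1 n v v1 w w1
  simp only [v2, w2] at this
  exact this e

end RBA

theorem rowRB : OfRB := by
  intro L I S ι κ _ _ _ Φ om pos x hT h i b hi hb ρ ρ' r0 r1 r2
  have k := wk h
  have r3 := r0.trans r1
  have gQ := k.gt_dQ i r0 r1 r2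
  refine ⟨RBA.core L I S hT h hb gQ (k.gt_dY r3 r2) (k.gt_dY r3 r2) (apx_sc x _) (apx_sc x _)
    (apx_sc x _) (k.cp_dY r3 r2) (fun a => le_sup_of_le_left ?_) _ (fun _ _ _ => rfl) _
    (fun _ => Fn.fst _ _) (fun _ => Fn.snd _ _) fun _ => Fn.fst _ _, fun r4 => ?_⟩
  · simp only [dQ, dY, dF]
    split_ifs
    exacts [le_rfl, mul_le_mul_of_nonneg_left r1 (k.tt_nn a), le_rfl, le_rfl]
  have w0 := sub_pos.2 r4
  have g1 := k.gt_dQ i le_rfl zero_le_one le_rfl
  refine RBA.core L I S hT h hb (D := fun n => sc (x n).M (dep om (dg om ρ)) +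
    sc ⌊(ρ' - ρ) * (x n).M⌋₊ (dQ om pos i 0 1)) ((k.gt_dg r0).add (g1.smul w0.le)) gQ (k.gt_dg r0)
    (fun a => ?_) (apx_sc x _) (apx_sc x _) (cp_dep _) (fun a => ?_)
    (fun n s ω => cell (mB (Ab i s) (zw om (x n) (dg om ρ) (ρ' - ρ)).B)
      (rA (sc ⌊(ρ' - ρ) * (x n).M⌋₊ (dQ om pos i 0 1))) ((x n).j ω)) (fun n s u => ?_) _
    (fun _ => Fn.fst _ _) (fun _ => ((Fn.snd _ _).right _)) fun _ =>
      ((Fn.fst _ _).right _).right _
  · have q := g1.nn a
    constructor <;> refine (h.alg.big.sm (dQ om pos i 0 1 a)).of_sub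
      (Eventually.of_forall fun n => ?_) <;>
      have e1 := Nat.floor_le (a := (ρ' - ρ) * (x n).M) (by positivity) <;>
      have e2 := Nat.lt_floor_add_one ((ρ' - ρ) * (x n).M) <;>
      simp only [sc, Pi.add_apply, Pi.smul_apply, smul_eq_mul] <;> nlinarith
  · have t0 := k.tt_nn a
    have t1 := k.tt_lt a
    simp only [dQ, dF, Pi.add_apply, Pi.smul_apply, Pi.sup_apply, smul_eq_mul, dep_dg]
    split_ifs
    exacts [le_sup_of_le_left (by nlinarith), le_sup_of_le_left (by linarith),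
      le_sup_of_le_left (by linarith), le_sup_of_le_right (by linarith)]
  · classical
    funext ω
    rw [RBA.mb_sb u fun a c e => by simp only [rA, sc, dep, e],
      ((sFr ι κ Φ _ (x n).c).1 (rA _) _ fun a => Real.exp_pos _).2.2.1]
    congr 2
    funext a
    simp only [rA, Pi.add_apply, neg_add, Real.exp_add]

end Pool.Agent.MP_5168f5_an.AN.TG.TA
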