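import Pool.Agent.MP_5168f5_an.AN.TAApi

/-! A bound for every value of a variable gives a bound given the variable. -/

namespace Pool.Agent.MP_5168f5_an.AN.TG.TA

open H19 H17S H17F Filter

namespace SupA

theorem ex_ge {Ω : Type} (P : FP Ω) (f : Ω → ℝ) : ∃ ω ∈ P.S, P.E f ≤ f ω := by
  obtain ⟨a, ha, -⟩ := ex_of_pb (P := P) (E := fun _ => True) (by rw [pb_true]; exact one_pos)
  obtain ⟨ω, h, e⟩ := P.S.exists_max_image f ⟨a, ha⟩
  exact ⟨ω, h, (P.E_mono e).trans_eq (P.E_const _)⟩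

end SupA

theorem rowSup : Sup := by
  intro Ω α β γ P b F G M h H
  choose w hw e using fun n => SupA.ex_ge (P n) fun ω =>
    ch (cv (P n) (b n) (b n ω)) (F n (b n ω)) (G n)
  refine (H (fun n => b n (w n)) fun n => ⟨w n, hw n, rfl⟩).mono (h.mono fun n k => ?_)
  exact ((ch_congr (Fn.fst _ _) (Fn.fst _ _) (Fn.fst _ _) ((Fn.rfl (G n)).pair k)).trans
    (R4.ke.ent (P n) (b n) (F n) fun _ => G n)).trans_le (e n)

end Pool.Agent.MP_5168f5_an.AN.TG.TA
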