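import Pool.Agent.MP_5168f5_an.AN.TAApi

/-! Kakeya sets in all dimensions: the tangent with independent families. -/

namespace Pool.Agent.MP_5168f5_an.AN.TG.TA

open H19 H17S H17F G39 GA TL Filter H61Z
open R4 (Eqv CF cf_le cf_ev cf_all cf_diag)

namespace TanA

variable {ι κ : Type} [Fintype ι] [DecidableEq ι] [Fintype κ] {Φ : Filt (Mt ι)}
  {om : κ → ℝ × ℝ} {pos : κ → Prop} {x : ℕ → Sy ι κ}

theorem pm_mono {G : (κ → ℝ) → Prop} {H : (κ → ℝ) → ℝ} (h : GO.Pm G H) {U U' N N' : κ → ℝ}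
    (a : G U) (a' : G U') (b : G N) (b' : G N') (e : U ≤ U') (f : N ≤ N') :
    H U - (H (U ⊔ N) - H N) ≤ H U' - (H (U' ⊔ N') - H N') := by
  have h1 := h.sub U U' (U ⊔ N) a a' (h.sup _ _ a b) e le_sup_left
  have h2 := h.sub N N' (U' ⊔ N) b b' (h.sup _ _ a' b) f le_sup_right
  rw [← sup_assoc, sup_eq_left.2 e] at h1
  rw [sup_left_comm, sup_eq_left.2 f] at h2
  linarith

/-- The defect of independence grows with the level. -/
theorem ind_mono (lk : Lnk) (hT : Term om) (g : G0 Φ om pos x) (k : Bool) {K K' : ℝ} (h0 : 0 ≤ K)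
    (h1 : K ≤ K') : Le (un x) (fun n => inD om (x n) k K) fun n => inD om (x n) k K' := by
  obtain ⟨-, pm, -, h⟩ := lk ι κ Φ om pos x hT g
  have w := wk g
  have r : ∀ L : ℝ, 0 ≤ L → Eqv (un x) (fun n => inD om (x n) k L) fun n =>
      (Hx x (dU om k L) - Hx x 0 - (Hx x (dU om k L ⊔ dep om (lv k L)) - Hx x (dep om (lv k L)))) *
        (x n).M := fun L hL => by
    have := (h _ _ _ _ _ _ (w.gt_dU k hL) (w.gt_lv k hL) gt_zero (apx_sc x _) (apx_sc x _)
      (apx_sc x _)).2.2.2 (w.gt_lv k hL).nn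
    rwa [sup_eq_left.2 (show (0 : κ → ℝ) ≤ _ from (w.gt_dU k hL).nn)] at this
  have := pm_mono pm (w.gt_dU k h0) (w.gt_dU k (h0.trans h1)) (w.gt_lv k h0)
    (w.gt_lv k (h0.trans h1)) (fun a => by
      unfold dU; split_ifs
      exacts [mul_le_mul_of_nonneg_left h1 (add_nonneg (w.wt a).1 (w.wt a).2), le_rfl])
    (fun a => by
      have := mul_le_mul_of_nonneg_left h1 (w.wt a).1
      have := mul_le_mul_of_nonneg_left h1 (w.wt a).2
      cases k <;> simp only [dep, lv, cond] <;> linarith)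
  exact ((r K h0).1.trans (rate_le (by linarith))).trans (r K' (h0.trans h1)).2

/-- The triples that have to be small. -/
def Tr (om : κ → ℝ × ℝ) (pos bs : κ → Prop) (a b e : κ) : Prop :=
  bs e ∨ P1 om a ∧ P2 om b ∧ ¬bs a ∧ ¬bs b ∧ Mx om e ∧ pos e

omit [Fintype κ] in
theorem sC_hm {a b e : κ} (h : Hm om a b e) (m : ℕ) (t : ℝ × ℝ) (c : κ → κ → κ → ℝ) :
    sC (rA (sc m (dep om t))) c a b e = c a b e := by
  have : rA (sc m (dep om t)) e = rA (sc m (dep om t)) a * rA (sc m (dep om t)) b := by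
    simp only [rA, sc, dep, h.2.2, Prod.fst_add, Prod.snd_add, ← Real.exp_add]; congr 1; ring
  rw [sC, mul_assoc, ← this]
  exact mul_div_cancel_right₀ _ (Real.exp_pos _).ne'

/-- The conditions of index `i`. -/
def Kc (Φ : Filt (Mt ι)) (om : κ → ℝ × ℝ) (pos bs : κ → Prop) (C m : ℝ) (i : ℕ)
    (z : ℕ → Sy ι κ) : Prop := Mn Φ om pos C m z ∧
  (∀ b : Bool, Le (un z) (fun n => inD om (z n) b i) fun n => 1 / (i + 1 : ℝ) * (z n).M) ∧
  ∀ᶠ n in UF, ∀ a b e, Tr om pos bs a b e → |(z n).c a b e| ≤ Real.exp (-(i * (z n).M))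

end TanA

open TanA

theorem rowTan : OfTan := by
  intro kt lk zm wi gr ι κ _ _ _ Φ om pos x hT g C m bs mn lo ad
  have os : ∀ p : κ × κ × κ, ∃ c : {c : ℝ // 0 < c}, Tr om pos bs p.1 p.2.1 p.2.2 →
      ∀ᶠ n in UF, |(x n).c p.1 p.2.1 p.2.2| ≤ dl (un x) c n := fun ⟨a, b, e⟩ => by
    by_cases h : Tr om pos bs a b e
    · obtain ⟨c, u, v⟩ := h.elim (fun h => ad.add e h a b) fun h =>
        ad.ker a b e h.1 h.2.1 h.2.2.1 h.2.2.2.1 h.2.2.2.2.1 h.2.2.2.2.2
      exact ⟨⟨c, u⟩, fun _ => v⟩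
    · exact ⟨⟨1, one_pos⟩, fun k => absurd k h⟩
  choose c hc using os
  haveI : Nonempty {c : ℝ // 0 < c} := ⟨⟨1, one_pos⟩⟩
  obtain ⟨⟨c0, p0⟩, h0⟩ := Finite.exists_ge c
  have lv : ∀ a b e, Tr om pos bs a b e → om e ≠ 0 := fun a b e h =>
    h.elim (fun h => g.alg.live e (ad.mem e h).1) fun h => mx_live h.2.2.2.2.1
  have ex : ∀ k : ℕ, ∃ y : ℕ → Sy ι κ, ∀ i ≤ k, Kc Φ om pos bs C m i y := fun k => by
    have m0 : 0 < min 1 c0 := lt_min one_pos p0
    obtain ⟨t, s, w, wn, hw, hi⟩ := gr ι κ Φ om pos x hT g C mn.1 k (min 1 c0 / (k + 1))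
      (Nat.cast_nonneg _) (by positivity)
    obtain ⟨gy, e1, e2, -⟩ := zm ι κ Φ om pos x hT g C mn.1 t w wn.t1 wn.t2 wn.w0
    refine ⟨fun n => zw om (x n) t w, fun i hik => ⟨((wi ι κ Φ om pos x hT g C m mn lo).2 t s w
      wn).1, fun b => ?_, ?_⟩⟩
    · have ik : (i : ℝ) ≤ k := Nat.cast_le.2 hik
      refine (ind_mono lk hT gy.toG0 b (Nat.cast_nonneg _) ik).trans ((e1 _ _).2 ((hi b).trans
        (((Le.of_le fun n => (mul_assoc _ _ _).le).trans (e2.2.smul (by positivity))).trans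
          (Le.of_le fun n => mul_le_mul_of_nonneg_right ?_ (Nat.cast_nonneg _)))))
      exact div_le_div₀ zero_le_one (min_le_left _ _) (by positivity) (by linarith)
    · refine eventually_all.2 fun a => eventually_all.2 fun b => eventually_all.2 fun e =>
        eventually_all.2 fun h => ?_
      by_cases hm : Hm om a b e
      · refine (hc (a, b, e) h).mono fun n u => ((congrArg _ (sC_hm hm _ t _)).trans_le u).trans
          (Real.exp_le_exp.2 (neg_le_neg ?_))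
        have ik : (i : ℝ) ≤ k := Nat.cast_le.2 hik
        have f1 : (⌊w * (x n).M⌋₊ : ℝ) ≤ w * (x n).M := Nat.floor_le (by have := wn.w0; positivity)
        have f2 : (i : ℝ) * w ≤ (c (a, b, e) : ℝ) := by
          have := (le_div_iff₀ (by positivity)).1 hw
          have f3 : c0 ≤ c (a, b, e) := h0 (a, b, e)
          nlinarith [wn.w0, min_le_right 1 c0]
        exact (mul_le_mul_of_nonneg_left f1 (Nat.cast_nonneg _)).trans
          ((mul_assoc _ _ _).ge.trans (mul_le_mul_of_nonneg_right f2 (Nat.cast_nonneg _)))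
      · exact gy.alg.hom a b e (lv a b e h) hm i
  choose y hy using ex
  obtain ⟨k, -, hk⟩ := cf_diag (K := Kc Φ om pos bs C m) (fun i =>
    ((kt.cf ι κ Φ om pos x C).and (cf_le (fun _ z => z.M) (fun _ z => JJ om pos z)
      fun _ z => m * z.M)).and ((cf_all fun b : Bool => cf_le (fun _ z => z.M)
        (fun _ z => inD om z b i) fun _ z => 1 / (i + 1 : ℝ) * z.M).and
          (cf_ev fun _ (z : Sy ι κ) => ∀ a b e, Tr om pos bs a b e →
            |z.c a b e| ≤ Real.exp (-(i * z.M))))) y hy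
  have ng : ∀ a b e, Tr om pos bs a b e → Neg (un fun n => y (k n) n) fun n =>
      (y (k n) n).c a b e := fun a b e h K => (hk ⌈K⌉₊).2.2.mono fun n u => (u a b e h).trans
    (Real.exp_le_exp.2 (neg_le_neg
      (mul_le_mul_of_nonneg_right (Nat.le_ceil K) (Nat.cast_nonneg _))))
  refine ⟨fun n => y (k n) n, (hk 0).1, ⟨ad.mem, fun a h b b' => ng b b' a (Or.inl h),
    fun a b e h1 h2 h3 h4 h5 h6 => ng a b e (Or.inr ⟨h1, h2, h3, h4, h5, h6⟩)⟩,
    fun b K hK ε hε => ?_⟩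
  obtain ⟨j, hj⟩ := exists_nat_one_div_lt (half_pos hε)
  have i1 : K ≤ (max j ⌈K⌉₊ : ℕ) := (Nat.le_ceil K).trans (Nat.cast_le.2 (le_max_right _ _))
  have i2 : 1 / ((max j ⌈K⌉₊ : ℕ) + 1 : ℝ) ≤ ε / 2 :=
    (Nat.one_div_le_one_div (le_max_left _ _)).trans hj.le
  refine (((ind_mono lk hT (hk 0).1.1.toG0 b hK i1).trans ((hk _).2.1 b)) _
    (half_pos hε)).mono fun n u => u.trans ?_
  have := mul_le_mul_of_nonneg_right i2 (Nat.cast_nonneg (y (k n) n).M)
  simp only [un]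
  linarith

end Pool.Agent.MP_5168f5_an.AN.TG.TA
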