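import Pool.Agent.MP_5168f5_an.AN.TAApi

/-! Kakeya sets in all dimensions: the terminal case from its parts. -/

namespace Pool.Agent.MP_5168f5_an.AN.TG.TA

open H19 H17S H17F G39 GA TL Filter H61Z

theorem TermA.kb {κ : Type} [Fintype κ] (om : κ → ℝ × ℝ) : ∃ K, Kb om K := by
  obtain ⟨K, h⟩ := Finite.exists_le fun a => max (om a).1⁻¹ (om a).2⁻¹
  refine ⟨max K 0, le_max_right _ _, fun a => ⟨fun e => ?_, fun e => ?_⟩⟩ <;>
    refine (inv_le_iff_one_le_mul₀' e).1 (le_trans ?_ ((h a).trans (le_max_left _ _)))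
  exacts [le_max_left _ _, le_max_right _ _]

theorem rowTerm : OfTerm := by
  intro h1 h2 h3 h4 h5 ι κ _ _ _ Φ om pos x C gs t ih
  classical
  have tm : Term om := fun a b u v => (t a b u v).trans (mul_comm _ _)
  by_contra nf
  obtain ⟨m, y, lt, my⟩ := h1 ι κ Φ om pos x tm gs.toG0 C gs nf
  obtain ⟨m', z, m0, le, mz, lo⟩ := h2 ι κ Φ om pos y tm my.1.toG0 C m my
  obtain ⟨A, A', bs, a1, a2, a3, a4⟩ := tAdp ι κ _ Φ om pos _ _ mz.1.alg tm
  have mw := h3 ι κ Φ om pos z tm mz.1.toG0 C m' A A' ⟨a1, a2, a3⟩ mz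
  obtain ⟨w, mv, ad, ind⟩ := h4 ι κ Φ om pos _ tm mw.1.toG0 C m' bs mw lo a4
  obtain ⟨K, hK⟩ := TermA.kb om
  exact (h5 ι κ Φ om pos w tm mv.1.toG0 bs K ad hK C m' mv lo ih ind m0).not_gt (le.trans_lt lt)

end Pool.Agent.MP_5168f5_an.AN.TG.TA
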