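import Pool.Agent.MP_5168f5_an.AN.TAApi

/-! In a minimal system all windows have the minimal rate. -/

namespace Pool.Agent.MP_5168f5_an.AN.TG.TA

open H19 H17S H17F G39 GA TL Filter H61Z
open R4 (Eqv)

namespace WinA

section Wt

variable {κ : Type} [Fintype κ] {om : κ → ℝ × ℝ} {pos : κ → Prop} {H : (κ → ℝ) → ℝ}
  {t : ℝ × ℝ} {s w : ℝ}

theorem dY_pp {a : κ} (e : PP om pos a) (K ρ : ℝ) : dY om pos K ρ a = K := dF_pp e _ _

theorem dY_cc {a : κ} (e : CC om pos a) (K ρ : ℝ) : dY om pos K ρ a = tt om a * ρ := dF_cc e _ _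

theorem dY_st {a : κ} (e : ¬pos a) (K ρ : ℝ) : dY om pos K ρ a = 0 := dF_st e _ _

theorem dY_mono (h : WK om pos) (K : ℝ) {ρ ρ' : ℝ} (e : ρ ≤ ρ') :
    dY om pos K ρ ≤ dY om pos K ρ' := fun a => by
  rcases tri om pos a with k | k | k
  · rw [dY_pp k, dY_pp k]
  · rw [dY_cc k, dY_cc k]; exact mul_le_mul_of_nonneg_left e (h.tt_nn a)
  · rw [dY_st k, dY_st k]

/-- Raising the pure positions has a cost that does not depend on the level. -/
theorem key (h : WK om pos) (hH : GO.Pm (GT om pos) H) (hF : ∀ (t : ℝ × ℝ) (r : ℝ), 0 ≤ t.1 →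
      0 ≤ t.2 → 0 ≤ r → H (dep om t) + cd (PP om pos) * r ≤ H (dep om t + dF om pos r 0))
    (hw : Wn om pos t s w) {u : ℝ} (u0 : 0 ≤ u) (u1 : u ≤ w) :
    H (dep om t ⊔ dY om pos 1 (s + u)) = H (dep om t + dY om pos w u) +
      ∑ a, dF om pos 1 0 a * (1 - dep om t a - w) := by
  have gD := h.gt_dep hw.t1 hw.t2
  have q1 : 0 ≤ (t + dg om u).1 := add_nonneg hw.t1 (div_nonneg u0 h.sg_pos.le)
  have q2 : 0 ≤ (t + dg om u).2 := add_nonneg hw.t2 (div_nonneg u0 h.sg_pos.le)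
  have gN := h.gt_dep q1 q2
  have gE := gD.add (h.gt_dY u0 u1)
  have gE' := gD.sup (h.gt_dY (add_nonneg hw.s0 u0) (K := 1) (by linarith [hw.sw]))
  have gF := gN.add (h.gt_dF (f := 0) zero_le_one fun _ => ⟨le_rfl, zero_le_one⟩)
  obtain ⟨N, hN⟩ : ∃ N, N = dep om (t + dg om u) := ⟨_, rfl⟩
  have f1 := hF _ 1 q1 q2 zero_le_one
  rw [← hN] at gN gF f1
  obtain ⟨E, hE⟩ : ∃ E, E = dep om t + dY om pos w u := ⟨_, rfl⟩
  obtain ⟨E', hE'⟩ : ∃ E', E' = dep om t ⊔ dY om pos 1 (s + u) := ⟨_, rfl⟩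
  rw [← hE] at gE ⊢
  rw [← hE'] at gE' ⊢
  have pt : ∀ a, E' a - E a = dF om pos 1 0 a * (1 - dep om t a - w) ∧ E a ≤ E' a ∧
      (E' ⊔ (N ⊔ E)) a ≤ (N + dF om pos 1 0) a ∧ E' a - E a + ((N ⊔ E) a - N a) +
        ((N + dF om pos 1 0) a - (E' ⊔ (N ⊔ E)) a) = dF om pos 1 0 a := fun a => by
    have n : N a = dep om t a + tt om a * u := by
      rw [hN, ← dep_dg]; simp only [dep, Prod.fst_add, Prod.snd_add]; ring
    have a0 := gD.nn a
    have a1 := mul_nonneg (h.tt_nn a) u0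
    have a2 : tt om a * u ≤ w := (mul_le_of_le_one_left u0 (h.tt_lt a).le).trans u1
    simp only [Pi.sup_apply, Pi.add_apply]
    rcases tri om pos a with k | k | k
    · have a3 := hw.pu a k
      have e : E a = dep om t a + w := by rw [hE, Pi.add_apply, dY_pp k]
      have e' : E' a = 1 := by
        rw [hE', Pi.sup_apply, dY_pp k]; exact sup_eq_right.2 (by linarith [hw.w0])
      rw [sup_eq_right.2 (show N a ≤ E a by linarith), sup_eq_left.2 (show E a ≤ E' a by linarith),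
        dF_pp k, e, e']
      refine ⟨by ring, by linarith, by linarith, by ring⟩
    · have e : E a = N a := by rw [hE, Pi.add_apply, dY_cc k, n]
      have e' : E' a = N a := by
        rw [hE', Pi.sup_apply, dY_cc k, n, hw.mx a k, mul_add]; exact sup_eq_right.2 (by linarith)
      simp [dF_cc k, e, e']
    · have e : E a = dep om t a := by rw [hE, Pi.add_apply, dY_st k, add_zero]
      have e' : E' a = dep om t a := by rw [hE', Pi.sup_apply, dY_st k]; exact sup_eq_left.2 a0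
      rw [sup_eq_left.2 (show E a ≤ N a by linarith), sup_eq_right.2 (show E' a ≤ N a by linarith),
        dF_st k, e, e']
      simp
  have l1 := hH.lip _ _ gE gE' fun a => (pt a).2.1
  have l2 := hH.lip _ _ gN (gN.sup gE) le_sup_left
  have l3 := hH.lip _ _ (gE'.sup (gN.sup gE)) gF fun a => (pt a).2.2.1
  have l4 := hH.sub _ _ _ gE gE' (gN.sup gE) (fun a => (pt a).2.1) le_sup_right
  have l5 := Finset.sum_congr (s₁ := Finset.univ) rfl fun a _ => (pt a).2.2.2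
  have l6 : ∑ a, dF om pos 0 0 a = 0 := Finset.sum_eq_zero fun a _ => by
    unfold dF; split_ifs <;> rfl
  rw [Finset.sum_add_distrib, Finset.sum_add_distrib, sum_dF, l6] at l5
  rw [← Finset.sum_congr rfl fun a _ => (pt a).1]
  linarith

end Wt

variable {ι κ : Type} [Fintype ι] [DecidableEq ι] [Fintype κ] {Φ : Filt (Mt ι)}
  {om : κ → ℝ × ℝ} {pos : κ → Prop} {y : ℕ → Sy ι κ}

theorem jr (hL : Lnk) (hT : Term om) (h : G0 Φ om pos y) : Eqv (un y) (fun n => JJ om pos (y n))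
    fun n => (Hx y (dY om pos 1 1) - Hx y (dY om pos 1 0)) * (y n).M := by
  have k := wk h
  have := ((hL ι κ Φ om pos y hT h).2.2.2 _ _ _ _ _ _ (k.gt_dY zero_le_one le_rfl)
    (k.gt_dY le_rfl zero_le_one) (k.gt_dY le_rfl zero_le_one) (apx_sc y _) (apx_sc y _)
    (apx_sc y _)).2.1
  rwa [sup_eq_left.2 (dY_mono k 1 zero_le_one)] at this

end WinA

open WinA in
theorem rowWin : OfWin := by
  intro hL hP hZ ι κ _ _ _ Φ om pos x hT h0 C m hM hLow
  have k := wk h0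
  have hH := (hL ι κ Φ om pos x hT h0).2.1
  have top : Hx x (dY om pos 1 1) - Hx x (dY om pos 1 0) ≤ m :=
    le_of_rate h0.alg.big ((jr hL hT h0).2.trans hM.2)
  have win : ∀ t s w, Wn om pos t s w → GS Φ om pos C (fun n => zw om (x n) t w) ∧
      w * (Hx (fun n => zw om (x n) t w) (dY om pos 1 1) -
        Hx (fun n => zw om (x n) t w) (dY om pos 1 0)) =
        Hx x (dep om t ⊔ dY om pos 1 (s + w)) - Hx x (dep om t ⊔ dY om pos 1 s) ∧
      m * w ≤ Hx x (dep om t ⊔ dY om pos 1 (s + w)) - Hx x (dep om t ⊔ dY om pos 1 s) ∧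
      Hx x (dep om t ⊔ dY om pos 1 (s + w)) - Hx x (dep om t ⊔ dY om pos 1 s) ≤
        Hx x (dY om pos 1 (s + w)) - Hx x (dY om pos 1 s) := fun t s w hw => by
    obtain ⟨z1, -, -, z2⟩ := hZ ι κ Φ om pos x hT h0 C hM.1 t w hw.t1 hw.t2 hw.w0
    have a1 := (z2 _).2.2 (k.gt_dY zero_le_one le_rfl)
    have a2 := (z2 _).2.2 (k.gt_dY le_rfl zero_le_one)
    have a3 := key k hH ((hP ι κ Φ om pos x hT h0).1 C hM.1) hw hw.w0.le le_rfl
    have a4 := key k hH ((hP ι κ Φ om pos x hT h0).1 C hM.1) hw le_rfl hw.w0.le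
    have a5 := mul_le_mul_of_nonneg_left (le_of_rate z1.alg.big
      ((hLow _ z1).trans (jr hL hT z1.toG0).1)) hw.w0.le
    have g1 := k.gt_dY (K := 1) hw.s0 (by linarith [hw.sw, hw.w0])
    have a6 := hH.sub _ _ _ g1 ((k.gt_dep hw.t1 hw.t2).sup g1)
      (k.gt_dY (add_nonneg hw.s0 hw.w0.le) hw.sw) le_sup_right
      (dY_mono k 1 (le_add_of_nonneg_right hw.w0.le))
    rw [sup_assoc, sup_eq_right.2 (dY_mono k 1 (le_add_of_nonneg_right hw.w0.le))] at a6
    rw [smul_dY, mul_one] at a1 a2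
    rw [mul_zero] at a2
    rw [add_zero] at a4
    exact ⟨z1, by linarith, by linarith, by linarith⟩
  have inc : ∀ s w : ℝ, 0 ≤ s → 0 ≤ w → s + w ≤ 1 →
      m * w ≤ Hx x (dY om pos 1 (s + w)) - Hx x (dY om pos 1 s) := fun s w a b c => by
    rcases b.eq_or_lt with rfl | b
    · simp
    · obtain ⟨-, -, u, v⟩ := win _ _ _ (k.wn_dg a b c)
      exact u.trans v
  have lin : ∀ s : ℝ, 0 ≤ s → s ≤ 1 → Hx x (dY om pos 1 s) = Hx x (dY om pos 1 0) + m * s :=
    fun s a b => by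
      have u := inc 0 s le_rfl a (by linarith)
      have v := inc s (1 - s) a (by linarith) (by linarith)
      rw [zero_add] at u
      rw [add_sub_cancel] at v
      linarith
  refine ⟨lin, fun t s w hw => ?_⟩
  obtain ⟨z1, a1, a2, a3⟩ := win t s w hw
  rw [lin (s + w) (add_nonneg hw.s0 hw.w0.le) hw.sw, lin s hw.s0 (by linarith [hw.sw, hw.w0])] at a3
  exact ⟨⟨z1, (jr hL hT z1.toG0).1.trans (rate_le (le_of_mul_le_mul_left (by linarith) hw.w0))⟩,
    by linarith⟩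

end Pool.Agent.MP_5168f5_an.AN.TG.TA
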