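import Pool.Agent.MP_5168f5_an.AN.TBSpec

/-! Jointly full coordinates are full one by one. -/

namespace Pool.Agent.MP_5168f5_an.AN.TB

open H19 H17S H17F Filter R4.K31

namespace TBFulCA

variable {Ω A I : Type} {P : FP Ω}

theorem one {x : Ω → ℝ} (G : Ω → A) (R : ℕ) {L : ℝ} (hL : 1 ≤ L) (h : ∀ ω ∈ P.S, |x ω| ≤ L) :
    ch P (fun ω => fl1 R (x ω)) G ≤ R * lg + Real.log (2 * (2 * L) + 3) := by
  have p2 : (1 : ℝ) ≤ 2 ^ R := one_le_pow₀ one_le_two
  refine (ch_near1 (L := 2 * L * 2 ^ R) (by positivity) fun a ha b hb _ => ?_).trans ?_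
  · rw [mul_div_assoc, div_self (by positivity), mul_one]
    linarith [abs_sub (x a) (x b), h a ha, h b hb]
  · rw [← log_two_pow, ← Real.log_mul (by positivity) (by positivity)]
    exact Real.log_le_log (by positivity) (by nlinarith)

theorem many [Fintype I] {x : Ω → I → ℝ} (G : Ω → A) (R : ℕ) {L : ℝ} (hL : 1 ≤ L)
    (h : ∀ ω ∈ P.S, ‖x ω‖ ≤ L) (S : Finset I) :
    ch P (fun ω => prj S (flv R (x ω))) G ≤ S.card * (R * lg + Real.log (2 * (2 * L) + 3)) := by
  classical
  have h1 := ch_pi_le (P := P) S (fun j ω => fl1 R (x ω j)) 0 G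
  have h2 := Finset.sum_le_card_nsmul S (fun j => ch P (fun ω => fl1 R (x ω j)) G) _
    fun j _ => one G R hL fun ω hω => (norm_le_pi_norm (x ω) j).trans (h ω hω)
  rw [nsmul_eq_mul] at h2
  refine le_trans (le_of_eq ?_) (h1.trans h2)
  congr 1

theorem split (m : Ω → I → ℤ) (G : Ω → A) (B : Finset I) (i : I) :
    ch P (fun ω => prj B (m ω)) G ≤ ch P (fun ω => prj (er B (some i)) (m ω)) G +
      ch P (fun ω => m ω i) fun ω => (G ω, prj (er B (some i)) (m ω)) := by
  refine (ch_tri _ (fun ω => prj (er B (some i)) (m ω)) G).trans (add_le_add le_rfl ?_)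
  refine ch_le (fun a _ b _ e => ?_) fun a _ b _ e => ?_
  · simp only [Prod.mk.injEq] at e
    funext j
    by_cases hj : j = i
    · subst hj; simp only [prj, e.1]
    · have := congrFun e.2.1 j
      unfold prj at this ⊢
      by_cases hB : j ∈ B
      · have h1 : j ∈ er B (some i) := by simp [er, hj, hB]
        rw [if_pos h1, if_pos h1] at this
        rw [if_pos hB, if_pos hB, this]
      · rw [if_neg hB, if_neg hB]
  · simp only [Prod.mk.injEq] at e ⊢
    exact ⟨e.2, e.1⟩

end TBFulCA

open TBFulCA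

theorem rowFulC : FulC := by
  intro I _ Ω A P G x B R L hR hL hx hB i hi
  have hs := fun C => (hL.const_mul hR one_le_two).log3 hR C
  have hc : ((er B (some i)).card : ℝ) = B.card - 1 := by
    classical
    have h1 := Finset.card_erase_add_one hi
    have h2 : (er B (some i)).card + 1 = B.card := by
      rw [← h1]; simp only [er, Option.elim]
    rw [← h2]; push_cast; ring
  have h1 : Le R (fun n => R n * lg) (fun n => ch (P n) (fun ω => fl1 (R n) (x n ω i)) fun ω =>
      (G n ω, prj (er B (some i)) (flv (R n) (x n ω)))) := by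
    refine hB.of2 (hs (B.card - 1)) (hx.mono fun n hn => ?_)
    have a1 := split (P := P n) (fun ω => flv (R n) (x n ω)) (G n) B i
    have a2 := many (G n) (R n) (hL.1 n) hn (er B (some i))
    rw [hc] at a2
    simp only [flv] at a1 a2 ⊢
    linarith
  refine ⟨h1, h1.of2 (hs 1) (hx.mono fun n hn => ?_)⟩
  have a1 := one (x := fun ω => x n ω i) (G n) (R n) (hL.1 n)
    fun ω hω => (norm_le_pi_norm (x n ω) i).trans (hn ω hω)
  linarith

end Pool.Agent.MP_5168f5_an.AN.TB
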