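import Pool.Agent.MP_5168f5_an.AN.TBSpec
import Pool.Agent.MP_5168f5_an.H17F.KG

/-! Kakeya sets in all dimensions: the difference of the central coordinates is bilinear. -/

namespace Pool.Agent.MP_5168f5_an.AN.TB

open H19 H17S H17F Filter R4.K31

namespace TBKAlgA

variable {I J ι : Type} [Fintype I] [Fintype J] {c : I → J → ι → ℝ} {R : ℕ} {L : ℝ}

theorem bl_sub_l (u u' : I → ℝ) (v : J → ℝ) : bl c (u - u') v = bl c u v - bl c u' v := by
  funext k; simp [bl, sub_mul]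

theorem bl_sub_r (u : I → ℝ) (v v' : J → ℝ) : bl c u (v - v') = bl c u v - bl c u v' := by
  funext k; simp [bl, sub_mul, mul_sub]

theorem bl_smul_l (s : ℝ) (u : I → ℝ) (v : J → ℝ) : bl c (s • u) v = s • bl c u v := by
  funext k; simp [bl, Finset.mul_sum, mul_assoc]

theorem bl_smul_r (s : ℝ) (u : I → ℝ) (v : J → ℝ) : bl c u (s • v) = s • bl c u v := by
  funext k; simp [bl, Finset.mul_sum, mul_assoc, mul_left_comm]

theorem bl_zero {u : I → ℝ} {v : J → ℝ} {k : ι} (h : ∀ a b, c a b k ≠ 0 → u a = 0 ∨ v b = 0) :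
    bl c u v k = 0 :=
  Finset.sum_eq_zero fun a _ => Finset.sum_eq_zero fun b _ => by
    by_cases e : c a b k = 0
    · rw [e, mul_zero]
    · rw [mul_eq_zero.2 (h a b e), zero_mul]

theorem bl_le [Fintype ι] (hc : ∀ a b k, |c a b k| ≤ L) (hL : 1 ≤ L) {u : I → ℝ} {v : J → ℝ}
    {A B : ℝ} (hu : ‖u‖ ≤ A) (hv : ‖v‖ ≤ B) :
    ‖bl c u v‖ ≤ Fintype.card I * Fintype.card J * (A * B * L) := by
  have a0 := (norm_nonneg _).trans hu
  have b0 := (norm_nonneg _).trans hv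
  refine (pi_norm_le_iff_of_nonneg (by positivity)).2 fun k => (norm_sum_le _ _).trans
    ((Finset.sum_le_card_nsmul _ _ (Fintype.card J * (A * B * L)) fun a _ =>
      (norm_sum_le _ _).trans ((Finset.sum_le_card_nsmul _ _ (A * B * L) fun b _ => ?_).trans_eq
        (by simp))).trans_eq (by simp [mul_assoc]))
  rw [norm_mul, norm_mul]
  gcongr
  exacts [(norm_le_pi_norm u a).trans hu, (norm_le_pi_norm v b).trans hv, hc a b k]

theorem rd_sub (R : ℕ) (x : I → ℝ) : ‖x - rd R x‖ ≤ (2 ^ R)⁻¹ :=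
  (pi_norm_le_iff_of_nonneg (by positivity)).2 fun a => by
    have h1 := fl1_le R (x a)
    have h2 := lt_fl1 R (x a)
    rw [Pi.sub_apply, rd, div_eq_inv_mul, Real.norm_eq_abs, abs_le]
    constructor <;> linarith

theorem rd_le (hL : 1 ≤ L) (R : ℕ) {x : I → ℝ} (h : ‖x‖ ≤ L) : ‖rd R x‖ ≤ 2 * L := by
  have : ((2 : ℝ) ^ R)⁻¹ ≤ 1 := inv_le_one_of_one_le₀ (one_le_pow₀ one_le_two)
  linarith [rd_sub R x, norm_sub_norm_le (rd R x) x, norm_sub_rev x (rd R x)]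

omit [Fintype I] in
theorem rd_eq {x y : I → ℝ} (h : flv R x = flv R y) : rd R x = rd R y :=
  funext fun a => congrArg (fun m : ℤ => (m : ℝ) / 2 ^ R) (congrFun h a)

theorem bl_rd [Fintype ι] (hc : ∀ a b k, |c a b k| ≤ L) (hL : 1 ≤ L) (R : ℕ) {u : I → ℝ}
    {v : J → ℝ} (hu : ‖u‖ ≤ L) (hv : ‖v‖ ≤ L) : ‖bl c u v - bl c (rd R u) (rd R v)‖ ≤
      3 * (Fintype.card I * Fintype.card J * L ^ 2 * (2 ^ R)⁻¹) := by
  have e : bl c u v - bl c (rd R u) (rd R v) =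
      bl c (u - rd R u) v + bl c (rd R u) (v - rd R v) := by
    rw [bl_sub_l, bl_sub_r, sub_add_sub_cancel]
  rw [e]
  linarith [norm_add_le (bl c (u - rd R u) v) (bl c (rd R u) (v - rd R v)),
    bl_le hc hL (rd_sub R u) hv, bl_le hc hL (rd_le hL R hu) (rd_sub R v)]

theorem ev_le (o : Option I) : ‖ev o‖ ≤ 1 := by
  cases o <;> simp [ev, Pi.norm_single]

theorem ev_sum (i : I) (f : I → ℝ) : ∑ a, ev (some i) a * f a = f i := by
  classical
  rw [Finset.sum_eq_single i (fun a _ e => by simp [ev, e]) (by simp)]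
  simp [ev]

theorem sum_le (o : Option I) (f : I → ℝ) : |∑ a, ev o a * f a| ≤ ‖f‖ := by
  obtain _ | i := o
  · simp [ev]
  · exact ev_sum i f ▸ norm_le_pi_norm f i

omit [Fintype I] in
theorem ev_zero {o : Option I} {t : I → ℝ} {s : ℝ} (h : s ≠ o.elim 0 t) {a : I} (e : t a = s) :
    ev o a = 0 := by
  obtain _ | i := o
  · rfl
  · have : a ≠ i := by rintro rfl; exact h e.symm
    simp [ev, this]

theorem kill {B : Finset I} {o : Option I} {x y : I → ℝ}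
    (h : prj (er B o) (flv R x) = prj (er B o) (flv R y)) {a : I} (ha : a ∈ B) :
    (rd R x - rd R y - (∑ b, ev o b * (rd R x - rd R y) b) • ev o) a = 0 := by
  have k : a ∈ er B o → rd R x a = rd R y a := fun m => by
    have := congrFun h a
    simp only [prj, if_pos m] at this
    exact congrArg (fun m : ℤ => (m : ℝ) / 2 ^ R) this
  obtain _ | i := o
  · simp [ev, k ha]
  · rw [ev_sum]
    by_cases e : a = i
    · simp [ev, e]
    · simp [ev, e, k (by simp [er, e, ha])]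

theorem mem2 {Ω β : Type} {P : FP Ω} {φ : Ω → β} {v : Ω × Ω} (h : v ∈ (glue P P φ φ).S) :
    v.1 ∈ P.S ∧ v.2 ∈ P.S ∧ φ v.2 = φ v.1 := (KGA.mem P P φ φ v (Law.rfl φ)).1 h

end TBKAlgA

open TBKAlgA in
theorem rowKAlg : KAlg := by
  intro I J ι _ _ _
  obtain ⟨N, hN⟩ : ∃ N : ℝ, N = Fintype.card I * Fintype.card J := ⟨_, rfl⟩
  have N0 : 0 ≤ N := by rw [hN]; positivity
  refine ⟨20 * N + 4, by linarith, fun x B1 B2 t1 t2 t R L o o' hL h _ _ =>
    ⟨fun y _ y' _ e => ?_, fun y hy y' hy' e => ?_, fun y hy => ?_⟩⟩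
  · obtain ⟨e1, e2⟩ := Prod.mk.inj (Prod.mk.inj e).1
    simp only [Tm.ζ, Tm.g, Tm.ah, rd_eq e1, rd_eq e2]
  · obtain ⟨e1, e2⟩ := Prod.mk.inj e
    simp only [Tm.r, Tm.p, Tm.bh, rd_eq e1, rd_eq (h.vv _ (mem2 (mem2 hy).1).2.1 _
      (mem2 (mem2 hy').1).2.1 (Prod.mk.inj e2).1)]
  obtain ⟨m1, m2, e⟩ := mem2 hy
  obtain ⟨a1, a2, e1⟩ := mem2 m1
  obtain ⟨b1, b2, e2⟩ := mem2 m2
  obtain ⟨e11, e12⟩ := Prod.mk.inj e1
  obtain ⟨e21, -⟩ := Prod.mk.inj e2
  obtain ⟨e3, e4⟩ := Prod.mk.inj e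
  obtain ⟨e5, e6⟩ := Prod.mk.inj e3
  have v1 := rd_eq (h.vv _ b1 _ a1 (h.v1 _ b1 _ a1 e5))
  have v2 := rd_eq (h.vv _ b2 _ a2 e6)
  have ah : ‖x.ah R y‖ ≤ 4 * L := (norm_sub_le _ _).trans
    (by linarith [rd_le hL R (h.bd _ a1).1, rd_le hL R (h.bd _ b1).1])
  have bh : ‖x.bh R y.1‖ ≤ 4 * L := (norm_sub_le _ _).trans
    (by linarith [rd_le hL R (h.bd _ a1).2.1, rd_le hL R (h.bd _ a2).2.1])
  have z := (sum_le o _).trans ah
  have l1 : L ≤ L ^ 2 := le_self_pow₀ hL two_ne_zero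
  have l2 : 0 ≤ N * L ^ 2 := by positivity
  have d0 : (0 : ℝ) < (2 ^ R)⁻¹ := by positivity
  have l3 := mul_le_mul_of_nonneg_right (hL.trans l1) d0.le
  have l4 := mul_nonneg l2 d0.le
  have key : ‖x.γ y.1.2 - x.γ y.2.2 - bl x.c (x.ah R y) (x.bh R y.1)‖ ≤
      3 * (2 ^ R)⁻¹ + 12 * (N * L ^ 2 * (2 ^ R)⁻¹) := by
    have g1 := norm_sub_lt_of_flv_eq (h.g1 _ b1 _ a1 e5).symm
    have g2 := norm_sub_lt_of_flv_eq (h.g2 _ a2 _ a1 e11)
    have g3 := norm_sub_lt_of_flv_eq (h.g2 _ b2 _ b1 e21).symm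
    have r := fun ω (k : ω ∈ x.P.S) => bl_rd h.bc hL R (h.bd ω k).1 (h.bd ω k).2.1
    have r1 := r _ a1
    have r2 := r _ a2
    have r3 := r _ b1
    have r4 := r _ b2
    rw [rd_eq (h.u2 _ a2 _ a1 e11)] at r2
    rw [rd_eq (h.u2 _ b2 _ b1 e21), v2] at r4
    rw [v1] at r3
    rw [norm_sub_rev] at r1 r4
    refine le_trans (le_of_eq (congrArg _ ?_)) ((norm_add_le_of_le (norm_add_le_of_le
      (norm_add₃_le.trans (add_le_add (add_le_add g1.le g2.le) g3.le)) (norm_add_le_of_le r1 r2))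
      (norm_add_le_of_le r3 r4)).trans_eq (by rw [hN]; ring))
    rw [Tm.ah, Tm.bh, bl_sub_l, bl_sub_r, bl_sub_r]
    abel
  have id : x.ζ R o y • x.p R o y + x.r R o' y • x.g R o o' y =
      bl x.c (x.ah R y) (x.bh R y.1) := by
    have : bl x.c (x.ah R y - x.ζ R o y • ev o) (x.bh R y.1 - x.r R o' y • ev o') = 0 :=
      funext fun k => bl_zero fun a b k =>
        (h.gr a b _ k).2.2.imp (kill e4.symm) (kill e12)
    rw [bl_sub_r, bl_sub_l, bl_smul_l, bl_smul_r, sub_sub] at this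
    exact (sub_eq_zero.1 this).symm
  refine ⟨⟨z.trans (by linarith), ((sum_le o' _).trans bh).trans (by linarith), ?_,
    (bl_le h.bc hL (ev_le o) bh).trans (by rw [← hN]; linarith),
    (h.bd _ a2).2.2.trans (by linarith),
    fun k e => bl_zero fun a b u => .inl (ev_zero e (h.gr a b k u).1),
    fun k e => bl_zero fun a b u => .inr (ev_zero e (h.gr a b k u).2.1), ?_⟩, ?_⟩
  · refine (bl_le h.bc hL (A := 8 * L) ((norm_sub_le _ _).trans ?_) (ev_le o')).trans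
      (by rw [← hN]; linarith)
    rw [norm_smul]
    nlinarith [ev_le o, norm_nonneg (ev o), show ‖x.ζ R o y‖ ≤ 4 * L from z]
  · rw [id, div_eq_mul_inv]
    linarith
  · have k := bl_le h.bc hL (norm_sub_le_of_le (rd_sub R (x.u y.1.1)) (rd_sub R (x.u y.2.1))) bh
    rw [norm_sub_rev] at key
    refine le_trans (le_of_eq (congrArg _ ?_)) ((norm_add_le_of_le k key).trans ?_)
    · simp only [Tm.X, Tm.ah, Tm.bh, v1, v2, bl_sub_l]
      abel
    · rw [← hN, div_eq_mul_inv]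
      linarith

end Pool.Agent.MP_5168f5_an.AN.TB
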