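import Pool.Agent.MP_5168f5_an.AN.TBSpec
import Pool.Agent.MP_5168f5_an.H17F.KE
import Pool.Agent.MP_5168f5_an.H17F.KG

/-! The terminal step: information on pairs. -/

namespace Pool.Agent.MP_5168f5_an.AN.TB

open H19 H17S H17F Filter R4.K31

namespace TBKInfAA

theorem kg : KG := rowKG rowKE

variable {Ω α β γ δ : Type} {P : FP Ω}

/-- The information of a copy given `(O, N)` on the first point. -/
theorem one (V : Ω → α) (O : Ω → β) (T : Ω → γ) (N : Ω → δ) (hT : Fn P T O) (hN : Fn P N V) :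
    mi (glue P P (fun ω => (O ω, N ω)) fun ω => (O ω, N ω)) (fun y => V y.2) Prod.fst
      (fun y => (T y.1, N y.1)) ≤ mi P V O T := by
  have h1 : ch (glue P P (fun ω => (O ω, N ω)) fun ω => (O ω, N ω)) (fun y => V y.2)
      (fun y => (T y.1, N y.1)) = ch P V fun ω => (T ω, N ω) := by
    rw [← (kg.snd P P _ _ (Law.rfl fun ω => (O ω, N ω))).ch_id V fun ω => (T ω, N ω)]
    refine ch_ext (fun _ _ => rfl) fun y hy => ?_
    obtain ⟨a, b, e⟩ := (kg.mem P P _ _ y (Law.rfl _)).1 hy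
    exact Prod.ext (hT _ a _ b (congrArg Prod.fst e).symm) (congrArg Prod.snd e).symm
  have h2 := kg.mk1 P P (fun ω => (O ω, N ω)) (fun ω => (O ω, N ω)) V
    (fun ω => (ω, T ω, N ω)) (Law.rfl _) fun a _ b _ e => by
      rw [show a = b from congrArg Prod.fst e]
  have h3 : ch P V (fun ω => (O ω, T ω, N ω)) ≤ ch P V fun ω => (O ω, N ω) :=
    ch_anti fun a _ b _ e => by simp only [Prod.mk.injEq] at e ⊢; tauto
  have h4 : mi P V O (fun ω => (T ω, N ω)) ≤ mi P V O T :=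
    mi_left (Fn.fst _ _) ((Fn.snd _ _).pair (hN.left _)) (Fn.fst _ _)
  unfold mi at h4 ⊢
  linarith

end TBKInfAA

open TBKInfAA in
theorem rowKInfA : KInfA := by
  intro I J ι _ _ _ x B1 B2 S' t1 t2 t R L h
  have hN : Fn x.P (fun ω => prj S' (flv R (x.v ω))) x.Vh := (Fn.comp (prj S') _).trans h.vv
  have l1 : Law (x.P2 R S') Prod.fst x.P id := kg.fst _ _ _ _
  have h1 : mi (x.P2 R S') (fun y => x.Vh y.2) Prod.fst
      (fun y => (x.T y.1, prj S' (flv R (x.v y.1)))) ≤ x.e2 := one x.Vh x.O2 x.T _ h.t2 hN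
  have h3 : mi (x.P2 R S') (fun y => x.Vh y.2) Prod.fst (fun y => x.O1 y.1) ≤ x.e2 :=
    (mi_cond (l1.fn ((h.tv.pair hN).trans h.v1)) fun a _ b _ e => by
      rw [show a.1 = b.1 from (Prod.ext_iff.1 e).1]).trans h1
  refine ⟨h1, ?_, h3, ?_, ?_⟩
  · exact ((kg.swap x.P x.P _ _ (Law.rfl (x.φ2 R S'))).symm.mi_id (fun y => x.Vh y.2) Prod.fst
      fun y => (x.T y.1, prj S' (flv R (x.v y.1)))).trans_le h1
  · have e1 := mi_chain (P := x.P2 R S') (fun y => flv R (x.u y.1)) (fun y => x.O1 y.1)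
      (fun y => x.Vh y.2) fun y => x.T y.1
    have e2 := l1.mi_id (fun ω => flv R (x.u ω)) x.O1 x.T
    have e3 : mi (x.P2 R S') (fun y => x.Vh y.2) (fun y => flv R (x.u y.1))
        (fun y => (x.O1 y.1, x.T y.1)) ≤
        mi (x.P2 R S') (fun y => x.Vh y.2) Prod.fst fun y => x.O1 y.1 :=
      mi_right (Fn.fst _ _) (fun a _ b _ e => by rw [show a.1 = b.1 from (Prod.ext_iff.1 e).1])
        fun a _ b _ e => by rw [show a.1 = b.1 from (Prod.ext_iff.1 e).1]
    rw [mi_symm _ fun y : x.Ω × x.Ω => x.Vh y.2, e2] at e1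
    exact e1.trans_le (add_le_add le_rfl (e3.trans h3))
  · have e1 := l1.ch_id (fun ω => prj B1 (flv R (x.u ω))) x.O1
    have e2 := ch_le_mi (P := x.P2 R S') (F := fun y => prj B1 (flv R (x.u y.1)))
      (G := fun y => x.Vh y.2) (K := fun y => x.O1 y.1) (K' := x.Xi)
      ((Fn.snd _ _).pair (Fn.fst _ _))
    have e3 : mi (x.P2 R S') (fun y => x.Vh y.2) (fun y => prj B1 (flv R (x.u y.1)))
        (fun y => x.O1 y.1) ≤ mi (x.P2 R S') (fun y => x.Vh y.2) Prod.fst fun y => x.O1 y.1 :=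
      mi_mono fun a _ b _ e => by rw [show a.1 = b.1 from (Prod.ext_iff.1 e).1]
    rw [mi_symm, e1] at e2
    linarith

end Pool.Agent.MP_5168f5_an.AN.TB
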