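import Pool.Agent.MP_5168f5_an.AN.TBSpec
import Pool.Agent.MP_5168f5_an.R4.Defs

/-! Kakeya sets in all dimensions: information on two pairs. -/

namespace Pool.Agent.MP_5168f5_an.AN.TB

open H19 H17S H17F Filter R4.K31

namespace TBKInfBA

variable {I J ι α β : Type} [Fintype I] [Fintype J] [Fintype ι] {x : Tm I J ι}
  {B1 S : Finset I} {B2 S' : Finset J} {t1 : I → ℝ} {t2 : J → ℝ} {t : ι → ℝ} {R : ℕ} {L : ℝ}

omit [Fintype I] [Fintype J] [Fintype ι] in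
theorem mem2 {y : x.Ω × x.Ω} (h : y ∈ (x.P2 R S').S) :
    y.1 ∈ x.P.S ∧ y.2 ∈ x.P.S ∧ x.φ2 R S' y.2 = x.φ2 R S' y.1 :=
  (R4.kg.mem _ _ _ _ y (Law.rfl _)).1 h

omit [Fintype I] [Fintype J] [Fintype ι] in
theorem mem4 {y : (x.Ω × x.Ω) × x.Ω × x.Ω} (h : y ∈ (x.P4 R S S').S) :
    y.1 ∈ (x.P2 R S').S ∧ y.2 ∈ (x.P2 R S').S ∧ x.φ1 R S y.2 = x.φ1 R S y.1 :=
  (R4.kg.mem _ _ _ _ y (Law.rfl _)).1 h

omit [Fintype I] [Fintype J] [Fintype ι] in
theorem law1 : Law (x.P4 R S S') Prod.fst (x.P2 R S') id := R4.kg.fst _ _ _ _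

omit [Fintype I] [Fintype J] [Fintype ι] in
theorem law2 : Law (x.P4 R S S') Prod.snd (x.P2 R S') id := R4.kg.snd _ _ _ _ (Law.rfl _)

omit [Fintype I] [Fintype J] [Fintype ι] in
theorem law12 : Law (x.P4 R S S') (fun y => y.1.2) x.P id :=
  (law1.comp Prod.snd).trans (R4.kg.snd _ _ _ _ (Law.rfl _))

omit [Fintype I] [Fintype J] [Fintype ι] in
theorem fv : Fn (x.P4 R S S') (fun y => x.Vh y.1.2) (x.Θ R S) := Fn.fst _ _

omit [Fintype I] in
theorem prj_prj (h : S ⊆ B1) (m : I → ℤ) : prj S (prj B1 m) = prj S m := by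
  funext a
  unfold prj
  by_cases e : a ∈ S
  · simp only [e, h e, if_true]
  · simp only [e, if_false]

variable (A : x.Alg B1 B2 t1 t2 t R L)

include A

theorem uu {y : (x.Ω × x.Ω) × x.Ω × x.Ω} (h : y ∈ (x.P4 R S S').S) :
    flv R (x.u y.1.1) = flv R (x.u y.1.2) :=
  have k := mem2 (mem4 h).1
  A.u2 _ k.1 _ k.2.1 (Prod.mk.inj k.2.2).1.symm

theorem tt {y : (x.Ω × x.Ω) × x.Ω × x.Ω} (h : y ∈ (x.P4 R S S').S) : x.T y.1.1 = x.T y.1.2 :=
  have k := mem2 (mem4 h).1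
  A.t2 _ k.1 _ k.2.1 (Prod.mk.inj k.2.2).1.symm

theorem fu : Fn (x.P4 R S S') (fun y => flv R (x.u y.1.1)) fun y => flv R (x.u y.1.2) :=
  fun _ ha _ hb e => (uu A ha).trans (e.trans (uu A hb).symm)

theorem fθ : Fn (x.P4 R S S') (x.Θ R S) fun y => (flv R (x.u y.1.2), x.Vh y.1.2) :=
  (Fn.snd _ _).pair (((Fn.comp (prj S) _).trans (fu A)).left _)

theorem fθ' : Fn (x.P4 R S S') (x.Θ R S) fun y => y.1.2 :=
  (fθ A).trans (Fn.comp (fun ω => (flv R (x.u ω), x.Vh ω)) fun y : (_ × _) × _ => y.1.2)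

theorem keyA : mi (x.P4 R S S') (fun y => flv R (x.γ y.1.2)) (fun y => flv R (x.u y.1.1))
    (x.Θ R S) ≤ x.e1 R := by
  refine (mi_right (G := fun y => flv R (x.u y.1.2)) (K := fun y => x.Vh y.1.2) fv
    (fθ A) ((fu A).left _)).trans ?_
  rw [law12.mi_id (fun ω => flv R (x.γ ω)) (fun ω => flv R (x.u ω)) x.Vh, mi_symm]
  exact mi_right A.tv (A.v1.left _) (A.g1.left _)

theorem keyB {G : (x.Ω × x.Ω) × x.Ω × x.Ω → α} {K : (x.Ω × x.Ω) × x.Ω × x.Ω → β}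
    (h : mi (x.P2 R S') (fun y => x.Vh y.1) Prod.snd
      (fun y => (x.T y.2, prj S' (flv R (x.v y.2)))) ≤ x.e2)
    (hG : Fn (x.P4 R S S') G fun y => y.1.2) (hK : Fn (x.P4 R S S') K fun y => y.1.2)
    (hV : Fn (x.P4 R S S') (fun y => x.Vh y.1.2) K) : mi (x.P4 R S S') (x.w R) G K ≤ x.e2 := by
  refine (mi_right (G := fun y => y.1.2)
    (K := fun y => (x.T y.1.2, prj S' (flv R (x.v y.1.2)))) ((law12.fn (A.tv.pair
      ((Fn.comp (prj S') _).trans A.vv))).trans hV) (hK.left _) (hG.left _)).trans ?_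
  refine ((law1.mi_id (fun y => flv R (x.v y.1)) Prod.snd fun y =>
    (x.T y.2, prj S' (flv R (x.v y.2)))).le.trans (mi_mono' ?_)).trans h
  exact Fn.left (fun a ha b hb e => A.vv _ (mem2 ha).1 _ (mem2 hb).1 e) _

theorem keyC {G : (x.Ω × x.Ω) × x.Ω × x.Ω → α} {K : (x.Ω × x.Ω) × x.Ω × x.Ω → β}
    (h : mi (x.P2 R S') (fun y => flv R (x.u y.1)) x.Xi (fun y => x.T y.1) ≤ x.e1 R + x.e2)
    (hG : Fn (x.P4 R S S') G Prod.fst) (hK : Fn (x.P4 R S S') K Prod.fst)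
    (hV : Fn (x.P4 R S S') (x.Θ R S) K) :
    mi (x.P4 R S S') G (fun y => flv R (x.u y.2.1)) K ≤ x.e1 R + x.e2 := by
  have h1 : Fn (x.P4 R S S') (fun y => (x.T y.2.1, prj S (flv R (x.u y.2.1)))) (x.Θ R S) := by
    have k : ∀ a ∈ (x.P4 R S S').S, x.T a.2.1 = x.T a.1.2 ∧
        prj S (flv R (x.u a.2.1)) = prj S (flv R (x.u a.1.1)) := fun a ha =>
      have m := mem4 ha
      ⟨((A.tv.trans A.v1) _ (mem2 m.2.1).1 _ (mem2 m.1).1
        (Prod.mk.inj (Prod.mk.inj m.2.2).1).1).trans (tt A ha), (Prod.mk.inj m.2.2).2⟩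
    exact fun a ha b hb e => Prod.ext ((k a ha).1.trans ((law12.fn A.tv a ha b hb
      (Prod.mk.inj e).1).trans (k b hb).1.symm))
      ((k a ha).2.trans ((Prod.mk.inj e).2.trans (k b hb).2.symm))
  have h2 : ch (x.P4 R S S') (fun y => flv R (x.u y.2.1)) K ≤
      ch (x.P2 R S') (fun y => flv R (x.u y.1)) fun y => (x.T y.1, prj S (flv R (x.u y.1))) :=
    (ch_anti (h1.trans hV)).trans (law2.ch_id (fun y => flv R (x.u y.1)) fun y =>
      (x.T y.1, prj S (flv R (x.u y.1)))).le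
  have h3 : ch (x.P4 R S S') (fun y => flv R (x.u y.2.1)) Prod.fst =
      ch (x.P2 R S') (fun y => flv R (x.u y.1)) (x.φ1 R S) :=
    R4.kg.mk1 _ _ _ _ (fun y : _ × _ => flv R (x.u y.1)) id (Law.rfl _) (Fn.comp _ id)
  have h4 : ch (x.P4 R S S') (fun y => flv R (x.u y.2.1)) Prod.fst ≤
      ch (x.P4 R S S') (fun y => flv R (x.u y.2.1)) fun y => (G y, K y) := ch_anti (hG.pair hK)
  have h5 : mi (x.P2 R S') (fun y => flv R (x.u y.1)) x.Xi
      (fun y => (x.T y.1, prj S (flv R (x.u y.1)))) ≤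
      mi (x.P2 R S') (fun y => flv R (x.u y.1)) x.Xi fun y => x.T y.1 :=
    mi_left (Fn.fst _ _) ((Fn.snd _ _).pair ((Fn.comp (prj S) _).left _)) (Fn.fst _ _)
  have h6 : ch (x.P2 R S') (fun y => flv R (x.u y.1))
      (fun y => (x.Xi y, x.T y.1, prj S (flv R (x.u y.1)))) ≤
      ch (x.P2 R S') (fun y => flv R (x.u y.1)) (x.φ1 R S) :=
    ch_anti ((Fn.fst _ _).pair ((Fn.snd _ _).right _))
  rw [mi_symm]
  refine le_trans ?_ (h5.trans h)
  unfold mi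
  linarith

end TBKInfBA

open TBKInfBA in
theorem rowKInfB : OfKInfB := by
  intro H I J ι _ _ _ x B1 S B2 S' t1 t2 t R L A hS
  obtain ⟨-, h2, -, h4, -⟩ := H x B1 B2 S' t1 t2 t R L A
  have f1 : Fn (x.P4 R S S') (fun y => flv R (x.u y.1.1)) fun y => y.1.2 :=
    (fu A).trans (Fn.comp (fun ω => flv R (x.u ω)) fun y : (_ × _) × _ => y.1.2)
  have f2 : Fn (x.P4 R S S') (fun y => y.1.2) Prod.fst := Fn.comp Prod.snd Prod.fst
  have f3 : Fn (x.P4 R S S') (x.w R) Prod.fst :=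
    Fn.comp (fun y : _ × _ => flv R (x.v y.1)) Prod.fst
  have f4 : Fn (x.P4 R S S') (fun y => flv R (x.γ y.1.2)) fun y => y.1.2 :=
    Fn.comp (fun ω => flv R (x.γ ω)) fun y : (_ × _) × _ => y.1.2
  have f5 : Fn (x.P4 R S S') (fun y => x.Vh y.1.2) (x.Θ R S) := fv
  refine ⟨?_, ?_, ?_⟩
  · refine (mi_mono (G' := fun y => ((flv R (x.u y.1.1), x.w R y), flv R (x.u y.2.1)))
      (Fn.left (fun a _ b _ e => ?_) _)).trans ?_
    · simp only [Tm.d, Prod.mk.injEq] at e ⊢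
      tauto
    have k1 := keyA (S := S) (S' := S') A
    have k2 := keyB A h2 f4 (f1.pair (fθ' A)) (f5.right _)
    have k3 := keyC A h4 (f4.trans f2) (((f1.trans f2).pair f3).pair ((fθ' A).trans f2))
      (Fn.snd _ _)
    rw [mi_symm] at k2
    rw [mi_chain, mi_chain]
    linarith
  · have k2 := keyB A h2 f1 (fθ' A) f5
    have k3 := keyC A h4 f3 ((f1.pair (fθ' A)).trans f2) (Fn.snd _ _)
    rw [mi_symm]
    refine (mi_chain _ _ _ _).trans_le ?_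
    linarith
  · have f6 : Fn (x.P4 R S S') (fun y => prj S (flv R (x.u y.1.1))) fun y => x.Pi y.1.2 :=
      fun a ha b hb e => by
        show prj S (flv R (x.u a.1.1)) = prj S (flv R (x.u b.1.1))
        rw [uu A ha, uu A hb, ← prj_prj hS, ← prj_prj hS (flv R (x.u b.1.2))]
        exact congrArg (prj S) (law12.fn A.up a ha b hb e)
    have f7 : Fn (x.P4 R S S') (x.Θ R S) fun y => (x.Pi y.1.2, x.Vh y.1.2) :=
      (Fn.snd _ _).pair (f6.left _)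
    refine (mi_left f5 f7 (Fn.fst _ _)).trans ?_
    rw [law12.mi_id x.Pi (fun ω => flv R (x.γ ω)) x.Vh]
    exact mi_mono (A.g1.left _)

end Pool.Agent.MP_5168f5_an.AN.TB
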