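import Pool.Agent.MP_5168f5_an.AN.TBSpec
import Pool.Agent.MP_5168f5_an.H17F.KE
import Pool.Agent.MP_5168f5_an.H17F.KG

/-! Laws and entropies of the scalars on two pairs. -/

namespace Pool.Agent.MP_5168f5_an.AN.TB

open H19 H17S H17F Filter R4.K31

namespace TBKInfCA

theorem kg : KG := rowKG rowKE

theorem fl_sub (R : ℕ) (a b : ℤ) : fl1 R ((a : ℝ) / 2 ^ R - (b : ℝ) / 2 ^ R) = a - b := by
  unfold fl1
  have h : (2 : ℝ) ^ R ≠ 0 := by positivity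
  have : (2 : ℝ) ^ R * ((a : ℝ) / 2 ^ R - (b : ℝ) / 2 ^ R) = ((a - b : ℤ) : ℝ) := by
    push_cast; field_simp
  rw [this, Int.floor_intCast]

theorem sum_ev {I : Type} [Fintype I] (i : I) (f : I → ℝ) : ∑ a, ev (some i) a * f a = f i := by
  classical
  rw [Finset.sum_eq_single i]
  · simp [ev]
  · intro b _ hb; simp [ev, hb]
  · intro h; exact absurd (Finset.mem_univ i) h

variable {I J ι : Type} [Fintype I] [Fintype J] [Fintype ι] (x : Tm I J ι)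

omit [Fintype J] [Fintype ι] in
theorem zeta_eq (R : ℕ) (i : I) (y : (x.Ω × x.Ω) × x.Ω × x.Ω) :
    fl1 R (x.ζ R (some i) y) = fl1 R (x.u y.1.1 i) - fl1 R (x.u y.2.1 i) := by
  unfold Tm.ζ
  rw [sum_ev]
  exact fl_sub R _ _

omit [Fintype I] [Fintype ι] in
theorem r_eq (R : ℕ) (l : J) (y : (x.Ω × x.Ω) × x.Ω × x.Ω) :
    fl1 R (x.r R (some l) y) = fl1 R (x.v y.1.2 l) - fl1 R (x.v y.1.1 l) := by
  unfold Tm.r
  rw [sum_ev]
  exact fl_sub R _ _

theorem mk2 {Ω β α : Type} (P : FP Ω) (φ : Ω → β) (f : Ω → α) :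
    ch (glue P P φ φ) (fun v => f v.1) (fun v => v.2) = ch P f φ :=
  ((kg.swap P P φ φ (Law.rfl φ)).ch_eq (fun v => f v.1) fun v => v.2).trans
    (kg.mk1 P P φ φ f id (Law.rfl φ) (Fn.comp φ id))

end TBKInfCA

open TBKInfCA

theorem rowKInfC : KInfC := by
  intro I J ι _ _ _ x B1 S B2 S' t1 t2 t R L h
  have l1 : Law (x.P4 R S S') Prod.fst (x.P2 R S') id := kg.fst _ _ _ _
  have l2 : Law (x.P4 R S S') Prod.snd (x.P2 R S') id := kg.snd _ _ _ _ (Law.rfl _)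
  have k2 : Law (x.P2 R S') Prod.snd x.P id := kg.snd _ _ _ _ (Law.rfl _)
  have m4 : ∀ y ∈ (x.P4 R S S').S, x.φ1 R S y.2 = x.φ1 R S y.1 := fun y hy =>
    ((kg.mem _ _ _ _ y (Law.rfl _)).1 hy).2.2
  have m2 : ∀ y ∈ (x.P2 R S').S, y.1 ∈ x.P.S ∧ y.2 ∈ x.P.S ∧ x.φ2 R S' y.2 = x.φ2 R S' y.1 :=
    fun y hy => (kg.mem _ _ _ _ y (Law.rfl _)).1 hy
  refine ⟨(l1.comp Prod.snd).trans k2, ?_, fun i => ?_, fun l => ?_⟩
  · have a := (l2.comp fun z => ((x.Vh z.2, prj S (flv R (x.u z.1))), x.γ z.2)).trans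
      (l1.comp fun z => ((x.Vh z.2, prj S (flv R (x.u z.1))), x.γ z.2)).symm
    refine a.ext fun y hy => ?_
    have e := m4 y hy
    simp only [Tm.φ1, Tm.Xi, Prod.mk.injEq] at e
    simp only [Tm.Θ, Prod.mk.injEq]
    exact ⟨⟨e.1.2.symm, e.2.symm⟩, trivial⟩
  · have a := kg.mk1 (x.P2 R S') (x.P2 R S') (x.φ1 R S) (x.φ1 R S)
      (fun y => fl1 R (x.u y.1 i)) id (Law.rfl _) (Fn.comp _ id)
    rw [← a]
    refine ch_le (fun v _ w _ e => ?_) fun v _ w _ e => ?_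
    · have e1 : fl1 R (x.ζ R (some i) v) = fl1 R (x.ζ R (some i) w) := congrArg Prod.fst e
      have e2 : v.1 = w.1 := congrArg Prod.snd e
      rw [zeta_eq, zeta_eq, e2] at e1
      exact sub_right_injective e1
    · have e2 : v.1 = w.1 := e
      simp only [Tm.Θ, e2]
  · have a := mk2 x.P (x.φ2 R S') fun ω => fl1 R (x.v ω l)
    have b := l1.ch_id (fun y => fl1 R (x.v y.1 l)) fun y => y.2
    rw [← a]
    refine b.symm.trans_le (ch_le (fun v _ w _ e => ?_) fun v hv w hw e => ?_)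
    · have e1 : fl1 R (x.r R (some l) v) = fl1 R (x.r R (some l) w) := congrArg Prod.fst e
      have e2 : v.1.2 = w.1.2 := (Prod.mk.inj e).2
      rw [r_eq, r_eq, e2] at e1
      exact sub_right_injective e1
    · have e2 : v.1.2 = w.1.2 := e
      obtain ⟨v1, -, ev⟩ := m2 _ (l1.mem hv)
      obtain ⟨w1, -, ew⟩ := m2 _ (l1.mem hw)
      have eo : x.O2 v.1.1 = x.O2 w.1.1 :=
        (congrArg Prod.fst ev).symm.trans ((congrArg x.O2 e2).trans (congrArg Prod.fst ew))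
      have eu : flv R (x.u v.1.1) = flv R (x.u w.1.1) := h.u2 _ v1 _ w1 eo
      simp only [Tm.Θ, e2, eu]

end Pool.Agent.MP_5168f5_an.AN.TB
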