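import Pool.Agent.MP_5168f5_an.AN.TBSpec
import Pool.Agent.MP_5168f5_an.H17F.KE
import Pool.Agent.MP_5168f5_an.H17F.KG

/-! Kakeya sets in all dimensions: the bilinear terminal step, the first side. -/

namespace Pool.Agent.MP_5168f5_an.AN.TB

open H19 H17S H17F Filter R4.K31

namespace TBSide1A

theorem norm_rd {J : Type} [Fintype J] (R : ℕ) {v : J → ℝ} {L : ℝ} (hL : 1 ≤ L) (h : ‖v‖ ≤ L) :
    ‖rd R v‖ ≤ 2 * L := by
  refine (pi_norm_le_iff_of_nonneg (by linarith)).2 fun b => ?_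
  have h1 := abs_fl1_sub R (v b)
  have h2 : |v b| ≤ L := (norm_le_pi_norm v b).trans h
  have h3 : (1 : ℝ) ≤ 2 ^ R := one_le_pow₀ one_le_two
  have h4 : (0 : ℝ) < 2 ^ R := by positivity
  have h5 : |(fl1 R (v b) : ℝ)| ≤ 1 + 2 ^ R * L := by
    have h6 := abs_add_le ((fl1 R (v b) : ℝ) - 2 ^ R * v b) (2 ^ R * v b)
    rw [sub_add_cancel, abs_mul, abs_of_pos h4] at h6
    nlinarith
  show |(fl1 R (v b) : ℝ) / 2 ^ R| ≤ 2 * L
  rw [abs_div, abs_of_pos h4, div_le_iff₀ h4]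
  nlinarith

theorem rd_eq {J : Type} {R : ℕ} {v w : J → ℝ} (h : flv R v = flv R w) : rd R v = rd R w :=
  funext fun b => congrArg (fun m : ℤ => (m : ℝ) / 2 ^ R) (congrFun h b)

variable {I J ι : Type} [Fintype I] [Fintype J] [Fintype ι]

theorem l1 (x : Tm I J ι) (R : ℕ) (S' : Finset J) : Law (x.P2 R S') Prod.fst x.P id :=
  (rowKG rowKE).fst _ _ _ _

theorem l2 (x : Tm I J ι) (R : ℕ) (S' : Finset J) : Law (x.P2 R S') Prod.snd x.P id :=
  (rowKG rowKE).snd _ _ _ _ (Law.rfl _)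

variable {x : Tm I J ι} {B1 : Finset I} {B2 : Finset J} {t1 : I → ℝ} {t2 : J → ℝ} {t : ι → ℝ}
  {R : ℕ} {L : ℝ}

theorem fn_bh (a : x.Alg B1 B2 t1 t2 t R L) (S' : Finset J) : Fn (x.P2 R S') (x.bh R) x.Xi := by
  intro y hy z hz e
  have y1 := (l1 x R S').mem hy
  have y2 := (l2 x R S').mem hy
  have z1 := (l1 x R S').mem hz
  have z2 := (l2 x R S').mem hz
  have e1 : x.O1 y.1 = x.O1 z.1 := congrArg Prod.fst e
  have e2 : x.Vh y.2 = x.Vh z.2 := congrArg Prod.snd e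
  unfold Tm.bh
  rw [rd_eq (a.vv _ y2 _ z2 e2), rd_eq (a.vv _ y1 _ z1 (a.v1 _ y1 _ z1 e1))]

theorem norm_bh (a : x.Alg B1 B2 t1 t2 t R L) (hL : 1 ≤ L) {S' : Finset J} {y : x.Ω × x.Ω}
    (hy : y ∈ (x.P2 R S').S) : ‖x.bh R y‖ ≤ 4 * L := by
  have h1 := norm_rd R hL (a.bd _ ((l1 x R S').mem hy)).2.1
  have h2 := norm_rd R hL (a.bd _ ((l2 x R S').mem hy)).2.1
  have h3 := norm_sub_le (rd R (x.v y.2)) (rd R (x.v y.1))
  unfold Tm.bh
  linarith

theorem info {W K : Type} {Q : FP W} {ρ : W → x.Ω × x.Ω} (Y : W → K) {S' : Finset J}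
    (h : Law Q ρ (x.P2 R S') id) :
    mi Q (fun v => (Y v, x.Xi (ρ v))) (fun v => (ρ v).1) (fun v => x.O1 (ρ v).1) ≤
      mi (x.P2 R S') (fun y => x.Vh y.2) Prod.fst (fun y => x.O1 y.1) +
        mi Q Y ρ fun v => x.Xi (ρ v) := by
  have h1 : mi Q (fun v => (Y v, x.Xi (ρ v))) (fun v => (ρ v).1) (fun v => x.O1 (ρ v).1) ≤
      mi Q (fun v => (x.Vh (ρ v).2, Y v)) (fun v => (ρ v).1) fun v => x.O1 (ρ v).1 := by
    refine mi_mono' fun a _ b _ e => ?_
    simp only [Prod.mk.injEq, Tm.Xi] at e ⊢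
    exact ⟨e.1.2, e.2, e.1.1⟩
  have h2 := mi_chain (P := Q) (fun v => (ρ v).1) (fun v => x.Vh (ρ v).2) Y fun v => x.O1 (ρ v).1
  have h3 := h.mi_id (fun y => x.Vh y.2) Prod.fst fun y => x.O1 y.1
  have h4 : mi Q Y (fun v => (ρ v).1) (fun v => (x.Vh (ρ v).2, x.O1 (ρ v).1)) ≤
      mi Q Y ρ fun v => x.Xi (ρ v) := by
    refine mi_right (fun a _ b _ e => ?_) (fun a _ b _ e => ?_) fun a _ b _ e => ?_
    · simp only [Prod.mk.injEq, Tm.Xi] at e ⊢
      exact ⟨e.2, e.1⟩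
    · simp only [Prod.mk.injEq] at e ⊢
      rw [e.1]; exact ⟨rfl, rfl⟩
    · simp only [Prod.mk.injEq] at e ⊢
      rw [e.1]
  rw [mi_symm (fun v => (x.Vh (ρ v).2, Y v)), h2, mi_symm (fun v => (ρ v).1),
    mi_symm (fun v => (ρ v).1) Y] at h1
  linarith

theorem sum_eq (x : Tm I J ι) (R : ℕ) (y : x.Ω × x.Ω) (k : ι) :
    ∑ a, (∑ b, x.bh R y b * x.c a b k) * x.u y.1 a = x.X R y k := by
  unfold Tm.X bl
  refine Finset.sum_congr rfl fun a _ => ?_
  rw [Finset.sum_mul]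
  exact Finset.sum_congr rfl fun b _ => by ring

end TBSide1A

open TBSide1A in
theorem rowSide1 : OfSide1 := by
  intro sw fu ka ker I J ι _ _ _ x B1 B2 t1 t2 t R L ε₀ h
  obtain ⟨η, hη, hk⟩ := ker x B1 B2 t1 t2 t R L ε₀ h
  have p0 : 0 < min (η / 4) 1 := lt_min (by positivity) one_pos
  refine ⟨min (η / 4) 1, p0, fun o' ho' => ?_⟩
  have full : Le R (fun n => B1.card * R n * lg) fun n => ch ((x n).P2 (R n) (er B2 o'))
      (fun y => prj B1 (flv (R n) ((x n).u y.1))) (x n).Xi :=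
    Le.of2 h.f1 h.ind2 (h.alg.mono fun n a => by
      have := (ka (x n) B1 B2 (er B2 o') t1 t2 t (R n) (L n) a).2.2.2.2
      linarith)
  have fc := fu (fun n => (x n).P2 (R n) (er B2 o')) (fun n => (x n).Xi)
    (fun n y => (x n).u y.1) B1 R L h.big h.sub
    (h.alg.mono fun n a y hy => (a.bd _ ((l1 _ _ _).mem hy)).1) full
  obtain ⟨W, K, Q, ρ, Y, a, hQ, hI, hW⟩ := sw (fun n => (x n).P2 (R n) (er B2 o'))
    (fun n => (x n).Xi) (fun n y => flv (R n) ((x n).u y.1)) (fun n => (x n).X (R n)) B1 R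
    (fun n => Real.exp (-(η * R n))) (fun i hi => (fc i hi).2) fun o ho => hk o o' ho ho'
  have sm : Sm R fun n => mi (Q n) (fun v => (Y n v, (x n).Xi (ρ n v))) (fun v => (ρ n v).1)
      fun v => (x n).O1 (ρ n v).1 :=
    Le.of2 h.ind2 hI (h.alg.mono fun n a => by
      have h1 := (ka (x n) B1 B2 (er B2 o') t1 t2 t (R n) (L n) a).2.2.1
      have h2 := info (Y n) (hQ n).1
      linarith)
  have c1 : (1 : ℝ) ≤ B1.card + 1 := by linarith [Nat.cast_nonneg (α := ℝ) B1.card]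
  have key : ∀ k, Whp Q fun n v => ∀ a', |∑ b, (x n).bh (R n) (ρ n v) b * (x n).c a' b k| ≤
      Real.exp (-(min (η / 4) 1 * R n)) := fun k => by
    have h1 := h.ac1 W (fun n => K n × (x n).A1 × (x n).A3) Q (fun n v => (ρ n v).1)
      (fun n v => (Y n v, (x n).Xi (ρ n v)))
      (fun n v a' => ∑ b, (x n).bh (R n) (ρ n v) b * (x n).c a' b k) (fun n v => a n v k)
      (min (η / 4) 1) (fun n => ((hQ n).1.comp Prod.fst).trans (l1 _ _ _)) p0 (min_le_right _ _)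
      (h.alg.mono fun n al => ⟨fun v hv w hw e => by
          have e1 := (hQ n).2 v hv w hw (congrArg Prod.fst e)
          have e2 := fn_bh al _ _ ((hQ n).1.mem hv) _ ((hQ n).1.mem hw) (congrArg Prod.snd e)
          simp only [e1, e2],
        fun v hv => ⟨_, k, norm_bh al (h.sub.1 n) ((hQ n).1.mem hv), fun _ => rfl⟩⟩) sm
    refine (h1.and hW).mono ?_
    filter_upwards [(h.big.sub c1).2 (η / 2) (half_pos hη)] with n hn v _ hv a'
    refine (norm_le_pi_norm _ a').trans (hv.1 ?_)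
    rw [sum_eq]
    refine ((norm_le_pi_norm ((x n).X (R n) (ρ n v) - a n v) k).trans hv.2).trans ?_
    refine (mul_le_mul_of_nonneg_right hn (Real.exp_pos _).le).trans ?_
    rw [← Real.exp_add]
    refine Real.exp_le_exp.2 ?_
    nlinarith [min_le_left (η / 4) 1, Nat.cast_nonneg (α := ℝ) (R n)]
  intro ε hε
  filter_upwards [Whp.all key ε hε] with n hn
  have e := (hQ n).1.pb_eq fun y => ¬∀ a' k, |∑ b, (x n).bh (R n) y b * (x n).c a' b k| ≤
    Real.exp (-(min (η / 4) 1 * R n))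
  refine (e.symm.trans_le ?_).trans hn
  exact pb_mono fun v _ k1 k2 => k1 fun a' k => k2 k a'

end Pool.Agent.MP_5168f5_an.AN.TB
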