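import Pool.Agent.MP_5168f5_an.AN.TBSpec

/-! The bilinear terminal step: the constants are small. -/

namespace Pool.Agent.MP_5168f5_an.AN.TB

open H19 H17S H17F Filter R4.K31

namespace TBTBmA

theorem abs_rd {J : Type} (R : ℕ) (v : J → ℝ) (b : J) : |v b - rd R v b| ≤ ((2 : ℝ) ^ R)⁻¹ := by
  have h1 := fl1_le R (v b)
  have h2 := lt_fl1 R (v b)
  rw [rd, div_eq_inv_mul, abs_of_nonneg (by linarith)]
  linarith

theorem err {J : Type} [Fintype J] (R : ℕ) (v l : J → ℝ) {L a δ : ℝ} (hl : ∀ b, |l b| ≤ L)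
    (h : |∑ b, rd R v b * l b - a| ≤ δ) :
    |∑ b, l b * v b - a| ≤ Fintype.card J * L * ((2 : ℝ) ^ R)⁻¹ + δ := by
  have e : ∑ b, l b * v b - a = ∑ b, l b * (v b - rd R v b) + (∑ b, rd R v b * l b - a) := by
    simp only [mul_sub, Finset.sum_sub_distrib, mul_comm]; ring
  rw [e]
  refine (abs_add_le _ _).trans (add_le_add ((Finset.abs_sum_le_sum_abs _ _).trans
    ((Finset.sum_le_card_nsmul _ _ (L * ((2 : ℝ) ^ R)⁻¹) fun b _ => ?_).trans (le_of_eq ?_))) h)
  · rw [abs_mul]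
    exact mul_le_mul (hl b) (abs_rd R v b) (abs_nonneg _) ((abs_nonneg _).trans (hl b))
  · simp [mul_assoc]

end TBTBmA

theorem rowTBm : OfTBm := by
  intro hSw hF hS1 I J ι _ _ _ x B1 B2 t1 t2 t R L ε₀ h
  obtain ⟨η, hη, hs⟩ := hS1 x B1 B2 t1 t2 t R L ε₀ h
  obtain ⟨W, K, Q, ρ, Y, a, h1, h2, h3⟩ := hSw (I := J) (ι := I × ι) (fun n => (x n).P)
    (fun n => (x n).O2) (fun n ω => flv (R n) ((x n).v ω))
    (fun n ω ak => ∑ b, rd (R n) ((x n).v ω) b * (x n).c ak.1 b ak.2) B2 R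
    (fun n => Real.exp (-(η * R n)))
    (fun i hi => (hF (fun n => (x n).P) (fun n => (x n).O2) (fun n => (x n).v) B2 R L h.big h.sub
      (h.alg.mono fun n k ω hω => (k.bd ω hω).2.1) h.f2 i hi).2)
    fun o ho => (hs o ho).mono (Eventually.of_forall fun n y _ k =>
      (pi_norm_le_iff_of_nonneg (Real.exp_pos _).le).2 fun ak => by
        refine le_trans (le_of_eq ?_) (k ak.1 ak.2)
        rw [Real.norm_eq_abs, ← abs_neg]
        simp only [Tm.bh, Pi.sub_apply, sub_mul, Finset.sum_sub_distrib, neg_sub])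
  obtain ⟨m, m0, m1, m2⟩ : ∃ m : ℝ, 0 < m ∧ m ≤ η ∧ m ≤ lg :=
    ⟨min η lg, lt_min hη lg_pos, min_le_left _ _, min_le_right _ _⟩
  have hL := h.sub.const_mul h.big (C := Fintype.card J + B2.card + 1)
    (le_add_of_nonneg_left (by positivity))
  refine ⟨m / 4, by positivity, eventually_all.2 fun i => ?_⟩
  suffices k : ∀ k, ∀ᶠ n in UF, ∀ b, |(x n).c i b k| ≤ Real.exp (-(m / 4 * R n)) from
    (eventually_all.2 k).mono fun n u b k => u k b
  intro k
  have k1 := h.ac2 W K Q ρ Y (fun n _ b => (x n).c i b k) (fun n v => a n v (i, k)) (m / 4)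
    (fun n => (h1 n).1) (by positivity) (by linarith [lg_lt_one])
    (Eventually.of_forall fun n => ⟨fun u hu v hv e => by
      simp only [(h1 n).2 u hu v hv e], fun _ _ => ⟨i, k, fun _ => rfl⟩⟩) h2
  filter_upwards [(k1.and h3).pos.ex, h.alg, hL.2 _ (half_pos m0)] with n ⟨v, _, u1, u2⟩ u3 u4 b
  refine (norm_le_pi_norm (fun b => (x n).c i b k) b).trans (u1 ((TBTBmA.err (R n) _ _
    (fun b => u3.bc i b k) ((norm_le_pi_norm _ (i, k)).trans u2)).trans ?_))
  have r0 : (0 : ℝ) ≤ R n := Nat.cast_nonneg _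
  have l1 := h.sub.1 n
  have e1 : ((2 : ℝ) ^ R n)⁻¹ ≤ Real.exp (-(m * R n)) := by
    rw [two_pow_eq, ← Real.exp_neg]
    exact Real.exp_le_exp.2 (by nlinarith)
  have e2 : Real.exp (-(η * R n)) ≤ Real.exp (-(m * R n)) := Real.exp_le_exp.2 (by nlinarith)
  calc _ ≤ Fintype.card J * L n * Real.exp (-(m * R n)) +
        (B2.card + 1) * L n * Real.exp (-(m * R n)) := by
        refine add_le_add (mul_le_mul_of_nonneg_left e1 (by positivity))
          (mul_le_mul (le_mul_of_one_le_right (by positivity) l1) e2 (by positivity)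
            (by positivity))
    _ = (Fintype.card J + B2.card + 1) * L n * Real.exp (-(m * R n)) := by ring
    _ ≤ Real.exp (m / 2 * R n) * Real.exp (-(m * R n)) :=
        mul_le_mul_of_nonneg_right u4 (by positivity)
    _ = _ := by rw [← Real.exp_add]; congr 1; ring

end Pool.Agent.MP_5168f5_an.AN.TB
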