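import Pool.Agent.MP_5168f5_an.AN.TBSweep
import Pool.Agent.MP_5168f5_an.AN.TBFulC
import Pool.Agent.MP_5168f5_an.AN.TBKInfA
import Pool.Agent.MP_5168f5_an.AN.TBKInfB
import Pool.Agent.MP_5168f5_an.AN.TBKInfC
import Pool.Agent.MP_5168f5_an.AN.TBKAlg
import Pool.Agent.MP_5168f5_an.AN.TBKer
import Pool.Agent.MP_5168f5_an.AN.TBSide1
import Pool.Agent.MP_5168f5_an.AN.TBTBm

/-! Kakeya sets in all dimensions: the bilinear terminal step from the noise step. -/

namespace Pool.Agent.MP_5168f5_an.AN.TB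

theorem tbm (h : NCU) : TBm :=
  rowTBm rowSweep rowFulC (rowSide1 rowSweep rowFulC rowKInfA
    (rowKer h rowFulC rowKInfA (rowKInfB rowKInfA) rowKInfC rowKAlg))

end Pool.Agent.MP_5168f5_an.AN.TB
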