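import Pool.Agent.MP_5168f5_an.AN.TAKit
import Pool.Agent.MP_5168f5_an.AN.TGAll
import Pool.Agent.MP_5168f5_an.AN.TBAll
import Pool.Agent.MP_5168f5_an.AN.NCU
import Pool.Agent.MP_5168f5_an.AN.TALnk
import Pool.Agent.MP_5168f5_an.AN.TAPFu
import Pool.Agent.MP_5168f5_an.AN.TAZmH
import Pool.Agent.MP_5168f5_an.AN.TAWin
import Pool.Agent.MP_5168f5_an.AN.TADef1
import Pool.Agent.MP_5168f5_an.AN.TAMin1
import Pool.Agent.MP_5168f5_an.AN.TABInv
import Pool.Agent.MP_5168f5_an.AN.TAClB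
import Pool.Agent.MP_5168f5_an.AN.TASPush
import Pool.Agent.MP_5168f5_an.AN.TAClR
import Pool.Agent.MP_5168f5_an.AN.TAGrid
import Pool.Agent.MP_5168f5_an.AN.TATan
import Pool.Agent.MP_5168f5_an.AN.TADetP
import Pool.Agent.MP_5168f5_an.AN.TACrd
import Pool.Agent.MP_5168f5_an.AN.TADetF
import Pool.Agent.MP_5168f5_an.AN.TASup
import Pool.Agent.MP_5168f5_an.AN.TARB
import Pool.Agent.MP_5168f5_an.AN.TACD1
import Pool.Agent.MP_5168f5_an.AN.TACD2
import Pool.Agent.MP_5168f5_an.AN.TANGC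
import Pool.Agent.MP_5168f5_an.AN.TANGB
import Pool.Agent.MP_5168f5_an.AN.TANGD
import Pool.Agent.MP_5168f5_an.AN.TABud
import Pool.Agent.MP_5168f5_an.AN.TANGW
import Pool.Agent.MP_5168f5_an.AN.TANGL
import Pool.Agent.MP_5168f5_an.AN.TABAlg
import Pool.Agent.MP_5168f5_an.AN.TABDet
import Pool.Agent.MP_5168f5_an.AN.TABInd
import Pool.Agent.MP_5168f5_an.AN.TABFul
import Pool.Agent.MP_5168f5_an.AN.TABAc1
import Pool.Agent.MP_5168f5_an.AN.TABAc2
import Pool.Agent.MP_5168f5_an.AN.TABFin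
import Pool.Agent.MP_5168f5_an.AN.TATerm

/-! Kakeya sets in all dimensions: the terminal case. -/

namespace Pool.Agent.MP_5168f5_an.AN.TG.TA

theorem lnk : Lnk := rowLnk
theorem pFu : PFu := rowPFu lnk
theorem zmH : ZmH := rowZmH kit lnk
theorem win : Win := rowWin lnk pFu zmH
theorem bInv : BInv := rowBInv lnk
theorem clR : ClR := rowClR kit rowSPush
theorem rB : RB := rowRB lnk bInv rowSup
theorem cD1 : CD1 := rowCD1 lnk bInv rowDetP rowCrd rowSup
theorem cD2 : CD2 := rowCD2 lnk rowDetP rowCrd rowDetF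
theorem nGC : NGC := rowNGC lnk zmH win rB cD1 cD2
theorem nGB : NGB := rowNGB kit lnk pFu bInv
theorem nGW : NGW := rowNGW zmH cD1 nGC (rowNGD kit lnk nGB) (rowBud lnk zmH)
theorem bDet : BDet := rowBDet lnk rowDetP rowCrd rowDetF

theorem bFin : BFin := rowBFin (TB.tbm TB.ncu) clR nGW rowNGL (rowBAlg rowCrd)
  (rowBInd lnk bDet) (rowBFul lnk rowDetP rowCrd bDet) (rowBAc1 kit lnk rowDetP rowCrd bDet)
  (rowBAc2 kit lnk rowDetP rowCrd bDet)

/-- The terminal case. -/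
theorem sTerm : STerm := rowTerm (rowDef1 lnk pFu zmH) (rowMin1 kit lnk) (rowClB kit bInv)
  (rowTan kit lnk zmH win (rowGrid lnk zmH)) bFin

/-- The theorem on random elements of bigraded nilpotent groups. -/
theorem thmG' : ThmG := thmG sTerm

end Pool.Agent.MP_5168f5_an.AN.TG.TA
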