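import Pool.Agent.MP_5168f5_an.AN.TAApi

/-! Kakeya sets in all dimensions: the terminal case, the final contradiction. -/

namespace Pool.Agent.MP_5168f5_an.AN.TG.TA

open H19 H17S H17F G39 GA TL Filter H61Z
open R4 (Eqv)
open R4.K31 (DnS)
open TB (flG NGG Tm)

namespace BFinA

theorem ex_cc {κ : Type} [Fintype κ] {om : κ → ℝ × ℝ} {pos : κ → Prop} (h : 0 < TT om pos) :
    ∃ k, CC om pos k := by
  by_contra e
  refine h.ne' (Finset.sum_eq_zero fun a _ => ?_)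
  unfold dF
  split_ifs with u v
  exacts [rfl, absurd ⟨a, v⟩ e, rfl]

end BFinA

theorem rowBFin : OfBFin := by
  intro hTB hClR hNGW hNGL hAlg hInd hFul hA1 hA2 ι κ _ _ _ Φ om pos x hT h0 bs K hb hK C m hM hL
    hI hIn hm
  by_contra hlt
  rw [not_le] at hlt
  obtain ⟨k, hk⟩ := BFinA.ex_cc (hm.trans_lt hlt)
  have e0 : 0 < min 1 ((TT om pos - m) / 2) := lt_min one_pos (by linarith)
  have e1 : min 1 ((TT om pos - m) / 2) ≤ 1 := min_le_left _ _
  have e2 : m + min 1 ((TT om pos - m) / 2) < TT om pos := by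
    linarith [min_le_right 1 ((TT om pos - m) / 2)]
  obtain ⟨t1, t2, L, hLs, hal⟩ := hAlg ι κ Φ om pos x hT h0 bs K hb hK
  obtain ⟨i1, i2, i3⟩ := hInd ι κ Φ om pos x hT h0 bs K hb hK hIn
  obtain ⟨f1, f2⟩ := hFul ι κ Φ om pos x hT h0 bs K hb hK C hM.1
  have ng : NGG (pr x) (fun n => (tm om pos (x n) bs K).Pi) (fun n => ga om pos (x n)) (tc om pos)
      (un x) (min 1 ((TT om pos - m) / 2)) := by
    refine hNGL (pr x) (fun n => Pi0 om pos (x n) K) _ _ _ _ _ h0.alg.big (wk h0).tc e0.le e1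
      (fun n ω _ ω' _ e => ?_) fun W Q ρ hd => ?_
    · have a1 : Cl (x n) (dY om pos 1 0) ω = Cl (x n) (dY om pos 1 0) ω' := congrArg (·.1) e
      have a2 : Cl (x n) (dU om false K) ω = Cl (x n) (dU om false K) ω' := congrArg (·.2.1.1) e
      have a3 : Zl (x n) 0 ω = Zl (x n) 0 ω' := congrArg (·.2.1.2.2) e
      simp only [Pi0, a1, a2, a3]
    · have hy := hClR ι κ Φ om pos x C m hM hL W Q ρ hd
      exact hNGW ι κ Φ om pos _ hT hy.1.toG0 C m K _ hy hL hI hK e0 e1 e2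
  obtain ⟨η, hη, hs⟩ := hTB (fun n => tm om pos (x n) bs K) (Bs om bs true) (Bs om bs false) t1 t2
    (tc om pos) (un x) L _ ⟨h0.alg.big, hLs, (wk h0).tc, ⟨e0, e1⟩, hal L fun _ => le_rfl, i1, i2,
      i3, f1, f2, hA1 ι κ Φ om pos x hT h0 bs K hb hK C L hM.1 hLs,
      hA2 ι κ Φ om pos x hT h0 bs K hb hK C hM.1, ng⟩
  refine tGen ι κ (un x) Φ om pos _ _ k h0.alg hT hk.2 fun a b ha hb' hh => ?_
  by_cases u : bs a ∨ bs b
  · refine ⟨η, hη, hs.mono fun n hn => ?_⟩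
    have v : cT om pos bs (x n).c a b k = (x n).c a b k := if_pos ⟨ha, hb', hh, hk, u⟩
    have w := hn a b k
    change |cT om pos bs (x n).c a b k| ≤ _ at w
    rw [v] at w
    exact w
  · exact (hb.ker a b k ha hb' (fun y => u (Or.inl y)) (fun y => u (Or.inr y)) hk.2 hk.1).os

end Pool.Agent.MP_5168f5_an.AN.TG.TA
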