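import Pool.Agent.MP_5168f5_an.AN.TAApi

/-! Kakeya sets in all dimensions: minimal systems and changes of basis. -/

namespace Pool.Agent.MP_5168f5_an.AN.TG.TA

open H19 H17S H17F G39 GA TL Filter H61Z

namespace ClBA

theorem chg {Ω α δ : Type} {P : FP Ω} (Y Y' A A' : Ω → α) (Θ : Ω → δ) :
    ch P Y' (fun ω => (A' ω, Θ ω)) ≤ ch P Y (fun ω => (A ω, Θ ω)) + ch P Y' Y + ch P A A' := by
  have h1 := ch_tri (P := P) Y' Y fun ω => (A' ω, Θ ω)
  have h2 : ch P Y' (fun ω => (Y ω, A' ω, Θ ω)) ≤ ch P Y' Y := ch_anti (Fn.fst _ _)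
  have h3 := ch_tri' (P := P) Y (fun ω => (A' ω, Θ ω)) fun ω => (A ω, Θ ω)
  have h4 : ch P (fun ω => (A ω, Θ ω)) (fun ω => (A' ω, Θ ω)) ≤ ch P A A' :=
    ch_le ((Fn.fst _ _).pair ((Fn.snd _ _).right _)) (Fn.fst _ _)
  linarith

end ClBA

theorem rowClB : OfClB := by
  intro k hB ι κ _ _ _ Φ om pos x hT g _ C m A A' h ⟨h1, h2⟩
  have w := wk g
  obtain ⟨-, b⟩ := hB ι κ Φ om pos x hT g A A' h
  refine ⟨(k.bas ι κ Φ om pos x C A A' h1 h.1 h.2.1 h.2.2).1, Le.of3 h2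
    (b _ _ (w.gt_dY zero_le_one le_rfl) (w.cp_dY zero_le_one le_rfl) (apx_sc x _)).1
    (b _ _ (w.gt_dY le_rfl zero_le_one) (w.cp_dY le_rfl zero_le_one) (apx_sc x _)).2
    (Eventually.of_forall fun n => ?_)⟩
  have : JJ om pos ((x n).bas (A n) (A' n)) ≤ JJ om pos (x n) +
      ch (x n).P (((x n).bas (A n) (A' n)).C (sc (x n).M (dY om pos 1 1)))
        ((x n).C (sc (x n).M (dY om pos 1 1))) +
      ch (x n).P ((x n).C (sc (x n).M (dY om pos 1 0)))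
        (((x n).bas (A n) (A' n)).C (sc (x n).M (dY om pos 1 0))) := ClBA.chg _ _ _ _ _
  linarith

end Pool.Agent.MP_5168f5_an.AN.TG.TA
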