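import Pool.Agent.MP_5168f5_an.AN.TAApi
import Pool.Agent.MP_5168f5_an.AN.TGGd
import Pool.Agent.MP_5168f5_an.AN.TGRef
import Pool.Agent.MP_5168f5_an.AN.TGJoin
import Pool.Agent.MP_5168f5_an.AN.TGMono
import Pool.Agent.MP_5168f5_an.AN.TGLip
import Pool.Agent.MP_5168f5_an.AN.TGFin
import Pool.Agent.MP_5168f5_an.AN.TGSB
import Pool.Agent.MP_5168f5_an.AN.TGSBR
import Pool.Agent.MP_5168f5_an.AN.TGRec
import Pool.Agent.MP_5168f5_an.AN.TGMix
import Pool.Agent.MP_5168f5_an.AN.TGToAC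
import Pool.Agent.MP_5168f5_an.AN.TGRat
import Pool.Agent.MP_5168f5_an.AN.TGCF0
import Pool.Agent.MP_5168f5_an.AN.TGCF
import Pool.Agent.MP_5168f5_an.AN.TGSeqF
import Pool.Agent.MP_5168f5_an.AN.TGZm
import Pool.Agent.MP_5168f5_an.AN.TGPull
import Pool.Agent.MP_5168f5_an.AN.TGCond
import Pool.Agent.MP_5168f5_an.AN.TGSide
import Pool.Agent.MP_5168f5_an.AN.TGFrz
import Pool.Agent.MP_5168f5_an.AN.TGBas
import Pool.Agent.MP_5168f5_an.AN.TGSwap

/-! Kakeya sets in all dimensions: the closure properties of systems. -/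

namespace Pool.Agent.MP_5168f5_an.AN.TG.TA

theorem kit : Kit :=
  have mono := tgMono tgRef tgJoin
  have fin := tgFin tgRef tgLip
  have sb := tgSB tgGd fin
  have rat := tgRat tgGd mono fin tgToAC
  have cond := tgCond tgMix
  { gd := tgGd
    ref := tgRef
    join := tgJoin
    mono := mono
    sb := sb
    cf := tgCF tgCF0 rat
    zm := tgZm (tgSeqF tgGd mono) sb tgToAC
    pull := tgPull
    cond := cond
    side := tgSide tgGd tgRef sb (tgSBR tgRec tgLip) tgToAC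
    frz := tgFrz cond rat
    bas := tgBas tgGd sb tgToAC
    swap := tgSwap }

end Pool.Agent.MP_5168f5_an.AN.TG.TA
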