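import Pool.Agent.MP_5168f5_an.AN.TAApi

/-! Kakeya sets in all dimensions: the terminal case, the chain of inequalities in one window. -/

namespace Pool.Agent.MP_5168f5_an.AN.TG.TA

open H19 H17S H17F G39 GA TL Filter H61Z
open R4 (Eqv)

namespace NGCA

variable {Ω α β γ δ τ ζ : Type} {P : FP Ω}

theorem pj {F : Ω → α} {G : Ω → β} (g : β → α) (h : ∀ ω, F ω = g (G ω)) : Fn P F G :=
  fun a _ b _ e => by rw [h a, h b, e]

theorem fin (Ξ A Yz Y Y0 E E' Ψ D : Ω → α) (b : Ω → β) (T : Ω → τ) (G G0 : Ω → γ) (Pi : Ω → δ)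
    (c : Ω → ζ) (h1 : Fn P b c) (h2 : Fn P T c) (h3 : Fn P G0 c) (h4 : Fn P Pi c) :
    ch P Ξ (fun ω => (b ω, A ω, T ω)) + ch P G c ≤ ch P Yz (fun ω => (A ω, T ω)) +
      mi P b E' (fun ω => (E ω, T ω)) +
      (ch P Y (fun ω => (Y0 ω, T ω)) - ch P Y fun ω => (E ω, T ω)) +
      (ch P Ξ (fun ω => (b ω, Yz ω)) + ch P Y (fun ω => (Yz ω, E ω)) +
        ch P A (fun ω => (E ω, E ω)) + ch P Ξ (fun ω => (b ω, Ψ ω, D ω)) +
        ch P D (fun ω => (E ω, E ω)) + ch P Y (fun ω => (E' ω, E' ω)) +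
        ch P Ψ (fun ω => (b ω, Y ω)) + ch P Y0 (fun ω => (E ω, E ω)) +
        ch P G (fun ω => (Y ω, Pi ω)) + ch P Ψ c + ch P Y0 fun ω => (G0 ω, Pi ω)) := by
  have a1 := ch_symm (P := P) Ξ Yz fun ω => (b ω, A ω, T ω)
  have a2 : ch P Yz (fun ω => (b ω, A ω, T ω)) ≤ ch P Yz fun ω => (A ω, T ω) :=
    ch_anti (Fn.snd _ _)
  have a3 : ch P Ξ (fun ω => (Yz ω, b ω, A ω, T ω)) ≤ ch P Ξ fun ω => (b ω, Yz ω) :=
    ch_anti (pj (fun p => (p.2.1, p.1)) fun _ => rfl)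
  have b1 := ch_tri (P := P) Y D fun ω => (Ψ ω, b ω, E ω, T ω)
  have b2 := ch_tri (P := P) Y Ξ fun ω => (D ω, Ψ ω, b ω, E ω, T ω)
  have b3 := ch_tri (P := P) Y A fun ω => (Ξ ω, D ω, Ψ ω, b ω, E ω, T ω)
  have b4 := ch_tri (P := P) Y Yz fun ω => (A ω, Ξ ω, D ω, Ψ ω, b ω, E ω, T ω)
  have b5 : ch P D (fun ω => (Ψ ω, b ω, E ω, T ω)) ≤ ch P D fun ω => (E ω, E ω) :=
    ch_anti (pj (fun p => (p.2.2.1, p.2.2.1)) fun _ => rfl)
  have b6 : ch P Ξ (fun ω => (D ω, Ψ ω, b ω, E ω, T ω)) ≤ ch P Ξ fun ω => (b ω, Ψ ω, D ω) :=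
    ch_anti (pj (fun p => (p.2.2.1, p.2.1, p.1)) fun _ => rfl)
  have b7 : ch P A (fun ω => (Ξ ω, D ω, Ψ ω, b ω, E ω, T ω)) ≤ ch P A fun ω => (E ω, E ω) :=
    ch_anti (pj (fun p => (p.2.2.2.2.1, p.2.2.2.2.1)) fun _ => rfl)
  have b8 : ch P Yz (fun ω => (A ω, Ξ ω, D ω, Ψ ω, b ω, E ω, T ω)) ≤
      ch P Yz fun ω => (Ξ ω, b ω, A ω, T ω) :=
    ch_anti (pj (fun p => (p.2.1, p.2.2.2.2.1, p.1, p.2.2.2.2.2.2)) fun _ => rfl)
  have b9 : ch P Y (fun ω => (Yz ω, A ω, Ξ ω, D ω, Ψ ω, b ω, E ω, T ω)) ≤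
      ch P Y fun ω => (Yz ω, E ω) := ch_anti (pj (fun p => (p.1, p.2.2.2.2.2.2.1)) fun _ => rfl)
  have c1 := ch_symm (P := P) Ψ Y fun ω => (b ω, Y0 ω, T ω)
  have c2 : ch P Y (fun ω => (b ω, Y0 ω, T ω)) ≤ ch P Y fun ω => (Y0 ω, T ω) :=
    ch_anti (Fn.snd _ _)
  have c3 : ch P Ψ (fun ω => (Y ω, b ω, Y0 ω, T ω)) ≤ ch P Ψ fun ω => (b ω, Y ω) :=
    ch_anti (pj (fun p => (p.2.1, p.1)) fun _ => rfl)
  have c4 := ch_tri (P := P) Ψ Y0 fun ω => (b ω, E ω, T ω)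
  have c5 : ch P Y0 (fun ω => (b ω, E ω, T ω)) ≤ ch P Y0 fun ω => (E ω, E ω) :=
    ch_anti (pj (fun p => (p.2.1, p.2.1)) fun _ => rfl)
  have c6 : ch P Ψ (fun ω => (Y0 ω, b ω, E ω, T ω)) ≤ ch P Ψ fun ω => (b ω, Y0 ω, T ω) :=
    ch_anti (pj (fun p => (p.2.1, p.1, p.2.2.2)) fun _ => rfl)
  have c7 := ch_symm (P := P) Ψ Y fun ω => (b ω, E ω, T ω)
  have c8 := ch_nonneg (P := P) Ψ fun ω => (Y ω, b ω, E ω, T ω)
  have c9 := ch_symm (P := P) b Y fun ω => (E ω, T ω)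
  have d1 := mi_near (P := P) b Y E' fun ω => (E ω, T ω)
  have d2 : ch P Y (fun ω => (E' ω, E ω, T ω)) ≤ ch P Y fun ω => (E' ω, E' ω) :=
    ch_anti (pj (fun p => (p.1, p.1)) fun _ => rfl)
  have e1 := ch_tri (P := P) G Ψ c
  have e2 := ch_tri (P := P) G Y0 fun ω => (Ψ ω, c ω)
  have e3 := ch_tri (P := P) G Y fun ω => (Y0 ω, Ψ ω, c ω)
  have e4 : ch P Y0 (fun ω => (Ψ ω, c ω)) ≤ ch P Y0 fun ω => (G0 ω, Pi ω) :=
    ch_anti ((h3.pair h4).right _)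
  have e5 : ch P Y (fun ω => (Y0 ω, Ψ ω, c ω)) ≤ ch P Y fun ω => (Ψ ω, b ω, Y0 ω, T ω) :=
    ch_anti (((Fn.fst _ _).right _).pair (((h1.right _).right _).pair ((Fn.fst _ _).pair
      ((h2.right _).right _))))
  have e6 : ch P G (fun ω => (Y ω, Y0 ω, Ψ ω, c ω)) ≤ ch P G fun ω => (Y ω, Pi ω) :=
    ch_anti ((Fn.fst _ _).pair (((h4.right _).right _).right _))
  unfold mi at d1 ⊢
  linarith

end NGCA

theorem rowNGC : OfNGC := by
  intro lnk zmh win rb cd1 cd2 ι κ _ _ _ Φ om pos x hT h0 C m K i A k b ρ w s' mn low hK hi hb hk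
    r0 w0 r1 s1
  have wk := wk h0
  have r2 := r1.trans s1
  have rw0 : 0 ≤ ρ + w := by linarith
  have wn := wk.wn_dg r0 w0 r2
  obtain ⟨-, -, -, L⟩ := lnk ι κ Φ om pos x hT h0
  obtain ⟨gz, uz, mz, Z⟩ := zmh ι κ Φ om pos x hT h0 C mn.1 (dg om ρ) w wn.t1 wn.t2 w0
  obtain ⟨w1, w2⟩ := win ι κ Φ om pos x hT h0 C m mn low
  obtain ⟨w2, w3⟩ := w2 _ _ _ wn
  obtain ⟨db, c1⟩ := cd1 ι κ Φ om pos x hT h0 K i A k b ρ w s' hK hi hb hk r0 w0 r1 s1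
  obtain ⟨q1, q2⟩ := rb ι κ Φ om pos x hT h0 i _ hi db ρ (ρ + w) r0 (by linarith) r2
  replace q2 := q2 (by linarith)
  rw [add_sub_cancel_left] at q2
  have q3 := (uz _ _).1 (rb ι κ Φ om pos _ hT gz.toG0 i (fun n ω => rw (x n).M w (b n ω)) hi db
    0 1 le_rfl zero_le_one le_rfl).1
  have gD := wk.gt_dg r0
  have g0 := wk.gt_dY (K := 1) le_rfl zero_le_one
  have g1 := wk.gt_dY (K := 1) zero_le_one le_rfl
  have gY := wk.gt_dY rw0 r2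
  have gY0 := wk.gt_dY (K := 1) r0 (by linarith)
  have gE := gD.sup g0
  have gE' := (wk.gt_dg rw0).sup g0
  have cs : ∀ {f g : κ → ℝ}, (∀ a, PP om pos a → f a ≤ g a) → (∀ a, CC om pos a → f a ≤ g a) →
      (∀ a, ¬pos a → f a ≤ g a) → f ≤ g := fun u v y a => (tri om pos a).elim (u a)
    fun z => z.elim (v a) (y a)
  have mo : ∀ {s t : ℝ}, s ≤ t → dY om pos 1 s ≤ dY om pos 1 t := fun h => cs
    (fun a e => by simp only [dY, dF_pp e, le_refl])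
    (fun a e => by simpa only [dY, dF_cc e] using mul_le_mul_of_nonneg_left h (wk.tt_nn a))
    fun a e => by simp only [dY, dF_st e, le_refl]
  have le : ∀ s, dY om pos 1 s ≤ dep om (dg om s) ⊔ dY om pos 1 0 := fun s => cs
    (fun a e => le_sup_of_le_right (by simp only [dY, dF_pp e, le_refl]))
    (fun a e => le_sup_of_le_left (by simp only [dY, dF_cc e, dep_dg, le_refl]))
    fun a e => le_sup_of_le_right (by simp only [dY, dF_st e, le_refl])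
  have j1 := (L _ _ _ _ _ _ gY (gD.add (g1.smul w0.le)) gE (apx_sc x _) (Z _).2.1
    (apx_sc x _)).2.2.1 (cs
      (fun a e => le_sup_of_le_right (le_sup_of_le_right (by simp only [dY, dF_pp e, le_refl])))
      (fun a e => le_sup_of_le_left (by
        simp only [dY, dF_cc e, Pi.add_apply, Pi.smul_apply, smul_eq_mul, dep_dg]; linarith))
      fun a e => le_sup_of_le_right (le_sup_of_le_right (by simp only [dY, dF_st e, le_refl])))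
  have j2 := (L _ _ _ _ _ _ (gD.add (g0.smul w0.le)) gE gE (Z _).2.1 (apx_sc x _)
    (apx_sc x _)).2.2.1 (le_sup_of_le_left (cs
      (fun a e => le_sup_of_le_right (by simpa [dY, dF_pp e] using wn.pu a e))
      (fun a e => le_sup_of_le_left (by simp [dY, dF_cc e]))
      fun a e => le_sup_of_le_left (by simp [dY, dF_st e])))
  have j3 := (L _ _ _ _ _ _ gD gE gE (apx_sc x _) (apx_sc x _) (apx_sc x _)).2.2.1
    (le_sup_of_le_left le_sup_left)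
  have j4 := (L _ _ _ _ _ _ gY gE' gE' (apx_sc x _) (apx_sc x _) (apx_sc x _)).2.2.1
    (le_sup_of_le_left (le _))
  have j5 := (L _ _ _ _ _ _ gY0 gE gE (apx_sc x _) (apx_sc x _) (apx_sc x _)).2.2.1
    (le_sup_of_le_left (le _))
  have k1 := (L _ _ _ _ _ _ gY gY0 gY0 (apx_sc x _) (apx_sc x _) (apx_sc x _)).2.1.1
  have k2 := (L _ _ _ _ _ _ gY gE gE (apx_sc x _) (apx_sc x _) (apx_sc x _)).2.1.2
  rw [sup_of_le_left (mo (by linarith)), w1 _ rw0 r2, w1 ρ r0 (by linarith)] at k1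
  rw [sup_left_comm, sup_of_le_left (mo rw0), w3, le_antisymm (sup_le le_sup_left (le ρ))
    (sup_le_sup_left (mo r0) _)] at k2
  have m0 : 0 ≤ m := (Le.of_le (g := fun n => JJ om pos (x n)) fun n =>
    (zero_mul _).trans_le (ch_nonneg _ _)).trans mn.2 |>.num h0.alg.big
  refine ((((((uz _ _).1 w2.2).trans (mz.1.smul m0)).add k1).add k2).add ((((((((((q3.add j1).add
    j2).add q2).add j3).add j4).add q1).add j5).add
    (cd2 ι κ Φ om pos x hT h0 K _ hK rw0 r2).2).add c1).add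
    (cd2 ι κ Φ om pos x hT h0 K ρ hK r0 (by linarith)).1)).of_sub (hk.mono fun n u => ?_)
  have y := NGCA.fin (P := (x n).P)
    (Cb (zw om (x n) (dg om ρ) w) i (fun ω => rw (x n).M w (b n ω)) (dQ om pos i 0 1))
    (Cl (zw om (x n) (dg om ρ) w) (dY om pos 1 0)) (Cl (zw om (x n) (dg om ρ) w) (dY om pos 1 1))
    (Cl (x n) (dY om pos 1 (ρ + w))) (Cl (x n) (dY om pos 1 ρ))
    (Cl (x n) (dep om (dg om ρ) ⊔ dY om pos 1 0)) (Cl (x n) (dep om (dg om (ρ + w)) ⊔ dY om pos 1 0))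
    (Cb (x n) i (fun ω => rw (x n).M w (b n ω)) (dQ om pos i ρ (ρ + w)))
    (Cl (x n) (dep om (dg om ρ))) (fun ω => rw (x n).M w (b n ω)) (x n).Θ
    (fun ω => fG (tc om pos) (x n).M (ρ + w) (ga om pos (x n) ω))
    (fun ω => fG (tc om pos) (x n).M ρ (ga om pos (x n) ω)) (Pi0 om pos (x n) K)
    (cn om pos (x n) K i (b n) (k n) s' ρ)
    (((Fn.comp _ _).trans u).trans (NGCA.pj (fun p => p.2.2.1) fun _ => rfl))
    (NGCA.pj (fun p => p.2.2.2.2.2.2) fun _ => rfl) (NGCA.pj (fun p => p.2.1) fun _ => rfl)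
    (NGCA.pj (fun p => p.2.2.2) fun _ => rfl)
  rw [← (Z _).1 n, ← (Z _).1 n]
  change _ + _ ≤ JJ om pos (zw om (x n) (dg om ρ) w) + Ib' om pos (x n) _ ρ w + _ + _ at y
  unfold Dl
  unfold Cl at y ⊢
  unfold Zl Sy.Z
  linarith

end Pool.Agent.MP_5168f5_an.AN.TG.TA
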