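import Pool.Agent.MP_5168f5_an.R4.NCx3
import Pool.Agent.MP_5168f5_an.R4.K31Dn

/-! Kakeya sets in all dimensions: the bilinear terminal step, statements. -/

namespace Pool.Agent.MP_5168f5_an.AN.TB

open H19 H17S H17F Filter R4.K31

/-- Rounding of coordinate `k` at depth `t k * s`. -/
noncomputable def flG {ι : Type} (t : ι → ℝ) (s : ℝ) (x : ι → ℝ) : ι → ℤ :=
  fun k => fl1 ⌊t k * s⌋₊ (x k)

/-- Every homogeneous direction of `x` has rate at most `1 - ε₀` in every window, given `Pi`, any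
further context and the other coordinates, on every refinement of bounded density. -/
def NGG {ι : Type} [Fintype ι] {Ω A : ℕ → Type} (P : ∀ n, FP (Ω n)) (Pi : ∀ n, Ω n → A n)
    (x : ∀ n, Ω n → ι → ℝ) (t : ι → ℝ) (R : ℕ → ℕ) (ε₀ : ℝ) : Prop :=
  ∀ (W K : ℕ → Type) (Q : ∀ n, FP (W n)) (ρ : ∀ n, W n → Ω n) (κ : ∀ n, W n → K n)
    (s s' : ℕ → ℝ) (i : ι) (b : ∀ n, W n → ι → ℝ), DnS Q ρ P →
    (∀ n, 0 ≤ s n ∧ s n ≤ s' n ∧ s' n ≤ R n) →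
    (∀ᶠ n in UF, Fn (Q n) (b n) (κ n) ∧
      ∀ v ∈ (Q n).S, b n v i = 1 ∧ ‖b n v‖ ≤ 1 ∧ ∀ k, t k ≠ t i → b n v k = 0) →
    Le R (fun n => ch (Q n) (fun v => flG t (s' n) (x n (ρ n v))) fun v =>
        (flG t (s' n) (x n (ρ n v) - x n (ρ n v) i • b n v), flG t (s n) (x n (ρ n v)), κ n v,
          Pi n (ρ n v))) fun n => (1 - ε₀) * t i * (s' n - s n) * lg

/-- The noise step for a graded vector: the two terms of the noise lie in one weight each. -/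
def NCU : Prop := ∀ (ι : Type) [Fintype ι] (t : ι → ℝ) (ε₀ : ℝ), (∀ k, 0 < t k ∧ t k ≤ 1) →
  0 < ε₀ → ε₀ ≤ 1 → ∃ c : ℝ, 0 < c ∧
  ∀ {Ω T A D W : ℕ → Type} (P : ∀ n, FP (Ω n)) (Θ : ∀ n, Ω n → T n) (Pi : ∀ n, Ω n → A n)
    (x x' g p : ∀ n, Ω n → ι → ℝ) (ζ r : ∀ n, Ω n → ℝ) (d : ∀ n, Ω n → D n) (w : ∀ n, Ω n → W n)
    (R : ℕ → ℕ) (L : ℕ → ℝ) (tp tg : ℝ), Big R → Sub R L → NGG P Pi x t R ε₀ →
    Sm R (fun n => mi (P n) (Pi n) (fun ω => flv (R n) (x n ω)) (Θ n)) →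
    (∀ᶠ n in UF, Law (P n) (fun ω => (Θ n ω, x' n ω)) (P n) (fun ω => (Θ n ω, x n ω)) ∧
      Fn (P n) (fun ω => (ζ n ω, g n ω)) (fun ω => (d n ω, Θ n ω)) ∧
      Fn (P n) (fun ω => (r n ω, p n ω)) (fun ω => (w n ω, Θ n ω)) ∧
      ∀ ω ∈ (P n).S, |ζ n ω| ≤ L n ∧ |r n ω| ≤ L n ∧ ‖g n ω‖ ≤ L n ∧ ‖p n ω‖ ≤ L n ∧
        ‖x n ω‖ ≤ L n ∧ (∀ k, t k ≠ tp → p n ω k = 0) ∧ (∀ k, t k ≠ tg → g n ω k = 0) ∧
        ‖x n ω - x' n ω - (ζ n ω • p n ω + r n ω • g n ω)‖ ≤ L n / 2 ^ R n) →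
    Sm R (fun n => mi (P n) (fun ω => flv (R n) (x n ω)) (fun ω => (d n ω, w n ω)) (Θ n)) →
    Sm R (fun n => mi (P n) (d n) (w n) (Θ n)) →
    (Le R (fun n => R n * lg) (fun n => ch (P n) (fun ω => fl1 (R n) (ζ n ω)) (Θ n)) ∨
      ∀ᶠ n in UF, ∀ ω ∈ (P n).S, p n ω = 0) →
    (Le R (fun n => R n * lg) (fun n => ch (P n) (fun ω => fl1 (R n) (r n ω)) (Θ n)) ∨
      ∀ᶠ n in UF, ∀ ω ∈ (P n).S, g n ω = 0) →
    Whp P fun n ω => ‖x n ω - x' n ω‖ ≤ Real.exp (-(c * R n))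

/-- A linear form read from side data without information is not small unless it is small. -/
def ACL {I : Type} [Fintype I] {Ω A : ℕ → Type} (P : ∀ n, FP (Ω n)) (O : ∀ n, Ω n → A n)
    (u : ∀ n, Ω n → I → ℝ) (ok : ℕ → (I → ℝ) → Prop) (R : ℕ → ℕ) : Prop :=
  ∀ (W K : ℕ → Type) (Q : ∀ n, FP (W n)) (ρ : ∀ n, W n → Ω n) (Y : ∀ n, W n → K n)
    (l : ∀ n, W n → I → ℝ) (a : ∀ n, W n → ℝ) (η : ℝ), (∀ n, Law (Q n) (ρ n) (P n) id) →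
    0 < η → η ≤ 1 →
    (∀ᶠ n in UF, Fn (Q n) (fun v => (l n v, a n v)) (Y n) ∧ ∀ v ∈ (Q n).S, ok n (l n v)) →
    Sm R (fun n => mi (Q n) (Y n) (ρ n) fun v => O n (ρ n v)) →
    Whp Q fun n v => |∑ i, l n v i * u n (ρ n v) i - a n v| ≤ Real.exp (-(2 * η * R n)) →
      ‖l n v‖ ≤ Real.exp (-(η * R n))

section Defs

variable {I J ι : Type}

open Classical in
/-- The coordinates in `S`. -/
noncomputable def prj (S : Finset I) (m : I → ℤ) : I → ℤ := fun a => if a ∈ S then m a else 0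

open Classical in
/-- `B` without the marked index. -/
noncomputable def er (B : Finset I) (o : Option I) : Finset I := o.elim B fun i => B.erase i

open Classical in
/-- The unit vector at the marked index. -/
noncomputable def ev (o : Option I) : I → ℝ := o.elim 0 fun i => Pi.single i 1

/-- The marked index lies in `B`. -/
def Adm (B : Finset I) (o : Option I) : Prop := ∀ i, o = some i → i ∈ B

/-- The dyadic rounding of a vector. -/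
noncomputable def rd (R : ℕ) (x : I → ℝ) : I → ℝ := fun a => (fl1 R (x a) : ℝ) / 2 ^ R

/-- The bilinear map with constants `c`. -/
def bl [Fintype I] [Fintype J] (c : I → J → ι → ℝ) (u : I → ℝ) (v : J → ℝ) : ι → ℝ :=
  fun k => ∑ a, ∑ b, u a * v b * c a b k

end Defs

/-- One sweep of resamplings joins a point to data without information. -/
def Sweep : Prop := ∀ {I ι : Type} [Fintype ι] {Ω A : ℕ → Type} (P : ∀ n, FP (Ω n))
  (Ξ : ∀ n, Ω n → A n) (μ : ∀ n, Ω n → I → ℤ) (X : ∀ n, Ω n → ι → ℝ) (B : Finset I) (M : ℕ → ℕ)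
  (ε : ℕ → ℝ),
  (∀ i ∈ B, Le M (fun n => ch (P n) (fun ω => μ n ω i) (Ξ n)) fun n =>
    ch (P n) (fun ω => μ n ω i) fun ω => (Ξ n ω, prj (er B (some i)) (μ n ω))) →
  (∀ o, Adm B o → Whp (fun n => glue (P n) (P n) (fun ω => (Ξ n ω, prj (er B o) (μ n ω)))
      fun ω => (Ξ n ω, prj (er B o) (μ n ω))) fun n y => ‖X n y.1 - X n y.2‖ ≤ ε n) →
  ∃ (W K : ℕ → Type) (Q : ∀ n, FP (W n)) (ρ : ∀ n, W n → Ω n) (Y : ∀ n, W n → K n)
    (a : ∀ n, W n → ι → ℝ), (∀ n, Law (Q n) (ρ n) (P n) id ∧ Fn (Q n) (a n) (Y n)) ∧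
    Sm M (fun n => mi (Q n) (Y n) (ρ n) fun v => Ξ n (ρ n v)) ∧
    Whp Q fun n v => ‖X n (ρ n v) - a n v‖ ≤ (B.card + 1) * ε n

/-- Jointly full coordinates are full one by one. -/
def FulC : Prop := ∀ {I : Type} [Fintype I] {Ω A : ℕ → Type} (P : ∀ n, FP (Ω n))
  (G : ∀ n, Ω n → A n) (x : ∀ n, Ω n → I → ℝ) (B : Finset I) (R : ℕ → ℕ) (L : ℕ → ℝ),
  Big R → Sub R L → (∀ᶠ n in UF, ∀ ω ∈ (P n).S, ‖x n ω‖ ≤ L n) →
  Le R (fun n => B.card * R n * lg)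
    (fun n => ch (P n) (fun ω => prj B (flv (R n) (x n ω))) (G n)) → ∀ i ∈ B,
  Le R (fun n => R n * lg) (fun n => ch (P n) (fun ω => fl1 (R n) (x n ω i)) fun ω =>
      (G n ω, prj (er B (some i)) (flv (R n) (x n ω)))) ∧
    Le R (fun n => ch (P n) (fun ω => fl1 (R n) (x n ω i)) (G n)) fun n =>
      ch (P n) (fun ω => fl1 (R n) (x n ω i)) fun ω =>
        (G n ω, prj (er B (some i)) (flv (R n) (x n ω)))

/-- Data of the terminal step. -/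
structure Tm (I J ι : Type) where
  Ω : Type
  A1 : Type
  A2 : Type
  A3 : Type
  A4 : Type
  A5 : Type
  P : FP Ω
  u : Ω → I → ℝ
  v : Ω → J → ℝ
  γ : Ω → ι → ℝ
  c : I → J → ι → ℝ
  O1 : Ω → A1
  O2 : Ω → A2
  Vh : Ω → A3
  Pi : Ω → A4
  T : Ω → A5

namespace Tm

variable {I J ι : Type} [Fintype I] [Fintype J] [Fintype ι] (x : Tm I J ι)

/-- Bounds, grading and dependences. -/
structure Alg (B1 : Finset I) (B2 : Finset J) (t1 : I → ℝ) (t2 : J → ℝ) (t : ι → ℝ) (R : ℕ)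
    (L : ℝ) : Prop where
  bc : ∀ a b k, |x.c a b k| ≤ L
  bd : ∀ ω ∈ x.P.S, ‖x.u ω‖ ≤ L ∧ ‖x.v ω‖ ≤ L ∧ ‖x.γ ω‖ ≤ L
  gr : ∀ a b k, x.c a b k ≠ 0 → t1 a = t k ∧ t2 b = t k ∧ (a ∈ B1 ∨ b ∈ B2)
  tv : Fn x.P x.T x.Vh
  vv : Fn x.P (fun ω => flv R (x.v ω)) x.Vh
  v1 : Fn x.P x.Vh x.O1
  g1 : Fn x.P (fun ω => flv R (x.γ ω)) x.O1
  t2 : Fn x.P x.T x.O2
  u2 : Fn x.P (fun ω => flv R (x.u ω)) x.O2
  g2 : Fn x.P (fun ω => flv R (x.γ ω - bl x.c (x.u ω) (x.v ω))) x.O2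
  up : Fn x.P (fun ω => prj B1 (flv R (x.u ω))) x.Pi

/-- The data kept by a move of the second family. -/
noncomputable def φ2 (R : ℕ) (S' : Finset J) (ω : x.Ω) : x.A2 × (J → ℤ) :=
  (x.O2 ω, prj S' (flv R (x.v ω)))

/-- A point and its image under a move of the second family. -/
noncomputable def P2 (R : ℕ) (S' : Finset J) : FP (x.Ω × x.Ω) :=
  glue x.P x.P (x.φ2 R S') (x.φ2 R S')

/-- The first object of the point and the second coordinates of its image. -/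
def Xi (y : x.Ω × x.Ω) : x.A1 × x.A3 := (x.O1 y.1, x.Vh y.2)

/-- The data kept by a move of the first family on pairs. -/
noncomputable def φ1 (R : ℕ) (S : Finset I) (y : x.Ω × x.Ω) : (x.A1 × x.A3) × (I → ℤ) :=
  (x.Xi y, prj S (flv R (x.u y.1)))

/-- Two pairs. -/
noncomputable def P4 (R : ℕ) (S : Finset I) (S' : Finset J) : FP ((x.Ω × x.Ω) × x.Ω × x.Ω) :=
  glue (x.P2 R S') (x.P2 R S') (x.φ1 R S) (x.φ1 R S)

/-- The rounded increment of the second coordinates. -/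
noncomputable def bh (R : ℕ) (y : x.Ω × x.Ω) : J → ℝ := rd R (x.v y.2) - rd R (x.v y.1)

/-- The change of the central coordinate along the move. -/
noncomputable def X (R : ℕ) (y : x.Ω × x.Ω) : ι → ℝ := bl x.c (x.u y.1) (x.bh R y)

/-- The context on two pairs. -/
noncomputable def Θ (R : ℕ) (S : Finset I) (y : (x.Ω × x.Ω) × x.Ω × x.Ω) : x.A3 × (I → ℤ) :=
  (x.Vh y.1.2, prj S (flv R (x.u y.1.1)))

/-- The rounded increment of the first coordinates. -/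
noncomputable def ah (R : ℕ) (y : (x.Ω × x.Ω) × x.Ω × x.Ω) : I → ℝ :=
  rd R (x.u y.1.1) - rd R (x.u y.2.1)

noncomputable def ζ (R : ℕ) (o : Option I) (y : (x.Ω × x.Ω) × x.Ω × x.Ω) : ℝ :=
  ∑ a, ev o a * x.ah R y a

noncomputable def r (R : ℕ) (o' : Option J) (y : (x.Ω × x.Ω) × x.Ω × x.Ω) : ℝ :=
  ∑ b, ev o' b * x.bh R y.1 b

noncomputable def p (R : ℕ) (o : Option I) (y : (x.Ω × x.Ω) × x.Ω × x.Ω) : ι → ℝ :=
  bl x.c (ev o) (x.bh R y.1)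

noncomputable def g (R : ℕ) (o : Option I) (o' : Option J) (y : (x.Ω × x.Ω) × x.Ω × x.Ω) :
    ι → ℝ := bl x.c (x.ah R y - x.ζ R o y • ev o) (ev o')

noncomputable def d (R : ℕ) (y : (x.Ω × x.Ω) × x.Ω × x.Ω) : (I → ℤ) × (I → ℤ) :=
  (flv R (x.u y.1.1), flv R (x.u y.2.1))

noncomputable def w (R : ℕ) (y : (x.Ω × x.Ω) × x.Ω × x.Ω) : J → ℤ := flv R (x.v y.1.1)

/-- The first defect of independence. -/
noncomputable def e1 (R : ℕ) : ℝ := mi x.P (fun ω => flv R (x.u ω)) x.O1 x.T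

/-- The second defect of independence. -/
noncomputable def e2 : ℝ := mi x.P x.Vh x.O2 x.T

end Tm

section Sys

variable {I J ι : Type} [Fintype I] [Fintype J] [Fintype ι]

/-- The hypotheses of the terminal step. -/
structure TOK (x : ℕ → Tm I J ι) (B1 : Finset I) (B2 : Finset J) (t1 : I → ℝ) (t2 : J → ℝ)
    (t : ι → ℝ) (R : ℕ → ℕ) (L : ℕ → ℝ) (ε₀ : ℝ) : Prop where
  big : Big R
  sub : Sub R L
  wt : ∀ k, 0 < t k ∧ t k ≤ 1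
  e0 : 0 < ε₀ ∧ ε₀ ≤ 1
  alg : ∀ᶠ n in UF, (x n).Alg B1 B2 t1 t2 t (R n) (L n)
  ind1 : Sm R fun n => (x n).e1 (R n)
  ind2 : Sm R fun n => (x n).e2
  tr : Sm R fun n => mi (x n).P (x n).Pi (x n).O1 (x n).Vh
  f1 : Le R (fun n => B1.card * R n * lg) fun n =>
    ch (x n).P (fun ω => prj B1 (flv (R n) ((x n).u ω))) (x n).O1
  f2 : Le R (fun n => B2.card * R n * lg) fun n =>
    ch (x n).P (fun ω => prj B2 (flv (R n) ((x n).v ω))) (x n).O2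
  ac1 : ACL (fun n => (x n).P) (fun n => (x n).O1) (fun n => (x n).u)
    (fun n l => ∃ (β : J → ℝ) (k : ι), ‖β‖ ≤ 4 * L n ∧ ∀ a, l a = ∑ b, β b * (x n).c a b k) R
  ac2 : ACL (fun n => (x n).P) (fun n => (x n).O2) (fun n => (x n).v)
    (fun n l => ∃ (a : I) (k : ι), ∀ b, l b = (x n).c a b k) R
  ng : NGG (fun n => (x n).P) (fun n => (x n).Pi) (fun n => (x n).γ) t R ε₀

end Sys

/-- The terminal step: the bilinear map is small. -/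
def TBm : Prop := ∀ {I J ι : Type} [Fintype I] [Fintype J] [Fintype ι] (x : ℕ → Tm I J ι)
  (B1 : Finset I) (B2 : Finset J) (t1 : I → ℝ) (t2 : J → ℝ) (t : ι → ℝ) (R : ℕ → ℕ) (L : ℕ → ℝ)
  (ε₀ : ℝ), TOK x B1 B2 t1 t2 t R L ε₀ →
  ∃ η : ℝ, 0 < η ∧ ∀ᶠ n in UF, ∀ a b k, |(x n).c a b k| ≤ Real.exp (-(η * R n))

/-- Information on pairs. -/
def KInfA : Prop := ∀ {I J ι : Type} [Fintype I] [Fintype J] [Fintype ι] (x : Tm I J ι)
  (B1 : Finset I) (B2 S' : Finset J) (t1 : I → ℝ) (t2 : J → ℝ) (t : ι → ℝ) (R : ℕ) (L : ℝ),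
  x.Alg B1 B2 t1 t2 t R L →
  mi (x.P2 R S') (fun y => x.Vh y.2) Prod.fst (fun y => (x.T y.1, prj S' (flv R (x.v y.1)))) ≤
      x.e2 ∧
    mi (x.P2 R S') (fun y => x.Vh y.1) Prod.snd (fun y => (x.T y.2, prj S' (flv R (x.v y.2)))) ≤
      x.e2 ∧
    mi (x.P2 R S') (fun y => x.Vh y.2) Prod.fst (fun y => x.O1 y.1) ≤ x.e2 ∧
    mi (x.P2 R S') (fun y => flv R (x.u y.1)) x.Xi (fun y => x.T y.1) ≤ x.e1 R + x.e2 ∧
    ch x.P (fun ω => prj B1 (flv R (x.u ω))) x.O1 ≤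
      ch (x.P2 R S') (fun y => prj B1 (flv R (x.u y.1))) x.Xi + x.e2

/-- Information on two pairs. -/
def KInfB : Prop := ∀ {I J ι : Type} [Fintype I] [Fintype J] [Fintype ι] (x : Tm I J ι)
  (B1 S : Finset I) (B2 S' : Finset J) (t1 : I → ℝ) (t2 : J → ℝ) (t : ι → ℝ) (R : ℕ) (L : ℝ),
  x.Alg B1 B2 t1 t2 t R L → S ⊆ B1 →
  mi (x.P4 R S S') (fun y => flv R (x.γ y.1.2)) (fun y => (x.d R y, x.w R y)) (x.Θ R S) ≤
      2 * x.e1 R + 2 * x.e2 ∧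
    mi (x.P4 R S S') (x.d R) (x.w R) (x.Θ R S) ≤ x.e1 R + 2 * x.e2 ∧
    mi (x.P4 R S S') (fun y => x.Pi y.1.2) (fun y => flv R (x.γ y.1.2)) (x.Θ R S) ≤
      mi x.P x.Pi x.O1 x.Vh

/-- Laws and entropies of the scalars on two pairs. -/
def KInfC : Prop := ∀ {I J ι : Type} [Fintype I] [Fintype J] [Fintype ι] (x : Tm I J ι)
  (B1 S : Finset I) (B2 S' : Finset J) (t1 : I → ℝ) (t2 : J → ℝ) (t : ι → ℝ) (R : ℕ) (L : ℝ),
  x.Alg B1 B2 t1 t2 t R L →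
  Law (x.P4 R S S') (fun y => y.1.2) x.P id ∧
    Law (x.P4 R S S') (fun y => (x.Θ R S y, x.γ y.2.2)) (x.P4 R S S')
      (fun y => (x.Θ R S y, x.γ y.1.2)) ∧
    (∀ i, ch (x.P2 R S') (fun y => fl1 R (x.u y.1 i)) (x.φ1 R S) ≤
      ch (x.P4 R S S') (fun y => fl1 R (x.ζ R (some i) y)) (x.Θ R S)) ∧
    ∀ l, ch x.P (fun ω => fl1 R (x.v ω l)) (x.φ2 R S') ≤
      ch (x.P4 R S S') (fun y => fl1 R (x.r R (some l) y)) (x.Θ R S)

/-- The difference of the central coordinates on two pairs is bilinear. -/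
def KAlg : Prop := ∀ (I J ι : Type) [Fintype I] [Fintype J] [Fintype ι], ∃ C : ℝ, 1 ≤ C ∧
  ∀ (x : Tm I J ι) (B1 : Finset I) (B2 : Finset J) (t1 : I → ℝ) (t2 : J → ℝ) (t : ι → ℝ) (R : ℕ)
    (L : ℝ) (o : Option I) (o' : Option J), 1 ≤ L → x.Alg B1 B2 t1 t2 t R L → Adm B1 o →
    Adm B2 o' →
    Fn (x.P4 R (er B1 o) (er B2 o')) (fun y => (x.ζ R o y, x.g R o o' y))
        (fun y => (x.d R y, x.Θ R (er B1 o) y)) ∧
      Fn (x.P4 R (er B1 o) (er B2 o')) (fun y => (x.r R o' y, x.p R o y))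
        (fun y => (x.w R y, x.Θ R (er B1 o) y)) ∧
      ∀ y ∈ (x.P4 R (er B1 o) (er B2 o')).S, (|x.ζ R o y| ≤ C * L ^ 2 ∧ |x.r R o' y| ≤ C * L ^ 2 ∧
        ‖x.g R o o' y‖ ≤ C * L ^ 2 ∧ ‖x.p R o y‖ ≤ C * L ^ 2 ∧ ‖x.γ y.1.2‖ ≤ C * L ^ 2 ∧
        (∀ k, t k ≠ o.elim 0 t1 → x.p R o y k = 0) ∧
        (∀ k, t k ≠ o'.elim 0 t2 → x.g R o o' y k = 0) ∧
        ‖x.γ y.1.2 - x.γ y.2.2 - (x.ζ R o y • x.p R o y + x.r R o' y • x.g R o o' y)‖ ≤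
          C * L ^ 2 / 2 ^ R) ∧
        ‖x.X R y.1 - x.X R y.2 - (x.γ y.1.2 - x.γ y.2.2)‖ ≤ C * L ^ 2 / 2 ^ R

/-- One resampling on each side does not move the central coordinate. -/
def Ker : Prop := ∀ {I J ι : Type} [Fintype I] [Fintype J] [Fintype ι] (x : ℕ → Tm I J ι)
  (B1 : Finset I) (B2 : Finset J) (t1 : I → ℝ) (t2 : J → ℝ) (t : ι → ℝ) (R : ℕ → ℕ) (L : ℕ → ℝ)
  (ε₀ : ℝ), TOK x B1 B2 t1 t2 t R L ε₀ → ∃ η : ℝ, 0 < η ∧ ∀ o o', Adm B1 o → Adm B2 o' →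
  Whp (fun n => (x n).P4 (R n) (er B1 o) (er B2 o')) fun n y =>
    ‖(x n).X (R n) y.1 - (x n).X (R n) y.2‖ ≤ Real.exp (-(η * R n))

/-- One resampling on the second side gives an increment in the kernel of the bilinear map. -/
def Side1 : Prop := ∀ {I J ι : Type} [Fintype I] [Fintype J] [Fintype ι] (x : ℕ → Tm I J ι)
  (B1 : Finset I) (B2 : Finset J) (t1 : I → ℝ) (t2 : J → ℝ) (t : ι → ℝ) (R : ℕ → ℕ) (L : ℕ → ℝ)
  (ε₀ : ℝ), TOK x B1 B2 t1 t2 t R L ε₀ → ∃ η : ℝ, 0 < η ∧ ∀ o', Adm B2 o' →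
  Whp (fun n => (x n).P2 (R n) (er B2 o')) fun n y =>
    ∀ a k, |∑ b, (x n).bh (R n) y b * (x n).c a b k| ≤ Real.exp (-(η * R n))

def OfKInfB : Prop := KInfA → KInfB
def OfKer : Prop := NCU → FulC → KInfA → KInfB → KInfC → KAlg → Ker
def OfSide1 : Prop := Sweep → FulC → KInfA → Ker → Side1
def OfTBm : Prop := Sweep → FulC → Side1 → TBm

end Pool.Agent.MP_5168f5_an.AN.TB
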