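import Pool.Agent.MP_5168f5_an.AN.TLSpec
import Pool.Agent.MP_5168f5_an.AN.GABch

/-! Kakeya sets in all dimensions: indices without brackets are additive. -/

namespace Pool.Agent.MP_5168f5_an.AN.TL

open H19 H17S H17F G39 GA Filter H61Z

namespace TLTAddA

variable {κ : Type} [Fintype κ] {M : ℕ → ℕ} {c : ℕ → κ → κ → κ → ℝ} {a : κ}

theorem ob_br (hM : Big M) (hc : ∀ a b e, OB M fun n => c n a b e) {s t : ℕ → κ → ℝ}
    (hs : ∀ e, OB M fun n => s n e) (ht : ∀ e, OB M fun n => t n e) (e : κ) :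
    OB M fun n => br (c n) (s n) (t n) e :=
  ob_sum hM _ fun b _ => ob_sum hM _ fun b' _ => ob_mul hM (ob_mul hM (hc b b' e) (hs b)) (ht b')

theorem neg_br (hM : Big M) (ha : ∀ b b', Neg M fun n => c n b b' a) {s t : ℕ → κ → ℝ}
    (hs : ∀ e, OB M fun n => s n e) (ht : ∀ e, OB M fun n => t n e) :
    Neg M fun n => br (c n) (s n) (t n) a :=
  Neg.sum hM _ fun b _ => Neg.sum hM _ fun b' _ => ((ha b b').mul (hs b)).mul (ht b')

theorem ob_ev (hM : Big M) (hc : ∀ a b e, OB M fun n => c n a b e) {α : Type}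
    {f : ℕ → α → κ → ℝ} (hf : ∀ i e, OB M fun n => f n i e) (w : Wd α) :
    ∀ e, OB M fun n => w.ev (br (c n)) (f n) e := by
  induction w with
  | of i => exact hf i
  | br u v hu hv => exact ob_br hM hc hu hv

theorem neg_ev' (hM : Big M) (hc : ∀ a b e, OB M fun n => c n a b e)
    (ha : ∀ b b', Neg M fun n => c n b b' a) {α : Type} {f : ℕ → α → κ → ℝ}
    (hf : ∀ i e, OB M fun n => f n i e) {w : Wd α} (hw : 3 ≤ w.len) :
    Neg M fun n => w.ev (br (c n)) (f n) a := by
  cases w with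
  | of i => simp [Wd.len] at hw
  | br u v => exact neg_br hM ha (ob_ev hM hc hf u) (ob_ev hM hc hf v)

end TLTAddA

open TLTAddA in
theorem rowTAdd : OfTAdd := by
  intro _ _ _ ι κ _ _ _ M Φ om pos B c L a hA hL ha K
  have hM := hA.big
  have key := R4.unif (A := fun _ => (κ → ℝ) × (κ → ℝ))
    (h := fun n v => ‖v.1‖ ≤ L n ∧ ‖v.2‖ ≤ L n)
    (p := fun n v => |bch Φ.N (c n) v.1 v.2 a - v.1 a - v.2 a| ≤ dl M K n) fun v hv => by
      have h1 : ∀ e, OB M fun n => (v n).1 e := fun e =>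
        ob_of_le hL (hv.mono fun n k => (norm_le_pi_norm (v n).1 e).trans k.1)
      have h2 : ∀ e, OB M fun n => (v n).2 e := fun e =>
        ob_of_le hL (hv.mono fun n k => (norm_le_pi_norm (v n).2 e).trans k.2)
      have h3 : ∀ (i : Bool) e, OB M fun n => (bif i then (v n).1 else (v n).2) e := fun i => by
        cases i
        exacts [h2, h1]
      have h4 := ((neg_br hM ha h1 h2).mul' (ob_const hM ((1 / 2 : ℚ) : ℝ))).add hM
        (Neg.sum hM (BL Φ.N).support fun w hw =>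
          (neg_ev' hM hA.ob ha (f := fun n i => bif i then (v n).1 else (v n).2) h3
            ((gaBch Φ.N).1 w hw)).mul' (ob_const hM (BL Φ.N w : ℝ)))
      refine h4.congr (Eventually.of_forall fun n => ?_) K
      simp only [bch, GA.ser, Finsupp.sum, Pi.add_apply, Pi.smul_apply, Finset.sum_apply,
        Rat.smul_def]
      ring
  exact key.mono fun n k x g hx hg => k (x, g) ⟨hx, hg⟩

end Pool.Agent.MP_5168f5_an.AN.TL
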