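import Pool.Agent.MP_5168f5_an.AN.TLSpec

/-! In the terminal case a mixed index occurs in a bracket of pure indices. -/

namespace Pool.Agent.MP_5168f5_an.AN.TL

open H19 H17S H17F G39 GA Filter H61Z

namespace TLTGenA

theorem os_congr {M : ℕ → ℕ} {u v : ℕ → ℝ} (h : OS M u) (e : ∀ᶠ n in UF, |v n| = |u n|) :
    OS M v := h.imp fun _ k => ⟨k.1, (k.2.and e).mono fun _ a => a.2.trans_le a.1⟩

theorem tri {κ : Type} {om : κ → ℝ × ℝ} {a : κ} (h : 0 ≤ (om a).1 ∧ 0 ≤ (om a).2)
    (h0 : om a ≠ 0) : P1 om a ∨ P2 om a ∨ Mx om a := by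
  rcases h.1.eq_or_lt with e | e <;> rcases h.2.eq_or_lt with e' | e'
  · exact (h0 (Prod.ext e.symm e'.symm)).elim
  · exact Or.inr (Or.inl ⟨e.symm, e'⟩)
  · exact Or.inl ⟨e, e'.symm⟩
  · exact Or.inr (Or.inr ⟨e, e'⟩)

end TLTGenA

open TLTGenA

theorem rowTGen : OfTGen := by
  intro hm h2 ι κ _ _ _ M Φ om pos B c e h ht he H
  have hM := h.big
  have cen := ((h2 ι κ M Φ om pos B c h).2 ht).2
  have e0 : om e ≠ 0 := fun z => by simpa [z] using he.1
  have sw : ∀ a b, (OS M fun n => c n b a e) → OS M fun n => c n a b e := fun a b k =>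
    os_congr k (h.fr.mono fun n u => by rw [(hm ι κ Φ _ _ u).anti a b e, abs_neg])
  have k1 : ∀ a b, Hm om a b e → OS M fun n => c n a b e := fun a b z => by
    rcases tri (h.wt a) z.1 with x | x | x
    · rcases tri (h.wt b) z.2.1 with y | y | y
      · exact absurd he.2 (by simp [z.2.2, x.2, y.2])
      · exact H a b x y z
      · exact sw a b (cen b y a e e0).os
    · rcases tri (h.wt b) z.2.1 with y | y | y
      · exact sw a b (H b a y x ⟨z.2.1, z.1, z.2.2.trans (add_comm _ _)⟩)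
      · exact absurd he.1 (by simp [z.2.2, x.1, y.1])
      · exact sw a b (cen b y a e e0).os
    · exact (cen a x b e e0).os
  have k2 : ∀ a b, OB M fun n => cH om (c n) a b e := fun a b =>
    ob_congr (h.ob a b e) (Eventually.of_forall fun n => by
      unfold cH; split_ifs <;> simp)
  have k3 : ∀ a b, (⟨_, k2 a b⟩ : OO hM) ∈ mm hM := fun a b => by
    by_cases z : Hm om a b e
    · exact os_congr (k1 a b z) (Eventually.of_forall fun n => by simp only [cH, if_pos z])
    · exact mm_of_ev (Eventually.of_forall fun n => by simp only [cH, if_neg z])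
  obtain ⟨lam, l1, l2⟩ := h.gen e he
  have k4 := (mm hM).sum_mem (t := Finset.univ) fun a _ => (mm hM).sum_mem (t := Finset.univ)
    fun b _ => (mm hM).mul_mem_left ⟨_, l1 a b⟩ (k3 a b)
  have k5 : (⟨_, (l2 e rfl).ob⟩ : OO hM) ∈ mm hM := (l2 e rfl).os
  refine not_mem_mm one_pos (Eventually.of_forall fun n => ?_) ((mm hM).sub_mem k4 k5)
  simp [Finset.sum_apply]

end Pool.Agent.MP_5168f5_an.AN.TL
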