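import Pool.Agent.MP_5168f5_an.AN.TLSpec

/-! In the terminal case the mixed indices are central. -/

namespace Pool.Agent.MP_5168f5_an.AN.TL

open H19 H17S H17F G39 GA Filter H61Z

namespace TLTL0A

variable {κ R : Type} [Fintype κ] [CommRing R] {om : κ → ℝ × ℝ} {c : κ → κ → κ → R}

theorem pure (h : GrL om c) (hT : Term om) {f b : κ} (hf : Mx om f) (hb : ¬Mx om b) (e : κ) :
    c f b e = 0 := h.hom f b e fun ⟨_, h2, h3⟩ => by
  obtain ⟨b1, b2⟩ := h.wt b
  have e1 : (om e).1 = (om f).1 + (om b).1 := congrArg Prod.fst h3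
  have e2 : (om e).2 = (om f).2 + (om b).2 := congrArg Prod.snd h3
  have k := hT f e hf ⟨by linarith [hf.1], by linarith [hf.2]⟩
  rw [e1, e2] at k
  have k' : (om f).1 * (om b).2 = (om f).2 * (om b).1 := by linarith
  rcases b1.eq_or_lt with u | u
  · rw [← u, mul_zero] at k'
    exact h2 (Prod.ext u.symm ((mul_eq_zero.1 k').resolve_left hf.1.ne'))
  · exact hb ⟨u, (mul_pos_iff_of_pos_left hf.1).1 (k' ▸ mul_pos hf.2 u)⟩

theorem pos (h : GrL om c) {b : κ} (hb : om b ≠ 0) : 0 < (om b).1 + (om b).2 := by
  obtain ⟨b1, b2⟩ := h.wt b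
  by_contra k
  exact hb (Prod.ext (by simp; linarith) (by simp; linarith))

end TLTL0A

open TLTL0A in
theorem rowTL0 : TL0 := by
  classical
  intro κ R _ _ om c h hT hg f
  let r : κ → κ → Prop := fun a b => (om a).1 + (om a).2 < (om b).1 + (om b).2
  have : IsTrans κ r := ⟨fun _ _ _ => lt_trans⟩
  have : Std.Irrefl r := ⟨fun _ => lt_irrefl _⟩
  induction f using (Finite.wellFounded_of_trans_of_irrefl r).induction with
  | _ f ih =>
  intro hf b₀ e
  by_cases h0 : Mx om b₀
  swap
  · exact pure h hT hf h0 e
  obtain ⟨lam, hl⟩ := hg f hf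
  have key : ∀ a b, ∑ x, (if om x = om f then c a b x * c x b₀ e else 0) = 0 := fun a b => by
    by_cases k : Hm om a b f
    swap
    · refine Finset.sum_eq_zero fun x _ => ?_
      split_ifs with u
      · rw [h.hom a b x fun v => k ⟨v.1, v.2.1, u ▸ v.2.2⟩, zero_mul]
      · rfl
    have e1 : (om f).1 = (om a).1 + (om b).1 := congrArg Prod.fst k.2.2
    have e2 : (om f).2 = (om a).2 + (om b).2 := congrArg Prod.snd k.2.2
    by_cases ha : Mx om a
    · simp [ih a (by have := pos h k.2.1; simp only [r]; linarith) ha]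
    by_cases hb : Mx om b
    · simp [h.anti a b, ih b (by have := pos h k.1; simp only [r]; linarith) hb]
    have z : ∀ a, ¬Mx om a → c a b₀ = 0 := fun a u => funext fun x => by
      rw [h.anti, pure h hT h0 u, _root_.neg_zero]; rfl
    have j := congrFun (h.jac (Pi.single a 1) (Pi.single b 1) (Pi.single b₀ 1)) e
    rw [br_single, br_single, br_single, z a ha, z b hb, br_zero_right, br_zero_right,
      sub_self] at j
    refine Eq.trans (Finset.sum_congr rfl fun x _ => ?_) j
    simp only [Pi.single_apply, mul_ite, mul_one, mul_zero, Finset.sum_ite_eq', Finset.mem_univ,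
      if_true]
    split_ifs with u
    · exact mul_comm _ _
    · rw [h.hom a b x fun v => u (v.2.2.trans k.2.2.symm), mul_zero]
  calc c f b₀ e = ∑ x, if om x = om f then (if x = f then 1 else 0) * c x b₀ e else 0 := by
        rw [Finset.sum_eq_single f (fun x _ u => by simp [u]) (by simp)]; simp
    _ = ∑ x, ∑ a, ∑ b, lam a b * if om x = om f then c a b x * c x b₀ e else 0 := by
        refine Finset.sum_congr rfl fun x _ => ?_
        by_cases u : om x = om f
        · simp only [if_pos u, ← mul_assoc, ← Finset.sum_mul]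
          congr 1
          convert (hl x u).symm
        · simp [u]
    _ = 0 := by
        rw [Finset.sum_comm]
        refine Finset.sum_eq_zero fun a _ => ?_
        rw [Finset.sum_comm]
        refine Finset.sum_eq_zero fun b _ => ?_
        rw [← Finset.mul_sum, key, mul_zero]

end Pool.Agent.MP_5168f5_an.AN.TL
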