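import Pool.Agent.MP_5168f5_an.AN.TLSpec

/-! The group law when the mixed indices are central. -/

namespace Pool.Agent.MP_5168f5_an.AN.TL

open H19 H17S H17F G39 GA Filter H61Z

namespace TLTL1A

variable {κ R : Type} [Fintype κ] [CommRing R] [Algebra ℚ R] {om : κ → ℝ × ℝ}
  {c : κ → κ → κ → R}

open Classical in
/-- The projection to the coordinates in `q`. -/
noncomputable def pr (q : κ → Prop) : (κ → R) →ₗ[ℚ] (κ → R) where
  toFun x a := if q a then x a else 0
  map_add' x y := by funext a; by_cases h : q a <;> simp [h]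
  map_smul' x y := by funext a; by_cases h : q a <;> simp [h]

/-- The bracket of the pure parts as a bilinear map. -/
noncomputable def cb (om : κ → ℝ × ℝ) (c : κ → κ → κ → R) :
    (κ → R) →ₗ[ℚ] (κ → R) →ₗ[ℚ] (κ → R) :=
  (LinearMap.mk₂ ℚ (br c) (br_add_left c)
    (fun q s t => by rw [← algebraMap_smul R q s, br_smul_left, algebraMap_smul]) (br_add_right c)
    fun q s t => by rw [← algebraMap_smul R q t, br_smul_right, algebraMap_smul]).compl₁₂
    (pr (P1 om)) (pr (P2 om))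

theorem cb_eq (x y : κ → R) : cb om c x y = br c (pr (P1 om) x) (pr (P2 om) y) := rfl

theorem hom {q : κ → Prop} (h : ∀ a b e, c a b e ≠ 0 → (q e ↔ q a ∧ q b)) (x y : κ → R) :
    pr q (br c x y) = br c (pr q x) (pr q y) := by
  funext e
  simp only [pr, LinearMap.coe_mk, AddHom.coe_mk, br]
  by_cases k : q e
  · rw [if_pos k]
    refine Finset.sum_congr rfl fun a _ => Finset.sum_congr rfl fun b _ => ?_
    by_cases z : c a b e = 0
    · simp [z]
    · simp [(h a b e z).1 k]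
  · rw [if_neg k]
    refine (Finset.sum_eq_zero fun a _ => Finset.sum_eq_zero fun b _ => ?_).symm
    by_cases z : c a b e = 0
    · simp [z]
    · rcases not_and_or.1 (mt (h a b e z).2 k) with u | u <;> simp [u]

theorem bch_hom (hh : SHom) (N : ℕ) {q : κ → Prop}
    (h : ∀ a b e, c a b e ≠ 0 → (q e ↔ q a ∧ q b)) (x y : κ → R) :
    pr q (bch N c x y) = bch N c (pr q x) (pr q y) :=
  sub_eq_zero.1 (hh κ κ R N c c (pr q) ⊤ ⊥
    (fun x _ y _ => ⟨trivial, sub_eq_zero.2 (hom h x y)⟩)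
    (fun x _ y hy => by
      rw [(Submodule.mem_bot ℚ).1 hy, br_zero_left, br_zero_right]; exact ⟨rfl, rfl⟩)
    (fun x _ y hy => by rw [(Submodule.mem_bot ℚ).1 hy, br_zero_right]; rfl)
    x trivial y trivial).2

variable (g : GrL om c) (z : ∀ f, Mx om f → ∀ b e, c f b e = 0)
include g

omit [Algebra ℚ R] in
theorem cH_eq : cH om c = c := by
  funext a b e
  unfold cH
  split_ifs with h
  exacts [rfl, (g.hom a b e h).symm]

theorem cc_eq (x y : κ → R) : cc om c x y = cb om c x y := by rw [cc, cH_eq g]; rfl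

include z

omit [Algebra ℚ R] in
theorem cls {a b e : κ} (h : c a b e ≠ 0) : (P1 om a ∨ P2 om a) ∧ (P1 om b ∨ P2 om b) ∧
    (om e).1 = (om a).1 + (om b).1 ∧ (om e).2 = (om a).2 + (om b).2 := by
  have k : ∀ a, om a ≠ 0 → ¬Mx om a → P1 om a ∨ P2 om a := fun a h0 h1 => by
    rcases (g.wt a).1.eq_or_lt with u | u <;> rcases (g.wt a).2.eq_or_lt with v | v
    exacts [(h0 (Prod.ext u.symm v.symm)).elim, Or.inr ⟨u.symm, v⟩, Or.inl ⟨u, v.symm⟩,
      (h1 ⟨u, v⟩).elim]
  obtain ⟨h1, h2, h3⟩ : Hm om a b e := by_contra fun u => h (g.hom a b e u)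
  exact ⟨k a h1 fun u => h (z a u b e), k b h2 fun u => h (by rw [g.anti, z b u, _root_.neg_zero]),
    congrArg Prod.fst h3, congrArg Prod.snd h3⟩

omit [Algebra ℚ R] in
theorem h1 (a b e : κ) (h : c a b e ≠ 0) : P1 om e ↔ P1 om a ∧ P1 om b := by
  have := cls g z h
  unfold P1 P2 at *
  grind

omit [Algebra ℚ R] in
theorem h2 (a b e : κ) (h : c a b e ≠ 0) : P2 om e ↔ P2 om a ∧ P2 om b := by
  have := cls g z h
  unfold P1 P2 at *
  grind

theorem mix {e : κ} (he : Mx om e) (x y : κ → R) :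
    br c x y e = cb om c x y e - cb om c y x e := by
  rw [cb_eq, cb_eq, br_anti g.anti (pr _ y), Pi.neg_apply, sub_neg_eq_add]
  simp only [br, ← Finset.sum_add_distrib]
  refine Finset.sum_congr rfl fun a _ => Finset.sum_congr rfl fun b _ => ?_
  by_cases u : c a b e = 0
  · simp [u]
  have k : (P1 om a ∧ P2 om b ∧ ¬P2 om a) ∨ (P2 om a ∧ P1 om b ∧ ¬P1 om a) := by
    have := cls g z u
    unfold Mx P1 P2 at *
    grind
  rcases k with k | k <;> simp [pr, k]

theorem cen (x y t : κ → R) : br c t (cb om c x y) = 0 := by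
  funext e
  refine Finset.sum_eq_zero fun a _ => Finset.sum_eq_zero fun b _ => ?_
  by_cases k : Mx om b
  · rw [g.anti, z b k, _root_.neg_zero, zero_mul, zero_mul]
  refine mul_eq_zero_of_right _
    (Finset.sum_eq_zero fun a' _ => Finset.sum_eq_zero fun b' _ => ?_)
  by_cases u : c a' b' b = 0
  · simp [u]
  have k : ¬P1 om a' ∨ ¬P2 om b' := by
    have := cls g z u
    unfold Mx P1 P2 at *
    grind
  rcases k with k | k <;> simp [pr, k]

theorem brW (x y : κ → R) :
    br c x y ∈ LinearMap.ker (cb om c) ⊓ LinearMap.ker (cb om c).flip := by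
  refine ⟨LinearMap.ext fun t => ?_, LinearMap.ext fun t => ?_⟩
  · rw [cb_eq, hom (h1 g z), g.jac, ← cb_eq, ← cb_eq, cen g z, cen g z, sub_self]; rfl
  · rw [LinearMap.flip_apply, cb_eq, hom (h2 g z), br_anti g.anti, g.jac,
      br_anti g.anti _ (pr _ t), br_anti g.anti _ (pr _ t), br_neg_right, br_neg_right, ← cb_eq,
      ← cb_eq, cen g z, cen g z, sub_self, _root_.neg_zero]; rfl

theorem fil (hf : SFil) (N : ℕ) (x y : κ → R) :
    bch N c x y - x - y ∈ LinearMap.ker (cb om c) ⊓ LinearMap.ker (cb om c).flip ∧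
      ∀ e, Mx om e → (bch N c x y - x - y - (1 / 2 : ℚ) • br c x y) e = 0 := by
  have h := (hf κ R N c g.anti).2.2 (fun i => (⨅ _ : 1 < i, LinearMap.ker (cb om c) ⊓
    LinearMap.ker (cb om c).flip) ⊓ ⨅ _ : 2 < i, ⨅ e, ⨅ _ : Mx om e,
      LinearMap.ker (LinearMap.proj e)) 1 1 1 x y
    (fun i j ij => inf_le_inf (le_iInf fun h => iInf_le _ (h.trans_le ij))
      (le_iInf fun h => iInf_le _ (h.trans_le ij)))
    (fun i j s hs t ht => by
      simp only [Submodule.mem_inf, Submodule.mem_iInf, LinearMap.mem_ker] at hs ht ⊢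
      refine ⟨fun _ => brW g z s t, fun h e he => (mix g z he s t).trans ?_⟩
      rcases (by by_contra! k; linarith : 1 < i ∨ 1 < j) with k | k
      · rw [← (cb om c).flip_apply t s, (hs.1 k).1, (hs.1 k).2]; exact sub_self _
      · rw [← (cb om c).flip_apply s t, (ht.1 k).1, (ht.1 k).2]; exact sub_self _)
    zero_le_one le_rfl le_rfl (by simp) (by simp)
  simp only [Submodule.mem_iInf, Submodule.mem_inf (p := ⨅ _, _)] at h
  refine ⟨?_, h.2 (by norm_num)⟩
  simpa using add_mem (h.1 (by norm_num)) (Submodule.smul_mem _ (1 / 2 : ℚ) (brW g z x y))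

end TLTL1A

open TLTL1A in
theorem rowTL1 : OfTL1 := fun hf hh κ R _ _ _ om c N g z x u y => by
  refine ⟨bch_hom hh N (h1 g z) x u, bch_hom hh N (h2 g z) x u, fun e he => ?_⟩
  obtain ⟨⟨a₁, a₂⟩, a₃⟩ := fil g z hf N x u
  obtain ⟨b₁, b₂⟩ := brW g z x u
  have a₁ := fun t => LinearMap.congr_fun a₁ t
  have a₂ := fun t => LinearMap.congr_fun a₂ t
  have a₃ := a₃ e he
  simp only [gam, cc_eq g]
  refine ⟨?_, congrFun (a₁ y) e, congrFun (a₂ y) e, congrFun (LinearMap.congr_fun b₁ y) e,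
    congrFun (LinearMap.congr_fun b₂ y) e⟩
  obtain ⟨w, hw⟩ : ∃ w, bch N c x u = x + u + w := ⟨_, (add_sub_cancel _ _).symm⟩
  rw [hw] at a₁ a₂ a₃ ⊢
  rw [show x + u + w - x - u = w by abel] at a₁ a₂ a₃
  rw [Pi.sub_apply, sub_eq_zero, Pi.smul_apply, mix g z he] at a₃
  simp only [LinearMap.flip_apply] at a₂
  simp only [map_add, LinearMap.add_apply, a₁, a₂, LinearMap.zero_apply, Pi.add_apply,
    Pi.smul_apply, add_zero, a₃]
  module

end Pool.Agent.MP_5168f5_an.AN.TL
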