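import Pool.Agent.MP_5168f5_an.AN.TLSpec

/-! The homogeneous constants modulo negligible sequences form a graded Lie algebra. -/

namespace Pool.Agent.MP_5168f5_an.AN.TL

open H19 H17S H17F G39 GA Filter H61Z

namespace TLTL2A

section Alg

variable {κ R : Type} [Fintype κ] [CommRing R]

/-- The identity of Jacobi for the constants. -/
def JC (c : κ → κ → κ → R) : Prop := ∀ a b d e,
  ∑ f, c a b f * c f d e = ∑ f, c b d f * c a f e - ∑ f, c a d f * c b f e

theorem sw4 (F : κ → κ → κ → κ → R) :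
    ∑ f, ∑ d, ∑ a, ∑ b, F f d a b = ∑ a, ∑ b, ∑ d, ∑ f, F f d a b :=
  calc ∑ f, ∑ d, ∑ a, ∑ b, F f d a b = ∑ d, ∑ f, ∑ a, ∑ b, F f d a b := Finset.sum_comm
    _ = ∑ d, ∑ a, ∑ f, ∑ b, F f d a b := Finset.sum_congr rfl fun _ _ => Finset.sum_comm
    _ = ∑ a, ∑ d, ∑ f, ∑ b, F f d a b := Finset.sum_comm
    _ = ∑ a, ∑ d, ∑ b, ∑ f, F f d a b :=
      Finset.sum_congr rfl fun _ _ => Finset.sum_congr rfl fun _ _ => Finset.sum_comm
    _ = _ := Finset.sum_congr rfl fun _ _ => Finset.sum_comm

theorem sw3 (F : κ → κ → κ → R) : ∑ f, ∑ b, ∑ d, F f b d = ∑ b, ∑ d, ∑ f, F f b d :=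
  Finset.sum_comm.trans (Finset.sum_congr rfl fun _ _ => Finset.sum_comm)

theorem brL (c : κ → κ → κ → R) (s t u : κ → R) (e : κ) : br c (br c s t) u e =
    ∑ a, ∑ b, ∑ d, s a * t b * u d * ∑ f, c a b f * c f d e := by
  simp only [br, Finset.mul_sum, Finset.sum_mul]
  rw [sw4]
  exact Finset.sum_congr rfl fun _ _ => Finset.sum_congr rfl fun _ _ =>
    Finset.sum_congr rfl fun _ _ => Finset.sum_congr rfl fun _ _ => by ring

theorem brR (c : κ → κ → κ → R) (s t u : κ → R) (e : κ) : br c s (br c t u) e =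
    ∑ a, ∑ b, ∑ d, s a * t b * u d * ∑ f, c b d f * c a f e := by
  simp only [br, Finset.mul_sum]
  refine Finset.sum_congr rfl fun _ _ => ?_
  rw [sw3]
  exact Finset.sum_congr rfl fun _ _ => Finset.sum_congr rfl fun _ _ =>
    Finset.sum_congr rfl fun _ _ => by ring

theorem jac_of {c : κ → κ → κ → R} (h : JC c) (s t u : κ → R) :
    br c (br c s t) u = br c s (br c t u) - br c t (br c s u) := by
  funext e
  rw [Pi.sub_apply, brL, brR, brR, Finset.sum_comm (f := fun a b => ∑ d, t a * s b * u d * _)]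
  simp only [← Finset.sum_sub_distrib]
  exact Finset.sum_congr rfl fun a _ => Finset.sum_congr rfl fun b _ =>
    Finset.sum_congr rfl fun d _ => by rw [h a b d e]; ring

theorem of_jac {c : κ → κ → κ → R}
    (h : ∀ s t u, br c (br c s t) u = br c s (br c t u) - br c t (br c s u)) : JC c := by
  classical
  intro a b d e
  have := congrFun (h (Pi.single a 1) (Pi.single b 1) (Pi.single d 1)) e
  rw [Pi.sub_apply, brL, brR, brR] at this
  simpa [Pi.single_apply, Finset.sum_ite_eq'] using this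

omit [Fintype κ] in
theorem live {om : κ → ℝ × ℝ} (wt : ∀ a, 0 ≤ (om a).1 ∧ 0 ≤ (om a).2) {a b e : κ}
    (h : Hm om a b e) : om e ≠ 0 := fun k => by
  have h1 := congrArg Prod.fst (k.symm.trans h.2.2)
  have h2 := congrArg Prod.snd (k.symm.trans h.2.2)
  simp only [Prod.fst_zero, Prod.snd_zero, Prod.fst_add, Prod.snd_add] at h1 h2
  exact h.1 (Prod.ext (by simp only [Prod.fst_zero]; linarith [wt a, wt b])
    (by simp only [Prod.snd_zero]; linarith [wt a, wt b]))

theorem grl {om : κ → ℝ × ℝ} {c : κ → κ → κ → R} (wt : ∀ a, 0 ≤ (om a).1 ∧ 0 ≤ (om a).2)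
    (an : ∀ a b e, c a b e = -c b a e) (J : JC c)
    (hz : ∀ a b e, om e ≠ 0 → ¬Hm om a b e → c a b e = 0) : GrL om (cH om c) := by
  have h0 : ∀ a b e, ¬Hm om a b e → cH om c a b e = 0 := fun a b e k => if_neg k
  have h1 : ∀ a b e, om e ≠ 0 → cH om c a b e = c a b e := fun a b e k => by
    by_cases u : Hm om a b e
    · exact if_pos u
    · rw [h0 a b e u, hz a b e k u]
  have hL : ∀ a b f d e, om e ≠ 0 → cH om c a b f * cH om c f d e = c a b f * c f d e :=
    fun a b f d e k => by
      rw [h1 f d e k]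
      by_cases u : om f = 0
      · rw [hz f d e k fun v => v.1 u, mul_zero, mul_zero]
      · rw [h1 a b f u]
  have hR : ∀ a b f d e, om e ≠ 0 → cH om c a b f * cH om c d f e = c a b f * c d f e :=
    fun a b f d e k => by
      rw [h1 d f e k]
      by_cases u : om f = 0
      · rw [hz d f e k fun v => v.2.1 u, mul_zero, mul_zero]
      · rw [h1 a b f u]
  refine ⟨wt, fun a b e => ?_, jac_of fun a b d e => ?_, h0⟩
  · by_cases k : om e = 0
    · rw [h0 a b e fun u => live wt u k, h0 b a e fun u => live wt u k, _root_.neg_zero]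
    · rw [h1 a b e k, h1 b a e k, an]
  · by_cases k : om e = 0
    · have : ∀ a b, cH om c a b e = 0 := fun a b => h0 a b e fun u => live wt u k
      simp only [this, mul_zero, Finset.sum_const_zero, sub_zero]
    · simp only [hL _ _ _ _ e k, hR _ _ _ _ e k]
      exact J a b d e

omit [Fintype κ] in
theorem cH_map {S : Type} [CommRing S] (f : R →+* S) (om : κ → ℝ × ℝ) (c : κ → κ → κ → R)
    (a b e : κ) : cH om (fun a b e => f (c a b e)) a b e = f (cH om c a b e) := by
  unfold cH
  split_ifs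
  · rfl
  · exact (map_zero f).symm

end Alg

variable {M : ℕ → ℕ} (hM : Big M)

/-- The value at `n`. -/
def ev (n : ℕ) : OO hM →+* ℝ := (Pi.evalRingHom (fun _ => ℝ) n).comp (OO hM).subtype

theorem mk_eq {x y : OO hM} (h : Neg M fun n => ev hM n x - ev hM n y) :
    Ideal.Quotient.mk (ng hM) x = Ideal.Quotient.mk (ng hM) y := Ideal.Quotient.eq.2 h

end TLTL2A

open TLTL2A

theorem rowTL2 : OfTL2 := by
  intro sm t0 ι κ _ _ _ M Φ om pos B c h
  have hM := h.big
  obtain ⟨cO, hO⟩ : ∃ cO : κ → κ → κ → OO hM,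
      cO = fun a b e => ⟨fun n => c n a b e, h.ob a b e⟩ := ⟨_, rfl⟩
  have hq : cq h.big om h.ob = cH om fun a b e => Ideal.Quotient.mk (ng hM) (cO a b e) := by
    rw [hO]; rfl
  have he : ∀ n a b e, ev hM n (cO a b e) = c n a b e := fun n a b e => by rw [hO]; rfl
  have hm := h.fr.mono fun n k => sm ι κ Φ (B n) (c n) k
  have z : ∀ a b e, Ideal.Quotient.mk (ng hM) (cO a b e) = 0 ↔ Neg M fun n => c n a b e :=
    fun a b e => by rw [Ideal.Quotient.eq_zero_iff_mem, hO]; rfl
  have G : GrL om (cq h.big om h.ob) := by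
    rw [hq]
    refine grl h.wt (fun a b e => ?_) (fun a b d e => ?_) fun a b e k u =>
      (z a b e).2 (h.hom a b e k u)
    · rw [← map_neg]
      exact mk_eq hM (neg_ev (hm.mono fun n k => by rw [map_neg, he, he, k.anti a b e, sub_self]))
    · simp only [← map_mul, ← map_sum, ← map_sub]
      refine mk_eq hM (neg_ev (hm.mono fun n k => ?_))
      simp only [map_sub, map_sum, map_mul, he]
      exact sub_eq_zero.2 (of_jac k.jac a b d e)
  refine ⟨G, fun T => ?_⟩
  have C : ∀ f, Mx om f → ∀ b e, cq h.big om h.ob f b e = 0 := by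
    refine t0 κ _ om _ G T fun e k => ?_
    obtain ⟨lam, l1, l2⟩ := h.gen e k
    refine ⟨fun a b => Ideal.Quotient.mk (ng hM) ⟨fun n => lam n a b, l1 a b⟩, fun e' u => ?_⟩
    have hl : ∀ n a b, ev hM n ⟨fun n => lam n a b, l1 a b⟩ = lam n a b := fun _ _ _ => rfl
    have hc : ∀ n a b, ev hM n (cH om cO a b e') = cH om (c n) a b e' := fun n a b => by
      rw [← cH_map]; simp only [he]
    have l3 := l2 e' u
    simp only [hq, cH_map, ← map_mul, ← map_sum]
    by_cases v : e' = e
    · rw [if_pos v, ← map_one (Ideal.Quotient.mk (ng hM))]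
      simp only [if_pos v] at l3
      exact mk_eq hM (by simpa only [map_sum, map_mul, map_one, hl, hc] using l3)
    · rw [if_neg v, ← map_zero (Ideal.Quotient.mk (ng hM))]
      simp only [if_neg v] at l3
      exact mk_eq hM (by simpa only [map_sum, map_mul, map_zero, hl, hc] using l3)
  refine ⟨C, fun f k b e u => ?_⟩
  by_cases v : Hm om f b e
  · have := C f k b e
    rw [hq] at this
    exact (z f b e).1 ((if_pos v).symm.trans this)
  · exact h.hom f b e u v

end Pool.Agent.MP_5168f5_an.AN.TL
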