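import Pool.Agent.MP_5168f5_an.AN.TLSpec

/-! The group law in the terminal case, up to negligible errors. -/

namespace Pool.Agent.MP_5168f5_an.AN.TL

open H19 H17S H17F G39 GA Filter H61Z

namespace TLTLawA

variable {κ R S : Type} [Fintype κ] [CommRing R] [CommRing S] [Algebra ℚ R] [Algebra ℚ S]
  (om : κ → ℝ × ℝ)

/-- The five expressions. -/
noncomputable def fv (N : ℕ) (c : κ → κ → κ → R) (x g y : κ → R) (e : κ) : Fin 5 → R :=
  ![gam om c (bch N c x g) e -
      (gam om c x e + g e + cc om c x g e + ((1 / 2 : ℚ) • cc om c g g) e),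
    cc om c (bch N c x g - x - g) y e, cc om c y (bch N c x g - x - g) e,
    cc om c (br c x g) y e, cc om c y (br c x g) e]

theorem cc_map (sm : SMap) (f : R →+* S) (c : κ → κ → κ → R) (x y : κ → R) (e : κ) :
    f (cc om c x y e) =
      cc om (fun a b e => f (c a b e)) (fun a => f (x a)) (fun a => f (y a)) e := by
  unfold cc
  rw [(sm κ R S f 0 _ _ _).1]
  congr 1
  · funext a b e; simp only [cH, apply_ite f, map_zero]
  · funext a; simp only [p1, apply_ite f, map_zero]
  · funext a; simp only [p2, apply_ite f, map_zero]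

theorem fv_map (sm : SMap) (f : R →+* S) (N : ℕ) (c : κ → κ → κ → R) (x g y : κ → R) (e : κ)
    (i : Fin 5) : f (fv om N c x g y e i) = fv om N (fun a b e => f (c a b e)) (fun a => f (x a))
      (fun a => f (g a)) (fun a => f (y a)) e i := by
  have h1 : (fun a => f (bch N c x g a)) = _ := funext (sm κ R S f N c x g).2.1
  have h2 : (fun a => f (br c x g a)) = _ := funext (sm κ R S f N c x g).1
  have h3 : (fun a => f ((bch N c x g - x - g) a)) =
      (fun a => f (bch N c x g a)) - (fun a => f (x a)) - fun a => f (g a) := by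
    funext a; simp
  fin_cases i
  · simp only [fv, gam, Fin.zero_eta, Matrix.cons_val_zero, Pi.add_apply, Pi.smul_apply, map_sub,
      map_add, map_rat_smul, cc_map om sm, ← h1]
  · exact (cc_map om sm f c _ _ e).trans (by rw [h3, h1]; rfl)
  · exact (cc_map om sm f c _ _ e).trans (by rw [h3, h1]; rfl)
  · exact (cc_map om sm f c _ _ e).trans (by rw [h2]; rfl)
  · exact (cc_map om sm f c _ _ e).trans (by rw [h2]; rfl)

open Classical in
/-- Kill the dead coordinates. -/
noncomputable def kl : (κ → R) →ₗ[ℚ] (κ → R) where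
  toFun x a := if om a = 0 then 0 else x a
  map_add' x y := by funext a; by_cases h : om a = 0 <;> simp [h]
  map_smul' q x := by funext a; by_cases h : om a = 0 <;> simp [h]

omit [Fintype κ] in
theorem kl_live (x : κ → R) {a : κ} (h : om a ≠ 0) : kl om x a = x a := if_neg h

theorem cc_kl (c : κ → κ → κ → R) (x y : κ → R) :
    cc om (cH om c) (kl om x) (kl om y) = cc om c x y := by
  unfold cc
  congr 1
  · funext a b e; by_cases h : Hm om a b e <;> simp [cH, h]
  · funext a
    by_cases h : P1 om a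
    · simp only [p1, if_pos h]
      exact kl_live om x fun k => h.1.ne' (by rw [k]; rfl)
    · simp only [p1, if_neg h]
  · funext a
    by_cases h : P2 om a
    · simp only [p2, if_pos h]
      exact kl_live om y fun k => h.2.ne' (by rw [k]; rfl)
    · simp only [p2, if_neg h]

theorem kl_br {c : κ → κ → κ → R} (wt : ∀ a, 0 ≤ (om a).1 ∧ 0 ≤ (om a).2)
    (hom : ∀ a b e, om e ≠ 0 → ¬Hm om a b e → c a b e = 0) (x y : κ → R) :
    kl om (br c x y) = br (cH om c) (kl om x) (kl om y) := by
  funext e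
  by_cases he : om e = 0
  · refine (if_pos he).trans (Finset.sum_eq_zero fun a _ => Finset.sum_eq_zero fun b _ => ?_).symm
    have : ¬Hm om a b e := fun h => h.1 (by
      have h1 := congrArg Prod.fst (he.symm.trans h.2.2)
      have h2 := congrArg Prod.snd (he.symm.trans h.2.2)
      simp only [Prod.fst_zero, Prod.snd_zero, Prod.fst_add, Prod.snd_add] at h1 h2
      exact Prod.ext (by change _ = (0 : ℝ); linarith [wt a, wt b])
        (by change _ = (0 : ℝ); linarith [wt a, wt b]))
    simp [cH, this]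
  · rw [kl_live om _ he]
    refine Finset.sum_congr rfl fun a _ => Finset.sum_congr rfl fun b _ => ?_
    by_cases h : Hm om a b e
    · rw [kl_live om _ h.1, kl_live om _ h.2.1, cH, if_pos h]
    · simp [cH, h, hom a b e he h]

theorem fv_zero (sh : SHom) (t1 : TL1) (N : ℕ) {c : κ → κ → κ → R} (gr : GrL om (cH om c))
    (cen : ∀ f, Mx om f → ∀ b e, cH om c f b e = 0)
    (hom : ∀ a b e, om e ≠ 0 → ¬Hm om a b e → c a b e = 0) (x g y : κ → R) {e : κ} (he : Mx om e)
    (i : Fin 5) : fv om N c x g y e i = 0 := by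
  have h1 : kl om (bch N c x g) = bch N (cH om c) (kl om x) (kl om g) :=
    sub_eq_zero.1 (sh κ κ R N c (cH om c) (kl om) ⊤ ⊥
      (fun x _ y _ => ⟨trivial, by rw [kl_br om gr.wt hom, sub_self]; rfl⟩)
      (fun x _ y hy => by
        rw [(Submodule.mem_bot ℚ).1 hy, br_zero_left, br_zero_right]; exact ⟨rfl, rfl⟩)
      (fun x hx y _ => by rw [(Submodule.mem_bot ℚ).1 hx, br_zero_left]; rfl)
      x trivial g trivial).2
  have e0 : om e ≠ 0 := fun k => he.1.ne' (by rw [k]; rfl)
  obtain ⟨a1, a2, a3, a4, a5⟩ :=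
    (t1 κ R om (cH om c) N gr cen (kl om x) (kl om g) (kl om y)).2.2 e he
  rw [← h1, ← map_sub, ← map_sub, cc_kl] at a2 a3
  rw [← kl_br om gr.wt hom, cc_kl] at a4 a5
  rw [← h1] at a1
  simp only [gam, cc_kl, Pi.add_apply, kl_live om _ e0] at a1
  fin_cases i
  exacts [sub_eq_zero.2 a1, a2, a3, a4, a5]

/-- Rational multiples of bounded sequences. -/
@[reducible] noncomputable def alg {M : ℕ → ℕ} (hM : Big M) : Algebra ℚ (OO hM) :=
  (((Pi.constRingHom ℕ ℝ).comp (algebraMap ℚ ℝ)).codRestrict (OO hM)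
    fun _ => ob_const hM _).toAlgebra

theorem fv_ev (sm : SMap) {M : ℕ → ℕ} {hM : Big M} [Algebra ℚ (OO hM)] (N : ℕ)
    (c : κ → κ → κ → OO hM) (x g y : κ → OO hM) (e : κ) (i : Fin 5) (n : ℕ) :
    (fv om N c x g y e i).1 n = fv om N (fun a b e => (c a b e).1 n) (fun a => (x a).1 n)
      (fun a => (g a).1 n) (fun a => (y a).1 n) e i :=
  fv_map om sm ((Pi.evalRingHom (fun _ => ℝ) n).comp (OO hM).subtype) N c x g y e i

end TLTLawA

open TLTLawA in
theorem rowTLaw : OfTLaw := by
  intro sm sh t1 t2 ι κ _ _ _ M Φ om pos B c L h tm hL K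
  have key : ∀ᶠ n in UF, ∀ e, Mx om e → ∀ t : (κ → ℝ) × (κ → ℝ) × (κ → ℝ), ‖t‖ ≤ L n →
      ∀ i, |fv om Φ.N (c n) t.1 t.2.1 t.2.2 e i| ≤ dl M K n := by
    refine eventually_all.2 fun e => ?_
    by_cases he : Mx om e
    swap
    · exact Eventually.of_forall fun n k => absurd k he
    by_contra k
    obtain ⟨t, ht⟩ := ((not_ev.1 k).mono fun n a => by push Not at a; exact a.2).choice
    have ob : ∀ u : ℕ → ℝ, (∀ n, |u n| ≤ ‖t n‖) → OB M u := fun u hu ε hε => by
      filter_upwards [ht, sub_dl hL hε] with n a b using ((hu n).trans a.1).trans b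
    have o1 := fun a => ob (fun n => (t n).1 a) fun n =>
      (norm_le_pi_norm (t n).1 a).trans (norm_fst_le _)
    have o2 := fun a => ob (fun n => (t n).2.1 a) fun n =>
      (norm_le_pi_norm (t n).2.1 a).trans ((norm_fst_le _).trans (norm_snd_le _))
    have o3 := fun a => ob (fun n => (t n).2.2 a) fun n =>
      (norm_le_pi_norm (t n).2.2 a).trans ((norm_snd_le _).trans (norm_snd_le _))
    let _ := alg h.big
    obtain ⟨gr, cen⟩ := t2 ι κ M Φ om pos B c h
    have ne : ∀ i, Neg M (fv (R := OO h.big) om Φ.N (fun a b e => ⟨fun n => c n a b e, h.ob a b e⟩)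
        (fun a => ⟨_, o1 a⟩) (fun a => ⟨_, o2 a⟩) (fun a => ⟨_, o3 a⟩) e i).1 := fun i => by
      refine (Ideal.Quotient.eq_zero_iff_mem (I := ng h.big)).1 ?_
      rw [fv_map om sm]
      exact fv_zero om sh t1 _ gr (cen tm).1
        (fun a b e k k' => Ideal.Quotient.eq_zero_iff_mem.2 (h.hom a b e k k')) _ _ _ he i
    obtain ⟨n, ⟨-, i, a⟩, b⟩ := (ht.and (eventually_all.2 fun i => ne i K)).exists
    have b := b i
    rw [fv_ev om sm] at b
    exact a.not_ge b
  refine key.mono fun n a x g y hx hg hy e he => ?_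
  have b := a e he (x, g, y) (by simp [Prod.norm_def, hx, hg, hy])
  refine ⟨le_of_eq_of_le (congrArg abs ?_) (b 0), b 1, b 2, b 3, b 4⟩
  simp [fv, Rat.smul_def]

end Pool.Agent.MP_5168f5_an.AN.TL
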