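import Pool.Agent.MP_5168f5_an.AN.TLSpec

/-! The pure parts move by the pure parts of the increment. -/

namespace Pool.Agent.MP_5168f5_an.AN.TL

open H19 H17S H17F G39 GA Filter H61Z

namespace TLTLipA

variable {κ : Type} {M : ℕ → ℕ}

open Classical in
/-- The coordinates in `S`. -/
noncomputable def pj (R : Type) [CommRing R] [Algebra ℚ R] (S : κ → Prop) :
    (κ → R) →ₗ[ℚ] (κ → R) where
  toFun x a := if S a then x a else 0
  map_add' x y := funext fun a => by by_cases h : S a <;> simp [h]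
  map_smul' x y := funext fun a => by by_cases h : S a <;> simp [h]

theorem pj_pos {R : Type} [CommRing R] [Algebra ℚ R] {S : κ → Prop} {a : κ} (h : S a)
    (x : κ → R) : pj R S x a = x a := if_pos h

theorem pj_neg {R : Type} [CommRing R] [Algebra ℚ R] {S : κ → Prop} {a : κ} (h : ¬S a)
    (x : κ → R) : pj R S x a = 0 := if_neg h

theorem pj_ev (S : κ → Prop) (x : κ → ℕ → ℝ) (a : κ) (n : ℕ) :
    pj (ℕ → ℝ) S x a n = pj ℝ S (fun a => x a n) a := by
  by_cases h : S a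
  · rw [pj_pos h, pj_pos h]
  · rw [pj_neg h, pj_neg h]; rfl

theorem pj_le (S : κ → Prop) (x : κ → ℝ) (a : κ) : |pj ℝ S x a| ≤ |x a| := by
  by_cases h : S a
  · rw [pj_pos h]
  · rw [pj_neg h, abs_zero]; exact abs_nonneg _

theorem cH_le (om : κ → ℝ × ℝ) (c : κ → κ → κ → ℝ) (a b e : κ) : |cH om c a b e| ≤ |c a b e| := by
  unfold cH; split_ifs <;> simp

theorem cH_ev (om : κ → ℝ × ℝ) (c : ℕ → κ → κ → κ → ℝ) (a b e : κ) (n : ℕ) :
    cH om (fun a b e n => c n a b e) a b e n = cH om (c n) a b e := by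
  unfold cH; split_ifs <;> rfl

theorem cH_anti (om : κ → ℝ × ℝ) {c : κ → κ → κ → ℝ} (h : ∀ a b e, c a b e = -c b a e)
    (a b e : κ) : cH om c a b e = -cH om c b a e := by
  have s : ∀ a b, Hm om a b e → Hm om b a e := fun a b z =>
    ⟨z.2.1, z.1, z.2.2.trans (add_comm _ _)⟩
  unfold cH
  by_cases k : Hm om a b e
  · rw [if_pos k, if_pos (s a b k), h]
  · rw [if_neg k, if_neg fun z => k (s b a z), _root_.neg_zero]

theorem pure {om : κ → ℝ × ℝ} (w : ∀ a, 0 ≤ (om a).1 ∧ 0 ≤ (om a).2) {a b e : κ}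
    (z : Hm om a b e) : (P1 om e ↔ P1 om a ∧ P1 om b) ∧ (P2 om e ↔ P2 om a ∧ P2 om b) := by
  obtain ⟨z1, z2, z3⟩ := z
  obtain ⟨a1, a2⟩ := w a
  obtain ⟨c1, c2⟩ := w b
  simp only [ne_eq, Prod.ext_iff, Prod.fst_zero, Prod.snd_zero, not_and] at z1 z2
  simp only [P1, P2, z3, Prod.fst_add, Prod.snd_add]
  exact ⟨⟨fun k => ⟨⟨a1.lt_of_ne fun e => z1 e.symm (by linarith), by linarith⟩,
      c1.lt_of_ne fun e => z2 e.symm (by linarith), by linarith⟩,
      fun k => ⟨by linarith [k.1.1], by linarith [k.1.2, k.2.2]⟩⟩,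
    fun k => ⟨⟨by linarith, a2.lt_of_ne fun e => z1 (by linarith) e.symm⟩, by linarith,
      c2.lt_of_ne fun e => z2 (by linarith) e.symm⟩,
      fun k => ⟨by linarith [k.1.1, k.2.1], by linarith [k.1.2]⟩⟩

/-- Vectors of bounded sequences. -/
def SB (κ : Type) (hM : Big M) : Submodule ℚ (κ → ℕ → ℝ) where
  carrier := {x | ∀ a, OB M (x a)}
  add_mem' := fun h h' a => ob_add hM (h a) (h' a)
  zero_mem' := fun _ => ob_const hM 0
  smul_mem' := fun q _ h a => ob_mul hM (ob_const hM (q : ℝ)) (h a)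

/-- Vectors of negligible sequences. -/
def SN (κ : Type) (hM : Big M) : Submodule ℚ (κ → ℕ → ℝ) where
  carrier := {x | ∀ a, Neg M (x a)}
  add_mem' := fun h h' a => (h a).add hM (h' a)
  zero_mem' := fun _ => GA.neg_zero
  smul_mem' := fun q _ h a => (h a).mul' (ob_const hM (q : ℝ))

variable [Fintype κ]

theorem br_ev (c : κ → κ → κ → ℕ → ℝ) (x y : κ → ℕ → ℝ) (e : κ) :
    br c x y e = fun n => ∑ a, ∑ b, c a b e n * x a n * y b n :=
  funext fun n => by simp [br, Finset.sum_apply]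

theorem br_neg (hM : Big M) {c : κ → κ → κ → ℕ → ℝ} (hc : ∀ a b e, OB M (c a b e))
    {x y : κ → ℕ → ℝ} (hx : x ∈ SB κ hM) (hy : y ∈ SN κ hM) :
    br c x y ∈ SN κ hM ∧ br c y x ∈ SN κ hM := by
  constructor <;> intro e <;> rw [br_ev] <;>
    refine Neg.sum hM _ fun a _ => Neg.sum hM _ fun b _ => ?_
  exacts [(hy b).mul' (ob_mul hM (hc a b e) (hx a)), ((hy a).mul' (hc a b e)).mul (hx b)]

variable {ι : Type} [Fintype ι] [DecidableEq ι] {Φ : Filt (Mt ι)} {om : κ → ℝ × ℝ}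
  {pos S : κ → Prop} {B : ℕ → κ → Mt ι} {c : ℕ → κ → κ → κ → ℝ} {L : ℕ → ℝ}

/-- The projection respects the group law up to negligible errors. -/
theorem hom (hm : SMap) (hh : SHom) (h : Alg M Φ om pos B c) (h0 : ∀ e, S e → om e ≠ 0)
    (hS : ∀ a b e, Hm om a b e → (S e ↔ S a ∧ S b)) (hL : Sub M L) (K : ℝ) :
    ∀ᶠ n in UF, ∀ v : (κ → ℝ) × (κ → ℝ), (‖v.1‖ ≤ L n ∧ ‖v.2‖ ≤ L n) →
      ‖pj ℝ S (bch Φ.N (c n) v.1 v.2) - bch Φ.N (cH om (c n)) (pj ℝ S v.1) (pj ℝ S v.2)‖ ≤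
        dl M K n := by
  have hM := h.big
  refine R4.unif fun v hv => ?_
  have o : ∀ a b e, OB M (cH om (fun a b e n => c n a b e) a b e) := fun a b e =>
    ob_congr (h.ob a b e) (Eventually.of_forall fun n => by rw [cH_ev]; exact cH_le _ _ _ _ _)
  have p : ∀ x ∈ SB κ hM, pj (ℕ → ℝ) S x ∈ SB κ hM := fun x hx a =>
    ob_congr (hx a) (Eventually.of_forall fun n => by rw [pj_ev]; exact pj_le _ _ _)
  have k := (hh κ κ (ℕ → ℝ) Φ.N (fun a b e n => c n a b e) (cH om fun a b e n => c n a b e)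
    (pj _ S) (SB κ hM) (SN κ hM) (fun x hx y hy => ⟨fun e => ?_, fun e => ?_⟩)
    (fun x hx y hy => br_neg hM o (p x hx) hy) (fun x hx y hy => (br_neg hM o (fun a => (hx a).ob)
      hy).1) (fun a n => (v n).1 a) (fun a => ob_of_le hL (hv.mono fun n u =>
        (norm_le_pi_norm (v n).1 a).trans u.1)) (fun a n => (v n).2 a) fun a => ob_of_le hL
      (hv.mono fun n u => (norm_le_pi_norm (v n).2 a).trans u.2)).2
  · filter_upwards [eventually_all.2 fun e => k e K] with n u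
    refine (pi_norm_le_iff_of_nonneg (dl_pos M K n).le).2 fun e => le_of_eq_of_le ?_ (u e)
    have e1 := fun c s t e => (hm κ (ℕ → ℝ) ℝ (Pi.evalRingHom _ n) Φ.N c s t).2.1 e
    simp only [Pi.evalRingHom_apply] at e1
    simp only [Real.norm_eq_abs, Pi.sub_apply, pj_ev, e1, cH_ev]
  · rw [br_ev]
    exact ob_sum hM _ fun a _ => ob_sum hM _ fun b _ =>
      ob_mul hM (ob_mul hM (h.ob a b e) (hx a)) (hy b)
  · by_cases s : S e
    · rw [Pi.sub_apply, pj_pos s, br_ev, br_ev]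
      refine (Neg.sum hM Finset.univ fun a _ => Neg.sum hM Finset.univ (f := fun b n =>
        c n a b e * x a n * y b n - cH om (fun a b e n => c n a b e) a b e n *
          pj (ℕ → ℝ) S x a n * pj (ℕ → ℝ) S y b n) fun b _ => ?_).congr
        (Eventually.of_forall fun n => by simp only [Pi.sub_apply, Finset.sum_sub_distrib])
      by_cases z : Hm om a b e
      · have w := (hS a b e z).1 s
        exact neg_ev (Eventually.of_forall fun n => by
          rw [pj_pos w.1, pj_pos w.2, cH, if_pos z, sub_self])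
      · exact (((h.hom a b e (h0 e s) z).mul (hx a)).mul (hy b)).congr
          (Eventually.of_forall fun n => by simp [cH, if_neg z])
    · rw [Pi.sub_apply, pj_neg s, br_ev]
      refine neg_ev (Eventually.of_forall fun n => ?_)
      rw [zero_sub, Pi.neg_apply, neg_eq_zero]
      refine Finset.sum_eq_zero fun a _ => Finset.sum_eq_zero fun b _ => ?_
      by_cases z : Hm om a b e
      · rcases not_and_or.1 fun w => s ((hS a b e z).2 w) with w | w <;> simp [pj_neg w]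
      · simp [cH, if_neg z]

theorem bx {x : κ → ℝ} {r : ℝ} (h : 0 ≤ r) : Bx (fun _ => 1) r x ↔ ‖x‖ ≤ r := by
  simp only [Bx, mul_one, pi_norm_le_iff_of_nonneg h, Real.norm_eq_abs]

end TLTLipA

open TLTLipA in
theorem rowTLip : OfTLip := by
  intro hm hu hb hf hh _ ι κ _ _ _ M Φ om pos B c L h hL
  have hM := h.big
  obtain ⟨K, K1, hK⟩ := hb Φ.N (Fintype.card κ)
  obtain ⟨L₁, s1, b1⟩ := ob_bound hM fun j : κ × κ × κ => h.ob j.1 j.2.1 j.2.2
  have s2 := hL.add s1 hM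
  have s3 := sub_box hM s2 K1
  have key : ∀ S : κ → Prop, (∀ e, S e → om e ≠ 0) →
      (∀ a b e, Hm om a b e → (S e ↔ S a ∧ S b)) → ∀ T : ℝ, ∀ᶠ n in UF, ∀ x g : κ → ℝ,
      ‖x‖ ≤ L n → ‖g‖ ≤ L n →
      ‖pj ℝ S (bch Φ.N (c n) x g - x)‖ ≤ (K * (K * (L n + L₁ n)) ^ K) ^ K * ‖pj ℝ S g‖ + dl M T n ∧
      ‖pj ℝ S g‖ ≤ (K * (K * (L n + L₁ n)) ^ K) ^ K * ‖pj ℝ S (bch Φ.N (c n) x g - x)‖ +
        dl M T n := fun S h0 hS T => by
    filter_upwards [hom hm hh h h0 hS s3 T, h.fr] with n u fr x g hx hg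
    have m := hu ι κ Φ _ _ fr
    have l0 := hL.1 n
    have l1 := s1.1 n
    have l2 : L n + L₁ n ≤ (K * (L n + L₁ n)) ^ K :=
      (le_mul_of_one_le_left (by linarith) (by exact_mod_cast K1)).trans (le_self_pow₀
        (one_le_mul_of_one_le_of_one_le (by exact_mod_cast K1) (s2.1 n)) (by omega))
    have z : ‖bch Φ.N (c n) x g‖ ≤ (K * (L n + L₁ n)) ^ K := by
      have bx' := (bx (s2.pos n).le).2 (hx.trans (by linarith))
      have bg' := (bx (s2.pos n).le).2 (hg.trans (by linarith))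
      have i : Idl (c n) (fun _ => 1) (fun _ => 1) (L n + L₁ n) := fun a b e => by
        simpa using (b1 n (a, b, e)).trans (by linarith)
      exact (bx (s3.pos n).le).1 (hK κ (c n) _ _ _ 0 x g x g le_rfl (s2.1 n) le_rfl
        (fun _ => ⟨zero_le_one, zero_le_one⟩) m.anti i i bx' bg' bx' bg').1
    set Λ := (K * (L n + L₁ n)) ^ K
    have x1 : ‖x‖ ≤ Λ := hx.trans (by linarith)
    have g1 : ‖g‖ ≤ Λ := hg.trans (by linarith)
    have x2 : ‖-x‖ ≤ Λ := (norm_neg x).trans_le x1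
    have a := cH_anti om m.anti
    have lip : ∀ s t t' : κ → ℝ, ‖s‖ ≤ Λ → ‖t‖ ≤ Λ → ‖t'‖ ≤ Λ →
        ‖bch Φ.N (cH om (c n)) (pj ℝ S s) (pj ℝ S t) - bch Φ.N (cH om (c n)) (pj ℝ S s)
          (pj ℝ S t')‖ ≤ (K * Λ) ^ K * ‖pj ℝ S (t - t')‖ := fun s t t' hs ht ht' => by
      have q : ∀ y : κ → ℝ, ‖y‖ ≤ Λ → Bx (fun _ => 1) Λ (pj ℝ S y) := fun y hy e =>
        (pj_le S y e).trans ((bx (s3.pos n).le).2 hy e)
      have i : Idl (cH om (c n)) (fun _ => 1) (fun _ => 1) Λ := fun a b e => by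
        simpa using (cH_le om _ a b e).trans ((b1 n (a, b, e)).trans (by linarith))
      refine (bx (mul_nonneg ((sub_box hM s3 K1).pos n).le (norm_nonneg _))).1
        ((hK κ _ _ _ _ _ _ _ _ _ le_rfl (s3.1 n) (norm_nonneg _)
          (fun _ => ⟨zero_le_one, zero_le_one⟩) a i i (q s hs) (q t ht) (q s hs) (q t' ht')).2
          ((bx (norm_nonneg _)).2 (by simp)) ((bx (norm_nonneg _)).2 (by rw [map_sub])))
    have f := (hf κ ℝ Φ.N _ a).1
    constructor
    · have k1 := lip x g 0 x1 g1 (by simpa using (s3.pos n).le)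
      rw [map_zero, f _ 0 (br_zero_right _ _), add_zero, sub_zero] at k1
      rw [map_sub]
      linarith [u (x, g) ⟨x1, g1⟩, norm_sub_le_norm_sub_add_norm_sub (pj ℝ S (bch Φ.N (c n) x g))
        (bch Φ.N (cH om (c n)) (pj ℝ S x) (pj ℝ S g)) (pj ℝ S x)]
    · have k1 := lip (-x) _ x x2 z x1
      have k2 := u (-x, bch Φ.N (c n) x g) ⟨x2, z⟩
      rw [f _ (pj ℝ S x) (by rw [map_neg, br_neg_left, br_self a, _root_.neg_zero]), ← map_add,
        neg_add_cancel, map_zero, sub_zero] at k1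
      simp only [← m.assoc, (m.inv x).1, (m.one g).2] at k2
      linarith [norm_le_norm_add_norm_sub' (pj ℝ S g)
        (bch Φ.N (cH om (c n)) (pj ℝ S (-x)) (pj ℝ S (bch Φ.N (c n) x g)))]
  refine ⟨_, sub_box hM s3 K1, fun T => ?_⟩
  filter_upwards [key (P1 om) (fun e k z => by simpa [z] using k.1)
    (fun a b e z => (pure h.wt z).1) T, key (P2 om) (fun e k z => by simpa [z] using k.2)
    (fun a b e z => (pure h.wt z).2) T] with n u v x g hx hg
  exact ⟨(u x g hx hg).1, (v x g hx hg).1, (u x g hx hg).2, (v x g hx hg).2⟩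

end Pool.Agent.MP_5168f5_an.AN.TL
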