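import Pool.Agent.MP_5168f5_an.AN.GAAll
import Pool.Agent.MP_5168f5_an.AN.TLTL0
import Pool.Agent.MP_5168f5_an.AN.TLTL1
import Pool.Agent.MP_5168f5_an.AN.TLTL2
import Pool.Agent.MP_5168f5_an.AN.TLTLaw
import Pool.Agent.MP_5168f5_an.AN.TLTLip
import Pool.Agent.MP_5168f5_an.AN.TLTAdd
import Pool.Agent.MP_5168f5_an.AN.TLTGen
import Pool.Agent.MP_5168f5_an.AN.TLTAdp
import Pool.Agent.MP_5168f5_an.AN.GOh1
import Pool.Agent.MP_5168f5_an.AN.GOh2

/-! Kakeya sets in all dimensions: algebra of the terminal case, results. -/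

namespace Pool.Agent.MP_5168f5_an.AN.TL

open GA

theorem tl0 : TL0 := rowTL0
theorem tl1 : TL1 := rowTL1 sFil sHom
theorem tl2 : TL2 := rowTL2 sMul tl0
theorem tLaw : TLaw := rowTLaw sMap sHom tl1 tl2
theorem tLip : TLip := rowTLip sMap sMul sBox sFil sHom tl2
theorem tAdd : TAdd := rowTAdd sMap sMul sFil
theorem tGen : TGen := rowTGen sMul tl2
theorem tAdp : TAdp := rowTAdp sMul sFr sChg tLaw
theorem hc1 : GO.HC1 := GO.goHC1 sMul sNr sCell sIdR sDet sCnt sCntW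
theorem hc2 : GO.HC2 := GO.goHC2 sCntW hc1

end Pool.Agent.MP_5168f5_an.AN.TL
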