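import Pool.Agent.MP_5168f5_an.AN.TGSpec
import Pool.Agent.MP_5168f5_an.AN.TLAll
import Pool.Agent.MP_5168f5_an.AN.TBSpec

/-! Kakeya sets in all dimensions: the terminal case, definitions and statements. -/

namespace Pool.Agent.MP_5168f5_an.AN.TG.TA

open H19 H17S H17F G39 GA TL Filter H61Z
open R4 (Eqv)
open R4.K31 (DnS)
open TB (flG NGG Tm)

section Wt

variable {κ : Type} [Fintype κ] (om : κ → ℝ × ℝ) (pos : κ → Prop)

/-- A bound for the total weights. -/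
noncomputable def sg : ℝ := 1 + ∑ a, ((om a).1 + (om a).2)

/-- The normalised total weight. -/
noncomputable def tt (a : κ) : ℝ := ((om a).1 + (om a).2) / sg om

/-- The diagonal level. -/
noncomputable def dg (ρ : ℝ) : ℝ × ℝ := (ρ / sg om, ρ / sg om)

/-- Pure positions. -/
def PP (a : κ) : Prop := pos a ∧ ¬Mx om a

/-- Mixed positions. -/
def CC (a : κ) : Prop := pos a ∧ Mx om a

open Classical in
/-- Depth `K` on the pure positions and `f` on the mixed positions. -/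
noncomputable def dF (K : ℝ) (f : κ → ℝ) : κ → ℝ := fun a =>
  if PP om pos a then K else if CC om pos a then f a else 0

/-- The positions, the mixed ones at level `ρ`. -/
noncomputable def dY (K ρ : ℝ) : κ → ℝ := dF om pos K fun a => tt om a * ρ

open Classical in
/-- The positions, the mixed ones at level `ρ'` except `i`, which is at level `ρ`. -/
noncomputable def dQ (i : κ) (ρ ρ' : ℝ) : κ → ℝ :=
  dF om pos 1 fun a => if a = i then tt om a * ρ else tt om a * ρ'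

open Classical in
/-- The pure indices of one family at level `K`. -/
noncomputable def dU (k : Bool) (K : ℝ) : κ → ℝ := fun a =>
  if Pu om k a then ((om a).1 + (om a).2) * K else 0

/-- The level at which the family `k` is free. -/
def lv (k : Bool) (K : ℝ) : ℝ × ℝ := bif k then (0, K) else (K, 0)

/-- The total weight of the mixed positions. -/
noncomputable def TT : ℝ := ∑ a, dF om pos 0 (tt om) a

open Classical in
/-- The weights of the central coordinates. -/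
noncomputable def tc (a : κ) : ℝ := if CC om pos a then tt om a else 1

/-- Good depths in the terminal case. -/
structure GT (d : κ → ℝ) : Prop where
  nn : ∀ a, 0 ≤ d a
  dead : ∀ a, om a = 0 → d a = 0
  id : ∀ a b e, Hm om a b e → ¬Mx om a → ¬Mx om b → pos a ∨ pos b ∨ ¬pos e → d e ≤ d a + d b

/-- Depths that are compatible with changes of basis. -/
def Cp (d : κ → ℝ) : Prop := ∀ a e, om a = om e → pos a ∨ ¬pos e → d e ≤ d a

/-- A window at level `t` of length `w`. -/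
structure Wn (t : ℝ × ℝ) (s w : ℝ) : Prop where
  t1 : 0 ≤ t.1
  t2 : 0 ≤ t.2
  w0 : 0 < w
  s0 : 0 ≤ s
  sw : s + w ≤ 1
  mx : ∀ a, CC om pos a → dep om t a = tt om a * s
  pu : ∀ a, PP om pos a → dep om t a + w ≤ 1

/-- A large level. -/
def Kb (K : ℝ) : Prop :=
  0 ≤ K ∧ ∀ a, (0 < (om a).1 → 1 ≤ (om a).1 * K) ∧ (0 < (om a).2 → 1 ≤ (om a).2 * K)

/-- A direction in the weight space of the mixed position `i`. -/
def Dir (i : κ) (β : κ → ℝ) : Prop :=
  β i = 1 ∧ (∀ a, |β a| ≤ 1) ∧ ∀ a, β a ≠ 0 → CC om pos a ∧ om a = om i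

open Classical in
/-- The basis with the vector `i` replaced by `β`. -/
noncomputable def Ab (i : κ) (β : κ → ℝ) : Matrix κ κ ℝ := (1 : Matrix κ κ ℝ).updateRow i β

open Classical in
/-- Its inverse. -/
noncomputable def Ab' (i : κ) (β : κ → ℝ) : Matrix κ κ ℝ :=
  (1 : Matrix κ κ ℝ).updateRow i ((2 : ℝ) • Pi.single i 1 - β)

open Classical in
/-- The bilinear map of the terminal step. -/
noncomputable def cT (bs : κ → Prop) (c : κ → κ → κ → ℝ) (a b k : κ) : ℝ :=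
  if P1 om a ∧ P2 om b ∧ Hm om a b k ∧ CC om pos k ∧ (bs a ∨ bs b) then c a b k else 0

open Classical in
/-- The additive positions of one family. -/
noncomputable def Bs (bs : κ → Prop) (k : Bool) : Finset κ :=
  Finset.univ.filter fun a => bs a ∧ Pu om k a

end Wt

/-- Rounding at depth `t k * s * M`. -/
noncomputable def fG {ι : Type} (t : ι → ℝ) (M : ℕ) (s : ℝ) (x : ι → ℝ) : ι → ℤ :=
  flG t (s * M / H17S.lg) x

/-- Rounding of a direction at depth `w * M`. -/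
noncomputable def rw {ι : Type} (M : ℕ) (w : ℝ) (β : ι → ℝ) : ι → ℝ :=
  TB.rd ⌊w * M / H17S.lg⌋₊ β

/-- No direction has a large rate, at constant levels. -/
def NG1 {ι : Type} [Fintype ι] {Ω A : ℕ → Type} (P : ∀ n, FP (Ω n)) (Pi : ∀ n, Ω n → A n)
    (x : ∀ n, Ω n → ι → ℝ) (t : ι → ℝ) (M : ℕ → ℕ) (ε₀ : ℝ) : Prop :=
  ∀ (K : ℕ → Type) (κ : ∀ n, Ω n → K n) (s s' : ℝ) (i : ι) (b : ∀ n, Ω n → ι → ℝ), 0 ≤ s →
    s < s' → s' ≤ 1 → (∀ᶠ n in UF, Fn (P n) (b n) (κ n) ∧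
      ∀ v ∈ (P n).S, b n v i = 1 ∧ ‖b n v‖ ≤ 1 ∧ ∀ k, t k ≠ t i → b n v k = 0) →
    Le M (fun n => ch (P n) (fun v => fG t (M n) s' (x n v)) fun v =>
        (fG t (M n) s' (x n v - x n v i • b n v), fG t (M n) s (x n v), κ n v, Pi n v))
      fun n => (1 - ε₀) * t i * (s' - s) * M n

section One

variable {ι κ : Type} [Fintype ι] [DecidableEq ι] [Fintype κ] (om : κ → ℝ × ℝ) (pos : κ → Prop)
  (x : Sy ι κ)

/-- The cell of relative depth `d`. -/
noncomputable def Cl (d : κ → ℝ) : x.Ω → Mt ι := x.C (sc x.M d)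

/-- The same with the context. -/
noncomputable def Zl (d : κ → ℝ) : x.Ω → Mt ι × x.T := x.Z (sc x.M d)

/-- The entropy of the mixed positions given the pure positions. -/
noncomputable def JJ : ℝ := ch x.P (Cl x (dY om pos 1 1)) (Zl x (dY om pos 1 0))

/-- The window at level `t` of length `w`. -/
noncomputable abbrev zw (t : ℝ × ℝ) (w : ℝ) : Sy ι κ := x.zm (sc x.M (dep om t)) ⌊w * x.M⌋₊

/-- The defect of independence of the family `k`. -/
noncomputable def inD (k : Bool) (K : ℝ) : ℝ :=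
  mi x.P (Cl x (dU om k K)) (Cl x (dep om (lv k K))) (Zl x 0)

/-- Coordinates in the top cell. -/
noncomputable def xc (ω : x.Ω) : κ → ℝ := GA.lg x.B (Cl x 0 ω) (x.j ω)

open Classical in
/-- The central coordinates. -/
noncomputable def ga (ω : x.Ω) : κ → ℝ := fun e =>
  if CC om pos e then gam om x.c (xc x ω) e else 0

/-- The pure positions, the second family and the context. -/
noncomputable def Pi0 (K : ℝ) (ω : x.Ω) : Mt ι × Mt ι × Mt ι × x.T :=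
  (Cl x (dY om pos 1 0) ω, Cl x (dU om false K) ω, Zl x 0 ω)

/-- The cell of relative depth `d` in the random basis given by `b`. -/
noncomputable def Cb (i : κ) (b : x.Ω → κ → ℝ) (d : κ → ℝ) (ω : x.Ω) : Mt ι :=
  cell (mB (Ab i (b ω)) x.B) (rA (sc x.M d)) (x.j ω)

/-- The entropy of the mixed positions modulo the direction `b`. -/
noncomputable def Dl (i : κ) (b : x.Ω → κ → ℝ) : ℝ :=
  ch x.P (Cb x i b (dQ om pos i 0 1)) fun ω => (b ω, Zl x (dY om pos 1 0) ω)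

/-- The information of `b` on the cell of level `(s, s)`. -/
noncomputable def Ib (b : x.Ω → κ → ℝ) (s : ℝ) : ℝ :=
  mi x.P b (Cl x (dep om (s, s))) (Zl x 0)

/-- The information of `b` on the diagonal window, given the pure positions. -/
noncomputable def Ib' (b : x.Ω → κ → ℝ) (ρ w : ℝ) : ℝ :=
  mi x.P b (Cl x (dep om (dg om (ρ + w)) ⊔ dY om pos 1 0)) (Zl x (dep om (dg om ρ) ⊔ dY om pos 1 0))

/-- The conditions in the window at `ρ`. -/
noncomputable def cn {A : Type} (K : ℝ) (i : κ) (b : x.Ω → κ → ℝ) (k : x.Ω → A) (s' ρ : ℝ)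
    (ω : x.Ω) : (κ → ℤ) × (κ → ℤ) × A × Mt ι × Mt ι × Mt ι × x.T :=
  (fG (tc om pos) x.M s' (ga om pos x ω - ga om pos x ω i • b ω),
    fG (tc om pos) x.M ρ (ga om pos x ω), k ω, Pi0 om pos x K ω)

/-- The second family with the context. -/
noncomputable def vh (K : ℝ) (ω : x.Ω) : Mt ι × (κ → ℤ) × Mt ι × x.T :=
  (Cl x (dU om false K) ω, flv x.M (p2 om (xc x ω)), Zl x 0 ω)

/-- The data of the bilinear step. -/
noncomputable def tm (bs : κ → Prop) (K : ℝ) : Tm κ κ κ where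
  Ω := x.Ω
  A1 := Mt ι × (Mt ι × (κ → ℤ) × Mt ι × x.T) × (κ → ℤ)
  A2 := Mt ι × (κ → ℤ) × (κ → ℤ) × Mt ι × x.T
  A3 := Mt ι × (κ → ℤ) × Mt ι × x.T
  A4 := Mt ι × (Mt ι × (κ → ℤ) × Mt ι × x.T) × (κ → ℤ)
  A5 := Mt ι × x.T
  P := x.P
  u := fun ω => p1 om (xc x ω)
  v := fun ω => p2 om (xc x ω)
  γ := ga om pos x
  c := cT om pos bs x.c
  O1 := fun ω => (Cl x (dep om (lv true K)) ω, vh om x K ω, flv x.M (ga om pos x ω))
  O2 := fun ω => (Cl x (dep om (lv false K)) ω, flv x.M (p1 om (xc x ω)),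
    flv x.M (ga om pos x ω - TB.bl (cT om pos bs x.c) (p1 om (xc x ω)) (p2 om (xc x ω))),
    Zl x 0 ω)
  Vh := vh om x K
  Pi := fun ω => (Cl x (dY om pos 1 0) ω, vh om x K ω,
    TB.prj (Bs om bs true) (flv x.M (p1 om (xc x ω))))
  T := Zl x 0

end One

section Seq

variable {ι κ : Type} [Fintype ι] [DecidableEq ι] [Fintype κ] (Φ : Filt (Mt ι))
  (om : κ → ℝ × ℝ) (pos : κ → Prop)

/-- The entropy rate of the cell of depth `d`. -/
noncomputable def Hx (x : ℕ → Sy ι κ) (d : κ → ℝ) : ℝ :=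
  GO.HH (un x) (pr x) (fun n => (x n).B) (fun n => (x n).j) (fun n => (x n).Θ) d

/-- The absolute depth `D` has rate `d`. -/
def Apx (x : ℕ → Sy ι κ) (D : ℕ → κ → ℝ) (d : κ → ℝ) : Prop :=
  ∀ a, Eqv (un x) (fun n => D n a) fun n => d a * (x n).M

/-- A system in which the mixed positions have rate at most `m`. -/
def Mn (C m : ℝ) (x : ℕ → Sy ι κ) : Prop :=
  GS Φ om pos C x ∧ Le (un x) (fun n => JJ om pos (x n)) fun n => m * (x n).M

/-- In all systems the mixed positions have rate at least `m`. -/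
def Low (C m : ℝ) : Prop := ∀ y : ℕ → Sy ι κ, GS Φ om pos C y →
  Le (un y) (fun n => m * (y n).M) fun n => JJ om pos (y n)

/-- The two families are independent. -/
def Ind (x : ℕ → Sy ι κ) : Prop := ∀ (k : Bool) (K : ℝ), 0 ≤ K → Sm (un x) fun n => inD om (x n) k K

/-- An admissible change of basis. -/
def Chg [DecidableEq κ] (x : ℕ → Sy ι κ) (A A' : ℕ → Matrix κ κ ℝ) : Prop :=
  (∀ᶠ n in UF, A n * A' n = 1) ∧
  (∀ a e, OB (un x) (fun n => A n a e) ∧ OB (un x) fun n => A' n a e) ∧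
  ∀ a e, om a ≠ om e ∨ (¬pos a ∧ pos e) →
    Neg (un x) (fun n => A n a e) ∧ Neg (un x) fun n => A' n a e

/-- Random directions. -/
def DirS (x : ℕ → Sy ι κ) (i : κ) (b : ∀ n, (x n).Ω → κ → ℝ) : Prop :=
  ∀ᶠ n in UF, ∀ ω ∈ (x n).P.S, Dir om pos i (b n ω)

end Seq

/-- The closure properties of systems. -/
structure Kit : Prop where
  gd : SGd
  ref : SRef
  join : SJoin
  mono : SMono
  sb : SSB
  cf : SCF
  zm : SZm
  pull : SPull
  cond : SCond
  side : SSide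
  frz : SFrz
  bas : SBas
  swap : SSwap

/-- A statement about all systems in the terminal case. -/
def AllT (p : ∀ (ι κ : Type) [Fintype ι] [DecidableEq ι] [Fintype κ], Filt (Mt ι) → (κ → ℝ × ℝ) →
    (κ → Prop) → (ℕ → Sy ι κ) → Prop) : Prop :=
  All fun ι κ _ _ _ Φ om pos x => Term om → G0 Φ om pos x → p ι κ Φ om pos x

/-! ### Entropy rates -/

/-- All entropies of cells are given by one function. -/
def Lnk : Prop := AllT fun _ κ _ _ _ _ om pos x =>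
  (∀ d, GT om pos d → GO.Gd om (GO.Ng (un x) fun n => (x n).c) d) ∧
  GO.Pm (GT om pos) (Hx x) ∧ Hx x 0 = 0 ∧
  ∀ (D D1 D2 : ℕ → κ → ℝ) (d d1 d2 : κ → ℝ), GT om pos d → GT om pos d1 → GT om pos d2 →
    Apx x D d → Apx x D1 d1 → Apx x D2 d2 → Gd x D ∧
    Eqv (un x) (fun n => ch (x n).P ((x n).C (D n)) ((x n).Z (D1 n)))
      (fun n => (Hx x (d ⊔ d1) - Hx x d1) * (x n).M) ∧
    (d ≤ d1 ⊔ d2 → Sm (un x) fun n =>
      ch (x n).P ((x n).C (D n)) fun ω => ((x n).C (D1 n) ω, (x n).C (D2 n) ω)) ∧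
    (d2 ≤ d1 → Eqv (un x) (fun n => mi (x n).P ((x n).C (D n)) ((x n).C (D1 n)) ((x n).Z (D2 n)))
      fun n => (Hx x (d ⊔ d2) - Hx x d2 - (Hx x (d ⊔ d1) - Hx x d1)) * (x n).M)

/-- The pure positions are full over natural cells; fullness in terms of rates. -/
def PFu : Prop := AllT fun _ _ _ _ _ Φ om pos x =>
  (∀ C, GS Φ om pos C x → ∀ (t : ℝ × ℝ) (r : ℝ), 0 ≤ t.1 → 0 ≤ t.2 → 0 ≤ r →
    Hx x (dep om t) + cd (PP om pos) * r ≤ Hx x (dep om t + dF om pos r 0)) ∧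
  (Full pos x ↔ ∀ r : ℝ, 0 ≤ r → cd pos * r ≤ Hx x (up 0 r pos))

def OfPFu : Prop := Lnk → PFu

/-- Rates in a window. -/
def ZmH : Prop := AllT fun _ κ _ _ _ Φ om pos x => ∀ C, GS Φ om pos C x →
  ∀ (t : ℝ × ℝ) (w : ℝ), 0 ≤ t.1 → 0 ≤ t.2 → 0 < w →
    GS Φ om pos C (fun n => zw om (x n) t w) ∧
    (∀ f g : ℕ → ℝ, Le (un fun n => zw om (x n) t w) f g ↔ Le (un x) f g) ∧
    Eqv (un x) (fun n => ((zw om (x n) t w).M : ℝ)) (fun n => w * (x n).M) ∧
    ∀ d : κ → ℝ, (∀ n, (zw om (x n) t w).C (sc (zw om (x n) t w).M d) =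
        (x n).C (sc (x n).M (dep om t) + sc (zw om (x n) t w).M d)) ∧
      Apx x (fun n => sc (x n).M (dep om t) + sc (zw om (x n) t w).M d) (dep om t + w • d) ∧
      (GT om pos d → w * Hx (fun n => zw om (x n) t w) d =
        Hx x (dep om t + w • d) - Hx x (dep om t))

def OfZmH : Prop := Kit → Lnk → ZmH

/-- In a minimal system all windows have the minimal rate. -/
def Win : Prop := AllT fun _ _ _ _ _ Φ om pos x => ∀ C m, Mn Φ om pos C m x → Low Φ om pos C m →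
  (∀ s : ℝ, 0 ≤ s → s ≤ 1 → Hx x (dY om pos 1 s) = Hx x (dY om pos 1 0) + m * s) ∧
  ∀ t s w, Wn om pos t s w → Mn Φ om pos C m (fun n => zw om (x n) t w) ∧
    Hx x (dep om t ⊔ dY om pos 1 (s + w)) = Hx x (dep om t ⊔ dY om pos 1 s) + m * w

def OfWin : Prop := Lnk → PFu → ZmH → Win

/-- A system that is not full gives a deficient window. -/
def Def1 : Prop := AllT fun ι κ _ _ _ Φ om pos x => ∀ C, GS Φ om pos C x → ¬Full pos x →
  ∃ (m : ℝ) (y : ℕ → Sy ι κ), m < TT om pos ∧ Mn Φ om pos C m y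

def OfDef1 : Prop := Lnk → PFu → ZmH → Def1

/-- The minimal rate is attained. -/
def Min1 : Prop := AllT fun ι κ _ _ _ Φ om pos x => ∀ C m, Mn Φ om pos C m x →
  ∃ (m' : ℝ) (y : ℕ → Sy ι κ), 0 ≤ m' ∧ m' ≤ m ∧ Mn Φ om pos C m' y ∧ Low Φ om pos C m'

def OfMin1 : Prop := Kit → Lnk → Min1

/-! ### Closure properties of minimal systems -/

/-- Cells of compatible depth do not depend on the basis. -/
def BInv : Prop := AllT fun _ κ _ _ _ Φ om pos x => ∀ [DecidableEq κ] (A A' : ℕ → Matrix κ κ ℝ),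
  Chg om pos x A A' → G0 Φ om pos (fun n => (x n).bas (A n) (A' n)) ∧
  ∀ (D : ℕ → κ → ℝ) (d : κ → ℝ), GT om pos d → Cp om pos d → Apx x D d →
    Sm (un x) (fun n => ch (x n).P (((x n).bas (A n) (A' n)).C (D n)) ((x n).C (D n))) ∧
    Sm (un x) fun n => ch (x n).P ((x n).C (D n)) (((x n).bas (A n) (A' n)).C (D n))

def OfBInv : Prop := Lnk → BInv

def ClB : Prop := AllT fun _ κ _ _ _ Φ om pos x => ∀ [DecidableEq κ] (C m : ℝ)
  (A A' : ℕ → Matrix κ κ ℝ), Chg om pos x A A' → Mn Φ om pos C m x →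
  Mn Φ om pos C m fun n => (x n).bas (A n) (A' n)

def OfClB : Prop := Kit → BInv → ClB

/-- The hypotheses depend only on the law. -/
def SPush : Prop := All fun _ _ _ _ _ Φ om pos x => ∀ (C : ℝ) (W W' : ℕ → Type)
  (Q : ∀ n, FP (W n)) (π : ∀ n, W n → (x n).Ω) (Q' : ∀ n, FP (W' n)) (π' : ∀ n, W' n → (x n).Ω),
  (∀ᶠ n in UF, Law (Q n) (π n) (Q' n) (π' n)) → GS Φ om pos C (fun n => (x n).pull (Q n) (π n)) →
  GS Φ om pos C fun n => (x n).pull (Q' n) (π' n)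

/-- Refinements of minimal systems. -/
def ClR : Prop := All fun _ _ _ _ _ Φ om pos x => ∀ C m, Mn Φ om pos C m x → Low Φ om pos C m →
  ∀ (W : ℕ → Type) (Q : ∀ n, FP (W n)) (ρ : ∀ n, W n → (x n).Ω), DnS Q ρ (pr x) →
  Mn Φ om pos C m fun n => (x n).pull (Q n) (ρ n)

def OfClR : Prop := Kit → SPush → ClR

/-- A small window with small defects of independence. -/
def Grid : Prop := AllT fun _ _ _ _ _ Φ om pos x => ∀ C, GS Φ om pos C x → ∀ K ε : ℝ, 0 ≤ K →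
  0 < ε → ∃ t s w, Wn om pos t s w ∧ w ≤ ε ∧ ∀ k : Bool,
    Le (un x) (fun n => inD om (zw om (x n) t w) k K) fun n => ε * w * (x n).M

def OfGrid : Prop := Lnk → ZmH → Grid

/-- The tangent with independent families. -/
def Tan : Prop := AllT fun ι κ _ _ _ Φ om pos x => ∀ (C m : ℝ) (bs : κ → Prop),
  Mn Φ om pos C m x → Low Φ om pos C m → Adb (OS (un x)) om pos bs (fun n => (x n).c) →
  ∃ y : ℕ → Sy ι κ, Mn Φ om pos C m y ∧ Adb (Neg (un y)) om pos bs (fun n => (y n).c) ∧ Ind om y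

def OfTan : Prop := Kit → Lnk → ZmH → Win → Grid → Tan

/-! ### Coordinates -/

/-- A variable that locates `j` up to a box determines the cell; points of one cell are close. -/
def DetP : Prop := All fun _ κ _ _ _ Φ om pos x => G0 Φ om pos x → ∀ D : ℕ → κ → ℝ, Gd x D →
  (∀ (β : ℕ → Type) (Y : ∀ n, (x n).Ω → β n) (L : ℕ → ℝ), Sub (un x) L →
    (∀ᶠ n in UF, ∀ ω ∈ (x n).P.S, ∀ ω' ∈ (x n).P.S, Y n ω = Y n ω' →
      Nr (x n).B (rA (D n)) (L n) ((x n).j ω) ((x n).j ω')) →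
    Sm (un x) fun n => ch (x n).P ((x n).C (D n)) (Y n)) ∧
  ∃ L, Sub (un x) L ∧ ∀ᶠ n in UF, ∀ ω ∈ (x n).P.S, ∀ ω' ∈ (x n).P.S, ∀ g : κ → ℝ,
    (x n).C (D n) ω = (x n).C (D n) ω' → (x n).j ω' = (x n).j ω * ex (x n).B g →
    Bx (rA (D n)) (L n) g

/-- Coordinates of two points of the top cell. -/
def Crd : Prop := AllT fun _ κ _ _ _ Φ om _ x => ∃ L, Sub (un x) L ∧ ∀ K : ℝ, ∀ᶠ n in UF,
  (∀ a b e, |(x n).c a b e| ≤ L n) ∧ ∀ ω ∈ (x n).P.S, ‖xc (x n) ω‖ ≤ 1 ∧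
    ‖gam om (x n).c (xc (x n) ω)‖ ≤ L n ∧ (x n).j ω = Cl (x n) 0 ω * ex (x n).B (xc (x n) ω) ∧
    IsUnit (Cl (x n) 0 ω) ∧ ∀ ω' ∈ (x n).P.S, Cl (x n) 0 ω = Cl (x n) 0 ω' → ∃ g : κ → ℝ,
      (x n).j ω' = (x n).j ω * ex (x n).B g ∧ ‖g‖ ≤ L n ∧
      xc (x n) ω' = bch Φ.N (x n).c (xc (x n) ω) g ∧
      ‖p1 om (xc (x n) ω') - p1 om (xc (x n) ω)‖ ≤ L n * ‖p1 om g‖ + dl (un x) K n ∧
      ‖p2 om (xc (x n) ω') - p2 om (xc (x n) ω)‖ ≤ L n * ‖p2 om g‖ + dl (un x) K n ∧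
      ∀ e, Mx om e →
        |gam om (x n).c (xc (x n) ω') e - gam om (x n).c (xc (x n) ω) e - g e| ≤
          L n * ‖p2 om g‖ + dl (un x) K n ∧
        |gam om (x n).c (xc (x n) ω') e - cc om (x n).c (xc (x n) ω') (xc (x n) ω') e -
          (gam om (x n).c (xc (x n) ω) e - cc om (x n).c (xc (x n) ω) (xc (x n) ω) e) - g e| ≤
          L n * ‖p1 om g‖ + dl (un x) K n

/-- Close vectors have few roundings. -/
def DetF : Prop := ∀ (ι : Type) [Fintype ι] {Ω β : ℕ → Type} (P : ∀ n, FP (Ω n))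
  (Y : ∀ n, Ω n → β n) (f : ∀ n, Ω n → ι → ℝ) (r : ℕ → ι → ℕ) (M : ℕ → ℕ) (L : ℕ → ℝ), Big M →
  Sub M L → (∀ᶠ n in UF, ∀ ω ∈ (P n).S, ∀ ω' ∈ (P n).S, Y n ω = Y n ω' →
    ∀ a, |f n ω a - f n ω' a| ≤ L n / 2 ^ r n a) →
  Sm M fun n => ch (P n) (fun ω a => fl1 (r n a) (f n ω a)) (Y n)

/-- A bound for every value of `b` gives a bound given `b`. -/
def Sup : Prop := ∀ {Ω α β γ : ℕ → Type} (P : ∀ n, FP (Ω n)) (b : ∀ n, Ω n → β n)
  (F : ∀ n, β n → Ω n → α n) (G : ∀ n, Ω n → γ n) (M : ℕ → ℕ),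
  (∀ᶠ n in UF, Fn (P n) (b n) (G n)) →
  (∀ s : ∀ n, β n, (∀ n, ∃ ω ∈ (P n).S, b n ω = s n) →
    Sm M fun n => ch (cv (P n) (b n) (s n)) (F n (s n)) (G n)) →
  Sm M fun n => ch (P n) (fun ω => F n (b n ω) ω) (G n)

/-! ### No direction has a large rate -/

/-- Cells in a random basis. -/
def RB : Prop := AllT fun _ κ _ _ _ _ om pos x => ∀ (i : κ) (b : ∀ n, (x n).Ω → κ → ℝ),
  CC om pos i → DirS om pos x i b → ∀ ρ ρ' : ℝ, 0 ≤ ρ → ρ ≤ ρ' → ρ' ≤ 1 →
  Sm (un x) (fun n => ch (x n).P (Cb (x n) i (b n) (dQ om pos i ρ ρ')) fun ω =>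
    (b n ω, Cl (x n) (dY om pos 1 ρ') ω)) ∧
  (ρ < ρ' → Sm (un x) fun n => ch (x n).P
    (Cb (zw om (x n) (dg om ρ) (ρ' - ρ)) i (b n) (dQ om pos i 0 1)) fun ω =>
      (b n ω, Cb (x n) i (b n) (dQ om pos i ρ ρ') ω, Cl (x n) (dep om (dg om ρ)) ω))

def OfRB : Prop := Lnk → BInv → Sup → RB

/-- The quotient cell is determined by the coordinates. -/
def CD1 : Prop := AllT fun _ κ _ _ _ _ om pos x => ∀ (K : ℝ) (i : κ) (A : ℕ → Type)
  (k : ∀ n, (x n).Ω → A n) (b : ∀ n, (x n).Ω → κ → ℝ) (ρ w s' : ℝ), Kb om K → CC om pos i →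
  DirS om pos x i b → (∀ᶠ n in UF, Fn (x n).P (b n) (k n)) → 0 ≤ ρ → 0 < w → ρ + w ≤ s' → s' ≤ 1 →
  DirS om pos x i (fun n ω => rw (x n).M w (b n ω)) ∧
  Sm (un x) fun n => ch (x n).P
    (Cb (x n) i (fun ω => rw (x n).M w (b n ω)) (dQ om pos i ρ (ρ + w)))
    (cn om pos (x n) K i (b n) (k n) s' ρ)

def OfCD1 : Prop := Lnk → BInv → DetP → Crd → Sup → CD1

/-- The cell of the positions and the central coordinates determine each other. -/
def CD2 : Prop := AllT fun _ _ _ _ _ _ om pos x => ∀ K ρ : ℝ, Kb om K → 0 ≤ ρ → ρ ≤ 1 →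
  Sm (un x) (fun n => ch (x n).P (Cl (x n) (dY om pos 1 ρ)) fun ω =>
    (fG (tc om pos) (x n).M ρ (ga om pos (x n) ω), Pi0 om pos (x n) K ω)) ∧
  Sm (un x) fun n => ch (x n).P (fun ω => fG (tc om pos) (x n).M ρ (ga om pos (x n) ω)) fun ω =>
    (Cl (x n) (dY om pos 1 ρ) ω, Pi0 om pos (x n) K ω)

def OfCD2 : Prop := Lnk → DetP → Crd → DetF → CD2

/-- The chain of inequalities in one window. -/
def NGC : Prop := AllT fun _ κ _ _ _ Φ om pos x => ∀ (C m K : ℝ) (i : κ) (A : ℕ → Type)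
  (k : ∀ n, (x n).Ω → A n) (b : ∀ n, (x n).Ω → κ → ℝ) (ρ w s' : ℝ), Mn Φ om pos C m x →
  Low Φ om pos C m → Kb om K → CC om pos i → DirS om pos x i b →
  (∀ᶠ n in UF, Fn (x n).P (b n) (k n)) → 0 ≤ ρ → 0 < w → ρ + w ≤ s' → s' ≤ 1 →
  Le (un x) (fun n => Dl om pos (zw om (x n) (dg om ρ) w) i (fun ω => rw (x n).M w (b n ω)) +
      ch (x n).P (fun ω => fG (tc om pos) (x n).M (ρ + w) (ga om pos (x n) ω))
        (cn om pos (x n) K i (b n) (k n) s' ρ))
    fun n => m * w * (x n).M + Ib' om pos (x n) (fun ω => rw (x n).M w (b n ω)) ρ w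

def OfNGC : Prop := Lnk → ZmH → Win → RB → CD1 → CD2 → NGC

/-- Modulo a direction without information the mixed positions are full. -/
def NGB : Prop := AllT fun _ κ _ _ _ Φ om pos x => ∀ (C : ℝ) (i : κ) (b : ∀ n, (x n).Ω → κ → ℝ),
  GS Φ om pos C x → IH1 Φ pos → CC om pos i → DirS om pos x i b →
  (∀ s : ℝ, 0 ≤ s → Sm (un x) fun n => Ib om (x n) (b n) s) →
  Le (un x) (fun n => (TT om pos - tt om i) * (x n).M) fun n => Dl om pos (x n) i (b n)

def OfNGB : Prop := Kit → Lnk → PFu → BInv → NGB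

/-- The same with a uniform error. -/
def NGD : Prop := ∀ (ι κ : Type) [Fintype ι] [DecidableEq ι] [Fintype κ] (Φ : Filt (Mt ι))
  (om : κ → ℝ × ℝ) (pos : κ → Prop) (C η : ℝ) (i : κ), Term om → IH1 Φ pos → CC om pos i → 0 < η →
  ∃ k : ℕ, ∀ (x : ℕ → Sy ι κ) (b : ∀ n, (x n).Ω → κ → ℝ), GS Φ om pos C x → DirS om pos x i b →
    Le (un x) (fun n => (k + 1) * Ib om (x n) (b n) k) (fun n => (x n).M) →
    Le (un x) (fun n => (TT om pos - tt om i - η) * (x n).M) fun n => Dl om pos (x n) i (b n)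

def OfNGD : Prop := Kit → Lnk → NGB → NGD

/-- The total information of a rounded direction along the diagonal. -/
def Bud : Prop := AllT fun _ κ _ _ _ Φ om pos x => ∀ (C : ℝ) (b : ∀ n, (x n).Ω → κ → ℝ)
  (s w : ℝ) (k N : ℕ), GS Φ om pos C x → (∀ᶠ n in UF, ∀ ω ∈ (x n).P.S, ∀ a, |b n ω a| ≤ 1) →
  0 ≤ s → 0 < w →
  Le (un x) (fun n => ∑ j ∈ Finset.range N,
      Ib om (zw om (x n) (dg om (s + j * w)) w) (fun ω => rw (x n).M w (b n ω)) k)
    (fun n => (k * sg om + 1) * Fintype.card κ * w * (x n).M) ∧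
  Le (un x) (fun n => ∑ j ∈ Finset.range N,
      Ib' om pos (x n) (fun ω => rw (x n).M w (b n ω)) (s + j * w) w)
    fun n => Fintype.card κ * w * (x n).M

def OfBud : Prop := Lnk → ZmH → Bud

/-- No direction of the central coordinates of a minimal system has a large rate. -/
def NGW : Prop := AllT fun _ _ _ _ _ Φ om pos x => ∀ C m K ε₀ : ℝ, Mn Φ om pos C m x →
  Low Φ om pos C m → IH1 Φ pos → Kb om K → 0 < ε₀ → ε₀ ≤ 1 → m + ε₀ < TT om pos →
  NG1 (pr x) (fun n => Pi0 om pos (x n) K) (fun n => ga om pos (x n)) (tc om pos) (un x) ε₀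

def OfNGW : Prop := ZmH → CD1 → NGC → NGD → Bud → NGW

/-- From constant levels to sequences of levels. -/
def NGL : Prop := ∀ {ι : Type} [Fintype ι] {Ω A A' : ℕ → Type} (P : ∀ n, FP (Ω n))
  (Pi : ∀ n, Ω n → A n) (Pi' : ∀ n, Ω n → A' n) (x : ∀ n, Ω n → ι → ℝ) (t : ι → ℝ) (M : ℕ → ℕ)
  (ε₀ : ℝ), Big M → (∀ k, 0 < t k ∧ t k ≤ 1) → 0 ≤ ε₀ → ε₀ ≤ 1 →
  (∀ n, Fn (P n) (Pi n) (Pi' n)) →
  (∀ (W : ℕ → Type) (Q : ∀ n, FP (W n)) (ρ : ∀ n, W n → Ω n), DnS Q ρ P →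
    NG1 Q (fun n v => Pi n (ρ n v)) (fun n v => x n (ρ n v)) t M ε₀) → NGG P Pi' x t M ε₀

/-! ### The bridge to the bilinear step -/

/-- A statement about the data of the bilinear step. -/
def AllB (p : ∀ (ι κ : Type) [Fintype ι] [DecidableEq ι] [Fintype κ], Filt (Mt ι) → (κ → ℝ × ℝ) →
    (κ → Prop) → (ℕ → Sy ι κ) → (κ → Prop) → ℝ → Prop) : Prop :=
  AllT fun ι κ _ _ _ Φ om pos x => ∀ (bs : κ → Prop) (K : ℝ),
    Adb (Neg (un x)) om pos bs (fun n => (x n).c) → Kb om K → p ι κ Φ om pos x bs K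

def BAlg : Prop := AllB fun _ κ _ _ _ _ om pos x bs K => ∃ t1 t2 : κ → ℝ, ∃ L0, Sub (un x) L0 ∧
  ∀ L : ℕ → ℝ, (∀ n, L0 n ≤ L n) → ∀ᶠ n in UF,
    (tm om pos (x n) bs K).Alg (Bs om bs true) (Bs om bs false) t1 t2 (tc om pos) (x n).M (L n)

def OfBAlg : Prop := Crd → BAlg

/-- The data are determined by cells. -/
def BDet : Prop := AllB fun _ _ _ _ _ _ om pos x bs K =>
  Sm (un x) (fun n => ch (x n).P (tm om pos (x n) bs K).O1 (Zl (x n) (dep om (lv true K)))) ∧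
  Sm (un x) (fun n => ch (x n).P (tm om pos (x n) bs K).O2 (Zl (x n) (dep om (lv false K)))) ∧
  Sm (un x) (fun n => ch (x n).P (fun ω => flv (x n).M (p1 om (xc (x n) ω)))
    (Zl (x n) (dU om true K))) ∧
  Sm (un x) (fun n => ch (x n).P (vh om (x n) K) (Zl (x n) (dU om false K))) ∧
  Sm (un x) fun n => ch (x n).P (tm om pos (x n) bs K).Pi fun ω =>
    (Cl (x n) (dU om true K) ω, vh om (x n) K ω)

def OfBDet : Prop := Lnk → DetP → Crd → DetF → BDet

def BInd : Prop := AllB fun _ _ _ _ _ _ om pos x bs K => Ind om x →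
  Sm (un x) (fun n => (tm om pos (x n) bs K).e1 (x n).M) ∧
  Sm (un x) (fun n => (tm om pos (x n) bs K).e2) ∧
  Sm (un x) fun n => mi (x n).P (tm om pos (x n) bs K).Pi (tm om pos (x n) bs K).O1
    (tm om pos (x n) bs K).Vh

def OfBInd : Prop := Lnk → BDet → BInd

def BFul : Prop := AllB fun _ _ _ _ _ Φ om pos x bs K => ∀ C, GS Φ om pos C x →
  Le (un x) (fun n => (Bs om bs true).card * (x n).M * H17S.lg) (fun n => ch (x n).P
    (fun ω => TB.prj (Bs om bs true) (flv (x n).M (p1 om (xc (x n) ω))))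
    (tm om pos (x n) bs K).O1) ∧
  Le (un x) (fun n => (Bs om bs false).card * (x n).M * H17S.lg) fun n => ch (x n).P
    (fun ω => TB.prj (Bs om bs false) (flv (x n).M (p2 om (xc (x n) ω))))
    (tm om pos (x n) bs K).O2

def OfBFul : Prop := Lnk → DetP → Crd → BDet → BFul

def BAc1 : Prop := AllB fun _ κ _ _ _ Φ om pos x bs K => ∀ (C : ℝ) (L : ℕ → ℝ), GS Φ om pos C x →
  Sub (un x) L → TB.ACL (pr x) (fun n => (tm om pos (x n) bs K).O1)
    (fun n => (tm om pos (x n) bs K).u) (fun n l => ∃ (β : κ → ℝ) (k : κ), ‖β‖ ≤ 4 * L n ∧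
      ∀ a, l a = ∑ b, β b * cT om pos bs (x n).c a b k) (un x)

def OfBAc1 : Prop := Kit → Lnk → DetP → Crd → BDet → BAc1

def BAc2 : Prop := AllB fun _ κ _ _ _ Φ om pos x bs K => ∀ C : ℝ, GS Φ om pos C x →
  TB.ACL (pr x) (fun n => (tm om pos (x n) bs K).O2) (fun n => (tm om pos (x n) bs K).v)
    (fun n l => ∃ a k : κ, ∀ b, l b = cT om pos bs (x n).c a b k) (un x)

def OfBAc2 : Prop := Kit → Lnk → DetP → Crd → BDet → BAc2

/-- There is no minimal system with independent families and a deficit. -/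
def BFin : Prop := AllB fun _ _ _ _ _ Φ om pos x _ _ => ∀ C m : ℝ, Mn Φ om pos C m x →
  Low Φ om pos C m → IH1 Φ pos → Ind om x → 0 ≤ m → TT om pos ≤ m

def OfBFin : Prop :=
  TB.TBm → ClR → NGW → NGL → BAlg → BInd → BFul → BAc1 → BAc2 → BFin

def OfTerm : Prop := Def1 → Min1 → ClB → Tan → BFin → STerm

end Pool.Agent.MP_5168f5_an.AN.TG.TA
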