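import Pool.Agent.MP_5168f5_an.AN.TBAll
import Pool.Agent.MP_5168f5_an.AN.NCHDef
import Pool.Agent.MP_5168f5_an.AN.NCU

/-! Kakeya sets in all dimensions: the bilinear terminal step with one marked coordinate. -/

namespace Pool.Agent.MP_5168f5_an.AN.TB

open H19 H17S H17F Filter R4.K31

section Sys

variable {I J ι : Type} [Fintype I] [Fintype J] [Fintype ι]

/-- The hypotheses of the terminal step when only sums of copies of the coordinate `τ` are full. -/
structure TOKH (x : ℕ → Tm I J ι) (B1 : Finset I) (B2 : Finset J) (t1 : I → ℝ) (t2 : J → ℝ)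
    (t : ι → ℝ) (R : ℕ → ℕ) (L : ℕ → ℝ) (ε₀ : ℝ) (τ : I) : Prop where
  big : Big R
  sub : Sub R L
  wt : ∀ k, 0 < t k ∧ t k ≤ 1
  e0 : 0 < ε₀ ∧ ε₀ ≤ 1
  alg : ∀ᶠ n in UF, (x n).Alg B1 B2 t1 t2 t (R n) (L n)
  ind1 : Sm R fun n => (x n).e1 (R n)
  ind2 : Sm R fun n => (x n).e2
  tr : Sm R fun n => mi (x n).P (x n).Pi (x n).O1 (x n).Vh
  mem : τ ∈ B1
  f1 : Le R (fun n => (er B1 (some τ)).card * R n * lg) fun n =>
    ch (x n).P (fun ω => prj (er B1 (some τ)) (flv (R n) ((x n).u ω)))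
      fun ω => ((x n).O1 ω, fl1 (R n) ((x n).u ω τ))
  ht : HTS (fun n => (x n).P) (fun n ω => rd (R n) ((x n).u ω) τ) (fun n => (x n).O1) R
  f2 : Le R (fun n => B2.card * R n * lg) fun n =>
    ch (x n).P (fun ω => prj B2 (flv (R n) ((x n).v ω))) (x n).O2
  ac1 : ACL (fun n => (x n).P) (fun n => (x n).O1) (fun n => (x n).u)
    (fun n l => ∃ (β : J → ℝ) (k : ι), ‖β‖ ≤ 4 * L n ∧ ∀ a, l a = ∑ b, β b * (x n).c a b k) R
  ac2 : ACL (fun n => (x n).P) (fun n => (x n).O2) (fun n => (x n).v)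
    (fun n l => ∃ (a : I) (k : ι), ∀ b, l b = (x n).c a b k) R
  ng : NGG (fun n => (x n).P) (fun n => (x n).Pi) (fun n => (x n).γ) t R ε₀

end Sys

/-- The terminal step with a marked coordinate: the bilinear map is small. -/
def TBmH : Prop := ∀ {I J ι : Type} [Fintype I] [Fintype J] [Fintype ι] (x : ℕ → Tm I J ι)
  (B1 : Finset I) (B2 : Finset J) (t1 : I → ℝ) (t2 : J → ℝ) (t : ι → ℝ) (R : ℕ → ℕ) (L : ℕ → ℝ)
  (ε₀ : ℝ) (τ : I), TOKH x B1 B2 t1 t2 t R L ε₀ τ →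
  ∃ η : ℝ, 0 < η ∧ ∀ᶠ n in UF, ∀ a b k, |(x n).c a b k| ≤ Real.exp (-(η * R n))

namespace TBHA

open TBKerA TBSide1A TBFulCA

theorem hts_pb {Ω Ω' A : ℕ → Type} {P : ∀ n, FP (Ω n)} {P' : ∀ n, FP (Ω' n)}
    {a : ∀ n, Ω n → ℝ} {O : ∀ n, Ω n → A n} {R : ℕ → ℕ} (σ : ∀ n, Ω' n → Ω n)
    (hσ : ∀ n, Law (P' n) (σ n) (P n) id) (h : HTS P a O R) :
    HTS P' (fun n y => a n (σ n y)) (fun n y => O n (σ n y)) R := fun η hη =>
  (h η hη).mono fun q hq W Z Q ρ z c h1 h2 =>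
    hq W Z Q (fun n v k => σ n (ρ n v k)) z c
      (h1.mono fun n e => ⟨fun k => ((e.1 k).comp (σ n)).trans (hσ n), e.2⟩)
      (h2.congr (Eventually.of_forall fun n => by rw [(hσ n).ch_id (a n) (O n)])
        (Eventually.of_forall fun _ => rfl))

theorem prj_er {I : Type} {B : Finset I} {τ i : I} {m m' : I → ℤ} (e : m τ = m' τ)
    (e' : prj (er (er B (some τ)) (some i)) m = prj (er (er B (some τ)) (some i)) m') :
    prj (er B (some i)) m = prj (er B (some i)) m' := by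
  funext a
  have := congrFun e' a
  unfold prj at this ⊢
  by_cases h : a ∈ er B (some i)
  · rw [if_pos h, if_pos h]
    by_cases k : a = τ
    · rw [k, e]
    · have h1 : a ∈ er (er B (some τ)) (some i) := by
        simp only [er, Option.elim, Finset.mem_erase] at h ⊢
        exact ⟨h.1, k, h.2⟩
      rwa [if_pos h1, if_pos h1] at this
  · rw [if_neg h, if_neg h]

variable {I J ι : Type} [Fintype I] [Fintype J] [Fintype ι] {x : ℕ → Tm I J ι} {B1 : Finset I}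
  {B2 : Finset J} {t1 : I → ℝ} {t2 : J → ℝ} {t : ι → ℝ} {R : ℕ → ℕ} {L : ℕ → ℝ} {ε₀ : ℝ} {τ : I}

theorem bd2 (h : TOKH x B1 B2 t1 t2 t R L ε₀ τ) (S' : Finset J) :
    ∀ᶠ n in UF, ∀ y ∈ ((x n).P2 (R n) S').S, ‖(x n).u y.1‖ ≤ L n :=
  h.alg.mono fun _ a _ hy => (a.bd _ ((l1 _ _ _).mem hy)).1

/-- The unmarked coordinates are full on pairs. -/
theorem full (h : TOKH x B1 B2 t1 t2 t R L ε₀ τ) (S' : Finset J) :
    Le R (fun n => (er B1 (some τ)).card * R n * lg) fun n => ch ((x n).P2 (R n) S')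
      (fun y => prj (er B1 (some τ)) (flv (R n) ((x n).u y.1)))
      fun y => ((x n).Xi y, fl1 (R n) ((x n).u y.1 τ)) := by
  refine Le.of2 h.f1 h.ind2 (h.alg.mono fun n a => ?_)
  have e0 := (rowKInfA (x n) B1 B2 S' t1 t2 t (R n) (L n) a).2.2.1
  have e1 := (l1 (x n) (R n) S').ch_id (fun ω => prj (er B1 (some τ)) (flv (R n) ((x n).u ω)))
    fun ω => ((x n).O1 ω, fl1 (R n) ((x n).u ω τ))
  have e2 := ch_le_mi (P := (x n).P2 (R n) S')
    (F := fun y => prj (er B1 (some τ)) (flv (R n) ((x n).u y.1))) (G := fun y => (x n).Vh y.2)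
    (K := fun y => ((x n).O1 y.1, fl1 (R n) ((x n).u y.1 τ)))
    (K' := fun y => ((x n).Xi y, fl1 (R n) ((x n).u y.1 τ))) fun a _ b _ e => by
      simp only [Prod.mk.injEq, Tm.Xi] at e ⊢; tauto
  have e3 : mi ((x n).P2 (R n) S') (fun y => (x n).Vh y.2)
      (fun y => prj (er B1 (some τ)) (flv (R n) ((x n).u y.1)))
      (fun y => ((x n).O1 y.1, fl1 (R n) ((x n).u y.1 τ))) ≤
      mi ((x n).P2 (R n) S') (fun y => (x n).Vh y.2) Prod.fst fun y => (x n).O1 y.1 :=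
    mi_right (Fn.fst _ _) (fun a _ b _ e => by rw [show a.1 = b.1 from (Prod.ext_iff.1 e).1])
      fun a _ b _ e => by rw [show a.1 = b.1 from (Prod.ext_iff.1 e).1]
  rw [mi_symm, e1] at e2
  linarith

/-- An unmarked coordinate is full given the others. -/
theorem one_ne (h : TOKH x B1 B2 t1 t2 t R L ε₀ τ) (S' : Finset J) {i : I} (hi : i ∈ B1)
    (ne : i ≠ τ) : Le R (fun n => R n * lg) fun n => ch ((x n).P2 (R n) S')
      (fun y => fl1 (R n) ((x n).u y.1 i)) ((x n).φ1 (R n) (er B1 (some i))) := by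
  have m : i ∈ er B1 (some τ) := by
    simp only [er, Option.elim, Finset.mem_erase]; exact ⟨ne, hi⟩
  refine (rowFulC (fun n => (x n).P2 (R n) S') _ (fun n y => (x n).u y.1) _ R L h.big h.sub
    (bd2 h S') (full h S') i m).1.trans (Le.of_le fun n => ch_anti fun a _ b _ e => ?_)
  simp only [Prod.mk.injEq, Tm.φ1] at e ⊢
  exact ⟨e.1.1, prj_er e.1.2 e.2⟩

/-- The marked coordinate has no information on the others. -/
theorem ind (h : TOKH x B1 B2 t1 t2 t R L ε₀ τ) (S' : Finset J) :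
    Sm R fun n => mi ((x n).P2 (R n) S') (fun y => fl1 (R n) ((x n).u y.1 τ))
      (fun y => prj (er B1 (some τ)) (flv (R n) ((x n).u y.1))) (x n).Xi := by
  refine Le.of2 (full h S') ((h.sub.const_mul h.big one_le_two).log3 h.big
    (er B1 (some τ)).card) ((bd2 h S').mono fun n a => ?_)
  have a1 := many (x n).Xi (R n) (h.sub.1 n) a (er B1 (some τ))
  have a2 : ch ((x n).P2 (R n) S') (fun y => prj (er B1 (some τ)) (flv (R n) ((x n).u y.1)))
      (fun y => ((x n).Xi y, fl1 (R n) ((x n).u y.1 τ))) ≤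
      ch ((x n).P2 (R n) S') (fun y => prj (er B1 (some τ)) (flv (R n) ((x n).u y.1)))
      fun y => (fl1 (R n) ((x n).u y.1 τ), (x n).Xi y) :=
    ch_anti ((Fn.snd _ _).pair (Fn.fst _ _))
  rw [mi_symm]; unfold mi
  linarith

theorem swp (h : TOKH x B1 B2 t1 t2 t R L ε₀ τ) (S' : Finset J) (i : I) (hi : i ∈ B1) :
    Le R (fun n => ch ((x n).P2 (R n) S') (fun y => flv (R n) ((x n).u y.1) i) (x n).Xi) fun n =>
      ch ((x n).P2 (R n) S') (fun y => flv (R n) ((x n).u y.1) i)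
        fun y => ((x n).Xi y, prj (er B1 (some i)) (flv (R n) ((x n).u y.1))) := by
  by_cases ne : i = τ
  · subst ne
    refine Le.of_sub (ind h S') (Eventually.of_forall fun n => ?_)
    have : ch ((x n).P2 (R n) S') (fun y => fl1 (R n) ((x n).u y.1 i))
        (fun y => (prj (er B1 (some i)) (flv (R n) ((x n).u y.1)), (x n).Xi y)) ≤
        ch ((x n).P2 (R n) S') (fun y => flv (R n) ((x n).u y.1) i)
        fun y => ((x n).Xi y, prj (er B1 (some i)) (flv (R n) ((x n).u y.1))) :=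
      ch_anti ((Fn.snd _ _).pair (Fn.fst _ _))
    unfold mi
    exact (sub_le_sub_left this _).trans (by simp only [flv, sub_zero, le_refl])
  · refine Le.of2 (one_ne h S' hi ne) ((h.sub.const_mul h.big one_le_two).log3 h.big 1)
      ((bd2 h S').mono fun n a => ?_)
    have a1 := one (x := fun y : (x n).Ω × (x n).Ω => (x n).u y.1 i) (x n).Xi (R n) (h.sub.1 n)
      fun y hy => (norm_le_pi_norm _ i).trans (a y hy)
    change ch _ (fun y : (x n).Ω × (x n).Ω => fl1 (R n) ((x n).u y.1 i)) _ -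
      ch _ (fun y : (x n).Ω × (x n).Ω => fl1 (R n) ((x n).u y.1 i)) ((x n).φ1 (R n) _) ≤ _
    linarith

theorem ful2 (h : TOKH x B1 B2 t1 t2 t R L ε₀ τ) (o : Option I) (o' : Option J) (S : Finset I)
    (ho : Adm B2 o') :
    Le R (fun n => R n * lg) (fun n => ch ((x n).P4 (R n) S (er B2 o'))
      (fun y => fl1 (R n) ((x n).r (R n) o' y)) ((x n).Θ (R n) S)) ∨
    ∀ᶠ n in UF, ∀ y ∈ ((x n).P4 (R n) S (er B2 o')).S, (x n).g (R n) o o' y = 0 := by
  cases o' with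
  | none =>
    refine Or.inr (Eventually.of_forall fun n y _ => funext fun k => ?_)
    simp [Tm.g, bl, ev]
  | some l =>
    have h3 := (rowFulC (fun n => (x n).P) (fun n => (x n).O2) (fun n => (x n).v) B2 R L
      h.big h.sub (h.alg.mono fun n a y hy => (a.bd y hy).2.1) h.f2 l (ho l rfl)).1
    exact Or.inl (h3.trans (Le.of_ev (h.alg.mono fun n a =>
      (rowKInfC (x n) B1 S B2 (er B2 (some l)) t1 t2 t (R n) (L n) a).2.2.2 l)))

section One

variable {z : Tm I J ι} {r : ℕ} {l : ℝ}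

theorem law4 (a : z.Alg B1 B2 t1 t2 t r l) (S : Finset I) (S' : Finset J) :
    Law (z.P4 r S S') (fun y => (z.Θ r S y, z.w r y, z.γ y.2.2)) (z.P4 r S S')
      fun y => (z.Θ r S y, z.w r y, z.γ y.1.2) := by
  have k1 : Law (z.P4 r S S') Prod.fst (z.P2 r S') id := TBKInfCA.kg.fst _ _ _ _
  have k2 : Law (z.P4 r S S') Prod.snd (z.P2 r S') id := TBKInfCA.kg.snd _ _ _ _ (Law.rfl _)
  refine ((k2.comp fun y => ((z.Vh y.2, prj S (flv r (z.u y.1))), flv r (z.v y.1), z.γ y.2)).trans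
    (k1.comp fun y => ((z.Vh y.2, prj S (flv r (z.u y.1))), flv r (z.v y.1), z.γ y.2)).symm).ext
    fun y hy => ?_
  have e := ((TBKInfCA.kg.mem _ _ _ _ y (Law.rfl _)).1 hy).2.2
  simp only [Tm.φ1, Tm.Xi, Prod.mk.injEq] at e
  have m1 := (l1 z r S').mem (k1.mem hy)
  have m2 := (l1 z r S').mem (k2.mem hy)
  simp only [Tm.Θ, Tm.w, Prod.mk.injEq]
  exact ⟨⟨e.1.2.symm, e.2.symm⟩, a.vv _ m1 _ m2 (a.v1 _ m1 _ m2 e.1.1.symm), trivial⟩

theorem rd_fl (u u' : I → ℝ) : rd r u τ = rd r u' τ ↔ fl1 r (u τ) = fl1 r (u' τ) := by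
  unfold rd
  rw [div_left_inj' (by positivity), Int.cast_inj]

theorem inf4 (S : Finset I) (S' : Finset J) :
    mi (z.P4 r S S') (fun y => rd r (z.u y.1.1) τ)
      (fun y => (z.ζ r (some τ) y - rd r (z.u y.1.1) τ, z.Θ r S y)) (fun y => z.O1 y.1.1) ≤
    mi (z.P2 r S') (fun y => z.Vh y.2) Prod.fst (fun y => z.O1 y.1) +
      mi (z.P2 r S') (fun y => fl1 r (z.u y.1 τ)) (fun y => prj S (flv r (z.u y.1))) z.Xi := by
  have k1 : Law (z.P4 r S S') Prod.fst (z.P2 r S') id := TBKInfCA.kg.fst _ _ _ _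
  have e1 := k1.ch_id (fun y => fl1 r (z.u y.1 τ)) fun y => z.O1 y.1
  have e2 := TBKInfCA.mk2 (z.P2 r S') (z.φ1 r S) fun y => fl1 r (z.u y.1 τ)
  have e3 : ch (z.P4 r S S') (fun y => rd r (z.u y.1.1) τ) (fun y => z.O1 y.1.1) ≤
      ch (z.P4 r S S') (fun y => fl1 r (z.u y.1.1 τ)) fun y => z.O1 y.1.1 :=
    ch_mono fun a _ b _ e => (rd_fl _ _).2 (congrArg Prod.fst e)
  have e4 : ch (z.P4 r S S') (fun y => fl1 r (z.u y.1.1 τ)) (fun y => y.2) ≤
      ch (z.P4 r S S') (fun y => rd r (z.u y.1.1) τ) fun y =>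
        ((z.ζ r (some τ) y - rd r (z.u y.1.1) τ, z.Θ r S y), z.O1 y.1.1) := by
    refine ch_le (fun a _ b _ e => (rd_fl _ _).1 (congrArg Prod.fst e)) fun a ha b hb e => ?_
    have ea := ((TBKInfCA.kg.mem _ _ _ _ a (Law.rfl _)).1 ha).2.2
    have eb := ((TBKInfCA.kg.mem _ _ _ _ b (Law.rfl _)).1 hb).2.2
    have e' : a.2 = b.2 := e
    have ec : z.φ1 r S a.1 = z.φ1 r S b.1 := ea.symm.trans (e' ▸ eb)
    simp only [Tm.φ1, Tm.Xi, Prod.mk.injEq] at ec
    simp only [Tm.Θ, Tm.ζ, TBKInfCA.sum_ev, Tm.ah, Pi.sub_apply, Prod.mk.injEq, e',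
      sub_sub_cancel_left]
    exact ⟨⟨trivial, ec.1.2, ec.2⟩, ec.1.1⟩
  have e5 := ch_le_mi (P := z.P2 r S') (F := fun y => fl1 r (z.u y.1 τ)) (G := fun y => z.Vh y.2)
    (K := fun y => z.O1 y.1) (K' := z.Xi) ((Fn.snd _ _).pair (Fn.fst _ _))
  have e6 : mi (z.P2 r S') (fun y => z.Vh y.2) (fun y => fl1 r (z.u y.1 τ)) (fun y => z.O1 y.1) ≤
      mi (z.P2 r S') (fun y => z.Vh y.2) Prod.fst fun y => z.O1 y.1 :=
    mi_mono fun a _ b _ e => by rw [show a.1 = b.1 from (Prod.ext_iff.1 e).1]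
  have e7 : ch (z.P2 r S') (fun y => fl1 r (z.u y.1 τ))
      (fun y => (prj S (flv r (z.u y.1)), z.Xi y)) ≤
      ch (z.P2 r S') (fun y => fl1 r (z.u y.1 τ)) (z.φ1 r S) :=
    ch_anti ((Fn.snd _ _).pair (Fn.fst _ _))
  rw [mi_symm] at e5
  unfold mi at e5 e6 ⊢
  change ch (z.P4 r S S') _ _ = _ at e2
  linarith

end One

theorem hts4 (h : TOKH x B1 B2 t1 t2 t R L ε₀ τ) (S : Finset I) (S' : Finset J) :
    HTS (fun n => (x n).P4 (R n) S S') (fun n y => rd (R n) ((x n).u y.1.1) τ)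
      (fun n y => (x n).O1 y.1.1) R := by
  have k : ∀ (z : Tm I J ι) (r : ℕ), Law (z.P4 r S S') (fun y => y.1.1) z.P id := fun z r => by
    have k1 : Law (z.P4 r S S') Prod.fst (z.P2 r S') id := TBKInfCA.kg.fst _ _ _ _
    exact (k1.comp Prod.fst).trans (l1 z r S')
  have := @hts_pb (fun n => (x n).Ω) (fun n => ((x n).Ω × (x n).Ω) × (x n).Ω × (x n).Ω)
    (fun n => (x n).A1) (fun n => (x n).P) (fun n => (x n).P4 (R n) S S')
    (fun n ω => rd (R n) ((x n).u ω) τ) (fun n => (x n).O1) R (fun _ y => y.1.1)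
    (fun n => k (x n) (R n)) h.ht
  beta_reduce at this
  exact this

/-- One resampling on each side does not move the central coordinate. -/
theorem ker (nh : NCH) (h : TOKH x B1 B2 t1 t2 t R L ε₀ τ) : ∃ η : ℝ, 0 < η ∧ ∀ o o', Adm B1 o →
    Adm B2 o' → Whp (fun n => (x n).P4 (R n) (er B1 o) (er B2 o')) fun n y =>
      ‖(x n).X (R n) y.1 - (x n).X (R n) y.2‖ ≤ Real.exp (-(η * R n)) := by
  obtain ⟨c, hc, nc⟩ := ncu ι t ε₀ h.wt h.e0.1 h.e0.2
  obtain ⟨c', hc', nh⟩ := nh ι t ε₀ h.wt h.e0.1 h.e0.2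
  obtain ⟨C, hC, kal⟩ := rowKAlg I J ι
  have hm := lt_min hc hc'
  refine ⟨min (min c c') lg / 2, half_pos (lt_min hm lg_pos), fun o o' ho ho' => ?_⟩
  have hL := (h.sub.pow 2).const_mul h.big hC
  have hA := h.alg.mono fun n a =>
    kal (x n) B1 B2 t1 t2 t (R n) (L n) o o' (h.sub.1 n) a ho ho'
  have hB := h.alg.mono fun n a =>
    rowKInfB rowKInfA (x n) B1 (er B1 o) B2 (er B2 o') t1 t2 t (R n) (L n) a (er_sub _ _)
  have hK := h.alg.mono fun n a => rowKInfC (x n) B1 (er B1 o) B2 (er B2 o') t1 t2 t (R n) (L n) a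
  have ng := ngg_pb (fun n (y : ((x n).Ω × (x n).Ω) × (x n).Ω × (x n).Ω) => y.1.2)
      (dnS_law (hK.mono fun n a => a.1)) h.ng
  have i0 := h.tr.mono (hB.mono fun n a => a.2.2)
  have i1 := ((h.ind1.smul zero_le_two).add (h.ind2.smul zero_le_two)).mono
    (hB.mono fun n a => a.1)
  have i2 := (h.ind1.add (h.ind2.smul zero_le_two)).mono (hB.mono fun n a => a.2.1)
  have key : Whp (fun n => (x n).P4 (R n) (er B1 o) (er B2 o')) fun n y =>
      ‖(x n).γ y.1.2 - (x n).γ y.2.2‖ ≤ Real.exp (-(min c c' * R n)) := by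
    by_cases e : o = some τ
    · subst e
      refine (nh (fun n => (x n).P4 (R n) (er B1 (some τ)) (er B2 o'))
        (fun n => (x n).Θ (R n) (er B1 (some τ))) (fun n y => (x n).Pi y.1.2)
        (fun n y => (x n).γ y.1.2) (fun n y => (x n).γ y.2.2)
        (fun n => (x n).g (R n) (some τ) o') (fun n => (x n).p (R n) (some τ))
        (fun n => (x n).ζ (R n) (some τ)) (fun n => (x n).r (R n) o')
        (fun n y => rd (R n) ((x n).u y.1.1) τ) (fun n => (x n).d (R n)) (fun n => (x n).w (R n))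
        (fun n y => (x n).O1 y.1.1) R (fun n => C * L n ^ 2) ((some τ).elim 0 t1) (o'.elim 0 t2)
        h.big hL ng i0 ((hA.and h.alg).mono fun n a => ⟨law4 a.2 _ _, a.1.1, a.1.2.1,
          fun v _ w _ e => ?_, fun y hy => (a.1.2.2 y hy).1⟩) i1 i2
        (hts4 h _ _)
        (Le.of2 h.ind2 (ind h (er B2 o')) (h.alg.mono fun n a => ?_))
        (ful2 h _ o' _ ho')).mono (Eventually.of_forall fun n y _ e => e.trans
          (Real.exp_le_exp.2 (neg_le_neg
            (mul_le_mul_of_nonneg_right (min_le_right _ _) (Nat.cast_nonneg _)))))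
      · exact congrFun (rd_eq (congrArg (fun s => s.1.1) e)) τ
      · have := inf4 (z := x n) (r := R n) (τ := τ) (er B1 (some τ)) (er B2 o')
        linarith [(rowKInfA (x n) B1 B2 (er B2 o') t1 t2 t (R n) (L n) a).2.2.1]
    · refine (nc (fun n => (x n).P4 (R n) (er B1 o) (er B2 o'))
        (fun n => (x n).Θ (R n) (er B1 o)) (fun n y => (x n).Pi y.1.2) (fun n y => (x n).γ y.1.2)
        (fun n y => (x n).γ y.2.2) (fun n => (x n).g (R n) o o') (fun n => (x n).p (R n) o)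
        (fun n => (x n).ζ (R n) o) (fun n => (x n).r (R n) o') (fun n => (x n).d (R n))
        (fun n => (x n).w (R n)) R (fun n => C * L n ^ 2) (o.elim 0 t1) (o'.elim 0 t2) h.big hL
        ng i0 ((hA.and hK).mono fun n a => ⟨a.2.2.1, a.1.1, a.1.2.1,
          fun y hy => (a.1.2.2 y hy).1⟩) i1 i2 ?_ (ful2 h o o' _ ho')).mono
        (Eventually.of_forall fun n y _ e => e.trans (Real.exp_le_exp.2 (neg_le_neg
          (mul_le_mul_of_nonneg_right (min_le_left _ _) (Nat.cast_nonneg _)))))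
      cases o with
      | none =>
        refine Or.inr (Eventually.of_forall fun n y _ => funext fun k => ?_)
        simp [Tm.p, bl, ev]
      | some i =>
        exact Or.inl ((one_ne h _ (ho i rfl) fun k => e (congrArg some k)).trans
          (Le.of_ev (hK.mono fun n a => a.2.2.1 i)))
  refine key.mono ?_
  filter_upwards [hA, fin_exp h.big hL hm] with n a b y hy e
  have h1 := norm_add_le ((x n).γ y.1.2 - (x n).γ y.2.2)
    ((x n).X (R n) y.1 - (x n).X (R n) y.2 - ((x n).γ y.1.2 - (x n).γ y.2.2))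
  rw [add_sub_cancel] at h1
  linarith [(a.2.2 y hy).2]

theorem side1 (nh : NCH) (h : TOKH x B1 B2 t1 t2 t R L ε₀ τ) : ∃ η : ℝ, 0 < η ∧ ∀ o', Adm B2 o' →
    Whp (fun n => (x n).P2 (R n) (er B2 o')) fun n y =>
      ∀ a k, |∑ b, (x n).bh (R n) y b * (x n).c a b k| ≤ Real.exp (-(η * R n)) := by
  obtain ⟨η, hη, hk⟩ := ker nh h
  have p0 : 0 < min (η / 4) 1 := lt_min (by positivity) one_pos
  refine ⟨min (η / 4) 1, p0, fun o' ho' => ?_⟩
  obtain ⟨W, K, Q, ρ, Y, a, hQ, hI, hW⟩ := rowSweep (fun n => (x n).P2 (R n) (er B2 o'))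
    (fun n => (x n).Xi) (fun n y => flv (R n) ((x n).u y.1)) (fun n => (x n).X (R n)) B1 R
    (fun n => Real.exp (-(η * R n))) (swp h _) fun o ho => hk o o' ho ho'
  have sm : Sm R fun n => mi (Q n) (fun v => (Y n v, (x n).Xi (ρ n v))) (fun v => (ρ n v).1)
      fun v => (x n).O1 (ρ n v).1 :=
    Le.of2 h.ind2 hI (h.alg.mono fun n a => by
      have h1 := (rowKInfA (x n) B1 B2 (er B2 o') t1 t2 t (R n) (L n) a).2.2.1
      have h2 := info (Y n) (hQ n).1
      linarith)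
  have c1 : (1 : ℝ) ≤ B1.card + 1 := by linarith [Nat.cast_nonneg (α := ℝ) B1.card]
  have key : ∀ k, Whp Q fun n v => ∀ a', |∑ b, (x n).bh (R n) (ρ n v) b * (x n).c a' b k| ≤
      Real.exp (-(min (η / 4) 1 * R n)) := fun k => by
    have h1 := h.ac1 W (fun n => K n × (x n).A1 × (x n).A3) Q (fun n v => (ρ n v).1)
      (fun n v => (Y n v, (x n).Xi (ρ n v)))
      (fun n v a' => ∑ b, (x n).bh (R n) (ρ n v) b * (x n).c a' b k) (fun n v => a n v k)
      (min (η / 4) 1) (fun n => ((hQ n).1.comp Prod.fst).trans (l1 _ _ _)) p0 (min_le_right _ _)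
      (h.alg.mono fun n al => ⟨fun v hv w hw e => by
          have e1 := (hQ n).2 v hv w hw (congrArg Prod.fst e)
          have e2 := fn_bh al _ _ ((hQ n).1.mem hv) _ ((hQ n).1.mem hw) (congrArg Prod.snd e)
          simp only [e1, e2],
        fun v hv => ⟨_, k, norm_bh al (h.sub.1 n) ((hQ n).1.mem hv), fun _ => rfl⟩⟩) sm
    refine (h1.and hW).mono ?_
    filter_upwards [(h.big.sub c1).2 (η / 2) (half_pos hη)] with n hn v _ hv a'
    refine (norm_le_pi_norm _ a').trans (hv.1 ?_)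
    rw [sum_eq]
    refine ((norm_le_pi_norm ((x n).X (R n) (ρ n v) - a n v) k).trans hv.2).trans ?_
    refine (mul_le_mul_of_nonneg_right hn (Real.exp_pos _).le).trans ?_
    rw [← Real.exp_add]
    refine Real.exp_le_exp.2 ?_
    nlinarith [min_le_left (η / 4) 1, Nat.cast_nonneg (α := ℝ) (R n)]
  intro ε hε
  filter_upwards [Whp.all key ε hε] with n hn
  have e := (hQ n).1.pb_eq fun y => ¬∀ a' k, |∑ b, (x n).bh (R n) y b * (x n).c a' b k| ≤
    Real.exp (-(min (η / 4) 1 * R n))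
  refine (e.symm.trans_le ?_).trans hn
  exact pb_mono fun v _ k1 k2 => k1 fun a' k => k2 k a'

end TBHA

theorem tbmH (nh : NCH) : TBmH := by
  intro I J ι _ _ _ x B1 B2 t1 t2 t R L ε₀ τ h
  obtain ⟨η, hη, hs⟩ := TBHA.side1 nh h
  obtain ⟨W, K, Q, ρ, Y, a, h1, h2, h3⟩ := rowSweep (I := J) (ι := I × ι) (fun n => (x n).P)
    (fun n => (x n).O2) (fun n ω => flv (R n) ((x n).v ω))
    (fun n ω ak => ∑ b, rd (R n) ((x n).v ω) b * (x n).c ak.1 b ak.2) B2 R
    (fun n => Real.exp (-(η * R n)))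
    (fun i hi => (rowFulC (fun n => (x n).P) (fun n => (x n).O2) (fun n => (x n).v) B2 R L h.big h.sub
      (h.alg.mono fun n k ω hω => (k.bd ω hω).2.1) h.f2 i hi).2)
    fun o ho => (hs o ho).mono (Eventually.of_forall fun n y _ k =>
      (pi_norm_le_iff_of_nonneg (Real.exp_pos _).le).2 fun ak => by
        refine le_trans (le_of_eq ?_) (k ak.1 ak.2)
        rw [Real.norm_eq_abs, ← abs_neg]
        simp only [Tm.bh, Pi.sub_apply, sub_mul, Finset.sum_sub_distrib, neg_sub])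
  obtain ⟨m, m0, m1, m2⟩ : ∃ m : ℝ, 0 < m ∧ m ≤ η ∧ m ≤ lg :=
    ⟨min η lg, lt_min hη lg_pos, min_le_left _ _, min_le_right _ _⟩
  have hL := h.sub.const_mul h.big (C := Fintype.card J + B2.card + 1)
    (le_add_of_nonneg_left (by positivity))
  refine ⟨m / 4, by positivity, eventually_all.2 fun i => ?_⟩
  suffices k : ∀ k, ∀ᶠ n in UF, ∀ b, |(x n).c i b k| ≤ Real.exp (-(m / 4 * R n)) from
    (eventually_all.2 k).mono fun n u b k => u k b
  intro k
  have k1 := h.ac2 W K Q ρ Y (fun n _ b => (x n).c i b k) (fun n v => a n v (i, k)) (m / 4)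
    (fun n => (h1 n).1) (by positivity) (by linarith [lg_lt_one])
    (Eventually.of_forall fun n => ⟨fun u hu v hv e => by
      simp only [(h1 n).2 u hu v hv e], fun _ _ => ⟨i, k, fun _ => rfl⟩⟩) h2
  filter_upwards [(k1.and h3).pos.ex, h.alg, hL.2 _ (half_pos m0)] with n ⟨v, _, u1, u2⟩ u3 u4 b
  refine (norm_le_pi_norm (fun b => (x n).c i b k) b).trans (u1 ((TBTBmA.err (R n) _ _
    (fun b => u3.bc i b k) ((norm_le_pi_norm _ (i, k)).trans u2)).trans ?_))
  have r0 : (0 : ℝ) ≤ R n := Nat.cast_nonneg _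
  have l1 := h.sub.1 n
  have e1 : ((2 : ℝ) ^ R n)⁻¹ ≤ Real.exp (-(m * R n)) := by
    rw [two_pow_eq, ← Real.exp_neg]
    exact Real.exp_le_exp.2 (by nlinarith)
  have e2 : Real.exp (-(η * R n)) ≤ Real.exp (-(m * R n)) := Real.exp_le_exp.2 (by nlinarith)
  calc _ ≤ Fintype.card J * L n * Real.exp (-(m * R n)) +
        (B2.card + 1) * L n * Real.exp (-(m * R n)) := by
        refine add_le_add (mul_le_mul_of_nonneg_left e1 (by positivity))
          (mul_le_mul (le_mul_of_one_le_right (by positivity) l1) e2 (by positivity)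
            (by positivity))
    _ = (Fintype.card J + B2.card + 1) * L n * Real.exp (-(m * R n)) := by ring
    _ ≤ Real.exp (m / 2 * R n) * Real.exp (-(m * R n)) :=
        mul_le_mul_of_nonneg_right u4 (by positivity)
    _ = _ := by rw [← Real.exp_add]; congr 1; ring

end Pool.Agent.MP_5168f5_an.AN.TB
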