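import Pool.Agent.MP_5168f5_an.AN.TBSpec
import Pool.Agent.MP_5168f5_an.H17F.KG

/-! Kakeya sets in all dimensions: a sweep of resamplings. -/

namespace Pool.Agent.MP_5168f5_an.AN.TB

open H19 H17S H17F Filter R4.K31

namespace TBSweepA

theorem kg : KG := rowKG rowKE

theorem prj_eq {I : Type} {S : Finset I} {m m' : I → ℤ} :
    prj S m = prj S m' ↔ ∀ a ∈ S, m a = m' a := by
  refine ⟨fun h a ha => by simpa [prj, ha] using congrFun h a, fun h => funext fun a => ?_⟩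
  by_cases ha : a ∈ S
  · simp [prj, ha, h a ha]
  · simp [prj, ha]

theorem pull {Ω W : ℕ → Type} {P : ∀ n, FP (Ω n)} {Q : ∀ n, FP (W n)} {ρ : ∀ n, W n → Ω n}
    (h : ∀ n, Law (Q n) (ρ n) (P n) id) {E : ∀ n, Ω n → Prop} (k : Whp P E) :
    Whp Q fun n v => E n (ρ n v) := fun ε hε =>
  (k ε hε).mono fun n a => ((h n).pb_eq fun ω => ¬E n ω).trans_le a

variable {Ω W K α β γ γ' δ : Type} {P : FP Ω} {Q : FP W} {ρ : W → Ω}

theorem base (P : FP Ω) (φ : Ω → β) :
    mi (glue P P φ φ) Prod.snd Prod.fst (fun v => φ v.1) ≤ 0 := by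
  have h1 := kg.mk1 P P φ φ id φ (Law.rfl _) (Fn.rfl _)
  have h2 := kg.mk1 P P φ φ id (fun ω => (ω, φ ω)) (Law.rfl _) (Fn.snd _ _)
  exact sub_nonpos.2 (h1.trans h2.symm).le

theorem law (h : Law Q ρ P id) (φ : Ω → β) : Law (glue P P φ φ) Prod.snd Q ρ :=
  (kg.snd P P φ φ (Law.rfl _)).trans h.symm

theorem step (h : Law Q ρ P id) (φ : Ω → β) (Y : W → K) {m : Ω → α} {C : Ω → γ} {C' : Ω → γ'}
    {Ξ : Ω → δ} (h1 : Fn P C φ) (h2 : Fn P C' fun ω => (m ω, C ω)) (h3 : Fn P Ξ C) :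
    mi (glue (glue P P φ φ) Q Prod.snd ρ) (fun z => Y z.2) (fun z => z.1.1) (fun z => C z.1.1) ≤
      (ch P m Ξ - ch P m φ) + mi Q Y ρ fun v => C' (ρ v) := by
  have L := law h φ
  have l1 := kg.fst (glue P P φ φ) Q Prod.snd ρ
  have l2 := kg.snd _ _ _ _ L
  have l3 : Law (glue (glue P P φ φ) Q Prod.snd ρ) (fun z => z.1.2) P id :=
    (l1.comp Prod.snd).trans (kg.snd P P φ φ (Law.rfl _))
  have e1 := kg.mk1 P P φ φ m (fun ω => (ω, C ω)) (Law.rfl _)
    fun _ _ _ _ e => congrArg φ (congrArg Prod.fst e)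
  have e2 := kg.mk1 _ _ _ _ Y id L (Fn.comp _ _)
  have e3 := l1.ch_id (fun v => m v.2) fun v => (v.1, C v.1)
  have e4 := l3.ch_id m Ξ
  have e5 := l2.ch_id Y fun v => C' (ρ v)
  have s : ∀ z ∈ (glue (glue P P φ φ) Q Prod.snd ρ).S,
      z.1.2 ∈ P.S ∧ ρ z.2 = z.1.2 ∧ C z.1.1 = C z.1.2 := fun z hz => by
    obtain ⟨a, -, b⟩ := (kg.mem _ _ _ _ z L).1 hz
    obtain ⟨c, d, e⟩ := (kg.mem _ _ _ _ _ (Law.rfl _)).1 a
    exact ⟨d, b, h1 _ c _ d e.symm⟩
  generalize glue (glue P P φ φ) Q Prod.snd ρ = R at *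
  have k0 : mi R (fun z => Y z.2) (fun z => z.1.1) (fun z => C z.1.1) ≤
      mi R (fun z => (m z.1.2, Y z.2)) (fun z => z.1.1) fun z => C z.1.1 :=
    mi_mono' ((Fn.snd _ _).left _)
  rw [mi_symm fun z : (Ω × Ω) × W => (m z.1.2, Y z.2), mi_chain,
    mi_symm _ fun z : (Ω × Ω) × W => m z.1.2,
    mi_symm (fun z : (Ω × Ω) × W => z.1.1) fun z => Y z.2] at k0
  have k1 : ch R (fun z => m z.1.2) (fun z => C z.1.1) ≤
      ch R (fun z => m z.1.2) fun z => Ξ z.1.2 := ch_anti fun a ha b hb e =>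
    h3 _ (s a ha).1 _ (s b hb).1 (((s a ha).2.2.symm.trans e).trans (s b hb).2.2)
  have k2 : ch R (fun z => Y z.2) (fun z => (m z.1.2, C z.1.1)) ≤
      ch R (fun z => Y z.2) fun z => C' (ρ z.2) := ch_anti fun a ha b hb e => by
    rw [(s a ha).2.1, (s b hb).2.1]
    rw [(s a ha).2.2, (s b hb).2.2] at e
    exact h2 _ (s a ha).1 _ (s b hb).1 e
  have k3 : ch R (fun z => Y z.2) (fun z => id z.1) ≤
      ch R (fun z => Y z.2) fun z => (z.1.1, m z.1.2, C z.1.1) :=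
    ch_anti (Fn.comp (fun v : Ω × Ω => (v.1, m v.2, C v.1)) _)
  have k4 : ch Q Y (fun v => (ρ v, C' (ρ v))) ≤ ch Q Y ρ := ch_anti (Fn.fst _ _)
  unfold mi at k0 ⊢
  linarith

end TBSweepA

open TBSweepA

theorem rowSweep : Sweep := by
  intro I ι _ Ω A P Ξ μ X B M ε h1 h2
  classical
  have key : ∀ D : Finset I, D ⊆ B → ∃ (W K : ℕ → Type) (Q : ∀ n, FP (W n))
      (ρ : ∀ n, W n → Ω n) (Y : ∀ n, W n → K n) (a : ∀ n, W n → ι → ℝ),
      (∀ n, Law (Q n) (ρ n) (P n) id ∧ Fn (Q n) (a n) (Y n)) ∧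
      Sm M (fun n => mi (Q n) (Y n) (ρ n) fun v => (Ξ n (ρ n v), prj (B \ D) (μ n (ρ n v)))) ∧
      Whp Q fun n v => ‖X n (ρ n v) - a n v‖ ≤ (D.card + 1) * ε n := by
    intro D
    induction D using Finset.induction_on with
    | empty =>
      intro _
      rw [Finset.sdiff_empty]
      have h := h2 none fun _ e => by cases e
      refine ⟨_, _, fun n => glue (P n) (P n) (fun ω => (Ξ n ω, prj B (μ n ω)))
        fun ω => (Ξ n ω, prj B (μ n ω)), fun _ => Prod.fst, fun _ => Prod.snd, fun n y => X n y.2,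
        fun n => ⟨kg.fst _ _ _ _, Fn.comp (X n) _⟩,
        Le.of_le fun n => base (P n) fun ω => (Ξ n ω, prj B (μ n ω)), ?_⟩
      simpa only [er, Option.elim, Finset.card_empty, Nat.cast_zero, zero_add, one_mul] using h
    | insert i D hi ih =>
      intro hD
      obtain ⟨W, K, Q, ρ, Y, a, k1, k2, k3⟩ := ih ((Finset.subset_insert _ _).trans hD)
      have iB := hD (Finset.mem_insert_self _ _)
      have L := fun n => law (k1 n).1 fun ω => (Ξ n ω, prj (er B (some i)) (μ n ω))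
      have l1 := fun n => kg.fst (glue (P n) (P n) (fun ω => (Ξ n ω, prj (er B (some i)) (μ n ω)))
        fun ω => (Ξ n ω, prj (er B (some i)) (μ n ω))) (Q n) Prod.snd (ρ n)
      have l2 := fun n => kg.snd _ _ _ _ (L n)
      refine ⟨_, K, _, fun _ z => z.1.1, fun n z => Y n z.2, fun n z => a n z.2,
        fun n => ⟨((l1 n).comp Prod.fst).trans (kg.fst _ _ _ _), (l2 n).fn (k1 n).2⟩,
        (h1 i iB).of2 k2 (Eventually.of_forall fun n => ?_),
        ((pull l1 (h2 (some i) fun _ e => by cases e; exact iB)).and (pull l2 k3)).mono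
          (Eventually.of_forall fun n z hz e => ?_)⟩
      · rw [sub_zero, sub_zero]
        refine step (k1 n).1 _ (Y n) (C := fun ω => (Ξ n ω, prj (B \ insert i D) (μ n ω)))
          (C' := fun ω => (Ξ n ω, prj (B \ D) (μ n ω))) (fun x _ y _ e => ?_)
          (fun x _ y _ e => ?_) (Fn.fst _ _)
        · simp only [Prod.mk.injEq, prj_eq] at e ⊢
          refine ⟨e.1, fun b hb => e.2 b ?_⟩
          simp only [er, Option.elim, Finset.mem_sdiff, Finset.mem_insert, Finset.mem_erase]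
            at hb ⊢
          tauto
        · simp only [Prod.mk.injEq, prj_eq] at e ⊢
          refine ⟨e.2.1, fun b hb => ?_⟩
          rcases eq_or_ne b i with rfl | hbi
          · exact e.1
          · refine e.2.2 b ?_
            simp only [Finset.mem_sdiff, Finset.mem_insert] at hb ⊢
            tauto
      · obtain ⟨e1, e2⟩ := e
        rw [((kg.mem _ _ _ _ z (L n)).1 hz).2.2] at e2
        rw [Finset.card_insert_of_notMem hi]
        push_cast
        linarith [norm_sub_le_norm_sub_add_norm_sub (X n z.1.1) (X n z.1.2) (a n z.2)]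
  obtain ⟨W, K, Q, ρ, Y, a, k1, k2, k3⟩ := key B subset_rfl
  refine ⟨W, K, Q, ρ, Y, a, k1, k2.mono (Eventually.of_forall fun n => mi_cond
    (fun x _ y _ e => Prod.ext e (prj_eq.2 fun b hb => by simp at hb))
    fun x _ y _ e => congrArg (Ξ n) (congrArg Prod.fst e)), k3⟩

end Pool.Agent.MP_5168f5_an.AN.TB
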