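import Pool.Agent.MP_5168f5_an.AN.GASpec

/-! Kakeya sets in all dimensions: random elements of a bigraded nilpotent group, definitions. -/

namespace Pool.Agent.MP_5168f5_an.AN.TG

open H19 H17S H17F G39 GA Filter H61Z

/-- A random matrix `j`, a context `Θ`, a frame `B` with constants `c` and a unit `M`. -/
structure Sy (ι κ : Type) : Type 1 where
  Ω : Type
  T : Type
  P : FP Ω
  j : Ω → Mt ι
  Θ : Ω → T
  B : κ → Mt ι
  c : κ → κ → κ → ℝ
  M : ℕ

section Basic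

variable {κ : Type}

/-- The radii of absolute depth `D`. -/
noncomputable def rA (D : κ → ℝ) : κ → ℝ := fun a => Real.exp (-D a)

/-- The depth `d` in the unit `m`. -/
def sc (m : ℕ) (d : κ → ℝ) : κ → ℝ := fun a => d a * m

open Classical in
/-- The depth `d`, raised by `r` on `S`. -/
noncomputable def up (d : κ → ℝ) (r : ℝ) (S : κ → Prop) : κ → ℝ :=
  fun a => if S a then d a + r else d a

open Classical in
/-- The number of indices in `S`. -/
noncomputable def cd [Fintype κ] (S : κ → Prop) : ℝ := (Finset.univ.filter S).card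

/-- Pure for the first (`true`) or the second (`false`) family. -/
def Pu (om : κ → ℝ × ℝ) (k : Bool) (a : κ) : Prop := bif k then P1 om a else P2 om a

/-- A unit linear form supported on `S` that is at most `τ` on all brackets. -/
structure Tst [Fintype κ] (c : κ → κ → κ → ℝ) (r : κ → ℝ) (S : κ → Prop) (τ : ℝ) (l : κ → ℝ) :
    Prop where
  sup : ∀ a, ¬S a → l a = 0
  le : ∀ a, |l a| ≤ 1
  one : ∃ a, |l a| = 1
  kill : ∀ a b, |∑ e, sC r c a b e * l e| ≤ τ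

open Classical in
/-- The adjoint action, extended by the second grading. -/
noncomputable def Rm (om : κ → ℝ × ℝ) (c : κ → κ → κ → ℝ) (a : κ) :
    Matrix (Option κ) (Option κ) ℝ := fun p q =>
  match p, q with
  | some e, some b => cH om c a b e
  | some e, none => if e = a then (om a).2 else 0
  | none, _ => 0

open Classical in
/-- The action of the group element with coordinates `z`. -/
noncomputable def Em [Fintype κ] (om : κ → ℝ × ℝ) (c : κ → κ → κ → ℝ) (z : κ → ℝ) :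
    Matrix (Option κ) (Option κ) ℝ := IsNilpotent.exp (∑ a, z a • Rm om c a)

/-- The cocycle of the second grading. -/
noncomputable def Uv [Fintype κ] (om : κ → ℝ × ℝ) (c : κ → κ → κ → ℝ) (z : κ → ℝ) (e : κ) : ℝ :=
  Em om c z (some e) none

end Basic

namespace Sy

variable {ι κ : Type} [Fintype ι] [DecidableEq ι] [Fintype κ] (x : Sy ι κ)

/-- The cell of absolute depth `D`. -/
noncomputable def C (D : κ → ℝ) (ω : x.Ω) : Mt ι := cell x.B (rA D) (x.j ω)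

/-- The cell and the context. -/
noncomputable def Z (D : κ → ℝ) (ω : x.Ω) : Mt ι × x.T := (x.C D ω, x.Θ ω)

/-- The entropy of the cell of depth `D'` given the cell of depth `D` and the context. -/
noncomputable def H (D D' : κ → ℝ) : ℝ := ch x.P (x.C D') (x.Z D)

/-- Normalised coordinates of `j` seen from the base point `p`. -/
noncomputable def co (D : κ → ℝ) (p : Mt ι) (ω : x.Ω) (a : κ) : ℝ :=
  lg x.B p (x.j ω) a / rA D a

/-- Small ball bound `q` for linear forms read from side data with information at most `ρ`. -/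
def AC (D : κ → ℝ) (S : κ → Prop) (η ρ q : ℝ) : Prop :=
  ∀ (W β : Type) (Q : FP W) (π : W → x.Ω) (b : W → β) (l : β → κ → ℝ) (c0 : β → ℝ),
    Law Q π x.P id → (∀ v ∈ Q.S, Tst x.c (rA D) S (Real.exp (-η)) (l (b v))) →
    mi Q b (fun v => x.j (π v)) (fun v => x.Z D (π v)) ≤ ρ →
    pb Q (fun v => |∑ a, l (b v) a * x.co D (x.C D (π v)) (π v) a - c0 (b v)| ≤
      Real.exp (-η)) ≤ q

/-- Pull back to a larger space. -/
abbrev pull {W : Type} (Q : FP W) (π : W → x.Ω) : Sy ι κ :=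
  ⟨W, x.T, Q, fun v => x.j (π v), fun v => x.Θ (π v), x.B, x.c, x.M⟩

/-- Condition on an event. -/
noncomputable abbrev cond (E : x.Ω → Prop) : Sy ι κ :=
  ⟨x.Ω, x.T, cE x.P E, x.j, x.Θ, x.B, x.c, x.M⟩

/-- Add `b` to the context. -/
abbrev side {K : Type} (b : x.Ω → K) : Sy ι κ :=
  ⟨x.Ω, K × x.T, x.P, x.j, fun ω => (b ω, x.Θ ω), x.B, x.c, x.M⟩

/-- Move the base to the absolute depth `D` and take the unit `m`. -/
noncomputable abbrev zm (D : κ → ℝ) (m : ℕ) : Sy ι κ :=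
  ⟨x.Ω, x.T, x.P, x.j, x.Θ, sB (rA D) x.B, sC (rA D) x.c, m⟩

/-- Change the basis. -/
abbrev bas (A A' : Matrix κ κ ℝ) : Sy ι κ :=
  ⟨x.Ω, x.T, x.P, x.j, x.Θ, mB A x.B, mC A A' x.c, x.M⟩

end Sy

section Seq

variable {ι κ : Type} [Fintype ι] [DecidableEq ι] [Fintype κ]

/-- The units. -/
abbrev un (x : ℕ → Sy ι κ) : ℕ → ℕ := fun n => (x n).M

/-- The laws. -/
abbrev pr (x : ℕ → Sy ι κ) : ∀ n, FP (x n).Ω := fun n => (x n).P

/-- The coordinates in `S` are full below the depth `d`. -/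
def FullAt (x : ℕ → Sy ι κ) (d : κ → ℝ) (S : κ → Prop) (r : ℝ) : Prop :=
  Le (un x) (fun n => cd S * r * (x n).M) fun n =>
    (x n).H (sc (x n).M d) (sc (x n).M (up d r S))

/-- The linear small ball bound at depth `d`. -/
def ACAt (x : ℕ → Sy ι κ) (d : κ → ℝ) (S : κ → Prop) (C η ρ : ℝ) : Prop :=
  ∀ ε : ℝ, 0 < ε → ∀ᶠ n in UF,
    (x n).AC (sc (x n).M d) S (η * (x n).M) (ρ * (x n).M) (C * ρ / η + ε)

/-- The deterministic part of a system. -/
structure G0 (Φ : Filt (Mt ι)) (om : κ → ℝ × ℝ) (pos : κ → Prop) (x : ℕ → Sy ι κ) : Prop where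
  alg : Alg (un x) Φ om pos (fun n => (x n).B) fun n => (x n).c
  unit : ∀ᶠ n in UF, ∀ ω ∈ (x n).P.S, IsUnit ((x n).j ω)

/-- A system. -/
structure GS (Φ : Filt (Mt ι)) (om : κ → ℝ × ℝ) (pos : κ → Prop) (C : ℝ) (x : ℕ → Sy ι κ) :
    Prop extends G0 Φ om pos x where
  one : 1 ≤ C
  f : ∀ (k : Bool) (t : ℝ × ℝ) (r : ℝ), 0 ≤ t.1 → 0 ≤ t.2 → 0 ≤ r →
    FullAt x (dep om t) (fun a => pos a ∧ Pu om k a) r
  ac : ∀ (k : Bool) (t : ℝ × ℝ) (η ρ : ℝ), 0 ≤ t.1 → 0 ≤ t.2 → 0 < η → 0 ≤ ρ →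
    ACAt x (dep om t) (Pu om k) C η ρ

/-- The same at rational parameters. -/
structure GSq (Φ : Filt (Mt ι)) (om : κ → ℝ × ℝ) (pos : κ → Prop) (C : ℝ) (x : ℕ → Sy ι κ) :
    Prop extends G0 Φ om pos x where
  one : 1 ≤ C
  f : ∀ (k : Bool) (t : ℚ × ℚ) (r : ℚ), 0 ≤ t.1 → 0 ≤ t.2 → 0 ≤ r →
    FullAt x (dep om (t.1, t.2)) (fun a => pos a ∧ Pu om k a) r
  ac : ∀ (k : Bool) (t : ℚ × ℚ) (η ρ : ℚ), 0 ≤ t.1 → 0 ≤ t.2 → 0 < η → 0 ≤ ρ →
    ACAt x (dep om (t.1, t.2)) (Pu om k) C η ρ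

/-- The positions are full. -/
def Full (pos : κ → Prop) (x : ℕ → Sy ι κ) : Prop := ∀ r : ℝ, 0 ≤ r → FullAt x 0 pos r

/-- The theorem for given weights and positions. -/
def ThmAt (Φ : Filt (Mt ι)) (om : κ → ℝ × ℝ) (pos : κ → Prop) : Prop :=
  ∀ (C : ℝ) (x : ℕ → Sy ι κ), GS Φ om pos C x → Full pos x

/-- The theorem for fewer positions. -/
def IH1 (Φ : Filt (Mt ι)) (pos : κ → Prop) : Prop :=
  ∀ (om' : κ → ℝ × ℝ) (pos' : κ → Prop), cd pos' < cd pos → ThmAt Φ om' pos'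

/-- The theorem for fewer mixed indices. -/
def IH2 (Φ : Filt (Mt ι)) (om : κ → ℝ × ℝ) (pos : κ → Prop) : Prop :=
  ∀ om' : κ → ℝ × ℝ, cd (Mx om') < cd (Mx om) → ThmAt Φ om' pos

/-- Side data `b` on an extension, with a base point `p` near `j` at the absolute depth `D`. -/
structure Base (x : ℕ → Sy ι κ) (D : ℕ → κ → ℝ) {W β : ℕ → Type} (Q : ∀ n, FP (W n))
    (π : ∀ n, W n → (x n).Ω) (b : ∀ n, W n → β n) (p : ∀ n, β n → Mt ι) : Prop where
  law : ∀ᶠ n in UF, Law (Q n) (π n) (x n).P id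
  near : ∃ L, Sub (un x) L ∧
    Whp Q fun n v => Nr (x n).B (rA (D n)) (L n) (p n (b n v)) ((x n).j (π n v))

/-- The small ball bound with a base point, at the absolute depth `D`, with absolute `η`, `ρ`. -/
def SB (x : ℕ → Sy ι κ) (D : ℕ → κ → ℝ) (S : κ → Prop) (C : ℝ) : Prop :=
  ∀ (W β : ℕ → Type) (Q : ∀ n, FP (W n)) (π : ∀ n, W n → (x n).Ω) (b : ∀ n, W n → β n)
    (p : ∀ n, β n → Mt ι) (l : ∀ n, β n → κ → ℝ) (c0 : ∀ n, β n → ℝ) (η ρ : ℝ), 0 < η → 0 ≤ ρ →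
    Base x D Q π b p →
    (∀ᶠ n in UF, ∀ v ∈ (Q n).S,
      Tst (x n).c (rA (D n)) S (Real.exp (-(η * (x n).M))) (l n (b n v))) →
    Le (un x) (fun n => mi (Q n) (b n) (fun v => (x n).j (π n v)) fun v => (x n).Z (D n) (π n v))
      (fun n => ρ * (x n).M) →
    ∀ ε : ℝ, 0 < ε → ∀ᶠ n in UF, pb (Q n) (fun v =>
      |∑ a, l n (b n v) a * (x n).co (D n) (p n (b n v)) (π n v) a - c0 n (b n v)| ≤
        Real.exp (-(η * (x n).M))) ≤ C * ρ / η + ε

/-- The small ball bound for the cocycle in the cell of level `t`; the information is measured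
against the cell of level `(t.1, t.2 + R)`. -/
def SBU (x : ℕ → Sy ι κ) (om : κ → ℝ × ℝ) (t : ℝ × ℝ) (C : ℝ) : Prop :=
  ∀ (W β : ℕ → Type) (Q : ∀ n, FP (W n)) (π : ∀ n, W n → (x n).Ω) (b : ∀ n, W n → β n)
    (p : ∀ n, β n → Mt ι) (l : ∀ n, β n → κ → ℝ) (c0 : ∀ n, β n → ℝ) (η ρ R : ℝ), 0 < η → 0 ≤ ρ →
    C * η ≤ R → Base x (fun n => sc (x n).M (dep om t)) Q π b p →
    (∀ᶠ n in UF, ∀ v ∈ (Q n).S, (∀ a, (om a).2 = 0 → l n (b n v) a = 0) ∧
      (∀ a, |l n (b n v) a| ≤ 1) ∧ ∃ a, |l n (b n v) a| = 1) →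
    Le (un x) (fun n => mi (Q n) (b n)
      (fun v => (x n).C (sc (x n).M (dep om (t.1, t.2 + R))) (π n v))
      fun v => (x n).Z (sc (x n).M (dep om t)) (π n v)) (fun n => ρ * (x n).M) →
    ∀ ε : ℝ, 0 < ε → ∀ᶠ n in UF, pb (Q n) (fun v =>
      |∑ a, l n (b n v) a * Uv om (x n).c
        ((x n).co (sc (x n).M (dep om t)) (p n (b n v)) (π n v)) a - c0 n (b n v)| ≤
        Real.exp (-(η * (x n).M))) ≤ C * ρ / η + ε

end Seq

/-- The theorem on random elements of bigraded nilpotent groups. -/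
def ThmG : Prop := ∀ (ι κ : Type) [Fintype ι] [DecidableEq ι] [Fintype κ] (Φ : Filt (Mt ι))
  (om : κ → ℝ × ℝ) (pos : κ → Prop), ThmAt Φ om pos

end Pool.Agent.MP_5168f5_an.AN.TG
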