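import Pool.Agent.MP_5168f5_an.AN.TGSpec2
import Pool.Agent.MP_5168f5_an.AN.GAAll
import Pool.Agent.MP_5168f5_an.R4.Api

/-! Kakeya sets in all dimensions: the increment of a matrix coefficient is linear. -/

namespace Pool.Agent.MP_5168f5_an.AN.TG

open H19 H17S H17F G39 GA Filter H61Z Matrix

namespace TGN4dA

section Wn

variable {κ υ : Type} [Fintype κ] [Fintype υ] [DecidableEq υ] {N K : ℕ} {R : κ → Matrix υ υ ℝ}

/-- The properties of the word norm. -/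
def WB (R : κ → Matrix υ υ ℝ) (N K : ℕ) : Prop := ∀ r u : υ → ℝ, 0 ≤ wn R N r u ∧
    (∀ w : List κ, |r ⬝ᵥ (w.map R).prod *ᵥ u| ≤ wn R N r u) ∧
    (∀ B : ℝ, |r ⬝ᵥ u| ≤ B → (∀ a, wn R N r (R a *ᵥ u) ≤ B) → wn R N r u ≤ B) ∧
    (∀ (z : κ → ℝ) (L : ℝ), 1 ≤ L → (∀ a, |z a| ≤ L) →
      wn R N (r ᵥ* IsNilpotent.exp (∑ a, z a • R a)) u ≤ (K * L) ^ K * wn R N r u) ∧
    ∀ (v s : κ → ℝ) (L σ μ : ℝ), 1 ≤ L → 0 ≤ σ → σ ≤ 1 → 0 ≤ μ → (∀ a, 0 ≤ s a ∧ |v a| ≤ L * s a) →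
      (∀ a, R a ≠ 0 → s a ≤ σ) → (∀ a, s a * wn R N r (R a *ᵥ u) ≤ μ) →
      |r ⬝ᵥ IsNilpotent.exp (∑ a, v a • R a) *ᵥ u - r ⬝ᵥ u - ∑ a, v a * (r ⬝ᵥ R a *ᵥ u)| ≤
        (K * L) ^ K * σ * μ

omit [DecidableEq υ] in
theorem dot_le {r v : υ → ℝ} {α β : ℝ} (hr : ∀ q, |r q| ≤ α) (hv : ∀ q, |v q| ≤ β) :
    |r ⬝ᵥ v| ≤ Fintype.card υ * α * β := by
  refine (Finset.abs_sum_le_sum_abs _ _).trans
    ((Finset.sum_le_card_nsmul _ _ (α * β) fun q _ => ?_).trans_eq ?_)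
  · rw [abs_mul]
    exact mul_le_mul (hr q) (hv q) (abs_nonneg _) ((abs_nonneg _).trans (hr q))
  · rw [nsmul_eq_mul, Finset.card_univ, mul_assoc]

theorem wn_le {r v : υ → ℝ} {α β γ : ℝ} (hR : ∀ a p q, |R a p q| ≤ γ)
    (hγ : 1 ≤ Fintype.card υ * γ) (hr : ∀ q, |r q| ≤ α) (hv : ∀ q, |v q| ≤ β) (h0 : 0 ≤ α)
    (h1 : 0 ≤ β) : wn R N r v ≤ Fintype.card υ * α * ((Fintype.card υ * γ) ^ N * β) := by
  have h : ∀ (w : List κ) p, |((w.map R).prod *ᵥ v) p| ≤ (Fintype.card υ * γ) ^ w.length * β := by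
    intro w
    induction w with
    | nil => simpa using hv
    | cons a w ih =>
      intro p
      rw [List.map_cons, List.prod_cons, ← Matrix.mulVec_mulVec, List.length_cons, pow_succ',
        mul_assoc]
      exact dot_le (hR a p) ih
  exact Real.iSup_le (fun w => dot_le hr fun q => (h w.1 q).trans
    (mul_le_mul_of_nonneg_right (pow_le_pow_right₀ hγ w.2.le) h1)) (by positivity)

theorem WB.nil (hW : WB R N K) (r u : υ → ℝ) : |r ⬝ᵥ u| ≤ wn R N r u := by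
  simpa using (hW r u).2.1 []

theorem WB.one (hW : WB R N K) (hK : 1 ≤ K) {r u : υ → ℝ} {z : κ → ℝ} {L B : ℝ} (hL : 1 ≤ L)
    (hz : ∀ a, |z a| ≤ L) (h1 : 2 * |r ⬝ᵥ IsNilpotent.exp (∑ a, z a • R a) *ᵥ u| ≤ wn R N r u)
    (h2 : ∀ a, wn R N r (R a *ᵥ u) ≤ B) (hB : 0 ≤ B) :
    wn R N r u ≤ 2 * ((K * L) ^ K + Fintype.card κ * L) * B := by
  have k1 := abs_le.1 ((hW r u).2.2.2.2 z (fun _ => 1) L 1 B hL zero_le_one le_rfl hB
    (fun a => ⟨zero_le_one, by simpa using hz a⟩) (fun _ _ => le_rfl) fun a => by simpa using h2 a)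
  have k2 := abs_le.1 (dot_le (r := z) (v := fun a => r ⬝ᵥ R a *ᵥ u) hz
    fun a => (hW.nil _ _).trans (h2 a))
  have k3 := (hW r u).2.2.1 (max |r ⬝ᵥ u| B) (le_max_left _ _)
    fun a => (h2 a).trans (le_max_right _ _)
  have k4 : (1 : ℝ) ≤ (K * L) ^ K :=
    one_le_pow₀ (one_le_mul_of_one_le_of_one_le (by exact_mod_cast hK) hL)
  have k5 : 0 ≤ Fintype.card κ * L * B := by positivity
  have k6 := abs_le.1 (le_refl |r ⬝ᵥ IsNilpotent.exp (∑ a, z a • R a) *ᵥ u|)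
  unfold dotProduct at k2
  rcases le_max_iff.1 k3 with k | k
  · have : |r ⬝ᵥ u| ≤ wn R N r u / 2 + ((K * L) ^ K + Fintype.card κ * L) * B :=
      abs_le.2 ⟨by unfold dotProduct at *; linarith [k1.2, k2.2, k6.1],
        by unfold dotProduct at *; linarith [k1.1, k2.1, k6.2]⟩
    linarith
  · nlinarith

theorem WB.two (hW : WB R N K) {r r' u : υ → ℝ} {s : κ → ℝ} {P σ μ : ℝ} (P0 : 0 ≤ P) (σ0 : 0 ≤ σ)
    (μ0 : 0 ≤ μ) (hP : ∀ v, wn R N r' v ≤ P * wn R N r v) (hs : ∀ a, 0 ≤ s a)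
    (hσ : ∀ a, R a ≠ 0 → s a ≤ σ) (hμ : ∀ a, s a * wn R N r (R a *ᵥ u) ≤ μ) (a b : κ) :
    s a * s b * |r' ⬝ᵥ (R a * R b) *ᵥ u| ≤ P * σ * μ := by
  by_cases h : R a = 0
  · simp only [h, zero_mul, zero_mulVec, dotProduct_zero, abs_zero, mul_zero]
    positivity
  · have k : |r' ⬝ᵥ (R a * R b) *ᵥ u| ≤ P * wn R N r (R b *ᵥ u) := by
      refine le_trans ?_ (hP _)
      simpa using (hW r' (R b *ᵥ u)).2.1 [a]
    calc _ ≤ s a * s b * (P * wn R N r (R b *ᵥ u)) :=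
          mul_le_mul_of_nonneg_left k (mul_nonneg (hs a) (hs b))
      _ = P * (s a * (s b * wn R N r (R b *ᵥ u))) := by ring
      _ ≤ P * (σ * μ) := mul_le_mul_of_nonneg_left
          (mul_le_mul (hσ a h) (hμ b) (mul_nonneg (hs b) (hW _ _).1) σ0) P0
      _ = _ := by ring

end Wn

variable {ι κ : Type} [Fintype ι] [DecidableEq ι] [Fintype κ] {Φ : Filt (Mt ι)} {om : κ → ℝ × ℝ}
  {B : κ → Mt ι} {c : κ → κ → κ → ℝ}

omit [Fintype κ] in
theorem dead {a : κ} (h : Rm om c a ≠ 0) : om a ≠ 0 := fun k => h (by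
  ext (_ | p) (_ | q) <;> simp [Rm, cH, Hm, k])

omit [Fintype κ] in
theorem rm_le {γ : ℝ} (h0 : 0 ≤ γ) (h1 : ∀ a b e, |c a b e| ≤ γ) (h2 : ∀ a, |(om a).2| ≤ γ) (a : κ)
    (p q : Option κ) : |Rm om c a p q| ≤ γ := by
  rcases p with _ | p <;> rcases q with _ | q <;> simp only [Rm, cH, abs_zero, h0] <;>
    split_ifs <;> simp only [abs_zero, h0, h1, h2]

theorem base (hF : IsFr Φ B c) {ρ : κ → ℝ} {L : ℝ} (hρ : ∀ a, 0 < ρ a) {p y : Mt ι} (hy : IsUnit y)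
    (hp : Nr B ρ L p y) : IsUnit p ∧ y = p * ex B (GA.lg B p y) ∧
      ∀ a, |GA.lg B p y a / ρ a| ≤ L := by
  obtain ⟨t, h1, h2⟩ := hp
  have m := sMul _ _ Φ B c hF
  have u : IsUnit p := by
    have : p = y * ex B (-t) := by rw [h2, mul_assoc, (m.neg t).2, mul_one]
    rw [this]
    exact hy.mul ⟨⟨_, _, (m.neg t).1, (m.neg t).2⟩, rfl⟩
  have e : GA.lg B p y = t := by rw [h2, m.lg p t u]
  rw [e]
  refine ⟨u, h2, fun a => ?_⟩
  rw [abs_div, abs_of_pos (hρ a), div_le_iff₀ (hρ a)]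
  exact h1 a

theorem resc (hF : IsFr Φ B c) {ρ : κ → ℝ} (hρ : ∀ a, 0 < ρ a) {p : Mt ι} (hp : IsUnit p)
    (t v : κ → ℝ) : (fun a => GA.lg B p (p * ex B t * ex B v) a / ρ a) =
      bch Φ.N (sC ρ c) (fun a => t a / ρ a) fun a => v a / ρ a := by
  classical
  have m := sMul _ _ Φ _ _ (((sFr _ _ Φ B c).1 ρ ρ hρ).1 hF)
  have e : ∀ w, ex (sB ρ B) w = ex B fun a => w a * ρ a := fun w => by
    simp only [ex, GA.vec, sB, smul_smul]
  have h := m.mul (fun a => t a / ρ a) fun a => v a / ρ a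
  simp only [e, fun x a => div_mul_cancel₀ x (hρ a).ne'] at h
  rw [mul_assoc, h, (sMul _ _ Φ B c hF).lg _ _ hp]
  funext a
  exact mul_div_cancel_right₀ _ (hρ a).ne'

open Classical in
theorem fin (hF : IsFr Φ B c) {N K : ℕ} (hW : WB (Rm om c) N K) {ρ ρ' s : κ → ℝ}
    {L σ δ μ P G : ℝ} (hρ : ∀ a, 0 < ρ a) (hρ' : ∀ a, ρ' a = ρ a * s a)
    (hs : ∀ a, 0 < s a ∧ s a ≤ 1) (hσ : ∀ a, om a ≠ 0 → s a ≤ σ) (σ0 : 0 ≤ σ) (σ1 : σ ≤ 1)
    (hL : 1 ≤ L) (hP : P = (K * L) ^ K) (P1 : 1 ≤ P) (G1 : 1 ≤ G) (μ0 : 0 ≤ μ) (hδ : δ ≤ σ * μ)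
    (r1 : ∀ a b p q, |(Rm om c a * Rm om c b - Rm om c b * Rm om c a -
      ∑ e, sC ρ c a b e • Rm om c e) p q| ≤ δ)
    (r2 : ∀ s u : κ → ℝ, (∀ a, |s a| ≤ L ∧ |u a| ≤ L) → ∀ p q,
      |(Em om c (bch Φ.N (sC ρ c) s u) - Em om c s * Em om c u) p q| ≤ δ)
    {p y : Mt ι} {r u : Option κ → ℝ} (hy : IsUnit y) (hp : Nr B ρ L p y)
    (hG : ∀ E : Matrix (Option κ) (Option κ) ℝ, (∀ p q, |E p q| ≤ σ * μ) →
      wn (Rm om c) N r (E *ᵥ u) ≤ G * (σ * μ))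
    (hμ : ∀ a, s a * wn (Rm om c) N r (Rm om c a *ᵥ u) ≤ μ) :
    (∀ a b, |∑ e, sC ρ' c a b e * (s e * (r ⬝ᵥ Em om c (fun a => GA.lg B p y a / ρ a) *ᵥ
      (Rm om c e *ᵥ u)))| ≤ 4 * P ^ 2 * G * σ * μ) ∧
    ∀ z : Mt ι, Nr B ρ' L y z →
      |r ⬝ᵥ Em om c (fun a => GA.lg B p z a / ρ a) *ᵥ u -
        r ⬝ᵥ Em om c (fun a => GA.lg B p y a / ρ a) *ᵥ u -
        ∑ a, s a * (r ⬝ᵥ Em om c (fun a => GA.lg B p y a / ρ a) *ᵥ (Rm om c a *ᵥ u)) *
          (GA.lg B y z a / ρ' a)| ≤ 4 * P ^ 2 * G * σ * μ := by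
  obtain ⟨b1, b2, b3⟩ := base hF hρ hy hp
  obtain ⟨r', hr'⟩ : ∃ r', r' = r ᵥ* Em om c fun a => GA.lg B p y a / ρ a := ⟨_, rfl⟩
  have w1 : ∀ v, wn (Rm om c) N r' v ≤ P * wn (Rm om c) N r v := fun v => by
    rw [hr', hP]
    exact (hW r v).2.2.2.1 _ L hL b3
  have w2 : ∀ a, Rm om c a ≠ 0 → s a ≤ σ := fun a h => hσ a (dead h)
  have w3 : 0 ≤ σ * μ := mul_nonneg σ0 μ0
  have P0 : 0 ≤ P := zero_le_one.trans P1
  have w4 : P * (σ * μ) ≤ P * (G * (σ * μ)) :=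
    mul_le_mul_of_nonneg_left (le_mul_of_one_le_left w3 G1) P0
  have w5 : P * (G * (σ * μ)) ≤ P * (P * (G * (σ * μ))) :=
    le_mul_of_one_le_left (by positivity) P1
  have w6 : G * (σ * μ) ≤ P * (G * (σ * μ)) := le_mul_of_one_le_left (by positivity) P1
  have w7 : 0 ≤ G * (σ * μ) := by positivity
  simp only [dotProduct_mulVec r (Em om c fun a => GA.lg B p y a / ρ a), ← hr']
  refine ⟨fun a b => ?_, fun z hz => ?_⟩
  · have k1 := hW.two P0 σ0 μ0 w1 (fun a => (hs a).1.le) w2 hμ a b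
    have k2 := hW.two P0 σ0 μ0 w1 (fun a => (hs a).1.le) w2 hμ b a
    have k3 := ((hW.nil r' _).trans (w1 _)).trans
      (mul_le_mul_of_nonneg_left (hG _ fun p q => (r1 a b p q).trans hδ) P0)
    have k4 : 0 < s a * s b := mul_pos (hs a).1 (hs b).1
    have k5 := (mul_le_of_le_one_left (abs_nonneg _)
      (mul_le_one₀ (hs a).2 (hs b).1.le (hs b).2)).trans k3
    have e : ∑ e, sC ρ' c a b e * (s e * (r' ⬝ᵥ Rm om c e *ᵥ u)) =
        s a * s b * (r' ⬝ᵥ (∑ e, sC ρ c a b e • Rm om c e) *ᵥ u) := by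
      rw [sum_mulVec, dotProduct_sum, Finset.mul_sum]
      refine Finset.sum_congr rfl fun e _ => ?_
      have := (hρ e).ne'
      have := (hs e).1.ne'
      simp only [sC, hρ', smul_mulVec, dotProduct_smul, smul_eq_mul]
      field_simp
    rw [sub_mulVec, sub_mulVec, dotProduct_sub, dotProduct_sub] at k5
    rw [← abs_of_pos k4, ← abs_mul] at k5
    rw [← abs_of_pos k4, ← abs_mul] at k1
    rw [mul_comm (s b), ← abs_of_pos k4, ← abs_mul] at k2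
    rw [e]
    have j1 := abs_le.1 k1
    have j2 := abs_le.1 k2
    have j5 := abs_le.1 k5
    exact abs_le.2 ⟨by linarith [j1.1, j2.2, j5.2], by linarith [j1.2, j2.1, j5.1]⟩
  · obtain ⟨v, v1, rfl⟩ := hz
    have v2 : ∀ a, |v a / ρ a| ≤ L * s a := fun a => by
      rw [abs_div, abs_of_pos (hρ a), div_le_iff₀ (hρ a), mul_assoc, mul_comm (s a), ← hρ']
      exact v1 a
    have e1 := resc hF hρ b1 (GA.lg B p y) v
    rw [← b2] at e1
    have k1 := (hW r' u).2.2.2.2 (fun a => v a / ρ a) s L σ (P * μ) hL σ0 σ1 (by positivity)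
      (fun a => ⟨(hs a).1.le, v2 a⟩) w2 fun a => by
        refine (mul_le_mul_of_nonneg_left (w1 _) (hs a).1.le).trans ?_
        rw [mul_left_comm]
        exact mul_le_mul_of_nonneg_left (hμ a) P0
    have k2 := (hW.nil r _).trans (hG _ fun p' q => (r2 _ (fun a => v a / ρ a) (fun a => ⟨b3 a,
      (v2 a).trans (mul_le_of_le_one_right (zero_le_one.trans hL) (hs a).2)⟩) p' q).trans hδ)
    rw [sub_mulVec, dotProduct_sub, ← mulVec_mulVec,
      dotProduct_mulVec r (Em om c fun a => GA.lg B p y a / ρ a), ← hr'] at k2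
    have e2 : ∑ a, s a * (r' ⬝ᵥ Rm om c a *ᵥ u) * (v a / ρ' a) =
        ∑ a, v a / ρ a * (r' ⬝ᵥ Rm om c a *ᵥ u) := Finset.sum_congr rfl fun a _ => by
      have := (hρ a).ne'
      have := (hs a).1.ne'
      rw [hρ']
      field_simp
    rw [e1, (sMul _ _ Φ B c hF).lg _ _ hy, e2]
    rw [← hP] at k1
    have j1 := abs_le.1 k1
    have j2 := abs_le.1 k2
    have w8 := mul_le_mul_of_nonneg_left w4 P0
    unfold Em at j2 ⊢
    exact abs_le.2 ⟨by linarith [j1.1, j2.1], by linarith [j1.2, j2.2]⟩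

end TGN4dA

open TGN4dA Classical in
theorem tgN4d : OfN4d := by
  intro rep swn ι κ _ _ _ Φ om pos x g N t s lam A L hN t1 t2 s0 l0 hl hL
  obtain ⟨K, K1, hK⟩ := swn κ (Option κ) N
  obtain ⟨-, -, -, hr⟩ := rep ι κ Φ om pos x g
  have big := g.alg.big
  obtain ⟨γ, γ1, γ2⟩ := ob_bound big (J := (κ × κ × κ) ⊕ κ)
    (f := Sum.elim (fun j n => (x n).c j.1 j.2.1 j.2.2) fun a _ => (om a).2)
    (Sum.rec (fun j => g.alg.ob _ _ _) fun a => ob_const big _)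
  have c1 : (1 : ℝ) ≤ Fintype.card (Option κ) := by exact_mod_cast Fintype.card_pos
  have c2 : (Fintype.card κ : ℝ) ≤ Fintype.card (Option κ) := by simp
  have sP := sub_box big hL K1
  have sL := hL.const_mul big c1
  have sG := sL.mul (((γ1.const_mul big c1).pow N).mul sL)
  refine ⟨_, (((sP.pow 2).const_mul big (C := 4) (by norm_num)).mul sG), ?_⟩
  filter_upwards [g.alg.fr, hr t L (A + lam * s) t1 t2 hL] with n hF hR p y r u hy hp hru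
  have hW : WB (Rm om (x n).c) N K := hK _ (hN _)
  have ρ0 : ∀ a, 0 < rA (sc (x n).M (dep om t)) a := fun a => Real.exp_pos _
  have m0 : 0 ≤ s * (x n).M := by positivity
  have L0 := (hL.pos n).le
  refine ⟨fun B h1 h2 h3 => (hW.one K1 (hL.1 n) (base hF ρ0 hy hp).2.2 h1 h2 h3).trans
    (mul_le_mul_of_nonneg_right ?_ h3), fun μ h1 h2 => ?_⟩
  · have k1 := sP.1 n
    have k2 := sL.1 n
    have k3 := (((γ1.const_mul big c1).pow N).mul sL).1 n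
    have k4 := mul_le_mul_of_nonneg_right c2 L0
    simp only at k1 k2 k3 ⊢
    generalize ((K : ℝ) * L n) ^ K = P at *
    generalize (Fintype.card (Option κ) : ℝ) * L n = Y at *
    generalize ((Fintype.card (Option κ) : ℝ) * γ n) ^ N * Y = Z at *
    have k5 : Y ≤ Y * Z := le_mul_of_one_le_right (by linarith) k3
    have k6 : P ≤ P ^ 2 := by nlinarith
    nlinarith [mul_nonneg (sub_nonneg.2 (k1.trans k6)) (sub_nonneg.2 (k2.trans k5))]
  · refine fin hF hW (s := fun a => Real.exp (-(((om a).1 + (om a).2) * (s * (x n).M)))) ρ0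
      (fun a => ?_) (fun a => ⟨Real.exp_pos _, Real.exp_le_one_iff.2 (neg_nonpos.2
        (mul_nonneg (add_nonneg (g.alg.wt a).1 (g.alg.wt a).2) m0))⟩)
      (fun a h => Real.exp_le_exp.2 (neg_le_neg ?_)) (Real.exp_pos _).le
      (Real.exp_le_one_iff.2 (neg_nonpos.2 (by positivity))) (hL.1 n) rfl (sP.1 n) (sG.1 n)
      ((Real.exp_pos _).le.trans h1) ?_ hR.1 hR.2 hy hp (fun E hE => ?_) h2
    · simp only [rA, sc, dep, ← Real.exp_add]
      congr 1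
      ring
    · rw [mul_assoc]
      exact mul_le_mul_of_nonneg_right (hl a h) m0
    · refine le_trans (le_of_eq ?_) (mul_le_mul_of_nonneg_left h1 (Real.exp_pos _).le)
      simp only [dl, ← Real.exp_add]
      congr 1
      ring
    · have k0 := (abs_nonneg _).trans (hE none none)
      refine (wn_le (rm_le (γ1.pos n).le (fun a b e => γ2 n (.inl (a, b, e)))
        fun a => γ2 n (.inr a)) ((γ1.const_mul big c1).1 n) (fun q => (hru q).1)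
        (fun q => dot_le (hE q) fun q => (hru q).2) L0 (by positivity)).trans_eq ?_
      ring

end Pool.Agent.MP_5168f5_an.AN.TG
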