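import Pool.Agent.MP_5168f5_an.AN.TGSpec

/-! Kakeya sets in all dimensions: matrix coefficients in cells, deterministic statements. -/

namespace Pool.Agent.MP_5168f5_an.AN.TG

open H19 H17S H17F G39 GA Filter H61Z Matrix

/-- The word norm. -/
def SWn : Prop := ∀ (κ υ : Type) [Fintype κ] [Fintype υ] [DecidableEq υ] (N : ℕ),
  ∃ K : ℕ, 1 ≤ K ∧ ∀ R : κ → Matrix υ υ ℝ,
  (∀ w : List κ, N ≤ w.length → (w.map R).prod = 0) → ∀ r u : υ → ℝ, 0 ≤ wn R N r u ∧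
    (∀ w : List κ, |r ⬝ᵥ (w.map R).prod *ᵥ u| ≤ wn R N r u) ∧
    (∀ B : ℝ, |r ⬝ᵥ u| ≤ B → (∀ a, wn R N r (R a *ᵥ u) ≤ B) → wn R N r u ≤ B) ∧
    (∀ (z : κ → ℝ) (L : ℝ), 1 ≤ L → (∀ a, |z a| ≤ L) →
      wn R N (r ᵥ* IsNilpotent.exp (∑ a, z a • R a)) u ≤ (K * L) ^ K * wn R N r u) ∧
    ∀ (v s : κ → ℝ) (L σ μ : ℝ), 1 ≤ L → 0 ≤ σ → σ ≤ 1 → 0 ≤ μ → (∀ a, 0 ≤ s a ∧ |v a| ≤ L * s a) →
      (∀ a, R a ≠ 0 → s a ≤ σ) → (∀ a, s a * wn R N r (R a *ᵥ u) ≤ μ) →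
      |r ⬝ᵥ IsNilpotent.exp (∑ a, v a • R a) *ᵥ u - r ⬝ᵥ u - ∑ a, v a * (r ⬝ᵥ R a *ᵥ u)| ≤
        (K * L) ^ K * σ * μ

open Classical in
/-- The linear form of the increment of a matrix coefficient. -/
noncomputable def lf {κ : Type} [Fintype κ] (om : κ → ℝ × ℝ) (c : κ → κ → κ → ℝ) (s : ℝ)
    (z : κ → ℝ) (r u : Option κ → ℝ) (a : κ) : ℝ :=
  Real.exp (-(((om a).1 + (om a).2) * s)) * (r ⬝ᵥ Em om c z *ᵥ (Rm om c a *ᵥ u))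

open Classical in
/-- The increment of a matrix coefficient inside a deeper cell is linear. -/
def SN4d : Prop := All fun ι κ _ _ _ Φ om pos x => G0 Φ om pos x → ∀ (N : ℕ) (t : ℝ × ℝ)
  (s lam A : ℝ) (L : ℕ → ℝ),
  (∀ (c : κ → κ → κ → ℝ) (w : List κ), N ≤ w.length → (w.map (Rm om c)).prod = 0) →
  0 ≤ t.1 → 0 ≤ t.2 → 0 ≤ s → 0 ≤ lam → (∀ a, om a ≠ 0 → lam ≤ (om a).1 + (om a).2) →
  Sub (un x) L → ∃ L', Sub (un x) L' ∧ ∀ᶠ n in UF, ∀ (p y : Mt ι) (r u : Option κ → ℝ),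
    IsUnit y → Nr (x n).B (rA (sc (x n).M (dep om t))) (L n) p y →
    (∀ e, |r e| ≤ L n ∧ |u e| ≤ L n) →
    (∀ B : ℝ, 2 * |r ⬝ᵥ Em om (x n).c (fun a => lg (x n).B p y a /
        rA (sc (x n).M (dep om t)) a) *ᵥ u| ≤ wn (Rm om (x n).c) N r u →
      (∀ a, wn (Rm om (x n).c) N r (Rm om (x n).c a *ᵥ u) ≤ B) → 0 ≤ B →
      wn (Rm om (x n).c) N r u ≤ L' n * B) ∧
    ∀ μ : ℝ, Real.exp (-(A * (x n).M)) ≤ μ → (∀ a, Real.exp (-(((om a).1 + (om a).2) *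
        (s * (x n).M))) * wn (Rm om (x n).c) N r (Rm om (x n).c a *ᵥ u) ≤ μ) →
      (∀ a b, |∑ e, sC (rA (sc (x n).M (dep om (t.1 + s, t.2 + s)))) (x n).c a b e *
        lf om (x n).c (s * (x n).M) (fun a => lg (x n).B p y a / rA (sc (x n).M (dep om t)) a)
          r u e| ≤ L' n * Real.exp (-(lam * s * (x n).M)) * μ) ∧
      ∀ z : Mt ι, Nr (x n).B (rA (sc (x n).M (dep om (t.1 + s, t.2 + s)))) (L n) y z →
        |r ⬝ᵥ Em om (x n).c (fun a => lg (x n).B p z a / rA (sc (x n).M (dep om t)) a) *ᵥ u -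
          r ⬝ᵥ Em om (x n).c (fun a => lg (x n).B p y a / rA (sc (x n).M (dep om t)) a) *ᵥ u -
          ∑ a, lf om (x n).c (s * (x n).M)
            (fun a => lg (x n).B p y a / rA (sc (x n).M (dep om t)) a) r u a *
            (lg (x n).B y z a / rA (sc (x n).M (dep om (t.1 + s, t.2 + s))) a)| ≤
          L' n * Real.exp (-(lam * s * (x n).M)) * μ

def OfN4d : Prop := SRep → SWn → SN4d

end Pool.Agent.MP_5168f5_an.AN.TG
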