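import Pool.Agent.MP_5168f5_an.AN.GASpec

/-! Kakeya sets in all dimensions: algebra of the terminal case, statements. -/

namespace Pool.Agent.MP_5168f5_an.AN.TL

open H19 H17S H17F G39 GA Filter H61Z

section Defs

variable {κ R : Type} (om : κ → ℝ × ℝ)

/-- All mixed weights are parallel. -/
def Term : Prop := ∀ a b, Mx om a → Mx om b → (om a).1 * (om b).2 = (om a).2 * (om b).1

open Classical in
/-- The coordinates that are pure for the first family. -/
noncomputable def p1 [Zero R] (x : κ → R) : κ → R := fun a => if P1 om a then x a else 0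

open Classical in
/-- The coordinates that are pure for the second family. -/
noncomputable def p2 [Zero R] (x : κ → R) : κ → R := fun a => if P2 om a then x a else 0

/-- The bracket of the two pure parts. -/
noncomputable def cc [Fintype κ] [CommRing R] (c : κ → κ → κ → R) (x y : κ → R) : κ → R :=
  br (cH om c) (p1 om x) (p2 om y)

/-- The central coordinate that is kept by the first family. -/
noncomputable def gam [Fintype κ] [CommRing R] [Algebra ℚ R] (c : κ → κ → κ → R) (x : κ → R) :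
    κ → R := x + (1 / 2 : ℚ) • cc om c x x

/-- An exactly graded Lie algebra. -/
structure GrL [Fintype κ] [CommRing R] (c : κ → κ → κ → R) : Prop where
  wt : ∀ a, 0 ≤ (om a).1 ∧ 0 ≤ (om a).2
  anti : ∀ a b e, c a b e = -c b a e
  jac : ∀ s t u, br c (br c s t) u = br c s (br c t u) - br c t (br c s u)
  hom : ∀ a b e, ¬Hm om a b e → c a b e = 0

end Defs

open Classical in
/-- In the terminal case the mixed indices are central. -/
def TL0 : Prop := ∀ (κ R : Type) [Fintype κ] [CommRing R] (om : κ → ℝ × ℝ) (c : κ → κ → κ → R),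
  GrL om c → Term om →
  (∀ e, Mx om e → ∃ lam : κ → κ → R, ∀ e', om e' = om e →
    ∑ a, ∑ b, lam a b * c a b e' = if e' = e then 1 else 0) →
  ∀ f, Mx om f → ∀ b e, c f b e = 0

/-- The group law when the mixed indices are central. -/
def TL1 : Prop := ∀ (κ R : Type) [Fintype κ] [CommRing R] [Algebra ℚ R] (om : κ → ℝ × ℝ)
  (c : κ → κ → κ → R) (N : ℕ), GrL om c → (∀ f, Mx om f → ∀ b e, c f b e = 0) →
  ∀ x g y : κ → R,
    p1 om (bch N c x g) = bch N c (p1 om x) (p1 om g) ∧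
    p2 om (bch N c x g) = bch N c (p2 om x) (p2 om g) ∧
    ∀ e, Mx om e →
      gam om c (bch N c x g) e =
        gam om c x e + g e + cc om c x g e + ((1 / 2 : ℚ) • cc om c g g) e ∧
      cc om c (bch N c x g - x - g) y e = 0 ∧ cc om c y (bch N c x g - x - g) e = 0 ∧
      cc om c (br c x g) y e = 0 ∧ cc om c y (br c x g) e = 0

/-- The homogeneous constants modulo negligible sequences. -/
noncomputable def cq {κ : Type} {M : ℕ → ℕ} (hM : Big M) (om : κ → ℝ × ℝ)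
    {c : ℕ → κ → κ → κ → ℝ} (h : ∀ a b e, OB M fun n => c n a b e) :
    κ → κ → κ → OO hM ⧸ ng hM :=
  cH om fun a b e => Ideal.Quotient.mk (ng hM) ⟨fun n => c n a b e, h a b e⟩

/-- They form a graded Lie algebra, with central mixed indices in the terminal case. -/
def TL2 : Prop := ∀ (ι κ : Type) [Fintype ι] [DecidableEq ι] [Fintype κ] (M : ℕ → ℕ)
  (Φ : Filt (Mt ι)) (om : κ → ℝ × ℝ) (pos : κ → Prop) (B : ℕ → κ → Mt ι)
  (c : ℕ → κ → κ → κ → ℝ) (h : Alg M Φ om pos B c), GrL om (cq h.big om h.ob) ∧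
    (Term om → (∀ f, Mx om f → ∀ b e, cq h.big om h.ob f b e = 0) ∧
      ∀ f, Mx om f → Cen M om c f)

/-- The group law in the terminal case, up to negligible errors. -/
def TLaw : Prop := ∀ (ι κ : Type) [Fintype ι] [DecidableEq ι] [Fintype κ] (M : ℕ → ℕ)
  (Φ : Filt (Mt ι)) (om : κ → ℝ × ℝ) (pos : κ → Prop) (B : ℕ → κ → Mt ι)
  (c : ℕ → κ → κ → κ → ℝ) (L : ℕ → ℝ), Alg M Φ om pos B c → Term om → Sub M L →
  ∀ K : ℝ, ∀ᶠ n in UF, ∀ x g y : κ → ℝ, ‖x‖ ≤ L n → ‖g‖ ≤ L n → ‖y‖ ≤ L n → ∀ e, Mx om e →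
    |gam om (c n) (bch Φ.N (c n) x g) e - (gam om (c n) x e + g e + cc om (c n) x g e +
      1 / 2 * cc om (c n) g g e)| ≤ dl M K n ∧
    |cc om (c n) (bch Φ.N (c n) x g - x - g) y e| ≤ dl M K n ∧
    |cc om (c n) y (bch Φ.N (c n) x g - x - g) e| ≤ dl M K n ∧
    |cc om (c n) (br (c n) x g) y e| ≤ dl M K n ∧ |cc om (c n) y (br (c n) x g) e| ≤ dl M K n

/-- The pure parts move by the pure parts of the increment; indices without brackets are
additive. -/
def TLip : Prop := ∀ (ι κ : Type) [Fintype ι] [DecidableEq ι] [Fintype κ] (M : ℕ → ℕ)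
  (Φ : Filt (Mt ι)) (om : κ → ℝ × ℝ) (pos : κ → Prop) (B : ℕ → κ → Mt ι)
  (c : ℕ → κ → κ → κ → ℝ) (L : ℕ → ℝ), Alg M Φ om pos B c → Sub M L →
  ∃ L', Sub M L' ∧ ∀ K : ℝ, ∀ᶠ n in UF, ∀ x g : κ → ℝ, ‖x‖ ≤ L n → ‖g‖ ≤ L n →
    ‖p1 om (bch Φ.N (c n) x g - x)‖ ≤ L' n * ‖p1 om g‖ + dl M K n ∧
    ‖p2 om (bch Φ.N (c n) x g - x)‖ ≤ L' n * ‖p2 om g‖ + dl M K n ∧
    ‖p1 om g‖ ≤ L' n * ‖p1 om (bch Φ.N (c n) x g - x)‖ + dl M K n ∧
    ‖p2 om g‖ ≤ L' n * ‖p2 om (bch Φ.N (c n) x g - x)‖ + dl M K n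

/-- Indices without brackets are additive. -/
def TAdd : Prop := ∀ (ι κ : Type) [Fintype ι] [DecidableEq ι] [Fintype κ] (M : ℕ → ℕ)
  (Φ : Filt (Mt ι)) (om : κ → ℝ × ℝ) (pos : κ → Prop) (B : ℕ → κ → Mt ι)
  (c : ℕ → κ → κ → κ → ℝ) (L : ℕ → ℝ) (a : κ), Alg M Φ om pos B c → Sub M L →
  (∀ b b', Neg M fun n => c n b b' a) →
  ∀ K : ℝ, ∀ᶠ n in UF, ∀ x g : κ → ℝ, ‖x‖ ≤ L n → ‖g‖ ≤ L n →
    |bch Φ.N (c n) x g a - x a - g a| ≤ dl M K n

/-- In the terminal case a mixed index occurs in a bracket of pure indices. -/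
def TGen : Prop := ∀ (ι κ : Type) [Fintype ι] [DecidableEq ι] [Fintype κ] (M : ℕ → ℕ)
  (Φ : Filt (Mt ι)) (om : κ → ℝ × ℝ) (pos : κ → Prop) (B : ℕ → κ → Mt ι)
  (c : ℕ → κ → κ → κ → ℝ) (e : κ), Alg M Φ om pos B c → Term om → Mx om e →
  ¬∀ a b, P1 om a → P2 om b → Hm om a b e → OS M fun n => c n a b e

/-- `bs` are additive positions, and the other pure indices have no bracket in the positions;
`sm` is the notion of smallness. -/
structure Adb {κ : Type} (sm : (ℕ → ℝ) → Prop) (om : κ → ℝ × ℝ) (pos bs : κ → Prop)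
    (c : ℕ → κ → κ → κ → ℝ) : Prop where
  mem : ∀ a, bs a → pos a ∧ (P1 om a ∨ P2 om a)
  add : ∀ a, bs a → ∀ b b', sm fun n => c n b b' a
  ker : ∀ a b e, P1 om a → P2 om b → ¬bs a → ¬bs b → Mx om e → pos e → sm fun n => c n a b e

/-- A basis with additive positions. -/
def TAdp : Prop := ∀ (ι κ : Type) [Fintype ι] [DecidableEq ι] [Fintype κ] [DecidableEq κ]
  (M : ℕ → ℕ) (Φ : Filt (Mt ι)) (om : κ → ℝ × ℝ) (pos : κ → Prop) (B : ℕ → κ → Mt ι)
  (c : ℕ → κ → κ → κ → ℝ), Alg M Φ om pos B c → Term om →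
  ∃ (A A' : ℕ → Matrix κ κ ℝ) (bs : κ → Prop), (∀ᶠ n in UF, A n * A' n = 1) ∧
    (∀ a e, OB M (fun n => A n a e) ∧ OB M fun n => A' n a e) ∧
    (∀ a e, om a ≠ om e ∨ (¬pos a ∧ pos e) →
      Neg M (fun n => A n a e) ∧ Neg M fun n => A' n a e) ∧
    Adb (OS M) om pos bs fun n => mC (A n) (A' n) (c n)

def OfTL1 : Prop := SFil → SHom → TL1
def OfTL2 : Prop := SMul → TL0 → TL2
def OfTLaw : Prop := SMap → SHom → TL1 → TL2 → TLaw
def OfTLip : Prop := SMap → SMul → SBox → SFil → SHom → TL2 → TLip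
def OfTAdd : Prop := SMap → SMul → SFil → TAdd
def OfTGen : Prop := SMul → TL2 → TGen
def OfTAdp : Prop := SMul → SFr → SChg → TLaw → TAdp

end Pool.Agent.MP_5168f5_an.AN.TL
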