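import Pool.Agent.MP_5168f5_an.AN.TASpec
import Pool.Agent.MP_5168f5_an.QA.HDefs

/-! Kakeya sets in all dimensions: systems with a marked index, definitions. -/

namespace Pool.Agent.MP_5168f5_an.AN.TG.TP

open H19 H17S H17F G39 GA Filter H61Z

/-- A system `y` whose context is fine, and the map `g` to the coarse context. -/
structure Sp (ι κ : Type) : Type 1 where
  y : Sy ι κ
  K : Type
  g : y.T → K

namespace Sp

variable {ι κ : Type} [Fintype ι] [DecidableEq ι] [Fintype κ] (p : Sp ι κ)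

/-- The system with the coarse context. -/
abbrev u : Sy ι κ :=
  ⟨p.y.Ω, p.K, p.y.P, p.y.j, fun ω => p.g (p.y.Θ ω), p.y.B, p.y.c, p.y.M⟩

/-- Pull back to a larger space. -/
abbrev pull {W : Type} (Q : FP W) (π : W → p.y.Ω) : Sp ι κ := ⟨p.y.pull Q π, p.K, p.g⟩

/-- Condition on an event. -/
noncomputable abbrev cond (E : p.y.Ω → Prop) : Sp ι κ := ⟨p.y.cond E, p.K, p.g⟩

/-- Add `b` to both contexts. -/
abbrev side {β : Type} (b : p.y.Ω → β) : Sp ι κ :=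
  ⟨p.y.side b, β × p.K, fun z => (z.1, p.g z.2)⟩

/-- Move the base to the absolute depth `D` and take the unit `m`. -/
noncomputable abbrev zm (D : κ → ℝ) (m : ℕ) : Sp ι κ := ⟨p.y.zm D m, p.K, p.g⟩

/-- Change the basis. -/
abbrev bas (A A' : Matrix κ κ ℝ) : Sp ι κ := ⟨p.y.bas A A', p.K, p.g⟩

end Sp

/-- The level that is `s` in the family `k` and `R` in the other family. -/
def lw (k : Bool) (s R : ℝ) : ℝ × ℝ := bif k then (s, R) else (R, s)

section Seq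

variable {ι κ : Type} [Fintype ι] [DecidableEq ι] [Fintype κ]

/-- The fine systems. -/
abbrev ys (p : ℕ → Sp ι κ) : ℕ → Sy ι κ := fun n => (p n).y

/-- The coarse systems. -/
abbrev us (p : ℕ → Sp ι κ) : ℕ → Sy ι κ := fun n => (p n).u

/-- The coordinate `t` seen from the cell of absolute depth `D`, in the unit `exp (-r)`. -/
noncomputable def tX (x : Sy ι κ) (t : κ) (D : κ → ℝ) (r : ℝ) (ω : x.Ω) : ℝ :=
  Real.exp r * x.co D (x.C D ω) ω t

/-- The iterated differences of the coordinate `t` are flat, with absolute parameters. -/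
def HtA (x : ℕ → Sy ι κ) (t : κ) (k : ℕ) (D : ℕ → κ → ℝ) (r s : ℕ → ℝ) : Prop :=
  QA.HT1 k (pr x) (fun n => tX (x n) t (D n) (r n)) (fun n => (x n).Z (D n)) (un x) s

/-- The same at the relative depth `d`, with deficiency `1 / (i + 1)`. -/
def HtAt (x : ℕ → Sy ι κ) (t : κ) (kf : ℕ → ℕ) (i : ℕ) (d : κ → ℝ) (r : ℝ) : Prop :=
  HtA x t (kf i) (fun n => sc (x n).M d) (fun n => r * (x n).M)
    fun n => (1 - 1 / (i + 1 : ℝ)) * r * (x n).M

/-- The coordinates in `S` other than `t` are full below the depth `d`. -/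
def FullM (x : ℕ → Sy ι κ) (t : κ) (d : κ → ℝ) (S : κ → Prop) (r : ℝ) : Prop :=
  Le (un x) (fun n => cd (fun a => S a ∧ a ≠ t) * r * (x n).M) fun n =>
    (x n).H (sc (x n).M d) (sc (x n).M (up d r S))

/-- The context determines the coordinate `t` to depth `K`. -/
def DetAt (x : ℕ → Sy ι κ) (t : κ) (K : ℝ) : Prop :=
  Sm (un x) fun n => (x n).H (sc (x n).M 0) (sc (x n).M (up 0 K fun a => a = t))

/-- The fine context has no information on the cell of depth `d'` given the cell of depth `d`. -/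
def IndAt (p : ℕ → Sp ι κ) (d d' : κ → ℝ) : Prop :=
  Le (un (ys p)) (fun n => (p n).u.H (sc (p n).y.M d) (sc (p n).y.M d')) fun n =>
    (p n).y.H (sc (p n).y.M d) (sc (p n).y.M d')

/-- The deterministic part of a marked system. -/
structure P0 (Φ : Filt (Mt ι)) (om : κ → ℝ × ℝ) (pos : κ → Prop) (t : κ) (x : ℕ → Sy ι κ) :
    Prop extends G0 Φ om pos x where
  tp : pos t
  tk : ¬Mx om t
  nt : ∀ a b, Neg (un x) fun n => (x n).c a b t

/-- The entropy part. -/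
structure EP (om : κ → ℝ × ℝ) (pos : κ → Prop) (t : κ) (p : ℕ → Sp ι κ) : Prop where
  det : ∀ K : ℝ, 0 ≤ K → DetAt (ys p) t K
  f : ∀ (k : Bool) (v : ℝ × ℝ) (r : ℝ), 0 ≤ v.1 → 0 ≤ v.2 → 0 ≤ r →
    FullM (ys p) t (dep om v) (fun a => pos a ∧ Pu om k a) r
  ind : ∀ (k : Bool) (s R : ℝ), Pu om k t → 0 ≤ s → 0 ≤ R →
    IndAt p (TA.dU om k s) (dep om (lw k s R))

/-- The same at rational parameters. -/
structure EPq (om : κ → ℝ × ℝ) (pos : κ → Prop) (t : κ) (p : ℕ → Sp ι κ) : Prop where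
  det : ∀ K : ℚ, 0 ≤ K → DetAt (ys p) t K
  f : ∀ (k : Bool) (v : ℚ × ℚ) (r : ℚ), 0 ≤ v.1 → 0 ≤ v.2 → 0 ≤ r →
    FullM (ys p) t (dep om (v.1, v.2)) (fun a => pos a ∧ Pu om k a) r
  ind : ∀ (k : Bool) (s R : ℚ), Pu om k t → 0 ≤ s → 0 ≤ R →
    IndAt p (TA.dU om k s) (dep om (lw k s R))

/-- The hypothesis on the marked coordinate. -/
def HP (om : κ → ℝ × ℝ) (t : κ) (kf : ℕ → ℕ) (x : ℕ → Sy ι κ) : Prop :=
  ∀ (i : ℕ) (v : ℝ × ℝ) (r : ℝ), 0 ≤ v.1 → 0 ≤ v.2 → 0 ≤ r → HtAt x t kf i (dep om v) r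

/-- The same at rational parameters. -/
def HPq (om : κ → ℝ × ℝ) (t : κ) (kf : ℕ → ℕ) (x : ℕ → Sy ι κ) : Prop :=
  ∀ (i : ℕ) (v : ℚ × ℚ) (r : ℚ), 0 ≤ v.1 → 0 ≤ v.2 → 0 ≤ r → HtAt x t kf i (dep om (v.1, v.2)) r

/-- A marked system. -/
structure GP (Φ : Filt (Mt ι)) (om : κ → ℝ × ℝ) (pos : κ → Prop) (t : κ) (kf : ℕ → ℕ) (C : ℝ)
    (p : ℕ → Sp ι κ) : Prop where
  p0 : P0 Φ om pos t (ys p)
  ac : GS Φ om (fun _ => False) C (us p)
  ep : EP om pos t p
  hp : HP om t kf (us p)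

/-- The positions other than `t` are full given the fine context. -/
def FullP (pos : κ → Prop) (t : κ) (p : ℕ → Sp ι κ) : Prop :=
  ∀ r : ℝ, 0 ≤ r → FullM (ys p) t 0 pos r

/-- The theorem for given weights and positions. -/
def ThmAtP (Φ : Filt (Mt ι)) (om : κ → ℝ × ℝ) (pos : κ → Prop) (t : κ) : Prop :=
  ∀ (kf : ℕ → ℕ) (C : ℝ) (p : ℕ → Sp ι κ), GP Φ om pos t kf C p → FullP pos t p

/-- The theorem for fewer positions. -/
def IH1P (Φ : Filt (Mt ι)) (pos : κ → Prop) (t : κ) : Prop :=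
  ∀ (om' : κ → ℝ × ℝ) (pos' : κ → Prop), cd pos' < cd pos → ThmAtP Φ om' pos' t

/-- The theorem for fewer mixed indices. -/
def IH2P (Φ : Filt (Mt ι)) (om : κ → ℝ × ℝ) (pos : κ → Prop) (t : κ) : Prop :=
  ∀ om' : κ → ℝ × ℝ, cd (Mx om') < cd (Mx om) → ThmAtP Φ om' pos t

/-- The entropy rate of the cells, plus the depth at `t`. -/
noncomputable def Hs (x : ℕ → Sy ι κ) (t : κ) (d : κ → ℝ) : ℝ := TA.Hx x d + d t

/-- The information rate of the fine context on the cells. -/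
noncomputable def Hi (p : ℕ → Sp ι κ) (d : κ → ℝ) : ℝ := TA.Hx (us p) d - TA.Hx (ys p) d

end Seq

/-- The theorem on marked systems. -/
def ThmGP : Prop := ∀ (ι κ : Type) [Fintype ι] [DecidableEq ι] [Fintype κ] (Φ : Filt (Mt ι))
  (om : κ → ℝ × ℝ) (pos : κ → Prop) (t : κ), ThmAtP Φ om pos t

end Pool.Agent.MP_5168f5_an.AN.TG.TP
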