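import Pool.Agent.MP_5168f5_an.AN.TPSpec
import Pool.Agent.MP_5168f5_an.AN.TGAll
import Pool.Agent.MP_5168f5_an.QA.HApi

/-! Kakeya sets in all dimensions: the marked coordinate in a larger cell and a finer unit. -/

namespace Pool.Agent.MP_5168f5_an.AN.TG.TP

open H19 H17S H17F G39 GA Filter H61Z

namespace TPHmA

open QA

/-- Near affine images with a slope that is bounded below only. -/
theorem fine {Ω T : Type} {P : FP Ω} {X Y b : Ω → ℝ} {K : Ω → T} {k : ℕ} {ε B L c : ℝ}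
    (h : Ht k P X K ε B) (hb : Fn P b K) (hL : 1 ≤ L) (hc : 1 ≤ L * |c|)
    (e : ∀ ω ∈ P.S, |Y ω - c * X ω - b ω| ≤ L) : Ht k P Y K ε ((6 * 2 ^ k * L ^ 2 + 1) * B) := by
  have hB := h.nonneg
  have c0 : 0 < |c| := by
    by_contra q
    nlinarith [abs_nonneg c]
  obtain ⟨G, a, d⟩ := h
  refine ⟨G, a, fun ω hω => (En.aff k (c := c) (b := b ω) (L := L + |c| + 1) (L' := 1 / |c|)
    (by linarith) (by positivity) (by rw [one_div_mul_cancel c0.ne']) (fun v hv _ => ?_)
    (d ω hω)).mono (mul_le_mul_of_nonneg_right ?_ hB)⟩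
  · obtain ⟨h1, h2⟩ := (MX.mem_cv hω v).1 hv
    have e3 := e v h1
    rw [← hb v h1 ω hω h2]
    have a1 : |c * (X v - ⌊X v⌋)| ≤ |c| := by
      rw [abs_mul]
      refine mul_le_of_le_one_right (abs_nonneg _) (abs_le.2 ⟨?_, ?_⟩) <;>
        linarith [Int.floor_le (X v), Int.lt_floor_add_one (X v)]
    rw [abs_le] at a1 e3 ⊢
    constructor <;> linarith [Int.floor_le (Y v), Int.lt_floor_add_one (Y v), a1.1, a1.2, e3.1, e3.2]
  · have a1 : (L + |c| + 1) * (1 / |c|) ≤ 3 * L ^ 2 := by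
      rw [mul_one_div, div_le_iff₀ c0]
      have a2 : L ≤ L ^ 2 * |c| := by nlinarith
      have a3 : |c| ≤ L ^ 2 * |c| := le_mul_of_one_le_left c0.le (one_le_pow₀ hL)
      linarith
    have := mul_le_mul_of_nonneg_left a1 (show (0 : ℝ) ≤ 2 * 2 ^ k by positivity)
    linarith

theorem fineS {Ω T : ℕ → Type} {P : ∀ n, FP (Ω n)} {X Y b : ∀ n, Ω n → ℝ} {K : ∀ n, Ω n → T n}
    {R : ℕ → ℕ} {s L c : ℕ → ℝ} {k : ℕ} (h : HT1 k P X K R s) (hR : Big R) (hL : Sub R L)
    (e : ∀ᶠ n in UF, Fn (P n) (b n) (K n) ∧ 1 ≤ L n * |c n| ∧ ∀ ω ∈ (P n).S,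
      |Y n ω - c n * X n ω - b n ω| ≤ L n) : HT1 k P Y K R s := by
  have hs := (((hL.pow 2).const_mul hR (C := 6 * 2 ^ k) (one_le_mul_of_one_le_of_one_le
    (by norm_num) (one_le_pow₀ one_le_two))).add (hR.sub le_rfl) hR).2
  refine h.tr zero_le_one fun η hη => ?_
  filter_upwards [e, hs η hη] with n a d ε B g
  exact (fine g a.1 (hL.1 n) a.2.1 a.2.2).mono (by linarith)
    (mul_le_mul_of_nonneg_right d g.nonneg)

/-- The rescaled constants are small when the constants are very small. -/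
theorem small {κ : Type} {c : κ → κ → κ → ℝ} {D : κ → ℝ} {A : ℝ} {a b t : κ}
    (h : |c a b t| ≤ Real.exp (-(4 * A))) (e : ∀ a, |D a| ≤ A) :
    |sC (rA D) c a b t| ≤ Real.exp (-A) := by
  have e1 : sC (rA D) c a b t = c a b t * Real.exp (-D a + -D b + D t) := by
    simp only [sC, rA, Real.exp_add, Real.exp_neg (D t)]
    rw [div_inv_eq_mul]; ring
  rw [e1, abs_mul, abs_of_pos (Real.exp_pos _)]
  refine (mul_le_mul_of_nonneg_right h (Real.exp_pos _).le).trans ?_
  rw [← Real.exp_add, Real.exp_le_exp]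
  linarith [abs_le.1 (e a), abs_le.1 (e b), abs_le.1 (e t)]

end TPHmA

open TPHmA in
theorem tpHm : SHm := by
  classical
  rintro ι κ _ _ _ Φ om pos x t k D D' r r' s g gd - ⟨A, hA⟩ led hr h
  have hM := g.alg.big
  obtain ⟨L0, hL0, e0⟩ := id gd
  obtain ⟨L2, hL2, e2⟩ := TGRefA.rad_le led
  obtain ⟨K, hK, hN⟩ := sNr Φ.N (Fintype.card κ)
  obtain ⟨K', -, hC⟩ := sCell Φ.N (Fintype.card κ)
  have s1 := hL0.mul hL2
  have sb := (sub_box hM s1 hK).mul s1
  obtain ⟨L', hL', e1⟩ := sLip _ _ Φ om pos x g.toG0 D _ gd ⟨A, hA.mono fun _ a => a.2⟩ sb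
  have s3 : Sub (un x) fun n => Real.exp (max 0 (D' n t + r' n - (D n t + r n))) :=
    Sub.exp (fun ε hε => (hr ε hε).mono fun n a => max_le (by positivity) (by linarith))
      fun _ => le_max_left _ _
  have h1 := QA.HT1.side h hM (K' := fun n => (x n).C (D n))
    ((sRef _ _ Φ om pos x g.toG0 D D' gd led).mono
      (Eventually.of_forall fun n => ch_anti (Fn.fst _ _)))
  refine (fineS h1 hM (hL'.mul s3) (c := fun n => Real.exp (D n t + r n - (D' n t + r' n)))
    (b := fun n ω => Real.exp (r n) * (GA.lg (x n).B ((x n).C (D n) ω) ((x n).C (D' n) ω) t /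
      rA (D n) t)) ?_).coarse (Eventually.of_forall fun n u _ v _ e => ?_)
  · filter_upwards [e0, e1 0, g.alg.fr, g.unit, hA,
      eventually_all.2 fun a => eventually_all.2 fun b => g.nt a b (4 * A)] with n a0 a1 fr un a2 nt
    refine ⟨fun u _ v _ e => ?_, ?_, fun ω hω => ?_⟩
    · obtain ⟨u1, u2⟩ := Prod.mk.inj e
      simp only [u1, (Prod.mk.inj u2).1]
    · rw [abs_of_pos (Real.exp_pos _), mul_assoc, ← Real.exp_add]
      exact one_le_mul_of_one_le_of_one_le (hL'.1 n)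
        (Real.one_le_exp (by linarith [le_max_right 0 (D' n t + r' n - (D n t + r n))]))
    have p0 : ∀ (D : κ → ℝ) a, 0 < rA D a := fun _ _ => Real.exp_pos _
    have c1 : ∀ D : κ → ℝ, Nr (x n).B (rA D) 1 ((x n).C D ω) ((x n).j ω) := fun D =>
      (hC _ _ Φ _ _ (rA D) (rA D) 1 rfl le_rfl fr le_rfl fun a => ⟨p0 _ a, (one_mul _).ge⟩).1 _
    have id1 := GACntA.idl_mono a0.2.1 (p0 _)
      (le_mul_of_one_le_right (hL0.pos n).le (hL2.1 n))
    have N := fun u v w => hN _ _ Φ _ _ _ _ _ 0 u v w rfl le_rfl fr (s1.1 n) le_rfl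
      (fun a => ⟨(p0 _ a).le, (p0 _ a).le⟩) id1 id1
    have c2 : Nr (x n).B (rA (D n)) (L0 n * L2 n) ((x n).C (D' n) ω) ((x n).j ω) :=
      GACntA.nr_mono (c1 _) fun a => (one_mul _).trans_le ((e2 n a).trans
        (mul_le_mul_of_nonneg_right (le_mul_of_one_le_left (hL2.pos n).le (hL0.1 n)) (p0 _ a).le))
    have c3 := (N _ _ _).2.1 (GACntA.nr_mono (c1 (D n)) fun a =>
      mul_le_mul_of_nonneg_right (s1.1 n) (p0 _ a).le) ((N _ _ ((x n).j ω)).1 c2)
    have c4 := (a1 _ _ _ (GACntA.nr_unit (c1 (D n)) (un ω hω))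
      (GACntA.nr_mono c3 fun a => mul_le_mul_of_nonneg_right
        (le_mul_of_one_le_right ((sub_box hM s1 hK).pos n).le (s1.1 n)) (p0 _ a).le)
      (GACntA.nr_mono c2 fun a => mul_le_mul_of_nonneg_right
        (le_mul_of_one_le_left (s1.pos n).le ((sub_box hM s1 hK).1 n)) (p0 _ a).le)).2
      (Pi.single t 1) (Real.exp (-(A * (x n).M))) (Real.exp_pos _).le
      (fun a => by by_cases q : a = t <;> simp [q]) fun a b => by
        simp only [Pi.single_apply, mul_ite, mul_one, mul_zero, Finset.sum_ite_eq',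
          Finset.mem_univ, if_true]
        exact small ((nt a b).trans_eq (by rw [dl, mul_assoc])) a2.2
    simp only [Pi.single_apply, ite_mul, one_mul, zero_mul, Finset.sum_ite_eq', Finset.mem_univ,
      if_true] at c4
    have e3 : Real.exp (D n t + r n - (D' n t + r' n)) * tX (x n) t (D' n) (r' n) ω =
        Real.exp (r n) * (GA.lg (x n).B ((x n).C (D' n) ω) ((x n).j ω) t / rA (D n) t) := by
      simp only [tX, TG.Sy.co, rA, Real.exp_add, Real.exp_sub, Real.exp_neg]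
      field_simp
    rw [e3, tX, TG.Sy.co, ← mul_sub, ← mul_sub, abs_mul, abs_of_pos (Real.exp_pos _),
      sub_right_comm]
    refine (mul_le_mul_of_nonneg_left c4 (Real.exp_pos _).le).trans ?_
    rw [mul_left_comm, ← Real.exp_add]
    exact mul_le_mul_of_nonneg_left (Real.exp_le_exp.2 ((by linarith [a2.1] : _ ≤ (0 : ℝ)).trans
      (le_max_left _ _))) (hL'.pos n).le
  · obtain ⟨u1, u2⟩ := Prod.mk.inj e
    exact Prod.ext u1 (Prod.mk.inj u2).2

end Pool.Agent.MP_5168f5_an.AN.TG.TP
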