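import Pool.Agent.MP_5168f5_an.AN.TPCore
import Pool.Agent.MP_5168f5_an.AN.TPHm
import Pool.Agent.MP_5168f5_an.AN.TPHs
import Pool.Agent.MP_5168f5_an.AN.TPCF
import Pool.Agent.MP_5168f5_an.AN.TPCond
import Pool.Agent.MP_5168f5_an.AN.TPSide
import Pool.Agent.MP_5168f5_an.AN.TPFrz
import Pool.Agent.MP_5168f5_an.AN.TPBas

/-! Kakeya sets in all dimensions: closure properties of systems with a marked index. -/

namespace Pool.Agent.MP_5168f5_an.AN.TG.TP

theorem kitP : KitP where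
  hm := tpHm
  hz := tpHz
  hs := tpHs tpHm
  ratE := tpRatE
  ratH := tpRatH tpHm
  cf := tpCF tpRatE (tpRatH tpHm)
  zm := tpZm tpHz (tpHs tpHm)
  pull := tpPull
  push := tpPush
  cond := tpCond
  side := tpSide
  frz := tpFrz tpCond tpRatE (tpRatH tpHm)
  bas := tpBas
  swap := tpSwap

end Pool.Agent.MP_5168f5_an.AN.TG.TP
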