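import Pool.Agent.MP_5168f5_an.AN.TPOvA

/-! Kakeya sets in all dimensions: a marked tangent with a deficiency and exact independence. -/

namespace Pool.Agent.MP_5168f5_an.AN.GO.OP

open H19 H17S H17F G39 GA Filter H61Z TG TG.TP R4

variable {ι κ : Type} [Fintype ι] [DecidableEq ι] [Fintype κ] {Φ : Filt (Mt ι)}
  {om : κ → ℝ × ℝ} {pos pos' : κ → Prop} {p : ℕ → Sp ι κ} {t : κ → ℝ} {τ : κ} {kf : ℕ → ℕ} {C : ℝ}

/-- The result of the first step. -/
structure SP (Φ : Filt (Mt ι)) (om : κ → ℝ × ℝ) (pos pos' : κ → Prop) (τ : κ) (kf : ℕ → ℕ) (C : ℝ)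
    (t : κ → ℝ) (r e : ℝ) (p : ℕ → Sp ι κ) : Prop where
  gs : GP Φ om pos τ kf C p
  gs' : GP Φ om pos' τ kf C p
  ov : Ovf (Neg (un (ys p))) (un (ys p)) om t fun n => (p n).y.c
  df : e ≤ df (Hs (ys p) τ) pos r 0
  ind : ∀ L : ℕ, mI (Hx (ys p)) 0 (th om L) (dep om (0, L)) ≤ 0
  dvd : ∀ K : ℕ, ∀ᶠ n in UF, (K + 1) ∣ (p n).y.M

theorem SP.sa {r e : ℝ} (h : SP Φ om pos pos' τ kf C t r e p) :
    SA Φ om (fun _ => False) (fun _ => False) C t 0 0 (us p) :=
  ⟨h.gs.ac, h.gs.ac, h.ov, by simp [GO.df, show GO.ind (fun _ : κ => False) 0 = 0 from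
    funext fun a => ind_neg id], fun L => (mI_u h.gs.p0 h.gs.ep (Nat.cast_nonneg L)).trans (h.ind L),
    h.dvd⟩

theorem stA (hZ : SZmP) (hC : SCFP) (h : GP Φ om pos τ kf C p) (h' : GP Φ om pos' τ kf C p)
    (ho : Ovf (OS (un (ys p))) (un (ys p)) om t fun n => (p n).y.c) (hn : ¬FullP pos τ p) :
    ∃ (y : ℕ → Sp ι κ) (r e : ℝ), 0 ≤ r ∧ 0 < e ∧ SP Φ om pos pos' τ kf C t r e y := by
  set x := ys p with hx
  have g : G0 Φ om pos x := h.p0.toG0
  have hA := g_ab g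
  have hP := g_pm g
  have hM := g.alg.big
  obtain ⟨R, hR, hn⟩ := not_forall₂.1 hn
  rw [fullM_iff g hR gd_zero (hA.gd_pos gd_zero hR), not_le] at hn
  obtain ⟨r0, e', C0, he', H⟩ := stepA hA (hs_pm h.p0 h.ep.det) hR hn le_rfl
  choose w0 hw0 H using fun k : ℕ => H k (1 / (k + 1)) (by positivity)
  let w : ℕ → ℝ := fun k => min (w0 k) (1 / (2 * (k + 1)))
  have wp : ∀ k, 0 < w k := fun k => lt_min (hw0 k) (by positivity)
  choose i j h1 h2 h3 h4 using fun k => H k (w k) (wp k) (min_le_left _ _)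
  obtain ⟨M0, s0, hO⟩ := goOV2 κ _ om t _ hM ho
  let m : ℕ → ℕ → ℕ := fun k n => k.factorial * (⌊w k * (x n).M⌋₊ / k.factorial)
  have um : ∀ k, Eqv (un x) (fun n => m k n) fun n => w k * (x n).M := fun k =>
    unit_fac hM (wp k) k.factorial_pos
  let y : ℕ → ℕ → Sp ι κ := fun k n =>
    (p n).zm (dep om (i k * w k * (x n).M, j k * w k * (x n).M)) (m k n)
  have aq : ∀ k, Aq (un x) (fun n => dep om (i k * w k * (x n).M, j k * w k * (x n).M))
      (dep om (i k * w k, j k * w k)) := fun k a => by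
    simp only [dep, add_mul, mul_assoc]; exact Eqv.rfl
  have ip : ∀ k, (0 : ℝ) ≤ i k * w k ∧ (0 : ℝ) ≤ j k * w k := fun k =>
    ⟨mul_nonneg (Nat.cast_nonneg _) (wp k).le, mul_nonneg (Nat.cast_nonneg _) (wp k).le⟩
  have gz : ∀ q k, GP Φ om q τ kf C p → GP Φ om q τ kf C (y k) := fun q k u =>
    hZ ι κ Φ om q τ kf C p u _ (m k) (w k / 2) (2 * w k) ⟨C0, Eventually.of_forall fun n => by
      have m0 : (0 : ℝ) ≤ (x n).M := Nat.cast_nonneg _
      exact ⟨mul_nonneg (ip k).1 m0, mul_le_mul_of_nonneg_right (h1 k) m0,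
        mul_nonneg (ip k).2 m0, mul_le_mul_of_nonneg_right (h2 k) m0⟩⟩
      (half_pos (wp k)) (unit_le (um k) (wp k))
  have gT : ∀ (z : ℕ → Sy ι κ) (L : ℝ), G0 Φ om pos z → 0 ≤ L → Gd om (Nx z) (th om L) :=
    fun z L u v => by
      have := (g_ab u).gd_th (x := (0, 0)) le_rfl le_rfl v
      rwa [show dep om (0, 0) + th om L = th om L from funext fun a => by simp [dep]] at this
  obtain ⟨k, hk⟩ := dg (S := fun _ => Sp ι κ) (J := ℕ × ℕ) (K := fun q z =>
      GP Φ om pos τ kf C z ∧ GP Φ om pos' τ kf C z ∧ Df pos r0 (e' + r0) (ys z) ∧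
      In (th om q.1) (dep om (0, q.1)) (1 / (q.2 + 1)) (ys z) ∧ Sm (un (ys z)) M0 ∧
      ∀ᶠ n in UF, (q.1 + 1) ∣ (z n).y.M ∧ ((z n).y.M : ℝ) ≤ 1 / (q.1 + 1) * (x n).M)
    (fun q => (hC ι κ Φ om pos τ kf C p).and ((hC ι κ Φ om pos' τ kf C p).and
      (((cf_Df _ _ _).comp fun _ z => Sp.y z).and (((cf_In _ _ _).comp fun _ z => Sp.y z).and
        ((cf_sm (S := fun _ => Sp ι κ) (fun _ z => z.y.M) fun n _ => M0 n).and
        (cf_ev (S := fun _ => Sp ι κ) fun n z =>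
          (q.1 + 1) ∣ z.y.M ∧ (z.y.M : ℝ) ≤ 1 / (q.1 + 1) * (x n).M)))))) y fun q => by
    filter_upwards [eventually_ge_atTop (q.1 + 1), eventually_ge_atTop q.2] with k k1 k2
    have q1 : (q.1 : ℝ) ≤ k := by exact_mod_cast (Nat.le_succ _).trans k1
    have q2 : (q.2 : ℝ) ≤ k := by exact_mod_cast k2
    have gd := hA.gd_dep (x := (i k * w k, j k * w k)) (ip k).1 (ip k).2
    have e1 : ∀ L : ℝ, dep om (i k * w k, j k * w k) + w k • dep om (0, L) =
        dep om (i k * w k, j k * w k + L * w k) := fun L => funext fun a => by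
      simp only [dep, Pi.add_apply, Pi.smul_apply, smul_eq_mul]; ring
    have g1 : ∀ L : ℕ, Gd om (Nx x) (dep om (i k * w k, j k * w k) + th om (L * w k)) := fun L =>
      hA.gd_th (ip k).1 (ip k).2 (mul_nonneg (Nat.cast_nonneg _) (wp k).le)
    have g2 : ∀ L : ℕ, Gd om (Nx x) (dep om (i k * w k, j k * w k + L * w k)) := fun L =>
      hA.gd_dep (ip k).1 (add_nonneg (ip k).2 (mul_nonneg (Nat.cast_nonneg _) (wp k).le))
    have q3 := mul_le_mul_of_nonneg_right q1 (wp k).le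
    refine ⟨gz _ k h, gz _ k h', df_zm g (wp k) (Nat.cast_nonneg _) (aq k) (um k) gd (by
        have := h3 k
        rw [df_hs, ind_pos h.p0.tp] at this
        linarith),
      in_zm g (wp k) (aq k) (um k) gd (by rw [smul_th]; exact g1 _) (by rw [e1]; exact g2 _)
        (gT x _ g (Nat.cast_nonneg _)).nn (hA.gd_dep le_rfl (Nat.cast_nonneg _)).nn ?_,
      TGZmA.le_unit (unit_le' (um k) (wp k)) s0, (unit_le (um k) (wp k)).mono fun n a =>
        ⟨(Nat.dvd_factorial (Nat.succ_pos _) k1).mul_right _, a.2.trans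
          (mul_le_mul_of_nonneg_right ?_ (Nat.cast_nonneg _))⟩⟩
    · rw [smul_th, e1]
      refine (mI_mono hP (g1 q.1) (g2 q.1) (g1 k) (g2 k) (fun a => add_le_add le_rfl ?_)
        (hA.dep_le (x := (_, _)) (x' := (_, _)) le_rfl (add_le_add le_rfl q3))).trans ((le_trans (by
          rw [mI_hs, le_add_iff_nonneg_right, sub_nonneg]
          exact le_min (le_add_of_nonneg_right (hA.th_nn (by have := wp k; positivity) τ))
            (hA.dep_le (x := (i k * w k, j k * w k)) (x' := (i k * w k, j k * w k + k * w k)) le_rfl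
              (le_add_of_nonneg_right (mul_nonneg (Nat.cast_nonneg _) (wp k).le)) τ)) (h4 k)).trans
          (mul_le_mul_of_nonneg_right (one_div_le_one_div_of_le (by positivity) (by linarith))
            (wp k).le))
      unfold th; split_ifs
      exacts [mul_le_mul_of_nonneg_left q3 (hA.wt a).1, le_rfl]
    · have : w k ≤ 1 / (2 * (k + 1)) := min_le_right _ _
      rw [le_div_iff₀ (by positivity)] at this ⊢
      nlinarith [wp k]
  have gy := (hk (0, 0)).1.p0.toG0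
  refine ⟨fun n => y (k n) n, r0, e', Nat.cast_nonneg _, he', (hk (0, 0)).1, (hk (0, 0)).2.1,
    hO _ _ (hk (0, 0)).2.2.2.2.1 (fun ε hε => ?_) fun n a b e u => ?_,
    by rw [df_hs, ind_pos h.p0.tp]; linarith [(hk (0, 0)).2.2.1.le gy (Nat.cast_nonneg _)],
    fun L => le_of_forall_pos_le_add fun ε hε => ?_,
    fun K => (hk (K, 0)).2.2.2.2.2.mono fun n a => a.1⟩
  · obtain ⟨q, hq⟩ := exists_nat_one_div_lt hε
    exact (hk (q, 0)).2.2.2.2.2.mono fun n a => by
      rw [zero_add]; exact a.2.trans (mul_le_mul_of_nonneg_right hq.le (Nat.cast_nonneg _))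
  · simp only [y, sC, rA, dep_hm u, neg_add, Real.exp_add]
    field_simp
  · obtain ⟨q, hq⟩ := exists_nat_one_div_lt hε
    rw [zero_add]
    exact ((hk (L, q)).2.2.2.1.le gy (gT _ _ gy (Nat.cast_nonneg _))
      ((g_ab gy).gd_dep le_rfl (Nat.cast_nonneg _))).trans hq.le

end Pool.Agent.MP_5168f5_an.AN.GO.OP
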