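import Pool.Agent.MP_5168f5_an.AN.TPOvB
import Pool.Agent.MP_5168f5_an.AN.TGAll

/-! Kakeya sets in all dimensions: the overfed tangent of a marked system. -/

namespace Pool.Agent.MP_5168f5_an.AN.GO.OP

open H19 H17S H17F G39 GA Filter H61Z TG TG.TP R4

variable {ι κ : Type} [Fintype ι] [DecidableEq ι] [Fintype κ] {Φ : Filt (Mt ι)}
  {om : κ → ℝ × ℝ} {pos pos' : κ → Prop} {p : ℕ → Sp ι κ} {t d d0 : κ → ℝ} {τ : κ} {kf : ℕ → ℕ}
  {C μ r e : ℝ}

theorem nat_full (hZ : SZmP) (h : GP Φ om pos τ kf C p) (IH : ThmAtP Φ om pos τ) {X : ℝ}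
    (hX : 0 ≤ X) (hr : 0 ≤ r) : df (Hs (ys p) τ) pos r (dep om (0, X)) ≤ 0 := by
  have h0 := h.p0.toG0
  have g := (g_ab h0).gd_dep (x := (0, X)) le_rfl hX
  have e1 : dep om (0, X) + (1 : ℝ) • (0 : κ → ℝ) = dep om (0, X) := by simp
  have := (fullM_zm (τ := τ) (S := pos) (d := 0) (d0 := dep om (0, X)) (m := un (ys p))
    (D := fun n => dep om (0, X * (p n).y.M)) h0 one_pos hr (fun a => by
      simp only [dep, mul_zero, zero_add, mul_assoc]; exact Eqv.rfl)
    (by simp only [one_mul]; exact Eqv.rfl) (e1.symm ▸ g)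
    (e1.symm ▸ (g_ab h0).gd_pos g (by positivity))).1 (IH kf C _ (hZ ι κ Φ om pos τ kf C p h
      (fun n => (0, X * (p n).y.M)) (un (ys p)) 1 1 ⟨X, Eventually.of_forall fun n =>
        ⟨le_rfl, by positivity, by positivity, le_rfl⟩⟩ one_pos
      (Eventually.of_forall fun n => ⟨(one_mul _).le, (one_mul _).ge⟩)) r hr)
  rwa [e1, mul_one] at this

/-- The marked coordinate in a tangent. -/
theorem ht_zm (hK : KitP) (h : GP Φ om pos τ kf C p) {m : ℕ → ℕ} {w η : ℝ} (hw : 0 < w)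
    (u : ∀ᶠ n in UF, (m n : ℝ) = w * (p n).y.M) {v : ℝ × ℝ} (h1 : 0 ≤ v.1) (h2 : 0 ≤ v.2)
    (hη : 0 ≤ η) (g : Gd om (Nx (ys p)) (d0 + w • d)) (l : d0 + w • d ≤ dep om v)
    (q : (d0 + w • d) τ = dep om v τ) (i : ℕ) :
    HtAt (us fun n => (p n).zm (TG.sc (p n).y.M d0) (m n)) τ kf i d η := by
  have m0 : ∀ n, (0 : ℝ) ≤ (p n).y.M := fun n => Nat.cast_nonneg _
  have e1 : ∀ n a, dep om (v.1 * (p n).y.M, v.2 * (p n).y.M) a = dep om v a * (p n).y.M :=
    fun n a => by simp only [dep]; ring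
  have H := hK.hs ι κ Φ om pos (us p) τ kf i (fun n => (v.1 * (p n).y.M, v.2 * (p n).y.M))
    (fun n => TG.sc (p n).y.M (d0 + w • d)) (fun n => η * w * (p n).y.M) (p_u h.p0) h.hp
    ⟨v.1 + v.2, Eventually.of_forall fun n => ⟨mul_nonneg h1 (m0 n), mul_le_mul_of_nonneg_right
      (by linarith) (m0 n), mul_nonneg h2 (m0 n), mul_le_mul_of_nonneg_right (by linarith) (m0 n)⟩⟩
    ⟨η * w, Eventually.of_forall fun n => ⟨by have := m0 n; positivity, le_rfl⟩⟩
    ((sGd ι κ Φ om pos (us p) (g_u h.p0.toG0)).1 _ g.id)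
    (Eventually.of_forall fun n a => ⟨mul_nonneg (g.nn a) (m0 n), by
      rw [e1]; exact mul_le_mul_of_nonneg_right (l a) (m0 n)⟩)
    (Le.of_le fun n => by rw [e1, ← q]; exact le_rfl)
  refine hK.hz ι κ Φ om pos (us p) τ (kf i) (fun n => TG.sc (p n).y.M d0) (fun n => TG.sc (m n) d)
    (fun n => η * m n) _ m (1 / w) (g_u h.p0.toG0) (u.mono fun n a => by
      rw [a, one_div, inv_mul_cancel_left₀ hw.ne']) fun ε hε => ?_
  filter_upwards [H ε hε, u] with n a b
  rw [show TG.sc (p n).y.M d0 + TG.sc (m n) d = TG.sc (p n).y.M (d0 + w • d) from funext fun i => by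
    simp only [TG.sc, Pi.add_apply, Pi.smul_apply, smul_eq_mul, b]; ring, b]
  simpa only [mul_assoc] using a

theorem neg_zm {M m : ℕ → ℕ} {c : ℕ → κ → κ → κ → ℝ} {D : ℕ → κ → ℝ} {K : ℝ} {a b e : κ}
    (h : Neg M fun n => c n a b e) (hm : ∀ n, m n ≤ M n) (h0 : ∀ n a, 0 ≤ D n a)
    (h1 : ∀ n, D n e ≤ K * M n) : Neg m fun n => sC (rA (D n)) (c n) a b e := fun T => by
  filter_upwards [h (|T| + K)] with n u
  have e1 : sC (rA (D n)) (c n) a b e = c n a b e * Real.exp (D n e - D n a - D n b) := by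
    simp only [sC, rA, Real.exp_sub, Real.exp_neg]; field_simp
  rw [e1, abs_mul, abs_of_pos (Real.exp_pos _)]
  refine (mul_le_mul_of_nonneg_right u (Real.exp_pos _).le).trans ?_
  have : (m n : ℝ) ≤ M n := by exact_mod_cast hm n
  simp only [dl, ← Real.exp_add, Real.exp_le_exp]
  nlinarith [h0 n a, h0 n b, h1 n, le_abs_self T, abs_nonneg T, Nat.cast_nonneg (α := ℝ) (m n)]

theorem stB (hK : KitP) (hT : Tw om μ t) (h : SP Φ om pos pos' τ kf C t r e p) (hr : 0 ≤ r)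
    (he : 0 < e) (hp : ∀ a, P1 om a ∨ Ex om μ a → (pos' a ↔ pos a)) (IH' : ThmAtP Φ om pos' τ)
    (IH : ThmAtP Φ (omN om μ t) pos τ) : False := by
  set x := ys p with hx
  have g : G0 Φ om pos x := h.gs.p0.toG0
  have hA := g_ab g
  have hA' : Ab om pos' (Nx x) := g_ab h.gs'.p0.toG0
  have hP := hs_pm h.gs.p0 h.gs.ep.det
  have cut := goCut sGd sLip
  obtain ⟨kt, hkt⟩ := P0.pu h.gs.p0
  have t0 := pu_t hT hkt
  have hM := g.alg.big
  obtain ⟨ν, γ, n0, n1, γ0, hν⟩ := exists_nu hA hT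
  obtain ⟨r0, m0, e', C0, w0, he', hw0, H⟩ := stepB hA hT h.ov.fil hP n0 n1 hr he h.df
  obtain ⟨CU, u1, hU⟩ := sU ι κ Φ om _ (us p) C h.gs.ac
  obtain ⟨M0, sM, hO⟩ := goOV3 sFr ι κ _ Φ om pos _ _ μ t g.alg hT h.ov
  obtain ⟨β, τ0, hτ⟩ := exists_gap t
  obtain ⟨m1, p1, q1⟩ := exists_lb (P1 om) (fun a => (om a).1) fun a u => u.1
  obtain ⟨r1, -, q2⟩ := exists_ub fun a => (om a).1 + (om a).2
  set s0 : ℝ := 1 / (m0 + 1) with hs0
  have s1 : 0 < s0 := by positivity
  have sg : 0 < μ - ν := sub_pos.2 n1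
  let w : ℕ → ℝ := fun K => 1 / (K + 1)
  have wp : ∀ K, 0 < w K := fun K => by positivity
  have ex : ∀ K, ∃ s : ℝ, s0 ≤ s ∧ s ≤ s0 + |C0| ∧ (w K ≤ w0 →
      e' * w K ≤ df (Hs x τ) pos (r0 * w K) (DD om t (s, s) ((μ - ν) * s))) := fun K => by
    by_cases c : w K ≤ w0
    · obtain ⟨i, a, b⟩ := H _ (wp K) c
      exact ⟨_, le_add_of_nonneg_right (mul_nonneg (Nat.cast_nonneg i) (wp K).le),
        add_le_add le_rfl (a.trans (le_abs_self _)), fun _ => b⟩
    · exact ⟨s0, le_rfl, le_add_of_nonneg_right (abs_nonneg _), fun a => absurd a c⟩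
  choose s a1 a2 a3 using ex
  let z : ℕ → ℕ → Sp ι κ := fun K n =>
    (p n).zm (TG.sc (x n).M (DD om t (s K, s K) ((μ - ν) * s K))) ((x n).M / (K + 1))
  have um : ∀ K, ∀ᶠ n in UF, (((x n).M / (K + 1) : ℕ) : ℝ) = w K * (x n).M := fun K =>
    (h.dvd K).mono fun n a => by
      rw [Nat.cast_div a (by positivity)]; simp only [w]; push_cast; ring
  have ue : ∀ K, Eqv (un x) (fun n => (((x n).M / (K + 1) : ℕ) : ℝ)) fun n => w K * (x n).M :=
    fun K => ⟨Le.of_ev ((um K).mono fun _ a => a.le), Le.of_ev ((um K).mono fun _ a => a.ge)⟩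
  obtain ⟨k, hk⟩ := dg (S := fun _ => Sp ι κ) (J := Bool × (ℚ × ℚ) × ℚ × ℚ × ℕ)
    (K := fun q y => (0 ≤ q.2.1.1 ∧ 0 ≤ q.2.1.2 ∧ 0 ≤ q.2.2.1 →
      FullM (ys y) τ (dep (omN om μ t) (q.2.1.1, q.2.1.2)) (fun a => pos a ∧ Pu (omN om μ t) q.1 a)
        q.2.2.1 ∧ DetAt (ys y) τ q.2.2.1 ∧
      HtAt (us y) τ kf q.2.2.2.2 (dep (omN om μ t) (q.2.1.1, q.2.1.2)) q.2.2.1 ∧
      IndAt y (TA.dU (omN om μ t) kt (bif kt then q.2.1.1 else q.2.1.2))
        (dep (omN om μ t) (q.2.1.1, q.2.1.2))) ∧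
      (0 ≤ q.2.1.1 ∧ 0 ≤ q.2.1.2 ∧ 0 < q.2.2.1 ∧ 0 ≤ q.2.2.2.1 →
      ACAt (us y) (dep (omN om μ t) (q.2.1.1, q.2.1.2)) (Pu (omN om μ t) q.1) (C + CU) q.2.2.1
        q.2.2.2.1) ∧ Df pos r0 (e' + r0) (ys y) ∧ Sm (un (ys y)) M0 ∧ Big (un (ys y)) ∧
      ∀ᶠ n in UF, (q.2.2.2.2 : ℝ) * (y n).y.M ≤ (μ - ν) * s0 * (x n).M)
    (fun q => (TGCFA.imp _ ((cf_fullM _ _ _ _).and ((cf_det _ _).and ((cf_ht _ _ _ _ _).and
      (cf_ind _ _))))).and ((TGCFA.imp _ ((TGCFA.ac _ _ _ _ _).comp fun _ z => Sp.u z)).and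
      (((cf_Df _ _ _).comp fun _ z => Sp.y z).and
        ((cf_sm (S := fun _ => Sp ι κ) (fun _ z => z.y.M) fun n _ => M0 n).and
        ((cf_big (S := fun _ => Sp ι κ) fun _ z => z.y.M).and (cf_ev (S := fun _ => Sp ι κ)
          fun n y => (q.2.2.2.2 : ℝ) * y.y.M ≤ (μ - ν) * s0 * (x n).M)))))) z
    fun ⟨b, ⟨y1, y2⟩, η, ρ, L⟩ => by
      filter_upwards [small 1 hw0, small (y2 : ℝ) (mul_pos n0 s1),
        small (-((μ - 1) * y1 + y2)) (half_pos (mul_pos sg s1)),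
        small (η : ℝ) (mul_pos τ0 (half_pos (mul_pos sg s1))), small (η : ℝ) (mul_pos p1 s1),
        small (r1 * (y1 + y2) : ℝ) (mul_pos γ0 s1), small (L : ℝ) (mul_pos sg s1),
        small (r1 * (y1 + y2) : ℝ) (mul_pos τ0 (mul_pos sg s1))] with K k1 k2 k3 k4 k5 k6 k7 k8
      change w K * _ ≤ _ at k1 k2 k3 k4 k5 k6 k7 k8
      have W := wp K
      have b1 := a1 K
      have b0 : 0 ≤ s K := by linarith
      have ed : DD om t (s K, s K) ((μ - ν) * s K) + w K • dep (omN om μ t) ((y1 : ℝ), (y2 : ℝ)) =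
          DD om t (s K + w K * y1, s K + w K * y2)
            ((μ - ν) * s K + w K * ((μ - 1) * y1 + y2)) :=
        funext fun a => (DD_shift (s K) _ (w K) ((y1 : ℝ), (y2 : ℝ)) a).symm
      have b2 := mul_le_mul_of_nonneg_left b1 sg.le
      have b3 := mul_le_mul_of_nonneg_left b1 n0.le
      have key : (0 : ℝ) ≤ y1 → (0 : ℝ) ≤ y2 → 0 ≤ s K + w K * y1 ∧ 0 ≤ s K + w K * y2 ∧
          0 ≤ (ν + 1) * s K + w K * y1 ∧
          (μ - ν) * s0 / 2 ≤ (μ - ν) * s K + w K * ((μ - 1) * y1 + y2) ∧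
          s K + w K * y2 ≤ (ν + 1) * s K + w K * y1 ∧ ∀ a, ¬P1 om a → ¬Ex om μ a →
            dep om (s K + w K * y1, s K + w K * y2) a ≤ (om a).2 * ((ν + 1) * s K + w K * y1) :=
        fun z1 z2 => by
          have c1 := mul_nonneg W.le z1
          have c2 := mul_nonneg W.le z2
          refine ⟨by linarith, by linarith, by positivity, by linarith, by linarith,
            fun a u v => ?_⟩
          by_cases c : om a = 0
          · simp [dep, c]
          have c3 := mul_le_mul_of_nonneg_right (hν a c u v) b0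
          have c4 := mul_le_mul_of_nonneg_left b1 γ0.le
          have c5 := mul_le_mul_of_nonneg_right (q2 a) (add_nonneg c1 c2)
          simp only [dep]
          nlinarith [mul_nonneg (hA.wt a).1 c2, mul_nonneg (hA.wt a).2 c1]
      have hσ : (μ - ν) * s K + w K * ((μ - 1) * y1 + y2) =
          μ * (s K + w K * y1) - ((ν + 1) * s K + w K * y1) + (s K + w K * y2) := by ring
      have g0 : Gd om (Nx x) (DD om t (s K, s K) ((μ - ν) * s K)) :=
        hA.gd_DD hT h.ov.fil b0 b0 (by positivity) (by nlinarith)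
      refine ⟨fun ⟨z1, z2, z3⟩ => ?_, fun ⟨z1, z2, z3, z4⟩ => ?_,
        df_zm g W (Nat.cast_nonneg _) (aq_sc _ _) (ue K) g0 (by
          have := a3 K (by linarith)
          rw [df_hs, ind_pos h.gs.p0.tp] at this
          linarith),
        TGZmA.le_unit (unit_le' (ue K) W) sM, TGZmA.big_unit (unit_le' (ue K) W) hM,
        (um K).mono fun n a => ?_⟩
      · have z1 : (0 : ℝ) ≤ y1 := by exact_mod_cast z1
        have z2 : (0 : ℝ) ≤ y2 := by exact_mod_cast z2
        have z3 : (0 : ℝ) ≤ η := by exact_mod_cast z3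
        obtain ⟨c1, c2, c3, c4, c5, c6⟩ := key z1 z2
        have c7 : 0 ≤ (μ - ν) * s K + w K * ((μ - 1) * y1 + y2) :=
          (half_pos (mul_pos sg s1)).le.trans c4
        have c8 : η * w K ≤ β * ((μ - ν) * s K + w K * ((μ - 1) * y1 + y2)) := by
          linarith [mul_le_mul_of_nonneg_left c4 τ0.le]
        have rw0 : 0 ≤ η * w K := by positivity
        have gD := hA.gd_DD (x := (s K + w K * y1, s K + w K * y2)) hT h.ov.fil c1 c2 c7
          (by rw [hσ]; linarith)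
        have ff : ∀ (b : Bool) (v : ℝ × ℝ), 0 ≤ v.1 → 0 ≤ v.2 →
            Gd om (Nx x) (dep om v + ind (fun a => pos a ∧ Pu om b a) (η * w K)) →
            df (Hs x τ) (fun a => pos a ∧ Pu om b a) (η * w K) (dep om v) ≤ 0 :=
          fun b v u u' gg => (fullM_iff g rw0 (hA.gd_dep u u') gg).1 (h.gs.ep.f b v _ u u' rw0)
        have lD : DD om t (s K + w K * y1, s K + w K * y2)
            ((μ - ν) * s K + w K * ((μ - 1) * y1 + y2)) ≤ dep om (s K + w K * y1, s K + w K * y2) :=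
          fun a => sub_le_self _ (mul_nonneg (hT.nn a) c7)
        refine ⟨?_, det_zm h.gs.p0 h.gs.ep.det W z3 (aq_sc _ _) (ue K) g0,
          ht_zm hK h.gs W (um K) (v := (s K + w K * y1, s K + w K * y2)) c1 c2 z3 (ed ▸ gD)
            (ed ▸ lD) (by rw [ed]; simp [DD, t0]) L, ?_⟩
        swap
        · obtain ⟨v, R, v0, R0, v1, v2, v3, v4⟩ : ∃ v R : ℝ, 0 ≤ v ∧ 0 ≤ R ∧ v ≤ y1 + y2 ∧
              (bif kt then (y1 : ℝ) else y2) = v ∧ ((y1 : ℝ), (y2 : ℝ)) = lw kt v R ∧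
              (s K + w K * y1, s K + w K * y2) = lw kt (s K + w K * v) (s K + w K * R) := by
            cases kt
            exacts [⟨y2, y1, z2, z1, by linarith, rfl, rfl, rfl⟩,
              ⟨y1, y2, z1, z2, by linarith, rfl, rfl, rfl⟩]
          have vw : 0 ≤ v * w K := by positivity
          have gU : Gd om (Nx x) (DD om t (s K, s K) ((μ - ν) * s K) +
              w K • TA.dU (omN om μ t) kt v) := by
            rw [smul_dU]
            refine gd_DU hA hT h.ov.fil g0 vw (by positivity) hτ q2 ?_ τ0.le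
            have := mul_le_mul_of_nonneg_left v1 (mul_nonneg W.le (Nat.cast_nonneg (α := ℝ) r1))
            nlinarith [mul_le_mul_of_nonneg_left b2 τ0.le]
          have sv : 0 ≤ s K + w K * v := by positivity
          refine ind_zm g W (aq_sc _ _) (ue K) (v2 ▸ gU) (ed ▸ gD)
            (by rw [v2, v3]; exact dU_le (ab_N hT) v0 R0) ?_
          rw [ed, v2]
          refine (hi_mono g gD (hA.gd_dep c1 c2) lD).trans ?_
          rw [v4]
          refine (hi_dep h.gs.p0 h.gs.ep hkt sv (by positivity)).trans (hi_mono g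
            (by simpa using gd_dU hA gd_zero sv) gU fun a => ?_)
          by_cases c : Pu om kt a
          · have c' : Pu (omN om μ t) kt a := by
              cases kt
              exacts [(hT.p2 a).2 c, (hT.p1 hA a).2 (Or.inl c)]
            simp only [TA.dU, if_pos c, if_pos c', Pi.add_apply, Pi.smul_apply, smul_eq_mul, DD, dep,
              omN_z (pu_t hT c), pu_t hT c]
            exact le_of_eq (by ring)
          · rw [TA.dU, if_neg c]; exact gU.nn a
        cases b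
        · refine (fullM_zm g W z3 (aq_sc _ _) (ue K) (ed ▸ gD) ?_).2 ?_
          · rw [ed, show (fun a => pos a ∧ Pu (omN om μ t) false a) = fun a => pos a ∧ P2 om a from
              funext fun a => propext (and_congr_right' (hT.p2 a))]
            exact hA.gd_p2 gD rw0
          · rw [ed]
            exact (full2 hA hT h.ov.fil hP rw0 c1 c2 c7 (by rw [hσ]; linarith)).trans
              (ff false _ c1 c2 (hA.gd_p2 (hA.gd_dep c1 c2) rw0))
        · refine (fullM_zm g W z3 (aq_sc _ _) (ue K) (ed ▸ gD) ?_).2 ?_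
          · rw [ed]; exact hA.gd_DD1 hT h.ov.fil gD rw0 c7 hτ c8
          · rw [ed]
            refine full1 hA hA' hT h.ov.fil hP hp rw0 c1 c2 c3 hσ c7 c5 hτ c8 (fun a u => ?_) c6
              (fun L => (mI_t L).trans (h.ind L)) (nat_full hK.zm h.gs' IH' c3 rw0)
              (ff true (_, _) c1 c3 (hA.gd_p1 (hA.gd_dep c1 c3) rw0))
            have := mul_le_mul (q1 a u) (show s0 ≤ s K + w K * y1 by
              linarith [mul_nonneg W.le z1]) s1.le u.1.le
            linarith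
      · have z1 : (0 : ℝ) ≤ y1 := by exact_mod_cast z1
        have z2 : (0 : ℝ) ≤ y2 := by exact_mod_cast z2
        have z3 : (0 : ℝ) < η := by exact_mod_cast z3
        have z4 : (0 : ℝ) ≤ ρ := by exact_mod_cast z4
        obtain ⟨c1, c2, c3, c4, c5, c6⟩ := key z1 z2
        refine acAt_zm (g_u g) W (um K) ?_
        rw [ed]
        exact ac_DD sGd sFin sToAC goSplit (goCA sGd sRef sSB cut) (goCB sGd sRef sRep cut goUx) hT
          h.sa u1 hU hσ c1 c2 c3
          ((half_pos (mul_pos sg s1)).le.trans c4) c5 c6 b (by positivity) (by positivity)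
      · change (L : ℝ) * (((x n).M / (K + 1) : ℕ) : ℝ) ≤ _
        rw [a, ← mul_assoc, mul_comm (L : ℝ)]
        exact mul_le_mul_of_nonneg_right k7 (Nat.cast_nonneg _)
  have k0 := hk (true, (0, 0), 0, 0, 0)
  have gy : G0 Φ (omN om μ t) pos (ys fun n => z (k n) n) := by
    refine ⟨?_, g.unit⟩
    have := hO (fun n => (x n).M / (k n + 1)) (fun n => (s (k n) * (x n).M, s (k n) * (x n).M))
      (fun n => (μ - ν) * s (k n) * (x n).M) (s0 + |C0| + 1) k0.2.2.2.2.1 k0.2.2.2.1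
      (Eventually.of_forall fun n => ?_) fun K => ?_
    · have e1 : ∀ n, (fun a => Real.exp (-(dep om (s (k n) * (x n).M, s (k n) * (x n).M) a -
          t a * ((μ - ν) * s (k n) * (x n).M)))) = rA (TG.sc (x n).M
            (DD om t (s (k n), s (k n)) ((μ - ν) * s (k n)))) := fun n => funext fun a => by
        simp only [rA, TG.sc, DD, dep]; congr 1; ring
      simpa only [e1] using this
    · have m0 : (0 : ℝ) ≤ (x n).M := Nat.cast_nonneg _
      have b0 : 0 ≤ s (k n) := s1.le.trans (a1 _)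
      have b1 : (((x n).M / (k n + 1) : ℕ) : ℝ) ≤ (x n).M := by exact_mod_cast Nat.div_le_self _ _
      have b2 := mul_le_mul_of_nonneg_right (a2 (k n)) m0
      have b3 := mul_nonneg (add_nonneg s1.le (abs_nonneg C0)) m0
      exact ⟨by linarith, by positivity, by linarith, by positivity, by linarith, by
        nlinarith [mul_nonneg n0.le (mul_nonneg b0 m0)]⟩
    · obtain ⟨L, hL⟩ := exists_nat_ge K
      exact (hk (true, (0, 0), 0, 0, L)).2.2.2.2.2.mono fun n a =>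
        (mul_le_mul_of_nonneg_right hL (Nat.cast_nonneg _)).trans (a.trans
          (mul_le_mul_of_nonneg_right (mul_le_mul_of_nonneg_left (a1 _) sg.le) (Nat.cast_nonneg _)))
  have py : P0 Φ (omN om μ t) pos τ (ys fun n => z (k n) n) := by
    refine ⟨gy, h.gs.p0.tp, fun c => h.gs.p0.tk ((hT.mx τ).1 c).1, fun a b =>
      neg_zm (K := r1 * (s0 + |C0|)) (h.gs.p0.nt a b) (fun n => Nat.div_le_self _ _)
        (fun n a => mul_nonneg ?_ (Nat.cast_nonneg _))
        fun n => mul_le_mul_of_nonneg_right ?_ (Nat.cast_nonneg _)⟩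
    · have b0 : 0 ≤ s (k n) := s1.le.trans (a1 _)
      exact (hA.gd_DD (x := (s (k n), s (k n))) hT h.ov.fil b0 b0 (by positivity)
        (by nlinarith)).nn a
    · have b0 : 0 ≤ s (k n) := s1.le.trans (a1 _)
      simp only [DD, dep, t0, zero_mul, sub_zero, ← add_mul]
      exact mul_le_mul (q2 τ) (a2 _) b0 (Nat.cast_nonneg _)
  have gs : GP Φ (omN om μ t) pos τ kf (C + CU) fun n => z (k n) n := by
    refine ⟨py, sRat ι κ Φ _ _ _ (C + CU) ⟨⟨⟨gy.alg.big, gy.alg.fr, gy.alg.wt, fun _ => False.elim,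
      gy.alg.ob, gy.alg.hom, fun _ _ _ _ _ => False.elim, gy.alg.gen⟩, gy.unit⟩,
      by linarith [h.gs.ac.one], fun b v r _ _ _ => Le.of_le fun n => ?_,
      fun b v η ρ u1 u2 u3 u4 => (hk (b, v, η, ρ, 0)).2.1 ⟨u1, u2, u3, u4⟩⟩,
      hK.ratE ι κ Φ _ pos τ kf C _ py ⟨fun K u => ((hk (true, (0, 0), K, 0, 0)).1
        ⟨le_rfl, le_rfl, u⟩).2.1, fun b v r u1 u2 u3 => ((hk (b, v, r, 0, 0)).1 ⟨u1, u2, u3⟩).1,
        fun b v R c u1 u2 => ?_⟩, hK.ratH ι κ Φ _ pos _ τ kf (p_u py)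
      fun i v r u1 u2 u3 => ((hk (true, v, r, 0, i)).1 ⟨u1, u2, u3⟩).2.2.1⟩
    · simp only [TG.cd, false_and, Finset.filter_false, Finset.card_empty, Nat.cast_zero, zero_mul]
      exact ch_nonneg _ _
    · rw [Pu, P1, P2, omN_z t0] at c
      cases kt <;> cases b
      · exact ((hk (true, (R, v), 0, 0, 0)).1 ⟨u2, u1, le_rfl⟩).2.2.2
      · exact absurd c.2 hkt.2.ne'
      · exact absurd hkt.2 c.2.ne'
      · exact ((hk (true, (v, R), 0, 0, 0)).1 ⟨u1, u2, le_rfl⟩).2.2.2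
  have f1 := (fullM_iff gy (Nat.cast_nonneg r0) gd_zero
    ((g_ab gy).gd_pos gd_zero (Nat.cast_nonneg _))).1 (IH _ _ _ gs r0 (Nat.cast_nonneg _))
  rw [df_hs, ind_pos h.gs.p0.tp] at f1
  linarith [k0.2.2.1.le gy (Nat.cast_nonneg _)]

end Pool.Agent.MP_5168f5_an.AN.GO.OP
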