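import Pool.Agent.MP_5168f5_an.AN.TAKit
import Pool.Agent.MP_5168f5_an.AN.TABAc2
import Pool.Agent.MP_5168f5_an.AN.TABDet
import Pool.Agent.MP_5168f5_an.AN.TACrd
import Pool.Agent.MP_5168f5_an.AN.TADetP
import Pool.Agent.MP_5168f5_an.AN.TADetF
import Pool.Agent.MP_5168f5_an.AN.TALnk

/-! Kakeya sets in all dimensions: the terminal case, small balls without fullness. -/

namespace Pool.Agent.MP_5168f5_an.AN.TG.TA

open H19 H17S H17F G39 GA TL Filter H61Z

def BAc1' : Prop := AllB fun _ κ _ _ _ Φ om pos x bs K => ∀ (pos0 : κ → Prop) (C : ℝ) (L : ℕ → ℝ),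
  GS Φ om pos0 C x → Sub (un x) L → TB.ACL (pr x) (fun n => (tm om pos (x n) bs K).O1)
    (fun n => (tm om pos (x n) bs K).u) (fun n l => ∃ (β : κ → ℝ) (k : κ), ‖β‖ ≤ 4 * L n ∧
      ∀ a, l a = ∑ b, β b * cT om pos bs (x n).c a b k) (un x)

def BAc2' : Prop := AllB fun _ κ _ _ _ Φ om pos x bs K => ∀ (pos0 : κ → Prop) (C : ℝ),
  GS Φ om pos0 C x →
  TB.ACL (pr x) (fun n => (tm om pos (x n) bs K).O2) (fun n => (tm om pos (x n) bs K).v)
    (fun n l => ∃ a k : κ, ∀ b, l b = cT om pos bs (x n).c a b k) (un x)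

open BAc1A in
theorem bAc1' : BAc1' := fun ι κ _ _ _ Φ om pos x hT hG bs K hA hK pos0 C L hS hL
    W Y' Q ρ Y l a η hlaw hη _ hf hmi => by
  classical
  have crd := rowCrd
  have bdet := rowBDet rowLnk rowDetP rowCrd rowDetF
  have hM : Big (un x) := hG.alg.big
  obtain ⟨L0, hL0, hc⟩ := crd ι κ Φ om pos x hT hG
  obtain ⟨K0, hK0, hbox⟩ := sBox Φ.N (Fintype.card κ)
  obtain ⟨_, -, hcell⟩ := sCell Φ.N (Fintype.card κ)
  let D : ℕ → κ → ℝ := fun n => sc (x n).M (dep om (lv true K))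
  have eD : (fun n => dep om ((0 : ℝ), K * (x n).M)) = D := by
    funext n i; simp only [D, sc, dep, lv, cond_true]; ring
  have sb : SB x D (Pu om true) C := eD ▸ kit.sb ι κ Φ om pos0 x C hS true
    (fun n => (0, K * (x n).M)) ⟨K, .of_forall fun n =>
      ⟨le_rfl, mul_nonneg hK.1 (Nat.cast_nonneg _), mul_nonneg hK.1 (Nat.cast_nonneg _), le_rfl⟩⟩
  have hr : ∀ n i, 0 < rA (D n) i ∧ rA (D n) i ≤ 1 := fun n i => ⟨Real.exp_pos _,
    Real.exp_le_one_iff.2 (neg_nonpos.2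
      (mul_nonneg (((wk hG).gt_lv true hK.1).nn i) (Nat.cast_nonneg _)))⟩
  have h1 : ∀ n i, P1 om i → rA (D n) i = 1 := fun n i u => by
    simp [D, rA, sc, dep, lv, u.2]
  have near : ∀ᶠ n in UF, ∀ y, Nr (x n).B (rA (D n)) 1 (cell (x n).B (rA (D n)) y) y :=
    hG.alg.fr.mono fun n f => (hcell ι κ Φ _ _ (rA (D n)) (rA (D n)) 1 rfl le_rfl f le_rfl
      fun i => ⟨(hr n i).1, (one_mul _).ge⟩).1
  have hR : Sub (un x) fun n => 4 * L n + (K0 * L0 n) ^ K0 + L0 n :=
    ((hL.const_mul hM (by norm_num)).add (sub_box hM hL0 hK0) hM).add hL0 hM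
  have hker : ∀ᶠ n in UF, ∀ i b e, P1 om i → P2 om b → ¬bs i → ¬bs b → CC om pos e →
      |(x n).c i b e| ≤ dl (un x) (2 * η + 1) n := by
    simp only [eventually_all]
    exact fun i b e u v u' v' w => hA.ker i b e u v u' v' w.2 w.1 _
  have key : ∀ᶠ n in UF, ∀ v ∈ (Q n).S, dl (un x) η n < ‖l n v‖ →
      Tst (x n).c (rA (D n)) (Pu om true) (dl (un x) (η / 2) n) (‖l n v‖⁻¹ • l n v) ∧
      (|∑ i, l n v i * p1 om (xc (x n) (ρ n v)) i - a n v| ≤ dl (un x) (2 * η) n →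
        |∑ i, (‖l n v‖⁻¹ • l n v) i * (x n).co (D n) ((x n).C (D n) (ρ n v)) (ρ n v) i -
          ‖l n v‖⁻¹ * (a n v - ∑ i, l n v i *
            GA.lg (x n).B (Cl (x n) 0 (ρ n v)) ((x n).C (D n) (ρ n v)) i)| ≤
          dl (un x) (η / 2) n) := by
    filter_upwards [hf, hc 0, hG.alg.fr, near, hker, big_dl hM 3 (half_pos hη),
      tLaw ι κ (un x) Φ om pos _ _ _ hG.alg hT hR (2 * η),
      sub_dl ((hR.mul hR).const_mul hM (C := 3 * (Fintype.card κ + 1) ^ 2)
        (by nlinarith [Nat.cast_nonneg (α := ℝ) (Fintype.card κ)])) one_pos]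
      with n f c fr nr ker h3 law hs v hv hn
    obtain ⟨β, k, hβ, hl⟩ := f.2 v hv
    obtain ⟨hx, -, ej, u0, -⟩ := c.2 _ ((hlaw n).mem hv)
    obtain ⟨g, hg, eg⟩ := nr ((x n).j (ρ n v))
    have p := (dl_pos _ _ _).trans hn
    have ck := cen hl p
    have l0 := hL0.1 n
    have l1 := hL.1 n
    have l2 := (sub_box hM hL0 hK0).1 n
    generalize hRn : 4 * L n + (K0 * L0 n) ^ K0 + L0 n = R at law hs
    have hβ' : ‖β‖ ≤ R := by linarith
    have R0 : 0 < R := by linarith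
    have hlin : ∀ z : κ → ℝ, ‖z‖ ≤ 3 * R → |cc om (x n).c z β k| ≤ dl (un x) (2 * η) n →
        |∑ i, l n v i * z i| ≤ 2 * dl (un x) (2 * η) n := fun z hz h => by
      have h' := lin (fun i b u v u' v' => ker i b k u v u' v' ck) (dl_pos _ _ _).le ck hl hβ' hz
      have q := dl_pos (un x) 1 n
      have q' := dl_pos (un x) (2 * η) n
      rw [le_inv_comm₀ (by positivity) q, ← one_div, le_div_iff₀ (by positivity)] at hs
      have N0 := Nat.cast_nonneg (α := ℝ) (Fintype.card κ)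
      have : (Fintype.card κ : ℝ) * (Fintype.card κ * (dl (un x) 1 n * (3 * R) * R)) ≤ 1 := by
        have : 0 ≤ dl (un x) 1 n * (3 * R * R) := by positivity
        nlinarith
      rw [dl_add] at h'
      have := abs_sub_abs_le_abs_sub (∑ i, l n v i * z i) (cc om (x n).c z β k)
      nlinarith
    have e3 : 3 * dl (un x) (2 * η) n ≤ dl (un x) (η / 2) n * ‖l n v‖ := by
      have q := dl_pos (un x) (η / 2) n
      rw [le_inv_comm₀ (by norm_num) q, ← one_div, le_div_iff₀ (by norm_num)] at h3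
      rw [show 2 * η = η / 2 + (η / 2 + η) by ring, dl_add, dl_add]
      have := mul_pos q (dl_pos (un x) η n)
      nlinarith
    have g1 : ‖g‖ ≤ 1 := (pi_norm_le_iff_of_nonneg zero_le_one).2 fun i =>
      (hg i).trans (by rw [one_mul]; exact (hr n i).2)
    have mu := sMul ι κ Φ _ _ fr
    refine ⟨tst (fun i b => ?_) (supp hl) (hr n) (h1 n) p, fun h => ?_⟩
    · have s : ∀ i : κ, ‖(Pi.single i 1 : κ → ℝ)‖ ≤ R := fun i => by
        rw [Pi.norm_single, norm_one]; linarith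
      have := (law _ _ β (s i) (s b) hβ' k ck.2).2.2.2.1
      rw [br_single] at this
      have := hlin _ ((pi_norm_le_iff_of_nonneg (by linarith)).2 fun e =>
        (c.1 i b e).trans (by linarith)) this
      linarith [dl_pos (un x) (2 * η) n]
    · obtain ⟨e1, e2, e3'⟩ := geo mu u0 (ej.symm.trans eg)
      have id : Idl (x n).c (fun _ => 1) (fun _ => 1) (L0 n) := fun i b e => by
        simpa using c.1 i b e
      have bx : ∀ z : κ → ℝ, ‖z‖ ≤ 1 → Bx (fun _ => 1) (L0 n) z := fun z hz i =>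
        ((norm_le_pi_norm z i).trans hz).trans (by linarith)
      have hy : ‖bch Φ.N (x n).c (xc (x n) (ρ n v)) (-g)‖ ≤ R :=
        (pi_norm_le_iff_of_nonneg (by linarith)).2 fun i =>
          ((hbox κ _ _ (fun _ => 1) (L0 n) 0 _ _ _ _ le_rfl l0 le_rfl
            (fun _ => ⟨zero_le_one, zero_le_one⟩) mu.anti id id (bx _ hx)
            (bx (-g) (by rwa [norm_neg])) (bx _ hx) (bx _ hx)).1 i).trans (by linarith)
      have := (law _ g β hy (by linarith) hβ' k ck.2).2.1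
      rw [e3'] at this
      have := hlin _ ((norm_sub_le _ _).trans
        ((add_le_add ((norm_sub_le _ _).trans (add_le_add hx hy)) g1).trans (by linarith))) this
      have e4 : GA.lg (x n).B ((x n).C (D n) (ρ n v)) ((x n).j (ρ n v)) = g :=
        (congrArg (GA.lg (x n).B _) eg).trans e2
      simp only [Sy.co, e4]
      rw [show GA.lg (x n).B (Cl (x n) 0 (ρ n v)) ((x n).C (D n) (ρ n v)) = _ from e1]
      exact ball (supp hl) (h1 n) p h this (by linarith)
  rcases ev_em fun n => ∃ w, Tst (x n).c (rA (D n)) (Pu om true) (dl (un x) (η / 2) n) w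
    with ex | no
  swap
  · exact Whp.of_ev ((key.and no).mono fun n h v hv _ =>
      not_lt.1 fun u => h.2 ⟨_, (h.1 v hv u).1⟩)
  let f : ∀ n, Y' n → (κ → ℝ) × ℝ := fun n y =>
    Classical.epsilon fun z => ∃ v ∈ (Q n).S, Y n v = y ∧ (l n v, a n v) = z
  have ef : ∀ᶠ n in UF, ∀ v ∈ (Q n).S, f n (Y n v) = (l n v, a n v) := hf.mono fun n h v hv => by
    obtain ⟨w, hw, e, e'⟩ := Classical.epsilon_spec
      (p := fun z => ∃ w ∈ (Q n).S, Y n w = Y n v ∧ (l n w, a n w) = z) ⟨_, v, hv, rfl, rfl⟩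
    exact e'.symm.trans (h.1 w hw v hv e)
  let O : ∀ n, (x n).Ω → A1 (x n) := fun n => (tm om pos (x n) bs K).O1
  have := sb W (fun n => Y' n × A1 (x n)) Q ρ (fun n v => (Y n v, O n (ρ n v))) (fun n b => b.2.1)
    (fun n b => if Tst (x n).c (rA (D n)) (Pu om true) (dl (un x) (η / 2) n)
        (‖(f n b.1).1‖⁻¹ • (f n b.1).1) then ‖(f n b.1).1‖⁻¹ • (f n b.1).1
      else Classical.epsilon (Tst (x n).c (rA (D n)) (Pu om true) (dl (un x) (η / 2) n)))
    (fun n b => ‖(f n b.1).1‖⁻¹ * ((f n b.1).2 - ∑ i, (f n b.1).1 i *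
      GA.lg (x n).B b.2.2.1.2.2.1 b.2.1 i)) (η / 2) 0 (half_pos hη) le_rfl
    ⟨.of_forall hlaw, fun _ => 1, hM.sub le_rfl, Whp.of_ev (near.mono fun n h v _ => h _)⟩
    (ex.mono fun n h v _ => by
      split_ifs with u
      exacts [u, Classical.epsilon_spec h])
    ((((bdet ι κ Φ om pos x hT hG bs K hA hK).1.add hmi).mono (.of_forall fun n =>
      mi_b (hlaw n) (Y n) (O n) (x n).j fun o => (o.1, o.2.1.2.2.2))).trans
      (Le.of_ev (.of_forall fun n => (zero_mul _).ge)))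
  intro ε hε
  filter_upwards [this ε hε, key, ef] with n h k e
  rw [mul_zero, zero_div, zero_add] at h
  refine (pb_mono fun v hv u => ?_).trans h
  obtain ⟨u1, u2⟩ := Classical.not_imp.1 u
  obtain ⟨k1, k2⟩ := k v hv (not_le.1 u2)
  simp only [e v hv, if_pos k1]
  exact k2 u1

open BAc2A in
theorem bAc2' : BAc2' := fun ι κ _ _ _ Φ om pos x hT hG bs K hA hK pos0 C hS => by
  have eD : (fun n => dep om (K * (x n).M, (0 : ℝ))) =
      fun n => sc (x n).M (dep om (lv false K)) := by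
    funext n i; simp only [sc, dep, lv, cond_false]; ring
  have k0 : ∀ n, 0 ≤ K * (x n).M := fun n => mul_nonneg hK.1 (Nat.cast_nonneg _)
  have sb := kit.sb ι κ Φ om pos0 x C hS false (fun n => (K * (x n).M, 0))
    ⟨K, .of_forall fun n => ⟨k0 n, le_rfl, le_rfl, k0 n⟩⟩
  rw [eD] at sb
  exact acl hG sb (fun n a => ⟨mul_nonneg (((wk hG).gt_lv false hK.1).nn a) (Nat.cast_nonneg _),
      fun u => by simp [sc, dep, lv, show (om a).1 = 0 from u.1]⟩)
    (O := fun n => (tm om pos (x n) bs K).O2) (fun _ o => o.1) (fun _ o => o.2.2.2.1)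
    (fun _ _ => rfl) (fun _ _ => rfl)
    (rowBDet rowLnk rowDetP rowCrd rowDetF ι κ Φ om pos x hT hG bs K hA hK).2.1
    (fun _ _ _ u => if_pos u) (gl hG hT hA)

end Pool.Agent.MP_5168f5_an.AN.TG.TA
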