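import Pool.Agent.MP_5168f5_an.AN.TLAll

/-! Kakeya sets in all dimensions: a basis with additive positions that keeps a marked index. -/

namespace Pool.Agent.MP_5168f5_an.AN.TL

open H19 H17S H17F G39 GA Filter H61Z Matrix

/-- The row and the column of the index `t` are those of the identity. -/
def Fx {κ : Type} [DecidableEq κ] (t : κ) (A : Matrix κ κ ℝ) : Prop :=
  ∀ a, A a t = (1 : Matrix κ κ ℝ) a t ∧ A t a = (1 : Matrix κ κ ℝ) t a

theorem Fx.mul {κ : Type} [Fintype κ] [DecidableEq κ] {t : κ} {A B : Matrix κ κ ℝ} (h : Fx t A)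
    (k : Fx t B) : Fx t (A * B) := fun a => by
  constructor
  · rw [mul_apply, ← (h a).1]; simp [(k _).1, one_apply]
  · rw [mul_apply, ← (k a).2]; simp [(h _).2, one_apply]

theorem fx_El {κ : Type} [DecidableEq κ] {t a : κ} (ν : ℝ) {w : κ → ℝ} (h : a ≠ t) (k : w t = 0) :
    Fx t (TLTAdpA.El ν a w) := fun x => by
  simp [TLTAdpA.El, vecMulVec_apply, k, h.symm]

/-- A basis with additive positions that keeps the marked index. -/
def TAdq : Prop := ∀ (ι κ : Type) [Fintype ι] [DecidableEq ι] [Fintype κ] [DecidableEq κ]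
  (M : ℕ → ℕ) (Φ : Filt (Mt ι)) (om : κ → ℝ × ℝ) (pos : κ → Prop) (B : ℕ → κ → Mt ι)
  (c : ℕ → κ → κ → κ → ℝ) (t : κ), Alg M Φ om pos B c → Term om → pos t → P1 om t ∨ P2 om t →
  (∀ a b, Neg M fun n => c n a b t) →
  ∃ (A A' : ℕ → Matrix κ κ ℝ) (bs : κ → Prop), (∀ᶠ n in UF, A n * A' n = 1) ∧
    (∀ a e, OB M (fun n => A n a e) ∧ OB M fun n => A' n a e) ∧
    (∀ a e, om a ≠ om e ∨ (¬pos a ∧ pos e) →
      Neg M (fun n => A n a e) ∧ Neg M fun n => A' n a e) ∧
    (∀ n, Fx t (A n) ∧ Fx t (A' n)) ∧ bs t ∧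
    Adb (OS M) om pos bs fun n => mC (A n) (A' n) (c n)

open TLTAdpA in
theorem tAdq : TAdq := by
  intro ι κ _ _ _ _ M Φ om pos B c t0 h hT q1 q2 q3
  have hC := sChg
  have hL := tLaw
  classical
  have hM := h.big
  suffices k : ∀ (bs : Finset κ) B c, Alg M Φ om pos B c → t0 ∈ bs →
      (∀ a b, Neg M fun n => c n a b t0) →
      (∀ a ∈ bs, pos a ∧ (P1 om a ∨ P2 om a)) → (∀ x y e, P1 om x → P2 om y → Mx om e →
        pos x ∧ x ∉ bs ∨ pos y ∧ y ∉ bs → OS M fun n => c n x y e) →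
      ∃ (A A' : ℕ → Matrix κ κ ℝ) (bs : κ → Prop), (∀ᶠ n in UF, A n * A' n = 1) ∧
        Pat M om pos A ∧ Pat M om pos A' ∧ (∀ n, Fx t0 (A n) ∧ Fx t0 (A' n)) ∧ bs t0 ∧
          Adb (OS M) om pos bs fun n => mC (A n) (A' n) (c n) by
    obtain ⟨A, A', bs, k1, k2, k3, k4⟩ := k (Finset.univ.filter fun a => pos a ∧
      (P1 om a ∨ P2 om a)) B c h (by simp [q1, q2]) q3 (by simp)
      fun x y e u v _ w => by simp [u, v] at w
    exact ⟨A, A', bs, k1, fun a e => ⟨k2.1 a e, k3.1 a e⟩,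
      fun a e u => ⟨k2.2 a e u, k3.2 a e u⟩, k4⟩
  clear q3 h B c
  intro bs
  induction bs using Finset.strongInduction with | _ bs ih
  intro B c h q4 q3 mem inv
  by_cases add : ∀ a ∈ bs, ∀ b b', OS M fun n => c n b b' a
  · have p : Pat M om pos fun _ => (1 : Matrix κ κ ℝ) := ⟨fun _ _ => ob_const hM _,
      fun a e u => neg_ev (Eventually.of_forall fun _ => one_apply_ne (by rintro rfl; tauto))⟩
    have e : ∀ n, mC 1 1 (c n) = c n := fun n => funext₂ fun x y => by
      rw [mC, vecMul_one, ← br_single (c n) x y]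
      congr 1 <;> exact funext fun _ => by simp [one_apply, Pi.single_apply, eq_comm]
    refine ⟨_, _, (· ∈ bs), Eventually.of_forall fun _ => one_mul _, p, p,
      fun _ => ⟨fun _ => ⟨rfl, rfl⟩, fun _ => ⟨rfl, rfl⟩⟩, q4, ?_⟩
    simp only [e]
    refine ⟨mem, add, fun x y e u v u' v' w w' => ?_⟩
    by_cases t : pos x ∨ pos y
    · exact inv x y e u v w (t.imp (⟨·, u'⟩) (⟨·, v'⟩))
    · exact (h.sub x y e (fun s => t (.inl s)) (fun s => t (.inr s)) w').os
  push Not at add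
  obtain ⟨a, ha, b, b', hn⟩ := add
  have hm : Hm om b b' a := by_contra fun k => hn (h.hom b b' a (h.live a (mem a ha).1) k).os
  obtain ⟨μ, hμ⟩ := exists_inv (hM := hM) (a := ⟨_, h.ob b b' a⟩) hn
  have at0 : a ≠ t0 := fun z => hn (z ▸ (q3 b b').os)
  obtain ⟨w, hw⟩ : ∃ w : ℕ → κ → ℝ, w = fun n e => if e = t0 then 0 else cH om (c n) b b' e :=
    ⟨_, rfl⟩
  have w0 : ∀ n, w n t0 = 0 := fun n => by rw [hw]; exact if_pos rfl
  have w2 : ∀ n e, e ≠ t0 → w n e = cH om (c n) b b' e := fun n e z => by rw [hw]; exact if_neg z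
  have w1 : ∀ e, OB M (fun n => w n e) ∧ (om a ≠ om e → ∀ n, w n e = 0) := fun e => by
    by_cases z : e = t0
    · simp only [z, w0]; exact ⟨ob_const hM 0, fun _ _ => trivial⟩
    · simp only [w2 _ e z]
      exact ⟨ob_cH hM (h.ob b b' e), fun k n => if_neg fun u => k (hm.2.2.trans u.2.2.symm)⟩
  have p1' := pat_El (ν := fun _ => 1) hM (ob_const hM 1) (mem a ha).1 w1
  have p2' := pat_El hM (ob_neg hM μ.2) (mem a ha).1 w1
  have e1 : ∀ᶠ n in UF, El 1 a (w n) * El (-μ.1 n) a (w n) = 1 :=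
    hμ.mono fun n u => El_mul (by rw [w2 n a at0]; exact (congrArg _ (if_pos hm)).trans u)
  have mx : ∀ e, Mx om e → om a ≠ om e ∧ om e ≠ 0 := fun e u =>
    ⟨fun k => (mem a ha).2.elim (fun v => u.2.ne' (k ▸ v.2)) fun v => u.1.ne' (k ▸ v.1),
      fun k => u.1.ne' (by rw [k]; rfl)⟩
  have cc1 : ∀ e, om e ≠ 0 → ∀ x y, OB M (fun n => cH om (c n) x y e) ∧
      Neg M fun n => c n x y e - cH om (c n) x y e := fun e u x y => ⟨ob_cH hM (h.ob x y e), by
    unfold cH
    split_ifs with k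
    · simpa using neg_zero
    · simpa using h.hom x y e u k⟩
  have row : ∀ (Q : κ → Prop), (∀ f, om f = om a → Q f) → (∀ f, Q f → om f ≠ 0) → ∀ f,
      OB M (fun n => w n f) ∧ Neg M fun n => w n f -
        if Q f then br (c n) (Pi.single b 1) (Pi.single b' 1) f else 0 := fun Q q1 q2 f => by
    refine ⟨(w1 f).1, ?_⟩
    simp only [br_single]
    by_cases z : f = t0
    · simp only [z, w0]
      split_ifs
      exacts [(q3 b b').neg.congr (Eventually.of_forall fun n => by ring), by simpa using neg_zero]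
    simp only [w2 _ f z]
    split_ifs with k
    · exact (cc1 f (q2 f k) b b').2.neg.congr (Eventually.of_forall fun n => by ring)
    · exact neg_ev (Eventually.of_forall fun n => by
        rw [sub_zero]; exact if_neg fun u => k (q1 f (u.2.2.trans hm.2.2.symm)))
  have un : ∀ (Q : κ → Prop) (y : κ), Q y → ∀ f,
      OB M (fun _ => Pi.single (M := fun _ => ℝ) y 1 f) ∧ Neg M fun _ =>
        Pi.single (M := fun _ => ℝ) y 1 f - if Q f then Pi.single (M := fun _ => ℝ) y 1 f else 0 :=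
    fun Q y q f => ⟨ob_const hM _, neg_ev (Eventually.of_forall fun _ => by
      by_cases k : f = y <;> simp [k, q])⟩
  have law := hL ι κ M Φ om pos B c (fun _ => 1) h hT (hM.sub le_rfl)
  have n1 : ∀ y : κ, ‖Pi.single (M := fun _ => ℝ) y 1‖ ≤ 1 := fun y => by simp [Pi.norm_single]
  obtain ⟨A, A', bs', k1, k2, k3, k5, k6, k4⟩ := ih (bs.erase a) (Finset.erase_ssubset ha) _ _
    (hC ι κ M Φ om pos B c _ _ h e1 (fun x e => ⟨p1'.1 x e, p2'.1 x e⟩)
      fun x e u => ⟨p1'.2 x e u, p2'.2 x e u⟩) (Finset.mem_erase.2 ⟨at0.symm, q4⟩)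
    (fun x y => by
      simp only [mC, vec_El _ _ at0.symm (w0 _), br]
      exact Neg.sum hM Finset.univ fun u _ => Neg.sum hM Finset.univ fun v _ =>
        ((q3 u v).mul (p1'.1 x u)).mul (p1'.1 y v))
    (fun x u => mem x (Finset.mem_of_mem_erase u))
    fun x y e u v t k => by
      have xy : x ≠ y := by rintro rfl; exact u.1.ne' v.1
      simp only [mC, vec_El _ _ (fun s : e = a => (mx e t).1 (s ▸ rfl)) ((w1 e).2 (mx e t).1 _)]
      by_cases ex : x = a
      · subst ex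
        simp only [El_self, El_ne _ _ xy.symm]
        exact (br_close hM (cc1 e (mx e t).2) (row (P1 om) (fun f s => by rwa [P1, s])
          fun f s r => s.1.ne' (by rw [r]; rfl)) (un _ y v) fun K =>
            (law K).mono fun n s => (s _ _ _ (n1 b) (n1 b') (n1 y) e t).2.2.2.1).os
      by_cases ey : y = a
      · subst ey
        simp only [El_self, El_ne _ _ xy]
        exact (br_close hM (cc1 e (mx e t).2) (un _ x u) (row (P2 om) (fun f s => by rwa [P2, s])
          fun f s r => s.2.ne' (by rw [r]; rfl)) fun K =>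
            (law K).mono fun n s => (s _ _ _ (n1 b) (n1 b') (n1 x) e t).2.2.2.2).os
      simp only [El_ne _ _ ex, El_ne _ _ ey, br_single]
      exact inv x y e u v t (by simpa [ex, ey] using k)
  refine ⟨_, _, bs', ?_, k2.mul hM p1', p2'.mul hM k3, fun n => ⟨(k5 n).1.mul (fx_El _ at0 (w0 n)),
    (fx_El _ at0 (w0 n)).mul (k5 n).2⟩, k6, by simpa only [mC_comp] using k4⟩
  filter_upwards [k1, e1] with n u v
  rw [mul_assoc, ← mul_assoc (El _ _ _), v, one_mul, u]

end Pool.Agent.MP_5168f5_an.AN.TL
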