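import Pool.Agent.MP_5168f5_an.AN.TABFul
import Pool.Agent.MP_5168f5_an.AN.TABDet
import Pool.Agent.MP_5168f5_an.AN.TACrd
import Pool.Agent.MP_5168f5_an.AN.TADetP
import Pool.Agent.MP_5168f5_an.AN.TADetF
import Pool.Agent.MP_5168f5_an.AN.TALnk

/-! Kakeya sets in all dimensions: the terminal case, fullness with a marked index. -/

namespace Pool.Agent.MP_5168f5_an.AN.TG.TA

open H19 H17S H17F G39 GA TL Filter H61Z BFulA

theorem arS {a b l m f g h i j z s : ℝ} (e : f ≤ g + h + i + j + z) : (b - s) * m * l - z ≤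
    (a - s) * l * m - f + (g - (a * l - b * l) * m) + (i - 0) + (h - 0) + (j - 0) := by linarith

variable {ι κ : Type} [Fintype ι] [DecidableEq ι] [Fintype κ] {Φ : Filt (Mt ι)}
  {om : κ → ℝ × ℝ} {pos bs : κ → Prop} {x : ℕ → Sy ι κ} {K : ℝ} {t : κ}

omit [Fintype ι] [DecidableEq ι] [Fintype κ] in
/-- A good depth may be raised on characters. -/
theorem id_up {d : κ → ℝ} {S : κ → Prop} {r : ℝ} (hr : 0 ≤ r)
    (hS : ∀ e, S e → ∀ a b, Neg (un x) fun n => (x n).c a b e)
    (h : Id (un x) (fun n => (x n).c) d d) :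
    Id (un x) (fun n => (x n).c) (up d r S) (up d r S) := fun a b e q => by
  by_cases s : S e
  · exact hS e s a b
  · refine h a b e ?_
    unfold up at q
    rw [if_neg s] at q
    split_ifs at q <;> linarith

theorem gd_id (h0 : G0 Φ om pos x) {d : κ → ℝ} (h : Id (un x) (fun n => (x n).c) d d) :
    Gd x fun n => sc (x n).M d := sIdR κ (un x) _ _ _ h0.alg.big h0.alg.ob h h fun _ => le_rfl

/-- A cell that is deep at a character determines the coordinate. -/
theorem detT (hT : Term om) (h0 : G0 Φ om pos x) (ht : ∀ a b, Neg (un x) fun n => (x n).c a b t)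
    {d : κ → ℝ} (g : Gd x fun n => sc (x n).M d) (hd : H17S.lg ≤ d t) {β : ℕ → Type}
    {Y : ∀ n, (x n).Ω → β n} (y1 : Sm (un x) fun n => ch (x n).P (Cl (x n) d) (Y n))
    (y0 : Sm (un x) fun n => ch (x n).P (Cl (x n) 0) (Y n)) :
    Sm (un x) fun n => ch (x n).P (fun ω => fl1 (x n).M (xc (x n) ω t)) (Y n) := by
  obtain ⟨L, l1, l2⟩ := rowCrd ι κ Φ om pos x hT h0
  obtain ⟨L', m1, m2⟩ := (rowDetP ι κ Φ om pos x h0 _ g).2
  have a := rowDetF Unit (pr x) (fun n ω => (Cl (x n) d ω, Cl (x n) 0 ω))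
    (fun n ω _ => xc (x n) ω t) (fun n _ => (x n).M) (un x) _ h0.alg.big
    (m1.const_mul h0.alg.big one_le_two) (by
    filter_upwards [l2 0, m2, tAdd ι κ (un x) Φ om pos _ _ L t h0.alg l1 ht H17S.lg]
      with n v1 v2 v3 ω hω ω' hω' e _
    simp only [Prod.mk.injEq] at e
    obtain ⟨w1, -, -, -, w2⟩ := v1.2 ω hω
    obtain ⟨z, a1, a2, a3, -⟩ := w2 ω' hω' e.2
    have L1 := m1.1 n
    have r2 : ((2 : ℝ) ^ (x n).M)⁻¹ = dl (un x) H17S.lg n := by
      rw [two_pow_eq, ← Real.exp_neg, dl, mul_comm]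
    have r6 := abs_le.1 (v3 _ z (w1.trans (l1.1 n)) a2)
    rw [← a3] at r6
    have r7 : 0 < dl (un x) H17S.lg n := Real.exp_pos _
    have r8 := abs_le.1 ((v2 ω hω ω' hω' z e.1 a1 t).trans
      (mul_le_mul_of_nonneg_left (dl_anti (un x) hd n) (by linarith)))
    rw [div_eq_mul_inv, r2, abs_le]
    constructor <;> nlinarith)
  refine (a.add (y1.add y0)).mono (Eventually.of_forall fun n => ?_)
  refine (ch_tri' _ _ fun ω => (Cl (x n) d ω, Cl (x n) 0 ω)).trans
    (add_le_add (ch_mono fun _ _ _ _ e => congrFun (congrArg Prod.fst e) ()) (ch_subadd _ _ _))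

/-- The marked coordinate is determined below every good depth. -/
theorem detZ (hT : Term om) (h0 : G0 Φ om pos x) (ht : ∀ a b, Neg (un x) fun n => (x n).c a b t)
    {d D : κ → ℝ} (g : GT om pos d) (gD : GT om pos D) (e : d ≤ D)
    (h : Sm (un x) fun n => ch (x n).P (Cl (x n) (up d H17S.lg (· = t))) (Zl (x n) d)) :
    Sm (un x) fun n => ch (x n).P (fun ω => fl1 (x n).M (xc (x n) ω t)) (Zl (x n) D) := by
  have z : ∀ {d' : κ → ℝ}, GT om pos d' → d' ≤ D →
      Sm (un x) fun n => ch (x n).P (Cl (x n) d') (Zl (x n) D) := fun u v =>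
    (BDetA.cel rowLnk hT h0 u gD v).mono (.of_forall fun _ => ch_anti (Fn.fst _ _))
  refine detT hT h0 ht (gd_id h0 (id_up lg_pos.le (fun e s => by rw [s]; exact ht)
    ((rowLnk ι κ Φ om pos x hT h0).1 d g).id)) (by simpa [up] using g.nn t)
    ((h.add (z g e)).mono (.of_forall fun n => (ch_tri' _ _ (Zl (x n) d)).trans
      (add_le_add le_rfl ?_))) (z gt_zero gD.nn)
  exact ch_le ((Fn.fst _ _).pair ((Fn.snd _ _).right _)) (Fn.rfl _)

/-- Fullness of the additive positions up to a defect `s`. -/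
theorem fulS (hT : Term om) (h0 : G0 Φ om pos x)
    (hb : Adb (Neg (un x)) om pos bs fun n => (x n).c) (hK : 0 ≤ K) (k : Bool) {s : ℝ}
    (c4 : Le (un x) (fun n => (cd (fun a => pos a ∧ Pu om k a) - s) * H17S.lg * (x n).M) fun n =>
      ch (x n).P (Cl (x n) (up (dep om (lv k K)) H17S.lg fun a => pos a ∧ Pu om k a))
        (Zl (x n) (dep om (lv k K))))
    {u : ∀ n, (x n).Ω → κ → ℝ} (hu : ∀ n ω a, Pu om k a → u n ω a = xc (x n) ω a)
    {A : ℕ → Type} {O : ∀ n, (x n).Ω → A n}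
    (hO : Sm (un x) fun n => ch (x n).P (O n) (Zl (x n) (dep om (lv k K)))) :
    Le (un x) (fun n => ((Bs om bs k).card - s) * (x n).M * H17S.lg) fun n =>
      ch (x n).P (fun ω => TB.prj (Bs om bs k) (flv (x n).M (u n ω))) (O n) := by
  have w := wk h0
  have gd := (rowLnk ι κ Φ om pos x hT h0).1
  have t1 := w.gt_lv k hK
  have i0 : Id (un x) (fun n => (x n).c) 0 0 := (gd _ gt_zero).id
  have i1 : Id (un x) (fun n => (x n).c) (dep om (lv k K)) (dep om (lv k K)) := (gd _ t1).id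
  have i2 : Id (un x) (fun n => (x n).c) (up (dep om (lv k K)) H17S.lg fun a => pos a ∧ Pu om k a)
      (up (dep om (lv k K)) H17S.lg fun a => pos a ∧ Pu om k a) :=
    (gd _ ((w.gt_up t1 lg_pos.le).2 k)).id
  have i3 := id_up (S := fun a => bs a ∧ Pu om k a) lg_pos.le (fun e s => hb.add e s.1) i1
  have c1 := (sCntW ι κ (un x) Φ om pos _ _ _ (pr x) (fun n => (x n).j) _ _ h0.alg h0.unit i3 i2
    (fun a => by
      have := lg_pos
      unfold up
      split_ifs with s s'
      exacts [le_rfl, absurd ⟨(hb.mem a s.1).1, s.2⟩ s', by linarith, le_rfl])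
    fun a e => by
      unfold up
      rw [if_neg fun s => pu_live s.2 e, if_neg fun s => pu_live s.2 e]).1
  have c2 := (sCntW ι κ (un x) Φ om pos _ _ _ (pr x) (fun n => (x n).j) _ _ h0.alg h0.unit i0 i1
    t1.nn fun a e => (t1.dead a e).symm).2
  have c3 := det rowDetP rowCrd hT h0 hb k (gd_id h0 i1) (gd_id h0 i3) hu
  refine Le.of5 c4 c1 c2 c3 hO (Eventually.of_forall fun n => ?_)
  have e := chain (x n).P (Cl (x n) (up (dep om (lv k K)) H17S.lg fun a => pos a ∧ Pu om k a))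
    (Cl (x n) (up (dep om (lv k K)) H17S.lg fun a => bs a ∧ Pu om k a))
    (fun ω => TB.prj (Bs om bs k) (flv (x n).M (u n ω))) (Cl (x n) 0) (Cl (x n) (dep om (lv k K)))
    (x n).Θ (O n)
  have e' : ((Bs om bs k).card : ℝ) = cd fun a => bs a ∧ Pu om k a := by
    unfold Bs cd; congr
  rw [sum_up, e']
  exact arS e

/-- Fullness of the additive positions without the marked one. -/
theorem fulT [DecidableEq κ] (hT : Term om) (h0 : G0 Φ om pos x)
    (hb : Adb (Neg (un x)) om pos bs fun n => (x n).c) (hK : 0 ≤ K) (k : Bool)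
    (ht : t ∈ Bs om bs k)
    (c4 : Le (un x) (fun n => (cd (fun a => pos a ∧ Pu om k a) - 1) * H17S.lg * (x n).M) fun n =>
      ch (x n).P (Cl (x n) (up (dep om (lv k K)) H17S.lg fun a => pos a ∧ Pu om k a))
        (Zl (x n) (dep om (lv k K))))
    (hd : Sm (un x) fun n =>
      ch (x n).P (fun ω => fl1 (x n).M (xc (x n) ω t)) (Zl (x n) (dep om (lv k K))))
    {u : ∀ n, (x n).Ω → κ → ℝ} (hu : ∀ n ω a, Pu om k a → u n ω a = xc (x n) ω a)
    {A : ℕ → Type} {O : ∀ n, (x n).Ω → A n}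
    (hO : Sm (un x) fun n => ch (x n).P (O n) (Zl (x n) (dep om (lv k K)))) :
    Le (un x) (fun n => ((Bs om bs k).erase t).card * (x n).M * H17S.lg) fun n =>
      ch (x n).P (fun ω => TB.prj ((Bs om bs k).erase t) (flv (x n).M (u n ω)))
        fun ω => (O n ω, fl1 (x n).M (u n ω t)) := by
  have pt : Pu om k t := by
    classical
    exact (Finset.mem_filter.1 ht).2.2
  have := fulS hT h0 hb hK k c4 hu (O := fun n ω => (O n ω, fl1 (x n).M (u n ω t)))
    ((hO.add hd).mono (.of_forall fun n => by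
      simp only [hu n _ t pt]; exact ch_subadd _ _ _))
  refine this.of_sub (.of_forall fun n => sub_le_sub (le_of_eq ?_) ?_)
  · rw [Finset.card_erase_of_mem ht, Nat.cast_pred (Finset.card_pos.2 ⟨t, ht⟩)]
  · refine ch_le (fun a _ b _ e => ?_) (Fn.rfl _)
    simp only [Prod.mk.injEq] at e
    funext i
    have := congrFun e.1 i
    by_cases q : i = t
    · simpa [TB.prj, flv, q, ht] using e.2.2
    · by_cases m : i ∈ Bs om bs k
      exacts [by simpa [TB.prj, q, m] using this, by simp [TB.prj, m]]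

end Pool.Agent.MP_5168f5_an.AN.TG.TA
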