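import Pool.Agent.MP_5168f5_an.AN.TABInd
import Pool.Agent.MP_5168f5_an.AN.TABDet
import Pool.Agent.MP_5168f5_an.AN.TACrd
import Pool.Agent.MP_5168f5_an.AN.TADetP
import Pool.Agent.MP_5168f5_an.AN.TADetF
import Pool.Agent.MP_5168f5_an.AN.TALnk

/-! Kakeya sets in all dimensions: the terminal case, independence with a finer context. -/

namespace Pool.Agent.MP_5168f5_an.AN.TG.TA

open H19 H17S H17F G39 GA TL Filter H61Z BIndA

/-- The transfer information with a finer context `T`. -/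
def TrQ : Prop := AllB fun _ _ _ _ _ _ om pos x bs K => ∀ (F : ℕ → Type) (T : ∀ n, (x n).Ω → F n),
  (∀ᶠ n in UF, Fn (x n).P (x n).Θ (T n)) →
  Sm (un x) (fun n => mi (x n).P (T n) (Cl (x n) (dep om (lv true K))) (Zl (x n) 0)) →
  Sm (un x) (fun n => mi (x n).P (Cl (x n) (dU om true K)) (Cl (x n) (dep om (lv true K)))
    fun ω => (Cl (x n) 0 ω, T n ω)) →
  Sm (un x) fun n => mi (x n).P (fun ω => ((tm om pos (x n) bs K).Pi ω, T n ω))
    (tm om pos (x n) bs K).O1 (tm om pos (x n) bs K).Vh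

theorem trQ : TrQ := by
  intro ι κ _ _ _ Φ om pos x hT g bs K hA hK F T f h1 h2
  obtain ⟨d1, -, -, -, d5⟩ := rowBDet rowLnk rowDetP rowCrd rowDetF ι κ Φ om pos x hT g bs K hA hK
  refine (((h1.add h2).add d1).add d5).mono (f.mono fun n f => ?_)
  have e1 := left (P := (x n).P) (fun ω => ((tm om pos (x n) bs K).Pi ω, T n ω))
    (fun ω => (T n ω, Cl (x n) (dU om true K) ω)) (tm om pos (x n) bs K).O1
    (tm om pos (x n) bs K).Vh (Fn.rfl _)
  have e2 : ch (x n).P (fun ω => ((tm om pos (x n) bs K).Pi ω, T n ω))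
      (fun ω => ((T n ω, Cl (x n) (dU om true K) ω), (tm om pos (x n) bs K).Vh ω)) ≤
      ch (x n).P (tm om pos (x n) bs K).Pi fun ω => (Cl (x n) (dU om true K) ω, vh om (x n) K ω) :=
    ch_le ((Fn.fst _ _).pair fun _ _ _ _ e => congrArg (fun z => z.2.1.1) e)
      fun _ _ _ _ e => congrArg (fun z => (z.1.2, z.2)) e
  have e3 : mi (x n).P (fun ω => (T n ω, Cl (x n) (dU om true K) ω)) (tm om pos (x n) bs K).O1
      (tm om pos (x n) bs K).Vh ≤ mi (x n).P (fun ω => (T n ω, Cl (x n) (dU om true K) ω))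
        (tm om pos (x n) bs K).O1 (Zl (x n) 0) :=
    mi_right (fun _ _ _ _ e => congrArg (fun z => z.2.2) e)
      (fun _ _ _ _ e => congrArg (fun z => z.1.2.1) e) (Fn.fst _ _)
  have e4 := right (fun ω => (T n ω, Cl (x n) (dU om true K) ω)) (tm om pos (x n) bs K).O1
    (Cl (x n) (dep om (lv true K))) (Zl (x n) 0) (zl (x n) (dep om (lv true K)))
  rw [mi_symm _ (Cl (x n) (dep om (lv true K))), mi_chain, mi_symm _ (T n),
    mi_symm _ (Cl (x n) (dU om true K))] at e4
  have e5 : mi (x n).P (Cl (x n) (dU om true K)) (Cl (x n) (dep om (lv true K)))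
      (fun ω => (T n ω, Zl (x n) 0 ω)) ≤ mi (x n).P (Cl (x n) (dU om true K))
        (Cl (x n) (dep om (lv true K))) fun ω => (Cl (x n) 0 ω, T n ω) :=
    mi_right (fun _ _ _ _ e => congrArg (fun z => (z.2.1, z.1)) e)
      (fun a ha b hb e => by
        have u : T n a = T n b := congrArg (fun z => z.2.2) e
        exact Prod.ext u (Prod.ext (congrArg (fun z => z.2.1) e) (f a ha b hb u))) (Fn.fst _ _)
  linarith

end Pool.Agent.MP_5168f5_an.AN.TG.TA
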