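import Pool.Agent.MP_5168f5_an.AN.TPDefs
import Pool.Agent.MP_5168f5_an.AN.TQFul
import Pool.Agent.MP_5168f5_an.AN.TQInd
import Pool.Agent.MP_5168f5_an.AN.TQAc
import Pool.Agent.MP_5168f5_an.AN.TABAc1
import Pool.Agent.MP_5168f5_an.QA.HApi

/-! Kakeya sets in all dimensions: marked systems, the data of the bilinear step. -/

namespace Pool.Agent.MP_5168f5_an.AN.TG.TP

open H19 H17S H17F G39 GA TL TA Filter H61Z

variable {ι κ : Type} [Fintype ι] [DecidableEq ι] [Fintype κ] {Φ : Filt (Mt ι)}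
  {om : κ → ℝ × ℝ} {pos bs : κ → Prop} {x : ℕ → Sy ι κ} {p : ℕ → Sp ι κ} {K C : ℝ} {t : κ}
  {kf : ℕ → ℕ}

/-- A character is additive along the cells. -/
theorem coT (hT : Term om) (h0 : G0 Φ om pos x) (ht : ∀ a b, Neg (un x) fun n => (x n).c a b t)
    {d : κ → ℝ} (hd : ∀ a, 0 ≤ d a) (K : ℝ) : ∀ᶠ n in UF, ∀ ω ∈ (x n).P.S,
    |xc (x n) ω t - GA.lg (x n).B (Cl (x n) d ω) ((x n).j ω) t -
      GA.lg (x n).B (Cl (x n) 0 ω) (Cl (x n) d ω) t| ≤ dl (un x) K n := by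
  obtain ⟨L, l1, l2⟩ := rowCrd ι κ Φ om pos x hT h0
  obtain ⟨_, -, hcell⟩ := sCell Φ.N (Fintype.card κ)
  filter_upwards [l2 0, h0.alg.fr, tAdd ι κ (un x) Φ om pos _ _ _ t h0.alg
    (h0.alg.big.sub le_rfl) ht K] with n c f ad ω hω
  have hr : ∀ i, 0 < rA (sc (x n).M d) i ∧ rA (sc (x n).M d) i ≤ 1 := fun i => ⟨Real.exp_pos _,
    Real.exp_le_one_iff.2 (neg_nonpos.2 (mul_nonneg (hd i) (Nat.cast_nonneg _)))⟩
  obtain ⟨g, hg, eg⟩ := (hcell ι κ Φ _ _ (rA (sc (x n).M d)) (rA (sc (x n).M d)) 1 rfl le_rfl f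
    le_rfl fun i => ⟨(hr i).1, (one_mul _).ge⟩).1 ((x n).j ω)
  obtain ⟨hx, -, ej, u0, -⟩ := c.2 ω hω
  have g1 : ‖g‖ ≤ 1 := (pi_norm_le_iff_of_nonneg zero_le_one).2 fun i =>
    (hg i).trans (by rw [one_mul]; exact (hr i).2)
  obtain ⟨e1, e2, -⟩ := BAc1A.geo (sMul ι κ Φ _ _ f) u0 (ej.symm.trans eg)
  have e4 : GA.lg (x n).B (Cl (x n) d ω) ((x n).j ω) = g :=
    (congrArg (GA.lg (x n).B _) eg).trans e2
  have := ad _ (-g) hx (by rwa [norm_neg])
  rw [e4, show GA.lg (x n).B (Cl (x n) 0 ω) (Cl (x n) d ω) = _ from e1, abs_sub_comm]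
  convert this using 2
  simp only [Pi.neg_apply]; ring


/-- The rounded coordinate has flat differences given any variable read from the cell. -/
theorem htO (hT : Term om) (h0 : G0 Φ om pos x) (ht : ∀ a b, Neg (un x) fun n => (x n).c a b t)
    {d : κ → ℝ} (g : GT om pos d) (dt : d t = 0) {k : ℕ} {s : ℕ → ℝ}
    (h : HtA x t k (fun n => sc (x n).M d) (fun n => H17S.lg * (x n).M) s) {A : ℕ → Type}
    {O : ∀ n, (x n).Ω → A n} (hO : Sm (un x) fun n => ch (x n).P (O n) (Zl (x n) d)) :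
    QA.HT1 k (pr x) (fun n ω => (fl1 (x n).M (xc (x n) ω t) : ℝ)) O (un x) s := by
  have hM := h0.alg.big
  have z : Sm (un x) fun n => ch (x n).P (Cl (x n) 0) (Zl (x n) d) :=
    (BDetA.cel rowLnk hT h0 gt_zero g g.nn).mono (.of_forall fun _ => ch_anti (Fn.fst _ _))
  refine ((QA.HT1.side h hM z).aff hM (hM.sub one_le_two) (c := fun _ _ => 1)
    (b := fun n ω => 2 ^ (x n).M * GA.lg (x n).B (Cl (x n) 0 ω) (Cl (x n) d ω) t) ?_).ctx hM
      (hO.mono (.of_forall fun _ => ch_anti (Fn.snd _ _)))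
  filter_upwards [coT hT h0 ht g.nn H17S.lg] with n c
  refine ⟨fun _ _ _ _ _ => rfl, fun a _ b _ e => ?_, fun ω hω => ⟨by simp, by simp, ?_⟩⟩
  · have e1 : Cl (x n) 0 a = Cl (x n) 0 b := congrArg Prod.fst e
    have e2 : Cl (x n) d a = Cl (x n) d b := congrArg (fun z => z.2.1) e
    simp only [e1, e2]
  · have r1 : tX (x n) t (sc (x n).M d) (H17S.lg * (x n).M) ω =
        2 ^ (x n).M * GA.lg (x n).B (Cl (x n) d ω) ((x n).j ω) t := by
      simp [tX, Sy.co, rA, sc, dt, two_pow_eq, mul_comm, Cl]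
    have r2 : (2 : ℝ) ^ (x n).M * dl (un x) H17S.lg n = 1 := by
      rw [two_pow_eq, dl, ← Real.exp_add, mul_comm, add_neg_cancel, Real.exp_zero]
    have r3 := abs_le.1 (c ω hω)
    have r4 : (0 : ℝ) < 2 ^ (x n).M := by positivity
    have r5 := Int.floor_le ((2 : ℝ) ^ (x n).M * xc (x n) ω t)
    have r6 := Int.lt_floor_add_one ((2 : ℝ) ^ (x n).M * xc (x n) ω t)
    rw [r1, one_mul, abs_le, fl1]
    constructor <;> nlinarith

theorem g0_u (h : G0 Φ om pos (ys p)) : G0 Φ om pos (us p) := ⟨h.alg, h.unit⟩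

theorem zl_u (q : Sp ι κ) (d : κ → ℝ) : Fn q.y.P (Zl q.u d) (Zl q.y d) := fun _ _ _ _ e =>
  congrArg (fun z : Mt ι × q.y.T => (z.1, q.g z.2)) e

theorem mi_u (q : Sp ι κ) (d d' : κ → ℝ) : mi q.u.P q.y.Θ (Cl q.u d') (Zl q.u d) - 0 ≤
    q.u.H (sc q.y.M d) (sc q.y.M d') - q.y.H (sc q.y.M d) (sc q.y.M d') := by
  have a : ch q.y.P (Cl q.y d') (Zl q.y d) ≤
      ch q.u.P (Cl q.u d') fun ω => (q.y.Θ ω, Zl q.u d ω) := ch_anti fun _ _ _ _ e =>
    congrArg (fun z : Mt ι × q.y.T => (z.2, z.1, q.g z.2)) e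
  rw [mi_symm, sub_zero]
  exact sub_le_sub_left a _

omit [Fintype ι] [DecidableEq ι] in
theorem cd_ne {S : κ → Prop} : (S t → cd (fun a => S a ∧ a ≠ t) = cd S - 1) ∧
    (¬S t → cd (fun a => S a ∧ a ≠ t) = cd S - 0) := by
  classical
  unfold cd
  refine ⟨fun h => ?_, fun h => ?_⟩
  · have m : t ∈ Finset.univ.filter S := by simpa using h
    rw [← Nat.cast_pred (Finset.card_pos.2 ⟨t, m⟩), ← Finset.card_erase_of_mem m]
    congr 2; ext a; simp [and_comm]
  · rw [sub_zero]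
    congr 2; ext a
    simpa using fun (u : S a) (e : a = t) => h (e ▸ u)

/-- The data of the bilinear step of a marked system. -/
noncomputable def tmP (om : κ → ℝ × ℝ) (pos : κ → Prop) (q : Sp ι κ) (bs : κ → Prop) (K : ℝ) :
    TB.Tm κ κ κ :=
  { tm om pos q.u bs K with
    A4 := (tm om pos q.u bs K).A4 × q.y.T
    Pi := fun ω => ((tm om pos q.u bs K).Pi ω, q.y.Θ ω) }

variable (h : GP Φ om pos t kf C p) (hT : Term om) (h1 : P1 om t)
  (hb : Adb (Neg (un (ys p))) om pos bs fun n => (p n).y.c) (bt : bs t) (hK : Kb om K)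

include h hT h1 hb hK

/-- The transfer information. -/
theorem trP (hI : Sm (un (ys p)) fun n => inD om (p n).y true K) :
    Sm (un (ys p)) fun n => mi (p n).y.P (tmP om pos (p n) bs K).Pi (tmP om pos (p n) bs K).O1
      (tmP om pos (p n) bs K).Vh := by
  have a := h.ep.ind true 0 K h1 le_rfl hK.1
  rw [show dU om true 0 = 0 from funext fun a => by simp [dU],
    show lw true 0 K = lv true K from rfl] at a
  exact trQ ι κ Φ om pos (us p) hT (g0_u h.p0.toG0) bs K hb hK _ (fun n => (p n).y.Θ)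
    (.of_forall fun n _ _ _ _ e => congrArg (p n).g e)
    (Le.of_sub a (.of_forall fun n => mi_u (p n) _ _)) hI

/-- Fullness of the second family. -/
theorem f2P : Le (un (ys p)) (fun n => (Bs om bs false).card * (p n).y.M * H17S.lg) fun n =>
    ch (p n).y.P (fun ω => TB.prj (Bs om bs false) (flv (p n).y.M (p2 om (xc (p n).y ω))))
      (tmP om pos (p n) bs K).O2 := by
  have b2 := (rowBDet rowLnk rowDetP rowCrd rowDetF ι κ Φ om pos (us p) hT (g0_u h.p0.toG0) bs K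
    hb hK).2.1
  have c := h.ep.f false (lv false K) H17S.lg hK.1 le_rfl lg_pos.le
  unfold FullM at c
  rw [cd_ne.2 fun u => h1.1.ne' u.2.1] at c
  have e := fulS hT h.p0.toG0 hb hK.1 false c (u := fun n ω => p2 om (xc (p n).y ω))
    (fun _ _ _ q => if_pos q) (b2.mono (.of_forall fun n => ch_anti (zl_u (p n) _)))
  rw [sub_zero] at e
  exact e

include bt in
/-- Fullness of the first family without the marked index. -/
theorem f1P : Le (un (ys p))
    (fun n => (TB.er (Bs om bs true) (some t)).card * (p n).y.M * H17S.lg) fun n => ch (p n).y.P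
      (fun ω => TB.prj (TB.er (Bs om bs true) (some t)) (flv (p n).y.M (p1 om (xc (p n).y ω))))
      fun ω => ((tmP om pos (p n) bs K).O1 ω, fl1 (p n).y.M (p1 om (xc (p n).y ω) t)) := by
  classical
  have b1 := (rowBDet rowLnk rowDetP rowCrd rowDetF ι κ Φ om pos (us p) hT (g0_u h.p0.toG0) bs K
    hb hK).1
  have c := h.ep.f true (lv true K) H17S.lg le_rfl hK.1 lg_pos.le
  unfold FullM at c
  rw [cd_ne.1 ⟨h.p0.tp, h1⟩] at c
  have g := (wk h.p0.toG0).gt_lv true hK.1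
  exact fulT hT h.p0.toG0 hb hK.1 true (by simpa [Bs] using ⟨bt, h1⟩) c
    (detZ hT h.p0.toG0 h.p0.nt gt_zero g g.nn (h.ep.det _ lg_pos.le)) (fun _ _ _ q => if_pos q)
    (b1.mono (.of_forall fun n => ch_anti (zl_u (p n) _)))

/-- Flat differences of the marked coordinate. -/
theorem htP (i : ℕ) : QA.HT1 (kf i) (pr (ys p))
    (fun n ω => 2 ^ (p n).y.M * TB.rd (p n).y.M (p1 om (xc (p n).y ω)) t)
    (fun n => (tmP om pos (p n) bs K).O1) (un (ys p))
    fun n => (1 - 1 / (i + 1 : ℝ)) * (p n).y.M * H17S.lg := by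
  have b1 := (rowBDet rowLnk rowDetP rowCrd rowDetF ι κ Φ om pos (us p) hT (g0_u h.p0.toG0) bs K
    hb hK).1
  have a := htO hT (g0_u h.p0.toG0) h.p0.nt ((wk h.p0.toG0).gt_lv true hK.1)
    (BFulA.dep_lv (k := true) h1 K) (h.hp i (lv true K) H17S.lg le_rfl hK.1 lg_pos.le) b1
  refine (a.mono (Le.of_le fun n => le_of_eq (by ring))).congr (.of_forall fun n ω _ => ?_)
  rw [TB.rd, mul_div_cancel₀ _ (by positivity), show p1 om (xc (p n).y ω) t = _ from if_pos h1]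
  rfl

end Pool.Agent.MP_5168f5_an.AN.TG.TP
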