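import Pool.Agent.MP_5168f5_an.AN.TRSpec

/-! Kakeya sets in all dimensions: the terminal case with a marked index, a deficient window. -/

namespace Pool.Agent.MP_5168f5_an.AN.TG.TP

open H19 H17S H17F G39 GA TL TA Filter H61Z

open Def1A in
theorem rowDefP : OfDefP := by
  intro zm pf ι κ _ _ _ Φ om pos t kf C p hT g nf
  have h0 := g.p0.toG0
  have W := wk h0
  obtain ⟨pm, z0, p1, p2⟩ := pf ι κ Φ om pos t kf C p hT g
  obtain ⟨r, hr⟩ := not_forall.1 (mt p2.2 nf)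
  obtain ⟨r0, hr⟩ := Classical.not_imp.1 hr
  obtain ⟨ρ, ρ0, ρ1, ρ2⟩ := ((eventually_gt_atTop (0 : ℝ)).and ((eventually_ge_atTop r).and
    (eventually_all.2 fun a => eventually_imp_distrib_left.2 fun e : Mx om a =>
      (tendsto_id.const_mul_atTop (W.tt_pos e)).eventually_ge_atTop r))).exists
  have a := pm.lip _ _ (W.gt_up gt_zero r0).1 (W.gt_dY ρ0.le le_rfl) (up_le ρ1 ρ2)
  have b := p1 0 ρ le_rfl le_rfl ρ0.le
  have gy := zm ι κ Φ om pos t kf C p hT g 0 ρ le_rfl le_rfl ρ0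
  obtain ⟨-, -, -, z⟩ := zmH0 ι κ Φ om pos _ hT h0 0 ρ le_rfl le_rfl ρ0
  have c := (z _).2.2 (W.gt_dY (K := 1) le_rfl zero_le_one)
  have d := (z _).2.2 (W.gt_dY (K := 1) zero_le_one le_rfl)
  have e := (WinA.jr lnk hT gy.p0.toG0).1
  have f : ∀ s, dY om pos ρ s t = ρ := fun _ => dF_pp ⟨g.p0.tp, g.p0.tk⟩ _ _
  rw [Finset.sum_sub_distrib, sum_dY, sum_up, Hs.eq_1 _ _ (dY om pos ρ ρ), f] at a
  rw [dep_zero, zero_add, ← dY_zero, z0, Hs, f] at b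
  rw [dep_zero, zero_add, smul_dY, mul_one] at c d
  rw [mul_zero] at c
  exact ⟨_, _, lt_of_mul_lt_mul_left (a := ρ) (by
    rw [mul_sub]; erw [c, d]; linarith [not_le.1 hr]) ρ0.le, gy, e⟩

end Pool.Agent.MP_5168f5_an.AN.TG.TP
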