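import Pool.Agent.MP_5168f5_an.AN.TRSpec

/-! Kakeya sets in all dimensions: the terminal case with a marked index, the minimal rate is
attained. -/

namespace Pool.Agent.MP_5168f5_an.AN.TG.TP

open H19 H17S H17F G39 GA TL TA Filter H61Z

open Min1A in
theorem rowMinP : OfMinP := by
  intro K ι κ _ _ _ Φ om pos t kf C p hT hp m hx
  obtain ⟨y, hy, o⟩ := (K.cf ι κ Φ om pos t kf C p).sup (fun _ z => -(JJ om pos z.y / z.y.M))
    (∑ a, ((dY om pos 1 1 ⊔ dY om pos 1 0) a - dY om pos 1 0 a) + 1) ⟨p, hp⟩ fun z hz => by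
      obtain ⟨r, r0, r1, e⟩ := rate lnk hT hz.p0.toG0
      filter_upwards [near hz.p0.alg.big e one_pos] with n a
      rw [abs_le]; constructor <;> linarith [a.1, a.2]
  obtain ⟨r, r0, -, e⟩ := rate lnk hT hy.p0.toG0
  have low : LowP Φ om pos t kf C r := fun z hz => by
    obtain ⟨s, -, -, e'⟩ := rate lnk hT hz.p0.toG0
    refine (rate_le (le_of_forall_pos_le_add fun ε hε => ?_)).trans e'.2
    have h3 : 0 < ε / 3 := by positivity
    obtain ⟨n, a, b, c⟩ := ((o z hz _ h3).and ((near hy.p0.alg.big e h3).and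
      (near hz.p0.alg.big e' h3))).exists
    linarith [b.1, c.2]
  exact ⟨r, y, r0, le_of_rate hp.p0.alg.big ((low p hp).trans hx), ⟨hy, e.1⟩, low⟩

end Pool.Agent.MP_5168f5_an.AN.TG.TP
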