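import Pool.Agent.MP_5168f5_an.AN.TRSpec

/-! Kakeya sets in all dimensions: the marked terminal case, the chain in one window. -/

namespace Pool.Agent.MP_5168f5_an.AN.TG.TP

open H19 H17S H17F G39 GA TL TA Filter H61Z
open R4 (Eqv)

theorem rowNGCP : OfNGCP := by
  intro win ι κ _ _ _ Φ om pos t kf C p hT g m K i A k b ρ w s' mn low hK hi hb hk r0 w0 r1 s1
  have h0 := g.p0.toG0
  obtain ⟨w1, w2⟩ := win ι κ Φ om pos t kf C p hT g m mn low
  set x := ys p with hx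
  have wk := wk h0
  have r2 := r1.trans s1
  have rw0 : 0 ≤ ρ + w := by linarith
  have wn := wk.wn_dg r0 w0 r2
  obtain ⟨-, -, -, L⟩ := lnk ι κ Φ om pos x hT h0
  obtain ⟨gz, uz, mz, Z⟩ := zmH0 ι κ Φ om pos x hT h0 (dg om ρ) w wn.t1 wn.t2 w0
  obtain ⟨w2, w3⟩ := w2 _ _ _ wn
  obtain ⟨db, c1⟩ := cD1 ι κ Φ om pos x hT h0 K i A k b ρ w s' hK hi hb hk r0 w0 r1 s1
  obtain ⟨q1, q2⟩ := rB ι κ Φ om pos x hT h0 i _ hi db ρ (ρ + w) r0 (by linarith) r2
  replace q2 := q2 (by linarith)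
  rw [add_sub_cancel_left] at q2
  have q3 := (uz _ _).1 (rB ι κ Φ om pos _ hT gz i (fun n ω => rw (x n).M w (b n ω)) hi db
    0 1 le_rfl zero_le_one le_rfl).1
  have gD := wk.gt_dg r0
  have g0 := wk.gt_dY (K := 1) le_rfl zero_le_one
  have g1 := wk.gt_dY (K := 1) zero_le_one le_rfl
  have gY := wk.gt_dY rw0 r2
  have gY0 := wk.gt_dY (K := 1) r0 (by linarith)
  have gE := gD.sup g0
  have gE' := (wk.gt_dg rw0).sup g0
  have cs : ∀ {f g : κ → ℝ}, (∀ a, PP om pos a → f a ≤ g a) → (∀ a, CC om pos a → f a ≤ g a) →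
      (∀ a, ¬pos a → f a ≤ g a) → f ≤ g := fun u v y a => (tri om pos a).elim (u a)
    fun z => z.elim (v a) (y a)
  have mo : ∀ {s t : ℝ}, s ≤ t → dY om pos 1 s ≤ dY om pos 1 t := fun h => cs
    (fun a e => by simp only [dY, dF_pp e, le_refl])
    (fun a e => by simpa only [dY, dF_cc e] using mul_le_mul_of_nonneg_left h (wk.tt_nn a))
    fun a e => by simp only [dY, dF_st e, le_refl]
  have le : ∀ s, dY om pos 1 s ≤ dep om (dg om s) ⊔ dY om pos 1 0 := fun s => cs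
    (fun a e => le_sup_of_le_right (by simp only [dY, dF_pp e, le_refl]))
    (fun a e => le_sup_of_le_left (by simp only [dY, dF_cc e, dep_dg, le_refl]))
    fun a e => le_sup_of_le_right (by simp only [dY, dF_st e, le_refl])
  have j1 := (L _ _ _ _ _ _ gY (gD.add (g1.smul w0.le)) gE (apx_sc x _) (Z _).2.1
    (apx_sc x _)).2.2.1 (cs
      (fun a e => le_sup_of_le_right (le_sup_of_le_right (by simp only [dY, dF_pp e, le_refl])))
      (fun a e => le_sup_of_le_left (by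
        simp only [dY, dF_cc e, Pi.add_apply, Pi.smul_apply, smul_eq_mul, dep_dg]; linarith))
      fun a e => le_sup_of_le_right (le_sup_of_le_right (by simp only [dY, dF_st e, le_refl])))
  have j2 := (L _ _ _ _ _ _ (gD.add (g0.smul w0.le)) gE gE (Z _).2.1 (apx_sc x _)
    (apx_sc x _)).2.2.1 (le_sup_of_le_left (cs
      (fun a e => le_sup_of_le_right (by simpa [dY, dF_pp e] using wn.pu a e))
      (fun a e => le_sup_of_le_left (by simp [dY, dF_cc e]))
      fun a e => le_sup_of_le_left (by simp [dY, dF_st e])))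
  have j3 := (L _ _ _ _ _ _ gD gE gE (apx_sc x _) (apx_sc x _) (apx_sc x _)).2.2.1
    (le_sup_of_le_left le_sup_left)
  have j4 := (L _ _ _ _ _ _ gY gE' gE' (apx_sc x _) (apx_sc x _) (apx_sc x _)).2.2.1
    (le_sup_of_le_left (le _))
  have j5 := (L _ _ _ _ _ _ gY0 gE gE (apx_sc x _) (apx_sc x _) (apx_sc x _)).2.2.1
    (le_sup_of_le_left (le _))
  have k1 := (L _ _ _ _ _ _ gY gY0 gY0 (apx_sc x _) (apx_sc x _) (apx_sc x _)).2.1.1
  have k2 := (L _ _ _ _ _ _ gY gE gE (apx_sc x _) (apx_sc x _) (apx_sc x _)).2.1.2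
  rw [sup_of_le_left (mo (by linarith)), w1 _ rw0 r2, w1 ρ r0 (by linarith)] at k1
  rw [sup_left_comm, sup_of_le_left (mo rw0), w3, le_antisymm (sup_le le_sup_left (le ρ))
    (sup_le_sup_left (mo r0) _)] at k2
  have m0 : 0 ≤ m := (Le.of_le (g := fun n => JJ om pos (x n)) fun n =>
    (zero_mul _).trans_le (ch_nonneg _ _)).trans mn |>.num h0.alg.big
  refine ((((((uz _ _).1 w2.2).trans (mz.1.smul m0)).add k1).add k2).add ((((((((((q3.add j1).add
    j2).add q2).add j3).add j4).add q1).add j5).add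
    (cD2 ι κ Φ om pos x hT h0 K _ hK rw0 r2).2).add c1).add
    (cD2 ι κ Φ om pos x hT h0 K ρ hK r0 (by linarith)).1)).of_sub (hk.mono fun n u => ?_)
  have y := NGCA.fin (P := (x n).P)
    (Cb (zw om (x n) (dg om ρ) w) i (fun ω => rw (x n).M w (b n ω)) (dQ om pos i 0 1))
    (Cl (zw om (x n) (dg om ρ) w) (dY om pos 1 0)) (Cl (zw om (x n) (dg om ρ) w) (dY om pos 1 1))
    (Cl (x n) (dY om pos 1 (ρ + w))) (Cl (x n) (dY om pos 1 ρ))
    (Cl (x n) (dep om (dg om ρ) ⊔ dY om pos 1 0)) (Cl (x n) (dep om (dg om (ρ + w)) ⊔ dY om pos 1 0))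
    (Cb (x n) i (fun ω => rw (x n).M w (b n ω)) (dQ om pos i ρ (ρ + w)))
    (Cl (x n) (dep om (dg om ρ))) (fun ω => rw (x n).M w (b n ω)) (x n).Θ
    (fun ω => fG (tc om pos) (x n).M (ρ + w) (ga om pos (x n) ω))
    (fun ω => fG (tc om pos) (x n).M ρ (ga om pos (x n) ω)) (Pi0 om pos (x n) K)
    (cn om pos (x n) K i (b n) (k n) s' ρ)
    (((Fn.comp _ _).trans u).trans (NGCA.pj (fun p => p.2.2.1) fun _ => rfl))
    (NGCA.pj (fun p => p.2.2.2.2.2.2) fun _ => rfl) (NGCA.pj (fun p => p.2.1) fun _ => rfl)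
    (NGCA.pj (fun p => p.2.2.2) fun _ => rfl)
  rw [← (Z _).1 n, ← (Z _).1 n]
  change _ + _ ≤ JJ om pos (zw om (x n) (dg om ρ) w) + Ib' om pos (x n) _ ρ w + _ + _ at y
  unfold Dl
  unfold Cl at y ⊢
  unfold Zl Sy.Z
  linarith

end Pool.Agent.MP_5168f5_an.AN.TG.TP
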