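import Pool.Agent.MP_5168f5_an.AN.TRSpec

/-! Kakeya sets in all dimensions: the marked terminal case, a uniform error for directions. -/

namespace Pool.Agent.MP_5168f5_an.AN.TG.TP

open H19 H17S H17F G39 GA TL TA Filter H61Z

namespace NGDPA

variable {ι κ : Type} [Fintype ι] [DecidableEq ι] [Fintype κ] {Φ : Filt (Mt ι)}
  {om : κ → ℝ × ℝ} {pos : κ → Prop} {t : κ} {kf : ℕ → ℕ} {C : ℝ} {p : ℕ → Sp ι κ}

/-- The information in both contexts. -/
noncomputable def I2 (om : κ → ℝ × ℝ) (q : Sp ι κ) (b : q.y.Ω → κ → ℝ) (s : ℝ) : ℝ :=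
  Ib om q.u b s + Ib om q.y b s

theorem nn (q : Sp ι κ) (b : q.y.Ω → κ → ℝ) (s : ℝ) : 0 ≤ I2 om q b s :=
  add_nonneg (NGDA.ib_nn q.u b s) (NGDA.ib_nn q.y b s)

theorem mono (hT : Term om) (g : GP Φ om pos t kf C p) (b : ∀ n, (p n).y.Ω → κ → ℝ) {s s' : ℝ}
    (h0 : 0 ≤ s) (h : s ≤ s') :
    Le (un (ys p)) (fun n => I2 om (p n) (b n) s) fun n => I2 om (p n) (b n) s' :=
  Le.add (NGDA.ib_mono (x := us p) lnk hT g.ac.toG0 b h0 h)
    (NGDA.ib_mono (x := ys p) lnk hT g.p0.toG0 b h0 h)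

end NGDPA

open NGDPA in
theorem rowNGDP : OfNGDP := by
  intro kit ngb ι κ _ _ _ Φ om pos t kf C η i hT ih hi hη
  by_contra hn
  push Not at hn
  choose x b h1 h2 h3 h4 using hn
  let S : ℕ → Type 1 := fun _ => Σ z : Sp ι κ, z.y.Ω → κ → ℝ
  let K : ℕ → (∀ n, S n) → Prop := fun j y =>
    (GP Φ om pos t kf C fun n => (y n).1) ∧
    (∀ᶠ n in UF, ∀ ω ∈ (y n).1.y.P.S, Dir om pos i ((y n).2 ω)) ∧
    (∀ᶠ n in UF, Dl om pos (y n).1.y i (y n).2 ≤ (TT om pos - tt om i - η) * (y n).1.y.M) ∧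
    Le (fun n => (y n).1.y.M) (fun n => (j + 1) * I2 om (y n).1 (y n).2 j) fun n => (y n).1.y.M
  have cf : ∀ j, R4.CF (K j) := fun j =>
    ((kit.cf ι κ Φ om pos t kf C (x 0)).comp (S' := S) fun _ s => s.1).and
      ((R4.cf_ev (S := S) fun _ s => ∀ ω ∈ s.1.y.P.S, Dir om pos i (s.2 ω)).and
        ((R4.cf_ev (S := S) fun _ s =>
          Dl om pos s.1.y i s.2 ≤ (TT om pos - tt om i - η) * s.1.y.M).and
          (R4.cf_le (S := S) (fun _ s => s.1.y.M) (fun _ s => (j + 1) * I2 om s.1 s.2 j)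
            fun _ s => s.1.y.M)))
  obtain ⟨k, -, hk⟩ := R4.cf_diag cf (fun k n => ⟨x k n, b k n⟩) fun k j hj => by
    refine ⟨h1 k, h2 k, ?_, ?_⟩
    · obtain ⟨ε, hε, e⟩ := not_Le (h4 k)
      filter_upwards [e] with n a
      have : 0 ≤ ε * (un (ys (x k)) n : ℝ) := by positivity
      exact (le_add_of_nonneg_right this).trans a.le
    · have hj' : (j : ℝ) ≤ k := by exact_mod_cast hj
      have m := (mono hT (h1 k) (b k) (Nat.cast_nonneg j) hj').smul (c := (j : ℝ) + 1)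
        (by positivity)
      have q : Le (un (ys (x k))) (fun n => (k + 1) * I2 om (x k n) (b k n) k)
        fun n => (x k n).y.M := h3 k
      refine m.of2 q (Eventually.of_forall fun n => ?_)
      have := mul_le_mul_of_nonneg_right (add_le_add_left hj' 1) (nn (om := om) (x k n) (b k n) k)
      linarith
  set y : ℕ → Sp ι κ := fun n => x (k n) n
  set c : ∀ n, (y n).y.Ω → κ → ℝ := fun n => b (k n) n
  have g : GP Φ om pos t kf C y := (hk 0).1
  have sm : ∀ s : ℝ, 0 ≤ s → Sm (un (ys y)) fun n => I2 om (y n) (c n) s := fun s hs =>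
    Le.eps fun ε hε => by
      obtain ⟨j, hj⟩ := exists_nat_ge (max s (1 / ε))
      have j1 : 1 ≤ ε * (j + 1 : ℝ) := by
        have := (div_le_iff₀ hε).1 ((le_max_right _ _).trans hj)
        nlinarith
      have q : Le (un (ys y)) (fun n => (j + 1) * I2 om (y n) (c n) j) fun n => (y n).y.M :=
        (hk j).2.2.2
      refine (mono hT g c hs ((le_max_left _ _).trans hj)).of2 (q.smul hε.le)
        (Eventually.of_forall fun n => ?_)
      have := mul_le_mul_of_nonneg_right j1 (nn (om := om) (y n) (c n) j)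
      simp only [un]
      linarith
  have r := ngb ι κ Φ om pos t kf C y hT g i c ih hi (hk 0).2.1
    (fun s hs => (sm s hs).mono (Eventually.of_forall fun n =>
      le_add_of_nonneg_right (NGDA.ib_nn (y n).y (c n) s)))
    fun s hs => (sm s hs).mono (Eventually.of_forall fun n =>
      le_add_of_nonneg_left (NGDA.ib_nn (y n).u (c n) s))
  have q : ∀ᶠ n in UF, Dl om pos (y n).y i (c n) ≤ (TT om pos - tt om i - η) * (y n).y.M :=
    (hk 0).2.2.1
  have := le_of_rate g.p0.alg.big (r.trans (Le.of_ev q))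
  linarith

end Pool.Agent.MP_5168f5_an.AN.TG.TP
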