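import Pool.Agent.MP_5168f5_an.AN.TRSpec

/-! Kakeya sets in all dimensions: the terminal case with a marked index, no direction has a
large rate. -/

namespace Pool.Agent.MP_5168f5_an.AN.TG.TP

open H19 H17S H17F G39 GA TL TA Filter H61Z

open NGWA in
theorem rowNGWP : OfNGWP := by
  intro hZ hC hN ι κ _ _ _ Φ om pos t kf C p hT gp m K ε₀ mn low ih kb e0 e1 e2 A k s s' i b s0 s1
    s2 hb
  have g : G0 Φ om pos (ys p) := gp.p0.toG0
  have gu : G0 Φ om pos (us p) := ⟨gp.p0.alg, gp.p0.unit⟩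
  have W := wk g
  have hM := g.alg.big
  by_cases hi : CC om pos i
  swap
  · refine Le.of_le fun n => (ch_zero fun u _ v _ e => ?_).trans_le ?_
    · simpa only [ga, if_neg hi, zero_smul, sub_zero] using congrArg Prod.fst e
    · have := (W.tc i).1
      have : 0 ≤ 1 - ε₀ := by linarith
      have : 0 ≤ s' - s := by linarith
      positivity
  have ds : DirS om pos (ys p) i b := hb.mono fun n a v hv => by
    obtain ⟨a1, a2, a3⟩ := a.2 v hv
    refine ⟨a1, fun c => (norm_le_pi_norm (b n v) c).trans a2, fun c h => ?_⟩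
    have e : tc om pos c = tt om i := (not_not.1 fun u => h (a3 c u)).trans (tc_pos hi)
    have hc : CC om pos c := not_not.1 fun u => (W.tt_lt i).ne' ((tc_neg u).symm.trans e)
    exact ⟨hc, W.om_eq hT hc.2 hi.2 ((tc_pos hc).symm.trans e)⟩
  have fb := hb.mono fun n a => a.1
  obtain ⟨q, hq⟩ := hN ι κ Φ om pos t kf C (TT om pos - m - ε₀) i hT ih hi (by linarith)
  have win : ∀ ρ w : ℝ, 0 ≤ ρ → 0 < w → ρ + w ≤ s' → Le (un (ys p)) (fun n =>
      ch (p n).y.P (fun ω => fG (tc om pos) (p n).y.M (ρ + w) (ga om pos (p n).y ω))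
        (cn om pos (p n).y K i (b n) (k n) s' ρ)) fun n => (1 - ε₀) * tt om i * w * (p n).y.M +
      Ib' om pos (p n).y (fun ω => rw (p n).y.M w (b n ω)) ρ w + Fintype.card κ * (q + 1) *
        (Ib om (zw om (p n).u (dg om ρ) w) (fun ω => rw (p n).y.M w (b n ω)) q +
          Ib om (zw om (p n).y (dg om ρ) w) (fun ω => rw (p n).y.M w (b n ω)) q) :=
      fun ρ w r0 w0 rw1 => by
    have i1 : ∀ n, 0 ≤ Ib' om pos (p n).y (fun ω => rw (p n).y.M w (b n ω)) ρ w := fun n =>
      mi_nonneg _ _ _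
    have i2 : ∀ n, 0 ≤ Ib om (zw om (p n).u (dg om ρ) w) (fun ω => rw (p n).y.M w (b n ω)) q +
        Ib om (zw om (p n).y (dg om ρ) w) (fun ω => rw (p n).y.M w (b n ω)) q :=
      fun n => add_nonneg (mi_nonneg _ _ _) (mi_nonneg _ _ _)
    have c0 : (0 : ℝ) ≤ Fintype.card κ := Nat.cast_nonneg _
    have d0 := div_nonneg r0 W.sg_pos.le
    have z1 := hZ ι κ Φ om pos t kf C p hT gp (dg om ρ) w d0 d0 w0
    obtain ⟨-, z2, z3, -⟩ := zmH0 ι κ Φ om pos (ys p) hT g (dg om ρ) w d0 d0 w0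
    rcases ev_em fun n => (q + 1 : ℝ) *
      (Ib om (zw om (p n).u (dg om ρ) w) (fun ω => rw (p n).y.M w (b n ω)) q +
        Ib om (zw om (p n).y (dg om ρ) w) (fun ω => rw (p n).y.M w (b n ω)) q) ≤
          (zw om (p n).y (dg om ρ) w).M with y | y
    · refine Le.of3 ((z2 _ _).1 (hq (fun n => zp om (p n) (dg om ρ) w)
        (fun n ω => rw (p n).y.M w (b n ω)) z1
        (cD1 ι κ Φ om pos (ys p) hT g K i A k b ρ w s' kb hi ds fb r0 w0 rw1 s2).1 (Le.of_ev y)))
        (hC ι κ Φ om pos t kf C p hT gp m K i A k b ρ w s' mn low kb hi ds fb r0 w0 rw1 s2)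
        (eqv_mul z3 (m + ε₀ - tt om i)) (Eventually.of_forall fun n => ?_)
      have h1 : 0 ≤ ε₀ * (1 - tt om i) * (w * (p n).y.M) :=
        mul_nonneg (mul_nonneg e0.le (sub_nonneg.2 (W.tt_lt i).le)) (by positivity)
      have h2 := mul_nonneg (mul_nonneg c0 (show (0 : ℝ) ≤ q + 1 by positivity)) (i2 n)
      linarith
    · refine (hM.sm (Fintype.card κ * 2)).of_sub (y.mono fun n a => ?_)
      have h1 := refine (p n).y.P (ga om pos (p n).y) (cn om pos (p n).y K i (b n) (k n) s' ρ)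
        (tc om pos) (p n).y.M W.tc r0 w0.le fun _ _ _ _ e => congrArg (·.2.1) e
      have h2 : w * (p n).y.M < (zw om (p n).y (dg om ρ) w).M + 1 := Nat.lt_floor_add_one _
      have h3 := mul_le_mul_of_nonneg_left (show w * (p n).y.M + 1 ≤ (q + 1 : ℝ) *
        (Ib om (zw om (p n).u (dg om ρ) w) (fun ω => rw (p n).y.M w (b n ω)) q +
          Ib om (zw om (p n).y (dg om ρ) w) (fun ω => rw (p n).y.M w (b n ω)) q) + 2 by
          linarith [not_le.1 a]) c0
      have h4 : 0 ≤ (1 - ε₀) * tt om i * w * (p n).y.M :=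
        mul_nonneg (mul_nonneg (mul_nonneg (sub_nonneg.2 e1) (W.tt_nn i)) w0.le) (Nat.cast_nonneg _)
      linarith [i1 n]
  refine Le.eps fun δ hδ => ?_
  obtain ⟨D, hD⟩ : ∃ D : ℝ, D = Fintype.card κ +
    2 * (Fintype.card κ * (q + 1) * ((q * sg om + 1) * Fintype.card κ)) := ⟨_, rfl⟩
  have D0 : 0 ≤ D := by have := W.sg_pos; rw [hD]; positivity
  obtain ⟨N, hN⟩ := exists_nat_gt (D / δ)
  have N0 : (0 : ℝ) < N := (div_nonneg D0 hδ.le).trans_lt hN
  obtain ⟨w, hw⟩ : ∃ w : ℝ, w = (s' - s) / N := ⟨_, rfl⟩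
  have w0 : 0 < w := hw ▸ div_pos (sub_pos.2 s1) N0
  have w1 : s + N * w = s' := by rw [hw]; field_simp; ring
  have w2 : D * w ≤ δ := by
    rw [div_lt_iff₀ hδ] at hN
    nlinarith [mul_le_mul_of_nonneg_right hN.le w0.le]
  have bb := ds.mono fun n a v hv => (a v hv).2.1
  obtain ⟨b1, b2⟩ := bud0 ι κ Φ om pos (ys p) hT g b s w q N bb s0 w0
  have b3 := (bud0 ι κ Φ om pos (us p) hT gu b s w q N bb s0 w0).1
  refine Le.of3 (Le.sum (Finset.range N) fun j hj => win (s + j * w) w (by positivity) w0 ?_)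
    ((b3.add b1).smul (c := Fintype.card κ * (q + 1)) (by positivity)) b2
    (Eventually.of_forall fun n => ?_)
  · have : (j : ℝ) + 1 ≤ N := by exact_mod_cast Finset.mem_range.1 hj
    nlinarith
  · have h1 := chain (p n).y.P (fun ρ ω => fG (tc om pos) (p n).y.M ρ (ga om pos (p n).y ω))
      (fun ω => fG (tc om pos) (p n).y.M s' (ga om pos (p n).y ω - ga om pos (p n).y ω i • b n ω))
      (fun ω => (k n ω, Pi0 om pos (p n).y K ω)) s w N
    have h2 := mul_le_mul_of_nonneg_right w2 (Nat.cast_nonneg (α := ℝ) (p n).y.M)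
    have h3 : s' - s = N * w := by linarith
    rw [w1] at h1
    rw [tc_pos hi, h3, Finset.sum_add_distrib, Finset.sum_add_distrib, Finset.sum_const,
      Finset.card_range, nsmul_eq_mul, ← Finset.mul_sum, Finset.sum_add_distrib]
    rw [hD] at h2
    have e : ∀ {T S : ℝ}, T ≤ S → ∀ I I' : ℝ, T - ((1 - ε₀) * tt om i * (N * w) * (p n).y.M +
        δ * (p n).y.M) ≤ S - (N * ((1 - ε₀) * tt om i * w * (p n).y.M) + I' +
          Fintype.card κ * (q + 1) * I) + (Fintype.card κ * (q + 1) * I - Fintype.card κ * (q + 1) *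
            ((q * sg om + 1) * Fintype.card κ * w * (p n).y.M +
              (q * sg om + 1) * Fintype.card κ * w * (p n).y.M)) +
          (I' - Fintype.card κ * w * (p n).y.M) := fun h _ _ => by linarith
    exact e h1 _ _

end Pool.Agent.MP_5168f5_an.AN.TG.TP
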