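import Pool.Agent.MP_5168f5_an.AN.TRSpec
import Pool.Agent.MP_5168f5_an.AN.TPApi

/-! The shifted rate of a marked system. -/

namespace Pool.Agent.MP_5168f5_an.AN.TG.TP

open H19 H17S H17F G39 GA TL TA Filter H61Z PFuA

theorem rowPFuP : PFuP := by
  intro ι κ _ _ _ Φ om pos t kf C p hT gp
  have h0 := gp.p0.toG0
  obtain ⟨gd, pm0, z0, -⟩ := lnk ι κ Φ om pos _ hT h0
  have P := hs_pm gp.p0 gp.ep.det
  have pm : GO.Pm (GT om pos) (Hs (ys p) t) := ⟨pm0.sup,
    fun d d' g g' => P.mono d d' (gd d g) (gd d' g'),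
    fun d d' g g' => P.lip d d' (gd d g) (gd d' g'),
    fun d0 d d' g0 g g' => P.sub d0 d d' (gd d0 g0) (gd d g) (gd d' g')⟩
  have z : Hs (ys p) t 0 = 0 := by rw [Hs, z0, Pi.zero_apply, add_zero]
  have w := wk h0
  have fi : ∀ (d : κ → ℝ) (S : κ → Prop) (r : ℝ), 0 ≤ r → GT om pos d → GT om pos (up d r S) →
      (FullM (ys p) t d S r ↔ cd S * r ≤ Hs (ys p) t (up d r S) - Hs (ys p) t d) :=
    fun d S r hr g g' => by
      rw [fullM_iff h0 hr (gd d g) (GO.up_eq d r S ▸ gd _ g'), GO.df, sub_nonpos, GO.up_eq,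
        GO.cd_eq]
  refine ⟨pm, z, fun v r t1 t2 hr => ?_, forall_congr' fun r => forall_congr' fun hr => ?_⟩
  · obtain ⟨s, s0, hs'⟩ := big_s w hr
    have g := w.gt_dep t1 t2
    have g' : GT om pos (dep om (v.1 + s, v.2)) := w.gt_dep (add_nonneg t1 s0) t2
    have gF := w.gt_dF (f := 0) hr fun _ => ⟨le_rfl, hr⟩
    have f1 := (fi _ _ r hr g ((w.gt_up g hr).2 true)).1 (gp.ep.f true v r t1 t2 hr)
    have f2 := (fi _ _ r hr g' ((w.gt_up g' hr).2 false)).1
      (gp.ep.f false (v.1 + s, v.2) r (add_nonneg t1 s0) t2 hr)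
    have ed : ∀ a, dep om (v.1 + s, v.2) a = dep om v a + (om a).1 * s := fun a => by
      unfold dep; ring
    have a1 := pm.sub _ _ _ ((w.gt_up g hr).2 true) g' (g.add gF) (fun a => by
      rw [ed]
      by_cases e : pos a ∧ Pu om true a
      · rw [up_pu e]; linarith [hs' a e.2.1]
      · rw [up_npu e]; linarith [mul_nonneg (w.wt a).1 s0]) fun a => by
      by_cases e : pos a ∧ Pu om true a
      · rw [up_pu e, Pi.add_apply, dF_pp (w.pp_iff.2 (Or.inl e))]
      · rw [up_npu e, Pi.add_apply]; linarith [gF.nn a]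
    have a2 := pm.mono _ _ ((w.gt_up g' hr).2 false) (g'.sup (g.add gF)) fun a => by
      by_cases e : pos a ∧ Pu om false a
      · refine le_sup_of_le_right (le_of_eq ?_)
        rw [up_pu e, ed, Pi.add_apply, dF_pp (w.pp_iff.2 (Or.inr e)),
          show (om a).1 = 0 from e.2.1, zero_mul, add_zero]
      · rw [up_npu e]; exact le_sup_left
    have a3 := mul_le_mul_of_nonneg_right (cd_pp w) hr
    linarith
  · rw [fi 0 pos r hr gt_zero (w.gt_up gt_zero hr).1, z, sub_zero]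

end Pool.Agent.MP_5168f5_an.AN.TG.TP
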