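import Pool.Agent.MP_5168f5_an.AN.TRSpec

/-! Kakeya sets in all dimensions: the marked tangent with independent families. -/

namespace Pool.Agent.MP_5168f5_an.AN.TG.TP

open H19 H17S H17F G39 GA TL TA Filter H61Z
open R4 (Eqv CF cf_le cf_ev cf_all cf_diag)

namespace TanPA

variable {ι κ : Type} [Fintype ι] [DecidableEq ι] [Fintype κ] {Φ : Filt (Mt ι)}
  {om : κ → ℝ × ℝ} {pos : κ → Prop} {x : ℕ → Sy ι κ}

/-- The defect is at most `M / (i + 1)`. -/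
def Ki (om : κ → ℝ × ℝ) (i : ℕ) (z : ℕ → Sy ι κ) : Prop :=
  ∀ b : Bool, Le (un z) (fun n => inD om (z n) b i) fun n => 1 / (i + 1 : ℝ) * (z n).M

theorem ki_cf (i : ℕ) : CF (Ki (ι := ι) om i) := cf_all fun b : Bool =>
  cf_le (fun _ (z : Sy ι κ) => z.M) (fun _ z => inD om z b i) fun _ z => 1 / (i + 1 : ℝ) * z.M

theorem ki_zw (hT : Term om) (g : G0 Φ om pos x) {v : ℝ × ℝ} {s w e : ℝ} (wn : Wn om pos v s w)
    {i k : ℕ} (hik : i ≤ k) (e0 : 0 ≤ e) (e1 : e ≤ 1) (hi : ∀ b, Le (un x)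
      (fun n => inD om (zw om (x n) v w) b k) fun n => e / (k + 1) * w * (x n).M) :
    Ki om i fun n => zw om (x n) v w := fun b => by
  obtain ⟨gy, e1, e2, -⟩ := zmH0 ι κ Φ om pos x hT g v w wn.t1 wn.t2 wn.w0
  have ik : (i : ℝ) ≤ k := Nat.cast_le.2 hik
  refine (TanA.ind_mono lnk hT gy b (Nat.cast_nonneg _) ik).trans ((e1 _ _).2 ((hi b).trans
    (((Le.of_le fun n => (mul_assoc _ _ _).le).trans (e2.2.smul (by positivity))).trans
      (Le.of_le fun n => mul_le_mul_of_nonneg_right ?_ (Nat.cast_nonneg _)))))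
  exact div_le_div₀ zero_le_one ‹_› (by positivity) (by linarith)

theorem ind_of (hT : Term om) (g : G0 Φ om pos x) (h : ∀ i, Ki om i x) : Ind om x :=
  fun b K hK ε hε => by
  obtain ⟨j, hj⟩ := exists_nat_one_div_lt (half_pos hε)
  have i1 : K ≤ (max j ⌈K⌉₊ : ℕ) := (Nat.le_ceil K).trans (Nat.cast_le.2 (le_max_right _ _))
  have i2 : 1 / ((max j ⌈K⌉₊ : ℕ) + 1 : ℝ) ≤ ε / 2 :=
    (Nat.one_div_le_one_div (le_max_left _ _)).trans hj.le
  refine (((TanA.ind_mono lnk hT g b hK i1).trans (h _ b)) _ (half_pos hε)).mono fun n u =>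
    u.trans ?_
  have := mul_le_mul_of_nonneg_right i2 (Nat.cast_nonneg (x n).M)
  simp only [un]
  linarith

end TanPA

open TanA TanPA in
theorem rowTanP : OfTanP := by
  intro kt wi ι κ _ _ _ Φ om pos t kf C p hT g m bs mn lo ad
  have gu : ∀ {q : ℕ → Sp ι κ}, GP Φ om pos t kf C q → G0 Φ om pos (us q) := fun h =>
    ⟨h.p0.alg, h.p0.unit⟩
  have os : ∀ u : κ × κ × κ, ∃ c : {c : ℝ // 0 < c}, Tr om pos bs u.1 u.2.1 u.2.2 →
      ∀ᶠ n in UF, |(p n).y.c u.1 u.2.1 u.2.2| ≤ dl (un (ys p)) c n := fun ⟨a, b, e⟩ => by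
    by_cases h : Tr om pos bs a b e
    · obtain ⟨c, u, v⟩ := h.elim (fun h => ad.add e h a b) fun h =>
        ad.ker a b e h.1 h.2.1 h.2.2.1 h.2.2.2.1 h.2.2.2.2.1 h.2.2.2.2.2
      exact ⟨⟨c, u⟩, fun _ => v⟩
    · exact ⟨⟨1, one_pos⟩, fun k => absurd k h⟩
  choose c hc using os
  have : Nonempty {c : ℝ // 0 < c} := ⟨⟨1, one_pos⟩⟩
  obtain ⟨⟨c0, p0⟩, h0⟩ := Finite.exists_ge c
  have lv : ∀ a b e, Tr om pos bs a b e → om e ≠ 0 := fun a b e h =>
    h.elim (fun h => g.p0.alg.live e (ad.mem e h).1) fun h => mx_live h.2.2.2.2.1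
  let Kc : ℕ → (ℕ → Sp ι κ) → Prop := fun i z => MnP Φ om pos t kf C m z ∧
    (Ki om i (ys z) ∧ Ki om i (us z)) ∧
    ∀ᶠ n in UF, ∀ a b e, Tr om pos bs a b e → |(z n).y.c a b e| ≤ Real.exp (-(i * (z n).y.M))
  have ex : ∀ k : ℕ, ∃ y : ℕ → Sp ι κ, ∀ i ≤ k, Kc i y := fun k => by
    have m0 : 0 < min 1 c0 := lt_min one_pos p0
    obtain ⟨v, s, w, wn, hw, hi⟩ := grid2 ι κ Φ om pos (ys p) hT g.p0.toG0 (us p) (gu g) k
      (min 1 c0 / (k + 1)) (Nat.cast_nonneg _) (by positivity)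
    have gy := ((wi ι κ Φ om pos t kf C p hT g m mn lo).2 v s w wn).1
    refine ⟨fun n => zp om (p n) v w, fun i hik => ⟨gy,
      ⟨ki_zw hT g.p0.toG0 wn hik m0.le (min_le_left _ _) fun b => (hi b).1,
        ki_zw hT (gu g) wn hik m0.le (min_le_left _ _) fun b => (hi b).2⟩, ?_⟩⟩
    refine eventually_all.2 fun a => eventually_all.2 fun b => eventually_all.2 fun e =>
      eventually_all.2 fun h => ?_
    by_cases hm : Hm om a b e
    · refine (hc (a, b, e) h).mono fun n u => ((congrArg _ (sC_hm hm _ v _)).trans_le u).trans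
        (Real.exp_le_exp.2 (neg_le_neg ?_))
      have ik : (i : ℝ) ≤ k := Nat.cast_le.2 hik
      have f1 : (⌊w * (p n).y.M⌋₊ : ℝ) ≤ w * (p n).y.M :=
        Nat.floor_le (by have := wn.w0; positivity)
      have f2 : (i : ℝ) * w ≤ (c (a, b, e) : ℝ) := by
        have := (le_div_iff₀ (by positivity)).1 hw
        have f3 : c0 ≤ c (a, b, e) := h0 (a, b, e)
        nlinarith [wn.w0, min_le_right 1 c0]
      exact (mul_le_mul_of_nonneg_left f1 (Nat.cast_nonneg _)).trans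
        ((mul_assoc _ _ _).ge.trans (mul_le_mul_of_nonneg_right f2 (Nat.cast_nonneg _)))
    · exact gy.1.p0.alg.hom a b e (lv a b e h) hm i
  choose y hy using ex
  obtain ⟨k, -, hk⟩ := cf_diag (K := Kc) (fun i =>
    ((kt.cf ι κ Φ om pos t kf C p).and (cf_le (fun _ (z : Sp ι κ) => z.y.M)
      (fun _ z => JJ om pos z.y) fun _ z => m * z.y.M)).and
      ((((ki_cf i).comp fun _ (z : Sp ι κ) => z.y).and
        ((ki_cf i).comp fun _ (z : Sp ι κ) => z.u)).and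
          (cf_ev fun _ (z : Sp ι κ) => ∀ a b e, Tr om pos bs a b e →
            |z.y.c a b e| ≤ Real.exp (-(i * z.y.M))))) y hy
  have ng : ∀ a b e, Tr om pos bs a b e → Neg (un (ys fun n => y (k n) n)) fun n =>
      (y (k n) n).y.c a b e := fun a b e h K => (hk ⌈K⌉₊).2.2.mono fun n u => (u a b e h).trans
    (Real.exp_le_exp.2 (neg_le_neg
      (mul_le_mul_of_nonneg_right (Nat.le_ceil K) (Nat.cast_nonneg _))))
  exact ⟨fun n => y (k n) n, (hk 0).1, ⟨ad.mem, fun a h b b' => ng b b' a (Or.inl h),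
    fun a b e h1 h2 h3 h4 h5 h6 => ng a b e (Or.inr ⟨h1, h2, h3, h4, h5, h6⟩)⟩,
    ind_of hT (hk 0).1.1.p0.toG0 fun i => (hk i).2.1.1,
    ind_of hT (gu (hk 0).1.1) fun i => (hk i).2.1.2⟩

end Pool.Agent.MP_5168f5_an.AN.TG.TP
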