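import Pool.Agent.MP_5168f5_an.AN.TRSpec

/-! Kakeya sets in all dimensions: windows, changes of basis and the terminal case with a marked
index. -/

namespace Pool.Agent.MP_5168f5_an.AN.TG.TP

open H19 H17S H17F G39 GA TL TA Filter H61Z

theorem rowZwP : OfZwP := by
  intro k ι κ _ _ _ Φ om pos t kf C p _ g v w h1 h2 hw
  have hM : Big (un (ys p)) := g.p0.alg.big
  have em := R4.lev_eqv hM hw.le
  have m0 : ∀ n, (0 : ℝ) ≤ (p n).y.M := fun n => Nat.cast_nonneg _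
  have := k.zm ι κ Φ om pos t kf C p g (fun n => (v.1 * (p n).y.M, v.2 * (p n).y.M))
    (fun n => ⌊w * (p n).y.M⌋₊) (w / 2) w ⟨v.1 + v.2, Eventually.of_forall fun n => by
      have a := mul_nonneg h1 (m0 n)
      have b := mul_nonneg h2 (m0 n)
      exact ⟨a, by linarith, b, by linarith⟩⟩ (half_pos hw)
    ((em.2 _ (half_pos hw)).mono fun n a => ⟨by
      have a' : w * (p n).y.M ≤ (⌊w * (p n).y.M⌋₊ : ℝ) + w / 2 * (p n).y.M := a
      linarith, R4.lev_le' (un (ys p)) hw.le n⟩)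
  simpa only [← ZmHA.sc_dep] using this

theorem rowClBP : OfClBP := by
  intro k ι κ _ _ _ Φ om pos t kf C p hT g _ m A A' h hf h2
  have w := wk g.p0.toG0
  obtain ⟨-, b⟩ := bInv ι κ Φ om pos (ys p) hT g.p0.toG0 A A' h
  refine ⟨(k.bas ι κ Φ om pos t kf C p A A' g h.1 h.2.1 h.2.2 fun a e =>
    ⟨neg_ev (Eventually.of_forall fun n => ((hf n).1 a).1.trans (Matrix.one_apply_ne e)),
      neg_ev (Eventually.of_forall fun n => ((hf n).2 a).1.trans (Matrix.one_apply_ne e))⟩).1,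
    Le.of3 h2
    (b _ _ (w.gt_dY zero_le_one le_rfl) (w.cp_dY zero_le_one le_rfl) (apx_sc _ _)).1
    (b _ _ (w.gt_dY le_rfl zero_le_one) (w.cp_dY le_rfl zero_le_one) (apx_sc _ _)).2
    (Eventually.of_forall fun n => ?_)⟩
  have : JJ om pos ((p n).y.bas (A n) (A' n)) ≤ JJ om pos (p n).y +
      ch (p n).y.P (((p n).y.bas (A n) (A' n)).C (sc (p n).y.M (dY om pos 1 1)))
        ((p n).y.C (sc (p n).y.M (dY om pos 1 1))) +
      ch (p n).y.P ((p n).y.C (sc (p n).y.M (dY om pos 1 0)))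
        (((p n).y.bas (A n) (A' n)).C (sc (p n).y.M (dY om pos 1 0))) := ClBA.chg _ _ _ _ _
  linarith

theorem rowTermR : OfTermR := by
  intro h1 h2 h3 h4 h5 ι κ _ _ _ Φ om pos t kf C x gs p1 tm ih
  classical
  by_contra nf
  obtain ⟨m, y, lt, my⟩ := h1 ι κ Φ om pos t kf C x tm gs nf
  obtain ⟨m', z, m0, le, mz, lo⟩ := h2 ι κ Φ om pos t kf C y tm my.1 m my.2
  obtain ⟨A, A', bs, a1, a2, a3, a4, a5, a6⟩ := tAdq ι κ _ Φ om pos _ _ t mz.1.p0.alg tm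
    mz.1.p0.tp (Or.inl p1) mz.1.p0.nt
  have mw := h3 ι κ Φ om pos t kf C z tm mz.1 m' A A' ⟨a1, a2, a3⟩ a4 mz.2
  obtain ⟨w, mv, ad, ind, ind'⟩ := h4 ι κ Φ om pos t kf C _ tm mw.1 m' bs mw.2 lo a6
  obtain ⟨K, hK⟩ := TermA.kb om
  exact (h5 ι κ Φ om pos t kf C w tm mv.1 bs K m' p1 a5 ad hK mv.2 lo ih ind ind' m0).not_gt
    (le.trans_lt lt)

end Pool.Agent.MP_5168f5_an.AN.TG.TP
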