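import Pool.Agent.MP_5168f5_an.AN.TRSpec

/-! In a minimal marked system all windows have the minimal rate. -/

namespace Pool.Agent.MP_5168f5_an.AN.TG.TP

open H19 H17S H17F G39 GA TL TA Filter H61Z
open R4.K31 (DnS)

open WinA in
theorem rowWinP : OfWinP := by
  intro hZ hP ι κ _ _ _ Φ om pos t kf C p hT g m hM hLow
  have h0 : G0 Φ om pos (ys p) := g.p0.toG0
  have k := wk h0
  have pt : PP om pos t := ⟨g.p0.tp, g.p0.tk⟩
  obtain ⟨hS, -, hF, -⟩ := hP ι κ Φ om pos t kf C p hT g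
  have hH := (lnk ι κ Φ om pos (ys p) hT h0).2.1
  have top : Hx (ys p) (dY om pos 1 1) - Hx (ys p) (dY om pos 1 0) ≤ m :=
    le_of_rate h0.alg.big ((jr lnk hT h0).2.trans hM)
  have win : ∀ v s w, Wn om pos v s w → GP Φ om pos t kf C (fun n => zp om (p n) v w) ∧
      w * (Hx (fun n => zw om (p n).y v w) (dY om pos 1 1) -
        Hx (fun n => zw om (p n).y v w) (dY om pos 1 0)) =
        Hx (ys p) (dep om v ⊔ dY om pos 1 (s + w)) - Hx (ys p) (dep om v ⊔ dY om pos 1 s) ∧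
      m * w ≤ Hx (ys p) (dep om v ⊔ dY om pos 1 (s + w)) - Hx (ys p) (dep om v ⊔ dY om pos 1 s) ∧
      Hx (ys p) (dep om v ⊔ dY om pos 1 (s + w)) - Hx (ys p) (dep om v ⊔ dY om pos 1 s) ≤
        Hx (ys p) (dY om pos 1 (s + w)) - Hx (ys p) (dY om pos 1 s) := fun v s w hw => by
    have z1 := hZ ι κ Φ om pos t kf C p hT g v w hw.t1 hw.t2 hw.w0
    obtain ⟨z0, -, -, z2⟩ := zmH0 ι κ Φ om pos (ys p) hT h0 v w hw.t1 hw.t2 hw.w0
    have a1 := (z2 _).2.2 (k.gt_dY zero_le_one le_rfl)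
    have a2 := (z2 _).2.2 (k.gt_dY le_rfl zero_le_one)
    have a3 := key k hS hF hw hw.w0.le le_rfl
    have a4 := key k hS hF hw le_rfl hw.w0.le
    simp only [Hs, Pi.sup_apply, Pi.add_apply, dY_pp pt] at a3 a4
    have a5 := mul_le_mul_of_nonneg_left (le_of_rate z0.alg.big
      ((hLow _ z1).trans (jr lnk hT z0).1)) hw.w0.le
    have g1 := k.gt_dY (K := 1) hw.s0 (by linarith [hw.sw, hw.w0])
    have a6 := hH.sub _ _ _ g1 ((k.gt_dep hw.t1 hw.t2).sup g1)
      (k.gt_dY (add_nonneg hw.s0 hw.w0.le) hw.sw) le_sup_right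
      (dY_mono k 1 (le_add_of_nonneg_right hw.w0.le))
    rw [sup_assoc, sup_eq_right.2 (dY_mono k 1 (le_add_of_nonneg_right hw.w0.le))] at a6
    rw [smul_dY, mul_one] at a1 a2
    rw [mul_zero] at a2
    rw [add_zero] at a4
    exact ⟨z1, by linarith, by linarith, by linarith⟩
  have inc : ∀ s w : ℝ, 0 ≤ s → 0 ≤ w → s + w ≤ 1 →
      m * w ≤ Hx (ys p) (dY om pos 1 (s + w)) - Hx (ys p) (dY om pos 1 s) := fun s w a b c => by
    rcases b.eq_or_lt with rfl | b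
    · simp
    · obtain ⟨-, -, u, v⟩ := win _ _ _ (k.wn_dg a b c)
      exact u.trans v
  have lin : ∀ s : ℝ, 0 ≤ s → s ≤ 1 →
      Hx (ys p) (dY om pos 1 s) = Hx (ys p) (dY om pos 1 0) + m * s := fun s a b => by
    have u := inc 0 s le_rfl a (by linarith)
    have v := inc s (1 - s) a (by linarith) (by linarith)
    rw [zero_add] at u
    rw [add_sub_cancel] at v
    linarith
  refine ⟨lin, fun v s w hw => ?_⟩
  obtain ⟨z1, a1, a2, a3⟩ := win v s w hw
  rw [lin (s + w) (add_nonneg hw.s0 hw.w0.le) hw.sw, lin s hw.s0 (by linarith [hw.sw, hw.w0])] at a3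
  exact ⟨⟨z1, (jr lnk hT z1.p0.toG0).1.trans
    (rate_le (le_of_mul_le_mul_left (by linarith) hw.w0))⟩, by linarith⟩

end Pool.Agent.MP_5168f5_an.AN.TG.TP
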