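import Pool.Agent.MP_5168f5_an.AN.TRNGBP
import Pool.Agent.MP_5168f5_an.AN.TRNGWP
import Pool.Agent.MP_5168f5_an.AN.TRTanP
import Pool.Agent.MP_5168f5_an.AN.TRNGCP
import Pool.Agent.MP_5168f5_an.AN.TRPFuP
import Pool.Agent.MP_5168f5_an.AN.TRWinP
import Pool.Agent.MP_5168f5_an.AN.TRDefP
import Pool.Agent.MP_5168f5_an.AN.TRMinP
import Pool.Agent.MP_5168f5_an.AN.TRNGDP
import Pool.Agent.MP_5168f5_an.AN.TRClRP
import Pool.Agent.MP_5168f5_an.AN.TRTermR
import Pool.Agent.MP_5168f5_an.AN.TRBFin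

/-! Kakeya sets in all dimensions: the terminal case with a marked index. -/

namespace Pool.Agent.MP_5168f5_an.AN.TG.TP

theorem rowTermP : OfTermP := fun kit =>
  have z := rowZwP kit
  have w := rowWinP z rowPFuP
  rowTermR (rowDefP z rowPFuP) (rowMinP kit) (rowClBP kit) (rowTanP kit w)
    (rowBFinP (rowClRP kit) (rowNGWP z (rowNGCP w) (rowNGDP kit (rowNGBP kit rowPFuP))))

end Pool.Agent.MP_5168f5_an.AN.TG.TP
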