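import Pool.Agent.MP_5168f5_an.AN.TRSpec
import Pool.Agent.MP_5168f5_an.AN.TPHm
import Pool.Agent.MP_5168f5_an.AN.TPApi
import Pool.Agent.MP_5168f5_an.AN.TQFul
import Pool.Agent.MP_5168f5_an.AN.TQAc
import Pool.Agent.MP_5168f5_an.AN.TQInd
import Pool.Agent.MP_5168f5_an.AN.TBH
import Pool.Agent.MP_5168f5_an.AN.NCH
import Pool.Agent.MP_5168f5_an.QA.HtS

/-! Kakeya sets in all dimensions: the marked terminal case, the final contradiction. -/

namespace Pool.Agent.MP_5168f5_an.AN.TG.TP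

open H19 H17S H17F G39 GA TL TA Filter H61Z
open TB (NGG Tm)

namespace BFinPA

variable {ι κ : Type} [Fintype ι] [DecidableEq ι] [Fintype κ] {Φ : Filt (Mt ι)}
  {om : κ → ℝ × ℝ} {pos bs : κ → Prop} {t : κ} {kf : ℕ → ℕ} {C K : ℝ} {p : ℕ → Sp ι κ}

/-- The data of the bilinear step, with the fine context in the last object. -/
noncomputable abbrev tp (om : κ → ℝ × ℝ) (pos : κ → Prop) (q : Sp ι κ) (bs : κ → Prop) (K : ℝ) :
    Tm κ κ κ :=
  { tm om pos q.u bs K with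
    A4 := (tm om pos q.u bs K).A4 × q.y.T
    Pi := fun ω => ((tm om pos q.u bs K).Pi ω, q.y.Θ ω) }

theorem fz (q : Sp ι κ) (d : κ → ℝ) : Fn q.y.P (Zl q.u d) (Zl q.y d) :=
  fun _ _ _ _ e => congrArg (fun z : Mt ι × q.y.T => (z.1, q.g z.2)) e

/-- The marked coordinate given any object that is read from the cell. -/
theorem ht (hT : Term om) (g : GP Φ om pos t kf C p) (p1t : P1 om t) (hK : 0 ≤ K) {A : ℕ → Type}
    {O : ∀ n, (p n).y.Ω → A n}
    (hO : Sm (un (ys p)) fun n => ch (p n).y.P (O n) (Zl (p n).u (dep om (lv true K)))) :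
    TB.HTS (pr (ys p)) (fun n ω => TB.rd (p n).y.M (p1 om (xc (p n).u ω)) t) O (un (ys p)) := by
  have hM := g.p0.alg.big
  have gu := g.p0.us
  have w := wk g.p0.toG0
  have gd := (lnk ι κ Φ om pos _ hT g.p0.toG0).1
  refine QA.hts hM fun θ hθ => ?_
  obtain ⟨i, hi⟩ := exists_nat_one_div_lt hθ
  have h1 := QA.HT1.ctx (g.hp i (lv true K) H17S.lg le_rfl hK lg_pos.le) hM
    (K' := fun n => ((p n).u.side (O n)).Z (sc (p n).y.M (dep om (lv true K))))
    (hO.mono (.of_forall fun n => ch_le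
      (fun _ _ _ _ e => by simp only [Sy.Z, Prod.mk.injEq] at e ⊢; tauto) (Fn.rfl _)))
  have h2 := tpHm ι κ Φ om pos (fun n => (p n).u.side (O n)) t (kf i)
    (fun n => sc (p n).y.M 0) (fun n => sc (p n).y.M (dep om (lv true K)))
    (fun n => H17S.lg * (p n).y.M) (fun n => H17S.lg * (p n).y.M) _
    ⟨⟨gu.alg, gu.unit⟩, gu.tp, gu.tk, gu.nt⟩ (gd_id g.p0.toG0 (gd 0 gt_zero).id)
    (gd_id g.p0.toG0 (gd _ (w.gt_lv true hK)).id)
    ⟨H17S.lg, .of_forall fun n => ⟨le_rfl, fun a => by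
      have := lg_pos
      simp only [sc, Pi.zero_apply, zero_mul, abs_zero]; positivity⟩⟩
    (fun a => Le.of_le fun n =>
      mul_le_mul_of_nonneg_right ((w.gt_lv true hK).nn a) (Nat.cast_nonneg _))
    (Le.of_le fun n => by simp only [sc, BFulA.dep_lv (k := true) p1t, Pi.zero_apply, le_refl]) h1
  refine ⟨kf i, ((QA.HT1.coarse h2 (K' := O) (.of_forall fun n _ _ _ _ e =>
    congrArg (·.2.1) e)).congr (.of_forall fun n ω _ => ?_)).mono (Le.of_le fun n => ?_)⟩
  · have e : Real.exp (H17S.lg * (p n).y.M) = 2 ^ (p n).y.M := by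
      rw [mul_comm, Real.exp_nat_mul, H17S.lg, Real.exp_log two_pos]
    simp only [TB.rd, tX, Sy.co, rA, sc, Pi.zero_apply, zero_mul, e, p1, if_pos p1t]
    rw [mul_div_cancel₀ _ (by positivity), Int.floor_intCast, _root_.neg_zero, Real.exp_zero,
      div_one]
    rfl
  · have := mul_le_mul_of_nonneg_right hi.le
      (mul_nonneg lg_pos.le (Nat.cast_nonneg (α := ℝ) (p n).y.M))
    simp only [un]
    linarith

end BFinPA

open BFinPA in
theorem rowBFinP : OfBFinP := by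
  intro hClR hNGW ι κ _ _ _ Φ om pos t kf C p hT g bs K m p1t bt hb hK hJ hL hI iy iu hm
  classical
  have h0 := g.p0.toG0
  have hu := g0_us h0
  have w := wk h0
  by_contra hlt
  rw [not_le] at hlt
  obtain ⟨k, hk⟩ := BFinA.ex_cc (hm.trans_lt hlt)
  have e0 : 0 < min 1 ((TT om pos - m) / 2) := lt_min one_pos (by linarith)
  have e1 : min 1 ((TT om pos - m) / 2) ≤ 1 := min_le_left _ _
  have e2 : m + min 1 ((TT om pos - m) / 2) < TT om pos := by
    linarith [min_le_right 1 ((TT om pos - m) / 2)]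
  obtain ⟨t1, t2, L, hLs, hal⟩ := rowBAlg rowCrd ι κ Φ om pos _ hT hu bs K hb hK
  obtain ⟨i1, i2, -⟩ := rowBInd lnk bDet ι κ Φ om pos _ hT hu bs K hb hK iu
  obtain ⟨d1, d2, -⟩ := bDet ι κ Φ om pos _ hT hu bs K hb hK
  have mem : t ∈ Bs om bs true := Finset.mem_filter.2 ⟨Finset.mem_univ _, bt, p1t⟩
  have i3 := trQ ι κ Φ om pos _ hT hu bs K hb hK _ (fun n => (p n).y.Θ)
    (.of_forall fun n _ _ _ _ e => congrArg (p n).g e)
    ((g.ep.ind true 0 K p1t le_rfl hK.1).of_sub (.of_forall fun n => by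
      have z : dU om true 0 = 0 := funext fun a => by simp [dU]
      have : (p n).y.H (sc (p n).y.M 0) (sc (p n).y.M (dep om (lv true K))) ≤
          ch (p n).y.P (Cl (p n).u (dep om (lv true K))) fun ω =>
            ((p n).y.Θ ω, Zl (p n).u 0 ω) := ch_anti fun a _ b _ e => by
        have u : (p n).y.Θ a = (p n).y.Θ b := congrArg (·.2) e
        exact Prod.ext u (Prod.ext (congrArg (·.1) e) (congrArg (p n).g u))
      rw [z, mi_symm, mi, sub_zero]
      exact sub_le_sub le_rfl this)) (iy true K hK.1)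
  have f1 := @fulT _ _ _ _ _ _ _ _ _ _ _ _ (Classical.decEq κ) hT h0 hb hK.1 true mem ((g.ep.f true (lv true K) H17S.lg le_rfl hK.1
      lg_pos.le).of_sub (.of_forall fun n => by
        rw [cd_er, ← GO.cd_eq, GO.ind_pos (S := fun a => pos a ∧ Pu om true a) ⟨g.p0.tp, p1t⟩]
        exact le_rfl))
    (detZ hT h0 g.p0.nt gt_zero (w.gt_lv true hK.1) (w.gt_lv true hK.1).nn
      (g.ep.det _ lg_pos.le)) (fun n ω => p1 om (xc (p n).y ω)) (fun _ _ _ e => if_pos e) _ _
    (d1.mono (.of_forall fun n => ch_anti (fz (p n) _)))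
  have f2 := fulS hT h0 hb hK.1 false (s := 0) ((g.ep.f false (lv false K) H17S.lg hK.1 le_rfl
      lg_pos.le).of_sub (.of_forall fun n => by
        rw [cd_er, ← GO.cd_eq, GO.ind_neg (S := fun a => pos a ∧ Pu om false a)
          fun z => p1t.1.ne' z.2.1]
        exact le_rfl)) (u := fun n ω => p2 om (xc (p n).y ω)) (fun _ _ _ e => if_pos e)
    (d2.mono (.of_forall fun n => ch_anti (fz (p n) _)))
  rw [sub_zero] at f2
  have ng : NGG (pr (ys p)) (fun n => (tp om pos (p n) bs K).Pi) (fun n => ga om pos (p n).y)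
      (tc om pos) (un (ys p)) (min 1 ((TT om pos - m) / 2)) := by
    refine rowNGL (pr (ys p)) (fun n => Pi0 om pos (p n).y K) _ _ _ _ _ h0.alg.big w.tc e0.le e1
      (fun n ω _ ω' _ e => ?_) fun W Q ρ hd => ?_
    · exact Prod.ext (congrArg (·.1.1) e) (Prod.ext (congrArg (·.1.2.1.1) e)
        (Prod.ext (congrArg (·.1.2.1.2.2.1) e) (congrArg (·.2) e)))
    · have hy := hClR ι κ Φ om pos t kf C p hT g m hJ hL W Q ρ hd
      exact hNGW ι κ Φ om pos t kf C _ hT hy.1 m K _ hy.2 hL hI hK e0 e1 e2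
  obtain ⟨η, hη, hs⟩ := TB.tbmH TB.nch (fun n => tp om pos (p n) bs K) (Bs om bs true)
    (Bs om bs false) t1 t2 (tc om pos) (un (ys p)) L _ t ⟨h0.alg.big, hLs, w.tc, ⟨e0, e1⟩,
      (hal L fun _ => le_rfl).mono fun n a => ⟨a.bc, a.bd, a.gr, a.tv, a.vv, a.v1, a.g1, a.t2, a.u2,
        a.g2, a.up.trans (Fn.fst _ _)⟩, i1, i2, i3, mem, f1, ht hT g p1t hK.1 d1,
      f2, bAc1' ι κ Φ om pos _ hT hu bs K hb hK _ C L g.ac hLs,
      bAc2' ι κ Φ om pos _ hT hu bs K hb hK _ C g.ac, ng⟩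
  refine tGen ι κ _ Φ om pos _ _ k h0.alg hT hk.2 fun a b ha hb' hh => ?_
  by_cases u : bs a ∨ bs b
  · refine ⟨η, hη, hs.mono fun n hn => ?_⟩
    have v : cT om pos bs (p n).y.c a b k = (p n).y.c a b k := if_pos ⟨ha, hb', hh, hk, u⟩
    have w := hn a b k
    change |cT om pos bs (p n).y.c a b k| ≤ _ at w
    rw [v] at w
    exact w
  · exact (hb.ker a b k ha hb' (fun y => u (Or.inl y)) (fun y => u (Or.inr y)) hk.2 hk.1).os

end Pool.Agent.MP_5168f5_an.AN.TG.TP
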