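import Pool.Agent.MP_5168f5_an.AN.TRSpec

/-! Kakeya sets in all dimensions: fullness modulo a direction, with a marked index. -/

namespace Pool.Agent.MP_5168f5_an.AN.TG.TP

open H19 H17S H17F G39 GA TL TA Filter H61Z

namespace NGBPA

open Classical

variable {ι κ : Type} [Fintype ι] [DecidableEq ι] [Fintype κ] {Φ : Filt (Mt ι)}
  {om : κ → ℝ × ℝ} {pos : κ → Prop} {q : ℕ → Sp ι κ} {i t : κ} {kf : ℕ → ℕ}

/-- The statement for a fixed direction. -/
theorem core (kit : KitP) (hP : PFuP) (hT : Term om) {C : ℝ} (h : GP Φ om pos t kf C q)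
    (ih : IH1P Φ pos t) (hi : CC om pos i) {β : ℕ → κ → ℝ} (hβ : ∀ᶠ n in UF, Dir om pos i (β n)) :
    Le (un (ys q)) (fun n => (TT om pos - tt om i) * (q n).y.M) fun n =>
      ch (q n).y.P (Cb (q n).y i (fun _ => β n) (dQ om pos i 0 1)) (Zl (q n).y (dY om pos 1 0)) := by
  have c := NGBA.chg (x := ys q) h.p0.alg.big hi hβ
  have w := wk h.p0.toG0
  have gY := w.gt_dY le_rfl zero_le_one
  have gQ := w.gt_dQ i le_rfl zero_le_one le_rfl
  have b := ((bInv _ _ Φ om pos (ys q) hT h.p0.toG0 _ _ c).2 _ _ gY (w.cp_dY le_rfl zero_le_one)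
    (apx_sc (ys q) _)).2
  have ti : t ≠ i := fun s => h.p0.tk (s ▸ hi.2)
  have b0 : ∀ᶠ n in UF, β n t = 0 := hβ.mono fun n k => by_contra fun y => h.p0.tk (k.2.2 t y).1.2
  have g := (kit.bas _ _ Φ om pos t kf C q _ _ h c.1 c.2.1 c.2.2 fun a v =>
    ⟨neg_ev (b0.mono fun n k => by
      simp only [TA.Ab, Matrix.updateRow_apply]
      split_ifs
      exacts [k, Matrix.one_apply_ne v]), neg_ev (b0.mono fun n k => by
      simp only [Ab', Matrix.updateRow_apply]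
      split_ifs
      · simp [k, ti]
      · exact Matrix.one_apply_ne v)⟩).1
  set y := fun n => (q n).bas (TA.Ab i (β n)) (Ab' i (β n)) with hy
  have g0 : G0 Φ om (fun a => pos a ∧ a ≠ i) (ys y) :=
    ⟨(sQuot _ _ _ Φ om pos _ _ i g.p0.alg).2.2.1 fun a e _ u _ =>
      ((tl2 _ _ _ Φ om pos _ _ g.p0.alg).2 hT).2 i hi.2 a e (w.live e u), g.p0.unit⟩
  have g' := (kit.swap _ _ Φ om pos t kf C y g).2 _ (fun _ u => u.1) ⟨g.p0.tp, ti⟩ g0
  have f := (hP _ _ Φ om _ t kf C y hT g').2.2.2.1 (ih om _ (by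
    unfold cd
    exact_mod_cast Finset.card_lt_card ⟨fun a => by simp +contextual, fun u => by
      simpa using u (x := i) (by simpa using hi.1)⟩) kf C y g') 1 zero_le_one
  obtain ⟨pm, z, -⟩ := hP _ _ Φ om pos t kf C y hT g
  have l := (lnk _ _ Φ om pos (ys y) hT g.p0.toG0).2.2.2
  have gU : GT om pos (up 0 1 fun a => pos a ∧ a ≠ i) :=
    gt_zero.up zero_le_one (fun a u => w.live a u.1) fun a b e _ u v k t =>
      k.elim (fun k => .inl ⟨k, fun s => u (s ▸ hi.2)⟩) fun k =>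
        .inr ⟨k.resolve_right (not_not.2 t.1), fun s => v (s ▸ hi.2)⟩
  have e1 := pm.lip _ _ gQ gU fun a => by
    unfold up
    rcases tri om pos a with k | k | k
    · rw [dQ, dF_pp k, if_pos ⟨k.1, fun s => k.2 (s ▸ hi.2)⟩]; simp
    · have := w.tt_lt a
      rw [dQ, dF_cc k]
      by_cases s : a = i <;> simp [s, k.1, this.le]
    · rw [dQ, dF_st k]; simp [k]
  have e2 := pm.lip _ _ gt_zero gY gY.nn
  have e3 := pm.mono _ _ gQ (gQ.sup gY) le_sup_left
  have e4 : Hs (ys y) t (dQ om pos i 0 1 ⊔ dY om pos 1 0) - Hs (ys y) t (dY om pos 1 0) =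
      Hx (ys y) (dQ om pos i 0 1 ⊔ dY om pos 1 0) - Hx (ys y) (dY om pos 1 0) := by
    have k : PP om pos t := ⟨h.p0.tp, h.p0.tk⟩
    simp only [Hs, Pi.sup_apply, dQ, dY, dF_pp k, sup_idem]; ring
  rw [Finset.sum_sub_distrib, NGBA.sum_up, NGBA.sum_dQ hi] at e1
  simp only [Pi.zero_apply, sub_zero, sum_dY, z] at e2
  refine (rate_le (by linarith)).trans
    ((l _ _ _ _ _ _ gQ gY gY (apx_sc _ _) (apx_sc _ _) (apx_sc _ _)).2.1.2.trans
      (b.of_sub (Eventually.of_forall fun n => ?_)))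
  rw [sub_zero, sub_le_iff_le_add']
  exact (ch_tri' _ _ (Zl (q n).y (dY om pos 1 0))).trans (add_le_add le_rfl
    (ch_le ((Fn.fst _ _).pair ((Fn.snd _ _).right _)) (Fn.fst _ (q n).y.Θ)))

end NGBPA

theorem rowNGBP : OfNGBP := by
  intro kit hP ι κ _ _ _ Φ om pos t kf C p hT h i b ih hi hb hU hY
  by_contra hc
  obtain ⟨ε, hε, hc⟩ := not_Le hc
  set T := TT om pos - tt om i
  let Δ : ∀ n, (κ → ℝ) × (p n).K → ℝ := fun n s =>
    ch (cv (p n).y.P ((p n).side (b n)).u.Θ s) (Cb (p n).y i (fun _ => s.1) (dQ om pos i 0 1))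
      (Zl (p n).y (dY om pos 1 0))
  have e : ∀ n, Dl om pos (p n).y i (b n) =
      (p n).y.P.E fun ω => Δ n (b n ω, (p n).g ((p n).y.Θ ω)) := fun n => by
    refine Eq.trans ?_ (R4.ke.ent (p n).y.P ((p n).side (b n)).u.Θ
      (fun s => Cb (p n).y i (fun _ => s.1) (dQ om pos i 0 1)) fun _ => Zl (p n).y (dY om pos 1 0))
    refine ch_congr (Fn.fst _ _) (Fn.fst _ _) (fun u _ v _ k => ?_) fun u _ v _ k => ?_
    · simp only [Zl, Sy.Z, Prod.mk.injEq] at k ⊢; tauto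
    · simp only [Zl, Sy.Z, Prod.mk.injEq] at k ⊢
      have := congrArg (p n).g k.2.2
      tauto
  have nn : ∀ n, 0 ≤ Dl om pos (p n).y i (b n) := fun n => ch_nonneg _ _
  have hT' : ε < T := by
    obtain ⟨n, u⟩ := hc.exists
    exact lt_of_mul_lt_mul_right (by linarith [nn n]) (Nat.cast_nonneg (p n).y.M)
  have hM : Big (un (ys p)) := h.p0.alg.big
  obtain ⟨θ, hθ, g⟩ := kit.frz _ _ Φ om pos t kf C _ (kit.side _ _ Φ om pos t kf C p h _ b hU hY)
    (fun n s => ¬(T - ε / 2) * (p n).y.M ≤ Δ n s) ⟨ε / 2 / (T - ε / 2), div_pos (by linarith)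
      (by linarith), (hc.and (hM.ev 1)).mono fun n u => by
      have m := markov (p n).y.P (u := fun ω => Δ n (b n ω, (p n).g ((p n).y.Θ ω)))
        (fun _ _ => ch_nonneg _ _) ((T - ε / 2) * (p n).y.M)
      refine le_trans ?_ (pb_not _ _).ge
      rw [div_le_iff₀ (by linarith)]
      rw [← e] at m
      exact le_of_mul_le_mul_right (by linarith [u.1]) (one_pos.trans_le u.2)⟩
  refine (NGBPA.core kit hP hT g ih hi (β := fun n => (θ n).1) ((hθ.and hb).mono
    fun n u => ?_)).false hM (half_pos hε) (hθ.mono fun n u => ?_)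
  · obtain ⟨ω, k, r⟩ := u.1.2
    exact r ▸ u.2 ω k
  · refine le_trans (add_le_add_left (le_trans (ch_anti fun a _ a' _ k => ?_) (not_le.1 u.1).le) _)
      (le_of_eq (by ring))
    simp only [Zl, Sy.Z, Prod.mk.injEq] at k ⊢
    exact ⟨k.1, k.2.2⟩

end Pool.Agent.MP_5168f5_an.AN.TG.TP
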