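import Pool.Agent.MP_5168f5_an.AN.TPSpec
import Pool.Agent.MP_5168f5_an.AN.TAAll
import Pool.Agent.MP_5168f5_an.AN.TQAdp
import Pool.Agent.MP_5168f5_an.AN.TQZm

/-! Kakeya sets in all dimensions: the terminal case with a marked index, statements. -/

namespace Pool.Agent.MP_5168f5_an.AN.TG.TP

open H19 H17S H17F G39 GA TL TA Filter H61Z
open R4.K31 (DnS)

section Defs

variable {ι κ : Type} [Fintype ι] [DecidableEq ι] [Fintype κ] (Φ : Filt (Mt ι))
  (om : κ → ℝ × ℝ) (pos : κ → Prop) (t : κ) (kf : ℕ → ℕ)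

/-- The window at level `v` of length `w`. -/
noncomputable abbrev zp (q : Sp ι κ) (v : ℝ × ℝ) (w : ℝ) : Sp ι κ :=
  q.zm (sc q.y.M (dep om v)) ⌊w * q.y.M⌋₊

/-- The mixed positions have rate at most `m` given the fine context. -/
def JL (m : ℝ) (p : ℕ → Sp ι κ) : Prop :=
  Le (un (ys p)) (fun n => JJ om pos (p n).y) fun n => m * (p n).y.M

/-- A marked system in which the mixed positions have rate at most `m`. -/
def MnP (C m : ℝ) (p : ℕ → Sp ι κ) : Prop := GP Φ om pos t kf C p ∧ JL om pos m p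

/-- In all marked systems the mixed positions have rate at least `m`. -/
def LowP (C m : ℝ) : Prop := ∀ q : ℕ → Sp ι κ, GP Φ om pos t kf C q →
  Le (un (ys q)) (fun n => m * (q n).y.M) fun n => JJ om pos (q n).y

end Defs

/-- A statement about all marked systems in the terminal case. -/
def AllR (q : ∀ (ι κ : Type) [Fintype ι] [DecidableEq ι] [Fintype κ], Filt (Mt ι) → (κ → ℝ × ℝ) →
    (κ → Prop) → κ → (ℕ → ℕ) → ℝ → (ℕ → Sp ι κ) → Prop) : Prop :=
  AllP fun ι κ _ _ _ Φ om pos t kf C p => Term om → GP Φ om pos t kf C p → q ι κ Φ om pos t kf C p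

/-- Windows. -/
def ZwP : Prop := AllR fun _ _ _ _ _ Φ om pos t kf C p => ∀ (v : ℝ × ℝ) (w : ℝ), 0 ≤ v.1 →
  0 ≤ v.2 → 0 < w → GP Φ om pos t kf C fun n => zp om (p n) v w

def OfZwP : Prop := KitP → ZwP

/-- The shifted rate. -/
def PFuP : Prop := AllR fun _ _ _ _ _ _ om pos t _ _ p =>
  GO.Pm (GT om pos) (Hs (ys p) t) ∧ Hs (ys p) t 0 = 0 ∧
  (∀ (v : ℝ × ℝ) (r : ℝ), 0 ≤ v.1 → 0 ≤ v.2 → 0 ≤ r → Hs (ys p) t (dep om v) +
    cd (PP om pos) * r ≤ Hs (ys p) t (dep om v + dF om pos r 0)) ∧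
  (FullP pos t p ↔ ∀ r : ℝ, 0 ≤ r → cd pos * r ≤ Hs (ys p) t (up 0 r pos))

/-- In a minimal system all windows have the minimal rate. -/
def WinP : Prop := AllR fun _ _ _ _ _ Φ om pos t kf C p => ∀ m, JL om pos m p →
  LowP Φ om pos t kf C m →
  (∀ s : ℝ, 0 ≤ s → s ≤ 1 → Hx (ys p) (dY om pos 1 s) = Hx (ys p) (dY om pos 1 0) + m * s) ∧
  ∀ v s w, Wn om pos v s w → MnP Φ om pos t kf C m (fun n => zp om (p n) v w) ∧
    Hx (ys p) (dep om v ⊔ dY om pos 1 (s + w)) = Hx (ys p) (dep om v ⊔ dY om pos 1 s) + m * w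

def OfWinP : Prop := ZwP → PFuP → WinP

/-- A system that is not full gives a deficient window. -/
def DefP : Prop := AllR fun ι κ _ _ _ Φ om pos t kf C p => ¬FullP pos t p →
  ∃ (m : ℝ) (q : ℕ → Sp ι κ), m < TT om pos ∧ MnP Φ om pos t kf C m q

def OfDefP : Prop := ZwP → PFuP → DefP

/-- The minimal rate is attained. -/
def MinP : Prop := AllR fun ι κ _ _ _ Φ om pos t kf C p => ∀ m, JL om pos m p →
  ∃ (m' : ℝ) (q : ℕ → Sp ι κ), 0 ≤ m' ∧ m' ≤ m ∧ MnP Φ om pos t kf C m' q ∧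
    LowP Φ om pos t kf C m'

def OfMinP : Prop := KitP → MinP

def ClBP : Prop := AllR fun _ κ _ _ _ Φ om pos t kf C p => ∀ [DecidableEq κ] (m : ℝ)
  (A A' : ℕ → Matrix κ κ ℝ), Chg om pos (ys p) A A' → (∀ n, Fx t (A n) ∧ Fx t (A' n)) →
  JL om pos m p → MnP Φ om pos t kf C m fun n => (p n).bas (A n) (A' n)

def OfClBP : Prop := KitP → ClBP

/-- Refinements of minimal systems. -/
def ClRP : Prop := AllR fun _ _ _ _ _ Φ om pos t kf C p => ∀ m, JL om pos m p →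
  LowP Φ om pos t kf C m → ∀ (W : ℕ → Type) (Q : ∀ n, FP (W n)) (ρ : ∀ n, W n → (p n).y.Ω),
  DnS Q ρ (pr (ys p)) → MnP Φ om pos t kf C m fun n => (p n).pull (Q n) (ρ n)

def OfClRP : Prop := KitP → ClRP

/-- The tangent with independent families. -/
def TanP : Prop := AllR fun ι κ _ _ _ Φ om pos t kf C p => ∀ (m : ℝ) (bs : κ → Prop),
  JL om pos m p → LowP Φ om pos t kf C m →
  Adb (OS (un (ys p))) om pos bs (fun n => (p n).y.c) →
  ∃ q : ℕ → Sp ι κ, MnP Φ om pos t kf C m q ∧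
    Adb (Neg (un (ys q))) om pos bs (fun n => (q n).y.c) ∧ Ind om (ys q) ∧ Ind om (us q)

def OfTanP : Prop := KitP → WinP → TanP

/-- The chain of inequalities in one window. -/
def NGCP : Prop := AllR fun _ κ _ _ _ Φ om pos t kf C p => ∀ (m K : ℝ) (i : κ) (A : ℕ → Type)
  (k : ∀ n, (p n).y.Ω → A n) (b : ∀ n, (p n).y.Ω → κ → ℝ) (ρ w s' : ℝ), JL om pos m p →
  LowP Φ om pos t kf C m → Kb om K → CC om pos i → DirS om pos (ys p) i b →
  (∀ᶠ n in UF, Fn (p n).y.P (b n) (k n)) → 0 ≤ ρ → 0 < w → ρ + w ≤ s' → s' ≤ 1 →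
  Le (un (ys p)) (fun n =>
      Dl om pos (zw om (p n).y (dg om ρ) w) i (fun ω => rw (p n).y.M w (b n ω)) +
      ch (p n).y.P (fun ω => fG (tc om pos) (p n).y.M (ρ + w) (ga om pos (p n).y ω))
        (cn om pos (p n).y K i (b n) (k n) s' ρ))
    fun n => m * w * (p n).y.M + Ib' om pos (p n).y (fun ω => rw (p n).y.M w (b n ω)) ρ w

def OfNGCP : Prop := WinP → NGCP

/-- Modulo a direction without information the mixed positions are full. -/
def NGBP : Prop := AllR fun _ κ _ _ _ Φ om pos t _ _ p => ∀ (i : κ)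
  (b : ∀ n, (p n).y.Ω → κ → ℝ), IH1P Φ pos t → CC om pos i → DirS om pos (ys p) i b →
  (∀ s : ℝ, 0 ≤ s → Sm (un (ys p)) fun n => Ib om (p n).u (b n) s) →
  (∀ s : ℝ, 0 ≤ s → Sm (un (ys p)) fun n => Ib om (p n).y (b n) s) →
  Le (un (ys p)) (fun n => (TT om pos - tt om i) * (p n).y.M) fun n => Dl om pos (p n).y i (b n)

def OfNGBP : Prop := KitP → PFuP → NGBP

/-- The same with a uniform error. -/
def NGDP : Prop := ∀ (ι κ : Type) [Fintype ι] [DecidableEq ι] [Fintype κ] (Φ : Filt (Mt ι))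
  (om : κ → ℝ × ℝ) (pos : κ → Prop) (t : κ) (kf : ℕ → ℕ) (C η : ℝ) (i : κ), Term om →
  IH1P Φ pos t → CC om pos i → 0 < η →
  ∃ k : ℕ, ∀ (p : ℕ → Sp ι κ) (b : ∀ n, (p n).y.Ω → κ → ℝ), GP Φ om pos t kf C p →
    DirS om pos (ys p) i b →
    Le (un (ys p)) (fun n => (k + 1) * (Ib om (p n).u (b n) k + Ib om (p n).y (b n) k))
      (fun n => (p n).y.M) →
    Le (un (ys p)) (fun n => (TT om pos - tt om i - η) * (p n).y.M) fun n =>
      Dl om pos (p n).y i (b n)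

def OfNGDP : Prop := KitP → NGBP → NGDP

/-- No direction of the central coordinates of a minimal system has a large rate. -/
def NGWP : Prop := AllR fun _ _ _ _ _ Φ om pos t kf C p => ∀ m K ε₀ : ℝ, JL om pos m p →
  LowP Φ om pos t kf C m → IH1P Φ pos t → Kb om K → 0 < ε₀ → ε₀ ≤ 1 → m + ε₀ < TT om pos →
  NG1 (pr (ys p)) (fun n => Pi0 om pos (p n).y K) (fun n => ga om pos (p n).y) (tc om pos)
    (un (ys p)) ε₀

def OfNGWP : Prop := ZwP → NGCP → NGDP → NGWP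

/-- There is no minimal system with independent families and a deficit. -/
def BFinP : Prop := AllR fun _ κ _ _ _ Φ om pos t kf C p => ∀ (bs : κ → Prop) (K m : ℝ),
  P1 om t → bs t → Adb (Neg (un (ys p))) om pos bs (fun n => (p n).y.c) → Kb om K →
  JL om pos m p → LowP Φ om pos t kf C m → IH1P Φ pos t → Ind om (ys p) → Ind om (us p) →
  0 ≤ m → TT om pos ≤ m

def OfBFinP : Prop := ClRP → NGWP → BFinP

def OfTermR : Prop := DefP → MinP → ClBP → TanP → BFinP → STermP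

end Pool.Agent.MP_5168f5_an.AN.TG.TP
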