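import Pool.Agent.MP_5168f5_an.AN.SpecV

/-! Rows Blur and UpP: polynomials in small boxes, and cells of good points. -/

namespace Pool.Agent.MP_5168f5_an.AN.Vo

open H19 H17S H17F Filter MvPolynomial Metric Nc

namespace VBlurA

variable {d : ℕ} {ν : Pl d → ℝ} {lam y : V d} {t : ℝ}

theorem step {B : ℝ} {F : Pl d} (hB : 0 ≤ B) (h0 : 0 ≤ ν F) (hl : ∀ j, 0 ≤ lam j)
    (hd : ∀ j, ν (pderiv j F) ≤ lam j * ν F)
    (h : ∀ z : V d, (∀ j, lam j * |z j - y j| ≤ t) → ∀ j,
      |eval z (pderiv j F)| ≤ B * ν (pderiv j F))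
    {z : V d} (hz : ∀ j, lam j * |z j - y j| ≤ t) : |eval z F - eval y F| ≤ d * B * t * ν F := by
  have h1 := norm_image_sub_le_of_norm_deriv_le_segment_01' (C := d * B * t * ν F)
    (f := fun s : ℝ => eval (y + s • (z - y)) F)
    (f' := fun s => ∑ j, eval (y + s • (z - y)) (pderiv j F) * (z j - y j))
    (fun s _ => by
      have := (H83.IsPoly.hasFDerivAt_eval F (y + s • (z - y))).comp_hasDerivAt s
        (((hasDerivAt_id s).smul_const (z - y)).const_add y)
      simpa [Function.comp_def] using this.hasDerivWithinAt) fun s hs => by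
      refine (Finset.abs_sum_le_sum_abs _ _).trans ((Finset.sum_le_card_nsmul _ _ (B * t * ν F)
        fun j _ => ?_).trans_eq (by simp [mul_assoc]))
      have a1 := h (y + s • (z - y)) (fun j => (mul_le_mul_of_nonneg_left (by
        simp only [Pi.add_apply, Pi.smul_apply, Pi.sub_apply, add_sub_cancel_left, smul_eq_mul,
          abs_mul, abs_of_nonneg hs.1]
        exact mul_le_of_le_one_left (abs_nonneg _) hs.2.le) (hl j)).trans (hz j)) j
      rw [abs_mul]
      calc _ ≤ B * (lam j * ν F) * |z j - y j| := mul_le_mul_of_nonneg_right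
            (a1.trans (mul_le_mul_of_nonneg_left (hd j) hB)) (abs_nonneg _)
        _ = B * (lam j * |z j - y j|) * ν F := by ring
        _ ≤ _ := by gcongr; exact hz j
  simpa using h1

end VBlurA

open VBlurA in
theorem vBlur : Blur := by
  intro d E ν lam y y' L t h0 hl hd hG hL ht hy F hF
  have key : ∀ e, e ≤ E → ∀ G : Pl d, G.totalDegree ≤ e → ∀ z : V d,
      (∀ j, lam j * |z j - y j| ≤ t) → |eval z G| ≤ (d + 1) ^ e * L * ν G := by
    intro e
    induction e with
    | zero =>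
      intro _ G h z _
      have := hG G (h.trans (Nat.zero_le _))
      rw [totalDegree_eq_zero_iff_eq_C.1 (Nat.le_zero.1 h), eval_C] at this ⊢
      simpa using this
    | succ e ih =>
      intro he G h z hz
      have a1 := step (B := (d + 1) ^ e * L) (by positivity) (h0 G) hl (hd G (h.trans he))
        (fun w hw j => ih (by omega) _ (kc.der G _ j h).2 w hw) hz
      have a2 := hG G (h.trans he)
      have a3 : 0 ≤ L * ν G := mul_nonneg hL (h0 G)
      have a4 := le_mul_of_one_le_left a3 (one_le_pow₀ (n := e) (by simp : (1 : ℝ) ≤ d + 1))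
      have a5 := mul_le_of_le_one_right (show 0 ≤ (d : ℝ) * (d + 1) ^ e * (L * ν G) by positivity) ht
      have a6 := abs_sub_abs_le_abs_sub (eval z G) (eval y G)
      rw [pow_succ]
      linarith
  exact (step (B := (d + 1) ^ E * L) (by positivity) (h0 F) hl (hd F hF) (fun w hw j =>
    key E le_rfl _ ((H83.IsPoly.totalDegree_pderiv_le F j).trans hF) w hw) hy).trans_eq (by ring)

theorem vUpP : OfUpP := by
  intro hB hU d D
  obtain ⟨A₀, a0, hA⟩ := hU d D
  obtain ⟨c, hc⟩ : ∃ c : ℝ, c = d * (d + 1) ^ ((d + 1) * D) := ⟨_, rfl⟩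
  have c0 : 0 ≤ c := by rw [hc]; positivity
  have a1 : 1 ≤ A₀ * 2 ^ (d + 1) := one_le_mul_of_one_le_of_one_le a0 (one_le_pow₀ one_le_two)
  refine ⟨2 * c + A₀ * 2 ^ (d + 1), by linarith, fun ν Φ lam K R L h0 hl hL hJ hΦ hd hK => ?_⟩
  generalize hA' : 2 * c + A₀ * 2 ^ (d + 1) = A at hK ⊢
  have a2 : 1 ≤ A := by linarith
  have r1 : (1 : ℝ) ≤ 2 ^ R := one_le_pow₀ one_le_two
  have l1 : 1 ≤ L ^ 2 := one_le_pow₀ hL
  have v0 := vol_pos K
  have key : ∀ y y', Gd ν ((d + 1) * D) L y → cel K y' = cel K y → ∀ F : Pl d,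
      F.totalDegree ≤ (d + 1) * D → |eval y' F - eval y F| ≤ ν F / (2 * L) / 2 ^ R := by
    intro y y' hG e F hF
    refine (hB d _ ν lam y y' L (1 / (A * L ^ 2 * 2 ^ R)) h0 hl hd hG (by linarith)
      ((div_le_one (by positivity)).2 (one_le_mul_of_one_le_of_one_le
        (one_le_mul_of_one_le_of_one_le a2 l1) r1)) (fun j => ?_) F hF).trans ?_
    · refine (mul_le_mul_of_nonneg_left (abs_sub_lt_of_fl1_eq (congrFun e j)).le (hl j)).trans ?_
      rw [← div_eq_mul_inv, div_le_div_iff₀ (by positivity) (by positivity)]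
      linarith [hK j]
    · rw [← hc, show c * L * (1 / (A * L ^ 2 * 2 ^ R)) * ν F =
        2 * c / A * (ν F / (2 * L) / 2 ^ R) by field_simp]
      have := h0 F
      exact mul_le_of_le_one_left (by positivity) ((div_le_one (by positivity)).2 (by linarith))
  have k1 : ∀ y y', Gd ν ((d + 1) * D) L y → ν (jac Φ) ≤ L * |eval y (jac Φ)| →
      cel K y' = cel K y → ν (jac Φ) / (2 * L) ≤ |eval y' (jac Φ)| := fun y y' hG h e => by
    have b1 := (key y y' hG e _ ((deg_jac fun i => (hΦ i).1).trans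
      (Nat.mul_le_mul_right _ d.le_succ))).trans (div_le_self (by positivity) r1)
    have b2 := abs_sub_abs_le_abs_sub (eval y (jac Φ)) (eval y' (jac Φ))
    rw [← div_le_iff₀' (by positivity), show ν (jac Φ) / L = 2 * (ν (jac Φ) / (2 * L)) by
      field_simp] at h
    rw [abs_sub_comm] at b2
    linarith
  have d1 : ∀ i, (Φ i).totalDegree ≤ (d + 1) * D := fun i =>
    (hΦ i).1.trans (Nat.le_mul_of_pos_left _ d.succ_pos)
  have k2 : ∀ y y', Gd ν ((d + 1) * D) L y → cel K y' = cel K y → ∀ i,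
      |ev Φ y' i - ev Φ y i| ≤ 1 / 2 ^ R := fun y y' hG e i =>
    (key y y' hG e _ (d1 i)).trans (div_le_div_of_nonneg_right
      ((div_le_one (by positivity)).2 (by linarith [(hΦ i).2])) (by positivity))
  refine ⟨fun z => ?_, ?_⟩
  · obtain ⟨T, t1, t2⟩ := hA Φ K (fun i => ((2 : ℝ) ^ R)⁻¹ * z i) (2 / 2 ^ R) (ν (jac Φ) / (2 * L))
      (fun i => (hΦ i).1) (by positivity) (by positivity)
    refine ⟨T, t1.trans ?_, fun y hG h e => t2 y fun y' e' => ⟨?_, k1 y y' hG h e'⟩⟩
    · rw [show A₀ * (2 / 2 ^ R) ^ d * vol K / (ν (jac Φ) / (2 * L)) =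
        A₀ * 2 ^ (d + 1) * L * (vol K / (2 ^ R) ^ d / ν (jac Φ)) by rw [div_pow]; field_simp; ring]
      gcongr
      linarith
    · refine (pi_norm_le_iff_of_nonneg (by positivity)).2 fun i => ?_
      have b1 := abs_le.1 (k2 y y' hG e' i)
      have b2 := fl1_le R (ev Φ y i)
      have b3 := lt_fl1 R (ev Φ y i)
      rw [show fl1 R (ev Φ y i) = z i from congrFun e i] at b2 b3
      rw [one_div] at b1
      rw [div_eq_mul_inv]
      exact abs_le.2 ⟨by simp only [Pi.sub_apply]; linarith [b1.1.trans b1.2],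
        by simp only [Pi.sub_apply]; linarith⟩
  · obtain ⟨T, t1, t2⟩ := hA Φ K 0 (2 * L ^ 2) (ν (jac Φ) / (2 * L))
      (fun i => (hΦ i).1) (by positivity) (by positivity)
    refine ⟨T, t1.trans ?_, fun y hG h => t2 y fun y' e' => ⟨?_, k1 y y' hG h e'⟩⟩
    · rw [show A₀ * (2 * L ^ 2) ^ d * vol K / (ν (jac Φ) / (2 * L)) =
        A₀ * 2 ^ (d + 1) * L ^ (2 * d + 1) * (vol K / ν (jac Φ)) by
          rw [mul_pow, ← pow_mul]; field_simp; ring]
      gcongr
      linarith
    · refine (pi_norm_le_iff_of_nonneg (by positivity)).2 fun i => ?_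
      have b1 := (k2 y y' hG e' i).trans ((div_le_one (by positivity)).2 r1)
      have b2 := (hG _ (d1 i)).trans (mul_le_mul_of_nonneg_left (hΦ i).2 (by linarith))
      have b3 := abs_sub_abs_le_abs_sub (ev Φ y' i) (ev Φ y i)
      rw [sub_zero, Real.norm_eq_abs]
      change |ev Φ y i| ≤ _ at b2
      linarith

end Pool.Agent.MP_5168f5_an.AN.Vo
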