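import Pool.Agent.MP_5168f5_an.AN.SpecV

/-! Kakeya sets in all dimensions: a frame is optimal for derivatives and Jacobians. -/

namespace Pool.Agent.MP_5168f5_an.AN.Vo

open H19 H17S H17F Filter MvPolynomial Metric Nc

namespace VDerA

theorem det_le {d : ℕ} (A : Matrix (Fin d) (Fin d) ℝ) (b : Fin d → ℝ) (h : ∀ a i, |A a i| ≤ b a) :
    |A.det| ≤ d.factorial * ∏ a, b a := by
  rw [Matrix.det_apply']
  refine (Finset.abs_sum_le_sum_abs _ _).trans ((Finset.sum_le_card_nsmul _ _ (∏ a, b a)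
    fun s _ => ?_).trans (by simp [Fintype.card_perm]))
  have e : |((Equiv.Perm.sign s : ℤ) : ℝ)| = 1 := by
    rcases Int.units_eq_one_or (Equiv.Perm.sign s) with k | k <;> simp [k]
  rw [abs_mul, e, one_mul, Finset.abs_prod, ← Equiv.prod_comp s b]
  exact Finset.prod_le_prod (fun _ _ => abs_nonneg _) fun i _ => h _ _

theorem pt (hA : Alg) {d D E : ℕ} {ν : Pl d → ℝ} {Φ : Fin d → Pl d} {l L : ℝ} (h0 : ∀ F, 0 ≤ ν F)
    (hl : 1 ≤ l) (hL : d.factorial * l ^ (d + 4) ≤ L) (hΦ : ∀ i, (Φ i).totalDegree ≤ D)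
    (hp : ∀ F : Pl d, F.totalDegree ≤ d * D + d * E + E → ∃ y σ, NiceAt Φ ν D E 1 l y σ ∧
      Gd ν (d * D + D) l y ∧ ν F ≤ l * |eval y F|) :
    (∀ F : Pl d, F.totalDegree ≤ E → ∀ i, ν (Dv Φ i F) ≤ L * ν F * ν (jac Φ)) ∧
    (∀ F : Pl d, F.totalDegree ≤ E → ∀ j, ν (pderiv j F) ≤ L * col ν Φ j * ν F) ∧
    (∀ Ψ : Fin d → Pl d, (∀ i, (Ψ i).totalDegree ≤ E) →
      ν (jac Ψ) ≤ L * (∏ i, ν (Ψ i)) * ν (jac Φ)) ∧
    (Tri Φ → ∀ (i : Fin d) (F : Pl d), F.totalDegree ≤ E → (∀ l ∈ F.vars, l ≤ i) →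
      ν (pderiv i F) ≤ L * ν (pderiv i (Φ i)) * ν F) := by
  have l0 : 0 < l := by linarith
  have f1 : (1 : ℝ) ≤ d.factorial := by exact_mod_cast d.factorial_pos
  have l3 : l ^ 3 ≤ L := ((pow_le_pow_right₀ hl (by omega)).trans
    (le_mul_of_one_le_left (by positivity) f1)).trans hL
  have dj : (jac Φ).totalDegree ≤ d * D + D := (deg_jac hΦ).trans (by omega)
  have dp : ∀ i j, (pderiv j (Φ i)).totalDegree ≤ d * D + D := fun i j =>
    (deg_jm hΦ i j).trans (by omega)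
  have dF : ∀ {F : Pl d} j, F.totalDegree ≤ E → (pderiv j F).totalDegree ≤ d * D + d * E + E :=
    fun j hF => ((H83.IsPoly.totalDegree_pderiv_le _ _).trans hF).trans (by omega)
  refine ⟨fun F hF i => ?_, fun F hF j => ?_, fun Ψ hΨ => ?_, fun hT i F hF hv => ?_⟩
  · obtain ⟨y, σ, a, b, c⟩ := hp _ ((deg_Dv hΦ i hF).trans (by omega))
    have h1 := dv_le a l0 le_rfl hF i
    have h2 := b _ dj
    have := h0 F
    have := h0 (jac Φ)
    calc _ ≤ l * (l * ν F * (l * ν (jac Φ))) := c.trans (by gcongr; exact h1.trans (by gcongr))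
      _ = l ^ 3 * ν F * ν (jac Φ) := by ring
      _ ≤ _ := by gcongr
  · obtain ⟨y, σ, a, b, c⟩ := hp _ (dF j hF)
    have := h0 F
    have h1 : |eval y (pderiv j F)| ≤ ∑ i, l * ν F * (l * ν (pderiv j (Φ i))) := by
      rw [pderiv_eq Φ F (a.jac l0) j]
      refine (Finset.abs_sum_le_sum_abs _ _).trans (Finset.sum_le_sum fun i _ => ?_)
      rw [abs_mul]
      exact mul_le_mul (a.der₀ l0 hF le_rfl _) (b _ (dp i j)) (abs_nonneg _) (by positivity)
    have h2 : 0 ≤ col ν Φ j := Finset.sum_nonneg fun _ _ => h0 _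
    rw [← Finset.mul_sum, ← Finset.mul_sum] at h1
    calc _ ≤ l * (l * ν F * (l * col ν Φ j)) := c.trans (by gcongr; exact h1)
      _ = l ^ 3 * col ν Φ j * ν F := by ring
      _ ≤ _ := by gcongr
  · obtain ⟨y, σ, a, b, c⟩ := hp _ ((deg_jac hΨ).trans (by omega))
    have h1 := det_le (Matrix.of fun k i => dW Φ (Ψ k) 1 (fun _ => i) y) (fun k => l * ν (Ψ k))
      fun k i => a.der₀ l0 (hΨ k) le_rfl _
    have h2 := b _ dj
    have h3 : 0 ≤ ∏ i, ν (Ψ i) := Finset.prod_nonneg fun _ _ => h0 _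
    have := h0 (jac Φ)
    rw [Finset.prod_mul_distrib, Finset.prod_const, Finset.card_univ, Fintype.card_fin] at h1
    rw [jac_ratio Φ Ψ (a.jac l0), abs_mul] at c
    have h4 : d.factorial * l ^ (d + 2) ≤ L := le_trans (by gcongr; omega) hL
    calc _ ≤ l * (d.factorial * (l ^ d * ∏ i, ν (Ψ i)) * (l * ν (jac Φ))) := c.trans (by gcongr)
      _ = d.factorial * l ^ (d + 2) * (∏ i, ν (Ψ i)) * ν (jac Φ) := by ring
      _ ≤ _ := by gcongr
  · obtain ⟨y, σ, a, b, c⟩ := hp _ (dF i hF)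
    have h1 := dv_le a l0 le_rfl hF i
    have h2 := b _ (dp i i)
    have h3 := congrArg (fun G => |eval y G|) (hA.tri2 Φ i F hT hv)
    have j0 := abs_pos.2 (a.jac l0)
    have := h0 F
    have := h0 (pderiv i (Φ i))
    simp only [map_mul, abs_mul] at h3
    have h4 : |eval y (pderiv i F)| ≤ l * ν F * (l * ν (pderiv i (Φ i))) := by
      refine le_of_mul_le_mul_left ?_ j0
      calc _ ≤ l * ν F * |eval y (jac Φ)| * (l * ν (pderiv i (Φ i))) := h3.ge.trans (by gcongr)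
        _ = _ := by ring
    calc _ ≤ l * (l * ν F * (l * ν (pderiv i (Φ i)))) := c.trans (by gcongr)
      _ = l ^ 3 * ν (pderiv i (Φ i)) * ν F := by ring
      _ ≤ _ := by gcongr

end VDerA

theorem vDer : OfDer := by
  intro hA h1 hN d Ω P x M Φ D hI hF E c hc
  have h0 : 0 < c / (((d + 4 : ℕ) : ℝ) + 1) := by positivity
  have hG := ((hN d Ω P x M Φ D hI hF E 1).and (h1.gd d Ω P x M hI.big (d * D + D))) _ h0
  filter_upwards [h1.pick d Ω P x M hI _ (d * D + d * E + E) Unit hG.pos _ h0,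
    ex_pow hI.big d.factorial (d + 4) hc, hF.deg] with n a b e
  refine VDerA.pt hA (nuP_nonneg _ _) (one_le_ex M h0 n) b e fun F k => ?_
  obtain ⟨ω, -, ⟨⟨σ, u⟩, v⟩, w⟩ := a (fun _ => F) fun _ => k
  exact ⟨_, σ, u, v, w ()⟩

end Pool.Agent.MP_5168f5_an.AN.Vo
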