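import Pool.Agent.MP_5168f5_an.AN.SpecV

/-! Typical points of an irreducible law. -/

namespace Pool.Agent.MP_5168f5_an.AN.Vo

open H19 H17S H17F Filter MvPolynomial Metric Nc

namespace VIr1A

theorem pb_ex {Ω ι : Type} (P : FP Ω) (T : Finset ι) (B : ι → Ω → Prop) {ε : ℝ}
    (h : ∀ a, pb P (B a) ≤ ε) : pb P (fun ω => ∃ a ∈ T, B a ω) ≤ T.card * ε := by
  classical
  induction T using Finset.induction_on with
  | empty => exact (pb_zero fun ω _ k => by simp at k).trans_le (by simp)
  | insert i T hi ih =>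
    rw [Finset.card_insert_of_notMem hi, Nat.cast_succ, add_mul, one_mul, add_comm]
    refine le_trans (pb_mono fun ω _ k => ?_) ((pb_or _ _ _).trans (add_le_add (h i) ih))
    rwa [Finset.exists_mem_insert] at k

variable {Ω : ℕ → Type} {d : ℕ} {P : ∀ n, FP (Ω n)} {x : ∀ n, Ω n → V d} {M : ℕ → ℕ}

theorem gd (hM : Big M) (E : ℕ) : Wp P M fun n L ω => Gd (nuP (P n) (x n)) E L (x n ω) :=
  fun c hc => by simpa only [G39.dl_inv, Gd] using whp_cg (P := P) (x := x) hM E hc

theorem pick (h : Irr P x M) (G : ∀ n, Ω n → Prop) (E : ℕ) (ι : Type) [Fintype ι] (hG : Pos P G) :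
    Ev M fun n L => ∀ F : ι → Pl d, (∀ a, (F a).totalDegree ≤ E) →
      ∃ ω ∈ (P n).S, G n ω ∧ ∀ a, nuP (P n) (x n) (F a) ≤ L * |eval (x n ω) (F a)| := by
  obtain ⟨κ, k0, k1⟩ := hG
  intro c hc
  have p : 0 < κ / (Fintype.card ι + 1) := by positivity
  filter_upwards [h.low E _ p c hc, k1] with n a b F hF
  by_contra k
  have h1 := b.trans ((pb_mono fun ω hω e => ?_).trans
    (pb_ex (P n) Finset.univ _ fun i => a (F i) (hF i)))
  · rw [Finset.card_univ] at h1
    have h2 : κ = (Fintype.card ι + 1) * (κ / (Fintype.card ι + 1)) := by field_simp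
    linarith
  · by_contra k'
    exact k ⟨ω, hω, e, fun i => not_lt.1 fun k'' => k' ⟨i, Finset.mem_univ _, k''⟩⟩

theorem two {c : ℝ} (n : ℕ) :
    Real.exp (c / 2 * M n) * Real.exp (c / 2 * M n) = Real.exp (c * M n) := by
  rw [← Real.exp_add]
  congr 1
  ring

end VIr1A

open VIr1A

theorem vIr1 : Ir1 where
  gd := fun _ _ _ _ _ => gd
  pick := fun _ _ _ _ _ h G E ι _ => pick h G E ι
  mul := fun d _ P x M h E ι _ c hc => by
    have p : 0 < c / ((Fintype.card ι + 1 : ℕ) + 1) := by positivity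
    filter_upwards [pick h _ ((Fintype.card ι + 1) * E) (Option ι)
      (gd h.big ((Fintype.card ι + 1) * E) _ p).pos _ p, ex_pow h.big 1 _ hc] with n a b F hF
    have d1 : ∀ i, (F i).totalDegree ≤ (Fintype.card ι + 1) * E := fun i =>
      (hF i).trans (Nat.le_mul_of_pos_left _ (Nat.succ_pos _))
    have d2 : (∏ i, F i).totalDegree ≤ (Fintype.card ι + 1) * E :=
      (totalDegree_finsetProd _ _).trans ((Finset.sum_le_card_nsmul _ _ E fun i _ => hF i).trans
        (Nat.mul_le_mul_right _ (Nat.le_succ _)))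
    obtain ⟨ω, -, g, k⟩ := a (fun o => o.elim (∏ i, F i) F) fun o => by cases o; exacts [d2, d1 _]
    have l0 := (Real.exp_pos (c / ((Fintype.card ι + 1 : ℕ) + 1) * M n)).le
    generalize Real.exp (c / ((Fintype.card ι + 1 : ℕ) + 1) * M n) = l at *
    have h1 : ∏ i, nuP (P n) (x n) (F i) ≤ ∏ i, l * |eval (x n ω) (F i)| :=
      Finset.prod_le_prod (fun i _ => nuP_nonneg _ _ _) fun i _ => k (some i)
    have h2 : ∏ i, |eval (x n ω) (F i)| ≤ ∏ i, l * nuP (P n) (x n) (F i) :=
      Finset.prod_le_prod (fun i _ => abs_nonneg _) fun i _ => g _ (d1 i)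
    rw [Finset.prod_mul_distrib, Finset.prod_const, ← Finset.abs_prod, ← map_prod,
      Finset.card_univ] at h1 h2
    rw [one_mul, pow_succ] at b
    refine ⟨h1.trans ((mul_le_mul_of_nonneg_left (g _ d2) (by positivity)).trans ?_),
      (k none).trans ((mul_le_mul_of_nonneg_left h2 l0).trans ?_)⟩
    · rw [← mul_assoc]
      exact mul_le_mul_of_nonneg_right b (nuP_nonneg _ _ _)
    · rw [← mul_assoc, mul_comm l]
      exact mul_le_mul_of_nonneg_right b (Finset.prod_nonneg fun i _ => nuP_nonneg _ _ _)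
  ref := fun d _ P x M h ν E hν c hc => by
    filter_upwards [pick h _ E Unit (hν _ (half_pos hc)) _ (half_pos hc)] with n a F hF
    obtain ⟨ω, -, g, k⟩ := a (fun _ => F) fun _ => hF
    rw [← two, mul_assoc]
    exact (k ()).trans (mul_le_mul_of_nonneg_left (g F hF) (Real.exp_pos _).le)
  low := fun d _ P x M hM F a E hF ha c hc => by
    filter_upwards [((ha _ (half_pos hc)).and (gd hM E _ (half_pos hc))).ex, hF] with n b e
    obtain ⟨ω, -, k, g⟩ := b
    rw [← two, mul_assoc]
    exact k.trans (mul_le_mul_of_nonneg_left (g _ e) (Real.exp_pos _).le)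

end Pool.Agent.MP_5168f5_an.AN.Vo
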