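import Pool.Agent.MP_5168f5_an.AN.SpecV

/-! Row Ir2: sources of irreducible laws and of frames. -/

namespace Pool.Agent.MP_5168f5_an.AN.Vo

open H19 H17S H17F Filter MvPolynomial Metric Nc

namespace VIr2A

theorem scal {k : ℕ} (a : ℝ) (H : Pl k) (m : Fin k →₀ ℕ) :
    coeff m (aeval (fun i => (C a * X i : Pl k)) H) = a ^ m.degree * coeff m H := by
  classical
  induction H using MvPolynomial.induction_on' with
  | add p q hp hq => simp only [map_add, coeff_add, hp, hq, mul_add]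
  | monomial s c =>
    have : aeval (fun i => (C a * X i : Pl k)) (monomial s c) = C (a ^ s.degree) * monomial s c := by
      rw [aeval_monomial, monomial_eq, algebraMap_eq, mul_left_comm]
      simp only [mul_pow, Finsupp.prod_mul]
      rw [Finsupp.degree_apply, map_pow, ← Finset.prod_pow_eq_pow_sum]
      rfl
    rw [this, coeff_C_mul, coeff_monomial]
    split_ifs with h <;> simp [h]

theorem nu_ge {Ω : Type} {Q : FP Ω} {f : Ω → ℝ} {a L : ℝ} (hL : 0 ≤ L)
    (h : pb Q (fun ω => L * |f ω| < a) ≤ 1 / 2) : a ≤ 2 * L * G39.nu Q f := by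
  classical
  rcases le_total a 0 with ha | ha
  · exact ha.trans (mul_nonneg (by positivity) (Real.sqrt_nonneg _))
  have h1 := Q.E_mono (F := fun ω => a ^ 2 - a ^ 2 * if L * |f ω| < a then 1 else 0)
    (G := fun ω => L ^ 2 * f ω ^ 2) fun ω _ => by
      split_ifs with c
      · simp only [mul_one, sub_self]; positivity
      · rw [mul_zero, sub_zero, ← sq_abs (f ω), ← mul_pow]
        exact pow_le_pow_left₀ ha (not_lt.1 c) 2
  rw [FP.E_sub, FP.E_const, FP.E_mul, FP.E_mul] at h1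
  have h2 := mul_le_mul_of_nonneg_left h (sq_nonneg a)
  refine (sq_le_sq₀ ha (mul_nonneg (by positivity) (Real.sqrt_nonneg _))).1 ?_
  rw [mul_pow, Real.sq_sqrt (Q.E_nonneg fun _ _ => sq_nonneg _)]
  unfold pb at h2
  nlinarith [sq_nonneg a]

variable {Ω : ℕ → Type} {d : ℕ} {P : ∀ n, FP (Ω n)} {x : ∀ n, Ω n → V d} {M : ℕ → ℕ}

theorem ty (hM : Big M) : TY P x M ↔ Irr P x M := by
  refine ⟨fun h => ⟨hM, fun E ε hε c hc => R4.unif' (fun n => ⟨0, by simp⟩) fun F hF =>
    (h E c F hc hF ε hε).mono fun n a => (pb_mono fun ω _ k k' => ?_).trans a⟩,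
    fun h E c F hc hF ε hε => ?_⟩
  · have := k' (lt_of_le_of_lt (by positivity) k)
    rw [← G39.dl_inv, inv_mul_lt_iff₀ (G39.dl_pos _ _ _)] at k
    exact lt_asymm k this
  · filter_upwards [h.low E ε hε _ (half_pos hc), G39.dl_lt hM one_pos (half_pos hc)] with n a b
    refine (pb_mono fun ω _ k => ?_).trans (a _ (hF n))
    obtain ⟨k1, k2⟩ := Classical.not_imp.1 k
    rw [← G39.dl_inv, inv_mul_lt_iff₀ (G39.dl_pos _ _ _)]
    refine (not_lt.1 k2).trans_lt (mul_lt_mul_of_pos_right ?_ k1)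
    rw [G39.dl_half]
    exact mul_lt_of_lt_one_left (G39.dl_pos _ _ _) b

theorem pos {k D : ℕ} {Φ : ℕ → Fin k → Pl d} (h : Fr P x M Φ D) (E : ℕ) : ∀ᶠ n in UF,
    ∀ H : Pl k, H ≠ 0 → H.totalDegree ≤ E → 0 < nuP (P n) (x n) (aeval (Φ n) H) := by
  filter_upwards [h.ind E 1 one_pos] with n a H h0 hd
  obtain ⟨m, hm⟩ := MvPolynomial.ne_zero_iff.1 h0
  exact pos_of_mul_pos_right ((abs_pos.2 hm).trans_le (a H hd m)) (Real.exp_pos _).le

theorem sub {k k' D : ℕ} {Φ : ℕ → Fin k → Pl d} (h : Fr P x M Φ D) {e : Fin k' → Fin k}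
    (he : Function.Injective e) : Fr P x M (fun n i => Φ n (e i)) D :=
  ⟨h.deg.mono fun _ a _ => a _, fun c hc => (h.le c hc).mono fun _ a _ => a _,
    fun E c hc => (h.ind E c hc).mono fun n a H hd m => by
      have := a (rename e H) ((totalDegree_rename_le _ _).trans hd) (m.mapDomain e)
      rwa [coeff_rename_mapDomain e he, aeval_rename] at this⟩

end VIr2A

open VIr2A

theorem vIr2 : Ir2 where
  nl := fun _ _ _ _ _ _ _ hM h => (ty hM).1 h.ty
  ty := fun _ _ _ _ _ => ty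
  comp := fun _ _ P x M k D Φ h hD => ⟨h.big, fun E ε hε c hc => by
    filter_upwards [h.low (E * D) ε hε c hc, hD] with n a b F hF
    simpa only [nuP_comp, eval_aeval] using a _ (kc.deg _ F E D hF b)⟩
  pos := fun d _ P x M D Φ h => ⟨by
    filter_upwards [pos h (d * ord d D), h.deg] with n a b
    exact jac_ne_zero b fun H hd e => by_contra fun h0 => (a H h0 hd).ne' (by rw [e, nuP_zero]),
    fun E => by
      filter_upwards [pos h (d * (ord d D * E)), h.deg] with n a b F h0 hd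
      obtain ⟨H, h1, h2, G, h3⟩ := elim (Φ n) b hd h0
      refine lt_of_le_of_ne (nuP_nonneg _ _ _) fun e =>
        (a H h1 h2).ne' (nu_eq_zero.2 fun ω k => ?_)
      rw [h3, map_mul, nu_eq_zero.1 e.symm ω k, zero_mul]⟩
  ind := fun _ _ P x M _ k D x' Φ hD h => ⟨hD, fun c hc => Eventually.of_forall fun n i =>
    (h.le n i).trans (one_le_ex M hc n), fun E c hc => (h.ind E c hc).mono fun n a H hd m => by
      rw [← G39.dl_inv, le_inv_mul_iff₀ (G39.dl_pos _ _ _), ← nuP_comp]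
      exact a H hd m⟩
  dni := fun d _ P x M k D Φ hM h => by
    classical
    obtain ⟨L, hL, e⟩ := (R4.sub_iff (p := fun n L => ∀ i, nuP (P n) (x n) (Φ n i) ≤ L)).2
      fun c hc => (h.le c hc).mono fun n a => ⟨_, one_le_ex M hc n, le_rfl, a⟩
    obtain ⟨Ψ, h1, h2⟩ : ∃ Ψ : ℕ → Fin k → Pl d,
        (∀ᶠ n in UF, Ψ n = fun i => C (L n)⁻¹ * Φ n i) ∧
        ∀ n i, (Ψ n i).totalDegree ≤ D ∧ nuP (P n) (x n) (Ψ n i) ≤ 1 := by
      refine ⟨fun n => if (∀ i, (Φ n i).totalDegree ≤ D) ∧ ∀ i, nuP (P n) (x n) (Φ n i) ≤ L n then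
        fun i => C (L n)⁻¹ * Φ n i else 0, (h.deg.and e).mono fun n a => if_pos a, fun n i => ?_⟩
      beta_reduce
      split_ifs with a
      · refine ⟨(totalDegree_mul _ _).trans (by simpa using a.1 i), ?_⟩
        rw [nuP_mul, abs_of_pos (inv_pos.2 (hL.pos n)), inv_mul_le_iff₀ (hL.pos n), mul_one]
        exact a.2 i
      · simp [nuP_zero]
    refine ⟨L, Ψ, hL, h1, fun n i => (h2 n i).1, ⟨D, fun n i => ⟨_, (h2 n i).1, fun _ => rfl⟩⟩,
      fun n i => (h2 n i).2, fun E c hc => ?_⟩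
    refine (Ev.of (q := fun n l => ∀ H : Pl k, H.totalDegree ≤ E → ∀ m,
      |coeff m H| ≤ l * nuP (P n) (x n) (aeval (Ψ n) H)) ((h.ind (E * 1)).and (ev_sub hL)) hM 1
      (E + 1) (h1.mono fun n a l l' l1 l2 b H hd m => ?_) c hc).mono fun n a H hd m => ?_
    · by_cases h0 : coeff m H = 0
      · rw [h0, abs_zero]
        exact mul_nonneg (le_trans (by positivity) l2) (nuP_nonneg _ _ _)
      have := b.1 _ (kc.deg (fun i => C (L n)⁻¹ * X i) H E 1 hd fun i =>
        (totalDegree_mul _ _).trans (by simp)) m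
      rw [scal, comp_aeval_apply, abs_mul, abs_pow, abs_of_pos (inv_pos.2 (hL.pos n)), inv_pow,
        inv_mul_le_iff₀ (pow_pos (hL.pos n) _), ← mul_assoc] at this
      simp only [map_mul, aeval_C, aeval_X, algebraMap_eq, ← a] at this
      refine this.trans (mul_le_mul_of_nonneg_right (le_trans ?_ l2) (nuP_nonneg _ _ _))
      rw [one_mul, pow_succ]
      refine mul_le_mul_of_nonneg_right ((pow_le_pow_left₀ (hL.pos n).le b.2 _).trans
        (pow_le_pow_right₀ l1 ((le_totalDegree (mem_support_iff.2 h0)).trans hd))) (by positivity)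
    · have := a H hd m
      rwa [← G39.dl_inv, le_inv_mul_iff₀ (G39.dl_pos _ _ _), ← nuP_comp] at this
  cond := fun d _ P x M G h ⟨κ, k0, hκ⟩ => by
    have A0 : 0 < √κ⁻¹ := by positivity
    have h1 := hκ.mono fun n a => R4.K31.dn_cE (G n) k0 a
    have h2 := h1.mono fun n a (F : Pl d) =>
      (Real.sqrt_le_sqrt (a (fun ω => eval (x n ω) F ^ 2) fun _ => sq_nonneg _)).trans_eq
        (Real.sqrt_mul (inv_pos.2 k0).le _)
    have h3 : ∀ E ε, 0 < ε → Ev M fun n L => ∀ F : Pl d, F.totalDegree ≤ E →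
        pb (cE (P n) (G n)) (fun ω => L * |eval (x n ω) F| < nuP (P n) (x n) F) ≤ ε :=
      fun E ε hε c hc => by
        filter_upwards [h.low E (κ * ε) (by positivity) c hc, h1] with n a b F hF
        exact (b.pb_le _).trans ((inv_mul_le_iff₀ k0).2 (a F hF))
    refine ⟨⟨h.big, fun E ε hε => (h3 E ε hε).of h.big √κ⁻¹ 1 (h2.mono fun n a l l' _ l2 b F hF =>
      (pb_mono fun ω _ c => ?_).trans (b F hF))⟩, fun k D Φ hF => ⟨hF.deg,
      hF.le.of h.big √κ⁻¹ 1 (h2.mono fun n a l l' _ l2 b i => (a _).trans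
        ((mul_le_mul_of_nonneg_left (b i) A0.le).trans (by rwa [pow_one] at l2))), fun E =>
      ((hF.ind E).and (h3 (E * D) _ one_half_pos)).of h.big 2 2
        (hF.deg.mono fun n a l l' l1 l2 b H hd m => (b.1 H hd m).trans ?_)⟩⟩
    · refine lt_of_mul_lt_mul_left (lt_of_le_of_lt ?_ (c.trans_le (a F))) A0.le
      rw [← mul_assoc]
      exact mul_le_mul_of_nonneg_right (by rwa [pow_one] at l2) (abs_nonneg _)
    · have l0 := zero_le_one.trans l1
      refine (mul_le_mul_of_nonneg_left (nu_ge l0 (b.2 _ (kc.deg _ H E D hd a))) l0).trans ?_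
      rw [← mul_assoc]
      exact mul_le_mul_of_nonneg_right (le_of_eq_of_le (by ring) l2) (nuP_nonneg _ _ _)
  chart := fun _ _ P x M k D Φ h k' e he => ⟨sub h he,
    Eventually.of_forall fun _ _ => (totalDegree_X _).le,
    fun c hc => (h.le c hc).mono fun n a i => by rw [nuP_comp, aeval_X]; exact a _,
    fun E c hc => ((sub h he).ind E c hc).mono fun n a H hd m => by
      rw [nuP_comp, comp_aeval_apply]
      simpa only [aeval_X] using a H hd m⟩

end Pool.Agent.MP_5168f5_an.AN.Vo
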