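import Pool.Agent.MP_5168f5_an.AN.SpecV

/-! A normalised system with a large Jacobian is a frame. -/

namespace Pool.Agent.MP_5168f5_an.AN.Vo

open H19 H17S H17F Filter MvPolynomial Metric Nc

namespace VJfrA

variable {d D E E' : ℕ} {Φ Ψ : Fin d → Pl d} {ν : Pl d → ℝ} {l : ℝ} {y : V d} {σ : V d → V d}
  {H : Pl d}

theorem det_row (A : Matrix (Fin d) (Fin d) ℝ) (r : Fin d → ℝ) (h : ∀ i k, |A i k| ≤ r i) :
    |A.det| ≤ d.factorial * ∏ i, r i := by
  rw [Matrix.det_apply']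
  refine (Finset.abs_sum_le_sum_abs _ _).trans
    ((Finset.sum_le_card_nsmul _ _ (∏ i, r i) fun s _ => ?_).trans_eq
      (by simp [Fintype.card_perm]))
  rw [abs_mul, ← Int.cast_abs, Equiv.Perm.sign_abs, Int.cast_one, one_mul, Finset.abs_prod,
    ← Equiv.prod_comp s r]
  exact Finset.prod_le_prod (fun _ _ => abs_nonneg _) fun i _ => h _ _

theorem cram (hA : Alg) (Ψ : Fin d → Pl d) (H : Pl d) (j : Fin d) :
    jac (Function.update Ψ j (aeval Ψ H)) = aeval Ψ (pderiv j H) * jac Ψ := by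
  have e : ∀ k, Dv Ψ j (Ψ k) = if k = j then jac Ψ else 0 := fun k => by
    have := congrFun (congrFun (Matrix.mul_adjugate (jm Ψ)) k) j
    simp only [Matrix.mul_apply, Matrix.smul_apply, Matrix.one_apply, smul_eq_mul, mul_ite, mul_one,
      mul_zero] at this
    exact (Finset.sum_congr rfl fun _ _ => mul_comm _ _).trans this
  rw [← hA.upd, hA.aev]
  simp [e]

theorem der (hA : Alg) (l1 : 1 ≤ l) (hn : NiceAt Φ ν D E' 1 l y σ)
    (dΨ : ∀ i, (Ψ i).totalDegree ≤ E' ∧ ν (Ψ i) ≤ l) (dG : (aeval Ψ H).totalDegree ≤ E')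
    (hj : |eval y (jac Φ)| ≤ l ^ 3 * |eval y (jac Ψ)|) (j : Fin d) :
    |eval y (aeval Ψ (pderiv j H))| ≤ d.factorial * l ^ (2 * d + 4) * ν (aeval Ψ H) := by
  have l0 : 0 < l := one_pos.trans_le l1
  have n0 := hn.nn _ dG
  have j0 : 0 < |eval y (jac Ψ)| :=
    (mul_pos_iff_of_pos_left (pow_pos l0 3)).1 ((abs_pos.2 (hn.jac l0)).trans_le hj)
  have e := congrArg abs (jac_ratio Φ (Function.update Ψ j (aeval Ψ H)) (hn.jac l0))
  rw [cram hA, map_mul, abs_mul, abs_mul] at e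
  have b := det_row (Matrix.of fun a i => dW Φ (Function.update Ψ j (aeval Ψ H) a) 1
      (fun _ => i) y) (Function.update (fun _ => l ^ 2) j (l * ν (aeval Ψ H))) fun i k => by
    simp only [Matrix.of_apply, Function.update_apply]
    split_ifs
    · exact hn.der₀ l0 dG le_rfl _
    · exact (hn.der₀ l0 (dΨ i).1 le_rfl _).trans (by nlinarith [(dΨ i).2])
  rw [Finset.prod_update_of_mem (Finset.mem_univ j), Finset.prod_const] at b
  have c : (l ^ 2) ^ (Finset.univ \ {j}).card ≤ (l ^ 2) ^ d :=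
    pow_le_pow_right₀ (one_le_pow₀ l1) ((Finset.card_le_univ _).trans_eq (Fintype.card_fin d))
  refine le_of_mul_le_mul_right (e.trans_le ?_) j0
  calc _ ≤ d.factorial * (l * ν (aeval Ψ H) * (l ^ 2) ^ d) * (l ^ 3 * |eval y (jac Ψ)|) :=
        mul_le_mul (b.trans (by gcongr)) hj (abs_nonneg _) (by positivity)
    _ = _ := by ring

theorem step (hA : Alg) (l1 : 1 ≤ l) (hn : NiceAt Φ ν D E' 1 l y σ) (hg : Gd ν E' l y)
    (dΨ : ∀ i, (Ψ i).totalDegree ≤ E' ∧ ν (Ψ i) ≤ l) (dG : (aeval Ψ H).totalDegree ≤ E')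
    (dΦ : (jac Φ).totalDegree ≤ E') (dH : H.totalDegree ≤ E) (j1 : ν (jac Φ) ≤ l * ν (jac Ψ))
    (j2 : ν (jac Ψ) ≤ l * |eval y (jac Ψ)|)
    (p : ∀ j m, |coeff m (pderiv j H)| ≤ l * (l * |eval y (aeval Ψ (pderiv j H))|)) (m) :
    |coeff m H| ≤ ((Pk.mons (Fin d) E).card + 1) * d.factorial * l ^ (2 * d + 6 + 2 * E) *
      ν (aeval Ψ H) := by
  have l0 : 0 < l := one_pos.trans_le l1
  have n0 := hn.nn _ dG
  have hj : |eval y (jac Φ)| ≤ l ^ 3 * |eval y (jac Ψ)| :=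
    calc _ ≤ l * (l * (l * |eval y (jac Ψ)|)) :=
          (hg _ dΦ).trans (by gcongr; exact j1.trans (by gcongr))
      _ = _ := by ring
  obtain ⟨B, hB⟩ : ∃ B, B = d.factorial * l ^ (2 * d + 6) * ν (aeval Ψ H) := ⟨_, rfl⟩
  have B0 : 0 ≤ B := by rw [hB]; positivity
  have a : ∀ m, m ≠ 0 → |coeff m H| ≤ B := fun m hm => by
    obtain ⟨j, h⟩ := Finsupp.ne_iff.1 hm
    have u := p j (m - Finsupp.single j 1)
    rw [coeff_pderiv, tsub_add_cancel_of_le (Finsupp.single_le_iff.2 (Nat.pos_of_ne_zero h)),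
      abs_mul] at u
    refine (le_mul_of_one_le_right (abs_nonneg _) ?_).trans (u.trans ?_)
    · exact le_trans (by simp) (le_abs_self _)
    · calc _ ≤ l * (l * (d.factorial * l ^ (2 * d + 4) * ν (aeval Ψ H))) := by
            gcongr; exact der hA l1 hn dΨ dG hj j
        _ = B := by rw [hB]; ring
  have e : ((Pk.mons (Fin d) E).card + 1) * d.factorial * l ^ (2 * d + 6 + 2 * E) *
      ν (aeval Ψ H) = (Pk.mons (Fin d) E).card * B * (l ^ 2) ^ E + B * (l ^ 2) ^ E := by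
    rw [hB]; ring
  have q : B ≤ B * (l ^ 2) ^ E := le_mul_of_one_le_right B0 (one_le_pow₀ (one_le_pow₀ l1))
  rw [e]
  obtain rfl | hm := eq_or_ne m 0
  swap
  · exact (a m hm).trans (q.trans (le_add_of_nonneg_left (by positivity)))
  have d1 : (H - C (coeff 0 H)).totalDegree ≤ E := (totalDegree_sub_C_le _ _).trans dH
  have c1 : Pk.cn (H - C (coeff 0 H)) ≤ (Pk.mons (Fin d) E).card * B := by
    rw [kc.sup _ _ ((Pk.pCnt.sup E _).1 d1), ← nsmul_eq_mul]
    refine Finset.sum_le_card_nsmul _ _ _ fun α _ => ?_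
    rw [coeff_sub, coeff_C]
    split_ifs with h
    · rwa [← h, sub_self, abs_zero]
    · rw [sub_zero]; exact a α (Ne.symm h)
  have c2 := kc.val _ E (l ^ 2) (ev Ψ y) d1 (one_le_pow₀ l1) fun i =>
    (hg _ (dΨ i).1).trans (by nlinarith [(dΨ i).2])
  rw [map_sub, eval_C, ← eval_aeval] at c2
  have c3 : l * ν (aeval Ψ H) ≤ B := by
    rw [hB]
    refine mul_le_mul_of_nonneg_right (le_trans (le_self_pow₀ l1 (by omega))
      (le_mul_of_one_le_left (by positivity) ?_)) n0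
    exact_mod_cast d.factorial_pos
  have c4 := mul_le_mul_of_nonneg_right c1 (show 0 ≤ (l ^ 2) ^ E by positivity)
  linarith [hg _ dG, abs_sub_abs_le_abs_sub (coeff 0 H) (eval y (aeval Ψ H)),
    abs_sub_comm (coeff 0 H) (eval y (aeval Ψ H))]

end VJfrA

open VJfrA in
theorem vJfr : OfJfr := by
  intro hA h1 _ hN d Ω P x M Φ D hI hF Ψ D' hd hl hj
  refine ⟨hd, hl, fun E => ?_⟩
  induction E with
  | zero =>
    refine fun c hc => Eventually.of_forall fun n H dH m => ?_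
    rw [totalDegree_eq_zero_iff_eq_C.1 (Nat.le_zero.1 dH), aeval_C, algebraMap_eq, nuP_C, coeff_C]
    refine le_trans ?_ (le_mul_of_one_le_left (abs_nonneg _) (one_le_ex M hc n))
    split_ifs <;> simp
  | succ E ih =>
    obtain ⟨E', hE⟩ : ∃ E', E' = (E + 1) * D' + d * D' + d * D := ⟨_, rfl⟩
    have k : Ev M fun n L => ∀ F : Option (Fin d) → Pl d, (∀ a, (F a).totalDegree ≤ E') →
        ∃ ω ∈ (P n).S, (Gd (nuP (P n) (x n)) E' L (x n ω) ∧
          ∃ σ, NiceAt (Φ n) (nuP (P n) (x n)) D E' 1 L (x n ω) σ) ∧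
          ∀ a, nuP (P n) (x n) (F a) ≤ L * |eval (x n ω) (F a)| := fun c hc =>
      h1.pick d Ω P x M hI _ E' _
        (((h1.gd d Ω P x M hI.big E').and (hN d Ω P x M Φ D hI hF E' 1)) c hc).pos c hc
    refine (((k.and ih).and hl).and hj).of hI.big (((Pk.mons (Fin d) (E + 1)).card + 1) *
      d.factorial) (2 * d + 6 + 2 * (E + 1)) ?_
    filter_upwards [hd, hF.deg] with n d1 d2 L L' l1 l2 ⟨⟨⟨a, b⟩, c⟩, e⟩ H dH m
    have d3 : ∀ j, (pderiv j H).totalDegree ≤ E := fun j => (kc.der H _ j dH).2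
    obtain ⟨ω, -, ⟨g1, σ, g2⟩, g3⟩ := a
      (fun o => o.elim (jac (Ψ n)) fun j => aeval (Ψ n) (pderiv j H)) (by
        rintro (_ | j)
        · exact (deg_jac d1).trans (by omega)
        · exact (kc.deg _ _ _ _ (d3 j) d1).trans (by rw [hE, add_mul]; omega))
    refine (step hA l1 g2 g1 (fun i => ⟨(d1 i).trans (by rw [hE, add_mul]; omega), c i⟩)
      ((kc.deg _ _ _ _ dH d1).trans (by omega)) ((deg_jac d2).trans (by omega)) dH e (g3 none)
      (fun j m => (b _ (d3 j) m).trans ?_) m).trans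
      (mul_le_mul_of_nonneg_right l2 (nuP_nonneg _ _ _))
    exact mul_le_mul_of_nonneg_left (g3 (some j)) (zero_le_one.trans l1)

end Pool.Agent.MP_5168f5_an.AN.Vo
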