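import Pool.Agent.MP_5168f5_an.AN.SpecV

/-! Cells of the frame over one cell of the coordinates. -/

namespace Pool.Agent.MP_5168f5_an.AN.Vo

open H19 H17S H17F Filter MvPolynomial Metric Nc

theorem vLo : OfLo := by
  intro lop ir niw ls d Ω P x M Φ D hI hF K R hK ε hε
  obtain ⟨p1, p2⟩ := ir.pos d Ω P x M D Φ hF
  have h1 : Ev M fun n L => pb (P n) (fun ω => ¬∃ σ,
      NiceAt (Φ n) (nuP (P n) (x n)) D (d * D + 1) 1 L (x n ω) σ) ≤ ε :=
    fun c hc => niw d Ω P x M Φ D hI hF (d * D + 1) 1 c hc ε hε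
  refine (h1.and hK).of hI.big ((6 * (d + 1)) ^ d) (2 * d + 1) ?_
  filter_upwards [p1, p2 (d * D), hF.deg] with n j0 j1 dg L L' l1 l2 ⟨a1, a2⟩
  have l0 : 0 < L := one_pos.trans_le l1
  have d0 : (0 : ℝ) ≤ d := Nat.cast_nonneg d
  have j2 := j1 _ j0 (deg_jac dg)
  obtain ⟨a, b1, b2⟩ := exists_nat_pow_near (x := 2 * ((d + 1) * L ^ 2)) (y := 2)
    (by nlinarith) one_lt_two
  rw [pow_succ (2 : ℝ)] at b2
  have r1 : (1 : ℝ) ≤ 2 ^ R n := one_le_pow₀ one_le_two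
  choose T t1 t2 using fun z => lop d D (nuP (P n) (x n)) (Φ n) (K n) (R n + a) L z l0
    (by rw [pow_add]; nlinarith) j2 dg fun j => (a2 j).imp fun s hs => by
      rw [mul_assoc, pow_add]
      refine (mul_le_mul_of_nonneg_left hs (by positivity)).trans ?_
      rw [← mul_assoc, mul_comm]
      exact mul_le_mul_of_nonneg_left (by nlinarith) (by positivity)
  have v0 := vol_pos (K n)
  have l3 : 0 ≤ L' := le_trans (by positivity) l2
  refine ls.mono _ (fun ω => flv (R n + a) (ev (Φ n) (x n ω))) _ (fun ω => cel (K n) (x n ω)) _ _ _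
    ε ⟨T, t1, (pb_mono fun ω _ h ⟨σ, k⟩ => h (t2 _ _ σ k rfl)).trans a1⟩
    (fun _ _ _ _ e => flv_eq_of_le (Nat.le_add_right _ _) (congrArg Prod.fst e)) (Fn.rfl _)
    (fun _ => by positivity) fun _ _ => ?_
  have b3 : 3 ^ d * L * (2 ^ a) ^ d ≤ L' := by
    refine le_trans ?_ l2
    calc 3 ^ d * L * (2 ^ a) ^ d ≤ 3 ^ d * L * (2 * ((d + 1) * L ^ 2)) ^ d := by gcongr
      _ = _ := by
        rw [show (6 * (d + 1) : ℝ) = 3 * (2 * (d + 1)) by ring, ← mul_assoc (2 : ℝ), mul_pow,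
          mul_pow (3 : ℝ), ← pow_mul, pow_succ L]
        ring
  calc _ = 3 ^ d * L * (2 ^ a) ^ d *
        (nuP (P n) (x n) (jac (Φ n)) * (2 ^ R n) ^ d / vol (K n)) := by
        rw [pow_add, mul_pow]
        ring
    _ ≤ _ := mul_le_mul_of_nonneg_right b3 (by positivity)

end Pool.Agent.MP_5168f5_an.AN.Vo
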