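import Pool.Agent.MP_5168f5_an.AN.SpecV

/-! The number of cells of the frame over one cell of the coordinates. -/

namespace Pool.Agent.MP_5168f5_an.AN.Vo

open H19 H17S H17F Filter MvPolynomial Metric Nc MeasureTheory Set

namespace VLoDA

variable {d : ℕ}

theorem fib (R : ℕ) (w : Z d) : (flv R : V d → Z d) ⁻¹' {w} =
    Set.pi univ fun i => Ico (((2 : ℝ) ^ R)⁻¹ * w i) (((2 : ℝ) ^ R)⁻¹ * w i + ((2 : ℝ) ^ R)⁻¹) := by
  ext u
  have h : (0 : ℝ) < 2 ^ R := by positivity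
  simp only [mem_preimage, mem_singleton_iff, funext_iff, flv, fl1, Int.floor_eq_iff, Set.mem_pi,
    mem_univ, true_imp_iff, mem_Ico, ← mul_add_one, inv_mul_le_iff₀ h, lt_inv_mul_iff₀ h]

theorem card_le (R : ℕ) (T : Finset (Z d)) {U : Set (V d)} {b : ℝ} (hb : 0 ≤ b)
    (hU : volume U ≤ ENNReal.ofReal b) (h : ∀ w ∈ T, (flv R : V d → Z d) ⁻¹' {w} ⊆ U) :
    (T.card : ℝ) ≤ b * (2 ^ R) ^ d := by
  have h1 := sum_measure_preimage_singleton (μ := volume) T (f := (flv R : V d → Z d))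
    fun w _ => by rw [fib]; exact MeasurableSet.univ_pi fun _ => measurableSet_Ico
  have h2 := (h1.trans_le (measure_mono fun u hu => h _ hu rfl)).trans hU
  simp only [fib, Real.volume_pi_Ico, add_sub_cancel_left, Finset.prod_const, Finset.card_univ,
    Fintype.card_fin, Finset.sum_const, nsmul_eq_mul] at h2
  rw [← ENNReal.ofReal_pow (by positivity), ← ENNReal.ofReal_natCast,
    ← ENNReal.ofReal_mul (by positivity), ENNReal.ofReal_le_ofReal_iff hb, inv_pow,
    mul_inv_le_iff₀ (by positivity)] at h2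
  exact h2

theorem img (Φ : Fin d → Pl d) (a b : V d) {J : ℝ} :
    volume (ev Φ '' (Icc a b ∩ {y | |eval y (jac Φ)| ≤ J})) ≤
      ENNReal.ofReal J * ∏ i, ENNReal.ofReal (b i - a i) := by
  have m : MeasurableSet (Icc a b ∩ {y : V d | |eval y (jac Φ)| ≤ J}) := measurableSet_Icc.inter
    (isClosed_le (MvPolynomial.continuous_eval _).abs continuous_const).measurableSet
  refine (addHaar_image_le_lintegral_abs_det_fderiv volume m fun y _ =>
    (hasFDerivAt_ev Φ y).hasFDerivWithinAt).trans ((setLIntegral_mono' m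
      (g := fun _ => ENNReal.ofReal J) fun y hy => ?_).trans ?_)
  · rw [det_dev]
    exact ENNReal.ofReal_le_ofReal hy.2
  · rw [setLIntegral_const, ← Real.volume_Icc_pi]
    exact mul_le_mul_right (measure_mono inter_subset_left) _

end VLoDA

open VLoDA in
theorem vLoD : LoD := by
  intro d Φ K z R J hJ
  set U := ev Φ '' (Icc (fun j => ((2 : ℝ) ^ K j)⁻¹ * z j - ((2 : ℝ) ^ K j)⁻¹)
    (fun j => ((2 : ℝ) ^ K j)⁻¹ * z j + 2 * ((2 : ℝ) ^ K j)⁻¹) ∩ {y | |eval y (jac Φ)| ≤ J})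
  have v := vol_pos K
  have hU : volume U ≤ ENNReal.ofReal (3 ^ d * J / vol K) := (img Φ _ _).trans_eq (by
    rw [← ENNReal.ofReal_prod_of_nonneg fun i _ => by
      linarith [show 0 < ((2 : ℝ) ^ K i)⁻¹ by positivity], ← ENNReal.ofReal_mul hJ.le,
      Finset.prod_congr rfl (g := fun i => 3 * ((2 : ℝ) ^ K i)⁻¹) fun i _ => by ring,
      Finset.prod_mul_distrib, Finset.prod_inv_distrib, vol]
    simp only [Finset.prod_const, Finset.card_univ, Fintype.card_fin]
    congr 1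
    ring)
  have key := fun T => card_le R T (by positivity) hU
  have fin : {w : Z d | (flv R : V d → Z d) ⁻¹' {w} ⊆ U}.Finite := by
    by_contra h
    obtain ⟨k, hk⟩ := exists_nat_gt (3 ^ d * J / vol K * (2 ^ R) ^ d)
    obtain ⟨T, h1, h2⟩ := Set.Infinite.exists_subset_card_eq h k
    exact hk.not_ge (h2 ▸ key T h1)
  refine ⟨fin.toFinset, (key _ fun w hw => fin.mem_toFinset.1 hw).trans_eq (by ring),
    fun y hy h => fin.mem_toFinset.2 fun u hu => ?_⟩
  obtain ⟨y', h1, h2, h3⟩ := h u hu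
  refine ⟨y', ⟨⟨fun j => ?_, fun j => ?_⟩, h3⟩, h1⟩
  · have := fl1_le (K j) (y j)
    rw [show fl1 (K j) (y j) = z j from congrFun hy j] at this
    linarith [(abs_le.1 (h2 j)).1]
  · have := lt_fl1 (K j) (y j)
    rw [show fl1 (K j) (y j) = z j from congrFun hy j] at this
    linarith [(abs_le.1 (h2 j)).2]

theorem vLoP : OfLoP := by
  intro hD d D ν Φ K R Λ z h0 hR hν hΦ ha
  obtain ⟨T, h1, h2⟩ := hD d Φ K z R (Λ * ν (jac Φ)) (mul_pos h0 hν)
  refine ⟨T, h1.trans_eq (by ring), fun y σ h e => h2 y e fun u hu => ?_⟩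
  have n1 := norm_sub_lt_of_flv_eq hu
  have m : u ∈ ball (ev Φ y) Λ⁻¹ := mem_ball_iff_norm.2 (n1.trans_le (inv_anti₀ h0 hR))
  refine ⟨σ u, h.sheet.inv u m, fun j => ?_, val_le h ((deg_jac hΦ).trans (Nat.le_succ _)) m⟩
  obtain ⟨a, h3⟩ := ha j
  have dg : (X j - C a : Pl d).totalDegree ≤ d * D + 1 :=
    (totalDegree_sub _ _).trans (by simp)
  have h4 := h.lip dg le_rfl (h.mem h0) m
  have h5 := h.nn _ dg
  simp only [h.base, map_sub, eval_X, eval_C, sub_sub_sub_cancel_right] at h4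
  refine h4.trans ((mul_le_mul_of_nonneg_left (mul_le_mul_of_nonneg_left n1.le d.cast_nonneg)
    (by positivity)).trans ?_)
  rw [← mul_assoc, mul_inv_le_iff₀ (by positivity), le_inv_mul_iff₀ (by positivity)]
  linarith

end Pool.Agent.MP_5168f5_an.AN.Vo
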