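import Pool.Agent.MP_5168f5_an.AN.SpecV

/-! Lists of values that hold outside a small event. -/

namespace Pool.Agent.MP_5168f5_an.AN.Vo

open H19 H17S H17F Filter MvPolynomial Metric Nc

namespace VLsA

section One

variable {Ω α α' β β' γ : Type} (P : FP Ω)

theorem ne : ∃ ω, ω ∈ P.S :=
  Finset.nonempty_of_sum_ne_zero (f := P.p) (by rw [P.sum_one]; exact one_ne_zero)

theorem mono (A : Ω → α) (A' : Ω → α') (B : Ω → β) (B' : Ω → β') (b : β → ℝ) (b' : β' → ℝ)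
    (ε : ℝ) (h : Lst P A B b ε) (hA : Fn P A' fun ω => (A ω, B' ω)) (hB : Fn P B B')
    (h0 : ∀ z, 0 ≤ b' z) (hb : ∀ ω ∈ P.S, b (B ω) ≤ b' (B' ω)) : Lst P A' B' b' ε := by
  classical
  obtain ⟨T, h1, h2⟩ := h
  have : Nonempty Ω := ⟨(ne P).choose⟩
  refine ⟨fun z => if ∃ ω ∈ P.S, B' ω = z then
    (T (B (Classical.epsilon fun ω => ω ∈ P.S ∧ B' ω = z))).image fun a =>
      A' (Classical.epsilon fun ω => ω ∈ P.S ∧ (A ω, B' ω) = (a, z)) else ∅, fun z => ?_,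
    (pb_mono fun ω hω k k' => k ?_).trans h2⟩
  · dsimp only
    split_ifs with e
    · have e1 := Classical.epsilon_spec e
      refine le_trans (by exact_mod_cast Finset.card_image_le) ((h1 _).trans ?_)
      exact (hb _ e1.1).trans_eq (congrArg b' e1.2)
    · simpa using h0 z
  · have e : ∃ a ∈ P.S, B' a = B' ω := ⟨ω, hω, rfl⟩
    have e1 := Classical.epsilon_spec e
    have e2 := Classical.epsilon_spec (p := fun a => a ∈ P.S ∧ (A a, B' a) = (A ω, B' ω))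
      ⟨ω, hω, rfl⟩
    dsimp only
    rw [if_pos e, hB _ e1.1 _ hω e1.2]
    exact Finset.mem_image.2 ⟨_, k', hA _ e2.1 _ hω e2.2⟩

theorem trans (A : Ω → α) (B : Ω → β) (G : Ω → γ) (b b' : γ → ℝ) (ε ε' : ℝ)
    (h : Lst P A (fun ω => (B ω, G ω)) (fun z => b z.2) ε) (h' : Lst P B G b' ε') :
    Lst P (fun ω => (A ω, B ω)) G (fun z => b z * b' z) (ε + ε') := by
  classical
  obtain ⟨T, h1, h2⟩ := h
  obtain ⟨U, h3, h4⟩ := h'
  refine ⟨fun g => (U g).biUnion fun z => (T (z, g)).image fun a => (a, z), fun g => ?_,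
    (pb_mono fun ω _ k => ?_).trans ((pb_or P _ _).trans (add_le_add h2 h4))⟩
  · have h0 : 0 ≤ b g := (Nat.cast_nonneg _).trans (h1 (B (ne P).choose, g))
    calc _ ≤ ∑ z ∈ U g, (((T (z, g)).image fun a => (a, z)).card : ℝ) := by
          exact_mod_cast Finset.card_biUnion_le
      _ ≤ (U g).card • b g := Finset.sum_le_card_nsmul _ _ _ fun z _ =>
          le_trans (by exact_mod_cast Finset.card_image_le) (h1 (z, g))
      _ ≤ _ := by rw [nsmul_eq_mul, mul_comm]; exact mul_le_mul_of_nonneg_left (h3 g) h0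
  · by_contra e
    push Not at e
    exact k (Finset.mem_biUnion.2 ⟨_, e.2, Finset.mem_image.2 ⟨_, e.1, rfl⟩⟩)

theorem glue (A : Ω → α) (B : Ω → β) (Q : Ω → γ) (g : γ → Prop) (b : β × γ → ℝ) (ε ε' : ℝ)
    (h0 : 0 ≤ ε) (hb : ∀ z, 0 ≤ b z)
    (h : ∀ ω ∈ P.S, g (Q ω) → Lst (cv P Q (Q ω)) A B (fun z => b (z, Q ω)) ε)
    (h' : pb P (fun ω => ¬g (Q ω)) ≤ ε') : Lst P A (fun ω => (B ω, Q ω)) b (ε + ε') := by
  classical
  have : ∀ q, ∃ T : β → Finset α, (∀ z, ((T z).card : ℝ) ≤ b (z, q)) ∧ ∀ ω ∈ P.S, Q ω = q → g q →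
      pb (cv P Q q) (fun ω => A ω ∉ T (B ω)) ≤ ε := fun q => by
    by_cases e : ∃ ω ∈ P.S, Q ω = q ∧ g q
    · obtain ⟨ω, a, rfl, c⟩ := e
      exact (h ω a c).imp fun T k => ⟨k.1, fun _ _ _ _ => k.2⟩
    · exact ⟨fun _ => ∅, fun z => by simpa using hb _, fun ω a c d => (e ⟨ω, a, c, d⟩).elim⟩
  choose T h1 h2 using this
  refine ⟨fun z => T z.2 z.1, fun z => h1 _ _, le_trans ?_ (add_le_add le_rfl h')⟩
  have e := R4.ke.exp P Q fun q ω => if A ω ∉ T q (B ω) then (1 : ℝ) else 0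
  have e1 : pb P (fun ω => A ω ∉ T (Q ω) (B ω)) =
      P.E fun ω => pb (cv P Q (Q ω)) fun a => A a ∉ T (Q ω) (B a) := by
    unfold pb
    convert e
  rw [e1, ← P.E_const ε]
  refine (P.E_mono fun ω hω => ?_).trans_eq (P.E_add _ _)
  split_ifs with k
  · exact (pb_le_one _ _).trans (le_add_of_nonneg_left h0)
  · exact (h2 _ ω hω rfl (not_not.1 k)).trans_eq (add_zero _).symm

theorem cond (A : Ω → α) (B : Ω → β) (b : β → ℝ) (ε κ : ℝ) (G : Ω → Prop) (h : Lst P A B b ε)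
    (hκ : 0 < κ) (hG : κ ≤ pb P G) : Lst (cE P G) A B b (ε / κ) :=
  h.imp fun T k => ⟨k.1, by
    rw [le_div_iff₀' hκ]
    exact (mul_le_mul_of_nonneg_right hG (pb_nonneg _ _)).trans ((pb_cE P _ _).trans_le
      ((pb_mono fun _ _ e => e.2).trans k.2))⟩

theorem box1 {d : ℕ} (K : Fin d → ℕ) {l : ℝ} (hl : 1 ≤ l) : ∃ T : Finset (Z d),
    (T.card : ℝ) ≤ 5 ^ d * l ^ d * vol K ∧ ∀ y : V d, ‖y‖ ≤ l → cel K y ∈ T := by
  refine ⟨Fintype.piFinset fun j => Finset.Icc (-⌈2 ^ K j * l⌉) ⌈2 ^ K j * l⌉, ?_, fun y hy => ?_⟩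
  · rw [Fintype.card_piFinset, Nat.cast_prod, ← mul_pow, vol,
      show (5 * l) ^ d = ∏ _j : Fin d, 5 * l by simp, ← Finset.prod_mul_distrib]
    refine Finset.prod_le_prod (fun _ _ => Nat.cast_nonneg _) fun j _ => ?_
    have h1 : (1 : ℝ) ≤ 2 ^ K j * l := one_le_mul_of_one_le_of_one_le (one_le_pow₀ one_le_two) hl
    have h2 := Int.ceil_lt_add_one ((2 : ℝ) ^ K j * l)
    have h3 : (0 : ℤ) ≤ ⌈(2 : ℝ) ^ K j * l⌉ := Int.ceil_nonneg (by linarith)
    rw [Int.card_Icc, ← Int.cast_natCast, Int.toNat_of_nonneg (by linarith)]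
    push_cast
    linarith
  · refine Fintype.mem_piFinset.2 fun j => Finset.mem_Icc.2 ?_
    have h1 := abs_le.1 ((norm_le_pi_norm y j).trans hy)
    have h2 := Int.le_ceil ((2 : ℝ) ^ K j * l)
    have h3 : (0 : ℝ) ≤ 2 ^ K j := by positivity
    have h4 := mul_le_mul_of_nonneg_left h1.1 h3
    refine ⟨Int.le_floor.2 ?_, (Int.floor_le_ceil _).trans
      (Int.ceil_mono (mul_le_mul_of_nonneg_left h1.2 h3))⟩
    push_cast
    linarith

theorem ent1 (A : Ω → α) (B : Ω → β) (b : β → ℝ) {t u δ : ℝ} (ht : 0 ≤ t)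
    (h : Lst P A B (fun z => Real.exp t * b z) δ) (hd : Det P A B (Real.exp u))
    (hb : ∀ ω ∈ P.S, |Real.log (b (B ω))| ≤ u) :
    ch P A B ≤ P.E (fun ω => Real.log (b (B ω))) + (lg + t + 2 * (δ * u)) := by
  classical
  obtain ⟨T, h1, h2⟩ := h
  have hu : 0 ≤ u := (abs_nonneg _).trans (hb _ (ne P).choose_spec)
  have e1 := R4.ke.le P (fun ω => A ω ∈ T (B ω)) A B
  have e2 := mul_le_mul_of_nonneg_left ((ch_det (det_cE hd fun ω => A ω ∉ T (B ω))).trans_eq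
    (Real.log_exp u)) (pb_nonneg P fun ω => A ω ∉ T (B ω))
  have e3 := mul_le_mul_of_nonneg_right h2 hu
  have e4 : pb P (fun ω => A ω ∈ T (B ω)) * ch (cE P fun ω => A ω ∈ T (B ω)) A B ≤
      pb P (fun ω => A ω ∈ T (B ω)) *
        (cE P fun ω => A ω ∈ T (B ω)).E fun ω => Real.log (Real.exp t * b (B ω)) := by
    by_cases e : ∃ ω ∈ P.S, A ω ∈ T (B ω)
    · exact mul_le_mul_of_nonneg_left (ch_detE _ (fun _ _ _ _ k => by rw [k]) fun a _ =>
        ⟨T (B a), h1 _, fun c hc k => k ▸ ((mem_cE e c).1 hc).2⟩) (pb_nonneg _ _)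
    · rw [pb_zero fun ω a k => e ⟨ω, a, k⟩, zero_mul, zero_mul]
  have e5 : pb P (fun ω => A ω ∈ T (B ω)) *
        (cE P fun ω => A ω ∈ T (B ω)).E (fun ω => Real.log (Real.exp t * b (B ω))) ≤
      P.E (fun ω => Real.log (b (B ω))) + (t + u * pb P fun ω => A ω ∉ T (B ω)) := by
    rw [E_cE, ← P.E_const t]
    unfold pb
    rw [← FP.E_mul, ← FP.E_add, ← FP.E_add, P.E_const]
    refine P.E_mono fun ω hω => ?_
    by_cases k : A ω ∈ T (B ω)
    · have k1 : 0 < Real.exp t * b (B ω) :=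
        lt_of_lt_of_le (by exact_mod_cast Finset.card_pos.2 ⟨_, k⟩) (h1 _)
      have k2 := (pos_iff_pos_of_mul_pos k1).1 (Real.exp_pos t)
      simp only [k, if_true, not_true, if_false, mul_zero, add_zero]
      rw [Real.log_mul (Real.exp_pos t).ne' k2.ne', Real.log_exp, add_comm]
    · simp only [k, if_false, not_false_iff, if_true, mul_one]
      linarith [(abs_le.1 (hb ω hω)).1]
  rw [← pb_not] at e1
  linarith

end One

end VLsA

theorem vLs : Ls where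
  mono := VLsA.mono
  trans := VLsA.trans
  glue := VLsA.glue
  cond := VLsA.cond
  box := fun {_ d} P u M K hM h ε hε c hc => by
    have h0 : 0 < c / (d + 1) := by positivity
    filter_upwards [h _ h0 ε hε, ex_pow hM (5 ^ d) d hc] with n a b
    obtain ⟨T, h1, h2⟩ := VLsA.box1 (K n) (one_le_ex M h0 n)
    exact ⟨fun _ => T, fun _ => h1.trans (mul_le_mul_of_nonneg_right b (vol_pos _).le),
      (pb_mono fun ω _ k k' => k (h2 _ k')).trans a⟩
  ent := fun P M A B b C hM h h' ε hε => by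
    filter_upwards [h (ε / 6 / (|C| + 1)) (by positivity) (ε / 3) (by positivity), h',
      hM.sm lg (ε / 3) (by positivity)] with n u v w
    have h1 := VLsA.ent1 (P n) (A n) (B n) (b n) (by positivity) u v.1 v.2
    have h2 : C * M n ≤ (|C| + 1) * M n :=
      mul_le_mul_of_nonneg_right (by linarith [le_abs_self C]) (Nat.cast_nonneg _)
    have h3 := mul_le_mul_of_nonneg_left h2 (show 0 ≤ ε / 6 / (|C| + 1) by positivity)
    rw [← mul_assoc (ε / 6 / _) (|C| + 1), div_mul_cancel₀ _ (by positivity)] at h3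
    linarith

end Pool.Agent.MP_5168f5_an.AN.Vo
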