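import Pool.Agent.MP_5168f5_an.AN.SpecV

/-! Typical points are nice; common functions of both kinds are constant. -/

namespace Pool.Agent.MP_5168f5_an.AN.Vo

open H19 H17S H17F Filter MvPolynomial Metric Nc

theorem vNiW : OfNiW := by
  classical
  intro h1 h2 d Ω P x M Φ D hI hF E K
  have hM := hI.big
  obtain ⟨N, c, A, hA, hn⟩ := nice_nu d D E K (Pk.mons (Fin d) E).card
  refine Wp.of (p' := fun n l ω =>
    ∃ σ, NiceAt (Φ n) (nuP (P n) (x n)) D E K (A * (l ^ 3) ^ c) (x n ω) σ) (fun a a0 => ?_) hM A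
    (3 * c) (Eventually.of_forall fun n l l' k e ω _ ⟨σ, h⟩ =>
      ⟨σ, h.mono (by positivity) (by rwa [← pow_mul]) le_rfl le_rfl⟩)
  obtain ⟨l, hl⟩ : ∃ l : ℕ → ℝ, l = fun n => Real.exp (a * M n) := ⟨_, rfl⟩
  have l1 : ∀ n, 1 ≤ l n := hl ▸ one_le_ex M a0
  have hex : ∀ n, ∃ H : Pl d, H.totalDegree ≤ N ∧ ((∀ i, (Φ n i).totalDegree ≤ D) →
      jac (Φ n) ≠ 0 → Bas (nuP (P n) (x n)) E (Pk.mons (Fin d) E).card → Pk.cn H = 1 ∧
      ∀ ω ∈ (P n).S, ‖ev (Φ n) (x n ω)‖ ≤ l n ^ 3 → Gd (nuP (P n) (x n)) E (l n ^ 3) (x n ω) →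
        (l n ^ 3)⁻¹ ≤ |eval (x n ω) (aeval (Φ n) H)| →
        ∃ σ, NiceAt (Φ n) (nuP (P n) (x n)) D E K (A * (l n ^ 3) ^ c) (x n ω) σ) := fun n => by
    by_cases k : (∀ i, (Φ n i).totalDegree ≤ D) ∧ jac (Φ n) ≠ 0 ∧
      Bas (nuP (P n) (x n)) E (Pk.mons (Fin d) E).card
    · obtain ⟨H, g1, g2, g3⟩ := hn (Φ n) _ (l n ^ 3) (∑ ω ∈ (P n).S, ‖x n ω‖)
        (one_le_pow₀ (l1 n)) k.1 k.2.1 k.2.2
      exact ⟨H, g2, fun _ _ _ => ⟨g1, fun ω hω k1 k2 k3 => g3 _ (Finset.single_le_sum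
        (f := fun ω => ‖x n ω‖) (fun _ _ => norm_nonneg _) hω) k1 k2 (by rwa [← eval_aeval])⟩⟩
    · exact ⟨0, by simp, fun k1 k2 k3 => absurd ⟨k1, k2, k3⟩ k⟩
  choose H g1 g2 using hex
  have w : Whp P fun n ω => nuP (P n) (x n) (aeval (Φ n) (H n)) ≤
      Real.exp (a * M n) * |eval (x n ω) (aeval (Φ n) (H n))| := fun ε hε => by
    filter_upwards [hI.low (N * D) ε hε a a0, hF.deg] with n k e
    simpa only [not_le] using k _ (kc.deg _ _ N D (g1 n) e)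
  obtain ⟨p1, p2⟩ := h2.pos d Ω P x M D Φ hF
  refine ((h1.gd d Ω P x M hM E a a0).and ((h1.gd d Ω P x M hM D a a0).and w)).mono ?_
  filter_upwards [hF.deg, p1, p2 E, hF.le a a0, hF.ind N a a0,
    G39.big_dl hM (Pk.mons (Fin d) N).card a0] with n b0 b1 b2 b3 b4 b5 ω hω ⟨k1, k2, k3⟩
  obtain ⟨c1, c2⟩ := g2 n b0 b1 (bas_nuP _ _ E b2)
  have p := l1 n
  rw [G39.dl_inv] at b5
  rw [show Real.exp (a * M n) = l n by rw [hl]] at *
  have q : l n * l n ≤ l n ^ 3 := by nlinarith [mul_nonneg (sub_nonneg.2 p) (mul_self_nonneg (l n))]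
  refine c2 ω hω ((pi_norm_le_iff_of_nonneg (by positivity)).2 fun i => (k2 _ (b0 i)).trans
    ((mul_le_mul_of_nonneg_left (b3 i) (by positivity)).trans q))
    (k1.mono (nuP_nonneg _ _) le_rfl (by nlinarith)) ?_
  obtain ⟨m, hm⟩ := ex_coeff (g1 n)
  have e1 := (b4 _ (g1 n) m).trans (mul_le_mul_of_nonneg_left k3 (by positivity))
  have e2 := hm.trans (mul_le_mul b5 e1 (abs_nonneg _) (by positivity))
  rw [inv_le_iff_one_le_mul₀' (by positivity)]
  linarith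

theorem vCst : Cst := by
  intro d Ω P x M β Z E F a θ hM hN hF hθ h c hc
  by_contra k
  obtain ⟨r, r', g1, g2⟩ := G39.rRnd Ω β β P (Z true) (Z false) Unit Finset.univ
    (fun n z _ => a true n z) (fun n z _ => a false n z) (fun n => 2 * θ n)
    (fun n ω => ∀ b, |eval (x n ω) (F n) - a b n (Z b n ω)| ≤ θ n) (fun n => by linarith [hθ n])
    (h.mono (Eventually.of_forall fun n ω _ e => ⟨e, fun _ _ => by
      have e1 := abs_le.1 (e true)
      have e2 := abs_le.1 (e false)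
      exact abs_le.2 ⟨by linarith, by linarith⟩⟩))
  refine g2.not_whp ((hN E (c / 2) (fun b n z ω =>
    eval (x n ω) (F n - C (bif b then r n z () else r' n z ()))) (half_pos hc)
    fun b n z => ⟨_, (totalDegree_sub_C_le _ _).trans (hF n), fun _ => rfl⟩).mono ?_)
  filter_upwards [not_ev.1 k, G39.big_dl hM 9 (half_pos hc)] with n e1 e2 ω _ e3 ⟨e4, e5⟩
  have e6 := not_le.1 fun e => e1 ⟨r n (Z true n ω) (), e⟩
  have t := hθ n
  have p := G39.dl_pos M (c / 2) n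
  refine e3 ⟨by simp only [cond_true, cond_false, e5 () (Finset.mem_univ _)],
    lt_trans (by positivity) e6, le_trans ?_ (mul_le_mul_of_nonneg_left e6.le p.le)⟩
  have e7 : G39.dl M (c / 2) n * Real.exp (c * M n) = (G39.dl M (c / 2) n)⁻¹ := by
    rw [G39.dl_inv, G39.dl, ← Real.exp_add]; congr 1; ring
  have e8 := abs_le.1 (e4 true)
  have e9 := abs_le.1 (g1 n (Z true n ω) ())
  rw [← mul_assoc, e7, cond_true, map_sub, eval_C]
  exact (abs_le.2 ⟨by linarith, by linarith⟩ : _ ≤ 9 * θ n).trans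
    (mul_le_mul_of_nonneg_right e2 t.le)

end Pool.Agent.MP_5168f5_an.AN.Vo
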