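import Pool.Agent.MP_5168f5_an.AN.SpecV

/-! Cells of the coordinates over one cell of the frame. -/

namespace Pool.Agent.MP_5168f5_an.AN.Vo

open H19 H17S H17F Filter MvPolynomial Metric Nc

namespace VUpA

theorem vol_add {d : ℕ} (K : Fin d → ℕ) (a : ℕ) : vol (fun j => K j + a) = (2 ^ a) ^ d * vol K := by
  simp [vol, pow_add, Finset.prod_mul_distrib, mul_comm]

theorem core (hU : UpP) (h1 : Ir1) (h2 : Ir2) (hD : Der) (hL : Ls) {d : ℕ} {Ω : ℕ → Type}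
    {P : ∀ n, FP (Ω n)} {x : ∀ n, Ω n → V d} {M : ℕ → ℕ} {Φ : ℕ → Fin d → Pl d} {D : ℕ}
    (hI : Irr P x M) (hF : Fr P x M Φ D) (K : ℕ → Fin d → ℕ) (R : ℕ → ℕ)
    (h : Ev M fun n L => ∀ j, col (nuP (P n) (x n)) (Φ n) j * 2 ^ R n ≤ L * 2 ^ K n j) {ε : ℝ}
    (hε : 0 < ε) : Ev M fun n L =>
      Lst (P n) (fun ω => cel (K n) (x n ω)) (fun ω => flv (R n) (ev (Φ n) (x n ω)))
        (fun _ => L * (vol (K n) / (2 ^ R n) ^ d / nuP (P n) (x n) (jac (Φ n)))) ε ∧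
      Lst (P n) (fun ω => cel (K n) (x n ω)) (fun _ => ())
        (fun _ => L * (vol (K n) / nuP (P n) (x n) (jac (Φ n)))) ε := by
  obtain ⟨A, hA, hU⟩ := hU d D
  obtain ⟨p1, p2⟩ := h2.pos d Ω P x M D Φ hF
  have hg : Ev M fun n L =>
      pb (P n) (fun ω => ¬Gd (nuP (P n) (x n)) ((d + 1) * D) L (x n ω)) ≤ ε / 2 :=
    fun c hc => h1.gd d Ω P x M hI.big _ c hc _ (half_pos hε)
  refine ((((h.and hg).and (hI.low (d * D) _ (half_pos hε))).and hF.le).and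
    (hD d Ω P x M Φ D hI hF ((d + 1) * D))).of hI.big (A * (2 * A) ^ d) (6 * d + 1) ?_
  filter_upwards [p1, p2 (d * D), hF.deg] with n q1 q2 q3 L L' l1 l2 ⟨⟨⟨⟨e1, e2⟩, e3⟩, e4⟩, _, e5, _⟩
  have hJ := q2 _ q1 (deg_jac q3)
  have hc : ∀ j, 0 ≤ col (nuP (P n) (x n)) (Φ n) j := fun j =>
    Finset.sum_nonneg fun _ _ => nuP_nonneg _ _ _
  obtain ⟨a, a1, a2⟩ := exists_nat_pow_near
    (one_le_mul_of_one_le_of_one_le hA (one_le_pow₀ (n := 4) l1)) one_lt_two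
  obtain ⟨u1, T, u2, u3⟩ := hU (nuP (P n) (x n)) (Φ n)
    (fun j => L * col (nuP (P n) (x n)) (Φ n) j) (fun j => K n j + (a + 1)) (R n) L (nuP_nonneg _ _)
    (fun j => mul_nonneg (by linarith) (hc j)) l1 hJ (fun i => ⟨q3 i, e4 i⟩) e5 fun j => by
      have b1 := mul_le_mul_of_nonneg_left (e1 j) (show 0 ≤ A * L ^ 3 by positivity)
      have b2 := mul_le_mul_of_nonneg_right a2.le (show (0 : ℝ) ≤ 2 ^ K n j by positivity)
      rw [pow_add]
      linarith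
  choose T' u4 u5 using u1
  have bad : ∀ E : Ω n → Prop, (∀ ω, Gd (nuP (P n) (x n)) ((d + 1) * D) L (x n ω) →
      nuP (P n) (x n) (jac (Φ n)) ≤ L * |eval (x n ω) (jac (Φ n))| → E ω) →
      pb (P n) (fun ω => ¬E ω) ≤ ε := fun E hE => by
    have b1 := pb_or (P n) (fun ω => ¬Gd (nuP (P n) (x n)) ((d + 1) * D) L (x n ω))
      fun ω => L * |eval (x n ω) (jac (Φ n))| < nuP (P n) (x n) (jac (Φ n))
    refine (pb_mono fun ω _ k => ?_).trans (b1.trans (by linarith [e3 _ (deg_jac q3)]))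
    by_contra k'
    rw [not_or, not_not, not_lt] at k'
    exact k (hE ω k'.1 k'.2)
  have hv : A * L ^ (2 * d + 1) * (2 ^ (a + 1)) ^ d ≤ L' := by
    refine le_trans ?_ l2
    have b1 : ((2 : ℝ) ^ (a + 1)) ^ d ≤ (2 * A * L ^ 4) ^ d :=
      pow_le_pow_left₀ (by positivity) (by rw [pow_succ]; linarith) d
    refine (mul_le_mul_of_nonneg_left b1 (by positivity)).trans_eq ?_
    rw [mul_pow _ (L ^ 4)]
    ring
  have hv' : A * L * (2 ^ (a + 1)) ^ d ≤ L' := le_trans (by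
    gcongr
    exact le_self_pow₀ l1 (by omega)) hv
  have l0 : 0 ≤ L' := le_trans (by positivity) hv
  have v0 := vol_pos (K n)
  have fn : ∀ {β : Type} (B : Ω n → β), Fn (P n) (fun ω => cel (K n) (x n ω))
      fun ω => (cel (fun j => K n j + (a + 1)) (x n ω), B ω) := fun B _ _ _ _ e =>
    funext fun j => fl1_eq_of_le (Nat.le_add_right _ _) (congrFun (Prod.ext_iff.1 e).1 j)
  refine ⟨hL.mono _ _ _ _ _ _ _ ε ⟨T', u4, bad _ fun ω k k' => u5 _ _ k k' rfl⟩ (fn _) (Fn.rfl _)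
    (fun _ => by positivity) fun _ _ => ?_, hL.mono _ _ _ _ _ _ _ ε
      ⟨fun _ => T, fun _ => u2, bad _ fun ω k k' => u3 _ k k'⟩ (fn _) (Fn.rfl _)
    (fun _ => by positivity) fun _ _ => ?_⟩
  · rw [vol_add, mul_div_assoc, mul_div_assoc, ← mul_assoc]
    exact mul_le_mul_of_nonneg_right hv' (by positivity)
  · rw [vol_add, mul_div_assoc, ← mul_assoc]
    exact mul_le_mul_of_nonneg_right hv (by positivity)

end VUpA

open VUpA in
theorem vUp : OfUp := fun hU h1 h2 hD hL =>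
  ⟨fun _ _ _ _ _ _ _ hI hF K R h _ hε c hc =>
      (core hU h1 h2 hD hL hI hF K R h hε c hc).mono fun _ k => k.1,
    fun _ _ _ _ _ _ _ hI hF K h _ hε c hc =>
      (core hU h1 h2 hD hL hI hF K (fun _ => 0) (by simpa using h) hε c hc).mono fun _ k => k.2⟩

end Pool.Agent.MP_5168f5_an.AN.Vo
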