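import Pool.Agent.MP_5168f5_an.AN.VUpD
import Pool.Agent.MP_5168f5_an.AN.VLoD
import Pool.Agent.MP_5168f5_an.AN.VBlur
import Pool.Agent.MP_5168f5_an.AN.VAlg
import Pool.Agent.MP_5168f5_an.AN.VIr1
import Pool.Agent.MP_5168f5_an.AN.VIr2
import Pool.Agent.MP_5168f5_an.AN.VNiW
import Pool.Agent.MP_5168f5_an.AN.VDer
import Pool.Agent.MP_5168f5_an.AN.VJfr
import Pool.Agent.MP_5168f5_an.AN.VUp
import Pool.Agent.MP_5168f5_an.AN.VLo
import Pool.Agent.MP_5168f5_an.AN.VLs

/-! Kakeya sets in all dimensions: frames and volumes of one cell, all statements. -/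

namespace Pool.Agent.MP_5168f5_an.AN.Vo

theorem alg : Alg := vAlg
theorem blur : Blur := vBlur
theorem upD : UpD := vUpD
theorem loD : LoD := vLoD
theorem upP : UpP := vUpP blur upD
theorem loP : LoP := vLoP loD
theorem ir1 : Ir1 := vIr1
theorem ir2 : Ir2 := vIr2
theorem ls : Ls := vLs
theorem cst : Cst := vCst
theorem niW : NiW := vNiW ir1 ir2
theorem der : Der := vDer alg ir1 niW
theorem jfr : Jfr := vJfr alg ir1 ir2 niW
theorem up : Up := (vUp upP ir1 ir2 der ls).1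
theorem up0 : Up0 := (vUp upP ir1 ir2 der ls).2
theorem lo : Lo := vLo loP ir2 niW ls

end Pool.Agent.MP_5168f5_an.AN.Vo
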