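import Pool.Agent.MP_5168f5_an.AN.SpecV

/-! The number of cells on which the frame is confined and the Jacobian is large. -/

namespace Pool.Agent.MP_5168f5_an.AN.Vo

open H19 H17S H17F Filter MvPolynomial Metric Nc MeasureTheory

namespace VUpDA

variable {d : ℕ}

theorem box (K : Fin d → ℕ) (z : Z d) : {y | cel K y = z} =
    Set.pi Set.univ fun j => Set.Ico ((z j : ℝ) / 2 ^ K j) ((z j + 1) / 2 ^ K j) := by
  ext y
  simp only [Set.mem_ofPred_eq, funext_iff, cel, fl1, Int.floor_eq_iff, Set.mem_univ_pi, Set.mem_Ico]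
  refine forall_congr' fun j => ?_
  rw [div_le_iff₀' (by positivity), lt_div_iff₀' (by positivity)]

theorem vbox (K : Fin d → ℕ) (z : Z d) :
    volume {y | cel K y = z} = ENNReal.ofReal (vol K)⁻¹ := by
  rw [box, Real.volume_pi_Ico, vol, ← Finset.prod_inv_distrib,
    ENNReal.ofReal_prod_of_nonneg fun _ _ => by positivity]
  exact Finset.prod_congr rfl fun j _ => by rw [← sub_div, add_sub_cancel_left, one_div]

theorem cnt (K : Fin d → ℕ) {S : Set (V d)} (U : Finset (Z d))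
    (h : ∀ z ∈ U, {y | cel K y = z} ⊆ S) : ENNReal.ofReal (U.card * (vol K)⁻¹) ≤ volume S := by
  refine le_trans (le_of_eq ?_) (measure_mono (Set.iUnion₂_subset h))
  rw [measure_biUnion_finset (fun a _ b _ e => Set.disjoint_left.2 fun y h1 h2 =>
    e (h1.symm.trans h2)) fun z _ => by
      rw [box]; exact MeasurableSet.univ_pi fun _ => measurableSet_Ico]
  simp only [vbox, Finset.sum_const, nsmul_eq_mul]
  rw [ENNReal.ofReal_mul (Nat.cast_nonneg _), ENNReal.ofReal_natCast]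

end VUpDA

open VUpDA

theorem vUpD : UpD := by
  intro d D
  refine ⟨((ord d D ^ d : ℕ) + 1) * 2 ^ d, one_le_mul_of_one_le_of_one_le
    (le_add_of_nonneg_left (Nat.cast_nonneg _)) (one_le_pow₀ one_le_two),
    fun Φ K c ρ J hΦ hρ hJ => ?_⟩
  set S := {y | ‖ev Φ y - c‖ ≤ ρ ∧ J ≤ |eval y (jac Φ)|} with hS
  have hm : MeasurableSet S :=
    ((isClosed_le ((continuous_ev Φ).sub continuous_const).norm continuous_const).inter
      (isClosed_le continuous_const (MvPolynomial.continuous_eval _).abs)).measurableSet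
  obtain ⟨H, h0, -, h1⟩ := fibre Φ hΦ
  have h2 := H83.AREA.bound (φ := ev Φ) (D := dev Φ) (T := closedBall c ρ) (M := ord d D ^ d) hm
    (fun y hy => ⟨hasFDerivAt_ev Φ y, mem_closedBall_iff_norm.2 hy.1⟩)
    ((H83.ae_ne_zero ⟨H, le_rfl, fun _ => rfl⟩ (H83.IsPoly.eval_ne_zero h0)).mono fun u hu =>
      (h1 u hu).imp fun R k => ⟨k.1, fun y _ => k.2 y⟩)
  have h3 : ENNReal.ofReal J * volume S ≤ _ := le_trans (by
    rw [← setLIntegral_const]
    exact setLIntegral_mono' hm fun y hy => ENNReal.ofReal_le_ofReal (by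
      rw [det_dev]; exact hy.2)) h2
  have hv := vol_pos K
  have h4 : ∀ U : Finset (Z d), (∀ z ∈ U, {y | cel K y = z} ⊆ S) →
      (U.card : ℝ) ≤ ((ord d D ^ d : ℕ) + 1) * 2 ^ d * ρ ^ d * vol K / J := fun U hU => by
    have h5 := (mul_le_mul_right (cnt K U hU) _).trans h3
    rw [Real.volume_pi_closedBall _ hρ.le, ← ENNReal.ofReal_mul hJ.le, ← ENNReal.ofReal_natCast,
      ← ENNReal.ofReal_mul (Nat.cast_nonneg _), ENNReal.ofReal_le_ofReal_iff (by positivity),
      Fintype.card_fin, mul_pow, ← mul_assoc, ← div_eq_mul_inv, div_le_iff₀ hv] at h5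
    rw [le_div_iff₀' hJ]
    refine h5.trans (mul_le_mul_of_nonneg_right ?_ hv.le)
    rw [mul_assoc]
    exact mul_le_mul_of_nonneg_right (le_add_of_nonneg_right zero_le_one) (by positivity)
  have h5 : {z | {y | cel K y = z} ⊆ S}.Finite := by
    by_contra h6
    obtain ⟨n, hn⟩ := exists_nat_gt (((ord d D ^ d : ℕ) + 1) * 2 ^ d * ρ ^ d * vol K / J)
    obtain ⟨U, u1, u2⟩ := Set.Infinite.exists_subset_card_eq h6 n
    exact absurd (u2 ▸ h4 U fun z hz => u1 hz) (not_le.2 hn)
  exact ⟨h5.toFinset, h4 _ fun z hz => h5.mem_toFinset.1 hz,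
    fun y hy => h5.mem_toFinset.2 fun y' e => hy y' e⟩

end Pool.Agent.MP_5168f5_an.AN.Vo
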